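import Pool.Agent.FT4D.Tab_c10

/-!
# Four levels: decision trees (found by a computer search)
-/

namespace Pool.Agent.FT4D

def c10t0 : Tr4 :=
  .br 1090 (.hor [.f 1090 1 5] []) .no (.con 136 [1, 3]) (.red [.f 954 3 1, .f 954 1 5] 136 136 []
  [(136, 136, [])]) .no (.con 136 [3])

def c10t1 : Tr4 :=
  .br 960 (.con 136 [3]) (.hor [.f 832 1 5] []) (.con 136 [3, 2]) .no .no .no

def c10t2 : Tr4 :=
  .br 1089 (.br 1091 (.con 136 [3]) (.con 136 [3, 1]) (.con 136 [3]) (.con 136 [3]) .no .no) (.red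
  [.f 953 1 3, .f 953 3 5] 136 136 [] [(136, 136, [])]) (.hor [.f 1089 3 5] []) .no .no (.con 136
  [1, 3])

def c10t3 : Tr4 :=
  .br 961 (.red [.f 953 1 3, .f 953 3 5] 136 136 [] [(136, 136, [])]) (.con 136 [3]) (.con 136
  [3]) .no .no (.con 136 [3])

def c10t4 : Tr4 :=
  .br 1090 (.hor [.f 1090 1 5] []) .no (.br 1089 (.con 136 [3]) (.con 136 [3, 1]) (.con 136 [3])
  (.con 136 [3]) .no (.con 136 [3])) (.red [.f 954 3 1, .f 954 1 5] 136 136 [] [(136, 136, [])])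
  .no (.con 136 [3])

def c10t5 : Tr4 :=
  .br 1081 (.con 136 [4, 1]) .no (.con 136 [4, 1]) (.hor [.f 1073 3 5] []) .no (.con 136 [4, 1])

def c10t6 : Tr4 :=
  .br 1075 (.red [.f 1075 1 3] 151 136 [4, 1] [(151, 136, [4, 1])]) (.con 136 [4, 4]) .no (.hor
  [.f 1066 3 5] []) .no .no

def c10t7 : Tr4 :=
  .br 1073 (.red [.t 1201 2 3, .f 1082 1 5] 151 136 [4, 1] [(151, 136, [4, 1])]) .no .no (.hor [.f
  1065 3 5] []) .no (.use 6)

def c10t8 : Tr4 :=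
  .br 1074 .no (.red [.t 945 3 1] 135 136 [4] [(135, 136, [4])]) .no (.use 7) (.red [.t 1210 4 2]
  151 136 [4, 1] [(151, 136, [4, 1])]) (.red [.f 1073 5 3, .f 1074 3 1, .f 1082 1 3] 151 136 [4,
  1] [(151, 136, [4, 1]), (152, 136, [1])])

def c10t9 : Tr4 :=
  .br 1210 (.hor [.f 1209 1 5] []) .no .no (.use 8) .no .no

def c10t10 : Tr4 :=
  .br 1209 (.use 9) .no (.red [.t 1217 4 2, .f 954 3 1, .f 962 1 5] 136 136 [] [(136, 136, []),
  (152, 136, [1])]) (.br 1210 (.con 136 [4, 1, 1]) .no .no (.use 8) .no .no) (.red [.f 1081 5 1,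
  .f 1082 1 3, .f 954 3 1] 136 136 [] [(136, 136, []), (152, 136, [1])]) .no

def c10t11 : Tr4 :=
  .br 1090 (.br 1080 (.use 10) .no .no (.con 136 [4, 1]) .no .no) .no (.con 136 [3, 1]) .no .no
  .no

def c10t12 : Tr4 :=
  .br 1090 (.hor [.f 1089 1 5] []) .no (.con 136 [3, 1]) .no .no .no

def c10t13 : Tr4 :=
  .br 1073 (.hor [.f 1073 1 5] []) .no .no (.con 136 [4, 1, 4]) .no (.con 136 [4, 4, 1])

def c10t14 : Tr4 :=
  .br 1217 (.br 1216 (.hor [.f 1216 1 5] []) .no .no (.br 1209 (.use 9) .no .no (.con 136 [4, 1,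
  1]) .no .no) .no .no) .no (.hor [.f 1089 3 1, .f 1089 1 5] [(153, 137, [1])]) (.red [.t 1217 4
  2, .f 954 3 1, .f 962 1 5] 136 136 [] [(136, 136, []), (152, 136, [1])]) .no (.hor [.t 1096 1 4,
  .f 1089 1 5] [(153, 137, [1])])

def c10t15 : Tr4 :=
  .br 969 .no (.red [.t 840 4 1, .f 824 1 3, .f 952 3 1] 136 136 [] [(120, 136, [2]), (121, 136,
  [2, 3]), (136, 136, [])]) (.hor [.f 968 3 5] []) .no (.br 1096 (.use 14) .no (.red [.f 968 3 1,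
  .t 1096 2 4, .t 961 1 4] 136 136 [] [(136, 136, []), (137, 136, [3]), (138, 136, [3, 3])]) .no
  .no .no) .no

def c10t16 : Tr4 :=
  .br 834 .no (.con 136 [2, 3, 2]) (.hor [.f 833 3 5] []) .no (.con 136 [2, 2, 3]) .no

def c10t17 : Tr4 :=
  .br 961 (.red [.t 961 1 4] 136 136 [] [(136, 136, [])]) (.use 1) (.br 960 (.con 136 [3]) (.br
  1089 (.br 1088 (.hor [.f 1088 1 5] []) .no (.con 136 [3, 1]) (.red [.f 824 1 3, .f 952 3 1] 136
  136 [] [(120, 136, [2]), (136, 136, [])]) .no .no) .no (.red [.f 961 3 1, .t 961 1 4] 136 136 []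
  [(136, 136, []), (137, 136, [3])]) .no (.red [.f 1081 5 3, .f 954 3 1] 136 136 [] [(136, 136,
  [])]) (.use 11)) (.hor [.f 960 3 5] []) .no .no .no) .no .no (.br 1089 (.use 12) .no (.br 1090
  (.br 1080 (.use 10) .no (.br 1210 (.br 825 .no (.br 826 .no (.hor [.f 697 1 5] []) (.con 136 [2,
  2]) (.br 946 (.red [.t 945 3 1, .t 1080 3 2] 136 136 [] [(135, 136, [4]), (136, 136, [])]) .no
  .no (.br 947 (.br 1074 (.br 1073 (.hor [.f 1073 1 5] []) .no .no (.con 136 [4, 1, 4]) .no (.con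
  136 [4, 4])) .no .no (.red [.f 938 3 1, .t 945 3 1] 135 136 [4] [(134, 136, [4, 4]), (135, 136,
  [4])]) .no (.red [.f 1073 5 3, .f 945 3 1] 135 136 [4] [(135, 136, [4])])) (.hor [.f 819 1 3, .f
  818 3 5] [(119, 136, [2, 4])]) .no (.hor [.f 938 3 5] []) .no .no) (.br 1075 (.red [.f 1075 1 3]
  151 136 [4, 1] [(151, 136, [4, 1])]) .no .no (.br 1074 (.use 13) .no .no (.hor [.f 1066 3 5] [])
  .no (.red [.f 1073 5 3, .f 945 3 1] 135 136 [4] [(135, 136, [4])])) .no (.red [.f 946 5 1, .t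
  945 3 1] 135 136 [4] [(135, 136, [4])])) .no) .no .no) (.red [.t 824 1 3, .f 952 3 1] 136 136 []
  [(120, 136, [2]), (136, 136, [])]) (.red [.f 817 3 1, .f 824 1 5, .f 952 5 3, .f 952 3 1] 136
  136 [] [(119, 120, [4]), (136, 136, [])]) (.br 833 .no (.br 832 .no (.hor [.f 704 1 5] []) (.br
  968 (.red [.t 1096 2 4, .t 961 1 4] 136 136 [] [(136, 136, []), (137, 136, [3])]) .no (.use 15)
  .no (.red [.f 960 5 3, .f 961 3 1, .t 961 1 4] 136 136 [] [(136, 136, []), (137, 136, [3])])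
  .no) .no .no .no) (.br 1096 (.use 14) (.red [.t 1096 2 4, .t 961 1 4] 136 136 [] [(136, 136,
  []), (137, 136, [3])]) (.br 968 .no (.br 834 .no (.con 136 [2, 3, 2]) (.hor [.f 833 3 5] []) .no
  (.con 136 [2, 3, 2]) .no) (.br 832 .no (.use 16) (.use 15) .no .no .no) .no (.red [.f 960 5 3,
  .f 961 3 1, .t 961 1 4] 136 136 [] [(136, 136, []), (137, 136, [3])]) .no) .no .no .no) .no
  (.red [.f 825 5 3, .t 824 1 3, .f 952 3 1] 136 136 [] [(120, 136, [2]), (136, 136, [])]) (.red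
  [.f 832 5 1, .f 824 1 3, .f 952 3 1] 136 136 [] [(120, 136, [2]), (136, 136, [])])) .no) .no .no
  (.use 8) .no (.red [.f 1081 5 1, .f 1082 1 3, .f 954 3 1] 136 136 [] [(136, 136, []), (152, 136,
  [1])])) (.con 136 [4, 1]) .no .no) .no (.hor [.f 1089 3 5] []) .no .no .no) .no (.red [.f 1081 5
  3, .f 954 3 1] 136 136 [] [(136, 136, [])]) (.use 11))

def c10t18 : Tr4 :=
  .br 1090 (.red [.f 1082 1 3, .f 954 3 1] 136 136 [] [(136, 136, []), (152, 136, [1])]) .no (.con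
  136 [3, 1]) .no .no .no

def c10t19 : Tr4 :=
  .br 1208 (.hor [.f 1208 1 5] []) .no .no .no .no .no

def c10t20 : Tr4 :=
  .br 1209 (.use 19) .no (.red [.t 1216 2 4, .f 1081 1 5] 152 136 [1] [(152, 136, [1])]) (.red [.t
  1200 2 3, .f 1081 1 5, .t 961 1 4] 136 136 [] [(136, 136, []), (151, 167, [2])]) .no (.red [.f
  1080 5 1, .f 1081 1 5, .t 961 1 4] 136 136 [] [(136, 136, [])])

def c10t21 : Tr4 :=
  .br 944 .no (.red [.f 816 1 3, .f 944 3 5, .f 952 5 1, .t 953 1 3] 136 136 [] [(119, 120, [4]),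
  (136, 136, [])]) .no (.red [.f 936 3 1, .t 944 1 3] 135 136 [4] [(134, 136, [4, 4]), (135, 136,
  [4])]) .no .no

def c10t22 : Tr4 :=
  .br 1072 (.red [.t 1200 2 3, .f 1081 1 5, .f 1081 5 3, .f 954 3 1] 136 136 [] [(136, 136, []),
  (151, 167, [2])]) (.red [.t 944 1 3, .t 953 1 3] 136 136 [] [(135, 136, [4]), (136, 136, [])])
  .no (.use 21) (.red [.f 1072 5 3, .f 945 3 1, .t 953 1 3] 136 136 [] [(135, 136, [4]), (136,
  136, [])]) .no

def c10t23 : Tr4 :=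
  .br 1208 (.hor [.f 1208 1 5] []) .no .no (.red [.f 1072 3 1, .f 1080 1 3] 152 136 [1] [(151,
  136, [1, 4]), (152, 136, [1])]) .no .no

def c10t24 : Tr4 :=
  .br 1208 (.br 1210 (.con 136 [1, 4, 1]) .no .no (.hor [.f 1201 3 5] []) (.con 136 [1, 4, 1])
  .no) .no .no (.red [.f 1072 3 1, .f 1080 1 3] 152 136 [1] [(151, 136, [1, 4]), (152, 136, [1])])
  .no .no

def c10t25 : Tr4 :=
  .br 1201 (.hor [.f 1201 1 3, .f 1200 3 5] [(167, 135, [1, 1])]) .no .no (.red [.f 1065 3 1, .f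
  1073 1 5] 150 136 [4, 4, 1] [(150, 136, [4, 4, 1])]) .no .no

def c10t26 : Tr4 :=
  .br 1064 (.red [.t 1192 2 3, .f 936 3 1] 134 136 [4, 4] [(134, 136, [4, 4]), (150, 136, [4, 4,
  1])]) .no .no (.hor [.f 1056 3 5] []) .no .no

def c10t27 : Tr4 :=
  .br 1201 (.hor [.f 1201 1 3, .f 1200 3 5] [(167, 135, [1, 1])]) .no .no (.br 1065 .no (.red [.t
  936 3 1] 134 136 [4, 4] [(134, 136, [4, 4])]) .no (.use 26) (.red [.t 1074 1 3, .t 1210 4 2, .t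
  1201 4 2] 150 136 [4, 4, 1] [(150, 136, [4, 4, 1])]) (.red [.f 1064 5 3, .f 936 3 1] 134 136 [4,
  4] [(134, 136, [4, 4])])) .no .no

def c10t28 : Tr4 :=
  .br 968 (.red [.t 1096 2 4, .t 961 1 4] 136 136 [] [(136, 136, []), (137, 136, [3])]) .no (.br
  969 .no (.red [.t 840 4 1, .f 824 1 3, .f 952 3 1] 136 136 [] [(120, 136, [2]), (121, 136, [2,
  3]), (136, 136, [])]) (.hor [.f 968 3 5] []) .no (.br 1096 (.br 947 .no (.red [.f 819 1 3, .f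
  947 3 1, .f 955 1 3, .f 954 3 5] 136 136 [] [(119, 136, [2, 4]), (135, 136, [4]), (136, 136,
  [])]) .no (.br 946 .no (.red [.t 945 3 2, .f 824 1 5, .f 952 5 3, .f 952 3 1] 136 136 [] [(119,
  118, [3]), (136, 136, [])]) .no (.hor [.f 938 3 5] []) .no .no) .no (.br 1210 (.br 1211 (.hor
  [.f 1210 1 5] []) .no (.br 1344 (.con 136 [3, 1, 1, 4, 2, 2]) (.hor [.f 1216 1 5] []) (.con 136
  [3, 1, 1, 4, 2, 2]) (.con 136 [3, 1, 1, 4, 2, 2]) .no .no) (.red [.f 1075 3 1, .f 1074 1 5, .f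
  946 5 1, .t 945 3 1] 135 136 [4] [(135, 136, [4]), (151, 135, [1])]) .no .no) .no .no .no (.red
  [.t 1074 1 3, .f 946 5 1, .t 945 3 1] 135 136 [4] [(135, 136, [4]), (151, 135, [1])]) .no)) .no
  (.red [.f 968 3 1, .t 1096 2 4, .t 961 1 4] 136 136 [] [(136, 136, []), (137, 136, [3]), (138,
  136, [3, 3])]) .no .no .no) .no) .no (.red [.f 960 5 3, .f 961 3 1, .t 961 1 4] 136 136 []
  [(136, 136, []), (137, 136, [3])]) .no

def c10t29 : Tr4 :=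
  .br 946 .no .no .no (.red [.f 938 3 1, .t 945 3 1] 135 136 [4] [(134, 136, [4, 4]), (135, 136,
  [4])]) (.red [.t 826 4 1, .f 947 3 1] 135 136 [4] [(119, 136, [4, 2]), (135, 136, [4])]) .no

def c10t30 : Tr4 :=
  .br 826 .no (.hor [.f 697 1 5] []) (.con 136 [2, 2]) (.use 29) .no .no

def c10t31 : Tr4 :=
  .br 1073 .no .no .no (.hor [.f 1065 3 5] []) .no .no

def c10t32 : Tr4 :=
  .br 1073 .no .no .no (.hor [.f 1065 3 5] []) .no .no

def c10t33 : Tr4 :=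
  .br 1353 (.br 1473 (.red [.f 1465 1 3] 200 136 [1, 1, 1, 1] [(200, 136, [1, 1, 1, 1])]) .no .no
  .no (.con 136 [1, 1, 1, 3]) (.red [.t 1352 4 1, .f 1336 1 3] 184 136 [1, 1, 1] [(184, 136, [1,
  1, 1]), (185, 136, [1, 1, 1, 3])])) .no (.hor [.f 1225 3 1, .f 1225 1 5] [(170, 154, [1])]) .no
  .no .no

def c10t34 : Tr4 :=
  .br 1336 (.br 1344 (.red [.f 1336 1 3, .f 1208 3 1, .f 1216 1 5] 168 136 [1, 1] [(168, 136, [1,
  1]), (184, 136, [1, 1, 1])]) .no (.br 1331 (.red [.f 1331 1 3] 183 136 [4, 1, 1, 1] [(183, 136,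
  [4, 1, 1, 1])]) .no .no (.br 1330 (.br 1465 (.use 33) .no (.br 1346 (.red [.t 1473 4 2, .f 1336
  1 5] 184 136 [1, 1, 1] [(184, 136, [1, 1, 1])]) .no .no .no (.con 136 [1, 1, 3, 1]) .no) (.con
  136 [4, 1, 1, 1, 4]) (.red [.f 1337 5 1, .f 1336 1 5, .t 1216 4 1] 168 136 [1, 1] [(168, 136,
  [1, 1])]) .no) .no .no (.hor [.f 1322 3 5] []) .no (.red [.f 1329 5 3, .f 1201 3 1, .f 1209 1 3]
  168 136 [1, 1] [(167, 136, [4, 1, 1]), (168, 136, [1, 1])])) .no (.red [.f 1202 5 1, .t 1201 3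
  1, .f 1209 1 3] 168 136 [1, 1] [(167, 136, [4, 1, 1]), (168, 136, [1, 1])])) .no .no .no) .no
  (.red [.f 1208 3 1, .f 1216 1 5] 168 136 [1, 1] [(168, 136, [1, 1])]) (.con 136 [4, 1, 1, 1])
  .no .no

def c10t35 : Tr4 :=
  .br 1339 (.use 34) .no (.con 136 [1, 1, 3, 2, 2]) (.red [.f 1202 5 3, .f 1203 3 1] 167 136 [4,
  1, 1] [(167, 136, [4, 1, 1])]) .no .no

def c10t36 : Tr4 :=
  .br 1339 (.use 34) .no (.con 136 [1, 1, 3, 2, 2]) (.red [.f 1202 5 3, .f 1203 3 1] 167 136 [4,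
  1, 1] [(167, 136, [4, 1, 1])]) .no .no

def c10t37 : Tr4 :=
  .br 1098 (.hor [.f 1090 1 3, .f 1089 3 5] [(153, 137, [1])]) .no (.br 1099 (.br 1337 (.br 1336
  (.hor [.f 1336 1 5] []) .no (.red [.f 1208 3 1, .f 1216 1 5] 168 136 [1, 1] [(168, 136, [1,
  1])]) (.br 1338 (.hor [.f 1337 1 5] []) .no (.br 1219 (.red [.t 1346 4 2] 168 136 [1, 1] [(168,
  136, [1, 1])]) .no .no .no .no .no) (.con 136 [4, 1, 1, 1]) (.con 136 [4, 1, 1, 1]) .no) .no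
  .no) .no .no (.red [.f 1201 3 1, .f 1209 1 3] 168 136 [1, 1] [(167, 136, [4, 1, 1]), (168, 136,
  [1, 1])]) (.br 1202 (.red [.t 1201 3 1, .f 1209 1 3] 168 136 [1, 1] [(167, 136, [4, 1, 1]),
  (168, 136, [1, 1])]) .no .no (.red [.f 1066 3 1, .t 1074 1 3, .f 946 5 1, .t 945 3 1] 135 136
  [4] [(135, 136, [4]), (150, 134, [1]), (151, 135, [1])]) (.br 1225 (.hor [.f 1217 1 3, .f 1089 3
  1, .f 1089 1 5] [(153, 137, [1]), (169, 137, [1, 1])]) .no (.br 841 .no (.hor [.f 705 1 3, .f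
  832 3 5] [(105, 104, [3])]) (.br 1226 (.br 977 (.hor [.t 1105 2 4, .f 968 3 5] [(138, 136, [3,
  3])]) .no (.br 1105 .no .no (.use 35) .no .no (.use 36)) .no (.br 1105 .no .no (.use 35) .no .no
  (.use 36)) .no) .no (.hor [.f 1098 3 1, .f 1090 1 3, .f 1089 3 5] [(153, 137, [1]), (154, 138,
  [1])]) .no .no .no) .no .no .no) .no (.hor [.t 1089 3 1, .f 1096 1 5] [(153, 137, [1])]) .no)
  .no) (.red [.t 1216 4 1] 168 136 [1, 1] [(168, 136, [1, 1])])) (.con 136 [3, 3]) (.hor [.f 1098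
  3 5] []) .no .no .no) .no (.br 1219 (.br 1225 (.hor [.f 1217 1 3, .f 1089 3 1, .f 1089 1 5]
  [(153, 137, [1]), (169, 168, [3])]) .no (.br 1226 (.br 1337 (.br 1338 (.hor [.f 1337 1 5] [])
  .no (.red [.t 1346 4 2] 168 136 [1, 1] [(168, 136, [1, 1])]) (.br 1336 (.hor [.f 1336 1 5] [])
  .no (.red [.f 1208 3 1, .f 1216 1 5] 168 136 [1, 1] [(168, 136, [1, 1])]) (.con 136 [4, 1, 1,
  1]) .no .no) (.red [.f 1210 5 1, .f 1211 1 3] 168 136 [1, 1] [(168, 136, [1, 1])]) .no) .no .no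
  (.red [.f 1201 3 1, .f 1209 1 3] 168 136 [1, 1] [(167, 136, [4, 1, 1]), (168, 136, [1, 1])])
  (.br 1202 (.red [.t 1201 3 1, .f 1209 1 3] 168 136 [1, 1] [(167, 136, [4, 1, 1]), (168, 136, [1,
  1])]) .no .no (.red [.f 1066 3 1, .t 1074 1 3, .f 946 5 1, .t 945 3 1] 135 136 [4] [(135, 136,
  [4]), (150, 134, [1]), (151, 135, [1])]) (.br 1339 (.br 1336 (.br 1344 (.red [.f 1336 1 3, .f
  1208 3 1, .f 1216 1 5] 168 136 [1, 1] [(168, 136, [1, 1]), (184, 136, [1, 1, 1])]) .no (.br 1331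
  (.red [.f 1331 1 3] 183 136 [4, 1, 1, 1] [(183, 136, [4, 1, 1, 1])]) .no .no (.br 1330 (.br 1465
  (.use 33) .no (.br 1346 (.red [.t 1473 4 2, .t 1346 4 2] 168 136 [1, 1] [(168, 136, [1, 1]),
  (184, 136, [1, 1, 1])]) .no .no .no .no .no) (.con 136 [4, 1, 1, 1, 4]) (.red [.f 1337 5 1, .f
  1336 1 5, .t 1216 4 1] 168 136 [1, 1] [(168, 136, [1, 1])]) .no) .no .no (.hor [.f 1322 3 5] [])
  .no (.red [.f 1329 5 3, .f 1201 3 1, .f 1209 1 3] 168 136 [1, 1] [(167, 136, [4, 1, 1]), (168,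
  136, [1, 1])])) .no (.red [.f 1202 5 1, .t 1201 3 1, .f 1209 1 3] 168 136 [1, 1] [(167, 136, [4,
  1, 1]), (168, 136, [1, 1])])) .no .no .no) .no (.red [.f 1208 3 1, .f 1216 1 5] 168 136 [1, 1]
  [(168, 136, [1, 1])]) (.con 136 [4, 1, 1, 1]) .no .no) .no .no (.red [.f 1202 5 3, .f 1203 3 1,
  .f 1211 1 3] 168 136 [1, 1] [(167, 136, [4, 1, 1]), (168, 136, [1, 1])]) .no .no) .no) (.red [.t
  1216 4 1] 168 136 [1, 1] [(168, 136, [1, 1])])) .no (.hor [.f 1225 3 5] []) .no (.red [.f 1098 5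
  1, .f 1090 1 3, .f 1089 3 5, .f 1081 5 3, .f 954 3 1] 136 136 [] [(136, 136, []), (153, 137,
  [1])]) .no) .no (.hor [.t 1089 3 1, .f 1096 1 5] [(153, 137, [1])]) .no) .no (.hor [.t 1218 2 3,
  .f 1089 3 5] [(153, 137, [1])]) .no .no .no) .no

def c10t38 : Tr4 :=
  .br 834 .no (.br 832 .no (.con 136 [2, 2, 3]) (.hor [.f 832 3 5] []) .no .no .no) (.hor [.f 833
  3 5] []) .no (.red [.t 954 3 2, .f 946 5 3, .f 945 3 5, .f 825 5 1, .f 826 1 3, .f 947 3 1] 135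
  136 [4] [(135, 136, [4])]) .no

def c10t39 : Tr4 :=
  .br 969 .no (.red [.t 840 4 1, .f 824 1 3, .f 952 3 1] 136 136 [] [(120, 136, [2]), (121, 136,
  [2, 3]), (136, 136, [])]) (.hor [.f 968 3 5] []) .no (.red [.f 968 3 1, .t 1096 2 4, .t 961 1 4]
  136 136 [] [(136, 136, []), (137, 136, [3]), (138, 136, [3, 3])]) .no

def c10t40 : Tr4 :=
  .br 968 .no .no (.use 39) .no (.red [.f 960 5 3, .f 961 3 1, .t 961 1 4] 136 136 [] [(136, 136,
  []), (137, 136, [3])]) .no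

def c10l0 : List Tr4 :=
  [c10t0, c10t1, c10t2, c10t3, c10t4, c10t5, c10t6, c10t7, c10t8, c10t9, c10t10, c10t11, c10t12,
  c10t13, c10t14, c10t15, c10t16, c10t17, c10t18, c10t19, c10t20, c10t21, c10t22, c10t23, c10t24,
  c10t25, c10t26, c10t27, c10t28, c10t29, c10t30, c10t31, c10t32, c10t33, c10t34, c10t35, c10t36,
  c10t37, c10t38, c10t39, c10t40]

theorem c10k0 : chkLF ⟨4, 0, 0, true, -8⟩ true 0 c10N 0 c10l0 = true := by decide +kernel

def c10t41 : Tr4 :=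
  .br 832 .no (.hor [.f 704 1 5] []) (.use 40) .no .no .no

def c10t42 : Tr4 :=
  .br 1217 (.br 825 .no (.use 30) (.red [.t 824 1 3, .f 952 3 1] 136 136 [] [(120, 136, [2]),
  (136, 136, [])]) (.red [.f 817 3 1, .f 824 1 5, .f 952 5 3, .f 952 3 1] 136 136 [] [(119, 120,
  [4]), (136, 136, [])]) (.br 946 .no (.red [.t 945 3 2, .f 824 1 5, .f 952 5 3, .f 952 3 1] 136
  136 [] [(119, 120, [4]), (136, 136, [])]) .no (.red [.f 938 3 1, .t 945 3 1] 135 136 [4] [(134,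
  136, [4, 4]), (135, 136, [4])]) (.br 833 .no (.br 834 .no (.hor [.f 705 1 5] []) (.br 832 .no
  (.hor [.f 704 1 5] []) (.br 968 (.red [.t 1096 2 4, .t 961 1 4] 136 136 [] [(136, 136, []),
  (137, 136, [3])]) .no (.br 969 .no (.red [.t 840 4 1, .f 824 1 3, .f 952 3 1] 136 136 [] [(120,
  136, [2]), (121, 136, [2, 3]), (136, 136, [])]) (.hor [.f 968 3 5] []) .no (.br 1096 (.br 1216
  (.hor [.f 1216 1 5] []) .no .no (.br 1209 (.hor [.f 1209 1 3, .f 1208 3 5] [(168, 136, [1, 1])])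
  .no .no (.br 1210 (.br 1211 (.hor [.f 1210 1 5] []) .no (.br 1337 (.br 1336 (.hor [.f 1336 1 5]
  []) .no (.hor [.f 1208 3 1, .f 1216 1 5] [(168, 136, [1, 1])]) (.br 1339 (.con 136 [4, 1, 1, 1])
  .no (.con 136 [4, 1, 1, 1]) (.br 1202 (.red [.f 1202 1 3, .f 1201 3 5] 167 136 [4, 1, 1] [(167,
  136, [4, 1, 1])]) .no .no (.br 1330 (.br 1329 (.red [.f 1329 1 3, .f 1328 3 5] 183 136 [4, 1, 1,
  1] [(183, 136, [4, 1, 1, 1])]) .no .no (.con 136 [4, 1, 1, 4, 1]) .no .no) .no .no (.red [.f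
  1194 3 1, .f 1202 1 3] 167 136 [4, 1, 1] [(166, 136, [4, 1, 1, 4]), (167, 136, [4, 1, 1])]) .no
  (.red [.t 1209 4 1] 167 136 [4, 1, 1] [(167, 136, [4, 1, 1])])) (.red [.t 1338 2 4, .f 1201 3 5]
  167 136 [4, 1, 1] [(167, 136, [4, 1, 1])]) .no) .no .no) .no .no) .no .no (.red [.f 1201 3 1, .f
  1209 1 5] 167 136 [4, 1, 1] [(167, 136, [4, 1, 1])]) .no (.hor [.t 1216 4 1, .t 1096 1 4, .f
  1089 1 5] [(153, 137, [1]), (168, 136, [1, 1])])) (.con 136 [4, 1, 1]) .no .no) .no .no (.hor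
  [.f 1201 3 5] []) (.br 944 (.use 31) (.red [.f 816 1 3, .f 944 3 5, .f 952 5 3, .f 952 3 1] 136
  136 [] [(119, 118, [3]), (136, 136, [])]) .no (.br 1072 (.use 32) .no .no (.red [.f 936 3 1] 134
  136 [4, 4] [(134, 136, [4, 4])]) (.use 37) .no) .no .no) .no) (.red [.f 1081 5 1, .f 1082 1 3,
  .f 954 3 1] 136 136 [] [(136, 136, []), (152, 136, [1])]) .no) .no .no) .no (.red [.f 968 3 1,
  .t 1096 2 4, .t 961 1 4] 136 136 [] [(136, 136, []), (137, 136, [3]), (138, 136, [3, 3])]) .no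
  .no .no) .no) .no (.red [.f 960 5 3, .f 961 3 1, .t 961 1 4] 136 136 [] [(136, 136, []), (137,
  136, [3])]) .no) .no .no .no) .no (.red [.t 954 3 2, .f 946 5 3, .f 945 3 5, .f 825 5 1, .f 826
  1 3, .f 947 3 1] 135 136 [4] [(135, 136, [4])]) .no) (.use 38) .no (.red [.f 825 5 3, .t 824 1
  3, .f 952 3 1] 136 136 [] [(120, 136, [2]), (136, 136, [])]) (.red [.f 832 5 1, .f 824 1 3, .f
  952 3 1] 136 136 [] [(120, 136, [2]), (136, 136, [])])) .no) .no) .no (.hor [.f 1089 3 1, .f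
  1089 1 5] [(153, 137, [1])]) (.red [.t 1217 4 2, .f 954 3 1, .f 962 1 5] 136 136 [] [(136, 136,
  []), (152, 136, [1])]) .no (.br 825 .no (.use 30) (.red [.t 824 1 3, .f 952 3 1] 136 136 []
  [(120, 136, [2]), (136, 136, [])]) (.red [.f 817 3 1, .f 824 1 5, .f 952 5 3, .f 952 3 1] 136
  136 [] [(119, 120, [4]), (136, 136, [])]) (.br 946 .no (.red [.t 945 3 2, .f 824 1 5, .f 952 5
  3, .f 952 3 1] 136 136 [] [(119, 120, [4]), (136, 136, [])]) .no (.red [.f 938 3 1, .t 945 3 1]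
  135 136 [4] [(134, 136, [4, 4]), (135, 136, [4])]) (.br 1096 (.hor [.t 1096 1 4, .f 1089 1 5]
  [(153, 137, [1])]) (.red [.t 1096 2 4, .t 961 1 4] 136 136 [] [(136, 136, []), (137, 136, [3])])
  (.br 833 .no (.use 41) (.use 38) .no (.red [.f 825 5 3, .t 824 1 3, .f 952 3 1] 136 136 []
  [(120, 136, [2]), (136, 136, [])]) (.red [.f 832 5 1, .f 824 1 3, .f 952 3 1] 136 136 [] [(120,
  136, [2]), (136, 136, [])])) .no .no .no) .no) .no)

def c10t43 : Tr4 :=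
  .br 1074 (.br 1209 (.br 1217 (.br 1208 (.hor [.f 1208 1 5] []) .no (.hor [.f 1209 1 3, .f 1208 3
  5] [(168, 136, [1, 1])]) (.br 1210 (.hor [.f 1209 1 5] []) .no .no .no (.br 944 (.br 1073 (.hor
  [.f 1073 1 5] []) .no .no (.use 25) .no .no) (.red [.f 816 1 3, .f 944 3 5, .f 952 5 3, .f 952 3
  1] 136 136 [] [(119, 120, [4]), (136, 136, [])]) .no (.br 1072 .no .no .no (.red [.f 936 3 1]
  134 136 [4, 4] [(134, 136, [4, 4])]) (.use 27) .no) .no .no) .no) .no .no) .no (.hor [.f 1089 3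
  1, .f 1089 1 5] [(153, 137, [1])]) .no .no (.br 1210 (.hor [.f 1209 1 5] []) .no .no .no (.br
  944 (.br 1073 (.hor [.f 1073 1 5] []) .no .no (.br 1208 (.hor [.f 1208 1 5] []) .no .no (.use
  25) .no .no) .no .no) (.red [.f 816 1 3, .f 944 3 5, .f 952 5 3, .f 952 3 1] 136 136 [] [(119,
  120, [4]), (136, 136, [])]) .no (.br 1072 (.br 1073 (.hor [.f 1072 1 5] []) .no .no (.con 136
  [4, 4, 1]) .no .no) .no .no (.red [.f 936 3 1] 134 136 [4, 4] [(134, 136, [4, 4])]) (.br 1208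
  (.hor [.f 1208 1 5] []) .no .no (.use 27) .no .no) .no) .no .no) .no)) .no (.red [.t 1217 4 2,
  .f 954 3 1, .f 962 1 5] 136 136 [] [(136, 136, []), (152, 136, [1])]) (.red [.t 1201 3 2, .f
  1074 3 5, .t 962 4 1] 136 136 [] [(136, 136, []), (151, 135, [1])]) (.red [.f 1081 5 1, .f 1082
  1 3, .f 954 3 1] 136 136 [] [(136, 136, []), (152, 136, [1])]) (.br 1217 (.br 825 .no (.br 826
  .no (.hor [.f 697 1 5] []) (.con 136 [2, 2]) (.br 947 .no (.hor [.f 819 1 3, .f 818 3 5] [(119,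
  136, [2, 4])]) .no (.br 946 .no .no .no (.hor [.f 938 3 5] []) .no .no) .no (.red [.t 826 4 1,
  .f 947 3 1] 135 136 [4] [(119, 136, [2, 4]), (135, 136, [4])])) .no .no) (.red [.t 824 1 3, .f
  952 3 1] 136 136 [] [(120, 136, [2]), (136, 136, [])]) (.red [.f 817 3 1, .f 824 1 5, .f 952 5
  3, .f 952 3 1] 136 136 [] [(119, 120, [4]), (136, 136, [])]) (.br 833 .no (.br 832 .no (.hor [.f
  704 1 5] []) (.use 28) .no .no .no) (.br 832 .no (.use 16) (.use 28) .no .no .no) .no (.red [.f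
  825 5 3, .t 824 1 3, .f 952 3 1] 136 136 [] [(120, 136, [2]), (136, 136, [])]) (.red [.f 832 5
  1, .f 824 1 3, .f 952 3 1] 136 136 [] [(120, 136, [2]), (136, 136, [])])) .no) .no (.hor [.f
  1089 3 1, .f 1089 1 5] [(153, 137, [1])]) .no .no (.red [.f 1208 5 3, .t 1217 4 2, .f 954 3 1]
  136 136 [] [(136, 136, []), (152, 136, [1])]))) (.red [.t 945 3 1, .t 1080 3 2] 136 136 []
  [(135, 136, [4]), (136, 136, [])]) .no (.use 42) .no (.red [.f 1073 5 3, .f 945 3 1] 135 136 [4]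
  [(135, 136, [4])])

def c10t44 : Tr4 :=
  .br 1208 (.hor [.f 1208 1 5] []) .no .no (.red [.f 1072 3 1] 151 136 [1, 4] [(151, 136, [1,
  4])]) .no .no

def c10t45 : Tr4 :=
  .br 1080 (.red [.f 1088 5 1, .f 1080 1 3] 152 136 [1] [(152, 136, [1])]) .no .no (.use 44) .no
  .no

def c10t46 : Tr4 :=
  .br 1216 (.con 136 [1, 3, 1]) .no (.hor [.f 1216 3 5] []) (.con 136 [1, 3, 1]) .no .no

def c10t47 : Tr4 :=
  .br 819 .no (.con 136 [4, 2, 2, 4]) .no (.red [.f 811 3 1, .f 818 1 5] 118 136 [4, 2, 4] [(118,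
  136, [4, 2, 4])]) .no .no

def c10t48 : Tr4 :=
  .br 937 (.red [.t 936 3 1, .f 1065 3 5] 134 136 [4, 4] [(134, 136, [4, 4])]) (.con 136 [4, 2, 4,
  4]) .no (.hor [.f 929 3 5] []) .no .no

def c10t49 : Tr4 :=
  .br 1073 (.br 1209 (.br 1210 (.hor [.f 1209 1 5] []) .no .no (.red [.t 1201 2 3, .f 1072 3 5]
  151 136 [4, 1] [(151, 136, [4, 1])]) (.red [.f 1209 1 3] 168 136 [1, 1] [(168, 136, [1, 1])])
  .no) .no .no .no (.red [.f 1081 5 1, .f 1073 1 3] 151 136 [4, 1] [(151, 136, [4, 1])]) (.red [.t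
  1072 3 1] 151 136 [4, 1] [(151, 136, [4, 1])])) .no .no (.hor [.f 1065 3 5] []) .no .no

def c10t50 : Tr4 :=
  .br 1073 .no .no .no (.hor [.f 1064 3 5] []) .no .no

def c10t51 : Tr4 :=
  .br 1216 (.hor [.f 1216 1 5] []) .no .no .no .no .no

def c10t52 : Tr4 :=
  .br 1098 (.red [.f 968 3 1, .t 968 1 4, .t 961 1 4] 136 136 [] [(136, 136, []), (137, 136, [3]),
  (138, 136, [3, 3])]) (.br 1216 (.hor [.f 1216 1 5] []) .no (.br 1097 (.red [.t 1224 4 2, .f 961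
  3 1, .t 961 1 4] 136 136 [] [(136, 136, []), (137, 136, [3]), (153, 136, [1, 3])]) .no (.hor [.f
  1096 3 5] []) .no .no .no) .no .no .no) (.red [.f 968 3 1, .t 968 1 4, .t 961 1 4] 136 136 []
  [(136, 136, []), (137, 136, [3]), (138, 136, [3, 3])]) .no (.red [.f 968 3 1, .t 968 1 4, .t 961
  1 4] 136 136 [] [(136, 136, []), (137, 136, [3]), (138, 136, [3, 3])]) (.red [.f 968 3 1, .t 968
  1 4, .t 961 1 4] 136 136 [] [(136, 136, []), (137, 136, [3]), (138, 136, [3, 3])])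

def c10t53 : Tr4 :=
  .br 1210 (.con 136 [1, 4, 1]) .no .no (.hor [.f 1201 3 5] []) (.con 136 [1, 4, 1]) .no

def c10t54 : Tr4 :=
  .br 1208 (.use 53) .no .no (.red [.f 1072 3 1] 151 136 [1, 4] [(151, 136, [1, 4])]) .no .no

def c10t55 : Tr4 :=
  .br 1209 (.use 45) .no .no (.br 1080 (.red [.f 1088 5 1, .f 1080 1 3] 152 136 [1] [(152, 136,
  [1])]) .no .no (.use 54) .no .no) (.red [.f 1081 5 1, .f 1082 1 3, .f 954 3 1] 136 136 [] [(136,
  136, []), (152, 136, [1])]) (.red [.f 1208 5 3, .t 1217 4 2, .f 954 3 1] 136 136 [] [(136, 136,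
  []), (152, 136, [1])])

def c10t56 : Tr4 :=
  .br 1089 (.use 12) (.red [.t 961 1 4] 136 136 [] [(136, 136, [])]) (.br 961 .no (.use 1) (.red
  [.f 961 3 1, .t 961 1 4] 136 136 [] [(136, 136, []), (137, 136, [3])]) .no .no (.br 1090 (.br
  1088 (.br 1080 (.red [.f 1080 1 3] 152 136 [1] [(152, 136, [1])]) .no .no (.br 1217 (.br 1074
  (.br 1209 (.use 23) .no .no (.con 136 [4, 1, 4]) (.red [.f 1081 5 1, .f 1082 1 3, .f 954 3 1]
  136 136 [] [(136, 136, []), (152, 136, [1])]) (.br 1073 (.red [.t 1072 3 1, .f 1080 1 3] 152 136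
  [1] [(151, 136, [4, 1]), (152, 136, [1])]) .no .no (.con 136 [4, 4, 1]) .no .no)) (.red [.t 945
  3 1, .f 1074 3 5] 135 136 [4] [(135, 136, [4])]) .no (.br 1209 (.use 23) .no .no (.use 24) (.red
  [.f 1081 5 1, .f 1082 1 3, .f 954 3 1] 136 136 [] [(136, 136, []), (152, 136, [1])]) (.br 1073
  (.red [.t 1072 3 1, .f 1080 1 3] 152 136 [1] [(151, 136, [4, 1]), (152, 136, [1])]) .no .no
  (.hor [.f 1065 3 5] []) .no .no)) .no (.hor [.f 1073 5 3, .f 1072 3 5, .f 1074 3 5] [])) .no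
  (.hor [.f 1089 3 1, .f 1088 1 5] [(153, 137, [1])]) (.red [.t 1217 4 2, .f 954 3 1, .f 962 1 5]
  136 136 [] [(136, 136, []), (152, 136, [1])]) .no .no) .no .no) .no (.hor [.f 1088 3 5] [])
  (.use 43) .no .no) .no (.hor [.f 1089 3 5] []) .no .no .no)) .no (.red [.f 1081 5 3, .f 954 3 1]
  136 136 [] [(136, 136, [])]) (.br 961 .no (.use 1) (.br 960 .no (.br 1090 (.br 968 (.red [.t 968
  1 4, .t 961 1 4] 136 136 [] [(136, 136, []), (137, 136, [3])]) (.hor [.f 832 1 3, .f 960 3 5]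
  [(121, 120, [3])]) (.br 1074 (.br 1209 (.br 1217 (.br 1210 (.hor [.f 1209 1 5] []) .no .no .no
  (.red [.f 1209 1 3] 168 136 [1, 1] [(168, 136, [1, 1])]) .no) .no (.use 46) .no .no (.use 45))
  .no (.red [.t 1217 4 2, .f 954 3 1, .f 962 1 5] 136 136 [] [(136, 136, []), (152, 136, [1])])
  (.red [.t 1201 3 2, .f 1074 3 5, .t 962 4 1] 136 136 [] [(136, 136, []), (151, 150, [3])]) (.red
  [.f 1081 5 1, .f 1082 1 3, .f 954 3 1] 136 136 [] [(136, 136, []), (152, 136, [1])]) (.br 1080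
  .no .no .no (.br 1201 (.con 136 [4, 1, 4]) (.red [.t 1072 3 1] 151 136 [4, 1] [(151, 136, [4,
  1])]) .no (.con 136 [4, 1, 4]) .no (.con 136 [4, 1, 4])) .no .no)) (.red [.t 945 3 1, .f 1074 3
  5] 135 136 [4] [(135, 136, [4])]) .no (.br 1217 (.br 1096 (.br 1080 (.use 51) .no .no (.use 49)
  .no .no) .no (.br 1080 (.use 52) .no .no (.use 49) .no .no) .no (.red [.f 1088 5 3, .f 961 3 1,
  .t 961 1 4] 136 136 [] [(136, 136, []), (137, 136, [3])]) .no) .no (.use 46) (.red [.t 1217 4 2,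
  .f 954 3 1, .f 962 1 5] 136 136 [] [(136, 136, []), (152, 136, [1])]) .no (.use 55)) .no (.red
  [.f 824 1 3, .f 1073 5 3, .f 945 3 1, .t 952 3 1] 136 136 [] [(120, 136, [2]), (135, 136, [4]),
  (136, 136, [])])) .no .no .no) .no (.con 136 [3, 1]) .no .no .no) (.hor [.f 960 3 5] []) .no .no
  .no) .no .no (.red [.f 960 5 1, .t 961 1 4] 136 136 [] [(136, 136, [])]))

def c10t57 : Tr4 :=
  .br 1082 (.hor [.f 1081 1 5] []) .no (.red [.f 954 3 1, .f 961 1 5] 136 136 [] [(136, 136, [])])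
  (.con 136 [1, 4]) (.con 136 [4, 1]) .no

def c10t58 : Tr4 :=
  .br 1081 (.br 1080 (.hor [.f 1080 1 5] []) .no (.red [.f 824 1 3, .f 952 3 1, .f 960 1 5] 136
  136 [] [(120, 136, [2]), (136, 136, [])]) (.use 57) .no .no) .no .no (.red [.f 945 3 1, .f 953 1
  3] 136 136 [] [(135, 136, [4]), (136, 136, [])]) (.red [.t 961 1 4] 136 136 [] [(136, 136, [])])
  (.red [.f 824 1 3, .t 960 4 1] 136 136 [] [(120, 136, [2]), (136, 136, [])])

def c10t59 : Tr4 :=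
  .br 1089 (.con 136 [3]) (.br 960 (.con 136 [3]) (.use 58) (.con 136 [2, 3]) .no .no .no) (.con
  136 [3]) (.con 136 [3]) (.con 136 [3]) (.con 136 [3])

def c10t60 : Tr4 :=
  .br 1091 (.br 1090 (.hor [.f 1090 1 5] []) .no (.con 136 [3, 1]) .no .no .no) .no (.red [.f 963
  3 1, .t 962 4 1] 136 136 [] [(136, 136, []), (137, 136, [3])]) .no .no (.red [.f 1082 5 3, .f
  954 3 1] 136 136 [] [(136, 136, [])])

def c10t61 : Tr4 :=
  .br 1091 (.con 136 [3, 1]) .no (.hor [.f 1090 3 5] []) (.con 136 [3, 1]) .no .no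

def c10l1 : List Tr4 :=
  [c10t41, c10t42, c10t43, c10t44, c10t45, c10t46, c10t47, c10t48, c10t49, c10t50, c10t51, c10t52,
  c10t53, c10t54, c10t55, c10t56, c10t57, c10t58, c10t59, c10t60, c10t61]

theorem c10k1 : chkLF ⟨4, 0, 0, true, -8⟩ true 0 c10N 41 c10l1 = true := by decide +kernel

def c10t62 : Tr4 :=
  .br 963 (.br 1083 (.br 1082 (.hor [.f 1082 1 5] []) .no (.red [.f 954 3 1, .f 962 1 5] 136 136
  [] [(136, 136, [])]) (.use 5) .no (.use 17)) .no .no (.br 1082 (.br 1081 (.hor [.f 1081 1 5] [])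
  .no (.use 18) (.red [.f 945 3 1] 135 136 [4] [(135, 136, [4])]) .no (.br 1090 (.red [.f 1082 1
  3, .f 954 3 1] 136 136 [] [(136, 136, []), (152, 136, [1])]) .no (.br 1089 (.con 136 [3, 1])
  (.br 960 (.con 136 [3, 1]) (.red [.f 824 1 3, .t 960 4 1] 136 136 [] [(120, 136, [2]), (136,
  136, [])]) (.br 1088 (.br 944 (.red [.t 944 1 3, .f 953 1 3, .f 953 3 5] 136 136 [] [(135, 136,
  [4]), (136, 136, [])]) (.red [.f 816 1 3, .f 944 3 5, .f 952 5 1, .f 953 1 3] 136 136 [] [(119,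
  120, [4]), (136, 136, [])]) .no (.br 1072 (.use 20) .no .no (.red [.f 936 3 1, .t 944 1 3, .f
  953 1 3] 136 136 [] [(134, 136, [4, 4]), (135, 136, [4]), (136, 136, [])]) (.red [.f 1072 5 3,
  .f 945 3 1, .f 953 1 3] 136 136 [] [(135, 136, [4]), (136, 136, [])]) .no) .no .no) .no (.con
  136 [3, 1]) .no .no .no) .no .no .no) (.hor [.f 1089 3 5] []) .no .no (.con 136 [3, 1])) .no .no
  (.br 1088 (.br 1217 (.br 1209 (.red [.f 1209 1 3, .t 1216 2 4] 152 136 [1] [(152, 136, [1]),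
  (168, 136, [1, 1])]) .no .no (.use 22) .no (.red [.f 1080 5 1, .f 1080 1 3] 152 136 [1] [(152,
  136, [1])])) .no (.br 1072 (.br 1209 (.use 19) .no .no (.use 22) .no (.red [.f 1080 5 1, .f 1080
  1 3] 152 136 [1] [(152, 136, [1])])) (.red [.t 944 1 3, .t 953 1 3] 136 136 [] [(135, 136, [4]),
  (136, 136, [])]) .no (.use 21) (.red [.f 1072 5 3, .f 945 3 1, .t 953 1 3] 136 136 [] [(135,
  136, [4]), (136, 136, [])]) .no) (.red [.t 1209 3 2, .f 954 3 1, .f 962 1 5] 136 136 [] [(136,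
  136, []), (152, 136, [1])]) (.red [.f 1089 5 1, .f 1082 1 3, .f 954 3 1] 136 136 [] [(136, 136,
  []), (152, 136, [1])]) .no) (.con 136 [3]) (.con 136 [3, 1]) .no .no .no))) .no (.red [.f 954 3
  1, .f 962 1 5] 136 136 [] [(136, 136, [])]) (.hor [.f 1074 3 5] []) .no (.use 56)) .no (.red [.t
  962 4 1] 136 136 [] [(136, 136, [])])) (.use 59) (.br 1089 (.con 136 [3]) (.br 1081 (.br 1080
  (.hor [.f 1080 1 5] []) .no (.br 1082 (.hor [.f 1081 1 5] []) .no (.red [.f 954 3 1, .f 961 1 5]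
  136 136 [] [(136, 136, [])]) (.br 1083 (.con 136 [4, 1]) .no (.con 136 [4, 1]) (.hor [.f 1074 3
  5] []) .no .no) (.use 60) .no) (.use 57) .no .no) .no .no (.red [.f 945 3 1, .f 953 1 3] 136 136
  [] [(135, 136, [4]), (136, 136, [])]) (.red [.t 961 1 4] 136 136 [] [(136, 136, [])]) (.br 960
  (.con 136 [3]) (.use 58) (.br 944 (.red [.t 944 1 3, .f 953 1 3, .f 953 3 5] 136 136 [] [(135,
  136, [4]), (136, 136, [])]) (.red [.f 816 1 3, .f 944 3 5, .f 952 5 1, .f 953 1 3] 136 136 []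
  [(119, 120, [4]), (136, 136, [])]) .no (.br 1072 (.br 1090 (.br 1091 (.hor [.f 1090 1 5] []) .no
  (.br 1082 (.red [.f 1082 1 3, .f 954 3 1] 136 136 [] [(136, 136, []), (152, 136, [1])]) .no .no
  (.br 1083 (.con 136 [4, 1]) .no .no (.hor [.f 1074 3 5] []) .no .no) (.red [.f 963 3 1, .t 962 4
  1] 136 136 [] [(136, 136, []), (137, 136, [3])]) .no) (.con 136 [1]) .no .no) .no (.use 61)
  (.red [.f 954 3 1, .f 961 1 5] 136 136 [] [(136, 136, [])]) (.br 1088 (.br 1082 (.use 20) .no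
  .no (.br 1083 (.con 136 [4, 1]) .no .no (.hor [.f 1074 3 5] []) .no .no) (.red [.f 1082 5 3, .f
  954 3 1] 136 136 [] [(136, 136, [])]) .no) .no (.con 136 [3, 1]) .no .no .no) .no) .no .no (.red
  [.f 936 3 1, .t 944 1 3, .f 953 1 3] 136 136 [] [(134, 136, [4, 4]), (135, 136, [4]), (136, 136,
  [])]) (.red [.f 1072 5 3, .f 945 3 1, .f 953 1 3] 136 136 [] [(135, 136, [4]), (136, 136, [])])
  .no) .no .no) .no .no .no)) (.con 136 [3]) (.con 136 [3]) (.con 136 [3]) (.con 136 [3])) .no .no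
  .no

def c10t63 : Tr4 :=
  .br 1208 (.con 136 [4, 1, 1]) .no (.con 136 [4, 1, 1]) (.hor [.f 1200 3 5] []) .no .no

def c10t64 : Tr4 :=
  .br 834 .no (.con 136 [2, 3, 2]) (.hor [.f 833 3 5] []) (.con 136 [2, 3, 2]) (.con 136 [2, 2,
  3]) .no

def c10t65 : Tr4 :=
  .br 698 .no (.br 706 .no (.hor [.f 570 1 3, .t 706 4 1, .f 697 1 5] [(88, 136, [2, 2, 2]), (104,
  136, [2, 2])]) (.br 705 .no (.con 136 [2, 2, 2, 3]) (.hor [.f 705 3 5] []) .no .no .no) .no .no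
  (.red [.f 705 5 1, .f 704 1 5, .f 832 5 1, .f 824 1 3, .f 952 3 1] 136 136 [] [(120, 136, [2]),
  (136, 136, [])])) (.hor [.t 706 4 1, .f 697 1 5] [(104, 136, [2, 2])]) (.hor [.t 946 2 3, .f 690
  3 1, .f 697 1 5] [(103, 104, [4]), (119, 120, [4])]) (.hor [.f 698 5 1, .f 697 1 5, .t 945 3 2,
  .f 824 1 5] [(119, 120, [4])]) .no

def c10t66 : Tr4 :=
  .br 1201 (.con 136 [4, 1, 4]) (.hor [.f 1072 1 5] []) .no (.con 136 [4, 1, 4]) .no .no

def c10t67 : Tr4 :=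
  .br 1337 (.hor [.f 1336 1 5] []) .no .no (.red [.f 1200 5 3, .f 1201 3 1, .f 1209 1 3] 167 136
  [4, 1, 1] [(167, 136, [4, 1, 1]), (168, 136, [1, 1])]) .no .no

def c10t68 : Tr4 :=
  .br 1201 (.br 1200 (.hor [.f 1200 1 5] []) .no .no (.con 136 [4, 1, 1, 4]) .no .no) .no .no
  (.hor [.f 1193 3 5] []) .no (.use 67)

def c10t69 : Tr4 :=
  .br 1203 (.con 136 [4, 1, 1, 4]) .no .no (.hor [.f 1194 3 5] []) .no .no

def c10t70 : Tr4 :=
  .br 835 .no (.use 65) (.con 136 [2, 2, 3]) .no .no .no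

def c10t71 : Tr4 :=
  .br 826 .no (.hor [.f 697 1 5] []) .no .no (.use 70) .no

def c10t72 : Tr4 :=
  .br 946 .no (.use 71) .no (.red [.t 938 3 1, .t 945 3 1] 135 136 [4] [(134, 136, [4, 4]), (135,
  136, [4])]) .no .no

def c10t73 : Tr4 :=
  .br 1194 (.br 1329 (.red [.f 1329 1 3, .f 1328 3 5] 183 136 [1, 1, 4, 1] [(183, 136, [1, 1, 4,
  1])]) .no .no (.con 136 [4, 4, 1, 1, 4]) (.red [.f 1201 5 1, .f 1202 1 3, .t 1210 4 2] 151 136
  [4, 1] [(151, 136, [4, 1]), (167, 136, [1, 1, 4])]) .no) .no .no (.red [.f 1058 3 1, .t 1065 3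
  1] 150 136 [4, 4, 1] [(149, 136, [4, 4, 4, 1]), (150, 136, [4, 4, 1])]) .no (.red [.f 1193 5 3,
  .f 1065 3 1] 150 136 [4, 4, 1] [(150, 136, [4, 4, 1])])

def c10t74 : Tr4 :=
  .br 1065 (.con 136 [4, 4, 4, 1]) (.red [.t 936 3 1] 134 136 [4, 4] [(134, 136, [4, 4])]) .no
  (.hor [.f 1057 3 5] []) .no (.con 136 [4, 4, 4, 1])

def c10t75 : Tr4 :=
  .br 937 .no .no .no (.red [.t 929 3 1, .t 936 3 1] 134 136 [4, 4] [(133, 136, [4, 4, 4]), (134,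
  136, [4, 4])]) .no .no

def c10t76 : Tr4 :=
  .br 1058 .no (.use 75) .no (.hor [.f 1050 3 5] []) .no (.red [.f 1057 5 3, .f 1058 3 1] 149 136
  [4, 4, 4, 1] [(149, 136, [4, 4, 4, 1])])

def c10t77 : Tr4 :=
  .br 1203 (.con 136 [1, 1, 4, 4]) .no .no (.red [.t 1194 2 3, .f 938 3 1] 150 136 [4, 1, 4]
  [(134, 136, [4, 4]), (150, 136, [4, 1, 4])]) .no .no

def c10t78 : Tr4 :=
  .br 1057 (.con 136 [4, 1, 1, 4, 4, 2]) (.con 136 [4, 1, 1, 4, 4, 2, 4, 2]) .no (.hor [.f 1049 3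
  5] []) .no (.con 136 [4, 1, 1, 4, 4, 2, 2])

def c10t79 : Tr4 :=
  .br 826 .no (.hor [.f 697 1 5] []) .no (.hor [.f 689 1 3, .f 817 3 1, .f 824 1 5] [(103, 104,
  [4]), (119, 120, [4])]) (.hor [.f 689 1 3, .f 817 3 1, .f 824 1 5] [(103, 104, [4]), (119, 120,
  [4])]) .no

def c10t80 : Tr4 :=
  .br 817 .no (.use 79) .no (.br 1329 (.red [.f 1329 1 3, .f 1328 3 5] 183 136 [4, 1, 1, 1] [(183,
  136, [4, 1, 1, 1])]) .no .no (.br 1066 (.hor [.f 1066 1 5] []) .no .no (.use 74) .no (.br 1194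
  (.con 136 [4, 4, 1, 1, 4]) .no .no (.br 1058 .no (.use 75) .no (.br 939 .no (.br 1057 (.con 136
  [4, 4, 1, 1, 4, 2]) (.con 136 [4, 4, 4, 2, 3, 1]) .no (.hor [.f 1049 3 5] []) .no (.br 1059
  (.red [.f 1059 1 3] 149 136 [4, 4, 4, 1] [(149, 136, [4, 4, 4, 1])]) (.con 136 [4, 4, 4, 4]) .no
  (.use 76) .no .no)) .no (.br 1059 (.red [.f 1059 1 3] 149 136 [4, 4, 4, 1] [(149, 136, [4, 4, 4,
  1])]) .no .no (.use 76) .no .no) .no .no) (.red [.t 1194 4 2] 149 136 [4, 4, 4, 1] [(149, 136,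
  [4, 4, 4, 1])]) (.red [.f 1057 5 3, .f 1058 3 1] 149 136 [4, 4, 4, 1] [(149, 136, [4, 4, 4,
  1])])) .no (.red [.f 1065 5 1, .f 1066 1 5, .f 1066 5 3, .f 938 3 1] 134 136 [4, 4] [(134, 136,
  [4, 4])]))) (.red [.f 1201 5 1, .f 1202 1 3, .t 1210 4 2] 151 136 [4, 1] [(151, 136, [4, 1]),
  (167, 136, [4, 1, 1])]) .no) (.br 1066 (.use 77) .no .no (.use 74) .no (.br 1329 (.red [.f 1329
  1 3, .f 1328 3 5] 183 136 [4, 1, 1, 1] [(183, 136, [4, 1, 1, 1])]) .no .no (.br 1194 (.con 136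
  [4, 4, 1, 1, 4]) .no .no (.br 1058 .no (.br 937 .no (.red [.t 937 2 3, .f 937 5 1, .f 930 1 3]
  133 136 [4, 4, 4] [(118, 134, [2]), (133, 136, [4, 4, 4])]) .no (.red [.t 929 3 1, .t 936 3 1]
  134 136 [4, 4] [(133, 136, [4, 4, 4]), (134, 136, [4, 4])]) .no .no) .no (.br 1059 (.red [.f
  1059 1 3] 149 136 [4, 4, 4, 1] [(149, 136, [4, 4, 4, 1])]) (.br 1057 (.con 136 [4, 4, 1, 1, 4,
  2]) (.con 136 [4, 4, 4, 4]) .no (.hor [.f 1049 3 5] []) .no (.con 136 [4, 4, 4, 4])) .no (.hor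
  [.f 1050 3 5] []) .no .no) (.red [.t 1194 4 2] 149 136 [4, 4, 4, 1] [(149, 136, [4, 4, 4, 1])])
  (.red [.f 1057 5 3, .f 1058 3 1] 149 136 [4, 4, 4, 1] [(149, 136, [4, 4, 4, 1])])) .no (.red [.f
  1065 5 1, .f 1066 1 5, .f 1066 5 3, .f 938 3 1] 134 136 [4, 4] [(134, 136, [4, 4])])) (.red [.f
  1201 5 1, .f 1202 1 3, .t 1210 4 2] 151 136 [4, 1] [(151, 136, [4, 1]), (167, 136, [4, 1, 1])])
  .no)) (.red [.t 952 2 4, .f 952 5 3, .f 952 3 1] 136 136 [] [(119, 120, [4]), (136, 136, [])])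

def c10t81 : Tr4 :=
  .br 817 .no (.use 79) .no (.br 939 .no (.br 1329 (.red [.f 1329 1 3, .f 1328 3 5] 183 136 [4, 1,
  1, 1] [(183, 136, [4, 1, 1, 1])]) .no .no (.br 1066 (.use 77) .no .no (.hor [.f 1058 3 5] [])
  .no (.br 1203 (.con 136 [4, 1, 1, 4]) .no .no (.br 1194 (.con 136 [4, 1, 1, 4, 4]) .no .no (.br
  1057 (.con 136 [4, 1, 1, 4, 4, 2]) (.con 136 [4, 4, 4, 2, 3, 1]) .no (.br 1058 .no (.use 75) .no
  (.hor [.f 1049 3 5] []) .no .no) (.red [.f 1057 5 3, .f 1058 3 1] 149 136 [4, 1, 1, 4, 4, 2]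
  [(149, 136, [4, 4, 4, 1])]) (.con 136 [4, 1, 1, 4, 4, 2, 2])) .no (.red [.f 1065 5 1, .t 1194 2
  3, .f 938 3 1] 134 136 [4, 4] [(134, 136, [4, 4]), (150, 136, [4, 4, 1])])) .no .no)) (.red [.f
  1201 5 1, .f 1202 1 3, .t 1210 4 2] 151 136 [4, 1] [(151, 136, [4, 1]), (167, 136, [4, 1, 1])])
  .no) .no (.red [.f 931 3 1, .t 938 3 1, .t 945 3 1] 135 136 [4] [(133, 136, [4, 4, 4]), (134,
  136, [4, 4]), (135, 136, [4])]) .no .no) (.br 1066 (.use 77) .no .no (.hor [.f 1058 3 5] []) .no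
  (.br 1329 (.red [.f 1329 1 3, .f 1328 3 5] 183 136 [4, 1, 1, 1] [(183, 136, [4, 1, 1, 1])]) .no
  .no (.br 1203 (.con 136 [4, 1, 1, 4]) .no .no (.br 1194 (.con 136 [4, 1, 1, 4, 4]) .no .no (.br
  937 .no (.br 1058 .no (.red [.t 937 2 3, .f 937 5 1, .f 930 1 3] 133 136 [4, 4, 4] [(118, 134,
  [2]), (133, 136, [4, 4, 4])]) .no (.use 78) .no (.red [.f 1057 5 3, .f 1058 3 1] 149 136 [4, 1,
  1, 4, 4, 2] [(149, 136, [4, 4, 4, 1])])) .no (.br 1058 .no (.red [.t 929 3 1, .t 936 3 1] 134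
  136 [4, 4] [(133, 136, [4, 4, 4]), (134, 136, [4, 4])]) .no (.use 78) .no (.red [.f 1057 5 3, .f
  1058 3 1] 149 136 [4, 1, 1, 4, 4, 2] [(149, 136, [4, 4, 4, 1])])) .no .no) .no (.red [.f 1065 5
  1, .t 1194 2 3, .f 938 3 1] 134 136 [4, 4] [(134, 136, [4, 4]), (150, 136, [4, 4, 1])])) .no
  .no) (.red [.f 1201 5 1, .f 1202 1 3, .t 1210 4 2] 151 136 [4, 1] [(151, 136, [4, 1]), (167,
  136, [4, 1, 1])]) .no)) (.red [.t 952 2 4, .f 952 5 3, .f 952 3 1] 136 136 [] [(119, 120, [4]),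
  (136, 136, [])])

def c10t82 : Tr4 :=
  .br 1202 (.red [.f 1202 1 3, .t 1210 4 2] 151 136 [4, 1] [(151, 136, [4, 1]), (167, 136, [4, 1,
  1])]) .no .no (.br 1336 (.br 944 (.br 1337 (.hor [.f 1336 1 5] []) .no .no (.br 1201 .no (.br
  1200 (.red [.t 1328 2 3, .f 1209 1 5] 167 136 [4, 1, 1] [(167, 136, [4, 1, 1])]) .no .no (.br
  1066 .no (.br 826 .no (.hor [.f 697 1 5] []) .no (.con 136 [4, 4, 2, 3, 3]) (.br 946 .no (.use
  70) .no .no .no .no) .no) .no (.br 1067 (.con 136 [4, 4, 1, 1]) (.use 72) .no (.hor [.f 1058 3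
  5] []) .no .no) (.red [.f 1066 5 3, .f 1066 3 1, .f 1073 1 5, .t 1337 4 2] 167 136 [4, 1, 1]
  [(150, 151, [4]), (167, 136, [4, 1, 1])]) (.red [.t 1201 2 4, .t 1337 4 2, .t 1210 4 2] 151 136
  [4, 1] [(150, 151, [4]), (151, 136, [4, 1]), (167, 136, [4, 1, 1])])) .no .no) .no (.hor [.f
  1193 3 5] []) .no (.use 67)) .no .no) (.hor [.f 816 1 3, .f 944 3 5] [(119, 120, [4])]) .no (.br
  1072 (.use 66) .no .no (.red [.f 936 3 1] 134 136 [4, 4] [(134, 136, [4, 4])]) (.use 68) .no)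
  .no .no) .no (.red [.t 1344 4 2, .t 1217 4 2, .f 954 3 1, .f 962 1 5] 136 136 [] [(136, 136,
  []), (152, 136, [1]), (168, 136, [1, 1])]) (.use 69) (.red [.f 1208 5 1, .f 1209 1 3, .t 1217 4
  2, .f 954 3 1] 136 136 [] [(136, 136, []), (152, 136, [1]), (168, 136, [1, 1])]) .no) (.red [.f
  1074 5 1, .f 1075 1 3] 151 136 [4, 1] [(151, 136, [4, 1])]) (.br 1337 (.br 946 .no (.use 71) .no
  (.br 1336 (.hor [.f 1336 1 5] []) .no (.red [.t 1344 4 2, .t 1217 4 2, .f 954 3 1, .f 962 1 5]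
  136 136 [] [(136, 136, []), (152, 136, [1]), (168, 136, [1, 1])]) (.br 944 (.br 1065 (.con 136
  [4, 1, 4, 2, 3]) (.con 136 [4, 1, 4, 2, 3]) (.br 1066 (.red [.t 1065 3 1] 150 136 [4, 4, 1]
  [(150, 136, [4, 4, 1])]) .no .no (.br 1067 (.use 73) (.use 72) .no (.hor [.f 1058 3 5] []) .no
  .no) (.red [.f 1066 5 3, .f 938 3 1, .t 945 3 1] 135 136 [4] [(134, 136, [4, 4]), (135, 136,
  [4])]) .no) (.con 136 [4, 1, 4, 2, 3]) (.con 136 [4, 1, 4, 2, 3]) (.con 136 [4, 1, 4, 2, 3]))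
  (.hor [.f 816 1 3, .f 944 3 5] [(119, 120, [4])]) .no (.br 1072 (.con 136 [4, 1, 4]) .no .no
  (.red [.f 936 3 1] 134 136 [4, 4] [(134, 136, [4, 4])]) (.br 1067 (.use 80) (.use 72) .no (.use
  81) .no (.red [.f 1066 5 3, .f 938 3 1, .t 945 3 1] 135 136 [4] [(134, 136, [4, 4]), (135, 136,
  [4])])) .no) .no .no) .no .no) .no .no) .no .no (.red [.t 1337 4 2, .t 1210 4 2] 151 136 [4, 1]
  [(151, 136, [4, 1]), (167, 136, [4, 1, 1])]) .no (.red [.f 1208 5 1, .f 1209 1 3, .t 1217 4 2,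
  .f 954 3 1] 136 136 [] [(136, 136, []), (152, 136, [1]), (168, 136, [1, 1])]))

def c10t83 : Tr4 :=
  .br 1066 (.use 77) .no .no (.br 1067 (.br 1065 (.con 136 [4, 1, 4, 4]) (.con 136 [4, 1, 4, 2,
  3]) (.use 73) (.con 136 [4, 1, 4, 2, 3]) .no (.con 136 [4, 1, 4, 4])) (.red [.t 938 3 1, .t 945
  3 1] 135 136 [4] [(134, 136, [4, 4]), (135, 136, [4])]) .no (.hor [.f 1058 3 5] []) .no .no)
  (.red [.f 1066 5 3, .f 938 3 1, .t 945 3 1] 135 136 [4] [(134, 136, [4, 4]), (135, 136, [4])])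
  (.con 136 [4, 1, 4, 2, 3])

def c10t84 : Tr4 :=
  .br 835 .no (.use 65) (.con 136 [2, 2, 3]) .no .no .no

def c10t85 : Tr4 :=
  .br 1216 (.hor [.f 1216 1 5] []) .no .no .no .no .no

def c10l2 : List Tr4 :=
  [c10t62, c10t63, c10t64, c10t65, c10t66, c10t67, c10t68, c10t69, c10t70, c10t71, c10t72, c10t73,
  c10t74, c10t75, c10t76, c10t77, c10t78, c10t79, c10t80, c10t81, c10t82, c10t83, c10t84, c10t85]

theorem c10k2 : chkLF ⟨4, 0, 0, true, -8⟩ true 0 c10N 62 c10l2 = true := by decide +kernel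

def c10t86 : Tr4 :=
  .br 944 (.br 1202 (.red [.f 1202 1 3, .t 1210 4 2] 151 136 [4, 1] [(151, 136, [4, 1]), (167,
  136, [4, 1, 1])]) .no .no (.br 1336 (.br 1337 (.hor [.f 1336 1 5] []) .no .no (.br 1201 .no (.br
  826 .no (.hor [.f 697 1 5] []) .no (.br 1066 .no (.con 136 [4, 4, 2, 3, 3]) .no (.br 1067 (.red
  [.t 1194 3 2, .f 1073 1 5, .f 1073 5 3, .f 945 3 1] 135 136 [4] [(135, 136, [4]), (150, 151,
  [4])]) (.br 946 .no .no .no (.red [.t 938 3 1, .t 945 3 1] 135 136 [4] [(134, 136, [4, 4]),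
  (135, 136, [4])]) .no .no) .no (.hor [.f 1058 3 5] []) .no .no) (.red [.f 1066 5 3, .f 1066 3 1,
  .f 1073 1 5, .t 1337 4 2] 167 136 [4, 1, 1] [(150, 151, [4]), (167, 136, [4, 1, 1])]) (.red [.t
  1201 2 4, .t 1337 4 2, .t 1210 4 2] 151 136 [4, 1] [(150, 151, [4]), (151, 136, [4, 1]), (167,
  136, [4, 1, 1])])) (.br 946 .no (.use 84) .no (.br 1067 (.red [.t 1194 3 2, .f 1073 1 5, .f 1073
  5 3, .f 945 3 1] 135 136 [4] [(135, 136, [4]), (150, 151, [4])]) (.red [.t 938 3 1, .t 945 3 1]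
  135 136 [4] [(134, 136, [4, 4]), (135, 136, [4])]) .no (.br 1066 .no .no .no (.hor [.f 1058 3 5]
  []) .no (.red [.t 1201 2 4, .t 1337 4 2, .t 1210 4 2] 151 136 [4, 1] [(150, 151, [4]), (151,
  136, [4, 1]), (167, 136, [4, 1, 1])])) .no (.red [.f 1066 5 3, .f 938 3 1, .t 945 3 1] 135 136
  [4] [(134, 136, [4, 4]), (135, 136, [4])])) .no .no) .no) .no (.hor [.f 1193 3 5] []) .no (.use
  67)) .no .no) .no (.red [.t 1344 4 2, .t 1217 4 2, .f 954 3 1, .f 962 1 5] 136 136 [] [(136,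
  136, []), (152, 136, [1]), (168, 136, [1, 1])]) (.use 69) (.red [.f 1208 5 1, .f 1209 1 3, .t
  1217 4 2, .f 954 3 1] 136 136 [] [(136, 136, []), (152, 136, [1]), (168, 136, [1, 1])]) .no)
  (.red [.f 1074 5 1, .f 1075 1 3] 151 136 [4, 1] [(151, 136, [4, 1])]) (.br 1337 (.br 1336 (.hor
  [.f 1336 1 5] []) .no (.red [.t 1344 4 2, .t 1217 4 2, .f 954 3 1, .f 962 1 5] 136 136 [] [(136,
  136, []), (152, 136, [1]), (168, 136, [1, 1])]) (.br 826 .no (.hor [.f 697 1 5] []) .no (.br 817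
  .no (.use 79) .no (.br 938 (.con 136 [4, 4, 2, 3, 3]) (.con 136 [4, 4, 2, 3, 3]) (.use 83) (.con
  136 [4, 4, 2, 3, 3]) (.con 136 [4, 4, 2, 3, 3]) (.con 136 [4, 4, 2, 3, 3])) .no (.red [.t 952 2
  4, .f 952 5 3, .f 952 3 1] 136 136 [] [(119, 120, [4]), (136, 136, [])])) (.br 946 .no (.use 84)
  .no (.use 83) .no .no) .no) .no .no) .no .no (.red [.t 1337 4 2, .t 1210 4 2] 151 136 [4, 1]
  [(151, 136, [4, 1]), (167, 136, [4, 1, 1])]) .no (.red [.f 1208 5 1, .f 1209 1 3, .t 1217 4 2,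
  .f 954 3 1] 136 136 [] [(136, 136, []), (152, 136, [1]), (168, 136, [1, 1])]))) (.hor [.f 816 1
  3, .f 944 3 5] [(119, 120, [4])]) .no (.br 1072 (.br 1202 (.red [.f 1202 1 3, .t 1210 4 2] 151
  136 [4, 1] [(151, 136, [4, 1]), (167, 136, [4, 1, 1])]) .no .no (.use 66) (.red [.f 1074 5 1, .f
  1075 1 3] 151 136 [4, 1] [(151, 136, [4, 1])]) (.con 136 [4, 1, 4])) .no .no (.red [.f 936 3 1]
  134 136 [4, 4] [(134, 136, [4, 4])]) (.br 1336 (.br 1202 (.red [.f 1202 1 3, .t 1210 4 2] 151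
  136 [4, 1] [(151, 136, [4, 1]), (167, 136, [4, 1, 1])]) .no .no (.use 68) (.red [.f 1074 5 1, .f
  1075 1 3] 151 136 [4, 1] [(151, 136, [4, 1])]) (.br 1337 (.hor [.f 1336 1 5] []) .no .no (.red
  [.t 1337 4 2, .t 1210 4 2] 151 136 [4, 1] [(151, 136, [4, 1]), (167, 136, [4, 1, 1])]) .no .no))
  .no (.red [.t 1344 4 2, .t 1217 4 2, .f 954 3 1, .f 962 1 5] 136 136 [] [(136, 136, []), (152,
  136, [1]), (168, 136, [1, 1])]) (.br 1202 (.red [.f 1202 1 3, .t 1210 4 2] 151 136 [4, 1] [(151,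
  136, [4, 1]), (167, 136, [4, 1, 1])]) .no .no (.use 69) (.red [.f 1074 5 1, .f 1075 1 3] 151 136
  [4, 1] [(151, 136, [4, 1])]) (.br 1337 (.br 946 .no (.br 826 .no (.hor [.f 697 1 5] []) .no .no
  (.use 84) .no) .no (.br 1067 (.use 80) (.red [.t 938 3 1, .t 945 3 1] 135 136 [4] [(134, 136,
  [4, 4]), (135, 136, [4])]) .no (.use 81) .no (.red [.f 1066 5 3, .f 938 3 1, .t 945 3 1] 135 136
  [4] [(134, 136, [4, 4]), (135, 136, [4])])) .no .no) .no .no (.hor [.f 1328 3 5] []) .no .no))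
  (.red [.f 1208 5 1, .f 1209 1 3, .t 1217 4 2, .f 954 3 1] 136 136 [] [(136, 136, []), (152, 136,
  [1]), (168, 136, [1, 1])]) .no) .no) .no .no

def c10t87 : Tr4 :=
  .br 1074 .no (.red [.t 945 3 1, .t 1080 3 2] 136 136 [] [(135, 136, [4]), (136, 136, [])]) .no
  (.use 7) (.red [.t 1210 4 2] 151 136 [4, 1] [(151, 136, [4, 1])]) (.red [.f 1073 5 3, .f 1074 3
  1, .f 1082 1 3] 151 136 [4, 1] [(151, 136, [4, 1]), (152, 136, [1])])

def c10t88 : Tr4 :=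
  .br 1209 (.hor [.f 1209 1 5] []) .no .no (.use 63) .no (.red [.f 1208 5 3, .t 1217 4 2, .f 954 3
  1] 136 136 [] [(136, 136, []), (152, 136, [1])])

def c10t89 : Tr4 :=
  .br 1088 (.br 1080 (.red [.f 1080 1 3] 152 136 [1] [(152, 136, [1])]) .no .no (.con 136 [4, 1])
  .no .no) .no (.hor [.f 1088 3 5] []) (.br 1217 (.br 1210 (.br 825 .no (.br 1075 (.red [.f 1075 1
  3] 151 136 [4, 1] [(151, 136, [4, 1])]) .no .no (.br 1074 (.use 13) (.red [.t 945 3 1, .t 1080 3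
  2] 136 136 [] [(135, 136, [4]), (136, 136, [])]) .no (.hor [.f 1066 3 5] []) .no (.red [.f 1073
  5 3, .f 945 3 1] 135 136 [4] [(135, 136, [4])])) .no (.br 968 (.red [.t 1096 2 4, .t 961 1 4]
  136 136 [] [(136, 136, []), (137, 136, [3])]) (.br 832 .no (.br 1209 (.hor [.f 1209 1 5] []) .no
  .no (.use 63) .no (.br 833 .no (.hor [.f 704 1 5] []) (.use 64) .no (.use 82) .no)) .no .no
  (.red [.f 832 5 1, .f 824 1 3, .f 952 3 1] 136 136 [] [(120, 136, [2]), (136, 136, [])]) .no)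
  (.br 1209 (.hor [.f 1209 1 5] []) .no .no (.use 63) .no (.br 1096 (.use 85) .no (.br 832 .no
  (.br 833 .no (.use 41) (.use 64) .no (.use 86) .no) (.use 39) .no (.red [.f 832 5 1, .f 824 1 3,
  .f 952 3 1] 136 136 [] [(120, 136, [2]), (136, 136, [])]) .no) .no .no .no)) .no (.red [.f 960 5
  3, .f 961 3 1, .t 961 1 4] 136 136 [] [(136, 136, []), (137, 136, [3])]) .no)) (.red [.t 824 1
  3, .f 952 3 1] 136 136 [] [(120, 136, [2]), (136, 136, [])]) (.hor [.f 817 3 1, .f 824 1 5]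
  [(119, 120, [4])]) (.br 1209 (.hor [.f 1209 1 5] []) .no .no (.use 63) .no (.br 1096 (.use 85)
  (.red [.t 1096 2 4, .t 961 1 4] 136 136 [] [(136, 136, []), (137, 136, [3])]) (.br 833 .no (.use
  41) (.br 832 .no (.use 16) (.use 40) .no .no .no) .no (.red [.f 825 5 3, .t 824 1 3, .f 952 3 1]
  136 136 [] [(120, 136, [2]), (136, 136, [])]) (.red [.f 832 5 1, .f 824 1 3, .f 952 3 1] 136 136
  [] [(120, 136, [2]), (136, 136, [])])) .no .no .no)) .no) .no .no (.use 87) .no (.red [.f 1081 5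
  1, .f 1082 1 3, .f 954 3 1] 136 136 [] [(136, 136, []), (152, 136, [1])])) .no (.hor [.f 1089 3
  1, .f 1089 1 5] [(153, 137, [1])]) (.red [.t 1217 4 2, .f 954 3 1, .f 962 1 5] 136 136 [] [(136,
  136, []), (152, 136, [1])]) .no (.br 1210 (.use 88) .no .no (.use 87) .no (.red [.f 1081 5 1, .f
  1082 1 3, .f 954 3 1] 136 136 [] [(136, 136, []), (152, 136, [1])]))) .no .no

def c10t90 : Tr4 :=
  .br 1210 (.con 136 [1, 1, 4]) .no .no (.hor [.f 1201 3 5] []) .no .no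

def c10t91 : Tr4 :=
  .br 1209 (.red [.f 1209 1 3] 168 136 [1, 1] [(168, 136, [1, 1])]) .no .no (.use 90) (.red [.f
  1081 5 1, .f 1082 1 3, .f 954 3 1] 136 136 [] [(136, 136, []), (152, 136, [1])]) (.con 136 [1,
  4])

def c10t92 : Tr4 :=
  .br 1083 (.con 136 [4, 1]) .no (.con 136 [4, 1]) (.hor [.f 1074 3 5] []) .no .no

def c10t93 : Tr4 :=
  .br 1083 (.br 1210 (.con 136 [1, 4]) (.hor [.f 1082 1 5] []) (.con 136 [1, 4]) (.con 136 [1, 4])
  .no (.con 136 [1, 4])) .no .no (.red [.f 947 3 1, .t 954 3 1] 136 136 [] [(135, 136, [4]), (136,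
  136, [])]) .no (.red [.f 1082 5 3, .f 954 3 1] 136 136 [] [(136, 136, [])])

def c10t94 : Tr4 :=
  .br 955 (.br 1091 (.use 4) (.red [.f 955 1 3, .f 954 3 5] 136 136 [] [(136, 136, [])]) (.br 1090
  (.br 1089 (.con 136 [3]) (.br 1082 (.red [.f 1082 1 3, .f 954 3 1] 136 136 [] [(136, 136, []),
  (152, 136, [1])]) .no .no (.br 963 .no (.br 960 (.con 136 [3]) (.br 1081 (.br 1080 (.hor [.f
  1080 1 5] []) .no (.typ 1) (.con 136 [4, 1]) .no .no) .no .no (.hor [.f 1073 3 5] []) .no (.red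
  [.f 824 1 3, .t 960 4 1] 136 136 [] [(120, 136, [2]), (136, 136, [])])) (.con 136 [2, 3]) .no
  .no .no) (.red [.f 963 3 1, .f 955 1 3, .f 954 3 5] 136 136 [] [(136, 136, []), (137, 136,
  [3])]) .no .no .no) .no (.red [.t 961 1 4, .f 954 1 5] 136 136 [] [(136, 136, [])])) (.con 136
  [3]) (.con 136 [3]) .no (.con 136 [3])) .no (.hor [.f 1090 3 5] []) (.red [.f 954 3 1, .f 954 1
  5] 136 136 [] [(136, 136, [])]) .no (.con 136 [3])) .no .no (.red [.t 954 3 1] 136 136 [] [(136,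
  136, [])])) (.use 62) (.con 136 [2]) (.br 963 (.br 1083 (.br 1082 (.hor [.f 1082 1 5] []) .no
  (.red [.f 954 3 1, .f 962 1 5] 136 136 [] [(136, 136, [])]) (.use 5) .no (.br 1089 (.use 12)
  (.red [.t 961 1 4] 136 136 [] [(136, 136, [])]) (.br 961 .no (.use 1) (.red [.f 961 3 1, .t 961
  1 4] 136 136 [] [(136, 136, []), (137, 136, [3])]) .no .no (.br 1090 (.use 89) .no (.hor [.f
  1089 3 5] []) .no .no .no)) .no (.red [.f 1081 5 3, .f 954 3 1] 136 136 [] [(136, 136, [])])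
  (.br 1090 (.br 1217 (.use 91) .no (.use 46) (.red [.t 1217 4 2, .f 954 3 1, .f 962 1 5] 136 136
  [] [(136, 136, []), (152, 136, [1])]) .no (.use 55)) .no (.con 136 [3, 1]) .no .no .no))) .no
  .no (.red [.f 947 3 1, .f 955 1 3, .f 954 3 5] 136 136 [] [(135, 136, [4]), (136, 136, [])]) .no
  (.red [.t 962 4 1] 136 136 [] [(136, 136, [])])) (.use 59) (.br 1089 (.con 136 [3]) (.br 1081
  (.br 1080 (.hor [.f 1080 1 5] []) .no (.br 1082 (.hor [.f 1081 1 5] []) .no (.red [.f 954 3 1,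
  .f 961 1 5] 136 136 [] [(136, 136, [])]) (.use 92) (.use 60) .no) (.use 57) .no .no) .no .no
  (.red [.f 945 3 1, .f 953 1 3] 136 136 [] [(135, 136, [4]), (136, 136, [])]) (.red [.t 961 1 4]
  136 136 [] [(136, 136, [])]) (.br 1090 (.br 1091 (.hor [.f 1090 1 5] []) .no (.br 1083 (.br 1082
  (.red [.f 1082 1 3, .f 954 3 1] 136 136 [] [(136, 136, []), (152, 136, [1])]) .no .no (.con 136
  [4, 1]) .no .no) .no .no (.red [.f 947 3 1] 135 136 [4] [(135, 136, [4])]) .no (.red [.f 963 3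
  1, .t 962 4 1] 136 136 [] [(136, 136, []), (137, 136, [3])])) (.con 136 [1]) .no .no) .no (.use
  61) (.red [.f 954 3 1, .f 961 1 5] 136 136 [] [(136, 136, [])]) (.use 93) .no)) (.con 136 [3])
  (.con 136 [3]) (.con 136 [3]) (.con 136 [3])) .no .no .no) .no .no

def c10t95 : Tr4 :=
  .br 1083 (.con 136 [4]) (.hor [.f 954 1 5] []) (.con 136 [4]) (.con 136 [4]) .no .no

def c10t96 : Tr4 :=
  .br 1216 (.con 136 [1, 3, 1]) .no (.red [.f 1088 3 1, .f 1080 1 3, .f 952 3 1, .f 960 1 5] 136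
  136 [] [(136, 136, []), (152, 136, [1]), (153, 136, [1, 3])]) .no (.con 136 [1, 3, 1]) .no

def c10t97 : Tr4 :=
  .br 955 .no (.con 136 [4, 2]) (.con 136 [2]) (.hor [.f 946 3 5] []) .no .no

def c10t98 : Tr4 :=
  .br 962 .no (.hor [.f 834 1 5] []) (.con 136 [3, 2]) .no .no .no

def c10t99 : Tr4 :=
  .br 1210 (.br 1209 (.hor [.f 1209 1 5] []) .no (.br 1211 (.hor [.f 1210 1 5] []) .no (.red [.t
  1218 2 4] 152 136 [1] [(152, 136, [1])]) (.red [.t 1202 2 3, .f 1073 3 5, .t 1217 4 2] 152 136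
  [1] [(151, 135, [1]), (152, 136, [1])]) .no .no) (.red [.f 1073 3 1, .f 1080 1 5, .t 960 4 1]
  136 136 [] [(136, 136, []), (151, 135, [1])]) .no .no) .no .no .no (.red [.f 1082 5 1, .f 1082 1
  3] 152 136 [1] [(152, 136, [1])]) (.red [.t 1073 3 1, .f 1080 1 5, .t 960 4 1] 136 136 [] [(136,
  136, []), (151, 135, [1])])

def c10t100 : Tr4 :=
  .br 947 (.con 136 [4, 2, 4]) (.hor [.f 818 1 5] []) .no (.con 136 [4, 2, 4]) .no .no

def c10t101 : Tr4 :=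
  .br 1075 .no .no .no (.hor [.f 1066 3 5] []) .no .no

def c10t102 : Tr4 :=
  .br 1219 (.br 1211 (.red [.f 1211 1 3, .t 1218 2 4] 152 136 [1] [(152, 136, [1]), (168, 136, [1,
  1])]) .no .no (.use 101) .no (.red [.f 1082 5 1, .f 1082 1 3] 152 136 [1] [(152, 136, [1])]))
  .no (.use 96) (.red [.t 1218 2 4] 152 136 [1] [(152, 136, [1])]) .no .no

def c10t103 : Tr4 :=
  .br 954 .no (.hor [.f 825 1 5] []) (.br 1091 (.con 136 [3, 1]) (.red [.t 962 4 1] 136 136 []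
  [(136, 136, [])]) (.br 963 .no (.br 955 .no (.hor [.f 827 1 3, .f 954 3 5] [(120, 119, [3])])
  .no (.br 1074 (.br 1210 (.br 1209 (.hor [.f 1209 1 5] []) .no (.br 1211 (.hor [.f 1210 1 5] [])
  .no (.red [.t 1218 2 4, .f 954 3 1, .f 961 1 5] 136 136 [] [(136, 136, []), (152, 136, [1])])
  (.red [.t 1202 2 3, .f 1073 3 5, .t 1217 4 2] 152 136 [1] [(151, 135, [1]), (152, 136, [1])])
  .no .no) (.red [.f 1073 3 1, .f 1080 1 5, .t 960 4 1] 136 136 [] [(136, 136, []), (151, 135,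
  [1])]) .no .no) .no .no .no (.red [.f 1082 5 1, .f 1082 1 3] 152 136 [1] [(152, 136, [1])])
  (.red [.t 1073 3 1, .f 1080 1 5, .t 960 4 1] 136 136 [] [(136, 136, []), (151, 135, [1])]))
  (.red [.t 946 1 3, .f 1073 3 5] 135 136 [4] [(135, 136, [4])]) .no (.br 1075 (.br 1211 (.br 1210
  (.hor [.f 1210 1 5] []) .no .no (.red [.t 1202 3 2, .f 1082 1 3] 152 136 [1] [(151, 136, [4,
  1]), (152, 136, [1])]) .no (.br 1219 (.red [.f 1211 1 3] 168 136 [1, 1] [(168, 136, [1, 1])])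
  .no (.use 96) .no .no .no)) .no (.red [.t 1218 2 4, .f 954 3 1, .f 961 1 5] 136 136 [] [(136,
  136, []), (152, 136, [1])]) .no .no (.red [.f 1082 5 1, .f 1082 1 3] 152 136 [1] [(152, 136,
  [1])])) .no .no (.hor [.f 1066 3 5] []) .no .no) (.red [.f 1074 5 3, .f 947 3 1] 135 136 [4]
  [(135, 136, [4])]) .no) .no .no) (.red [.f 963 3 1, .t 962 4 1] 136 136 [] [(136, 136, []),
  (137, 136, [3])]) (.hor [.f 954 3 5] []) .no .no) .no .no .no) (.use 97) (.br 1091 (.con 136 [3,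
  1]) (.red [.f 954 5 1, .f 955 1 3] 136 136 [] [(136, 136, [])]) (.br 963 .no (.use 98) (.red [.f
  963 3 1, .f 954 5 1, .f 955 1 3] 136 136 [] [(136, 136, []), (137, 136, [3])]) .no .no (.br 945
  .no (.red [.f 817 1 3] 119 136 [2, 4] [(119, 136, [2, 4])]) .no (.br 1074 (.use 99) (.red [.f
  954 5 1, .f 946 1 3] 135 136 [4] [(135, 136, [4])]) .no (.br 946 .no (.use 100) .no (.hor [.f
  937 3 5] []) (.use 102) .no) (.red [.f 954 5 3, .f 1074 5 3, .f 1073 3 5, .t 961 1 4] 136 136 []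
  [(136, 136, [])]) .no) (.red [.f 954 5 3, .f 954 3 5, .f 954 5 1, .t 1081 4 2] 135 136 [4]
  [(135, 136, [4])]) (.br 1074 (.use 99) (.red [.f 954 5 1, .f 946 1 3] 135 136 [4] [(135, 136,
  [4])]) .no (.br 946 .no (.br 947 (.con 136 [4, 4]) (.hor [.f 818 1 5] []) .no (.con 136 [2, 4,
  4]) .no .no) .no (.red [.f 938 3 1] 134 136 [4, 4] [(134, 136, [4, 4])]) (.use 102) .no) (.red
  [.f 954 5 3, .f 1074 5 3, .f 1073 3 5, .t 961 1 4] 136 136 [] [(136, 136, [])]) .no))) .no .no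
  .no) .no

def c10t104 : Tr4 :=
  .br 1075 .no .no .no (.hor [.f 1066 3 5] []) .no .no

def c10l3 : List Tr4 :=
  [c10t86, c10t87, c10t88, c10t89, c10t90, c10t91, c10t92, c10t93, c10t94, c10t95, c10t96, c10t97,
  c10t98, c10t99, c10t100, c10t101, c10t102, c10t103, c10t104]

theorem c10k3 : chkLF ⟨4, 0, 0, true, -8⟩ true 0 c10N 86 c10l3 = true := by decide +kernel

def c10t105 : Tr4 :=
  .br 1211 (.red [.f 1211 1 3, .t 1218 2 4] 152 136 [1] [(152, 136, [1]), (168, 136, [1, 1])]) .no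
  .no (.br 946 .no (.br 945 .no (.hor [.f 817 1 5] []) .no (.br 947 (.con 136 [4, 2, 4]) (.hor [.f
  818 1 5] []) (.use 104) (.con 136 [4, 2, 4]) .no .no) .no (.br 947 (.con 136 [4, 4]) (.hor [.f
  818 1 5] []) (.use 104) (.con 136 [4, 2, 4]) .no .no)) .no (.br 1075 .no (.red [.f 938 3 1] 134
  136 [4, 4] [(134, 136, [4, 4])]) .no (.hor [.f 1066 3 5] []) .no .no) (.use 101) (.red [.f 945 5
  3, .f 945 3 1, .f 953 1 3] 136 136 [] [(135, 136, [4]), (136, 136, [])])) .no (.red [.f 1082 5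
  1, .f 1082 1 3, .t 1089 2 4] 136 136 [] [(136, 136, []), (152, 136, [1])])

def c10t106 : Tr4 :=
  .br 1209 (.hor [.f 1209 1 5] []) .no (.red [.t 1217 4 2, .f 1080 1 5] 152 136 [1] [(152, 136,
  [1])]) (.con 136 [4, 1, 1]) .no .no

def c10t107 : Tr4 :=
  .br 1210 (.use 106) .no .no (.red [.t 1210 4 2] 151 136 [4, 1] [(151, 136, [4, 1])]) .no (.red
  [.f 1081 5 1, .f 1080 1 5, .t 960 4 1] 136 136 [] [(136, 136, [])])

def c10t108 : Tr4 :=
  .br 946 (.red [.t 945 3 1, .f 953 1 3] 136 136 [] [(135, 136, [4]), (136, 136, [])]) (.hor [.f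
  818 1 3, .f 945 3 5] [(119, 120, [4])]) .no (.br 1074 (.br 1075 (.hor [.f 1074 1 5] []) .no .no
  (.use 13) .no .no) .no .no (.red [.f 938 3 1, .t 945 3 1] 135 136 [4] [(134, 136, [4, 4]), (135,
  136, [4])]) (.use 107) (.red [.f 1073 5 3, .f 945 3 1, .f 953 1 3] 136 136 [] [(135, 136, [4]),
  (136, 136, [])])) .no .no

def c10t109 : Tr4 :=
  .br 1083 (.use 108) .no .no (.red [.f 947 3 1] 135 136 [4] [(135, 136, [4])]) .no .no

def c10t110 : Tr4 :=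
  .br 1217 (.hor [.f 1216 1 5] []) .no (.con 136 [1, 3, 1]) .no .no .no

def c10t111 : Tr4 :=
  .br 825 .no (.red [.f 699 1 3, .t 826 1 3, .t 961 1 4] 136 136 [] [(104, 136, [2, 2]), (120,
  136, [2]), (136, 136, [])]) (.br 834 .no (.hor [.f 706 1 5] []) (.br 971 .no (.hor [.t 842 4 1,
  .f 826 1 3, .f 825 3 5] [(120, 136, [2]), (121, 136, [2, 3])]) (.br 970 (.red [.t 1098 2 4, .f
  955 1 3] 136 136 [] [(136, 136, []), (137, 136, [3])]) .no (.hor [.f 970 3 5] []) .no .no (.br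
  843 .no (.hor [.f 707 1 3, .f 834 3 5] [(105, 121, [2])]) (.red [.f 843 3 1, .t 842 4 1, .f 963
  3 1, .f 955 1 3] 136 136 [] [(121, 136, [2, 3]), (122, 136, [2, 3, 3]), (136, 136, []), (137,
  136, [3])]) .no .no .no)) .no .no (.red [.f 962 5 3, .f 963 3 1, .f 955 1 3] 136 136 [] [(136,
  136, []), (137, 136, [3])])) .no .no .no) (.red [.f 699 1 3, .t 826 1 3, .t 961 1 4] 136 136 []
  [(104, 136, [2, 2]), (120, 136, [2]), (136, 136, [])]) .no (.red [.f 699 1 3, .t 826 1 3, .t 961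
  1 4] 136 136 [] [(104, 136, [2, 2]), (120, 136, [2]), (136, 136, [])])

def c10t112 : Tr4 :=
  .br 1097 (.red [.t 1096 4 1, .f 1080 1 3] 152 136 [1] [(152, 136, [1]), (153, 136, [3, 1])]) .no
  (.br 1098 (.con 136 [3, 3, 1]) .no (.hor [.f 1097 3 5] []) .no .no .no) .no (.red [.f 969 5 1,
  .t 1098 2 4, .f 955 1 3] 136 136 [] [(136, 136, []), (137, 136, [3])]) .no

def c10t113 : Tr4 :=
  .br 835 .no (.use 111) (.br 968 .no (.br 969 (.con 136 [2, 3, 3]) (.hor [.f 840 1 5] []) (.con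
  136 [2, 3, 3]) .no (.con 136 [2, 3, 3]) .no) (.br 971 .no .no (.br 970 (.red [.t 1098 2 4, .f
  955 1 3] 136 136 [] [(136, 136, []), (137, 136, [3])]) (.br 969 (.con 136 [3, 3]) (.hor [.f 841
  1 5] []) (.con 136 [2, 3, 3]) .no .no .no) (.hor [.f 970 3 5] []) .no .no (.use 112)) .no .no
  (.red [.f 962 5 3, .f 963 3 1, .f 955 1 3] 136 136 [] [(136, 136, []), (137, 136, [3])])) .no
  (.red [.t 1088 3 2, .f 1088 5 1, .f 1080 1 3, .f 952 3 1, .f 960 1 3] 136 136 [] [(136, 136,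
  []), (152, 136, [1])]) .no) .no .no (.red [.f 834 5 1, .f 826 1 3, .t 961 1 4] 136 136 [] [(120,
  136, [2]), (136, 136, [])])

def c10t114 : Tr4 :=
  .br 1216 (.use 110) .no (.red [.f 1088 3 1, .f 1080 1 3, .f 952 3 1, .f 960 1 5] 136 136 []
  [(136, 136, []), (152, 136, [1]), (153, 136, [3, 1])]) .no (.use 113) .no

def c10t115 : Tr4 :=
  .br 947 (.red [.f 947 1 3, .f 819 3 1, .f 826 1 5, .f 954 5 3, .t 961 1 4] 136 136 [] [(119,
  120, [4]), (135, 136, [4]), (136, 136, [])]) .no .no (.hor [.f 938 3 5] []) .no .no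

def c10t116 : Tr4 :=
  .br 1217 (.hor [.f 1216 1 5] []) .no (.con 136 [1, 3, 1]) .no .no .no

def c10t117 : Tr4 :=
  .br 1216 (.use 116) .no (.red [.f 1088 3 1, .f 1080 1 3, .f 952 3 1, .f 960 1 5] 136 136 []
  [(136, 136, []), (152, 136, [1]), (153, 136, [3, 1])]) .no (.use 113) .no

def c10t118 : Tr4 :=
  .br 969 (.con 136 [3, 3]) (.hor [.f 841 1 5] []) (.br 968 .no (.con 136 [3, 3, 2]) (.hor [.f 968
  3 5] []) .no .no .no) .no .no (.red [.t 1088 3 2, .f 1088 5 1, .f 1080 1 3, .f 952 3 1, .f 960 1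
  3] 136 136 [] [(136, 136, []), (152, 136, [1])])

def c10t119 : Tr4 :=
  .br 1225 (.con 136 [1, 3, 3]) (.red [.t 1096 4 1, .f 1080 1 3] 152 136 [1] [(152, 136, [1]),
  (153, 136, [3, 1])]) (.con 136 [1, 3, 3]) .no .no (.con 136 [1, 3, 3])

def c10t120 : Tr4 :=
  .br 833 .no (.hor [.f 705 1 5] []) .no .no .no (.hor [.f 698 1 3, .f 826 3 5] [(104, 105, [4])])

def c10t121 : Tr4 :=
  .br 817 .no (.con 136 [4, 2, 2, 4]) .no (.hor [.f 809 3 5] []) .no .no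

def c10t122 : Tr4 :=
  .br 944 .no (.use 121) .no (.hor [.f 936 3 5] []) .no .no

def c10t123 : Tr4 :=
  .br 817 .no (.br 971 .no (.br 834 .no (.use 120) (.red [.t 842 4 1, .f 963 3 1, .f 955 1 3] 136
  136 [] [(121, 136, [2, 3]), (136, 136, []), (137, 136, [3])]) .no .no (.br 697 .no (.br 842 .no
  (.br 706 .no (.br 832 .no (.br 705 .no (.hor [.f 577 1 5] []) (.hor [.f 696 1 3, .f 696 3 1, .t
  713 4 1, .f 704 1 5] [(105, 136, [2, 2, 3])]) .no .no .no) (.br 816 .no (.hor [.f 688 1 5] [])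
  .no (.con 136 [2, 2, 4, 4]) .no .no) .no .no .no) .no .no (.red [.t 826 2 3, .t 946 3 2, .f 825
  1 5] 119 136 [2, 4] [(104, 103, [3]), (119, 136, [2, 4])]) (.red [.f 705 5 1, .f 698 1 3, .f 826
  3 5, .t 946 3 2] 119 136 [2, 4] [(104, 103, [3]), (119, 136, [2, 4])])) (.hor [.f 842 3 1, .f
  841 1 5] [(122, 106, [1])]) .no .no .no) (.hor [.t 697 3 1, .f 826 3 5] [(104, 88, [1])]) .no
  .no .no)) (.hor [.f 970 3 5] []) .no .no .no) .no (.hor [.f 809 3 5] []) .no (.red [.f 816 5 1,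
  .f 817 1 3] 119 136 [2, 4] [(119, 136, [2, 4])])

def c10t124 : Tr4 :=
  .br 817 .no (.br 816 .no (.hor [.f 688 1 5] []) .no (.con 136 [2, 4, 2, 4]) .no .no) .no (.hor
  [.f 809 3 5] []) .no (.red [.f 824 3 1, .f 816 5 1, .f 817 1 3, .f 824 1 3] 119 136 [2, 4]
  [(119, 136, [2, 4])])

def c10t125 : Tr4 :=
  .br 824 .no (.use 123) (.use 124) (.red [.t 824 4 1] 119 136 [2, 4] [(119, 136, [2, 4])]) .no
  .no

def c10t126 : Tr4 :=
  .br 1074 .no .no .no (.br 1073 (.red [.t 1201 2 3, .f 1082 1 3] 152 136 [1] [(151, 136, [4, 1]),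
  (152, 136, [1])]) (.br 1075 (.red [.t 945 1 3, .f 954 1 5, .t 1202 3 2, .f 1082 1 3] 152 136 [1]
  [(135, 119, [1]), (151, 136, [4, 1]), (152, 136, [1])]) .no .no (.hor [.f 1066 3 5] []) .no .no)
  .no (.hor [.f 1065 3 5] []) .no (.br 945 .no (.red [.f 817 1 3] 119 136 [2, 4] [(119, 136, [2,
  4])]) .no (.use 122) .no (.use 125))) (.red [.t 954 4 1, .f 954 5 3, .f 827 3 1, .f 819 1 3] 119
  136 [2, 4] [(119, 136, [2, 4]), (120, 136, [2]), (135, 119, [1])]) (.red [.f 1073 5 3, .f 1074 3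
  1, .f 1082 1 3] 152 136 [1] [(151, 136, [4, 1]), (152, 136, [1])])

def c10t127 : Tr4 :=
  .br 1339 (.br 1338 (.hor [.f 1338 1 5] []) .no (.red [.t 1346 4 2, .f 1209 1 5] 168 136 [1, 1]
  [(168, 136, [1, 1])]) .no .no .no) .no .no (.red [.t 1330 2 3, .f 1211 1 3] 168 136 [1, 1]
  [(167, 136, [1, 4, 1]), (168, 136, [1, 1])]) .no (.red [.f 1210 5 1, .f 1211 1 3] 168 136 [1, 1]
  [(168, 136, [1, 1])])

def c10t128 : Tr4 :=
  .br 1202 (.use 127) .no .no (.hor [.f 1066 3 1, .f 1073 1 5] [(150, 151, [4])]) .no .no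

def c10t129 : Tr4 :=
  .br 1226 (.hor [.f 1225 1 5] []) .no (.br 1227 (.con 136 [3, 3, 1, 1]) .no (.hor [.f 1226 3 5]
  []) .no .no .no) .no (.red [.t 1090 1 3, .f 962 5 1, .f 955 1 3, .f 961 1 5, .f 1089 5 3, .f
  1090 3 1] 136 136 [] [(136, 136, [])]) .no

def c10t130 : Tr4 :=
  .br 1345 (.con 136 [1, 1, 1, 3]) .no (.hor [.f 1344 3 5] []) .no (.con 136 [1, 1, 1, 3]) .no

def c10t131 : Tr4 :=
  .br 1344 (.red [.f 1336 1 3, .t 1336 3 2] 168 136 [1, 1] [(168, 136, [1, 1]), (184, 136, [1, 1,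
  1])]) .no (.use 130) .no (.red [.f 1216 5 1, .f 1209 1 3] 168 136 [1, 1] [(168, 136, [1, 1])])
  .no

def c10t132 : Tr4 :=
  .br 1338 (.hor [.f 1338 1 5] []) .no (.red [.t 1346 4 2, .f 1209 1 5] 168 136 [1, 1] [(168, 136,
  [1, 1])]) (.br 1336 (.use 131) .no (.red [.t 1336 3 2] 168 136 [1, 1] [(168, 136, [1, 1])])
  (.con 136 [1, 4, 1, 1]) .no .no) .no .no

def c10t133 : Tr4 :=
  .br 1339 (.use 132) .no .no .no .no (.red [.f 1210 5 1, .f 1211 1 3] 168 136 [1, 1] [(168, 136,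
  [1, 1])])

def c10t134 : Tr4 :=
  .br 1203 (.use 133) .no .no (.red [.f 1073 5 3, .f 1067 3 1, .t 1074 3 1, .f 1082 1 3] 152 136
  [1] [(150, 136, [4, 1, 4]), (151, 136, [4, 1]), (152, 136, [1])]) .no (.red [.f 1202 5 3, .f
  1073 5 3, .f 1074 3 1, .f 1082 1 3] 152 136 [1] [(151, 136, [4, 1]), (152, 136, [1])])

def c10t135 : Tr4 :=
  .br 944 .no (.con 136 [4, 2, 4]) .no (.hor [.f 936 3 5] []) .no .no

def c10t136 : Tr4 :=
  .br 827 .no (.hor [.f 698 1 5] []) .no (.con 136 [2, 2, 4]) .no .no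

def c10t137 : Tr4 :=
  .br 819 .no (.con 136 [4, 2, 4, 2]) .no (.hor [.f 810 3 5] []) .no .no

def c10t138 : Tr4 :=
  .br 817 .no (.con 136 [2, 4, 2, 4]) .no (.hor [.f 808 3 5] []) .no .no

def c10t139 : Tr4 :=
  .br 816 .no (.red [.f 688 1 3] 103 136 [2, 4, 2] [(103, 136, [2, 4, 2])]) .no (.use 138) (.red
  [.f 816 5 1, .f 817 1 3] 119 136 [2, 4] [(119, 136, [2, 4])]) .no

def c10t140 : Tr4 :=
  .br 816 .no (.hor [.f 688 1 5] []) .no (.con 136 [2, 4, 2, 4]) .no .no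

def c10t141 : Tr4 :=
  .br 705 .no (.hor [.f 576 1 5] []) (.red [.t 713 4 1, .t 832 4 2, .f 688 1 3] 103 136 [2, 2, 4]
  [(103, 136, [2, 2, 4]), (104, 136, [2, 2]), (105, 136, [2, 2, 3])]) .no (.red [.f 705 5 1, .t
  832 4 2, .f 688 1 3] 103 136 [2, 2, 4] [(103, 136, [2, 2, 4]), (104, 136, [2, 2])]) .no

def c10t142 : Tr4 :=
  .br 816 .no (.br 808 .no (.red [.f 680 1 3, .f 808 3 5, .f 816 5 1, .f 817 1 3] 119 136 [2, 4]
  [(102, 103, [4]), (119, 136, [2, 4])]) .no (.red [.f 800 3 1, .t 808 1 3, .f 817 1 3] 119 136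
  [2, 4] [(117, 136, [2, 4, 4, 4]), (118, 136, [2, 4, 4]), (119, 136, [2, 4])]) .no .no) .no (.use
  138) .no .no

def c10t143 : Tr4 :=
  .br 827 .no (.con 136 [2, 2]) (.br 818 .no (.red [.f 690 1 3] 103 136 [2, 2, 4] [(103, 136, [2,
  2, 4])]) .no (.use 124) (.br 971 .no (.br 834 .no (.use 120) (.red [.t 842 4 1, .f 963 3 1, .f
  955 1 3] 136 136 [] [(121, 136, [2, 3]), (136, 136, []), (137, 136, [3])]) .no .no (.br 968 .no
  (.hor [.f 840 1 5] []) (.br 817 .no (.use 140) .no (.br 842 .no (.br 840 .no (.br 816 .no (.br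
  704 .no (.br 696 .no (.red [.f 568 1 3, .f 696 3 1, .f 688 1 3] 103 136 [2, 2, 4] [(88, 136, [2,
  2, 2]), (103, 136, [2, 2, 4]), (104, 136, [2, 2])]) .no .no (.use 141) .no) .no (.red [.f 696 3
  1, .f 688 1 3] 103 136 [2, 2, 4] [(103, 136, [2, 2, 4]), (104, 136, [2, 2])]) (.br 697 .no (.br
  696 .no (.hor [.f 568 1 5] []) .no .no .no .no) .no (.red [.f 824 3 1, .f 824 1 5, .t 688 1 3,
  .f 697 1 5, .f 825 5 3, .t 832 1 4] 103 136 [2, 2, 4] [(103, 136, [2, 2, 4])]) .no (.hor [.f 696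
  5 3, .f 696 3 1, .t 697 3 1, .f 704 1 5, .f 826 3 5] [])) .no) .no (.use 138) .no .no) (.hor [.f
  840 3 1, .f 840 1 5] [(122, 121, [3])]) .no .no .no) (.hor [.f 842 3 1, .f 841 1 5] [(122, 121,
  [3])]) .no .no .no) .no (.red [.f 824 3 1, .f 816 5 1, .f 817 1 3, .f 824 1 3] 119 136 [2, 4]
  [(119, 136, [2, 4])])) .no .no .no)) (.hor [.f 970 3 5] []) .no .no .no) (.red [.f 824 3 1, .f
  824 1 3, .t 953 2 4] 119 136 [2, 4] [(119, 136, [2, 4])])) (.con 136 [2, 2]) .no .no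

def c10t144 : Tr4 :=
  .br 826 .no (.use 143) (.con 136 [2, 2]) (.red [.f 818 3 1, .f 825 1 5] 119 136 [2, 4] [(119,
  136, [2, 4])]) (.con 136 [2, 2]) .no

def c10t145 : Tr4 :=
  .br 945 .no (.red [.f 817 1 3] 119 136 [2, 4] [(119, 136, [2, 4])]) .no (.use 135) .no (.br 824
  .no (.br 971 .no (.br 835 .no (.br 834 .no (.hor [.f 706 1 5] []) (.red [.t 842 4 1, .f 963 3 1,
  .f 955 1 3] 136 136 [] [(121, 136, [2, 3]), (136, 136, []), (137, 136, [3])]) (.con 136 [2, 2])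
  .no (.br 826 .no (.use 136) .no (.red [.f 818 3 1, .f 825 1 5] 119 136 [2, 4] [(119, 136, [2,
  4])]) (.br 819 .no (.br 818 .no (.hor [.f 690 1 5] []) .no (.br 817 .no (.con 136 [2, 2, 4, 4])
  .no (.hor [.f 809 3 5] []) .no (.con 136 [2, 2, 4, 4])) .no (.red [.f 944 5 1, .t 953 2 4] 119
  136 [2, 4] [(119, 136, [2, 4])])) .no (.red [.f 811 3 1, .t 946 3 2] 119 136 [2, 4] [(118, 136,
  [2, 4, 4]), (119, 136, [2, 4])]) .no (.red [.f 818 5 3, .f 818 3 1] 119 136 [2, 4] [(119, 136,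
  [2, 4])])) .no)) .no (.br 826 .no (.br 818 .no (.red [.f 690 1 3] 103 136 [2, 2, 4] [(103, 136,
  [2, 2, 4])]) .no (.br 817 .no (.use 137) .no (.hor [.f 809 3 5] []) .no (.red [.f 816 5 1, .f
  817 1 3] 119 136 [2, 4] [(119, 136, [2, 4])])) (.use 139) (.red [.f 944 5 1, .t 953 2 4] 119 136
  [2, 4] [(119, 136, [2, 4])])) (.hor [.f 826 3 5] []) (.red [.f 818 3 1, .f 825 1 5] 119 136 [2,
  4] [(119, 136, [2, 4])]) .no .no) .no (.red [.f 834 5 1, .f 835 1 3, .f 963 3 1, .f 955 1 3] 136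
  136 [] [(121, 136, [2, 3]), (136, 136, []), (137, 136, [3])])) (.hor [.f 970 3 5] []) .no .no
  .no) (.use 144) (.red [.t 824 4 1] 119 136 [2, 4] [(119, 136, [2, 4])]) .no .no)

def c10t146 : Tr4 :=
  .br 944 (.hor [.f 937 3 1, .f 944 1 5] [(134, 118, [1])]) (.con 136 [2, 4, 4]) .no (.hor [.f 936
  3 5] []) .no .no

def c10t147 : Tr4 :=
  .br 1072 (.br 1201 (.red [.f 1201 1 3, .f 1201 3 5, .f 1081 5 1, .f 1082 1 3] 152 136 [1] [(152,
  136, [1]), (167, 166, [3])]) .no .no (.hor [.f 1072 1 3, .f 1065 3 1, .f 1072 3 1, .f 1072 1 5]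
  [(150, 136, [1, 4, 4])]) .no .no) .no .no (.hor [.f 1064 3 5] []) .no .no

def c10t148 : Tr4 :=
  .br 971 .no (.br 835 .no (.br 834 .no (.hor [.f 706 1 5] []) (.red [.t 842 4 1, .f 963 3 1, .f
  955 1 3] 136 136 [] [(121, 136, [2, 3]), (136, 136, []), (137, 136, [3])]) (.con 136 [2, 2]) .no
  (.br 827 .no (.br 824 .no (.br 698 (.use 136) (.con 136 [2, 4, 2, 3]) (.con 136 [2, 4, 2, 3])
  (.con 136 [2, 4, 2, 2]) .no (.con 136 [2, 4, 2, 3])) (.con 136 [2, 2]) (.br 698 (.hor [.f 698 1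
  5] []) (.con 136 [2, 4, 2, 3]) (.con 136 [2, 4, 2, 3]) (.con 136 [2, 4, 2, 3]) .no (.con 136 [2,
  4, 2, 3])) .no .no) .no (.con 136 [2, 4, 4, 2]) .no (.br 824 .no (.br 819 .no (.con 136 [2, 2,
  4, 4]) .no (.hor [.f 810 3 5] []) .no .no) (.con 136 [2, 2]) (.br 819 .no (.con 136 [2, 2, 4,
  4]) .no (.hor [.f 810 3 5] []) .no .no) .no .no))) .no (.use 137) .no (.red [.f 834 5 1, .f 835
  1 3, .f 963 3 1, .f 955 1 3] 136 136 [] [(121, 136, [2, 3]), (136, 136, []), (137, 136, [3])]))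
  (.hor [.f 970 3 5] []) .no .no .no

def c10t149 : Tr4 :=
  .br 826 .no (.hor [.f 698 1 5] []) (.con 136 [2, 2]) .no .no .no

def c10l4 : List Tr4 :=
  [c10t105, c10t106, c10t107, c10t108, c10t109, c10t110, c10t111, c10t112, c10t113, c10t114,
  c10t115, c10t116, c10t117, c10t118, c10t119, c10t120, c10t121, c10t122, c10t123, c10t124,
  c10t125, c10t126, c10t127, c10t128, c10t129, c10t130, c10t131, c10t132, c10t133, c10t134,
  c10t135, c10t136, c10t137, c10t138, c10t139, c10t140, c10t141, c10t142, c10t143, c10t144,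
  c10t145, c10t146, c10t147, c10t148, c10t149]

theorem c10k4 : chkLF ⟨4, 0, 0, true, -8⟩ true 0 c10N 105 c10l4 = true := by decide +kernel

def c10t150 : Tr4 :=
  .br 1339 (.use 132) .no .no (.br 1202 (.use 127) .no .no (.br 1338 (.br 1064 (.br 1344 (.br 1336
  (.red [.f 1336 1 3, .t 1336 3 2] 168 136 [1, 1] [(168, 136, [1, 1]), (184, 136, [1, 1, 1])]) .no
  .no (.br 1203 .no .no .no (.con 136 [4, 1, 1, 4, 2, 2, 2]) .no .no) .no .no) .no (.br 1346 (.red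
  [.f 1338 1 3, .t 1346 4 2] 168 136 [1, 1] [(168, 136, [1, 1]), (184, 136, [1, 1, 1])]) .no .no
  .no .no (.con 136 [1, 3, 1, 1])) (.red [.t 1336 3 2] 168 136 [1, 1] [(168, 136, [1, 1])]) (.red
  [.f 1216 5 1, .f 1209 1 3] 168 136 [1, 1] [(168, 136, [1, 1])]) .no) (.hor [.f 936 1 3, .f 936 3
  5] [(134, 118, [1])]) .no (.hor [.f 1056 3 5] []) .no .no) .no (.red [.t 1346 4 2, .f 1209 1 5]
  168 136 [1, 1] [(168, 136, [1, 1])]) (.hor [.f 1330 3 5] []) .no .no) (.red [.f 1074 5 1, .f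
  1074 1 5, .f 1202 5 3, .f 1203 3 1, .f 1211 1 3] 168 136 [1, 1] [(167, 136, [4, 1, 1]), (168,
  136, [1, 1])]) .no) .no (.red [.f 1210 5 1, .f 1211 1 3] 168 136 [1, 1] [(168, 136, [1, 1])])

def c10t151 : Tr4 :=
  .br 1202 (.use 127) .no .no (.hor [.t 1201 2 4, .f 937 3 1, .f 944 1 5] [(134, 119, [1, 4]),
  (150, 152, [4, 4])]) (.br 1339 (.use 132) .no .no (.red [.f 1074 5 1, .f 1074 1 5, .f 1202 5 3,
  .f 1203 3 1, .f 1211 1 3] 168 136 [1, 1] [(167, 136, [4, 1, 1]), (168, 136, [1, 1])]) .no (.red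
  [.f 1210 5 1, .f 1211 1 3] 168 136 [1, 1] [(168, 136, [1, 1])])) .no

def c10t152 : Tr4 :=
  .br 817 .no (.br 818 .no (.hor [.f 689 1 5] []) (.red [.f 818 3 1, .f 825 1 5] 119 136 [2, 4]
  [(119, 136, [2, 4])]) (.use 148) (.br 827 .no (.use 149) (.br 826 .no (.br 971 .no (.br 834 .no
  (.use 120) (.red [.t 842 4 1, .f 963 3 1, .f 955 1 3] 136 136 [] [(121, 136, [2, 3]), (136, 136,
  []), (137, 136, [3])]) .no .no (.br 968 .no (.hor [.f 840 1 5] []) (.br 824 .no (.br 816 .no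
  (.hor [.f 688 1 5] []) .no (.con 136 [2, 2, 4, 4]) .no .no) (.br 842 .no (.br 697 .no (.br 696
  .no (.hor [.f 568 1 5] []) (.br 705 .no (.br 707 .no (.hor [.f 569 1 3, .f 696 3 5] [(88, 89,
  [4])]) (.hor [.f 569 1 3, .f 696 3 5] [(88, 104, [2])]) (.hor [.f 699 3 1, .f 698 1 5, .f 569 1
  3, .f 696 3 1, .f 569 3 1] []) .no (.hor [.f 569 1 3, .f 696 3 5] [(88, 89, [4])])) (.hor [.t
  713 4 1, .f 696 3 1, .f 704 1 5] [(104, 136, [2, 2]), (105, 136, [2, 2, 3])]) .no (.hor [.f 705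
  5 1, .f 696 3 1, .f 698 1 3, .f 704 1 5, .f 826 3 5] []) .no) (.con 136 [2, 2, 4, 4]) .no .no)
  (.br 704 .no (.con 136 [2, 2, 2]) (.con 136 [2, 2, 2]) (.hor [.f 696 3 5] []) .no .no) .no .no
  (.br 840 .no (.br 704 .no (.br 816 .no (.use 141) .no (.con 136 [2, 2, 4, 4]) .no .no) .no .no
  (.hor [.f 696 5 3, .f 696 3 1, .t 697 3 1, .f 704 1 5, .f 826 3 5] []) .no) (.hor [.f 840 3 1,
  .f 840 1 5] [(122, 121, [3])]) .no .no .no)) (.hor [.f 842 3 1, .f 841 1 5] [(122, 121, [3])])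
  .no .no .no) (.br 1226 (.br 1065 (.hor [.f 1065 1 3, .f 937 3 1, .f 944 1 5] [(134, 118, [1]),
  (150, 118, [1, 1])]) .no .no (.use 150) (.use 151) (.red [.t 944 1 4, .t 824 4 1] 119 136 [2, 4]
  [(119, 136, [2, 4]), (134, 118, [1])])) .no (.hor [.f 1225 3 5] []) .no (.red [.t 1090 1 3, .f
  962 5 1, .f 955 1 3, .f 961 1 5, .f 1089 5 3, .f 1090 3 1] 136 136 [] [(136, 136, [])]) .no) .no
  .no) .no .no .no)) (.hor [.f 970 3 5] []) .no .no .no) (.hor [.f 826 3 5] []) .no .no .no) .no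
  .no (.red [.f 818 5 3, .f 818 3 1] 119 136 [2, 4] [(119, 136, [2, 4])])) .no) .no (.red [.f 809
  3 1, .f 817 1 3] 119 136 [2, 4] [(118, 136, [2, 4, 4]), (119, 136, [2, 4])]) (.red [.t 953 2 4]
  119 136 [2, 4] [(119, 136, [2, 4])]) (.br 1065 (.hor [.f 1065 1 3, .f 937 3 1, .f 944 1 5]
  [(134, 118, [1]), (150, 118, [1, 1])]) .no .no (.br 1226 (.use 150) .no (.hor [.f 1225 3 5] [])
  .no (.red [.t 1090 1 3, .f 962 5 1, .f 955 1 3, .f 961 1 5, .f 1089 5 3, .f 1090 3 1] 136 136 []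
  [(136, 136, [])]) .no) (.use 151) (.red [.t 944 1 4, .f 816 5 1, .f 817 1 3] 119 136 [2, 4]
  [(119, 136, [2, 4]), (134, 118, [1])]))

def c10t153 : Tr4 :=
  .br 827 .no (.use 149) (.br 826 .no (.use 139) (.hor [.f 826 3 5] []) .no .no .no) .no .no (.red
  [.f 818 5 3, .f 818 3 1] 119 136 [2, 4] [(119, 136, [2, 4])])

def c10t154 : Tr4 :=
  .br 827 .no (.con 136 [2, 2]) (.hor [.f 826 3 5] []) (.con 136 [2, 2]) .no .no

def c10t155 : Tr4 :=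
  .br 817 .no (.br 818 .no (.hor [.f 689 1 5] []) (.red [.f 818 3 1, .f 825 1 5] 119 136 [2, 4]
  [(119, 136, [2, 4])]) (.use 148) (.use 153) .no) .no (.br 818 .no (.br 826 .no (.red [.f 690 1
  3] 103 136 [2, 4, 2] [(103, 136, [2, 4, 2])]) (.use 154) .no (.br 819 .no (.hor [.f 690 1 5] [])
  .no (.red [.f 811 3 1, .t 946 3 2] 119 136 [2, 4] [(118, 136, [2, 4, 4]), (119, 136, [2, 4])])
  .no .no) .no) (.red [.f 818 3 1, .f 825 1 5] 119 136 [2, 4] [(119, 136, [2, 4])]) (.hor [.f 809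
  3 5] []) (.use 153) .no) (.red [.t 953 2 4] 119 136 [2, 4] [(119, 136, [2, 4])]) (.red [.f 816 5
  1, .f 817 1 3] 119 136 [2, 4] [(119, 136, [2, 4])])

def c10t156 : Tr4 :=
  .br 947 (.red [.f 947 1 3, .f 946 3 5, .f 954 5 3, .t 961 1 4] 136 136 [] [(135, 119, [1]),
  (136, 136, [])]) (.br 826 .no (.br 827 .no (.hor [.f 698 1 5] []) (.br 818 .no (.red [.f 690 1
  3, .f 818 3 1, .f 818 1 5] 119 136 [2, 4] [(103, 136, [2, 2, 4]), (119, 136, [2, 4])]) .no (.br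
  1210 (.hor [.f 1209 1 5] []) .no .no (.use 126) (.br 945 (.red [.t 945 1 3, .f 954 1 5, .f 1082
  5 1, .f 1082 1 3] 152 136 [1] [(135, 119, [1]), (152, 136, [1])]) (.red [.f 817 1 3] 119 136 [2,
  4] [(119, 136, [2, 4])]) .no (.br 944 (.br 1219 (.br 1073 (.br 1074 (.hor [.f 1073 1 5] []) .no
  .no (.br 1075 (.use 128) .no .no (.hor [.f 1066 3 5] []) .no .no) (.red [.t 954 4 1, .f 954 5 3,
  .f 827 3 1, .f 819 1 3] 119 136 [2, 4] [(119, 136, [2, 4]), (120, 136, [2]), (135, 119, [1])])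
  .no) .no .no (.hor [.f 937 3 1, .f 944 1 5] [(134, 119, [4, 1])]) (.br 1075 (.red [.f 1073 5 3,
  .t 1074 3 1, .f 1082 1 3] 152 136 [1] [(151, 136, [4, 1]), (152, 136, [1])]) .no .no (.use 134)
  .no .no) .no) .no (.con 136 [3, 1, 1]) .no .no .no) (.use 121) .no (.hor [.f 936 3 5] []) .no
  .no) .no (.use 125)) .no) .no (.red [.t 953 2 4, .f 818 1 5] 119 136 [2, 4] [(119, 136, [2,
  4])])) .no .no .no) (.br 827 .no (.con 136 [2, 2]) (.hor [.f 826 3 5] []) .no .no .no) (.red [.f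
  818 3 1, .f 818 1 5] 119 136 [2, 4] [(119, 136, [2, 4])]) (.red [.t 946 3 2, .f 825 1 5] 119 136
  [2, 4] [(119, 136, [2, 4])]) .no) .no (.br 1210 (.hor [.f 1209 1 5] []) .no .no (.br 1074 .no
  .no .no (.br 1075 (.br 1073 (.red [.t 1201 2 3, .f 1082 1 3] 152 136 [1] [(151, 136, [4, 1]),
  (152, 136, [1])]) (.red [.t 945 1 3, .f 954 1 5, .t 1202 3 2, .f 1082 1 3] 152 136 [1] [(135,
  119, [1]), (151, 136, [4, 1]), (152, 136, [1])]) .no (.hor [.f 1065 3 5] []) .no (.use 145)) .no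
  .no (.hor [.f 1066 3 5] []) .no .no) (.br 1073 (.red [.t 1201 2 3, .f 1082 1 3] 152 136 [1]
  [(151, 136, [4, 1]), (152, 136, [1])]) (.br 1219 (.br 1211 (.red [.f 1211 1 3] 168 136 [1, 1]
  [(168, 136, [1, 1])]) .no .no (.hor [.f 1202 3 5] []) .no .no) .no (.con 136 [3, 1, 1]) (.red
  [.t 945 1 3, .f 954 1 5, .t 1218 2 4] 152 136 [1] [(135, 119, [1]), (152, 136, [1])]) .no .no)
  .no (.br 945 .no (.red [.f 817 1 3] 119 136 [2, 4] [(119, 136, [2, 4])]) .no (.use 146) .no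
  (.use 147)) .no (.use 145)) (.red [.f 1073 5 3, .f 1074 3 1, .f 1082 1 3] 152 136 [1] [(151,
  136, [4, 1]), (152, 136, [1])])) (.br 945 (.red [.t 945 1 3, .f 954 1 5, .f 1082 5 1, .f 1082 1
  3] 152 136 [1] [(135, 119, [1]), (152, 136, [1])]) (.red [.f 817 1 3] 119 136 [2, 4] [(119, 136,
  [2, 4])]) .no (.br 944 (.br 1219 (.br 1225 (.use 129) .no (.br 1073 (.br 1074 (.hor [.f 1073 1
  5] []) .no .no (.br 1075 (.use 128) .no .no (.hor [.f 1066 3 5] []) .no .no) (.use 152) .no) .no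
  .no (.use 146) (.br 1075 (.red [.f 1073 5 3, .t 1074 3 1, .f 1082 1 3] 152 136 [1] [(151, 136,
  [4, 1]), (152, 136, [1])]) .no .no (.use 134) .no .no) .no) .no (.hor [.f 1097 5 1, .f 1090 1 3,
  .f 1090 3 5, .t 1096 4 1, .f 1217 3 5] []) (.hor [.f 1216 5 3, .f 1088 3 1, .t 1217 3 2, .f 1090
  3 5, .f 1096 1 5] [])) .no (.con 136 [3, 1, 1]) .no .no .no) (.con 136 [2, 4, 4]) .no (.hor [.f
  936 3 5] []) .no .no) .no (.br 824 .no (.use 155) (.use 144) (.red [.t 824 4 1] 119 136 [2, 4]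
  [(119, 136, [2, 4])]) .no .no)) .no) .no .no

def c10t157 : Tr4 :=
  .br 1211 (.hor [.f 1210 1 5] []) .no .no (.con 136 [1, 4, 1]) .no .no

def c10t158 : Tr4 :=
  .br 1210 (.br 1219 (.use 157) .no (.con 136 [1, 3, 1]) (.red [.t 945 1 3, .f 954 1 5, .t 1218 2
  4] 152 136 [1] [(135, 119, [1]), (152, 136, [1])]) .no .no) .no .no (.hor [.f 1201 3 5] [])
  (.red [.t 945 1 3, .f 954 1 5, .f 1082 5 1, .f 1082 1 3] 152 136 [1] [(135, 119, [1]), (152,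
  136, [1])]) .no

def c10t159 : Tr4 :=
  .br 1225 (.use 129) .no (.br 1203 (.br 1226 (.br 1224 (.br 1339 (.br 1353 (.br 1338 (.hor [.f
  1338 1 5] []) .no (.red [.t 1346 4 2] 168 136 [1, 1] [(168, 136, [1, 1])]) (.br 1337 (.con 136
  [4, 1, 1, 1]) .no (.con 136 [4, 1, 1, 1]) (.hor [.f 1329 3 5] []) .no (.con 136 [4, 1, 1, 1]))
  .no (.br 1345 (.br 1344 (.hor [.f 1344 1 5] []) .no .no (.br 1474 (.con 136 [1, 1, 1, 3]) (.hor
  [.f 1345 1 5] []) (.con 136 [1, 1, 1, 3]) (.con 136 [1, 1, 1, 3]) (.con 136 [1, 1, 1, 3]) .no)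
  .no .no) .no .no .no (.red [.f 1337 5 3, .t 1346 4 2] 168 136 [1, 1] [(168, 136, [1, 1])]) (.red
  [.f 1216 5 1, .f 1216 1 3, .f 1088 3 1, .f 1080 1 3] 152 136 [1] [(152, 136, [1]), (153, 136,
  [3, 1]), (169, 136, [3, 1, 1])]))) .no (.hor [.f 1225 3 1, .f 1224 1 5] [(170, 154, [1])]) (.red
  [.t 1352 2 4, .f 1088 3 1, .f 1080 1 3] 152 136 [1] [(152, 136, [1]), (153, 136, [3, 1]), (169,
  136, [3, 1, 1])]) .no .no) .no .no .no .no (.red [.f 1210 5 1, .f 1211 1 3] 168 136 [1, 1]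
  [(168, 136, [1, 1])])) .no (.hor [.f 1224 3 5] []) .no .no .no) .no (.hor [.f 1225 3 5] []) .no
  (.red [.t 1090 1 3, .f 962 5 1, .f 955 1 3, .f 961 1 5, .f 1089 5 3, .f 1090 3 1] 136 136 []
  [(136, 136, [])]) .no) .no .no (.red [.f 1073 5 3, .f 1067 3 1, .t 1074 3 1, .f 1082 1 3] 152
  136 [1] [(150, 136, [4, 1, 4]), (151, 136, [4, 1]), (152, 136, [1])]) .no (.red [.f 1202 5 3, .f
  1073 5 3, .f 1074 3 1, .f 1082 1 3] 152 136 [1] [(151, 136, [4, 1]), (152, 136, [1])])) .no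
  (.hor [.f 1097 5 1, .f 1090 1 3, .f 1090 3 5, .t 1096 4 1, .f 1217 3 5] []) (.hor [.f 1216 5 3,
  .f 1088 3 1, .t 1217 3 2, .f 1090 3 5, .f 1096 1 5] [])

def c10t160 : Tr4 :=
  .br 1073 .no .no .no (.use 146) (.br 1219 (.br 1210 (.use 157) .no .no (.red [.f 1073 5 3, .f
  1074 3 1, .f 1082 1 3] 152 136 [1] [(151, 136, [4, 1]), (152, 136, [1])]) (.br 1075 (.red [.f
  1073 5 3, .t 1074 3 1, .f 1082 1 3] 152 136 [1] [(151, 136, [4, 1]), (152, 136, [1])]) .no .no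
  (.use 159) .no .no) .no) .no (.con 136 [3, 1, 1]) (.red [.f 1073 5 3, .f 946 3 1, .f 954 1 5, .t
  1218 2 4] 152 136 [1] [(135, 119, [1]), (152, 136, [1])]) .no .no) (.use 135)

def c10t161 : Tr4 :=
  .br 970 (.red [.t 1098 2 4, .f 955 1 3] 136 136 [] [(136, 136, []), (137, 136, [3])]) (.use 118)
  (.br 1098 (.use 119) .no (.red [.f 970 3 1, .t 1098 2 4, .f 955 1 3] 136 136 [] [(136, 136, []),
  (137, 136, [3]), (138, 136, [3, 3])]) .no .no (.br 826 .no (.br 969 .no (.br 945 (.use 158)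
  (.red [.f 817 1 3] 119 136 [2, 4] [(119, 136, [2, 4])]) .no (.br 947 (.red [.f 947 1 3, .f 946 3
  5, .f 954 5 3, .t 961 1 4] 136 136 [] [(135, 119, [1]), (136, 136, [])]) (.br 818 .no (.red [.f
  690 1 3, .f 818 3 1, .f 818 1 5] 119 136 [2, 4] [(103, 136, [2, 4, 2]), (119, 136, [2, 4])]) .no
  (.br 827 .no (.hor [.f 698 1 5] []) (.br 1074 (.red [.t 1201 3 2, .f 1080 1 5, .t 960 4 1] 136
  136 [] [(136, 136, []), (151, 152, [4])]) .no .no (.br 1073 .no .no .no (.hor [.f 1065 3 5] [])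
  .no (.use 122)) (.red [.t 954 4 1, .f 954 5 3, .f 827 3 1, .f 819 1 3] 119 136 [2, 4] [(119,
  136, [2, 4]), (120, 136, [2]), (135, 119, [1])]) (.br 1219 (.br 1210 (.use 157) .no .no (.use
  126) (.br 1075 (.red [.f 1073 5 3, .t 1074 3 1, .f 1082 1 3] 152 136 [1] [(151, 136, [4, 1]),
  (152, 136, [1])]) .no .no (.use 159) .no .no) .no) .no (.con 136 [3, 1, 1]) (.red [.f 1073 5 3,
  .f 946 3 1, .f 954 1 5, .t 1218 2 4] 152 136 [1] [(135, 119, [1]), (152, 136, [1])]) .no .no))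
  .no .no .no) .no (.red [.t 953 2 4, .f 818 1 5] 119 136 [2, 4] [(119, 136, [2, 4])])) .no (.use
  160) .no .no) .no (.br 824 .no (.br 947 (.red [.f 947 1 3, .f 946 3 5, .f 954 5 3, .t 961 1 4]
  136 136 [] [(135, 119, [1]), (136, 136, [])]) (.br 827 .no (.hor [.f 698 1 5] []) (.br 818 .no
  (.red [.f 690 1 3] 103 136 [2, 2, 4] [(103, 136, [2, 2, 4])]) .no (.use 123) .no (.red [.t 953 2
  4, .f 818 1 5] 119 136 [2, 4] [(119, 136, [2, 4])])) .no .no .no) .no (.use 155) .no .no) (.use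
  143) (.red [.t 824 4 1] 119 136 [2, 4] [(119, 136, [2, 4])]) .no .no)) (.hor [.f 969 3 5] [])
  .no .no (.red [.t 1088 3 2, .f 1088 5 1, .f 1080 1 3, .f 952 3 1, .f 960 1 3] 136 136 [] [(136,
  136, []), (152, 136, [1])])) (.use 154) (.red [.f 818 3 1, .f 825 1 5] 119 136 [2, 4] [(119,
  136, [2, 4])]) (.br 947 (.red [.f 947 1 3, .f 946 3 5, .f 954 5 3, .t 961 1 4] 136 136 [] [(135,
  119, [1]), (136, 136, [])]) (.red [.t 946 3 2, .f 825 1 5] 119 136 [2, 4] [(119, 136, [2, 4])])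
  .no (.br 945 (.use 158) (.red [.f 817 1 3] 119 136 [2, 4] [(119, 136, [2, 4])]) .no (.use 160)
  .no (.br 824 .no (.use 155) (.con 136 [2, 2]) (.red [.t 824 4 1] 119 136 [2, 4] [(119, 136, [2,
  4])]) .no .no)) .no .no) .no)) .no (.red [.f 962 5 3, .f 963 3 1, .f 955 1 3] 136 136 [] [(136,
  136, []), (137, 136, [3])]) (.use 112)

def c10t162 : Tr4 :=
  .br 826 .no (.hor [.f 698 1 5] []) .no (.red [.t 818 3 1, .f 825 1 5] 119 136 [4, 2] [(119, 136,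
  [4, 2])]) .no .no

def c10t163 : Tr4 :=
  .br 947 .no (.use 162) .no (.red [.f 939 3 1, .f 946 1 5, .t 1210 4 2] 151 136 [4, 1] [(134,
  135, [4]), (151, 136, [4, 1])]) .no .no

def c10t164 : Tr4 :=
  .br 1073 (.red [.t 1201 2 3, .f 1082 1 5] 151 136 [4, 1] [(151, 136, [4, 1])]) (.br 1075 (.red
  [.f 1075 1 3] 151 136 [4, 1] [(151, 136, [4, 1])]) (.con 136 [4, 4]) .no (.hor [.f 1066 3 5] [])
  .no .no) .no (.hor [.f 1065 3 5] []) .no (.use 6)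

def c10t165 : Tr4 :=
  .br 1210 (.use 106) .no .no (.br 1074 .no (.br 953 .no (.br 1075 (.red [.f 1075 1 3] 151 136 [4,
  1] [(151, 136, [4, 1])]) (.hor [.f 946 1 5] []) .no (.br 945 (.hor [.f 945 1 5] []) (.red [.f
  817 1 3] 119 136 [2, 4] [(119, 136, [2, 4])]) .no (.br 1073 (.red [.t 1201 2 3, .f 1082 1 5] 151
  136 [4, 1] [(151, 136, [4, 1])]) .no .no (.red [.f 937 3 1, .f 945 1 5, .f 1073 5 3, .f 1074 3
  1] 151 136 [4, 1] [(134, 135, [4]), (151, 136, [4, 1])]) .no (.use 163)) .no (.br 1073 (.red [.t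
  1201 2 3, .f 1082 1 5] 151 136 [4, 1] [(151, 136, [4, 1])]) .no .no (.use 147) .no (.use 163)))
  .no .no) .no (.red [.t 945 3 1, .f 953 1 3] 136 136 [] [(135, 136, [4]), (136, 136, [])]) .no
  .no) .no (.use 164) (.use 107) (.red [.f 1073 5 3, .f 1074 3 1, .f 1082 1 3] 152 136 [1] [(151,
  136, [4, 1]), (152, 136, [1])])) .no .no

def c10t166 : Tr4 :=
  .br 1330 (.red [.f 1330 1 3, .f 1330 3 5, .f 1210 5 1, .f 1211 1 3] 168 136 [1, 1] [(168, 136,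
  [1, 1]), (183, 182, [3])]) .no .no .no .no .no

def c10t167 : Tr4 :=
  .br 1339 (.use 132) .no .no (.use 166) .no .no

def c10t168 : Tr4 :=
  .br 1344 (.br 1336 (.use 131) .no .no (.br 1339 (.con 136 [1, 4, 1, 1]) .no .no (.hor [.f 1330 3
  5] []) .no .no) .no .no) .no (.use 130) (.red [.t 1336 3 2] 168 136 [1, 1] [(168, 136, [1, 1])])
  (.red [.f 1216 5 1, .f 1209 1 3] 168 136 [1, 1] [(168, 136, [1, 1])]) .no

def c10l5 : List Tr4 :=
  [c10t150, c10t151, c10t152, c10t153, c10t154, c10t155, c10t156, c10t157, c10t158, c10t159,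
  c10t160, c10t161, c10t162, c10t163, c10t164, c10t165, c10t166, c10t167, c10t168]

theorem c10k5 : chkLF ⟨4, 0, 0, true, -8⟩ true 0 c10N 150 c10l5 = true := by decide +kernel

def c10t169 : Tr4 :=
  .br 1203 (.use 133) .no .no (.red [.t 1202 2 4, .f 938 3 1] 150 136 [1, 4, 4] [(134, 136, [1, 4,
  2, 4]), (150, 136, [1, 4, 4])]) .no .no

def c10t170 : Tr4 :=
  .br 1064 (.red [.t 1064 1 3, .f 1073 1 5] 150 136 [4, 4, 1] [(150, 136, [4, 4, 1])]) (.con 136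
  [4, 4, 4, 1]) .no (.con 136 [4, 4, 4, 1]) .no .no

def c10t171 : Tr4 :=
  .br 1330 (.red [.f 1330 1 3, .f 1330 3 5, .f 1210 5 1, .f 1211 1 3] 168 136 [1, 1] [(168, 136,
  [1, 1]), (183, 182, [3])]) .no .no (.red [.f 1201 1 3, .f 1201 3 1, .t 1329 2 4] 166 136 [1, 4,
  1, 4] [(166, 136, [1, 4, 1, 4])]) .no .no

def c10t172 : Tr4 :=
  .br 1067 (.br 1194 (.use 166) .no .no (.red [.f 1058 3 1, .f 1066 1 5] 149 136 [4, 4, 1, 4]
  [(149, 136, [4, 4, 1, 4])]) .no (.use 171)) .no .no (.hor [.f 1058 3 5] []) .no .no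

def c10t173 : Tr4 :=
  .br 1203 .no .no .no (.red [.t 1202 2 4, .f 938 3 1] 134 136 [4, 4] [(134, 136, [4, 4]), (150,
  136, [4, 4, 1])]) .no .no

def c10t174 : Tr4 :=
  .br 1193 (.red [.f 1193 1 3] 166 136 [4, 4, 1, 1] [(166, 136, [4, 4, 1, 1])]) .no .no (.hor [.f
  1185 3 5] []) .no (.con 136 [4, 4, 1, 4])

def c10t175 : Tr4 :=
  .br 1194 (.use 166) .no .no (.use 174) .no (.use 171)

def c10t176 : Tr4 :=
  .br 944 .no (.br 936 (.hor [.f 936 1 5] []) (.red [.f 808 1 3, .t 936 3 1] 134 136 [4, 4] [(118,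
  136, [4, 4, 2]), (134, 136, [4, 4])]) .no (.br 1064 (.red [.t 1192 2 3, .f 1073 1 5] 150 136 [4,
  4, 1] [(150, 136, [4, 4, 1])]) .no .no (.red [.f 928 3 1, .f 936 1 5, .f 1064 5 3, .f 1065 3 1]
  150 136 [4, 4, 1] [(133, 134, [4]), (150, 136, [4, 4, 1])]) .no .no) .no .no) .no (.red [.t 936
  3 1] 134 136 [4, 4] [(134, 136, [4, 4])]) .no .no

def c10t177 : Tr4 :=
  .br 1201 (.br 944 .no (.br 1339 (.use 132) .no .no (.br 1066 (.red [.f 1066 1 3, .f 938 3 1] 134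
  136 [4, 4] [(134, 136, [4, 4]), (150, 136, [4, 4, 1])]) .no .no (.use 172) (.use 173) (.br 1067
  (.use 175) .no .no (.red [.f 931 3 1] 133 136 [4, 4, 4] [(133, 136, [4, 4, 4])]) .no .no)) .no
  .no) .no (.br 937 (.red [.t 936 3 1] 134 136 [4, 4] [(134, 136, [4, 4])]) (.br 1339 (.use 132)
  .no .no (.br 1066 (.red [.f 1066 1 3, .f 938 3 1] 134 136 [4, 4] [(134, 136, [4, 4]), (150, 136,
  [4, 4, 1])]) .no .no (.use 172) (.use 173) (.br 1067 (.use 175) .no .no (.red [.f 931 3 1] 133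
  136 [4, 4, 4] [(133, 136, [4, 4, 4])]) .no .no)) .no .no) .no (.br 1065 (.br 1066 (.red [.f 1066
  1 3, .f 938 3 1] 134 136 [4, 4] [(134, 136, [4, 4]), (150, 136, [4, 4, 1])]) .no .no (.br 1067
  (.con 136 [4, 4, 4, 1]) .no .no (.hor [.f 1058 3 5] []) .no .no) (.br 1203 (.con 136 [4, 1, 1,
  4]) .no .no (.red [.t 1202 2 4, .f 938 3 1] 134 136 [4, 4] [(134, 136, [4, 4]), (150, 136, [4,
  4, 1])]) .no .no) .no) .no .no (.red [.f 929 3 1, .t 936 3 1] 134 136 [4, 4] [(133, 136, [4, 4,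
  4]), (134, 136, [4, 4])]) (.br 1067 (.br 1194 (.use 167) .no .no (.use 174) .no (.red [.f 1065 5
  1, .f 1066 1 3, .f 938 3 1] 134 136 [4, 4] [(134, 136, [4, 4]), (150, 136, [4, 4, 1])])) .no .no
  (.red [.f 931 3 1] 133 136 [4, 4, 4] [(133, 136, [4, 4, 4])]) .no .no) (.red [.f 1064 5 3, .f
  936 3 1] 134 136 [4, 4] [(134, 136, [4, 4])])) .no .no) .no .no) .no .no (.br 1066 (.red [.f
  1066 1 3, .f 938 3 1] 134 136 [4, 4] [(134, 136, [4, 4]), (150, 136, [4, 4, 1])]) .no .no (.br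
  1065 .no (.use 176) .no (.hor [.f 1057 3 5] []) .no (.red [.f 1064 5 3, .f 1065 3 1] 150 136 [4,
  4, 1] [(150, 136, [4, 4, 1])])) (.br 1065 .no (.use 176) .no (.br 1064 (.red [.t 1192 2 3, .f
  1073 1 5] 150 136 [4, 4, 1] [(150, 136, [4, 4, 1])]) (.con 136 [4, 4, 4]) .no (.hor [.f 1056 3
  5] []) .no .no) .no (.red [.f 1064 5 3, .f 1065 3 1] 150 136 [4, 4, 1] [(150, 136, [4, 4, 1])]))
  (.red [.t 1201 4 2, .f 938 3 1] 134 136 [4, 4] [(134, 136, [4, 4]), (150, 136, [4, 4, 1])])) .no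
  (.br 944 .no (.br 1339 (.use 132) .no .no (.br 1067 (.con 136 [4, 4, 1, 1, 3, 3]) .no .no (.br
  1066 (.red [.f 1066 1 3, .f 938 3 1] 134 136 [4, 4] [(134, 136, [4, 4]), (150, 136, [4, 4, 1])])
  .no .no (.hor [.f 1058 3 5] []) .no (.red [.f 931 3 1] 133 136 [4, 4, 4] [(133, 136, [4, 4,
  4])])) .no (.use 173)) .no .no) .no (.br 1064 (.red [.f 1072 5 1, .f 1064 1 3, .f 936 3 1] 134
  136 [4, 4] [(134, 136, [4, 4]), (150, 136, [4, 4, 1])]) .no .no (.br 1065 (.br 1066 (.red [.f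
  1066 1 3, .f 938 3 1] 134 136 [4, 4] [(134, 136, [4, 4]), (150, 136, [4, 4, 1])]) .no .no (.con
  136 [4, 4, 4, 1]) (.con 136 [4, 4, 4, 1]) .no) (.red [.t 936 3 1] 134 136 [4, 4] [(134, 136, [4,
  4])]) .no (.hor [.f 1056 3 5] []) (.br 1067 (.con 136 [4, 4, 4, 1]) .no .no (.red [.f 931 3 1]
  133 136 [4, 4, 4] [(133, 136, [4, 4, 4])]) .no .no) .no) (.red [.f 1064 5 3, .f 936 3 1] 134 136
  [4, 4] [(134, 136, [4, 4])]) .no) .no .no)

def c10t178 : Tr4 :=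
  .br 1346 (.red [.f 1338 1 3, .t 1346 4 2] 168 136 [1, 1] [(168, 136, [1, 1]), (184, 136, [1, 1,
  1])]) .no (.con 136 [1, 1, 1, 3]) .no .no (.con 136 [1, 1, 3, 1])

def c10t179 : Tr4 :=
  .br 1219 (.br 1338 (.br 1344 (.br 1336 (.red [.f 1336 1 3, .t 1336 3 2] 168 136 [1, 1] [(168,
  136, [1, 1]), (184, 136, [1, 1, 1])]) .no .no (.use 177) .no .no) .no (.use 178) (.red [.t 1336
  3 2] 168 136 [1, 1] [(168, 136, [1, 1])]) (.red [.f 1216 5 1, .f 1209 1 3] 168 136 [1, 1] [(168,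
  136, [1, 1])]) .no) .no (.red [.t 1346 4 2, .f 1209 1 5] 168 136 [1, 1] [(168, 136, [1, 1])])
  (.use 168) (.red [.f 1210 5 1, .f 1211 1 3] 168 136 [1, 1] [(168, 136, [1, 1])]) .no) .no (.con
  136 [1, 3, 1]) .no .no .no

def c10t180 : Tr4 :=
  .br 826 .no (.hor [.f 698 1 5] []) .no .no .no (.red [.f 699 1 3, .t 834 1 4, .t 961 1 4] 136
  136 [] [(104, 136, [2, 2]), (120, 136, [2]), (136, 136, [])])

def c10t181 : Tr4 :=
  .br 1067 .no .no .no (.hor [.f 1058 3 5] []) .no .no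

def c10t182 : Tr4 :=
  .br 1194 .no .no .no (.red [.t 1194 4 2] 149 136 [4, 4, 4, 1] [(149, 136, [4, 4, 4, 1])]) .no
  .no

def c10t183 : Tr4 :=
  .br 809 .no (.hor [.f 681 1 5] []) (.red [.t 945 3 2, .t 825 1 4, .t 1072 2 4, .f 937 1 5, .t
  817 4 1] 118 136 [4, 2, 4] [(118, 136, [4, 2, 4]), (134, 118, [1])]) (.con 136 [4, 2, 4, 2, 4])
  .no (.con 136 [4, 2, 4, 2, 4])

def c10t184 : Tr4 :=
  .br 811 .no (.red [.f 691 1 3, .f 691 3 1, .f 683 1 3, .f 811 3 1, .f 818 1 5] 118 136 [4, 2, 4]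
  [(102, 136, [4, 2, 4, 2]), (118, 136, [4, 2, 4])]) .no (.br 1339 (.use 132) .no .no (.br 1330
  (.red [.f 1330 1 3, .f 1330 3 5, .f 1210 5 1, .f 1211 1 3] 168 136 [1, 1] [(168, 136, [1, 1]),
  (183, 182, [3])]) .no .no (.br 1193 (.red [.f 1193 1 3] 166 136 [4, 1, 1, 4] [(166, 136, [4, 1,
  1, 4])]) .no .no (.br 810 .no (.use 183) .no (.hor [.f 802 3 5] []) .no (.red [.t 1072 2 4, .f
  937 1 5, .f 809 5 1, .f 810 1 3] 118 136 [4, 2, 4] [(118, 136, [4, 2, 4]), (134, 118, [1])]))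
  (.use 171) (.br 1064 .no .no .no (.br 1067 (.con 136 [4, 4, 4, 1]) .no .no (.br 810 .no (.use
  183) .no (.hor [.f 802 3 5] []) .no (.red [.t 1072 2 4, .f 937 1 5, .f 809 5 1, .f 810 1 3] 118
  136 [4, 2, 4] [(118, 136, [4, 2, 4]), (134, 118, [1])])) .no .no) .no .no)) .no .no) .no .no)
  .no (.red [.f 691 1 3, .f 691 3 1, .t 946 2 4] 118 136 [4, 2, 4] [(118, 136, [4, 2, 4])])

def c10t185 : Tr4 :=
  .br 826 .no (.hor [.f 698 1 5] []) .no .no .no (.br 1219 (.br 1338 (.br 819 .no (.br 1344 (.br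
  1336 (.red [.f 1336 1 3, .t 1336 3 2] 168 136 [1, 1] [(168, 136, [1, 1]), (184, 136, [1, 1,
  1])]) .no .no (.br 1066 (.red [.f 1066 1 3, .f 1065 3 5] 150 136 [4, 4, 1] [(150, 136, [4, 4,
  1])]) (.br 936 (.con 136 [4, 4, 4]) (.br 811 .no (.red [.f 691 1 3, .f 691 3 1, .f 683 1 3, .f
  811 3 1, .f 818 1 5] 118 136 [4, 2, 4] [(102, 136, [4, 2, 4, 2]), (118, 136, [4, 2, 4])]) .no
  (.br 937 .no (.hor [.f 808 1 5] []) .no (.br 1339 (.use 132) .no .no (.br 1330 (.red [.f 1330 1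
  3, .f 1330 3 5, .f 1210 5 1, .f 1211 1 3] 168 136 [1, 1] [(168, 136, [1, 1]), (183, 182, [3])])
  .no .no (.br 1193 (.red [.f 1193 1 3] 166 136 [4, 1, 1, 4] [(166, 136, [4, 1, 1, 4])]) .no .no
  (.br 1200 .no .no .no (.br 1194 .no .no .no (.hor [.f 1185 3 5] []) (.con 136 [4, 4, 1, 1]) .no)
  .no .no) (.use 171) (.br 1067 (.con 136 [4, 4, 1, 4]) .no .no (.br 931 .no .no .no (.br 930
  (.red [.f 930 1 3, .f 929 3 5] 133 136 [4, 4, 4] [(133, 136, [4, 4, 4])]) (.br 1064 .no .no .no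
  (.br 1057 (.red [.t 1056 3 1] 149 136 [4, 4, 4, 1] [(149, 136, [4, 4, 4, 1])]) .no .no (.br 1058
  (.con 136 [4, 4, 4, 4, 1]) .no .no (.hor [.f 1049 3 5] []) .no .no) (.red [.t 937 4 1] 133 136
  [4, 4, 4] [(133, 136, [4, 4, 4])]) .no) .no .no) .no (.hor [.f 922 3 5] []) .no .no) .no (.red
  [.t 1066 2 4, .f 929 3 5] 133 136 [4, 4, 4] [(133, 136, [4, 4, 4])])) .no .no)) .no .no) .no
  .no) .no .no) .no (.red [.f 691 1 3, .f 691 3 1, .t 946 2 4] 118 136 [4, 2, 4] [(118, 136, [4,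
  2, 4])])) .no (.br 937 .no (.con 136 [4, 2, 4, 4]) .no (.hor [.f 928 3 5] []) .no .no) (.use
  184) .no) .no (.br 1194 (.use 167) .no .no (.red [.f 1058 3 1, .f 1066 1 3] 150 136 [4, 4, 1]
  [(149, 136, [4, 4, 4, 1]), (150, 136, [4, 4, 1])]) (.use 181) (.red [.t 1073 4 1] 150 136 [4, 4,
  1] [(150, 136, [4, 4, 1])])) (.br 1203 (.con 136 [4, 1, 1, 4]) .no .no (.red [.t 1074 1 3, .t
  1210 4 2, .t 1202 2 4, .f 1065 3 5] 150 136 [4, 4, 1] [(150, 136, [4, 4, 1])]) .no .no) .no) .no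
  .no) .no (.use 178) (.red [.t 1336 3 2] 168 136 [1, 1] [(168, 136, [1, 1])]) (.red [.f 1216 5 1,
  .f 1209 1 3] 168 136 [1, 1] [(168, 136, [1, 1])]) .no) .no (.red [.f 811 3 1, .f 818 1 5] 118
  136 [4, 2, 4] [(118, 136, [4, 2, 4])]) .no .no) .no (.red [.t 1346 4 2, .f 1209 1 5] 168 136 [1,
  1] [(168, 136, [1, 1])]) (.use 168) (.red [.f 1210 5 1, .f 1211 1 3] 168 136 [1, 1] [(168, 136,
  [1, 1])]) .no) .no (.con 136 [1, 3, 1]) .no .no .no)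

def c10t186 : Tr4 :=
  .br 1203 (.use 133) .no .no (.red [.t 1074 1 3, .t 1210 4 2, .t 1202 2 4, .f 1065 3 5] 150 136
  [1, 4, 4] [(150, 136, [1, 4, 4])]) .no .no

def c10t187 : Tr4 :=
  .br 937 (.red [.t 936 3 1] 134 136 [4, 4] [(134, 136, [4, 4])]) .no .no (.br 938 (.con 136 [4,
  4, 4]) .no .no (.hor [.f 929 3 5] []) .no .no) (.red [.f 809 5 1, .f 810 1 3] 118 136 [4, 2, 4]
  [(118, 136, [4, 2, 4])]) .no

def c10t188 : Tr4 :=
  .br 810 .no (.br 937 .no (.con 136 [4, 2, 4, 4]) .no (.hor [.f 929 3 5] []) .no .no) .no (.red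
  [.f 802 3 1, .f 810 1 3] 118 136 [4, 2, 4] [(117, 136, [4, 2, 4, 4]), (118, 136, [4, 2, 4])])
  (.red [.f 691 1 3, .f 691 3 1, .t 946 2 4] 118 136 [4, 2, 4] [(118, 136, [4, 2, 4])]) (.use 187)

def c10t189 : Tr4 :=
  .br 817 .no (.hor [.f 688 1 5] []) .no (.red [.t 817 4 1] 118 136 [2, 4, 4] [(118, 136, [2, 4,
  4])]) .no .no

def c10t190 : Tr4 :=
  .br 938 .no (.red [.f 691 1 3, .f 691 3 1, .f 810 1 3] 118 136 [4, 2, 4] [(118, 136, [4, 2,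
  4])]) .no (.br 937 .no (.con 136 [4, 2, 4, 4]) .no (.hor [.f 929 3 5] []) .no .no) .no (.red [.f
  937 5 1, .t 936 3 1] 134 136 [4, 4] [(134, 136, [4, 4])])

def c10t191 : Tr4 :=
  .br 1073 (.hor [.f 1073 1 5] []) .no .no (.br 1072 (.con 136 [4, 4, 1]) (.br 1201 (.use 185) .no
  .no (.red [.f 1065 3 1, .f 1073 1 5] 150 136 [4, 4, 1] [(150, 136, [4, 4, 1])]) .no (.br 1219
  (.br 1066 (.red [.f 1066 1 3, .f 1065 3 5] 150 136 [4, 4, 1] [(150, 136, [4, 4, 1])]) (.br 1064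
  (.red [.t 1064 1 3, .f 1073 1 5] 150 136 [4, 4, 1] [(150, 136, [4, 4, 1])]) (.con 136 [4, 4, 4])
  .no (.br 1192 (.br 1193 (.hor [.f 1192 1 5] []) .no .no (.br 1194 (.con 136 [4, 4, 4, 1, 1]) .no
  .no (.hor [.f 1185 3 5] []) (.con 136 [4, 4, 4, 1, 1]) .no) (.red [.t 1073 4 1] 150 136 [4, 4,
  1] [(150, 136, [4, 4, 1])]) .no) .no .no (.red [.f 1056 3 1, .t 1064 1 3, .f 1073 1 5] 150 136
  [4, 4, 1] [(149, 136, [4, 4, 4, 1]), (150, 136, [4, 4, 1])]) (.red [.f 1192 5 3, .f 1065 3 1]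
  150 136 [4, 4, 1] [(150, 136, [4, 4, 1])]) .no) .no .no) .no (.br 1067 (.use 170) .no .no (.hor
  [.f 1058 3 5] []) .no .no) (.use 186) .no) .no (.con 136 [1, 3, 1]) .no .no .no)) .no (.hor [.f
  1064 3 5] []) .no .no) .no (.br 944 .no (.con 136 [2, 4, 4]) .no (.br 1219 (.br 1338 (.br 1344
  (.br 819 .no (.br 1336 (.red [.f 1336 1 3, .t 1336 3 2] 168 136 [1, 1] [(168, 136, [1, 1]),
  (184, 136, [1, 1, 1])]) .no .no (.br 1201 (.br 1065 (.br 938 (.con 136 [4, 4, 4]) (.red [.f 691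
  1 3, .f 691 3 1, .f 810 1 3] 118 136 [2, 4, 4] [(118, 136, [2, 4, 4])]) .no (.use 188) .no (.br
  1200 .no .no .no (.br 1066 (.hor [.f 1065 1 5] []) .no .no (.con 136 [4, 4, 1, 4]) (.con 136 [4,
  4, 1, 4]) .no) .no .no)) (.red [.t 936 3 1] 134 136 [4, 4] [(134, 136, [4, 4])]) .no (.br 1066
  (.red [.f 1066 1 3] 150 136 [4, 4, 1] [(150, 136, [4, 4, 1])]) (.con 136 [4, 4, 4]) .no (.hor
  [.f 1057 3 5] []) (.br 1203 (.con 136 [4, 1, 1, 4]) .no .no (.red [.t 1202 2 4] 150 136 [4, 4,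
  1] [(150, 136, [4, 4, 1])]) .no .no) .no) (.use 190) (.red [.f 1064 5 3, .f 936 3 1] 134 136 [4,
  4] [(134, 136, [4, 4])])) .no .no (.br 1065 .no (.red [.t 936 3 1] 134 136 [4, 4] [(134, 136,
  [4, 4])]) .no (.use 26) (.use 190) (.red [.f 1064 5 3, .f 936 3 1] 134 136 [4, 4] [(134, 136,
  [4, 4])])) .no (.br 1065 (.br 938 (.con 136 [4, 4, 4]) (.red [.f 691 1 3, .f 691 3 1, .f 810 1
  3] 118 136 [2, 4, 4] [(118, 136, [2, 4, 4])]) .no (.use 188) .no (.br 1064 (.red [.f 1072 5 1,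
  .f 1064 1 3, .f 936 3 1] 134 136 [4, 4] [(134, 136, [4, 4]), (150, 136, [4, 4, 1])]) .no .no
  (.br 1066 (.hor [.f 1065 1 5] []) .no .no (.con 136 [4, 4, 4, 1]) (.con 136 [4, 4, 4, 1]) .no)
  .no .no)) (.red [.t 936 3 1] 134 136 [4, 4] [(134, 136, [4, 4])]) .no (.br 1064 (.red [.f 1072 5
  1, .f 1064 1 3, .f 936 3 1] 134 136 [4, 4] [(134, 136, [4, 4]), (150, 136, [4, 4, 1])]) .no .no
  (.hor [.f 1056 3 5] []) .no .no) (.use 190) (.red [.f 1064 5 3, .f 936 3 1] 134 136 [4, 4]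
  [(134, 136, [4, 4])]))) .no .no) .no (.red [.f 811 3 1, .f 818 1 5] 118 136 [2, 4, 4] [(118,
  136, [2, 4, 4])]) .no .no) .no (.use 178) (.red [.t 1336 3 2] 168 136 [1, 1] [(168, 136, [1,
  1])]) (.red [.f 1216 5 1, .f 1209 1 3] 168 136 [1, 1] [(168, 136, [1, 1])]) .no) .no (.red [.t
  1346 4 2, .f 1209 1 5] 168 136 [1, 1] [(168, 136, [1, 1])]) (.use 168) (.red [.f 1210 5 1, .f
  1211 1 3] 168 136 [1, 1] [(168, 136, [1, 1])]) .no) .no (.con 136 [1, 3, 1]) .no .no .no) .no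
  .no)

def c10t192 : Tr4 :=
  .br 944 .no (.con 136 [4, 2, 4]) .no (.br 1065 .no (.red [.t 936 3 1, .f 1065 3 5] 134 136 [4,
  4] [(134, 136, [4, 4])]) .no (.br 1064 (.red [.t 1192 2 3, .f 936 3 1] 134 136 [4, 4] [(134,
  136, [4, 4]), (150, 136, [4, 4, 1])]) .no .no (.hor [.f 1056 3 5] []) .no .no) .no (.red [.f
  1064 5 3, .f 936 3 1] 134 136 [4, 4] [(134, 136, [4, 4])])) .no .no

def c10t193 : Tr4 :=
  .br 944 .no (.con 136 [4, 2, 4]) .no (.use 48) .no .no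

def c10t194 : Tr4 :=
  .br 817 .no (.con 136 [4, 2, 2, 4]) .no (.hor [.f 808 3 5] []) .no .no

def c10t195 : Tr4 :=
  .br 810 .no (.br 809 .no (.hor [.f 681 1 5] []) .no (.con 136 [4, 2, 4, 2, 4]) .no (.con 136 [4,
  2, 4, 2, 4])) .no (.hor [.f 802 3 5] []) .no (.use 187)

def c10t196 : Tr4 :=
  .br 816 .no (.use 189) .no (.use 194) (.br 811 .no (.red [.f 683 1 3] 102 136 [2, 2, 4, 4]
  [(102, 136, [2, 2, 4, 4])]) .no (.use 195) .no (.red [.f 691 1 3, .f 691 3 1, .t 946 2 4] 118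
  136 [2, 4, 4] [(118, 136, [2, 4, 4])])) .no

def c10t197 : Tr4 :=
  .br 808 .no (.con 136 [4, 2, 4, 2, 4]) .no (.hor [.f 800 3 5] []) .no .no

def c10l6 : List Tr4 :=
  [c10t169, c10t170, c10t171, c10t172, c10t173, c10t174, c10t175, c10t176, c10t177, c10t178,
  c10t179, c10t180, c10t181, c10t182, c10t183, c10t184, c10t185, c10t186, c10t187, c10t188,
  c10t189, c10t190, c10t191, c10t192, c10t193, c10t194, c10t195, c10t196, c10t197]

theorem c10k6 : chkLF ⟨4, 0, 0, true, -8⟩ true 0 c10N 169 c10l6 = true := by decide +kernel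

end Pool.Agent.FT4D
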