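import Pool.Agent.FT4D.Tab_c10

/-!
# Four levels: decision trees (found by a computer search)
-/

namespace Pool.Agent.FT4D

def c10t198 : Tr4 :=
  .br 817 .no (.br 809 .no (.red [.f 681 1 3] 102 136 [2, 2, 4, 4] [(102, 136, [2, 2, 4, 4])]) .no
  (.br 811 .no (.red [.f 683 1 3] 102 136 [2, 2, 4, 4] [(102, 136, [2, 2, 4, 4])]) .no (.use 197)
  .no (.red [.f 691 1 3, .f 691 3 1, .t 946 2 4] 118 136 [2, 4, 4] [(118, 136, [2, 4, 4])])) (.use
  187) (.br 811 .no (.red [.f 683 1 3] 102 136 [2, 2, 4, 4] [(102, 136, [2, 2, 4, 4])]) .no (.br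
  810 .no (.con 136 [2, 2, 4, 4, 4]) .no (.hor [.f 802 3 5] []) .no .no) .no (.red [.f 691 1 3, .f
  691 3 1, .t 946 2 4] 118 136 [2, 4, 4] [(118, 136, [2, 4, 4])]))) .no (.red [.t 817 4 1] 118 136
  [2, 4, 4] [(118, 136, [2, 4, 4])]) .no .no

def c10t199 : Tr4 :=
  .br 1202 (.use 127) .no .no (.red [.f 1066 3 1, .f 1073 1 5, .f 1073 5 3, .f 945 3 1] 135 136
  [4] [(135, 136, [4]), (150, 134, [1])]) (.red [.f 1202 5 3, .t 1201 2 3, .f 945 3 1] 135 136 [4]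
  [(135, 136, [4]), (151, 136, [4, 1])]) .no

def c10t200 : Tr4 :=
  .br 944 .no (.con 136 [2, 4, 4]) .no (.br 826 .no (.hor [.f 698 1 5] []) .no .no .no (.br 819
  .no (.br 824 .no (.use 196) (.con 136 [2, 2]) (.use 198) .no .no) .no (.red [.f 811 3 1, .f 818
  1 5] 118 136 [2, 4, 4] [(118, 136, [2, 4, 4])]) .no .no)) .no .no

def c10t201 : Tr4 :=
  .br 826 .no (.hor [.f 698 1 5] []) .no (.red [.t 825 1 4] 119 136 [4, 2] [(119, 136, [4, 2])])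
  .no .no

def c10t202 : Tr4 :=
  .br 947 .no (.br 826 .no (.hor [.f 698 1 5] []) .no (.red [.t 818 3 1, .f 947 3 1] 135 136 [4]
  [(119, 136, [2, 4]), (135, 136, [4])]) .no (.br 946 (.red [.t 1074 2 3, .f 955 1 3] 136 136 []
  [(135, 136, [4]), (136, 136, [])]) (.hor [.f 818 1 5] []) .no (.br 945 (.con 136 [4, 2, 3])
  (.con 136 [4, 2, 3]) (.br 1074 (.br 1210 (.hor [.f 1209 1 5] []) .no .no .no (.br 1073 (.hor [.f
  1073 1 5] []) .no .no (.br 1072 (.con 136 [4, 4, 1]) (.br 939 (.red [.t 1074 1 3, .t 938 3 1, .t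
  945 3 1] 135 136 [4] [(134, 136, [4, 4]), (135, 136, [4]), (151, 135, [1])]) (.hor [.f 811 1 3,
  .f 938 3 5] [(118, 120, [4, 4])]) .no (.br 1219 (.br 1201 (.br 1066 (.red [.f 1066 1 3, .f 938 3
  1] 150 136 [4, 4, 1] [(134, 136, [4, 4]), (150, 136, [4, 4, 1])]) .no .no (.br 1067 (.br 1338
  (.br 1194 (.use 167) .no .no (.red [.f 1058 3 1, .f 1066 1 5] 149 136 [4, 4, 4, 1] [(149, 136,
  [4, 4, 4, 1])]) .no (.red [.t 1073 4 1] 150 136 [4, 4, 1] [(150, 136, [4, 4, 1])])) .no (.red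
  [.t 1346 4 2, .f 1209 1 5] 168 136 [1, 1] [(168, 136, [1, 1])]) (.use 168) (.red [.f 1210 5 1,
  .f 1211 1 3] 168 136 [1, 1] [(168, 136, [1, 1])]) .no) .no .no (.hor [.f 1058 3 5] []) .no .no)
  (.use 169) .no) .no .no (.red [.f 1065 3 1, .f 1073 1 5] 150 136 [4, 4, 1] [(150, 136, [4, 4,
  1])]) .no (.br 1066 (.red [.f 1066 1 3, .f 938 3 1] 150 136 [4, 4, 1] [(134, 136, [4, 4]), (150,
  136, [4, 4, 1])]) .no .no (.br 1067 (.use 170) .no .no (.hor [.f 1058 3 5] []) .no .no) (.use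
  169) .no)) .no (.con 136 [3, 1, 1]) .no .no .no) .no .no) .no (.hor [.f 1064 3 5] []) .no .no)
  .no (.br 939 (.red [.t 1074 1 3, .t 938 3 1, .t 945 3 1] 135 136 [4] [(134, 136, [4, 4]), (135,
  136, [4]), (151, 135, [1])]) (.red [.f 811 1 3, .f 938 3 5, .f 946 5 3, .f 947 3 1] 135 136 [4]
  [(118, 134, [2]), (135, 136, [4])]) .no (.use 179) .no .no)) .no) .no .no (.red [.f 938 3 1, .t
  945 3 1] 135 136 [4] [(134, 136, [4, 4]), (135, 136, [4])]) .no (.red [.f 1073 5 3, .f 945 3 1,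
  .f 953 1 3] 136 136 [] [(135, 136, [4]), (136, 136, [])])) (.con 136 [4, 2, 3]) .no (.con 136
  [4, 2, 3])) .no (.con 136 [4, 2, 3]))) .no (.br 946 (.red [.t 1074 2 3, .f 955 1 3] 136 136 []
  [(135, 136, [4]), (136, 136, [])]) (.br 945 (.con 136 [4, 2, 4]) (.hor [.f 817 1 5] []) (.br
  1074 (.br 1210 (.hor [.f 1209 1 5] []) .no .no .no (.use 191) .no) .no .no (.br 1210 (.hor [.f
  1209 1 5] []) .no .no (.br 1073 (.red [.t 1201 2 3, .f 1082 1 3] 152 136 [1] [(151, 136, [4,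
  1]), (152, 136, [1])]) .no .no (.hor [.f 1065 3 5] []) .no (.br 1201 (.red [.f 1201 1 3, .f 1201
  3 5, .f 1081 5 1, .f 1082 1 3] 152 136 [1] [(152, 136, [1]), (167, 168, [4])]) .no .no (.use
  192) .no (.red [.f 1072 5 1, .t 1201 2 3, .f 1082 1 3] 152 136 [1] [(151, 136, [4, 1]), (152,
  136, [1])]))) (.br 1219 (.br 938 .no (.red [.f 810 1 3] 118 136 [2, 4, 4] [(118, 136, [2, 4,
  4])]) .no (.br 1073 (.use 199) .no .no (.hor [.f 1065 3 5] []) .no (.use 193)) .no (.br 1073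
  (.use 199) .no .no (.hor [.f 1065 3 5] []) .no (.use 200))) .no (.con 136 [3, 1, 1]) .no .no
  .no) .no) .no (.red [.f 1073 5 3, .f 945 3 1, .f 953 1 3] 136 136 [] [(135, 136, [4]), (136,
  136, [])])) (.con 136 [4, 2, 4]) .no (.con 136 [4, 2, 4])) .no (.hor [.f 938 3 5] []) .no (.br
  825 (.use 201) (.con 136 [4, 2, 3]) (.con 136 [4, 2, 3]) (.con 136 [4, 2, 3]) (.con 136 [4, 2,
  3]) (.con 136 [4, 2, 3]))) .no (.red [.f 946 5 3, .f 947 3 1, .f 955 1 3] 136 136 [] [(135, 136,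
  [4]), (136, 136, [])])

def c10t203 : Tr4 :=
  .br 1210 (.con 136 [1, 1, 4]) .no .no (.hor [.f 1201 3 5] []) .no .no

def c10t204 : Tr4 :=
  .br 1072 (.con 136 [4, 4]) (.hor [.f 944 1 5] []) .no (.con 136 [4, 4]) .no .no

def c10t205 : Tr4 :=
  .br 1073 .no (.use 204) .no (.hor [.f 1065 3 5] []) .no (.red [.t 1208 2 4, .f 1208 5 3, .t 1217
  4 2] 152 136 [1] [(151, 135, [1]), (152, 136, [1])])

def c10t206 : Tr4 :=
  .br 1074 .no (.br 1075 (.red [.f 1075 1 3] 151 136 [4, 1] [(151, 136, [4, 1])]) (.hor [.f 946 1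
  5] []) .no (.br 953 .no (.br 945 (.hor [.f 945 1 5] []) (.red [.f 817 1 3] 119 136 [2, 4] [(119,
  136, [2, 4])]) .no (.br 1073 (.red [.t 1201 2 3, .f 1082 1 5] 151 136 [4, 1] [(151, 136, [4,
  1])]) .no .no (.red [.f 937 3 1, .f 945 1 5, .f 1073 5 3, .f 1074 3 1] 151 136 [4, 1] [(134,
  135, [4]), (151, 136, [4, 1])]) .no (.br 944 .no (.con 136 [2, 4, 4]) .no (.hor [.f 936 3 5] [])
  .no .no)) .no (.br 1073 (.red [.t 1201 2 3, .f 1082 1 5] 151 136 [4, 1] [(151, 136, [4, 1])])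
  .no .no (.use 147) .no (.br 939 .no (.con 136 [2, 4, 4, 1, 3]) (.red [.f 939 3 1, .f 946 1 5, .t
  1210 4 2] 151 136 [4, 1] [(134, 118, [1]), (151, 136, [4, 1])]) (.con 136 [2, 4, 4, 1, 3]) .no
  (.con 136 [2, 4, 4, 1, 3])))) .no (.red [.t 945 3 1, .f 953 1 3] 136 136 [] [(135, 136, [4]),
  (136, 136, [])]) .no .no) .no .no) .no (.use 164) (.use 107) (.red [.f 1073 5 3, .f 1074 3 1, .f
  1082 1 3] 152 136 [1] [(151, 136, [4, 1]), (152, 136, [1])])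

def c10t207 : Tr4 :=
  .br 1201 (.red [.f 1201 1 3, .f 1201 3 5, .f 1081 5 1, .f 1082 1 3] 152 136 [1] [(152, 136,
  [1]), (167, 168, [4])]) .no .no (.br 946 .no (.br 945 .no (.hor [.f 817 1 5] []) (.use 192)
  (.con 136 [4, 2, 4]) .no (.con 136 [4, 2, 4])) .no (.hor [.f 938 3 5] []) .no (.br 825 (.br 1065
  .no (.red [.t 1065 2 3, .t 1074 2 3] 135 136 [4] [(134, 136, [4, 4]), (135, 136, [4])]) .no (.br
  826 .no (.br 818 .no (.red [.f 690 1 3] 103 136 [2, 2, 4] [(103, 136, [2, 2, 4])]) .no (.br 937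
  .no (.con 136 [2, 4, 4, 2]) .no (.red [.f 929 3 1] 133 136 [4, 4, 4] [(133, 136, [4, 4, 4])])
  (.red [.f 937 5 3, .f 938 3 1] 134 136 [4, 4] [(134, 136, [4, 4])]) (.con 136 [4, 4, 2])) .no
  (.red [.f 817 5 1, .f 817 1 3] 119 136 [2, 4] [(119, 136, [2, 4])])) .no (.hor [.f 818 3 5] [])
  .no .no) .no (.red [.f 1064 5 3, .f 1065 3 1, .t 1201 2 3, .f 1082 1 3] 152 136 [1] [(150, 136,
  [4, 4, 1]), (151, 136, [4, 1]), (152, 136, [1])])) (.con 136 [4, 2, 3]) (.con 136 [4, 2, 3])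
  (.con 136 [4, 2, 3]) (.con 136 [4, 2, 3]) (.con 136 [4, 2, 3]))) .no (.red [.f 1072 5 1, .t 1201
  2 3, .f 1082 1 3] 152 136 [1] [(151, 136, [4, 1]), (152, 136, [1])])

def c10t208 : Tr4 :=
  .br 945 (.con 136 [4, 2, 4]) (.hor [.f 817 1 5] []) .no (.con 136 [4, 2, 4]) .no (.con 136 [4,
  2, 4])

def c10t209 : Tr4 :=
  .br 826 .no (.red [.f 690 1 3] 103 136 [2, 2, 4] [(103, 136, [2, 2, 4])]) .no .no .no .no

def c10t210 : Tr4 :=
  .br 1067 (.con 136 [1, 4, 4, 4]) .no .no (.hor [.f 1058 3 5] []) .no .no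

def c10t211 : Tr4 :=
  .br 938 (.con 136 [4, 4, 4]) .no .no (.hor [.f 929 3 5] []) .no .no

def c10t212 : Tr4 :=
  .br 1338 (.br 1073 (.hor [.f 1073 1 5] []) .no .no (.br 1072 (.con 136 [4, 4, 1]) (.br 1066
  (.red [.f 1066 1 3, .f 1065 3 5] 150 136 [4, 4, 1] [(150, 136, [4, 4, 1])]) (.red [.t 1065 3 2,
  .f 938 3 5, .f 946 5 3, .f 947 3 1] 135 136 [4] [(134, 118, [1]), (135, 136, [4])]) .no (.br
  1201 (.br 1194 (.use 167) .no .no (.red [.f 1058 3 1, .f 1066 1 3] 150 136 [4, 4, 1] [(149, 136,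
  [4, 4, 4, 1]), (150, 136, [4, 4, 1])]) (.use 181) (.red [.t 1073 4 1] 150 136 [4, 4, 1] [(150,
  136, [4, 4, 1])])) .no .no (.red [.f 1065 3 1, .f 1073 1 5] 150 136 [4, 4, 1] [(150, 136, [4, 4,
  1])]) .no (.br 938 .no .no .no (.br 937 .no (.con 136 [2, 4, 4, 2]) .no (.hor [.f 929 3 5] [])
  .no (.br 1064 (.red [.t 1072 2 4, .t 936 3 1, .t 1064 1 3] 150 136 [4, 4, 1] [(150, 136, [4, 4,
  1])]) .no .no (.use 210) .no .no)) .no (.br 1064 (.red [.t 1064 1 3, .f 1073 1 5] 150 136 [4, 4,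
  1] [(150, 136, [4, 4, 1])]) (.red [.f 936 1 3, .f 937 5 3, .f 936 3 5, .t 824 4 1] 119 136 [2,
  4] [(119, 136, [2, 4]), (134, 118, [1])]) .no (.use 210) .no .no))) (.use 186) .no) .no (.hor
  [.f 1064 3 5] []) .no .no) .no (.br 944 .no .no .no (.br 937 (.red [.t 936 3 1] 134 136 [4, 4]
  [(134, 136, [4, 4])]) (.con 136 [2, 4, 4, 2]) .no (.use 211) (.hor [.f 937 5 3, .f 936 3 5, .f
  938 3 5] []) .no) .no .no)) .no (.red [.t 1346 4 2, .f 1209 1 5] 168 136 [1, 1] [(168, 136, [1,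
  1])]) (.use 168) (.red [.f 1210 5 1, .f 1211 1 3] 168 136 [1, 1] [(168, 136, [1, 1])]) .no

def c10t213 : Tr4 :=
  .br 1073 (.br 1072 (.hor [.f 1072 1 5] []) (.br 1202 (.use 127) .no .no (.hor [.f 1066 3 1, .f
  1073 1 5] [(150, 118, [1, 1])]) (.br 1339 (.use 132) .no .no (.red [.f 1202 5 3, .f 1203 3 1, .f
  1211 1 3] 168 136 [1, 1] [(167, 136, [4, 1, 1]), (168, 136, [1, 1])]) .no (.red [.f 1210 5 1, .f
  1211 1 3] 168 136 [1, 1] [(168, 136, [1, 1])])) .no) .no (.br 944 .no .no .no (.red [.f 936 3 1]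
  134 136 [4, 4] [(134, 136, [4, 4])]) .no .no) .no .no) .no .no (.hor [.f 1065 3 5] []) .no (.br
  937 (.red [.t 1065 2 3, .t 1074 2 3] 135 136 [4] [(134, 136, [4, 4]), (135, 136, [4])]) (.con
  136 [2, 4, 4, 2]) .no (.use 211) (.red [.f 937 5 3, .f 938 3 1] 134 136 [4, 4] [(134, 136, [4,
  4])]) (.con 136 [4, 4, 2]))

def c10t214 : Tr4 :=
  .br 824 .no (.br 816 .no (.red [.f 688 1 3] 103 136 [2, 2, 4] [(103, 136, [2, 2, 4])]) .no (.br
  818 .no (.con 136 [2, 4, 2]) (.hor [.f 818 3 5] []) (.con 136 [2, 4, 2]) .no (.con 136 [2, 4,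
  2])) (.red [.f 816 5 1, .f 817 1 3] 119 136 [2, 4] [(119, 136, [2, 4])]) .no) (.con 136 [2, 2])
  (.red [.t 824 4 1] 119 136 [2, 4] [(119, 136, [2, 4])]) .no .no

def c10t215 : Tr4 :=
  .br 945 .no (.red [.f 817 1 3] 119 136 [2, 4] [(119, 136, [2, 4])]) .no (.br 946 .no (.con 136
  [2, 4, 4]) .no (.hor [.f 937 3 5] []) (.red [.f 946 5 3, .f 947 3 1, .f 955 1 3] 136 136 []
  [(135, 136, [4]), (136, 136, [])]) .no) (.red [.f 945 5 1, .t 1074 2 3, .f 955 1 3] 136 136 []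
  [(135, 136, [4]), (136, 136, [])]) (.br 946 .no (.con 136 [2, 4, 4]) .no (.use 214) (.red [.f
  946 5 3, .f 947 3 1, .f 955 1 3] 136 136 [] [(135, 136, [4]), (136, 136, [])]) .no)

def c10t216 : Tr4 :=
  .br 1075 (.con 136 [4, 1, 3]) (.con 136 [4, 1, 3]) (.br 953 .no (.br 1074 (.br 947 .no .no .no
  (.br 946 .no (.use 208) .no (.hor [.f 938 3 5] []) .no (.br 818 .no (.use 209) (.hor [.f 818 3
  5] []) (.br 824 .no (.con 136 [2, 4, 2]) (.con 136 [2, 2]) (.br 1219 (.use 212) .no (.con 136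
  [3, 1, 1]) .no .no .no) .no .no) .no (.red [.f 817 5 1, .f 817 1 3] 119 136 [2, 4] [(119, 136,
  [2, 4])]))) .no (.red [.f 946 5 3, .f 947 3 1, .f 955 1 3] 136 136 [] [(135, 136, [4]), (136,
  136, [])])) (.red [.t 1074 2 3, .f 955 1 3] 136 136 [] [(135, 136, [4]), (136, 136, [])]) .no
  (.br 947 .no .no .no (.br 946 .no (.use 208) .no (.hor [.f 938 3 5] []) .no (.br 818 .no (.use
  209) (.hor [.f 818 3 5] []) (.br 824 .no (.con 136 [2, 4, 2]) (.con 136 [2, 2]) (.br 1219 (.use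
  213) .no (.con 136 [3, 1, 1]) .no .no .no) .no .no) .no (.red [.f 817 5 1, .f 817 1 3] 119 136
  [2, 4] [(119, 136, [2, 4])]))) .no (.red [.f 946 5 3, .f 947 3 1, .f 955 1 3] 136 136 [] [(135,
  136, [4]), (136, 136, [])])) .no (.use 215)) .no (.br 946 (.red [.t 1074 2 3, .f 945 3 5] 135
  136 [4] [(135, 136, [4])]) (.red [.t 818 1 3, .f 945 3 5, .f 953 5 1, .f 953 1 3] 136 136 []
  [(119, 118, [3]), (136, 136, [])]) .no (.br 1074 (.br 1073 (.hor [.f 1073 1 5] []) .no .no (.br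
  1072 (.con 136 [4, 4, 1]) (.br 939 (.con 136 [2, 4, 4, 1, 3]) (.con 136 [2, 4, 4, 1, 3]) (.hor
  [.f 938 3 5] []) (.con 136 [2, 4, 4, 1, 3]) .no .no) .no (.hor [.f 1064 3 5] []) .no .no) .no
  (.br 939 (.red [.t 1074 1 3, .t 938 3 1, .t 945 3 1] 135 136 [4] [(134, 136, [4, 4]), (135, 136,
  [4]), (151, 135, [1])]) (.br 944 .no (.con 136 [2, 4, 4, 1]) .no (.con 136 [2, 4, 4, 1]) .no
  .no) (.hor [.f 938 3 5] []) (.use 179) .no .no)) .no .no (.red [.f 938 3 1, .t 945 3 1] 135 136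
  [4] [(134, 136, [4, 4]), (135, 136, [4])]) .no (.red [.f 1073 5 3, .f 945 3 1, .f 953 1 3] 136
  136 [] [(135, 136, [4]), (136, 136, [])])) (.red [.f 946 5 3, .f 947 3 1, .f 955 1 3] 136 136 []
  [(135, 136, [4]), (136, 136, [])]) .no) .no .no) (.con 136 [4, 1, 3]) .no (.con 136 [4, 1, 3])

def c10l7 : List Tr4 :=
  [c10t198, c10t199, c10t200, c10t201, c10t202, c10t203, c10t204, c10t205, c10t206, c10t207,
  c10t208, c10t209, c10t210, c10t211, c10t212, c10t213, c10t214, c10t215, c10t216]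

theorem c10k7 : chkLF ⟨4, 0, 0, true, -8⟩ true 0 c10N 198 c10l7 = true := by decide +kernel

def c10t217 : Tr4 :=
  .br 827 .no (.br 1209 (.br 1216 (.use 110) .no (.red [.f 1088 3 1, .f 1080 1 3, .f 952 3 1, .f
  960 1 5] 136 136 [] [(136, 136, []), (152, 136, [1]), (153, 136, [3, 1])]) .no (.br 1083 (.use
  165) .no .no (.use 202) .no .no) .no) .no (.red [.t 1217 4 2, .t 1090 4 2] 136 136 [] [(136,
  136, []), (152, 136, [1])]) (.br 1216 (.use 116) .no (.red [.f 1088 3 1, .f 1080 1 3, .f 952 3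
  1, .f 960 1 5] 136 136 [] [(136, 136, []), (152, 136, [1]), (153, 136, [3, 1])]) .no (.br 1083
  (.use 203) .no .no (.br 1074 (.red [.t 1201 3 2, .f 1080 1 5, .t 960 4 1] 136 136 [] [(136, 136,
  []), (151, 135, [1])]) (.red [.t 1074 2 3, .f 955 1 3] 136 136 [] [(135, 136, [4]), (136, 136,
  [])]) .no (.use 205) .no (.br 953 .no (.br 947 .no (.use 162) .no (.br 946 .no (.br 945 .no
  (.hor [.f 817 1 5] []) .no (.con 136 [2, 4, 4]) .no (.con 136 [2, 4, 4])) .no (.hor [.f 938 3 5]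
  []) .no (.use 201)) .no (.red [.f 946 5 3, .f 947 3 1, .f 955 1 3] 136 136 [] [(135, 136, [4]),
  (136, 136, [])])) .no (.red [.f 1073 5 3, .f 945 3 1, .f 953 1 3] 136 136 [] [(135, 136, [4]),
  (136, 136, [])]) .no .no)) .no .no) .no) (.red [.f 1081 5 1, .f 1080 1 5, .t 960 4 1] 136 136 []
  [(136, 136, [])]) .no) (.red [.t 834 1 4, .t 961 1 4] 136 136 [] [(120, 136, [2]), (136, 136,
  [])]) (.br 1209 (.br 1216 (.use 110) .no (.red [.f 1088 3 1, .f 1080 1 3, .f 952 3 1, .f 960 1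
  5] 136 136 [] [(136, 136, []), (152, 136, [1]), (153, 136, [3, 1])]) .no (.br 1210 (.hor [.f
  1209 1 5] []) .no .no (.br 1083 (.use 206) .no .no (.br 1074 .no (.red [.t 1074 2 3, .f 955 1 3]
  136 136 [] [(135, 136, [4]), (136, 136, [])]) .no (.br 1073 (.red [.t 1201 2 3, .f 1082 1 3] 152
  136 [1] [(151, 136, [4, 1]), (152, 136, [1])]) (.use 204) .no (.hor [.f 1065 3 5] []) .no (.br
  947 .no .no .no (.use 207) .no (.red [.f 946 5 3, .f 947 3 1, .f 955 1 3] 136 136 [] [(135, 136,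
  [4]), (136, 136, [])]))) .no (.red [.f 1073 5 3, .f 1074 3 1, .f 1082 1 3] 152 136 [1] [(151,
  136, [4, 1]), (152, 136, [1])])) .no .no) (.use 216) .no) .no) .no (.red [.t 1217 4 2, .t 1090 4
  2] 136 136 [] [(136, 136, []), (152, 136, [1])]) (.br 1216 (.use 116) .no (.red [.f 1088 3 1, .f
  1080 1 3, .f 952 3 1, .f 960 1 5] 136 136 [] [(136, 136, []), (152, 136, [1]), (153, 136, [3,
  1])]) .no (.br 1083 (.use 203) .no .no (.br 1074 (.red [.t 1201 3 2, .f 1080 1 5, .t 960 4 1]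
  136 136 [] [(136, 136, []), (151, 135, [1])]) (.red [.t 1074 2 3, .f 955 1 3] 136 136 [] [(135,
  136, [4]), (136, 136, [])]) .no (.use 205) .no (.br 953 .no (.use 215) .no (.red [.f 1073 5 3,
  .f 945 3 1, .f 953 1 3] 136 136 [] [(135, 136, [4]), (136, 136, [])]) .no .no)) .no .no) .no)
  (.red [.f 1081 5 1, .f 1080 1 5, .t 960 4 1] 136 136 [] [(136, 136, [])]) .no) .no (.red [.f 826
  5 1, .f 826 1 3, .t 961 1 4] 136 136 [] [(120, 136, [2]), (136, 136, [])])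

def c10t218 : Tr4 :=
  .br 826 .no (.hor [.f 698 1 5] []) .no (.hor [.t 818 3 1, .f 826 1 3, .f 825 3 5] [(119, 136,
  [2, 4]), (120, 136, [2])]) .no .no

def c10t219 : Tr4 :=
  .br 827 .no (.br 825 (.red [.f 699 1 3, .t 834 1 4, .t 961 1 4] 136 136 [] [(104, 136, [2, 2]),
  (120, 136, [2]), (136, 136, [])]) (.red [.f 699 1 3, .t 834 1 4, .t 961 1 4] 136 136 [] [(104,
  136, [2, 2]), (120, 136, [2]), (136, 136, [])]) (.br 1083 (.use 165) .no .no (.br 946 (.red [.t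
  1074 2 3] 135 136 [4] [(135, 136, [4])]) (.use 180) .no (.br 947 .no (.use 218) .no (.hor [.f
  938 3 5] []) .no .no) (.red [.f 946 5 3, .f 947 3 1] 135 136 [4] [(135, 136, [4])]) (.con 136
  [4, 2, 3])) .no .no) (.red [.f 699 1 3, .t 834 1 4, .t 961 1 4] 136 136 [] [(104, 136, [2, 2]),
  (120, 136, [2]), (136, 136, [])]) (.red [.f 699 1 3, .t 834 1 4, .t 961 1 4] 136 136 [] [(104,
  136, [2, 2]), (120, 136, [2]), (136, 136, [])]) (.red [.f 699 1 3, .t 834 1 4, .t 961 1 4] 136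
  136 [] [(104, 136, [2, 2]), (120, 136, [2]), (136, 136, [])])) .no (.br 1210 (.hor [.f 1209 1 5]
  []) .no .no (.br 1083 (.use 206) .no .no (.br 1074 .no (.red [.t 1074 2 3] 135 136 [4] [(135,
  136, [4])]) .no (.br 1073 (.red [.t 1201 2 3, .f 1082 1 3] 152 136 [1] [(151, 136, [4, 1]),
  (152, 136, [1])]) (.use 204) .no (.hor [.f 1065 3 5] []) .no (.br 947 .no .no .no (.use 207) .no
  (.red [.f 946 5 3, .f 947 3 1] 135 136 [4] [(135, 136, [4])]))) .no (.red [.f 1073 5 3, .f 1074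
  3 1, .f 1082 1 3] 152 136 [1] [(151, 136, [4, 1]), (152, 136, [1])])) .no .no) (.br 1075 (.con
  136 [4, 1, 3]) (.con 136 [4, 1, 3]) (.br 1219 (.br 947 .no .no .no (.br 946 (.red [.t 1074 2 3]
  135 136 [4] [(135, 136, [4])]) (.br 945 (.con 136 [4, 2, 4]) (.hor [.f 817 1 5] []) (.red [.t
  818 1 3, .f 945 3 5, .f 953 5 1, .f 953 1 3] 136 136 [] [(119, 118, [3]), (136, 136, [])]) (.con
  136 [4, 2, 4]) .no (.con 136 [4, 2, 4])) .no (.hor [.f 938 3 5] []) .no (.br 825 (.br 818 .no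
  (.use 209) (.hor [.f 818 3 5] []) (.br 1074 (.br 824 .no (.con 136 [2, 4, 2]) (.con 136 [2, 2])
  (.use 212) .no .no) .no .no (.br 824 .no (.con 136 [2, 4, 2]) (.con 136 [2, 2]) (.use 213) .no
  .no) .no (.red [.f 945 5 1, .t 1074 2 3] 135 136 [4] [(135, 136, [4])])) .no (.red [.f 817 5 1,
  .f 817 1 3] 119 136 [2, 4] [(119, 136, [2, 4])])) (.con 136 [4, 2, 3]) (.con 136 [4, 2, 3])
  (.con 136 [4, 2, 3]) (.con 136 [4, 2, 3]) (.con 136 [4, 2, 3]))) .no (.red [.f 946 5 3, .f 947 3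
  1] 135 136 [4] [(135, 136, [4])])) .no (.con 136 [3, 1, 1]) .no .no .no) (.con 136 [4, 1, 3])
  .no (.con 136 [4, 1, 3])) .no) .no (.red [.f 826 5 1, .f 826 1 3, .t 961 1 4] 136 136 [] [(120,
  136, [2]), (136, 136, [])])

def c10t220 : Tr4 :=
  .br 1097 (.red [.t 1096 4 1, .f 1080 1 3] 152 136 [1] [(152, 136, [1]), (153, 136, [3, 1])])
  (.hor [.f 961 1 3, .f 961 3 5] [(137, 121, [1])]) (.br 1098 (.br 1099 (.hor [.f 1098 1 5] [])
  (.con 136 [3, 3, 1]) (.con 136 [3, 3, 1]) .no .no .no) .no (.hor [.f 1097 3 5] []) .no (.red [.t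
  962 3 1, .f 954 5 3, .t 961 1 4] 136 136 [] [(136, 136, []), (137, 121, [1])]) .no) .no (.hor
  [.t 961 1 3, .f 1088 3 5] [(137, 121, [1])]) .no

def c10t221 : Tr4 :=
  .br 954 .no (.br 953 .no (.hor [.f 825 1 5] []) .no (.br 1091 (.con 136 [3, 1]) (.br 955 (.red
  [.f 955 1 3] 136 136 [] [(136, 136, [])]) (.hor [.f 826 1 5] []) .no (.br 1083 (.use 108) .no
  .no (.red [.f 947 3 1, .f 955 1 3] 136 136 [] [(135, 136, [4]), (136, 136, [])]) .no .no) .no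
  .no) (.br 963 .no (.br 962 .no (.hor [.f 834 1 5] []) (.con 136 [2, 3]) .no .no .no) (.br 955
  (.red [.f 963 3 1, .f 955 1 3] 136 136 [] [(136, 136, []), (137, 136, [3])]) (.hor [.f 826 1 5]
  []) .no (.use 109) .no .no) (.con 136 [2]) .no (.br 955 (.br 946 (.red [.t 945 3 1, .f 953 1 3]
  136 136 [] [(135, 136, [4]), (136, 136, [])]) (.hor [.f 818 1 3, .f 945 3 5] [(119, 120, [4])])
  .no (.br 1209 (.br 827 .no (.use 114) (.red [.t 826 1 3, .t 961 1 4] 136 136 [] [(120, 136,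
  [2]), (136, 136, [])]) (.use 115) .no .no) .no (.red [.t 1217 4 2, .f 1080 1 5] 152 136 [1]
  [(152, 136, [1])]) (.br 827 .no (.use 117) (.red [.t 826 1 3, .t 961 1 4] 136 136 [] [(120, 136,
  [2]), (136, 136, [])]) (.use 115) .no .no) (.red [.f 1081 5 1, .f 1080 1 5, .t 960 4 1] 136 136
  [] [(136, 136, [])]) .no) (.br 827 .no (.br 1209 (.use 114) .no (.red [.t 1217 4 2, .f 1080 1 5]
  152 136 [1] [(152, 136, [1])]) (.use 117) (.red [.f 1081 5 1, .f 1080 1 5, .t 960 4 1] 136 136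
  [] [(136, 136, [])]) .no) (.red [.t 826 1 3, .t 961 1 4] 136 136 [] [(120, 136, [2]), (136, 136,
  [])]) (.hor [.t 826 1 4, .f 945 3 5] [(119, 120, [4])]) .no .no) .no) (.hor [.f 826 1 5] []) .no
  (.use 109) .no .no)) (.con 136 [1]) .no .no) .no .no) (.red [.t 961 1 4] 136 136 [] [(136, 136,
  [])]) (.br 953 .no (.br 955 (.br 1091 (.con 136 [3, 1]) (.red [.f 955 1 3] 136 136 [] [(136,
  136, [])]) (.br 963 .no (.br 962 .no (.hor [.f 834 1 5] []) (.con 136 [2, 3]) .no .no .no) (.red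
  [.f 963 3 1, .f 955 1 3] 136 136 [] [(136, 136, []), (137, 136, [3])]) .no .no (.br 1209 (.br
  1216 (.use 110) .no (.red [.f 1088 3 1, .f 1080 1 3, .f 952 3 1, .f 960 1 5] 136 136 [] [(136,
  136, []), (152, 136, [1]), (153, 136, [3, 1])]) .no (.br 970 (.red [.t 1098 2 4, .f 955 1 3] 136
  136 [] [(136, 136, []), (137, 136, [3])]) (.use 118) (.br 969 (.con 136 [3, 3]) (.br 1098 (.use
  119) .no (.red [.f 970 3 1, .t 1098 2 4, .f 955 1 3] 136 136 [] [(136, 136, []), (137, 136,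
  [3]), (138, 136, [3, 3])]) .no .no (.use 156)) (.hor [.f 969 3 5] []) .no .no (.red [.t 1088 3
  2, .f 1088 5 1, .f 1080 1 3, .f 952 3 1, .f 960 1 3] 136 136 [] [(136, 136, []), (152, 136,
  [1])])) .no (.red [.f 962 5 3, .f 963 3 1, .f 955 1 3] 136 136 [] [(136, 136, []), (137, 136,
  [3])]) (.use 112)) .no) .no (.red [.t 1217 4 2, .f 1080 1 5] 152 136 [1] [(152, 136, [1])]) (.br
  1216 (.use 116) .no (.red [.f 1088 3 1, .f 1080 1 3, .f 952 3 1, .f 960 1 5] 136 136 [] [(136,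
  136, []), (152, 136, [1]), (153, 136, [3, 1])]) .no (.use 161) .no) (.red [.f 1081 5 1, .f 1080
  1 5, .t 960 4 1] 136 136 [] [(136, 136, [])]) .no)) .no .no .no) (.con 136 [2, 4]) (.con 136
  [2]) (.hor [.f 946 3 5] []) .no .no) .no (.hor [.f 945 3 5] []) .no .no) (.br 962 .no (.br 1091
  (.con 136 [3, 1]) (.use 217) (.br 963 .no (.use 98) (.br 835 .no (.br 1209 (.br 1216 (.use 110)
  .no (.red [.f 1088 3 1, .f 1080 1 3, .f 952 3 1, .f 960 1 5] 136 136 [] [(136, 136, []), (152,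
  136, [1]), (153, 136, [3, 1])]) .no (.use 219) .no) .no (.red [.t 1217 4 2, .f 1080 1 5] 152 136
  [1] [(152, 136, [1])]) (.br 1216 (.use 116) .no (.red [.f 1088 3 1, .f 1080 1 3, .f 952 3 1, .f
  960 1 5] 136 136 [] [(136, 136, []), (152, 136, [1]), (153, 136, [3, 1])]) .no (.br 1083 (.use
  203) .no .no (.br 1074 (.red [.t 1201 3 2, .f 1080 1 5, .t 960 4 1] 136 136 [] [(136, 136, []),
  (151, 135, [1])]) (.red [.t 1074 2 3] 135 136 [4] [(135, 136, [4])]) .no (.use 205) .no (.br 953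
  .no (.br 827 .no (.red [.f 699 1 3, .t 834 1 4, .t 961 1 4] 136 136 [] [(104, 136, [2, 2]),
  (120, 136, [2]), (136, 136, [])]) .no (.br 945 .no (.red [.f 817 1 3] 119 136 [2, 4] [(119, 136,
  [2, 4])]) .no (.br 946 .no (.con 136 [2, 4, 4]) .no (.hor [.f 937 3 5] []) (.red [.f 1073 5 3,
  .f 946 5 3, .f 947 3 1] 135 136 [4] [(135, 136, [4])]) .no) (.red [.f 945 5 1, .t 1074 2 3] 135
  136 [4] [(135, 136, [4])]) (.br 946 .no (.con 136 [2, 4, 4]) .no (.use 214) (.red [.f 1073 5 3,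
  .f 946 5 3, .f 947 3 1] 135 136 [4] [(135, 136, [4])]) .no)) .no (.red [.f 826 5 1, .f 826 1 3,
  .t 961 1 4] 136 136 [] [(120, 136, [2]), (136, 136, [])])) .no (.red [.f 1073 5 3, .f 945 3 1,
  .f 953 1 3] 136 136 [] [(135, 136, [4]), (136, 136, [])]) .no .no)) .no .no) .no) (.red [.f 1081
  5 1, .f 1080 1 5, .t 960 4 1] 136 136 [] [(136, 136, [])]) .no) (.hor [.f 835 3 1, .f 834 1 5]
  [(121, 120, [3])]) (.red [.t 834 1 4, .t 961 1 4] 136 136 [] [(120, 136, [2]), (136, 136, [])])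
  .no .no) .no .no .no) (.con 136 [1]) .no .no) (.br 963 (.br 1209 (.br 1216 (.use 110) .no (.red
  [.f 1088 3 1, .f 1080 1 3, .f 952 3 1, .f 960 1 5] 136 136 [] [(136, 136, []), (152, 136, [1]),
  (153, 136, [3, 1])]) .no (.use 220) .no) .no (.red [.t 1217 4 2, .t 1090 4 2] 136 136 [] [(136,
  136, []), (152, 136, [1])]) (.br 1216 (.use 116) .no (.red [.f 1088 3 1, .f 1080 1 3, .f 952 3
  1, .f 960 1 5] 136 136 [] [(136, 136, []), (152, 136, [1]), (153, 136, [3, 1])]) .no (.use 220)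
  .no) (.red [.f 1081 5 1, .f 1080 1 5, .t 960 4 1] 136 136 [] [(136, 136, [])]) .no) (.con 136
  [2, 3]) (.hor [.f 962 3 5] []) .no .no .no) .no (.red [.f 954 5 3, .t 961 1 4] 136 136 [] [(136,
  136, [])]) .no) (.red [.f 953 5 1, .f 953 1 3] 136 136 [] [(136, 136, [])])

def c10t222 : Tr4 :=
  .br 962 .no (.hor [.f 834 1 5] []) (.con 136 [3, 2]) .no .no .no

def c10t223 : Tr4 :=
  .br 963 .no (.use 222) (.red [.f 963 3 1, .t 1090 4 2] 136 136 [] [(136, 136, []), (137, 136,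
  [3])]) .no .no (.red [.f 954 5 3, .f 954 3 1] 136 136 [] [(136, 136, [])])

def c10t224 : Tr4 :=
  .br 1090 (.br 1089 (.con 136 [1, 3]) (.br 1081 (.hor [.f 1080 1 5] []) (.red [.f 953 1 3, .f 952
  3 5] 136 136 [] [(136, 136, [])]) .no (.br 1082 (.red [.f 1082 1 3] 152 136 [1] [(152, 136,
  [1])]) (.use 95) .no (.hor [.f 1073 3 5] []) (.br 953 .no (.use 103) .no (.red [.f 945 3 1, .f
  953 1 3] 136 136 [] [(135, 136, [4]), (136, 136, [])]) (.br 1074 (.use 99) (.red [.t 1073 3 2,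
  .f 953 1 3] 136 136 [] [(135, 136, [4]), (136, 136, [])]) .no (.br 1091 (.con 136 [3, 1]) (.br
  1216 (.br 1219 (.use 105) .no (.con 136 [3, 1, 1]) (.red [.t 1218 2 4, .t 1089 2 4, .f 952 3 5]
  136 136 [] [(136, 136, []), (152, 136, [1])]) .no .no) .no (.red [.f 1088 3 1, .f 1080 1 3, .f
  952 3 1, .f 960 1 5] 136 136 [] [(136, 136, []), (152, 136, [1]), (153, 136, [3, 1])]) .no (.br
  1219 (.use 105) .no (.con 136 [3, 1, 1]) (.red [.t 1218 2 4, .t 1089 2 4, .f 952 3 5] 136 136 []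
  [(136, 136, []), (152, 136, [1])]) .no .no) .no) (.br 1219 (.use 105) .no (.use 96) (.red [.t
  1218 2 4, .t 1089 2 4, .f 952 3 5] 136 136 [] [(136, 136, []), (152, 136, [1])]) .no .no) .no
  .no .no) (.red [.f 1074 5 3, .f 1073 3 5, .f 953 5 1, .f 953 1 3] 136 136 [] [(136, 136, [])])
  .no) .no) .no) (.use 221) .no) (.hor [.f 1088 3 5] []) (.con 136 [1]) .no .no) (.con 136 [1, 3])
  (.con 136 [1, 3]) (.br 1089 (.con 136 [1, 3]) (.br 1081 (.hor [.f 1080 1 5] []) (.red [.f 953 1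
  3, .f 952 3 5] 136 136 [] [(136, 136, [])]) .no (.br 953 .no (.br 954 .no (.hor [.f 825 1 5] [])
  (.red [.f 954 3 1, .f 961 1 5] 136 136 [] [(136, 136, [])]) (.br 955 (.typ 2) (.con 136 [2, 4])
  (.con 136 [2]) (.hor [.f 946 3 5] []) .no .no) (.br 1091 (.con 136 [3, 1]) (.red [.t 1090 4 2]
  136 136 [] [(136, 136, [])]) (.use 223) (.con 136 [3, 1]) .no .no) .no) .no (.red [.f 945 3 1,
  .f 953 1 3] 136 136 [] [(135, 136, [4]), (136, 136, [])]) (.red [.t 1089 2 4, .f 952 3 5] 136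
  136 [] [(136, 136, [])]) .no) .no .no) (.hor [.f 1088 3 5] []) (.con 136 [1, 3]) .no .no) (.con
  136 [1, 3]) (.con 136 [1, 3])

def c10t225 : Tr4 :=
  .br 953 .no (.hor [.f 825 1 5] []) (.con 136 [2]) (.red [.f 945 3 1, .t 952 3 1] 136 136 []
  [(135, 136, [4]), (136, 136, [])]) .no .no

def c10t226 : Tr4 :=
  .br 945 .no (.hor [.f 817 1 5] []) .no (.con 136 [4, 2, 4]) .no (.con 136 [4, 2, 4])

def c10l8 : List Tr4 :=
  [c10t217, c10t218, c10t219, c10t220, c10t221, c10t222, c10t223, c10t224, c10t225, c10t226]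

theorem c10k8 : chkLF ⟨4, 0, 0, true, -8⟩ true 0 c10N 217 c10l8 = true := by decide +kernel

def c10t227 : Tr4 :=
  .br 1082 (.red [.f 1082 1 3] 152 136 [1] [(152, 136, [1])]) (.use 95) .no (.hor [.f 1073 3 5]
  []) (.br 1217 (.br 1209 (.red [.f 1209 1 3, .t 1208 2 3] 152 136 [1] [(152, 136, [1]), (168,
  136, [1, 1])]) .no .no (.red [.f 1073 3 1, .f 1080 1 5, .f 1080 5 3, .f 952 3 1] 136 136 []
  [(136, 136, []), (151, 135, [1])]) (.br 954 .no (.use 225) (.red [.t 962 4 1] 136 136 [] [(136,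
  136, [])]) (.br 953 .no (.use 97) (.con 136 [2]) (.hor [.f 945 3 5] []) .no .no) (.red [.f 954 5
  1, .f 955 1 3] 136 136 [] [(136, 136, [])]) (.br 961 .no (.br 962 .no (.hor [.f 833 1 5] [])
  (.con 136 [2, 3]) .no .no .no) (.br 962 .no (.br 1074 (.red [.t 1073 3 1, .f 1080 1 5, .f 1080 5
  3, .f 952 3 1] 136 136 [] [(136, 136, []), (151, 135, [1])]) (.red [.t 1073 3 2] 135 136 [4]
  [(135, 136, [4])]) .no (.br 1216 (.hor [.f 1216 1 5] []) .no (.br 1096 .no (.red [.t 968 1 4, .f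
  1088 3 1, .f 1080 1 3] 152 136 [1] [(137, 136, [3]), (152, 136, [1]), (153, 136, [3, 1])]) (.br
  1097 (.red [.t 1224 4 2, .f 1080 1 3, .f 952 3 1] 136 136 [] [(136, 136, []), (152, 136, [1]),
  (153, 136, [3, 1])]) .no (.hor [.f 1096 3 5] []) .no (.br 968 .no (.br 833 .no (.br 832 .no
  (.hor [.f 704 1 5] []) .no (.br 825 .no (.hor [.f 697 1 3, .f 824 3 5] [(104, 136, [2, 2])]) .no
  (.br 955 .no (.con 136 [2, 2]) .no (.br 946 .no (.red [.t 817 3 1, .f 946 3 5, .f 954 5 1, .f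
  955 1 3] 136 136 [] [(119, 103, [1]), (136, 136, [])]) .no (.red [.f 938 3 1, .t 946 1 3, .f
  1073 3 5] 135 136 [4] [(134, 136, [4, 4]), (135, 136, [4])]) .no (.red [.f 945 5 3, .f 945 3 1]
  135 136 [4] [(135, 136, [4])])) .no .no) (.red [.f 824 3 1, .f 825 5 1, .f 826 1 3, .t 962 4 1]
  136 136 [] [(136, 136, [])]) .no) .no .no) (.hor [.f 833 3 1, .f 833 1 5] [(121, 105, [1])])
  (.red [.t 833 4 1, .t 962 4 1] 136 136 [] [(120, 136, [2]), (136, 136, [])]) .no (.hor [.t 968 2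
  4, .f 833 1 5] [(121, 120, [3])])) (.red [.f 968 3 1, .t 968 1 4, .f 1088 3 1, .f 1080 1 3] 152
  136 [1] [(137, 136, [3]), (138, 136, [3, 3]), (152, 136, [1]), (153, 136, [3, 1])]) .no .no .no)
  .no) .no (.red [.f 1088 5 3, .f 1088 3 1, .f 1080 1 3] 152 136 [1] [(152, 136, [1]), (153, 136,
  [3, 1])]) .no) .no .no .no) (.br 955 .no (.br 947 .no (.red [.f 819 1 3] 119 136 [2, 4] [(119,
  136, [2, 4])]) .no (.br 946 .no (.use 226) .no (.hor [.f 938 3 5] []) .no (.red [.f 945 5 3, .f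
  945 3 1] 135 136 [4] [(135, 136, [4])])) .no (.red [.f 946 5 1, .t 1073 3 2] 135 136 [4] [(135,
  136, [4])])) .no (.red [.f 1074 5 3, .f 947 3 1, .f 955 1 3] 136 136 [] [(135, 136, [4]), (136,
  136, [])]) .no .no) .no) (.hor [.f 961 3 5] []) .no .no .no) .no (.red [.f 953 5 3, .t 962 4 1]
  136 136 [] [(136, 136, [])]) .no)) .no) .no (.use 46) (.red [.t 1208 2 3, .f 952 3 1] 136 136 []
  [(136, 136, []), (152, 136, [1])]) .no (.red [.f 1088 5 1, .f 1080 1 3, .f 952 3 1] 136 136 []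
  [(136, 136, []), (152, 136, [1])])) .no

def c10t228 : Tr4 :=
  .br 962 .no (.hor [.f 833 1 5] []) (.con 136 [3, 2]) .no .no .no

def c10t229 : Tr4 :=
  .br 946 .no (.br 945 .no (.hor [.f 817 1 5] []) .no (.con 136 [4, 2, 4]) .no (.con 136 [4, 4]))
  .no (.red [.f 938 3 1, .f 946 1 5] 134 136 [4, 4] [(134, 136, [4, 4])]) .no (.red [.f 945 5 3,
  .f 945 3 1] 135 136 [4] [(135, 136, [4])])

def c10t230 : Tr4 :=
  .br 947 .no (.red [.f 819 1 3] 119 136 [4, 2] [(119, 136, [4, 2])]) .no (.br 946 .no (.use 226)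
  .no (.hor [.f 938 3 5] []) .no (.red [.f 945 5 3, .f 945 3 1] 135 136 [4] [(135, 136, [4])]))
  .no (.red [.f 946 5 1, .t 1073 3 2] 135 136 [4] [(135, 136, [4])])

def c10t231 : Tr4 :=
  .br 1074 .no (.red [.t 1073 3 2] 135 136 [4] [(135, 136, [4])]) .no (.br 1075 (.hor [.f 1075 1
  3, .f 1202 3 5] [(151, 136, [4, 1])]) (.use 229) .no (.hor [.f 1066 3 5] []) .no .no) (.br 955
  .no (.use 230) .no (.red [.t 1210 4 2, .f 947 3 1] 135 136 [4] [(135, 136, [4]), (151, 136, [4,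
  1])]) .no .no) .no

def c10t232 : Tr4 :=
  .br 832 .no (.hor [.f 704 1 5] []) .no (.con 136 [2, 2]) .no .no

def c10t233 : Tr4 :=
  .br 833 .no (.use 232) (.hor [.f 833 3 1, .f 833 1 5] [(121, 105, [1])]) (.red [.t 833 4 1, .f
  954 3 1] 136 136 [] [(120, 136, [2]), (136, 136, [])]) .no (.hor [.t 968 2 4, .f 833 1 5] [(121,
  137, [2])])

def c10t234 : Tr4 :=
  .br 1097 (.red [.t 1224 4 2, .f 1080 1 3, .f 952 3 1] 136 136 [] [(136, 136, []), (152, 136,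
  [1]), (153, 136, [3, 1])]) .no (.hor [.f 1096 3 5] []) .no (.br 968 .no (.use 233) (.red [.f 968
  3 1, .t 968 1 4, .t 1089 2 4] 136 136 [] [(136, 136, []), (137, 136, [3]), (138, 136, [3, 3])])
  .no .no .no) .no

def c10t235 : Tr4 :=
  .br 1096 (.use 51) (.red [.t 968 1 4, .t 1089 2 4] 136 136 [] [(136, 136, []), (137, 136, [3])])
  (.br 1216 (.hor [.f 1216 1 5] []) .no (.use 234) .no .no .no) .no (.red [.f 1088 5 3, .f 961 3
  1, .t 1089 2 4] 136 136 [] [(136, 136, []), (137, 136, [3])]) .no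

def c10t236 : Tr4 :=
  .br 824 .no (.con 136 [2, 2, 4]) .no (.hor [.f 816 3 5] []) .no .no

def c10t237 : Tr4 :=
  .br 1218 (.con 136 [1, 3, 1]) .no (.hor [.f 1217 3 5] []) .no .no .no

def c10t238 : Tr4 :=
  .br 1219 (.br 1216 (.use 237) .no .no .no .no .no) .no (.con 136 [3, 1, 3]) .no .no (.con 136
  [3, 1, 1])

def c10t239 : Tr4 :=
  .br 1219 (.use 237) .no (.con 136 [1, 3, 1]) .no .no (.con 136 [1, 3, 1])

def c10t240 : Tr4 :=
  .br 696 .no (.hor [.f 568 1 5] []) (.hor [.f 696 3 1, .f 704 1 5] [(104, 136, [2, 2])]) (.br 699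
  .no (.con 136 [2, 2, 2, 4]) (.con 136 [2, 2, 2]) (.red [.t 698 1 4, .f 817 3 5] 103 136 [2, 2,
  4] [(103, 136, [2, 2, 4])]) .no .no) .no .no

def c10t241 : Tr4 :=
  .br 968 .no (.br 833 .no (.br 832 .no (.hor [.f 704 1 5] []) .no (.br 825 .no (.hor [.f 697 1 3,
  .f 824 3 5] [(104, 136, [2, 2])]) .no (.br 946 .no (.red [.t 817 3 1, .f 946 3 5, .t 1090 4 2]
  136 136 [] [(119, 103, [1]), (136, 136, [])]) .no (.br 827 .no (.con 136 [2, 2]) (.br 945 .no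
  .no .no (.hor [.f 937 3 5] []) .no (.br 826 .no (.br 818 .no (.red [.f 690 1 3] 103 136 [2, 2,
  4] [(103, 136, [2, 2, 4])]) .no (.br 697 .no (.br 696 .no (.hor [.f 568 1 5] []) (.hor [.f 696 3
  1, .f 704 1 5] [(104, 136, [2, 2])]) (.br 699 .no (.con 136 [2, 2, 2, 4]) (.con 136 [2, 2, 2])
  (.br 689 .no (.red [.f 561 1 3] 87 136 [2, 2, 2, 4] [(87, 136, [2, 2, 2, 4])]) .no (.br 690 .no
  (.con 136 [2, 2, 2, 4, 4]) .no (.hor [.f 681 3 5] []) .no .no) (.red [.t 825 4 2, .f 690 3 5]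
  103 136 [2, 2, 4] [(103, 136, [2, 2, 4])]) .no) .no .no) .no .no) .no (.red [.f 689 3 1, .f 697
  1 5] 103 136 [2, 2, 4] [(103, 136, [2, 2, 4])]) .no (.br 816 .no (.red [.t 832 4 2, .t 696 1 3,
  .t 816 2 3, .f 697 1 5] 103 136 [2, 2, 4] [(103, 136, [2, 2, 4])]) .no (.br 819 .no (.con 136
  [2, 2, 4, 4]) .no (.hor [.f 810 3 5] []) .no .no) .no .no)) (.br 697 .no (.use 240) .no (.red
  [.f 689 3 1, .f 697 1 5] 103 136 [2, 2, 4] [(103, 136, [2, 2, 4])]) .no (.br 816 .no (.red [.t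
  832 4 2, .t 696 1 3, .t 816 2 3, .f 697 1 5] 103 136 [2, 2, 4] [(103, 136, [2, 2, 4])]) .no (.br
  699 .no (.br 691 .no (.red [.f 563 1 3] 87 136 [2, 2, 2, 4] [(87, 136, [2, 2, 2, 4])]) .no (.br
  688 .no (.br 689 .no (.hor [.f 560 1 5] []) .no (.con 136 [2, 2, 2, 4, 4]) (.con 136 [2, 2, 2,
  4, 4]) .no) .no (.red [.f 680 3 1, .t 816 2 3, .f 697 1 5] 103 136 [2, 2, 4] [(102, 136, [2, 2,
  4, 4]), (103, 136, [2, 2, 4])]) (.red [.f 688 5 3, .f 689 3 1, .f 697 1 3] 103 136 [2, 2, 4]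
  [(103, 136, [2, 2, 4]), (104, 136, [2, 2])]) .no) .no (.red [.f 690 5 1, .f 690 1 3] 103 136 [2,
  2, 4] [(103, 136, [2, 2, 4])])) (.con 136 [2, 2, 2]) (.red [.t 698 1 4, .f 817 3 5] 103 136 [2,
  2, 4] [(103, 136, [2, 2, 4])]) .no .no) .no .no)) .no) .no (.hor [.f 817 3 5] []) .no .no))
  (.con 136 [2, 2]) .no (.con 136 [2, 2])) .no (.red [.f 945 5 3, .f 945 3 1] 135 136 [4] [(135,
  136, [4])])) (.red [.f 824 3 1, .f 825 5 1, .f 826 1 3, .f 954 3 1] 136 136 [] [(136, 136, [])])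
  .no) .no .no) (.hor [.f 833 3 1, .f 833 1 5] [(121, 105, [1])]) (.red [.t 833 4 1, .f 954 3 1]
  136 136 [] [(120, 136, [2]), (136, 136, [])]) .no (.hor [.t 968 2 4, .f 833 1 5] [(121, 120,
  [3])])) (.red [.f 968 3 1, .t 968 1 4, .t 1089 2 4] 136 136 [] [(136, 136, []), (137, 136, [3]),
  (138, 136, [3, 3])]) .no .no .no

def c10t242 : Tr4 :=
  .br 1097 (.red [.t 1224 4 2, .f 1080 1 3, .f 952 3 1] 136 136 [] [(136, 136, []), (152, 136,
  [1]), (153, 136, [3, 1])]) .no (.hor [.f 1096 3 5] []) .no (.use 241) .no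

def c10t243 : Tr4 :=
  .br 946 .no (.use 226) .no (.hor [.f 938 3 5] []) .no (.red [.f 945 5 3, .f 945 3 1] 135 136 [4]
  [(135, 136, [4])])

def c10t244 : Tr4 :=
  .br 938 .no .no .no (.hor [.f 930 3 5] []) .no (.red [.t 817 1 4, .t 697 4 1] 103 136 [2, 2, 4]
  [(103, 136, [2, 2, 4]), (118, 119, [4])])

def c10t245 : Tr4 :=
  .br 1099 (.br 1226 (.con 136 [3, 1, 1]) (.con 136 [3, 1, 3]) (.con 136 [3, 1, 1]) (.hor [.f 1217
  3 5] []) .no .no) (.con 136 [3, 1, 3]) (.con 136 [3, 1, 3]) .no .no (.con 136 [3, 1, 3])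

def c10t246 : Tr4 :=
  .br 970 (.br 1097 .no .no (.hor [.f 1096 3 5] []) .no .no .no) (.red [.f 968 3 1, .t 968 1 4, .t
  1089 2 4] 136 136 [] [(136, 136, []), (137, 136, [3]), (138, 136, [3, 3])]) (.red [.f 968 3 1,
  .t 968 1 4, .t 1089 2 4] 136 136 [] [(136, 136, []), (137, 136, [3]), (138, 136, [3, 3])]) .no
  (.red [.f 968 3 1, .t 968 1 4, .t 1089 2 4] 136 136 [] [(136, 136, []), (137, 136, [3]), (138,
  136, [3, 3])]) .no

def c10t247 : Tr4 :=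
  .br 968 (.red [.t 968 1 4, .t 1089 2 4] 136 136 [] [(136, 136, []), (137, 136, [3])]) (.use 233)
  (.br 1216 (.br 1096 (.use 245) .no (.use 246) .no (.red [.f 1088 5 3, .f 961 3 1, .t 1089 2 4]
  136 136 [] [(136, 136, []), (137, 136, [3])]) .no) .no (.hor [.f 1216 3 5] []) .no .no .no) .no
  .no .no

def c10t248 : Tr4 :=
  .br 1210 (.hor [.f 1209 1 5] []) .no .no .no (.br 947 .no (.red [.f 819 1 3] 119 136 [4, 2]
  [(119, 136, [4, 2])]) .no (.br 946 .no (.use 226) .no (.hor [.f 938 3 5] []) .no (.red [.f 945 5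
  3, .f 945 3 1] 135 136 [4] [(135, 136, [4])])) .no (.red [.t 1074 1 3, .f 946 5 1, .t 1073 3 2]
  135 136 [4] [(135, 136, [4]), (151, 135, [1])])) .no

def c10t249 : Tr4 :=
  .br 1072 (.hor [.f 1072 1 3, .f 1072 3 5] [(151, 135, [1])]) .no .no (.red [.f 936 3 1] 134 136
  [4, 4] [(134, 136, [4, 4])]) .no .no

def c10t250 : Tr4 :=
  .br 819 .no (.con 136 [2, 2, 4, 4]) .no (.hor [.f 810 3 5] []) .no .no

def c10t251 : Tr4 :=
  .br 817 .no .no .no (.hor [.f 809 3 5] []) .no (.red [.f 816 5 3, .f 689 3 1, .f 697 1 3] 103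
  136 [2, 2, 4] [(103, 136, [2, 2, 4]), (104, 136, [2, 2])])

def c10t252 : Tr4 :=
  .br 696 .no (.br 697 .no (.hor [.f 568 1 5] []) .no (.use 251) .no .no) .no (.br 817 .no (.con
  136 [2, 2, 4, 4]) .no (.hor [.f 809 3 5] []) .no (.br 697 .no (.br 690 .no (.use 250) .no (.red
  [.f 682 3 1, .f 690 1 3] 103 136 [2, 2, 4] [(102, 136, [2, 2, 4, 4]), (103, 136, [2, 2, 4])])
  (.con 136 [2, 2, 4, 2]) (.red [.f 816 5 3, .t 825 4 2] 103 136 [2, 2, 4] [(103, 136, [2, 2,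
  4])])) .no (.use 251) .no .no)) (.red [.f 696 5 1, .f 697 1 3, .t 833 4 1, .t 697 3 1, .f 954 3
  1] 136 136 [] [(120, 136, [2]), (136, 136, [])]) .no

def c10t253 : Tr4 :=
  .br 945 .no (.br 939 (.red [.t 1066 3 2, .t 1073 3 2] 135 136 [4] [(134, 136, [4, 4]), (135,
  136, [4])]) (.red [.t 810 3 1, .f 817 1 5, .f 945 5 3, .f 945 3 1] 135 136 [4] [(118, 102, [1]),
  (135, 136, [4])]) .no (.br 704 .no (.br 696 .no (.br 944 (.br 697 .no (.hor [.f 568 1 5] []) .no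
  (.use 244) .no .no) (.hor [.f 816 1 5] []) .no (.use 249) .no .no) .no (.br 944 (.br 938 .no .no
  .no (.hor [.f 930 3 5] []) .no (.br 697 .no (.br 690 .no (.use 250) .no (.red [.f 682 3 1, .f
  690 1 3] 103 136 [2, 2, 4] [(102, 136, [2, 2, 4, 4]), (103, 136, [2, 2, 4])]) (.con 136 [2, 2,
  4, 2]) (.red [.t 817 1 4, .f 689 5 1, .f 690 1 3] 103 136 [2, 2, 4] [(103, 136, [2, 2, 4]),
  (118, 119, [4])])) .no (.use 244) .no .no)) (.hor [.f 816 1 5] []) .no (.use 249) .no .no) (.red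
  [.f 696 5 1, .f 697 1 3, .t 833 4 1, .t 697 3 1, .f 954 3 1] 136 136 [] [(120, 136, [2]), (136,
  136, [])]) .no) (.hor [.f 704 3 1, .f 704 1 5] [(105, 104, [3])]) (.red [.t 704 4 1, .t 833 4 1,
  .f 954 3 1] 136 136 [] [(104, 136, [2, 2]), (120, 136, [2]), (136, 136, [])]) .no .no) .no (.red
  [.f 938 5 3, .f 938 3 1, .t 1073 3 2] 135 136 [4] [(134, 136, [4, 4]), (135, 136, [4])])) .no
  (.br 938 .no .no .no (.br 939 (.red [.t 1066 3 2, .t 1073 3 2] 135 136 [4] [(134, 136, [4, 4]),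
  (135, 136, [4])]) (.br 817 .no (.con 136 [2, 4, 4, 2]) .no (.hor [.f 809 3 5] []) .no (.con 136
  [2, 4, 4, 2])) .no (.hor [.f 930 3 5] []) .no .no) (.red [.f 938 5 3, .f 938 3 1, .t 1073 3 2]
  135 136 [4] [(134, 136, [4, 4]), (135, 136, [4])]) .no) .no (.br 704 .no (.use 252) (.hor [.f
  704 3 1, .f 704 1 5] [(105, 104, [3])]) (.red [.t 704 4 1, .t 833 4 1, .f 954 3 1] 136 136 []
  [(104, 136, [2, 2]), (120, 136, [2]), (136, 136, [])]) .no .no)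

def c10t254 : Tr4 :=
  .br 945 .no .no .no (.br 938 .no (.red [.t 937 3 2] 118 136 [2, 4, 4] [(118, 136, [2, 4, 4])])
  .no (.br 939 (.red [.t 1066 3 2, .t 1073 3 2] 135 136 [4] [(134, 136, [4, 4]), (135, 136, [4])])
  (.br 936 (.con 136 [2, 4, 4, 4]) (.br 810 .no (.br 689 .no (.red [.f 561 1 3] 87 136 [2, 2, 2,
  4] [(87, 136, [2, 2, 2, 4])]) .no (.con 136 [2, 2, 4, 4, 2]) (.red [.f 689 5 1, .f 690 1 3] 103
  136 [2, 2, 4] [(103, 136, [2, 2, 4])]) .no) .no (.red [.f 802 3 1, .f 810 1 5] 117 136 [2, 4, 4,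
  4] [(117, 136, [2, 4, 4, 4])]) .no (.hor [.f 809 5 3, .f 809 3 1, .f 808 1 5, .t 810 3 1, .f 817
  1 5] [])) .no (.con 136 [2, 4, 4, 4]) .no .no) .no (.hor [.f 930 3 5] []) .no .no) (.red [.f 938
  5 3, .f 938 3 1, .t 1073 3 2] 135 136 [4] [(134, 136, [4, 4]), (135, 136, [4])]) .no) .no .no

def c10t255 : Tr4 :=
  .br 937 .no (.br 938 .no (.hor [.f 809 1 5] []) .no (.con 136 [2, 4, 4, 4]) .no .no) .no (.red
  [.f 929 3 1] 133 136 [4, 4, 4] [(133, 136, [4, 4, 4])]) (.br 689 .no (.red [.f 561 1 3] 87 136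
  [2, 2, 2, 4] [(87, 136, [2, 2, 2, 4])]) .no (.br 936 .no (.br 810 .no (.con 136 [2, 2, 4, 4, 2])
  .no (.br 930 (.red [.t 1057 3 2, .f 802 3 1, .f 810 1 5] 117 136 [2, 4, 4, 4] [(117, 136, [2, 4,
  4, 4]), (133, 136, [4, 4, 4])]) .no .no (.br 929 .no (.con 136 [2, 2, 4, 4, 4, 1]) .no (.hor [.f
  921 3 5] []) .no (.br 931 (.con 136 [4, 4, 4, 4]) (.red [.f 803 1 3, .f 802 3 5] 117 136 [2, 4,
  4, 4] [(117, 136, [2, 4, 4, 4])]) .no (.hor [.f 922 3 5] []) .no .no)) (.red [.t 810 4 1] 117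
  136 [2, 4, 4, 4] [(117, 136, [2, 4, 4, 4])]) (.red [.f 929 5 3, .f 802 3 1] 117 136 [2, 4, 4, 4]
  [(117, 136, [2, 4, 4, 4])])) .no (.hor [.f 809 5 1, .f 808 1 5, .f 810 1 5] [])) .no (.con 136
  [2, 4, 4, 4]) .no .no) (.red [.f 689 5 1, .f 690 1 3] 103 136 [2, 2, 4] [(103, 136, [2, 2, 4])])
  .no) (.red [.f 936 5 3, .f 936 3 1] 134 136 [4, 4] [(134, 136, [4, 4])])

def c10t256 : Tr4 :=
  .br 930 (.red [.t 1057 3 2, .f 802 3 1] 133 136 [2, 4, 4, 1, 4] [(117, 136, [2, 4, 4, 4]), (133,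
  136, [4, 4, 4])]) .no .no (.hor [.f 921 3 5] []) .no .no

def c10t257 : Tr4 :=
  .br 819 .no (.con 136 [2, 2, 4, 2]) .no (.br 810 .no (.con 136 [2, 2, 4, 4, 2]) .no (.br 929 .no
  (.con 136 [2, 2, 4, 4, 4, 1]) .no (.use 256) (.red [.f 929 5 3, .f 802 3 1, .t 810 1 3, .f 819 1
  3] 119 136 [2, 4] [(117, 136, [2, 4, 4, 4]), (118, 136, [2, 4, 4]), (119, 136, [2, 4])]) (.con
  136 [2, 2, 4, 4, 4, 1, 1])) .no (.red [.f 809 5 1, .t 810 1 3, .f 819 1 3] 119 136 [2, 4] [(118,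
  136, [2, 4, 4]), (119, 136, [2, 4])])) .no .no

def c10t258 : Tr4 :=
  .br 938 .no (.br 937 .no (.hor [.f 809 1 5] []) .no (.red [.f 929 3 1, .t 1064 3 2, .t 937 3 2]
  118 136 [2, 4, 4] [(118, 136, [2, 4, 4]), (133, 136, [4, 4, 4]), (134, 136, [4, 4])]) .no (.red
  [.f 936 5 3, .f 936 3 1] 134 136 [4, 4] [(134, 136, [4, 4])])) .no (.hor [.f 930 3 5] []) .no
  (.br 689 .no (.red [.f 561 1 3] 87 136 [2, 2, 2, 4] [(87, 136, [2, 2, 2, 4])]) .no (.use 257)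
  (.red [.f 689 5 1, .f 690 1 3] 103 136 [2, 2, 4] [(103, 136, [2, 2, 4])]) .no)

def c10l9 : List Tr4 :=
  [c10t227, c10t228, c10t229, c10t230, c10t231, c10t232, c10t233, c10t234, c10t235, c10t236,
  c10t237, c10t238, c10t239, c10t240, c10t241, c10t242, c10t243, c10t244, c10t245, c10t246,
  c10t247, c10t248, c10t249, c10t250, c10t251, c10t252, c10t253, c10t254, c10t255, c10t256,
  c10t257, c10t258]

theorem c10k9 : chkLF ⟨4, 0, 0, true, -8⟩ true 0 c10N 227 c10l9 = true := by decide +kernel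

def c10t259 : Tr4 :=
  .br 696 .no (.hor [.f 568 1 5] []) (.red [.t 704 4 1, .t 833 4 1, .f 954 3 1] 136 136 [] [(104,
  136, [2, 2]), (120, 136, [2]), (136, 136, [])]) (.br 1072 (.hor [.f 1072 1 3, .f 1072 3 5]
  [(151, 135, [1])]) (.use 254) .no (.br 944 .no (.con 136 [2, 4, 4]) .no (.use 249) (.br 939
  (.red [.t 1066 3 2, .t 1073 3 2] 135 136 [4] [(134, 136, [4, 4]), (135, 136, [4])]) (.br 1065
  .no (.red [.t 1064 3 2] 134 136 [4, 4] [(134, 136, [4, 4])]) .no (.use 255) .no .no) .no (.br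
  1065 .no (.red [.t 1064 3 2] 134 136 [4, 4] [(134, 136, [4, 4])]) .no (.use 258) .no .no) .no
  (.red [.f 938 5 3, .f 938 3 1, .t 1073 3 2] 135 136 [4] [(134, 136, [4, 4]), (135, 136, [4])]))
  .no) .no .no) .no .no

def c10t260 : Tr4 :=
  .br 819 .no (.con 136 [2, 2, 4, 4]) .no (.red [.t 810 1 3, .f 819 1 3] 119 136 [2, 4] [(118,
  136, [2, 4, 4]), (119, 136, [2, 4])]) .no .no

def c10t261 : Tr4 :=
  .br 947 .no (.red [.f 819 1 3] 119 136 [2, 4] [(119, 136, [2, 4])]) .no (.use 243) .no (.br 826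
  .no (.br 825 .no (.hor [.f 697 1 5] []) .no (.use 236) .no (.br 1210 (.hor [.f 1209 1 5] []) .no
  .no (.br 1201 (.hor [.f 1201 1 3, .f 1073 3 1, .f 1080 1 5] [(151, 135, [1]), (167, 135, [1,
  1])]) .no .no (.br 818 .no (.red [.f 690 1 3] 103 136 [2, 2, 4] [(103, 136, [2, 2, 4])]) .no
  (.use 253) (.red [.f 818 5 1, .f 819 1 3] 119 136 [2, 4] [(119, 136, [2, 4])]) (.br 697 .no
  (.use 259) .no (.red [.t 697 4 1] 103 136 [2, 2, 4] [(103, 136, [2, 2, 4])]) .no (.red [.f 696 5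
  1, .f 697 1 3, .t 833 4 1, .t 697 3 1, .f 954 3 1] 136 136 [] [(120, 136, [2]), (136, 136,
  [])]))) .no (.red [.t 1080 1 4, .f 1080 5 3, .f 952 3 1] 136 136 [] [(136, 136, []), (151, 135,
  [1])])) (.br 818 .no (.red [.f 690 1 3] 103 136 [2, 2, 4] [(103, 136, [2, 2, 4])]) .no (.use
  253) (.red [.f 818 5 1, .f 819 1 3] 119 136 [2, 4] [(119, 136, [2, 4])]) (.br 697 .no (.br 1201
  (.hor [.f 1201 1 3, .f 1073 3 1, .f 1080 1 5] [(151, 135, [1]), (167, 135, [1, 1])]) .no .no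
  (.use 259) (.br 696 .no (.hor [.f 568 1 5] []) (.red [.t 704 4 1, .t 833 4 1, .f 954 3 1] 136
  136 [] [(104, 136, [2, 2]), (120, 136, [2]), (136, 136, [])]) (.br 1072 (.hor [.f 1072 1 3, .f
  1072 3 5] [(151, 135, [1])]) (.use 254) .no (.br 944 .no (.con 136 [2, 4, 4]) .no (.use 249)
  (.br 939 (.red [.t 1066 3 2, .t 1073 3 2] 135 136 [4] [(134, 136, [4, 4]), (135, 136, [4])])
  (.br 1065 (.br 938 .no (.hor [.f 810 1 5] []) .no (.br 937 .no (.con 136 [2, 4, 4, 4]) .no (.hor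
  [.f 929 3 5] []) .no (.con 136 [2, 4, 4, 4])) .no (.red [.t 1065 1 3, .f 937 5 1, .t 1064 3 2]
  134 136 [4, 4] [(134, 136, [4, 4]), (150, 134, [1])])) (.red [.t 1064 3 2] 134 136 [4, 4] [(134,
  136, [4, 4])]) .no (.use 255) .no .no) .no (.br 1065 (.br 938 .no (.use 260) .no (.hor [.f 930 3
  5] []) .no (.red [.t 1065 1 3, .f 937 5 1, .t 1064 3 2] 134 136 [4, 4] [(134, 136, [4, 4]),
  (150, 134, [1])])) (.red [.t 1064 3 2] 134 136 [4, 4] [(134, 136, [4, 4])]) .no (.use 258) .no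
  .no) .no (.red [.f 938 5 3, .f 938 3 1, .t 1073 3 2] 135 136 [4] [(134, 136, [4, 4]), (135, 136,
  [4])])) .no) .no .no) .no .no) (.red [.t 1080 1 4, .f 1080 5 3, .f 952 3 1] 136 136 [] [(136,
  136, []), (151, 135, [1])])) .no (.red [.t 697 4 1] 103 136 [2, 2, 4] [(103, 136, [2, 2, 4])])
  .no (.red [.f 696 5 1, .f 697 1 3, .t 833 4 1, .t 697 3 1, .f 954 3 1] 136 136 [] [(120, 136,
  [2]), (136, 136, [])]))) .no)) .no (.red [.t 826 4 1] 119 136 [2, 4] [(119, 136, [2, 4])]) .no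
  (.red [.f 825 5 1, .f 826 1 5, .f 946 5 3, .f 947 3 1] 135 136 [4] [(135, 136, [4])]))

def c10t262 : Tr4 :=
  .br 825 .no (.hor [.f 697 1 5] []) .no (.br 824 .no (.con 136 [2, 2, 4]) .no (.hor [.f 816 3 5]
  []) .no .no) .no (.red [.f 824 5 3, .t 833 4 1, .f 954 3 1] 136 136 [] [(120, 136, [2]), (136,
  136, [])])

def c10t263 : Tr4 :=
  .br 826 .no (.use 262) .no (.red [.t 826 4 1] 119 136 [2, 4] [(119, 136, [2, 4])]) .no (.red [.f
  825 5 1, .f 826 1 5, .f 946 5 3, .f 947 3 1] 135 136 [4] [(135, 136, [4])])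

def c10t264 : Tr4 :=
  .br 1083 (.br 1209 (.br 1216 (.br 1210 (.hor [.f 1209 1 5] []) .no (.br 1217 (.red [.f 1209 1 3,
  .f 1209 3 5] 168 136 [1, 1] [(168, 136, [1, 1])]) .no (.con 136 [3, 1, 1]) .no .no .no) (.use
  231) .no .no) .no (.br 1210 (.hor [.f 1209 1 5] []) .no (.br 1217 (.red [.f 1209 1 3, .f 1209 3
  5] 168 136 [1, 1] [(168, 136, [1, 1])]) .no (.hor [.f 1216 3 5] []) .no .no .no) (.use 231) .no
  .no) .no (.red [.f 1088 5 1, .f 1080 1 3, .f 952 3 1] 136 136 [] [(136, 136, []), (152, 136,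
  [1])]) .no) .no (.red [.t 1208 2 3, .f 952 3 1] 136 136 [] [(136, 136, []), (152, 136, [1])])
  (.red [.f 1073 3 1, .f 1080 1 5, .f 1080 5 3, .f 952 3 1] 136 136 [] [(136, 136, []), (151, 135,
  [1])]) (.br 1074 (.red [.t 1073 3 1, .f 1080 1 5, .f 1080 5 3, .f 952 3 1] 136 136 [] [(136,
  136, []), (151, 135, [1])]) (.red [.t 1073 3 2] 135 136 [4] [(135, 136, [4])]) .no (.br 1075
  (.br 955 .no (.br 1217 (.use 235) .no (.br 968 (.red [.t 968 1 4, .t 1089 2 4] 136 136 [] [(136,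
  136, []), (137, 136, [3])]) (.use 233) (.br 1096 (.use 238) .no (.br 1216 (.use 239) .no (.use
  234) .no .no .no) .no (.red [.f 1088 5 3, .f 961 3 1, .t 1089 2 4] 136 136 [] [(136, 136, []),
  (137, 136, [3])]) .no) .no .no .no) .no (.red [.f 1209 5 3, .t 1208 2 3, .f 952 3 1] 136 136 []
  [(136, 136, []), (152, 136, [1])]) (.red [.f 1088 5 1, .f 1080 1 3, .f 952 3 1] 136 136 []
  [(136, 136, []), (152, 136, [1])])) .no (.red [.f 1075 1 3, .f 947 3 1] 135 136 [4] [(135, 136,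
  [4]), (151, 136, [4, 1])]) .no .no) (.use 229) .no (.hor [.f 1066 3 5] []) .no .no) (.br 955 .no
  (.use 230) .no (.br 1217 (.br 1096 (.use 51) (.red [.t 968 1 4, .t 1089 2 4] 136 136 [] [(136,
  136, []), (137, 136, [3])]) (.br 1216 (.hor [.f 1216 1 5] []) .no (.use 242) .no .no .no) .no
  (.red [.f 1088 5 3, .f 961 3 1, .t 1089 2 4] 136 136 [] [(136, 136, []), (137, 136, [3])]) .no)
  .no (.br 1096 (.use 238) (.red [.t 968 1 4, .t 1089 2 4] 136 136 [] [(136, 136, []), (137, 136,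
  [3])]) (.br 1216 (.use 239) .no (.use 242) .no .no .no) .no (.red [.f 1088 5 3, .f 961 3 1, .t
  1089 2 4] 136 136 [] [(136, 136, []), (137, 136, [3])]) .no) .no (.red [.f 1209 5 3, .t 1208 2
  3, .f 952 3 1] 136 136 [] [(136, 136, []), (152, 136, [1])]) (.red [.f 1088 5 1, .f 1080 1 3, .f
  952 3 1] 136 136 [] [(136, 136, []), (152, 136, [1])])) .no .no) .no) .no) (.red [.f 955 1 3]
  136 136 [] [(136, 136, [])]) .no (.br 955 .no (.br 1209 (.br 1217 (.use 235) .no (.use 247) .no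
  (.br 833 .no (.br 832 .no (.hor [.f 704 1 5] []) (.br 1074 (.use 248) (.red [.t 1073 3 2] 135
  136 [4] [(135, 136, [4])]) .no (.use 261) .no .no) (.con 136 [2, 2]) .no .no) (.hor [.f 833 3 1,
  .f 833 1 5] [(121, 120, [3])]) (.red [.t 833 4 1, .f 954 3 1] 136 136 [] [(120, 136, [2]), (136,
  136, [])]) .no (.br 1074 (.use 248) (.red [.t 1073 3 2] 135 136 [4] [(135, 136, [4])]) .no (.br
  947 .no (.red [.f 819 1 3] 119 136 [2, 4] [(119, 136, [2, 4])]) .no (.use 243) .no (.use 263))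
  .no .no)) (.red [.f 1088 5 1, .f 1080 1 3, .f 952 3 1] 136 136 [] [(136, 136, []), (152, 136,
  [1])])) .no (.red [.t 1208 2 3, .f 952 3 1] 136 136 [] [(136, 136, []), (152, 136, [1])]) (.hor
  [.f 1073 3 1, .f 1080 1 5] [(151, 135, [1])]) (.br 1217 (.use 235) .no (.use 247) .no (.red [.f
  1209 5 3, .t 1208 2 3, .f 952 3 1] 136 136 [] [(136, 136, []), (152, 136, [1])]) (.red [.f 1088
  5 1, .f 1080 1 3, .f 952 3 1] 136 136 [] [(136, 136, []), (152, 136, [1])])) .no) .no (.red [.f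
  947 3 1, .f 955 1 3] 136 136 [] [(135, 136, [4]), (136, 136, [])]) .no .no) .no .no

def c10t265 : Tr4 :=
  .br 832 .no (.hor [.f 704 1 5] []) .no (.hor [.f 824 3 1, .f 824 1 5] [(120, 104, [1])]) .no .no

def c10t266 : Tr4 :=
  .br 938 .no .no .no (.hor [.f 929 3 5] []) .no .no

def c10t267 : Tr4 :=
  .br 947 .no (.hor [.f 818 1 5] []) .no (.con 136 [4, 2, 4]) .no .no

def c10t268 : Tr4 :=
  .br 962 .no (.hor [.f 833 1 5] []) (.con 136 [3, 2]) .no .no .no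

def c10t269 : Tr4 :=
  .br 833 .no (.hor [.f 705 1 5] []) (.hor [.f 698 1 3, .f 826 3 5] [(104, 105, [4])]) .no .no
  (.hor [.f 698 1 3, .f 826 3 5] [(104, 105, [4])])

def c10t270 : Tr4 :=
  .br 944 .no (.con 136 [4, 2, 4]) .no (.br 938 .no (.hor [.f 809 1 5] []) .no (.con 136 [4, 2, 4,
  4]) .no .no) .no .no

def c10t271 : Tr4 :=
  .br 937 .no (.use 270) .no (.red [.f 929 3 1] 133 136 [4, 4, 4] [(133, 136, [4, 4, 4])]) (.red
  [.f 937 5 3, .f 938 3 1] 134 136 [4, 4] [(134, 136, [4, 4])]) (.con 136 [4, 4, 2])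

def c10t272 : Tr4 :=
  .br 827 .no (.con 136 [2, 2]) (.hor [.f 826 3 5] []) (.con 136 [2, 2]) .no .no

def c10t273 : Tr4 :=
  .br 944 .no (.br 947 .no (.red [.f 826 5 1, .f 819 1 3] 119 136 [2, 4] [(119, 136, [2, 4])]) .no
  (.con 136 [2, 4, 4]) .no .no) .no (.red [.f 1064 5 3, .f 936 3 1] 134 136 [4, 4] [(134, 136, [4,
  4])]) .no .no

def c10t274 : Tr4 :=
  .br 1219 (.hor [.f 1217 1 3, .f 1216 3 5] [(169, 153, [1])]) .no (.br 1226 (.hor [.f 1225 1 5]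
  []) .no (.con 136 [3, 1, 3, 1]) .no .no .no) .no .no .no

def c10t275 : Tr4 :=
  .br 1336 (.red [.f 1336 1 3] 184 136 [1, 1, 1] [(184, 136, [1, 1, 1])]) .no .no (.br 1330 (.br
  1203 (.con 136 [4, 4, 1, 1]) .no .no (.hor [.f 1194 3 5] []) .no .no) .no .no (.red [.f 1194 3
  1, .t 1201 3 1] 167 136 [4, 1, 1] [(166, 136, [4, 4, 1, 1]), (167, 136, [4, 1, 1])]) (.con 136
  [4, 1, 1, 1]) (.red [.f 1329 5 3, .f 1201 3 1, .f 1209 1 3] 168 136 [1, 1] [(167, 136, [4, 1,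
  1]), (168, 136, [1, 1])])) .no .no

def c10t276 : Tr4 :=
  .br 1226 (.hor [.f 1219 3 1, .f 1226 1 5] [(169, 136, [3, 1, 1])]) .no (.hor [.f 1225 3 5] [])
  .no .no .no

def c10t277 : Tr4 :=
  .br 1225 (.use 274) .no (.br 1219 (.br 1344 (.br 1337 (.br 1338 (.hor [.f 1337 1 5] []) .no
  (.red [.t 1346 4 2] 168 136 [1, 1] [(168, 136, [1, 1])]) (.br 1336 (.hor [.f 1336 1 5] []) .no
  .no (.con 136 [4, 1, 1, 1]) .no .no) (.red [.f 1210 5 1, .f 1211 1 3] 168 136 [1, 1] [(168, 136,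
  [1, 1])]) .no) .no .no (.red [.f 1201 3 1, .f 1209 1 3] 168 136 [1, 1] [(167, 136, [4, 1, 1]),
  (168, 136, [1, 1])]) (.br 1202 (.red [.f 1073 5 3, .t 1201 3 1] 167 136 [4, 1, 1] [(167, 136,
  [4, 1, 1])]) .no .no (.use 275) (.red [.f 1202 5 3, .f 1073 5 3, .f 1074 3 1, .f 1082 1 3] 152
  136 [1] [(151, 136, [4, 1]), (152, 136, [1])]) .no) (.red [.f 1072 1 3, .f 1200 3 5, .f 1208 5
  1, .f 1209 1 3] 168 136 [1, 1] [(151, 135, [1]), (168, 136, [1, 1])])) .no (.hor [.f 1216 3 1,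
  .f 1216 1 5] [(169, 153, [1])]) (.red [.f 1072 1 3, .f 1200 3 5, .t 1344 4 2] 168 136 [1, 1]
  [(151, 135, [1]), (168, 136, [1, 1])]) .no .no) .no (.br 1337 (.br 1336 (.hor [.f 1336 1 5] [])
  .no (.red [.f 1072 1 3, .f 1200 3 5, .t 1344 4 2] 168 136 [1, 1] [(151, 135, [1]), (168, 136,
  [1, 1])]) (.br 1338 (.hor [.f 1337 1 5] []) .no (.br 1203 (.con 136 [4, 1, 1, 1]) .no .no (.br
  1347 (.br 1202 (.br 1339 (.con 136 [4, 1, 1, 1]) .no .no (.red [.t 1330 2 3, .f 1201 3 5] 167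
  136 [4, 1, 1] [(167, 136, [4, 1, 1])]) .no .no) .no .no (.hor [.f 1194 3 5] []) .no .no) .no
  (.red [.f 1219 3 1, .t 1346 4 2] 168 136 [1, 1] [(168, 136, [1, 1]), (169, 136, [3, 1, 1])])
  (.con 136 [4, 1, 1, 1]) .no .no) .no (.red [.f 1202 5 3, .f 1073 5 3, .f 1074 3 1, .f 1082 1 3]
  152 136 [1] [(151, 136, [4, 1]), (152, 136, [1])])) (.con 136 [4, 1, 1, 1]) (.con 136 [4, 1, 1,
  1]) .no) .no .no) .no .no (.red [.f 1201 3 1, .f 1209 1 3] 168 136 [1, 1] [(167, 136, [4, 1,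
  1]), (168, 136, [1, 1])]) (.br 1202 (.red [.f 1073 5 3, .t 1201 3 1] 167 136 [4, 1, 1] [(167,
  136, [4, 1, 1])]) .no .no (.br 1344 (.use 275) .no (.br 1347 (.con 136 [3, 1, 1, 1]) .no (.use
  276) (.con 136 [1, 1, 1]) .no (.con 136 [3, 1, 1, 1])) (.red [.f 1072 1 3, .f 1200 3 5, .t 1344
  4 2] 168 136 [1, 1] [(151, 135, [1]), (168, 136, [1, 1])]) .no .no) (.red [.f 1202 5 3, .f 1073
  5 3, .f 1074 3 1, .f 1082 1 3] 152 136 [1] [(151, 136, [4, 1]), (152, 136, [1])]) .no) (.red [.f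
  1072 1 3, .f 1200 3 5, .f 1208 5 1, .f 1209 1 3] 168 136 [1, 1] [(151, 135, [1]), (168, 136, [1,
  1])])) .no .no .no) .no (.red [.f 1097 5 1, .t 1224 4 2, .f 1080 1 3] 152 136 [1] [(152, 136,
  [1]), (153, 136, [3, 1])]) .no

def c10t278 : Tr4 :=
  .br 936 .no .no .no (.hor [.f 928 3 5] []) .no .no

def c10t279 : Tr4 :=
  .br 1072 (.br 947 .no (.br 826 .no (.br 827 .no (.hor [.f 698 1 5] []) (.br 834 .no (.use 269)
  (.br 1096 .no (.br 969 (.hor [.f 968 1 5] []) (.red [.t 841 1 4, .t 834 1 4, .f 819 1 3] 119 136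
  [2, 4] [(119, 136, [2, 4]), (120, 136, [2]), (121, 136, [2, 3])]) (.br 1097 (.red [.t 1224 4 2,
  .f 1080 1 3, .f 952 3 1] 136 136 [] [(136, 136, []), (152, 136, [1]), (153, 136, [3, 1])]) .no
  (.br 1098 (.hor [.f 969 3 1, .f 968 1 5] [(138, 154, [2])]) (.hor [.f 969 3 1, .f 968 1 5]
  [(138, 122, [1])]) (.hor [.f 1097 3 5] []) .no (.hor [.f 969 3 1, .f 968 1 5] [(138, 137, [3])])
  .no) .no (.use 277) .no) .no (.red [.f 961 5 3, .f 834 3 1, .t 834 1 4, .f 819 1 3] 119 136 [2,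
  4] [(119, 136, [2, 4]), (120, 136, [2]), (121, 136, [2, 3])]) .no) (.br 1097 (.red [.t 1224 4 2,
  .f 1080 1 3, .f 952 3 1] 136 136 [] [(136, 136, []), (152, 136, [1]), (153, 136, [3, 1])]) (.br
  1098 (.con 136 [3, 3]) (.hor [.f 969 1 5] []) (.con 136 [3, 3]) .no (.con 136 [3, 3]) .no) (.hor
  [.f 1096 3 5] []) .no (.use 277) .no) .no (.red [.f 1088 5 3, .f 1088 3 1, .f 1080 1 3] 152 136
  [1] [(152, 136, [1]), (153, 136, [3, 1])]) .no) .no .no (.red [.f 833 5 1, .t 834 1 4, .f 819 1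
  3] 119 136 [2, 4] [(119, 136, [2, 4]), (120, 136, [2])])) .no .no .no) (.use 272) (.red [.t 818
  3 1, .f 825 1 5] 119 136 [2, 4] [(119, 136, [2, 4])]) (.red [.f 826 5 1, .f 819 1 3] 119 136 [2,
  4] [(119, 136, [2, 4])]) .no) .no (.hor [.f 938 3 5] []) .no .no) .no .no (.br 824 .no (.br 947
  .no (.br 826 .no (.br 818 .no (.red [.f 690 1 3] 103 136 [2, 4, 2] [(103, 136, [2, 4, 2])]) .no
  (.red [.f 810 3 1, .f 818 1 5, .f 946 5 3, .f 947 3 1] 135 136 [4] [(118, 119, [4]), (135, 136,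
  [4])]) .no (.br 937 (.red [.t 1064 3 2, .f 937 3 5] 134 136 [4, 4] [(134, 136, [4, 4])]) (.red
  [.t 937 2 3, .f 818 1 5, .f 946 5 3, .f 947 3 1] 135 136 [4] [(118, 119, [4]), (135, 136, [4])])
  .no (.br 816 .no (.red [.f 688 1 3] 103 136 [2, 4, 2] [(103, 136, [2, 4, 2])]) .no (.use 278)
  .no .no) .no (.red [.f 936 5 3, .f 936 3 1] 134 136 [4, 4] [(134, 136, [4, 4])]))) (.use 272)
  (.red [.t 818 3 1, .f 825 1 5] 119 136 [2, 4] [(119, 136, [2, 4])]) (.red [.f 826 5 1, .f 819 1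
  3] 119 136 [2, 4] [(119, 136, [2, 4])]) .no) .no (.hor [.f 938 3 5] []) .no .no) (.br 827 .no
  (.con 136 [2, 2]) (.br 947 .no (.br 826 .no (.br 834 .no (.use 269) (.br 818 .no (.red [.f 690 1
  3] 103 136 [2, 2, 4] [(103, 136, [2, 2, 4])]) .no (.red [.f 810 3 1, .f 818 1 5, .f 946 5 3, .f
  947 3 1] 135 136 [4] [(118, 119, [4]), (135, 136, [4])]) .no (.br 937 (.red [.t 1064 3 2, .f 937
  3 5] 134 136 [4, 4] [(134, 136, [4, 4])]) (.red [.t 937 2 3, .f 818 1 5, .f 946 5 3, .f 947 3 1]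
  135 136 [4] [(118, 119, [4]), (135, 136, [4])]) .no (.br 833 .no (.br 697 .no (.br 696 .no (.hor
  [.f 568 1 5] []) (.hor [.f 696 3 1, .f 704 1 5] [(104, 136, [2, 2])]) (.br 936 .no (.con 136 [2,
  2, 4, 4, 1, 3]) .no (.hor [.f 928 3 5] []) .no .no) .no .no) .no (.red [.t 697 4 1] 103 136 [2,
  2, 4] [(103, 136, [2, 2, 4])]) .no (.br 816 .no (.red [.t 832 4 2, .f 688 1 3] 103 136 [2, 2, 4]
  [(103, 136, [2, 2, 4]), (104, 136, [2, 2])]) .no (.use 278) .no .no)) (.hor [.f 833 3 5] []) .no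
  .no .no) .no (.red [.f 936 5 3, .f 936 3 1] 134 136 [4, 4] [(134, 136, [4, 4])]))) .no .no (.red
  [.f 833 5 1, .t 834 1 4, .f 819 1 3] 119 136 [2, 4] [(119, 136, [2, 4]), (120, 136, [2])]))
  (.con 136 [2, 2]) (.red [.t 818 3 1, .f 825 1 5] 119 136 [2, 4] [(119, 136, [2, 4])]) .no .no)
  .no (.hor [.f 938 3 5] []) .no .no) (.con 136 [2, 2]) .no (.con 136 [2, 2])) (.red [.t 824 4 1]
  119 136 [2, 4] [(119, 136, [2, 4])]) .no .no) .no .no

def c10l10 : List Tr4 :=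
  [c10t259, c10t260, c10t261, c10t262, c10t263, c10t264, c10t265, c10t266, c10t267, c10t268,
  c10t269, c10t270, c10t271, c10t272, c10t273, c10t274, c10t275, c10t276, c10t277, c10t278,
  c10t279]

theorem c10k10 : chkLF ⟨4, 0, 0, true, -8⟩ true 0 c10N 259 c10l10 = true := by decide +kernel

def c10t280 : Tr4 :=
  .br 1074 (.red [.t 1201 3 2, .f 1074 3 5, .f 954 5 1, .f 955 1 3] 136 136 [] [(136, 136, []),
  (151, 135, [1])]) (.red [.t 1074 2 3, .f 955 1 3] 136 136 [] [(135, 136, [4]), (136, 136, [])])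
  .no (.br 1073 .no (.use 204) .no (.hor [.f 1065 3 5] []) .no (.br 946 .no (.br 945 .no (.hor [.f
  817 1 5] []) .no (.use 100) .no (.use 267)) .no (.red [.f 938 3 1] 134 136 [4, 4] [(134, 136,
  [4, 4])]) (.red [.f 946 5 3, .f 947 3 1, .f 955 1 3] 136 136 [] [(135, 136, [4]), (136, 136,
  [])]) (.br 826 .no (.br 1065 (.red [.t 1208 2 4, .f 1065 1 3, .f 1065 3 5, .f 945 5 1, .t 1074 2
  3] 135 136 [4] [(135, 136, [4]), (150, 134, [1]), (151, 135, [1])]) (.red [.t 1065 2 3, .t 1074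
  2 3] 135 136 [4] [(134, 136, [4, 4]), (135, 136, [4])]) .no (.br 947 .no (.br 818 .no (.red [.f
  690 1 3, .t 818 3 1] 119 136 [2, 4] [(103, 136, [2, 4, 2]), (119, 136, [2, 4])]) .no (.br 937
  .no (.red [.t 809 1 3, .f 818 1 5, .f 946 5 3, .f 947 3 1] 135 136 [4] [(118, 102, [1]), (135,
  136, [4])]) .no (.br 938 .no .no .no (.hor [.f 929 3 5] []) (.red [.f 929 3 1] 133 136 [4, 4, 4]
  [(133, 136, [4, 4, 4])]) .no) (.red [.f 937 5 3, .f 938 3 1] 134 136 [4, 4] [(134, 136, [4,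
  4])]) (.br 817 .no (.con 136 [4, 4, 2, 2]) .no (.hor [.f 809 3 5] []) .no (.con 136 [4, 4, 2,
  2]))) .no (.red [.f 817 5 1, .f 818 1 5, .f 946 5 3, .f 947 3 1] 135 136 [4] [(135, 136, [4])]))
  .no (.use 271) .no .no) .no (.br 944 .no (.br 818 .no (.red [.f 690 1 3] 103 136 [2, 4, 2]
  [(103, 136, [2, 4, 2])]) .no (.br 936 .no (.red [.f 808 1 3] 118 136 [2, 4, 4] [(118, 136, [2,
  4, 4])]) .no (.br 937 .no (.con 136 [2, 4, 4, 4]) .no (.hor [.f 928 3 5] []) (.red [.f 937 5 3,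
  .f 938 3 1] 134 136 [4, 4] [(134, 136, [4, 4])]) .no) (.red [.f 936 5 1, .t 1065 2 3] 134 136
  [4, 4] [(134, 136, [4, 4])]) .no) (.con 136 [2, 4, 4]) (.red [.f 817 5 1, .f 817 1 3] 119 136
  [2, 4] [(119, 136, [2, 4])])) .no (.red [.f 1064 5 3, .f 936 3 1] 134 136 [4, 4] [(134, 136, [4,
  4])]) .no .no)) (.use 272) (.red [.t 825 1 4] 119 136 [2, 4] [(119, 136, [2, 4])]) (.br 1065
  (.red [.t 1208 2 4, .f 1065 1 3, .f 1065 3 5, .f 945 5 1, .t 1074 2 3] 135 136 [4] [(135, 136,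
  [4]), (150, 134, [1]), (151, 135, [1])]) (.red [.t 1065 2 3, .t 1074 2 3] 135 136 [4] [(134,
  136, [4, 4]), (135, 136, [4])]) .no (.br 947 .no (.red [.f 826 5 1, .f 819 1 3] 119 136 [2, 4]
  [(119, 136, [2, 4])]) .no (.use 271) .no .no) .no (.use 273)) .no))) .no (.br 961 .no (.use 268)
  (.br 1216 (.hor [.f 1216 1 5] []) .no (.br 962 .no (.br 1096 .no (.red [.t 968 1 4, .f 1088 3 1,
  .f 1080 1 3] 152 136 [1] [(137, 136, [3]), (152, 136, [1]), (153, 136, [3, 1])]) (.br 1097 (.red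
  [.t 1224 4 2, .f 1080 1 3, .f 952 3 1] 136 136 [] [(136, 136, []), (152, 136, [1]), (153, 136,
  [3, 1])]) .no (.hor [.f 1096 3 5] []) .no (.br 968 .no (.br 833 .no (.br 832 .no (.hor [.f 704 1
  5] []) .no (.br 827 .no (.con 136 [2, 2]) (.hor [.f 824 3 1, .f 824 1 5, .t 834 1 4] []) (.con
  136 [2, 2]) .no (.con 136 [2, 2])) .no .no) (.hor [.f 833 3 1, .f 833 1 5] [(121, 105, [1])])
  .no .no (.hor [.t 968 2 4, .f 833 1 5] [(121, 120, [3])])) (.red [.f 968 3 1, .t 968 1 4, .f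
  1088 3 1, .f 1080 1 3] 152 136 [1] [(137, 136, [3]), (138, 136, [3, 3]), (152, 136, [1]), (153,
  136, [3, 1])]) .no .no .no) .no) .no (.red [.f 1088 5 3, .f 1088 3 1, .f 1080 1 3] 152 136 [1]
  [(152, 136, [1]), (153, 136, [3, 1])]) .no) (.hor [.f 961 3 5] []) .no .no .no) .no .no .no) .no
  (.br 945 .no (.red [.f 817 1 3] 119 136 [2, 4] [(119, 136, [2, 4])]) .no (.br 946 .no (.use 100)
  .no (.hor [.f 937 3 5] []) (.red [.f 946 5 3, .f 947 3 1, .f 955 1 3] 136 136 [] [(135, 136,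
  [4]), (136, 136, [])]) .no) (.red [.f 945 5 1, .t 1074 2 3, .f 955 1 3] 136 136 [] [(135, 136,
  [4]), (136, 136, [])]) (.br 946 .no (.use 267) .no (.br 1216 (.hor [.f 1216 1 5] []) .no (.br
  1210 (.br 1211 (.hor [.f 1210 1 5] []) .no (.red [.f 1073 5 3, .f 1074 3 5, .t 1218 2 4] 152 136
  [1] [(152, 136, [1])]) (.con 136 [4, 1, 1]) .no .no) .no .no (.red [.f 1073 5 3, .f 1074 3 1, .f
  1082 1 3] 152 136 [1] [(151, 136, [4, 1]), (152, 136, [1])]) (.use 279) .no) .no .no .no) (.red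
  [.f 946 5 3, .f 947 3 1, .f 955 1 3] 136 136 [] [(135, 136, [4]), (136, 136, [])]) .no)) .no)

def c10t281 : Tr4 :=
  .br 955 .no (.hor [.f 826 1 5] []) .no (.red [.f 947 3 1, .f 955 1 3] 136 136 [] [(135, 136,
  [4]), (136, 136, [])]) .no .no

def c10t282 : Tr4 :=
  .br 816 .no (.red [.f 688 1 3] 103 136 [2, 2, 4] [(103, 136, [2, 2, 4])]) .no (.use 47) .no .no

def c10t283 : Tr4 :=
  .br 1336 (.hor [.f 1336 1 5] []) .no (.red [.t 1208 2 4, .t 1344 4 2, .t 1217 4 2] 152 136 [1]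
  [(151, 135, [1]), (152, 136, [1]), (168, 136, [1, 1])]) .no .no .no

def c10t284 : Tr4 :=
  .br 1337 (.use 283) .no .no (.red [.t 1208 2 4, .t 1072 3 1, .f 1201 3 1] 167 136 [4, 1, 1]
  [(167, 136, [4, 1, 1])]) .no (.red [.t 1208 2 4, .t 1072 3 1, .t 1200 1 3] 167 136 [4, 1, 1]
  [(167, 136, [4, 1, 1])])

def c10t285 : Tr4 :=
  .br 1200 (.use 284) .no .no (.red [.t 1192 3 2, .f 1065 3 5, .f 1073 5 3, .f 945 3 1] 135 136
  [4] [(135, 136, [4]), (150, 134, [1])]) .no .no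

def c10t286 : Tr4 :=
  .br 817 .no .no .no (.red [.t 817 4 1] 118 136 [4, 2, 4] [(118, 136, [4, 2, 4])]) .no .no

def c10t287 : Tr4 :=
  .br 811 .no (.hor [.f 682 1 5] []) .no (.con 136 [4, 2, 4, 2, 4]) .no .no

def c10t288 : Tr4 :=
  .br 811 .no (.red [.f 683 1 3] 102 136 [4, 2, 2, 4] [(102, 136, [4, 2, 2, 4])]) .no (.use 195)
  .no .no

def c10t289 : Tr4 :=
  .br 819 .no (.br 817 .no (.br 816 .no (.hor [.f 688 1 5] []) .no (.con 136 [4, 2, 2, 4]) .no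
  .no) .no (.red [.t 817 4 1] 118 136 [4, 2, 4] [(118, 136, [4, 2, 4])]) .no (.br 809 .no (.br 810
  .no (.hor [.f 681 1 5] []) .no (.use 288) (.red [.f 816 5 3, .t 946 2 4] 118 136 [4, 2, 4]
  [(118, 136, [4, 2, 4])]) .no) .no (.br 810 .no (.use 287) .no (.hor [.f 801 3 5] []) (.red [.f
  816 5 3, .t 946 2 4] 118 136 [4, 2, 4] [(118, 136, [4, 2, 4])]) .no) (.use 187) (.red [.f 816 5
  3, .f 816 3 5, .f 808 5 3, .t 817 4 1, .f 938 3 1] 118 136 [4, 2, 4] [(118, 136, [4, 2, 4]),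
  (134, 136, [4, 4])]))) .no (.red [.f 811 3 1, .f 818 1 5] 118 136 [4, 2, 4] [(118, 136, [4, 2,
  4])]) .no .no

def c10t290 : Tr4 :=
  .br 809 .no (.hor [.f 681 1 5] []) .no (.use 287) .no (.hor [.f 808 5 3, .f 808 3 1, .t 817 4 1,
  .f 808 1 5, .f 938 3 5] [])

def c10t291 : Tr4 :=
  .br 688 .no (.hor [.f 560 1 3, .f 688 3 1, .f 688 1 5] [(87, 102, [3, 2]), (103, 102, [3])]) .no
  (.red [.t 688 4 1] 102 136 [2, 4, 2, 4] [(102, 136, [2, 4, 2, 4])]) .no .no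

def c10t292 : Tr4 :=
  .br 811 .no (.red [.f 683 1 3] 102 136 [2, 2, 4, 4] [(102, 136, [2, 2, 4, 4])]) .no (.br 809 .no
  (.red [.f 681 1 3] 102 136 [2, 2, 4, 4] [(102, 136, [2, 2, 4, 4])]) .no (.use 197) (.use 187)
  (.use 291)) .no (.red [.f 697 5 1, .t 946 2 4] 118 136 [2, 4, 4] [(118, 136, [2, 4, 4])])

def c10t293 : Tr4 :=
  .br 810 .no (.use 287) .no (.hor [.f 801 3 5] []) (.red [.f 825 5 3, .t 946 2 4] 118 136 [4, 2,
  4] [(118, 136, [4, 2, 4])]) .no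

def c10t294 : Tr4 :=
  .br 809 .no (.red [.f 681 1 3] 102 136 [2, 2, 4, 4] [(102, 136, [2, 2, 4, 4])]) .no (.use 293)
  (.use 187) (.red [.t 816 3 2, .f 808 5 3, .t 817 4 1] 118 136 [2, 4, 4] [(103, 102, [3]), (118,
  136, [2, 4, 4])])

def c10t295 : Tr4 :=
  .br 833 .no (.hor [.f 704 1 5] []) (.hor [.f 833 3 1, .f 840 1 5] [(121, 137, [2])]) (.br 824
  .no (.hor [.f 696 1 3, .f 824 3 5] [(104, 136, [2, 2])]) .no (.br 826 .no (.br 696 .no (.br 697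
  .no (.hor [.f 568 1 5] []) (.hor [.f 697 3 1, .f 697 1 5] [(104, 88, [1])]) (.use 286) .no .no)
  .no (.hor [.f 688 3 1, .f 696 1 3, .f 824 3 5] [(103, 118, [3, 2]), (104, 120, [2])]) (.hor [.t
  832 2 4, .f 697 1 5] [(104, 120, [2])]) .no) (.hor [.f 825 3 5] []) .no .no .no) .no .no) (.br
  944 .no (.con 136 [2, 4, 4]) .no (.br 826 .no (.br 825 .no (.hor [.f 697 1 5] []) .no (.br 824
  .no (.use 282) .no (.hor [.f 816 3 5] []) .no .no) .no (.use 289)) .no .no .no (.br 819 .no (.br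
  824 .no (.br 816 .no (.br 817 .no (.hor [.f 688 1 5] []) .no (.red [.f 825 5 3, .t 817 4 1] 118
  136 [2, 4, 4] [(118, 136, [2, 4, 4])]) .no .no) .no (.use 194) (.br 810 .no (.use 290) .no (.use
  288) (.red [.f 825 5 3, .t 946 2 4] 118 136 [2, 4, 4] [(118, 136, [2, 4, 4])]) (.use 187)) .no)
  .no (.br 817 .no (.br 705 .no (.br 696 .no (.br 697 .no (.hor [.f 568 1 5] []) .no .no (.use
  292) .no) .no (.hor [.f 688 3 1, .f 688 1 5] [(103, 102, [3])]) (.use 294) .no) (.br 696 .no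
  (.br 809 .no (.red [.f 681 1 3] 102 136 [2, 2, 4, 4] [(102, 136, [2, 2, 4, 4])]) .no (.use 293)
  (.use 187) (.br 697 .no (.hor [.f 568 1 5] []) .no .no (.use 291) .no)) .no (.hor [.f 688 3 1,
  .f 688 1 5] [(103, 102, [3])]) (.use 294) .no) (.hor [.f 825 5 3, .f 697 3 1, .f 689 1 3, .f 704
  1 5, .f 816 3 5] [(103, 102, [3]), (104, 102, [3, 3])]) (.br 696 .no (.br 697 .no (.hor [.f 568
  1 5] []) .no .no (.use 292) .no) .no (.hor [.f 688 3 1, .f 688 1 5] [(103, 102, [3])]) (.use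
  294) .no) .no) .no (.red [.f 825 5 3, .t 817 4 1] 118 136 [2, 4, 4] [(118, 136, [2, 4, 4])]) .no
  .no) .no .no) .no (.red [.t 945 3 2, .f 811 3 1, .f 819 1 3] 118 136 [2, 4, 4] [(118, 136, [2,
  4, 4])]) .no .no)) .no .no) .no

def c10t296 : Tr4 :=
  .br 944 .no (.con 136 [2, 4, 4]) .no (.br 816 .no (.br 817 .no (.hor [.f 688 1 5] []) .no (.red
  [.t 817 4 1] 118 136 [2, 4, 4] [(118, 136, [2, 4, 4])]) .no .no) .no (.use 194) (.br 810 .no
  (.use 290) .no (.use 288) (.red [.t 945 3 2, .t 825 1 4, .t 946 2 4] 118 136 [2, 4, 4] [(118,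
  136, [2, 4, 4])]) (.use 187)) .no) .no .no

def c10t297 : Tr4 :=
  .br 811 .no (.hor [.f 682 1 5] []) .no (.con 136 [4, 1, 4, 2, 2, 2, 4]) .no .no

def c10t298 : Tr4 :=
  .br 811 .no (.red [.f 683 1 3] 102 136 [4, 2, 4, 2] [(102, 136, [4, 2, 4, 2])]) .no (.hor [.f
  802 3 5] []) .no .no

def c10t299 : Tr4 :=
  .br 819 .no (.br 824 .no (.use 296) .no (.br 817 .no (.br 810 .no (.br 809 .no (.hor [.f 681 1
  5] []) .no (.use 287) .no (.use 297)) .no (.use 298) (.red [.t 945 3 2, .t 825 1 4, .t 946 2 4]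
  118 136 [2, 4, 4] [(118, 136, [2, 4, 4])]) (.red [.f 809 5 1, .f 810 1 3] 118 136 [2, 4, 4]
  [(118, 136, [2, 4, 4])])) .no (.red [.t 817 4 1] 118 136 [2, 4, 4] [(118, 136, [2, 4, 4])]) .no
  .no) .no .no) .no (.red [.t 945 3 2, .f 811 3 1, .f 819 1 3] 118 136 [2, 4, 4] [(118, 136, [2,
  4, 4])]) .no .no

def c10t300 : Tr4 :=
  .br 824 .no (.hor [.f 696 1 5] []) .no (.br 817 .no (.hor [.f 689 1 3, .f 816 3 5] [(103, 118,
  [3, 2])]) .no (.red [.t 817 4 1] 118 136 [2, 4, 4] [(118, 136, [2, 4, 4])]) .no .no) .no .no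

def c10t301 : Tr4 :=
  .br 824 .no (.br 816 .no (.red [.f 688 1 3] 103 136 [4, 2, 2] [(103, 136, [4, 2, 2])]) .no (.use
  47) .no .no) .no (.hor [.f 816 3 5] []) .no .no

def c10t302 : Tr4 :=
  .br 1065 (.use 285) (.red [.t 936 3 1, .f 1065 3 5] 134 136 [4, 4] [(134, 136, [4, 4])]) .no
  (.br 1200 (.use 284) .no .no (.br 1064 .no .no .no (.hor [.f 1056 3 5] []) .no .no) .no .no) .no
  (.red [.f 1064 5 3, .f 936 3 1] 134 136 [4, 4] [(134, 136, [4, 4])])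

def c10t303 : Tr4 :=
  .br 944 .no (.br 1211 (.hor [.f 1210 1 5] []) .no (.br 939 (.red [.t 1066 3 2, .t 945 3 1, .t
  952 3 1] 136 136 [] [(134, 136, [4, 4]), (135, 136, [4]), (136, 136, [])]) (.br 1065 (.use 285)
  (.br 936 (.hor [.f 936 1 5] []) (.red [.f 808 1 3] 118 136 [2, 4, 4] [(118, 136, [2, 4, 4])])
  .no (.br 938 .no (.hor [.f 810 1 5] []) .no (.con 136 [2, 4, 4, 4]) .no .no) .no .no) .no (.br
  937 .no (.br 938 .no (.hor [.f 809 1 5] []) .no (.con 136 [2, 4, 4, 4]) .no .no) .no (.red [.f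
  929 3 1] 133 136 [4, 4, 4] [(133, 136, [4, 4, 4])]) (.br 936 (.con 136 [4, 4, 4]) (.red [.f 808
  1 3] 118 136 [2, 4, 4] [(118, 136, [2, 4, 4])]) .no (.con 136 [2, 4, 4, 4]) .no .no) (.br 938
  .no (.hor [.f 810 1 5] []) .no (.con 136 [2, 4, 4, 4]) .no .no)) .no (.red [.f 1064 5 3, .f 1065
  3 5, .f 1073 5 3, .f 945 3 1] 135 136 [4] [(135, 136, [4])])) .no (.br 1337 (.br 1344 (.br 1336
  (.hor [.f 1336 1 5] []) .no .no (.br 1202 (.red [.f 1202 1 3, .f 1201 3 5] 167 136 [4, 1, 1]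
  [(167, 136, [4, 1, 1])]) .no .no (.br 1330 (.br 1329 (.red [.f 1329 1 3, .f 1328 3 5] 183 136
  [4, 1, 1, 1] [(183, 136, [4, 1, 1, 1])]) .no .no (.con 136 [4, 1, 1, 4, 1]) .no .no) .no .no
  (.red [.f 1194 3 1, .f 1202 1 3] 167 136 [4, 1, 1] [(166, 136, [4, 1, 1, 4]), (167, 136, [4, 1,
  1])]) (.con 136 [4, 1, 1, 1]) (.red [.t 1209 4 1] 167 136 [4, 1, 1] [(167, 136, [4, 1, 1])]))
  (.br 1339 (.con 136 [4, 1, 1, 1]) .no (.con 136 [4, 1, 1, 1]) (.red [.t 1338 2 4, .f 1201 3 5]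
  167 136 [4, 1, 1] [(167, 136, [4, 1, 1])]) .no .no) .no) .no .no) .no (.hor [.f 1216 3 1, .f
  1216 1 5] [(169, 153, [1])]) (.red [.t 1208 2 4, .t 1344 4 2, .t 1217 4 2] 152 136 [1] [(151,
  135, [1]), (152, 136, [1]), (168, 136, [1, 1])]) .no .no) .no .no (.red [.t 1208 2 4, .t 1072 3
  1, .f 1201 3 1] 167 136 [4, 1, 1] [(167, 136, [4, 1, 1])]) .no (.br 1200 (.use 284) .no .no (.br
  1328 (.br 1202 (.red [.f 1202 1 3, .f 1201 3 5] 167 136 [4, 1, 1] [(167, 136, [4, 1, 1])]) .no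
  .no (.br 1203 (.con 136 [4, 4, 1, 1]) .no .no (.hor [.f 1194 3 5] []) .no .no) (.br 1067 (.red
  [.t 1066 3 1, .t 1201 3 2, .f 1074 3 5, .t 962 4 1] 136 136 [] [(136, 136, []), (150, 134, [1]),
  (151, 135, [1])]) .no .no (.red [.f 931 3 1, .t 1066 3 2] 134 136 [4, 4] [(133, 136, [4, 4, 4]),
  (134, 136, [4, 4])]) .no .no) .no) .no .no (.red [.f 1192 3 1, .t 1200 1 3, .f 1209 1 5] 167 136
  [4, 1, 1] [(166, 136, [4, 4, 1, 1]), (167, 136, [4, 1, 1])]) (.red [.f 1328 5 3, .f 1201 3 1, .f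
  1209 1 3] 167 136 [4, 1, 1] [(167, 136, [4, 1, 1]), (168, 136, [1, 1])]) .no) .no .no)) .no
  (.red [.f 938 5 3, .f 938 3 1, .t 945 3 1, .t 952 3 1] 136 136 [] [(134, 136, [4, 4]), (135,
  136, [4]), (136, 136, [])])) (.con 136 [4, 1, 1]) .no .no) .no (.use 302) .no .no

def c10l11 : List Tr4 :=
  [c10t280, c10t281, c10t282, c10t283, c10t284, c10t285, c10t286, c10t287, c10t288, c10t289,
  c10t290, c10t291, c10t292, c10t293, c10t294, c10t295, c10t296, c10t297, c10t298, c10t299,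
  c10t300, c10t301, c10t302, c10t303]

theorem c10k11 : chkLF ⟨4, 0, 0, true, -8⟩ true 0 c10N 280 c10l11 = true := by decide +kernel

def c10t304 : Tr4 :=
  .br 946 .no (.br 947 .no (.hor [.f 818 1 5] []) .no (.br 938 .no (.red [.f 810 1 3] 118 136 [2,
  4, 4] [(118, 136, [2, 4, 4])]) .no (.use 193) .no (.br 1210 (.br 832 .no (.use 295) .no (.hor
  [.f 824 3 1, .f 832 1 3, .f 960 3 5] [(120, 136, [2]), (121, 137, [2])]) (.br 1065 (.use 285)
  .no .no (.br 944 .no (.con 136 [2, 4, 4]) .no (.br 825 .no (.use 300) .no (.use 301) (.use 299)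
  (.use 289)) .no .no) .no (.red [.f 1064 5 3, .f 1065 3 5, .f 1073 5 3, .f 945 3 1] 135 136 [4]
  [(135, 136, [4])])) .no) .no .no (.hor [.f 1201 3 5] []) (.br 832 .no (.use 295) .no (.hor [.f
  824 3 1, .f 832 1 3, .f 960 3 5] [(120, 136, [2]), (121, 137, [2])]) (.br 825 .no (.use 300) .no
  (.br 944 .no (.con 136 [2, 4, 4]) .no (.use 301) .no .no) (.br 1065 (.br 819 .no (.br 824 .no
  (.use 296) .no (.br 1200 (.br 1337 (.use 283) .no .no (.red [.t 1208 2 4, .t 1072 3 1, .f 1201 3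
  1] 167 136 [4, 1, 1] [(167, 136, [4, 1, 1])]) (.br 1202 (.red [.t 1201 3 1, .f 1209 1 3] 168 136
  [1, 1] [(167, 136, [4, 1, 1]), (168, 136, [1, 1])]) .no .no (.br 944 .no .no .no (.red [.f 1066
  3 1, .f 1065 1 5, .f 937 5 1, .t 936 3 1] 134 136 [4, 4] [(134, 136, [4, 4]), (150, 134, [1])])
  .no .no) (.red [.t 1208 2 4, .f 1202 5 3, .t 1201 2 3, .f 1082 1 3] 152 136 [1] [(152, 136,
  [1])]) .no) (.red [.t 1208 2 4, .t 1072 3 1, .t 1200 1 3] 167 136 [4, 1, 1] [(167, 136, [4, 1,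
  1])])) .no .no (.red [.t 1192 3 2, .f 1065 3 5, .f 1073 5 3, .f 945 3 1] 135 136 [4] [(135, 136,
  [4]), (150, 134, [1])]) .no .no) .no .no) .no (.red [.t 945 3 2, .f 811 3 1, .f 819 1 3] 118 136
  [2, 4, 4] [(118, 136, [2, 4, 4])]) .no .no) .no .no (.use 299) .no (.red [.f 1064 5 3, .f 1065 3
  5, .f 1073 5 3, .f 945 3 1] 135 136 [4] [(135, 136, [4])])) (.br 944 .no (.con 136 [2, 4, 4])
  .no (.use 289) .no .no)) .no) .no)) .no .no) .no (.red [.f 938 3 1, .t 945 3 1] 135 136 [4]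
  [(134, 136, [4, 4]), (135, 136, [4])]) (.br 1210 (.use 303) .no .no (.hor [.f 1201 3 5] []) (.br
  1225 (.use 274) .no (.br 1202 (.br 1337 (.br 1338 (.hor [.f 1337 1 5] []) .no (.br 1219 (.red
  [.t 1346 4 2] 168 136 [1, 1] [(168, 136, [1, 1])]) .no (.br 1347 (.br 1339 (.br 1226 (.red [.f
  1339 1 3, .f 1338 3 5, .f 1210 5 1, .t 1226 1 4, .f 1211 1 3] 168 136 [1, 1] [(168, 136, [1,
  1]), (169, 136, [3, 1, 1]), (184, 168, [1])]) .no (.hor [.f 1225 3 5] []) .no .no .no) .no .no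
  (.red [.t 1330 2 3, .f 1201 3 5] 167 136 [4, 1, 1] [(167, 136, [4, 1, 1])]) .no .no) .no (.use
  276) (.hor [.f 1338 3 5] []) .no .no) .no .no .no) .no (.red [.f 1210 5 1, .f 1202 1 3] 167 136
  [4, 1, 1] [(167, 136, [4, 1, 1])]) .no) .no .no (.red [.t 1208 2 4, .t 1072 3 1, .f 1201 3 1]
  167 136 [4, 1, 1] [(167, 136, [4, 1, 1])]) (.red [.t 1201 3 1, .f 1209 1 3] 168 136 [1, 1]
  [(167, 136, [4, 1, 1]), (168, 136, [1, 1])]) (.red [.t 1208 2 4, .f 1208 5 1, .f 1209 1 3] 168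
  136 [1, 1] [(151, 135, [1]), (168, 136, [1, 1])])) .no .no (.red [.f 1066 3 1, .t 1074 1 3, .f
  946 5 1, .t 945 3 1] 135 136 [4] [(135, 136, [4]), (150, 134, [1]), (151, 135, [1])]) (.red [.t
  1208 2 4, .f 1202 5 3, .t 1201 2 3, .f 1082 1 3] 152 136 [1] [(152, 136, [1])]) .no) .no (.red
  [.f 1097 5 1, .t 1224 4 2, .f 1080 1 3] 152 136 [1] [(152, 136, [1]), (153, 136, [3, 1])]) .no)
  .no) .no

def c10t305 : Tr4 :=
  .br 819 .no (.br 816 .no (.br 696 .no (.br 697 .no (.hor [.f 568 1 5] []) .no (.red [.f 689 3 1,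
  .f 688 1 5] 103 136 [2, 2, 4] [(103, 136, [2, 2, 4])]) .no .no) (.hor [.f 696 3 1, .f 704 1 5]
  [(104, 136, [2, 2])]) .no (.red [.t 832 4 2, .t 696 1 3, .t 816 2 3, .f 697 1 5] 103 136 [2, 2,
  4] [(103, 136, [2, 2, 4])]) .no) .no (.con 136 [2, 2, 4, 4]) .no .no) .no (.red [.f 811 3 1, .f
  818 1 5] 118 136 [2, 4, 4] [(118, 136, [2, 4, 4])]) .no .no

def c10t306 : Tr4 :=
  .br 819 .no (.br 816 .no (.use 189) .no (.use 194) (.br 811 .no (.red [.f 683 1 3] 102 136 [2,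
  2, 4, 4] [(102, 136, [2, 2, 4, 4])]) .no (.use 195) .no (.red [.t 945 3 2, .t 825 1 4, .t 946 2
  4] 118 136 [2, 4, 4] [(118, 136, [2, 4, 4])])) .no) .no (.red [.f 811 3 1, .f 818 1 5] 118 136
  [2, 4, 4] [(118, 136, [2, 4, 4])]) .no .no

def c10t307 : Tr4 :=
  .br 1097 (.red [.t 1224 4 2, .f 1080 1 3, .f 952 3 1] 136 136 [] [(136, 136, []), (152, 136,
  [1]), (153, 136, [3, 1])]) .no (.hor [.f 1096 3 5] []) .no (.br 968 .no (.br 827 .no (.br 833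
  .no (.br 832 .no (.hor [.f 704 1 5] []) .no (.con 136 [2, 2]) .no .no) (.hor [.f 833 3 1, .f 833
  1 5] [(121, 105, [1])]) (.br 947 .no (.use 218) .no (.br 938 .no (.red [.f 810 1 3] 118 136 [2,
  4, 4] [(118, 136, [2, 4, 4])]) .no (.use 193) .no (.use 200)) .no .no) .no (.hor [.t 968 2 4, .f
  833 1 5] [(121, 120, [3])])) (.br 947 .no (.hor [.f 818 1 5] []) .no (.br 938 .no (.red [.f 810
  1 3] 118 136 [2, 4, 4] [(118, 136, [2, 4, 4])]) .no (.use 193) .no (.br 833 .no (.br 832 .no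
  (.hor [.f 704 1 5] []) .no (.br 825 .no (.hor [.f 697 1 3, .f 824 3 5] [(104, 136, [2, 2])]) .no
  (.br 944 .no (.con 136 [2, 4, 4]) .no (.br 698 (.use 305) (.con 136 [2, 4, 2, 3]) (.con 136 [2,
  4, 2, 3]) (.con 136 [2, 4, 2, 3]) (.con 136 [2, 4, 2, 3]) (.con 136 [2, 4, 2, 3])) .no .no) (.br
  944 .no (.con 136 [2, 4, 4]) .no (.use 306) .no .no) .no) .no .no) (.hor [.f 833 3 1, .f 833 1
  5] [(121, 105, [1])]) (.br 832 .no (.br 824 .no (.hor [.f 696 1 3, .f 824 3 5] [(104, 120,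
  [2])]) .no (.br 698 (.br 697 .no (.br 696 .no (.hor [.f 568 1 5] []) .no (.hor [.f 688 3 1, .f
  696 1 3, .f 824 3 5] [(103, 120, [2, 4]), (104, 120, [2])]) .no .no) (.hor [.f 697 3 1, .f 697 1
  5] [(104, 120, [2])]) (.use 286) .no (.hor [.t 832 2 4, .f 697 1 5] [(104, 120, [2])])) (.con
  136 [2, 4, 2, 3, 1]) (.con 136 [2, 4, 2, 3, 1]) (.con 136 [2, 4, 2, 3, 1]) (.con 136 [2, 4, 2,
  3, 1]) (.con 136 [2, 4, 2, 3, 1])) .no .no) .no (.hor [.f 824 3 5] []) .no .no) .no (.hor [.t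
  968 2 4, .f 833 1 5] [(121, 120, [3])]))) .no .no) (.red [.t 818 1 3, .f 945 3 5, .f 953 5 1, .t
  952 3 1] 136 136 [] [(119, 118, [3]), (136, 136, [])]) .no (.red [.f 826 5 1, .f 818 1 3, .f 945
  3 5, .f 953 5 1, .t 952 3 1] 136 136 [] [(119, 120, [4]), (136, 136, [])])) (.red [.f 968 3 1,
  .t 968 1 4, .f 1088 3 1, .f 1080 1 3] 152 136 [1] [(137, 136, [3]), (138, 136, [3, 3]), (152,
  136, [1]), (153, 136, [3, 1])]) .no .no .no) .no

def c10t308 : Tr4 :=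
  .br 947 .no (.hor [.f 818 1 5] []) .no (.con 136 [4, 2, 4]) .no .no

def c10t309 : Tr4 :=
  .br 811 .no (.hor [.f 682 1 5] []) .no (.con 136 [4, 2, 4, 2, 4]) .no .no

def c10t310 : Tr4 :=
  .br 809 .no (.hor [.f 681 1 5] []) .no (.use 309) .no (.use 297)

def c10t311 : Tr4 :=
  .br 811 .no (.red [.f 683 1 3] 102 136 [4, 2, 2, 4] [(102, 136, [4, 2, 2, 4])]) .no (.use 195)
  .no .no

def c10t312 : Tr4 :=
  .br 819 .no (.br 810 .no (.use 310) .no (.use 298) (.red [.t 946 2 4] 118 136 [4, 2, 4] [(118,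
  136, [4, 2, 4])]) (.use 187)) .no (.red [.f 811 3 1, .f 818 1 5] 118 136 [4, 2, 4] [(118, 136,
  [4, 2, 4])]) .no .no

def c10t313 : Tr4 :=
  .br 825 .no (.br 826 .no (.hor [.f 697 1 5] []) (.hor [.f 826 3 5] []) .no .no .no) (.br 824 .no
  (.br 819 .no (.br 817 .no (.br 816 .no (.hor [.f 688 1 5] []) .no (.con 136 [2, 4, 2, 4]) .no
  .no) .no (.red [.t 817 4 1] 118 136 [2, 4, 4] [(118, 136, [2, 4, 4])]) .no (.br 810 .no (.br 809
  .no (.hor [.f 681 1 5] []) .no (.use 309) .no (.use 297)) .no (.use 311) (.red [.t 946 2 4] 118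
  136 [2, 4, 4] [(118, 136, [2, 4, 4])]) (.use 187))) .no (.red [.f 811 3 1, .f 818 1 5] 118 136
  [2, 4, 4] [(118, 136, [2, 4, 4])]) .no .no) (.hor [.f 824 3 5] []) (.br 817 .no (.use 312) .no
  (.red [.t 817 4 1] 118 136 [2, 4, 4] [(118, 136, [2, 4, 4])]) .no .no) .no .no) (.br 826 .no
  (.br 824 .no (.br 816 .no (.red [.f 688 1 3] 103 136 [2, 2, 4] [(103, 136, [2, 2, 4])]) .no (.br
  819 .no (.con 136 [2, 2, 4, 4]) .no (.red [.f 811 3 1, .f 818 1 5] 118 136 [2, 4, 4] [(118, 136,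
  [2, 4, 4])]) .no .no) .no .no) (.br 833 .no (.use 305) (.br 834 .no (.con 136 [2, 2, 3]) (.hor
  [.f 833 3 5] []) .no .no .no) .no (.br 816 .no (.br 696 .no (.br 697 .no (.hor [.f 568 1 5] [])
  (.con 136 [2, 2, 2]) (.red [.f 689 3 1, .f 688 1 5] 103 136 [2, 2, 4] [(103, 136, [2, 2, 4])])
  .no .no) (.red [.f 696 3 1, .f 688 1 3, .f 816 3 5] 103 136 [2, 2, 4] [(103, 136, [2, 2, 4]),
  (104, 136, [2, 2])]) .no (.red [.t 816 2 3, .f 697 1 5] 103 136 [2, 2, 4] [(103, 136, [2, 2,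
  4])]) .no) .no (.br 819 .no (.con 136 [2, 2, 4, 4]) .no (.red [.f 811 3 1, .f 818 1 5] 118 136
  [2, 4, 4] [(118, 136, [2, 4, 4])]) .no .no) .no .no) .no) (.hor [.f 816 3 5] []) .no .no) (.hor
  [.f 826 3 5] []) .no .no .no) (.br 824 .no (.br 819 .no (.br 816 .no (.use 189) .no (.use 194)
  (.br 811 .no (.red [.f 683 1 3] 102 136 [2, 2, 4, 4] [(102, 136, [2, 2, 4, 4])]) .no (.use 195)
  .no (.red [.t 945 3 2, .t 825 1 4, .t 946 2 4] 118 136 [2, 4, 4] [(118, 136, [2, 4, 4])])) .no)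
  .no (.red [.f 811 3 1, .f 818 1 5] 118 136 [2, 4, 4] [(118, 136, [2, 4, 4])]) .no .no) (.use
  306) (.br 817 .no (.br 819 .no (.br 810 .no (.use 310) .no (.use 298) (.red [.t 945 3 2, .t 825
  1 4, .t 946 2 4] 118 136 [2, 4, 4] [(118, 136, [2, 4, 4])]) (.use 187)) .no (.red [.f 811 3 1,
  .f 818 1 5] 118 136 [2, 4, 4] [(118, 136, [2, 4, 4])]) .no .no) .no (.red [.t 817 4 1] 118 136
  [2, 4, 4] [(118, 136, [2, 4, 4])]) .no .no) .no .no) (.br 817 .no (.use 312) .no (.red [.t 817 4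
  1] 118 136 [2, 4, 4] [(118, 136, [2, 4, 4])]) .no (.br 819 .no (.br 809 .no (.br 810 .no (.hor
  [.f 681 1 5] []) .no (.use 311) (.red [.f 816 5 3, .t 946 2 4] 118 136 [2, 4, 4] [(118, 136, [2,
  4, 4])]) .no) .no (.br 810 .no (.use 309) .no (.hor [.f 801 3 5] []) (.red [.f 816 5 3, .t 946 2
  4] 118 136 [2, 4, 4] [(118, 136, [2, 4, 4])]) .no) (.use 187) (.red [.f 816 5 3, .f 816 3 5, .f
  808 5 3, .t 817 4 1, .f 938 3 1] 118 136 [2, 4, 4] [(118, 136, [2, 4, 4]), (134, 136, [4, 4])]))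
  .no (.red [.f 811 3 1, .f 818 1 5] 118 136 [2, 4, 4] [(118, 136, [2, 4, 4])]) .no .no))

def c10t314 : Tr4 :=
  .br 961 .no (.use 268) (.br 962 .no (.br 1096 .no (.red [.t 968 1 4, .f 1088 3 1, .f 1080 1 3]
  152 136 [1] [(137, 136, [3]), (152, 136, [1]), (153, 136, [3, 1])]) (.use 307) .no (.red [.f
  1088 5 3, .f 1088 3 1, .f 1080 1 3] 152 136 [1] [(152, 136, [1]), (153, 136, [3, 1])]) .no)
  (.hor [.f 961 3 5] []) .no .no .no) .no (.br 827 .no (.br 944 .no (.use 308) .no (.br 947 .no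
  (.hor [.f 818 1 5] []) .no (.br 938 .no (.red [.f 810 1 3] 118 136 [2, 4, 4] [(118, 136, [2, 4,
  4])]) .no (.use 48) .no (.br 819 .no (.br 826 .no (.hor [.f 698 1 5] []) (.br 825 .no (.con 136
  [2, 2]) (.hor [.f 825 3 5] []) (.con 136 [2, 2]) .no (.con 136 [2, 2])) .no .no (.br 824 .no
  (.use 196) (.con 136 [2, 2]) (.use 198) .no .no)) .no (.red [.f 811 3 1, .f 818 1 5] 118 136 [2,
  4, 4] [(118, 136, [2, 4, 4])]) .no .no)) .no .no) .no .no) (.br 1210 (.br 944 .no (.use 308) .no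
  (.use 302) .no .no) .no .no (.hor [.f 1201 3 5] []) (.br 944 .no (.use 308) .no (.br 1065 (.br
  947 .no (.hor [.f 818 1 5] []) .no (.br 938 .no (.red [.f 810 1 3] 118 136 [2, 4, 4] [(118, 136,
  [2, 4, 4])]) .no (.use 48) .no (.br 1202 (.br 1337 (.br 1200 (.use 283) .no .no (.red [.t 1192 3
  2, .f 1065 3 5, .f 1073 5 3, .f 945 3 1] 135 136 [4] [(135, 136, [4]), (150, 134, [1])]) .no
  .no) .no .no (.red [.t 1208 2 4, .t 1072 3 1, .f 1201 3 1] 167 136 [4, 1, 1] [(167, 136, [4, 1,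
  1])]) (.red [.t 1201 3 1, .f 1209 1 3] 168 136 [1, 1] [(167, 136, [4, 1, 1]), (168, 136, [1,
  1])]) (.red [.t 1208 2 4, .f 1208 5 1, .f 1209 1 3] 168 136 [1, 1] [(151, 135, [1]), (168, 136,
  [1, 1])])) .no .no (.red [.f 1066 3 1, .f 1065 1 5, .f 937 5 1, .t 936 3 1] 134 136 [4, 4]
  [(134, 136, [4, 4]), (150, 134, [1])]) (.red [.t 1208 2 4, .f 1202 5 3, .t 1201 2 3, .f 1082 1
  3] 152 136 [1] [(152, 136, [1])]) .no)) .no .no) (.red [.t 936 3 1, .f 1065 3 5] 134 136 [4, 4]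
  [(134, 136, [4, 4])]) .no (.br 947 .no (.hor [.f 818 1 5] []) .no (.br 938 .no (.red [.f 810 1
  3] 118 136 [2, 4, 4] [(118, 136, [2, 4, 4])]) .no (.use 48) .no (.use 313)) .no .no) .no (.red
  [.f 1064 5 3, .f 936 3 1] 134 136 [4, 4] [(134, 136, [4, 4])])) .no .no) .no) (.red [.t 818 1 3,
  .f 945 3 5, .f 953 5 1, .t 952 3 1] 136 136 [] [(119, 118, [3]), (136, 136, [])]) .no (.red [.f
  826 5 1, .f 818 1 3, .f 945 3 5, .f 953 5 1, .t 952 3 1] 136 136 [] [(119, 120, [4]), (136, 136,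
  [])])) .no

def c10l12 : List Tr4 :=
  [c10t304, c10t305, c10t306, c10t307, c10t308, c10t309, c10t310, c10t311, c10t312, c10t313,
  c10t314]

theorem c10k12 : chkLF ⟨4, 0, 0, true, -8⟩ true 0 c10N 304 c10l12 = true := by decide +kernel

def c10t315 : Tr4 :=
  .br 954 .no (.use 281) (.br 955 .no (.br 1072 (.use 32) (.use 31) .no (.use 50) (.br 1216 (.hor
  [.f 1216 1 5] []) .no (.br 961 .no (.br 826 .no (.br 825 .no (.hor [.f 697 1 5] []) .no (.br 824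
  .no (.br 946 .no (.br 947 .no (.hor [.f 818 1 5] []) .no (.br 944 .no (.con 136 [2, 4, 4]) .no
  (.use 282) .no .no) .no .no) .no (.red [.f 938 3 1, .t 945 3 1] 135 136 [4] [(134, 136, [4, 4]),
  (135, 136, [4])]) (.br 818 .no (.red [.f 690 1 3] 103 136 [2, 2, 4] [(103, 136, [2, 2, 4])]) .no
  (.br 944 .no (.br 819 .no (.con 136 [2, 2, 4, 4]) .no (.hor [.f 810 3 5] []) .no .no) .no (.br
  816 .no (.red [.f 688 1 3] 103 136 [2, 2, 4] [(103, 136, [2, 2, 4])]) .no (.br 688 .no (.br 689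
  .no (.hor [.f 560 1 5] []) (.red [.f 808 3 1, .f 689 3 1, .f 697 1 5, .f 808 1 3] 103 136 [2, 2,
  4] [(103, 136, [2, 2, 4])]) (.br 819 .no (.con 136 [2, 2, 4, 4]) .no (.hor [.f 810 3 5] []) .no
  .no) (.red [.t 825 4 2] 103 136 [2, 2, 4] [(103, 136, [2, 2, 4])]) .no) .no (.red [.f 680 3 1,
  .f 688 1 3] 103 136 [2, 2, 4] [(102, 136, [2, 2, 4, 4]), (103, 136, [2, 2, 4])]) (.red [.f 808 3
  1, .t 824 2 4] 103 136 [2, 2, 4] [(103, 136, [2, 2, 4]), (118, 102, [1])]) .no) .no .no) .no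
  .no) (.red [.f 818 5 1, .f 819 1 3, .f 947 3 1] 135 136 [4] [(119, 136, [2, 4]), (135, 136,
  [4])]) .no) .no) (.hor [.f 824 3 1, .f 832 1 5] [(120, 104, [1])]) (.hor [.f 816 3 5] []) .no
  .no) .no (.red [.t 960 4 2, .f 960 5 1, .t 961 1 4] 136 136 [] [(120, 121, [4]), (136, 136,
  [])])) (.hor [.f 826 3 1, .f 826 1 5] [(120, 104, [1])]) (.use 29) .no (.hor [.t 961 2 4, .f 826
  1 5] [(120, 121, [4])])) (.br 1096 .no (.red [.t 968 1 4, .t 961 1 4] 136 136 [] [(136, 136,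
  []), (137, 136, [3])]) (.br 1097 (.red [.t 1224 4 2, .f 1080 1 3, .f 952 3 1] 136 136 [] [(136,
  136, []), (152, 136, [1]), (153, 136, [3, 1])]) .no (.hor [.f 1096 3 5] []) .no (.br 968 .no
  (.use 304) (.use 52) .no .no .no) .no) .no (.red [.f 1088 5 3, .f 961 3 1, .t 961 1 4] 136 136
  [] [(136, 136, []), (137, 136, [3])]) .no) .no .no .no) .no .no .no) .no) .no (.red [.f 947 3 1,
  .f 955 1 3, .f 954 3 5] 136 136 [] [(135, 136, [4]), (136, 136, [])]) .no .no) (.hor [.f 945 3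
  5] []) (.br 946 .no (.br 1072 (.use 32) (.use 31) .no (.use 50) (.br 1216 (.hor [.f 1216 1 5]
  []) .no (.use 314) .no .no .no) .no) .no (.red [.f 938 3 1, .t 945 3 1] 135 136 [4] [(134, 136,
  [4, 4]), (135, 136, [4])]) (.red [.f 946 5 3, .f 945 3 5, .f 953 5 1, .t 952 3 1] 136 136 []
  [(136, 136, [])]) .no) .no

def c10t316 : Tr4 :=
  .br 953 .no (.br 955 .no (.br 954 .no (.hor [.f 825 1 5] []) (.br 961 .no (.hor [.f 825 1 3, .f
  952 3 5] [(120, 119, [3])]) (.br 1096 (.use 51) (.red [.t 968 1 4, .t 961 1 4] 136 136 [] [(136,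
  136, []), (137, 136, [3])]) (.br 1074 (.red [.t 1201 3 2, .f 1074 3 5, .t 962 4 1] 136 136 []
  [(136, 136, []), (151, 135, [1])]) (.br 968 .no (.br 833 .no (.use 265) (.hor [.f 833 3 1, .f
  840 1 5] [(121, 137, [2])]) .no (.red [.t 953 2 3, .f 953 5 1, .f 946 1 3] 135 136 [4] [(120,
  119, [3]), (135, 136, [4])]) (.hor [.t 952 3 2, .f 832 1 3, .f 960 3 5] [(120, 119, [3]), (121,
  137, [2])])) (.use 52) .no .no .no) .no (.br 968 .no (.br 833 .no (.use 265) (.hor [.f 833 3 1,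
  .f 840 1 5] [(121, 137, [2])]) .no (.br 832 .no (.br 824 .no (.hor [.t 953 2 3, .f 696 1 3, .f
  824 3 5] [(104, 119, [3, 2]), (120, 119, [3])]) .no (.br 945 (.use 204) (.red [.f 817 1 3, .f
  816 3 5] 119 136 [2, 4] [(119, 136, [2, 4])]) .no (.br 1073 .no .no .no (.hor [.f 1065 3 5] [])
  .no (.br 944 .no .no .no (.hor [.f 936 3 5] []) .no .no)) (.br 947 .no (.red [.t 953 2 3, .f 819
  1 3] 119 136 [2, 4] [(119, 136, [2, 4]), (120, 119, [3])]) .no (.br 1073 .no .no .no (.hor [.f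
  1065 3 5] []) .no (.br 826 .no (.br 944 .no .no .no (.br 819 .no (.br 818 .no (.hor [.f 690 1 5]
  []) .no (.br 937 (.red [.t 1065 2 3, .f 936 3 5] 134 136 [4, 4] [(134, 136, [4, 4])]) (.con 136
  [2, 4, 4, 2]) .no (.use 266) (.hor [.f 937 5 3, .f 936 3 5, .f 938 3 5] []) .no) .no (.red [.f
  817 5 1, .f 817 1 3] 119 136 [2, 4] [(119, 136, [2, 4])])) .no (.red [.f 811 3 1, .f 819 1 3]
  119 136 [2, 4] [(118, 136, [2, 4, 4]), (119, 136, [2, 4])]) .no (.red [.t 953 2 3, .f 945 5 3,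
  .t 954 4 2] 119 136 [2, 4] [(119, 136, [2, 4]), (120, 119, [3])])) .no .no) .no (.red [.t 825 1
  4] 119 136 [2, 4] [(119, 136, [2, 4])]) .no .no)) .no .no) (.red [.t 824 4 1] 119 136 [2, 4]
  [(119, 136, [2, 4])])) .no .no) .no (.hor [.t 953 2 3, .f 824 3 5] [(120, 104, [1])]) .no .no)
  (.hor [.t 952 3 2, .f 832 1 3, .f 960 3 5] [(120, 119, [3]), (121, 137, [2])])) (.use 52) .no
  .no .no) .no (.red [.f 1073 5 3, .f 1074 3 5, .t 962 4 1] 136 136 [] [(136, 136, [])])) .no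
  (.red [.f 1088 5 3, .f 961 3 1, .t 961 1 4] 136 136 [] [(136, 136, []), (137, 136, [3])]) .no)
  .no .no .no) (.con 136 [2, 4]) .no .no) .no (.red [.f 947 3 1, .f 955 1 3] 136 136 [] [(135,
  136, [4]), (136, 136, [])]) .no (.use 280)) (.hor [.f 952 3 5] []) (.br 1074 (.br 954 .no (.use
  281) (.red [.t 1201 3 2, .f 1074 3 5, .t 962 4 1] 136 136 [] [(136, 136, []), (151, 135, [1])])
  (.hor [.f 945 3 5] []) (.red [.t 1201 3 2, .f 1074 3 5, .f 954 5 1, .f 955 1 3] 136 136 []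
  [(136, 136, []), (151, 135, [1])]) .no) (.red [.t 945 3 1, .t 952 3 1] 136 136 [] [(135, 136,
  [4]), (136, 136, [])]) .no (.use 315) .no (.red [.f 1073 5 3, .f 945 3 1, .t 952 3 1] 136 136 []
  [(135, 136, [4]), (136, 136, [])])) (.red [.f 953 5 1, .t 952 3 1] 136 136 [] [(136, 136, [])])
  .no

def c10t317 : Tr4 :=
  .br 963 (.red [.f 955 1 3] 136 136 [] [(136, 136, [])]) (.br 961 (.typ 2) (.con 136 [3]) (.con
  136 [3]) (.con 136 [3]) (.con 136 [3]) .no) (.br 961 (.typ 2) (.con 136 [3]) (.con 136 [3])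
  (.con 136 [3]) (.con 136 [3]) .no) .no .no (.red [.t 1082 3 2] 136 136 [] [(136, 136, [])])

def c10t318 : Tr4 :=
  .br 1217 (.hor [.f 1216 1 5] []) .no (.use 245) .no (.red [.t 1081 1 3, .f 953 5 1, .t 952 3 1]
  136 136 [] [(136, 136, []), (152, 136, [1])]) .no

def c10t319 : Tr4 :=
  .br 824 .no (.hor [.f 696 1 5] []) .no (.br 826 .no (.hor [.f 697 1 5] []) .no (.br 946 (.br 945
  (.hor [.f 945 1 5] []) (.red [.t 817 1 3, .f 826 1 5] 119 136 [2, 4] [(119, 136, [2, 4])]) .no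
  (.br 1073 (.red [.f 1073 1 3, .f 1072 3 5] 151 136 [4, 1] [(151, 136, [4, 1])]) .no .no (.red
  [.f 937 3 1, .f 945 1 5, .f 945 5 3, .f 818 3 1] 119 136 [2, 4] [(119, 136, [2, 4]), (134, 118,
  [1])]) .no .no) .no (.red [.f 697 1 3, .t 833 4 1, .t 824 4 1] 119 136 [2, 4] [(104, 136, [2,
  2]), (119, 136, [2, 4]), (120, 136, [2])])) .no .no (.hor [.f 938 3 5] []) .no (.red [.f 945 5
  3, .f 818 3 1, .f 826 1 3] 119 136 [2, 4] [(119, 136, [2, 4]), (120, 136, [2])])) .no .no) .no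
  .no

def c10t320 : Tr4 :=
  .br 818 (.con 136 [2, 4, 2]) (.con 136 [2, 4, 2]) (.hor [.f 817 3 5] []) (.con 136 [2, 4, 2])
  (.con 136 [2, 4, 2]) .no

def c10t321 : Tr4 :=
  .br 824 .no (.use 320) .no (.hor [.f 816 3 5] []) .no .no

def c10t322 : Tr4 :=
  .br 945 (.con 136 [4, 4]) (.hor [.f 817 1 5] []) .no (.con 136 [4, 2, 4]) .no (.con 136 [4, 2,
  4])

def c10t323 : Tr4 :=
  .br 1202 (.hor [.f 1201 1 5] []) (.con 136 [4, 1, 4]) .no (.con 136 [4, 1, 4, 1]) (.con 136 [4,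
  1, 4, 1]) .no

def c10t324 : Tr4 :=
  .br 818 .no (.red [.f 690 1 3] 103 136 [2, 2, 4] [(103, 136, [2, 2, 4])]) .no .no (.red [.t 938
  2 3, .f 819 1 3] 119 136 [2, 4] [(118, 136, [2, 4, 4]), (119, 136, [2, 4])]) .no

def c10t325 : Tr4 :=
  .br 826 .no (.br 944 .no (.hor [.f 816 1 5] []) .no (.br 937 .no (.red [.f 809 1 3, .f 937 3 1,
  .f 945 1 5, .t 1209 2 4] 151 136 [4, 1] [(118, 119, [4]), (134, 135, [4]), (151, 136, [4, 1])])
  .no (.br 938 (.red [.f 938 1 3, .f 1065 3 5, .t 1209 2 4] 151 136 [4, 1] [(134, 133, [3]), (151,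
  136, [4, 1])]) (.use 324) .no (.hor [.f 929 3 5] []) .no .no) (.red [.f 1088 5 1, .f 1081 1 3,
  .t 1073 4 2, .f 1081 3 1, .t 1209 2 4] 151 136 [4, 1] [(134, 135, [4]), (151, 136, [4, 1])])
  .no) .no .no) .no (.red [.t 817 1 3, .f 826 1 5] 119 136 [2, 4] [(119, 136, [2, 4])]) .no .no

def c10t326 : Tr4 :=
  .br 816 .no (.hor [.f 688 1 5] []) .no (.con 136 [2, 4, 4, 2]) .no .no

def c10t327 : Tr4 :=
  .br 816 .no (.br 808 .no (.red [.f 680 1 3, .f 808 3 5, .f 816 5 1, .t 817 1 3] 119 136 [2, 4]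
  [(102, 118, [2]), (119, 136, [2, 4])]) .no (.red [.f 800 3 1, .t 808 1 3] 118 136 [2, 4, 4]
  [(117, 136, [2, 4, 4, 4]), (118, 136, [2, 4, 4])]) .no .no) .no (.hor [.f 808 3 5] []) .no .no

def c10t328 : Tr4 :=
  .br 817 .no (.use 326) .no (.br 936 (.red [.t 1064 2 3, .f 945 1 5, .t 1209 2 4] 151 136 [4, 1]
  [(134, 118, [1]), (151, 136, [4, 1])]) (.red [.t 808 1 3, .t 817 1 3, .f 826 1 3] 119 136 [2, 4]
  [(118, 136, [2, 4, 4]), (119, 136, [2, 4]), (120, 136, [2])]) .no (.use 327) (.red [.f 936 5 3,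
  .f 809 3 1, .t 817 1 3, .f 826 1 3] 119 136 [2, 4] [(118, 136, [2, 4, 4]), (119, 136, [2, 4]),
  (120, 136, [2])]) .no) .no (.red [.f 816 5 1, .t 817 1 3, .f 826 1 3] 119 136 [2, 4] [(119, 136,
  [2, 4]), (120, 136, [2])])

def c10t329 : Tr4 :=
  .br 697 .no (.hor [.f 568 1 5] []) .no (.red [.t 697 4 1] 103 136 [2, 2, 4] [(103, 136, [2, 2,
  4])]) .no .no

def c10t330 : Tr4 :=
  .br 698 (.use 329) (.con 136 [2, 4, 2, 3]) (.con 136 [2, 4, 2, 3]) (.con 136 [2, 4, 2, 3]) (.con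
  136 [2, 4, 2, 3]) (.con 136 [2, 4, 2, 3])

def c10t331 : Tr4 :=
  .br 817 .no (.con 136 [2, 4, 2, 4]) .no (.hor [.f 809 3 5] []) .no (.con 136 [2, 4, 2, 4])

def c10t332 : Tr4 :=
  .br 698 (.br 697 .no (.hor [.f 568 1 5] []) .no (.br 816 .no (.red [.t 688 1 3, .f 568 1 3, .f
  697 1 3, .f 696 3 5] 103 136 [2, 2, 4] [(88, 136, [2, 2, 2]), (103, 136, [2, 2, 4]), (104, 136,
  [2, 2])]) .no (.br 817 .no .no .no (.hor [.f 808 3 5] []) .no .no) (.red [.f 816 5 3, .f 689 3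
  1, .f 697 1 3] 103 136 [2, 2, 4] [(103, 136, [2, 2, 4]), (104, 136, [2, 2])]) .no) .no .no)
  (.con 136 [2, 4, 2, 3]) (.con 136 [2, 4, 2, 3]) (.con 136 [2, 4, 2, 3]) (.con 136 [2, 4, 2, 3])
  (.con 136 [2, 4, 2, 3])

def c10t333 : Tr4 :=
  .br 1073 .no (.con 136 [4, 4]) .no (.hor [.f 1065 3 5] []) .no .no

def c10t334 : Tr4 :=
  .br 1202 (.hor [.f 1201 1 5] []) .no .no (.con 136 [1, 4, 1, 4]) (.con 136 [1, 4, 4, 1]) .no

def c10t335 : Tr4 :=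
  .br 1202 (.hor [.f 1201 1 5] []) .no .no (.con 136 [1, 4, 1, 4]) (.con 136 [1, 4, 4, 1]) .no

def c10t336 : Tr4 :=
  .br 826 .no (.br 938 .no (.use 324) .no (.br 944 .no (.hor [.f 816 1 5] []) .no (.br 937 .no
  (.red [.f 809 1 3, .f 937 3 1, .f 945 1 5, .f 1073 5 1, .f 1073 1 3] 151 136 [4, 1] [(118, 117,
  [3]), (134, 135, [4]), (151, 136, [4, 1])]) .no (.hor [.f 929 3 5] []) .no .no) .no .no) .no
  (.red [.t 1073 4 2, .f 1073 5 1, .f 1073 1 3] 151 136 [4, 1] [(134, 135, [4]), (151, 136, [4,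
  1])])) .no (.red [.t 817 1 3, .f 826 1 5] 119 136 [2, 4] [(119, 136, [2, 4])]) .no .no

def c10t337 : Tr4 :=
  .br 817 .no (.use 326) .no (.br 936 (.red [.t 1064 2 3, .f 945 1 5, .f 945 5 3, .f 818 3 1] 119
  136 [2, 4] [(119, 136, [2, 4]), (134, 118, [1])]) (.red [.t 808 1 3, .t 817 1 3, .f 826 1 3] 119
  136 [2, 4] [(118, 136, [2, 4, 4]), (119, 136, [2, 4]), (120, 136, [2])]) .no (.use 327) (.red
  [.f 936 5 3, .f 809 3 1, .t 817 1 3, .f 826 1 3] 119 136 [2, 4] [(118, 136, [2, 4, 4]), (119,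
  136, [2, 4]), (120, 136, [2])]) .no) .no (.red [.f 816 5 1, .t 817 1 3, .f 826 1 3] 119 136 [2,
  4] [(119, 136, [2, 4]), (120, 136, [2])])

def c10t338 : Tr4 :=
  .br 704 .no (.br 819 .no (.br 818 .no (.hor [.f 690 1 5] []) (.use 337) (.use 331) .no (.use
  330)) .no (.red [.f 811 3 1, .f 819 1 3] 119 136 [2, 4] [(118, 136, [2, 4, 4]), (119, 136, [2,
  4])]) .no (.use 332)) (.hor [.f 704 3 1, .f 704 1 5] [(105, 104, [3])]) .no .no .no

def c10t339 : Tr4 :=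
  .br 697 .no (.con 136 [2, 2, 2, 4]) .no (.hor [.f 688 3 5] []) .no .no

def c10t340 : Tr4 :=
  .br 699 .no (.use 339) (.con 136 [2, 2, 2]) (.red [.t 698 1 4] 103 136 [2, 2, 4] [(103, 136, [2,
  2, 4])]) .no .no

def c10t341 : Tr4 :=
  .br 699 .no (.use 339) (.con 136 [2, 2, 2]) (.red [.t 698 1 4] 103 136 [2, 2, 4] [(103, 136, [2,
  2, 4])]) .no .no

def c10t342 : Tr4 :=
  .br 698 (.use 341) (.con 136 [2, 4, 2, 3]) (.con 136 [2, 4, 2, 3]) (.con 136 [2, 4, 2, 3]) (.con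
  136 [2, 4, 2, 3]) (.con 136 [2, 4, 2, 3])

def c10t343 : Tr4 :=
  .br 819 .no (.br 818 .no (.hor [.f 690 1 5] []) (.use 337) (.con 136 [2, 4, 2, 4]) .no (.con 136
  [2, 4, 2, 4])) .no (.red [.f 811 3 1, .f 819 1 3] 119 136 [2, 4] [(118, 136, [2, 4, 4]), (119,
  136, [2, 4])]) .no (.use 342)

def c10t344 : Tr4 :=
  .br 819 .no (.br 818 .no (.hor [.f 690 1 5] []) (.red [.f 945 5 3, .f 818 3 1, .f 826 1 3] 119
  136 [2, 4] [(119, 136, [2, 4]), (120, 136, [2])]) (.con 136 [2, 4, 2, 4]) .no (.con 136 [2, 4,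
  2, 4])) .no (.red [.f 811 3 1, .f 819 1 3] 119 136 [2, 4] [(118, 136, [2, 4, 4]), (119, 136, [2,
  4])]) .no (.use 342)

def c10l13 : List Tr4 :=
  [c10t315, c10t316, c10t317, c10t318, c10t319, c10t320, c10t321, c10t322, c10t323, c10t324,
  c10t325, c10t326, c10t327, c10t328, c10t329, c10t330, c10t331, c10t332, c10t333, c10t334,
  c10t335, c10t336, c10t337, c10t338, c10t339, c10t340, c10t341, c10t342, c10t343, c10t344]

theorem c10k13 : chkLF ⟨4, 0, 0, true, -8⟩ true 0 c10N 315 c10l13 = true := by decide +kernel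

end Pool.Agent.FT4D
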