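import Pool.Agent.FT4D.Tab_c10

/-!
# Four levels: decision trees (found by a computer search)
-/

namespace Pool.Agent.FT4D

def c10t345 : Tr4 :=
  .br 696 .no (.br 1201 (.br 1210 (.use 323) .no (.red [.f 1082 3 1, .f 1081 1 5, .f 953 5 1, .t
  952 3 1] 136 136 [] [(136, 136, []), (152, 136, [1])]) (.br 1074 .no (.br 1073 .no (.hor [.f 945
  1 5] []) .no (.br 945 .no (.use 325) .no (.red [.f 937 3 1, .f 945 1 5, .t 1209 2 4] 151 136 [4,
  1] [(134, 118, [1]), (151, 136, [4, 1])]) .no (.br 704 .no (.br 819 .no (.br 818 .no (.hor [.f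
  690 1 5] []) (.use 328) (.use 331) .no (.use 330)) .no (.red [.f 811 3 1, .f 819 1 3] 119 136
  [2, 4] [(118, 136, [2, 4, 4]), (119, 136, [2, 4])]) .no (.use 332)) (.hor [.f 704 3 1, .f 704 1
  5] [(105, 104, [3])]) .no .no .no)) .no .no) .no (.use 333) .no (.red [.t 1209 2 4, .f 1072 3 5]
  151 136 [4, 1] [(151, 136, [4, 1])])) (.br 946 (.use 334) (.use 322) .no (.hor [.f 938 3 5] [])
  .no (.br 1074 (.con 136 [4, 1, 4]) .no .no (.use 333) .no (.use 335))) .no) (.red [.f 1073 1 3,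
  .f 1072 3 5] 151 136 [4, 1] [(151, 136, [4, 1])]) .no (.hor [.f 1192 3 5] []) (.br 1074 .no (.br
  1073 .no (.hor [.f 945 1 5] []) .no (.br 1066 (.red [.t 1065 3 1, .f 1073 1 3] 151 136 [4, 1]
  [(150, 136, [4, 4, 1]), (151, 136, [4, 1])]) (.red [.f 938 1 3, .f 1065 3 5, .f 1073 5 1, .f
  1073 1 3] 151 136 [4, 1] [(134, 133, [3]), (151, 136, [4, 1])]) .no (.br 945 .no (.use 336) .no
  (.red [.f 937 3 1, .f 945 1 5, .f 1073 5 1, .f 1073 1 3] 151 136 [4, 1] [(134, 118, [1]), (151,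
  136, [4, 1])]) .no (.use 338)) (.red [.t 946 1 4, .f 1065 3 5, .f 1073 5 1, .f 1073 1 3] 151 136
  [4, 1] [(134, 135, [4]), (151, 136, [4, 1])]) .no) .no .no) .no (.br 1065 (.con 136 [4, 1, 4,
  2]) (.con 136 [4, 1, 4, 2]) (.hor [.f 1065 3 5] []) (.con 136 [4, 1, 4, 2]) .no (.con 136 [4, 1,
  4, 2])) .no (.red [.f 1073 5 1, .f 1073 1 3] 151 136 [4, 1] [(151, 136, [4, 1])])) .no) (.red
  [.t 704 4 1, .t 833 4 1, .f 954 3 1] 136 136 [] [(104, 136, [2, 2]), (120, 136, [2]), (136, 136,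
  [])]) (.br 946 (.br 1073 (.red [.f 1073 1 3, .f 1072 3 5] 151 136 [4, 1] [(151, 136, [4, 1])])
  (.hor [.f 945 1 5] []) .no (.br 1201 (.br 1210 (.br 1202 (.hor [.f 1201 1 5] []) .no .no (.con
  136 [4, 4, 1, 1]) (.con 136 [4, 4, 1, 1]) .no) .no (.red [.f 1082 3 1, .f 1081 1 5, .f 953 5 1,
  .t 952 3 1] 136 136 [] [(136, 136, []), (152, 136, [1])]) (.br 945 .no (.use 325) .no (.red [.f
  937 3 1, .f 945 1 5, .t 1209 2 4] 151 136 [4, 1] [(134, 118, [1]), (151, 136, [4, 1])]) .no (.br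
  819 .no (.br 818 .no (.hor [.f 690 1 5] []) (.use 328) (.con 136 [2, 4, 2, 4]) .no (.con 136 [2,
  4, 2, 4])) .no (.red [.f 811 3 1, .f 819 1 3] 119 136 [2, 4] [(118, 136, [2, 4, 4]), (119, 136,
  [2, 4])]) .no (.use 342))) (.use 334) .no) .no .no (.hor [.f 1192 3 5] []) (.br 1066 (.red [.t
  1065 3 1, .f 1073 1 3] 151 136 [4, 1] [(150, 136, [4, 4, 1]), (151, 136, [4, 1])]) (.red [.f 938
  1 3, .f 1065 3 5, .f 1073 5 1, .f 1073 1 3] 151 136 [4, 1] [(134, 133, [3]), (151, 136, [4,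
  1])]) .no (.br 945 .no (.use 336) .no (.red [.f 937 3 1, .f 945 1 5, .f 1073 5 1, .f 1073 1 3]
  151 136 [4, 1] [(134, 118, [1]), (151, 136, [4, 1])]) .no (.use 343)) (.red [.t 946 1 4, .f 1065
  3 5, .f 1073 5 1, .f 1073 1 3] 151 136 [4, 1] [(134, 135, [4]), (151, 136, [4, 1])]) .no) .no)
  .no .no) (.use 322) .no (.hor [.f 938 3 5] []) .no (.use 344)) (.red [.f 696 5 1, .f 697 1 3, .t
  833 4 1, .f 954 3 1] 136 136 [] [(104, 136, [2, 2]), (120, 136, [2]), (136, 136, [])]) .no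

def c10t346 : Tr4 :=
  .br 1074 (.con 136 [4, 4, 1]) .no .no (.hor [.f 1065 3 5] []) .no .no

def c10t347 : Tr4 :=
  .br 1201 (.use 323) .no .no (.hor [.f 1192 3 5] []) (.red [.f 1073 5 1, .f 1073 1 3] 151 136 [4,
  1] [(151, 136, [4, 1])]) .no

def c10t348 : Tr4 :=
  .br 1201 (.use 335) .no .no (.hor [.f 1192 3 5] []) (.red [.f 1073 5 1, .f 1073 1 3] 151 136 [1,
  4] [(151, 136, [1, 4])]) .no

def c10t349 : Tr4 :=
  .br 1210 (.use 347) .no (.red [.f 1082 3 1, .f 1081 1 5, .f 953 5 1, .t 952 3 1] 136 136 []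
  [(136, 136, []), (152, 136, [1])]) (.red [.t 1209 2 4, .f 1072 3 5] 151 136 [4, 1] [(151, 136,
  [4, 1])]) (.use 348) .no

def c10t350 : Tr4 :=
  .br 826 .no (.hor [.f 697 1 5] []) .no (.red [.t 826 4 1] 119 136 [4, 2] [(119, 136, [4, 2])])
  .no .no

def c10t351 : Tr4 :=
  .br 697 .no (.hor [.f 568 1 5] []) .no (.red [.t 688 1 3, .f 568 1 3, .f 697 1 3, .f 696 3 5]
  103 136 [4, 2, 2] [(88, 136, [4, 2, 2, 3, 2]), (103, 136, [4, 2, 2]), (104, 136, [4, 2, 2, 3])])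
  .no .no

def c10t352 : Tr4 :=
  .br 944 .no (.con 136 [4, 2, 4]) .no (.hor [.f 936 3 5] []) .no .no

def c10t353 : Tr4 :=
  .br 826 .no (.red [.f 690 1 3] 103 136 [2, 2, 4] [(103, 136, [2, 2, 4])]) .no .no .no .no

def c10t354 : Tr4 :=
  .br 817 .no (.con 136 [2, 4, 2, 4]) .no (.hor [.f 809 3 5] []) .no (.con 136 [2, 4, 2, 4])

def c10t355 : Tr4 :=
  .br 946 (.br 1073 (.red [.f 1073 1 3, .f 1072 3 5] 151 136 [4, 1] [(151, 136, [4, 1])]) (.hor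
  [.f 945 1 5] []) .no (.br 696 .no (.br 945 .no (.br 826 .no (.br 944 .no (.hor [.f 816 1 5] [])
  .no (.br 704 .no (.br 818 .no (.red [.f 690 1 3] 103 136 [2, 2, 4] [(103, 136, [2, 2, 4])]) .no
  (.br 819 .no (.br 816 .no (.use 351) .no (.con 136 [2, 2, 4, 4]) .no .no) .no (.hor [.f 810 3 5]
  []) .no .no) (.br 816 .no (.use 351) .no (.br 697 .no (.hor [.f 568 1 5] []) .no (.red [.f 808 3
  1, .f 816 1 5, .f 816 5 3, .f 689 3 1] 103 136 [2, 2, 4] [(103, 136, [2, 2, 4]), (118, 102,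
  [1])]) .no .no) .no .no) .no) (.hor [.f 704 3 1, .f 704 1 5] [(105, 104, [3])]) .no .no .no) .no
  .no) .no (.red [.t 817 1 3, .f 826 1 5] 119 136 [2, 4] [(119, 136, [2, 4])]) .no .no) .no (.use
  352) .no (.use 338)) (.red [.t 704 4 1, .t 833 4 1, .f 954 3 1] 136 136 [] [(104, 136, [2, 2]),
  (120, 136, [2]), (136, 136, [])]) (.br 945 .no (.br 818 .no (.use 353) (.red [.t 817 1 3, .f 826
  1 5] 119 136 [2, 4] [(119, 136, [2, 4])]) (.br 819 .no (.con 136 [2, 4, 2, 4]) .no (.hor [.f 810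
  3 5] []) .no .no) (.use 342) .no) .no (.use 352) .no (.use 343)) (.red [.f 696 5 1, .f 697 1 3,
  .t 833 4 1, .f 954 3 1] 136 136 [] [(104, 136, [2, 2]), (120, 136, [2]), (136, 136, [])]) .no)
  .no .no) (.use 322) .no (.hor [.f 938 3 5] []) .no (.br 696 .no (.br 818 .no (.use 353) (.red
  [.f 945 5 3, .f 818 3 1, .f 826 1 3] 119 136 [2, 4] [(119, 136, [2, 4]), (120, 136, [2])]) (.br
  819 .no (.use 354) .no (.hor [.f 810 3 5] []) .no .no) (.red [.f 945 5 3, .t 954 4 2] 119 136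
  [2, 4] [(119, 136, [2, 4])]) (.use 330)) (.red [.t 704 4 1, .t 833 4 1, .f 954 3 1] 136 136 []
  [(104, 136, [2, 2]), (120, 136, [2]), (136, 136, [])]) (.use 344) (.red [.f 696 5 1, .f 697 1 3,
  .t 833 4 1, .f 954 3 1] 136 136 [] [(104, 136, [2, 2]), (120, 136, [2]), (136, 136, [])]) .no)

def c10t356 : Tr4 :=
  .br 1336 (.hor [.f 1336 1 5] []) .no (.red [.f 1208 3 1, .f 1200 1 3, .f 1072 3 1, .f 1080 1 5]
  151 136 [1, 4] [(151, 136, [1, 4]), (167, 136, [1, 4, 1]), (168, 136, [1, 1])]) .no .no .no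

def c10t357 : Tr4 :=
  .br 1200 (.br 1337 (.use 356) .no .no (.red [.t 1208 3 2, .t 1328 2 3, .f 1072 3 1, .f 1080 1 3]
  151 136 [4, 1] [(151, 136, [4, 1]), (167, 136, [4, 1, 1])]) .no (.red [.t 1208 3 2, .f 1208 5 1,
  .f 1200 1 3, .f 1072 3 1, .f 1080 1 3] 151 136 [4, 1] [(151, 136, [4, 1]), (167, 136, [4, 1,
  1])])) .no .no (.use 347) (.red [.t 1080 4 1] 151 136 [4, 1] [(151, 136, [4, 1])]) .no

def c10t358 : Tr4 :=
  .br 819 .no (.con 136 [2, 4, 2, 4]) .no (.hor [.f 810 3 5] []) .no .no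

def c10t359 : Tr4 :=
  .br 944 .no (.con 136 [4, 2, 4]) .no (.hor [.f 936 3 5] []) .no .no

def c10t360 : Tr4 :=
  .br 1065 .no .no .no (.hor [.f 1057 3 5] []) .no (.br 1339 (.br 1194 (.red [.f 1194 1 3, .f 1193
  3 5, .f 1073 5 1, .f 1073 1 3] 151 136 [4, 1] [(151, 136, [4, 1]), (166, 150, [1])]) .no .no
  (.red [.f 1058 3 1] 149 136 [4, 4, 1, 4] [(149, 136, [4, 4, 1, 4])]) (.br 1331 (.con 136 [4, 4,
  1, 1, 3]) (.hor [.f 1202 1 5] []) .no (.con 136 [4, 4, 1, 1, 3]) .no .no) .no) .no .no (.red [.t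
  1330 2 3, .t 1209 2 4] 151 136 [4, 1] [(151, 136, [4, 1]), (167, 136, [4, 1, 1])]) .no .no)

def c10t361 : Tr4 :=
  .br 696 .no (.use 329) .no (.br 945 .no .no .no (.use 359) .no (.br 1200 (.br 1201 (.hor [.f
  1200 1 5] []) .no .no (.br 1337 (.use 356) .no .no (.red [.t 1208 3 2, .t 1328 2 3, .f 1072 3 1,
  .f 1080 1 3] 151 136 [4, 1] [(151, 136, [4, 1]), (167, 136, [4, 1, 1])]) (.br 1202 (.br 697 .no
  (.br 689 .no (.red [.f 561 1 3] 87 136 [2, 2, 2, 4] [(87, 136, [2, 2, 2, 4])]) .no (.br 819 .no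
  (.con 136 [2, 2, 4, 2]) .no (.br 939 (.br 1066 (.red [.t 1193 3 2, .t 1066 3 2] 134 136 [4, 4]
  [(134, 136, [4, 4]), (150, 136, [4, 4, 1])]) (.hor [.f 938 1 5] []) .no (.br 938 .no (.use 260)
  .no (.br 937 (.red [.f 930 3 1, .f 938 1 5, .f 938 5 3, .f 811 3 1] 118 136 [2, 4, 4] [(118,
  136, [2, 4, 4]), (133, 117, [1])]) (.red [.f 930 3 1, .f 938 1 5, .f 938 5 3, .f 811 3 1] 118
  136 [2, 4, 4] [(118, 136, [2, 4, 4]), (133, 117, [1])]) .no (.hor [.f 929 3 5] []) .no (.red [.f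
  930 3 1, .f 938 1 5, .f 938 5 3, .f 811 3 1] 118 136 [2, 4, 4] [(118, 136, [2, 4, 4]), (133,
  117, [1])])) .no (.use 360)) .no (.red [.f 1065 5 3, .t 1066 3 2] 134 136 [4, 4] [(134, 136, [4,
  4])])) .no .no (.br 938 (.br 1065 .no (.hor [.f 937 1 5] []) .no (.con 136 [4, 4, 4]) .no (.con
  136 [4, 4, 4])) (.use 260) .no (.hor [.f 930 3 5] []) .no (.br 1066 (.red [.t 1193 3 2, .f 1073
  1 3] 151 136 [4, 1] [(150, 136, [4, 4, 1]), (151, 136, [4, 1])]) .no .no (.use 360) (.br 810 .no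
  (.con 136 [2, 2, 4, 4, 2]) .no (.br 936 (.con 136 [4, 4, 4]) (.con 136 [2, 2, 4, 4, 1]) .no (.br
  930 (.red [.t 930 1 3] 133 136 [4, 4, 4] [(133, 136, [4, 4, 4])]) .no .no (.br 929 (.con 136 [4,
  4, 4, 4]) (.con 136 [2, 2, 4, 4, 4, 1]) .no (.hor [.f 921 3 5] []) .no .no) .no (.red [.f 929 5
  3, .f 802 3 1, .t 810 1 3, .f 819 1 3] 119 136 [2, 4] [(117, 136, [2, 4, 4, 4]), (118, 136, [2,
  4, 4]), (119, 136, [2, 4])])) .no .no) .no (.red [.f 809 5 1, .t 810 1 3, .f 819 1 3] 119 136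
  [2, 4] [(118, 136, [2, 4, 4]), (119, 136, [2, 4])])) (.red [.f 1065 5 3, .f 1065 3 1, .f 1073 1
  3] 151 136 [4, 1] [(150, 136, [4, 4, 1]), (151, 136, [4, 1])]))) .no (.red [.f 938 5 3, .f 811 3
  1, .f 819 1 3] 119 136 [2, 4] [(118, 136, [2, 4, 4]), (119, 136, [2, 4])])) .no .no) (.red [.f
  689 5 1, .f 690 1 3] 103 136 [2, 2, 4] [(103, 136, [2, 2, 4])]) .no) .no (.hor [.f 688 3 5] [])
  .no .no) .no .no (.hor [.f 1193 3 5] []) (.hor [.f 1202 5 3, .f 1075 3 1, .t 1209 2 4, .f 1072 3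
  5, .f 1074 1 5] []) .no) (.red [.t 1208 3 2, .f 1208 5 1, .f 1200 1 3, .f 1072 3 1, .f 1080 1 3]
  151 136 [4, 1] [(151, 136, [4, 1]), (167, 136, [4, 1, 1])])) (.red [.f 1073 5 1, .f 1073 1 3]
  151 136 [4, 1] [(151, 136, [4, 1])]) .no) .no .no (.use 348) (.red [.t 1080 4 1] 151 136 [4, 1]
  [(151, 136, [4, 1])]) .no)) (.red [.f 696 5 1, .f 697 1 3, .t 833 4 1, .t 697 3 1, .f 954 3 1]
  136 136 [] [(120, 136, [2]), (136, 136, [])]) .no

def c10t362 : Tr4 :=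
  .br 704 .no (.br 818 .no (.use 353) .no (.br 945 .no (.br 944 .no (.hor [.f 816 1 5] []) .no
  (.br 696 .no (.br 697 .no (.hor [.f 568 1 5] []) .no (.br 816 .no (.use 351) .no (.red [.f 808 3
  1, .f 816 1 5, .f 816 5 3, .f 689 3 1] 103 136 [2, 2, 4] [(103, 136, [2, 2, 4]), (118, 102,
  [1])]) .no .no) .no .no) .no (.use 358) (.red [.f 696 5 1, .f 697 1 3, .t 833 4 1, .t 697 3 1,
  .f 954 3 1] 136 136 [] [(120, 136, [2]), (136, 136, [])]) .no) .no .no) .no (.use 359) .no (.use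
  252)) (.red [.f 818 5 1, .f 819 1 3] 119 136 [2, 4] [(119, 136, [2, 4])]) (.use 361)) (.hor [.f
  704 3 1, .f 704 1 5] [(105, 104, [3])]) (.red [.t 704 4 1, .t 833 4 1, .f 954 3 1] 136 136 []
  [(104, 136, [2, 2]), (120, 136, [2]), (136, 136, [])]) .no .no

def c10t363 : Tr4 :=
  .br 1208 (.br 947 .no (.red [.f 819 1 3] 119 136 [2, 4] [(119, 136, [2, 4])]) .no (.br 832 .no
  (.hor [.f 704 1 5] []) (.br 1216 (.use 318) .no .no .no (.br 825 .no (.use 319) .no (.use 321)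
  (.red [.f 825 5 1, .f 826 1 3, .f 954 3 1] 136 136 [] [(120, 136, [2]), (136, 136, [])]) (.br
  1200 (.red [.f 1200 1 3, .f 1072 3 1, .f 1080 1 5] 151 136 [4, 1] [(151, 136, [4, 1]), (167,
  136, [4, 1, 1])]) .no .no (.use 345) (.red [.f 1088 5 1, .t 1080 4 1] 151 136 [4, 1] [(151, 136,
  [4, 1])]) .no)) .no) (.con 136 [2, 2]) .no .no) .no (.br 1216 (.use 318) .no .no .no (.br 1200
  (.red [.f 1200 1 3, .f 1072 3 1, .f 1080 1 5] 151 136 [4, 1] [(151, 136, [4, 1]), (167, 136, [4,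
  1, 1])]) .no .no (.br 1073 (.red [.f 1073 1 3, .f 1072 3 5] 151 136 [4, 1] [(151, 136, [4, 1])])
  (.con 136 [4, 4]) .no (.use 346) (.use 349) .no) (.red [.f 1088 5 1, .t 1080 4 1] 151 136 [4, 1]
  [(151, 136, [4, 1])]) .no) .no)) .no (.br 832 .no (.hor [.f 704 1 5] []) (.br 825 .no (.br 947
  .no (.red [.f 819 1 3] 119 136 [2, 4] [(119, 136, [2, 4])]) .no (.use 319) .no (.use 350)) .no
  (.use 321) (.red [.f 825 5 1, .f 826 1 3, .f 954 3 1] 136 136 [] [(120, 136, [2]), (136, 136,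
  [])]) (.br 1217 (.br 947 .no (.red [.f 819 1 3] 119 136 [2, 4] [(119, 136, [2, 4])]) .no (.use
  355) .no (.br 1073 (.red [.f 1073 1 3, .f 1072 3 5] 151 136 [4, 1] [(151, 136, [4, 1])]) (.con
  136 [4, 4]) .no (.use 346) (.br 1210 (.use 357) .no (.red [.f 1082 3 1, .f 1081 1 5, .f 953 5 1,
  .t 952 3 1] 136 136 [] [(136, 136, []), (152, 136, [1])]) (.red [.t 1209 2 4, .f 1072 3 5] 151
  136 [4, 1] [(151, 136, [4, 1])]) (.br 1097 (.hor [.f 1096 1 5] []) .no (.br 1218 (.hor [.f 1217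
  1 5] []) .no (.br 1225 (.hor [.f 1217 1 3, .f 1217 3 5] [(169, 170, [4])]) .no (.hor [.f 1097 3
  1, .f 1096 1 5] [(154, 136, [3, 1, 3])]) .no .no .no) .no (.red [.f 1210 5 3, .f 1082 3 1, .f
  1081 1 5, .f 953 5 1, .t 952 3 1] 136 136 [] [(136, 136, []), (152, 136, [1])]) .no) .no (.br
  1219 (.br 826 .no (.use 362) .no (.red [.t 826 4 1] 119 136 [2, 4] [(119, 136, [2, 4])]) .no
  .no) .no (.con 136 [3, 1, 3]) .no .no (.red [.f 1210 5 3, .f 1082 3 1, .f 1081 1 5, .f 953 5 1,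
  .t 952 3 1] 136 136 [] [(136, 136, []), (152, 136, [1])])) .no) .no) .no)) .no (.br 1218 (.con
  136 [3, 1, 1]) .no (.hor [.f 1217 3 5] []) (.con 136 [3, 1, 1]) (.con 136 [3, 1, 1]) .no) .no
  (.red [.t 1081 1 3, .f 953 5 1, .t 952 3 1] 136 136 [] [(136, 136, []), (152, 136, [1])]) .no))
  (.con 136 [2, 2]) .no .no) (.red [.f 1072 3 1, .f 1080 1 5] 151 136 [4, 1] [(151, 136, [4, 1])])
  .no .no

def c10t364 : Tr4 :=
  .br 832 .no (.hor [.f 704 1 5] []) (.br 825 .no (.use 319) .no (.use 321) (.red [.f 825 5 1, .f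
  826 1 3, .f 954 3 1] 136 136 [] [(120, 136, [2]), (136, 136, [])]) (.use 355)) (.con 136 [2, 2])
  .no .no

def c10t365 : Tr4 :=
  .br 936 (.red [.t 1064 2 3, .f 945 1 5, .t 809 3 1] 118 136 [4, 2, 4] [(118, 136, [4, 2, 4]),
  (134, 118, [1])]) (.red [.t 808 1 3, .t 817 1 3, .f 826 1 3] 119 136 [4, 2] [(118, 136, [4, 2,
  4]), (119, 136, [4, 2]), (120, 136, [2])]) .no (.br 937 .no .no .no (.hor [.f 928 3 5] []) .no
  .no) (.red [.f 936 5 3, .f 809 3 1, .t 817 1 3, .f 826 1 3] 119 136 [4, 2] [(118, 136, [4, 2,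
  4]), (119, 136, [4, 2]), (120, 136, [2])]) .no

def c10t366 : Tr4 :=
  .br 817 .no (.hor [.f 689 1 3, .f 816 3 5] [(103, 104, [4])]) .no (.use 365) .no .no

def c10t367 : Tr4 :=
  .br 936 (.red [.t 1064 2 3, .f 945 1 5, .f 945 5 3, .f 818 3 1] 119 136 [4, 2] [(119, 136, [4,
  2]), (134, 150, [2])]) (.red [.t 808 1 3, .t 817 1 3, .f 826 1 3] 119 136 [4, 2] [(118, 136, [4,
  2, 4]), (119, 136, [4, 2]), (120, 136, [2])]) .no (.br 937 .no .no .no (.hor [.f 928 3 5] [])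
  .no .no) (.red [.f 936 5 3, .f 809 3 1, .t 817 1 3, .f 826 1 3] 119 136 [4, 2] [(118, 136, [4,
  2, 4]), (119, 136, [4, 2]), (120, 136, [2])]) .no

def c10t368 : Tr4 :=
  .br 817 .no (.hor [.f 689 1 3, .f 816 3 5] [(103, 104, [4])]) .no (.use 367) .no .no

def c10l14 : List Tr4 :=
  [c10t345, c10t346, c10t347, c10t348, c10t349, c10t350, c10t351, c10t352, c10t353, c10t354,
  c10t355, c10t356, c10t357, c10t358, c10t359, c10t360, c10t361, c10t362, c10t363, c10t364,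
  c10t365, c10t366, c10t367, c10t368]

theorem c10k14 : chkLF ⟨4, 0, 0, true, -8⟩ true 0 c10N 345 c10l14 = true := by decide +kernel

def c10t369 : Tr4 :=
  .br 824 .no (.use 320) .no (.hor [.f 816 3 5] []) .no .no

def c10t370 : Tr4 :=
  .br 833 .no (.br 1096 (.use 363) (.red [.t 968 1 4, .t 1089 2 4] 136 136 [] [(136, 136, []),
  (137, 136, [3])]) (.br 1208 (.br 947 .no (.red [.f 819 1 3] 119 136 [2, 4] [(119, 136, [2, 4])])
  .no (.use 364) .no (.br 1073 (.red [.f 1073 1 3, .f 1072 3 5] 151 136 [4, 1] [(151, 136, [4,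
  1])]) (.con 136 [4, 4]) .no (.use 346) (.br 1200 (.red [.f 1200 1 3, .f 1072 3 1, .f 1080 1 5]
  151 136 [4, 1] [(151, 136, [4, 1]), (167, 136, [4, 1, 1])]) .no .no (.use 349) (.red [.t 1080 4
  1] 151 136 [4, 1] [(151, 136, [4, 1])]) .no) .no)) .no (.br 947 .no (.red [.f 819 1 3] 119 136
  [2, 4] [(119, 136, [2, 4])]) .no (.use 364) .no (.br 1073 (.red [.f 1073 1 3, .f 1072 3 5] 151
  136 [4, 1] [(151, 136, [4, 1])]) (.con 136 [4, 4]) .no (.use 346) (.br 826 .no (.br 968 .no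
  (.use 232) (.br 1217 (.br 1210 (.use 357) .no (.red [.f 1082 3 1, .f 1081 1 5, .f 953 5 1, .t
  952 3 1] 136 136 [] [(136, 136, []), (152, 136, [1])]) (.red [.t 1209 2 4, .f 1072 3 5] 151 136
  [4, 1] [(151, 136, [4, 1])]) (.br 832 .no (.hor [.f 704 1 5] []) (.br 825 .no (.use 350) .no
  (.use 236) .no (.br 1219 (.use 362) .no (.br 1218 (.con 136 [3, 1, 1]) .no (.hor [.f 1218 3 5]
  []) .no .no .no) .no .no (.red [.f 1210 5 3, .f 1082 3 1, .f 1081 1 5, .f 953 5 1, .t 952 3 1]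
  136 136 [] [(136, 136, []), (152, 136, [1])]))) (.con 136 [2, 2]) .no .no) .no) .no (.use 246)
  .no (.red [.t 1081 1 3, .f 953 5 1, .t 952 3 1] 136 136 [] [(136, 136, []), (152, 136, [1])])
  .no) .no .no .no) .no (.red [.t 826 4 1] 119 136 [2, 4] [(119, 136, [2, 4])]) .no (.red [.f 825
  5 1, .f 826 1 5, .f 946 5 3, .f 947 3 1] 135 136 [4] [(135, 136, [4])])) .no)) (.red [.f 1072 3
  1, .f 1080 1 5] 151 136 [4, 1] [(151, 136, [4, 1])]) .no .no) .no (.red [.f 1088 5 3, .f 961 3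
  1, .t 1089 2 4] 136 136 [] [(136, 136, []), (137, 136, [3])]) .no) (.hor [.f 833 3 1, .f 833 1
  5] [(121, 120, [3])]) (.red [.t 833 4 1, .f 954 3 1] 136 136 [] [(120, 136, [2]), (136, 136,
  [])]) .no (.br 947 .no (.red [.f 819 1 3] 119 136 [2, 4] [(119, 136, [2, 4])]) .no (.br 825 .no
  (.br 946 (.br 824 .no (.hor [.f 696 1 5] []) .no (.br 1073 (.red [.f 1073 1 3, .f 1072 3 5] 151
  136 [4, 1] [(151, 136, [4, 1])]) (.hor [.f 945 1 5] []) .no (.br 945 .no (.br 826 .no (.use 262)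
  .no (.red [.t 817 1 3, .f 826 1 5] 119 136 [2, 4] [(119, 136, [2, 4])]) .no .no) .no (.use 352)
  .no (.br 826 .no (.use 262) .no (.br 938 (.red [.f 938 1 3, .f 938 3 5, .t 826 4 1] 119 136 [2,
  4] [(119, 136, [2, 4]), (134, 118, [1])]) (.use 366) .no (.use 368) .no (.red [.t 1073 4 2, .f
  938 3 5, .t 826 4 1] 119 136 [2, 4] [(119, 136, [2, 4]), (134, 118, [1])])) .no .no)) .no .no)
  .no .no) (.use 322) .no (.hor [.f 938 3 5] []) .no (.br 826 .no (.use 262) .no (.red [.f 945 5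
  3, .f 818 3 1, .f 826 1 3] 119 136 [2, 4] [(119, 136, [2, 4]), (120, 136, [2])]) .no .no)) .no
  (.use 369) (.red [.f 825 5 1, .f 826 1 3, .f 954 3 1] 136 136 [] [(120, 136, [2]), (136, 136,
  [])]) (.red [.f 824 5 3, .t 833 4 1, .f 954 3 1] 136 136 [] [(120, 136, [2]), (136, 136, [])]))
  .no (.use 263))

def c10t371 : Tr4 :=
  .br 818 (.con 136 [2, 4, 2]) (.con 136 [2, 4, 2]) (.hor [.f 818 3 5] []) (.con 136 [2, 4, 2])
  .no (.con 136 [2, 4, 2])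

def c10t372 : Tr4 :=
  .br 1200 (.red [.f 1200 1 3, .f 1072 3 1, .f 1080 1 5] 151 136 [1, 4] [(151, 136, [1, 4]), (167,
  136, [1, 4, 1])]) .no .no (.hor [.f 1192 3 5] []) .no .no

def c10t373 : Tr4 :=
  .br 1210 (.br 1211 (.hor [.f 1210 1 5] []) .no .no (.con 136 [4, 1, 1]) .no .no) .no (.br 1201
  (.br 1200 (.red [.f 1200 1 3, .f 1072 3 1, .f 1080 1 5] 151 136 [4, 1] [(151, 136, [4, 1]),
  (167, 136, [4, 1, 1])]) .no .no (.br 1202 (.hor [.f 1201 1 5] []) .no .no (.con 136 [4, 4, 1,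
  1]) (.con 136 [4, 4, 1, 1]) .no) .no .no) .no .no (.use 372) (.red [.f 1073 5 1, .f 1073 1 3]
  151 136 [4, 1] [(151, 136, [4, 1])]) (.red [.t 1080 4 1] 151 136 [4, 1] [(151, 136, [4, 1])]))
  (.red [.t 1209 2 4, .f 1072 3 5] 151 136 [4, 1] [(151, 136, [4, 1])]) (.br 1201 (.br 1202 (.hor
  [.f 1201 1 5] []) .no .no (.br 1200 (.red [.f 1200 1 3, .f 1072 3 1, .f 1080 1 5] 151 136 [4, 1]
  [(151, 136, [4, 1]), (167, 136, [4, 1, 1])]) .no .no (.con 136 [4, 4, 1, 1]) .no .no) (.hor [.f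
  1202 5 3, .f 1075 3 1, .t 1209 2 4, .f 1072 3 5, .f 1074 1 5] []) .no) .no .no (.use 372) (.red
  [.f 1073 5 1, .f 1073 1 3] 151 136 [4, 1] [(151, 136, [4, 1])]) (.red [.t 1080 4 1] 151 136 [4,
  1] [(151, 136, [4, 1])])) .no

def c10t374 : Tr4 :=
  .br 961 (.br 1091 (.br 962 .no (.br 835 .no (.br 1088 (.br 1208 (.br 953 .no (.br 827 .no (.br
  947 .no (.use 162) .no (.br 946 (.red [.t 1074 2 3] 135 136 [4] [(135, 136, [4])]) (.use 208)
  .no (.hor [.f 938 3 5] []) .no (.use 201)) .no (.red [.f 946 5 3, .f 947 3 1] 135 136 [4] [(135,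
  136, [4])])) .no (.br 824 .no (.use 371) (.con 136 [2, 2]) (.br 944 .no .no .no (.br 945 (.br
  946 (.hor [.f 945 1 5] []) (.con 136 [4, 4]) .no (.con 136 [4, 4]) (.con 136 [4, 4]) .no) (.red
  [.f 817 1 3, .f 816 3 5] 119 136 [2, 4] [(119, 136, [2, 4])]) .no (.hor [.f 936 3 5] []) (.br
  1073 (.red [.f 1073 1 3, .f 1072 3 5] 151 136 [4, 1] [(151, 136, [4, 1])]) .no .no (.br 1074
  (.con 136 [4, 4, 1]) .no .no (.hor [.f 1065 3 5] []) .no .no) (.red [.f 945 5 1, .t 1074 2 3]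
  135 136 [4] [(135, 136, [4])]) .no) .no) (.red [.t 824 4 1] 119 136 [2, 4] [(119, 136, [2, 4])])
  .no) .no .no) .no (.red [.f 826 5 1, .f 825 1 5, .t 1089 2 4] 136 136 [] [(136, 136, [])])) .no
  (.br 946 (.red [.t 1074 2 3, .f 945 3 5] 135 136 [4] [(135, 136, [4])]) (.br 1073 (.red [.f 1073
  1 3, .f 1072 3 5] 151 136 [4, 1] [(151, 136, [4, 1])]) .no .no (.br 1074 (.con 136 [4, 4, 1])
  .no .no (.hor [.f 1065 3 5] []) .no .no) (.use 373) .no) .no (.br 1074 (.br 1073 (.red [.f 1073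
  1 3, .f 1072 3 5] 151 136 [4, 1] [(151, 136, [4, 1])]) .no .no (.con 136 [4, 4, 1]) .no .no) .no
  .no (.red [.f 938 3 1] 134 136 [4, 4] [(134, 136, [4, 4])]) .no (.use 373)) (.red [.f 946 5 3,
  .f 945 3 5, .t 1089 2 4] 136 136 [] [(136, 136, [])]) .no) .no .no) .no .no (.red [.f 1072 3 1,
  .f 1080 1 5] 151 136 [4, 1] [(151, 136, [4, 1])]) .no .no) .no (.con 136 [3, 1]) .no .no .no)
  (.hor [.f 835 3 1, .f 834 1 5] [(121, 120, [3])]) (.red [.t 834 1 4, .f 954 3 1, .f 961 1 5] 136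
  136 [] [(120, 136, [2]), (136, 136, [])]) .no .no) (.hor [.f 962 3 5] []) .no .no .no) .no (.use
  223) .no .no .no) (.con 136 [3]) (.con 136 [3]) (.con 136 [2]) (.con 136 [3]) .no

def c10t375 : Tr4 :=
  .br 1083 (.con 136 [1, 4]) (.red [.f 955 1 3] 136 136 [] [(136, 136, [])]) .no (.hor [.f 1074 3
  5] []) .no .no

def c10t376 : Tr4 :=
  .br 1211 (.hor [.f 1210 1 5] []) .no (.red [.t 1218 2 4, .t 1081 2 3] 136 136 [] [(136, 136,
  []), (152, 136, [1])]) .no .no .no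

def c10t377 : Tr4 :=
  .br 971 (.br 969 .no (.hor [.f 841 1 5] []) (.con 136 [3, 2, 3]) .no .no (.con 136 [3, 3]))
  (.hor [.f 842 1 5] []) (.br 969 .no (.hor [.f 841 1 5] []) (.con 136 [3, 2, 3]) .no .no (.con
  136 [3, 2, 3])) .no .no .no

def c10t378 : Tr4 :=
  .br 1337 (.hor [.f 1337 1 5] []) .no .no (.red [.t 1329 3 2, .t 1202 3 2] 151 136 [1, 4] [(151,
  136, [1, 4]), (167, 136, [1, 4, 1])]) .no .no

def c10t379 : Tr4 :=
  .br 1202 (.br 1338 (.use 378) .no (.red [.t 1345 2 4] 168 136 [1, 1] [(168, 136, [1, 1])]) .no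
  (.con 136 [1, 1, 4]) (.red [.f 1209 5 1, .f 1208 1 5, .t 1072 3 1] 151 136 [4, 1] [(151, 136,
  [4, 1])])) .no .no (.hor [.f 1066 3 1, .f 1073 1 5] [(150, 151, [4])]) .no .no

def c10t380 : Tr4 :=
  .br 1098 (.hor [.f 1090 1 3, .f 1089 3 5] [(153, 137, [1])]) .no (.br 1099 .no (.hor [.f 970 3
  1, .f 970 1 5] [(138, 136, [3, 3])]) (.hor [.f 1098 3 5] []) .no .no .no) .no (.hor [.t 1218 2
  3, .f 1089 3 5] [(153, 137, [1])]) .no

def c10t381 : Tr4 :=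
  .br 1200 (.red [.f 1200 1 3, .f 1072 3 1] 151 136 [1, 4] [(151, 136, [1, 4]), (167, 136, [1, 4,
  1])]) .no .no (.con 136 [1, 4, 1, 4]) .no .no

def c10t382 : Tr4 :=
  .br 1337 (.hor [.f 1337 1 5] []) .no .no (.red [.t 1336 2 4, .f 1072 3 1] 151 136 [1, 4] [(151,
  136, [1, 4]), (167, 136, [1, 4, 1])]) .no .no

def c10t383 : Tr4 :=
  .br 1338 (.br 1202 (.use 378) .no .no (.br 1201 (.use 381) .no .no (.hor [.f 1193 3 5] []) .no
  (.use 382)) .no (.red [.f 1073 5 1, .f 1073 1 5, .f 1201 5 3, .t 1202 3 2] 151 136 [4, 1] [(151,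
  136, [4, 1])])) .no (.red [.t 1345 2 4] 168 136 [1, 1] [(168, 136, [1, 1])]) (.br 1202 .no .no
  .no (.br 1201 (.use 381) .no .no (.hor [.f 1193 3 5] []) .no (.br 1337 (.con 136 [1, 1, 1, 4])
  .no .no (.red [.t 1336 2 4, .f 1072 3 1] 151 136 [4, 1] [(151, 136, [4, 1]), (167, 136, [4, 1,
  1])]) .no .no)) .no (.red [.f 1073 5 1, .f 1073 1 5, .f 1201 5 3, .t 1202 3 2] 151 136 [4, 1]
  [(151, 136, [4, 1])])) (.con 136 [1, 1, 4]) (.red [.f 1209 5 1, .f 1209 1 3] 168 136 [1, 1]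
  [(168, 136, [1, 1])])

def c10t384 : Tr4 :=
  .br 1073 (.hor [.f 1073 1 5] []) (.con 136 [4, 4, 1]) .no (.con 136 [4, 4, 1]) .no .no

def c10t385 : Tr4 :=
  .br 1210 (.con 136 [1, 4, 1]) .no .no (.hor [.f 1202 3 5] []) .no .no

def c10t386 : Tr4 :=
  .br 1210 (.con 136 [1, 4, 1]) .no .no (.hor [.f 1202 3 5] []) .no .no

def c10t387 : Tr4 :=
  .br 1211 (.red [.f 1211 1 3, .t 1218 2 4] 152 136 [1] [(152, 136, [1]), (168, 136, [1, 1])]) .no
  .no (.br 1217 (.br 1208 (.br 1209 (.hor [.f 1208 1 5] []) .no .no (.con 136 [4, 1, 1]) (.con 136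
  [4, 1, 1]) .no) .no .no (.red [.f 1072 3 1, .f 1080 1 3] 152 136 [1] [(151, 136, [4, 1]), (152,
  136, [1])]) (.use 385) .no) .no (.hor [.f 1089 3 1, .f 1088 1 5] [(153, 137, [1])]) (.br 1208
  (.use 386) .no .no (.red [.f 1072 3 1, .f 1080 1 3] 152 136 [1] [(151, 136, [4, 1]), (152, 136,
  [1])]) .no .no) .no .no) .no (.red [.f 1082 5 1, .f 1082 1 3, .t 1081 2 3] 136 136 [] [(136,
  136, []), (152, 136, [1])])

def c10t388 : Tr4 :=
  .br 1210 (.con 136 [1, 4, 1]) .no .no (.hor [.f 1201 3 5] []) (.con 136 [1, 4, 1]) .no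

def c10t389 : Tr4 :=
  .br 1202 (.hor [.f 1201 1 5] []) .no .no (.con 136 [4, 1, 1, 4]) (.con 136 [4, 1, 4, 1]) .no

def c10t390 : Tr4 :=
  .br 1338 (.br 1200 (.red [.f 1200 1 3, .f 1072 3 1] 151 136 [4, 1] [(151, 136, [4, 1]), (167,
  136, [4, 1, 1])]) .no .no (.br 1201 (.use 389) .no .no (.hor [.f 1192 3 5] []) (.br 1337 (.hor
  [.f 1337 1 5] []) .no .no (.red [.f 1201 5 3, .f 1201 3 1, .f 1209 1 3] 168 136 [1, 1] [(167,
  136, [4, 1, 1]), (168, 136, [1, 1])]) .no .no) .no) (.use 382) .no) .no (.red [.t 1345 2 4] 168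
  136 [1, 1] [(168, 136, [1, 1])]) (.br 1337 (.con 136 [1, 1, 1, 4]) .no .no (.hor [.f 1329 3 5]
  []) .no .no) (.con 136 [1, 1, 4]) (.red [.f 1209 5 1, .f 1209 1 3] 168 136 [1, 1] [(168, 136,
  [1, 1])])

def c10t391 : Tr4 :=
  .br 1211 (.hor [.f 1210 1 5] []) .no .no (.con 136 [1, 4, 1]) .no .no

def c10t392 : Tr4 :=
  .br 1211 (.hor [.f 1210 1 5] []) .no .no (.con 136 [1, 4, 1]) .no .no

def c10t393 : Tr4 :=
  .br 1208 (.br 1210 (.use 392) .no .no (.br 1211 (.br 1203 (.red [.f 1203 1 3, .f 1202 3 5, .f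
  1082 5 1, .f 1082 1 3] 152 136 [1] [(152, 136, [1]), (167, 151, [1])]) .no .no (.red [.f 1067 3
  1, .t 1202 3 2, .f 1082 1 3] 152 136 [1] [(150, 136, [4, 1, 4]), (151, 136, [4, 1]), (152, 136,
  [1])]) .no .no) .no .no (.use 386) .no .no) (.red [.f 1082 5 1, .f 1082 1 3, .t 1081 2 3] 136
  136 [] [(136, 136, []), (152, 136, [1])]) .no) .no .no (.red [.f 1072 3 1, .f 1080 1 3] 152 136
  [1] [(151, 136, [4, 1]), (152, 136, [1])]) .no .no

def c10l15 : List Tr4 :=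
  [c10t369, c10t370, c10t371, c10t372, c10t373, c10t374, c10t375, c10t376, c10t377, c10t378,
  c10t379, c10t380, c10t381, c10t382, c10t383, c10t384, c10t385, c10t386, c10t387, c10t388,
  c10t389, c10t390, c10t391, c10t392, c10t393]

theorem c10k15 : chkLF ⟨4, 0, 0, true, -8⟩ true 0 c10N 369 c10l15 = true := by decide +kernel

def c10t394 : Tr4 :=
  .br 946 (.red [.t 946 1 3, .f 955 1 3] 136 136 [] [(135, 136, [4]), (136, 136, [])]) (.hor [.f
  818 1 3, .f 946 3 5] [(119, 120, [4])]) .no (.br 1075 (.br 1210 (.use 376) .no .no (.red [.t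
  1202 3 2, .f 1082 1 3] 152 136 [1] [(151, 136, [4, 1]), (152, 136, [1])]) (.red [.f 1082 5 1, .f
  1082 1 3, .t 1081 2 3] 136 136 [] [(136, 136, []), (152, 136, [1])]) (.br 1217 (.br 1208 (.br
  1074 (.hor [.f 1074 1 5] []) .no .no (.br 1073 (.br 1219 (.br 1202 (.br 1337 (.br 1338 (.hor [.f
  1337 1 5] []) .no (.red [.t 1345 2 4] 168 136 [1, 1] [(168, 136, [1, 1])]) .no (.con 136 [1, 1,
  4]) .no) .no .no (.red [.t 1329 3 2, .t 1202 3 2] 151 136 [4, 1] [(151, 136, [4, 1]), (167, 136,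
  [4, 1, 1])]) (.red [.f 1209 5 1, .f 1208 1 5, .t 1072 3 1] 151 136 [4, 1] [(151, 136, [4, 1])])
  .no) .no .no (.hor [.f 1066 3 1, .f 1073 1 5] [(150, 151, [4])]) .no .no) .no (.use 379) (.red
  [.t 1218 2 4, .t 1081 2 3] 136 136 [] [(136, 136, []), (152, 136, [1])]) .no .no) (.red [.f 938
  3 1, .t 946 1 3] 134 136 [4, 4] [(134, 136, [4, 4]), (135, 136, [4])]) .no (.hor [.f 1065 3 5]
  []) .no .no) .no (.br 1219 (.br 1211 (.red [.f 1211 1 3] 168 136 [1, 1] [(168, 136, [1, 1])])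
  .no .no .no .no .no) .no (.use 383) (.red [.t 1218 2 4, .t 1081 2 3] 136 136 [] [(136, 136, []),
  (152, 136, [1])]) .no .no)) .no .no (.red [.f 1072 3 1, .f 1080 1 3] 152 136 [1] [(151, 136, [4,
  1]), (152, 136, [1])]) .no .no) .no (.hor [.f 1089 3 1, .f 1088 1 5] [(153, 137, [1])]) .no .no
  .no)) .no .no (.br 1074 (.use 384) .no .no (.hor [.f 1066 3 5] []) .no (.br 1219 (.use 387) .no
  (.br 1217 (.br 1208 (.br 1209 (.hor [.f 1208 1 5] []) .no .no (.use 388) (.use 390) .no) .no .no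
  (.red [.f 1072 3 1, .f 1080 1 3] 152 136 [1] [(151, 136, [4, 1]), (152, 136, [1])]) (.br 1210
  (.use 391) .no .no (.br 1211 (.br 1203 (.red [.f 1203 1 3, .f 1202 3 5, .f 1082 5 1, .f 1082 1
  3] 152 136 [1] [(152, 136, [1]), (167, 151, [1])]) .no .no (.red [.f 1067 3 1, .t 1202 3 2, .f
  1082 1 3] 152 136 [1] [(150, 136, [4, 4, 1]), (151, 136, [4, 1]), (152, 136, [1])]) .no .no) .no
  .no (.use 385) .no .no) (.red [.f 1082 5 1, .f 1082 1 3, .t 1081 2 3] 136 136 [] [(136, 136,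
  []), (152, 136, [1])]) .no) .no) .no (.con 136 [3, 1, 1]) (.use 393) .no .no) (.red [.t 1218 2
  4, .t 1081 2 3] 136 136 [] [(136, 136, []), (152, 136, [1])]) .no .no)) .no (.red [.f 1074 5 3,
  .f 947 3 1, .f 955 1 3] 136 136 [] [(135, 136, [4]), (136, 136, [])])) .no (.br 1219 (.use 387)
  .no (.br 1074 (.br 1075 (.hor [.f 1074 1 5] []) .no .no (.use 384) .no .no) .no .no (.br 1075
  (.br 1210 (.use 376) .no .no (.red [.t 1202 3 2, .f 1082 1 3] 152 136 [1] [(151, 136, [4, 1]),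
  (152, 136, [1])]) (.red [.f 1082 5 1, .f 1082 1 3, .t 1081 2 3] 136 136 [] [(136, 136, []),
  (152, 136, [1])]) (.br 1217 (.br 1208 (.br 1073 (.use 379) .no .no (.hor [.f 1065 3 5] []) .no
  .no) .no .no (.red [.f 1072 3 1, .f 1080 1 3] 152 136 [1] [(151, 136, [4, 1]), (152, 136, [1])])
  .no .no) .no (.con 136 [3, 1, 1]) .no .no .no)) .no .no (.hor [.f 1066 3 5] []) .no .no) (.red
  [.f 1074 5 3, .f 947 3 1, .f 955 1 3] 136 136 [] [(135, 136, [4]), (136, 136, [])]) (.red [.f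
  945 5 1, .t 946 1 3, .f 955 1 3] 136 136 [] [(135, 136, [4]), (136, 136, [])])) (.red [.t 1218 2
  4, .t 1081 2 3] 136 136 [] [(136, 136, []), (152, 136, [1])]) .no .no)

def c10t395 : Tr4 :=
  .br 1074 (.use 384) .no .no (.hor [.f 1066 3 5] []) .no (.use 390)

def c10t396 : Tr4 :=
  .br 1074 .no .no .no (.hor [.f 1065 3 5] []) (.red [.f 1074 5 3, .f 1074 3 1] 151 136 [4, 1]
  [(151, 136, [4, 1])]) .no

def c10t397 : Tr4 :=
  .br 1210 (.use 391) .no .no (.use 396) (.red [.f 1082 5 1, .f 1082 1 3, .t 1081 2 3] 136 136 []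
  [(136, 136, []), (152, 136, [1])]) .no

def c10t398 : Tr4 :=
  .br 1075 (.br 1210 (.use 376) .no .no (.red [.t 1202 3 2, .f 1082 1 3] 152 136 [1] [(151, 136,
  [4, 1]), (152, 136, [1])]) (.red [.f 1082 5 1, .f 1082 1 3, .t 1081 2 3] 136 136 [] [(136, 136,
  []), (152, 136, [1])]) .no) (.red [.t 946 3 1, .f 953 1 5, .t 1217 4 2] 152 136 [1] [(135, 119,
  [1]), (152, 136, [1])]) .no (.use 393) .no (.red [.f 1074 5 3, .f 946 3 1, .f 953 1 5, .t 1217 4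
  2] 152 136 [1] [(135, 136, [4]), (152, 136, [1])])

def c10t399 : Tr4 :=
  .br 1074 (.hor [.f 1074 1 5] []) .no .no (.hor [.f 1065 3 5] []) .no .no

def c10t400 : Tr4 :=
  .br 1219 (.use 387) .no (.br 955 .no (.br 945 (.red [.f 945 1 3, .f 945 3 5, .f 953 5 3, .t 962
  4 1] 136 136 [] [(135, 119, [1]), (136, 136, [])]) (.br 1217 (.br 1208 (.br 1209 (.hor [.f 1208
  1 5] []) .no .no (.use 388) (.br 947 (.red [.t 946 3 1, .f 953 1 5, .f 1081 5 1, .f 1082 1 3]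
  152 136 [1] [(135, 119, [1]), (152, 136, [1])]) (.red [.f 819 1 3] 119 136 [2, 4] [(119, 136,
  [2, 4])]) .no (.br 1075 (.br 1074 (.hor [.f 1074 1 5] []) .no .no (.br 1073 (.use 379) .no .no
  (.hor [.f 1065 3 5] []) .no .no) .no (.use 383)) .no .no (.use 395) .no (.red [.f 1074 5 3, .f
  946 3 1, .f 953 1 5, .f 1081 5 1, .f 1082 1 3] 152 136 [1] [(135, 119, [1]), (152, 136, [1])]))
  .no .no) .no) .no .no (.red [.f 1072 3 1, .f 1080 1 3] 152 136 [1] [(151, 136, [4, 1]), (152,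
  136, [1])]) (.br 1073 (.red [.t 1072 3 1, .f 1080 1 3] 152 136 [1] [(151, 136, [4, 1]), (152,
  136, [1])]) .no .no (.use 397) (.red [.t 953 1 4, .f 953 5 3, .t 962 4 1] 136 136 [] [(135, 119,
  [1]), (136, 136, [])]) .no) .no) .no (.con 136 [3, 1, 1]) (.use 398) .no .no) .no (.br 1217 (.br
  1073 (.br 1209 (.red [.f 1209 1 3] 168 136 [1, 1] [(168, 136, [1, 1])]) .no .no .no (.br 1074
  (.hor [.f 1073 1 5] []) .no .no (.br 1075 (.br 1208 (.use 379) .no .no (.red [.f 1072 3 1, .f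
  1072 1 5] 151 136 [4, 1] [(151, 136, [4, 1])]) .no .no) (.red [.t 946 3 1, .f 953 1 5, .f 1081 5
  1, .f 1082 1 3] 152 136 [1] [(135, 119, [1]), (152, 136, [1])]) .no (.hor [.f 1066 3 5] []) .no
  .no) (.red [.f 1074 5 3, .t 1073 1 3] 151 136 [4, 1] [(151, 136, [4, 1])]) .no) (.red [.t 1072 3
  1, .f 1080 1 3] 152 136 [1] [(151, 136, [4, 1]), (152, 136, [1])])) .no .no (.br 1208 (.br 1210
  (.use 392) .no .no (.use 396) (.red [.f 1082 5 1, .f 1082 1 3, .t 1081 2 3] 136 136 [] [(136,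
  136, []), (152, 136, [1])]) (.br 1075 (.use 399) (.red [.t 946 3 1, .f 953 1 5, .f 1081 5 1, .f
  1082 1 3] 152 136 [1] [(135, 119, [1]), (152, 136, [1])]) .no (.use 395) .no (.red [.f 1074 5 3,
  .f 946 3 1, .f 953 1 5, .f 1081 5 1, .f 1082 1 3] 152 136 [1] [(135, 119, [1]), (152, 136,
  [1])]))) .no .no (.red [.f 1072 3 1, .f 1080 1 3] 152 136 [1] [(151, 136, [4, 1]), (152, 136,
  [1])]) (.use 397) .no) (.red [.t 953 1 4, .f 953 5 3, .t 962 4 1] 136 136 [] [(135, 119, [1]),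
  (136, 136, [])]) .no) .no (.con 136 [3, 1, 1]) (.use 398) .no .no) .no (.red [.t 1080 4 2, .f
  945 3 5, .f 953 5 3, .t 962 4 1] 136 136 [] [(135, 119, [1]), (136, 136, [])])) .no (.hor [.f
  946 3 5] []) .no .no) (.red [.t 1218 2 4, .t 1081 2 3] 136 136 [] [(136, 136, []), (152, 136,
  [1])]) .no .no

def c10t401 : Tr4 :=
  .br 1097 (.hor [.f 1097 1 5] []) .no (.con 136 [3, 1, 3]) .no .no (.con 136 [3, 3])

def c10t402 : Tr4 :=
  .br 1098 (.use 401) .no (.red [.f 970 3 1, .t 969 4 1, .f 953 1 3] 136 136 [] [(136, 136, []),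
  (137, 136, [3]), (138, 136, [3, 3])]) .no .no (.red [.f 1089 5 3, .f 961 3 1, .f 953 1 3] 136
  136 [] [(136, 136, []), (137, 136, [3])])

def c10t403 : Tr4 :=
  .br 1097 (.hor [.f 1097 1 5] []) .no (.br 1099 (.hor [.f 1098 1 5] []) .no (.con 136 [3, 1, 3])
  .no .no .no) .no .no (.br 1099 (.hor [.f 1098 1 5] []) .no (.con 136 [3, 3, 1]) .no .no .no)

def c10t404 : Tr4 :=
  .br 938 (.con 136 [4, 4, 4]) .no .no (.hor [.f 929 3 5] []) .no .no

def c10t405 : Tr4 :=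
  .br 1200 (.red [.f 1200 1 3, .f 1072 3 1] 167 136 [4, 1, 1] [(151, 136, [4, 1]), (167, 136, [4,
  1, 1])]) .no .no (.br 1328 (.br 937 (.red [.f 937 1 3, .f 936 3 5] 134 136 [4, 4] [(134, 136,
  [4, 4])]) (.con 136 [4, 2, 4, 4]) .no (.use 404) (.br 1066 (.red [.f 1066 1 3, .t 1073 2 4] 134
  136 [4, 4] [(134, 136, [4, 4]), (150, 136, [4, 4, 1])]) .no .no (.br 1065 (.con 136 [4, 4, 1,
  4]) .no .no (.hor [.f 1057 3 5] []) .no (.red [.t 944 4 1] 134 136 [4, 4] [(134, 136, [4, 4])]))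
  (.br 1203 (.con 136 [4, 4, 1, 1]) .no .no (.red [.t 1202 2 4, .t 1073 2 4, .f 936 3 5] 134 136
  [4, 4] [(134, 136, [4, 4]), (150, 136, [4, 4, 1])]) .no .no) (.red [.f 945 1 3, .f 937 5 1, .f
  945 3 1, .f 937 1 3] 134 136 [4, 4] [(134, 136, [4, 4])])) .no) .no .no (.red [.f 1192 3 1, .f
  1200 1 3, .f 1200 3 5] 167 136 [4, 1, 1] [(166, 136, [4, 4, 1, 1]), (167, 136, [4, 1, 1])])
  (.red [.t 1208 1 4] 167 136 [4, 1, 1] [(167, 136, [4, 1, 1])]) .no) .no .no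

def c10t406 : Tr4 :=
  .br 944 .no (.con 136 [2, 4, 4]) .no (.br 1211 (.br 1337 (.br 1338 (.hor [.f 1337 1 5] []) .no
  (.red [.f 1074 1 3, .f 1201 3 5, .t 1345 2 4] 168 136 [1, 1] [(151, 150, [3]), (168, 136, [1,
  1])]) (.con 136 [4, 1, 1, 1]) .no .no) .no .no (.red [.f 1201 3 1, .f 1208 1 5] 167 136 [4, 1,
  1] [(167, 136, [4, 1, 1])]) (.red [.f 1074 1 3, .f 1201 3 5, .f 1209 5 1, .f 1209 1 3] 168 136
  [1, 1] [(151, 150, [3]), (168, 136, [1, 1])]) .no) .no (.use 405) (.con 136 [4, 1, 1]) .no .no)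
  .no .no

def c10t407 : Tr4 :=
  .br 697 .no (.hor [.f 568 1 5] []) .no (.hor [.t 688 1 3, .f 697 1 5] [(103, 136, [2, 4, 2])])
  .no .no

def c10t408 : Tr4 :=
  .br 696 .no (.use 407) (.red [.t 704 4 1, .f 688 1 3] 103 136 [2, 2, 4] [(103, 136, [2, 2, 4]),
  (104, 136, [2, 2])]) .no (.red [.f 696 5 1, .f 688 1 3] 103 136 [2, 2, 4] [(103, 136, [2, 2,
  4])]) .no

def c10t409 : Tr4 :=
  .br 816 .no (.use 408) .no (.con 136 [2, 2, 4, 4]) .no .no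

def c10t410 : Tr4 :=
  .br 696 .no (.br 697 .no (.hor [.f 568 1 5] []) (.con 136 [2, 2, 2]) (.red [.t 688 1 3, .f 697 1
  5] 103 136 [2, 2, 4] [(103, 136, [2, 2, 4])]) .no .no) (.red [.f 824 5 3, .f 696 3 1, .f 688 1
  3] 103 136 [2, 2, 4] [(103, 136, [2, 2, 4]), (104, 136, [2, 2])]) .no (.red [.f 696 5 1, .f 688
  1 3] 103 136 [2, 2, 4] [(103, 136, [2, 2, 4])]) .no

def c10t411 : Tr4 :=
  .br 816 .no (.use 410) .no (.con 136 [2, 2, 4, 4]) .no .no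

def c10t412 : Tr4 :=
  .br 944 .no (.hor [.f 816 1 5] []) .no (.br 819 .no (.br 833 .no (.use 409) (.hor [.f 833 3 1,
  .f 833 1 5] [(121, 137, [2])]) .no .no (.use 411)) .no (.hor [.f 810 3 5] []) .no .no) .no .no

def c10t413 : Tr4 :=
  .br 825 .no (.hor [.f 697 1 5] []) (.red [.f 1074 1 3, .f 946 3 1, .f 953 1 5, .t 833 4 1, .f
  817 1 3] 119 136 [2, 4] [(119, 136, [2, 4]), (120, 136, [2]), (135, 119, [1]), (151, 152, [4])])
  .no .no (.use 412)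

def c10t414 : Tr4 :=
  .br 944 .no (.con 136 [2, 4, 4]) .no (.hor [.f 936 3 5] []) .no .no

def c10t415 : Tr4 :=
  .br 819 .no (.br 816 .no (.red [.f 688 1 3] 103 136 [2, 4, 2] [(103, 136, [2, 4, 2])]) .no (.con
  136 [2, 4, 2, 4]) (.con 136 [2, 4, 2, 4]) .no) .no (.hor [.f 810 3 5] []) .no .no

def c10t416 : Tr4 :=
  .br 824 .no (.con 136 [2, 2, 4]) (.con 136 [2, 2]) (.hor [.f 816 3 5] []) .no .no

def c10t417 : Tr4 :=
  .br 819 .no (.br 817 .no (.con 136 [2, 4, 2, 4]) .no (.hor [.f 809 3 5] []) .no (.con 136 [2, 4,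
  2, 4])) .no (.hor [.f 810 3 5] []) .no .no

def c10t418 : Tr4 :=
  .br 825 .no (.hor [.f 697 1 5] []) (.br 824 .no (.use 415) (.hor [.f 824 3 5] []) (.red [.f 1074
  1 3, .f 946 3 1, .f 953 1 5, .t 833 4 1, .t 824 4 1] 119 136 [2, 4] [(119, 136, [2, 4]), (120,
  136, [2]), (135, 119, [1]), (151, 152, [4])]) .no .no) (.use 416) .no (.use 417)

def c10t419 : Tr4 :=
  .br 937 (.red [.f 937 1 3, .f 936 3 5] 134 136 [4, 4] [(134, 136, [4, 4])]) (.con 136 [4, 2, 4,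
  4]) .no (.use 404) (.red [.t 1073 2 4, .f 936 3 5] 134 136 [4, 4] [(134, 136, [4, 4])]) .no

def c10t420 : Tr4 :=
  .br 944 .no (.con 136 [2, 4, 4]) .no (.use 419) .no .no

def c10t421 : Tr4 :=
  .br 1073 .no (.use 420) .no (.hor [.f 1065 3 5] []) .no .no

def c10t422 : Tr4 :=
  .br 945 .no (.red [.t 953 1 4, .t 833 4 1, .f 817 1 3] 119 136 [2, 4] [(119, 136, [2, 4]), (120,
  136, [2]), (135, 119, [1])]) .no (.use 414) .no (.br 824 .no (.use 415) (.hor [.f 824 3 5] [])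
  (.red [.t 953 1 4, .t 833 4 1, .t 824 4 1] 119 136 [2, 4] [(119, 136, [2, 4]), (120, 136, [2]),
  (135, 119, [1])]) .no .no)

def c10t423 : Tr4 :=
  .br 825 .no (.hor [.f 697 1 5] []) (.use 422) (.use 416) .no (.br 945 .no (.use 412) .no (.use
  414) .no (.use 417))

def c10t424 : Tr4 :=
  .br 696 .no (.br 697 .no (.hor [.f 568 1 5] []) (.con 136 [2, 2, 2]) (.red [.t 697 4 1, .f 688 1
  5] 103 136 [2, 2, 4] [(103, 136, [2, 2, 4])]) .no .no) (.red [.f 824 5 3, .f 696 3 1, .f 688 1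
  3] 103 136 [2, 2, 4] [(103, 136, [2, 2, 4]), (104, 136, [2, 2])]) .no (.red [.f 696 5 1, .f 688
  1 3] 103 136 [2, 2, 4] [(103, 136, [2, 2, 4])]) .no

def c10t425 : Tr4 :=
  .br 825 .no (.hor [.f 697 1 5] []) (.red [.f 945 1 3, .f 945 3 5, .f 817 5 1, .t 833 4 1, .f 817
  1 3] 119 136 [2, 4] [(119, 136, [2, 4]), (120, 136, [2]), (135, 119, [1])]) .no .no (.br 944 .no
  (.con 136 [2, 4, 4]) .no (.br 833 .no (.br 819 .no (.br 816 .no (.use 408) .no (.con 136 [2, 2,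
  4, 4]) .no .no) .no (.red [.f 811 3 1, .f 819 1 3] 119 136 [2, 4] [(118, 136, [2, 4, 4]), (119,
  136, [2, 4])]) .no .no) (.hor [.f 833 3 1, .f 833 1 5] [(121, 137, [2])]) .no .no (.br 819 .no
  (.br 816 .no (.use 424) .no (.con 136 [2, 2, 4, 4]) .no .no) .no (.red [.f 811 3 1, .f 819 1 3]
  119 136 [2, 4] [(118, 136, [2, 4, 4]), (119, 136, [2, 4])]) .no .no)) .no .no)

def c10t426 : Tr4 :=
  .br 816 .no (.use 408) .no (.con 136 [2, 2, 4, 4]) .no .no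

def c10t427 : Tr4 :=
  .br 1339 (.con 136 [1, 1, 4, 1]) .no (.con 136 [1, 1, 4, 1]) (.hor [.f 1330 3 5] []) .no .no

def c10t428 : Tr4 :=
  .br 816 .no (.use 424) .no (.con 136 [2, 2, 4, 4]) .no .no

def c10t429 : Tr4 :=
  .br 825 .no (.hor [.f 697 1 5] []) (.red [.t 1080 4 2, .f 945 3 5, .f 817 5 1, .t 833 4 1, .f
  817 1 3] 119 136 [2, 4] [(119, 136, [2, 4]), (120, 136, [2]), (135, 119, [1])]) .no .no (.br 833
  .no (.br 819 .no (.use 426) .no (.red [.f 811 3 1, .f 819 1 3] 119 136 [2, 4] [(118, 136, [2, 4,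
  4]), (119, 136, [2, 4])]) .no .no) (.hor [.f 833 3 1, .f 833 1 5] [(121, 137, [2])]) .no .no
  (.br 819 .no (.use 428) .no (.red [.f 811 3 1, .f 819 1 3] 119 136 [2, 4] [(118, 136, [2, 4,
  4]), (119, 136, [2, 4])]) .no .no))

def c10t430 : Tr4 :=
  .br 945 (.use 425) .no .no (.use 414) .no (.use 429)

def c10t431 : Tr4 :=
  .br 819 .no (.hor [.f 690 1 5] []) .no (.red [.f 811 3 1, .f 819 1 3] 119 136 [2, 4] [(118, 136,
  [2, 4, 4]), (119, 136, [2, 4])]) .no .no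

def c10t432 : Tr4 :=
  .br 818 .no (.use 431) .no (.use 420) (.red [.f 945 1 3, .t 954 4 2] 119 136 [2, 4] [(119, 136,
  [2, 4]), (135, 119, [1])]) (.red [.f 817 5 3, .f 818 3 1, .f 826 1 3] 119 136 [2, 4] [(119, 136,
  [2, 4]), (120, 136, [2])])

def c10l16 : List Tr4 :=
  [c10t394, c10t395, c10t396, c10t397, c10t398, c10t399, c10t400, c10t401, c10t402, c10t403,
  c10t404, c10t405, c10t406, c10t407, c10t408, c10t409, c10t410, c10t411, c10t412, c10t413,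
  c10t414, c10t415, c10t416, c10t417, c10t418, c10t419, c10t420, c10t421, c10t422, c10t423,
  c10t424, c10t425, c10t426, c10t427, c10t428, c10t429, c10t430, c10t431, c10t432]

theorem c10k16 : chkLF ⟨4, 0, 0, true, -8⟩ true 0 c10N 394 c10l16 = true := by decide +kernel

def c10t433 : Tr4 :=
  .br 817 .no (.br 819 .no (.con 136 [4, 2, 4, 2]) .no (.hor [.f 810 3 5] []) .no .no) .no (.hor
  [.f 809 3 5] []) .no (.red [.f 816 5 1, .t 945 2 3, .f 826 1 3] 119 136 [4, 2] [(119, 136, [4,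
  2]), (120, 136, [2])])

def c10t434 : Tr4 :=
  .br 818 .no (.use 431) .no (.use 433) (.red [.t 954 4 2] 119 136 [2, 4] [(119, 136, [2, 4])])
  (.red [.f 817 5 3, .f 818 3 1, .f 826 1 3] 119 136 [2, 4] [(119, 136, [2, 4]), (120, 136, [2])])

def c10t435 : Tr4 :=
  .br 1073 (.red [.t 1072 3 1, .f 1080 1 3] 152 136 [1] [(151, 136, [4, 1]), (152, 136, [1])])
  (.red [.f 945 1 3, .f 1072 3 5, .f 1080 5 1, .f 1080 1 3] 152 136 [1] [(135, 119, [1]), (152,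
  136, [1])]) .no (.br 1074 (.red [.f 1074 1 3, .f 946 3 1, .f 953 1 5, .f 1081 5 3, .t 1088 1 4]
  152 136 [1] [(135, 119, [1]), (151, 150, [3]), (152, 136, [1])]) .no .no (.hor [.f 1065 3 5] [])
  .no .no) (.red [.t 953 1 4, .f 1072 3 5, .f 1080 5 1, .f 1080 1 3] 152 136 [1] [(135, 119, [1]),
  (152, 136, [1])]) .no

def c10t436 : Tr4 :=
  .br 944 .no (.con 136 [2, 4, 4]) .no (.br 1211 (.br 1219 (.red [.f 1211 1 3] 168 136 [1, 1]
  [(168, 136, [1, 1])]) .no (.con 136 [3, 1, 1]) .no .no (.con 136 [3, 1, 1])) .no (.use 405)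
  (.con 136 [4, 1, 1]) .no .no) .no .no

def c10t437 : Tr4 :=
  .br 1217 (.br 1209 (.red [.f 1209 1 3, .t 1209 3 2] 152 136 [1] [(152, 136, [1]), (168, 136, [1,
  1])]) .no .no (.br 1208 (.br 947 .no (.red [.f 819 1 3] 119 136 [2, 4] [(119, 136, [2, 4])]) .no
  (.br 826 .no (.br 818 .no (.red [.f 690 1 3, .f 818 3 1] 119 136 [2, 4] [(103, 136, [2, 4, 2]),
  (119, 136, [2, 4])]) .no (.br 1074 (.br 1073 .no (.use 406) .no (.br 945 .no (.use 413) .no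
  (.use 414) .no (.use 418)) .no .no) .no .no (.use 421) .no (.use 423)) (.red [.t 954 4 2] 119
  136 [2, 4] [(119, 136, [2, 4])]) (.use 430)) .no (.red [.f 818 3 1, .f 826 1 5] 119 136 [2, 4]
  [(119, 136, [2, 4])]) .no (.br 945 (.br 1074 (.br 818 .no (.use 431) .no (.use 406) (.red [.f
  945 1 3, .t 954 4 2] 119 136 [2, 4] [(119, 136, [2, 4]), (135, 119, [1])]) (.red [.f 817 5 3, .f
  818 3 1, .f 826 1 3] 119 136 [2, 4] [(119, 136, [2, 4]), (120, 136, [2])])) .no .no (.use 432)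
  .no .no) (.red [.t 945 2 3, .f 826 1 5] 119 136 [2, 4] [(119, 136, [2, 4])]) .no (.use 414) .no
  (.use 434))) .no .no) .no .no (.red [.f 1072 3 1, .f 1080 1 3] 152 136 [1] [(151, 136, [4, 1]),
  (152, 136, [1])]) .no .no) .no (.use 435)) .no (.br 1208 (.br 947 .no (.red [.f 819 1 3] 119 136
  [2, 4] [(119, 136, [2, 4])]) .no (.br 1209 (.hor [.f 1208 1 5] []) .no .no (.br 819 .no (.br 826
  .no (.br 818 .no (.use 431) .no (.br 1074 (.br 945 (.use 436) (.use 413) .no (.use 414) .no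
  (.use 418)) .no .no (.use 421) .no (.use 423)) .no (.use 430)) .no (.red [.f 818 3 1, .f 826 1
  5] 119 136 [2, 4] [(119, 136, [2, 4])]) .no (.br 945 (.br 1074 (.br 818 .no (.use 431) .no (.use
  436) .no (.red [.f 817 5 3, .f 818 3 1, .f 826 1 3] 119 136 [2, 4] [(119, 136, [2, 4]), (120,
  136, [2])])) .no .no (.use 432) .no .no) (.red [.t 945 2 3, .f 826 1 5] 119 136 [2, 4] [(119,
  136, [2, 4])]) .no (.use 414) .no (.use 434))) .no (.red [.f 811 3 1, .f 819 1 3] 119 136 [2, 4]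
  [(118, 136, [2, 4, 4]), (119, 136, [2, 4])]) .no (.red [.t 954 4 2] 119 136 [2, 4] [(119, 136,
  [2, 4])])) .no .no) .no .no) .no .no (.red [.f 1072 3 1, .f 1080 1 3] 152 136 [1] [(151, 136,
  [4, 1]), (152, 136, [1])]) (.use 435) .no) (.red [.t 1209 3 2, .f 1088 1 5] 152 136 [1] [(152,
  136, [1])]) (.red [.f 1089 5 1, .f 1088 1 5, .t 952 3 1] 136 136 [] [(136, 136, [])]) .no

def c10t438 : Tr4 :=
  .br 1210 (.con 136 [1, 4, 1]) .no (.con 136 [1, 4, 1]) (.hor [.f 1201 3 5] []) (.con 136 [1, 4,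
  1]) .no

def c10t439 : Tr4 :=
  .br 944 .no (.con 136 [2, 4, 4]) .no (.hor [.f 936 3 5] []) .no .no

def c10t440 : Tr4 :=
  .br 1202 (.red [.t 1329 3 2, .f 1208 1 5] 167 136 [1, 4, 1] [(167, 136, [1, 4, 1])]) .no .no
  (.con 136 [1, 4, 4, 1]) (.red [.t 1066 3 1, .f 1073 1 5, .f 1201 5 3, .f 1201 3 1] 167 136 [1,
  4, 1] [(150, 134, [1]), (167, 136, [1, 4, 1])]) .no

def c10t441 : Tr4 :=
  .br 1067 (.br 1337 (.hor [.f 1337 1 5] []) .no .no (.use 440) .no .no) .no .no (.red [.f 931 3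
  1, .f 939 1 3] 134 136 [4, 4] [(133, 136, [4, 4, 4]), (134, 136, [4, 4])]) .no .no

def c10t442 : Tr4 :=
  .br 1337 (.hor [.f 1337 1 5] []) .no .no (.red [.f 1201 5 3, .f 1201 3 1, .f 1209 1 3] 167 136
  [1, 4, 1] [(167, 136, [1, 4, 1]), (168, 136, [1, 1])]) .no .no

def c10t443 : Tr4 :=
  .br 1337 (.con 136 [1, 1, 1, 4]) .no .no (.hor [.f 1329 3 5] []) .no .no

def c10t444 : Tr4 :=
  .br 1211 (.red [.f 1211 1 3] 168 136 [1, 1] [(168, 136, [1, 1])]) .no .no (.con 136 [1, 4, 1])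
  .no .no

def c10t445 : Tr4 :=
  .br 819 .no (.con 136 [4, 2, 2, 4]) .no (.hor [.f 810 3 5] []) .no .no

def c10t446 : Tr4 :=
  .br 1073 (.hor [.f 1073 1 5] []) .no .no (.con 136 [4, 4, 1]) .no .no

def c10t447 : Tr4 :=
  .br 816 .no (.use 408) .no (.con 136 [2, 4, 4, 2]) .no .no

def c10t448 : Tr4 :=
  .br 818 .no (.red [.f 690 1 3] 103 136 [2, 2, 4] [(103, 136, [2, 2, 4])]) .no (.br 817 .no (.con
  136 [2, 4, 4, 2]) .no (.hor [.f 809 3 5] []) .no (.con 136 [2, 4, 4, 2])) (.red [.t 954 4 2] 119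
  136 [2, 4] [(119, 136, [2, 4])]) (.use 447)

def c10t449 : Tr4 :=
  .br 819 .no (.con 136 [2, 4, 2, 4]) .no (.hor [.f 810 3 5] []) .no .no

def c10t450 : Tr4 :=
  .br 817 .no (.br 816 .no (.use 408) .no (.con 136 [2, 2, 4, 4]) .no .no) .no (.hor [.f 809 3 5]
  []) .no (.use 449)

def c10t451 : Tr4 :=
  .br 1067 (.br 1202 .no .no .no (.con 136 [4, 4, 1, 1]) (.br 1337 (.br 1339 (.con 136 [4, 1, 1,
  1]) .no (.con 136 [4, 1, 1, 1]) (.hor [.f 1330 3 5] []) .no .no) .no .no (.use 440) .no .no)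
  .no) .no .no (.red [.f 931 3 1, .f 939 1 3] 134 136 [4, 4] [(133, 136, [4, 4, 4]), (134, 136,
  [4, 4])]) .no .no

def c10t452 : Tr4 :=
  .br 819 .no (.use 426) .no (.red [.t 946 3 1, .t 810 1 3, .f 819 1 3] 119 136 [2, 4] [(118, 136,
  [2, 4, 4]), (119, 136, [2, 4]), (135, 119, [1])]) .no .no

def c10t453 : Tr4 :=
  .br 1064 .no (.con 136 [4, 4, 4]) .no (.hor [.f 1056 3 5] []) .no .no

def c10t454 : Tr4 :=
  .br 809 .no (.hor [.f 681 1 5] []) .no (.con 136 [4, 2, 2, 4, 4]) .no .no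

def c10t455 : Tr4 :=
  .br 1329 (.hor [.f 1328 1 5] []) .no .no (.con 136 [4, 1, 4, 1, 1]) .no .no

def c10t456 : Tr4 :=
  .br 819 .no (.con 136 [2, 4, 2, 4]) .no (.br 810 .no (.use 454) .no (.br 930 (.red [.t 1066 3 1,
  .t 930 1 3, .f 939 1 3] 134 136 [4, 4] [(133, 136, [4, 4, 4]), (134, 136, [4, 4]), (150, 134,
  [1])]) .no .no (.br 929 (.con 136 [2, 4, 4, 4, 4, 1]) (.red [.t 801 1 3] 117 136 [2, 4, 4, 4]
  [(117, 136, [2, 4, 4, 4])]) .no (.hor [.f 921 3 5] []) .no (.con 136 [2, 4, 4, 4, 1])) .no (.red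
  [.f 929 5 3, .f 802 3 1] 117 136 [2, 4, 4, 4] [(117, 136, [2, 4, 4, 4])])) .no (.hor [.f 809 5
  3, .f 808 3 5, .f 810 3 5] [])) .no .no

def c10t457 : Tr4 :=
  .br 816 .no (.use 424) .no .no .no .no

def c10t458 : Tr4 :=
  .br 938 .no (.hor [.f 810 1 5] []) .no (.con 136 [4, 2, 4, 4]) .no .no

def c10t459 : Tr4 :=
  .br 938 .no (.hor [.f 810 1 5] []) .no (.con 136 [4, 2, 4, 4]) .no (.con 136 [4, 2, 4, 4])

def c10t460 : Tr4 :=
  .br 819 .no (.use 428) .no (.red [.f 824 5 3, .t 946 3 1, .t 810 1 3, .f 819 1 3] 119 136 [2, 4]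
  [(118, 136, [2, 4, 4]), (119, 136, [2, 4]), (135, 119, [1])]) .no .no

def c10t461 : Tr4 :=
  .br 939 (.red [.f 939 1 3] 134 136 [4, 4] [(134, 136, [4, 4])]) (.br 1065 (.br 936 (.con 136 [4,
  4, 4]) (.use 457) .no (.use 459) (.use 458) .no) (.br 938 .no (.hor [.f 810 1 5] []) .no (.br
  936 (.con 136 [2, 4, 4, 4]) (.use 457) .no (.con 136 [2, 4, 4, 4]) .no .no) .no .no) .no (.br
  936 (.con 136 [4, 4, 4]) (.use 457) .no (.br 937 .no (.con 136 [2, 4, 4, 4]) .no (.hor [.f 928 3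
  5] []) (.con 136 [2, 4, 4, 4]) .no) (.use 458) .no) .no (.br 936 .no (.use 457) .no (.use 459)
  (.use 458) .no)) .no (.br 1338 (.br 1200 (.red [.f 1200 1 3, .f 1072 3 1, .f 1072 1 5] 151 136
  [4, 1] [(151, 136, [4, 1]), (167, 136, [4, 1, 1])]) .no .no (.use 441) .no .no) .no (.red [.t
  1345 2 4, .t 1080 4 2, .t 1216 2 4] 152 136 [1] [(135, 119, [1]), (152, 136, [1]), (168, 136,
  [1, 1])]) (.br 1218 (.hor [.f 1217 1 5] []) .no (.br 1219 (.use 444) .no (.hor [.f 1218 3 5] [])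
  (.br 1200 (.red [.f 1200 1 3, .f 1072 3 1, .f 1072 1 5] 151 136 [4, 1] [(151, 136, [4, 1]),
  (167, 136, [4, 1, 1])]) .no .no (.use 451) .no .no) .no .no) .no (.use 443) .no) (.br 1200 (.red
  [.f 1200 1 3, .f 1072 3 1, .f 1072 1 5] 151 136 [4, 1] [(151, 136, [4, 1]), (167, 136, [4, 1,
  1])]) .no .no (.br 1067 (.br 1065 (.con 136 [4, 4, 1, 4]) (.br 938 .no (.use 460) .no (.hor [.f
  930 3 5] []) .no .no) .no (.use 453) .no (.br 938 .no (.use 460) .no (.hor [.f 930 3 5] []) .no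
  (.br 1337 (.br 1328 (.br 1202 (.use 455) .no .no (.con 136 [4, 4, 1, 1]) (.br 816 .no (.use 424)
  .no (.use 456) .no .no) .no) .no .no (.red [.f 1192 3 1, .f 1200 1 3] 167 136 [4, 1, 1] [(166,
  136, [4, 4, 1, 1]), (167, 136, [4, 1, 1])]) (.red [.t 1200 4 2, .f 1200 5 1, .f 1200 1 3] 167
  136 [4, 1, 1] [(150, 134, [1]), (167, 136, [4, 1, 1])]) .no) .no .no (.use 440) .no .no))) .no
  .no (.red [.f 931 3 1, .f 939 1 3] 134 136 [4, 4] [(133, 136, [4, 4, 4]), (134, 136, [4, 4])])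
  .no .no) .no .no) (.red [.f 1209 5 1, .f 1208 1 5, .t 1072 3 1] 151 136 [4, 1] [(151, 136, [4,
  1])])) .no (.red [.t 1074 4 2] 134 136 [4, 4] [(134, 136, [4, 4])])

def c10t462 : Tr4 :=
  .br 819 .no (.use 426) .no (.red [.t 946 3 1, .f 938 5 3, .f 811 3 1, .f 819 1 3] 119 136 [2, 4]
  [(118, 136, [2, 4, 4]), (119, 136, [2, 4]), (135, 119, [1])]) .no .no

def c10t463 : Tr4 :=
  .br 1218 (.hor [.f 1217 1 5] []) .no (.br 1219 (.use 444) .no (.hor [.f 1218 3 5] []) (.br 1200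
  (.red [.f 1200 1 3, .f 1072 3 1] 151 136 [4, 1] [(151, 136, [4, 1]), (167, 136, [4, 1, 1])]) .no
  .no (.br 1201 (.use 389) .no .no (.hor [.f 1192 3 5] []) (.br 1328 (.br 939 (.red [.f 939 1 3]
  134 136 [4, 4] [(134, 136, [4, 4])]) (.use 447) .no (.br 1067 (.con 136 [4, 4, 1, 1]) .no .no
  (.red [.f 931 3 1, .f 939 1 3] 134 136 [4, 4] [(133, 136, [4, 4, 4]), (134, 136, [4, 4])]) .no
  (.br 1203 (.con 136 [4, 4, 1, 1]) .no .no (.red [.f 1073 5 1, .t 1202 2 4] 150 136 [4, 4, 1]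
  [(150, 136, [4, 4, 1])]) .no .no)) .no (.use 462)) .no .no (.red [.f 1201 5 3, .f 1192 3 1] 166
  136 [4, 4, 1, 1] [(166, 136, [4, 4, 1, 1])]) (.red [.f 1201 5 3, .t 1208 1 4] 167 136 [4, 1, 1]
  [(167, 136, [4, 1, 1])]) .no) .no) (.br 819 .no (.use 426) .no (.br 939 (.red [.f 939 1 3] 134
  136 [4, 4] [(134, 136, [4, 4])]) .no .no (.br 938 (.br 1065 (.con 136 [4, 4, 4]) (.hor [.f 937 1
  5] []) .no (.con 136 [4, 4, 4]) .no (.con 136 [4, 4, 4])) (.use 452) .no (.hor [.f 930 3 5] [])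
  .no (.br 816 .no (.use 408) .no (.br 810 .no (.use 454) .no (.br 936 (.con 136 [4, 4, 4]) .no
  .no (.br 1067 (.br 1066 (.hor [.f 1066 1 5] []) .no .no (.br 1065 (.con 136 [4, 4, 4, 1]) .no
  .no (.hor [.f 1057 3 5] []) .no (.con 136 [4, 4, 4, 1])) .no (.br 1064 (.red [.f 937 5 1, .f 937
  1 5, .f 1065 5 3, .t 1064 1 3] 150 136 [4, 4, 1] [(150, 136, [4, 4, 1])]) .no .no (.con 136 [4,
  4, 4, 1]) .no .no)) .no .no (.red [.f 931 3 1, .f 939 1 3] 134 136 [4, 4] [(133, 136, [4, 4,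
  4]), (134, 136, [4, 4])]) .no (.br 930 (.red [.t 930 1 3, .f 939 1 3] 134 136 [4, 4] [(133, 136,
  [4, 4, 4]), (134, 136, [4, 4])]) .no .no (.br 929 (.con 136 [4, 4, 4, 4]) (.red [.t 801 1 3, .f
  928 3 5] 117 136 [2, 4, 4, 4] [(117, 136, [2, 4, 4, 4])]) .no (.hor [.f 921 3 5] []) .no .no)
  .no (.red [.f 929 5 3, .f 802 3 1] 117 136 [2, 4, 4, 4] [(117, 136, [2, 4, 4, 4])]))) .no .no)
  .no (.hor [.f 809 5 3, .f 808 3 5, .f 810 3 5] [])) .no .no)) .no (.use 462)) .no .no) .no) .no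
  .no) .no (.br 1338 (.br 1200 (.red [.f 1200 1 3, .f 1072 3 1] 151 136 [4, 1] [(151, 136, [4,
  1]), (167, 136, [4, 1, 1])]) .no .no (.br 1201 (.use 389) .no .no (.hor [.f 1192 3 5] []) (.use
  442) .no) (.use 382) .no) .no (.red [.t 1345 2 4] 168 136 [1, 1] [(168, 136, [1, 1])]) (.use
  443) (.con 136 [1, 1, 4]) (.red [.f 1209 5 1, .f 1209 1 3] 168 136 [1, 1] [(168, 136, [1, 1])]))
  .no

def c10l17 : List Tr4 :=
  [c10t433, c10t434, c10t435, c10t436, c10t437, c10t438, c10t439, c10t440, c10t441, c10t442,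
  c10t443, c10t444, c10t445, c10t446, c10t447, c10t448, c10t449, c10t450, c10t451, c10t452,
  c10t453, c10t454, c10t455, c10t456, c10t457, c10t458, c10t459, c10t460, c10t461, c10t462,
  c10t463]

theorem c10k17 : chkLF ⟨4, 0, 0, true, -8⟩ true 0 c10N 433 c10l17 = true := by decide +kernel

def c10t464 : Tr4 :=
  .br 1074 (.use 446) .no .no (.br 1073 (.br 833 .no (.br 939 (.red [.f 939 1 3] 134 136 [4, 4]
  [(134, 136, [4, 4])]) (.use 448) .no (.br 818 .no (.red [.f 690 1 3] 103 136 [2, 2, 4] [(103,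
  136, [2, 2, 4])]) .no (.use 450) (.red [.t 954 4 2] 119 136 [2, 4] [(119, 136, [2, 4])]) (.br
  1200 (.red [.f 1200 1 3, .f 1072 3 1, .f 1072 1 5] 151 136 [4, 1] [(151, 136, [4, 1]), (167,
  136, [4, 1, 1])]) .no .no (.br 1338 (.use 441) .no (.red [.t 1345 2 4, .t 1080 4 2, .t 1216 2 4]
  152 136 [1] [(135, 119, [1]), (152, 136, [1]), (168, 136, [1, 1])]) (.br 1218 (.hor [.f 1217 1
  5] []) .no (.br 1219 (.use 444) .no (.hor [.f 1218 3 5] []) (.use 451) .no .no) .no (.use 443)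
  .no) (.br 1067 (.br 1337 (.br 938 .no (.use 452) .no (.hor [.f 930 3 5] []) .no (.br 1065 (.con
  136 [4, 4, 1, 4]) .no .no (.use 453) .no (.br 1328 (.br 1202 (.use 455) .no .no (.con 136 [4, 4,
  1, 1]) (.br 816 .no (.use 408) .no (.use 456) .no .no) .no) .no .no (.red [.f 1192 3 1, .f 1200
  1 3] 167 136 [4, 1, 1] [(166, 136, [4, 4, 1, 1]), (167, 136, [4, 1, 1])]) (.red [.t 1200 4 2, .f
  1200 5 1, .f 1200 1 3] 167 136 [4, 1, 1] [(150, 134, [1]), (167, 136, [4, 1, 1])]) .no))) .no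
  .no (.use 440) .no .no) .no .no (.red [.f 931 3 1, .f 939 1 3] 134 136 [4, 4] [(133, 136, [4, 4,
  4]), (134, 136, [4, 4])]) .no .no) (.red [.f 1209 5 1, .f 1208 1 5, .t 1072 3 1] 151 136 [4, 1]
  [(151, 136, [4, 1])])) .no .no)) .no (.red [.t 1074 4 2] 134 136 [4, 4] [(134, 136, [4, 4])]))
  (.hor [.f 833 3 1, .f 833 1 5] [(121, 120, [3])]) .no .no (.br 818 .no (.red [.f 690 1 3] 103
  136 [2, 2, 4] [(103, 136, [2, 2, 4])]) .no (.br 817 .no (.br 816 .no (.hor [.f 688 1 5] []) .no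
  (.con 136 [2, 2, 4, 4]) .no .no) .no (.hor [.f 809 3 5] []) .no (.use 449)) (.red [.t 954 4 2]
  119 136 [2, 4] [(119, 136, [2, 4])]) (.use 461))) .no .no (.hor [.f 1065 3 5] []) .no .no) .no
  (.br 833 .no (.br 818 .no (.red [.f 690 1 3] 103 136 [2, 2, 4] [(103, 136, [2, 2, 4])]) .no
  (.use 450) (.red [.t 954 4 2] 119 136 [2, 4] [(119, 136, [2, 4])]) (.use 463)) (.hor [.f 833 3
  1, .f 833 1 5] [(121, 120, [3])]) .no .no (.red [.t 953 1 4, .f 824 5 3, .t 833 4 1, .t 962 4 1]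
  136 136 [] [(120, 136, [2]), (135, 119, [1]), (136, 136, [])]))

def c10t465 : Tr4 :=
  .br 1218 (.con 136 [1, 3, 1]) .no (.hor [.f 1217 3 5] []) .no (.con 136 [1, 3, 1]) .no

def c10t466 : Tr4 :=
  .br 1209 (.hor [.f 1208 1 5] []) .no .no (.use 438) (.use 465) .no

def c10t467 : Tr4 :=
  .br 824 .no (.hor [.f 696 1 5] []) (.con 136 [2, 2]) (.br 698 (.hor [.f 697 1 5] []) (.con 136
  [2, 4, 2, 3]) (.con 136 [2, 4, 2, 3]) (.con 136 [2, 4, 2, 3]) (.con 136 [2, 4, 2, 3]) .no) .no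
  .no

def c10t468 : Tr4 :=
  .br 1347 (.hor [.f 1346 1 5] []) .no .no .no .no .no

def c10t469 : Tr4 :=
  .br 1227 (.use 468) .no (.hor [.t 1234 2 4, .f 1097 3 5] [(154, 136, [3, 1, 3])]) .no .no .no

def c10t470 : Tr4 :=
  .br 1064 .no .no .no (.hor [.f 1056 3 5] []) .no .no

def c10t471 : Tr4 :=
  .br 825 .no (.use 467) (.br 1075 (.br 1074 (.hor [.f 1074 1 5] []) .no .no (.br 1073 (.br 1200
  (.red [.f 1200 1 3, .f 1072 3 1, .f 1072 1 5] 151 136 [4, 1] [(151, 136, [4, 1]), (167, 136, [4,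
  1, 1])]) .no .no (.br 1202 (.br 1338 (.use 378) .no (.red [.t 1345 2 4, .f 1202 1 3] 167 136 [4,
  1, 1] [(167, 136, [4, 1, 1]), (168, 136, [1, 1])]) .no (.br 1337 (.br 1065 (.hor [.f 1065 1 3,
  .f 1065 3 5] [(150, 151, [4])]) (.br 1194 (.red [.f 1194 1 3, .f 1066 3 1, .f 1073 1 5, .f 1201
  5 3, .t 1202 3 2] 151 136 [4, 1] [(150, 151, [4]), (151, 136, [4, 1]), (166, 167, [4])]) .no .no
  (.br 1067 (.hor [.f 1067 1 3, .f 1066 3 5] [(150, 151, [4])]) .no .no (.br 938 .no .no .no (.br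
  1064 .no .no .no (.br 1328 (.br 1329 (.hor [.f 1328 1 5] []) .no .no (.br 1058 .no .no .no (.br
  1057 (.br 1195 (.con 136 [4, 4, 1, 1, 4, 2, 3, 3]) .no .no (.con 136 [4, 4, 1, 1, 4, 2, 3, 3])
  .no .no) (.hor [.f 929 1 3, .f 929 3 5] [(133, 119, [4, 4, 1])]) .no (.hor [.f 1049 3 5] []) .no
  .no) .no (.hor [.t 937 1 4, .f 1056 3 5] [(133, 119, [4, 4, 1])])) .no .no) .no .no (.red [.f
  1192 3 1, .f 1200 1 3] 167 136 [4, 1, 1] [(166, 136, [4, 4, 1, 1]), (167, 136, [4, 1, 1])]) (.br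
  1193 (.red [.t 1192 3 1, .f 1200 1 3] 167 136 [4, 1, 1] [(166, 136, [4, 4, 1, 1]), (167, 136,
  [4, 1, 1])]) .no .no (.hor [.f 1185 3 5] []) .no .no) .no) .no .no) .no .no) .no .no) (.red [.t
  1074 4 1, .f 1074 5 3, .t 1073 1 3] 151 136 [4, 1] [(150, 151, [4]), (151, 136, [4, 1])]) (.hor
  [.t 1073 1 4, .f 1192 3 5] [(150, 151, [4])])) .no (.use 470) .no (.hor [.t 1200 4 2, .f 1065 3
  5] [(150, 151, [4])])) .no .no (.red [.t 1329 3 2, .t 1202 3 2] 151 136 [4, 1] [(151, 136, [4,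
  1]), (167, 136, [4, 1, 1])]) .no .no) (.red [.f 1209 5 1, .f 1208 1 5, .t 1072 3 1] 151 136 [4,
  1] [(151, 136, [4, 1])])) .no .no (.hor [.f 1066 3 1, .f 1073 1 5] [(150, 151, [4])]) .no .no)
  .no .no) .no .no (.use 399) .no .no) .no (.red [.t 953 1 4, .t 833 4 1, .f 817 1 3] 119 136 [2,
  4] [(119, 136, [2, 4]), (120, 136, [2]), (135, 119, [1])])) .no .no (.red [.f 939 3 1, .t 946 3
  1, .f 953 1 5, .t 833 4 1, .f 817 1 3] 119 136 [2, 4] [(119, 136, [2, 4]), (120, 136, [2]),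
  (134, 119, [4, 1]), (135, 119, [1])]) .no (.red [.f 1074 5 3, .f 946 3 1, .f 953 1 5, .t 833 4
  1, .f 817 1 3] 119 136 [2, 4] [(119, 136, [2, 4]), (120, 136, [2]), (135, 119, [1])])) .no (.red
  [.t 945 2 3, .f 826 1 5] 119 136 [2, 4] [(119, 136, [2, 4])]) (.br 833 .no (.br 819 .no (.br 698
  (.use 409) (.con 136 [2, 4, 2, 3]) (.con 136 [2, 4, 2, 3]) (.con 136 [2, 4, 2, 3]) (.con 136 [2,
  4, 2, 3]) (.con 136 [2, 4, 2, 3])) .no (.hor [.f 810 3 5] []) .no .no) (.hor [.f 833 3 1, .f 833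
  1 5] [(121, 137, [2])]) .no .no (.br 819 .no (.br 698 (.use 411) (.con 136 [2, 4, 2, 3]) (.con
  136 [2, 4, 2, 3]) (.con 136 [2, 4, 2, 3]) (.con 136 [2, 4, 2, 3]) (.con 136 [2, 4, 2, 3])) .no
  (.hor [.f 810 3 5] []) .no .no))

def c10t472 : Tr4 :=
  .br 1217 (.br 1209 (.hor [.f 1208 1 5] []) .no .no (.use 438) (.br 818 .no (.use 431) (.red [.f
  818 3 1, .f 826 1 5] 119 136 [2, 4] [(119, 136, [2, 4])]) (.br 945 (.br 944 .no (.con 136 [2, 4,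
  4]) .no (.br 937 (.red [.f 937 1 3, .f 936 3 5] 134 136 [4, 4] [(134, 136, [4, 4])]) (.con 136
  [2, 4, 4, 4]) .no (.use 404) (.br 1074 (.br 1075 (.hor [.f 1074 1 5] []) .no .no (.con 136 [4,
  4, 1]) .no .no) .no .no (.use 419) (.br 819 .no (.br 817 .no (.con 136 [2, 4, 4, 2]) (.con 136
  [2, 4, 4, 2]) (.hor [.f 809 3 5] []) .no (.con 136 [2, 4, 2, 4])) .no (.hor [.f 810 3 5] []) .no
  .no) .no) .no) .no .no) (.br 944 .no (.hor [.f 816 1 5] []) .no (.use 471) .no .no) .no (.use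
  414) .no (.br 825 .no (.use 467) (.red [.t 1080 4 2, .f 945 3 5, .t 833 4 1, .t 962 4 1] 136 136
  [] [(120, 136, [2]), (135, 119, [1]), (136, 136, [])]) (.br 824 .no (.con 136 [2, 4, 2]) (.con
  136 [2, 2]) (.hor [.f 816 3 5] []) .no .no) (.use 433) (.use 417))) (.red [.t 954 4 2] 119 136
  [2, 4] [(119, 136, [2, 4])]) (.br 945 (.br 826 .no (.use 425) .no .no .no (.red [.f 817 5 3, .f
  818 3 1, .f 826 1 3] 119 136 [2, 4] [(119, 136, [2, 4]), (120, 136, [2])])) .no .no (.use 414)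
  .no (.br 826 .no (.use 429) .no .no .no (.use 434)))) .no) .no (.use 466) (.br 945 (.red [.f 945
  1 3, .f 1072 3 5, .t 1216 2 4] 152 136 [1] [(135, 119, [1]), (152, 136, [1])]) (.br 826 .no (.br
  818 .no (.use 431) .no (.br 825 .no (.use 467) (.br 1075 (.br 1210 (.br 1074 (.hor [.f 1074 1 5]
  []) .no .no (.br 1073 (.br 1202 (.red [.f 1202 1 3, .t 1202 3 2] 151 136 [4, 1] [(151, 136, [4,
  1]), (167, 136, [4, 1, 1])]) .no .no (.hor [.f 1066 3 1, .f 1073 1 5] [(150, 151, [4])]) .no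
  .no) .no .no (.use 399) .no .no) .no (.use 422)) .no (.hor [.f 1209 3 5] []) (.red [.t 1202 3 2,
  .t 1209 3 2, .f 1088 1 5] 152 136 [1] [(151, 136, [4, 1]), (152, 136, [1])]) (.red [.f 1082 5 1,
  .f 1075 1 3] 151 136 [4, 1] [(151, 136, [4, 1])]) .no) .no .no (.red [.f 939 3 1, .t 946 3 1, .f
  953 1 5, .t 833 4 1, .f 817 1 3] 119 136 [2, 4] [(119, 136, [2, 4]), (120, 136, [2]), (134, 119,
  [1, 4]), (135, 119, [1])]) .no (.red [.f 1074 5 3, .f 946 3 1, .f 953 1 5, .t 833 4 1, .f 817 1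
  3] 119 136 [2, 4] [(119, 136, [2, 4]), (120, 136, [2]), (135, 119, [1])])) .no .no (.use 412))
  (.red [.t 954 4 2, .f 817 1 5] 119 136 [2, 4] [(119, 136, [2, 4])]) .no) .no (.red [.f 818 3 1,
  .f 817 1 5] 119 136 [2, 4] [(119, 136, [2, 4])]) .no (.red [.t 945 2 3, .f 826 1 5] 119 136 [2,
  4] [(119, 136, [2, 4])])) .no (.use 414) .no (.red [.t 1080 4 2, .t 1216 2 4, .f 952 3 1] 136
  136 [] [(135, 119, [1]), (136, 136, []), (152, 136, [1])])) (.red [.f 1089 5 1, .f 1088 1 5, .t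
  952 3 1] 136 136 [] [(136, 136, [])]) .no

def c10t473 : Tr4 :=
  .br 1208 (.br 947 (.br 1217 (.br 1209 (.hor [.f 1208 1 5] []) .no .no (.use 438) (.br 826 .no
  (.br 825 .no (.hor [.f 697 1 5] []) (.br 945 (.con 136 [4, 4]) (.red [.t 946 3 1, .f 953 1 5, .t
  833 4 1, .f 817 1 3] 119 136 [2, 4] [(119, 136, [2, 4]), (120, 136, [2]), (135, 119, [1])]) .no
  (.use 439) .no (.red [.t 1080 4 2, .f 945 3 5, .t 833 4 1, .t 962 4 1] 136 136 [] [(120, 136,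
  [2]), (135, 119, [1]), (136, 136, [])])) (.use 416) .no (.br 945 (.con 136 [4, 4]) (.br 818 .no
  (.red [.f 690 1 3] 103 136 [2, 2, 4] [(103, 136, [2, 2, 4])]) .no (.br 944 .no (.hor [.f 816 1
  5] []) .no (.br 833 .no (.br 816 .no (.use 408) .no (.use 445) .no .no) (.hor [.f 833 3 1, .f
  833 1 5] [(121, 120, [3])]) .no .no (.br 816 .no (.use 410) .no (.use 445) .no .no)) .no .no)
  (.red [.t 954 4 2, .f 817 1 5] 119 136 [2, 4] [(119, 136, [2, 4])]) .no) .no (.use 439) .no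
  (.use 464))) .no (.red [.f 818 3 1, .f 826 1 5] 119 136 [2, 4] [(119, 136, [2, 4])]) .no (.br
  945 (.con 136 [4, 4]) (.red [.t 945 2 3, .f 826 1 5] 119 136 [2, 4] [(119, 136, [2, 4])]) .no
  (.use 439) .no (.br 824 .no (.br 816 .no (.red [.f 688 1 3] 103 136 [2, 2, 4] [(103, 136, [2, 2,
  4])]) .no (.br 817 .no (.br 818 .no (.hor [.f 689 1 5] []) .no (.con 136 [2, 2, 4, 4]) (.con 136
  [2, 2, 4, 4]) .no) .no (.hor [.f 808 3 5] []) (.red [.f 817 5 3, .f 818 3 1, .f 826 1 3] 119 136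
  [2, 4] [(119, 136, [2, 4]), (120, 136, [2])]) .no) (.red [.f 816 5 1, .t 945 2 3, .f 826 1 3]
  119 136 [2, 4] [(119, 136, [2, 4]), (120, 136, [2])]) .no) (.con 136 [2, 2]) (.red [.t 946 3 1,
  .f 953 1 5, .f 825 5 1, .t 824 4 1] 119 136 [2, 4] [(119, 136, [2, 4]), (135, 119, [1])]) .no
  .no))) .no) .no (.use 466) (.red [.t 946 3 1, .f 953 1 5, .f 1081 5 3, .f 1081 3 1] 152 136 [1]
  [(135, 119, [1]), (152, 136, [1])]) (.red [.f 1089 5 1, .f 1088 1 5, .t 952 3 1] 136 136 []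
  [(136, 136, [])]) .no) (.red [.f 819 1 3] 119 136 [2, 4] [(119, 136, [2, 4])]) .no (.use 472)
  .no .no) .no .no (.red [.f 1072 3 1, .f 1080 1 3] 152 136 [1] [(151, 136, [4, 1]), (152, 136,
  [1])]) (.br 1073 (.red [.t 1072 3 1, .f 1080 1 3] 152 136 [1] [(151, 136, [4, 1]), (152, 136,
  [1])]) (.red [.f 945 1 3, .f 1072 3 5, .f 1080 5 1, .f 1080 1 3] 152 136 [1] [(135, 119, [1]),
  (152, 136, [1])]) .no (.br 1075 (.use 399) (.red [.t 946 3 1, .f 953 1 5, .f 1081 5 3, .t 1088 1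
  4] 152 136 [1] [(135, 119, [1]), (152, 136, [1])]) .no (.br 1074 (.con 136 [4, 4, 1]) .no .no
  (.hor [.f 1065 3 5] []) .no .no) .no (.br 947 .no (.red [.f 819 1 3] 119 136 [2, 4] [(119, 136,
  [2, 4])]) .no (.br 945 .no (.br 826 .no (.br 825 .no (.hor [.f 697 1 5] []) (.red [.f 1074 5 3,
  .f 946 3 1, .f 953 1 5, .t 833 4 1, .f 817 1 3] 119 136 [2, 4] [(119, 136, [2, 4]), (120, 136,
  [2]), (135, 119, [1])]) .no .no (.br 818 .no (.use 431) .no (.use 412) (.red [.t 954 4 2, .f 817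
  1 5] 119 136 [2, 4] [(119, 136, [2, 4])]) .no)) .no (.red [.f 818 3 1, .f 817 1 5] 119 136 [2,
  4] [(119, 136, [2, 4])]) .no (.red [.t 945 2 3, .f 826 1 5] 119 136 [2, 4] [(119, 136, [2,
  4])])) .no (.use 414) .no (.red [.t 1080 4 2, .f 1080 5 1, .f 1080 1 3] 152 136 [1] [(135, 119,
  [1]), (152, 136, [1])])) .no .no)) (.red [.t 953 1 4, .f 1072 3 5, .f 1080 5 1, .f 1080 1 3] 152
  136 [1] [(135, 119, [1]), (152, 136, [1])]) .no) .no

def c10t474 : Tr4 :=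
  .br 938 .no (.red [.f 810 1 3] 118 136 [4, 2, 4] [(118, 136, [4, 2, 4])]) .no (.br 937 (.red [.f
  937 1 3] 134 136 [4, 4] [(134, 136, [4, 4])]) (.con 136 [4, 4, 4, 2]) .no (.hor [.f 929 3 5] [])
  .no (.con 136 [4, 4, 2])) .no (.red [.f 945 1 3, .f 945 3 1, .t 1073 2 4] 134 136 [4, 4] [(134,
  136, [4, 4])])

def c10t475 : Tr4 :=
  .br 825 .no (.red [.f 699 1 3, .t 834 1 4, .t 953 1 3] 136 136 [] [(104, 136, [2, 2]), (120,
  136, [2]), (136, 136, [])]) (.br 947 .no (.use 218) .no (.use 474) .no .no) (.red [.f 699 1 3,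
  .t 834 1 4, .t 953 1 3] 136 136 [] [(104, 136, [2, 2]), (120, 136, [2]), (136, 136, [])]) (.red
  [.f 699 1 3, .t 834 1 4, .t 953 1 3] 136 136 [] [(104, 136, [2, 2]), (120, 136, [2]), (136, 136,
  [])]) (.red [.f 699 1 3, .t 834 1 4, .t 953 1 3] 136 136 [] [(104, 136, [2, 2]), (120, 136,
  [2]), (136, 136, [])])

def c10t476 : Tr4 :=
  .br 946 .no (.br 970 (.red [.t 969 4 1, .f 953 1 3] 136 136 [] [(136, 136, []), (137, 136,
  [3])]) (.hor [.f 834 1 3, .f 961 3 5] [(121, 120, [3])]) (.br 971 (.use 402) (.br 835 .no (.use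
  475) .no .no .no .no) (.hor [.f 970 3 5] []) .no .no .no) .no (.br 835 .no (.use 475) (.hor [.t
  834 1 3, .f 961 3 5] [(121, 120, [3])]) .no .no .no) .no) .no (.red [.f 938 3 1, .f 945 1 5] 134
  136 [4, 4] [(134, 136, [4, 4])]) (.red [.f 945 1 3, .f 946 5 3, .f 947 3 1, .f 955 1 3] 136 136
  [] [(136, 136, [])]) .no

def c10t477 : Tr4 :=
  .br 1073 .no (.use 476) .no (.hor [.f 1065 3 5] []) .no .no

def c10t478 : Tr4 :=
  .br 1073 (.red [.t 1072 3 1, .f 1080 1 3] 152 136 [1] [(151, 136, [4, 1]), (152, 136, [1])])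
  (.use 476) .no (.hor [.f 1065 3 5] []) .no .no

def c10t479 : Tr4 :=
  .br 1209 (.red [.f 1209 1 3, .t 1209 3 2] 152 136 [1] [(152, 136, [1]), (168, 136, [1, 1])]) .no
  .no .no .no (.red [.t 1072 3 1, .f 1080 1 3] 152 136 [1] [(151, 136, [1, 4]), (152, 136, [1])])

def c10t480 : Tr4 :=
  .br 944 .no (.br 947 .no (.hor [.f 818 1 5] []) .no (.con 136 [2, 4, 4]) .no .no) .no (.hor [.f
  936 3 5] []) .no .no

def c10t481 : Tr4 :=
  .br 945 .no (.hor [.f 817 1 5] []) .no (.use 480) .no (.red [.t 1080 4 2, .f 1080 5 1, .f 1080 1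
  3] 152 136 [1] [(135, 136, [4]), (152, 136, [1])])

def c10t482 : Tr4 :=
  .br 833 .no (.red [.f 699 1 3, .t 834 1 4, .t 953 1 3] 136 136 [] [(104, 136, [2, 2]), (120,
  136, [2]), (136, 136, [])]) (.red [.f 699 1 3, .t 834 1 4, .t 953 1 3] 136 136 [] [(104, 136,
  [2, 2]), (120, 136, [2]), (136, 136, [])]) (.use 218) .no (.red [.f 699 1 3, .t 834 1 4, .t 953
  1 3] 136 136 [] [(104, 136, [2, 2]), (120, 136, [2]), (136, 136, [])])

def c10t483 : Tr4 :=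
  .br 947 .no .no .no (.hor [.f 938 3 5] []) .no .no

def c10l18 : List Tr4 :=
  [c10t464, c10t465, c10t466, c10t467, c10t468, c10t469, c10t470, c10t471, c10t472, c10t473,
  c10t474, c10t475, c10t476, c10t477, c10t478, c10t479, c10t480, c10t481, c10t482, c10t483]

theorem c10k18 : chkLF ⟨4, 0, 0, true, -8⟩ true 0 c10N 464 c10l18 = true := by decide +kernel

def c10t484 : Tr4 :=
  .br 827 .no (.br 946 .no (.use 481) .no (.br 947 .no (.br 970 (.red [.t 969 4 1, .f 953 1 3] 136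
  136 [] [(136, 136, []), (137, 136, [3])]) (.hor [.f 834 1 3, .f 961 3 5] [(121, 120, [3])]) (.br
  971 (.use 402) (.br 835 .no (.use 482) .no .no .no .no) (.hor [.f 970 3 5] []) .no .no .no) .no
  (.br 835 .no (.use 482) (.hor [.t 834 1 3, .f 961 3 5] [(121, 120, [3])]) .no .no .no) .no) .no
  (.hor [.f 938 3 5] []) .no .no) (.red [.f 946 5 3, .f 947 3 1, .f 955 1 3] 136 136 [] [(135,
  136, [4]), (136, 136, [])]) (.red [.f 945 5 1, .t 1074 2 3, .f 955 1 3] 136 136 [] [(135, 136,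
  [4]), (136, 136, [])])) (.red [.t 834 1 4, .t 953 1 3] 136 136 [] [(120, 136, [2]), (136, 136,
  [])]) (.br 946 .no (.use 481) .no (.use 483) (.red [.f 946 5 3, .f 947 3 1, .f 955 1 3] 136 136
  [] [(135, 136, [4]), (136, 136, [])]) (.red [.f 945 5 1, .t 1074 2 3, .f 955 1 3] 136 136 []
  [(135, 136, [4]), (136, 136, [])])) .no (.red [.f 826 5 1, .f 826 1 3, .t 953 1 3] 136 136 []
  [(120, 136, [2]), (136, 136, [])])

def c10t485 : Tr4 :=
  .br 1217 (.br 1074 (.red [.f 1074 1 3, .f 1074 3 5, .f 954 5 1, .f 955 1 3] 136 136 [] [(136,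
  136, []), (151, 152, [4])]) (.red [.t 1074 2 3, .f 955 1 3] 136 136 [] [(135, 136, [4]), (136,
  136, [])]) .no (.br 827 .no (.br 1209 (.red [.f 1209 1 3, .t 1209 3 2] 152 136 [1] [(152, 136,
  [1]), (168, 136, [1, 1])]) .no .no (.use 477) .no (.use 478)) (.red [.t 834 1 4, .t 953 1 3] 136
  136 [] [(120, 136, [2]), (136, 136, [])]) (.br 947 .no .no .no (.br 946 .no (.br 1073 (.use 479)
  (.use 474) .no (.hor [.f 1065 3 5] []) .no .no) .no (.hor [.f 938 3 5] []) .no (.br 1073 (.use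
  479) .no .no (.hor [.f 1065 3 5] []) .no .no)) .no (.red [.f 946 5 3, .f 947 3 1, .f 955 1 3]
  136 136 [] [(135, 136, [4]), (136, 136, [])])) .no (.red [.f 826 5 1, .f 826 1 3, .t 953 1 3]
  136 136 [] [(120, 136, [2]), (136, 136, [])])) .no (.br 1209 (.red [.f 1209 1 3, .t 1209 3 2]
  152 136 [1] [(152, 136, [1]), (168, 136, [1, 1])]) .no .no (.red [.t 1209 4 2, .f 1074 3 5, .f
  954 5 1, .f 955 1 3] 136 136 [] [(136, 136, []), (151, 152, [4])]) .no (.use 484))) .no (.br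
  1074 (.red [.f 1074 1 3, .f 1074 3 5, .f 954 5 1, .f 955 1 3] 136 136 [] [(136, 136, []), (151,
  152, [4])]) (.red [.t 1074 2 3, .f 955 1 3] 136 136 [] [(135, 136, [4]), (136, 136, [])]) .no
  (.br 827 .no (.br 1208 (.br 1209 (.hor [.f 1208 1 5] []) .no .no (.use 477) .no .no) .no .no
  (.red [.f 1072 3 1, .f 1080 1 3] 152 136 [1] [(151, 136, [4, 1]), (152, 136, [1])]) (.use 478)
  .no) (.red [.t 834 1 4, .t 953 1 3] 136 136 [] [(120, 136, [2]), (136, 136, [])]) (.br 946 .no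
  (.br 945 (.br 944 .no (.con 136 [2, 4, 4]) .no (.br 938 .no (.red [.f 810 1 3] 118 136 [2, 4, 4]
  [(118, 136, [2, 4, 4])]) .no (.br 937 (.red [.f 937 1 3, .f 936 3 5] 134 136 [4, 4] [(134, 136,
  [4, 4])]) (.con 136 [2, 4, 4, 4]) .no (.hor [.f 929 3 5] []) .no .no) (.con 136 [2, 4, 4, 1])
  (.red [.t 1073 2 4, .f 936 3 5] 134 136 [4, 4] [(134, 136, [4, 4])])) .no .no) (.hor [.f 817 1
  5] []) .no (.use 480) .no (.br 1208 (.br 1209 (.hor [.f 1208 1 5] []) .no .no (.br 1073 .no .no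
  .no (.hor [.f 1065 3 5] []) .no .no) .no .no) .no .no (.red [.f 1072 3 1, .f 1080 1 3] 152 136
  [1] [(151, 136, [4, 1]), (152, 136, [1])]) (.red [.t 1080 4 2, .f 1080 5 1, .f 1080 1 3] 152 136
  [1] [(135, 136, [4]), (152, 136, [1])]) .no)) .no (.use 483) (.red [.f 946 5 3, .f 947 3 1, .f
  955 1 3] 136 136 [] [(135, 136, [4]), (136, 136, [])]) (.br 1073 (.br 1208 (.br 1209 (.hor [.f
  1208 1 5] []) .no .no .no .no .no) .no .no (.hor [.f 1072 3 1, .f 1072 1 5] [(151, 136, [4,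
  1])]) (.red [.t 1072 3 1, .f 1080 1 3] 152 136 [1] [(151, 136, [4, 1]), (152, 136, [1])]) .no)
  .no .no (.hor [.f 1065 3 5] []) .no .no)) .no (.red [.f 826 5 1, .f 826 1 3, .t 953 1 3] 136 136
  [] [(120, 136, [2]), (136, 136, [])])) .no (.br 1208 (.br 1209 (.hor [.f 1208 1 5] []) .no .no
  (.red [.t 1209 4 2, .f 1074 3 5, .f 954 5 1, .f 955 1 3] 136 136 [] [(136, 136, []), (151, 152,
  [4])]) .no .no) .no .no (.red [.f 1072 3 1, .f 1080 1 3] 152 136 [1] [(151, 136, [4, 1]), (152,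
  136, [1])]) (.use 484) .no)) (.red [.t 1209 3 2, .t 1090 4 2] 136 136 [] [(136, 136, []), (152,
  136, [1])]) (.red [.f 1089 5 1, .f 1088 1 5, .t 952 3 1] 136 136 [] [(136, 136, [])]) .no

def c10t486 : Tr4 :=
  .br 1089 (.hor [.f 1088 1 5] []) (.red [.f 953 1 3, .f 952 3 5] 136 136 [] [(136, 136, [])])
  (.br 963 (.br 1090 (.br 1082 (.red [.f 1082 1 3] 152 136 [1] [(152, 136, [1])]) (.hor [.f 953 1
  5] []) .no (.use 375) (.br 954 .no (.br 961 .no (.br 962 .no (.hor [.f 833 1 5] []) (.con 136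
  [2, 3]) .no .no .no) (.red [.f 961 3 1, .f 953 1 3] 136 136 [] [(136, 136, []), (137, 136,
  [3])]) .no (.br 955 .no (.hor [.f 826 1 5] []) .no (.use 394) .no .no) .no) (.red [.t 962 4 1,
  .f 953 1 5] 136 136 [] [(136, 136, [])]) (.br 961 .no (.br 962 .no (.hor [.f 833 1 5] []) (.con
  136 [2, 3]) .no .no .no) (.red [.f 961 3 1, .f 953 1 3] 136 136 [] [(136, 136, []), (137, 136,
  [3])]) .no (.use 400) .no) (.red [.f 954 5 1, .f 955 1 3] 136 136 [] [(136, 136, [])]) .no) .no)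
  (.con 136 [3]) (.hor [.f 1089 3 5] []) (.br 961 .no (.br 962 .no (.hor [.f 833 1 5] []) (.con
  136 [2, 3]) (.red [.f 954 3 1, .f 953 1 5] 136 136 [] [(136, 136, [])]) .no .no) (.red [.f 961 3
  1, .f 953 1 3] 136 136 [] [(136, 136, []), (137, 136, [3])]) .no (.red [.t 1081 2 3, .f 952 3 5]
  136 136 [] [(136, 136, [])]) .no) .no .no) (.con 136 [3]) (.con 136 [3]) (.con 136 [3]) .no
  (.con 136 [3])) .no (.br 963 (.br 962 .no (.br 954 (.hor [.f 953 1 5] []) (.red [.f 826 1 3, .t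
  953 1 3, .f 962 1 5] 136 136 [] [(120, 136, [2]), (136, 136, [])]) .no (.br 955 (.red [.f 955 1
  3] 136 136 [] [(136, 136, [])]) (.br 961 .no (.hor [.f 833 1 5] []) (.br 1082 (.br 1083 (.hor
  [.f 1082 1 5] []) .no .no (.use 437) .no .no) .no .no (.use 375) (.use 473) .no) .no .no .no)
  .no (.hor [.f 946 3 5] []) .no .no) (.br 1082 (.br 961 .no (.hor [.f 833 1 5] []) (.br 1083
  (.hor [.f 1082 1 5] []) .no .no (.use 485) .no .no) .no .no .no) .no .no (.use 375) (.red [.f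
  954 5 1, .f 955 1 3] 136 136 [] [(136, 136, [])]) .no) .no) (.br 961 .no (.con 136 [2, 3]) (.hor
  [.f 961 3 5] []) .no .no .no) (.red [.t 953 1 3, .f 962 1 5] 136 136 [] [(136, 136, [])]) .no
  (.red [.f 961 5 1, .f 953 1 3] 136 136 [] [(136, 136, [])])) (.con 136 [3]) (.con 136 [3]) (.con
  136 [3]) .no (.con 136 [3])) .no

def c10t487 : Tr4 :=
  .br 1090 (.con 136 [1, 3]) (.con 136 [3]) (.con 136 [1, 3]) (.con 136 [1, 3]) (.con 136 [3]) .no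

def c10t488 : Tr4 :=
  .br 1091 (.hor [.f 1090 1 5] []) .no (.red [.f 963 3 1, .f 955 1 3] 136 136 [] [(136, 136, []),
  (137, 136, [3])]) .no .no .no

def c10t489 : Tr4 :=
  .br 818 .no (.red [.f 690 1 3] 103 136 [4, 2, 2] [(103, 136, [4, 2, 2])]) .no (.use 121) .no
  (.red [.t 953 2 4, .f 818 1 5] 119 136 [4, 2] [(119, 136, [4, 2])])

def c10t490 : Tr4 :=
  .br 816 .no (.red [.f 688 1 3, .t 824 4 1] 119 136 [2, 4] [(103, 136, [2, 4, 2]), (119, 136, [2,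
  4])]) .no (.br 817 .no (.br 818 .no (.hor [.f 689 1 5] []) (.red [.f 818 3 1, .f 825 1 5] 119
  136 [2, 4] [(119, 136, [2, 4])]) (.con 136 [2, 4, 2, 4]) (.con 136 [2, 4, 2, 4]) .no) .no (.hor
  [.f 808 3 5] []) (.red [.t 953 2 4] 119 136 [2, 4] [(119, 136, [2, 4])]) .no) (.red [.f 816 5 1,
  .f 817 1 3] 119 136 [2, 4] [(119, 136, [2, 4])]) .no

def c10t491 : Tr4 :=
  .br 1075 (.hor [.f 1074 1 5] []) (.con 136 [4, 4, 1]) .no (.con 136 [4, 4, 1]) .no .no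

def c10t492 : Tr4 :=
  .br 1073 (.hor [.f 1073 1 5] []) .no .no (.use 491) .no .no

def c10t493 : Tr4 :=
  .br 1202 (.red [.f 1202 1 3, .t 1201 2 3] 151 136 [4, 1] [(151, 136, [4, 1]), (167, 136, [4, 1,
  1])]) .no .no (.hor [.f 1066 3 1, .f 1073 1 5] [(150, 151, [4])]) .no .no

def c10t494 : Tr4 :=
  .br 1227 (.hor [.f 1219 1 3, .f 1218 3 5] [(169, 153, [1])]) .no (.red [.f 1099 3 1, .t 1226 4
  2, .t 1217 4 2, .f 1073 1 3] 152 136 [1] [(151, 136, [1, 4]), (152, 136, [1]), (153, 136, [3,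
  1]), (154, 136, [3, 1, 3])]) .no .no .no

def c10t495 : Tr4 :=
  .br 1218 (.con 136 [1, 1, 3]) .no (.hor [.f 1218 3 5] []) .no .no .no

def c10t496 : Tr4 :=
  .br 970 (.red [.t 970 1 4, .f 955 1 3] 136 136 [] [(136, 136, []), (137, 136, [3])]) (.hor [.f
  834 1 3, .f 962 3 5] [(121, 120, [3])]) (.br 824 .no (.use 490) (.br 827 .no (.con 136 [2, 2])
  (.br 1074 (.use 492) .no .no (.br 1073 (.br 1208 (.br 1209 (.use 23) .no (.br 826 .no (.br 818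
  .no (.red [.f 690 1 3] 103 136 [2, 2, 4] [(103, 136, [2, 2, 4])]) .no (.use 124) (.br 1075 (.br
  1210 (.use 493) .no (.hor [.f 1209 3 5] []) (.red [.t 1201 2 3, .f 1072 3 5] 151 136 [4, 1]
  [(151, 136, [4, 1])]) (.br 1219 (.br 1218 (.hor [.f 1218 1 5] []) .no (.br 1099 (.red [.t 1226 4
  2, .t 1217 4 2, .f 1073 1 3] 152 136 [1] [(151, 136, [4, 1]), (152, 136, [1]), (153, 136, [3,
  1])]) .no (.br 1098 .no .no (.hor [.f 1098 3 5] []) .no .no (.use 494)) .no .no (.red [.f 1090 5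
  3, .f 1090 3 1, .t 1217 4 2, .f 1073 1 3] 152 136 [1] [(151, 136, [4, 1]), (152, 136, [1]),
  (153, 136, [3, 1])])) .no .no .no) .no (.use 495) .no .no (.red [.f 1090 5 1, .t 1217 4 2, .f
  1073 1 3] 152 136 [1] [(151, 136, [4, 1]), (152, 136, [1])])) .no) (.red [.f 947 1 3, .f 946 3
  5, .f 818 5 1, .t 834 1 4, .f 819 1 3] 119 136 [2, 4] [(119, 136, [2, 4]), (120, 136, [2]),
  (135, 119, [1])]) .no (.hor [.f 1066 3 5] []) .no .no) (.red [.f 824 3 1, .f 824 1 3, .t 953 2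
  4] 119 136 [2, 4] [(119, 136, [2, 4])])) .no (.red [.f 818 3 1, .f 825 1 5] 119 136 [2, 4]
  [(119, 136, [2, 4])]) .no .no) .no (.red [.f 1081 5 1, .f 1073 1 3] 151 136 [4, 1] [(151, 136,
  [4, 1])]) .no) .no .no (.red [.f 1072 3 1, .f 1072 1 5] 151 136 [4, 1] [(151, 136, [4, 1])])
  (.red [.t 1072 3 1, .f 1080 1 3] 152 136 [1] [(151, 136, [4, 1]), (152, 136, [1])]) .no) .no .no
  (.hor [.f 1065 3 5] []) .no .no) (.red [.f 824 3 1, .f 824 1 5, .t 954 4 1, .t 834 1 4, .t 961 1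
  4] 136 136 [] [(135, 119, [1]), (136, 136, [])]) (.red [.f 1073 5 3, .f 1072 3 5, .t 960 4 1]
  136 136 [] [(136, 136, [])])) (.con 136 [2, 2]) .no (.con 136 [2, 2])) (.red [.t 824 4 1] 119
  136 [2, 4] [(119, 136, [2, 4])]) .no .no) .no .no (.br 824 .no (.use 490) (.br 827 .no (.con 136
  [2, 2]) (.br 1074 (.use 492) .no .no (.br 1073 (.br 1208 (.br 1209 (.use 23) .no (.br 826 .no
  (.br 818 .no (.red [.f 690 1 3] 103 136 [2, 2, 4] [(103, 136, [2, 2, 4])]) .no (.use 124) (.br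
  1075 (.br 1210 (.use 493) .no (.hor [.f 1209 3 5] []) (.red [.t 1201 2 3, .f 1072 3 5] 151 136
  [4, 1] [(151, 136, [4, 1])]) (.br 1219 (.br 1218 (.hor [.f 1218 1 5] []) .no (.br 1099 (.red [.t
  1226 4 2, .t 1217 4 2, .f 1073 1 3] 152 136 [1] [(151, 136, [4, 1]), (152, 136, [1]), (153, 136,
  [3, 1])]) .no (.br 1098 .no .no (.hor [.f 1098 3 5] []) .no .no (.use 494)) .no .no (.red [.f
  1090 5 3, .f 1090 3 1, .t 1217 4 2, .f 1073 1 3] 152 136 [1] [(151, 136, [4, 1]), (152, 136,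
  [1]), (153, 136, [3, 1])])) .no .no .no) .no (.use 495) .no .no (.red [.f 1090 5 1, .t 1217 4 2,
  .f 1073 1 3] 152 136 [1] [(151, 136, [4, 1]), (152, 136, [1])])) .no) (.red [.f 947 1 3, .f 946
  3 5, .f 818 5 1, .t 834 1 4, .f 819 1 3] 119 136 [2, 4] [(119, 136, [2, 4]), (120, 136, [2]),
  (135, 119, [1])]) .no (.hor [.f 1066 3 5] []) .no .no) (.red [.f 824 3 1, .f 824 1 3, .t 953 2
  4] 119 136 [2, 4] [(119, 136, [2, 4])])) .no (.red [.f 818 3 1, .f 825 1 5] 119 136 [2, 4]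
  [(119, 136, [2, 4])]) .no .no) .no (.red [.f 1081 5 1, .f 1073 1 3] 151 136 [4, 1] [(151, 136,
  [4, 1])]) .no) .no .no (.red [.f 1072 3 1, .f 1072 1 5] 151 136 [4, 1] [(151, 136, [4, 1])])
  (.red [.t 1072 3 1, .f 1080 1 3] 152 136 [1] [(151, 136, [4, 1]), (152, 136, [1])]) .no) .no .no
  (.hor [.f 1065 3 5] []) .no .no) (.red [.f 824 3 1, .f 824 1 5, .t 954 4 1, .t 834 1 4, .t 961 1
  4] 136 136 [] [(135, 119, [1]), (136, 136, [])]) (.red [.f 1073 5 3, .f 1072 3 5, .t 960 4 1]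
  136 136 [] [(136, 136, [])])) (.con 136 [2, 2]) .no (.con 136 [2, 2])) (.red [.t 824 4 1] 119
  136 [2, 4] [(119, 136, [2, 4])]) .no .no)

def c10t497 : Tr4 :=
  .br 1208 (.hor [.f 1208 1 5] []) .no (.con 136 [1, 1]) (.red [.f 1072 3 1, .f 1072 1 5] 151 136
  [1, 4] [(151, 136, [1, 4])]) .no .no

def c10t498 : Tr4 :=
  .br 1209 (.br 1210 (.hor [.f 1209 1 5] []) .no .no (.red [.t 1201 2 3, .f 1072 3 5] 151 136 [1,
  4] [(151, 136, [1, 4])]) (.use 497) .no) .no (.red [.t 1217 4 2, .f 1073 1 3] 152 136 [1] [(151,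
  136, [1, 4]), (152, 136, [1])]) .no (.red [.f 1081 5 1, .f 1073 1 3] 151 136 [1, 4] [(151, 136,
  [1, 4])]) (.red [.t 1072 3 1] 151 136 [1, 4] [(151, 136, [1, 4])])

def c10t499 : Tr4 :=
  .br 969 (.con 136 [3, 2, 3]) (.hor [.f 841 1 5] []) (.con 136 [3, 2, 3]) .no .no (.con 136 [3,
  2, 3])

def c10t500 : Tr4 :=
  .br 971 .no .no (.br 970 .no (.use 499) (.hor [.f 970 3 5] []) .no .no (.red [.f 969 5 1, .t
  1098 2 4, .f 955 1 3] 136 136 [] [(136, 136, []), (137, 136, [3])])) .no .no (.red [.f 962 5 3,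
  .f 963 3 1, .f 955 1 3] 136 136 [] [(136, 136, []), (137, 136, [3])])

def c10l19 : List Tr4 :=
  [c10t484, c10t485, c10t486, c10t487, c10t488, c10t489, c10t490, c10t491, c10t492, c10t493,
  c10t494, c10t495, c10t496, c10t497, c10t498, c10t499, c10t500]

theorem c10k19 : chkLF ⟨4, 0, 0, true, -8⟩ true 0 c10N 484 c10l19 = true := by decide +kernel

def c10t501 : Tr4 :=
  .br 1209 (.use 23) .no (.red [.t 1217 4 2] 152 136 [1] [(152, 136, [1])]) (.use 24) (.red [.f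
  1081 5 1, .f 1082 1 3] 152 136 [1] [(152, 136, [1])]) (.br 1098 (.hor [.f 1090 1 3, .f 1090 3 5]
  [(153, 137, [1])]) (.red [.t 1098 2 4, .f 955 1 3] 136 136 [] [(136, 136, []), (137, 136, [3])])
  (.br 971 .no .no (.br 970 .no (.use 499) (.hor [.f 970 3 5] []) .no .no (.br 947 .no (.br 939
  (.red [.t 938 3 1, .t 945 3 1, .f 953 1 3] 136 136 [] [(134, 136, [4, 4]), (135, 136, [4]),
  (136, 136, [])]) (.hor [.f 811 1 3, .f 938 3 5] [(118, 150, [2, 2])]) .no (.br 1067 (.br 1201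
  (.br 1200 (.hor [.f 1200 1 5] []) .no .no (.con 136 [4, 4, 1, 1]) .no .no) .no .no (.red [.f
  1065 3 1, .t 1072 3 1] 151 136 [4, 1] [(150, 136, [4, 4, 1]), (151, 136, [4, 1])]) (.br 1066
  (.red [.t 1065 3 1, .t 1072 3 1] 151 136 [4, 1] [(150, 136, [4, 4, 1]), (151, 136, [4, 1])]) .no
  .no (.br 1219 (.br 1211 (.red [.f 1211 1 3] 168 136 [1, 1] [(168, 136, [1, 1])]) .no .no (.con
  136 [4, 1, 1]) .no (.br 1194 (.br 1200 (.br 1192 (.con 136 [4, 4, 1, 4]) (.br 1193 (.hor [.f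
  1193 1 5] []) .no .no (.con 136 [4, 4, 4, 1, 1]) .no .no) .no (.con 136 [4, 4, 1, 4]) (.con 136
  [4, 4, 1, 4]) .no) .no .no (.con 136 [4, 4, 1, 4]) .no .no) .no .no (.red [.f 1058 3 1, .t 1065
  3 1] 150 136 [4, 4, 1] [(149, 136, [4, 4, 4, 1]), (150, 136, [4, 4, 1])]) .no (.red [.f 1193 5
  3, .f 1065 3 1, .t 1072 3 1] 151 136 [4, 1] [(150, 136, [4, 4, 1]), (151, 136, [4, 1])]))) .no
  (.hor [.f 1091 3 1, .f 1090 1 5] [(153, 137, [1])]) (.br 1210 (.br 1217 (.br 1337 (.br 1336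
  (.hor [.f 1336 1 5] []) .no (.red [.t 1344 4 2, .t 1217 4 2] 152 136 [1] [(152, 136, [1]), (168,
  136, [1, 1])]) (.br 1194 (.br 1329 (.red [.f 1329 1 3, .f 1328 3 5] 183 136 [4, 1, 1, 1] [(183,
  136, [4, 1, 1, 1])]) .no .no (.con 136 [4, 4, 1, 1, 4]) (.red [.f 1201 5 1, .f 1202 1 3] 167 136
  [4, 1, 1] [(167, 136, [4, 1, 1])]) .no) .no .no (.red [.f 1058 3 1, .t 1065 3 1] 150 136 [4, 4,
  1] [(149, 136, [4, 4, 4, 1]), (150, 136, [4, 4, 1])]) .no (.red [.f 1193 5 3, .f 1065 3 1, .t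
  1072 3 1] 151 136 [4, 1] [(150, 136, [4, 4, 1]), (151, 136, [4, 1])])) .no .no) .no .no (.red
  [.t 1337 4 2] 167 136 [4, 1, 1] [(167, 136, [4, 1, 1])]) .no (.red [.f 1208 5 1, .f 1209 1 3, .t
  1217 4 2] 152 136 [1] [(152, 136, [1]), (168, 136, [1, 1])])) .no (.br 1097 .no .no (.hor [.f
  1097 3 5] []) .no .no (.red [.t 1216 2 3, .f 1208 5 3, .t 1217 4 2] 152 136 [1] [(152, 136,
  [1]), (153, 137, [1])])) .no .no .no) .no .no .no .no .no) .no .no) .no .no) (.red [.f 1200 5 3,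
  .f 1072 3 1, .f 1080 1 3] 152 136 [1] [(151, 136, [4, 1]), (152, 136, [1])])) .no .no (.red [.f
  931 3 1, .t 938 3 1, .t 945 3 1, .f 953 1 3] 136 136 [] [(133, 136, [4, 4, 4]), (134, 136, [4,
  4]), (135, 136, [4]), (136, 136, [])]) .no (.red [.f 1066 5 3, .f 938 3 1, .t 945 3 1, .f 953 1
  3] 136 136 [] [(134, 136, [4, 4]), (135, 136, [4]), (136, 136, [])])) .no .no) .no (.hor [.f 938
  3 5] []) .no .no)) .no .no (.red [.f 962 5 3, .f 963 3 1, .f 955 1 3] 136 136 [] [(136, 136,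
  []), (137, 136, [3])])) .no .no (.use 500))

def c10t502 : Tr4 :=
  .br 1209 (.red [.f 1209 1 3, .f 1208 3 5] 168 136 [1, 1] [(168, 136, [1, 1])]) .no .no (.br 1210
  (.con 136 [1, 4, 1]) .no .no (.hor [.f 1201 3 5] []) (.con 136 [1, 1]) .no) (.red [.f 1081 5 1,
  .f 1082 1 3] 152 136 [1] [(152, 136, [1])]) .no

def c10t503 : Tr4 :=
  .br 1209 (.use 44) .no .no (.use 54) (.red [.f 1081 5 1, .f 1082 1 3] 152 136 [1] [(152, 136,
  [1])]) (.red [.f 1208 5 3, .t 1217 4 2] 152 136 [1] [(152, 136, [1])])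

def c10t504 : Tr4 :=
  .br 1091 (.con 136 [3, 1]) .no (.hor [.f 1090 3 5] []) .no .no .no

def c10t505 : Tr4 :=
  .br 1200 (.hor [.f 1200 1 5] []) .no .no (.br 1202 (.hor [.f 1201 1 5] []) .no .no (.con 136 [4,
  1, 4, 1]) (.con 136 [4, 1, 4, 1]) .no) .no .no

def c10t506 : Tr4 :=
  .br 1202 (.hor [.f 1201 1 5] []) .no .no (.br 1200 (.hor [.f 1200 1 5] []) .no .no (.con 136 [4,
  1, 4, 1]) .no .no) (.br 1200 (.hor [.f 1200 1 5] []) .no .no (.con 136 [4, 1, 4, 1]) .no .no)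
  .no

def c10t507 : Tr4 :=
  .br 817 .no (.use 140) .no (.br 947 .no .no .no (.br 936 (.br 938 (.con 136 [4, 4, 4]) (.red [.t
  938 2 3, .f 809 3 5] 118 136 [2, 4, 4] [(118, 136, [2, 4, 4])]) .no (.br 937 .no .no .no (.hor
  [.f 929 3 5] []) .no .no) .no (.br 1210 (.use 506) .no .no (.br 1336 (.br 1337 (.hor [.f 1336 1
  5] []) .no .no .no (.br 1066 (.red [.t 1201 1 3, .t 1065 3 1, .t 1072 3 1] 151 136 [4, 1] [(150,
  136, [4, 4, 1]), (151, 136, [4, 1]), (167, 151, [1])]) .no .no (.br 1200 (.hor [.f 1200 1 5] [])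
  .no .no (.br 1067 (.con 136 [4, 4, 4, 1]) .no .no (.hor [.f 1058 3 5] []) .no .no) .no .no) (.br
  1200 (.hor [.f 1200 1 5] []) .no .no (.br 1193 (.red [.f 1193 1 3, .f 1192 3 5] 166 136 [4, 4,
  1, 1] [(166, 136, [4, 4, 1, 1])]) .no .no (.br 1203 (.con 136 [4, 4, 1, 1]) .no .no (.red [.f
  1066 5 3, .f 1067 3 1] 150 136 [4, 4, 1] [(150, 136, [4, 4, 1])]) .no .no) (.red [.t 1201 1 3,
  .f 1193 5 3, .f 1065 3 1, .t 1072 3 1] 151 136 [4, 1] [(150, 136, [4, 4, 1]), (151, 136, [4,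
  1]), (167, 151, [1])]) .no) .no .no) .no) .no) .no (.red [.t 1344 4 2, .t 1217 4 2] 152 136 [1]
  [(152, 136, [1]), (168, 136, [1, 1])]) (.red [.t 1328 3 2, .f 1201 3 5, .f 1081 5 1, .f 1082 1
  3] 152 136 [1] [(152, 136, [1]), (167, 151, [1])]) (.red [.f 1208 5 1, .f 1209 1 3, .t 1217 4 2]
  152 136 [1] [(152, 136, [1]), (168, 136, [1, 1])]) .no) .no .no)) (.red [.t 808 1 3, .f 817 1 3]
  119 136 [2, 4] [(118, 136, [2, 4, 4]), (119, 136, [2, 4])]) .no (.use 142) (.red [.f 936 5 3, .f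
  809 3 1, .f 817 1 3] 119 136 [2, 4] [(118, 136, [2, 4, 4]), (119, 136, [2, 4])]) .no) .no .no)
  .no (.red [.f 824 3 1, .f 816 5 1, .f 817 1 3, .f 824 1 3] 119 136 [2, 4] [(119, 136, [2, 4])])

def c10t508 : Tr4 :=
  .br 817 .no (.use 140) .no (.br 947 .no .no .no (.br 1066 (.red [.t 1065 3 1, .t 1072 3 1] 151
  136 [4, 1] [(150, 136, [4, 4, 1]), (151, 136, [4, 1])]) (.red [.t 938 1 3, .f 1065 3 5, .f 1073
  5 1, .t 1072 3 1] 151 136 [4, 1] [(134, 118, [1]), (151, 136, [4, 1])]) .no (.br 936 (.br 1067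
  (.con 136 [4, 4, 4, 1]) .no .no (.hor [.f 1058 3 5] []) .no .no) (.red [.t 808 1 3, .f 817 1 3]
  119 136 [2, 4] [(118, 136, [2, 4, 4]), (119, 136, [2, 4])]) .no (.use 142) (.red [.f 936 5 3, .f
  809 3 1, .f 817 1 3] 119 136 [2, 4] [(118, 136, [2, 4, 4]), (119, 136, [2, 4])]) .no) (.red [.f
  1066 5 3, .f 1065 3 5, .f 1073 5 1, .t 1072 3 1] 151 136 [4, 1] [(151, 136, [4, 1])]) .no) .no
  .no) .no (.red [.f 824 3 1, .f 816 5 1, .f 817 1 3, .f 824 1 3] 119 136 [2, 4] [(119, 136, [2,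
  4])])

def c10t509 : Tr4 :=
  .br 1209 (.hor [.f 1208 1 5] []) .no .no (.use 53) (.red [.f 1081 5 1, .f 1082 1 3] 152 136 [1]
  [(152, 136, [1])]) .no

def c10t510 : Tr4 :=
  .br 818 .no (.red [.f 690 1 3] 103 136 [2, 4, 2] [(103, 136, [2, 4, 2])]) .no (.use 124) (.br
  1217 (.br 1088 (.br 1209 (.use 23) .no .no (.use 24) (.red [.f 1081 5 1, .f 1082 1 3] 152 136
  [1] [(152, 136, [1])]) (.br 1201 (.br 1219 (.br 1211 (.red [.f 1211 1 3] 168 136 [1, 1] [(168,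
  136, [1, 1])]) .no .no (.br 1210 (.con 136 [4, 1, 1]) .no .no (.hor [.f 1202 3 5] []) .no .no)
  .no (.use 505)) .no (.hor [.f 1091 3 1, .f 1090 1 5] [(153, 137, [1])]) (.use 507) .no .no) .no
  .no (.red [.f 1065 3 1, .t 1072 3 1] 151 136 [4, 1] [(150, 136, [4, 4, 1]), (151, 136, [4, 1])])
  (.use 508) (.red [.f 1200 5 3, .f 1072 3 1, .f 1080 1 3] 152 136 [1] [(151, 136, [4, 1]), (152,
  136, [1])]))) .no (.br 1216 (.hor [.f 1216 1 5] []) .no (.br 1208 (.use 509) .no .no (.red [.f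
  1072 3 1] 151 136 [4, 1] [(151, 136, [4, 1])]) (.br 1201 (.br 1219 (.br 1210 (.use 506) .no .no
  (.br 1211 (.red [.f 1211 1 3] 168 136 [1, 1] [(168, 136, [1, 1])]) .no .no (.hor [.f 1202 3 5]
  []) .no .no) (.use 505) .no) .no (.hor [.f 1091 3 1, .f 1090 1 5, .f 962 5 1, .f 961 1 5, .f
  1088 3 1] []) (.use 507) .no .no) .no .no (.red [.f 1065 3 1, .t 1072 3 1] 151 136 [4, 1] [(150,
  136, [4, 4, 1]), (151, 136, [4, 1])]) (.use 508) (.red [.f 1200 5 3, .f 1072 3 1] 151 136 [4, 1]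
  [(151, 136, [4, 1])])) .no) (.use 502) .no .no) .no .no .no) .no (.br 1216 (.con 136 [1, 3, 1])
  (.br 1098 (.hor [.f 1090 1 3, .f 1090 3 5] [(153, 137, [1])]) (.red [.t 1098 2 4, .f 955 1 3]
  136 136 [] [(136, 136, []), (137, 136, [3])]) (.br 1209 (.use 23) .no .no (.use 24) (.red [.f
  1081 5 1, .f 1082 1 3] 152 136 [1] [(152, 136, [1])]) (.br 1097 .no (.br 1096 (.con 136 [3, 3])
  (.hor [.f 968 1 5] []) (.con 136 [3, 3]) .no .no .no) (.hor [.f 1097 3 5] []) .no .no (.red [.t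
  1216 2 3, .f 1208 5 3, .t 1217 4 2] 152 136 [1] [(152, 136, [1]), (153, 137, [1])]))) .no .no
  (.hor [.t 1217 3 2, .f 1090 3 5] [(153, 137, [1])])) (.hor [.f 1216 3 5] []) (.con 136 [1, 3,
  1]) .no .no) (.red [.t 1217 4 2] 152 136 [1] [(152, 136, [1])]) .no (.use 503)) (.red [.f 824 3
  1, .f 824 1 3, .t 953 2 4] 119 136 [2, 4] [(119, 136, [2, 4])])

def c10t511 : Tr4 :=
  .br 954 .no (.br 953 .no (.hor [.f 825 1 5] []) .no (.br 1090 (.br 1091 (.hor [.f 1090 1 5] [])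
  .no (.br 946 (.red [.t 945 3 1, .f 953 1 3] 136 136 [] [(135, 136, [4]), (136, 136, [])]) (.hor
  [.f 818 1 3, .f 945 3 5] [(119, 120, [4])]) .no (.br 827 .no (.br 835 .no (.use 111) (.br 1073
  (.use 498) .no .no (.br 1074 (.use 491) .no .no (.hor [.f 1065 3 5] []) (.br 1088 (.use 501) .no
  (.br 1098 (.br 1097 (.hor [.f 1097 1 5] []) (.con 136 [3, 3]) (.con 136 [3, 3, 1]) .no .no .no)
  (.red [.t 1098 2 4, .f 955 1 3] 136 136 [] [(136, 136, []), (137, 136, [3])]) (.br 1097 (.br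
  1217 (.br 1216 (.hor [.f 1216 1 5] []) .no (.hor [.f 1088 3 1, .f 1096 1 5] [(153, 136, [3,
  1])]) (.use 502) .no .no) .no .no (.red [.t 1217 4 2] 152 136 [1] [(152, 136, [1])]) .no (.use
  503)) (.con 136 [3, 3]) (.hor [.f 1097 3 5] []) .no .no .no) .no .no (.use 500)) .no .no .no)
  .no) (.red [.f 1073 5 3, .f 945 3 1, .f 953 1 3] 136 136 [] [(135, 136, [4]), (136, 136, [])])
  .no) .no .no (.red [.f 834 5 1, .f 826 1 3, .t 961 1 4] 136 136 [] [(120, 136, [2]), (136, 136,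
  [])])) (.red [.t 826 1 3, .t 961 1 4] 136 136 [] [(120, 136, [2]), (136, 136, [])]) (.use 115)
  .no .no) (.br 1073 (.use 498) .no .no (.br 1074 (.use 491) .no .no (.hor [.f 1065 3 5] []) (.red
  [.f 946 5 1, .t 945 3 1, .f 953 1 3] 136 136 [] [(135, 136, [4]), (136, 136, [])]) .no) (.red
  [.f 1073 5 3, .f 945 3 1, .f 953 1 3] 136 136 [] [(135, 136, [4]), (136, 136, [])]) .no) .no)
  .no .no .no) .no (.use 504) .no (.red [.f 962 5 1, .f 955 1 3] 136 136 [] [(136, 136, [])]) .no)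
  .no .no) .no (.br 1090 (.br 1073 (.use 498) (.red [.t 945 1 3, .f 1072 3 5, .t 960 4 1] 136 136
  [] [(135, 119, [1]), (136, 136, [])]) .no (.br 953 .no (.br 1091 (.hor [.f 1090 1 5] []) .no
  (.br 1074 (.use 491) .no .no (.hor [.f 1065 3 5] []) (.br 945 .no (.red [.f 817 1 3] 119 136 [2,
  4] [(119, 136, [2, 4])]) .no (.br 826 .no (.br 944 .no (.br 947 .no (.use 489) .no (.con 136 [2,
  4, 4]) .no .no) .no (.hor [.f 936 3 5] []) .no .no) (.use 154) (.red [.f 818 3 1, .f 825 1 5]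
  119 136 [2, 4] [(119, 136, [2, 4])]) (.br 947 .no (.red [.t 946 3 2, .f 825 1 5] 119 136 [2, 4]
  [(119, 136, [2, 4])]) .no (.use 146) .no .no) .no) .no (.br 824 .no (.use 490) (.br 827 .no
  (.con 136 [2, 2]) (.br 826 .no (.use 510) (.con 136 [2, 2]) (.red [.f 818 3 1, .f 825 1 5] 119
  136 [2, 4] [(119, 136, [2, 4])]) .no .no) (.con 136 [2, 2]) .no (.con 136 [2, 2])) (.red [.t 824
  4 1] 119 136 [2, 4] [(119, 136, [2, 4])]) .no .no)) .no) .no .no .no) .no (.hor [.f 945 3 5] [])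
  .no .no) (.red [.f 1073 5 3, .f 1072 3 5, .t 960 4 1] 136 136 [] [(136, 136, [])]) .no) .no
  (.use 504) .no (.red [.f 962 5 1, .f 955 1 3] 136 136 [] [(136, 136, [])]) .no) .no (.red [.f
  953 5 1, .f 953 1 3] 136 136 [] [(136, 136, [])])

def c10t512 : Tr4 :=
  .br 1209 (.red [.f 1209 1 3, .f 1208 3 5] 168 136 [1, 1] [(168, 136, [1, 1])]) .no .no (.br 1210
  (.con 136 [1, 4, 1]) .no .no (.hor [.f 1201 3 5] []) (.con 136 [1, 1]) .no) (.red [.f 1081 5 1,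
  .f 1082 1 3, .f 954 3 1] 136 136 [] [(136, 136, []), (152, 136, [1])]) .no

def c10t513 : Tr4 :=
  .br 946 (.hor [.f 945 1 5] []) (.con 136 [4, 4]) .no (.con 136 [4, 4]) (.con 136 [4, 4]) .no

def c10t514 : Tr4 :=
  .br 1216 (.hor [.f 1216 1 5] []) .no (.br 1096 .no .no (.br 1097 (.red [.t 1224 4 2, .f 961 3 1,
  .t 961 1 4] 136 136 [] [(136, 136, []), (137, 136, [3]), (153, 136, [1, 3])]) .no (.hor [.f 1096
  3 5] []) .no (.red [.f 968 3 1, .t 968 1 4, .t 961 1 4] 136 136 [] [(136, 136, []), (137, 136,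
  [3]), (138, 136, [3, 3])]) .no) .no (.red [.f 1088 5 3, .f 961 3 1, .t 961 1 4] 136 136 []
  [(136, 136, []), (137, 136, [3])]) .no) .no .no .no

def c10t515 : Tr4 :=
  .br 1210 (.hor [.f 1209 1 5] []) .no (.br 1088 (.use 23) .no (.con 136 [1, 3]) .no (.con 136 [1,
  3]) .no) (.red [.t 1201 2 3, .f 1072 3 5] 151 136 [1, 4] [(151, 136, [1, 4])]) (.use 497) .no

def c10t516 : Tr4 :=
  .br 1089 .no (.br 963 (.br 1088 (.br 1210 (.br 1211 (.hor [.f 1210 1 5] []) .no (.br 1218 (.hor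
  [.f 1210 1 3, .f 1209 3 5] [(168, 152, [1])]) .no (.red [.f 1090 3 1, .t 1217 4 2] 152 136 [1]
  [(152, 136, [1]), (153, 136, [3, 1])]) .no .no .no) (.con 136 [4, 1, 1]) .no .no) .no (.hor [.f
  1209 3 5] []) (.red [.t 1201 2 3, .f 1072 3 5] 151 136 [4, 1] [(151, 136, [4, 1])]) (.br 1218
  (.br 1219 (.hor [.f 1218 1 5] []) .no (.con 136 [3, 1, 1]) .no .no .no) .no (.red [.f 1090 3 1,
  .t 1217 4 2] 152 136 [1] [(152, 136, [1]), (153, 136, [3, 1])]) .no (.red [.f 1210 5 3, .f 1209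
  3 5, .f 1081 5 1, .f 1073 1 3] 151 136 [4, 1] [(151, 136, [4, 1])]) .no) .no) .no (.con 136 [3,
  1]) .no .no .no) (.br 962 .no (.hor [.f 834 1 5] []) (.con 136 [2, 3]) .no .no .no) (.use 61)
  .no .no (.red [.f 954 5 3, .t 961 1 4] 136 136 [] [(136, 136, [])])) (.hor [.f 1089 3 5] []) .no
  .no (.con 136 [1, 3])

def c10t517 : Tr4 :=
  .br 962 .no (.hor [.f 834 1 5] []) (.con 136 [3, 2]) .no .no .no

def c10l20 : List Tr4 :=
  [c10t501, c10t502, c10t503, c10t504, c10t505, c10t506, c10t507, c10t508, c10t509, c10t510,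
  c10t511, c10t512, c10t513, c10t514, c10t515, c10t516, c10t517]

theorem c10k20 : chkLF ⟨4, 0, 0, true, -8⟩ true 0 c10N 501 c10l20 = true := by decide +kernel

end Pool.Agent.FT4D
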