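import Pool.Agent.FT4D.Tab_c10

/-!
# Four levels: decision trees (found by a computer search)
-/

namespace Pool.Agent.FT4D

def c10t518 : Tr4 :=
  .br 1074 (.br 945 (.con 136 [4, 4]) (.red [.f 817 1 3] 119 136 [2, 4] [(119, 136, [2, 4])]) .no
  (.br 946 .no (.use 100) .no (.hor [.f 937 3 5] []) (.red [.f 946 5 3, .f 947 3 1] 135 136 [4]
  [(135, 136, [4])]) .no) (.br 1073 (.hor [.f 1073 1 5] []) .no .no (.con 136 [4, 4, 1]) .no .no)
  (.br 1073 (.hor [.f 1073 1 5] []) .no .no (.con 136 [4, 4, 1]) .no .no)) (.red [.t 1074 2 3] 135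
  136 [4] [(135, 136, [4])]) .no (.br 946 .no (.br 945 (.con 136 [4, 4]) (.hor [.f 817 1 5] [])
  .no (.use 100) .no (.use 267)) .no (.red [.f 938 3 1] 134 136 [4, 4] [(134, 136, [4, 4])]) (.red
  [.f 946 5 3, .f 947 3 1] 135 136 [4] [(135, 136, [4])]) (.br 1073 (.br 1209 (.use 515) .no (.br
  1208 (.br 1090 (.use 498) (.br 961 (.hor [.f 961 1 5] []) (.con 136 [3]) (.con 136 [3]) .no .no
  .no) (.use 516) .no (.br 961 (.br 963 .no (.use 517) (.br 962 .no (.br 827 .no (.use 201) (.red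
  [.t 834 1 4, .t 961 1 4] 136 136 [] [(120, 136, [2]), (136, 136, [])]) (.br 824 .no (.use 371)
  (.con 136 [2, 2]) (.br 1200 (.red [.f 1200 1 3, .f 1072 3 1, .f 1072 1 5] 151 136 [4, 1] [(151,
  136, [4, 1]), (167, 136, [4, 1, 1])]) .no .no (.br 1065 (.red [.f 1065 1 3, .f 1065 3 5, .f 945
  5 1, .t 1074 2 3] 135 136 [4] [(135, 136, [4]), (150, 134, [1])]) (.red [.t 1065 2 3, .t 1074 2
  3] 135 136 [4] [(134, 136, [4, 4]), (135, 136, [4])]) .no (.br 944 .no .no .no (.use 470) .no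
  .no) .no (.red [.t 1200 4 2, .f 1065 3 5, .f 945 5 1, .t 1074 2 3] 135 136 [4] [(135, 136, [4]),
  (150, 134, [1])])) .no .no) .no .no) .no (.red [.f 826 5 1, .f 826 1 3, .t 961 1 4] 136 136 []
  [(120, 136, [2]), (136, 136, [])])) (.hor [.f 962 3 5] []) .no .no .no) .no .no (.red [.f 954 5
  3, .t 961 1 4] 136 136 [] [(136, 136, [])])) (.con 136 [3]) (.con 136 [3]) .no (.con 136 [3])
  .no) (.red [.f 1081 5 3, .f 1081 3 1, .f 1073 1 3] 152 136 [1] [(151, 136, [4, 1]), (152, 136,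
  [1])])) .no (.hor [.f 1208 3 5] []) (.red [.f 1072 3 1, .f 1072 1 5] 151 136 [4, 1] [(151, 136,
  [4, 1])]) .no .no) .no (.red [.f 1081 5 1, .f 1073 1 3] 151 136 [4, 1] [(151, 136, [4, 1])])
  (.red [.t 1072 3 1] 151 136 [4, 1] [(151, 136, [4, 1])])) .no .no (.hor [.f 1065 3 5] []) .no
  .no)) .no (.hor [.f 1073 5 3, .f 1072 3 5, .f 1074 3 5] [])

def c10t519 : Tr4 :=
  .br 1073 (.use 498) .no .no (.hor [.f 1065 3 5] []) .no .no

def c10t520 : Tr4 :=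
  .br 954 .no (.br 955 .no (.hor [.f 826 1 5] []) (.con 136 [2]) (.red [.f 947 3 1] 135 136 [4]
  [(135, 136, [4])]) .no .no) (.br 955 .no (.br 961 (.red [.t 961 1 4] 136 136 [] [(136, 136,
  [])]) (.br 963 (.br 1090 (.use 519) .no (.br 1089 (.con 136 [3, 1]) .no (.hor [.f 1089 3 5] [])
  .no .no (.con 136 [3, 1])) .no .no (.red [.f 1081 5 3, .f 954 3 1] 136 136 [] [(136, 136, [])]))
  (.con 136 [3]) (.con 136 [3]) .no .no .no) (.br 1090 (.use 519) .no (.br 1089 (.con 136 [1, 3])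
  .no (.hor [.f 1089 3 5] []) .no .no (.con 136 [1, 3])) .no (.con 136 [3]) (.red [.f 1081 5 3, .f
  954 3 1] 136 136 [] [(136, 136, [])])) .no .no .no) (.hor [.f 954 3 5] []) (.red [.f 947 3 1]
  135 136 [4] [(135, 136, [4])]) .no .no) (.hor [.f 945 3 5] []) (.br 946 .no (.br 1073 (.br 1209
  (.use 515) .no (.br 1208 (.br 1090 (.use 498) (.br 961 (.hor [.f 961 1 5] []) (.con 136 [3])
  (.con 136 [3]) .no .no .no) (.use 516) .no (.br 961 (.br 963 .no (.use 517) (.br 962 .no (.br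
  827 .no (.br 835 .no (.use 180) (.hor [.f 835 3 1, .f 834 1 5] [(121, 120, [3])]) .no .no .no)
  (.red [.t 834 1 4, .t 961 1 4] 136 136 [] [(120, 136, [2]), (136, 136, [])]) (.red [.t 818 1 3,
  .f 945 3 5, .f 953 5 1, .f 953 1 3] 136 136 [] [(119, 118, [3]), (136, 136, [])]) .no (.red [.f
  826 5 1, .f 818 1 3, .f 945 3 5, .f 953 5 1, .f 953 1 3] 136 136 [] [(119, 120, [4]), (136, 136,
  [])])) (.hor [.f 962 3 5] []) .no .no .no) .no .no (.red [.f 954 5 3, .t 961 1 4] 136 136 []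
  [(136, 136, [])])) (.con 136 [3]) (.con 136 [3]) .no (.con 136 [3]) .no) (.red [.f 1081 5 3, .f
  1081 3 1, .f 1073 1 3] 152 136 [1] [(151, 136, [4, 1]), (152, 136, [1])])) .no (.hor [.f 1208 3
  5] []) (.red [.f 1072 3 1, .f 1072 1 5] 151 136 [4, 1] [(151, 136, [4, 1])]) .no .no) .no (.red
  [.f 1081 5 1, .f 1073 1 3] 151 136 [4, 1] [(151, 136, [4, 1])]) (.red [.t 1072 3 1] 151 136 [4,
  1] [(151, 136, [4, 1])])) .no .no (.hor [.f 1065 3 5] []) .no .no) .no (.red [.f 938 3 1, .t 945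
  3 1] 135 136 [4] [(134, 136, [4, 4]), (135, 136, [4])]) (.red [.f 946 5 3, .f 947 3 1] 135 136
  [4] [(135, 136, [4])]) .no) .no

def c10t521 : Tr4 :=
  .br 946 (.hor [.f 945 1 5] []) (.con 136 [4, 4]) .no (.con 136 [4, 4]) .no .no

def c10t522 : Tr4 :=
  .br 1074 (.con 136 [4, 4, 1]) (.red [.f 953 5 1, .f 946 1 3] 135 136 [4] [(135, 136, [4])]) .no
  (.hor [.f 1065 3 5] []) .no .no

def c10t523 : Tr4 :=
  .br 1073 (.use 498) (.use 521) .no (.use 522) (.hor [.f 1073 5 3, .f 1072 3 5, .f 1074 3 5] [])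
  .no

def c10t524 : Tr4 :=
  .br 953 .no (.br 954 .no (.hor [.f 825 1 5] []) (.br 961 (.red [.t 961 1 4] 136 136 [] [(136,
  136, [])]) (.hor [.f 825 1 3, .f 952 3 5] [(120, 121, [4])]) (.br 955 .no (.br 963 (.br 1089
  (.use 12) .no (.red [.f 961 3 1, .t 961 1 4] 136 136 [] [(136, 136, []), (137, 136, [3])]) .no
  (.red [.f 1081 5 3, .f 954 3 1] 136 136 [] [(136, 136, [])]) (.br 1090 (.br 1217 (.br 1208 (.use
  509) .no (.use 512) (.red [.f 1072 3 1] 151 136 [4, 1] [(151, 136, [4, 1])]) (.br 1073 (.use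
  498) (.use 513) .no (.br 1074 (.con 136 [4, 4, 1]) (.br 947 .no (.red [.f 819 1 3] 119 136 [2,
  4] [(119, 136, [2, 4])]) .no (.br 945 .no (.red [.f 817 1 3] 119 136 [2, 4] [(119, 136, [2,
  4])]) .no (.br 944 .no (.con 136 [2, 4, 4]) .no (.hor [.f 936 3 5] []) .no .no) .no (.br 824 .no
  (.br 833 .no (.br 968 (.red [.t 968 1 4, .t 961 1 4] 136 136 [] [(136, 136, []), (137, 136,
  [3])]) (.use 265) (.use 514) .no .no .no) (.hor [.f 833 3 1, .f 825 1 3, .f 952 3 5] [(120, 119,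
  [3]), (121, 137, [2])]) .no (.red [.t 953 2 3, .f 953 5 1, .f 946 1 3] 135 136 [4] [(120, 119,
  [3]), (135, 136, [4])]) (.red [.t 952 3 2, .f 944 5 3, .t 945 3 1] 135 136 [4] [(120, 119, [3]),
  (135, 136, [4])])) (.hor [.f 824 3 1, .f 824 1 5] [(120, 104, [1])]) (.red [.t 824 4 1] 119 136
  [2, 4] [(119, 136, [2, 4])]) .no .no)) .no .no) .no (.hor [.f 1065 3 5] []) .no .no) (.hor [.f
  1073 5 3, .f 1072 3 5, .f 1074 3 5] []) .no) .no) .no (.use 46) (.red [.t 1217 4 2, .f 954 3 1,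
  .f 962 1 5] 136 136 [] [(136, 136, []), (152, 136, [1])]) .no (.use 503)) .no (.con 136 [3, 1])
  .no .no .no)) (.con 136 [3]) (.con 136 [3]) .no .no .no) (.con 136 [3]) (.red [.f 947 3 1] 135
  136 [4] [(135, 136, [4])]) .no .no) .no .no .no) (.br 955 .no (.con 136 [2, 4]) (.con 136 [2])
  (.hor [.f 946 3 5] []) .no .no) (.use 518) .no) (.hor [.f 952 3 5] []) (.br 1074 (.br 1073 (.hor
  [.f 1073 1 5] []) .no .no (.con 136 [4, 4, 1]) .no .no) (.red [.t 945 3 1, .f 1074 3 5] 135 136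
  [4] [(135, 136, [4])]) .no (.use 520) .no (.hor [.f 1073 5 3, .f 1072 3 5, .f 1074 3 5] []))
  (.br 955 .no (.br 947 .no (.red [.f 819 1 3] 119 136 [2, 4] [(119, 136, [2, 4])]) .no (.br 1088
  (.br 1089 (.hor [.f 1088 1 5] []) (.red [.f 953 5 1, .f 953 1 3] 136 136 [] [(136, 136, [])])
  (.br 1090 (.use 523) (.con 136 [3]) (.hor [.f 1089 3 5] []) .no (.con 136 [3]) .no) .no (.br
  1208 (.br 1073 (.br 1209 (.use 23) .no (.red [.f 1081 5 3, .f 1081 3 1, .f 1073 1 3] 152 136 [1]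
  [(151, 136, [4, 1]), (152, 136, [1])]) .no (.red [.f 1081 5 1, .f 1073 1 3] 151 136 [4, 1]
  [(151, 136, [4, 1])]) .no) (.use 521) .no (.use 522) (.hor [.f 1073 5 3, .f 1072 3 5, .f 1074 3
  5] []) .no) .no .no (.red [.f 1081 5 3, .f 1072 3 1] 151 136 [4, 1] [(151, 136, [4, 1])]) (.red
  [.f 1081 5 3, .t 1088 1 4] 152 136 [1] [(152, 136, [1])]) .no) .no) .no (.br 1090 (.use 523)
  (.con 136 [1, 3]) (.con 136 [1, 3]) .no (.con 136 [1, 3]) (.con 136 [1, 3])) .no (.red [.f 953 5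
  1, .t 952 3 1] 136 136 [] [(136, 136, [])]) .no) .no (.red [.f 953 5 1, .t 1082 2 4] 135 136 [4]
  [(135, 136, [4])])) (.con 136 [2]) (.red [.f 953 5 1, .f 947 3 1] 135 136 [4] [(135, 136, [4])])
  .no .no) .no

def c10t525 : Tr4 :=
  .br 1081 (.br 1082 (.hor [.f 1081 1 5] []) (.con 136 [1, 4]) (.br 1083 (.con 136 [4, 1]) (.use
  317) (.con 136 [4, 1]) (.br 955 .no (.br 954 .no (.hor [.f 826 1 5] []) (.red [.f 954 3 1] 136
  136 [] [(136, 136, [])]) (.br 953 .no (.con 136 [2, 4]) (.con 136 [2]) (.hor [.f 945 3 5] [])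
  .no .no) .no (.br 961 (.red [.t 1089 2 4, .f 952 3 5] 136 136 [] [(136, 136, [])]) (.br 963
  (.use 228) (.con 136 [3]) (.con 136 [3]) .no .no (.con 136 [3])) (.br 963 (.br 962 .no (.br 1089
  (.br 1088 (.hor [.f 1088 1 5] []) .no (.con 136 [3, 1]) .no .no .no) .no (.red [.f 961 3 1, .t
  1089 2 4] 136 136 [] [(136, 136, []), (137, 136, [3])]) .no .no (.use 370)) (.hor [.f 961 3 5]
  []) .no .no .no) (.con 136 [3]) (.con 136 [3]) .no .no (.con 136 [3])) .no (.red [.f 953 5 3, .f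
  954 3 1] 136 136 [] [(136, 136, [])]) .no)) (.br 954 .no (.con 136 [2]) (.hor [.f 954 3 5] [])
  (.con 136 [2]) .no (.con 136 [2])) (.red [.f 947 3 1] 135 136 [4] [(135, 136, [4])]) .no (.br
  963 (.red [.t 1090 4 2] 136 136 [] [(136, 136, [])]) (.br 961 (.use 222) (.con 136 [3]) (.con
  136 [3]) (.con 136 [2]) (.con 136 [3]) .no) (.use 374) .no .no (.red [.f 954 5 3, .f 954 3 1]
  136 136 [] [(136, 136, [])]))) .no .no) (.con 136 [1, 4]) (.con 136 [4, 1]) .no) (.br 1088 (.use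
  486) .no (.br 1089 (.use 487) (.red [.f 953 1 3, .f 952 3 5] 136 136 [] [(136, 136, [])]) (.hor
  [.f 1088 3 5] []) .no (.con 136 [1, 3]) .no) .no (.red [.t 952 3 1] 136 136 [] [(136, 136, [])])
  .no) (.br 1090 (.con 136 [1]) (.con 136 [3]) (.con 136 [1]) (.hor [.f 1081 3 5] []) (.con 136
  [3]) .no) (.hor [.f 1072 3 5] []) (.br 1083 (.con 136 [4, 1]) (.br 963 (.red [.f 955 1 3] 136
  136 [] [(136, 136, [])]) (.br 961 (.br 962 (.con 136 [3]) (.hor [.f 834 1 5] []) (.con 136 [2,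
  3]) (.red [.t 961 1 4, .f 954 1 5] 136 136 [] [(136, 136, [])]) .no .no) (.con 136 [3]) (.con
  136 [3]) (.con 136 [3]) (.con 136 [3]) .no) (.br 961 (.br 962 (.con 136 [3]) (.br 954 .no (.br
  1090 (.use 488) .no (.use 61) .no (.red [.f 826 1 3, .t 954 3 1] 136 136 [] [(120, 136, [2]),
  (136, 136, [])]) .no) .no (.br 1090 (.use 488) .no (.use 61) .no (.br 953 .no (.br 1088 (.br 945
  (.red [.t 945 1 3, .f 1072 3 5, .t 960 4 1] 136 136 [] [(135, 119, [1]), (136, 136, [])]) (.red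
  [.f 817 1 3] 119 136 [2, 4] [(119, 136, [2, 4])]) .no (.br 944 .no (.br 947 (.con 136 [2, 4, 4])
  (.br 826 .no (.use 489) .no (.red [.f 818 3 1, .f 818 1 5] 119 136 [2, 4] [(119, 136, [2, 4])])
  (.red [.t 946 3 2, .f 825 1 5] 119 136 [2, 4] [(119, 136, [2, 4])]) .no) .no (.con 136 [2, 4,
  4]) .no .no) .no (.hor [.f 936 3 5] []) .no .no) .no (.use 496)) .no (.con 136 [3, 1]) .no .no
  .no) .no (.hor [.f 945 3 5] []) .no .no) .no) .no (.red [.f 953 5 1, .f 953 1 3] 136 136 []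
  [(136, 136, [])])) (.hor [.f 962 3 5] []) (.red [.t 961 1 4, .f 954 1 5] 136 136 [] [(136, 136,
  [])]) .no .no) (.con 136 [3]) (.con 136 [3]) (.con 136 [3]) (.con 136 [3]) .no) .no .no (.br
  1089 (.con 136 [3]) (.use 511) (.con 136 [3]) .no (.con 136 [3]) (.con 136 [3]))) (.con 136 [1])
  (.use 524) .no .no) .no

def c10t526 : Tr4 :=
  .br 1083 (.con 136 [4, 1]) (.red [.f 955 1 3, .f 954 3 5] 136 136 [] [(136, 136, [])]) .no (.hor
  [.f 1074 3 5] []) .no .no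

def c10t527 : Tr4 :=
  .br 1082 (.red [.f 1082 1 3, .f 954 3 1] 136 136 [] [(136, 136, []), (152, 136, [1])]) .no .no
  (.use 526) (.red [.t 962 4 1] 136 136 [] [(136, 136, [])]) .no

def c10t528 : Tr4 :=
  .br 1090 (.use 527) .no (.hor [.f 1089 3 5] []) (.red [.f 954 3 1, .f 962 1 5] 136 136 [] [(136,
  136, [])]) .no .no

def c10t529 : Tr4 :=
  .br 953 .no (.use 97) .no (.hor [.f 945 3 5] []) .no .no

def c10l21 : List Tr4 :=
  [c10t518, c10t519, c10t520, c10t521, c10t522, c10t523, c10t524, c10t525, c10t526, c10t527,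
  c10t528, c10t529]

theorem c10k21 : chkLF ⟨4, 0, 0, true, -8⟩ true 0 c10N 518 c10l21 = true := by decide +kernel

def c10t530 : Tr4 :=
  .br 1073 (.hor [.f 1073 1 5] []) .no .no (.br 1072 (.con 136 [4, 4, 1]) (.red [.t 944 1 3] 135
  136 [4] [(135, 136, [4])]) .no (.hor [.f 1064 3 5] []) .no .no) .no (.red [.f 1072 5 3, .f 945 3
  1] 135 136 [4] [(135, 136, [4])])

def c10t531 : Tr4 :=
  .br 1075 (.br 1211 (.red [.f 1211 1 3] 168 136 [1, 1] [(168, 136, [1, 1])]) .no .no .no .no .no)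
  .no .no (.con 136 [4, 4, 1]) .no .no

def c10t532 : Tr4 :=
  .br 834 .no (.con 136 [2, 3, 2]) (.hor [.f 833 3 5] []) .no (.con 136 [2, 2]) .no

def c10t533 : Tr4 :=
  .br 944 .no (.br 824 .no (.hor [.f 696 1 5] []) (.br 833 .no (.hor [.f 697 1 3, .f 824 3 5]
  [(104, 136, [2, 2])]) (.use 532) .no (.red [.f 833 5 1, .f 826 1 3, .t 962 4 1, .t 953 4 1] 136
  136 [] [(120, 136, [2]), (135, 136, [4]), (136, 136, [])]) .no) .no .no .no) .no (.red [.f 936 3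
  1, .t 944 1 3] 135 136 [4] [(134, 136, [4, 4]), (135, 136, [4])]) .no .no

def c10t534 : Tr4 :=
  .br 1099 .no .no (.hor [.f 1098 3 5] []) .no .no .no

def c10t535 : Tr4 :=
  .br 1098 (.hor [.f 1090 1 3, .f 1089 3 5] [(153, 137, [1])]) .no (.br 1219 (.use 531) .no (.use
  534) (.red [.t 1218 2 4] 152 136 [1] [(152, 136, [1])]) .no .no) .no (.red [.f 970 5 1, .t 1097
  4 2, .t 960 4 1] 136 136 [] [(136, 136, []), (137, 136, [3])]) .no

def c10t536 : Tr4 :=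
  .br 1209 (.red [.f 1209 1 3, .t 1216 2 4] 152 136 [1] [(152, 136, [1]), (168, 136, [1, 1])]) .no
  .no (.br 1210 (.br 1083 (.con 136 [1, 4]) (.red [.f 955 1 3] 136 136 [] [(136, 136, [])]) .no
  (.br 1082 .no (.con 136 [4]) .no (.hor [.f 1074 3 5] []) .no .no) .no (.br 954 .no (.br 953 .no
  (.hor [.f 825 1 5] []) .no (.br 955 .no (.hor [.f 826 1 5] []) .no (.br 946 (.red [.t 946 1 3,
  .f 955 1 3] 136 136 [] [(135, 136, [4]), (136, 136, [])]) (.hor [.f 818 1 3, .f 945 3 5] [(119,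
  120, [4])]) .no (.br 1074 (.br 1075 (.hor [.f 1074 1 5] []) .no .no (.con 136 [4, 1, 4]) .no
  .no) .no .no (.red [.f 938 3 1, .t 946 1 3] 135 136 [4] [(134, 136, [4, 4]), (135, 136, [4])])
  (.red [.f 1074 5 3, .f 947 3 1, .f 955 1 3] 136 136 [] [(135, 136, [4]), (136, 136, [])]) (.br
  1211 (.hor [.f 1210 1 5] []) .no (.red [.t 1218 2 4] 152 136 [1] [(152, 136, [1])]) (.con 136
  [4, 1, 1]) .no .no)) .no .no) .no .no) .no .no) .no (.use 529) (.red [.f 954 5 1, .f 955 1 3]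
  136 136 [] [(136, 136, [])]) (.red [.f 953 5 3, .t 962 4 1] 136 136 [] [(136, 136, [])]))) (.red
  [.f 1082 1 3] 152 136 [1] [(152, 136, [1])]) .no (.hor [.f 1201 3 5] []) (.br 1083 .no (.red [.f
  955 1 3] 136 136 [] [(136, 136, [])]) .no (.br 1082 .no (.con 136 [4]) .no (.hor [.f 1074 3 5]
  []) .no .no) .no (.red [.f 1082 5 1, .f 1082 1 3] 152 136 [1] [(152, 136, [1])])) .no) (.br 1083
  (.con 136 [1, 4]) (.red [.f 955 1 3] 136 136 [] [(136, 136, [])]) .no (.br 1082 .no (.con 136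
  [4]) .no (.hor [.f 1074 3 5] []) .no .no) .no (.br 954 .no (.br 953 .no (.hor [.f 825 1 5] [])
  .no (.br 955 .no (.hor [.f 826 1 5] []) .no (.br 946 (.red [.t 946 1 3, .f 955 1 3] 136 136 []
  [(135, 136, [4]), (136, 136, [])]) (.hor [.f 818 1 3, .f 945 3 5] [(119, 120, [4])]) .no (.br
  1074 (.use 530) .no .no (.red [.f 938 3 1, .t 946 1 3] 135 136 [4] [(134, 136, [4, 4]), (135,
  136, [4])]) (.red [.f 1074 5 3, .f 947 3 1, .f 955 1 3] 136 136 [] [(135, 136, [4]), (136, 136,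
  [])]) (.br 825 .no (.br 970 (.red [.t 1097 4 2, .t 960 4 1] 136 136 [] [(136, 136, []), (137,
  136, [3])]) (.use 377) (.br 1219 (.br 1072 (.use 531) (.red [.t 944 1 3] 135 136 [4] [(135, 136,
  [4])]) .no (.use 533) .no .no) .no (.use 380) (.red [.t 1218 2 4] 152 136 [1] [(152, 136, [1])])
  .no .no) .no (.br 1072 (.use 535) (.red [.t 944 1 3] 135 136 [4] [(135, 136, [4])]) .no (.use
  533) .no .no) (.red [.f 961 5 3, .f 961 3 1, .t 960 4 1] 136 136 [] [(136, 136, []), (137, 136,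
  [3])])) (.red [.t 825 3 1, .t 962 4 1] 136 136 [] [(120, 136, [2]), (136, 136, [])]) (.hor [.f
  817 3 1, .f 825 1 5] [(119, 120, [4])]) .no (.br 944 (.red [.t 944 1 3] 135 136 [4] [(135, 136,
  [4])]) (.hor [.t 944 2 3, .f 825 1 5] [(119, 120, [4])]) .no (.br 1072 (.br 970 (.red [.t 1097 4
  2, .t 960 4 1] 136 136 [] [(136, 136, []), (137, 136, [3])]) (.use 377) (.br 1219 (.use 531) .no
  (.use 380) (.red [.t 1218 2 4] 152 136 [1] [(152, 136, [1])]) .no .no) .no (.use 535) (.red [.f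
  961 5 3, .f 961 3 1, .t 960 4 1] 136 136 [] [(136, 136, []), (137, 136, [3])])) .no .no (.red
  [.f 936 3 1, .t 944 1 3] 135 136 [4] [(134, 136, [4, 4]), (135, 136, [4])]) .no .no) .no .no)))
  .no .no) .no .no) .no .no) .no (.use 529) (.red [.f 954 5 1, .f 955 1 3] 136 136 [] [(136, 136,
  [])]) (.red [.f 953 5 3, .t 962 4 1] 136 136 [] [(136, 136, [])]))) (.red [.f 1080 5 1, .f 1080
  1 3, .f 952 3 1] 136 136 [] [(136, 136, []), (152, 136, [1])])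

def c10t537 : Tr4 :=
  .br 1073 (.hor [.f 1072 1 5] []) .no .no (.con 136 [4, 1, 4]) (.con 136 [4, 4, 1]) .no

def c10t538 : Tr4 :=
  .br 944 .no (.br 824 .no (.hor [.f 696 1 5] []) (.br 833 .no (.hor [.f 697 1 3, .f 824 3 5]
  [(104, 136, [2, 2])]) (.use 532) .no (.red [.f 833 5 1, .f 826 1 3, .f 954 3 1] 136 136 []
  [(120, 136, [2]), (136, 136, [])]) .no) .no .no .no) .no (.red [.f 936 3 1, .t 944 1 3] 135 136
  [4] [(134, 136, [4, 4]), (135, 136, [4])]) .no .no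

def c10t539 : Tr4 :=
  .br 1073 (.hor [.f 1072 1 5] []) .no .no (.con 136 [4, 4, 1]) .no .no

def c10t540 : Tr4 :=
  .br 1217 (.red [.f 1209 1 3, .t 1216 2 4] 152 136 [1] [(152, 136, [1]), (168, 136, [1, 1])]) .no
  (.br 1219 (.br 1211 (.red [.f 1211 1 3] 168 136 [1, 1] [(168, 136, [1, 1])]) .no .no (.red [.f
  1075 3 1, .f 1082 1 5, .t 962 4 1] 136 136 [] [(136, 136, []), (151, 135, [1])]) .no .no) .no
  (.con 136 [3, 1, 1]) (.br 1218 (.con 136 [3, 1, 1]) .no (.hor [.f 1217 3 5] []) .no .no .no) .no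
  (.con 136 [3, 1, 1])) .no (.red [.f 1089 5 1, .f 1082 1 3, .f 954 3 1] 136 136 [] [(136, 136,
  []), (152, 136, [1])]) .no

def c10t541 : Tr4 :=
  .br 1072 (.red [.t 1200 2 3, .f 1081 1 5, .f 1081 5 3, .f 954 3 1] 136 136 [] [(136, 136, []),
  (151, 135, [1])]) (.red [.t 944 1 3, .t 953 1 3] 136 136 [] [(135, 136, [4]), (136, 136, [])])
  .no (.br 1073 .no .no .no (.hor [.f 1064 3 5] []) (.red [.t 1209 4 2, .f 1074 3 5, .t 962 4 1]
  136 136 [] [(136, 136, []), (151, 135, [1])]) .no) (.red [.f 1072 5 3, .f 945 3 1, .t 953 1 3]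
  136 136 [] [(135, 136, [4]), (136, 136, [])]) .no

def c10t542 : Tr4 :=
  .br 953 .no (.con 136 [2, 4]) .no (.hor [.f 945 3 5] []) .no .no

def c10t543 : Tr4 :=
  .br 945 (.con 136 [4, 2, 4]) (.hor [.f 817 1 5] []) .no (.con 136 [4, 2, 4]) .no (.con 136 [4,
  2, 4])

def c10t544 : Tr4 :=
  .br 1098 (.use 401) .no (.hor [.f 970 3 1, .f 970 1 5] [(138, 136, [3, 3])]) .no .no (.red [.f
  1089 5 3, .f 961 3 1, .t 960 4 1] 136 136 [] [(136, 136, []), (137, 136, [3])])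

def c10t545 : Tr4 :=
  .br 1211 (.red [.f 1211 1 3] 168 136 [1, 1] [(168, 136, [1, 1])]) .no .no (.con 136 [1, 4, 1])
  .no .no

def c10t546 : Tr4 :=
  .br 946 (.br 1073 .no (.hor [.f 945 1 5] []) .no (.br 1072 (.red [.t 1200 2 3, .f 1081 1 5, .f
  953 5 1, .f 946 1 3] 135 136 [4] [(135, 136, [4]), (151, 135, [1])]) (.br 945 .no (.br 826 .no
  (.br 825 .no (.hor [.f 697 1 5] []) (.red [.t 833 4 1, .f 817 1 3] 119 136 [2, 4] [(119, 136,
  [2, 4]), (120, 136, [2])]) .no .no (.br 938 (.hor [.f 938 1 3, .f 938 3 5] [(134, 135, [4])])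
  (.use 324) .no (.br 937 .no (.red [.f 809 1 3, .f 937 3 1, .f 944 1 5, .f 1072 5 3, .t 1073 3 2]
  135 136 [4] [(118, 119, [4]), (134, 135, [4]), (135, 136, [4])]) .no (.hor [.f 929 3 5] []) .no
  (.red [.t 1072 2 4, .f 1072 5 3, .t 1073 3 2] 135 136 [4] [(134, 135, [4]), (135, 136, [4])]))
  .no (.hor [.t 1073 4 2, .f 938 3 5] [(134, 135, [4])]))) .no (.red [.t 817 1 3, .f 826 1 5] 119
  136 [2, 4] [(119, 136, [2, 4])]) .no (.red [.f 825 5 1, .f 817 1 3] 119 136 [2, 4] [(119, 136,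
  [2, 4])])) .no (.hor [.f 937 3 1, .f 944 1 5] [(134, 118, [1])]) .no .no) .no (.hor [.f 1064 3
  5] []) .no .no) .no (.red [.f 1072 5 3, .t 1073 3 2] 135 136 [4] [(135, 136, [4])])) (.use 543)
  .no (.hor [.f 938 3 5] []) .no (.br 944 (.red [.f 945 5 3, .t 944 1 3] 135 136 [4] [(135, 136,
  [4])]) (.con 136 [2, 4, 4]) .no (.br 1072 (.br 1074 (.con 136 [4, 1, 4]) .no .no (.br 1065 (.con
  136 [4, 1, 4, 2]) (.con 136 [4, 1, 4, 2]) (.hor [.f 1065 3 5] []) (.con 136 [4, 1, 4, 2]) .no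
  (.con 136 [4, 1, 4, 2])) .no (.br 826 .no (.br 819 .no (.br 818 .no (.hor [.f 690 1 5] []) .no
  (.br 825 .no (.hor [.f 697 1 5] []) (.br 824 .no (.br 816 .no (.red [.f 688 1 3] 103 136 [2, 2,
  4] [(103, 136, [2, 2, 4])]) .no (.con 136 [2, 2, 4, 4]) (.con 136 [2, 2, 4, 4]) .no) (.hor [.f
  824 3 5] []) (.br 817 .no (.con 136 [2, 2, 4, 4]) .no (.hor [.f 809 3 5] []) .no .no) .no .no)
  (.con 136 [2, 4, 4, 2]) .no (.use 354)) .no (.br 1064 (.red [.f 1064 1 3, .f 936 3 1] 134 136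
  [4, 4] [(134, 136, [4, 4]), (150, 136, [4, 4, 1])]) .no .no (.br 1065 (.br 1066 (.hor [.f 1065 1
  5] []) (.con 136 [4, 4, 4]) .no (.con 136 [4, 4, 4, 1]) (.con 136 [4, 4, 4, 1]) .no) (.red [.f
  945 5 1, .f 937 1 3] 134 136 [4, 4] [(134, 136, [4, 4])]) .no (.hor [.f 1056 3 5] []) (.br 938
  .no (.red [.f 817 5 1, .f 810 1 3] 118 136 [2, 4, 4] [(118, 136, [2, 4, 4])]) .no (.br 937 .no
  (.con 136 [2, 4, 4, 4]) .no (.hor [.f 929 3 5] []) .no .no) .no (.hor [.f 937 5 3, .f 936 3 5,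
  .f 938 3 5] [])) .no) (.red [.f 945 5 1, .t 944 4 1] 134 136 [4, 4] [(134, 136, [4, 4])]) .no))
  .no (.red [.f 811 3 1, .f 819 1 3] 119 136 [2, 4] [(118, 136, [2, 4, 4]), (119, 136, [2, 4])])
  .no (.red [.f 945 5 3, .t 954 4 2] 119 136 [2, 4] [(119, 136, [2, 4])])) .no (.red [.f 945 5 3,
  .f 818 3 1, .f 826 1 3] 119 136 [2, 4] [(119, 136, [2, 4]), (120, 136, [2])]) .no (.red [.f 945
  5 1, .f 825 5 1, .f 826 1 5, .t 1074 2 3] 135 136 [4] [(135, 136, [4])]))) .no .no (.red [.f 945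
  5 3, .f 936 3 1] 134 136 [4, 4] [(134, 136, [4, 4])]) (.red [.f 1072 5 3, .f 945 5 3, .f 945 3
  1] 135 136 [4] [(135, 136, [4])]) .no) .no .no)

def c10t547 : Tr4 :=
  .br 824 .no (.con 136 [2, 2, 4]) (.con 136 [2, 2]) (.hor [.f 816 3 5] []) .no .no

def c10t548 : Tr4 :=
  .br 819 .no (.con 136 [4, 2, 2, 4]) .no (.hor [.f 810 3 5] []) .no .no

def c10t549 : Tr4 :=
  .br 816 .no (.use 408) .no (.use 548) .no .no

def c10t550 : Tr4 :=
  .br 1073 .no (.con 136 [4, 4]) .no (.hor [.f 1064 3 5] []) .no .no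

def c10t551 : Tr4 :=
  .br 816 .no (.use 408) .no (.use 548) .no .no

def c10t552 : Tr4 :=
  .br 944 .no (.hor [.f 816 1 5] []) .no (.use 551) .no .no

def c10t553 : Tr4 :=
  .br 944 .no (.con 136 [2, 4, 4]) .no (.hor [.f 936 3 5] []) .no .no

def c10t554 : Tr4 :=
  .br 1073 .no .no .no (.red [.f 1074 1 3, .f 937 3 1, .t 1073 2 3, .t 944 1 3, .t 1082 2 4] 135
  136 [4] [(134, 118, [1]), (135, 136, [4]), (151, 135, [1])]) .no .no

def c10t555 : Tr4 :=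
  .br 825 .no (.use 350) (.red [.t 833 4 1, .f 1074 1 3, .f 1074 3 5, .t 962 4 1] 136 136 []
  [(120, 136, [2]), (136, 136, []), (151, 135, [1])]) (.use 547) .no (.br 833 .no (.br 818 .no
  (.use 353) .no (.br 1072 (.con 136 [4, 1, 4]) (.br 1073 .no (.hor [.f 944 1 5] []) .no (.br 945
  .no (.use 549) .no (.red [.f 1074 1 3, .f 937 3 1, .t 1073 2 3, .t 944 1 3, .t 1082 2 4] 135 136
  [4] [(134, 118, [1]), (135, 136, [4]), (151, 135, [1])]) .no .no) .no .no) .no (.use 550) (.br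
  945 .no (.use 552) .no (.use 553) .no (.red [.f 944 5 1, .f 1074 1 3, .t 1073 2 3, .t 944 1 3,
  .t 1082 2 4] 135 136 [4] [(135, 136, [4]), (151, 135, [1])])) .no) (.red [.f 818 5 1, .f 819 1
  3] 119 136 [2, 4] [(119, 136, [2, 4])]) (.br 1072 (.con 136 [4, 1, 4]) (.br 945 (.hor [.f 944 1
  5] []) .no .no (.use 554) .no .no) .no (.use 550) (.br 945 .no .no .no (.use 553) .no (.red [.f
  944 5 1, .f 1074 1 3, .t 1073 2 3, .t 944 1 3, .t 1082 2 4] 135 136 [4] [(135, 136, [4]), (151,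
  135, [1])])) .no)) (.hor [.f 833 3 1, .f 833 1 5] [(121, 120, [3])]) .no .no (.br 1072 (.con 136
  [4, 1, 4]) (.br 945 (.hor [.f 944 1 5] []) (.red [.f 824 5 3, .t 833 4 1, .f 817 1 3] 119 136
  [2, 4] [(119, 136, [2, 4]), (120, 136, [2])]) .no (.use 554) .no .no) .no (.use 550) (.br 945
  .no (.red [.f 824 5 3, .t 833 4 1, .f 817 1 3] 119 136 [2, 4] [(119, 136, [2, 4]), (120, 136,
  [2])]) .no (.use 553) .no (.red [.f 944 5 1, .f 1074 1 3, .t 1073 2 3, .t 944 1 3, .t 1082 2 4]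
  135 136 [4] [(135, 136, [4]), (151, 135, [1])])) .no))

def c10t556 : Tr4 :=
  .br 1072 (.con 136 [4, 4]) (.hor [.f 944 1 5] []) .no (.con 136 [4, 4]) .no .no

def c10t557 : Tr4 :=
  .br 816 .no (.red [.f 688 1 3] 103 136 [2, 2, 4] [(103, 136, [2, 2, 4])]) .no (.use 548) (.red
  [.t 833 4 1, .f 816 5 1, .f 817 1 3] 119 136 [2, 4] [(119, 136, [2, 4]), (120, 136, [2])]) .no

def c10t558 : Tr4 :=
  .br 819 .no (.br 816 .no (.red [.f 688 1 3] 103 136 [2, 4, 2] [(103, 136, [2, 4, 2])]) .no (.con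
  136 [2, 4, 2, 4]) .no .no) .no (.red [.t 810 1 3, .f 819 1 3] 119 136 [2, 4] [(118, 136, [2, 4,
  4]), (119, 136, [2, 4])]) .no .no

def c10t559 : Tr4 :=
  .br 937 (.red [.f 944 5 1, .f 937 1 3] 134 136 [4, 4] [(134, 136, [4, 4])]) (.con 136 [4, 2, 4,
  4]) .no (.hor [.f 929 3 5] []) .no (.con 136 [4, 2, 4, 4])

def c10t560 : Tr4 :=
  .br 939 (.red [.f 944 5 1, .t 1066 3 2] 134 136 [4, 4] [(134, 136, [4, 4])]) (.use 559) .no
  (.hor [.f 930 3 5] []) .no .no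

def c10t561 : Tr4 :=
  .br 816 .no (.use 408) .no (.con 136 [2, 2, 4, 4]) .no .no

def c10t562 : Tr4 :=
  .br 819 .no (.use 561) .no (.red [.t 810 1 3, .f 819 1 3] 119 136 [2, 4] [(118, 136, [2, 4, 4]),
  (119, 136, [2, 4])]) .no .no

def c10t563 : Tr4 :=
  .br 819 .no (.br 816 .no (.red [.f 824 5 3, .f 696 3 1, .f 688 1 3] 103 136 [2, 2, 4] [(103,
  136, [2, 2, 4]), (104, 136, [2, 2])]) .no (.con 136 [2, 2, 4, 4]) .no .no) .no (.red [.t 810 1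
  3, .f 819 1 3] 119 136 [2, 4] [(118, 136, [2, 4, 4]), (119, 136, [2, 4])]) .no .no

def c10t564 : Tr4 :=
  .br 697 .no (.br 696 .no (.hor [.f 568 1 5] []) (.use 563) (.use 260) .no .no) (.br 696 .no
  (.con 136 [2, 2, 2]) (.use 563) (.con 136 [2, 2, 2]) .no .no) (.red [.t 697 4 1] 103 136 [2, 2,
  4] [(103, 136, [2, 2, 4])]) .no (.red [.f 696 5 1, .f 697 1 5, .f 817 5 3, .t 826 4 1, .f 810 1
  3] 119 136 [2, 4] [(118, 136, [2, 4, 4]), (119, 136, [2, 4])])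

def c10l22 : List Tr4 :=
  [c10t530, c10t531, c10t532, c10t533, c10t534, c10t535, c10t536, c10t537, c10t538, c10t539,
  c10t540, c10t541, c10t542, c10t543, c10t544, c10t545, c10t546, c10t547, c10t548, c10t549,
  c10t550, c10t551, c10t552, c10t553, c10t554, c10t555, c10t556, c10t557, c10t558, c10t559,
  c10t560, c10t561, c10t562, c10t563, c10t564]

theorem c10k22 : chkLF ⟨4, 0, 0, true, -8⟩ true 0 c10N 530 c10l22 = true := by decide +kernel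

def c10t565 : Tr4 :=
  .br 825 .no (.use 350) (.br 1073 .no (.use 556) .no (.hor [.f 1065 3 5] []) .no (.br 945 .no
  (.red [.t 833 4 1, .f 817 1 3] 119 136 [2, 4] [(119, 136, [2, 4]), (120, 136, [2])]) .no (.use
  553) .no (.br 824 .no (.br 818 .no (.red [.f 690 1 3] 103 136 [2, 2, 4] [(103, 136, [2, 2, 4])])
  .no (.use 557) (.red [.f 944 5 1, .f 818 5 1, .f 819 1 3] 119 136 [2, 4] [(119, 136, [2, 4])])
  (.br 938 .no (.use 558) .no (.use 560) (.red [.f 944 5 1, .f 938 5 3, .f 938 3 1] 134 136 [4, 4]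
  [(134, 136, [4, 4])]) (.red [.f 944 5 1, .t 1073 2 4] 134 136 [4, 4] [(134, 136, [4, 4])])))
  (.hor [.f 824 3 5] []) (.red [.t 833 4 1, .t 824 4 1] 119 136 [2, 4] [(119, 136, [2, 4]), (120,
  136, [2])]) .no .no))) (.use 547) .no (.br 1073 .no (.use 556) .no (.hor [.f 1065 3 5] []) .no
  (.br 833 .no (.br 945 .no (.br 818 .no (.use 353) .no (.use 552) (.red [.f 818 5 1, .f 819 1 3]
  119 136 [2, 4] [(119, 136, [2, 4])]) .no) .no (.use 553) .no (.br 938 .no (.br 818 .no (.use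
  353) .no .no (.red [.f 944 5 1, .f 818 5 1, .f 819 1 3] 119 136 [2, 4] [(119, 136, [2, 4])])
  (.use 562)) .no (.use 560) (.red [.f 944 5 1, .f 938 5 3, .f 938 3 1] 134 136 [4, 4] [(134, 136,
  [4, 4])]) (.red [.f 944 5 1, .t 1073 2 4] 134 136 [4, 4] [(134, 136, [4, 4])]))) (.hor [.f 833 3
  1, .f 833 1 5] [(121, 137, [2])]) .no .no (.br 945 .no (.red [.f 824 5 3, .t 833 4 1, .f 817 1
  3] 119 136 [2, 4] [(119, 136, [2, 4]), (120, 136, [2])]) .no (.use 553) .no (.br 938 .no (.br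
  818 .no (.use 353) .no .no (.red [.f 944 5 1, .f 818 5 1, .f 819 1 3] 119 136 [2, 4] [(119, 136,
  [2, 4])]) (.use 564)) .no (.use 560) (.red [.f 944 5 1, .f 938 5 3, .f 938 3 1] 134 136 [4, 4]
  [(134, 136, [4, 4])]) (.red [.f 944 5 1, .t 1073 2 4] 134 136 [4, 4] [(134, 136, [4, 4])])))))

def c10t566 : Tr4 :=
  .br 1337 (.br 1338 (.hor [.f 1337 1 5] []) .no (.red [.t 1209 4 2, .t 1345 2 4, .t 1216 2 4] 152
  136 [1] [(151, 167, [2]), (152, 136, [1]), (168, 136, [1, 1])]) (.con 136 [1, 1, 1, 4]) (.con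
  136 [1, 1, 4]) .no) .no .no (.red [.f 1201 3 1, .f 1208 1 5] 167 136 [1, 4, 1] [(167, 136, [1,
  4, 1])]) (.red [.t 1209 4 2, .f 1209 5 1, .f 1209 1 3] 168 136 [1, 1] [(151, 167, [2]), (168,
  136, [1, 1])]) .no

def c10t567 : Tr4 :=
  .br 1218 (.hor [.f 1217 1 5] []) .no (.red [.t 1225 2 4, .f 1082 1 3] 152 136 [1] [(152, 136,
  [1]), (153, 136, [1, 3])]) .no (.use 566) .no

def c10t568 : Tr4 :=
  .br 819 .no (.con 136 [4, 2, 2, 4]) .no (.hor [.f 810 3 5] []) .no .no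

def c10t569 : Tr4 :=
  .br 979 (.hor [.f 970 3 1, .f 978 1 5] [(138, 136, [3, 3])]) (.hor [.f 977 3 1, .t 976 4 1, .f
  1097 3 5] [(138, 136, [3, 3]), (139, 136, [3, 3, 3])]) (.hor [.f 977 3 1, .t 976 4 1, .f 1097 3
  5] [(138, 136, [3, 3]), (139, 136, [3, 3, 3])]) .no .no .no

def c10t570 : Tr4 :=
  .br 977 .no .no (.use 569) .no .no .no

def c10t571 : Tr4 :=
  .br 1218 (.hor [.f 1217 1 5] []) .no (.br 1219 (.use 545) .no (.hor [.f 1218 3 5] []) (.br 1225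
  (.hor [.f 1217 1 3, .f 1217 3 5] [(169, 153, [1])]) .no (.br 842 .no (.br 968 .no .no (.br 1105
  .no (.hor [.t 976 4 1, .f 1097 3 5] [(138, 136, [3, 3])]) (.br 841 .no (.hor [.f 713 1 5] [])
  (.use 570) .no .no .no) .no .no (.red [.f 1096 5 3, .f 1097 3 5, .f 1089 5 3, .f 961 3 1, .t 960
  4 1] 136 136 [] [(136, 136, []), (137, 136, [3])])) .no .no .no) (.hor [.f 842 3 1, .f 834 1 3,
  .f 961 3 5] [(121, 120, [3]), (122, 121, [3])]) .no .no (.red [.t 961 3 2, .f 961 5 1, .t 960 4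
  1, .t 840 4 1] 136 136 [] [(136, 136, [])])) .no .no (.red [.f 1096 5 1, .t 1225 2 4, .f 1082 1
  3] 152 136 [1] [(152, 136, [1]), (153, 136, [3, 1])])) .no .no) .no (.use 566) .no

def c10t572 : Tr4 :=
  .br 819 .no (.con 136 [4, 2, 4, 2]) .no (.hor [.f 810 3 5] []) .no .no

def c10t573 : Tr4 :=
  .br 968 .no (.br 979 (.hor [.f 970 3 1, .f 978 1 5] [(138, 136, [3, 3])]) (.hor [.f 843 1 3, .f
  970 3 5] [(122, 138, [2])]) (.br 1107 (.hor [.f 1099 1 3, .f 1098 3 5] [(154, 138, [1])]) .no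
  (.hor [.f 979 3 1, .f 970 3 1, .f 978 1 5] [(138, 136, [3, 3]), (139, 136, [3, 3, 3])]) .no .no
  .no) .no .no .no) (.use 570) .no .no .no

def c10t574 : Tr4 :=
  .br 819 .no (.con 136 [4, 2, 2, 4]) .no (.br 939 (.red [.t 1209 4 2, .f 1074 3 5, .f 946 5 1, .f
  939 1 3, .f 811 3 1, .f 819 1 3] 119 136 [4, 2] [(118, 136, [4, 2, 4]), (119, 136, [4, 2]),
  (134, 136, [4, 4]), (151, 135, [1])]) .no .no (.br 938 (.br 936 (.con 136 [4, 4, 4]) .no .no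
  (.br 1067 (.br 1059 (.red [.f 1059 1 3] 149 136 [4, 4, 1, 4] [(149, 136, [4, 4, 1, 4])]) .no .no
  (.br 1065 (.con 136 [4, 4, 1, 4]) .no .no (.br 1058 (.con 136 [4, 4, 1, 4, 4]) (.red [.f 930 1
  3, .f 930 3 5] 133 136 [4, 4, 4] [(133, 136, [4, 4, 4])]) .no (.hor [.f 1050 3 5] []) .no .no)
  .no (.br 810 .no (.br 809 .no (.hor [.f 681 1 5] []) .no (.con 136 [4, 2, 2, 4, 4]) .no .no) .no
  (.br 930 (.red [.f 930 1 3, .f 802 3 1] 117 136 [4, 2, 4, 4] [(117, 136, [4, 2, 4, 4]), (133,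
  136, [4, 4, 4])]) .no .no (.br 929 (.con 136 [4, 4, 4, 4]) (.red [.t 937 3 1, .t 801 1 3, .t 810
  1 3] 118 136 [4, 2, 4] [(117, 136, [4, 2, 4, 4]), (118, 136, [4, 2, 4]), (134, 118, [1])]) .no
  (.hor [.f 921 3 5] []) .no .no) .no (.red [.t 937 3 1, .f 929 5 3, .f 802 3 1, .t 810 1 3] 118
  136 [4, 2, 4] [(117, 136, [4, 2, 4, 4]), (118, 136, [4, 2, 4]), (134, 118, [1])])) .no (.hor [.f
  809 5 3, .f 808 3 5, .f 810 3 5] []))) .no (.red [.t 938 1 4] 133 136 [4, 4, 4] [(133, 136, [4,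
  4, 4])])) .no .no (.red [.f 931 3 1, .f 938 1 5] 133 136 [4, 4, 4] [(133, 136, [4, 4, 4])]) .no
  .no) .no .no) (.red [.t 937 3 2, .f 810 3 5] 118 136 [4, 2, 4] [(118, 136, [4, 2, 4])]) .no
  (.hor [.f 930 3 5] []) .no .no) .no (.red [.f 938 5 3, .f 811 3 1, .f 819 1 3] 119 136 [4, 2]
  [(118, 136, [4, 2, 4]), (119, 136, [4, 2])])) .no .no

def c10t575 : Tr4 :=
  .br 690 .no (.con 136 [4, 2, 2, 2, 4]) .no (.hor [.f 681 3 5] []) .no .no

def c10t576 : Tr4 :=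
  .br 819 .no (.use 575) .no (.red [.f 938 5 3, .f 811 3 1, .f 819 1 3] 119 136 [4, 2] [(118, 136,
  [4, 2, 4]), (119, 136, [4, 2])]) .no .no

def c10t577 : Tr4 :=
  .br 1467 (.hor [.f 1466 1 5] []) .no .no .no .no .no

def c10t578 : Tr4 :=
  .br 1203 (.con 136 [4, 1, 4, 1]) .no .no (.hor [.f 1194 3 5] []) .no .no

def c10t579 : Tr4 :=
  .br 1200 (.red [.f 1200 1 3, .f 1200 3 5] 167 136 [4, 1, 1] [(167, 136, [4, 1, 1])]) .no .no
  (.use 578) .no .no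

def c10t580 : Tr4 :=
  .br 1328 (.br 1346 (.br 1203 (.hor [.f 1202 1 5] []) .no .no (.br 1329 (.hor [.f 1328 1 5] [])
  .no .no (.br 1331 (.br 1466 (.br 1347 (.hor [.f 1346 1 5] []) .no (.br 1475 (.use 577) .no (.hor
  [.f 1347 3 1, .f 1346 1 5] [(185, 153, [1, 1])]) (.red [.t 1474 2 4, .f 1331 1 3] 183 136 [4, 1,
  1, 1] [(183, 136, [4, 1, 1, 1]), (184, 136, [1, 1, 1])]) .no .no) .no .no .no) .no .no (.red [.t
  1458 3 2, .f 1337 1 5] 183 136 [4, 1, 1, 1] [(183, 136, [4, 1, 1, 1])]) (.red [.f 1338 5 1, .f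
  1331 1 3] 183 136 [4, 1, 1, 1] [(183, 136, [4, 1, 1, 1])]) .no) .no .no (.con 136 [4, 1, 4, 1,
  1]) .no .no) .no .no) .no .no) .no (.hor [.f 1218 3 1, .f 1217 1 5] [(169, 153, [1])]) .no (.red
  [.f 1338 5 3, .t 1209 4 2, .t 1345 2 4, .t 1216 2 4] 152 136 [1] [(151, 135, [1]), (152, 136,
  [1]), (168, 136, [1, 1])]) .no) .no .no (.red [.f 1192 3 1, .f 1200 1 3, .f 1200 3 5] 167 136
  [4, 1, 1] [(166, 136, [4, 1, 4, 1]), (167, 136, [4, 1, 1])]) (.red [.t 1208 1 4, .f 1201 1 5]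
  167 136 [4, 1, 1] [(167, 136, [4, 1, 1])]) .no

def c10t581 : Tr4 :=
  .br 944 (.br 1337 (.br 1338 (.hor [.f 1337 1 5] []) .no (.red [.t 1209 4 2, .t 1345 2 4, .t 1216
  2 4] 152 136 [1] [(151, 135, [1]), (152, 136, [1]), (168, 136, [1, 1])]) (.use 427) (.br 1202
  (.br 1200 (.red [.f 1200 1 3, .f 1200 3 5] 167 136 [4, 1, 1] [(167, 136, [4, 1, 1])]) .no .no
  (.use 580) .no .no) .no .no (.use 579) (.red [.t 833 4 1, .t 1082 1 4, .t 962 4 1] 136 136 []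
  [(120, 136, [2]), (136, 136, []), (151, 135, [1])]) .no) .no) .no .no (.red [.f 1201 3 1, .f
  1208 1 5] 167 136 [4, 1, 1] [(167, 136, [4, 1, 1])]) (.br 1202 (.red [.t 1201 3 1, .f 1208 1 5]
  167 136 [4, 1, 1] [(167, 136, [4, 1, 1])]) .no .no (.use 579) (.red [.t 833 4 1, .t 1082 1 4, .t
  962 4 1] 136 136 [] [(120, 136, [2]), (136, 136, []), (151, 135, [1])]) .no) .no) (.con 136 [2,
  4, 4]) .no (.hor [.f 936 3 5] []) .no .no

def c10t582 : Tr4 :=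
  .br 1065 (.con 136 [4, 4, 4]) (.hor [.f 937 1 5] []) .no (.con 136 [4, 4, 4]) .no (.con 136 [4,
  4, 4])

def c10t583 : Tr4 :=
  .br 1065 (.br 1066 (.hor [.f 1065 1 5] []) .no .no (.con 136 [4, 4, 4, 1]) (.con 136 [4, 4, 4,
  1]) .no) .no .no (.hor [.f 1056 3 5] []) (.br 1067 (.con 136 [4, 4, 4, 1]) .no .no (.red [.f 937
  5 1, .f 931 3 1] 133 136 [4, 4, 4] [(133, 136, [4, 4, 4])]) .no .no) .no

def c10t584 : Tr4 :=
  .br 810 .no (.br 809 .no (.hor [.f 681 1 5] []) .no (.con 136 [4, 2, 2, 4, 4]) .no .no) .no (.br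
  930 (.red [.t 930 1 3] 133 136 [4, 4, 4] [(133, 136, [4, 4, 4])]) .no .no (.br 929 (.con 136 [4,
  2, 4, 4, 4, 1]) (.red [.t 801 1 3, .t 810 1 3] 118 136 [4, 2, 4] [(117, 136, [4, 2, 4, 4]),
  (118, 136, [4, 2, 4])]) .no (.hor [.f 921 3 5] []) .no (.con 136 [4, 2, 4, 4, 1])) .no (.red [.f
  929 5 3, .f 802 3 1, .t 810 1 3, .f 819 1 3] 119 136 [4, 2] [(117, 136, [4, 2, 4, 4]), (118,
  136, [4, 2, 4]), (119, 136, [4, 2])])) .no (.hor [.f 809 5 3, .f 808 3 5, .f 810 3 5] [])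

def c10t585 : Tr4 :=
  .br 1067 (.con 136 [1, 4, 4, 1]) .no .no (.red [.f 931 3 1] 133 136 [4, 4, 4] [(133, 136, [4, 4,
  4])]) .no (.use 584)

def c10t586 : Tr4 :=
  .br 819 .no (.con 136 [2, 2, 4, 4]) .no (.br 939 (.red [.t 1209 4 2, .f 1074 3 5, .f 946 5 1, .f
  939 1 3, .f 811 3 1, .f 819 1 3] 119 136 [2, 4] [(118, 136, [2, 4, 4]), (119, 136, [2, 4]),
  (134, 136, [4, 4]), (151, 135, [1])]) .no .no (.br 938 (.use 582) (.use 558) .no (.hor [.f 930 3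
  5] []) .no (.br 1202 (.br 1203 (.hor [.f 1202 1 5] []) .no .no (.br 1067 .no .no .no (.red [.f
  931 3 1] 133 136 [4, 4, 4] [(133, 136, [4, 4, 4])]) .no (.use 584)) .no .no) .no .no (.use 585)
  (.red [.t 978 4 1, .t 833 4 1, .t 1082 1 4, .t 962 4 1, .t 1098 2 3] 136 136 [] [(120, 136,
  [2]), (136, 136, []), (151, 135, [1])]) .no)) .no (.red [.f 938 5 3, .f 811 3 1, .f 819 1 3] 119
  136 [2, 4] [(118, 136, [2, 4, 4]), (119, 136, [2, 4])])) .no .no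

def c10t587 : Tr4 :=
  .br 977 (.hor [.t 976 4 1, .f 1097 3 1, .t 1225 2 4, .f 961 3 1, .f 968 1 5] [(137, 136, [3]),
  (138, 136, [3, 3]), (153, 136, [3, 1]), (154, 136, [3, 3, 1])]) .no (.br 1107 (.br 1106 (.hor
  [.f 1106 1 5] []) .no (.con 136 [3, 3, 3, 1]) .no .no (.con 136 [3, 3, 3, 1])) .no (.red [.f 979
  3 1, .t 978 4 1, .t 969 4 1, .t 960 4 1] 136 136 [] [(136, 136, []), (137, 136, [3]), (138, 136,
  [3, 3]), (139, 136, [3, 3, 3])]) .no .no (.red [.f 1098 5 3, .f 970 3 1, .t 969 4 1, .t 960 4 1]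
  136 136 [] [(136, 136, []), (137, 136, [3]), (138, 136, [3, 3])])) .no .no .no

def c10t588 : Tr4 :=
  .br 1097 (.red [.t 1225 2 4, .f 1082 1 3] 152 136 [1] [(152, 136, [1]), (153, 136, [3, 1])]) .no
  (.br 1096 (.con 136 [3, 3, 1]) (.br 1225 (.hor [.f 1217 1 3, .f 1217 3 5] [(169, 153, [1])]) .no
  (.hor [.f 1097 3 1, .t 1225 2 4, .f 961 3 1, .f 968 1 5] [(137, 136, [3]), (153, 136, [3, 1]),
  (154, 136, [3, 3, 1])]) .no .no (.br 816 .no (.red [.f 688 1 3] 103 136 [2, 2, 4] [(103, 136,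
  [2, 2, 4])]) .no (.br 1337 (.br 1338 (.hor [.f 1337 1 5] []) .no (.red [.t 1209 4 2, .t 1345 2
  4, .t 1216 2 4] 152 136 [1] [(151, 135, [1]), (152, 136, [1]), (168, 136, [1, 1])]) (.use 427)
  (.br 1106 (.br 1227 (.br 1346 (.use 468) .no (.hor [.f 1218 3 1, .f 1217 1 5] [(169, 153, [1])])
  .no (.red [.f 1338 5 3, .t 1209 4 2, .t 1345 2 4, .t 1216 2 4] 152 136 [1] [(151, 135, [1]),
  (152, 136, [1]), (168, 136, [1, 1])]) .no) .no (.hor [.t 1234 2 4, .f 1097 3 5] [(154, 136, [3,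
  3, 1])]) .no .no .no) .no (.br 1104 (.red [.t 1104 1 4, .t 1225 2 4, .f 1082 1 3] 152 136 [1]
  [(152, 136, [1]), (153, 136, [3, 1]), (154, 136, [3, 3, 1])]) (.hor [.f 968 1 3, .f 1096 3 5]
  [(138, 137, [3])]) (.br 1107 (.con 136 [3, 3, 3, 1]) (.use 586) (.hor [.f 1106 3 5] []) .no .no
  .no) .no .no .no) .no (.red [.f 1098 5 3, .f 970 3 1, .t 969 4 1, .t 960 4 1, .t 1105 4 2] 136
  136 [] [(136, 136, []), (137, 136, [3])]) .no) .no) .no .no (.red [.f 1201 3 1, .f 1208 1 5] 167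
  136 [4, 1, 1] [(167, 136, [4, 1, 1])]) (.br 1202 (.red [.t 1201 3 1, .f 1208 1 5] 167 136 [4, 1,
  1] [(167, 136, [4, 1, 1])]) .no .no (.br 819 .no (.con 136 [2, 2, 4, 4]) .no (.br 939 (.red [.t
  1209 4 2, .f 1074 3 5, .f 946 5 1, .f 939 1 3, .f 811 3 1, .f 819 1 3] 119 136 [2, 4] [(118,
  136, [2, 4, 4]), (119, 136, [2, 4]), (134, 136, [4, 4]), (151, 135, [1])]) .no .no (.br 938
  (.use 582) (.use 558) .no (.hor [.f 930 3 5] []) .no (.use 585)) .no (.red [.f 938 5 3, .f 811 3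
  1, .f 819 1 3] 119 136 [2, 4] [(118, 136, [2, 4, 4]), (119, 136, [2, 4])])) .no .no) (.red [.t
  833 4 1, .t 1082 1 4, .t 962 4 1] 136 136 [] [(120, 136, [2]), (136, 136, []), (151, 135, [1])])
  .no) .no) .no .no)) (.hor [.f 1096 3 5] []) .no .no .no) .no .no (.br 1225 (.hor [.f 1217 1 3,
  .f 1217 3 5] [(169, 153, [1])]) .no (.br 816 .no (.red [.f 688 1 3] 103 136 [2, 2, 4] [(103,
  136, [2, 2, 4])]) .no (.br 968 .no .no (.br 1104 (.red [.t 1232 2 4, .t 1225 2 4, .f 1082 1 3]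
  152 136 [1] [(152, 136, [1]), (153, 136, [3, 1]), (154, 136, [3, 3, 1])]) .no (.br 842 .no (.br
  841 .no (.hor [.f 713 1 5] []) (.br 979 (.use 586) (.hor [.f 843 1 3, .f 970 3 5] [(122, 138,
  [2])]) (.use 587) .no .no .no) .no .no .no) (.hor [.f 842 3 1, .f 834 1 3, .f 961 3 5] [(121,
  120, [3]), (122, 138, [2])]) .no .no (.red [.t 961 3 2, .f 961 5 1, .t 960 4 1, .t 840 4 1] 136
  136 [] [(136, 136, [])])) .no (.red [.f 1096 5 3, .f 1097 3 1, .t 1225 2 4, .f 1082 1 3] 152 136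
  [1] [(152, 136, [1]), (153, 136, [3, 1]), (154, 136, [3, 3, 1])]) .no) .no .no .no) .no .no) .no
  .no (.red [.f 1096 5 1, .t 1225 2 4, .f 1082 1 3] 152 136 [1] [(152, 136, [1]), (153, 136, [3,
  1])]))

def c10t589 : Tr4 :=
  .br 1337 (.br 1338 (.hor [.f 1337 1 5] []) .no (.red [.t 1209 4 2, .t 1345 2 4, .t 1216 2 4] 152
  136 [1] [(151, 135, [1]), (152, 136, [1]), (168, 136, [1, 1])]) .no (.use 580) .no) .no .no
  (.red [.f 1201 3 1, .f 1201 1 5] 167 136 [4, 1, 1] [(167, 136, [4, 1, 1])]) (.red [.t 1201 3 1,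
  .f 1208 1 5] 167 136 [4, 1, 1] [(167, 136, [4, 1, 1])]) .no

def c10l23 : List Tr4 :=
  [c10t565, c10t566, c10t567, c10t568, c10t569, c10t570, c10t571, c10t572, c10t573, c10t574,
  c10t575, c10t576, c10t577, c10t578, c10t579, c10t580, c10t581, c10t582, c10t583, c10t584,
  c10t585, c10t586, c10t587, c10t588, c10t589]

theorem c10k23 : chkLF ⟨4, 0, 0, true, -8⟩ true 0 c10N 565 c10l23 = true := by decide +kernel

def c10t590 : Tr4 :=
  .br 1098 (.use 403) .no (.br 824 .no (.br 832 .no (.hor [.f 696 1 3, .f 824 3 5] [(104, 103,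
  [3])]) (.br 1097 (.use 567) .no (.hor [.f 1097 3 5] []) .no .no (.use 571)) .no .no .no) (.hor
  [.f 824 3 5] []) (.br 1097 (.use 567) .no (.hor [.f 1097 3 5] []) .no .no (.br 832 .no (.br 1218
  (.hor [.f 1217 1 5] []) .no (.br 1219 (.use 545) .no (.hor [.f 1218 3 5] []) (.br 1225 (.hor [.f
  1217 1 3, .f 1217 3 5] [(169, 153, [1])]) .no (.br 705 .no (.br 842 .no (.br 835 .no (.br 578
  (.hor [.f 577 1 5] []) (.con 136 [2, 2, 2, 3, 1, 4, 1]) (.con 136 [2, 2, 2, 3, 1, 4, 1]) (.con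
  136 [2, 2, 2, 3, 1, 4, 1]) (.con 136 [2, 2, 2, 3, 1, 4, 1]) .no) .no .no .no .no) (.hor [.f 842
  3 1, .f 834 1 3, .f 961 3 5] [(121, 120, [3]), (122, 138, [2])]) .no .no (.red [.t 961 3 2, .f
  961 5 1, .t 960 4 1] 136 136 [] [(121, 120, [3]), (136, 136, [])])) (.br 842 .no (.br 1099 (.br
  1105 .no (.hor [.f 970 3 1, .f 977 1 5] [(138, 136, [3, 3])]) (.br 841 .no .no (.use 573) .no
  .no (.br 968 .no .no (.br 977 .no (.br 979 (.hor [.f 970 3 1, .f 978 1 5] [(138, 136, [3, 3])])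
  (.hor [.f 843 1 3, .f 970 3 5] [(122, 123, [4])]) (.br 1107 (.hor [.f 1099 1 3, .f 1098 3 5]
  [(154, 138, [1])]) .no (.hor [.f 979 3 1, .f 970 3 1, .f 978 1 5] [(138, 136, [3, 3]), (139,
  136, [3, 3, 3])]) .no .no .no) .no .no .no) (.use 569) .no .no .no) .no .no .no)) .no .no (.red
  [.f 1096 5 3, .f 1097 3 5, .f 1089 5 3, .f 961 3 1, .t 960 4 1] 136 136 [] [(136, 136, []),
  (137, 136, [3])])) .no (.hor [.f 1098 3 5] []) .no .no .no) (.hor [.f 842 3 1, .f 834 1 3, .f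
  961 3 5] [(121, 120, [3]), (122, 138, [2])]) .no .no (.red [.t 961 3 2, .f 961 5 1, .t 960 4 1]
  136 136 [] [(121, 120, [3]), (136, 136, [])])) (.hor [.f 697 3 1, .f 697 1 5] [(104, 88, [1])])
  (.hor [.t 825 3 2, .f 704 1 5] [(104, 120, [2])]) .no) .no .no (.red [.f 1096 5 1, .t 1225 2 4,
  .f 1082 1 3] 152 136 [1] [(152, 136, [1]), (153, 136, [3, 1])])) .no .no) .no (.use 566) .no)
  (.use 571) .no .no .no)) .no .no) .no (.br 1218 (.hor [.f 1217 1 5] []) .no (.br 1219 (.use 545)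
  .no (.hor [.f 1218 3 5] []) (.br 945 .no (.red [.t 833 4 1, .f 817 1 3] 119 136 [2, 4] [(119,
  136, [2, 4]), (120, 136, [2])]) .no (.use 581) .no (.br 824 .no (.br 818 .no (.red [.f 690 1 3]
  103 136 [2, 2, 4] [(103, 136, [2, 2, 4])]) .no (.use 557) (.red [.f 818 5 1, .f 819 1 3] 119 136
  [2, 4] [(119, 136, [2, 4])]) (.br 832 .no (.hor [.f 696 1 3, .f 824 3 5] [(104, 103, [3])]) (.br
  1072 (.use 588) .no .no (.br 1200 (.red [.f 1200 1 3, .f 1200 3 5] 167 136 [4, 1, 1] [(167, 136,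
  [4, 1, 1])]) .no .no (.br 1202 (.use 589) .no .no (.use 578) (.red [.t 833 4 1, .t 1082 1 4, .t
  962 4 1] 136 136 [] [(120, 136, [2]), (136, 136, []), (151, 135, [1])]) .no) .no .no) .no .no)
  .no .no .no)) (.hor [.f 824 3 5] []) (.red [.t 833 4 1, .t 824 4 1] 119 136 [2, 4] [(119, 136,
  [2, 4]), (120, 136, [2])]) .no .no)) .no .no) .no (.use 566) .no) (.red [.f 1089 5 3, .f 961 3
  1, .t 960 4 1] 136 136 [] [(136, 136, []), (137, 136, [3])])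

def c10t591 : Tr4 :=
  .br 1105 .no (.hor [.t 976 4 1, .f 1097 3 5] [(138, 136, [3, 3])]) (.use 570) .no .no (.red [.f
  1096 5 3, .f 1097 3 5, .f 1089 5 3, .f 961 3 1, .t 960 4 1] 136 136 [] [(136, 136, []), (137,
  136, [3])])

def c10t592 : Tr4 :=
  .br 817 .no (.use 572) .no (.hor [.f 809 3 5] []) .no (.use 568)

def c10t593 : Tr4 :=
  .br 1067 (.br 1066 (.hor [.f 1066 1 5] []) .no .no (.con 136 [4, 4, 4, 1]) .no .no) .no .no
  (.red [.f 931 3 1] 133 136 [4, 4, 4] [(133, 136, [4, 4, 4])]) .no (.use 584)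

def c10t594 : Tr4 :=
  .br 1067 (.con 136 [4, 2, 4, 1, 4, 1]) .no .no (.hor [.f 1058 3 5] []) .no .no

def c10t595 : Tr4 :=
  .br 818 .no (.use 353) .no (.br 817 (.br 944 (.use 549) (.hor [.f 816 1 5] []) .no (.use 551)
  .no .no) (.use 572) .no (.hor [.f 809 3 5] []) .no (.use 568)) (.red [.f 818 5 1, .f 819 1 3]
  119 136 [2, 4] [(119, 136, [2, 4])]) (.br 945 .no .no .no (.br 944 (.br 1200 (.red [.f 1200 1 3,
  .f 1200 3 5] 167 136 [4, 1, 1] [(167, 136, [4, 1, 1])]) .no .no (.br 816 .no (.use 408) .no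
  (.use 574) .no .no) .no .no) (.con 136 [2, 4, 4]) .no (.hor [.f 936 3 5] []) .no .no) .no (.br
  1072 (.br 819 .no (.use 561) .no (.br 939 (.red [.t 1209 4 2, .f 1074 3 5, .f 946 5 1, .f 939 1
  3, .f 811 3 1, .f 819 1 3] 119 136 [2, 4] [(118, 136, [2, 4, 4]), (119, 136, [2, 4]), (134, 136,
  [4, 4]), (151, 135, [1])]) .no .no (.br 938 (.use 582) (.use 562) .no (.hor [.f 930 3 5] []) .no
  (.br 1064 (.red [.f 1064 1 3] 150 136 [4, 4, 1] [(150, 136, [4, 4, 1])]) (.con 136 [4, 4, 4])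
  .no (.use 583) (.br 816 .no (.use 408) .no (.use 593) .no .no) .no)) .no (.red [.f 938 5 3, .f
  811 3 1, .f 819 1 3] 119 136 [2, 4] [(118, 136, [2, 4, 4]), (119, 136, [2, 4])])) .no .no) .no
  .no (.br 819 .no (.use 561) .no (.br 939 (.red [.t 1209 4 2, .f 1074 3 5, .f 946 5 1, .f 939 1
  3, .f 811 3 1, .f 819 1 3] 119 136 [2, 4] [(118, 136, [2, 4, 4]), (119, 136, [2, 4]), (134, 136,
  [4, 4]), (151, 135, [1])]) .no .no (.br 938 (.use 582) (.use 562) .no (.hor [.f 930 3 5] []) .no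
  (.br 1065 (.br 816 .no (.use 408) .no (.br 1066 (.hor [.f 1065 1 5] []) .no .no (.use 594) (.use
  584) .no) .no .no) .no .no (.br 816 .no (.use 408) .no (.br 1066 (.br 1067 (.hor [.f 1066 1 5]
  []) .no .no (.red [.f 931 3 1] 133 136 [4, 4, 4] [(133, 136, [4, 4, 4])]) .no .no) .no .no (.hor
  [.f 1057 3 5] []) (.use 584) .no) .no .no) (.red [.f 937 5 1, .t 1064 3 2] 134 136 [4, 4] [(134,
  136, [4, 4])]) .no)) .no (.red [.f 938 5 3, .f 811 3 1, .f 819 1 3] 119 136 [2, 4] [(118, 136,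
  [2, 4, 4]), (119, 136, [2, 4])])) .no .no) .no .no))

def c10t596 : Tr4 :=
  .br 842 .no (.hor [.f 713 1 5] []) (.hor [.f 842 3 1, .f 834 1 3, .f 961 3 5] [(121, 137, [2]),
  (122, 106, [1])]) .no .no .no

def c10t597 : Tr4 :=
  .br 696 .no (.br 697 .no (.hor [.f 568 1 5] []) (.con 136 [2, 2, 2]) (.red [.t 697 4 1, .f 688 1
  5] 103 136 [2, 2, 4] [(103, 136, [2, 2, 4])]) .no .no) (.red [.f 824 5 3, .f 696 3 1, .f 688 1
  3] 103 136 [2, 2, 4] [(103, 136, [2, 2, 4]), (104, 136, [2, 2])]) .no (.red [.f 696 5 1, .f 688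
  1 3] 103 136 [2, 2, 4] [(103, 136, [2, 2, 4])]) .no

def c10t598 : Tr4 :=
  .br 817 .no (.use 572) .no (.hor [.f 809 3 5] []) .no (.use 568)

def c10t599 : Tr4 :=
  .br 1064 (.red [.f 1064 1 3] 150 136 [4, 4, 1] [(150, 136, [4, 4, 1])]) (.con 136 [4, 4, 4]) .no
  (.use 583) (.use 593) .no

def c10t600 : Tr4 :=
  .br 819 .no (.con 136 [2, 2, 4, 4]) .no (.br 939 (.red [.t 1209 4 2, .f 1074 3 5, .f 946 5 1, .f
  939 1 3, .f 811 3 1, .f 819 1 3] 119 136 [2, 4] [(118, 136, [2, 4, 4]), (119, 136, [2, 4]),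
  (134, 136, [4, 4]), (151, 135, [1])]) .no .no (.br 938 (.use 582) (.use 563) .no (.hor [.f 930 3
  5] []) .no (.use 599)) .no (.red [.f 938 5 3, .f 811 3 1, .f 819 1 3] 119 136 [2, 4] [(118, 136,
  [2, 4, 4]), (119, 136, [2, 4])])) .no .no

def c10t601 : Tr4 :=
  .br 939 .no (.con 136 [4, 2, 4, 2]) .no (.br 819 .no (.con 136 [4, 2, 2, 4]) .no (.use 584) .no
  .no) .no .no

def c10t602 : Tr4 :=
  .br 1072 (.br 818 .no (.use 353) .no (.use 598) (.red [.f 818 5 1, .f 819 1 3] 119 136 [2, 4]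
  [(119, 136, [2, 4])]) (.br 816 .no (.use 597) .no (.br 697 .no (.br 696 .no (.hor [.f 568 1 5]
  []) (.use 600) (.br 689 .no (.red [.f 561 1 3] 87 136 [2, 2, 2, 4] [(87, 136, [2, 2, 2, 4])])
  .no (.br 939 (.br 819 .no (.use 575) .no (.red [.t 1209 4 2, .f 1074 3 5, .f 946 5 1, .f 939 1
  3, .f 811 3 1, .f 819 1 3] 119 136 [2, 4] [(118, 136, [2, 4, 4]), (119, 136, [2, 4]), (134, 136,
  [4, 4]), (151, 135, [1])]) .no .no) (.con 136 [2, 4, 4, 2]) .no (.br 938 (.br 1065 (.con 136 [4,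
  4, 4]) (.hor [.f 937 1 5] []) .no (.con 136 [4, 4, 4]) .no (.con 136 [4, 4, 4])) (.use 260) .no
  (.hor [.f 930 3 5] []) .no (.br 819 .no (.con 136 [2, 2, 4, 2]) .no (.use 599) .no .no)) .no
  (.use 576)) (.red [.f 689 5 1, .f 690 1 3] 103 136 [2, 2, 4] [(103, 136, [2, 2, 4])]) .no) .no
  .no) (.br 696 .no (.con 136 [2, 2, 2]) (.use 600) (.con 136 [2, 2, 2]) .no .no) (.red [.t 697 4
  1] 103 136 [2, 2, 4] [(103, 136, [2, 2, 4])]) .no (.br 688 .no (.br 689 .no (.hor [.f 560 1 5]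
  []) .no (.br 819 .no (.con 136 [2, 2, 4, 4]) .no (.br 939 (.red [.t 1209 4 2, .f 1074 3 5, .f
  946 5 1, .f 939 1 3, .f 811 3 1, .f 819 1 3] 119 136 [2, 4] [(118, 136, [2, 4, 4]), (119, 136,
  [2, 4]), (134, 136, [4, 4]), (151, 135, [1])]) .no .no (.br 938 (.use 582) (.use 564) .no (.hor
  [.f 930 3 5] []) .no (.use 599)) .no (.red [.f 938 5 3, .f 811 3 1, .f 819 1 3] 119 136 [2, 4]
  [(118, 136, [2, 4, 4]), (119, 136, [2, 4])])) .no .no) (.red [.f 696 5 1, .f 689 5 1, .f 690 1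
  3] 103 136 [2, 2, 4] [(103, 136, [2, 2, 4])]) .no) .no (.red [.f 680 3 1] 102 136 [2, 2, 4, 4]
  [(102, 136, [2, 2, 4, 4])]) (.red [.f 688 5 3, .t 697 4 1] 103 136 [2, 2, 4] [(103, 136, [2, 2,
  4])]) .no)) .no .no)) .no .no (.br 818 .no (.use 353) .no (.use 598) (.red [.f 818 5 1, .f 819 1
  3] 119 136 [2, 4] [(119, 136, [2, 4])]) (.br 1200 (.red [.f 1200 1 3, .f 1200 3 5] 167 136 [4,
  1, 1] [(167, 136, [4, 1, 1])]) .no .no (.br 1202 (.use 589) .no .no (.use 578) (.br 936 .no (.br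
  816 .no (.use 597) .no .no .no .no) .no (.br 816 .no (.use 597) .no (.br 937 (.red [.t 1064 3 2]
  134 136 [4, 4] [(134, 136, [4, 4])]) (.br 938 (.con 136 [2, 4, 4, 4]) (.use 564) .no (.con 136
  [2, 4, 4, 4]) (.con 136 [2, 4, 4, 4]) .no) .no (.use 278) (.br 1065 (.br 1066 (.hor [.f 1065 1
  5] []) .no .no (.br 939 (.br 819 .no (.con 136 [2, 2, 4, 4]) .no (.red [.t 1209 4 2, .f 1074 3
  5, .f 946 5 1, .f 939 1 3, .f 811 3 1, .f 819 1 3] 119 136 [2, 4] [(118, 136, [2, 4, 4]), (119,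
  136, [2, 4]), (134, 136, [4, 4]), (151, 135, [1])]) .no .no) (.con 136 [2, 4, 4, 2]) .no (.use
  594) .no .no) (.use 601) .no) .no .no (.br 1066 (.br 939 (.br 819 .no (.con 136 [2, 2, 4, 4])
  .no (.red [.t 1209 4 2, .f 1074 3 5, .f 946 5 1, .f 939 1 3, .f 811 3 1, .f 819 1 3] 119 136 [2,
  4] [(118, 136, [2, 4, 4]), (119, 136, [2, 4]), (134, 136, [4, 4]), (151, 135, [1])]) .no .no)
  (.con 136 [2, 4, 4, 2]) .no (.br 1067 (.hor [.f 1066 1 5] []) .no .no (.red [.f 931 3 1] 133 136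
  [4, 4, 4] [(133, 136, [4, 4, 4])]) .no .no) .no .no) .no .no (.hor [.f 1057 3 5] []) (.use 601)
  .no) (.red [.f 937 5 1, .t 1064 3 2] 134 136 [4, 4] [(134, 136, [4, 4])]) .no) .no) .no .no)
  (.red [.f 936 5 3, .f 936 3 1] 134 136 [4, 4] [(134, 136, [4, 4])]) .no) .no) .no .no)) .no .no

def c10t603 : Tr4 :=
  .br 1218 (.hor [.f 1217 1 5] []) .no (.br 1219 (.use 545) .no (.hor [.f 1218 3 5] []) (.br 833
  .no (.use 595) (.hor [.f 833 3 1, .f 833 1 5] [(121, 120, [3])]) .no .no (.br 945 .no (.red [.f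
  824 5 3, .t 833 4 1, .f 817 1 3] 119 136 [2, 4] [(119, 136, [2, 4]), (120, 136, [2])]) .no (.br
  818 .no (.use 353) .no (.use 592) (.red [.f 818 5 1, .f 819 1 3] 119 136 [2, 4] [(119, 136, [2,
  4])]) (.br 944 (.br 1200 (.red [.f 1200 1 3, .f 1200 3 5] 167 136 [4, 1, 1] [(167, 136, [4, 1,
  1])]) .no .no (.br 816 .no (.use 597) .no (.use 574) .no .no) .no .no) (.con 136 [2, 4, 4]) .no
  (.hor [.f 936 3 5] []) .no .no)) .no (.use 602))) .no .no) .no (.use 566) .no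

def c10t604 : Tr4 :=
  .br 827 .no (.use 162) (.red [.t 834 1 4, .f 819 1 3] 119 136 [4, 2] [(119, 136, [4, 2]), (120,
  136, [2])]) .no .no (.red [.f 826 5 1, .f 819 1 3] 119 136 [4, 2] [(119, 136, [4, 2])])

def c10t605 : Tr4 :=
  .br 937 (.red [.t 1065 2 3, .t 1074 2 3] 135 136 [4] [(134, 136, [4, 4]), (135, 136, [4])])
  (.use 270) .no (.br 818 .no (.br 827 .no (.use 201) (.br 819 .no (.hor [.f 690 1 5] []) .no
  (.red [.f 811 3 1] 118 136 [2, 4, 4] [(118, 136, [2, 4, 4])]) .no .no) (.use 209) .no (.br 1065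
  (.br 1200 (.red [.f 1200 1 3, .f 1072 5 3, .f 1072 3 1] 167 136 [4, 1, 1] [(151, 136, [4, 1]),
  (167, 136, [4, 1, 1])]) .no .no (.red [.t 1192 3 2, .f 1065 3 5, .f 945 5 1, .t 1074 2 3] 135
  136 [4] [(135, 136, [4]), (150, 134, [1])]) .no .no) .no .no (.red [.f 929 3 1] 133 136 [4, 4,
  4] [(133, 136, [4, 4, 4])]) .no (.use 273))) (.red [.t 825 1 4] 119 136 [2, 4] [(119, 136, [2,
  4])]) (.use 266) (.br 938 .no (.red [.t 938 2 3] 118 136 [2, 4, 4] [(118, 136, [2, 4, 4])]) .no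
  (.hor [.f 929 3 5] []) .no .no) (.red [.f 817 5 1, .f 817 1 3] 119 136 [2, 4] [(119, 136, [2,
  4])])) (.red [.f 937 5 3, .f 938 3 1] 134 136 [4, 4] [(134, 136, [4, 4])]) (.con 136 [4, 4, 2])

def c10t606 : Tr4 :=
  .br 1073 .no .no .no (.hor [.f 1065 3 5] []) .no (.red [.f 1072 5 3, .f 945 3 1] 135 136 [4]
  [(135, 136, [4])])

def c10t607 : Tr4 :=
  .br 817 .no (.hor [.f 689 1 3, .f 816 3 5] [(103, 104, [4])]) .no (.red [.f 809 3 1, .t 817 1 3]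
  119 136 [2, 4] [(118, 136, [2, 4, 4]), (119, 136, [2, 4])]) .no .no

def c10t608 : Tr4 :=
  .br 824 .no (.hor [.f 696 1 5] []) .no (.use 607) .no .no

def c10t609 : Tr4 :=
  .br 824 .no (.hor [.f 696 1 5] []) .no (.red [.f 697 1 3, .t 833 4 1, .t 824 4 1] 119 136 [2, 4]
  [(104, 136, [2, 2]), (119, 136, [2, 4]), (120, 136, [2])]) .no .no

def c10t610 : Tr4 :=
  .br 947 (.con 136 [4, 4]) (.red [.f 819 1 3, .f 818 3 5] 119 136 [2, 4] [(119, 136, [2, 4])])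
  .no (.hor [.f 938 3 5] []) .no .no

def c10t611 : Tr4 :=
  .br 826 .no (.hor [.f 697 1 5] []) .no (.br 946 (.br 945 (.hor [.f 945 1 5] []) (.red [.t 817 1
  3, .f 826 1 5] 119 136 [2, 4] [(119, 136, [2, 4])]) .no (.use 608) .no (.use 609)) .no .no (.br
  945 (.use 610) (.red [.t 817 1 3, .f 826 1 5] 119 136 [2, 4] [(119, 136, [2, 4])]) .no (.use
  608) .no (.use 609)) (.use 350) (.red [.f 945 5 3, .f 818 3 1, .f 826 1 3] 119 136 [2, 4] [(119,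
  136, [2, 4]), (120, 136, [2])])) .no .no

def c10l24 : List Tr4 :=
  [c10t590, c10t591, c10t592, c10t593, c10t594, c10t595, c10t596, c10t597, c10t598, c10t599,
  c10t600, c10t601, c10t602, c10t603, c10t604, c10t605, c10t606, c10t607, c10t608, c10t609,
  c10t610, c10t611]

theorem c10k24 : chkLF ⟨4, 0, 0, true, -8⟩ true 0 c10N 590 c10l24 = true := by decide +kernel

def c10t612 : Tr4 :=
  .br 1211 (.red [.f 1211 1 3] 168 136 [1, 1] [(168, 136, [1, 1])]) .no .no .no .no .no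

def c10t613 : Tr4 :=
  .br 1200 (.red [.f 1200 1 3, .t 1200 3 2] 151 136 [4, 1] [(151, 136, [4, 1]), (167, 136, [4, 1,
  1])]) .no .no (.red [.f 1064 3 1, .f 1072 1 5, .f 1072 5 3, .t 1073 3 2] 135 136 [4] [(135, 136,
  [4]), (150, 151, [4])]) .no .no

def c10t614 : Tr4 :=
  .br 945 (.use 610) (.red [.t 817 1 3, .f 826 1 5] 119 136 [2, 4] [(119, 136, [2, 4])]) .no (.hor
  [.f 937 3 5] []) .no (.br 947 (.con 136 [4, 4]) (.red [.f 819 1 3, .f 818 3 5] 119 136 [2, 4]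
  [(119, 136, [2, 4])]) .no (.hor [.f 938 3 5] []) .no .no)

def c10t615 : Tr4 :=
  .br 946 (.br 947 (.hor [.f 946 1 5] []) (.red [.f 819 1 3, .f 818 3 5] 119 136 [2, 4] [(119,
  136, [2, 4])]) .no (.br 945 (.hor [.f 945 1 5] []) (.red [.t 817 1 3, .f 826 1 5] 119 136 [2, 4]
  [(119, 136, [2, 4])]) .no (.br 1073 (.br 1075 (.br 944 (.br 1066 (.br 1200 (.red [.f 1200 1 3,
  .t 1200 3 2] 151 136 [4, 1] [(151, 136, [4, 1]), (167, 136, [4, 1, 1])]) .no .no (.br 1065 (.hor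
  [.f 1065 1 3, .f 937 3 1, .f 944 1 5] [(134, 118, [1]), (150, 151, [4])]) .no .no (.br 1064 .no
  (.hor [.f 936 1 3, .f 936 3 5] [(134, 118, [1])]) .no (.hor [.f 1056 3 5] []) .no .no) .no (.hor
  [.t 1200 4 2, .f 937 3 1, .f 944 1 5] [(134, 118, [1]), (150, 151, [4])])) .no .no) (.hor [.f
  938 1 3, .f 937 3 5] [(134, 118, [1])]) .no (.br 1065 (.hor [.f 1065 1 3, .f 937 3 1, .f 944 1
  5] [(134, 118, [1]), (150, 151, [4])]) .no .no (.hor [.f 1057 3 5] []) .no (.br 1200 (.red [.f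
  1200 1 3, .t 1200 3 2] 151 136 [4, 1] [(151, 136, [4, 1]), (167, 136, [4, 1, 1])]) .no .no (.hor
  [.t 1200 4 2, .f 937 3 1, .f 944 1 5] [(134, 118, [1]), (150, 151, [4])]) .no .no)) (.red [.t
  946 1 4, .t 826 4 1] 119 136 [2, 4] [(119, 136, [2, 4]), (134, 118, [1])]) (.red [.t 945 4 1, .f
  945 5 3, .f 818 3 1] 119 136 [2, 4] [(119, 136, [2, 4]), (134, 118, [1])])) (.con 136 [2, 4, 4])
  .no (.hor [.f 936 3 5] []) .no .no) .no .no (.red [.f 939 3 1, .f 946 1 5, .f 1074 5 3, .t 1073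
  1 3] 151 136 [4, 1] [(134, 118, [1]), (151, 136, [4, 1])]) .no .no) .no .no (.red [.f 937 3 1,
  .f 945 1 5, .f 945 5 3, .f 818 3 1] 119 136 [2, 4] [(119, 136, [2, 4]), (134, 118, [1])]) .no
  (.red [.f 1072 5 3, .t 1073 3 2, .f 818 3 1] 119 136 [2, 4] [(119, 136, [2, 4]), (135, 136,
  [4])])) .no (.br 1073 (.br 1072 (.hor [.f 1072 1 5] []) .no .no (.use 613) .no .no) .no .no (.br
  938 (.red [.f 938 1 3, .f 938 3 5, .t 826 4 1] 119 136 [2, 4] [(119, 136, [2, 4]), (134, 118,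
  [1])]) (.br 817 .no (.br 819 .no (.use 326) .no (.red [.f 811 3 1, .f 810 1 5] 118 136 [2, 4, 4]
  [(118, 136, [2, 4, 4])]) .no .no) .no (.use 365) .no (.red [.f 816 5 1, .t 817 1 3, .f 826 1 3]
  119 136 [2, 4] [(119, 136, [2, 4]), (120, 136, [2])])) .no (.br 817 .no (.br 819 .no (.use 326)
  .no (.red [.f 811 3 1, .f 819 1 3, .f 818 3 5] 119 136 [2, 4] [(118, 136, [2, 4, 4]), (119, 136,
  [2, 4])]) .no .no) .no (.use 367) .no (.red [.f 816 5 1, .t 817 1 3, .f 826 1 3] 119 136 [2, 4]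
  [(119, 136, [2, 4]), (120, 136, [2])])) .no (.red [.t 1073 4 2, .f 938 3 5, .t 826 4 1] 119 136
  [2, 4] [(119, 136, [2, 4]), (134, 118, [1])])) .no (.red [.f 1072 5 3, .t 1073 3 2, .f 818 3 1]
  119 136 [2, 4] [(119, 136, [2, 4]), (135, 136, [4])]))) .no .no) .no .no (.use 614) (.red [.t
  826 4 1] 119 136 [2, 4] [(119, 136, [2, 4])]) (.red [.f 945 5 3, .f 818 3 1, .f 826 1 3] 119 136
  [2, 4] [(119, 136, [2, 4]), (120, 136, [2])])

def c10t616 : Tr4 :=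
  .br 826 .no (.red [.f 568 1 3, .t 704 4 1, .t 833 4 1, .t 962 4 1] 136 136 [] [(88, 136, [2, 2,
  2]), (104, 136, [2, 2]), (120, 136, [2]), (136, 136, [])]) .no (.use 615) .no .no

def c10t617 : Tr4 :=
  .br 1211 (.red [.f 1211 1 3] 168 136 [1, 1] [(168, 136, [1, 1])]) .no .no (.con 136 [4, 1, 1])
  .no .no

def c10t618 : Tr4 :=
  .br 1219 (.use 617) .no (.hor [.f 1218 3 5] []) (.red [.t 1225 2 4, .t 1218 2 4] 152 136 [1]
  [(152, 136, [1]), (153, 136, [3, 1])]) .no .no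

def c10t619 : Tr4 :=
  .br 945 (.con 136 [4, 4]) (.hor [.f 817 1 5] []) .no (.con 136 [4, 2, 4]) .no (.con 136 [4, 4])

def c10t620 : Tr4 :=
  .br 1072 (.con 136 [4, 4]) (.red [.f 945 5 3, .t 944 1 3] 135 136 [4] [(135, 136, [4])]) .no
  (.con 136 [4, 4]) (.con 136 [4, 4]) .no

def c10t621 : Tr4 :=
  .br 946 (.hor [.f 946 1 5] []) (.use 619) .no (.br 945 (.con 136 [4, 4]) (.br 1072 (.con 136 [4,
  4]) (.br 818 .no (.use 353) .no (.red [.f 810 3 1, .f 817 1 5, .f 945 5 3, .t 944 1 3] 135 136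
  [4] [(118, 119, [4]), (135, 136, [4])]) (.use 340) .no) .no (.con 136 [4, 4]) (.con 136 [4, 4])
  .no) .no (.hor [.f 937 3 5] []) .no (.con 136 [4, 4])) .no (.use 620)

def c10t622 : Tr4 :=
  .br 818 .no (.use 353) .no (.con 136 [2, 2, 4, 4]) .no (.con 136 [2, 2, 4, 4])

def c10t623 : Tr4 :=
  .br 946 (.br 819 .no (.use 622) .no (.red [.f 811 3 1, .f 819 1 3] 119 136 [2, 4] [(118, 136,
  [2, 4, 4]), (119, 136, [2, 4])]) .no (.use 340)) (.use 543) .no (.hor [.f 938 3 5] []) .no (.use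
  344)

def c10t624 : Tr4 :=
  .br 1202 (.red [.t 1329 3 2, .f 1208 1 5] 167 136 [1, 4, 1] [(167, 136, [1, 4, 1])]) (.con 136
  [1, 4, 4]) .no (.hor [.f 1193 3 5] []) (.con 136 [1, 4, 4]) .no

def c10t625 : Tr4 :=
  .br 1202 (.red [.t 1329 3 2, .t 1202 3 2] 151 136 [4, 1] [(151, 136, [4, 1]), (167, 136, [4, 1,
  1])]) .no .no (.hor [.f 1066 3 1, .f 1073 1 5] [(150, 151, [4])]) .no .no

def c10t626 : Tr4 :=
  .br 1337 (.hor [.f 1337 1 5] []) .no .no (.br 1200 (.red [.f 1200 1 3] 167 136 [4, 1, 1] [(167,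
  136, [4, 1, 1])]) (.br 1201 .no (.hor [.f 1072 1 5] []) .no (.use 624) (.use 442) .no) .no (.br
  1201 .no (.br 1074 (.hor [.f 1073 1 5] []) .no .no (.br 1072 .no .no .no (.red [.f 1064 3 1, .f
  1072 1 5, .t 1336 2 4] 167 136 [4, 1, 1] [(150, 134, [1]), (167, 136, [4, 1, 1])]) .no .no)
  (.red [.f 1074 5 3, .t 1073 1 3] 151 136 [4, 1] [(151, 136, [4, 1])]) .no) .no (.hor [.f 1192 3
  5] []) (.use 442) .no) (.red [.t 1336 2 4] 167 136 [4, 1, 1] [(167, 136, [4, 1, 1])]) .no) .no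
  .no

def c10t627 : Tr4 :=
  .br 945 (.use 556) .no .no (.br 944 (.br 1337 (.hor [.f 1337 1 5] []) .no .no (.br 1200 (.red
  [.f 1200 1 3] 167 136 [4, 1, 1] [(167, 136, [4, 1, 1])]) .no .no (.br 1201 .no (.br 1074 (.hor
  [.f 1073 1 5] []) .no .no (.br 1075 (.use 625) .no .no (.hor [.f 1066 3 5] []) .no .no) (.red
  [.f 1074 5 3, .t 1073 1 3] 151 136 [4, 1] [(151, 136, [4, 1])]) .no) .no (.hor [.f 1192 3 5] [])
  (.use 442) .no) (.red [.t 1336 2 4] 167 136 [4, 1, 1] [(167, 136, [4, 1, 1])]) .no) .no .no)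
  (.con 136 [2, 4, 4]) .no (.hor [.f 936 3 5] []) .no .no) .no (.use 626)

def c10t628 : Tr4 :=
  .br 1338 (.br 826 .no (.br 947 (.use 621) (.red [.f 819 1 3] 119 136 [2, 4] [(119, 136, [2,
  4])]) .no (.use 623) .no (.br 818 .no (.use 353) .no (.use 358) (.use 340) (.use 627))) .no
  (.use 615) .no .no) .no (.red [.t 1345 2 4] 168 136 [1, 1] [(168, 136, [1, 1])]) (.use 443)
  (.con 136 [1, 1, 4]) (.red [.f 1209 5 1, .f 1209 1 3] 168 136 [1, 1] [(168, 136, [1, 1])])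

def c10t629 : Tr4 :=
  .br 1225 (.hor [.f 1217 1 3, .f 1217 3 5] [(169, 153, [1])]) .no (.br 968 .no .no (.use 591) .no
  .no .no) .no .no (.red [.f 1096 5 1, .t 1225 2 4, .t 1218 2 4] 152 136 [1] [(152, 136, [1]),
  (153, 136, [1, 3])])

def c10t630 : Tr4 :=
  .br 1219 (.use 617) .no (.hor [.f 1218 3 5] []) (.use 629) .no .no

def c10t631 : Tr4 :=
  .br 826 .no (.hor [.f 697 1 5] []) .no (.use 614) .no .no

def c10t632 : Tr4 :=
  .br 946 (.hor [.f 946 1 5] []) (.use 619) .no (.use 631) .no (.use 620)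

def c10t633 : Tr4 :=
  .br 945 .no (.red [.t 817 1 3, .f 826 1 5] 119 136 [2, 4] [(119, 136, [2, 4])]) .no (.use 607)
  .no (.br 938 (.red [.f 938 1 3, .f 938 3 5, .t 826 4 1] 119 136 [2, 4] [(119, 136, [2, 4]),
  (134, 118, [1])]) (.use 366) .no (.use 368) .no (.red [.t 1073 4 2, .f 938 3 5, .t 826 4 1] 119
  136 [2, 4] [(119, 136, [2, 4]), (134, 118, [1])]))

def c10t634 : Tr4 :=
  .br 826 .no (.hor [.f 697 1 5] []) .no (.red [.f 945 5 3, .f 818 3 1, .f 826 1 3] 119 136 [4, 2]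
  [(119, 136, [4, 2]), (120, 136, [2])]) .no .no

def c10t635 : Tr4 :=
  .br 824 .no (.hor [.f 696 1 5] []) .no (.br 947 (.use 632) (.red [.f 819 1 3] 119 136 [2, 4]
  [(119, 136, [2, 4])]) .no (.br 946 (.br 1073 (.br 1072 (.hor [.f 1072 1 5] []) (.br 826 .no
  (.hor [.f 697 1 5] []) .no (.br 945 .no (.red [.t 817 1 3, .f 826 1 5] 119 136 [2, 4] [(119,
  136, [2, 4])]) .no (.use 607) .no .no) .no .no) .no (.use 613) .no .no) (.hor [.f 945 1 5] [])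
  .no (.br 826 .no (.hor [.f 697 1 5] []) .no (.use 633) .no .no) .no (.red [.f 1072 5 3, .t 1073
  3 2] 135 136 [4] [(135, 136, [4])])) (.use 543) .no (.use 631) .no (.use 634)) .no (.use 350))
  .no .no

def c10t636 : Tr4 :=
  .br 825 .no (.use 635) .no (.use 369) (.red [.f 825 5 1, .f 826 1 3, .t 962 4 1] 136 136 []
  [(120, 136, [2]), (136, 136, [])]) (.red [.f 824 5 3, .t 833 4 1, .t 962 4 1] 136 136 [] [(120,
  136, [2]), (136, 136, [])])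

def c10t637 : Tr4 :=
  .br 1074 (.br 1075 (.hor [.f 1074 1 5] []) .no .no (.con 136 [4, 4, 1]) .no .no) .no .no (.hor
  [.f 1065 3 5] []) (.red [.f 946 5 1, .f 937 3 1, .f 944 1 5, .f 1072 5 3, .t 1073 3 2] 135 136
  [4] [(134, 118, [1]), (135, 136, [4])]) .no

def c10t638 : Tr4 :=
  .br 1339 (.con 136 [1, 4, 1, 1]) .no (.con 136 [1, 4, 1, 1]) (.hor [.f 1330 3 5] []) .no .no

def c10t639 : Tr4 :=
  .br 1337 (.use 638) .no .no (.hor [.f 1329 3 5] []) .no .no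

def c10t640 : Tr4 :=
  .br 819 .no (.con 136 [2, 2, 4, 2]) .no (.red [.f 938 5 3, .f 811 3 1, .f 819 1 3] 119 136 [4,
  2] [(118, 136, [4, 2, 4]), (119, 136, [4, 2])]) .no .no

def c10t641 : Tr4 :=
  .br 1200 (.red [.f 1200 1 3] 167 136 [1, 4, 1] [(167, 136, [1, 4, 1])]) .no .no (.hor [.f 1192 3
  5] []) .no .no

def c10t642 : Tr4 :=
  .br 1202 (.hor [.f 1201 1 5] []) .no .no (.br 1200 (.hor [.f 1200 1 5] []) .no .no (.con 136 [1,
  4, 4, 1]) .no .no) .no .no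

def c10t643 : Tr4 :=
  .br 697 .no (.br 938 (.br 689 .no (.red [.f 561 1 3] 87 136 [2, 2, 2, 4] [(87, 136, [2, 2, 2,
  4])]) .no (.br 939 (.hor [.f 938 1 5] []) (.br 936 (.con 136 [4, 4, 4]) (.br 816 .no .no .no .no
  .no .no) .no (.con 136 [2, 4, 4, 4]) .no .no) .no (.br 819 .no (.con 136 [2, 2, 4, 2]) .no (.br
  810 .no (.con 136 [2, 2, 4, 4, 2]) .no (.br 936 (.con 136 [4, 4, 4]) (.con 136 [2, 2, 4, 4, 1])
  .no (.br 930 (.red [.f 930 1 3, .f 802 3 1] 117 136 [2, 4, 4, 4] [(117, 136, [2, 4, 4, 4]),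
  (133, 136, [4, 4, 4])]) .no .no (.br 929 (.con 136 [4, 4, 4, 4]) (.con 136 [2, 2, 4, 4, 4, 1])
  .no (.hor [.f 921 3 5] []) .no .no) .no (.red [.t 937 3 1, .f 929 5 3, .f 802 3 1, .t 810 1 3]
  118 136 [2, 4, 4] [(117, 136, [2, 4, 4, 4]), (118, 136, [2, 4, 4]), (134, 118, [1])])) .no .no)
  .no (.red [.t 937 3 1, .f 809 5 1, .t 810 1 3] 118 136 [2, 4, 4] [(118, 136, [2, 4, 4]), (134,
  118, [1])])) .no .no) .no .no) (.red [.f 689 5 1, .f 690 1 3] 103 136 [2, 2, 4] [(103, 136, [2,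
  2, 4])]) .no) (.use 260) .no (.br 689 .no (.red [.f 561 1 3] 87 136 [2, 2, 2, 4] [(87, 136, [2,
  2, 2, 4])]) .no (.br 819 .no (.con 136 [2, 2, 4, 2]) .no (.br 810 .no (.con 136 [2, 2, 4, 4, 2])
  .no (.red [.f 802 3 1, .t 810 1 3, .f 937 3 5] 118 136 [2, 4, 4] [(117, 136, [2, 4, 4, 4]),
  (118, 136, [2, 4, 4])]) .no (.red [.f 809 5 3, .f 809 3 1] 118 136 [2, 4, 4] [(118, 136, [2, 4,
  4])])) .no .no) (.red [.f 689 5 1, .f 690 1 3] 103 136 [2, 2, 4] [(103, 136, [2, 2, 4])]) .no)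
  (.use 640) .no) .no (.hor [.f 688 3 5] []) .no .no

def c10t644 : Tr4 :=
  .br 944 (.br 1073 (.br 1074 (.hor [.f 1073 1 5] []) .no .no (.br 1075 (.br 1200 (.red [.f 1200 1
  3, .t 1200 3 2] 151 136 [4, 1] [(151, 136, [4, 1]), (167, 136, [4, 1, 1])]) .no .no (.br 1065
  (.hor [.f 1065 1 3, .f 1065 3 5] [(150, 151, [4])]) .no .no (.br 697 .no (.br 1064 .no (.br 1067
  (.hor [.f 1067 1 3, .f 1066 3 5] [(150, 151, [4])]) (.hor [.f 936 1 3, .f 936 3 5, .t 1066 3 2]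
  []) .no (.br 939 .no (.br 938 .no (.use 260) .no (.con 136 [2, 4, 4, 4]) .no .no) .no (.red [.f
  931 3 1, .t 1066 3 2] 133 136 [4, 4, 4] [(133, 136, [4, 4, 4]), (134, 136, [4, 4])]) .no (.use
  640)) .no .no) .no (.hor [.f 1056 3 5] []) .no .no) .no (.hor [.f 688 3 5] []) .no .no) .no
  (.hor [.t 1200 4 2, .f 1065 3 5] [(150, 151, [4])])) .no .no) .no .no (.hor [.f 1066 3 5] [])
  .no .no) (.red [.f 1074 5 3, .t 1073 1 3] 151 136 [4, 1] [(151, 136, [4, 1])]) .no) .no .no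
  (.use 637) (.use 643) .no) (.con 136 [2, 4, 4]) .no (.hor [.f 936 3 5] []) .no .no

def c10t645 : Tr4 :=
  .br 1200 (.red [.f 1200 1 3, .t 1200 3 2] 151 136 [4, 1] [(151, 136, [4, 1]), (167, 136, [4, 1,
  1])]) .no .no (.hor [.f 1064 3 1, .f 1072 1 5] [(150, 134, [1])]) .no .no

def c10t646 : Tr4 :=
  .br 1072 (.hor [.f 1072 1 5] []) .no .no (.use 645) .no .no

def c10t647 : Tr4 :=
  .br 1202 (.hor [.f 1201 1 5] []) .no .no (.con 136 [1, 4, 4, 1]) .no .no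

def c10t648 : Tr4 :=
  .br 1066 (.red [.t 1193 3 2, .f 1072 1 5] 150 136 [4, 4, 1] [(150, 136, [4, 4, 1])]) (.con 136
  [4, 4, 4]) .no (.hor [.f 1057 3 5] []) (.con 136 [4, 4, 4]) .no

def c10t649 : Tr4 :=
  .br 1200 (.red [.f 1200 1 3] 167 136 [1, 4, 1] [(167, 136, [1, 4, 1])]) .no .no (.hor [.f 1192 3
  5] []) .no .no

def c10t650 : Tr4 :=
  .br 1475 (.use 577) .no (.hor [.f 1347 3 1, .f 1346 1 5] [(185, 153, [1, 1])]) (.red [.t 1474 2
  4, .f 1331 1 3] 183 136 [4, 1, 1, 1] [(183, 136, [4, 1, 1, 1]), (184, 136, [4, 1, 1, 1, 3])])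
  .no .no

def c10t651 : Tr4 :=
  .br 938 .no (.use 260) .no (.br 939 (.red [.f 1065 5 3, .t 1066 3 2] 134 136 [4, 4] [(134, 136,
  [4, 4])]) (.br 937 .no (.con 136 [2, 4, 4, 4]) .no (.hor [.f 929 3 5] []) .no (.con 136 [2, 4,
  4, 4])) .no (.hor [.f 930 3 5] []) .no .no) (.use 576) (.red [.f 937 5 1, .t 1064 3 2] 134 136
  [4, 4] [(134, 136, [4, 4])])

def c10l25 : List Tr4 :=
  [c10t612, c10t613, c10t614, c10t615, c10t616, c10t617, c10t618, c10t619, c10t620, c10t621,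
  c10t622, c10t623, c10t624, c10t625, c10t626, c10t627, c10t628, c10t629, c10t630, c10t631,
  c10t632, c10t633, c10t634, c10t635, c10t636, c10t637, c10t638, c10t639, c10t640, c10t641,
  c10t642, c10t643, c10t644, c10t645, c10t646, c10t647, c10t648, c10t649, c10t650, c10t651]

theorem c10k25 : chkLF ⟨4, 0, 0, true, -8⟩ true 0 c10N 612 c10l25 = true := by decide +kernel

def c10t652 : Tr4 :=
  .br 1072 (.br 1201 (.use 647) .no .no (.br 1065 .no (.br 938 (.hor [.f 937 1 5] []) (.use 260)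
  .no (.br 1064 (.red [.f 1064 1 3, .t 1064 3 2] 134 136 [4, 4] [(134, 136, [4, 4]), (150, 136,
  [4, 4, 1])]) (.hor [.f 936 1 5] []) .no (.br 1066 (.red [.t 1193 3 2, .f 1072 1 5] 150 136 [4,
  4, 1] [(150, 136, [4, 4, 1])]) .no .no (.red [.f 930 3 1, .f 937 1 5, .f 1065 5 3, .f 1065 3 1]
  150 136 [4, 4, 1] [(133, 134, [4]), (150, 136, [4, 4, 1])]) (.br 936 .no (.br 939 .no (.br 810
  .no (.con 136 [2, 2, 4, 4, 2]) .no (.red [.f 802 3 1, .f 810 1 5] 117 136 [2, 4, 4, 4] [(117,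
  136, [2, 4, 4, 4])]) .no (.red [.f 809 5 3, .t 808 1 3] 118 136 [2, 4, 4] [(118, 136, [2, 4,
  4])])) .no (.hor [.f 930 3 5] []) .no .no) .no (.red [.f 928 3 1, .f 936 1 5, .t 1200 2 4] 150
  136 [4, 4, 1] [(133, 117, [1]), (150, 136, [4, 4, 1])]) .no .no) .no) .no .no) (.use 576) .no)
  .no (.br 1064 (.red [.f 1064 1 3] 150 136 [4, 4, 1] [(150, 136, [4, 4, 1])]) (.use 648) .no
  (.hor [.f 1056 3 5] []) .no .no) (.red [.f 1065 5 3, .f 1065 3 1] 150 136 [4, 4, 1] [(150, 136,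
  [4, 4, 1])]) (.red [.t 1200 2 4] 150 136 [4, 4, 1] [(150, 136, [4, 4, 1])])) (.hor [.f 1073 5 1,
  .f 1072 1 5, .f 1074 1 5] []) .no) .no .no (.br 1202 (.br 1337 (.br 1201 (.hor [.f 1201 1 5] [])
  .no .no (.use 649) .no (.br 1329 (.red [.f 1329 1 3] 183 136 [4, 1, 1, 1] [(183, 136, [4, 1, 1,
  1])]) .no .no (.br 1347 (.hor [.f 1346 1 5] []) .no (.br 1328 (.br 1331 (.br 1466 (.use 650) .no
  .no (.red [.t 1458 3 2, .f 1337 1 5] 183 136 [4, 1, 1, 1] [(183, 136, [4, 1, 1, 1])]) (.red [.f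
  1338 5 1, .f 1331 1 3] 183 136 [4, 1, 1, 1] [(183, 136, [4, 1, 1, 1])]) .no) .no .no (.con 136
  [4, 4, 1, 1, 1]) .no .no) .no .no (.hor [.f 1320 3 5] []) .no .no) .no .no .no) .no (.red [.f
  1200 5 1, .f 1200 1 3] 167 136 [4, 1, 1] [(167, 136, [4, 1, 1])]))) .no .no (.red [.t 1329 3 2,
  .t 1202 3 2] 151 136 [4, 1] [(151, 136, [4, 1]), (167, 136, [4, 1, 1])]) .no .no) .no .no (.br
  1201 (.br 1200 (.hor [.f 1200 1 5] []) .no .no (.con 136 [4, 4, 1, 1]) .no .no) .no .no (.use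
  649) .no (.br 1065 (.red [.t 1064 3 1, .f 1193 3 5, .f 1201 5 3, .t 1202 3 2] 151 136 [4, 1]
  [(150, 134, [1]), (151, 136, [4, 1])]) (.red [.t 1064 3 2] 134 136 [4, 4] [(134, 136, [4, 4])])
  .no (.br 819 .no (.con 136 [2, 2, 4, 2]) .no (.br 936 .no (.con 136 [2, 2, 4, 4, 1]) .no (.br
  937 .no (.br 938 (.con 136 [2, 4, 4, 4]) (.use 260) .no (.con 136 [2, 4, 4, 4]) (.con 136 [2, 4,
  4, 4]) .no) .no (.hor [.f 928 3 5] []) (.br 810 .no (.con 136 [2, 2, 4, 4, 2]) .no (.br 929 .no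
  (.con 136 [2, 2, 4, 4, 4, 1]) .no (.br 1066 .no .no .no (.hor [.f 1057 3 5] []) (.br 939 .no .no
  .no (.use 256) .no .no) .no) (.red [.f 929 5 3, .f 802 3 1, .t 810 1 3, .f 819 1 3] 119 136 [2,
  4] [(117, 136, [2, 4, 4, 4]), (118, 136, [2, 4, 4]), (119, 136, [2, 4])]) .no) .no (.red [.f 809
  5 1, .t 810 1 3, .f 819 1 3] 119 136 [2, 4] [(118, 136, [2, 4, 4]), (119, 136, [2, 4])])) .no)
  (.red [.f 936 5 3, .f 936 3 1] 134 136 [4, 4] [(134, 136, [4, 4])]) .no) .no .no) (.use 651)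
  .no)) .no (.red [.f 1073 5 1, .f 1073 1 5, .f 1201 5 3, .t 1202 3 2] 151 136 [4, 1] [(151, 136,
  [4, 1])])) .no .no

def c10t653 : Tr4 :=
  .br 1066 (.hor [.f 1065 1 5] []) (.con 136 [1, 4, 4, 4]) .no (.con 136 [1, 4, 4, 4]) .no .no

def c10t654 : Tr4 :=
  .br 1203 (.hor [.f 1202 1 5] []) .no .no (.hor [.f 1067 3 1, .f 1066 1 5] [(150, 136, [1, 4,
  4])]) .no .no

def c10t655 : Tr4 :=
  .br 697 .no (.br 1346 (.br 689 .no (.red [.f 561 1 3] 87 136 [2, 2, 2, 4] [(87, 136, [2, 2, 2,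
  4])]) .no (.br 1075 (.br 1074 (.hor [.f 1074 1 5] []) .no .no (.br 1073 (.use 646) .no .no (.hor
  [.f 1065 3 5] []) .no (.br 938 .no (.use 260) .no (.br 939 (.red [.f 944 5 1, .t 1066 3 2] 134
  136 [4, 4] [(134, 136, [4, 4])]) (.use 559) .no (.hor [.f 930 3 5] []) .no .no) (.use 576) (.red
  [.f 944 5 1, .t 1073 2 4] 134 136 [4, 4] [(134, 136, [4, 4])]))) .no (.use 652)) .no .no (.br
  1074 (.br 1073 (.hor [.f 1073 1 5] []) .no .no (.con 136 [4, 4, 1]) .no (.con 136 [4, 4, 1]))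
  .no .no (.hor [.f 1066 3 5] []) .no (.br 1072 (.con 136 [4, 4, 1]) .no .no (.br 1065 (.use 653)
  (.red [.t 1064 3 2] 134 136 [4, 4] [(134, 136, [4, 4])]) .no (.br 1066 (.br 1202 (.use 654) .no
  .no .no (.red [.t 1066 1 3] 150 136 [4, 4, 1] [(150, 136, [4, 4, 1])]) (.red [.f 1073 5 1, .f
  1066 1 3] 150 136 [4, 4, 1] [(150, 136, [4, 4, 1])])) (.con 136 [4, 4, 4]) .no (.hor [.f 1057 3
  5] []) .no .no) (.use 651) .no) .no .no)) .no (.br 1073 (.red [.f 1074 5 3, .t 1073 1 3] 151 136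
  [4, 1] [(151, 136, [4, 1])]) .no .no (.br 1072 (.con 136 [4, 4, 1]) .no .no (.hor [.f 1064 3 5]
  []) .no .no) .no (.red [.f 1072 5 3, .f 946 5 1, .t 1073 3 2] 135 136 [4] [(135, 136, [4])])))
  (.red [.f 689 5 1, .f 690 1 3] 103 136 [2, 2, 4] [(103, 136, [2, 2, 4])]) .no) .no (.hor [.f
  1218 3 1, .f 1217 1 5] [(169, 153, [1])]) .no (.red [.f 1338 5 3, .f 1211 3 1, .t 1345 2 4, .f
  1210 1 5, .f 1082 5 1, .t 1209 3 2] 152 136 [1] [(152, 136, [1])]) .no) .no (.hor [.f 688 3 5]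
  []) .no .no

def c10t656 : Tr4 :=
  .br 1104 (.red [.t 1232 2 4, .t 1225 2 4, .t 1218 2 4] 152 136 [1] [(152, 136, [1]), (153, 136,
  [3, 1]), (154, 136, [3, 3, 1])]) (.con 136 [3, 3, 2, 4, 4]) (.br 979 (.red [.t 978 4 1, .t 969 4
  1, .t 960 4 1] 136 136 [] [(136, 136, []), (137, 136, [3]), (138, 136, [3, 3])]) (.hor [.f 843 1
  3, .f 970 3 5] [(122, 121, [3])]) (.br 968 .no .no (.use 587) .no .no .no) .no .no .no) .no
  (.red [.f 1096 5 3, .f 1097 3 1, .t 1225 2 4, .t 1218 2 4] 152 136 [1] [(152, 136, [1]), (153,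
  136, [3, 1]), (154, 136, [3, 3, 1])]) .no

def c10t657 : Tr4 :=
  .br 832 .no (.hor [.f 704 1 5] []) (.br 825 .no (.use 611) .no (.use 321) (.red [.f 825 5 1, .f
  826 1 3, .t 962 4 1] 136 136 [] [(120, 136, [2]), (136, 136, [])]) (.br 841 .no (.use 596) (.br
  826 .no (.br 704 .no (.br 696 .no (.use 616) .no (.br 947 (.use 621) (.red [.f 819 1 3] 119 136
  [2, 4] [(119, 136, [2, 4])]) .no (.use 623) .no (.br 818 .no (.use 353) .no (.use 358) (.use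
  340) (.br 1218 (.hor [.f 1217 1 5] []) .no (.br 1219 (.use 617) .no (.hor [.f 1218 3 5] []) (.br
  1097 (.use 618) .no (.br 1096 (.con 136 [3, 3, 1]) (.br 1225 (.hor [.f 1217 1 3, .f 1217 3 5]
  [(169, 153, [1])]) .no (.hor [.f 1097 3 1, .t 1225 2 4, .f 961 3 1, .f 968 1 5] [(137, 136,
  [3]), (153, 136, [3, 1]), (154, 136, [3, 3, 1])]) .no .no (.br 945 (.use 556) .no .no (.use 644)
  .no (.br 1338 (.use 626) .no (.red [.t 1345 2 4, .t 1216 2 4] 152 136 [1] [(152, 136, [1]),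
  (168, 136, [1, 1])]) (.use 639) (.use 655) (.red [.f 1209 5 1, .f 1209 1 3, .t 1216 2 4] 152 136
  [1] [(152, 136, [1]), (168, 136, [1, 1])])))) (.hor [.f 1096 3 5] []) .no .no .no) .no .no (.br
  945 (.use 556) .no .no (.use 644) .no (.br 1338 (.use 626) .no (.red [.t 1345 2 4, .t 1216 2 4]
  152 136 [1] [(152, 136, [1]), (168, 136, [1, 1])]) (.use 639) (.br 1225 (.hor [.f 1217 1 3, .f
  1217 3 5] [(169, 153, [1])]) .no (.use 656) .no .no (.use 655)) (.red [.f 1209 5 1, .f 1209 1 3,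
  .t 1216 2 4] 152 136 [1] [(152, 136, [1]), (168, 136, [1, 1])])))) .no .no) .no (.use 628)
  .no))) (.red [.f 696 5 1, .f 697 1 3, .t 833 4 1, .t 962 4 1] 136 136 [] [(104, 136, [2, 2]),
  (120, 136, [2]), (136, 136, [])]) .no) (.hor [.f 704 3 1, .f 704 1 5] [(105, 104, [3])]) (.red
  [.t 704 4 1, .t 833 4 1, .t 962 4 1] 136 136 [] [(104, 136, [2, 2]), (120, 136, [2]), (136, 136,
  [])]) .no .no) .no (.use 615) .no .no) .no (.red [.t 961 3 2, .f 961 5 1, .t 960 4 1, .t 840 4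
  1] 136 136 [] [(136, 136, [])]) .no)) (.con 136 [2, 2]) .no .no

def c10t658 : Tr4 :=
  .br 817 .no (.hor [.f 689 1 3, .f 816 3 5] [(103, 104, [4])]) .no .no (.hor [.t 937 2 3, .f 818
  1 3, .f 946 3 5] [(118, 120, [4, 4]), (119, 120, [4])]) .no

def c10t659 : Tr4 :=
  .br 944 .no (.br 817 .no (.hor [.f 689 1 3, .f 817 3 1, .f 816 1 5] [(103, 104, [4]), (119, 120,
  [4])]) .no (.br 937 (.red [.t 937 1 3, .t 946 1 3] 135 136 [4] [(134, 136, [4, 4]), (135, 136,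
  [4])]) .no .no (.br 936 .no (.hor [.f 808 1 3, .f 808 3 5] [(118, 136, [2, 4, 4])]) .no (.hor
  [.f 928 3 5] []) .no .no) .no (.red [.t 816 1 4, .f 936 3 1] 134 136 [4, 4] [(118, 136, [2, 4,
  4]), (134, 136, [4, 4])])) (.hor [.t 953 4 2, .f 816 1 5] [(119, 120, [4])]) .no) .no (.red [.f
  936 3 1, .t 944 1 3] 135 136 [4] [(134, 136, [4, 4]), (135, 136, [4])]) .no .no

def c10t660 : Tr4 :=
  .br 819 .no (.hor [.f 691 1 3, .f 819 3 1, .f 826 1 5] [(103, 104, [4]), (119, 120, [4])]) .no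
  (.br 937 .no (.br 818 .no (.br 817 .no (.hor [.f 689 1 5] []) .no .no .no (.hor [.t 936 3 2, .t
  944 2 3, .f 825 1 5] [(118, 134, [2]), (119, 120, [4])])) .no (.hor [.f 810 3 1, .f 809 1 5]
  [(118, 134, [2])]) .no (.hor [.t 953 4 2, .f 809 1 3, .f 936 3 5] [(118, 134, [2]), (119, 120,
  [4])])) .no (.red [.f 929 3 1, .t 937 1 3] 134 136 [4, 4] [(133, 136, [4, 4, 4]), (134, 136, [4,
  4])]) .no .no) .no (.red [.t 954 2 4, .f 954 5 1, .t 953 4 1] 135 136 [4] [(119, 120, [4]),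
  (135, 136, [4])])

def c10t661 : Tr4 :=
  .br 1072 (.con 136 [4, 4]) (.hor [.f 944 1 5] []) .no (.con 136 [4, 4]) .no .no

def c10t662 : Tr4 :=
  .br 937 (.red [.f 944 5 1, .f 937 1 3] 134 136 [4, 4] [(134, 136, [4, 4])]) .no .no (.br 938 .no
  (.red [.f 810 1 3, .f 809 3 5] 118 136 [4, 2, 4] [(118, 136, [4, 2, 4])]) .no (.hor [.f 929 3 5]
  []) (.br 936 (.con 136 [4, 4, 4]) (.red [.t 808 1 3, .f 817 1 5] 118 136 [4, 2, 4] [(118, 136,
  [4, 2, 4])]) .no (.hor [.f 928 3 5] []) .no .no) .no) (.red [.f 944 5 1, .t 1073 2 4] 134 136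
  [4, 4] [(134, 136, [4, 4])]) (.red [.f 936 5 3, .f 809 3 1] 118 136 [4, 2, 4] [(118, 136, [4, 2,
  4])])

def c10t663 : Tr4 :=
  .br 945 (.use 661) .no .no (.red [.f 809 3 1, .f 817 1 5] 118 136 [4, 2, 4] [(118, 136, [4, 2,
  4])]) .no (.br 1073 (.use 646) .no .no (.hor [.f 1065 3 5] []) .no (.use 662))

def c10t664 : Tr4 :=
  .br 826 .no (.hor [.f 697 1 5] []) .no .no (.br 817 (.hor [.f 817 1 5] []) (.hor [.f 689 1 3, .f
  816 3 5] [(103, 104, [4])]) .no (.use 663) .no .no) .no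

def c10t665 : Tr4 :=
  .br 833 .no (.br 824 .no (.hor [.f 696 1 5] []) (.hor [.f 697 1 3, .f 824 3 5] [(104, 136, [2,
  2])]) (.use 664) .no .no) (.hor [.f 833 3 1, .f 833 1 5] [(121, 137, [2])]) .no .no (.br 824 .no
  (.hor [.f 696 1 5] []) .no (.use 664) .no .no)

def c10t666 : Tr4 :=
  .br 809 .no (.hor [.f 681 1 5] []) .no (.con 136 [4, 2, 4, 4, 2]) .no .no

def c10t667 : Tr4 :=
  .br 816 .no (.hor [.f 688 1 5] []) .no (.br 819 .no (.con 136 [2, 4, 2, 4]) (.con 136 [2, 4, 2,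
  4]) (.red [.t 818 1 4, .f 937 3 5] 118 136 [2, 4, 4] [(118, 136, [2, 4, 4])]) .no .no) .no .no

def c10t668 : Tr4 :=
  .br 697 .no (.br 696 .no (.hor [.f 568 1 5] []) (.red [.t 704 4 1, .t 833 4 1, .t 962 4 1] 136
  136 [] [(104, 136, [2, 2]), (120, 136, [2]), (136, 136, [])]) (.br 699 .no (.con 136 [2, 2, 2,
  4]) (.con 136 [2, 2, 2]) (.red [.f 819 3 1, .f 818 1 5, .t 698 1 4, .t 826 4 1] 103 136 [2, 2,
  4] [(103, 136, [2, 2, 4])]) .no .no) .no .no) .no (.red [.f 816 5 3, .f 689 3 1, .f 697 1 3] 103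
  136 [2, 2, 4] [(103, 136, [2, 2, 4]), (104, 136, [2, 2])]) .no (.red [.f 696 5 1, .f 697 1 3, .t
  833 4 1, .t 962 4 1] 136 136 [] [(104, 136, [2, 2]), (120, 136, [2]), (136, 136, [])])

def c10t669 : Tr4 :=
  .br 819 .no (.br 811 .no (.red [.f 683 1 3] 102 136 [2, 4, 2, 4] [(102, 136, [2, 4, 2, 4])]) .no
  (.br 810 .no (.br 809 .no (.hor [.f 681 1 5] []) .no (.con 136 [2, 4, 2, 4, 4]) .no (.con 136
  [2, 4, 2, 4, 4])) .no (.hor [.f 802 3 5] []) .no (.red [.f 816 5 3, .t 945 4 2] 118 136 [2, 4,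
  4] [(118, 136, [2, 4, 4])])) .no (.red [.f 816 5 3, .f 810 5 1, .f 810 1 3] 118 136 [2, 4, 4]
  [(118, 136, [2, 4, 4])])) (.br 698 (.use 668) (.con 136 [2, 4, 2, 3]) (.con 136 [2, 4, 2, 3])
  (.con 136 [2, 4, 2, 3]) (.con 136 [2, 4, 2, 3]) (.con 136 [2, 4, 2, 3])) (.red [.f 816 5 3, .t
  818 1 4] 118 136 [2, 4, 4] [(118, 136, [2, 4, 4])]) .no .no

def c10t670 : Tr4 :=
  .br 698 (.hor [.f 698 1 5] []) (.con 136 [2, 4, 2, 3]) (.con 136 [2, 4, 2, 3]) (.con 136 [2, 4,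
  2, 3]) .no (.con 136 [2, 4, 2, 3])

def c10t671 : Tr4 :=
  .br 1329 (.red [.f 1329 1 3] 183 136 [4, 1, 1, 1] [(183, 136, [4, 1, 1, 1])]) .no .no (.red [.t
  1320 2 3, .f 1201 1 5, .f 1201 5 3, .t 1202 3 2] 151 136 [4, 1] [(151, 136, [4, 1]), (166, 167,
  [4])]) .no (.red [.f 1200 5 1, .f 1200 1 3] 167 136 [4, 1, 1] [(167, 136, [4, 1, 1])])

def c10t672 : Tr4 :=
  .br 809 .no (.hor [.f 681 1 5] []) .no (.br 808 .no (.con 136 [4, 4, 2, 4, 2]) .no (.hor [.f 800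
  3 5] []) .no .no) .no (.red [.f 816 5 1, .f 808 5 1, .f 808 1 3] 118 136 [4, 4, 2] [(118, 136,
  [4, 4, 2])])

def c10t673 : Tr4 :=
  .br 1067 (.red [.f 1067 1 3, .f 1066 3 5, .f 1074 5 3, .f 947 3 1] 135 136 [4] [(135, 136, [4]),
  (150, 134, [1])]) .no .no (.br 811 .no (.red [.f 683 1 3, .t 818 1 4] 118 136 [2, 4, 4] [(102,
  136, [2, 4, 2, 4]), (118, 136, [2, 4, 4])]) .no (.br 817 .no (.br 816 .no (.hor [.f 688 1 5] [])
  .no (.con 136 [2, 4, 2, 4]) .no .no) .no (.use 662) .no (.br 937 (.red [.f 944 5 1, .f 937 1 3]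
  134 136 [4, 4] [(134, 136, [4, 4])]) (.br 936 (.con 136 [4, 4, 4]) (.hor [.f 808 1 5] []) .no
  (.con 136 [2, 4, 4, 4]) .no .no) .no (.br 936 (.con 136 [4, 4, 4]) (.red [.f 816 5 1, .f 808 1
  3] 118 136 [2, 4, 4] [(118, 136, [2, 4, 4])]) .no (.hor [.f 928 3 5] []) .no .no) .no (.br 810
  .no (.use 672) .no (.hor [.f 802 3 5] []) .no (.red [.f 816 5 3, .f 936 5 3, .t 945 4 2] 118 136
  [2, 4, 4] [(118, 136, [2, 4, 4])])))) .no (.red [.f 810 5 1, .f 810 1 3] 118 136 [2, 4, 4]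
  [(118, 136, [2, 4, 4])])) .no .no

def c10t674 : Tr4 :=
  .br 696 .no (.br 704 .no (.red [.f 568 1 3, .t 704 4 1, .t 833 4 1, .t 962 4 1] 136 136 [] [(88,
  136, [2, 2, 2]), (104, 136, [2, 2]), (120, 136, [2]), (136, 136, [])]) (.hor [.f 704 3 1, .f 704
  1 5] [(105, 104, [3])]) .no .no .no) (.red [.t 704 4 1, .t 833 4 1, .t 962 4 1] 136 136 []
  [(104, 136, [2, 2]), (120, 136, [2]), (136, 136, [])]) (.con 136 [2, 2, 4, 4]) (.red [.f 696 5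
  1, .f 697 1 3, .t 833 4 1, .t 962 4 1] 136 136 [] [(104, 136, [2, 2]), (120, 136, [2]), (136,
  136, [])]) .no

def c10l26 : List Tr4 :=
  [c10t652, c10t653, c10t654, c10t655, c10t656, c10t657, c10t658, c10t659, c10t660, c10t661,
  c10t662, c10t663, c10t664, c10t665, c10t666, c10t667, c10t668, c10t669, c10t670, c10t671,
  c10t672, c10t673, c10t674]

theorem c10k26 : chkLF ⟨4, 0, 0, true, -8⟩ true 0 c10N 652 c10l26 = true := by decide +kernel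

def c10t675 : Tr4 :=
  .br 938 .no (.red [.f 810 1 3] 118 136 [2, 4, 4] [(118, 136, [2, 4, 4])]) .no (.br 937 (.red [.f
  944 5 1, .f 937 1 3] 134 136 [4, 4] [(134, 136, [4, 4])]) (.br 936 (.con 136 [2, 4, 4, 4]) (.hor
  [.f 808 1 5] []) .no (.con 136 [2, 4, 4, 4]) .no .no) .no (.hor [.f 929 3 5] []) .no (.br 1201
  (.hor [.f 1201 1 5] []) .no .no (.br 1200 (.red [.f 1200 1 3, .f 1072 5 3, .f 1072 3 1] 151 136
  [4, 1] [(151, 136, [4, 1]), (167, 136, [4, 1, 1])]) .no .no (.hor [.f 1192 3 5] []) .no .no) .no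
  (.br 817 .no (.br 816 .no (.hor [.f 688 1 5] []) .no (.br 810 .no (.br 809 .no (.hor [.f 681 1
  5] []) .no (.con 136 [2, 4, 4, 4, 2]) .no .no) .no (.red [.f 802 3 1, .f 810 1 3] 118 136 [2, 4,
  4] [(117, 136, [2, 4, 4, 4]), (118, 136, [2, 4, 4])]) (.con 136 [2, 4, 4, 2]) (.red [.f 936 5 3,
  .t 945 4 2] 118 136 [2, 4, 4] [(118, 136, [2, 4, 4])])) .no .no) .no (.use 662) .no (.br 1065
  (.br 1064 (.hor [.f 1064 1 5] []) .no .no (.br 1192 (.use 671) .no .no (.red [.f 1056 3 1, .f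
  1064 1 5] 149 136 [4, 4, 1, 4] [(149, 136, [4, 4, 1, 4])]) .no .no) .no .no) .no .no (.br 810
  .no (.use 672) .no (.red [.f 802 3 1, .f 810 1 3] 118 136 [2, 4, 4] [(117, 136, [2, 4, 4, 4]),
  (118, 136, [2, 4, 4])]) (.br 808 .no (.br 809 .no (.hor [.f 680 1 5] []) .no (.con 136 [2, 4, 4,
  2, 4]) .no .no) .no (.br 929 .no (.red [.t 800 3 1, .f 929 3 5] 117 136 [2, 4, 4, 4] [(117, 136,
  [2, 4, 4, 4])]) .no (.br 928 (.red [.t 1056 2 3, .f 800 3 1] 117 136 [2, 4, 4, 4] [(117, 136,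
  [2, 4, 4, 4]), (133, 136, [4, 4, 4])]) .no .no (.hor [.f 920 3 5] []) .no .no) .no (.red [.f 928
  5 3, .f 800 3 1] 117 136 [2, 4, 4, 4] [(117, 136, [2, 4, 4, 4])])) (.red [.f 816 5 1, .f 808 5
  1, .f 808 1 3] 118 136 [2, 4, 4] [(118, 136, [2, 4, 4])]) .no) (.red [.f 816 5 3, .f 936 5 3, .t
  945 4 2] 118 136 [2, 4, 4] [(118, 136, [2, 4, 4])])) .no (.red [.f 1064 5 3, .f 936 5 3, .f 936
  3 1] 134 136 [4, 4] [(134, 136, [4, 4])]))))) (.br 827 .no (.use 670) (.br 819 .no (.use 673)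
  .no (.red [.t 818 1 4] 118 136 [2, 4, 4] [(118, 136, [2, 4, 4])]) .no .no) (.br 698 (.br 817 .no
  (.use 674) .no (.use 662) .no (.use 668)) (.con 136 [2, 4, 2, 3]) (.con 136 [2, 4, 2, 3]) (.con
  136 [2, 4, 2, 3]) (.con 136 [2, 4, 2, 3]) (.con 136 [2, 4, 2, 3])) .no (.br 819 .no (.use 673)
  .no (.red [.t 818 1 4] 118 136 [2, 4, 4] [(118, 136, [2, 4, 4])]) .no .no)) (.red [.f 944 5 1,
  .t 1073 2 4] 134 136 [4, 4] [(134, 136, [4, 4])])

def c10t676 : Tr4 :=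
  .br 1338 (.br 1337 (.hor [.f 1337 1 5] []) .no .no (.red [.t 1329 3 2, .t 1202 3 2] 151 136 [4,
  1] [(151, 136, [4, 1]), (167, 136, [4, 1, 1])]) .no .no) .no (.red [.t 1345 2 4, .t 1216 2 4]
  152 136 [1] [(152, 136, [1]), (168, 136, [1, 1])]) .no (.br 832 .no (.hor [.f 704 1 5] []) (.br
  945 (.use 661) (.hor [.f 817 1 5] []) .no (.br 944 (.br 1073 (.br 1337 (.br 938 .no (.red [.f
  810 1 3] 118 136 [2, 4, 4] [(118, 136, [2, 4, 4])]) .no (.br 817 .no (.br 1200 (.red [.f 1200 1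
  3, .t 1200 3 2] 151 136 [4, 1] [(151, 136, [4, 1]), (167, 136, [4, 1, 1])]) .no .no (.br 1065
  (.hor [.f 1065 1 3, .f 1065 3 5] [(150, 151, [4])]) .no .no (.br 1064 .no (.br 816 .no (.hor [.f
  688 1 5] []) .no (.br 810 .no (.use 666) .no (.red [.f 802 3 1, .f 810 1 3] 118 136 [2, 4, 4]
  [(117, 136, [2, 4, 4, 4]), (118, 136, [2, 4, 4])]) (.con 136 [2, 4, 4, 2]) (.red [.f 936 1 3, .t
  945 4 2] 118 136 [2, 4, 4] [(118, 136, [2, 4, 4]), (134, 118, [1])])) .no .no) .no (.hor [.f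
  1056 3 5] []) .no .no) .no (.hor [.t 1200 4 2, .f 1065 3 5] [(150, 151, [4])])) .no .no) .no
  (.use 663) .no (.br 1200 (.red [.f 1200 1 3, .t 1200 3 2] 151 136 [4, 1] [(151, 136, [4, 1]),
  (167, 136, [4, 1, 1])]) .no .no (.br 1065 (.hor [.f 1065 1 3, .f 1065 3 5] [(150, 151, [4])])
  .no .no (.br 1064 .no (.br 939 (.br 1194 (.red [.f 1194 1 3, .f 1066 3 1, .f 1074 1 5, .f 1074 5
  3, .f 947 3 1] 135 136 [4] [(135, 136, [4]), (150, 151, [4]), (166, 167, [4])]) .no .no (.br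
  1193 (.br 1329 (.red [.f 1329 1 3] 183 136 [4, 1, 1, 1] [(183, 136, [4, 1, 1, 1])]) .no .no .no
  .no (.red [.t 1192 3 1, .f 1200 1 3] 167 136 [4, 1, 1] [(166, 136, [4, 4, 1, 1]), (167, 136, [4,
  1, 1])])) .no .no (.hor [.f 1057 3 1, .f 1065 1 3, .f 1192 3 5] [(149, 117, [1, 1]), (150, 151,
  [4])]) .no .no) (.red [.t 1074 4 1, .f 1074 5 3, .f 947 3 1, .f 939 1 3] 135 136 [4] [(134, 136,
  [4, 4]), (135, 136, [4]), (150, 151, [4])]) (.hor [.t 1073 1 4, .f 1192 3 5] [(150, 151, [4])]))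
  (.con 136 [2, 4, 4, 4]) .no (.hor [.f 930 3 5] []) .no .no) .no (.hor [.f 1056 3 5] []) .no .no)
  .no (.hor [.t 1200 4 2, .f 1065 3 5] [(150, 151, [4])])) .no .no)) (.br 817 .no (.use 667) .no
  (.use 663) .no (.use 669)) .no) .no .no (.use 625) .no .no) .no .no (.hor [.f 1065 3 5] []) .no
  .no) (.con 136 [2, 4, 4]) .no (.hor [.f 936 3 5] []) .no .no) .no (.br 1073 (.use 646) .no .no
  (.hor [.f 1065 3 5] []) .no (.br 1337 (.use 675) .no .no (.red [.t 1329 3 2, .t 1202 3 2] 151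
  136 [4, 1] [(151, 136, [4, 1]), (167, 136, [4, 1, 1])]) .no .no))) .no .no .no) (.red [.f 1209 5
  1, .f 1202 1 3, .t 1202 3 2] 151 136 [4, 1] [(151, 136, [4, 1]), (167, 136, [4, 1, 1])])

def c10t677 : Tr4 :=
  .br 1202 (.use 676) .no .no (.br 1073 (.red [.f 1066 3 1, .f 1074 1 5, .f 1074 5 3, .f 947 3 1]
  135 136 [4] [(135, 136, [4]), (150, 134, [1])]) (.red [.f 1066 3 1, .f 1074 1 5, .f 1074 5 3, .f
  947 3 1] 135 136 [4] [(135, 136, [4]), (150, 134, [1])]) .no (.hor [.f 1065 3 5] []) .no (.red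
  [.f 1066 3 1, .f 1074 1 5, .f 1074 5 3, .f 947 3 1] 135 136 [4] [(135, 136, [4]), (150, 134,
  [1])])) .no (.red [.f 1201 5 3, .t 1202 3 2] 151 136 [4, 1] [(151, 136, [4, 1])])

def c10t678 : Tr4 :=
  .br 1072 (.hor [.f 1072 1 5] []) (.red [.f 945 5 3, .t 944 1 3] 135 136 [4] [(135, 136, [4])])
  .no (.use 645) .no .no

def c10t679 : Tr4 :=
  .br 698 (.hor [.f 697 1 5] []) (.hor [.f 689 1 3, .f 816 3 5] [(103, 104, [4])]) (.hor [.f 689 1
  3, .f 816 3 5] [(103, 104, [4])]) (.hor [.f 689 1 3, .f 816 3 5] [(103, 104, [4])]) (.hor [.f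
  689 1 3, .f 816 3 5] [(103, 104, [4])]) .no

def c10t680 : Tr4 :=
  .br 817 .no (.use 679) .no (.hor [.f 809 3 1, .f 817 1 5] [(118, 136, [4, 2, 4])]) .no .no

def c10t681 : Tr4 :=
  .br 937 (.red [.t 1064 3 2] 134 136 [4, 4] [(134, 136, [4, 4])]) .no .no (.br 936 .no (.red [.t
  808 1 3, .f 817 1 5] 118 136 [4, 2, 4] [(118, 136, [4, 2, 4])]) .no (.hor [.f 928 3 5] []) .no
  .no) (.red [.t 817 4 1] 118 136 [4, 2, 4] [(118, 136, [4, 2, 4])]) (.red [.f 936 5 3, .f 936 3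
  1] 134 136 [4, 4] [(134, 136, [4, 4])])

def c10t682 : Tr4 :=
  .br 817 .no (.use 679) .no (.use 681) .no .no

def c10t683 : Tr4 :=
  .br 1219 (.use 612) .no (.hor [.f 1218 3 5] []) (.br 968 .no (.hor [.t 968 2 4, .f 833 1 5]
  [(121, 120, [3])]) (.br 1225 (.hor [.f 1217 1 3, .f 1217 3 5] [(169, 153, [1])]) .no (.use 591)
  .no .no (.red [.f 1096 5 1, .t 1225 2 4, .t 1218 2 4, .f 1075 1 3] 152 136 [1] [(151, 136, [4,
  1]), (152, 136, [1]), (153, 136, [3, 1])])) .no .no .no) .no .no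

def c10t684 : Tr4 :=
  .br 936 (.hor [.f 936 1 5] []) (.red [.t 808 1 3, .f 817 1 5] 118 136 [4, 2, 4] [(118, 136, [4,
  2, 4])]) .no (.br 1064 (.red [.f 1064 1 3, .t 1064 3 2] 134 136 [4, 4] [(134, 136, [4, 4]),
  (150, 136, [4, 4, 1])]) .no .no (.br 938 (.hor [.f 937 1 5] []) (.red [.f 928 3 1, .f 936 1 5,
  .f 936 5 3, .f 809 3 1] 118 136 [4, 2, 4] [(118, 136, [4, 2, 4]), (133, 134, [4])]) .no (.red
  [.f 928 3 1, .f 936 1 5, .f 936 5 3, .f 809 3 1] 118 136 [4, 2, 4] [(118, 136, [4, 2, 4]), (133,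
  117, [1])]) (.red [.f 928 3 1, .f 936 1 5, .f 936 5 3, .f 809 3 1] 118 136 [4, 2, 4] [(118, 136,
  [4, 2, 4]), (133, 117, [1])]) .no) .no .no) .no .no

def c10t685 : Tr4 :=
  .br 1064 (.red [.f 1064 1 3] 150 136 [4, 4, 1] [(150, 136, [4, 4, 1])]) (.use 648) .no (.hor [.f
  1056 3 5] []) .no .no

def c10t686 : Tr4 :=
  .br 945 .no (.hor [.f 817 1 5] []) .no (.use 680) .no (.br 1072 (.br 1201 (.use 647) .no .no
  (.br 817 .no (.use 679) .no (.br 1065 .no (.use 684) .no (.use 685) (.red [.f 1065 5 3, .f 1065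
  3 1] 150 136 [4, 4, 1] [(150, 136, [4, 4, 1])]) (.red [.t 1200 2 4] 150 136 [4, 4, 1] [(150,
  136, [4, 4, 1])])) .no .no) (.hor [.f 1073 5 1, .f 1072 1 5, .f 1074 1 5] []) .no) .no .no (.use
  682) .no .no)

def c10t687 : Tr4 :=
  .br 833 .no (.br 824 .no (.hor [.f 696 1 5] []) (.hor [.f 697 1 3, .f 824 3 5] [(104, 136, [2,
  2])]) (.use 686) .no .no) (.hor [.f 833 3 1, .f 833 1 5] [(121, 137, [2])]) .no .no (.br 824 .no
  (.hor [.f 696 1 5] []) .no (.use 686) .no .no)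

def c10t688 : Tr4 :=
  .br 1338 (.hor [.f 1337 1 5] []) .no (.red [.t 1345 2 4] 168 136 [1, 1] [(168, 136, [1, 1])])
  (.con 136 [1, 1, 1, 4]) (.con 136 [1, 1, 4]) .no

def c10t689 : Tr4 :=
  .br 1218 (.hor [.f 1217 1 5] []) .no (.use 618) .no (.use 688) .no

def c10t690 : Tr4 :=
  .br 1097 (.use 689) .no (.hor [.f 1097 3 5] []) .no .no (.br 1218 (.hor [.f 1217 1 5] []) .no
  (.use 630) .no (.use 688) .no)

def c10t691 : Tr4 :=
  .br 1337 (.use 690) .no .no (.red [.t 1336 2 4] 167 136 [4, 1, 1] [(167, 136, [4, 1, 1])]) (.red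
  [.f 1209 5 1, .f 1209 1 3, .t 1216 2 4, .f 952 3 1, .f 944 1 3] 136 136 [] [(135, 136, [4]),
  (136, 136, []), (152, 136, [1]), (168, 136, [1, 1])]) .no

def c10t692 : Tr4 :=
  .br 1201 .no .no .no (.br 1072 (.use 624) .no .no (.use 649) .no .no) (.red [.f 1073 5 1, .f
  1073 1 5, .f 1201 5 3, .t 1202 3 2] 151 136 [4, 1] [(151, 136, [4, 1])]) (.red [.t 1336 2 4] 167
  136 [4, 1, 1] [(167, 136, [4, 1, 1])])

def c10t693 : Tr4 :=
  .br 1337 (.use 690) .no .no (.use 692) (.red [.f 1209 5 1, .f 1209 1 3, .t 1216 2 4] 152 136 [1]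
  [(152, 136, [1]), (168, 136, [1, 1])]) .no

def c10t694 : Tr4 :=
  .br 810 .no (.con 136 [4, 2, 4, 4, 2]) .no (.hor [.f 801 3 5] []) (.con 136 [4, 2, 4, 2]) .no

def c10t695 : Tr4 :=
  .br 698 (.br 816 .no (.hor [.f 688 1 5] []) .no (.br 809 .no (.red [.f 681 1 3] 102 136 [2, 2,
  4, 4] [(102, 136, [2, 2, 4, 4])]) .no (.use 694) (.red [.t 945 4 2] 118 136 [2, 4, 4] [(118,
  136, [2, 4, 4])]) .no) .no .no) (.con 136 [2, 4, 2, 3, 1]) (.con 136 [2, 4, 2, 3, 1]) (.con 136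
  [2, 4, 2, 3, 1]) (.con 136 [2, 4, 2, 3, 1]) (.con 136 [2, 4, 2, 3, 1])

def c10t696 : Tr4 :=
  .br 698 (.use 674) (.con 136 [2, 4, 2, 3]) (.con 136 [2, 4, 2, 3]) (.con 136 [2, 4, 2, 3]) (.con
  136 [2, 4, 2, 3]) (.con 136 [2, 4, 2, 3])

def c10t697 : Tr4 :=
  .br 810 .no (.con 136 [4, 2, 4, 4, 2]) .no (.hor [.f 801 3 5] []) (.con 136 [4, 2, 4, 2, 4]) .no

def c10t698 : Tr4 :=
  .br 816 .no (.hor [.f 688 1 5] []) .no (.br 810 .no (.use 666) .no (.red [.f 802 3 1, .f 810 1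
  3] 118 136 [2, 4, 4] [(117, 136, [2, 4, 4, 4]), (118, 136, [2, 4, 4])]) (.con 136 [2, 4, 4, 2])
  (.red [.t 945 4 2] 118 136 [2, 4, 4] [(118, 136, [2, 4, 4])])) .no .no

def c10t699 : Tr4 :=
  .br 936 (.br 939 (.hor [.f 938 1 5] []) (.con 136 [4, 4, 4]) .no (.con 136 [4, 4, 4]) .no .no)
  (.red [.t 936 2 3, .f 817 1 5] 118 136 [2, 4, 4] [(118, 136, [2, 4, 4])]) .no (.br 808 .no (.br
  809 .no (.hor [.f 680 1 5] []) .no (.use 697) (.red [.f 816 5 3, .t 945 4 2] 118 136 [2, 4, 4]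
  [(118, 136, [2, 4, 4])]) .no) .no (.red [.f 800 3 1, .t 936 2 3, .f 817 1 5] 118 136 [2, 4, 4]
  [(117, 136, [2, 4, 4, 4]), (118, 136, [2, 4, 4])]) (.red [.f 808 5 3, .f 809 3 1] 118 136 [2, 4,
  4] [(118, 136, [2, 4, 4])]) .no) .no .no

def c10t700 : Tr4 :=
  .br 809 .no (.hor [.f 681 1 5] []) .no (.br 808 .no (.con 136 [4, 2, 4, 4, 2]) .no (.hor [.f 800
  3 5] []) .no .no) .no (.red [.f 808 5 3, .f 809 3 1] 118 136 [4, 2, 4] [(118, 136, [4, 2, 4])])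

def c10t701 : Tr4 :=
  .br 809 .no (.red [.f 816 5 3, .t 825 4 2, .f 681 1 3] 102 136 [2, 4, 2, 4] [(102, 136, [2, 4,
  2, 4]), (103, 136, [2, 4, 2])]) .no (.br 808 .no (.con 136 [2, 4, 2, 4, 4]) .no (.hor [.f 800 3
  5] []) .no .no) .no (.red [.f 808 5 3, .f 809 3 1] 118 136 [2, 4, 4] [(118, 136, [2, 4, 4])])

def c10t702 : Tr4 :=
  .br 808 .no (.con 136 [4, 2, 4, 2, 4]) .no (.hor [.f 800 3 5] []) .no .no

def c10t703 : Tr4 :=
  .br 704 .no (.br 810 .no (.use 700) .no (.red [.f 802 3 1, .f 810 1 3] 118 136 [2, 4, 4] [(117,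
  136, [2, 4, 4, 4]), (118, 136, [2, 4, 4])]) (.br 696 .no (.br 697 .no (.hor [.f 568 1 5] []) .no
  (.br 809 .no (.red [.f 816 5 3, .f 689 3 1, .f 681 1 3] 102 136 [2, 4, 4, 2] [(102, 136, [2, 4,
  4, 2]), (103, 136, [2, 2, 4])]) .no (.br 688 .no (.hor [.f 560 1 3, .f 688 3 5] [(87, 120, [2,
  4, 2])]) .no (.br 808 .no .no .no (.hor [.f 800 3 5] []) .no .no) .no .no) .no (.red [.f 808 5
  3, .f 809 3 1] 118 136 [2, 4, 4] [(118, 136, [2, 4, 4])])) .no .no) .no (.br 697 .no (.br 699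
  .no (.br 691 (.br 689 .no (.red [.f 561 1 3] 87 136 [2, 2, 2, 4] [(87, 136, [2, 2, 2, 4])]) .no
  (.br 690 .no (.con 136 [2, 2, 2, 4, 4]) .no (.hor [.f 681 3 5] []) .no .no) (.use 701) .no)
  (.con 136 [2, 4, 4, 2, 3, 2]) .no (.con 136 [2, 4, 4, 2, 3, 2]) .no (.con 136 [2, 4, 4, 2, 3,
  2])) (.hor [.f 699 3 1, .f 698 1 5] [(104, 88, [1])]) (.con 136 [2, 4, 4, 2, 3, 3, 1]) .no .no)
  .no (.hor [.f 688 3 5] []) .no .no) (.br 699 .no (.br 691 (.br 809 .no (.br 689 .no (.br 688 .no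
  (.hor [.f 560 1 5] []) .no (.red [.t 680 3 1] 102 136 [2, 2, 4, 4] [(102, 136, [2, 2, 4, 4])])
  .no .no) .no .no (.use 701) (.red [.f 688 5 3, .f 688 3 5, .f 688 5 1, .f 681 1 3] 102 136 [2,
  2, 4, 4] [(102, 136, [2, 2, 4, 4])])) .no (.use 702) .no (.red [.f 808 5 3, .f 809 3 1] 118 136
  [2, 4, 4] [(118, 136, [2, 4, 4])])) (.con 136 [2, 4, 4, 2, 3, 3, 1]) .no (.con 136 [2, 4, 4, 2,
  3, 3, 1]) .no (.con 136 [2, 4, 4, 2, 3, 3, 1])) (.hor [.f 699 3 1, .f 698 1 5] [(104, 88, [1])])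
  (.con 136 [2, 4, 4, 2, 3, 3, 1]) .no .no) .no) (.red [.f 816 5 3, .t 945 4 2] 118 136 [2, 4, 4]
  [(118, 136, [2, 4, 4])])) (.hor [.f 704 3 1, .f 704 1 5] [(105, 104, [3])]) (.br 810 .no (.use
  700) .no (.red [.f 802 3 1, .f 810 1 3] 118 136 [2, 4, 4] [(117, 136, [2, 4, 4, 4]), (118, 136,
  [2, 4, 4])]) (.br 699 .no (.br 691 (.br 809 .no (.br 697 .no (.br 689 .no (.br 688 .no (.hor [.f
  560 1 5] []) .no (.red [.t 680 3 1] 102 136 [2, 2, 4, 4] [(102, 136, [2, 2, 4, 4])]) .no .no)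
  .no .no (.use 701) (.red [.f 688 5 1, .f 681 1 3] 102 136 [2, 2, 4, 4] [(102, 136, [2, 2, 4,
  4])])) .no (.red [.f 816 5 3, .f 689 3 1, .f 681 1 3] 102 136 [2, 2, 4, 4] [(102, 136, [2, 2, 4,
  4]), (103, 136, [2, 2, 4])]) .no .no) .no (.use 702) .no (.red [.f 808 5 3, .f 809 3 1] 118 136
  [2, 4, 4] [(118, 136, [2, 4, 4])])) (.con 136 [2, 4, 4, 2, 3, 3, 1]) .no (.con 136 [2, 4, 4, 2,
  3, 3, 1]) .no (.con 136 [2, 4, 4, 2, 3, 3, 1])) (.hor [.f 699 3 1, .f 698 1 5] [(104, 120,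
  [2])]) (.con 136 [2, 4, 4, 2, 3, 3, 1]) .no .no) (.red [.f 816 5 3, .t 945 4 2] 118 136 [2, 4,
  4] [(118, 136, [2, 4, 4])])) .no .no

def c10l27 : List Tr4 :=
  [c10t675, c10t676, c10t677, c10t678, c10t679, c10t680, c10t681, c10t682, c10t683, c10t684,
  c10t685, c10t686, c10t687, c10t688, c10t689, c10t690, c10t691, c10t692, c10t693, c10t694,
  c10t695, c10t696, c10t697, c10t698, c10t699, c10t700, c10t701, c10t702, c10t703]

theorem c10k27 : chkLF ⟨4, 0, 0, true, -8⟩ true 0 c10N 675 c10l27 = true := by decide +kernel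

end Pool.Agent.FT4D
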