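import Pool.Agent.FT4D.Tab_c10

/-!
# Four levels: decision trees (found by a computer search)
-/

namespace Pool.Agent.FT4D

def c10t704 : Tr4 :=
  .br 808 .no (.br 809 .no (.hor [.f 680 1 5] []) .no (.br 810 .no (.con 136 [2, 4, 4, 4, 2]) .no
  (.hor [.f 801 3 5] []) (.con 136 [2, 4, 4, 2, 4]) .no) (.red [.f 816 5 3, .t 945 4 2] 118 136
  [2, 4, 4] [(118, 136, [2, 4, 4])]) .no) .no (.red [.f 800 3 1, .t 936 2 3, .f 817 1 5] 118 136
  [2, 4, 4] [(117, 136, [2, 4, 4, 4]), (118, 136, [2, 4, 4])]) (.red [.f 808 5 3, .f 809 3 1] 118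
  136 [2, 4, 4] [(118, 136, [2, 4, 4])]) .no

def c10t705 : Tr4 :=
  .br 817 .no (.br 938 (.br 704 .no (.br 827 .no (.use 670) (.use 695) (.use 696) .no (.br 696 .no
  (.br 698 .no (.red [.f 568 1 3, .t 704 4 1, .t 833 4 1, .t 962 4 1] 136 136 [] [(88, 136, [2, 2,
  2]), (104, 136, [2, 2]), (120, 136, [2]), (136, 136, [])]) (.br 835 .no (.br 816 .no (.hor [.f
  688 1 5] []) .no (.br 809 .no (.red [.f 681 1 3] 102 136 [2, 2, 4, 4] [(102, 136, [2, 2, 4,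
  4])]) .no (.use 694) (.red [.t 706 4 1, .t 945 4 2] 118 136 [2, 4, 4] [(104, 136, [2, 2]), (118,
  136, [2, 4, 4])]) .no) .no .no) .no .no .no .no) (.red [.f 568 1 3, .t 704 4 1, .t 833 4 1, .t
  962 4 1] 136 136 [] [(88, 136, [2, 2, 2]), (104, 136, [2, 2]), (120, 136, [2]), (136, 136, [])])
  (.red [.f 568 1 3, .t 704 4 1, .t 833 4 1, .t 962 4 1] 136 136 [] [(88, 136, [2, 2, 2]), (104,
  136, [2, 2]), (120, 136, [2]), (136, 136, [])]) (.red [.f 568 1 3, .t 704 4 1, .t 833 4 1, .t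
  962 4 1] 136 136 [] [(88, 136, [2, 2, 2]), (104, 136, [2, 2]), (120, 136, [2]), (136, 136,
  [])])) .no (.br 939 (.hor [.f 938 1 5] []) (.br 816 .no .no .no (.con 136 [2, 4, 4, 2]) .no .no)
  .no (.br 1067 (.br 936 (.con 136 [4, 4, 4]) (.br 819 .no (.con 136 [2, 2, 4, 4]) .no (.con 136
  [2, 2, 4, 4, 1]) .no .no) .no (.br 809 .no (.red [.f 681 1 3] 102 136 [2, 2, 4, 4] [(102, 136,
  [2, 2, 4, 4])]) .no (.br 808 .no (.use 697) (.use 694) (.hor [.f 800 3 5] []) .no .no) (.red [.t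
  945 4 2] 118 136 [2, 4, 4] [(118, 136, [2, 4, 4])]) (.br 819 .no (.con 136 [2, 2, 4, 4]) .no
  (.con 136 [2, 2, 4, 4, 1]) .no .no)) .no .no) .no .no (.red [.f 931 3 1, .f 938 1 5] 133 136 [4,
  4, 4] [(133, 136, [4, 4, 4])]) .no .no) .no .no) (.red [.f 696 5 1, .f 697 1 3, .t 833 4 1, .t
  962 4 1] 136 136 [] [(104, 136, [2, 2]), (120, 136, [2]), (136, 136, [])]) .no)) (.hor [.f 704 3
  1, .f 704 1 5] [(105, 104, [3])]) (.br 827 .no (.use 670) (.use 695) (.use 696) .no (.red [.t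
  704 4 1, .t 833 4 1, .t 962 4 1] 136 136 [] [(104, 136, [2, 2]), (120, 136, [2]), (136, 136,
  [])])) .no .no) (.red [.f 810 1 3] 118 136 [2, 4, 4] [(118, 136, [2, 4, 4])]) .no (.use 698)
  (.use 667) .no) .no (.red [.f 809 3 1, .f 817 1 5] 118 136 [2, 4, 4] [(118, 136, [2, 4, 4])])
  .no (.br 938 (.use 699) (.red [.f 810 1 3] 118 136 [2, 4, 4] [(118, 136, [2, 4, 4])]) .no (.br
  936 (.br 939 (.br 810 .no (.use 700) .no (.red [.f 802 3 1, .f 810 1 3] 118 136 [2, 4, 4] [(117,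
  136, [2, 4, 4, 4]), (118, 136, [2, 4, 4])]) (.br 1066 (.br 1065 (.hor [.f 1065 1 5] []) .no .no
  (.br 1329 (.red [.f 1329 1 3] 183 136 [4, 1, 1, 1] [(183, 136, [4, 1, 1, 1])]) .no .no (.br 1202
  (.br 1193 .no .no .no (.hor [.f 1057 3 1, .f 1065 1 5] [(149, 117, [1, 1])]) .no (.red [.f 1192
  5 3, .f 1193 3 1, .f 1201 1 5, .f 1201 5 3, .t 1202 3 2, .f 947 3 1] 135 136 [4] [(135, 136,
  [4]), (151, 136, [4, 1]), (166, 167, [4])])) .no .no .no .no .no) (.con 136 [4, 1, 1, 4, 2, 3])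
  (.red [.f 1200 5 1, .f 1200 1 3] 167 136 [4, 1, 1] [(167, 136, [4, 1, 1])])) .no .no) .no .no
  (.red [.f 930 3 1, .f 938 1 5, .f 810 5 1, .f 810 1 3] 118 136 [2, 4, 4] [(118, 136, [2, 4, 4]),
  (133, 117, [1])]) .no (.br 1346 (.br 1202 (.br 1329 (.red [.f 1329 1 3] 183 136 [4, 1, 1, 1]
  [(183, 136, [4, 1, 1, 1])]) .no .no (.br 1192 (.use 671) .no .no (.br 1347 (.hor [.f 1346 1 5]
  []) .no (.br 1193 .no .no .no (.hor [.f 1184 3 5] []) (.br 1466 (.br 1328 (.br 1331 (.use 650)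
  .no .no (.con 136 [4, 4, 1, 1, 1]) .no .no) .no .no (.hor [.f 1320 3 5] []) .no .no) .no .no
  (.red [.t 1329 4 2, .t 1465 2 4, .t 1336 2 4] 167 136 [4, 1, 1] [(166, 167, [4]), (167, 136, [4,
  1, 1]), (183, 136, [4, 1, 1, 1])]) (.red [.f 1338 5 1, .f 1337 1 5, .f 1209 5 1, .f 1202 1 3]
  167 136 [4, 1, 1] [(167, 136, [4, 1, 1])]) .no) .no) .no .no .no) (.red [.f 1192 5 3, .f 1193 3
  1, .f 1201 1 5, .f 1201 5 3, .t 1202 3 2, .f 947 3 1] 135 136 [4] [(135, 136, [4]), (151, 136,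
  [4, 1]), (166, 167, [4])]) .no) .no (.red [.f 1200 5 1, .f 1200 1 3] 167 136 [4, 1, 1] [(167,
  136, [4, 1, 1])])) .no .no (.red [.f 1065 5 3, .f 1066 3 1, .f 1074 1 5, .f 1074 5 3, .f 947 3
  1] 135 136 [4] [(135, 136, [4]), (150, 151, [4])]) .no .no) .no (.hor [.f 1218 3 1, .f 1217 1 5]
  [(169, 153, [1])]) .no (.red [.f 1338 5 3, .f 1211 3 1, .t 1345 2 4, .f 1210 1 5, .f 1082 5 1,
  .t 1209 3 2] 152 136 [1] [(152, 136, [1])]) .no)) (.red [.f 816 5 3, .t 945 4 2] 118 136 [2, 4,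
  4] [(118, 136, [2, 4, 4])])) (.con 136 [2, 4, 4, 4]) .no (.hor [.f 930 3 5] []) .no .no) (.red
  [.t 936 2 3, .f 817 1 5] 118 136 [2, 4, 4] [(118, 136, [2, 4, 4])]) .no (.use 704) .no .no)
  (.use 669) .no)

def c10t706 : Tr4 :=
  .br 816 .no (.hor [.f 688 1 5] []) .no .no .no .no

def c10t707 : Tr4 :=
  .br 817 .no (.use 706) .no (.use 684) .no (.red [.f 816 5 1, .f 808 1 3] 118 136 [2, 4, 4]
  [(118, 136, [2, 4, 4])])

def c10t708 : Tr4 :=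
  .br 1200 (.hor [.f 1200 1 5] []) .no .no (.br 1202 (.hor [.f 1201 1 5] []) .no .no (.con 136 [4,
  4, 1, 1]) .no .no) .no .no

def c10t709 : Tr4 :=
  .br 817 .no (.br 936 .no (.use 706) .no (.br 816 .no (.hor [.f 688 1 5] []) .no (.br 937 (.red
  [.t 1064 3 2] 134 136 [4, 4] [(134, 136, [4, 4])]) (.br 938 (.con 136 [2, 4, 4, 4]) (.hor [.f
  809 1 5] []) .no (.con 136 [2, 4, 4, 4]) (.con 136 [2, 4, 4, 4]) .no) .no (.use 278) (.br 809
  .no (.red [.f 681 1 3] 102 136 [2, 4, 2, 4] [(102, 136, [2, 4, 2, 4])]) .no (.br 810 .no (.con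
  136 [2, 4, 4, 4, 2]) .no (.hor [.f 801 3 5] []) (.con 136 [2, 4, 4, 2]) .no) (.red [.f 809 5 1,
  .f 810 1 3] 118 136 [2, 4, 4] [(118, 136, [2, 4, 4])]) .no) .no) .no .no) (.red [.f 936 5 3, .f
  936 3 1] 134 136 [4, 4] [(134, 136, [4, 4])]) .no) .no (.use 681) .no (.br 936 .no (.red [.f 816
  5 1, .f 808 1 3] 118 136 [2, 4, 4] [(118, 136, [2, 4, 4])]) .no (.br 937 (.red [.t 1064 3 2] 134
  136 [4, 4] [(134, 136, [4, 4])]) (.br 938 (.con 136 [2, 4, 4, 4]) (.hor [.f 809 1 5] []) .no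
  (.con 136 [2, 4, 4, 4]) (.con 136 [2, 4, 4, 4]) .no) .no (.hor [.f 928 3 5] []) (.br 808 .no
  (.br 809 .no (.hor [.f 680 1 5] []) .no (.br 810 .no (.con 136 [2, 4, 4, 4, 2]) .no (.hor [.f
  801 3 5] []) (.con 136 [2, 4, 4, 2, 4]) .no) (.red [.f 816 5 3, .f 809 5 1, .f 810 1 3] 118 136
  [2, 4, 4] [(118, 136, [2, 4, 4])]) .no) .no (.red [.f 800 3 1] 117 136 [2, 4, 4, 4] [(117, 136,
  [2, 4, 4, 4])]) (.red [.f 808 5 3, .t 817 4 1] 118 136 [2, 4, 4] [(118, 136, [2, 4, 4])]) .no)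
  .no) (.red [.f 936 5 3, .f 936 3 1] 134 136 [4, 4] [(134, 136, [4, 4])]) .no)

def c10t710 : Tr4 :=
  .br 1072 (.br 1201 (.use 647) .no .no (.br 1065 .no (.br 1064 (.red [.f 1064 1 3, .t 1064 3 2]
  134 136 [4, 4] [(134, 136, [4, 4]), (150, 136, [4, 4, 1])]) (.hor [.f 936 1 5] []) .no (.br 938
  (.hor [.f 937 1 5] []) (.red [.f 810 1 3] 118 136 [2, 4, 4] [(118, 136, [2, 4, 4])]) .no (.br
  936 .no (.use 707) .no (.red [.f 928 3 1, .f 936 1 5, .t 1200 2 4] 150 136 [4, 4, 1] [(133, 117,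
  [1]), (150, 136, [4, 4, 1])]) .no .no) (.br 936 .no (.use 707) .no (.red [.f 928 3 1, .f 936 1
  5, .t 1200 2 4] 150 136 [4, 4, 1] [(133, 117, [1]), (150, 136, [4, 4, 1])]) .no .no) .no) .no
  .no) .no (.use 685) (.red [.f 1065 5 3, .f 1065 3 1] 150 136 [4, 4, 1] [(150, 136, [4, 4, 1])])
  (.red [.t 1200 2 4] 150 136 [4, 4, 1] [(150, 136, [4, 4, 1])])) (.hor [.f 1073 5 1, .f 1072 1 5,
  .f 1074 1 5] []) .no) .no .no (.use 709) .no .no

def c10t711 : Tr4 :=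
  .br 971 (.use 544) (.br 1098 (.use 403) .no (.br 832 .no (.hor [.f 704 1 5] []) (.br 841 .no
  (.use 596) (.br 945 .no (.hor [.f 817 1 5] []) .no (.br 944 (.br 1201 (.use 642) .no .no (.use
  641) (.red [.f 1073 5 1, .f 1073 1 5, .f 1201 5 3, .t 1202 3 2] 151 136 [4, 1] [(151, 136, [4,
  1])]) (.use 691)) (.con 136 [2, 4, 4]) .no (.hor [.f 936 3 5] []) .no .no) .no (.use 693)) .no
  (.red [.t 961 3 2, .f 961 5 1, .t 960 4 1, .t 840 4 1] 136 136 [] [(136, 136, [])]) .no) .no .no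
  .no) .no (.br 832 .no (.hor [.f 704 1 5] []) (.br 841 .no (.use 596) (.br 945 .no (.hor [.f 817
  1 5] []) .no (.br 944 (.br 1201 (.use 642) .no .no (.use 641) (.red [.f 1073 5 1, .f 1073 1 5,
  .f 1201 5 3, .t 1202 3 2] 151 136 [4, 1] [(151, 136, [4, 1])]) (.br 1337 (.br 1218 (.hor [.f
  1217 1 5] []) .no (.br 1219 (.use 612) .no (.hor [.f 1218 3 5] []) (.br 1338 (.hor [.f 1337 1 5]
  []) .no (.red [.t 1345 2 4, .t 1216 2 4] 152 136 [1] [(152, 136, [1]), (168, 136, [1, 1])])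
  (.use 638) (.br 1097 (.use 618) .no (.br 1096 (.con 136 [3, 3, 1]) (.br 1225 (.hor [.f 1217 1 3,
  .f 1217 3 5] [(169, 153, [1])]) .no (.hor [.f 1097 3 1, .t 1225 2 4, .f 961 3 1, .f 968 1 5]
  [(137, 136, [3]), (153, 136, [3, 1]), (154, 136, [3, 3, 1])]) .no .no (.use 705)) (.hor [.f 1096
  3 5] []) .no .no .no) .no .no (.br 1225 (.hor [.f 1217 1 3, .f 1217 3 5] [(169, 153, [1])]) .no
  (.use 656) .no .no (.use 705))) .no) .no .no) .no (.use 688) .no) .no .no (.red [.t 1336 2 4]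
  167 136 [4, 1, 1] [(167, 136, [4, 1, 1])]) (.red [.f 1209 5 1, .f 1209 1 3, .t 1216 2 4, .f 952
  3 1, .f 944 1 3] 136 136 [] [(135, 136, [4]), (136, 136, []), (152, 136, [1]), (168, 136, [1,
  1])]) .no)) (.con 136 [2, 4, 4]) .no (.hor [.f 936 3 5] []) .no .no) .no (.use 710)) .no (.red
  [.t 961 3 2, .f 961 5 1, .t 960 4 1, .t 840 4 1] 136 136 [] [(136, 136, [])]) .no) .no .no .no)
  (.red [.f 1089 5 3, .f 961 3 1, .t 960 4 1] 136 136 [] [(136, 136, []), (137, 136, [3])])) (.hor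
  [.f 970 3 5] []) .no .no .no

def c10t712 : Tr4 :=
  .br 1072 (.br 1201 (.use 647) .no .no (.br 1065 .no (.red [.t 937 1 3, .t 946 1 3] 135 136 [4]
  [(134, 136, [4, 4]), (135, 136, [4])]) .no (.use 685) (.red [.f 1065 5 3, .f 938 3 1, .t 946 1
  3, .f 955 1 3] 136 136 [] [(134, 136, [4, 4]), (135, 136, [4]), (136, 136, [])]) (.red [.t 1200
  2 4, .f 936 3 1] 134 136 [4, 4] [(134, 136, [4, 4]), (150, 136, [4, 4, 1])])) (.hor [.f 1073 5
  1, .f 1072 1 5, .f 1074 1 5] []) .no) .no .no (.red [.f 936 3 1] 134 136 [4, 4] [(134, 136, [4,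
  4])]) .no .no

def c10t713 : Tr4 :=
  .br 944 (.red [.t 817 1 3, .t 944 1 3] 135 136 [4] [(119, 136, [2, 4]), (135, 136, [4])]) .no
  .no (.use 712) .no .no

def c10t714 : Tr4 :=
  .br 842 .no .no (.hor [.f 842 3 1, .f 834 1 3, .f 961 3 5] [(121, 137, [2]), (122, 138, [2])])
  .no .no .no

def c10t715 : Tr4 :=
  .br 818 .no (.br 698 .no (.br 832 .no (.hor [.f 704 1 5] []) (.br 841 .no (.use 596) (.br 699
  .no (.hor [.f 570 1 5] []) (.con 136 [2, 2, 3, 1, 4]) (.br 835 .no (.br 696 .no (.br 706 .no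
  (.hor [.f 697 1 3, .f 570 1 3, .f 697 3 5] [(88, 136, [2, 2, 2]), (104, 136, [2, 2])]) (.use
  714) .no .no .no) (.hor [.f 697 1 3, .f 696 3 5] [(104, 136, [2, 2])]) (.hor [.f 688 3 1, .f 696
  1 5, .t 690 1 3] []) .no .no) .no .no .no .no) .no .no) .no (.red [.t 961 3 2, .f 961 5 1, .t
  960 4 1, .t 840 4 1] 136 136 [] [(136, 136, [])]) .no) .no .no .no) (.hor [.f 697 1 3, .f 697 3
  5] [(104, 136, [2, 2])]) .no (.red [.f 698 5 1, .f 697 1 3, .t 833 4 1, .t 962 4 1] 136 136 []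
  [(104, 136, [2, 2]), (120, 136, [2]), (136, 136, [])]) .no) .no (.hor [.f 810 3 1, .f 817 1 5]
  [(118, 120, [4, 4])]) (.red [.f 818 5 3, .t 817 1 3, .t 944 1 3] 135 136 [4] [(119, 136, [2,
  4]), (135, 136, [4])]) .no

def c10t716 : Tr4 :=
  .br 824 .no (.hor [.f 696 1 5] []) (.hor [.f 697 1 3, .f 824 3 5] [(104, 136, [2, 2])]) (.br 971
  (.use 544) (.br 826 .no (.hor [.f 697 1 5] []) .no (.use 713) (.br 944 (.use 715) .no .no (.use
  712) .no .no) .no) (.hor [.f 970 3 5] []) .no .no .no) .no .no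

def c10t717 : Tr4 :=
  .br 827 .no (.hor [.f 698 1 5] []) (.hor [.f 690 1 3, .t 817 1 3, .f 826 1 3, .f 826 3 5] [(103,
  136, [2, 2, 4]), (119, 136, [2, 4]), (120, 136, [2])]) (.red [.f 690 1 3] 103 136 [2, 2, 4]
  [(103, 136, [2, 2, 4])]) .no .no

def c10t718 : Tr4 :=
  .br 698 .no (.red [.f 568 1 3, .t 704 4 1, .t 833 4 1, .t 962 4 1] 136 136 [] [(88, 136, [2, 2,
  2]), (104, 136, [2, 2]), (120, 136, [2]), (136, 136, [])]) (.br 835 .no (.br 697 .no (.hor [.f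
  568 1 5] []) .no (.hor [.t 706 4 1, .f 690 1 3, .f 689 3 5] [(103, 136, [2, 2, 4]), (104, 136,
  [2, 2])]) .no .no) .no .no .no .no) .no (.red [.f 568 1 3, .t 704 4 1, .t 833 4 1, .t 962 4 1]
  136 136 [] [(88, 136, [2, 2, 2]), (104, 136, [2, 2]), (120, 136, [2]), (136, 136, [])]) (.red
  [.f 568 1 3, .t 704 4 1, .t 833 4 1, .t 962 4 1] 136 136 [] [(88, 136, [2, 2, 2]), (104, 136,
  [2, 2]), (120, 136, [2]), (136, 136, [])])

def c10t719 : Tr4 :=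
  .br 691 (.hor [.f 690 1 5] []) (.red [.f 563 1 3, .t 690 1 3, .t 817 1 3, .t 944 1 3] 135 136
  [4] [(87, 136, [2, 2, 4, 2]), (103, 136, [2, 2, 4]), (119, 136, [2, 4]), (135, 136, [4])]) .no
  (.br 819 .no .no .no (.hor [.f 683 3 1, .f 690 1 5] [(102, 104, [4, 4])]) .no .no) .no .no

def c10t720 : Tr4 :=
  .br 1352 (.hor [.f 1352 1 5] []) .no .no .no .no .no

def c10t721 : Tr4 :=
  .br 1353 (.use 720) .no (.hor [.t 1360 2 4, .f 1217 1 3, .f 1217 3 5] [(169, 153, [1]), (170,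
  154, [1])]) .no (.red [.t 1217 1 3, .f 1089 5 1, .t 1218 2 4, .f 1075 1 3] 152 136 [1] [(151,
  136, [4, 1]), (152, 136, [1]), (169, 153, [1])]) (.red [.f 1224 5 1, .f 1217 1 3, .f 1217 3 5,
  .f 1089 5 1, .t 1218 2 4] 152 136 [1] [(152, 136, [1]), (169, 153, [1])])

def c10t722 : Tr4 :=
  .br 1232 (.br 1227 (.use 468) .no (.use 721) .no .no .no) .no (.red [.f 1104 3 1, .t 1104 1 4,
  .t 1225 2 4, .t 1218 2 4] 152 136 [1] [(152, 136, [1]), (153, 136, [3, 1]), (154, 136, [3, 3,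
  1]), (155, 136, [3, 3, 1, 3])]) .no (.red [.f 1224 5 3, .f 1097 3 1, .t 1225 2 4, .t 1218 2 4]
  152 136 [1] [(152, 136, [1]), (153, 136, [3, 1]), (154, 136, [3, 3, 1])]) .no

def c10t723 : Tr4 :=
  .br 1225 (.hor [.f 1217 1 3, .f 1217 3 5] [(169, 153, [1])]) .no (.hor [.f 1097 3 1, .t 1225 2
  4, .f 961 3 1, .f 968 1 5] [(137, 136, [3]), (153, 136, [3, 1]), (154, 136, [3, 3, 1])]) .no .no
  (.br 1346 (.br 1106 (.use 469) .no (.br 1104 (.red [.t 1104 1 4, .t 1225 2 4, .t 1218 2 4] 152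
  136 [1] [(152, 136, [1]), (153, 136, [3, 1]), (154, 136, [3, 3, 1])]) (.hor [.f 968 1 3, .f 1096
  3 5] [(138, 137, [3])]) (.br 1344 (.use 722) .no (.hor [.t 1344 3 2, .f 1217 3 5] [(169, 153,
  [1])]) .no .no .no) .no .no .no) .no (.red [.f 1098 5 3, .f 970 3 1, .t 969 4 1, .t 960 4 1, .t
  1105 4 2] 136 136 [] [(136, 136, []), (137, 136, [3])]) .no) .no (.hor [.f 1218 3 1, .f 1217 1
  5] [(169, 153, [1])]) .no (.red [.f 1338 5 3, .f 1211 3 1, .t 1345 2 4, .f 1210 1 5, .f 1082 5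
  1, .t 1209 3 2] 152 136 [1] [(152, 136, [1])]) .no)

def c10t724 : Tr4 :=
  .br 1096 (.con 136 [3, 3, 1]) (.use 723) (.hor [.f 1096 3 5] []) .no .no .no

def c10t725 : Tr4 :=
  .br 1225 (.hor [.f 1217 1 3, .f 1217 3 5] [(169, 153, [1])]) .no (.use 656) .no .no (.red [.f
  1096 5 1, .t 1225 2 4, .t 1218 2 4, .f 1075 1 3] 152 136 [1] [(151, 136, [4, 1]), (152, 136,
  [1]), (153, 136, [3, 1])])

def c10t726 : Tr4 :=
  .br 1218 (.hor [.f 1217 1 5] []) .no (.br 1219 (.use 612) .no (.hor [.f 1218 3 5] []) (.br 1338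
  (.hor [.f 1337 1 5] []) .no (.red [.t 1345 2 4, .t 1216 2 4] 152 136 [1] [(152, 136, [1]), (168,
  136, [1, 1])]) (.use 638) (.br 1097 (.use 618) .no (.use 724) .no .no (.use 725)) .no) .no .no)
  .no (.use 688) .no

def c10t727 : Tr4 :=
  .br 1201 (.use 647) .no .no (.br 1065 .no (.red [.t 937 1 3, .t 946 1 3] 135 136 [4] [(134, 136,
  [4, 4]), (135, 136, [4])]) .no (.use 685) (.red [.f 1065 5 3, .f 938 3 1, .t 946 1 3, .f 955 1
  3] 136 136 [] [(134, 136, [4, 4]), (135, 136, [4]), (136, 136, [])]) (.red [.t 1200 2 4] 150 136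
  [4, 4, 1] [(150, 136, [4, 4, 1])])) (.hor [.f 1073 5 1, .f 1072 1 5, .f 1074 1 5] []) .no

def c10l28 : List Tr4 :=
  [c10t704, c10t705, c10t706, c10t707, c10t708, c10t709, c10t710, c10t711, c10t712, c10t713,
  c10t714, c10t715, c10t716, c10t717, c10t718, c10t719, c10t720, c10t721, c10t722, c10t723,
  c10t724, c10t725, c10t726, c10t727]

theorem c10k28 : chkLF ⟨4, 0, 0, true, -8⟩ true 0 c10N 704 c10l28 = true := by decide +kernel

def c10t728 : Tr4 :=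
  .br 937 .no (.red [.t 808 3 1, .f 937 3 5, .f 945 5 1, .t 946 1 3] 135 136 [4] [(118, 117, [3]),
  (135, 136, [4])]) .no (.use 278) .no (.red [.t 1064 3 1, .f 936 5 1, .t 937 1 3] 134 136 [4, 4]
  [(134, 136, [4, 4]), (150, 134, [1])])

def c10t729 : Tr4 :=
  .br 826 .no (.br 818 .no (.red [.f 690 1 3] 103 136 [2, 2, 4] [(103, 136, [2, 2, 4])]) .no (.red
  [.f 810 3 1, .t 817 3 1, .f 946 3 5, .t 834 1 4, .t 962 4 1] 136 136 [] [(118, 134, [2]), (119,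
  103, [1]), (120, 136, [2]), (136, 136, [])]) (.br 697 .no (.use 240) .no (.red [.f 689 3 1, .f
  697 1 5] 103 136 [2, 2, 4] [(103, 136, [2, 2, 4])]) .no (.br 816 .no (.red [.t 832 4 2, .t 696 1
  3, .t 816 2 3, .f 697 1 5] 103 136 [2, 2, 4] [(103, 136, [2, 2, 4])]) .no (.use 728) .no .no))
  .no) .no (.hor [.f 817 3 5] []) .no .no

def c10t730 : Tr4 :=
  .br 816 .no (.red [.t 832 4 2, .t 696 1 3, .t 816 2 3, .f 697 1 5] 103 136 [4, 2, 2] [(103, 136,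
  [4, 2, 2])]) .no (.red [.t 808 3 1, .f 937 3 5, .f 945 5 1, .t 946 1 3] 135 136 [4] [(118, 117,
  [3]), (135, 136, [4])]) .no .no

def c10t731 : Tr4 :=
  .br 826 .no (.br 818 .no (.red [.f 690 1 3] 103 136 [2, 2, 4] [(103, 136, [2, 2, 4])]) .no (.red
  [.f 810 3 1, .t 817 3 1, .f 946 3 5, .t 834 1 4, .t 962 4 1] 136 136 [] [(118, 134, [2]), (119,
  103, [1]), (120, 136, [2]), (136, 136, [])]) (.br 697 .no (.use 240) .no (.red [.f 689 3 1, .f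
  697 1 5] 103 136 [2, 2, 4] [(103, 136, [2, 2, 4])]) .no (.use 730)) .no) .no (.hor [.f 817 3 5]
  []) .no .no

def c10t732 : Tr4 :=
  .br 945 .no (.br 825 .no (.use 716) .no .no (.red [.f 825 5 1, .f 826 1 3, .t 962 4 1] 136 136
  [] [(120, 136, [2]), (136, 136, [])]) (.br 944 (.br 1201 (.use 642) .no .no (.use 641) (.red [.f
  1073 5 1, .f 1073 1 5, .f 1201 5 3, .t 1202 3 2] 151 136 [4, 1] [(151, 136, [4, 1])]) (.br 971
  (.use 544) (.br 1098 (.use 403) .no (.br 832 .no (.hor [.f 704 1 5] []) (.br 841 .no (.use 596)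
  (.use 691) .no (.red [.t 961 3 2, .f 961 5 1, .t 960 4 1, .t 840 4 1] 136 136 [] [(136, 136,
  [])]) .no) .no .no .no) .no (.br 832 .no (.hor [.f 704 1 5] []) (.br 841 .no (.use 596) (.br
  1337 (.use 726) .no .no (.red [.t 1336 2 4] 167 136 [4, 1, 1] [(167, 136, [4, 1, 1])]) (.red [.f
  1209 5 1, .f 1209 1 3, .t 1216 2 4, .f 952 3 1, .f 944 1 3] 136 136 [] [(135, 136, [4]), (136,
  136, []), (152, 136, [1]), (168, 136, [1, 1])]) .no) .no (.red [.t 961 3 2, .f 961 5 1, .t 960 4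
  1, .t 840 4 1] 136 136 [] [(136, 136, [])]) .no) .no .no .no) (.red [.f 1089 5 3, .f 961 3 1, .t
  960 4 1] 136 136 [] [(136, 136, []), (137, 136, [3])])) (.hor [.f 970 3 5] []) .no .no .no))
  (.hor [.f 816 1 5] []) .no (.use 712) .no .no)) .no (.hor [.f 937 3 5] []) .no (.br 832 .no
  (.hor [.f 704 1 5] []) (.br 971 (.use 544) (.br 1098 (.use 403) .no (.br 841 .no (.use 596)
  (.use 693) .no (.red [.t 961 3 2, .f 961 5 1, .t 960 4 1, .t 840 4 1] 136 136 [] [(136, 136,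
  [])]) .no) .no (.br 841 .no (.use 596) (.br 1337 (.use 726) .no .no (.use 692) (.red [.f 1209 5
  1, .f 1209 1 3, .t 1216 2 4] 152 136 [1] [(152, 136, [1]), (168, 136, [1, 1])]) .no) .no (.red
  [.t 961 3 2, .f 961 5 1, .t 960 4 1, .t 840 4 1] 136 136 [] [(136, 136, [])]) .no) (.red [.f
  1089 5 3, .f 961 3 1, .t 960 4 1] 136 136 [] [(136, 136, []), (137, 136, [3])])) (.hor [.f 970 3
  5] []) .no .no .no) (.br 825 .no (.hor [.f 697 1 3, .f 824 3 5] [(104, 136, [2, 2])]) .no (.br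
  827 .no (.con 136 [2, 2]) (.br 1072 (.use 727) .no .no (.br 1201 (.use 708) .no .no (.use 649)
  (.red [.f 1073 5 1, .f 1073 1 5, .f 1201 5 3, .t 1202 3 2] 151 136 [4, 1] [(151, 136, [4, 1])])
  (.br 1065 (.use 729) (.red [.t 1064 3 2, .f 937 3 5] 134 136 [4, 4] [(134, 136, [4, 4])]) .no
  (.br 937 .no (.use 731) .no (.red [.f 929 3 1, .t 937 1 3] 134 136 [4, 4] [(133, 136, [4, 4,
  4]), (134, 136, [4, 4])]) .no (.red [.f 936 5 3, .f 936 3 1] 134 136 [4, 4] [(134, 136, [4,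
  4])])) (.red [.f 1065 5 3, .f 938 3 1, .t 946 1 3, .f 955 1 3] 136 136 [] [(134, 136, [4, 4]),
  (135, 136, [4]), (136, 136, [])]) .no)) .no .no) (.con 136 [2, 2]) .no (.con 136 [2, 2])) (.red
  [.f 824 3 1, .f 825 5 1, .f 826 1 3, .t 962 4 1] 136 136 [] [(136, 136, [])]) .no) .no .no)

def c10t733 : Tr4 :=
  .br 944 .no .no .no (.use 712) .no .no

def c10t734 : Tr4 :=
  .br 1337 (.use 688) .no .no (.use 692) (.red [.f 1209 5 1, .f 1209 1 3] 168 136 [1, 1] [(168,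
  136, [1, 1])]) .no

def c10t735 : Tr4 :=
  .br 1097 (.br 1218 (.hor [.f 1217 1 5] []) .no (.use 618) .no (.use 734) .no) .no (.hor [.f 1097
  3 5] []) .no .no (.br 1218 (.hor [.f 1217 1 5] []) .no (.use 683) .no (.use 734) .no)

def c10t736 : Tr4 :=
  .br 1104 (.red [.t 1232 2 4, .t 1225 2 4, .t 1218 2 4] 152 136 [1] [(152, 136, [1]), (153, 136,
  [3, 1]), (154, 136, [3, 3, 1])]) .no (.br 979 (.red [.t 978 4 1, .t 969 4 1, .t 960 4 1] 136 136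
  [] [(136, 136, []), (137, 136, [3]), (138, 136, [3, 3])]) (.hor [.f 843 1 3, .f 970 3 5] [(122,
  138, [2])]) (.use 587) .no .no .no) .no (.red [.f 1096 5 3, .f 1097 3 1, .t 1225 2 4, .t 1218 2
  4] 152 136 [1] [(152, 136, [1]), (153, 136, [3, 1]), (154, 136, [3, 3, 1])]) .no

def c10t737 : Tr4 :=
  .br 968 .no (.hor [.t 968 2 4, .f 833 1 5] [(121, 137, [2])]) (.br 1225 (.hor [.f 1217 1 3, .f
  1217 3 5] [(169, 153, [1])]) .no (.use 736) .no .no (.red [.f 1096 5 1, .t 1225 2 4, .t 1218 2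
  4, .f 1075 1 3] 152 136 [1] [(151, 136, [4, 1]), (152, 136, [1]), (153, 136, [3, 1])])) .no .no
  .no

def c10t738 : Tr4 :=
  .br 841 .no (.use 596) (.use 737) .no (.red [.t 961 3 2, .f 961 5 1, .t 960 4 1] 136 136 []
  [(121, 120, [3]), (136, 136, [])]) (.red [.f 832 5 3, .f 833 3 1, .f 833 1 5, .f 953 5 3, .t 962
  4 1] 136 136 [] [(121, 120, [3]), (136, 136, [])])

def c10t739 : Tr4 :=
  .br 1338 (.hor [.f 1337 1 5] []) .no (.red [.t 1345 2 4, .t 1216 2 4] 152 136 [1] [(152, 136,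
  [1]), (168, 136, [1, 1])]) (.use 638) (.br 1097 (.use 618) .no (.use 724) .no .no (.use 738))
  .no

def c10t740 : Tr4 :=
  .br 1218 (.hor [.f 1217 1 5] []) .no (.br 1219 (.use 612) .no (.hor [.f 1218 3 5] []) (.br 1097
  (.use 618) .no (.br 1096 (.con 136 [3, 3, 1]) (.br 1338 (.br 1337 (.use 739) .no .no (.use 692)
  .no .no) .no (.red [.t 1345 2 4, .t 1216 2 4] 152 136 [1] [(152, 136, [1]), (168, 136, [1, 1])])
  (.use 639) (.use 723) (.red [.f 1209 5 1, .f 1209 1 3, .t 1216 2 4] 152 136 [1] [(152, 136,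
  [1]), (168, 136, [1, 1])])) (.hor [.f 1096 3 5] []) .no .no .no) .no .no (.use 738)) .no .no)
  .no (.use 734) .no

def c10t741 : Tr4 :=
  .br 825 .no (.br 824 .no (.hor [.f 696 1 5] []) .no (.br 971 (.use 544) (.br 1098 (.use 403) .no
  (.br 841 .no (.use 596) (.br 945 .no (.br 1072 (.use 727) (.br 1201 (.use 642) .no .no (.use
  641) (.red [.f 1073 5 1, .f 1073 1 5, .f 1201 5 3, .t 1202 3 2] 151 136 [4, 1] [(151, 136, [4,
  1])]) (.br 1337 (.br 1097 (.use 689) .no (.hor [.f 1097 3 5] []) .no .no (.br 1218 (.hor [.f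
  1217 1 5] []) .no (.use 683) .no (.use 688) .no)) .no .no (.red [.t 1336 2 4] 167 136 [4, 1, 1]
  [(167, 136, [4, 1, 1])]) (.red [.f 1209 5 1, .f 1209 1 3, .t 1216 2 4, .f 952 3 1, .f 944 1 3]
  136 136 [] [(135, 136, [4]), (136, 136, []), (152, 136, [1]), (168, 136, [1, 1])]) .no)) .no
  (.use 733) .no .no) .no (.hor [.f 937 3 5] []) .no (.use 735)) .no (.red [.t 961 3 2, .f 961 5
  1, .t 960 4 1] 136 136 [] [(121, 120, [3]), (136, 136, [])]) (.red [.f 832 5 3, .f 833 3 1, .f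
  833 1 5, .f 953 5 3, .t 962 4 1] 136 136 [] [(121, 120, [3]), (136, 136, [])])) .no (.br 945 .no
  (.br 1072 (.use 727) (.br 1201 (.use 642) .no .no (.use 641) (.red [.f 1073 5 1, .f 1073 1 5, .f
  1201 5 3, .t 1202 3 2] 151 136 [4, 1] [(151, 136, [4, 1])]) (.br 1337 (.br 1218 (.hor [.f 1217 1
  5] []) .no (.br 1219 (.use 612) .no (.hor [.f 1218 3 5] []) (.use 739) .no .no) .no (.use 688)
  .no) .no .no (.red [.t 1336 2 4] 167 136 [4, 1, 1] [(167, 136, [4, 1, 1])]) (.red [.f 1209 5 1,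
  .f 1209 1 3, .t 1216 2 4, .f 952 3 1, .f 944 1 3] 136 136 [] [(135, 136, [4]), (136, 136, []),
  (152, 136, [1]), (168, 136, [1, 1])]) .no)) .no (.use 733) .no .no) .no (.hor [.f 937 3 5] [])
  .no (.use 740)) (.red [.f 1089 5 3, .f 961 3 1, .t 960 4 1] 136 136 [] [(136, 136, []), (137,
  136, [3])])) (.hor [.f 970 3 5] []) .no .no .no) .no .no) .no (.br 971 (.use 544) (.br 1098
  (.use 403) .no (.br 841 .no (.use 596) (.br 945 .no .no .no (.hor [.f 937 3 5] []) .no (.use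
  735)) .no (.red [.t 961 3 2, .f 961 5 1, .t 960 4 1] 136 136 [] [(121, 120, [3]), (136, 136,
  [])]) (.red [.f 832 5 3, .f 833 3 1, .f 833 1 5, .f 953 5 3, .t 962 4 1] 136 136 [] [(121, 120,
  [3]), (136, 136, [])])) .no (.br 945 .no .no .no (.hor [.f 937 3 5] []) .no (.use 740)) (.red
  [.f 1089 5 3, .f 961 3 1, .t 960 4 1] 136 136 [] [(136, 136, []), (137, 136, [3])])) (.hor [.f
  970 3 5] []) .no .no .no) (.red [.f 825 5 1, .f 826 1 3, .t 962 4 1] 136 136 [] [(120, 136,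
  [2]), (136, 136, [])]) (.red [.f 824 5 3, .t 833 4 1, .t 962 4 1] 136 136 [] [(120, 136, [2]),
  (136, 136, [])])

def c10t742 : Tr4 :=
  .br 1073 (.hor [.f 1073 1 5] []) (.con 136 [4, 1, 4]) .no (.con 136 [4, 1, 4]) .no (.con 136 [4,
  4, 1])

def c10t743 : Tr4 :=
  .br 945 .no (.hor [.f 817 1 5] []) .no (.use 680) .no (.br 1072 (.con 136 [4, 4, 1]) .no .no
  (.use 682) .no .no)

def c10t744 : Tr4 :=
  .br 1337 (.hor [.f 1337 1 5] []) .no .no (.br 1201 .no .no .no (.use 641) (.use 442) (.red [.t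
  1336 2 4] 167 136 [4, 1, 1] [(167, 136, [4, 1, 1])])) .no .no

def c10t745 : Tr4 :=
  .br 817 .no (.use 667) .no (.red [.f 809 3 1, .f 817 1 5] 118 136 [2, 4, 4] [(118, 136, [2, 4,
  4])]) .no (.use 669)

def c10t746 : Tr4 :=
  .br 825 .no (.br 833 .no (.br 824 .no (.hor [.f 696 1 5] []) (.hor [.f 697 1 3, .f 824 3 5]
  [(104, 136, [2, 2])]) (.use 743) .no .no) (.hor [.f 833 3 1, .f 833 1 5] [(121, 120, [3])]) .no
  .no (.br 824 .no (.hor [.f 696 1 5] []) .no (.use 743) .no .no)) (.red [.t 833 4 1, .t 962 4 1]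
  136 136 [] [(120, 136, [2]), (136, 136, [])]) (.red [.t 817 3 1, .f 946 3 5, .f 954 5 1, .f 955
  1 3] 136 136 [] [(119, 118, [3]), (136, 136, [])]) (.red [.f 825 5 1, .f 826 1 3, .t 962 4 1]
  136 136 [] [(120, 136, [2]), (136, 136, [])]) (.br 833 .no (.br 945 .no (.hor [.f 817 1 5] [])
  .no (.br 944 (.br 938 (.red [.t 937 3 1, .f 1066 3 5, .f 1074 5 3, .f 947 3 1] 135 136 [4]
  [(134, 118, [1]), (135, 136, [4])]) (.red [.f 810 1 3] 118 136 [2, 4, 4] [(118, 136, [2, 4,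
  4])]) .no (.br 817 .no (.use 698) .no (.red [.f 809 3 1, .f 817 1 5] 118 136 [2, 4, 4] [(118,
  136, [2, 4, 4])]) .no (.br 936 (.br 810 .no (.use 700) .no (.red [.f 802 3 1, .f 810 1 3] 118
  136 [2, 4, 4] [(117, 136, [2, 4, 4, 4]), (118, 136, [2, 4, 4])]) (.br 939 .no .no .no (.hor [.f
  930 3 5] []) .no .no) (.red [.f 816 5 3, .t 945 4 2] 118 136 [2, 4, 4] [(118, 136, [2, 4, 4])]))
  (.red [.t 936 2 3, .f 817 1 5] 118 136 [2, 4, 4] [(118, 136, [2, 4, 4])]) .no (.use 704) .no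
  .no)) (.use 745) .no) (.con 136 [2, 4, 4]) .no (.hor [.f 936 3 5] []) .no .no) .no (.br 1072
  (.con 136 [4, 4, 1]) .no .no (.use 709) .no .no)) (.hor [.f 833 3 1, .f 833 1 5] [(121, 120,
  [3])]) .no .no (.red [.f 824 5 3, .t 833 4 1, .t 962 4 1] 136 136 [] [(120, 136, [2]), (136,
  136, [])]))

def c10t747 : Tr4 :=
  .br 944 .no .no .no (.red [.f 936 3 1] 134 136 [4, 4] [(134, 136, [4, 4])]) .no .no

def c10t748 : Tr4 :=
  .br 824 .no (.hor [.f 696 1 5] []) (.hor [.f 697 1 3, .f 824 3 5] [(104, 136, [2, 2])]) (.br 971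
  (.use 544) (.br 826 .no (.hor [.f 697 1 5] []) .no (.br 1072 (.con 136 [4, 4, 1]) (.red [.t 817
  1 3, .t 944 1 3] 135 136 [4] [(119, 136, [2, 4]), (135, 136, [4])]) .no (.use 747) .no .no) (.br
  1072 (.con 136 [4, 4, 1]) (.use 715) .no (.use 747) .no .no) .no) (.hor [.f 970 3 5] []) .no .no
  .no) .no .no

def c10t749 : Tr4 :=
  .br 1218 (.hor [.f 1217 1 5] []) .no (.br 1219 (.use 617) .no (.hor [.f 1218 3 5] []) (.use 639)
  .no .no) .no (.use 443) .no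

def c10t750 : Tr4 :=
  .br 1096 (.con 136 [3, 3, 1]) (.br 1225 (.hor [.f 1217 1 3, .f 1217 3 5] [(169, 153, [1])]) .no
  (.hor [.f 1097 3 1, .t 1225 2 4, .f 961 3 1, .f 968 1 5] [(137, 136, [3]), (153, 136, [3, 1]),
  (154, 136, [3, 3, 1])]) .no .no (.br 1346 (.br 1106 (.use 469) .no (.br 1104 (.red [.t 1104 1 4,
  .t 1225 2 4, .t 1218 2 4] 152 136 [1] [(152, 136, [1]), (153, 136, [3, 1]), (154, 136, [3, 3,
  1])]) (.hor [.f 968 1 3, .f 1096 3 5] [(138, 137, [3])]) (.br 1344 (.br 1232 (.br 1353 (.use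
  720) .no (.br 1347 (.hor [.f 1346 1 5] []) .no (.hor [.t 1360 2 4, .f 1217 1 3, .f 1217 3 5]
  [(169, 153, [1]), (170, 153, [1, 3])]) .no .no .no) .no (.red [.t 1217 1 3, .f 1209 5 3, .t 1216
  2 4] 152 136 [1] [(152, 136, [1]), (169, 153, [1])]) (.red [.f 1224 5 1, .f 1217 1 3, .f 1217 3
  5, .f 1089 5 1, .t 1218 2 4] 152 136 [1] [(152, 136, [1]), (169, 153, [1])])) .no (.red [.f 1104
  3 1, .t 1104 1 4, .t 1225 2 4, .t 1218 2 4] 152 136 [1] [(152, 136, [1]), (153, 136, [3, 1]),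
  (154, 136, [3, 3, 1]), (155, 136, [3, 3, 1, 3])]) .no (.red [.f 1224 5 3, .f 1097 3 1, .t 1225 2
  4, .t 1218 2 4] 152 136 [1] [(152, 136, [1]), (153, 136, [3, 1]), (154, 136, [3, 3, 1])]) .no)
  .no (.hor [.t 1344 3 2, .f 1217 3 5] [(169, 153, [1])]) .no .no .no) .no .no .no) .no (.red [.f
  1098 5 3, .f 970 3 1, .t 969 4 1, .t 960 4 1, .t 1105 4 2] 136 136 [] [(136, 136, []), (137,
  136, [3])]) .no) .no (.hor [.f 1218 3 1, .f 1217 1 5] [(169, 153, [1])]) .no (.red [.f 1338 5 3,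
  .f 1211 3 1, .t 1345 2 4, .f 1210 1 5, .f 1082 5 1, .t 1209 3 2] 152 136 [1] [(152, 136, [1])])
  .no)) (.hor [.f 1096 3 5] []) .no .no .no

def c10t751 : Tr4 :=
  .br 1218 (.hor [.f 1217 1 5] []) .no (.br 1219 (.con 136 [1, 1, 4]) .no (.con 136 [1, 1, 4])
  (.br 1097 (.use 618) .no (.use 750) .no .no (.br 1225 (.hor [.f 1217 1 3, .f 1217 3 5] [(169,
  153, [1])]) .no (.use 656) .no .no (.red [.f 1096 5 1, .t 1225 2 4, .t 1218 2 4] 152 136 [1]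
  [(152, 136, [1]), (153, 136, [3, 1])]))) .no .no) .no (.con 136 [1, 1, 4]) .no

def c10t752 : Tr4 :=
  .br 1072 (.con 136 [4, 4, 1]) .no .no (.red [.f 936 3 1] 134 136 [4, 4] [(134, 136, [4, 4])])
  .no .no

def c10t753 : Tr4 :=
  .br 816 .no (.hor [.f 688 1 3, .f 816 3 5] [(103, 136, [2, 4, 2])]) .no (.red [.t 808 3 1, .f
  937 3 5, .f 945 5 1, .t 946 1 3] 135 136 [4] [(118, 117, [3]), (135, 136, [4])]) .no .no

def c10t754 : Tr4 :=
  .br 1201 .no .no .no (.use 649) (.red [.f 1201 5 3, .f 1201 3 1, .f 1209 1 3] 167 136 [1, 4, 1]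
  [(167, 136, [1, 4, 1]), (168, 136, [1, 1])]) (.red [.t 1336 2 4] 167 136 [1, 4, 1] [(167, 136,
  [1, 4, 1])])

def c10l29 : List Tr4 :=
  [c10t728, c10t729, c10t730, c10t731, c10t732, c10t733, c10t734, c10t735, c10t736, c10t737,
  c10t738, c10t739, c10t740, c10t741, c10t742, c10t743, c10t744, c10t745, c10t746, c10t747,
  c10t748, c10t749, c10t750, c10t751, c10t752, c10t753, c10t754]

theorem c10k29 : chkLF ⟨4, 0, 0, true, -8⟩ true 0 c10N 728 c10l29 = true := by decide +kernel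

def c10t755 : Tr4 :=
  .br 825 .no (.hor [.f 697 1 3, .f 824 3 5] [(104, 136, [2, 2])]) .no (.br 827 .no (.con 136 [2,
  2]) (.use 731) (.con 136 [2, 2]) .no (.con 136 [2, 2])) (.red [.f 824 3 1, .f 825 5 1, .f 826 1
  3, .t 962 4 1] 136 136 [] [(136, 136, [])]) .no

def c10t756 : Tr4 :=
  .br 1219 (.use 617) .no (.hor [.f 1218 3 5] []) (.br 1066 (.br 1202 (.use 654) .no .no .no (.red
  [.t 1066 1 3] 150 136 [4, 1, 4] [(150, 136, [4, 1, 4])]) (.red [.f 1073 5 1, .f 1066 1 3, .f 938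
  3 1] 150 136 [4, 1, 4] [(134, 136, [4, 4]), (150, 136, [4, 1, 4])])) .no .no (.hor [.f 1057 3 5]
  []) .no .no) .no .no

def c10t757 : Tr4 :=
  .br 1218 (.hor [.f 1217 1 5] []) .no (.use 756) .no (.br 1337 (.use 688) .no .no (.use 754) .no
  .no) .no

def c10t758 : Tr4 :=
  .br 945 .no (.br 825 .no (.use 748) .no .no (.red [.f 825 5 1, .f 826 1 3, .t 962 4 1] 136 136
  [] [(120, 136, [2]), (136, 136, [])]) (.br 944 (.br 971 (.use 544) (.br 1098 (.use 403) .no (.br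
  832 .no (.hor [.f 704 1 5] []) (.br 841 .no (.use 596) (.br 1337 (.use 690) .no .no (.br 1201
  .no .no .no (.use 641) (.red [.f 1201 5 3, .f 1201 3 1, .f 1209 1 3] 167 136 [4, 1, 1] [(167,
  136, [4, 1, 1]), (168, 136, [1, 1])]) (.use 691)) (.red [.f 1209 5 1, .f 1209 1 3, .t 1216 2 4,
  .f 952 3 1, .f 944 1 3] 136 136 [] [(135, 136, [4]), (136, 136, []), (152, 136, [1]), (168, 136,
  [1, 1])]) .no) .no (.red [.t 961 3 2, .f 961 5 1, .t 960 4 1, .t 840 4 1] 136 136 [] [(136, 136,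
  [])]) .no) .no .no .no) .no (.br 832 .no (.hor [.f 704 1 5] []) (.br 841 .no (.use 596) (.br
  1338 (.use 744) .no (.red [.t 1345 2 4, .t 1216 2 4] 152 136 [1] [(152, 136, [1]), (168, 136,
  [1, 1])]) (.use 749) (.use 751) (.red [.f 1209 5 1, .f 1209 1 3, .t 1216 2 4, .f 952 3 1, .f 944
  1 3] 136 136 [] [(135, 136, [4]), (136, 136, []), (152, 136, [1]), (168, 136, [1, 1])])) .no
  (.red [.t 961 3 2, .f 961 5 1, .t 960 4 1, .t 840 4 1] 136 136 [] [(136, 136, [])]) .no) .no .no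
  .no) (.red [.f 1089 5 3, .f 961 3 1, .t 960 4 1] 136 136 [] [(136, 136, []), (137, 136, [3])]))
  (.hor [.f 970 3 5] []) .no .no .no) (.hor [.f 816 1 5] []) .no (.use 752) .no .no)) .no (.hor
  [.f 937 3 5] []) .no (.br 1072 (.con 136 [4, 4, 1]) .no .no (.br 1065 (.use 653) (.red [.t 1064
  3 2, .f 937 3 5] 134 136 [4, 4] [(134, 136, [4, 4])]) .no (.br 971 (.use 544) (.br 1098 (.use
  403) .no (.br 937 .no (.br 832 .no (.hor [.f 704 1 5] []) (.br 841 .no (.use 596) (.br 1337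
  (.use 690) .no .no (.use 754) (.red [.f 1209 5 1, .f 1209 1 3, .t 1216 2 4] 152 136 [1] [(152,
  136, [1]), (168, 136, [1, 1])]) .no) .no (.red [.t 961 3 2, .f 961 5 1, .t 960 4 1, .t 840 4 1]
  136 136 [] [(136, 136, [])]) .no) (.use 755) .no .no) .no (.red [.f 929 3 1, .t 937 1 3] 134 136
  [4, 4] [(133, 136, [4, 4, 4]), (134, 136, [4, 4])]) .no (.red [.f 936 5 3, .f 936 3 1] 134 136
  [4, 4] [(134, 136, [4, 4])])) .no (.br 937 .no (.br 832 .no (.hor [.f 704 1 5] []) (.br 841 .no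
  (.use 596) (.br 1338 (.use 757) .no (.red [.t 1345 2 4, .t 1216 2 4] 152 136 [1] [(152, 136,
  [1]), (168, 136, [1, 1])]) (.use 749) (.use 751) (.red [.f 1209 5 1, .f 1209 1 3, .t 1216 2 4]
  152 136 [1] [(152, 136, [1]), (168, 136, [1, 1])])) .no (.red [.t 961 3 2, .f 961 5 1, .t 960 4
  1, .t 840 4 1] 136 136 [] [(136, 136, [])]) .no) (.use 755) .no .no) .no (.red [.f 929 3 1, .t
  937 1 3] 134 136 [4, 4] [(133, 136, [4, 4, 4]), (134, 136, [4, 4])]) .no (.red [.f 936 5 3, .f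
  936 3 1] 134 136 [4, 4] [(134, 136, [4, 4])])) (.red [.f 1089 5 3, .f 961 3 1, .t 960 4 1] 136
  136 [] [(136, 136, []), (137, 136, [3])])) (.hor [.f 970 3 5] []) .no .no .no) (.red [.f 1065 5
  3, .f 938 3 1, .t 946 1 3, .f 955 1 3] 136 136 [] [(134, 136, [4, 4]), (135, 136, [4]), (136,
  136, [])]) .no) .no .no)

def c10t759 : Tr4 :=
  .br 1225 (.hor [.f 1217 1 3, .f 1217 3 5] [(169, 153, [1])]) .no (.use 591) .no .no (.red [.f
  1096 5 1, .t 1225 2 4, .t 1218 2 4] 152 136 [1] [(152, 136, [1]), (153, 136, [1, 3])])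

def c10t760 : Tr4 :=
  .br 968 .no (.hor [.t 968 2 4, .f 833 1 5] [(121, 137, [2])]) (.use 759) .no .no .no

def c10t761 : Tr4 :=
  .br 968 .no (.hor [.t 968 2 4, .f 833 1 5] [(121, 120, [3])]) (.br 841 .no (.use 596) (.br 1225
  (.hor [.f 1217 1 3, .f 1217 3 5] [(169, 153, [1])]) .no (.use 736) .no .no (.red [.f 1096 5 1,
  .t 1225 2 4, .t 1218 2 4] 152 136 [1] [(152, 136, [1]), (153, 136, [3, 1])])) .no (.red [.t 961
  3 2, .f 961 5 1, .t 960 4 1] 136 136 [] [(121, 120, [3]), (136, 136, [])]) (.red [.f 832 5 3, .f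
  833 3 1, .f 833 1 5, .f 953 5 3, .t 962 4 1] 136 136 [] [(121, 120, [3]), (136, 136, [])])) .no
  .no .no

def c10t762 : Tr4 :=
  .br 1072 (.con 136 [4, 4, 1]) (.use 744) .no (.br 1065 (.use 653) (.red [.t 937 1 3, .t 946 1 3]
  135 136 [4] [(134, 136, [4, 4]), (135, 136, [4])]) .no (.use 757) (.red [.f 1065 5 3, .f 938 3
  1, .t 946 1 3, .f 955 1 3] 136 136 [] [(134, 136, [4, 4]), (135, 136, [4]), (136, 136, [])])
  .no) .no .no

def c10t763 : Tr4 :=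
  .br 1075 (.br 1074 (.hor [.f 1074 1 5] []) (.red [.t 946 1 3, .f 955 1 3] 136 136 [] [(135, 136,
  [4]), (136, 136, [])]) .no (.br 946 .no (.br 825 .no (.use 665) (.red [.t 833 4 1, .t 962 4 1]
  136 136 [] [(120, 136, [2]), (136, 136, [])]) (.red [.t 817 3 1, .f 946 3 5, .f 954 5 1, .f 955
  1 3] 136 136 [] [(119, 118, [3]), (136, 136, [])]) (.red [.f 825 5 1, .f 826 1 3, .t 962 4 1]
  136 136 [] [(120, 136, [2]), (136, 136, [])]) (.br 833 .no (.use 677) (.hor [.f 833 3 1, .f 833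
  1 5] [(121, 120, [3])]) .no .no (.red [.f 824 5 3, .t 833 4 1, .t 962 4 1] 136 136 [] [(120,
  136, [2]), (136, 136, [])]))) .no (.red [.f 938 3 1, .t 946 1 3] 135 136 [4] [(134, 136, [4,
  4]), (135, 136, [4])]) .no (.br 1073 (.use 678) .no .no (.hor [.f 1065 3 5] []) .no (.red [.f
  1072 5 3, .f 945 5 3, .f 945 3 1] 135 136 [4] [(135, 136, [4])]))) .no (.br 946 .no (.br 825 .no
  (.use 687) (.red [.t 833 4 1, .t 962 4 1] 136 136 [] [(120, 136, [2]), (136, 136, [])]) (.red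
  [.t 817 3 1, .f 946 3 5, .f 954 5 1, .f 955 1 3] 136 136 [] [(119, 118, [3]), (136, 136, [])])
  (.red [.f 825 5 1, .f 826 1 3, .t 962 4 1] 136 136 [] [(120, 136, [2]), (136, 136, [])]) (.br
  833 .no (.use 711) (.hor [.f 833 3 1, .f 833 1 5] [(121, 120, [3])]) .no .no (.red [.f 824 5 3,
  .t 833 4 1, .t 962 4 1] 136 136 [] [(120, 136, [2]), (136, 136, [])]))) .no (.br 833 .no (.use
  732) (.hor [.f 833 3 1, .f 833 1 5] [(121, 120, [3])]) (.red [.t 833 4 1, .t 962 4 1] 136 136 []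
  [(120, 136, [2]), (136, 136, [])]) .no (.use 741)) .no (.red [.f 945 5 1, .t 946 1 3, .f 955 1
  3] 136 136 [] [(135, 136, [4]), (136, 136, [])]))) .no .no (.br 1074 (.use 742) (.red [.t 946 1
  3, .f 955 1 3] 136 136 [] [(135, 136, [4]), (136, 136, [])]) .no (.hor [.f 1066 3 5] []) .no
  (.br 946 .no (.use 746) .no (.br 833 .no (.use 758) (.hor [.f 833 3 1, .f 833 1 5] [(121, 120,
  [3])]) (.red [.t 833 4 1, .t 962 4 1] 136 136 [] [(120, 136, [2]), (136, 136, [])]) .no (.br 971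
  (.use 544) (.br 1098 (.use 403) .no (.br 841 .no (.use 596) (.br 1338 (.use 762) .no (.red [.t
  1345 2 4, .t 1216 2 4] 152 136 [1] [(152, 136, [1]), (168, 136, [1, 1])]) (.use 749) (.br 1218
  (.hor [.f 1217 1 5] []) .no (.br 1097 (.use 618) .no (.hor [.f 1097 3 5] []) .no .no (.br 1219
  (.con 136 [1, 1, 4]) .no (.con 136 [1, 1, 4]) (.use 760) .no .no)) .no (.con 136 [1, 1, 4]) .no)
  (.red [.f 1209 5 1, .f 1209 1 3, .t 1216 2 4] 152 136 [1] [(152, 136, [1]), (168, 136, [1,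
  1])])) .no (.red [.t 961 3 2, .f 961 5 1, .t 960 4 1] 136 136 [] [(121, 120, [3]), (136, 136,
  [])]) (.red [.f 832 5 3, .f 833 3 1, .f 833 1 5, .f 953 5 3, .t 962 4 1] 136 136 [] [(121, 120,
  [3]), (136, 136, [])])) .no (.br 1338 (.use 762) .no (.red [.t 1345 2 4, .t 1216 2 4] 152 136
  [1] [(152, 136, [1]), (168, 136, [1, 1])]) (.use 749) (.br 1218 (.hor [.f 1217 1 5] []) .no (.br
  1219 (.con 136 [1, 1, 4]) .no (.con 136 [1, 1, 4]) (.br 1097 (.use 618) .no (.use 750) .no .no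
  (.use 761)) .no .no) .no (.con 136 [1, 1, 4]) .no) (.red [.f 1209 5 1, .f 1209 1 3, .t 1216 2 4]
  152 136 [1] [(152, 136, [1]), (168, 136, [1, 1])])) (.red [.f 1089 5 3, .f 961 3 1, .t 960 4 1]
  136 136 [] [(136, 136, []), (137, 136, [3])])) (.hor [.f 970 3 5] []) .no .no .no)) .no (.red
  [.f 945 5 1, .t 946 1 3, .f 955 1 3] 136 136 [] [(135, 136, [4]), (136, 136, [])]))) .no (.red
  [.f 1074 5 3, .f 947 3 1, .f 955 1 3] 136 136 [] [(135, 136, [4]), (136, 136, [])])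

def c10t764 : Tr4 :=
  .br 955 .no (.br 954 .no (.hor [.f 826 1 5] []) .no (.use 542) .no (.br 971 (.use 544) (.br 1098
  (.use 403) .no (.br 833 .no (.br 832 .no (.hor [.f 704 1 5] []) (.br 825 .no (.use 611) .no
  (.use 321) (.red [.f 825 5 1, .f 826 1 3, .t 962 4 1] 136 136 [] [(120, 136, [2]), (136, 136,
  [])]) (.br 841 .no (.use 596) (.br 704 .no (.br 696 .no (.use 616) .no (.br 1097 (.br 1218 (.hor
  [.f 1217 1 5] []) .no (.use 618) .no (.use 628) .no) .no (.hor [.f 1097 3 5] []) .no .no (.br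
  1218 (.hor [.f 1217 1 5] []) .no (.use 630) .no (.use 628) .no)) (.red [.f 696 5 1, .f 697 1 3,
  .t 833 4 1, .t 962 4 1] 136 136 [] [(104, 136, [2, 2]), (120, 136, [2]), (136, 136, [])]) .no)
  (.hor [.f 704 3 1, .f 704 1 5] [(105, 104, [3])]) (.red [.t 704 4 1, .t 833 4 1, .t 962 4 1] 136
  136 [] [(104, 136, [2, 2]), (120, 136, [2]), (136, 136, [])]) .no .no) .no (.red [.t 961 3 2, .f
  961 5 1, .t 960 4 1, .t 840 4 1] 136 136 [] [(136, 136, [])]) .no)) (.con 136 [2, 2]) .no .no)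
  (.hor [.f 833 3 1, .f 833 1 5] [(121, 120, [3])]) (.red [.t 833 4 1, .t 962 4 1] 136 136 []
  [(120, 136, [2]), (136, 136, [])]) .no (.use 636)) .no (.br 833 .no (.use 657) (.hor [.f 833 3
  1, .f 833 1 5] [(121, 120, [3])]) (.red [.t 833 4 1, .t 962 4 1] 136 136 [] [(120, 136, [2]),
  (136, 136, [])]) .no (.use 636)) (.red [.f 1089 5 3, .f 961 3 1, .t 960 4 1] 136 136 [] [(136,
  136, []), (137, 136, [3])])) (.hor [.f 970 3 5] []) .no .no .no)) .no (.br 954 .no (.br 953 .no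
  (.hor [.f 825 1 5] []) .no (.br 946 (.red [.t 946 1 3, .f 955 1 3] 136 136 [] [(135, 136, [4]),
  (136, 136, [])]) (.hor [.f 818 1 3, .f 945 3 5] [(119, 120, [4])]) .no (.br 1074 (.use 530) .no
  .no (.red [.f 938 3 1, .t 946 1 3] 135 136 [4] [(134, 136, [4, 4]), (135, 136, [4])]) (.red [.f
  1074 5 3, .f 947 3 1, .f 955 1 3] 136 136 [] [(135, 136, [4]), (136, 136, [])]) (.br 827 .no
  (.br 825 .no (.br 833 .no (.hor [.f 697 1 3, .f 826 1 3, .f 825 3 5] [(104, 136, [2, 2]), (120,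
  136, [2])]) (.hor [.f 833 3 1, .f 833 1 5] [(121, 120, [3])]) .no .no (.br 1072 (.br 1075 (.br
  1201 (.use 647) .no .no (.br 1065 .no (.red [.t 937 1 3, .t 946 1 3] 135 136 [4] [(134, 136, [4,
  4]), (135, 136, [4])]) .no (.br 824 .no (.hor [.f 696 1 5] []) .no (.br 937 .no (.use 658) .no
  (.red [.f 929 3 1, .t 937 1 3] 134 136 [4, 4] [(133, 136, [4, 4, 4]), (134, 136, [4, 4])]) .no
  (.con 136 [4, 4, 2, 3, 3])) .no .no) (.red [.f 1065 5 3, .f 938 3 1, .t 946 1 3, .f 955 1 3] 136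
  136 [] [(134, 136, [4, 4]), (135, 136, [4]), (136, 136, [])]) (.red [.t 1200 2 4] 150 136 [4, 4,
  1] [(150, 136, [4, 4, 1])])) (.hor [.f 1073 5 1, .f 1072 1 5, .f 1074 1 5] []) .no) .no .no
  (.con 136 [4, 4, 1]) .no .no) (.red [.t 944 1 3] 135 136 [4] [(135, 136, [4])]) .no (.use 659)
  .no .no)) (.hor [.f 826 1 3, .f 825 3 5] [(120, 136, [2])]) (.hor [.f 817 3 1, .f 825 1 5]
  [(119, 120, [4])]) .no (.br 944 (.red [.t 944 1 3] 135 136 [4] [(135, 136, [4])]) (.hor [.t 944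
  2 3, .f 825 1 5] [(119, 120, [4])]) .no (.br 1072 (.br 1075 (.br 1201 (.use 647) .no .no (.br
  1065 .no (.red [.t 937 1 3, .t 946 1 3] 135 136 [4] [(134, 136, [4, 4]), (135, 136, [4])]) .no
  (.use 660) (.red [.f 1065 5 3, .f 938 3 1, .t 946 1 3, .f 955 1 3] 136 136 [] [(134, 136, [4,
  4]), (135, 136, [4]), (136, 136, [])]) (.red [.t 1200 2 4, .f 936 3 1] 134 136 [4, 4] [(134,
  136, [4, 4]), (150, 136, [4, 4, 1])])) (.hor [.f 1073 5 1, .f 1072 1 5, .f 1074 1 5] []) .no)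
  .no .no (.con 136 [4, 4, 1]) .no .no) .no .no (.red [.f 936 3 1, .t 944 1 3] 135 136 [4] [(134,
  136, [4, 4]), (135, 136, [4])]) .no .no) .no .no)) (.hor [.f 826 1 3, .f 826 3 5] [(120, 136,
  [2])]) (.hor [.f 819 3 1, .f 826 1 5] [(119, 120, [4])]) .no .no)) .no .no) .no .no) .no (.hor
  [.f 946 3 5] []) .no (.use 763)) .no (.red [.f 954 5 1, .f 955 1 3] 136 136 [] [(136, 136, [])])

def c10t765 : Tr4 :=
  .br 1209 (.hor [.f 1208 1 5] []) .no (.red [.t 1216 2 4, .f 952 3 1] 136 136 [] [(136, 136, []),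
  (152, 136, [1])]) (.br 1083 (.con 136 [1, 1, 4]) (.red [.f 955 1 3] 136 136 [] [(136, 136, [])])
  .no (.br 1082 (.br 955 .no (.br 954 .no (.use 281) .no (.use 542) .no (.br 1217 (.br 947 .no
  (.red [.f 819 1 3] 119 136 [2, 4] [(119, 136, [2, 4])]) .no (.use 546) .no (.br 826 .no (.br
  1074 (.use 555) .no .no (.use 565) .no (.br 971 (.use 544) (.br 825 .no (.use 350) (.use 590)
  (.use 547) .no (.use 603)) (.hor [.f 970 3 5] []) .no .no .no)) .no (.red [.t 826 4 1] 119 136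
  [2, 4] [(119, 136, [2, 4])]) .no (.red [.f 825 5 1, .f 826 1 5, .f 946 5 3, .f 947 3 1] 135 136
  [4] [(135, 136, [4])]))) .no (.br 947 .no (.red [.f 819 1 3] 119 136 [2, 4] [(119, 136, [2,
  4])]) .no (.use 546) .no (.br 826 .no (.br 1074 (.use 555) .no .no (.use 565) .no (.br 1218
  (.con 136 [3, 1, 1]) .no (.hor [.f 1217 3 5] []) .no (.con 136 [3, 1, 1]) .no)) .no (.red [.t
  826 4 1] 119 136 [2, 4] [(119, 136, [2, 4])]) .no (.red [.f 825 5 1, .f 826 1 5, .f 946 5 3, .f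
  947 3 1] 135 136 [4] [(135, 136, [4])]))) .no (.red [.f 1089 5 1, .f 1082 1 3] 152 136 [1]
  [(152, 136, [1])]) .no)) .no (.red [.f 947 3 1, .f 955 1 3] 136 136 [] [(135, 136, [4]), (136,
  136, [])]) .no (.br 1074 (.red [.f 1074 1 3, .f 1074 3 5, .f 954 5 1, .f 955 1 3] 136 136 []
  [(136, 136, []), (151, 135, [1])]) (.red [.t 1074 2 3, .f 955 1 3] 136 136 [] [(135, 136, [4]),
  (136, 136, [])]) .no (.br 953 .no (.br 947 .no (.use 604) .no (.br 946 .no (.use 208) .no (.hor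
  [.f 938 3 5] []) .no (.br 1073 .no .no .no (.hor [.f 1065 3 5] []) .no (.use 605))) .no (.red
  [.f 946 5 3, .f 947 3 1, .f 955 1 3] 136 136 [] [(135, 136, [4]), (136, 136, [])])) .no (.use
  606) .no .no) .no (.red [.t 1209 4 2, .f 1074 3 5, .f 954 5 1, .f 955 1 3] 136 136 [] [(136,
  136, []), (151, 135, [1])]))) (.con 136 [4]) .no (.hor [.f 1074 3 5] []) .no .no) .no (.use
  438)) (.br 1217 (.br 1083 (.con 136 [1, 4]) (.red [.f 955 1 3] 136 136 [] [(136, 136, [])]) .no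
  (.br 1082 .no (.con 136 [4]) .no (.hor [.f 1074 3 5] []) .no .no) .no (.use 764)) .no (.use 465)
  .no (.red [.f 1209 5 3, .t 1216 2 4, .f 952 3 1] 136 136 [] [(136, 136, []), (152, 136, [1])])
  .no) .no

def c10l30 : List Tr4 :=
  [c10t755, c10t756, c10t757, c10t758, c10t759, c10t760, c10t761, c10t762, c10t763, c10t764,
  c10t765]

theorem c10k30 : chkLF ⟨4, 0, 0, true, -8⟩ true 0 c10N 755 c10l30 = true := by decide +kernel

def c10t766 : Tr4 :=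
  .br 955 (.red [.f 955 1 3] 136 136 [] [(136, 136, [])]) (.red [.t 944 1 3] 135 136 [4] [(135,
  136, [4])]) .no (.red [.t 944 1 3] 135 136 [4] [(135, 136, [4])]) .no (.red [.t 944 1 3] 135 136
  [4] [(135, 136, [4])])

def c10t767 : Tr4 :=
  .br 1218 (.con 136 [1, 3, 1]) .no (.hor [.f 1217 3 5] []) (.con 136 [1, 3, 1]) (.con 136 [1, 3,
  1]) .no

def c10t768 : Tr4 :=
  .br 955 (.hor [.f 954 1 5] []) (.con 136 [4]) .no (.con 136 [4]) .no .no

def c10t769 : Tr4 :=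
  .br 1083 (.con 136 [4, 1]) (.red [.f 955 1 3] 136 136 [] [(136, 136, [])]) .no (.hor [.f 1074 3
  5] []) .no .no

def c10t770 : Tr4 :=
  .br 1217 (.red [.f 1209 1 3, .t 1216 2 4] 152 136 [1] [(152, 136, [1]), (168, 136, [1, 1])]) .no
  (.use 767) .no (.br 1082 (.red [.f 1089 5 1, .f 1082 1 3] 152 136 [1] [(152, 136, [1])]) (.use
  768) .no (.use 769) (.br 1210 (.hor [.f 1209 1 5] []) .no .no (.br 1211 (.br 1219 (.red [.f 1211
  1 3] 168 136 [1, 1] [(168, 136, [1, 1])]) .no (.con 136 [3, 1, 1]) .no .no .no) .no (.red [.f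
  1089 5 1, .t 1218 2 4] 152 136 [1] [(152, 136, [1])]) (.hor [.f 1202 3 5] []) .no .no) (.red [.f
  1089 5 1, .f 1082 5 1, .f 1082 1 3] 152 136 [1] [(152, 136, [1])]) .no) .no) .no

def c10t771 : Tr4 :=
  .br 818 .no (.use 353) .no (.use 549) (.red [.f 818 5 1, .f 819 1 3] 119 136 [2, 4] [(119, 136,
  [2, 4])]) .no

def c10t772 : Tr4 :=
  .br 825 .no (.hor [.f 697 1 5] []) (.red [.t 833 4 1, .f 817 1 3] 119 136 [2, 4] [(119, 136, [2,
  4]), (120, 136, [2])]) .no .no (.br 833 .no (.br 1073 (.red [.t 1200 3 2, .f 1080 1 3] 152 136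
  [1] [(151, 136, [4, 1]), (152, 136, [1])]) .no .no (.br 818 (.hor [.f 817 1 5] []) (.use 353)
  .no (.br 946 (.br 947 (.hor [.f 946 1 5] []) (.red [.f 819 1 3] 119 136 [2, 4] [(119, 136, [2,
  4])]) .no (.br 937 .no (.red [.f 809 1 3, .f 937 3 1, .f 944 1 5, .f 1072 5 3, .t 1073 3 2] 135
  136 [4] [(118, 119, [4]), (134, 135, [4]), (135, 136, [4])]) .no (.br 938 (.hor [.f 938 1 3, .f
  938 3 5] [(134, 135, [4])]) .no .no (.hor [.f 929 3 5] []) .no .no) (.hor [.t 1073 4 2, .f 938 3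
  5] [(134, 135, [4])]) (.red [.t 1072 2 4, .f 1072 5 3, .t 1073 3 2] 135 136 [4] [(134, 135,
  [4]), (135, 136, [4])])) .no .no) .no .no (.red [.f 810 3 1, .f 817 1 5, .f 945 5 3, .t 944 1 3]
  135 136 [4] [(118, 119, [4]), (135, 136, [4])]) (.use 549) .no) (.br 946 (.br 947 (.hor [.f 946
  1 5] []) .no .no (.br 938 (.hor [.f 938 1 3, .f 938 3 5] [(134, 135, [4])]) (.use 324) .no (.br
  937 .no (.red [.f 809 1 3, .f 937 3 1, .f 944 1 5, .f 1072 5 3, .t 1073 3 2] 135 136 [4] [(118,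
  119, [4]), (134, 135, [4]), (135, 136, [4])]) .no (.hor [.f 929 3 5] []) .no (.red [.t 1072 2 4,
  .f 1072 5 3, .t 1073 3 2] 135 136 [4] [(134, 135, [4]), (135, 136, [4])])) .no (.hor [.t 1073 4
  2, .f 938 3 5] [(134, 135, [4])])) .no .no) .no .no (.br 947 (.br 1074 (.con 136 [4, 4, 1]) .no
  .no (.red [.f 938 3 1, .f 946 1 5] 134 136 [4, 4] [(134, 136, [4, 4])]) .no .no) .no .no (.hor
  [.f 938 3 5] []) .no .no) (.red [.f 818 5 1, .f 819 1 3] 119 136 [2, 4] [(119, 136, [2, 4])])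
  .no) .no) (.br 971 (.use 544) (.br 832 .no (.hor [.f 704 1 5] []) (.br 946 .no (.hor [.f 817 1
  5] []) .no (.br 947 (.br 818 .no (.use 353) .no (.red [.f 810 3 1, .f 817 1 5, .f 945 5 3, .t
  944 1 3] 135 136 [4] [(118, 119, [4]), (135, 136, [4])]) (.br 696 .no (.br 704 .no (.red [.f 568
  1 3, .t 704 4 1, .t 833 4 1, .t 962 4 1] 136 136 [] [(88, 136, [2, 2, 2]), (104, 136, [2, 2]),
  (120, 136, [2]), (136, 136, [])]) (.hor [.f 704 3 1, .f 704 1 5] [(105, 104, [3])]) .no .no .no)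
  (.red [.t 704 4 1, .t 833 4 1, .t 962 4 1] 136 136 [] [(104, 136, [2, 2]), (120, 136, [2]),
  (136, 136, [])]) (.use 340) (.red [.f 696 5 1, .f 697 1 3, .t 833 4 1, .t 962 4 1] 136 136 []
  [(104, 136, [2, 2]), (120, 136, [2]), (136, 136, [])]) .no) .no) (.red [.f 819 1 3] 119 136 [2,
  4] [(119, 136, [2, 4])]) .no (.hor [.f 938 3 5] []) .no .no) (.use 771) .no) .no .no .no) (.hor
  [.f 970 3 5] []) .no .no .no) .no) (.hor [.f 833 3 1, .f 833 1 5] [(121, 120, [3])]) .no .no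
  (.red [.f 824 5 3, .t 833 4 1, .f 817 1 3] 119 136 [2, 4] [(119, 136, [2, 4]), (120, 136,
  [2])]))

def c10t773 : Tr4 :=
  .br 947 (.con 136 [4, 2, 4]) (.hor [.f 818 1 5] []) .no (.con 136 [4, 2, 4]) .no .no

def c10t774 : Tr4 :=
  .br 1073 (.red [.t 1200 3 2, .f 1080 1 3] 152 136 [1] [(151, 136, [4, 1]), (152, 136, [1])]) .no
  .no (.br 946 (.red [.f 937 3 1, .f 944 1 5, .f 1072 5 3, .f 1072 3 1] 151 136 [4, 1] [(134, 118,
  [1]), (151, 136, [4, 1])]) (.red [.f 937 3 1, .f 944 1 5, .f 1072 5 3, .f 1072 3 1] 151 136 [4,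
  1] [(134, 118, [1]), (151, 136, [4, 1])]) .no (.hor [.f 937 3 5] []) (.use 637) .no) (.br 833
  .no (.br 832 .no (.hor [.f 704 1 5] []) (.br 825 .no (.use 611) .no (.use 321) (.red [.f 825 5
  1, .f 826 1 3, .t 962 4 1] 136 136 [] [(120, 136, [2]), (136, 136, [])]) (.br 946 .no (.use 773)
  .no (.hor [.f 937 3 5] []) (.br 818 .no (.use 353) (.red [.t 826 4 1] 119 136 [2, 4] [(119, 136,
  [2, 4])]) (.use 592) (.red [.f 818 5 1, .f 819 1 3] 119 136 [2, 4] [(119, 136, [2, 4])]) (.br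
  696 .no (.use 330) (.red [.t 704 4 1, .t 833 4 1, .t 962 4 1] 136 136 [] [(104, 136, [2, 2]),
  (120, 136, [2]), (136, 136, [])]) (.br 698 (.use 643) (.con 136 [2, 4, 2, 3]) (.con 136 [2, 4,
  2, 3]) (.con 136 [2, 4, 2, 3]) (.con 136 [2, 4, 2, 3]) (.con 136 [2, 4, 2, 3])) (.red [.f 696 5
  1, .f 697 1 3, .t 833 4 1, .t 962 4 1] 136 136 [] [(104, 136, [2, 2]), (120, 136, [2]), (136,
  136, [])]) .no)) .no)) (.con 136 [2, 2]) .no .no) (.hor [.f 833 3 1, .f 833 1 5] [(121, 120,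
  [3])]) (.red [.t 833 4 1, .t 962 4 1] 136 136 [] [(120, 136, [2]), (136, 136, [])]) .no (.br 825
  .no (.br 946 .no (.use 773) .no (.use 631) (.use 350) .no) .no (.use 369) (.red [.f 825 5 1, .f
  826 1 3, .t 962 4 1] 136 136 [] [(120, 136, [2]), (136, 136, [])]) (.red [.f 824 5 3, .t 833 4
  1, .t 962 4 1] 136 136 [] [(120, 136, [2]), (136, 136, [])]))) .no

def c10t775 : Tr4 :=
  .br 946 .no (.con 136 [4, 2, 4]) .no (.hor [.f 938 3 5] []) .no .no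

def c10t776 : Tr4 :=
  .br 1096 (.hor [.f 1096 1 5] []) (.hor [.t 1225 2 4, .f 961 3 1, .f 968 1 5] [(137, 136, [3]),
  (153, 136, [3, 1])]) (.br 968 .no .no (.hor [.f 968 3 1, .t 1225 2 4, .f 961 3 1, .f 968 1 5]
  [(137, 136, [3]), (138, 136, [3, 3]), (153, 136, [3, 1])]) .no .no .no) .no .no .no

def c10t777 : Tr4 :=
  .br 1202 (.hor [.f 1201 1 5] []) .no .no (.con 136 [4, 1, 4, 1]) .no .no

def c10t778 : Tr4 :=
  .br 1211 (.red [.f 1218 5 1, .f 1211 1 3] 168 136 [4, 1, 3, 1] [(168, 136, [1, 1])]) .no .no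
  (.use 777) .no .no

def c10t779 : Tr4 :=
  .br 1226 (.br 1346 (.red [.f 1338 1 3, .t 1345 2 4] 168 136 [4, 1, 3, 1] [(168, 136, [1, 1]),
  (184, 136, [4, 1, 3, 1, 1])]) .no .no .no (.use 778) .no) .no (.hor [.f 1098 3 1, .f 1097 1 5]
  [(154, 138, [1])]) .no .no .no

def c10t780 : Tr4 :=
  .br 1202 (.hor [.f 1201 1 5] []) .no .no (.con 136 [4, 1, 3, 1, 4, 4]) (.con 136 [4, 1, 3, 1, 4,
  2]) .no

def c10t781 : Tr4 :=
  .br 1226 .no .no (.hor [.f 1098 3 1, .f 1097 1 5] [(154, 138, [1])]) .no .no .no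

def c10t782 : Tr4 :=
  .br 1202 .no .no .no (.hor [.f 1193 3 5] []) .no .no

def c10t783 : Tr4 :=
  .br 1211 (.red [.f 1211 1 3] 168 136 [4, 1, 3, 1] [(168, 136, [1, 1])]) .no .no (.use 777) .no
  .no

def c10t784 : Tr4 :=
  .br 1226 .no .no (.hor [.f 1098 3 1, .f 1098 1 5] [(154, 138, [1])]) .no .no (.hor [.t 1105 1 4,
  .f 1098 1 5] [(154, 138, [1])])

def c10t785 : Tr4 :=
  .br 1211 (.red [.f 1218 5 1, .f 1211 1 3] 168 136 [1, 1] [(168, 136, [1, 1])]) .no .no .no .no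
  .no

def c10t786 : Tr4 :=
  .br 938 (.br 939 (.hor [.f 938 1 5] []) (.con 136 [4, 4, 4]) .no (.con 136 [4, 4, 4]) .no .no)
  (.use 260) .no (.hor [.f 929 3 5] []) (.use 640) .no

def c10t787 : Tr4 :=
  .br 689 .no (.red [.f 561 1 3] 87 136 [2, 2, 2, 4] [(87, 136, [2, 2, 2, 4])]) .no (.use 257)
  (.red [.f 689 5 1, .f 690 1 3] 103 136 [2, 2, 4] [(103, 136, [2, 2, 4])]) .no

def c10t788 : Tr4 :=
  .br 1075 (.br 697 .no (.br 936 .no (.br 937 (.red [.t 1064 3 2] 134 136 [4, 4] [(134, 136, [4,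
  4])]) (.hor [.f 808 1 5] []) .no (.use 786) (.br 1202 (.hor [.f 1201 1 5] []) .no .no (.br 1065
  (.red [.t 1193 2 3, .f 1064 3 5, .f 1072 5 3, .f 1072 3 1] 151 136 [4, 1] [(150, 134, [1]),
  (151, 136, [4, 1])]) .no .no (.br 1066 .no .no .no (.hor [.f 1057 3 5] []) (.br 689 .no (.red
  [.f 561 1 3] 87 136 [2, 2, 2, 4] [(87, 136, [2, 2, 2, 4])]) .no (.br 939 .no (.br 810 .no (.con
  136 [2, 2, 4, 4, 2]) .no (.br 930 (.red [.t 1057 3 2, .f 802 3 1, .f 810 1 5] 117 136 [2, 4, 4,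
  4] [(117, 136, [2, 4, 4, 4]), (133, 136, [4, 4, 4])]) .no .no (.br 929 .no (.con 136 [2, 2, 4,
  4, 4, 1]) .no (.hor [.f 921 3 5] []) .no (.br 1058 (.red [.t 1202 4 2, .f 1058 1 3, .f 1057 3 5,
  .f 937 5 1, .t 1064 3 2] 134 136 [4, 4] [(134, 136, [4, 4]), (149, 133, [1]), (150, 134, [1])])
  .no .no (.red [.f 922 3 1] 132 136 [4, 4, 4, 4] [(132, 136, [4, 4, 4, 4])]) (.br 931 .no (.red
  [.f 803 1 3, .f 802 3 5] 117 136 [2, 4, 4, 4] [(117, 136, [2, 4, 4, 4])]) .no (.hor [.f 922 3 5]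
  []) .no .no) .no)) (.red [.t 810 4 1] 117 136 [2, 4, 4, 4] [(117, 136, [2, 4, 4, 4])]) (.red [.f
  929 5 3, .f 802 3 1] 117 136 [2, 4, 4, 4] [(117, 136, [2, 4, 4, 4])])) .no (.hor [.f 809 5 1, .f
  808 1 5, .f 810 1 5] [])) .no (.use 257) .no .no) (.red [.f 689 5 1, .f 690 1 3] 103 136 [2, 2,
  4] [(103, 136, [2, 2, 4])]) .no) .no) (.red [.f 937 5 1, .t 1064 3 2] 134 136 [4, 4] [(134, 136,
  [4, 4])]) .no) .no .no) .no) .no (.br 937 (.red [.t 1064 3 2] 134 136 [4, 4] [(134, 136, [4,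
  4])]) (.br 938 (.con 136 [2, 4, 4, 4]) (.use 260) .no (.con 136 [2, 4, 4, 4]) (.con 136 [2, 4,
  4, 4]) .no) .no (.use 786) (.br 1202 (.hor [.f 1201 1 5] []) .no .no (.br 1065 (.red [.t 1193 2
  3, .f 1064 3 5, .f 1072 5 3, .f 1072 3 1] 151 136 [4, 1] [(150, 134, [1]), (151, 136, [4, 1])])
  .no .no (.br 1066 .no .no .no (.hor [.f 1057 3 5] []) (.br 939 .no (.con 136 [2, 4, 4, 4]) .no
  (.use 787) .no .no) .no) (.red [.f 937 5 1, .t 1064 3 2] 134 136 [4, 4] [(134, 136, [4, 4])])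
  .no) .no .no) .no) (.red [.f 936 5 3, .f 936 3 1] 134 136 [4, 4] [(134, 136, [4, 4])]) .no) .no
  (.hor [.f 688 3 5] []) .no .no) .no .no (.br 1065 (.use 653) (.red [.t 1064 3 2] 134 136 [4, 4]
  [(134, 136, [4, 4])]) .no (.br 1066 (.br 1202 (.hor [.f 1201 1 5] []) .no .no .no (.red [.t 1066
  1 3] 150 136 [4, 4, 1] [(150, 136, [4, 4, 1])]) .no) (.con 136 [4, 4, 4]) .no (.hor [.f 1057 3
  5] []) .no .no) (.hor [.f 1065 5 3, .f 1064 3 5, .f 1066 3 5] []) .no) .no .no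

def c10t789 : Tr4 :=
  .br 696 .no (.use 330) (.red [.t 704 4 1, .t 833 4 1, .t 962 4 1] 136 136 [] [(104, 136, [2,
  2]), (120, 136, [2]), (136, 136, [])]) (.br 1201 (.br 698 (.use 788) (.con 136 [2, 4, 2, 3])
  (.con 136 [2, 4, 2, 3]) (.con 136 [2, 4, 2, 3]) (.con 136 [2, 4, 2, 3]) (.con 136 [2, 4, 2, 3]))
  .no .no (.br 1065 .no (.red [.t 1064 3 2] 134 136 [4, 4] [(134, 136, [4, 4])]) .no (.br 1066
  (.red [.t 1193 3 2, .t 1200 3 2] 151 136 [4, 1] [(150, 136, [4, 4, 1]), (151, 136, [4, 1])])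
  (.br 939 (.hor [.f 938 1 5] []) (.con 136 [4, 4, 4]) .no (.con 136 [4, 4, 4]) .no .no) .no (.hor
  [.f 1057 3 5] []) (.br 698 (.br 697 .no (.br 937 .no (.br 938 .no (.use 260) .no (.br 939 .no
  (.con 136 [2, 4, 4, 4]) .no (.hor [.f 930 3 5] []) .no .no) (.use 640) .no) .no (.use 786) (.br
  939 .no (.br 689 .no (.red [.f 561 1 3] 87 136 [2, 2, 2, 4] [(87, 136, [2, 2, 2, 4])]) .no (.br
  936 .no (.br 810 .no (.con 136 [2, 2, 4, 4, 2]) .no (.br 930 (.red [.t 1057 3 2, .f 802 3 1, .f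
  810 1 5] 117 136 [2, 4, 4, 4] [(117, 136, [2, 4, 4, 4]), (133, 136, [4, 4, 4])]) .no .no (.br
  929 .no (.con 136 [2, 2, 4, 4, 4, 1]) .no (.hor [.f 921 3 5] []) .no (.br 931 (.con 136 [4, 4,
  4, 4]) (.red [.f 803 1 3, .f 802 3 5] 117 136 [2, 4, 4, 4] [(117, 136, [2, 4, 4, 4])]) .no (.hor
  [.f 922 3 5] []) .no .no)) (.red [.t 810 4 1] 117 136 [2, 4, 4, 4] [(117, 136, [2, 4, 4, 4])])
  (.red [.f 929 5 3, .f 802 3 1] 117 136 [2, 4, 4, 4] [(117, 136, [2, 4, 4, 4])])) .no (.hor [.f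
  809 5 1, .f 808 1 5, .f 810 1 5] [])) .no (.con 136 [2, 4, 4, 4]) .no .no) (.red [.f 689 5 1, .f
  690 1 3] 103 136 [2, 2, 4] [(103, 136, [2, 2, 4])]) .no) .no (.use 787) .no .no) (.red [.f 936 5
  3, .f 936 3 1] 134 136 [4, 4] [(134, 136, [4, 4])])) .no (.hor [.f 688 3 5] []) .no .no) (.con
  136 [2, 4, 2, 3]) (.con 136 [2, 4, 2, 3]) (.con 136 [2, 4, 2, 3]) (.con 136 [2, 4, 2, 3]) (.con
  136 [2, 4, 2, 3])) .no) (.red [.f 1065 5 3, .f 1065 3 1, .t 1200 3 2] 151 136 [4, 1] [(150, 136,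
  [4, 4, 1]), (151, 136, [4, 1])]) .no) (.red [.f 1073 5 1, .t 1200 3 2, .f 1080 1 3] 152 136 [1]
  [(151, 136, [4, 1]), (152, 136, [1])]) .no) (.red [.f 696 5 1, .f 697 1 3, .t 833 4 1, .t 962 4
  1] 136 136 [] [(104, 136, [2, 2]), (120, 136, [2]), (136, 136, [])]) .no

def c10t790 : Tr4 :=
  .br 1073 (.red [.t 1200 3 2, .f 1080 1 3] 152 136 [1] [(151, 136, [4, 1]), (152, 136, [1])])
  (.br 946 (.hor [.f 945 1 5] []) (.con 136 [4, 4]) .no (.con 136 [4, 4]) (.con 136 [4, 4]) .no)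
  .no (.hor [.f 1064 3 5] []) (.br 944 .no (.br 945 .no (.hor [.f 816 1 5] []) .no (.br 947 (.con
  136 [4, 4]) (.red [.f 819 1 3] 119 136 [2, 4] [(119, 136, [2, 4])]) .no (.con 136 [2, 4, 4]) .no
  (.con 136 [2, 4, 4])) (.br 947 (.con 136 [4, 4]) (.red [.f 819 1 3] 119 136 [2, 4] [(119, 136,
  [2, 4])]) .no (.con 136 [2, 4, 4]) .no .no) .no) .no (.red [.f 936 3 1] 134 136 [4, 4] [(134,
  136, [4, 4])]) (.br 833 .no (.br 832 .no (.hor [.f 704 1 5] []) (.br 825 .no (.use 609) .no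
  (.use 321) (.red [.f 825 5 1, .f 826 1 3, .t 962 4 1] 136 136 [] [(120, 136, [2]), (136, 136,
  [])]) (.br 947 (.con 136 [4, 4]) (.red [.f 819 1 3] 119 136 [2, 4] [(119, 136, [2, 4])]) .no
  (.use 775) .no (.br 818 .no (.use 353) (.red [.t 826 4 1] 119 136 [2, 4] [(119, 136, [2, 4])])
  (.use 598) (.red [.f 818 5 1, .f 819 1 3] 119 136 [2, 4] [(119, 136, [2, 4])]) (.use 789))))
  (.con 136 [2, 2]) .no .no) (.hor [.f 833 3 1, .f 833 1 5] [(121, 120, [3])]) (.red [.t 833 4 1,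
  .t 962 4 1] 136 136 [] [(120, 136, [2]), (136, 136, [])]) .no (.br 825 .no (.br 947 (.con 136
  [4, 4]) (.red [.f 819 1 3] 119 136 [2, 4] [(119, 136, [2, 4])]) .no (.use 775) .no (.use 350))
  .no (.use 369) (.red [.f 825 5 1, .f 826 1 3, .t 962 4 1] 136 136 [] [(120, 136, [2]), (136,
  136, [])]) (.red [.f 824 5 3, .t 833 4 1, .t 962 4 1] 136 136 [] [(120, 136, [2]), (136, 136,
  [])]))) .no) .no

def c10l31 : List Tr4 :=
  [c10t766, c10t767, c10t768, c10t769, c10t770, c10t771, c10t772, c10t773, c10t774, c10t775,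
  c10t776, c10t777, c10t778, c10t779, c10t780, c10t781, c10t782, c10t783, c10t784, c10t785,
  c10t786, c10t787, c10t788, c10t789, c10t790]

theorem c10k31 : chkLF ⟨4, 0, 0, true, -8⟩ true 0 c10N 766 c10l31 = true := by decide +kernel

def c10t791 : Tr4 :=
  .br 825 .no (.use 659) (.hor [.f 826 1 3, .f 825 3 5] [(120, 136, [2])]) (.hor [.f 817 3 1, .f
  825 1 5] [(119, 120, [4])]) .no (.br 944 .no (.hor [.t 944 2 3, .f 825 1 5] [(119, 120, [4])])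
  .no (.red [.f 936 3 1, .t 944 1 3] 135 136 [4] [(134, 136, [4, 4]), (135, 136, [4])]) .no .no)

def c10t792 : Tr4 :=
  .br 1073 (.red [.t 1200 3 2, .f 1080 1 3] 152 136 [1] [(151, 136, [4, 1]), (152, 136, [1])])
  (.use 661) .no (.hor [.f 1065 3 5] []) .no (.red [.f 1072 5 3, .f 1072 3 1, .f 1080 1 3] 152 136
  [1] [(151, 136, [4, 1]), (152, 136, [1])])

def c10t793 : Tr4 :=
  .br 1097 (.br 1218 (.hor [.f 1217 1 5] []) .no (.use 776) .no (.br 1338 (.br 1099 (.use 779) .no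
  (.hor [.f 1098 3 5] []) .no .no .no) .no (.red [.t 1345 2 4] 168 136 [1, 1] [(168, 136, [1,
  1])]) (.red [.t 1329 2 3, .f 1200 3 5, .f 1080 5 1, .f 1080 1 3] 152 136 [1] [(152, 136, [1]),
  (167, 166, [3])]) (.use 780) (.red [.f 1209 5 1, .f 1209 1 3] 168 136 [1, 1] [(168, 136, [1,
  1])])) .no) .no (.hor [.f 1097 3 5] []) .no .no (.br 1338 (.br 1099 (.br 1218 (.hor [.f 1217 1
  5] []) .no (.br 1219 (.use 783) .no .no (.use 629) .no .no) .no (.br 1346 (.red [.f 1338 1 3, .t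
  1345 2 4] 168 136 [1, 1] [(168, 136, [1, 1]), (184, 136, [1, 1, 1])]) .no (.br 1105 (.use 784)
  (.hor [.f 970 3 1, .f 977 1 5] [(138, 136, [3, 3])]) (.use 573) .no .no (.red [.f 1096 5 3, .f
  1097 3 5, .f 1089 5 3, .f 961 3 1, .t 960 4 1] 136 136 [] [(136, 136, []), (137, 136, [3])]))
  .no (.use 778) .no) .no) .no (.hor [.f 1098 3 5] []) .no .no .no) .no (.red [.t 1345 2 4, .t
  1216 2 4] 152 136 [1] [(152, 136, [1]), (168, 136, [1, 1])]) (.red [.t 1329 2 3, .f 1200 3 5, .f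
  1080 5 1, .f 1080 1 3] 152 136 [1] [(152, 136, [1]), (167, 166, [3])]) (.br 1218 (.hor [.f 1217
  1 5] []) .no (.br 1219 (.use 783) .no (.hor [.f 1218 3 5] []) (.use 629) .no .no) .no (.use 780)
  .no) (.red [.f 1209 5 1, .f 1209 1 3, .t 1216 2 4] 152 136 [1] [(152, 136, [1]), (168, 136, [1,
  1])]))

def c10t794 : Tr4 :=
  .br 1096 (.con 136 [3, 3, 1]) (.br 1225 (.hor [.f 1217 1 3, .f 1217 3 5] [(169, 153, [1])]) .no
  (.hor [.f 1097 3 1, .t 1225 2 4, .f 961 3 1, .f 968 1 5] [(137, 136, [3]), (153, 136, [3, 1]),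
  (154, 136, [3, 3, 1])]) .no .no (.br 1104 (.red [.t 1104 1 4, .t 1225 2 4, .t 1218 2 4] 152 136
  [1] [(152, 136, [1]), (153, 136, [3, 1]), (154, 136, [3, 3, 1])]) (.hor [.f 968 1 3, .f 1096 3
  5] [(138, 137, [3])]) (.br 1337 (.hor [.f 1337 1 5] []) .no .no .no .no (.br 1346 (.red [.f 1338
  1 3, .t 1345 2 4, .t 1216 2 4] 152 136 [1] [(152, 136, [1]), (168, 136, [1, 1]), (184, 136, [1,
  1, 1])]) .no (.hor [.f 1218 3 1, .f 1217 1 5] [(169, 153, [1])]) .no (.br 1344 (.br 1227 (.hor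
  [.t 1226 4 1, .f 1217 1 5] [(169, 153, [1])]) .no (.br 1106 (.hor [.t 1234 2 4, .f 1097 3 5]
  [(154, 136, [3, 3, 1])]) .no (.br 1232 (.use 721) .no (.red [.f 1104 3 1, .t 1104 1 4, .t 1225 2
  4, .t 1218 2 4] 152 136 [1] [(152, 136, [1]), (153, 136, [3, 1]), (154, 136, [3, 3, 1]), (155,
  136, [3, 3, 1, 3])]) .no (.red [.f 1224 5 3, .f 1097 3 1, .t 1225 2 4, .t 1218 2 4] 152 136 [1]
  [(152, 136, [1]), (153, 136, [3, 1]), (154, 136, [3, 3, 1])]) .no) .no (.red [.f 1098 5 3, .f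
  970 3 1, .t 969 4 1, .t 960 4 1, .t 1105 4 2] 136 136 [] [(136, 136, []), (137, 136, [3])]) .no)
  .no .no .no) .no (.hor [.t 1344 3 2, .f 1217 3 5] [(169, 153, [1])]) .no .no .no) .no)) .no .no
  .no)) (.hor [.f 1096 3 5] []) .no .no .no

def c10t795 : Tr4 :=
  .br 1347 (.con 136 [1, 1, 3, 1]) .no (.hor [.f 1346 3 5] []) (.con 136 [1, 1, 3, 1]) .no .no

def c10t796 : Tr4 :=
  .br 1346 (.red [.f 1338 1 3, .t 1345 2 4] 168 136 [1, 1] [(168, 136, [1, 1]), (184, 136, [1, 1,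
  1])]) .no (.use 795) .no (.use 778) .no

def c10t797 : Tr4 :=
  .br 1218 (.hor [.f 1217 1 5] []) .no (.br 1219 (.use 612) .no (.hor [.f 1218 3 5] []) (.br 1097
  (.use 776) .no (.use 794) .no .no (.use 725)) .no .no) .no (.use 796) .no

def c10t798 : Tr4 :=
  .br 1202 (.hor [.f 1201 1 5] []) .no .no .no .no .no

def c10t799 : Tr4 :=
  .br 1202 (.hor [.f 1201 1 5] []) .no .no (.red [.f 1065 5 3, .f 1066 3 1, .f 1074 1 5, .f 1074 5
  3, .f 947 3 1] 135 136 [4] [(135, 136, [4]), (150, 151, [4])]) .no .no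

def c10t800 : Tr4 :=
  .br 938 (.red [.t 937 3 1, .f 944 1 5, .f 1072 5 3, .f 1072 3 1] 151 136 [4, 1] [(134, 118,
  [1]), (151, 136, [4, 1])]) (.red [.f 810 1 3] 118 136 [2, 4, 4] [(118, 136, [2, 4, 4])]) .no
  (.br 817 .no (.use 698) .no (.red [.f 809 3 1, .f 817 1 5] 118 136 [2, 4, 4] [(118, 136, [2, 4,
  4])]) .no (.br 936 (.br 1201 (.br 939 (.br 810 .no (.use 700) .no (.red [.f 802 3 1, .f 810 1 3]
  118 136 [2, 4, 4] [(117, 136, [2, 4, 4, 4]), (118, 136, [2, 4, 4])]) (.br 1066 (.use 798) .no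
  .no (.red [.f 930 3 1, .f 938 1 5, .f 810 5 1, .f 810 1 3] 118 136 [2, 4, 4] [(118, 136, [2, 4,
  4]), (133, 117, [1])]) .no (.use 799)) (.red [.f 816 5 3, .t 945 4 2] 118 136 [2, 4, 4] [(118,
  136, [2, 4, 4])])) (.con 136 [2, 4, 4, 4]) .no (.hor [.f 930 3 5] []) .no .no) .no .no (.br 1065
  .no .no .no (.br 1066 (.red [.f 936 1 3, .t 1193 3 2, .t 1200 3 2] 151 136 [4, 1] [(134, 118,
  [1]), (150, 136, [4, 4, 1]), (151, 136, [4, 1])]) .no .no (.hor [.f 1057 3 5] []) (.br 939 .no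
  (.con 136 [2, 4, 4, 4]) .no (.hor [.f 930 3 5] []) .no .no) .no) (.red [.f 1065 5 3, .f 1065 3
  1, .t 1200 3 2] 151 136 [4, 1] [(150, 136, [4, 4, 1]), (151, 136, [4, 1])]) .no) (.red [.f 936 1
  3, .f 1073 5 1, .t 1200 3 2, .f 1080 1 3] 152 136 [1] [(134, 118, [1]), (151, 136, [4, 1]),
  (152, 136, [1])]) .no) (.red [.t 936 2 3, .f 817 1 5] 118 136 [2, 4, 4] [(118, 136, [2, 4, 4])])
  .no (.use 704) .no .no)) (.use 745) .no

def c10t801 : Tr4 :=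
  .br 832 .no (.hor [.f 704 1 5] []) (.br 841 .no (.use 596) (.br 1201 (.use 793) .no .no (.br
  1338 (.br 1099 (.br 1097 (.br 1218 (.hor [.f 1217 1 5] []) .no (.br 1219 (.use 612) .no .no
  (.red [.t 1225 2 4, .t 1218 2 4, .f 1075 1 3] 152 136 [1] [(151, 136, [4, 1]), (152, 136, [1]),
  (153, 136, [3, 1])]) .no .no) .no (.br 1346 (.red [.f 1338 1 3, .t 1345 2 4] 168 136 [1, 1]
  [(168, 136, [1, 1]), (184, 136, [1, 1, 1])]) .no (.use 781) .no (.use 785) .no) .no) .no (.hor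
  [.f 1097 3 5] []) .no .no (.br 1105 (.br 1218 (.hor [.f 1217 1 5] []) .no (.br 1219 (.use 612)
  .no .no (.use 629) .no .no) .no (.br 1346 (.red [.f 1338 1 3, .t 1345 2 4] 168 136 [1, 1] [(168,
  136, [1, 1]), (184, 136, [1, 1, 1])]) .no (.use 784) .no (.use 785) .no) .no) (.hor [.f 970 3 1,
  .f 977 1 5] [(138, 136, [3, 3])]) (.use 573) .no .no (.red [.f 1096 5 3, .f 1097 3 5, .f 1089 5
  3, .f 961 3 1, .t 960 4 1] 136 136 [] [(136, 136, []), (137, 136, [3])]))) .no (.hor [.f 1098 3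
  5] []) .no .no .no) .no (.red [.t 1345 2 4, .t 1216 2 4] 152 136 [1] [(152, 136, [1]), (168,
  136, [1, 1])]) (.use 782) (.br 1218 (.hor [.f 1217 1 5] []) .no (.br 1097 (.use 776) .no (.hor
  [.f 1097 3 5] []) .no .no (.br 1219 (.con 136 [1, 1, 4, 2]) .no (.con 136 [1, 1, 4, 2]) (.use
  629) .no .no)) .no (.con 136 [1, 1, 4, 2]) .no) (.red [.f 1209 5 1, .f 1209 1 3, .t 1216 2 4, .f
  952 3 1, .f 944 1 3] 136 136 [] [(135, 136, [4]), (136, 136, []), (152, 136, [1]), (168, 136,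
  [1, 1])])) (.red [.f 1073 5 1, .f 1073 1 5, .f 1201 5 3, .t 1202 3 2] 151 136 [4, 1] [(151, 136,
  [4, 1])]) .no) .no (.red [.t 961 3 2, .f 961 5 1, .t 960 4 1, .t 840 4 1] 136 136 [] [(136, 136,
  [])]) .no) .no .no .no

def c10t802 : Tr4 :=
  .br 1331 (.hor [.f 1330 1 5] []) .no .no .no .no .no

def c10t803 : Tr4 :=
  .br 1056 (.br 1330 (.br 1185 (.br 1322 (.red [.f 1322 1 3, .f 1194 3 1] 166 136 [4, 4, 1, 1]
  [(166, 136, [4, 4, 1, 1]), (182, 136, [4, 4, 1, 1, 1])]) .no .no (.con 136 [4, 4, 4, 1, 1, 4])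
  (.use 802) (.red [.t 1201 1 4] 166 136 [4, 4, 1, 1] [(166, 136, [4, 4, 1, 1])])) .no .no (.red
  [.f 1049 3 1, .f 1056 1 5] 148 136 [4, 4, 4, 4, 1] [(148, 136, [4, 4, 4, 4, 1])]) (.red [.t 1065
  1 4] 149 136 [4, 4, 4, 1] [(149, 136, [4, 4, 4, 1])]) .no) .no .no (.red [.f 1194 3 1, .f 1201 1
  5] 166 136 [4, 4, 1, 1] [(166, 136, [4, 4, 1, 1])]) (.br 1195 (.red [.t 1194 3 1, .f 1201 1 5]
  166 136 [4, 4, 1, 1] [(166, 136, [4, 4, 1, 1])]) .no .no (.con 136 [4, 4, 4, 1, 4]) .no .no)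
  .no) (.hor [.f 928 1 3, .f 928 3 5] [(133, 136, [4, 4, 4])]) .no (.hor [.f 1048 3 5] []) .no .no

def c10t804 : Tr4 :=
  .br 819 .no .no .no (.con 136 [2, 2, 4, 4, 1, 3, 2, 4, 1, 3, 3]) .no .no

def c10t805 : Tr4 :=
  .br 936 .no (.use 804) .no (.hor [.f 928 3 5] []) .no .no

def c10t806 : Tr4 :=
  .br 1322 (.red [.f 1322 1 3, .f 1194 3 1] 166 136 [4, 1, 4, 1] [(166, 136, [4, 1, 4, 1]), (182,
  136, [4, 1, 4, 1, 1])]) .no .no (.br 1331 (.hor [.f 1330 1 5] []) .no .no (.br 1328 (.con 136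
  [4, 1, 4, 1, 1]) .no .no (.br 1321 (.con 136 [4, 1, 4, 1, 4, 1]) .no .no (.hor [.f 1313 3 5] [])
  .no .no) .no .no) .no .no) (.use 802) (.red [.t 1201 1 4] 166 136 [4, 1, 4, 1] [(166, 136, [4,
  1, 4, 1])])

def c10t807 : Tr4 :=
  .br 1344 (.use 722) .no (.hor [.t 1344 3 2, .f 1217 3 5] [(169, 153, [1])]) (.br 1330 (.use 806)
  .no .no (.red [.f 1194 3 1, .f 1201 1 5] 166 136 [4, 1, 4, 1] [(166, 136, [4, 1, 4, 1])]) (.br
  1195 (.red [.t 1194 3 1, .f 1201 1 5] 166 136 [4, 1, 4, 1] [(166, 136, [4, 1, 4, 1])]) .no .no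
  (.br 1322 (.br 1323 (.hor [.f 1322 1 5] []) .no .no (.red [.f 1187 3 1, .t 1194 3 1] 166 136 [4,
  1, 4, 1] [(165, 136, [4, 1, 4, 1, 4]), (166, 136, [4, 1, 4, 1])]) .no .no) .no .no (.br 1323
  (.br 1321 (.con 136 [4, 1, 4, 1, 4, 1]) .no .no (.hor [.f 1313 3 5] []) .no (.con 136 [4, 1, 4,
  1, 4, 1])) .no .no (.hor [.f 1314 3 5] []) .no .no) (.red [.f 1322 5 3, .f 1194 3 1] 166 136 [4,
  1, 4, 1] [(166, 136, [4, 1, 4, 1])]) (.red [.t 1201 1 4] 166 136 [4, 1, 4, 1] [(166, 136, [4, 1,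
  4, 1])])) .no .no) .no) .no .no

def c10t808 : Tr4 :=
  .br 936 (.red [.f 929 3 1, .t 937 1 3] 133 136 [4, 4, 4] [(133, 136, [4, 4, 4]), (134, 136, [4,
  4])]) (.use 804) .no (.hor [.f 928 3 5] []) .no .no

def c10t809 : Tr4 :=
  .br 816 .no .no .no (.hor [.t 816 4 1, .f 937 3 5] [(118, 120, [4, 4])]) .no .no

def c10t810 : Tr4 :=
  .br 1338 (.use 797) .no (.red [.t 1345 2 4, .t 1216 2 4] 152 136 [1] [(152, 136, [1]), (168,
  136, [1, 1])]) (.red [.t 1329 2 3, .f 1200 3 5, .f 1080 5 1, .f 1080 1 3] 152 136 [1] [(152,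
  136, [1]), (167, 151, [1])]) (.br 1218 (.hor [.f 1217 1 5] []) .no (.br 1219 (.con 136 [1, 1, 4,
  2]) .no (.con 136 [1, 1, 4, 2]) (.br 1097 (.use 776) .no (.br 1096 (.con 136 [3, 3, 1]) (.br
  1225 (.hor [.f 1217 1 3, .f 1217 3 5] [(169, 153, [1])]) .no (.hor [.f 1097 3 1, .t 1225 2 4, .f
  961 3 1, .f 968 1 5] [(137, 136, [3]), (153, 136, [3, 1]), (154, 136, [3, 3, 1])]) .no .no (.br
  704 .no (.br 696 .no (.use 718) .no (.br 699 .no (.use 719) (.con 136 [2, 2, 3, 1, 4]) (.br 1346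
  (.br 1106 (.use 469) .no (.br 937 (.red [.t 937 1 3, .t 946 1 3] 135 136 [4] [(134, 136, [4,
  4]), (135, 136, [4])]) (.hor [.f 809 1 3, .f 937 3 5] [(118, 120, [4, 4])]) .no (.br 1104 (.red
  [.t 1104 1 4, .t 1225 2 4, .t 1218 2 4] 152 136 [1] [(152, 136, [1]), (153, 136, [3, 1]), (154,
  136, [3, 3, 1])]) (.hor [.f 968 1 3, .f 1096 3 5] [(138, 137, [3])]) (.br 1202 (.hor [.f 1201 1
  5] []) .no .no (.br 1066 .no .no .no (.br 1065 (.br 936 (.br 1067 (.con 136 [4, 4, 4, 1]) (.br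
  816 .no .no .no (.br 1057 (.red [.f 1057 1 3, .f 1057 3 5] 149 136 [4, 4, 4, 1] [(149, 136, [4,
  4, 4, 1])]) .no .no (.use 803) .no (.hor [.t 936 1 4, .t 816 4 1, .f 937 3 5] [(118, 120, [4,
  4]), (133, 136, [4, 4, 4])])) .no .no) .no (.hor [.f 1058 3 5] []) .no .no) (.use 804) .no (.hor
  [.f 928 3 5] []) .no .no) .no .no (.hor [.f 1057 3 5] []) .no (.use 805)) (.br 1065 (.use 807)
  .no .no (.use 808) .no (.use 805)) (.use 799)) .no .no) .no .no .no) .no (.use 809)) .no (.red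
  [.f 1098 5 3, .f 970 3 1, .t 969 4 1, .t 960 4 1, .t 1105 4 2] 136 136 [] [(136, 136, []), (137,
  136, [3])]) .no) .no (.hor [.f 1218 3 1, .f 1217 1 5] [(169, 153, [1])]) .no (.red [.f 1338 5 3,
  .f 1211 3 1, .t 1345 2 4, .f 1210 1 5, .f 1082 5 1, .t 1209 3 2] 152 136 [1] [(152, 136, [1])])
  .no) .no (.red [.f 698 5 1, .f 690 1 3, .t 817 1 3, .t 944 1 3] 135 136 [4] [(103, 136, [2, 2,
  4]), (119, 136, [2, 4]), (135, 136, [4])])) (.red [.f 696 5 1, .f 697 1 3, .t 833 4 1, .t 962 4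
  1] 136 136 [] [(104, 136, [2, 2]), (120, 136, [2]), (136, 136, [])]) .no) (.hor [.f 704 3 1, .f
  704 1 5] [(105, 104, [3])]) (.red [.t 704 4 1, .t 833 4 1, .t 962 4 1] 136 136 [] [(104, 136,
  [2, 2]), (120, 136, [2]), (136, 136, [])]) .no .no)) (.hor [.f 1096 3 5] []) .no .no .no) .no
  .no (.use 725)) .no .no) .no (.con 136 [1, 1, 4, 2]) .no) (.red [.f 1209 5 1, .f 1209 1 3, .t
  1216 2 4, .f 952 3 1, .f 944 1 3] 136 136 [] [(135, 136, [4]), (136, 136, []), (152, 136, [1]),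
  (168, 136, [1, 1])])

def c10t811 : Tr4 :=
  .br 937 .no (.hor [.f 809 1 3, .f 937 3 5] [(118, 120, [4, 4])]) .no (.br 704 .no (.br 696 .no
  (.use 718) .no (.br 699 .no (.use 719) (.con 136 [2, 2, 3, 1, 4]) (.use 805) .no (.red [.f 698 5
  1, .f 690 1 3, .t 817 1 3, .t 944 1 3] 135 136 [4] [(103, 136, [2, 2, 4]), (119, 136, [2, 4]),
  (135, 136, [4])])) (.red [.f 696 5 1, .f 697 1 3, .t 833 4 1, .t 962 4 1] 136 136 [] [(104, 136,
  [2, 2]), (120, 136, [2]), (136, 136, [])]) .no) (.hor [.f 704 3 1, .f 704 1 5] [(105, 104,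
  [3])]) (.red [.t 704 4 1, .t 833 4 1, .t 962 4 1] 136 136 [] [(104, 136, [2, 2]), (120, 136,
  [2]), (136, 136, [])]) .no .no) .no (.red [.f 936 5 1, .t 937 1 3, .t 946 1 3] 135 136 [4]
  [(134, 136, [4, 4]), (135, 136, [4])])

def c10t812 : Tr4 :=
  .br 1330 (.use 806) .no .no (.red [.f 1194 3 1, .f 1201 1 5] 166 136 [4, 1, 4, 1] [(166, 136,
  [4, 1, 4, 1])]) (.br 1195 (.red [.t 1194 3 1, .f 1201 1 5] 166 136 [4, 1, 4, 1] [(166, 136, [4,
  1, 4, 1])]) .no .no (.con 136 [4, 1, 4, 4, 1]) .no .no) .no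

def c10t813 : Tr4 :=
  .br 939 (.br 811 .no .no .no (.hor [.f 802 3 5] []) .no .no) (.hor [.t 938 3 2, .f 817 1 5]
  [(118, 135, [2, 4])]) .no (.br 811 .no .no .no (.hor [.f 802 3 5] []) .no .no) .no .no

def c10t814 : Tr4 :=
  .br 810 .no (.hor [.t 682 1 3, .f 810 3 1, .f 817 1 5] [(102, 135, [2, 4, 2]), (118, 135, [2,
  4])]) .no (.use 813) (.red [.f 810 5 3, .f 810 3 1, .f 817 1 5, .f 945 5 1, .t 946 1 3] 135 136
  [4] [(118, 119, [4]), (135, 136, [4])]) (.red [.t 945 2 4, .f 945 5 1, .t 946 1 3] 135 136 [4]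
  [(118, 119, [4]), (135, 136, [4])])

def c10t815 : Tr4 :=
  .br 696 .no (.br 816 .no (.use 407) .no .no .no .no) (.br 816 .no (.br 697 .no (.br 691 .no
  (.red [.f 563 1 3, .t 698 1 4, .t 817 1 3, .t 944 1 3] 135 136 [4] [(87, 136, [2, 2, 2, 4]),
  (103, 136, [2, 2, 4]), (119, 136, [2, 4]), (135, 136, [4])]) .no (.use 814) .no (.red [.f 690 5
  1, .f 690 1 3, .t 817 1 3, .t 944 1 3] 135 136 [4] [(103, 136, [2, 2, 4]), (119, 136, [2, 4]),
  (135, 136, [4])])) .no (.hor [.t 688 1 3, .f 697 1 5] [(103, 136, [2, 2, 4])]) .no .no) .no .no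
  .no .no) (.con 136 [2, 2, 4, 4, 1, 3, 3]) (.br 691 .no (.red [.f 563 1 3, .t 698 1 4, .t 817 1
  3, .t 944 1 3] 135 136 [4] [(87, 136, [2, 2, 2, 4]), (103, 136, [2, 2, 4]), (119, 136, [2, 4]),
  (135, 136, [4])]) .no (.use 814) .no (.red [.f 696 5 1, .f 690 5 1, .f 690 1 3, .t 817 1 3, .t
  944 1 3] 135 136 [4] [(103, 136, [2, 2, 4]), (119, 136, [2, 4]), (135, 136, [4])])) .no

def c10t816 : Tr4 :=
  .br 936 .no (.use 815) .no (.hor [.f 928 3 5] []) .no .no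

def c10t817 : Tr4 :=
  .br 936 (.red [.f 929 3 1, .t 937 1 3] 133 136 [4, 4, 4] [(133, 136, [4, 4, 4]), (134, 136, [4,
  4])]) (.use 815) .no (.hor [.f 928 3 5] []) .no .no

def c10t818 : Tr4 :=
  .br 810 .no (.hor [.t 682 1 3, .f 810 3 1, .f 817 1 5] [(102, 135, [2, 2, 4]), (118, 135, [2,
  4])]) .no (.use 813) (.red [.f 810 5 3, .f 810 3 1, .f 817 1 5, .f 945 5 1, .t 946 1 3] 135 136
  [4] [(118, 119, [4]), (135, 136, [4])]) (.red [.t 945 2 4, .f 945 5 1, .t 946 1 3] 135 136 [4]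
  [(118, 119, [4]), (135, 136, [4])])

def c10l32 : List Tr4 :=
  [c10t791, c10t792, c10t793, c10t794, c10t795, c10t796, c10t797, c10t798, c10t799, c10t800,
  c10t801, c10t802, c10t803, c10t804, c10t805, c10t806, c10t807, c10t808, c10t809, c10t810,
  c10t811, c10t812, c10t813, c10t814, c10t815, c10t816, c10t817, c10t818]

theorem c10k32 : chkLF ⟨4, 0, 0, true, -8⟩ true 0 c10N 791 c10l32 = true := by decide +kernel

def c10t819 : Tr4 :=
  .br 816 .no (.br 696 .no (.use 407) (.br 697 .no (.br 691 .no (.red [.f 563 1 3, .t 698 1 4, .t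
  817 1 3, .t 944 1 3] 135 136 [4] [(87, 136, [2, 2, 2, 4]), (103, 136, [2, 2, 4]), (119, 136, [2,
  4]), (135, 136, [4])]) .no (.use 818) .no (.red [.f 690 5 1, .f 690 1 3, .t 817 1 3, .t 944 1 3]
  135 136 [4] [(103, 136, [2, 2, 4]), (119, 136, [2, 4]), (135, 136, [4])])) .no (.hor [.t 688 1
  3, .f 697 1 5] [(103, 136, [2, 2, 4])]) .no .no) .no (.br 691 .no (.red [.f 563 1 3, .t 698 1 4,
  .t 817 1 3, .t 944 1 3] 135 136 [4] [(87, 136, [2, 2, 2, 4]), (103, 136, [2, 2, 4]), (119, 136,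
  [2, 4]), (135, 136, [4])]) .no (.use 818) .no (.red [.f 696 5 1, .f 690 5 1, .f 690 1 3, .t 817
  1 3, .t 944 1 3] 135 136 [4] [(103, 136, [2, 2, 4]), (119, 136, [2, 4]), (135, 136, [4])])) .no)
  .no (.hor [.t 816 4 1, .f 937 3 5] [(118, 120, [4, 4])]) .no .no

def c10t820 : Tr4 :=
  .br 1218 (.hor [.f 1217 1 5] []) .no (.br 1219 (.con 136 [1, 1, 4, 2]) .no (.con 136 [1, 1, 4,
  2]) (.br 1097 (.use 776) .no (.br 1096 (.con 136 [3, 3, 1]) (.br 1225 (.hor [.f 1217 1 3, .f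
  1217 3 5] [(169, 153, [1])]) .no (.hor [.f 1097 3 1, .t 1225 2 4, .f 961 3 1, .f 968 1 5] [(137,
  136, [3]), (153, 136, [3, 1]), (154, 136, [3, 3, 1])]) .no .no (.br 1346 (.br 1106 (.use 469)
  .no (.br 937 (.red [.t 937 1 3, .t 946 1 3] 135 136 [4] [(134, 136, [4, 4]), (135, 136, [4])])
  (.hor [.f 809 1 3, .f 937 3 5] [(118, 120, [4, 4])]) .no (.br 1104 (.red [.t 1104 1 4, .t 1225 2
  4, .t 1218 2 4] 152 136 [1] [(152, 136, [1]), (153, 136, [3, 1]), (154, 136, [3, 3, 1])]) (.hor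
  [.f 968 1 3, .f 1096 3 5] [(138, 137, [3])]) (.br 1202 (.hor [.f 1201 1 5] []) .no .no (.br 1066
  .no .no .no (.br 1065 (.br 939 (.br 1344 (.use 722) .no (.hor [.t 1344 3 2, .f 1217 3 5] [(169,
  153, [1])]) (.br 936 (.br 1057 (.red [.f 1057 1 3, .f 1057 3 5] 149 136 [4, 4, 4, 1] [(149, 136,
  [4, 4, 4, 1])]) .no .no (.use 803) .no (.br 1192 (.use 812) .no .no (.red [.t 1192 4 2, .f 1057
  3 5] 149 136 [4, 4, 4, 1] [(149, 136, [4, 4, 4, 1])]) .no .no)) (.br 1064 (.hor [.f 1064 1 5]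
  []) .no .no (.br 1192 (.use 812) .no .no (.red [.f 1056 3 1, .f 1064 1 5] 149 136 [4, 4, 4, 1]
  [(149, 136, [4, 4, 4, 1])]) .no .no) .no .no) .no (.hor [.f 928 3 5] []) .no .no) .no .no) (.hor
  [.t 938 3 2, .f 817 1 5] [(118, 120, [4, 4])]) .no (.br 1067 (.br 1064 (.hor [.f 1064 1 5] [])
  (.con 136 [4, 4, 4, 1]) .no (.con 136 [4, 4, 4, 1]) .no .no) .no .no (.hor [.f 1058 3 5] []) .no
  .no) .no .no) .no .no (.hor [.f 1057 3 5] []) .no (.use 816)) (.br 1065 (.use 807) .no .no (.use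
  817) .no (.use 816)) (.use 799)) .no .no) .no .no .no) .no (.use 819)) .no (.red [.f 1098 5 3,
  .f 970 3 1, .t 969 4 1, .t 960 4 1, .t 1105 4 2] 136 136 [] [(136, 136, []), (137, 136, [3])])
  .no) .no (.hor [.f 1218 3 1, .f 1217 1 5] [(169, 153, [1])]) .no (.red [.f 1338 5 3, .f 1211 3
  1, .t 1345 2 4, .f 1210 1 5, .f 1082 5 1, .t 1209 3 2] 152 136 [1] [(152, 136, [1])]) .no))
  (.hor [.f 1096 3 5] []) .no .no .no) .no .no (.use 725)) .no .no) .no (.con 136 [1, 1, 4, 2])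
  .no

def c10t821 : Tr4 :=
  .br 818 .no (.br 826 .no (.use 717) .no .no (.br 971 (.use 544) (.br 1098 (.use 403) .no (.use
  801) .no (.br 832 .no (.hor [.f 704 1 5] []) (.br 841 .no (.use 596) (.br 1201 (.use 810) .no
  .no (.br 1066 (.red [.t 1193 3 2, .t 1200 3 2] 151 136 [4, 1] [(150, 136, [4, 4, 1]), (151, 136,
  [4, 1])]) .no .no (.br 1065 .no (.red [.t 937 1 3, .t 946 1 3] 135 136 [4] [(134, 136, [4, 4]),
  (135, 136, [4])]) .no (.hor [.f 1057 3 5] []) .no (.use 811)) (.br 1065 .no (.red [.t 937 1 3,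
  .t 946 1 3] 135 136 [4] [(134, 136, [4, 4]), (135, 136, [4])]) .no (.br 704 .no (.br 696 .no
  (.use 718) .no (.br 937 .no (.hor [.f 809 1 3, .f 937 3 5] [(118, 120, [4, 4])]) .no (.br 699
  .no (.use 719) (.con 136 [2, 2, 3, 1, 4]) (.use 808) .no (.red [.f 698 5 1, .f 690 1 3, .t 817 1
  3, .t 944 1 3] 135 136 [4] [(103, 136, [2, 2, 4]), (119, 136, [2, 4]), (135, 136, [4])])) .no
  (.use 809)) (.red [.f 696 5 1, .f 697 1 3, .t 833 4 1, .t 962 4 1] 136 136 [] [(104, 136, [2,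
  2]), (120, 136, [2]), (136, 136, [])]) .no) (.hor [.f 704 3 1, .f 704 1 5] [(105, 104, [3])])
  (.red [.t 704 4 1, .t 833 4 1, .t 962 4 1] 136 136 [] [(104, 136, [2, 2]), (120, 136, [2]),
  (136, 136, [])]) .no .no) .no (.use 811)) (.red [.f 1065 5 3, .f 938 3 1, .t 946 1 3, .f 955 1
  3] 136 136 [] [(134, 136, [4, 4]), (135, 136, [4]), (136, 136, [])])) (.red [.f 1073 5 1, .f
  1073 1 5, .f 1201 5 3, .t 1202 3 2] 151 136 [4, 1] [(151, 136, [4, 1])]) .no) .no (.red [.t 961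
  3 2, .f 961 5 1, .t 960 4 1, .t 840 4 1] 136 136 [] [(136, 136, [])]) .no) .no .no .no) (.red
  [.f 1089 5 3, .f 961 3 1, .t 960 4 1] 136 136 [] [(136, 136, []), (137, 136, [3])])) (.hor [.f
  970 3 5] []) .no .no .no) .no) (.red [.t 817 1 3, .t 944 1 3] 135 136 [4] [(119, 136, [2, 4]),
  (135, 136, [4])]) (.hor [.f 810 3 1, .f 817 1 5] [(118, 120, [4, 4])]) (.br 826 .no (.br 971
  (.use 544) (.br 1098 (.use 403) .no (.use 801) .no (.br 827 .no (.hor [.f 698 1 5] []) (.br 832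
  .no (.hor [.f 704 1 5] []) (.br 841 .no (.use 596) (.br 699 .no (.br 1201 (.br 1338 (.use 797)
  .no (.red [.t 1345 2 4, .t 1216 2 4] 152 136 [1] [(152, 136, [1]), (168, 136, [1, 1])]) (.red
  [.t 1329 2 3, .f 1200 3 5, .f 1080 5 1, .f 1080 1 3] 152 136 [1] [(152, 136, [1]), (167, 151,
  [1])]) (.use 820) (.red [.f 1209 5 1, .f 1209 1 3, .t 1216 2 4, .f 952 3 1, .f 944 1 3] 136 136
  [] [(135, 136, [4]), (136, 136, []), (152, 136, [1]), (168, 136, [1, 1])])) .no .no (.br 937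
  (.red [.t 937 1 3, .t 946 1 3] 135 136 [4] [(134, 136, [4, 4]), (135, 136, [4])]) (.hor [.f 809
  1 3, .f 937 3 5] [(118, 120, [4, 4])]) .no (.br 1065 .no .no .no (.br 1066 (.red [.t 1193 3 2,
  .t 1200 3 2] 151 136 [4, 1] [(150, 136, [4, 4, 1]), (151, 136, [4, 1])]) .no .no (.hor [.f 1057
  3 5] []) (.use 817) .no) (.red [.f 1065 5 3, .f 938 3 1, .t 946 1 3, .f 955 1 3] 136 136 []
  [(134, 136, [4, 4]), (135, 136, [4]), (136, 136, [])]) (.use 816)) .no (.use 819)) (.red [.f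
  1073 5 1, .f 1073 1 5, .f 1201 5 3, .t 1202 3 2] 151 136 [4, 1] [(151, 136, [4, 1])]) .no) (.hor
  [.f 699 3 1, .f 698 1 5] [(104, 120, [2])]) (.red [.t 698 1 4, .t 817 1 3, .t 944 1 3] 135 136
  [4] [(103, 136, [2, 2, 4]), (119, 136, [2, 4]), (135, 136, [4])]) .no .no) .no (.red [.t 961 3
  2, .f 961 5 1, .t 960 4 1, .t 840 4 1] 136 136 [] [(136, 136, [])]) .no) .no .no .no) .no .no
  .no) (.red [.f 1089 5 3, .f 961 3 1, .t 960 4 1] 136 136 [] [(136, 136, []), (137, 136, [3])]))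
  (.hor [.f 970 3 5] []) .no .no .no) .no .no (.red [.f 818 5 3, .t 817 1 3, .t 944 1 3] 135 136
  [4] [(119, 136, [2, 4]), (135, 136, [4])]) .no) .no

def c10t822 : Tr4 :=
  .br 825 .no (.hor [.f 697 1 3, .f 824 3 5] [(104, 136, [2, 2])]) .no (.br 827 .no (.con 136 [2,
  2]) (.br 826 .no (.br 818 .no (.red [.f 690 1 3] 103 136 [2, 2, 4] [(103, 136, [2, 2, 4])]) .no
  (.red [.f 810 3 1, .t 817 3 1, .f 946 3 5, .t 834 1 4, .t 962 4 1] 136 136 [] [(118, 134, [2]),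
  (119, 103, [1]), (120, 136, [2]), (136, 136, [])]) (.br 697 .no (.use 240) .no (.red [.f 689 3
  1, .f 697 1 5] 103 136 [2, 2, 4] [(103, 136, [2, 2, 4])]) .no (.br 816 .no (.red [.t 832 4 2, .t
  696 1 3, .t 816 2 3, .f 697 1 5] 103 136 [2, 2, 4] [(103, 136, [2, 2, 4])]) .no (.br 1072 .no
  .no .no (.br 937 (.red [.t 1064 3 2, .f 937 3 5] 134 136 [4, 4] [(134, 136, [4, 4])]) (.use 730)
  .no (.use 278) .no (.red [.f 936 5 3, .f 936 3 1] 134 136 [4, 4] [(134, 136, [4, 4])])) .no .no)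
  .no .no)) .no) .no (.hor [.f 817 3 5] []) .no .no) (.con 136 [2, 2]) .no (.con 136 [2, 2]))
  (.red [.f 824 3 1, .f 825 5 1, .f 826 1 3, .t 962 4 1] 136 136 [] [(136, 136, [])]) .no

def c10t823 : Tr4 :=
  .br 1202 (.hor [.f 1201 1 5] []) .no .no (.red [.t 1193 2 3, .f 1064 3 5, .f 1072 5 3, .f 1072 3
  1] 151 136 [4, 1] [(150, 134, [1]), (151, 136, [4, 1])]) .no .no

def c10t824 : Tr4 :=
  .br 930 (.red [.t 930 1 3, .f 1057 3 5] 133 136 [4, 4, 4] [(133, 136, [4, 4, 4])]) (.con 136 [4,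
  4, 4, 2, 4]) .no (.hor [.f 921 3 5] []) .no .no

def c10t825 : Tr4 :=
  .br 1225 (.hor [.f 1217 1 3, .f 1217 3 5] [(169, 153, [1])]) .no (.hor [.f 1097 3 1, .t 1225 2
  4, .f 961 3 1, .f 968 1 5] [(137, 136, [3]), (153, 136, [3, 1]), (154, 136, [3, 3, 1])]) .no .no
  (.br 1072 .no .no .no (.br 1065 (.use 823) (.red [.t 1064 3 2, .f 937 3 5] 134 136 [4, 4] [(134,
  136, [4, 4])]) .no (.br 937 .no (.br 1346 (.br 1106 (.use 469) .no (.br 1066 (.use 798) .no .no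
  (.hor [.f 1057 3 5] []) (.br 1104 (.red [.t 1104 1 4, .t 1225 2 4, .t 1218 2 4] 152 136 [1]
  [(152, 136, [1]), (153, 136, [3, 1]), (154, 136, [3, 3, 1])]) (.hor [.f 968 1 3, .f 1096 3 5]
  [(138, 137, [3])]) (.br 936 .no (.hor [.f 808 1 5] []) .no (.br 939 .no (.con 136 [2, 4, 4, 4])
  .no (.br 1202 (.hor [.f 1201 1 5] []) .no .no (.br 1344 (.use 722) .no (.hor [.t 1344 3 2, .f
  1217 3 5] [(169, 153, [1])]) (.br 929 .no (.red [.f 801 1 3] 117 136 [2, 4, 4, 4] [(117, 136,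
  [2, 4, 4, 4])]) .no (.use 824) (.br 1193 (.red [.f 1193 1 3, .f 1193 3 5] 166 136 [4, 4, 1, 1]
  [(166, 136, [4, 4, 1, 1])]) .no .no (.br 1192 (.br 1330 (.br 1331 (.hor [.f 1330 1 5] []) .no
  .no (.con 136 [4, 4, 1, 1, 4]) .no .no) .no .no (.red [.f 1194 3 1, .f 1201 1 5] 166 136 [4, 4,
  1, 1] [(166, 136, [4, 4, 1, 1])]) (.br 1195 (.red [.t 1194 3 1, .f 1201 1 5] 166 136 [4, 4, 1,
  1] [(166, 136, [4, 4, 1, 1])]) .no .no (.con 136 [4, 4, 4, 1, 1]) .no .no) .no) .no .no (.hor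
  [.f 1184 3 5] []) .no .no) .no (.br 1330 (.br 1328 (.br 1331 (.hor [.f 1330 1 5] []) .no .no
  (.con 136 [4, 4, 1, 1, 1]) .no .no) .no .no (.red [.t 1328 4 2, .f 1193 3 5] 166 136 [4, 4, 1,
  1] [(166, 136, [4, 4, 1, 1])]) .no .no) .no .no (.red [.f 1194 3 1, .f 1201 1 5] 166 136 [4, 4,
  1, 1] [(166, 136, [4, 4, 1, 1])]) (.br 1195 (.red [.t 1194 3 1, .f 1201 1 5] 166 136 [4, 4, 1,
  1] [(166, 136, [4, 4, 1, 1])]) .no .no (.br 1058 (.red [.t 1186 2 3, .f 1057 3 5, .f 1065 5 3,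
  .f 938 3 1] 134 136 [4, 4] [(134, 136, [4, 4]), (149, 133, [1])]) .no .no (.br 1059 .no .no .no
  (.hor [.f 1050 3 5] []) .no .no) (.red [.f 1058 5 3, .f 931 3 1] 133 136 [4, 4, 4] [(133, 136,
  [4, 4, 4])]) .no) .no .no) .no)) .no) .no .no) .no .no) .no .no) .no .no) .no .no .no) .no) .no
  (.red [.f 1098 5 3, .f 970 3 1, .t 969 4 1, .t 960 4 1, .t 1105 4 2] 136 136 [] [(136, 136, []),
  (137, 136, [3])]) .no) .no (.hor [.f 1218 3 1, .f 1217 1 5] [(169, 153, [1])]) .no (.red [.f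
  1338 5 3, .f 1211 3 1, .t 1345 2 4, .f 1210 1 5, .f 1082 5 1, .t 1209 3 2] 152 136 [1] [(152,
  136, [1])]) .no) .no (.red [.f 929 3 1, .t 937 1 3] 134 136 [4, 4] [(133, 136, [4, 4, 4]), (134,
  136, [4, 4])]) .no (.red [.f 936 5 3, .f 936 3 1] 134 136 [4, 4] [(134, 136, [4, 4])])) (.use
  799) .no) .no .no)

def c10t826 : Tr4 :=
  .br 1096 (.con 136 [3, 3, 1]) (.use 825) (.hor [.f 1096 3 5] []) .no .no .no

def c10t827 : Tr4 :=
  .br 1072 .no .no .no (.red [.f 936 5 3, .f 936 3 1] 134 136 [4, 4] [(134, 136, [4, 4])]) .no .no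

def c10t828 : Tr4 :=
  .br 1346 (.red [.f 1338 1 3, .t 1345 2 4] 168 136 [1, 1] [(168, 136, [1, 1]), (184, 136, [1, 1,
  1])]) .no (.use 795) .no (.use 785) .no

def c10t829 : Tr4 :=
  .br 1059 (.red [.t 1186 3 2, .f 931 3 1] 133 136 [4, 4, 4] [(133, 136, [4, 4, 4]), (149, 136,
  [4, 4, 4, 1])]) .no .no (.br 1058 .no .no .no (.hor [.f 1050 3 5] []) .no .no) .no (.red [.f
  1058 5 3, .f 931 3 1] 133 136 [4, 4, 4] [(133, 136, [4, 4, 4])])

def c10t830 : Tr4 :=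
  .br 1072 .no .no .no (.br 939 .no (.con 136 [4, 2, 4, 4]) .no (.br 1194 (.hor [.f 1194 1 3, .f
  1193 3 5] [(166, 134, [1, 1])]) .no .no (.br 929 .no (.red [.f 801 1 3] 117 136 [4, 2, 4, 4]
  [(117, 136, [4, 2, 4, 4])]) .no (.br 930 (.red [.t 937 2 3, .t 1057 3 2, .t 1064 3 2, .f 809 3
  1] 134 136 [4, 4] [(133, 136, [4, 4, 4]), (134, 136, [4, 4])]) (.con 136 [4, 2, 4, 4, 4]) .no
  (.hor [.f 921 3 5] []) .no .no) (.use 829) .no) (.red [.f 1066 5 1, .t 1193 3 2, .f 938 3 1] 134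
  136 [4, 4] [(134, 136, [4, 4]), (150, 136, [4, 4, 1])]) .no) .no .no) .no .no

def c10t831 : Tr4 :=
  .br 1201 (.br 971 (.use 544) (.br 1098 (.use 403) .no (.br 832 .no (.hor [.f 704 1 5] []) (.br
  841 .no (.use 596) (.use 793) .no (.red [.t 961 3 2, .f 961 5 1, .t 960 4 1, .t 840 4 1] 136 136
  [] [(136, 136, [])]) .no) (.use 822) .no .no) .no (.br 832 .no (.hor [.f 704 1 5] []) (.br 841
  .no (.use 596) (.br 1338 (.use 797) .no (.red [.t 1345 2 4, .t 1216 2 4] 152 136 [1] [(152, 136,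
  [1]), (168, 136, [1, 1])]) (.red [.t 1329 2 3, .f 1200 3 5, .f 1080 5 1, .f 1080 1 3] 152 136
  [1] [(152, 136, [1]), (167, 151, [1])]) (.br 1218 (.hor [.f 1217 1 5] []) .no (.br 1219 (.con
  136 [1, 1, 4, 2]) .no (.con 136 [1, 1, 4, 2]) (.br 1097 (.use 776) .no (.use 826) .no .no (.use
  725)) .no .no) .no (.con 136 [1, 1, 4, 2]) .no) (.red [.f 1209 5 1, .f 1209 1 3, .t 1216 2 4]
  152 136 [1] [(152, 136, [1]), (168, 136, [1, 1])])) .no (.red [.t 961 3 2, .f 961 5 1, .t 960 4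
  1, .t 840 4 1] 136 136 [] [(136, 136, [])]) .no) (.use 822) .no .no) (.red [.f 1089 5 3, .f 961
  3 1, .t 960 4 1] 136 136 [] [(136, 136, []), (137, 136, [3])])) (.hor [.f 970 3 5] []) .no .no
  .no) .no .no (.br 832 .no (.hor [.f 704 1 5] []) (.br 1065 .no (.red [.t 937 1 3, .t 946 1 3]
  135 136 [4] [(134, 136, [4, 4]), (135, 136, [4])]) .no (.br 1066 (.red [.t 1193 3 2, .f 938 3 1]
  134 136 [4, 4] [(134, 136, [4, 4]), (150, 136, [4, 4, 1])]) .no .no (.hor [.f 1057 3 5] []) (.br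
  825 .no (.br 824 .no (.hor [.f 696 1 5] []) .no (.br 937 .no (.br 817 .no (.use 679) .no .no
  (.br 698 (.hor [.f 697 1 5] []) (.red [.t 937 2 3, .f 697 1 3, .t 833 4 1, .t 962 4 1] 136 136
  [] [(104, 136, [2, 4, 2, 3]), (118, 134, [2]), (120, 136, [2]), (136, 136, [])]) (.red [.t 937 2
  3, .f 697 1 3, .t 833 4 1, .t 962 4 1] 136 136 [] [(104, 136, [2, 4, 2, 3]), (118, 134, [2]),
  (120, 136, [2]), (136, 136, [])]) (.red [.t 937 2 3, .f 697 1 3, .t 833 4 1, .t 962 4 1] 136 136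
  [] [(104, 136, [2, 4, 2, 3]), (118, 134, [2]), (120, 136, [2]), (136, 136, [])]) (.red [.t 937 2
  3, .f 697 1 3, .t 833 4 1, .t 962 4 1] 136 136 [] [(104, 136, [2, 4, 2, 3]), (118, 134, [2]),
  (120, 136, [2]), (136, 136, [])]) .no) .no) .no (.red [.f 929 3 1, .t 937 1 3] 134 136 [4, 4]
  [(133, 136, [4, 4, 4]), (134, 136, [4, 4])]) .no (.use 827)) .no .no) .no (.br 937 .no (.br 824
  .no (.use 753) .no (.hor [.f 816 3 5] []) .no .no) .no (.red [.f 929 3 1, .t 937 1 3] 134 136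
  [4, 4] [(133, 136, [4, 4, 4]), (134, 136, [4, 4])]) .no (.use 827)) (.red [.f 825 5 1, .f 826 1
  3, .t 962 4 1] 136 136 [] [(120, 136, [2]), (136, 136, [])]) (.br 937 .no (.br 936 (.con 136 [4,
  4, 4]) (.hor [.f 808 1 5] []) .no (.br 1202 (.br 816 .no (.br 817 .no (.hor [.f 688 1 5] []) .no
  .no (.use 830) .no) .no (.red [.t 808 3 1, .f 937 3 5, .f 945 5 1, .t 946 1 3] 135 136 [4]
  [(118, 117, [3]), (135, 136, [4])]) (.br 1072 .no .no .no (.br 939 .no (.con 136 [2, 4, 4, 4])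
  .no (.br 1194 (.hor [.f 1194 1 3, .f 1193 3 5] [(166, 134, [1, 1])]) .no .no (.br 929 .no (.red
  [.f 801 1 3] 117 136 [2, 4, 4, 4] [(117, 136, [2, 4, 4, 4])]) .no (.use 824) (.use 829) .no)
  (.red [.f 1066 5 1, .t 1193 3 2, .f 938 3 1] 134 136 [4, 4] [(134, 136, [4, 4]), (150, 136, [4,
  4, 1])]) .no) .no .no) .no .no) .no) .no .no (.hor [.f 1193 3 5] []) .no .no) .no .no) .no (.red
  [.f 929 3 1, .t 937 1 3] 134 136 [4, 4] [(133, 136, [4, 4, 4]), (134, 136, [4, 4])]) .no (.use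
  827))) .no) (.red [.f 1065 5 3, .f 938 3 1, .t 946 1 3, .f 955 1 3] 136 136 [] [(134, 136, [4,
  4]), (135, 136, [4]), (136, 136, [])]) (.con 136 [4, 4, 1, 3])) (.use 822) .no .no) (.red [.f
  1073 5 1, .f 1073 1 5, .f 1201 5 3, .t 1202 3 2] 151 136 [4, 1] [(151, 136, [4, 1])]) .no

def c10t832 : Tr4 :=
  .br 1219 (.use 612) .no (.hor [.f 1218 3 5] []) (.red [.t 1225 2 4, .t 1218 2 4, .f 1075 1 3]
  152 136 [1] [(151, 136, [4, 1]), (152, 136, [1]), (153, 136, [3, 1])]) .no .no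

def c10t833 : Tr4 :=
  .br 1097 (.use 832) .no (.hor [.f 1097 3 5] []) .no .no (.use 683)

def c10t834 : Tr4 :=
  .br 1218 (.hor [.f 1217 1 5] []) .no (.use 833) .no (.con 136 [1, 1, 4, 2]) .no

def c10l33 : List Tr4 :=
  [c10t819, c10t820, c10t821, c10t822, c10t823, c10t824, c10t825, c10t826, c10t827, c10t828,
  c10t829, c10t830, c10t831, c10t832, c10t833, c10t834]

theorem c10k33 : chkLF ⟨4, 0, 0, true, -8⟩ true 0 c10N 819 c10l33 = true := by decide +kernel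

def c10t835 : Tr4 :=
  .br 841 .no (.use 596) (.br 1201 (.br 1338 (.br 1218 (.hor [.f 1217 1 5] []) .no (.use 833) .no
  (.use 796) .no) .no (.red [.t 1345 2 4, .t 1216 2 4] 152 136 [1] [(152, 136, [1]), (168, 136,
  [1, 1])]) (.red [.t 1329 2 3, .f 1200 3 5, .f 1080 5 1, .f 1080 1 3] 152 136 [1] [(152, 136,
  [1]), (167, 151, [1])]) (.use 834) (.red [.f 1209 5 1, .f 1209 1 3, .t 1216 2 4] 152 136 [1]
  [(152, 136, [1]), (168, 136, [1, 1])])) .no .no (.br 1338 (.br 1218 (.hor [.f 1217 1 5] []) .no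
  (.use 833) .no (.use 828) .no) .no (.red [.t 1345 2 4, .t 1216 2 4] 152 136 [1] [(152, 136,
  [1]), (168, 136, [1, 1])]) (.use 782) (.use 834) (.red [.f 1209 5 1, .f 1209 1 3, .t 1216 2 4]
  152 136 [1] [(152, 136, [1]), (168, 136, [1, 1])])) (.red [.f 1073 5 1, .f 1073 1 5, .f 1201 5
  3, .t 1202 3 2] 151 136 [4, 1] [(151, 136, [4, 1])]) .no) .no (.red [.t 961 3 2, .f 961 5 1, .t
  960 4 1] 136 136 [] [(121, 120, [3]), (136, 136, [])]) (.red [.f 832 5 3, .f 833 3 1, .f 833 1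
  5, .f 953 5 3, .t 962 4 1] 136 136 [] [(121, 120, [3]), (136, 136, [])])

def c10t836 : Tr4 :=
  .br 1218 (.hor [.f 1217 1 5] []) .no (.br 1219 (.use 612) .no (.hor [.f 1218 3 5] []) (.br 1097
  (.use 832) .no (.use 794) .no .no (.use 737)) .no .no) .no (.use 796) .no

def c10t837 : Tr4 :=
  .br 1096 (.con 136 [3, 3, 1]) (.br 1225 (.hor [.f 1217 1 3, .f 1217 3 5] [(169, 153, [1])]) .no
  (.hor [.f 1097 3 1, .t 1225 2 4, .f 961 3 1, .f 968 1 5] [(137, 136, [3]), (153, 136, [3, 1]),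
  (154, 136, [3, 3, 1])]) .no .no (.br 1104 (.red [.t 1104 1 4, .t 1225 2 4, .t 1218 2 4] 152 136
  [1] [(152, 136, [1]), (153, 136, [3, 1]), (154, 136, [3, 3, 1])]) (.hor [.f 968 1 3, .f 1096 3
  5] [(138, 137, [3])]) (.br 835 .no (.br 698 .no (.br 706 .no (.hor [.f 570 1 3, .t 706 4 1, .f
  697 1 5] [(88, 136, [2, 2, 2]), (104, 136, [2, 2])]) (.use 714) .no .no (.br 704 .no (.red [.f
  568 1 3, .t 696 3 1, .t 833 4 1, .t 962 4 1] 136 136 [] [(88, 136, [2, 2, 2]), (104, 136, [2,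
  2]), (120, 136, [2]), (136, 136, [])]) (.br 842 .no (.br 976 .no (.con 136 [2, 2, 3, 3, 1, 4,
  4]) (.hor [.f 976 3 1, .f 968 1 3, .f 1096 3 5] [(138, 137, [3]), (139, 137, [3, 3])]) .no (.red
  [.t 1096 2 3, .f 1096 5 1, .t 1225 2 4, .t 1218 2 4] 152 136 [1] [(138, 137, [3]), (152, 136,
  [1]), (153, 136, [3, 1])]) .no) (.hor [.f 842 3 1, .f 834 1 3, .f 961 3 5] [(121, 120, [3]),
  (122, 121, [3])]) .no .no .no) .no .no .no)) (.hor [.t 706 4 1, .f 697 1 5] [(104, 136, [2,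
  2])]) .no (.red [.f 698 5 1, .f 697 1 5, .f 825 5 1, .f 826 1 3, .t 962 4 1] 136 136 [] [(120,
  136, [2]), (136, 136, [])]) .no) .no .no .no .no) .no .no .no)) (.hor [.f 1096 3 5] []) .no .no
  .no

def c10t838 : Tr4 :=
  .br 1097 (.use 832) .no (.use 837) .no .no (.use 737)

def c10t839 : Tr4 :=
  .br 1218 (.hor [.f 1217 1 5] []) .no (.br 1219 (.con 136 [1, 1, 4, 2]) .no (.con 136 [1, 1, 4,
  2]) (.use 838) .no .no) .no (.con 136 [1, 1, 4, 2]) .no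

def c10t840 : Tr4 :=
  .br 1218 (.hor [.f 1217 1 5] []) .no (.br 1219 (.con 136 [1, 1, 4, 2]) .no (.con 136 [1, 1, 4,
  2]) (.br 1097 (.use 832) .no (.use 826) .no .no (.use 737)) .no .no) .no (.con 136 [1, 1, 4, 2])
  .no

def c10t841 : Tr4 :=
  .br 1201 (.br 945 .no (.br 826 .no (.hor [.f 697 1 5] []) .no (.use 713) (.br 944 (.br 818 .no
  (.br 841 .no (.use 596) (.br 696 .no (.br 1338 (.use 836) .no (.red [.t 1345 2 4, .t 1216 2 4]
  152 136 [1] [(152, 136, [1]), (168, 136, [1, 1])]) (.red [.t 1329 2 3, .f 1200 3 5, .f 1080 5 1,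
  .f 1080 1 3] 152 136 [1] [(152, 136, [1]), (167, 151, [1])]) (.use 839) (.red [.f 1209 5 1, .f
  1209 1 3, .t 1216 2 4, .f 952 3 1, .f 944 1 3] 136 136 [] [(135, 136, [4]), (136, 136, []),
  (152, 136, [1]), (168, 136, [1, 1])])) (.red [.t 696 3 1, .t 833 4 1, .t 962 4 1] 136 136 []
  [(104, 136, [2, 2]), (120, 136, [2]), (136, 136, [])]) (.hor [.f 688 3 1, .f 696 1 5] [(103,
  104, [4])]) .no .no) .no (.red [.t 961 3 2, .f 961 5 1, .t 960 4 1] 136 136 [] [(121, 120, [3]),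
  (136, 136, [])]) (.red [.f 832 5 3, .f 833 3 1, .f 833 1 5, .f 953 5 3, .t 962 4 1] 136 136 []
  [(121, 120, [3]), (136, 136, [])])) .no (.hor [.f 810 3 1, .f 817 1 5] [(118, 120, [4, 4])])
  (.red [.f 818 5 3, .t 817 1 3, .t 944 1 3] 135 136 [4] [(119, 136, [2, 4]), (135, 136, [4])])
  .no) .no .no (.use 712) .no .no) .no) .no (.hor [.f 937 3 5] []) .no (.br 841 .no (.use 596)
  (.br 1338 (.use 836) .no (.red [.t 1345 2 4, .t 1216 2 4] 152 136 [1] [(152, 136, [1]), (168,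
  136, [1, 1])]) (.red [.t 1329 2 3, .f 1200 3 5, .f 1080 5 1, .f 1080 1 3] 152 136 [1] [(152,
  136, [1]), (167, 151, [1])]) (.use 840) (.red [.f 1209 5 1, .f 1209 1 3, .t 1216 2 4] 152 136
  [1] [(152, 136, [1]), (168, 136, [1, 1])])) .no (.red [.t 961 3 2, .f 961 5 1, .t 960 4 1] 136
  136 [] [(121, 120, [3]), (136, 136, [])]) (.red [.f 832 5 3, .f 833 3 1, .f 833 1 5, .f 953 5 3,
  .t 962 4 1] 136 136 [] [(121, 120, [3]), (136, 136, [])]))) .no .no (.br 945 .no (.br 826 .no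
  (.hor [.f 697 1 5] []) .no (.use 713) (.br 944 (.br 818 .no (.br 841 .no (.use 596) (.br 696 .no
  (.br 1338 (.br 1218 (.hor [.f 1217 1 5] []) .no (.br 1219 (.use 612) .no (.hor [.f 1218 3 5] [])
  (.use 838) .no .no) .no (.use 828) .no) .no (.red [.t 1345 2 4, .t 1216 2 4] 152 136 [1] [(152,
  136, [1]), (168, 136, [1, 1])]) (.use 782) (.use 839) (.red [.f 1209 5 1, .f 1209 1 3, .t 1216 2
  4, .f 952 3 1, .f 944 1 3] 136 136 [] [(135, 136, [4]), (136, 136, []), (152, 136, [1]), (168,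
  136, [1, 1])])) (.red [.t 696 3 1, .t 833 4 1, .t 962 4 1] 136 136 [] [(104, 136, [2, 2]), (120,
  136, [2]), (136, 136, [])]) (.hor [.f 688 3 1, .f 696 1 5] [(103, 104, [4])]) .no .no) .no (.red
  [.t 961 3 2, .f 961 5 1, .t 960 4 1] 136 136 [] [(121, 120, [3]), (136, 136, [])]) (.red [.f 832
  5 3, .f 833 3 1, .f 833 1 5, .f 953 5 3, .t 962 4 1] 136 136 [] [(121, 120, [3]), (136, 136,
  [])])) .no (.hor [.f 810 3 1, .f 817 1 5] [(118, 120, [4, 4])]) (.red [.f 818 5 3, .t 817 1 3,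
  .t 944 1 3] 135 136 [4] [(119, 136, [2, 4]), (135, 136, [4])]) .no) .no .no (.use 712) .no .no)
  .no) .no (.hor [.f 937 3 5] []) .no (.br 1065 .no (.red [.t 937 1 3, .t 946 1 3] 135 136 [4]
  [(134, 136, [4, 4]), (135, 136, [4])]) .no (.br 1066 (.red [.t 1193 3 2, .f 938 3 1] 134 136 [4,
  4] [(134, 136, [4, 4]), (150, 136, [4, 4, 1])]) .no .no (.hor [.f 1057 3 5] []) (.br 937 .no
  (.br 817 .no (.use 679) .no .no (.br 936 (.con 136 [4, 4, 4]) (.hor [.f 808 1 5] []) .no (.br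
  1202 (.use 830) .no .no (.hor [.f 1193 3 5] []) .no .no) .no .no) .no) .no (.red [.f 929 3 1, .t
  937 1 3] 134 136 [4, 4] [(133, 136, [4, 4, 4]), (134, 136, [4, 4])]) .no (.use 827)) .no) (.red
  [.f 1065 5 3, .f 938 3 1, .t 946 1 3, .f 955 1 3] 136 136 [] [(134, 136, [4, 4]), (135, 136,
  [4]), (136, 136, [])]) (.con 136 [4, 4, 1, 3]))) (.red [.f 1073 5 1, .f 1073 1 5, .f 1201 5 3,
  .t 1202 3 2] 151 136 [4, 1] [(151, 136, [4, 1])]) .no

def c10t842 : Tr4 :=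
  .br 946 .no (.br 825 .no (.use 687) (.red [.t 833 4 1, .t 962 4 1] 136 136 [] [(120, 136, [2]),
  (136, 136, [])]) (.red [.t 817 3 1, .f 946 3 5, .f 954 5 1, .f 955 1 3] 136 136 [] [(119, 118,
  [3]), (136, 136, [])]) (.red [.f 825 5 1, .f 826 1 3, .t 962 4 1] 136 136 [] [(120, 136, [2]),
  (136, 136, [])]) (.br 833 .no (.br 945 .no (.hor [.f 817 1 5] []) .no (.br 944 (.use 800) (.con
  136 [2, 4, 4]) .no (.hor [.f 936 3 5] []) .no .no) .no (.use 710)) (.hor [.f 833 3 1, .f 833 1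
  5] [(121, 120, [3])]) .no .no (.red [.f 824 5 3, .t 833 4 1, .t 962 4 1] 136 136 [] [(120, 136,
  [2]), (136, 136, [])]))) .no (.br 833 .no (.br 945 .no (.br 825 .no (.use 716) .no .no (.red [.f
  825 5 1, .f 826 1 3, .t 962 4 1] 136 136 [] [(120, 136, [2]), (136, 136, [])]) (.br 944 (.use
  821) (.hor [.f 816 1 5] []) .no (.use 712) .no .no)) .no (.hor [.f 937 3 5] []) .no (.use 831))
  (.hor [.f 833 3 1, .f 833 1 5] [(121, 120, [3])]) (.red [.t 833 4 1, .t 962 4 1] 136 136 []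
  [(120, 136, [2]), (136, 136, [])]) .no (.br 825 .no (.br 824 .no (.hor [.f 696 1 5] []) .no (.br
  971 (.use 544) (.br 1098 (.use 403) .no (.use 835) .no (.use 841) (.red [.f 1089 5 3, .f 961 3
  1, .t 960 4 1] 136 136 [] [(136, 136, []), (137, 136, [3])])) (.hor [.f 970 3 5] []) .no .no
  .no) .no .no) .no (.br 971 (.use 544) (.br 1098 (.use 403) .no (.use 835) .no (.br 824 .no (.br
  1201 (.br 841 .no (.use 596) (.br 1338 (.use 836) .no (.red [.t 1345 2 4, .t 1216 2 4] 152 136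
  [1] [(152, 136, [1]), (168, 136, [1, 1])]) (.red [.t 1329 2 3, .f 1200 3 5, .f 1080 5 1, .f 1080
  1 3] 152 136 [1] [(152, 136, [1]), (167, 151, [1])]) (.br 945 .no .no .no (.hor [.f 937 3 5] [])
  .no (.use 840)) (.red [.f 1209 5 1, .f 1209 1 3, .t 1216 2 4] 152 136 [1] [(152, 136, [1]),
  (168, 136, [1, 1])])) .no (.red [.t 961 3 2, .f 961 5 1, .t 960 4 1] 136 136 [] [(121, 120,
  [3]), (136, 136, [])]) (.red [.f 832 5 3, .f 833 3 1, .f 833 1 5, .f 953 5 3, .t 962 4 1] 136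
  136 [] [(121, 120, [3]), (136, 136, [])])) .no .no (.br 945 .no .no .no (.hor [.f 937 3 5] [])
  .no (.br 1065 .no (.red [.t 937 1 3, .t 946 1 3] 135 136 [4] [(134, 136, [4, 4]), (135, 136,
  [4])]) .no (.br 937 .no (.use 753) .no (.red [.f 929 3 1, .t 937 1 3] 134 136 [4, 4] [(133, 136,
  [4, 4, 4]), (134, 136, [4, 4])]) .no (.use 827)) (.red [.f 1065 5 3, .f 938 3 1, .t 946 1 3, .f
  955 1 3] 136 136 [] [(134, 136, [4, 4]), (135, 136, [4]), (136, 136, [])]) (.con 136 [4, 4, 1,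
  3]))) (.red [.f 1073 5 1, .f 1073 1 5, .f 1201 5 3, .t 1202 3 2] 151 136 [4, 1] [(151, 136, [4,
  1])]) .no) .no (.hor [.f 816 3 5] []) .no .no) (.red [.f 1089 5 3, .f 961 3 1, .t 960 4 1] 136
  136 [] [(136, 136, []), (137, 136, [3])])) (.hor [.f 970 3 5] []) .no .no .no) (.red [.f 825 5
  1, .f 826 1 3, .t 962 4 1] 136 136 [] [(120, 136, [2]), (136, 136, [])]) (.red [.f 824 5 3, .t
  833 4 1, .t 962 4 1] 136 136 [] [(120, 136, [2]), (136, 136, [])]))) .no (.red [.f 945 5 1, .t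
  946 1 3, .f 955 1 3] 136 136 [] [(135, 136, [4]), (136, 136, [])])

def c10t843 : Tr4 :=
  .br 1066 (.hor [.f 1065 1 5] []) .no .no (.br 1064 (.hor [.f 1064 1 5] []) (.con 136 [4, 4, 4,
  1]) .no (.con 136 [4, 4, 4, 1]) .no .no) .no .no

def c10t844 : Tr4 :=
  .br 826 .no (.br 827 .no (.hor [.f 698 1 5] []) (.br 699 .no (.br 937 (.red [.t 937 1 3, .t 946
  1 3] 135 136 [4] [(134, 136, [4, 4]), (135, 136, [4])]) (.hor [.f 809 1 3, .f 937 3 5] [(118,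
  120, [4, 4])]) .no (.br 1065 (.use 843) .no .no (.br 936 (.red [.f 929 3 1, .t 937 1 3] 133 136
  [4, 4, 4] [(133, 136, [4, 4, 4]), (134, 136, [4, 4])]) (.use 815) .no (.hor [.f 928 3 5] []) .no
  .no) (.red [.f 1065 5 3, .f 938 3 1, .t 946 1 3, .f 955 1 3] 136 136 [] [(134, 136, [4, 4]),
  (135, 136, [4]), (136, 136, [])]) (.use 816)) .no (.use 819)) (.hor [.f 699 3 1, .f 698 1 5]
  [(104, 120, [2])]) (.red [.t 698 1 4, .t 817 1 3, .t 944 1 3] 135 136 [4] [(103, 136, [2, 2,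
  4]), (119, 136, [2, 4]), (135, 136, [4])]) .no .no) .no .no .no) .no .no (.red [.f 818 5 3, .t
  817 1 3, .t 944 1 3] 135 136 [4] [(119, 136, [2, 4]), (135, 136, [4])]) .no

def c10t845 : Tr4 :=
  .br 1202 (.hor [.f 1201 1 5] []) .no .no .no (.red [.t 1066 1 3] 150 136 [4, 1, 4] [(150, 136,
  [4, 1, 4])]) .no

def c10t846 : Tr4 :=
  .br 1201 (.br 1072 .no .no .no (.br 1065 (.use 653) (.red [.t 1064 3 2, .f 937 3 5] 134 136 [4,
  4] [(134, 136, [4, 4])]) .no (.br 1066 (.use 845) .no .no (.hor [.f 1057 3 5] []) .no .no) (.red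
  [.f 1065 5 3, .f 938 3 1, .t 946 1 3, .f 955 1 3] 136 136 [] [(134, 136, [4, 4]), (135, 136,
  [4]), (136, 136, [])]) .no) .no .no) .no .no (.br 1066 (.red [.t 1193 3 2, .f 938 3 1] 134 136
  [4, 4] [(134, 136, [4, 4]), (150, 136, [4, 4, 1])]) .no .no (.br 1065 .no (.red [.t 937 1 3, .t
  946 1 3] 135 136 [4] [(134, 136, [4, 4]), (135, 136, [4])]) .no (.hor [.f 1057 3 5] []) .no
  (.con 136 [4, 4, 1])) .no (.red [.f 1065 5 3, .f 938 3 1, .t 946 1 3, .f 955 1 3] 136 136 []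
  [(134, 136, [4, 4]), (135, 136, [4]), (136, 136, [])])) (.red [.f 1073 5 1, .t 1200 3 2, .f 1080
  1 3] 152 136 [1] [(151, 136, [4, 1]), (152, 136, [1])]) .no

def c10t847 : Tr4 :=
  .br 1219 (.use 783) .no (.hor [.f 1218 3 5] []) (.br 1097 (.red [.t 1225 2 4, .t 1218 2 4] 152
  136 [1] [(152, 136, [1]), (153, 136, [3, 1])]) .no (.hor [.f 1097 3 5] []) .no .no (.use 760))
  .no .no

def c10t848 : Tr4 :=
  .br 1096 (.hor [.f 1096 1 5] []) (.hor [.t 1225 2 4, .f 961 3 1, .f 968 1 5] [(137, 136, [3]),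
  (153, 136, [3, 1])]) (.br 968 .no (.hor [.t 968 2 4, .f 833 1 5] [(121, 120, [3])]) (.hor [.f
  968 3 1, .t 1225 2 4, .f 961 3 1, .f 968 1 5] [(137, 136, [3]), (138, 136, [3, 3]), (153, 136,
  [3, 1])]) .no .no .no) .no .no .no

def c10t849 : Tr4 :=
  .br 1202 .no .no .no (.hor [.f 1193 3 5] []) (.br 1194 (.red [.t 1338 4 2, .f 1194 1 3, .f 1193
  3 5, .f 1073 5 1, .t 1200 3 2] 151 136 [4, 1] [(151, 136, [4, 1]), (166, 150, [1]), (167, 151,
  [1])]) .no .no (.red [.f 1058 3 1, .t 1066 1 3, .f 1193 3 5] 150 136 [4, 1, 4] [(149, 136, [4,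
  1, 4, 4]), (150, 136, [4, 1, 4])]) (.red [.f 1194 5 3, .f 1067 3 1] 150 136 [4, 1, 4] [(150,
  136, [4, 1, 4])]) .no) .no

def c10t850 : Tr4 :=
  .br 1202 (.br 1338 (.br 1337 (.hor [.f 1337 1 5] []) .no .no (.red [.t 1329 3 2, .f 1202 3 5]
  167 136 [4, 1, 1] [(167, 136, [4, 1, 1])]) .no (.br 1339 (.hor [.f 1338 1 5] []) .no (.con 136
  [1, 1, 1]) (.red [.f 1203 3 1, .f 1202 1 5] 167 136 [4, 1, 1] [(167, 136, [4, 1, 1])]) .no .no))
  .no (.red [.t 1345 2 4] 168 136 [1, 1] [(168, 136, [1, 1])]) .no (.red [.t 1202 1 3] 167 136 [4,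
  1, 1] [(167, 136, [4, 1, 1])]) (.red [.f 1209 5 1, .f 1209 1 3] 168 136 [1, 1] [(168, 136, [1,
  1])])) .no .no (.hor [.f 1193 3 5] []) .no .no

def c10t851 : Tr4 :=
  .br 1346 (.br 1338 (.red [.f 1338 1 3, .t 1345 2 4] 168 136 [1, 1] [(168, 136, [1, 1]), (184,
  136, [1, 1, 1])]) .no .no (.br 1194 (.con 136 [4, 1, 1, 4, 2]) .no (.hor [.f 1193 3 5] []) (.con
  136 [4, 1, 1, 4, 2]) (.con 136 [4, 1, 1, 4, 2]) .no) (.br 1202 (.red [.t 1202 1 3, .f 1211 1 3]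
  168 136 [1, 1] [(167, 136, [4, 1, 1]), (168, 136, [1, 1])]) .no .no (.hor [.f 1193 3 5] []) .no
  .no) (.red [.f 1209 5 1, .f 1209 1 3] 168 136 [1, 1] [(168, 136, [1, 1])])) .no (.hor [.f 1218 3
  1, .f 1217 1 5] [(169, 153, [1])]) (.red [.t 1345 2 4] 168 136 [1, 1] [(168, 136, [1, 1])]) .no
  .no

def c10t852 : Tr4 :=
  .br 1211 (.red [.f 1211 1 3] 168 136 [1, 1] [(168, 136, [1, 1])]) .no .no (.use 851) .no .no

def c10t853 : Tr4 :=
  .br 1346 (.red [.f 1338 1 3, .t 1345 2 4, .f 1210 1 5] 168 136 [1, 1] [(168, 136, [1, 1]), (184,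
  136, [1, 1, 1])]) .no (.use 795) .no (.red [.f 1218 5 1, .f 1211 1 3] 168 136 [1, 1] [(168, 136,
  [1, 1])]) .no

def c10t854 : Tr4 :=
  .br 1211 (.br 1338 (.use 853) .no (.red [.t 1345 2 4, .f 1210 1 5] 168 136 [1, 1] [(168, 136,
  [1, 1])]) (.use 849) .no (.red [.f 1209 5 1, .f 1209 1 3] 168 136 [1, 1] [(168, 136, [1, 1])]))
  .no .no (.use 850) .no .no

def c10t855 : Tr4 :=
  .br 1097 (.use 848) .no (.use 837) .no .no (.use 761)

def c10t856 : Tr4 :=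
  .br 1219 (.use 783) .no (.hor [.f 1218 3 5] []) (.use 855) .no .no

def c10l34 : List Tr4 :=
  [c10t835, c10t836, c10t837, c10t838, c10t839, c10t840, c10t841, c10t842, c10t843, c10t844,
  c10t845, c10t846, c10t847, c10t848, c10t849, c10t850, c10t851, c10t852, c10t853, c10t854,
  c10t855, c10t856]

theorem c10k34 : chkLF ⟨4, 0, 0, true, -8⟩ true 0 c10N 835 c10l34 = true := by decide +kernel

end Pool.Agent.FT4D
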