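import Pool.Agent.FT4D.Tab_c10

/-!
# Four levels: decision trees (found by a computer search)
-/

namespace Pool.Agent.FT4D

def c10t857 : Tr4 :=
  .br 1098 (.use 403) .no (.br 841 .no (.use 596) (.br 1201 (.br 1338 (.br 1218 (.hor [.f 1217 1
  5] []) .no (.use 847) .no (.use 796) .no) .no (.red [.t 1345 2 4, .t 1216 2 4] 152 136 [1]
  [(152, 136, [1]), (168, 136, [1, 1])]) (.red [.t 1329 2 3, .f 1200 3 5, .f 1080 5 1, .f 1080 1
  3] 152 136 [1] [(152, 136, [1]), (167, 166, [3])]) (.br 1218 (.hor [.f 1217 1 5] []) .no (.use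
  847) .no (.use 780) .no) (.red [.f 1209 5 1, .f 1209 1 3, .t 1216 2 4, .f 952 3 1, .f 944 1 3]
  136 136 [] [(135, 136, [4]), (136, 136, []), (152, 136, [1]), (168, 136, [1, 1])])) .no .no (.br
  1066 (.red [.t 1193 3 2, .f 938 3 1] 150 136 [4, 4, 1] [(134, 136, [4, 4]), (150, 136, [4, 4,
  1])]) .no .no (.br 1097 (.br 1218 (.hor [.f 1217 1 5] []) .no (.use 848) .no (.br 1211 (.br 1338
  (.br 1346 (.red [.f 1338 1 3, .t 1345 2 4, .f 1210 1 5] 168 136 [1, 1] [(168, 136, [1, 1]),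
  (184, 136, [1, 1, 1])]) .no (.br 1099 (.use 781) .no (.hor [.f 1098 3 5] []) .no .no .no) .no
  (.red [.f 1218 5 1, .f 1211 1 3] 168 136 [1, 1] [(168, 136, [1, 1])]) .no) .no (.red [.t 1345 2
  4, .f 1210 1 5] 168 136 [1, 1] [(168, 136, [1, 1])]) (.use 849) .no (.red [.f 1209 5 1, .f 1209
  1 3] 168 136 [1, 1] [(168, 136, [1, 1])])) .no .no (.use 850) .no .no) .no) .no (.hor [.f 1097 3
  5] []) .no .no (.br 968 .no (.hor [.t 968 2 4, .f 833 1 5] [(121, 120, [3])]) (.br 1218 (.hor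
  [.f 1217 1 5] []) .no (.br 1219 (.use 852) .no (.hor [.f 1218 3 5] []) (.use 759) .no .no) .no
  (.use 854) .no) .no .no .no)) .no (.red [.f 1065 5 3, .f 938 3 1, .t 946 1 3, .f 955 1 3] 136
  136 [] [(134, 136, [4, 4]), (135, 136, [4]), (136, 136, [])])) (.red [.f 1073 5 1, .t 1200 3 2,
  .f 1080 1 3] 152 136 [1] [(151, 136, [4, 1]), (152, 136, [1])]) .no) .no (.red [.t 961 3 2, .f
  961 5 1, .t 960 4 1] 136 136 [] [(121, 120, [3]), (136, 136, [])]) (.red [.f 832 5 3, .f 833 3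
  1, .f 833 1 5, .f 953 5 3, .t 962 4 1] 136 136 [] [(121, 120, [3]), (136, 136, [])])) .no (.br
  824 .no (.hor [.f 696 1 5] []) .no (.br 841 .no (.use 596) (.br 696 .no (.br 1201 (.br 1338 (.br
  1218 (.hor [.f 1217 1 5] []) .no (.use 856) .no (.use 796) .no) .no (.red [.t 1345 2 4, .t 1216
  2 4] 152 136 [1] [(152, 136, [1]), (168, 136, [1, 1])]) (.red [.t 1329 2 3, .f 1200 3 5, .f 1080
  5 1, .f 1080 1 3] 152 136 [1] [(152, 136, [1]), (167, 166, [3])]) (.br 1218 (.hor [.f 1217 1 5]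
  []) .no (.use 856) .no (.use 780) .no) (.red [.f 1209 5 1, .f 1209 1 3, .t 1216 2 4, .f 952 3 1,
  .f 944 1 3] 136 136 [] [(135, 136, [4]), (136, 136, []), (152, 136, [1]), (168, 136, [1, 1])]))
  .no .no (.br 1066 (.red [.t 1193 3 2, .f 938 3 1] 150 136 [4, 4, 1] [(134, 136, [4, 4]), (150,
  136, [4, 4, 1])]) .no .no (.br 1218 (.hor [.f 1217 1 5] []) .no (.br 1219 (.use 852) .no (.hor
  [.f 1218 3 5] []) (.use 855) .no .no) .no (.use 854) .no) .no (.red [.f 1065 5 3, .f 938 3 1, .t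
  946 1 3, .f 955 1 3] 136 136 [] [(134, 136, [4, 4]), (135, 136, [4]), (136, 136, [])])) (.red
  [.f 1073 5 1, .t 1200 3 2, .f 1080 1 3] 152 136 [1] [(151, 136, [4, 1]), (152, 136, [1])]) .no)
  (.red [.t 696 3 1, .t 833 4 1, .t 962 4 1] 136 136 [] [(104, 136, [2, 2]), (120, 136, [2]),
  (136, 136, [])]) (.hor [.f 688 3 1, .f 696 1 5] [(103, 104, [4])]) .no .no) .no (.red [.t 961 3
  2, .f 961 5 1, .t 960 4 1] 136 136 [] [(121, 120, [3]), (136, 136, [])]) (.red [.f 832 5 3, .f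
  833 3 1, .f 833 1 5, .f 953 5 3, .t 962 4 1] 136 136 [] [(121, 120, [3]), (136, 136, [])])) .no
  .no) (.red [.f 1089 5 3, .f 961 3 1, .t 960 4 1] 136 136 [] [(136, 136, []), (137, 136, [3])])

def c10t858 : Tr4 :=
  .br 833 .no (.br 945 .no (.br 825 .no (.use 748) .no .no (.red [.f 825 5 1, .f 826 1 3, .t 962 4
  1] 136 136 [] [(120, 136, [2]), (136, 136, [])]) (.br 944 (.br 818 .no (.br 826 .no (.use 717)
  .no .no (.br 971 (.use 544) (.br 832 .no (.hor [.f 704 1 5] []) (.br 704 .no (.br 696 .no (.use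
  718) .no (.br 937 (.red [.t 937 1 3, .t 946 1 3] 135 136 [4] [(134, 136, [4, 4]), (135, 136,
  [4])]) (.hor [.f 809 1 3, .f 937 3 5] [(118, 120, [4, 4])]) .no (.br 699 .no (.use 719) (.con
  136 [2, 2, 3, 1, 4]) (.br 1065 (.use 843) .no .no (.br 936 (.red [.f 929 3 1, .t 937 1 3] 133
  136 [4, 4, 4] [(133, 136, [4, 4, 4]), (134, 136, [4, 4])]) (.use 804) .no (.hor [.f 928 3 5] [])
  .no .no) (.red [.f 1065 5 3, .f 938 3 1, .t 946 1 3, .f 955 1 3] 136 136 [] [(134, 136, [4, 4]),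
  (135, 136, [4]), (136, 136, [])]) (.use 805)) .no (.red [.f 698 5 1, .f 690 1 3, .t 817 1 3, .t
  944 1 3] 135 136 [4] [(103, 136, [2, 2, 4]), (119, 136, [2, 4]), (135, 136, [4])])) .no (.use
  809)) (.red [.f 696 5 1, .f 697 1 3, .t 833 4 1, .t 962 4 1] 136 136 [] [(104, 136, [2, 2]),
  (120, 136, [2]), (136, 136, [])]) .no) (.hor [.f 704 3 1, .f 704 1 5] [(105, 104, [3])]) (.red
  [.t 704 4 1, .t 833 4 1, .t 962 4 1] 136 136 [] [(104, 136, [2, 2]), (120, 136, [2]), (136, 136,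
  [])]) .no .no) .no .no .no) (.hor [.f 970 3 5] []) .no .no .no) .no) (.red [.t 817 1 3, .t 944 1
  3] 135 136 [4] [(119, 136, [2, 4]), (135, 136, [4])]) (.hor [.f 810 3 1, .f 817 1 5] [(118, 120,
  [4, 4])]) (.use 844) .no) (.hor [.f 816 1 5] []) .no (.use 752) .no .no)) .no (.hor [.f 937 3 5]
  []) .no (.use 846)) (.hor [.f 833 3 1, .f 833 1 5] [(121, 120, [3])]) (.red [.t 833 4 1, .t 962
  4 1] 136 136 [] [(120, 136, [2]), (136, 136, [])]) .no (.br 945 .no (.br 825 .no (.br 944 (.br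
  826 .no (.hor [.f 697 1 5] []) .no (.red [.t 817 1 3, .t 944 1 3] 135 136 [4] [(119, 136, [2,
  4]), (135, 136, [4])]) (.br 818 .no (.br 971 (.use 544) (.use 857) (.hor [.f 970 3 5] []) .no
  .no .no) .no (.hor [.f 810 3 1, .f 817 1 5] [(118, 120, [4, 4])]) (.red [.f 818 5 3, .t 817 1 3,
  .t 944 1 3] 135 136 [4] [(119, 136, [2, 4]), (135, 136, [4])]) .no) .no) (.hor [.f 816 1 5] [])
  .no (.use 752) .no .no) .no .no (.red [.f 825 5 1, .f 826 1 3, .t 962 4 1] 136 136 [] [(120,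
  136, [2]), (136, 136, [])]) (.red [.f 824 5 3, .t 833 4 1, .t 962 4 1] 136 136 [] [(120, 136,
  [2]), (136, 136, [])])) .no (.hor [.f 937 3 5] []) .no (.use 846))

def c10t859 : Tr4 :=
  .br 1208 (.use 765) .no .no (.br 1209 (.use 770) .no (.red [.t 1216 2 4, .f 952 3 1] 136 136 []
  [(136, 136, []), (152, 136, [1])]) (.hor [.f 1200 3 5] []) (.br 1082 .no (.use 768) .no (.use
  769) (.br 1217 (.br 955 .no (.br 954 .no (.hor [.f 826 1 5] []) .no (.use 542) .no (.br 1072 .no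
  (.br 945 (.hor [.f 944 1 5] []) (.br 826 .no (.use 772) .no (.red [.t 817 1 3, .f 826 1 5] 119
  136 [2, 4] [(119, 136, [2, 4])]) .no (.red [.f 825 5 1, .f 817 1 3] 119 136 [2, 4] [(119, 136,
  [2, 4])])) .no (.use 774) (.red [.f 945 5 3, .t 944 1 3] 135 136 [4] [(135, 136, [4])]) .no) .no
  (.use 790) (.red [.f 1072 5 3, .f 1072 3 1, .f 1080 1 3] 152 136 [1] [(151, 136, [4, 1]), (152,
  136, [1])]) .no)) .no (.br 954 .no (.br 953 .no (.hor [.f 825 1 5] []) .no (.br 946 (.red [.t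
  946 1 3, .f 955 1 3] 136 136 [] [(135, 136, [4]), (136, 136, [])]) (.hor [.f 818 1 3, .f 945 3
  5] [(119, 120, [4])]) .no (.br 1074 (.use 530) .no .no (.red [.f 938 3 1, .t 946 1 3] 135 136
  [4] [(134, 136, [4, 4]), (135, 136, [4])]) (.red [.f 1074 5 3, .f 947 3 1, .f 955 1 3] 136 136
  [] [(135, 136, [4]), (136, 136, [])]) (.br 827 .no (.br 1072 .no (.use 766) .no (.use 791) .no
  .no) (.hor [.f 826 1 3, .f 826 3 5] [(120, 136, [2])]) (.hor [.f 819 3 1, .f 826 1 5] [(119,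
  120, [4])]) .no .no)) .no .no) .no .no) .no (.hor [.f 946 3 5] []) .no (.br 1075 (.br 1074 (.hor
  [.f 1074 1 5] []) (.red [.t 946 1 3, .f 955 1 3] 136 136 [] [(135, 136, [4]), (136, 136, [])])
  .no (.use 792) .no (.use 842)) .no .no (.br 1074 (.use 742) (.red [.t 946 1 3, .f 955 1 3] 136
  136 [] [(135, 136, [4]), (136, 136, [])]) .no (.use 792) .no (.br 946 .no (.use 746) .no (.use
  858) .no (.red [.f 945 5 1, .t 946 1 3, .f 955 1 3] 136 136 [] [(135, 136, [4]), (136, 136,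
  [])]))) .no (.red [.f 1074 5 3, .f 947 3 1, .f 955 1 3] 136 136 [] [(135, 136, [4]), (136, 136,
  [])]))) .no (.red [.f 954 5 1, .f 955 1 3] 136 136 [] [(136, 136, [])])) .no (.use 465) .no
  (.red [.f 1209 5 3, .t 1216 2 4, .f 952 3 1] 136 136 [] [(136, 136, []), (152, 136, [1])]) .no)
  .no) .no) (.red [.f 1080 5 1, .f 1080 1 3, .f 952 3 1] 136 136 [] [(136, 136, []), (152, 136,
  [1])]) .no

def c10t860 : Tr4 :=
  .br 1107 (.hor [.f 1099 1 3, .f 1098 3 5] [(154, 138, [1])]) .no (.red [.f 979 3 1, .t 1106 4 2,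
  .t 969 4 1, .t 960 4 1] 136 136 [] [(136, 136, []), (137, 136, [3]), (138, 136, [3, 3]), (139,
  136, [3, 3, 3])]) .no .no .no

def c10t861 : Tr4 :=
  .br 1099 (.use 860) .no (.hor [.f 1098 3 5] []) .no .no .no

def c10t862 : Tr4 :=
  .br 979 (.red [.t 1106 4 2, .t 969 4 1, .t 960 4 1] 136 136 [] [(136, 136, []), (137, 136, [3]),
  (138, 136, [3, 3])]) .no (.br 968 .no .no (.br 1105 .no (.hor [.t 976 4 1, .f 1097 3 5] [(138,
  136, [3, 3])]) (.use 861) .no .no (.red [.f 1096 5 3, .f 1097 3 5, .f 1089 5 3, .f 961 3 1, .t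
  960 4 1] 136 136 [] [(136, 136, []), (137, 136, [3])])) .no .no .no) .no .no (.red [.f 970 5 3,
  .f 970 3 1, .t 969 4 1, .t 960 4 1] 136 136 [] [(136, 136, []), (137, 136, [3]), (138, 136, [3,
  3])])

def c10t863 : Tr4 :=
  .br 955 .no (.br 954 .no (.use 281) .no (.use 542) .no (.br 947 .no (.red [.f 819 1 3] 119 136
  [2, 4] [(119, 136, [2, 4])]) .no (.use 546) .no (.br 826 .no (.br 1074 (.use 555) .no .no (.use
  565) .no (.br 1098 (.br 1208 (.br 1219 (.use 545) .no (.con 136 [3, 1, 1]) (.br 1218 (.hor [.f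
  1217 1 5] []) .no .no .no .no .no) .no (.use 566)) .no .no (.hor [.f 1200 3 5] []) .no .no) .no
  (.br 1208 (.br 825 .no (.use 350) (.br 1218 (.hor [.f 1217 1 5] []) .no (.br 1097 (.use 567) .no
  (.hor [.f 1097 3 5] []) .no .no (.br 835 .no (.br 1219 (.use 545) .no (.use 534) (.br 945 .no
  (.red [.t 833 4 1, .f 817 1 3] 119 136 [2, 4] [(119, 136, [2, 4]), (120, 136, [2])]) .no (.use
  581) .no (.br 824 .no (.br 832 .no (.hor [.f 696 1 3, .f 824 3 5] [(104, 103, [3])]) (.br 843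
  .no (.hor [.f 707 1 3, .t 834 1 3, .f 961 3 5] [(105, 104, [3]), (121, 120, [3])]) (.br 1225
  (.hor [.f 1217 1 3, .f 1217 3 5] [(169, 153, [1])]) .no (.use 862) .no .no (.red [.f 1096 5 1,
  .t 1225 2 4, .f 1082 1 3] 152 136 [1] [(152, 136, [1]), (153, 136, [3, 1])])) .no .no (.red [.f
  842 5 1, .f 834 1 3, .f 961 3 5, .f 961 5 1, .t 960 4 1] 136 136 [] [(121, 120, [3]), (136, 136,
  [])])) .no .no .no) (.hor [.f 824 3 5] []) (.red [.t 833 4 1, .t 824 4 1] 119 136 [2, 4] [(119,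
  136, [2, 4]), (120, 136, [2])]) .no .no)) .no .no) (.hor [.t 834 1 3, .f 961 3 5] [(121, 120,
  [3])]) .no .no .no)) .no (.use 566) .no) (.use 547) .no (.use 603)) .no .no (.hor [.f 1200 3 5]
  []) .no .no) .no (.red [.f 970 5 1, .t 969 4 1, .t 960 4 1] 136 136 [] [(136, 136, []), (137,
  136, [3])]) (.red [.f 1089 5 3, .f 961 3 1, .t 960 4 1] 136 136 [] [(136, 136, []), (137, 136,
  [3])]))) .no (.red [.t 826 4 1] 119 136 [2, 4] [(119, 136, [2, 4])]) .no (.red [.f 825 5 1, .f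
  826 1 5, .f 946 5 3, .f 947 3 1] 135 136 [4] [(135, 136, [4])])))) .no (.red [.f 947 3 1, .f 955
  1 3] 136 136 [] [(135, 136, [4]), (136, 136, [])]) .no (.br 1074 (.red [.f 1074 1 3, .f 1074 3
  5, .f 954 5 1, .f 955 1 3] 136 136 [] [(136, 136, []), (151, 135, [1])]) (.red [.t 1074 2 3, .f
  955 1 3] 136 136 [] [(135, 136, [4]), (136, 136, [])]) .no (.br 953 .no (.br 947 .no (.use 604)
  .no (.br 946 .no (.use 208) .no (.hor [.f 938 3 5] []) .no (.br 1073 .no .no .no (.hor [.f 1065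
  3 5] []) .no (.br 1208 (.use 605) .no .no (.red [.f 1072 5 3, .f 1072 3 1, .f 1080 1 3] 152 136
  [1] [(151, 136, [4, 1]), (152, 136, [1])]) .no .no))) .no (.red [.f 946 5 3, .f 947 3 1, .f 955
  1 3] 136 136 [] [(135, 136, [4]), (136, 136, [])])) .no (.use 606) .no .no) .no (.red [.t 1209 4
  2, .f 1074 3 5, .f 954 5 1, .f 955 1 3] 136 136 [] [(136, 136, []), (151, 135, [1])]))

def c10t864 : Tr4 :=
  .br 1208 (.use 616) .no .no (.br 1072 .no (.br 945 (.hor [.f 944 1 5] []) (.br 826 .no (.red [.f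
  568 1 3, .t 704 4 1, .t 833 4 1, .t 962 4 1] 136 136 [] [(88, 136, [2, 2, 2]), (104, 136, [2,
  2]), (120, 136, [2]), (136, 136, [])]) .no (.red [.t 817 1 3, .f 826 1 5] 119 136 [2, 4] [(119,
  136, [2, 4])]) .no .no) .no (.use 774) (.red [.f 945 5 3, .t 944 1 3] 135 136 [4] [(135, 136,
  [4])]) .no) .no (.use 790) (.red [.f 1072 5 3, .f 1072 3 1, .f 1080 1 3] 152 136 [1] [(151, 136,
  [4, 1]), (152, 136, [1])]) .no) .no .no

def c10t865 : Tr4 :=
  .br 946 (.hor [.f 946 1 5] []) (.use 619) .no (.br 945 (.con 136 [4, 4]) (.br 818 .no (.use 353)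
  .no (.br 944 (.red [.f 810 3 1, .f 817 1 5, .f 945 5 3, .t 944 1 3] 135 136 [4] [(118, 119,
  [4]), (135, 136, [4])]) (.con 136 [4, 4]) .no (.con 136 [4, 4]) .no .no) (.use 341) .no) .no
  (.hor [.f 937 3 5] []) .no (.con 136 [4, 4])) .no (.use 620)

def c10t866 : Tr4 :=
  .br 946 (.br 819 .no (.use 622) .no (.red [.f 811 3 1, .f 819 1 3] 119 136 [2, 4] [(118, 136,
  [2, 4, 4]), (119, 136, [2, 4])]) .no (.use 341)) (.use 543) .no (.hor [.f 938 3 5] []) .no (.use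
  344)

def c10t867 : Tr4 :=
  .br 947 (.use 865) (.red [.f 819 1 3] 119 136 [2, 4] [(119, 136, [2, 4])]) .no (.use 866) .no
  (.br 818 .no (.use 353) .no (.use 358) (.use 341) (.use 627))

def c10t868 : Tr4 :=
  .br 1072 .no (.br 945 (.hor [.f 944 1 5] []) (.br 826 .no (.br 947 (.use 865) (.red [.f 819 1 3]
  119 136 [2, 4] [(119, 136, [2, 4])]) .no (.use 866) .no (.use 771)) .no (.red [.t 817 1 3, .f
  826 1 5] 119 136 [2, 4] [(119, 136, [2, 4])]) .no .no) .no (.use 774) (.red [.f 945 5 3, .t 944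
  1 3] 135 136 [4] [(135, 136, [4])]) .no) .no (.use 790) (.red [.f 1072 5 3, .f 1072 3 1, .f 1080
  1 3] 152 136 [1] [(151, 136, [4, 1]), (152, 136, [1])]) .no

def c10t869 : Tr4 :=
  .br 825 .no (.br 826 .no (.hor [.f 697 1 5] []) .no (.br 946 (.br 947 (.use 632) (.red [.f 819 1
  3, .f 818 3 5] 119 136 [2, 4] [(119, 136, [2, 4])]) .no (.br 1073 (.br 1208 (.use 635) .no .no
  (.red [.t 1200 3 2, .f 1080 1 3] 152 136 [1] [(151, 136, [4, 1]), (152, 136, [1])]) .no .no)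
  (.hor [.f 945 1 5] []) .no (.br 824 .no (.hor [.f 696 1 5] []) .no (.use 633) .no .no) .no (.red
  [.f 1072 5 3, .t 1073 3 2, .f 818 3 1] 119 136 [2, 4] [(119, 136, [2, 4]), (135, 136, [4])]))
  .no .no) .no .no (.use 614) (.use 350) (.use 634)) .no .no) .no (.use 369) (.red [.f 825 5 1, .f
  826 1 3, .t 962 4 1] 136 136 [] [(120, 136, [2]), (136, 136, [])]) (.red [.f 824 5 3, .t 833 4
  1, .t 962 4 1] 136 136 [] [(120, 136, [2]), (136, 136, [])])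

def c10t870 : Tr4 :=
  .br 826 .no (.use 867) .no (.use 615) .no .no

def c10t871 : Tr4 :=
  .br 1225 (.hor [.f 1217 1 3, .f 1217 3 5] [(169, 153, [1])]) .no (.use 862) .no .no (.red [.f
  1096 5 1, .t 1225 2 4, .t 1218 2 4] 152 136 [1] [(152, 136, [1]), (153, 136, [3, 1])])

def c10l35 : List Tr4 :=
  [c10t857, c10t858, c10t859, c10t860, c10t861, c10t862, c10t863, c10t864, c10t865, c10t866,
  c10t867, c10t868, c10t869, c10t870, c10t871]

theorem c10k35 : chkLF ⟨4, 0, 0, true, -8⟩ true 0 c10N 857 c10l35 = true := by decide +kernel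

def c10t872 : Tr4 :=
  .br 1098 (.br 833 .no (.br 832 .no (.hor [.f 704 1 5] []) (.br 825 .no (.use 611) .no (.use 321)
  (.red [.f 825 5 1, .f 826 1 3, .t 962 4 1] 136 136 [] [(120, 136, [2]), (136, 136, [])]) (.br
  835 .no (.br 704 .no (.br 696 .no (.use 864) .no (.br 1208 (.br 826 .no (.br 1338 (.use 867) .no
  (.red [.t 1345 2 4] 168 136 [3, 1, 1, 4] [(168, 136, [1, 1])]) (.use 749) (.br 1218 (.hor [.f
  1217 1 5] []) .no .no .no (.con 136 [1, 1, 4]) .no) (.red [.f 1209 5 1, .f 1209 1 3, .t 1216 2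
  4] 152 136 [1] [(152, 136, [1]), (168, 136, [1, 1])])) .no (.use 615) .no .no) .no .no (.use
  868) .no .no) (.red [.f 696 5 1, .f 697 1 3, .t 833 4 1, .t 962 4 1] 136 136 [] [(104, 136, [2,
  2]), (120, 136, [2]), (136, 136, [])]) .no) (.hor [.f 704 3 1, .f 704 1 5] [(105, 104, [3])])
  (.red [.t 704 4 1, .t 833 4 1, .t 962 4 1] 136 136 [] [(104, 136, [2, 2]), (120, 136, [2]),
  (136, 136, [])]) .no .no) (.hor [.t 834 1 3, .f 961 3 5] [(121, 120, [3])]) .no .no .no)) (.con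
  136 [2, 2]) .no .no) (.hor [.f 833 3 1, .f 833 1 5] [(121, 120, [3])]) (.red [.t 833 4 1, .t 962
  4 1] 136 136 [] [(120, 136, [2]), (136, 136, [])]) .no (.use 869)) .no (.br 833 .no (.br 832 .no
  (.hor [.f 704 1 5] []) (.br 825 .no (.use 611) .no (.use 321) (.red [.f 825 5 1, .f 826 1 3, .t
  962 4 1] 136 136 [] [(120, 136, [2]), (136, 136, [])]) (.br 835 .no (.br 843 .no (.hor [.f 707 1
  3, .t 834 1 3, .f 961 3 5] [(105, 104, [3]), (121, 120, [3])]) (.br 704 .no (.br 696 .no (.use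
  864) .no (.br 1097 (.br 1208 (.br 1218 (.hor [.f 1217 1 5] []) .no (.use 618) .no (.br 1338
  (.use 870) .no (.red [.t 1345 2 4] 168 136 [1, 1] [(168, 136, [1, 1])]) (.use 443) (.con 136 [1,
  1, 4]) (.red [.f 1209 5 1, .f 1209 1 3] 168 136 [1, 1] [(168, 136, [1, 1])])) .no) .no .no (.use
  868) .no .no) .no (.hor [.f 1097 3 5] []) .no .no (.br 1208 (.br 1338 (.use 870) .no (.red [.t
  1345 2 4, .t 1216 2 4] 152 136 [1] [(152, 136, [1]), (168, 136, [1, 1])]) (.use 749) (.br 1218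
  (.hor [.f 1217 1 5] []) .no (.br 1219 (.con 136 [1, 1, 4]) .no (.con 136 [1, 1, 4]) (.use 871)
  .no .no) .no (.con 136 [1, 1, 4]) .no) (.red [.f 1209 5 1, .f 1209 1 3, .t 1216 2 4] 152 136 [1]
  [(152, 136, [1]), (168, 136, [1, 1])])) .no .no (.use 868) .no .no)) (.red [.f 696 5 1, .f 697 1
  3, .t 833 4 1, .t 962 4 1] 136 136 [] [(104, 136, [2, 2]), (120, 136, [2]), (136, 136, [])])
  .no) (.hor [.f 704 3 1, .f 704 1 5] [(105, 104, [3])]) (.red [.t 704 4 1, .t 833 4 1, .t 962 4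
  1] 136 136 [] [(104, 136, [2, 2]), (120, 136, [2]), (136, 136, [])]) .no .no) .no .no (.red [.f
  842 5 1, .f 834 1 3, .f 961 3 5, .f 961 5 1, .t 960 4 1] 136 136 [] [(121, 120, [3]), (136, 136,
  [])])) (.hor [.t 834 1 3, .f 961 3 5] [(121, 120, [3])]) .no .no .no)) (.con 136 [2, 2]) .no
  .no) (.hor [.f 833 3 1, .f 833 1 5] [(121, 120, [3])]) (.red [.t 833 4 1, .t 962 4 1] 136 136 []
  [(120, 136, [2]), (136, 136, [])]) .no (.use 869)) .no (.red [.f 970 5 1, .t 969 4 1, .t 960 4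
  1] 136 136 [] [(136, 136, []), (137, 136, [3])]) (.red [.f 1089 5 3, .f 961 3 1, .t 960 4 1] 136
  136 [] [(136, 136, []), (137, 136, [3])])

def c10t873 : Tr4 :=
  .br 1208 (.use 749) .no .no (.br 1201 (.red [.t 1329 2 3, .f 1200 3 5, .f 1080 5 1, .f 1080 1 3]
  152 136 [1] [(152, 136, [1]), (167, 151, [1])]) .no .no (.use 782) (.red [.f 1073 5 1, .f 1073 1
  5, .f 1201 5 3, .t 1202 3 2] 151 136 [4, 1] [(151, 136, [4, 1])]) .no) .no .no

def c10t874 : Tr4 :=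
  .br 825 .no (.use 687) (.red [.t 833 4 1, .t 962 4 1] 136 136 [] [(120, 136, [2]), (136, 136,
  [])]) (.red [.t 817 3 1, .f 946 3 5, .f 954 5 1, .f 955 1 3] 136 136 [] [(119, 118, [3]), (136,
  136, [])]) (.red [.f 825 5 1, .f 826 1 3, .t 962 4 1] 136 136 [] [(120, 136, [2]), (136, 136,
  [])]) (.br 833 .no (.br 945 .no (.hor [.f 817 1 5] []) .no (.br 944 (.br 832 .no (.hor [.f 704 1
  5] []) (.br 1208 (.br 1201 (.use 642) .no .no (.use 641) (.red [.f 1073 5 1, .f 1073 1 5, .f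
  1201 5 3, .t 1202 3 2] 151 136 [4, 1] [(151, 136, [4, 1])]) (.br 1337 (.br 1097 (.use 689) .no
  (.hor [.f 1097 3 5] []) .no .no (.br 1218 (.hor [.f 1217 1 5] []) .no (.br 1219 (.use 612) .no
  (.use 534) (.br 843 .no (.br 835 .no (.hor [.f 707 1 3, .t 834 1 3, .f 961 3 5] [(105, 104,
  [3]), (121, 120, [3])]) .no (.br 817 .no (.br 938 (.use 695) (.red [.f 810 1 3] 118 136 [2, 4,
  4] [(118, 136, [2, 4, 4])]) .no (.use 698) (.use 667) .no) .no (.red [.f 809 3 1, .f 817 1 5]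
  118 136 [2, 4, 4] [(118, 136, [2, 4, 4])]) .no (.br 698 (.br 938 (.use 699) (.red [.f 810 1 3]
  118 136 [2, 4, 4] [(118, 136, [2, 4, 4])]) .no (.br 936 (.use 703) (.red [.t 936 2 3, .f 817 1
  5] 118 136 [2, 4, 4] [(118, 136, [2, 4, 4])]) .no (.use 704) .no .no) (.use 669) .no) (.con 136
  [2, 4, 2, 3, 1]) (.con 136 [2, 4, 2, 3, 1]) (.con 136 [2, 4, 2, 3, 1]) (.con 136 [2, 4, 2, 3,
  1]) (.con 136 [2, 4, 2, 3, 1]))) .no .no) (.use 871) (.hor [.t 834 1 3, .f 961 3 5] [(121, 120,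
  [3])]) .no (.red [.f 842 5 1, .f 834 1 3, .f 961 3 5, .f 961 5 1, .t 960 4 1] 136 136 [] [(121,
  120, [3]), (136, 136, [])])) .no .no) .no (.use 688) .no)) .no .no (.red [.t 1336 2 4] 167 136
  [4, 1, 1] [(167, 136, [4, 1, 1])]) (.red [.f 1209 5 1, .f 1209 1 3, .t 1216 2 4, .f 952 3 1, .f
  944 1 3] 136 136 [] [(135, 136, [4]), (136, 136, []), (152, 136, [1]), (168, 136, [1, 1])])
  .no)) .no .no (.use 800) .no .no) .no .no .no) (.con 136 [2, 4, 4]) .no (.hor [.f 936 3 5] [])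
  .no .no) .no (.use 710)) (.hor [.f 833 3 1, .f 833 1 5] [(121, 120, [3])]) .no .no (.red [.f 824
  5 3, .t 833 4 1, .t 962 4 1] 136 136 [] [(120, 136, [2]), (136, 136, [])]))

def c10t875 : Tr4 :=
  .br 1097 (.use 832) .no (.hor [.f 1097 3 5] []) .no .no (.br 1219 (.use 612) .no (.use 534)
  (.use 871) .no .no)

def c10t876 : Tr4 :=
  .br 1208 (.con 136 [1, 1, 4]) .no .no (.con 136 [1, 1, 4, 2]) .no .no

def c10t877 : Tr4 :=
  .br 1338 (.br 1218 (.hor [.f 1217 1 5] []) .no (.use 875) .no (.use 828) .no) .no (.red [.t 1345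
  2 4, .t 1216 2 4] 152 136 [1] [(152, 136, [1]), (168, 136, [1, 1])]) (.use 873) (.br 1218 (.hor
  [.f 1217 1 5] []) .no (.use 875) .no (.use 876) .no) (.red [.f 1209 5 1, .f 1209 1 3, .t 1216 2
  4, .f 952 3 1, .f 944 1 3] 136 136 [] [(135, 136, [4]), (136, 136, []), (152, 136, [1]), (168,
  136, [1, 1])])

def c10t878 : Tr4 :=
  .br 843 .no (.hor [.f 707 1 3, .t 834 1 3, .f 961 3 5] [(105, 104, [3]), (121, 120, [3])]) (.use
  877) .no .no (.red [.f 842 5 1, .f 834 1 3, .f 961 3 5, .f 961 5 1, .t 960 4 1] 136 136 []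
  [(121, 120, [3]), (136, 136, [])])

def c10t879 : Tr4 :=
  .br 1105 .no (.hor [.t 976 4 1, .f 1097 3 5] [(138, 136, [3, 3])]) (.br 979 (.red [.t 1106 4 2,
  .t 969 4 1, .t 960 4 1] 136 136 [] [(136, 136, []), (137, 136, [3]), (138, 136, [3, 3])]) .no
  (.use 861) .no .no (.red [.f 970 5 3, .f 970 3 1, .t 969 4 1, .t 960 4 1] 136 136 [] [(136, 136,
  []), (137, 136, [3]), (138, 136, [3, 3])])) .no .no (.red [.f 1096 5 3, .f 1097 3 5, .f 1089 5
  3, .f 961 3 1, .t 960 4 1] 136 136 [] [(136, 136, []), (137, 136, [3])])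

def c10t880 : Tr4 :=
  .br 1225 (.hor [.f 1217 1 3, .f 1217 3 5] [(169, 153, [1])]) .no (.use 879) .no .no (.red [.f
  1096 5 1, .t 1225 2 4, .t 1218 2 4, .f 1075 1 3] 152 136 [1] [(151, 136, [4, 1]), (152, 136,
  [1]), (153, 136, [3, 1])])

def c10t881 : Tr4 :=
  .br 1097 (.use 832) .no (.hor [.f 1097 3 5] []) .no .no (.br 1219 (.use 612) .no (.use 534) (.br
  968 .no (.hor [.t 968 2 4, .f 833 1 5] [(121, 120, [3])]) (.use 880) .no .no .no) .no .no)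

def c10t882 : Tr4 :=
  .br 1208 (.use 708) .no .no (.use 823) .no .no

def c10t883 : Tr4 :=
  .br 1097 (.use 832) .no (.hor [.f 1097 3 5] []) .no .no (.br 1219 (.use 612) .no (.use 534) (.br
  843 .no (.br 1225 (.hor [.f 1217 1 3, .f 1217 3 5] [(169, 153, [1])]) .no (.br 968 .no .no (.br
  1105 .no (.hor [.t 976 4 1, .f 1097 3 5] [(138, 136, [3, 3])]) (.br 1099 (.br 979 (.red [.t 1106
  4 2, .t 969 4 1, .t 960 4 1] 136 136 [] [(136, 136, []), (137, 136, [3]), (138, 136, [3, 3])])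
  (.br 842 .no (.hor [.f 714 1 5] []) (.hor [.t 850 4 1, .f 834 1 3, .f 961 3 5] [(121, 120, [3]),
  (122, 123, [4])]) .no .no .no) (.use 860) .no .no (.red [.f 970 5 3, .f 970 3 1, .t 969 4 1, .t
  960 4 1] 136 136 [] [(136, 136, []), (137, 136, [3]), (138, 136, [3, 3])])) .no (.hor [.f 1098 3
  5] []) .no .no .no) .no .no (.red [.f 1096 5 3, .f 1097 3 5, .f 1089 5 3, .f 961 3 1, .t 960 4
  1] 136 136 [] [(136, 136, []), (137, 136, [3])])) .no .no .no) .no .no (.red [.f 1096 5 1, .t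
  1225 2 4, .t 1218 2 4, .f 1075 1 3] 152 136 [1] [(151, 136, [4, 1]), (152, 136, [1]), (153, 136,
  [3, 1])])) (.use 871) (.hor [.t 834 1 3, .f 961 3 5] [(121, 120, [3])]) .no (.red [.f 842 5 1,
  .f 834 1 3, .f 961 3 5, .f 961 5 1, .t 960 4 1] 136 136 [] [(121, 120, [3]), (136, 136, [])]))
  .no .no)

def c10t884 : Tr4 :=
  .br 1218 (.hor [.f 1217 1 5] []) .no (.use 883) .no (.use 876) .no

def c10t885 : Tr4 :=
  .br 1338 (.use 828) .no (.red [.t 1345 2 4] 168 136 [1, 1] [(168, 136, [1, 1])]) (.use 873)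
  (.use 876) (.red [.f 1209 5 1, .f 1209 1 3] 168 136 [1, 1] [(168, 136, [1, 1])])

def c10t886 : Tr4 :=
  .br 1218 (.hor [.f 1217 1 5] []) .no (.use 832) .no (.use 885) .no

def c10t887 : Tr4 :=
  .br 825 .no (.br 824 .no (.hor [.f 696 1 5] []) .no (.br 1065 (.br 1201 (.use 882) .no .no .no
  (.red [.f 1073 5 1, .f 1073 1 5, .f 1201 5 3, .t 1202 3 2] 151 136 [4, 1] [(151, 136, [4, 1])])
  (.br 1097 (.use 886) .no (.hor [.f 1097 3 5] []) .no .no (.br 1218 (.hor [.f 1217 1 5] []) .no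
  (.br 1219 (.use 612) .no (.use 534) (.br 968 .no (.hor [.t 968 2 4, .f 833 1 5] [(121, 120,
  [3])]) (.br 843 .no (.br 835 .no (.hor [.f 707 1 3, .t 834 1 3, .f 961 3 5] [(105, 104, [3]),
  (121, 120, [3])]) .no (.br 826 .no (.hor [.f 697 1 5] []) .no (.br 817 .no (.use 679) .no (.br
  937 .no .no .no (.br 936 .no (.red [.t 808 1 3, .f 936 3 1] 134 136 [4, 4] [(118, 136, [2, 4,
  4]), (134, 136, [4, 4])]) .no (.hor [.f 928 3 5] []) .no .no) .no (.red [.t 1064 3 1, .f 936 5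
  1, .t 937 1 3] 134 136 [4, 4] [(134, 136, [4, 4]), (150, 134, [1])])) .no .no) .no .no) .no .no)
  (.use 880) (.hor [.t 834 1 3, .f 961 3 5] [(121, 105, [1])]) .no (.red [.f 842 5 1, .f 834 1 3,
  .f 961 3 5, .f 961 5 1, .t 960 4 1] 136 136 [] [(121, 120, [3]), (136, 136, [])])) .no .no .no)
  .no .no) .no (.use 885) .no))) (.red [.t 1064 3 2, .f 937 3 5] 134 136 [4, 4] [(134, 136, [4,
  4])]) .no (.br 1097 (.use 886) .no (.hor [.f 1097 3 5] []) .no .no (.br 1218 (.hor [.f 1217 1 5]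
  []) .no (.br 1219 (.use 612) .no (.use 534) (.br 968 .no (.hor [.t 968 2 4, .f 833 1 5] [(121,
  120, [3])]) (.br 937 .no (.br 843 .no (.br 835 .no (.hor [.f 707 1 3, .t 834 1 3, .f 961 3 5]
  [(105, 104, [3]), (121, 120, [3])]) .no (.br 826 .no (.hor [.f 697 1 5] []) .no (.br 817 .no
  (.use 679) .no .no .no .no) .no .no) .no .no) (.use 880) (.hor [.t 834 1 3, .f 961 3 5] [(121,
  105, [1])]) .no (.red [.f 842 5 1, .f 834 1 3, .f 961 3 5, .f 961 5 1, .t 960 4 1] 136 136 []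
  [(121, 120, [3]), (136, 136, [])])) .no (.red [.f 929 3 1, .t 937 1 3] 134 136 [4, 4] [(133,
  136, [4, 4, 4]), (134, 136, [4, 4])]) .no (.red [.f 936 5 3, .f 936 3 1] 134 136 [4, 4] [(134,
  136, [4, 4])])) .no .no .no) .no .no) .no (.use 885) .no)) (.red [.f 1065 5 3, .f 938 3 1, .t
  946 1 3, .f 955 1 3] 136 136 [] [(134, 136, [4, 4]), (135, 136, [4]), (136, 136, [])]) .no) .no
  .no) .no (.br 824 .no (.br 937 (.red [.t 1064 3 2, .f 937 3 5] 134 136 [4, 4] [(134, 136, [4,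
  4])]) (.use 753) .no (.br 1065 (.br 1201 (.use 882) .no .no .no (.red [.f 1073 5 1, .f 1073 1 5,
  .f 1201 5 3, .t 1202 3 2] 151 136 [4, 1] [(151, 136, [4, 1])]) (.br 816 .no (.hor [.f 688 1 3,
  .f 816 3 5] [(103, 136, [2, 4, 2])]) .no (.use 728) .no .no)) .no .no (.red [.f 929 3 1, .t 937
  1 3] 134 136 [4, 4] [(133, 136, [4, 4, 4]), (134, 136, [4, 4])]) (.red [.f 1065 5 3, .f 938 3 1,
  .t 946 1 3, .f 955 1 3] 136 136 [] [(134, 136, [4, 4]), (135, 136, [4]), (136, 136, [])]) .no)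
  .no (.red [.f 936 5 3, .f 936 3 1] 134 136 [4, 4] [(134, 136, [4, 4])])) .no (.hor [.f 816 3 5]
  []) .no .no) (.red [.f 825 5 1, .f 826 1 3, .t 962 4 1] 136 136 [] [(120, 136, [2]), (136, 136,
  [])]) (.red [.f 824 5 3, .t 833 4 1, .t 962 4 1] 136 136 [] [(120, 136, [2]), (136, 136, [])])

def c10l36 : List Tr4 :=
  [c10t872, c10t873, c10t874, c10t875, c10t876, c10t877, c10t878, c10t879, c10t880, c10t881,
  c10t882, c10t883, c10t884, c10t885, c10t886, c10t887]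

theorem c10k36 : chkLF ⟨4, 0, 0, true, -8⟩ true 0 c10N 872 c10l36 = true := by decide +kernel

def c10t888 : Tr4 :=
  .br 1072 (.br 1201 (.use 647) .no .no (.br 1065 .no (.red [.t 937 1 3, .t 946 1 3] 135 136 [4]
  [(134, 136, [4, 4]), (135, 136, [4])]) .no (.use 685) (.red [.f 1065 5 3, .f 938 3 1, .t 946 1
  3, .f 955 1 3] 136 136 [] [(134, 136, [4, 4]), (135, 136, [4]), (136, 136, [])]) (.red [.t 1200
  2 4] 150 136 [4, 4, 1] [(150, 136, [4, 4, 1])])) (.hor [.f 1073 5 1, .f 1072 1 5, .f 1074 1 5]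
  []) .no) .no .no (.br 833 .no (.br 1065 (.br 832 .no (.hor [.f 704 1 5] []) (.br 841 .no (.hor
  [.f 705 1 3, .f 832 3 5] [(105, 104, [3])]) (.br 1201 (.use 882) .no .no .no (.red [.f 1073 5 1,
  .f 1073 1 5, .f 1201 5 3, .t 1202 3 2] 151 136 [4, 1] [(151, 136, [4, 1])]) (.br 1202 (.br 1338
  (.br 1218 (.hor [.f 1217 1 5] []) .no (.br 1219 (.use 612) .no (.use 534) (.br 1337 (.hor [.f
  1337 1 5] []) .no .no (.red [.t 1329 3 2, .t 1202 3 2] 151 136 [4, 1] [(151, 136, [4, 1]), (167,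
  136, [4, 1, 1])]) .no (.con 136 [4, 1, 1, 3, 2])) .no .no) .no (.use 828) .no) .no (.red [.t
  1345 2 4, .t 1216 2 4] 152 136 [1] [(152, 136, [1]), (168, 136, [1, 1])]) .no (.use 884) (.red
  [.f 1209 5 1, .f 1202 1 3, .t 1202 3 2] 151 136 [4, 1] [(151, 136, [4, 1]), (167, 136, [4, 1,
  1])])) .no .no (.red [.t 1064 3 1, .f 1193 3 5, .f 1201 5 3, .t 1202 3 2] 151 136 [4, 1] [(150,
  134, [1]), (151, 136, [4, 1])]) .no .no)) .no (.red [.t 961 3 2, .f 961 5 1, .t 960 4 1, .t 840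
  4 1] 136 136 [] [(136, 136, [])]) .no) (.br 825 .no (.hor [.f 697 1 3, .f 824 3 5] [(104, 136,
  [2, 2])]) .no (.br 827 .no (.con 136 [2, 2]) (.br 1201 (.use 882) .no .no .no (.red [.f 1073 5
  1, .f 1073 1 5, .f 1201 5 3, .t 1202 3 2] 151 136 [4, 1] [(151, 136, [4, 1])]) (.use 729)) (.con
  136 [2, 2]) .no (.con 136 [2, 2])) (.red [.f 824 3 1, .f 825 5 1, .f 826 1 3, .t 962 4 1] 136
  136 [] [(136, 136, [])]) .no) .no .no) (.red [.t 1064 3 2, .f 937 3 5] 134 136 [4, 4] [(134,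
  136, [4, 4])]) .no (.br 937 .no (.br 832 .no (.hor [.f 704 1 5] []) (.br 841 .no (.hor [.f 705 1
  3, .f 832 3 5] [(105, 104, [3])]) (.br 1338 (.br 1218 (.hor [.f 1217 1 5] []) .no (.use 883) .no
  (.use 828) .no) .no (.red [.t 1345 2 4, .t 1216 2 4] 152 136 [1] [(152, 136, [1]), (168, 136,
  [1, 1])]) (.use 873) (.use 884) (.red [.f 1209 5 1, .f 1209 1 3, .t 1216 2 4] 152 136 [1] [(152,
  136, [1]), (168, 136, [1, 1])])) .no (.red [.t 961 3 2, .f 961 5 1, .t 960 4 1, .t 840 4 1] 136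
  136 [] [(136, 136, [])]) .no) (.use 755) .no .no) .no (.red [.f 929 3 1, .t 937 1 3] 134 136 [4,
  4] [(133, 136, [4, 4, 4]), (134, 136, [4, 4])]) .no (.red [.f 936 5 3, .f 936 3 1] 134 136 [4,
  4] [(134, 136, [4, 4])])) (.red [.f 1065 5 3, .f 938 3 1, .t 946 1 3, .f 955 1 3] 136 136 []
  [(134, 136, [4, 4]), (135, 136, [4]), (136, 136, [])]) .no) (.hor [.f 833 3 1, .f 833 1 5]
  [(121, 120, [3])]) (.red [.t 833 4 1, .t 962 4 1] 136 136 [] [(120, 136, [2]), (136, 136, [])])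
  .no (.use 887)) .no .no

def c10t889 : Tr4 :=
  .br 946 .no (.use 874) .no (.br 945 .no (.br 944 (.br 825 .no (.br 826 .no (.hor [.f 697 1 5]
  []) .no (.red [.t 817 1 3, .t 944 1 3] 135 136 [4] [(119, 136, [2, 4]), (135, 136, [4])]) (.br
  824 .no (.hor [.f 696 1 5] []) (.con 136 [2, 2]) (.br 835 .no (.br 833 .no (.br 832 .no (.hor
  [.f 704 1 5] []) (.use 878) .no .no .no) (.hor [.f 833 3 1, .f 833 1 5] [(121, 120, [3])]) .no
  .no (.br 843 .no (.hor [.f 707 1 3, .t 834 1 3, .f 961 3 5] [(105, 104, [3]), (121, 120, [3])])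
  (.br 1338 (.br 1218 (.hor [.f 1217 1 5] []) .no (.use 881) .no (.use 828) .no) .no (.red [.t
  1345 2 4, .t 1216 2 4] 152 136 [1] [(152, 136, [1]), (168, 136, [1, 1])]) (.use 873) (.br 1218
  (.hor [.f 1217 1 5] []) .no (.use 881) .no (.use 876) .no) (.red [.f 1209 5 1, .f 1209 1 3, .t
  1216 2 4, .f 952 3 1, .f 944 1 3] 136 136 [] [(135, 136, [4]), (136, 136, []), (152, 136, [1]),
  (168, 136, [1, 1])])) .no .no (.red [.f 842 5 1, .f 834 1 3, .f 961 3 5, .f 961 5 1, .t 960 4 1]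
  136 136 [] [(121, 120, [3]), (136, 136, [])]))) (.hor [.t 834 1 3, .f 961 3 5] [(121, 120,
  [3])]) .no .no .no) .no .no) .no) (.red [.t 833 4 1, .t 962 4 1] 136 136 [] [(120, 136, [2]),
  (136, 136, [])]) .no (.red [.f 825 5 1, .f 826 1 3, .t 962 4 1] 136 136 [] [(120, 136, [2]),
  (136, 136, [])]) (.br 833 .no (.br 832 .no (.hor [.f 704 1 5] []) (.br 835 .no (.use 878) (.hor
  [.t 834 1 3, .f 961 3 5] [(121, 120, [3])]) (.br 826 .no (.br 818 .no (.use 717) .no (.hor [.f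
  810 3 1, .f 817 1 5] [(118, 120, [4, 4])]) (.br 699 .no (.br 843 .no (.br 707 .no (.hor [.f 571
  1 3, .f 699 3 1, .f 698 1 5] [(88, 120, [2, 2]), (104, 120, [2])]) .no .no .no (.hor [.t 826 2
  3, .f 707 1 3, .t 834 1 3, .f 961 3 5] [(104, 120, [2]), (105, 104, [3]), (121, 120, [3])]))
  (.use 877) .no .no (.red [.f 842 5 1, .f 834 1 3, .f 961 3 5, .f 961 5 1, .t 960 4 1] 136 136 []
  [(121, 120, [3]), (136, 136, [])])) (.hor [.f 699 3 1, .f 698 1 5] [(104, 120, [2])]) (.red [.t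
  698 1 4, .t 817 1 3, .t 944 1 3] 135 136 [4] [(103, 136, [2, 2, 4]), (119, 136, [2, 4]), (135,
  136, [4])]) .no .no) .no) .no (.hor [.t 817 1 3, .f 826 1 3, .f 826 3 5] [(119, 136, [2, 4]),
  (120, 136, [2])]) .no .no) .no .no) .no .no .no) (.hor [.f 833 3 1, .f 833 1 5] [(121, 120,
  [3])]) .no .no (.red [.f 824 5 3, .t 833 4 1, .t 962 4 1] 136 136 [] [(120, 136, [2]), (136,
  136, [])]))) (.hor [.f 816 1 5] []) .no (.use 712) .no .no) .no (.hor [.f 937 3 5] []) .no (.use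
  888)) .no (.red [.f 945 5 1, .t 946 1 3, .f 955 1 3] 136 136 [] [(135, 136, [4]), (136, 136,
  [])])

def c10t890 : Tr4 :=
  .br 1066 (.br 1201 (.use 845) .no .no (.red [.t 1193 3 2, .f 938 3 1] 150 136 [4, 1, 4] [(134,
  136, [4, 4]), (150, 136, [4, 1, 4])]) (.red [.f 1073 5 1, .f 1066 1 3, .f 938 3 1] 150 136 [4,
  1, 4] [(134, 136, [4, 4]), (150, 136, [4, 1, 4])]) (.br 1218 (.hor [.f 1217 1 5] []) .no (.br
  1208 (.use 756) .no .no .no .no .no) .no (.br 1211 (.br 1338 (.use 853) .no (.red [.t 1345 2 4,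
  .f 1210 1 5] 168 136 [1, 1] [(168, 136, [1, 1])]) (.br 1208 (.use 443) .no .no .no .no .no) .no
  (.red [.f 1209 5 1, .f 1209 1 3] 168 136 [1, 1] [(168, 136, [1, 1])])) .no .no (.con 136 [4, 1,
  1]) .no .no) .no)) .no .no (.hor [.f 1057 3 5] []) .no .no

def c10t891 : Tr4 :=
  .br 1338 (.use 744) .no (.red [.t 1345 2 4] 168 136 [1, 1] [(168, 136, [1, 1])]) (.use 443)
  (.con 136 [1, 1, 4]) (.red [.f 1209 5 1, .f 1209 1 3] 168 136 [1, 1] [(168, 136, [1, 1])])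

def c10t892 : Tr4 :=
  .br 1066 (.red [.t 1193 3 2, .f 938 3 1] 150 136 [4, 4, 1] [(134, 136, [4, 4]), (150, 136, [4,
  4, 1])]) .no .no (.use 854) .no .no

def c10t893 : Tr4 :=
  .br 1211 (.red [.f 1211 1 3] 168 136 [1, 1] [(168, 136, [1, 1])]) .no .no (.br 1208 (.con 136
  [4, 1, 1]) .no .no (.br 1201 (.use 777) .no .no (.br 1066 (.red [.t 1193 3 2, .f 938 3 1] 150
  136 [4, 4, 1] [(134, 136, [4, 4]), (150, 136, [4, 4, 1])]) .no .no (.use 851) .no .no) (.red [.f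
  1073 5 1, .t 1200 3 2, .f 1080 1 3] 152 136 [1] [(151, 136, [4, 1]), (152, 136, [1])]) .no) .no
  .no) .no .no

def c10t894 : Tr4 :=
  .br 1208 (.use 891) .no .no (.br 1201 (.br 1338 (.use 796) .no (.red [.t 1345 2 4] 168 136 [1,
  1] [(168, 136, [1, 1])]) (.red [.t 1329 2 3, .f 1200 3 5, .f 1080 5 1, .f 1080 1 3] 152 136 [1]
  [(152, 136, [1]), (167, 166, [3])]) (.use 780) (.red [.f 1209 5 1, .f 1209 1 3] 168 136 [1, 1]
  [(168, 136, [1, 1])])) .no .no (.use 892) (.red [.f 1073 5 1, .t 1200 3 2, .f 1080 1 3] 152 136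
  [1] [(151, 136, [4, 1]), (152, 136, [1])]) .no) .no .no

def c10t895 : Tr4 :=
  .br 843 .no (.hor [.f 707 1 3, .t 834 1 3, .f 961 3 5] [(105, 104, [3]), (121, 120, [3])]) (.br
  1065 (.use 843) (.red [.t 937 1 3, .t 946 1 3] 135 136 [4] [(134, 136, [4, 4]), (135, 136,
  [4])]) .no (.use 890) (.red [.f 1065 5 3, .f 938 3 1, .t 946 1 3, .f 955 1 3] 136 136 [] [(134,
  136, [4, 4]), (135, 136, [4]), (136, 136, [])]) (.br 1097 (.br 1218 (.hor [.f 1217 1 5] []) .no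
  (.br 1096 (.hor [.f 1096 1 5] []) (.hor [.t 1225 2 4, .f 961 3 1, .f 968 1 5] [(137, 136, [3]),
  (153, 136, [3, 1])]) (.br 968 .no .no (.hor [.f 968 3 1, .t 1225 2 4, .f 961 3 1, .f 968 1 5]
  [(137, 136, [3]), (138, 136, [3, 3]), (153, 136, [3, 1])]) .no .no .no) .no .no .no) .no (.br
  1099 (.br 1208 (.use 891) .no .no (.br 1201 (.br 1338 (.use 779) .no (.red [.t 1345 2 4] 168 136
  [1, 1] [(168, 136, [1, 1])]) (.red [.t 1329 2 3, .f 1200 3 5, .f 1080 5 1, .f 1080 1 3] 152 136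
  [1] [(152, 136, [1]), (167, 166, [3])]) (.use 780) (.red [.f 1209 5 1, .f 1209 1 3] 168 136 [1,
  1] [(168, 136, [1, 1])])) .no .no (.use 892) (.red [.f 1073 5 1, .t 1200 3 2, .f 1080 1 3] 152
  136 [1] [(151, 136, [4, 1]), (152, 136, [1])]) .no) .no .no) .no (.hor [.f 1098 3 5] []) .no .no
  .no) .no) .no (.hor [.f 1097 3 5] []) .no .no (.br 1099 (.br 1218 (.hor [.f 1217 1 5] []) .no
  (.br 1219 (.use 893) .no .no (.use 871) .no .no) .no (.use 894) .no) .no (.hor [.f 1098 3 5] [])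
  .no .no .no))) .no .no (.red [.f 842 5 1, .f 834 1 3, .f 961 3 5, .f 961 5 1, .t 960 4 1] 136
  136 [] [(121, 120, [3]), (136, 136, [])])

def c10t896 : Tr4 :=
  .br 945 .no (.br 944 (.br 825 .no (.br 826 .no (.hor [.f 697 1 5] []) .no (.red [.t 817 1 3, .t
  944 1 3] 135 136 [4] [(119, 136, [2, 4]), (135, 136, [4])]) (.br 824 .no (.hor [.f 696 1 5] [])
  (.con 136 [2, 2]) (.br 835 .no (.br 833 .no (.br 832 .no (.hor [.f 704 1 5] []) (.use 895) .no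
  .no .no) (.hor [.f 833 3 1, .f 833 1 5] [(121, 120, [3])]) .no .no (.br 1065 (.use 843) (.red
  [.t 937 1 3, .t 946 1 3] 135 136 [4] [(134, 136, [4, 4]), (135, 136, [4])]) .no (.use 890) (.red
  [.f 1065 5 3, .f 938 3 1, .t 946 1 3, .f 955 1 3] 136 136 [] [(134, 136, [4, 4]), (135, 136,
  [4]), (136, 136, [])]) (.br 1218 (.hor [.f 1217 1 5] []) .no (.br 1219 (.use 893) .no (.use 534)
  (.br 1097 (.red [.t 1225 2 4, .t 1218 2 4] 152 136 [1] [(152, 136, [1]), (153, 136, [3, 1])])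
  .no (.hor [.f 1097 3 5] []) .no .no (.br 968 .no (.hor [.t 968 2 4, .f 833 1 5] [(121, 120,
  [3])]) (.br 843 .no (.hor [.f 707 1 3, .t 834 1 3, .f 961 3 5] [(105, 104, [3]), (121, 120,
  [3])]) (.br 1225 (.hor [.f 1217 1 3, .f 1217 3 5] [(169, 153, [1])]) .no (.use 879) .no .no
  (.red [.f 1096 5 1, .t 1225 2 4, .t 1218 2 4] 152 136 [1] [(152, 136, [1]), (153, 136, [3,
  1])])) .no .no (.red [.f 842 5 1, .f 834 1 3, .f 961 3 5, .f 961 5 1, .t 960 4 1] 136 136 []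
  [(121, 120, [3]), (136, 136, [])])) .no .no .no)) .no .no) .no (.use 894) .no))) (.hor [.t 834 1
  3, .f 961 3 5] [(121, 120, [3])]) .no .no .no) .no .no) .no) (.red [.t 833 4 1, .t 962 4 1] 136
  136 [] [(120, 136, [2]), (136, 136, [])]) .no (.red [.f 825 5 1, .f 826 1 3, .t 962 4 1] 136 136
  [] [(120, 136, [2]), (136, 136, [])]) (.br 833 .no (.br 818 .no (.br 826 .no (.use 717) .no .no
  (.br 835 .no (.br 832 .no (.hor [.f 704 1 5] []) (.use 895) .no .no .no) (.hor [.t 834 1 3, .f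
  961 3 5] [(121, 120, [3])]) .no .no .no) .no) (.red [.t 817 1 3, .t 944 1 3] 135 136 [4] [(119,
  136, [2, 4]), (135, 136, [4])]) (.hor [.f 810 3 1, .f 817 1 5] [(118, 120, [4, 4])]) (.use 844)
  .no) (.hor [.f 833 3 1, .f 833 1 5] [(121, 120, [3])]) .no .no (.red [.f 824 5 3, .t 833 4 1, .t
  962 4 1] 136 136 [] [(120, 136, [2]), (136, 136, [])]))) (.hor [.f 816 1 5] []) .no (.use 752)
  .no .no) .no (.hor [.f 937 3 5] []) .no (.br 1065 (.br 1072 (.con 136 [4, 4, 1]) .no .no (.use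
  653) .no .no) (.red [.t 937 1 3, .t 946 1 3] 135 136 [4] [(134, 136, [4, 4]), (135, 136, [4])])
  .no (.use 890) (.red [.f 1065 5 3, .f 938 3 1, .t 946 1 3, .f 955 1 3] 136 136 [] [(134, 136,
  [4, 4]), (135, 136, [4]), (136, 136, [])]) (.con 136 [4, 4, 1]))

def c10t897 : Tr4 :=
  .br 954 .no (.br 953 .no (.hor [.f 825 1 5] []) .no (.br 946 (.red [.t 946 1 3, .f 955 1 3] 136
  136 [] [(135, 136, [4]), (136, 136, [])]) (.hor [.f 818 1 3, .f 945 3 5] [(119, 120, [4])]) .no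
  (.br 1074 (.use 530) .no .no (.red [.f 938 3 1, .t 946 1 3] 135 136 [4] [(134, 136, [4, 4]),
  (135, 136, [4])]) (.red [.f 1074 5 3, .f 947 3 1, .f 955 1 3] 136 136 [] [(135, 136, [4]), (136,
  136, [])]) (.br 827 .no (.br 1072 (.br 835 .no (.br 825 .no (.br 833 .no (.hor [.f 697 1 3, .f
  826 1 3, .f 825 3 5] [(104, 136, [2, 2]), (120, 136, [2])]) (.hor [.f 833 3 1, .f 833 1 5]
  [(121, 120, [3])]) .no .no (.br 1075 (.br 1201 (.use 647) .no .no (.br 1065 .no (.red [.t 937 1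
  3, .t 946 1 3] 135 136 [4] [(134, 136, [4, 4]), (135, 136, [4])]) .no (.br 824 .no (.hor [.f 696
  1 5] []) .no (.br 937 .no (.use 658) .no (.red [.f 929 3 1, .t 937 1 3] 134 136 [4, 4] [(133,
  136, [4, 4, 4]), (134, 136, [4, 4])]) .no (.con 136 [4, 4, 2, 3, 3])) .no .no) (.red [.f 1065 5
  3, .f 938 3 1, .t 946 1 3, .f 955 1 3] 136 136 [] [(134, 136, [4, 4]), (135, 136, [4]), (136,
  136, [])]) (.red [.t 1200 2 4] 150 136 [4, 4, 1] [(150, 136, [4, 4, 1])])) (.hor [.f 1073 5 1,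
  .f 1072 1 5, .f 1074 1 5] []) .no) .no .no (.con 136 [4, 4, 1]) .no .no)) (.hor [.f 699 1 3, .f
  699 3 1, .f 826 1 3, .f 825 3 5] [(120, 136, [2])]) (.hor [.f 817 3 1, .f 825 1 5] [(119, 120,
  [4])]) .no (.br 944 .no (.hor [.t 944 2 3, .f 825 1 5] [(119, 120, [4])]) .no (.br 1075 (.br
  1201 (.use 647) .no .no (.br 1065 .no (.red [.t 937 1 3, .t 946 1 3] 135 136 [4] [(134, 136, [4,
  4]), (135, 136, [4])]) .no (.use 660) (.red [.f 1065 5 3, .f 938 3 1, .t 946 1 3, .f 955 1 3]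
  136 136 [] [(134, 136, [4, 4]), (135, 136, [4]), (136, 136, [])]) (.red [.t 1200 2 4, .f 936 3
  1] 134 136 [4, 4] [(134, 136, [4, 4]), (150, 136, [4, 4, 1])])) (.hor [.f 1073 5 1, .f 1072 1 5,
  .f 1074 1 5] []) .no) .no .no (.con 136 [4, 4, 1]) .no .no) .no .no)) (.hor [.t 834 1 3, .f 961
  3 5] [(121, 120, [3])]) .no .no .no) (.use 766) .no (.use 791) .no .no) (.hor [.f 826 1 3, .f
  826 3 5] [(120, 136, [2])]) (.hor [.f 819 3 1, .f 826 1 5] [(119, 120, [4])]) .no .no)) .no .no)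
  .no .no) .no (.hor [.f 946 3 5] []) .no (.br 1098 (.br 1099 (.hor [.f 1098 1 5] []) .no (.br
  1097 (.hor [.f 1097 1 5] []) .no (.con 136 [3, 1, 3]) .no .no (.con 136 [3, 3, 1])) .no .no .no)
  .no (.br 1075 (.br 1074 (.hor [.f 1074 1 5] []) (.red [.t 946 1 3, .f 955 1 3] 136 136 [] [(135,
  136, [4]), (136, 136, [])]) .no (.br 946 .no (.br 825 .no (.br 1208 (.use 665) .no .no (.use
  792) .no .no) (.red [.t 833 4 1, .t 962 4 1] 136 136 [] [(120, 136, [2]), (136, 136, [])]) (.red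
  [.t 817 3 1, .f 946 3 5, .f 954 5 1, .f 955 1 3] 136 136 [] [(119, 118, [3]), (136, 136, [])])
  (.red [.f 825 5 1, .f 826 1 3, .t 962 4 1] 136 136 [] [(120, 136, [2]), (136, 136, [])]) (.br
  833 .no (.br 1208 (.use 677) .no .no (.use 792) .no .no) (.hor [.f 833 3 1, .f 833 1 5] [(121,
  120, [3])]) .no .no (.red [.f 824 5 3, .t 833 4 1, .t 962 4 1] 136 136 [] [(120, 136, [2]),
  (136, 136, [])]))) .no (.red [.f 938 3 1, .t 946 1 3] 135 136 [4] [(134, 136, [4, 4]), (135,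
  136, [4])]) .no (.br 1073 (.br 1208 (.use 678) .no .no (.use 792) .no .no) .no .no (.hor [.f
  1065 3 5] []) .no (.red [.f 1072 5 3, .f 945 5 3, .f 945 3 1] 135 136 [4] [(135, 136, [4])])))
  .no (.use 889)) .no .no (.br 1074 (.use 742) (.red [.t 946 1 3, .f 955 1 3] 136 136 [] [(135,
  136, [4]), (136, 136, [])]) .no (.hor [.f 1066 3 5] []) .no (.br 946 .no (.use 746) .no (.use
  896) .no (.red [.f 945 5 1, .t 946 1 3, .f 955 1 3] 136 136 [] [(135, 136, [4]), (136, 136,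
  [])]))) .no (.red [.f 1074 5 3, .f 947 3 1, .f 955 1 3] 136 136 [] [(135, 136, [4]), (136, 136,
  [])])) .no (.red [.f 970 5 1, .t 969 4 1, .t 960 4 1] 136 136 [] [(136, 136, []), (137, 136,
  [3])]) (.red [.f 1089 5 3, .f 961 3 1, .t 960 4 1] 136 136 [] [(136, 136, []), (137, 136,
  [3])]))

def c10t898 : Tr4 :=
  .br 938 .no (.red [.t 938 2 3, .f 819 1 3] 119 136 [4, 2] [(118, 136, [4, 2, 4]), (119, 136, [4,
  2])]) .no (.hor [.f 929 3 5] []) .no .no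

def c10l37 : List Tr4 :=
  [c10t888, c10t889, c10t890, c10t891, c10t892, c10t893, c10t894, c10t895, c10t896, c10t897,
  c10t898]

theorem c10k37 : chkLF ⟨4, 0, 0, true, -8⟩ true 0 c10N 888 c10l37 = true := by decide +kernel

def c10t899 : Tr4 :=
  .br 947 .no (.red [.f 819 1 3] 119 136 [2, 4] [(119, 136, [2, 4])]) .no (.br 946 .no (.use 208)
  .no (.hor [.f 938 3 5] []) .no (.br 826 .no (.br 1073 .no .no .no (.hor [.f 1065 3 5] []) .no
  (.br 937 (.red [.t 1065 2 3] 134 136 [4, 4] [(134, 136, [4, 4])]) (.use 270) .no (.br 824 .no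
  (.br 818 .no (.red [.f 690 1 3] 103 136 [2, 2, 4] [(103, 136, [2, 2, 4])]) .no (.use 266) (.use
  898) (.red [.f 817 5 1, .f 817 1 3] 119 136 [2, 4] [(119, 136, [2, 4])])) (.hor [.f 824 3 1, .f
  824 1 5] [(120, 104, [1])]) (.br 818 .no (.br 938 .no (.br 817 .no (.hor [.f 689 1 5] []) .no
  (.red [.t 809 3 1, .f 817 1 3] 119 136 [2, 4] [(118, 136, [2, 4, 4]), (119, 136, [2, 4])]) .no
  .no) .no (.hor [.f 929 3 5] []) .no .no) .no (.use 266) (.use 898) (.red [.f 817 5 1, .f 817 1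
  3] 119 136 [2, 4] [(119, 136, [2, 4])])) .no .no) (.red [.f 937 5 3, .f 938 3 1] 134 136 [4, 4]
  [(134, 136, [4, 4])]) (.con 136 [4, 4, 2]))) (.hor [.f 826 3 1, .f 825 1 5] [(120, 104, [1])])
  (.red [.t 825 1 4] 119 136 [2, 4] [(119, 136, [2, 4])]) .no .no)) .no (.br 826 .no (.br 1073 .no
  (.br 1072 (.con 136 [4, 4]) (.hor [.f 944 1 5] []) .no (.con 136 [4, 4]) .no .no) .no (.hor [.f
  1065 3 5] []) .no (.br 945 .no (.red [.f 817 1 3] 119 136 [2, 4] [(119, 136, [2, 4])]) .no (.br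
  944 .no (.con 136 [2, 4, 4]) .no (.hor [.f 936 3 5] []) .no .no) .no (.br 824 .no (.br 816 .no
  (.red [.f 688 1 3] 103 136 [2, 2, 4] [(103, 136, [2, 2, 4])]) .no (.br 818 .no (.red [.f 690 1
  3] 103 136 [2, 2, 4] [(103, 136, [2, 2, 4])]) .no (.br 817 .no (.con 136 [2, 2, 4, 4]) .no (.hor
  [.f 808 3 5] []) .no .no) (.red [.f 944 5 1, .f 818 5 1, .f 819 1 3] 119 136 [2, 4] [(119, 136,
  [2, 4])]) (.br 939 (.red [.f 944 5 1, .t 1066 3 2] 134 136 [4, 4] [(134, 136, [4, 4])]) (.con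
  136 [2, 4, 4, 2]) .no (.br 938 .no (.br 819 .no (.con 136 [2, 2, 4, 4]) .no (.red [.t 810 1 3,
  .f 819 1 3] 119 136 [2, 4] [(118, 136, [2, 4, 4]), (119, 136, [2, 4])]) .no .no) .no (.hor [.f
  930 3 5] []) .no (.red [.f 944 5 1, .t 1073 2 4] 134 136 [4, 4] [(134, 136, [4, 4])])) .no (.red
  [.f 944 5 1, .f 938 5 3, .f 938 3 1] 134 136 [4, 4] [(134, 136, [4, 4])]))) (.red [.f 816 5 1,
  .f 817 1 3] 119 136 [2, 4] [(119, 136, [2, 4])]) .no) (.hor [.f 824 3 1, .f 824 1 5] [(120, 104,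
  [1])]) (.red [.t 824 4 1] 119 136 [2, 4] [(119, 136, [2, 4])]) .no .no))) (.hor [.f 826 3 1, .f
  825 1 5] [(120, 104, [1])]) (.red [.t 826 4 1] 119 136 [2, 4] [(119, 136, [2, 4])]) .no .no)

def c10t900 : Tr4 :=
  .br 962 .no (.br 970 (.red [.t 969 4 1, .t 960 4 1] 136 136 [] [(136, 136, []), (137, 136,
  [3])]) (.hor [.f 834 1 3, .f 961 3 5] [(121, 120, [3])]) (.use 859) .no (.br 1082 (.br 1209
  (.use 770) .no (.red [.t 1216 2 4, .f 952 3 1] 136 136 [] [(136, 136, []), (152, 136, [1])])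
  (.br 1083 (.hor [.f 1082 1 5] []) (.red [.f 955 1 3] 136 136 [] [(136, 136, [])]) .no (.br 1217
  (.use 863) .no (.use 767) .no (.red [.f 1089 5 1, .f 1082 1 3] 152 136 [1] [(152, 136, [1])])
  .no) .no .no) .no (.red [.f 1080 5 1, .f 1080 1 3, .f 952 3 1] 136 136 [] [(136, 136, []), (152,
  136, [1])])) (.use 768) .no (.use 769) (.br 1209 (.use 770) .no (.red [.t 1216 2 4, .f 952 3 1]
  136 136 [] [(136, 136, []), (152, 136, [1])]) (.br 1208 (.use 438) .no .no (.hor [.f 1200 3 5]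
  []) .no .no) (.br 1217 (.br 955 .no (.br 954 .no (.hor [.f 826 1 5] []) .no (.use 542) .no (.use
  872)) .no (.use 897) .no (.red [.f 954 5 1, .f 955 1 3] 136 136 [] [(136, 136, [])])) .no (.use
  465) .no (.red [.f 1209 5 3, .t 1216 2 4, .f 952 3 1] 136 136 [] [(136, 136, []), (152, 136,
  [1])]) .no) (.red [.f 1080 5 1, .f 1080 1 3, .f 952 3 1] 136 136 [] [(136, 136, []), (152, 136,
  [1])])) .no) .no) (.hor [.f 961 3 5] []) (.br 1082 (.br 1217 (.br 1083 (.hor [.f 1082 1 5] [])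
  (.red [.f 955 1 3, .f 954 3 5] 136 136 [] [(136, 136, [])]) .no (.br 1209 (.use 540) .no .no
  (.br 955 .no (.br 953 .no (.br 1074 (.red [.f 1074 1 3, .f 1074 3 5, .t 962 4 1] 136 136 []
  [(136, 136, []), (151, 135, [1])]) (.br 947 .no (.red [.f 819 1 3] 119 136 [2, 4] [(119, 136,
  [2, 4])]) .no (.br 945 (.hor [.f 945 1 5] []) (.red [.f 817 1 3] 119 136 [2, 4] [(119, 136, [2,
  4])]) .no (.br 944 (.br 1073 .no .no .no (.hor [.f 937 3 1, .f 944 1 5] [(134, 118, [1])]) .no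
  .no) (.con 136 [2, 4, 4]) .no (.hor [.f 936 3 5] []) .no .no) .no (.br 824 .no (.br 1072 (.red
  [.t 1200 2 3, .f 1081 1 5, .f 1081 5 3, .f 954 3 1] 136 136 [] [(136, 136, []), (151, 135,
  [1])]) .no .no (.br 1073 .no .no .no (.hor [.f 1064 3 5] []) .no .no) (.br 826 .no (.br 816 .no
  (.red [.f 688 1 3] 103 136 [2, 2, 4] [(103, 136, [2, 2, 4])]) .no (.br 817 .no (.br 818 .no
  (.hor [.f 689 1 5] []) .no (.con 136 [2, 2, 4, 4]) (.con 136 [2, 2, 4, 4]) .no) .no (.hor [.f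
  808 3 5] []) (.br 819 .no (.con 136 [2, 2, 4, 4]) .no (.red [.f 811 3 1, .f 819 1 3] 119 136 [2,
  4] [(118, 136, [2, 4, 4]), (119, 136, [2, 4])]) .no .no) .no) (.red [.f 816 5 1, .f 817 1 3] 119
  136 [2, 4] [(119, 136, [2, 4])]) .no) (.red [.f 826 3 1, .f 826 1 5, .t 1074 2 3, .f 955 1 3, .t
  962 2 4] 136 136 [] [(135, 136, [4]), (136, 136, [])]) (.red [.f 944 5 1, .f 945 1 5, .t 825 1
  4] 119 136 [2, 4] [(119, 136, [2, 4])]) .no .no) .no) (.hor [.f 824 3 1, .f 824 1 5] [(120, 104,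
  [1])]) (.red [.t 824 4 1] 119 136 [2, 4] [(119, 136, [2, 4])]) .no .no)) .no .no) .no (.use 899)
  .no (.red [.t 1209 4 2, .f 1074 3 5, .t 962 4 1] 136 136 [] [(136, 136, []), (151, 135, [1])]))
  .no (.use 541) .no .no) .no (.red [.f 947 3 1, .f 955 1 3, .f 954 3 5] 136 136 [] [(135, 136,
  [4]), (136, 136, [])]) .no .no) .no (.red [.f 1080 5 1, .f 1080 1 3, .f 952 3 1] 136 136 []
  [(136, 136, []), (152, 136, [1])])) .no .no) .no (.use 767) (.red [.t 1216 2 4, .f 952 3 1] 136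
  136 [] [(136, 136, []), (152, 136, [1])]) (.red [.f 1089 5 1, .f 1082 1 3, .f 954 3 1] 136 136
  [] [(136, 136, []), (152, 136, [1])]) .no) .no .no (.use 526) (.red [.t 962 4 1] 136 136 []
  [(136, 136, [])]) .no) .no .no

def c10t901 : Tr4 :=
  .br 1089 (.hor [.f 1088 1 5] []) (.red [.t 960 4 1] 136 136 [] [(136, 136, [])]) (.br 963 (.br
  961 .no (.br 962 (.con 136 [3]) (.hor [.f 833 1 5] []) (.con 136 [2, 3]) (.use 528) .no .no)
  (.red [.f 961 3 1, .t 960 4 1] 136 136 [] [(136, 136, []), (137, 136, [3])]) (.hor [.f 952 3 5]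
  []) (.br 1090 (.br 1217 (.use 536) .no (.hor [.f 1089 3 1, .f 1088 1 5] [(153, 137, [1])]) (.red
  [.t 1216 2 4, .f 952 3 1] 136 136 [] [(136, 136, []), (152, 136, [1])]) .no .no) .no (.hor [.f
  1089 3 5] []) (.br 954 .no (.br 955 (.use 317) (.hor [.f 826 1 5] []) .no (.br 1083 (.br 953 .no
  (.hor [.f 825 1 5] []) .no (.br 825 .no (.br 1075 (.red [.f 1075 1 3] 151 136 [4, 1] [(151, 136,
  [4, 1])]) .no .no (.br 1072 (.use 537) (.red [.t 944 1 3, .t 1081 2 3] 136 136 [] [(135, 136,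
  [4]), (136, 136, [])]) .no (.use 538) (.red [.f 1072 5 3, .f 945 3 1] 135 136 [4] [(135, 136,
  [4])]) .no) .no (.br 1072 (.use 539) (.red [.t 944 1 3, .t 1081 2 3] 136 136 [] [(135, 136,
  [4]), (136, 136, [])]) .no (.use 538) (.red [.f 1072 5 3, .f 945 3 1] 135 136 [4] [(135, 136,
  [4])]) .no)) (.red [.t 825 3 1, .f 954 3 1] 136 136 [] [(120, 136, [2]), (136, 136, [])]) (.hor
  [.f 817 3 1, .f 825 1 5] [(119, 120, [4])]) .no (.br 944 (.red [.t 944 1 3, .t 1081 2 3] 136 136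
  [] [(135, 136, [4]), (136, 136, [])]) (.hor [.t 944 2 3, .f 825 1 5] [(119, 120, [4])]) .no (.br
  1072 (.br 1075 (.red [.f 1075 1 3] 151 136 [4, 1] [(151, 136, [4, 1])]) .no .no (.use 537) .no
  (.use 539)) .no .no (.red [.f 936 3 1, .t 944 1 3] 135 136 [4] [(134, 136, [4, 4]), (135, 136,
  [4])]) (.red [.f 1072 5 3, .f 945 3 1] 135 136 [4] [(135, 136, [4])]) .no) .no .no)) .no .no)
  .no .no (.use 281) .no .no) .no .no) .no (.br 955 (.use 317) (.br 953 .no (.con 136 [2, 4]) .no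
  (.hor [.f 945 3 5] []) .no .no) .no (.hor [.f 946 3 5] []) .no .no) (.red [.t 1090 4 2] 136 136
  [] [(136, 136, [])]) (.red [.f 953 5 3, .f 954 3 1] 136 136 [] [(136, 136, [])])) .no .no) .no)
  (.con 136 [3]) (.con 136 [3]) (.con 136 [3]) .no (.con 136 [3])) .no (.br 963 (.br 961 .no (.br
  962 .no (.hor [.f 833 1 5] []) (.con 136 [2, 3]) (.br 1082 (.br 1083 (.hor [.f 1082 1 5] [])
  (.red [.f 955 1 3, .f 954 3 5] 136 136 [] [(136, 136, [])]) .no (.br 953 .no (.hor [.f 825 1 3,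
  .f 952 3 5] [(120, 121, [4])]) .no (.br 1209 (.use 540) .no (.red [.t 1216 2 4, .f 952 3 1] 136
  136 [] [(136, 136, []), (152, 136, [1])]) (.use 541) .no (.red [.f 1080 5 1, .f 1080 1 3, .f 952
  3 1] 136 136 [] [(136, 136, []), (152, 136, [1])])) .no .no) .no .no) .no .no (.use 526) (.red
  [.t 962 4 1] 136 136 [] [(136, 136, [])]) .no) .no .no) (.use 900) (.hor [.f 952 3 5] []) (.red
  [.f 961 5 1, .t 960 4 1] 136 136 [] [(136, 136, [])]) .no) (.con 136 [3]) (.con 136 [3]) (.con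
  136 [3]) .no (.con 136 [3])) .no

def c10t902 : Tr4 :=
  .br 1088 (.red [.f 1080 1 3] 152 136 [1] [(152, 136, [1])]) (.con 136 [3]) (.hor [.f 1088 3 5]
  []) .no .no .no

def c10t903 : Tr4 :=
  .br 960 .no (.hor [.f 832 1 5] []) (.con 136 [3, 2]) .no .no .no

def c10t904 : Tr4 :=
  .br 1090 (.br 1082 (.red [.f 1082 1 3, .f 954 3 1] 136 136 [] [(136, 136, []), (152, 136, [1])])
  .no .no (.br 1089 (.hor [.f 1089 1 5] []) (.red [.f 953 1 3, .f 953 3 5] 136 136 [] [(136, 136,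
  [])]) (.br 963 (.br 1083 (.br 961 .no (.br 1080 (.use 902) .no (.use 903) (.con 136 [4, 1]) .no
  .no) (.red [.f 961 3 1, .f 953 1 3] 136 136 [] [(136, 136, []), (137, 136, [3])]) .no .no (.br
  1080 (.br 1088 (.red [.f 1080 1 3, .t 1080 3 2] 136 136 [] [(136, 136, []), (152, 136, [1])])
  .no (.hor [.f 1088 3 5] []) .no .no .no) .no (.red [.t 1080 3 2, .f 953 3 5] 136 136 [] [(136,
  136, [])]) (.con 136 [4, 1]) .no .no)) (.red [.f 955 1 3, .f 954 3 5] 136 136 [] [(136, 136,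
  [])]) .no (.hor [.f 1074 3 5] []) .no .no) (.con 136 [3]) (.con 136 [3]) (.con 136 [2]) .no .no)
  .no .no (.br 963 (.br 1080 (.br 1083 (.br 1217 (.br 1209 (.red [.f 1209 1 3] 168 136 [1, 1]
  [(168, 136, [1, 1])]) .no .no (.br 1210 (.con 136 [4, 1, 1]) .no .no (.red [.f 1074 3 1, .f 1082
  1 5] 151 136 [4, 1] [(151, 136, [4, 1])]) .no .no) (.br 1073 (.red [.t 1073 1 3, .f 1082 1 5]
  151 136 [4, 1] [(151, 136, [4, 1])]) (.red [.f 945 1 3, .f 1073 3 5, .f 1081 5 1, .f 1082 1 3]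
  152 136 [1] [(135, 134, [3]), (152, 136, [1])]) .no (.br 1072 (.br 1075 (.red [.f 1075 1 3, .f
  1074 3 5] 151 136 [4, 1] [(151, 136, [4, 1])]) (.con 136 [4, 4, 1]) .no (.con 136 [4, 4, 1]) .no
  .no) .no .no (.hor [.f 1064 3 5] []) .no .no) .no (.red [.t 952 4 1, .f 1073 3 5, .f 1081 5 1,
  .f 1082 1 3] 152 136 [1] [(135, 136, [4]), (152, 136, [1])])) .no) .no (.use 46) (.red [.t 1208
  2 3, .f 1089 1 5] 152 136 [1] [(152, 136, [1])]) .no (.red [.f 1088 5 1, .f 1089 1 5, .t 953 1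
  3] 136 136 [] [(136, 136, [])])) (.red [.f 955 1 3, .f 954 3 5] 136 136 [] [(136, 136, [])]) .no
  (.hor [.f 1074 3 5] []) .no .no) .no .no (.use 375) .no .no) (.con 136 [3]) (.con 136 [3]) (.con
  136 [2]) .no .no)) (.br 1091 (.hor [.f 1090 1 5] []) (.red [.t 962 4 1, .f 953 1 5] 136 136 []
  [(136, 136, [])]) (.br 1089 (.con 136 [3]) (.red [.f 953 1 3, .f 953 3 5] 136 136 [] [(136, 136,
  [])]) (.con 136 [3]) .no .no (.con 136 [3])) .no .no .no) .no) .no (.use 2) (.red [.f 954 3 1,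
  .f 953 1 5] 136 136 [] [(136, 136, [])]) (.use 3) (.red [.t 953 1 3] 136 136 [] [(136, 136,
  [])])

def c10t905 : Tr4 :=
  .br 1088 (.red [.f 1080 1 3] 152 136 [1] [(152, 136, [1])]) .no (.hor [.f 1088 3 5] []) .no .no
  .no

def c10t906 : Tr4 :=
  .br 1202 (.red [.f 1202 1 3] 167 136 [4, 1, 1] [(167, 136, [4, 1, 1])]) .no .no .no (.red [.t
  1066 1 3, .f 1075 1 3, .f 947 3 1, .f 946 1 5] 135 136 [4] [(135, 136, [4]), (150, 136, [4, 4,
  1]), (151, 136, [4, 1])]) (.br 1337 (.br 1344 (.br 1336 (.hor [.f 1336 1 5] []) .no .no (.br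
  1203 (.con 136 [4, 1, 1, 4]) .no .no (.con 136 [4, 1, 1, 4, 2]) .no .no) .no .no) .no (.hor [.f
  1216 3 1, .f 1216 1 5] [(169, 137, [1, 1])]) (.red [.t 1344 4 2, .t 1217 4 2, .f 954 3 1, .f 962
  1 5] 136 136 [] [(136, 136, []), (152, 136, [1]), (168, 136, [1, 1])]) .no .no) .no .no (.red
  [.t 1337 4 2] 167 136 [4, 1, 1] [(167, 136, [4, 1, 1])]) .no (.red [.f 1208 5 1, .f 1209 1 3, .t
  1217 4 2, .f 954 3 1] 136 136 [] [(136, 136, []), (152, 136, [1]), (168, 136, [1, 1])]))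

def c10t907 : Tr4 :=
  .br 1065 (.br 1064 (.hor [.f 1064 1 5] []) (.con 136 [4, 4, 4, 1]) .no (.con 136 [4, 4, 4, 1])
  .no .no) .no .no (.hor [.f 1057 3 5] []) .no (.red [.f 1064 5 3, .f 937 3 1, .f 945 1 5, .t 825
  1 4] 119 136 [2, 4] [(119, 136, [2, 4]), (134, 118, [1])])

def c10t908 : Tr4 :=
  .br 938 (.red [.f 938 1 3, .f 937 3 5, .f 817 5 1, .f 817 1 3] 119 136 [2, 4] [(119, 136, [2,
  4]), (134, 118, [1])]) (.red [.t 937 3 2, .f 817 1 3] 119 136 [2, 4] [(118, 136, [2, 4, 4]),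
  (119, 136, [2, 4])]) .no (.br 939 .no (.con 136 [2, 4, 4, 2]) .no (.hor [.f 930 3 5] []) .no
  .no) (.red [.t 1074 2 4, .f 937 3 5, .f 817 5 1, .f 817 1 3] 119 136 [2, 4] [(119, 136, [2, 4]),
  (134, 118, [1])]) .no

def c10l38 : List Tr4 :=
  [c10t899, c10t900, c10t901, c10t902, c10t903, c10t904, c10t905, c10t906, c10t907, c10t908]

theorem c10k38 : chkLF ⟨4, 0, 0, true, -8⟩ true 0 c10N 899 c10l38 = true := by decide +kernel

def c10t909 : Tr4 :=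
  .br 817 (.red [.f 817 1 3] 119 136 [2, 4] [(119, 136, [2, 4])]) (.br 818 (.con 136 [2, 4, 4])
  (.hor [.f 689 1 5] []) (.br 946 (.br 945 (.hor [.f 945 1 5] []) .no .no (.br 1073 (.br 1072
  (.hor [.f 1072 1 5] []) .no .no (.br 1065 (.red [.f 1065 1 3, .f 937 3 1, .f 945 1 5, .t 825 1
  4] 119 136 [2, 4] [(119, 136, [2, 4]), (134, 118, [1]), (150, 151, [4])]) .no .no (.br 1066 (.br
  1202 (.red [.f 1202 1 3, .t 1201 2 3] 151 136 [4, 1] [(151, 136, [4, 1]), (167, 136, [4, 1,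
  1])]) .no .no .no (.red [.t 1066 1 3, .f 1075 1 3, .f 947 3 1, .f 946 1 5] 135 136 [4] [(135,
  136, [4]), (150, 136, [4, 4, 1]), (151, 136, [4, 1])]) .no) (.red [.f 938 1 3, .f 937 3 5, .t
  825 1 4] 119 136 [2, 4] [(119, 136, [2, 4]), (134, 118, [1])]) .no (.hor [.f 1057 3 5] []) .no
  .no) (.red [.t 945 4 1, .t 825 1 4] 119 136 [2, 4] [(119, 136, [2, 4]), (134, 118, [1])]) .no)
  .no .no) .no .no (.red [.f 937 3 1, .f 945 1 5, .t 825 1 4] 119 136 [2, 4] [(119, 136, [2, 4]),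
  (134, 118, [1])]) .no (.br 1216 (.hor [.f 1216 1 5] []) .no (.br 938 (.red [.f 938 1 3, .f 937 3
  5, .t 825 1 4] 119 136 [2, 4] [(119, 136, [2, 4]), (134, 118, [1])]) (.br 1065 (.br 1064 (.hor
  [.f 1064 1 5] []) (.red [.t 936 1 3, .f 945 1 5, .t 825 1 4, .f 810 1 3] 119 136 [2, 4] [(118,
  136, [2, 4, 4]), (119, 136, [2, 4]), (134, 118, [1])]) .no (.br 1066 (.hor [.f 1065 1 5] []) .no
  .no (.con 136 [4, 4, 4, 1]) .no .no) .no .no) .no .no (.br 1064 (.br 1066 (.use 906) .no .no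
  (.hor [.f 1057 3 5] []) .no .no) (.red [.t 936 1 3, .f 945 1 5, .t 825 1 4, .f 810 1 3] 119 136
  [2, 4] [(118, 136, [2, 4, 4]), (119, 136, [2, 4]), (134, 118, [1])]) .no (.hor [.f 1056 3 5] [])
  .no .no) (.red [.t 945 4 1, .t 825 1 4, .f 810 1 3] 119 136 [2, 4] [(118, 136, [2, 4, 4]), (119,
  136, [2, 4]), (134, 118, [1])]) (.red [.f 1064 5 3, .f 937 3 1, .f 945 1 5, .t 825 1 4, .f 810 1
  3] 119 136 [2, 4] [(118, 136, [2, 4, 4]), (119, 136, [2, 4]), (134, 118, [1])])) .no (.br 1066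
  (.br 1065 (.hor [.f 1065 1 5] []) .no .no (.br 1064 (.use 906) (.red [.t 936 1 3, .f 945 1 5, .t
  825 1 4] 119 136 [2, 4] [(119, 136, [2, 4]), (134, 118, [1])]) .no (.hor [.f 1056 3 5] []) .no
  .no) .no (.red [.f 1064 5 3, .f 937 3 1, .f 945 1 5, .t 825 1 4] 119 136 [2, 4] [(119, 136, [2,
  4]), (134, 118, [1])])) .no .no (.use 907) .no (.red [.t 945 4 1, .t 825 1 4] 119 136 [2, 4]
  [(119, 136, [2, 4]), (134, 118, [1])])) (.red [.t 1074 2 4, .f 937 3 5, .t 825 1 4] 119 136 [2,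
  4] [(119, 136, [2, 4]), (134, 118, [1])]) .no) .no .no .no)) .no .no) .no .no (.br 945 (.con 136
  [4, 4]) .no .no (.hor [.f 937 3 5] []) .no .no) .no (.red [.t 825 1 4, .f 944 3 5] 119 136 [2,
  4] [(119, 136, [2, 4])])) (.con 136 [2, 4, 2, 4]) (.con 136 [2, 4, 2, 4]) .no) .no (.hor [.f 808
  3 5] []) (.br 946 (.br 945 (.hor [.f 945 1 5] []) .no .no (.use 908) .no .no) .no .no (.br 945
  (.con 136 [4, 4]) .no .no (.hor [.f 937 3 5] []) .no .no) .no (.red [.f 817 5 1, .f 817 1 3] 119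
  136 [2, 4] [(119, 136, [2, 4])])) .no

def c10t910 : Tr4 :=
  .br 1064 (.red [.t 1192 2 3, .t 1201 2 3, .f 1082 1 3] 151 136 [4, 1] [(150, 136, [4, 4, 1]),
  (151, 136, [4, 1]), (152, 136, [1])]) (.red [.t 936 1 3, .f 945 1 5, .f 1073 5 3, .f 1074 3 1]
  151 136 [4, 1] [(134, 118, [1]), (151, 136, [4, 1])]) .no (.br 1065 .no .no .no (.hor [.f 1056 3
  5] []) (.red [.t 945 4 1, .f 1066 3 5, .t 1210 4 2] 151 136 [4, 1] [(134, 118, [1]), (151, 136,
  [4, 1])]) .no) (.red [.f 1064 5 3, .f 937 3 1, .f 945 1 5, .f 1073 5 3, .f 1074 3 1] 151 136 [4,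
  1] [(134, 118, [1]), (151, 136, [4, 1])]) .no

def c10t911 : Tr4 :=
  .br 1201 (.hor [.f 1201 1 3, .f 1200 3 5] [(167, 151, [1])]) .no .no (.use 910) .no .no

def c10t912 : Tr4 :=
  .br 1208 (.hor [.f 1208 1 5] []) .no (.red [.f 1209 1 3] 168 136 [1, 1] [(168, 136, [1, 1])])
  (.use 911) .no .no

def c10t913 : Tr4 :=
  .br 817 .no (.br 1201 (.br 818 .no (.hor [.f 689 1 5] []) (.br 1066 (.br 1065 (.hor [.f 1065 1
  5] []) .no .no (.br 1064 (.br 1193 (.red [.f 1193 1 3, .t 1192 2 3] 150 136 [4, 4, 1] [(150,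
  136, [4, 4, 1]), (166, 136, [4, 4, 1, 1])]) .no .no (.hor [.f 1057 3 1, .f 1064 1 5] [(149, 150,
  [4])]) .no .no) (.red [.t 936 1 3, .f 945 1 5, .f 1073 5 3, .f 1074 3 1] 151 136 [4, 1] [(134,
  118, [1]), (151, 136, [4, 1])]) .no (.hor [.f 1056 3 5] []) .no .no) .no (.red [.f 1064 5 3, .f
  937 3 1, .f 945 1 5, .f 1073 5 3, .f 1074 3 1] 151 136 [4, 1] [(134, 118, [1]), (151, 136, [4,
  1])])) (.red [.f 938 1 3, .f 1066 3 5, .t 1210 4 2] 151 136 [4, 1] [(134, 118, [1]), (151, 136,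
  [4, 1])]) .no (.use 907) .no (.red [.t 945 4 1, .f 1066 3 5, .t 1210 4 2] 151 136 [4, 1] [(134,
  118, [1]), (151, 136, [4, 1])])) (.con 136 [2, 4, 2, 4]) (.con 136 [2, 4, 2, 4]) .no) .no .no
  (.use 910) .no (.red [.f 1072 5 1, .t 1201 2 3, .f 1082 1 3] 151 136 [4, 1] [(151, 136, [4, 1]),
  (152, 136, [1])])) .no (.hor [.f 808 3 5] []) (.use 908) .no

def c10t914 : Tr4 :=
  .br 833 .no (.hor [.f 705 1 5] []) (.con 136 [2, 3, 2]) .no .no .no

def c10t915 : Tr4 :=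
  .br 1074 (.con 136 [4, 4]) (.hor [.f 945 1 5] []) .no (.con 136 [4, 4]) .no .no

def c10t916 : Tr4 :=
  .br 817 .no (.hor [.f 688 1 5] []) .no (.red [.f 809 3 1, .f 817 1 3] 119 136 [2, 4] [(118, 136,
  [2, 4, 4]), (119, 136, [2, 4])]) (.br 696 .no (.br 697 .no (.hor [.f 568 1 5] []) .no (.red [.t
  824 3 1, .t 688 1 3, .f 697 1 3, .f 825 3 1] 103 136 [2, 4, 2] [(103, 136, [2, 4, 2]), (104,
  136, [2, 2])]) (.con 136 [2, 4, 2, 3]) .no) (.hor [.f 696 3 1, .f 704 1 5] [(104, 136, [2, 2])])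
  .no (.red [.t 832 4 2, .f 688 1 3] 103 136 [2, 4, 2] [(103, 136, [2, 4, 2]), (104, 136, [2,
  2])]) .no) .no

def c10t917 : Tr4 :=
  .br 696 .no (.br 697 .no (.hor [.f 568 1 5] []) .no (.red [.t 824 3 1, .t 688 1 3, .f 697 1 3,
  .f 825 3 1] 103 136 [2, 2, 4] [(103, 136, [2, 2, 4]), (104, 136, [2, 2])]) .no .no) (.hor [.f
  696 3 1, .f 704 1 5] [(104, 136, [2, 2])]) .no (.red [.t 832 4 2, .f 688 1 3] 103 136 [2, 2, 4]
  [(103, 136, [2, 2, 4]), (104, 136, [2, 2])]) .no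

def c10t918 : Tr4 :=
  .br 824 .no (.br 1210 (.br 1209 (.hor [.f 1209 1 5] []) .no .no (.use 63) .no (.br 816 .no (.red
  [.f 688 1 3, .f 816 3 1, .f 824 1 5] 119 136 [2, 4] [(103, 136, [2, 4, 2]), (119, 136, [2, 4])])
  .no (.use 909) (.red [.t 952 4 2] 119 136 [2, 4] [(119, 136, [2, 4])]) .no)) .no .no (.br 1074
  .no (.br 945 (.hor [.f 945 1 5] []) (.red [.f 817 1 3] 119 136 [2, 4] [(119, 136, [2, 4])]) .no
  (.br 1073 (.red [.t 1201 2 3, .f 1082 1 5] 151 136 [4, 1] [(151, 136, [4, 1])]) .no .no (.red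
  [.f 937 3 1, .f 945 1 5, .f 1073 5 3, .f 1074 3 1] 151 136 [4, 1] [(134, 118, [1]), (151, 136,
  [4, 1])]) .no (.br 1209 (.use 912) .no .no (.hor [.f 1201 3 5] []) .no (.br 816 .no (.red [.f
  688 1 3, .f 816 3 1, .f 824 1 5] 119 136 [2, 4] [(103, 136, [2, 4, 2]), (119, 136, [2, 4])]) .no
  (.use 913) (.red [.t 952 4 2] 119 136 [2, 4] [(119, 136, [2, 4])]) .no))) .no .no) .no (.hor [.f
  1066 3 5] []) .no (.red [.f 1073 5 3, .f 1074 3 1, .f 1082 1 3] 151 136 [4, 1] [(151, 136, [4,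
  1]), (152, 136, [1])])) .no (.red [.f 1081 5 1, .f 1082 1 3, .f 954 3 1] 136 136 [] [(136, 136,
  []), (152, 136, [1])])) (.br 827 .no (.con 136 [2, 2]) (.br 834 .no (.use 914) (.br 1210 (.br
  1209 (.hor [.f 1209 1 5] []) .no .no (.use 63) .no (.br 833 .no (.br 945 (.use 915) (.red [.t
  824 3 1, .t 944 3 2, .f 824 1 3] 119 136 [2, 4] [(119, 136, [2, 4])]) .no (.br 816 .no (.use
  916) .no (.use 909) (.red [.t 824 3 1, .t 960 2 4, .t 952 4 2] 119 136 [2, 4] [(119, 136, [2,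
  4])]) .no) (.br 826 .no (.br 816 .no (.use 917) .no (.use 909) (.red [.t 824 3 1, .t 960 2 4, .t
  952 4 2] 119 136 [2, 4] [(119, 136, [2, 4])]) .no) .no (.red [.t 825 1 4, .f 944 3 5] 119 136
  [2, 4] [(119, 136, [2, 4])]) .no .no) .no) (.hor [.f 833 3 5] []) .no .no .no)) .no .no (.br
  1074 .no (.br 945 (.use 915) (.red [.t 824 3 1, .t 944 3 2, .f 824 1 3] 119 136 [2, 4] [(119,
  136, [2, 4])]) .no (.br 1073 (.red [.t 1201 2 3, .f 1082 1 5] 151 136 [4, 1] [(151, 136, [4,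
  1])]) .no .no (.red [.f 937 3 1, .f 945 1 5, .f 1073 5 3, .f 1074 3 1] 151 136 [4, 1] [(134,
  118, [1]), (151, 136, [4, 1])]) .no (.br 1209 (.use 912) .no .no (.hor [.f 1201 3 5] []) .no
  (.br 833 .no (.br 816 .no (.use 916) .no (.use 913) (.red [.t 824 3 1, .t 960 2 4, .t 952 4 2]
  119 136 [2, 4] [(119, 136, [2, 4])]) .no) (.hor [.f 833 3 5] []) .no .no .no))) .no .no) .no
  (.hor [.f 1066 3 5] []) .no (.red [.f 1073 5 3, .f 1074 3 1, .f 1082 1 3] 151 136 [4, 1] [(151,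
  136, [4, 1]), (152, 136, [1])])) .no (.red [.f 1081 5 1, .f 1082 1 3, .f 954 3 1] 136 136 []
  [(136, 136, []), (152, 136, [1])])) (.con 136 [2, 2]) .no (.red [.t 953 2 3, .f 953 5 1, .t 1080
  3 2, .f 825 3 1] 136 136 [] [(136, 136, [])])) (.con 136 [2, 2]) .no (.con 136 [2, 2])) (.red
  [.f 816 3 1, .f 824 1 5] 119 136 [2, 4] [(119, 136, [2, 4])]) .no .no

def c10t919 : Tr4 :=
  .br 946 .no (.con 136 [2, 4, 4]) .no (.hor [.f 937 3 5] []) .no .no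

def c10t920 : Tr4 :=
  .br 817 .no (.br 818 .no (.hor [.f 689 1 5] []) (.red [.t 825 1 4, .f 944 3 5] 119 136 [2, 4]
  [(119, 136, [2, 4])]) (.con 136 [2, 4, 2, 4]) (.con 136 [2, 4, 2, 4]) .no) .no (.hor [.f 808 3
  5] []) (.red [.f 817 5 1, .f 817 1 3] 119 136 [2, 4] [(119, 136, [2, 4])]) .no

def c10t921 : Tr4 :=
  .br 816 .no (.red [.f 688 1 3, .f 816 3 1, .f 824 1 5] 119 136 [2, 4] [(103, 136, [2, 4, 2]),
  (119, 136, [2, 4])]) .no (.use 920) (.red [.t 952 4 2] 119 136 [2, 4] [(119, 136, [2, 4])]) .no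

def c10t922 : Tr4 :=
  .br 824 .no (.br 945 (.con 136 [4, 4]) (.red [.f 817 1 3] 119 136 [2, 4] [(119, 136, [2, 4])])
  .no (.use 919) (.use 921) .no) (.br 834 .no (.use 914) (.br 945 (.con 136 [4, 4]) (.red [.t 824
  3 1, .t 944 3 2, .f 824 1 3] 119 136 [2, 4] [(119, 136, [2, 4])]) .no (.use 919) (.br 826 .no
  (.br 827 .no (.con 136 [2, 2]) (.br 833 .no (.br 816 .no (.use 917) .no (.use 920) (.red [.t 824
  3 1, .t 960 2 4, .t 952 4 2] 119 136 [2, 4] [(119, 136, [2, 4])]) .no) (.hor [.f 833 3 5] [])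
  .no .no .no) (.con 136 [2, 2]) .no .no) .no (.red [.t 825 1 4, .f 944 3 5] 119 136 [2, 4] [(119,
  136, [2, 4])]) (.con 136 [2, 2]) .no) .no) (.con 136 [2, 2]) (.con 136 [2, 2]) (.red [.t 953 2
  3, .f 953 5 1, .t 1080 3 2, .f 825 3 1] 136 136 [] [(136, 136, [])])) (.red [.f 816 3 1, .f 824
  1 5] 119 136 [2, 4] [(119, 136, [2, 4])]) .no .no

def c10t923 : Tr4 :=
  .br 1090 (.br 1217 (.use 91) .no (.use 46) (.red [.t 1217 4 2, .f 954 3 1, .f 962 1 5] 136 136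
  [] [(136, 136, []), (152, 136, [1])]) .no (.red [.f 1088 5 1, .f 1080 1 3] 152 136 [1] [(152,
  136, [1])])) .no (.con 136 [3, 1]) .no .no .no

def c10t924 : Tr4 :=
  .br 1091 (.con 136 [3, 1]) .no (.hor [.f 1090 3 5] []) (.con 136 [3, 1]) .no .no

def c10t925 : Tr4 :=
  .br 1083 (.hor [.f 1082 1 5] []) .no .no (.red [.f 947 3 1, .t 954 3 1] 136 136 [] [(135, 136,
  [4]), (136, 136, [])]) .no .no

def c10t926 : Tr4 :=
  .br 1080 (.hor [.f 1080 1 5] []) .no (.br 1083 (.con 136 [4, 1]) (.typ 1) (.con 136 [4, 1])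
  (.hor [.f 1074 3 5] []) .no .no) (.con 136 [1, 4]) .no .no

def c10t927 : Tr4 :=
  .br 947 (.con 136 [4, 2, 4]) (.hor [.f 818 1 5] []) .no (.con 136 [4, 2, 4]) .no .no

def c10t928 : Tr4 :=
  .br 1088 (.br 1073 (.br 1209 (.br 1208 (.hor [.f 1208 1 5] []) .no .no (.red [.t 1200 3 2, .f
  1073 3 5] 151 136 [4, 1] [(151, 136, [4, 1])]) .no .no) .no (.red [.t 1216 2 4, .f 1073 1 3] 152
  136 [1] [(151, 136, [4, 1]), (152, 136, [1])]) .no (.red [.t 1073 1 3, .f 1082 1 3] 152 136 [1]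
  [(151, 136, [4, 1]), (152, 136, [1])]) (.red [.f 1080 5 1, .f 1073 1 3] 151 136 [4, 1] [(151,
  136, [4, 1])])) .no .no (.br 946 .no (.use 927) .no (.hor [.f 937 3 5] []) (.br 1219 (.br 1210
  (.br 1209 (.hor [.f 1209 1 5] []) .no (.red [.t 1216 2 4] 152 136 [1] [(152, 136, [1])]) (.br
  1211 (.hor [.f 1210 1 5] []) .no .no (.con 136 [4, 1, 1]) .no .no) .no (.red [.f 1080 5 1, .f
  1080 1 3] 152 136 [1] [(152, 136, [1])])) .no .no (.red [.f 1074 3 1, .f 1082 1 3] 152 136 [1]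
  [(151, 136, [4, 1]), (152, 136, [1])]) (.red [.t 1082 4 2, .f 1082 5 1, .f 1082 1 3] 152 136 [1]
  [(135, 119, [1]), (152, 136, [1])]) (.br 1211 (.red [.f 1211 1 3] 168 136 [1, 1] [(168, 136, [1,
  1])]) .no .no (.br 1072 (.con 136 [4, 1, 4]) .no .no (.hor [.f 1064 3 5] []) .no .no) .no .no))
  .no (.hor [.f 1091 3 1, .f 1090 1 5] [(153, 137, [1])]) (.red [.t 1082 4 2, .t 1218 2 4, .f 954
  3 1] 136 136 [] [(135, 119, [1]), (136, 136, []), (152, 136, [1])]) .no .no) .no) .no (.red [.f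
  1072 5 3, .f 1073 3 5, .t 961 1 4] 136 136 [] [(136, 136, [])])) (.con 136 [3]) (.br 946 .no
  (.use 927) .no (.hor [.f 937 3 5] []) (.br 1073 (.br 1210 (.br 1209 (.hor [.f 1209 1 5] []) .no
  (.br 1216 (.br 1208 (.br 1211 (.hor [.f 1210 1 5] []) .no (.hor [.f 1208 1 3, .f 1208 3 5]
  [(168, 152, [1])]) (.con 136 [4, 1, 1]) .no .no) .no .no (.red [.t 1200 3 2, .f 1073 3 5] 151
  136 [4, 1] [(151, 136, [4, 1])]) .no .no) .no (.red [.f 1088 3 1, .t 1216 2 4, .f 1073 1 3] 152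
  136 [1] [(151, 136, [4, 1]), (152, 136, [1]), (153, 136, [3, 1])]) (.hor [.f 1208 3 5] []) .no
  .no) .no .no (.red [.f 1080 5 1, .f 1073 1 3] 151 136 [4, 1] [(151, 136, [4, 1])])) .no .no
  (.red [.f 1074 3 1, .f 1073 1 5] 151 136 [4, 1] [(151, 136, [4, 1])]) (.red [.t 1082 4 2, .f
  1082 5 1, .f 1082 1 3] 152 136 [1] [(135, 119, [1]), (152, 136, [1])]) (.red [.t 1073 1 3, .f
  1082 1 3] 152 136 [1] [(151, 136, [4, 1]), (152, 136, [1])])) .no .no (.br 1210 (.br 1211 (.hor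
  [.f 1210 1 5] []) .no (.red [.t 1082 4 2, .t 1218 2 4, .f 954 3 1] 136 136 [] [(135, 119, [1]),
  (136, 136, []), (152, 136, [1])]) (.br 1209 (.hor [.f 1209 1 5] []) .no (.br 1216 (.br 1208
  (.con 136 [4, 1, 1]) .no .no (.br 1072 .no .no .no (.hor [.f 1064 3 5] []) .no .no) .no .no) .no
  (.red [.f 1088 3 1, .t 1216 2 4] 152 136 [1] [(152, 136, [1]), (153, 136, [3, 1])]) (.con 136
  [4, 1, 1]) .no .no) (.con 136 [4, 1, 1]) .no (.con 136 [4, 1, 1])) .no .no) .no .no (.red [.f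
  1074 3 1, .f 1082 1 3] 152 136 [1] [(151, 136, [4, 1]), (152, 136, [1])]) (.red [.t 1082 4 2, .f
  1082 5 1, .f 1082 1 3] 152 136 [1] [(135, 119, [1]), (152, 136, [1])]) (.br 1072 (.br 1201 (.br
  1075 (.br 1202 (.hor [.f 1201 1 5] []) .no .no (.con 136 [4, 4, 1, 1]) .no .no) .no .no (.con
  136 [4, 4, 1]) .no .no) .no .no (.red [.f 937 3 1, .f 937 1 3, .f 1065 3 1] 150 136 [4, 4, 1]
  [(150, 136, [4, 4, 1])]) (.red [.f 1201 5 3, .f 1074 3 1, .f 1082 1 3] 152 136 [1] [(151, 136,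
  [4, 1]), (152, 136, [1])]) .no) .no .no (.hor [.f 1064 3 5] []) .no .no)) .no (.red [.f 1072 5
  3, .f 1073 3 5, .t 961 1 4] 136 136 [] [(136, 136, [])])) .no) .no .no .no

def c10t929 : Tr4 :=
  .br 1091 (.hor [.f 1090 1 5] []) .no (.red [.f 963 3 1, .t 962 4 1] 136 136 [] [(136, 136, []),
  (137, 136, [3])]) .no .no .no

def c10l39 : List Tr4 :=
  [c10t909, c10t910, c10t911, c10t912, c10t913, c10t914, c10t915, c10t916, c10t917, c10t918,
  c10t919, c10t920, c10t921, c10t922, c10t923, c10t924, c10t925, c10t926, c10t927, c10t928,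
  c10t929]

theorem c10k39 : chkLF ⟨4, 0, 0, true, -8⟩ true 0 c10N 909 c10l39 = true := by decide +kernel

def c10t930 : Tr4 :=
  .br 963 (.br 955 (.red [.f 955 1 3, .f 954 3 5] 136 136 [] [(136, 136, [])]) (.con 136 [2, 4])
  .no (.br 1083 (.br 1082 (.hor [.f 1082 1 5] []) .no (.red [.f 954 3 1, .f 962 1 5] 136 136 []
  [(136, 136, [])]) (.br 1081 (.con 136 [4, 1]) .no (.con 136 [4, 1]) (.hor [.f 1073 3 5] []) .no
  (.con 136 [4, 1])) .no (.br 1089 (.use 12) (.red [.t 961 1 4] 136 136 [] [(136, 136, [])]) (.br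
  1090 (.br 961 .no (.br 1080 (.use 902) .no (.use 903) (.con 136 [4, 1]) .no .no) (.red [.f 961 3
  1, .t 961 1 4] 136 136 [] [(136, 136, []), (137, 136, [3])]) .no .no (.br 1080 (.use 905) .no
  (.br 1217 (.br 1075 (.red [.f 1075 1 3] 151 136 [4, 1] [(151, 136, [4, 1])]) .no .no (.use 918)
  .no (.use 922)) .no (.hor [.f 1089 3 1, .f 1089 1 5] [(153, 137, [1])]) (.red [.t 1217 4 2, .f
  954 3 1, .f 962 1 5] 136 136 [] [(136, 136, []), (152, 136, [1])]) .no (.br 1075 (.red [.f 1075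
  1 3] 151 136 [4, 1] [(151, 136, [4, 1])]) .no .no (.br 1210 (.use 88) .no .no (.br 1209 (.br
  1074 .no (.br 945 (.use 915) (.red [.f 817 1 3] 119 136 [2, 4] [(119, 136, [2, 4])]) .no (.br
  1073 (.red [.t 1201 2 3, .f 1082 1 5] 151 136 [4, 1] [(151, 136, [4, 1])]) .no .no (.red [.f 937
  3 1, .f 945 1 5, .f 1073 5 3, .f 1074 3 1] 151 136 [4, 1] [(134, 118, [1]), (151, 136, [4, 1])])
  .no (.br 1208 (.hor [.f 1208 1 5] []) .no .no (.use 911) .no .no)) .no .no) .no (.hor [.f 1066 3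
  5] []) .no (.red [.f 1073 5 3, .f 1074 3 1, .f 1082 1 3] 151 136 [4, 1] [(151, 136, [4, 1]),
  (152, 136, [1])])) .no .no (.hor [.f 1201 3 5] []) .no (.red [.f 1208 5 3, .t 1217 4 2, .f 954 3
  1] 136 136 [] [(136, 136, []), (152, 136, [1])])) .no (.red [.f 1081 5 1, .f 1082 1 3, .f 954 3
  1] 136 136 [] [(136, 136, []), (152, 136, [1])])) .no (.use 922))) (.con 136 [4, 1]) .no .no))
  .no (.hor [.f 1089 3 5] []) .no .no .no) .no (.red [.f 1081 5 3, .f 954 3 1] 136 136 [] [(136,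
  136, [])]) (.br 1080 (.use 923) .no .no (.con 136 [4, 1]) .no .no))) .no .no (.red [.f 947 3 1,
  .f 955 1 3, .f 954 3 5] 136 136 [] [(135, 136, [4]), (136, 136, [])]) .no (.red [.t 962 4 1] 136
  136 [] [(136, 136, [])])) .no .no) (.br 1089 (.con 136 [3]) (.br 1082 (.br 1090 (.red [.f 1082 1
  3, .f 954 3 1] 136 136 [] [(136, 136, []), (152, 136, [1])]) .no (.use 924) .no (.br 955 (.red
  [.t 954 3 1, .f 961 1 5] 136 136 [] [(136, 136, [])]) (.con 136 [2, 4]) .no (.use 925) .no .no)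
  .no) .no (.red [.f 954 3 1, .f 961 1 5] 136 136 [] [(136, 136, [])]) (.br 824 .no (.br 1081
  (.use 926) .no .no (.hor [.f 1073 3 5] []) .no (.br 945 (.red [.t 944 3 1, .f 1073 3 5, .t 961 1
  4] 136 136 [] [(135, 134, [3]), (136, 136, [])]) (.red [.f 817 1 3] 119 136 [2, 4] [(119, 136,
  [2, 4])]) .no (.br 1083 (.con 136 [4, 1]) (.br 1090 (.br 1091 (.use 4) .no (.use 928) .no .no
  .no) .no (.use 924) .no (.red [.t 954 3 1, .f 961 1 5] 136 136 [] [(136, 136, [])]) .no) (.con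
  136 [1]) (.hor [.f 1074 3 5] []) .no .no) (.use 921) .no)) (.con 136 [2, 2]) (.red [.f 816 3 1,
  .f 824 1 5] 119 136 [2, 4] [(119, 136, [2, 4])]) .no .no) (.br 955 .no (.con 136 [2, 4]) .no
  (.br 824 .no (.br 945 (.br 1074 (.con 136 [4, 4]) (.hor [.f 945 1 5] []) .no (.con 136 [4, 4])
  (.con 136 [4, 4]) .no) (.red [.f 817 1 3] 119 136 [2, 4] [(119, 136, [2, 4])]) .no (.br 946
  (.red [.t 946 1 3] 135 136 [4] [(135, 136, [4])]) (.con 136 [2, 4, 4]) .no (.hor [.f 937 3 5]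
  []) .no .no) (.use 921) .no) (.con 136 [2, 2]) (.red [.f 816 3 1, .f 824 1 5] 119 136 [2, 4]
  [(119, 136, [2, 4])]) .no .no) .no .no) (.red [.t 961 1 4] 136 136 [] [(136, 136, [])])) (.con
  136 [3]) (.con 136 [3]) (.con 136 [3]) (.con 136 [3])) (.br 1089 (.con 136 [3]) (.br 1090 (.br
  1082 (.red [.f 1082 1 3, .f 954 3 1] 136 136 [] [(136, 136, []), (152, 136, [1])]) .no .no (.br
  1081 (.use 926) .no .no (.hor [.f 1073 3 5] []) .no (.br 1083 (.con 136 [4, 1]) (.use 488) (.con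
  136 [1]) (.hor [.f 1074 3 5] []) .no .no)) (.use 929) (.red [.t 961 1 4] 136 136 [] [(136, 136,
  [])])) .no (.use 61) (.red [.f 954 3 1, .f 961 1 5] 136 136 [] [(136, 136, [])]) (.br 955 (.red
  [.t 954 3 1, .f 961 1 5] 136 136 [] [(136, 136, [])]) (.con 136 [2, 4]) .no (.br 1082 (.use 925)
  .no .no (.br 1081 (.use 92) .no .no (.hor [.f 1073 3 5] []) .no (.use 93)) (.red [.f 1082 5 3,
  .f 954 3 1] 136 136 [] [(136, 136, [])]) (.red [.t 961 1 4] 136 136 [] [(136, 136, [])])) .no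
  .no) .no) (.con 136 [3]) (.con 136 [3]) (.con 136 [3]) (.con 136 [3])) (.con 136 [2]) .no .no

def c10t931 : Tr4 :=
  .br 960 (.con 136 [3]) (.hor [.f 832 1 5] []) (.con 136 [2, 3]) .no .no .no

def c10t932 : Tr4 :=
  .br 945 .no (.hor [.f 816 1 5] []) .no (.con 136 [4, 2, 4]) (.con 136 [4, 2, 4]) .no

def c10t933 : Tr4 :=
  .br 947 .no (.red [.f 819 1 3] 119 136 [4, 2] [(119, 136, [4, 2])]) .no (.use 932) .no (.br 945
  .no (.hor [.f 816 1 5] []) .no (.con 136 [4, 2, 4]) .no .no)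

def c10t934 : Tr4 :=
  .br 1209 (.br 944 (.red [.t 1072 2 3] 135 136 [4] [(135, 136, [4])]) (.use 933) .no (.br 1072
  (.br 1208 (.hor [.f 1208 1 5] []) .no (.red [.f 1080 3 1, .f 1072 1 3, .f 1072 3 5, .f 952 5 1,
  .t 953 1 3] 136 136 [] [(136, 136, []), (151, 135, [1]), (152, 136, [1])]) .no .no .no) .no .no
  (.red [.f 936 3 1, .t 1072 2 3, .t 953 1 3] 136 136 [] [(134, 136, [4, 4]), (135, 136, [4]),
  (136, 136, [])]) .no .no) (.red [.f 944 5 3, .f 945 3 1, .t 953 1 3] 136 136 [] [(135, 136,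
  [4]), (136, 136, [])]) .no) .no (.red [.t 1209 3 2, .f 954 3 1, .f 962 1 5] 136 136 [] [(136,
  136, []), (152, 136, [1])]) (.hor [.f 1073 3 1, .f 1081 1 5] [(151, 135, [1])]) .no (.br 944
  (.red [.t 1072 2 3] 135 136 [4] [(135, 136, [4])]) (.use 933) .no (.br 1072 (.hor [.t 1072 1 3,
  .f 1081 1 5] [(151, 135, [1])]) .no .no (.red [.f 936 3 1, .t 1072 2 3, .t 953 1 3] 136 136 []
  [(134, 136, [4, 4]), (135, 136, [4]), (136, 136, [])]) .no .no) (.red [.f 944 5 3, .f 945 3 1,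
  .t 953 1 3] 136 136 [] [(135, 136, [4]), (136, 136, [])]) .no)

def c10t935 : Tr4 :=
  .br 1089 (.use 12) (.red [.t 961 1 4] 136 136 [] [(136, 136, [])]) (.br 961 .no (.use 931) (.red
  [.f 961 3 1, .t 961 1 4] 136 136 [] [(136, 136, []), (137, 136, [3])]) .no .no (.br 1088 (.br
  1080 (.use 905) .no .no (.br 1090 (.br 1209 (.use 23) .no (.red [.t 1217 4 2, .f 954 3 1, .f 962
  1 5] 136 136 [] [(136, 136, []), (152, 136, [1])]) (.use 24) (.red [.f 1081 5 1, .f 1082 1 3, .f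
  954 3 1] 136 136 [] [(136, 136, []), (152, 136, [1])]) (.br 1073 (.use 498) (.use 513) .no (.br
  1074 (.con 136 [4, 4, 1]) (.br 947 .no (.red [.f 819 1 3] 119 136 [2, 4] [(119, 136, [2, 4])])
  .no (.br 945 .no (.br 825 .no (.br 824 .no (.hor [.f 696 1 5] []) (.con 136 [2, 2]) (.red [.t
  816 3 1] 119 136 [2, 4] [(119, 136, [2, 4])]) .no .no) (.red [.f 952 5 3, .f 825 3 1, .f 817 1
  3] 119 136 [2, 4] [(119, 136, [2, 4]), (120, 136, [2])]) .no (.red [.f 952 5 3, .f 953 3 5, .f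
  825 5 1, .f 817 1 3] 119 136 [2, 4] [(119, 136, [2, 4])]) (.red [.f 824 5 1, .f 817 1 3, .t 945
  3 1] 119 136 [2, 4] [(119, 136, [2, 4]), (135, 136, [4])])) .no (.br 944 .no (.con 136 [2, 4,
  4]) .no (.hor [.f 936 3 5] []) .no .no) .no (.red [.f 952 5 3, .f 952 3 5, .f 944 5 3, .t 945 3
  1] 135 136 [4] [(135, 136, [4])])) .no .no) .no (.hor [.f 1065 3 5] []) .no .no) (.hor [.f 1073
  5 3, .f 1072 3 5, .f 1074 3 5] []) .no)) .no (.hor [.f 1089 3 5] []) .no .no .no) .no .no) .no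
  (.hor [.f 1088 3 5] []) (.red [.f 952 5 3, .f 952 3 1] 136 136 [] [(136, 136, [])]) .no .no))
  .no (.red [.f 1081 5 3, .f 954 3 1] 136 136 [] [(136, 136, [])]) (.br 961 .no (.use 931) (.br
  1090 (.br 960 .no (.br 1217 (.br 1080 (.br 1096 (.use 51) (.red [.t 968 1 4, .t 961 1 4] 136 136
  [] [(136, 136, []), (137, 136, [3])]) (.br 968 .no (.hor [.f 832 1 3, .f 960 3 5] [(121, 120,
  [3])]) (.use 52) .no .no .no) .no (.red [.f 1088 5 3, .f 961 3 1, .t 961 1 4] 136 136 [] [(136,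
  136, []), (137, 136, [3])]) .no) .no .no (.br 1208 (.use 509) .no (.use 512) (.red [.f 1072 3 1]
  151 136 [4, 1] [(151, 136, [4, 1])]) (.br 968 (.red [.t 968 1 4, .t 961 1 4] 136 136 [] [(136,
  136, []), (137, 136, [3])]) (.hor [.f 832 1 3, .f 960 3 5] [(121, 120, [3])]) (.use 514) .no .no
  .no) .no) .no .no) .no (.use 46) (.red [.t 1217 4 2, .f 954 3 1, .f 962 1 5] 136 136 [] [(136,
  136, []), (152, 136, [1])]) .no (.br 1080 (.red [.f 1088 5 1, .f 1080 1 3] 152 136 [1] [(152,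
  136, [1])]) .no .no (.use 503) .no .no)) (.hor [.f 960 3 5] []) .no .no .no) .no (.con 136 [3,
  1]) .no .no .no) .no .no (.red [.f 952 5 3, .f 952 3 5, .f 960 5 1, .t 961 1 4] 136 136 []
  [(136, 136, [])]))

def c10t936 : Tr4 :=
  .br 1083 (.br 1082 (.hor [.f 1082 1 5] []) .no (.red [.f 954 3 1, .f 962 1 5] 136 136 [] [(136,
  136, [])]) (.br 1081 (.con 136 [4, 1]) .no (.con 136 [4, 1]) (.hor [.f 1073 3 5] []) .no (.con
  136 [4, 1])) .no (.br 1089 (.use 12) (.red [.t 961 1 4] 136 136 [] [(136, 136, [])]) (.br 961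
  .no (.use 931) (.red [.f 961 3 1, .t 961 1 4] 136 136 [] [(136, 136, []), (137, 136, [3])]) .no
  .no (.br 1080 (.use 905) .no (.red [.f 952 5 3, .f 952 3 1] 136 136 [] [(136, 136, [])]) (.con
  136 [4, 1]) .no .no)) .no (.red [.f 1081 5 3, .f 954 3 1] 136 136 [] [(136, 136, [])]) (.br 1080
  (.use 923) .no .no (.con 136 [4, 1]) .no .no))) (.red [.f 955 1 3, .f 954 3 5] 136 136 [] [(136,
  136, [])]) .no (.br 1082 (.br 955 .no (.br 1081 (.hor [.f 1081 1 5] []) .no (.use 18) (.br 1090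
  (.red [.f 1082 1 3, .f 954 3 1] 136 136 [] [(136, 136, []), (152, 136, [1])]) .no (.br 1089
  (.con 136 [3, 1]) (.br 1080 (.br 1088 (.red [.f 1080 1 3, .t 1088 4 2] 136 136 [] [(136, 136,
  []), (152, 136, [1])]) (.con 136 [3, 1]) (.con 136 [3, 1]) .no .no .no) .no (.red [.t 1088 4 2,
  .f 953 3 5] 136 136 [] [(136, 136, [])]) (.hor [.f 1072 3 5] []) .no .no) (.hor [.f 1089 3 5]
  []) .no .no (.con 136 [3, 1])) .no .no (.br 961 .no (.use 931) (.br 960 (.con 136 [3]) (.br 1080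
  (.br 1088 (.red [.f 1080 1 3] 152 136 [1] [(152, 136, [1])]) .no (.con 136 [3, 1]) .no .no .no)
  .no (.use 934) (.hor [.f 1072 3 5] []) .no .no) (.hor [.f 960 3 5] []) .no .no .no) .no .no (.br
  1080 (.br 1088 (.red [.f 1080 1 3, .f 952 5 3, .f 952 3 1] 136 136 [] [(136, 136, []), (152,
  136, [1])]) .no (.con 136 [3, 1]) .no .no .no) .no (.use 934) (.hor [.f 1072 3 5] []) .no .no)))
  .no (.br 1090 (.use 527) .no (.br 1089 (.con 136 [3, 1]) (.red [.f 952 5 1, .f 953 1 3] 136 136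
  [] [(136, 136, [])]) (.use 528) .no .no (.con 136 [3, 1])) .no .no (.red [.f 952 5 1, .t 953 1
  3] 136 136 [] [(136, 136, [])]))) .no (.red [.f 947 3 1, .f 955 1 3, .f 954 3 5] 136 136 []
  [(135, 136, [4]), (136, 136, [])]) .no .no) .no (.red [.f 954 3 1, .f 962 1 5] 136 136 [] [(136,
  136, [])]) (.hor [.f 1074 3 5] []) .no (.br 955 .no (.use 935) .no (.red [.f 947 3 1, .f 955 1
  3, .f 954 3 5] 136 136 [] [(135, 136, [4]), (136, 136, [])]) .no .no)) .no (.red [.t 962 4 1]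
  136 136 [] [(136, 136, [])])

def c10t937 : Tr4 :=
  .br 1080 (.hor [.f 1080 1 5] []) .no (.red [.t 1088 4 2, .f 953 3 5] 136 136 [] [(136, 136,
  [])]) (.use 57) .no .no

def c10t938 : Tr4 :=
  .br 1219 (.red [.f 1211 1 3, .t 1218 2 4] 152 136 [1] [(152, 136, [1]), (168, 136, [1, 1])]) .no
  (.br 1216 (.con 136 [1, 3, 1]) .no (.red [.f 1088 3 1, .f 1080 1 3] 152 136 [1] [(152, 136,
  [1]), (153, 136, [1, 3])]) .no (.con 136 [1, 3, 1]) .no) .no .no .no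

def c10l40 : List Tr4 :=
  [c10t930, c10t931, c10t932, c10t933, c10t934, c10t935, c10t936, c10t937, c10t938]

theorem c10k40 : chkLF ⟨4, 0, 0, true, -8⟩ true 0 c10N 930 c10l40 = true := by decide +kernel

def c10t939 : Tr4 :=
  .br 963 (.use 936) (.br 1089 (.con 136 [3]) (.br 1081 (.use 937) .no .no (.br 1080 (.br 1088
  (.red [.f 1080 1 3, .t 1088 4 2] 136 136 [] [(136, 136, []), (152, 136, [1])]) (.con 136 [3])
  (.br 1090 (.br 1082 (.red [.f 1082 1 3, .f 954 3 1] 136 136 [] [(136, 136, []), (152, 136,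
  [1])]) .no .no (.hor [.f 1073 3 5] []) (.br 1072 (.red [.f 1072 1 3, .f 1072 3 5, .f 952 5 1, .f
  953 1 3] 136 136 [] [(136, 136, []), (151, 135, [1])]) (.red [.t 1072 2 3, .f 953 1 3] 136 136
  [] [(135, 136, [4]), (136, 136, [])]) .no (.br 944 .no (.br 1091 (.con 136 [3, 1]) .no (.br 955
  .no (.br 947 (.br 946 (.hor [.f 946 1 5] []) (.con 136 [4, 4]) .no (.con 136 [4, 4]) .no (.con
  136 [4, 4])) (.red [.f 819 1 3] 119 136 [2, 4] [(119, 136, [2, 4])]) .no (.use 932) .no (.br 945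
  .no (.hor [.f 816 1 5] []) .no (.con 136 [2, 4, 4]) .no .no)) .no (.br 1074 (.br 1211 (.use 938)
  .no (.red [.t 1218 2 4, .f 954 3 1, .f 961 1 5] 136 136 [] [(136, 136, []), (152, 136, [1])])
  (.red [.t 1202 2 3, .f 1073 3 5, .t 961 1 4] 136 136 [] [(136, 136, []), (151, 135, [1])]) .no
  (.red [.f 1082 5 1, .f 1082 1 3] 152 136 [1] [(152, 136, [1])])) (.red [.t 946 1 3, .f 1073 3 5]
  135 136 [4] [(135, 136, [4])]) .no (.br 1211 (.use 938) .no (.red [.t 1218 2 4, .f 954 3 1, .f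
  961 1 5] 136 136 [] [(136, 136, []), (152, 136, [1])]) (.use 104) .no (.red [.f 1082 5 1, .f
  1082 1 3] 152 136 [1] [(152, 136, [1])])) (.red [.f 1074 5 3, .f 947 3 1] 135 136 [4] [(135,
  136, [4])]) .no) .no .no) .no .no .no) .no (.red [.f 936 3 1, .t 1072 2 3, .f 953 1 3] 136 136
  [] [(134, 136, [4, 4]), (135, 136, [4]), (136, 136, [])]) (.red [.f 944 5 3, .f 945 3 1, .f 953
  1 3] 136 136 [] [(135, 136, [4]), (136, 136, [])]) .no) .no .no) .no) .no (.con 136 [3, 1])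
  (.red [.f 954 3 1, .f 961 1 5] 136 136 [] [(136, 136, [])]) (.con 136 [3, 1]) .no) .no .no .no)
  .no (.red [.t 1088 4 2, .f 953 3 5] 136 136 [] [(136, 136, [])]) (.hor [.f 1072 3 5] []) .no
  .no) (.red [.t 961 1 4] 136 136 [] [(136, 136, [])]) (.red [.f 952 5 1, .f 953 1 3] 136 136 []
  [(136, 136, [])])) (.con 136 [3]) (.con 136 [3]) (.con 136 [3]) (.con 136 [3])) (.br 1089 (.con
  136 [3]) (.br 1081 (.use 937) .no .no (.br 1080 (.br 1088 (.red [.f 1080 1 3, .t 1088 4 2] 136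
  136 [] [(136, 136, []), (152, 136, [1])]) (.con 136 [3]) (.br 1090 (.br 1082 (.red [.f 1082 1 3,
  .f 954 3 1] 136 136 [] [(136, 136, []), (152, 136, [1])]) .no .no (.hor [.f 1073 3 5] []) (.use
  929) .no) .no (.con 136 [3, 1]) (.red [.f 954 3 1, .f 961 1 5] 136 136 [] [(136, 136, [])])
  (.con 136 [3, 1]) .no) .no .no .no) .no (.red [.t 1088 4 2, .f 953 3 5] 136 136 [] [(136, 136,
  [])]) (.hor [.f 1072 3 5] []) .no .no) (.red [.t 961 1 4] 136 136 [] [(136, 136, [])]) (.red [.f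
  952 5 1, .f 953 1 3] 136 136 [] [(136, 136, [])])) (.con 136 [3]) (.con 136 [3]) (.con 136 [3])
  (.con 136 [3])) (.con 136 [2]) .no .no

def c10t940 : Tr4 :=
  .br 952 (.br 954 (.con 136 [2]) (.con 136 [2]) (.br 953 (.hor [.f 952 1 5] []) (.br 1083 (.con
  136 [4]) (.br 1091 (.use 0) (.red [.f 955 1 3, .f 954 3 5] 136 136 [] [(136, 136, [])]) (.br
  1090 (.br 963 .no (.br 961 (.br 1082 (.red [.f 1082 1 3, .f 954 3 1] 136 136 [] [(136, 136, []),
  (152, 136, [1])]) .no .no (.br 1081 (.con 136 [4, 1]) .no .no (.hor [.f 1073 3 5] []) .no .no)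
  .no (.red [.t 961 1 4, .f 954 1 5] 136 136 [] [(136, 136, [])])) (.con 136 [3]) (.con 136 [3])
  .no .no (.con 136 [3])) (.red [.f 963 3 1, .f 955 1 3, .f 954 3 5] 136 136 [] [(136, 136, []),
  (137, 136, [3])]) .no .no .no) .no (.hor [.f 1090 3 5] []) (.red [.f 954 3 1, .f 954 1 5] 136
  136 [] [(136, 136, [])]) .no (.con 136 [3])) .no .no (.red [.t 954 3 1] 136 136 [] [(136, 136,
  [])])) (.con 136 [4]) (.con 136 [4]) .no (.con 136 [4])) (.con 136 [2]) (.br 955 (.br 1091 (.use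
  0) (.red [.f 955 1 3, .f 954 3 5] 136 136 [] [(136, 136, [])]) (.br 1090 (.br 1089 (.con 136
  [3]) (.br 1081 (.br 1082 (.red [.f 1082 1 3, .f 954 3 1] 136 136 [] [(136, 136, []), (152, 136,
  [1])]) .no .no (.con 136 [4, 1]) .no .no) .no .no (.red [.f 945 3 1, .f 952 1 5] 135 136 [4]
  [(135, 136, [4])]) (.red [.t 961 1 4, .f 954 1 5] 136 136 [] [(136, 136, [])]) .no) (.con 136
  [3]) (.con 136 [3]) .no (.con 136 [3])) .no (.hor [.f 1090 3 5] []) (.red [.f 954 3 1, .f 954 1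
  5] 136 136 [] [(136, 136, [])]) .no (.con 136 [3])) .no .no (.red [.t 954 3 1] 136 136 [] [(136,
  136, [])])) (.con 136 [4]) (.con 136 [2]) (.con 136 [4]) .no .no) .no .no) (.con 136 [2]) (.con
  136 [2]) (.con 136 [2])) (.br 954 (.con 136 [2]) (.con 136 [2]) (.br 953 (.br 1090 (.br 1089
  (.hor [.f 1089 1 5] []) (.red [.f 953 1 3, .f 953 3 5] 136 136 [] [(136, 136, [])]) (.br 1091
  (.con 136 [3]) (.br 1082 (.red [.f 1082 1 3, .f 954 3 1] 136 136 [] [(136, 136, []), (152, 136,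
  [1])]) .no .no (.br 1083 (.br 961 .no (.use 1) (.red [.f 961 3 1, .f 953 1 3] 136 136 [] [(136,
  136, []), (137, 136, [3])]) .no .no (.br 1088 (.br 1080 (.red [.f 1080 1 3, .t 1080 3 2] 136 136
  [] [(136, 136, []), (152, 136, [1])]) .no .no (.con 136 [4, 1]) .no .no) .no (.hor [.f 1088 3 5]
  []) (.red [.t 1080 3 2, .f 953 3 5] 136 136 [] [(136, 136, [])]) .no .no)) (.red [.f 955 1 3, .f
  954 3 5] 136 136 [] [(136, 136, [])]) .no (.hor [.f 1074 3 5] []) .no .no) (.red [.t 962 4 1, .f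
  953 1 5] 136 136 [] [(136, 136, [])]) .no) (.con 136 [3]) (.con 136 [3]) .no .no) .no .no (.br
  960 .no (.red [.f 824 1 3, .t 952 3 1] 136 136 [] [(120, 136, [2]), (136, 136, [])]) (.br 961
  .no (.con 136 [2, 3]) (.hor [.f 960 3 5] []) .no .no .no) .no (.red [.f 960 5 1, .f 953 1 3] 136
  136 [] [(136, 136, [])]) .no)) .no (.use 2) (.red [.f 954 3 1, .f 953 1 5] 136 136 [] [(136,
  136, [])]) (.use 3) (.red [.t 953 1 3] 136 136 [] [(136, 136, [])])) (.hor [.f 824 1 5] [])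
  (.con 136 [2]) (.use 94) .no .no) (.con 136 [2]) (.con 136 [2]) (.con 136 [2])) (.br 1080 (.br
  1088 (.red [.f 1080 1 3, .f 952 3 1] 136 136 [] [(136, 136, []), (152, 136, [1])]) .no (.use
  224) .no (.br 963 (.br 1081 (.hor [.f 1080 1 5] []) (.red [.t 952 3 1] 136 136 [] [(136, 136,
  [])]) .no (.br 1090 (.use 227) (.con 136 [3]) (.con 136 [3, 1]) (.br 954 .no (.use 225) (.red
  [.f 954 3 1, .f 962 1 5] 136 136 [] [(136, 136, [])]) (.br 955 (.red [.f 955 1 3] 136 136 []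
  [(136, 136, [])]) (.br 953 .no (.con 136 [2, 4]) (.con 136 [2]) (.hor [.f 945 3 5] []) .no .no)
  .no (.hor [.f 946 3 5] []) .no .no) (.red [.t 1090 4 2] 136 136 [] [(136, 136, [])]) (.br 961
  .no (.use 228) (.br 962 .no (.use 264) (.hor [.f 961 3 5] []) .no .no .no) .no (.red [.f 953 5
  3, .f 954 3 1] 136 136 [] [(136, 136, [])]) .no)) .no .no) (.br 1090 (.br 1217 (.br 1209 (.red
  [.f 1209 1 3, .t 1208 2 3] 152 136 [1] [(152, 136, [1]), (168, 136, [1, 1])]) .no .no (.br 1083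
  (.use 90) (.red [.f 955 1 3] 136 136 [] [(136, 136, [])]) .no (.use 316) .no .no) (.red [.f 1081
  5 1, .f 1082 1 3] 152 136 [1] [(152, 136, [1])]) .no) .no (.use 46) (.red [.t 1208 2 3, .f 952 3
  1] 136 136 [] [(136, 136, []), (152, 136, [1])]) .no (.red [.f 1088 5 1, .f 1080 1 3, .f 952 3
  1] 136 136 [] [(136, 136, []), (152, 136, [1])])) (.con 136 [3]) (.con 136 [3, 1]) .no .no .no)
  .no) (.con 136 [3]) (.con 136 [3]) (.con 136 [3]) .no (.con 136 [3])) .no) .no (.red [.f 952 3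
  1] 136 136 [] [(136, 136, [])]) (.use 525) (.br 1088 (.use 901) .no (.br 1089 (.use 487) (.red
  [.t 960 4 1] 136 136 [] [(136, 136, [])]) (.hor [.f 1088 3 5] []) .no (.con 136 [1, 3]) .no) .no
  (.red [.f 1080 5 3, .f 952 3 1] 136 136 [] [(136, 136, [])]) .no) .no) (.br 954 (.con 136 [2])
  (.con 136 [2]) (.br 953 (.use 904) (.use 930) (.con 136 [2]) (.hor [.f 944 3 5] []) .no .no)
  (.con 136 [2]) (.con 136 [2]) (.con 136 [2])) (.br 954 (.con 136 [2]) (.con 136 [2]) (.use 939)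
  (.con 136 [2]) (.con 136 [2]) .no) .no

def c10l41 : List Tr4 :=
  [c10t939, c10t940]

theorem c10k41 : chkLF ⟨4, 0, 0, true, -8⟩ true 0 c10N 939 c10l41 = true := by decide +kernel

end Pool.Agent.FT4D
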