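import Pool.Agent.FT4D.ChainF4
import Pool.Agent.FT4D.Tr_c10_0
import Pool.Agent.FT4D.Tr_c10_1
import Pool.Agent.FT4D.Tr_c10_2
import Pool.Agent.FT4D.Tr_c10_3
import Pool.Agent.FT4D.Tr_c10_4
import Pool.Agent.FT4D.Tr_c10_5

/-!
# Four levels: the chunks of the trees `c10` together
-/

namespace Pool.Agent.FT4D

theorem c10H : Holds ⟨4, 0, 0, true, -8⟩ true 0 [] := by
  have h0 := chStart ⟨4, 0, 0, true, -8⟩ true 0 c10N
  have h1 := chStepF c10l0 41 h0 c10k0 (by decide +kernel) (by decide +kernel)
  have h2 := chStepF c10l1 62 h1 c10k1 (by decide +kernel) (by decide +kernel)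
  have h3 := chStepF c10l2 86 h2 c10k2 (by decide +kernel) (by decide +kernel)
  have h4 := chStepF c10l3 105 h3 c10k3 (by decide +kernel) (by decide +kernel)
  have h5 := chStepF c10l4 150 h4 c10k4 (by decide +kernel) (by decide +kernel)
  have h6 := chStepF c10l5 169 h5 c10k5 (by decide +kernel) (by decide +kernel)
  have h7 := chStepF c10l6 198 h6 c10k6 (by decide +kernel) (by decide +kernel)
  have h8 := chStepF c10l7 217 h7 c10k7 (by decide +kernel) (by decide +kernel)
  have h9 := chStepF c10l8 227 h8 c10k8 (by decide +kernel) (by decide +kernel)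
  have h10 := chStepF c10l9 259 h9 c10k9 (by decide +kernel) (by decide +kernel)
  have h11 := chStepF c10l10 280 h10 c10k10 (by decide +kernel) (by decide +kernel)
  have h12 := chStepF c10l11 304 h11 c10k11 (by decide +kernel) (by decide +kernel)
  have h13 := chStepF c10l12 315 h12 c10k12 (by decide +kernel) (by decide +kernel)
  have h14 := chStepF c10l13 345 h13 c10k13 (by decide +kernel) (by decide +kernel)
  have h15 := chStepF c10l14 369 h14 c10k14 (by decide +kernel) (by decide +kernel)
  have h16 := chStepF c10l15 394 h15 c10k15 (by decide +kernel) (by decide +kernel)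
  have h17 := chStepF c10l16 433 h16 c10k16 (by decide +kernel) (by decide +kernel)
  have h18 := chStepF c10l17 464 h17 c10k17 (by decide +kernel) (by decide +kernel)
  have h19 := chStepF c10l18 484 h18 c10k18 (by decide +kernel) (by decide +kernel)
  have h20 := chStepF c10l19 501 h19 c10k19 (by decide +kernel) (by decide +kernel)
  have h21 := chStepF c10l20 518 h20 c10k20 (by decide +kernel) (by decide +kernel)
  have h22 := chStepF c10l21 530 h21 c10k21 (by decide +kernel) (by decide +kernel)
  have h23 := chStepF c10l22 565 h22 c10k22 (by decide +kernel) (by decide +kernel)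
  have h24 := chStepF c10l23 590 h23 c10k23 (by decide +kernel) (by decide +kernel)
  have h25 := chStepF c10l24 612 h24 c10k24 (by decide +kernel) (by decide +kernel)
  have h26 := chStepF c10l25 652 h25 c10k25 (by decide +kernel) (by decide +kernel)
  have h27 := chStepF c10l26 675 h26 c10k26 (by decide +kernel) (by decide +kernel)
  have h28 := chStepF c10l27 704 h27 c10k27 (by decide +kernel) (by decide +kernel)
  have h29 := chStepF c10l28 728 h28 c10k28 (by decide +kernel) (by decide +kernel)
  have h30 := chStepF c10l29 755 h29 c10k29 (by decide +kernel) (by decide +kernel)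
  have h31 := chStepF c10l30 766 h30 c10k30 (by decide +kernel) (by decide +kernel)
  have h32 := chStepF c10l31 791 h31 c10k31 (by decide +kernel) (by decide +kernel)
  have h33 := chStepF c10l32 819 h32 c10k32 (by decide +kernel) (by decide +kernel)
  have h34 := chStepF c10l33 835 h33 c10k33 (by decide +kernel) (by decide +kernel)
  have h35 := chStepF c10l34 857 h34 c10k34 (by decide +kernel) (by decide +kernel)
  have h36 := chStepF c10l35 872 h35 c10k35 (by decide +kernel) (by decide +kernel)
  have h37 := chStepF c10l36 888 h36 c10k36 (by decide +kernel) (by decide +kernel)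
  have h38 := chStepF c10l37 899 h37 c10k37 (by decide +kernel) (by decide +kernel)
  have h39 := chStepF c10l38 909 h38 c10k38 (by decide +kernel) (by decide +kernel)
  have h40 := chStepF c10l39 930 h39 c10k39 (by decide +kernel) (by decide +kernel)
  have h41 := chStepF c10l40 939 h40 c10k40 (by decide +kernel) (by decide +kernel)
  have h42 := chStepF c10l41 941 h41 c10k41 (by decide +kernel) (by decide +kernel)
  exact chEnd h42 940 (by decide +kernel) (by decide +kernel)

end Pool.Agent.FT4D
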