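import Pool.Agent.FT4D.Tab_c11

/-!
# Four levels: decision trees (found by a computer search)
-/

namespace Pool.Agent.FT4D

def c11t0 : Tr4 :=
  .br 1088 (.con 136 [3, 1]) .no (.hor [.f 1088 3 5] []) .no .no .no

def c11t1 : Tr4 :=
  .br 1210 (.hor [.f 1209 1 5] []) .no (.br 1091 (.red [.t 1218 4 2] 152 136 [1] [(152, 136,
  [1])]) .no (.br 1219 (.br 1211 (.br 1216 (.br 1208 (.hor [.f 1208 1 5] []) .no .no (.con 136 [4,
  1, 1]) .no .no) .no (.con 136 [3, 1, 1]) (.hor [.f 1211 1 3, .f 1210 3 5] [(168, 152, [1])]) .no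
  .no) .no .no (.red [.t 1202 2 3, .f 1073 3 5] 151 136 [4, 1] [(151, 136, [4, 1])]) .no .no) .no
  (.red [.f 1091 3 1, .t 1218 4 2] 152 136 [1] [(152, 136, [1]), (153, 136, [3, 1])]) (.hor [.f
  1210 3 5] []) .no .no) .no .no .no) .no (.red [.f 1082 5 1, .f 1074 1 3] 151 136 [4, 1] [(151,
  136, [4, 1])]) .no

def c11t2 : Tr4 :=
  .br 1072 (.red [.t 1072 1 3, .f 1081 1 3] 152 136 [1] [(151, 136, [4, 1]), (152, 136, [1])])
  (.red [.f 944 1 3, .f 1072 3 5, .f 1080 5 1, .f 1081 1 3] 152 136 [1] [(135, 119, [1]), (152,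
  136, [1])]) .no (.br 945 .no (.br 944 .no (.hor [.f 816 1 5] []) .no (.con 136 [2, 4, 4]) .no
  .no) .no (.hor [.f 937 3 5] []) .no (.red [.t 1080 2 4, .f 1080 5 1, .f 1081 1 3] 152 136 [1]
  [(135, 119, [1]), (152, 136, [1])])) .no .no

def c11t3 : Tr4 :=
  .br 1209 (.use 1) .no .no (.red [.f 1073 3 1, .f 1073 1 5] 151 136 [4, 1] [(151, 136, [4, 1])])
  (.red [.t 1073 3 1, .f 1081 1 3] 152 136 [1] [(151, 136, [4, 1]), (152, 136, [1])]) (.use 2)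

def c11t4 : Tr4 :=
  .br 945 .no (.br 944 (.con 136 [2, 4, 4]) (.hor [.f 816 1 5] []) .no (.con 136 [2, 4, 4]) .no
  .no) .no (.hor [.f 937 3 5] []) .no (.red [.t 1080 2 4, .t 1216 4 2, .f 953 3 1] 136 136 []
  [(135, 119, [1]), (136, 136, []), (152, 136, [1])])

def c11t5 : Tr4 :=
  .br 1075 .no .no .no (.hor [.f 1066 3 5] []) .no .no

def c11t6 : Tr4 :=
  .br 1210 (.hor [.f 1209 1 5] []) .no (.br 1219 (.br 1211 (.con 136 [1, 4, 1]) .no .no (.use 5)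
  .no .no) .no (.red [.f 1091 3 1, .t 1218 4 2] 152 136 [1] [(152, 136, [1]), (153, 136, [1, 3])])
  (.con 136 [1, 4, 1]) .no .no) (.con 136 [1, 4, 1]) (.con 136 [1, 4, 1]) .no

def c11t7 : Tr4 :=
  .br 1091 (.br 1210 (.hor [.f 1209 1 5] []) .no (.red [.t 1218 4 2] 152 136 [1] [(152, 136,
  [1])]) (.br 1208 (.hor [.f 1208 1 5] []) .no (.use 4) (.con 136 [4, 1, 1]) .no .no) (.red [.f
  1082 5 1, .f 1083 1 3] 152 136 [1] [(152, 136, [1])]) .no) .no (.br 1208 (.hor [.f 1208 1 5] [])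
  .no (.use 4) (.use 6) .no .no) .no .no .no

def c11t8 : Tr4 :=
  .br 1202 (.br 1075 (.con 136 [1, 4, 4]) .no .no (.hor [.f 1066 3 5] []) .no .no) .no .no (.red
  [.f 1066 3 1, .t 1073 3 1] 151 136 [1, 4] [(150, 136, [1, 4, 4]), (151, 136, [1, 4])]) (.con 136
  [1, 4, 1]) (.red [.f 1201 5 3, .f 1073 3 1, .f 1081 1 3] 152 136 [1] [(151, 136, [1, 4]), (152,
  136, [1])])

def c11t9 : Tr4 :=
  .br 1208 (.red [.f 1208 1 3] 168 136 [1, 1] [(168, 136, [1, 1])]) .no .no (.use 8) .no .no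

def c11t10 : Tr4 :=
  .br 1216 (.use 9) .no (.hor [.f 1088 3 1, .f 1088 1 5] [(153, 137, [1])]) (.use 4) .no .no

def c11t11 : Tr4 :=
  .br 1219 (.con 136 [3, 1, 1]) .no (.br 1098 (.hor [.f 1091 3 1, .f 1098 1 5] [(153, 136, [3,
  1])]) .no (.br 1097 (.con 136 [3, 3, 1]) .no (.hor [.f 1097 3 5] []) .no .no .no) .no .no (.hor
  [.f 1088 3 1, .f 969 5 1, .f 1088 1 5, .f 1091 3 1, .f 969 1 5] [])) (.con 136 [3, 1, 1]) .no
  (.con 136 [3, 1, 1])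

def c11t12 : Tr4 :=
  .br 1219 (.con 136 [3, 1, 1]) .no (.br 1098 (.hor [.f 1091 3 1, .f 1098 1 5] [(153, 136, [3,
  1])]) (.con 136 [3, 3]) (.br 1097 (.con 136 [3, 3, 1]) .no (.hor [.f 1097 3 5] []) .no .no .no)
  .no .no (.red [.f 1088 3 1, .f 1088 1 5, .t 952 1 3, .f 961 1 5, .f 1089 5 3, .t 1096 1 4] 136
  136 [] [(136, 136, [])])) (.con 136 [3, 1, 1]) .no (.con 136 [3, 1, 1])

def c11t13 : Tr4 :=
  .br 1216 (.red [.f 1208 1 3] 168 136 [1, 1] [(168, 136, [1, 1])]) .no (.use 12) .no .no .no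

def c11t14 : Tr4 :=
  .br 1209 (.use 1) .no .no (.red [.f 1073 3 1, .f 1073 1 5] 151 136 [4, 1] [(151, 136, [4, 1])])
  (.red [.t 1073 3 1, .f 1081 1 3] 152 136 [1] [(151, 136, [4, 1]), (152, 136, [1])]) (.br 1210
  (.br 1211 (.hor [.f 1210 1 5] []) .no .no (.red [.t 1202 2 3, .f 1073 3 5] 151 136 [4, 1] [(151,
  136, [4, 1])]) .no .no) .no (.red [.t 1218 4 2] 152 136 [1] [(152, 136, [1])]) .no (.red [.f
  1082 5 1, .f 1083 1 3] 152 136 [1] [(152, 136, [1])]) .no)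

def c11t15 : Tr4 :=
  .br 1209 (.con 136 [1, 4, 1]) .no .no (.hor [.f 1201 3 5] []) .no (.con 136 [1, 4, 1])

def c11t16 : Tr4 :=
  .br 818 .no (.con 136 [4, 2, 2, 4]) .no (.hor [.f 809 3 5] []) .no .no

def c11t17 : Tr4 :=
  .br 818 .no (.hor [.f 689 1 5] []) .no (.hor [.f 810 3 5] []) .no .no

def c11t18 : Tr4 :=
  .br 817 .no (.use 17) .no (.use 16) (.red [.f 817 5 1, .f 818 1 3] 119 136 [2, 4] [(119, 136,
  [2, 4])]) .no

def c11t19 : Tr4 :=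
  .br 816 .no (.con 136 [2, 4, 2, 4]) .no (.hor [.f 808 3 5] []) .no .no

def c11t20 : Tr4 :=
  .br 817 .no (.use 17) .no (.use 19) (.red [.f 817 5 1, .f 818 1 3] 119 136 [2, 4] [(119, 136,
  [2, 4])]) (.red [.f 816 5 3, .t 825 4 1] 119 136 [2, 4] [(119, 136, [2, 4])])

def c11t21 : Tr4 :=
  .br 819 .no (.red [.f 691 1 3] 103 136 [2, 2, 4] [(103, 136, [2, 2, 4])]) .no (.br 944 (.red [.f
  944 1 3, .f 1072 3 5, .t 1216 4 2, .f 953 3 1] 136 136 [] [(135, 119, [1]), (136, 136, []),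
  (152, 136, [1])]) (.use 18) .no (.use 20) .no .no) .no (.red [.t 960 2 4, .t 824 3 1, .t 954 2
  4] 119 136 [2, 4] [(119, 136, [2, 4])])

def c11t22 : Tr4 :=
  .br 825 .no (.br 1074 (.use 14) .no .no (.br 1211 (.br 1210 (.hor [.f 1210 1 5] []) .no (.red
  [.t 1218 4 2] 152 136 [1] [(152, 136, [1])]) (.use 15) .no (.br 1216 (.use 9) .no (.hor [.f 1088
  3 1, .f 1088 1 5] [(153, 137, [1])]) (.br 819 .no (.red [.f 691 1 3] 103 136 [2, 2, 4] [(103,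
  136, [2, 2, 4])]) .no (.br 944 (.red [.f 944 1 3, .f 1072 3 5, .t 1216 4 2, .f 953 3 1] 136 136
  [] [(135, 119, [1]), (136, 136, []), (152, 136, [1])]) (.br 817 .no (.red [.f 689 1 3] 103 136
  [2, 2, 4] [(103, 136, [2, 2, 4])]) .no (.use 16) (.red [.f 817 5 1, .f 818 1 3] 119 136 [2, 4]
  [(119, 136, [2, 4])]) .no) .no (.br 818 .no (.br 817 .no (.hor [.f 689 1 5] []) .no (.con 136
  [2, 2, 4, 4]) .no (.con 136 [2, 2, 4, 4])) .no (.hor [.f 810 3 5] []) .no (.red [.f 817 5 1, .f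
  818 1 3] 119 136 [2, 4] [(119, 136, [2, 4])])) .no .no) .no (.red [.t 954 2 4] 119 136 [2, 4]
  [(119, 136, [2, 4])])) .no .no)) .no .no (.use 5) .no (.red [.f 1082 5 1, .f 1083 1 3] 152 136
  [1] [(152, 136, [1])])) (.red [.f 1074 5 3, .f 1073 3 5, .t 961 4 1] 136 136 [] [(136, 136,
  [])]) .no) .no (.red [.t 825 4 1] 119 136 [2, 4] [(119, 136, [2, 4])]) .no (.br 1074 (.use 14)
  .no .no (.br 1211 (.br 1210 (.hor [.f 1210 1 5] []) .no (.red [.t 1218 4 2] 152 136 [1] [(152,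
  136, [1])]) (.use 15) .no (.br 1216 (.use 9) .no (.hor [.f 1088 3 1, .f 1088 1 5] [(153, 137,
  [1])]) (.use 21) .no .no)) .no .no (.use 5) .no (.red [.f 1082 5 1, .f 1083 1 3] 152 136 [1]
  [(152, 136, [1])])) (.red [.f 1074 5 3, .f 1073 3 5, .t 961 4 1] 136 136 [] [(136, 136, [])])
  .no)

def c11t23 : Tr4 :=
  .br 824 .no (.hor [.f 696 1 5] []) .no (.con 136 [2, 2, 4]) .no .no

def c11t24 : Tr4 :=
  .br 1074 (.use 1) .no .no (.br 1208 (.hor [.f 1208 1 5] []) .no .no (.use 6) .no .no) (.red [.f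
  1074 5 3, .f 1073 3 5, .t 961 4 1] 136 136 [] [(136, 136, [])]) .no

def c11t25 : Tr4 :=
  .br 968 .no (.red [.f 832 1 3, .f 960 3 1, .f 952 1 3, .f 952 3 5] 136 136 [] [(121, 136, [2,
  3]), (136, 136, []), (137, 136, [3])]) (.br 1091 (.use 22) .no (.br 825 .no (.use 23) .no (.red
  [.t 825 4 1] 119 136 [2, 4] [(119, 136, [2, 4])]) .no (.br 969 (.red [.t 960 2 4, .t 1096 4 2,
  .f 952 1 3, .f 824 3 1] 136 136 [] [(136, 136, []), (137, 136, [3])]) .no (.hor [.f 968 3 5] [])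
  .no (.br 1216 (.br 819 .no (.red [.f 691 1 3] 103 136 [2, 2, 4] [(103, 136, [2, 2, 4])]) .no
  (.br 944 (.br 1209 (.use 24) .no .no (.red [.f 1073 3 1, .f 1081 1 3] 152 136 [1] [(151, 136,
  [4, 1]), (152, 136, [1])]) (.br 1074 (.red [.t 1073 3 1, .f 1081 1 3] 152 136 [1] [(151, 136,
  [4, 1]), (152, 136, [1])]) .no .no (.br 1208 (.red [.f 1208 1 3] 168 136 [1, 1] [(168, 136, [1,
  1])]) .no .no (.use 8) .no .no) (.red [.f 1074 5 3, .f 1073 3 5, .t 961 4 1] 136 136 [] [(136,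
  136, [])]) .no) (.red [.f 944 1 3, .f 1072 3 5, .f 1080 5 1, .f 1081 1 3] 152 136 [1] [(135,
  119, [1]), (152, 136, [1])])) (.use 18) .no (.use 20) .no .no) .no (.red [.t 960 2 4, .t 824 3
  1, .t 954 2 4] 119 136 [2, 4] [(119, 136, [2, 4])])) .no (.use 11) (.use 21) .no .no) .no)) .no
  .no .no) .no (.br 1091 (.use 22) .no (.br 825 .no (.use 23) .no (.red [.t 825 4 1] 119 136 [2,
  4] [(119, 136, [2, 4])]) .no (.br 1216 (.br 1209 (.use 24) .no .no (.red [.f 1073 3 1, .f 1081 1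
  3] 152 136 [1] [(151, 136, [4, 1]), (152, 136, [1])]) (.br 1074 (.red [.t 1073 3 1, .f 1081 1 3]
  152 136 [1] [(151, 136, [4, 1]), (152, 136, [1])]) .no .no (.br 1208 (.use 13) .no .no (.use 8)
  .no .no) (.red [.f 1074 5 3, .f 1073 3 5, .t 961 4 1] 136 136 [] [(136, 136, [])]) .no) (.br
  1072 (.red [.t 1072 1 3, .f 1081 1 3] 152 136 [1] [(151, 136, [4, 1]), (152, 136, [1])]) (.red
  [.f 944 1 3, .f 1072 3 5, .f 1080 5 1, .f 1081 1 3] 152 136 [1] [(135, 119, [1]), (152, 136,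
  [1])]) .no (.br 819 .no (.red [.f 691 1 3] 103 136 [2, 2, 4] [(103, 136, [2, 2, 4])]) .no (.br
  817 .no (.use 17) .no (.br 944 .no (.use 16) .no (.use 19) .no .no) (.red [.f 817 5 1, .f 818 1
  3] 119 136 [2, 4] [(119, 136, [2, 4])]) (.red [.f 816 5 3, .t 825 4 1] 119 136 [2, 4] [(119,
  136, [2, 4])])) .no (.red [.t 960 2 4, .t 824 3 1, .t 954 2 4] 119 136 [2, 4] [(119, 136, [2,
  4])])) .no .no)) .no (.use 12) (.use 21) .no .no)) .no .no .no) .no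

def c11t26 : Tr4 :=
  .br 1082 (.br 1083 (.hor [.f 1082 1 5] []) (.con 136 [4, 1]) (.typ 7) (.con 136 [4, 1]) .no .no)
  (.red [.f 954 1 3, .f 953 3 5] 136 136 [] [(136, 136, [])]) .no (.hor [.f 1073 3 5] []) (.br 963
  (.con 136 [3]) (.br 955 .no (.red [.f 827 1 3, .t 962 1 4] 136 136 [] [(120, 136, [2]), (136,
  136, [])]) .no (.br 954 .no (.br 827 .no (.br 946 (.red [.t 946 1 3, .f 1073 3 5, .t 961 4 1]
  136 136 [] [(135, 119, [1]), (136, 136, [])]) (.red [.f 818 1 3] 119 136 [2, 4] [(119, 136, [2,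
  4])]) .no (.br 968 .no (.red [.f 832 1 3, .f 960 3 1, .f 952 1 3, .f 952 3 5] 136 136 [] [(121,
  136, [2, 3]), (136, 136, []), (137, 136, [3])]) (.br 1074 (.use 3) .no .no (.br 1209 (.use 7)
  .no .no (.red [.f 1073 3 1, .f 1081 1 3] 152 136 [1] [(151, 136, [4, 1]), (152, 136, [1])]) (.br
  1091 (.use 10) .no (.br 1208 (.br 1216 (.red [.f 1208 1 3] 168 136 [1, 1] [(168, 136, [1, 1])])
  .no (.br 969 (.red [.f 1088 3 1, .f 1088 1 5, .t 952 1 3, .f 961 1 3, .t 1096 1 4] 136 136 []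
  [(136, 136, []), (137, 136, [3])]) (.br 970 (.con 136 [3, 3]) (.hor [.f 841 1 5] []) (.con 136
  [2, 3, 3]) .no (.con 136 [2, 3, 3]) .no) (.hor [.f 968 3 5] []) .no (.use 11) .no) .no .no .no)
  .no (.use 4) (.use 8) .no .no) .no .no .no) (.use 2)) (.red [.f 1074 5 3, .f 1073 3 5, .t 961 4
  1] 136 136 [] [(136, 136, [])]) .no) .no (.br 1074 (.use 3) .no .no (.br 1209 (.use 7) .no .no
  (.red [.f 1073 3 1, .f 1081 1 3] 152 136 [1] [(151, 136, [4, 1]), (152, 136, [1])]) (.br 1091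
  (.use 10) .no (.br 1208 (.use 13) .no (.use 4) (.use 8) .no .no) .no .no .no) (.use 2)) (.red
  [.f 1074 5 3, .f 1073 3 5, .t 961 4 1] 136 136 [] [(136, 136, [])]) .no) .no) .no (.br 833 .no
  (.br 834 .no (.hor [.f 705 1 5] []) (.con 136 [2, 2, 3]) .no .no .no) (.use 25) (.con 136 [2,
  2]) (.hor [.t 953 3 2, .f 832 1 5, .f 945 5 3, .f 946 3 5, .t 834 4 1] []) .no)) .no (.red [.f
  819 3 1, .f 826 1 5] 119 136 [2, 4] [(119, 136, [2, 4])]) .no .no) .no (.hor [.f 946 3 5] [])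
  .no .no) .no (.red [.f 954 5 1, .f 954 1 3] 136 136 [] [(136, 136, [])])) (.con 136 [2, 3])
  (.red [.t 962 1 4] 136 136 [] [(136, 136, [])]) .no .no) .no

def c11t27 : Tr4 :=
  .br 1216 (.hor [.f 1216 1 5] []) .no (.con 136 [1, 3, 1]) (.hor [.f 1209 1 3, .f 1209 3 5]
  [(168, 152, [1])]) .no .no

def c11t28 : Tr4 :=
  .br 1224 (.hor [.t 1208 3 1, .f 1216 1 3, .f 1216 3 5] [(168, 152, [1]), (169, 153, [1])]) .no
  (.red [.f 1096 3 1, .t 1224 2 4, .t 1217 2 4] 152 136 [1] [(152, 136, [1]), (153, 136, [3, 1]),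
  (154, 136, [3, 1, 3])]) .no .no .no

def c11t29 : Tr4 :=
  .br 818 .no (.con 136 [2, 4, 2, 4]) .no (.hor [.f 809 3 5] []) .no .no

def c11t30 : Tr4 :=
  .br 1208 (.hor [.f 1208 1 5] []) .no (.br 1346 (.br 1345 (.hor [.f 1345 1 5] []) .no (.hor [.f
  1217 3 1, .f 1209 1 3, .f 1208 3 5] [(168, 152, [1]), (169, 153, [1])]) .no .no (.use 28)) .no
  (.br 1224 (.br 1345 (.br 1344 (.hor [.f 1344 1 5] []) .no .no (.hor [.f 1208 3 1, .f 1208 1 5]
  [(168, 152, [1])]) .no .no) .no (.hor [.f 1217 3 1, .f 1224 1 5] [(169, 153, [1])]) .no .no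
  (.use 28)) .no (.red [.f 1096 3 1, .t 1224 2 4, .t 1217 2 4] 152 136 [1] [(152, 136, [1]), (153,
  136, [3, 1]), (154, 136, [3, 1, 3])]) .no .no .no) (.hor [.f 1210 3 1, .f 1209 1 5] [(168, 152,
  [1])]) (.red [.t 1210 3 1, .t 1074 1 3, .f 1083 1 3] 152 136 [1] [(151, 136, [4, 1]), (152, 136,
  [1]), (168, 152, [1])]) (.red [.t 1209 1 3, .f 1081 5 1, .t 1208 3 2] 152 136 [1] [(152, 136,
  [1]), (168, 152, [1])])) (.con 136 [4, 1, 1]) .no .no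

def c11t31 : Tr4 :=
  .br 1072 (.hor [.f 1072 1 5] []) (.con 136 [4, 4, 1]) .no (.con 136 [4, 4, 1]) .no .no

def c11t32 : Tr4 :=
  .br 825 .no (.hor [.f 696 1 5] []) .no (.hor [.f 817 3 1, .f 825 1 5] [(119, 136, [2, 4])]) .no
  .no

def c11t33 : Tr4 :=
  .br 817 .no (.hor [.f 688 1 5] []) .no (.con 136 [4, 2, 2, 4]) (.con 136 [4, 2, 2, 4]) .no

def c11l0 : List Tr4 :=
  [c11t0, c11t1, c11t2, c11t3, c11t4, c11t5, c11t6, c11t7, c11t8, c11t9, c11t10, c11t11, c11t12,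
  c11t13, c11t14, c11t15, c11t16, c11t17, c11t18, c11t19, c11t20, c11t21, c11t22, c11t23, c11t24,
  c11t25, c11t26, c11t27, c11t28, c11t29, c11t30, c11t31, c11t32, c11t33]

theorem c11k0 : chkLF ⟨4, 1, 0, true, -8⟩ true 0 c11N 0 c11l0 = true := by decide +kernel

def c11t34 : Tr4 :=
  .br 1074 (.br 1211 (.br 1210 (.hor [.f 1210 1 5] []) .no (.br 1209 (.br 969 (.red [.t 968 4 1,
  .f 952 1 3] 136 136 [] [(136, 136, []), (137, 136, [3])]) (.hor [.f 833 1 3, .f 960 3 5] [(121,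
  120, [3])]) (.br 1217 (.use 27) .no (.br 1096 (.red [.t 1224 2 4, .t 1217 2 4] 152 136 [1]
  [(152, 136, [1]), (153, 136, [3, 1])]) .no (.br 1097 .no .no (.hor [.f 1096 3 5] []) .no (.use
  30) .no) .no (.red [.f 1088 5 3, .f 1089 3 1, .t 1217 2 4] 152 136 [1] [(152, 136, [1]), (153,
  136, [3, 1])]) .no) .no .no (.red [.f 1088 5 1, .t 1217 2 4] 152 136 [1] [(152, 136, [1])])) .no
  (.br 1217 (.use 27) .no (.br 1096 (.red [.t 1224 2 4, .t 1217 2 4] 152 136 [1] [(152, 136, [1]),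
  (153, 136, [3, 1])]) .no (.br 1097 .no .no (.hor [.f 1096 3 5] []) .no (.use 30) .no) .no (.red
  [.f 1088 5 3, .f 1089 3 1, .t 1217 2 4] 152 136 [1] [(152, 136, [1]), (153, 136, [3, 1])]) .no)
  .no .no (.red [.f 1088 5 1, .t 1217 2 4] 152 136 [1] [(152, 136, [1])])) .no) .no (.hor [.f 1209
  3 5] []) (.red [.t 1201 3 2, .f 1074 3 5] 151 136 [4, 1] [(151, 136, [4, 1])]) .no (.br 1217
  (.br 1216 (.hor [.f 1216 1 5] []) .no (.con 136 [3, 1, 1]) .no .no .no) .no (.br 1096 (.red [.t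
  1224 2 4, .t 1217 2 4] 152 136 [1] [(152, 136, [1]), (153, 136, [3, 1])]) .no (.br 1097 .no
  (.red [.t 968 4 1, .f 952 1 3] 136 136 [] [(136, 136, []), (137, 136, [3])]) (.hor [.f 1096 3 5]
  []) .no (.br 1216 (.br 1224 (.hor [.f 1216 1 3, .f 1216 3 5] [(169, 153, [1])]) .no (.red [.f
  1096 3 1, .t 1224 2 4, .t 1217 2 4] 152 136 [1] [(152, 136, [1]), (153, 136, [3, 1]), (154, 136,
  [3, 1, 3])]) .no .no .no) .no (.hor [.f 1216 3 5] []) .no .no .no) .no) .no (.red [.f 1088 5 3,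
  .f 1089 3 1, .t 1217 2 4] 152 136 [1] [(152, 136, [1]), (153, 136, [3, 1])]) .no) .no .no (.red
  [.f 1208 5 3, .f 1208 3 5, .f 1088 5 1, .t 1217 2 4] 152 136 [1] [(152, 136, [1])]))) .no .no
  (.red [.f 1081 5 1, .f 1074 1 3] 151 136 [4, 1] [(151, 136, [4, 1])])) .no .no (.red [.f 1075 3
  1, .f 1083 1 3, .f 955 3 1, .f 962 1 5] 136 136 [] [(136, 136, []), (151, 136, [4, 1]), (152,
  136, [1])]) .no (.red [.t 1074 1 3, .f 1083 1 3] 152 136 [1] [(151, 136, [4, 1]), (152, 136,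
  [1])])) (.red [.t 945 3 1, .f 1074 3 5, .t 962 1 4] 136 136 [] [(135, 119, [1]), (136, 136,
  [])]) .no (.br 1073 (.use 31) .no .no (.hor [.f 1065 3 5] []) .no (.br 832 .no (.br 946 .no
  (.red [.f 818 1 3] 119 136 [2, 4] [(119, 136, [2, 4])]) .no (.br 947 .no (.br 824 .no (.use 32)
  .no (.con 136 [2, 4, 4]) (.br 944 .no (.red [.t 944 2 3, .f 825 1 5] 119 136 [2, 4] [(119, 136,
  [2, 4])]) .no (.con 136 [2, 4, 4]) .no .no) .no) .no (.hor [.f 938 3 5] []) .no .no) (.br 827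
  .no (.br 824 .no (.use 32) .no (.br 825 .no (.con 136 [2, 2, 4]) .no (.hor [.f 816 3 5] []) .no
  .no) (.br 944 .no (.red [.t 944 2 3, .f 825 1 5] 119 136 [2, 4] [(119, 136, [2, 4])]) .no (.br
  816 .no (.br 819 .no (.red [.f 691 1 3] 103 136 [2, 2, 4] [(103, 136, [2, 2, 4])]) .no (.use 33)
  .no (.red [.t 952 1 4, .f 818 5 1, .f 818 1 3] 119 136 [2, 4] [(119, 136, [2, 4]), (135, 119,
  [1])])) .no (.red [.f 808 3 1, .t 944 2 3, .f 825 1 5] 119 136 [2, 4] [(118, 136, [2, 4, 4]),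
  (119, 136, [2, 4])]) (.red [.f 816 5 3, .f 817 3 1, .f 825 1 3] 119 136 [2, 4] [(119, 136, [2,
  4]), (120, 136, [2])]) .no) .no .no) .no) (.con 136 [2, 2]) (.red [.t 826 1 4, .f 945 3 5] 119
  136 [2, 4] [(119, 136, [2, 4])]) .no .no) .no) (.hor [.f 832 3 1, .f 832 1 5] [(121, 120, [3])])
  (.red [.t 952 1 4, .t 832 4 1, .t 961 4 1] 136 136 [] [(120, 136, [2]), (135, 119, [1]), (136,
  136, [])]) .no .no)) .no (.red [.f 1073 5 3, .f 1074 3 5, .t 962 1 4] 136 136 [] [(136, 136,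
  [])])

def c11t35 : Tr4 :=
  .br 962 (.br 1088 (.br 1089 (.hor [.f 1088 1 5] []) (.con 136 [3]) (.con 136 [3, 1]) (.br 961
  .no (.br 955 (.con 136 [2]) (.con 136 [2]) (.typ 8) (.con 136 [2]) .no (.con 136 [2])) (.hor [.f
  960 3 5] []) (.red [.f 953 3 1, .f 952 1 5] 136 136 [] [(136, 136, [])]) .no .no) .no .no) .no
  (.red [.f 960 3 1, .f 952 1 3] 136 136 [] [(136, 136, []), (137, 136, [3])]) .no (.br 961 .no
  (.br 953 (.hor [.f 952 1 5] []) (.red [.f 825 1 3, .t 952 1 3] 136 136 [] [(120, 136, [2]),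
  (136, 136, [])]) .no (.br 954 (.red [.f 954 1 3] 136 136 [] [(136, 136, [])]) (.br 955 (.con 136
  [2]) (.con 136 [2]) (.br 1091 (.br 1083 (.red [.f 1083 1 3] 152 136 [1] [(152, 136, [1])]) .no
  .no (.br 1082 (.br 1081 (.hor [.f 1081 1 5] []) .no .no (.con 136 [4, 1]) .no .no) .no .no (.hor
  [.f 1074 3 5] []) .no (.use 34)) .no (.red [.t 962 1 4] 136 136 [] [(136, 136, [])])) .no (.con
  136 [3, 1]) (.red [.f 955 3 1, .f 962 1 5] 136 136 [] [(136, 136, [])]) .no .no) (.con 136 [2])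
  .no .no) .no (.hor [.f 945 3 5] []) (.con 136 [2]) .no) (.br 955 (.con 136 [2]) (.con 136 [2])
  (.br 1091 (.br 1083 (.red [.f 1083 1 3] 152 136 [1] [(152, 136, [1])]) .no .no (.br 1082 (.br
  1081 (.hor [.f 1081 1 5] []) .no .no (.con 136 [4, 1]) .no .no) .no .no (.hor [.f 1074 3 5] [])
  .no (.red [.f 953 5 1, .f 954 1 3] 136 136 [] [(136, 136, [])])) .no (.red [.t 962 1 4] 136 136
  [] [(136, 136, [])])) .no (.con 136 [3, 1]) (.red [.f 955 3 1, .f 962 1 5] 136 136 [] [(136,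
  136, [])]) .no .no) (.con 136 [2]) .no .no) .no) (.hor [.f 960 3 5] []) (.red [.t 952 1 3, .f
  961 1 5] 136 136 [] [(136, 136, [])]) .no .no) .no) (.con 136 [3]) (.con 136 [3]) (.con 136 [3])
  (.con 136 [3]) (.con 136 [3])

def c11t36 : Tr4 :=
  .br 1083 (.hor [.f 1082 1 5] []) .no (.red [.f 955 3 1, .f 962 1 5] 136 136 [] [(136, 136, [])])
  (.con 136 [1, 4]) .no .no

def c11t37 : Tr4 :=
  .br 1082 (.use 36) (.red [.f 954 1 3, .f 954 3 5] 136 136 [] [(136, 136, [])]) .no (.hor [.f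
  1073 3 5] []) (.red [.t 962 1 4] 136 136 [] [(136, 136, [])]) .no

def c11t38 : Tr4 :=
  .br 1211 (.hor [.f 1210 1 5] []) .no .no (.red [.f 1075 3 1, .f 1083 1 3, .f 955 3 1, .f 962 1
  5] 136 136 [] [(136, 136, []), (151, 136, [1, 4]), (152, 136, [1])]) .no .no

def c11t39 : Tr4 :=
  .br 1210 (.use 38) .no (.red [.t 1217 2 4] 152 136 [1] [(152, 136, [1])]) .no (.red [.t 1074 1
  3, .f 1083 1 3] 152 136 [1] [(151, 136, [1, 4]), (152, 136, [1])]) (.red [.f 1081 5 1, .f 1081 1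
  3] 152 136 [1] [(152, 136, [1])])

def c11t40 : Tr4 :=
  .br 1209 (.con 136 [1, 4, 1]) .no .no (.hor [.f 1201 3 5] []) .no (.con 136 [1, 4, 1])

def c11t41 : Tr4 :=
  .br 1211 (.use 40) .no .no (.hor [.f 1202 3 5] []) .no .no

def c11t42 : Tr4 :=
  .br 840 .no (.hor [.f 704 1 3, .f 832 3 5] [(105, 121, [2])]) (.hor [.f 840 3 1, .t 840 1 4, .f
  825 1 3, .f 825 3 5] [(120, 136, [2]), (121, 136, [3, 2]), (122, 136, [3, 2, 3])]) .no .no .no

def c11t43 : Tr4 :=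
  .br 826 .no (.red [.f 696 1 3, .t 824 3 1, .t 961 4 1] 136 136 [] [(104, 136, [2, 2]), (120,
  136, [2]), (136, 136, [])]) (.br 833 .no (.hor [.f 704 1 5] []) (.br 968 .no (.red [.t 840 1 4,
  .f 960 3 1, .f 952 1 3] 136 136 [] [(121, 136, [3, 2]), (136, 136, []), (137, 136, [3])]) (.br
  969 .no .no (.hor [.f 968 3 5] []) .no (.use 42) .no) .no (.red [.f 960 5 3, .f 960 3 1, .f 952
  1 3] 136 136 [] [(136, 136, []), (137, 136, [3])]) .no) .no .no .no) (.red [.f 696 1 3, .t 824 3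
  1, .t 961 4 1] 136 136 [] [(104, 136, [2, 2]), (120, 136, [2]), (136, 136, [])]) (.red [.f 696 1
  3, .t 824 3 1, .t 961 4 1] 136 136 [] [(104, 136, [2, 2]), (120, 136, [2]), (136, 136, [])]) .no

def c11t44 : Tr4 :=
  .br 944 .no .no .no (.hor [.f 936 3 5] []) .no .no

def c11t45 : Tr4 :=
  .br 824 .no (.use 43) .no (.use 44) .no .no

def c11t46 : Tr4 :=
  .br 826 .no (.red [.f 696 1 3, .t 824 3 1, .t 961 4 1] 136 136 [] [(104, 136, [2, 2]), (120,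
  136, [2]), (136, 136, [])]) (.br 833 .no (.hor [.f 704 1 5] []) (.br 968 .no (.red [.t 840 1 4,
  .f 960 3 1, .f 952 1 3] 136 136 [] [(121, 136, [3, 2]), (136, 136, []), (137, 136, [3])]) (.br
  969 .no .no (.hor [.f 968 3 5] []) .no (.use 42) .no) .no (.red [.f 960 5 3, .f 960 3 1, .f 952
  1 3] 136 136 [] [(136, 136, []), (137, 136, [3])]) .no) .no .no .no) (.red [.f 696 1 3, .t 824 3
  1, .t 961 4 1] 136 136 [] [(104, 136, [2, 2]), (120, 136, [2]), (136, 136, [])]) (.red [.f 696 1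
  3, .t 824 3 1, .t 961 4 1] 136 136 [] [(104, 136, [2, 2]), (120, 136, [2]), (136, 136, [])]) .no

def c11t47 : Tr4 :=
  .br 970 (.con 136 [3, 2, 3]) (.hor [.f 841 1 5] []) (.con 136 [3, 2, 3]) .no (.con 136 [3, 2,
  3]) .no

def c11t48 : Tr4 :=
  .br 1065 (.hor [.f 1064 1 5] []) .no .no (.br 1194 (.red [.f 1194 1 3, .f 1066 3 1] 150 136 [4,
  4, 1] [(150, 136, [4, 4, 1]), (166, 136, [4, 4, 1, 1])]) .no .no (.br 1203 (.hor [.f 1202 1 5]
  []) .no .no (.con 136 [4, 4, 1, 4]) .no .no) (.con 136 [4, 4, 1, 4]) (.red [.f 1072 5 1, .t 1073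
  1 4] 150 136 [4, 4, 1] [(150, 136, [4, 4, 1])])) .no .no

def c11t49 : Tr4 :=
  .br 1064 (.br 1201 (.hor [.f 1201 1 5] []) .no .no (.con 136 [4, 4, 1, 1]) .no (.use 48)) .no
  .no (.br 1201 (.hor [.f 1201 1 5] []) .no .no (.br 1200 (.con 136 [4, 4, 1, 1]) .no .no (.hor
  [.f 1192 3 5] []) .no .no) .no (.br 1065 (.red [.f 1072 5 1, .f 1065 1 3] 150 136 [4, 4, 1]
  [(150, 136, [4, 4, 1])]) .no .no (.hor [.f 1056 3 5] []) .no .no)) (.red [.f 1064 5 3, .f 937 3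
  1, .t 945 1 3, .f 954 1 3] 136 136 [] [(134, 136, [4, 4]), (135, 136, [4]), (136, 136, [])]) .no

def c11t50 : Tr4 :=
  .br 1065 (.hor [.f 1064 1 5] []) .no .no (.br 1203 (.hor [.f 1202 1 5] []) .no .no (.con 136 [4,
  4, 1, 4]) .no .no) .no .no

def c11t51 : Tr4 :=
  .br 1338 (.hor [.f 1338 1 5] []) .no .no .no .no (.red [.t 1201 3 1, .t 1065 1 3, .t 1074 1 3]
  151 136 [1, 4] [(150, 136, [1, 4, 4]), (151, 136, [1, 4]), (167, 151, [1])])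

def c11t52 : Tr4 :=
  .br 1203 (.red [.t 1330 3 2, .f 1210 1 3] 167 136 [4, 1, 1] [(167, 136, [4, 1, 1]), (168, 136,
  [1, 1])]) .no .no (.con 136 [4, 4, 1, 4]) .no .no

def c11t53 : Tr4 :=
  .br 1466 (.hor [.f 1465 1 5] []) .no (.hor [.t 1473 2 4, .f 1338 1 5] [(184, 136, [1, 1, 1])])
  .no .no .no

def c11t54 : Tr4 :=
  .br 1337 (.hor [.f 1337 1 5] []) .no (.red [.t 1344 2 4] 168 136 [1, 1] [(168, 136, [1, 1])])
  (.con 136 [1, 4, 1, 1]) .no (.con 136 [1, 4, 1, 1])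

def c11t55 : Tr4 :=
  .br 1466 (.br 1465 (.hor [.f 1465 1 5] []) .no .no (.con 136 [4, 1, 1, 4, 1, 3]) .no (.br 1467
  (.hor [.f 1466 1 5] []) .no (.con 136 [1, 1, 1, 1]) (.red [.f 1331 3 1, .f 1330 1 5] 183 136 [4,
  1, 1, 1] [(183, 136, [4, 1, 1, 1])]) .no .no)) .no (.red [.t 1473 2 4] 184 136 [1, 1, 1] [(184,
  136, [1, 1, 1])]) .no (.red [.t 1330 1 3] 183 136 [4, 1, 1, 1] [(183, 136, [4, 1, 1, 1])]) (.red
  [.f 1337 5 1, .f 1337 1 3] 184 136 [1, 1, 1] [(184, 136, [1, 1, 1])])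

def c11t56 : Tr4 :=
  .br 1339 (.br 1347 (.red [.f 1339 1 3, .t 1346 2 4] 168 136 [1, 1] [(168, 136, [1, 1]), (184,
  136, [1, 1, 1])]) .no (.br 1193 (.br 1338 (.hor [.f 1338 1 5] []) .no .no (.use 52) .no (.br
  1203 (.br 1330 (.br 1465 (.br 1473 (.con 136 [1, 1, 1, 3]) (.use 53) (.con 136 [1, 1, 1, 3]) .no
  (.con 136 [1, 1, 1, 3]) (.con 136 [1, 1, 1, 3])) .no (.con 136 [1, 1, 1, 3]) (.con 136 [4, 4, 1,
  1, 1, 3]) (.red [.f 1337 5 1, .f 1330 1 3, .t 1330 3 2] 167 136 [4, 1, 1] [(167, 136, [4, 1,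
  1]), (183, 136, [4, 1, 1, 1])]) (.con 136 [4, 4, 1, 1, 1, 3, 3])) .no .no (.con 136 [4, 4, 1, 1,
  4]) .no (.red [.f 1201 5 1, .f 1201 1 5, .f 1329 5 3, .t 1330 3 2] 167 136 [4, 1, 1] [(167, 136,
  [4, 1, 1])])) .no .no (.con 136 [4, 4, 1, 4]) .no .no)) .no .no (.red [.f 1057 3 1, .f 1064 1 5]
  149 136 [4, 4, 4, 1] [(149, 136, [4, 4, 4, 1])]) (.red [.f 1193 5 3, .f 1066 3 1, .t 1074 1 3,
  .f 1083 1 3] 152 136 [1] [(150, 136, [4, 4, 1]), (151, 136, [4, 1]), (152, 136, [1])]) .no) .no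
  .no .no) .no (.red [.t 1346 2 4, .t 1217 2 4] 152 136 [1] [(152, 136, [1]), (168, 136, [1, 1])])
  (.br 1193 (.br 1338 (.use 54) .no .no (.use 52) .no (.br 1330 (.br 1345 (.use 55) .no .no .no
  .no .no) .no .no (.con 136 [4, 4, 1, 1, 4]) .no (.red [.f 1329 5 3, .f 1330 3 5, .f 1210 5 1, .f
  1210 1 3] 168 136 [1, 1] [(168, 136, [1, 1])]))) .no .no (.red [.f 1057 3 1, .f 1064 1 5] 149
  136 [4, 4, 4, 1] [(149, 136, [4, 4, 4, 1])]) (.red [.f 1193 5 3, .f 1066 3 1, .t 1074 1 3, .f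
  1083 1 3] 152 136 [1] [(150, 136, [4, 4, 1]), (151, 136, [4, 1]), (152, 136, [1])]) .no) .no
  (.red [.f 1210 5 1, .f 1210 1 3, .t 1217 2 4] 152 136 [1] [(152, 136, [1]), (168, 136, [1, 1])])

def c11t57 : Tr4 :=
  .br 1338 (.br 1339 (.hor [.f 1338 1 5] []) .no (.red [.t 1346 2 4, .t 1217 2 4] 152 136 [1]
  [(152, 136, [1]), (168, 136, [1, 1])]) (.br 1193 (.br 1330 (.red [.f 1330 1 3, .t 1337 2 4] 167
  136 [4, 1, 1] [(167, 136, [4, 1, 1]), (183, 136, [4, 1, 1, 1])]) .no .no (.con 136 [4, 4, 1, 1,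
  4]) .no (.red [.f 1201 5 1, .f 1201 1 3] 167 136 [4, 1, 1] [(167, 136, [4, 1, 1])])) .no .no
  (.red [.f 1057 3 1, .f 1064 1 5] 149 136 [4, 4, 4, 1] [(149, 136, [4, 4, 4, 1])]) (.red [.f 1193
  5 3, .f 1066 3 1, .t 1074 1 3, .f 1083 1 3] 152 136 [1] [(150, 136, [4, 4, 1]), (151, 136, [4,
  1]), (152, 136, [1])]) .no) .no .no) .no .no (.red [.t 1337 2 4] 167 136 [4, 1, 1] [(167, 136,
  [4, 1, 1])]) (.red [.f 1210 5 1, .f 1210 1 3, .t 1217 2 4] 152 136 [1] [(152, 136, [1]), (168,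
  136, [1, 1])]) .no

def c11t58 : Tr4 :=
  .br 1098 (.br 1225 (.br 1216 (.br 1208 (.red [.f 1208 1 3] 168 136 [1, 1] [(168, 136, [1, 1])])
  .no .no (.con 136 [4, 1, 1]) (.br 1218 (.use 56) .no .no .no .no .no) .no) .no (.hor [.f 1088 3
  1, .f 1088 1 5] [(153, 137, [1])]) (.br 1209 (.br 1218 (.use 57) .no .no .no .no .no) .no .no
  .no .no .no) .no .no) .no (.hor [.f 1097 3 1, .f 1097 1 5] [(154, 138, [1])]) .no .no (.red [.t
  1088 3 1, .f 960 5 1, .f 952 1 3] 136 136 [] [(136, 136, []), (153, 137, [1])])) .no (.hor [.f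
  1097 3 5] []) .no (.br 1218 (.br 1209 (.use 57) .no .no .no .no (.br 1216 (.br 1225 (.use 56)
  .no (.hor [.f 1097 3 1, .f 1089 1 3, .f 1088 3 5] [(153, 137, [1]), (154, 138, [1])]) .no (.br
  1193 (.br 1339 (.br 1338 (.hor [.f 1338 1 5] []) .no .no (.use 52) .no (.br 1347 (.red [.f 1339
  1 3] 184 136 [1, 1, 1] [(184, 136, [1, 1, 1])]) .no (.br 1345 (.br 1203 (.br 1330 (.br 1465
  (.use 53) .no .no (.con 136 [4, 4, 1, 1, 1, 3]) (.red [.f 1337 5 1, .f 1337 1 3] 184 136 [1, 1,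
  1] [(184, 136, [1, 1, 1])]) (.con 136 [4, 4, 1, 1, 1, 3, 3])) .no .no (.con 136 [4, 4, 1, 1, 4])
  .no (.red [.f 1201 5 1, .f 1201 1 5, .f 1329 5 3, .t 1330 3 2] 167 136 [4, 1, 1] [(167, 136, [4,
  1, 1])])) .no .no (.con 136 [4, 4, 1, 4]) .no .no) .no (.con 136 [3, 1, 1, 1]) .no .no .no) .no
  .no .no)) .no (.red [.t 1346 2 4, .t 1217 2 4] 152 136 [1] [(152, 136, [1]), (168, 136, [1,
  1])]) (.br 1338 (.use 54) .no .no (.use 52) .no (.br 1330 (.br 1345 (.use 55) .no (.br 1466 (.br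
  1467 (.hor [.f 1466 1 5] []) .no (.con 136 [1, 1, 1, 3]) (.red [.f 1331 3 1, .f 1330 1 5] 183
  136 [4, 1, 1, 1] [(183, 136, [4, 1, 1, 1])]) .no .no) .no (.red [.t 1345 3 2, .f 1337 5 3, .f
  1338 3 1] 184 136 [1, 1, 1] [(169, 168, [3]), (184, 136, [1, 1, 1])]) .no (.red [.t 1330 1 3]
  183 136 [4, 1, 1, 1] [(183, 136, [4, 1, 1, 1])]) (.red [.f 1337 5 1, .f 1330 1 3] 183 136 [4, 1,
  1, 1] [(183, 136, [4, 1, 1, 1])])) .no .no .no) .no .no (.con 136 [4, 4, 1, 1, 4]) .no (.red [.f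
  1329 5 3, .f 1330 3 5, .f 1210 5 1, .f 1210 1 3] 168 136 [1, 1] [(168, 136, [1, 1])]))) .no
  (.red [.f 1210 5 1, .f 1210 1 3, .t 1217 2 4] 152 136 [1] [(152, 136, [1]), (168, 136, [1,
  1])])) .no .no (.red [.f 1057 3 1, .f 1064 1 5] 149 136 [4, 4, 4, 1] [(149, 136, [4, 4, 4, 1])])
  (.red [.f 1193 5 3, .f 1066 3 1, .t 1074 1 3, .f 1083 1 3] 152 136 [1] [(150, 136, [4, 4, 1]),
  (151, 136, [4, 1]), (152, 136, [1])]) .no) (.red [.t 1088 3 1, .f 960 5 1, .f 952 1 3] 136 136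
  [] [(136, 136, []), (153, 137, [1])])) .no (.hor [.f 1088 3 1, .f 1088 1 5] [(153, 137, [1])])
  .no .no .no)) .no (.red [.t 1218 3 2, .f 1210 5 3, .t 1217 2 4] 152 136 [1] [(152, 136, [1]),
  (153, 137, [1])]) .no .no .no) .no

def c11l1 : List Tr4 :=
  [c11t34, c11t35, c11t36, c11t37, c11t38, c11t39, c11t40, c11t41, c11t42, c11t43, c11t44, c11t45,
  c11t46, c11t47, c11t48, c11t49, c11t50, c11t51, c11t52, c11t53, c11t54, c11t55, c11t56, c11t57,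
  c11t58]

theorem c11k1 : chkLF ⟨4, 1, 0, true, -8⟩ true 0 c11N 34 c11l1 = true := by decide +kernel

def c11t59 : Tr4 :=
  .br 1202 (.br 944 .no (.br 936 (.red [.t 936 1 3, .t 945 1 3, .f 954 1 3] 136 136 [] [(134, 136,
  [4, 4]), (135, 136, [4]), (136, 136, [])]) (.hor [.f 808 1 3, .f 936 3 5] [(118, 120, [4, 4])])
  .no (.br 1216 (.br 1208 (.red [.f 1208 1 3] 168 136 [1, 1] [(168, 136, [1, 1])]) .no .no (.br
  1209 (.con 136 [4, 1, 1]) .no .no (.hor [.f 1200 3 5] []) .no .no) (.br 1064 (.br 1201 (.hor [.f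
  1201 1 5] []) .no .no (.con 136 [4, 4, 1, 1]) .no (.use 48)) .no .no (.br 1065 (.br 1201 (.hor
  [.f 1201 1 5] []) .no .no .no .no (.red [.f 1072 5 1, .f 1065 1 3] 150 136 [4, 4, 1] [(150, 136,
  [4, 4, 1])])) .no .no (.hor [.f 1056 3 5] []) .no .no) (.red [.f 1064 5 3, .f 937 3 1, .t 945 1
  3, .f 954 1 3] 136 136 [] [(134, 136, [4, 4]), (135, 136, [4]), (136, 136, [])]) .no) .no) .no
  (.hor [.f 1088 3 1, .f 1088 1 5] [(153, 137, [1])]) (.br 1098 (.br 1209 (.use 49) .no .no (.br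
  1064 (.use 50) .no .no (.br 1065 (.br 1200 (.br 1346 (.con 136 [1, 1, 3, 2, 2]) (.br 1339 (.use
  51) .no (.red [.t 1346 2 4, .t 1217 2 4] 152 136 [1] [(152, 136, [1]), (168, 136, [1, 1])])
  (.con 136 [4, 1, 1, 4]) .no (.red [.f 1210 5 1, .f 1210 1 3, .t 1217 2 4] 152 136 [1] [(152,
  136, [1]), (168, 136, [1, 1])])) (.con 136 [1, 1, 3, 2, 2]) (.con 136 [1, 1, 3, 2, 2]) (.con 136
  [1, 1, 3, 2, 2]) (.con 136 [1, 1, 3, 2, 2])) .no .no (.red [.t 1192 3 2, .f 1065 3 5] 150 136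
  [4, 4, 1] [(150, 136, [4, 4, 1])]) .no .no) .no .no (.hor [.f 1056 3 5] []) .no .no) (.red [.f
  1064 5 3, .f 937 3 1, .t 945 1 3, .f 954 1 3] 136 136 [] [(134, 136, [4, 4]), (135, 136, [4]),
  (136, 136, [])]) .no) .no .no) .no (.hor [.f 1097 3 5] []) .no (.br 1218 (.br 1209 (.use 49) .no
  .no (.br 1339 (.br 1064 (.use 50) .no .no (.br 1065 (.use 51) .no .no (.hor [.f 1056 3 5] [])
  .no .no) (.red [.f 1064 5 3, .f 937 3 1, .t 945 1 3, .f 954 1 3] 136 136 [] [(134, 136, [4, 4]),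
  (135, 136, [4]), (136, 136, [])]) .no) .no (.red [.t 1346 2 4, .t 1217 2 4] 152 136 [1] [(152,
  136, [1]), (168, 136, [1, 1])]) (.red [.t 1330 2 3, .f 1201 3 5, .f 1081 5 1, .f 1081 1 3] 152
  136 [1] [(152, 136, [1]), (167, 151, [1])]) .no (.red [.f 1210 5 1, .f 1210 1 3, .t 1217 2 4]
  152 136 [1] [(152, 136, [1]), (168, 136, [1, 1])])) .no .no) .no (.red [.t 1218 3 2, .f 1210 5
  3, .t 1217 2 4] 152 136 [1] [(152, 136, [1]), (153, 137, [1])]) .no .no .no) .no) .no .no) .no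
  .no) .no (.hor [.f 936 3 5] []) .no .no) .no .no (.red [.f 1066 3 1, .t 1074 1 3] 151 136 [4, 1]
  [(150, 136, [4, 4, 1]), (151, 136, [4, 1])]) (.red [.f 1202 5 3, .f 1075 3 1, .f 1083 1 3] 152
  136 [1] [(151, 136, [4, 1]), (152, 136, [1])]) (.br 1065 (.red [.t 1065 1 3, .t 1074 1 3] 151
  136 [4, 1] [(150, 136, [4, 4, 1]), (151, 136, [4, 1])]) .no .no (.br 1064 (.use 58) (.red [.t
  936 1 3, .t 945 1 3, .f 954 1 3] 136 136 [] [(134, 136, [4, 4]), (135, 136, [4]), (136, 136,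
  [])]) .no (.hor [.f 1056 3 5] []) .no .no) .no (.red [.f 1064 5 3, .f 937 3 1, .t 945 1 3, .f
  954 1 3] 136 136 [] [(134, 136, [4, 4]), (135, 136, [4]), (136, 136, [])]))

def c11t60 : Tr4 :=
  .br 969 .no (.use 47) (.hor [.f 968 3 5] []) .no (.red [.f 969 5 1, .t 1096 4 2, .f 952 1 3] 136
  136 [] [(136, 136, []), (137, 136, [3])]) .no

def c11t61 : Tr4 :=
  .br 1219 (.con 136 [1, 3, 1]) .no (.hor [.f 1218 3 5] []) (.con 136 [1, 3, 1]) .no .no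

def c11t62 : Tr4 :=
  .br 1209 (.hor [.f 1209 1 5] []) .no .no .no .no .no

def c11t63 : Tr4 :=
  .br 1097 (.con 136 [3, 3, 1]) .no (.hor [.f 1097 3 5] []) .no .no .no

def c11t64 : Tr4 :=
  .br 1203 .no .no .no (.con 136 [4, 4, 1, 4]) .no (.red [.t 1338 2 4, .t 1201 2 3, .f 1082 1 5,
  .t 962 1 4] 136 136 [] [(136, 136, []), (151, 150, [3]), (167, 168, [4])])

def c11t65 : Tr4 :=
  .br 1227 (.br 1347 (.br 1346 (.hor [.f 1346 1 5] []) .no (.red [.t 1354 4 2, .f 1091 3 1, .f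
  1083 1 3] 152 136 [1] [(152, 136, [1]), (153, 136, [1, 3]), (169, 136, [1, 3, 1])]) .no .no (.br
  1339 (.red [.f 1339 1 3] 184 136 [1, 1, 1] [(184, 136, [1, 1, 1])]) .no .no (.use 64) .no .no))
  .no .no (.red [.t 1338 2 3, .t 1217 2 4] 152 136 [1] [(152, 136, [1]), (168, 136, [1, 1])]) .no
  (.red [.f 1218 5 1, .f 1219 1 3, .f 1091 3 1, .f 1083 1 3] 152 136 [1] [(152, 136, [1]), (153,
  136, [1, 3]), (169, 136, [1, 3, 1])])) .no (.hor [.f 1226 3 5] []) .no .no .no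

def c11t66 : Tr4 :=
  .br 1075 (.con 136 [4, 4, 1]) (.br 1065 (.red [.f 1065 1 3, .f 1065 3 5] 150 136 [4, 4, 1]
  [(150, 136, [4, 4, 1])]) .no .no (.br 1211 (.con 136 [1, 4, 4]) (.br 1098 (.red [.t 1098 1 4, .f
  1083 1 3] 152 136 [1] [(152, 136, [1]), (153, 136, [3, 1])]) .no (.use 63) .no .no (.br 1064
  (.br 1225 (.br 1226 (.hor [.f 1225 1 5] []) .no (.use 65) .no (.red [.f 1218 5 3, .f 1091 3 1,
  .f 1083 1 3] 152 136 [1] [(152, 136, [1]), (153, 136, [3, 1])]) .no) .no (.br 1226 (.br 1347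
  (.br 1339 (.red [.f 1339 1 3, .t 1338 2 3] 168 136 [1, 1] [(168, 136, [1, 1]), (184, 136, [1, 1,
  1])]) .no .no (.use 64) .no .no) .no (.con 136 [3, 1, 1, 3]) (.red [.t 1338 2 3, .t 1217 2 4]
  152 136 [1] [(152, 136, [1]), (168, 136, [1, 1])]) .no (.red [.f 1218 5 1, .f 1210 1 3] 168 136
  [1, 1] [(168, 136, [1, 1])])) .no (.use 65) .no (.red [.f 1218 5 3, .f 1091 3 1, .f 1083 1 3]
  152 136 [1] [(152, 136, [1]), (153, 136, [3, 1])]) .no) .no (.red [.f 1097 5 1, .t 1098 1 4, .f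
  1083 1 3] 152 136 [1] [(152, 136, [1]), (153, 136, [3, 1])]) (.red [.t 1088 3 1, .f 960 5 1, .f
  952 1 3, .f 961 1 5, .f 1089 5 3, .f 1089 3 1] 136 136 [] [(136, 136, [])])) (.hor [.f 936 1 3,
  .f 936 3 5] [(134, 136, [4, 4])]) .no (.hor [.f 1056 3 5] []) .no .no)) .no (.con 136 [1, 4, 4])
  .no .no) .no (.hor [.t 944 1 4, .t 824 4 1, .f 945 3 5] [(119, 120, [4]), (134, 136, [4, 4])]))
  (.con 136 [4, 4, 1]) (.hor [.f 1066 3 5] []) .no .no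

def c11t67 : Tr4 :=
  .br 1336 (.hor [.f 1336 1 5] []) .no .no (.br 1329 (.red [.f 1329 1 3, .f 1328 3 5, .f 1208 5 1,
  .f 1208 1 3] 168 136 [1, 1] [(168, 136, [1, 1]), (183, 182, [3])]) .no .no (.br 1193 .no .no .no
  (.hor [.f 1185 3 5] []) .no .no) .no .no) .no .no

def c11t68 : Tr4 :=
  .br 1065 (.hor [.f 1064 1 5] []) .no .no (.br 1066 (.con 136 [4, 4, 4, 1]) (.red [.t 938 1 3]
  134 136 [4, 4] [(134, 136, [4, 4])]) .no (.hor [.f 1057 3 5] []) (.con 136 [4, 4, 4, 1]) .no)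
  (.br 1202 (.br 1227 (.br 1347 (.br 1346 (.hor [.f 1346 1 5] []) .no (.red [.t 1354 4 2, .f 1091
  3 1, .f 1083 1 3] 152 136 [1] [(152, 136, [1]), (153, 136, [1, 3]), (169, 136, [1, 3, 1])]) .no
  .no (.br 1339 (.red [.f 1339 1 3] 184 136 [1, 1, 1] [(184, 136, [1, 1, 1])]) .no .no (.br 1194
  (.red [.f 1194 1 3, .t 1201 2 4] 150 136 [4, 4, 1] [(150, 136, [4, 4, 1]), (166, 136, [4, 4, 1,
  1])]) .no .no (.br 1337 (.use 67) .no .no (.br 1200 (.con 136 [4, 1, 1, 4]) .no .no .no .no .no)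
  .no (.red [.f 1208 5 1, .f 1208 1 3] 168 136 [1, 1] [(168, 136, [1, 1])])) (.con 136 [4, 4, 1,
  4]) (.red [.f 1065 5 1, .f 1065 1 3] 150 136 [4, 4, 1] [(150, 136, [4, 4, 1])])) .no .no)) .no
  .no (.red [.t 1338 2 3, .t 1217 2 4] 152 136 [1] [(152, 136, [1]), (168, 136, [1, 1])]) .no
  (.red [.f 1218 5 1, .f 1219 1 3, .f 1091 3 1, .f 1083 1 3] 152 136 [1] [(152, 136, [1]), (153,
  136, [1, 3]), (169, 136, [1, 3, 1])])) .no (.hor [.f 1226 3 5] []) .no .no .no) .no .no (.red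
  [.t 1201 2 4] 150 136 [4, 4, 1] [(150, 136, [4, 4, 1])]) (.red [.f 1074 5 1, .f 1073 1 5, .f
  1065 5 3, .f 937 3 1] 134 136 [4, 4] [(134, 136, [4, 4])]) .no) .no

def c11t69 : Tr4 :=
  .br 947 .no .no .no (.use 68) .no .no

def c11t70 : Tr4 :=
  .br 1225 (.hor [.f 1225 1 5] []) .no (.br 1224 (.con 136 [3, 3, 1, 1]) .no (.hor [.f 1224 3 5]
  []) .no .no .no) .no .no (.red [.t 1088 3 1, .f 960 5 1, .f 952 1 3, .f 961 1 5, .f 1089 5 3, .f
  1089 3 1] 136 136 [] [(136, 136, [])])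

def c11t71 : Tr4 :=
  .br 1194 (.red [.f 1194 1 3, .t 1201 2 4] 150 136 [4, 4, 1] [(150, 136, [4, 4, 1]), (166, 136,
  [4, 4, 1, 1])]) .no .no (.red [.t 1185 2 3, .f 1056 3 5, .t 944 1 4] 134 136 [4, 4] [(134, 136,
  [4, 4]), (149, 148, [3])]) (.br 1058 (.hor [.f 1057 1 5] []) .no .no (.con 136 [4, 4, 1, 4, 4])
  (.con 136 [4, 4, 1, 4, 2]) .no) (.red [.f 1065 5 1, .f 1065 1 3] 150 136 [4, 4, 1] [(150, 136,
  [4, 4, 1])])

def c11t72 : Tr4 :=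
  .br 1208 (.red [.f 1208 1 3] 168 136 [1, 1] [(168, 136, [1, 1])]) .no .no (.use 62) (.br 1074
  (.hor [.f 1073 1 5] []) .no .no (.use 66) (.br 1083 (.br 1098 (.red [.t 1098 1 4, .f 1083 1 3]
  152 136 [1] [(152, 136, [1]), (153, 136, [3, 1])]) .no (.use 63) .no .no (.br 827 .no (.hor [.f
  698 1 5] []) (.con 136 [2, 2]) (.br 1064 (.br 1225 (.br 1226 (.hor [.f 1225 1 5] []) .no (.use
  69) .no (.red [.f 1218 5 3, .f 1091 3 1, .f 1083 1 3] 152 136 [1] [(152, 136, [1]), (153, 136,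
  [3, 1])]) .no) .no (.br 1226 (.br 1347 (.br 1339 (.red [.f 1339 1 3, .t 1338 2 3] 168 136 [1, 1]
  [(168, 136, [1, 1]), (184, 136, [1, 1, 1])]) .no .no (.br 1203 .no .no .no (.br 1065 (.hor [.f
  1064 1 5] []) .no .no (.con 136 [4, 4, 1, 4]) (.con 136 [4, 4, 1, 4]) .no) .no (.red [.t 1338 2
  4, .t 1201 2 3, .f 1082 1 5, .t 962 1 4] 136 136 [] [(136, 136, []), (151, 150, [3]), (167, 168,
  [4])])) .no .no) .no (.con 136 [3, 1, 1, 3]) (.red [.t 1338 2 3, .t 1217 2 4] 152 136 [1] [(152,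
  136, [1]), (168, 136, [1, 1])]) .no (.red [.f 1218 5 1, .f 1210 1 3] 168 136 [1, 1] [(168, 136,
  [1, 1])])) .no (.use 69) .no (.red [.f 1218 5 3, .f 1091 3 1, .f 1083 1 3] 152 136 [1] [(152,
  136, [1]), (153, 136, [3, 1])]) .no) .no (.red [.f 1097 5 1, .t 1098 1 4, .f 1083 1 3] 152 136
  [1] [(152, 136, [1]), (153, 136, [3, 1])]) (.red [.t 1088 3 1, .f 960 5 1, .f 952 1 3, .f 961 1
  5, .f 1089 5 3, .f 1089 3 1] 136 136 [] [(136, 136, [])])) (.red [.f 936 1 3, .f 936 3 5] 134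
  136 [4, 4] [(134, 136, [4, 4])]) .no (.br 1065 (.red [.f 1065 1 3] 150 136 [4, 4, 1] [(150, 136,
  [4, 4, 1])]) .no .no (.hor [.f 1056 3 5] []) (.br 1202 (.br 817 .no (.br 936 .no (.br 818 .no
  (.hor [.f 689 1 5] []) .no (.br 947 .no .no .no (.br 938 .no .no .no (.br 1057 (.use 71) (.red
  [.t 929 1 3, .t 938 1 3] 134 136 [4, 4] [(133, 136, [4, 4, 4]), (134, 136, [4, 4])]) .no (.br
  809 .no (.hor [.f 681 1 3, .f 809 3 1, .f 808 1 5] [(102, 104, [4, 4]), (118, 134, [2])]) .no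
  (.br 929 .no .no .no (.red [.f 921 3 1, .t 929 1 3] 133 136 [4, 4, 4] [(132, 136, [4, 4, 4, 4]),
  (133, 136, [4, 4, 4])]) .no (.red [.t 808 1 4, .f 928 3 1] 133 136 [4, 4, 4] [(117, 136, [2, 4,
  4, 4]), (133, 136, [4, 4, 4])])) .no .no) (.red [.f 1057 5 3, .f 930 3 1, .t 938 1 3] 134 136
  [4, 4] [(133, 136, [4, 4, 4]), (134, 136, [4, 4])]) .no) .no .no) .no .no) .no .no) .no (.red
  [.f 928 3 1, .f 936 1 3, .f 936 3 5] 134 136 [4, 4] [(133, 136, [4, 4, 4]), (134, 136, [4, 4])])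
  .no .no) .no (.hor [.f 809 3 1, .f 817 1 3, .f 816 3 5] [(118, 120, [4, 4]), (119, 120, [4])])
  (.hor [.t 953 2 4, .f 816 3 5] [(119, 120, [4])]) .no) .no .no (.red [.t 1201 2 4] 150 136 [4,
  4, 1] [(150, 136, [4, 4, 1])]) (.red [.f 1074 5 1, .f 1073 1 5, .f 1065 5 3, .f 937 3 1] 134 136
  [4, 4] [(134, 136, [4, 4])]) .no) .no) (.red [.t 944 1 4, .t 824 4 1, .f 945 3 5] 134 136 [4, 4]
  [(119, 120, [4]), (134, 136, [4, 4])]) .no) .no .no)) .no .no .no .no .no) .no) .no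

def c11t73 : Tr4 :=
  .br 1211 (.hor [.f 1210 1 5] []) .no .no (.red [.f 1075 3 1] 151 136 [1, 4] [(151, 136, [1,
  4])]) .no .no

def c11t74 : Tr4 :=
  .br 1083 (.red [.t 1098 1 4, .f 1083 1 3] 152 136 [1] [(152, 136, [1]), (153, 136, [1, 3])]) .no
  .no (.use 73) .no .no

def c11t75 : Tr4 :=
  .br 1209 (.hor [.f 1209 1 5] []) .no .no .no .no .no

def c11t76 : Tr4 :=
  .br 1083 (.red [.t 1090 2 3, .f 1090 5 1, .f 1083 1 3, .f 955 3 1, .f 963 1 3] 136 136 [] [(136,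
  136, []), (152, 136, [1])]) .no .no (.use 73) .no .no

def c11t77 : Tr4 :=
  .br 1083 (.red [.t 1201 2 3, .f 1082 1 5, .t 962 1 4] 136 136 [] [(136, 136, []), (151, 150,
  [3])]) .no .no (.con 136 [4, 1, 4]) .no .no

def c11t78 : Tr4 :=
  .br 1074 (.hor [.f 1073 1 5] []) .no .no (.con 136 [1, 4, 4]) (.con 136 [1, 4, 4]) .no

def c11t79 : Tr4 :=
  .br 944 .no .no .no (.hor [.f 936 3 5] []) .no .no

def c11t80 : Tr4 :=
  .br 1057 (.use 71) (.red [.t 929 1 3, .t 938 1 3] 134 136 [4, 4] [(133, 136, [4, 4, 4]), (134,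
  136, [4, 4])]) .no (.br 1336 (.hor [.f 1336 1 5] []) .no .no (.br 1329 (.red [.f 1329 1 3, .f
  1328 3 5, .f 1208 5 1, .f 1208 1 3] 168 136 [1, 1] [(168, 136, [1, 1]), (183, 182, [3])]) .no
  .no (.br 1194 (.red [.f 1194 1 3, .t 1201 2 4] 150 136 [4, 4, 1] [(150, 136, [4, 4, 1]), (166,
  136, [4, 1, 1, 4])]) .no .no (.br 1203 .no .no .no (.br 1193 .no .no .no (.hor [.f 1185 3 5] [])
  .no (.con 136 [4, 4, 1, 1])) .no .no) (.br 1058 (.br 1067 .no .no .no (.red [.t 1058 1 3] 149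
  136 [4, 4, 4, 1] [(149, 136, [4, 4, 4, 1])]) .no .no) .no .no (.hor [.f 1049 3 5] []) (.con 136
  [4, 4, 1, 4, 2]) .no) (.red [.f 1065 5 1, .f 1065 1 3] 150 136 [4, 4, 1] [(150, 136, [4, 4,
  1])])) .no .no) .no .no) (.red [.f 1057 5 3, .f 930 3 1, .t 938 1 3] 134 136 [4, 4] [(133, 136,
  [4, 4, 4]), (134, 136, [4, 4])]) .no

def c11t81 : Tr4 :=
  .br 1336 (.con 136 [1, 3, 1, 4, 1, 4]) .no .no (.hor [.f 1328 3 5] []) .no .no

def c11t82 : Tr4 :=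
  .br 1218 (.red [.f 1210 1 3, .t 1217 2 4] 152 136 [1] [(152, 136, [1]), (168, 136, [1, 1])]) .no
  (.use 61) .no (.br 1098 (.use 74) (.con 136 [3, 3]) (.use 63) .no .no (.br 1083 (.br 1216 (.br
  1208 (.red [.f 1208 1 3] 168 136 [1, 1] [(168, 136, [1, 1])]) .no .no (.use 62) (.br 970 .no
  (.br 1074 (.hor [.f 1073 1 5] []) .no .no (.use 66) (.br 947 .no (.hor [.t 946 3 2, .f 825 1 5]
  [(119, 120, [4])]) .no (.br 1226 (.use 70) .no (.br 1064 (.use 68) (.red [.f 936 1 3, .f 936 3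
  5] 134 136 [4, 4] [(134, 136, [4, 4])]) .no (.br 1065 (.red [.f 1065 1 3] 150 136 [4, 4, 1]
  [(150, 136, [4, 4, 1])]) .no .no (.hor [.f 1056 3 5] []) (.br 1202 (.br 817 .no (.br 1227 (.br
  1347 (.br 1346 (.hor [.f 1346 1 5] []) .no (.red [.t 1354 4 2, .f 1091 3 1, .f 1083 1 3] 152 136
  [1] [(152, 136, [1]), (153, 136, [3, 1]), (169, 136, [3, 1, 1])]) .no .no (.br 1339 (.red [.f
  1339 1 3] 184 136 [1, 1, 1] [(184, 136, [1, 1, 1])]) .no .no (.br 1337 (.br 819 .no (.br 938 .no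
  (.br 818 .no (.hor [.f 689 1 5] []) .no .no .no .no) .no (.use 80) .no .no) .no (.hor [.f 811 3
  1, .t 946 3 2, .f 825 1 5] [(118, 134, [2]), (119, 120, [4])]) .no (.br 938 .no (.hor [.t 938 2
  3, .t 946 3 2, .f 825 1 5] [(118, 134, [2]), (119, 120, [4])]) .no (.use 80) .no .no)) .no .no
  (.use 81) .no (.red [.f 1208 5 1, .f 1208 1 3] 168 136 [1, 1] [(168, 136, [1, 1])])) .no .no))
  .no .no (.red [.t 1338 2 3, .t 1217 2 4] 152 136 [1] [(152, 136, [1]), (168, 136, [1, 1])]) .no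
  (.red [.f 1218 5 1, .f 1219 1 3, .f 1091 3 1, .f 1083 1 3] 152 136 [1] [(152, 136, [1]), (153,
  136, [3, 1]), (169, 136, [3, 1, 1])])) .no (.hor [.f 1226 3 5] []) .no .no .no) .no (.hor [.f
  809 3 1, .f 817 1 3, .f 816 3 5] [(118, 134, [2]), (119, 120, [4])]) (.hor [.t 953 2 4, .f 816 3
  5] [(119, 120, [4])]) .no) .no .no (.red [.t 1201 2 4] 150 136 [4, 4, 1] [(150, 136, [4, 4,
  1])]) (.red [.f 1074 5 1, .f 1073 1 5, .f 1065 5 3, .f 937 3 1] 134 136 [4, 4] [(134, 136, [4,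
  4])]) .no) .no) (.red [.t 944 1 4, .t 824 4 1, .f 945 3 5] 134 136 [4, 4] [(119, 120, [4]),
  (134, 136, [4, 4])]) .no) .no (.red [.f 1218 5 3, .f 1091 3 1, .f 1083 1 3] 152 136 [1] [(152,
  136, [1]), (153, 136, [3, 1])]) (.red [.f 1097 5 1, .t 1098 1 4, .f 1083 1 3] 152 136 [1] [(152,
  136, [1]), (153, 136, [3, 1])])) .no .no) .no) (.hor [.f 969 3 5] []) .no (.use 76) .no) .no)
  .no (.con 136 [3, 1, 1]) (.use 75) .no .no) .no .no (.use 73) .no .no)) .no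

def c11t83 : Tr4 :=
  .br 1097 (.con 136 [3, 3, 1]) .no (.hor [.f 1097 3 5] []) .no .no .no

def c11t84 : Tr4 :=
  .br 1098 (.use 74) .no (.use 83) .no .no (.red [.f 969 5 1, .t 1096 4 2, .f 952 1 3] 136 136 []
  [(136, 136, []), (137, 136, [3])])

def c11t85 : Tr4 :=
  .br 1072 (.hor [.f 1072 1 5] []) (.br 1210 (.br 1218 (.red [.f 1210 1 3, .t 1217 2 4] 152 136
  [1] [(152, 136, [1]), (168, 136, [1, 1])]) .no (.use 61) .no (.use 84) .no) .no (.red [.t 1217 2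
  4] 152 136 [1] [(152, 136, [1])]) (.use 77) (.use 78) (.red [.f 1081 5 1, .f 1081 1 3] 152 136
  [1] [(152, 136, [1])])) .no (.use 79) .no .no

def c11t86 : Tr4 :=
  .br 944 (.hor [.f 944 1 3, .f 937 3 1, .f 944 3 1, .f 944 1 5] [(134, 136, [4, 4])]) .no .no
  (.hor [.f 936 3 5] []) .no .no

def c11l2 : List Tr4 :=
  [c11t59, c11t60, c11t61, c11t62, c11t63, c11t64, c11t65, c11t66, c11t67, c11t68, c11t69, c11t70,
  c11t71, c11t72, c11t73, c11t74, c11t75, c11t76, c11t77, c11t78, c11t79, c11t80, c11t81, c11t82,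
  c11t83, c11t84, c11t85, c11t86]

theorem c11k2 : chkLF ⟨4, 1, 0, true, -8⟩ true 0 c11N 59 c11l2 = true := by decide +kernel

def c11t87 : Tr4 :=
  .br 968 .no (.br 833 .no (.hor [.f 704 1 5] []) (.red [.t 840 1 4, .f 960 3 1, .f 952 1 3] 136
  136 [] [(121, 136, [2, 3]), (136, 136, []), (137, 136, [3])]) .no (.br 824 .no (.red [.f 696 1
  3, .t 824 3 1, .t 961 4 1] 136 136 [] [(104, 136, [2, 2]), (120, 136, [2]), (136, 136, [])]) .no
  (.br 1073 (.br 969 (.red [.t 1096 4 2, .f 952 1 3] 136 136 [] [(136, 136, []), (137, 136, [3])])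
  (.hor [.f 840 1 5] []) (.br 826 .no (.br 1072 (.hor [.f 1072 1 5] []) (.br 1210 (.br 1218 (.red
  [.f 1210 1 3, .t 1217 2 4] 152 136 [1] [(152, 136, [1]), (168, 136, [1, 1])]) .no (.use 61) .no
  (.br 970 (.con 136 [3, 3]) (.br 1216 (.use 72) .no (.con 136 [3, 1, 1]) (.use 75) .no .no) (.hor
  [.f 969 3 5] []) .no (.use 76) .no) .no) .no (.red [.t 1217 2 4] 152 136 [1] [(152, 136, [1])])
  (.use 77) (.use 78) (.red [.f 1081 5 1, .f 1081 1 3] 152 136 [1] [(152, 136, [1])])) .no (.use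
  79) .no .no) .no (.hor [.f 818 3 1, .f 825 1 5] [(119, 120, [4])]) (.br 1072 (.hor [.f 1072 1 5]
  []) (.br 1210 (.use 82) .no (.red [.t 1217 2 4] 152 136 [1] [(152, 136, [1])]) (.use 77) (.use
  78) (.red [.f 1081 5 1, .f 1081 1 3] 152 136 [1] [(152, 136, [1])])) .no (.use 79) .no .no) .no)
  .no (.use 85) .no) .no .no (.use 86) (.red [.f 1073 5 3, .f 946 3 1, .f 954 1 3] 136 136 []
  [(135, 136, [4]), (136, 136, [])]) (.use 44)) .no .no) .no) (.br 969 (.red [.t 1096 4 2, .f 952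
  1 3] 136 136 [] [(136, 136, []), (137, 136, [3])]) (.use 47) (.hor [.f 968 3 5] []) .no (.br
  1098 (.br 1097 (.hor [.f 1097 1 5] []) .no (.br 1073 (.br 824 .no (.use 43) .no (.use 85) .no
  .no) .no .no (.br 824 .no (.use 43) .no (.use 86) .no .no) (.red [.f 1073 5 3, .f 946 3 1, .f
  954 1 3] 136 136 [] [(135, 136, [4]), (136, 136, [])]) (.use 45)) .no .no .no) .no (.use 83) .no
  .no (.use 60)) .no) .no (.red [.f 960 5 3, .f 960 3 1, .f 952 1 3] 136 136 [] [(136, 136, []),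
  (137, 136, [3])]) .no

def c11t88 : Tr4 :=
  .br 1219 (.hor [.f 1218 1 5] []) .no (.hor [.f 1091 3 1, .f 1098 1 5] [(153, 136, [3, 1])]) (.br
  1209 (.con 136 [1, 4, 1]) .no .no (.hor [.f 1201 3 5] []) .no (.con 136 [1, 1])) .no .no

def c11t89 : Tr4 :=
  .br 970 (.con 136 [3, 3]) (.hor [.f 841 1 5] []) (.con 136 [3, 2, 3]) .no (.con 136 [3, 2, 3])
  .no

def c11t90 : Tr4 :=
  .br 968 .no .no (.use 60) .no .no .no

def c11t91 : Tr4 :=
  .br 1083 (.red [.t 1098 1 4, .f 1083 1 3] 152 136 [1] [(152, 136, [1]), (153, 136, [1, 3])]) .no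
  .no (.br 1211 (.br 1209 (.con 136 [1, 4, 1]) .no .no (.hor [.f 1201 3 5] []) .no (.con 136 [1,
  4, 1])) .no .no (.hor [.f 1202 3 5] []) .no .no) .no .no

def c11t92 : Tr4 :=
  .br 1218 (.br 1210 (.red [.f 1210 1 3, .t 1217 2 4] 152 136 [1] [(152, 136, [1]), (168, 136, [1,
  1])]) .no .no (.br 968 .no .no (.br 969 (.red [.t 1096 4 2, .f 952 1 3] 136 136 [] [(136, 136,
  []), (137, 136, [3])]) (.use 47) (.hor [.f 968 3 5] []) .no (.br 1098 (.use 88) .no (.use 83)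
  .no .no (.use 60)) .no) .no (.red [.f 960 5 3, .f 960 3 1, .f 952 1 3] 136 136 [] [(136, 136,
  []), (137, 136, [3])]) .no) (.br 968 .no .no (.br 969 (.red [.t 1096 4 2, .f 952 1 3] 136 136 []
  [(136, 136, []), (137, 136, [3])]) (.use 47) (.hor [.f 968 3 5] []) .no (.br 1098 (.br 1219
  (.hor [.f 1218 1 5] []) .no (.hor [.f 1091 3 1, .f 1098 1 5] [(153, 136, [3, 1])]) .no .no .no)
  .no (.use 83) .no .no (.use 60)) .no) .no (.red [.f 960 5 3, .f 960 3 1, .f 952 1 3] 136 136 []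
  [(136, 136, []), (137, 136, [3])]) .no) (.red [.f 1081 5 1, .f 1081 1 3] 152 136 [1] [(152, 136,
  [1])])) .no (.use 61) (.red [.t 1217 2 4] 152 136 [1] [(152, 136, [1])]) (.br 1210 (.br 969
  (.red [.t 1096 4 2, .f 952 1 3] 136 136 [] [(136, 136, []), (137, 136, [3])]) (.use 89) (.br
  1098 (.use 74) (.con 136 [3, 3]) (.use 63) .no .no (.use 90)) .no (.use 84) (.red [.f 960 5 3,
  .f 960 3 1, .f 952 1 3] 136 136 [] [(136, 136, []), (137, 136, [3])])) .no .no (.br 969 (.red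
  [.t 1096 4 2, .f 952 1 3] 136 136 [] [(136, 136, []), (137, 136, [3])]) (.use 89) (.br 1098
  (.use 91) (.con 136 [3, 3]) (.use 63) .no .no (.use 90)) .no (.br 1098 (.use 91) .no (.use 83)
  .no .no (.red [.f 969 5 1, .t 1096 4 2, .f 952 1 3] 136 136 [] [(136, 136, []), (137, 136,
  [3])])) (.red [.f 960 5 3, .f 960 3 1, .f 952 1 3] 136 136 [] [(136, 136, []), (137, 136,
  [3])])) (.red [.f 1210 5 3, .t 1217 2 4] 152 136 [1] [(152, 136, [1])]) (.red [.f 1081 5 1, .f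
  1081 1 3] 152 136 [1] [(152, 136, [1])])) .no

def c11t93 : Tr4 :=
  .br 1098 (.hor [.f 1097 1 5] []) (.con 136 [3, 3]) (.con 136 [3, 3, 1]) .no .no .no

def c11t94 : Tr4 :=
  .br 1091 (.br 1083 (.red [.f 1083 1 3] 152 136 [1] [(152, 136, [1])]) .no .no (.br 945 (.red [.t
  945 1 3, .f 954 1 3, .f 954 3 5] 136 136 [] [(135, 136, [4]), (136, 136, [])]) (.hor [.f 817 1
  3, .f 945 3 5] [(119, 120, [4])]) .no (.br 832 .no (.br 1074 (.use 39) .no .no (.br 1073 (.use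
  31) .no .no (.hor [.f 1065 3 5] []) .no (.br 1097 (.hor [.f 1089 1 3, .f 1088 3 5] [(153, 137,
  [1])]) (.red [.t 1096 4 2, .f 952 1 3] 136 136 [] [(136, 136, []), (137, 136, [3])]) (.use 45)
  .no (.br 824 .no (.use 46) .no (.use 44) .no .no) .no)) .no (.red [.f 1073 5 3, .f 946 3 1, .f
  954 1 3] 136 136 [] [(135, 136, [4]), (136, 136, [])])) (.br 1210 (.use 38) .no (.red [.t 1217 2
  4] 152 136 [1] [(152, 136, [1])]) (.use 41) (.br 1074 (.use 39) .no .no (.br 1073 (.use 31) .no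
  .no (.hor [.f 1065 3 5] []) .no (.br 968 .no .no (.br 1097 (.hor [.f 1089 1 3, .f 1088 3 5]
  [(153, 137, [1])]) (.red [.t 1096 4 2, .f 952 1 3] 136 136 [] [(136, 136, []), (137, 136, [3])])
  (.br 969 .no (.use 47) (.hor [.f 968 3 5] []) .no (.use 59) .no) .no (.use 60) .no) .no (.red
  [.f 960 5 3, .f 960 3 1, .f 952 1 3] 136 136 [] [(136, 136, []), (137, 136, [3])]) .no)) .no
  (.red [.f 1073 5 3, .f 946 3 1, .f 954 1 3] 136 136 [] [(135, 136, [4]), (136, 136, [])])) (.red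
  [.f 1081 5 1, .f 1081 1 3] 152 136 [1] [(152, 136, [1])])) (.red [.t 824 3 1, .t 961 4 1] 136
  136 [] [(120, 136, [2]), (136, 136, [])]) (.red [.f 832 5 1, .f 825 1 3, .t 961 4 1] 136 136 []
  [(120, 136, [2]), (136, 136, [])]) .no) .no (.br 1074 (.use 39) .no .no (.br 1073 (.use 31) .no
  .no (.hor [.f 1065 3 5] []) .no (.red [.f 944 5 1, .t 945 1 3, .f 954 1 3] 136 136 [] [(135,
  136, [4]), (136, 136, [])])) .no (.red [.f 1073 5 3, .f 946 3 1, .f 954 1 3] 136 136 [] [(135,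
  136, [4]), (136, 136, [])]))) .no .no) .no (.br 945 (.red [.t 945 1 3, .f 954 1 3, .f 954 3 5]
  136 136 [] [(135, 136, [4]), (136, 136, [])]) (.hor [.f 817 1 3, .f 945 3 5] [(119, 120, [4])])
  .no (.br 832 .no (.use 87) (.use 92) (.red [.t 824 3 1, .t 961 4 1] 136 136 [] [(120, 136, [2]),
  (136, 136, [])]) (.red [.f 832 5 1, .f 825 1 3, .t 961 4 1] 136 136 [] [(120, 136, [2]), (136,
  136, [])]) .no) .no (.br 832 .no (.br 824 .no (.br 1097 (.use 93) (.red [.t 1096 4 2, .f 952 1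
  3] 136 136 [] [(136, 136, []), (137, 136, [3])]) (.use 43) .no (.use 46) .no) .no (.hor [.t 824
  4 1, .f 945 3 5] [(119, 120, [4])]) .no .no) (.use 92) (.red [.t 824 3 1, .t 961 4 1] 136 136 []
  [(120, 136, [2]), (136, 136, [])]) (.red [.f 832 5 1, .f 825 1 3, .t 961 4 1] 136 136 [] [(120,
  136, [2]), (136, 136, [])]) .no)) (.red [.f 955 3 1, .f 962 1 5] 136 136 [] [(136, 136, [])])
  .no .no

def c11t95 : Tr4 :=
  .br 1073 (.use 31) .no .no (.hor [.f 1065 3 5] []) .no (.red [.t 952 1 4, .f 952 5 3, .t 961 4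
  1] 136 136 [] [(135, 136, [4]), (136, 136, [])])

def c11t96 : Tr4 :=
  .br 1210 (.br 1218 (.red [.f 1210 1 3, .t 1217 2 4] 152 136 [1] [(152, 136, [1]), (168, 136, [1,
  1])]) .no (.use 61) .no (.use 73) .no) .no (.red [.t 1217 2 4] 152 136 [1] [(152, 136, [1])])
  .no (.red [.t 1074 1 3] 151 136 [1, 4] [(151, 136, [1, 4])]) (.red [.f 1081 5 1, .f 1081 1 3]
  152 136 [1] [(152, 136, [1])])

def c11t97 : Tr4 :=
  .br 1074 (.use 96) (.red [.t 945 3 1, .f 1074 3 5, .t 962 1 4] 136 136 [] [(135, 119, [1]),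
  (136, 136, [])]) .no (.use 95) .no (.red [.f 1073 5 3, .f 1074 3 5, .t 962 1 4] 136 136 []
  [(136, 136, [])])

def c11t98 : Tr4 :=
  .br 817 .no (.red [.f 689 1 3] 103 136 [2, 4, 2] [(103, 136, [2, 4, 2])]) .no (.br 818 .no (.con
  136 [2, 4, 2, 4]) .no (.hor [.f 809 3 5] []) .no .no) (.red [.t 953 4 2, .f 816 1 5] 119 136 [2,
  4] [(119, 136, [2, 4])]) .no

def c11t99 : Tr4 :=
  .br 832 .no (.con 136 [2, 2]) .no (.hor [.f 824 3 5] []) .no .no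

def c11t100 : Tr4 :=
  .br 947 .no (.br 944 .no (.br 825 .no (.use 98) (.use 99) (.red [.f 817 3 1, .f 816 1 5] 119 136
  [2, 4] [(119, 136, [2, 4])]) .no (.red [.t 944 2 3, .f 825 1 5] 119 136 [2, 4] [(119, 136, [2,
  4])])) .no (.con 136 [2, 4, 4]) .no .no) .no (.red [.f 939 3 1, .f 946 1 5] 134 136 [4, 4]
  [(134, 136, [4, 4])]) .no .no

def c11t101 : Tr4 :=
  .br 1336 (.hor [.f 1336 1 5] []) .no .no (.red [.t 1328 3 2, .f 1208 1 3] 168 136 [1, 1] [(167,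
  136, [1, 1, 4]), (168, 136, [1, 1])]) .no .no

def c11t102 : Tr4 :=
  .br 1337 (.use 101) .no (.red [.t 1344 2 4, .f 1201 1 3] 168 136 [1, 1] [(167, 136, [1, 1, 4]),
  (168, 136, [1, 1])]) .no .no (.red [.f 1208 5 1, .f 1208 1 3] 168 136 [1, 1] [(168, 136, [1,
  1])])

def c11t103 : Tr4 :=
  .br 1209 (.hor [.f 1209 1 5] []) .no .no (.red [.t 1201 3 2, .f 1081 1 3] 152 136 [1] [(151,
  136, [4, 1]), (152, 136, [1])]) .no (.br 1216 (.br 1201 (.use 102) .no .no (.hor [.f 1065 3 1,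
  .f 1072 1 5] [(150, 152, [4, 4])]) .no .no) .no (.con 136 [1, 3, 1]) .no .no .no)

def c11t104 : Tr4 :=
  .br 817 .no (.red [.f 689 1 3] 103 136 [2, 4, 2] [(103, 136, [2, 4, 2])]) .no (.br 818 .no (.con
  136 [2, 4, 2, 4]) .no (.hor [.f 809 3 5] []) .no .no) (.red [.t 953 4 2] 119 136 [2, 4] [(119,
  136, [2, 4])]) (.con 136 [2, 4, 4])

def c11t105 : Tr4 :=
  .br 947 .no (.use 104) .no (.hor [.f 938 3 5] []) .no .no

def c11t106 : Tr4 :=
  .br 818 .no (.con 136 [4, 2, 2, 4]) .no (.hor [.f 810 3 5] []) .no .no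

def c11t107 : Tr4 :=
  .br 819 .no (.br 818 .no (.hor [.f 690 1 5] []) .no (.hor [.f 809 3 5] []) .no .no) .no (.use
  29) .no (.red [.f 818 5 1, .f 818 1 3] 119 136 [2, 4] [(119, 136, [2, 4])])

def c11t108 : Tr4 :=
  .br 827 .no (.br 816 .no (.br 819 .no (.red [.f 691 1 3] 103 136 [2, 2, 4] [(103, 136, [2, 2,
  4])]) .no (.use 33) .no (.red [.f 818 5 1, .f 818 1 3] 119 136 [2, 4] [(119, 136, [2, 4])])) .no
  (.red [.f 808 3 1, .t 944 2 3, .f 825 1 5] 119 136 [2, 4] [(118, 136, [2, 4, 4]), (119, 136, [2,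
  4])]) (.red [.f 816 5 3, .f 817 3 1] 119 136 [2, 4] [(119, 136, [2, 4])]) .no) (.con 136 [2, 2])
  (.red [.t 826 1 4, .f 945 3 5] 119 136 [2, 4] [(119, 136, [2, 4])]) .no .no

def c11t109 : Tr4 :=
  .br 825 .no (.br 1226 (.use 70) .no (.br 1201 (.use 102) .no .no (.hor [.f 1065 3 1, .f 1072 1
  5] [(150, 152, [4, 4])]) (.br 827 .no (.br 819 .no (.red [.f 691 1 3] 103 136 [2, 4, 2] [(103,
  136, [2, 4, 2])]) .no (.br 817 .no (.red [.f 689 1 3] 103 136 [2, 4, 2] [(103, 136, [2, 4, 2])])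
  .no (.use 29) (.red [.t 953 4 2] 119 136 [2, 4] [(119, 136, [2, 4])]) (.br 944 .no .no .no (.use
  106) .no .no)) .no (.red [.f 818 5 1, .f 818 1 3] 119 136 [2, 4] [(119, 136, [2, 4])])) (.br 817
  .no (.red [.f 689 1 3] 103 136 [2, 4, 2] [(103, 136, [2, 4, 2])]) .no (.use 107) (.red [.t 953 4
  2] 119 136 [2, 4] [(119, 136, [2, 4])]) (.br 944 .no .no .no (.br 937 .no (.red [.t 936 3 2] 118
  136 [2, 4, 4] [(118, 136, [2, 4, 4])]) .no (.br 819 .no (.br 1227 (.br 1347 (.br 1346 (.hor [.f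
  1346 1 5] []) .no (.red [.t 1354 4 2, .f 1091 3 1, .f 1083 1 3] 152 136 [1] [(152, 136, [1]),
  (153, 136, [3, 1]), (169, 136, [3, 1, 1])]) .no .no (.br 1339 (.red [.f 1339 1 3] 184 136 [1, 1,
  1] [(184, 136, [1, 1, 1])]) .no .no (.br 818 .no (.hor [.f 690 1 5] []) .no (.br 938 (.br 939
  (.hor [.f 938 1 5] []) (.red [.t 810 3 1, .f 818 1 3] 119 136 [2, 4] [(118, 136, [2, 4, 4]),
  (119, 136, [2, 4])]) .no (.br 1067 (.con 136 [4, 1, 1, 4, 2, 2, 2]) .no .no (.hor [.f 931 3 1,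
  .f 938 1 5] [(133, 117, [1])]) .no .no) .no .no) .no .no (.hor [.f 929 3 5] []) (.red [.f 938 5
  3, .f 810 3 1, .f 818 1 3] 119 136 [2, 4] [(118, 136, [2, 4, 4]), (119, 136, [2, 4])]) .no) .no
  .no) .no .no)) .no .no (.red [.t 1338 2 3, .t 1217 2 4] 152 136 [1] [(152, 136, [1]), (168, 136,
  [1, 1])]) .no (.red [.f 1218 5 1, .f 1219 1 3, .f 1091 3 1, .f 1083 1 3] 152 136 [1] [(152, 136,
  [1]), (153, 136, [3, 1]), (169, 136, [3, 1, 1])])) .no (.hor [.f 1226 3 5] []) .no .no .no) .no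
  (.use 106) .no (.red [.f 818 5 1, .f 818 1 3] 119 136 [2, 4] [(119, 136, [2, 4])])) (.br 819 .no
  (.br 818 .no (.hor [.f 690 1 5] []) .no (.red [.f 946 5 1, .t 1073 4 2, .f 810 3 1] 118 136 [2,
  4, 4] [(118, 136, [2, 4, 4]), (134, 136, [4, 4])]) .no .no) .no (.use 106) .no (.red [.f 818 5
  1, .f 818 1 3] 119 136 [2, 4] [(119, 136, [2, 4])])) .no) .no .no)) (.red [.t 826 1 4, .f 945 3
  5] 119 136 [2, 4] [(119, 136, [2, 4])]) .no .no) .no) .no (.red [.f 1218 5 3, .f 1091 3 1, .f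
  1083 1 3] 152 136 [1] [(152, 136, [1]), (153, 136, [3, 1])]) (.red [.f 1097 5 1, .t 1098 1 4, .f
  1083 1 3] 152 136 [1] [(152, 136, [1]), (153, 136, [3, 1])])) (.use 99) (.red [.f 817 3 1, .f
  825 1 5] 119 136 [2, 4] [(119, 136, [2, 4])]) .no (.br 944 .no (.red [.t 944 2 3, .f 825 1 5]
  119 136 [2, 4] [(119, 136, [2, 4])]) .no (.use 108) .no .no)

def c11l3 : List Tr4 :=
  [c11t87, c11t88, c11t89, c11t90, c11t91, c11t92, c11t93, c11t94, c11t95, c11t96, c11t97, c11t98,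
  c11t99, c11t100, c11t101, c11t102, c11t103, c11t104, c11t105, c11t106, c11t107, c11t108,
  c11t109]

theorem c11k3 : chkLF ⟨4, 1, 0, true, -8⟩ true 0 c11N 87 c11l3 = true := by decide +kernel

def c11t110 : Tr4 :=
  .br 946 (.br 1216 (.br 1208 (.red [.f 1208 1 3] 168 136 [1, 1] [(168, 136, [1, 1])]) .no .no .no
  (.br 1075 (.br 1226 (.use 70) .no (.br 1225 (.br 1339 (.br 1347 (.red [.f 1339 1 3, .t 1338 2 3]
  168 136 [1, 1] [(168, 136, [1, 1]), (184, 136, [1, 1, 1])]) .no (.br 1337 (.br 1345 (.red [.f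
  1337 1 3] 184 136 [1, 1, 1] [(184, 136, [1, 1, 1])]) .no .no .no (.con 136 [3, 1, 1, 1]) .no)
  .no (.red [.t 1344 2 4, .f 1209 1 5] 168 136 [1, 1] [(168, 136, [1, 1])]) (.br 1201 .no .no .no
  (.br 1346 (.con 136 [3, 1, 1, 1]) .no (.hor [.f 1346 3 5] []) .no .no (.con 136 [3, 1, 1, 1]))
  (.br 1346 (.con 136 [3, 1, 1, 1]) .no (.hor [.f 1346 3 5] []) .no .no (.con 136 [3, 1, 1, 1]))
  .no) .no (.red [.f 1208 5 1, .f 1208 1 3] 168 136 [1, 1] [(168, 136, [1, 1])])) .no .no (.red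
  [.f 1218 5 1, .f 1210 1 3] 168 136 [1, 1] [(168, 136, [1, 1])])) .no (.red [.t 1338 2 3, .t 1217
  2 4] 152 136 [1] [(152, 136, [1]), (168, 136, [1, 1])]) (.red [.f 1075 1 3, .f 1203 3 1, .f 1210
  1 5, .f 1210 5 3, .t 1217 2 4] 152 136 [1] [(151, 152, [4]), (152, 136, [1]), (167, 168, [4])])
  .no .no) .no (.hor [.f 1225 3 5] []) .no .no (.red [.t 1088 3 1, .f 960 5 1, .f 952 1 3, .f 961
  1 5, .f 1089 5 3, .f 1089 3 1] 136 136 [] [(136, 136, [])])) .no (.red [.f 1218 5 3, .f 1091 3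
  1, .f 1083 1 3] 152 136 [1] [(152, 136, [1]), (153, 136, [3, 1])]) (.red [.f 1097 5 1, .t 1098 1
  4, .f 1083 1 3] 152 136 [1] [(152, 136, [1]), (153, 136, [3, 1])])) (.hor [.f 946 1 5] []) .no
  (.use 100) .no .no) .no) .no (.con 136 [3, 1, 1]) (.red [.t 945 3 1, .f 952 1 5, .t 1216 4 2]
  152 136 [1] [(135, 119, [1]), (152, 136, [1])]) .no .no) (.red [.f 818 1 3] 119 136 [2, 4]
  [(119, 136, [2, 4])]) .no (.br 825 .no (.br 1074 (.use 103) .no .no (.hor [.f 1065 3 5] [])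
  (.use 105) .no) (.use 99) (.red [.f 817 3 1, .f 825 1 5] 119 136 [2, 4] [(119, 136, [2, 4])])
  .no (.br 1074 (.use 103) .no .no (.hor [.f 1065 3 5] []) (.br 944 .no (.red [.t 944 2 3, .f 825
  1 5] 119 136 [2, 4] [(119, 136, [2, 4])]) .no (.br 947 .no (.con 136 [2, 4, 4]) .no (.hor [.f
  938 3 5] []) .no .no) .no .no) .no)) (.br 1074 (.use 103) .no .no (.hor [.f 1065 3 5] []) (.br
  1216 (.br 1209 (.hor [.f 1209 1 5] []) .no .no (.br 1208 (.red [.f 1208 1 3] 168 136 [1, 1]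
  [(168, 136, [1, 1])]) .no .no .no .no .no) .no (.use 109)) .no (.con 136 [3, 1, 1]) (.red [.f
  946 5 1, .t 945 3 1, .f 952 1 5, .t 1216 4 2] 152 136 [1] [(135, 119, [1]), (152, 136, [1])])
  .no .no) .no) .no

def c11t111 : Tr4 :=
  .br 1075 (.con 136 [4, 4, 1]) (.hor [.f 938 3 1, .f 946 1 5] [(134, 150, [2])]) .no (.hor [.f
  1066 3 5] []) .no .no

def c11t112 : Tr4 :=
  .br 819 .no (.red [.f 691 1 3] 103 136 [2, 4, 2] [(103, 136, [2, 4, 2])]) .no (.br 817 .no (.red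
  [.f 689 1 3] 103 136 [2, 4, 2] [(103, 136, [2, 4, 2])]) .no (.use 29) (.red [.t 953 4 2] 119 136
  [2, 4] [(119, 136, [2, 4])]) (.br 944 .no .no .no (.use 106) .no .no)) .no (.red [.f 818 5 1, .f
  818 1 3] 119 136 [2, 4] [(119, 136, [2, 4])])

def c11t113 : Tr4 :=
  .br 1346 (.con 136 [1, 1, 3, 1]) .no (.hor [.f 1346 3 5] []) .no .no .no

def c11t114 : Tr4 :=
  .br 1345 (.use 113) .no .no (.red [.t 1344 2 4, .f 1209 1 5] 168 136 [1, 1] [(168, 136, [1,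
  1])]) (.con 136 [1, 3, 1, 1]) .no

def c11t115 : Tr4 :=
  .br 1226 (.use 70) .no (.br 946 (.br 1075 (.con 136 [4, 4, 1]) (.hor [.f 946 1 5] []) .no (.br
  947 .no (.br 944 .no (.use 98) .no (.con 136 [2, 4, 4]) .no .no) .no (.red [.f 939 3 1, .f 946 1
  5] 134 136 [4, 4] [(134, 136, [4, 4])]) .no .no) .no .no) (.red [.f 818 1 3] 119 136 [2, 4]
  [(119, 136, [2, 4])]) .no (.br 1074 (.hor [.f 1073 1 5] []) .no .no (.use 111) (.use 105) .no)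
  (.br 1074 (.hor [.f 1073 1 5] []) .no .no (.br 1075 (.con 136 [4, 4, 1]) .no .no (.hor [.f 1066
  3 5] []) .no .no) (.br 827 .no (.use 112) (.br 817 .no (.red [.f 689 1 3] 103 136 [2, 4, 2]
  [(103, 136, [2, 4, 2])]) .no (.use 107) (.red [.t 953 4 2] 119 136 [2, 4] [(119, 136, [2, 4])])
  (.br 944 .no .no .no (.br 1225 (.br 1347 (.br 1339 (.red [.f 1339 1 3, .t 1338 2 3] 168 136 [1,
  1] [(168, 136, [1, 1]), (184, 136, [1, 1, 1])]) .no .no (.br 1202 (.br 1200 (.con 136 [4, 1, 1,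
  4]) .no .no (.red [.f 1064 3 1, .f 1072 1 5] 150 136 [4, 4, 1] [(150, 136, [4, 4, 1])]) .no .no)
  .no .no (.br 1065 (.red [.f 1065 1 3, .f 1064 3 5] 150 136 [4, 4, 1] [(150, 136, [4, 4, 1])])
  (.br 1066 .no (.hor [.f 937 1 5] []) .no (.br 1067 (.red [.t 1194 3 2, .f 1073 1 5] 150 136 [4,
  4, 1] [(150, 136, [4, 4, 1])]) (.con 136 [4, 4, 4]) .no (.hor [.f 1058 3 5] []) .no .no) (.red
  [.f 1066 5 3, .f 1066 3 1] 150 136 [4, 4, 1] [(150, 136, [4, 4, 1])]) .no) .no (.br 1066 .no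
  (.br 937 .no (.red [.t 936 3 2] 118 136 [2, 4, 4] [(118, 136, [2, 4, 4])]) .no (.red [.f 929 3
  1, .f 937 1 5, .t 1201 2 4] 150 136 [4, 4, 1] [(133, 117, [1]), (150, 136, [4, 4, 1])]) .no .no)
  .no (.hor [.f 1057 3 5] []) (.red [.f 1066 5 3, .f 1066 3 1] 150 136 [4, 4, 1] [(150, 136, [4,
  4, 1])]) .no) (.red [.t 1201 2 4, .f 1064 3 5] 150 136 [4, 4, 1] [(150, 136, [4, 4, 1])]) .no)
  (.red [.t 1338 2 4, .t 1201 2 3, .f 1082 1 5, .t 962 1 4] 136 136 [] [(136, 136, []), (151, 150,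
  [3]), (167, 168, [4])]) .no) .no .no) .no (.use 114) (.red [.t 1338 2 3, .t 1217 2 4] 152 136
  [1] [(152, 136, [1]), (168, 136, [1, 1])]) .no (.red [.f 1218 5 1, .f 1210 1 3] 168 136 [1, 1]
  [(168, 136, [1, 1])])) .no (.hor [.f 1225 3 5] []) .no .no (.red [.t 1088 3 1, .f 960 5 1, .f
  952 1 3, .f 961 1 5, .f 1089 5 3, .f 1089 3 1] 136 136 [] [(136, 136, [])])) .no .no)) (.red [.t
  826 1 4, .f 945 3 5] 119 136 [2, 4] [(119, 136, [2, 4])]) .no .no) .no) .no) .no (.red [.f 1218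
  5 3, .f 1091 3 1, .f 1083 1 3] 152 136 [1] [(152, 136, [1]), (153, 136, [3, 1])]) (.red [.f 1097
  5 1, .t 1098 1 4, .f 1083 1 3] 152 136 [1] [(152, 136, [1]), (153, 136, [3, 1])])

def c11t116 : Tr4 :=
  .br 1339 (.red [.f 1339 1 3] 184 136 [1, 1, 1] [(184, 136, [1, 1, 1])]) .no .no (.br 1067 (.con
  136 [4, 1, 1, 4, 2, 3, 3]) (.hor [.f 939 1 3, .f 938 3 5] [(134, 152, [4, 2, 4])]) .no (.hor [.f
  1058 3 5] []) .no .no) .no .no

def c11t117 : Tr4 :=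
  .br 818 .no (.br 819 .no (.hor [.f 690 1 5] []) (.red [.t 946 4 1, .t 826 1 4] 119 136 [2, 4]
  [(119, 136, [2, 4]), (134, 118, [1])]) (.con 136 [2, 4, 2, 4]) .no .no) .no (.hor [.f 809 3 5]
  []) (.red [.t 946 4 1, .f 818 5 1, .f 818 1 3] 119 136 [2, 4] [(119, 136, [2, 4]), (134, 118,
  [1])]) .no

def c11t118 : Tr4 :=
  .br 1339 (.red [.f 1339 1 3] 184 136 [4, 1, 3, 1, 1] [(184, 136, [1, 1, 1])]) .no .no (.con 136
  [4, 1, 1, 1]) .no .no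

def c11t119 : Tr4 :=
  .br 1200 (.br 1337 (.br 1066 (.hor [.f 1065 1 5] []) .no .no (.use 116) (.use 117) .no) .no
  (.red [.t 1344 2 4, .f 1209 1 5] 168 136 [1, 1] [(168, 136, [1, 1])]) (.use 118) .no (.red [.f
  1208 5 1, .f 1208 1 3] 168 136 [1, 1] [(168, 136, [1, 1])])) .no .no (.hor [.f 1064 3 1, .f 1064
  1 5] [(150, 136, [4, 4, 1])]) .no .no

def c11t120 : Tr4 :=
  .br 1339 (.red [.f 1339 1 3, .t 1338 2 3] 168 136 [1, 1] [(168, 136, [1, 1]), (184, 136, [1, 1,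
  1])]) .no .no (.br 1336 (.br 1337 (.hor [.f 1336 1 5] []) .no (.red [.f 1200 5 3, .f 1200 3 5,
  .t 1344 2 4, .f 1209 1 5] 168 136 [1, 1] [(168, 136, [1, 1])]) (.con 136 [4, 1, 1, 1]) .no .no)
  .no .no (.hor [.f 1200 5 3, .f 1200 3 1, .f 1202 1 3, .f 1201 3 5, .f 1330 3 5] []) (.red [.f
  1208 5 1, .f 1208 1 3] 168 136 [1, 1] [(168, 136, [1, 1])]) .no) .no .no

def c11t121 : Tr4 :=
  .br 1336 (.hor [.f 1336 1 5] []) .no .no (.red [.f 1200 5 3, .f 1200 3 1, .f 1208 1 3] 168 136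
  [1, 1] [(167, 136, [1, 1, 4]), (168, 136, [1, 1])]) .no .no

def c11t122 : Tr4 :=
  .br 1339 (.red [.f 1339 1 3, .t 1338 2 3] 168 136 [1, 1] [(168, 136, [1, 1]), (184, 136, [1, 1,
  1])]) .no .no (.br 1337 (.use 121) .no (.red [.f 1200 5 3, .f 1200 3 5, .t 1344 2 4, .f 1209 1
  5] 168 136 [1, 1] [(168, 136, [1, 1])]) (.br 1336 (.con 136 [4, 1, 1, 1]) .no .no (.red [.f 1200
  5 3, .f 1200 3 1, .f 1208 1 3] 168 136 [1, 1] [(167, 136, [4, 1, 1]), (168, 136, [1, 1])]) .no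
  .no) .no (.red [.f 1208 5 1, .f 1208 1 3] 168 136 [1, 1] [(168, 136, [1, 1])])) .no .no

def c11t123 : Tr4 :=
  .br 1202 (.use 120) .no .no (.hor [.f 1073 5 3, .f 1073 3 5, .t 1193 2 3, .f 1064 3 5] [(150,
  136, [4, 1, 4])]) (.use 122) .no

def c11t124 : Tr4 :=
  .br 1225 (.br 1347 (.br 1201 (.use 102) .no .no .no (.use 119) (.use 123)) .no (.use 114) (.red
  [.t 1338 2 3, .t 1217 2 4] 152 136 [1] [(152, 136, [1]), (168, 136, [1, 1])]) .no (.red [.f 1218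
  5 1, .f 1210 1 3] 168 136 [1, 1] [(168, 136, [1, 1])])) .no (.hor [.f 1225 3 5] []) .no .no
  (.red [.t 1088 3 1, .f 960 5 1, .f 952 1 3, .f 961 1 5, .f 1089 5 3, .f 1089 3 1] 136 136 []
  [(136, 136, [])])

def c11t125 : Tr4 :=
  .br 818 .no (.br 819 .no (.hor [.f 690 1 5] []) (.red [.t 1193 3 2, .f 938 3 1, .f 946 1 5, .t
  826 1 4] 119 136 [2, 4] [(119, 136, [2, 4]), (134, 118, [1]), (150, 119, [1, 1, 4])]) .no .no
  .no) .no (.hor [.f 809 3 5] []) (.red [.t 938 3 2, .f 818 1 3] 119 136 [2, 4] [(118, 136, [2, 4,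
  4]), (119, 136, [2, 4])]) .no

def c11t126 : Tr4 :=
  .br 1067 (.hor [.f 1066 1 5] []) (.hor [.f 939 1 3, .f 938 3 5] [(134, 149, [2, 3])]) .no (.br
  939 .no (.use 125) .no (.hor [.f 931 3 1, .f 939 1 3, .f 938 3 5] [(133, 149, [2]), (134, 149,
  [2, 3])]) .no .no) .no .no

def c11t127 : Tr4 :=
  .br 1336 (.hor [.f 1336 1 5] []) .no .no .no .no .no

def c11t128 : Tr4 :=
  .br 1193 (.br 1336 (.hor [.f 1336 1 5] []) .no .no (.br 1329 (.red [.f 1329 1 3, .f 1328 3 5, .f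
  1208 5 1, .f 1208 1 3] 168 136 [1, 1] [(168, 136, [1, 1]), (183, 184, [4])]) .no .no .no (.red
  [.f 1201 5 1, .t 1328 3 2, .f 1208 1 3] 168 136 [1, 1] [(167, 136, [4, 1, 1]), (168, 136, [1,
  1])]) .no) .no .no) .no .no (.hor [.f 1064 3 1, .f 1057 3 1, .f 1064 1 3, .f 1065 1 5] [(149,
  136, [4, 4, 4, 1])]) .no .no

def c11t129 : Tr4 :=
  .br 1339 (.red [.f 1339 1 3] 184 136 [1, 1, 1] [(184, 136, [1, 1, 1])]) .no .no (.br 1227 (.use
  81) .no (.hor [.f 1226 3 5] []) .no .no .no) .no .no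

def c11t130 : Tr4 :=
  .br 1066 (.br 1225 (.br 1347 (.br 1337 (.br 1201 (.use 101) .no .no (.use 126) (.br 1200 (.use
  127) .no .no (.use 128) .no .no) (.use 121)) .no (.red [.t 1344 2 4, .f 1209 1 5] 168 136 [1, 1]
  [(168, 136, [1, 1])]) (.br 1200 (.use 118) .no .no (.br 1201 .no .no .no (.use 126) (.use 129)
  .no) (.br 1202 (.use 120) .no .no .no (.use 122) .no) .no) .no (.red [.f 1208 5 1, .f 1208 1 3]
  168 136 [1, 1] [(168, 136, [1, 1])])) .no (.use 114) (.red [.t 1338 2 3, .t 1217 2 4] 152 136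
  [1] [(152, 136, [1]), (168, 136, [1, 1])]) .no (.red [.f 1218 5 1, .f 1210 1 3] 168 136 [1, 1]
  [(168, 136, [1, 1])])) .no (.hor [.f 1225 3 5] []) .no .no (.red [.t 1088 3 1, .f 960 5 1, .f
  952 1 3, .f 961 1 5, .f 1089 5 3, .f 1089 3 1] 136 136 [] [(136, 136, [])])) .no .no (.hor [.f
  1057 3 5] []) (.use 117) .no

def c11t131 : Tr4 :=
  .br 939 (.hor [.f 939 1 3, .f 938 3 5] [(134, 118, [1])]) (.hor [.f 936 3 1, .f 929 3 1, .f 936
  1 5] [(133, 118, [4, 1]), (134, 118, [1])]) .no (.hor [.f 936 3 1, .f 929 3 1, .f 936 1 5]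
  [(133, 117, [1]), (134, 118, [1])]) .no .no

def c11t132 : Tr4 :=
  .br 818 .no (.hor [.f 690 1 5] []) .no (.red [.f 938 5 3, .f 810 3 1, .f 818 1 3] 119 136 [2, 4]
  [(118, 136, [2, 4, 4]), (119, 136, [2, 4])]) .no .no

def c11t133 : Tr4 :=
  .br 938 .no (.br 939 .no (.hor [.f 810 1 5] []) .no (.con 136 [2, 4, 4, 4]) .no .no) .no (.red
  [.f 930 3 1, .f 937 1 5] 133 136 [4, 4, 4] [(133, 136, [4, 4, 4])]) (.br 819 .no (.use 132) .no
  (.use 106) .no (.red [.f 938 5 3, .f 938 3 5, .f 818 5 1, .f 818 1 3] 119 136 [2, 4] [(119, 136,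
  [2, 4])])) .no

def c11t134 : Tr4 :=
  .br 1226 (.use 70) .no (.br 817 .no (.red [.f 689 1 3] 103 136 [2, 4, 2] [(103, 136, [2, 4,
  2])]) .no (.use 107) (.red [.t 953 4 2] 119 136 [2, 4] [(119, 136, [2, 4])]) (.br 944 .no .no
  .no (.br 1225 (.br 1347 (.br 1075 (.br 1339 (.red [.f 1339 1 3, .t 1338 2 3] 168 136 [1, 1]
  [(168, 136, [1, 1]), (184, 136, [1, 1, 1])]) .no .no (.red [.f 1075 1 3, .f 1203 3 1, .f 1210 1
  5, .f 1210 5 3, .t 1217 2 4] 152 136 [1] [(151, 150, [3]), (152, 136, [1]), (167, 168, [4])])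
  .no .no) .no .no (.br 1337 (.br 1200 (.use 127) .no .no (.br 1201 (.use 101) .no .no (.hor [.f
  1192 3 5] []) (.br 1065 (.hor [.f 1064 3 1, .f 1064 1 5] [(150, 136, [4, 4, 1])]) (.br 1066
  (.hor [.f 1064 3 1, .f 1073 5 1, .f 1066 1 3, .f 1066 3 5, .f 1072 1 5] []) (.hor [.f 937 1 5]
  []) .no (.use 133) .no .no) .no (.br 1066 (.use 128) (.br 937 .no (.red [.t 936 3 2] 118 136 [2,
  4, 4] [(118, 136, [2, 4, 4])]) .no (.hor [.f 936 3 1, .f 929 3 1, .f 936 1 3, .f 937 1 5] [(133,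
  118, [1, 4])]) .no .no) .no (.hor [.f 1057 3 5] []) .no .no) (.hor [.f 1065 5 3, .f 1064 3 5, .f
  1066 3 5] []) .no) .no) (.use 121) .no) .no (.red [.t 1344 2 4, .f 1209 1 5] 168 136 [1, 1]
  [(168, 136, [1, 1])]) (.br 1200 (.use 118) .no .no (.br 1201 .no .no .no (.hor [.f 1192 3 5] [])
  (.use 129) .no) (.br 1202 (.use 120) .no .no (.br 1065 (.use 123) (.br 1066 .no (.hor [.f 937 1
  5] []) .no (.use 133) .no .no) .no (.br 1066 .no (.br 937 .no (.red [.t 936 3 2] 118 136 [2, 4,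
  4] [(118, 136, [2, 4, 4])]) .no (.hor [.f 936 3 1, .f 929 3 1, .f 936 1 3, .f 937 1 5] [(133,
  118, [1, 4])]) .no .no) .no (.hor [.f 1057 3 5] []) .no .no) (.hor [.f 1065 5 3, .f 1064 3 5, .f
  1066 3 5] []) .no) (.use 122) .no) .no) .no (.red [.f 1208 5 1, .f 1208 1 3] 168 136 [1, 1]
  [(168, 136, [1, 1])])) .no .no) .no (.use 114) (.red [.t 1338 2 3, .t 1217 2 4] 152 136 [1]
  [(152, 136, [1]), (168, 136, [1, 1])]) .no (.red [.f 1218 5 1, .f 1210 1 3] 168 136 [1, 1]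
  [(168, 136, [1, 1])])) .no (.hor [.f 1225 3 5] []) .no .no (.red [.t 1088 3 1, .f 960 5 1, .f
  952 1 3, .f 961 1 5, .f 1089 5 3, .f 1089 3 1] 136 136 [] [(136, 136, [])])) .no .no)) .no (.red
  [.f 1218 5 3, .f 1091 3 1, .f 1083 1 3] 152 136 [1] [(152, 136, [1]), (153, 136, [3, 1])]) (.red
  [.f 1097 5 1, .t 1098 1 4, .f 1083 1 3] 152 136 [1] [(152, 136, [1]), (153, 136, [3, 1])])

def c11l4 : List Tr4 :=
  [c11t110, c11t111, c11t112, c11t113, c11t114, c11t115, c11t116, c11t117, c11t118, c11t119,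
  c11t120, c11t121, c11t122, c11t123, c11t124, c11t125, c11t126, c11t127, c11t128, c11t129,
  c11t130, c11t131, c11t132, c11t133, c11t134]

theorem c11k4 : chkLF ⟨4, 1, 0, true, -8⟩ true 0 c11N 110 c11l4 = true := by decide +kernel

def c11t135 : Tr4 :=
  .br 946 .no (.red [.f 818 1 3] 119 136 [2, 4] [(119, 136, [2, 4])]) .no (.br 947 (.br 1226 (.use
  70) .no (.br 1065 (.br 944 .no (.br 817 .no (.red [.f 689 1 3, .f 817 3 1] 119 136 [2, 4] [(103,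
  136, [2, 4, 2]), (119, 136, [2, 4])]) .no (.use 124) (.red [.t 953 4 2, .f 816 1 5] 119 136 [2,
  4] [(119, 136, [2, 4])]) .no) .no (.br 817 .no (.red [.f 689 1 3, .f 817 3 1] 119 136 [2, 4]
  [(103, 136, [2, 4, 2]), (119, 136, [2, 4])]) .no (.use 124) (.red [.t 953 4 2] 119 136 [2, 4]
  [(119, 136, [2, 4])]) (.br 1225 (.br 1347 (.br 1201 (.use 102) .no .no .no (.br 1200 (.br 1337
  (.br 1066 (.hor [.f 1065 1 5] []) .no .no (.use 116) (.br 818 .no (.br 819 .no (.hor [.f 690 1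
  5] []) (.red [.t 946 4 1, .t 826 1 4] 119 136 [2, 4] [(119, 136, [2, 4]), (134, 118, [1])])
  (.con 136 [2, 4, 2, 4]) .no .no) .no (.red [.f 810 3 1, .f 818 1 3] 119 136 [2, 4] [(118, 136,
  [2, 4, 4]), (119, 136, [2, 4])]) (.red [.t 946 4 1, .f 818 5 1, .f 818 1 3] 119 136 [2, 4]
  [(119, 136, [2, 4]), (134, 118, [1])]) .no) .no) .no (.red [.t 1344 2 4, .f 1209 1 5] 168 136
  [1, 1] [(168, 136, [1, 1])]) (.use 118) .no (.red [.f 1208 5 1, .f 1208 1 3] 168 136 [1, 1]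
  [(168, 136, [1, 1])])) .no .no (.hor [.f 1064 3 1, .f 1064 1 5] [(150, 136, [4, 4, 1])]) .no
  .no) (.use 123)) .no (.use 114) (.red [.t 1338 2 3, .t 1217 2 4] 152 136 [1] [(152, 136, [1]),
  (168, 136, [1, 1])]) .no (.red [.f 1218 5 1, .f 1210 1 3] 168 136 [1, 1] [(168, 136, [1, 1])]))
  .no (.hor [.f 1225 3 5] []) .no .no (.red [.t 1088 3 1, .f 960 5 1, .f 952 1 3, .f 961 1 5, .f
  1089 5 3, .f 1089 3 1] 136 136 [] [(136, 136, [])]))) .no .no) (.hor [.t 937 1 3, .f 946 1 5]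
  [(134, 119, [1, 4])]) .no (.br 944 .no (.br 817 .no (.red [.f 689 1 3, .f 817 3 1] 119 136 [2,
  4] [(103, 136, [2, 4, 2]), (119, 136, [2, 4])]) .no (.use 130) (.red [.t 953 4 2, .f 816 1 5]
  119 136 [2, 4] [(119, 136, [2, 4])]) .no) .no (.br 817 .no (.red [.f 689 1 3, .f 817 3 1] 119
  136 [2, 4] [(103, 136, [2, 4, 2]), (119, 136, [2, 4])]) .no (.use 130) (.red [.t 953 4 2] 119
  136 [2, 4] [(119, 136, [2, 4])]) (.br 937 .no (.red [.t 936 3 2] 118 136 [2, 4, 4] [(118, 136,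
  [2, 4, 4])]) .no (.use 131) .no .no)) .no .no) (.hor [.f 1065 5 3, .f 938 3 1, .f 946 1 5, .f
  1064 3 5] [(134, 119, [1, 4])]) .no) .no (.red [.f 1218 5 3, .f 1091 3 1, .f 1083 1 3] 152 136
  [1] [(152, 136, [1]), (153, 136, [3, 1])]) (.red [.f 1097 5 1, .t 1098 1 4, .f 1083 1 3] 152 136
  [1] [(152, 136, [1]), (153, 136, [3, 1])])) (.use 104) .no (.hor [.f 938 3 5] []) .no .no) (.br
  827 .no (.use 112) (.use 134) (.red [.t 826 1 4, .f 945 3 5] 119 136 [2, 4] [(119, 136, [2,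
  4])]) .no .no) .no

def c11t136 : Tr4 :=
  .br 817 .no (.hor [.f 688 1 5] []) .no .no (.red [.t 953 4 2, .f 809 1 3, .f 936 3 5] 119 136
  [4, 2] [(118, 136, [4, 2, 4]), (119, 136, [4, 2])]) .no

def c11t137 : Tr4 :=
  .br 825 .no (.br 1073 (.br 1216 (.br 1208 (.red [.f 1208 1 3] 168 136 [1, 1] [(168, 136, [1,
  1])]) .no .no (.use 62) (.use 115) .no) .no (.con 136 [3, 1, 1]) (.use 75) .no .no) .no .no
  (.hor [.f 1064 3 5] []) (.br 1209 (.hor [.f 1209 1 5] []) .no .no (.red [.f 1073 5 3, .f 1073 3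
  1, .f 1081 1 3] 152 136 [1] [(151, 136, [4, 1]), (152, 136, [1])]) .no (.br 1216 (.use 135) .no
  (.con 136 [3, 1, 1]) .no .no .no)) .no) (.use 99) (.red [.f 817 3 1, .f 825 1 5] 119 136 [2, 4]
  [(119, 136, [2, 4])]) .no (.br 944 .no (.red [.t 944 2 3, .f 825 1 5] 119 136 [2, 4] [(119, 136,
  [2, 4])]) .no (.br 946 (.br 1073 (.br 1075 (.con 136 [4, 4, 1]) (.hor [.f 946 1 5] []) .no (.br
  947 .no (.con 136 [2, 4, 4]) .no (.red [.f 939 3 1, .f 946 1 5] 134 136 [4, 4] [(134, 136, [4,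
  4])]) .no .no) .no .no) .no .no (.hor [.f 1064 3 5] []) .no .no) (.red [.f 818 1 3] 119 136 [2,
  4] [(119, 136, [2, 4])]) .no (.br 816 .no (.br 947 (.br 1073 (.br 1074 (.hor [.f 1073 1 5] [])
  .no .no (.use 111) .no .no) .no .no (.hor [.f 1064 3 5] []) (.br 1209 (.hor [.f 1209 1 5] [])
  .no .no (.red [.f 1073 5 3, .f 1073 3 1, .f 1081 1 3] 152 136 [1] [(151, 136, [4, 1]), (152,
  136, [1])]) .no (.br 1216 (.br 1226 (.use 70) .no (.br 1065 (.br 1225 (.br 1347 (.br 1201 (.use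
  102) .no .no .no (.br 817 .no (.hor [.f 688 1 5] []) .no (.use 119) (.red [.t 953 4 2] 119 136
  [2, 4] [(119, 136, [2, 4])]) .no) (.use 123)) .no (.use 114) (.red [.t 1338 2 3, .t 1217 2 4]
  152 136 [1] [(152, 136, [1]), (168, 136, [1, 1])]) .no (.red [.f 1218 5 1, .f 1210 1 3] 168 136
  [1, 1] [(168, 136, [1, 1])])) .no (.hor [.f 1225 3 5] []) .no .no (.red [.t 1088 3 1, .f 960 5
  1, .f 952 1 3, .f 961 1 5, .f 1089 5 3, .f 1089 3 1] 136 136 [] [(136, 136, [])])) (.hor [.f 936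
  3 1, .f 936 1 5] [(134, 118, [1])]) .no (.br 937 .no (.use 136) .no (.use 131) .no .no) (.hor
  [.f 1065 5 3, .f 938 3 1, .f 946 1 5, .f 1064 3 5] [(134, 118, [1])]) .no) .no (.red [.f 1218 5
  3, .f 1091 3 1, .f 1083 1 3] 152 136 [1] [(152, 136, [1]), (153, 136, [3, 1])]) (.red [.f 1097 5
  1, .t 1098 1 4, .f 1083 1 3] 152 136 [1] [(152, 136, [1]), (153, 136, [3, 1])])) .no (.con 136
  [3, 1, 1]) .no .no .no)) .no) (.con 136 [2, 4, 4]) .no (.hor [.f 938 3 5] []) .no .no) .no (.red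
  [.f 808 3 1, .t 944 2 3, .f 825 1 5] 119 136 [2, 4] [(118, 136, [2, 4, 4]), (119, 136, [2, 4])])
  (.red [.f 816 5 3, .f 817 3 1] 119 136 [2, 4] [(119, 136, [2, 4])]) .no) (.use 108) .no) .no
  .no)

def c11t138 : Tr4 :=
  .br 1219 (.hor [.f 1218 1 5] []) .no (.red [.f 1091 3 1, .f 1083 1 3] 152 136 [1] [(152, 136,
  [1]), (153, 136, [1, 3])]) .no .no .no

def c11t139 : Tr4 :=
  .br 1218 (.use 138) .no (.use 61) .no (.red [.f 1075 1 3, .f 1202 3 5, .f 1210 5 3, .t 1217 2 4]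
  152 136 [1] [(151, 152, [4]), (152, 136, [1])]) .no

def c11t140 : Tr4 :=
  .br 1209 (.con 136 [1, 1, 4]) .no .no (.hor [.f 1200 3 5] []) .no .no

def c11t141 : Tr4 :=
  .br 1200 (.br 1201 (.hor [.f 1200 1 5] []) .no .no .no .no .no) .no .no (.hor [.f 1064 3 1, .f
  1064 1 5] [(150, 136, [4, 1, 4])]) (.red [.f 1200 5 3, .f 1201 3 5, .f 1081 5 1, .f 1081 1 3]
  152 136 [1] [(152, 136, [1])]) .no

def c11t142 : Tr4 :=
  .br 1336 (.hor [.f 1336 1 5] []) .no .no (.hor [.t 1328 3 2, .f 1201 3 5] [(167, 136, [1, 1,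
  4])]) .no .no

def c11t143 : Tr4 :=
  .br 817 .no (.red [.f 689 1 3, .f 817 3 1] 119 136 [4, 2] [(103, 136, [4, 2, 2]), (119, 136, [4,
  2])]) .no .no (.red [.t 953 4 2, .f 809 1 3, .f 936 3 5] 119 136 [4, 2] [(118, 136, [4, 2, 4]),
  (119, 136, [4, 2])]) (.red [.t 936 3 2] 118 136 [4, 2, 4] [(118, 136, [4, 2, 4])])

def c11t144 : Tr4 :=
  .br 825 .no (.br 947 (.br 1208 (.red [.f 1208 1 3] 168 136 [1, 1] [(168, 136, [1, 1])]) .no .no
  (.use 140) (.br 1072 (.red [.f 1073 5 3, .t 1072 1 3, .f 1081 1 3] 152 136 [1] [(151, 136, [4,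
  1]), (152, 136, [1])]) (.red [.f 944 1 3, .f 944 3 5, .f 952 5 3, .t 961 4 1] 136 136 [] [(135,
  119, [1]), (136, 136, [])]) .no (.br 1065 (.use 141) (.hor [.t 937 1 3, .f 946 1 5] [(134, 119,
  [1, 4])]) .no (.br 944 .no (.br 817 .no (.red [.f 689 1 3, .f 817 3 1] 119 136 [2, 4] [(103,
  136, [2, 4, 2]), (119, 136, [2, 4])]) .no (.br 1066 (.br 1201 (.br 1337 (.use 142) .no (.red [.t
  1344 2 4, .f 1201 1 3] 168 136 [1, 1] [(167, 136, [4, 1, 1]), (168, 136, [1, 1])]) .no (.red [.t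
  1201 1 3] 167 136 [4, 1, 1] [(167, 136, [4, 1, 1])]) (.red [.f 1208 5 1, .f 1201 1 3] 167 136
  [4, 1, 1] [(167, 136, [4, 1, 1])])) .no .no (.br 939 (.hor [.f 939 1 3, .f 938 3 5] [(134, 119,
  [4, 1])]) (.use 125) .no (.br 1067 (.hor [.f 1066 1 5] []) .no .no (.hor [.f 931 3 1, .f 939 1
  3, .f 938 3 5] [(133, 149, [2]), (134, 119, [4, 1])]) .no .no) .no .no) .no (.red [.f 1200 5 3,
  .f 1201 3 5, .f 1081 5 1, .f 1081 1 3] 152 136 [1] [(152, 136, [1])])) .no .no (.hor [.f 1057 3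
  5] []) (.use 117) .no) (.red [.t 953 4 2, .f 816 1 5] 119 136 [2, 4] [(119, 136, [2, 4])]) .no)
  .no (.br 1066 (.br 1067 (.hor [.f 1066 1 5] []) (.hor [.f 939 1 3, .f 938 3 5] [(134, 118,
  [1])]) .no (.br 937 .no (.use 143) .no (.hor [.f 936 3 1, .f 929 3 1, .f 936 1 5] [(133, 149,
  [2]), (134, 118, [1])]) .no .no) .no .no) .no .no (.hor [.f 1057 3 5] []) (.br 937 .no (.use
  143) .no (.hor [.f 936 3 1, .f 929 3 1, .f 936 1 5] [(133, 118, [1, 4]), (134, 118, [1])]) .no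
  .no) .no) .no .no) (.hor [.f 1065 5 3, .f 938 3 1, .f 946 1 5, .f 1064 3 5] [(134, 119, [1,
  4])]) .no) .no .no) .no) (.use 104) .no (.hor [.f 938 3 5] []) .no .no) (.use 99) (.red [.f 817
  3 1, .f 825 1 5] 119 136 [2, 4] [(119, 136, [2, 4])]) .no (.br 944 (.red [.f 944 1 3, .f 944 3
  5, .f 952 5 3, .t 961 4 1] 136 136 [] [(135, 119, [1]), (136, 136, [])]) (.red [.t 944 2 3, .f
  825 1 5] 119 136 [2, 4] [(119, 136, [2, 4])]) .no (.br 1208 (.red [.f 1208 1 3] 168 136 [1, 1]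
  [(168, 136, [1, 1])]) .no .no (.use 140) (.br 1072 (.red [.f 1073 5 3, .t 1072 1 3, .f 1081 1 3]
  152 136 [1] [(151, 136, [4, 1]), (152, 136, [1])]) .no .no (.br 947 (.br 1065 (.use 141) (.hor
  [.f 936 3 1, .f 936 1 5] [(134, 118, [1])]) .no (.br 816 .no (.br 937 .no (.use 136) .no (.br
  939 (.hor [.f 939 1 3, .f 938 3 5] [(134, 118, [1])]) (.hor [.f 936 3 1, .f 929 3 1, .f 936 1 5]
  [(133, 118, [4, 1]), (134, 118, [1])]) .no (.hor [.f 936 3 1, .f 929 3 1, .f 936 1 5] [(133,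
  117, [1]), (134, 118, [1])]) .no .no) .no .no) .no (.red [.f 808 3 1, .t 944 2 3, .f 825 1 5]
  119 136 [2, 4] [(118, 136, [2, 4, 4]), (119, 136, [2, 4])]) (.red [.f 816 5 3, .f 817 3 1] 119
  136 [2, 4] [(119, 136, [2, 4])]) .no) (.hor [.f 1065 5 3, .f 938 3 1, .f 946 1 5, .f 1064 3 5]
  [(134, 118, [1])]) .no) (.con 136 [2, 4, 4]) .no (.hor [.f 938 3 5] []) .no .no) .no .no) .no)
  .no .no)

def c11t145 : Tr4 :=
  .br 1073 (.br 1072 (.hor [.f 1072 1 5] []) (.use 77) .no (.red [.t 1201 2 3, .f 1082 1 5, .t 962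
  1 4] 136 136 [] [(136, 136, []), (151, 150, [3])]) .no .no) .no .no (.br 1072 (.br 954 .no (.br
  1074 .no (.br 1075 (.use 139) (.hor [.f 946 1 5] []) .no (.use 100) .no .no) .no (.hor [.f 1065
  3 5] []) (.br 1218 (.use 138) .no (.use 61) .no (.red [.t 1210 4 2, .f 1210 5 3, .t 1217 2 4]
  152 136 [1] [(151, 152, [4]), (152, 136, [1])]) .no) .no) .no (.hor [.f 945 3 5] []) .no .no)
  (.red [.f 944 1 3, .f 944 3 5, .f 952 5 3, .t 961 4 1] 136 136 [] [(135, 136, [4]), (136, 136,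
  [])]) .no (.hor [.f 1064 3 5] []) .no .no) (.br 954 .no (.br 1218 (.use 138) .no (.use 61) .no
  (.br 1216 (.br 946 .no (.red [.f 818 1 3] 119 136 [2, 4] [(119, 136, [2, 4])]) .no (.use 144)
  (.br 1208 (.red [.f 1208 1 3] 168 136 [1, 1] [(168, 136, [1, 1])]) .no .no (.use 140) (.br 1072
  (.red [.f 1073 5 3, .t 1072 1 3, .f 1081 1 3] 152 136 [1] [(151, 136, [4, 1]), (152, 136, [1])])
  (.red [.f 944 1 3, .f 944 3 5, .f 952 5 3, .t 961 4 1] 136 136 [] [(135, 119, [1]), (136, 136,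
  [])]) .no (.br 1075 (.use 139) .no .no (.br 825 .no (.br 827 .no (.use 112) (.br 817 .no (.red
  [.f 689 1 3] 103 136 [2, 4, 2] [(103, 136, [2, 4, 2])]) .no (.use 107) (.red [.t 953 4 2] 119
  136 [2, 4] [(119, 136, [2, 4])]) (.br 944 .no .no .no (.br 819 .no (.br 939 .no (.br 818 .no
  (.hor [.f 690 1 5] []) .no (.red [.t 810 3 1, .f 818 1 3] 119 136 [2, 4] [(118, 136, [2, 4, 4]),
  (119, 136, [2, 4])]) .no .no) .no (.br 818 .no (.hor [.f 690 1 5] []) .no (.br 811 .no (.red [.f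
  683 1 3, .f 810 3 5, .f 818 5 1, .f 818 1 3] 119 136 [2, 4] [(102, 103, [4]), (119, 136, [2,
  4])]) .no (.red [.f 803 3 1, .t 810 3 1, .f 818 1 3] 119 136 [2, 4] [(117, 136, [2, 4, 4, 4]),
  (118, 136, [2, 4, 4]), (119, 136, [2, 4])]) .no .no) .no .no) .no (.use 132)) .no (.use 106) .no
  (.red [.f 818 5 1, .f 818 1 3] 119 136 [2, 4] [(119, 136, [2, 4])])) .no .no)) (.red [.t 826 1
  4, .f 945 3 5] 119 136 [2, 4] [(119, 136, [2, 4])]) .no .no) (.use 99) (.red [.f 817 3 1, .f 825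
  1 5] 119 136 [2, 4] [(119, 136, [2, 4])]) .no (.br 944 .no (.red [.t 944 2 3, .f 825 1 5] 119
  136 [2, 4] [(119, 136, [2, 4])]) .no (.use 108) .no .no)) .no .no) .no .no) .no) .no) .no (.con
  136 [3, 1, 1]) (.red [.f 1073 5 3, .f 945 3 1, .f 952 1 5, .t 1216 4 2] 152 136 [1] [(135, 119,
  [1]), (152, 136, [1])]) .no .no) .no) .no (.hor [.f 945 3 5] []) .no .no) (.red [.t 952 1 4, .f
  952 5 3, .t 961 4 1] 136 136 [] [(135, 136, [4]), (136, 136, [])])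

def c11t146 : Tr4 :=
  .br 1081 (.red [.f 1081 1 3, .t 1080 2 3] 136 136 [] [(136, 136, []), (152, 136, [1])]) (.hor
  [.f 952 1 5] []) .no (.use 37) (.br 953 .no (.br 954 .no (.hor [.f 825 1 5] []) .no (.use 94)
  .no .no) .no (.br 1091 (.br 1083 (.red [.f 1083 1 3] 152 136 [1] [(152, 136, [1])]) .no .no (.br
  1074 (.use 39) (.red [.t 945 3 1, .f 1074 3 5, .t 962 1 4] 136 136 [] [(135, 119, [1]), (136,
  136, [])]) .no (.use 95) .no (.red [.f 1073 5 3, .f 1074 3 5, .t 962 1 4] 136 136 [] [(136, 136,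
  [])])) .no .no) .no (.br 1097 (.use 93) (.red [.t 1096 4 2, .f 952 1 3] 136 136 [] [(136, 136,
  []), (137, 136, [3])]) (.br 1083 (.br 1210 (.br 1218 (.red [.f 1210 1 3, .t 1217 2 4, .f 1082 1
  5] 152 136 [1] [(152, 136, [1]), (168, 136, [1, 1])]) .no (.use 61) .no (.br 1098 (.use 74)
  (.con 136 [3, 3]) (.hor [.f 1097 3 5] []) .no .no .no) .no) .no (.red [.t 1217 2 4, .f 1082 1 5]
  152 136 [1] [(152, 136, [1])]) (.br 1098 (.br 1218 (.use 88) .no .no .no (.use 91) .no) (.con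
  136 [3, 3]) (.hor [.f 1097 3 5] []) .no .no .no) .no (.red [.f 1081 5 1, .f 1081 1 3] 152 136
  [1] [(152, 136, [1])])) .no .no (.use 97) .no .no) .no (.br 1083 (.br 968 .no (.br 1210 (.br
  1218 (.red [.f 1210 1 3, .t 1217 2 4, .f 1082 1 5] 152 136 [1] [(152, 136, [1]), (168, 136, [1,
  1])]) .no (.use 61) .no (.br 954 .no (.br 1072 (.br 1073 (.hor [.f 1072 1 5] []) .no .no (.use
  110) (.br 1209 (.hor [.f 1209 1 5] []) .no .no (.red [.f 1073 5 3, .f 1073 3 1, .f 1081 1 3] 152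
  136 [1] [(151, 136, [4, 1]), (152, 136, [1])]) .no (.red [.f 1073 5 3, .t 1072 1 3, .f 1081 1 3]
  152 136 [1] [(151, 136, [4, 1]), (152, 136, [1])])) .no) (.red [.f 944 1 3, .f 944 3 5, .f 952 5
  3, .t 961 4 1] 136 136 [] [(135, 119, [1]), (136, 136, [])]) .no (.use 137) (.red [.t 952 1 4,
  .f 952 5 3, .t 961 4 1] 136 136 [] [(135, 119, [1]), (136, 136, [])]) .no) .no (.hor [.f 945 3
  5] []) .no .no) .no) .no (.red [.t 1217 2 4, .f 1082 1 5] 152 136 [1] [(152, 136, [1])]) (.use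
  145) .no (.red [.f 1081 5 1, .f 1081 1 3] 152 136 [1] [(152, 136, [1])])) (.use 60) .no (.hor
  [.f 960 5 3, .f 960 3 1, .t 961 3 1, .f 968 1 5, .f 1090 3 5] []) .no) .no .no (.use 97) .no
  .no) .no) (.red [.f 955 3 1, .f 962 1 5] 136 136 [] [(136, 136, [])]) .no .no) (.red [.f 953 5
  1, .f 954 1 3] 136 136 [] [(136, 136, [])]) .no) .no

def c11t147 : Tr4 :=
  .br 1083 (.red [.f 1083 1 3] 152 136 [1] [(152, 136, [1])]) (.con 136 [4]) .no (.hor [.f 1074 3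
  5] []) .no .no

def c11t148 : Tr4 :=
  .br 954 .no (.br 955 .no (.hor [.f 826 1 5] []) (.red [.f 955 3 1, .f 962 1 5] 136 136 [] [(136,
  136, [])]) (.con 136 [2, 4]) .no .no) .no (.red [.f 946 3 1, .f 954 1 3] 136 136 [] [(135, 136,
  [4]), (136, 136, [])]) (.red [.t 1090 2 4, .f 953 3 5] 136 136 [] [(136, 136, [])]) .no

def c11t149 : Tr4 :=
  .br 946 (.con 136 [4, 2]) (.con 136 [4, 2]) (.hor [.f 946 3 5] []) (.con 136 [4, 2]) .no (.con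
  136 [4, 2])

def c11t150 : Tr4 :=
  .br 955 .no (.hor [.f 826 1 5] []) (.red [.f 955 3 1] 136 136 [] [(136, 136, [])]) (.con 136 [4,
  2]) .no .no

def c11l5 : List Tr4 :=
  [c11t135, c11t136, c11t137, c11t138, c11t139, c11t140, c11t141, c11t142, c11t143, c11t144,
  c11t145, c11t146, c11t147, c11t148, c11t149, c11t150]

theorem c11k5 : chkLF ⟨4, 1, 0, true, -8⟩ true 0 c11N 135 c11l5 = true := by decide +kernel

def c11t151 : Tr4 :=
  .br 946 .no (.hor [.f 818 1 5] []) .no (.br 944 (.con 136 [4, 2, 4]) (.red [.f 816 1 3] 119 136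
  [4, 2] [(119, 136, [4, 2])]) .no (.con 136 [4, 2, 4]) (.con 136 [4, 2, 4]) .no) .no (.br 944
  (.con 136 [4, 4]) (.red [.f 816 1 3] 119 136 [4, 2] [(119, 136, [4, 2])]) .no (.con 136 [4, 2,
  4]) .no .no)

def c11t152 : Tr4 :=
  .br 947 .no (.use 151) .no (.red [.f 939 3 1, .t 1074 3 2] 135 136 [4] [(134, 136, [4, 4]),
  (135, 136, [4])]) .no (.red [.f 946 5 3, .f 946 3 1] 135 136 [4] [(135, 136, [4])])

def c11t153 : Tr4 :=
  .br 1217 (.con 136 [1, 3, 1]) .no (.hor [.f 1217 3 5] []) .no .no (.con 136 [1, 3, 1])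

def c11t154 : Tr4 :=
  .br 1218 (.red [.f 1210 1 3, .t 1209 2 3] 152 136 [1] [(152, 136, [1]), (168, 136, [1, 1])]) .no
  (.use 153) .no .no (.red [.f 1089 5 1, .f 1081 1 3] 152 136 [1] [(152, 136, [1])])

def c11t155 : Tr4 :=
  .br 1210 (.use 154) .no (.red [.t 1218 4 2, .f 1081 1 5] 152 136 [1] [(152, 136, [1])]) (.red
  [.t 1202 3 2, .f 1081 1 5, .f 1081 5 3, .f 953 3 1] 136 136 [] [(136, 136, []), (151, 167,
  [2])]) (.red [.f 1082 5 1, .f 1083 1 3] 152 136 [1] [(152, 136, [1])]) .no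

def c11t156 : Tr4 :=
  .br 1075 (.use 155) (.red [.t 946 3 1, .t 953 3 1] 136 136 [] [(135, 136, [4]), (136, 136, [])])
  .no (.br 1080 (.hor [.f 1080 1 5] []) .no .no (.br 1074 .no .no .no (.hor [.f 1066 3 5] []) .no
  (.red [.t 1209 2 4, .f 1072 3 5, .t 960 1 4] 136 136 [] [(136, 136, []), (151, 135, [1])])) .no
  .no) .no (.red [.f 1074 5 3, .f 946 3 1, .t 953 3 1] 136 136 [] [(135, 136, [4]), (136, 136,
  [])])

def c11t157 : Tr4 :=
  .br 1074 .no .no .no (.hor [.f 938 3 1, .f 945 1 5] [(134, 118, [1])]) .no .no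

def c11t158 : Tr4 :=
  .br 1098 (.hor [.f 1097 1 5] []) .no (.br 1096 (.hor [.f 1096 1 5] []) (.con 136 [3, 1, 3])
  (.con 136 [3, 1, 3]) .no .no .no) .no (.br 1096 (.hor [.f 1096 1 5] []) (.con 136 [3, 3]) (.con
  136 [3, 3, 1]) .no .no .no) .no

def c11t159 : Tr4 :=
  .br 1217 (.con 136 [1, 3, 1]) .no (.hor [.f 1216 3 5] []) .no .no .no

def c11t160 : Tr4 :=
  .br 1096 (.hor [.f 1097 3 1, .f 1097 1 5] [(154, 138, [1])]) .no (.hor [.f 1096 3 5] []) .no .no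
  .no

def c11t161 : Tr4 :=
  .br 1096 (.hor [.f 969 3 1, .t 969 1 4, .f 1089 3 1, .f 1096 1 5] [(137, 136, [3]), (138, 136,
  [3, 3]), (153, 136, [3, 1])]) .no (.hor [.f 1096 3 5] []) .no .no .no

def c11t162 : Tr4 :=
  .br 1096 (.hor [.f 1097 3 1, .f 1097 1 5] [(154, 138, [1])]) .no (.hor [.f 1096 3 5] []) .no .no
  .no

def c11t163 : Tr4 :=
  .br 971 .no .no (.hor [.t 978 1 4, .f 1097 3 5] [(138, 136, [3, 3])]) .no .no .no

def c11t164 : Tr4 :=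
  .br 1104 (.hor [.f 1096 1 3, .f 1096 3 5] [(154, 138, [1])]) .no (.red [.f 976 3 1, .t 1104 2 4,
  .t 969 1 4, .t 962 1 4] 136 136 [] [(136, 136, []), (137, 136, [3]), (138, 136, [3, 3]), (139,
  136, [3, 3, 3])]) .no .no .no

def c11t165 : Tr4 :=
  .br 1337 (.br 1338 (.hor [.f 1337 1 5] []) .no .no (.red [.f 1202 3 1, .f 1201 1 5] 167 136 [1,
  4, 1] [(167, 136, [1, 4, 1])]) .no .no) .no (.red [.t 1336 2 3, .f 1217 1 5] 168 136 [1, 1]
  [(168, 136, [1, 1])]) .no (.red [.t 1201 1 3, .f 1210 1 5] 167 136 [1, 4, 1] [(167, 136, [1, 4,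
  1])]) .no

def c11t166 : Tr4 :=
  .br 946 (.con 136 [4, 2, 4]) (.hor [.f 817 1 5] []) .no (.con 136 [4, 2, 4]) (.con 136 [4, 2,
  4]) .no

def c11t167 : Tr4 :=
  .br 1203 (.red [.f 1203 1 3, .f 1202 3 5] 167 136 [4, 1, 1] [(167, 136, [4, 1, 1])]) .no .no
  (.br 1200 (.con 136 [4, 1, 4, 1]) .no .no (.hor [.f 1192 3 5] []) .no .no) .no .no

def c11t168 : Tr4 :=
  .br 947 .no (.con 136 [2, 4, 4]) .no (.br 937 .no (.br 816 .no (.br 817 .no (.hor [.f 688 1 5]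
  []) .no .no (.red [.f 817 5 1, .f 809 1 3] 118 136 [2, 4, 4] [(118, 136, [2, 4, 4])]) .no) .no
  (.red [.f 808 3 1, .f 808 1 5] 118 136 [2, 4, 4] [(118, 136, [2, 4, 4])]) (.red [.t 936 3 2, .f
  816 1 3] 119 136 [2, 4] [(118, 136, [2, 4, 4]), (119, 136, [2, 4])]) .no) .no (.br 938 (.red [.t
  1065 3 2, .f 938 3 5] 134 136 [4, 4] [(134, 136, [4, 4])]) (.con 136 [2, 4, 4, 4]) .no (.hor [.f
  929 3 5] []) .no .no) (.hor [.f 937 5 3, .f 936 3 5, .f 938 3 5] []) .no) .no .no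

def c11t169 : Tr4 :=
  .br 1075 (.con 136 [4, 4]) (.hor [.f 946 1 5] []) .no (.con 136 [4, 4]) .no .no

def c11t170 : Tr4 :=
  .br 1064 (.br 1200 (.br 1201 (.hor [.f 1200 1 5] []) .no .no (.br 1203 (.red [.f 1203 1 3, .f
  1202 3 5] 167 136 [4, 1, 1] [(167, 136, [4, 1, 1])]) .no .no (.con 136 [4, 4, 1, 1]) .no .no)
  .no .no) .no .no .no (.red [.t 1080 4 1, .t 960 1 4] 136 136 [] [(136, 136, []), (151, 135,
  [1])]) .no) .no .no (.red [.f 928 3 1, .t 1064 2 3] 134 136 [4, 4] [(133, 136, [4, 4, 4]), (134,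
  136, [4, 4])]) .no .no

def c11t171 : Tr4 :=
  .br 1073 (.red [.f 1073 1 3, .f 1072 3 5, .t 960 1 4] 136 136 [] [(136, 136, []), (151, 135,
  [1])]) (.br 944 .no (.red [.f 816 1 3] 119 136 [2, 4] [(119, 136, [2, 4])]) .no (.br 946 (.hor
  [.f 945 1 5] []) (.red [.f 818 1 3] 119 136 [2, 4] [(119, 136, [2, 4])]) .no (.br 947 (.use 157)
  (.con 136 [2, 4, 4]) .no (.hor [.f 938 3 5] []) .no .no) (.br 827 .no (.br 825 .no (.br 819 .no
  (.red [.f 691 1 3] 103 136 [2, 2, 4] [(103, 136, [2, 2, 4])]) .no (.br 816 .no (.br 817 .no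
  (.hor [.f 688 1 5] []) .no (.con 136 [2, 2, 4, 4]) (.con 136 [2, 2, 4, 4]) .no) .no (.red [.f
  808 3 1, .f 816 1 3] 119 136 [2, 4] [(118, 136, [2, 4, 4]), (119, 136, [2, 4])]) (.br 818 .no
  (.con 136 [2, 2, 4, 4]) .no (.hor [.f 810 3 5] []) .no .no) .no) .no (.red [.f 818 5 1, .f 818 1
  3] 119 136 [2, 4] [(119, 136, [2, 4])])) (.hor [.f 825 3 1, .f 824 1 5] [(120, 104, [1])]) (.br
  819 .no (.red [.f 691 1 3, .t 826 1 4] 119 136 [2, 4] [(103, 136, [2, 2, 4]), (119, 136, [2,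
  4])]) .no (.br 816 .no (.br 818 .no (.con 136 [2, 2, 4, 4]) .no (.hor [.f 810 3 5] []) .no .no)
  .no (.red [.f 808 3 1, .f 816 1 3, .f 816 3 5] 119 136 [2, 4] [(118, 136, [2, 4, 4]), (119, 136,
  [2, 4])]) .no .no) .no (.red [.f 818 5 1, .f 818 1 3] 119 136 [2, 4] [(119, 136, [2, 4])])) .no
  .no) (.hor [.f 827 3 1, .f 826 1 5] [(120, 104, [1])]) (.red [.t 826 1 4] 119 136 [2, 4] [(119,
  136, [2, 4])]) .no .no) .no) .no .no) .no (.br 944 .no (.red [.f 816 1 3] 119 136 [2, 4] [(119,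
  136, [2, 4])]) .no (.br 945 .no (.use 166) .no (.hor [.f 936 3 5] []) (.br 825 .no (.br 1074 .no
  .no .no (.hor [.f 1065 3 5] []) (.use 168) .no) (.hor [.f 825 3 1, .f 824 1 5] [(120, 104,
  [1])]) (.red [.t 825 4 1] 119 136 [2, 4] [(119, 136, [2, 4])]) .no .no) .no) (.br 825 .no (.br
  1208 (.br 1216 (.red [.f 1208 1 3] 168 136 [1, 1] [(168, 136, [1, 1])]) .no (.use 159) .no (.br
  1211 (.br 1074 .no (.use 169) .no (.hor [.f 1065 3 5] []) (.br 1201 (.use 165) .no .no (.use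
  167) .no (.red [.t 1080 4 1, .t 960 1 4] 136 136 [] [(136, 136, []), (151, 135, [1])])) .no) .no
  .no (.hor [.f 1202 3 5] []) .no .no) .no) .no (.br 1074 .no (.use 169) .no (.hor [.f 1065 3 5]
  []) (.br 946 .no (.red [.f 818 1 3] 119 136 [2, 4] [(119, 136, [2, 4])]) .no (.br 947 .no (.con
  136 [2, 4, 4]) .no (.hor [.f 938 3 5] []) .no .no) (.br 1211 (.br 827 .no (.br 819 .no (.red [.f
  691 1 3] 103 136 [2, 2, 4] [(103, 136, [2, 2, 4])]) .no (.br 937 .no (.br 936 (.red [.t 1064 2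
  3] 134 136 [4, 4] [(134, 136, [4, 4])]) (.hor [.f 808 1 5] []) .no (.use 170) .no .no) .no (.br
  936 (.red [.t 1064 2 3] 134 136 [4, 4] [(134, 136, [4, 4])]) (.con 136 [2, 4, 4, 4]) .no (.use
  170) .no .no) (.red [.f 946 5 1, .t 1073 4 2] 134 136 [4, 4] [(134, 136, [4, 4])]) (.red [.f 936
  5 3, .f 937 3 1] 134 136 [4, 4] [(134, 136, [4, 4])])) .no (.red [.f 818 5 1, .f 818 1 3] 119
  136 [2, 4] [(119, 136, [2, 4])])) (.hor [.f 827 3 1, .f 826 1 5] [(120, 104, [1])]) (.red [.t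
  826 1 4] 119 136 [2, 4] [(119, 136, [2, 4])]) .no .no) .no .no (.hor [.f 1202 3 5] []) .no .no)
  .no) .no) (.red [.f 1072 3 1, .f 1080 1 5, .t 960 1 4] 136 136 [] [(136, 136, []), (151, 135,
  [1])]) .no .no) (.hor [.f 825 3 1, .f 824 1 5] [(120, 104, [1])]) (.red [.t 824 1 4] 119 136 [2,
  4] [(119, 136, [2, 4])]) .no .no) .no) (.red [.t 1209 2 4, .f 1072 3 5, .t 960 1 4] 136 136 []
  [(136, 136, []), (151, 135, [1])]) .no

def c11t172 : Tr4 :=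
  .br 1082 (.hor [.f 1081 1 5] []) (.red [.t 953 3 1, .f 960 1 5] 136 136 [] [(136, 136, [])]) .no
  (.br 1091 (.use 147) (.con 136 [3]) (.con 136 [3, 1]) (.br 1210 (.br 954 .no (.use 150) (.hor
  [.f 953 3 5] []) (.red [.f 946 3 1, .t 953 3 1] 136 136 [] [(135, 136, [4]), (136, 136, [])])
  (.br 947 (.red [.t 1074 3 2] 135 136 [4] [(135, 136, [4])]) (.use 151) .no (.br 1075 (.br 1211
  (.hor [.f 1210 1 5] []) .no (.red [.f 1083 3 1, .f 1075 1 3, .f 1074 3 5, .f 954 5 1, .t 953 3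
  1] 136 136 [] [(136, 136, []), (151, 135, [1]), (152, 136, [1])]) .no .no .no) .no .no (.red [.f
  939 3 1, .t 1074 3 2] 135 136 [4] [(134, 136, [4, 4]), (135, 136, [4])]) .no .no) .no (.red [.f
  946 5 3, .f 946 3 1] 135 136 [4] [(135, 136, [4])])) .no) .no (.red [.t 1209 2 3, .f 953 3 1]
  136 136 [] [(136, 136, []), (152, 136, [1])]) (.red [.f 1074 3 1, .f 1081 1 5, .f 1081 5 3, .f
  953 3 1] 136 136 [] [(136, 136, []), (151, 135, [1])]) (.br 954 .no (.use 150) (.hor [.f 953 3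
  5] []) (.red [.f 946 3 1, .t 953 3 1] 136 136 [] [(135, 136, [4]), (136, 136, [])]) (.br 1075
  (.red [.t 1074 3 1, .f 1081 1 5, .f 1081 5 3, .f 953 3 1] 136 136 [] [(136, 136, []), (151, 135,
  [1])]) (.red [.t 1074 3 2] 135 136 [4] [(135, 136, [4])]) .no (.use 152) .no .no) .no) .no) .no
  .no) (.br 1091 (.br 955 .no (.br 954 .no (.hor [.f 826 1 5] []) (.con 136 [2]) (.br 947 (.red
  [.t 946 3 1, .t 953 3 1] 136 136 [] [(135, 136, [4]), (136, 136, [])]) (.red [.f 819 1 3, .f 946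
  3 5, .f 954 5 1, .t 953 3 1] 136 136 [] [(119, 120, [4]), (136, 136, [])]) .no (.br 1075 (.use
  155) .no .no (.red [.f 939 3 1, .t 946 3 1, .t 953 3 1] 136 136 [] [(134, 136, [4, 4]), (135,
  136, [4]), (136, 136, [])]) .no (.red [.f 1074 5 3, .f 946 3 1, .t 953 3 1] 136 136 [] [(135,
  136, [4]), (136, 136, [])])) .no .no) .no .no) (.br 1210 (.use 154) .no (.red [.t 1218 4 2, .f
  1081 1 5] 152 136 [1] [(152, 136, [1])]) (.br 962 .no (.br 954 .no (.hor [.f 826 1 3, .f 953 3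
  5] [(120, 119, [3])]) .no (.use 156) .no .no) (.br 1218 (.br 954 .no (.br 1080 (.hor [.f 1080 1
  5] []) .no .no (.use 171) .no .no) .no (.use 156) .no .no) .no (.use 153) .no .no (.red [.f 1089
  5 1, .f 1081 1 3] 152 136 [1] [(152, 136, [1])])) (.hor [.f 953 3 5] []) .no .no) (.red [.f 1082
  5 1, .f 1083 1 3] 152 136 [1] [(152, 136, [1])]) .no) (.use 149) .no (.red [.f 954 5 1, .t 953 3
  1] 136 136 [] [(136, 136, [])])) (.con 136 [3]) (.con 136 [3, 1]) .no .no .no) .no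

def c11t173 : Tr4 :=
  .br 1072 (.con 136 [4, 1]) (.con 136 [4, 1]) (.hor [.f 1072 3 5] []) (.con 136 [4, 1]) .no .no

def c11t174 : Tr4 :=
  .br 1082 (.use 173) (.red [.f 954 1 3, .f 953 3 5] 136 136 [] [(136, 136, [])]) .no (.hor [.f
  1073 3 5] []) (.br 955 .no (.br 954 .no (.hor [.f 826 1 5] []) .no (.br 947 (.red [.t 946 3 1,
  .f 954 1 3, .f 953 3 5] 136 136 [] [(135, 136, [4]), (136, 136, [])]) (.red [.f 819 1 3, .f 946
  3 5, .f 954 5 1, .f 954 1 3] 136 136 [] [(119, 120, [4]), (136, 136, [])]) .no (.br 1075 (.br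
  1072 (.con 136 [4, 1]) (.con 136 [4, 4]) (.hor [.f 1072 3 5] []) (.con 136 [4, 1]) .no .no) .no
  .no (.red [.f 939 3 1, .t 946 3 1, .f 954 1 3] 136 136 [] [(134, 136, [4, 4]), (135, 136, [4]),
  (136, 136, [])]) .no (.red [.f 1074 5 3, .f 946 3 1, .f 954 1 3] 136 136 [] [(135, 136, [4]),
  (136, 136, [])])) .no .no) .no .no) (.use 37) (.use 149) .no (.red [.f 954 5 1, .f 954 1 3] 136
  136 [] [(136, 136, [])])) .no

def c11t175 : Tr4 :=
  .br 1072 (.con 136 [4, 1]) (.con 136 [4, 1]) (.hor [.f 1072 3 5] []) (.con 136 [4, 1]) .no .no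

def c11t176 : Tr4 :=
  .br 1090 (.con 136 [3, 1]) .no (.hor [.f 1090 3 5] []) .no .no .no

def c11t177 : Tr4 :=
  .br 1091 (.con 136 [1]) (.con 136 [3]) (.con 136 [1]) (.hor [.f 1082 3 5] []) .no .no

def c11t178 : Tr4 :=
  .br 963 (.con 136 [3]) (.hor [.f 834 1 5] []) (.con 136 [2, 3]) .no .no .no

def c11t179 : Tr4 :=
  .br 1072 (.con 136 [4, 1]) (.con 136 [4, 1]) (.hor [.f 1072 3 5] []) (.con 136 [4, 1]) .no .no

def c11t180 : Tr4 :=
  .br 1208 (.hor [.f 1208 1 5] []) (.con 136 [4, 1, 1]) (.br 1072 (.con 136 [4, 1, 3]) (.con 136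
  [4, 1, 3]) (.hor [.f 1072 3 5] []) (.con 136 [4, 1, 3]) .no .no) (.con 136 [4, 1, 1]) .no .no

def c11t181 : Tr4 :=
  .br 1072 (.con 136 [4, 1, 3]) (.con 136 [4, 1, 3]) (.hor [.f 1072 3 5] []) (.con 136 [4, 1, 3])
  .no .no

def c11t182 : Tr4 :=
  .br 1074 (.red [.t 1073 3 1, .f 1081 1 3] 152 136 [1] [(151, 136, [4, 1]), (152, 136, [1])])
  (.red [.f 946 1 3, .f 1073 3 5, .f 1081 5 1, .f 1081 1 3] 152 136 [1] [(135, 119, [1]), (152,
  136, [1])]) .no (.br 1075 (.br 1072 (.br 1208 (.con 136 [4, 1, 3]) (.red [.f 1072 1 3, .f 1072 3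
  5] 151 136 [4, 1] [(151, 136, [4, 1])]) (.con 136 [4, 1, 3]) .no .no .no) (.con 136 [4, 4, 1])
  (.red [.f 1075 1 3, .f 947 3 1, .f 954 1 5, .f 1082 5 3, .t 1089 1 4] 152 136 [1] [(135, 119,
  [1]), (151, 150, [3]), (152, 136, [1])]) (.con 136 [4, 4, 1]) .no .no) .no .no (.hor [.f 1066 3
  5] []) .no .no) (.red [.t 954 1 4, .f 1073 3 5, .f 1081 5 1, .f 1081 1 3] 152 136 [1] [(135,
  119, [1]), (152, 136, [1])]) .no

def c11l6 : List Tr4 :=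
  [c11t151, c11t152, c11t153, c11t154, c11t155, c11t156, c11t157, c11t158, c11t159, c11t160,
  c11t161, c11t162, c11t163, c11t164, c11t165, c11t166, c11t167, c11t168, c11t169, c11t170,
  c11t171, c11t172, c11t173, c11t174, c11t175, c11t176, c11t177, c11t178, c11t179, c11t180,
  c11t181, c11t182]

theorem c11k6 : chkLF ⟨4, 1, 0, true, -8⟩ true 0 c11N 151 c11l6 = true := by decide +kernel

end Pool.Agent.FT4D
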