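import Pool.Agent.FT4D.Tab_c11

/-!
# Four levels: decision trees (found by a computer search)
-/

namespace Pool.Agent.FT4D

def c11t183 : Tr4 :=
  .br 1082 (.use 173) (.br 1090 (.hor [.f 1089 1 5] []) .no (.red [.f 962 3 1, .f 954 1 3] 136 136
  [] [(136, 136, []), (137, 136, [3])]) .no (.br 1083 (.br 963 .no (.br 955 .no (.red [.f 827 1 3,
  .t 954 1 3] 136 136 [] [(120, 136, [2]), (136, 136, [])]) .no (.br 1218 (.br 1210 (.red [.f 1210
  1 3, .t 1210 3 2] 152 136 [1] [(152, 136, [1]), (168, 136, [1, 1])]) .no .no (.br 1209 (.use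
  180) .no .no (.hor [.f 1201 3 5] []) .no (.use 181)) .no (.use 182)) .no (.br 1209 (.br 1210
  (.hor [.f 1209 1 5] []) .no .no (.use 180) .no .no) .no .no (.red [.f 1073 3 1, .f 1081 1 3] 152
  136 [1] [(151, 136, [4, 1]), (152, 136, [1])]) (.use 182) (.use 181)) (.red [.t 1210 3 2, .f
  1089 1 5] 152 136 [1] [(152, 136, [1])]) (.red [.f 1090 5 1, .f 1083 1 3] 152 136 [1] [(152,
  136, [1])]) .no) .no .no) (.hor [.f 962 3 5] []) (.red [.t 954 1 3] 136 136 [] [(136, 136, [])])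
  .no .no) (.hor [.f 954 1 5] []) .no (.use 175) .no .no) .no) (.use 177) (.hor [.f 1073 3 5] [])
  (.use 179) .no

def c11t184 : Tr4 :=
  .br 1091 (.red [.f 1083 1 3] 152 136 [1] [(152, 136, [1])]) .no (.br 1090 (.con 136 [3, 1]) .no
  (.hor [.f 1090 3 5] []) .no .no .no) .no .no (.red [.f 962 5 1, .f 954 1 3] 136 136 [] [(136,
  136, [])])

def c11t185 : Tr4 :=
  .br 1090 (.con 136 [1, 3]) .no (.hor [.f 1090 3 5] []) .no .no .no

def c11t186 : Tr4 :=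
  .br 1074 (.hor [.f 1073 1 5] []) .no .no (.con 136 [4, 1, 4]) (.con 136 [4, 4]) .no

def c11t187 : Tr4 :=
  .br 1074 (.hor [.f 1073 1 5] []) .no .no (.con 136 [4, 1, 4]) (.con 136 [4, 4, 1]) .no

def c11t188 : Tr4 :=
  .br 1072 (.hor [.f 1072 1 5] []) .no (.red [.t 824 1 4, .f 944 3 1] 135 136 [4] [(119, 136, [4,
  2]), (135, 136, [4])]) (.use 187) .no .no

def c11t189 : Tr4 :=
  .br 1208 (.con 136 [4, 1, 3]) (.red [.f 1072 1 3] 151 136 [4, 1] [(151, 136, [4, 1])]) (.con 136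
  [4, 1, 3]) .no (.con 136 [4, 1, 3]) .no

def c11t190 : Tr4 :=
  .br 1072 (.use 189) .no (.red [.t 824 1 4, .f 944 3 1] 135 136 [4] [(119, 136, [4, 2]), (135,
  136, [4])]) (.hor [.f 1064 3 5] []) .no .no

def c11t191 : Tr4 :=
  .br 945 (.red [.t 945 1 3, .t 954 1 3] 136 136 [] [(135, 136, [4]), (136, 136, [])]) .no .no
  (.br 944 (.br 1073 (.use 186) .no .no (.red [.f 937 3 1, .f 944 1 5] 134 136 [4, 4] [(134, 136,
  [4, 4])]) (.red [.f 1073 5 3, .f 946 3 1, .t 954 1 3] 136 136 [] [(135, 136, [4]), (136, 136,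
  [])]) .no) (.hor [.f 816 1 3, .f 816 3 5] [(119, 136, [2, 4])]) .no (.hor [.f 936 3 5] []) .no
  .no) .no (.br 1073 (.use 188) .no .no (.use 190) (.red [.f 1073 5 3, .f 946 3 1, .t 954 1 3] 136
  136 [] [(135, 136, [4]), (136, 136, [])]) (.red [.f 944 5 1, .t 945 1 3, .t 954 1 3] 136 136 []
  [(135, 136, [4]), (136, 136, [])]))

def c11t192 : Tr4 :=
  .br 1219 (.con 136 [1, 3, 1]) .no (.hor [.f 1218 3 5] []) .no .no .no

def c11t193 : Tr4 :=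
  .br 1218 (.red [.f 1210 1 3, .t 1217 2 4, .f 1082 1 5] 152 136 [1] [(152, 136, [1]), (168, 136,
  [1, 1])]) .no (.use 192) .no (.red [.f 1090 5 1, .f 1083 1 3] 152 136 [1] [(152, 136, [1])]) .no

def c11t194 : Tr4 :=
  .br 1209 (.con 136 [4, 1, 1]) .no .no (.hor [.f 1201 3 5] []) .no (.con 136 [4, 1, 3])

def c11t195 : Tr4 :=
  .br 1073 (.br 1072 (.con 136 [4, 1, 1]) (.con 136 [4, 1, 4]) (.red [.t 1201 2 3, .f 1072 3 5, .t
  960 1 4] 136 136 [] [(136, 136, []), (151, 135, [1])]) (.con 136 [4, 1, 4]) .no .no) (.red [.t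
  945 1 3, .t 954 1 3] 136 136 [] [(135, 136, [4]), (136, 136, [])]) .no (.hor [.f 1065 3 5] [])
  .no (.use 194)

def c11t196 : Tr4 :=
  .br 1211 (.hor [.f 1210 1 5] []) .no (.con 136 [1, 3, 1]) (.red [.f 1075 3 1] 151 136 [1, 4]
  [(151, 136, [1, 4])]) .no .no

def c11t197 : Tr4 :=
  .br 1218 (.red [.f 1210 1 3, .t 1217 2 4] 152 136 [1] [(152, 136, [1]), (168, 136, [1, 1])])
  (.hor [.f 1089 1 5] []) (.use 196) .no (.use 73) .no

def c11t198 : Tr4 :=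
  .br 1074 (.hor [.f 1073 1 5] []) .no .no (.con 136 [4, 4, 1]) .no .no

def c11t199 : Tr4 :=
  .br 1209 (.con 136 [1, 4, 1]) .no .no (.hor [.f 1201 3 5] []) .no (.con 136 [1, 4, 1])

def c11t200 : Tr4 :=
  .br 1211 (.use 199) .no (.br 1209 (.con 136 [1, 4, 1]) .no .no (.hor [.f 1201 3 5] []) .no (.con
  136 [1, 1])) (.hor [.f 1202 3 5] []) .no .no

def c11t201 : Tr4 :=
  .br 1211 (.use 199) .no (.con 136 [1, 3, 1]) (.hor [.f 1202 3 5] []) .no .no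

def c11t202 : Tr4 :=
  .br 1074 (.red [.t 1074 1 3] 151 136 [1, 4] [(151, 136, [1, 4])]) .no .no (.hor [.f 1065 3 5]
  []) .no .no

def c11t203 : Tr4 :=
  .br 1083 (.br 1091 (.red [.f 1083 1 3] 152 136 [1] [(152, 136, [1])]) .no (.use 185) .no .no
  (.br 1210 (.use 193) .no (.red [.t 1217 2 4, .f 1082 1 5] 152 136 [1] [(152, 136, [1])]) (.br
  826 .no (.br 825 .no (.hor [.f 697 1 5] []) (.hor [.f 825 3 1, .f 824 1 5] [(120, 104, [1])])
  (.use 191) .no .no) .no (.br 825 .no (.br 827 .no (.br 1074 .no .no .no (.use 195) (.br 1073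
  (.red [.t 1210 4 2, .f 1073 1 5, .f 1073 5 3, .f 946 3 1] 135 136 [4] [(135, 136, [4]), (151,
  167, [2])]) (.red [.t 945 1 3, .t 954 1 3] 136 136 [] [(135, 136, [4]), (136, 136, [])]) .no
  (.br 1072 (.use 189) (.con 136 [4, 4]) (.br 945 .no (.br 944 .no (.hor [.f 816 1 5] []) .no (.br
  947 .no (.con 136 [2, 4, 4]) .no (.br 816 .no (.br 819 .no (.red [.f 691 1 3] 103 136 [2, 2, 4]
  [(103, 136, [2, 2, 4])]) .no (.con 136 [2, 2, 4, 4]) .no .no) .no (.red [.f 808 3 1, .f 816 1 5]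
  118 136 [2, 4, 4] [(118, 136, [2, 4, 4])]) .no .no) .no .no) .no .no) .no (.red [.f 937 3 1, .t
  945 1 3] 135 136 [4] [(134, 136, [4, 4]), (135, 136, [4])]) .no (.br 817 .no (.red [.f 689 1 3]
  103 136 [2, 2, 4] [(103, 136, [2, 2, 4])]) .no (.br 947 .no (.br 816 .no (.con 136 [2, 2, 4, 4])
  .no (.hor [.f 808 3 5] []) .no .no) .no (.br 819 .no (.red [.f 691 1 3] 103 136 [2, 2, 4] [(103,
  136, [2, 2, 4])]) .no (.br 816 .no (.con 136 [2, 2, 4, 4]) .no (.hor [.f 808 3 5] []) .no .no)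
  .no .no) .no .no) .no (.red [.f 816 5 1, .f 816 1 3, .f 944 3 1] 135 136 [4] [(119, 136, [2,
  4]), (135, 136, [4])]))) (.hor [.f 1064 3 5] []) .no .no) .no (.use 194)) (.red [.f 1073 5 3, .f
  946 3 1, .t 954 1 3] 136 136 [] [(135, 136, [4]), (136, 136, [])])) (.hor [.f 827 3 1, .f 834 1
  5] [(120, 104, [1])]) (.hor [.f 818 3 5] []) .no .no) (.hor [.f 825 3 1, .f 824 1 5] [(120, 104,
  [1])]) (.use 191) .no .no) (.red [.t 962 2 4, .f 962 5 1, .t 961 4 1] 136 136 [] [(120, 121,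
  [4]), (136, 136, [])]) (.hor [.t 961 4 2, .f 824 1 5] [(120, 121, [4])])) .no (.red [.f 1081 5
  1, .f 1081 1 3] 152 136 [1] [(152, 136, [1])]))) .no (.red [.f 955 3 1] 136 136 [] [(136, 136,
  [])]) (.br 1073 (.br 1072 (.con 136 [4, 1]) (.con 136 [4, 4]) (.use 198) (.con 136 [4, 1]) .no
  .no) (.red [.t 945 1 3] 135 136 [4] [(135, 136, [4])]) .no (.br 1210 (.use 197) .no (.red [.t
  1217 2 4] 152 136 [1] [(152, 136, [1])]) (.br 1091 (.use 41) .no (.use 185) .no .no (.br 1218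
  (.use 200) .no (.use 201) .no (.red [.f 1090 5 1, .f 1089 1 5, .f 1081 5 3, .f 953 3 1] 136 136
  [] [(136, 136, [])]) .no)) (.use 202) (.red [.f 1081 5 1, .f 1081 1 3] 152 136 [1] [(152, 136,
  [1])])) (.red [.f 1073 5 3, .f 946 3 1] 135 136 [4] [(135, 136, [4])]) (.con 136 [4, 1])) .no
  .no

def c11t204 : Tr4 :=
  .br 1209 (.br 1072 (.con 136 [4, 1, 1]) (.con 136 [4, 1, 1]) (.br 1208 (.hor [.f 1208 1 5] [])
  .no (.br 1347 (.con 136 [3, 1, 1, 4, 2]) (.hor [.f 1218 1 5] []) (.con 136 [3, 1, 1, 4, 2])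
  (.con 136 [3, 1, 1, 4, 2]) .no .no) (.con 136 [4, 1, 1]) .no .no) (.con 136 [4, 1, 1]) (.con 136
  [4, 1, 1]) .no) .no .no (.hor [.f 1201 3 5] []) .no (.br 1216 (.br 1347 (.con 136 [3, 1, 1, 4])
  (.hor [.f 1218 1 5] []) (.con 136 [3, 1, 1, 4]) (.con 136 [3, 1, 1, 4]) .no .no) .no (.con 136
  [3, 1, 1]) .no .no .no)

def c11t205 : Tr4 :=
  .br 1219 (.hor [.f 1218 1 5] []) .no (.red [.t 1226 2 4, .f 1083 1 3] 152 136 [1] [(152, 136,
  [1]), (153, 136, [1, 3])]) .no .no .no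

def c11t206 : Tr4 :=
  .br 971 .no .no (.red [.f 971 3 1, .t 970 4 1, .t 961 4 1] 136 136 [] [(136, 136, []), (137,
  136, [3]), (138, 136, [3, 3])]) .no .no .no

def c11t207 : Tr4 :=
  .br 1098 (.use 205) .no (.hor [.f 1098 3 5] []) .no .no (.use 206)

def c11t208 : Tr4 :=
  .br 835 .no (.hor [.f 706 1 5] []) (.br 1099 (.use 204) (.red [.t 970 4 1, .t 961 4 1] 136 136
  [] [(136, 136, []), (137, 136, [3])]) (.use 207) .no .no (.red [.f 1090 5 3, .f 962 3 1, .t 961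
  4 1] 136 136 [] [(136, 136, []), (137, 136, [3])])) (.hor [.f 827 3 1, .f 826 1 5] [(120, 104,
  [1])]) .no .no

def c11t209 : Tr4 :=
  .br 1098 (.use 205) .no (.hor [.f 1098 3 5] []) .no .no (.red [.f 971 3 1, .t 970 4 1, .t 961 4
  1] 136 136 [] [(136, 136, []), (137, 136, [3]), (138, 136, [3, 3])])

def c11t210 : Tr4 :=
  .br 1099 (.use 204) (.red [.t 970 4 1, .t 961 4 1] 136 136 [] [(136, 136, []), (137, 136, [3])])
  (.br 971 .no (.hor [.t 970 4 2, .f 826 1 3, .f 953 3 5] [(120, 119, [3]), (121, 137, [2])])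
  (.use 209) .no .no .no) .no .no (.red [.f 1090 5 3, .f 962 3 1, .t 961 4 1] 136 136 [] [(136,
  136, []), (137, 136, [3])])

def c11t211 : Tr4 :=
  .br 1075 (.con 136 [4, 4]) (.hor [.f 946 1 5] []) .no (.con 136 [4, 4]) .no .no

def c11t212 : Tr4 :=
  .br 1209 (.red [.f 1073 5 3, .f 1074 3 1, .f 1082 1 5, .f 1082 5 3, .f 955 3 1] 136 136 []
  [(136, 136, []), (151, 167, [2])]) .no .no (.hor [.f 1201 3 5] []) .no (.red [.f 1073 5 3, .f
  1074 3 1, .f 1082 1 5, .f 1082 5 3, .f 955 3 1] 136 136 [] [(136, 136, []), (151, 152, [4])])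

def c11t213 : Tr4 :=
  .br 1072 (.con 136 [4, 1, 1]) (.con 136 [4, 1, 4]) (.red [.t 1201 2 3, .f 1072 3 5, .t 960 1 4]
  136 136 [] [(136, 136, []), (151, 135, [1])]) (.con 136 [4, 1, 4]) .no .no

def c11t214 : Tr4 :=
  .br 825 .no (.br 833 .no (.br 834 .no (.hor [.f 705 1 5] []) (.hor [.f 834 3 1, .f 826 1 3, .f
  953 3 5] [(120, 119, [3]), (121, 137, [2])]) .no (.hor [.f 697 1 3, .f 825 3 1, .f 824 1 5]
  [(104, 119, [3, 2]), (120, 119, [3])]) .no) (.br 834 .no (.use 208) (.hor [.f 834 3 1, .f 826 1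
  3, .f 953 3 5] [(120, 119, [3]), (121, 137, [2])]) .no (.use 210) .no) .no (.br 1099 (.use 204)
  (.red [.t 970 4 1, .t 961 4 1] 136 136 [] [(136, 136, []), (137, 136, [3])]) (.br 835 .no (.br
  827 .no (.hor [.t 953 3 2, .f 699 1 3, .f 826 3 5] [(104, 103, [3]), (120, 119, [3])]) .no (.br
  946 (.br 1073 (.br 1072 (.con 136 [4, 1, 1]) (.con 136 [4, 4]) (.red [.t 1201 2 3, .f 1072 3 5,
  .t 960 1 4] 136 136 [] [(136, 136, []), (151, 135, [1])]) (.con 136 [4, 1, 4]) .no .no) (.hor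
  [.f 945 1 5] []) .no (.use 211) .no (.use 194)) (.red [.f 818 1 3, .f 818 3 5] 119 136 [2, 4]
  [(119, 136, [2, 4])]) .no (.br 947 (.br 945 (.red [.t 953 3 2, .f 953 5 1, .f 945 1 3] 135 136
  [4] [(120, 119, [3]), (135, 136, [4])]) (.br 944 (.con 136 [2, 4, 4]) (.hor [.f 816 1 5] []) .no
  (.con 136 [2, 4, 4]) .no .no) .no (.hor [.f 937 3 5] []) .no (.br 1074 .no .no .no (.red [.f 938
  3 1, .f 946 1 5, .t 826 1 4] 119 136 [2, 4] [(119, 136, [2, 4]), (134, 118, [1])]) .no (.use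
  212))) .no .no (.hor [.f 938 3 5] []) .no .no) (.red [.t 826 1 4] 119 136 [2, 4] [(119, 136, [2,
  4])]) (.br 1073 (.use 213) .no .no (.br 1074 .no .no .no (.hor [.f 1065 3 5] []) (.br 944 (.con
  136 [4, 4]) (.red [.f 816 1 3] 119 136 [2, 4] [(119, 136, [2, 4])]) .no (.br 1072 (.use 189) .no
  (.use 168) (.hor [.f 1064 3 5] []) .no .no) .no .no) .no) (.use 212) (.use 194))) .no .no) (.use
  207) (.hor [.t 953 3 2, .f 826 3 5] [(120, 104, [1])]) .no .no) .no .no (.red [.f 1090 5 3, .f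
  962 3 1, .t 961 4 1] 136 136 [] [(136, 136, []), (137, 136, [3])])) (.br 834 .no (.use 208)
  (.hor [.t 952 2 3, .f 834 3 1, .f 833 1 5] [(120, 119, [3]), (121, 137, [2])]) .no (.use 210)
  .no)) (.hor [.f 825 3 1, .f 824 1 5] [(120, 104, [1])]) (.br 834 .no (.use 208) (.hor [.f 834 3
  1, .f 826 1 3, .f 953 3 5] [(120, 119, [3]), (121, 137, [2])]) .no (.use 210) (.br 1073 (.use
  213) (.red [.t 953 3 2, .f 953 5 1, .f 945 1 3] 135 136 [4] [(120, 119, [3]), (135, 136, [4])])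
  .no (.br 945 .no .no .no (.br 946 (.use 211) (.red [.f 818 1 3, .f 817 3 5] 119 136 [2, 4]
  [(119, 136, [2, 4])]) .no (.hor [.f 937 3 5] []) (.red [.f 937 3 1] 134 136 [4, 4] [(134, 136,
  [4, 4])]) .no) (.red [.t 825 4 1] 119 136 [2, 4] [(119, 136, [2, 4])]) (.use 190)) (.use 212)
  (.use 194))) .no .no

def c11t215 : Tr4 :=
  .br 1339 (.hor [.f 1338 1 5] []) .no .no (.br 1336 (.con 136 [1, 4, 1, 1]) .no (.con 136 [1, 4,
  1, 1]) (.red [.t 1336 4 2, .f 1201 3 5] 167 136 [1, 4, 1] [(167, 136, [1, 4, 1])]) .no .no) .no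
  .no

def c11l7 : List Tr4 :=
  [c11t183, c11t184, c11t185, c11t186, c11t187, c11t188, c11t189, c11t190, c11t191, c11t192,
  c11t193, c11t194, c11t195, c11t196, c11t197, c11t198, c11t199, c11t200, c11t201, c11t202,
  c11t203, c11t204, c11t205, c11t206, c11t207, c11t208, c11t209, c11t210, c11t211, c11t212,
  c11t213, c11t214, c11t215]

theorem c11k7 : chkLF ⟨4, 1, 0, true, -8⟩ true 0 c11N 183 c11l7 = true := by decide +kernel

def c11t216 : Tr4 :=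
  .br 1216 (.br 1337 (.use 142) .no (.red [.t 1344 2 4, .f 1201 1 3] 168 136 [1, 1] [(167, 136,
  [4, 1, 1]), (168, 136, [1, 1])]) .no (.red [.t 1201 1 3, .f 1210 1 3] 168 136 [1, 1] [(167, 136,
  [4, 1, 1]), (168, 136, [1, 1])]) (.red [.f 1208 5 1, .f 1201 1 3] 167 136 [4, 1, 1] [(167, 136,
  [4, 1, 1])])) .no (.br 1338 (.br 1337 (.hor [.f 1337 1 5] []) .no (.br 1344 (.br 1347 (.br 1336
  (.br 1339 (.hor [.f 1338 1 5] []) .no .no (.con 136 [4, 1, 1, 1]) .no .no) .no .no (.red [.t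
  1328 3 2, .f 1201 3 5] 167 136 [4, 1, 1] [(167, 136, [4, 1, 1])]) .no .no) .no (.con 136 [3, 1,
  1, 1]) (.red [.t 1210 4 2, .t 1346 2 4, .t 1217 2 4] 152 136 [1] [(151, 135, [1]), (152, 136,
  [1]), (168, 136, [1, 1])]) .no .no) .no (.red [.f 1216 3 1, .t 1344 2 4, .f 1201 1 3] 168 136
  [1, 1] [(167, 136, [4, 1, 1]), (168, 136, [1, 1]), (169, 136, [3, 1, 1])]) (.hor [.f 1336 3 5]
  []) .no .no) .no .no (.red [.f 1208 5 1, .f 1201 1 3] 167 136 [4, 1, 1] [(167, 136, [4, 1,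
  1])])) .no .no (.red [.f 1202 3 1, .f 1201 1 5] 167 136 [4, 1, 1] [(167, 136, [4, 1, 1])]) (.red
  [.t 1210 4 2, .f 1210 5 1, .f 1210 1 3] 168 136 [1, 1] [(151, 135, [1]), (168, 136, [1, 1])])
  (.red [.t 1201 1 3, .f 1210 1 3] 168 136 [1, 1] [(167, 136, [4, 1, 1]), (168, 136, [1, 1])]))
  .no .no .no

def c11t217 : Tr4 :=
  .br 1338 (.br 1347 (.br 1339 (.hor [.f 1338 1 5] []) .no .no (.br 1200 (.con 136 [4, 1, 1, 4])
  .no .no (.hor [.f 1192 3 5] []) .no .no) .no .no) .no (.hor [.f 1219 3 1, .f 1218 1 5] [(169,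
  153, [1])]) (.red [.t 1210 4 2, .t 1346 2 4, .t 1217 2 4] 152 136 [1] [(151, 135, [1]), (152,
  136, [1]), (168, 136, [1, 1])]) .no .no) .no .no (.red [.f 1202 3 1, .f 1209 1 5] 167 136 [4, 1,
  1] [(167, 136, [4, 1, 1])]) (.br 1203 (.red [.t 1202 3 1, .f 1209 1 5] 167 136 [4, 1, 1] [(167,
  136, [4, 1, 1])]) .no .no (.br 1200 (.con 136 [4, 1, 4, 1]) .no .no (.hor [.f 1192 3 5] []) .no
  .no) .no .no) .no

def c11t218 : Tr4 :=
  .br 1336 (.br 1330 (.hor [.f 1330 1 5] []) .no .no (.br 1328 (.red [.f 1328 1 3, .t 1336 4 2]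
  167 136 [4, 1, 1] [(167, 136, [4, 1, 1]), (183, 136, [4, 1, 1, 1])]) .no .no (.con 136 [4, 1, 1,
  4, 1]) (.con 136 [4, 1, 1, 4, 1]) .no) .no (.red [.t 1209 1 4] 167 136 [4, 1, 1] [(167, 136, [4,
  1, 1])])) .no (.br 1330 (.hor [.f 1330 1 5] []) .no .no (.br 1329 (.con 136 [4, 1, 1, 4, 1]) .no
  .no (.hor [.f 1321 3 5] []) .no (.con 136 [4, 1, 1, 4, 1])) .no (.red [.f 1208 3 1, .f 1208 1 3,
  .t 1209 1 4] 167 136 [4, 1, 1] [(167, 136, [4, 1, 1])])) (.red [.t 1336 4 2, .f 1201 3 5] 167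
  136 [4, 1, 1] [(167, 136, [4, 1, 1])]) .no .no

def c11t219 : Tr4 :=
  .br 1200 (.con 136 [1, 1, 4, 4]) .no .no (.hor [.f 1192 3 5] []) .no .no

def c11t220 : Tr4 :=
  .br 1339 (.red [.f 1339 1 3] 184 136 [1, 1, 1] [(184, 136, [1, 1, 1])]) .no .no (.use 219) .no
  .no

def c11t221 : Tr4 :=
  .br 1216 (.br 1347 (.br 1338 (.br 1337 (.hor [.f 1337 1 5] []) .no (.red [.t 1344 2 4] 168 136
  [1, 1] [(168, 136, [1, 1])]) (.br 1339 (.hor [.f 1338 1 5] []) .no .no (.con 136 [4, 1, 1, 1])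
  .no .no) .no (.red [.f 1208 5 1, .f 1208 1 3] 168 136 [1, 1] [(168, 136, [1, 1])])) .no .no
  (.red [.f 1202 3 1, .f 1210 1 3] 168 136 [1, 1] [(167, 136, [4, 1, 1]), (168, 136, [1, 1])])
  (.red [.t 1210 4 2, .f 1210 5 1, .f 1210 1 3] 168 136 [1, 1] [(151, 135, [1]), (168, 136, [1,
  1])]) (.use 220)) .no (.hor [.f 1219 3 1, .f 1218 1 5] [(169, 153, [1])]) (.red [.t 1210 4 2, .t
  1346 2 4, .t 1217 2 4] 152 136 [1] [(151, 135, [1]), (152, 136, [1]), (168, 136, [1, 1])]) .no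
  .no) .no (.br 1339 (.br 1338 (.hor [.f 1338 1 5] []) .no .no (.red [.f 1202 3 1, .f 1210 1 3]
  168 136 [1, 1] [(167, 136, [4, 1, 1]), (168, 136, [1, 1])]) .no (.br 1347 (.use 220) .no (.br
  1344 (.con 136 [3, 1, 1, 1]) .no (.hor [.f 1219 3 1, .f 1218 1 5, .f 1090 5 1, .f 1089 1 5, .f
  1216 3 1] []) (.con 136 [1, 1, 1]) (.con 136 [3, 1, 1, 1]) .no) .no .no .no)) .no (.red [.t 1210
  4 2, .t 1346 2 4, .t 1217 2 4] 152 136 [1] [(151, 135, [1]), (152, 136, [1]), (168, 136, [1,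
  1])]) (.use 219) .no (.red [.t 1210 4 2, .f 1210 5 1, .f 1210 1 3] 168 136 [1, 1] [(151, 135,
  [1]), (168, 136, [1, 1])])) .no .no .no

def c11t222 : Tr4 :=
  .br 954 .no (.br 955 .no (.hor [.f 826 1 5] []) (.use 214) (.con 136 [2, 4]) .no .no) .no (.br
  1073 (.use 213) (.red [.t 945 1 3] 135 136 [4] [(135, 136, [4])]) .no (.br 1099 (.use 204) (.red
  [.t 970 4 1, .t 961 4 1] 136 136 [] [(136, 136, []), (137, 136, [3])]) (.br 971 .no (.br 963 .no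
  (.hor [.f 835 1 3, .f 962 3 5] [(121, 120, [3])]) .no (.br 1074 .no .no .no (.use 195) (.br 1072
  (.use 189) (.con 136 [4, 4]) (.br 1219 (.hor [.f 1218 1 5] []) .no (.br 1209 (.br 1208 (.hor [.f
  1208 1 5] []) .no (.br 1201 (.red [.f 1201 1 3, .f 1201 3 5] 167 136 [4, 1, 1] [(167, 136, [4,
  1, 1])]) .no .no (.use 217) .no (.br 1347 (.br 1338 (.use 215) .no .no (.red [.f 1202 3 1, .f
  1209 1 5] 167 136 [4, 1, 1] [(167, 136, [4, 1, 1])]) (.br 1203 (.red [.t 1202 3 1, .f 1209 1 5]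
  167 136 [4, 1, 1] [(167, 136, [4, 1, 1])]) .no .no (.br 1331 (.use 218) .no .no (.red [.f 1195 3
  1, .t 1202 3 1, .f 1210 1 3] 167 136 [4, 1, 1] [(166, 136, [4, 4, 1, 1]), (167, 136, [4, 1, 1]),
  (168, 136, [1, 1])]) .no (.red [.f 1330 5 3, .f 1202 3 1, .f 1210 1 3] 167 136 [4, 1, 1] [(167,
  136, [4, 1, 1]), (168, 136, [1, 1])])) .no .no) .no) .no (.hor [.f 1219 3 1, .f 1218 1 5] [(169,
  153, [1])]) (.red [.t 1210 4 2, .t 1346 2 4, .t 1217 2 4] 152 136 [1] [(151, 135, [1]), (152,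
  136, [1]), (168, 136, [1, 1])]) .no .no)) (.con 136 [4, 1, 1]) .no .no) .no .no (.hor [.f 1201 3
  5] []) .no (.br 1201 (.use 216) .no .no (.use 221) .no (.red [.f 1200 5 3, .f 1201 3 5, .f 1081
  5 1, .f 1081 1 3] 152 136 [1] [(152, 136, [1])]))) .no .no .no) (.hor [.f 1064 3 5] []) .no .no)
  .no) .no .no) (.use 209) (.hor [.f 962 3 5] []) .no .no) .no .no (.red [.f 1090 5 3, .f 962 3 1,
  .t 961 4 1] 136 136 [] [(136, 136, []), (137, 136, [3])])) (.red [.f 1073 5 3, .f 946 3 1] 135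
  136 [4] [(135, 136, [4])]) (.use 194)) (.br 1098 (.use 205) .no (.br 963 .no (.br 971 (.red [.t
  970 4 1, .t 961 4 1] 136 136 [] [(136, 136, []), (137, 136, [3])]) (.hor [.f 835 1 3, .f 962 3
  5] [(121, 120, [3])]) (.br 1099 (.use 204) .no (.use 209) .no .no .no) .no .no .no) (.hor [.f
  962 3 5] []) .no .no .no) .no (.red [.f 1090 5 3, .f 962 3 1, .t 961 4 1] 136 136 [] [(136, 136,
  []), (137, 136, [3])]) (.br 963 .no (.br 971 (.red [.t 970 4 1, .t 961 4 1] 136 136 [] [(136,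
  136, []), (137, 136, [3])]) (.hor [.f 835 1 3, .f 962 3 5] [(121, 120, [3])]) (.br 1099 (.use
  204) .no (.use 209) .no .no .no) .no .no .no) (.hor [.f 962 3 5] []) .no .no .no)) .no

def c11t223 : Tr4 :=
  .br 945 (.hor [.f 945 1 5] []) (.con 136 [4, 4]) .no (.con 136 [4, 4]) .no (.con 136 [4, 4])

def c11t224 : Tr4 :=
  .br 947 .no (.con 136 [4, 2, 4]) .no (.hor [.f 938 3 5] []) .no .no

def c11t225 : Tr4 :=
  .br 963 .no (.br 946 .no (.br 827 .no (.br 826 .no (.hor [.f 698 1 5] []) (.red [.t 834 4 1, .f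
  818 1 3] 119 136 [4, 2] [(119, 136, [4, 2]), (120, 136, [2])]) .no .no (.br 947 .no (.hor [.f
  818 1 5] []) .no (.br 819 .no (.red [.f 691 1 3] 103 136 [2, 2, 4] [(103, 136, [2, 2, 4])]) .no
  (.red [.f 811 3 1, .f 818 1 5, .f 946 5 3, .t 945 1 3] 135 136 [4] [(118, 119, [4]), (135, 136,
  [4])]) .no .no) .no .no)) .no (.red [.t 818 1 3, .f 827 1 3] 119 136 [4, 2] [(119, 136, [4, 2]),
  (120, 136, [2])]) .no (.red [.f 826 5 1, .f 818 1 3, .t 945 1 3] 119 136 [4, 2] [(119, 136, [4,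
  2]), (135, 136, [4])])) .no (.br 947 .no (.con 136 [4, 2, 4]) .no (.hor [.f 938 3 5] []) .no
  .no) (.red [.f 946 5 3, .t 945 1 3] 135 136 [4] [(135, 136, [4])]) .no) (.hor [.f 962 3 5] [])
  .no .no .no

def c11t226 : Tr4 :=
  .br 1072 (.con 136 [4, 1]) (.con 136 [4, 4]) (.red [.f 1073 5 3, .f 1072 3 5, .t 960 1 4] 136
  136 [] [(136, 136, [])]) (.con 136 [4, 1]) .no .no

def c11t227 : Tr4 :=
  .br 1218 (.br 1210 (.red [.f 1210 1 3, .t 1217 2 4] 152 136 [1] [(152, 136, [1]), (168, 136, [1,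
  1])]) .no .no (.br 1083 (.use 222) (.con 136 [4]) .no (.use 200) .no .no) (.br 1083 .no (.con
  136 [4]) .no (.br 1074 (.red [.t 1074 1 3] 151 136 [4, 1] [(151, 136, [4, 1])]) (.use 223) .no
  (.br 1073 (.con 136 [4, 4, 1]) (.br 1072 (.con 136 [4, 1]) (.con 136 [4, 1]) (.br 944 .no (.red
  [.f 816 1 3, .f 944 3 1, .f 944 1 5] 135 136 [4] [(119, 136, [4, 2]), (135, 136, [4])]) .no (.br
  954 .no (.br 955 .no (.hor [.f 826 1 5] []) (.br 946 .no (.red [.f 818 1 3] 119 136 [2, 4]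
  [(119, 136, [2, 4])]) .no (.use 224) (.br 834 .no (.br 827 .no (.br 835 .no (.hor [.f 706 1 5]
  []) (.br 971 (.red [.t 970 4 1, .t 961 4 1, .f 945 1 3] 136 136 [] [(135, 136, [4]), (136, 136,
  []), (137, 136, [3])]) .no (.br 1219 (.hor [.f 1218 1 5] []) .no (.br 1099 .no .no (.br 1098
  (.red [.t 1226 2 4, .f 962 3 1, .t 961 4 1, .f 945 1 3] 136 136 [] [(135, 136, [4]), (136, 136,
  []), (137, 136, [3]), (153, 136, [3, 1])]) .no (.hor [.f 1098 3 5] []) .no .no (.use 206)) .no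
  .no (.red [.f 1090 5 3, .f 962 3 1, .t 961 4 1, .f 945 1 3] 136 136 [] [(135, 136, [4]), (136,
  136, []), (137, 136, [3])])) .no .no .no) .no .no .no) .no .no .no) (.hor [.f 827 3 1, .f 826 1
  5] [(120, 104, [1])]) (.red [.t 826 1 4, .t 945 1 3] 119 136 [2, 4] [(119, 136, [2, 4]), (135,
  136, [4])]) .no .no) (.hor [.f 834 3 1, .f 826 1 3, .f 953 3 5] [(120, 119, [3]), (121, 137,
  [2])]) .no (.red [.t 954 2 3, .f 946 5 3, .t 945 1 3] 135 136 [4] [(120, 119, [3]), (135, 136,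
  [4])]) (.red [.t 953 3 2, .f 953 5 1, .f 945 1 3] 135 136 [4] [(120, 119, [3]), (135, 136,
  [4])])) .no) (.con 136 [2, 4]) .no .no) .no (.red [.t 945 1 3, .f 1072 3 5] 135 136 [4] [(135,
  136, [4])]) (.use 225) .no) .no .no) (.con 136 [4, 1]) .no .no) .no (.hor [.f 1065 3 5] []) .no
  (.con 136 [4, 1])) .no (.use 226)) .no .no) (.red [.f 1081 5 1, .f 1081 1 3] 152 136 [1] [(152,
  136, [1])])) .no (.br 1083 (.use 192) (.con 136 [4]) .no (.br 1210 (.use 196) .no .no (.use 201)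
  (.br 1074 (.red [.t 1074 1 3] 151 136 [4, 1] [(151, 136, [4, 1])]) (.use 223) .no (.br 1073
  (.con 136 [4, 4, 1]) (.br 1099 (.con 136 [3, 1, 1]) (.red [.t 970 4 1, .t 961 4 1, .f 945 1 3]
  136 136 [] [(135, 136, [4]), (136, 136, []), (137, 136, [3])]) (.br 1072 (.con 136 [4, 1]) (.con
  136 [4, 1]) (.br 944 .no (.red [.f 816 1 3, .f 944 3 1, .f 944 1 5] 135 136 [4] [(119, 136, [4,
  2]), (135, 136, [4])]) .no (.br 954 .no (.br 955 .no (.hor [.f 826 1 5] []) (.br 946 .no (.red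
  [.f 818 1 3] 119 136 [2, 4] [(119, 136, [2, 4])]) .no (.use 224) (.br 834 .no (.br 827 .no (.br
  835 .no (.hor [.f 706 1 5] []) (.br 1098 .no .no (.hor [.f 1098 3 5] []) .no .no (.use 206)) .no
  .no .no) (.hor [.f 827 3 1, .f 826 1 5] [(120, 104, [1])]) (.red [.t 826 1 4, .t 945 1 3] 119
  136 [2, 4] [(119, 136, [2, 4]), (135, 136, [4])]) .no .no) (.hor [.f 834 3 1, .f 826 1 3, .f 953
  3 5] [(120, 119, [3]), (121, 137, [2])]) .no (.red [.t 954 2 3, .f 946 5 3, .t 945 1 3] 135 136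
  [4] [(120, 119, [3]), (135, 136, [4])]) (.red [.t 953 3 2, .f 953 5 1, .f 945 1 3] 135 136 [4]
  [(120, 119, [3]), (135, 136, [4])])) .no) (.con 136 [2, 4]) .no .no) .no (.red [.t 945 1 3, .f
  1072 3 5] 135 136 [4] [(135, 136, [4])]) (.use 225) .no) .no .no) (.con 136 [4, 1]) .no .no) .no
  .no (.red [.f 1090 5 3, .f 962 3 1, .t 961 4 1, .f 945 1 3] 136 136 [] [(135, 136, [4]), (136,
  136, []), (137, 136, [3])])) .no (.hor [.f 1065 3 5] []) .no (.con 136 [4, 1])) .no (.use 226))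
  (.red [.f 1081 5 1, .f 1081 1 3] 152 136 [1] [(152, 136, [1])])) .no .no) (.red [.t 1217 2 4]
  152 136 [1] [(152, 136, [1])]) (.red [.f 1090 5 1, .f 1089 1 5, .f 1081 5 3, .f 953 3 1] 136 136
  [] [(136, 136, [])]) .no

def c11t228 : Tr4 :=
  .br 1073 (.use 186) .no .no (.red [.f 937 3 1, .f 944 1 5] 134 136 [4, 4] [(134, 136, [4, 4])])
  (.red [.f 1073 5 3, .f 946 3 1] 135 136 [4] [(135, 136, [4])]) .no

def c11t229 : Tr4 :=
  .br 1208 (.con 136 [4, 1, 3, 2]) (.red [.f 1072 1 3] 151 136 [4, 1] [(151, 136, [4, 1])]) (.con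
  136 [4, 1, 3, 2]) .no (.con 136 [4, 1, 3, 2]) .no

def c11t230 : Tr4 :=
  .br 1211 (.con 136 [4, 1, 1]) .no (.con 136 [4, 1, 1]) (.hor [.f 1202 3 5] []) .no .no

def c11t231 : Tr4 :=
  .br 1219 (.hor [.f 1218 1 5] []) .no .no .no .no .no

def c11t232 : Tr4 :=
  .br 970 .no (.red [.t 842 1 4, .f 827 1 3, .f 955 3 1] 136 136 [] [(120, 136, [2]), (121, 136,
  [2, 3]), (136, 136, [])]) (.hor [.f 970 3 5] []) .no .no (.br 1099 (.br 1210 (.hor [.f 1209 1 5]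
  []) .no .no (.use 230) (.use 231) .no) .no (.red [.f 971 3 1, .t 1098 4 2, .t 961 4 1] 136 136
  [] [(136, 136, []), (137, 136, [3]), (138, 136, [3, 3])]) .no .no .no)

def c11t233 : Tr4 :=
  .br 971 (.red [.t 1098 4 2, .t 961 4 1, .f 1082 3 5] 136 136 [] [(136, 136, []), (137, 136,
  [3])]) .no (.use 232) .no .no (.red [.f 962 5 3, .f 962 3 1, .t 961 4 1] 136 136 [] [(136, 136,
  []), (137, 136, [3])])

def c11t234 : Tr4 :=
  .br 835 .no (.hor [.f 706 1 5] []) (.use 233) .no .no .no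

def c11t235 : Tr4 :=
  .br 1209 (.use 234) .no .no (.red [.t 1208 2 4] 151 136 [4, 1] [(151, 136, [4, 1])]) (.red [.f
  1081 5 1, .f 1080 1 5, .t 960 1 4] 136 136 [] [(136, 136, [])]) .no

def c11t236 : Tr4 :=
  .br 833 .no (.con 136 [2, 3, 2]) (.hor [.f 833 3 5] []) .no .no (.con 136 [2, 2, 3])

def c11t237 : Tr4 :=
  .br 1209 (.br 1210 (.hor [.f 1209 1 5] []) .no .no (.use 230) (.br 1099 (.use 231) (.red [.t
  1098 4 2, .t 961 4 1, .f 1082 3 5] 136 136 [] [(136, 136, []), (137, 136, [3])]) (.br 971 .no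
  (.br 833 .no (.con 136 [2, 3, 2]) (.hor [.f 833 3 5] []) .no .no (.con 136 [2, 3, 2])) (.br 835
  .no (.use 236) (.use 232) .no .no .no) .no .no (.red [.f 962 5 3, .f 962 3 1, .t 961 4 1] 136
  136 [] [(136, 136, []), (137, 136, [3])])) .no .no .no) .no) .no .no (.red [.t 1208 2 4] 151 136
  [4, 1] [(151, 136, [4, 1])]) (.red [.f 1081 5 1, .f 1080 1 5, .t 960 1 4] 136 136 [] [(136, 136,
  [])]) .no

def c11t238 : Tr4 :=
  .br 834 .no (.br 1208 (.con 136 [4, 1, 3, 2]) (.use 235) (.con 136 [4, 1, 3, 2]) (.con 136 [4,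
  1, 3, 2]) (.con 136 [4, 1, 3, 2]) .no) (.br 1208 (.con 136 [4, 1, 3, 2]) (.use 237) (.con 136
  [4, 1, 3, 2]) (.con 136 [4, 1, 3, 2]) (.con 136 [4, 1, 3, 2]) .no) .no (.hor [.f 834 5 1, .f 827
  1 3, .t 961 4 2, .f 824 1 5, .f 826 3 5] []) (.red [.f 825 5 3, .t 826 3 1, .f 955 3 1] 136 136
  [] [(120, 136, [2]), (136, 136, [])])

def c11t239 : Tr4 :=
  .br 1209 (.hor [.f 1208 1 5] []) .no .no .no .no .no

def c11t240 : Tr4 :=
  .br 971 .no .no (.br 970 .no (.red [.t 842 1 4, .f 827 1 3, .f 955 3 1] 136 136 [] [(120, 136,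
  [2]), (121, 136, [2, 3]), (136, 136, [])]) (.hor [.f 970 3 5] []) .no .no (.red [.f 971 3 1, .t
  1098 4 2, .t 961 4 1] 136 136 [] [(136, 136, []), (137, 136, [3]), (138, 136, [3, 3])])) .no .no
  (.red [.f 962 5 3, .f 962 3 1, .t 961 4 1] 136 136 [] [(136, 136, []), (137, 136, [3])])

def c11l8 : List Tr4 :=
  [c11t216, c11t217, c11t218, c11t219, c11t220, c11t221, c11t222, c11t223, c11t224, c11t225,
  c11t226, c11t227, c11t228, c11t229, c11t230, c11t231, c11t232, c11t233, c11t234, c11t235,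
  c11t236, c11t237, c11t238, c11t239, c11t240]

theorem c11k8 : chkLF ⟨4, 1, 0, true, -8⟩ true 0 c11N 216 c11l8 = true := by decide +kernel

def c11t241 : Tr4 :=
  .br 834 .no (.br 835 .no (.hor [.f 706 1 5] []) (.use 240) .no .no .no) (.br 835 .no (.use 236)
  (.use 240) .no .no .no) .no (.hor [.f 834 5 1, .f 827 1 3, .t 961 4 2, .f 824 1 5, .f 826 3 5]
  []) (.red [.f 825 5 3, .t 826 3 1, .f 955 3 1] 136 136 [] [(120, 136, [2]), (136, 136, [])])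

def c11t242 : Tr4 :=
  .br 1099 (.use 231) (.red [.t 1098 4 2, .t 961 4 1, .f 1082 3 5] 136 136 [] [(136, 136, []),
  (137, 136, [3])]) (.use 241) .no .no .no

def c11t243 : Tr4 :=
  .br 1347 (.con 136 [1, 3, 1, 4, 2, 3, 1, 4]) (.hor [.f 1218 1 5] []) (.con 136 [1, 3, 1, 4, 2,
  3, 1, 4]) (.con 136 [1, 3, 1, 4, 2, 3, 1, 4]) .no .no

def c11t244 : Tr4 :=
  .br 1216 (.use 243) .no .no .no .no .no

def c11t245 : Tr4 :=
  .br 1202 (.hor [.f 1202 1 3, .f 1201 3 5] [(167, 135, [1, 1])]) .no .no (.br 1066 .no (.red [.t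
  938 1 3, .f 1065 3 5] 134 136 [4, 4] [(134, 136, [4, 4])]) .no (.br 1067 (.red [.t 1194 3 2, .f
  939 3 1] 134 136 [4, 4] [(134, 136, [4, 4]), (150, 136, [4, 4, 1])]) .no .no (.hor [.f 1058 3 5]
  []) .no .no) (.red [.f 1066 5 3, .f 939 3 1] 134 136 [4, 4] [(134, 136, [4, 4])]) .no) .no .no

def c11t246 : Tr4 :=
  .br 833 .no (.br 835 .no (.con 136 [2, 2, 3]) (.hor [.f 834 3 5] []) .no .no .no) (.hor [.f 833
  3 5] []) .no .no (.red [.t 952 2 3, .f 944 5 3, .f 944 3 1, .f 952 1 3, .f 824 3 1] 136 136 []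
  [(135, 136, [4]), (136, 136, [])])

def c11t247 : Tr4 :=
  .br 1208 (.hor [.f 1208 1 5] []) .no (.br 1338 (.br 1339 (.hor [.f 1338 1 5] []) .no (.hor [.f
  1211 3 1, .f 1218 1 5] [(168, 136, [1, 1])]) (.br 1201 (.red [.f 1201 1 3, .f 1201 3 5] 167 136
  [4, 1, 1] [(167, 136, [4, 1, 1])]) .no .no (.br 1329 (.br 1330 (.red [.f 1330 1 3, .f 1202 3 1]
  167 136 [4, 1, 1] [(167, 136, [4, 1, 1]), (183, 136, [4, 1, 1, 1])]) .no .no (.con 136 [4, 1, 1,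
  4, 1]) .no .no) .no .no (.red [.f 1065 3 1, .f 1065 1 3, .f 1193 3 1] 166 136 [4, 1, 1, 4]
  [(166, 136, [4, 1, 1, 4])]) (.red [.f 1065 3 1, .t 1209 1 4] 167 136 [4, 1, 1] [(150, 134, [1]),
  (167, 136, [4, 1, 1])]) (.con 136 [4, 1, 1, 1])) .no (.br 1336 (.con 136 [4, 1, 1, 1]) .no (.con
  136 [4, 1, 1, 1]) (.red [.t 1336 4 2, .f 1201 3 5] 167 136 [4, 1, 1] [(167, 136, [4, 1, 1])])
  .no .no)) .no .no) .no .no (.red [.f 1202 3 1, .f 1209 1 5] 167 136 [4, 1, 1] [(167, 136, [4, 1,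
  1])]) (.hor [.f 1083 3 1, .f 1083 1 3, .t 1218 1 4, .t 1098 4 1, .f 1089 1 5] [(153, 137, [1]),
  (168, 136, [1, 1])]) .no) (.con 136 [4, 1, 1]) .no .no

def c11t248 : Tr4 :=
  .br 1354 (.br 1474 (.red [.f 1466 1 3, .t 1473 2 4, .f 1338 1 5] 184 136 [4, 1, 3, 1, 1] [(184,
  136, [1, 1, 1]), (200, 136, [4, 1, 3, 1, 1, 1])]) .no .no .no (.red [.t 1354 1 4, .f 1339 1 3]
  184 136 [4, 1, 3, 1, 1] [(184, 136, [1, 1, 1]), (185, 136, [4, 1, 3, 1, 1, 3])]) .no) .no (.hor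
  [.f 1226 3 1, .f 1225 1 5] [(170, 154, [1])]) .no .no .no

def c11t249 : Tr4 :=
  .br 1345 (.br 1466 (.use 248) .no (.red [.t 1473 2 4, .f 1338 1 5] 184 136 [1, 1, 1] [(184, 136,
  [1, 1, 1])]) (.con 136 [4, 1, 1, 1, 4]) .no (.red [.f 1337 5 1, .f 1337 1 3] 184 136 [1, 1, 1]
  [(184, 136, [1, 1, 1])])) .no .no .no .no .no

def c11t250 : Tr4 :=
  .br 1066 (.br 936 (.red [.t 1064 2 3] 134 136 [4, 4] [(134, 136, [4, 4])]) (.br 937 .no (.hor
  [.f 808 1 5] []) .no (.br 938 .no (.con 136 [2, 4, 4, 4]) .no (.hor [.f 929 3 5] []) .no .no)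
  (.red [.f 1065 3 1, .f 1065 1 5, .f 937 5 1, .t 938 1 3] 134 136 [4, 4] [(134, 136, [4, 4]),
  (150, 134, [1])]) .no) .no (.br 817 .no (.br 937 .no (.br 816 .no (.hor [.f 688 1 5] []) .no
  (.red [.t 808 3 1, .f 816 1 3, .f 944 3 1] 135 136 [4] [(118, 136, [2, 4, 4]), (119, 136, [2,
  4]), (135, 136, [4])]) .no .no) .no (.hor [.f 928 3 5] []) (.red [.f 1065 3 1, .f 1065 1 5, .f
  937 5 1, .t 938 1 3] 134 136 [4, 4] [(134, 136, [4, 4]), (150, 134, [1])]) .no) .no (.br 937 .no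
  .no .no (.hor [.f 928 3 5] []) (.red [.f 1065 3 1, .f 1065 1 5, .f 937 5 1, .t 938 1 3] 134 136
  [4, 4] [(134, 136, [4, 4]), (150, 134, [1])]) .no) (.red [.f 817 5 3, .t 824 1 4, .f 944 3 1]
  135 136 [4] [(119, 136, [2, 4]), (135, 136, [4])]) (.red [.f 816 5 1, .f 816 1 3, .f 944 3 1]
  135 136 [4] [(119, 136, [2, 4]), (135, 136, [4])])) (.red [.f 936 5 3, .f 937 3 1, .t 945 1 3]
  135 136 [4] [(134, 136, [4, 4]), (135, 136, [4])]) .no) (.red [.t 938 1 3, .f 1065 3 5] 134 136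
  [4, 4] [(134, 136, [4, 4])]) .no (.br 819 .no (.br 1225 (.br 938 .no (.br 937 .no (.hor [.f 809
  1 5] []) .no (.br 936 (.red [.t 1064 2 3] 134 136 [4, 4] [(134, 136, [4, 4])]) (.con 136 [2, 4,
  4, 4]) .no (.hor [.f 928 3 5] []) .no .no) .no (.red [.f 936 5 3, .f 937 3 1, .t 945 1 3] 135
  136 [4] [(134, 136, [4, 4]), (135, 136, [4])])) .no (.red [.f 930 3 1, .t 938 1 3, .f 1065 3 5]
  134 136 [4, 4] [(133, 136, [4, 4, 4]), (134, 136, [4, 4])]) .no (.br 818 .no (.hor [.f 690 1 5]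
  []) .no (.br 817 .no (.br 816 .no (.hor [.f 688 1 5] []) .no (.br 936 (.red [.t 1064 2 3, .f 808
  3 1] 134 136 [4, 4] [(118, 136, [2, 4, 4]), (134, 136, [4, 4])]) .no .no (.br 1064 (.br 1216
  (.br 1347 (.br 1339 (.red [.f 1339 1 3] 184 136 [1, 1, 1] [(184, 136, [1, 1, 1])]) .no .no (.br
  1200 (.con 136 [4, 1, 1, 4]) .no .no .no .no .no) .no .no) .no (.br 1067 (.br 1194 (.br 1200
  (.br 1329 (.br 1339 (.use 249) .no .no (.con 136 [4, 1, 1, 4]) .no .no) .no .no (.red [.f 1065 3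
  1, .f 1065 1 3, .f 1193 3 1] 166 136 [4, 4, 1, 1] [(166, 136, [4, 4, 1, 1])]) (.red [.f 1065 3
  1, .f 1065 1 3, .t 1193 3 1] 166 136 [4, 4, 1, 1] [(166, 136, [4, 4, 1, 1])]) .no) .no .no .no
  .no .no) .no .no (.red [.f 1058 3 1, .f 1066 1 5, .f 1066 5 3, .f 939 3 1] 134 136 [4, 4] [(134,
  136, [4, 4]), (149, 133, [1])]) .no .no) .no .no (.hor [.f 1058 3 5] []) .no .no) (.red [.f 1083
  3 1, .f 1083 1 3, .f 1211 3 1] 168 136 [1, 1] [(168, 136, [1, 1])]) .no .no) .no .no .no .no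
  .no) .no .no (.red [.f 928 3 1, .t 1064 2 3, .t 945 1 3] 135 136 [4] [(133, 136, [4, 4, 4]),
  (134, 136, [4, 4]), (135, 136, [4])]) .no .no) .no .no) .no .no) .no (.hor [.f 809 3 5] []) .no
  (.red [.f 816 5 1, .t 817 1 4, .f 937 3 1] 134 136 [4, 4] [(118, 136, [2, 4, 4]), (134, 136, [4,
  4])])) .no (.red [.f 817 5 3, .t 824 1 4, .f 944 3 1] 135 136 [4] [(119, 136, [2, 4]), (135,
  136, [4])]))) .no (.hor [.f 1097 3 1, .f 1096 1 5] [(154, 138, [1])]) .no .no .no) .no (.red [.f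
  811 3 1, .f 819 1 3, .f 946 3 5, .f 954 5 3, .f 955 3 1] 136 136 [] [(118, 134, [2]), (119, 120,
  [4]), (136, 136, [])]) .no (.red [.t 954 4 2, .f 954 5 3, .f 955 3 1] 136 136 [] [(119, 120,
  [4]), (136, 136, [])])) (.red [.f 1066 5 3, .f 939 3 1] 134 136 [4, 4] [(134, 136, [4, 4])]) .no

def c11t251 : Tr4 :=
  .br 1347 (.br 1339 (.red [.f 1339 1 3] 184 136 [1, 1, 1] [(184, 136, [1, 1, 1])]) .no .no (.br
  1336 (.con 136 [4, 1, 1, 1]) .no .no (.red [.f 1200 5 3, .f 1200 3 1, .f 1208 1 3] 168 136 [1,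
  1] [(167, 136, [4, 1, 1]), (168, 136, [1, 1])]) .no .no) .no .no) .no (.br 1336 (.br 1328 (.red
  [.f 1328 1 3, .f 1200 5 3, .f 1200 3 1] 167 136 [4, 1, 1] [(167, 136, [4, 1, 1]), (183, 136, [4,
  1, 1, 1])]) .no .no (.br 1329 (.br 1339 (.br 1345 (.br 1466 (.use 248) .no (.red [.t 1473 2 4,
  .f 1338 1 5] 184 136 [1, 1, 1] [(184, 136, [1, 1, 1])]) (.con 136 [4, 1, 1, 1, 4]) .no (.hor [.f
  1337 5 1, .f 1336 1 5, .f 1338 1 5] [])) .no .no .no .no .no) .no .no (.con 136 [4, 1, 1, 1])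
  .no .no) .no .no (.hor [.f 1320 3 5] []) (.red [.f 1329 5 3, .f 1202 3 1, .f 1210 1 3] 168 136
  [1, 1] [(167, 136, [4, 1, 1]), (168, 136, [1, 1])]) .no) (.red [.f 1200 5 1, .t 1201 1 3, .f
  1210 1 3] 168 136 [1, 1] [(167, 136, [4, 1, 1]), (168, 136, [1, 1])]) .no) .no .no (.red [.f
  1200 5 3, .f 1200 3 1, .f 1208 1 3] 168 136 [1, 1] [(167, 136, [4, 1, 1]), (168, 136, [1, 1])])
  .no .no) (.red [.f 1083 3 1, .f 1083 1 3, .f 1211 3 1] 168 136 [1, 1] [(168, 136, [1, 1])]) .no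
  .no

def c11t252 : Tr4 :=
  .br 1097 (.hor [.f 1089 1 3, .f 1089 3 5] [(153, 137, [1])]) .no (.br 1096 (.br 1226 (.hor [.f
  1218 1 3, .f 1090 3 1, .f 1089 1 5] [(153, 137, [1]), (169, 137, [1, 1])]) .no (.br 1074 .no .no
  .no (.hor [.f 1065 3 5] []) (.br 947 .no (.red [.f 819 1 3, .f 946 3 5, .f 954 5 3, .f 955 3 1]
  136 136 [] [(119, 118, [3]), (136, 136, [])]) .no (.br 1209 (.use 247) .no .no (.hor [.f 1201 3
  5] []) .no (.br 1338 (.br 1339 (.hor [.f 1338 1 5] []) .no (.red [.f 1083 3 1, .f 1083 1 3, .f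
  1211 3 1] 168 136 [1, 1] [(168, 136, [1, 1])]) (.br 1337 (.hor [.f 1337 1 5] []) .no (.br 1216
  (.red [.t 1344 2 4] 168 136 [1, 1] [(168, 136, [1, 1])]) .no .no .no .no .no) (.con 136 [4, 1,
  1, 1]) .no (.con 136 [4, 1, 1, 1])) .no .no) .no .no (.red [.f 1202 3 1, .f 1210 1 3] 168 136
  [1, 1] [(167, 136, [4, 1, 1]), (168, 136, [1, 1])]) (.red [.f 1083 3 1, .f 1083 1 3, .t 1218 1
  4, .t 1098 4 1, .f 1089 1 5] 168 136 [1, 1] [(153, 137, [1]), (168, 136, [1, 1])]) (.br 1201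
  (.red [.t 1201 1 3, .f 1210 1 3, .f 1210 3 5] 168 136 [1, 1] [(167, 136, [4, 1, 1]), (168, 136,
  [1, 1])]) .no .no (.use 250) .no (.br 1225 (.br 1216 (.use 251) .no .no .no .no .no) .no (.hor
  [.f 1097 3 1, .f 1096 1 5] [(154, 138, [1])]) .no .no .no)))) .no .no) .no) .no .no (.hor [.t
  1089 1 3, .f 1098 1 5] [(153, 137, [1])])) (.con 136 [3, 3]) (.hor [.f 1096 3 5] []) .no .no
  .no) .no .no (.br 1074 .no .no .no (.hor [.f 1065 3 5] []) (.br 1209 (.use 247) .no .no (.hor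
  [.f 1201 3 5] []) .no (.br 1216 (.br 1226 (.hor [.f 1218 1 3, .f 1090 3 1, .f 1089 1 5] [(153,
  137, [1]), (169, 168, [3])]) .no (.br 1225 (.br 1338 (.br 1337 (.hor [.f 1337 1 5] []) .no (.red
  [.t 1344 2 4] 168 136 [1, 1] [(168, 136, [1, 1])]) (.br 1339 (.hor [.f 1338 1 5] []) .no (.red
  [.f 1083 3 1, .f 1083 1 3, .f 1211 3 1] 168 136 [1, 1] [(168, 136, [1, 1])]) (.con 136 [4, 1, 1,
  1]) .no .no) .no (.red [.f 1208 5 1, .f 1208 1 3] 168 136 [1, 1] [(168, 136, [1, 1])])) .no .no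
  (.red [.f 1202 3 1, .f 1210 1 3] 168 136 [1, 1] [(167, 136, [4, 1, 1]), (168, 136, [1, 1])])
  (.red [.f 1083 3 1, .f 1083 1 3, .t 1218 1 4, .t 1098 4 1, .f 1089 1 5] 168 136 [1, 1] [(153,
  137, [1]), (168, 136, [1, 1])]) (.br 1201 (.red [.t 1201 1 3, .f 1210 1 3, .f 1210 3 5] 168 136
  [1, 1] [(167, 136, [4, 1, 1]), (168, 136, [1, 1])]) .no .no (.br 1200 (.br 1339 (.br 1347 (.red
  [.f 1339 1 3] 184 136 [1, 1, 1] [(184, 136, [1, 1, 1])]) .no (.br 1329 (.use 249) .no .no (.red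
  [.f 1065 3 1, .f 1065 1 3, .f 1193 3 1] 166 136 [4, 4, 1, 1] [(166, 136, [4, 4, 1, 1])]) (.red
  [.f 1329 5 3, .f 1202 3 1, .f 1210 1 3] 168 136 [1, 1] [(167, 136, [4, 1, 1]), (168, 136, [1,
  1])]) .no) .no .no .no) .no (.red [.f 1083 3 1, .f 1083 1 3, .f 1211 3 1] 168 136 [1, 1] [(168,
  136, [1, 1])]) (.con 136 [4, 1, 1, 4]) .no .no) .no .no (.hor [.f 1192 3 5] []) .no .no) .no
  (.use 251))) .no (.hor [.f 1225 3 5] []) .no .no (.red [.f 1096 5 1, .f 1089 1 3, .f 1089 3 5,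
  .f 1081 5 3, .f 953 3 1] 136 136 [] [(136, 136, []), (153, 137, [1])])) .no .no (.hor [.t 1089 1
  3, .f 1098 1 5] [(153, 137, [1])])) .no (.hor [.t 1216 3 2, .f 1089 3 5] [(153, 137, [1])]) .no
  .no .no)) .no)

def c11t253 : Tr4 :=
  .br 1210 (.br 1211 (.hor [.f 1210 1 5] []) .no (.hor [.f 1083 3 1, .f 1083 1 3, .f 1210 1 3, .f
  1210 3 5] [(168, 136, [1, 1])]) (.br 1072 (.use 229) .no (.br 1099 (.br 834 .no (.br 833 .no
  (.hor [.f 705 1 5] []) (.br 835 .no (.hor [.f 706 1 5] []) (.br 971 .no .no (.br 970 .no (.red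
  [.t 842 1 4, .f 827 1 3, .f 955 3 1] 136 136 [] [(120, 136, [2]), (121, 136, [2, 3]), (136, 136,
  [])]) (.hor [.f 970 3 5] []) .no .no (.br 1097 (.hor [.f 1089 1 3, .f 1089 3 5] [(153, 137,
  [1])]) .no (.br 1096 (.br 1074 (.br 1209 (.hor [.f 1209 1 5] []) .no .no (.red [.t 1201 3 2, .f
  946 3 1] 135 136 [4] [(135, 136, [4]), (151, 136, [4, 1])]) .no (.use 244)) .no .no (.hor [.f
  1065 3 5] []) (.br 947 .no (.red [.f 819 1 3, .f 946 3 5, .f 954 5 3, .f 955 3 1] 136 136 []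
  [(119, 118, [3]), (136, 136, [])]) .no (.br 1209 (.hor [.f 1209 1 5] []) .no .no (.use 245) .no
  (.use 244)) .no .no) .no) (.con 136 [3, 3]) (.hor [.f 1096 3 5] []) .no .no .no) .no .no (.br
  1216 (.use 243) .no (.hor [.t 1216 3 2, .f 1089 3 5] [(153, 137, [1])]) (.br 1209 (.hor [.f 1209
  1 5] []) .no .no (.br 1074 (.red [.t 1201 3 2, .f 946 3 1] 135 136 [4] [(135, 136, [4]), (151,
  136, [4, 1])]) .no .no (.hor [.f 1065 3 5] []) (.br 947 .no (.red [.f 819 1 3, .f 946 3 5, .f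
  954 5 3, .f 955 3 1] 136 136 [] [(119, 118, [3]), (136, 136, [])]) .no (.use 245) .no .no) .no)
  .no .no) .no .no))) .no .no (.red [.f 962 5 3, .f 962 3 1, .t 961 4 1] 136 136 [] [(136, 136,
  []), (137, 136, [3])])) .no .no .no) .no .no (.red [.t 952 2 3, .f 944 5 3, .f 944 3 1, .f 952 1
  3, .f 824 3 1] 136 136 [] [(135, 136, [4]), (136, 136, [])])) (.use 246) .no (.hor [.f 834 5 1,
  .f 827 1 3, .t 961 4 2, .f 824 1 5, .f 826 3 5] []) (.red [.f 825 5 3, .t 826 3 1, .f 955 3 1]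
  136 136 [] [(120, 136, [2]), (136, 136, [])])) (.red [.t 1098 4 2, .t 961 4 1, .f 1082 3 5] 136
  136 [] [(136, 136, []), (137, 136, [3])]) (.use 241) .no .no .no) (.hor [.f 1064 3 5] []) .no
  .no) .no .no) .no .no (.br 1099 (.br 1072 (.use 229) .no (.br 834 .no (.br 833 .no (.hor [.f 705
  1 5] []) (.br 1219 (.hor [.f 1218 1 5] []) .no .no (.br 835 .no (.hor [.f 706 1 5] []) (.br 971
  .no .no (.br 970 .no (.red [.t 842 1 4, .f 827 1 3, .f 955 3 1] 136 136 [] [(120, 136, [2]),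
  (121, 136, [2, 3]), (136, 136, [])]) (.hor [.f 970 3 5] []) .no .no (.use 252)) .no .no (.red
  [.f 1083 3 1, .f 962 5 3, .f 962 3 1, .t 961 4 1] 136 136 [] [(136, 136, []), (137, 136, [3]),
  (152, 136, [1])])) .no .no .no) .no .no) .no .no (.red [.t 952 2 3, .f 944 5 3, .f 944 3 1, .f
  952 1 3, .f 824 3 1] 136 136 [] [(135, 136, [4]), (136, 136, [])])) (.use 246) .no (.hor [.f 834
  5 1, .f 827 1 3, .t 961 4 2, .f 824 1 5, .f 826 3 5] []) (.red [.f 825 5 3, .t 826 3 1, .f 955 3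
  1] 136 136 [] [(120, 136, [2]), (136, 136, [])])) (.hor [.f 1064 3 5] []) .no .no) (.red [.t
  1098 4 2, .t 961 4 1, .f 1082 3 5] 136 136 [] [(136, 136, []), (137, 136, [3])]) (.use 241) .no
  .no .no) (.use 242) (.red [.f 1081 5 1, .f 1081 1 3, .f 953 3 1] 136 136 [] [(136, 136, []),
  (152, 136, [1])])

def c11t254 : Tr4 :=
  .br 954 .no (.use 150) .no (.br 955 .no (.br 826 .no (.br 825 .no (.hor [.f 697 1 5] []) (.con
  136 [2, 2]) (.br 945 (.red [.t 945 1 3] 135 136 [4] [(135, 136, [4])]) .no .no (.br 944 (.use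
  228) (.hor [.f 816 1 3, .f 816 3 5] [(119, 136, [2, 4])]) .no (.hor [.f 936 3 5] []) .no .no)
  .no (.br 1073 (.use 188) .no .no (.br 1072 (.use 229) .no (.red [.t 824 1 4, .f 944 3 1] 135 136
  [4] [(119, 136, [2, 4]), (135, 136, [4])]) (.hor [.f 1064 3 5] []) .no .no) (.red [.f 1073 5 3,
  .f 946 3 1] 135 136 [4] [(135, 136, [4])]) (.red [.f 944 5 1, .t 945 1 3] 135 136 [4] [(135,
  136, [4])]))) .no .no) (.red [.t 826 3 1, .f 955 3 1] 136 136 [] [(120, 136, [2]), (136, 136,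
  [])]) (.red [.f 818 3 1, .f 826 1 5, .f 954 5 3, .f 955 3 1] 136 136 [] [(119, 120, [4]), (136,
  136, [])]) .no (.br 1218 (.br 945 (.red [.t 945 1 3] 135 136 [4] [(135, 136, [4])]) (.red [.t
  945 2 3, .f 826 1 5, .f 954 5 3, .f 955 3 1] 136 136 [] [(119, 120, [4]), (136, 136, [])]) .no
  (.br 944 (.use 228) (.br 1073 (.br 1072 (.use 229) .no (.red [.f 816 1 3, .f 944 3 1] 135 136
  [4] [(119, 136, [2, 4]), (135, 136, [4])]) (.use 187) .no .no) .no .no (.red [.f 937 3 1, .t 945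
  1 3] 135 136 [4] [(134, 136, [4, 4]), (135, 136, [4])]) (.red [.f 1073 5 3, .f 946 3 1] 135 136
  [4] [(135, 136, [4])]) (.use 238)) .no (.hor [.f 936 3 5] []) .no .no) .no (.br 1073 (.br 1072
  (.use 229) .no (.br 1210 (.br 1208 (.use 239) .no (.use 75) (.use 62) (.red [.t 1072 3 1, .f 944
  5 1, .t 945 1 3] 135 136 [4] [(135, 136, [4]), (151, 135, [1])]) .no) .no .no (.red [.t 1201 2
  3, .f 1072 3 5, .t 960 1 4] 136 136 [] [(136, 136, []), (151, 135, [1])]) (.use 242) (.red [.f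
  1081 5 1, .f 1081 1 3, .f 953 3 1] 136 136 [] [(136, 136, []), (152, 136, [1])])) (.use 187) .no
  .no) .no .no (.use 253) (.red [.f 1073 5 3, .f 946 3 1] 135 136 [4] [(135, 136, [4])]) (.use
  238))) .no (.hor [.f 1090 3 1, .f 1089 1 5] [(153, 137, [1])]) (.red [.t 1217 2 4, .f 953 3 1,
  .f 960 1 5] 136 136 [] [(136, 136, []), (152, 136, [1])]) (.br 1099 (.hor [.t 1098 4 1, .f 1089
  1 5] [(153, 137, [1])]) (.red [.t 1098 4 2, .t 961 4 1, .f 1082 3 5] 136 136 [] [(136, 136, []),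
  (137, 136, [3])]) (.use 241) .no .no .no) .no)) .no (.hor [.f 946 3 5] []) .no .no) (.red [.f
  954 5 3, .f 955 3 1] 136 136 [] [(136, 136, [])]) .no

def c11l9 : List Tr4 :=
  [c11t241, c11t242, c11t243, c11t244, c11t245, c11t246, c11t247, c11t248, c11t249, c11t250,
  c11t251, c11t252, c11t253, c11t254]

theorem c11k9 : chkLF ⟨4, 1, 0, true, -8⟩ true 0 c11N 241 c11l9 = true := by decide +kernel

def c11t255 : Tr4 :=
  .br 1081 (.br 1089 (.red [.f 1081 1 3, .f 953 3 1] 136 136 [] [(136, 136, []), (152, 136, [1])])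
  .no (.br 1090 (.con 136 [3, 1]) (.br 1082 (.hor [.f 1081 1 5] []) (.red [.f 954 1 3, .f 953 3 5]
  136 136 [] [(136, 136, [])]) .no (.br 1091 (.use 147) (.con 136 [3, 1]) (.con 136 [3, 1]) (.use
  148) .no .no) (.br 1091 (.br 955 .no (.br 963 .no (.red [.f 827 1 3, .t 962 1 4] 136 136 []
  [(120, 136, [2]), (136, 136, [])]) (.br 954 .no (.hor [.f 826 1 5] []) .no (.br 947 (.red [.t
  946 3 1, .f 954 1 3, .f 953 3 5] 136 136 [] [(135, 136, [4]), (136, 136, [])]) (.red [.f 819 1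
  3, .f 946 3 5, .f 954 5 1, .f 954 1 3] 136 136 [] [(119, 120, [4]), (136, 136, [])]) .no (.br
  1075 (.br 1210 (.br 1218 (.red [.f 1210 1 3, .t 1218 4 2] 152 136 [1] [(152, 136, [1]), (168,
  136, [1, 1])]) .no (.br 1217 (.con 136 [3, 1, 1]) .no (.red [.f 1089 3 1, .f 1081 1 3] 152 136
  [1] [(152, 136, [1]), (153, 136, [3, 1])]) .no .no (.con 136 [3, 1, 1])) .no .no (.br 1098 (.red
  [.t 1097 4 1, .f 1081 1 3] 152 136 [1] [(152, 136, [1]), (153, 136, [3, 1])]) (.hor [.f 962 1 3,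
  .f 962 3 5] [(137, 121, [1])]) (.br 1099 (.br 1226 (.br 1225 (.hor [.f 1225 1 5] []) .no (.con
  136 [3, 1, 1, 3]) .no .no (.con 136 [3, 1, 3])) .no (.red [.f 1098 3 1, .t 1097 4 1, .f 1081 1
  3] 152 136 [1] [(152, 136, [1]), (153, 136, [3, 1]), (154, 136, [3, 3, 1])]) .no .no (.red [.f
  1217 5 3, .f 1089 3 1, .f 1081 1 3] 152 136 [1] [(152, 136, [1]), (153, 136, [3, 1])])) .no
  (.hor [.f 1098 3 5] []) .no .no .no) .no (.hor [.t 962 1 3, .f 1089 3 5] [(137, 121, [1])])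
  .no)) .no (.red [.t 1218 4 2, .f 1081 1 5] 152 136 [1] [(152, 136, [1])]) (.red [.t 1202 3 2, .f
  1081 1 5, .t 961 4 1] 136 136 [] [(136, 136, []), (151, 167, [2])]) (.red [.f 1082 5 1, .f 1083
  1 3] 152 136 [1] [(152, 136, [1])]) .no) .no .no (.red [.f 939 3 1, .t 946 3 1, .f 954 1 3] 136
  136 [] [(134, 136, [4, 4]), (135, 136, [4]), (136, 136, [])]) .no (.red [.f 1074 5 3, .f 946 3
  1, .f 954 1 3] 136 136 [] [(135, 136, [4]), (136, 136, [])])) .no .no) .no .no) .no .no .no)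
  (.red [.t 962 1 4] 136 136 [] [(136, 136, [])]) (.use 149) .no (.red [.f 954 5 1, .f 954 1 3]
  136 136 [] [(136, 136, [])])) (.con 136 [3, 1]) (.con 136 [3, 1]) .no .no .no) .no) (.hor [.f
  1089 3 5] []) (.con 136 [3, 1]) (.con 136 [3, 1]) .no) .no (.use 172) .no) .no (.red [.f 953 3
  1, .f 960 1 5] 136 136 [] [(136, 136, [])]) (.br 1089 (.br 962 (.use 174) (.br 1082 (.use 173)
  (.br 963 (.con 136 [3]) (.hor [.f 834 1 5] []) (.con 136 [2, 3]) (.br 1091 (.br 1083 (.red [.f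
  1083 1 3] 152 136 [1] [(152, 136, [1])]) .no .no (.use 175) .no .no) .no (.use 176) (.red [.f
  955 3 1, .f 954 1 5] 136 136 [] [(136, 136, [])]) .no (.red [.t 954 1 3] 136 136 [] [(136, 136,
  [])])) .no .no) (.use 177) (.hor [.f 1073 3 5] []) (.use 179) .no) (.use 183) (.hor [.f 953 3 5]
  []) (.br 1082 (.use 173) (.br 1083 (.use 184) (.hor [.f 954 1 5] []) (.red [.t 1082 2 3, .f 953
  3 5] 136 136 [] [(136, 136, [])]) (.use 175) .no .no) (.use 177) (.hor [.f 1073 3 5] []) (.use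
  179) .no) .no) .no (.br 1090 (.con 136 [3, 1]) (.use 174) (.hor [.f 1089 3 5] []) (.con 136 [3,
  1]) (.con 136 [3, 1]) .no) .no (.br 1082 (.use 173) (.red [.t 953 3 1, .f 960 1 5] 136 136 []
  [(136, 136, [])]) .no (.hor [.f 1073 3 5] []) (.use 179) .no) .no) (.br 1089 (.br 962 (.red [.t
  961 4 1] 136 136 [] [(136, 136, [])]) (.br 963 (.con 136 [3]) (.hor [.f 834 1 5] []) (.con 136
  [2, 3]) (.br 954 .no (.hor [.f 826 1 3, .f 953 3 5] [(120, 119, [3])]) .no (.use 203) .no .no)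
  .no .no) (.br 1090 (.hor [.f 1089 1 5] []) .no (.red [.f 962 3 1, .t 961 4 1] 136 136 [] [(136,
  136, []), (137, 136, [3])]) .no (.use 227) .no) (.hor [.f 953 3 5] []) (.br 1090 (.hor [.f 1089
  1 5] []) .no (.br 1091 (.br 1083 (.red [.f 1083 1 3] 152 136 [1] [(152, 136, [1])]) (.con 136
  [4]) .no (.br 1210 (.use 197) .no (.red [.t 1217 2 4] 152 136 [1] [(152, 136, [1])]) (.use 41)
  (.br 1074 (.red [.t 1074 1 3, .f 1083 1 3] 152 136 [1] [(151, 136, [4, 1]), (152, 136, [1])])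
  (.use 223) .no (.br 1073 (.con 136 [4, 4, 1]) (.br 954 .no (.br 955 .no (.hor [.f 826 1 5] [])
  .no (.con 136 [2, 4]) .no .no) .no (.red [.t 945 1 3] 135 136 [4] [(135, 136, [4])]) (.red [.f
  954 5 3, .f 953 3 5, .f 953 5 1, .f 945 1 3] 135 136 [4] [(135, 136, [4])]) .no) .no (.hor [.f
  1065 3 5] []) .no (.con 136 [4, 1])) .no (.use 226)) (.red [.f 1081 5 1, .f 1081 1 3] 152 136
  [1] [(152, 136, [1])])) .no .no) .no (.hor [.f 1090 3 5] []) (.use 254) .no .no) .no (.red [.f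
  962 5 1, .t 961 4 1] 136 136 [] [(136, 136, [])]) .no) .no) .no (.br 1090 (.con 136 [3, 1])
  (.red [.t 961 4 1] 136 136 [] [(136, 136, [])]) (.hor [.f 1089 3 5] []) .no (.con 136 [3, 1])
  .no) .no (.red [.f 1081 5 3, .f 953 3 1] 136 136 [] [(136, 136, [])]) .no) (.red [.t 960 1 4]
  136 136 [] [(136, 136, [])])

def c11t256 : Tr4 :=
  .br 1088 (.con 136 [3, 1]) .no (.hor [.f 1088 3 5] []) (.con 136 [3, 1]) .no .no

def c11t257 : Tr4 :=
  .br 1091 (.use 147) (.con 136 [3]) (.con 136 [3, 1]) (.use 148) .no .no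

def c11t258 : Tr4 :=
  .br 963 .no (.red [.f 827 1 3, .f 955 3 1, .f 962 1 5] 136 136 [] [(120, 136, [2]), (136, 136,
  [])]) (.con 136 [3, 2]) .no .no .no

def c11t259 : Tr4 :=
  .br 963 (.con 136 [3]) (.red [.f 827 1 3, .t 962 1 4] 136 136 [] [(120, 136, [2]), (136, 136,
  [])]) (.con 136 [2, 3]) .no .no .no

def c11t260 : Tr4 :=
  .br 1081 (.br 1089 (.red [.f 1081 1 3, .f 953 3 1] 136 136 [] [(136, 136, []), (152, 136, [1])])
  .no (.use 256) .no .no (.br 1082 (.hor [.f 1081 1 5] []) (.red [.f 954 1 3, .f 953 3 5] 136 136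
  [] [(136, 136, [])]) .no (.use 257) (.br 955 .no (.br 963 (.con 136 [3]) (.red [.f 827 1 3, .t
  962 1 4] 136 136 [] [(120, 136, [2]), (136, 136, [])]) (.con 136 [2, 3]) .no .no .no) (.hor [.f
  824 1 3, .f 952 3 5] [(120, 121, [4])]) (.use 149) .no (.red [.f 954 5 1, .f 954 1 3] 136 136 []
  [(136, 136, [])])) .no)) .no (.red [.f 953 3 1, .f 961 1 5] 136 136 [] [(136, 136, [])]) (.use
  174) (.red [.t 961 4 1] 136 136 [] [(136, 136, [])]) (.br 1089 (.br 1088 (.hor [.f 1088 1 5] [])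
  .no (.br 1082 (.br 1083 (.hor [.f 1082 1 5] []) (.con 136 [4]) (.br 955 .no (.use 258) (.hor [.f
  824 1 3, .f 952 3 5] [(120, 121, [4])]) (.br 946 (.con 136 [4, 2]) (.con 136 [4, 2]) (.hor [.f
  946 3 5] []) (.con 136 [4, 2]) .no (.con 136 [4, 2])) .no (.red [.t 1090 2 4, .f 953 3 5] 136
  136 [] [(136, 136, [])])) (.con 136 [4, 1]) .no .no) (.red [.f 954 1 3, .f 953 3 5] 136 136 []
  [(136, 136, [])]) .no (.br 1083 (.br 1091 (.red [.f 1083 1 3] 152 136 [1] [(152, 136, [1])])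
  (.con 136 [3]) (.br 963 .no (.br 954 .no (.br 955 .no (.hor [.f 826 1 5] []) .no (.con 136 [2,
  4]) .no .no) .no (.red [.f 946 3 1, .f 954 1 3] 136 136 [] [(135, 136, [4]), (136, 136, [])])
  (.br 1075 (.red [.f 1075 1 3, .f 1074 3 5, .f 954 5 1, .f 954 1 3] 136 136 [] [(136, 136, []),
  (151, 135, [1])]) (.red [.t 1074 3 2, .f 954 1 3] 136 136 [] [(135, 136, [4]), (136, 136, [])])
  .no (.use 152) .no .no) .no) (.con 136 [2, 3]) (.hor [.f 824 1 3, .f 952 3 5] [(120, 121, [4])])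
  .no .no) .no .no .no) (.con 136 [4]) (.use 148) (.hor [.f 1074 3 5] []) .no .no) (.br 955 .no
  (.use 259) (.hor [.f 824 1 3, .f 952 3 5] [(120, 121, [4])]) (.use 149) .no (.red [.f 954 5 1,
  .f 954 1 3] 136 136 [] [(136, 136, [])])) .no) .no .no .no) .no (.use 256) .no .no (.red [.f
  1080 5 3, .f 953 3 1] 136 136 [] [(136, 136, [])]))

def c11t261 : Tr4 :=
  .br 1088 (.con 136 [3, 1]) .no (.hor [.f 1088 3 5] []) (.con 136 [3, 1]) .no .no

def c11t262 : Tr4 :=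
  .br 1208 (.red [.f 1208 1 3, .t 1208 3 2] 152 136 [1] [(152, 136, [1]), (168, 136, [1, 1])])
  (.hor [.f 1080 1 5] []) .no (.br 1072 .no (.con 136 [4, 1, 3]) (.red [.f 1072 3 1, .f 1080 1 5,
  .f 1080 5 3, .f 953 3 1] 136 136 [] [(136, 136, []), (151, 135, [1])]) (.con 136 [4, 1, 3])
  (.con 136 [4, 1, 3]) .no) .no .no

def c11t263 : Tr4 :=
  .br 1089 (.hor [.f 1088 1 5] []) .no (.con 136 [3, 1]) .no .no .no

def c11t264 : Tr4 :=
  .br 1088 (.use 263) .no (.red [.f 960 3 1, .t 960 1 4] 136 136 [] [(136, 136, []), (137, 136,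
  [3])]) .no (.red [.f 1080 5 3, .f 953 3 1] 136 136 [] [(136, 136, [])]) .no

def c11t265 : Tr4 :=
  .br 825 .no (.br 833 (.hor [.f 833 1 5] []) (.con 136 [2, 3]) (.con 136 [2, 3]) .no .no (.con
  136 [2, 3])) (.con 136 [2, 2]) (.red [.f 817 3 1, .f 824 1 5] 119 136 [2, 4] [(119, 136, [2,
  4])]) (.br 833 (.hor [.f 833 1 5] []) (.con 136 [2, 3]) (.con 136 [2, 3]) .no .no (.con 136 [2,
  3])) .no

def c11t266 : Tr4 :=
  .br 1338 (.hor [.f 1337 1 5] []) .no .no (.hor [.t 1329 2 3, .f 1210 1 5] [(167, 136, [1, 4,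
  1])]) .no .no

def c11t267 : Tr4 :=
  .br 1099 (.con 136 [3, 3]) (.br 970 .no (.hor [.f 841 1 5] []) (.con 136 [3, 2, 3]) .no .no .no)
  (.con 136 [3, 3]) .no .no .no

def c11t268 : Tr4 :=
  .br 1216 (.red [.f 1208 1 3, .t 1216 4 2] 152 136 [1] [(152, 136, [1]), (168, 136, [1, 1])]) .no
  (.br 1097 (.hor [.f 1089 1 3, .f 1089 3 5] [(153, 137, [1])]) (.red [.t 1097 2 4, .f 954 1 3]
  136 136 [] [(136, 136, []), (137, 136, [3])]) (.br 1096 .no (.br 969 .no (.use 267) (.hor [.f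
  960 1 3, .f 960 3 1, .f 969 3 1, .f 968 1 5] [(138, 136, [3, 3])]) .no (.red [.f 960 1 3, .f 961
  5 3, .f 962 3 1, .f 954 1 3] 136 136 [] [(136, 136, [])]) .no) (.hor [.f 1096 3 5] []) .no .no
  .no) .no .no (.hor [.t 1216 3 2, .f 1089 3 5] [(153, 137, [1])])) .no .no .no

def c11t269 : Tr4 :=
  .br 1211 (.br 1210 (.hor [.f 1210 1 5] []) .no .no (.con 136 [4, 1, 1]) .no (.con 136 [4, 1,
  1])) .no .no (.red [.f 1075 3 1, .f 1083 1 3] 152 136 [1] [(151, 136, [4, 1]), (152, 136, [1])])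
  .no (.br 1209 (.con 136 [4, 1, 1]) .no .no (.hor [.f 1200 3 5] []) .no .no)

def c11t270 : Tr4 :=
  .br 971 .no (.br 977 .no (.hor [.t 848 4 1, .f 969 3 1, .f 977 1 5] [(122, 136, [3, 2, 3]),
  (138, 136, [3, 3])]) (.hor [.f 976 3 5] []) .no .no .no) (.hor [.t 978 1 4, .f 1097 3 5] [(138,
  136, [3, 3])]) .no .no .no

def c11t271 : Tr4 :=
  .br 827 .no (.con 136 [2, 2, 4]) (.con 136 [2, 2]) (.hor [.f 818 3 5] []) .no .no

def c11t272 : Tr4 :=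
  .br 834 .no (.hor [.f 704 1 3, .t 832 3 1, .f 961 3 5] [(105, 104, [3]), (121, 120, [3])]) (.hor
  [.f 834 3 1, .f 833 1 5] [(121, 120, [3])]) .no (.hor [.f 704 1 3, .t 832 3 1, .f 961 3 5]
  [(105, 104, [3]), (121, 120, [3])]) .no

def c11t273 : Tr4 :=
  .br 947 .no (.con 136 [2, 4, 4]) .no (.hor [.f 938 3 5] []) .no .no

def c11t274 : Tr4 :=
  .br 698 .no (.hor [.f 570 1 5] []) .no (.hor [.t 690 3 1, .f 697 1 5] [(103, 136, [2, 2, 4])])
  .no .no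

def c11t275 : Tr4 :=
  .br 699 .no (.use 274) (.red [.t 706 1 4, .f 691 1 3] 103 136 [2, 2, 4] [(103, 136, [2, 2, 4]),
  (104, 136, [2, 2])]) .no .no (.red [.f 698 5 1, .f 691 1 3] 103 136 [2, 2, 4] [(103, 136, [2, 2,
  4])])

def c11t276 : Tr4 :=
  .br 819 .no (.use 275) .no (.con 136 [2, 2, 4, 4]) .no .no

def c11t277 : Tr4 :=
  .br 699 .no (.br 698 .no (.hor [.f 570 1 5] []) (.con 136 [2, 2, 2]) (.red [.t 690 3 1, .f 697 1
  5] 103 136 [2, 2, 4] [(103, 136, [2, 2, 4])]) .no .no) (.red [.f 826 5 3, .f 699 3 1, .f 691 1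
  3] 103 136 [2, 2, 4] [(103, 136, [2, 2, 4]), (104, 136, [2, 2])]) .no .no (.red [.f 698 5 1, .f
  691 1 3] 103 136 [2, 2, 4] [(103, 136, [2, 2, 4])])

def c11t278 : Tr4 :=
  .br 819 .no (.use 277) .no (.con 136 [2, 2, 4, 4]) .no .no

def c11t279 : Tr4 :=
  .br 947 .no (.hor [.f 818 1 5] []) .no (.br 817 .no (.hor [.f 688 1 5] []) .no (.br 834 .no
  (.use 276) (.hor [.f 834 3 1, .f 833 1 5] [(121, 137, [2])]) .no (.use 278) .no) .no .no) .no
  .no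

def c11t280 : Tr4 :=
  .br 816 .no (.use 279) .no (.red [.f 808 3 1, .f 816 1 3] 119 136 [2, 4] [(118, 136, [2, 4, 4]),
  (119, 136, [2, 4])]) (.red [.t 952 2 4, .f 817 1 5] 119 136 [2, 4] [(119, 136, [2, 4])]) .no

def c11t281 : Tr4 :=
  .br 826 .no (.hor [.f 697 1 5] []) (.red [.f 1073 1 3, .f 945 3 1, .f 953 1 5, .t 833 1 4, .f
  818 1 3] 119 136 [2, 4] [(119, 136, [2, 4]), (120, 136, [2]), (135, 119, [1]), (151, 152, [4])])
  .no (.use 280) .no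

def c11t282 : Tr4 :=
  .br 1074 (.red [.t 1074 1 3, .f 1083 1 3, .f 955 3 1, .f 954 1 5] 136 136 [] [(136, 136, []),
  (151, 136, [4, 1]), (152, 136, [1])]) (.red [.f 946 1 3, .f 1074 3 5, .f 1082 5 1, .f 1083 1 3]
  152 136 [1] [(135, 119, [1]), (152, 136, [1])]) .no (.br 1080 (.hor [.f 1080 1 5] []) .no .no
  (.br 1073 (.br 944 .no (.red [.f 816 1 3] 119 136 [2, 4] [(119, 136, [2, 4])]) .no (.br 946 .no
  (.br 825 .no (.use 281) .no (.red [.f 817 3 1, .f 817 1 5] 119 136 [2, 4] [(119, 136, [2, 4])])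
  (.red [.t 945 3 2, .f 824 1 5] 119 136 [2, 4] [(119, 136, [2, 4])]) .no) .no (.use 273) (.red
  [.f 1073 1 3, .t 1082 2 4, .f 1082 5 1, .f 1083 1 3] 152 136 [1] [(135, 119, [1]), (151, 150,
  [3]), (152, 136, [1])]) .no) .no .no) .no .no (.hor [.f 1065 3 5] []) .no .no) .no .no) .no
  (.red [.t 953 4 1, .f 1074 3 5, .f 1082 5 1, .f 1083 1 3] 152 136 [1] [(135, 119, [1]), (152,
  136, [1])])

def c11t283 : Tr4 :=
  .br 818 .no (.con 136 [2, 4, 2, 4]) .no (.hor [.f 809 3 5] []) .no .no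

def c11l10 : List Tr4 :=
  [c11t255, c11t256, c11t257, c11t258, c11t259, c11t260, c11t261, c11t262, c11t263, c11t264,
  c11t265, c11t266, c11t267, c11t268, c11t269, c11t270, c11t271, c11t272, c11t273, c11t274,
  c11t275, c11t276, c11t277, c11t278, c11t279, c11t280, c11t281, c11t282, c11t283]

theorem c11k10 : chkLF ⟨4, 1, 0, true, -8⟩ true 0 c11N 255 c11l10 = true := by decide +kernel

def c11t284 : Tr4 :=
  .br 817 .no (.hor [.f 688 1 5] []) .no (.br 819 .no (.red [.f 691 1 3] 103 136 [2, 4, 2] [(103,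
  136, [2, 4, 2])]) .no (.con 136 [2, 4, 2, 4]) .no (.con 136 [2, 4, 2, 4])) (.br 819 .no (.red
  [.f 691 1 3] 103 136 [2, 4, 2] [(103, 136, [2, 4, 2])]) .no (.con 136 [2, 4, 2, 4]) .no .no) .no

def c11t285 : Tr4 :=
  .br 818 .no (.con 136 [2, 4, 2, 4]) .no (.hor [.f 809 3 5] []) (.con 136 [2, 4, 2, 4]) .no

def c11t286 : Tr4 :=
  .br 817 .no (.hor [.f 688 1 5] []) .no (.use 285) (.br 819 .no (.use 275) .no (.con 136 [2, 2,
  4, 4]) .no .no) .no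

def c11t287 : Tr4 :=
  .br 699 .no (.con 136 [2, 2, 2]) (.hor [.f 698 3 5] []) (.con 136 [2, 2, 2]) .no .no

def c11t288 : Tr4 :=
  .br 819 .no (.use 277) .no (.con 136 [2, 2, 4, 4]) .no .no

def c11t289 : Tr4 :=
  .br 946 (.br 947 .no (.con 136 [2, 4, 4]) .no (.br 834 .no (.br 817 .no (.hor [.f 688 1 5] [])
  .no (.br 819 .no (.use 275) .no (.con 136 [2, 2, 4, 4]) .no (.con 136 [2, 2, 4, 4])) (.br 819
  .no (.use 275) .no (.con 136 [2, 2, 4, 4]) .no .no) .no) (.hor [.f 834 3 1, .f 833 1 5] [(121,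
  137, [2])]) .no (.br 817 .no (.hor [.f 688 1 5] []) .no (.br 819 .no (.use 277) .no (.con 136
  [2, 2, 4, 4]) .no (.con 136 [2, 2, 4, 4])) (.br 819 .no (.use 277) .no (.con 136 [2, 2, 4, 4])
  .no .no) .no) .no) .no .no) (.use 279) .no (.use 273) (.br 834 .no (.use 286) (.hor [.f 834 3 1,
  .f 833 1 5] [(121, 137, [2])]) .no (.br 817 .no (.hor [.f 688 1 5] []) .no (.use 285) (.use 288)
  .no) .no) .no

def c11t290 : Tr4 :=
  .br 817 .no (.hor [.f 688 1 5] []) .no (.br 818 .no (.con 136 [2, 4, 4, 2]) .no (.hor [.f 809 3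
  5] []) (.con 136 [2, 4, 2, 4]) .no) (.red [.f 817 5 3, .f 817 3 1, .f 825 1 3] 119 136 [2, 4]
  [(119, 136, [2, 4]), (120, 136, [2])]) .no

def c11t291 : Tr4 :=
  .br 946 (.br 817 .no (.hor [.f 688 1 5] []) .no (.br 818 .no (.con 136 [2, 4, 4, 2]) .no (.hor
  [.f 809 3 5] []) (.con 136 [2, 4, 2, 4]) .no) (.red [.f 817 5 3, .f 817 3 1, .f 825 1 3] 119 136
  [2, 4] [(119, 136, [2, 4]), (120, 136, [2])]) .no) (.red [.t 945 3 2, .f 824 1 5] 119 136 [2, 4]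
  [(119, 136, [2, 4])]) .no (.use 273) (.use 290) .no

def c11t292 : Tr4 :=
  .br 1072 (.con 136 [4, 1, 1]) (.con 136 [4, 1, 1]) (.br 944 .no (.red [.f 816 1 3] 119 136 [2,
  4] [(119, 136, [2, 4])]) .no (.br 816 .no (.br 825 .no (.br 826 .no (.hor [.f 697 1 5] []) (.br
  946 (.br 817 .no (.hor [.f 688 1 5] []) .no (.br 947 .no (.con 136 [2, 4, 4]) .no (.br 835 .no
  (.br 827 .no (.hor [.f 699 1 3, .f 826 3 5] [(104, 103, [3])]) .no (.use 283) .no .no) (.br 827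
  .no (.br 819 .no (.red [.f 691 1 3] 103 136 [2, 2, 4] [(103, 136, [2, 2, 4])]) .no (.con 136 [2,
  2, 4, 4]) .no (.con 136 [2, 2, 4, 4])) .no (.use 283) .no .no) (.hor [.f 826 3 5] []) .no .no)
  .no .no) (.red [.f 946 1 3, .f 945 3 5, .f 817 5 1, .t 833 1 4, .f 818 1 3] 119 136 [2, 4]
  [(119, 136, [2, 4]), (120, 136, [2]), (135, 119, [1])]) .no) (.br 1073 (.use 281) .no .no (.br
  1074 .no .no .no (.hor [.f 1065 3 5] []) .no .no) (.red [.t 953 4 1, .t 833 1 4, .f 818 1 3] 119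
  136 [2, 4] [(119, 136, [2, 4]), (120, 136, [2]), (135, 119, [1])]) .no) .no (.use 273) (.br 1073
  (.br 827 .no (.use 284) (.hor [.f 826 3 5] []) (.red [.f 1073 1 3, .f 945 3 1, .f 953 1 5, .t
  833 1 4, .t 826 1 4] 119 136 [2, 4] [(119, 136, [2, 4]), (120, 136, [2]), (135, 119, [1]), (151,
  150, [3])]) .no .no) .no .no (.br 1074 .no .no .no (.hor [.f 1065 3 5] []) .no .no) (.br 827 .no
  (.use 284) (.hor [.f 826 3 5] []) (.red [.t 953 4 1, .t 833 1 4, .t 826 1 4] 119 136 [2, 4]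
  [(119, 136, [2, 4]), (120, 136, [2]), (135, 119, [1])]) .no .no) .no) .no) (.use 271) (.use 289)
  .no) .no (.red [.f 817 3 1, .f 824 1 5] 119 136 [2, 4] [(119, 136, [2, 4])]) (.use 291) .no) .no
  (.red [.f 808 3 1, .f 816 1 3] 119 136 [2, 4] [(118, 136, [2, 4, 4]), (119, 136, [2, 4])]) (.red
  [.t 952 2 4] 119 136 [2, 4] [(119, 136, [2, 4])]) .no) .no .no) (.con 136 [4, 1, 1]) (.con 136
  [4, 1, 1]) .no

def c11t293 : Tr4 :=
  .br 1209 (.con 136 [1, 4, 1]) .no (.con 136 [1, 4, 1]) (.hor [.f 1201 3 5] []) .no (.con 136 [1,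
  4, 1])

def c11t294 : Tr4 :=
  .br 947 .no (.con 136 [2, 4, 4]) .no (.hor [.f 938 3 5] []) .no .no

def c11t295 : Tr4 :=
  .br 946 (.con 136 [4, 4]) (.red [.t 944 1 3, .f 953 1 5, .t 833 1 4, .f 818 1 3] 119 136 [2, 4]
  [(119, 136, [2, 4]), (120, 136, [2]), (135, 119, [1])]) .no (.use 294) (.red [.t 1082 2 4, .f
  945 3 5, .t 833 1 4, .t 960 1 4] 136 136 [] [(120, 136, [2]), (135, 119, [1]), (136, 136, [])])
  .no

def c11t296 : Tr4 :=
  .br 817 .no (.red [.f 689 1 3] 103 136 [2, 2, 4] [(103, 136, [2, 2, 4])]) .no (.br 947 .no (.hor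
  [.f 818 1 5] []) .no (.br 834 .no (.br 816 .no (.use 276) .no (.hor [.f 808 3 5] []) .no .no)
  (.hor [.f 834 3 1, .f 833 1 5] [(121, 137, [2])]) .no (.br 816 .no (.use 278) .no (.hor [.f 808
  3 5] []) .no .no) .no) .no .no) .no (.red [.t 952 2 4, .f 817 1 5] 119 136 [2, 4] [(119, 136,
  [2, 4])])

def c11t297 : Tr4 :=
  .br 1066 (.con 136 [4, 4, 4]) (.hor [.f 937 1 5] []) (.con 136 [4, 4, 4]) (.con 136 [4, 4, 4])
  (.con 136 [4, 4, 4]) .no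

def c11t298 : Tr4 :=
  .br 1074 (.hor [.f 1073 1 5] []) .no .no (.con 136 [2, 4, 4, 1, 1]) .no .no

def c11t299 : Tr4 :=
  .br 1338 (.con 136 [1, 1, 1, 4]) .no .no (.hor [.f 1329 3 5] []) .no .no

def c11t300 : Tr4 :=
  .br 1216 (.red [.f 1208 1 3] 168 136 [1, 1] [(168, 136, [1, 1])]) .no (.hor [.f 1216 3 5] [])
  .no .no .no

def c11t301 : Tr4 :=
  .br 1072 (.hor [.f 1072 1 5] []) .no .no (.br 1074 (.hor [.f 1073 1 5] []) .no .no (.con 136 [4,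
  4, 1]) .no .no) .no .no

def c11t302 : Tr4 :=
  .br 1067 .no .no .no (.hor [.f 1058 3 5] []) .no .no

def c11t303 : Tr4 :=
  .br 1203 (.red [.f 1203 1 3] 167 136 [4, 1, 1] [(167, 136, [4, 1, 1])]) .no .no (.br 1201 (.use
  266) .no .no (.con 136 [4, 4, 1, 1]) .no (.br 1338 (.hor [.f 1337 1 5] []) .no .no (.red [.t
  1064 1 3, .f 1073 1 5, .f 1201 5 3, .f 1202 3 1] 167 136 [4, 1, 1] [(150, 134, [1]), (167, 136,
  [4, 1, 1])]) .no .no)) .no .no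

def c11t304 : Tr4 :=
  .br 1066 (.con 136 [4, 2, 4, 1, 4, 1]) .no .no (.hor [.f 1057 3 5] []) (.con 136 [4, 2, 4, 1, 4,
  1]) .no

def c11t305 : Tr4 :=
  .br 1338 (.hor [.f 1337 1 5] []) .no .no (.red [.t 1338 4 2] 167 136 [1, 4, 1] [(167, 136, [1,
  4, 1])]) .no .no

def c11t306 : Tr4 :=
  .br 1067 .no (.con 136 [4, 4, 4]) .no (.hor [.f 1058 3 5] []) .no .no

def c11t307 : Tr4 :=
  .br 1200 (.hor [.f 1200 1 5] []) .no .no .no .no .no

def c11t308 : Tr4 :=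
  .br 810 .no (.hor [.f 681 1 5] []) .no (.con 136 [2, 4, 2, 4, 4]) .no .no

def c11t309 : Tr4 :=
  .br 690 .no (.br 691 .no (.hor [.f 562 1 5] []) .no (.red [.f 683 3 1] 102 136 [2, 2, 4, 4]
  [(102, 136, [2, 2, 4, 4])]) .no .no) .no (.con 136 [2, 2, 4, 4, 4]) (.use 308) (.red [.f 689 5
  1, .f 689 1 3] 103 136 [2, 2, 4] [(103, 136, [2, 2, 4])])

def c11t310 : Tr4 :=
  .br 930 (.con 136 [4, 2, 4, 4, 4, 1]) (.red [.t 801 3 1] 117 136 [4, 2, 4, 4] [(117, 136, [4, 2,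
  4, 4])]) .no (.hor [.f 921 3 5] []) (.con 136 [4, 2, 4, 4, 1]) .no

def c11t311 : Tr4 :=
  .br 929 (.red [.t 1064 1 3, .t 928 3 1, .f 936 1 3] 134 136 [4, 4] [(133, 136, [4, 4, 4]), (134,
  136, [4, 4]), (150, 134, [1])]) .no .no (.use 310) (.red [.f 929 5 3, .f 928 3 5, .t 1072 2 4]
  134 136 [4, 4] [(134, 136, [4, 4])]) .no

def c11t312 : Tr4 :=
  .br 809 .no (.use 309) .no (.use 311) (.hor [.f 809 5 3, .f 808 3 5, .f 810 3 5] []) .no

def c11t313 : Tr4 :=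
  .br 690 .no (.br 691 .no (.hor [.f 562 1 5] []) .no (.red [.f 683 3 1] 102 136 [2, 2, 4, 4]
  [(102, 136, [2, 2, 4, 4])]) .no .no) .no (.con 136 [2, 2, 4, 4, 4]) (.use 308) (.red [.f 689 5
  1, .f 689 1 3] 103 136 [2, 2, 4] [(103, 136, [2, 2, 4])])

def c11t314 : Tr4 :=
  .br 809 .no (.use 313) .no (.use 311) (.hor [.f 809 5 3, .f 808 3 5, .f 810 3 5] []) .no

def c11t315 : Tr4 :=
  .br 1065 (.hor [.f 1064 1 5] []) .no .no (.use 304) (.br 1203 (.red [.f 1065 5 3, .f 1203 1 3]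
  167 136 [4, 1, 1] [(167, 136, [4, 1, 1])]) .no .no (.con 136 [4, 4, 1, 4]) .no (.br 1067 (.red
  [.f 1065 5 3, .t 1066 3 1] 150 136 [4, 4, 1] [(150, 136, [4, 4, 1])]) (.con 136 [4, 4, 4]) .no
  (.con 136 [4, 4, 4, 1]) .no .no)) .no

def c11t316 : Tr4 :=
  .br 929 (.red [.t 928 3 1, .f 936 1 3] 134 136 [4, 4] [(133, 136, [4, 4, 4]), (134, 136, [4,
  4])]) .no .no (.use 310) (.red [.f 929 5 3, .f 801 3 1] 117 136 [4, 2, 4, 4] [(117, 136, [4, 2,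
  4, 4])]) .no

def c11t317 : Tr4 :=
  .br 809 .no (.use 309) .no (.use 316) (.hor [.f 809 5 3, .f 808 3 5, .f 810 3 5] []) .no

def c11t318 : Tr4 :=
  .br 939 (.con 136 [4, 4, 4]) (.con 136 [2, 2, 4, 4, 1]) .no (.br 690 .no (.red [.f 562 1 3] 87
  136 [2, 2, 2, 4] [(87, 136, [2, 2, 2, 4])]) .no (.br 809 .no (.con 136 [2, 2, 4, 4, 2]) .no (.br
  929 (.red [.t 928 3 1, .f 936 1 3] 134 136 [4, 4] [(133, 136, [4, 4, 4]), (134, 136, [4, 4])])
  .no .no (.br 930 (.con 136 [4, 4, 4, 4]) (.con 136 [2, 2, 4, 4, 4, 1]) .no (.hor [.f 921 3 5]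
  []) .no .no) (.hor [.f 929 5 3, .f 928 3 5, .f 930 3 5] []) .no) (.red [.f 809 5 3, .f 808 3 5,
  .t 952 2 4] 119 136 [2, 4] [(119, 136, [2, 4])]) .no) .no (.red [.f 689 5 1, .f 689 1 3] 103 136
  [2, 2, 4] [(103, 136, [2, 2, 4])])) .no .no

def c11t319 : Tr4 :=
  .br 809 .no (.use 313) .no (.use 316) (.hor [.f 809 5 3, .f 808 3 5, .f 810 3 5] []) .no

def c11l11 : List Tr4 :=
  [c11t284, c11t285, c11t286, c11t287, c11t288, c11t289, c11t290, c11t291, c11t292, c11t293,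
  c11t294, c11t295, c11t296, c11t297, c11t298, c11t299, c11t300, c11t301, c11t302, c11t303,
  c11t304, c11t305, c11t306, c11t307, c11t308, c11t309, c11t310, c11t311, c11t312, c11t313,
  c11t314, c11t315, c11t316, c11t317, c11t318, c11t319]

theorem c11k11 : chkLF ⟨4, 1, 0, true, -8⟩ true 0 c11N 284 c11l11 = true := by decide +kernel

def c11t320 : Tr4 :=
  .br 1208 (.br 1217 (.hor [.f 1217 1 5] []) .no (.use 300) .no .no (.br 1337 (.br 817 .no (.red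
  [.f 689 1 3] 103 136 [2, 2, 4] [(103, 136, [2, 2, 4])]) .no (.hor [.f 808 3 5] []) (.br 1064
  (.br 937 (.use 297) (.red [.t 944 1 3, .t 808 3 1, .f 816 1 3] 119 136 [2, 4] [(118, 136, [2, 4,
  4]), (119, 136, [2, 4]), (135, 119, [1])]) .no (.hor [.f 928 3 5] []) (.br 1073 (.use 298) .no
  .no (.br 1074 (.use 303) .no .no (.hor [.f 1065 3 5] []) .no .no) (.br 1065 (.hor [.f 1064 1 5]
  []) .no .no (.use 304) (.br 1203 (.red [.f 1065 5 3, .f 1203 1 3] 167 136 [4, 1, 1] [(167, 136,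
  [4, 1, 1])]) .no .no (.con 136 [4, 4, 1, 4]) .no (.use 305)) .no) .no) .no) .no .no (.red [.f
  928 3 1, .f 936 1 3] 134 136 [4, 4] [(133, 136, [4, 4, 4]), (134, 136, [4, 4])]) (.br 937 .no
  (.red [.t 944 1 3, .t 808 3 1, .f 816 1 3] 119 136 [2, 4] [(118, 136, [2, 4, 4]), (119, 136, [2,
  4]), (135, 119, [1])]) .no (.hor [.f 928 3 5] []) (.br 1073 (.use 298) .no .no .no (.br 1203
  (.red [.f 1203 1 3] 167 136 [4, 1, 1] [(167, 136, [4, 1, 1])]) .no .no (.br 1202 (.br 1201 (.use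
  266) .no .no (.con 136 [4, 4, 1, 1]) .no (.con 136 [4, 4, 1, 1])) .no .no (.hor [.f 1194 3 5]
  []) .no (.br 1338 (.hor [.f 1337 1 5] []) .no .no (.red [.f 1201 5 3, .f 1202 3 1, .f 1210 1 3]
  168 136 [1, 1] [(167, 136, [4, 1, 1]), (168, 136, [1, 1])]) .no .no)) .no (.use 305)) .no) .no)
  .no) .no) .no (.red [.t 1345 4 2, .f 1208 1 5] 168 136 [1, 1] [(168, 136, [1, 1])]) (.use 299)
  (.red [.t 1082 2 4, .f 1209 5 1, .f 1210 1 3, .t 1218 4 2] 152 136 [1] [(135, 119, [1]), (152,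
  136, [1]), (168, 136, [1, 1])]) .no)) .no (.br 817 .no (.red [.f 689 1 3] 103 136 [2, 2, 4]
  [(103, 136, [2, 2, 4])]) .no (.hor [.f 808 3 5] []) (.br 1064 (.br 937 (.use 297) (.red [.t 944
  1 3, .t 808 3 1, .f 816 1 3] 119 136 [2, 4] [(118, 136, [2, 4, 4]), (119, 136, [2, 4]), (135,
  119, [1])]) .no (.hor [.f 928 3 5] []) (.br 1073 (.use 298) .no .no (.br 1074 (.br 1203 (.red
  [.f 1203 1 3] 167 136 [4, 1, 1] [(167, 136, [4, 1, 1])]) .no .no (.br 1066 (.con 136 [4, 4, 1,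
  4]) .no .no (.use 306) (.br 1201 (.use 307) .no .no (.con 136 [4, 4, 1, 1]) .no (.br 819 .no
  (.use 275) .no (.br 698 .no (.br 699 .no (.hor [.f 570 1 5] []) (.use 312) (.br 809 .no (.br 690
  .no (.red [.f 562 1 3] 87 136 [2, 2, 2, 4] [(87, 136, [2, 2, 2, 4])]) .no (.con 136 [2, 2, 4, 4,
  2]) .no (.red [.f 689 5 1, .f 689 1 3] 103 136 [2, 2, 4] [(103, 136, [2, 2, 4])])) .no (.use
  311) (.hor [.f 809 5 3, .f 808 3 5, .f 810 3 5] []) .no) .no .no) .no (.red [.t 697 1 4] 103 136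
  [2, 2, 4] [(103, 136, [2, 2, 4])]) (.use 314) .no) .no .no)) .no) .no .no) .no .no (.hor [.f
  1065 3 5] []) .no .no) (.use 315) .no) .no) .no .no (.red [.f 928 3 1, .f 936 1 3] 134 136 [4,
  4] [(133, 136, [4, 4, 4]), (134, 136, [4, 4])]) (.br 937 .no (.red [.t 944 1 3, .t 808 3 1, .f
  816 1 3] 119 136 [2, 4] [(118, 136, [2, 4, 4]), (119, 136, [2, 4]), (135, 119, [1])]) .no (.hor
  [.f 928 3 5] []) (.br 1073 (.use 298) .no .no .no (.br 698 .no (.br 699 .no (.hor [.f 570 1 5]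
  []) (.br 819 .no (.use 275) .no (.use 317) .no .no) (.use 318) .no .no) .no (.red [.t 697 1 4]
  103 136 [2, 2, 4] [(103, 136, [2, 2, 4])]) (.br 819 .no (.use 275) .no (.use 319) .no .no) .no)
  .no) .no) .no) .no) (.con 136 [4, 1, 1]) .no .no

def c11t321 : Tr4 :=
  .br 1074 (.hor [.f 1073 1 5] []) .no .no (.con 136 [4, 4, 1]) .no .no

def c11t322 : Tr4 :=
  .br 816 .no (.con 136 [2, 4, 4, 2]) .no (.hor [.f 808 3 5] []) .no .no

def c11t323 : Tr4 :=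
  .br 816 .no (.con 136 [2, 4, 2, 4]) .no (.hor [.f 808 3 5] []) .no .no

def c11t324 : Tr4 :=
  .br 819 .no (.use 277) .no .no .no .no

def c11t325 : Tr4 :=
  .br 1217 (.hor [.f 1217 1 5] []) .no (.use 300) .no .no (.use 299)

def c11t326 : Tr4 :=
  .br 1203 (.red [.f 1203 1 3] 167 136 [4, 1, 1] [(167, 136, [4, 1, 1])]) .no .no (.con 136 [4, 1,
  4, 1]) .no .no

def c11t327 : Tr4 :=
  .br 816 .no (.use 288) .no (.red [.t 944 1 3, .t 808 3 1, .f 816 1 3] 119 136 [2, 4] [(118, 136,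
  [2, 4, 4]), (119, 136, [2, 4]), (135, 119, [1])]) .no .no

def c11t328 : Tr4 :=
  .br 936 (.red [.f 936 1 3] 134 136 [4, 4] [(134, 136, [4, 4])]) (.br 937 .no (.hor [.f 808 1 5]
  []) .no (.br 938 (.br 939 (.con 136 [2, 4, 4, 4]) (.use 324) .no (.con 136 [2, 4, 4, 4]) .no
  .no) (.con 136 [2, 4, 4, 4]) .no (.hor [.f 929 3 5] []) (.con 136 [2, 4, 4, 4]) .no) (.br 939
  (.con 136 [4, 4, 4]) (.use 324) .no (.con 136 [2, 4, 4, 4]) .no .no) .no) .no (.br 1064 (.br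
  1208 (.br 1337 (.use 303) .no (.red [.t 1345 4 2, .f 1208 1 5] 168 136 [1, 1] [(168, 136, [1,
  1])]) (.use 325) (.red [.t 1082 2 4, .f 1209 5 1, .f 1210 1 3, .t 1218 4 2] 152 136 [1] [(135,
  119, [1]), (152, 136, [1]), (168, 136, [1, 1])]) .no) .no (.br 1201 (.use 307) .no .no (.use
  326) .no (.br 1203 (.red [.f 1203 1 3] 167 136 [4, 1, 1] [(167, 136, [4, 1, 1])]) .no .no (.br
  1066 (.con 136 [4, 4, 1, 4]) (.br 937 .no (.use 327) .no (.hor [.f 928 3 5] []) .no .no) .no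
  (.use 306) (.br 937 .no (.use 327) .no (.hor [.f 928 3 5] []) (.br 698 .no (.br 699 .no (.hor
  [.f 570 1 5] []) (.br 819 .no (.use 277) .no (.br 816 .no (.con 136 [2, 2, 4, 4]) .no (.use 312)
  .no .no) .no .no) (.br 690 .no (.red [.f 562 1 3] 87 136 [2, 2, 2, 4] [(87, 136, [2, 2, 2, 4])])
  .no (.br 816 .no (.con 136 [2, 2, 4, 2]) .no (.br 809 .no (.con 136 [2, 2, 4, 4, 2]) .no (.br
  929 (.red [.t 1064 1 3, .t 928 3 1, .f 936 1 3] 134 136 [4, 4] [(133, 136, [4, 4, 4]), (134,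
  136, [4, 4]), (150, 134, [1])]) .no .no (.br 930 (.con 136 [2, 2, 4, 4, 4, 1, 4, 1]) (.con 136
  [2, 2, 4, 4, 4, 1]) .no (.hor [.f 921 3 5] []) (.con 136 [2, 2, 4, 4, 4, 1, 1]) .no) (.red [.f
  929 5 3, .f 928 3 5, .t 1072 2 4] 134 136 [4, 4] [(134, 136, [4, 4])]) .no) (.red [.f 809 5 3,
  .f 808 3 5, .t 952 2 4] 119 136 [2, 4] [(119, 136, [2, 4])]) .no) .no .no) .no (.red [.f 689 5
  1, .f 689 1 3] 103 136 [2, 2, 4] [(103, 136, [2, 2, 4])])) .no .no) (.use 287) (.red [.t 697 1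
  4] 103 136 [2, 2, 4] [(103, 136, [2, 2, 4])]) (.br 819 .no (.use 277) .no (.br 816 .no (.con 136
  [2, 2, 4, 4]) .no (.use 314) .no .no) .no .no) .no) .no) .no) .no .no)) (.con 136 [4, 1, 1]) .no
  .no) .no .no (.red [.f 928 3 1, .f 936 1 3] 134 136 [4, 4] [(133, 136, [4, 4, 4]), (134, 136,
  [4, 4])]) .no .no) (.red [.t 1072 2 4] 134 136 [4, 4] [(134, 136, [4, 4])]) .no

def c11t329 : Tr4 :=
  .br 1064 (.use 297) .no .no (.red [.f 928 3 1, .f 936 1 5] 133 136 [4, 4, 4] [(133, 136, [4, 4,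
  4])]) .no .no

def c11t330 : Tr4 :=
  .br 946 (.con 136 [4, 4]) (.use 296) .no (.use 294) (.br 834 .no (.br 816 .no (.use 286) .no
  (.br 936 (.red [.f 936 1 3, .f 808 3 1, .f 816 1 3, .f 944 3 5] 119 136 [2, 4] [(118, 136, [2,
  4, 4]), (119, 136, [2, 4]), (134, 136, [4, 4])]) .no .no (.use 320) (.red [.t 944 1 3, .f 936 5
  3, .f 808 3 1, .f 816 1 3] 119 136 [2, 4] [(118, 136, [2, 4, 4]), (119, 136, [2, 4]), (135, 119,
  [1])]) .no) (.red [.t 944 1 3, .f 816 5 1, .f 816 1 3] 119 136 [2, 4] [(119, 136, [2, 4]), (135,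
  119, [1])]) .no) (.hor [.f 834 3 1, .f 833 1 5] [(121, 120, [3])]) .no (.br 817 .no (.red [.f
  689 1 3] 103 136 [2, 2, 4] [(103, 136, [2, 2, 4])]) .no (.br 818 .no (.use 322) .no (.hor [.f
  809 3 5] []) (.use 323) .no) (.br 1073 (.use 321) .no .no (.br 1074 (.use 328) .no .no (.hor [.f
  1065 3 5] []) .no .no) (.br 698 .no (.br 816 .no (.use 288) .no (.br 936 (.red [.f 936 1 3, .f
  808 3 1, .f 816 1 3, .f 944 3 5] 119 136 [2, 4] [(118, 136, [2, 4, 4]), (119, 136, [2, 4]),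
  (134, 136, [4, 4])]) .no .no (.br 937 (.use 329) (.use 327) .no (.hor [.f 928 3 5] []) (.br 1064
  (.use 315) .no .no (.red [.f 928 3 1, .f 936 1 3] 134 136 [4, 4] [(133, 136, [4, 4, 4]), (134,
  136, [4, 4])]) (.br 699 .no (.hor [.f 570 1 5] []) (.br 819 .no (.use 277) .no (.use 317) .no
  .no) (.use 318) .no .no) .no) .no) (.red [.t 944 1 3, .f 936 5 3, .f 808 3 1, .f 816 1 3] 119
  136 [2, 4] [(118, 136, [2, 4, 4]), (119, 136, [2, 4]), (135, 119, [1])]) .no) .no .no) (.use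
  287) (.red [.t 697 1 4] 103 136 [2, 2, 4] [(103, 136, [2, 2, 4])]) (.br 816 .no (.use 288) .no
  (.br 936 (.red [.f 936 1 3, .f 808 3 1, .f 816 1 3, .f 944 3 5] 119 136 [2, 4] [(118, 136, [2,
  4, 4]), (119, 136, [2, 4]), (134, 136, [4, 4])]) .no .no (.br 937 (.use 329) (.use 327) .no
  (.hor [.f 928 3 5] []) (.br 1064 (.use 315) .no .no (.red [.f 928 3 1, .f 936 1 3] 134 136 [4,
  4] [(133, 136, [4, 4, 4]), (134, 136, [4, 4])]) (.br 819 .no (.use 277) .no (.use 319) .no .no)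
  .no) .no) (.red [.t 944 1 3, .f 936 5 3, .f 808 3 1, .f 816 1 3] 119 136 [2, 4] [(118, 136, [2,
  4, 4]), (119, 136, [2, 4]), (135, 119, [1])]) .no) .no .no) .no) .no) (.red [.t 944 1 3, .f 816
  5 1, .f 816 1 3] 119 136 [2, 4] [(119, 136, [2, 4]), (135, 119, [1])])) .no) .no

def c11t331 : Tr4 :=
  .br 826 .no (.hor [.f 697 1 5] []) (.br 944 (.use 295) (.red [.f 816 1 3] 119 136 [2, 4] [(119,
  136, [2, 4])]) .no (.br 946 (.red [.f 946 1 3, .f 945 3 5, .t 833 1 4, .t 960 1 4] 136 136 []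
  [(120, 136, [2]), (135, 119, [1]), (136, 136, [])]) (.br 1073 (.use 301) .no .no (.br 1072 (.br
  1074 (.br 816 .no (.br 947 .no (.hor [.f 818 1 5] []) .no (.br 817 .no (.hor [.f 688 1 5] [])
  .no (.br 1201 (.br 1337 (.use 266) .no (.red [.t 1345 4 2, .f 1201 1 3] 167 136 [4, 1, 1] [(167,
  136, [4, 1, 1]), (168, 136, [1, 1])]) .no (.red [.f 1209 5 1, .f 1201 1 3] 167 136 [4, 1, 1]
  [(167, 136, [4, 1, 1])]) (.br 1338 (.br 1203 (.red [.f 1203 1 3] 167 136 [4, 1, 1] [(167, 136,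
  [4, 1, 1])]) .no .no (.br 1064 (.hor [.f 1064 1 3, .f 1064 3 5] [(150, 151, [4])]) .no .no (.br
  1066 (.hor [.f 1066 1 3, .f 1065 3 5] [(150, 151, [4])]) (.br 937 .no .no .no (.br 1193 (.br
  1192 (.hor [.f 1192 1 5] []) .no .no (.hor [.f 1056 3 1, .f 1064 1 3, .f 1064 3 5] [(149, 151,
  [4, 4]), (150, 151, [4])]) .no .no) .no .no (.br 1067 .no .no .no (.br 1057 .no .no .no (.br
  1058 (.br 1331 (.br 1330 (.red [.f 1330 1 3, .t 1329 2 3] 167 136 [4, 1, 1] [(167, 136, [4, 1,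
  1]), (183, 136, [4, 1, 1, 1])]) .no .no (.br 1192 (.con 136 [4, 4, 1, 1, 4, 2, 3, 3]) .no .no
  (.con 136 [4, 4, 1, 1, 4, 2, 3, 3]) .no .no) .no .no) .no .no (.red [.f 1195 3 1, .f 1203 1 3]
  167 136 [4, 1, 1] [(166, 136, [4, 4, 1, 1]), (167, 136, [4, 1, 1])]) .no (.br 1194 (.red [.t
  1194 1 3, .f 1203 1 3, .f 1075 3 1, .f 1074 1 5] 151 136 [4, 1] [(151, 136, [4, 1]), (166, 136,
  [4, 4, 1, 1]), (167, 136, [4, 1, 1])]) .no .no .no .no .no)) (.hor [.f 930 1 3, .f 929 3 5]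
  [(133, 102, [1, 4, 1])]) .no (.hor [.f 1049 3 5] []) .no .no) (.hor [.t 937 4 1, .f 1058 3 5]
  [(133, 102, [1, 4, 1])]) .no) .no .no) (.hor [.t 1073 4 1, .f 1194 3 5] [(150, 151, [4])]) (.red
  [.t 1072 1 4, .f 1072 5 3, .t 1073 3 1] 151 136 [4, 1] [(150, 151, [4]), (151, 136, [4, 1])]))
  .no .no) .no (.use 302) (.hor [.t 1202 2 4, .f 1065 3 5] [(150, 151, [4])]) .no) .no .no) .no
  .no) .no .no (.red [.t 1329 2 3, .f 1210 1 5] 167 136 [4, 1, 1] [(167, 136, [4, 1, 1])]) .no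
  .no)) .no .no (.hor [.f 1065 3 1, .f 1072 1 5] [(150, 151, [4])]) .no .no) .no .no) .no .no) .no
  (.red [.f 808 3 1, .f 816 1 3] 119 136 [2, 4] [(118, 136, [2, 4, 4]), (119, 136, [2, 4])]) (.red
  [.t 952 2 4, .f 817 1 5] 119 136 [2, 4] [(119, 136, [2, 4])]) .no) .no .no (.hor [.f 1065 3 5]
  []) .no .no) .no .no (.hor [.f 1064 3 5] []) .no .no) (.red [.t 953 4 1, .t 833 1 4, .f 818 1 3]
  119 136 [2, 4] [(119, 136, [2, 4]), (120, 136, [2]), (135, 119, [1])]) (.red [.f 1072 5 3, .f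
  945 3 1, .f 953 1 5, .t 833 1 4, .f 818 1 3] 119 136 [2, 4] [(119, 136, [2, 4]), (120, 136,
  [2]), (135, 119, [1])])) .no (.use 273) (.red [.t 1082 2 4, .f 945 3 5, .t 833 1 4, .t 960 1 4]
  136 136 [] [(120, 136, [2]), (135, 119, [1]), (136, 136, [])]) .no) .no .no) (.use 271) (.br 944
  (.use 330) (.red [.f 816 1 3] 119 136 [2, 4] [(119, 136, [2, 4])]) .no (.br 816 .no (.use 289)
  .no (.red [.f 808 3 1, .f 816 1 3] 119 136 [2, 4] [(118, 136, [2, 4, 4]), (119, 136, [2, 4])])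
  (.red [.t 952 2 4] 119 136 [2, 4] [(119, 136, [2, 4])]) .no) .no .no) .no

def c11t332 : Tr4 :=
  .br 937 .no (.hor [.f 808 1 5] []) .no (.con 136 [1, 4, 2, 4, 2, 4]) (.con 136 [1, 4, 2, 4, 2,
  4]) .no

def c11t333 : Tr4 :=
  .br 936 .no (.br 939 (.br 1066 (.con 136 [4, 4, 4]) (.hor [.f 938 1 5] []) .no (.con 136 [4, 4,
  4]) .no .no) (.red [.t 944 1 3, .t 810 3 1, .t 1080 4 2] 118 136 [4, 2, 4] [(118, 136, [4, 2,
  4])]) .no (.use 332) .no (.red [.f 938 5 3, .f 810 3 1, .t 945 3 2] 119 136 [4, 2] [(118, 136,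
  [4, 2, 4]), (119, 136, [4, 2])])) .no (.red [.f 928 3 1, .f 936 1 3] 134 136 [4, 4] [(133, 136,
  [4, 4, 4]), (134, 136, [4, 4])]) (.red [.t 1072 2 4] 134 136 [4, 4] [(134, 136, [4, 4])]) .no

def c11t334 : Tr4 :=
  .br 1337 (.br 1064 (.use 303) (.red [.f 936 1 3] 134 136 [4, 4] [(134, 136, [4, 4])]) .no (.use
  333) .no .no) .no (.red [.t 1345 4 2, .f 1208 1 5] 168 136 [1, 1] [(168, 136, [1, 1])]) (.use
  325) (.red [.t 1082 2 4, .f 1209 5 1, .f 1210 1 3, .t 1218 4 2] 152 136 [1] [(135, 119, [1]),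
  (152, 136, [1]), (168, 136, [1, 1])]) .no

def c11t335 : Tr4 :=
  .br 1066 (.con 136 [4, 4, 4]) (.hor [.f 938 1 5] []) .no (.con 136 [4, 4, 4]) .no .no

def c11t336 : Tr4 :=
  .br 816 .no (.use 290) .no (.br 937 .no (.red [.t 944 1 3, .t 808 3 1, .f 816 1 3] 119 136 [2,
  4] [(118, 136, [2, 4, 4]), (119, 136, [2, 4]), (135, 119, [1])]) .no (.hor [.f 928 3 5] []) (.br
  809 .no (.hor [.f 681 1 3, .f 808 3 5] [(102, 118, [2])]) .no (.br 929 (.red [.t 1064 1 3, .t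
  928 3 1, .f 936 1 3] 134 136 [4, 4] [(133, 136, [4, 4, 4]), (134, 136, [4, 4]), (150, 134,
  [1])]) .no .no (.br 811 .no (.br 930 (.con 136 [4, 4, 4, 4]) (.red [.t 801 3 1, .f 930 3 5] 117
  136 [2, 4, 4, 4] [(117, 136, [2, 4, 4, 4])]) .no (.hor [.f 921 3 5] []) .no .no) .no (.red [.f
  803 3 1, .t 810 3 1, .t 945 3 2] 119 136 [2, 4] [(117, 136, [2, 4, 4, 4]), (118, 136, [2, 4,
  4]), (119, 136, [2, 4])]) .no .no) (.hor [.f 929 5 3, .f 928 3 5, .f 930 3 5] []) .no) .no .no)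
  .no) .no .no

def c11t337 : Tr4 :=
  .br 819 .no (.red [.f 691 1 3] 103 136 [2, 2, 4] [(103, 136, [2, 2, 4])]) .no (.hor [.f 810 3 5]
  []) .no .no

def c11t338 : Tr4 :=
  .br 818 .no (.use 322) .no (.hor [.f 809 3 5] []) (.use 323) .no

def c11l12 : List Tr4 :=
  [c11t320, c11t321, c11t322, c11t323, c11t324, c11t325, c11t326, c11t327, c11t328, c11t329,
  c11t330, c11t331, c11t332, c11t333, c11t334, c11t335, c11t336, c11t337, c11t338]

theorem c11k12 : chkLF ⟨4, 1, 0, true, -8⟩ true 0 c11N 320 c11l12 = true := by decide +kernel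

def c11t339 : Tr4 :=
  .br 1073 (.use 321) .no .no (.br 1074 (.br 834 .no (.br 835 .no (.hor [.f 706 1 5] []) (.br 817
  .no (.br 818 .no (.hor [.f 689 1 5] []) .no (.br 1208 (.use 334) .no (.br 1064 (.br 1201 (.use
  307) .no .no (.use 326) .no (.br 939 (.use 335) (.red [.t 944 1 3, .t 810 3 1, .t 1080 4 2] 118
  136 [2, 4, 4] [(118, 136, [2, 4, 4])]) .no (.br 936 .no (.use 332) .no (.br 827 .no (.use 337)
  .no (.use 336) .no .no) (.red [.t 1064 1 3, .f 936 5 1, .f 936 1 3] 134 136 [4, 4] [(134, 136,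
  [4, 4]), (150, 134, [1])]) .no) .no (.red [.f 938 5 3, .f 810 3 1, .t 945 3 2] 119 136 [2, 4]
  [(118, 136, [2, 4, 4]), (119, 136, [2, 4])]))) (.red [.f 936 1 3] 134 136 [4, 4] [(134, 136, [4,
  4])]) .no (.use 333) .no .no) (.con 136 [4, 1, 1]) .no .no) (.red [.f 818 5 1, .t 945 3 2, .f
  825 1 3] 119 136 [2, 4] [(119, 136, [2, 4]), (120, 136, [2])]) .no) .no (.use 338) (.red [.t 944
  1 3, .f 817 5 3, .t 824 1 4] 119 136 [2, 4] [(119, 136, [2, 4]), (135, 119, [1])]) (.red [.t 944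
  1 3, .f 816 5 1, .f 816 1 3] 119 136 [2, 4] [(119, 136, [2, 4]), (135, 119, [1])])) (.con 136
  [2, 2]) .no .no) (.hor [.f 834 3 1, .f 833 1 5] [(121, 120, [3])]) .no (.br 817 .no (.br 818 .no
  (.hor [.f 689 1 5] []) .no (.br 1208 (.use 334) .no (.br 1064 (.br 939 (.use 335) (.red [.t 944
  1 3, .t 810 3 1, .t 1080 4 2] 118 136 [2, 4, 4] [(118, 136, [2, 4, 4])]) .no (.br 1201 (.use
  307) .no .no (.use 326) .no (.br 936 .no (.use 332) .no (.br 827 .no (.use 337) .no (.use 336)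
  .no .no) (.red [.t 1064 1 3, .f 936 5 1, .f 936 1 3] 134 136 [4, 4] [(134, 136, [4, 4]), (150,
  134, [1])]) .no)) .no (.red [.f 938 5 3, .f 810 3 1, .t 945 3 2] 119 136 [2, 4] [(118, 136, [2,
  4, 4]), (119, 136, [2, 4])])) (.red [.f 936 1 3] 134 136 [4, 4] [(134, 136, [4, 4])]) .no (.use
  333) .no .no) (.con 136 [4, 1, 1]) .no .no) (.red [.f 818 5 1, .t 945 3 2, .f 825 1 3] 119 136
  [2, 4] [(119, 136, [2, 4]), (120, 136, [2])]) .no) .no (.use 338) (.red [.t 944 1 3, .f 817 5 3,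
  .t 824 1 4] 119 136 [2, 4] [(119, 136, [2, 4]), (135, 119, [1])]) (.red [.t 944 1 3, .f 816 5 1,
  .f 816 1 3] 119 136 [2, 4] [(119, 136, [2, 4]), (135, 119, [1])])) .no) .no .no (.hor [.f 1065 3
  5] []) .no .no) (.br 817 .no (.br 827 .no (.br 818 .no (.hor [.f 689 1 5] []) .no (.use 337)
  (.red [.f 818 5 1, .t 945 3 2, .f 825 1 3] 119 136 [2, 4] [(119, 136, [2, 4]), (120, 136, [2])])
  .no) (.con 136 [2, 2]) (.red [.t 953 4 1, .f 825 5 1, .t 826 1 4] 119 136 [2, 4] [(119, 136, [2,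
  4]), (135, 119, [1])]) .no .no) .no (.use 338) (.red [.t 944 1 3, .f 817 5 3, .t 824 1 4] 119
  136 [2, 4] [(119, 136, [2, 4]), (135, 119, [1])]) (.red [.t 944 1 3, .f 816 5 1, .f 816 1 3] 119
  136 [2, 4] [(119, 136, [2, 4]), (135, 119, [1])])) .no

def c11t340 : Tr4 :=
  .br 816 .no (.use 291) .no (.red [.f 808 3 1, .f 816 1 3] 119 136 [2, 4] [(118, 136, [2, 4, 4]),
  (119, 136, [2, 4])]) (.red [.t 952 2 4] 119 136 [2, 4] [(119, 136, [2, 4])]) .no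

def c11t341 : Tr4 :=
  .br 1211 (.br 961 .no (.br 1218 (.br 1210 (.hor [.f 1210 1 5] []) .no .no (.use 293) .no (.br
  825 .no (.use 331) .no (.red [.f 817 3 1, .f 824 1 5] 119 136 [2, 4] [(119, 136, [2, 4])]) (.br
  944 (.br 946 (.con 136 [4, 4]) (.red [.t 945 3 2, .f 824 1 5] 119 136 [2, 4] [(119, 136, [2,
  4])]) .no (.use 294) (.use 339) .no) (.red [.f 816 1 3] 119 136 [2, 4] [(119, 136, [2, 4])]) .no
  (.use 340) .no .no) .no)) .no (.br 1210 (.hor [.f 1210 1 5] []) .no .no (.use 293) .no (.br 1217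
  (.con 136 [3, 1, 1]) .no (.hor [.f 1217 3 5] []) .no .no (.con 136 [3, 1, 1]))) (.br 944 (.red
  [.t 944 1 3, .f 953 1 5, .f 1081 5 3, .f 1082 3 1] 152 136 [1] [(135, 119, [1]), (152, 136,
  [1])]) (.red [.f 816 1 3] 119 136 [2, 4] [(119, 136, [2, 4])]) .no (.br 946 (.red [.f 946 1 3,
  .f 1074 3 5, .t 1218 4 2] 152 136 [1] [(135, 119, [1]), (152, 136, [1])]) (.br 1073 (.use 301)
  .no .no (.br 1072 (.br 1209 (.br 1074 (.br 1201 (.red [.f 1201 1 3] 167 136 [4, 1, 1] [(167,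
  136, [4, 1, 1])]) .no .no (.hor [.f 1065 3 1, .f 1072 1 5] [(150, 151, [4])]) .no .no) .no .no
  (.hor [.f 1065 3 5] []) .no .no) .no (.hor [.f 1209 3 5] []) (.red [.t 1200 2 3, .t 1209 2 3]
  152 136 [1] [(151, 136, [4, 1]), (152, 136, [1])]) .no (.red [.f 1080 5 1, .t 1209 2 3] 152 136
  [1] [(152, 136, [1])])) .no .no (.hor [.f 1064 3 5] []) .no .no) (.red [.t 953 4 1, .f 1074 3 5,
  .t 1218 4 2] 152 136 [1] [(135, 119, [1]), (152, 136, [1])]) (.red [.f 1072 5 3, .f 945 3 1, .f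
  953 1 5, .f 1081 5 3, .f 1082 3 1] 152 136 [1] [(135, 119, [1]), (152, 136, [1])])) .no (.use
  273) (.red [.t 1082 2 4, .t 1218 4 2] 152 136 [1] [(135, 119, [1]), (152, 136, [1])]) .no) .no
  .no) .no (.red [.f 1089 5 1, .f 1090 1 5, .t 954 1 3] 136 136 [] [(136, 136, [])])) (.hor [.f
  961 3 5] []) .no .no .no) .no .no (.red [.f 1075 3 1, .f 1083 1 3] 152 136 [1] [(151, 136, [4,
  1]), (152, 136, [1])]) .no (.br 1074 (.red [.t 1074 1 3, .f 1083 1 3, .f 955 3 1, .f 954 1 5]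
  136 136 [] [(136, 136, []), (151, 136, [4, 1]), (152, 136, [1])]) (.red [.f 946 1 3, .f 1074 3
  5, .f 1082 5 1, .f 1083 1 3] 152 136 [1] [(135, 119, [1]), (152, 136, [1])]) .no (.br 944 (.red
  [.t 944 1 3, .f 953 1 5, .f 1081 5 3, .t 1090 4 1] 152 136 [1] [(135, 119, [1]), (152, 136,
  [1])]) (.red [.f 816 1 3] 119 136 [2, 4] [(119, 136, [2, 4])]) .no (.br 946 .no (.br 1073 (.use
  301) .no .no (.hor [.f 1065 3 5] []) .no (.br 961 .no (.br 825 .no (.br 826 .no (.hor [.f 697 1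
  5] []) (.red [.f 1072 5 3, .f 945 3 1, .f 953 1 5, .t 833 1 4, .f 818 1 3] 119 136 [2, 4] [(119,
  136, [2, 4]), (120, 136, [2]), (135, 119, [1])]) .no (.use 280) .no) .no (.red [.f 817 3 1, .f
  817 1 5] 119 136 [2, 4] [(119, 136, [2, 4])]) (.use 340) .no) (.hor [.f 961 3 5] []) .no .no
  .no)) .no (.use 273) (.red [.t 1082 2 4, .f 1082 5 1, .f 1083 1 3] 152 136 [1] [(135, 119, [1]),
  (152, 136, [1])]) .no) .no .no) .no (.red [.t 953 4 1, .f 1074 3 5, .f 1082 5 1, .f 1083 1 3]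
  152 136 [1] [(135, 119, [1]), (152, 136, [1])]))

def c11t342 : Tr4 :=
  .br 1090 (.hor [.f 1090 1 5] []) (.red [.f 954 1 3, .f 954 3 5] 136 136 [] [(136, 136, [])])
  (.br 960 (.br 962 .no (.use 265) (.red [.f 962 3 1, .f 954 1 3] 136 136 [] [(136, 136, []),
  (137, 136, [3])]) .no .no (.br 1089 (.br 1081 (.red [.f 1081 1 3] 152 136 [1] [(152, 136, [1])])
  .no .no (.use 175) .no (.br 1208 (.use 268) .no (.red [.t 1216 4 2] 152 136 [1] [(152, 136,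
  [1])]) (.br 1218 (.use 269) .no (.hor [.f 1090 3 1, .f 1089 1 5] [(153, 137, [1])]) (.br 944
  (.red [.t 944 1 3, .f 953 1 5, .t 1217 2 4] 152 136 [1] [(135, 119, [1]), (152, 136, [1])])
  (.red [.f 816 1 3] 119 136 [2, 4] [(119, 136, [2, 4])]) .no (.br 1072 .no .no .no (.br 1073 (.br
  1074 (.hor [.f 1073 1 5] []) (.con 136 [4, 4, 1]) .no (.con 136 [4, 4, 1]) .no .no) .no .no
  (.hor [.f 1064 3 5] []) (.red [.t 953 4 1, .f 953 5 3, .t 960 1 4] 136 136 [] [(135, 119, [1]),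
  (136, 136, [])]) .no) (.red [.f 1072 5 3, .f 945 3 1, .f 953 1 5, .t 1217 2 4] 152 136 [1]
  [(135, 119, [1]), (152, 136, [1])]) .no) .no .no) .no .no) (.red [.f 1080 5 1, .f 1081 1 3] 152
  136 [1] [(152, 136, [1])]) .no)) .no (.hor [.f 1089 3 5] []) (.red [.t 1081 3 2, .f 954 3 5] 136
  136 [] [(136, 136, [])]) .no .no)) (.con 136 [3]) (.con 136 [3]) .no (.con 136 [3]) .no) .no .no
  (.br 962 .no (.use 265) (.br 960 (.br 1081 (.br 1218 (.br 961 .no (.br 1210 (.red [.f 1210 1 3,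
  .t 1209 2 3] 152 136 [1] [(152, 136, [1]), (168, 136, [1, 1])]) .no .no (.br 1211 (.use 292) .no
  .no (.hor [.f 1202 3 5] []) .no .no) (.use 282) .no) (.hor [.f 961 3 5] []) .no .no .no) .no
  (.br 961 .no (.br 1211 (.br 1210 (.hor [.f 1210 1 5] []) .no .no (.use 292) .no .no) .no .no
  (.red [.f 1075 3 1, .f 1083 1 3] 152 136 [1] [(151, 136, [4, 1]), (152, 136, [1])]) .no (.use
  282)) (.hor [.f 961 3 5] []) .no .no .no) (.red [.t 1209 2 3, .f 1090 1 5] 152 136 [1] [(152,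
  136, [1])]) .no (.red [.f 1089 5 1, .f 1081 1 3] 152 136 [1] [(152, 136, [1])])) .no .no (.use
  175) .no (.use 341)) (.con 136 [3]) (.con 136 [3]) .no (.con 136 [3]) .no) .no .no (.red [.f 961
  5 1, .f 954 1 3] 136 136 [] [(136, 136, [])]))

def c11t343 : Tr4 :=
  .br 833 (.hor [.f 833 1 5] []) (.con 136 [2, 3]) (.con 136 [2, 3]) (.con 136 [2, 2]) .no (.con
  136 [2, 3])

def c11t344 : Tr4 :=
  .br 962 .no (.use 343) (.red [.f 962 3 1, .t 1089 4 2, .f 954 3 5] 136 136 [] [(136, 136, []),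
  (137, 136, [3])]) .no .no (.red [.f 953 5 3, .f 953 3 1] 136 136 [] [(136, 136, [])])

def c11t345 : Tr4 :=
  .br 1089 (.con 136 [1]) (.con 136 [3]) (.con 136 [1]) (.hor [.f 1081 3 5] []) .no (.con 136 [3])

def c11t346 : Tr4 :=
  .br 946 (.con 136 [4, 4]) (.hor [.f 817 1 5] []) .no (.con 136 [4, 2, 4]) (.con 136 [4, 2, 4])
  .no

def c11t347 : Tr4 :=
  .br 1073 (.con 136 [4, 4, 1]) .no .no (.hor [.f 1065 3 5] []) .no .no

def c11t348 : Tr4 :=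
  .br 1074 (.red [.f 945 5 3, .t 1074 1 3] 151 136 [4, 1] [(151, 136, [4, 1])]) .no .no (.use 347)
  .no (.red [.f 1073 5 3, .f 945 5 3, .f 946 3 1] 135 136 [4] [(135, 136, [4])])

def c11t349 : Tr4 :=
  .br 962 (.red [.f 953 5 1, .f 954 1 3] 136 136 [] [(136, 136, [])]) (.use 343) (.br 960 (.br
  1090 (.hor [.f 1090 1 5] []) .no (.br 1089 (.br 1218 (.br 1210 (.use 197) .no .no (.use 41) (.br
  1080 (.con 136 [4, 1]) .no .no (.br 944 .no (.red [.f 816 1 3] 119 136 [2, 4] [(119, 136, [2,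
  4])]) .no (.br 945 (.red [.f 962 3 1, .f 953 5 1, .f 945 1 3] 135 136 [4] [(135, 136, [4]),
  (137, 136, [3])]) (.use 346) .no (.hor [.f 936 3 5] []) (.use 348) .no) (.red [.f 953 5 1, .t
  1080 4 2] 135 136 [4] [(135, 136, [4])]) .no) .no .no) (.red [.f 1081 5 1, .f 1081 1 3] 152 136
  [1] [(152, 136, [1])])) .no (.hor [.f 1090 3 1, .f 1089 1 5] [(153, 137, [1])]) (.red [.t 1217 2
  4] 152 136 [1] [(152, 136, [1])]) .no .no) (.con 136 [3]) (.hor [.f 1089 3 5] []) .no .no .no)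
  .no .no (.br 1211 (.br 1080 (.con 136 [4, 1]) .no .no (.br 944 .no (.red [.f 816 1 3] 119 136
  [2, 4] [(119, 136, [2, 4])]) .no (.br 945 (.red [.f 953 5 1, .f 945 1 3] 135 136 [4] [(135, 136,
  [4])]) (.use 346) .no (.hor [.f 936 3 5] []) (.br 1074 (.br 1210 (.hor [.f 1210 1 5] []) .no
  (.red [.f 1081 5 3, .f 1082 3 1] 152 136 [1] [(152, 136, [1])]) .no .no (.red [.f 1081 5 1, .f
  1074 1 3] 151 136 [4, 1] [(151, 136, [4, 1])])) .no .no (.use 347) .no (.red [.f 1073 5 3, .f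
  945 5 3, .f 946 3 1] 135 136 [4] [(135, 136, [4])])) .no) (.red [.f 953 5 1, .t 1080 4 2] 135
  136 [4] [(135, 136, [4])]) .no) .no .no) .no .no (.red [.f 1081 5 3, .f 1075 3 1] 151 136 [4, 1]
  [(151, 136, [4, 1])]) .no (.red [.f 1081 5 3, .t 1090 4 1] 152 136 [1] [(152, 136, [1])])))
  (.con 136 [3]) (.con 136 [3]) .no (.con 136 [3]) .no) .no .no (.br 1090 (.hor [.f 1090 1 5] [])
  .no (.br 1089 (.br 960 (.br 1218 (.br 1210 (.use 197) .no .no (.use 41) (.br 1080 (.con 136 [4,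
  1]) .no .no (.br 944 .no (.red [.f 816 1 3] 119 136 [2, 4] [(119, 136, [2, 4])]) .no (.br 945
  (.red [.f 953 5 1, .f 945 1 3] 135 136 [4] [(135, 136, [4])]) (.use 346) .no (.hor [.f 936 3 5]
  []) (.use 348) .no) (.red [.f 953 5 1, .t 1080 4 2] 135 136 [4] [(135, 136, [4])]) .no) .no .no)
  (.red [.f 1081 5 1, .f 1081 1 3] 152 136 [1] [(152, 136, [1])])) .no (.hor [.f 1090 3 1, .f 1089
  1 5] [(153, 137, [1])]) (.red [.t 1217 2 4] 152 136 [1] [(152, 136, [1])]) .no .no) (.con 136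
  [3]) (.con 136 [3]) .no .no .no) .no (.hor [.f 1089 3 5] []) .no .no (.con 136 [3])) .no .no
  (.red [.f 1081 5 3, .f 953 5 3, .f 953 3 1] 136 136 [] [(136, 136, [])]))

def c11t350 : Tr4 :=
  .br 938 .no (.red [.f 810 1 3, .f 938 3 1, .f 945 1 5, .f 945 5 3, .t 946 3 1] 135 136 [4]
  [(118, 119, [4]), (134, 135, [4]), (135, 136, [4])]) .no (.br 937 (.hor [.f 937 1 3, .f 936 3 5]
  [(134, 135, [4])]) (.br 817 .no (.red [.f 689 1 3] 103 136 [2, 2, 4] [(103, 136, [2, 2, 4])])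
  .no .no .no (.red [.t 936 3 2, .f 816 1 3] 119 136 [2, 4] [(118, 136, [2, 4, 4]), (119, 136, [2,
  4])])) .no (.hor [.f 929 3 5] []) .no .no) (.red [.t 1074 4 2, .f 1074 5 3, .t 1073 2 3] 135 136
  [4] [(134, 135, [4]), (135, 136, [4])]) (.hor [.t 1073 2 4, .f 936 3 5] [(134, 135, [4])])

def c11t351 : Tr4 :=
  .br 946 (.con 136 [4, 2, 4]) (.hor [.f 817 1 5] []) .no (.con 136 [4, 2, 4]) (.con 136 [4, 2,
  4]) .no

def c11t352 : Tr4 :=
  .br 947 .no (.con 136 [2, 4, 4]) .no (.red [.f 945 5 3, .f 939 3 1] 134 136 [4, 4] [(134, 136,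
  [4, 4])]) .no .no

def c11t353 : Tr4 :=
  .br 945 (.br 1074 .no (.hor [.f 945 1 5] []) .no (.br 1075 (.red [.t 1202 3 2, .f 1081 1 5, .f
  953 5 1, .f 945 1 3] 135 136 [4] [(135, 136, [4]), (151, 135, [1])]) (.br 946 .no (.br 825 .no
  (.br 826 .no (.hor [.f 697 1 5] []) (.red [.t 833 1 4, .f 818 1 3] 119 136 [2, 4] [(119, 136,
  [2, 4]), (120, 136, [2])]) .no (.use 350) .no) .no (.red [.t 817 3 1, .f 824 1 5] 119 136 [2, 4]
  [(119, 136, [2, 4])]) (.red [.f 825 5 1, .f 818 1 3] 119 136 [2, 4] [(119, 136, [2, 4])]) .no)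
  .no (.use 157) .no .no) .no (.hor [.f 1066 3 5] []) .no .no) (.red [.f 1074 5 3, .t 1073 2 3]
  135 136 [4] [(135, 136, [4])]) .no) (.use 351) .no (.hor [.f 936 3 5] []) (.br 1075 (.br 1073
  (.con 136 [4, 1, 4]) .no .no (.br 1066 (.con 136 [4, 1, 4, 2]) (.con 136 [4, 1, 4, 2]) (.hor [.f
  1065 3 5] []) (.con 136 [4, 1, 4, 2]) (.con 136 [4, 1, 4, 2]) .no) (.red [.t 1202 3 2, .f 945 5
  1, .f 1081 1 5, .f 953 5 1, .f 945 1 3] 135 136 [4] [(135, 136, [4]), (151, 135, [1])]) .no)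
  (.red [.f 945 5 3, .t 946 3 1] 135 136 [4] [(135, 136, [4])]) .no (.use 352) .no (.red [.f 1074
  5 3, .f 945 5 3, .f 946 3 1] 135 136 [4] [(135, 136, [4])])) .no

def c11t354 : Tr4 :=
  .br 1074 .no .no .no (.red [.f 1073 1 3, .f 938 3 1, .t 1073 3 2, .t 946 3 1, .t 1080 4 2] 135
  136 [4] [(134, 118, [1]), (135, 136, [4]), (151, 135, [1])]) .no .no

def c11t355 : Tr4 :=
  .br 1338 (.hor [.f 1337 1 5] []) .no .no (.hor [.f 1202 3 1, .f 1210 1 5] [(167, 136, [4, 1,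
  1])]) .no .no

def c11t356 : Tr4 :=
  .br 1074 .no .no .no (.hor [.f 1066 3 5] []) .no .no

def c11t357 : Tr4 :=
  .br 827 .no (.con 136 [2, 2, 4]) (.con 136 [2, 2]) (.hor [.f 818 3 5] []) .no .no

def c11t358 : Tr4 :=
  .br 1338 (.con 136 [4, 1, 1, 1]) .no .no (.red [.f 1202 3 1, .f 1210 1 5] 167 136 [4, 1, 1]
  [(167, 136, [4, 1, 1])]) .no .no

def c11l13 : List Tr4 :=
  [c11t339, c11t340, c11t341, c11t342, c11t343, c11t344, c11t345, c11t346, c11t347, c11t348,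
  c11t349, c11t350, c11t351, c11t352, c11t353, c11t354, c11t355, c11t356, c11t357, c11t358]

theorem c11k13 : chkLF ⟨4, 1, 0, true, -8⟩ true 0 c11N 339 c11l13 = true := by decide +kernel

end Pool.Agent.FT4D
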