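import Pool.Agent.FT4D.Tab_c11

/-!
# Four levels: decision trees (found by a computer search)
-/

namespace Pool.Agent.FT4D

def c11t359 : Tr4 :=
  .br 1075 (.con 136 [4, 4]) (.hor [.f 946 1 5] []) .no (.con 136 [4, 4]) .no .no

def c11t360 : Tr4 :=
  .br 1216 (.red [.f 1208 1 3] 168 136 [1, 1] [(168, 136, [1, 1])]) .no (.use 159) .no (.br 1073
  (.br 1337 (.use 355) .no (.red [.t 1336 2 3, .f 1217 1 5] 168 136 [1, 1] [(168, 136, [1, 1])])
  (.use 358) (.red [.f 1073 1 3, .f 1201 3 5, .f 1209 5 1, .f 1210 1 3] 168 136 [1, 1] [(151, 135,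
  [1]), (168, 136, [1, 1])]) .no) .no .no (.br 1337 (.use 355) .no (.red [.t 1336 2 3, .f 1217 1
  5] 168 136 [1, 1] [(168, 136, [1, 1])]) (.use 358) (.br 1201 (.use 165) .no .no (.br 1074 .no
  (.use 359) .no (.hor [.f 1065 3 5] []) (.use 167) .no) .no (.red [.t 1080 4 1, .f 1201 3 5, .f
  1209 5 1, .f 1210 1 3] 168 136 [1, 1] [(151, 135, [1]), (168, 136, [1, 1])])) .no) (.br 1337
  (.use 355) .no (.red [.t 1336 2 3, .f 1217 1 5] 168 136 [1, 1] [(168, 136, [1, 1])]) (.use 358)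
  (.red [.t 1209 2 4, .f 1209 5 1, .f 1210 1 3] 168 136 [1, 1] [(151, 135, [1]), (168, 136, [1,
  1])]) .no) .no) .no

def c11t361 : Tr4 :=
  .br 1073 (.br 1075 (.con 136 [4, 4]) (.hor [.f 946 1 5] []) .no (.con 136 [4, 4]) .no .no) .no
  .no (.use 359) .no .no

def c11t362 : Tr4 :=
  .br 976 (.red [.t 1104 2 4, .t 969 1 4, .t 962 1 4] 136 136 [] [(136, 136, []), (137, 136, [3]),
  (138, 136, [3, 3])]) .no (.br 1096 (.br 1106 .no (.use 270) (.use 164) .no (.red [.f 1098 5 3,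
  .f 1097 3 5, .f 1089 5 3, .f 962 3 1, .t 962 1 4] 136 136 [] [(136, 136, []), (137, 136, [3])])
  .no) .no (.hor [.f 1096 3 5] []) .no .no .no) .no (.red [.f 968 5 3, .f 969 3 1, .t 969 1 4, .t
  962 1 4] 136 136 [] [(136, 136, []), (137, 136, [3]), (138, 136, [3, 3])]) .no

def c11t363 : Tr4 :=
  .br 1074 .no .no .no (.hor [.f 1065 3 5] []) .no .no

def c11t364 : Tr4 :=
  .br 969 .no (.hor [.f 833 1 3, .f 961 3 5] [(121, 120, [3])]) (.br 968 (.hor [.f 960 1 3, .f 960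
  3 1, .f 969 3 1, .f 968 1 5] [(138, 136, [3, 3])]) (.br 944 .no (.red [.f 816 1 3] 119 136 [2,
  4] [(119, 136, [2, 4])]) .no (.use 353) (.br 1211 (.br 1208 (.use 360) .no (.br 1217 (.hor [.f
  1217 1 5] []) .no (.br 1098 (.red [.t 1225 4 2, .f 1081 1 3, .f 1208 3 5] 152 136 [1] [(152,
  136, [1]), (153, 136, [3, 1])]) .no (.hor [.f 1097 3 5] []) .no (.use 161) .no) .no .no .no)
  (.con 136 [4, 1, 1]) .no .no) .no .no (.hor [.f 1202 3 5] []) .no .no) .no) (.hor [.f 968 3 5]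
  []) .no .no .no) .no .no (.br 944 .no (.red [.f 816 1 3] 119 136 [2, 4] [(119, 136, [2, 4])])
  .no (.use 353) (.br 1211 (.br 1208 (.use 360) .no (.br 825 .no (.br 826 .no (.hor [.f 697 1 5]
  []) (.br 832 .no (.br 1217 (.hor [.f 1217 1 5] []) .no (.br 1098 (.red [.t 1225 4 2, .f 1081 1
  3, .f 1208 3 5] 152 136 [1] [(152, 136, [1]), (153, 136, [3, 1])]) .no (.hor [.f 1097 3 5] [])
  .no (.br 1226 (.hor [.f 1218 1 3, .f 1217 3 5] [(169, 153, [1])]) .no (.br 840 .no (.hor [.f 704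
  1 3, .t 832 3 1, .f 961 3 5] [(105, 120, [3, 2]), (121, 120, [3])]) (.use 362) .no (.red [.f 840
  5 1, .f 833 1 3, .f 961 3 5, .f 961 5 1, .t 962 1 4] 136 136 [] [(121, 120, [3]), (136, 136,
  [])]) .no) .no (.red [.f 1098 5 1, .t 1225 4 2, .f 1081 1 3] 152 136 [1] [(152, 136, [1]), (153,
  136, [3, 1])]) .no) .no) .no .no .no) (.hor [.t 832 3 1, .f 961 3 5] [(121, 120, [3])]) .no .no
  .no) (.use 357) (.br 1217 (.hor [.f 1217 1 5] []) .no (.br 1098 (.red [.t 1225 4 2, .f 1081 1 3,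
  .f 1208 3 5] 152 136 [1] [(152, 136, [1]), (153, 136, [3, 1])]) .no (.hor [.f 1097 3 5] []) .no
  (.br 1226 (.hor [.f 1218 1 3, .f 1217 3 5] [(169, 153, [1])]) .no (.br 832 .no (.br 840 .no
  (.use 272) (.use 362) .no (.red [.f 840 5 1, .f 833 1 3, .f 961 3 5, .f 961 5 1, .t 962 1 4] 136
  136 [] [(121, 120, [3]), (136, 136, [])]) .no) (.hor [.t 832 3 1, .f 961 3 5] [(121, 120, [3])])
  .no .no .no) .no (.red [.f 1098 5 1, .t 1225 4 2, .f 1081 1 3] 152 136 [1] [(152, 136, [1]),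
  (153, 136, [3, 1])]) .no) .no) .no .no .no) .no) .no (.red [.t 824 1 4] 119 136 [2, 4] [(119,
  136, [2, 4])]) (.br 832 .no (.br 1217 (.hor [.f 1217 1 5] []) .no (.br 1098 (.red [.t 1225 4 2,
  .f 1081 1 3, .f 1208 3 5] 152 136 [1] [(152, 136, [1]), (153, 136, [3, 1])]) .no (.hor [.f 1097
  3 5] []) .no (.br 1226 (.hor [.f 1218 1 3, .f 1217 3 5] [(169, 153, [1])]) .no (.br 840 .no (.br
  834 .no (.hor [.f 704 1 3, .t 832 3 1, .f 961 3 5] [(105, 104, [3]), (121, 120, [3])]) (.hor [.f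
  834 3 1, .f 833 1 5] [(121, 120, [3])]) .no (.hor [.f 704 1 3, .t 832 3 1, .f 961 3 5] [(105,
  104, [3]), (121, 120, [3])]) .no) (.use 362) .no (.red [.f 840 5 1, .f 833 1 3, .f 961 3 5, .f
  961 5 1, .t 962 1 4] 136 136 [] [(121, 120, [3]), (136, 136, [])]) .no) .no (.red [.f 1098 5 1,
  .t 1225 4 2, .f 1081 1 3] 152 136 [1] [(152, 136, [1]), (153, 136, [3, 1])]) .no) .no) .no .no
  .no) (.hor [.t 832 3 1, .f 961 3 5] [(121, 120, [3])]) .no .no .no) .no) (.con 136 [4, 1, 1])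
  .no .no) .no .no (.hor [.f 1202 3 5] []) .no .no) .no)

def c11t365 : Tr4 :=
  .br 816 .no (.con 136 [4, 2, 4, 2]) .no (.hor [.f 808 3 5] []) .no .no

def c11t366 : Tr4 :=
  .br 817 .no (.hor [.f 689 1 5] []) .no (.use 365) .no (.red [.f 816 5 1, .f 816 1 3] 119 136 [4,
  2] [(119, 136, [4, 2])])

def c11t367 : Tr4 :=
  .br 690 .no (.hor [.f 562 1 3, .f 690 3 5] [(87, 136, [2, 2, 2, 4])]) .no (.br 689 .no (.con 136
  [4, 2, 4, 2, 2]) .no (.hor [.f 681 3 5] []) .no (.con 136 [4, 2, 4, 2, 2])) .no (.red [.f 689 5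
  1, .f 689 1 3, .t 824 1 4] 119 136 [4, 2] [(103, 136, [2, 2, 4]), (119, 136, [4, 2])])

def c11t368 : Tr4 :=
  .br 1067 .no (.con 136 [4, 1, 4, 2, 4]) .no (.hor [.f 1058 3 5] []) .no .no

def c11t369 : Tr4 :=
  .br 689 .no (.con 136 [4, 2, 2, 2, 4]) .no (.hor [.f 681 3 5] []) .no .no

def c11t370 : Tr4 :=
  .br 809 .no (.br 816 .no (.con 136 [4, 2, 2, 4, 2]) .no (.red [.t 681 1 3, .f 808 3 5, .f 816 5
  1, .f 816 1 3] 119 136 [4, 2] [(102, 86, [1]), (119, 136, [4, 2])]) .no .no) .no (.red [.f 801 3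
  1] 117 136 [4, 2, 4, 4] [(117, 136, [4, 2, 4, 4])]) (.red [.f 809 5 3, .f 810 3 1] 118 136 [4,
  2, 4] [(118, 136, [4, 2, 4])]) (.br 816 .no (.use 369) .no .no .no .no)

def c11t371 : Tr4 :=
  .br 1200 (.con 136 [4, 1, 4, 1]) .no .no (.hor [.f 1192 3 5] []) .no .no

def c11t372 : Tr4 :=
  .br 690 .no (.hor [.f 562 1 3, .f 690 3 5] [(87, 136, [2, 2, 2, 4])]) .no (.br 1201 (.br 1065
  (.br 1066 (.hor [.f 1065 1 5] []) .no .no (.br 1067 .no (.use 370) .no (.hor [.f 1058 3 5] [])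
  .no .no) (.red [.t 833 1 4, .t 946 4 1, .t 826 1 4] 119 136 [2, 4] [(119, 136, [2, 4]), (120,
  136, [2]), (134, 118, [1])]) .no) .no .no (.br 1067 .no (.use 370) .no (.hor [.f 929 3 1, .f 936
  1 5] [(133, 118, [1, 4])]) .no (.hor [.f 929 3 1, .f 936 1 5] [(133, 118, [1, 4])])) (.br 816
  .no (.use 369) .no (.red [.f 1065 5 3, .t 1064 2 3, .f 808 3 1] 118 136 [2, 4, 4] [(118, 136,
  [2, 4, 4]), (134, 136, [4, 4])]) .no .no) .no) .no .no (.use 371) .no (.red [.t 833 1 4, .t 1080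
  4 1, .t 960 1 4] 136 136 [] [(120, 136, [2]), (136, 136, []), (151, 135, [1])])) .no (.red [.f
  689 5 1, .f 689 1 3, .t 824 1 4] 119 136 [2, 4] [(103, 136, [2, 2, 4]), (119, 136, [2, 4])])

def c11t373 : Tr4 :=
  .br 690 .no (.red [.f 562 1 3] 87 136 [4, 2, 4, 2, 2, 3] [(87, 136, [2, 2, 2, 4])]) .no (.con
  136 [4, 2, 4, 2, 2]) .no (.red [.f 689 5 1, .f 689 1 3, .t 824 1 4] 119 136 [4, 2] [(103, 136,
  [2, 2, 4]), (119, 136, [4, 2])])

def c11t374 : Tr4 :=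
  .br 809 .no (.use 373) .no (.red [.f 801 3 1, .f 808 1 5] 117 136 [4, 2, 4, 4] [(117, 136, [4,
  2, 4, 4])]) (.red [.f 809 5 3, .f 810 3 1] 118 136 [4, 2, 4] [(118, 136, [4, 2, 4])]) .no

def c11t375 : Tr4 :=
  .br 827 .no (.hor [.f 699 1 3, .f 826 3 5] [(104, 103, [3])]) .no (.br 818 .no (.use 366) .no
  (.red [.f 810 3 1] 118 136 [2, 4, 4] [(118, 136, [2, 4, 4])]) .no (.br 698 .no (.br 699 .no
  (.hor [.f 570 1 5] []) .no (.br 937 (.br 1203 (.red [.f 1203 1 3, .f 1202 3 5] 167 136 [4, 1, 1]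
  [(167, 136, [4, 1, 1])]) .no .no (.br 1066 (.br 1064 (.con 136 [4, 4, 1, 4]) (.hor [.f 936 1 5]
  []) .no (.br 936 .no (.use 367) .no (.red [.f 928 3 1, .f 936 1 5] 133 136 [4, 4, 4] [(133, 136,
  [4, 4, 4])]) .no .no) .no .no) .no .no (.br 936 (.hor [.f 936 1 5] []) (.use 367) .no (.use 368)
  .no .no) (.red [.t 833 1 4, .t 946 4 1, .t 826 1 4] 119 136 [2, 4] [(119, 136, [2, 4]), (120,
  136, [2]), (134, 118, [1])]) .no) .no .no) (.red [.t 937 2 3] 118 136 [2, 4, 4] [(118, 136, [2,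
  4, 4])]) .no (.br 1203 (.red [.f 1203 1 3, .f 1202 3 5] 167 136 [4, 1, 1] [(167, 136, [4, 1,
  1])]) .no .no (.br 936 (.use 372) (.use 374) .no (.hor [.f 928 3 5] []) .no .no) .no .no) .no
  (.red [.f 936 5 3, .f 937 3 5, .f 945 5 3, .t 946 3 1] 135 136 [4] [(135, 136, [4])])) .no .no)
  (.hor [.f 698 3 1, .f 697 1 5] [(104, 88, [1])]) (.red [.t 697 1 4, .t 824 1 4] 119 136 [2, 4]
  [(103, 136, [2, 2, 4]), (119, 136, [2, 4])]) (.hor [.t 834 4 2, .f 697 1 5] [(104, 120, [2])])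
  .no)) .no .no

def c11t376 : Tr4 :=
  .br 1203 (.red [.f 1203 1 3, .f 1202 3 5] 167 136 [4, 1, 1] [(167, 136, [4, 1, 1])]) .no .no
  (.use 371) .no .no

def c11t377 : Tr4 :=
  .br 816 .no (.con 136 [4, 2, 2, 4]) .no (.hor [.f 808 3 5] []) .no .no

def c11t378 : Tr4 :=
  .br 817 .no (.red [.f 689 1 3] 103 136 [4, 2, 2] [(103, 136, [4, 2, 2])]) .no (.use 377) .no
  (.red [.f 816 5 1, .f 816 1 3] 119 136 [4, 2] [(119, 136, [4, 2])])

def c11t379 : Tr4 :=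
  .br 1203 (.red [.f 1203 1 3, .f 1202 3 5] 167 136 [4, 1, 1] [(167, 136, [4, 1, 1])]) .no .no
  (.br 1066 (.br 1064 (.con 136 [4, 4, 1, 4]) (.hor [.f 936 1 5] []) .no (.br 936 .no (.br 939
  (.con 136 [4, 4, 4]) (.br 928 .no (.red [.f 800 1 3] 117 136 [4, 2, 4, 4] [(117, 136, [4, 2, 4,
  4])]) .no (.br 929 (.red [.f 929 1 3] 133 136 [4, 4, 4] [(133, 136, [4, 4, 4])]) (.br 930 (.con
  136 [4, 2, 4, 4, 4]) (.hor [.f 801 1 5] []) .no (.con 136 [4, 2, 4, 4, 4]) (.con 136 [4, 2, 4,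
  4, 4]) .no) .no (.hor [.f 920 3 5] []) (.br 1058 (.red [.t 937 1 3, .f 1058 1 3, .t 1073 4 2, .t
  1065 2 4] 133 136 [4, 4, 4] [(133, 136, [4, 4, 4]), (149, 136, [4, 4, 1, 4])]) .no .no (.br 1057
  (.con 136 [4, 4, 1, 4, 4]) .no .no (.hor [.f 1049 3 5] []) .no .no) (.con 136 [4, 4, 1, 4, 2])
  (.red [.f 929 5 1, .f 929 1 3] 133 136 [4, 4, 4] [(133, 136, [4, 4, 4])])) .no) (.red [.t 1064 4
  2] 133 136 [4, 4, 4] [(133, 136, [4, 4, 4])]) .no) .no (.con 136 [4, 2, 4, 4]) .no .no) .no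
  (.red [.f 928 3 1, .f 936 1 5] 133 136 [4, 4, 4] [(133, 136, [4, 4, 4])]) .no .no) .no .no) .no
  .no (.br 936 (.hor [.f 936 1 5] []) (.br 1067 .no (.con 136 [4, 4, 4]) .no (.hor [.f 1058 3 5]
  []) .no .no) .no (.use 368) .no .no) (.red [.t 946 4 1, .f 1067 3 1, .t 1202 3 2, .f 1081 1 5,
  .f 953 5 1, .t 1080 4 2] 135 136 [4] [(134, 118, [1]), (135, 136, [4]), (150, 118, [1, 1]),
  (151, 135, [1])]) .no) .no .no

def c11t380 : Tr4 :=
  .br 809 .no (.br 816 .no (.con 136 [4, 2, 2, 4]) .no (.br 810 .no (.hor [.f 681 1 5] []) .no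
  (.con 136 [4, 2, 2, 4, 4]) .no .no) .no .no) .no (.red [.f 801 3 1] 117 136 [4, 2, 4, 4] [(117,
  136, [4, 2, 4, 4])]) (.red [.f 809 5 3, .f 810 3 1] 118 136 [4, 2, 4] [(118, 136, [4, 2, 4])])
  (.con 136 [4, 2, 4, 2])

def c11t381 : Tr4 :=
  .br 819 .no (.red [.f 691 1 3] 103 136 [2, 4, 2] [(103, 136, [2, 4, 2])]) .no (.use 380) .no .no

def c11t382 : Tr4 :=
  .br 1464 (.br 850 .no (.con 136 [2, 3, 3, 2, 4, 1, 1]) (.con 136 [2, 3, 3, 2, 4, 1, 1]) (.br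
  1328 (.br 1465 (.hor [.f 1464 1 5] []) .no .no (.red [.t 1456 2 3, .f 1337 1 5] 183 136 [1, 4,
  1, 1] [(183, 136, [1, 4, 1, 1])]) .no .no) .no .no (.con 136 [1, 4, 4, 1, 1]) .no .no) .no .no)
  .no (.br 1328 (.red [.t 1472 4 2, .f 1328 1 3] 183 136 [1, 4, 1, 1] [(183, 136, [1, 4, 1, 1]),
  (184, 136, [1, 1, 1])]) .no .no (.con 136 [1, 4, 4, 1, 1]) .no .no) (.con 136 [1, 4, 1, 1, 4])
  (.red [.f 1336 5 1, .f 1337 1 5, .t 1201 1 3] 167 136 [1, 4, 1] [(167, 136, [1, 4, 1])]) .no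

def c11t383 : Tr4 :=
  .br 1105 (.hor [.f 1104 1 5] []) .no (.con 136 [3, 3, 3, 1]) .no .no .no

def c11t384 : Tr4 :=
  .br 1105 (.br 1224 (.br 1232 (.br 1353 (.hor [.f 1345 1 3, .f 1217 3 1, .f 1217 1 5] [(169, 153,
  [1]), (185, 153, [1, 1])]) .no (.hor [.f 1224 1 3, .f 1352 3 5] [(170, 136, [3, 1, 3, 1])]) .no
  (.red [.t 1217 3 1, .f 1089 5 1, .f 1081 1 3] 152 136 [1] [(152, 136, [1]), (169, 153, [1])])
  .no) .no (.hor [.f 1104 3 1, .f 1104 1 5] [(155, 154, [3])]) .no .no .no) .no (.hor [.t 1232 4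
  2, .f 1097 3 5] [(154, 136, [3, 1, 3])]) .no .no .no) .no (.hor [.f 1104 3 5] []) .no .no .no

def c11t385 : Tr4 :=
  .br 706 .no (.hor [.f 570 1 3, .f 698 3 1, .f 697 1 5] [(88, 120, [2, 2]), (104, 120, [2])])
  (.br 1347 (.br 1200 (.hor [.f 1200 1 5] []) .no .no (.br 979 .no (.br 976 (.br 832 .no (.br 978
  .no (.con 136 [2, 3, 3, 2, 4, 4, 1]) (.br 1330 (.red [.f 1330 1 3, .f 1202 3 1] 167 136 [4, 1,
  1] [(167, 136, [4, 1, 1]), (183, 136, [4, 1, 1, 1])]) .no .no (.br 849 .no (.hor [.f 713 1 3, .f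
  841 3 1, .f 840 1 5] [(106, 105, [3]), (122, 121, [3])]) (.use 382) .no (.con 136 [2, 3, 3, 2,
  4, 4, 1]) (.red [.t 968 2 3, .f 968 5 1, .t 969 1 4, .t 962 1 4] 136 136 [] [(122, 121, [3]),
  (136, 136, []), (137, 136, [3])])) .no .no) .no .no .no) .no .no .no .no) (.hor [.f 840 1 3, .f
  968 3 5] [(122, 121, [3])]) (.br 1104 (.use 383) .no (.use 384) .no (.red [.f 1096 5 3, .f 969 3
  1, .t 969 1 4, .t 962 1 4, .t 1105 2 4] 136 136 [] [(136, 136, []), (137, 136, [3])]) .no) .no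
  .no .no) (.hor [.f 979 3 1, .f 971 1 3, .f 1098 3 5] [(138, 137, [3]), (139, 137, [3, 3])]) .no
  .no (.red [.t 1098 3 2, .f 1098 5 1, .t 1225 4 2, .f 1081 1 3] 152 136 [1] [(138, 137, [3]),
  (152, 136, [1]), (153, 136, [3, 1])])) .no .no) .no (.hor [.t 1346 2 3, .f 1217 3 5] [(169, 153,
  [1])]) .no .no .no) .no .no (.red [.t 825 2 3, .f 817 5 3, .t 824 1 4] 119 136 [2, 4] [(104,
  120, [2]), (119, 136, [2, 4])])

def c11l14 : List Tr4 :=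
  [c11t359, c11t360, c11t361, c11t362, c11t363, c11t364, c11t365, c11t366, c11t367, c11t368,
  c11t369, c11t370, c11t371, c11t372, c11t373, c11t374, c11t375, c11t376, c11t377, c11t378,
  c11t379, c11t380, c11t381, c11t382, c11t383, c11t384, c11t385]

theorem c11k14 : chkLF ⟨4, 1, 0, true, -8⟩ true 0 c11N 359 c11l14 = true := by decide +kernel

def c11t386 : Tr4 :=
  .br 1203 (.red [.f 1203 1 3, .f 1202 3 5] 167 136 [4, 1, 1] [(167, 136, [4, 1, 1])]) .no .no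
  (.br 1107 (.red [.t 1106 4 1, .t 1225 4 2, .f 1081 1 3] 152 136 [1] [(152, 136, [1]), (153, 136,
  [3, 1]), (154, 136, [3, 3, 1])]) (.hor [.f 971 1 3, .f 1098 3 5] [(138, 137, [3])]) (.br 1331
  (.br 698 .no (.br 936 (.br 841 .no (.br 827 .no (.use 381) .no (.br 699 .no (.hor [.f 570 1 5]
  []) (.use 385) (.use 372) .no .no) .no .no) (.hor [.f 841 3 1, .f 840 1 5] [(122, 121, [3])])
  .no (.red [.t 961 2 3, .f 961 5 1, .t 962 1 4, .t 842 1 4] 136 136 [] [(136, 136, [])]) .no)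
  (.br 827 .no (.use 381) .no (.br 699 .no (.hor [.f 570 1 5] []) (.br 841 .no (.use 385) (.hor
  [.f 841 3 1, .f 840 1 5] [(122, 121, [3])]) .no (.red [.t 961 2 3, .f 961 5 1, .t 962 1 4, .t
  842 1 4] 136 136 [] [(136, 136, [])]) .no) (.use 374) .no .no) .no .no) .no (.hor [.f 928 3 5]
  []) .no .no) (.hor [.f 698 3 1, .f 697 1 5] [(104, 120, [2])]) (.red [.t 697 1 4, .t 824 1 4]
  119 136 [2, 4] [(103, 136, [2, 2, 4]), (119, 136, [2, 4])]) (.br 707 .no (.br 706 .no (.hor [.f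
  578 1 5] []) (.br 1347 (.br 1104 (.use 383) (.br 1200 (.hor [.f 1200 1 5] []) .no .no (.br 827
  .no .no .no (.br 841 .no (.br 979 .no (.br 832 .no (.br 978 .no (.con 136 [2, 3, 3, 2, 4, 4, 1])
  (.br 849 .no (.hor [.f 713 1 3, .f 841 3 1, .f 840 1 5] [(106, 105, [3]), (122, 121, [3])]) (.br
  1330 (.red [.f 1330 1 3, .f 1202 3 1] 167 136 [4, 1, 1] [(167, 136, [4, 1, 1]), (183, 136, [4,
  1, 1, 1])]) .no .no (.use 382) .no .no) .no (.con 136 [2, 3, 3, 2, 4, 4, 1]) (.red [.t 968 2 3,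
  .f 968 5 1, .t 969 1 4, .t 962 1 4] 136 136 [] [(122, 121, [3]), (136, 136, []), (137, 136,
  [3])])) .no .no .no) .no .no .no .no) (.hor [.f 979 3 1, .f 971 1 3, .f 1098 3 5] [(138, 137,
  [3]), (139, 138, [3])]) .no .no (.red [.t 1098 3 2, .f 1098 5 1, .t 1225 4 2, .f 1081 1 3] 152
  136 [1] [(138, 137, [3]), (152, 136, [1]), (153, 136, [3, 1])])) (.hor [.f 841 3 1, .f 840 1 5]
  [(122, 121, [3])]) .no (.red [.t 961 2 3, .f 961 5 1, .t 962 1 4, .t 842 1 4] 136 136 [] [(136,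
  136, [])]) .no) .no .no) .no .no) (.use 384) .no (.red [.f 1096 5 3, .f 969 3 1, .t 969 1 4, .t
  962 1 4, .t 1105 2 4] 136 136 [] [(136, 136, []), (137, 136, [3])]) .no) .no (.hor [.t 1346 2 3,
  .f 1217 3 5] [(169, 153, [1])]) .no .no .no) .no .no (.red [.t 825 2 3, .f 817 5 3, .t 824 1 4]
  119 136 [2, 4] [(104, 120, [2]), (119, 136, [2, 4])])) (.hor [.f 707 3 1, .t 834 4 2, .f 697 1
  5] [(104, 120, [2]), (105, 121, [2])]) .no .no (.red [.f 698 5 3, .f 698 3 1, .f 697 1 5, .f 817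
  5 3, .t 824 1 4] 119 136 [2, 4] [(104, 120, [2]), (119, 136, [2, 4])])) .no) .no .no (.red [.f
  1195 3 1, .f 1203 1 3, .f 1202 3 5] 167 136 [4, 1, 1] [(166, 136, [4, 4, 1, 1]), (167, 136, [4,
  1, 1])]) .no (.red [.t 1210 4 1, .f 1201 1 5] 167 136 [4, 1, 1] [(167, 136, [4, 1, 1])])) .no
  .no .no) .no .no

def c11t387 : Tr4 :=
  .br 1104 (.br 1106 .no (.br 1105 (.hor [.f 1104 1 5] []) .no (.con 136 [3, 3, 3, 1]) .no .no
  .no) (.hor [.f 1106 3 5] []) .no .no (.con 136 [3, 3, 3, 1])) .no (.br 1106 .no (.br 1105 (.hor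
  [.t 978 1 4, .f 1098 3 1, .f 1105 1 5] [(138, 136, [3, 3]), (154, 136, [3, 3, 1])]) .no (.hor
  [.f 1104 3 5] []) .no .no .no) (.red [.f 976 3 1, .t 976 1 4, .t 969 1 4, .t 962 1 4] 136 136 []
  [(136, 136, []), (137, 136, [3]), (138, 136, [3, 3]), (139, 136, [3, 3, 3])]) .no .no (.red [.f
  976 3 1, .t 976 1 4, .t 969 1 4, .t 962 1 4] 136 136 [] [(136, 136, []), (137, 136, [3]), (138,
  136, [3, 3]), (139, 136, [3, 3, 3])])) .no (.red [.f 1096 5 3, .f 969 3 1, .t 969 1 4, .t 962 1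
  4] 136 136 [] [(136, 136, []), (137, 136, [3]), (138, 136, [3, 3])]) .no

def c11t388 : Tr4 :=
  .br 976 (.red [.t 976 1 4, .t 969 1 4, .t 962 1 4] 136 136 [] [(136, 136, []), (137, 136, [3]),
  (138, 136, [3, 3])]) (.hor [.f 840 1 3, .f 968 3 5] [(122, 121, [3])]) (.br 971 .no .no (.use
  387) .no .no .no) .no .no .no

def c11t389 : Tr4 :=
  .br 947 (.br 1073 (.use 354) .no .no (.use 363) (.br 968 .no (.br 1217 (.hor [.f 1217 1 5] [])
  .no (.br 1098 (.red [.t 1225 4 2, .f 1081 1 3, .f 1208 3 5] 152 136 [1] [(152, 136, [1]), (153,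
  136, [3, 1])]) .no (.br 1099 (.con 136 [3, 3, 1]) (.br 1226 (.hor [.f 1218 1 3, .f 1217 3 5]
  [(169, 153, [1])]) .no (.hor [.f 1098 3 1, .t 1225 4 2, .f 962 3 1, .f 970 1 5] [(137, 136,
  [3]), (153, 136, [3, 1]), (154, 136, [3, 3, 1])]) .no (.br 835 .no (.use 375) (.br 1337 (.use
  355) .no (.red [.t 1209 2 4, .t 1345 4 2, .t 1218 4 2] 152 136 [1] [(151, 135, [1]), (152, 136,
  [1]), (168, 136, [1, 1])]) (.br 1201 .no .no .no (.br 1203 (.red [.f 1203 1 3, .f 1202 3 5] 167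
  136 [4, 1, 1] [(167, 136, [4, 1, 1])]) .no .no (.br 1200 (.con 136 [4, 4, 1, 1]) .no .no (.hor
  [.f 1192 3 5] []) .no .no) .no .no) .no (.red [.t 833 1 4, .t 1080 4 1, .t 960 1 4] 136 136 []
  [(120, 136, [2]), (136, 136, []), (151, 135, [1])])) (.br 1201 (.red [.t 1201 1 3, .f 1210 1 5]
  167 136 [4, 1, 1] [(167, 136, [4, 1, 1])]) .no .no (.use 376) .no (.red [.t 833 1 4, .t 1080 4
  1, .t 960 1 4] 136 136 [] [(120, 136, [2]), (136, 136, []), (151, 135, [1])])) (.br 1201 (.br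
  1338 (.br 1345 (.br 818 .no (.use 366) .no (.red [.f 810 3 1] 118 136 [2, 4, 4] [(118, 136, [2,
  4, 4])]) (.use 378) (.br 937 (.use 379) (.red [.t 937 2 3] 118 136 [2, 4, 4] [(118, 136, [2, 4,
  4])]) .no (.use 386) .no (.red [.f 936 5 3, .f 937 3 5, .f 945 5 3, .t 946 3 1] 135 136 [4]
  [(135, 136, [4])]))) .no (.hor [.f 1217 3 1, .f 1217 1 5] [(169, 153, [1])]) .no .no (.red [.t
  1209 2 4, .f 1336 5 3, .t 1345 4 2, .t 1218 4 2] 152 136 [1] [(151, 135, [1]), (152, 136, [1]),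
  (168, 136, [1, 1])])) .no .no (.red [.f 1202 3 1, .f 1201 1 5] 167 136 [4, 1, 1] [(167, 136, [4,
  1, 1])]) .no .no) .no .no (.use 376) .no (.red [.t 833 1 4, .t 1080 4 1, .t 960 1 4] 136 136 []
  [(120, 136, [2]), (136, 136, []), (151, 135, [1])]))) (.hor [.f 826 3 5] []) .no .no) .no) (.hor
  [.f 1098 3 5] []) .no .no .no) .no (.br 1226 (.hor [.f 1218 1 3, .f 1217 3 5] [(169, 153, [1])])
  .no (.br 835 .no (.use 375) (.br 1107 (.red [.t 1234 4 2, .t 1225 4 2, .f 1081 1 3] 152 136 [1]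
  [(152, 136, [1]), (153, 136, [3, 1]), (154, 136, [3, 3, 1])]) (.con 136 [3, 3, 2, 4, 4]) (.use
  388) .no .no (.red [.f 1098 5 3, .f 1098 3 1, .t 1225 4 2, .f 1081 1 3] 152 136 [1] [(152, 136,
  [1]), (153, 136, [3, 1]), (154, 136, [3, 3, 1])])) (.hor [.f 826 3 5] []) .no .no) .no (.red [.f
  1098 5 1, .t 1225 4 2, .f 1081 1 3] 152 136 [1] [(152, 136, [1]), (153, 136, [3, 1])]) .no) .no)
  .no .no .no) (.hor [.f 968 3 5] []) .no .no .no) .no) (.con 136 [2, 4, 4]) .no (.hor [.f 938 3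
  5] []) .no .no

def c11t390 : Tr4 :=
  .br 810 .no (.hor [.f 681 1 5] []) .no (.con 136 [4, 2, 2, 4, 4]) .no .no

def c11t391 : Tr4 :=
  .br 690 .no (.br 691 .no (.hor [.f 562 1 5] []) .no (.red [.f 683 3 1, .f 691 1 3] 103 136 [2,
  2, 4] [(102, 136, [2, 2, 4, 4]), (103, 136, [2, 2, 4])]) .no .no) .no .no (.red [.t 810 2 3, .f
  691 1 3] 103 136 [2, 2, 4] [(102, 136, [2, 2, 4, 4]), (103, 136, [2, 2, 4])]) (.red [.f 689 5 1,
  .f 689 1 3] 103 136 [2, 2, 4] [(103, 136, [2, 2, 4])])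

def c11t392 : Tr4 :=
  .br 809 .no (.use 390) .no (.br 810 .no (.use 391) .no (.hor [.f 801 3 5] []) .no .no) (.hor [.f
  809 5 3, .f 808 3 5, .f 810 3 5] []) .no

def c11t393 : Tr4 :=
  .br 809 .no (.br 810 .no (.use 391) .no (.con 136 [2, 2, 4, 4, 4]) .no .no) .no (.red [.f 801 3
  1, .t 808 3 1] 118 136 [2, 4, 4] [(117, 136, [2, 4, 4, 4]), (118, 136, [2, 4, 4])]) (.hor [.f
  809 5 3, .f 808 3 5, .f 810 3 5] []) .no

def c11t394 : Tr4 :=
  .br 1066 (.con 136 [4, 4, 4]) (.hor [.f 937 1 5] []) .no (.con 136 [4, 4, 4]) (.con 136 [4, 4,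
  4]) .no

def c11t395 : Tr4 :=
  .br 816 .no (.con 136 [4, 2, 2, 4]) .no (.red [.t 808 3 1, .f 816 1 3] 119 136 [4, 2] [(118,
  136, [4, 2, 4]), (119, 136, [4, 2])]) .no .no

def c11t396 : Tr4 :=
  .br 936 (.hor [.f 936 1 5] []) .no .no (.br 1066 (.con 136 [4, 4, 4]) (.hor [.f 937 1 5] []) .no
  (.con 136 [4, 4, 4]) (.con 136 [4, 4, 4]) .no) .no .no

def c11t397 : Tr4 :=
  .br 1067 (.red [.f 1067 1 3] 150 136 [4, 1, 4] [(150, 136, [4, 1, 4])]) (.hor [.f 938 1 5] [])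
  .no (.br 936 (.br 939 .no .no .no (.hor [.f 931 3 1, .f 938 1 5] [(133, 117, [1])]) .no .no) .no
  .no (.hor [.f 928 3 5] []) .no .no) .no .no

def c11t398 : Tr4 :=
  .br 937 (.con 136 [4, 2, 4, 4]) (.use 395) .no (.con 136 [4, 2, 4, 4]) .no (.con 136 [4, 2, 4,
  4])

def c11t399 : Tr4 :=
  .br 1073 (.br 1075 (.con 136 [4, 1, 4]) .no .no (.use 356) .no (.br 698 .no (.br 1203 (.red [.f
  1203 1 3, .f 1202 3 5] 167 136 [4, 1, 1] [(167, 136, [4, 1, 1])]) .no .no (.br 816 .no (.con 136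
  [2, 2, 4, 4]) .no (.br 936 (.br 1065 (.red [.f 1065 1 3] 150 136 [4, 4, 1] [(150, 136, [4, 4,
  1])]) (.hor [.f 936 1 5] []) .no (.br 1066 (.con 136 [4, 4, 1, 4]) (.red [.f 1073 1 3, .f 946 5
  1, .f 938 1 3, .f 1073 3 1] 134 136 [4, 4] [(134, 136, [4, 4])]) .no (.hor [.f 1057 3 5] [])
  (.br 937 .no (.red [.t 808 3 1, .f 816 1 3] 119 136 [2, 4] [(118, 136, [2, 4, 4]), (119, 136,
  [2, 4])]) .no (.red [.f 929 3 1, .f 936 1 5, .f 936 5 3, .f 808 3 1] 118 136 [2, 4, 4] [(118,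
  136, [2, 4, 4]), (133, 134, [4])]) (.use 392) .no) .no) (.br 937 .no (.red [.t 808 3 1, .f 816 1
  3] 119 136 [2, 4] [(118, 136, [2, 4, 4]), (119, 136, [2, 4])]) .no (.br 938 .no (.con 136 [2, 4,
  4, 4]) .no (.hor [.f 929 3 5] []) (.use 393) .no) (.use 392) .no) .no) .no .no (.br 937 (.use
  394) (.red [.t 808 3 1, .f 816 1 3] 119 136 [2, 4] [(118, 136, [2, 4, 4]), (119, 136, [2, 4])])
  .no (.hor [.f 928 3 5] []) (.use 392) .no) (.red [.f 936 5 3, .f 808 3 1, .f 816 1 3] 119 136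
  [2, 4] [(118, 136, [2, 4, 4]), (119, 136, [2, 4])]) .no) .no .no) .no .no) (.hor [.f 698 3 1, .f
  697 1 5] [(104, 88, [1])]) (.red [.t 697 1 4] 103 136 [2, 2, 4] [(103, 136, [2, 2, 4])]) .no
  .no)) .no .no (.br 1074 .no .no .no (.hor [.f 1065 3 5] []) (.br 936 (.red [.t 1064 2 3] 134 136
  [4, 4] [(134, 136, [4, 4])]) (.con 136 [2, 4, 4, 2]) .no (.br 937 .no (.use 395) .no (.hor [.f
  928 3 5] []) (.red [.f 946 5 1, .t 1073 4 2] 134 136 [4, 4] [(134, 136, [4, 4])]) .no) (.red [.f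
  936 5 3, .f 937 3 1] 134 136 [4, 4] [(134, 136, [4, 4])]) .no) .no) (.br 1075 (.br 698 .no (.br
  816 .no (.con 136 [2, 2, 4, 4]) .no (.br 937 (.use 396) (.use 395) .no (.br 938 (.use 397) (.con
  136 [2, 4, 4, 4]) .no (.hor [.f 929 3 5] []) (.use 393) .no) (.use 392) (.red [.f 936 5 3, .f
  808 3 1, .f 816 1 3] 119 136 [2, 4] [(118, 136, [2, 4, 4]), (119, 136, [2, 4])])) .no .no) (.hor
  [.f 698 3 1, .f 697 1 5] [(104, 88, [1])]) (.red [.t 697 1 4] 103 136 [2, 2, 4] [(103, 136, [2,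
  2, 4])]) .no .no) .no .no (.br 698 .no (.br 939 .no .no .no (.br 938 (.red [.t 1066 2 3] 134 136
  [4, 4] [(134, 136, [4, 4])]) (.use 398) .no (.hor [.f 930 3 5] []) .no (.br 816 .no (.con 136
  [2, 2, 4, 4]) .no (.use 392) .no .no)) .no (.red [.f 938 5 3, .f 939 3 1] 134 136 [4, 4] [(134,
  136, [4, 4])])) (.hor [.f 698 3 1, .f 697 1 5] [(104, 88, [1])]) (.red [.t 697 1 4] 103 136 [2,
  2, 4] [(103, 136, [2, 2, 4])]) .no .no) .no .no) .no

def c11t400 : Tr4 :=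
  .br 816 .no (.con 136 [4, 2, 2, 4]) .no (.hor [.f 808 3 5] []) .no .no

def c11t401 : Tr4 :=
  .br 698 .no (.br 699 .no (.hor [.f 570 1 5] []) (.br 819 .no (.red [.t 706 1 4, .f 691 1 3] 103
  136 [2, 2, 4] [(103, 136, [2, 2, 4]), (104, 136, [2, 2])]) .no (.use 400) .no .no) (.br 816 .no
  (.con 136 [2, 2, 4, 2]) .no (.hor [.f 808 3 5] []) .no .no) .no .no) .no (.br 819 .no (.red [.t
  690 3 1, .f 697 1 5] 103 136 [2, 2, 4] [(103, 136, [2, 2, 4])]) .no (.use 400) .no .no) (.red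
  [.f 698 5 1, .f 697 1 5, .f 825 5 1, .f 818 1 3] 119 136 [2, 4] [(119, 136, [2, 4])]) .no

def c11t402 : Tr4 :=
  .br 699 .no (.use 274) (.red [.t 706 1 4, .f 691 1 3] 103 136 [2, 2, 4] [(103, 136, [2, 2, 4]),
  (104, 136, [2, 2])]) .no .no (.red [.f 698 5 1, .f 691 1 3] 103 136 [2, 2, 4] [(103, 136, [2, 2,
  4])])

def c11t403 : Tr4 :=
  .br 818 (.br 947 (.use 401) (.hor [.f 818 1 5] []) .no (.br 819 .no (.use 402) .no (.use 400)
  .no .no) .no .no) (.use 365) .no (.hor [.f 809 3 5] []) (.use 377) .no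

def c11t404 : Tr4 :=
  .br 819 .no (.use 402) .no (.use 380) .no .no

def c11t405 : Tr4 :=
  .br 809 .no (.br 810 .no (.hor [.f 681 1 5] []) .no (.con 136 [4, 2, 2, 4, 4]) .no .no) .no
  (.red [.f 801 3 1, .t 808 3 1] 118 136 [4, 2, 4] [(117, 136, [4, 2, 4, 4]), (118, 136, [4, 2,
  4])]) (.hor [.f 809 5 3, .f 808 3 5, .f 810 3 5] []) .no

def c11t406 : Tr4 :=
  .br 816 .no (.con 136 [4, 2, 2, 4]) .no (.br 936 (.br 1065 (.red [.f 1065 1 3] 150 136 [4, 4, 1]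
  [(150, 136, [4, 4, 1])]) (.hor [.f 936 1 5] []) .no (.br 1066 (.con 136 [4, 4, 1, 4]) (.red [.f
  1073 1 3, .f 946 5 1, .f 938 1 3, .f 1073 3 1] 134 136 [4, 4] [(134, 136, [4, 4])]) .no (.hor
  [.f 1057 3 5] []) (.br 937 .no (.use 395) .no (.red [.f 929 3 1, .f 936 1 5, .f 936 5 3, .f 808
  3 1] 118 136 [4, 2, 4] [(118, 136, [4, 2, 4]), (133, 134, [4])]) (.br 809 .no (.use 390) .no
  (.br 1200 (.con 136 [4, 4, 1, 1]) .no .no (.br 930 (.red [.t 1057 3 2, .f 936 1 5, .t 1200 4 2]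
  150 136 [4, 4, 1] [(133, 134, [4]), (150, 136, [4, 4, 1])]) (.red [.t 801 3 1, .t 808 3 1] 118
  136 [4, 2, 4] [(117, 136, [4, 2, 4, 4]), (118, 136, [4, 2, 4])]) .no (.br 929 .no .no .no (.hor
  [.f 921 3 5] []) .no (.red [.f 1073 1 3, .t 1064 2 4, .f 1073 3 1, .t 1200 4 2] 150 136 [4, 4,
  1] [(133, 134, [4]), (150, 136, [4, 4, 1])])) (.con 136 [4, 2, 4, 4, 1, 3]) (.red [.f 929 5 3,
  .f 929 3 1, .f 936 1 5, .t 1200 4 2] 150 136 [4, 4, 1] [(133, 134, [4]), (150, 136, [4, 4,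
  1])])) .no .no) (.hor [.f 809 5 3, .f 808 3 5, .f 810 3 5] []) .no) .no) .no) (.br 937 .no (.use
  395) .no (.br 938 .no (.con 136 [4, 2, 4, 4]) .no (.hor [.f 929 3 5] []) (.use 405) .no) (.red
  [.f 946 5 1, .f 937 5 1, .f 938 1 3] 134 136 [4, 4] [(134, 136, [4, 4])]) .no) .no) .no .no (.br
  937 (.use 394) (.use 395) .no (.hor [.f 928 3 5] []) (.br 1064 (.con 136 [4, 4, 1, 1]) .no .no
  (.red [.f 928 3 1] 133 136 [4, 4, 4] [(133, 136, [4, 4, 4])]) (.br 1200 (.con 136 [4, 4, 1, 1])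
  .no .no (.red [.t 1200 4 2] 150 136 [4, 4, 1] [(150, 136, [4, 4, 1])]) .no .no) .no) .no) (.red
  [.f 936 5 3, .f 808 3 1, .f 816 1 3] 119 136 [4, 2] [(118, 136, [4, 2, 4]), (119, 136, [4, 2])])
  .no) .no .no

def c11t407 : Tr4 :=
  .br 1074 .no .no .no (.hor [.f 1065 3 5] []) (.br 937 .no (.br 938 (.red [.f 946 5 1, .f 938 1
  3, .t 937 2 3] 118 136 [4, 2, 4] [(118, 136, [4, 2, 4]), (134, 136, [4, 4])]) (.hor [.f 809 1 5]
  []) .no (.br 936 (.red [.t 1064 2 3] 134 136 [4, 4] [(134, 136, [4, 4])]) (.hor [.f 808 1 5] [])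
  .no (.br 816 .no (.br 808 .no (.red [.f 680 1 3] 102 136 [4, 2, 4, 2] [(102, 136, [4, 2, 4,
  2])]) .no (.red [.f 800 3 1, .f 808 1 5, .f 936 5 3, .f 937 3 1] 134 136 [4, 4] [(117, 118,
  [4]), (134, 136, [4, 4])]) .no .no) .no (.red [.t 808 3 1, .f 816 1 3] 119 136 [4, 2] [(118,
  136, [4, 2, 4]), (119, 136, [4, 2])]) .no .no) .no .no) (.red [.f 938 5 3, .t 937 2 3] 118 136
  [4, 2, 4] [(118, 136, [4, 2, 4])]) .no) .no (.br 936 (.red [.t 1064 2 3] 134 136 [4, 4] [(134,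
  136, [4, 4])]) (.br 938 (.red [.f 946 5 1, .f 938 1 3] 134 136 [4, 4] [(134, 136, [4, 4])])
  (.con 136 [4, 2, 4, 4]) .no (.hor [.f 929 3 5] []) (.con 136 [4, 2, 4, 4]) .no) .no (.hor [.f
  928 3 5] []) .no .no) (.red [.f 946 5 1, .t 1073 4 2] 134 136 [4, 4] [(134, 136, [4, 4])]) (.red
  [.f 936 5 3, .f 937 3 1] 134 136 [4, 4] [(134, 136, [4, 4])])) .no

def c11l15 : List Tr4 :=
  [c11t386, c11t387, c11t388, c11t389, c11t390, c11t391, c11t392, c11t393, c11t394, c11t395,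
  c11t396, c11t397, c11t398, c11t399, c11t400, c11t401, c11t402, c11t403, c11t404, c11t405,
  c11t406, c11t407]

theorem c11k15 : chkLF ⟨4, 1, 0, true, -8⟩ true 0 c11N 386 c11l15 = true := by decide +kernel

def c11t408 : Tr4 :=
  .br 938 (.use 397) (.con 136 [4, 2, 4, 4]) .no (.hor [.f 929 3 5] []) (.use 405) .no

def c11t409 : Tr4 :=
  .br 810 .no (.br 690 .no (.br 691 .no (.hor [.f 562 1 5] []) .no (.red [.f 683 3 1] 102 136 [2,
  2, 4, 4] [(102, 136, [2, 2, 4, 4])]) .no .no) .no .no (.red [.t 810 2 3] 102 136 [2, 2, 4, 4]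
  [(102, 136, [2, 2, 4, 4])]) (.red [.f 689 5 1, .f 689 1 3] 103 136 [2, 2, 4] [(103, 136, [2, 2,
  4])])) .no (.hor [.f 801 3 5] []) .no .no

def c11t410 : Tr4 :=
  .br 688 .no (.con 136 [2, 2, 4, 2]) (.br 689 .no (.con 136 [2, 2, 4, 2, 4]) .no (.hor [.f 681 3
  5] []) .no .no) (.con 136 [2, 2, 4, 2]) (.con 136 [2, 2, 4, 2]) .no

def c11t411 : Tr4 :=
  .br 690 .no (.red [.f 562 1 3] 87 136 [2, 2, 2, 4] [(87, 136, [2, 2, 2, 4])]) .no (.br 832 .no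
  (.use 410) .no .no .no .no) .no (.red [.f 689 5 1, .f 689 1 3] 103 136 [2, 2, 4] [(103, 136, [2,
  2, 4])])

def c11t412 : Tr4 :=
  .br 691 .no (.br 690 .no (.hor [.f 562 1 5] []) .no (.br 689 .no (.con 136 [2, 2, 4, 4, 2]) .no
  (.hor [.f 681 3 5] []) .no (.con 136 [2, 2, 4, 2, 4])) .no (.red [.f 689 5 1, .f 689 1 3] 103
  136 [2, 2, 4] [(103, 136, [2, 2, 4])])) .no (.red [.f 683 3 1] 102 136 [2, 2, 4, 4] [(102, 136,
  [2, 2, 4, 4])]) .no (.red [.f 690 5 3, .t 697 1 4] 103 136 [2, 2, 4] [(103, 136, [2, 2, 4])])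

def c11t413 : Tr4 :=
  .br 809 .no (.use 390) .no (.br 698 .no (.br 699 .no (.hor [.f 570 1 5] []) (.use 409) (.use
  411) .no .no) .no (.red [.t 697 1 4] 103 136 [2, 2, 4] [(103, 136, [2, 2, 4])]) (.use 412) .no)
  (.hor [.f 809 5 3, .f 808 3 5, .f 810 3 5] []) .no

def c11t414 : Tr4 :=
  .br 699 .no (.br 698 .no (.hor [.f 570 1 5] []) (.con 136 [2, 2, 2]) (.red [.t 697 1 4, .f 690 1
  5] 103 136 [2, 2, 4] [(103, 136, [2, 2, 4])]) .no .no) (.red [.f 826 5 3, .f 699 3 1, .f 691 1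
  3] 103 136 [2, 2, 4] [(103, 136, [2, 2, 4]), (104, 136, [2, 2])]) .no .no (.red [.f 698 5 1, .f
  691 1 3] 103 136 [2, 2, 4] [(103, 136, [2, 2, 4])])

def c11t415 : Tr4 :=
  .br 809 .no (.use 390) .no (.use 409) (.hor [.f 809 5 3, .f 808 3 5, .f 810 3 5] []) .no

def c11t416 : Tr4 :=
  .br 816 .no (.con 136 [2, 2, 4, 2]) .no (.use 411) .no .no

def c11t417 : Tr4 :=
  .br 699 .no (.con 136 [2, 2, 2]) (.hor [.f 698 3 5] []) (.con 136 [2, 2, 2]) .no .no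

def c11t418 : Tr4 :=
  .br 946 (.use 361) (.red [.f 826 5 3, .t 833 1 4, .f 818 1 3] 119 136 [2, 4] [(119, 136, [2,
  4]), (120, 136, [2])]) .no (.br 947 (.br 1073 (.use 354) .no .no (.use 363) (.br 818 .no (.use
  366) .no (.red [.f 810 3 1] 118 136 [2, 4, 4] [(118, 136, [2, 4, 4])]) (.use 378) (.br 937 (.use
  379) (.red [.t 937 2 3] 118 136 [2, 4, 4] [(118, 136, [2, 4, 4])]) .no (.br 819 .no (.use 414)
  .no (.use 380) .no .no) .no (.red [.f 936 5 3, .f 937 3 5, .f 945 5 3, .t 946 3 1] 135 136 [4]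
  [(135, 136, [4])]))) .no) (.con 136 [2, 4, 4]) .no (.hor [.f 938 3 5] []) .no .no) (.br 817 .no
  (.red [.f 689 1 3] 103 136 [2, 2, 4] [(103, 136, [2, 2, 4])]) .no (.br 818 .no (.use 365) .no
  (.hor [.f 809 3 5] []) (.use 377) .no) (.br 1073 (.br 1075 (.con 136 [4, 1, 4]) .no .no (.use
  356) .no (.br 1203 (.red [.f 1203 1 3, .f 1202 3 5] 167 136 [4, 1, 1] [(167, 136, [4, 1, 1])])
  .no .no (.br 819 .no (.use 414) .no (.use 406) .no .no) .no .no)) .no .no (.use 407) (.br 1075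
  (.br 819 .no (.use 414) .no (.br 698 .no (.br 699 .no (.hor [.f 570 1 5] []) (.br 816 .no (.con
  136 [2, 2, 4, 4]) .no (.br 937 (.use 396) (.use 395) .no (.use 408) (.use 415) (.red [.f 936 5
  3, .f 808 3 1, .f 816 1 3] 119 136 [2, 4] [(118, 136, [2, 4, 4]), (119, 136, [2, 4])])) .no .no)
  (.use 416) .no .no) (.use 417) (.red [.t 697 1 4] 103 136 [2, 2, 4] [(103, 136, [2, 2, 4])])
  (.use 412) .no) .no .no) .no .no (.br 939 .no (.br 819 .no (.use 414) .no .no .no .no) .no (.br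
  938 (.red [.t 1066 2 3] 134 136 [4, 4] [(134, 136, [4, 4])]) (.br 937 (.con 136 [2, 4, 4, 4])
  (.hor [.f 809 1 5] []) .no (.con 136 [2, 4, 4, 4]) .no (.con 136 [2, 4, 4, 4])) .no (.hor [.f
  930 3 5] []) .no (.br 819 .no (.use 414) .no (.br 698 .no (.br 699 .no (.hor [.f 570 1 5] [])
  (.br 816 .no (.con 136 [2, 2, 4, 4]) .no (.use 415) .no .no) (.use 416) .no .no) (.use 417)
  (.red [.t 697 1 4] 103 136 [2, 2, 4] [(103, 136, [2, 2, 4])]) (.use 412) .no) .no .no)) .no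
  (.red [.f 938 5 3, .f 939 3 1] 134 136 [4, 4] [(134, 136, [4, 4])])) .no .no) .no) (.red [.f 816
  5 1, .f 816 1 3] 119 136 [2, 4] [(119, 136, [2, 4])])) .no

def c11t419 : Tr4 :=
  .br 826 .no (.hor [.f 697 1 5] []) (.br 946 (.use 361) (.red [.t 833 1 4, .f 818 1 3] 119 136
  [2, 4] [(119, 136, [2, 4]), (120, 136, [2])]) .no (.use 389) (.br 827 .no (.br 819 .no (.red [.f
  691 1 3] 103 136 [2, 2, 4] [(103, 136, [2, 2, 4])]) .no (.br 817 .no (.red [.f 689 1 3] 103 136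
  [2, 2, 4] [(103, 136, [2, 2, 4])]) .no (.br 818 .no (.con 136 [2, 2, 4, 4]) .no (.hor [.f 809 3
  5] []) .no .no) (.use 399) (.red [.f 816 5 1, .f 816 1 3] 119 136 [2, 4] [(119, 136, [2, 4])]))
  .no (.use 378)) (.hor [.f 826 3 5] []) (.red [.t 833 1 4, .t 826 1 4] 119 136 [2, 4] [(119, 136,
  [2, 4]), (120, 136, [2])]) .no .no) .no) (.use 357) (.br 968 .no (.br 834 .no (.br 817 .no (.red
  [.f 689 1 3] 103 136 [2, 2, 4] [(103, 136, [2, 2, 4])]) .no (.use 403) (.br 946 (.use 361) .no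
  .no (.br 947 (.br 1073 (.use 354) .no .no (.use 363) (.br 937 (.use 379) (.red [.t 937 2 3] 118
  136 [2, 4, 4] [(118, 136, [2, 4, 4])]) .no (.use 404) .no (.red [.f 936 5 3, .f 937 3 5, .f 945
  5 3, .t 946 3 1] 135 136 [4] [(135, 136, [4])])) .no) (.con 136 [2, 4, 4]) .no (.hor [.f 938 3
  5] []) .no .no) (.br 1073 (.br 1075 (.con 136 [4, 1, 4]) .no .no (.use 356) .no (.br 1203 (.red
  [.f 1203 1 3, .f 1202 3 5] 167 136 [4, 1, 1] [(167, 136, [4, 1, 1])]) .no .no (.br 819 .no (.use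
  402) .no (.use 406) .no .no) .no .no)) .no .no (.use 407) (.br 1075 (.br 819 .no (.use 402) .no
  (.br 816 .no (.con 136 [2, 2, 4, 4]) .no (.br 937 (.use 396) (.use 395) .no (.use 408) (.use
  413) (.red [.f 936 5 3, .f 808 3 1, .f 816 1 3] 119 136 [2, 4] [(118, 136, [2, 4, 4]), (119,
  136, [2, 4])])) .no .no) .no .no) .no .no (.br 819 .no (.use 402) .no (.br 939 .no .no .no (.br
  938 (.red [.t 1066 2 3] 134 136 [4, 4] [(134, 136, [4, 4])]) (.use 398) .no (.hor [.f 930 3 5]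
  []) .no (.br 816 .no (.con 136 [2, 2, 4, 4]) .no (.use 413) .no .no)) .no (.red [.f 938 5 3, .f
  939 3 1] 134 136 [4, 4] [(134, 136, [4, 4])])) .no .no) .no .no) .no) .no) (.red [.f 816 5 1, .f
  816 1 3] 119 136 [2, 4] [(119, 136, [2, 4])])) (.hor [.f 834 3 1, .f 833 1 5] [(121, 120, [3])])
  .no (.use 418) .no) (.hor [.f 968 3 5] []) .no .no .no) .no

def c11t420 : Tr4 :=
  .br 818 .no (.use 365) .no (.hor [.f 809 3 5] []) (.use 377) .no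

def c11t421 : Tr4 :=
  .br 946 (.use 361) (.red [.f 825 5 1, .f 818 1 3] 119 136 [2, 4] [(119, 136, [2, 4])]) .no (.br
  947 (.br 834 .no (.br 817 .no (.br 818 .no (.hor [.f 689 1 5] []) .no (.red [.f 810 3 1] 118 136
  [2, 4, 4] [(118, 136, [2, 4, 4])]) (.br 698 .no (.br 697 .no (.hor [.f 569 1 5] []) (.red [.t
  705 4 1, .f 689 1 3] 103 136 [2, 4, 2] [(103, 136, [2, 4, 2]), (104, 136, [2, 2])]) .no .no (.br
  939 (.red [.f 939 1 3, .f 938 3 5, .f 818 5 1, .f 825 5 1, .f 818 1 3] 119 136 [2, 4] [(119,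
  136, [2, 4]), (134, 118, [1])]) (.red [.t 938 3 2, .f 825 5 1, .f 818 1 3] 119 136 [2, 4] [(118,
  136, [2, 4, 4]), (119, 136, [2, 4])]) .no (.br 699 (.br 811 .no (.br 690 .no (.red [.f 562 1 3]
  87 136 [2, 2, 2, 4] [(87, 136, [2, 2, 2, 4])]) .no (.red [.t 682 3 1, .f 689 1 5, .f 817 5 3, .t
  824 1 4] 119 136 [2, 4] [(102, 86, [1]), (119, 136, [2, 4])]) (.red [.f 690 5 1, .f 691 1 3] 103
  136 [2, 2, 4] [(103, 136, [2, 2, 4])]) .no) .no (.red [.f 803 3 1, .t 938 3 2] 118 136 [2, 4, 4]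
  [(117, 136, [2, 4, 4, 4]), (118, 136, [2, 4, 4])]) .no (.red [.f 810 5 3, .f 810 3 1] 118 136
  [2, 4, 4] [(118, 136, [2, 4, 4])])) (.con 136 [2, 4, 2, 3]) (.con 136 [2, 4, 2, 3]) (.con 136
  [2, 4, 2, 2]) .no .no) .no .no)) .no (.red [.t 689 1 3, .f 698 1 3] 103 136 [2, 4, 2] [(103,
  136, [2, 4, 2]), (104, 136, [2, 2])]) (.con 136 [2, 4, 2, 3]) (.red [.f 697 5 1, .f 689 1 3] 103
  136 [2, 4, 2] [(103, 136, [2, 4, 2])])) .no) .no (.use 420) (.red [.f 817 5 3, .t 824 1 4] 119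
  136 [2, 4] [(119, 136, [2, 4])]) (.red [.f 816 5 1, .f 816 1 3] 119 136 [2, 4] [(119, 136, [2,
  4])])) (.hor [.f 834 3 1, .f 833 1 5] [(121, 137, [2])]) .no (.br 817 .no (.br 818 .no (.hor [.f
  689 1 5] []) .no (.red [.f 810 3 1] 118 136 [2, 4, 4] [(118, 136, [2, 4, 4])]) (.br 939 (.red
  [.f 939 1 3, .f 938 3 5, .f 818 5 1, .f 825 5 1, .f 818 1 3] 119 136 [2, 4] [(119, 136, [2, 4]),
  (134, 118, [1])]) (.red [.t 938 3 2, .f 825 5 1, .f 818 1 3] 119 136 [2, 4] [(118, 136, [2, 4,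
  4]), (119, 136, [2, 4])]) .no (.br 827 .no (.br 811 .no (.br 690 .no (.br 698 .no (.red [.f 562
  1 3, .t 698 4 1, .f 689 1 5] 103 136 [2, 2, 4] [(87, 136, [2, 2, 4, 2]), (103, 136, [2, 2, 4])])
  (.br 697 .no (.con 136 [2, 2, 2]) (.hor [.f 697 3 5] []) .no .no (.con 136 [2, 2, 2])) .no .no
  (.red [.f 697 5 1, .f 689 1 3] 103 136 [2, 2, 4] [(103, 136, [2, 2, 4])])) (.red [.t 698 4 1, .f
  689 1 5] 103 136 [2, 2, 4] [(103, 136, [2, 2, 4])]) (.red [.t 682 3 1, .f 689 1 5, .f 817 5 3,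
  .t 824 1 4] 119 136 [2, 4] [(102, 86, [1]), (119, 136, [2, 4])]) (.red [.f 690 5 1, .f 691 1 3]
  103 136 [2, 2, 4] [(103, 136, [2, 2, 4])]) .no) .no (.red [.f 803 3 1, .t 938 3 2] 118 136 [2,
  4, 4] [(117, 136, [2, 4, 4, 4]), (118, 136, [2, 4, 4])]) .no (.red [.f 810 5 3, .f 810 3 1] 118
  136 [2, 4, 4] [(118, 136, [2, 4, 4])])) .no .no .no .no) .no .no) .no) .no (.use 420) (.red [.f
  817 5 3, .t 824 1 4] 119 136 [2, 4] [(119, 136, [2, 4])]) (.red [.f 816 5 1, .f 816 1 3] 119 136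
  [2, 4] [(119, 136, [2, 4])])) .no) (.con 136 [2, 4, 4]) .no (.hor [.f 938 3 5] []) .no .no) (.br
  827 .no (.br 819 .no (.red [.f 691 1 3] 103 136 [2, 2, 4] [(103, 136, [2, 2, 4])]) .no (.br 817
  .no (.br 818 .no (.hor [.f 689 1 5] []) .no (.hor [.f 810 3 5] []) .no .no) .no (.use 400) (.red
  [.f 817 5 3, .t 824 1 4] 119 136 [2, 4] [(119, 136, [2, 4])]) (.red [.f 816 5 1, .f 816 1 3] 119
  136 [2, 4] [(119, 136, [2, 4])])) .no (.red [.f 825 5 1, .f 818 5 1, .f 818 1 3] 119 136 [2, 4]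
  [(119, 136, [2, 4])])) (.con 136 [2, 2]) (.red [.f 825 5 1, .t 826 1 4] 119 136 [2, 4] [(119,
  136, [2, 4])]) .no .no) .no

def c11t422 : Tr4 :=
  .br 1209 (.con 136 [1, 4, 1]) .no (.con 136 [1, 4, 1]) (.hor [.f 1201 3 5] []) .no (.con 136 [1,
  4, 1])

def c11t423 : Tr4 :=
  .br 1208 (.use 300) .no (.red [.t 1225 4 2, .t 1216 4 2] 152 136 [1] [(152, 136, [1]), (153,
  136, [3, 1])]) (.con 136 [4, 1, 1]) .no .no

def c11t424 : Tr4 :=
  .br 946 (.con 136 [4, 4]) (.hor [.f 817 1 5] []) .no (.con 136 [4, 2, 4]) (.con 136 [4, 4]) .no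

def c11t425 : Tr4 :=
  .br 1064 (.br 1066 (.con 136 [4, 4, 4, 1]) (.red [.t 937 3 1, .f 944 1 5] 134 136 [4, 4] [(134,
  136, [4, 4])]) .no (.hor [.f 1057 3 5] []) (.con 136 [4, 4, 4, 1]) .no) (.red [.f 936 1 3, .f
  936 3 5] 134 136 [4, 4] [(134, 136, [4, 4])]) .no (.hor [.f 1056 3 5] []) .no .no

def c11t426 : Tr4 :=
  .br 816 .no (.con 136 [2, 4, 2, 4]) .no (.hor [.f 808 3 5] []) .no .no

def c11t427 : Tr4 :=
  .br 1344 (.hor [.f 1344 1 5] []) .no (.red [.t 1352 4 2, .f 1208 1 3] 168 136 [1, 1] [(168, 136,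
  [1, 1]), (169, 136, [1, 3, 1])]) .no .no .no

def c11t428 : Tr4 :=
  .br 1345 (.use 427) .no .no .no .no (.red [.f 1216 5 1, .f 1208 1 3] 168 136 [1, 1] [(168, 136,
  [1, 1])])

def c11t429 : Tr4 :=
  .br 1208 (.br 1337 (.br 1225 (.br 1345 (.red [.f 1337 1 3] 184 136 [1, 1, 1] [(184, 136, [1, 1,
  1])]) .no .no .no .no (.red [.f 1216 5 1, .f 1208 1 3] 168 136 [1, 1] [(168, 136, [1, 1])])) .no
  (.use 160) .no .no .no) .no (.red [.t 1345 4 2, .t 1218 4 2] 152 136 [1] [(152, 136, [1]), (168,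
  136, [1, 1])]) (.br 1225 (.use 428) .no (.use 160) .no .no .no) (.red [.f 1209 5 1, .f 1210 1 3,
  .t 1218 4 2] 152 136 [1] [(152, 136, [1]), (168, 136, [1, 1])]) .no) .no .no (.con 136 [4, 1,
  1]) .no .no

def c11t430 : Tr4 :=
  .br 1106 (.hor [.t 1105 4 1, .f 1096 1 5] [(154, 138, [1])]) (.use 163) (.br 1104 (.hor [.f 1096
  1 3, .f 1096 3 5] [(154, 138, [1])]) (.hor [.f 969 3 1, .f 976 1 5] [(138, 136, [3, 3])]) (.br
  978 .no .no (.hor [.f 978 3 1, .f 969 3 1, .f 977 1 5] [(138, 136, [3, 3]), (139, 136, [3, 3,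
  3])]) .no (.con 136 [3, 3, 2, 4, 1]) .no) .no .no .no) .no (.red [.f 1098 5 3, .f 1097 3 5, .f
  1089 5 3, .f 962 3 1, .t 962 1 4] 136 136 [] [(136, 136, []), (137, 136, [3])]) .no

def c11t431 : Tr4 :=
  .br 842 .no (.hor [.f 706 1 3, .f 834 3 1, .f 833 1 5] [(105, 104, [3]), (121, 120, [3])]) (.br
  1225 .no .no (.hor [.f 1097 3 1, .f 1096 1 5] [(154, 138, [1])]) .no (.use 430) .no) .no .no
  (.red [.t 961 2 3, .f 961 5 1, .t 962 1 4, .t 842 1 4] 136 136 [] [(136, 136, [])])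

def c11t432 : Tr4 :=
  .br 842 .no (.hor [.f 706 1 3, .f 834 3 1, .f 833 1 5] [(105, 104, [3]), (121, 137, [2])]) (.use
  430) .no .no (.red [.t 961 2 3, .f 961 5 1, .t 962 1 4, .t 842 1 4] 136 136 [] [(136, 136, [])])

def c11t433 : Tr4 :=
  .br 1225 (.use 428) .no (.hor [.f 1097 3 1, .f 1096 1 5] [(154, 138, [1])]) .no (.use 432) .no

def c11l16 : List Tr4 :=
  [c11t408, c11t409, c11t410, c11t411, c11t412, c11t413, c11t414, c11t415, c11t416, c11t417,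
  c11t418, c11t419, c11t420, c11t421, c11t422, c11t423, c11t424, c11t425, c11t426, c11t427,
  c11t428, c11t429, c11t430, c11t431, c11t432, c11t433]

theorem c11k16 : chkLF ⟨4, 1, 0, true, -8⟩ true 0 c11N 408 c11l16 = true := by decide +kernel

def c11t434 : Tr4 :=
  .br 968 .no (.br 1098 (.br 1217 (.hor [.f 1217 1 5] []) .no (.use 423) .no .no (.use 429)) .no
  (.hor [.f 1097 3 5] []) .no (.br 1217 (.hor [.f 1217 1 5] []) .no (.use 161) .no .no (.br 1208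
  (.br 1337 (.br 1345 (.red [.f 1337 1 3] 184 136 [1, 1, 1] [(184, 136, [1, 1, 1])]) .no (.use
  431) .no .no (.red [.f 1216 5 1, .f 1208 1 3] 168 136 [1, 1] [(168, 136, [1, 1])])) .no (.red
  [.t 1345 4 2, .t 1218 4 2] 152 136 [1] [(152, 136, [1]), (168, 136, [1, 1])]) (.use 433) (.red
  [.f 1209 5 1, .f 1210 1 3, .t 1218 4 2] 152 136 [1] [(152, 136, [1]), (168, 136, [1, 1])]) .no)
  .no .no (.con 136 [4, 1, 1]) .no .no)) .no) (.hor [.f 968 3 5] []) .no .no .no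

def c11t435 : Tr4 :=
  .br 1217 (.con 136 [1, 3, 1]) .no (.hor [.f 1217 3 5] []) .no .no (.con 136 [1, 3, 1])

def c11t436 : Tr4 :=
  .br 1217 (.con 136 [1, 3, 1]) .no (.hor [.f 1217 3 5] []) (.con 136 [1, 3, 1]) .no (.con 136 [1,
  3, 1])

def c11t437 : Tr4 :=
  .br 1218 (.red [.f 1210 1 3, .t 1218 4 2] 152 136 [1] [(152, 136, [1]), (168, 136, [1, 1])]) .no
  (.use 436) .no .no (.br 1209 (.hor [.f 1209 1 5] []) .no .no (.br 1208 (.br 1216 (.red [.f 1089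
  5 1, .f 1208 1 3] 168 136 [1, 1] [(168, 136, [1, 1])]) .no .no .no .no .no) .no (.red [.f 1089 5
  1, .t 1216 4 2] 152 136 [1] [(152, 136, [1])]) (.hor [.f 1200 3 5] []) .no .no) .no (.red [.f
  1089 5 1, .f 1080 5 1, .f 1081 1 3] 152 136 [1] [(152, 136, [1])]))

def c11t438 : Tr4 :=
  .br 1099 (.hor [.f 969 3 1, .t 969 1 4, .f 1089 3 1, .f 1096 1 5] [(137, 136, [3]), (138, 136,
  [3, 3]), (153, 136, [3, 1])]) (.hor [.t 1225 4 2, .f 962 3 1, .f 970 1 5] [(137, 136, [3]),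
  (153, 136, [3, 1])]) (.hor [.f 969 3 1, .t 969 1 4, .f 1089 3 1, .f 1096 1 5] [(137, 136, [3]),
  (138, 136, [3, 3]), (153, 136, [3, 1])]) .no .no .no

def c11t439 : Tr4 :=
  .br 944 (.hor [.f 944 1 5] []) (.red [.f 816 1 3] 119 136 [2, 4] [(119, 136, [2, 4])]) .no (.use
  350) .no .no

def c11t440 : Tr4 :=
  .br 817 (.hor [.f 817 1 5] []) (.red [.f 689 1 3] 103 136 [2, 2, 4] [(103, 136, [2, 2, 4])]) .no
  (.br 945 (.use 439) .no .no (.red [.f 809 3 1, .f 817 1 5, .f 945 5 3, .t 946 3 1] 135 136 [4]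
  [(118, 119, [4]), (135, 136, [4])]) .no (.use 401)) .no (.br 945 (.use 439) .no .no (.br 944
  (.br 1073 (.con 136 [4, 4, 1]) .no .no (.hor [.f 1065 3 5] []) .no .no) .no .no (.hor [.f 936 3
  5] []) .no .no) .no (.red [.f 816 5 1, .f 816 1 3] 119 136 [2, 4] [(119, 136, [2, 4])]))

def c11t441 : Tr4 :=
  .br 1345 (.use 427) .no .no (.red [.t 1345 4 2, .t 1218 4 2] 152 136 [1] [(152, 136, [1]), (168,
  136, [1, 1])]) .no (.red [.f 1216 5 1, .f 1208 1 3] 168 136 [1, 1] [(168, 136, [1, 1])])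

def c11t442 : Tr4 :=
  .br 1336 (.hor [.f 1336 1 5] []) .no (.br 1345 (.red [.f 1337 1 3, .f 1336 3 5] 184 136 [1, 1,
  1] [(184, 136, [1, 1, 1])]) .no .no .no .no .no) (.red [.f 1200 3 1] 167 136 [1, 4, 1] [(167,
  136, [1, 4, 1])]) .no .no

def c11t443 : Tr4 :=
  .br 1201 (.red [.t 1200 3 1] 167 136 [4, 1, 1] [(167, 136, [4, 1, 1])]) .no .no .no .no .no

def c11t444 : Tr4 :=
  .br 1337 (.use 442) .no (.red [.t 1345 4 2, .t 1218 4 2] 152 136 [1] [(152, 136, [1]), (168,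
  136, [1, 1])]) (.con 136 [4, 1, 1, 4]) (.red [.f 1209 5 1, .f 1210 1 3, .t 1218 4 2] 152 136 [1]
  [(152, 136, [1]), (168, 136, [1, 1])]) (.use 443)

def c11t445 : Tr4 :=
  .br 1208 (.use 441) .no .no (.use 444) .no .no

def c11t446 : Tr4 :=
  .br 944 (.br 1065 (.br 1202 (.br 968 .no (.br 1098 (.br 1217 (.hor [.f 1217 1 5] []) .no (.use
  438) .no .no (.br 1225 (.use 445) .no (.use 160) .no .no .no)) .no (.hor [.f 1097 3 5] []) .no
  (.br 1217 (.hor [.f 1217 1 5] []) .no (.use 161) .no .no (.br 1225 (.use 445) .no (.hor [.f 1097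
  3 1, .f 1096 1 5] [(154, 138, [1])]) .no (.use 432) .no)) .no) (.hor [.f 968 3 5] []) .no .no
  .no) .no .no (.red [.t 1193 2 3, .t 1202 2 3] 151 136 [4, 1] [(150, 136, [4, 1, 4]), (151, 136,
  [4, 1])]) .no (.red [.f 1073 5 1, .f 1065 1 3] 150 136 [4, 1, 4] [(150, 136, [4, 1, 4])])) .no
  .no (.use 425) (.red [.f 1065 5 3, .f 937 3 1] 134 136 [4, 4] [(134, 136, [4, 4])]) (.red [.t
  944 1 4] 134 136 [4, 4] [(134, 136, [4, 4])])) (.red [.f 816 1 3] 119 136 [2, 4] [(119, 136, [2,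
  4])]) .no (.hor [.f 936 3 5] []) .no .no

def c11t447 : Tr4 :=
  .br 817 .no (.red [.f 689 1 3] 103 136 [2, 2, 4] [(103, 136, [2, 2, 4])]) .no (.use 401) .no
  (.red [.f 816 5 1, .f 816 1 3] 119 136 [2, 4] [(119, 136, [2, 4])])

def c11t448 : Tr4 :=
  .br 945 (.red [.f 938 3 1, .f 946 1 5, .f 1074 5 3, .f 1075 3 1] 151 136 [4, 1] [(134, 118,
  [1]), (151, 136, [4, 1])]) (.red [.f 938 3 1, .f 946 1 5, .f 1074 5 3, .f 1075 3 1] 151 136 [4,
  1] [(134, 118, [1]), (151, 136, [4, 1])]) .no (.hor [.f 937 3 5] []) .no (.red [.f 938 3 1, .f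
  946 1 5, .f 1074 5 3, .f 1075 3 1] 151 136 [4, 1] [(134, 118, [1]), (151, 136, [4, 1])])

def c11t449 : Tr4 :=
  .br 944 (.con 136 [4, 2, 4]) (.hor [.f 816 1 5] []) .no (.con 136 [4, 2, 4]) .no .no

def c11t450 : Tr4 :=
  .br 825 .no (.br 826 .no (.hor [.f 697 1 5] []) .no (.use 357) (.br 817 .no (.red [.f 689 1 3]
  103 136 [2, 2, 4] [(103, 136, [2, 2, 4])]) .no (.use 403) (.br 937 (.red [.t 937 1 3, .f 946 1
  5, .f 1074 5 3, .f 1075 3 1] 151 136 [4, 1] [(134, 118, [1]), (151, 136, [4, 1])]) (.red [.t 937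
  2 3] 118 136 [2, 4, 4] [(118, 136, [2, 4, 4])]) .no (.use 404) .no (.red [.f 936 5 3, .f 937 3
  5, .f 945 5 3, .t 946 3 1] 135 136 [4] [(135, 136, [4])])) (.red [.f 816 5 1, .f 816 1 3] 119
  136 [2, 4] [(119, 136, [2, 4])])) .no) .no (.red [.t 824 1 4] 119 136 [2, 4] [(119, 136, [2,
  4])]) (.red [.f 825 5 1, .f 825 1 3, .t 960 1 4] 136 136 [] [(120, 136, [2]), (136, 136, [])])
  .no

def c11t451 : Tr4 :=
  .br 945 (.hor [.f 945 1 5] []) (.con 136 [4, 4]) .no (.con 136 [4, 4]) .no (.con 136 [4, 4])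

def c11t452 : Tr4 :=
  .br 1201 (.red [.t 1200 3 1] 167 136 [4, 1, 1] [(167, 136, [4, 1, 1])]) .no .no (.con 136 [4, 1,
  4, 1]) .no .no

def c11t453 : Tr4 :=
  .br 1337 (.use 442) .no (.red [.t 1345 4 2, .t 1218 4 2] 152 136 [1] [(152, 136, [1]), (168,
  136, [1, 1])]) (.con 136 [4, 1, 1, 4]) (.red [.f 1209 5 1, .f 1210 1 3, .t 1218 4 2] 152 136 [1]
  [(152, 136, [1]), (168, 136, [1, 1])]) (.use 452)

def c11t454 : Tr4 :=
  .br 1066 .no (.red [.t 1066 2 3] 134 136 [4, 4] [(134, 136, [4, 4])]) .no (.br 1065 (.red [.t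
  1193 2 3, .t 1202 2 3] 151 136 [4, 1] [(150, 136, [4, 1, 4]), (151, 136, [4, 1])]) (.con 136 [4,
  1, 4, 4, 2]) .no (.hor [.f 1057 3 5] []) .no (.con 136 [4, 1, 4, 2])) .no (.red [.f 1065 5 3, .f
  1066 3 1] 150 136 [4, 1, 4] [(150, 136, [4, 1, 4])])

def c11t455 : Tr4 :=
  .br 1208 (.use 441) .no .no (.br 1202 (.use 453) .no .no (.use 454) .no (.hor [.f 1201 5 3, .f
  1200 3 5, .f 1202 3 5] [])) .no .no

def c11t456 : Tr4 :=
  .br 1075 .no (.br 946 (.hor [.f 946 1 5] []) (.br 825 .no (.br 826 .no (.hor [.f 697 1 5] [])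
  .no .no (.br 1074 (.red [.t 1202 2 3, .f 1083 1 3, .f 955 3 1] 136 136 [] [(136, 136, []), (151,
  136, [4, 1]), (152, 136, [1])]) .no .no (.use 440) .no (.br 945 .no (.hor [.f 817 1 5] []) .no
  (.use 446) .no (.use 447))) .no) .no (.red [.t 817 3 1, .f 824 1 5] 119 136 [2, 4] [(119, 136,
  [2, 4])]) (.red [.f 825 5 1, .f 825 1 3, .t 960 1 4] 136 136 [] [(120, 136, [2]), (136, 136,
  [])]) .no) .no (.br 1074 (.red [.t 1202 2 3, .f 1083 1 3, .f 955 3 1] 136 136 [] [(136, 136,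
  []), (151, 136, [4, 1]), (152, 136, [1])]) .no .no (.use 448) .no (.br 945 .no (.use 449) .no
  (.use 446) .no (.use 450))) .no (.red [.f 945 5 3, .t 946 3 1] 135 136 [4] [(135, 136, [4])]))
  .no (.br 1074 (.red [.t 1202 2 3, .f 1083 1 3, .f 955 3 1] 136 136 [] [(136, 136, []), (151,
  136, [4, 1]), (152, 136, [1])]) (.use 451) .no (.hor [.f 1066 3 5] []) .no (.br 944 (.con 136
  [4, 4]) (.red [.f 816 1 3] 119 136 [2, 4] [(119, 136, [2, 4])]) .no (.br 945 .no (.use 351) .no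
  (.use 446) (.use 352) .no) (.br 825 .no (.br 826 .no (.hor [.f 697 1 5] []) .no (.use 357) (.br
  817 .no (.red [.f 689 1 3] 103 136 [2, 2, 4] [(103, 136, [2, 2, 4])]) .no (.use 403) (.br 947
  .no (.con 136 [2, 4, 4]) .no (.red [.f 939 3 1] 134 136 [4, 4] [(134, 136, [4, 4])]) .no (.br
  1098 (.br 1217 (.hor [.f 1217 1 5] []) .no (.use 438) .no .no (.br 968 .no (.br 1225 (.use 455)
  .no (.use 160) .no .no .no) (.hor [.f 968 3 5] []) .no .no .no)) .no (.hor [.f 1097 3 5] []) .no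
  (.br 1217 (.hor [.f 1217 1 5] []) .no (.hor [.f 969 3 1, .t 969 1 4, .f 1089 3 1, .f 1096 1 5]
  [(137, 136, [3]), (138, 136, [3, 3]), (153, 136, [3, 1])]) .no .no (.br 968 .no (.br 1225 (.use
  455) .no (.hor [.f 1097 3 1, .f 1096 1 5] [(154, 138, [1])]) .no (.use 432) .no) (.hor [.f 968 3
  5] []) .no .no .no)) .no)) (.red [.f 816 5 1, .f 816 1 3] 119 136 [2, 4] [(119, 136, [2, 4])]))
  .no) .no (.red [.t 824 1 4] 119 136 [2, 4] [(119, 136, [2, 4])]) (.red [.f 825 5 1, .f 825 1 3,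
  .t 960 1 4] 136 136 [] [(120, 136, [2]), (136, 136, [])]) .no) .no)) .no (.red [.f 1074 5 3, .f
  1075 3 1, .f 1083 1 3] 152 136 [1] [(151, 136, [4, 1]), (152, 136, [1])])

def c11t457 : Tr4 :=
  .br 1211 (.use 422) .no .no (.hor [.f 1202 3 5] []) .no .no

def c11t458 : Tr4 :=
  .br 818 .no (.hor [.f 690 1 3, .f 817 3 5] [(103, 104, [4])]) .no (.red [.f 810 3 1, .t 817 3 1]
  119 136 [2, 4] [(118, 136, [2, 4, 4]), (119, 136, [2, 4])]) .no .no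

def c11t459 : Tr4 :=
  .br 827 .no (.hor [.f 698 1 5] []) .no (.use 458) .no .no

def c11t460 : Tr4 :=
  .br 1203 (.red [.f 1203 1 3] 167 136 [1, 4, 1] [(167, 136, [1, 4, 1])]) .no .no (.hor [.f 1067 3
  1, .f 1074 1 5] [(150, 151, [4])]) .no .no

def c11t461 : Tr4 :=
  .br 1211 (.br 1075 (.hor [.f 1074 1 5] []) .no .no (.use 460) .no .no) .no .no (.red [.t 1202 2
  3, .t 1073 2 3] 135 136 [4] [(135, 136, [4]), (151, 136, [4, 1])]) .no .no

def c11t462 : Tr4 :=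
  .br 1225 (.use 441) .no (.hor [.f 1097 3 1, .f 1097 1 5] [(154, 138, [1])]) .no .no .no

def c11t463 : Tr4 :=
  .br 1208 (.use 462) .no .no .no .no .no

def c11t464 : Tr4 :=
  .br 1217 (.hor [.f 1217 1 5] []) .no (.use 438) .no .no (.use 463)

def c11t465 : Tr4 :=
  .br 939 (.red [.t 1066 3 2, .f 945 1 5, .f 945 5 3, .f 817 3 1] 119 136 [4, 2] [(119, 136, [4,
  2]), (134, 118, [1])]) (.red [.t 810 3 1, .t 817 3 1, .f 825 1 3] 119 136 [4, 2] [(118, 136, [4,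
  2, 4]), (119, 136, [4, 2]), (120, 136, [2])]) .no (.br 938 .no .no .no (.hor [.f 930 3 5] [])
  .no (.red [.t 1073 2 4, .f 936 3 5, .t 824 1 4] 119 136 [4, 2] [(119, 136, [4, 2]), (134, 118,
  [1])])) .no (.red [.f 938 5 3, .f 810 3 1, .t 817 3 1, .f 825 1 3] 119 136 [4, 2] [(118, 136,
  [4, 2, 4]), (119, 136, [4, 2]), (120, 136, [2])])

def c11t466 : Tr4 :=
  .br 818 .no (.hor [.f 690 1 3, .f 817 3 5] [(103, 104, [4])]) .no (.use 465) .no .no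

def c11t467 : Tr4 :=
  .br 827 .no (.hor [.f 698 1 5] []) .no (.use 466) .no .no

def c11t468 : Tr4 :=
  .br 945 (.br 944 (.hor [.f 944 1 5] []) (.red [.f 816 1 3, .f 816 3 5] 119 136 [2, 4] [(119,
  136, [2, 4])]) .no (.br 946 (.hor [.f 945 1 5] []) (.red [.t 817 3 1, .f 824 1 5] 119 136 [2, 4]
  [(119, 136, [2, 4])]) .no (.use 459) (.br 1072 (.br 1074 (.use 461) .no .no (.use 467) (.red [.f
  1074 5 3, .t 1073 2 3] 135 136 [4] [(135, 136, [4])]) .no) .no .no (.red [.f 936 3 1, .f 944 1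
  5, .t 824 1 4] 119 136 [2, 4] [(119, 136, [2, 4]), (134, 118, [1])]) .no .no) .no) .no .no) .no
  .no (.br 944 (.br 946 (.con 136 [4, 4]) (.red [.t 817 3 1, .f 824 1 5] 119 136 [2, 4] [(119,
  136, [2, 4])]) .no (.use 459) (.con 136 [4, 4]) .no) (.red [.f 816 1 3, .f 816 3 5] 119 136 [2,
  4] [(119, 136, [2, 4])]) .no (.hor [.f 936 3 5] []) .no .no) (.red [.f 945 5 3, .f 817 3 1, .f
  825 1 3] 119 136 [2, 4] [(119, 136, [2, 4]), (120, 136, [2])]) (.red [.t 824 1 4] 119 136 [2, 4]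
  [(119, 136, [2, 4])])

def c11t469 : Tr4 :=
  .br 825 .no (.use 357) .no (.hor [.f 817 3 5] []) .no .no

def c11t470 : Tr4 :=
  .br 827 .no (.hor [.f 698 1 5] []) .no (.use 458) .no .no

def c11t471 : Tr4 :=
  .br 827 .no (.hor [.f 698 1 5] []) .no (.use 466) .no .no

def c11t472 : Tr4 :=
  .br 834 .no (.br 835 .no (.hor [.f 706 1 5] []) (.br 945 (.br 944 (.hor [.f 944 1 5] []) (.red
  [.f 816 1 3, .f 816 3 5] 119 136 [2, 4] [(119, 136, [2, 4])]) .no (.br 946 (.hor [.f 945 1 5]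
  []) (.red [.t 817 3 1, .f 824 1 5] 119 136 [2, 4] [(119, 136, [2, 4])]) .no (.use 470) (.br 1072
  (.br 1074 (.use 461) .no .no (.use 471) (.red [.f 1074 5 3, .t 1073 2 3] 135 136 [4] [(135, 136,
  [4])]) .no) .no .no (.red [.f 936 3 1, .f 944 1 5, .t 824 1 4] 119 136 [2, 4] [(119, 136, [2,
  4]), (134, 118, [1])]) .no .no) .no) .no .no) .no .no (.br 944 (.br 946 (.con 136 [4, 4]) (.red
  [.t 817 3 1, .f 824 1 5] 119 136 [2, 4] [(119, 136, [2, 4])]) .no (.use 470) (.con 136 [4, 4])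
  .no) (.red [.f 816 1 3, .f 816 3 5] 119 136 [2, 4] [(119, 136, [2, 4])]) .no (.hor [.f 936 3 5]
  []) .no .no) (.red [.f 945 5 3, .f 817 3 1, .f 825 1 3] 119 136 [2, 4] [(119, 136, [2, 4]),
  (120, 136, [2])]) (.red [.t 824 1 4] 119 136 [2, 4] [(119, 136, [2, 4])])) (.con 136 [2, 2]) .no
  .no) (.hor [.f 834 3 1, .f 833 1 5] [(121, 137, [2])]) .no (.use 468) .no

def c11t473 : Tr4 :=
  .br 1209 (.hor [.f 1209 1 5] []) .no .no (.br 1208 (.br 1216 (.red [.f 1089 5 1, .f 1208 1 3]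
  168 136 [1, 1] [(168, 136, [1, 1])]) .no (.con 136 [3, 1, 1]) .no .no .no) .no (.red [.f 1089 5
  1, .t 1216 4 2] 152 136 [1] [(152, 136, [1])]) (.hor [.f 1200 3 5] []) .no .no) .no (.red [.f
  1089 5 1, .f 1080 5 1, .f 1081 1 3] 152 136 [1] [(152, 136, [1])])

def c11l17 : List Tr4 :=
  [c11t434, c11t435, c11t436, c11t437, c11t438, c11t439, c11t440, c11t441, c11t442, c11t443,
  c11t444, c11t445, c11t446, c11t447, c11t448, c11t449, c11t450, c11t451, c11t452, c11t453,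
  c11t454, c11t455, c11t456, c11t457, c11t458, c11t459, c11t460, c11t461, c11t462, c11t463,
  c11t464, c11t465, c11t466, c11t467, c11t468, c11t469, c11t470, c11t471, c11t472, c11t473]

theorem c11k17 : chkLF ⟨4, 1, 0, true, -8⟩ true 0 c11N 434 c11l17 = true := by decide +kernel

def c11t474 : Tr4 :=
  .br 825 .no (.hor [.f 697 1 5] []) .no (.br 1218 (.br 1210 (.red [.f 1210 1 3, .t 1218 4 2] 152
  136 [1] [(152, 136, [1]), (168, 136, [1, 1])]) .no .no (.use 457) (.red [.f 1082 5 1, .f 1083 1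
  3] 152 136 [1] [(152, 136, [1])]) (.use 472)) .no (.use 436) (.red [.t 1218 4 2] 152 136 [1]
  [(152, 136, [1])]) .no (.br 1210 (.use 473) .no .no (.use 457) (.red [.f 1082 5 1, .f 1083 1 3]
  152 136 [1] [(152, 136, [1])]) (.use 472))) .no .no

def c11t475 : Tr4 :=
  .br 1336 (.hor [.f 1336 1 5] []) .no (.con 136 [1, 1, 3, 2]) (.red [.f 1200 3 1] 167 136 [1, 4,
  1] [(167, 136, [1, 4, 1])]) .no .no

def c11t476 : Tr4 :=
  .br 944 (.br 1065 (.br 1202 (.br 1337 (.use 475) .no (.red [.t 1345 4 2, .t 1218 4 2] 152 136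
  [1] [(152, 136, [1]), (168, 136, [1, 1])]) (.con 136 [4, 1, 1, 4]) (.red [.f 1209 5 1, .f 1210 1
  3, .t 1218 4 2] 152 136 [1] [(152, 136, [1]), (168, 136, [1, 1])]) (.use 443)) .no .no (.red [.t
  1193 2 3, .t 1202 2 3] 151 136 [4, 1] [(150, 136, [4, 1, 4]), (151, 136, [4, 1])]) .no (.hor [.f
  1201 5 3, .f 1200 3 5, .f 1202 3 5] [])) .no .no (.use 425) (.red [.f 1065 5 3, .f 937 3 1] 134
  136 [4, 4] [(134, 136, [4, 4])]) (.red [.t 944 1 4] 134 136 [4, 4] [(134, 136, [4, 4])])) (.red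
  [.f 816 1 3] 119 136 [4, 2] [(119, 136, [4, 2])]) .no (.hor [.f 936 3 5] []) .no .no

def c11t477 : Tr4 :=
  .br 1337 (.use 475) .no (.red [.t 1345 4 2, .t 1218 4 2] 152 136 [1] [(152, 136, [1]), (168,
  136, [1, 1])]) (.con 136 [4, 1, 1, 4]) (.red [.f 1209 5 1, .f 1210 1 3, .t 1218 4 2] 152 136 [1]
  [(152, 136, [1]), (168, 136, [1, 1])]) (.use 452)

def c11t478 : Tr4 :=
  .br 944 (.br 1065 (.br 1202 (.br 1225 (.use 444) .no (.use 162) .no .no .no) .no .no (.red [.t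
  1193 2 3, .t 1202 2 3] 151 136 [4, 1] [(150, 136, [4, 1, 4]), (151, 136, [4, 1])]) .no (.hor [.f
  1201 5 3, .f 1200 3 5, .f 1202 3 5] [])) .no .no (.use 425) (.red [.f 1065 5 3, .f 937 3 1] 134
  136 [4, 4] [(134, 136, [4, 4])]) (.red [.t 944 1 4] 134 136 [4, 4] [(134, 136, [4, 4])])) (.red
  [.f 816 1 3] 119 136 [4, 2] [(119, 136, [4, 2])]) .no (.hor [.f 936 3 5] []) .no .no

def c11t479 : Tr4 :=
  .br 1225 (.use 453) .no (.use 162) .no .no .no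

def c11t480 : Tr4 :=
  .br 1217 (.hor [.f 1217 1 5] []) .no (.br 1208 (.use 300) .no (.red [.t 1225 4 2, .t 1216 4 2]
  152 136 [1] [(152, 136, [1]), (153, 136, [3, 1])]) (.br 1211 (.con 136 [4, 1, 1]) .no .no (.br
  1075 .no (.br 946 (.hor [.f 946 1 5] []) (.br 825 .no (.br 1074 (.red [.t 1202 2 3, .f 1083 1 3,
  .f 955 3 1] 136 136 [] [(136, 136, []), (151, 136, [4, 1]), (152, 136, [1])]) .no .no (.use 440)
  .no (.br 945 .no (.hor [.f 817 1 5] []) .no (.use 476) .no (.use 447))) .no (.red [.t 817 3 1,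
  .f 824 1 5] 119 136 [2, 4] [(119, 136, [2, 4])]) .no .no) .no (.br 1074 (.red [.t 1202 2 3, .f
  1083 1 3, .f 955 3 1] 136 136 [] [(136, 136, []), (151, 136, [4, 1]), (152, 136, [1])]) .no .no
  (.use 448) .no (.br 945 .no (.use 449) .no (.use 476) .no (.use 450))) .no (.red [.f 945 5 3, .t
  946 3 1] 135 136 [4] [(135, 136, [4])])) .no (.br 1074 (.red [.t 1202 2 3, .f 1083 1 3, .f 955 3
  1] 136 136 [] [(136, 136, []), (151, 136, [4, 1]), (152, 136, [1])]) (.use 451) .no (.hor [.f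
  1066 3 5] []) .no (.br 944 (.con 136 [4, 4]) (.red [.f 816 1 3] 119 136 [2, 4] [(119, 136, [2,
  4])]) .no (.br 945 .no (.use 351) .no (.use 476) (.use 352) .no) (.br 825 .no (.br 817 .no (.red
  [.f 689 1 3] 103 136 [2, 2, 4] [(103, 136, [2, 2, 4])]) .no (.use 403) (.br 947 .no (.con 136
  [2, 4, 4]) .no (.red [.f 939 3 1] 134 136 [4, 4] [(134, 136, [4, 4])]) .no (.br 1202 (.use 477)
  .no .no (.use 454) .no (.hor [.f 1201 5 3, .f 1200 3 5, .f 1202 3 5] []))) (.red [.f 816 5 1, .f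
  816 1 3] 119 136 [2, 4] [(119, 136, [2, 4])])) .no (.red [.t 824 1 4] 119 136 [2, 4] [(119, 136,
  [2, 4])]) .no .no) .no)) .no (.red [.f 1074 5 3, .f 1075 3 1, .f 1083 1 3] 152 136 [1] [(151,
  136, [4, 1]), (152, 136, [1])])) .no .no) .no .no) .no .no (.br 1208 (.use 462) .no .no (.br
  1211 (.con 136 [4, 1, 1]) .no .no (.br 1075 .no (.br 946 (.hor [.f 946 1 5] []) (.br 825 .no
  (.br 1074 (.red [.t 1202 2 3, .f 1083 1 3, .f 955 3 1] 136 136 [] [(136, 136, []), (151, 136,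
  [4, 1]), (152, 136, [1])]) .no .no (.use 440) .no (.br 945 .no (.hor [.f 817 1 5] []) .no (.use
  478) .no (.use 447))) .no (.red [.t 817 3 1, .f 824 1 5] 119 136 [2, 4] [(119, 136, [2, 4])])
  .no .no) .no (.br 1074 (.red [.t 1202 2 3, .f 1083 1 3, .f 955 3 1] 136 136 [] [(136, 136, []),
  (151, 136, [4, 1]), (152, 136, [1])]) .no .no (.use 448) .no (.br 945 .no (.use 449) .no (.use
  478) .no (.use 450))) .no (.red [.f 945 5 3, .t 946 3 1] 135 136 [4] [(135, 136, [4])])) .no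
  (.br 1074 (.red [.t 1202 2 3, .f 1083 1 3, .f 955 3 1] 136 136 [] [(136, 136, []), (151, 136,
  [4, 1]), (152, 136, [1])]) (.use 451) .no (.hor [.f 1066 3 5] []) .no (.br 944 (.con 136 [4, 4])
  (.red [.f 816 1 3] 119 136 [2, 4] [(119, 136, [2, 4])]) .no (.br 945 .no (.use 351) .no (.use
  478) (.use 352) .no) (.br 825 .no (.br 817 .no (.red [.f 689 1 3] 103 136 [2, 2, 4] [(103, 136,
  [2, 2, 4])]) .no (.use 403) (.br 947 .no (.con 136 [2, 4, 4]) .no (.red [.f 939 3 1] 134 136 [4,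
  4] [(134, 136, [4, 4])]) .no (.br 1202 (.use 479) .no .no (.use 454) .no (.hor [.f 1201 5 3, .f
  1200 3 5, .f 1202 3 5] []))) (.red [.f 816 5 1, .f 816 1 3] 119 136 [2, 4] [(119, 136, [2,
  4])])) .no (.red [.t 824 1 4] 119 136 [2, 4] [(119, 136, [2, 4])]) .no .no) .no)) .no (.red [.f
  1074 5 3, .f 1075 3 1, .f 1083 1 3] 152 136 [1] [(151, 136, [4, 1]), (152, 136, [1])])) .no .no)
  .no .no)

def c11t481 : Tr4 :=
  .br 976 (.red [.t 1104 2 4, .t 969 1 4, .t 962 1 4] 136 136 [] [(136, 136, []), (137, 136, [3]),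
  (138, 136, [3, 3])]) .no (.br 1104 (.hor [.f 1096 1 3, .f 1096 3 5] [(154, 138, [1])]) .no (.br
  1106 (.red [.f 976 3 1, .t 1104 2 4, .t 969 1 4, .t 962 1 4] 136 136 [] [(136, 136, []), (137,
  136, [3]), (138, 136, [3, 3]), (139, 136, [3, 3, 3])]) (.use 163) (.use 164) .no (.red [.f 976 3
  1, .t 1104 2 4, .t 969 1 4, .t 962 1 4] 136 136 [] [(136, 136, []), (137, 136, [3]), (138, 136,
  [3, 3]), (139, 136, [3, 3, 3])]) .no) .no .no .no) .no (.red [.f 968 5 3, .f 969 3 1, .t 969 1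
  4, .t 962 1 4] 136 136 [] [(136, 136, []), (137, 136, [3]), (138, 136, [3, 3])]) .no

def c11t482 : Tr4 :=
  .br 1210 (.use 473) .no .no (.use 457) (.red [.f 1082 5 1, .f 1083 1 3] 152 136 [1] [(152, 136,
  [1])]) (.red [.f 1089 5 1, .f 1089 1 5, .f 1209 5 3, .t 1218 4 2] 152 136 [1] [(152, 136, [1])])

def c11t483 : Tr4 :=
  .br 969 .no (.hor [.f 833 1 3, .f 961 3 5] [(121, 120, [3])]) (.br 1096 (.br 834 .no (.br 835
  .no (.hor [.f 706 1 5] []) (.br 1211 (.br 1210 (.hor [.f 1210 1 5] []) .no (.red [.t 1218 4 2]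
  152 136 [1] [(152, 136, [1])]) (.use 422) .no (.br 1218 (.use 434) .no (.use 435) .no .no (.red
  [.f 1089 5 1, .f 1089 1 5, .f 1209 5 3, .t 1218 4 2] 152 136 [1] [(152, 136, [1])]))) .no .no
  (.br 1210 (.use 437) .no (.red [.t 1218 4 2] 152 136 [1] [(152, 136, [1])]) (.hor [.f 1202 3 5]
  []) .no (.br 1218 (.use 456) .no (.use 435) .no .no (.red [.f 1089 5 1, .f 1089 1 5, .f 1209 5
  3, .t 1218 4 2] 152 136 [1] [(152, 136, [1])]))) .no (.red [.f 1082 5 1, .f 1083 1 3] 152 136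
  [1] [(152, 136, [1])])) (.con 136 [2, 2]) .no .no) (.hor [.f 834 3 1, .f 833 1 5] [(121, 120,
  [3])]) (.red [.t 833 1 4, .t 960 1 4] 136 136 [] [(120, 136, [2]), (136, 136, [])]) (.br 826 .no
  (.br 825 .no (.hor [.f 697 1 5] []) .no (.br 1210 (.use 437) .no (.red [.t 1218 4 2] 152 136 [1]
  [(152, 136, [1])]) (.use 457) (.red [.f 1082 5 1, .f 1083 1 3] 152 136 [1] [(152, 136, [1])])
  (.use 468)) .no .no) .no (.use 469) (.red [.f 826 5 3, .t 833 1 4, .t 960 1 4] 136 136 [] [(120,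
  136, [2]), (136, 136, [])]) (.red [.f 825 5 1, .f 825 1 3, .t 960 1 4] 136 136 [] [(120, 136,
  [2]), (136, 136, [])])) .no) (.hor [.f 960 1 3, .f 960 3 1, .f 969 3 1, .f 968 1 5] [(138, 136,
  [3, 3])]) (.hor [.f 1096 3 5] []) .no .no .no) .no .no (.br 826 .no (.use 474) (.red [.t 833 1
  4, .t 960 1 4] 136 136 [] [(120, 136, [2]), (136, 136, [])]) (.use 469) (.br 834 .no (.br 1218
  (.br 1210 (.red [.f 1210 1 3, .t 1218 4 2] 152 136 [1] [(152, 136, [1]), (168, 136, [1, 1])])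
  .no .no (.use 457) (.red [.f 1082 5 1, .f 1083 1 3] 152 136 [1] [(152, 136, [1])]) (.br 1096
  (.br 835 .no (.hor [.f 706 1 5] []) (.br 832 .no (.br 840 .no (.use 272) (.br 1098 (.use 480)
  .no (.hor [.f 1097 3 5] []) .no (.use 481) .no) .no (.red [.f 840 5 1, .f 833 1 3, .f 961 3 5,
  .f 953 5 3, .t 960 1 4] 136 136 [] [(121, 120, [3]), (136, 136, [])]) .no) (.hor [.t 832 3 1, .f
  961 3 5] [(121, 120, [3])]) .no .no .no) .no .no .no) .no (.hor [.f 1096 3 5] []) .no .no .no))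
  .no (.use 436) (.red [.t 1218 4 2] 152 136 [1] [(152, 136, [1])]) .no (.use 482)) (.hor [.f 834
  3 1, .f 833 1 5] [(121, 120, [3])]) .no (.red [.f 826 5 3, .t 833 1 4, .t 960 1 4] 136 136 []
  [(120, 136, [2]), (136, 136, [])]) .no) (.red [.f 825 5 1, .f 825 1 3, .t 960 1 4] 136 136 []
  [(120, 136, [2]), (136, 136, [])]))

def c11t484 : Tr4 :=
  .br 945 (.hor [.f 944 1 5] []) (.use 424) .no (.br 946 (.con 136 [4, 4]) (.br 1075 (.con 136 [4,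
  4]) (.br 1073 (.br 1074 (.hor [.f 1073 1 5] []) .no .no (.con 136 [4, 4, 1]) .no .no) .no .no
  (.red [.f 937 3 1, .f 944 1 5] 134 136 [4, 4] [(134, 136, [4, 4])]) (.br 817 .no (.red [.f 689 1
  3] 103 136 [2, 2, 4] [(103, 136, [2, 2, 4])]) .no (.red [.f 809 3 1, .f 817 1 5, .f 945 5 3, .t
  946 3 1] 135 136 [4] [(118, 119, [4]), (135, 136, [4])]) .no (.br 1065 (.br 1064 (.hor [.f 1064
  1 5] []) (.red [.f 936 1 3, .f 936 3 5] 134 136 [4, 4] [(134, 136, [4, 4])]) .no (.br 938 (.red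
  [.t 937 3 1, .f 944 1 5] 134 136 [4, 4] [(134, 136, [4, 4])]) (.red [.f 810 1 3, .f 937 3 5, .f
  945 5 3, .t 946 3 1] 135 136 [4] [(118, 119, [4]), (135, 136, [4])]) .no (.br 939 (.con 136 [4,
  4, 4]) (.con 136 [2, 2, 4, 4, 1, 3]) .no (.hor [.f 930 3 5] []) .no .no) (.br 819 .no .no .no
  (.red [.t 818 1 4, .f 937 3 5, .f 945 5 3, .t 952 2 4] 119 136 [2, 4] [(118, 102, [1]), (119,
  136, [2, 4])]) .no .no) .no) .no .no) .no .no (.use 425) (.red [.f 1065 5 3, .f 937 3 1] 134 136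
  [4, 4] [(134, 136, [4, 4])]) (.red [.t 944 1 4] 134 136 [4, 4] [(134, 136, [4, 4])]))) .no) .no
  (.con 136 [4, 4]) .no (.con 136 [4, 4])) .no (.hor [.f 937 3 5] []) (.con 136 [4, 4]) .no) (.br
  1075 (.con 136 [4, 4]) (.red [.f 945 5 3, .t 946 3 1] 135 136 [4] [(135, 136, [4])]) .no (.con
  136 [4, 4]) .no (.con 136 [4, 4])) .no

def c11t485 : Tr4 :=
  .br 696 .no (.br 688 .no (.red [.f 560 1 3] 87 136 [2, 2, 2, 4] [(87, 136, [2, 2, 2, 4])]) .no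
  (.br 698 .no (.con 136 [2, 2, 2, 4]) .no (.hor [.f 690 3 5] []) .no .no) (.red [.f 688 5 1, .f
  689 1 3] 103 136 [2, 2, 4] [(103, 136, [2, 2, 4])]) .no) (.con 136 [2, 2, 2]) (.red [.t 696 4 1]
  103 136 [2, 2, 4] [(103, 136, [2, 2, 4])]) .no .no

def c11t486 : Tr4 :=
  .br 817 .no (.red [.f 689 1 3] 103 136 [2, 2, 4] [(103, 136, [2, 2, 4])]) .no (.use 426) .no
  (.use 485)

def c11t487 : Tr4 :=
  .br 817 .no (.red [.f 689 1 3] 103 136 [2, 2, 4] [(103, 136, [2, 2, 4])]) .no (.use 426) (.br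
  816 .no (.con 136 [2, 2, 4, 4]) .no (.red [.f 808 3 1, .f 816 1 3] 119 136 [2, 4] [(118, 136,
  [2, 4, 4]), (119, 136, [2, 4])]) .no .no) (.use 485)

def c11t488 : Tr4 :=
  .br 946 .no (.use 486) .no (.use 487) (.br 817 .no (.red [.f 689 1 3] 103 136 [2, 2, 4] [(103,
  136, [2, 2, 4])]) .no (.use 426) (.br 816 .no (.con 136 [2, 2, 4, 4]) .no (.red [.f 808 3 1, .f
  816 1 3] 119 136 [2, 4] [(118, 136, [2, 4, 4]), (119, 136, [2, 4])]) .no .no) (.use 485)) .no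

def c11t489 : Tr4 :=
  .br 817 .no (.red [.f 689 1 3] 103 136 [2, 2, 4] [(103, 136, [2, 2, 4])]) .no (.use 426) (.br
  816 .no (.con 136 [2, 2, 4, 4]) .no (.red [.f 817 5 1, .f 808 3 1] 118 136 [2, 4, 4] [(118, 136,
  [2, 4, 4])]) .no .no) (.use 485)

def c11t490 : Tr4 :=
  .br 1336 (.con 136 [1, 1, 4, 1]) .no (.con 136 [1, 1, 4, 1]) (.hor [.f 1328 3 5] []) .no .no

def c11t491 : Tr4 :=
  .br 698 .no (.br 816 .no (.con 136 [2, 2, 4, 2]) .no (.use 411) .no .no) .no (.hor [.f 690 3 5]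
  []) .no .no

def c11t492 : Tr4 :=
  .br 817 .no (.red [.f 689 1 3] 103 136 [2, 2, 4] [(103, 136, [2, 2, 4])]) .no (.use 403) (.use
  491) (.use 485)

def c11t493 : Tr4 :=
  .br 818 .no (.br 816 .no (.br 819 .no (.hor [.f 690 1 5] []) .no (.con 136 [2, 2, 4, 4]) .no
  .no) .no (.red [.f 808 3 1, .f 816 1 3, .f 816 3 5] 119 136 [2, 4] [(118, 136, [2, 4, 4]), (119,
  136, [2, 4])]) .no .no) .no (.use 465) (.red [.f 818 5 1, .t 817 3 1, .f 825 1 3] 119 136 [2, 4]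
  [(119, 136, [2, 4]), (120, 136, [2])]) .no

def c11t494 : Tr4 :=
  .br 946 (.con 136 [4, 4]) (.red [.t 817 3 1, .f 824 1 5] 119 136 [4, 2] [(119, 136, [4, 2])])
  .no (.hor [.f 937 3 5] []) (.con 136 [4, 4]) .no

def c11l18 : List Tr4 :=
  [c11t474, c11t475, c11t476, c11t477, c11t478, c11t479, c11t480, c11t481, c11t482, c11t483,
  c11t484, c11t485, c11t486, c11t487, c11t488, c11t489, c11t490, c11t491, c11t492, c11t493,
  c11t494]

theorem c11k18 : chkLF ⟨4, 1, 0, true, -8⟩ true 0 c11N 474 c11l18 = true := by decide +kernel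

def c11t495 : Tr4 :=
  .br 825 .no (.br 699 .no (.br 707 .no (.red [.f 571 1 3, .t 706 1 4, .t 833 1 4, .t 960 1 4] 136
  136 [] [(88, 136, [2, 2, 2]), (104, 136, [2, 2]), (120, 136, [2]), (136, 136, [])]) (.hor [.f
  707 3 1, .f 706 1 5] [(105, 104, [3])]) .no .no .no) (.red [.t 706 1 4, .t 833 1 4, .t 960 1 4]
  136 136 [] [(104, 136, [2, 2]), (120, 136, [2]), (136, 136, [])]) (.br 1211 (.br 944 (.use 484)
  (.red [.f 816 1 3] 119 136 [2, 4] [(119, 136, [2, 4])]) .no (.br 945 (.br 1074 (.br 1072 (.br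
  1075 (.hor [.f 1074 1 5] []) (.br 946 .no (.use 486) .no (.use 487) .no .no) .no (.use 460) .no
  .no) .no .no (.red [.f 936 3 1, .f 944 1 5, .f 1072 5 3, .t 1073 3 1] 151 136 [4, 1] [(134, 135,
  [4]), (151, 136, [4, 1])]) .no .no) (.hor [.f 945 1 5] []) .no (.use 488) (.red [.f 1074 5 3, .t
  1073 2 3] 135 136 [4] [(135, 136, [4])]) .no) (.use 351) .no (.hor [.f 936 3 5] []) (.use 489)
  .no) (.use 492) .no) .no .no (.br 944 (.use 484) (.red [.f 816 1 3] 119 136 [2, 4] [(119, 136,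
  [2, 4])]) .no (.br 945 (.br 1074 (.red [.t 1202 2 3, .t 1073 2 3] 135 136 [4] [(135, 136, [4]),
  (151, 136, [4, 1])]) (.hor [.f 945 1 5] []) .no (.use 488) (.red [.f 1074 5 3, .t 1073 2 3] 135
  136 [4] [(135, 136, [4])]) .no) (.use 351) .no (.hor [.f 936 3 5] []) (.use 489) .no) (.use 492)
  .no) .no .no) .no (.red [.f 698 5 1, .f 697 1 5, .f 825 5 1, .f 825 1 3, .t 960 1 4] 136 136 []
  [(120, 136, [2]), (136, 136, [])])) .no (.br 945 (.br 944 (.hor [.f 944 1 5] []) (.red [.f 816 1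
  3, .f 816 3 5] 119 136 [2, 4] [(119, 136, [2, 4])]) .no (.br 946 (.hor [.f 945 1 5] []) (.red
  [.t 817 3 1, .f 824 1 5] 119 136 [2, 4] [(119, 136, [2, 4])]) .no (.br 1074 (.br 1211 (.br 1072
  (.br 1075 (.hor [.f 1074 1 5] []) (.br 1064 (.hor [.f 1064 1 3, .f 936 3 1, .f 944 1 5] [(134,
  118, [1]), (150, 151, [4])]) .no .no (.br 1065 (.br 1203 (.red [.f 1203 1 3] 167 136 [4, 1, 1]
  [(167, 136, [4, 1, 1])]) .no .no (.br 1066 (.hor [.f 1065 1 5] []) .no .no (.br 1067 .no (.hor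
  [.f 939 1 3, .f 938 3 5] [(134, 118, [1])]) .no (.hor [.f 1058 3 5] []) .no .no) (.hor [.t 1202
  2 4, .f 938 3 1, .f 945 1 5] [(134, 118, [1]), (150, 151, [4])]) .no) .no .no) (.red [.f 937 1
  3, .f 936 3 5, .t 824 1 4] 119 136 [2, 4] [(119, 136, [2, 4]), (134, 118, [1])]) .no (.hor [.f
  1056 3 5] []) (.red [.t 945 1 4, .f 945 5 3, .f 817 3 1] 119 136 [2, 4] [(119, 136, [2, 4]),
  (134, 118, [1])]) .no) (.red [.t 944 4 1, .t 824 1 4] 119 136 [2, 4] [(119, 136, [2, 4]), (134,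
  118, [1])]) .no) .no (.use 460) .no .no) .no .no (.red [.f 936 3 1, .f 944 1 5, .t 824 1 4] 119
  136 [2, 4] [(119, 136, [2, 4]), (134, 118, [1])]) .no .no) .no .no (.red [.t 1202 2 3, .t 1073 2
  3] 135 136 [4] [(135, 136, [4]), (151, 136, [4, 1])]) .no .no) .no .no (.red [.f 938 3 1, .f 945
  1 5, .f 945 5 3, .f 817 3 1] 119 136 [2, 4] [(119, 136, [2, 4]), (134, 118, [1])]) (.red [.f
  1074 5 3, .t 1073 2 3] 135 136 [4] [(135, 136, [4])]) .no) (.br 1072 (.br 1074 (.use 461) .no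
  .no (.use 493) (.red [.f 1074 5 3, .t 1073 2 3] 135 136 [4] [(135, 136, [4])]) .no) .no .no
  (.red [.f 936 3 1, .f 944 1 5, .t 824 1 4] 119 136 [2, 4] [(119, 136, [2, 4]), (134, 118, [1])])
  .no .no) .no) .no .no) .no .no (.br 944 (.use 494) (.red [.f 816 1 3, .f 816 3 5] 119 136 [2, 4]
  [(119, 136, [2, 4])]) .no (.hor [.f 936 3 5] []) .no .no) (.red [.f 945 5 3, .f 817 3 1, .f 825
  1 3] 119 136 [2, 4] [(119, 136, [2, 4]), (120, 136, [2])]) (.red [.t 824 1 4] 119 136 [2, 4]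
  [(119, 136, [2, 4])])) .no .no

def c11t496 : Tr4 :=
  .br 1081 (.br 1218 (.br 1210 (.use 154) .no .no (.br 1080 (.hor [.f 1080 1 5] []) .no .no (.br
  1097 (.use 158) (.red [.t 969 1 4, .t 962 1 4] 136 136 [] [(136, 136, []), (137, 136, [3])])
  (.br 961 .no (.use 364) (.hor [.f 961 3 5] []) .no .no .no) .no (.red [.f 1089 5 3, .f 962 3 1,
  .t 962 1 4] 136 136 [] [(136, 136, []), (137, 136, [3])]) (.br 961 .no (.br 944 .no (.red [.f
  816 1 3] 119 136 [2, 4] [(119, 136, [2, 4])]) .no (.use 353) (.br 969 .no (.hor [.f 833 1 3, .f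
  961 3 5] [(121, 120, [3])]) (.br 1211 (.br 1208 (.use 360) .no (.br 825 .no (.use 419) .no (.red
  [.t 824 1 4] 119 136 [2, 4] [(119, 136, [2, 4])]) (.use 421) .no) (.con 136 [4, 1, 1]) .no .no)
  .no .no (.hor [.f 1202 3 5] []) .no .no) .no .no (.red [.f 968 5 1, .t 969 1 4, .t 962 1 4] 136
  136 [] [(136, 136, []), (137, 136, [3])])) .no) (.hor [.f 961 3 5] []) .no .no .no)) .no .no)
  (.red [.f 1082 5 1, .f 1083 1 3] 152 136 [1] [(152, 136, [1])]) .no) .no (.use 153) (.red [.t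
  1218 4 2, .f 1081 1 5] 152 136 [1] [(152, 136, [1])]) .no (.red [.f 1089 5 1, .f 1081 1 3] 152
  136 [1] [(152, 136, [1])])) .no .no (.use 179) .no (.br 961 .no (.br 1097 (.use 158) (.red [.t
  969 1 4, .t 962 1 4] 136 136 [] [(136, 136, []), (137, 136, [3])]) (.use 483) .no (.red [.f 1089
  5 3, .f 962 3 1, .t 962 1 4] 136 136 [] [(136, 136, []), (137, 136, [3])]) (.br 826 .no (.use
  474) (.red [.t 833 1 4, .t 960 1 4] 136 136 [] [(120, 136, [2]), (136, 136, [])]) (.use 469)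
  (.br 1218 (.br 1210 (.red [.f 1210 1 3, .t 1218 4 2] 152 136 [1] [(152, 136, [1]), (168, 136,
  [1, 1])]) .no .no (.use 457) (.red [.f 1082 5 1, .f 1083 1 3] 152 136 [1] [(152, 136, [1])])
  (.br 969 .no (.hor [.f 833 1 3, .f 961 3 5] [(121, 120, [3])]) (.br 834 .no (.br 835 .no (.hor
  [.f 706 1 5] []) (.br 968 .no (.use 495) (.hor [.f 968 3 5] []) .no .no .no) .no .no .no) (.hor
  [.f 834 3 1, .f 833 1 5] [(121, 120, [3])]) .no (.red [.f 826 5 3, .t 833 1 4, .t 960 1 4] 136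
  136 [] [(120, 136, [2]), (136, 136, [])]) .no) .no .no (.red [.f 968 5 1, .t 969 1 4, .t 962 1
  4] 136 136 [] [(136, 136, []), (137, 136, [3])]))) .no (.use 436) (.red [.t 1218 4 2] 152 136
  [1] [(152, 136, [1])]) .no (.use 482)) (.red [.f 825 5 1, .f 825 1 3, .t 960 1 4] 136 136 []
  [(120, 136, [2]), (136, 136, [])]))) (.hor [.f 961 3 5] []) .no .no .no)

def c11t497 : Tr4 :=
  .br 1083 (.hor [.f 1082 1 5] []) .no .no (.con 136 [4, 1]) .no .no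

def c11t498 : Tr4 :=
  .br 1216 (.red [.f 1208 1 3, .t 1216 4 2] 152 136 [1] [(152, 136, [1]), (168, 136, [1, 1])])
  (.con 136 [3, 1]) (.br 1218 (.use 138) .no (.con 136 [1, 3, 1]) (.br 1219 (.con 136 [1, 3, 1])
  .no (.red [.f 1091 3 1, .f 1083 1 3, .f 1210 3 5] 152 136 [1] [(152, 136, [1]), (153, 136, [1,
  3])]) .no .no .no) (.con 136 [1, 3, 1]) .no) .no .no .no

def c11t499 : Tr4 :=
  .br 944 (.red [.f 937 3 1] 134 136 [4, 4] [(134, 136, [4, 4])]) (.red [.f 816 1 3] 119 136 [4,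
  2] [(119, 136, [4, 2])]) .no (.hor [.f 936 3 5] []) .no .no

def c11t500 : Tr4 :=
  .br 1072 .no .no .no (.hor [.f 1064 3 5] []) .no .no

def c11t501 : Tr4 :=
  .br 1090 (.con 136 [1, 3]) (.br 1081 (.red [.f 1081 1 3] 152 136 [1] [(152, 136, [1])]) .no .no
  (.use 37) (.red [.f 953 5 1, .f 954 1 3] 136 136 [] [(136, 136, [])]) (.br 1082 (.use 497) .no
  .no (.br 1083 (.br 1208 (.use 498) .no (.red [.t 1216 4 2] 152 136 [1] [(152, 136, [1])]) (.br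
  1073 (.red [.t 1200 3 2, .f 1073 3 5, .f 953 5 1, .f 954 1 3] 136 136 [] [(136, 136, []), (151,
  135, [1])]) (.red [.t 1073 2 3, .f 954 1 3] 136 136 [] [(135, 136, [4]), (136, 136, [])]) .no
  (.br 1075 (.red [.f 1075 1 3, .f 1074 3 5, .t 962 1 4] 136 136 [] [(136, 136, []), (151, 135,
  [1])]) (.br 946 .no (.br 945 .no (.hor [.f 817 1 5] []) .no (.use 499) .no (.br 825 .no (.br 817
  .no (.red [.f 689 1 3, .t 824 1 4, .f 817 1 5] 119 136 [2, 4] [(103, 136, [2, 4, 2]), (119, 136,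
  [2, 4])]) .no (.br 936 (.con 136 [4, 1, 4, 2, 3]) (.red [.t 808 1 3, .f 817 1 5, .f 945 5 3, .f
  946 3 1] 135 136 [4] [(118, 102, [1]), (135, 136, [4])]) .no (.br 1064 (.con 136 [4, 1, 4, 2,
  3]) .no (.hor [.f 1064 3 5] []) (.con 136 [4, 1, 4, 2, 3]) .no .no) (.red [.f 936 5 3, .f 809 3
  1, .f 817 1 5, .f 945 5 3, .f 946 3 1] 135 136 [4] [(118, 119, [4]), (135, 136, [4])]) .no) .no
  (.red [.f 816 5 1, .f 816 1 3] 119 136 [2, 4] [(119, 136, [2, 4])])) (.br 826 .no (.con 136 [2,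
  2]) (.hor [.f 825 3 5] []) .no (.con 136 [2, 2]) .no) (.red [.t 824 1 4, .f 817 1 5] 119 136 [2,
  4] [(119, 136, [2, 4])]) (.red [.f 825 5 1, .f 818 1 3] 119 136 [2, 4] [(119, 136, [2, 4])])
  .no)) .no (.br 945 .no (.use 449) .no (.use 499) .no (.use 500)) .no (.red [.f 945 5 3, .f 946 3
  1, .f 954 1 3] 136 136 [] [(135, 136, [4]), (136, 136, [])])) .no (.br 945 .no (.br 944 (.con
  136 [4, 4]) (.hor [.f 816 1 5] []) .no (.use 351) .no .no) .no (.use 499) (.red [.f 945 5 3, .f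
  946 3 1, .f 954 1 3] 136 136 [] [(135, 136, [4]), (136, 136, [])]) (.use 500)) .no .no) .no (.br
  944 .no (.red [.f 816 1 3] 119 136 [2, 4] [(119, 136, [2, 4])]) .no (.br 945 .no (.use 351) .no
  (.hor [.f 936 3 5] []) (.red [.f 945 5 3, .f 946 3 1, .f 954 1 3] 136 136 [] [(135, 136, [4]),
  (136, 136, [])]) .no) (.red [.f 944 5 1, .t 1073 2 3, .f 954 1 3] 136 136 [] [(135, 136, [4]),
  (136, 136, [])]) .no)) (.red [.f 1080 5 1, .f 1081 1 3] 152 136 [1] [(152, 136, [1])]) .no) .no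
  .no (.hor [.f 1074 3 5] []) .no .no) (.red [.t 962 1 4] 136 136 [] [(136, 136, [])]) .no)) (.hor
  [.f 1090 3 5] []) (.con 136 [1]) .no .no

def c11t502 : Tr4 :=
  .br 825 .no (.hor [.f 697 1 5] []) .no (.red [.f 945 5 3, .f 817 3 1, .f 825 1 3] 119 136 [4, 2]
  [(119, 136, [4, 2]), (120, 136, [2])]) .no .no

def c11t503 : Tr4 :=
  .br 1226 (.hor [.f 1218 1 3, .f 1217 3 5] [(169, 170, [4])]) .no (.hor [.f 1098 3 1, .f 1098 1
  5] [(154, 136, [3, 1, 3])]) .no .no .no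

def c11t504 : Tr4 :=
  .br 707 .no (.red [.f 571 1 3, .t 706 1 4, .t 833 1 4, .f 953 3 1] 136 136 [] [(88, 136, [2, 2,
  2]), (104, 136, [2, 2]), (120, 136, [2]), (136, 136, [])]) (.hor [.f 707 3 1, .f 706 1 5] [(105,
  104, [3])]) .no .no .no

def c11t505 : Tr4 :=
  .br 946 .no (.red [.t 817 3 1, .f 824 1 5] 119 136 [2, 4] [(119, 136, [2, 4])]) .no (.red [.f
  938 3 1, .f 945 1 5, .f 945 5 3, .f 817 3 1] 119 136 [2, 4] [(119, 136, [2, 4]), (134, 118,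
  [1])]) (.use 493) .no

def c11t506 : Tr4 :=
  .br 1073 (.con 136 [4, 4, 1]) .no .no (.hor [.f 1065 3 5] []) .no .no

def c11t507 : Tr4 :=
  .br 835 .no (.hor [.f 706 1 5] []) (.use 504) .no .no .no

def c11t508 : Tr4 :=
  .br 961 .no (.br 826 .no (.br 945 (.br 1074 (.red [.f 1074 1 3, .t 1073 2 3] 135 136 [4] [(135,
  136, [4]), (151, 136, [4, 1])]) (.hor [.f 945 1 5] []) .no (.br 1072 (.con 136 [4, 1]) .no (.br
  825 .no (.hor [.f 697 1 5] []) .no (.br 946 .no (.red [.t 817 3 1, .f 824 1 5] 119 136 [2, 4]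
  [(119, 136, [2, 4])]) .no (.red [.f 938 3 1, .f 945 1 5, .f 945 5 3, .f 817 3 1] 119 136 [2, 4]
  [(119, 136, [2, 4]), (134, 118, [1])]) (.br 834 .no (.br 835 .no (.hor [.f 706 1 5] []) (.use
  471) (.con 136 [2, 2]) .no .no) (.hor [.f 834 3 1, .f 833 1 5] [(121, 120, [3])]) .no (.use 467)
  .no) .no) .no .no) (.con 136 [4, 1]) .no .no) .no .no) (.use 351) .no (.hor [.f 936 3 5] [])
  (.use 502) .no) (.red [.t 833 1 4, .f 953 3 1, .f 960 1 5] 136 136 [] [(120, 136, [2]), (136,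
  136, [])]) (.use 469) (.br 834 .no (.br 945 (.br 1074 (.red [.f 1074 1 3, .t 1073 2 3] 135 136
  [4] [(135, 136, [4]), (151, 136, [4, 1])]) (.hor [.f 945 1 5] []) .no (.br 835 .no (.hor [.f 706
  1 5] []) (.br 699 .no (.br 825 .no (.use 504) .no (.use 505) .no .no) (.red [.t 706 1 4, .t 833
  1 4, .f 953 3 1] 136 136 [] [(104, 136, [2, 2]), (120, 136, [2]), (136, 136, [])]) (.br 825 .no
  (.br 817 .no (.red [.f 689 1 3] 103 136 [2, 2, 4] [(103, 136, [2, 2, 4])]) .no (.use 426) (.br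
  816 .no (.con 136 [2, 2, 4, 4]) .no (.red [.f 808 3 1, .f 816 1 3] 119 136 [2, 4] [(118, 136,
  [2, 4, 4]), (119, 136, [2, 4])]) .no .no) (.use 485)) .no (.use 505) .no .no) .no (.red [.f 698
  5 1, .f 698 1 3, .t 833 1 4, .f 953 3 1] 136 136 [] [(104, 136, [2, 2]), (120, 136, [2]), (136,
  136, [])])) .no .no .no) .no .no) (.use 351) .no (.hor [.f 936 3 5] []) (.br 825 .no (.br 699
  .no (.use 507) (.red [.t 706 1 4, .t 833 1 4, .f 953 3 1] 136 136 [] [(104, 136, [2, 2]), (120,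
  136, [2]), (136, 136, [])]) (.use 489) .no (.red [.f 698 5 1, .f 698 1 3, .t 833 1 4, .f 953 3
  1] 136 136 [] [(104, 136, [2, 2]), (120, 136, [2]), (136, 136, [])])) .no (.red [.f 945 5 3, .f
  817 3 1, .f 825 1 3] 119 136 [2, 4] [(119, 136, [2, 4]), (120, 136, [2])]) .no .no) .no) (.hor
  [.f 834 3 1, .f 833 1 5] [(121, 120, [3])]) .no (.red [.f 826 5 3, .t 833 1 4, .f 953 3 1] 136
  136 [] [(120, 136, [2]), (136, 136, [])]) .no) (.red [.f 825 5 1, .f 824 1 5, .t 1088 2 4] 136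
  136 [] [(136, 136, [])])) (.hor [.f 961 3 5] []) .no .no .no

def c11t509 : Tr4 :=
  .br 1073 (.con 136 [4, 4, 1]) .no .no (.hor [.f 1065 3 5] []) .no .no

def c11t510 : Tr4 :=
  .br 1202 (.br 1201 (.hor [.f 1201 1 5] []) .no .no (.con 136 [1, 4, 1, 4]) .no (.con 136 [1, 4,
  4, 1])) .no .no (.hor [.f 1194 3 5] []) .no (.red [.f 1073 5 1, .f 1074 1 3] 151 136 [1, 4]
  [(151, 136, [1, 4])])

def c11t511 : Tr4 :=
  .br 1202 (.br 1201 (.hor [.f 1201 1 5] []) .no .no (.con 136 [1, 4, 1, 4]) .no (.con 136 [1, 4,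
  4, 1])) .no .no (.hor [.f 1194 3 5] []) .no (.red [.f 1073 5 1, .f 1074 1 3] 151 136 [1, 4]
  [(151, 136, [1, 4])])

def c11t512 : Tr4 :=
  .br 832 .no (.br 698 .no (.br 816 .no (.con 136 [2, 2, 4, 2]) .no (.br 690 .no (.red [.f 562 1
  3] 87 136 [2, 2, 2, 4] [(87, 136, [2, 2, 2, 4])]) .no (.use 410) .no (.red [.f 689 5 1, .f 689 1
  3] 103 136 [2, 2, 4] [(103, 136, [2, 2, 4])])) .no .no) .no (.hor [.f 690 3 5] []) .no .no)
  (.hor [.t 832 3 1, .f 961 3 5] [(121, 120, [3])]) .no .no .no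

def c11t513 : Tr4 :=
  .br 1096 (.br 969 .no (.hor [.f 833 1 3, .f 961 3 5] [(121, 120, [3])]) (.br 968 .no (.use 491)
  (.hor [.f 968 3 5] []) .no .no .no) .no .no (.use 512)) (.con 136 [3, 3]) (.con 136 [3, 3, 1])
  .no .no .no

def c11t514 : Tr4 :=
  .br 1203 (.br 1202 (.hor [.f 1202 1 5] []) .no .no (.br 1338 (.br 1201 (.br 1337 (.hor [.f 1337
  1 5] []) .no (.red [.f 1208 5 3, .f 1209 3 1, .f 1201 1 3] 168 136 [1, 1] [(167, 136, [4, 1,
  1]), (168, 136, [1, 1])]) .no .no (.red [.f 1208 5 3, .f 1208 3 5, .f 1208 5 1, .f 1201 1 3] 167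
  136 [4, 1, 1] [(167, 136, [4, 1, 1])])) .no .no (.hor [.f 1193 3 5] []) .no (.hor [.f 1200 5 3,
  .f 1072 3 1, .t 1209 4 2, .f 1072 1 5, .f 1074 3 5] [])) .no .no (.red [.t 1210 2 3, .t 1330 3
  2, .f 1075 3 1, .f 1083 1 3] 151 136 [4, 1] [(151, 136, [4, 1]), (167, 136, [4, 1, 1])]) (.red
  [.t 1218 1 4, .f 1203 1 3] 168 136 [1, 1] [(167, 136, [4, 1, 1]), (168, 136, [1, 1])]) (.red [.f
  1208 5 3, .t 1217 4 1] 168 136 [1, 1] [(168, 136, [1, 1])])) .no (.red [.f 1073 5 1, .f 1074 1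
  3] 151 136 [4, 1] [(151, 136, [4, 1])])) .no .no (.use 511) .no (.red [.t 1082 1 4] 151 136 [4,
  1] [(151, 136, [4, 1])])

def c11t515 : Tr4 :=
  .br 816 .no (.con 136 [2, 4, 2, 4]) .no (.red [.t 808 3 1, .f 816 1 3] 119 136 [2, 4] [(118,
  136, [2, 4, 4]), (119, 136, [2, 4])]) .no .no

def c11l19 : List Tr4 :=
  [c11t495, c11t496, c11t497, c11t498, c11t499, c11t500, c11t501, c11t502, c11t503, c11t504,
  c11t505, c11t506, c11t507, c11t508, c11t509, c11t510, c11t511, c11t512, c11t513, c11t514,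
  c11t515]

theorem c11k19 : chkLF ⟨4, 1, 0, true, -8⟩ true 0 c11N 495 c11l19 = true := by decide +kernel

def c11t516 : Tr4 :=
  .br 1209 (.br 1208 (.hor [.f 1208 1 5] []) .no (.br 1218 (.br 1203 (.br 1338 (.br 1339 (.hor [.f
  1338 1 5] []) .no (.red [.f 1211 3 1, .f 1203 1 3] 167 136 [4, 1, 1] [(167, 136, [4, 1, 1]),
  (168, 136, [1, 1])]) .no .no .no) .no .no (.red [.t 1210 2 3, .t 1330 3 2, .f 1075 3 1, .f 1083
  1 3] 151 136 [4, 1] [(151, 136, [4, 1]), (167, 136, [4, 1, 1])]) (.red [.t 1218 1 4, .f 1203 1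
  3] 167 136 [4, 1, 1] [(167, 136, [4, 1, 1]), (168, 136, [1, 1])]) .no) .no .no (.use 510) .no
  (.red [.t 1082 1 4] 151 136 [4, 1] [(151, 136, [4, 1])])) .no (.br 1217 (.con 136 [3, 1, 1]) .no
  (.hor [.f 1217 3 5] []) .no .no .no) .no .no (.red [.t 1081 3 1, .f 953 5 1, .t 954 1 3] 136 136
  [] [(136, 136, []), (152, 136, [1])])) (.con 136 [4, 1, 1]) .no .no) .no (.red [.f 1081 3 1, .f
  1081 1 5, .f 953 5 1, .t 954 1 3] 136 136 [] [(136, 136, []), (152, 136, [1])]) (.red [.t 1209 4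
  2, .f 1074 3 5] 151 136 [4, 1] [(151, 136, [4, 1])]) .no (.br 817 .no (.red [.f 689 1 3] 103 136
  [2, 2, 4] [(103, 136, [2, 2, 4])]) .no (.use 403) (.br 1218 (.br 699 .no (.use 507) (.red [.t
  706 1 4, .t 833 1 4, .f 953 3 1] 136 136 [] [(104, 136, [2, 2]), (120, 136, [2]), (136, 136,
  [])]) (.br 1099 (.br 1098 (.hor [.f 1098 1 5] []) .no (.br 1217 (.hor [.f 1217 1 5] []) .no
  (.use 503) .no .no (.use 514)) .no .no (.use 513)) (.red [.t 970 4 1, .t 1089 4 2, .t 1080 4 2]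
  136 136 [] [(135, 136, [4]), (136, 136, []), (137, 136, [3])]) (.br 1217 (.hor [.f 1217 1 5] [])
  .no (.br 835 .no (.hor [.f 706 1 5] []) (.br 971 .no .no (.br 1097 .no (.br 1098 (.br 1203 (.br
  1339 (.br 1347 (.red [.f 1339 1 3, .f 1211 3 1, .f 1203 1 3] 168 136 [1, 1] [(167, 136, [4, 1,
  1]), (168, 136, [1, 1]), (184, 136, [1, 1, 1])]) .no (.br 1227 .no .no (.hor [.f 1099 3 1, .f
  1098 1 5] [(154, 153, [3])]) .no .no .no) .no .no .no) .no (.red [.f 1211 3 1, .f 1203 1 3] 168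
  136 [1, 1] [(167, 136, [4, 1, 1]), (168, 136, [1, 1])]) .no .no (.red [.t 1218 1 4, .f 1203 1 3]
  168 136 [1, 1] [(167, 136, [4, 1, 1]), (168, 136, [1, 1])])) .no .no (.use 511) .no (.red [.t
  1082 1 4] 151 136 [4, 1] [(151, 136, [4, 1])])) .no (.hor [.f 1098 3 5] []) .no .no .no) (.red
  [.f 971 3 1, .t 970 4 1, .t 1089 4 2, .t 1080 4 2] 136 136 [] [(135, 136, [4]), (136, 136, []),
  (137, 136, [3]), (138, 136, [3, 3])]) .no (.red [.f 971 3 1, .t 970 4 1, .t 1089 4 2, .t 1080 4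
  2] 136 136 [] [(135, 136, [4]), (136, 136, []), (137, 136, [3]), (138, 136, [3, 3])]) (.red [.f
  971 3 1, .t 970 4 1, .t 1089 4 2, .t 1080 4 2] 136 136 [] [(135, 136, [4]), (136, 136, []),
  (137, 136, [3]), (138, 136, [3, 3])])) .no .no .no) .no .no .no) .no .no (.use 514)) .no .no
  (.red [.f 1090 5 3, .f 962 3 1, .t 1089 4 2, .t 1080 4 2] 136 136 [] [(135, 136, [4]), (136,
  136, []), (137, 136, [3])])) .no (.red [.f 698 5 1, .f 698 1 3, .t 833 1 4, .f 953 3 1] 136 136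
  [] [(104, 136, [2, 2]), (120, 136, [2]), (136, 136, [])])) .no (.br 1217 (.con 136 [3, 1, 1])
  .no (.hor [.f 1217 3 5] []) .no .no (.con 136 [3, 1, 1])) .no .no (.red [.t 1081 3 1, .f 953 5
  1, .t 954 1 3] 136 136 [] [(136, 136, []), (152, 136, [1])])) (.red [.f 816 5 1, .f 816 1 3] 119
  136 [2, 4] [(119, 136, [2, 4])]))

def c11t517 : Tr4 :=
  .br 944 (.use 424) (.hor [.f 816 1 5] []) .no (.use 351) .no .no

def c11t518 : Tr4 :=
  .br 825 .no (.hor [.f 697 1 5] []) .no (.red [.t 824 1 4] 119 136 [4, 2] [(119, 136, [4, 2])])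
  .no .no

def c11t519 : Tr4 :=
  .br 944 .no (.red [.f 816 1 3] 119 136 [4, 2] [(119, 136, [4, 2])]) .no (.hor [.f 936 3 5] [])
  .no .no

def c11t520 : Tr4 :=
  .br 969 .no (.hor [.f 833 1 3, .f 961 3 5] [(121, 120, [3])]) (.br 968 (.con 136 [3, 3]) (.use
  491) (.hor [.f 968 3 5] []) .no .no .no) .no .no (.use 512)

def c11t521 : Tr4 :=
  .br 961 .no (.br 826 .no (.br 1073 (.red [.t 1073 1 3, .f 1082 1 5, .f 1082 5 3, .f 955 3 1] 136
  136 [] [(136, 136, []), (151, 135, [1])]) (.red [.t 1073 2 3] 135 136 [4] [(135, 136, [4])]) .no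
  (.br 945 .no (.use 517) .no (.use 499) (.use 502) (.use 518)) .no (.br 945 .no (.use 517) .no
  (.use 519) (.use 502) (.use 518))) (.red [.t 833 1 4, .t 960 1 4] 136 136 [] [(120, 136, [2]),
  (136, 136, [])]) (.use 469) (.br 834 .no (.br 945 (.red [.t 1073 2 3] 135 136 [4] [(135, 136,
  [4])]) (.use 517) .no (.br 1073 (.red [.t 1073 1 3, .f 1082 1 5, .f 1082 5 3, .f 955 3 1] 136
  136 [] [(136, 136, []), (151, 135, [1])]) .no .no (.use 499) .no (.use 519)) (.red [.f 945 5 3,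
  .f 946 3 1, .t 954 1 3] 136 136 [] [(135, 136, [4]), (136, 136, [])]) (.br 1073 (.red [.t 1073 1
  3, .f 1082 1 5, .f 1082 5 3, .f 955 3 1] 136 136 [] [(136, 136, []), (151, 135, [1])]) .no .no
  (.br 1208 (.br 1216 (.red [.f 1208 1 3, .t 1216 4 2] 152 136 [1] [(152, 136, [1]), (168, 136,
  [1, 1])]) .no (.br 825 .no (.br 817 .no (.red [.f 689 1 3] 103 136 [2, 2, 4] [(103, 136, [2, 2,
  4])]) .no (.use 403) (.br 699 .no (.br 835 .no (.hor [.f 706 1 5] []) (.br 707 .no (.red [.f 571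
  1 3, .t 706 1 4, .t 833 1 4, .t 960 1 4] 136 136 [] [(88, 136, [2, 2, 2]), (104, 136, [2, 2]),
  (120, 136, [2]), (136, 136, [])]) (.hor [.f 707 3 1, .f 706 1 5] [(105, 104, [3])]) .no .no .no)
  .no .no .no) (.red [.t 706 1 4, .t 833 1 4, .t 960 1 4] 136 136 [] [(104, 136, [2, 2]), (120,
  136, [2]), (136, 136, [])]) (.br 1219 (.con 136 [3, 1, 1]) .no (.br 1099 .no (.red [.t 970 4 1,
  .f 1091 3 1, .f 1083 1 3] 152 136 [1] [(137, 136, [3]), (152, 136, [1]), (153, 136, [3, 1])])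
  (.br 1098 (.red [.t 1226 2 4, .f 1083 1 3] 152 136 [1] [(152, 136, [1]), (153, 136, [3, 1])])
  .no (.hor [.f 1098 3 5] []) .no .no (.use 520)) .no .no (.red [.f 1090 5 3, .f 1091 3 1, .f 1083
  1 3] 152 136 [1] [(152, 136, [1]), (153, 136, [3, 1])])) .no .no .no) .no (.red [.f 698 5 1, .f
  697 1 5, .f 825 5 1, .f 825 1 3, .t 960 1 4] 136 136 [] [(120, 136, [2]), (136, 136, [])]))
  (.red [.f 816 5 1, .f 816 1 3] 119 136 [2, 4] [(119, 136, [2, 4])])) .no (.red [.t 824 1 4] 119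
  136 [2, 4] [(119, 136, [2, 4])]) .no .no) .no .no .no) .no (.red [.t 1216 4 2] 152 136 [1]
  [(152, 136, [1])]) (.use 500) .no .no) .no (.red [.f 944 5 1, .t 1073 2 3] 135 136 [4] [(135,
  136, [4])]))) (.hor [.f 834 3 1, .f 833 1 5] [(121, 120, [3])]) .no (.red [.f 826 5 3, .t 833 1
  4, .t 960 1 4] 136 136 [] [(120, 136, [2]), (136, 136, [])]) .no) (.red [.f 825 5 1, .f 825 1 3,
  .t 960 1 4] 136 136 [] [(120, 136, [2]), (136, 136, [])])) (.hor [.f 961 3 5] []) .no .no .no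

def c11t522 : Tr4 :=
  .br 1105 (.hor [.t 1105 1 4, .f 1098 1 5] [(154, 136, [3, 3, 1])]) (.hor [.f 969 1 3, .f 968 3
  5] [(138, 137, [3])]) (.br 1104 (.con 136 [3, 3, 3, 1]) .no (.hor [.f 1104 3 5] []) .no .no .no)
  .no .no (.hor [.t 968 3 1, .f 1097 3 5] [(138, 137, [3])])

def c11t523 : Tr4 :=
  .br 1072 (.hor [.f 1072 1 3, .f 1200 3 5] [(151, 136, [4, 1])]) .no .no (.hor [.f 1064 3 5] [])
  .no .no

def c11t524 : Tr4 :=
  .br 1347 (.con 136 [3, 1, 1, 4, 2, 4, 2]) (.hor [.f 1218 1 5] []) (.con 136 [3, 1, 1, 4, 2, 4,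
  2]) (.con 136 [3, 1, 1, 4, 2, 4, 2]) .no .no

def c11t525 : Tr4 :=
  .br 1217 (.con 136 [1, 3, 1]) .no (.hor [.f 1217 3 5] []) (.con 136 [1, 3, 1]) .no (.con 136 [1,
  3, 1])

def c11t526 : Tr4 :=
  .br 1218 (.br 817 .no (.red [.f 689 1 3] 103 136 [2, 2, 4] [(103, 136, [2, 2, 4])]) .no (.use
  403) (.br 1209 (.hor [.f 1209 1 5] []) .no (.hor [.f 1210 1 3, .f 1209 3 5] [(168, 136, [1,
  1])]) (.br 1073 .no .no .no (.br 699 .no (.use 507) (.red [.t 706 1 4, .t 833 1 4, .f 953 3 1]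
  136 136 [] [(104, 136, [2, 2]), (120, 136, [2]), (136, 136, [])]) (.br 1217 (.hor [.f 1217 1 5]
  []) .no (.br 1098 (.hor [.f 1098 1 5] []) .no (.use 503) .no .no (.use 513)) .no .no (.br 1098
  (.hor [.f 1098 1 5] []) .no (.br 1080 (.use 523) .no .no (.br 1347 (.con 136 [3, 1, 1, 4, 2, 2])
  (.hor [.f 1218 1 5] []) (.con 136 [3, 1, 1, 4, 2, 2]) (.con 136 [3, 1, 1, 4, 2, 2]) .no .no) .no
  .no) .no .no (.use 513))) .no (.red [.f 698 5 1, .f 698 1 3, .t 833 1 4, .f 953 3 1] 136 136 []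
  [(104, 136, [2, 2]), (120, 136, [2]), (136, 136, [])])) .no (.red [.f 944 5 1, .t 1073 2 3] 135
  136 [4] [(135, 136, [4])])) .no (.br 1072 (.con 136 [4, 1, 3, 2]) .no (.br 699 .no (.use 507)
  (.red [.t 706 1 4, .t 833 1 4, .f 953 3 1] 136 136 [] [(104, 136, [2, 2]), (120, 136, [2]),
  (136, 136, [])]) (.br 1098 (.hor [.f 1098 1 5] []) .no (.br 1217 (.hor [.f 1217 1 5] []) .no
  (.use 503) .no .no (.br 1073 (.br 1347 (.con 136 [3, 1, 1, 4, 2, 2]) (.hor [.f 1218 1 5] [])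
  (.con 136 [3, 1, 1, 4, 2, 2]) (.con 136 [3, 1, 1, 4, 2, 2]) .no .no) .no .no (.use 524) .no
  .no)) .no .no (.use 513)) .no (.red [.f 698 5 1, .f 698 1 3, .t 833 1 4, .f 953 3 1] 136 136 []
  [(104, 136, [2, 2]), (120, 136, [2]), (136, 136, [])])) (.con 136 [4, 1, 3, 2]) (.con 136 [4, 1,
  3, 2]) .no)) (.red [.f 816 5 1, .f 816 1 3] 119 136 [2, 4] [(119, 136, [2, 4])])) .no (.use 525)
  .no (.red [.f 1090 5 1, .f 1083 1 3, .f 955 3 1] 136 136 [] [(136, 136, []), (152, 136, [1])])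
  (.br 817 .no (.red [.f 689 1 3] 103 136 [2, 2, 4] [(103, 136, [2, 2, 4])]) .no (.use 403) (.br
  699 .no (.use 507) (.red [.t 706 1 4, .t 833 1 4, .f 953 3 1] 136 136 [] [(104, 136, [2, 2]),
  (120, 136, [2]), (136, 136, [])]) (.br 1098 (.hor [.f 1098 1 5] []) .no (.br 1097 (.con 136 [3,
  3, 1]) (.br 968 (.con 136 [3, 3, 1]) (.use 491) (.br 1096 (.br 835 .no (.hor [.f 706 1 5] [])
  (.br 1107 (.hor [.f 1099 1 3, .f 1098 3 5] [(154, 136, [3, 3, 1])]) (.con 136 [3, 3, 2, 4, 4])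
  (.br 1226 (.br 1225 (.hor [.f 1225 1 5] []) .no (.con 136 [3, 3, 1, 1]) .no .no .no) .no (.hor
  [.f 1098 3 1, .f 1098 1 5] [(154, 136, [3, 3, 1])]) .no .no (.use 522)) .no .no .no) .no .no
  .no) .no (.con 136 [3, 3, 1]) .no .no .no) .no .no .no) (.hor [.f 1097 3 5] []) .no .no (.con
  136 [3, 3, 1])) .no .no (.use 513)) .no (.red [.f 698 5 1, .f 698 1 3, .t 833 1 4, .f 953 3 1]
  136 136 [] [(104, 136, [2, 2]), (120, 136, [2]), (136, 136, [])])) (.red [.f 816 5 1, .f 816 1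
  3] 119 136 [2, 4] [(119, 136, [2, 4])]))

def c11t527 : Tr4 :=
  .br 817 .no (.red [.f 689 1 3] 103 136 [2, 2, 4] [(103, 136, [2, 2, 4])]) .no (.use 403) (.br
  699 .no (.use 507) (.red [.t 706 1 4, .t 833 1 4, .f 953 3 1] 136 136 [] [(104, 136, [2, 2]),
  (120, 136, [2]), (136, 136, [])]) (.br 1098 .no .no (.hor [.f 1098 3 5] []) .no .no (.use 520))
  .no (.red [.f 698 5 1, .f 698 1 3, .t 833 1 4, .f 953 3 1] 136 136 [] [(104, 136, [2, 2]), (120,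
  136, [2]), (136, 136, [])])) (.red [.f 816 5 1, .f 816 1 3] 119 136 [2, 4] [(119, 136, [2, 4])])

def c11t528 : Tr4 :=
  .br 1219 (.hor [.f 1218 1 5] []) .no (.red [.t 1226 2 4, .f 962 3 1, .t 1089 4 2] 136 136 []
  [(136, 136, []), (137, 136, [3]), (153, 136, [1, 3])]) .no .no .no

def c11t529 : Tr4 :=
  .br 817 .no (.red [.f 689 1 3] 103 136 [2, 2, 4] [(103, 136, [2, 2, 4])]) .no (.use 403) (.br
  699 .no (.use 507) (.red [.t 706 1 4, .t 833 1 4, .f 953 3 1] 136 136 [] [(104, 136, [2, 2]),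
  (120, 136, [2]), (136, 136, [])]) (.br 1098 (.use 528) .no (.hor [.f 1098 3 5] []) .no .no (.use
  520)) .no (.red [.f 698 5 1, .f 698 1 3, .t 833 1 4, .f 953 3 1] 136 136 [] [(104, 136, [2, 2]),
  (120, 136, [2]), (136, 136, [])])) (.red [.f 816 5 1, .f 816 1 3] 119 136 [2, 4] [(119, 136, [2,
  4])])

def c11t530 : Tr4 :=
  .br 1346 (.br 1345 (.hor [.f 1345 1 5] []) .no (.con 136 [3, 1, 1, 1]) .no .no .no) .no (.hor
  [.f 1219 1 3, .f 1346 3 5] [(169, 136, [3, 1, 1])]) .no .no (.hor [.f 1217 5 1, .f 1216 1 5, .f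
  1218 1 5] [])

def c11t531 : Tr4 :=
  .br 1346 (.br 1345 (.hor [.f 1345 1 5] []) .no (.con 136 [3, 1, 1, 1]) .no .no .no) .no (.hor
  [.f 1219 1 3, .f 1346 3 5] [(169, 136, [3, 1, 1])]) .no .no (.hor [.f 1217 5 1, .f 1216 1 5, .f
  1218 1 5] [])

def c11t532 : Tr4 :=
  .br 699 .no (.use 507) (.red [.t 706 1 4, .t 833 1 4, .f 953 3 1] 136 136 [] [(104, 136, [2,
  2]), (120, 136, [2]), (136, 136, [])]) (.br 1098 (.br 1219 (.br 1209 (.hor [.f 1209 1 5] []) .no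
  .no .no .no (.br 1216 (.br 835 .no (.hor [.f 706 1 5] []) (.br 971 .no .no (.br 969 (.br 968
  (.red [.f 971 3 1, .t 970 4 1, .t 1089 4 2, .t 1080 4 2] 136 136 [] [(135, 136, [4]), (136, 136,
  []), (137, 136, [3]), (138, 136, [3, 3])]) (.use 491) (.br 1096 (.br 1227 (.br 1337 (.use 530)
  .no (.hor [.t 1344 2 4, .f 1209 1 5] [(168, 136, [1, 1])]) (.hor [.t 1072 3 1, .f 1201 3 1, .f
  1209 1 5] [(151, 135, [1]), (167, 135, [1, 1])]) .no (.use 531)) .no (.hor [.f 1099 3 1, .f 1098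
  1 5] [(154, 153, [3])]) .no .no .no) .no (.hor [.f 968 3 1, .f 968 1 5] [(138, 137, [3])]) .no
  .no .no) .no .no .no) (.red [.f 971 3 1, .t 970 4 1, .t 1089 4 2, .t 1080 4 2] 136 136 [] [(135,
  136, [4]), (136, 136, []), (137, 136, [3]), (138, 136, [3, 3])]) (.red [.f 971 3 1, .t 970 4 1,
  .t 1089 4 2, .t 1080 4 2] 136 136 [] [(135, 136, [4]), (136, 136, []), (137, 136, [3]), (138,
  136, [3, 3])]) .no .no (.use 512)) .no .no .no) .no .no .no) .no (.con 136 [3, 1, 1]) .no .no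
  .no)) .no (.red [.t 1226 2 4, .f 962 3 1, .t 1089 4 2] 136 136 [] [(136, 136, []), (137, 136,
  [3]), (153, 136, [3, 1])]) .no .no .no) .no (.hor [.f 1098 3 5] []) .no .no (.use 520)) .no
  (.red [.f 698 5 1, .f 698 1 3, .t 833 1 4, .f 953 3 1] 136 136 [] [(104, 136, [2, 2]), (120,
  136, [2]), (136, 136, [])])

def c11t533 : Tr4 :=
  .br 1209 (.hor [.f 1209 1 5] []) .no .no (.use 523) .no .no

def c11t534 : Tr4 :=
  .br 1337 (.con 136 [1, 4, 1, 3, 2, 4, 1, 3]) (.hor [.f 1209 1 5] []) (.con 136 [1, 4, 1, 3, 2,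
  4, 1, 3]) (.con 136 [1, 4, 1, 3, 2, 4, 1, 3]) .no (.con 136 [1, 4, 1, 3, 2, 4, 1, 3])

def c11l20 : List Tr4 :=
  [c11t516, c11t517, c11t518, c11t519, c11t520, c11t521, c11t522, c11t523, c11t524, c11t525,
  c11t526, c11t527, c11t528, c11t529, c11t530, c11t531, c11t532, c11t533, c11t534]

theorem c11k20 : chkLF ⟨4, 1, 0, true, -8⟩ true 0 c11N 516 c11l20 = true := by decide +kernel

end Pool.Agent.FT4D
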