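import Pool.Agent.FT4D.Tab_c11

/-!
# Four levels: decision trees (found by a computer search)
-/

namespace Pool.Agent.FT4D

def c11t535 : Tr4 :=
  .br 698 .no (.br 1203 (.br 936 (.red [.t 1064 2 3, .t 1073 2 3] 135 136 [4] [(134, 136, [4, 4]),
  (135, 136, [4])]) (.br 1066 .no (.red [.t 1066 2 3] 134 136 [4, 4] [(134, 136, [4, 4])]) .no
  (.br 938 .no (.br 937 .no (.use 515) .no (.con 136 [2, 4, 4, 4]) .no .no) .no (.red [.f 930 3 1]
  133 136 [4, 4, 4] [(133, 136, [4, 4, 4])]) (.red [.f 938 5 3, .f 939 3 1] 134 136 [4, 4] [(134,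
  136, [4, 4])]) (.br 809 .no (.use 373) .no (.br 929 (.red [.t 1057 2 3, .t 1066 2 3] 134 136 [4,
  4] [(133, 136, [4, 4, 4]), (134, 136, [4, 4])]) .no .no (.br 690 .no (.red [.f 562 1 3] 87 136
  [2, 2, 2, 4] [(87, 136, [2, 2, 2, 4])]) .no (.br 928 (.br 930 .no (.con 136 [2, 2, 4, 4, 4, 1])
  .no (.hor [.f 921 3 5] []) (.con 136 [4, 4, 4, 4]) .no) (.red [.f 800 1 3, .f 800 3 5] 117 136
  [2, 4, 4, 4] [(117, 136, [2, 4, 4, 4])]) .no (.hor [.f 920 3 5] []) .no .no) .no (.red [.f 689 5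
  1, .f 689 1 3] 103 136 [2, 2, 4] [(103, 136, [2, 2, 4])])) (.red [.f 929 5 3, .f 930 3 1] 133
  136 [4, 4, 4] [(133, 136, [4, 4, 4])]) (.red [.t 808 1 4] 117 136 [2, 4, 4, 4] [(117, 136, [2,
  4, 4, 4])])) (.red [.f 809 5 3, .t 808 1 3, .t 817 1 4, .f 937 3 1] 134 136 [4, 4] [(134, 136,
  [4, 4])]) .no)) .no .no) .no (.br 937 .no (.use 515) .no (.hor [.f 928 3 5] []) (.br 1064 (.br
  690 .no (.red [.f 562 1 3] 87 136 [2, 2, 2, 4] [(87, 136, [2, 2, 2, 4])]) .no (.br 816 .no (.con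
  136 [2, 2, 4, 2]) .no (.br 809 .no (.con 136 [2, 2, 4, 4, 2]) .no (.br 930 (.con 136 [4, 4, 4,
  1, 3, 2]) (.con 136 [2, 2, 4, 4, 4, 1]) .no (.br 1066 .no .no .no (.br 929 (.red [.t 1057 2 3,
  .f 928 3 5] 133 136 [4, 4, 4] [(133, 136, [4, 4, 4])]) .no .no (.hor [.f 921 3 5] []) .no .no)
  .no .no) (.con 136 [2, 2, 4, 4, 4, 1, 1]) (.red [.f 929 5 3, .f 928 3 5, .f 936 5 3, .f 937 3 1]
  134 136 [4, 4] [(134, 136, [4, 4])])) (.red [.f 809 5 1, .t 808 3 1, .f 816 1 3] 119 136 [2, 4]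
  [(118, 136, [2, 4, 4]), (119, 136, [2, 4])]) .no) .no .no) .no (.red [.f 689 5 1, .f 689 1 3]
  103 136 [2, 2, 4] [(103, 136, [2, 2, 4])])) .no .no (.red [.f 928 3 1, .t 1064 2 3] 134 136 [4,
  4] [(133, 136, [4, 4, 4]), (134, 136, [4, 4])]) .no .no) .no) (.red [.f 936 5 3, .f 937 3 1] 134
  136 [4, 4] [(134, 136, [4, 4])]) .no) .no .no (.hor [.f 1067 3 1, .f 1075 1 3, .f 1074 3 5]
  [(150, 134, [1]), (151, 135, [1])]) .no .no) .no (.hor [.f 690 3 5] []) .no .no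

def c11t536 : Tr4 :=
  .br 1075 (.red [.f 1075 1 3, .f 1074 3 5, .f 1082 5 3, .f 955 3 1] 136 136 [] [(136, 136, []),
  (151, 135, [1])]) (.br 1073 (.br 1080 (.br 1209 (.hor [.f 1209 1 5] []) .no (.br 1218 (.red [.f
  1210 1 3, .t 1210 3 2] 168 136 [1, 1] [(152, 136, [1]), (168, 136, [1, 1])]) .no (.use 527) .no
  (.red [.f 1090 5 1, .f 1083 1 3, .f 955 3 1, .f 947 1 3] 136 136 [] [(135, 136, [4]), (136, 136,
  []), (152, 136, [1])]) .no) .no .no .no) .no .no (.br 1218 (.use 529) .no (.use 527) .no (.red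
  [.f 1090 5 1, .f 1083 1 3, .f 955 3 1, .f 947 1 3] 136 136 [] [(135, 136, [4]), (136, 136, []),
  (152, 136, [1])]) (.br 817 .no (.red [.f 689 1 3] 103 136 [2, 2, 4] [(103, 136, [2, 2, 4])]) .no
  (.use 403) (.use 532) (.red [.f 816 5 1, .f 816 1 3] 119 136 [2, 4] [(119, 136, [2, 4])]))) .no
  .no) .no .no (.br 1218 (.use 529) .no (.use 527) .no (.red [.f 1090 5 1, .f 1083 1 3, .f 955 3
  1, .f 947 1 3] 136 136 [] [(135, 136, [4]), (136, 136, []), (152, 136, [1])]) (.br 817 .no (.red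
  [.f 689 1 3] 103 136 [2, 2, 4] [(103, 136, [2, 2, 4])]) .no (.use 403) (.br 699 .no (.use 507)
  (.red [.t 706 1 4, .t 833 1 4, .f 953 3 1] 136 136 [] [(104, 136, [2, 2]), (120, 136, [2]),
  (136, 136, [])]) (.br 1080 (.use 533) .no .no (.br 946 .no .no .no (.br 816 .no (.con 136 [2, 2,
  4, 4]) .no (.br 937 .no (.use 515) .no (.br 936 (.red [.t 1064 2 3, .f 808 3 1] 118 136 [2, 4,
  4] [(118, 136, [2, 4, 4]), (134, 136, [4, 4])]) .no .no (.hor [.f 928 3 5] []) .no .no) .no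
  (.red [.f 936 5 3, .f 808 3 1, .f 816 1 3] 119 136 [2, 4] [(118, 136, [2, 4, 4]), (119, 136, [2,
  4])])) .no .no) .no .no) .no .no) .no (.red [.f 698 5 1, .f 698 1 3, .t 833 1 4, .f 953 3 1] 136
  136 [] [(104, 136, [2, 2]), (120, 136, [2]), (136, 136, [])])) (.red [.f 816 5 1, .f 816 1 3]
  119 136 [2, 4] [(119, 136, [2, 4])]))) .no (.red [.f 944 5 1, .t 1073 2 3] 135 136 [4] [(135,
  136, [4])])) .no (.br 1218 (.use 529) .no (.use 527) .no (.red [.f 1090 5 1, .f 1083 1 3, .f 955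
  3 1] 136 136 [] [(136, 136, []), (152, 136, [1])]) (.br 817 .no (.red [.f 689 1 3] 103 136 [2,
  2, 4] [(103, 136, [2, 2, 4])]) .no (.use 403) (.br 947 .no (.con 136 [2, 4, 4]) .no (.red [.f
  939 3 1] 134 136 [4, 4] [(134, 136, [4, 4])]) .no (.br 1073 (.br 1080 (.use 534) .no .no (.use
  532) .no .no) .no .no (.br 1080 (.use 533) .no .no (.br 699 .no (.use 507) (.red [.t 706 1 4, .t
  833 1 4, .f 953 3 1] 136 136 [] [(104, 136, [2, 2]), (120, 136, [2]), (136, 136, [])]) (.br 1098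
  (.br 1219 (.br 969 (.br 968 (.hor [.f 968 1 5] []) (.use 491) (.br 1096 (.br 1209 (.hor [.f 1209
  1 5] []) .no .no (.br 1202 (.hor [.f 1202 1 3, .f 1201 3 5] [(167, 135, [1, 1])]) .no .no (.use
  535) (.red [.t 1082 4 1, .f 1082 5 3, .f 955 3 1] 136 136 [] [(136, 136, []), (151, 135, [1])])
  .no) .no (.br 1202 (.red [.f 1202 1 3, .f 1074 3 1, .f 1082 1 5, .f 1082 5 3, .f 955 3 1] 136
  136 [] [(136, 136, []), (151, 135, [1]), (167, 168, [4])]) .no .no (.use 535) (.red [.t 1082 4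
  1, .f 1082 5 3, .f 955 3 1] 136 136 [] [(136, 136, []), (151, 135, [1])]) (.br 1216 (.br 1337
  (.br 1227 (.use 530) .no (.hor [.f 1099 3 1, .f 1098 1 5] [(154, 153, [3])]) .no .no .no) .no
  (.hor [.t 1344 2 4, .f 1209 1 5] [(168, 136, [1, 1])]) (.hor [.t 1337 4 2, .f 1074 3 1, .f 1082
  1 5] [(151, 135, [1]), (167, 135, [1, 1])]) .no (.br 1227 (.use 531) .no (.hor [.f 1099 3 1, .f
  1098 1 5] [(154, 153, [3])]) .no .no .no)) .no .no .no .no .no))) .no (.hor [.f 968 3 1, .f 968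
  1 5] [(138, 137, [3])]) .no .no .no) .no .no .no) (.hor [.f 833 1 3, .f 961 3 5] [(121, 120,
  [3])]) (.br 968 (.con 136 [3, 3]) (.use 491) (.hor [.f 968 3 5] []) .no .no .no) .no .no (.use
  512)) .no (.red [.t 1226 2 4, .f 962 3 1, .t 1089 4 2] 136 136 [] [(136, 136, []), (137, 136,
  [3]), (153, 136, [3, 1])]) .no .no .no) .no (.hor [.f 1098 3 5] []) .no .no (.use 520)) .no
  (.red [.f 698 5 1, .f 698 1 3, .t 833 1 4, .f 953 3 1] 136 136 [] [(104, 136, [2, 2]), (120,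
  136, [2]), (136, 136, [])])) .no .no) .no (.red [.f 944 5 1, .t 1073 2 3] 135 136 [4] [(135,
  136, [4])]))) (.red [.f 816 5 1, .f 816 1 3] 119 136 [2, 4] [(119, 136, [2, 4])]))) .no .no

def c11t537 : Tr4 :=
  .br 1210 (.br 961 .no (.br 826 .no (.use 518) (.red [.t 833 1 4, .f 953 3 1, .f 960 1 5] 136 136
  [] [(120, 136, [2]), (136, 136, [])]) (.use 469) (.br 834 .no (.br 1099 (.br 825 .no (.use 526)
  .no (.red [.t 824 1 4] 119 136 [2, 4] [(119, 136, [2, 4])]) .no .no) (.red [.t 970 4 1, .t 1089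
  4 2, .f 954 3 5] 136 136 [] [(136, 136, []), (137, 136, [3])]) (.br 825 .no (.use 536) .no (.red
  [.t 824 1 4] 119 136 [2, 4] [(119, 136, [2, 4])]) .no .no) .no .no (.red [.f 1090 5 3, .f 962 3
  1, .t 1089 4 2] 136 136 [] [(136, 136, []), (137, 136, [3])])) (.hor [.f 834 3 1, .f 833 1 5]
  [(121, 120, [3])]) .no (.red [.f 826 5 3, .t 833 1 4, .f 953 3 1] 136 136 [] [(120, 136, [2]),
  (136, 136, [])]) .no) (.red [.f 825 5 1, .f 824 1 5, .t 1088 2 4] 136 136 [] [(136, 136, [])]))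
  (.hor [.f 961 3 5] []) .no .no .no) .no (.red [.t 1210 3 2, .f 955 3 1] 136 136 [] [(136, 136,
  []), (152, 136, [1])]) (.red [.f 1074 3 1, .f 1082 1 5, .f 1082 5 3, .f 955 3 1] 136 136 []
  [(136, 136, []), (151, 135, [1])]) .no (.br 961 .no (.br 826 .no (.use 518) (.red [.t 833 1 4,
  .f 953 3 1, .f 960 1 5] 136 136 [] [(120, 136, [2]), (136, 136, [])]) (.use 469) (.br 834 .no
  (.br 1218 (.br 825 .no (.br 1099 (.br 817 .no (.red [.f 689 1 3] 103 136 [2, 2, 4] [(103, 136,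
  [2, 2, 4])]) .no (.use 403) (.br 699 .no (.use 507) (.red [.t 706 1 4, .t 833 1 4, .f 953 3 1]
  136 136 [] [(104, 136, [2, 2]), (120, 136, [2]), (136, 136, [])]) (.br 1098 (.use 528) .no (.br
  1097 (.con 136 [3, 3, 1]) (.br 968 (.con 136 [3, 3, 1]) (.use 491) (.br 1217 (.hor [.f 1217 1 5]
  []) .no (.use 503) .no .no (.br 1096 (.br 835 .no (.hor [.f 706 1 5] []) (.br 1107 (.hor [.f
  1099 1 3, .f 1098 3 5] [(154, 136, [3, 3, 1])]) (.con 136 [3, 3, 2, 4, 4]) (.br 1226 (.br 1225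
  (.hor [.f 1225 1 5] []) .no (.con 136 [3, 3, 1, 1]) .no .no .no) .no (.hor [.f 1098 3 1, .f 1098
  1 5] [(154, 136, [3, 3, 1])]) .no .no (.use 522)) .no .no .no) .no .no .no) .no (.con 136 [3, 3,
  1]) .no .no .no)) .no .no .no) (.hor [.f 1097 3 5] []) .no .no (.con 136 [3, 3, 1])) .no .no
  (.use 513)) .no (.red [.f 698 5 1, .f 698 1 3, .t 833 1 4, .f 953 3 1] 136 136 [] [(104, 136,
  [2, 2]), (120, 136, [2]), (136, 136, [])])) (.red [.f 816 5 1, .f 816 1 3] 119 136 [2, 4] [(119,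
  136, [2, 4])])) (.red [.t 970 4 1, .t 1089 4 2, .f 954 3 5] 136 136 [] [(136, 136, []), (137,
  136, [3])]) (.use 529) .no .no (.red [.f 1090 5 3, .f 962 3 1, .t 1089 4 2] 136 136 [] [(136,
  136, []), (137, 136, [3])])) .no (.red [.t 824 1 4] 119 136 [2, 4] [(119, 136, [2, 4])]) .no
  .no) .no (.br 1099 (.use 525) (.red [.t 970 4 1, .t 1089 4 2, .f 954 3 5] 136 136 [] [(136, 136,
  []), (137, 136, [3])]) (.br 825 .no (.use 527) .no (.red [.t 824 1 4] 119 136 [2, 4] [(119, 136,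
  [2, 4])]) .no .no) .no .no (.red [.f 1090 5 3, .f 962 3 1, .t 1089 4 2] 136 136 [] [(136, 136,
  []), (137, 136, [3])])) .no (.red [.f 1090 5 1, .f 1083 1 3, .f 955 3 1] 136 136 [] [(136, 136,
  []), (152, 136, [1])]) (.red [.f 1209 5 3, .t 1210 3 2, .f 955 3 1] 136 136 [] [(136, 136, []),
  (152, 136, [1])])) (.hor [.f 834 3 1, .f 833 1 5] [(121, 120, [3])]) .no (.red [.f 826 5 3, .t
  833 1 4, .f 953 3 1] 136 136 [] [(120, 136, [2]), (136, 136, [])]) .no) (.red [.f 825 5 1, .f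
  824 1 5, .t 1088 2 4] 136 136 [] [(136, 136, [])])) (.hor [.f 961 3 5] []) .no .no .no)

def c11t538 : Tr4 :=
  .br 962 .no (.use 343) (.br 1089 (.br 1081 (.red [.f 1081 1 3] 152 136 [1] [(152, 136, [1])])
  .no .no (.use 183) .no (.br 1218 (.br 1210 (.red [.f 1210 1 3, .t 1210 3 2] 152 136 [1] [(152,
  136, [1]), (168, 136, [1, 1])]) .no .no (.red [.f 1074 3 1, .f 1082 1 5, .f 1082 5 3, .f 955 3
  1] 136 136 [] [(136, 136, []), (151, 135, [1])]) .no (.use 521)) .no (.use 192) (.red [.t 1210 3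
  2, .f 1089 1 5] 152 136 [1] [(152, 136, [1])]) (.red [.f 1090 5 1, .f 1083 1 3] 152 136 [1]
  [(152, 136, [1])]) .no)) (.con 136 [3]) (.con 136 [3, 1]) (.br 945 (.red [.t 1073 2 3] 135 136
  [4] [(135, 136, [4])]) (.use 517) .no (.br 944 (.br 1073 (.br 1210 (.br 946 .no (.br 961 .no
  (.br 825 .no (.br 826 .no (.hor [.f 697 1 5] []) (.red [.t 833 1 4, .f 953 3 1, .f 960 1 5] 136
  136 [] [(120, 136, [2]), (136, 136, [])]) .no (.br 834 .no (.br 1209 (.hor [.f 1209 1 5] []) .no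
  (.br 1208 (.con 136 [4, 1, 3, 2]) (.br 817 .no (.red [.f 689 1 3] 103 136 [2, 2, 4] [(103, 136,
  [2, 2, 4])]) .no (.red [.f 809 3 1, .f 817 1 5, .f 945 5 3, .f 946 3 1] 135 136 [4] [(118, 134,
  [2]), (135, 136, [4])]) .no (.br 699 .no (.use 507) (.red [.t 706 1 4, .t 833 1 4, .f 953 3 1]
  136 136 [] [(104, 136, [2, 2]), (120, 136, [2]), (136, 136, [])]) (.use 485) .no (.red [.f 698 5
  1, .f 697 1 5, .f 825 5 1, .f 818 1 3] 119 136 [2, 4] [(119, 136, [2, 4])]))) (.con 136 [4, 1,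
  3, 2]) (.con 136 [4, 1, 3, 2]) .no .no) .no .no (.con 136 [4, 1, 3, 2])) (.hor [.f 834 3 1, .f
  833 1 5] [(121, 120, [3])]) .no (.red [.f 826 5 3, .t 833 1 4, .f 953 3 1] 136 136 [] [(120,
  136, [2]), (136, 136, [])]) .no) .no) .no (.use 494) (.red [.f 825 5 1, .f 824 1 5, .t 1088 2 4]
  136 136 [] [(136, 136, [])]) .no) (.hor [.f 961 3 5] []) .no .no .no) .no (.hor [.f 937 3 5] [])
  (.con 136 [4, 4]) .no) .no (.red [.t 1210 3 2, .f 955 3 1] 136 136 [] [(136, 136, []), (152,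
  136, [1])]) (.red [.f 1074 3 1, .f 1082 1 5, .f 1082 5 3, .f 955 3 1] 136 136 [] [(136, 136,
  []), (151, 135, [1])]) .no (.red [.t 1073 1 3, .f 1082 1 5, .f 1082 5 3, .f 955 3 1] 136 136 []
  [(136, 136, []), (151, 135, [1])])) .no .no (.red [.f 937 3 1, .f 944 1 5] 134 136 [4, 4] [(134,
  136, [4, 4])]) .no .no) (.red [.f 816 1 3] 119 136 [2, 4] [(119, 136, [2, 4])]) .no (.hor [.f
  936 3 5] []) .no .no) (.red [.f 945 5 3, .f 946 3 1, .t 954 1 3] 136 136 [] [(135, 136, [4]),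
  (136, 136, [])]) (.use 537)) .no .no) .no .no (.br 1081 (.br 1089 (.red [.f 1081 1 3] 152 136
  [1] [(152, 136, [1])]) .no (.con 136 [3, 1]) .no .no .no) .no (.red [.f 953 5 3, .f 953 3 1, .f
  954 3 5, .f 960 1 5] 136 136 [] [(136, 136, [])]) (.hor [.f 1073 3 5] []) .no (.red [.f 953 5 3,
  .t 960 1 4] 136 136 [] [(136, 136, [])]))

def c11t539 : Tr4 :=
  .br 1082 (.br 1083 (.hor [.f 1082 1 5] []) .no .no (.br 1081 (.hor [.f 1081 1 5] []) .no (.br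
  962 .no (.use 343) (.br 1211 (.br 944 (.con 136 [4, 1]) (.red [.f 816 1 3] 119 136 [2, 4] [(119,
  136, [2, 4])]) .no (.use 508) (.br 1080 (.con 136 [4, 1]) .no .no (.br 1074 (.red [.f 1074 1 3,
  .f 1074 3 5] 151 136 [4, 1] [(151, 136, [4, 1])]) (.con 136 [4, 4]) .no (.use 509) .no (.br 1209
  (.br 1203 (.red [.f 1203 1 3] 167 136 [4, 1, 1] [(167, 136, [4, 1, 1])]) .no .no (.use 510) .no
  (.red [.t 1082 1 4] 151 136 [4, 1] [(151, 136, [4, 1])])) .no (.red [.f 1081 3 1, .f 1081 1 5,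
  .f 953 5 1, .t 954 1 3] 136 136 [] [(136, 136, []), (152, 136, [1])]) (.red [.t 1209 4 2, .f
  1074 3 5] 151 136 [4, 1] [(151, 136, [4, 1])]) .no (.br 1203 (.red [.f 1203 1 3] 167 136 [4, 1,
  1] [(167, 136, [4, 1, 1])]) .no .no (.use 511) .no (.red [.t 1082 1 4] 151 136 [4, 1] [(151,
  136, [4, 1])])))) .no .no) .no) .no (.br 944 (.con 136 [4, 1]) (.red [.f 816 1 3] 119 136 [2, 4]
  [(119, 136, [2, 4])]) .no (.use 508) (.br 1080 (.con 136 [4, 1]) .no .no (.br 1074 (.red [.f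
  1074 1 3, .f 1074 3 5] 151 136 [4, 1] [(151, 136, [4, 1])]) (.con 136 [4, 4]) .no (.use 509) .no
  (.br 961 .no (.br 825 .no (.br 826 .no (.hor [.f 697 1 5] []) (.red [.t 833 1 4, .f 953 3 1, .f
  960 1 5] 136 136 [] [(120, 136, [2]), (136, 136, [])]) (.use 357) (.br 834 .no (.use 516) (.hor
  [.f 834 3 1, .f 833 1 5] [(121, 120, [3])]) .no (.red [.f 826 5 3, .t 833 1 4, .f 953 3 1] 136
  136 [] [(120, 136, [2]), (136, 136, [])]) .no) .no) .no (.red [.t 824 1 4] 119 136 [2, 4] [(119,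
  136, [2, 4])]) (.red [.f 825 5 1, .f 824 1 5, .t 1088 2 4] 136 136 [] [(136, 136, [])]) .no)
  (.hor [.f 961 3 5] []) .no .no .no)) .no .no) .no) (.red [.f 1075 3 1, .f 1082 1 5] 151 136 [4,
  1] [(151, 136, [4, 1])]) .no .no) .no .no (.red [.f 953 5 3, .f 953 3 1, .f 954 3 5, .f 960 1 5]
  136 136 [] [(136, 136, [])])) (.con 136 [4, 1]) .no (.con 136 [4, 1])) .no .no) .no .no (.br
  1083 (.use 538) .no .no (.hor [.f 1074 3 5] []) .no .no) (.red [.f 1082 5 3, .f 955 3 1] 136 136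
  [] [(136, 136, [])]) (.red [.f 953 5 1, .t 954 1 3] 136 136 [] [(136, 136, [])])

def c11l21 : List Tr4 :=
  [c11t535, c11t536, c11t537, c11t538, c11t539]

theorem c11k21 : chkLF ⟨4, 1, 0, true, -8⟩ true 0 c11N 535 c11l21 = true := by decide +kernel

def c11t540 : Tr4 :=
  .br 955 (.con 136 [2]) (.con 136 [2]) (.br 1091 (.br 1083 (.red [.f 1083 1 3, .f 955 3 1] 136
  136 [] [(136, 136, []), (152, 136, [1])]) .no .no (.br 1082 (.br 1081 (.hor [.f 1081 1 5] [])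
  .no (.br 1090 (.hor [.f 1090 1 5] []) (.red [.t 1089 4 2, .f 954 3 5] 136 136 [] [(136, 136,
  [])]) (.use 344) .no .no .no) (.con 136 [4, 1]) .no (.con 136 [4, 1])) .no (.use 345) (.hor [.f
  1074 3 5] []) .no (.use 349)) .no (.br 962 (.red [.t 962 1 4] 136 136 [] [(136, 136, [])]) (.use
  343) (.br 1090 (.hor [.f 1090 1 5] []) .no (.red [.f 962 3 1, .t 962 1 4] 136 136 [] [(136, 136,
  []), (137, 136, [3])]) .no .no (.br 960 (.use 496) (.con 136 [3]) (.con 136 [3]) .no (.con 136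
  [3]) .no)) .no .no (.br 1090 (.hor [.f 1090 1 5] []) .no (.br 1089 (.br 1081 (.red [.f 1081 1 3]
  152 136 [1] [(152, 136, [1])]) .no .no (.use 179) .no (.br 960 (.red [.f 953 5 3, .t 960 1 4]
  136 136 [] [(136, 136, [])]) (.con 136 [3]) (.con 136 [3]) .no .no .no)) .no (.hor [.f 1089 3 5]
  []) (.use 344) .no (.con 136 [3])) .no .no (.red [.f 961 5 1, .t 962 1 4] 136 136 [] [(136, 136,
  [])])))) .no (.br 1089 (.use 501) (.con 136 [1, 3]) (.con 136 [1, 3]) (.br 1090 (.con 136 [1,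
  3]) (.red [.t 1089 4 2, .f 954 3 5] 136 136 [] [(136, 136, [])]) (.use 344) (.con 136 [1, 3])
  .no .no) (.con 136 [1, 3]) (.con 136 [1, 3])) (.red [.f 955 3 1] 136 136 [] [(136, 136, [])])
  .no (.br 960 (.use 539) (.con 136 [3]) (.con 136 [3]) .no (.con 136 [3]) .no)) (.con 136 [2])
  .no .no

def c11t541 : Tr4 :=
  .br 953 (.br 1082 (.con 136 [4]) (.hor [.f 953 1 5] []) (.con 136 [4]) (.con 136 [4]) (.con 136
  [4]) .no) (.hor [.f 824 1 5] []) (.br 960 (.use 255) (.br 962 (.use 260) (.con 136 [3]) (.con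
  136 [3]) (.con 136 [3]) (.con 136 [3]) .no) (.br 962 (.br 1081 (.br 1089 (.red [.f 1081 1 3, .f
  953 3 1] 136 136 [] [(136, 136, []), (152, 136, [1])]) .no (.use 261) .no .no (.br 1082 (.hor
  [.f 1081 1 5] []) (.red [.f 954 1 3, .f 953 3 5] 136 136 [] [(136, 136, [])]) .no (.use 257)
  (.br 955 .no (.br 1091 (.br 954 .no (.hor [.f 826 1 5] []) .no (.br 947 (.red [.t 946 3 1, .f
  954 1 3, .f 953 3 5] 136 136 [] [(135, 136, [4]), (136, 136, [])]) (.red [.f 819 1 3, .f 946 3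
  5, .f 954 5 1, .f 954 1 3] 136 136 [] [(119, 120, [4]), (136, 136, [])]) .no (.br 1075 (.br 1210
  (.br 1218 (.red [.f 1210 1 3, .t 1218 4 2] 152 136 [1] [(152, 136, [1]), (168, 136, [1, 1])])
  .no (.br 1216 (.use 262) .no (.con 136 [3, 1, 1]) (.red [.t 1208 3 2] 152 136 [1] [(152, 136,
  [1])]) (.con 136 [3, 1, 1]) .no) .no .no (.br 1216 (.use 262) .no (.con 136 [3, 1, 1]) (.red [.t
  1208 3 2] 152 136 [1] [(152, 136, [1])]) .no .no)) .no (.red [.t 1218 4 2, .f 1081 1 5] 152 136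
  [1] [(152, 136, [1])]) (.red [.t 1202 3 2, .f 1081 1 5, .t 961 4 1] 136 136 [] [(136, 136, []),
  (151, 167, [2])]) (.red [.f 1082 5 1, .f 1083 1 3] 152 136 [1] [(152, 136, [1])]) .no) .no .no
  (.red [.f 939 3 1, .t 946 3 1, .f 954 1 3] 136 136 [] [(134, 136, [4, 4]), (135, 136, [4]),
  (136, 136, [])]) .no (.red [.f 1074 5 3, .f 946 3 1, .f 954 1 3] 136 136 [] [(135, 136, [4]),
  (136, 136, [])])) .no .no) .no .no) (.con 136 [3]) (.con 136 [3, 1]) .no .no .no) (.red [.t 962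
  1 4] 136 136 [] [(136, 136, [])]) (.use 149) .no (.red [.f 954 5 1, .f 954 1 3] 136 136 []
  [(136, 136, [])])) .no)) .no (.red [.f 953 3 1, .f 961 1 5] 136 136 [] [(136, 136, [])]) (.use
  174) (.red [.t 961 4 1] 136 136 [] [(136, 136, [])]) (.use 264)) (.con 136 [3]) (.con 136 [3])
  (.con 136 [3]) (.con 136 [3]) .no) .no .no .no) (.br 955 (.con 136 [2]) (.con 136 [2]) (.br 954
  (.br 1091 (.br 1083 (.red [.f 1083 1 3, .f 955 3 1, .f 954 1 5] 136 136 [] [(136, 136, []),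
  (152, 136, [1])]) .no .no (.use 342) .no .no) .no (.br 1090 (.br 1081 (.con 136 [1, 3]) .no
  (.con 136 [1, 3]) (.con 136 [1, 3]) .no (.con 136 [1, 3])) (.red [.f 954 1 3, .f 954 3 5] 136
  136 [] [(136, 136, [])]) (.hor [.f 1090 3 5] []) .no .no (.con 136 [1, 3])) (.red [.f 955 3 1,
  .f 954 1 5] 136 136 [] [(136, 136, [])]) .no (.red [.t 954 1 3] 136 136 [] [(136, 136, [])]))
  (.con 136 [2, 4]) (.con 136 [2]) (.hor [.f 945 3 5] []) .no .no) (.con 136 [2]) .no (.con 136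
  [2])) (.use 540) .no

def c11t542 : Tr4 :=
  .br 961 (.con 136 [3]) (.hor [.f 833 1 5] []) (.con 136 [3, 2]) .no .no .no

def c11t543 : Tr4 :=
  .br 1090 (.br 1089 (.con 136 [1, 3]) (.con 136 [3]) (.con 136 [1, 3]) (.con 136 [1, 3]) .no
  (.con 136 [3])) (.red [.f 954 1 3, .f 954 3 5] 136 136 [] [(136, 136, [])]) (.hor [.f 1090 3 5]
  []) .no .no (.con 136 [1, 3])

def c11t544 : Tr4 :=
  .br 1080 (.con 136 [4, 1]) .no (.con 136 [4, 1]) (.red [.f 944 3 1] 135 136 [4] [(135, 136,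
  [4])]) (.con 136 [4, 1]) .no

def c11t545 : Tr4 :=
  .br 1074 (.hor [.f 1073 1 5] []) .no .no (.br 1075 (.con 136 [4, 4, 1]) (.red [.t 946 3 1] 135
  136 [4] [(135, 136, [4])]) .no (.hor [.f 1066 3 5] []) .no .no) (.red [.f 1074 5 3, .f 946 3 1]
  135 136 [4] [(135, 136, [4])]) .no

def c11t546 : Tr4 :=
  .br 1209 (.br 1208 (.hor [.f 1208 1 5] []) .no (.red [.t 1216 4 2] 152 136 [1] [(152, 136,
  [1])]) (.con 136 [1, 1, 4]) .no .no) .no .no (.hor [.f 1201 3 5] []) .no (.red [.f 1080 5 1, .f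
  1081 1 3] 152 136 [1] [(152, 136, [1])])

def c11t547 : Tr4 :=
  .br 1208 (.br 1216 (.red [.f 1208 1 3, .t 1216 4 2] 152 136 [1] [(152, 136, [1]), (168, 136, [1,
  1])]) .no (.br 1096 .no (.br 969 .no (.use 267) (.hor [.f 960 1 3, .f 960 3 1, .f 969 3 1, .f
  968 1 5] [(138, 136, [3, 3])]) .no (.red [.f 960 1 3, .f 961 5 3, .f 962 3 1, .t 962 1 4] 136
  136 [] [(136, 136, [])]) .no) (.hor [.f 1096 3 5] []) .no .no .no) .no .no .no) .no (.red [.t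
  1216 4 2] 152 136 [1] [(152, 136, [1])]) (.con 136 [4, 1, 4]) .no .no

def c11t548 : Tr4 :=
  .br 947 .no (.br 827 .no (.hor [.f 698 1 5] []) (.con 136 [2, 2]) .no .no .no) .no (.red [.f 939
  3 1, .t 946 3 1] 135 136 [4] [(134, 136, [4, 4]), (135, 136, [4])]) .no .no

def c11t549 : Tr4 :=
  .br 938 (.red [.t 937 3 1, .t 944 3 1] 135 136 [4] [(134, 136, [4, 4]), (135, 136, [4])]) .no
  .no (.br 939 .no (.hor [.f 811 1 3, .f 810 3 5] [(118, 136, [2, 4, 4])]) .no (.hor [.f 930 3 5]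
  []) .no .no) (.red [.t 818 4 1, .f 939 3 1] 134 136 [4, 4] [(118, 136, [2, 4, 4]), (134, 136,
  [4, 4])]) .no

def c11t550 : Tr4 :=
  .br 947 .no (.br 818 .no (.hor [.f 690 1 3, .f 818 3 1, .f 818 1 5] [(103, 120, [4, 2]), (119,
  120, [4])]) .no (.use 549) .no (.hor [.t 953 2 4, .f 818 1 5] [(119, 120, [4])])) .no (.red [.f
  939 3 1, .t 946 3 1] 135 136 [4] [(134, 136, [4, 4]), (135, 136, [4])]) .no .no

def c11t551 : Tr4 :=
  .br 1081 (.red [.f 1081 1 3] 152 136 [1] [(152, 136, [1])]) .no .no (.br 1080 (.con 136 [4, 1])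
  .no .no (.red [.f 944 3 1, .f 952 1 3] 136 136 [] [(135, 136, [4]), (136, 136, [])]) .no .no)
  .no (.br 945 (.red [.t 944 3 1, .f 952 1 3] 136 136 [] [(135, 136, [4]), (136, 136, [])]) (.hor
  [.f 817 1 3, .f 944 3 5] [(119, 120, [4])]) .no (.br 1073 (.use 545) .no .no (.red [.f 937 3 1,
  .t 944 3 1] 135 136 [4] [(134, 136, [4, 4]), (135, 136, [4])]) (.br 826 .no (.br 1210 (.red [.f
  1210 1 3, .t 1218 4 2] 152 136 [1] [(152, 136, [1]), (168, 136, [1, 1])]) .no .no (.use 546)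
  (.red [.f 1082 5 1, .f 1083 1 3] 152 136 [1] [(152, 136, [1])]) (.br 1097 (.hor [.f 1089 1 3, .f
  1089 3 5] [(153, 137, [1])]) (.red [.t 1097 2 4, .t 962 1 4] 136 136 [] [(136, 136, []), (137,
  136, [3])]) (.br 824 .no (.br 1075 (.use 547) (.red [.t 946 3 1] 135 136 [4] [(135, 136, [4])])
  .no (.use 548) .no .no) (.br 1075 (.use 547) (.red [.t 946 3 1] 135 136 [4] [(135, 136, [4])])
  .no (.use 550) .no .no) (.hor [.f 816 3 1, .f 824 1 5] [(119, 120, [4])]) .no .no) .no .no (.br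
  1216 (.br 1208 (.red [.f 1208 1 3, .t 1216 4 2] 152 136 [1] [(152, 136, [1]), (168, 136, [1,
  1])]) .no .no (.br 1075 (.con 136 [4, 1, 4]) (.red [.t 946 3 1] 135 136 [4] [(135, 136, [4])])
  .no (.br 824 .no (.use 548) (.use 550) (.hor [.f 816 3 1, .f 824 1 5] [(119, 120, [4])]) .no
  .no) .no .no) .no .no) .no (.hor [.t 1216 3 2, .f 1089 3 5] [(153, 137, [1])]) (.red [.t 1216 4
  2] 152 136 [1] [(152, 136, [1])]) .no .no))) (.red [.t 825 1 3, .t 960 1 4] 136 136 [] [(120,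
  136, [2]), (136, 136, [])]) (.hor [.f 818 3 1, .f 825 1 5] [(119, 120, [4])]) (.br 1210 (.red
  [.f 1210 1 3, .t 1218 4 2] 152 136 [1] [(152, 136, [1]), (168, 136, [1, 1])]) .no .no (.use 546)
  (.red [.f 1082 5 1, .f 1083 1 3] 152 136 [1] [(152, 136, [1])]) (.br 947 (.red [.t 946 3 1] 135
  136 [4] [(135, 136, [4])]) (.hor [.t 946 3 2, .f 825 1 5] [(119, 120, [4])]) .no (.br 1075 (.br
  1097 (.hor [.f 1089 1 3, .f 1089 3 5] [(153, 137, [1])]) (.red [.t 1097 2 4, .t 962 1 4] 136 136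
  [] [(136, 136, []), (137, 136, [3])]) (.use 547) .no .no (.br 1216 (.br 1208 (.red [.f 1208 1 3,
  .t 1216 4 2] 152 136 [1] [(152, 136, [1]), (168, 136, [1, 1])]) .no .no (.con 136 [4, 1, 4]) .no
  .no) .no (.hor [.t 1216 3 2, .f 1089 3 5] [(153, 137, [1])]) (.red [.t 1216 4 2] 152 136 [1]
  [(152, 136, [1])]) .no .no)) .no .no (.red [.f 939 3 1, .t 946 3 1] 135 136 [4] [(134, 136, [4,
  4]), (135, 136, [4])]) .no .no) .no .no)) .no) (.red [.f 1072 5 3, .f 944 3 1, .f 952 1 3] 136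
  136 [] [(135, 136, [4]), (136, 136, [])])) .no .no)

def c11t552 : Tr4 :=
  .br 1072 (.red [.f 1072 1 3, .f 944 3 1, .f 952 1 3, .f 1080 3 5] 136 136 [] [(135, 136, [4]),
  (136, 136, []), (151, 136, [4, 1])]) .no .no (.br 1074 (.hor [.f 1074 1 5] []) .no .no (.con 136
  [4, 1, 4]) .no (.con 136 [4, 4, 1])) (.br 1074 (.hor [.f 1074 1 5] []) .no .no (.con 136 [4, 4,
  1]) .no .no) .no

def c11t553 : Tr4 :=
  .br 1201 (.hor [.f 1201 1 5] []) .no .no (.con 136 [4, 4, 1, 1]) .no .no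

def c11t554 : Tr4 :=
  .br 1067 (.red [.f 1067 1 3] 150 136 [4, 4, 1] [(150, 136, [4, 4, 1])]) (.con 136 [4, 4, 4]) .no
  (.hor [.f 1058 3 5] []) .no .no

def c11t555 : Tr4 :=
  .br 1065 (.red [.t 1193 2 3, .f 1074 1 5] 150 136 [4, 4, 1] [(150, 136, [4, 4, 1])]) .no .no
  (.hor [.f 1057 3 5] []) .no (.use 554)

def c11t556 : Tr4 :=
  .br 1072 (.br 1202 (.use 553) .no .no (.br 1066 .no (.red [.t 937 3 1, .t 944 3 1] 135 136 [4]
  [(134, 136, [4, 4]), (135, 136, [4])]) .no (.use 555) (.red [.t 1202 4 2] 150 136 [4, 4, 1]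
  [(150, 136, [4, 4, 1])]) (.red [.f 1065 5 3, .f 1066 3 1] 150 136 [4, 4, 1] [(150, 136, [4, 4,
  1])])) .no (.red [.f 1201 5 3, .t 1200 2 3, .f 944 3 1] 135 136 [4] [(135, 136, [4]), (151, 136,
  [4, 1])])) .no .no (.con 136 [4, 4, 1]) .no .no

def c11l22 : List Tr4 :=
  [c11t540, c11t541, c11t542, c11t543, c11t544, c11t545, c11t546, c11t547, c11t548, c11t549,
  c11t550, c11t551, c11t552, c11t553, c11t554, c11t555, c11t556]

theorem c11k22 : chkLF ⟨4, 1, 0, true, -8⟩ true 0 c11N 540 c11l22 = true := by decide +kernel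

def c11t557 : Tr4 :=
  .br 1090 (.hor [.f 1090 1 5] []) (.red [.t 962 1 4] 136 136 [] [(136, 136, [])]) (.br 960 (.br
  962 .no (.use 542) (.red [.f 962 3 1, .t 962 1 4] 136 136 [] [(136, 136, []), (137, 136, [3])])
  .no .no (.br 1089 (.br 1218 (.use 551) .no (.hor [.f 1090 3 1, .f 1089 1 5] [(153, 137, [1])])
  (.red [.t 1218 4 2] 152 136 [1] [(152, 136, [1])]) .no .no) .no (.hor [.f 1089 3 5] []) (.br
  1080 (.br 826 .no (.br 1075 (.use 552) (.red [.t 946 3 1, .t 1081 3 2, .f 954 3 5] 136 136 []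
  [(135, 136, [4]), (136, 136, [])]) .no (.br 824 .no (.use 548) (.br 833 .no (.br 947 .no (.br
  827 .no (.hor [.f 698 1 5] []) (.br 834 .no (.hor [.f 705 1 5] []) (.con 136 [2, 2, 3]) .no .no
  .no) .no .no .no) .no (.red [.f 939 3 1, .t 946 3 1, .t 1081 3 2] 136 136 [] [(134, 136, [4,
  4]), (135, 136, [4]), (136, 136, [])]) .no .no) (.br 947 .no (.br 827 .no (.hor [.f 698 1 5] [])
  (.br 834 .no (.hor [.f 827 3 1, .f 698 1 3, .t 825 1 3, .f 834 1 5] [(104, 136, [2, 2])]) (.hor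
  [.f 833 3 5] []) .no .no .no) .no .no .no) .no (.red [.f 939 3 1, .t 946 3 1, .t 1081 3 2] 136
  136 [] [(134, 136, [4, 4]), (135, 136, [4]), (136, 136, [])]) .no .no) .no (.red [.f 833 5 1, .f
  825 1 3, .f 953 3 1] 136 136 [] [(120, 136, [2]), (136, 136, [])]) .no) (.hor [.f 816 3 1, .f
  824 1 5] [(119, 120, [4])]) .no .no) .no (.red [.f 1074 5 3, .f 946 3 1, .t 1081 3 2] 136 136 []
  [(135, 136, [4]), (136, 136, [])])) (.red [.t 825 1 3, .f 953 3 1, .f 960 1 5] 136 136 [] [(120,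
  136, [2]), (136, 136, [])]) (.hor [.f 818 3 1, .f 825 1 5] [(119, 120, [4])]) (.br 1075 (.use
  552) (.red [.t 946 3 1, .t 1081 3 2, .f 954 3 5] 136 136 [] [(135, 136, [4]), (136, 136, [])])
  .no (.br 947 .no (.hor [.t 946 3 2, .f 825 1 5] [(119, 120, [4])]) .no (.red [.f 939 3 1, .t 946
  3 1, .t 1081 3 2] 136 136 [] [(134, 136, [4, 4]), (135, 136, [4]), (136, 136, [])]) .no .no) .no
  (.red [.f 1074 5 3, .f 946 3 1, .t 1081 3 2] 136 136 [] [(135, 136, [4]), (136, 136, [])])) .no)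
  .no .no (.red [.f 944 3 1, .f 952 1 3] 136 136 [] [(135, 136, [4]), (136, 136, [])]) .no .no)
  .no .no)) (.con 136 [3]) (.con 136 [3]) .no (.con 136 [3]) .no) .no .no (.br 960 (.br 962 .no
  (.use 542) (.br 961 .no (.br 824 .no (.br 1080 (.br 1081 (.hor [.f 1080 1 5] []) .no .no (.con
  136 [4, 1]) .no .no) .no .no (.red [.f 944 3 1, .f 952 1 3] 136 136 [] [(135, 136, [4]), (136,
  136, [])]) (.br 1218 (.br 1210 (.red [.f 1210 1 3, .t 1218 4 2] 152 136 [1] [(152, 136, [1]),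
  (168, 136, [1, 1])]) .no .no (.use 457) (.red [.f 1082 5 1, .f 1083 1 3] 152 136 [1] [(152, 136,
  [1])]) (.br 945 (.red [.t 944 3 1, .f 952 1 3] 136 136 [] [(135, 136, [4]), (136, 136, [])])
  (.hor [.f 817 1 3, .f 944 3 5] [(119, 120, [4])]) .no (.br 1073 (.use 545) .no .no (.red [.f 937
  3 1, .t 944 3 1] 135 136 [4] [(134, 136, [4, 4]), (135, 136, [4])]) (.br 826 .no (.br 1075 (.use
  556) (.red [.t 946 3 1] 135 136 [4] [(135, 136, [4])]) .no (.br 947 .no (.br 818 .no (.hor [.f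
  690 1 3, .f 818 3 1, .f 818 1 5] [(103, 104, [4]), (119, 120, [4])]) .no (.use 549) .no (.hor
  [.t 953 2 4, .f 818 1 5] [(119, 120, [4])])) .no (.red [.f 939 3 1, .t 946 3 1] 135 136 [4]
  [(134, 136, [4, 4]), (135, 136, [4])]) .no .no) .no .no) (.hor [.f 825 1 3, .f 825 3 5] [(120,
  136, [2])]) (.hor [.f 818 3 1, .f 825 1 5] [(119, 120, [4])]) (.br 947 (.red [.t 946 3 1] 135
  136 [4] [(135, 136, [4])]) (.hor [.t 946 3 2, .f 825 1 5] [(119, 120, [4])]) .no (.br 1075 (.use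
  556) .no .no (.red [.f 939 3 1, .t 946 3 1] 135 136 [4] [(134, 136, [4, 4]), (135, 136, [4])])
  .no .no) .no .no) .no) (.red [.f 1072 5 3, .f 944 3 1, .f 952 1 3] 136 136 [] [(135, 136, [4]),
  (136, 136, [])])) .no .no)) .no (.use 436) (.red [.t 1218 4 2] 152 136 [1] [(152, 136, [1])])
  .no (.use 482)) .no) (.hor [.f 825 1 3, .f 824 3 5] [(120, 136, [2])]) (.hor [.f 816 3 1, .f 824
  1 5] [(119, 120, [4])]) .no .no) (.hor [.f 961 3 5] []) .no .no .no) .no .no (.red [.f 961 5 1,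
  .t 962 1 4] 136 136 [] [(136, 136, [])])) (.con 136 [3]) (.con 136 [3]) .no (.con 136 [3]) .no)

def c11t558 : Tr4 :=
  .br 1072 (.red [.f 1072 1 3, .f 944 3 1] 135 136 [4] [(135, 136, [4]), (151, 136, [4, 1])]) .no
  .no (.br 1074 (.hor [.f 1073 1 5] []) .no .no (.con 136 [4, 1, 4]) (.con 136 [4, 4, 1]) .no) .no
  .no

def c11t559 : Tr4 :=
  .br 1210 (.hor [.f 1209 1 5] []) .no .no (.con 136 [4, 1, 1]) .no .no

def c11t560 : Tr4 :=
  .br 1209 (.use 559) .no .no (.red [.t 1208 2 4, .f 944 3 1] 135 136 [4] [(135, 136, [4]), (151,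
  136, [4, 1])]) (.hor [.f 1081 5 1, .f 1080 1 5, .f 1082 1 5] []) .no

def c11t561 : Tr4 :=
  .br 1091 (.br 1083 (.red [.f 1083 1 3, .f 955 3 1] 136 136 [] [(136, 136, []), (152, 136, [1])])
  .no .no (.br 1082 (.use 544) .no (.use 345) (.red [.f 946 3 1] 135 136 [4] [(135, 136, [4])])
  .no (.br 1080 (.con 136 [4, 1]) .no (.con 136 [1]) (.red [.f 944 3 1] 135 136 [4] [(135, 136,
  [4])]) .no .no)) .no (.use 557)) .no (.br 1089 (.br 1090 (.con 136 [1, 3]) (.br 1082 (.br 1081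
  (.hor [.f 1081 1 5] []) .no .no (.use 36) .no (.use 497)) .no .no (.red [.f 946 3 1, .f 954 1 3]
  136 136 [] [(135, 136, [4]), (136, 136, [])]) (.red [.t 962 1 4] 136 136 [] [(136, 136, [])])
  (.br 1080 (.br 945 (.red [.t 945 1 3, .f 954 1 3, .f 954 3 5] 136 136 [] [(135, 136, [4]), (136,
  136, [])]) (.hor [.f 817 1 3, .f 944 3 5] [(119, 120, [4])]) .no (.br 1083 (.br 1218 (.use 138)
  .no (.use 61) (.red [.t 1217 2 4, .f 1082 1 5] 152 136 [1] [(152, 136, [1])]) (.br 1073 (.use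
  558) .no .no (.red [.f 937 3 1, .t 945 1 3] 135 136 [4] [(134, 136, [4, 4]), (135, 136, [4])])
  (.red [.f 1073 5 3, .f 946 3 1, .f 954 1 3] 136 136 [] [(135, 136, [4]), (136, 136, [])]) (.use
  560)) .no) .no .no (.con 136 [4, 1]) .no .no) .no .no) .no (.con 136 [1]) (.red [.f 944 3 1] 135
  136 [4] [(135, 136, [4])]) .no .no)) (.hor [.f 1090 3 5] []) (.con 136 [1]) .no .no) (.con 136
  [1, 3]) (.con 136 [1, 3]) (.br 1090 (.con 136 [1, 3]) (.br 1082 (.br 1083 (.hor [.f 1082 1 5]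
  []) .no .no (.use 544) .no .no) .no .no (.red [.f 946 3 1, .f 954 1 3] 136 136 [] [(135, 136,
  [4]), (136, 136, [])]) (.red [.t 962 1 4, .f 1081 3 5] 136 136 [] [(136, 136, [])]) .no) (.hor
  [.f 1090 3 5] []) (.con 136 [1, 3]) .no .no) (.con 136 [1, 3]) (.con 136 [1, 3])) (.red [.f 955
  3 1] 136 136 [] [(136, 136, [])]) .no (.br 960 (.br 1082 (.br 1083 (.hor [.f 1082 1 5] []) .no
  .no (.use 544) .no .no) .no .no (.red [.f 946 3 1, .t 954 1 3] 136 136 [] [(135, 136, [4]),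
  (136, 136, [])]) (.red [.f 1082 5 3, .f 955 3 1] 136 136 [] [(136, 136, [])]) (.br 1080 (.br
  1089 (.br 945 (.red [.t 945 1 3, .t 954 1 3] 136 136 [] [(135, 136, [4]), (136, 136, [])]) (.hor
  [.f 817 1 3, .f 944 3 5] [(119, 120, [4])]) .no (.br 1073 (.use 558) .no .no (.red [.f 937 3 1,
  .t 945 1 3] 135 136 [4] [(134, 136, [4, 4]), (135, 136, [4])]) (.red [.f 1073 5 3, .f 946 3 1,
  .t 954 1 3] 136 136 [] [(135, 136, [4]), (136, 136, [])]) (.br 1083 (.br 1218 (.br 1210 (.use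
  193) .no .no (.br 1209 (.con 136 [4, 1, 1]) .no .no (.red [.t 1208 2 4, .f 944 3 1] 135 136 [4]
  [(135, 136, [4]), (151, 136, [4, 1])]) .no .no) .no (.hor [.f 1081 5 1, .f 1080 1 5, .f 1082 1
  5] [])) .no (.use 192) (.red [.t 1217 2 4, .f 1082 1 5] 152 136 [1] [(152, 136, [1])]) (.use
  560) .no) .no .no (.con 136 [4, 1]) .no .no)) .no .no) (.con 136 [3]) (.con 136 [3, 1]) .no .no
  .no) .no .no (.red [.f 944 3 1, .f 952 1 3] 136 136 [] [(135, 136, [4]), (136, 136, [])]) .no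
  .no)) (.con 136 [3]) (.con 136 [3]) .no (.con 136 [3]) .no)

def c11t562 : Tr4 :=
  .br 960 (.con 136 [3, 1]) (.con 136 [3]) (.con 136 [3]) .no .no .no

def c11t563 : Tr4 :=
  .br 1090 (.use 562) (.red [.f 954 1 3, .f 953 3 5] 136 136 [] [(136, 136, [])]) (.hor [.f 1089 3
  5] []) .no (.con 136 [1, 3]) .no

def c11t564 : Tr4 :=
  .br 835 (.hor [.f 834 1 5] []) (.con 136 [2, 3]) (.con 136 [2, 3]) (.con 136 [2, 3]) .no .no

def c11t565 : Tr4 :=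
  .br 1089 (.br 1090 (.hor [.f 1089 1 5] []) (.red [.f 954 1 3, .f 953 3 5] 136 136 [] [(136, 136,
  [])]) (.br 962 .no (.br 1088 (.con 136 [3]) (.br 955 (.con 136 [4, 1]) (.use 178) (.br 1091 (.br
  1083 (.red [.f 1083 1 3] 152 136 [1] [(152, 136, [1])]) .no .no (.con 136 [4, 1]) .no .no) .no
  (.use 176) (.red [.f 955 3 1, .f 954 1 5] 136 136 [] [(136, 136, [])]) .no .no) (.use 564) .no
  .no) (.con 136 [3]) .no .no .no) (.red [.f 962 3 1, .f 954 1 3] 136 136 [] [(136, 136, []),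
  (137, 136, [3])]) .no (.br 1091 (.br 1083 (.red [.f 1083 1 3] 152 136 [1] [(152, 136, [1])])
  (.con 136 [4, 1]) .no (.con 136 [4, 1]) .no .no) .no (.hor [.f 1090 3 5] []) (.red [.t 1082 2 3,
  .f 953 3 5] 136 136 [] [(136, 136, [])]) .no .no) .no) .no (.br 1083 (.br 1218 (.br 1088 (.con
  136 [3]) (.br 962 .no (.br 955 .no (.use 178) (.red [.t 954 1 3] 136 136 [] [(136, 136, [])])
  (.use 564) .no .no) (.br 1072 (.red [.f 1072 1 3, .f 944 3 1] 151 136 [4, 1] [(135, 136, [4]),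
  (151, 136, [4, 1])]) .no .no (.br 955 .no (.br 963 .no (.red [.f 827 1 3, .t 954 1 3] 136 136 []
  [(120, 136, [2]), (136, 136, [])]) (.hor [.f 962 3 5] []) .no .no .no) (.red [.t 954 1 3] 136
  136 [] [(136, 136, [])]) (.br 1209 (.br 1210 (.red [.f 1210 1 3, .t 1210 3 2] 152 136 [1] [(152,
  136, [1]), (168, 136, [1, 1])]) .no .no (.con 136 [4, 1, 1]) .no .no) .no .no (.red [.f 1073 3
  1, .f 1080 1 5] 151 136 [4, 1] [(151, 136, [4, 1])]) (.br 1074 (.red [.t 1073 3 1, .f 1080 1 5]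
  151 136 [4, 1] [(151, 136, [4, 1])]) (.red [.f 946 1 3, .f 1073 3 5, .f 1081 5 1, .f 1081 1 3]
  152 136 [1] [(135, 134, [3]), (152, 136, [1])]) .no (.br 1075 (.con 136 [4, 4, 1]) .no .no (.hor
  [.f 1066 3 5] []) .no .no) (.red [.t 954 1 4, .f 1073 3 5, .f 1081 5 1, .f 1081 1 3] 152 136 [1]
  [(135, 136, [4]), (152, 136, [1])]) .no) .no) .no .no) .no .no) .no (.use 184) .no) (.con 136
  [3]) .no .no .no) .no (.use 192) (.red [.t 1210 3 2, .f 1089 1 5] 152 136 [1] [(152, 136, [1])])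
  (.red [.f 1090 5 1, .f 1083 1 3] 152 136 [1] [(152, 136, [1])]) .no) (.con 136 [4, 1]) .no (.con
  136 [4, 1]) .no .no) .no) .no (.use 563) .no (.red [.t 953 3 1] 136 136 [] [(136, 136, [])])
  (.br 962 (.red [.f 954 1 3, .f 953 3 5] 136 136 [] [(136, 136, [])]) (.con 136 [3]) (.con 136
  [3]) .no (.con 136 [3]) .no)

def c11t566 : Tr4 :=
  .br 1209 (.con 136 [4, 1, 1]) .no .no (.hor [.f 1201 3 5] []) .no .no

def c11t567 : Tr4 :=
  .br 1218 (.br 1210 (.use 193) .no .no (.use 566) .no (.hor [.f 1081 5 1, .f 1080 1 5, .f 1082 1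
  5] [])) .no (.use 192) (.red [.t 1217 2 4, .f 1082 1 5] 152 136 [1] [(152, 136, [1])]) (.red [.f
  1090 5 1, .f 1083 1 3] 152 136 [1] [(152, 136, [1])]) .no

def c11t568 : Tr4 :=
  .br 1089 (.hor [.f 1089 1 5] []) .no (.use 562) .no .no (.con 136 [3])

def c11t569 : Tr4 :=
  .br 1083 (.use 567) (.con 136 [4]) .no (.con 136 [4, 1]) .no .no

def c11t570 : Tr4 :=
  .br 1089 (.use 569) .no (.con 136 [1, 3]) .no .no (.con 136 [3])

def c11t571 : Tr4 :=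
  .br 1083 (.red [.f 1083 1 3] 152 136 [1] [(152, 136, [1])]) (.con 136 [4]) .no (.con 136 [4, 1])
  .no .no

def c11t572 : Tr4 :=
  .br 1072 (.red [.f 1072 1 3, .f 944 3 1] 135 136 [4] [(135, 136, [4]), (151, 136, [4, 1])]) .no
  .no (.hor [.f 1064 3 5] []) .no .no

def c11t573 : Tr4 :=
  .br 1200 (.con 136 [4, 1, 1, 4]) .no .no (.hor [.f 1192 3 5] []) .no .no

def c11t574 : Tr4 :=
  .br 1339 (.hor [.f 1338 1 5] []) .no .no (.use 573) .no .no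

def c11t575 : Tr4 :=
  .br 1200 (.con 136 [4, 1, 4, 1]) .no .no (.hor [.f 1192 3 5] []) .no .no

def c11t576 : Tr4 :=
  .br 1202 (.br 1203 (.hor [.f 1202 1 5] []) .no .no (.con 136 [4, 4, 1, 1]) .no .no) .no .no
  (.red [.f 1066 3 1] 150 136 [4, 4, 1] [(150, 136, [4, 4, 1])]) (.use 575) .no

def c11t577 : Tr4 :=
  .br 1074 .no .no .no (.red [.t 1065 1 3] 150 136 [4, 4, 1] [(150, 136, [4, 4, 1])]) .no .no

def c11t578 : Tr4 :=
  .br 1203 (.red [.f 1210 5 1, .f 1203 1 3] 167 136 [1, 4, 1] [(167, 136, [1, 4, 1])]) .no .no .no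
  .no .no

def c11t579 : Tr4 :=
  .br 1065 (.use 577) .no .no (.br 1064 (.br 1066 (.con 136 [4, 1, 4, 4]) (.con 136 [4, 1, 4, 2,
  3]) (.br 1219 (.hor [.f 1218 1 5] []) .no (.br 1347 (.br 1193 (.br 1338 (.br 1339 (.hor [.f 1338
  1 5] []) .no .no (.br 1067 (.br 1330 (.red [.f 1330 1 3, .t 1337 2 4] 167 136 [4, 1, 1] [(167,
  136, [4, 1, 1]), (183, 136, [4, 1, 1, 1])]) .no .no (.con 136 [4, 4, 1, 1, 4]) .no (.red [.f
  1201 5 1, .f 1201 1 3] 167 136 [4, 1, 1] [(167, 136, [4, 1, 1])])) (.con 136 [4, 4, 4, 1]) .no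
  (.con 136 [4, 4, 4, 1]) .no .no) .no .no) .no .no (.red [.t 1337 2 4] 167 136 [4, 1, 1] [(167,
  136, [4, 1, 1])]) (.br 1067 (.use 578) (.con 136 [4, 4, 4, 1]) .no (.con 136 [4, 4, 4, 1]) .no
  .no) .no) .no .no (.red [.f 1057 3 1, .f 1064 1 5] 149 136 [4, 4, 4, 1] [(149, 136, [4, 4, 4,
  1])]) (.red [.f 1193 5 3, .f 1066 3 1] 150 136 [4, 4, 1] [(150, 136, [4, 4, 1])]) .no) .no (.hor
  [.f 1219 3 1, .f 1218 1 5] [(169, 137, [1, 1])]) (.red [.t 1346 2 4, .t 1217 2 4, .f 953 3 1]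
  136 136 [] [(136, 136, []), (152, 136, [1]), (168, 136, [1, 1])]) .no .no) .no .no .no) (.con
  136 [4, 1, 4, 2, 3]) (.con 136 [4, 1, 4, 4]) .no) (.red [.t 936 1 3, .t 945 1 3] 135 136 [4]
  [(134, 136, [4, 4]), (135, 136, [4])]) .no (.hor [.f 1056 3 5] []) .no .no) (.con 136 [4, 1, 4,
  2, 3]) (.red [.f 1064 5 3, .f 937 3 1, .t 945 1 3] 135 136 [4] [(134, 136, [4, 4]), (135, 136,
  [4])])

def c11t580 : Tr4 :=
  .br 705 .no (.hor [.f 569 1 3, .t 704 1 4, .f 697 1 5] [(88, 136, [2, 2, 2]), (104, 136, [2,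
  2])]) (.br 706 .no (.con 136 [2, 2, 2, 3]) (.hor [.f 705 3 5] []) .no .no .no) .no (.hor [.f 705
  5 1, .f 704 1 5, .f 706 1 5] []) .no

def c11l23 : List Tr4 :=
  [c11t557, c11t558, c11t559, c11t560, c11t561, c11t562, c11t563, c11t564, c11t565, c11t566,
  c11t567, c11t568, c11t569, c11t570, c11t571, c11t572, c11t573, c11t574, c11t575, c11t576,
  c11t577, c11t578, c11t579, c11t580]

theorem c11k23 : chkLF ⟨4, 1, 0, true, -8⟩ true 0 c11N 557 c11l23 = true := by decide +kernel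

def c11t581 : Tr4 :=
  .br 1074 (.br 1339 (.br 1219 (.hor [.f 1218 1 5] []) .no (.br 1347 (.br 1338 (.use 574) .no .no
  (.br 1203 (.red [.t 1330 3 2, .f 1209 1 5] 167 136 [4, 1, 1] [(167, 136, [4, 1, 1])]) .no .no
  (.br 1200 (.con 136 [4, 4, 1, 1]) .no .no (.hor [.f 1192 3 5] []) .no .no) .no .no) .no .no) .no
  (.hor [.f 1219 3 1, .f 1218 1 5] [(169, 137, [1, 1])]) .no .no .no) .no .no .no) .no (.red [.t
  1346 2 4, .t 1217 2 4, .f 953 3 1] 136 136 [] [(136, 136, []), (152, 136, [1]), (168, 136, [1,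
  1])]) (.use 573) .no (.red [.f 1210 5 1, .f 1209 1 5, .f 1081 5 1, .f 1074 1 3] 151 136 [4, 1]
  [(151, 136, [4, 1])])) .no .no (.use 576) .no .no

def c11t582 : Tr4 :=
  .br 1330 (.red [.f 1330 1 3, .t 1337 2 4] 167 136 [4, 1, 1] [(167, 136, [4, 1, 1]), (183, 136,
  [4, 1, 1, 1])]) .no .no (.con 136 [4, 1, 1, 4, 1]) .no (.red [.f 1201 5 1, .f 1201 1 3] 167 136
  [4, 1, 1] [(167, 136, [4, 1, 1])])

def c11t583 : Tr4 :=
  .br 1331 (.con 136 [4, 1, 1, 4]) (.red [.f 1210 5 1, .f 1203 1 3] 167 136 [4, 1, 1] [(167, 136,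
  [4, 1, 1])]) .no (.con 136 [4, 1, 1, 4]) .no (.con 136 [4, 1, 1, 4])

def c11t584 : Tr4 :=
  .br 1200 (.use 583) .no .no (.red [.f 1064 5 3, .f 1064 3 1, .f 1072 1 3] 151 136 [4, 1] [(150,
  136, [4, 1, 4]), (151, 136, [4, 1])]) .no .no

def c11t585 : Tr4 :=
  .br 1202 (.br 1203 (.hor [.f 1202 1 5] []) .no .no (.con 136 [4, 4, 1, 1]) .no .no) .no .no
  (.hor [.f 1193 3 5] []) (.use 575) .no

def c11t586 : Tr4 :=
  .br 1065 (.hor [.f 1064 1 5] []) .no .no (.con 136 [4, 4, 4, 1]) .no .no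

def c11t587 : Tr4 :=
  .br 1056 (.red [.f 1056 1 3] 149 136 [4, 4, 4, 1] [(149, 136, [4, 4, 4, 1])]) (.con 136 [4, 4,
  4, 4]) .no (.hor [.f 1048 3 5] []) .no .no

def c11t588 : Tr4 :=
  .br 1193 (.use 582) .no .no (.br 1057 .no (.red [.t 929 1 3, .t 938 1 3] 134 136 [4, 4] [(133,
  136, [4, 4, 4]), (134, 136, [4, 4])]) .no (.br 1330 (.red [.f 1330 1 3, .t 1337 2 4] 167 136 [4,
  1, 1] [(167, 136, [4, 1, 1]), (183, 136, [4, 1, 1, 1])]) .no .no (.br 1058 (.con 136 [4, 4, 1,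
  1, 4, 2]) .no .no (.hor [.f 1049 3 5] []) (.use 587) .no) .no (.red [.f 1201 5 1, .f 1201 1 3]
  167 136 [4, 1, 1] [(167, 136, [4, 1, 1])])) (.red [.f 1057 5 3, .f 930 3 1, .t 938 1 3] 134 136
  [4, 4] [(133, 136, [4, 4, 4]), (134, 136, [4, 4])]) (.red [.t 1192 2 4] 149 136 [4, 4, 4, 1]
  [(149, 136, [4, 4, 4, 1])])) (.red [.f 1065 5 1, .f 1064 1 5, .f 1064 5 3, .f 937 3 1] 134 136
  [4, 4] [(134, 136, [4, 4])]) .no

def c11t589 : Tr4 :=
  .br 1203 (.red [.f 1210 5 1, .f 1203 1 3] 167 136 [4, 1, 1] [(167, 136, [4, 1, 1])]) .no .no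
  (.con 136 [4, 4, 1, 4]) .no .no

def c11t590 : Tr4 :=
  .br 1065 (.hor [.f 1065 1 5] []) .no .no (.hor [.f 1056 3 5] []) .no .no

def c11t591 : Tr4 :=
  .br 1200 (.con 136 [4, 1, 1, 4]) .no .no (.br 1193 (.use 582) .no .no (.br 1057 .no (.red [.t
  929 1 3, .t 938 1 3] 134 136 [4, 4] [(133, 136, [4, 4, 4]), (134, 136, [4, 4])]) .no (.br 1330
  (.red [.f 1330 1 3, .t 1337 2 4] 167 136 [4, 1, 1] [(167, 136, [4, 1, 1]), (183, 136, [4, 1, 1,
  1])]) .no .no (.br 1058 (.con 136 [4, 1, 1, 4, 4, 2]) .no .no (.hor [.f 1049 3 5] []) (.con 136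
  [4, 1, 1, 4, 4, 2, 2]) .no) .no (.red [.f 1201 5 1, .f 1201 1 3] 167 136 [4, 1, 1] [(167, 136,
  [4, 1, 1])])) (.red [.f 1057 5 3, .f 930 3 1, .t 938 1 3] 134 136 [4, 4] [(133, 136, [4, 4, 4]),
  (134, 136, [4, 4])]) .no) (.red [.f 1065 5 1, .t 1192 3 2, .f 1072 1 3] 151 136 [4, 1] [(150,
  136, [4, 4, 1]), (151, 136, [4, 1])]) .no) .no .no

def c11t592 : Tr4 :=
  .br 1066 (.use 590) .no .no (.red [.f 930 3 1, .t 938 1 3] 134 136 [4, 4] [(133, 136, [4, 4,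
  4]), (134, 136, [4, 4])]) (.red [.f 1066 5 3, .f 939 3 1] 134 136 [4, 4] [(134, 136, [4, 4])])
  (.use 591)

def c11t593 : Tr4 :=
  .br 1203 (.red [.f 1210 5 1, .f 1203 1 3] 167 136 [4, 1, 1] [(167, 136, [4, 1, 1])]) .no .no
  (.br 1331 (.br 1200 (.con 136 [4, 4, 1, 1]) .no .no (.br 1194 (.br 1330 (.hor [.f 1330 1 5] [])
  .no .no .no .no (.red [.f 1201 5 1, .f 1201 1 3] 167 136 [4, 1, 1] [(167, 136, [4, 1, 1])])) .no
  .no (.br 1330 (.hor [.f 1330 1 5] []) .no .no (.br 1193 (.con 136 [4, 4, 1, 4, 1]) .no .no (.hor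
  [.f 1185 3 5] []) .no .no) .no (.red [.f 1201 5 1, .f 1201 1 3] 167 136 [4, 1, 1] [(167, 136,
  [4, 1, 1])])) .no (.red [.f 1065 5 1, .t 1192 3 2, .f 1072 1 3] 151 136 [4, 1] [(150, 136, [4,
  4, 1]), (151, 136, [4, 1])])) .no .no) .no .no (.red [.f 1195 3 1] 166 136 [4, 4, 1, 1] [(166,
  136, [4, 4, 1, 1])]) .no (.red [.f 1330 5 3, .t 1337 2 4] 167 136 [4, 1, 1] [(167, 136, [4, 1,
  1])])) .no .no

def c11t594 : Tr4 :=
  .br 1219 (.hor [.f 1218 1 5] []) .no (.br 1347 (.br 1064 (.br 1338 (.br 1339 (.hor [.f 1338 1 5]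
  []) .no .no (.br 938 (.red [.t 938 1 3] 134 136 [4, 4] [(134, 136, [4, 4])]) .no .no (.br 1066
  (.use 586) .no .no (.red [.f 930 3 1, .t 938 1 3] 134 136 [4, 4] [(133, 136, [4, 4, 4]), (134,
  136, [4, 4])]) (.red [.f 1066 5 3, .f 939 3 1] 134 136 [4, 4] [(134, 136, [4, 4])]) (.use 588))
  .no .no) .no .no) .no .no (.red [.t 1337 2 4] 167 136 [4, 1, 1] [(167, 136, [4, 1, 1])]) (.br
  938 (.red [.t 938 1 3] 134 136 [4, 4] [(134, 136, [4, 4])]) .no .no (.br 1066 (.use 586) .no .no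
  (.red [.f 930 3 1, .t 938 1 3] 134 136 [4, 4] [(133, 136, [4, 4, 4]), (134, 136, [4, 4])]) (.red
  [.f 1066 5 3, .f 939 3 1] 134 136 [4, 4] [(134, 136, [4, 4])]) (.use 589)) .no .no) .no) (.red
  [.t 936 1 3, .t 945 1 3] 135 136 [4] [(134, 136, [4, 4]), (135, 136, [4])]) .no (.br 1338 (.br
  1339 (.hor [.f 1338 1 5] []) .no .no (.br 938 (.red [.t 938 1 3] 134 136 [4, 4] [(134, 136, [4,
  4])]) .no .no (.use 592) .no .no) .no .no) .no .no (.red [.t 1337 2 4] 167 136 [4, 1, 1] [(167,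
  136, [4, 1, 1])]) (.br 938 (.red [.t 938 1 3] 134 136 [4, 4] [(134, 136, [4, 4])]) .no .no (.br
  1066 (.use 590) .no .no (.red [.f 930 3 1, .t 938 1 3] 134 136 [4, 4] [(133, 136, [4, 4, 4]),
  (134, 136, [4, 4])]) (.red [.f 1066 5 3, .f 939 3 1] 134 136 [4, 4] [(134, 136, [4, 4])]) (.use
  593)) .no .no) .no) (.red [.f 1064 5 3, .f 937 3 1, .t 945 1 3] 135 136 [4] [(134, 136, [4, 4]),
  (135, 136, [4])]) .no) .no (.hor [.f 1219 3 1, .f 1218 1 5] [(169, 137, [1, 1])]) (.red [.t 1346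
  2 4, .t 1217 2 4, .f 953 3 1] 136 136 [] [(136, 136, []), (152, 136, [1]), (168, 136, [1, 1])])
  .no .no) .no .no .no

def c11t595 : Tr4 :=
  .br 1200 (.con 136 [4, 1, 1, 4]) .no .no (.red [.f 1064 5 3, .f 1064 3 1, .f 1072 1 3] 151 136
  [4, 1] [(150, 136, [4, 4, 1]), (151, 136, [4, 1])]) .no .no

def c11t596 : Tr4 :=
  .br 1064 (.hor [.f 1064 1 5] []) .no .no (.red [.f 928 3 1] 133 136 [4, 4, 4] [(133, 136, [4, 4,
  4])]) .no .no

def c11t597 : Tr4 :=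
  .br 816 .no (.hor [.t 688 1 3, .f 697 1 5] [(103, 104, [4])]) .no (.br 1339 (.hor [.f 1338 1 5]
  []) .no .no (.br 936 (.red [.t 944 3 2, .f 944 5 1, .f 936 1 3, .f 808 3 1, .f 816 1 3] 134 136
  [4, 4] [(118, 136, [2, 4, 4]), (134, 136, [4, 4])]) .no .no (.br 937 (.br 1066 (.con 136 [4, 4,
  4]) (.hor [.f 937 1 5] []) .no (.con 136 [4, 4, 4]) (.con 136 [4, 4, 4]) .no) (.hor [.f 809 1 3,
  .f 808 3 5] [(118, 136, [2, 4, 4])]) .no (.hor [.f 928 3 5] []) (.br 1066 (.br 1065 (.hor [.f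
  1065 1 5] []) .no .no (.br 1064 (.con 136 [4, 4, 4, 1]) .no .no (.red [.f 928 3 1] 133 136 [4,
  4, 4] [(133, 136, [4, 4, 4])]) .no .no) .no (.use 595)) .no .no (.br 1065 (.use 596) .no .no
  (.hor [.f 1057 3 5] []) .no (.use 595)) (.red [.f 1066 5 3, .f 939 3 1] 134 136 [4, 4] [(134,
  136, [4, 4])]) (.red [.f 937 5 1, .t 938 1 3] 134 136 [4, 4] [(134, 136, [4, 4])])) .no) (.br
  938 (.red [.t 938 1 3] 134 136 [4, 4] [(134, 136, [4, 4])]) .no .no (.br 1066 (.br 1065 (.hor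
  [.f 1065 1 5] []) .no .no (.br 1064 (.con 136 [4, 4, 4, 1]) .no .no (.hor [.f 1056 3 5] []) .no
  .no) .no (.br 1200 (.con 136 [4, 1, 1, 4]) .no .no (.red [.f 1064 5 3, .f 1064 3 1, .f 1072 1 3]
  151 136 [4, 1] [(150, 136, [4, 4, 1]), (151, 136, [4, 1])]) .no .no)) .no .no (.red [.f 930 3 1,
  .t 938 1 3] 134 136 [4, 4] [(133, 136, [4, 4, 4]), (134, 136, [4, 4])]) (.red [.f 1066 5 3, .f
  939 3 1] 134 136 [4, 4] [(134, 136, [4, 4])]) (.br 1064 (.br 1330 (.red [.f 1330 1 3, .t 1337 2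
  4] 167 136 [4, 1, 1] [(167, 136, [4, 1, 1]), (183, 136, [4, 1, 1, 1])]) .no .no (.br 1067 (.br
  1193 (.con 136 [4, 4, 1, 1, 4]) .no .no (.br 1057 .no (.red [.t 929 1 3, .t 938 1 3] 134 136 [4,
  4] [(133, 136, [4, 4, 4]), (134, 136, [4, 4])]) .no (.br 1058 (.con 136 [4, 4, 1, 1, 4, 2]) .no
  .no (.hor [.f 1049 3 5] []) (.br 1056 (.red [.f 1056 1 3] 149 136 [4, 4, 4, 1] [(149, 136, [4,
  4, 4, 1])]) (.con 136 [4, 4, 4, 4]) .no (.hor [.f 1048 3 5] []) .no .no) .no) (.red [.f 1057 5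
  3, .f 930 3 1, .t 938 1 3] 134 136 [4, 4] [(133, 136, [4, 4, 4]), (134, 136, [4, 4])]) (.red [.t
  1192 2 4] 149 136 [4, 4, 4, 1] [(149, 136, [4, 4, 4, 1])])) (.hor [.f 1065 5 1, .f 1064 1 5, .f
  1066 1 5] []) .no) .no .no (.con 136 [4, 4, 4, 1]) .no .no) .no (.red [.f 1201 5 1, .f 1201 1 3]
  167 136 [4, 1, 1] [(167, 136, [4, 1, 1])])) .no .no (.use 591) .no .no)) .no .no) .no) .no .no)
  .no .no

def c11t598 : Tr4 :=
  .br 1065 (.hor [.f 1064 1 5] []) .no .no (.hor [.f 1057 3 5] []) .no .no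

def c11t599 : Tr4 :=
  .br 1064 (.br 1338 (.br 818 .no (.hor [.f 690 1 3, .f 818 3 1, .f 826 1 5] [(103, 104, [4]),
  (119, 120, [4])]) .no (.use 594) (.red [.t 954 4 2, .f 954 5 3, .f 955 3 1] 136 136 [] [(119,
  120, [4]), (136, 136, [])]) (.br 1219 (.hor [.f 1218 1 5] []) .no (.br 1347 (.br 1066 (.use 586)
  (.red [.t 938 1 3] 134 136 [4, 4] [(134, 136, [4, 4])]) .no (.use 598) (.red [.f 1066 5 3, .f
  939 3 1] 134 136 [4, 4] [(134, 136, [4, 4])]) (.br 1339 (.hor [.f 1338 1 5] []) .no .no (.br 938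
  .no (.br 1193 (.use 582) .no .no (.br 1057 .no (.red [.t 937 3 2, .f 937 5 1, .f 929 1 3] 133
  136 [4, 4, 4] [(118, 134, [2]), (133, 136, [4, 4, 4])]) .no (.br 1330 (.red [.f 1330 1 3, .t
  1337 2 4] 167 136 [4, 1, 1] [(167, 136, [4, 1, 1]), (183, 136, [4, 1, 1, 1])]) .no .no (.br 1058
  (.con 136 [4, 4, 1, 1, 4, 2]) (.br 1056 (.red [.f 1056 1 3] 149 136 [4, 4, 4, 1] [(149, 136, [4,
  4, 4, 1])]) (.con 136 [4, 4, 4, 4]) .no (.hor [.f 1048 3 5] []) .no .no) .no (.hor [.f 1049 3 5]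
  []) (.use 587) .no) .no (.red [.f 1201 5 1, .f 1201 1 3] 167 136 [4, 1, 1] [(167, 136, [4, 1,
  1])])) (.red [.f 1057 5 3, .f 1057 3 1] 149 136 [4, 4, 4, 1] [(149, 136, [4, 4, 4, 1])]) (.red
  [.t 1192 2 4] 149 136 [4, 4, 4, 1] [(149, 136, [4, 4, 4, 1])])) (.red [.f 1065 5 1, .f 1064 1 5,
  .f 1064 5 3, .f 937 3 1] 134 136 [4, 4] [(134, 136, [4, 4])]) .no) .no (.use 588) .no .no) .no
  .no)) .no (.hor [.f 1219 3 1, .f 1218 1 5] [(169, 137, [1, 1])]) (.red [.t 1346 2 4, .t 1217 2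
  4, .f 953 3 1] 136 136 [] [(136, 136, []), (152, 136, [1]), (168, 136, [1, 1])]) .no .no) .no
  .no .no)) .no .no (.red [.t 1337 2 4] 167 136 [4, 1, 1] [(167, 136, [4, 1, 1])]) (.br 1066 (.use
  586) (.red [.t 938 1 3] 134 136 [4, 4] [(134, 136, [4, 4])]) .no (.use 598) (.red [.f 1066 5 3,
  .f 939 3 1] 134 136 [4, 4] [(134, 136, [4, 4])]) (.use 589)) .no) (.red [.t 936 1 3, .t 945 1 3]
  135 136 [4] [(134, 136, [4, 4]), (135, 136, [4])]) .no (.br 1338 (.br 818 .no (.hor [.f 690 1 3,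
  .f 818 3 1, .f 826 1 5] [(103, 104, [4]), (119, 120, [4])]) .no (.use 594) (.red [.t 954 4 2, .f
  954 5 3, .f 955 3 1] 136 136 [] [(119, 120, [4]), (136, 136, [])]) (.br 1219 (.hor [.f 1218 1 5]
  []) .no (.br 1347 (.br 1339 (.hor [.f 1338 1 5] []) .no .no (.br 938 (.red [.t 938 1 3] 134 136
  [4, 4] [(134, 136, [4, 4])]) (.br 1065 (.br 1200 (.con 136 [4, 1, 1, 4]) .no .no (.red [.t 1192
  3 2, .f 1072 1 3] 151 136 [4, 1] [(150, 136, [4, 4, 1]), (151, 136, [4, 1])]) .no .no) .no .no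
  (.hor [.f 1056 3 5] []) (.br 1200 (.con 136 [4, 1, 1, 4]) .no .no (.br 1193 (.use 582) .no .no
  (.br 1057 .no (.red [.t 937 3 2, .f 937 5 1, .f 929 1 3] 133 136 [4, 4, 4] [(118, 134, [2]),
  (133, 136, [4, 4, 4])]) .no (.br 1330 (.red [.f 1330 1 3, .t 1337 2 4] 167 136 [4, 1, 1] [(167,
  136, [4, 1, 1]), (183, 136, [4, 1, 1, 1])]) .no .no (.br 1058 (.con 136 [4, 1, 1, 4, 4, 2])
  (.con 136 [4, 1, 1, 4, 4, 2, 4, 2]) .no (.hor [.f 1049 3 5] []) (.con 136 [4, 1, 1, 4, 4, 2, 2])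
  .no) .no (.red [.f 1201 5 1, .f 1201 1 3] 167 136 [4, 1, 1] [(167, 136, [4, 1, 1])])) (.red [.f
  1057 5 3, .f 1056 3 5, .f 1064 5 3, .f 937 3 1] 134 136 [4, 4] [(134, 136, [4, 4])]) .no) (.red
  [.f 1065 5 1, .t 1192 3 2, .f 1072 1 3] 151 136 [4, 1] [(150, 136, [4, 4, 1]), (151, 136, [4,
  1])]) .no) .no .no) .no) .no (.use 592) .no .no) .no .no) .no (.hor [.f 1219 3 1, .f 1218 1 5]
  [(169, 137, [1, 1])]) (.red [.t 1346 2 4, .t 1217 2 4, .f 953 3 1] 136 136 [] [(136, 136, []),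
  (152, 136, [1]), (168, 136, [1, 1])]) .no .no) .no .no .no)) .no .no (.red [.t 1337 2 4] 167 136
  [4, 1, 1] [(167, 136, [4, 1, 1])]) (.br 1066 (.use 590) (.red [.t 938 1 3] 134 136 [4, 4] [(134,
  136, [4, 4])]) .no (.br 1065 (.br 1200 (.use 583) .no .no (.red [.t 1192 3 2, .f 1072 1 3] 151
  136 [4, 1] [(150, 136, [4, 4, 1]), (151, 136, [4, 1])]) .no .no) .no .no (.hor [.f 1056 3 5] [])
  .no .no) (.red [.f 1066 5 3, .f 939 3 1] 134 136 [4, 4] [(134, 136, [4, 4])]) (.use 593)) .no)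
  (.red [.f 1064 5 3, .f 937 3 1, .t 945 1 3] 135 136 [4] [(134, 136, [4, 4]), (135, 136, [4])])
  .no

def c11t600 : Tr4 :=
  .br 945 .no (.br 1201 (.red [.f 1201 1 3] 167 136 [4, 1, 1] [(167, 136, [4, 1, 1])]) .no .no
  (.use 581) (.br 1074 .no .no .no (.br 832 .no (.br 697 .no (.use 580) (.hor [.t 944 3 2, .t 824
  1 4, .t 704 1 4, .f 697 1 5] [(104, 136, [2, 2])]) (.br 1219 (.hor [.f 1218 1 5] []) .no (.br
  1347 (.br 816 .no (.hor [.t 688 1 3, .f 697 1 5] [(103, 104, [4])]) .no (.br 1338 (.br 1339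
  (.hor [.f 1338 1 5] []) .no .no (.br 1200 (.con 136 [4, 1, 1, 4]) .no .no (.br 1065 (.use 577)
  (.br 936 (.hor [.f 936 1 5] []) .no .no (.br 1064 .no .no .no (.red [.f 928 3 1, .f 936 1 5] 133
  136 [4, 4, 4] [(133, 136, [4, 4, 4])]) .no .no) .no .no) .no (.br 1193 (.use 582) .no .no (.red
  [.f 1057 3 1, .t 1065 1 3] 150 136 [4, 4, 1] [(149, 136, [4, 4, 1, 4]), (150, 136, [4, 4, 1])])
  (.red [.f 1193 5 3, .f 1066 3 1] 150 136 [4, 4, 1] [(150, 136, [4, 4, 1])]) .no) .no (.red [.f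
  1064 5 3, .f 1064 3 1, .f 1072 1 3] 151 136 [4, 1] [(150, 136, [4, 4, 1]), (151, 136, [4, 1])]))
  .no .no) .no .no) .no .no (.red [.t 1337 2 4] 167 136 [4, 1, 1] [(167, 136, [4, 1, 1])]) (.br
  1065 (.use 577) (.br 936 (.hor [.f 936 1 5] []) .no .no (.br 1064 (.br 1067 (.use 578) (.con 136
  [4, 4, 4]) .no (.con 136 [4, 4, 4, 1]) .no .no) .no .no (.red [.f 928 3 1, .f 936 1 5] 133 136
  [4, 4, 4] [(133, 136, [4, 4, 4])]) .no .no) .no .no) .no (.br 1203 (.red [.f 1210 5 1, .f 1203 1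
  3] 167 136 [4, 1, 1] [(167, 136, [4, 1, 1])]) .no .no (.br 1193 (.br 1331 (.br 1330 (.hor [.f
  1330 1 5] []) .no .no (.con 136 [4, 4, 1, 1, 1]) .no (.red [.f 1201 5 1, .f 1201 1 3] 167 136
  [4, 1, 1] [(167, 136, [4, 1, 1])])) .no .no (.red [.f 1195 3 1] 166 136 [4, 4, 1, 1] [(166, 136,
  [4, 4, 1, 1])]) .no (.red [.f 1330 5 3, .t 1337 2 4] 167 136 [4, 1, 1] [(167, 136, [4, 1, 1])]))
  .no .no (.red [.f 1057 3 1, .t 1065 1 3] 150 136 [4, 4, 1] [(149, 136, [4, 4, 1, 4]), (150, 136,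
  [4, 4, 1])]) (.red [.f 1193 5 3, .f 1066 3 1] 150 136 [4, 4, 1] [(150, 136, [4, 4, 1])]) (.con
  136 [4, 4, 1, 1])) .no .no) .no (.use 584)) .no) .no .no) .no (.hor [.f 1219 3 1, .f 1218 1 5]
  [(169, 137, [1, 1])]) (.red [.t 1346 2 4, .t 1217 2 4, .f 953 3 1] 136 136 [] [(136, 136, []),
  (152, 136, [1]), (168, 136, [1, 1])]) .no .no) .no .no .no) .no (.hor [.f 696 5 1, .f 697 1 5,
  .t 945 2 3, .f 826 1 5] [(119, 120, [4])])) (.con 136 [2, 2, 3]) .no .no .no) .no .no) (.red [.f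
  1072 5 1, .f 1072 1 3, .f 944 3 1] 135 136 [4] [(135, 136, [4]), (151, 136, [4, 1])])) .no (.br
  1201 (.red [.f 1201 1 3] 167 136 [4, 1, 1] [(167, 136, [4, 1, 1])]) .no .no (.use 581) (.use
  579) (.red [.f 1072 5 1, .f 1072 1 3, .f 944 3 1] 135 136 [4] [(135, 136, [4]), (151, 136, [4,
  1])])) .no .no

def c11l24 : List Tr4 :=
  [c11t581, c11t582, c11t583, c11t584, c11t585, c11t586, c11t587, c11t588, c11t589, c11t590,
  c11t591, c11t592, c11t593, c11t594, c11t595, c11t596, c11t597, c11t598, c11t599, c11t600]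

theorem c11k24 : chkLF ⟨4, 1, 0, true, -8⟩ true 0 c11N 581 c11l24 = true := by decide +kernel

def c11t601 : Tr4 :=
  .br 825 .no (.hor [.f 697 1 5] []) .no (.br 1201 (.red [.f 1201 1 3] 167 136 [4, 1, 1] [(167,
  136, [4, 1, 1])]) .no .no (.use 585) (.br 818 .no (.hor [.f 690 1 3, .f 817 3 5] [(103, 104,
  [4])]) .no (.br 945 .no .no .no (.use 594) .no .no) (.red [.t 954 4 2, .f 954 5 3, .f 955 3 1]
  136 136 [] [(119, 120, [4]), (136, 136, [])]) .no) (.red [.f 1072 5 1, .f 1072 1 3, .f 944 3 1]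
  135 136 [4] [(135, 136, [4]), (151, 136, [4, 1])])) .no (.br 1201 (.red [.f 1201 1 3] 167 136
  [4, 1, 1] [(167, 136, [4, 1, 1])]) .no .no (.use 585) (.br 945 .no (.br 818 .no (.hor [.t 944 3
  2, .f 690 1 3, .f 817 3 5] [(103, 104, [4]), (119, 120, [4])]) .no (.br 832 .no (.br 1338 (.br
  697 .no (.use 580) (.hor [.t 944 3 2, .t 824 1 4, .t 704 1 4, .f 697 1 5] [(104, 136, [2, 2])])
  (.br 1219 (.hor [.f 1218 1 5] []) .no (.br 1347 (.use 597) .no (.hor [.f 1219 3 1, .f 1218 1 5]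
  [(169, 137, [1, 1])]) (.red [.t 1346 2 4, .t 1217 2 4, .f 953 3 1] 136 136 [] [(136, 136, []),
  (152, 136, [1]), (168, 136, [1, 1])]) .no .no) .no .no .no) .no (.hor [.f 696 5 1, .f 697 1 5,
  .t 945 2 3, .f 826 1 5] [(119, 120, [4])])) .no .no (.red [.t 1337 2 4] 167 136 [4, 1, 1] [(167,
  136, [4, 1, 1])]) (.br 697 .no (.use 580) (.hor [.t 944 3 2, .t 824 1 4, .t 704 1 4, .f 697 1 5]
  [(104, 136, [2, 2])]) (.br 1066 (.br 816 .no (.hor [.t 688 1 3, .f 697 1 5] [(103, 104, [4])])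
  .no (.br 1065 (.hor [.f 1065 1 5] []) (.br 1064 (.con 136 [4, 4, 4]) (.red [.t 944 3 2, .f 944 5
  1, .f 936 1 3, .f 808 3 1, .f 816 1 3] 134 136 [4, 4] [(118, 136, [2, 4, 4]), (134, 136, [4,
  4])]) .no (.con 136 [4, 4, 4]) .no .no) .no (.br 1064 (.con 136 [4, 4, 4, 1]) (.red [.t 944 3 2,
  .f 944 5 1, .f 936 1 3, .f 808 3 1, .f 816 1 3] 134 136 [4, 4] [(118, 136, [2, 4, 4]), (134,
  136, [4, 4])]) .no (.hor [.f 1056 3 5] []) .no .no) .no (.use 584)) .no .no) (.red [.t 938 1 3]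
  134 136 [4, 4] [(134, 136, [4, 4])]) .no (.br 938 .no .no .no (.red [.f 930 3 1, .t 938 1 3] 134
  136 [4, 4] [(133, 136, [4, 4, 4]), (134, 136, [4, 4])]) .no (.br 1065 (.br 1064 (.hor [.f 1064 1
  5] []) (.red [.t 944 3 2, .f 944 5 1, .f 936 1 3] 134 136 [4, 4] [(119, 120, [4]), (134, 136,
  [4, 4])]) .no (.br 936 .no (.br 816 .no (.hor [.t 688 1 3, .f 697 1 5] [(103, 104, [4])]) .no
  .no .no .no) .no (.use 596) .no .no) .no .no) .no .no (.hor [.f 1057 3 5] []) .no (.use 584)))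
  (.red [.f 1066 5 3, .f 939 3 1] 134 136 [4, 4] [(134, 136, [4, 4])]) (.use 593)) .no (.hor [.f
  696 5 1, .f 697 1 5, .t 945 2 3, .f 826 1 5] [(119, 120, [4])])) .no) (.con 136 [2, 2, 3]) .no
  .no .no) (.hor [.t 954 4 2, .f 817 1 5] [(119, 120, [4])]) .no) .no (.use 599) .no .no) (.red
  [.f 1072 5 1, .f 1072 1 3, .f 944 3 1] 135 136 [4] [(135, 136, [4]), (151, 136, [4, 1])]))

def c11t602 : Tr4 :=
  .br 1210 (.hor [.f 1209 1 5] []) .no .no (.use 230) (.red [.f 1210 5 3, .t 1217 2 4, .f 953 3 1]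
  136 136 [] [(136, 136, []), (152, 136, [1])]) .no

def c11t603 : Tr4 :=
  .br 1209 (.use 602) .no .no (.red [.t 1208 2 4, .f 944 3 1] 135 136 [4] [(135, 136, [4]), (151,
  136, [4, 1])]) (.red [.f 1081 5 1, .f 1080 1 5, .t 960 1 4] 136 136 [] [(136, 136, [])]) .no

def c11t604 : Tr4 :=
  .br 1073 (.use 558) (.red [.t 945 1 3] 135 136 [4] [(135, 136, [4])]) .no (.use 572) (.red [.f
  1073 5 3, .f 946 3 1] 135 136 [4] [(135, 136, [4])]) (.use 603)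

def c11t605 : Tr4 :=
  .br 826 .no (.br 1218 (.br 1073 (.use 558) (.red [.t 945 1 3] 135 136 [4] [(135, 136, [4])]) .no
  (.use 572) (.red [.f 1073 5 3, .f 946 3 1] 135 136 [4] [(135, 136, [4])]) (.br 1209 (.br 1210
  (.hor [.f 1209 1 5] []) .no .no (.use 230) (.br 835 .no (.br 834 .no (.use 234) (.br 833 .no
  (.con 136 [2, 3, 2]) (.hor [.f 833 3 5] []) (.con 136 [2, 3, 2]) .no (.con 136 [2, 2, 3])) .no
  .no (.br 947 (.br 825 .no (.hor [.f 697 1 5] []) .no (.br 1201 (.red [.f 1201 1 3] 167 136 [4,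
  1, 1] [(167, 136, [4, 1, 1])]) .no .no (.br 1074 (.br 945 .no .no .no (.br 1064 (.red [.t 1192 2
  3, .f 1073 1 5, .f 1073 5 3, .f 946 3 1] 135 136 [4] [(135, 136, [4]), (150, 151, [4])]) (.red
  [.t 936 1 3, .t 945 1 3] 135 136 [4] [(134, 136, [4, 4]), (135, 136, [4])]) .no (.br 1219 (.hor
  [.f 1218 1 5] []) .no (.br 1347 (.br 1065 .no .no .no (.hor [.f 1056 3 5] []) (.br 1338 (.use
  574) .no .no (.red [.t 1201 4 2, .t 1337 2 4, .t 1208 2 4] 151 136 [4, 1] [(150, 151, [4]),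
  (151, 136, [4, 1]), (167, 136, [4, 1, 1])]) (.red [.f 1210 5 1, .f 1209 1 5, .f 1081 5 1, .f
  1074 1 3] 151 136 [4, 1] [(151, 136, [4, 1])]) .no) .no) .no (.hor [.f 1219 3 1, .f 1218 1 5]
  [(169, 137, [1, 1])]) (.red [.t 1346 2 4, .t 1217 2 4, .f 953 3 1] 136 136 [] [(136, 136, []),
  (152, 136, [1]), (168, 136, [1, 1])]) .no .no) .no .no .no) (.red [.f 1064 5 3, .f 937 3 1, .t
  945 1 3] 135 136 [4] [(134, 136, [4, 4]), (135, 136, [4])]) .no) .no .no) .no .no (.use 576) .no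
  .no) (.br 945 .no .no .no (.use 579) .no .no) (.red [.f 1072 5 1, .f 1072 1 3, .f 944 3 1] 135
  136 [4] [(135, 136, [4]), (151, 136, [4, 1])])) .no (.use 600)) (.hor [.f 819 1 3, .f 946 3 5]
  [(119, 120, [4])]) .no (.br 1075 (.br 1074 (.hor [.f 1074 1 5] []) .no .no (.con 136 [4, 4, 1])
  .no .no) .no .no (.red [.f 939 3 1] 134 136 [4, 4] [(134, 136, [4, 4])]) .no (.use 601)) .no
  .no)) (.use 233) .no .no (.red [.f 834 5 1, .f 827 1 3, .f 955 3 1] 136 136 [] [(120, 136, [2]),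
  (136, 136, [])])) .no) .no .no (.red [.t 1208 2 4, .f 944 3 1] 135 136 [4] [(135, 136, [4]),
  (151, 136, [4, 1])]) (.red [.f 1081 5 1, .f 1080 1 5, .t 960 1 4] 136 136 [] [(136, 136, [])])
  .no)) .no (.hor [.f 1090 3 1, .f 1089 1 5] [(153, 137, [1])]) (.red [.t 1217 2 4, .f 953 3 1, .f
  960 1 5] 136 136 [] [(136, 136, []), (152, 136, [1])]) (.use 604) .no) (.red [.t 826 3 1, .f 955
  3 1] 136 136 [] [(120, 136, [2]), (136, 136, [])]) (.hor [.f 818 3 1, .f 826 1 5] [(119, 120,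
  [4])]) .no (.br 1218 (.br 1073 (.use 558) (.red [.t 945 1 3] 135 136 [4] [(135, 136, [4])]) .no
  (.use 572) (.red [.f 1073 5 3, .f 946 3 1] 135 136 [4] [(135, 136, [4])]) (.br 834 .no (.use
  235) (.use 237) .no (.red [.f 834 5 1, .f 827 1 3, .f 955 3 1] 136 136 [] [(120, 136, [2]),
  (136, 136, [])]) (.red [.f 825 5 3, .t 826 3 1, .f 955 3 1] 136 136 [] [(120, 136, [2]), (136,
  136, [])]))) .no (.hor [.f 1090 3 1, .f 1089 1 5] [(153, 137, [1])]) (.red [.t 1217 2 4, .f 953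
  3 1, .f 960 1 5] 136 136 [] [(136, 136, []), (152, 136, [1])]) (.use 604) .no)

def c11t606 : Tr4 :=
  .br 1073 (.con 136 [4, 4]) (.hor [.f 945 1 5] []) .no (.con 136 [4, 4]) .no .no

def c11t607 : Tr4 :=
  .br 834 .no (.hor [.f 706 1 5] []) (.br 833 .no (.con 136 [2, 3, 2]) (.hor [.f 833 3 5] [])
  (.con 136 [2, 3, 2]) .no (.con 136 [2, 2, 3])) .no .no (.red [.t 953 3 2, .f 953 5 1, .t 1082 2
  3, .f 826 3 1] 136 136 [] [(136, 136, [])])

def c11t608 : Tr4 :=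
  .br 1065 (.red [.t 1064 3 1, .f 1072 1 3] 151 136 [4, 1] [(150, 136, [4, 4, 1]), (151, 136, [4,
  1])]) (.red [.f 937 1 3, .f 1064 3 5, .f 1072 5 1, .f 1072 1 3] 151 136 [4, 1] [(134, 133, [3]),
  (151, 136, [4, 1])]) .no (.br 1066 (.red [.f 1066 1 3, .f 938 3 1, .f 945 1 5, .f 1073 5 3, .t
  1080 1 4] 151 136 [4, 1] [(134, 135, [4]), (150, 149, [3]), (151, 136, [4, 1])]) .no .no (.hor
  [.f 1057 3 5] []) .no .no) (.red [.t 945 1 4, .f 1064 3 5, .f 1072 5 1, .f 1072 1 3] 151 136 [4,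
  1] [(134, 135, [4]), (151, 136, [4, 1])]) .no

def c11t609 : Tr4 :=
  .br 1075 (.con 136 [4, 1, 4]) .no .no (.hor [.f 1066 3 5] []) .no .no

def c11t610 : Tr4 :=
  .br 1202 (.con 136 [4, 1, 4, 1]) .no .no (.hor [.f 1193 3 5] []) (.con 136 [4, 1, 4, 1]) .no

def c11t611 : Tr4 :=
  .br 1339 (.hor [.f 1338 1 5] []) .no .no (.con 136 [4, 1, 1, 4, 2, 3, 1, 4, 2, 3, 1, 4, 2, 3, 1,
  4]) .no .no

def c11t612 : Tr4 :=
  .br 1067 (.use 611) (.red [.t 938 3 1, .f 945 1 5, .t 825 4 1] 119 136 [2, 4] [(119, 136, [2,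
  4]), (134, 118, [1])]) .no (.hor [.f 1058 3 5] []) .no .no

def c11t613 : Tr4 :=
  .br 1219 .no .no (.hor [.f 1219 3 1, .f 1218 1 5] [(169, 137, [1, 1])]) .no .no .no

def c11t614 : Tr4 :=
  .br 1331 (.con 136 [4, 1, 1, 4]) (.red [.f 1210 5 1, .f 1203 1 3] 167 136 [4, 1, 1] [(167, 136,
  [4, 1, 1])]) .no (.con 136 [4, 1, 1, 4]) .no (.con 136 [4, 1, 1, 4])

def c11t615 : Tr4 :=
  .br 1067 (.use 614) (.red [.t 938 3 1, .f 945 1 5, .t 825 4 1] 119 136 [2, 4] [(119, 136, [2,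
  4]), (134, 118, [1])]) .no (.hor [.f 1058 3 5] []) .no .no

def c11t616 : Tr4 :=
  .br 1067 (.hor [.f 1066 1 5] []) (.con 136 [4, 4, 4, 1]) .no (.con 136 [4, 4, 4, 1]) .no .no

def c11t617 : Tr4 :=
  .br 819 .no (.hor [.f 690 1 5] []) .no (.con 136 [4, 2, 2, 4]) .no .no

def c11t618 : Tr4 :=
  .br 819 .no (.hor [.f 690 1 5] []) .no (.con 136 [4, 2, 2, 4]) .no .no

def c11t619 : Tr4 :=
  .br 817 .no (.hor [.f 689 1 5] []) (.red [.f 1066 5 3, .f 938 3 1, .f 945 1 5, .t 825 4 1] 119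
  136 [2, 4] [(119, 136, [2, 4]), (134, 118, [1])]) (.use 618) .no (.use 617)

def c11t620 : Tr4 :=
  .br 1066 (.use 616) .no .no (.hor [.f 1057 3 5] []) (.use 619) .no

def c11t621 : Tr4 :=
  .br 1074 (.br 1075 (.hor [.f 1074 1 5] []) .no .no (.br 1201 (.red [.f 1201 1 3] 167 136 [4, 1,
  1] [(167, 136, [4, 1, 1])]) .no .no (.br 819 .no (.hor [.f 690 1 5] []) .no (.br 817 .no (.hor
  [.f 689 1 5] []) (.br 1065 .no (.red [.f 937 1 3, .f 937 3 5, .t 825 4 1] 119 136 [2, 4] [(119,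
  136, [2, 4]), (134, 118, [1])]) .no (.br 1066 (.red [.f 1066 1 3, .f 938 3 1, .f 945 1 5, .t 825
  4 1] 119 136 [2, 4] [(119, 136, [2, 4]), (134, 118, [1]), (150, 149, [3])]) .no .no (.hor [.f
  1057 3 5] []) .no .no) (.red [.t 945 1 4, .t 825 4 1] 119 136 [2, 4] [(119, 136, [2, 4]), (134,
  118, [1])]) .no) (.con 136 [2, 4, 2, 4]) .no (.con 136 [2, 4, 2, 4])) .no .no) .no (.use 608))
  .no .no) .no .no (.use 609) (.br 1200 (.br 1201 (.hor [.f 1200 1 5] []) .no .no (.use 610) (.br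
  1338 (.br 1347 (.br 819 .no (.hor [.f 690 1 5] []) .no (.br 817 .no (.hor [.f 689 1 5] []) (.br
  1065 (.br 1066 (.hor [.f 1065 1 5] []) .no .no (.use 612) (.red [.f 1066 5 3, .t 1065 1 3] 150
  136 [4, 4, 1] [(150, 136, [4, 4, 1])]) .no) (.red [.f 937 1 3, .f 937 3 5, .t 825 4 1] 119 136
  [2, 4] [(119, 136, [2, 4]), (134, 118, [1])]) .no (.br 1066 (.br 1067 (.use 611) (.con 136 [4,
  4, 4, 1]) .no (.con 136 [4, 4, 4, 1]) .no .no) .no .no (.use 612) (.red [.f 1066 5 3, .f 938 3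
  1, .f 945 1 5, .t 825 4 1] 119 136 [2, 4] [(119, 136, [2, 4]), (134, 118, [1])]) .no) (.red [.t
  945 1 4, .t 825 4 1] 119 136 [2, 4] [(119, 136, [2, 4]), (134, 118, [1])]) .no) (.con 136 [2, 4,
  2, 4]) .no (.con 136 [2, 4, 2, 4])) .no .no) (.hor [.f 1218 1 5] []) (.use 613) (.red [.t 1346 2
  4, .t 1217 2 4, .f 953 3 1] 136 136 [] [(136, 136, []), (152, 136, [1]), (168, 136, [1, 1])])
  .no .no) .no .no (.red [.t 1337 2 4] 167 136 [4, 1, 1] [(167, 136, [4, 1, 1])]) (.br 819 .no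
  (.hor [.f 690 1 5] []) .no (.br 817 .no (.hor [.f 689 1 5] []) (.br 1065 (.br 1066 (.hor [.f
  1065 1 5] []) .no .no (.use 615) (.red [.f 1066 5 3, .t 1065 1 3] 150 136 [4, 4, 1] [(150, 136,
  [4, 4, 1])]) .no) (.red [.f 937 1 3, .f 937 3 5, .t 825 4 1] 119 136 [2, 4] [(119, 136, [2, 4]),
  (134, 118, [1])]) .no (.br 1066 (.br 1067 (.use 614) (.con 136 [4, 4, 4, 1]) .no (.con 136 [4,
  4, 4, 1]) .no .no) .no .no (.use 615) (.red [.f 1066 5 3, .f 938 3 1, .f 945 1 5, .t 825 4 1]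
  119 136 [2, 4] [(119, 136, [2, 4]), (134, 118, [1])]) .no) (.red [.t 945 1 4, .t 825 4 1] 119
  136 [2, 4] [(119, 136, [2, 4]), (134, 118, [1])]) .no) (.con 136 [2, 4, 2, 4]) .no (.con 136 [2,
  4, 2, 4])) .no .no) .no) .no) .no .no (.red [.f 1064 3 1, .f 1072 1 3] 151 136 [4, 1] [(150,
  136, [4, 4, 1]), (151, 136, [4, 1])]) (.br 1065 (.red [.t 1064 3 1, .f 1072 1 3] 151 136 [4, 1]
  [(150, 136, [4, 4, 1]), (151, 136, [4, 1])]) (.red [.f 937 1 3, .f 1064 3 5, .f 1072 5 1, .f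
  1072 1 3] 151 136 [4, 1] [(134, 118, [1]), (151, 136, [4, 1])]) .no (.use 620) (.red [.t 945 1
  4, .f 1064 3 5, .f 1072 5 1, .f 1072 1 3] 151 136 [4, 1] [(134, 118, [1]), (151, 136, [4, 1])])
  .no) .no) .no

def c11t622 : Tr4 :=
  .br 937 (.red [.f 937 1 3, .f 937 3 5, .f 817 5 1, .f 818 1 3] 119 136 [4, 2] [(119, 136, [4,
  2]), (134, 118, [1])]) (.red [.t 937 2 3, .f 818 1 3] 119 136 [4, 2] [(118, 136, [4, 2, 4]),
  (119, 136, [4, 2])]) .no (.br 819 .no (.red [.f 691 1 3] 103 136 [4, 2, 2] [(103, 136, [4, 2,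
  2])]) .no (.br 936 .no (.con 136 [4, 2, 4, 2]) .no (.hor [.f 928 3 5] []) .no .no) .no .no) .no
  (.red [.t 1072 4 2, .f 937 3 5, .f 817 5 1, .f 818 1 3] 119 136 [4, 2] [(119, 136, [4, 2]),
  (134, 118, [1])])

def c11t623 : Tr4 :=
  .br 834 .no (.hor [.f 705 1 5] []) (.con 136 [2, 3, 2]) .no .no .no

def c11t624 : Tr4 :=
  .br 1201 (.hor [.f 1200 1 5] []) .no .no (.use 610) (.br 1338 (.br 1339 (.hor [.f 1338 1 5] [])
  .no .no (.con 136 [4, 1, 1, 4]) .no .no) .no .no (.red [.t 1337 2 4] 167 136 [4, 1, 1] [(167,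
  136, [4, 1, 1])]) (.br 1203 (.red [.f 1210 5 1, .f 1203 1 3] 167 136 [4, 1, 1] [(167, 136, [4,
  1, 1])]) .no .no (.con 136 [4, 4, 1, 1]) .no .no) .no) .no

def c11t625 : Tr4 :=
  .br 819 .no (.hor [.f 690 1 5] []) .no (.con 136 [2, 4, 2, 4]) .no .no

def c11t626 : Tr4 :=
  .br 699 .no (.hor [.f 570 1 5] []) (.red [.f 699 3 1, .f 691 1 3, .f 819 3 1, .f 826 1 5] 119
  136 [4, 2] [(103, 136, [4, 2, 2]), (104, 136, [2, 2]), (119, 136, [4, 2])]) .no .no .no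

def c11l25 : List Tr4 :=
  [c11t601, c11t602, c11t603, c11t604, c11t605, c11t606, c11t607, c11t608, c11t609, c11t610,
  c11t611, c11t612, c11t613, c11t614, c11t615, c11t616, c11t617, c11t618, c11t619, c11t620,
  c11t621, c11t622, c11t623, c11t624, c11t625, c11t626]

theorem c11k25 : chkLF ⟨4, 1, 0, true, -8⟩ true 0 c11N 601 c11l25 = true := by decide +kernel

def c11t627 : Tr4 :=
  .br 1074 (.br 1075 (.hor [.f 1074 1 5] []) .no .no (.br 1201 (.red [.f 1201 1 3] 167 136 [4, 1,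
  1] [(167, 136, [4, 1, 1])]) .no .no (.br 1347 (.br 1200 (.br 1339 (.br 1338 (.hor [.f 1338 1 5]
  []) .no .no (.br 1203 (.red [.t 1330 3 2, .f 1209 1 5] 167 136 [4, 1, 1] [(167, 136, [4, 1,
  1])]) .no .no (.con 136 [4, 4, 1, 1]) .no .no) .no .no) .no .no (.con 136 [4, 1, 1, 4]) .no
  (.red [.f 1210 5 1, .f 1209 1 5, .f 1081 5 1, .f 1074 1 3] 151 136 [4, 1] [(151, 136, [4, 1])]))
  .no .no (.red [.f 1064 3 1, .f 1072 1 3] 151 136 [4, 1] [(150, 136, [4, 4, 1]), (151, 136, [4,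
  1])]) .no .no) (.hor [.f 1218 1 5] []) (.use 613) (.red [.t 1346 2 4, .t 1217 2 4, .f 953 3 1]
  136 136 [] [(136, 136, []), (152, 136, [1]), (168, 136, [1, 1])]) .no .no) .no (.use 608)) .no
  .no) .no .no (.use 609) (.br 825 .no (.br 818 .no (.br 1347 (.br 817 .no (.hor [.f 689 1 5] [])
  .no (.br 1200 (.use 624) .no .no (.red [.f 1064 3 1, .f 1072 1 3] 151 136 [4, 1] [(150, 136, [4,
  4, 1]), (151, 136, [4, 1])]) (.br 1065 (.red [.t 1064 3 1, .f 1072 1 3] 151 136 [4, 1] [(150,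
  136, [4, 4, 1]), (151, 136, [4, 1])]) (.red [.f 937 1 3, .f 1064 3 5, .f 1072 5 1, .f 1072 1 3]
  151 136 [4, 1] [(134, 118, [1]), (151, 136, [4, 1])]) .no (.br 937 .no .no .no (.br 936 .no
  (.con 136 [2, 4, 4, 2]) .no (.hor [.f 928 3 5] []) .no .no) .no (.red [.t 1072 4 2, .f 1072 5 1,
  .f 1072 1 3] 151 136 [4, 1] [(134, 118, [1]), (151, 136, [4, 1])])) (.red [.t 945 1 4, .f 1064 3
  5, .f 1072 5 1, .f 1072 1 3] 151 136 [4, 1] [(134, 118, [1]), (151, 136, [4, 1])]) .no) .no) .no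
  (.use 625)) (.hor [.f 1218 1 5] []) (.use 613) (.red [.t 1346 2 4, .t 1217 2 4, .f 953 3 1] 136
  136 [] [(136, 136, []), (152, 136, [1]), (168, 136, [1, 1])]) .no .no) .no (.red [.f 810 3 1, .f
  818 1 3] 119 136 [2, 4] [(118, 136, [2, 4, 4]), (119, 136, [2, 4])]) (.red [.t 954 2 4] 119 136
  [2, 4] [(119, 136, [2, 4])]) (.br 937 (.red [.f 937 1 3, .f 937 3 5, .f 817 5 1, .f 818 1 3] 119
  136 [2, 4] [(119, 136, [2, 4]), (134, 118, [1])]) (.red [.t 937 2 3, .f 818 1 3] 119 136 [2, 4]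
  [(118, 136, [2, 4, 4]), (119, 136, [2, 4])]) .no (.br 936 .no (.br 809 .no (.br 819 .no (.br 698
  .no (.use 626) .no (.red [.t 697 1 4, .f 690 1 5] 103 136 [2, 2, 4] [(103, 136, [2, 2, 4])])
  (.red [.t 834 2 4, .f 691 1 3] 103 136 [2, 2, 4] [(103, 136, [2, 2, 4]), (104, 136, [2, 2])])
  .no) .no (.con 136 [2, 4, 4, 2]) .no .no) .no (.red [.f 801 3 1, .f 808 1 5] 117 136 [2, 4, 4,
  4] [(117, 136, [2, 4, 4, 4])]) (.red [.f 809 5 3, .f 810 3 1, .f 818 1 3] 119 136 [2, 4] [(118,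
  136, [2, 4, 4]), (119, 136, [2, 4])]) .no) .no (.hor [.f 928 3 5] []) .no .no) .no (.red [.t
  1072 4 2, .f 937 3 5, .f 817 5 1, .f 818 1 3] 119 136 [2, 4] [(119, 136, [2, 4]), (134, 118,
  [1])]))) .no (.br 1347 (.br 1200 (.use 624) .no .no (.red [.f 1064 3 1, .f 1072 1 3] 151 136 [4,
  1] [(150, 136, [4, 4, 1]), (151, 136, [4, 1])]) (.br 1065 (.red [.t 1064 3 1, .f 1072 1 3] 151
  136 [4, 1] [(150, 136, [4, 4, 1]), (151, 136, [4, 1])]) (.red [.f 937 1 3, .f 937 3 5, .t 825 4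
  1] 119 136 [2, 4] [(119, 136, [2, 4]), (134, 118, [1])]) .no (.br 1066 (.use 616) .no .no (.hor
  [.f 1057 3 5] []) (.red [.f 1066 5 3, .f 938 3 1, .f 945 1 5, .t 825 4 1] 119 136 [2, 4] [(119,
  136, [2, 4]), (134, 118, [1])]) .no) (.red [.t 945 1 4, .t 825 4 1] 119 136 [2, 4] [(119, 136,
  [2, 4]), (134, 118, [1])]) .no) .no) (.hor [.f 1218 1 5] []) (.use 613) (.red [.t 1346 2 4, .t
  1217 2 4, .f 953 3 1] 136 136 [] [(136, 136, []), (152, 136, [1]), (168, 136, [1, 1])]) .no .no)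
  .no .no) .no

def c11t628 : Tr4 :=
  .br 1073 (.br 1074 (.hor [.f 1073 1 5] []) .no .no (.con 136 [4, 4, 1]) (.con 136 [4, 4, 1])
  .no) .no .no (.use 572) (.br 1200 (.br 1075 (.con 136 [4, 4, 1]) .no .no (.br 1066 (.br 1065
  (.hor [.f 1065 1 5] []) (.con 136 [4, 4, 4]) .no (.con 136 [4, 4, 4, 1]) .no .no) (.red [.f 945
  5 1, .f 938 1 3] 134 136 [4, 4] [(134, 136, [4, 4])]) .no (.br 1201 (.hor [.f 1200 1 5] []) .no
  .no (.br 1202 (.con 136 [4, 4, 1, 1]) .no .no (.hor [.f 1193 3 5] []) (.con 136 [4, 4, 1, 1])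
  .no) (.br 1065 (.red [.f 1073 5 1, .f 1065 1 3] 150 136 [4, 4, 1] [(150, 136, [4, 4, 1])]) (.con
  136 [4, 4, 4]) .no (.hor [.f 1057 3 5] []) .no .no) .no) .no (.hor [.f 1065 5 3, .f 1064 3 5, .f
  1066 3 5] [])) .no .no) .no .no (.red [.f 1073 5 3, .f 1064 3 1] 150 136 [4, 4, 1] [(150, 136,
  [4, 4, 1])]) (.red [.f 1073 5 3, .t 1080 1 4] 151 136 [4, 1] [(151, 136, [4, 1])]) .no) .no

def c11t629 : Tr4 :=
  .br 818 .no (.con 136 [2, 4, 2, 4]) .no (.hor [.f 810 3 5] []) .no .no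

def c11t630 : Tr4 :=
  .br 825 .no (.use 629) (.br 824 .no (.con 136 [2, 2]) (.hor [.f 824 3 5] []) .no .no .no) .no
  .no (.hor [.f 816 5 3, .f 816 3 1, .t 825 4 1, .f 816 1 5, .f 946 3 5] [])

def c11t631 : Tr4 :=
  .br 819 .no (.red [.f 691 1 3, .f 819 3 1, .f 826 1 5] 119 136 [2, 4] [(103, 136, [2, 4, 2]),
  (119, 136, [2, 4])]) .no (.br 817 .no (.use 17) (.red [.t 825 4 1] 119 136 [2, 4] [(119, 136,
  [2, 4])]) (.br 818 .no (.con 136 [2, 4, 2, 4]) .no (.hor [.f 809 3 5] []) .no .no) (.red [.f 834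
  5 1, .f 826 1 3, .f 817 5 1, .f 826 3 1, .f 818 1 3] 119 136 [2, 4] [(119, 136, [2, 4])]) (.use
  630)) .no (.red [.t 954 2 4] 119 136 [2, 4] [(119, 136, [2, 4])])

def c11t632 : Tr4 :=
  .br 833 .no (.use 623) (.br 825 .no (.br 824 .no (.con 136 [2, 2]) (.br 834 .no (.br 817 .no
  (.red [.f 689 1 3] 103 136 [2, 2, 4] [(103, 136, [2, 2, 4])]) .no (.br 818 .no (.br 816 .no
  (.con 136 [2, 2, 4, 4]) .no (.hor [.f 808 3 5] []) .no .no) .no (.hor [.f 809 3 5] []) (.red [.t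
  954 2 4] 119 136 [2, 4] [(119, 136, [2, 4])]) .no) (.red [.f 817 5 1, .f 818 1 3] 119 136 [2, 4]
  [(119, 136, [2, 4])]) (.br 818 .no (.use 625) .no (.br 819 .no (.br 698 .no (.use 626) .no (.red
  [.t 826 1 3, .t 690 3 1, .f 698 1 3, .f 826 3 1] 103 136 [2, 2, 4] [(103, 136, [2, 2, 4]), (104,
  136, [2, 2])]) (.red [.t 834 2 4, .f 691 1 3] 103 136 [2, 2, 4] [(103, 136, [2, 2, 4]), (104,
  136, [2, 2])]) .no) .no (.use 629) .no .no) (.red [.t 954 2 4] 119 136 [2, 4] [(119, 136, [2,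
  4])]) .no)) (.hor [.f 833 3 5] []) .no .no .no) (.con 136 [2, 2]) .no .no) .no (.red [.t 825 4
  1] 119 136 [2, 4] [(119, 136, [2, 4])]) .no (.con 136 [2, 2])) (.con 136 [2, 2]) (.red [.t 953 3
  2, .f 953 5 1, .t 1082 2 3, .f 826 3 1] 136 136 [] [(136, 136, [])]) (.con 136 [2, 2])

def c11t633 : Tr4 :=
  .br 1072 (.red [.f 1072 1 3, .f 944 3 1] 135 136 [4] [(135, 136, [4]), (151, 136, [4, 1])]) .no
  .no (.br 946 (.use 606) (.red [.f 818 1 3] 119 136 [2, 4] [(119, 136, [2, 4])]) .no (.br 827 .no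
  (.br 945 (.br 818 .no (.use 621) .no (.red [.f 810 3 1, .f 818 1 3] 119 136 [2, 4] [(118, 136,
  [2, 4, 4]), (119, 136, [2, 4])]) (.red [.t 954 2 4] 119 136 [2, 4] [(119, 136, [2, 4])]) (.use
  622)) (.con 136 [2, 4, 4]) .no (.hor [.f 937 3 5] []) .no .no) (.br 824 .no (.con 136 [2, 2])
  (.br 833 .no (.use 623) (.br 834 .no (.br 945 (.use 627) (.con 136 [2, 4, 4]) .no (.hor [.f 937
  3 5] []) .no .no) (.hor [.f 833 3 5] []) .no .no .no) (.con 136 [2, 2]) (.red [.t 953 3 2, .f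
  953 5 1, .t 1082 2 3, .f 826 3 1] 136 136 [] [(136, 136, [])]) .no) (.con 136 [2, 2]) (.con 136
  [2, 2]) .no) (.red [.f 819 3 1, .f 826 1 5] 119 136 [2, 4] [(119, 136, [2, 4])]) .no .no) .no
  (.use 628)) (.br 1099 (.use 231) (.red [.t 1098 4 2, .t 961 4 1, .t 952 4 1] 136 136 [] [(135,
  136, [4]), (136, 136, []), (137, 136, [3])]) (.br 946 (.con 136 [4, 4]) (.red [.f 818 1 3] 119
  136 [2, 4] [(119, 136, [2, 4])]) .no (.br 945 .no (.con 136 [2, 4, 4]) .no (.hor [.f 937 3 5]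
  []) .no .no) .no (.br 971 .no (.br 827 .no (.br 835 .no (.use 607) .no .no .no (.use 631)) (.use
  632) (.red [.f 819 3 1, .f 826 1 5] 119 136 [2, 4] [(119, 136, [2, 4])]) .no .no) (.br 1097
  (.red [.f 971 3 1, .t 1098 4 2, .t 961 4 1, .t 952 4 1] 136 136 [] [(135, 136, [4]), (136, 136,
  []), (137, 136, [3]), (138, 136, [3, 3])]) (.br 827 .no (.br 835 .no (.use 607) (.br 970 .no
  (.hor [.f 971 3 1, .t 842 1 4, .f 962 3 1, .f 969 1 5, .f 971 1 3] [(121, 136, [2, 3]), (137,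
  136, [3])]) (.hor [.f 970 3 5] []) .no .no .no) .no .no (.use 631)) (.use 632) (.red [.f 819 3
  1, .f 826 1 5] 119 136 [2, 4] [(119, 136, [2, 4])]) .no .no) (.red [.f 971 3 1, .t 1098 4 2, .t
  961 4 1, .t 952 4 1] 136 136 [] [(135, 136, [4]), (136, 136, []), (137, 136, [3]), (138, 136,
  [3, 3])]) .no .no (.red [.f 971 3 1, .t 1098 4 2, .t 961 4 1, .t 952 4 1] 136 136 [] [(135, 136,
  [4]), (136, 136, []), (137, 136, [3]), (138, 136, [3, 3])])) .no .no (.red [.f 962 5 3, .f 962 3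
  1, .t 961 4 1, .t 952 4 1] 136 136 [] [(135, 136, [4]), (136, 136, []), (137, 136, [3])]))) .no
  .no .no) .no

def c11t634 : Tr4 :=
  .br 1067 (.red [.t 1194 3 2, .t 1201 3 2, .f 1080 1 5] 151 136 [4, 1] [(150, 136, [4, 4, 1]),
  (151, 136, [4, 1])]) (.red [.t 938 3 1, .f 945 1 5, .f 1073 5 3, .f 1073 3 1] 151 136 [4, 1]
  [(134, 118, [1]), (151, 136, [4, 1])]) .no (.br 1066 .no .no .no (.hor [.f 1058 3 5] []) .no
  (.red [.t 945 1 4, .f 1064 3 5, .t 1208 2 4] 151 136 [4, 1] [(134, 135, [4]), (151, 136, [4,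
  1])])) .no (.red [.f 1066 5 3, .f 1066 3 1, .t 1201 3 2, .f 1081 1 3] 151 136 [4, 1] [(150, 136,
  [4, 4, 1]), (151, 136, [4, 1]), (152, 136, [1])])

def c11t635 : Tr4 :=
  .br 1066 (.hor [.f 1065 1 5] []) .no .no (.br 1194 (.red [.f 1194 1 3, .t 1194 3 2] 150 136 [4,
  4, 1] [(150, 136, [4, 4, 1]), (166, 136, [4, 4, 1, 1])]) .no .no (.hor [.f 1058 3 1, .f 1065 1
  5] [(149, 150, [4])]) .no .no) .no .no

def c11t636 : Tr4 :=
  .br 1066 (.hor [.f 1065 1 5] []) .no .no (.hor [.f 1058 3 5] []) .no .no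

def c11t637 : Tr4 :=
  .br 827 .no (.br 818 .no (.br 1065 (.br 817 .no (.hor [.f 689 1 5] []) (.br 1067 (.use 635)
  (.red [.t 938 3 1, .f 945 1 5, .t 825 4 1] 119 136 [2, 4] [(119, 136, [2, 4]), (134, 118, [1])])
  .no (.br 819 .no (.hor [.f 690 1 5] []) .no (.br 936 .no (.con 136 [2, 4, 4, 2]) .no (.br 937
  .no (.br 939 .no .no .no (.red [.f 931 3 1, .t 938 3 1, .f 945 1 5, .t 825 4 1, .f 809 1 3] 119
  136 [2, 4] [(118, 136, [2, 4, 4]), (119, 136, [2, 4]), (133, 118, [4, 1]), (134, 118, [1])]) .no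
  .no) .no (.hor [.f 928 3 5] []) .no .no) (.red [.t 1072 4 2, .f 937 3 5, .t 825 4 1] 119 136 [2,
  4] [(119, 136, [2, 4]), (134, 118, [1])]) .no) .no .no) .no (.use 619)) (.use 618) .no (.use
  617)) (.red [.f 937 1 3, .f 1064 3 5, .t 1208 2 4] 151 136 [4, 1] [(134, 118, [1]), (151, 136,
  [4, 1])]) .no (.use 620) (.red [.t 945 1 4, .f 1064 3 5, .t 1208 2 4] 151 136 [4, 1] [(134, 118,
  [1]), (151, 136, [4, 1])]) .no) .no (.red [.f 810 3 1, .f 818 1 3] 119 136 [2, 4] [(118, 136,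
  [2, 4, 4]), (119, 136, [2, 4])]) (.red [.t 954 2 4] 119 136 [2, 4] [(119, 136, [2, 4])]) (.use
  622)) (.br 937 (.red [.f 937 1 3, .f 1064 3 5, .t 1208 2 4] 151 136 [4, 1] [(134, 118, [1]),
  (151, 136, [4, 1])]) (.br 818 .no (.br 817 .no (.hor [.f 689 1 5] []) (.br 1065 (.br 1067 (.use
  635) (.red [.t 938 3 1, .f 945 1 5, .t 825 4 1, .f 809 1 3] 119 136 [2, 4] [(118, 136, [2, 4,
  4]), (119, 136, [2, 4]), (134, 118, [1])]) .no (.use 636) .no (.red [.f 1066 5 3, .f 938 3 1, .f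
  945 1 5, .t 825 4 1, .f 809 1 3] 119 136 [2, 4] [(118, 136, [2, 4, 4]), (119, 136, [2, 4]),
  (134, 118, [1])])) .no .no (.br 1066 (.use 616) .no .no (.hor [.f 1057 3 5] []) (.red [.f 1066 5
  3, .f 938 3 1, .f 945 1 5, .t 825 4 1, .f 809 1 3] 119 136 [2, 4] [(118, 136, [2, 4, 4]), (119,
  136, [2, 4]), (134, 118, [1])]) .no) (.red [.t 945 1 4, .t 825 4 1, .f 809 1 3] 119 136 [2, 4]
  [(118, 136, [2, 4, 4]), (119, 136, [2, 4]), (134, 118, [1])]) .no) .no .no (.use 625)) .no (.red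
  [.f 810 3 1, .f 809 1 5] 118 136 [2, 4, 4] [(118, 136, [2, 4, 4])]) (.red [.t 954 2 4] 119 136
  [2, 4] [(119, 136, [2, 4])]) (.red [.t 937 2 3, .f 818 1 3] 119 136 [2, 4] [(118, 136, [2, 4,
  4]), (119, 136, [2, 4])])) .no (.br 1065 (.br 1067 (.use 635) (.red [.t 938 3 1, .f 945 1 5, .f
  1073 5 3, .f 1073 3 1] 151 136 [4, 1] [(134, 118, [1]), (151, 136, [4, 1])]) .no (.use 636) .no
  (.red [.f 1066 5 3, .f 938 3 1, .f 945 1 5, .f 1073 5 3, .f 1073 3 1] 151 136 [4, 1] [(134, 118,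
  [1]), (151, 136, [4, 1])])) .no .no (.br 1066 (.use 616) .no .no (.hor [.f 1057 3 5] []) (.red
  [.f 1066 5 3, .f 938 3 1, .f 945 1 5, .f 1073 5 3, .f 1073 3 1] 151 136 [4, 1] [(134, 118, [1]),
  (151, 136, [4, 1])]) .no) (.red [.t 945 1 4, .f 1064 3 5, .t 1208 2 4] 151 136 [4, 1] [(134,
  118, [1]), (151, 136, [4, 1])]) .no) .no (.red [.t 1072 4 2, .t 1208 2 4, .f 944 3 1] 135 136
  [4] [(134, 118, [1]), (135, 136, [4]), (151, 136, [4, 1])])) (.red [.f 819 3 1, .f 826 1 5] 119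
  136 [2, 4] [(119, 136, [2, 4])]) .no .no

def c11t638 : Tr4 :=
  .br 1073 .no (.br 946 .no (.red [.f 818 1 3] 119 136 [2, 4] [(119, 136, [2, 4])]) .no (.br 1202
  (.use 637) .no .no (.use 634) (.red [.f 1074 5 1, .t 1201 3 2, .f 1081 1 3] 151 136 [4, 1]
  [(151, 136, [4, 1]), (152, 136, [1])]) .no) .no .no) .no (.use 572) .no .no

def c11t639 : Tr4 :=
  .br 1091 (.use 571) .no (.hor [.f 1090 3 5] []) (.br 955 .no (.br 954 .no (.hor [.f 826 1 5] [])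
  .no (.use 605) .no .no) .no (.br 954 .no (.br 1218 (.br 1209 (.br 1210 (.hor [.f 1209 1 5] [])
  .no .no (.use 230) (.use 633) .no) .no .no (.br 1072 (.red [.f 1072 1 3, .f 944 3 1] 135 136 [4]
  [(135, 136, [4]), (151, 136, [4, 1])]) .no .no (.br 1074 (.red [.t 1201 3 2, .f 1081 1 3, .f 953
  3 1] 136 136 [] [(136, 136, []), (151, 136, [4, 1]), (152, 136, [1])]) (.use 606) .no (.use 609)
  (.br 1210 (.br 1211 (.hor [.f 1210 1 5] []) .no (.red [.f 1210 1 3, .t 1217 2 4] 168 136 [1, 1]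
  [(152, 136, [1]), (168, 136, [1, 1])]) (.br 1073 .no (.br 946 .no (.red [.f 818 1 3] 119 136 [2,
  4] [(119, 136, [2, 4])]) .no (.br 1202 (.hor [.f 1202 1 3, .f 1201 3 5] [(167, 151, [1])]) .no
  .no (.use 634) .no .no) .no .no) .no (.use 572) .no .no) .no .no) .no .no (.hor [.f 1201 3 5]
  []) (.use 638) .no) (.red [.f 1073 5 3, .f 1073 3 1, .f 1081 1 3] 151 136 [4, 1] [(151, 136, [4,
  1]), (152, 136, [1])])) (.red [.t 1208 2 4, .f 944 3 1] 135 136 [4] [(135, 136, [4]), (151, 136,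
  [4, 1])]) .no) (.red [.f 1081 5 1, .f 1080 1 5, .t 960 1 4] 136 136 [] [(136, 136, [])]) .no)
  .no (.hor [.f 1090 3 1, .f 1089 1 5] [(153, 137, [1])]) (.red [.t 1217 2 4, .f 953 3 1, .f 960 1
  5] 136 136 [] [(136, 136, []), (152, 136, [1])]) (.br 1209 (.use 602) .no .no (.br 1072 (.red
  [.f 1072 1 3, .f 944 3 1] 135 136 [4] [(135, 136, [4]), (151, 136, [4, 1])]) .no .no (.br 1074
  (.red [.t 1201 3 2, .f 1081 1 3, .f 953 3 1] 136 136 [] [(136, 136, []), (151, 136, [4, 1]),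
  (152, 136, [1])]) (.use 606) .no (.use 609) (.br 1210 (.br 1073 .no (.br 946 .no (.red [.f 818 1
  3] 119 136 [2, 4] [(119, 136, [2, 4])]) .no (.br 1202 (.use 637) .no .no (.use 634) (.red [.f
  1074 5 1, .t 1201 3 2, .f 1081 1 3] 151 136 [4, 1] [(151, 136, [4, 1]), (152, 136, [1])]) .no)
  .no .no) .no (.use 572) .no .no) .no .no (.hor [.f 1201 3 5] []) (.use 638) .no) (.red [.f 1073
  5 3, .f 1073 3 1, .f 1081 1 3] 151 136 [4, 1] [(151, 136, [4, 1]), (152, 136, [1])])) (.use 603)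
  .no) (.red [.f 1081 5 1, .f 1080 1 5, .t 960 1 4] 136 136 [] [(136, 136, [])]) .no) .no) .no
  (.hor [.f 946 3 5] []) .no .no) .no (.red [.f 954 5 3, .f 955 3 1] 136 136 [] [(136, 136, [])]))
  .no .no

def c11t640 : Tr4 :=
  .br 825 .no (.br 824 .no (.hor [.f 696 1 5] []) .no (.br 827 .no (.con 136 [2, 2, 4]) (.con 136
  [2, 2]) (.red [.f 819 3 1, .f 826 1 5] 119 136 [2, 4] [(119, 136, [2, 4])]) .no .no) .no .no)
  (.con 136 [2, 2]) (.red [.t 825 4 1] 119 136 [2, 4] [(119, 136, [2, 4])]) .no (.br 827 .no (.br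
  819 .no (.red [.f 691 1 3] 103 136 [2, 2, 4] [(103, 136, [2, 2, 4])]) .no (.br 817 .no (.use 17)
  .no (.br 818 .no (.con 136 [2, 2, 4, 4]) .no (.hor [.f 809 3 5] []) .no .no) (.red [.f 817 5 1,
  .f 818 1 3] 119 136 [2, 4] [(119, 136, [2, 4])]) (.use 630)) .no (.red [.t 960 2 4, .t 824 3 1,
  .t 954 2 4] 119 136 [2, 4] [(119, 136, [2, 4])])) (.con 136 [2, 2]) (.red [.f 819 3 1, .f 826 1
  5] 119 136 [2, 4] [(119, 136, [2, 4])]) .no .no)

def c11l26 : List Tr4 :=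
  [c11t627, c11t628, c11t629, c11t630, c11t631, c11t632, c11t633, c11t634, c11t635, c11t636,
  c11t637, c11t638, c11t639, c11t640]

theorem c11k26 : chkLF ⟨4, 1, 0, true, -8⟩ true 0 c11N 627 c11l26 = true := by decide +kernel

def c11t641 : Tr4 :=
  .br 955 .no (.use 259) (.red [.t 962 1 4] 136 136 [] [(136, 136, [])]) (.br 954 .no (.br 946
  (.br 1073 (.con 136 [4, 4]) (.red [.t 944 3 1] 135 136 [4] [(135, 136, [4])]) .no (.con 136 [4,
  4]) .no (.con 136 [4, 4])) (.red [.f 818 1 3] 119 136 [2, 4] [(119, 136, [2, 4])]) .no (.br 945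
  (.red [.t 944 3 1] 135 136 [4] [(135, 136, [4])]) (.con 136 [2, 4, 4]) .no (.hor [.f 937 3 5]
  []) .no .no) .no (.use 640)) .no (.hor [.f 946 3 5] []) .no .no) .no (.red [.f 954 5 1, .f 954 1
  3] 136 136 [] [(136, 136, [])])

def c11t642 : Tr4 :=
  .br 1072 .no .no .no (.hor [.f 1064 3 5] []) .no .no

def c11t643 : Tr4 :=
  .br 1208 (.br 1088 (.use 263) .no (.br 1082 (.br 1209 (.hor [.f 1208 1 5] []) .no .no (.br 1072
  (.red [.t 1200 2 3, .f 944 3 1] 135 136 [4] [(135, 136, [4]), (151, 136, [4, 1])]) .no .no (.br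
  1073 .no (.red [.t 944 3 1] 135 136 [4] [(135, 136, [4])]) .no (.hor [.f 1064 3 5] []) (.red [.t
  1209 4 2] 151 136 [4, 1] [(151, 136, [4, 1])]) .no) (.red [.f 1072 5 3, .f 944 3 1] 135 136 [4]
  [(135, 136, [4])]) .no) .no .no) (.red [.f 954 1 3, .f 953 3 5] 136 136 [] [(136, 136, [])]) .no
  (.br 954 .no (.br 955 (.con 136 [4]) (.hor [.f 826 1 5] []) (.br 1083 (.br 1091 (.red [.f 1083 1
  3] 152 136 [1] [(152, 136, [1])]) .no (.use 498) .no .no .no) .no (.red [.f 955 3 1, .f 962 1 5]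
  136 136 [] [(136, 136, [])]) (.hor [.f 1074 3 5] []) .no .no) (.br 946 .no (.red [.f 818 1 3]
  119 136 [2, 4] [(119, 136, [2, 4])]) .no (.br 945 (.red [.t 944 3 1, .f 1073 3 5] 135 136 [4]
  [(135, 136, [4])]) (.con 136 [2, 4, 4]) .no (.hor [.f 937 3 5] []) .no .no) .no (.use 640)) .no
  .no) .no (.red [.f 946 3 1, .f 954 1 3] 136 136 [] [(135, 136, [4]), (136, 136, [])]) (.br 1083
  (.br 1091 (.red [.f 1083 1 3] 152 136 [1] [(152, 136, [1])]) (.con 136 [3]) (.use 498) .no .no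
  .no) .no (.red [.t 1090 2 4, .f 953 3 5] 136 136 [] [(136, 136, [])]) (.hor [.f 1074 3 5] [])
  .no .no) .no) (.use 641) .no) .no .no .no) .no (.red [.t 1216 4 2, .f 953 3 1, .f 961 1 5] 136
  136 [] [(136, 136, []), (152, 136, [1])]) (.br 1088 (.use 263) .no (.br 1082 (.br 1083 (.hor [.f
  1082 1 5] []) (.con 136 [4]) (.br 955 .no (.use 258) (.red [.f 955 3 1, .f 962 1 5] 136 136 []
  [(136, 136, [])]) (.br 954 .no (.br 946 (.br 1073 (.con 136 [4, 4]) (.red [.t 944 3 1] 135 136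
  [4] [(135, 136, [4])]) .no (.con 136 [4, 4]) .no (.con 136 [4, 4])) (.red [.f 818 1 3] 119 136
  [2, 4] [(119, 136, [2, 4])]) .no (.br 945 (.red [.t 944 3 1] 135 136 [4] [(135, 136, [4])])
  (.con 136 [2, 4, 4]) .no (.hor [.f 937 3 5] []) .no .no) .no (.use 640)) .no (.hor [.f 946 3 5]
  []) .no .no) .no (.red [.t 1090 2 4, .f 953 3 5] 136 136 [] [(136, 136, [])])) (.con 136 [4, 1])
  .no .no) (.red [.f 954 1 3, .f 953 3 5] 136 136 [] [(136, 136, [])]) .no (.br 1073 (.red [.t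
  1200 3 2, .f 1073 3 5, .t 961 4 1] 136 136 [] [(136, 136, []), (151, 150, [3])]) (.red [.t 944 3
  1, .f 1073 3 5] 135 136 [4] [(135, 136, [4])]) .no (.use 642) .no (.red [.f 1072 5 3, .f 944 3
  1] 135 136 [4] [(135, 136, [4])])) (.use 641) .no) .no .no .no) (.red [.f 1080 5 1, .f 1081 1 3,
  .f 953 3 1] 136 136 [] [(136, 136, []), (152, 136, [1])]) .no

def c11t644 : Tr4 :=
  .br 1081 (.br 1080 (.hor [.f 1080 1 5] []) .no (.br 1089 (.red [.f 1081 1 3, .f 1080 3 5] 152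
  136 [1] [(152, 136, [1])]) .no (.br 962 (.con 136 [3, 1]) (.con 136 [3]) (.con 136 [3]) (.con
  136 [3]) (.con 136 [3]) .no) .no (.con 136 [3]) .no) (.br 1082 (.red [.f 944 3 1] 135 136 [4]
  [(135, 136, [4])]) (.br 1089 (.red [.f 1081 1 3, .f 953 3 1] 136 136 [] [(136, 136, []), (152,
  136, [1])]) .no (.use 563) .no (.red [.t 953 3 1] 136 136 [] [(136, 136, [])]) (.red [.f 944 3
  1, .t 952 1 3] 136 136 [] [(135, 136, [4]), (136, 136, [])])) (.red [.f 944 3 1] 135 136 [4]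
  [(135, 136, [4])]) (.red [.f 944 3 1] 135 136 [4] [(135, 136, [4])]) (.red [.f 944 3 1] 135 136
  [4] [(135, 136, [4])]) .no) .no .no) .no (.red [.f 953 3 1] 136 136 [] [(136, 136, [])]) (.br
  1080 (.br 1082 (.con 136 [4, 1]) (.use 565) (.con 136 [4, 1]) (.hor [.f 1073 3 5] []) (.con 136
  [4, 1]) .no) .no (.br 1082 (.con 136 [4, 1]) (.br 1090 (.con 136 [3]) (.red [.f 954 1 3, .f 953
  3 5] 136 136 [] [(136, 136, [])]) (.con 136 [3]) .no (.con 136 [3]) (.con 136 [3])) (.con 136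
  [3]) (.hor [.f 1073 3 5] []) (.con 136 [1]) .no) (.hor [.f 1072 3 5] []) .no .no) (.br 1080 (.br
  962 (.red [.t 961 4 1] 136 136 [] [(136, 136, [])]) (.br 1089 (.br 955 (.con 136 [4]) (.use 178)
  (.br 1083 (.br 1091 (.red [.f 1083 1 3] 152 136 [1] [(152, 136, [1])]) .no (.use 185) .no .no
  (.use 567)) .no (.red [.f 955 3 1] 136 136 [] [(136, 136, [])]) (.con 136 [4, 1]) .no .no) (.use
  564) .no (.br 835 (.hor [.f 834 1 5] []) (.con 136 [2, 3]) (.con 136 [2, 3]) (.con 136 [2, 3])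
  .no .no)) .no (.br 1090 (.use 562) .no (.hor [.f 1089 3 5] []) .no (.con 136 [1, 3]) .no) .no
  (.red [.f 1081 5 3, .f 953 3 1] 136 136 [] [(136, 136, [])]) (.con 136 [3])) (.br 1090 (.use
  568) .no (.red [.f 962 3 1, .t 961 4 1] 136 136 [] [(136, 136, []), (137, 136, [3])]) .no (.use
  570) (.red [.f 1081 5 3, .f 953 3 1] 136 136 [] [(136, 136, [])])) (.hor [.f 953 3 5] []) (.br
  1090 (.use 568) .no (.br 1089 (.br 960 (.use 639) (.con 136 [3]) (.con 136 [3]) .no .no .no) .no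
  (.hor [.f 1089 3 5] []) .no .no (.con 136 [3])) .no (.use 570) (.red [.f 1081 5 3, .f 953 3 1]
  136 136 [] [(136, 136, [])])) .no) .no (.br 962 (.red [.t 961 4 1] 136 136 [] [(136, 136, [])])
  (.con 136 [3]) (.con 136 [3]) (.con 136 [3]) (.con 136 [3]) .no) (.red [.f 944 3 1] 135 136 [4]
  [(135, 136, [4])]) .no .no) (.br 960 (.red [.t 960 1 4] 136 136 [] [(136, 136, [])]) (.br 962
  (.br 1089 (.use 643) .no (.use 256) .no .no (.red [.f 1080 5 3, .f 953 3 1] 136 136 [] [(136,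
  136, [])])) (.con 136 [3]) (.con 136 [3]) (.con 136 [3]) (.con 136 [3]) .no) (.br 962 (.use 264)
  (.con 136 [3]) (.con 136 [3]) (.con 136 [3]) (.con 136 [3]) .no) .no .no .no)

def c11t645 : Tr4 :=
  .br 833 (.hor [.f 833 1 5] []) (.con 136 [2, 3]) (.con 136 [2, 3]) (.con 136 [2, 3]) .no (.con
  136 [2, 3])

def c11t646 : Tr4 :=
  .br 1073 .no .no .no (.hor [.f 1064 3 5] []) .no .no

def c11t647 : Tr4 :=
  .br 1219 (.con 136 [1, 3, 1]) .no (.hor [.f 1218 3 5] []) .no .no .no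

def c11t648 : Tr4 :=
  .br 1218 (.red [.f 1210 1 3, .t 1210 3 2] 168 136 [1, 1] [(152, 136, [1]), (168, 136, [1, 1])])
  .no (.use 647) .no (.red [.f 1081 3 1, .f 1090 5 1, .f 1083 1 3, .f 955 3 1] 136 136 [] [(136,
  136, [])]) .no

def c11t649 : Tr4 :=
  .br 1209 (.hor [.f 1209 1 5] []) .no (.use 648) (.red [.t 1208 2 4, .f 944 3 1] 135 136 [4]
  [(135, 136, [4]), (151, 136, [4, 1])]) .no .no

def c11t650 : Tr4 :=
  .br 939 .no (.hor [.t 810 3 1, .f 817 1 5] [(118, 136, [4, 2, 4])]) .no (.hor [.f 930 3 5] [])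
  .no .no

def c11t651 : Tr4 :=
  .br 818 (.hor [.f 817 1 5] []) (.hor [.t 944 3 2, .f 690 1 3, .f 818 3 5, .t 824 1 4] [(103,
  104, [4])]) .no (.br 946 .no .no .no (.red [.f 810 3 1, .f 817 1 5] 118 136 [2, 4, 4] [(118,
  136, [2, 4, 4])]) (.br 1075 (.red [.f 1075 1 3, .f 1074 3 5, .f 1082 5 3, .f 955 3 1] 136 136 []
  [(136, 136, []), (151, 135, [1])]) .no .no (.br 938 (.red [.t 1066 2 3, .f 810 3 1] 118 136 [2,
  4, 4] [(118, 136, [2, 4, 4]), (134, 136, [4, 4])]) .no .no (.use 650) (.red [.f 938 5 3, .f 810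
  3 1] 118 136 [2, 4, 4] [(118, 136, [2, 4, 4])]) (.red [.t 817 1 4] 118 136 [2, 4, 4] [(118, 136,
  [2, 4, 4])])) .no .no) .no) .no .no

def c11t652 : Tr4 :=
  .br 1219 (.hor [.f 1218 1 5] []) .no .no .no .no .no

def c11t653 : Tr4 :=
  .br 835 .no (.hor [.f 706 1 5] []) .no .no .no .no

def c11t654 : Tr4 :=
  .br 1217 (.br 1216 (.hor [.f 1216 1 5] []) .no (.con 136 [3, 1, 1]) .no .no .no) .no (.hor [.f
  1217 3 5] []) .no .no (.red [.t 1080 1 3, .f 1072 5 3, .f 944 3 1, .f 952 1 3] 136 136 [] [(135,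
  136, [4]), (136, 136, []), (152, 136, [1])])

def c11t655 : Tr4 :=
  .br 834 .no (.br 1218 (.br 1099 (.use 652) (.red [.t 970 4 1, .t 1089 4 2, .f 954 3 5] 136 136
  [] [(136, 136, []), (137, 136, [3])]) (.br 1098 (.use 528) .no (.hor [.f 1098 3 5] []) .no .no
  (.br 971 .no (.use 653) (.red [.f 971 3 1, .t 970 4 1, .t 1089 4 2] 136 136 [] [(136, 136, []),
  (137, 136, [3]), (138, 136, [3, 3])]) .no .no .no)) .no .no (.red [.f 1090 5 3, .f 962 3 1, .t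
  1089 4 2] 136 136 [] [(136, 136, []), (137, 136, [3])])) .no (.use 654) .no (.hor [.f 1090 5 1,
  .f 1083 1 3, .t 1089 4 1, .f 1080 1 5, .f 1210 3 5] []) (.red [.f 1209 5 3, .t 1210 3 2, .f 955
  3 1] 136 136 [] [(136, 136, []), (152, 136, [1])])) (.hor [.f 834 3 1, .f 833 1 5] [(121, 120,
  [3])]) .no (.red [.f 826 5 3, .t 833 1 4, .f 953 3 1] 136 136 [] [(120, 136, [2]), (136, 136,
  [])]) .no

def c11t656 : Tr4 :=
  .br 834 .no (.br 835 .no (.hor [.f 706 1 5] []) .no (.hor [.f 698 1 3, .f 826 3 5] [(104, 136,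
  [2, 2])]) .no .no) (.hor [.f 834 3 1, .f 833 1 5] [(121, 105, [1])]) .no (.hor [.t 970 4 2, .f
  833 1 5] [(121, 137, [2])]) .no

def c11t657 : Tr4 :=
  .br 696 .no (.con 136 [2, 2, 2, 4]) (.con 136 [2, 2, 2]) (.red [.t 696 4 1] 103 136 [2, 2, 4]
  [(103, 136, [2, 2, 4])]) .no .no

def c11t658 : Tr4 :=
  .br 939 .no .no .no (.hor [.f 930 3 5] []) .no .no

def c11t659 : Tr4 :=
  .br 826 .no (.br 1098 (.use 528) .no (.hor [.f 1098 3 5] []) .no .no (.br 971 .no (.use 656)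
  (.red [.f 971 3 1, .t 970 4 1, .t 1089 4 2] 136 136 [] [(136, 136, []), (137, 136, [3]), (138,
  136, [3, 3])]) .no .no .no)) (.red [.t 833 1 4, .f 953 3 1, .f 960 1 5] 136 136 [] [(120, 136,
  [2]), (136, 136, [])]) (.br 1098 (.use 528) .no (.hor [.f 1098 3 5] []) .no .no (.br 971 .no
  (.br 834 .no (.br 835 .no (.hor [.f 706 1 5] []) .no (.br 824 .no (.con 136 [2, 2]) (.br 825 .no
  (.br 946 .no .no .no (.hor [.f 937 3 5] []) (.br 1075 (.red [.f 1075 1 3, .f 1074 3 5, .f 1082 5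
  3, .f 955 3 1] 136 136 [] [(136, 136, []), (151, 135, [1])]) .no .no (.br 1201 (.br 698 .no (.br
  699 .no (.hor [.f 570 1 5] []) (.hor [.f 699 3 1, .f 706 1 5] [(104, 136, [2, 2])]) (.br 817 .no
  (.red [.f 689 1 3] 103 136 [2, 2, 4] [(103, 136, [2, 2, 4])]) .no (.br 1200 (.hor [.f 1200 1 5]
  []) .no .no (.br 1064 .no (.red [.f 809 3 1, .f 809 1 3, .t 936 1 3] 134 136 [4, 4] [(134, 136,
  [4, 4])]) .no (.br 936 .no (.br 689 .no (.br 690 .no (.hor [.f 561 1 5] []) .no (.con 136 [2, 2,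
  4, 4, 2]) .no .no) .no (.red [.f 681 3 1, .f 689 1 3] 103 136 [2, 2, 4] [(102, 136, [2, 2, 4,
  4]), (103, 136, [2, 2, 4])]) (.red [.t 825 2 4] 103 136 [2, 2, 4] [(103, 136, [2, 2, 4])]) (.con
  136 [2, 2, 4, 2])) .no (.red [.f 928 3 1, .t 936 1 3] 134 136 [4, 4] [(133, 136, [4, 4, 4]),
  (134, 136, [4, 4])]) .no .no) (.red [.f 1064 5 3, .f 937 3 1] 134 136 [4, 4] [(134, 136, [4,
  4])]) .no) .no .no) .no (.use 657)) .no .no) .no (.red [.f 690 3 1, .f 697 1 5] 103 136 [2, 2,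
  4] [(103, 136, [2, 2, 4])]) (.br 819 .no (.red [.t 818 3 2, .f 697 1 5] 103 136 [2, 2, 4] [(103,
  136, [2, 2, 4])]) .no (.br 938 (.red [.t 1066 2 3, .f 937 3 5] 134 136 [4, 4] [(134, 136, [4,
  4])]) (.red [.t 810 1 3, .f 937 3 5, .f 945 5 3, .f 944 3 5, .t 1088 2 4] 136 136 [] [(118, 117,
  [3]), (136, 136, [])]) .no (.use 658) (.red [.f 938 5 3, .f 939 3 1] 134 136 [4, 4] [(134, 136,
  [4, 4])]) .no) .no .no) .no) .no .no (.br 1202 (.br 1203 (.hor [.f 1202 1 5] []) .no .no (.red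
  [.f 1067 3 1, .f 1075 1 3, .f 1074 3 5, .f 1082 5 3, .f 955 3 1] 136 136 [] [(136, 136, []),
  (150, 134, [1]), (151, 135, [1])]) .no .no) .no .no (.hor [.f 1193 3 5] []) (.red [.t 1082 4 1,
  .f 1082 5 3, .f 955 3 1] 136 136 [] [(136, 136, []), (151, 135, [1])]) .no) (.red [.f 1201 5 3,
  .t 1208 2 4, .f 944 3 1] 135 136 [4] [(135, 136, [4]), (151, 136, [4, 1])]) (.red [.f 1072 5 1,
  .f 1072 1 3, .f 944 3 1] 135 136 [4] [(135, 136, [4]), (151, 136, [4, 1])])) .no .no) .no) .no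
  (.hor [.f 817 3 5] []) .no .no) (.con 136 [2, 2]) (.con 136 [2, 2]) .no) .no .no) (.hor [.f 834
  3 1, .f 833 1 5] [(121, 105, [1])]) .no (.hor [.t 970 4 2, .f 833 1 5] [(121, 120, [3])]) .no)
  (.red [.f 971 3 1, .t 970 4 1, .t 1089 4 2] 136 136 [] [(136, 136, []), (137, 136, [3]), (138,
  136, [3, 3])]) .no .no .no)) (.use 655) (.red [.f 825 5 1, .f 825 1 3, .f 953 3 1] 136 136 []
  [(120, 136, [2]), (136, 136, [])])

def c11l27 : List Tr4 :=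
  [c11t641, c11t642, c11t643, c11t644, c11t645, c11t646, c11t647, c11t648, c11t649, c11t650,
  c11t651, c11t652, c11t653, c11t654, c11t655, c11t656, c11t657, c11t658, c11t659]

theorem c11k27 : chkLF ⟨4, 1, 0, true, -8⟩ true 0 c11N 641 c11l27 = true := by decide +kernel

end Pool.Agent.FT4D
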