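import Pool.Agent.FT4D.Tab_c11

/-!
# Four levels: decision trees (found by a computer search)
-/

namespace Pool.Agent.FT4D

def c11t660 : Tr4 :=
  .br 945 (.red [.t 1073 2 3, .f 944 3 5] 135 136 [4] [(135, 136, [4])]) (.br 826 .no (.br 834 .no
  (.br 835 .no (.hor [.f 706 1 5] []) (.br 825 .no (.hor [.f 697 1 5] []) .no .no .no (.br 827 .no
  (.hor [.f 698 1 5] []) .no (.use 651) .no .no)) (.hor [.f 698 1 3, .f 826 3 5] [(104, 136, [2,
  2])]) .no .no) (.hor [.f 834 3 1, .f 833 1 5] [(121, 120, [3])]) .no (.br 825 .no (.hor [.f 697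
  1 5] []) .no .no .no (.br 827 .no (.hor [.f 698 1 5] []) .no (.use 651) .no .no)) .no) (.red [.t
  833 1 4, .f 953 3 1, .f 960 1 5] 136 136 [] [(120, 136, [2]), (136, 136, [])]) (.red [.t 817 1
  3, .f 944 3 5, .t 1088 2 4] 136 136 [] [(119, 118, [3]), (136, 136, [])]) (.br 1210 (.br 1072
  (.red [.f 1072 1 3, .f 944 3 1, .f 952 1 3, .f 1080 3 5] 136 136 [] [(135, 136, [4]), (136, 136,
  []), (151, 136, [4, 1])]) .no .no (.br 1218 (.br 1209 (.hor [.f 1209 1 5] []) .no (.red [.f 1210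
  1 3, .t 1210 3 2] 168 136 [1, 1] [(152, 136, [1]), (168, 136, [1, 1])]) (.use 646) .no .no) .no
  (.br 1209 (.hor [.f 1209 1 5] []) .no (.use 647) (.use 646) .no .no) .no (.red [.f 1090 5 1, .f
  1083 1 3, .f 955 3 1] 136 136 [] [(136, 136, []), (152, 136, [1])]) (.br 1073 (.use 534) .no .no
  (.hor [.f 1064 3 5] []) .no .no)) (.use 649) .no) .no (.red [.t 1210 3 2, .f 955 3 1] 136 136 []
  [(136, 136, []), (152, 136, [1])]) (.red [.f 1074 3 1, .f 1082 1 5, .f 1082 5 3, .f 955 3 1] 136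
  136 [] [(136, 136, []), (151, 135, [1])]) .no (.br 1072 (.red [.f 1072 1 3, .f 944 3 1, .f 952 1
  3, .f 1080 3 5] 136 136 [] [(135, 136, [4]), (136, 136, []), (151, 136, [4, 1])]) .no .no (.br
  1073 (.red [.t 1073 1 3, .f 1082 1 5, .f 1082 5 3, .f 955 3 1] 136 136 [] [(136, 136, []), (151,
  135, [1])]) .no .no (.hor [.f 1064 3 5] []) .no .no) (.use 655) .no)) (.red [.f 825 5 1, .f 825
  1 3, .f 953 3 1] 136 136 [] [(120, 136, [2]), (136, 136, [])])) .no (.br 1210 (.br 1072 (.red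
  [.f 1072 1 3, .f 944 3 1, .f 952 1 3, .f 1080 3 5] 136 136 [] [(135, 136, [4]), (136, 136, []),
  (151, 136, [4, 1])]) .no .no (.br 1073 (.br 1209 (.hor [.f 1209 1 5] []) .no (.use 648) .no .no
  .no) .no .no (.hor [.f 1064 3 5] []) .no .no) (.use 649) .no) .no (.red [.t 1210 3 2, .f 955 3
  1] 136 136 [] [(136, 136, []), (152, 136, [1])]) (.red [.f 1074 3 1, .f 1082 1 5, .f 1082 5 3,
  .f 955 3 1] 136 136 [] [(136, 136, []), (151, 135, [1])]) .no (.br 1073 (.red [.t 1073 1 3, .f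
  1082 1 5, .f 1082 5 3, .f 955 3 1] 136 136 [] [(136, 136, []), (151, 135, [1])]) .no .no (.red
  [.f 937 3 1, .t 1073 2 3, .f 944 3 5] 135 136 [4] [(134, 136, [4, 4]), (135, 136, [4])]) .no
  (.br 1218 (.br 1099 (.use 652) (.red [.t 970 4 1, .t 1089 4 2, .f 954 3 5] 136 136 [] [(136,
  136, []), (137, 136, [3])]) (.use 659) .no .no (.red [.f 1090 5 3, .f 962 3 1, .t 1089 4 2] 136
  136 [] [(136, 136, []), (137, 136, [3])])) .no (.use 654) .no (.hor [.f 1090 5 1, .f 1083 1 3,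
  .t 1089 4 1, .f 1080 1 5, .f 1210 3 5] []) (.red [.f 1209 5 3, .t 1210 3 2, .f 955 3 1] 136 136
  [] [(136, 136, []), (152, 136, [1])])))) (.red [.f 945 5 3, .f 944 3 5, .t 1088 2 4] 136 136 []
  [(136, 136, [])]) .no

def c11t661 : Tr4 :=
  .br 1082 (.con 136 [4, 1]) .no .no (.hor [.f 1074 3 5] []) .no .no

def c11t662 : Tr4 :=
  .br 947 (.hor [.f 946 1 5] []) (.con 136 [4, 4]) .no (.con 136 [4, 4]) .no .no

def c11t663 : Tr4 :=
  .br 1074 (.red [.t 1202 2 3, .f 1083 1 3, .f 955 3 1] 136 136 [] [(136, 136, []), (151, 136, [4,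
  1]), (152, 136, [1])]) (.use 662) .no (.hor [.f 1065 3 5] []) (.red [.f 1074 5 3, .f 1075 3 1,
  .f 1083 1 3] 152 136 [1] [(151, 136, [4, 1]), (152, 136, [1])]) .no

def c11t664 : Tr4 :=
  .br 1211 (.use 434) .no .no (.use 663) .no .no

def c11t665 : Tr4 :=
  .br 1337 (.use 266) .no (.red [.t 1345 4 2, .f 1201 1 3] 168 136 [1, 1] [(167, 136, [4, 1, 1]),
  (168, 136, [1, 1])]) .no (.red [.f 1209 5 1, .f 1201 1 3] 167 136 [4, 1, 1] [(167, 136, [4, 1,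
  1])]) (.con 136 [1, 1, 4])

def c11t666 : Tr4 :=
  .br 1075 (.hor [.f 1074 1 5] []) (.red [.f 945 5 3, .t 946 3 1] 135 136 [4] [(135, 136, [4])])
  .no (.br 1217 (.hor [.f 1217 1 5] []) .no (.hor [.f 969 3 1, .t 969 1 4, .f 1089 3 1, .f 1096 1
  5] [(137, 136, [3]), (138, 136, [3, 3]), (153, 136, [3, 1])]) .no .no (.br 1201 (.use 665) .no
  .no (.hor [.f 1065 3 1, .f 1072 1 5] [(150, 134, [1])]) .no .no)) .no .no

def c11t667 : Tr4 :=
  .br 1074 (.br 1211 (.use 666) .no .no (.red [.t 1202 2 3, .f 1083 1 3, .f 955 3 1] 136 136 []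
  [(136, 136, []), (151, 136, [4, 1]), (152, 136, [1])]) .no .no) .no .no (.hor [.f 1065 3 5] [])
  (.red [.f 1074 5 3, .f 945 5 3, .f 946 3 1] 135 136 [4] [(135, 136, [4])]) .no

def c11t668 : Tr4 :=
  .br 1075 .no .no .no (.red [.t 1066 2 3, .f 810 3 1] 134 136 [4, 4] [(118, 136, [4, 2, 4]),
  (134, 136, [4, 4])]) .no .no

def c11t669 : Tr4 :=
  .br 818 (.hor [.f 817 1 5] []) (.hor [.t 944 3 2, .f 690 1 3, .f 818 3 5, .t 824 1 4] [(103,
  104, [4])]) .no (.br 946 .no .no .no (.red [.f 810 3 1, .f 817 1 5] 118 136 [2, 4, 4] [(118,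
  136, [2, 4, 4])]) (.br 939 (.con 136 [4, 4, 1, 3]) (.red [.t 810 3 1, .f 817 1 5] 118 136 [2, 4,
  4] [(118, 136, [2, 4, 4])]) .no (.br 938 (.use 668) .no .no (.hor [.f 930 3 5] []) .no (.red [.t
  817 1 4] 118 136 [2, 4, 4] [(118, 136, [2, 4, 4])])) .no (.red [.f 938 5 3, .f 810 3 1] 118 136
  [2, 4, 4] [(118, 136, [2, 4, 4])])) .no) .no .no

def c11t670 : Tr4 :=
  .br 968 .no (.br 1337 (.br 1345 (.red [.f 1337 1 3, .t 1336 2 3] 168 136 [1, 1] [(168, 136, [1,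
  1]), (184, 136, [1, 1, 1])]) .no (.use 431) .no .no (.red [.f 1216 5 1, .f 1208 1 3] 168 136 [1,
  1] [(168, 136, [1, 1])])) .no (.red [.t 1345 4 2, .t 1218 4 2] 152 136 [1] [(152, 136, [1]),
  (168, 136, [1, 1])]) (.use 433) (.red [.f 1209 5 1, .f 1210 1 3, .t 1218 4 2] 152 136 [1] [(152,
  136, [1]), (168, 136, [1, 1])]) .no) (.hor [.f 968 3 5] []) .no .no .no

def c11t671 : Tr4 :=
  .br 1208 (.use 670) .no .no .no .no .no

def c11t672 : Tr4 :=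
  .br 1217 (.hor [.f 1217 1 5] []) .no (.hor [.f 969 3 1, .t 969 1 4, .f 1089 3 1, .f 1096 1 5]
  [(137, 136, [3]), (138, 136, [3, 3]), (153, 136, [3, 1])]) .no .no (.br 835 .no (.hor [.f 706 1
  5] []) (.use 671) .no .no .no)

def c11t673 : Tr4 :=
  .br 1217 (.hor [.f 1217 1 5] []) .no (.hor [.f 969 3 1, .t 969 1 4, .f 1089 3 1, .f 1096 1 5]
  [(137, 136, [3]), (138, 136, [3, 3]), (153, 136, [3, 1])]) .no .no (.use 671)

def c11t674 : Tr4 :=
  .br 699 .no (.hor [.f 570 1 5] []) (.hor [.f 699 3 1, .f 706 1 5] [(104, 136, [2, 2])]) (.br 817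
  .no (.red [.f 689 1 3] 103 136 [2, 2, 4] [(103, 136, [2, 2, 4])]) .no (.br 816 .no (.con 136 [2,
  2, 4, 2]) .no (.hor [.f 808 3 5] []) .no .no) .no (.use 657)) .no .no

def c11t675 : Tr4 :=
  .br 1202 (.use 553) .no .no (.br 1066 .no .no .no (.use 555) (.red [.t 1202 4 2] 150 136 [4, 4,
  1] [(150, 136, [4, 4, 1])]) (.red [.f 1065 5 3, .f 1066 3 1] 150 136 [4, 4, 1] [(150, 136, [4,
  4, 1])])) .no (.red [.f 1201 5 3, .t 1200 2 3, .f 944 3 1] 135 136 [4] [(135, 136, [4]), (151,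
  136, [4, 1])])

def c11t676 : Tr4 :=
  .br 819 .no (.red [.t 818 3 2, .f 697 1 5] 103 136 [2, 4, 2] [(103, 136, [2, 4, 2])]) .no (.br
  938 (.red [.t 937 3 1, .t 944 3 1] 135 136 [4] [(134, 136, [4, 4]), (135, 136, [4])]) (.red [.t
  810 1 3, .f 937 3 5, .f 945 5 1, .t 944 3 1] 135 136 [4] [(118, 117, [3]), (135, 136, [4])]) .no
  (.br 1075 (.use 675) .no .no (.use 658) .no .no) (.red [.f 938 5 3, .f 937 3 5, .f 945 5 1, .t
  944 3 1] 135 136 [4] [(135, 136, [4])]) .no) .no .no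

def c11t677 : Tr4 :=
  .br 1074 (.hor [.f 1073 1 5] []) (.con 136 [4, 1, 4]) .no (.con 136 [4, 1, 4]) (.con 136 [4, 4,
  1]) .no

def c11t678 : Tr4 :=
  .br 818 .no (.hor [.t 944 3 2, .f 690 1 3, .f 818 3 5, .t 824 1 4] [(103, 104, [4])]) .no (.hor
  [.f 810 3 1, .f 817 1 5] [(118, 136, [2, 4, 4])]) .no .no

def c11t679 : Tr4 :=
  .br 827 .no (.hor [.f 698 1 5] []) .no (.use 678) .no .no

def c11t680 : Tr4 :=
  .br 1211 (.con 136 [4, 1, 1]) .no .no (.br 827 .no (.hor [.f 698 1 5] []) .no (.br 818 .no (.hor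
  [.t 944 3 2, .f 690 1 3, .f 818 3 5, .t 824 1 4] [(103, 104, [4])]) .no (.br 938 (.use 668) .no
  .no (.use 650) (.red [.f 938 5 3, .f 810 3 1] 118 136 [2, 4, 4] [(118, 136, [2, 4, 4])]) (.red
  [.t 817 1 4] 118 136 [2, 4, 4] [(118, 136, [2, 4, 4])])) .no .no) .no .no) .no .no

def c11t681 : Tr4 :=
  .br 1201 (.br 1337 (.use 442) .no (.red [.t 1345 4 2, .f 1201 1 3] 168 136 [1, 1] [(167, 136,
  [1, 4, 1]), (168, 136, [1, 1])]) .no (.red [.f 1209 5 1, .f 1201 1 3] 167 136 [1, 4, 1] [(167,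
  136, [1, 4, 1])]) (.red [.t 1200 3 1] 167 136 [1, 4, 1] [(167, 136, [1, 4, 1])])) .no .no (.hor
  [.f 1193 3 5] []) .no .no

def c11t682 : Tr4 :=
  .br 1208 (.use 462) .no .no (.br 1211 (.con 136 [4, 1, 1]) .no .no (.br 968 .no (.br 1202 (.br
  1225 (.use 453) .no (.use 160) .no .no .no) .no .no (.br 1225 (.use 681) .no (.use 160) .no .no
  .no) .no (.hor [.f 1201 5 3, .f 1200 3 5, .f 1202 3 5] [])) (.hor [.f 968 3 5] []) .no .no .no)
  .no .no) .no .no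

def c11t683 : Tr4 :=
  .br 1217 (.hor [.f 1217 1 5] []) .no (.use 438) .no .no (.use 682)

def c11t684 : Tr4 :=
  .br 1208 (.use 670) .no .no (.br 1211 (.con 136 [4, 1, 1]) .no .no (.br 968 .no (.br 1202 (.br
  1337 (.br 1225 (.use 442) .no (.hor [.f 1097 3 1, .f 1096 1 5] [(154, 138, [1])]) .no (.use 432)
  .no) .no (.red [.t 1345 4 2, .t 1218 4 2] 152 136 [1] [(152, 136, [1]), (168, 136, [1, 1])])
  (.con 136 [4, 1, 1, 4]) (.red [.f 1209 5 1, .f 1210 1 3, .t 1218 4 2] 152 136 [1] [(152, 136,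
  [1]), (168, 136, [1, 1])]) (.use 452)) .no .no (.br 1225 (.use 681) .no (.hor [.f 1097 3 1, .f
  1096 1 5] [(154, 138, [1])]) .no (.use 432) .no) .no (.hor [.f 1201 5 3, .f 1200 3 5, .f 1202 3
  5] [])) (.hor [.f 968 3 5] []) .no .no .no) .no .no) .no .no

def c11t685 : Tr4 :=
  .br 1098 (.use 683) .no (.hor [.f 1097 3 5] []) .no (.br 1217 (.hor [.f 1217 1 5] []) .no (.hor
  [.f 969 3 1, .t 969 1 4, .f 1089 3 1, .f 1096 1 5] [(137, 136, [3]), (138, 136, [3, 3]), (153,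
  136, [3, 1])]) .no .no (.br 835 .no (.hor [.f 706 1 5] []) (.use 684) .no .no .no)) .no

def c11t686 : Tr4 :=
  .br 1217 (.hor [.f 1217 1 5] []) .no (.hor [.f 969 3 1, .t 969 1 4, .f 1089 3 1, .f 1096 1 5]
  [(137, 136, [3]), (138, 136, [3, 3]), (153, 136, [3, 1])]) .no .no (.use 684)

def c11t687 : Tr4 :=
  .br 1075 (.con 136 [4, 4, 1]) .no .no (.br 825 .no (.br 698 .no (.use 674) .no (.red [.f 690 3
  1, .f 697 1 5] 103 136 [2, 2, 4] [(103, 136, [2, 2, 4])]) (.br 819 .no (.red [.t 818 3 2, .f 697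
  1 5] 103 136 [2, 2, 4] [(103, 136, [2, 2, 4])]) .no (.br 938 (.red [.t 937 3 1, .t 944 3 1] 135
  136 [4] [(134, 136, [4, 4]), (135, 136, [4])]) (.red [.t 810 1 3, .f 937 3 5, .f 945 5 1, .t 944
  3 1] 135 136 [4] [(118, 117, [3]), (135, 136, [4])]) .no (.use 658) (.red [.f 938 5 3, .f 937 3
  5, .f 945 5 1, .t 944 3 1] 135 136 [4] [(135, 136, [4])]) .no) .no .no) .no) .no (.hor [.f 817 3
  5] []) .no .no) .no .no

def c11l28 : List Tr4 :=
  [c11t660, c11t661, c11t662, c11t663, c11t664, c11t665, c11t666, c11t667, c11t668, c11t669,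
  c11t670, c11t671, c11t672, c11t673, c11t674, c11t675, c11t676, c11t677, c11t678, c11t679,
  c11t680, c11t681, c11t682, c11t683, c11t684, c11t685, c11t686, c11t687]

theorem c11k28 : chkLF ⟨4, 1, 0, true, -8⟩ true 0 c11N 660 c11l28 = true := by decide +kernel

def c11t688 : Tr4 :=
  .br 1072 (.br 1098 (.use 464) .no (.hor [.f 1097 3 5] []) .no (.br 1073 (.hor [.f 1072 1 5] [])
  (.red [.t 944 3 1, .f 952 1 3] 136 136 [] [(135, 136, [4]), (136, 136, [])]) .no (.br 945 .no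
  (.br 826 .no (.br 835 .no (.hor [.f 706 1 5] []) (.use 664) (.hor [.f 698 1 3, .f 826 3 5]
  [(104, 136, [2, 2])]) .no .no) .no (.red [.t 817 1 3, .f 944 3 5, .f 952 5 1, .f 952 1 3] 136
  136 [] [(119, 118, [3]), (136, 136, [])]) (.br 835 .no (.hor [.f 706 1 5] []) (.use 664) .no .no
  .no) (.red [.f 825 5 1, .f 825 1 3, .t 960 1 4] 136 136 [] [(120, 136, [2]), (136, 136, [])]))
  .no (.red [.f 937 3 1, .t 944 3 1] 135 136 [4] [(134, 136, [4, 4]), (135, 136, [4])]) (.use 667)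
  .no) (.br 945 .no (.br 826 .no (.br 835 .no (.hor [.f 706 1 5] []) (.br 825 .no (.hor [.f 697 1
  5] []) .no .no .no (.br 1211 (.use 434) .no .no (.br 827 .no (.hor [.f 698 1 5] []) .no (.use
  669) .no .no) .no .no)) (.hor [.f 698 1 3, .f 826 3 5] [(104, 136, [2, 2])]) .no .no) .no (.red
  [.t 817 1 3, .f 944 3 5, .f 952 5 1, .f 952 1 3] 136 136 [] [(119, 118, [3]), (136, 136, [])])
  (.use 672) (.red [.f 825 5 1, .f 825 1 3, .t 960 1 4] 136 136 [] [(120, 136, [2]), (136, 136,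
  [])])) .no (.br 826 .no (.br 835 .no (.hor [.f 706 1 5] []) (.use 673) (.hor [.f 698 1 3, .f 826
  3 5] [(104, 136, [2, 2])]) .no .no) .no (.br 835 .no (.hor [.f 706 1 5] []) (.use 673) (.br 824
  .no (.con 136 [2, 2]) (.br 825 .no (.br 946 .no .no .no (.hor [.f 937 3 5] []) (.br 698 .no
  (.use 674) .no (.red [.f 690 3 1, .f 697 1 5] 103 136 [2, 2, 4] [(103, 136, [2, 2, 4])]) (.use
  676) .no) .no) .no (.hor [.f 817 3 5] []) .no .no) (.con 136 [2, 2]) (.con 136 [2, 2]) .no) .no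
  .no) (.use 672) (.red [.f 825 5 1, .f 825 1 3, .t 960 1 4] 136 136 [] [(120, 136, [2]), (136,
  136, [])])) (.red [.f 945 5 1, .t 944 3 1, .f 952 1 3] 136 136 [] [(135, 136, [4]), (136, 136,
  [])]) .no) .no) .no) .no .no (.br 1073 (.use 677) (.red [.t 944 3 1, .f 952 1 3] 136 136 []
  [(135, 136, [4]), (136, 136, [])]) .no (.hor [.f 1064 3 5] []) (.br 945 .no (.br 826 .no (.br
  835 .no (.hor [.f 706 1 5] []) (.br 825 .no (.hor [.f 697 1 5] []) .no .no .no (.br 946 .no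
  (.hor [.f 817 1 5] []) .no (.use 679) (.br 1075 (.con 136 [4, 4, 1]) .no .no (.br 1098 (.br 1217
  (.hor [.f 1217 1 5] []) .no (.use 438) .no .no (.br 1208 (.use 462) .no .no (.use 680) .no .no))
  .no (.hor [.f 1097 3 5] []) .no (.br 1217 (.hor [.f 1217 1 5] []) .no (.hor [.f 969 3 1, .t 969
  1 4, .f 1089 3 1, .f 1096 1 5] [(137, 136, [3]), (138, 136, [3, 3]), (153, 136, [3, 1])]) .no
  .no (.br 1208 (.use 670) .no .no (.use 680) .no .no)) .no) .no .no) .no)) (.hor [.f 698 1 3, .f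
  826 3 5] [(104, 136, [2, 2])]) .no .no) .no (.red [.t 817 1 3, .f 944 3 5, .f 952 5 1, .f 952 1
  3] 136 136 [] [(119, 118, [3]), (136, 136, [])]) (.use 685) (.red [.f 825 5 1, .f 825 1 3, .t
  960 1 4] 136 136 [] [(120, 136, [2]), (136, 136, [])])) .no (.br 826 .no (.br 835 .no (.hor [.f
  706 1 5] []) (.br 1098 (.use 683) .no (.hor [.f 1097 3 5] []) .no (.use 686) .no) (.hor [.f 698
  1 3, .f 826 3 5] [(104, 136, [2, 2])]) .no .no) .no (.br 1098 (.use 683) .no (.hor [.f 1097 3 5]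
  []) .no (.br 835 .no (.hor [.f 706 1 5] []) (.use 686) (.br 824 .no (.con 136 [2, 2]) (.br 946
  .no .no .no (.hor [.f 937 3 5] []) (.use 687) .no) (.con 136 [2, 2]) (.con 136 [2, 2]) .no) .no
  .no) .no) (.use 685) (.red [.f 825 5 1, .f 825 1 3, .t 960 1 4] 136 136 [] [(120, 136, [2]),
  (136, 136, [])])) (.red [.f 945 5 1, .t 944 3 1, .f 952 1 3] 136 136 [] [(135, 136, [4]), (136,
  136, [])]) .no) .no) (.red [.f 1072 5 3, .f 944 3 1, .f 952 1 3] 136 136 [] [(135, 136, [4]),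
  (136, 136, [])]) .no

def c11t689 : Tr4 :=
  .br 1201 (.use 665) .no .no (.red [.f 1065 3 1, .f 1072 1 5, .f 1072 5 3, .f 944 3 1] 135 136
  [4] [(135, 136, [4]), (150, 134, [1])]) .no .no

def c11t690 : Tr4 :=
  .br 1337 (.use 266) .no (.red [.t 1345 4 2, .f 1201 1 3] 168 136 [1, 1] [(167, 136, [1, 4, 1]),
  (168, 136, [1, 1])]) .no (.red [.f 1209 5 1, .f 1201 1 3] 167 136 [1, 4, 1] [(167, 136, [1, 4,
  1])]) (.con 136 [1, 1, 4])

def c11t691 : Tr4 :=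
  .br 1201 (.use 690) .no .no (.red [.f 1065 3 1, .f 1072 1 5, .f 1072 5 3, .f 944 3 1] 135 136
  [4] [(135, 136, [4]), (150, 134, [1])]) (.red [.f 1201 5 3, .t 1200 2 3, .f 944 3 1] 135 136 [4]
  [(135, 136, [4]), (151, 136, [4, 1])]) .no

def c11t692 : Tr4 :=
  .br 1074 (.br 1211 (.use 689) .no .no (.use 663) .no .no) (.use 662) .no (.hor [.f 1065 3 5] [])
  (.br 1211 (.use 691) .no .no (.use 663) .no .no) .no

def c11t693 : Tr4 :=
  .br 1202 (.con 136 [1, 4, 1, 4]) .no .no (.hor [.f 1193 3 5] []) .no .no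

def c11t694 : Tr4 :=
  .br 938 (.red [.t 1066 2 3, .f 810 3 1] 118 136 [4, 2, 4] [(118, 136, [4, 2, 4]), (134, 136, [4,
  4])]) .no .no (.use 650) (.red [.f 938 5 3, .f 810 3 1] 118 136 [4, 2, 4] [(118, 136, [4, 2,
  4])]) (.red [.t 817 1 4] 118 136 [4, 2, 4] [(118, 136, [4, 2, 4])])

def c11t695 : Tr4 :=
  .br 1211 (.br 1201 (.use 690) .no .no (.br 818 .no (.hor [.t 944 3 2, .f 690 1 3, .f 818 3 5, .t
  824 1 4] [(103, 104, [4])]) .no (.br 1075 (.use 693) .no .no (.use 694) .no .no) .no .no) (.red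
  [.f 1201 5 3, .t 1200 2 3, .f 944 3 1] 135 136 [4] [(135, 136, [4]), (151, 136, [4, 1])]) .no)
  .no .no (.use 669) .no .no

def c11t696 : Tr4 :=
  .br 938 (.red [.t 937 3 1, .t 944 3 1] 135 136 [4] [(134, 136, [4, 4]), (135, 136, [4])]) (.hor
  [.f 810 1 3, .f 937 3 5] [(118, 134, [2])]) .no (.use 675) .no .no

def c11t697 : Tr4 :=
  .br 1075 (.use 696) .no .no (.red [.f 939 3 1] 134 136 [4, 4] [(134, 136, [4, 4])]) .no .no

def c11t698 : Tr4 :=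
  .br 1106 (.hor [.t 1105 4 1, .f 1096 1 5] [(154, 138, [1])]) (.hor [.f 969 3 1, .f 977 1 5]
  [(138, 136, [3, 3])]) (.br 976 (.hor [.f 969 3 1, .f 976 1 5] [(138, 136, [3, 3])]) (.hor [.f
  840 1 3, .f 968 3 5] [(122, 138, [2])]) (.br 1104 (.hor [.f 1096 1 3, .f 1096 3 5] [(154, 138,
  [1])]) .no (.br 978 .no .no (.hor [.f 978 3 1, .f 969 3 1, .f 977 1 5] [(138, 136, [3, 3]),
  (139, 136, [3, 3, 3])]) .no .no .no) .no .no .no) .no .no .no) .no (.red [.f 1098 5 3, .f 1097 3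
  5, .f 1089 5 3, .f 962 3 1, .t 962 1 4] 136 136 [] [(136, 136, []), (137, 136, [3])]) .no

def c11t699 : Tr4 :=
  .br 842 .no (.hor [.t 714 1 4, .f 834 3 1, .f 833 1 5] [(105, 120, [3, 2]), (121, 120, [3])])
  (.br 1225 .no .no (.hor [.f 1097 3 1, .f 1096 1 5] [(154, 138, [1])]) .no (.use 698) .no) .no
  (.red [.f 834 5 3, .f 834 3 1, .f 833 1 5, .f 953 5 3, .t 960 1 4] 136 136 [] [(121, 120, [3]),
  (136, 136, [])]) (.red [.t 961 2 3, .f 953 5 3, .t 960 1 4] 136 136 [] [(121, 120, [3]), (136,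
  136, [])])

def c11t700 : Tr4 :=
  .br 832 .no (.hor [.t 704 1 4, .f 697 1 5] [(104, 136, [2, 2])]) .no .no .no .no

def c11t701 : Tr4 :=
  .br 1345 (.red [.f 1337 1 3, .t 1336 2 3] 168 136 [1, 1] [(168, 136, [1, 1]), (184, 136, [1, 1,
  1])]) .no (.br 697 .no (.br 707 .no (.red [.f 571 1 3, .t 698 1 3, .t 833 1 4, .t 960 1 4] 136
  136 [] [(88, 136, [2, 2, 2]), (104, 136, [2, 2]), (120, 136, [2]), (136, 136, [])]) (.use 699)
  .no .no (.red [.f 706 5 1, .f 698 1 3, .t 833 1 4, .t 960 1 4] 136 136 [] [(104, 136, [2, 2]),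
  (120, 136, [2]), (136, 136, [])])) (.use 700) .no .no (.red [.f 696 5 1, .f 697 1 5, .f 825 5 1,
  .f 825 1 3, .t 960 1 4] 136 136 [] [(120, 136, [2]), (136, 136, [])])) .no .no (.red [.f 1216 5
  1, .f 1208 1 3] 168 136 [1, 1] [(168, 136, [1, 1])])

def c11t702 : Tr4 :=
  .br 1202 (.red [.t 1329 3 2, .f 1208 1 5, .f 1080 5 1, .f 1072 1 3, .f 944 3 1] 135 136 [4]
  [(135, 136, [4]), (151, 136, [4, 1]), (167, 183, [2])]) .no .no (.hor [.f 1193 3 5] []) (.br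
  1211 (.br 1338 (.con 136 [4, 1, 1, 1]) .no .no (.red [.t 1338 4 2] 167 136 [4, 1, 1] [(167, 136,
  [4, 1, 1])]) .no .no) .no .no .no .no .no) .no

def c11t703 : Tr4 :=
  .br 1201 .no .no .no (.use 702) (.red [.f 1201 5 3, .t 1200 2 3, .f 944 3 1] 135 136 [4] [(135,
  136, [4]), (151, 136, [4, 1])]) .no

def c11t704 : Tr4 :=
  .br 1211 (.con 136 [1, 1, 4]) .no .no (.con 136 [1, 1, 4, 2]) .no .no

def c11t705 : Tr4 :=
  .br 1337 (.hor [.f 1337 1 5] []) .no (.red [.t 1345 4 2, .f 1201 1 3] 168 136 [1, 1] [(167, 136,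
  [4, 1, 1]), (168, 136, [1, 1])]) .no .no (.use 704)

def c11t706 : Tr4 :=
  .br 939 .no (.red [.t 810 3 1, .f 939 3 1] 134 136 [1, 4, 2, 4] [(118, 136, [1, 4, 2, 4, 2]),
  (134, 136, [4, 4])]) .no (.hor [.f 930 3 5] []) .no .no

def c11t707 : Tr4 :=
  .br 1075 (.use 675) .no .no (.use 706) .no .no

def c11t708 : Tr4 :=
  .br 697 .no (.red [.f 571 1 3, .t 698 1 3, .t 833 1 4, .t 960 1 4] 136 136 [] [(88, 136, [2, 2,
  2]), (104, 136, [2, 2]), (120, 136, [2]), (136, 136, [])]) (.use 700) (.red [.f 571 1 3, .t 698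
  1 3, .t 833 1 4, .t 960 1 4] 136 136 [] [(88, 136, [2, 2, 2]), (104, 136, [2, 2]), (120, 136,
  [2]), (136, 136, [])]) .no (.red [.f 571 1 3, .t 698 1 3, .t 833 1 4, .t 960 1 4] 136 136 []
  [(88, 136, [2, 2, 2]), (104, 136, [2, 2]), (120, 136, [2]), (136, 136, [])])

def c11t709 : Tr4 :=
  .br 1208 (.red [.f 1216 5 1, .f 1208 1 3] 168 136 [1, 1] [(168, 136, [1, 1])]) .no .no .no .no
  .no

def c11t710 : Tr4 :=
  .br 946 .no (.br 825 .no (.hor [.f 697 1 5] []) .no (.br 947 (.red [.t 817 3 1, .t 946 3 1] 135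
  136 [4] [(119, 136, [2, 4]), (135, 136, [4])]) (.hor [.f 818 1 5] []) .no (.use 697) .no .no)
  .no (.br 947 (.br 817 .no (.br 971 .no (.use 656) (.br 1208 (.br 1337 (.br 827 .no (.hor [.f 698
  1 5] []) .no (.br 699 .no (.br 968 .no (.use 701) (.hor [.f 968 3 5] []) .no .no .no) (.red [.t
  698 1 3, .t 833 1 4, .t 960 1 4] 136 136 [] [(104, 136, [2, 2]), (120, 136, [2]), (136, 136,
  [])]) (.hor [.f 691 3 1, .f 698 1 5] [(103, 104, [4])]) .no .no) .no .no) .no (.red [.t 1345 4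
  2, .t 1218 4 2] 152 136 [1] [(152, 136, [1]), (168, 136, [1, 1])]) (.use 703) (.red [.f 1209 5
  1, .f 1210 1 3, .t 1218 4 2] 152 136 [1] [(152, 136, [1]), (168, 136, [1, 1])]) .no) .no .no .no
  .no .no) .no .no .no) .no (.hor [.f 809 3 1, .f 817 1 5] [(118, 120, [4, 4])]) .no (.red [.f 816
  5 3, .t 817 3 1, .t 946 3 1] 135 136 [4] [(119, 136, [2, 4]), (135, 136, [4])])) (.hor [.f 818 1
  5] []) .no (.use 697) .no .no)) .no (.hor [.f 937 3 5] []) (.br 971 .no (.use 656) (.br 827 .no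
  (.hor [.f 698 1 5] []) .no (.br 825 .no (.hor [.f 697 1 5] []) .no (.br 818 .no (.hor [.f 690 1
  3, .f 817 3 5] [(103, 104, [4])]) .no (.br 938 (.red [.t 937 3 1, .t 944 3 1] 135 136 [4] [(134,
  136, [4, 4]), (135, 136, [4])]) .no .no (.use 707) (.red [.f 938 5 3, .f 937 3 5, .f 945 5 1, .t
  944 3 1] 135 136 [4] [(135, 136, [4])]) .no) .no .no) .no (.br 699 .no (.br 1201 (.br 1338 (.use
  705) .no .no (.red [.t 1329 2 3, .f 1210 1 3] 168 136 [1, 1] [(167, 136, [4, 1, 1]), (168, 136,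
  [1, 1])]) (.br 968 .no (.br 1337 (.br 707 .no (.use 708) (.br 1345 (.red [.f 1337 1 3] 184 136
  [1, 1, 1] [(184, 136, [1, 1, 1])]) .no (.use 699) .no .no (.use 709)) .no .no (.red [.f 706 5 1,
  .f 698 1 3, .t 833 1 4, .t 960 1 4] 136 136 [] [(104, 136, [2, 2]), (120, 136, [2]), (136, 136,
  [])])) .no (.red [.t 1345 4 2, .f 1201 1 3] 168 136 [1, 1] [(167, 136, [4, 1, 1]), (168, 136,
  [1, 1])]) .no .no (.use 704)) (.hor [.f 968 3 5] []) .no .no .no) (.red [.f 1209 5 1, .f 1210 1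
  3, .t 1218 4 2] 152 136 [1] [(152, 136, [1]), (168, 136, [1, 1])])) .no .no (.br 1208 (.br 1337
  (.br 968 .no (.br 707 .no (.use 708) (.br 1345 (.red [.f 1337 1 3, .t 1336 2 3] 168 136 [1, 1]
  [(168, 136, [1, 1]), (184, 136, [1, 1, 1])]) .no (.use 699) .no .no (.use 709)) .no .no (.red
  [.f 706 5 1, .f 698 1 3, .t 833 1 4, .t 960 1 4] 136 136 [] [(104, 136, [2, 2]), (120, 136,
  [2]), (136, 136, [])])) (.hor [.f 968 3 5] []) .no .no .no) .no (.red [.t 1345 4 2, .t 1218 4 2]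
  152 136 [1] [(152, 136, [1]), (168, 136, [1, 1])]) (.use 702) (.red [.f 1209 5 1, .f 1210 1 3,
  .t 1218 4 2] 152 136 [1] [(152, 136, [1]), (168, 136, [1, 1])]) .no) .no .no .no .no .no) (.red
  [.f 1201 5 3, .t 1200 2 3, .f 944 3 1] 135 136 [4] [(135, 136, [4]), (151, 136, [4, 1])]) .no)
  (.red [.t 698 1 3, .t 833 1 4, .t 960 1 4] 136 136 [] [(104, 136, [2, 2]), (120, 136, [2]),
  (136, 136, [])]) (.hor [.f 691 3 1, .f 698 1 5] [(103, 104, [4])]) .no .no)) .no .no) .no .no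
  .no) .no

def c11t711 : Tr4 :=
  .br 827 .no (.hor [.f 698 1 5] []) .no (.use 678) .no .no

def c11t712 : Tr4 :=
  .br 818 .no (.hor [.t 944 3 2, .f 690 1 3, .f 818 3 5, .t 824 1 4] [(103, 104, [4])]) .no (.use
  694) .no .no

def c11t713 : Tr4 :=
  .br 1075 (.con 136 [4, 4, 1]) .no .no (.br 827 .no (.hor [.f 698 1 5] []) .no (.use 712) .no
  .no) .no .no

def c11t714 : Tr4 :=
  .br 1075 (.con 136 [4, 4, 1]) .no .no (.red [.f 939 3 1] 134 136 [4, 4] [(134, 136, [4, 4])])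
  .no .no

def c11t715 : Tr4 :=
  .br 842 .no (.hor [.t 714 1 4, .f 834 3 1, .f 833 1 5] [(105, 120, [3, 2]), (121, 120, [3])])
  (.use 698) .no (.red [.f 834 5 3, .f 834 3 1, .f 833 1 5, .f 953 5 3, .t 960 1 4] 136 136 []
  [(121, 120, [3]), (136, 136, [])]) (.red [.t 961 2 3, .f 953 5 3, .t 960 1 4] 136 136 [] [(121,
  120, [3]), (136, 136, [])])

def c11t716 : Tr4 :=
  .br 1225 (.use 428) .no (.hor [.f 1097 3 1, .f 1096 1 5] [(154, 138, [1])]) .no (.use 715) .no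

def c11t717 : Tr4 :=
  .br 1225 (.br 1202 (.use 453) .no .no (.use 681) .no (.hor [.f 1201 5 3, .f 1200 3 5, .f 1202 3
  5] [])) .no (.hor [.f 1097 3 1, .f 1096 1 5] [(154, 138, [1])]) .no (.use 715) .no

def c11t718 : Tr4 :=
  .br 1201 (.br 1202 (.hor [.f 1201 1 5] []) .no .no (.red [.t 1193 2 3, .f 1064 3 5] 150 136 [4,
  1, 4] [(150, 136, [4, 1, 4])]) (.br 1200 (.hor [.f 1200 1 5] []) .no (.con 136 [4, 1, 1]) (.red
  [.f 1064 3 1, .f 1064 1 5] 150 136 [4, 1, 4] [(150, 136, [4, 1, 4])]) .no .no) .no) .no .no .no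
  (.red [.f 1073 5 1, .f 1065 1 3] 150 136 [4, 1, 4] [(150, 136, [4, 1, 4])]) (.red [.t 1064 3 1]
  150 136 [4, 1, 4] [(150, 136, [4, 1, 4])])

def c11t719 : Tr4 :=
  .br 1065 (.use 718) .no .no (.hor [.f 1057 3 5] []) .no .no

def c11l29 : List Tr4 :=
  [c11t688, c11t689, c11t690, c11t691, c11t692, c11t693, c11t694, c11t695, c11t696, c11t697,
  c11t698, c11t699, c11t700, c11t701, c11t702, c11t703, c11t704, c11t705, c11t706, c11t707,
  c11t708, c11t709, c11t710, c11t711, c11t712, c11t713, c11t714, c11t715, c11t716, c11t717,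
  c11t718, c11t719]

theorem c11k29 : chkLF ⟨4, 1, 0, true, -8⟩ true 0 c11N 688 c11l29 = true := by decide +kernel

def c11t720 : Tr4 :=
  .br 946 .no (.br 825 .no (.hor [.f 697 1 5] []) .no (.br 947 (.red [.t 817 3 1, .t 946 3 1] 135
  136 [4] [(119, 136, [2, 4]), (135, 136, [4])]) (.hor [.f 818 1 5] []) .no (.use 714) .no .no)
  .no (.br 947 (.br 817 .no (.br 827 .no (.hor [.f 698 1 5] []) .no (.br 699 .no (.br 968 .no (.br
  707 .no (.use 708) (.br 1208 (.br 1337 (.use 701) .no (.red [.t 1345 4 2, .t 1218 4 2] 152 136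
  [1] [(152, 136, [1]), (168, 136, [1, 1])]) (.use 716) (.red [.f 1209 5 1, .f 1210 1 3, .t 1218 4
  2] 152 136 [1] [(152, 136, [1]), (168, 136, [1, 1])]) .no) .no .no (.br 1211 (.con 136 [4, 1,
  1]) .no .no (.use 717) .no .no) .no .no) .no .no (.red [.f 706 5 1, .f 698 1 3, .t 833 1 4, .t
  960 1 4] 136 136 [] [(104, 136, [2, 2]), (120, 136, [2]), (136, 136, [])])) (.hor [.f 968 3 5]
  []) .no .no .no) (.red [.t 698 1 3, .t 833 1 4, .t 960 1 4] 136 136 [] [(104, 136, [2, 2]),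
  (120, 136, [2]), (136, 136, [])]) (.hor [.f 691 3 1, .f 698 1 5] [(103, 104, [4])]) .no .no) .no
  .no) .no (.hor [.f 809 3 1, .f 817 1 5] [(118, 120, [4, 4])]) .no (.red [.f 816 5 3, .t 817 3 1,
  .t 946 3 1] 135 136 [4] [(119, 136, [2, 4]), (135, 136, [4])])) (.hor [.f 818 1 5] []) .no (.use
  714) .no .no)) .no (.hor [.f 937 3 5] []) (.br 1075 (.con 136 [4, 4, 1]) .no .no (.br 827 .no
  (.hor [.f 698 1 5] []) .no (.br 1066 (.br 825 .no (.hor [.f 697 1 5] []) .no (.br 818 .no (.hor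
  [.f 690 1 3, .f 817 3 5] [(103, 104, [4])]) .no (.br 938 .no .no .no (.use 706) (.red [.f 938 5
  3, .f 937 3 5, .f 945 5 1, .t 944 3 1] 135 136 [4] [(135, 136, [4])]) .no) .no .no) .no (.br 699
  .no (.br 1208 (.br 1337 (.br 968 .no (.br 707 .no (.use 708) (.br 1345 (.red [.f 1337 1 3, .t
  1336 2 3] 168 136 [1, 1] [(168, 136, [1, 1]), (184, 136, [1, 1, 1])]) .no (.use 699) .no .no
  (.red [.f 1216 5 1, .f 1208 1 3] 168 136 [1, 1] [(168, 136, [1, 1])])) .no .no (.red [.f 706 5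
  1, .f 698 1 3, .t 833 1 4, .t 960 1 4] 136 136 [] [(104, 136, [2, 2]), (120, 136, [2]), (136,
  136, [])])) (.hor [.f 968 3 5] []) .no .no .no) .no (.red [.t 1345 4 2, .t 1218 4 2] 152 136 [1]
  [(152, 136, [1]), (168, 136, [1, 1])]) (.br 968 .no (.br 707 .no (.use 708) (.use 716) .no .no
  (.red [.f 706 5 1, .f 698 1 3, .t 833 1 4, .t 960 1 4] 136 136 [] [(104, 136, [2, 2]), (120,
  136, [2]), (136, 136, [])])) (.hor [.f 968 3 5] []) .no .no .no) (.red [.f 1209 5 1, .f 1210 1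
  3, .t 1218 4 2] 152 136 [1] [(152, 136, [1]), (168, 136, [1, 1])]) .no) .no .no (.br 1211 (.con
  136 [4, 1, 1]) .no .no (.br 968 .no (.br 707 .no (.use 708) (.use 717) .no .no (.red [.f 706 5
  1, .f 698 1 3, .t 833 1 4, .t 960 1 4] 136 136 [] [(104, 136, [2, 2]), (120, 136, [2]), (136,
  136, [])])) (.hor [.f 968 3 5] []) .no .no .no) .no .no) .no .no) (.red [.t 698 1 3, .t 833 1 4,
  .t 960 1 4] 136 136 [] [(104, 136, [2, 2]), (120, 136, [2]), (136, 136, [])]) (.hor [.f 691 3 1,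
  .f 698 1 5] [(103, 104, [4])]) .no .no)) (.red [.t 937 3 1, .t 944 3 1] 135 136 [4] [(134, 136,
  [4, 4]), (135, 136, [4])]) .no (.use 719) .no (.hor [.f 1065 5 3, .f 1064 3 5, .f 1066 3 5] []))
  .no .no) .no .no) .no

def c11t721 : Tr4 :=
  .br 1072 (.hor [.f 1072 1 5] []) .no .no (.use 677) .no .no

def c11t722 : Tr4 :=
  .br 819 .no (.red [.f 691 1 3] 103 136 [2, 4, 2] [(103, 136, [2, 4, 2])]) .no (.red [.t 810 1 3,
  .f 937 3 5, .f 945 5 1, .t 944 3 1] 135 136 [4] [(118, 117, [3]), (135, 136, [4])]) .no .no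

def c11t723 : Tr4 :=
  .br 1065 (.use 718) .no .no (.con 136 [4, 4, 4, 1]) .no .no

def c11t724 : Tr4 :=
  .br 1072 (.br 1075 (.use 675) .no .no .no .no .no) .no .no (.con 136 [4, 4, 1]) .no .no

def c11t725 : Tr4 :=
  .br 1066 (.br 1208 (.br 1337 (.br 1072 (.br 1075 (.use 675) .no .no (.br 1201 (.br 1338 (.use
  705) .no .no (.red [.t 1329 2 3, .f 1210 1 3] 168 136 [1, 1] [(167, 136, [4, 1, 1]), (168, 136,
  [1, 1])]) (.br 1202 (.hor [.f 1201 1 5] []) .no .no .no (.con 136 [4, 1, 1, 3]) .no) .no) .no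
  .no (.br 1211 (.br 1203 (.red [.f 1203 1 3] 167 136 [4, 1, 1] [(167, 136, [4, 1, 1])]) .no .no
  (.con 136 [4, 4, 1, 1]) .no (.br 1338 (.hor [.f 1337 1 5] []) .no .no (.red [.t 1066 1 3, .f
  1193 3 5, .f 1201 5 3, .f 1202 3 1] 167 136 [4, 1, 1] [(150, 134, [1]), (167, 136, [4, 1, 1])])
  .no .no)) .no .no (.red [.t 1193 3 2, .f 1066 3 5, .f 1074 5 3, .f 1075 3 1] 151 136 [4, 1]
  [(150, 134, [1]), (151, 136, [4, 1])]) .no .no) (.red [.f 1201 5 3, .t 1200 2 3, .f 944 3 1] 135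
  136 [4] [(135, 136, [4]), (151, 136, [4, 1])]) .no) .no .no) .no .no (.use 723) .no .no) .no
  (.red [.t 1345 4 2, .t 1218 4 2] 152 136 [1] [(152, 136, [1]), (168, 136, [1, 1])]) (.br 1072
  (.use 703) .no .no (.use 723) .no .no) (.red [.f 1209 5 1, .f 1210 1 3, .t 1218 4 2] 152 136 [1]
  [(152, 136, [1]), (168, 136, [1, 1])]) .no) .no .no (.br 1075 (.con 136 [4, 1, 4]) .no .no (.br
  1065 (.hor [.f 1065 1 5] []) .no .no (.con 136 [4, 1, 4, 4]) .no (.con 136 [4, 1, 4, 2])) .no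
  .no) .no .no) .no .no (.red [.f 930 3 1, .t 937 3 1] 134 136 [4, 4] [(133, 136, [4, 4, 4]),
  (134, 136, [4, 4])]) (.use 724) (.red [.f 1065 5 3, .f 937 3 1, .t 944 3 1] 135 136 [4] [(134,
  136, [4, 4]), (135, 136, [4])])

def c11t726 : Tr4 :=
  .br 825 .no (.br 827 .no (.br 938 (.red [.t 937 3 1, .t 944 3 1] 135 136 [4] [(134, 136, [4,
  4]), (135, 136, [4])]) (.use 722) .no (.use 725) (.red [.f 938 5 3, .f 937 3 5, .f 945 5 1, .t
  944 3 1] 135 136 [4] [(135, 136, [4])]) .no) .no (.hor [.f 818 3 5] []) .no .no) .no (.hor [.f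
  817 3 5] []) .no (.br 938 (.red [.t 937 3 1, .t 944 3 1] 135 136 [4] [(134, 136, [4, 4]), (135,
  136, [4])]) (.br 827 .no (.br 819 .no (.red [.f 691 1 3] 103 136 [2, 2, 4] [(103, 136, [2, 2,
  4])]) .no (.red [.t 810 1 3, .f 937 3 5, .f 945 5 1, .t 944 3 1] 135 136 [4] [(118, 117, [3]),
  (135, 136, [4])]) .no .no) .no (.hor [.f 818 3 5] []) .no .no) .no (.use 725) (.red [.f 938 5 3,
  .f 937 3 5, .f 945 5 1, .t 944 3 1] 135 136 [4] [(135, 136, [4])]) .no)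

def c11t727 : Tr4 :=
  .br 826 .no (.br 1072 (.br 1098 (.use 464) .no (.hor [.f 1097 3 5] []) .no (.br 1073 (.hor [.f
  1072 1 5] []) (.red [.t 944 3 1, .f 952 1 3] 136 136 [] [(135, 136, [4]), (136, 136, [])]) .no
  (.br 945 .no (.br 1217 (.hor [.f 1217 1 5] []) .no (.hor [.f 969 3 1, .t 969 1 4, .f 1089 3 1,
  .f 1096 1 5] [(137, 136, [3]), (138, 136, [3, 3]), (153, 136, [3, 1])]) .no .no (.use 692)) .no
  (.red [.f 937 3 1, .t 944 3 1] 135 136 [4] [(134, 136, [4, 4]), (135, 136, [4])]) (.use 667)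
  .no) (.br 1217 (.hor [.f 1217 1 5] []) .no (.hor [.f 969 3 1, .t 969 1 4, .f 1089 3 1, .f 1096 1
  5] [(137, 136, [3]), (138, 136, [3, 3]), (153, 136, [3, 1])]) .no .no (.br 945 .no (.br 825 .no
  (.hor [.f 697 1 5] []) .no .no .no (.br 827 .no (.hor [.f 698 1 5] []) .no (.br 946 .no (.hor
  [.f 817 1 5] []) .no (.use 678) (.use 695) .no) .no .no)) .no (.use 710) (.red [.f 945 5 1, .t
  944 3 1, .f 952 1 3] 136 136 [] [(135, 136, [4]), (136, 136, [])]) .no)) .no) .no) .no .no (.br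
  1073 (.use 677) (.red [.t 944 3 1, .f 952 1 3] 136 136 [] [(135, 136, [4]), (136, 136, [])]) .no
  (.hor [.f 1064 3 5] []) (.br 1098 (.use 683) .no (.hor [.f 1097 3 5] []) .no (.br 1217 (.hor [.f
  1217 1 5] []) .no (.hor [.f 969 3 1, .t 969 1 4, .f 1089 3 1, .f 1096 1 5] [(137, 136, [3]),
  (138, 136, [3, 3]), (153, 136, [3, 1])]) .no .no (.br 945 .no (.br 825 .no (.hor [.f 697 1 5]
  []) .no .no .no (.br 946 .no (.hor [.f 817 1 5] []) .no (.use 711) (.use 713) .no)) .no (.br 971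
  .no (.use 656) (.use 720) .no .no .no) (.red [.f 945 5 1, .t 944 3 1, .f 952 1 3] 136 136 []
  [(135, 136, [4]), (136, 136, [])]) .no)) .no) .no) (.red [.f 1072 5 3, .f 944 3 1, .f 952 1 3]
  136 136 [] [(135, 136, [4]), (136, 136, [])]) .no) .no (.br 945 (.red [.t 944 3 1, .f 952 1 3]
  136 136 [] [(135, 136, [4]), (136, 136, [])]) (.red [.t 817 1 3, .f 944 3 5, .f 952 5 1, .f 952
  1 3] 136 136 [] [(119, 118, [3]), (136, 136, [])]) .no (.br 1073 (.use 721) .no .no (.red [.f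
  937 3 1, .t 944 3 1] 135 136 [4] [(134, 136, [4, 4]), (135, 136, [4])]) (.br 946 .no .no .no
  (.hor [.f 937 3 5] []) (.br 1098 (.br 1217 (.hor [.f 1217 1 5] []) .no (.use 438) .no .no (.br
  1072 (.use 463) .no .no (.use 682) .no .no)) .no (.hor [.f 1097 3 5] []) .no (.br 1217 (.hor [.f
  1217 1 5] []) .no (.hor [.f 969 3 1, .t 969 1 4, .f 1089 3 1, .f 1096 1 5] [(137, 136, [3]),
  (138, 136, [3, 3]), (153, 136, [3, 1])]) .no .no (.use 726)) .no) .no) (.red [.f 1072 5 3, .f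
  944 3 1, .f 952 1 3] 136 136 [] [(135, 136, [4]), (136, 136, [])])) (.br 1073 (.use 721) .no .no
  (.br 1074 (.br 1211 (.br 1098 (.br 1217 (.hor [.f 1217 1 5] []) .no (.use 423) .no .no (.br 968
  .no (.use 429) (.hor [.f 968 3 5] []) .no .no .no)) .no (.hor [.f 1097 3 5] []) .no (.br 1072
  (.use 666) .no .no (.hor [.f 1064 3 5] []) .no .no) .no) .no .no (.red [.t 1202 2 3, .f 1083 1
  3, .f 955 3 1] 136 136 [] [(136, 136, []), (151, 136, [4, 1]), (152, 136, [1])]) .no .no) .no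
  .no (.hor [.f 1065 3 5] []) (.red [.f 1074 5 3, .f 945 5 3, .f 946 3 1] 135 136 [4] [(135, 136,
  [4])]) .no) (.red [.f 945 5 1, .t 944 3 1, .f 952 1 3] 136 136 [] [(135, 136, [4]), (136, 136,
  [])]) (.red [.f 1072 5 3, .f 944 3 1, .f 952 1 3] 136 136 [] [(135, 136, [4]), (136, 136, [])]))
  .no) (.red [.f 826 5 3, .t 833 1 4, .t 960 1 4] 136 136 [] [(120, 136, [2]), (136, 136, [])])
  (.red [.f 825 5 1, .f 825 1 3, .t 960 1 4] 136 136 [] [(120, 136, [2]), (136, 136, [])])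

def c11t728 : Tr4 :=
  .br 1208 (.use 300) .no (.red [.f 1098 5 1, .t 1225 4 2, .t 1216 4 2] 152 136 [1] [(152, 136,
  [1]), (153, 136, [3, 1])]) .no .no .no

def c11t729 : Tr4 :=
  .br 1226 (.hor [.f 1218 1 3, .f 1217 3 5] [(169, 153, [1])]) .no (.use 362) .no (.use 728) .no

def c11t730 : Tr4 :=
  .br 840 .no (.hor [.f 704 1 3, .t 832 3 1, .f 961 3 5] [(105, 104, [3]), (121, 120, [3])]) (.use
  729) .no (.red [.f 840 5 1, .f 833 1 3, .f 961 3 5, .f 953 5 3, .t 960 1 4] 136 136 [] [(121,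
  120, [3]), (136, 136, [])]) .no

def c11t731 : Tr4 :=
  .br 1098 (.use 423) .no (.hor [.f 1097 3 5] []) .no (.br 825 .no (.hor [.f 697 1 5] []) .no .no
  .no (.br 827 .no (.hor [.f 698 1 5] []) (.con 136 [2, 2]) (.br 832 .no (.br 834 .no (.br 1096
  (.br 840 .no (.hor [.f 704 1 3, .t 832 3 1, .f 961 3 5] [(105, 104, [3]), (121, 120, [3])]) (.br
  835 .no (.hor [.f 706 1 5] []) (.use 481) .no .no .no) .no (.red [.f 840 5 1, .f 833 1 3, .f 961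
  3 5, .f 953 5 3, .t 960 1 4] 136 136 [] [(121, 120, [3]), (136, 136, [])]) .no) .no (.hor [.f
  1096 3 5] []) .no .no .no) (.hor [.f 834 3 1, .f 833 1 5] [(121, 120, [3])]) .no (.br 1096 (.use
  730) .no (.hor [.f 1096 3 5] []) .no .no .no) .no) (.hor [.t 832 3 1, .f 961 3 5] [(121, 120,
  [3])]) .no .no .no) .no .no)) .no

def c11t732 : Tr4 :=
  .br 842 .no (.hor [.f 706 1 3, .f 834 3 1, .f 833 1 5] [(105, 104, [3]), (121, 120, [3])]) (.br
  841 .no (.hor [.f 712 1 5] []) (.hor [.f 841 3 5] []) .no .no .no) .no .no (.red [.t 961 2 3, .f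
  961 5 1, .t 962 1 4, .t 842 1 4] 136 136 [] [(136, 136, [])])

def c11t733 : Tr4 :=
  .br 835 .no (.hor [.f 706 1 5] []) (.br 832 .no (.use 272) .no (.use 732) .no .no) .no .no .no

def c11t734 : Tr4 :=
  .br 827 .no (.hor [.f 698 1 5] []) (.hor [.f 698 1 3, .f 826 3 5] [(104, 136, [2, 2])]) .no .no
  .no

def c11t735 : Tr4 :=
  .br 1203 (.red [.f 1203 1 3] 167 136 [1, 4, 1] [(167, 136, [1, 4, 1])]) .no .no (.hor [.f 1067 3
  1, .f 1074 1 5] [(150, 134, [1])]) .no .no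

def c11t736 : Tr4 :=
  .br 1074 (.br 1211 (.br 1075 (.hor [.f 1074 1 5] []) (.red [.f 945 5 3, .t 946 3 1] 135 136 [4]
  [(135, 136, [4])]) .no (.use 735) .no .no) .no .no (.red [.t 1202 2 3, .f 1083 1 3, .f 955 3 1]
  136 136 [] [(136, 136, []), (151, 136, [4, 1]), (152, 136, [1])]) .no .no) .no .no (.hor [.f
  1065 3 5] []) (.red [.f 1074 5 3, .f 945 5 3, .f 946 3 1] 135 136 [4] [(135, 136, [4])]) .no

def c11t737 : Tr4 :=
  .br 1208 (.use 300) .no (.red [.t 1225 4 2, .t 1216 4 2] 152 136 [1] [(152, 136, [1]), (153,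
  136, [3, 1])]) .no .no .no

def c11t738 : Tr4 :=
  .br 1075 (.br 1072 (.br 1217 (.hor [.f 1217 1 5] []) .no (.use 737) .no .no (.use 463)) .no .no
  (.con 136 [4, 4, 1]) .no .no) .no .no (.use 712) .no .no

def c11t739 : Tr4 :=
  .br 1217 (.hor [.f 1217 1 5] []) .no (.br 1208 (.use 300) .no (.red [.t 1225 4 2, .t 1216 4 2]
  152 136 [1] [(152, 136, [1]), (153, 136, [3, 1])]) (.br 1211 (.con 136 [4, 1, 1]) .no .no (.br
  1202 (.use 477) .no .no (.br 1345 (.br 1201 (.br 1337 (.use 475) .no .no .no (.red [.f 1209 5 1,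
  .f 1201 1 3] 167 136 [4, 1, 1] [(167, 136, [4, 1, 1])]) (.red [.t 1200 3 1] 167 136 [4, 1, 1]
  [(167, 136, [4, 1, 1])])) .no .no (.hor [.f 1193 3 5] []) .no .no) .no (.hor [.f 1217 3 1, .f
  1217 1 5] [(169, 153, [1])]) (.red [.t 1345 4 2, .t 1218 4 2] 152 136 [1] [(152, 136, [1]),
  (168, 136, [1, 1])]) .no (.con 136 [1, 1, 3, 2])) .no (.hor [.f 1201 5 3, .f 1200 3 5, .f 1202 3
  5] [])) .no .no) .no .no) .no .no (.br 1208 (.use 462) .no .no (.br 1211 (.con 136 [4, 1, 1])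
  .no .no (.br 1202 (.use 479) .no .no (.br 1201 (.br 1337 (.br 1225 (.use 442) .no (.use 162) .no
  .no .no) .no (.red [.t 1345 4 2, .f 1201 1 3] 168 136 [1, 1] [(167, 136, [4, 1, 1]), (168, 136,
  [1, 1])]) .no (.red [.f 1209 5 1, .f 1201 1 3] 167 136 [4, 1, 1] [(167, 136, [4, 1, 1])]) (.red
  [.t 1200 3 1] 167 136 [4, 1, 1] [(167, 136, [4, 1, 1])])) .no .no (.hor [.f 1193 3 5] []) .no
  .no) .no (.hor [.f 1201 5 3, .f 1200 3 5, .f 1202 3 5] [])) .no .no) .no .no)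

def c11t740 : Tr4 :=
  .br 834 .no (.br 1096 (.br 840 .no (.use 733) (.br 1098 (.use 739) .no (.hor [.f 1097 3 5] [])
  .no (.br 835 .no (.hor [.f 706 1 5] []) (.use 481) .no .no .no) .no) (.hor [.t 832 3 1, .f 961 3
  5] [(121, 120, [3])]) (.red [.f 840 5 1, .f 833 1 3, .f 961 3 5, .f 953 5 3, .t 960 1 4] 136 136
  [] [(121, 120, [3]), (136, 136, [])]) .no) .no (.hor [.f 1096 3 5] []) .no .no .no) (.hor [.f
  834 3 1, .f 833 1 5] [(121, 120, [3])]) .no (.red [.f 826 5 3, .t 833 1 4, .t 960 1 4] 136 136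
  [] [(120, 136, [2]), (136, 136, [])]) .no

def c11t741 : Tr4 :=
  .br 1075 (.br 1072 (.use 696) .no .no (.con 136 [4, 4, 1]) .no .no) .no .no (.red [.f 939 3 1]
  134 136 [4, 4] [(134, 136, [4, 4])]) .no .no

def c11t742 : Tr4 :=
  .br 947 (.red [.t 817 3 1, .t 946 3 1] 135 136 [4] [(119, 136, [2, 4]), (135, 136, [4])]) (.use
  734) .no (.use 741) .no .no

def c11l30 : List Tr4 :=
  [c11t720, c11t721, c11t722, c11t723, c11t724, c11t725, c11t726, c11t727, c11t728, c11t729,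
  c11t730, c11t731, c11t732, c11t733, c11t734, c11t735, c11t736, c11t737, c11t738, c11t739,
  c11t740, c11t741, c11t742]

theorem c11k30 : chkLF ⟨4, 1, 0, true, -8⟩ true 0 c11N 720 c11l30 = true := by decide +kernel

def c11t743 : Tr4 :=
  .br 840 .no (.br 832 .no (.hor [.f 704 1 3, .t 832 3 1, .f 961 3 5] [(105, 104, [3]), (121, 120,
  [3])]) .no .no .no .no) (.use 481) (.hor [.t 832 3 1, .f 961 3 5] [(121, 120, [3])]) (.red [.f
  840 5 1, .f 833 1 3, .f 961 3 5, .f 953 5 3, .t 960 1 4] 136 136 [] [(121, 120, [3]), (136, 136,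
  [])]) .no

def c11t744 : Tr4 :=
  .br 1096 (.br 1098 (.use 739) .no (.hor [.f 1097 3 5] []) .no (.use 743) .no) .no (.hor [.f 1096
  3 5] []) .no .no .no

def c11t745 : Tr4 :=
  .br 832 .no (.br 840 .no (.hor [.f 704 1 3, .t 832 3 1, .f 961 3 5] [(105, 104, [3]), (121, 120,
  [3])]) (.use 481) .no (.red [.f 840 5 1, .f 833 1 3, .f 961 3 5, .f 953 5 3, .t 960 1 4] 136 136
  [] [(121, 120, [3]), (136, 136, [])]) .no) (.hor [.t 832 3 1, .f 961 3 5] [(121, 120, [3])]) .no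
  .no .no

def c11t746 : Tr4 :=
  .br 938 (.red [.t 937 3 1, .t 944 3 1] 135 136 [4] [(134, 136, [4, 4]), (135, 136, [4])]) .no
  .no (.br 1072 (.use 707) .no .no (.br 1066 (.use 723) .no .no (.use 719) (.con 136 [4, 4, 1])
  (.red [.f 1065 5 3, .f 937 3 1, .t 944 3 1] 135 136 [4] [(134, 136, [4, 4]), (135, 136, [4])]))
  .no .no) (.red [.f 938 5 3, .f 937 3 5, .f 945 5 1, .t 944 3 1] 135 136 [4] [(135, 136, [4])])
  .no

def c11t747 : Tr4 :=
  .br 1096 (.br 1098 (.use 739) .no (.hor [.f 1097 3 5] []) .no (.br 840 .no (.hor [.f 704 1 3, .t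
  832 3 1, .f 961 3 5] [(105, 104, [3]), (121, 120, [3])]) (.br 976 (.red [.t 1104 2 4, .t 969 1
  4, .t 962 1 4] 136 136 [] [(136, 136, []), (137, 136, [3]), (138, 136, [3, 3])]) .no (.br 1106
  (.br 1104 (.hor [.f 1096 1 3, .f 1096 3 5] [(154, 138, [1])]) .no (.red [.f 976 3 1, .t 1104 2
  4, .t 969 1 4, .t 962 1 4] 136 136 [] [(136, 136, []), (137, 136, [3]), (138, 136, [3, 3]),
  (139, 136, [3, 3, 3])]) .no .no .no) (.use 270) (.use 164) .no (.red [.f 1098 5 3, .f 1097 3 5,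
  .f 1089 5 3, .f 962 3 1, .t 962 1 4] 136 136 [] [(136, 136, []), (137, 136, [3])]) .no) .no
  (.red [.f 968 5 3, .f 969 3 1, .t 969 1 4, .t 962 1 4] 136 136 [] [(136, 136, []), (137, 136,
  [3]), (138, 136, [3, 3])]) .no) .no (.red [.f 840 5 1, .f 833 1 3, .f 961 3 5, .f 953 5 3, .t
  960 1 4] 136 136 [] [(121, 120, [3]), (136, 136, [])]) .no) .no) .no (.hor [.f 1096 3 5] []) .no
  .no .no

def c11t748 : Tr4 :=
  .br 832 .no (.use 747) (.hor [.t 832 3 1, .f 961 3 5] [(121, 105, [1])]) .no .no .no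

def c11t749 : Tr4 :=
  .br 824 .no (.con 136 [2, 2]) (.br 825 .no (.br 698 .no (.use 674) .no (.red [.f 690 3 1, .f 697
  1 5] 103 136 [2, 2, 4] [(103, 136, [2, 2, 4])]) (.br 1072 (.use 676) .no .no (.use 687) .no .no)
  .no) .no (.hor [.f 817 3 5] []) .no .no) (.con 136 [2, 2]) (.con 136 [2, 2]) .no

def c11t750 : Tr4 :=
  .br 826 .no (.br 834 .no (.br 835 .no (.hor [.f 706 1 5] []) (.br 946 .no (.br 825 .no (.hor [.f
  697 1 5] []) .no (.use 742) .no (.use 744)) .no (.hor [.f 937 3 5] []) (.br 825 .no (.hor [.f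
  697 1 5] []) .no (.br 1096 (.br 1098 (.use 739) .no (.hor [.f 1097 3 5] []) .no (.br 824 .no
  (.use 745) (.br 818 .no (.hor [.f 690 1 3, .f 817 3 5] [(103, 120, [2, 4])]) .no (.use 746) (.br
  699 (.hor [.f 698 1 5] []) (.con 136 [2, 4, 2, 3, 1]) (.con 136 [2, 4, 2, 3, 1]) (.con 136 [2,
  4, 2, 3, 1]) .no .no) .no) (.hor [.f 816 3 5] []) .no .no) .no) .no (.hor [.f 1096 3 5] []) .no
  .no .no) .no (.use 744)) .no) (.hor [.f 698 1 3, .f 826 3 5] [(104, 136, [2, 2])]) .no .no)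
  (.hor [.f 834 3 1, .f 833 1 5] [(121, 120, [3])]) .no (.br 946 .no (.br 947 (.br 825 .no (.hor
  [.f 697 1 5] []) .no (.red [.t 817 3 1, .t 946 3 1] 135 136 [4] [(119, 136, [2, 4]), (135, 136,
  [4])]) .no (.use 748)) (.hor [.f 818 1 5] []) .no (.use 741) .no .no) .no (.hor [.f 937 3 5] [])
  (.br 825 .no (.hor [.f 697 1 5] []) .no (.br 824 .no (.br 832 .no (.use 747) (.hor [.t 832 3 1,
  .f 961 3 5] [(121, 105, [1])]) .no .no .no) (.br 818 .no (.hor [.f 690 1 3, .f 817 3 5] [(103,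
  120, [2, 4])]) .no (.use 746) (.br 699 (.hor [.f 698 1 5] []) (.con 136 [2, 4, 2, 3, 1]) (.con
  136 [2, 4, 2, 3, 1]) (.con 136 [2, 4, 2, 3, 1]) .no .no) .no) (.hor [.f 816 3 5] []) .no .no)
  .no (.use 748)) .no) .no) (.red [.t 833 1 4, .t 960 1 4] 136 136 [] [(120, 136, [2]), (136, 136,
  [])]) (.br 946 .no .no .no (.hor [.f 937 3 5] []) (.br 1096 (.br 1098 (.use 739) .no (.hor [.f
  1097 3 5] []) .no (.br 834 .no (.br 827 .no (.br 835 .no (.hor [.f 706 1 5] []) (.br 825 .no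
  (.br 824 .no (.use 745) (.br 840 .no (.use 732) (.use 481) .no (.red [.f 840 5 1, .f 833 1 3, .f
  961 3 5, .f 953 5 3, .t 960 1 4] 136 136 [] [(121, 120, [3]), (136, 136, [])]) .no) (.con 136
  [2, 2, 4]) .no .no) .no (.hor [.f 817 3 5] []) .no (.use 743)) .no .no .no) (.use 749) (.hor [.f
  818 3 5] []) .no .no) (.hor [.f 834 3 1, .f 833 1 5] [(121, 120, [3])]) .no (.br 825 .no (.br
  827 .no (.br 938 (.red [.t 937 3 1, .t 944 3 1] 135 136 [4] [(134, 136, [4, 4]), (135, 136,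
  [4])]) (.use 722) .no (.br 1066 (.br 1072 (.br 1075 (.use 675) .no .no (.br 819 .no (.red [.f
  691 1 3] 103 136 [2, 4, 2] [(103, 136, [2, 4, 2])]) .no (.use 658) .no .no) .no .no) .no .no
  (.use 723) .no .no) .no .no (.red [.f 930 3 1, .t 937 3 1] 134 136 [4, 4] [(133, 136, [4, 4,
  4]), (134, 136, [4, 4])]) (.use 724) (.red [.f 1065 5 3, .f 937 3 1, .t 944 3 1] 135 136 [4]
  [(134, 136, [4, 4]), (135, 136, [4])])) (.red [.f 938 5 3, .f 937 3 5, .f 945 5 1, .t 944 3 1]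
  135 136 [4] [(135, 136, [4])]) .no) .no (.hor [.f 818 3 5] []) .no .no) .no (.hor [.f 817 3 5]
  []) .no (.use 748)) .no) .no) .no (.hor [.f 1096 3 5] []) .no .no .no) .no) (.use 740) (.red [.f
  825 5 1, .f 825 1 3, .t 960 1 4] 136 136 [] [(120, 136, [2]), (136, 136, [])])

def c11t751 : Tr4 :=
  .br 1073 (.use 721) (.red [.t 944 3 1, .f 952 1 3] 136 136 [] [(135, 136, [4]), (136, 136, [])])
  .no (.br 1072 (.br 945 .no (.br 826 .no (.br 1074 (.br 1211 (.br 1217 (.hor [.f 1217 1 5] [])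
  .no (.use 731) .no .no (.use 689)) .no .no (.use 663) .no .no) (.use 662) .no (.hor [.f 1065 3
  5] []) (.br 1211 (.br 1217 (.hor [.f 1217 1 5] []) .no (.use 731) .no .no (.use 691)) .no .no
  (.use 663) .no .no) .no) (.red [.t 833 1 4, .t 960 1 4] 136 136 [] [(120, 136, [2]), (136, 136,
  [])]) (.red [.t 817 1 3, .f 944 3 5, .f 952 5 1, .f 952 1 3] 136 136 [] [(119, 118, [3]), (136,
  136, [])]) (.br 834 .no (.br 1217 (.hor [.f 1217 1 5] []) .no (.br 1211 (.br 1098 (.use 423) .no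
  (.hor [.f 1097 3 5] []) .no (.br 1096 (.br 840 .no (.use 733) (.use 729) (.hor [.t 832 3 1, .f
  961 3 5] [(121, 120, [3])]) (.red [.f 840 5 1, .f 833 1 3, .f 961 3 5, .f 953 5 3, .t 960 1 4]
  136 136 [] [(121, 120, [3]), (136, 136, [])]) .no) .no (.hor [.f 1096 3 5] []) .no .no .no) .no)
  .no .no (.use 663) .no .no) .no .no (.use 692)) (.hor [.f 834 3 1, .f 833 1 5] [(121, 120,
  [3])]) .no (.red [.f 826 5 3, .t 833 1 4, .t 960 1 4] 136 136 [] [(120, 136, [2]), (136, 136,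
  [])]) .no) (.red [.f 825 5 1, .f 825 1 3, .t 960 1 4] 136 136 [] [(120, 136, [2]), (136, 136,
  [])])) .no (.red [.f 937 3 1, .t 944 3 1] 135 136 [4] [(134, 136, [4, 4]), (135, 136, [4])])
  (.use 736) .no) .no .no (.hor [.f 1064 3 5] []) .no .no) (.br 945 .no (.br 826 .no (.br 1096
  (.br 834 .no (.br 835 .no (.hor [.f 706 1 5] []) (.br 825 .no (.hor [.f 697 1 5] []) .no .no .no
  (.br 946 .no (.hor [.f 817 1 5] []) .no (.use 679) (.br 832 .no (.br 840 .no (.hor [.f 704 1 3,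
  .t 832 3 1, .f 961 3 5] [(105, 104, [3]), (121, 120, [3])]) (.br 1098 (.br 827 .no (.hor [.f 698
  1 5] []) .no (.use 738) .no .no) .no (.hor [.f 1097 3 5] []) .no (.use 481) .no) .no (.red [.f
  840 5 1, .f 833 1 3, .f 961 3 5, .f 953 5 3, .t 960 1 4] 136 136 [] [(121, 120, [3]), (136, 136,
  [])]) .no) (.hor [.t 832 3 1, .f 961 3 5] [(121, 120, [3])]) .no .no .no) .no)) (.hor [.f 698 1
  3, .f 826 3 5] [(104, 136, [2, 2])]) .no .no) (.hor [.f 834 3 1, .f 833 1 5] [(121, 120, [3])])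
  .no (.br 825 .no (.hor [.f 697 1 5] []) .no .no .no (.br 946 .no (.hor [.f 817 1 5] []) .no
  (.use 711) (.br 832 .no (.br 827 .no (.hor [.f 698 1 5] []) .no (.br 1098 (.use 738) .no (.hor
  [.f 1097 3 5] []) .no (.br 1072 (.br 1217 (.hor [.f 1217 1 5] []) .no (.use 730) .no .no (.use
  695)) .no .no (.use 713) .no .no) .no) .no .no) (.hor [.t 832 3 1, .f 961 3 5] [(121, 105,
  [1])]) .no .no .no) .no)) .no) .no (.hor [.f 1096 3 5] []) .no .no .no) (.red [.t 833 1 4, .t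
  960 1 4] 136 136 [] [(120, 136, [2]), (136, 136, [])]) (.red [.t 817 1 3, .f 944 3 5, .f 952 5
  1, .f 952 1 3] 136 136 [] [(119, 118, [3]), (136, 136, [])]) (.use 740) (.red [.f 825 5 1, .f
  825 1 3, .t 960 1 4] 136 136 [] [(120, 136, [2]), (136, 136, [])])) .no (.use 750) (.red [.f 945
  5 1, .t 944 3 1, .f 952 1 3] 136 136 [] [(135, 136, [4]), (136, 136, [])]) .no) (.red [.f 1072 5
  3, .f 944 3 1, .f 952 1 3] 136 136 [] [(135, 136, [4]), (136, 136, [])])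

def c11t752 : Tr4 :=
  .br 825 .no (.hor [.f 697 1 5] []) .no .no .no (.br 827 .no (.hor [.f 698 1 5] []) (.con 136 [2,
  2]) (.use 678) .no .no)

def c11t753 : Tr4 :=
  .br 938 (.red [.f 946 5 1, .f 938 1 3] 134 136 [4, 4] [(134, 136, [4, 4])]) .no .no (.br 937 .no
  (.red [.f 809 1 3, .f 809 3 5] 118 136 [2, 4, 4] [(118, 136, [2, 4, 4])]) .no (.hor [.f 929 3 5]
  []) .no (.br 939 (.con 136 [4, 4, 4]) (.red [.t 810 3 1, .f 817 1 5] 118 136 [2, 4, 4] [(118,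
  136, [2, 4, 4])]) .no (.hor [.f 930 3 5] []) .no .no)) (.red [.f 938 5 3, .f 810 3 1] 118 136
  [2, 4, 4] [(118, 136, [2, 4, 4])]) (.red [.t 817 1 4] 118 136 [2, 4, 4] [(118, 136, [2, 4, 4])])

def c11t754 : Tr4 :=
  .br 809 .no (.con 136 [4, 2, 4, 4, 2]) .no (.hor [.f 801 3 5] []) .no (.con 136 [4, 2, 4, 2])

def c11t755 : Tr4 :=
  .br 819 .no (.hor [.f 690 1 5] []) .no (.br 810 .no (.red [.f 682 1 3] 102 136 [2, 4, 2, 4]
  [(102, 136, [2, 4, 2, 4])]) .no (.use 754) .no (.red [.t 945 2 4] 118 136 [2, 4, 4] [(118, 136,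
  [2, 4, 4])])) .no .no

def c11t756 : Tr4 :=
  .br 810 .no (.hor [.f 681 1 5] []) .no (.br 811 .no (.con 136 [2, 4, 4, 4, 2]) .no (.hor [.f 802
  3 5] []) .no .no) (.red [.f 818 5 3, .f 818 3 5, .f 810 5 3, .f 810 3 1] 118 136 [2, 4, 4]
  [(118, 136, [2, 4, 4])]) .no

def c11t757 : Tr4 :=
  .br 810 .no (.hor [.f 682 1 5] []) .no (.con 136 [2, 4, 2, 4, 4]) .no .no

def c11t758 : Tr4 :=
  .br 816 .no (.use 757) .no .no .no .no

def c11t759 : Tr4 :=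
  .br 819 .no (.hor [.f 690 1 5] []) .no (.con 136 [2, 4, 2, 4]) .no .no

def c11t760 : Tr4 :=
  .br 707 .no (.red [.f 571 1 3, .t 706 1 4, .t 833 1 4, .t 960 1 4] 136 136 [] [(88, 136, [2, 2,
  2]), (104, 136, [2, 2]), (120, 136, [2]), (136, 136, [])]) (.hor [.f 707 3 1, .f 706 1 5] [(105,
  104, [3])]) .no .no .no

def c11t761 : Tr4 :=
  .br 699 .no (.use 760) (.red [.t 706 1 4, .t 833 1 4, .t 960 1 4] 136 136 [] [(104, 136, [2,
  2]), (120, 136, [2]), (136, 136, [])]) (.con 136 [2, 2, 4, 4]) .no (.red [.f 698 5 1, .f 697 1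
  5, .f 825 5 1, .f 825 1 3, .t 960 1 4] 136 136 [] [(120, 136, [2]), (136, 136, [])])

def c11t762 : Tr4 :=
  .br 825 .no (.br 824 .no (.hor [.f 696 1 5] []) (.br 816 .no (.use 759) .no (.red [.t 816 4 1]
  118 136 [2, 4, 4] [(118, 136, [2, 4, 4])]) .no .no) (.use 761) .no .no) .no .no .no (.br 816 .no
  (.use 759) .no (.red [.t 816 4 1] 118 136 [2, 4, 4] [(118, 136, [2, 4, 4])]) .no .no)

def c11t763 : Tr4 :=
  .br 808 .no (.red [.f 680 1 3] 102 136 [2, 4, 2, 4] [(102, 136, [2, 4, 2, 4])]) .no (.hor [.f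
  800 3 5] []) .no .no

def c11t764 : Tr4 :=
  .br 699 .no (.use 760) (.red [.t 706 1 4, .t 833 1 4, .t 960 1 4] 136 136 [] [(104, 136, [2,
  2]), (120, 136, [2]), (136, 136, [])]) (.br 698 .no (.br 696 .no (.con 136 [2, 2, 2, 4]) (.con
  136 [2, 2, 2]) (.red [.f 688 3 1, .f 696 1 5] 103 136 [2, 2, 4] [(103, 136, [2, 2, 4])]) .no
  .no) .no (.hor [.f 690 3 5] []) .no .no) .no (.red [.f 698 5 1, .f 697 1 5, .f 825 5 1, .f 825 1
  3, .t 960 1 4] 136 136 [] [(120, 136, [2]), (136, 136, [])])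

def c11t765 : Tr4 :=
  .br 825 .no (.br 824 .no (.hor [.f 696 1 5] []) (.br 816 .no (.br 809 .no (.use 756) .no (.use
  763) (.red [.t 945 2 4] 118 136 [2, 4, 4] [(118, 136, [2, 4, 4])]) (.red [.f 808 5 1, .f 809 1
  3] 118 136 [2, 4, 4] [(118, 136, [2, 4, 4])])) .no (.red [.t 816 4 1] 118 136 [2, 4, 4] [(118,
  136, [2, 4, 4])]) .no .no) (.use 764) .no .no) .no .no .no (.br 816 .no (.br 808 .no (.red [.f
  680 1 3] 102 136 [2, 2, 4, 4] [(102, 136, [2, 2, 4, 4])]) .no (.br 809 .no (.use 756) .no (.hor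
  [.f 800 3 5] []) (.red [.t 945 2 4] 118 136 [2, 4, 4] [(118, 136, [2, 4, 4])]) .no) (.red [.t
  944 3 2, .f 808 5 1, .t 824 1 4, .f 809 1 3] 118 136 [2, 4, 4] [(118, 136, [2, 4, 4])]) .no) .no
  (.red [.t 816 4 1] 118 136 [2, 4, 4] [(118, 136, [2, 4, 4])]) .no .no)

def c11t766 : Tr4 :=
  .br 810 .no (.hor [.f 681 1 5] []) .no (.br 811 .no (.con 136 [4, 4, 2, 4, 2]) .no (.hor [.f 802
  3 5] []) .no .no) (.red [.f 818 5 1, .f 810 5 1, .f 811 1 3] 118 136 [4, 4, 2] [(118, 136, [4,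
  4, 2])]) .no

def c11t767 : Tr4 :=
  .br 939 (.con 136 [1, 4, 2, 4, 4]) (.hor [.f 810 1 5] []) .no (.con 136 [1, 4, 2, 4, 2, 4]) .no
  .no

def c11t768 : Tr4 :=
  .br 939 (.con 136 [1, 4, 2, 4, 4]) (.red [.f 818 5 1, .f 811 1 3] 118 136 [1, 4, 2, 4, 2] [(118,
  136, [4, 4, 2])]) .no (.hor [.f 930 3 5] []) .no .no

def c11t769 : Tr4 :=
  .br 808 .no (.red [.f 680 1 3] 102 136 [2, 2, 4, 4] [(102, 136, [2, 2, 4, 4])]) .no (.hor [.f
  800 3 5] []) .no .no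

def c11l31 : List Tr4 :=
  [c11t743, c11t744, c11t745, c11t746, c11t747, c11t748, c11t749, c11t750, c11t751, c11t752,
  c11t753, c11t754, c11t755, c11t756, c11t757, c11t758, c11t759, c11t760, c11t761, c11t762,
  c11t763, c11t764, c11t765, c11t766, c11t767, c11t768, c11t769]

theorem c11k31 : chkLF ⟨4, 1, 0, true, -8⟩ true 0 c11N 743 c11l31 = true := by decide +kernel

def c11t770 : Tr4 :=
  .br 938 (.red [.f 818 5 1, .f 817 1 5, .t 1065 3 2] 134 136 [4, 4] [(134, 136, [4, 4])]) (.use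
  767) .no (.use 768) (.br 816 .no (.br 809 .no (.use 766) .no (.use 769) (.red [.f 938 5 3, .t
  945 2 4] 118 136 [2, 4, 4] [(118, 136, [2, 4, 4])]) (.red [.t 944 3 2, .f 808 5 1, .t 824 1 4,
  .f 809 1 3] 118 136 [2, 4, 4] [(118, 136, [2, 4, 4])])) .no (.red [.t 816 4 1] 118 136 [2, 4, 4]
  [(118, 136, [2, 4, 4])]) .no .no) .no

def c11t771 : Tr4 :=
  .br 937 .no (.red [.f 809 1 3] 118 136 [2, 4, 4] [(118, 136, [2, 4, 4])]) .no (.br 938 (.red [.f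
  946 5 1, .f 938 1 3] 134 136 [4, 4] [(134, 136, [4, 4])]) (.br 939 (.con 136 [2, 4, 4, 4]) (.hor
  [.f 810 1 5] []) .no (.con 136 [2, 4, 4, 4]) .no .no) .no (.hor [.f 929 3 5] []) (.br 1202 (.hor
  [.f 1201 1 5] []) .no .no (.br 1203 (.red [.f 946 5 1, .f 1203 1 3] 167 136 [4, 1, 1] [(167,
  136, [4, 1, 1])]) .no .no (.hor [.f 1194 3 5] []) .no .no) (.br 818 .no (.br 819 .no (.hor [.f
  690 1 5] []) .no (.br 810 .no (.red [.f 682 1 3] 102 136 [2, 4, 2, 4] [(102, 136, [2, 4, 2,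
  4])]) .no (.use 754) .no (.red [.f 938 5 3, .t 945 2 4] 118 136 [2, 4, 4] [(118, 136, [2, 4,
  4])])) .no .no) .no (.use 753) (.br 1066 (.br 1067 (.hor [.f 1066 1 5] []) .no .no (.br 1330
  (.red [.f 1330 1 3, .t 1329 2 3] 167 136 [4, 1, 1] [(167, 136, [4, 1, 1]), (183, 136, [4, 1, 1,
  1])]) .no .no (.br 1195 (.red [.t 1322 3 2, .f 1201 1 5, .f 1201 5 3, .t 1200 2 3] 151 136 [4,
  1] [(151, 136, [4, 1]), (166, 167, [4])]) .no .no (.red [.f 938 5 3, .f 1059 3 1] 149 136 [4, 4,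
  1, 4] [(149, 136, [4, 4, 1, 4])]) .no .no) (.red [.f 1202 5 1, .f 1201 1 5, .f 1201 5 3, .t 1200
  2 3, .f 944 3 1] 135 136 [4] [(135, 136, [4]), (151, 136, [4, 1])]) .no) .no .no) .no .no (.br
  809 .no (.use 766) .no (.red [.f 801 3 1, .f 809 1 3] 118 136 [2, 4, 4] [(117, 136, [2, 4, 4,
  4]), (118, 136, [2, 4, 4])]) (.red [.f 938 5 3, .t 945 2 4] 118 136 [2, 4, 4] [(118, 136, [2, 4,
  4])]) (.br 811 .no (.br 810 .no (.hor [.f 682 1 5] []) .no (.con 136 [2, 4, 4, 2, 4]) .no .no)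
  .no (.br 930 .no (.red [.t 802 1 3, .f 929 3 5] 117 136 [2, 4, 4, 4] [(117, 136, [2, 4, 4, 4])])
  .no (.br 931 (.red [.t 1058 3 2, .f 803 3 1] 117 136 [2, 4, 4, 4] [(117, 136, [2, 4, 4, 4]),
  (133, 136, [4, 4, 4])]) .no .no (.hor [.f 922 3 5] []) .no .no) (.red [.f 930 5 3, .f 803 3 1]
  117 136 [2, 4, 4, 4] [(117, 136, [2, 4, 4, 4])]) .no) .no (.red [.f 818 5 1, .f 810 5 1, .f 811
  1 3] 118 136 [2, 4, 4] [(118, 136, [2, 4, 4])]))) (.red [.f 946 5 1, .f 938 5 1, .f 938 1 3] 134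
  136 [4, 4] [(134, 136, [4, 4])]) .no) .no) .no) .no) (.red [.f 946 5 1, .t 1073 4 2] 134 136 [4,
  4] [(134, 136, [4, 4])]) (.br 825 .no (.br 824 .no (.hor [.f 696 1 5] []) (.br 816 .no (.br 808
  .no (.red [.f 680 1 3, .t 816 4 1] 118 136 [2, 4, 4] [(102, 136, [2, 2, 4, 4]), (118, 136, [2,
  4, 4])]) .no (.br 818 .no (.br 819 .no (.hor [.f 690 1 5] []) .no (.con 136 [2, 2, 4, 4]) .no
  .no) .no (.use 753) (.br 938 (.red [.f 818 5 1, .f 817 1 5, .t 1065 3 2] 134 136 [4, 4] [(134,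
  136, [4, 4])]) (.use 767) .no (.use 768) (.br 809 .no (.use 766) .no (.use 763) (.red [.f 938 5
  3, .t 945 2 4] 118 136 [2, 4, 4] [(118, 136, [2, 4, 4])]) .no) .no) .no) (.red [.f 808 5 1, .f
  809 1 3] 118 136 [2, 4, 4] [(118, 136, [2, 4, 4])]) .no) .no (.red [.t 816 4 1] 118 136 [2, 4,
  4] [(118, 136, [2, 4, 4])]) .no .no) (.br 818 .no (.use 761) .no (.use 753) (.use 764) .no) .no
  .no) .no .no .no (.br 707 .no (.br 699 .no (.br 697 .no (.red [.f 571 1 3, .t 706 1 4, .t 833 1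
  4, .t 960 1 4] 136 136 [] [(88, 136, [2, 2, 2]), (104, 136, [2, 2]), (120, 136, [2]), (136, 136,
  [])]) (.br 698 .no (.hor [.f 570 1 5] []) .no (.br 818 .no .no .no (.use 753) (.use 770) .no)
  .no .no) (.red [.f 571 1 3, .t 706 1 4, .t 833 1 4, .t 960 1 4] 136 136 [] [(88, 136, [2, 2,
  2]), (104, 136, [2, 2]), (120, 136, [2]), (136, 136, [])]) (.red [.f 571 1 3, .t 706 1 4, .t 833
  1 4, .t 960 1 4] 136 136 [] [(88, 136, [2, 2, 2]), (104, 136, [2, 2]), (120, 136, [2]), (136,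
  136, [])]) (.red [.f 571 1 3, .t 706 1 4, .t 833 1 4, .t 960 1 4] 136 136 [] [(88, 136, [2, 2,
  2]), (104, 136, [2, 2]), (120, 136, [2]), (136, 136, [])])) .no (.br 818 .no (.br 816 .no (.con
  136 [2, 2, 4, 4]) .no (.red [.t 816 4 1] 118 136 [2, 4, 4] [(118, 136, [2, 4, 4])]) .no .no) .no
  (.use 753) (.use 770) .no) .no (.red [.f 698 5 1, .f 698 1 3, .t 833 1 4, .t 960 1 4] 136 136 []
  [(104, 136, [2, 2]), (120, 136, [2]), (136, 136, [])])) (.hor [.f 707 3 1, .f 706 1 5] [(105,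
  104, [3])]) (.red [.t 706 1 4, .t 833 1 4, .t 960 1 4] 136 136 [] [(104, 136, [2, 2]), (120,
  136, [2]), (136, 136, [])]) .no .no))

def c11t772 : Tr4 :=
  .br 1074 (.br 1211 (.br 1075 (.hor [.f 1074 1 5] []) (.br 946 .no (.hor [.f 817 1 5] []) .no
  (.br 1201 (.br 1338 (.br 835 .no (.hor [.f 706 1 5] []) (.br 937 .no (.red [.f 809 1 3] 118 136
  [2, 4, 4] [(118, 136, [2, 4, 4])]) .no (.br 818 .no (.use 755) .no (.red [.f 810 3 1, .f 817 1
  5] 118 136 [2, 4, 4] [(118, 136, [2, 4, 4])]) (.br 1064 (.hor [.f 1064 1 3, .f 1064 3 5] [(150,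
  151, [4])]) (.br 1203 (.red [.f 1203 1 3] 167 136 [4, 1, 1] [(167, 136, [4, 1, 1])]) .no .no
  (.br 1066 (.hor [.f 1066 1 3, .f 1065 3 5] [(150, 151, [4])]) .no .no (.br 1194 (.br 1330 (.red
  [.f 1330 1 3, .t 1329 2 3] 167 136 [4, 1, 1] [(167, 136, [4, 1, 1]), (183, 136, [4, 1, 1, 1])])
  .no .no .no (.red [.t 1194 1 3, .f 1203 1 3] 167 136 [4, 1, 1] [(166, 136, [4, 4, 1, 1]), (167,
  136, [4, 1, 1])]) .no) .no .no (.hor [.f 1058 3 1, .f 1066 1 3, .f 1065 3 5] [(149, 151, [4,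
  4]), (150, 151, [4])]) .no (.hor [.t 1073 4 1, .f 1194 3 5] [(150, 151, [4])])) (.hor [.t 1202 2
  4, .f 1065 3 5] [(150, 151, [4])]) .no) .no .no) .no (.br 936 .no (.br 939 (.con 136 [2, 4, 4,
  4]) (.red [.f 818 5 3, .f 818 3 5, .t 938 3 2, .f 817 1 5] 118 136 [2, 4, 4] [(118, 136, [2, 4,
  4])]) .no (.con 136 [2, 4, 4, 4]) .no .no) .no (.hor [.f 928 3 5] []) .no .no) .no .no) .no) .no
  (.br 818 .no (.use 762) .no (.red [.f 810 3 1, .f 817 1 5] 118 136 [2, 4, 4] [(118, 136, [2, 4,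
  4])]) (.br 939 (.use 765) (.red [.f 818 5 3, .f 818 3 5, .t 938 3 2, .f 817 1 5] 118 136 [2, 4,
  4] [(118, 136, [2, 4, 4])]) .no (.br 1203 (.red [.f 1203 1 3] 167 136 [4, 1, 1] [(167, 136, [4,
  1, 1])]) .no .no (.br 1066 (.hor [.f 1066 1 3, .f 1065 3 5] [(150, 151, [4])]) .no .no (.br 1067
  .no .no .no (.hor [.f 1058 3 5] []) .no .no) (.hor [.t 1202 2 4, .f 1065 3 5] [(150, 151, [4])])
  .no) .no .no) .no .no) .no)) .no .no .no) .no .no (.red [.t 1329 2 3, .f 1210 1 5] 167 136 [4,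
  1, 1] [(167, 136, [4, 1, 1])]) .no (.red [.f 1209 5 1, .f 1201 1 3] 167 136 [4, 1, 1] [(167,
  136, [4, 1, 1])])) .no .no (.hor [.f 1065 3 1, .f 1072 1 5] [(150, 151, [4])]) .no .no) .no .no)
  .no (.use 735) .no .no) .no .no (.use 663) .no .no) (.use 662) .no (.hor [.f 1065 3 5] []) (.br
  1211 (.br 1201 (.br 1338 (.br 835 .no (.hor [.f 706 1 5] []) (.br 946 .no (.hor [.f 817 1 5] [])
  .no (.br 947 .no (.con 136 [2, 4, 4]) .no (.hor [.f 938 3 5] []) .no .no) (.use 771) .no) .no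
  .no .no) .no .no (.red [.t 1329 2 3, .f 1210 1 5] 167 136 [4, 1, 1] [(167, 136, [4, 1, 1])]) .no
  (.red [.f 1209 5 1, .f 1201 1 3] 167 136 [4, 1, 1] [(167, 136, [4, 1, 1])])) .no .no (.red [.f
  1065 3 1, .f 1072 1 5, .f 1072 5 3, .f 944 3 1] 135 136 [4] [(135, 136, [4]), (150, 134, [1])])
  (.red [.f 1201 5 3, .t 1200 2 3, .f 944 3 1] 135 136 [4] [(135, 136, [4]), (151, 136, [4, 1])])
  .no) .no .no (.use 663) .no .no) .no

def c11t773 : Tr4 :=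
  .br 1075 (.br 1072 (.br 1202 (.use 553) .no .no (.br 818 .no (.hor [.t 944 3 2, .f 690 1 3, .f
  818 3 5, .t 824 1 4] [(103, 104, [4])]) .no (.br 1066 .no (.br 939 (.hor [.f 938 1 5] []) (.red
  [.t 810 3 1, .f 817 1 5] 118 136 [2, 4, 4] [(118, 136, [2, 4, 4])]) .no (.br 1067 (.red [.f 1067
  1 3] 150 136 [4, 4, 1] [(150, 136, [4, 4, 1])]) .no .no (.br 937 (.hor [.f 937 1 5] []) (.red
  [.f 931 3 1, .f 938 1 5, .t 1202 4 2] 150 136 [4, 4, 1] [(133, 134, [4]), (150, 136, [4, 4,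
  1])]) .no (.red [.f 931 3 1, .f 938 1 5, .t 1202 4 2] 150 136 [4, 4, 1] [(133, 117, [1]), (150,
  136, [4, 4, 1])]) .no (.red [.f 931 3 1, .f 938 1 5, .t 1202 4 2] 150 136 [4, 4, 1] [(133, 117,
  [1]), (150, 136, [4, 4, 1])])) .no .no) .no .no) .no (.br 1065 (.red [.t 1193 2 3, .f 1074 1 5]
  150 136 [4, 4, 1] [(150, 136, [4, 4, 1])]) (.br 938 .no .no .no (.red [.f 930 3 1, .f 937 1 5]
  133 136 [4, 4, 4] [(133, 136, [4, 4, 4])]) (.red [.f 938 5 3, .f 810 3 1] 118 136 [2, 4, 4]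
  [(118, 136, [2, 4, 4])]) .no) .no (.hor [.f 1057 3 5] []) .no (.use 554)) (.red [.t 1202 4 2]
  150 136 [4, 4, 1] [(150, 136, [4, 4, 1])]) (.red [.f 1065 5 3, .f 1066 3 1] 150 136 [4, 4, 1]
  [(150, 136, [4, 4, 1])])) .no .no) .no (.red [.f 1201 5 3, .t 1200 2 3, .f 944 3 1] 135 136 [4]
  [(135, 136, [4]), (151, 136, [4, 1])])) .no .no (.con 136 [4, 4, 1]) .no .no) .no .no (.use 712)
  .no .no

def c11t774 : Tr4 :=
  .br 1211 (.con 136 [1, 1, 4]) .no .no (.con 136 [1, 1, 4, 2]) .no .no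

def c11t775 : Tr4 :=
  .br 1203 (.red [.f 1203 1 3] 167 136 [1, 4, 1] [(167, 136, [1, 4, 1])]) .no .no (.hor [.f 1194 3
  5] []) .no .no

def c11t776 : Tr4 :=
  .br 1339 (.hor [.f 1338 1 5] []) .no .no .no .no .no

def c11t777 : Tr4 :=
  .br 1235 (.br 1354 (.br 1355 (.hor [.f 1354 1 5] []) .no .no .no .no .no) .no (.hor [.t 1362 4
  2, .f 1218 1 3, .f 1217 3 5] [(169, 153, [1]), (170, 154, [1])]) .no (.red [.f 1226 5 1, .f 1218
  1 3, .f 1217 3 5, .f 1089 5 1, .t 1216 4 2] 152 136 [1] [(152, 136, [1]), (169, 153, [1])])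
  (.red [.t 1217 3 1, .f 1089 5 1, .t 1216 4 2] 152 136 [1] [(152, 136, [1]), (169, 153, [1])]))
  .no (.red [.f 1107 3 1, .t 1106 4 1, .t 1225 4 2, .t 1216 4 2] 152 136 [1] [(152, 136, [1]),
  (153, 136, [3, 1]), (154, 136, [3, 3, 1]), (155, 136, [3, 3, 1, 3])]) .no .no (.red [.f 1226 5
  3, .f 1098 3 1, .t 1225 4 2, .t 1216 4 2] 152 136 [1] [(152, 136, [1]), (153, 136, [3, 1]),
  (154, 136, [3, 3, 1])])

def c11t778 : Tr4 :=
  .br 1105 (.hor [.t 1232 4 2, .f 1097 3 5] [(154, 136, [3, 3, 1])]) .no (.use 777) .no .no .no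

def c11t779 : Tr4 :=
  .br 1344 (.hor [.f 1344 1 5] []) .no (.br 1224 .no .no (.use 778) .no .no .no) .no .no .no

def c11t780 : Tr4 :=
  .br 1105 (.br 1224 (.br 1232 (.br 1353 (.hor [.f 1345 1 3, .f 1217 3 1, .f 1217 1 5] [(169, 153,
  [1]), (185, 153, [1, 1])]) .no (.hor [.f 1224 1 3, .f 1352 3 5] [(170, 136, [3, 1, 3, 1])]) .no
  (.red [.t 1217 3 1, .f 1089 5 1, .t 1216 4 2] 152 136 [1] [(152, 136, [1]), (169, 153, [1])])
  .no) .no (.hor [.f 1104 3 1, .f 1104 1 5] [(155, 154, [3])]) .no .no .no) .no (.hor [.t 1232 4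
  2, .f 1097 3 5] [(154, 136, [3, 1, 3])]) .no .no .no) .no (.hor [.f 1104 3 5] []) .no .no .no

def c11t781 : Tr4 :=
  .br 1059 .no .no .no (.hor [.f 923 3 1, .f 931 1 3, .f 1058 3 5] [(132, 136, [1, 4, 2, 4, 4,
  4]), (133, 136, [1, 4, 2, 4, 4])]) .no .no

def c11t782 : Tr4 :=
  .br 1330 (.red [.f 1330 1 3, .t 1329 2 3] 167 136 [4, 1, 1] [(167, 136, [4, 1, 1]), (183, 136,
  [4, 1, 1, 1])]) .no .no (.br 1195 (.red [.t 1322 3 2, .f 1201 1 5, .f 1201 5 3, .t 1200 2 3] 151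
  136 [4, 1] [(151, 136, [4, 1]), (166, 167, [4])]) .no .no (.br 816 .no (.br 811 .no (.use 757)
  .no (.br 931 (.hor [.f 939 1 3, .f 939 3 1, .f 931 1 3, .f 1058 3 5] [(133, 136, [4, 4, 4])])
  .no .no (.use 781) .no (.red [.f 939 1 3, .f 939 3 1, .t 1066 4 2, .f 803 3 1] 117 136 [2, 4, 4,
  4] [(117, 136, [2, 4, 4, 4]), (133, 136, [4, 4, 4])])) .no (.red [.f 818 5 3, .f 818 3 5, .f 810
  5 3, .f 810 3 1] 118 136 [2, 4, 4] [(118, 136, [2, 4, 4])])) .no .no .no .no) .no (.red [.f 1194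
  5 3, .f 1194 3 1, .f 1201 1 5, .f 1201 5 3, .t 1200 2 3] 151 136 [4, 1] [(151, 136, [4, 1]),
  (166, 167, [4])])) (.red [.f 1202 5 1, .f 1201 1 5, .f 1201 5 3, .t 1200 2 3, .f 944 3 1] 135
  136 [4] [(135, 136, [4]), (151, 136, [4, 1])]) .no

def c11t783 : Tr4 :=
  .br 1065 (.br 1066 (.hor [.f 1065 1 5] []) .no .no (.br 809 .no (.use 756) .no (.red [.f 801 3
  1, .f 809 1 3] 118 136 [2, 4, 4] [(117, 136, [2, 4, 4, 4]), (118, 136, [2, 4, 4])]) (.red [.t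
  945 2 4] 118 136 [2, 4, 4] [(118, 136, [2, 4, 4])]) (.br 707 .no (.br 825 .no (.br 824 .no (.hor
  [.f 696 1 5] []) (.br 699 .no (.br 698 .no (.hor [.f 570 1 5] []) .no (.br 691 .no (.hor [.f 571
  1 3, .f 571 3 1, .f 563 1 3, .f 690 3 5] [(87, 120, [2, 4, 2])]) .no (.br 810 .no (.red [.t 682
  1 3] 102 136 [2, 4, 4, 2] [(102, 136, [2, 4, 4, 2])]) .no (.br 811 .no .no .no (.hor [.f 802 3
  5] []) .no .no) (.red [.f 818 5 3, .f 818 3 5, .f 810 5 3, .f 810 3 1] 118 136 [2, 4, 4] [(118,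
  136, [2, 4, 4])]) .no) .no .no) .no .no) .no (.br 698 .no (.br 811 .no (.use 758) .no (.br 696
  .no (.br 810 .no (.br 690 .no (.red [.f 562 1 3] 87 136 [2, 2, 2, 4] [(87, 136, [2, 2, 2, 4])])
  .no .no .no (.red [.f 818 5 3, .t 825 2 4, .f 682 1 3] 102 136 [2, 4, 4, 2] [(102, 136, [2, 4,
  4, 2]), (103, 136, [2, 2, 4])])) .no (.hor [.f 802 3 5] []) .no .no) (.hor [.f 696 3 1, .f 696 1
  5] [(104, 88, [1])]) (.con 136 [2, 4, 4, 2, 3, 3, 1]) .no .no) .no (.red [.f 818 5 3, .f 818 3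
  5, .f 810 5 3, .f 810 3 1] 118 136 [2, 4, 4] [(118, 136, [2, 4, 4])])) .no (.hor [.f 690 3 5]
  []) .no .no) .no (.red [.f 698 5 1, .f 697 1 5, .f 825 5 1, .f 825 1 3, .t 960 1 4] 136 136 []
  [(120, 136, [2]), (136, 136, [])])) (.use 764) .no .no) .no .no .no (.use 782)) (.hor [.f 707 3
  1, .f 706 1 5] [(105, 104, [3])]) (.br 824 .no (.red [.t 706 1 4, .t 833 1 4, .t 960 1 4] 136
  136 [] [(104, 136, [2, 2]), (120, 136, [2]), (136, 136, [])]) (.br 811 .no (.use 758) .no (.br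
  931 (.hor [.f 939 1 3, .f 939 3 1, .f 931 1 3, .f 1058 3 5] [(133, 136, [4, 4, 4])]) .no .no
  (.br 1330 (.red [.f 1330 1 3, .t 1329 2 3] 167 136 [4, 1, 1] [(167, 136, [4, 1, 1]), (183, 136,
  [4, 1, 1, 1])]) .no .no (.br 1195 (.red [.t 1322 3 2, .f 1201 1 5, .f 1201 5 3, .t 1200 2 3] 151
  136 [4, 1] [(151, 136, [4, 1]), (166, 167, [4])]) .no .no (.use 781) .no (.red [.f 1194 5 3, .f
  1194 3 1, .f 1201 1 5, .f 1201 5 3, .t 1200 2 3] 151 136 [4, 1] [(151, 136, [4, 1]), (166, 167,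
  [4])])) (.red [.f 1202 5 1, .f 1201 1 5, .f 1201 5 3, .t 1200 2 3, .f 944 3 1] 135 136 [4]
  [(135, 136, [4]), (151, 136, [4, 1])]) .no) .no (.red [.f 939 1 3, .f 939 3 1, .t 1066 4 2, .f
  803 3 1] 117 136 [2, 4, 4, 4] [(117, 136, [2, 4, 4, 4]), (133, 136, [4, 4, 4])])) .no (.red [.f
  818 5 3, .f 818 3 5, .f 810 5 3, .f 810 3 1] 118 136 [2, 4, 4] [(118, 136, [2, 4, 4])])) (.red
  [.t 706 1 4, .t 833 1 4, .t 960 1 4] 136 136 [] [(104, 136, [2, 2]), (120, 136, [2]), (136, 136,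
  [])]) (.use 782) .no) .no .no)) .no .no) .no .no (.br 809 .no (.use 756) .no (.red [.f 801 3 1,
  .f 809 1 3] 118 136 [2, 4, 4] [(117, 136, [2, 4, 4, 4]), (118, 136, [2, 4, 4])]) (.red [.t 945 2
  4] 118 136 [2, 4, 4] [(118, 136, [2, 4, 4])]) (.red [.f 929 3 1, .f 936 1 5, .f 808 5 1, .f 809
  1 3] 118 136 [2, 4, 4] [(118, 136, [2, 4, 4]), (133, 117, [1])])) (.br 1330 (.red [.f 1330 1 3,
  .t 1329 2 3] 167 136 [4, 1, 1] [(167, 136, [4, 1, 1]), (183, 136, [4, 1, 1, 1])]) .no .no (.br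
  1195 (.red [.t 1322 3 2, .f 1201 1 5, .f 1201 5 3, .t 1200 2 3] 151 136 [4, 1] [(151, 136, [4,
  1]), (166, 167, [4])]) .no .no (.br 1194 .no .no .no (.hor [.f 1186 3 5] []) .no (.br 1331 (.br
  1458 (.br 1457 (.hor [.f 1457 1 5] []) .no (.red [.t 1329 2 4, .t 1465 4 2, .t 1338 4 2] 167 136
  [4, 1, 1] [(166, 167, [4]), (167, 136, [4, 1, 1]), (183, 136, [4, 1, 1, 1])]) (.con 136 [4, 1,
  1, 1, 1, 4]) .no (.con 136 [4, 1, 1, 1, 4])) .no .no (.red [.f 1322 3 1, .f 1330 1 5] 182 136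
  [4, 4, 1, 1, 1] [(182, 136, [4, 4, 1, 1, 1])]) .no (.red [.t 1329 2 4, .f 1329 5 1, .f 1330 1 3]
  183 136 [4, 1, 1, 1] [(166, 167, [4]), (183, 136, [4, 1, 1, 1])])) .no .no (.hor [.f 1322 3 5]
  []) .no .no)) .no (.red [.f 1194 5 3, .f 1194 3 1, .f 1201 1 5, .f 1201 5 3, .t 1200 2 3] 151
  136 [4, 1] [(151, 136, [4, 1]), (166, 167, [4])])) (.red [.f 1202 5 1, .f 1201 1 5, .f 1201 5 3,
  .t 1200 2 3, .f 944 3 1] 135 136 [4] [(135, 136, [4]), (151, 136, [4, 1])]) .no) .no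

def c11t784 : Tr4 :=
  .br 1064 (.red [.f 1064 1 3, .t 937 1 3, .f 1064 3 5, .f 1072 5 3, .f 944 3 1] 135 136 [4]
  [(134, 118, [1]), (135, 136, [4]), (150, 151, [4])]) (.hor [.f 936 1 5] []) .no (.br 936 .no
  (.con 136 [4, 4, 2, 4]) .no (.red [.f 928 3 1, .f 936 1 5] 133 136 [4, 4, 4] [(133, 136, [4, 4,
  4])]) .no .no) .no .no

def c11t785 : Tr4 :=
  .br 808 .no (.hor [.f 680 1 5] []) (.br 810 .no (.hor [.f 681 1 5] []) .no (.con 136 [2, 4, 2,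
  4, 4]) .no .no) (.con 136 [1, 4, 2, 4, 2, 2, 4]) .no .no

def c11t786 : Tr4 :=
  .br 816 .no (.br 808 .no (.red [.f 680 1 3] 102 136 [2, 2, 4, 4] [(102, 136, [2, 2, 4, 4])]) .no
  (.br 809 .no (.con 136 [2, 2, 4, 4, 4]) .no (.use 769) (.con 136 [2, 2, 4, 4, 4]) .no) (.use
  757) .no) .no (.red [.t 816 4 1] 118 136 [2, 4, 4] [(118, 136, [2, 4, 4])]) .no .no

def c11l32 : List Tr4 :=
  [c11t770, c11t771, c11t772, c11t773, c11t774, c11t775, c11t776, c11t777, c11t778, c11t779,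
  c11t780, c11t781, c11t782, c11t783, c11t784, c11t785, c11t786]

theorem c11k32 : chkLF ⟨4, 1, 0, true, -8⟩ true 0 c11N 770 c11l32 = true := by decide +kernel

def c11t787 : Tr4 :=
  .br 825 .no (.br 824 .no (.hor [.f 696 1 5] []) (.br 699 .no (.br 698 .no (.hor [.f 570 1 5] [])
  .no (.br 811 .no (.br 691 .no (.hor [.f 571 1 3, .f 571 3 1, .f 563 1 3, .f 690 3 5] [(87, 120,
  [2, 4, 2])]) .no .no .no .no) .no (.red [.f 803 3 1, .t 938 3 2] 118 136 [2, 4, 4] [(117, 136,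
  [2, 4, 4, 4]), (118, 136, [2, 4, 4])]) .no (.red [.f 818 5 3, .f 818 3 5, .f 810 5 3, .f 810 3
  1] 118 136 [2, 4, 4] [(118, 136, [2, 4, 4])])) .no .no) .no (.br 811 .no (.br 937 (.use 784)
  (.red [.f 809 1 3] 118 136 [2, 4, 4] [(118, 136, [2, 4, 4])]) .no (.br 936 (.br 809 .no (.use
  785) .no (.red [.f 801 3 1, .f 809 1 3] 118 136 [2, 4, 4] [(117, 136, [2, 4, 4, 4]), (118, 136,
  [2, 4, 4])]) (.red [.t 945 2 4] 118 136 [2, 4, 4] [(118, 136, [2, 4, 4])]) (.use 758)) (.con 136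
  [2, 4, 4, 4]) .no (.hor [.f 928 3 5] []) .no .no) .no (.br 816 .no (.br 808 .no (.red [.f 680 1
  3] 102 136 [2, 2, 4, 4] [(102, 136, [2, 2, 4, 4])]) .no (.br 809 .no (.con 136 [2, 2, 4, 4, 4])
  .no (.use 763) (.con 136 [2, 2, 4, 4, 4]) .no) (.use 757) .no) .no (.red [.t 816 4 1] 118 136
  [2, 4, 4] [(118, 136, [2, 4, 4])]) .no .no)) .no (.red [.f 803 3 1, .t 938 3 2] 118 136 [2, 4,
  4] [(117, 136, [2, 4, 4, 4]), (118, 136, [2, 4, 4])]) .no (.red [.f 818 5 3, .f 818 3 5, .f 810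
  5 3, .f 810 3 1] 118 136 [2, 4, 4] [(118, 136, [2, 4, 4])])) .no (.red [.f 698 5 1, .f 697 1 5,
  .f 825 5 1, .f 825 1 3, .t 960 1 4] 136 136 [] [(120, 136, [2]), (136, 136, [])])) (.use 764)
  .no .no) .no .no .no (.br 699 .no (.br 698 .no (.hor [.f 570 1 5] []) .no (.br 697 .no (.red [.f
  571 1 3, .t 706 1 4, .t 833 1 4, .t 960 1 4] 136 136 [] [(88, 136, [2, 2, 2]), (104, 136, [2,
  2]), (120, 136, [2]), (136, 136, [])]) (.br 811 .no (.br 691 .no (.hor [.f 571 1 3, .f 571 3 1,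
  .f 563 1 3, .f 690 3 5] [(87, 104, [4, 2])]) .no .no .no .no) .no (.red [.f 803 3 1, .t 938 3 2]
  118 136 [2, 4, 4] [(117, 136, [2, 4, 4, 4]), (118, 136, [2, 4, 4])]) .no (.red [.f 818 5 3, .f
  818 3 5, .f 810 5 3, .f 810 3 1] 118 136 [2, 4, 4] [(118, 136, [2, 4, 4])])) (.red [.f 571 1 3,
  .t 706 1 4, .t 833 1 4, .t 960 1 4] 136 136 [] [(88, 136, [2, 2, 2]), (104, 136, [2, 2]), (120,
  136, [2]), (136, 136, [])]) .no (.red [.f 571 1 3, .t 706 1 4, .t 833 1 4, .t 960 1 4] 136 136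
  [] [(88, 136, [2, 2, 2]), (104, 136, [2, 2]), (120, 136, [2]), (136, 136, [])])) .no (.red [.f
  571 1 3, .t 706 1 4, .t 833 1 4, .t 960 1 4] 136 136 [] [(88, 136, [2, 2, 2]), (104, 136, [2,
  2]), (120, 136, [2]), (136, 136, [])])) .no (.br 811 .no (.br 937 (.use 784) (.red [.f 809 1 3]
  118 136 [2, 4, 4] [(118, 136, [2, 4, 4])]) .no (.br 936 (.br 809 .no (.use 785) .no (.red [.f
  801 3 1, .f 809 1 3] 118 136 [2, 4, 4] [(117, 136, [2, 4, 4, 4]), (118, 136, [2, 4, 4])]) (.red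
  [.t 945 2 4] 118 136 [2, 4, 4] [(118, 136, [2, 4, 4])]) (.br 816 .no (.use 757) .no .no .no
  .no)) (.con 136 [2, 4, 4, 4]) .no (.hor [.f 928 3 5] []) .no .no) .no (.use 786)) .no (.red [.f
  803 3 1, .t 938 3 2] 118 136 [2, 4, 4] [(117, 136, [2, 4, 4, 4]), (118, 136, [2, 4, 4])]) .no
  (.red [.f 818 5 3, .f 818 3 5, .f 810 5 3, .f 810 3 1] 118 136 [2, 4, 4] [(118, 136, [2, 4,
  4])])) .no (.red [.f 698 5 1, .f 698 1 3, .t 833 1 4, .t 960 1 4] 136 136 [] [(104, 136, [2,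
  2]), (120, 136, [2]), (136, 136, [])]))

def c11t788 : Tr4 :=
  .br 810 .no (.hor [.f 681 1 5] []) .no (.con 136 [1, 4, 2, 4, 2, 4, 2]) .no .no

def c11t789 : Tr4 :=
  .br 816 .no (.br 809 .no (.use 788) .no (.use 763) (.red [.t 945 2 4] 118 136 [2, 4, 4] [(118,
  136, [2, 4, 4])]) (.use 757)) .no (.red [.t 816 4 1] 118 136 [2, 4, 4] [(118, 136, [2, 4, 4])])
  .no .no

def c11t790 : Tr4 :=
  .br 939 (.br 937 (.br 1064 (.con 136 [4, 4, 4]) (.hor [.f 936 1 5] []) .no (.con 136 [4, 4, 4])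
  .no .no) (.red [.f 809 1 3] 118 136 [2, 4, 4] [(118, 136, [2, 4, 4])]) .no (.br 1202 (.hor [.f
  1201 1 5] []) .no .no (.br 1211 (.use 775) .no .no (.br 1107 (.red [.t 1106 4 1, .t 1225 4 2, .t
  1216 4 2] 152 136 [1] [(152, 136, [1]), (153, 136, [3, 1]), (154, 136, [3, 3, 1])]) (.hor [.f
  971 1 3, .f 1098 3 5] [(138, 137, [3])]) (.br 1104 (.use 383) (.br 1330 (.red [.f 1330 1 3, .t
  1329 2 3, .t 1200 2 3] 151 136 [4, 1] [(151, 136, [4, 1]), (167, 136, [4, 1, 1]), (183, 136, [4,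
  1, 1, 1])]) .no .no (.red [.f 1194 3 1, .f 1201 1 5, .f 1201 5 3, .t 1200 2 3] 151 136 [4, 1]
  [(151, 136, [4, 1]), (166, 150, [1])]) (.br 1347 (.use 776) .no (.hor [.t 1346 2 3, .f 1217 3 5]
  [(169, 153, [1])]) (.use 779) .no .no) .no) (.br 1330 (.red [.f 1330 1 3, .t 1329 2 3, .t 1200 2
  3] 151 136 [4, 1] [(151, 136, [4, 1]), (167, 136, [4, 1, 1]), (183, 136, [4, 1, 1, 1])]) .no .no
  (.red [.f 1194 3 1, .f 1201 1 5, .f 1201 5 3, .t 1200 2 3] 151 136 [4, 1] [(151, 136, [4, 1]),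
  (166, 150, [1])]) (.br 1347 (.use 776) .no (.hor [.t 1346 2 3, .f 1217 3 5] [(169, 153, [1])])
  (.use 780) .no .no) .no) .no (.red [.f 1096 5 3, .f 969 3 1, .t 969 1 4, .t 962 1 4, .t 1105 2
  4] 136 136 [] [(136, 136, []), (137, 136, [3])]) .no) .no .no .no) .no .no) (.br 936 (.br 1211
  (.use 783) .no .no .no .no .no) (.con 136 [2, 4, 4, 4]) .no (.hor [.f 928 3 5] []) .no .no) .no)
  .no (.use 765)) (.red [.f 818 5 3, .f 818 3 5, .t 938 3 2, .f 817 1 5] 118 136 [2, 4, 4] [(118,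
  136, [2, 4, 4])]) .no (.br 707 .no (.use 787) (.hor [.f 707 3 1, .f 706 1 5] [(105, 104, [3])])
  (.br 824 .no (.red [.t 706 1 4, .t 833 1 4, .t 960 1 4] 136 136 [] [(104, 136, [2, 2]), (120,
  136, [2]), (136, 136, [])]) (.br 697 (.br 811 .no (.br 937 (.use 784) (.red [.f 809 1 3] 118 136
  [2, 4, 4] [(118, 136, [2, 4, 4])]) .no (.br 809 .no (.use 788) .no (.red [.f 801 3 1, .f 809 1
  3] 118 136 [2, 4, 4] [(117, 136, [2, 4, 4, 4]), (118, 136, [2, 4, 4])]) (.red [.t 945 2 4] 118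
  136 [2, 4, 4] [(118, 136, [2, 4, 4])]) (.use 758)) .no (.use 789)) .no (.red [.f 803 3 1, .t 938
  3 2] 118 136 [2, 4, 4] [(117, 136, [2, 4, 4, 4]), (118, 136, [2, 4, 4])]) .no (.red [.f 818 5 3,
  .f 818 3 5, .f 810 5 3, .f 810 3 1] 118 136 [2, 4, 4] [(118, 136, [2, 4, 4])])) (.con 136 [2, 4,
  2, 3, 1]) (.con 136 [2, 4, 2, 3, 1]) (.con 136 [2, 4, 2, 3, 1]) (.con 136 [2, 4, 2, 3, 1]) (.con
  136 [2, 4, 2, 3, 1])) (.red [.t 706 1 4, .t 833 1 4, .t 960 1 4] 136 136 [] [(104, 136, [2, 2]),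
  (120, 136, [2]), (136, 136, [])]) (.red [.t 706 1 4, .t 833 1 4, .t 960 1 4] 136 136 [] [(104,
  136, [2, 2]), (120, 136, [2]), (136, 136, [])]) .no) .no .no) .no .no

def c11t791 : Tr4 :=
  .br 1107 (.red [.t 1234 4 2, .t 1225 4 2, .t 1216 4 2] 152 136 [1] [(152, 136, [1]), (153, 136,
  [3, 1]), (154, 136, [3, 3, 1])]) (.con 136 [3, 3, 2, 4, 1]) (.use 388) .no .no (.red [.f 1098 5
  3, .f 1098 3 1, .t 1225 4 2, .t 1216 4 2] 152 136 [1] [(152, 136, [1]), (153, 136, [3, 1]),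
  (154, 136, [3, 3, 1])])

def c11t792 : Tr4 :=
  .br 1226 (.hor [.f 1218 1 3, .f 1217 3 5] [(169, 153, [1])]) .no (.use 791) .no (.use 728) .no

def c11t793 : Tr4 :=
  .br 1355 (.hor [.f 1347 1 3, .t 1346 2 3, .f 1217 3 5] [(169, 153, [1]), (185, 153, [1, 1])])
  .no (.br 1235 .no .no (.br 1105 (.br 1224 (.br 1234 (.hor [.t 1362 2 4, .f 1098 3 1, .f 1105 1
  5] [(154, 136, [3, 3, 1]), (170, 136, [3, 3, 1, 1])]) .no (.hor [.f 1234 3 5] []) .no .no .no)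
  .no (.hor [.t 1232 4 2, .f 1097 3 5] [(154, 136, [3, 3, 1])]) .no .no .no) .no (.red [.f 1107 3
  1, .t 1106 4 1, .t 1225 4 2, .t 1216 4 2] 152 136 [1] [(152, 136, [1]), (153, 136, [3, 1]),
  (154, 136, [3, 3, 1]), (155, 136, [3, 3, 3, 1])]) .no .no .no) .no .no (.red [.f 1226 5 3, .f
  1098 3 1, .t 1225 4 2, .t 1216 4 2] 152 136 [1] [(152, 136, [1]), (153, 136, [3, 1]), (154, 136,
  [3, 3, 1])])) .no .no (.red [.f 1226 5 1, .f 1218 1 3, .f 1217 3 5, .f 1089 5 1, .t 1216 4 2]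
  152 136 [1] [(152, 136, [1]), (169, 153, [1])])

def c11t794 : Tr4 :=
  .br 1235 (.br 1354 (.br 1355 (.hor [.f 1347 1 3, .t 1346 2 3, .f 1217 3 5] [(169, 153, [1]),
  (185, 153, [1, 1])]) .no .no .no .no .no) .no (.hor [.t 1362 4 2, .f 1218 1 3, .f 1217 3 5]
  [(169, 153, [1]), (170, 154, [1])]) .no (.red [.f 1226 5 1, .f 1218 1 3, .f 1217 3 5, .f 1089 5
  1, .t 1216 4 2] 152 136 [1] [(152, 136, [1]), (169, 153, [1])]) (.red [.t 1217 3 1, .f 1089 5 1,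
  .t 1216 4 2] 152 136 [1] [(152, 136, [1]), (169, 153, [1])])) .no (.red [.f 1107 3 1, .t 1106 4
  1, .t 1225 4 2, .t 1216 4 2] 152 136 [1] [(152, 136, [1]), (153, 136, [3, 1]), (154, 136, [3, 3,
  1]), (155, 136, [3, 3, 1, 3])]) .no .no (.red [.f 1226 5 3, .f 1098 3 1, .t 1225 4 2, .t 1216 4
  2] 152 136 [1] [(152, 136, [1]), (153, 136, [3, 1]), (154, 136, [3, 3, 1])])

def c11t795 : Tr4 :=
  .br 1104 (.use 383) (.br 1224 (.hor [.t 1224 1 4, .f 1217 1 5] [(169, 153, [1])]) .no (.br 1105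
  (.hor [.t 1232 4 2, .f 1097 3 5] [(154, 136, [3, 3, 1])]) .no (.use 794) .no .no .no) .no .no
  .no) (.br 1224 (.hor [.t 1224 1 4, .f 1217 1 5] [(169, 153, [1])]) .no (.br 1105 (.hor [.t 1232
  4 2, .f 1097 3 5] [(154, 136, [3, 3, 1])]) .no (.use 794) .no .no .no) .no .no .no) .no (.red
  [.f 1096 5 3, .f 969 3 1, .t 969 1 4, .t 962 1 4, .t 1105 2 4] 136 136 [] [(136, 136, []), (137,
  136, [3])]) .no

def c11t796 : Tr4 :=
  .br 1347 (.use 795) .no (.hor [.t 1346 2 3, .f 1217 3 5] [(169, 153, [1])]) .no .no .no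

def c11t797 : Tr4 :=
  .br 1107 (.red [.t 1106 4 1, .t 1225 4 2, .t 1216 4 2] 152 136 [1] [(152, 136, [1]), (153, 136,
  [3, 1]), (154, 136, [3, 3, 1])]) (.hor [.f 971 1 3, .f 1098 3 5] [(138, 137, [3])]) (.br 1345
  (.br 1347 (.br 1104 (.use 383) (.use 793) (.br 1105 (.br 1224 (.br 1344 (.hor [.f 1344 1 5] [])
  .no .no (.br 1337 (.red [.f 1337 1 3, .f 1336 3 5] 184 136 [1, 1, 1] [(184, 136, [1, 1, 1])])
  .no .no .no .no .no) .no .no) .no (.hor [.t 1232 4 2, .f 1097 3 5] [(154, 136, [3, 3, 1])]) .no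
  .no .no) .no (.hor [.f 1104 3 5] []) .no .no .no) .no (.red [.f 1096 5 3, .f 969 3 1, .t 969 1
  4, .t 962 1 4, .t 1105 2 4] 136 136 [] [(136, 136, []), (137, 136, [3])]) .no) .no (.hor [.t
  1346 2 3, .f 1217 3 5] [(169, 153, [1])]) .no .no .no) .no (.hor [.f 1217 3 1, .f 1217 1 5]
  [(169, 153, [1])]) (.red [.t 1345 4 2, .t 1218 4 2] 152 136 [1] [(152, 136, [1]), (168, 136, [1,
  1])]) .no (.use 796)) .no .no .no

def c11t798 : Tr4 :=
  .br 1208 (.use 300) .no (.use 792) .no .no .no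

def c11t799 : Tr4 :=
  .br 1344 (.con 136 [1, 1, 3, 1]) .no (.hor [.f 1344 3 5] []) .no .no .no

def c11t800 : Tr4 :=
  .br 1338 (.br 1217 (.hor [.f 1217 1 5] []) .no (.br 1098 (.use 737) .no (.br 1099 (.con 136 [3,
  3, 1]) (.br 1337 (.hor [.f 1337 1 5] []) .no (.red [.t 1345 4 2, .t 1218 4 2] 152 136 [1] [(152,
  136, [1]), (168, 136, [1, 1])]) .no .no (.br 1216 (.use 774) .no (.hor [.f 1216 3 5] []) (.br
  1226 (.hor [.f 1218 1 3, .f 1217 3 5] [(169, 153, [1])]) .no (.hor [.f 1098 3 1, .t 1225 4 2, .f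
  962 3 1, .f 970 1 5] [(137, 136, [3]), (153, 136, [3, 1]), (154, 136, [3, 3, 1])]) .no (.br 1345
  (.br 818 .no (.br 937 (.br 1064 (.red [.f 1064 1 3, .t 937 1 3, .f 1064 3 5, .f 1072 5 3, .f 944
  3 1] 135 136 [4] [(134, 118, [1]), (135, 136, [4]), (150, 151, [4])]) (.hor [.f 936 1 5] []) .no
  (.br 936 .no (.br 816 .no (.use 759) (.br 697 (.use 761) (.con 136 [2, 4, 2, 3]) (.con 136 [2,
  4, 2, 3]) (.con 136 [2, 4, 2, 3]) (.con 136 [2, 4, 2, 3]) (.con 136 [2, 4, 2, 3])) .no .no .no)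
  .no (.red [.f 928 3 1, .f 936 1 5] 133 136 [4, 4, 4] [(133, 136, [4, 4, 4])]) .no .no) .no .no)
  (.red [.f 809 1 3] 118 136 [2, 4, 4] [(118, 136, [2, 4, 4])]) .no (.use 755) .no (.use 762)) .no
  (.red [.f 810 3 1, .f 817 1 5] 118 136 [2, 4, 4] [(118, 136, [2, 4, 4])]) (.use 790) .no) .no
  (.hor [.f 1217 3 1, .f 1217 1 5] [(169, 153, [1])]) .no .no (.red [.f 1336 5 3, .t 1345 4 2, .t
  1218 4 2] 152 136 [1] [(152, 136, [1]), (168, 136, [1, 1])])) .no) .no .no)) (.hor [.f 1098 3 5]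
  []) .no .no .no) .no (.br 1337 (.hor [.f 1337 1 5] []) .no (.red [.t 1345 4 2, .t 1218 4 2] 152
  136 [1] [(152, 136, [1]), (168, 136, [1, 1])]) .no .no (.br 1216 (.use 774) .no (.hor [.f 1216 3
  5] []) (.use 792) .no .no)) .no) .no .no (.use 705)) .no .no (.red [.t 1329 2 3, .t 1200 2 3]
  151 136 [4, 1] [(151, 136, [4, 1]), (167, 136, [4, 1, 1])]) (.br 1217 (.hor [.f 1217 1 5] [])
  .no (.br 1098 (.use 737) .no (.br 1099 (.con 136 [3, 3, 1]) (.br 1208 (.use 300) .no (.br 1226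
  (.hor [.f 1218 1 3, .f 1217 3 5] [(169, 153, [1])]) .no (.hor [.f 1098 3 1, .t 1225 4 2, .f 962
  3 1, .f 970 1 5] [(137, 136, [3]), (153, 136, [3, 1]), (154, 136, [3, 3, 1])]) .no (.use 797)
  .no) .no .no .no) (.hor [.f 1098 3 5] []) .no .no .no) .no (.use 798) .no) .no .no (.br 1337
  (.br 1345 (.red [.f 1337 1 3] 184 136 [1, 1, 1] [(184, 136, [1, 1, 1])]) .no (.br 1208 (.use
  799) .no .no .no .no .no) .no .no (.use 709)) .no (.red [.t 1345 4 2, .f 1201 1 3] 168 136 [1,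
  1] [(167, 136, [4, 1, 1]), (168, 136, [1, 1])]) .no .no (.use 704))) (.red [.f 1209 5 1, .f 1210
  1 3, .t 1218 4 2] 152 136 [1] [(152, 136, [1]), (168, 136, [1, 1])])

def c11t801 : Tr4 :=
  .br 1203 (.hor [.f 1202 1 5] []) .no .no (.con 136 [1, 4, 1, 4]) .no .no

def c11t802 : Tr4 :=
  .br 1336 (.hor [.f 1336 1 5] []) .no (.hor [.f 1337 1 3, .f 1336 3 5] [(184, 136, [1, 1, 1])])
  (.br 1338 (.hor [.f 1337 1 5] []) .no .no .no (.br 1329 (.hor [.f 1329 1 3, .f 1328 3 5] [(183,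
  151, [1, 1])]) .no .no (.red [.f 1193 3 1, .f 1201 1 5] 166 136 [1, 4, 1, 4] [(166, 136, [1, 4,
  1, 4])]) .no .no) .no) .no .no

def c11t803 : Tr4 :=
  .br 1347 (.use 793) .no (.hor [.t 1346 2 3, .f 1217 3 5] [(169, 153, [1])]) (.use 779) .no .no

def c11t804 : Tr4 :=
  .br 1347 (.br 1105 (.br 1224 (.br 1232 (.br 1353 (.hor [.f 1345 1 3, .f 1217 3 1, .f 1217 1 5]
  [(169, 153, [1]), (185, 153, [1, 1])]) .no (.hor [.f 1224 1 3, .f 1352 3 5] [(170, 136, [3, 1,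
  3, 1])]) .no (.red [.t 1217 3 1, .f 1089 5 1, .t 1216 4 2] 152 136 [1] [(152, 136, [1]), (169,
  153, [1])]) .no) .no (.hor [.f 1104 3 1, .f 1104 1 5] [(155, 154, [3])]) .no .no .no) .no (.hor
  [.t 1232 4 2, .f 1097 3 5] [(154, 136, [3, 1, 3])]) .no .no .no) .no (.hor [.f 1104 3 5] []) .no
  .no .no) .no (.hor [.t 1346 2 3, .f 1217 3 5] [(169, 153, [1])]) (.use 780) .no .no

def c11t805 : Tr4 :=
  .br 1211 (.use 801) .no .no (.br 1337 (.use 802) .no .no (.red [.t 1329 3 2, .f 1202 3 5, .f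
  1082 5 1, .f 1083 1 3] 152 136 [1] [(152, 136, [1]), (167, 151, [1])]) (.red [.f 1209 5 1, .f
  1210 1 3, .t 1218 4 2] 152 136 [1] [(152, 136, [1]), (168, 136, [1, 1])]) (.br 1104 (.use 383)
  (.use 803) (.use 804) .no (.red [.f 1096 5 3, .f 969 3 1, .t 969 1 4, .t 962 1 4, .t 1105 2 4]
  136 136 [] [(136, 136, []), (137, 136, [3])]) .no)) .no .no

def c11t806 : Tr4 :=
  .br 1337 (.hor [.f 1337 1 5] []) .no .no (.use 490) .no (.use 803)

def c11t807 : Tr4 :=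
  .br 1338 (.use 806) .no .no (.red [.t 1338 4 2] 167 136 [4, 1, 1] [(167, 136, [4, 1, 1])]) .no
  (.red [.f 1209 5 1, .f 1210 1 3, .t 1218 4 2] 152 136 [1] [(152, 136, [1]), (168, 136, [1, 1])])

def c11t808 : Tr4 :=
  .br 1211 (.use 807) .no .no .no .no .no

def c11t809 : Tr4 :=
  .br 1211 (.red [.t 1338 4 2] 167 136 [1, 4, 1] [(167, 136, [1, 4, 1])]) .no .no .no .no .no

def c11t810 : Tr4 :=
  .br 1107 (.red [.t 1106 4 1, .t 1225 4 2, .t 1216 4 2] 152 136 [1] [(152, 136, [1]), (153, 136,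
  [3, 1]), (154, 136, [3, 3, 1])]) (.hor [.f 971 1 3, .f 1098 3 5] [(138, 137, [3])]) (.br 1338
  (.hor [.f 1337 1 5] []) .no .no (.br 1202 .no .no .no (.hor [.f 1193 3 5] []) (.use 809) .no)
  (.use 796) .no) .no .no .no

def c11t811 : Tr4 :=
  .br 1338 (.use 490) .no .no (.use 809) .no .no

def c11t812 : Tr4 :=
  .br 1211 (.use 811) .no .no .no .no .no

def c11t813 : Tr4 :=
  .br 1202 (.br 1211 (.use 801) .no .no (.red [.t 1329 3 2, .f 1202 3 5, .f 1082 5 1, .f 1083 1 3]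
  152 136 [1] [(152, 136, [1]), (167, 151, [1])]) .no .no) .no .no (.hor [.f 1193 3 5] []) (.use
  812) .no

def c11t814 : Tr4 :=
  .br 1337 (.use 810) .no .no (.use 813) (.red [.f 1209 5 1, .f 1210 1 3, .t 1218 4 2] 152 136 [1]
  [(152, 136, [1]), (168, 136, [1, 1])]) (.red [.f 1336 5 3, .t 1345 4 2, .t 1218 4 2] 152 136 [1]
  [(152, 136, [1]), (168, 136, [1, 1])])

def c11l33 : List Tr4 :=
  [c11t787, c11t788, c11t789, c11t790, c11t791, c11t792, c11t793, c11t794, c11t795, c11t796,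
  c11t797, c11t798, c11t799, c11t800, c11t801, c11t802, c11t803, c11t804, c11t805, c11t806,
  c11t807, c11t808, c11t809, c11t810, c11t811, c11t812, c11t813, c11t814]

theorem c11k33 : chkLF ⟨4, 1, 0, true, -8⟩ true 0 c11N 787 c11l33 = true := by decide +kernel

def c11t815 : Tr4 :=
  .br 1345 (.br 1202 (.br 1107 (.red [.t 1106 4 1, .t 1225 4 2, .t 1216 4 2] 152 136 [1] [(152,
  136, [1]), (153, 136, [3, 1]), (154, 136, [3, 3, 1])]) (.hor [.f 971 1 3, .f 1098 3 5] [(138,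
  137, [3])]) (.use 805) .no .no .no) .no .no (.hor [.f 1193 3 5] []) (.br 1107 (.red [.t 1106 4
  1, .t 1225 4 2, .t 1216 4 2] 152 136 [1] [(152, 136, [1]), (153, 136, [3, 1]), (154, 136, [3, 3,
  1])]) (.hor [.f 971 1 3, .f 1098 3 5] [(138, 137, [3])]) (.br 1104 (.use 383) (.use 808) (.use
  804) .no (.red [.f 1096 5 3, .f 969 3 1, .t 969 1 4, .t 962 1 4, .t 1105 2 4] 136 136 [] [(136,
  136, []), (137, 136, [3])]) .no) .no .no .no) .no) .no (.hor [.f 1217 3 1, .f 1217 1 5] [(169,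
  153, [1])]) (.red [.t 1345 4 2, .t 1218 4 2] 152 136 [1] [(152, 136, [1]), (168, 136, [1, 1])])
  .no (.use 814)

def c11t816 : Tr4 :=
  .br 1345 (.red [.f 1337 1 3, .t 1336 2 3] 168 136 [1, 1] [(168, 136, [1, 1]), (184, 136, [1, 1,
  1])]) .no (.use 799) .no .no (.use 709)

def c11t817 : Tr4 :=
  .br 1208 (.use 300) .no .no (.br 1345 (.br 1211 (.con 136 [4, 1, 1]) .no .no (.br 1202 (.br 1337
  (.br 1336 (.hor [.f 1336 1 5] []) .no .no (.red [.f 1200 3 1, .f 1208 1 3] 168 136 [1, 1] [(167,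
  136, [4, 1, 1]), (168, 136, [1, 1])]) .no .no) .no .no (.con 136 [4, 1, 1, 4]) (.red [.f 1209 5
  1, .f 1210 1 3, .t 1218 4 2] 152 136 [1] [(152, 136, [1]), (168, 136, [1, 1])]) (.use 452)) .no
  .no (.br 1201 (.br 1337 (.br 1338 (.hor [.f 1337 1 5] []) .no .no (.red [.t 1329 2 3, .f 1200 3
  5] 167 136 [4, 1, 1] [(167, 136, [4, 1, 1])]) (.red [.f 1337 1 3] 184 136 [1, 1, 1] [(184, 136,
  [1, 1, 1])]) .no) .no .no .no (.red [.f 1209 5 1, .f 1201 1 3] 167 136 [4, 1, 1] [(167, 136, [4,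
  1, 1])]) (.red [.t 1200 3 1, .f 1208 1 3] 168 136 [1, 1] [(167, 136, [4, 1, 1]), (168, 136, [1,
  1])])) .no .no (.hor [.f 1193 3 5] []) .no .no) .no (.hor [.f 1201 5 3, .f 1200 3 5, .f 1202 3
  5] [])) .no .no) .no (.hor [.f 1217 3 1, .f 1216 1 5] [(169, 153, [1])]) (.red [.t 1345 4 2, .t
  1218 4 2] 152 136 [1] [(152, 136, [1]), (168, 136, [1, 1])]) .no .no) .no .no

def c11t818 : Tr4 :=
  .br 1107 (.red [.t 1106 4 1, .t 1225 4 2, .t 1216 4 2] 152 136 [1] [(152, 136, [1]), (153, 136,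
  [3, 1]), (154, 136, [3, 3, 1])]) (.hor [.f 971 1 3, .f 1098 3 5] [(138, 137, [3])]) (.use 383)
  .no .no .no

def c11t819 : Tr4 :=
  .br 1067 (.hor [.f 1066 1 5] []) .no .no (.con 136 [1, 4, 4, 4]) .no .no

def c11t820 : Tr4 :=
  .br 1202 .no .no .no (.use 775) (.use 807) (.red [.f 1201 5 3, .f 1202 3 1, .f 1210 1 3] 167 136
  [4, 1, 1] [(167, 136, [4, 1, 1]), (168, 136, [1, 1])])

def c11t821 : Tr4 :=
  .br 1202 (.br 936 .no (.con 136 [2, 4, 4, 4]) .no (.hor [.f 928 3 5] []) .no .no) .no .no (.br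
  811 .no (.br 936 .no (.con 136 [2, 4, 4, 4]) .no (.hor [.f 928 3 5] []) .no .no) .no (.red [.f
  803 3 1, .t 938 3 2] 118 136 [2, 4, 4] [(117, 136, [2, 4, 4, 4]), (118, 136, [2, 4, 4])]) .no
  (.red [.f 818 5 3, .f 818 3 5, .f 810 5 3, .f 810 3 1] 118 136 [2, 4, 4] [(118, 136, [2, 4,
  4])])) .no (.red [.f 1073 5 1, .t 1202 2 3, .f 1083 1 3] 152 136 [1] [(151, 136, [4, 1]), (152,
  136, [1])])

def c11t822 : Tr4 :=
  .br 1202 .no .no .no (.use 775) (.use 809) (.red [.f 1201 5 3, .f 1202 3 1, .f 1210 1 3] 167 136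
  [1, 4, 1] [(167, 136, [1, 4, 1]), (168, 136, [1, 1])])

def c11t823 : Tr4 :=
  .br 1338 (.hor [.f 1337 1 5] []) .no .no (.use 822) .no .no

def c11t824 : Tr4 :=
  .br 1203 (.red [.f 1203 1 3] 167 136 [4, 1, 1] [(167, 136, [4, 1, 1])]) .no .no (.br 1202 (.con
  136 [4, 1, 1, 4]) .no .no (.use 775) .no (.br 1200 (.con 136 [4, 4, 1, 1]) .no .no (.red [.f
  1073 5 1, .f 1064 3 1] 150 136 [4, 4, 1] [(150, 136, [4, 4, 1])]) .no .no)) .no (.use 811)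

def c11t825 : Tr4 :=
  .br 1337 (.use 823) .no .no (.use 824) (.red [.f 1209 5 1, .f 1210 1 3, .t 1218 4 2] 152 136 [1]
  [(152, 136, [1]), (168, 136, [1, 1])]) (.red [.f 1336 5 3, .t 1345 4 2, .t 1218 4 2] 152 136 [1]
  [(152, 136, [1]), (168, 136, [1, 1])])

def c11t826 : Tr4 :=
  .br 936 .no (.con 136 [4, 4, 2, 4]) .no (.hor [.f 928 3 5] []) .no .no

def c11t827 : Tr4 :=
  .br 936 .no (.con 136 [1, 4, 4, 2, 2, 4]) .no (.hor [.f 928 3 5] []) .no .no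

def c11t828 : Tr4 :=
  .br 1065 (.use 718) .no .no (.br 939 (.br 1066 (.con 136 [4, 4, 4, 1]) .no .no (.hor [.f 1057 3
  5] []) .no .no) (.red [.f 818 5 3, .f 818 3 5, .t 938 3 2, .f 817 1 5] 118 136 [2, 4, 4] [(118,
  136, [2, 4, 4])]) .no (.br 1345 (.br 1104 (.use 818) (.br 1066 (.use 819) .no .no (.hor [.f 1057
  3 5] []) (.br 1107 (.red [.t 1106 4 1, .t 1225 4 2, .t 1216 4 2] 152 136 [1] [(152, 136, [1]),
  (153, 136, [3, 1]), (154, 136, [3, 3, 1])]) (.hor [.f 971 1 3, .f 1098 3 5] [(138, 137, [3])])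
  (.br 1337 (.br 1211 (.br 1338 (.use 806) .no .no (.use 820) .no .no) .no .no (.use 821) .no .no)
  .no .no (.br 1211 (.br 1338 (.use 490) .no .no (.use 820) .no .no) .no .no (.use 821) .no .no)
  (.red [.f 1209 5 1, .f 1210 1 3, .t 1218 4 2] 152 136 [1] [(152, 136, [1]), (168, 136, [1, 1])])
  (.use 803)) .no .no .no) .no) (.use 804) .no (.red [.f 1096 5 3, .f 969 3 1, .t 969 1 4, .t 962
  1 4, .t 1105 2 4] 136 136 [] [(136, 136, []), (137, 136, [3])]) .no) .no (.hor [.f 1217 3 1, .f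
  1217 1 5] [(169, 153, [1])]) (.red [.t 1345 4 2, .t 1218 4 2] 152 136 [1] [(152, 136, [1]),
  (168, 136, [1, 1])]) .no (.br 1066 (.use 819) .no .no (.hor [.f 1057 3 5] []) (.br 1211 (.use
  825) .no .no (.use 821) .no .no) .no)) .no .no) (.br 939 (.use 826) (.red [.f 818 5 3, .f 818 3
  5, .t 938 3 2, .f 817 1 5] 118 136 [2, 4, 4] [(118, 136, [2, 4, 4])]) .no (.br 1345 (.br 1104
  (.use 818) (.br 1107 (.red [.t 1106 4 1, .t 1225 4 2, .t 1216 4 2] 152 136 [1] [(152, 136, [1]),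
  (153, 136, [3, 1]), (154, 136, [3, 3, 1])]) (.hor [.f 971 1 3, .f 1098 3 5] [(138, 137, [3])])
  (.br 1202 (.br 1201 (.hor [.f 1201 1 5] []) .no .no (.use 805) .no (.br 1203 (.hor [.f 1202 1 5]
  []) .no (.use 827) (.con 136 [4, 4, 1, 1]) .no .no)) .no .no (.red [.f 1065 5 3, .f 1066 3 1]
  150 136 [4, 4, 1] [(150, 136, [4, 4, 1])]) (.use 808) (.br 1211 (.br 1338 (.use 806) .no .no
  (.use 820) .no (.red [.f 1209 5 1, .f 1210 1 3, .t 1218 4 2] 152 136 [1] [(152, 136, [1]), (168,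
  136, [1, 1])])) .no .no (.red [.f 1073 5 1, .t 1202 2 3, .f 1083 1 3] 152 136 [1] [(151, 136,
  [4, 1]), (152, 136, [1])]) .no .no)) .no .no .no) (.use 804) .no (.red [.f 1096 5 3, .f 969 3 1,
  .t 969 1 4, .t 962 1 4, .t 1105 2 4] 136 136 [] [(136, 136, []), (137, 136, [3])]) .no) .no
  (.hor [.f 1217 3 1, .f 1217 1 5] [(169, 153, [1])]) (.red [.t 1345 4 2, .t 1218 4 2] 152 136 [1]
  [(152, 136, [1]), (168, 136, [1, 1])]) .no (.br 1211 (.use 825) .no .no (.br 1202 (.br 1201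
  (.hor [.f 1201 1 5] []) .no .no (.use 814) .no (.use 827)) .no .no (.red [.f 1065 5 3, .f 1066 3
  1] 150 136 [4, 4, 1] [(150, 136, [4, 4, 1])]) .no (.red [.f 1073 5 1, .t 1202 2 3, .f 1083 1 3]
  152 136 [1] [(151, 136, [4, 1]), (152, 136, [1])])) .no .no)) .no .no) .no

def c11t829 : Tr4 :=
  .br 968 .no (.use 791) (.hor [.f 968 3 5] []) .no .no .no

def c11t830 : Tr4 :=
  .br 1226 (.hor [.f 1218 1 3, .f 1217 3 5] [(169, 153, [1])]) .no (.br 835 .no (.hor [.f 706 1 5]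
  []) (.use 829) .no .no .no) .no (.red [.f 1098 5 1, .t 1225 4 2, .t 1216 4 2] 152 136 [1] [(152,
  136, [1]), (153, 136, [3, 1])]) .no

def c11t831 : Tr4 :=
  .br 1338 (.con 136 [1, 4, 1, 1]) .no .no (.use 822) .no .no

def c11t832 : Tr4 :=
  .br 1336 (.hor [.f 1336 1 5] []) .no (.br 1345 (.red [.f 1337 1 3, .f 1336 3 5] 184 136 [1, 1,
  1] [(184, 136, [1, 1, 1])]) .no (.con 136 [1, 3, 1, 1]) .no .no .no) (.red [.f 1200 3 1] 167 136
  [1, 4, 1] [(167, 136, [1, 4, 1])]) .no .no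

def c11t833 : Tr4 :=
  .br 1211 (.con 136 [4, 1, 1]) .no .no (.br 1202 (.br 1337 (.use 832) .no (.red [.t 1345 4 2, .t
  1218 4 2] 152 136 [1] [(152, 136, [1]), (168, 136, [1, 1])]) (.con 136 [4, 1, 1, 4]) (.red [.f
  1209 5 1, .f 1210 1 3, .t 1218 4 2] 152 136 [1] [(152, 136, [1]), (168, 136, [1, 1])]) (.use
  452)) .no .no (.br 1201 (.br 1337 (.use 832) .no (.red [.t 1345 4 2, .f 1201 1 3] 168 136 [1, 1]
  [(167, 136, [4, 1, 1]), (168, 136, [1, 1])]) .no (.red [.f 1209 5 1, .f 1201 1 3] 167 136 [4, 1,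
  1] [(167, 136, [4, 1, 1])]) (.red [.t 1200 3 1] 167 136 [4, 1, 1] [(167, 136, [4, 1, 1])])) .no
  .no (.hor [.f 1193 3 5] []) .no .no) .no (.hor [.f 1201 5 3, .f 1200 3 5, .f 1202 3 5] [])) .no
  .no

def c11t834 : Tr4 :=
  .br 937 (.red [.t 937 1 3, .f 1064 3 5, .f 1072 5 3, .f 944 3 1] 135 136 [4] [(134, 118, [1]),
  (135, 136, [4])]) (.red [.f 809 1 3] 118 136 [2, 4, 4] [(118, 136, [2, 4, 4])]) .no (.br 818 .no
  (.use 755) .no (.red [.f 810 3 1, .f 817 1 5] 118 136 [2, 4, 4] [(118, 136, [2, 4, 4])]) (.br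
  1217 (.hor [.f 1217 1 5] []) .no (.br 1216 (.use 817) .no (.hor [.f 1216 3 5] []) (.br 1098
  (.red [.t 1225 4 2, .t 1216 4 2] 152 136 [1] [(152, 136, [1]), (153, 136, [3, 1])]) .no (.br
  1099 (.con 136 [3, 3, 1]) (.br 1226 (.hor [.f 1218 1 3, .f 1217 3 5] [(169, 153, [1])]) .no
  (.hor [.f 1098 3 1, .t 1225 4 2, .f 962 3 1, .f 970 1 5] [(137, 136, [3]), (153, 136, [3, 1]),
  (154, 136, [3, 3, 1])]) .no (.use 828) .no) (.hor [.f 1098 3 5] []) .no .no .no) .no (.use 830)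
  .no) .no .no) .no .no (.br 939 (.use 826) (.red [.f 818 5 3, .f 818 3 5, .t 938 3 2, .f 817 1 5]
  118 136 [2, 4, 4] [(118, 136, [2, 4, 4])]) .no (.br 1208 (.br 1345 (.br 1337 (.red [.f 1337 1 3,
  .t 1336 2 3] 168 136 [1, 1] [(168, 136, [1, 1]), (184, 136, [1, 1, 1])]) .no .no (.br 1065 (.use
  718) .no .no (.br 1066 (.use 819) .no .no (.hor [.f 1057 3 5] []) (.br 1211 (.use 831) .no .no
  (.use 821) .no .no) .no) (.br 1211 (.use 831) .no .no (.br 1202 (.red [.t 1329 3 2, .f 1202 3 5,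
  .f 1082 5 1, .f 1083 1 3] 152 136 [1] [(152, 136, [1]), (167, 151, [1])]) .no .no (.red [.f 1065
  5 3, .f 1066 3 1] 150 136 [4, 4, 1] [(150, 136, [4, 4, 1])]) .no (.red [.f 1073 5 1, .t 1202 2
  3, .f 1083 1 3] 152 136 [1] [(151, 136, [4, 1]), (152, 136, [1])])) .no .no) .no) (.red [.f 1209
  5 1, .f 1210 1 3, .t 1218 4 2] 152 136 [1] [(152, 136, [1]), (168, 136, [1, 1])]) .no) .no (.use
  799) (.red [.t 1345 4 2, .t 1218 4 2] 152 136 [1] [(152, 136, [1]), (168, 136, [1, 1])]) .no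
  (.red [.f 1216 5 1, .f 1208 1 3] 168 136 [1, 1] [(168, 136, [1, 1])])) .no .no (.use 833) .no
  .no) .no .no)) .no) .no (.br 835 .no (.hor [.f 706 1 5] []) (.br 818 .no (.use 762) .no (.red
  [.f 810 3 1, .f 817 1 5] 118 136 [2, 4, 4] [(118, 136, [2, 4, 4])]) (.br 939 (.use 765) (.red
  [.f 818 5 3, .f 818 3 5, .t 938 3 2, .f 817 1 5] 118 136 [2, 4, 4] [(118, 136, [2, 4, 4])]) .no
  (.br 811 .no (.br 825 .no (.br 824 .no (.hor [.f 696 1 5] []) (.use 789) (.use 764) .no .no) .no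
  .no .no (.use 786)) .no (.red [.f 803 3 1, .t 938 3 2] 118 136 [2, 4, 4] [(117, 136, [2, 4, 4,
  4]), (118, 136, [2, 4, 4])]) .no (.red [.f 818 5 3, .f 818 3 5, .f 810 5 3, .f 810 3 1] 118 136
  [2, 4, 4] [(118, 136, [2, 4, 4])])) .no .no) .no) .no .no .no)

def c11t835 : Tr4 :=
  .br 1345 (.br 1104 (.use 818) (.br 1107 (.red [.t 1106 4 1, .t 1225 4 2, .t 1216 4 2] 152 136
  [1] [(152, 136, [1]), (153, 136, [3, 1]), (154, 136, [3, 3, 1])]) (.hor [.f 971 1 3, .f 1098 3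
  5] [(138, 137, [3])]) (.use 803) .no .no .no) (.use 804) .no (.red [.f 1096 5 3, .f 969 3 1, .t
  969 1 4, .t 962 1 4, .t 1105 2 4] 136 136 [] [(136, 136, []), (137, 136, [3])]) .no) .no (.hor
  [.f 1217 3 1, .f 1217 1 5] [(169, 153, [1])]) .no .no (.red [.f 1336 5 3, .t 1345 4 2, .t 1218 4
  2] 152 136 [1] [(152, 136, [1]), (168, 136, [1, 1])])

def c11t836 : Tr4 :=
  .br 1338 (.br 1337 (.hor [.f 1337 1 5] []) .no (.red [.t 1345 4 2, .t 1218 4 2] 152 136 [1]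
  [(152, 136, [1]), (168, 136, [1, 1])]) .no .no (.use 835)) .no .no (.red [.t 1329 2 3, .t 1200 2
  3] 151 136 [4, 1] [(151, 136, [4, 1]), (167, 136, [4, 1, 1])]) (.use 797) (.red [.f 1209 5 1, .f
  1210 1 3, .t 1218 4 2] 152 136 [1] [(152, 136, [1]), (168, 136, [1, 1])])

def c11t837 : Tr4 :=
  .br 1203 (.hor [.f 1202 1 5] []) .no .no (.con 136 [1, 4, 1, 4]) .no .no

def c11t838 : Tr4 :=
  .br 1075 (.con 136 [4, 4, 1]) .no .no (.br 1065 (.use 718) (.br 938 (.hor [.f 937 1 5] []) (.con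
  136 [4, 4, 4]) .no (.con 136 [4, 4, 4]) (.con 136 [4, 4, 4]) .no) .no (.br 1066 (.con 136 [4, 4,
  4, 1]) (.red [.t 1066 2 3] 134 136 [4, 4] [(134, 136, [4, 4])]) .no (.hor [.f 1057 3 5] []) .no
  .no) (.hor [.f 1065 5 3, .f 1064 3 5, .f 1066 3 5] []) .no) .no .no

def c11t839 : Tr4 :=
  .br 1099 (.con 136 [3, 3, 1]) (.br 1226 (.hor [.f 1218 1 3, .f 1217 3 5] [(169, 153, [1])]) .no
  (.hor [.f 1098 3 1, .t 1225 4 2, .f 962 3 1, .f 970 1 5] [(137, 136, [3]), (153, 136, [3, 1]),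
  (154, 136, [3, 3, 1])]) .no (.br 1072 (.br 1201 (.use 836) .no .no (.br 1075 (.use 693) .no .no
  (.br 1337 (.br 1345 (.br 1104 (.use 818) (.br 1107 (.red [.t 1106 4 1, .t 1225 4 2, .t 1216 4 2]
  152 136 [1] [(152, 136, [1]), (153, 136, [3, 1]), (154, 136, [3, 3, 1])]) (.hor [.f 971 1 3, .f
  1098 3 5] [(138, 137, [3])]) (.br 1202 (.br 1211 (.use 837) .no .no (.use 802) .no .no) .no .no
  (.hor [.f 1193 3 5] []) (.use 808) .no) .no .no .no) (.use 804) .no (.red [.f 1096 5 3, .f 969 3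
  1, .t 969 1 4, .t 962 1 4, .t 1105 2 4] 136 136 [] [(136, 136, []), (137, 136, [3])]) .no) .no
  (.hor [.f 1217 3 1, .f 1217 1 5] [(169, 153, [1])]) .no .no (.use 810)) .no (.red [.t 1345 4 2,
  .t 1218 4 2] 152 136 [1] [(152, 136, [1]), (168, 136, [1, 1])]) (.br 1202 (.br 1211 (.use 837)
  .no .no (.red [.t 1329 3 2, .f 1202 3 5, .f 1082 5 1, .f 1083 1 3] 152 136 [1] [(152, 136, [1]),
  (167, 151, [1])]) .no .no) .no .no (.hor [.f 1193 3 5] []) (.use 812) .no) (.red [.f 1209 5 1,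
  .f 1210 1 3, .t 1218 4 2] 152 136 [1] [(152, 136, [1]), (168, 136, [1, 1])]) (.use 835)) .no
  .no) (.red [.f 1201 5 3, .t 1200 2 3, .f 944 3 1] 135 136 [4] [(135, 136, [4]), (151, 136, [4,
  1])]) .no) .no .no (.use 838) .no .no) .no) (.hor [.f 1098 3 5] []) .no .no .no

def c11t840 : Tr4 :=
  .br 1337 (.use 816) .no .no (.use 703) (.red [.f 1209 5 1, .f 1210 1 3, .t 1218 4 2] 152 136 [1]
  [(152, 136, [1]), (168, 136, [1, 1])]) .no

def c11t841 : Tr4 :=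
  .br 1208 (.br 1345 (.br 1072 (.use 840) .no .no (.use 838) .no .no) .no (.use 799) (.red [.t
  1345 4 2, .t 1218 4 2] 152 136 [1] [(152, 136, [1]), (168, 136, [1, 1])]) .no (.red [.f 1216 5
  1, .f 1208 1 3] 168 136 [1, 1] [(168, 136, [1, 1])])) .no .no (.use 833) .no .no

def c11t842 : Tr4 :=
  .br 1217 (.hor [.f 1217 1 5] []) .no (.br 1216 (.use 817) .no (.hor [.f 1216 3 5] []) (.br 1098
  (.red [.t 1225 4 2, .t 1216 4 2] 152 136 [1] [(152, 136, [1]), (153, 136, [3, 1])]) .no (.use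
  839) .no (.use 830) .no) .no .no) .no .no (.use 841)

def c11l34 : List Tr4 :=
  [c11t815, c11t816, c11t817, c11t818, c11t819, c11t820, c11t821, c11t822, c11t823, c11t824,
  c11t825, c11t826, c11t827, c11t828, c11t829, c11t830, c11t831, c11t832, c11t833, c11t834,
  c11t835, c11t836, c11t837, c11t838, c11t839, c11t840, c11t841, c11t842]

theorem c11k34 : chkLF ⟨4, 1, 0, true, -8⟩ true 0 c11N 815 c11l34 = true := by decide +kernel

end Pool.Agent.FT4D
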