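import Pool.Agent.FT4D.Tab_c11

/-!
# Four levels: decision trees (found by a computer search)
-/

namespace Pool.Agent.FT4D

def c11t843 : Tr4 :=
  .br 826 .no (.br 946 .no (.hor [.f 817 1 5] []) .no (.use 752) (.br 834 .no (.br 835 .no (.hor
  [.f 706 1 5] []) (.br 825 .no (.hor [.f 697 1 5] []) .no .no .no (.br 827 .no (.hor [.f 698 1 5]
  []) .no (.use 773) .no .no)) (.hor [.f 698 1 3, .f 826 3 5] [(104, 136, [2, 2])]) .no .no) (.hor
  [.f 834 3 1, .f 833 1 5] [(121, 120, [3])]) .no (.br 825 .no (.hor [.f 697 1 5] []) .no .no .no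
  (.br 827 .no (.hor [.f 698 1 5] []) .no (.use 773) .no .no)) .no) .no) (.red [.t 833 1 4, .t 960
  1 4] 136 136 [] [(120, 136, [2]), (136, 136, [])]) (.red [.t 817 1 3, .f 944 3 5, .f 952 5 1, .f
  952 1 3] 136 136 [] [(119, 118, [3]), (136, 136, [])]) (.br 834 .no (.br 946 .no (.hor [.f 817 1
  5] []) .no (.br 947 (.br 1072 (.br 1201 (.br 835 .no (.hor [.f 706 1 5] []) (.br 968 .no (.use
  800) (.hor [.f 968 3 5] []) .no .no .no) .no .no .no) .no .no (.br 835 .no (.hor [.f 706 1 5]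
  []) (.br 968 .no (.br 1217 (.hor [.f 1217 1 5] []) .no (.br 1098 (.use 737) .no (.br 1099 (.con
  136 [3, 3, 1]) (.br 1208 (.use 300) .no (.br 1226 (.hor [.f 1218 1 3, .f 1217 3 5] [(169, 153,
  [1])]) .no (.hor [.f 1098 3 1, .t 1225 4 2, .f 962 3 1, .f 970 1 5] [(137, 136, [3]), (153, 136,
  [3, 1]), (154, 136, [3, 3, 1])]) .no (.use 815) .no) .no .no .no) (.hor [.f 1098 3 5] []) .no
  .no .no) .no (.use 798) .no) .no .no (.br 1208 (.br 1337 (.use 816) .no (.red [.t 1345 4 2, .t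
  1218 4 2] 152 136 [1] [(152, 136, [1]), (168, 136, [1, 1])]) (.use 702) (.red [.f 1209 5 1, .f
  1210 1 3, .t 1218 4 2] 152 136 [1] [(152, 136, [1]), (168, 136, [1, 1])]) .no) .no .no .no .no
  .no)) (.hor [.f 968 3 5] []) .no .no .no) .no .no .no) (.red [.f 1201 5 3, .t 1200 2 3, .f 944 3
  1] 135 136 [4] [(135, 136, [4]), (151, 136, [4, 1])]) .no) .no .no (.use 834) .no .no) (.con 136
  [2, 4, 4]) .no (.hor [.f 938 3 5] []) .no .no) (.use 842) .no) (.hor [.f 834 3 1, .f 833 1 5]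
  [(121, 120, [3])]) .no (.red [.f 826 5 3, .t 833 1 4, .t 960 1 4] 136 136 [] [(120, 136, [2]),
  (136, 136, [])]) .no) (.red [.f 825 5 1, .f 825 1 3, .t 960 1 4] 136 136 [] [(120, 136, [2]),
  (136, 136, [])])

def c11t844 : Tr4 :=
  .br 1347 (.use 793) .no (.hor [.t 1346 2 3, .f 1217 3 5] [(169, 153, [1])]) .no .no .no

def c11t845 : Tr4 :=
  .br 1345 (.br 1104 (.use 383) (.use 844) (.use 804) .no (.red [.f 1096 5 3, .f 969 3 1, .t 969 1
  4, .t 962 1 4, .t 1105 2 4] 136 136 [] [(136, 136, []), (137, 136, [3])]) .no) .no (.hor [.f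
  1217 3 1, .f 1217 1 5] [(169, 153, [1])]) .no .no (.use 796)

def c11t846 : Tr4 :=
  .br 1200 (.hor [.f 1200 1 5] []) .no .no (.red [.f 1064 3 1] 150 136 [1, 4, 4] [(150, 136, [1,
  4, 4])]) .no .no

def c11t847 : Tr4 :=
  .br 1202 (.red [.t 1329 3 2, .f 1202 3 5, .f 1082 5 1, .f 1083 1 3] 152 136 [1] [(152, 136,
  [1]), (167, 166, [3])]) .no .no .no .no (.red [.f 1073 5 1, .t 1202 2 3, .f 1083 1 3] 152 136
  [1] [(151, 136, [4, 1]), (152, 136, [1])])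

def c11t848 : Tr4 :=
  .br 1337 (.red [.f 1337 1 3, .t 1336 2 3] 168 136 [1, 1] [(168, 136, [1, 1]), (184, 136, [1, 1,
  1])]) .no .no (.br 1211 (.use 831) .no .no (.use 847) .no .no) (.red [.f 1209 5 1, .f 1210 1 3,
  .t 1218 4 2] 152 136 [1] [(152, 136, [1]), (168, 136, [1, 1])]) .no

def c11t849 : Tr4 :=
  .br 1337 (.br 1211 (.use 823) .no .no (.br 1201 (.br 1072 (.use 836) .no .no (.use 846) .no .no)
  .no .no (.use 815) (.red [.f 1073 5 1, .t 1202 2 3, .f 1083 1 3] 152 136 [1] [(151, 136, [4,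
  1]), (152, 136, [1])]) (.br 1107 (.red [.t 1106 4 1, .t 1225 4 2, .t 1216 4 2] 152 136 [1]
  [(152, 136, [1]), (153, 136, [3, 1]), (154, 136, [3, 3, 1])]) (.hor [.f 971 1 3, .f 1098 3 5]
  [(138, 137, [3])]) (.br 1338 (.hor [.f 1337 1 5] []) .no .no (.con 136 [4, 1, 4, 1, 3, 2]) (.use
  845) .no) .no .no .no)) .no .no) .no (.red [.t 1345 4 2, .t 1218 4 2] 152 136 [1] [(152, 136,
  [1]), (168, 136, [1, 1])]) (.br 1072 (.br 1201 .no .no .no (.use 813) (.red [.f 1201 5 3, .t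
  1200 2 3, .f 944 3 1] 135 136 [4] [(135, 136, [4]), (151, 136, [4, 1])]) .no) .no .no (.br 1211
  (.use 824) .no .no (.use 847) .no .no) .no .no) (.red [.f 1209 5 1, .f 1210 1 3, .t 1218 4 2]
  152 136 [1] [(152, 136, [1]), (168, 136, [1, 1])]) (.use 835)

def c11t850 : Tr4 :=
  .br 1201 (.use 836) .no .no (.use 815) (.red [.f 1201 5 3, .t 1200 2 3, .f 944 3 1] 135 136 [4]
  [(135, 136, [4]), (151, 136, [4, 1])]) .no

def c11t851 : Tr4 :=
  .br 1072 (.use 850) .no .no (.use 719) .no .no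

def c11t852 : Tr4 :=
  .br 1099 (.con 136 [3, 3, 1]) (.br 1226 (.hor [.f 1218 1 3, .f 1217 3 5] [(169, 153, [1])]) .no
  (.hor [.f 1098 3 1, .t 1225 4 2, .f 962 3 1, .f 970 1 5] [(137, 136, [3]), (153, 136, [3, 1]),
  (154, 136, [3, 3, 1])]) .no (.br 1066 (.use 849) .no .no (.use 851) (.red [.f 938 5 1, .t 937 3
  1, .t 944 3 1] 135 136 [4] [(134, 136, [4, 4]), (135, 136, [4])]) (.red [.f 1065 5 3, .f 937 3
  1, .t 944 3 1] 135 136 [4] [(134, 136, [4, 4]), (135, 136, [4])])) .no) (.hor [.f 1098 3 5] [])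
  .no .no .no

def c11t853 : Tr4 :=
  .br 1072 (.use 840) .no .no (.use 719) .no .no

def c11t854 : Tr4 :=
  .br 1208 (.br 1345 (.br 1066 (.use 848) .no .no (.use 853) (.red [.f 938 5 1, .t 937 3 1, .t 944
  3 1] 135 136 [4] [(134, 136, [4, 4]), (135, 136, [4])]) (.red [.f 1065 5 3, .f 937 3 1, .t 944 3
  1] 135 136 [4] [(134, 136, [4, 4]), (135, 136, [4])])) .no (.use 799) (.red [.t 1345 4 2, .t
  1218 4 2] 152 136 [1] [(152, 136, [1]), (168, 136, [1, 1])]) .no (.red [.f 1216 5 1, .f 1208 1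
  3] 168 136 [1, 1] [(168, 136, [1, 1])])) .no .no (.use 833) .no .no

def c11t855 : Tr4 :=
  .br 1217 (.hor [.f 1217 1 5] []) .no (.br 1216 (.use 817) .no (.hor [.f 1216 3 5] []) (.br 1098
  (.red [.t 1225 4 2, .t 1216 4 2] 152 136 [1] [(152, 136, [1]), (153, 136, [3, 1])]) .no (.use
  852) .no (.use 830) .no) .no .no) .no .no (.use 854)

def c11t856 : Tr4 :=
  .br 1347 (.use 795) .no (.hor [.t 1346 2 3, .f 1217 3 5] [(169, 153, [1])]) (.br 1224 (.hor [.t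
  1224 1 4, .f 1217 1 5] [(169, 153, [1])]) .no (.br 1105 (.hor [.t 1232 4 2, .f 1097 3 5] [(154,
  136, [3, 3, 1])]) .no (.use 777) .no .no (.red [.f 1096 5 3, .f 969 3 1, .t 969 1 4, .t 962 1 4,
  .t 1105 2 4] 136 136 [] [(136, 136, []), (137, 136, [3])])) .no .no .no) .no .no

def c11t857 : Tr4 :=
  .br 1337 (.br 1211 (.use 823) .no .no (.br 1202 (.br 1338 (.hor [.f 1337 1 5] []) .no .no .no
  (.use 845) .no) .no .no (.br 1065 (.use 718) .no .no (.br 1201 (.use 846) .no .no (.use 815) .no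
  (.br 1338 (.hor [.f 1337 1 5] []) .no .no (.br 1193 (.br 1345 (.br 1336 (.hor [.f 1336 1 5] [])
  .no (.hor [.f 1337 1 3, .f 1336 3 5] [(184, 136, [1, 1, 1])]) (.br 1329 (.hor [.f 1329 1 3, .f
  1328 3 5] [(183, 151, [1, 1])]) .no .no .no .no .no) .no .no) .no (.hor [.f 1217 3 1, .f 1217 1
  5] [(169, 153, [1])]) .no .no (.use 856)) .no .no (.red [.f 1057 3 1, .t 1193 2 3, .f 1064 3 5]
  150 136 [4, 4, 1] [(149, 136, [4, 4, 4, 1]), (150, 136, [4, 4, 1])]) .no (.red [.f 1192 5 3, .f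
  1064 3 1] 150 136 [4, 4, 1] [(150, 136, [4, 4, 1])])) (.use 845) .no)) .no .no) .no (.red [.f
  1073 5 1, .t 1202 2 3, .f 1083 1 3] 152 136 [1] [(151, 136, [4, 1]), (152, 136, [1])])) .no .no)
  .no (.red [.t 1345 4 2, .t 1218 4 2] 152 136 [1] [(152, 136, [1]), (168, 136, [1, 1])]) (.br
  1211 (.use 824) .no .no (.br 1202 (.red [.t 1329 3 2, .f 1202 3 5, .f 1082 5 1, .f 1083 1 3] 152
  136 [1] [(152, 136, [1]), (167, 151, [1])]) .no .no (.br 1345 (.br 1104 (.use 383) (.br 1338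
  (.br 1347 (.use 793) .no (.hor [.t 1346 2 3, .f 1217 3 5] [(169, 153, [1])]) (.br 1224 (.br 1344
  (.hor [.f 1344 1 5] []) .no .no (.br 1465 (.br 1464 (.hor [.f 1464 1 5] []) .no (.hor [.f 1336 3
  1, .f 1344 1 5] [(184, 136, [1, 1, 1])]) (.br 1330 (.red [.f 1330 1 3, .f 1329 3 5] 183 136 [4,
  1, 1, 1] [(183, 136, [4, 1, 1, 1])]) .no .no (.br 1331 (.con 136 [4, 1, 1, 1, 4]) .no .no (.hor
  [.f 1322 3 5] []) .no .no) (.br 1467 (.con 136 [4, 1, 1, 1, 1]) .no (.con 136 [4, 1, 1, 1, 1])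
  (.red [.t 1466 2 4, .f 1329 3 5] 183 136 [4, 1, 1, 1] [(183, 136, [4, 1, 1, 1])]) .no .no) .no)
  .no .no) .no .no (.red [.f 1329 3 1, .f 1337 1 5] 183 136 [4, 1, 1, 1] [(183, 136, [4, 1, 1,
  1])]) .no (.hor [.t 1344 4 1, .t 1224 1 4, .f 1217 1 5] [(169, 153, [1]), (184, 136, [1, 1,
  1])])) .no .no) .no (.use 778) .no .no .no) .no .no) .no .no (.hor [.f 1329 3 5] []) (.use 844)
  .no) (.use 804) .no (.red [.f 1096 5 3, .f 969 3 1, .t 969 1 4, .t 962 1 4, .t 1105 2 4] 136 136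
  [] [(136, 136, []), (137, 136, [3])]) .no) .no (.hor [.f 1217 3 1, .f 1217 1 5] [(169, 153,
  [1])]) .no .no (.use 856)) .no (.red [.f 1073 5 1, .t 1202 2 3, .f 1083 1 3] 152 136 [1] [(151,
  136, [4, 1]), (152, 136, [1])])) .no .no) (.red [.f 1209 5 1, .f 1210 1 3, .t 1218 4 2] 152 136
  [1] [(152, 136, [1]), (168, 136, [1, 1])]) (.use 835)

def c11t858 : Tr4 :=
  .br 1099 (.con 136 [3, 3, 1]) (.br 1226 (.hor [.f 1218 1 3, .f 1217 3 5] [(169, 153, [1])]) .no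
  (.hor [.f 1098 3 1, .t 1225 4 2, .f 962 3 1, .f 970 1 5] [(137, 136, [3]), (153, 136, [3, 1]),
  (154, 136, [3, 3, 1])]) .no (.br 1066 (.use 849) .no .no (.use 851) (.br 1072 (.use 850) .no .no
  (.br 1107 (.red [.t 1106 4 1, .t 1225 4 2, .t 1216 4 2] 152 136 [1] [(152, 136, [1]), (153, 136,
  [3, 1]), (154, 136, [3, 3, 1])]) (.hor [.f 971 1 3, .f 1098 3 5] [(138, 137, [3])]) (.use 857)
  .no .no .no) .no .no) (.red [.f 1065 5 3, .f 937 3 1, .t 944 3 1] 135 136 [4] [(134, 136, [4,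
  4]), (135, 136, [4])])) .no) (.hor [.f 1098 3 5] []) .no .no .no

def c11t859 : Tr4 :=
  .br 1208 (.br 1345 (.br 1066 (.use 848) .no .no (.use 853) (.br 1337 (.red [.f 1337 1 3, .t 1336
  2 3] 168 136 [1, 1] [(168, 136, [1, 1]), (184, 136, [1, 1, 1])]) .no .no (.br 1072 (.use 703)
  .no .no (.br 1211 (.use 831) .no .no (.br 1202 (.red [.t 1329 3 2, .f 1202 3 5, .f 1082 5 1, .f
  1083 1 3] 152 136 [1] [(152, 136, [1]), (167, 151, [1])]) .no .no (.br 1065 (.use 718) .no .no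
  (.br 1201 .no .no .no (.hor [.f 1193 3 5] []) .no (.br 1193 (.red [.t 1336 2 4, .f 1193 1 3, .f
  1193 3 5, .f 1073 5 1, .t 1202 2 3] 151 136 [4, 1] [(151, 136, [4, 1]), (166, 150, [1]), (167,
  151, [1])]) .no .no (.red [.f 1057 3 1, .t 1193 2 3, .f 1064 3 5] 150 136 [4, 4, 1] [(149, 136,
  [4, 4, 4, 1]), (150, 136, [4, 4, 1])]) .no (.red [.f 1192 5 3, .f 1064 3 1] 150 136 [4, 4, 1]
  [(150, 136, [4, 4, 1])]))) .no .no) .no (.red [.f 1073 5 1, .t 1202 2 3, .f 1083 1 3] 152 136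
  [1] [(151, 136, [4, 1]), (152, 136, [1])])) .no .no) .no .no) (.red [.f 1209 5 1, .f 1210 1 3,
  .t 1218 4 2] 152 136 [1] [(152, 136, [1]), (168, 136, [1, 1])]) .no) (.red [.f 1065 5 3, .f 937
  3 1, .t 944 3 1] 135 136 [4] [(134, 136, [4, 4]), (135, 136, [4])])) .no (.use 799) (.red [.t
  1345 4 2, .t 1218 4 2] 152 136 [1] [(152, 136, [1]), (168, 136, [1, 1])]) .no (.red [.f 1216 5
  1, .f 1208 1 3] 168 136 [1, 1] [(168, 136, [1, 1])])) .no .no (.use 833) .no .no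

def c11t860 : Tr4 :=
  .br 1217 (.hor [.f 1217 1 5] []) .no (.br 1216 (.use 817) .no (.hor [.f 1216 3 5] []) (.br 1098
  (.red [.t 1225 4 2, .t 1216 4 2] 152 136 [1] [(152, 136, [1]), (153, 136, [3, 1])]) .no (.use
  858) .no (.use 830) .no) .no .no) .no .no (.use 859)

def c11t861 : Tr4 :=
  .br 1217 (.hor [.f 1217 1 5] []) .no (.br 1216 (.use 817) .no (.hor [.f 1216 3 5] []) (.br 1098
  (.red [.t 1225 4 2, .t 1216 4 2] 152 136 [1] [(152, 136, [1]), (153, 136, [3, 1])]) .no (.use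
  839) .no (.br 1226 (.hor [.f 1218 1 3, .f 1217 3 5] [(169, 153, [1])]) .no (.use 829) .no (.red
  [.f 1098 5 1, .t 1225 4 2, .t 1216 4 2] 152 136 [1] [(152, 136, [1]), (153, 136, [3, 1])]) .no)
  .no) .no .no) .no .no (.use 841)

def c11t862 : Tr4 :=
  .br 946 .no (.br 826 .no (.br 825 .no (.hor [.f 697 1 5] []) .no (.use 742) .no (.br 835 .no
  (.hor [.f 706 1 5] []) (.br 947 (.br 817 .no (.br 697 .no (.br 968 .no (.br 827 .no (.hor [.f
  698 1 5] []) .no (.br 699 .no (.br 842 .no (.hor [.f 706 1 3, .f 834 3 1, .f 833 1 5] [(105,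
  104, [3]), (121, 120, [3])]) (.br 705 .no (.hor [.f 569 1 3, .f 698 1 3, .f 697 3 5] [(88, 136,
  [2, 2, 2]), (104, 136, [2, 2])]) (.br 841 .no .no (.hor [.f 841 3 1, .f 840 1 5] [(122, 121,
  [3])]) .no .no .no) .no .no (.con 136 [2, 2, 3, 1, 4])) .no .no (.red [.t 961 2 3, .f 961 5 1,
  .t 962 1 4, .t 842 1 4] 136 136 [] [(136, 136, [])])) (.hor [.f 698 1 3, .f 698 3 5] [(104, 136,
  [2, 2])]) (.hor [.f 691 3 1, .f 698 1 5] [(103, 104, [4])]) .no .no) .no .no) (.hor [.f 968 3 5]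
  []) .no .no .no) (.hor [.f 698 1 3, .f 697 3 5] [(104, 136, [2, 2])]) .no .no (.red [.f 696 5 1,
  .f 697 1 5, .f 825 5 1, .f 825 1 3, .t 960 1 4] 136 136 [] [(120, 136, [2]), (136, 136, [])]))
  .no (.hor [.f 809 3 1, .f 817 1 5] [(118, 120, [4, 4])]) .no (.red [.f 816 5 3, .t 817 3 1, .t
  946 3 1] 135 136 [4] [(119, 136, [2, 4]), (135, 136, [4])])) (.use 734) .no (.use 741) .no .no)
  (.con 136 [2, 2]) .no .no)) .no .no (.br 947 (.br 825 .no (.br 824 .no (.hor [.f 696 1 5] [])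
  (.br 938 (.red [.t 937 3 1, .t 944 3 1] 135 136 [4] [(134, 136, [4, 4]), (135, 136, [4])]) (.hor
  [.f 810 1 3, .f 937 3 5] [(118, 120, [4, 4])]) .no (.use 860) (.use 855) .no) (.br 817 .no (.red
  [.f 689 1 3] 103 136 [2, 2, 4] [(103, 136, [2, 2, 4])]) .no (.hor [.f 816 3 1, .f 809 3 1, .f
  816 1 3, .f 817 1 5] [(118, 103, [1, 4])]) .no .no) .no .no) .no (.red [.t 817 3 1, .t 946 3 1]
  135 136 [4] [(119, 136, [2, 4]), (135, 136, [4])]) .no (.br 938 (.red [.t 937 3 1, .t 944 3 1]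
  135 136 [4] [(134, 136, [4, 4]), (135, 136, [4])]) (.hor [.f 810 1 3, .f 937 3 5] [(118, 120,
  [4, 4])]) .no (.use 860) (.use 855) .no)) (.hor [.f 818 1 5] []) .no (.use 741) .no .no) (.red
  [.f 825 5 1, .f 825 1 3, .t 960 1 4] 136 136 [] [(120, 136, [2]), (136, 136, [])])) .no (.hor
  [.f 937 3 5] []) (.br 826 .no (.br 835 .no (.hor [.f 706 1 5] []) (.use 861) (.hor [.f 698 1 3,
  .f 826 3 5] [(104, 136, [2, 2])]) .no .no) .no (.br 835 .no (.hor [.f 706 1 5] []) (.use 861)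
  (.use 749) .no .no) (.use 842) (.red [.f 825 5 1, .f 825 1 3, .t 960 1 4] 136 136 [] [(120, 136,
  [2]), (136, 136, [])])) .no

def c11t863 : Tr4 :=
  .br 1226 (.hor [.f 1218 1 3, .f 1217 3 5] [(169, 153, [1])]) .no (.br 1107 (.red [.t 1234 4 2,
  .t 1225 4 2, .t 1216 4 2] 152 136 [1] [(152, 136, [1]), (153, 136, [3, 1]), (154, 136, [3, 3,
  1])]) .no (.br 968 .no (.br 976 (.red [.t 976 1 4, .t 969 1 4, .t 962 1 4] 136 136 [] [(136,
  136, []), (137, 136, [3]), (138, 136, [3, 3])]) (.hor [.f 840 1 3, .f 968 3 5] [(122, 138,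
  [2])]) (.use 387) .no .no .no) (.hor [.f 968 3 5] []) .no .no .no) .no .no (.red [.f 1098 5 3,
  .f 1098 3 1, .t 1225 4 2, .t 1216 4 2] 152 136 [1] [(152, 136, [1]), (153, 136, [3, 1]), (154,
  136, [3, 3, 1])])) .no (.red [.f 1098 5 1, .t 1225 4 2, .t 1216 4 2] 152 136 [1] [(152, 136,
  [1]), (153, 136, [3, 1])]) .no

def c11t864 : Tr4 :=
  .br 971 .no (.use 656) (.use 863) .no .no .no

def c11l35 : List Tr4 :=
  [c11t843, c11t844, c11t845, c11t846, c11t847, c11t848, c11t849, c11t850, c11t851, c11t852,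
  c11t853, c11t854, c11t855, c11t856, c11t857, c11t858, c11t859, c11t860, c11t861, c11t862,
  c11t863, c11t864]

theorem c11k35 : chkLF ⟨4, 1, 0, true, -8⟩ true 0 c11N 843 c11l35 = true := by decide +kernel

def c11t865 : Tr4 :=
  .br 834 .no (.use 862) (.hor [.f 834 3 1, .f 833 1 5] [(121, 120, [3])]) (.red [.t 833 1 4, .t
  960 1 4] 136 136 [] [(120, 136, [2]), (136, 136, [])]) (.br 826 .no (.br 946 .no (.br 947 (.br
  825 .no (.hor [.f 697 1 5] []) .no (.red [.t 817 3 1, .t 946 3 1] 135 136 [4] [(119, 136, [2,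
  4]), (135, 136, [4])]) .no (.br 938 (.red [.t 937 3 1, .t 944 3 1] 135 136 [4] [(134, 136, [4,
  4]), (135, 136, [4])]) (.hor [.f 810 1 3, .f 937 3 5] [(118, 120, [4, 4])]) .no (.br 1217 (.hor
  [.f 1217 1 5] []) .no (.br 1216 (.use 817) .no (.hor [.f 1216 3 5] []) (.br 1098 (.red [.t 1225
  4 2, .t 1216 4 2] 152 136 [1] [(152, 136, [1]), (153, 136, [3, 1])]) .no (.use 858) .no (.use
  864) .no) .no .no) .no .no (.use 859)) (.br 1217 (.hor [.f 1217 1 5] []) .no (.br 1216 (.use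
  817) .no (.hor [.f 1216 3 5] []) (.br 1098 (.red [.t 1225 4 2, .t 1216 4 2] 152 136 [1] [(152,
  136, [1]), (153, 136, [3, 1])]) .no (.use 852) .no (.use 864) .no) .no .no) .no .no (.use 854))
  .no)) (.hor [.f 818 1 5] []) .no (.use 741) .no .no) .no (.hor [.f 937 3 5] []) (.br 1217 (.hor
  [.f 1217 1 5] []) .no (.br 1216 (.use 817) .no (.hor [.f 1216 3 5] []) (.br 1098 (.red [.t 1225
  4 2, .t 1216 4 2] 152 136 [1] [(152, 136, [1]), (153, 136, [3, 1])]) .no (.use 839) .no (.use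
  864) .no) .no .no) .no .no (.use 841)) .no) .no (.br 946 .no .no .no (.hor [.f 937 3 5] []) (.br
  1217 (.hor [.f 1217 1 5] []) .no (.br 1216 (.use 817) .no (.hor [.f 1216 3 5] []) (.br 1098
  (.red [.t 1225 4 2, .t 1216 4 2] 152 136 [1] [(152, 136, [1]), (153, 136, [3, 1])]) .no (.use
  839) .no (.br 971 .no (.hor [.t 970 4 2, .f 833 1 5] [(121, 120, [3])]) (.use 863) .no .no .no)
  .no) .no .no) .no .no (.use 726)) .no) (.red [.f 826 5 3, .t 833 1 4, .t 960 1 4] 136 136 []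
  [(120, 136, [2]), (136, 136, [])]) (.red [.f 825 5 1, .f 825 1 3, .t 960 1 4] 136 136 [] [(120,
  136, [2]), (136, 136, [])])) .no

def c11t866 : Tr4 :=
  .br 1097 (.use 158) (.red [.t 969 1 4, .t 962 1 4] 136 136 [] [(136, 136, []), (137, 136, [3])])
  (.br 969 .no (.hor [.f 833 1 3, .f 961 3 5] [(121, 120, [3])]) (.br 1096 (.br 834 .no (.use 688)
  (.hor [.f 834 3 1, .f 833 1 5] [(121, 120, [3])]) (.red [.t 833 1 4, .t 960 1 4] 136 136 []
  [(120, 136, [2]), (136, 136, [])]) (.use 727) .no) (.hor [.f 960 1 3, .f 960 3 1, .f 969 3 1, .f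
  968 1 5] [(138, 136, [3, 3])]) (.hor [.f 1096 3 5] []) .no .no .no) .no .no (.use 751)) .no
  (.red [.f 1089 5 3, .f 962 3 1, .t 962 1 4] 136 136 [] [(136, 136, []), (137, 136, [3])]) (.br
  969 .no (.hor [.f 833 1 3, .f 961 3 5] [(121, 120, [3])]) (.br 1073 (.use 721) (.red [.t 944 3
  1, .f 952 1 3] 136 136 [] [(135, 136, [4]), (136, 136, [])]) .no (.br 1072 (.br 945 .no (.br 826
  .no (.br 1074 (.br 1211 (.br 1075 (.hor [.f 1074 1 5] []) (.br 946 .no (.hor [.f 817 1 5] [])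
  .no (.use 752) .no .no) .no (.use 735) .no .no) .no .no (.use 663) .no .no) (.use 662) .no (.hor
  [.f 1065 3 5] []) (.br 946 .no (.hor [.f 817 1 5] []) .no (.use 752) (.br 825 .no (.hor [.f 697
  1 5] []) .no .no .no (.br 827 .no (.hor [.f 698 1 5] []) (.con 136 [2, 2]) (.br 818 .no (.hor
  [.t 944 3 2, .f 690 1 3, .f 818 3 5, .t 824 1 4] [(103, 104, [4])]) .no (.use 753) .no .no) .no
  .no)) .no) .no) (.red [.t 833 1 4, .t 960 1 4] 136 136 [] [(120, 136, [2]), (136, 136, [])])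
  (.red [.t 817 1 3, .f 944 3 5, .f 952 5 1, .f 952 1 3] 136 136 [] [(119, 118, [3]), (136, 136,
  [])]) (.br 834 .no (.use 772) (.hor [.f 834 3 1, .f 833 1 5] [(121, 120, [3])]) .no (.red [.f
  826 5 3, .t 833 1 4, .t 960 1 4] 136 136 [] [(120, 136, [2]), (136, 136, [])]) .no) (.red [.f
  825 5 1, .f 825 1 3, .t 960 1 4] 136 136 [] [(120, 136, [2]), (136, 136, [])])) .no (.red [.f
  937 3 1, .t 944 3 1] 135 136 [4] [(134, 136, [4, 4]), (135, 136, [4])]) (.use 736) .no) .no .no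
  (.hor [.f 1064 3 5] []) .no .no) (.br 945 .no (.use 843) .no (.use 865) (.red [.f 945 5 1, .t
  944 3 1, .f 952 1 3] 136 136 [] [(135, 136, [4]), (136, 136, [])]) .no) (.red [.f 1072 5 3, .f
  944 3 1, .f 952 1 3] 136 136 [] [(135, 136, [4]), (136, 136, [])])) .no .no (.red [.f 968 5 1,
  .t 969 1 4, .t 962 1 4] 136 136 [] [(136, 136, []), (137, 136, [3])]))

def c11t867 : Tr4 :=
  .br 1082 (.br 1083 (.hor [.f 1082 1 5] []) .no .no (.con 136 [4, 1]) .no .no) .no .no (.br 1083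
  (.br 1218 (.br 1210 (.red [.f 1210 1 3, .t 1210 3 2] 152 136 [1] [(152, 136, [1]), (168, 136,
  [1, 1])]) .no .no (.red [.f 1074 3 1, .f 1082 1 5, .f 1082 5 3, .f 955 3 1] 136 136 [] [(136,
  136, []), (151, 135, [1])]) .no (.br 1073 (.red [.t 1073 1 3, .f 1082 1 5, .f 1082 5 3, .f 955 3
  1] 136 136 [] [(136, 136, []), (151, 135, [1])]) (.red [.t 1073 2 3, .f 944 3 5] 135 136 [4]
  [(135, 136, [4])]) .no (.br 945 .no (.br 826 .no (.br 1072 (.br 1208 (.br 1216 (.red [.f 1208 1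
  3, .t 1216 4 2] 152 136 [1] [(152, 136, [1]), (168, 136, [1, 1])]) .no (.br 1219 (.con 136 [3,
  1, 1]) .no (.br 1099 .no (.red [.t 970 4 1, .f 1091 3 1, .f 1083 1 3] 152 136 [1] [(137, 136,
  [3]), (152, 136, [1]), (153, 136, [3, 1])]) (.br 1098 (.red [.t 1226 2 4, .f 1083 1 3] 152 136
  [1] [(152, 136, [1]), (153, 136, [3, 1])]) .no (.hor [.f 1098 3 5] []) .no .no (.br 971 .no
  (.use 656) (.red [.f 971 3 1, .t 970 4 1, .f 1091 3 1, .f 1083 1 3] 152 136 [1] [(137, 136,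
  [3]), (138, 136, [3, 3]), (152, 136, [1]), (153, 136, [3, 1])]) .no .no .no)) .no .no (.red [.f
  1090 5 3, .f 1091 3 1, .f 1083 1 3] 152 136 [1] [(152, 136, [1]), (153, 136, [3, 1])])) .no .no
  .no) .no .no .no) .no (.red [.t 1216 4 2, .f 1072 1 3, .f 944 3 1] 152 136 [1] [(135, 136, [4]),
  (151, 136, [4, 1]), (152, 136, [1])]) .no .no .no) .no .no (.hor [.f 1064 3 5] []) .no .no)
  (.red [.t 833 1 4, .t 960 1 4] 136 136 [] [(120, 136, [2]), (136, 136, [])]) (.red [.t 817 1 3,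
  .f 944 3 5, .f 952 5 1, .f 952 1 3] 136 136 [] [(119, 118, [3]), (136, 136, [])]) (.br 834 .no
  (.br 1072 (.br 1208 (.br 1216 (.red [.f 1208 1 3, .t 1216 4 2] 152 136 [1] [(152, 136, [1]),
  (168, 136, [1, 1])]) .no (.br 971 (.br 1219 (.con 136 [3, 1, 1]) .no (.red [.t 970 4 1, .f 1091
  3 1, .f 1083 1 3] 152 136 [1] [(137, 136, [3]), (152, 136, [1]), (153, 136, [3, 1])]) .no .no
  .no) (.use 653) (.br 1219 (.con 136 [3, 1, 1]) .no (.br 1099 .no .no (.br 1098 (.red [.t 1226 2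
  4, .f 1083 1 3] 152 136 [1] [(152, 136, [1]), (153, 136, [3, 1])]) .no (.hor [.f 1098 3 5] [])
  .no .no (.red [.f 971 3 1, .t 970 4 1, .f 1091 3 1, .f 1083 1 3] 152 136 [1] [(137, 136, [3]),
  (138, 136, [3, 3]), (152, 136, [1]), (153, 136, [3, 1])])) .no .no (.red [.f 1090 5 3, .f 1091 3
  1, .f 1083 1 3] 152 136 [1] [(152, 136, [1]), (153, 136, [3, 1])])) .no .no .no) .no .no .no)
  .no .no .no) .no (.red [.t 1216 4 2, .f 1072 1 3, .f 944 3 1] 152 136 [1] [(135, 136, [4]),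
  (151, 136, [4, 1]), (152, 136, [1])]) .no .no .no) .no .no (.hor [.f 1064 3 5] []) .no .no)
  (.hor [.f 834 3 1, .f 833 1 5] [(121, 120, [3])]) .no (.red [.f 826 5 3, .t 833 1 4, .t 960 1 4]
  136 136 [] [(120, 136, [2]), (136, 136, [])]) .no) (.red [.f 825 5 1, .f 825 1 3, .t 960 1 4]
  136 136 [] [(120, 136, [2]), (136, 136, [])])) .no (.red [.f 937 3 1, .t 1073 2 3, .f 944 3 5]
  135 136 [4] [(134, 136, [4, 4]), (135, 136, [4])]) (.red [.f 945 5 3, .f 946 3 1, .t 954 1 3]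
  136 136 [] [(135, 136, [4]), (136, 136, [])]) .no) .no (.red [.f 1072 5 3, .f 944 3 1, .f 952 1
  3] 136 136 [] [(135, 136, [4]), (136, 136, [])]))) .no (.use 192) (.red [.t 1210 3 2, .f 1089 1
  5] 152 136 [1] [(152, 136, [1])]) (.red [.f 1090 5 1, .f 1083 1 3] 152 136 [1] [(152, 136,
  [1])]) .no) .no .no (.hor [.f 1074 3 5] []) .no .no) (.red [.f 1082 5 3, .f 955 3 1] 136 136 []
  [(136, 136, [])]) .no

def c11t868 : Tr4 :=
  .br 962 (.br 1089 (.br 1083 (.br 1091 (.red [.f 1083 1 3] 152 136 [1] [(152, 136, [1])]) .no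
  (.br 1082 (.use 497) .no .no (.br 1208 (.use 498) .no (.red [.t 1216 4 2] 152 136 [1] [(152,
  136, [1])]) (.br 1073 (.red [.t 1200 3 2, .f 1073 3 5, .f 953 5 1, .f 954 1 3] 136 136 [] [(136,
  136, []), (151, 135, [1])]) (.red [.t 1073 2 3, .f 944 3 5] 135 136 [4] [(135, 136, [4])]) .no
  (.use 642) .no (.red [.f 1072 5 3, .f 944 3 1] 135 136 [4] [(135, 136, [4])])) (.red [.f 1080 5
  1, .f 1081 1 3] 152 136 [1] [(152, 136, [1])]) .no) .no .no) .no .no .no) .no (.red [.f 955 3 1,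
  .f 962 1 5] 136 136 [] [(136, 136, [])]) (.use 661) .no (.red [.t 962 1 4] 136 136 [] [(136,
  136, [])])) (.hor [.f 961 1 5] []) (.br 1083 (.br 1091 (.red [.f 1083 1 3] 152 136 [1] [(152,
  136, [1])]) .no (.con 136 [1, 3]) .no .no .no) .no (.red [.f 955 3 1, .f 962 1 5] 136 136 []
  [(136, 136, [])]) (.use 661) .no (.red [.t 962 1 4] 136 136 [] [(136, 136, [])])) .no .no (.red
  [.f 1080 5 3, .t 1089 4 2] 136 136 [] [(136, 136, [])])) (.use 645) (.br 960 (.br 961 (.con 136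
  [3]) (.br 1091 (.br 1090 (.hor [.f 1090 1 5] []) .no (.br 1083 (.red [.f 1083 1 3] 152 136 [1]
  [(152, 136, [1])]) .no .no (.br 1082 (.con 136 [4, 1]) .no .no (.hor [.f 1074 3 5] []) .no .no)
  .no (.red [.f 962 3 1, .t 962 1 4] 136 136 [] [(136, 136, []), (137, 136, [3])])) (.con 136 [1])
  .no (.br 1083 (.red [.f 1083 1 3] 152 136 [1] [(152, 136, [1])]) .no .no (.br 1082 (.con 136 [4,
  1]) .no .no (.hor [.f 1074 3 5] []) .no .no) .no (.br 1218 (.br 1210 (.red [.f 1210 1 3, .t 1218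
  4 2] 152 136 [1] [(152, 136, [1]), (168, 136, [1, 1])]) .no .no (.use 457) (.red [.f 1082 5 1,
  .f 1083 1 3] 152 136 [1] [(152, 136, [1])]) (.use 866)) .no (.use 436) (.red [.t 1218 4 2] 152
  136 [1] [(152, 136, [1])]) .no (.use 482)))) .no (.br 1090 (.con 136 [3, 1]) .no (.hor [.f 1090
  3 5] []) (.con 136 [1]) .no (.con 136 [3, 1])) (.red [.f 955 3 1] 136 136 [] [(136, 136, [])])
  .no (.br 1089 (.use 867) .no (.con 136 [3, 1]) .no .no .no)) (.hor [.f 961 3 5] []) .no .no .no)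
  (.con 136 [3]) (.con 136 [3]) .no (.con 136 [3]) .no) .no .no (.br 960 (.red [.f 953 5 3, .t 960
  1 4] 136 136 [] [(136, 136, [])]) (.con 136 [3]) (.con 136 [3]) .no .no .no)

def c11t869 : Tr4 :=
  .br 955 (.con 136 [2]) (.con 136 [2]) (.br 1080 (.br 1081 (.hor [.f 1080 1 5] []) .no (.br 962
  (.red [.t 1089 4 2, .f 954 3 5] 136 136 [] [(136, 136, [])]) (.use 645) (.br 1090 (.br 1091
  (.hor [.f 1090 1 5] []) .no (.con 136 [1, 3]) (.red [.f 955 3 1] 136 136 [] [(136, 136, [])])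
  .no .no) .no (.red [.f 962 3 1, .t 1089 4 2, .f 954 3 5] 136 136 [] [(136, 136, []), (137, 136,
  [3])]) (.hor [.f 1081 3 5] []) (.br 960 (.br 1082 (.br 1083 (.hor [.f 1082 1 5] []) .no .no
  (.con 136 [4, 1]) .no .no) .no .no (.br 1083 (.br 961 .no (.use 660) (.hor [.f 961 3 5] []) .no
  .no .no) .no .no (.hor [.f 1074 3 5] []) .no .no) (.red [.f 1082 5 3, .f 955 3 1] 136 136 []
  [(136, 136, [])]) .no) (.con 136 [3]) (.con 136 [3]) .no (.con 136 [3]) .no) .no) .no .no (.red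
  [.f 953 5 3, .f 953 3 1] 136 136 [] [(136, 136, [])])) (.br 1082 (.con 136 [4, 1]) .no (.con 136
  [4, 1]) (.hor [.f 1073 3 5] []) (.con 136 [4, 1]) .no) (.br 1091 (.use 571) .no (.br 1090 (.con
  136 [1, 3]) (.red [.f 953 5 1, .f 954 1 3] 136 136 [] [(136, 136, [])]) (.hor [.f 1090 3 5] [])
  .no .no (.con 136 [1, 3])) (.red [.f 953 5 1, .f 955 3 1] 136 136 [] [(136, 136, [])]) .no (.red
  [.f 953 5 1, .t 954 1 3] 136 136 [] [(136, 136, [])])) .no) .no (.br 962 (.br 1081 (.br 1083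
  (.con 136 [1]) .no (.red [.f 955 3 1, .f 962 1 5] 136 136 [] [(136, 136, [])]) (.con 136 [1])
  .no (.con 136 [1])) .no (.hor [.f 1080 3 5] []) (.use 37) (.red [.f 953 5 1, .f 954 1 3] 136 136
  [] [(136, 136, [])]) .no) (.con 136 [3]) (.con 136 [3]) .no .no (.con 136 [3])) (.red [.f 944 3
  1] 135 136 [4] [(135, 136, [4])]) (.use 868) .no) (.con 136 [2]) .no .no

def c11t870 : Tr4 :=
  .br 953 (.br 1082 (.con 136 [4]) (.hor [.f 953 1 5] []) (.con 136 [4]) (.con 136 [4]) (.con 136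
  [4]) .no) (.br 955 (.con 136 [2]) (.con 136 [2]) (.br 954 (.br 1091 (.br 1083 (.red [.f 1083 1
  3, .f 955 3 1, .f 954 1 5] 136 136 [] [(136, 136, []), (152, 136, [1])]) .no .no (.br 1090 (.hor
  [.f 1090 1 5] []) (.red [.f 954 1 3, .f 954 3 5] 136 136 [] [(136, 136, [])]) (.br 960 (.br 962
  .no (.use 542) (.red [.f 962 3 1, .f 954 1 3] 136 136 [] [(136, 136, []), (137, 136, [3])]) .no
  .no (.br 1089 (.br 1081 (.red [.f 1081 1 3] 152 136 [1] [(152, 136, [1])]) .no .no (.br 1080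
  (.con 136 [4, 1]) .no .no (.red [.f 944 3 1, .f 952 1 3] 136 136 [] [(135, 136, [4]), (136, 136,
  [])]) .no .no) .no (.br 1208 (.use 268) .no (.red [.t 1216 4 2] 152 136 [1] [(152, 136, [1])])
  (.br 1218 (.use 269) .no (.hor [.f 1090 3 1, .f 1089 1 5] [(153, 137, [1])]) (.br 1211 (.br 1209
  (.con 136 [4, 1, 1]) .no .no (.hor [.f 1200 3 5] []) .no .no) .no .no (.red [.f 1075 3 1, .f
  1083 1 3] 152 136 [1] [(151, 136, [4, 1]), (152, 136, [1])]) .no .no) .no .no) (.red [.f 1080 5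
  1, .f 1081 1 3] 152 136 [1] [(152, 136, [1])]) .no)) .no (.hor [.f 1089 3 5] []) (.red [.t 1081
  3 2, .f 954 3 5] 136 136 [] [(136, 136, [])]) .no .no)) (.con 136 [3]) (.con 136 [3]) .no (.con
  136 [3]) .no) .no .no (.br 960 (.br 962 .no (.use 542) (.br 961 .no (.red [.f 825 1 3, .t 953 3
  1] 136 136 [] [(120, 136, [2]), (136, 136, [])]) (.hor [.f 961 3 5] []) .no .no .no) .no .no
  (.red [.f 961 5 1, .f 954 1 3] 136 136 [] [(136, 136, [])])) (.con 136 [3]) (.con 136 [3]) .no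
  (.con 136 [3]) .no)) .no .no) .no (.use 543) (.red [.f 955 3 1, .f 954 1 5] 136 136 [] [(136,
  136, [])]) .no (.red [.t 954 1 3] 136 136 [] [(136, 136, [])])) (.hor [.f 825 1 5] []) (.con 136
  [2]) (.use 561) .no .no) (.con 136 [2]) .no (.con 136 [2])) (.use 644) (.hor [.f 944 3 5] [])
  (.use 869) .no

def c11t871 : Tr4 :=
  .br 833 (.hor [.f 832 1 5] []) (.con 136 [2, 3]) (.con 136 [2, 3]) (.con 136 [2, 3]) (.con 136
  [2, 3]) .no

def c11l36 : List Tr4 :=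
  [c11t865, c11t866, c11t867, c11t868, c11t869, c11t870, c11t871]

theorem c11k36 : chkLF ⟨4, 1, 0, true, -8⟩ true 0 c11N 865 c11l36 = true := by decide +kernel

def c11t872 : Tr4 :=
  .br 1208 (.hor [.f 1208 1 5] []) .no .no (.con 136 [1, 4, 1]) .no .no

def c11t873 : Tr4 :=
  .br 825 .no (.hor [.f 696 1 5] []) (.con 136 [2, 2]) (.red [.t 816 1 3, .f 825 1 5] 119 136 [4,
  2] [(119, 136, [4, 2])]) .no .no

def c11t874 : Tr4 :=
  .br 1209 (.use 872) .no (.red [.f 1081 3 1, .f 1081 1 5, .f 1073 5 3, .f 1074 3 5, .t 962 1 4]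
  136 136 [] [(136, 136, []), (152, 136, [1])]) (.red [.t 1209 4 2, .f 1074 3 5] 151 136 [4, 1]
  [(151, 136, [4, 1])]) .no (.br 954 .no (.use 873) .no (.red [.t 1088 1 4, .f 1081 1 5, .f 1073 5
  3, .f 946 3 1, .f 954 1 3] 136 136 [] [(135, 136, [4]), (136, 136, []), (152, 136, [1])]) .no
  .no)

def c11t875 : Tr4 :=
  .br 1081 (.hor [.f 1081 1 5] []) .no (.br 1080 (.con 136 [4, 1]) .no (.con 136 [4, 1]) (.br 960
  (.red [.t 1088 2 4] 136 136 [] [(136, 136, [])]) (.use 871) (.br 962 (.br 1088 (.br 1211 (.br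
  944 .no (.br 824 .no (.br 945 (.red [.t 1072 3 2] 135 136 [4] [(135, 136, [4])]) (.hor [.f 816 1
  5] []) .no (.br 1074 (.red [.f 1074 1 3, .f 1074 3 5] 151 136 [4, 1] [(151, 136, [4, 1])]) (.con
  136 [4, 4]) .no (.br 1073 (.con 136 [4, 4, 1]) .no .no (.hor [.f 1065 3 5] []) .no .no) .no
  (.use 874)) (.br 1074 (.red [.f 1074 1 3, .f 1074 3 5] 151 136 [4, 1] [(151, 136, [4, 1])]) .no
  .no (.use 506) .no (.use 874)) .no) (.br 961 .no (.red [.t 832 4 1, .f 953 3 1, .f 961 1 5] 136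
  136 [] [(120, 136, [2]), (136, 136, [])]) (.hor [.f 960 3 5] []) .no .no .no) .no (.red [.f 824
  5 1, .f 816 1 3, .f 944 3 1] 135 136 [4] [(119, 136, [2, 4]), (135, 136, [4])]) .no) .no (.br
  945 (.red [.t 1072 3 2] 135 136 [4] [(135, 136, [4])]) (.br 946 (.con 136 [4, 4]) (.hor [.f 817
  1 5] []) (.br 1074 (.red [.f 1074 1 3, .f 946 3 1] 135 136 [4] [(135, 136, [4]), (151, 136, [4,
  1])]) .no .no (.br 1073 (.con 136 [4, 4, 1]) .no .no (.hor [.f 1065 3 5] []) .no .no) .no (.br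
  1209 (.use 872) .no (.red [.f 1081 3 1, .f 1081 1 5, .f 1073 5 3, .f 1074 3 5, .t 962 1 4] 136
  136 [] [(136, 136, []), (152, 136, [1])]) (.red [.t 1209 4 2, .f 946 3 1] 135 136 [4] [(135,
  136, [4]), (151, 136, [4, 1])]) .no (.red [.t 1088 1 4, .f 1081 1 5, .f 1073 5 3, .f 946 3 1, .f
  954 1 3] 136 136 [] [(135, 136, [4]), (136, 136, []), (152, 136, [1])]))) (.con 136 [4, 2, 4])
  (.con 136 [4, 2, 4]) .no) .no (.hor [.f 936 3 5] []) (.br 1074 (.red [.f 1074 1 3, .f 1074 3 5]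
  151 136 [4, 1] [(151, 136, [4, 1])]) .no .no (.use 506) .no (.red [.f 945 5 1, .t 1072 3 2] 135
  136 [4] [(135, 136, [4])])) .no) (.red [.f 944 5 3, .f 944 3 1] 135 136 [4] [(135, 136, [4])])
  .no) .no .no (.red [.f 1075 3 1, .f 1083 1 3, .f 955 3 1, .f 962 1 5] 136 136 [] [(136, 136,
  []), (151, 136, [4, 1]), (152, 136, [1])]) .no .no) .no (.red [.f 960 3 1, .t 1088 2 4] 136 136
  [] [(136, 136, []), (137, 136, [3])]) .no .no .no) (.con 136 [3]) (.con 136 [3]) (.con 136 [2])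
  .no (.con 136 [3])) .no (.red [.f 952 5 3, .f 953 3 1] 136 136 [] [(136, 136, [])]) .no) .no
  .no) (.con 136 [4, 1]) .no (.con 136 [4, 1])

def c11t876 : Tr4 :=
  .br 1080 (.con 136 [1, 4]) .no .no (.hor [.f 1072 3 5] []) .no .no

def c11t877 : Tr4 :=
  .br 833 (.hor [.f 833 1 5] []) (.con 136 [2, 3]) (.con 136 [2, 3]) (.con 136 [2, 3]) .no (.con
  136 [2, 3])

def c11t878 : Tr4 :=
  .br 945 .no (.br 944 .no (.hor [.f 816 1 5] []) .no (.br 937 .no (.red [.f 809 1 3] 118 136 [4,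
  2, 4] [(118, 136, [4, 2, 4])]) .no (.br 938 (.red [.f 938 1 3] 134 136 [4, 4] [(134, 136, [4,
  4])]) (.con 136 [4, 4, 4, 2]) .no (.hor [.f 929 3 5] []) (.con 136 [4, 4, 2]) .no) (.red [.t
  1073 4 2] 134 136 [4, 4] [(134, 136, [4, 4])]) .no) .no .no) .no (.red [.f 937 3 1, .f 945 1 5]
  134 136 [4, 4] [(134, 136, [4, 4])]) .no (.hor [.f 944 5 3, .f 944 3 1, .f 946 1 3, .f 945 3 5,
  .f 1074 3 5] [])

def c11t879 : Tr4 :=
  .br 1210 (.red [.f 1210 1 3, .t 1209 2 3] 152 136 [1] [(152, 136, [1]), (168, 136, [1, 1])]) .no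
  .no (.br 1074 .no (.use 878) .no (.hor [.f 1065 3 5] []) .no .no) (.br 1074 (.red [.t 1074 1 3,
  .f 1083 1 3, .f 955 3 1, .f 954 1 5] 136 136 [] [(136, 136, []), (151, 136, [4, 1]), (152, 136,
  [1])]) (.use 878) .no (.hor [.f 1065 3 5] []) .no .no) .no

def c11t880 : Tr4 :=
  .br 944 .no (.hor [.f 816 1 5] []) .no (.br 947 .no (.con 136 [2, 4, 4]) .no (.hor [.f 938 3 5]
  []) .no .no) .no .no

def c11t881 : Tr4 :=
  .br 946 .no (.hor [.f 817 1 5] []) .no (.use 880) (.red [.t 1082 2 4, .f 1082 5 1, .f 1083 1 3]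
  152 136 [1] [(135, 136, [4]), (152, 136, [1])]) .no

def c11t882 : Tr4 :=
  .br 968 .no .no (.hor [.f 968 3 5] []) .no .no .no

def c11t883 : Tr4 :=
  .br 825 .no (.hor [.f 696 1 5] []) .no (.br 834 .no (.red [.f 696 1 3, .t 832 4 1, .t 953 3 1]
  136 136 [] [(104, 136, [2, 2]), (120, 136, [2]), (136, 136, [])]) (.red [.f 696 1 3, .t 832 4 1,
  .t 953 3 1] 136 136 [] [(104, 136, [2, 2]), (120, 136, [2]), (136, 136, [])]) (.hor [.f 696 1 3,
  .f 696 3 1, .t 816 1 3, .f 825 1 3, .f 825 3 5] [(119, 136, [2, 4]), (120, 136, [2])]) (.red [.f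
  696 1 3, .t 832 4 1, .t 953 3 1] 136 136 [] [(104, 136, [2, 2]), (120, 136, [2]), (136, 136,
  [])]) .no) (.red [.f 696 1 3, .t 832 4 1, .t 953 3 1] 136 136 [] [(104, 136, [2, 2]), (120, 136,
  [2]), (136, 136, [])]) .no

def c11t884 : Tr4 :=
  .br 944 .no (.br 832 .no (.use 883) (.hor [.t 832 3 1, .f 961 3 5] [(121, 120, [3])]) .no .no
  .no) .no (.hor [.f 936 3 5] []) .no .no

def c11t885 : Tr4 :=
  .br 944 .no .no .no (.hor [.f 936 3 5] []) .no .no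

def c11t886 : Tr4 :=
  .br 824 .no (.br 1073 (.red [.f 1073 1 3, .f 1072 3 5, .f 952 5 1, .f 952 1 3] 136 136 [] [(136,
  136, []), (151, 152, [4])]) (.red [.t 1072 3 2, .f 952 1 3] 136 136 [] [(135, 136, [4]), (136,
  136, [])]) .no (.use 879) (.br 1210 (.red [.f 1210 1 3, .t 1209 2 3] 152 136 [1] [(152, 136,
  [1]), (168, 136, [1, 1])]) .no .no (.red [.t 1209 2 4, .f 1072 3 5, .f 952 5 1, .f 952 1 3] 136
  136 [] [(136, 136, []), (151, 152, [4])]) (.br 1097 (.use 158) (.red [.t 969 1 4, .f 954 1 3, .f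
  954 3 5] 136 136 [] [(136, 136, []), (137, 136, [3])]) (.br 969 .no (.hor [.f 833 1 3, .f 961 3
  5] [(121, 120, [3])]) (.br 1096 (.br 945 .no (.use 881) .no (.br 946 .no (.br 944 .no (.br 825
  .no (.hor [.f 696 1 5] []) .no (.br 834 .no (.br 832 .no (.hor [.t 816 1 3, .f 696 1 3, .f 825 1
  3, .f 824 3 5] [(104, 136, [2, 2]), (119, 136, [2, 4]), (120, 136, [2])]) (.use 882) .no .no
  .no) (.hor [.f 834 3 1, .f 833 1 5] [(121, 120, [3])]) (.hor [.t 816 1 3, .f 825 1 3, .f 825 3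
  5] [(119, 136, [2, 4]), (120, 136, [2])]) (.br 832 .no (.hor [.t 816 1 3, .f 696 1 3, .f 825 1
  3, .f 824 3 5] [(104, 136, [2, 2]), (119, 136, [2, 4]), (120, 136, [2])]) (.use 882) .no .no
  .no) .no) (.br 832 .no (.red [.f 696 1 3, .t 832 4 1, .t 953 3 1] 136 136 [] [(104, 136, [2,
  2]), (120, 136, [2]), (136, 136, [])]) (.use 882) .no .no .no) .no) .no (.hor [.f 936 3 5] [])
  .no .no) .no (.hor [.f 937 3 5] []) (.red [.t 1082 2 4, .f 1082 5 1, .f 1083 1 3] 152 136 [1]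
  [(135, 136, [4]), (152, 136, [1])]) .no) (.red [.f 945 5 1, .t 1072 3 2, .f 952 1 3] 136 136 []
  [(135, 136, [4]), (136, 136, [])]) (.red [.f 944 5 3, .f 944 3 1, .f 952 1 3] 136 136 [] [(135,
  136, [4]), (136, 136, [])])) (.red [.f 969 3 1, .t 969 1 4, .f 954 1 3] 136 136 [] [(136, 136,
  []), (137, 136, [3]), (138, 136, [3, 3])]) (.hor [.f 1096 3 5] []) .no .no .no) .no .no (.br 945
  .no (.use 881) .no (.use 884) (.red [.f 945 5 1, .t 1072 3 2, .f 952 1 3] 136 136 [] [(135, 136,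
  [4]), (136, 136, [])]) (.red [.f 944 5 3, .f 944 3 1, .f 952 1 3] 136 136 [] [(135, 136, [4]),
  (136, 136, [])]))) .no (.red [.f 1089 5 3, .f 962 3 1, .f 954 1 3] 136 136 [] [(136, 136, []),
  (137, 136, [3])]) (.br 945 .no (.use 881) .no (.br 969 .no (.hor [.f 833 1 3, .f 961 3 5] [(121,
  120, [3])]) (.br 944 .no (.br 832 .no (.use 883) (.br 968 .no .no (.hor [.f 968 3 5] []) .no .no
  .no) .no .no .no) .no (.hor [.f 936 3 5] []) .no .no) .no .no (.use 884)) (.red [.f 945 5 1, .t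
  1072 3 2, .f 952 1 3] 136 136 [] [(135, 136, [4]), (136, 136, [])]) (.red [.f 944 5 3, .f 944 3
  1, .f 952 1 3] 136 136 [] [(135, 136, [4]), (136, 136, [])]))) .no) .no) (.red [.t 832 4 1, .t
  953 3 1] 136 136 [] [(120, 136, [2]), (136, 136, [])]) (.br 1073 (.red [.f 1073 1 3, .f 1072 3
  5, .f 952 5 1, .f 952 1 3] 136 136 [] [(136, 136, []), (151, 152, [4])]) (.red [.t 1072 3 2, .f
  952 1 3] 136 136 [] [(135, 136, [4]), (136, 136, [])]) .no (.use 879) (.br 1210 (.red [.f 1210 1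
  3, .t 1209 2 3] 152 136 [1] [(152, 136, [1]), (168, 136, [1, 1])]) .no .no (.red [.t 1209 2 4,
  .f 1072 3 5, .f 952 5 1, .f 952 1 3] 136 136 [] [(136, 136, []), (151, 152, [4])]) (.br 945 .no
  (.use 881) .no (.use 885) (.red [.f 945 5 1, .t 1072 3 2, .f 952 1 3] 136 136 [] [(135, 136,
  [4]), (136, 136, [])]) (.red [.f 944 5 3, .f 944 3 1, .f 952 1 3] 136 136 [] [(135, 136, [4]),
  (136, 136, [])])) .no) .no) (.red [.f 824 5 1, .f 825 1 3, .t 953 3 1] 136 136 [] [(120, 136,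
  [2]), (136, 136, [])]) .no

def c11t887 : Tr4 :=
  .br 1074 (.hor [.f 1073 1 5] []) (.con 136 [4, 4]) .no (.con 136 [4, 4, 1]) .no .no

def c11t888 : Tr4 :=
  .br 1074 (.use 39) .no .no (.use 347) .no .no

def c11t889 : Tr4 :=
  .br 1210 (.hor [.f 1210 1 5] []) .no (.br 1209 (.br 1208 (.hor [.f 1208 1 5] []) .no (.br 1217
  (.hor [.f 1209 1 3, .f 1208 3 5] [(168, 152, [1])]) .no (.red [.f 1089 3 1, .t 1217 2 4] 152 136
  [1] [(152, 136, [1]), (153, 136, [1, 3])]) .no .no .no) (.con 136 [4, 1, 1]) .no .no) .no (.hor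
  [.f 1209 3 5] []) (.red [.t 1201 3 2, .f 1074 3 5] 151 136 [4, 1] [(151, 136, [4, 1])]) .no (.br
  1217 (.br 1216 (.hor [.f 1216 1 5] []) .no (.con 136 [1, 3, 1]) .no .no .no) .no (.red [.f 1089
  3 1, .t 1217 2 4] 152 136 [1] [(152, 136, [1]), (153, 136, [1, 3])]) .no .no (.red [.f 1208 5 3,
  .f 1209 3 5, .f 1081 5 1, .f 1074 1 3] 151 136 [4, 1] [(151, 136, [4, 1])]))) .no .no (.red [.f
  1081 5 1, .f 1074 1 3] 151 136 [4, 1] [(151, 136, [4, 1])])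

def c11t890 : Tr4 :=
  .br 1066 (.red [.f 1066 1 3, .f 1065 3 5, .f 945 5 1, .t 1072 3 2] 135 136 [4] [(135, 136, [4]),
  (150, 134, [1])]) (.red [.t 1065 3 2, .t 1072 3 2] 135 136 [4] [(134, 136, [4, 4]), (135, 136,
  [4])]) .no (.br 947 .no .no .no (.use 302) .no .no) (.red [.t 1202 2 4, .f 1065 3 5, .f 1073 5
  3, .f 1074 3 5, .t 1218 4 2] 152 136 [1] [(150, 134, [1]), (152, 136, [1])]) .no

def c11t891 : Tr4 :=
  .br 1089 (.br 1218 (.br 1210 (.use 197) .no .no (.use 41) (.br 1074 (.red [.t 1074 1 3, .f 1083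
  1 3] 152 136 [1] [(151, 136, [4, 1]), (152, 136, [1])]) .no .no (.use 347) .no .no) (.red [.f
  1081 5 1, .f 1081 1 3] 152 136 [1] [(152, 136, [1])])) .no (.hor [.f 1090 3 1, .f 1089 1 5]
  [(153, 137, [1])]) (.red [.t 1217 2 4] 152 136 [1] [(152, 136, [1])]) .no .no) (.con 136 [3])
  (.hor [.f 1089 3 5] []) .no .no .no

def c11t892 : Tr4 :=
  .br 962 (.br 960 (.br 1089 (.use 888) (.hor [.f 960 1 5] []) (.br 1074 (.br 1211 (.use 889) .no
  .no (.red [.f 1075 3 1, .f 1083 1 3, .f 955 3 1, .f 962 1 5] 136 136 [] [(136, 136, []), (151,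
  136, [4, 1]), (152, 136, [1])]) .no (.red [.t 1074 1 3, .f 1083 1 3] 152 136 [1] [(151, 136, [4,
  1]), (152, 136, [1])])) .no .no (.use 347) .no .no) .no .no .no) (.use 871) (.br 1089 (.use 888)
  (.con 136 [3]) (.use 261) .no .no (.br 961 .no (.br 825 .no (.br 824 .no (.hor [.f 696 1 5] [])
  (.red [.t 832 4 1, .t 961 4 1] 136 136 [] [(120, 136, [2]), (136, 136, [])]) (.br 1074 (.br 1211
  (.br 1210 (.hor [.f 1210 1 5] []) .no (.br 1209 (.br 827 .no (.con 136 [2, 2, 4]) (.con 136 [2,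
  2]) (.br 1203 (.red [.f 1203 1 3] 167 136 [4, 1, 1] [(167, 136, [4, 1, 1])]) .no .no (.use 890)
  .no .no) .no .no) .no (.hor [.f 1209 3 5] []) (.red [.t 1201 3 2, .f 1074 3 5] 151 136 [4, 1]
  [(151, 136, [4, 1])]) .no (.br 827 .no (.con 136 [2, 2, 4]) (.con 136 [2, 2]) (.br 1203 (.red
  [.f 1203 1 3] 167 136 [4, 1, 1] [(167, 136, [4, 1, 1])]) .no .no (.use 890) .no .no) .no .no))
  .no .no (.red [.f 1081 5 1, .f 1074 1 3] 151 136 [4, 1] [(151, 136, [4, 1])])) .no .no (.red [.f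
  1075 3 1, .f 1083 1 3, .f 955 3 1, .f 962 1 5] 136 136 [] [(136, 136, []), (151, 136, [4, 1]),
  (152, 136, [1])]) .no (.red [.t 1074 1 3, .f 1083 1 3] 152 136 [1] [(151, 136, [4, 1]), (152,
  136, [1])])) .no .no (.use 347) .no .no) .no .no) .no (.red [.t 825 4 1] 119 136 [2, 4] [(119,
  136, [2, 4])]) .no (.red [.f 824 5 1, .f 825 1 3, .t 961 4 1] 136 136 [] [(120, 136, [2]), (136,
  136, [])])) (.hor [.f 960 3 5] []) .no .no .no)) .no (.red [.f 952 5 3, .t 961 4 1] 136 136 []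
  [(136, 136, [])]) .no) (.use 877) (.br 960 (.br 1090 (.hor [.f 1090 1 5] []) .no (.use 891) .no
  .no (.red [.f 1081 5 3, .t 1088 2 4] 136 136 [] [(136, 136, [])])) (.con 136 [3]) (.con 136 [3])
  .no (.con 136 [3]) .no) .no .no (.br 960 (.br 1090 (.hor [.f 1090 1 5] []) .no (.use 891) .no
  .no (.red [.f 1081 5 3, .t 1088 2 4] 136 136 [] [(136, 136, [])])) (.con 136 [3]) (.con 136 [3])
  .no .no .no)

def c11t893 : Tr4 :=
  .br 1210 (.use 38) .no (.red [.t 1217 2 4] 152 136 [1] [(152, 136, [1])]) (.use 40) .no (.red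
  [.f 1081 5 1, .f 1081 1 3] 152 136 [1] [(152, 136, [1])])

def c11t894 : Tr4 :=
  .br 825 .no (.hor [.f 696 1 5] []) .no .no (.br 816 .no (.red [.f 688 1 3, .t 816 3 1, .f 945 3
  5, .f 953 5 1, .f 954 1 3] 136 136 [] [(103, 104, [4]), (119, 118, [3]), (136, 136, [])]) .no
  (.red [.f 808 3 1, .f 816 1 5] 118 136 [2, 4, 4] [(118, 136, [2, 4, 4])]) .no .no) .no

def c11t895 : Tr4 :=
  .br 824 .no (.br 944 .no (.hor [.f 816 1 5] []) .no (.use 894) .no .no) (.red [.t 832 4 1, .t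
  961 4 1] 136 136 [] [(120, 136, [2]), (136, 136, [])]) (.red [.t 816 3 1, .f 945 3 5, .f 953 5
  1, .f 954 1 3] 136 136 [] [(119, 118, [3]), (136, 136, [])]) (.red [.f 824 5 1, .f 825 1 3, .t
  961 4 1] 136 136 [] [(120, 136, [2]), (136, 136, [])]) .no

def c11l37 : List Tr4 :=
  [c11t872, c11t873, c11t874, c11t875, c11t876, c11t877, c11t878, c11t879, c11t880, c11t881,
  c11t882, c11t883, c11t884, c11t885, c11t886, c11t887, c11t888, c11t889, c11t890, c11t891,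
  c11t892, c11t893, c11t894, c11t895]

theorem c11k37 : chkLF ⟨4, 1, 0, true, -8⟩ true 0 c11N 872 c11l37 = true := by decide +kernel

def c11t896 : Tr4 :=
  .br 1080 (.con 136 [4, 1]) .no (.con 136 [1]) (.br 954 .no (.br 1073 (.use 887) (.red [.t 1072 3
  2] 135 136 [4] [(135, 136, [4])]) .no (.br 945 .no (.br 946 (.con 136 [4, 4]) (.hor [.f 817 1 5]
  []) .no (.use 880) (.br 944 .no (.hor [.f 816 1 5] []) .no (.con 136 [2, 4, 4]) .no .no) .no)
  .no (.red [.f 937 3 1] 134 136 [4, 4] [(134, 136, [4, 4])]) (.use 892) (.red [.f 944 5 3, .f 944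
  3 1] 135 136 [4] [(135, 136, [4])])) (.hor [.f 1073 5 3, .f 1072 3 5, .f 1074 3 5] []) .no)
  (.con 136 [2]) (.br 1073 (.use 198) (.red [.t 1072 3 2, .f 945 3 5] 135 136 [4] [(135, 136,
  [4])]) .no (.br 945 .no (.br 1211 (.br 1090 (.hor [.f 1090 1 5] []) (.br 960 (.br 1089 (.use
  893) (.hor [.f 960 1 5] []) (.br 1074 (.use 889) .no .no (.hor [.f 1065 3 5] []) .no .no) .no
  .no .no) (.use 871) (.br 1089 (.use 893) (.con 136 [3]) (.use 261) .no .no (.br 961 .no (.use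
  895) (.hor [.f 960 3 5] []) .no .no .no)) .no (.red [.f 952 5 3, .t 961 4 1] 136 136 [] [(136,
  136, [])]) .no) (.br 1089 (.br 1210 (.use 197) .no (.red [.t 1217 2 4] 152 136 [1] [(152, 136,
  [1])]) (.use 40) .no (.red [.f 1081 5 1, .f 1081 1 3] 152 136 [1] [(152, 136, [1])])) (.con 136
  [3]) (.hor [.f 1089 3 5] []) .no .no (.con 136 [3])) .no .no (.br 960 (.red [.f 1081 5 3, .t
  1088 2 4] 136 136 [] [(136, 136, [])]) (.con 136 [3]) (.con 136 [3]) .no (.con 136 [3]) .no))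
  .no .no (.red [.f 1075 3 1, .f 1083 1 3] 152 136 [1] [(151, 136, [4, 1]), (152, 136, [1])]) .no
  (.use 202)) .no (.red [.f 937 3 1, .t 945 1 3] 135 136 [4] [(134, 136, [4, 4]), (135, 136,
  [4])]) .no (.red [.f 944 5 3, .f 944 3 1] 135 136 [4] [(135, 136, [4])])) (.red [.f 1073 5 3, .f
  946 3 1] 135 136 [4] [(135, 136, [4])]) .no) .no .no) .no .no

def c11t897 : Tr4 :=
  .br 937 .no (.hor [.f 809 1 5] []) .no (.con 136 [4, 4, 4, 2]) .no .no

def c11t898 : Tr4 :=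
  .br 1218 (.br 1080 (.hor [.f 1080 1 5] []) .no .no (.br 1210 (.use 154) .no .no (.br 1073 (.red
  [.f 1073 1 3, .f 1072 3 5, .f 952 5 1, .f 952 1 3] 136 136 [] [(136, 136, []), (151, 135, [1])])
  (.red [.t 1072 3 2, .f 952 1 3] 136 136 [] [(135, 136, [4]), (136, 136, [])]) .no (.br 961 .no
  (.br 944 .no (.br 824 .no (.br 825 .no (.hor [.f 696 1 5] []) .no (.red [.t 816 1 3, .f 944 3 1]
  135 136 [4] [(119, 136, [2, 4]), (135, 136, [4])]) (.br 945 .no (.hor [.f 816 1 5] []) .no (.br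
  1074 .no (.con 136 [4, 2, 3]) .no (.hor [.f 1065 3 5] []) (.red [.f 937 3 1] 134 136 [4, 4]
  [(134, 136, [4, 4])]) .no) (.con 136 [4, 2, 3]) .no) .no) (.red [.t 832 4 1, .f 816 1 3, .f 944
  3 1] 135 136 [4] [(119, 136, [2, 4]), (120, 136, [2]), (135, 136, [4])]) .no (.red [.f 824 5 1,
  .f 816 1 3, .f 944 3 1, .f 952 1 3] 136 136 [] [(119, 136, [2, 4]), (135, 136, [4]), (136, 136,
  [])]) .no) .no (.br 1211 (.br 945 .no (.br 946 (.con 136 [4, 2, 4]) (.hor [.f 817 1 5] []) (.br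
  1074 .no .no .no (.hor [.f 1065 3 5] []) (.red [.f 1074 5 3, .f 946 3 1] 135 136 [4] [(135, 136,
  [4])]) .no) (.con 136 [4, 2, 4]) (.con 136 [4, 2, 4]) .no) .no (.hor [.f 936 3 5] []) (.br 826
  (.br 1074 .no .no .no (.hor [.f 1065 3 5] []) (.br 947 .no (.con 136 [2, 4, 4]) .no (.br 938
  (.red [.t 1065 3 2, .f 938 3 5] 134 136 [4, 4] [(134, 136, [4, 4])]) (.use 897) .no (.br 1066
  (.br 1203 (.red [.f 1203 1 3, .f 1202 3 5] 167 136 [4, 1, 1] [(167, 136, [4, 1, 1])]) .no .no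
  (.red [.t 1194 2 3, .f 1065 3 5, .f 945 5 1, .t 1072 3 2] 135 136 [4] [(135, 136, [4]), (150,
  134, [1])]) .no .no) .no .no (.red [.f 930 3 1, .t 938 1 3, .f 1065 3 5] 134 136 [4, 4] [(133,
  136, [4, 4, 4]), (134, 136, [4, 4])]) (.red [.f 1066 5 3, .f 939 3 1] 134 136 [4, 4] [(134, 136,
  [4, 4])]) .no) .no (.hor [.f 937 5 3, .f 936 3 5, .f 938 3 5] [])) .no .no) .no) (.con 136 [4,
  2, 3]) (.con 136 [4, 2, 3]) (.con 136 [4, 2, 3]) (.con 136 [4, 2, 3]) (.con 136 [4, 2, 3])) .no)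
  .no .no (.hor [.f 1202 3 5] []) .no .no) (.red [.f 944 5 3, .f 944 3 1, .f 952 1 3] 136 136 []
  [(135, 136, [4]), (136, 136, [])]) .no) (.hor [.f 961 3 5] []) .no .no .no) (.red [.t 1209 2 4,
  .f 1072 3 5, .f 952 5 1, .f 952 1 3] 136 136 [] [(136, 136, []), (151, 135, [1])]) .no) (.red
  [.f 1082 5 1, .f 1083 1 3] 152 136 [1] [(152, 136, [1])]) .no) .no .no) .no (.use 153) (.red [.t
  1218 4 2, .f 1081 1 5] 152 136 [1] [(152, 136, [1])]) .no (.red [.f 1089 5 1, .f 1081 1 3] 152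
  136 [1] [(152, 136, [1])])

def c11t899 : Tr4 :=
  .br 1080 (.con 136 [4, 1]) .no .no (.hor [.f 1072 3 5] []) .no .no

def c11t900 : Tr4 :=
  .br 1083 (.red [.f 1083 1 3, .f 955 3 1] 136 136 [] [(136, 136, []), (152, 136, [1])]) .no .no
  (.br 1082 (.use 875) (.br 1090 (.hor [.f 1090 1 5] []) (.red [.f 954 1 3, .f 954 3 5] 136 136 []
  [(136, 136, [])]) (.br 960 (.br 1089 (.br 1081 (.red [.f 1081 1 3] 152 136 [1] [(152, 136,
  [1])]) .no .no (.use 876) .no (.red [.f 952 5 1, .f 952 1 3] 136 136 [] [(136, 136, [])])) (.con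
  136 [3]) (.hor [.f 1089 3 5] []) (.red [.t 1088 2 4, .f 953 1 5] 136 136 [] [(136, 136, [])])
  .no .no) (.con 136 [3]) (.con 136 [3]) .no (.con 136 [3]) .no) .no .no (.br 960 (.br 1081 (.br
  1080 (.hor [.f 1080 1 5] []) .no .no (.br 962 .no (.use 877) (.br 1218 (.br 961 .no (.use 886)
  (.hor [.f 961 3 5] []) .no .no .no) .no (.br 1217 (.con 136 [3, 1, 1]) .no (.hor [.f 1217 3 5]
  []) .no .no (.con 136 [3, 1, 1])) (.red [.t 1209 2 3, .f 1090 1 5] 152 136 [1] [(152, 136,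
  [1])]) .no (.red [.f 1089 5 1, .f 1081 1 3] 152 136 [1] [(152, 136, [1])])) .no .no (.red [.f
  961 5 1, .f 954 1 3] 136 136 [] [(136, 136, [])])) .no .no) .no .no (.use 876) .no (.red [.f 952
  5 1, .f 952 1 3] 136 136 [] [(136, 136, [])])) (.con 136 [3]) (.con 136 [3]) .no (.con 136 [3])
  .no)) (.use 345) (.hor [.f 1074 3 5] []) .no (.use 896)) .no (.br 962 (.red [.t 962 1 4] 136 136
  [] [(136, 136, [])]) (.use 877) (.br 1090 (.hor [.f 1090 1 5] []) .no (.red [.f 962 3 1, .t 962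
  1 4] 136 136 [] [(136, 136, []), (137, 136, [3])]) .no .no (.br 960 (.br 1081 (.use 898) .no .no
  (.use 899) .no (.red [.f 952 5 1, .f 952 1 3] 136 136 [] [(136, 136, [])])) (.con 136 [3]) (.con
  136 [3]) .no (.con 136 [3]) .no)) (.con 136 [2]) .no (.br 1090 (.hor [.f 1090 1 5] []) .no (.br
  960 (.br 1081 (.br 1089 (.red [.f 1081 1 3] 152 136 [1] [(152, 136, [1])]) .no (.hor [.f 1089 3
  5] []) .no .no .no) .no (.red [.t 1088 2 4] 136 136 [] [(136, 136, [])]) (.use 899) .no (.red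
  [.f 952 5 1, .f 952 1 3] 136 136 [] [(136, 136, [])])) (.con 136 [3]) (.con 136 [3]) .no .no
  .no) .no .no (.red [.f 961 5 1, .t 962 1 4] 136 136 [] [(136, 136, [])])))

def c11t901 : Tr4 :=
  .br 1074 (.use 96) (.con 136 [4, 4]) .no (.hor [.f 1065 3 5] []) .no .no

def c11t902 : Tr4 :=
  .br 1080 (.con 136 [4, 1]) .no .no (.br 1073 (.use 887) (.red [.t 1072 3 2, .f 952 1 3] 136 136
  [] [(135, 136, [4]), (136, 136, [])]) .no (.use 901) (.red [.f 1073 5 3, .f 1072 3 5, .f 952 5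
  1, .f 952 1 3] 136 136 [] [(136, 136, [])]) .no) .no .no

def c11t903 : Tr4 :=
  .br 1209 (.use 559) .no .no (.br 1210 (.br 1073 .no (.br 954 .no (.br 1072 (.red [.f 1072 1 3,
  .t 1072 3 2] 135 136 [4] [(135, 136, [4]), (151, 136, [4, 1])]) (.hor [.f 944 1 5] []) .no (.br
  946 (.hor [.f 945 1 5] []) (.red [.f 818 1 3] 119 136 [2, 4] [(119, 136, [2, 4])]) .no (.br 1074
  (.red [.t 1201 3 2, .f 1080 1 5] 151 136 [4, 1] [(151, 136, [4, 1])]) .no .no (.red [.f 938 3 1,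
  .f 945 1 5, .f 1073 5 3, .f 1073 3 1] 151 136 [4, 1] [(134, 135, [4]), (151, 136, [4, 1])]) (.br
  1202 (.red [.f 1202 1 3, .f 1201 3 5, .f 1081 5 1, .f 1081 1 3] 152 136 [1] [(152, 136, [1]),
  (167, 151, [1])]) .no .no (.use 634) (.red [.f 1074 5 1, .t 1201 3 2, .f 1081 1 3] 152 136 [1]
  [(151, 136, [4, 1]), (152, 136, [1])]) .no) .no) (.br 1074 (.red [.t 1201 3 2, .f 1080 1 5] 151
  136 [4, 1] [(151, 136, [4, 1])]) .no .no (.br 1075 (.con 136 [4, 4, 1]) .no .no (.hor [.f 1066 3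
  5] []) .no .no) (.red [.f 946 5 1, .f 945 1 5, .f 1073 5 3, .f 1073 3 1] 151 136 [4, 1] [(151,
  136, [4, 1])]) .no) .no) .no .no) .no (.red [.t 945 1 3, .f 954 1 3, .f 954 3 5] 136 136 []
  [(135, 136, [4]), (136, 136, [])]) .no .no) .no (.br 1072 (.red [.f 1072 1 3] 151 136 [4, 1]
  [(151, 136, [4, 1])]) (.br 1074 (.red [.t 1201 3 2, .f 1080 1 5] 151 136 [4, 1] [(151, 136, [4,
  1])]) (.con 136 [4, 4]) .no (.hor [.f 1065 3 5] []) (.con 136 [4, 4]) .no) .no (.hor [.f 1064 3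
  5] []) .no .no) (.red [.f 1073 5 3, .f 1073 3 1, .f 1081 1 3] 152 136 [1] [(151, 136, [4, 1]),
  (152, 136, [1])]) (.red [.t 1208 2 4] 151 136 [4, 1] [(151, 136, [4, 1])])) .no .no (.use 566)
  .no .no) (.hor [.f 1081 5 1, .f 1080 1 5, .f 1082 1 5] []) .no

def c11t904 : Tr4 :=
  .br 1075 (.con 136 [4, 4, 1]) (.br 1065 (.red [.f 1065 1 3, .f 1065 3 5] 150 136 [4, 4, 1]
  [(150, 136, [4, 4, 1])]) .no .no (.br 1202 (.br 936 (.red [.t 1072 3 1, .t 936 1 3, .t 945 1 3]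
  135 136 [4] [(134, 136, [4, 4]), (135, 136, [4]), (151, 135, [1])]) (.hor [.f 808 1 3, .f 936 3
  5] [(118, 120, [4, 4])]) .no (.br 1064 (.br 1193 (.br 1067 (.br 1194 (.red [.f 1194 1 3, .f 1066
  3 1] 150 136 [4, 4, 1] [(150, 136, [4, 4, 1]), (166, 136, [4, 4, 1, 1])]) .no .no (.con 136 [4,
  4, 4, 1, 1]) .no .no) (.con 136 [4, 4, 4, 1]) .no (.con 136 [4, 4, 4, 1]) .no .no) .no .no (.red
  [.f 1057 3 1, .f 1064 1 5] 149 136 [4, 4, 4, 1] [(149, 136, [4, 4, 4, 1])]) (.red [.t 1073 1 4]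
  150 136 [4, 4, 1] [(150, 136, [4, 4, 1])]) .no) .no .no (.hor [.f 1056 3 5] []) .no .no) .no
  .no) .no .no (.red [.f 1066 3 1, .f 1073 1 5] 150 136 [4, 4, 1] [(150, 136, [4, 4, 1])]) (.br
  936 (.red [.t 1072 3 1, .t 936 1 3, .t 945 1 3] 135 136 [4] [(134, 136, [4, 4]), (135, 136,
  [4]), (151, 135, [1])]) (.hor [.f 808 1 3, .f 936 3 5] [(118, 120, [4, 4])]) .no (.br 1064 (.br
  1067 (.red [.t 1066 3 1, .f 1073 1 5] 150 136 [4, 4, 1] [(150, 136, [4, 4, 1])]) (.con 136 [4,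
  4, 4, 1]) .no (.con 136 [4, 4, 4, 1]) .no .no) .no .no (.hor [.f 1056 3 5] []) .no .no) .no .no)
  .no) .no (.red [.t 1072 3 1, .f 1064 5 3, .f 937 3 1, .t 945 1 3] 135 136 [4] [(134, 136, [4,
  4]), (135, 136, [4]), (151, 135, [1])])) .no (.hor [.f 1066 3 5] []) .no .no

def c11t905 : Tr4 :=
  .br 827 .no (.hor [.t 689 1 3, .f 698 1 5] [(103, 136, [2, 2, 4])]) (.con 136 [2, 2]) .no .no
  .no

def c11t906 : Tr4 :=
  .br 698 .no (.hor [.f 569 1 5] []) (.con 136 [2, 4, 2, 2, 3]) (.use 905) (.con 136 [2, 4, 2, 3])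
  .no

def c11t907 : Tr4 :=
  .br 936 (.red [.t 1072 3 1, .t 936 1 3, .t 945 1 3] 135 136 [4] [(134, 136, [4, 4]), (135, 136,
  [4]), (151, 135, [1])]) (.red [.f 808 1 3, .f 936 3 5, .f 944 5 3, .f 944 3 1] 135 136 [4]
  [(118, 134, [2]), (135, 136, [4])]) .no (.br 697 .no (.br 1064 (.br 1066 (.con 136 [4, 4, 4, 1])
  (.br 947 .no (.use 906) .no (.red [.t 1072 3 1, .t 938 1 3, .t 1208 2 4] 134 136 [4, 4] [(134,
  136, [4, 4])]) .no .no) .no (.hor [.f 1057 3 5] []) (.con 136 [4, 4, 4, 1]) .no) .no .no (.hor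
  [.f 1056 3 5] []) .no .no) (.br 1064 (.br 1066 (.con 136 [4, 4, 4, 1]) (.br 947 .no (.br 698 .no
  (.br 939 (.con 136 [4, 4, 4, 1]) (.red [.f 811 1 3, .t 938 1 3] 134 136 [4, 4] [(118, 136, [2,
  4, 4]), (134, 136, [4, 4])]) .no (.br 818 .no (.hor [.f 689 1 5] []) .no (.br 699 (.br 690 .no
  (.hor [.f 562 1 3, .t 689 1 3, .f 698 1 5] [(87, 136, [2, 2, 2, 4]), (103, 136, [2, 2, 4])]) .no
  (.hor [.f 682 3 1, .f 689 1 5] [(102, 104, [4, 4])]) (.br 811 .no (.hor [.t 810 3 2, .f 689 1 5]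
  [(102, 104, [4, 4])]) .no (.hor [.f 803 3 1, .f 811 1 3, .f 810 3 5] [(117, 136, [2, 4, 4, 4]),
  (118, 136, [2, 4, 4])]) .no .no) .no) (.con 136 [2, 4, 2, 3]) (.con 136 [2, 4, 2, 3]) (.con 136
  [2, 4, 2, 3]) .no .no) .no .no) .no .no) (.hor [.f 697 3 5] []) (.use 905) (.con 136 [2, 4, 2,
  3]) .no) .no (.red [.t 1072 3 1, .t 938 1 3, .t 1208 2 4] 134 136 [4, 4] [(134, 136, [4, 4])])
  .no .no) .no (.hor [.f 1057 3 5] []) (.con 136 [4, 4, 4, 1]) .no) .no .no (.hor [.f 1056 3 5]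
  []) .no .no) .no (.red [.f 697 5 1, .f 696 1 5, .f 824 5 1, .f 816 1 3, .f 944 3 1] 135 136 [4]
  [(119, 136, [2, 4]), (135, 136, [4])]) .no) .no .no

def c11t908 : Tr4 :=
  .br 1347 (.br 1339 (.red [.f 1339 1 3] 184 136 [1, 1, 1] [(184, 136, [1, 1, 1])]) .no .no (.br
  1200 (.con 136 [4, 1, 1, 1]) .no .no .no .no .no) .no .no) .no (.br 1345 (.use 113) .no (.con
  136 [1, 3, 1, 1]) .no (.con 136 [1, 3, 1, 1]) .no) (.red [.t 1338 2 3, .t 1217 2 4] 152 136 [1]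
  [(152, 136, [1]), (168, 136, [1, 1])]) .no (.red [.f 1218 5 1, .f 1210 1 3] 168 136 [1, 1]
  [(168, 136, [1, 1])])

def c11t909 : Tr4 :=
  .br 954 .no (.use 873) .no (.br 945 .no (.hor [.f 816 1 5] []) .no (.br 825 .no (.hor [.f 696 1
  5] []) (.br 826 .no (.con 136 [2, 2]) (.hor [.f 825 3 5] []) (.con 136 [2, 2]) (.con 136 [2, 2])
  .no) (.red [.t 816 1 3, .f 944 3 1] 135 136 [4] [(119, 136, [2, 4]), (135, 136, [4])]) (.br 817
  .no (.br 1074 (.hor [.f 1073 1 5] []) .no .no (.use 904) (.br 1065 (.red [.f 1065 1 3] 150 136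
  [4, 4, 1] [(150, 136, [4, 4, 1])]) .no .no (.use 907) (.br 1202 (.br 936 (.red [.t 1072 3 1, .t
  936 1 3, .t 945 1 3] 135 136 [4] [(134, 136, [4, 4]), (135, 136, [4]), (151, 135, [1])]) (.red
  [.f 808 1 3, .f 936 3 5, .f 944 5 3, .f 944 3 1] 135 136 [4] [(118, 134, [2]), (135, 136, [4])])
  .no (.br 1216 (.br 1064 (.br 1337 (.br 1194 (.red [.f 1194 1 3, .t 1201 2 4] 150 136 [4, 4, 1]
  [(150, 136, [4, 4, 1]), (166, 136, [4, 4, 1, 1])]) .no .no (.use 67) (.con 136 [4, 4, 1, 4])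
  (.red [.f 1065 5 1, .f 1065 1 3] 150 136 [4, 4, 1] [(150, 136, [4, 4, 1])])) .no (.red [.t 1344
  2 4, .f 1209 1 5] 168 136 [1, 1] [(168, 136, [1, 1])]) (.use 908) .no (.red [.f 1208 5 1, .f
  1208 1 3] 168 136 [1, 1] [(168, 136, [1, 1])])) .no .no (.red [.f 928 3 1] 133 136 [4, 4, 4]
  [(133, 136, [4, 4, 4])]) .no .no) .no (.con 136 [3, 1, 1]) .no .no .no) .no .no) .no .no (.red
  [.t 1201 2 4] 150 136 [4, 4, 1] [(150, 136, [4, 4, 1])]) (.red [.t 1072 3 1, .f 1074 5 1, .t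
  1201 3 2, .f 946 3 1] 135 136 [4] [(135, 136, [4])]) .no) (.red [.t 1072 3 1, .f 1064 5 3, .f
  937 3 1, .t 945 1 3] 135 136 [4] [(134, 136, [4, 4]), (135, 136, [4]), (151, 135, [1])])) .no)
  .no (.red [.f 809 3 1, .f 816 1 5, .f 944 5 3, .f 944 3 1] 135 136 [4] [(118, 134, [2]), (135,
  136, [4])]) (.red [.f 817 5 3, .t 816 1 3, .f 944 3 1] 135 136 [4] [(119, 136, [2, 4]), (135,
  136, [4])]) .no) .no) .no .no) .no .no

def c11l38 : List Tr4 :=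
  [c11t896, c11t897, c11t898, c11t899, c11t900, c11t901, c11t902, c11t903, c11t904, c11t905,
  c11t906, c11t907, c11t908, c11t909]

theorem c11k38 : chkLF ⟨4, 1, 0, true, -8⟩ true 0 c11N 896 c11l38 = true := by decide +kernel

def c11t910 : Tr4 :=
  .br 1097 (.br 1096 (.hor [.f 1096 1 5] []) (.con 136 [3, 3, 1]) (.con 136 [3, 3, 1]) .no .no
  .no) .no (.hor [.f 1097 3 5] []) .no .no (.red [.t 960 1 3, .f 952 5 3, .t 961 4 1] 136 136 []
  [(136, 136, []), (137, 121, [1])])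

def c11t911 : Tr4 :=
  .br 961 .no (.red [.t 832 4 1, .t 961 4 1] 136 136 [] [(120, 136, [2]), (136, 136, [])]) (.use
  910) .no .no .no

def c11t912 : Tr4 :=
  .br 946 (.con 136 [4, 2, 4]) (.hor [.f 817 1 5] []) (.use 894) (.con 136 [4, 2, 4]) (.con 136
  [4, 2, 4]) .no

def c11t913 : Tr4 :=
  .br 826 (.br 825 .no (.hor [.f 696 1 5] []) .no (.red [.t 825 4 1] 119 136 [4, 2] [(119, 136,
  [4, 2])]) .no .no) (.con 136 [4, 2, 3]) (.con 136 [4, 2, 3]) (.con 136 [4, 2, 3]) (.con 136 [4,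
  2, 3]) (.con 136 [4, 2, 3])

def c11t914 : Tr4 :=
  .br 945 .no (.use 912) .no (.hor [.f 936 3 5] []) (.use 913) .no

def c11t915 : Tr4 :=
  .br 954 .no (.use 166) .no (.use 895) .no .no

def c11t916 : Tr4 :=
  .br 826 (.br 825 .no (.br 817 .no (.red [.f 689 1 3] 103 136 [2, 2, 4] [(103, 136, [2, 2, 4])])
  .no (.br 827 .no (.con 136 [2, 2, 4]) (.con 136 [2, 2]) (.br 818 .no (.con 136 [2, 2, 4, 4]) .no
  (.hor [.f 809 3 5] []) .no .no) .no .no) (.red [.f 817 5 1, .f 818 1 3] 119 136 [2, 4] [(119,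
  136, [2, 4])]) .no) .no (.hor [.f 816 3 5] []) .no .no) (.con 136 [4, 2, 3]) (.con 136 [4, 2,
  3]) (.con 136 [4, 2, 3]) (.con 136 [4, 2, 3]) (.con 136 [4, 2, 3])

def c11t917 : Tr4 :=
  .br 945 .no (.use 915) .no (.use 885) (.use 916) .no

def c11t918 : Tr4 :=
  .br 946 (.con 136 [4, 2, 3]) (.con 136 [4, 2, 3]) (.red [.f 937 3 1, .t 945 1 3] 135 136 [4]
  [(134, 136, [4, 4]), (135, 136, [4])]) (.con 136 [4, 2, 3]) (.con 136 [4, 2, 3]) .no

def c11t919 : Tr4 :=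
  .br 825 .no (.hor [.f 696 1 5] []) .no (.red [.t 816 1 3, .f 944 3 1] 135 136 [4] [(119, 136,
  [4, 2]), (135, 136, [4])]) (.br 945 .no (.hor [.f 816 1 5] []) .no (.use 918) (.con 136 [4, 2,
  3]) .no) .no

def c11t920 : Tr4 :=
  .br 944 .no (.use 919) .no (.br 945 .no (.use 912) .no (.hor [.f 936 3 5] []) (.use 913) .no)
  (.red [.f 944 5 3, .f 944 3 1, .f 952 1 3] 136 136 [] [(135, 136, [4]), (136, 136, [])]) .no

def c11t921 : Tr4 :=
  .br 944 .no .no .no (.br 945 .no (.use 915) .no (.use 885) (.use 916) .no) (.red [.f 944 5 3, .f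
  944 3 1, .f 952 1 3] 136 136 [] [(135, 136, [4]), (136, 136, [])]) .no

def c11t922 : Tr4 :=
  .br 1218 (.br 1083 (.use 138) .no .no (.use 902) .no .no) .no (.use 61) (.red [.t 1217 2 4] 152
  136 [1] [(152, 136, [1])]) (.br 1083 (.br 1080 (.use 903) .no .no (.br 1073 (.br 1210 (.br 1208
  (.use 239) .no (.use 75) (.use 62) (.br 1098 (.use 74) (.hor [.f 962 1 3, .f 1090 3 5] [(137,
  136, [3])]) (.br 944 .no (.br 824 .no (.use 909) (.use 911) .no (.red [.f 824 5 1, .f 816 1 3,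
  .f 944 3 1, .f 952 1 3] 136 136 [] [(119, 136, [2, 4]), (135, 136, [4]), (136, 136, [])]) .no)
  .no (.br 961 .no (.br 824 .no (.use 914) (.use 911) (.use 917) (.red [.f 824 5 1, .f 825 1 3, .t
  961 4 1] 136 136 [] [(120, 136, [2]), (136, 136, [])]) .no) (.use 910) .no .no .no) (.red [.f
  944 5 3, .f 944 3 1, .f 952 1 3] 136 136 [] [(135, 136, [4]), (136, 136, [])]) .no) .no .no (.br
  961 .no (.br 824 .no (.br 944 .no (.use 909) .no (.use 914) (.red [.f 944 5 3, .f 944 3 1, .f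
  952 1 3] 136 136 [] [(135, 136, [4]), (136, 136, [])]) .no) (.red [.t 832 4 1, .t 961 4 1] 136
  136 [] [(120, 136, [2]), (136, 136, [])]) (.br 944 .no .no .no (.use 917) (.red [.f 944 5 3, .f
  944 3 1, .f 952 1 3] 136 136 [] [(135, 136, [4]), (136, 136, [])]) .no) (.red [.f 824 5 1, .f
  825 1 3, .t 961 4 1] 136 136 [] [(120, 136, [2]), (136, 136, [])]) .no) (.hor [.t 961 3 1, .f
  1090 3 5] [(137, 121, [1])]) .no .no .no)) .no) .no .no (.red [.t 1201 2 3, .f 1072 3 5, .f 952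
  5 1, .f 952 1 3] 136 136 [] [(136, 136, []), (151, 135, [1])]) .no (.red [.f 1081 5 1, .f 1081 1
  3] 152 136 [1] [(152, 136, [1])])) (.red [.t 1072 3 2, .f 952 1 3] 136 136 [] [(135, 136, [4]),
  (136, 136, [])]) .no (.br 1098 (.red [.t 1098 1 4, .f 1083 1 3] 152 136 [1] [(152, 136, [1]),
  (153, 136, [3, 1])]) (.hor [.f 962 1 3, .f 1090 3 5] [(137, 136, [3])]) (.br 961 .no (.br 824
  .no (.use 920) (.use 911) (.use 921) (.red [.f 824 5 1, .f 825 1 3, .t 961 4 1] 136 136 []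
  [(120, 136, [2]), (136, 136, [])]) .no) (.use 910) .no .no .no) .no .no (.br 961 .no (.br 824
  .no (.use 920) (.red [.t 832 4 1, .t 961 4 1] 136 136 [] [(120, 136, [2]), (136, 136, [])])
  (.use 921) (.red [.f 824 5 1, .f 825 1 3, .t 961 4 1] 136 136 [] [(120, 136, [2]), (136, 136,
  [])]) .no) (.hor [.t 961 3 1, .f 1090 3 5] [(137, 121, [1])]) .no .no .no)) (.red [.f 1073 5 3,
  .f 1072 3 5, .f 952 5 1, .f 952 1 3] 136 136 [] [(136, 136, [])]) .no) .no .no) .no .no (.use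
  902) .no .no) .no

def c11t923 : Tr4 :=
  .br 1080 (.con 136 [4, 1]) .no .no (.br 1073 (.use 887) (.red [.t 1072 3 2] 135 136 [4] [(135,
  136, [4])]) .no (.use 901) (.red [.f 1073 5 3, .f 1074 3 5, .t 962 1 4] 136 136 [] [(136, 136,
  [])]) .no) .no .no

def c11t924 : Tr4 :=
  .br 1083 (.use 138) .no .no (.use 923) .no .no

def c11t925 : Tr4 :=
  .br 945 (.red [.t 1072 3 2] 135 136 [4] [(135, 136, [4])]) (.use 912) .no (.hor [.f 936 3 5] [])
  (.use 913) .no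

def c11t926 : Tr4 :=
  .br 944 .no (.br 825 .no (.hor [.f 696 1 5] []) .no (.red [.t 816 1 3, .f 944 3 1] 135 136 [4]
  [(119, 136, [2, 4]), (135, 136, [4])]) (.br 945 (.red [.t 1072 3 2] 135 136 [4] [(135, 136,
  [4])]) (.hor [.f 816 1 5] []) .no (.br 946 (.con 136 [4, 2, 3]) (.con 136 [4, 2, 3]) (.br 1073
  (.br 1208 (.use 239) .no (.use 75) (.use 62) (.br 817 .no (.br 1074 (.hor [.f 1073 1 5] []) .no
  .no (.use 904) (.br 1216 (.br 1065 (.red [.f 1065 1 3] 150 136 [4, 4, 1] [(150, 136, [4, 4,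
  1])]) .no .no (.use 907) (.br 1202 (.br 936 (.red [.t 1072 3 1, .t 936 1 3, .t 945 1 3] 135 136
  [4] [(134, 136, [4, 4]), (135, 136, [4]), (151, 135, [1])]) (.red [.f 808 1 3, .f 936 3 5, .f
  944 5 3, .f 944 3 1] 135 136 [4] [(118, 134, [2]), (135, 136, [4])]) .no (.br 697 .no (.br 947
  .no (.use 906) .no (.br 1064 (.br 1337 (.br 827 .no (.br 698 .no (.hor [.f 569 1 5] []) (.con
  136 [2, 2, 2]) (.hor [.t 689 1 3, .f 698 1 5] [(103, 136, [2, 2, 4])]) .no .no) (.con 136 [2,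
  2]) (.br 1194 (.red [.f 1194 1 3, .t 1201 2 4] 150 136 [4, 4, 1] [(150, 136, [4, 4, 1]), (166,
  136, [4, 4, 1, 1])]) .no .no (.use 67) (.con 136 [4, 4, 1, 4]) (.red [.f 1065 5 1, .f 1065 1 3]
  150 136 [4, 4, 1] [(150, 136, [4, 4, 1])])) .no .no) .no (.red [.t 1344 2 4, .f 1209 1 5] 168
  136 [1, 1] [(168, 136, [1, 1])]) (.use 908) .no (.red [.f 1208 5 1, .f 1208 1 3] 168 136 [1, 1]
  [(168, 136, [1, 1])])) .no .no (.red [.f 928 3 1] 133 136 [4, 4, 4] [(133, 136, [4, 4, 4])]) .no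
  .no) .no .no) (.hor [.f 696 1 3, .f 696 3 5] [(104, 136, [2, 2])]) .no (.red [.f 697 5 1, .f 696
  1 5, .f 824 5 1, .f 816 1 3, .f 944 3 1] 135 136 [4] [(119, 136, [2, 4]), (135, 136, [4])]) .no)
  .no .no) .no .no (.red [.t 1201 2 4] 150 136 [4, 4, 1] [(150, 136, [4, 4, 1])]) (.red [.t 1072 3
  1, .f 1074 5 1, .t 1201 3 2, .f 946 3 1] 135 136 [4] [(135, 136, [4])]) .no) (.red [.t 1072 3 1,
  .f 1064 5 3, .f 937 3 1, .t 945 1 3] 135 136 [4] [(134, 136, [4, 4]), (135, 136, [4]), (151,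
  135, [1])])) .no (.con 136 [3, 1, 1]) .no .no .no) .no) .no (.red [.f 809 3 1, .f 816 1 5, .f
  944 5 3, .f 944 3 1] 135 136 [4] [(118, 134, [2]), (135, 136, [4])]) (.red [.f 817 5 3, .t 816 1
  3, .f 944 3 1] 135 136 [4] [(119, 136, [2, 4]), (135, 136, [4])]) .no) .no) .no .no (.use 918)
  (.red [.f 1073 5 3, .f 946 3 1, .f 954 1 3] 136 136 [] [(135, 136, [4]), (136, 136, [])]) .no)
  (.con 136 [4, 2, 3]) (.con 136 [4, 2, 3]) .no) (.con 136 [4, 2, 3]) .no) .no) .no (.use 925)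
  (.red [.f 944 5 3, .f 944 3 1] 135 136 [4] [(135, 136, [4])]) .no

def c11t927 : Tr4 :=
  .br 1210 (.br 1209 (.hor [.f 1209 1 5] []) .no .no .no .no .no) .no (.red [.t 1200 3 2, .f 1073
  3 5, .t 1217 2 4] 152 136 [1] [(151, 135, [1]), (152, 136, [1])]) (.con 136 [4, 1, 1]) .no (.red
  [.t 1073 1 3, .f 1082 1 5, .t 962 1 4] 136 136 [] [(136, 136, []), (151, 135, [1])])

def c11t928 : Tr4 :=
  .br 1073 (.use 927) .no .no (.use 500) .no (.red [.f 1072 5 3, .f 944 5 3, .f 944 3 1] 135 136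
  [4] [(135, 136, [4])])

def c11t929 : Tr4 :=
  .br 1081 (.red [.f 1081 1 3] 152 136 [1] [(152, 136, [1])]) .no .no (.use 37) (.br 960 (.use
  922) (.use 871) (.br 1088 (.con 136 [3, 1]) .no (.br 961 .no (.br 824 .no (.br 1218 (.use 924)
  .no (.use 61) (.red [.t 1217 2 4] 152 136 [1] [(152, 136, [1])]) (.br 1083 (.br 1080 (.use 903)
  .no .no (.br 832 .no (.br 1210 (.use 926) .no .no (.br 944 .no (.br 1073 (.red [.t 1201 2 3, .f
  1082 1 5, .t 962 1 4] 136 136 [] [(136, 136, []), (151, 135, [1])]) (.red [.t 1072 3 2] 135 136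
  [4] [(135, 136, [4])]) .no (.use 919) (.br 954 .no (.use 873) .no (.red [.f 1073 5 3, .f 946 3
  1, .f 954 1 3] 136 136 [] [(135, 136, [4]), (136, 136, [])]) .no .no) .no) .no (.use 925) (.red
  [.f 944 5 3, .f 944 3 1] 135 136 [4] [(135, 136, [4])]) .no) .no (.red [.f 1081 5 1, .f 1081 1
  3] 152 136 [1] [(152, 136, [1])])) (.hor [.f 832 3 1, .f 832 1 5] [(121, 120, [3])]) .no .no
  .no) .no .no) .no .no (.use 923) .no .no) .no) (.red [.f 960 3 1, .t 832 4 1, .t 961 4 1] 136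
  136 [] [(120, 136, [2]), (136, 136, []), (137, 136, [3])]) (.br 1218 (.use 924) .no (.use 61)
  (.red [.t 1217 2 4] 152 136 [1] [(152, 136, [1])]) (.br 1083 (.br 1080 (.use 903) .no .no (.br
  944 .no .no .no (.br 945 (.red [.t 1072 3 2] 135 136 [4] [(135, 136, [4])]) (.use 915) .no (.use
  885) (.use 916) .no) (.red [.f 944 5 3, .f 944 3 1] 135 136 [4] [(135, 136, [4])]) .no) .no .no)
  .no .no (.use 923) .no .no) .no) (.red [.f 824 5 1, .f 825 1 3, .t 961 4 1] 136 136 [] [(120,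
  136, [2]), (136, 136, [])]) .no) (.hor [.f 960 3 5] []) .no .no .no) (.con 136 [1]) .no .no) .no
  (.red [.f 952 5 3, .t 961 4 1] 136 136 [] [(136, 136, [])]) .no) (.br 1082 (.use 497) (.use 543)
  .no (.br 954 .no (.br 1083 (.br 1088 (.con 136 [3, 1]) (.red [.f 952 5 1, .f 952 1 3] 136 136 []
  [(136, 136, [])]) (.br 960 .no (.use 871) (.red [.f 960 3 1, .f 952 5 1, .f 952 1 3] 136 136 []
  [(136, 136, []), (137, 136, [3])]) .no (.br 1208 (.use 498) .no (.red [.t 1216 4 2] 152 136 [1]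
  [(152, 136, [1])]) (.br 946 .no (.red [.f 818 1 3] 119 136 [2, 4] [(119, 136, [2, 4])]) .no (.br
  945 (.red [.f 952 5 3, .f 952 3 5, .f 952 5 1, .f 945 1 3] 135 136 [4] [(135, 136, [4])]) (.br
  944 (.con 136 [2, 4, 4]) (.hor [.f 816 1 5] []) .no (.con 136 [2, 4, 4]) .no .no) .no (.hor [.f
  937 3 5] []) .no (.use 928)) (.br 1075 (.red [.f 1075 1 3, .f 1074 3 5, .f 946 5 1, .t 962 1 4,
  .f 947 1 3] 136 136 [] [(135, 136, [4]), (136, 136, []), (151, 135, [1])]) .no .no (.br 1073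
  (.use 927) (.red [.f 952 5 3, .f 952 3 5, .f 952 5 1, .f 945 1 3] 135 136 [4] [(135, 136, [4])])
  .no (.br 945 .no (.br 944 (.con 136 [4, 4]) (.hor [.f 816 1 5] []) .no (.con 136 [2, 4, 4]) .no
  .no) .no (.red [.f 937 3 1] 134 136 [4, 4] [(134, 136, [4, 4])]) .no (.use 500)) .no (.br 944
  .no (.br 824 .no (.br 825 .no (.hor [.f 696 1 5] []) (.con 136 [2, 2]) (.red [.t 816 1 3, .f 825
  1 5] 119 136 [2, 4] [(119, 136, [2, 4])]) .no .no) (.red [.f 952 5 3, .f 824 3 1, .f 816 1 3]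
  119 136 [2, 4] [(119, 136, [2, 4]), (120, 136, [2])]) .no (.red [.f 824 5 1, .f 816 1 3] 119 136
  [2, 4] [(119, 136, [2, 4])]) .no) .no (.br 945 .no (.con 136 [2, 4, 4]) .no (.hor [.f 936 3 5]
  []) .no .no) (.use 928) .no)) .no .no) (.red [.f 952 5 1, .t 1081 2 4] 135 136 [4] [(135, 136,
  [4])])) (.red [.f 1080 5 1, .f 1081 1 3] 152 136 [1] [(152, 136, [1])]) .no) .no) .no .no .no)
  .no .no (.hor [.f 1074 3 5] []) .no .no) .no (.red [.f 952 5 1, .f 946 3 1] 135 136 [4] [(135,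
  136, [4])]) .no .no) (.red [.t 962 1 4] 136 136 [] [(136, 136, [])]) .no)

def c11t930 : Tr4 :=
  .br 1083 (.br 1210 (.use 193) .no (.red [.t 1217 2 4, .f 1082 1 5] 152 136 [1] [(152, 136,
  [1])]) (.red [.t 1201 2 3, .f 1072 3 5, .f 952 5 1, .f 952 1 3] 136 136 [] [(136, 136, []),
  (151, 135, [1])]) .no (.red [.f 1081 5 1, .f 1081 1 3] 152 136 [1] [(152, 136, [1])])) .no .no
  (.use 887) .no .no

def c11l39 : List Tr4 :=
  [c11t910, c11t911, c11t912, c11t913, c11t914, c11t915, c11t916, c11t917, c11t918, c11t919,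
  c11t920, c11t921, c11t922, c11t923, c11t924, c11t925, c11t926, c11t927, c11t928, c11t929,
  c11t930]

theorem c11k39 : chkLF ⟨4, 1, 0, true, -8⟩ true 0 c11N 910 c11l39 = true := by decide +kernel

def c11t931 : Tr4 :=
  .br 1209 (.br 1208 (.hor [.f 1208 1 5] []) .no (.br 1074 .no .no .no (.hor [.f 1065 3 5] [])
  (.br 1201 (.red [.f 1201 1 3, .f 1201 3 5] 167 136 [4, 1, 1] [(167, 136, [4, 1, 1])]) .no .no
  (.br 1219 (.hor [.f 1218 1 5] []) .no (.use 217) .no .no .no) .no (.br 1219 (.hor [.f 1218 1 5]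
  []) .no (.br 1347 (.br 1338 (.use 215) .no .no (.red [.f 1202 3 1, .f 1209 1 5] 167 136 [4, 1,
  1] [(167, 136, [4, 1, 1])]) (.br 1203 (.red [.t 1202 3 1, .f 1209 1 5] 167 136 [4, 1, 1] [(167,
  136, [4, 1, 1])]) .no .no (.br 1331 (.use 218) .no .no (.red [.f 1195 3 1, .t 1202 3 1, .f 1210
  1 3] 167 136 [4, 1, 1] [(166, 136, [4, 4, 1, 1]), (167, 136, [4, 1, 1]), (168, 136, [1, 1])])
  .no (.red [.f 1330 5 3, .f 1202 3 1, .f 1210 1 3] 167 136 [4, 1, 1] [(167, 136, [4, 1, 1]),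
  (168, 136, [1, 1])])) .no .no) .no) .no (.hor [.f 1219 3 1, .f 1218 1 5] [(169, 153, [1])])
  (.red [.t 1210 4 2, .t 1346 2 4, .t 1217 2 4] 152 136 [1] [(151, 135, [1]), (152, 136, [1]),
  (168, 136, [1, 1])]) .no .no) .no .no .no)) .no) (.con 136 [4, 1, 1]) .no .no) .no .no (.hor [.f
  1201 3 5] []) .no (.br 1074 .no .no .no (.hor [.f 1065 3 5] []) (.br 1201 (.br 1219 (.hor [.f
  1218 1 5] []) .no (.use 216) .no .no .no) .no .no (.br 1219 (.hor [.f 1218 1 5] []) .no (.use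
  221) .no .no .no) .no (.red [.f 1200 5 3, .f 1201 3 5, .f 1081 5 1, .f 1081 1 3] 152 136 [1]
  [(152, 136, [1])])) .no)

def c11t932 : Tr4 :=
  .br 1210 (.use 193) .no .no (.br 945 .no (.br 946 (.con 136 [4, 2, 4]) (.hor [.f 817 1 5] [])
  (.use 931) (.con 136 [4, 2, 4]) (.con 136 [4, 2, 4]) .no) .no (.hor [.f 936 3 5] []) (.br 826
  (.br 834 .no (.br 835 .no (.hor [.f 706 1 5] []) (.br 1219 (.hor [.f 1218 1 5] []) .no (.br 1099
  .no (.red [.t 970 4 1, .f 1091 3 1, .f 1083 1 3] 152 136 [1] [(137, 136, [3]), (152, 136, [1]),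
  (153, 136, [3, 1])]) (.br 1098 (.use 205) .no (.hor [.f 1098 3 5] []) .no .no (.br 971 .no .no
  (.red [.f 971 3 1, .t 970 4 1, .f 1091 3 1, .f 1083 1 3] 152 136 [1] [(137, 136, [3]), (138,
  136, [3, 3]), (152, 136, [1]), (153, 136, [3, 1])]) .no .no .no)) .no .no (.red [.f 1090 5 3, .f
  1091 3 1, .f 1083 1 3] 152 136 [1] [(152, 136, [1]), (153, 136, [3, 1])])) .no .no .no) (.br 824
  .no (.con 136 [2, 2]) (.br 825 .no (.br 1074 .no .no .no (.hor [.f 1065 3 5] []) (.br 938 (.red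
  [.t 1065 3 2, .t 1072 3 2] 135 136 [4] [(134, 136, [4, 4]), (135, 136, [4])]) (.use 897) .no
  (.br 1066 (.red [.t 1210 4 2, .f 1066 1 3, .f 1065 3 5, .f 945 5 1, .t 1072 3 2] 135 136 [4]
  [(135, 136, [4]), (150, 134, [1]), (151, 135, [1])]) .no .no (.red [.f 930 3 1] 133 136 [4, 4,
  4] [(133, 136, [4, 4, 4])]) (.br 947 .no (.con 136 [2, 4, 4]) .no (.red [.f 1066 5 3, .f 939 3
  1] 134 136 [4, 4] [(134, 136, [4, 4])]) .no .no) .no) (.con 136 [4, 4, 2]) (.red [.f 937 5 3, .f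
  937 3 1, .t 1072 3 2] 135 136 [4] [(134, 136, [4, 4]), (135, 136, [4])])) .no) .no (.red [.t 825
  4 1] 119 136 [2, 4] [(119, 136, [2, 4])]) .no .no) (.con 136 [2, 2]) (.con 136 [2, 2]) .no) .no
  .no) (.hor [.f 834 3 1, .f 833 1 5] [(121, 120, [3])]) .no (.br 1219 (.hor [.f 1218 1 5] []) .no
  (.br 1099 .no (.red [.t 970 4 1, .f 1091 3 1, .f 1083 1 3] 152 136 [1] [(137, 136, [3]), (152,
  136, [1]), (153, 136, [3, 1])]) (.br 1098 (.use 205) .no (.hor [.f 1098 3 5] []) .no .no (.br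
  971 .no (.hor [.t 970 4 2, .f 833 1 5] [(121, 120, [3])]) (.red [.f 971 3 1, .t 970 4 1, .f 1091
  3 1, .f 1083 1 3] 152 136 [1] [(137, 136, [3]), (138, 136, [3, 3]), (152, 136, [1]), (153, 136,
  [3, 1])]) .no .no .no)) .no .no (.red [.f 1090 5 3, .f 1091 3 1, .f 1083 1 3] 152 136 [1] [(152,
  136, [1]), (153, 136, [3, 1])])) .no .no .no) .no) (.con 136 [4, 2, 3]) (.con 136 [4, 2, 3])
  (.con 136 [4, 2, 3]) (.con 136 [4, 2, 3]) (.con 136 [4, 2, 3])) .no) .no (.red [.f 1081 5 1, .f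
  1081 1 3] 152 136 [1] [(152, 136, [1])])

def c11t933 : Tr4 :=
  .br 1074 (.br 1210 (.use 197) .no (.red [.t 1217 2 4] 152 136 [1] [(152, 136, [1])]) .no (.red
  [.t 1074 1 3] 151 136 [4, 1] [(151, 136, [4, 1])]) (.red [.f 1081 5 1, .f 1081 1 3] 152 136 [1]
  [(152, 136, [1])])) (.con 136 [4, 4]) .no (.hor [.f 1065 3 5] []) .no .no

def c11t934 : Tr4 :=
  .br 947 .no (.br 939 .no (.red [.f 811 1 3] 118 136 [2, 4, 4] [(118, 136, [2, 4, 4])]) .no (.hor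
  [.f 930 3 5] []) .no .no) .no (.red [.f 1066 5 3, .f 939 3 1] 134 136 [4, 4] [(134, 136, [4,
  4])]) .no .no

def c11t935 : Tr4 :=
  .br 962 .no (.use 877) (.br 1073 (.use 930) (.red [.t 1072 3 2, .f 952 1 3] 136 136 [] [(135,
  136, [4]), (136, 136, [])]) .no (.br 961 .no (.br 944 .no (.br 824 .no (.use 919) (.red [.t 832
  4 1, .f 816 1 3, .f 944 3 1] 135 136 [4] [(119, 136, [2, 4]), (120, 136, [2]), (135, 136, [4])])
  .no (.red [.f 824 5 1, .f 816 1 3, .f 944 3 1, .f 952 1 3] 136 136 [] [(119, 136, [2, 4]), (135,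
  136, [4]), (136, 136, [])]) .no) .no (.br 1083 (.br 1218 (.use 932) .no (.use 192) (.red [.t
  1217 2 4, .f 1082 1 5] 152 136 [1] [(152, 136, [1])]) (.red [.f 1090 5 1, .f 1083 1 3] 152 136
  [1] [(152, 136, [1])]) .no) .no .no (.use 933) .no .no) (.red [.f 944 5 3, .f 944 3 1, .f 952 1
  3] 136 136 [] [(135, 136, [4]), (136, 136, [])]) .no) (.hor [.f 961 3 5] []) .no .no .no) (.red
  [.f 1073 5 3, .f 1072 3 5, .f 952 5 1, .f 952 1 3] 136 136 [] [(136, 136, [])]) .no) (.con 136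
  [2]) .no (.br 1073 (.use 930) (.red [.t 1072 3 2, .f 952 1 3] 136 136 [] [(135, 136, [4]), (136,
  136, [])]) .no (.br 1083 (.br 1218 (.br 1210 (.use 193) .no .no (.br 954 .no (.br 1074 .no (.br
  1075 (.con 136 [4, 4]) (.hor [.f 946 1 5] []) .no (.con 136 [4, 4]) .no .no) .no (.hor [.f 1065
  3 5] []) (.br 945 .no (.br 944 .no (.hor [.f 816 1 5] []) .no (.use 166) .no .no) .no (.red [.f
  937 3 1] 134 136 [4, 4] [(134, 136, [4, 4])]) (.br 944 .no (.br 824 .no (.use 873) (.br 825 .no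
  (.br 817 .no (.red [.f 689 1 3, .t 816 1 3] 119 136 [2, 4] [(103, 136, [2, 2, 4]), (119, 136,
  [2, 4])]) .no (.br 938 (.red [.t 1065 3 2, .t 1072 3 2] 135 136 [4] [(134, 136, [4, 4]), (135,
  136, [4])]) (.red [.t 809 3 1, .f 816 1 5, .f 944 5 3, .f 944 3 1] 135 136 [4] [(118, 102, [1]),
  (135, 136, [4])]) .no (.br 1066 (.red [.t 1210 4 2, .f 1066 1 3, .f 1065 3 5, .f 945 5 1, .t
  1072 3 2] 135 136 [4] [(135, 136, [4]), (150, 134, [1]), (151, 135, [1])]) .no .no (.br 937 .no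
  .no .no (.hor [.f 929 3 5] []) .no (.red [.f 930 3 1] 133 136 [4, 4, 4] [(133, 136, [4, 4,
  4])])) (.use 934) .no) (.br 818 .no (.con 136 [4, 4, 2, 2]) .no (.hor [.f 809 3 5] []) (.con 136
  [4, 4, 2, 2]) .no) (.red [.f 937 5 3, .f 937 3 1, .t 1072 3 2] 135 136 [4] [(134, 136, [4, 4]),
  (135, 136, [4])])) (.red [.f 817 5 1, .f 818 1 3] 119 136 [2, 4] [(119, 136, [2, 4])]) .no)
  (.hor [.f 824 3 5] []) (.red [.t 825 4 1, .f 816 1 5] 119 136 [2, 4] [(119, 136, [2, 4])]) .no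
  .no) .no (.red [.f 824 5 1, .f 816 1 3] 119 136 [2, 4] [(119, 136, [2, 4])]) .no) .no (.br 938
  (.red [.t 1065 3 2, .t 1072 3 2] 135 136 [4] [(134, 136, [4, 4]), (135, 136, [4])]) (.use 897)
  .no (.br 1066 (.red [.t 1210 4 2, .f 1066 1 3, .f 1065 3 5, .f 945 5 1, .t 1072 3 2] 135 136 [4]
  [(135, 136, [4]), (150, 134, [1]), (151, 135, [1])]) .no .no (.red [.f 930 3 1] 133 136 [4, 4,
  4] [(133, 136, [4, 4, 4])]) (.use 934) .no) (.con 136 [4, 4, 2]) (.red [.f 937 5 3, .f 937 3 1,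
  .t 1072 3 2] 135 136 [4] [(134, 136, [4, 4]), (135, 136, [4])])) .no .no) (.red [.f 944 5 3, .f
  944 3 1, .f 952 1 3] 136 136 [] [(135, 136, [4]), (136, 136, [])])) .no) .no (.use 931) .no .no)
  .no (.red [.f 1081 5 1, .f 1081 1 3] 152 136 [1] [(152, 136, [1])])) .no (.use 192) (.red [.t
  1217 2 4, .f 1082 1 5] 152 136 [1] [(152, 136, [1])]) (.red [.f 1090 5 1, .f 1083 1 3] 152 136
  [1] [(152, 136, [1])]) .no) .no .no (.use 933) .no .no) (.red [.f 1073 5 3, .f 1072 3 5, .f 952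
  5 1, .f 952 1 3] 136 136 [] [(136, 136, [])]) .no)

def c11t936 : Tr4 :=
  .br 952 (.br 960 (.red [.f 952 1 3] 136 136 [] [(136, 136, [])]) (.br 962 (.br 961 (.con 136
  [3]) (.hor [.f 832 1 5] []) (.con 136 [3, 2]) (.br 1081 (.br 1089 (.red [.f 1081 1 3, .f 953 3
  1] 136 136 [] [(136, 136, []), (152, 136, [1])]) .no (.use 0) .no .no (.red [.t 952 1 3, .f 961
  1 5] 136 136 [] [(136, 136, [])])) .no (.red [.f 953 3 1, .f 952 1 5] 136 136 [] [(136, 136,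
  [])]) (.br 1089 (.br 1088 (.hor [.f 1088 1 5] []) .no (.use 26) .no .no .no) .no (.use 0) .no
  .no (.red [.t 952 1 3, .f 961 1 5] 136 136 [] [(136, 136, [])])) (.red [.t 961 4 1, .f 952 1 5]
  136 136 [] [(136, 136, [])]) .no) .no .no) (.con 136 [3]) (.con 136 [3]) (.con 136 [3]) (.con
  136 [3]) (.con 136 [3])) (.use 35) .no (.br 962 (.br 1089 (.br 1088 (.hor [.f 1088 1 5] []) .no
  (.br 955 (.con 136 [2]) (.con 136 [2]) (.use 146) (.con 136 [2]) .no (.con 136 [2])) .no .no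
  .no) .no (.br 1088 (.con 136 [3, 1]) .no (.hor [.f 1088 3 5] []) .no .no .no) (.red [.t 1080 2
  3, .f 961 1 5] 136 136 [] [(136, 136, [])]) .no (.red [.f 960 5 1, .f 952 1 3] 136 136 [] [(136,
  136, [])])) (.con 136 [3]) (.con 136 [3]) (.con 136 [2]) (.con 136 [2]) .no) .no) (.use 541)
  (.br 953 (.con 136 [2]) (.con 136 [2]) (.hor [.f 952 3 5] []) (.con 136 [2]) (.con 136 [2]) .no)
  (.use 870) (.br 955 (.con 136 [2]) (.con 136 [2]) (.br 1091 (.use 900) .no (.br 1089 (.br 1090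
  (.con 136 [1, 3]) (.use 929) (.hor [.f 1090 3 5] []) (.con 136 [1]) .no .no) (.con 136 [1, 3])
  (.con 136 [1, 3]) (.br 960 (.red [.t 1088 2 4] 136 136 [] [(136, 136, [])]) (.use 871) (.br 1088
  (.con 136 [1, 3]) .no (.red [.f 960 3 1, .t 1088 2 4] 136 136 [] [(136, 136, []), (137, 136,
  [3])]) (.con 136 [1, 3]) .no .no) .no (.red [.f 952 5 3, .f 953 3 1] 136 136 [] [(136, 136,
  [])]) .no) (.con 136 [1, 3]) (.con 136 [1, 3])) (.red [.f 955 3 1] 136 136 [] [(136, 136, [])])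
  .no (.br 960 (.br 1089 (.br 1081 (.red [.f 1081 1 3] 152 136 [1] [(152, 136, [1])]) .no .no (.br
  1082 (.br 1080 (.con 136 [4, 1]) .no .no (.hor [.f 1072 3 5] []) .no .no) (.red [.t 954 1 3] 136
  136 [] [(136, 136, [])]) .no (.hor [.f 1073 3 5] []) (.use 899) .no) (.br 1080 (.use 569) .no
  .no (.use 935) .no .no) (.red [.f 952 5 1, .f 952 1 3] 136 136 [] [(136, 136, [])])) (.con 136
  [3]) (.con 136 [3, 1]) (.red [.t 1088 2 4] 136 136 [] [(136, 136, [])]) .no .no) (.con 136 [3])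
  (.con 136 [3]) .no (.con 136 [3]) .no)) (.con 136 [2]) .no (.con 136 [2])) .no

def c11l40 : List Tr4 :=
  [c11t931, c11t932, c11t933, c11t934, c11t935, c11t936]

theorem c11k40 : chkLF ⟨4, 1, 0, true, -8⟩ true 0 c11N 931 c11l40 = true := by decide +kernel

end Pool.Agent.FT4D
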