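import Pool.Agent.FT4D.ChainF4
import Pool.Agent.FT4D.Tr_c11_0
import Pool.Agent.FT4D.Tr_c11_1
import Pool.Agent.FT4D.Tr_c11_2
import Pool.Agent.FT4D.Tr_c11_3
import Pool.Agent.FT4D.Tr_c11_4
import Pool.Agent.FT4D.Tr_c11_5

/-!
# Four levels: the chunks of the trees `c11` together
-/

namespace Pool.Agent.FT4D

theorem c11H : Holds ⟨4, 1, 0, true, -8⟩ true 0 [] := by
  have h0 := chStart ⟨4, 1, 0, true, -8⟩ true 0 c11N
  have h1 := chStepF c11l0 34 h0 c11k0 (by decide +kernel) (by decide +kernel)
  have h2 := chStepF c11l1 59 h1 c11k1 (by decide +kernel) (by decide +kernel)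
  have h3 := chStepF c11l2 87 h2 c11k2 (by decide +kernel) (by decide +kernel)
  have h4 := chStepF c11l3 110 h3 c11k3 (by decide +kernel) (by decide +kernel)
  have h5 := chStepF c11l4 135 h4 c11k4 (by decide +kernel) (by decide +kernel)
  have h6 := chStepF c11l5 151 h5 c11k5 (by decide +kernel) (by decide +kernel)
  have h7 := chStepF c11l6 183 h6 c11k6 (by decide +kernel) (by decide +kernel)
  have h8 := chStepF c11l7 216 h7 c11k7 (by decide +kernel) (by decide +kernel)
  have h9 := chStepF c11l8 241 h8 c11k8 (by decide +kernel) (by decide +kernel)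
  have h10 := chStepF c11l9 255 h9 c11k9 (by decide +kernel) (by decide +kernel)
  have h11 := chStepF c11l10 284 h10 c11k10 (by decide +kernel) (by decide +kernel)
  have h12 := chStepF c11l11 320 h11 c11k11 (by decide +kernel) (by decide +kernel)
  have h13 := chStepF c11l12 339 h12 c11k12 (by decide +kernel) (by decide +kernel)
  have h14 := chStepF c11l13 359 h13 c11k13 (by decide +kernel) (by decide +kernel)
  have h15 := chStepF c11l14 386 h14 c11k14 (by decide +kernel) (by decide +kernel)
  have h16 := chStepF c11l15 408 h15 c11k15 (by decide +kernel) (by decide +kernel)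
  have h17 := chStepF c11l16 434 h16 c11k16 (by decide +kernel) (by decide +kernel)
  have h18 := chStepF c11l17 474 h17 c11k17 (by decide +kernel) (by decide +kernel)
  have h19 := chStepF c11l18 495 h18 c11k18 (by decide +kernel) (by decide +kernel)
  have h20 := chStepF c11l19 516 h19 c11k19 (by decide +kernel) (by decide +kernel)
  have h21 := chStepF c11l20 535 h20 c11k20 (by decide +kernel) (by decide +kernel)
  have h22 := chStepF c11l21 540 h21 c11k21 (by decide +kernel) (by decide +kernel)
  have h23 := chStepF c11l22 557 h22 c11k22 (by decide +kernel) (by decide +kernel)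
  have h24 := chStepF c11l23 581 h23 c11k23 (by decide +kernel) (by decide +kernel)
  have h25 := chStepF c11l24 601 h24 c11k24 (by decide +kernel) (by decide +kernel)
  have h26 := chStepF c11l25 627 h25 c11k25 (by decide +kernel) (by decide +kernel)
  have h27 := chStepF c11l26 641 h26 c11k26 (by decide +kernel) (by decide +kernel)
  have h28 := chStepF c11l27 660 h27 c11k27 (by decide +kernel) (by decide +kernel)
  have h29 := chStepF c11l28 688 h28 c11k28 (by decide +kernel) (by decide +kernel)
  have h30 := chStepF c11l29 720 h29 c11k29 (by decide +kernel) (by decide +kernel)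
  have h31 := chStepF c11l30 743 h30 c11k30 (by decide +kernel) (by decide +kernel)
  have h32 := chStepF c11l31 770 h31 c11k31 (by decide +kernel) (by decide +kernel)
  have h33 := chStepF c11l32 787 h32 c11k32 (by decide +kernel) (by decide +kernel)
  have h34 := chStepF c11l33 815 h33 c11k33 (by decide +kernel) (by decide +kernel)
  have h35 := chStepF c11l34 843 h34 c11k34 (by decide +kernel) (by decide +kernel)
  have h36 := chStepF c11l35 865 h35 c11k35 (by decide +kernel) (by decide +kernel)
  have h37 := chStepF c11l36 872 h36 c11k36 (by decide +kernel) (by decide +kernel)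
  have h38 := chStepF c11l37 896 h37 c11k37 (by decide +kernel) (by decide +kernel)
  have h39 := chStepF c11l38 910 h38 c11k38 (by decide +kernel) (by decide +kernel)
  have h40 := chStepF c11l39 931 h39 c11k39 (by decide +kernel) (by decide +kernel)
  have h41 := chStepF c11l40 937 h40 c11k40 (by decide +kernel) (by decide +kernel)
  exact chEnd h41 936 (by decide +kernel) (by decide +kernel)

end Pool.Agent.FT4D
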