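import Pool.Agent.FT4D.Tab_c21

/-!
# Four levels: decision trees (found by a computer search)
-/

namespace Pool.Agent.FT4D

def c21t0 : Tr4 :=
  .br 1216 (.con 136 [3, 1, 1]) .no (.hor [.f 1216 3 5] []) (.con 136 [3, 1, 1]) .no .no

def c21t1 : Tr4 :=
  .br 819 .no (.con 136 [2, 4, 2, 4]) .no (.red [.f 811 3 1] 118 136 [2, 4, 4] [(118, 136, [2, 4,
  4])]) .no .no

def c21t2 : Tr4 :=
  .br 818 .no (.hor [.f 689 1 5] []) .no (.con 136 [2, 4, 2, 4]) (.con 136 [2, 4, 2, 4]) .no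

def c21t3 : Tr4 :=
  .br 816 .no (.hor [.f 688 1 5] []) .no (.use 2) .no .no

def c21t4 : Tr4 :=
  .br 1075 (.br 816 .no (.hor [.f 688 1 5] []) .no (.br 827 .no (.br 826 .no (.hor [.f 698 1 5]
  []) .no (.br 947 .no (.dom 119 136 [2, 4]) .no (.use 1) .no .no) .no .no) .no (.con 136 [2, 4,
  4, 2]) .no (.use 2)) .no .no) (.hor [.f 946 1 5] []) .no (.br 947 .no (.br 826 .no (.br 816 .no
  (.hor [.f 688 1 5] []) .no (.br 818 .no (.hor [.f 689 1 5] []) .no (.con 136 [2, 2, 4, 4]) .no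
  .no) .no .no) .no (.dom 119 136 [2, 4]) (.use 3) .no) .no (.hor [.f 939 3 1, .f 946 1 5] [(134,
  118, [1])]) .no .no) .no .no

def c21t5 : Tr4 :=
  .br 816 .no (.hor [.f 688 1 5] []) .no (.br 827 .no (.br 826 .no (.hor [.f 698 1 5] []) .no (.br
  947 (.hor [.f 946 1 5] []) (.dom 119 136 [2, 4]) .no (.use 1) .no .no) .no .no) .no (.con 136
  [2, 4, 4, 2]) .no (.use 2)) .no .no

def c21t6 : Tr4 :=
  .br 947 (.con 136 [4, 2, 4]) (.hor [.f 818 1 5] []) .no (.con 136 [4, 2, 4]) .no .no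

def c21t7 : Tr4 :=
  .br 819 .no (.con 136 [2, 4, 2, 4]) .no (.red [.t 810 1 3, .f 937 3 5] 118 136 [2, 4, 4] [(118,
  136, [2, 4, 4])]) .no .no

def c21t8 : Tr4 :=
  .br 939 (.br 819 .no (.con 136 [2, 4, 2, 4]) .no (.red [.t 1066 3 2, .f 811 3 1] 118 136 [2, 4,
  4] [(118, 136, [2, 4, 4]), (134, 136, [4, 4])]) .no .no) (.con 136 [2, 4, 4, 2]) .no (.br 938
  .no (.use 7) .no (.hor [.f 930 3 5] []) .no .no) .no (.red [.f 938 5 3, .f 937 3 5, .t 825 1 4,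
  .f 944 3 5] 119 136 [2, 4] [(119, 136, [2, 4])])

def c21t9 : Tr4 :=
  .br 827 .no (.use 8) .no (.con 136 [2, 4, 2, 4]) .no .no

def c21t10 : Tr4 :=
  .br 819 .no (.con 136 [2, 4, 2, 4]) .no (.red [.f 946 5 1, .f 939 1 3, .f 811 3 1] 118 136 [2,
  4, 4] [(118, 136, [2, 4, 4]), (134, 136, [4, 4])]) .no .no

def c21t11 : Tr4 :=
  .br 1067 .no .no .no (.hor [.f 931 3 1, .f 938 1 5] [(133, 136, [4, 4, 4])]) .no .no

def c21t12 : Tr4 :=
  .br 938 (.use 11) (.use 7) .no (.hor [.f 930 3 5] []) .no .no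

def c21t13 : Tr4 :=
  .br 939 (.use 10) (.con 136 [2, 4, 4, 2]) .no (.br 1203 (.hor [.f 1203 1 3, .t 1210 2 4, .f 1073
  3 5] [(151, 119, [1, 1]), (167, 119, [1, 1, 1])]) .no .no (.use 12) .no (.red [.f 1074 5 1, .f
  1074 1 3, .f 1073 3 5, .t 961 1 4] 136 136 [] [(136, 136, []), (151, 135, [1])])) .no (.red [.f
  938 5 3, .f 937 3 5, .t 825 1 4, .f 944 3 5] 119 136 [2, 4] [(119, 136, [2, 4])])

def c21t14 : Tr4 :=
  .br 816 .no (.hor [.f 688 1 5] []) .no (.br 818 .no (.hor [.f 689 1 5] []) (.br 827 .no (.use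
  13) .no (.con 136 [2, 2, 4, 4]) .no .no) (.con 136 [2, 4, 2, 4]) (.con 136 [2, 4, 2, 4]) .no)
  .no .no

def c21t15 : Tr4 :=
  .br 1067 (.br 1203 (.hor [.f 1203 1 3, .t 1210 2 4, .f 1073 3 5] [(151, 119, [1, 1]), (167, 119,
  [1, 1, 1])]) .no .no .no .no .no) .no .no (.red [.f 931 3 1, .f 938 1 5] 133 136 [4, 4, 4]
  [(133, 136, [4, 4, 4])]) .no .no

def c21t16 : Tr4 :=
  .br 816 .no (.hor [.f 688 1 5] []) .no (.br 818 .no (.hor [.f 689 1 5] []) (.br 827 .no (.br 939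
  (.use 10) (.con 136 [2, 4, 4, 2]) .no (.br 1203 (.hor [.f 1203 1 3, .t 1210 2 4, .f 1073 3 5]
  [(151, 119, [1, 1]), (167, 119, [1, 1, 1])]) .no .no (.use 12) .no (.red [.f 1074 5 1, .f 1074 1
  3, .f 1073 3 5, .t 961 1 4] 136 136 [] [(136, 136, []), (151, 135, [1])])) .no (.red [.f 938 5
  3, .f 937 3 5, .t 825 1 4, .f 944 3 5] 119 136 [2, 4] [(119, 136, [2, 4])])) .no (.con 136 [2,
  2, 4, 4]) .no .no) (.con 136 [2, 4, 2, 4]) (.con 136 [2, 4, 2, 4]) .no) .no .no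

def c21t17 : Tr4 :=
  .br 1067 (.br 1203 (.hor [.f 1203 1 3, .t 1210 2 4, .f 1073 3 5] [(151, 119, [1, 1]), (167, 119,
  [1, 1, 1])]) .no .no .no .no .no) .no .no (.red [.f 931 3 1, .f 938 1 5] 133 136 [4, 4, 4]
  [(133, 136, [4, 4, 4])]) .no .no

def c21t18 : Tr4 :=
  .br 938 (.use 17) (.use 7) .no (.hor [.f 930 3 5] []) .no .no

def c21t19 : Tr4 :=
  .br 827 .no (.br 939 (.use 10) (.con 136 [2, 4, 4, 2]) .no (.br 1203 (.hor [.f 1203 1 3, .t 1210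
  2 4, .f 1073 3 5] [(151, 119, [1, 1]), (167, 119, [1, 1, 1])]) .no .no (.use 12) .no .no) .no
  (.red [.f 938 5 3, .f 937 3 5, .t 825 1 4, .f 944 3 5] 119 136 [2, 4] [(119, 136, [2, 4])])) .no
  (.con 136 [2, 4, 2, 4]) .no .no

def c21t20 : Tr4 :=
  .br 816 .no (.hor [.f 688 1 5] []) .no (.br 818 .no (.hor [.f 689 1 5] []) (.use 19) (.con 136
  [2, 4, 2, 4]) (.con 136 [2, 4, 2, 4]) .no) .no .no

def c21t21 : Tr4 :=
  .br 1074 (.hor [.f 1074 1 3, .f 1073 3 5] [(151, 119, [1, 1])]) (.br 834 .no (.use 4) (.use 5)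
  (.red [.f 826 3 1, .f 825 1 5, .t 1073 3 2, .f 953 1 3, .t 961 4 2] 136 136 [] [(135, 136, [4]),
  (136, 136, [])]) .no (.red [.t 953 2 3, .t 1073 3 2, .f 953 1 3, .f 825 3 1] 136 136 [] [(135,
  136, [4]), (136, 136, [])])) .no (.br 946 .no (.use 6) .no (.hor [.f 937 3 5] []) (.br 816 .no
  (.hor [.f 688 1 5] []) .no (.br 818 .no (.hor [.f 689 1 5] []) (.use 9) (.con 136 [2, 4, 2, 4])
  (.con 136 [2, 4, 2, 4]) .no) .no .no) .no) (.br 946 .no (.use 6) .no (.hor [.f 937 3 5] []) (.br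
  1211 (.br 1209 (.use 16) .no (.use 14) (.hor [.f 1073 3 1, .f 1081 1 5] [(151, 119, [1, 1])])
  .no (.br 1202 (.br 816 .no (.hor [.f 688 1 5] []) .no (.br 818 .no (.hor [.f 689 1 5] []) (.br
  827 .no (.br 939 (.use 10) (.con 136 [2, 4, 4, 2]) .no (.use 18) .no (.red [.f 938 5 3, .f 937 3
  5, .t 825 1 4, .f 944 3 5] 119 136 [2, 4] [(119, 136, [2, 4])])) .no (.con 136 [2, 2, 4, 4]) .no
  .no) (.con 136 [2, 4, 2, 4]) (.con 136 [2, 4, 2, 4]) .no) .no .no) .no .no (.use 20) (.red [.f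
  1074 5 1, .f 1074 1 3, .f 1073 3 5, .t 961 1 4] 136 136 [] [(136, 136, []), (151, 135, [1])])
  (.red [.t 1081 4 1, .t 961 1 4] 136 136 [] [(136, 136, []), (151, 135, [1])]))) .no .no (.hor
  [.t 1210 2 4, .f 1073 3 5] [(151, 119, [1, 1])]) .no .no) .no) .no

def c21t22 : Tr4 :=
  .br 827 .no (.hor [.f 698 1 5] []) .no (.con 136 [2, 2, 4]) .no .no

def c21t23 : Tr4 :=
  .br 826 .no (.use 22) (.red [.f 826 3 1, .f 825 1 5, .t 1073 3 2, .f 953 1 3, .t 961 4 2] 136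
  136 [] [(135, 136, [4]), (136, 136, [])]) .no (.red [.t 962 4 2, .f 825 1 5, .f 817 5 3, .t 1073
  3 2, .f 818 3 1, .t 826 1 3] 119 136 [2, 4] [(119, 136, [2, 4]), (135, 136, [4])]) .no

def c21t24 : Tr4 :=
  .br 939 (.br 819 .no (.con 136 [2, 4, 2, 4]) .no (.red [.t 1066 3 2, .f 811 3 1] 118 136 [2, 4,
  4] [(118, 136, [2, 4, 4]), (134, 136, [4, 4])]) .no .no) (.con 136 [2, 4, 4, 2]) .no (.hor [.f
  930 3 5] []) .no .no

def c21t25 : Tr4 :=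
  .br 938 .no (.red [.t 937 3 2, .f 817 1 3] 119 136 [2, 4] [(118, 136, [2, 4, 4]), (119, 136, [2,
  4])]) .no (.br 816 .no (.red [.f 688 1 3] 103 136 [2, 2, 4] [(103, 136, [2, 2, 4])]) .no (.use
  24) .no .no) (.red [.f 938 5 3, .f 937 3 5, .f 817 5 1, .f 817 1 3] 119 136 [2, 4] [(119, 136,
  [2, 4])]) .no

def c21t26 : Tr4 :=
  .br 826 .no (.use 22) (.br 938 .no (.red [.t 937 3 2, .f 817 1 3] 119 136 [2, 4] [(118, 136, [2,
  4, 4]), (119, 136, [2, 4])]) .no (.br 816 .no (.red [.f 688 1 3] 103 136 [2, 2, 4] [(103, 136,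
  [2, 2, 4])]) .no (.br 699 (.br 939 (.br 819 .no (.con 136 [2, 2, 4, 4]) .no (.red [.t 1066 3 2,
  .f 811 3 1] 118 136 [2, 4, 4] [(118, 136, [2, 4, 4]), (134, 136, [4, 4])]) .no .no) (.con 136
  [2, 4, 4, 2]) .no (.hor [.f 930 3 5] []) .no .no) (.con 136 [2, 2, 4]) (.con 136 [2, 2, 4])
  (.con 136 [2, 2, 4]) .no (.con 136 [2, 2, 4])) .no .no) (.red [.f 938 5 3, .f 937 3 5, .f 817 5
  1, .f 817 1 3] 119 136 [2, 4] [(119, 136, [2, 4])]) .no) .no (.use 25) .no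

def c21t27 : Tr4 :=
  .br 939 (.red [.f 946 5 1, .f 939 1 3, .f 811 3 1] 118 136 [4, 2, 4] [(118, 136, [4, 2, 4]),
  (134, 136, [4, 4])]) .no .no (.br 938 (.use 11) (.red [.t 937 3 2, .f 810 3 5] 118 136 [4, 2, 4]
  [(118, 136, [4, 2, 4])]) .no (.hor [.f 930 3 5] []) .no .no) .no (.red [.f 938 5 3, .f 811 3 1]
  118 136 [4, 2, 4] [(118, 136, [4, 2, 4])])

def c21t28 : Tr4 :=
  .br 1203 (.hor [.f 1203 1 3, .t 1210 2 4, .f 1073 3 5] [(151, 119, [1, 1]), (167, 119, [1, 1,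
  1])]) .no .no (.br 819 .no (.con 136 [2, 4, 2, 4]) .no (.use 27) .no .no) .no (.red [.f 1074 5
  1, .f 1074 1 3, .f 1073 3 5, .t 961 1 4] 136 136 [] [(136, 136, []), (151, 135, [1])])

def c21t29 : Tr4 :=
  .br 816 .no (.red [.f 688 1 3] 103 136 [2, 2, 4] [(103, 136, [2, 2, 4])]) .no (.br 699 (.use 28)
  (.con 136 [2, 2, 4]) (.con 136 [2, 2, 4]) (.con 136 [2, 2, 4]) .no (.con 136 [2, 2, 4])) .no .no

def c21t30 : Tr4 :=
  .br 819 .no (.con 136 [2, 4, 2, 4]) .no (.red [.f 946 5 1, .f 939 1 3, .f 811 3 1] 118 136 [2,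
  4, 4] [(118, 136, [2, 4, 4]), (134, 136, [4, 4])]) .no .no

def c21t31 : Tr4 :=
  .br 939 (.use 30) (.con 136 [2, 4, 4, 2]) .no (.hor [.f 930 3 5] []) .no .no

def c21t32 : Tr4 :=
  .br 816 .no (.red [.f 688 1 3] 103 136 [2, 4, 2] [(103, 136, [2, 4, 2])]) .no (.br 938 (.br 939
  (.hor [.f 938 1 5] []) (.con 136 [2, 4, 4, 2]) .no (.use 15) .no .no) (.red [.t 937 3 2, .f 817
  1 3] 119 136 [2, 4] [(118, 136, [2, 4, 4]), (119, 136, [2, 4])]) .no (.use 31) (.red [.f 938 5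
  3, .f 937 3 5, .f 817 5 1, .f 817 1 3] 119 136 [2, 4] [(119, 136, [2, 4])]) .no) .no .no

def c21t33 : Tr4 :=
  .br 1202 (.br 699 (.use 32) (.con 136 [2, 2, 4]) (.con 136 [2, 2, 4]) (.con 136 [2, 2, 4]) .no
  (.con 136 [2, 2, 4])) .no .no (.hor [.f 1193 3 5] []) (.red [.f 1074 5 1, .f 1074 1 3, .f 1073 3
  5, .t 961 1 4] 136 136 [] [(136, 136, []), (151, 135, [1])]) .no

def c21t34 : Tr4 :=
  .br 1072 (.hor [.t 1072 1 3, .f 1081 1 5] [(151, 119, [1, 1])]) .no .no (.br 699 (.br 1202 (.br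
  816 .no (.red [.f 688 1 3] 103 136 [2, 2, 4] [(103, 136, [2, 2, 4])]) .no (.br 938 (.br 939
  (.use 30) (.con 136 [2, 4, 4, 2]) .no (.use 17) .no .no) (.red [.t 937 3 2, .f 817 1 3] 119 136
  [2, 4] [(118, 136, [2, 4, 4]), (119, 136, [2, 4])]) .no (.use 31) (.red [.f 938 5 3, .f 937 3 5,
  .f 817 5 1, .f 817 1 3] 119 136 [2, 4] [(119, 136, [2, 4])]) .no) .no .no) .no .no (.br 816 .no
  (.red [.f 688 1 3] 103 136 [2, 2, 4] [(103, 136, [2, 2, 4])]) .no (.br 938 (.br 1067 (.hor [.f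
  946 5 1, .f 946 1 5, .t 1194 3 2, .f 1074 1 3, .f 1073 3 5] [(150, 118, [1, 1]), (151, 119, [1,
  1])]) (.use 30) .no (.br 939 .no (.con 136 [2, 4, 4, 2]) .no (.red [.f 931 3 1, .f 938 1 5] 133
  136 [4, 4, 4] [(133, 136, [4, 4, 4])]) .no .no) .no .no) (.red [.t 937 3 2, .f 817 1 3] 119 136
  [2, 4] [(118, 136, [2, 4, 4]), (119, 136, [2, 4])]) .no (.use 31) (.red [.f 938 5 3, .f 937 3 5,
  .f 817 5 1, .f 817 1 3] 119 136 [2, 4] [(119, 136, [2, 4])]) .no) .no .no) (.red [.f 1074 5 1,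
  .f 1074 1 3, .f 1073 3 5, .t 961 1 4] 136 136 [] [(136, 136, []), (151, 135, [1])]) (.red [.f
  826 3 1, .f 826 1 3, .t 1081 4 1, .t 961 1 4] 136 136 [] [(136, 136, []), (151, 135, [1])]))
  (.con 136 [2, 2, 4]) (.con 136 [2, 2, 4]) (.con 136 [2, 2, 4]) .no (.con 136 [2, 2, 4])) .no .no

def c21t35 : Tr4 :=
  .br 1209 (.br 1208 (.hor [.f 1208 1 5] []) .no .no (.br 1201 (.hor [.f 1201 1 3, .f 1200 3 5]
  [(167, 168, [4])]) .no .no (.use 33) (.red [.f 826 3 1, .f 826 1 3, .t 1081 4 1, .t 961 1 4] 136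
  136 [] [(136, 136, []), (151, 135, [1])]) .no) .no .no) .no .no (.hor [.f 1073 3 1, .f 1081 1 5]
  [(151, 119, [1, 1])]) .no (.use 34)

def c21t36 : Tr4 :=
  .br 690 .no (.hor [.f 562 1 3, .f 689 3 5] [(87, 86, [3])]) .no (.red [.t 681 1 3, .t 690 1 3]
  103 136 [2, 2, 4] [(102, 136, [2, 2, 4, 4]), (103, 136, [2, 2, 4])]) .no .no

def c21t37 : Tr4 :=
  .br 819 .no (.con 136 [2, 2, 4, 4]) .no (.use 27) .no .no

def c21t38 : Tr4 :=
  .br 1203 (.hor [.f 1203 1 3, .t 1210 2 4, .f 1073 3 5] [(151, 136, [4, 1]), (167, 136, [4, 1,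
  1])]) .no .no .no .no .no

def c21t39 : Tr4 :=
  .br 816 .no (.red [.f 688 1 3] 103 136 [2, 2, 4] [(103, 136, [2, 2, 4])]) .no (.br 1202 (.br
  1203 (.hor [.f 1203 1 3, .t 1210 2 4, .f 1073 3 5] [(151, 119, [1, 1]), (167, 119, [1, 1, 1])])
  .no .no (.use 37) .no .no) .no .no (.br 1203 (.hor [.f 1203 1 3, .t 1210 2 4, .f 1073 3 5]
  [(151, 119, [1, 1]), (167, 119, [1, 1, 1])]) .no .no (.use 37) .no .no) (.red [.f 1074 5 1, .f
  1074 1 3, .f 1073 3 5, .t 961 1 4] 136 136 [] [(136, 136, []), (151, 135, [1])]) (.red [.t 962 4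
  2, .t 826 1 3, .t 1081 4 1, .t 961 1 4] 136 136 [] [(136, 136, []), (151, 135, [1])])) .no .no

def c21t40 : Tr4 :=
  .br 816 .no (.red [.f 688 1 3] 103 136 [2, 2, 4] [(103, 136, [2, 2, 4])]) .no (.br 1203 (.hor
  [.f 1203 1 3, .t 1210 2 4, .f 1073 3 5] [(151, 119, [1, 1]), (167, 119, [1, 1, 1])]) .no .no
  (.use 37) .no .no) .no .no

def c21t41 : Tr4 :=
  .br 1202 (.use 40) .no .no (.hor [.f 1193 3 5] []) (.red [.f 1074 5 1, .f 1074 1 3, .f 1073 3 5,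
  .t 961 1 4] 136 136 [] [(136, 136, []), (151, 135, [1])]) .no

def c21t42 : Tr4 :=
  .br 1201 (.hor [.f 1201 1 3, .f 1200 3 5] [(167, 168, [4])]) .no .no (.use 41) (.red [.t 962 4
  2, .t 826 1 3, .t 1081 4 1, .t 961 1 4] 136 136 [] [(136, 136, []), (151, 135, [1])]) .no

def c21t43 : Tr4 :=
  .br 1202 (.br 816 .no (.red [.f 688 1 3] 103 136 [2, 2, 4] [(103, 136, [2, 2, 4])]) .no (.br
  1203 (.hor [.f 1203 1 3, .t 1210 2 4, .f 1073 3 5] [(151, 119, [1, 1]), (167, 119, [1, 1, 1])])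
  .no .no (.use 37) .no .no) .no .no) .no .no (.br 816 .no (.red [.f 688 1 3] 103 136 [2, 2, 4]
  [(103, 136, [2, 2, 4])]) .no (.br 1203 (.hor [.f 1203 1 3, .t 1210 2 4, .f 1073 3 5] [(151, 119,
  [1, 1]), (167, 119, [1, 1, 1])]) .no .no (.use 37) .no .no) .no .no) (.red [.f 1074 5 1, .f 1074
  1 3, .f 1073 3 5, .t 961 1 4] 136 136 [] [(136, 136, []), (151, 135, [1])]) (.red [.t 962 4 2,
  .t 826 1 3, .t 1081 4 1, .t 961 1 4] 136 136 [] [(136, 136, []), (151, 135, [1])])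

def c21l0 : List Tr4 :=
  [c21t0, c21t1, c21t2, c21t3, c21t4, c21t5, c21t6, c21t7, c21t8, c21t9, c21t10, c21t11, c21t12,
  c21t13, c21t14, c21t15, c21t16, c21t17, c21t18, c21t19, c21t20, c21t21, c21t22, c21t23, c21t24,
  c21t25, c21t26, c21t27, c21t28, c21t29, c21t30, c21t31, c21t32, c21t33, c21t34, c21t35, c21t36,
  c21t37, c21t38, c21t39, c21t40, c21t41, c21t42, c21t43]

theorem c21k0 : chkLF ⟨4, 0, 0, true, -8⟩ false 1 c21N 0 c21l0 = true := by decide +kernel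

def c21t44 : Tr4 :=
  .br 1209 (.br 1208 (.hor [.f 1208 1 5] []) .no .no (.use 42) .no .no) .no .no (.hor [.f 1073 3
  1, .f 1081 1 5] [(151, 119, [1, 1])]) .no (.use 43)

def c21t45 : Tr4 :=
  .br 833 .no (.hor [.f 705 1 5] []) (.con 136 [2, 2, 3]) .no .no .no

def c21t46 : Tr4 :=
  .br 817 .no (.br 824 .no (.use 4) (.use 45) (.red [.f 816 3 1, .f 824 1 5] 119 136 [2, 4] [(119,
  136, [2, 4])]) .no .no) .no (.red [.f 809 3 1, .f 817 1 3] 119 136 [2, 4] [(118, 136, [2, 4,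
  4]), (119, 136, [2, 4])]) (.br 824 .no (.use 23) (.use 45) (.red [.f 816 3 1, .f 824 1 5] 119
  136 [2, 4] [(119, 136, [2, 4])]) .no .no) (.red [.t 952 4 2] 119 136 [2, 4] [(119, 136, [2,
  4])])

def c21t47 : Tr4 :=
  .br 827 .no (.hor [.f 698 1 5] []) .no (.con 136 [2, 2, 4]) .no .no

def c21t48 : Tr4 :=
  .br 697 .no (.hor [.f 568 1 5] []) .no .no (.red [.f 691 1 3, .f 818 3 5, .t 962 4 2, .f 825 1
  5, .f 697 5 1, .f 697 1 3] 104 136 [2, 2] [(103, 102, [3]), (104, 136, [2, 2]), (120, 104,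
  [1])]) .no

def c21t49 : Tr4 :=
  .br 1217 (.red [.f 1209 1 3, .f 1208 3 5] 168 136 [1, 1] [(168, 136, [1, 1])]) .no (.con 136 [1,
  3, 1]) .no .no .no

def c21t50 : Tr4 :=
  .br 1226 (.hor [.f 1226 1 5] []) .no (.con 136 [3, 1, 3, 1]) .no .no .no

def c21t51 : Tr4 :=
  .br 1344 (.hor [.f 1344 1 5] []) .no .no (.red [.t 1336 3 2, .f 1216 1 3] 169 136 [1, 3, 1]
  [(168, 136, [1, 1]), (169, 136, [1, 3, 1])]) .no .no

def c21t52 : Tr4 :=
  .br 1344 (.br 1345 (.hor [.f 1344 1 5] []) .no (.br 1224 (.red [.t 1352 2 4, .f 1209 1 3] 169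
  136 [3, 1, 1] [(168, 136, [1, 1]), (169, 136, [3, 1, 1])]) .no (.con 136 [3, 1, 3, 1]) .no .no
  .no) .no .no .no) .no (.con 136 [3, 1, 1, 3]) (.br 1224 (.red [.t 1336 3 2, .f 1216 1 3] 169 136
  [3, 1, 1] [(168, 136, [1, 1]), (169, 136, [3, 1, 1])]) .no (.con 136 [3, 1, 3, 1]) .no .no .no)
  (.red [.f 1216 5 1, .f 1217 1 5, .t 1097 1 4] 153 136 [3, 1] [(153, 136, [3, 1])]) .no

def c21t53 : Tr4 :=
  .br 1225 (.con 136 [3, 1, 3, 1]) (.br 1096 (.con 136 [3, 1, 3, 1]) .no (.use 52) .no .no .no)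
  (.hor [.f 1225 3 5] []) .no .no (.con 136 [3, 1, 3, 1])

def c21t54 : Tr4 :=
  .br 1096 (.con 136 [3, 3, 1]) .no (.hor [.f 1096 3 5] []) .no .no .no

def c21t55 : Tr4 :=
  .br 977 (.hor [.f 977 1 5] []) .no (.br 976 (.con 136 [3, 3, 3]) (.con 136 [2, 3, 2, 3, 1])
  (.hor [.f 976 3 5] []) .no .no .no) .no .no (.red [.t 1089 2 3, .f 960 3 5, .f 968 5 3, .f 841 3
  1] 122 136 [2, 3, 3] [(122, 136, [2, 3, 3]), (137, 121, [1])])

def c21t56 : Tr4 :=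
  .br 1224 (.use 51) .no (.con 136 [3, 1, 3, 1]) .no .no .no

def c21t57 : Tr4 :=
  .br 1235 (.red [.f 1227 1 3] 170 136 [3, 3, 1, 1] [(170, 136, [3, 3, 1, 1])]) .no (.br 1224
  (.red [.f 1216 5 1, .f 1216 1 3] 169 136 [3, 1, 1] [(169, 136, [3, 1, 1])]) .no (.con 136 [3, 3,
  1, 1]) .no .no .no) .no .no (.red [.t 960 3 1, .f 1089 3 5, .f 1097 5 1, .t 1098 1 3] 154 136
  [3, 3, 1] [(137, 136, [3]), (154, 136, [3, 3, 1])])

def c21t58 : Tr4 :=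
  .br 1345 (.use 56) .no (.red [.t 1345 3 2, .f 1090 3 1] 153 136 [3, 1] [(153, 136, [3, 1]),
  (169, 136, [3, 1, 1])]) .no .no (.use 57)

def c21t59 : Tr4 :=
  .br 1217 (.hor [.f 1217 1 5] []) .no (.use 50) .no .no (.br 1226 (.hor [.f 1226 1 5] []) .no
  (.use 53) .no .no (.br 1097 .no .no (.use 54) .no .no (.use 58)))

def c21t60 : Tr4 :=
  .br 1224 (.red [.f 1208 5 3, .f 1208 3 5, .t 1352 2 4, .f 1217 1 5] 169 136 [3, 1, 1] [(169,
  136, [3, 1, 1])]) .no (.con 136 [3, 1, 3, 1]) .no .no .no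

def c21t61 : Tr4 :=
  .br 1344 (.br 1336 (.br 1345 (.hor [.f 1344 1 5] []) .no (.use 60) (.red [.f 1336 1 3, .f 1208 5
  3, .f 1208 3 1] 184 136 [1, 1, 1] [(168, 136, [1, 1]), (184, 136, [1, 1, 1])]) .no .no) .no .no
  .no (.br 1345 (.hor [.f 1344 1 5] []) .no (.use 60) .no .no .no) .no) .no (.con 136 [3, 1, 1,
  3]) (.br 1224 (.red [.f 1208 5 3, .f 1208 3 1, .f 1216 1 3] 169 136 [3, 1, 1] [(168, 136, [1,
  1]), (169, 136, [3, 1, 1])]) .no (.con 136 [3, 1, 3, 1]) .no .no .no) (.red [.f 1216 5 1, .f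
  1217 1 5, .t 1097 1 4] 153 136 [3, 1] [(153, 136, [3, 1])]) .no

def c21t62 : Tr4 :=
  .br 1225 (.con 136 [3, 1, 3, 1]) .no (.hor [.f 1225 3 5] []) .no .no (.con 136 [3, 1, 3, 1])

def c21t63 : Tr4 :=
  .br 1224 (.red [.f 1208 5 3, .f 1208 3 1, .f 1216 1 3] 169 136 [3, 1, 1] [(168, 136, [1, 1]),
  (169, 136, [3, 1, 1])]) .no (.con 136 [3, 1, 3, 1]) .no .no .no

def c21t64 : Tr4 :=
  .br 1344 (.hor [.f 1344 1 5] []) .no (.con 136 [3, 1, 1, 3]) (.use 63) .no .no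

def c21t65 : Tr4 :=
  .br 1336 (.red [.f 1336 1 3, .f 1208 5 3, .f 1208 3 1] 184 136 [1, 1, 1] [(168, 136, [1, 1]),
  (184, 136, [1, 1, 1])]) .no .no .no .no .no

def c21t66 : Tr4 :=
  .br 1344 (.use 65) .no (.con 136 [3, 1, 1, 3]) (.use 63) .no .no

def c21t67 : Tr4 :=
  .br 1226 (.hor [.f 1226 1 5] []) .no (.use 62) .no .no (.br 1200 (.br 1345 (.use 64) .no (.red
  [.t 1345 3 2, .f 1090 3 1] 153 136 [3, 1] [(153, 136, [3, 1]), (169, 136, [3, 1, 1])]) (.use 66)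
  .no (.use 57)) .no .no (.hor [.f 1064 3 1, .t 1072 1 3, .f 1081 1 5] [(150, 136, [4, 1, 4]),
  (151, 136, [4, 1])]) (.red [.f 1200 5 3, .f 1073 3 1, .f 1081 1 5, .t 961 1 4, .f 946 1 3] 136
  136 [] [(135, 136, [4]), (136, 136, []), (151, 135, [1])]) .no)

def c21t68 : Tr4 :=
  .br 1217 (.hor [.f 1217 1 5] []) .no (.use 50) .no .no (.br 1072 (.hor [.t 1072 1 3, .f 1081 1
  5] [(151, 136, [4, 1])]) .no .no (.br 1097 (.br 1226 (.hor [.f 1226 1 5] []) .no (.br 1096 (.con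
  136 [3, 3, 1, 1]) .no (.br 1200 (.use 61) .no .no (.hor [.f 1064 3 1, .t 1072 1 3, .f 1081 1 5]
  [(150, 136, [4, 1, 4]), (151, 136, [4, 1])]) (.red [.f 1200 5 3, .f 1073 3 1, .f 1081 1 5, .t
  961 1 4, .f 946 1 3] 136 136 [] [(135, 136, [4]), (136, 136, []), (151, 135, [1])]) .no) .no .no
  .no) .no .no .no) .no (.use 54) .no .no (.use 67)) .no .no)

def c21t69 : Tr4 :=
  .br 1209 (.use 59) .no (.red [.t 1089 2 3, .t 1209 3 2, .f 954 3 1, .f 962 1 3] 136 136 []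
  [(136, 136, []), (152, 136, [1])]) (.hor [.f 1073 3 1, .f 1081 1 5] [(151, 136, [4, 1])]) .no
  (.use 68)

def c21t70 : Tr4 :=
  .br 824 .no (.use 22) (.use 47) (.red [.f 816 3 1, .f 824 1 5] 119 136 [2, 4] [(119, 136, [2,
  4])]) .no .no

def c21t71 : Tr4 :=
  .br 834 .no (.con 136 [2, 2, 3]) (.hor [.f 833 3 5] []) (.con 136 [2, 2, 3]) .no .no

def c21t72 : Tr4 :=
  .br 970 .no (.con 136 [2, 3, 3]) (.hor [.f 969 3 5] []) .no .no .no

def c21t73 : Tr4 :=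
  .br 818 .no (.hor [.f 689 1 5] []) .no (.con 136 [2, 4, 2, 4]) (.con 136 [2, 4, 2, 4]) .no

def c21t74 : Tr4 :=
  .br 816 .no (.hor [.f 688 1 5] []) .no (.use 73) .no .no

def c21t75 : Tr4 :=
  .br 818 .no (.hor [.f 689 1 5] []) .no (.con 136 [2, 4, 2, 4]) (.con 136 [2, 4, 2, 4]) .no

def c21t76 : Tr4 :=
  .br 816 .no (.hor [.f 688 1 5] []) .no (.use 75) .no .no

def c21t77 : Tr4 :=
  .br 1217 (.hor [.f 1217 1 5] []) .no (.use 0) .no .no (.br 1227 (.use 53) .no (.hor [.f 1226 3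
  5] []) .no .no .no)

def c21t78 : Tr4 :=
  .br 1096 (.con 136 [3, 3, 1]) .no (.hor [.f 1096 3 5] []) .no .no .no

def c21t79 : Tr4 :=
  .br 816 .no (.hor [.f 688 1 5] []) .no (.br 818 .no (.hor [.f 689 1 5] []) .no (.con 136 [2, 4,
  2, 4]) (.con 136 [2, 4, 2, 4]) .no) .no .no

def c21t80 : Tr4 :=
  .br 826 .no (.use 74) (.use 79) (.br 816 .no (.hor [.f 688 1 5] []) .no (.use 9) .no .no) (.use
  76) .no

def c21t81 : Tr4 :=
  .br 939 (.red [.t 1066 3 2, .f 811 3 1] 118 136 [4, 2, 4] [(118, 136, [4, 2, 4]), (134, 136, [4,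
  4])]) .no .no (.hor [.f 930 3 5] []) .no .no

def c21t82 : Tr4 :=
  .br 938 .no (.red [.t 810 1 3, .f 937 3 5] 118 136 [2, 4, 4] [(118, 136, [2, 4, 4])]) .no (.use
  81) (.red [.f 938 5 3, .f 811 3 1] 118 136 [2, 4, 4] [(118, 136, [2, 4, 4])]) .no

def c21t83 : Tr4 :=
  .br 841 .no (.con 136 [2, 3, 3, 2]) (.hor [.f 840 3 5] []) .no (.con 136 [2, 3, 3, 2]) .no

def c21t84 : Tr4 :=
  .br 840 .no (.red [.t 953 2 3, .f 824 3 5, .f 704 5 1, .f 704 1 3] 105 136 [2, 2, 3] [(105, 136,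
  [2, 2, 3]), (120, 104, [1])]) (.use 83) .no (.red [.t 953 2 3, .f 824 3 5, .f 832 5 3, .f 832 3
  1] 121 136 [2, 3] [(120, 104, [1]), (121, 136, [2, 3])]) .no

def c21t85 : Tr4 :=
  .br 1106 (.red [.t 960 3 1, .f 1089 3 5, .f 1097 5 1, .f 1098 1 3] 154 136 [3, 3, 1] [(137, 121,
  [1]), (154, 136, [3, 3, 1])]) .no (.hor [.f 1106 3 5] []) .no .no (.red [.t 960 3 1, .f 1089 3
  5, .f 1097 5 3, .t 1098 3 2] 138 136 [3, 3] [(137, 121, [1]), (138, 136, [3, 3])])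

def c21t86 : Tr4 :=
  .br 1105 (.con 136 [3, 3, 3]) (.red [.t 960 3 1, .f 1089 3 5, .f 969 5 1, .f 969 1 3] 138 136
  [3, 3] [(137, 121, [1]), (138, 136, [3, 3])]) (.con 136 [3, 3, 3]) .no .no (.con 136 [3, 3, 3])

def c21t87 : Tr4 :=
  .br 977 .no (.con 136 [2, 3, 3, 3]) (.hor [.f 977 3 5] []) .no .no (.con 136 [2, 3, 3, 3])

def c21t88 : Tr4 :=
  .br 811 (.hor [.f 810 1 5] []) (.red [.f 683 1 3] 102 136 [2, 4, 4, 2] [(102, 136, [2, 4, 4,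
  2])]) .no (.br 816 .no (.hor [.f 688 1 5] []) .no (.con 136 [2, 4, 4, 2]) .no .no) .no .no

def c21t89 : Tr4 :=
  .br 816 .no (.hor [.f 688 1 5] []) .no (.use 8) .no .no

def c21t90 : Tr4 :=
  .br 827 .no (.use 89) .no (.hor [.f 818 3 5] []) .no .no

def c21t91 : Tr4 :=
  .br 819 .no (.con 136 [2, 4, 4, 2]) .no (.use 82) .no .no

def c21t92 : Tr4 :=
  .br 706 .no (.hor [.f 577 1 5] []) (.con 136 [2, 2, 2, 3]) (.red [.t 962 4 2, .f 825 1 5, .f 825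
  5 3, .f 698 3 1] 104 136 [2, 2] [(104, 136, [2, 2]), (120, 104, [1])]) (.con 136 [2, 2, 2, 3])
  .no

def c21t93 : Tr4 :=
  .br 706 .no (.con 136 [2, 2, 2]) (.con 136 [2, 2, 2]) (.hor [.f 697 3 5] []) (.con 136 [2, 2,
  2]) .no

def c21t94 : Tr4 :=
  .br 816 .no (.hor [.f 688 1 5] []) .no (.con 136 [2, 2, 4, 4]) .no .no

def c21t95 : Tr4 :=
  .br 704 .no (.red [.f 568 1 3, .f 696 3 1] 104 136 [2, 2] [(88, 136, [2, 2, 2]), (104, 136, [2,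
  2])]) (.br 705 .no (.use 92) (.hor [.f 704 3 5] []) (.use 93) (.br 697 .no (.hor [.f 568 1 5]
  []) .no .no (.use 94) .no) .no) .no (.br 697 .no (.hor [.f 568 1 5] []) .no .no (.use 94) .no)
  .no

def c21t96 : Tr4 :=
  .br 704 .no (.hor [.f 576 1 5] []) (.use 92) .no .no .no

def c21t97 : Tr4 :=
  .br 841 .no .no (.hor [.f 841 3 5] []) .no .no (.red [.t 953 2 3, .f 824 3 5, .f 832 5 3, .f 705
  3 1] 105 136 [2, 2, 3] [(105, 136, [2, 2, 3]), (120, 104, [1])])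

def c21t98 : Tr4 :=
  .br 705 .no (.use 96) (.br 842 .no (.red [.t 713 4 1, .t 832 4 2] 105 136 [2, 2, 3] [(104, 136,
  [2, 2]), (105, 136, [2, 2, 3])]) (.use 97) .no (.red [.t 1089 2 3, .f 970 1 5, .f 842 5 1, .f
  835 1 3] 121 136 [2, 3] [(121, 136, [2, 3]), (137, 121, [1])]) (.red [.f 833 5 3, .f 705 3 1, .t
  832 4 2] 105 136 [2, 2, 3] [(104, 136, [2, 2]), (105, 136, [2, 2, 3])])) .no (.red [.f 705 5 1,
  .t 832 4 2] 104 136 [2, 2] [(104, 136, [2, 2])]) (.red [.f 696 5 3, .f 696 3 1] 104 136 [2, 2]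
  [(104, 136, [2, 2])])

def c21t99 : Tr4 :=
  .br 696 .no (.use 95) (.red [.f 696 3 1] 104 136 [2, 2] [(104, 136, [2, 2])]) (.con 136 [2, 2,
  4, 4]) (.use 98) .no

def c21t100 : Tr4 :=
  .br 706 .no (.br 698 .no (.red [.f 570 1 3] 88 136 [2, 2, 2] [(88, 136, [2, 2, 2])]) .no (.br
  699 .no (.con 136 [2, 2, 4, 2]) (.con 136 [2, 2, 2]) (.hor [.f 690 3 5] []) .no .no) (.br 576
  .no (.br 577 .no (.hor [.f 448 1 5] []) (.con 136 [2, 2, 3, 2, 2]) (.con 136 [2, 2, 4, 2, 3])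
  .no .no) (.red [.f 576 3 1] 89 136 [2, 2, 3, 2] [(89, 136, [2, 2, 3, 2])]) .no (.red [.t 704 3
  1, .f 576 5 1, .f 568 1 3, .f 696 3 1, .f 704 1 3] 88 136 [2, 2, 2] [(88, 136, [2, 2, 2]), (104,
  136, [2, 2])]) .no) (.red [.t 962 4 2, .f 825 1 5, .f 697 5 1, .f 697 1 3] 104 136 [2, 2] [(104,
  136, [2, 2]), (120, 104, [1])])) (.con 136 [2, 2, 3, 2]) (.red [.t 962 4 2, .f 825 1 5, .t 705 1
  4] 104 136 [2, 2] [(104, 136, [2, 2]), (120, 104, [1])]) (.br 699 .no (.br 698 .no (.hor [.f 570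
  1 5] []) .no (.con 136 [2, 2, 4, 2]) .no (.red [.t 962 4 2, .f 825 1 5, .f 697 5 1, .f 697 1 3]
  104 136 [2, 2] [(104, 136, [2, 2]), (120, 104, [1])])) .no (.red [.f 818 5 3, .f 691 3 1] 103
  136 [2, 2, 4] [(103, 136, [2, 2, 4])]) .no (.red [.t 962 4 2, .f 698 5 3, .f 825 1 5, .t 705 1
  4] 104 136 [2, 2] [(104, 136, [2, 2]), (120, 104, [1])])) .no

def c21l1 : List Tr4 :=
  [c21t44, c21t45, c21t46, c21t47, c21t48, c21t49, c21t50, c21t51, c21t52, c21t53, c21t54, c21t55,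
  c21t56, c21t57, c21t58, c21t59, c21t60, c21t61, c21t62, c21t63, c21t64, c21t65, c21t66, c21t67,
  c21t68, c21t69, c21t70, c21t71, c21t72, c21t73, c21t74, c21t75, c21t76, c21t77, c21t78, c21t79,
  c21t80, c21t81, c21t82, c21t83, c21t84, c21t85, c21t86, c21t87, c21t88, c21t89, c21t90, c21t91,
  c21t92, c21t93, c21t94, c21t95, c21t96, c21t97, c21t98, c21t99, c21t100]

theorem c21k1 : chkLF ⟨4, 0, 0, true, -8⟩ false 1 c21N 44 c21l1 = true := by decide +kernel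

def c21t101 : Tr4 :=
  .br 833 .no (.br 970 .no .no (.hor [.f 970 3 5] []) .no .no (.br 1209 (.use 59) .no (.red [.t
  1089 2 3, .t 1209 3 2, .f 954 3 1, .f 962 1 3] 136 136 [] [(136, 136, []), (152, 136, [1])])
  (.hor [.f 1073 3 1, .f 1081 1 5] [(151, 119, [1, 1])]) .no (.br 1217 (.hor [.f 1217 1 5] []) .no
  (.use 50) .no .no (.br 818 .no (.hor [.f 689 1 5] []) .no (.use 91) (.br 696 .no (.br 704 .no
  (.red [.f 568 1 3, .f 696 3 1, .f 704 1 5] 104 136 [2, 2] [(88, 136, [2, 2, 2]), (104, 136, [2,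
  2])]) (.br 1097 (.br 1096 (.hor [.f 1096 1 5] []) .no (.br 1226 (.hor [.f 1226 1 5] []) .no (.br
  843 .no (.br 841 .no (.con 136 [2, 2, 3, 3]) (.br 978 (.use 55) (.red [.t 849 4 1] 122 136 [2,
  3, 3] [(122, 136, [2, 3, 3])]) (.br 977 (.br 1106 .no .no (.hor [.f 978 3 1, .f 977 1 5] [(139,
  122, [1, 3])]) .no .no .no) .no (.hor [.f 977 3 5] []) .no .no (.red [.t 1089 2 3, .f 960 3 5,
  .f 968 5 3, .f 841 3 1] 122 136 [2, 3, 3] [(122, 136, [2, 3, 3]), (137, 121, [1])])) .no .no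
  (.red [.f 969 5 3, .f 841 3 1] 122 136 [2, 3, 3] [(122, 136, [2, 3, 3])])) .no .no (.use 100))
  (.red [.f 843 3 1, .f 835 1 3, .f 834 3 5] 122 136 [2, 3, 3] [(121, 136, [2, 3]), (122, 136, [2,
  3, 3])]) .no .no .no) .no .no .no) .no .no .no) .no (.use 54) .no .no (.br 1226 (.hor [.f 1226 1
  5] []) .no (.use 62) .no .no (.br 843 .no (.br 841 .no (.con 136 [2, 2, 3, 3]) (.br 978 (.use
  55) (.red [.t 849 4 1] 122 136 [2, 3, 3] [(122, 136, [2, 3, 3])]) (.br 977 (.br 1106 (.red [.t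
  1089 2 3, .f 960 3 5, .f 968 5 1, .f 969 1 3, .t 1105 4 1] 154 136 [3, 3, 1] [(137, 121, [1]),
  (138, 136, [3, 3]), (154, 136, [3, 3, 1])]) .no (.br 976 (.hor [.f 976 1 5] []) (.con 136 [2, 2,
  3, 3, 1]) (.hor [.f 978 3 1, .f 977 1 5] [(139, 123, [1])]) .no .no .no) .no .no .no) .no (.hor
  [.f 977 3 5] []) .no .no (.red [.t 1089 2 3, .f 960 3 5, .f 968 5 3, .f 841 3 1] 122 136 [2, 3,
  3] [(122, 136, [2, 3, 3]), (137, 121, [1])])) .no .no (.red [.f 969 5 3, .f 841 3 1] 122 136 [2,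
  3, 3] [(122, 136, [2, 3, 3])])) .no .no (.use 100)) (.red [.f 843 3 1, .f 835 1 3, .f 834 3 5]
  122 136 [2, 3, 3] [(121, 136, [2, 3]), (122, 136, [2, 3, 3])]) .no .no .no))) .no .no .no) (.red
  [.f 696 3 1, .f 704 1 5] 104 136 [2, 2] [(104, 136, [2, 2])]) (.con 136 [2, 2, 4, 4]) (.red [.t
  832 4 2] 104 136 [2, 2] [(104, 136, [2, 2])]) .no) .no)))) (.hor [.f 833 3 5] []) .no .no .no

def c21t102 : Tr4 :=
  .br 1096 (.hor [.f 1096 1 5] []) .no (.br 1226 (.hor [.f 1226 1 5] []) .no (.br 1200 (.use 61)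
  .no .no (.hor [.f 1064 3 1, .t 1072 1 3, .f 1081 1 5] [(150, 136, [4, 1, 4]), (151, 136, [4,
  1])]) (.red [.f 1200 5 3, .f 1073 3 1, .f 1081 1 5, .t 961 1 4] 136 136 [] [(136, 136, []),
  (151, 135, [1])]) .no) .no .no .no) .no .no .no

def c21t103 : Tr4 :=
  .br 705 .no (.use 96) .no .no (.red [.f 705 5 1, .t 832 4 2] 104 136 [2, 2] [(104, 136, [2,
  2])]) (.red [.f 696 5 3, .f 696 3 1] 104 136 [2, 2] [(104, 136, [2, 2])])

def c21t104 : Tr4 :=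
  .br 971 .no (.red [.f 835 1 3] 121 136 [2, 3] [(121, 136, [2, 3])]) (.br 834 .no (.use 45) (.use
  101) .no .no (.br 818 .no (.hor [.f 689 1 5] []) .no (.use 91) (.br 970 .no (.br 969 (.con 136
  [2, 3, 3]) (.red [.t 953 2 3, .f 824 3 5, .t 968 4 2] 121 136 [2, 3] [(120, 104, [1]), (121,
  136, [2, 3])]) (.con 136 [2, 3, 3]) .no .no .no) (.hor [.f 970 3 5] []) .no .no (.br 1209 (.use
  59) .no (.red [.t 1089 2 3, .t 1209 3 2, .f 954 3 1, .f 962 1 3] 136 136 [] [(136, 136, []),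
  (152, 136, [1])]) (.hor [.f 1073 3 1, .f 1081 1 5] [(151, 119, [1, 1])]) .no (.br 1217 (.hor [.f
  1217 1 5] []) .no (.use 50) .no .no (.br 1072 (.hor [.t 1072 1 3, .f 1081 1 5] [(151, 119, [1,
  1])]) .no .no (.br 696 .no (.use 95) (.red [.f 696 3 1] 104 136 [2, 2] [(104, 136, [2, 2])])
  (.con 136 [2, 2, 4, 4]) (.br 705 .no (.use 96) (.br 842 .no (.red [.t 713 4 1, .t 832 4 2] 105
  136 [2, 2, 3] [(104, 136, [2, 2]), (105, 136, [2, 2, 3])]) (.use 97) .no (.br 1097 (.use 102)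
  .no (.use 54) .no .no (.red [.t 960 3 1, .t 824 3 1, .f 953 3 5, .f 961 5 3, .t 962 3 2] 121 136
  [2, 3] [(120, 104, [1]), (121, 136, [2, 3]), (137, 121, [1])])) (.red [.f 833 5 3, .f 705 3 1,
  .t 832 4 2] 105 136 [2, 2, 3] [(104, 136, [2, 2]), (105, 136, [2, 2, 3])])) .no (.red [.f 705 5
  1, .t 832 4 2] 104 136 [2, 2] [(104, 136, [2, 2])]) (.red [.f 696 5 3, .f 696 3 1] 104 136 [2,
  2] [(104, 136, [2, 2])])) .no) .no .no)))) .no)) .no .no (.br 834 .no (.use 45) (.red [.t 834 3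
  1] 121 136 [2, 3] [(121, 136, [2, 3])]) .no .no (.br 969 (.br 818 .no (.hor [.f 689 1 5] []) .no
  (.use 91) (.br 696 .no (.use 95) (.red [.f 696 3 1] 104 136 [2, 2] [(104, 136, [2, 2])]) (.con
  136 [2, 2, 4, 4]) (.br 705 .no (.use 96) (.br 842 .no (.red [.t 713 4 1, .t 832 4 2] 105 136 [2,
  2, 3] [(104, 136, [2, 2]), (105, 136, [2, 2, 3])]) (.br 841 .no .no (.hor [.f 841 3 5] []) .no
  .no (.red [.t 953 2 3, .f 824 3 5, .f 832 5 3, .f 705 3 1] 105 136 [2, 2, 3] [(105, 136, [2, 2,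
  3]), (120, 104, [1])])) .no (.red [.f 961 1 3, .f 842 5 1, .f 835 1 3] 121 136 [2, 3] [(121,
  136, [2, 3]), (137, 121, [1])]) (.red [.f 833 5 3, .f 705 3 1, .t 832 4 2] 105 136 [2, 2, 3]
  [(104, 136, [2, 2]), (105, 136, [2, 2, 3])])) .no (.red [.f 705 5 1, .t 832 4 2] 104 136 [2, 2]
  [(104, 136, [2, 2])]) (.red [.f 696 5 3, .f 696 3 1] 104 136 [2, 2] [(104, 136, [2, 2])])) .no)
  .no) (.red [.t 953 2 3, .f 824 3 5, .t 968 4 2] 121 136 [2, 3] [(120, 104, [1]), (121, 136, [2,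
  3])]) (.br 841 .no (.br 818 .no (.hor [.f 689 1 5] []) .no (.use 91) (.br 696 .no (.use 95)
  (.red [.f 696 3 1] 104 136 [2, 2] [(104, 136, [2, 2])]) (.con 136 [2, 2, 4, 4]) (.use 103) .no)
  .no) (.red [.f 841 3 1] 122 136 [2, 3, 3] [(122, 136, [2, 3, 3])]) .no (.red [.f 833 5 3, .t 834
  3 1] 121 136 [2, 3] [(121, 136, [2, 3])]) (.red [.t 953 2 3, .f 824 3 5, .f 832 5 3, .f 832 3 1]
  121 136 [2, 3] [(120, 104, [1]), (121, 136, [2, 3])])) .no .no .no))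

def c21t105 : Tr4 :=
  .br 833 .no (.hor [.f 704 1 5] []) (.con 136 [2, 2, 3]) .no .no .no

def c21t106 : Tr4 :=
  .br 816 .no (.red [.f 688 1 3] 103 136 [2, 4, 2] [(103, 136, [2, 4, 2])]) .no (.br 819 .no (.con
  136 [2, 4, 2, 4]) .no (.use 81) .no .no) .no .no

def c21t107 : Tr4 :=
  .br 938 .no (.red [.t 937 3 2, .f 817 1 3] 119 136 [2, 4] [(118, 136, [2, 4, 4]), (119, 136, [2,
  4])]) .no (.br 699 (.use 106) (.con 136 [2, 2, 4]) (.con 136 [2, 2, 4]) (.con 136 [2, 2, 4]) .no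
  (.con 136 [2, 2, 4])) (.red [.f 938 5 3, .f 937 3 5, .f 817 5 1, .f 817 1 3] 119 136 [2, 4]
  [(119, 136, [2, 4])]) .no

def c21t108 : Tr4 :=
  .br 834 .no (.use 45) (.red [.t 962 4 2, .t 1098 4 2, .f 961 1 5, .t 841 1 4] 121 136 [2, 3]
  [(120, 104, [1]), (121, 136, [2, 3]), (137, 121, [1])]) .no .no (.red [.t 953 2 3, .f 824 3 5,
  .t 968 4 2] 121 136 [2, 3] [(120, 104, [1]), (121, 136, [2, 3])])

def c21t109 : Tr4 :=
  .br 819 .no .no .no (.use 81) .no .no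

def c21t110 : Tr4 :=
  .br 699 .no (.hor [.f 570 1 5] []) (.con 136 [2, 2, 2]) (.use 109) .no .no

def c21t111 : Tr4 :=
  .br 811 .no (.red [.f 683 1 3] 102 136 [2, 4, 4, 2] [(102, 136, [2, 4, 4, 2])]) .no (.hor [.f
  802 3 5] []) .no .no

def c21t112 : Tr4 :=
  .br 690 .no (.con 136 [2, 2, 4, 2, 4]) .no (.hor [.f 681 3 5] []) .no .no

def c21t113 : Tr4 :=
  .br 1107 .no (.red [.f 971 1 3] 138 136 [3, 3] [(138, 136, [3, 3])]) (.br 979 .no (.br 816 .no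
  (.br 696 .no (.br 704 .no (.red [.f 568 1 3, .f 696 3 1, .f 688 1 3] 104 136 [2, 2] [(88, 136,
  [2, 2, 2]), (103, 136, [2, 2, 4]), (104, 136, [2, 2])]) (.br 705 .no (.use 92) (.hor [.f 704 3
  5] []) (.use 93) (.br 697 .no (.hor [.f 568 1 5] []) .no (.br 698 .no (.use 110) .no (.hor [.f
  689 3 5] []) (.red [.f 705 5 1, .f 698 5 1, .t 697 4 1] 103 136 [2, 2, 4] [(103, 136, [2, 2,
  4])]) .no) (.br 699 .no (.br 819 .no (.br 689 .no (.br 569 .no (.br 570 .no (.hor [.f 441 1 5]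
  []) (.con 136 [2, 2, 2, 2]) (.red [.t 561 1 3, .f 570 1 5] 87 136 [2, 2, 2, 4] [(87, 136, [2, 2,
  2, 4])]) .no .no) (.red [.f 697 5 3, .f 569 3 1, .f 561 1 3] 88 136 [2, 2, 2] [(87, 136, [2, 2,
  2, 4]), (88, 136, [2, 2, 2])]) .no (.red [.f 569 5 1, .f 561 1 3] 87 136 [2, 2, 2, 4] [(87, 136,
  [2, 2, 2, 4])]) .no) .no (.use 112) (.hor [.f 689 5 1, .f 688 1 5, .f 690 1 5] []) .no) .no
  (.use 81) .no .no) (.con 136 [2, 2, 2]) (.use 109) .no .no) .no) .no) .no (.use 84) .no) (.red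
  [.f 696 3 1] 104 136 [2, 2] [(104, 136, [2, 2])]) .no (.use 98) .no) .no (.use 24) .no .no)
  (.red [.f 979 3 1, .f 971 1 3] 138 136 [3, 3] [(138, 136, [3, 3]), (139, 136, [3, 3, 3])]) .no
  .no (.use 85)) .no .no (.red [.t 1089 2 3, .f 970 1 5, .f 1098 5 3, .f 1099 3 1] 154 136 [3, 3,
  1] [(137, 121, [1]), (154, 136, [3, 3, 1])])

def c21t114 : Tr4 :=
  .br 1224 (.red [.f 1216 5 1, .f 1216 1 3] 169 136 [3, 1, 1] [(169, 136, [3, 1, 1])]) .no (.con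
  136 [3, 1, 3, 1]) .no .no .no

def c21t115 : Tr4 :=
  .br 1345 (.use 64) .no (.red [.t 1345 3 2, .f 1090 3 1] 153 136 [3, 1] [(153, 136, [3, 1]),
  (169, 136, [3, 1, 1])]) (.use 66) .no (.use 114)

def c21t116 : Tr4 :=
  .br 969 (.con 136 [2, 3, 3]) (.hor [.f 841 1 5] []) (.con 136 [2, 3, 3]) .no .no .no

def c21t117 : Tr4 :=
  .br 1226 (.hor [.f 1226 1 5] []) .no (.use 62) .no .no (.br 1345 (.use 64) .no (.red [.t 1345 3
  2, .f 1090 3 1] 153 136 [3, 1] [(153, 136, [3, 1]), (169, 136, [3, 1, 1])]) (.br 1200 (.use 66)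
  .no .no (.hor [.f 1064 3 1, .t 1072 1 3, .f 1081 1 5] [(150, 136, [4, 1, 4]), (151, 136, [4,
  1])]) (.red [.f 1200 5 3, .f 1073 3 1, .f 1081 1 5, .t 961 1 4] 136 136 [] [(136, 136, []),
  (151, 135, [1])]) .no) .no (.use 57))

def c21t118 : Tr4 :=
  .br 1209 (.use 59) .no (.red [.t 1089 2 3, .t 1209 3 2, .f 954 3 1, .f 962 1 3] 136 136 []
  [(136, 136, []), (152, 136, [1])]) (.hor [.f 1073 3 1, .f 1081 1 5] [(151, 136, [4, 1])]) .no
  (.br 1217 (.hor [.f 1217 1 5] []) .no (.use 50) .no .no (.br 1072 (.hor [.t 1072 1 3, .f 1081 1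
  5] [(151, 136, [4, 1])]) .no .no (.br 1097 (.use 102) .no (.use 54) .no .no (.use 117)) .no
  .no))

def c21t119 : Tr4 :=
  .br 970 .no (.use 116) (.hor [.f 970 3 5] []) .no .no (.use 118)

def c21t120 : Tr4 :=
  .br 1224 (.red [.f 1216 5 1, .f 1216 1 3] 169 136 [3, 1, 1] [(169, 136, [3, 1, 1])]) .no (.con
  136 [3, 1, 3, 1]) .no .no .no

def c21t121 : Tr4 :=
  .br 1345 (.br 1224 (.use 51) .no (.con 136 [3, 1, 3, 1]) .no .no .no) .no (.red [.t 1345 3 2, .f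
  1090 3 1] 153 136 [3, 1] [(153, 136, [3, 1]), (169, 136, [3, 1, 1])]) .no .no (.use 120)

def c21t122 : Tr4 :=
  .br 1217 (.hor [.f 1217 1 5] []) .no (.use 50) .no .no (.br 1226 (.hor [.f 1226 1 5] []) .no
  (.use 53) .no .no (.br 1096 (.con 136 [3, 3, 1]) .no (.use 121) .no .no .no))

def c21t123 : Tr4 :=
  .br 1225 (.con 136 [3, 1, 3, 1]) .no (.hor [.f 1225 3 5] []) .no .no (.con 136 [3, 1, 3, 1])

def c21t124 : Tr4 :=
  .br 1224 (.red [.f 1208 5 3, .f 1208 3 1, .f 1216 1 3] 169 136 [3, 1, 1] [(168, 136, [1, 1]),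
  (169, 136, [3, 1, 1])]) .no (.con 136 [3, 1, 3, 1]) .no .no .no

def c21t125 : Tr4 :=
  .br 1344 (.hor [.f 1344 1 5] []) .no (.con 136 [3, 1, 1, 3]) (.use 124) .no .no

def c21t126 : Tr4 :=
  .br 1344 (.use 65) .no (.con 136 [3, 1, 1, 3]) (.use 124) .no .no

def c21t127 : Tr4 :=
  .br 1345 (.use 125) .no (.red [.t 1345 3 2, .f 1090 3 1] 153 136 [3, 1] [(153, 136, [3, 1]),
  (169, 136, [3, 1, 1])]) (.use 126) .no (.use 120)

def c21t128 : Tr4 :=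
  .br 1226 (.hor [.f 1226 1 5] []) .no (.use 123) .no .no (.use 127)

def c21t129 : Tr4 :=
  .br 1217 (.hor [.f 1217 1 5] []) .no (.use 50) .no .no (.br 1072 (.hor [.t 1072 1 3, .f 1081 1
  5] [(151, 136, [4, 1])]) .no .no (.br 1096 (.con 136 [3, 3, 1]) .no (.br 1200 (.use 128) .no .no
  (.hor [.f 1064 3 1, .t 1072 1 3, .f 1081 1 5] [(150, 136, [4, 1, 4]), (151, 136, [4, 1])]) (.red
  [.f 1200 5 3, .f 1073 3 1, .f 1081 1 5, .t 961 1 4] 136 136 [] [(136, 136, []), (151, 135,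
  [1])]) .no) .no .no .no) .no .no)

def c21t130 : Tr4 :=
  .br 1209 (.use 122) .no (.red [.f 961 1 3, .f 1089 3 5, .t 1209 3 2, .f 954 3 1, .t 961 3 1] 136
  136 [] [(136, 136, []), (152, 136, [1])]) (.hor [.f 1073 3 1, .f 1081 1 5] [(151, 136, [4, 1])])
  .no (.use 129)

def c21t131 : Tr4 :=
  .br 819 .no (.con 136 [2, 2, 4, 4]) .no (.use 81) .no .no

def c21l2 : List Tr4 :=
  [c21t101, c21t102, c21t103, c21t104, c21t105, c21t106, c21t107, c21t108, c21t109, c21t110,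
  c21t111, c21t112, c21t113, c21t114, c21t115, c21t116, c21t117, c21t118, c21t119, c21t120,
  c21t121, c21t122, c21t123, c21t124, c21t125, c21t126, c21t127, c21t128, c21t129, c21t130,
  c21t131]

theorem c21k2 : chkLF ⟨4, 0, 0, true, -8⟩ false 1 c21N 101 c21l2 = true := by decide +kernel

def c21t132 : Tr4 :=
  .br 1099 (.red [.f 1091 1 3, .f 1090 3 5] 153 136 [3, 1] [(153, 136, [3, 1])]) (.br 969 (.con
  136 [3, 3]) (.use 108) (.use 72) .no (.br 834 .no (.use 45) (.red [.t 1089 2 3, .f 970 1 5, .t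
  834 3 1] 121 136 [2, 3] [(121, 136, [2, 3]), (137, 121, [1])]) .no .no (.br 1209 (.br 1226 (.red
  [.f 1218 1 3, .f 1090 3 1] 153 136 [3, 1] [(153, 136, [3, 1]), (169, 136, [3, 1, 1])]) .no (.use
  77) .no (.red [.t 1090 3 1, .t 954 3 1, .f 961 1 5] 153 136 [3, 1] [(136, 136, []), (153, 136,
  [3, 1])]) (.br 1097 .no .no (.use 78) .no .no (.br 938 .no (.red [.t 937 3 2, .f 817 1 3] 119
  136 [2, 4] [(118, 136, [2, 4, 4]), (119, 136, [2, 4])]) .no (.br 1217 (.hor [.f 1217 1 5] [])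
  .no .no .no .no (.br 1345 (.br 1227 (.use 56) .no (.use 113) .no .no .no) .no (.red [.t 1345 3
  2, .f 1090 3 1] 153 136 [3, 1] [(153, 136, [3, 1]), (169, 136, [3, 1, 1])]) .no .no (.br 1227
  (.use 114) .no (.use 113) .no .no .no))) (.red [.f 938 5 3, .f 937 3 5, .f 817 5 1, .f 817 1 3]
  119 136 [2, 4] [(119, 136, [2, 4])]) .no))) .no (.red [.t 1089 2 3, .t 1209 3 2, .f 954 3 1, .f
  962 1 3] 136 136 [] [(136, 136, []), (152, 136, [1])]) (.hor [.f 1073 3 1, .f 1081 1 5] [(151,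
  119, [1, 1])]) .no (.br 1072 (.hor [.t 1072 1 3, .f 1081 1 5] [(151, 119, [1, 1])]) .no .no (.br
  938 .no (.red [.t 937 3 2, .f 817 1 3] 119 136 [2, 4] [(118, 136, [2, 4, 4]), (119, 136, [2,
  4])]) .no (.br 1226 (.red [.f 1218 1 3, .f 1090 3 1] 153 136 [3, 1] [(153, 136, [3, 1]), (169,
  136, [3, 1, 1])]) .no (.br 1217 (.hor [.f 1217 1 5] []) .no (.use 0) .no .no (.br 1227 (.br 1097
  (.use 102) .no (.use 78) .no .no (.use 62)) .no (.hor [.f 1226 3 5] []) .no .no .no)) .no (.red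
  [.t 1090 3 1, .t 954 3 1, .f 961 1 5] 153 136 [3, 1] [(136, 136, []), (153, 136, [3, 1])]) (.br
  1097 .no .no (.use 78) .no .no (.br 1217 (.hor [.f 1217 1 5] []) .no .no .no .no (.br 1200 (.br
  1227 (.use 115) .no (.use 113) .no .no .no) .no .no (.hor [.f 1064 3 1, .t 1072 1 3, .f 1081 1
  5] [(150, 118, [1, 1]), (151, 119, [1, 1])]) (.red [.f 1200 5 3, .f 1073 3 1, .f 1081 1 5, .t
  961 1 4] 136 136 [] [(136, 136, []), (151, 135, [1])]) .no)))) (.red [.f 938 5 3, .f 937 3 5, .f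
  817 5 1, .f 817 1 3] 119 136 [2, 4] [(119, 136, [2, 4])]) .no) .no .no))) .no) (.br 1227 (.br
  971 .no (.red [.f 835 1 3] 121 136 [2, 3] [(121, 136, [2, 3])]) (.use 119) .no .no (.br 834 .no
  (.use 45) (.red [.t 834 3 1] 121 136 [2, 3] [(121, 136, [2, 3])]) .no .no (.br 969 (.use 130)
  (.red [.t 953 2 3, .f 824 3 5, .t 968 4 2] 121 136 [2, 3] [(120, 104, [1]), (121, 136, [2, 3])])
  (.br 841 .no (.br 938 .no (.red [.t 937 3 2, .f 817 1 3] 119 136 [2, 4] [(118, 136, [2, 4, 4]),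
  (119, 136, [2, 4])]) .no (.br 842 .no (.hor [.f 713 1 5] []) (.br 696 .no (.br 704 .no (.red [.f
  568 1 3, .f 696 3 1] 104 136 [2, 2] [(88, 136, [2, 2, 2]), (104, 136, [2, 2])]) (.con 136 [2, 2,
  3, 3]) .no (.br 697 .no (.hor [.f 568 1 5] []) .no (.br 698 .no (.use 110) (.red [.t 962 4 2, .f
  825 1 5, .f 825 5 3, .f 698 3 1] 104 136 [2, 2] [(104, 136, [2, 2]), (120, 104, [1])]) (.hor [.f
  689 3 5] []) (.red [.t 953 2 3, .f 698 5 1, .t 697 4 1, .t 833 4 1] 103 136 [2, 2, 4] [(103,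
  136, [2, 2, 4])]) .no) (.red [.t 962 4 2, .f 825 1 5, .f 697 5 1, .t 824 3 2] 104 136 [2, 2]
  [(104, 136, [2, 2]), (120, 104, [1])]) .no) .no) (.red [.f 696 3 1] 104 136 [2, 2] [(104, 136,
  [2, 2])]) (.use 131) (.use 103) .no) .no (.red [.f 842 5 1, .f 835 1 3] 121 136 [2, 3] [(121,
  136, [2, 3])]) .no) (.red [.f 938 5 3, .f 937 3 5, .f 817 5 1, .f 817 1 3] 119 136 [2, 4] [(119,
  136, [2, 4])]) .no) (.red [.f 841 3 1] 122 136 [2, 3, 3] [(122, 136, [2, 3, 3])]) .no (.red [.f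
  833 5 3, .t 834 3 1] 121 136 [2, 3] [(121, 136, [2, 3])]) (.red [.t 953 2 3, .f 824 3 5, .f 832
  5 3, .f 832 3 1] 121 136 [2, 3] [(120, 104, [1]), (121, 136, [2, 3])])) .no .no .no))) .no (.red
  [.f 1099 3 1, .f 1091 1 3, .f 1090 3 5] 153 136 [3, 1] [(153, 136, [3, 1]), (154, 136, [3, 3,
  1])]) .no .no (.red [.t 1090 3 1, .t 954 3 1, .f 961 1 5] 153 136 [3, 1] [(136, 136, []), (153,
  136, [3, 1])])) .no .no .no

def c21t133 : Tr4 :=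
  .br 817 .no (.br 1099 (.red [.f 1091 1 3, .f 1090 3 5] 153 136 [3, 1] [(153, 136, [3, 1])]) (.br
  824 .no (.use 80) (.br 969 (.con 136 [3, 3]) (.br 834 .no (.use 45) (.br 826 .no (.use 47) .no
  (.br 833 .no (.br 827 .no (.br 696 .no (.br 697 .no (.hor [.f 568 1 5] []) .no .no (.br 938 .no
  (.red [.t 817 2 3, .t 937 3 2, .f 817 1 3, .f 689 3 1] 119 136 [2, 4] [(118, 136, [2, 4, 4]),
  (119, 136, [2, 4])]) .no (.br 819 .no (.use 48) .no (.use 81) .no .no) (.red [.f 938 5 3, .f 937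
  3 5, .t 825 1 4, .f 944 3 5] 119 136 [2, 4] [(119, 136, [2, 4])]) .no) .no) (.red [.f 696 3 1,
  .f 704 1 5] 104 136 [2, 2] [(104, 136, [2, 2])]) (.br 697 .no (.br 819 .no (.con 136 [2, 2, 4,
  4]) .no (.use 82) .no .no) .no .no (.red [.t 817 2 3, .f 688 3 5, .t 832 4 2] 104 136 [2, 2]
  [(103, 87, [1]), (104, 136, [2, 2])]) .no) (.red [.t 832 4 2] 104 136 [2, 2] [(104, 136, [2,
  2])]) .no) .no (.hor [.f 818 3 5] []) .no .no) .no .no .no .no) (.red [.t 962 4 2, .t 1098 4 2,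
  .f 961 1 5, .t 841 1 4] 121 136 [2, 3] [(120, 104, [1]), (121, 136, [2, 3]), (137, 121, [1])])
  .no) (.con 136 [2, 2]) .no (.red [.t 953 2 3, .f 824 3 5, .t 968 4 2] 121 136 [2, 3] [(120, 104,
  [1]), (121, 136, [2, 3])])) (.use 72) .no (.br 834 .no (.use 45) (.red [.t 1089 2 3, .f 970 1 5,
  .t 834 3 1] 121 136 [2, 3] [(121, 136, [2, 3]), (137, 121, [1])]) (.con 136 [2, 2]) .no (.br 826
  .no (.use 47) .no (.use 90) (.br 818 .no (.hor [.f 689 1 5] []) .no (.use 91) (.use 99) .no)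
  .no)) .no) (.red [.f 816 3 1, .f 824 1 5] 119 136 [2, 4] [(119, 136, [2, 4])]) .no .no) (.br 824
  .no (.use 80) (.br 826 .no (.use 47) (.con 136 [2, 2]) (.use 90) (.br 1227 (.use 104) .no (.red
  [.f 1099 3 1, .f 1091 1 3, .f 1090 3 5] 153 136 [3, 1] [(153, 136, [3, 1]), (154, 136, [3, 3,
  1])]) .no .no (.red [.t 1090 3 1, .t 954 3 1, .f 961 1 5] 153 136 [3, 1] [(136, 136, []), (153,
  136, [3, 1])])) .no) (.red [.f 816 3 1, .f 824 1 5] 119 136 [2, 4] [(119, 136, [2, 4])]) .no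
  .no) .no .no .no) .no (.red [.f 809 3 1, .f 817 1 3] 119 136 [2, 4] [(118, 136, [2, 4, 4]),
  (119, 136, [2, 4])]) (.br 826 .no (.use 70) (.br 824 .no (.use 107) (.con 136 [2, 2]) (.red [.f
  816 3 1, .f 824 1 5] 119 136 [2, 4] [(119, 136, [2, 4])]) .no .no) .no (.br 824 .no (.use 25)
  (.use 132) (.red [.f 816 3 1, .f 824 1 5] 119 136 [2, 4] [(119, 136, [2, 4])]) .no .no) .no)
  (.red [.t 952 4 2] 119 136 [2, 4] [(119, 136, [2, 4])])

def c21t134 : Tr4 :=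
  .br 816 .no (.red [.f 688 1 3] 103 136 [2, 4, 2] [(103, 136, [2, 4, 2])]) .no (.br 939 (.hor [.f
  938 1 5] []) (.con 136 [2, 4, 4, 2]) .no (.use 15) .no .no) .no .no

def c21t135 : Tr4 :=
  .br 1107 .no (.red [.f 971 1 3] 138 136 [3, 3] [(138, 136, [3, 3])]) (.br 979 .no (.br 840 .no
  (.red [.f 704 1 3] 105 136 [2, 2, 3] [(105, 136, [2, 2, 3])]) (.use 83) .no (.br 705 .no (.br
  842 .no (.br 706 .no (.hor [.f 577 1 5] []) .no (.red [.t 962 4 2, .f 825 1 5, .f 825 5 3, .f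
  698 3 1, .f 706 1 3] 105 136 [2, 2, 3] [(104, 136, [2, 2]), (105, 136, [2, 2, 3]), (120, 119,
  [3])]) (.red [.t 953 2 3, .f 834 1 5, .f 706 5 1, .f 706 1 3] 105 136 [2, 2, 3] [(105, 136, [2,
  2, 3]), (120, 119, [3])]) .no) (.con 136 [2, 3, 3, 2]) .no (.red [.t 1089 2 3, .f 970 1 5, .f
  842 5 1, .f 835 1 3] 121 136 [2, 3] [(121, 136, [2, 3]), (137, 121, [1])]) .no) (.red [.t 704 1
  3] 105 136 [2, 2, 3] [(105, 136, [2, 2, 3])]) (.br 1203 (.hor [.f 1203 1 3, .t 1210 2 4, .f 1073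
  3 5] [(151, 119, [1, 1]), (167, 119, [1, 1, 1])]) .no .no (.br 819 .no (.con 136 [2, 2, 4, 4])
  .no (.use 27) .no .no) .no .no) (.red [.f 705 5 1, .f 704 1 5, .f 832 5 3, .f 832 3 1] 121 136
  [2, 3] [(121, 136, [2, 3])]) .no) .no) (.red [.f 979 3 1, .f 971 1 3] 138 136 [3, 3] [(138, 136,
  [3, 3]), (139, 136, [3, 3, 3])]) .no .no (.use 85)) .no .no (.red [.t 1089 2 3, .f 970 1 5, .f
  1098 5 3, .f 1099 3 1] 154 136 [3, 3, 1] [(137, 121, [1]), (154, 136, [3, 3, 1])])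

def c21t136 : Tr4 :=
  .br 939 (.use 10) (.con 136 [2, 4, 4, 2]) .no (.use 18) .no (.red [.f 938 5 3, .f 937 3 5, .t
  825 1 4, .f 944 3 5] 119 136 [2, 4] [(119, 136, [2, 4])])

def c21t137 : Tr4 :=
  .br 819 .no (.con 136 [2, 4, 2, 4]) .no (.use 27) .no .no

def c21t138 : Tr4 :=
  .br 1200 (.br 1227 (.use 61) .no (.hor [.f 1226 3 5] []) .no .no .no) .no .no (.hor [.f 1064 3
  1, .t 1072 1 3, .f 1081 1 5] [(150, 136, [4, 4, 1]), (151, 136, [4, 1])]) (.red [.f 1200 5 3, .f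
  1073 3 1, .f 1081 1 5, .t 961 1 4] 136 136 [] [(136, 136, []), (151, 135, [1])]) .no

def c21t139 : Tr4 :=
  .br 1225 (.br 1227 (.con 136 [3, 3, 1, 1]) .no (.hor [.f 1226 3 5] []) .no .no .no) .no (.hor
  [.f 1225 3 5] []) .no .no (.br 1227 (.con 136 [3, 3, 1, 1]) .no (.hor [.f 1226 3 5] []) .no .no
  .no)

def c21t140 : Tr4 :=
  .br 1217 (.hor [.f 1217 1 5] []) .no (.use 0) .no .no (.br 1072 (.hor [.t 1072 1 3, .f 1081 1 5]
  [(151, 136, [4, 1])]) .no .no (.br 1097 (.br 1096 (.hor [.f 1096 1 5] []) .no (.use 138) .no .no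
  .no) .no (.use 78) .no .no (.use 139)) .no .no)

def c21t141 : Tr4 :=
  .br 816 .no (.red [.f 696 1 3, .f 696 3 1, .f 688 1 3, .f 816 3 1] 119 136 [2, 4] [(103, 136,
  [2, 2, 4]), (119, 136, [2, 4])]) .no (.br 817 .no (.br 826 .no (.use 73) .no (.br 1202 (.br 827
  .no (.use 136) .no (.con 136 [2, 2, 4, 4]) .no .no) .no .no (.use 19) (.red [.f 1074 5 1, .f
  1074 1 3, .f 1073 3 5, .t 961 1 4] 136 136 [] [(136, 136, []), (151, 135, [1])]) (.red [.t 953 2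
  3, .t 833 4 1, .t 1081 4 1, .t 961 1 4] 136 136 [] [(136, 136, []), (151, 135, [1])])) (.use 75)
  .no) .no (.hor [.f 808 3 5] []) (.br 826 .no (.use 22) .no .no (.br 1202 (.br 1203 (.hor [.f
  1203 1 3, .t 1210 2 4, .f 1073 3 5] [(151, 119, [1, 1]), (167, 119, [1, 1, 1])]) .no .no (.use
  137) .no .no) .no .no (.br 1203 (.hor [.f 1203 1 3, .t 1210 2 4, .f 1073 3 5] [(151, 119, [1,
  1]), (167, 119, [1, 1, 1])]) .no .no (.use 137) .no .no) (.red [.f 1074 5 1, .f 1074 1 3, .f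
  1073 3 5, .t 961 1 4] 136 136 [] [(136, 136, []), (151, 135, [1])]) (.red [.t 953 2 3, .t 833 4
  1, .t 1081 4 1, .t 961 1 4] 136 136 [] [(136, 136, []), (151, 135, [1])])) .no) .no) (.red [.t
  953 2 3, .t 833 4 1, .t 952 4 2] 119 136 [2, 4] [(119, 136, [2, 4])]) .no

def c21t142 : Tr4 :=
  .br 1211 (.use 141) .no .no (.hor [.t 1210 2 4, .f 1073 3 5] [(151, 119, [1, 1])]) .no .no

def c21t143 : Tr4 :=
  .br 970 .no (.con 136 [2, 3, 3]) (.hor [.f 969 3 5] []) .no .no .no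

def c21t144 : Tr4 :=
  .br 1217 (.hor [.f 1217 1 5] []) .no (.use 50) .no .no (.br 1226 (.hor [.f 1226 1 5] []) .no
  (.use 53) .no .no (.br 1097 .no .no (.use 54) .no .no (.use 58)))

def c21t145 : Tr4 :=
  .br 816 .no (.red [.f 688 1 3] 103 136 [2, 2, 4] [(103, 136, [2, 2, 4])]) .no (.br 1203 (.hor
  [.f 1203 1 3, .t 1210 2 4, .f 1073 3 5] [(151, 119, [1, 1]), (167, 119, [1, 1, 1])]) .no .no
  (.use 137) .no .no) .no .no

def c21t146 : Tr4 :=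
  .br 816 .no (.red [.f 688 1 3] 103 136 [2, 2, 4] [(103, 136, [2, 2, 4])]) .no (.br 1203 (.hor
  [.f 1203 1 3, .t 1210 2 4, .f 1073 3 5] [(151, 119, [1, 1]), (167, 119, [1, 1, 1])]) .no .no
  (.use 137) .no .no) .no .no

def c21t147 : Tr4 :=
  .br 1099 (.red [.f 1091 1 3, .f 1090 3 5] 153 136 [3, 1] [(153, 136, [3, 1])]) (.br 969 (.con
  136 [3, 3]) (.red [.t 953 2 3, .f 696 1 3, .f 824 3 5, .t 968 4 2] 121 136 [2, 3] [(104, 105,
  [4]), (120, 119, [3]), (121, 136, [2, 3])]) (.use 72) .no (.br 1209 (.br 1208 (.hor [.f 1208 1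
  5] []) .no (.use 49) (.br 1226 (.red [.f 1218 1 3, .f 1090 3 1] 153 136 [3, 1] [(153, 136, [3,
  1]), (169, 136, [3, 1, 1])]) .no (.use 77) .no (.red [.t 1090 3 1, .t 954 3 1, .f 961 1 5] 153
  136 [3, 1] [(136, 136, []), (153, 136, [3, 1])]) (.br 1211 (.br 817 .no (.use 16) .no (.red [.f
  809 3 1, .f 817 1 3] 119 136 [2, 4] [(118, 136, [2, 4, 4]), (119, 136, [2, 4])]) (.br 826 .no
  (.use 22) .no .no (.br 1097 .no .no (.use 78) .no .no (.br 1217 (.hor [.f 1217 1 5] []) .no .no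
  .no .no (.br 1201 (.hor [.f 1201 1 3, .f 1200 3 5] [(167, 168, [4])]) .no .no (.br 1202 (.br 816
  .no (.red [.f 688 1 3] 103 136 [2, 2, 4] [(103, 136, [2, 2, 4])]) .no (.br 1345 (.br 1227 (.use
  56) .no (.use 135) .no .no .no) .no (.red [.t 1345 3 2, .f 1090 3 1] 153 136 [3, 1] [(153, 136,
  [3, 1]), (169, 136, [3, 1, 1])]) .no .no (.br 1227 (.use 114) .no (.use 135) .no .no .no)) .no
  .no) .no .no (.hor [.f 1193 3 5] []) (.red [.f 1074 5 1, .f 1074 1 3, .f 1073 3 5, .t 961 1 4]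
  136 136 [] [(136, 136, []), (151, 135, [1])]) .no) (.red [.t 953 2 3, .t 833 4 1, .t 1081 4 1,
  .t 961 1 4] 136 136 [] [(136, 136, []), (151, 135, [1])]) .no))) .no) (.red [.t 953 2 3, .t 833
  4 1, .t 952 4 2] 119 136 [2, 4] [(119, 136, [2, 4])])) .no .no (.hor [.t 1210 2 4, .f 1073 3 5]
  [(151, 119, [1, 1])]) .no .no)) .no .no) .no (.red [.t 1089 2 3, .t 1209 3 2, .f 954 3 1, .f 962
  1 3] 136 136 [] [(136, 136, []), (152, 136, [1])]) (.hor [.f 1073 3 1, .f 1081 1 5] [(151, 119,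
  [1, 1])]) .no (.use 142)) .no) (.br 1227 (.br 1211 (.br 1209 (.br 969 (.use 122) (.red [.t 953 2
  3, .f 696 1 3, .f 824 3 5, .t 968 4 2] 121 136 [2, 3] [(104, 105, [4]), (120, 119, [3]), (121,
  136, [2, 3])]) (.use 144) .no (.use 59) .no) .no (.br 817 .no (.use 14) .no (.red [.f 809 3 1,
  .f 817 1 3] 119 136 [2, 4] [(118, 136, [2, 4, 4]), (119, 136, [2, 4])]) (.br 826 .no (.use 22)
  .no .no (.br 1202 (.use 145) .no .no (.use 146) (.red [.f 1074 5 1, .f 1074 1 3, .f 1073 3 5, .t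
  961 1 4] 136 136 [] [(136, 136, []), (151, 135, [1])]) (.red [.t 953 2 3, .t 833 4 1, .t 1081 4
  1, .t 961 1 4] 136 136 [] [(136, 136, []), (151, 135, [1])])) .no) (.red [.t 953 2 3, .t 833 4
  1, .t 952 4 2] 119 136 [2, 4] [(119, 136, [2, 4])])) (.hor [.f 1073 3 1, .f 1081 1 5] [(151,
  119, [1, 1])]) .no (.use 141)) .no .no (.hor [.t 1210 2 4, .f 1073 3 5] [(151, 119, [1, 1])])
  .no .no) .no (.red [.f 1099 3 1, .f 1091 1 3, .f 1090 3 5] 153 136 [3, 1] [(153, 136, [3, 1]),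
  (154, 136, [3, 3, 1])]) .no .no (.red [.t 1090 3 1, .t 954 3 1, .f 961 1 5] 153 136 [3, 1]
  [(136, 136, []), (153, 136, [3, 1])])) .no .no .no

def c21t148 : Tr4 :=
  .br 826 .no (.use 74) (.use 79) (.br 1211 (.br 1209 (.use 16) .no (.use 14) (.hor [.f 1073 3 1,
  .f 1081 1 5] [(151, 119, [1, 1])]) .no (.br 1202 (.br 827 .no (.br 816 .no (.hor [.f 688 1 5]
  []) .no (.use 136) .no .no) .no (.hor [.f 818 3 5] []) .no .no) .no .no (.use 20) (.red [.f 1074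
  5 1, .f 1074 1 3, .f 1073 3 5, .t 961 1 4] 136 136 [] [(136, 136, []), (151, 135, [1])]) (.red
  [.t 1081 4 1, .t 961 1 4] 136 136 [] [(136, 136, []), (151, 135, [1])]))) .no .no (.hor [.t 1210
  2 4, .f 1073 3 5] [(151, 119, [1, 1])]) .no .no) (.use 76) .no

def c21t149 : Tr4 :=
  .br 1107 .no (.red [.f 971 1 3] 138 136 [3, 3] [(138, 136, [3, 3])]) (.br 979 .no (.con 136 [2,
  3, 3, 2]) (.red [.f 979 3 1, .f 971 1 3] 138 136 [3, 3] [(138, 136, [3, 3]), (139, 136, [3, 3,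
  3])]) .no .no (.use 85)) .no .no (.red [.t 1089 2 3, .f 970 1 5, .f 1098 5 3, .f 1099 3 1] 154
  136 [3, 3, 1] [(137, 121, [1]), (154, 136, [3, 3, 1])])

def c21t150 : Tr4 :=
  .br 1227 (.use 114) .no (.use 149) .no .no .no

def c21l3 : List Tr4 :=
  [c21t132, c21t133, c21t134, c21t135, c21t136, c21t137, c21t138, c21t139, c21t140, c21t141,
  c21t142, c21t143, c21t144, c21t145, c21t146, c21t147, c21t148, c21t149, c21t150]

theorem c21k3 : chkLF ⟨4, 0, 0, true, -8⟩ false 1 c21N 132 c21l3 = true := by decide +kernel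

def c21t151 : Tr4 :=
  .br 1345 (.br 1227 (.use 56) .no (.use 149) .no .no .no) .no (.red [.t 1345 3 2, .f 1090 3 1]
  153 136 [3, 1] [(153, 136, [3, 1]), (169, 136, [3, 1, 1])]) .no .no (.use 150)

def c21t152 : Tr4 :=
  .br 1201 (.hor [.f 1201 1 3, .f 1200 3 5] [(167, 168, [4])]) .no .no (.br 1202 (.br 938 (.use
  134) (.red [.t 937 3 2, .f 817 1 3] 119 136 [2, 4] [(118, 136, [2, 4, 4]), (119, 136, [2, 4])])
  .no (.br 699 (.br 816 .no (.red [.f 688 1 3] 103 136 [2, 2, 4] [(103, 136, [2, 2, 4])]) .no (.br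
  939 (.br 819 .no (.con 136 [2, 2, 4, 4]) .no (.red [.f 946 5 1, .f 939 1 3, .f 811 3 1] 118 136
  [2, 4, 4] [(118, 136, [2, 4, 4]), (134, 136, [4, 4])]) .no .no) (.con 136 [2, 4, 4, 2]) .no
  (.hor [.f 930 3 5] []) .no .no) .no .no) (.con 136 [2, 2, 4]) (.con 136 [2, 2, 4]) (.con 136 [2,
  2, 4]) .no (.con 136 [2, 2, 4])) (.red [.f 938 5 3, .f 937 3 5, .f 817 5 1, .f 817 1 3] 119 136
  [2, 4] [(119, 136, [2, 4])]) .no) .no .no (.hor [.f 1193 3 5] []) (.red [.f 1074 5 1, .f 1074 1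
  3, .f 1073 3 5, .t 961 1 4] 136 136 [] [(136, 136, []), (151, 135, [1])]) .no) (.red [.f 826 3
  1, .f 826 1 3, .t 1081 4 1, .t 961 1 4] 136 136 [] [(136, 136, []), (151, 135, [1])]) .no

def c21t153 : Tr4 :=
  .br 1208 (.hor [.f 1208 1 5] []) .no (.use 49) (.use 152) .no .no

def c21t154 : Tr4 :=
  .br 1107 .no (.red [.f 971 1 3] 138 136 [3, 3] [(138, 136, [3, 3])]) (.br 979 .no (.br 841 .no
  (.br 842 .no (.hor [.f 713 1 5] []) (.con 136 [2, 3, 3, 2]) .no (.red [.t 1089 2 3, .f 970 1 5,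
  .f 842 5 1, .f 835 1 3] 121 136 [2, 3] [(121, 136, [2, 3]), (137, 121, [1])]) .no) (.br 978
  (.use 86) (.red [.t 849 4 1, .t 968 4 2] 122 136 [2, 3, 3] [(121, 136, [2, 3]), (122, 136, [2,
  3, 3])]) (.br 977 (.red [.t 960 3 1, .f 1089 3 5, .f 969 5 1, .f 969 1 3] 138 136 [3, 3] [(137,
  121, [1]), (138, 136, [3, 3])]) .no (.hor [.f 977 3 5] []) .no .no (.con 136 [2, 3, 3, 3])) .no
  .no (.red [.f 969 5 3, .f 841 3 1, .t 968 4 2] 122 136 [2, 3, 3] [(121, 136, [2, 3]), (122, 136,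
  [2, 3, 3])])) .no (.red [.f 841 5 1, .t 968 4 2] 121 136 [2, 3] [(121, 136, [2, 3])]) (.red [.f
  832 5 3, .f 832 3 1] 121 136 [2, 3] [(121, 136, [2, 3])])) (.red [.f 979 3 1, .f 971 1 3] 138
  136 [3, 3] [(138, 136, [3, 3]), (139, 136, [3, 3, 3])]) .no .no (.use 85)) .no .no (.red [.t
  1089 2 3, .f 970 1 5, .f 1098 5 3, .f 1099 3 1] 154 136 [3, 3, 1] [(137, 121, [1]), (154, 136,
  [3, 3, 1])])

def c21t155 : Tr4 :=
  .br 816 .no (.red [.f 688 1 3] 103 136 [2, 4, 2] [(103, 136, [2, 4, 2])]) .no (.use 28) .no .no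

def c21t156 : Tr4 :=
  .br 1200 (.use 61) .no .no (.hor [.f 1064 3 1, .t 1072 1 3, .f 1081 1 5] [(150, 136, [4, 4, 1]),
  (151, 136, [4, 1])]) (.red [.f 1200 5 3, .f 1073 3 1, .f 1081 1 5, .t 961 1 4] 136 136 [] [(136,
  136, []), (151, 135, [1])]) .no

def c21t157 : Tr4 :=
  .br 1096 (.hor [.f 1096 1 5] []) .no (.br 1226 (.hor [.f 1226 1 5] []) .no (.use 156) .no .no
  .no) .no .no .no

def c21t158 : Tr4 :=
  .br 1226 (.hor [.f 1226 1 5] []) .no (.use 62) .no .no (.br 1345 (.use 64) .no (.red [.t 1345 3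
  2, .f 1090 3 1] 153 136 [3, 1] [(153, 136, [3, 1]), (169, 136, [3, 1, 1])]) (.br 1200 (.use 66)
  .no .no (.hor [.f 1064 3 1, .t 1072 1 3, .f 1081 1 5] [(150, 136, [4, 4, 1]), (151, 136, [4,
  1])]) (.red [.f 1200 5 3, .f 1073 3 1, .f 1081 1 5, .t 961 1 4] 136 136 [] [(136, 136, []),
  (151, 135, [1])]) .no) .no (.use 57))

def c21t159 : Tr4 :=
  .br 1072 (.hor [.t 1072 1 3, .f 1081 1 5] [(151, 136, [4, 1])]) .no .no (.br 1097 (.use 157) .no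
  (.use 54) .no .no (.use 158)) .no .no

def c21t160 : Tr4 :=
  .br 1226 (.hor [.f 1226 1 5] []) .no (.use 123) .no .no (.br 1096 (.con 136 [3, 3, 1]) .no (.br
  1345 (.use 125) .no (.red [.t 1345 3 2, .f 1090 3 1] 153 136 [3, 1] [(153, 136, [3, 1]), (169,
  136, [3, 1, 1])]) (.br 1072 (.hor [.t 1072 1 3, .f 1081 1 5] [(151, 136, [4, 1])]) .no .no (.br
  1200 (.use 126) .no .no (.hor [.f 1064 3 1, .t 1072 1 3, .f 1081 1 5] [(150, 136, [4, 4, 1]),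
  (151, 136, [4, 1])]) (.red [.f 1200 5 3, .f 1073 3 1, .f 1081 1 5, .t 961 1 4] 136 136 [] [(136,
  136, []), (151, 135, [1])]) .no) .no .no) .no (.use 120)) .no .no .no)

def c21t161 : Tr4 :=
  .br 1217 (.hor [.f 1217 1 5] []) .no (.use 50) .no .no (.br 971 .no (.red [.f 835 1 3] 121 136
  [2, 3] [(121, 136, [2, 3])]) (.br 970 .no (.use 116) (.hor [.f 970 3 5] []) .no .no (.use 159))
  .no .no (.br 969 (.use 160) (.red [.t 968 4 2] 121 136 [2, 3] [(121, 136, [2, 3])]) (.br 1097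
  (.br 1072 (.hor [.t 1072 1 3, .f 1081 1 5] [(151, 136, [4, 1])]) .no .no (.use 157) .no .no) .no
  (.use 54) .no .no (.br 1072 (.hor [.t 1072 1 3, .f 1081 1 5] [(151, 136, [4, 1])]) .no .no (.use
  158) .no .no)) .no .no .no))

def c21t162 : Tr4 :=
  .br 1345 (.br 1227 (.use 64) .no (.use 149) .no .no .no) .no (.red [.t 1345 3 2, .f 1090 3 1]
  153 136 [3, 1] [(153, 136, [3, 1]), (169, 136, [3, 1, 1])]) (.br 1344 (.use 65) .no (.br 1227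
  (.con 136 [3, 1, 1, 3]) .no (.use 149) .no .no .no) (.hor [.f 1336 3 5] []) .no .no) .no (.use
  150)

def c21t163 : Tr4 :=
  .br 1099 (.red [.f 1091 1 3, .f 1090 3 5] 153 136 [3, 1] [(153, 136, [3, 1])]) (.br 969 (.con
  136 [3, 3]) (.red [.t 968 4 2] 121 136 [2, 3] [(121, 136, [2, 3])]) (.use 72) .no (.br 1209 (.br
  1226 (.red [.f 1218 1 3, .f 1090 3 1] 153 136 [3, 1] [(153, 136, [3, 1]), (169, 136, [3, 1,
  1])]) .no (.use 77) .no (.red [.t 1090 3 1, .t 954 3 1, .f 961 1 5] 153 136 [3, 1] [(136, 136,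
  []), (153, 136, [3, 1])]) (.br 1097 .no .no (.use 78) .no .no (.br 834 .no (.br 842 .no (.red
  [.f 706 1 3] 105 136 [2, 2, 3] [(105, 136, [2, 2, 3])]) (.br 1217 (.hor [.f 1217 1 5] []) .no
  .no .no .no (.br 841 .no (.use 151) (.hor [.f 841 3 5] []) .no .no (.red [.f 832 5 3, .f 832 3
  1] 121 136 [2, 3] [(121, 136, [2, 3])]))) .no (.red [.t 1089 2 3, .f 970 1 5, .f 842 5 1, .f 835
  1 3] 121 136 [2, 3] [(121, 136, [2, 3]), (137, 121, [1])]) (.red [.f 841 5 1, .t 968 4 2] 121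
  136 [2, 3] [(121, 136, [2, 3])])) (.red [.t 960 3 1, .f 832 5 1, .t 833 1 3] 121 136 [2, 3]
  [(121, 136, [2, 3]), (137, 121, [1])]) .no .no .no))) .no (.red [.t 1089 2 3, .t 1209 3 2, .f
  954 3 1, .f 962 1 3] 136 136 [] [(136, 136, []), (152, 136, [1])]) (.hor [.f 1073 3 1, .f 1081 1
  5] [(151, 119, [1, 1])]) .no (.br 1226 (.red [.f 1218 1 3, .f 1090 3 1] 153 136 [3, 1] [(153,
  136, [3, 1]), (169, 136, [3, 1, 1])]) .no (.use 140) .no (.red [.t 1090 3 1, .t 954 3 1, .f 961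
  1 5] 153 136 [3, 1] [(136, 136, []), (153, 136, [3, 1])]) (.br 1097 .no .no (.use 78) .no .no
  (.br 834 .no (.br 842 .no (.red [.f 706 1 3] 105 136 [2, 2, 3] [(105, 136, [2, 2, 3])]) (.br 841
  .no (.br 1072 (.hor [.t 1072 1 3, .f 1081 1 5] [(151, 119, [1, 1])]) .no .no (.br 1217 (.hor [.f
  1217 1 5] []) .no .no .no .no (.br 1200 (.use 162) .no .no (.hor [.f 1064 3 1, .t 1072 1 3, .f
  1081 1 5] [(150, 118, [1, 1]), (151, 119, [1, 1])]) (.red [.f 1200 5 3, .f 1073 3 1, .f 1081 1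
  5, .t 961 1 4] 136 136 [] [(136, 136, []), (151, 135, [1])]) .no)) .no .no) (.hor [.f 841 3 5]
  []) .no .no (.red [.f 832 5 3, .f 832 3 1] 121 136 [2, 3] [(121, 136, [2, 3])])) .no (.red [.t
  1089 2 3, .f 970 1 5, .f 842 5 1, .f 835 1 3] 121 136 [2, 3] [(121, 136, [2, 3]), (137, 121,
  [1])]) (.red [.f 841 5 1, .t 968 4 2] 121 136 [2, 3] [(121, 136, [2, 3])])) (.red [.t 960 3 1,
  .f 832 5 1, .t 833 1 3] 121 136 [2, 3] [(121, 136, [2, 3]), (137, 121, [1])]) .no .no .no))))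
  .no) (.br 1227 (.br 971 .no (.red [.f 835 1 3] 121 136 [2, 3] [(121, 136, [2, 3])]) (.br 970 .no
  (.use 116) (.hor [.f 970 3 5] []) .no .no (.br 1209 (.use 59) .no (.red [.t 1089 2 3, .t 1209 3
  2, .f 954 3 1, .f 962 1 3] 136 136 [] [(136, 136, []), (152, 136, [1])]) (.hor [.f 1073 3 1, .f
  1081 1 5] [(151, 119, [1, 1])]) .no (.use 161))) .no .no (.br 969 (.br 1209 (.use 122) .no (.red
  [.f 961 1 3, .f 1089 3 5, .t 1209 3 2, .f 954 3 1, .t 961 3 1] 136 136 [] [(136, 136, []), (152,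
  136, [1])]) (.hor [.f 1073 3 1, .f 1081 1 5] [(151, 119, [1, 1])]) .no (.use 161)) (.red [.t 968
  4 2] 121 136 [2, 3] [(121, 136, [2, 3])]) (.br 1209 (.use 144) .no (.br 1202 (.use 145) .no .no
  (.use 146) (.red [.f 1074 5 1, .f 1074 1 3, .f 1073 3 5, .t 961 1 4] 136 136 [] [(136, 136, []),
  (151, 135, [1])]) (.red [.t 962 4 2, .t 826 1 3, .t 1081 4 1, .t 961 1 4] 136 136 [] [(136, 136,
  []), (151, 135, [1])])) (.hor [.f 1073 3 1, .f 1081 1 5] [(151, 119, [1, 1])]) .no (.use 161))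
  .no .no .no)) .no (.red [.f 1099 3 1, .f 1091 1 3, .f 1090 3 5] 153 136 [3, 1] [(153, 136, [3,
  1]), (154, 136, [3, 3, 1])]) .no .no (.red [.t 1090 3 1, .t 954 3 1, .f 961 1 5] 153 136 [3, 1]
  [(136, 136, []), (153, 136, [3, 1])])) .no .no .no

def c21t164 : Tr4 :=
  .br 816 .no (.hor [.f 688 1 5] []) .no (.con 136 [2, 4, 4, 2]) .no .no

def c21t165 : Tr4 :=
  .br 939 (.hor [.f 938 1 5] []) (.use 164) .no (.use 11) .no .no

def c21t166 : Tr4 :=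
  .br 939 (.red [.f 946 5 1, .f 939 1 3, .f 811 3 1] 118 136 [4, 2, 4] [(118, 136, [4, 2, 4]),
  (134, 136, [4, 4])]) .no .no (.hor [.f 930 3 5] []) .no .no

def c21t167 : Tr4 :=
  .br 938 (.use 165) (.red [.t 810 1 3, .f 937 3 5] 118 136 [2, 4, 4] [(118, 136, [2, 4, 4])]) .no
  (.use 166) (.red [.f 938 5 3, .f 811 3 1] 118 136 [2, 4, 4] [(118, 136, [2, 4, 4])]) .no

def c21t168 : Tr4 :=
  .br 816 .no (.hor [.f 688 1 5] []) .no (.con 136 [2, 4, 4, 2]) .no .no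

def c21t169 : Tr4 :=
  .br 819 .no (.use 168) .no (.use 167) .no .no

def c21t170 : Tr4 :=
  .br 1201 (.hor [.f 1201 1 3, .f 1200 3 5] [(167, 168, [4])]) .no .no (.br 1202 (.br 827 .no (.br
  1203 (.hor [.f 1203 1 3, .t 1210 2 4, .f 1073 3 5] [(151, 119, [1, 1]), (167, 168, [4])]) .no
  .no (.use 169) .no .no) .no (.hor [.f 818 3 5] []) .no .no) .no .no (.hor [.f 1193 3 5] [])
  (.red [.f 1074 5 1, .f 1074 1 3, .f 1073 3 5, .t 961 1 4] 136 136 [] [(136, 136, []), (151, 135,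
  [1])]) .no) (.red [.t 953 2 3, .t 833 4 1, .t 1081 4 1, .t 961 1 4] 136 136 [] [(136, 136, []),
  (151, 135, [1])]) .no

def c21t171 : Tr4 :=
  .br 1208 (.hor [.f 1208 1 5] []) .no (.use 49) (.use 170) .no .no

def c21t172 : Tr4 :=
  .br 977 (.red [.t 960 3 1, .f 1089 3 5, .f 969 5 1, .f 969 1 3] 138 136 [3, 3] [(137, 121, [1]),
  (138, 136, [3, 3])]) .no (.br 978 (.br 1107 (.con 136 [3, 3, 3]) (.red [.f 971 1 3] 138 136 [3,
  3] [(138, 136, [3, 3])]) (.con 136 [3, 3, 3]) .no .no .no) (.red [.t 849 4 1] 122 136 [2, 3, 3]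
  [(122, 136, [2, 3, 3])]) (.hor [.f 977 3 5] []) .no (.br 1107 (.br 1106 (.hor [.f 1106 1 5] [])
  .no (.br 1105 (.con 136 [3, 3, 3, 1]) .no (.hor [.f 1105 3 5] []) .no .no (.con 136 [3, 3, 3,
  1])) .no .no (.red [.t 960 3 1, .f 1089 3 5, .f 1097 5 3, .t 1098 3 2] 138 136 [3, 3] [(137,
  121, [1]), (138, 136, [3, 3])])) .no (.use 85) .no .no (.red [.f 978 5 1, .f 971 1 3] 138 136
  [3, 3] [(138, 136, [3, 3])])) .no) .no (.red [.f 969 5 3, .f 841 3 1] 122 136 [2, 3, 3] [(122,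
  136, [2, 3, 3])]) (.red [.t 1089 2 3, .f 960 3 5, .f 968 5 3, .f 841 3 1] 122 136 [2, 3, 3]
  [(122, 136, [2, 3, 3]), (137, 121, [1])])

def c21t173 : Tr4 :=
  .br 841 .no (.hor [.f 713 1 5] []) (.use 172) .no .no (.red [.t 953 2 3, .f 824 3 5, .f 832 5 3,
  .f 832 3 1] 121 136 [2, 3] [(120, 104, [1]), (121, 136, [2, 3])])

def c21t174 : Tr4 :=
  .br 1202 (.br 827 .no (.br 1203 (.hor [.f 1203 1 3, .t 1210 2 4, .f 1073 3 5] [(151, 119, [1,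
  1]), (167, 119, [1, 1, 1])]) .no .no (.use 169) .no .no) .no (.hor [.f 818 3 5] []) .no .no) .no
  .no (.br 827 .no (.br 1203 (.hor [.f 1203 1 3, .t 1210 2 4, .f 1073 3 5] [(151, 119, [1, 1]),
  (167, 119, [1, 1, 1])]) .no .no (.use 169) .no .no) .no (.hor [.f 818 3 5] []) .no .no) (.red
  [.f 1074 5 1, .f 1074 1 3, .f 1073 3 5, .t 961 1 4] 136 136 [] [(136, 136, []), (151, 135,
  [1])]) (.red [.t 953 2 3, .t 833 4 1, .t 1081 4 1, .t 961 1 4] 136 136 [] [(136, 136, []), (151,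
  135, [1])])

def c21t175 : Tr4 :=
  .br 1209 (.use 59) .no (.red [.t 1089 2 3, .t 1209 3 2, .f 954 3 1, .f 962 1 3] 136 136 []
  [(136, 136, []), (152, 136, [1])]) (.hor [.f 1073 3 1, .f 1081 1 5] [(151, 136, [4, 1])]) .no
  (.br 1217 (.hor [.f 1217 1 5] []) .no (.use 50) .no .no (.use 159))

def c21t176 : Tr4 :=
  .br 970 .no (.use 116) (.hor [.f 970 3 5] []) .no .no (.use 175)

def c21t177 : Tr4 :=
  .br 1203 (.hor [.f 1203 1 3, .t 1210 2 4, .f 1073 3 5] [(151, 119, [1, 1]), (167, 119, [1, 1,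
  1])]) .no .no (.use 169) .no .no

def c21t178 : Tr4 :=
  .br 1203 (.hor [.f 1203 1 3, .t 1210 2 4, .f 1073 3 5] [(151, 119, [1, 1]), (167, 119, [1, 1,
  1])]) .no .no (.use 169) .no .no

def c21l4 : List Tr4 :=
  [c21t151, c21t152, c21t153, c21t154, c21t155, c21t156, c21t157, c21t158, c21t159, c21t160,
  c21t161, c21t162, c21t163, c21t164, c21t165, c21t166, c21t167, c21t168, c21t169, c21t170,
  c21t171, c21t172, c21t173, c21t174, c21t175, c21t176, c21t177, c21t178]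

theorem c21k4 : chkLF ⟨4, 0, 0, true, -8⟩ false 1 c21N 151 c21l4 = true := by decide +kernel

def c21t179 : Tr4 :=
  .br 1099 (.red [.f 1091 1 3, .f 1090 3 5] 153 136 [3, 1] [(153, 136, [3, 1])]) (.br 969 (.con
  136 [3, 3]) (.br 833 .no (.br 834 .no (.use 45) (.br 1097 (.br 1226 (.red [.f 1218 1 3, .f 1090
  3 1] 153 136 [3, 1] [(153, 136, [3, 1]), (169, 136, [3, 1, 1])]) .no (.br 1209 (.use 77) .no
  (.br 696 .no (.br 827 .no (.br 697 .no (.hor [.f 568 1 5] []) .no .no (.br 1203 (.hor [.f 1203 1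
  3, .t 1210 2 4, .f 1073 3 5] [(151, 119, [1, 1]), (167, 119, [1, 1, 1])]) .no .no (.br 938 (.use
  165) (.red [.t 817 2 3, .t 937 3 2, .f 817 1 3, .f 689 3 1] 119 136 [2, 4] [(118, 136, [2, 4,
  4]), (119, 136, [2, 4])]) .no (.br 819 .no (.use 48) .no (.use 166) .no .no) (.red [.f 938 5 3,
  .f 937 3 5, .t 825 1 4, .f 944 3 5] 119 136 [2, 4] [(119, 136, [2, 4])]) .no) .no (.red [.f 1074
  5 1, .f 1074 1 3, .f 1073 3 5, .t 961 1 4] 136 136 [] [(136, 136, []), (151, 135, [1])])) .no)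
  .no (.hor [.f 818 3 5] []) .no .no) (.red [.f 696 3 1, .f 704 1 5] 104 136 [2, 2] [(104, 136,
  [2, 2])]) (.br 827 .no (.br 697 .no (.br 1203 (.hor [.f 1203 1 3, .t 1210 2 4, .f 1073 3 5]
  [(151, 119, [1, 1]), (167, 119, [1, 1, 1])]) .no .no (.br 819 .no (.con 136 [2, 2, 4, 4]) .no
  (.use 167) .no .no) .no (.red [.f 1074 5 1, .f 1074 1 3, .f 1073 3 5, .t 961 1 4] 136 136 []
  [(136, 136, []), (151, 135, [1])])) .no .no (.red [.t 817 2 3, .f 688 3 5, .t 832 4 2] 104 136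
  [2, 2] [(103, 87, [1]), (104, 136, [2, 2])]) .no) .no (.con 136 [2, 2, 4, 4]) .no .no) (.red [.t
  832 4 2] 104 136 [2, 2] [(104, 136, [2, 2])]) .no) (.hor [.f 1073 3 1, .f 1081 1 5] [(151, 119,
  [1, 1])]) .no (.br 1096 (.hor [.f 1096 1 5] []) .no (.br 1217 (.hor [.f 1217 1 5] []) .no .no
  .no .no (.br 1072 (.hor [.t 1072 1 3, .f 1081 1 5] [(151, 119, [1, 1])]) .no .no (.use 138) .no
  .no)) .no .no .no)) .no (.red [.t 1090 3 1, .t 954 3 1, .f 961 1 5] 153 136 [3, 1] [(136, 136,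
  []), (153, 136, [3, 1])]) .no) .no (.use 78) .no .no (.red [.t 960 3 1, .t 824 3 1, .f 953 3 5,
  .t 841 1 4] 121 136 [2, 3] [(120, 104, [1]), (121, 136, [2, 3]), (137, 121, [1])])) .no .no .no)
  .no .no (.red [.t 953 2 3, .f 824 3 5, .t 968 4 2] 121 136 [2, 3] [(120, 104, [1]), (121, 136,
  [2, 3])]) .no) (.use 72) .no (.br 834 .no (.use 45) (.red [.t 1089 2 3, .f 970 1 5, .t 834 3 1]
  121 136 [2, 3] [(121, 136, [2, 3]), (137, 121, [1])]) .no .no (.br 1209 (.use 171) .no (.red [.t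
  1089 2 3, .t 1209 3 2, .f 954 3 1, .f 962 1 3] 136 136 [] [(136, 136, []), (152, 136, [1])])
  (.hor [.f 1073 3 1, .f 1081 1 5] [(151, 119, [1, 1])]) .no (.use 174))) .no) (.br 1227 (.br 971
  .no (.red [.f 835 1 3] 121 136 [2, 3] [(121, 136, [2, 3])]) (.use 176) .no .no (.br 834 .no
  (.use 45) (.red [.t 834 3 1] 121 136 [2, 3] [(121, 136, [2, 3])]) .no .no (.br 1209 (.use 171)
  .no (.br 1202 (.br 827 .no (.use 177) .no (.hor [.f 818 3 5] []) .no .no) .no .no (.br 827 .no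
  (.use 178) .no (.hor [.f 818 3 5] []) .no .no) (.red [.f 1074 5 1, .f 1074 1 3, .f 1073 3 5, .t
  961 1 4] 136 136 [] [(136, 136, []), (151, 135, [1])]) (.red [.t 953 2 3, .t 833 4 1, .t 1081 4
  1, .t 961 1 4] 136 136 [] [(136, 136, []), (151, 135, [1])])) (.hor [.f 1073 3 1, .f 1081 1 5]
  [(151, 119, [1, 1])]) .no (.use 174)))) .no (.red [.f 1099 3 1, .f 1091 1 3, .f 1090 3 5] 153
  136 [3, 1] [(153, 136, [3, 1]), (154, 136, [3, 3, 1])]) .no .no (.red [.t 1090 3 1, .t 954 3 1,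
  .f 961 1 5] 153 136 [3, 1] [(136, 136, []), (153, 136, [3, 1])])) .no .no .no

def c21t180 : Tr4 :=
  .br 819 .no (.con 136 [2, 2, 4, 4]) .no (.use 167) .no .no

def c21t181 : Tr4 :=
  .br 819 .no .no .no (.use 27) .no .no

def c21t182 : Tr4 :=
  .br 840 .no (.br 704 .no (.br 696 .no (.red [.f 568 1 3, .f 696 3 1, .f 704 1 3] 105 136 [2, 2,
  3] [(88, 136, [2, 2, 2]), (104, 136, [2, 2]), (105, 136, [2, 2, 3])]) .no (.br 705 .no (.hor [.f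
  576 1 5] []) (.red [.t 953 2 3, .f 824 3 5, .t 712 1 4] 105 136 [2, 2, 3] [(105, 136, [2, 2,
  3]), (120, 104, [1])]) (.br 698 .no (.con 136 [2, 2, 2]) (.hor [.f 697 3 5] []) (.con 136 [2, 2,
  2]) (.con 136 [2, 2, 2]) .no) (.br 697 .no (.br 698 .no (.hor [.f 569 1 5] []) .no (.con 136 [2,
  2, 2, 4]) (.con 136 [2, 2, 2, 4]) .no) .no (.hor [.f 688 3 5] []) (.br 699 .no (.con 136 [2, 2,
  2, 4]) (.con 136 [2, 2, 2]) (.use 181) .no .no) .no) .no) (.use 98) .no) .no (.red [.f 696 3 1,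
  .f 704 1 3] 105 136 [2, 2, 3] [(104, 136, [2, 2]), (105, 136, [2, 2, 3])]) (.use 84) .no) (.con
  136 [2, 3, 3, 2]) .no .no .no

def c21t183 : Tr4 :=
  .br 1107 .no (.red [.f 833 5 3, .f 971 1 3] 138 136 [3, 3] [(138, 136, [3, 3])]) (.br 979 .no
  (.br 1106 (.red [.t 960 3 1, .f 1089 3 5, .f 1097 5 1, .f 1098 1 3] 154 136 [3, 3, 1] [(137,
  121, [1]), (154, 136, [3, 3, 1])]) (.use 86) (.hor [.f 1106 3 5] []) .no .no (.br 978 .no (.hor
  [.f 850 1 5] []) (.use 87) .no .no (.use 182))) (.red [.f 979 3 1, .f 971 1 3] 138 136 [3, 3]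
  [(138, 136, [3, 3]), (139, 136, [3, 3, 3])]) .no .no (.use 85)) .no .no (.red [.t 1089 2 3, .f
  970 1 5, .f 1098 5 3, .f 1099 3 1] 154 136 [3, 3, 1] [(137, 121, [1]), (154, 136, [3, 3, 1])])

def c21t184 : Tr4 :=
  .br 1209 (.br 1208 (.hor [.f 1208 1 5] []) .no (.use 49) (.br 1226 (.red [.f 1218 1 3, .f 1090 3
  1] 153 136 [3, 1] [(153, 136, [3, 1]), (169, 136, [3, 1, 1])]) .no (.use 77) .no (.red [.t 1090
  3 1, .t 954 3 1, .f 961 1 5] 153 136 [3, 1] [(136, 136, []), (153, 136, [3, 1])]) (.br 1097 .no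
  .no (.use 78) .no .no (.br 1217 (.hor [.f 1217 1 5] []) .no .no .no .no (.br 817 .no (.br 818
  .no (.hor [.f 689 1 5] []) .no (.br 1201 (.hor [.f 1201 1 3, .f 1200 3 5] [(167, 168, [4])]) .no
  .no (.br 1202 (.br 1203 (.hor [.f 1203 1 3, .t 1210 2 4, .f 1073 3 5] [(151, 119, [1, 1]), (167,
  168, [4])]) .no .no (.use 180) .no .no) .no .no (.hor [.f 1193 3 5] []) (.red [.f 1074 5 1, .f
  1074 1 3, .f 1073 3 5, .t 961 1 4] 136 136 [] [(136, 136, []), (151, 135, [1])]) .no) (.red [.t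
  953 2 3, .t 833 4 1, .t 1081 4 1, .t 961 1 4] 136 136 [] [(136, 136, []), (151, 135, [1])]) .no)
  (.use 99) .no) .no (.red [.f 809 3 1, .f 817 1 3] 119 136 [2, 4] [(118, 136, [2, 4, 4]), (119,
  136, [2, 4])]) (.br 842 .no (.use 173) (.br 841 .no (.use 151) (.use 172) .no .no (.red [.t 953
  2 3, .f 824 3 5, .f 832 5 3, .f 832 3 1] 121 136 [2, 3] [(120, 104, [1]), (121, 136, [2, 3])]))
  .no (.red [.t 1089 2 3, .f 970 1 5, .f 842 5 1, .f 835 1 3] 121 136 [2, 3] [(121, 136, [2, 3]),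
  (137, 121, [1])]) (.br 1201 (.hor [.f 1201 1 3, .f 1200 3 5] [(167, 168, [4])]) .no .no (.br
  1202 (.br 1203 (.hor [.f 1203 1 3, .t 1210 2 4, .f 1073 3 5] [(151, 119, [1, 1]), (167, 168,
  [4])]) .no .no (.br 1345 (.br 1227 (.use 56) .no (.use 183) .no .no .no) .no (.red [.t 1345 3 2,
  .f 1090 3 1] 153 136 [3, 1] [(153, 136, [3, 1]), (169, 136, [3, 1, 1])]) .no .no (.br 1227 (.use
  114) .no (.use 183) .no .no .no)) .no .no) .no .no (.hor [.f 1193 3 5] []) (.red [.f 1074 5 1,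
  .f 1074 1 3, .f 1073 3 5, .t 961 1 4] 136 136 [] [(136, 136, []), (151, 135, [1])]) .no) (.red
  [.t 953 2 3, .t 833 4 1, .t 1081 4 1, .t 961 1 4] 136 136 [] [(136, 136, []), (151, 135, [1])])
  .no)) (.red [.t 953 2 3, .t 833 4 1, .t 952 4 2] 119 136 [2, 4] [(119, 136, [2, 4])]))))) .no
  .no) .no (.red [.t 1089 2 3, .t 1209 3 2, .f 954 3 1, .f 962 1 3] 136 136 [] [(136, 136, []),
  (152, 136, [1])]) (.hor [.f 1073 3 1, .f 1081 1 5] [(151, 119, [1, 1])]) .no (.br 1226 (.red [.f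
  1218 1 3, .f 1090 3 1] 153 136 [3, 1] [(153, 136, [3, 1]), (169, 136, [3, 1, 1])]) .no (.use
  140) .no (.red [.t 1090 3 1, .t 954 3 1, .f 961 1 5] 153 136 [3, 1] [(136, 136, []), (153, 136,
  [3, 1])]) (.br 1097 .no .no (.use 78) .no .no (.br 817 .no (.br 818 .no (.hor [.f 689 1 5] [])
  .no (.br 1203 (.hor [.f 1203 1 3, .t 1210 2 4, .f 1073 3 5] [(151, 119, [1, 1]), (167, 119, [1,
  1, 1])]) .no .no (.use 180) .no (.red [.f 1074 5 1, .f 1074 1 3, .f 1073 3 5, .t 961 1 4] 136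
  136 [] [(136, 136, []), (151, 135, [1])])) (.use 99) .no) .no (.red [.f 809 3 1, .f 817 1 3] 119
  136 [2, 4] [(118, 136, [2, 4, 4]), (119, 136, [2, 4])]) (.br 1072 (.hor [.t 1072 1 3, .f 1081 1
  5] [(151, 119, [1, 1])]) .no .no (.br 1200 (.br 1217 (.hor [.f 1217 1 5] []) .no .no .no .no
  (.br 842 .no (.use 173) (.br 841 .no (.use 162) (.use 172) .no .no (.red [.t 953 2 3, .f 824 3
  5, .f 832 5 3, .f 832 3 1] 121 136 [2, 3] [(120, 104, [1]), (121, 136, [2, 3])])) .no (.red [.t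
  1089 2 3, .f 970 1 5, .f 842 5 1, .f 835 1 3] 121 136 [2, 3] [(121, 136, [2, 3]), (137, 121,
  [1])]) (.br 1201 (.hor [.f 1200 1 5] []) .no .no (.br 1202 (.br 1227 (.use 115) .no (.br 1107
  .no (.red [.f 833 5 3, .f 971 1 3] 138 136 [3, 3] [(138, 136, [3, 3])]) (.br 979 .no (.br 1106
  (.red [.t 960 3 1, .f 1089 3 5, .f 1097 5 1, .f 1098 1 3] 154 136 [3, 3, 1] [(137, 121, [1]),
  (154, 136, [3, 3, 1])]) (.use 86) (.hor [.f 1106 3 5] []) .no .no (.br 978 .no (.hor [.f 850 1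
  5] []) (.use 87) .no .no (.br 1203 (.hor [.f 1203 1 3, .t 1210 2 4, .f 1073 3 5] [(151, 119, [1,
  1]), (167, 169, [4, 4])]) .no .no (.use 182) .no .no))) (.red [.f 979 3 1, .f 971 1 3] 138 136
  [3, 3] [(138, 136, [3, 3]), (139, 136, [3, 3, 3])]) .no .no (.use 85)) .no .no (.red [.t 1089 2
  3, .f 970 1 5, .f 1098 5 3, .f 1099 3 1] 154 136 [3, 3, 1] [(137, 121, [1]), (154, 136, [3, 3,
  1])])) .no .no .no) .no .no (.hor [.f 1193 3 5] []) (.red [.f 1074 5 1, .f 1074 1 3, .f 1073 3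
  5, .t 961 1 4] 136 136 [] [(136, 136, []), (151, 135, [1])]) .no) (.red [.t 953 2 3, .t 833 4 1,
  .t 1081 4 1, .t 961 1 4] 136 136 [] [(136, 136, []), (151, 135, [1])]) .no))) .no .no (.hor [.f
  1064 3 1, .t 1072 1 3, .f 1081 1 5] [(150, 118, [1, 1]), (151, 119, [1, 1])]) (.red [.f 1200 5
  3, .f 1073 3 1, .f 1081 1 5, .t 961 1 4] 136 136 [] [(136, 136, []), (151, 135, [1])]) .no) .no
  .no) (.red [.t 953 2 3, .t 833 4 1, .t 952 4 2] 119 136 [2, 4] [(119, 136, [2, 4])]))))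

def c21t185 : Tr4 :=
  .br 1209 (.use 122) .no (.red [.f 961 1 3, .f 1089 3 5, .t 1209 3 2, .f 954 3 1, .t 961 3 1] 136
  136 [] [(136, 136, []), (152, 136, [1])]) (.hor [.f 1073 3 1, .f 1081 1 5] [(151, 136, [4, 1])])
  .no (.br 1217 (.hor [.f 1217 1 5] []) .no (.use 50) .no .no (.use 160))

def c21t186 : Tr4 :=
  .br 1203 (.hor [.f 1203 1 3, .t 1210 2 4, .f 1073 3 5] [(151, 119, [1, 1]), (167, 119, [1, 1,
  1])]) .no .no (.use 180) .no (.red [.f 1074 5 1, .f 1074 1 3, .f 1073 3 5, .t 961 1 4] 136 136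
  [] [(136, 136, []), (151, 135, [1])])

def c21t187 : Tr4 :=
  .br 841 .no (.br 842 .no (.hor [.f 713 1 5] []) (.br 840 .no (.hor [.f 712 1 5] []) (.con 136
  [2, 2, 3, 3]) .no .no .no) .no (.red [.f 842 5 1, .f 835 1 3] 121 136 [2, 3] [(121, 136, [2,
  3])]) .no) (.red [.f 841 3 1] 122 136 [2, 3, 3] [(122, 136, [2, 3, 3])]) .no (.red [.f 833 5 3,
  .t 834 3 1] 121 136 [2, 3] [(121, 136, [2, 3])]) (.red [.t 953 2 3, .f 824 3 5, .f 832 5 3, .f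
  832 3 1] 121 136 [2, 3] [(120, 104, [1]), (121, 136, [2, 3])])

def c21t188 : Tr4 :=
  .br 1227 (.br 971 .no (.red [.f 835 1 3] 121 136 [2, 3] [(121, 136, [2, 3])]) (.use 176) .no .no
  (.br 834 .no (.use 45) (.red [.t 834 3 1] 121 136 [2, 3] [(121, 136, [2, 3])]) .no .no (.br 969
  (.use 185) (.red [.t 953 2 3, .f 824 3 5, .t 968 4 2] 121 136 [2, 3] [(120, 104, [1]), (121,
  136, [2, 3])]) (.use 187) .no .no .no))) .no (.red [.f 1099 3 1, .f 1091 1 3, .f 1090 3 5] 153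
  136 [3, 1] [(153, 136, [3, 1]), (154, 136, [3, 3, 1])]) .no .no (.red [.t 1090 3 1, .t 954 3 1,
  .f 961 1 5] 153 136 [3, 1] [(136, 136, []), (153, 136, [3, 1])])

def c21t189 : Tr4 :=
  .br 824 .no (.br 832 .no (.br 833 .no (.hor [.f 704 1 5] []) (.use 71) .no (.use 147) .no) (.red
  [.f 832 3 1] 121 136 [2, 3] [(121, 136, [2, 3])]) .no (.br 817 .no (.use 148) .no (.red [.f 809
  3 1, .f 817 1 3] 119 136 [2, 4] [(118, 136, [2, 4, 4]), (119, 136, [2, 4])]) (.br 1211 (.br 826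
  .no (.use 22) (.br 1099 (.red [.f 1091 1 3, .f 1090 3 5] 153 136 [3, 1] [(153, 136, [3, 1])])
  (.br 969 (.con 136 [3, 3]) (.red [.t 968 4 2] 121 136 [2, 3] [(121, 136, [2, 3])]) (.use 72) .no
  (.br 1209 (.use 153) .no (.red [.t 1089 2 3, .t 1209 3 2, .f 954 3 1, .f 962 1 3] 136 136 []
  [(136, 136, []), (152, 136, [1])]) (.hor [.f 1073 3 1, .f 1081 1 5] [(151, 119, [1, 1])]) .no
  (.br 1226 (.red [.f 1218 1 3, .f 1090 3 1] 153 136 [3, 1] [(153, 136, [3, 1]), (169, 136, [3, 1,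
  1])]) .no (.use 140) .no (.red [.t 1090 3 1, .t 954 3 1, .f 961 1 5] 153 136 [3, 1] [(136, 136,
  []), (153, 136, [3, 1])]) (.br 1097 .no .no (.use 78) .no .no (.br 1072 (.hor [.t 1072 1 3, .f
  1081 1 5] [(151, 119, [1, 1])]) .no .no (.br 1217 (.hor [.f 1217 1 5] []) .no .no .no .no (.br
  1200 (.br 1227 (.use 115) .no (.use 154) .no .no .no) .no .no (.hor [.f 1064 3 1, .t 1072 1 3,
  .f 1081 1 5] [(150, 118, [1, 1]), (151, 119, [1, 1])]) (.red [.f 1200 5 3, .f 1073 3 1, .f 1081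
  1 5, .t 961 1 4] 136 136 [] [(136, 136, []), (151, 135, [1])]) .no)) .no .no)))) .no) (.br 1227
  (.br 1209 (.use 153) .no (.br 699 (.use 155) (.con 136 [2, 2, 4]) (.con 136 [2, 2, 4]) (.con 136
  [2, 2, 4]) .no (.con 136 [2, 2, 4])) (.hor [.f 1073 3 1, .f 1081 1 5] [(151, 119, [1, 1])]) .no
  (.use 161)) .no (.red [.f 1099 3 1, .f 1091 1 3, .f 1090 3 5] 153 136 [3, 1] [(153, 136, [3,
  1]), (154, 136, [3, 3, 1])]) .no .no (.red [.t 1090 3 1, .t 954 3 1, .f 961 1 5] 153 136 [3, 1]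
  [(136, 136, []), (153, 136, [3, 1])])) .no .no .no) .no (.use 163) .no) .no .no (.hor [.t 1210 2
  4, .f 1073 3 5] [(151, 119, [1, 1])]) .no .no) (.red [.t 952 4 2] 119 136 [2, 4] [(119, 136, [2,
  4])])) .no) (.br 826 .no (.use 47) (.con 136 [2, 2]) (.br 817 .no (.br 1211 (.use 179) .no .no
  (.hor [.t 1210 2 4, .f 1073 3 5] [(151, 119, [1, 1])]) .no .no) .no (.red [.f 809 3 1, .f 817 1
  3] 119 136 [2, 4] [(118, 136, [2, 4, 4]), (119, 136, [2, 4])]) .no (.red [.t 952 4 2, .f 817 3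
  5] 119 136 [2, 4] [(119, 136, [2, 4])])) (.br 1211 (.br 1099 (.red [.f 1091 1 3, .f 1090 3 5]
  153 136 [3, 1] [(153, 136, [3, 1])]) (.br 969 (.con 136 [3, 3]) (.use 108) (.use 72) .no (.br
  834 .no (.use 45) (.red [.t 1089 2 3, .f 970 1 5, .t 834 3 1] 121 136 [2, 3] [(121, 136, [2,
  3]), (137, 121, [1])]) .no .no (.use 184)) .no) (.use 188) .no .no .no) .no .no (.hor [.t 1210 2
  4, .f 1073 3 5] [(151, 119, [1, 1])]) .no .no) .no) (.red [.f 816 3 1, .f 824 1 5] 119 136 [2,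
  4] [(119, 136, [2, 4])]) .no .no

def c21l5 : List Tr4 :=
  [c21t179, c21t180, c21t181, c21t182, c21t183, c21t184, c21t185, c21t186, c21t187, c21t188,
  c21t189]

theorem c21k5 : chkLF ⟨4, 0, 0, true, -8⟩ false 1 c21N 179 c21l5 = true := by decide +kernel

def c21t190 : Tr4 :=
  .br 960 .no (.br 824 .no (.br 817 .no (.use 21) .no (.red [.f 809 3 1, .f 817 1 3] 119 136 [2,
  4] [(118, 136, [2, 4, 4]), (119, 136, [2, 4])]) (.br 946 (.use 23) .no .no (.hor [.f 937 3 5]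
  []) (.br 1074 (.hor [.f 1074 1 3, .f 1073 3 5] [(151, 119, [1, 1])]) .no .no (.use 26) (.br 1211
  (.br 826 .no (.use 22) (.br 1226 (.red [.f 1218 1 3, .f 1090 3 1] 153 136 [3, 1] [(153, 136, [3,
  1]), (169, 136, [3, 1, 1])]) .no (.br 1217 (.hor [.f 1217 1 5] []) .no (.use 0) (.use 29) .no
  (.use 35)) .no (.red [.t 1090 3 1, .t 954 3 1, .f 961 1 5] 153 136 [3, 1] [(136, 136, []), (153,
  136, [3, 1])]) (.br 1217 (.hor [.f 1217 1 5] []) .no .no (.use 29) .no (.use 35))) .no (.br 1226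
  (.red [.f 1218 1 3, .f 1090 3 1] 153 136 [3, 1] [(153, 136, [3, 1]), (169, 136, [3, 1, 1])]) .no
  (.br 1217 (.hor [.f 1217 1 5] []) .no (.use 0) (.use 39) .no (.use 44)) .no (.red [.t 1090 3 1,
  .t 954 3 1, .f 961 1 5] 153 136 [3, 1] [(136, 136, []), (153, 136, [3, 1])]) (.br 1217 (.hor [.f
  1217 1 5] []) .no .no (.use 39) .no (.use 44))) .no) .no .no (.hor [.t 1210 2 4, .f 1073 3 5]
  [(151, 119, [1, 1])]) .no .no) .no) .no) (.red [.t 952 4 2] 119 136 [2, 4] [(119, 136, [2,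
  4])])) .no (.red [.f 816 3 1, .f 824 1 5] 119 136 [2, 4] [(119, 136, [2, 4])]) .no .no) (.br 946
  (.br 834 .no (.use 46) (.br 817 .no (.br 824 .no (.use 5) (.br 971 (.br 970 .no .no (.br 969
  (.con 136 [3, 3]) (.br 826 .no (.use 47) .no (.br 947 (.hor [.f 946 1 5] []) (.dom 119 136 [2,
  4]) .no (.br 827 .no (.br 833 .no (.br 819 .no (.br 696 .no (.use 48) (.red [.f 696 3 1, .f 704
  1 5] 104 136 [2, 2] [(104, 136, [2, 2])]) (.con 136 [2, 2, 4, 4]) (.red [.t 832 4 2] 104 136 [2,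
  2] [(104, 136, [2, 2])]) .no) .no (.red [.f 811 3 1] 118 136 [2, 4, 4] [(118, 136, [2, 4, 4])])
  .no .no) .no .no .no .no) .no (.hor [.f 818 3 5] []) .no .no) .no .no) (.red [.t 962 4 2, .t
  1098 4 2, .f 961 1 5, .t 841 1 4] 121 136 [2, 3] [(120, 104, [1]), (121, 136, [2, 3]), (137,
  121, [1])]) .no) (.hor [.f 969 3 5] []) .no .no .no) .no .no (.red [.t 1089 2 3, .f 970 1 5, .t
  834 3 1] 121 136 [2, 3] [(121, 136, [2, 3]), (137, 121, [1])])) (.red [.f 835 1 3, .f 834 3 5]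
  121 136 [2, 3] [(121, 136, [2, 3])]) (.br 1099 (.red [.f 1091 1 3, .f 1090 3 5] 153 136 [3, 1]
  [(153, 136, [3, 1])]) .no (.br 970 .no .no (.hor [.f 970 3 5] []) .no .no (.br 1227 (.use 69)
  .no (.red [.f 1099 3 1, .f 1091 1 3, .f 1090 3 5] 153 136 [3, 1] [(153, 136, [3, 1]), (154, 136,
  [3, 3, 1])]) .no .no (.red [.t 1090 3 1, .t 954 3 1, .f 961 1 5] 153 136 [3, 1] [(136, 136, []),
  (153, 136, [3, 1])]))) .no .no .no) .no .no (.red [.t 834 3 1] 121 136 [2, 3] [(121, 136, [2,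
  3])])) (.red [.f 816 3 1, .f 824 1 5] 119 136 [2, 4] [(119, 136, [2, 4])]) .no .no) .no (.red
  [.f 809 3 1, .f 817 1 3] 119 136 [2, 4] [(118, 136, [2, 4, 4]), (119, 136, [2, 4])]) (.br 826
  .no (.use 70) .no .no (.red [.t 962 4 2, .f 825 1 5, .f 817 5 3, .t 1073 3 2, .f 818 3 1, .t 826
  1 3] 119 136 [2, 4] [(119, 136, [2, 4]), (135, 136, [4])]) .no) (.red [.t 952 4 2] 119 136 [2,
  4] [(119, 136, [2, 4])])) (.red [.f 826 3 1, .f 825 1 5, .t 1073 3 2, .f 953 1 3, .t 961 4 2]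
  136 136 [] [(135, 136, [4]), (136, 136, [])]) .no (.red [.t 953 2 3, .t 1073 3 2, .f 953 1 3, .f
  825 3 1] 136 136 [] [(135, 136, [4]), (136, 136, [])])) (.use 6) .no (.hor [.f 937 3 5] []) (.br
  1074 (.hor [.f 1074 1 3, .f 1073 3 5] [(151, 119, [1, 1])]) .no .no (.use 133) (.use 189) .no)
  .no) .no .no .no

def c21t191 : Tr4 :=
  .br 827 .no (.hor [.f 698 1 5] []) .no (.con 136 [2, 2, 4]) .no .no

def c21t192 : Tr4 :=
  .br 816 .no (.hor [.f 688 1 5] []) .no (.br 818 .no (.hor [.f 689 1 5] []) .no (.con 136 [2, 4,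
  2, 4]) (.con 136 [2, 4, 2, 4]) .no) .no .no

def c21t193 : Tr4 :=
  .br 947 (.hor [.f 946 1 5] []) (.dom 119 136 [2, 4]) .no (.br 816 .no (.hor [.f 688 1 5] []) .no
  (.use 1) .no .no) .no .no

def c21t194 : Tr4 :=
  .br 1224 (.red [.t 1352 2 4, .f 1209 1 3] 169 136 [3, 1, 1] [(168, 136, [1, 1]), (169, 136, [3,
  1, 1])]) .no (.con 136 [3, 1, 3, 1]) .no .no .no

def c21t195 : Tr4 :=
  .br 947 (.hor [.f 946 1 5] []) (.dom 119 136 [2, 4]) .no (.br 816 .no (.hor [.f 688 1 5] []) .no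
  (.br 819 .no (.con 136 [2, 2, 4, 4]) .no (.red [.f 811 3 1] 118 136 [2, 4, 4] [(118, 136, [2, 4,
  4])]) .no .no) .no .no) .no .no

def c21t196 : Tr4 :=
  .br 835 .no (.br 827 .no (.use 193) .no (.hor [.f 818 3 5] []) .no .no) (.hor [.f 834 3 5] [])
  (.use 195) .no .no

def c21t197 : Tr4 :=
  .br 827 .no (.use 193) .no (.hor [.f 818 3 5] []) .no .no

def c21t198 : Tr4 :=
  .br 1224 (.red [.f 1216 5 1, .f 1216 1 3] 169 136 [3, 1, 1] [(169, 136, [3, 1, 1])]) .no (.con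
  136 [3, 1, 3, 1]) .no .no .no

def c21t199 : Tr4 :=
  .br 1217 (.hor [.f 1217 1 5] []) .no (.use 50) .no .no (.br 1226 (.hor [.f 1226 1 5] []) .no
  (.br 1225 (.con 136 [3, 1, 3, 1]) (.br 1096 (.con 136 [3, 3, 1, 1]) (.br 1344 (.br 1345 (.hor
  [.f 1344 1 5] []) .no (.use 194) .no .no .no) .no (.con 136 [3, 1, 1, 3]) (.br 1345 (.br 1224
  (.use 51) .no (.con 136 [3, 3, 1, 1]) .no .no .no) .no (.use 194) .no .no .no) (.red [.f 1216 5
  1, .f 1217 1 5, .t 1097 1 4] 153 136 [3, 1] [(153, 136, [3, 1])]) .no) (.use 52) .no .no .no)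
  (.hor [.f 1225 3 5] []) .no .no (.con 136 [3, 1, 3, 1])) .no .no (.br 1096 (.con 136 [3, 1, 3])
  (.br 1345 (.br 1224 (.use 51) .no (.con 136 [3, 1, 3, 1]) .no .no .no) .no (.red [.t 1345 3 2,
  .f 1090 3 1] 153 136 [3, 1] [(153, 136, [3, 1]), (169, 136, [3, 1, 1])]) .no .no (.use 198))
  (.use 121) .no (.br 1345 (.use 56) .no (.red [.t 1345 3 2, .f 1090 3 1] 153 136 [3, 1] [(153,
  136, [3, 1]), (169, 136, [3, 1, 1])]) .no .no (.use 114)) .no))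

def c21t200 : Tr4 :=
  .br 690 .no (.con 136 [2, 2, 4, 2, 4]) .no (.hor [.f 681 3 5] []) .no .no

def c21t201 : Tr4 :=
  .br 947 .no (.br 699 .no (.br 691 .no (.red [.f 563 1 3] 87 136 [2, 2, 2, 4] [(87, 136, [2, 2,
  2, 4])]) .no (.con 136 [2, 2, 2, 4, 4]) .no (.con 136 [2, 2, 2, 4, 4])) .no (.use 200) .no .no)
  .no .no .no .no

def c21t202 : Tr4 :=
  .br 809 .no (.red [.t 808 3 2, .f 688 1 3] 103 136 [2, 4, 2] [(102, 136, [2, 4, 2, 4]), (103,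
  136, [2, 4, 2])]) .no (.br 810 .no (.con 136 [2, 4, 2, 4, 4]) .no (.hor [.f 801 3 5] []) .no
  .no) (.red [.f 809 5 3, .f 808 3 5, .f 688 5 1, .f 688 1 3] 103 136 [2, 4, 2] [(103, 136, [2, 4,
  2])]) .no

def c21t203 : Tr4 :=
  .br 691 (.con 136 [2, 4, 2, 4]) (.red [.f 563 1 3] 87 136 [2, 4, 2, 2] [(87, 136, [2, 4, 2,
  2])]) .no (.con 136 [2, 4, 2, 2, 4]) .no (.con 136 [2, 4, 2, 2, 4])

def c21t204 : Tr4 :=
  .br 809 .no (.red [.t 808 3 2, .f 688 1 3] 103 136 [2, 4, 2] [(102, 136, [2, 4, 2, 4]), (103,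
  136, [2, 4, 2])]) .no (.br 810 .no (.br 947 .no (.br 811 .no (.hor [.f 682 1 5] []) .no (.con
  136 [2, 4, 2, 4, 4]) .no .no) .no .no .no .no) .no (.hor [.f 801 3 5] []) (.br 931 (.hor [.f 931
  1 3, .f 930 3 5] [(133, 101, [1, 1])]) (.red [.t 930 3 2, .t 937 3 2, .f 817 1 3] 119 136 [2, 4]
  [(117, 136, [2, 4, 4, 4]), (118, 136, [2, 4, 4]), (119, 136, [2, 4])]) .no (.br 681 .no (.br 803
  .no (.br 680 .no (.hor [.f 552 1 5] []) .no (.con 136 [2, 4, 2, 4, 4, 2]) .no .no) .no (.red [.f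
  795 3 1, .t 930 3 2, .t 937 3 2, .f 817 1 3] 119 136 [2, 4] [(116, 136, [2, 4, 4, 4, 4]), (117,
  136, [2, 4, 4, 4]), (118, 136, [2, 4, 4]), (119, 136, [2, 4])]) .no (.red [.f 802 5 3, .f 802 3
  1, .t 937 3 2, .f 817 1 3] 119 136 [2, 4] [(117, 136, [2, 4, 4, 4]), (118, 136, [2, 4, 4]),
  (119, 136, [2, 4])])) .no (.red [.f 673 3 1] 101 136 [2, 4, 2, 4, 4] [(101, 136, [2, 4, 2, 4,
  4])]) (.br 802 .no (.red [.t 801 3 2, .t 808 3 2] 102 136 [2, 4, 2, 4] [(101, 136, [2, 4, 2, 4,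
  4]), (102, 136, [2, 4, 2, 4])]) .no (.br 803 .no (.br 674 .no (.br 673 .no (.hor [.f 545 1 5]
  []) .no (.con 136 [2, 4, 2, 4, 4, 2, 4]) .no (.con 136 [2, 4, 2, 4, 4, 4])) .no (.red [.f 666 3
  1, .f 674 1 5] 100 136 [2, 4, 2, 4, 4, 4] [(100, 136, [2, 4, 2, 4, 4, 4])]) .no (.red [.f 673 5
  3, .f 673 3 1, .t 808 3 2] 102 136 [2, 4, 2, 4] [(101, 136, [2, 4, 2, 4, 4]), (102, 136, [2, 4,
  2, 4])])) .no (.hor [.f 794 3 5] []) .no .no) (.red [.f 802 5 3, .f 802 3 1, .t 937 3 2, .f 817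
  1 3] 119 136 [2, 4] [(117, 136, [2, 4, 4, 4]), (118, 136, [2, 4, 4]), (119, 136, [2, 4])]) .no)
  (.red [.f 680 5 3, .f 680 3 1, .f 688 1 3] 103 136 [2, 4, 2] [(102, 136, [2, 4, 2, 4]), (103,
  136, [2, 4, 2])])) .no .no) .no) (.red [.f 809 5 3, .f 808 3 5, .f 688 5 1, .f 688 1 3] 103 136
  [2, 4, 2] [(103, 136, [2, 4, 2])]) .no

def c21t205 : Tr4 :=
  .br 939 (.use 204) (.use 202) (.br 819 .no (.con 136 [2, 4, 2, 4]) .no (.red [.f 811 3 1] 118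
  136 [2, 4, 4] [(118, 136, [2, 4, 4])]) .no .no) (.hor [.f 930 3 5] []) .no .no

def c21t206 : Tr4 :=
  .br 688 .no (.hor [.f 560 1 5] []) .no (.red [.f 680 3 1, .f 688 1 3] 103 136 [2, 4, 2] [(102,
  136, [2, 4, 2, 4]), (103, 136, [2, 4, 2])]) .no .no

def c21t207 : Tr4 :=
  .br 809 .no (.hor [.f 681 1 5] []) .no (.br 811 .no (.hor [.f 682 1 5] []) .no (.con 136 [4, 2,
  2, 4, 4]) .no .no) .no .no

def c21t208 : Tr4 :=
  .br 809 .no (.red [.t 808 3 2, .f 688 1 3] 103 136 [2, 4, 2] [(102, 136, [2, 4, 2, 4]), (103,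
  136, [2, 4, 2])]) .no (.hor [.f 801 3 5] []) .no .no

def c21t209 : Tr4 :=
  .br 938 (.red [.f 938 1 3, .f 937 3 5, .f 817 5 1, .f 817 1 3] 119 136 [2, 4] [(119, 136, [2,
  4]), (134, 118, [1])]) (.red [.t 937 3 2, .f 817 1 3] 119 136 [2, 4] [(118, 136, [2, 4, 4]),
  (119, 136, [2, 4])]) .no (.br 816 .no (.red [.f 688 1 3] 103 136 [2, 2, 4] [(103, 136, [2, 2,
  4])]) .no (.br 1075 (.br 697 .no (.br 706 .no (.br 707 .no (.hor [.f 578 1 5] []) (.br 688 .no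
  (.br 689 .no (.hor [.f 560 1 5] []) .no (.br 810 .no (.con 136 [2, 2, 4, 4, 2]) .no (.br 939
  (.use 201) (.red [.f 802 3 1] 117 136 [2, 4, 4, 4] [(117, 136, [2, 4, 4, 4])]) (.red [.f 802 3
  1] 117 136 [2, 4, 4, 4] [(117, 136, [2, 4, 4, 4])]) (.hor [.f 930 3 5] []) .no .no) (.br 939
  (.use 201) .no (.con 136 [2, 4, 4, 2]) (.hor [.f 930 3 5] []) .no .no) (.red [.f 809 5 3, .f 808
  3 5, .t 952 4 2] 119 136 [2, 4] [(119, 136, [2, 4])])) (.red [.f 689 5 1, .f 690 1 3] 103 136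
  [2, 2, 4] [(103, 136, [2, 2, 4])]) .no) .no (.red [.f 680 3 1, .f 688 1 3] 103 136 [2, 2, 4]
  [(102, 136, [2, 2, 4, 4]), (103, 136, [2, 2, 4])]) (.use 205) .no) (.hor [.f 699 3 1, .f 698 1
  5] [(104, 103, [3])]) .no .no) (.hor [.f 706 3 1, .f 705 1 5] [(105, 103, [3, 3])]) .no (.br 688
  .no (.br 689 .no (.hor [.f 560 1 5] []) .no (.br 699 .no (.use 203) .no (.use 200) .no .no)
  (.red [.f 689 5 1, .f 690 1 3] 103 136 [2, 2, 4] [(103, 136, [2, 2, 4])]) .no) .no (.red [.f 680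
  3 1, .f 688 1 3] 103 136 [2, 2, 4] [(102, 136, [2, 2, 4, 4]), (103, 136, [2, 2, 4])]) (.use 205)
  .no) .no) .no (.red [.t 697 4 1] 103 136 [2, 2, 4] [(103, 136, [2, 2, 4])]) .no .no) (.hor [.f
  946 1 5] []) .no (.br 947 .no (.br 939 .no (.br 810 .no (.br 689 .no (.use 206) (.red [.t 697 4
  1] 103 136 [2, 2, 4] [(103, 136, [2, 2, 4])]) (.con 136 [2, 2, 4, 4, 4]) (.red [.f 689 5 1, .f
  690 1 3] 103 136 [2, 2, 4] [(103, 136, [2, 2, 4])]) (.use 202)) .no (.red [.f 811 1 3, .f 802 3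
  1, .f 811 3 1] 117 136 [2, 4, 4, 4] [(117, 136, [2, 4, 4, 4])]) .no (.red [.f 809 5 3, .f 808 3
  5, .t 952 4 2] 119 136 [2, 4] [(119, 136, [2, 4])])) .no (.hor [.f 930 3 5] []) .no .no) .no
  (.hor [.f 939 3 1, .f 946 1 5] [(134, 118, [1])]) .no .no) .no .no) .no .no) (.br 1075 (.br 816
  .no (.red [.f 688 1 3] 103 136 [2, 2, 4] [(103, 136, [2, 2, 4])]) .no (.br 697 .no (.br 689 .no
  (.use 206) .no (.br 688 .no (.br 699 .no (.use 203) (.hor [.f 699 3 1, .f 698 1 5] [(104, 103,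
  [3])]) (.use 200) .no .no) .no (.hor [.f 680 3 5] []) .no .no) (.red [.f 689 5 1, .f 690 1 3]
  103 136 [2, 2, 4] [(103, 136, [2, 2, 4])]) (.br 810 .no (.br 819 (.use 207) (.con 136 [2, 2, 4,
  4]) .no (.con 136 [2, 4, 4, 1, 3, 2]) .no .no) .no (.use 208) (.red [.f 810 5 1, .t 937 3 2, .f
  817 1 3] 119 136 [2, 4] [(118, 136, [2, 4, 4]), (119, 136, [2, 4])]) (.red [.f 809 5 3, .f 808 3
  5, .f 688 5 1, .f 688 1 3] 103 136 [2, 2, 4] [(103, 136, [2, 2, 4])]))) .no (.red [.t 697 4 1]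
  103 136 [2, 2, 4] [(103, 136, [2, 2, 4])]) .no .no) .no .no) (.hor [.f 946 1 5] []) .no (.hor
  [.t 1074 2 4, .f 937 3 5] [(134, 119, [1, 4])]) .no .no) .no

def c21t210 : Tr4 :=
  .br 827 .no (.hor [.f 698 1 5] []) .no (.con 136 [2, 2, 4]) .no .no

def c21t211 : Tr4 :=
  .br 689 .no (.con 136 [2, 4, 2, 2]) (.hor [.f 689 3 5] []) (.con 136 [2, 4, 2, 2]) .no .no

def c21t212 : Tr4 :=
  .br 571 .no (.br 803 .no (.br 563 .no (.hor [.f 435 1 3, .f 563 3 1, .f 570 1 5] [(71, 103, [2,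
  2]), (87, 103, [2])]) .no (.br 681 .no (.br 561 .no (.hor [.f 433 1 3, .f 561 3 1, .f 560 1 5]
  [(71, 103, [2, 2]), (87, 103, [2])]) .no .no (.hor [.t 697 4 2, .f 560 1 5] [(87, 103, [2])])
  .no) .no (.red [.f 673 3 1, .t 681 1 3] 102 136 [2, 2, 4, 4] [(101, 136, [2, 2, 4, 4, 4]), (102,
  136, [2, 2, 4, 4])]) .no (.con 136 [2, 2, 4, 4, 4, 2, 3, 1])) .no (.red [.t 698 2 4, .f 698 5 1,
  .t 697 4 1] 103 136 [2, 2, 4] [(87, 103, [2]), (103, 136, [2, 2, 4])])) .no (.red [.f 795 3 1,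
  .t 930 3 2, .t 937 3 2, .f 682 3 1] 102 136 [2, 2, 4, 4] [(102, 136, [2, 2, 4, 4]), (116, 136,
  [2, 4, 4, 4, 4]), (117, 136, [2, 4, 4, 4]), (118, 136, [2, 4, 4])]) .no (.red [.f 802 5 3, .f
  802 3 1, .t 937 3 2, .f 817 1 3] 119 136 [2, 4] [(117, 136, [2, 4, 4, 4]), (118, 136, [2, 4,
  4]), (119, 136, [2, 4])])) (.hor [.f 570 1 3, .f 570 3 5] [(88, 136, [2, 2, 2])]) (.hor [.f 563
  3 1, .f 570 1 5] [(87, 103, [2])]) .no .no

def c21t213 : Tr4 :=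
  .br 689 .no (.use 206) .no (.br 690 .no (.con 136 [2, 2, 2, 4, 4]) .no (.hor [.f 681 3 5] [])
  .no .no) (.red [.f 689 5 1, .t 690 1 3, .f 699 1 3] 103 136 [2, 2, 4] [(103, 136, [2, 2, 4]),
  (104, 136, [2, 2])]) .no

def c21t214 : Tr4 :=
  .br 689 .no (.use 206) (.red [.f 698 5 1, .t 697 4 1] 103 136 [2, 2, 4] [(103, 136, [2, 2, 4])])
  (.br 690 .no (.con 136 [2, 2, 4, 2, 4]) .no (.hor [.f 681 3 5] []) (.con 136 [2, 2, 4, 2, 4])
  .no) (.red [.f 698 5 1, .f 689 5 1, .f 690 1 3] 103 136 [2, 2, 4] [(103, 136, [2, 2, 4])]) .no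

def c21t215 : Tr4 :=
  .br 698 .no (.hor [.f 570 1 5] []) .no (.use 211) .no (.br 689 .no (.use 206) .no (.br 691 (.con
  136 [2, 2, 4, 4]) (.red [.f 563 1 3] 87 136 [2, 2, 2, 4] [(87, 136, [2, 2, 2, 4])]) .no (.con
  136 [2, 2, 2, 4, 4]) .no (.con 136 [2, 2, 2, 4, 4])) (.br 691 (.con 136 [2, 2, 4, 4]) (.red [.f
  563 1 3] 87 136 [2, 2, 2, 4] [(87, 136, [2, 2, 2, 4])]) .no (.con 136 [2, 2, 2, 4, 4]) .no .no)
  .no)

def c21l6 : List Tr4 :=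
  [c21t190, c21t191, c21t192, c21t193, c21t194, c21t195, c21t196, c21t197, c21t198, c21t199,
  c21t200, c21t201, c21t202, c21t203, c21t204, c21t205, c21t206, c21t207, c21t208, c21t209,
  c21t210, c21t211, c21t212, c21t213, c21t214, c21t215]

theorem c21k6 : chkLF ⟨4, 0, 0, true, -8⟩ false 1 c21N 190 c21l6 = true := by decide +kernel

end Pool.Agent.FT4D
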