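import Pool.Agent.FT4D.Tab_c21

/-!
# Four levels: decision trees (found by a computer search)
-/

namespace Pool.Agent.FT4D

def c21t216 : Tr4 :=
  .br 939 (.use 204) (.use 202) (.br 819 .no (.con 136 [2, 2, 4, 4]) .no (.red [.f 811 3 1] 118
  136 [2, 4, 4] [(118, 136, [2, 4, 4])]) .no .no) (.hor [.f 930 3 5] []) .no .no

def c21t217 : Tr4 :=
  .br 697 .no (.br 689 .no (.use 206) .no (.br 699 .no (.use 203) .no (.br 690 .no (.con 136 [2,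
  2, 2, 4, 4]) .no (.hor [.f 681 3 5] []) .no .no) .no .no) (.br 699 .no (.br 691 (.con 136 [2, 2,
  4, 4]) (.red [.f 563 1 3] 87 136 [2, 2, 2, 4] [(87, 136, [2, 2, 2, 4])]) .no (.con 136 [2, 2, 2,
  4, 4]) .no .no) .no (.red [.f 689 5 1, .t 690 1 3, .f 699 1 3] 103 136 [2, 2, 4] [(103, 136, [2,
  2, 4]), (104, 136, [2, 2])]) .no .no) .no) .no (.red [.t 706 4 1, .t 697 4 1] 103 136 [2, 2, 4]
  [(103, 136, [2, 2, 4]), (104, 136, [2, 2])]) .no .no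

def c21t218 : Tr4 :=
  .br 690 .no (.hor [.f 562 1 3, .f 689 3 5] [(87, 86, [3])]) .no .no .no .no

def c21t219 : Tr4 :=
  .br 810 .no (.br 816 .no (.red [.f 688 1 3] 103 136 [2, 2, 4] [(103, 136, [2, 2, 4])]) .no (.br
  688 .no (.br 706 .no (.br 699 .no (.br 698 .no (.hor [.f 570 1 5] []) .no (.use 211) .no (.br
  689 .no (.use 206) .no (.br 691 .no (.con 136 [2, 2, 4, 4, 2]) .no (.con 136 [2, 2, 4, 4, 2])
  .no (.con 136 [2, 2, 2, 4, 4])) (.br 691 .no (.red [.f 563 1 3] 87 136 [2, 2, 2, 4] [(87, 136,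
  [2, 2, 2, 4])]) .no (.con 136 [2, 2, 2, 4, 4]) .no .no) .no)) .no (.br 698 .no (.br 689 .no
  (.use 206) (.use 218) (.con 136 [2, 2, 4, 4, 2]) (.red [.f 689 5 1, .t 690 1 3, .f 699 1 3] 103
  136 [2, 2, 4] [(103, 136, [2, 2, 4]), (104, 136, [2, 2])]) .no) .no (.hor [.f 690 3 5] []) .no
  (.use 213)) .no (.use 214)) (.hor [.f 706 3 1, .f 705 1 5] [(105, 104, [3])]) (.use 217) .no
  .no) .no (.red [.f 680 3 1, .f 688 1 3] 103 136 [2, 2, 4] [(102, 136, [2, 2, 4, 4]), (103, 136,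
  [2, 2, 4])]) (.use 202) .no) .no .no) .no (.hor [.f 802 3 1, .f 810 1 5] [(117, 136, [2, 4, 4,
  4])]) .no (.red [.f 809 5 3, .f 809 3 1, .f 817 1 3] 119 136 [2, 4] [(118, 136, [2, 4, 4]),
  (119, 136, [2, 4])])

def c21t220 : Tr4 :=
  .br 819 (.use 207) (.con 136 [2, 2, 4, 4]) .no (.con 136 [2, 4, 4, 1, 3, 2]) .no .no

def c21t221 : Tr4 :=
  .br 1066 (.br 688 .no (.br 1067 (.hor [.f 1066 1 5] []) (.br 699 .no (.use 215) .no (.br 698 .no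
  (.br 697 .no (.hor [.f 569 1 5] []) .no (.br 569 .no (.br 690 .no (.hor [.f 562 1 3, .f 689 3 5]
  [(87, 86, [3])]) .no (.br 809 .no (.use 36) .no (.br 810 .no .no .no (.hor [.f 801 3 5] []) (.br
  931 (.hor [.f 931 1 3, .f 930 3 5] [(133, 101, [1, 1])]) (.red [.t 930 3 2, .t 937 3 2, .f 817 1
  3] 119 136 [2, 4] [(117, 136, [2, 4, 4, 4]), (118, 136, [2, 4, 4]), (119, 136, [2, 4])]) .no
  (.use 212) .no .no) .no) (.red [.f 809 5 3, .f 682 3 1, .t 690 1 3, .f 699 1 3] 103 136 [2, 2,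
  4] [(102, 136, [2, 2, 4, 4]), (103, 136, [2, 2, 4]), (104, 136, [2, 2])]) .no) .no .no) (.hor
  [.f 570 1 3, .f 569 3 5] [(88, 136, [2, 2, 2])]) (.hor [.f 561 3 1, .f 560 1 5] [(87, 103,
  [2])]) .no (.hor [.t 688 2 3, .f 569 1 5] [(87, 103, [2])])) .no .no) .no (.hor [.f 690 3 5] [])
  .no (.use 213)) .no (.use 214)) .no (.br 699 .no (.use 215) .no (.br 698 .no (.br 697 .no (.hor
  [.f 569 1 5] []) .no (.br 690 .no (.hor [.f 562 1 3, .f 689 3 5] [(87, 86, [3])]) .no (.br 809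
  .no (.use 36) .no (.br 810 .no .no .no (.hor [.f 801 3 5] []) (.br 939 .no .no (.con 136 [2, 4,
  4, 2]) (.hor [.f 930 3 5] []) .no .no) .no) (.red [.f 809 5 3, .f 682 3 1, .t 690 1 3, .f 699 1
  3] 103 136 [2, 2, 4] [(102, 136, [2, 2, 4, 4]), (103, 136, [2, 2, 4]), (104, 136, [2, 2])]) .no)
  .no .no) .no .no) .no (.hor [.f 690 3 5] []) .no (.use 213)) .no (.use 214)) .no .no) .no (.red
  [.f 680 3 1, .f 688 1 3] 103 136 [2, 2, 4] [(102, 136, [2, 2, 4, 4]), (103, 136, [2, 2, 4])])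
  (.use 216) .no) .no .no (.br 1067 (.br 939 .no (.br 947 .no (.use 219) .no .no .no .no) (.hor
  [.f 1067 1 3, .f 939 3 1, .f 946 1 5] [(134, 118, [1]), (150, 118, [1, 1])]) (.hor [.f 930 3 5]
  []) .no .no) (.hor [.f 930 3 1, .f 938 1 3, .f 937 3 5] [(133, 119, [1, 4, 4]), (134, 119, [1,
  4])]) .no (.hor [.f 1058 3 5] []) .no .no) (.br 688 .no (.br 699 .no (.use 215) .no (.br 698 .no
  (.br 697 .no (.hor [.f 569 1 5] []) .no (.br 569 .no (.br 690 .no (.hor [.f 562 1 3, .f 689 3 5]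
  [(87, 86, [3])]) .no (.br 809 .no (.use 36) .no (.br 810 .no .no .no (.hor [.f 801 3 5] []) (.br
  931 (.hor [.t 930 3 1, .f 938 1 3, .f 937 3 5] [(133, 101, [1, 1]), (134, 102, [1, 1])]) (.red
  [.t 930 3 2, .t 937 3 2, .f 817 1 3] 119 136 [2, 4] [(117, 136, [2, 4, 4, 4]), (118, 136, [2, 4,
  4]), (119, 136, [2, 4])]) (.hor [.f 930 3 5] []) (.use 212) .no .no) .no) (.red [.f 809 5 3, .f
  682 3 1, .t 690 1 3, .f 699 1 3] 103 136 [2, 2, 4] [(102, 136, [2, 2, 4, 4]), (103, 136, [2, 2,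
  4]), (104, 136, [2, 2])]) .no) .no .no) (.hor [.f 570 1 3, .f 569 3 5] [(88, 136, [2, 2, 2])])
  (.hor [.f 561 3 1, .f 560 1 5] [(87, 103, [2])]) .no (.hor [.t 688 2 3, .f 569 1 5] [(87, 103,
  [2])])) .no .no) .no (.hor [.f 690 3 5] []) .no (.use 213)) .no (.use 214)) .no (.red [.f 680 3
  1, .f 688 1 3] 103 136 [2, 2, 4] [(102, 136, [2, 2, 4, 4]), (103, 136, [2, 2, 4])]) (.use 216)
  .no) (.red [.t 945 4 1, .f 817 5 1, .f 817 1 3] 119 136 [2, 4] [(119, 136, [2, 4]), (134, 118,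
  [1])])

def c21t222 : Tr4 :=
  .br 938 (.red [.f 938 1 3, .f 937 3 5, .f 817 5 1, .f 817 1 3] 119 136 [2, 4] [(119, 136, [2,
  4]), (134, 118, [1])]) (.red [.t 937 3 2, .f 817 1 3] 119 136 [2, 4] [(118, 136, [2, 4, 4]),
  (119, 136, [2, 4])]) .no (.br 1075 (.br 816 .no (.red [.f 688 1 3] 103 136 [2, 2, 4] [(103, 136,
  [2, 2, 4])]) .no (.br 706 .no (.use 221) (.hor [.f 706 3 1, .f 705 1 5] [(105, 104, [3])]) (.br
  688 .no (.use 217) .no (.red [.f 680 3 1, .f 688 1 3] 103 136 [2, 2, 4] [(102, 136, [2, 2, 4,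
  4]), (103, 136, [2, 2, 4])]) (.use 216) .no) .no .no) .no .no) (.hor [.f 946 1 5] []) .no (.br
  947 .no (.br 939 .no (.use 219) .no (.hor [.f 930 3 5] []) .no .no) .no (.hor [.f 939 3 1, .f
  946 1 5] [(134, 118, [1])]) .no .no) .no .no) (.br 1075 (.br 816 .no (.red [.f 688 1 3] 103 136
  [2, 2, 4] [(103, 136, [2, 2, 4])]) .no (.br 706 .no (.br 810 .no (.br 688 .no (.br 699 .no (.use
  215) .no (.br 698 .no (.br 689 .no (.use 206) (.use 218) (.con 136 [2, 2, 4, 4, 2]) (.red [.f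
  689 5 1, .t 690 1 3, .f 699 1 3] 103 136 [2, 2, 4] [(103, 136, [2, 2, 4]), (104, 136, [2, 2])])
  .no) .no (.hor [.f 690 3 5] []) .no (.use 213)) .no (.use 214)) .no (.red [.f 680 3 1, .f 688 1
  3] 103 136 [2, 2, 4] [(102, 136, [2, 2, 4, 4]), (103, 136, [2, 2, 4])]) (.use 220) .no) .no (.br
  688 .no (.br 699 .no (.use 215) .no (.br 698 .no (.br 697 .no (.hor [.f 569 1 5] []) .no (.br
  809 .no (.use 36) .no (.hor [.f 801 3 5] []) .no .no) .no .no) .no (.hor [.f 690 3 5] []) .no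
  (.use 213)) .no (.use 214)) .no (.red [.f 680 3 1, .f 688 1 3] 103 136 [2, 2, 4] [(102, 136, [2,
  2, 4, 4]), (103, 136, [2, 2, 4])]) (.use 208) .no) (.red [.f 810 5 1, .t 937 3 2, .f 817 1 3]
  119 136 [2, 4] [(118, 136, [2, 4, 4]), (119, 136, [2, 4])]) (.red [.f 809 5 3, .f 808 3 5, .t
  952 4 2] 119 136 [2, 4] [(119, 136, [2, 4])])) (.hor [.f 706 3 1, .f 705 1 5] [(105, 104, [3])])
  (.br 688 .no (.use 217) .no (.red [.f 680 3 1, .f 688 1 3] 103 136 [2, 2, 4] [(102, 136, [2, 2,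
  4, 4]), (103, 136, [2, 2, 4])]) (.br 810 .no (.use 220) .no (.use 208) (.red [.f 810 5 1, .t 937
  3 2, .f 817 1 3] 119 136 [2, 4] [(118, 136, [2, 4, 4]), (119, 136, [2, 4])]) (.red [.f 809 5 3,
  .f 808 3 5, .f 688 5 1, .f 688 1 3] 103 136 [2, 2, 4] [(103, 136, [2, 2, 4])])) .no) .no .no)
  .no .no) (.hor [.f 946 1 5] []) .no (.hor [.t 1074 2 4, .f 937 3 5] [(134, 119, [1, 4])]) .no
  .no) .no

def c21t223 : Tr4 :=
  .br 826 .no (.use 192) .no (.br 827 .no (.use 193) (.use 195) (.hor [.f 818 3 5] []) .no .no)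
  (.use 3) .no

def c21t224 : Tr4 :=
  .br 970 .no (.hor [.f 835 3 1, .f 842 1 5] [(121, 136, [2, 3])]) (.hor [.f 969 3 5] []) .no .no
  .no

def c21t225 : Tr4 :=
  .br 826 .no (.hor [.f 698 1 3, .f 826 3 5] [(104, 136, [2, 2])]) .no .no .no .no

def c21t226 : Tr4 :=
  .br 842 (.hor [.t 832 1 3, .f 841 1 5] [(121, 105, [1])]) (.red [.f 706 1 3] 105 136 [2, 2, 3]
  [(105, 136, [2, 2, 3])]) (.br 970 .no .no (.hor [.t 832 1 3, .f 842 3 1, .f 841 1 5] [(121, 105,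
  [1]), (122, 105, [1, 3])]) .no .no .no) .no .no .no

def c21t227 : Tr4 :=
  .br 817 .no (.use 197) .no (.red [.f 809 3 1, .f 817 1 3] 119 136 [2, 4] [(118, 136, [2, 4, 4]),
  (119, 136, [2, 4])]) .no (.red [.t 952 4 2, .f 817 3 5] 119 136 [2, 4] [(119, 136, [2, 4])])

def c21t228 : Tr4 :=
  .br 826 .no (.br 817 .no (.use 192) .no (.red [.f 809 3 1, .f 817 1 3] 119 136 [2, 4] [(118,
  136, [2, 4, 4]), (119, 136, [2, 4])]) (.use 210) (.red [.t 952 4 2] 119 136 [2, 4] [(119, 136,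
  [2, 4])])) .no (.use 227) (.red [.f 826 5 3, .f 826 3 1, .f 825 1 5, .t 1073 3 2, .f 953 1 3, .t
  961 4 2] 136 136 [] [(135, 136, [4]), (136, 136, [])]) .no

def c21t229 : Tr4 :=
  .br 827 .no (.hor [.f 698 1 5] []) .no (.con 136 [2, 2, 4]) .no .no

def c21t230 : Tr4 :=
  .br 1344 (.br 1345 (.hor [.f 1344 1 5] []) .no (.br 1224 (.red [.f 1208 5 3, .f 1208 3 5, .t
  1352 2 4, .f 1217 1 5] 169 136 [3, 1, 1] [(169, 136, [3, 1, 1])]) .no (.con 136 [3, 1, 3, 1])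
  .no .no .no) (.use 65) .no .no) .no (.con 136 [3, 1, 1, 3]) (.br 1224 (.red [.f 1208 5 3, .f
  1208 3 1, .f 1216 1 3] 169 136 [3, 1, 1] [(168, 136, [1, 1]), (169, 136, [3, 1, 1])]) .no (.con
  136 [3, 1, 3, 1]) .no .no .no) (.red [.f 1216 5 1, .f 1217 1 5, .t 1097 1 4] 153 136 [3, 1]
  [(153, 136, [3, 1])]) .no

def c21t231 : Tr4 :=
  .br 1224 (.red [.f 1208 5 3, .f 1208 3 1, .f 1216 1 3] 169 136 [3, 1, 1] [(168, 136, [1, 1]),
  (169, 136, [3, 1, 1])]) .no (.con 136 [3, 1, 3, 1]) .no .no .no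

def c21t232 : Tr4 :=
  .br 835 .no (.hor [.f 706 1 5] []) (.br 969 (.br 968 (.hor [.f 968 1 5] []) (.hor [.f 832 1 3,
  .f 832 3 5] [(121, 105, [1])]) (.br 1096 (.con 136 [3, 3, 1]) .no (.red [.f 968 3 1, .f 968 1 5]
  138 136 [3, 3] [(138, 136, [3, 3])]) .no .no .no) .no .no .no) .no (.use 224) .no (.br 1217
  (.hor [.f 1217 1 5] []) .no (.use 50) .no .no (.br 968 (.br 1072 (.hor [.t 1072 1 3, .f 1081 1
  5] [(151, 119, [1, 1])]) .no .no (.br 1200 (.br 1226 (.hor [.f 1226 1 5] []) .no (.br 1225 (.con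
  136 [3, 1, 3, 1]) (.use 230) (.hor [.f 1225 3 5] []) .no .no (.con 136 [3, 1, 3, 1])) .no .no
  (.br 1097 .no .no (.br 1106 (.red [.t 1089 2 3, .t 1105 4 1] 154 136 [3, 3, 1] [(137, 136, [3]),
  (154, 136, [3, 3, 1])]) (.hor [.t 1105 4 2, .f 968 1 5] [(138, 154, [2])]) (.br 1345 (.br 1344
  (.hor [.f 1344 1 5] []) .no (.con 136 [3, 1, 1, 3]) (.use 231) .no .no) .no (.red [.t 1345 3 2,
  .f 1090 3 1] 153 136 [3, 1] [(153, 136, [3, 1]), (169, 136, [3, 1, 1])]) (.br 1344 (.use 65) .no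
  (.con 136 [3, 1, 1, 3]) (.use 231) .no .no) .no (.use 198)) .no .no .no) .no .no .no)) .no .no
  (.hor [.f 1064 3 1, .t 1072 1 3, .f 1081 1 5] [(150, 119, [1, 1, 4]), (151, 119, [1, 1])]) (.red
  [.f 1200 5 3, .f 1073 3 1, .f 1081 1 5, .t 961 1 4, .f 946 1 3] 136 136 [] [(135, 136, [4]),
  (136, 136, []), (151, 135, [1])]) .no) .no .no) (.hor [.f 832 1 3, .f 832 3 5] [(121, 105,
  [1])]) (.br 1072 (.hor [.t 1072 1 3, .f 1081 1 5] [(151, 119, [1, 1])]) .no .no (.br 1200 (.br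
  1226 (.hor [.f 1226 1 5] []) .no (.br 1096 (.con 136 [3, 1, 1, 3]) .no (.br 1097 (.use 61) .no
  (.hor [.f 1096 3 5] []) .no .no .no) .no (.use 62) .no) .no .no (.br 1096 (.con 136 [3, 1, 3])
  .no (.use 127) .no (.use 115) .no)) .no .no (.hor [.f 1064 3 1, .t 1072 1 3, .f 1081 1 5] [(150,
  119, [1, 1, 4]), (151, 119, [1, 1])]) (.red [.f 1200 5 3, .f 1073 3 1, .f 1081 1 5, .t 961 1 4,
  .f 946 1 3] 136 136 [] [(135, 136, [4]), (136, 136, []), (151, 135, [1])]) .no) .no .no) .no .no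
  .no)) (.use 226)) (.use 225) .no .no

def c21l7 : List Tr4 :=
  [c21t216, c21t217, c21t218, c21t219, c21t220, c21t221, c21t222, c21t223, c21t224, c21t225,
  c21t226, c21t227, c21t228, c21t229, c21t230, c21t231, c21t232]

theorem c21k7 : chkLF ⟨4, 0, 0, true, -8⟩ false 1 c21N 216 c21l7 = true := by decide +kernel

def c21t233 : Tr4 :=
  .br 833 .no (.br 817 .no (.br 826 .no (.use 192) (.red [.f 826 3 1, .f 825 1 5, .t 1073 3 2, .f
  953 1 3, .t 961 4 2] 136 136 [] [(135, 136, [4]), (136, 136, [])]) (.br 834 .no (.hor [.f 705 1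
  5] []) (.use 196) .no (.use 197) .no) (.use 3) .no) .no (.red [.f 809 3 1, .f 817 1 3] 119 136
  [2, 4] [(118, 136, [2, 4, 4]), (119, 136, [2, 4])]) (.br 826 .no (.br 834 .no (.hor [.f 705 1 5]
  []) (.br 835 .no (.use 191) (.hor [.f 834 3 5] []) (.use 209) .no .no) .no (.use 210) .no) (.red
  [.f 826 3 1, .f 825 1 5, .t 1073 3 2, .f 953 1 3, .t 961 4 2] 136 136 [] [(135, 136, [4]), (136,
  136, [])]) .no (.br 834 .no (.hor [.f 705 1 5] []) (.br 835 .no (.use 222) (.hor [.f 834 3 5]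
  []) .no .no .no) .no (.red [.f 826 5 3, .f 826 3 1, .f 825 1 5, .t 1073 3 2, .f 953 1 3, .t 961
  4 2] 136 136 [] [(135, 136, [4]), (136, 136, [])]) .no) .no) (.red [.t 952 4 2] 119 136 [2, 4]
  [(119, 136, [2, 4])])) (.br 1209 (.use 199) .no (.br 969 (.red [.f 961 1 3, .f 1089 3 5, .t 1209
  3 2, .f 954 3 1, .t 961 3 1] 136 136 [] [(136, 136, []), (152, 136, [1])]) .no (.br 834 .no (.br
  817 .no (.use 223) .no (.red [.f 809 3 1, .f 817 1 3] 119 136 [2, 4] [(118, 136, [2, 4, 4]),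
  (119, 136, [2, 4])]) (.br 835 .no (.hor [.f 706 1 5] []) (.use 224) (.use 225) .no .no) (.red
  [.t 952 4 2] 119 136 [2, 4] [(119, 136, [2, 4])])) (.hor [.f 833 3 5] []) (.red [.f 826 3 1, .f
  825 1 5, .t 1073 3 2, .f 953 1 3, .t 961 4 2] 136 136 [] [(135, 136, [4]), (136, 136, [])]) (.br
  970 .no (.hor [.t 970 2 4, .f 833 3 5] [(121, 119, [3, 3])]) (.hor [.f 969 3 5] []) .no .no .no)
  .no) .no (.red [.t 1089 2 3, .t 1209 3 2, .f 954 3 1, .f 962 1 3] 136 136 [] [(136, 136, []),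
  (152, 136, [1])]) (.br 834 .no (.br 817 .no (.use 223) .no (.red [.f 809 3 1, .f 817 1 3] 119
  136 [2, 4] [(118, 136, [2, 4, 4]), (119, 136, [2, 4])]) (.br 835 .no (.hor [.f 706 1 5] [])
  (.use 226) (.use 225) .no .no) (.red [.t 952 4 2] 119 136 [2, 4] [(119, 136, [2, 4])])) (.hor
  [.f 833 3 5] []) (.red [.f 826 3 1, .f 825 1 5, .t 1073 3 2, .f 953 1 3, .t 961 4 2] 136 136 []
  [(135, 136, [4]), (136, 136, [])]) (.use 228) .no)) (.hor [.f 1073 3 1, .f 1081 1 5] [(151, 119,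
  [1, 1])]) .no (.br 834 .no (.br 817 .no (.use 223) .no (.red [.f 809 3 1, .f 817 1 3] 119 136
  [2, 4] [(118, 136, [2, 4, 4]), (119, 136, [2, 4])]) (.use 232) (.red [.t 952 4 2] 119 136 [2, 4]
  [(119, 136, [2, 4])])) (.hor [.f 833 3 5] []) (.red [.f 826 3 1, .f 825 1 5, .t 1073 3 2, .f 953
  1 3, .t 961 4 2] 136 136 [] [(135, 136, [4]), (136, 136, [])]) (.use 228) .no)) .no (.red [.t
  953 2 3, .t 1073 3 2, .f 953 1 3, .f 825 3 1] 136 136 [] [(135, 136, [4]), (136, 136, [])]) .no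

def c21t234 : Tr4 :=
  .br 826 .no (.use 74) (.use 79) (.br 827 .no (.br 816 .no (.hor [.f 688 1 5] []) .no (.use 8)
  .no .no) (.br 819 .no (.br 816 .no (.hor [.f 688 1 5] []) .no (.con 136 [2, 2, 4, 4]) .no .no)
  .no (.use 82) .no .no) (.hor [.f 818 3 5] []) .no .no) (.use 76) .no

def c21t235 : Tr4 :=
  .br 938 .no (.red [.t 937 3 2, .f 817 1 3] 119 136 [2, 4] [(118, 136, [2, 4, 4]), (119, 136, [2,
  4])]) .no (.br 816 .no (.red [.f 688 1 3] 103 136 [2, 4, 2] [(103, 136, [2, 4, 2])]) .no (.br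
  819 .no (.con 136 [2, 4, 2, 4]) .no (.use 81) .no .no) .no .no) (.red [.f 938 5 3, .f 937 3 5,
  .f 817 5 1, .f 817 1 3] 119 136 [2, 4] [(119, 136, [2, 4])]) .no

def c21t236 : Tr4 :=
  .br 938 .no (.red [.t 937 3 2, .f 817 1 3] 119 136 [2, 4] [(118, 136, [2, 4, 4]), (119, 136, [2,
  4])]) .no (.br 827 .no (.use 106) .no (.con 136 [2, 2, 4]) .no .no) (.red [.f 938 5 3, .f 937 3
  5, .f 817 5 1, .f 817 1 3] 119 136 [2, 4] [(119, 136, [2, 4])]) .no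

def c21t237 : Tr4 :=
  .br 817 .no (.use 234) .no (.red [.f 809 3 1, .f 817 1 3] 119 136 [2, 4] [(118, 136, [2, 4, 4]),
  (119, 136, [2, 4])]) (.br 826 .no (.br 835 .no (.use 191) (.use 229) (.use 235) .no (.use 210))
  (.br 835 .no (.br 827 .no (.red [.f 699 1 3] 104 136 [2, 2] [(104, 136, [2, 2])]) .no (.con 136
  [2, 2, 4]) .no .no) (.use 236) (.use 235) .no .no) .no (.use 25) .no) (.red [.t 952 4 2] 119 136
  [2, 4] [(119, 136, [2, 4])])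

def c21t238 : Tr4 :=
  .br 816 .no (.hor [.f 688 1 5] []) .no (.use 13) .no .no

def c21t239 : Tr4 :=
  .br 819 .no (.con 136 [2, 4, 2, 4]) .no (.red [.f 946 5 1, .f 939 1 3, .f 811 3 1] 118 136 [2,
  4, 4] [(118, 136, [2, 4, 4]), (134, 136, [4, 4])]) .no .no

def c21t240 : Tr4 :=
  .br 1067 (.br 1203 (.hor [.f 1203 1 3, .t 1210 2 4, .f 1073 3 5] [(151, 119, [1, 1]), (167, 119,
  [1, 1, 1])]) .no .no .no .no .no) .no .no (.red [.f 931 3 1, .f 938 1 5] 133 136 [4, 4, 4]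
  [(133, 136, [4, 4, 4])]) .no .no

def c21t241 : Tr4 :=
  .br 819 .no (.con 136 [2, 4, 2, 4]) .no (.red [.t 810 1 3, .f 937 3 5] 118 136 [2, 4, 4] [(118,
  136, [2, 4, 4])]) .no .no

def c21t242 : Tr4 :=
  .br 1067 (.use 38) (.br 816 .no (.hor [.f 688 1 5] []) .no (.use 239) .no .no) .no (.br 816 .no
  (.hor [.f 688 1 5] []) .no (.br 939 .no (.con 136 [2, 4, 4, 2]) .no (.br 938 (.red [.f 931 3 1]
  133 136 [4, 4, 4] [(133, 136, [4, 4, 4])]) (.use 241) .no (.hor [.f 930 3 5] []) .no .no) .no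
  (.red [.f 938 5 3, .f 937 3 5, .t 825 1 4, .f 944 3 5] 119 136 [2, 4] [(119, 136, [2, 4])])) .no
  .no) .no (.red [.f 1066 5 3, .f 1066 3 1, .f 1074 1 3, .f 1073 3 5, .t 961 1 4, .f 1081 3 1] 136
  136 [] [(136, 136, []), (150, 118, [1, 1]), (151, 135, [1]), (152, 136, [1])])

def c21t243 : Tr4 :=
  .br 816 .no (.red [.f 688 1 3] 103 136 [2, 4, 2] [(103, 136, [2, 4, 2])]) .no (.br 1203 (.hor
  [.f 1203 1 3, .t 1210 2 4, .f 1073 3 5] [(151, 119, [1, 1]), (167, 119, [1, 1, 1])]) .no .no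
  (.br 819 .no (.con 136 [2, 4, 2, 4]) .no (.use 27) .no .no) .no (.red [.f 1074 5 1, .f 1074 1 3,
  .f 1073 3 5, .t 961 1 4] 136 136 [] [(136, 136, []), (151, 135, [1])])) .no .no

def c21t244 : Tr4 :=
  .br 1202 (.use 145) .no .no (.use 146) (.red [.f 1074 5 1, .f 1074 1 3, .f 1073 3 5, .t 961 1 4]
  136 136 [] [(136, 136, []), (151, 135, [1])]) (.red [.t 1081 4 1, .t 961 1 4] 136 136 [] [(136,
  136, []), (151, 135, [1])])

def c21t245 : Tr4 :=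
  .br 1217 (.hor [.f 1217 1 5] []) .no (.use 50) .no .no (.br 1226 (.hor [.f 1226 1 5] []) .no
  (.br 1225 (.con 136 [3, 1, 3, 1]) (.br 1072 (.hor [.t 1072 1 3, .f 1081 1 5] [(151, 136, [4,
  1])]) .no .no (.br 1096 (.con 136 [3, 3, 1, 1]) (.br 1200 (.use 230) .no .no (.hor [.f 1064 3 1,
  .t 1072 1 3, .f 1081 1 5] [(150, 136, [4, 4, 1]), (151, 136, [4, 1])]) (.red [.f 1200 5 3, .f
  1073 3 1, .f 1081 1 5, .t 961 1 4] 136 136 [] [(136, 136, []), (151, 135, [1])]) .no) (.use 156)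
  .no .no .no) .no .no) (.hor [.f 1225 3 5] []) .no .no (.con 136 [3, 1, 3, 1])) .no .no (.br 1072
  (.hor [.t 1072 1 3, .f 1081 1 5] [(151, 136, [4, 1])]) .no .no (.br 1200 (.br 1096 (.con 136 [3,
  1, 3]) (.br 1344 (.br 1345 (.hor [.f 1344 1 5] []) .no (.red [.t 1345 3 2, .f 1090 3 1] 153 136
  [3, 1] [(153, 136, [3, 1]), (169, 136, [3, 1, 1])]) (.use 65) .no .no) .no (.con 136 [3, 1, 1,
  3]) (.use 231) (.use 198) .no) (.use 127) .no (.use 115) .no) .no .no (.hor [.f 1064 3 1, .t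
  1072 1 3, .f 1081 1 5] [(150, 136, [4, 4, 1]), (151, 136, [4, 1])]) (.red [.f 1200 5 3, .f 1073
  3 1, .f 1081 1 5, .t 961 1 4] 136 136 [] [(136, 136, []), (151, 135, [1])]) .no) .no .no))

def c21t246 : Tr4 :=
  .br 826 .no (.con 136 [2, 2, 4]) .no (.hor [.f 818 3 5] []) .no .no

def c21t247 : Tr4 :=
  .br 688 (.hor [.f 688 1 5] []) (.con 136 [2, 4, 2, 4]) .no (.con 136 [2, 4, 2, 4]) .no .no

def c21t248 : Tr4 :=
  .br 688 (.hor [.f 688 1 5] []) (.con 136 [2, 4, 2, 4]) .no (.con 136 [2, 4, 2, 4]) .no .no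

def c21t249 : Tr4 :=
  .br 827 .no (.red [.f 699 1 3] 104 136 [2, 2] [(104, 136, [2, 2])]) .no (.use 246) .no (.br 696
  .no (.br 818 .no (.hor [.f 689 1 5] []) .no (.use 247) (.use 248) .no) (.red [.f 696 3 1, .f 704
  1 5] 104 136 [2, 2] [(104, 136, [2, 2])]) (.br 818 .no (.hor [.f 689 1 5] []) .no (.con 136 [2,
  2, 4, 4]) (.con 136 [2, 2, 4, 4]) .no) (.red [.t 832 4 2] 104 136 [2, 2] [(104, 136, [2, 2])])
  .no)

def c21t250 : Tr4 :=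
  .br 819 .no (.use 168) .no (.red [.f 811 3 1] 118 136 [2, 4, 4] [(118, 136, [2, 4, 4])]) .no .no

def c21t251 : Tr4 :=
  .br 1075 (.br 947 .no (.dom 119 136 [2, 4]) .no (.use 250) .no .no) (.hor [.f 946 1 5] []) .no
  (.br 947 .no (.dom 119 136 [2, 4]) .no (.use 250) .no .no) .no .no

def c21t252 : Tr4 :=
  .br 818 .no (.hor [.f 689 1 5] []) (.use 251) (.use 247) (.use 248) .no

def c21t253 : Tr4 :=
  .br 818 .no (.hor [.f 689 1 5] []) (.use 251) (.con 136 [2, 4, 2, 4]) (.con 136 [2, 4, 2, 4])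
  .no

def c21t254 : Tr4 :=
  .br 835 .no (.use 249) (.hor [.f 834 3 5] []) (.br 696 .no (.use 252) (.hor [.f 696 3 1, .f 704
  1 5] [(104, 136, [2, 2])]) (.use 253) (.hor [.t 832 4 2, .t 968 4 2, .f 833 3 5] [(104, 136, [2,
  2]), (121, 136, [2, 3])]) .no) .no .no

def c21t255 : Tr4 :=
  .br 697 .no (.hor [.f 568 1 5] []) .no (.hor [.f 689 3 5] []) .no .no

def c21t256 : Tr4 :=
  .br 715 .no (.hor [.f 586 1 5] []) (.hor [.f 715 3 1, .f 707 1 3, .f 834 3 5] [(105, 136, [2, 3,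
  2]), (106, 136, [2, 3, 2, 3])]) .no .no .no

def c21t257 : Tr4 :=
  .br 714 .no (.use 256) (.hor [.f 713 3 5] []) .no (.red [.t 834 3 2, .f 826 5 3, .t 833 2 4] 104
  136 [2, 2] [(104, 136, [2, 2]), (105, 104, [3])]) .no

def c21t258 : Tr4 :=
  .br 713 .no (.red [.t 712 4 2, .f 568 1 3] 88 136 [2, 2, 2] [(88, 136, [2, 2, 2]), (89, 136, [2,
  2, 2, 3])]) (.use 257) .no (.hor [.t 833 2 3, .f 704 3 5] [(105, 104, [3])]) .no

def c21t259 : Tr4 :=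
  .br 697 .no (.hor [.f 568 1 5] []) .no (.red [.t 697 4 1] 103 136 [2, 4, 2] [(103, 136, [2, 4,
  2])]) .no .no

def c21t260 : Tr4 :=
  .br 826 .no (.use 259) .no .no .no .no

def c21t261 : Tr4 :=
  .br 697 .no (.con 136 [2, 2, 2, 4]) .no (.hor [.f 688 3 5] []) .no .no

def c21t262 : Tr4 :=
  .br 569 .no (.br 568 .no (.hor [.f 440 1 5] []) (.br 570 .no (.hor [.f 441 1 5] []) .no (.red
  [.t 561 1 3, .f 570 1 3] 88 136 [2, 2, 2] [(87, 136, [2, 2, 2, 4]), (88, 136, [2, 2, 2])]) (.con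
  136 [2, 2, 2, 2]) .no) (.red [.f 560 3 1, .f 560 1 5] 87 136 [2, 2, 2, 4] [(87, 136, [2, 2, 2,
  4])]) .no .no) (.red [.t 577 4 1, .f 561 1 3, .f 688 3 5] 88 136 [2, 2, 2] [(87, 136, [2, 2, 2,
  4]), (88, 136, [2, 2, 2])]) .no (.red [.f 569 5 1, .f 561 1 3] 87 136 [2, 2, 2, 4] [(87, 136,
  [2, 2, 2, 4])]) (.red [.t 688 3 2] 87 136 [2, 2, 2, 4] [(87, 136, [2, 2, 2, 4])])

def c21t263 : Tr4 :=
  .br 808 (.con 136 [2, 4, 2, 4, 1, 3]) (.con 136 [2, 4, 2, 4, 1, 3]) (.br 690 .no (.con 136 [2,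
  4, 2, 2, 4]) .no (.hor [.f 681 3 5] []) .no .no) (.con 136 [2, 4, 2, 4, 1, 3]) (.con 136 [2, 4,
  2, 4, 1, 3]) .no

def c21t264 : Tr4 :=
  .br 947 .no (.use 263) .no .no .no .no

def c21t265 : Tr4 :=
  .br 699 .no (.con 136 [2, 2, 2, 4]) .no (.use 263) .no .no

def c21t266 : Tr4 :=
  .br 690 .no (.con 136 [2, 2, 4, 2, 4]) .no (.hor [.f 681 3 5] []) .no .no

def c21t267 : Tr4 :=
  .br 697 .no (.br 689 .no (.red [.f 561 1 3] 87 136 [2, 2, 2, 4] [(87, 136, [2, 2, 2, 4])]) .no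
  (.br 699 .no (.con 136 [2, 2, 2, 4]) (.con 136 [2, 2, 2, 4]) (.use 266) .no .no) (.red [.f 689 5
  1, .f 690 1 3] 103 136 [2, 2, 4] [(103, 136, [2, 2, 4])]) .no) .no (.hor [.f 688 3 5] []) .no
  .no

def c21t268 : Tr4 :=
  .br 826 .no (.use 267) .no .no .no .no

def c21t269 : Tr4 :=
  .br 976 .no (.con 136 [2, 3, 2, 3, 1, 4, 2, 3, 1, 4]) (.hor [.f 976 3 5] []) .no .no .no

def c21t270 : Tr4 :=
  .br 840 .no .no (.hor [.t 840 3 1, .f 969 3 5] [(122, 136, [2, 3, 3])]) .no .no .no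

def c21t271 : Tr4 :=
  .br 576 .no (.br 1106 .no .no (.br 1105 (.br 977 .no (.hor [.f 841 1 3, .f 969 3 5] [(122, 104,
  [3, 1, 3])]) (.use 269) .no .no (.use 270)) (.br 715 .no (.br 714 .no (.hor [.f 586 1 5] [])
  (.br 976 .no (.con 136 [2, 2, 3, 3, 1, 4, 2, 4]) (.br 848 .no (.con 136 [2, 2, 3, 3, 1, 4, 2,
  4]) (.con 136 [2, 2, 3, 3, 1, 4, 2, 4]) (.br 577 .no (.hor [.f 448 1 5] []) (.br 849 .no (.con
  136 [2, 2, 2, 3, 3, 1, 4, 4]) (.br 985 (.hor [.f 977 1 3, .f 976 3 5] [(139, 136, [3, 3, 3])])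
  .no (.br 986 .no (.con 136 [2, 3, 3, 3, 2, 4, 4, 4]) (.hor [.f 985 3 5] []) .no (.con 136 [3, 3,
  3, 2, 2, 4, 4, 4]) .no) .no (.hor [.t 1105 2 3, .f 976 3 5] [(139, 136, [3, 3, 3])]) .no) .no
  (.hor [.t 969 2 3, .f 840 3 5] [(122, 104, [3, 3, 1])]) .no) .no .no .no) (.con 136 [2, 2, 3, 3,
  1, 4, 2, 4]) .no) .no .no .no) .no .no (.hor [.t 833 2 3, .f 704 3 5] [(105, 104, [3])])) (.hor
  [.f 715 3 1, .f 707 1 3, .f 834 3 5] [(105, 104, [3]), (106, 104, [3, 3])]) .no .no (.red [.t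
  834 3 2, .f 826 5 3, .t 833 2 4] 104 136 [2, 2] [(104, 136, [2, 2]), (105, 104, [3])])) (.hor
  [.f 1105 3 5] []) .no .no .no) .no .no (.br 977 .no (.hor [.f 841 1 3, .f 969 3 5] [(122, 104,
  [3, 1, 3])]) (.use 269) .no .no (.use 270))) (.red [.f 576 3 1, .f 568 1 3] 88 136 [2, 2, 2]
  [(88, 136, [2, 2, 2]), (89, 136, [2, 2, 2, 3])]) .no (.use 258) .no

def c21l8 : List Tr4 :=
  [c21t233, c21t234, c21t235, c21t236, c21t237, c21t238, c21t239, c21t240, c21t241, c21t242,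
  c21t243, c21t244, c21t245, c21t246, c21t247, c21t248, c21t249, c21t250, c21t251, c21t252,
  c21t253, c21t254, c21t255, c21t256, c21t257, c21t258, c21t259, c21t260, c21t261, c21t262,
  c21t263, c21t264, c21t265, c21t266, c21t267, c21t268, c21t269, c21t270, c21t271]

theorem c21k8 : chkLF ⟨4, 0, 0, true, -8⟩ false 1 c21N 233 c21l8 = true := by decide +kernel

def c21t272 : Tr4 :=
  .br 843 .no (.hor [.f 707 1 3, .f 834 3 5] [(105, 104, [3])]) (.br 569 .no (.br 970 .no .no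
  (.use 271) .no .no .no) (.red [.t 577 4 1, .f 568 1 5] 88 136 [2, 2, 2] [(88, 136, [2, 2, 2])])
  (.br 714 .no (.use 256) (.br 576 .no (.br 713 .no (.br 577 .no (.hor [.f 448 1 5] []) .no .no
  .no .no) (.use 257) .no .no .no) (.red [.f 576 3 1, .f 568 1 3] 88 136 [2, 2, 2] [(88, 136, [2,
  2, 2]), (89, 136, [2, 2, 2, 3])]) .no (.use 258) .no) .no (.red [.t 834 3 2, .f 826 5 3, .t 833
  2 4] 104 136 [2, 2] [(104, 136, [2, 2]), (105, 104, [3])]) (.hor [.t 833 2 3, .f 704 3 5] [(105,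
  104, [3])])) (.red [.f 569 5 1, .f 570 1 3] 88 136 [2, 2, 2] [(88, 136, [2, 2, 2])]) .no) .no
  .no .no

def c21t273 : Tr4 :=
  .br 1096 (.hor [.f 1096 1 5] []) .no (.br 1226 (.hor [.f 1226 1 5] []) .no (.use 272) .no .no
  .no) .no .no .no

def c21t274 : Tr4 :=
  .br 1226 (.hor [.f 1226 1 5] []) .no (.br 1225 (.con 136 [3, 1, 3, 1]) .no (.hor [.f 1225 3 5]
  []) .no .no (.con 136 [3, 1, 3, 1])) .no .no (.red [.t 960 3 1, .f 1089 3 5, .f 1097 5 1, .t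
  1209 3 2, .f 1089 1 3, .t 1096 2 4] 153 136 [3, 1] [(152, 136, [1]), (153, 136, [3, 1])])

def c21t275 : Tr4 :=
  .br 835 .no (.br 827 .no (.red [.f 699 1 3] 104 136 [2, 2] [(104, 136, [2, 2])]) .no (.con 136
  [2, 4, 2]) .no (.br 704 .no (.red [.f 568 1 3, .f 696 3 1, .f 704 1 5] 104 136 [2, 2] [(88, 136,
  [2, 2, 2]), (104, 136, [2, 2])]) (.br 706 .no (.br 698 .no (.red [.f 570 1 3] 88 136 [2, 2, 2]
  [(88, 136, [2, 2, 2])]) .no (.use 255) (.red [.f 698 5 1, .f 699 1 3] 104 136 [2, 2] [(104, 136,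
  [2, 2])]) (.br 1097 (.use 273) .no (.use 54) .no .no (.use 274))) (.hor [.f 706 3 1, .f 705 1 5]
  [(105, 89, [1])]) (.red [.t 706 4 1] 104 136 [2, 2] [(104, 136, [2, 2])]) .no .no) .no .no .no))
  (.hor [.f 834 3 5] []) (.use 260) .no .no

def c21t276 : Tr4 :=
  .br 938 (.hor [.f 938 1 3, .f 937 3 5] [(134, 119, [1, 4])]) (.red [.t 937 3 2, .f 817 1 3] 119
  136 [2, 4] [(118, 136, [2, 4, 4]), (119, 136, [2, 4])]) .no (.br 1066 (.br 699 .no (.con 136 [2,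
  2, 2, 4]) .no (.br 689 .no (.use 262) .no (.br 810 .no (.con 136 [2, 2, 4, 4, 2]) .no (.br 939
  (.use 264) (.red [.f 802 3 1] 117 136 [2, 2, 4, 4, 4, 1] [(117, 136, [2, 4, 4, 4])]) (.br 819
  .no .no .no (.red [.f 811 3 1, .f 802 3 1] 118 136 [2, 4, 4] [(117, 136, [2, 4, 4, 4]), (118,
  136, [2, 4, 4])]) .no .no) (.hor [.f 930 3 5] []) .no .no) (.br 1067 (.hor [.f 1066 1 5] [])
  (.use 264) .no (.br 939 .no .no (.br 690 .no (.con 136 [2, 2, 2, 4, 4]) .no (.hor [.f 681 3 5]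
  []) .no .no) (.hor [.f 930 3 5] []) .no .no) .no .no) (.red [.f 809 5 3, .f 809 3 1, .f 817 1 3]
  119 136 [2, 4] [(118, 136, [2, 4, 4]), (119, 136, [2, 4])])) (.hor [.f 689 5 3, .f 688 3 5, .f
  690 3 5] []) .no) .no .no) .no .no (.br 1067 (.br 939 .no (.br 810 .no (.br 689 .no (.use 262)
  .no (.con 136 [2, 2, 4, 4, 2]) (.red [.f 689 5 3, .f 688 3 5, .t 832 4 2] 104 136 [2, 2] [(104,
  136, [2, 2])]) .no) .no (.hor [.f 802 3 1, .f 810 1 5] [(117, 136, [2, 4, 4, 4])]) .no (.red [.f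
  809 5 3, .f 809 3 1, .f 817 1 3] 119 136 [2, 4] [(118, 136, [2, 4, 4]), (119, 136, [2, 4])]))
  (.hor [.f 1067 1 3, .f 939 3 1, .f 946 1 5] [(134, 118, [1]), (150, 118, [1, 1])]) (.hor [.f 930
  3 5] []) .no .no) (.hor [.f 930 3 1, .f 938 1 3, .f 937 3 5] [(133, 119, [1, 4, 4]), (134, 119,
  [1, 4])]) .no (.hor [.f 1058 3 5] []) .no .no) (.br 689 .no (.use 262) .no (.br 810 .no (.con
  136 [2, 2, 4, 4, 2]) .no (.br 939 .no (.red [.f 802 3 1] 117 136 [2, 2, 4, 4, 4, 1] [(117, 136,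
  [2, 4, 4, 4])]) (.br 819 .no (.con 136 [2, 2, 4, 2]) .no (.red [.f 802 3 1] 117 136 [2, 2, 4, 4,
  4, 1] [(117, 136, [2, 4, 4, 4])]) .no .no) (.hor [.f 930 3 5] []) .no .no) (.br 939 .no .no (.br
  819 .no (.con 136 [2, 2, 4, 2]) .no .no .no .no) (.hor [.f 930 3 5] []) .no .no) (.red [.f 809 5
  3, .f 809 3 1, .f 817 1 3] 119 136 [2, 4] [(118, 136, [2, 4, 4]), (119, 136, [2, 4])])) (.red
  [.f 689 5 3, .f 688 3 5, .t 832 4 2] 104 136 [2, 2] [(104, 136, [2, 2])]) .no) (.red [.t 945 4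
  1, .f 817 5 1, .f 817 1 3] 119 136 [2, 4] [(119, 136, [2, 4]), (134, 118, [1])])) (.br 689 .no
  (.use 262) .no (.br 819 (.use 265) (.con 136 [2, 2, 4, 2]) .no (.con 136 [2, 4, 4, 1, 3, 2]) .no
  .no) (.red [.f 689 5 3, .f 688 3 5, .t 832 4 2] 104 136 [2, 2] [(104, 136, [2, 2])]) .no) .no

def c21t277 : Tr4 :=
  .br 835 .no (.br 827 .no (.red [.f 699 1 3] 104 136 [2, 2] [(104, 136, [2, 2])]) .no (.con 136
  [2, 4, 2]) .no (.br 706 .no (.br 1075 (.br 698 .no (.red [.f 570 1 3] 88 136 [2, 2, 2] [(88,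
  136, [2, 2, 2])]) .no (.use 261) (.red [.f 698 5 1, .f 699 1 3] 104 136 [2, 2] [(104, 136, [2,
  2])]) (.use 276)) (.hor [.f 946 1 5] []) .no (.br 938 (.hor [.f 938 1 3, .f 937 3 5] [(134, 119,
  [1, 4])]) (.red [.t 937 3 2, .f 817 1 3] 119 136 [2, 4] [(118, 136, [2, 4, 4]), (119, 136, [2,
  4])]) .no (.br 698 .no (.red [.f 570 1 3] 88 136 [2, 2, 2] [(88, 136, [2, 2, 2])]) .no (.use
  261) (.red [.f 698 5 1, .f 699 1 3] 104 136 [2, 2] [(104, 136, [2, 2])]) (.br 939 .no (.br 689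
  .no (.use 262) .no (.br 947 .no (.use 265) .no .no .no .no) (.red [.f 689 5 3, .f 688 3 5, .t
  832 4 2] 104 136 [2, 2] [(104, 136, [2, 2])]) .no) (.hor [.f 939 3 1, .f 946 1 5] [(134, 118,
  [1])]) (.hor [.f 930 3 5] []) .no .no)) (.hor [.t 1074 2 4, .f 937 3 5] [(134, 119, [1, 4])])
  .no) .no .no) (.hor [.f 706 3 1, .f 705 1 5] [(105, 104, [3])]) (.red [.t 706 4 1] 104 136 [2,
  2] [(104, 136, [2, 2])]) .no .no)) (.hor [.f 834 3 5] []) (.use 268) .no .no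

def c21t278 : Tr4 :=
  .br 827 .no (.hor [.f 698 1 5] []) .no (.con 136 [2, 2, 4]) .no .no

def c21t279 : Tr4 :=
  .br 842 .no .no (.hor [.f 842 3 1, .f 841 1 5] [(122, 136, [3, 3, 2])]) .no (.br 707 .no (.con
  136 [2, 2, 2, 3]) (.red [.f 834 5 3, .f 707 3 1, .f 699 1 3] 104 136 [2, 2] [(104, 136, [2, 2]),
  (105, 136, [2, 2, 3])]) .no .no .no) .no

def c21t280 : Tr4 :=
  .br 970 .no (.hor [.f 841 1 5] []) (.br 842 .no (.hor [.t 968 4 2, .f 706 1 3, .f 833 3 5]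
  [(105, 136, [2, 3, 2]), (121, 136, [2, 3])]) (.hor [.f 842 3 1, .f 841 1 5] [(122, 136, [2, 3,
  3])]) .no (.br 835 .no (.hor [.f 706 1 5] []) .no (.br 826 .no (.hor [.f 698 1 3, .f 826 3 5]
  [(104, 136, [2, 2])]) .no .no .no .no) .no .no) .no) .no .no .no

def c21t281 : Tr4 :=
  .br 827 .no (.hor [.f 698 1 5] []) .no (.con 136 [2, 2, 4]) .no .no

def c21t282 : Tr4 :=
  .br 826 .no (.use 281) .no (.use 227) (.red [.f 826 5 3, .f 826 3 1, .f 825 1 5, .t 1073 3 2, .f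
  953 1 3, .t 961 4 2] 136 136 [] [(135, 136, [4]), (136, 136, [])]) .no

def c21t283 : Tr4 :=
  .br 834 .no (.br 817 .no (.use 223) .no (.red [.f 809 3 1, .f 817 1 3] 119 136 [2, 4] [(118,
  136, [2, 4, 4]), (119, 136, [2, 4])]) (.use 280) (.red [.t 952 4 2] 119 136 [2, 4] [(119, 136,
  [2, 4])])) (.hor [.t 968 4 2, .f 833 3 5] [(121, 136, [2, 3])]) (.red [.f 826 3 1, .f 825 1 5,
  .t 1073 3 2, .f 953 1 3, .t 961 4 2] 136 136 [] [(135, 136, [4]), (136, 136, [])]) (.use 282)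
  .no

def c21t284 : Tr4 :=
  .br 848 .no (.br 714 .no (.con 136 [2, 3, 2, 3, 2]) (.hor [.f 714 3 5] []) .no .no (.con 136 [2,
  3, 2, 3, 2])) (.red [.f 848 3 1, .t 976 2 4, .f 841 1 5] 122 136 [2, 3, 3] [(122, 136, [2, 3,
  3]), (123, 136, [2, 3, 3, 3])]) .no (.red [.f 840 5 3, .f 841 3 1] 122 136 [2, 3, 3] [(122, 136,
  [2, 3, 3])]) .no

def c21t285 : Tr4 :=
  .br 849 .no (.hor [.f 720 1 5] []) (.con 136 [2, 3, 2, 3, 3]) .no (.con 136 [2, 3, 2, 3, 3]) .no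

def c21t286 : Tr4 :=
  .br 833 .no (.hor [.f 705 1 5] []) (.br 832 .no (.con 136 [2, 2, 3]) (.hor [.f 832 3 5] []) .no
  .no .no) .no .no (.br 841 .no (.br 840 .no (.hor [.f 712 1 5] []) (.con 136 [2, 2, 3, 3]) .no
  .no .no) (.red [.f 841 3 1, .f 841 1 5] 122 136 [2, 3, 3] [(122, 136, [2, 3, 3])]) .no .no (.br
  707 .no (.br 976 .no (.red [.f 832 5 3, .f 832 3 5, .t 976 2 4, .f 841 1 5] 122 136 [2, 3, 3]
  [(122, 136, [2, 3, 3])]) (.br 705 .no (.br 715 .no (.red [.f 579 1 3] 89 136 [2, 2, 2, 3] [(89,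
  136, [2, 2, 2, 3])]) (.br 704 .no (.hor [.f 576 1 5] []) (.con 136 [2, 2, 2, 3]) .no .no .no)
  .no .no (.red [.f 832 5 3, .t 834 2 3] 105 136 [2, 2, 3] [(105, 136, [2, 2, 3])])) (.red [.f 832
  5 3, .f 705 3 1] 105 136 [2, 2, 3] [(105, 136, [2, 2, 3])]) (.br 715 .no (.red [.f 579 1 3] 89
  136 [2, 2, 2, 3] [(89, 136, [2, 2, 2, 3])]) (.use 284) .no .no (.red [.f 832 5 3, .t 834 2 3]
  105 136 [2, 2, 3] [(105, 136, [2, 2, 3])])) .no (.br 715 .no (.red [.f 579 1 3] 89 136 [2, 2, 2,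
  3] [(89, 136, [2, 2, 2, 3])]) (.use 284) .no .no (.red [.f 832 5 3, .t 834 2 3] 105 136 [2, 2,
  3] [(105, 136, [2, 2, 3])]))) .no .no .no) (.red [.f 707 3 1, .f 706 1 5] 105 136 [2, 2, 3]
  [(105, 136, [2, 2, 3])]) (.br 705 .no (.br 704 .no (.hor [.f 576 1 5] []) (.con 136 [2, 2, 2,
  3]) .no .no .no) (.red [.f 832 5 3, .f 705 3 1] 105 136 [2, 2, 3] [(105, 136, [2, 2, 3])]) (.con
  136 [2, 2, 2]) .no (.br 976 .no (.red [.f 832 5 3, .f 832 3 5, .t 976 2 4, .f 841 1 5] 122 136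
  [2, 3, 3] [(122, 136, [2, 3, 3])]) (.br 848 .no (.br 714 .no (.br 713 .no (.hor [.f 585 1 5] [])
  (.con 136 [2, 2, 3, 3, 2]) .no .no (.red [.f 712 5 1, .f 704 5 1, .f 704 1 3] 105 136 [2, 2, 3]
  [(105, 136, [2, 2, 3])])) (.br 978 (.br 851 (.con 136 [2, 3, 3, 3]) (.red [.t 706 1 4, .f 835 3
  1, .f 842 1 5, .t 722 4 1] 106 136 [2, 2, 3, 3] [(104, 88, [1]), (106, 136, [2, 2, 3, 3]), (121,
  105, [1])]) (.use 285) .no .no (.red [.f 835 3 1, .f 842 1 5, .f 842 5 3, .f 714 3 1] 106 136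
  [2, 2, 3, 3] [(106, 136, [2, 2, 3, 3]), (121, 105, [1])])) (.red [.f 842 1 3, .f 714 3 1] 106
  136 [2, 2, 3, 3] [(106, 136, [2, 2, 3, 3]), (122, 136, [2, 3, 3])]) (.br 850 .no .no (.red [.f
  832 5 3, .f 850 3 1] 123 136 [2, 3, 3, 3] [(123, 136, [2, 3, 3, 3])]) .no (.red [.f 835 3 1, .f
  842 1 5, .f 842 5 3, .f 714 3 1] 106 136 [2, 2, 3, 3] [(106, 136, [2, 2, 3, 3]), (121, 105,
  [1])]) (.red [.t 969 3 2, .f 714 3 1] 106 136 [2, 2, 3, 3] [(106, 136, [2, 2, 3, 3]), (122, 136,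
  [2, 3, 3])])) .no (.br 851 .no (.red [.t 706 1 4, .f 835 3 1, .f 842 1 5, .t 722 4 1] 106 136
  [2, 2, 3, 3] [(104, 88, [1]), (106, 136, [2, 2, 3, 3]), (121, 105, [1])]) (.use 285) .no .no
  (.red [.f 835 3 1, .f 850 5 1, .f 842 1 3] 122 136 [2, 3, 3] [(121, 105, [1]), (122, 136, [2, 3,
  3])])) .no) .no (.red [.f 832 5 3, .t 834 2 3] 105 136 [2, 2, 3] [(105, 136, [2, 2, 3])]) (.red
  [.f 704 5 1, .f 704 1 5, .f 832 5 3, .t 833 3 2] 105 136 [2, 2, 3] [(105, 136, [2, 2, 3])]))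
  (.red [.f 848 3 1, .t 976 2 4, .f 841 1 5] 122 136 [2, 3, 3] [(122, 136, [2, 3, 3]), (123, 136,
  [2, 3, 3, 3])]) .no (.red [.f 840 5 3, .f 841 3 1] 122 136 [2, 3, 3] [(122, 136, [2, 3, 3])])
  .no) .no .no .no)) .no .no))

def c21t287 : Tr4 :=
  .br 826 .no (.hor [.f 698 1 3, .f 826 3 5] [(104, 103, [3])]) .no .no .no .no

def c21t288 : Tr4 :=
  .br 1096 (.hor [.f 1096 1 5] []) .no (.br 835 .no (.hor [.f 706 1 5] []) (.br 826 .no (.use 229)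
  .no .no (.br 970 .no (.use 286) (.hor [.f 969 3 5] []) .no .no .no) .no) (.use 287) .no .no) .no
  .no .no

def c21t289 : Tr4 :=
  .br 826 .no (.hor [.f 698 1 5] []) .no .no .no .no

def c21t290 : Tr4 :=
  .br 970 .no .no (.hor [.f 969 3 5] []) .no .no .no

def c21t291 : Tr4 :=
  .br 707 .no (.hor [.f 569 1 3, .f 696 3 5] [(88, 89, [4])]) (.hor [.f 569 1 3, .f 696 3 5] [(88,
  105, [2, 4])]) (.hor [.f 698 1 3, .f 569 1 3, .f 696 3 1, .f 569 3 1, .f 698 3 5] []) .no .no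

def c21t292 : Tr4 :=
  .br 690 .no (.br 688 (.hor [.f 688 1 5] []) (.con 136 [2, 4, 2, 4]) .no (.con 136 [2, 4, 2, 4])
  .no .no) .no (.red [.f 682 3 1, .f 689 1 5] 102 136 [2, 4, 2, 4] [(102, 136, [2, 4, 2, 4])])
  (.br 688 (.hor [.f 688 1 5] []) (.con 136 [2, 4, 2, 4]) .no (.con 136 [2, 4, 2, 4]) .no .no) .no

def c21t293 : Tr4 :=
  .br 696 .no (.use 252) (.br 705 .no (.br 697 .no (.use 291) .no .no .no .no) (.red [.f 696 3 1,
  .f 696 1 3, .f 705 3 1, .f 705 1 5] 105 136 [2, 2, 3] [(105, 136, [2, 2, 3])]) (.hor [.f 696 3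
  5] []) .no .no) (.use 253) (.br 818 .no (.hor [.f 689 1 5] []) .no (.use 292) (.br 688 (.hor [.f
  688 1 5] []) (.con 136 [2, 2, 4, 4]) .no (.con 136 [2, 2, 4, 4]) .no .no) .no) .no

def c21t294 : Tr4 :=
  .br 699 .no (.con 136 [2, 2, 2, 4]) (.con 136 [2, 2, 2, 4]) (.br 689 .no (.red [.f 561 1 3] 87
  136 [2, 2, 2, 4] [(87, 136, [2, 2, 2, 4])]) .no (.use 266) (.red [.f 689 5 1, .f 690 1 3] 103
  136 [2, 2, 4] [(103, 136, [2, 2, 4])]) .no) .no .no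

def c21t295 : Tr4 :=
  .br 714 .no (.con 136 [2, 2, 3, 2, 3]) (.hor [.f 713 3 5] []) .no .no .no

def c21t296 : Tr4 :=
  .br 697 .no (.br 696 .no (.hor [.f 568 1 5] []) (.use 291) (.use 294) .no .no) .no (.red [.f 698
  1 3, .f 698 3 1, .t 697 4 1] 103 136 [2, 2, 4] [(103, 136, [2, 2, 4])]) .no (.br 704 .no (.hor
  [.f 576 1 5] []) (.br 707 .no (.con 136 [2, 2, 2, 3]) (.br 713 .no (.red [.f 577 1 3] 89 136 [2,
  2, 2, 3] [(89, 136, [2, 2, 2, 3])]) (.use 295) .no (.red [.f 698 1 3, .f 698 3 1, .t 833 3 2]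
  105 136 [2, 2, 3] [(105, 136, [2, 2, 3])]) .no) (.con 136 [2, 2, 2, 3]) .no .no) .no .no .no)

def c21t297 : Tr4 :=
  .br 704 .no (.red [.f 568 1 3] 88 136 [2, 2, 2] [(88, 136, [2, 2, 2])]) (.br 707 .no (.con 136
  [2, 2, 2, 3]) (.br 576 .no (.br 577 .no (.hor [.f 448 1 5] []) (.br 578 .no (.con 136 [2, 2, 2,
  3, 2]) (.hor [.f 577 3 5] []) (.con 136 [2, 2, 2, 3, 2]) (.con 136 [2, 2, 2, 2, 3]) .no) (.red
  [.f 569 3 1, .f 568 1 5] 88 136 [2, 2, 2] [(88, 136, [2, 2, 2])]) (.br 713 .no (.red [.f 698 1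
  3, .f 697 3 5, .f 577 5 1, .f 577 1 3] 89 136 [2, 2, 2, 3] [(89, 136, [2, 2, 2, 3]), (104, 88,
  [1])]) (.use 295) .no (.red [.f 698 1 3, .f 698 3 1, .t 833 3 2] 105 136 [2, 2, 3] [(105, 136,
  [2, 2, 3])]) .no) .no) (.red [.f 576 3 1] 89 136 [2, 2, 2, 3] [(89, 136, [2, 2, 2, 3])]) .no
  (.red [.t 696 2 3] 88 136 [2, 2, 2] [(88, 136, [2, 2, 2])]) .no) (.con 136 [2, 2, 2]) .no .no)
  .no .no .no

def c21t298 : Tr4 :=
  .br 568 .no (.hor [.f 440 1 5] []) (.br 570 .no (.hor [.f 441 1 5] []) (.con 136 [2, 2, 2, 2])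
  (.br 577 .no (.red [.f 441 1 3] 72 136 [2, 2, 2, 2] [(72, 136, [2, 2, 2, 2])]) (.br 578 .no
  (.con 136 [2, 2, 2, 3, 2]) (.hor [.f 577 3 5] []) .no (.con 136 [2, 2, 2, 2]) .no) .no (.red [.f
  698 1 3, .f 697 3 5, .t 561 1 3, .f 577 5 1, .f 570 1 3] 88 136 [2, 2, 2] [(87, 136, [2, 2, 2,
  4]), (88, 136, [2, 2, 2]), (104, 88, [1])]) .no) (.con 136 [2, 2, 2, 2]) .no) (.red [.f 560 3 1,
  .f 560 1 5] 87 136 [2, 2, 2, 4] [(87, 136, [2, 2, 2, 4])]) .no .no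

def c21t299 : Tr4 :=
  .br 690 .no (.hor [.f 561 1 5] []) .no (.br 809 .no (.red [.t 681 1 3, .f 690 1 3, .f 690 3 5]
  103 136 [2, 2, 4] [(102, 136, [2, 2, 4, 4]), (103, 136, [2, 2, 4])]) .no (.br 681 .no (.red [.f
  553 1 3, .f 681 3 5, .f 689 5 1, .f 690 1 3] 103 136 [2, 2, 4] [(86, 87, [4]), (103, 136, [2, 2,
  4])]) .no (.red [.f 673 3 1, .t 681 1 3] 102 136 [2, 2, 4, 4] [(101, 136, [2, 2, 4, 4, 4]),
  (102, 136, [2, 2, 4, 4])]) .no (.br 560 .no (.red [.f 432 1 3] 71 136 [2, 2, 2, 4, 2] [(71, 136,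
  [2, 2, 2, 4, 2])]) .no (.red [.t 560 4 1, .f 681 3 5, .f 689 5 1, .f 690 1 3] 103 136 [2, 2, 4]
  [(86, 87, [4]), (103, 136, [2, 2, 4])]) .no .no)) (.red [.f 809 5 3, .f 682 3 1, .f 690 1 3] 103
  136 [2, 2, 4] [(102, 136, [2, 2, 4, 4]), (103, 136, [2, 2, 4])]) .no) .no .no

def c21l9 : List Tr4 :=
  [c21t272, c21t273, c21t274, c21t275, c21t276, c21t277, c21t278, c21t279, c21t280, c21t281,
  c21t282, c21t283, c21t284, c21t285, c21t286, c21t287, c21t288, c21t289, c21t290, c21t291,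
  c21t292, c21t293, c21t294, c21t295, c21t296, c21t297, c21t298, c21t299]

theorem c21k9 : chkLF ⟨4, 0, 0, true, -8⟩ false 1 c21N 272 c21l9 = true := by decide +kernel

def c21t300 : Tr4 :=
  .br 690 .no (.hor [.f 561 1 5] []) .no (.br 809 .no (.red [.t 681 1 3, .f 690 1 3, .f 690 3 5]
  103 136 [2, 2, 4] [(102, 136, [2, 2, 4, 4]), (103, 136, [2, 2, 4])]) .no (.br 810 .no .no .no
  (.hor [.f 801 3 5] []) (.br 577 .no (.hor [.f 449 1 5] []) (.con 136 [2, 2, 2, 3, 2]) .no .no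
  .no) .no) (.red [.f 809 5 3, .f 682 3 1, .f 690 1 3] 103 136 [2, 2, 4] [(102, 136, [2, 2, 4,
  4]), (103, 136, [2, 2, 4])]) .no) .no .no

def c21t301 : Tr4 :=
  .br 713 .no (.red [.f 698 1 3, .f 697 3 5, .f 569 5 1, .t 585 1 4, .f 570 1 3] 89 136 [2, 2, 2,
  3] [(88, 136, [2, 2, 2]), (89, 136, [2, 2, 2, 3]), (104, 88, [1])]) (.br 704 .no .no (.use 295)
  .no .no .no) .no (.red [.f 698 1 3, .f 698 3 1, .t 833 3 2] 105 136 [2, 2, 3] [(105, 136, [2, 2,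
  3])]) (.con 136 [2, 2, 2, 3, 1])

def c21t302 : Tr4 :=
  .br 568 .no (.br 808 (.con 136 [2, 2, 4, 4, 1, 3]) (.con 136 [2, 2, 4, 4, 1, 4]) (.use 299)
  (.con 136 [2, 2, 4, 4, 1, 4]) (.con 136 [2, 2, 4, 4, 1, 4]) .no) (.br 707 .no (.con 136 [2, 2,
  2, 2]) (.br 578 .no (.br 808 (.con 136 [2, 2, 4, 4, 1, 3]) (.con 136 [2, 2, 4, 4, 1, 4]) (.use
  300) (.con 136 [2, 2, 4, 4, 1, 4]) (.con 136 [2, 2, 4, 4, 1, 4]) .no) (.use 301) .no (.con 136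
  [2, 2, 2, 2]) (.red [.f 569 5 3, .f 569 3 1, .f 561 1 3] 88 136 [2, 2, 2] [(87, 136, [2, 2, 2,
  4]), (88, 136, [2, 2, 2])])) .no .no .no) (.red [.f 560 3 1, .f 560 1 5] 87 136 [2, 2, 2, 4]
  [(87, 136, [2, 2, 2, 4])]) .no .no

def c21t303 : Tr4 :=
  .br 947 .no (.use 302) .no .no .no .no

def c21t304 : Tr4 :=
  .br 819 .no .no .no (.red [.f 811 3 1] 118 136 [2, 4, 4] [(118, 136, [2, 4, 4])]) .no .no

def c21t305 : Tr4 :=
  .br 697 .no (.br 696 .no (.hor [.f 568 1 5] []) .no (.use 294) .no .no) .no (.red [.f 698 1 3,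
  .f 698 3 1, .t 697 4 1] 103 136 [2, 2, 4] [(103, 136, [2, 2, 4])]) .no (.hor [.f 696 5 3, .f 696
  3 1, .f 698 1 3, .f 697 3 5, .f 826 3 5] [])

def c21t306 : Tr4 :=
  .br 705 .no (.use 296) (.red [.f 698 1 3, .f 705 3 1] 105 136 [2, 2, 3] [(104, 103, [3]), (105,
  136, [2, 2, 3])]) (.br 696 .no (.use 297) (.hor [.f 696 3 5] []) (.br 699 .no (.con 136 [2, 2,
  2, 4]) (.con 136 [2, 2, 2]) (.br 689 .no (.br 1066 (.br 569 .no (.use 298) (.red [.f 569 3 1, .f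
  561 1 3] 88 136 [2, 2, 2] [(87, 136, [2, 2, 2, 4]), (88, 136, [2, 2, 2])]) .no (.br 1067 (.hor
  [.f 1066 1 5] []) (.br 568 .no (.br 808 (.con 136 [2, 2, 4, 4, 1, 1, 3, 2]) (.con 136 [2, 2, 4,
  4, 1, 1, 3, 2]) (.use 299) (.con 136 [2, 2, 4, 4, 1, 1, 3, 2]) (.con 136 [2, 2, 4, 4, 1, 1, 3,
  2]) .no) (.br 707 .no (.con 136 [2, 2, 2, 2]) (.br 578 .no (.br 808 (.con 136 [2, 2, 4, 4, 1, 1,
  3, 2]) (.con 136 [2, 2, 4, 4, 1, 1, 3, 2]) (.use 300) (.con 136 [2, 2, 4, 4, 1, 1, 3, 2]) (.con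
  136 [2, 2, 4, 4, 1, 1, 3, 2]) .no) (.use 301) .no (.con 136 [2, 2, 2, 2]) (.red [.f 569 5 3, .f
  569 3 1, .f 561 1 3] 88 136 [2, 2, 2] [(87, 136, [2, 2, 2, 4]), (88, 136, [2, 2, 2])])) .no .no
  .no) (.red [.f 560 3 1, .f 560 1 5] 87 136 [2, 2, 2, 4] [(87, 136, [2, 2, 2, 4])]) .no .no) .no
  (.br 939 .no (.use 303) (.use 304) (.hor [.f 930 3 5] []) .no .no) .no .no) (.red [.t 688 3 2]
  87 136 [2, 2, 2, 4] [(87, 136, [2, 2, 2, 4])])) .no .no (.br 939 (.hor [.f 930 3 1, .f 938 1 3,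
  .f 937 3 5] [(133, 119, [1, 4, 4]), (134, 119, [1, 4])]) (.br 569 .no (.use 298) (.red [.f 569 3
  1, .f 561 1 3] 88 136 [2, 2, 2] [(87, 136, [2, 2, 2, 4]), (88, 136, [2, 2, 2])]) .no (.use 303)
  (.red [.t 688 3 2] 87 136 [2, 2, 2, 4] [(87, 136, [2, 2, 2, 4])])) (.use 304) (.hor [.f 930 3 5]
  []) .no .no) (.br 569 .no (.use 298) (.red [.f 569 3 1, .f 561 1 3] 88 136 [2, 2, 2] [(87, 136,
  [2, 2, 2, 4]), (88, 136, [2, 2, 2])]) .no (.br 939 .no (.use 303) (.use 304) (.hor [.f 930 3 5]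
  []) .no .no) (.red [.t 688 3 2] 87 136 [2, 2, 2, 4] [(87, 136, [2, 2, 2, 4])])) (.red [.t 945 4
  1, .f 817 5 1, .f 817 1 3] 119 136 [2, 4] [(119, 136, [2, 4]), (134, 118, [1])])) .no (.use 266)
  (.red [.f 689 5 1, .f 690 1 3] 103 136 [2, 2, 4] [(103, 136, [2, 2, 4])]) .no) .no .no) .no .no)
  .no (.use 305)

def c21t307 : Tr4 :=
  .br 1075 (.br 938 (.hor [.f 938 1 3, .f 937 3 5] [(134, 119, [1, 4])]) (.red [.t 937 3 2, .f 817
  1 3] 119 136 [2, 4] [(118, 136, [2, 4, 4]), (119, 136, [2, 4])]) .no (.use 306) (.br 705 .no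
  (.use 296) (.red [.f 698 1 3, .f 705 3 1] 105 136 [2, 2, 3] [(104, 103, [3]), (105, 136, [2, 2,
  3])]) (.br 696 .no (.use 297) (.hor [.f 696 3 5] []) (.br 699 .no (.con 136 [2, 2, 2, 4]) (.con
  136 [2, 2, 2]) (.br 689 .no (.br 810 .no (.br 808 (.con 136 [2, 2, 4, 4, 1, 1, 3, 2]) (.con 136
  [2, 2, 4, 4, 1, 1, 3, 2]) (.br 947 .no (.use 207) .no .no .no .no) (.con 136 [2, 2, 4, 4, 1, 1,
  3, 2]) (.con 136 [2, 2, 4, 4, 1, 1, 3, 2]) .no) .no (.br 808 (.con 136 [2, 2, 4, 4, 1, 1, 3, 2])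
  (.con 136 [2, 2, 4, 4, 1, 1, 3, 2]) (.br 690 .no (.hor [.f 561 1 5] []) .no (.br 809 .no (.red
  [.t 681 1 3, .f 690 1 3, .f 690 3 5] 103 136 [2, 2, 4] [(102, 136, [2, 2, 4, 4]), (103, 136, [2,
  2, 4])]) .no (.hor [.f 801 3 5] []) .no .no) .no .no) (.con 136 [2, 2, 4, 4, 1, 1, 3, 2]) (.con
  136 [2, 2, 4, 4, 1, 1, 3, 2]) .no) (.red [.f 810 5 1, .t 937 3 2, .f 817 1 3] 119 136 [2, 4]
  [(118, 136, [2, 4, 4]), (119, 136, [2, 4])]) (.red [.f 809 5 3, .f 809 3 1, .f 817 1 3] 119 136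
  [2, 4] [(118, 136, [2, 4, 4]), (119, 136, [2, 4])])) .no (.use 266) (.red [.f 689 5 1, .f 690 1
  3] 103 136 [2, 2, 4] [(103, 136, [2, 2, 4])]) .no) .no .no) .no .no) .no (.use 305)) .no) (.hor
  [.f 946 1 5] []) .no (.br 705 .no (.use 296) (.red [.f 698 1 3, .f 705 3 1] 105 136 [2, 2, 3]
  [(104, 103, [3]), (105, 136, [2, 2, 3])]) (.br 938 (.hor [.f 938 1 3, .f 937 3 5] [(134, 119,
  [1, 4])]) (.red [.t 937 3 2, .f 817 1 3] 119 136 [2, 4] [(118, 136, [2, 4, 4]), (119, 136, [2,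
  4])]) .no (.br 696 .no (.use 297) (.hor [.f 696 3 5] []) (.br 699 .no (.con 136 [2, 2, 2, 4])
  (.con 136 [2, 2, 2]) (.br 939 .no (.br 810 .no (.br 947 .no (.br 689 .no (.br 569 .no (.use 298)
  (.red [.f 569 3 1, .f 561 1 3] 88 136 [2, 2, 2] [(87, 136, [2, 2, 2, 4]), (88, 136, [2, 2, 2])])
  .no (.use 302) (.red [.t 688 3 2] 87 136 [2, 2, 2, 4] [(87, 136, [2, 2, 2, 4])])) .no (.con 136
  [2, 2, 4, 4, 2]) (.red [.f 689 5 1, .f 690 1 3] 103 136 [2, 2, 4] [(103, 136, [2, 2, 4])]) .no)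
  .no .no .no .no) .no (.hor [.f 802 3 1, .f 810 1 5] [(117, 136, [2, 4, 4, 4])]) .no (.red [.f
  809 5 3, .f 809 3 1, .f 817 1 3] 119 136 [2, 4] [(118, 136, [2, 4, 4]), (119, 136, [2, 4])]))
  (.use 304) (.hor [.f 930 3 5] []) .no .no) .no .no) .no .no) (.hor [.t 1074 2 4, .f 937 3 5]
  [(134, 119, [1, 4])]) .no) .no (.use 305)) .no .no

def c21t308 : Tr4 :=
  .br 835 .no (.hor [.f 706 1 5] []) (.con 136 [2, 2, 3]) (.br 826 .no (.br 817 .no (.use 293) .no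
  (.red [.f 809 3 1, .f 817 1 3] 119 136 [2, 4] [(118, 136, [2, 4, 4]), (119, 136, [2, 4])]) (.br
  970 .no (.use 307) (.hor [.f 969 3 5] []) .no .no .no) (.red [.t 952 4 2] 119 136 [2, 4] [(119,
  136, [2, 4])])) .no (.br 817 .no (.use 251) .no (.red [.f 809 3 1, .f 817 1 3] 119 136 [2, 4]
  [(118, 136, [2, 4, 4]), (119, 136, [2, 4])]) .no (.red [.t 952 4 2, .f 817 3 5] 119 136 [2, 4]
  [(119, 136, [2, 4])])) .no .no) .no .no

def c21t309 : Tr4 :=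
  .br 826 .no (.use 278) .no (.br 817 .no (.br 827 .no (.br 1075 (.br 819 (.dom 119 136 [2, 4])
  (.use 168) .no (.br 947 .no .no .no (.red [.f 811 3 1] 118 136 [2, 4, 4] [(118, 136, [2, 4,
  4])]) .no .no) .no .no) (.hor [.f 946 1 5] []) .no (.br 947 .no (.dom 119 136 [2, 4]) .no (.hor
  [.f 939 3 1, .f 946 1 5] [(134, 118, [1])]) .no .no) .no .no) .no (.hor [.f 818 3 5] []) .no
  .no) .no (.red [.f 809 3 1, .f 817 1 3] 119 136 [2, 4] [(118, 136, [2, 4, 4]), (119, 136, [2,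
  4])]) .no (.red [.t 952 4 2, .f 817 3 5] 119 136 [2, 4] [(119, 136, [2, 4])])) (.red [.f 826 5
  3, .f 826 3 1, .f 825 1 5, .t 1073 3 2, .f 953 1 3, .t 961 4 2] 136 136 [] [(135, 136, [4]),
  (136, 136, [])]) .no

def c21t310 : Tr4 :=
  .br 969 (.red [.f 961 1 3, .f 1089 3 5, .t 1209 3 2, .f 954 3 1, .t 961 3 1] 136 136 [] [(136,
  136, []), (152, 136, [1])]) (.br 833 .no (.br 832 .no (.hor [.f 704 1 5] []) (.hor [.f 832 3 1,
  .f 840 1 5] [(121, 136, [2, 3])]) (.br 834 .no (.hor [.f 705 1 5] []) (.br 817 .no (.use 254)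
  .no (.red [.f 809 3 1, .f 817 1 3] 119 136 [2, 4] [(118, 136, [2, 4, 4]), (119, 136, [2, 4])])
  (.br 696 .no (.use 275) (.hor [.f 696 3 1, .f 704 1 5] [(104, 136, [2, 2])]) (.use 277) (.hor
  [.t 832 4 2, .t 968 4 2, .f 833 3 5] [(104, 136, [2, 2]), (121, 136, [2, 3])]) .no) (.red [.t
  952 4 2] 119 136 [2, 4] [(119, 136, [2, 4])])) (.red [.f 826 3 1, .f 825 1 5, .t 1073 3 2, .f
  953 1 3, .t 961 4 2] 136 136 [] [(135, 136, [4]), (136, 136, [])]) (.br 826 .no (.use 278) .no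
  (.br 817 .no (.br 827 .no (.br 970 .no (.hor [.f 841 1 5] []) (.br 696 .no (.br 704 .no (.red
  [.f 568 1 3, .f 696 3 1, .f 704 1 5] 104 136 [2, 2] [(88, 136, [2, 2, 2]), (104, 136, [2, 2])])
  (.br 698 .no (.br 706 .no (.red [.f 570 1 3] 88 136 [2, 2, 2] [(88, 136, [2, 2, 2])]) (.use 279)
  .no (.red [.f 706 5 1, .f 699 1 3] 104 136 [2, 2] [(104, 136, [2, 2])]) .no) (.red [.t 698 3 1,
  .f 705 1 5] 104 136 [2, 2] [(104, 136, [2, 2])]) (.use 255) .no (.br 706 .no (.br 707 .no (.hor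
  [.f 578 1 5] []) (.br 842 .no (.red [.t 714 1 4, .f 699 1 3] 104 136 [2, 2] [(104, 136, [2, 2]),
  (105, 136, [2, 2, 3])]) (.hor [.f 842 3 1, .f 841 1 5] [(122, 104, [3, 1, 3])]) .no (.red [.f
  834 5 3, .f 707 3 1, .f 699 1 3] 104 136 [2, 2] [(104, 136, [2, 2]), (105, 136, [2, 2, 3])])
  .no) .no .no .no) (.use 279) .no (.red [.f 706 5 1, .f 699 1 3] 104 136 [2, 2] [(104, 136, [2,
  2])]) .no)) .no .no .no) (.red [.f 696 3 1, .f 704 1 5] 104 136 [2, 2] [(104, 136, [2, 2])])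
  (.br 947 (.hor [.f 946 1 5] []) (.dom 119 136 [2, 4]) .no (.br 819 .no (.con 136 [2, 2, 4, 4])
  .no (.red [.f 811 3 1] 118 136 [2, 4, 4] [(118, 136, [2, 4, 4])]) .no .no) .no .no) (.red [.t
  832 4 2] 104 136 [2, 2] [(104, 136, [2, 2])]) .no) .no .no .no) .no (.hor [.f 818 3 5] []) .no
  .no) .no (.red [.f 809 3 1, .f 817 1 3] 119 136 [2, 4] [(118, 136, [2, 4, 4]), (119, 136, [2,
  4])]) .no (.red [.t 952 4 2, .f 817 3 5] 119 136 [2, 4] [(119, 136, [2, 4])])) (.red [.f 826 5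
  3, .f 826 3 1, .f 825 1 5, .t 1073 3 2, .f 953 1 3, .t 961 4 2] 136 136 [] [(135, 136, [4]),
  (136, 136, [])]) .no) .no) .no .no) .no .no (.red [.t 953 2 3, .t 1073 3 2, .f 953 1 3, .f 825 3
  1] 136 136 [] [(135, 136, [4]), (136, 136, [])]) (.br 824 .no (.use 283) .no (.red [.f 816 3 1,
  .f 824 1 5] 119 136 [2, 4] [(119, 136, [2, 4])]) .no .no)) (.br 1097 (.br 824 .no (.br 834 .no
  (.br 817 .no (.use 223) .no (.red [.f 809 3 1, .f 817 1 3] 119 136 [2, 4] [(118, 136, [2, 4,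
  4]), (119, 136, [2, 4])]) (.use 288) (.red [.t 952 4 2] 119 136 [2, 4] [(119, 136, [2, 4])]))
  (.use 290) (.red [.f 826 3 1, .f 825 1 5, .t 1073 3 2, .f 953 1 3, .t 961 4 2] 136 136 [] [(135,
  136, [4]), (136, 136, [])]) (.use 282) (.red [.t 953 2 3, .t 1073 3 2, .f 953 1 3, .f 825 3 1]
  136 136 [] [(135, 136, [4]), (136, 136, [])])) (.br 834 .no (.br 833 .no (.hor [.f 705 1 5] [])
  (.use 308) .no .no .no) (.use 290) (.red [.f 826 3 1, .f 825 1 5, .t 1073 3 2, .f 953 1 3, .t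
  961 4 2] 136 136 [] [(135, 136, [4]), (136, 136, [])]) (.use 309) (.red [.t 953 2 3, .t 1073 3
  2, .f 953 1 3, .f 825 3 1] 136 136 [] [(135, 136, [4]), (136, 136, [])])) (.red [.f 816 3 1, .f
  824 1 5] 119 136 [2, 4] [(119, 136, [2, 4])]) .no .no) .no (.use 54) .no .no (.use 274)) .no
  (.use 69) .no

def c21t311 : Tr4 :=
  .br 1096 (.con 136 [3, 3, 1]) .no (.br 1217 (.hor [.f 1217 1 5] []) .no (.use 50) .no .no (.br
  1200 (.use 128) (.hor [.t 1072 1 3, .f 1081 1 5] [(151, 136, [4, 1])]) .no (.br 1226 (.hor [.f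
  1226 1 5] []) .no (.use 123) .no .no (.br 1345 (.use 125) .no (.red [.t 1345 3 2, .f 1090 3 1]
  153 136 [3, 1] [(153, 136, [3, 1]), (169, 136, [3, 1, 1])]) (.br 1344 (.br 1336 (.red [.f 1336 1
  3, .f 1208 5 3, .f 1208 3 1] 184 136 [1, 1, 1] [(168, 136, [1, 1]), (184, 136, [1, 1, 1])]) .no
  .no (.br 1201 (.hor [.t 1328 3 2, .f 1073 3 1, .f 1081 1 5] [(151, 136, [4, 1]), (167, 136, [4,
  1, 1])]) .no .no (.hor [.f 1192 3 5] []) (.red [.t 1081 4 1, .t 961 1 4, .f 946 1 3] 136 136 []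
  [(135, 136, [4]), (136, 136, []), (151, 135, [1])]) .no) .no .no) .no (.con 136 [3, 1, 1, 3])
  (.use 124) .no .no) .no (.use 120))) (.red [.f 1200 5 3, .f 1073 3 1, .f 1081 1 5, .t 961 1 4,
  .f 946 1 3] 136 136 [] [(135, 136, [4]), (136, 136, []), (151, 135, [1])]) .no)) .no .no .no

def c21t312 : Tr4 :=
  .br 1075 (.use 311) (.hor [.f 946 1 5] []) .no (.br 938 (.hor [.f 938 1 3, .f 937 3 5] [(134,
  119, [1, 4])]) (.red [.t 937 3 2, .f 817 1 3] 119 136 [2, 4] [(118, 136, [2, 4, 4]), (119, 136,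
  [2, 4])]) .no (.br 1096 (.con 136 [3, 3, 1]) .no (.br 1217 (.hor [.f 1217 1 5] []) .no (.use 50)
  .no .no (.br 1200 (.use 128) (.hor [.t 1072 1 3, .f 1081 1 5] [(151, 119, [1, 1])]) .no (.br
  1226 (.hor [.f 1226 1 5] []) .no (.use 123) .no .no (.br 1345 (.use 125) .no (.red [.t 1345 3 2,
  .f 1090 3 1] 153 136 [3, 1] [(153, 136, [3, 1]), (169, 136, [3, 1, 1])]) (.br 1066 (.br 1344
  (.br 1336 (.red [.f 1336 1 3, .f 1208 5 3, .f 1208 3 1] 184 136 [1, 1, 1] [(168, 136, [1, 1]),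
  (184, 136, [1, 1, 1])]) .no .no (.br 1201 (.br 1202 (.hor [.f 1201 1 5] []) .no .no .no (.hor
  [.t 1328 3 2, .f 1073 3 1, .f 1081 1 5] [(151, 119, [1, 1]), (167, 119, [1, 1, 1])]) .no) .no
  .no (.hor [.f 1192 3 5] []) (.red [.t 1081 4 1, .t 961 1 4, .f 946 1 3] 136 136 [] [(135, 136,
  [4]), (136, 136, []), (151, 135, [1])]) .no) .no .no) .no (.con 136 [3, 1, 1, 3]) (.use 124) .no
  .no) .no .no (.br 947 .no (.br 1072 .no .no .no (.hor [.f 930 3 1, .f 938 1 3, .f 937 3 5]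
  [(133, 119, [4, 1, 4]), (134, 119, [4, 1])]) .no .no) .no (.hor [.f 939 3 1, .f 946 1 5] [(134,
  118, [1])]) .no .no) .no (.hor [.t 945 4 1, .f 1066 3 5] [(134, 119, [1, 4])])) .no (.use 120)))
  (.red [.f 1200 5 3, .f 1073 3 1, .f 1081 1 5, .t 961 1 4, .f 946 1 3] 136 136 [] [(135, 136,
  [4]), (136, 136, []), (151, 135, [1])]) .no)) .no .no .no) (.hor [.t 1074 2 4, .f 937 3 5]
  [(134, 119, [1, 4])]) .no) .no .no

def c21t313 : Tr4 :=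
  .br 1217 (.hor [.f 1217 1 5] []) .no (.use 50) .no .no (.br 1072 (.hor [.t 1072 1 3, .f 1081 1
  5] [(151, 136, [4, 1])]) .no .no (.use 67) .no .no)

def c21t314 : Tr4 :=
  .br 833 .no (.hor [.f 704 1 5] []) .no .no .no .no

def c21t315 : Tr4 :=
  .br 706 .no (.br 698 .no (.red [.f 570 1 3] 88 136 [2, 2, 2] [(88, 136, [2, 2, 2])]) .no (.use
  255) (.red [.f 698 5 1, .f 699 1 3] 104 136 [2, 2] [(104, 136, [2, 2])]) (.br 704 .no (.red [.f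
  568 1 3] 88 136 [2, 2, 2] [(88, 136, [2, 2, 2])]) (.use 273) .no .no .no)) (.hor [.f 706 3 1, .f
  705 1 5] [(105, 104, [3])]) (.red [.t 706 4 1] 104 136 [2, 2] [(104, 136, [2, 2])]) .no .no

def c21l10 : List Tr4 :=
  [c21t300, c21t301, c21t302, c21t303, c21t304, c21t305, c21t306, c21t307, c21t308, c21t309,
  c21t310, c21t311, c21t312, c21t313, c21t314, c21t315]

theorem c21k10 : chkLF ⟨4, 0, 0, true, -8⟩ false 1 c21N 300 c21l10 = true := by decide +kernel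

def c21t316 : Tr4 :=
  .br 834 .no (.br 833 .no (.hor [.f 705 1 5] []) (.br 969 (.br 817 .no (.br 835 .no (.hor [.f 706
  1 5] []) (.con 136 [2, 2, 3]) (.br 826 .no (.use 293) .no (.use 251) .no .no) .no .no) .no (.red
  [.f 809 3 1, .f 817 1 3] 119 136 [2, 4] [(118, 136, [2, 4, 4]), (119, 136, [2, 4])]) (.use 312)
  (.red [.t 952 4 2] 119 136 [2, 4] [(119, 136, [2, 4])])) .no (.use 308) .no (.use 68) .no) .no
  .no .no) (.br 833 .no (.br 969 (.br 817 .no (.br 835 .no (.use 249) (.hor [.f 834 3 5] []) (.br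
  826 .no (.br 1075 (.use 311) (.hor [.f 946 1 5] []) .no (.br 696 .no (.use 252) (.hor [.f 696 3
  1, .f 704 1 5] [(104, 136, [2, 2])]) (.use 253) (.br 818 .no (.hor [.f 689 1 5] []) .no (.use
  292) (.br 947 .no .no .no (.hor [.f 939 3 1, .f 946 1 5] [(134, 118, [1])]) .no .no) .no) .no)
  .no .no) .no (.use 251) .no .no) .no .no) .no (.red [.f 809 3 1, .f 817 1 3] 119 136 [2, 4]
  [(118, 136, [2, 4, 4]), (119, 136, [2, 4])]) (.use 312) (.red [.t 952 4 2] 119 136 [2, 4] [(119,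
  136, [2, 4])])) (.br 817 .no (.use 254) .no (.red [.f 809 3 1, .f 817 1 3] 119 136 [2, 4] [(118,
  136, [2, 4, 4]), (119, 136, [2, 4])]) (.br 696 .no (.br 835 .no (.br 827 .no (.use 289) .no
  (.con 136 [2, 4, 2]) .no (.br 1097 (.use 315) .no (.use 54) .no .no (.use 313))) (.hor [.f 834 3
  5] []) (.use 260) .no .no) (.hor [.f 696 3 1, .f 704 1 5] [(104, 136, [2, 2])]) (.use 277) (.hor
  [.t 832 4 2, .t 968 4 2, .f 833 3 5] [(104, 136, [2, 2]), (121, 136, [2, 3])]) .no) (.red [.t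
  952 4 2] 119 136 [2, 4] [(119, 136, [2, 4])])) (.use 290) .no (.use 68) .no) (.hor [.f 833 3 5]
  []) .no .no .no) (.red [.f 826 3 1, .f 825 1 5, .t 1073 3 2, .f 953 1 3, .t 961 4 2] 136 136 []
  [(135, 136, [4]), (136, 136, [])]) (.use 309) (.red [.t 953 2 3, .t 1073 3 2, .f 953 1 3, .f 825
  3 1] 136 136 [] [(135, 136, [4]), (136, 136, [])])

def c21t317 : Tr4 :=
  .br 827 .no (.hor [.f 698 1 5] []) (.use 235) (.con 136 [2, 2, 4]) .no .no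

def c21t318 : Tr4 :=
  .br 817 .no (.use 234) .no (.red [.f 809 3 1, .f 817 1 3] 119 136 [2, 4] [(118, 136, [2, 4, 4]),
  (119, 136, [2, 4])]) (.br 832 .no (.br 833 .no (.hor [.f 704 1 5] []) .no .no (.br 826 .no (.use
  317) .no .no (.use 25) .no) .no) (.hor [.f 832 3 1, .f 840 1 5] [(121, 136, [2, 3])]) .no (.br
  826 .no (.use 317) (.br 835 .no (.br 827 .no (.red [.f 699 1 3] 104 136 [2, 2] [(104, 136, [2,
  2])]) .no (.con 136 [2, 2, 4]) .no .no) (.use 236) (.use 235) .no .no) .no (.use 25) .no) .no)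
  (.red [.t 952 4 2] 119 136 [2, 4] [(119, 136, [2, 4])])

def c21t319 : Tr4 :=
  .br 696 .no (.use 248) (.red [.f 696 3 1, .f 704 1 5] 104 136 [2, 2] [(104, 136, [2, 2])]) (.con
  136 [2, 4, 2, 4]) (.red [.t 832 4 2] 104 136 [2, 2] [(104, 136, [2, 2])]) .no

def c21t320 : Tr4 :=
  .br 819 .no (.use 168) .no (.use 81) .no .no

def c21t321 : Tr4 :=
  .br 835 .no (.con 136 [2, 2]) (.con 136 [2, 2]) (.hor [.f 826 3 5] []) .no .no

def c21t322 : Tr4 :=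
  .br 696 .no (.use 248) (.red [.f 696 3 1, .f 704 1 5] 104 136 [2, 2] [(104, 136, [2, 2])]) (.con
  136 [2, 4, 2, 4]) (.red [.t 832 4 2] 104 136 [2, 2] [(104, 136, [2, 2])]) .no

def c21t323 : Tr4 :=
  .br 826 .no (.con 136 [2, 2, 4]) .no (.hor [.f 818 3 5] []) .no .no

def c21t324 : Tr4 :=
  .br 827 .no (.red [.f 699 1 3] 104 136 [2, 2] [(104, 136, [2, 2])]) .no (.use 323) .no (.br 818
  .no (.hor [.f 689 1 5] []) .no (.use 91) (.br 698 .no (.br 699 .no (.hor [.f 570 1 5] []) .no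
  (.red [.f 818 5 3, .f 691 3 1, .f 699 1 3] 104 136 [2, 2] [(103, 136, [2, 2, 4]), (104, 136, [2,
  2])]) .no .no) (.red [.t 706 4 1] 104 136 [2, 2] [(104, 136, [2, 2])]) (.br 699 .no (.con 136
  [2, 2, 4, 2]) .no (.hor [.f 690 3 5] []) .no .no) (.red [.f 698 5 1, .f 699 1 3] 104 136 [2, 2]
  [(104, 136, [2, 2])]) (.use 94)) .no)

def c21t325 : Tr4 :=
  .br 704 .no (.hor [.f 576 1 5] []) (.con 136 [2, 2, 3, 2]) (.red [.f 696 3 1] 104 136 [2, 2]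
  [(104, 136, [2, 2])]) .no .no

def c21t326 : Tr4 :=
  .br 706 .no (.br 705 .no (.hor [.f 577 1 5] []) (.red [.t 713 4 1] 105 136 [2, 2, 3] [(105, 136,
  [2, 2, 3])]) (.con 136 [2, 2, 2]) .no (.con 136 [2, 2, 2])) .no (.hor [.f 698 3 5] []) .no (.red
  [.f 705 5 1, .f 706 1 3] 105 136 [2, 2, 3] [(105, 136, [2, 2, 3])])

def c21t327 : Tr4 :=
  .br 688 (.hor [.f 688 1 5] []) (.con 136 [2, 4, 2, 4]) .no (.con 136 [2, 4, 2, 4]) .no .no

def c21t328 : Tr4 :=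
  .br 938 .no (.br 819 .no (.use 88) .no (.use 82) .no .no) .no (.use 320) (.red [.f 938 5 3, .f
  937 3 5, .t 825 1 4, .f 944 3 5] 119 136 [2, 4] [(119, 136, [2, 4])]) .no

def c21t329 : Tr4 :=
  .br 696 .no (.use 248) (.br 688 (.hor [.f 688 1 5] []) (.con 136 [2, 4, 2, 4]) .no (.con 136 [2,
  4, 2, 4]) .no .no) (.con 136 [2, 4, 2, 4]) (.use 327) .no

def c21t330 : Tr4 :=
  .br 819 .no (.use 168) .no (.use 82) .no (.use 329)

def c21t331 : Tr4 :=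
  .br 833 .no (.br 834 .no (.hor [.f 705 1 5] []) (.br 835 .no (.br 827 .no (.red [.f 699 1 3] 104
  136 [2, 2] [(104, 136, [2, 2])]) .no (.use 246) .no (.br 818 .no (.hor [.f 689 1 5] []) .no
  (.use 91) (.use 319) .no)) (.hor [.f 834 3 5] []) (.br 696 .no (.br 818 .no (.hor [.f 689 1 5]
  []) (.br 697 .no (.hor [.f 568 1 5] []) .no .no (.br 938 .no (.red [.t 817 2 3, .t 937 3 2, .f
  817 1 3, .f 689 3 1] 119 136 [2, 4] [(118, 136, [2, 4, 4]), (119, 136, [2, 4])]) .no (.use 320)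
  (.red [.f 938 5 3, .f 937 3 5, .t 825 1 4, .f 944 3 5] 119 136 [2, 4] [(119, 136, [2, 4])]) .no)
  .no) (.use 247) (.use 248) .no) (.hor [.f 696 3 1, .f 704 1 5] [(104, 136, [2, 2])]) (.br 818
  .no (.hor [.f 689 1 5] []) (.br 819 .no (.con 136 [2, 2, 4, 4]) .no (.use 82) .no .no) (.con 136
  [2, 4, 2, 4]) (.con 136 [2, 4, 2, 4]) .no) (.hor [.t 832 4 2, .t 968 4 2, .f 833 3 5] [(104,
  136, [2, 2]), (121, 136, [2, 3])]) .no) .no .no) (.use 321) (.br 826 .no (.use 278) .no (.br 827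
  .no (.use 89) .no (.hor [.f 818 3 5] []) .no .no) (.br 818 .no (.hor [.f 689 1 5] []) .no (.use
  91) (.use 322) .no) .no) .no) .no .no (.br 842 .no (.br 835 .no (.use 324) (.br 707 .no (.br 706
  .no (.hor [.f 578 1 5] []) .no (.br 705 .no (.use 325) (.red [.t 713 4 1] 105 136 [2, 2, 3]
  [(105, 136, [2, 2, 3])]) (.hor [.f 697 3 5] []) .no (.br 697 .no (.br 696 .no (.hor [.f 568 1 5]
  []) .no (.br 819 .no (.use 168) (.use 323) (.use 82) .no (.con 136 [2, 4, 2, 4])) .no .no) .no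
  .no .no (.red [.f 696 5 3, .f 697 3 5, .f 705 5 1, .f 706 1 3] 105 136 [2, 2, 3] [(105, 136, [2,
  2, 3])]))) .no (.red [.f 705 5 1, .f 706 1 3] 105 136 [2, 2, 3] [(105, 136, [2, 2, 3])])) (.red
  [.f 707 3 1, .f 714 1 5] 105 136 [2, 2, 3] [(105, 136, [2, 2, 3])]) (.use 326) .no (.red [.t 842
  2 4] 105 136 [2, 2, 3] [(105, 136, [2, 2, 3])])) (.br 826 .no (.br 819 .no (.use 168) .no (.use
  82) .no (.br 696 .no (.use 248) (.br 705 .no (.br 697 .no (.br 707 .no (.hor [.f 569 1 3, .f 696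
  3 5] [(88, 103, [3, 2])]) (.hor [.f 569 1 3, .f 696 3 5] [(88, 103, [3, 2])]) (.hor [.f 699 3 1,
  .f 698 1 5, .f 569 1 3, .f 696 3 1, .f 569 3 1] []) .no (.hor [.f 569 1 3, .f 696 3 5] [(88,
  103, [3, 2])])) .no .no .no .no) (.hor [.t 713 4 1, .f 696 3 1, .f 704 1 5] [(104, 136, [2, 2]),
  (105, 136, [2, 2, 3])]) (.hor [.f 696 3 5] []) (.hor [.f 705 5 1, .f 696 3 1, .f 698 1 3, .f 704
  1 5, .f 826 3 5] []) .no) (.con 136 [2, 2, 4, 4]) (.use 327) .no)) .no (.use 328) .no .no) .no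
  .no) (.hor [.f 842 3 1, .f 841 1 5] [(122, 119, [3, 3, 3])]) .no (.br 835 .no (.use 324) .no
  (.use 330) .no .no) .no) .no

def c21t332 : Tr4 :=
  .br 696 .no (.use 259) (.hor [.f 696 3 1, .f 704 1 5] [(104, 136, [2, 2])]) (.use 267) (.hor [.t
  832 4 2, .t 968 4 2, .f 833 3 5] [(104, 136, [2, 2]), (121, 136, [2, 3])]) .no

def c21t333 : Tr4 :=
  .br 577 .no (.hor [.f 448 1 5] []) (.br 578 .no (.con 136 [2, 2, 2, 3, 2]) (.hor [.f 577 3 5]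
  []) .no (.con 136 [2, 2, 2, 2, 3]) .no) .no (.red [.f 569 5 3, .f 569 3 1, .f 561 1 3] 88 136
  [2, 2, 2] [(87, 136, [2, 2, 2, 4]), (88, 136, [2, 2, 2])]) .no

def c21t334 : Tr4 :=
  .br 690 .no (.hor [.f 561 1 5] []) .no (.red [.t 690 4 1] 102 136 [2, 4, 4, 2] [(102, 136, [2,
  4, 4, 2])]) .no .no

def c21t335 : Tr4 :=
  .br 571 .no (.con 136 [2, 2, 2, 2]) (.red [.t 697 3 1, .f 569 5 1, .t 570 1 3] 88 136 [2, 2, 2]
  [(88, 136, [2, 2, 2]), (104, 88, [1])]) (.con 136 [2, 2, 2, 2]) .no .no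

def c21t336 : Tr4 :=
  .br 819 .no (.con 136 [2, 4, 2, 4]) .no .no .no .no

def c21t337 : Tr4 :=
  .br 689 .no (.br 697 .no (.red [.f 561 1 3] 87 136 [2, 2, 4, 2] [(87, 136, [2, 2, 4, 2])]) (.br
  696 .no (.br 704 .no (.red [.f 568 1 3] 88 136 [2, 2, 2] [(88, 136, [2, 2, 2])]) (.br 810 .no
  (.br 576 .no (.br 699 .no (.br 706 .no (.br 569 .no (.br 570 .no (.hor [.f 441 1 5] []) .no
  (.red [.t 697 3 1, .t 561 1 3, .f 570 1 3] 88 136 [2, 2, 2] [(87, 136, [2, 2, 2, 4]), (88, 136,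
  [2, 2, 2]), (104, 88, [1])]) .no .no) (.red [.f 569 3 1, .f 561 1 3] 88 136 [2, 2, 2] [(87, 136,
  [2, 2, 2, 4]), (88, 136, [2, 2, 2])]) .no (.red [.t 705 4 2, .f 561 1 3] 88 136 [2, 2, 2] [(87,
  136, [2, 2, 2, 4]), (88, 136, [2, 2, 2])]) .no) (.br 707 .no (.con 136 [2, 2, 2, 3]) (.hor [.f
  706 3 5] []) .no .no .no) .no (.br 688 (.br 569 .no (.br 570 .no (.hor [.f 441 1 5] []) (.con
  136 [2, 2, 2, 2]) (.con 136 [2, 2, 4, 4, 2, 3]) .no .no) (.red [.f 569 3 1, .f 561 1 3] 88 136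
  [2, 2, 2] [(87, 136, [2, 2, 2, 4]), (88, 136, [2, 2, 2])]) .no (.use 333) .no) (.con 136 [2, 2,
  4, 4]) .no (.con 136 [2, 2, 4, 4]) .no .no) .no) (.con 136 [2, 2, 2]) .no .no .no) (.red [.f 576
  3 1, .f 568 1 3, .f 696 3 5] 88 136 [2, 2, 2] [(88, 136, [2, 2, 2]), (89, 136, [2, 2, 2, 3])])
  .no (.red [.t 696 2 3] 88 136 [2, 2, 2] [(88, 136, [2, 2, 2])]) .no) .no (.use 111) (.use 334)
  (.red [.f 809 5 3, .f 809 3 1, .f 817 1 3] 119 136 [2, 4] [(118, 136, [2, 4, 4]), (119, 136, [2,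
  4])])) .no .no .no) (.hor [.f 696 3 5] []) (.con 136 [2, 2, 4, 2]) .no .no) .no .no (.br 810 .no
  (.br 811 .no (.hor [.f 682 1 5] []) .no (.br 681 (.hor [.f 681 1 5] []) (.con 136 [2, 2, 4, 4,
  4]) .no (.con 136 [2, 2, 4, 4, 4]) .no (.con 136 [2, 2, 4, 4, 4])) .no .no) .no (.use 111) (.use
  334) (.red [.f 809 5 3, .f 809 3 1, .f 817 1 3] 119 136 [2, 4] [(118, 136, [2, 4, 4]), (119,
  136, [2, 4])]))) (.red [.t 697 4 1] 103 136 [2, 2, 4] [(103, 136, [2, 2, 4])]) (.br 688 (.br 810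
  .no (.con 136 [2, 2, 4, 4, 2]) .no (.use 111) (.br 696 .no (.br 697 .no (.hor [.f 568 1 5] [])
  (.br 690 .no (.con 136 [2, 2, 4, 2, 4]) .no (.hor [.f 681 3 5] []) .no .no) .no .no .no) (.red
  [.f 696 3 1, .f 688 1 3] 103 136 [2, 2, 4] [(103, 136, [2, 2, 4]), (104, 136, [2, 2])]) .no (.br
  690 .no (.con 136 [2, 2, 4, 2, 4]) .no (.hor [.f 681 3 5] []) .no .no) .no) (.red [.f 809 5 3,
  .f 809 3 1, .f 817 1 3] 119 136 [2, 4] [(118, 136, [2, 4, 4]), (119, 136, [2, 4])])) (.con 136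
  [2, 2, 4, 4]) (.con 136 [2, 2, 4, 2]) (.con 136 [2, 2, 4, 4]) .no .no) (.red [.f 689 5 1, .f 690
  1 3] 103 136 [2, 2, 4] [(103, 136, [2, 2, 4])]) (.con 136 [2, 2, 4, 4])

def c21t338 : Tr4 :=
  .br 681 (.hor [.f 681 1 5] []) (.con 136 [2, 4, 4, 2, 4]) .no (.con 136 [2, 4, 4, 2, 4]) .no
  (.con 136 [2, 4, 4, 2, 4])

def c21t339 : Tr4 :=
  .br 689 .no (.use 338) (.red [.t 697 4 1] 103 136 [2, 2, 4] [(103, 136, [2, 2, 4])]) (.con 136
  [2, 4, 4, 2, 4]) (.red [.f 689 5 1, .f 690 1 3] 103 136 [2, 2, 4] [(103, 136, [2, 2, 4])]) (.use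
  336)

def c21t340 : Tr4 :=
  .br 810 .no (.use 339) .no (.red [.f 802 3 1, .f 810 1 5] 117 136 [2, 4, 4, 4] [(117, 136, [2,
  4, 4, 4])]) .no (.red [.f 809 5 3, .f 809 3 1, .f 817 1 3] 119 136 [2, 4] [(118, 136, [2, 4,
  4]), (119, 136, [2, 4])])

def c21t341 : Tr4 :=
  .br 939 (.br 819 .no (.use 337) .no (.use 81) .no .no) (.use 340) .no (.hor [.f 930 3 5] []) .no
  .no

def c21t342 : Tr4 :=
  .br 827 .no (.hor [.f 698 1 5] []) (.br 833 .no (.br 834 .no (.hor [.f 705 1 5] []) (.use 332)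
  .no .no .no) .no .no (.use 341) .no) (.con 136 [2, 2, 4]) .no .no

def c21l11 : List Tr4 :=
  [c21t316, c21t317, c21t318, c21t319, c21t320, c21t321, c21t322, c21t323, c21t324, c21t325,
  c21t326, c21t327, c21t328, c21t329, c21t330, c21t331, c21t332, c21t333, c21t334, c21t335,
  c21t336, c21t337, c21t338, c21t339, c21t340, c21t341, c21t342]

theorem c21k11 : chkLF ⟨4, 0, 0, true, -8⟩ false 1 c21N 316 c21l11 = true := by decide +kernel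

def c21t343 : Tr4 :=
  .br 697 .no (.hor [.f 568 1 5] []) .no (.br 698 .no (.br 699 .no (.hor [.f 570 1 5] []) (.con
  136 [2, 2, 2]) (.use 109) .no .no) (.red [.f 826 5 3, .f 698 3 1] 104 136 [2, 2] [(104, 136, [2,
  2])]) (.use 255) (.red [.f 698 5 1, .t 697 4 1] 103 136 [2, 2, 4] [(103, 136, [2, 2, 4])]) .no)
  (.red [.f 826 5 3, .t 833 2 4] 104 136 [2, 2] [(104, 136, [2, 2])]) .no

def c21t344 : Tr4 :=
  .br 697 .no (.hor [.f 568 1 5] []) (.con 136 [2, 2, 2]) (.hor [.f 689 3 5] []) .no .no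

def c21t345 : Tr4 :=
  .br 705 .no (.hor [.f 577 1 5] []) (.hor [.f 704 3 5] []) .no .no .no

def c21t346 : Tr4 :=
  .br 688 (.br 689 .no (.br 570 .no (.hor [.f 441 1 5] []) .no (.red [.t 561 1 3, .f 570 1 3] 88
  136 [2, 2, 2] [(87, 136, [2, 2, 4, 2]), (88, 136, [2, 2, 2])]) (.con 136 [2, 2, 4, 2, 3]) .no)
  .no (.use 112) (.hor [.f 689 5 1, .f 688 1 5, .f 690 1 5] []) .no) (.con 136 [2, 2, 4, 4]) .no
  (.con 136 [2, 2, 4, 4]) (.con 136 [2, 2, 4, 4]) .no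

def c21t347 : Tr4 :=
  .br 688 (.hor [.f 689 5 1, .f 688 1 5, .f 690 1 5] []) (.con 136 [2, 4, 2, 4]) .no (.con 136 [2,
  4, 2, 4]) .no .no

def c21t348 : Tr4 :=
  .br 819 .no (.br 689 .no .no .no (.use 112) (.use 347) (.con 136 [2, 2, 4, 4])) .no (.use 81)
  .no .no

def c21t349 : Tr4 :=
  .br 705 .no (.con 136 [2, 2, 2, 3]) (.hor [.f 704 3 5] []) .no .no .no

def c21t350 : Tr4 :=
  .br 689 .no (.br 570 .no (.hor [.f 441 1 5] []) (.con 136 [2, 2, 4, 2, 2, 3]) (.red [.t 561 1 3]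
  87 136 [2, 2, 4, 2] [(87, 136, [2, 2, 4, 2])]) (.con 136 [2, 2, 4, 2, 3]) .no) .no (.use 112)
  (.use 347) (.con 136 [2, 2, 4, 4])

def c21t351 : Tr4 :=
  .br 698 .no (.use 110) (.red [.t 706 4 1] 104 136 [2, 2] [(104, 136, [2, 2])]) (.use 344) (.red
  [.f 698 5 1, .f 699 1 3] 104 136 [2, 2] [(104, 136, [2, 2])]) (.br 706 .no (.br 704 .no (.red
  [.f 568 1 3] 88 136 [2, 2, 2] [(88, 136, [2, 2, 2])]) (.use 345) .no (.br 569 .no (.br 819 .no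
  (.use 346) .no (.use 81) .no .no) (.red [.t 577 4 1, .f 568 1 5] 88 136 [2, 2, 2] [(88, 136, [2,
  2, 2])]) (.use 348) (.red [.f 569 5 1, .f 568 1 5, .f 696 5 3, .f 696 3 1] 104 136 [2, 2] [(104,
  136, [2, 2])]) .no) .no) (.br 704 .no (.red [.f 568 1 3] 88 136 [2, 2, 2] [(88, 136, [2, 2,
  2])]) (.use 349) .no (.br 569 .no (.br 819 .no (.use 350) .no (.use 81) .no .no) (.red [.t 568 1
  3] 88 136 [2, 2, 2] [(88, 136, [2, 2, 2])]) (.use 348) (.red [.f 569 5 1, .f 568 1 5, .f 696 5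
  3, .f 696 3 1] 104 136 [2, 2] [(104, 136, [2, 2])]) .no) .no) .no .no (.red [.f 697 5 3, .t 706
  4 1] 104 136 [2, 2] [(104, 136, [2, 2])]))

def c21t352 : Tr4 :=
  .br 699 .no (.con 136 [2, 2, 2, 4]) .no (.use 109) .no .no

def c21t353 : Tr4 :=
  .br 698 .no (.red [.f 570 1 3] 88 136 [2, 2, 2] [(88, 136, [2, 2, 2])]) .no (.use 352) (.red [.f
  698 5 1, .f 699 1 3] 104 136 [2, 2] [(104, 136, [2, 2])]) .no

def c21t354 : Tr4 :=
  .br 706 .no (.use 353) (.hor [.f 705 3 5] []) (.red [.t 706 4 1] 104 136 [2, 2] [(104, 136, [2,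
  2])]) .no .no

def c21t355 : Tr4 :=
  .br 835 .no (.br 696 .no (.use 351) (.red [.f 696 3 1] 104 136 [2, 2] [(104, 136, [2, 2])])
  (.use 131) (.br 705 .no (.br 706 .no (.hor [.f 577 1 5] []) (.br 842 .no .no (.hor [.f 842 3 1,
  .f 841 1 5] [(122, 89, [1, 1, 3])]) .no (.br 704 .no (.hor [.f 576 1 5] []) (.con 136 [2, 2, 2,
  3]) .no .no .no) .no) (.red [.t 706 4 1] 104 136 [2, 2] [(104, 136, [2, 2])]) .no .no) (.use
  354) .no (.red [.f 705 5 1, .t 832 4 2] 104 136 [2, 2] [(104, 136, [2, 2])]) (.red [.f 696 5 3,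
  .f 696 3 1] 104 136 [2, 2] [(104, 136, [2, 2])])) .no) (.br 842 .no (.br 707 .no (.br 706 .no
  (.hor [.f 578 1 5] []) .no (.br 705 .no (.use 325) (.red [.t 713 4 1] 105 136 [2, 2, 3] [(105,
  136, [2, 2, 3])]) (.hor [.f 697 3 5] []) .no (.br 699 .no (.red [.f 571 1 3, .f 698 3 5, .t 842
  2 4] 105 136 [2, 2, 3] [(88, 89, [4]), (105, 136, [2, 2, 3])]) .no (.use 109) .no .no)) .no
  (.red [.f 705 5 1, .f 706 1 3] 105 136 [2, 2, 3] [(105, 136, [2, 2, 3])])) (.red [.f 707 3 1, .f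
  714 1 5] 105 136 [2, 2, 3] [(105, 136, [2, 2, 3])]) (.use 326) .no (.red [.t 842 2 4] 105 136
  [2, 2, 3] [(105, 136, [2, 2, 3])])) (.hor [.f 842 3 1, .f 841 1 5] [(122, 105, [1, 3])]) .no .no
  .no) .no .no .no

def c21t356 : Tr4 :=
  .br 1217 (.hor [.f 1217 1 5] []) .no (.use 50) .no .no (.br 1072 (.hor [.t 1072 1 3, .f 1081 1
  5] [(151, 136, [4, 1])]) .no .no (.use 117) .no .no)

def c21t357 : Tr4 :=
  .br 834 .no (.hor [.f 705 1 5] []) .no .no .no .no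

def c21t358 : Tr4 :=
  .br 840 .no (.hor [.f 712 1 5] []) (.con 136 [2, 3, 2, 3]) .no .no .no

def c21t359 : Tr4 :=
  .br 707 .no (.con 136 [2, 2, 3, 2]) (.red [.f 707 3 1] 105 136 [2, 2, 3] [(105, 136, [2, 2,
  3])]) (.con 136 [2, 2, 3, 2]) .no (.con 136 [2, 2, 2, 3])

def c21t360 : Tr4 :=
  .br 705 .no (.use 359) (.red [.t 953 2 3, .f 824 3 5, .f 832 5 3, .f 705 3 1] 105 136 [2, 2, 3]
  [(105, 136, [2, 2, 3]), (120, 104, [1])]) (.use 93) (.br 707 .no (.con 136 [2, 2, 2, 3]) (.red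
  [.f 705 5 1, .f 707 3 1] 105 136 [2, 2, 3] [(105, 136, [2, 2, 3])]) (.con 136 [2, 2, 2]) .no
  .no) .no

def c21t361 : Tr4 :=
  .br 715 .no (.red [.f 579 1 3] 89 136 [2, 2, 2, 3] [(89, 136, [2, 2, 2, 3])]) (.br 714 .no (.con
  136 [2, 2, 3, 3, 2]) (.hor [.f 714 3 5] []) .no .no (.con 136 [2, 2, 3, 3, 2])) .no .no (.red
  [.f 571 1 3, .f 698 3 5, .f 706 5 3, .f 707 3 1] 105 136 [2, 2, 3] [(88, 89, [4]), (105, 136,
  [2, 2, 3])])

def c21t362 : Tr4 :=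
  .br 706 .no (.hor [.f 578 1 5] []) (.con 136 [2, 2, 2, 3]) .no .no .no

def c21t363 : Tr4 :=
  .br 689 .no (.br 570 .no (.hor [.f 441 1 5] []) (.con 136 [2, 2, 4, 2, 2, 3]) (.red [.t 561 1 3]
  87 136 [2, 2, 4, 2] [(87, 136, [2, 2, 4, 2])]) (.con 136 [2, 2, 4, 2, 3]) .no) .no (.use 112)
  (.use 347) (.con 136 [2, 2, 4, 4])

def c21t364 : Tr4 :=
  .br 705 .no (.br 704 .no (.hor [.f 576 1 5] []) (.use 359) .no .no .no) (.red [.t 953 2 3, .f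
  824 3 5, .f 832 5 3, .f 705 3 1] 105 136 [2, 2, 3] [(105, 136, [2, 2, 3]), (120, 104, [1])]) .no
  (.red [.f 705 5 1, .t 832 4 2] 104 136 [2, 2] [(104, 136, [2, 2])]) (.red [.f 696 5 3, .f 696 3
  1] 104 136 [2, 2] [(104, 136, [2, 2])])

def c21t365 : Tr4 :=
  .br 706 .no (.hor [.f 577 1 5] []) (.con 136 [2, 2, 2, 3]) (.red [.f 826 5 3, .f 698 3 1] 104
  136 [2, 2] [(104, 136, [2, 2])]) (.con 136 [2, 2, 2, 3]) .no

def c21t366 : Tr4 :=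
  .br 698 .no (.con 136 [2, 2, 2]) (.hor [.f 697 3 5] []) (.con 136 [2, 2, 2]) (.con 136 [2, 2,
  2]) .no

def c21t367 : Tr4 :=
  .br 699 .no (.hor [.f 570 1 5] []) (.con 136 [2, 2, 2]) .no .no .no

def c21t368 : Tr4 :=
  .br 704 .no (.hor [.f 576 1 5] []) (.use 365) .no .no .no

def c21t369 : Tr4 :=
  .br 696 .no (.br 704 .no (.red [.f 568 1 3, .f 696 3 1] 104 136 [2, 2] [(88, 136, [2, 2, 2]),
  (104, 136, [2, 2])]) (.br 705 .no (.use 365) (.red [.f 826 5 3, .f 705 3 1] 105 136 [2, 2, 3]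
  [(105, 136, [2, 2, 3])]) (.use 366) (.br 697 .no (.hor [.f 568 1 5] []) .no (.br 698 .no (.use
  367) .no (.hor [.f 689 3 5] []) (.red [.f 698 5 1, .t 697 4 1] 103 136 [2, 2, 4] [(103, 136, [2,
  2, 4])]) .no) (.red [.f 826 5 3, .f 697 5 3, .f 698 3 1] 104 136 [2, 2] [(104, 136, [2, 2])])
  .no) .no) .no (.br 697 .no (.hor [.f 568 1 5] []) .no (.br 698 .no (.use 367) (.red [.f 826 5 3,
  .f 698 3 1] 104 136 [2, 2] [(104, 136, [2, 2])]) (.hor [.f 689 3 5] []) (.red [.f 698 5 1, .t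
  697 4 1] 103 136 [2, 2, 4] [(103, 136, [2, 2, 4])]) .no) (.br 810 .no (.br 569 .no (.br 688 (.br
  689 .no (.br 570 .no (.hor [.f 441 1 5] []) (.con 136 [2, 2, 4, 2, 2, 3]) (.con 136 [2, 2, 4, 4,
  2, 3]) (.con 136 [2, 2, 4, 2, 3]) .no) .no (.con 136 [2, 2, 4, 4, 2]) (.use 347) .no) (.con 136
  [2, 2, 4, 4]) .no (.con 136 [2, 2, 4, 4]) (.con 136 [2, 2, 4, 4]) .no) (.red [.t 568 1 3] 88 136
  [2, 2, 2] [(88, 136, [2, 2, 2])]) (.br 689 .no .no .no (.br 688 (.con 136 [2, 2, 4, 4, 2]) (.con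
  136 [2, 2, 4, 4]) .no (.con 136 [2, 2, 4, 4]) .no .no) (.use 347) (.con 136 [2, 2, 4, 4])) (.red
  [.f 569 5 1, .f 568 1 5, .f 696 5 3, .f 696 3 1] 104 136 [2, 2] [(104, 136, [2, 2])]) .no) .no
  (.use 111) (.br 690 .no (.br 689 .no (.hor [.f 561 1 5] []) .no (.con 136 [2, 2, 4, 2, 4]) .no
  (.con 136 [2, 2, 4, 4])) .no (.red [.t 690 4 1] 102 136 [2, 2, 4, 4] [(102, 136, [2, 2, 4, 4])])
  .no (.use 347)) (.red [.f 809 5 3, .f 809 3 1, .f 817 1 3] 119 136 [2, 4] [(118, 136, [2, 4,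
  4]), (119, 136, [2, 4])])) .no) .no) (.red [.f 696 3 1] 104 136 [2, 2] [(104, 136, [2, 2])])
  (.con 136 [2, 2, 4, 4]) (.br 705 .no (.use 368) (.red [.f 826 5 3, .f 705 3 1] 105 136 [2, 2, 3]
  [(105, 136, [2, 2, 3])]) .no (.br 698 .no (.br 699 .no (.hor [.f 570 1 5] []) (.con 136 [2, 2,
  2]) .no .no .no) .no (.con 136 [2, 2, 4, 2]) (.br 688 (.br 810 .no (.br 689 .no (.br 811 .no
  (.hor [.f 682 1 5] []) .no (.br 681 (.hor [.f 681 1 5] []) (.con 136 [2, 2, 4, 4, 4]) .no (.con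
  136 [2, 2, 4, 4, 4]) .no (.con 136 [2, 2, 4, 4, 4])) .no .no) .no (.con 136 [2, 2, 4, 4, 2])
  (.hor [.f 689 5 1, .f 688 1 5, .f 690 1 5] []) .no) .no (.use 111) (.br 690 .no (.br 689 .no
  (.hor [.f 561 1 5] []) .no (.con 136 [2, 2, 2, 4, 4]) .no .no) .no (.red [.t 690 4 1] 102 136
  [2, 2, 4, 4] [(102, 136, [2, 2, 4, 4])]) .no (.hor [.f 689 5 1, .f 688 1 5, .f 690 1 5] []))
  (.red [.f 809 5 3, .f 809 3 1, .f 817 1 3] 119 136 [2, 4] [(118, 136, [2, 4, 4]), (119, 136, [2,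
  4])])) (.con 136 [2, 2, 4, 4]) .no (.con 136 [2, 2, 4, 4]) (.con 136 [2, 2, 4, 4]) .no) .no)
  (.red [.f 696 5 3, .f 696 3 1] 104 136 [2, 2] [(104, 136, [2, 2])])) .no

def c21t370 : Tr4 :=
  .br 699 .no (.hor [.f 570 1 5] []) (.con 136 [2, 2, 2]) (.use 109) .no .no

def c21t371 : Tr4 :=
  .br 570 .no (.hor [.f 441 1 5] []) (.con 136 [2, 4, 2, 3, 2, 2]) (.red [.f 689 5 3, .f 562 3 1]
  87 136 [2, 4, 2, 2] [(87, 136, [2, 4, 2, 2])]) .no .no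

def c21t372 : Tr4 :=
  .br 570 .no (.con 136 [2, 4, 2, 3, 2, 2, 4]) (.con 136 [2, 4, 2, 3, 2, 2]) (.hor [.f 561 3 5]
  []) .no .no

def c21t373 : Tr4 :=
  .br 569 .no (.br 689 .no (.use 338) .no (.con 136 [2, 4, 4, 2, 4]) (.use 371) (.br 691 (.con 136
  [2, 4, 2, 4]) (.red [.f 563 1 3] 87 136 [2, 4, 2, 2] [(87, 136, [2, 4, 2, 2])]) .no (.con 136
  [2, 4, 2, 4, 2]) .no (.br 570 .no (.hor [.f 441 1 5] []) (.con 136 [2, 4, 2, 2, 2, 3]) (.red [.t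
  570 4 1] 87 136 [2, 4, 2, 2] [(87, 136, [2, 4, 2, 2])]) .no .no))) (.red [.t 568 1 3] 88 136 [2,
  4, 2, 2, 3] [(88, 136, [2, 2, 2])]) (.use 372) (.hor [.f 569 5 1, .f 568 1 5, .f 570 1 5] [])
  .no

def c21t374 : Tr4 :=
  .br 698 .no (.hor [.f 570 1 5] []) .no (.con 136 [2, 2, 2, 4]) .no .no

def c21t375 : Tr4 :=
  .br 689 .no (.use 338) .no (.con 136 [2, 4, 4, 2, 4]) (.red [.f 698 5 1, .f 689 5 1, .f 690 1 3]
  103 136 [2, 2, 4] [(103, 136, [2, 2, 4])]) (.red [.f 688 5 3, .f 698 5 1, .t 697 4 1] 103 136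
  [2, 2, 4] [(103, 136, [2, 2, 4])])

def c21l12 : List Tr4 :=
  [c21t343, c21t344, c21t345, c21t346, c21t347, c21t348, c21t349, c21t350, c21t351, c21t352,
  c21t353, c21t354, c21t355, c21t356, c21t357, c21t358, c21t359, c21t360, c21t361, c21t362,
  c21t363, c21t364, c21t365, c21t366, c21t367, c21t368, c21t369, c21t370, c21t371, c21t372,
  c21t373, c21t374, c21t375]

theorem c21k12 : chkLF ⟨4, 0, 0, true, -8⟩ false 1 c21N 343 c21l12 = true := by decide +kernel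

def c21t376 : Tr4 :=
  .br 835 .no (.br 834 .no (.hor [.f 706 1 5] []) .no .no .no (.br 696 .no (.use 351) (.red [.f
  696 3 1] 104 136 [2, 2] [(104, 136, [2, 2])]) (.use 131) (.br 705 .no (.br 698 .no (.br 706 .no
  (.use 353) (.br 704 .no (.hor [.f 576 1 5] []) (.con 136 [2, 2, 2, 3]) .no .no .no) .no .no .no)
  (.red [.t 706 4 1] 104 136 [2, 2] [(104, 136, [2, 2])]) (.use 352) (.red [.f 698 5 1, .f 699 1
  3] 104 136 [2, 2] [(104, 136, [2, 2])]) .no) (.use 354) .no (.red [.f 705 5 1, .t 832 4 2] 104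
  136 [2, 2] [(104, 136, [2, 2])]) (.red [.f 696 5 3, .f 696 3 1] 104 136 [2, 2] [(104, 136, [2,
  2])])) .no)) (.br 833 .no (.use 357) (.con 136 [2, 3, 2]) .no (.br 841 .no (.use 358) (.red [.f
  841 3 1, .f 841 1 5] 122 136 [2, 3, 3] [(122, 136, [2, 3, 3])]) .no .no (.br 976 .no (.red [.t
  976 2 4, .f 841 1 5] 122 136 [2, 3, 3] [(122, 136, [2, 3, 3])]) (.br 848 .no (.br 696 .no (.br
  704 .no (.red [.f 568 1 3, .f 696 3 1] 104 136 [2, 2] [(88, 136, [2, 2, 2]), (104, 136, [2,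
  2])]) (.use 360) .no (.br 697 .no (.hor [.f 568 1 5] []) .no (.br 698 .no (.use 110) (.br 707
  .no (.br 699 .no (.use 361) .no (.use 109) .no .no) (.red [.f 707 3 1, .t 706 4 1] 105 136 [2,
  2, 3] [(104, 136, [2, 2]), (105, 136, [2, 2, 3])]) (.hor [.f 698 3 5] []) .no .no) (.hor [.f 689
  3 5] []) (.red [.t 953 2 3, .f 698 5 1, .t 697 4 1, .t 833 4 1] 103 136 [2, 2, 4] [(103, 136,
  [2, 2, 4])]) .no) (.br 569 .no (.br 707 .no (.use 362) (.red [.f 707 3 1] 105 136 [2, 2, 3]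
  [(105, 136, [2, 2, 3])]) (.con 136 [2, 2, 2]) .no (.br 819 .no (.use 363) .no (.use 81) .no
  .no)) (.red [.t 568 1 3] 88 136 [2, 2, 2] [(88, 136, [2, 2, 2])]) (.use 348) (.red [.f 569 5 1,
  .f 568 1 5, .f 696 5 3, .f 696 3 1] 104 136 [2, 2] [(104, 136, [2, 2])]) .no) .no) .no) (.red
  [.f 696 3 1] 104 136 [2, 2] [(104, 136, [2, 2])]) (.use 131) (.use 364) .no) (.red [.f 848 3 1,
  .t 976 2 4, .f 841 1 5] 122 136 [2, 3, 3] [(122, 136, [2, 3, 3]), (123, 136, [2, 3, 3, 3])]) .no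
  (.red [.f 840 5 3, .f 841 3 1] 122 136 [2, 3, 3] [(122, 136, [2, 3, 3])]) .no) .no .no .no))
  .no) .no .no (.br 833 .no (.br 696 .no (.use 343) (.red [.f 696 3 1, .f 704 1 5] 104 136 [2, 2]
  [(104, 136, [2, 2])]) (.use 131) (.red [.t 832 4 2] 104 136 [2, 2] [(104, 136, [2, 2])]) .no)
  (.br 939 (.br 819 .no (.use 369) .no (.use 81) .no .no) (.br 810 .no (.br 696 .no (.br 704 .no
  (.red [.f 568 1 3, .f 696 3 1] 104 136 [2, 2] [(88, 136, [2, 2, 2]), (104, 136, [2, 2])]) (.br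
  705 .no (.use 365) (.red [.f 826 5 3, .f 705 3 1] 105 136 [2, 2, 3] [(105, 136, [2, 2, 3])])
  (.use 366) (.br 697 .no (.hor [.f 568 1 5] []) .no (.br 698 .no (.use 370) .no (.hor [.f 689 3
  5] []) (.red [.f 698 5 1, .t 697 4 1] 103 136 [2, 2, 4] [(103, 136, [2, 2, 4])]) .no) (.red [.f
  826 5 3, .f 697 5 3, .f 698 3 1] 104 136 [2, 2] [(104, 136, [2, 2])]) .no) .no) .no (.br 697 .no
  (.hor [.f 568 1 5] []) .no (.br 698 .no (.use 370) (.red [.f 826 5 3, .f 698 3 1] 104 136 [2, 2]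
  [(104, 136, [2, 2])]) (.hor [.f 689 3 5] []) (.red [.f 698 5 1, .t 697 4 1] 103 136 [2, 2, 4]
  [(103, 136, [2, 2, 4])]) .no) (.br 699 .no (.use 373) (.con 136 [2, 2, 2]) (.use 109) .no .no)
  .no) .no) (.red [.f 696 3 1] 104 136 [2, 2] [(104, 136, [2, 2])]) (.use 131) (.br 705 .no (.use
  368) (.red [.f 826 5 3, .f 705 3 1] 105 136 [2, 2, 3] [(105, 136, [2, 2, 3])]) .no (.br 699 .no
  (.use 374) (.con 136 [2, 2, 2]) (.use 109) .no (.use 375)) (.red [.f 696 5 3, .f 696 3 1] 104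
  136 [2, 2] [(104, 136, [2, 2])])) .no) .no (.red [.f 802 3 1, .f 810 1 5] 117 136 [2, 4, 4, 4]
  [(117, 136, [2, 4, 4, 4])]) .no (.red [.f 809 5 3, .f 809 3 1, .f 817 1 3] 119 136 [2, 4] [(118,
  136, [2, 4, 4]), (119, 136, [2, 4])])) .no (.hor [.f 930 3 5] []) .no .no) .no .no .no)

def c21t377 : Tr4 :=
  .br 970 .no (.br 1096 (.hor [.f 1096 1 5] []) .no (.br 817 .no (.br 826 .no (.br 827 .no (.hor
  [.f 698 1 5] []) (.use 330) (.con 136 [2, 2, 4]) .no .no) (.use 321) (.br 827 .no (.use 89)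
  (.use 328) (.hor [.f 818 3 5] []) .no .no) (.br 818 .no (.hor [.f 689 1 5] []) .no (.use 91)
  (.use 329) .no) .no) .no (.red [.f 809 3 1, .f 817 1 3] 119 136 [2, 4] [(118, 136, [2, 4, 4]),
  (119, 136, [2, 4])]) (.br 826 .no (.br 827 .no (.hor [.f 698 1 5] []) (.br 938 .no (.red [.t 937
  3 2, .f 817 1 3] 119 136 [2, 4] [(118, 136, [2, 4, 4]), (119, 136, [2, 4])]) .no (.br 834 .no
  (.br 833 .no (.hor [.f 705 1 5] []) (.br 705 .no (.use 296) (.red [.f 698 1 3, .f 705 3 1] 105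
  136 [2, 2, 3] [(104, 103, [3]), (105, 136, [2, 2, 3])]) (.br 696 .no (.use 297) (.hor [.f 696 3
  5] []) (.br 699 .no (.con 136 [2, 2, 2, 4]) (.con 136 [2, 2, 2]) (.br 819 .no .no .no (.use 81)
  .no .no) .no .no) .no .no) .no (.use 305)) .no .no .no) .no .no .no (.use 341)) (.red [.f 938 5
  3, .f 937 3 5, .f 817 5 1, .f 817 1 3] 119 136 [2, 4] [(119, 136, [2, 4])]) .no) (.con 136 [2,
  2, 4]) .no .no) (.use 321) .no (.br 938 .no (.red [.t 937 3 2, .f 817 1 3] 119 136 [2, 4] [(118,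
  136, [2, 4, 4]), (119, 136, [2, 4])]) .no (.use 376) (.red [.f 938 5 3, .f 937 3 5, .f 817 5 1,
  .f 817 1 3] 119 136 [2, 4] [(119, 136, [2, 4])]) .no) .no) (.red [.t 952 4 2] 119 136 [2, 4]
  [(119, 136, [2, 4])])) .no .no .no) (.hor [.f 969 3 5] []) .no .no .no

def c21t378 : Tr4 :=
  .br 969 (.use 130) (.br 1209 (.use 199) .no (.br 824 .no (.use 318) (.br 970 .no (.hor [.f 841 1
  5] []) (.br 817 .no (.use 331) .no (.red [.f 809 3 1, .f 817 1 3] 119 136 [2, 4] [(118, 136, [2,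
  4, 4]), (119, 136, [2, 4])]) (.br 938 .no (.red [.t 937 3 2, .f 817 1 3] 119 136 [2, 4] [(118,
  136, [2, 4, 4]), (119, 136, [2, 4])]) .no (.br 826 .no (.use 342) (.use 321) .no (.br 833 .no
  (.br 696 .no (.br 834 .no (.hor [.f 705 1 5] []) (.use 275) .no (.use 343) .no) (.red [.f 696 3
  1, .f 704 1 5] 104 136 [2, 2] [(104, 136, [2, 2])]) (.use 131) (.red [.t 832 4 2] 104 136 [2, 2]
  [(104, 136, [2, 2])]) .no) .no .no (.use 355) .no) .no) (.red [.f 938 5 3, .f 937 3 5, .f 817 5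
  1, .f 817 1 3] 119 136 [2, 4] [(119, 136, [2, 4])]) .no) (.red [.t 952 4 2] 119 136 [2, 4]
  [(119, 136, [2, 4])])) .no .no .no) (.red [.f 816 3 1, .f 824 1 5] 119 136 [2, 4] [(119, 136,
  [2, 4])]) .no .no) (.hor [.f 1073 3 1, .f 1081 1 5] [(151, 119, [1, 1])]) .no (.br 824 .no (.use
  318) (.br 970 .no (.hor [.f 841 1 5] []) (.br 817 .no (.use 331) .no (.red [.f 809 3 1, .f 817 1
  3] 119 136 [2, 4] [(118, 136, [2, 4, 4]), (119, 136, [2, 4])]) (.br 938 .no (.red [.t 937 3 2,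
  .f 817 1 3] 119 136 [2, 4] [(118, 136, [2, 4, 4]), (119, 136, [2, 4])]) .no (.br 826 .no (.use
  342) (.use 321) .no (.br 833 .no (.br 696 .no (.br 834 .no (.hor [.f 705 1 5] []) (.br 835 .no
  (.br 1097 (.use 315) .no (.use 54) .no .no (.use 356)) (.hor [.f 834 3 5] []) .no .no .no) .no
  (.use 343) .no) (.red [.f 696 3 1, .f 704 1 5] 104 136 [2, 2] [(104, 136, [2, 2])]) (.use 131)
  (.red [.t 832 4 2] 104 136 [2, 2] [(104, 136, [2, 2])]) .no) .no .no (.use 355) .no) .no) (.red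
  [.f 938 5 3, .f 937 3 5, .f 817 5 1, .f 817 1 3] 119 136 [2, 4] [(119, 136, [2, 4])]) .no) (.red
  [.t 952 4 2] 119 136 [2, 4] [(119, 136, [2, 4])])) .no .no .no) (.red [.f 816 3 1, .f 824 1 5]
  119 136 [2, 4] [(119, 136, [2, 4])]) .no .no)) (.br 824 .no (.br 817 .no (.use 234) .no (.red
  [.f 809 3 1, .f 817 1 3] 119 136 [2, 4] [(118, 136, [2, 4, 4]), (119, 136, [2, 4])]) (.br 826
  .no (.use 317) (.br 835 .no (.br 827 .no (.red [.f 699 1 3] 104 136 [2, 2] [(104, 136, [2, 2])])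
  .no (.con 136 [2, 2, 4]) .no .no) (.use 236) (.use 235) .no .no) .no (.use 25) .no) (.red [.t
  952 4 2] 119 136 [2, 4] [(119, 136, [2, 4])])) (.br 1209 (.use 144) .no (.br 1097 (.use 377) .no
  (.use 54) .no .no (.use 274)) (.hor [.f 1073 3 1, .f 1081 1 5] [(151, 119, [1, 1])]) .no (.br
  1097 (.use 377) .no (.use 54) .no .no (.use 356))) (.red [.f 816 3 1, .f 824 1 5] 119 136 [2, 4]
  [(119, 136, [2, 4])]) .no .no) .no (.use 118) .no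

def c21t379 : Tr4 :=
  .br 1067 (.use 38) .no .no (.red [.f 931 3 1, .f 938 1 5] 133 136 [4, 4, 4] [(133, 136, [4, 4,
  4])]) .no .no

def c21t380 : Tr4 :=
  .br 1202 (.use 240) .no .no (.use 379) (.red [.f 1074 5 1, .f 1074 1 3, .f 1073 3 5, .t 961 1 4]
  136 136 [] [(136, 136, []), (151, 135, [1])]) (.red [.t 1081 4 1, .t 961 1 4] 136 136 [] [(136,
  136, []), (151, 135, [1])])

def c21t381 : Tr4 :=
  .br 939 (.hor [.f 938 1 5] []) (.use 164) .no (.use 380) .no .no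

def c21t382 : Tr4 :=
  .br 819 .no (.use 168) .no (.use 166) .no .no

def c21t383 : Tr4 :=
  .br 938 (.use 381) (.red [.t 817 2 3, .t 937 3 2, .f 817 1 3, .f 689 3 1] 119 136 [2, 4] [(118,
  136, [2, 4, 4]), (119, 136, [2, 4])]) .no (.use 382) (.red [.f 938 5 3, .f 937 3 5, .t 825 1 4,
  .f 944 3 5] 119 136 [2, 4] [(119, 136, [2, 4])]) .no

def c21t384 : Tr4 :=
  .br 699 .no (.con 136 [2, 2, 2, 4]) .no (.use 181) .no .no

def c21t385 : Tr4 :=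
  .br 817 .no (.br 835 .no (.br 827 .no (.red [.f 699 1 3] 104 136 [2, 2] [(104, 136, [2, 2])])
  .no (.use 246) .no (.br 818 .no (.hor [.f 689 1 5] []) .no (.use 186) (.use 319) .no)) (.hor [.f
  834 3 5] []) (.br 696 .no (.br 818 .no (.hor [.f 689 1 5] []) (.br 697 .no (.hor [.f 568 1 5]
  []) .no .no (.use 383) .no) (.use 247) (.use 248) .no) (.hor [.f 696 3 1, .f 704 1 5] [(104,
  136, [2, 2])]) (.br 818 .no (.hor [.f 689 1 5] []) (.br 938 (.use 381) (.br 697 .no (.br 819 .no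
  (.con 136 [2, 2, 4, 4]) .no (.red [.t 810 1 3, .f 937 3 5] 118 136 [2, 4, 4] [(118, 136, [2, 4,
  4])]) .no .no) .no .no (.use 383) .no) .no (.use 382) (.red [.f 938 5 3, .f 937 3 5, .t 825 1 4,
  .f 944 3 5] 119 136 [2, 4] [(119, 136, [2, 4])]) .no) (.con 136 [2, 4, 2, 4]) (.con 136 [2, 4,
  2, 4]) .no) (.hor [.t 832 4 2, .t 968 4 2, .f 833 3 5] [(104, 136, [2, 2]), (121, 136, [2, 3])])
  .no) .no .no) .no (.red [.f 809 3 1, .f 817 1 3] 119 136 [2, 4] [(118, 136, [2, 4, 4]), (119,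
  136, [2, 4])]) (.br 696 .no (.use 275) (.hor [.f 696 3 1, .f 704 1 5] [(104, 136, [2, 2])]) (.br
  835 .no (.br 827 .no (.use 289) .no (.con 136 [2, 4, 2]) .no (.br 706 .no (.br 698 .no (.red [.f
  570 1 3] 88 136 [2, 2, 2] [(88, 136, [2, 2, 2])]) .no (.use 261) (.red [.f 698 5 1, .f 699 1 3]
  104 136 [2, 2] [(104, 136, [2, 2])]) (.br 1202 (.br 1203 (.hor [.f 1203 1 3, .t 1210 2 4, .f
  1073 3 5] [(151, 119, [1, 1]), (167, 119, [1, 1, 1])]) .no .no (.use 384) .no .no) .no .no (.br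
  1203 (.hor [.f 1203 1 3, .t 1210 2 4, .f 1073 3 5] [(151, 119, [1, 1]), (167, 119, [1, 1, 1])])
  .no .no (.use 384) .no .no) (.red [.f 1074 5 1, .f 1074 1 3, .f 1073 3 5, .t 961 1 4] 136 136 []
  [(136, 136, []), (151, 135, [1])]) (.red [.t 1081 4 1, .t 961 1 4] 136 136 [] [(136, 136, []),
  (151, 135, [1])]))) (.hor [.f 706 3 1, .f 705 1 5] [(105, 104, [3])]) (.red [.t 706 4 1] 104 136
  [2, 2] [(104, 136, [2, 2])]) .no .no)) (.hor [.f 834 3 5] []) (.use 268) .no .no) (.hor [.t 832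
  4 2, .t 968 4 2, .f 833 3 5] [(104, 136, [2, 2]), (121, 136, [2, 3])]) .no) (.red [.t 952 4 2]
  119 136 [2, 4] [(119, 136, [2, 4])])

def c21t386 : Tr4 :=
  .br 1202 (.use 177) .no .no (.use 178) (.red [.f 1074 5 1, .f 1074 1 3, .f 1073 3 5, .t 961 1 4]
  136 136 [] [(136, 136, []), (151, 135, [1])]) (.red [.t 1081 4 1, .t 961 1 4] 136 136 [] [(136,
  136, []), (151, 135, [1])])

def c21t387 : Tr4 :=
  .br 827 .no (.use 386) .no (.hor [.f 818 3 5] []) .no .no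

def c21t388 : Tr4 :=
  .br 707 .no (.con 136 [2, 2, 2, 3]) (.hor [.f 706 3 5] []) (.con 136 [2, 2, 2]) .no .no

def c21t389 : Tr4 :=
  .br 1203 (.hor [.f 1203 1 3, .t 1210 2 4, .f 1073 3 5] [(151, 119, [1, 1]), (167, 119, [1, 1,
  1])]) .no .no (.use 181) .no (.red [.f 1074 5 1, .f 1074 1 3, .f 1073 3 5, .t 961 1 4] 136 136
  [] [(136, 136, []), (151, 135, [1])])

def c21t390 : Tr4 :=
  .br 697 .no (.br 698 .no (.hor [.f 569 1 5] []) (.red [.f 826 5 3, .f 698 3 1] 104 136 [2, 2]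
  [(104, 136, [2, 2])]) (.con 136 [2, 2, 2, 4]) (.con 136 [2, 2, 2, 4]) .no) .no (.hor [.f 688 3
  5] []) (.red [.f 826 5 3, .t 833 2 4] 104 136 [2, 2] [(104, 136, [2, 2])]) .no

def c21t391 : Tr4 :=
  .br 696 .no (.br 697 .no (.hor [.f 568 1 5] []) .no (.br 698 .no (.br 704 .no (.red [.f 568 1 3]
  88 136 [2, 2, 2] [(88, 136, [2, 2, 2])]) (.br 706 .no (.red [.f 570 1 3] 88 136 [2, 2, 2] [(88,
  136, [2, 2, 2])]) (.use 388) .no (.br 699 .no (.hor [.f 570 1 5] []) .no (.use 389) .no .no)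
  .no) .no .no .no) (.red [.f 826 5 3, .f 698 3 1] 104 136 [2, 2] [(104, 136, [2, 2])]) (.use 255)
  (.red [.f 698 5 1, .t 697 4 1] 103 136 [2, 2, 4] [(103, 136, [2, 2, 4])]) .no) (.red [.f 826 5
  3, .t 833 2 4] 104 136 [2, 2] [(104, 136, [2, 2])]) .no) (.red [.f 696 3 1, .f 704 1 5] 104 136
  [2, 2] [(104, 136, [2, 2])]) (.use 390) (.red [.t 832 4 2] 104 136 [2, 2] [(104, 136, [2, 2])])
  .no

def c21t392 : Tr4 :=
  .br 938 (.use 381) (.br 819 .no (.use 88) .no (.red [.t 810 1 3, .f 937 3 5] 118 136 [2, 4, 4]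
  [(118, 136, [2, 4, 4])]) .no .no) .no (.use 382) (.red [.f 938 5 3, .f 937 3 5, .t 825 1 4, .f
  944 3 5] 119 136 [2, 4] [(119, 136, [2, 4])]) .no

def c21l13 : List Tr4 :=
  [c21t376, c21t377, c21t378, c21t379, c21t380, c21t381, c21t382, c21t383, c21t384, c21t385,
  c21t386, c21t387, c21t388, c21t389, c21t390, c21t391, c21t392]

theorem c21k13 : chkLF ⟨4, 0, 0, true, -8⟩ false 1 c21N 376 c21l13 = true := by decide +kernel

end Pool.Agent.FT4D
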