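import Pool.Agent.FT4D.Tab_c21

/-!
# Four levels: decision trees (found by a computer search)
-/

namespace Pool.Agent.FT4D

def c21t393 : Tr4 :=
  .br 688 (.hor [.f 688 1 5] []) (.con 136 [2, 4, 2, 4]) .no (.con 136 [2, 4, 2, 4]) .no .no

def c21t394 : Tr4 :=
  .br 696 .no (.use 247) (.use 393) (.con 136 [2, 4, 2, 4]) (.use 292) .no

def c21t395 : Tr4 :=
  .br 818 .no (.hor [.f 689 1 5] []) (.br 827 .no (.use 386) (.use 392) (.use 323) .no .no) (.br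
  826 .no (.use 394) .no .no (.use 186) .no) (.use 329) .no

def c21t396 : Tr4 :=
  .br 809 .no (.red [.t 681 1 3, .f 690 1 3] 103 136 [2, 4, 2] [(102, 136, [2, 4, 2, 4]), (103,
  136, [2, 4, 2])]) .no (.hor [.f 801 3 5] []) .no .no

def c21t397 : Tr4 :=
  .br 819 .no .no .no .no .no .no

def c21t398 : Tr4 :=
  .br 808 (.br 690 .no (.br 688 (.con 136 [2, 4, 4, 2, 2]) (.con 136 [2, 2, 4, 4, 2]) .no (.hor
  [.f 680 3 5] []) .no .no) .no (.use 396) (.use 397) .no) (.con 136 [2, 4, 4, 4]) (.con 136 [2,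
  4, 4, 2]) (.con 136 [2, 4, 4, 4]) (.con 136 [2, 4, 4, 4]) .no

def c21t399 : Tr4 :=
  .br 690 .no (.con 136 [2, 4, 2, 4, 2]) .no (.hor [.f 681 3 5] []) (.con 136 [2, 4, 2, 2, 4]) .no

def c21t400 : Tr4 :=
  .br 706 .no (.br 569 .no (.br 568 .no (.hor [.f 440 1 5] []) (.br 570 .no (.hor [.f 441 1 5] [])
  .no (.red [.t 697 3 1, .t 561 1 3, .f 570 1 3] 88 136 [2, 2, 2] [(87, 136, [2, 2, 2, 4]), (88,
  136, [2, 2, 2]), (104, 88, [1])]) (.con 136 [2, 2, 2, 2]) .no) (.red [.f 560 3 1, .f 560 1 5] 87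
  136 [2, 2, 2, 4] [(87, 136, [2, 2, 2, 4])]) .no .no) (.red [.f 569 3 1, .f 561 1 3] 88 136 [2,
  2, 2] [(87, 136, [2, 2, 2, 4]), (88, 136, [2, 2, 2])]) .no (.red [.t 705 4 2, .f 561 1 3, .f 688
  3 5] 88 136 [2, 2, 2] [(87, 136, [2, 2, 2, 4]), (88, 136, [2, 2, 2])]) (.red [.t 688 3 2] 87 136
  [2, 2, 2, 4] [(87, 136, [2, 2, 2, 4])])) (.br 707 .no (.br 568 .no (.br 569 .no (.hor [.f 440 1
  5] []) (.red [.f 569 3 1, .f 561 1 3] 88 136 [2, 2, 2] [(87, 136, [2, 2, 2, 4]), (88, 136, [2,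
  2, 2])]) .no (.br 578 .no (.br 577 .no (.hor [.f 449 1 5] []) (.con 136 [2, 2, 2, 2, 3]) .no .no
  (.con 136 [2, 2, 2, 3])) (.red [.f 578 3 1, .f 578 1 5] 89 136 [2, 2, 2, 3] [(89, 136, [2, 2, 2,
  3])]) .no .no (.red [.f 569 5 3, .f 569 3 1, .f 561 1 3] 88 136 [2, 2, 2] [(87, 136, [2, 2, 2,
  4]), (88, 136, [2, 2, 2])])) .no) (.con 136 [2, 2, 2, 3]) (.red [.f 560 3 1, .f 560 1 5] 87 136
  [2, 2, 2, 4] [(87, 136, [2, 2, 2, 4])]) (.red [.t 688 3 2] 87 136 [2, 2, 2, 4] [(87, 136, [2, 2,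
  2, 4])]) .no) (.hor [.f 706 3 5] []) .no .no .no) .no (.br 569 .no (.br 568 .no (.hor [.f 440 1
  5] []) (.br 570 .no (.hor [.f 441 1 5] []) (.con 136 [2, 2, 2, 2]) (.br 577 .no (.red [.f 441 1
  3] 72 136 [2, 2, 2, 2] [(72, 136, [2, 2, 2, 2])]) (.br 578 .no (.con 136 [2, 2, 2, 3, 2]) (.hor
  [.f 577 3 5] []) .no (.con 136 [2, 2, 2, 2]) .no) .no (.red [.t 826 2 3, .f 697 3 5, .t 561 1 3,
  .f 577 5 1, .f 570 1 3] 88 136 [2, 2, 2] [(87, 136, [2, 2, 2, 4]), (88, 136, [2, 2, 2]), (104,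
  88, [1])]) .no) (.con 136 [2, 2, 2, 2]) .no) (.red [.f 560 3 1, .f 560 1 5] 87 136 [2, 2, 2, 4]
  [(87, 136, [2, 2, 2, 4])]) .no .no) (.red [.f 569 3 1, .f 561 1 3] 88 136 [2, 2, 2] [(87, 136,
  [2, 2, 2, 4]), (88, 136, [2, 2, 2])]) .no (.br 578 .no (.br 568 .no (.br 571 .no (.br 577 .no
  (.hor [.f 449 1 5] []) (.br 579 .no (.red [.f 443 1 3] 72 136 [2, 2, 2, 2] [(72, 136, [2, 2, 2,
  2])]) (.con 136 [2, 2, 2, 2, 3]) .no .no .no) .no .no (.br 579 .no (.red [.f 443 1 3] 72 136 [2,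
  2, 2, 2] [(72, 136, [2, 2, 2, 2])]) (.con 136 [2, 2, 2, 2, 3]) .no .no .no)) (.red [.t 697 3 1,
  .f 569 5 1, .t 570 1 3] 88 136 [2, 2, 2] [(88, 136, [2, 2, 2]), (104, 88, [1])]) (.con 136 [2,
  2, 2, 2, 4]) .no .no) (.use 335) (.red [.f 560 3 1, .f 560 1 5] 87 136 [2, 2, 2, 4] [(87, 136,
  [2, 2, 2, 4])]) .no .no) (.br 568 .no (.br 571 .no (.br 579 .no (.red [.f 443 1 3] 72 136 [2, 2,
  2, 2] [(72, 136, [2, 2, 2, 2])]) (.hor [.f 578 3 5] []) .no .no .no) (.red [.t 697 3 1, .f 569 5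
  1, .t 570 1 3] 88 136 [2, 2, 2] [(88, 136, [2, 2, 2]), (104, 88, [1])]) (.con 136 [2, 2, 2, 2,
  4]) .no .no) (.use 335) (.red [.f 560 3 1, .f 560 1 5] 87 136 [2, 2, 2, 4] [(87, 136, [2, 2, 2,
  4])]) .no .no) .no (.red [.f 578 5 1, .t 705 4 2, .f 561 1 3] 88 136 [2, 2, 2] [(87, 136, [2, 2,
  2, 4]), (88, 136, [2, 2, 2])]) (.red [.f 569 5 3, .f 569 3 1, .f 561 1 3] 88 136 [2, 2, 2] [(87,
  136, [2, 2, 2, 4]), (88, 136, [2, 2, 2])])) (.red [.t 688 3 2] 87 136 [2, 2, 2, 4] [(87, 136,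
  [2, 2, 2, 4])])) .no

def c21t401 : Tr4 :=
  .br 697 .no (.br 696 .no (.hor [.f 568 1 5] []) (.br 699 .no (.red [.f 561 1 3] 87 136 [2, 2, 2,
  4] [(87, 136, [2, 2, 2, 4])]) (.red [.f 561 1 3] 87 136 [2, 2, 2, 4] [(87, 136, [2, 2, 2, 4])])
  (.br 688 (.con 136 [2, 4, 4, 2, 3]) (.hor [.f 560 1 5] []) .no (.br 808 (.br 690 .no (.hor [.f
  561 1 5] []) .no (.use 396) .no .no) .no (.con 136 [2, 4, 4, 2]) (.con 136 [2, 4, 4, 4]) (.con
  136 [2, 4, 4, 4]) .no) .no .no) .no .no) (.red [.f 561 1 3] 87 136 [2, 2, 2, 4] [(87, 136, [2,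
  2, 2, 4])]) .no .no) (.br 696 .no (.br 704 .no (.red [.f 568 1 3] 88 136 [2, 2, 2] [(88, 136,
  [2, 2, 2])]) (.br 706 .no (.br 707 .no (.hor [.f 578 1 5] []) (.br 569 .no (.br 570 .no (.hor
  [.f 441 1 5] []) .no (.red [.t 697 3 1, .t 561 1 3, .f 570 1 3] 88 136 [2, 2, 2] [(87, 136, [2,
  2, 2, 4]), (88, 136, [2, 2, 2]), (104, 88, [1])]) (.br 808 (.br 690 .no (.hor [.f 561 1 5] [])
  .no (.use 396) (.con 136 [2, 2, 4, 2, 3]) .no) (.con 136 [2, 4, 4, 4]) (.con 136 [2, 4, 4, 2])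
  (.con 136 [2, 4, 4, 4]) (.con 136 [2, 4, 4, 4]) .no) .no) (.red [.f 569 3 1, .f 561 1 3] 88 136
  [2, 2, 2] [(87, 136, [2, 2, 2, 4]), (88, 136, [2, 2, 2])]) .no (.red [.t 705 4 2, .f 561 1 3] 88
  136 [2, 2, 2] [(87, 136, [2, 2, 2, 4]), (88, 136, [2, 2, 2])]) .no) (.con 136 [2, 2, 2]) .no
  .no) (.br 707 .no (.con 136 [2, 2, 2, 3]) (.hor [.f 706 3 5] []) (.con 136 [2, 2, 2]) .no .no)
  .no (.br 569 .no (.br 808 (.br 690 .no (.hor [.f 561 1 5] []) .no (.use 396) (.br 570 .no (.hor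
  [.f 441 1 5] []) (.con 136 [2, 2, 4, 2, 2, 3]) (.br 699 .no (.red [.t 570 4 1, .f 561 1 5] 87
  136 [2, 2, 2, 4] [(87, 136, [2, 2, 2, 4])]) .no .no .no .no) (.con 136 [2, 2, 4, 2, 3]) .no)
  .no) (.con 136 [2, 4, 4, 4]) (.con 136 [2, 4, 4, 2]) (.con 136 [2, 4, 4, 4]) (.con 136 [2, 4, 4,
  4]) .no) (.red [.f 569 3 1, .f 561 1 3] 88 136 [2, 2, 2] [(87, 136, [2, 2, 2, 4]), (88, 136, [2,
  2, 2])]) .no (.br 576 .no (.use 333) (.red [.f 576 3 1] 89 136 [2, 2, 2, 3] [(89, 136, [2, 2, 2,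
  3])]) .no (.red [.t 696 2 3] 88 136 [2, 2, 2] [(88, 136, [2, 2, 2])]) .no) .no) .no) .no .no
  .no) (.hor [.f 696 3 5] []) (.br 699 .no (.con 136 [2, 2, 2, 4]) (.con 136 [2, 2, 2]) (.use 400)
  .no .no) .no .no) .no .no (.br 808 (.br 690 .no (.hor [.f 561 1 5] []) .no (.use 396) (.use 397)
  .no) (.con 136 [2, 4, 4, 4]) (.con 136 [2, 4, 4, 2]) (.con 136 [2, 4, 4, 4]) (.con 136 [2, 4, 4,
  4]) .no)

def c21t402 : Tr4 :=
  .br 690 .no (.con 136 [2, 4, 2, 2, 4]) .no (.use 396) .no .no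

def c21t403 : Tr4 :=
  .br 691 (.use 402) (.con 136 [2, 4, 4, 2, 3]) .no (.con 136 [2, 4, 4, 2, 2]) .no (.con 136 [2,
  4, 4, 2, 2])

def c21t404 : Tr4 :=
  .br 688 (.br 808 (.br 699 .no (.use 403) .no (.con 136 [2, 4, 4, 2, 3]) .no .no) (.con 136 [2,
  4, 4, 4]) .no (.con 136 [2, 4, 4, 4]) (.con 136 [2, 4, 4, 4]) .no) (.use 399) .no (.hor [.f 680
  3 5] []) .no .no

def c21t405 : Tr4 :=
  .br 689 .no (.use 401) (.red [.t 697 4 1] 103 136 [2, 2, 4] [(103, 136, [2, 2, 4])]) (.br 697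
  .no (.br 696 .no (.use 398) (.br 688 (.red [.f 696 3 1, .f 688 1 3] 103 136 [2, 2, 4] [(103,
  136, [2, 2, 4]), (104, 136, [2, 2])]) (.use 399) .no (.hor [.f 680 3 5] []) .no .no) (.br 699
  .no (.con 136 [2, 2, 2, 4]) (.con 136 [2, 2, 2, 4]) (.use 266) .no .no) .no .no) (.br 696 .no
  (.use 398) (.hor [.f 696 3 5] []) (.br 699 .no (.con 136 [2, 2, 2, 4]) (.con 136 [2, 2, 2])
  (.use 266) .no .no) .no .no) .no .no (.br 705 .no (.br 704 .no (.hor [.f 576 1 5] []) (.br 706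
  .no (.hor [.f 577 1 5] []) (.br 707 .no (.con 136 [2, 2, 2, 3]) (.hor [.f 706 3 5] []) (.con 136
  [2, 2, 2, 3]) .no .no) .no (.use 404) .no) .no .no .no) (.br 706 .no (.br 707 .no (.hor [.f 578
  1 5] []) (.br 688 (.br 808 (.br 699 .no (.use 403) .no (.con 136 [2, 4, 4, 2, 3]) .no .no) (.con
  136 [2, 4, 4, 4]) .no (.con 136 [2, 4, 4, 4]) (.con 136 [2, 4, 4, 4]) .no) (.use 399) .no (.hor
  [.f 680 3 5] []) .no .no) (.br 688 (.br 808 (.br 691 (.use 402) (.con 136 [2, 4, 4, 2, 3]) .no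
  (.con 136 [2, 4, 4, 2, 2]) .no (.con 136 [2, 4, 4, 2, 2])) (.con 136 [2, 4, 4, 4]) .no (.con 136
  [2, 4, 4, 4]) (.con 136 [2, 4, 4, 4]) .no) (.use 399) .no (.hor [.f 680 3 5] []) .no .no) .no
  .no) (.hor [.f 705 3 5] []) .no (.use 404) .no) .no (.br 688 (.red [.f 705 5 1, .t 832 4 2, .f
  688 1 3] 103 136 [2, 2, 4] [(103, 136, [2, 2, 4]), (104, 136, [2, 2])]) (.use 399) .no (.hor [.f
  680 3 5] []) .no .no) (.hor [.f 696 5 3, .f 696 3 1, .t 697 3 1, .f 704 1 5, .f 826 3 5] [])))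
  (.red [.f 689 5 1, .f 690 1 3] 103 136 [2, 2, 4] [(103, 136, [2, 2, 4])]) (.use 336)

def c21t406 : Tr4 :=
  .br 810 .no (.use 339) .no (.use 405) .no (.red [.f 809 5 3, .f 809 3 1, .f 817 1 3] 119 136 [2,
  4] [(118, 136, [2, 4, 4]), (119, 136, [2, 4])])

def c21t407 : Tr4 :=
  .br 827 .no (.hor [.f 698 1 5] []) (.br 938 (.br 1202 (.br 939 (.hor [.f 938 1 5] []) (.use 406)
  .no (.use 240) .no .no) .no .no (.br 1067 (.use 38) (.hor [.f 938 1 5] []) .no (.br 939 .no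
  (.use 406) .no (.use 379) .no .no) .no .no) (.red [.f 1074 5 1, .f 1074 1 3, .f 1073 3 5, .t 961
  1 4] 136 136 [] [(136, 136, []), (151, 135, [1])]) (.red [.t 953 2 3, .t 833 4 1, .t 1081 4 1,
  .t 961 1 4] 136 136 [] [(136, 136, []), (151, 135, [1])])) (.red [.t 937 3 2, .f 817 1 3] 119
  136 [2, 4] [(118, 136, [2, 4, 4]), (119, 136, [2, 4])]) .no (.br 939 (.br 819 .no (.use 337) .no
  (.use 166) .no .no) (.use 340) .no (.hor [.f 930 3 5] []) .no .no) (.red [.f 938 5 3, .f 937 3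
  5, .f 817 5 1, .f 817 1 3] 119 136 [2, 4] [(119, 136, [2, 4])]) .no) (.con 136 [2, 2, 4]) .no
  .no

def c21t408 : Tr4 :=
  .br 690 .no .no .no (.hor [.f 682 3 5] []) .no (.use 371)

def c21t409 : Tr4 :=
  .br 699 .no (.br 698 .no (.hor [.f 570 1 5] []) (.red [.t 706 4 1] 104 136 [2, 2] [(104, 136,
  [2, 2])]) (.br 696 .no (.use 344) (.red [.f 696 3 1] 104 136 [2, 2] [(104, 136, [2, 2])]) (.con
  136 [2, 2, 2, 4]) (.con 136 [2, 2, 2, 4]) .no) .no (.br 696 .no (.br 706 .no (.br 704 .no (.red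
  [.f 568 1 3] 88 136 [2, 2, 2] [(88, 136, [2, 2, 2])]) (.use 345) .no (.br 569 .no (.br 570 .no
  (.hor [.f 441 1 5] []) .no (.br 691 (.use 346) (.red [.f 563 1 3, .f 562 3 5] 87 136 [2, 2, 2,
  4] [(87, 136, [2, 2, 2, 4])]) .no (.use 408) .no (.red [.t 570 4 1] 87 136 [2, 2, 2, 4] [(87,
  136, [2, 2, 2, 4])])) .no .no) (.red [.t 577 4 1, .f 568 1 5] 88 136 [2, 2, 2] [(88, 136, [2, 2,
  2])]) (.use 372) (.hor [.f 569 5 1, .f 568 1 5, .f 570 1 5] []) .no) .no) (.br 704 .no (.red [.f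
  568 1 3] 88 136 [2, 2, 2] [(88, 136, [2, 2, 2])]) (.use 349) .no (.br 569 .no (.br 570 .no (.hor
  [.f 441 1 5] []) (.con 136 [2, 2, 2, 2]) (.br 691 (.use 350) (.red [.f 563 1 3, .f 562 3 5] 87
  136 [2, 2, 2, 4] [(87, 136, [2, 2, 2, 4])]) .no (.use 408) .no (.red [.t 570 4 1] 87 136 [2, 2,
  2, 4] [(87, 136, [2, 2, 2, 4])])) .no .no) (.red [.t 568 1 3] 88 136 [2, 2, 2] [(88, 136, [2, 2,
  2])]) (.use 372) (.hor [.f 569 5 1, .f 568 1 5, .f 570 1 5] []) .no) .no) .no .no (.red [.f 697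
  5 3, .t 706 4 1] 104 136 [2, 2] [(104, 136, [2, 2])])) (.red [.f 696 3 1] 104 136 [2, 2] [(104,
  136, [2, 2])]) (.con 136 [2, 2, 2, 4]) .no .no)) .no (.use 389) .no (.red [.f 698 5 1, .f 699 1
  3] 104 136 [2, 2] [(104, 136, [2, 2])])

def c21t410 : Tr4 :=
  .br 699 .no (.hor [.f 570 1 5] []) (.con 136 [2, 2, 2]) (.use 389) .no .no

def c21t411 : Tr4 :=
  .br 697 .no (.con 136 [2, 2, 4, 2]) (.con 136 [2, 2, 4, 2]) (.hor [.f 688 3 5] []) (.con 136 [2,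
  2, 2, 4]) .no

def c21t412 : Tr4 :=
  .br 697 .no (.con 136 [2, 2, 2, 4]) (.con 136 [2, 2, 2]) (.hor [.f 688 3 5] []) .no .no

def c21l14 : List Tr4 :=
  [c21t393, c21t394, c21t395, c21t396, c21t397, c21t398, c21t399, c21t400, c21t401, c21t402,
  c21t403, c21t404, c21t405, c21t406, c21t407, c21t408, c21t409, c21t410, c21t411, c21t412]

theorem c21k14 : chkLF ⟨4, 0, 0, true, -8⟩ false 1 c21N 393 c21l14 = true := by decide +kernel

def c21t413 : Tr4 :=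
  .br 841 .no (.use 358) (.red [.f 841 3 1, .f 841 1 5] 122 136 [2, 3, 3] [(122, 136, [2, 3, 3])])
  .no .no (.br 976 .no (.red [.t 976 2 4, .f 841 1 5] 122 136 [2, 3, 3] [(122, 136, [2, 3, 3])])
  (.br 848 .no (.br 696 .no (.br 704 .no (.red [.f 568 1 3, .f 696 3 1] 104 136 [2, 2] [(88, 136,
  [2, 2, 2]), (104, 136, [2, 2])]) (.use 360) .no (.br 697 .no (.hor [.f 568 1 5] []) .no (.br 698
  .no (.use 410) (.br 707 .no (.br 699 .no (.use 361) .no (.use 389) .no .no) (.red [.f 707 3 1,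
  .t 706 4 1] 105 136 [2, 2, 3] [(104, 136, [2, 2]), (105, 136, [2, 2, 3])]) (.hor [.f 698 3 5]
  []) .no .no) (.hor [.f 689 3 5] []) (.red [.t 953 2 3, .f 698 5 1, .t 697 4 1, .t 833 4 1] 103
  136 [2, 2, 4] [(103, 136, [2, 2, 4])]) .no) (.br 707 .no (.use 362) (.red [.f 707 3 1] 105 136
  [2, 2, 3] [(105, 136, [2, 2, 3])]) (.con 136 [2, 2, 2]) .no (.br 569 .no (.br 699 .no (.br 570
  .no (.hor [.f 441 1 5] []) (.con 136 [2, 2, 2, 2]) (.br 691 (.use 363) (.red [.f 563 1 3, .f 562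
  3 5] 87 136 [2, 2, 2, 4] [(87, 136, [2, 2, 2, 4])]) .no (.use 408) .no (.red [.t 570 4 1] 87 136
  [2, 2, 2, 4] [(87, 136, [2, 2, 2, 4])])) .no .no) .no (.use 389) .no .no) (.red [.t 568 1 3] 88
  136 [2, 2, 2] [(88, 136, [2, 2, 2])]) (.br 699 .no (.use 372) .no (.use 389) .no .no) (.red [.f
  569 5 1, .f 568 1 5, .f 696 5 3, .f 696 3 1] 104 136 [2, 2] [(104, 136, [2, 2])]) .no)) .no)
  .no) (.red [.f 696 3 1] 104 136 [2, 2] [(104, 136, [2, 2])]) (.br 707 .no (.br 699 .no (.use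
  411) .no (.use 389) .no (.use 412)) (.red [.f 707 3 1] 105 136 [2, 2, 3] [(105, 136, [2, 2,
  3])]) (.br 698 .no (.con 136 [2, 2, 2]) (.hor [.f 698 3 5] []) (.con 136 [2, 2, 2]) .no (.con
  136 [2, 2, 2])) .no (.br 699 .no (.use 411) .no (.use 389) .no (.use 412))) (.use 364) .no)
  (.red [.f 848 3 1, .t 976 2 4, .f 841 1 5] 122 136 [2, 3, 3] [(122, 136, [2, 3, 3]), (123, 136,
  [2, 3, 3, 3])]) .no (.red [.f 840 5 3, .f 841 3 1] 122 136 [2, 3, 3] [(122, 136, [2, 3, 3])])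
  .no) .no .no .no)

def c21t414 : Tr4 :=
  .br 705 .no (.use 365) (.red [.f 826 5 3, .f 705 3 1] 105 136 [2, 2, 3] [(105, 136, [2, 2, 3])])
  (.use 366) (.br 697 .no (.hor [.f 568 1 5] []) .no (.br 698 .no (.br 699 .no (.hor [.f 570 1 5]
  []) (.con 136 [2, 2, 2]) (.use 389) .no .no) .no (.hor [.f 689 3 5] []) (.red [.f 698 5 1, .t
  697 4 1] 103 136 [2, 2, 4] [(103, 136, [2, 2, 4])]) .no) (.red [.f 826 5 3, .f 697 5 3, .f 698 3
  1] 104 136 [2, 2] [(104, 136, [2, 2])]) .no) .no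

def c21t415 : Tr4 :=
  .br 698 .no (.use 410) (.red [.f 826 5 3, .f 698 3 1] 104 136 [2, 2] [(104, 136, [2, 2])]) (.hor
  [.f 689 3 5] []) (.red [.f 698 5 1, .t 697 4 1] 103 136 [2, 2, 4] [(103, 136, [2, 2, 4])]) .no

def c21t416 : Tr4 :=
  .br 699 .no (.con 136 [2, 2, 4, 2]) (.con 136 [2, 2, 4, 2]) (.use 389) .no (.con 136 [2, 2, 4,
  2])

def c21t417 : Tr4 :=
  .br 696 .no (.br 704 .no (.red [.f 568 1 3, .f 696 3 1] 104 136 [2, 2] [(88, 136, [2, 2, 2]),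
  (104, 136, [2, 2])]) (.use 414) .no (.br 697 .no (.hor [.f 568 1 5] []) .no (.use 415) (.br 699
  .no (.use 373) (.con 136 [2, 2, 2]) (.use 389) .no .no) .no) .no) (.red [.f 696 3 1] 104 136 [2,
  2] [(104, 136, [2, 2])]) (.br 689 .no (.use 338) (.hor [.f 688 3 5] []) (.con 136 [2, 2, 4, 4,
  2]) (.use 416) .no) (.br 705 .no (.use 368) (.red [.f 826 5 3, .f 705 3 1] 105 136 [2, 2, 3]
  [(105, 136, [2, 2, 3])]) .no (.br 699 .no (.use 374) (.con 136 [2, 2, 2]) (.use 389) .no (.use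
  375)) (.red [.f 696 5 3, .f 696 3 1] 104 136 [2, 2] [(104, 136, [2, 2])])) .no

def c21t418 : Tr4 :=
  .br 713 .no (.hor [.f 585 1 5] []) (.con 136 [2, 2, 3, 3, 2]) .no .no .no

def c21t419 : Tr4 :=
  .br 696 .no (.br 704 .no (.red [.f 568 1 3, .f 696 3 1] 104 136 [2, 2] [(88, 136, [2, 2, 2]),
  (104, 136, [2, 2])]) (.use 414) .no (.br 697 .no (.hor [.f 568 1 5] []) .no (.use 415) (.br 840
  .no (.red [.t 840 2 4] 105 136 [2, 2, 3] [(105, 136, [2, 2, 3])]) (.br 699 .no (.br 569 .no (.br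
  570 .no (.hor [.f 441 1 5] []) (.con 136 [2, 2, 2, 2]) (.br 690 .no .no .no (.red [.t 681 1 3]
  102 136 [2, 4, 4, 2] [(102, 136, [2, 4, 4, 2])]) (.red [.t 570 4 1] 87 136 [2, 2, 2, 4] [(87,
  136, [2, 2, 2, 4])]) (.use 371)) .no .no) (.red [.t 568 1 3] 88 136 [2, 2, 2] [(88, 136, [2, 2,
  2])]) (.use 372) (.hor [.f 569 5 1, .f 568 1 5, .f 570 1 5] []) .no) (.con 136 [2, 2, 2]) (.use
  181) .no .no) .no .no .no) .no) .no) (.red [.f 696 3 1] 104 136 [2, 2] [(104, 136, [2, 2])])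
  (.br 689 .no (.br 699 .no (.con 136 [2, 2, 4, 2]) (.con 136 [2, 2, 4, 2]) (.use 181) .no (.con
  136 [2, 2, 4, 2])) (.hor [.f 688 3 5] []) .no (.use 416) .no) (.br 705 .no (.use 368) (.red [.f
  826 5 3, .f 705 3 1] 105 136 [2, 2, 3] [(105, 136, [2, 2, 3])]) .no (.br 699 .no (.use 374)
  (.con 136 [2, 2, 2]) (.use 181) .no (.br 689 .no (.br 690 .no (.hor [.f 561 1 5] []) .no (.red
  [.t 681 1 3, .f 698 5 1, .f 690 1 3] 103 136 [2, 2, 4] [(102, 136, [2, 4, 4, 2]), (103, 136, [2,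
  2, 4])]) (.br 704 .no (.br 569 .no (.br 568 .no (.hor [.f 440 1 5] []) .no (.red [.t 560 3 1, .f
  568 1 3] 88 136 [2, 2, 2] [(87, 136, [2, 2, 2, 4]), (88, 136, [2, 2, 2])]) .no .no) (.red [.t
  576 1 4, .f 561 1 3] 88 136 [2, 2, 2] [(87, 136, [2, 2, 2, 4]), (88, 136, [2, 2, 2])]) .no (.red
  [.f 690 5 3, .t 689 2 3] 87 136 [2, 2, 2, 4] [(87, 136, [2, 2, 2, 4])]) (.red [.f 568 5 1, .f
  561 1 3] 87 136 [2, 2, 2, 4] [(87, 136, [2, 2, 2, 4])])) (.br 707 .no (.con 136 [2, 2, 2, 3])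
  (.br 714 .no (.use 418) (.br 713 .no (.br 577 .no (.br 569 .no (.br 578 .no (.hor [.f 449 1 5]
  []) (.red [.t 585 1 4, .f 704 3 5] 89 136 [2, 2, 2, 3] [(89, 136, [2, 2, 2, 3])]) (.red [.f 441
  1 3] 72 136 [2, 2, 2, 2] [(72, 136, [2, 2, 2, 2])]) (.red [.f 441 1 3] 72 136 [2, 2, 2, 2] [(72,
  136, [2, 2, 2, 2])]) .no) .no .no (.red [.f 690 5 3, .t 689 2 3] 87 136 [2, 2, 2, 4] [(87, 136,
  [2, 2, 2, 4])]) (.red [.f 568 5 1, .f 561 1 3] 87 136 [2, 2, 2, 4] [(87, 136, [2, 2, 2, 4])]))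
  .no (.br 570 .no (.br 576 .no (.br 568 .no (.red [.f 440 1 3, .f 568 3 5, .t 712 4 2] 89 136 [2,
  2, 2, 3] [(72, 71, [3]), (89, 136, [2, 2, 2, 3])]) .no (.red [.t 560 3 1] 87 136 [2, 2, 2, 4]
  [(87, 136, [2, 2, 2, 4])]) .no .no) (.red [.f 576 3 1, .f 584 1 5] 89 136 [2, 2, 2, 3] [(89,
  136, [2, 2, 2, 3])]) (.hor [.f 568 3 5] []) .no .no) (.hor [.f 569 3 5] []) (.red [.f 690 5 3,
  .f 562 3 1, .t 569 3 1, .f 577 1 3] 89 136 [2, 2, 2, 3] [(87, 136, [2, 2, 2, 4]), (88, 136, [2,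
  2, 2]), (89, 136, [2, 2, 2, 3])]) (.red [.f 690 5 3, .f 690 3 5, .f 570 5 1, .t 569 3 1] 88 136
  [2, 2, 2] [(88, 136, [2, 2, 2])]) .no) (.red [.f 577 5 1, .f 577 1 3] 89 136 [2, 2, 2, 3] [(89,
  136, [2, 2, 2, 3])]) (.red [.t 712 4 2] 89 136 [2, 2, 2, 3] [(89, 136, [2, 2, 2, 3])])) (.hor
  [.f 713 3 5] []) .no .no .no) .no .no (.red [.f 705 5 3, .f 705 3 1, .t 832 4 2] 105 136 [2, 2,
  3] [(104, 136, [2, 2]), (105, 136, [2, 2, 3])])) .no .no .no) .no .no .no) .no) .no .no (.red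
  [.f 698 5 1, .f 689 5 1, .f 681 1 3] 102 136 [2, 4, 4, 2] [(102, 136, [2, 4, 4, 2])]) (.red [.f
  688 5 3, .f 698 5 1, .t 697 4 1, .f 681 1 3] 103 136 [2, 2, 4] [(102, 136, [2, 2, 4, 4]), (103,
  136, [2, 2, 4])]))) (.red [.f 696 5 3, .f 696 3 1] 104 136 [2, 2] [(104, 136, [2, 2])])) .no

def c21t420 : Tr4 :=
  .br 1203 (.hor [.f 1203 1 3, .t 1210 2 4, .f 1073 3 5] [(151, 136, [4, 1]), (167, 136, [4, 1,
  1])]) .no .no (.hor [.f 1194 3 5] []) .no .no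

def c21t421 : Tr4 :=
  .br 826 .no (.br 834 .no (.br 827 .no (.hor [.f 698 1 5] []) (.br 833 .no (.hor [.f 705 1 5] [])
  (.br 705 .no (.use 296) (.red [.f 698 1 3, .f 705 3 1] 105 136 [2, 2, 3] [(104, 103, [3]), (105,
  136, [2, 2, 3])]) (.br 696 .no (.use 297) (.hor [.f 696 3 5] []) (.br 699 .no (.con 136 [2, 2,
  2, 4]) (.con 136 [2, 2, 2]) (.br 938 (.br 939 (.hor [.f 938 1 5] []) (.br 689 .no (.br 810 .no
  (.use 338) .no (.br 690 .no (.hor [.f 561 1 5] []) .no (.br 808 (.use 396) (.con 136 [2, 4, 4,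
  4]) (.con 136 [2, 4, 4, 2]) (.con 136 [2, 4, 4, 4]) (.con 136 [2, 4, 4, 4]) .no) .no .no) .no
  (.red [.f 809 5 3, .f 809 3 1, .f 817 1 3] 119 136 [2, 4] [(118, 136, [2, 4, 4]), (119, 136, [2,
  4])])) .no (.use 266) (.red [.f 689 5 1, .f 690 1 3] 103 136 [2, 2, 4] [(103, 136, [2, 2, 4])])
  .no) .no (.use 380) .no .no) (.red [.t 937 3 2, .f 817 1 3] 119 136 [2, 4] [(118, 136, [2, 4,
  4]), (119, 136, [2, 4])]) .no (.br 819 .no .no .no (.use 166) .no .no) (.red [.f 938 5 3, .f 937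
  3 5, .f 817 5 1, .f 817 1 3] 119 136 [2, 4] [(119, 136, [2, 4])]) .no) .no .no) .no .no) .no
  (.use 305)) .no .no .no) (.con 136 [2, 2, 4]) .no .no) .no .no (.use 278) (.use 407)) (.use 321)
  .no (.br 835 .no (.br 834 .no (.hor [.f 706 1 5] []) .no .no .no (.use 409)) (.br 833 .no (.use
  357) (.con 136 [2, 3, 2]) .no (.use 413) .no) .no .no (.br 833 .no (.use 391) (.br 938 (.br 939
  (.hor [.f 938 1 5] []) (.br 1202 (.br 810 .no (.use 417) .no (.br 1203 (.hor [.f 1203 1 3, .t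
  1210 2 4, .f 1073 3 5] [(151, 119, [1, 1]), (167, 119, [1, 1, 1])]) .no .no (.br 808 (.br 809
  .no (.use 419) .no (.hor [.f 801 3 5] []) .no .no) (.con 136 [2, 4, 4, 4]) (.con 136 [2, 4, 4,
  2]) (.con 136 [2, 4, 4, 4]) (.con 136 [2, 4, 4, 4]) .no) .no .no) .no (.red [.f 809 5 3, .f 809
  3 1, .f 817 1 3] 119 136 [2, 4] [(118, 136, [2, 4, 4]), (119, 136, [2, 4])])) .no .no (.use 420)
  (.red [.f 1074 5 1, .f 1074 1 3, .f 1073 3 5, .t 961 1 4] 136 136 [] [(136, 136, []), (151, 135,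
  [1])]) (.red [.t 1081 4 1, .t 961 1 4] 136 136 [] [(136, 136, []), (151, 135, [1])])) .no (.use
  380) .no .no) (.red [.t 937 3 2, .f 817 1 3] 119 136 [2, 4] [(118, 136, [2, 4, 4]), (119, 136,
  [2, 4])]) .no (.br 1202 (.br 1203 (.hor [.f 1203 1 3, .t 1210 2 4, .f 1073 3 5] [(151, 119, [1,
  1]), (167, 119, [1, 1, 1])]) .no .no (.br 939 (.br 819 .no (.use 369) .no (.use 27) .no .no)
  (.br 810 .no (.use 417) .no (.red [.f 802 3 1, .f 810 1 5] 117 136 [2, 4, 4, 4] [(117, 136, [2,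
  4, 4, 4])]) .no (.red [.f 809 5 3, .f 809 3 1, .f 817 1 3] 119 136 [2, 4] [(118, 136, [2, 4,
  4]), (119, 136, [2, 4])])) .no (.hor [.f 930 3 5] []) .no .no) .no .no) .no .no (.use 420) (.red
  [.f 1074 5 1, .f 1074 1 3, .f 1073 3 5, .t 961 1 4] 136 136 [] [(136, 136, []), (151, 135,
  [1])]) (.red [.t 1081 4 1, .t 961 1 4] 136 136 [] [(136, 136, []), (151, 135, [1])])) (.red [.f
  938 5 3, .f 937 3 5, .f 817 5 1, .f 817 1 3] 119 136 [2, 4] [(119, 136, [2, 4])]) .no) .no .no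
  .no)) .no

def c21t422 : Tr4 :=
  .br 969 .no (.br 833 .no (.br 834 .no (.hor [.f 705 1 5] []) (.use 385) (.use 321) (.br 817 .no
  (.br 826 .no (.use 278) .no (.use 387) (.br 818 .no (.hor [.f 689 1 5] []) .no (.use 186) (.use
  322) .no) .no) .no (.red [.f 809 3 1, .f 817 1 3] 119 136 [2, 4] [(118, 136, [2, 4, 4]), (119,
  136, [2, 4])]) (.br 826 .no (.use 278) .no .no (.use 391) .no) (.red [.t 952 4 2] 119 136 [2, 4]
  [(119, 136, [2, 4])])) .no) .no .no (.br 970 .no (.hor [.f 841 1 5] []) (.br 817 .no (.use 395)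
  .no (.red [.f 809 3 1, .f 817 1 3] 119 136 [2, 4] [(118, 136, [2, 4, 4]), (119, 136, [2, 4])])
  (.br 826 .no (.use 407) .no .no (.br 835 .no (.use 409) (.br 842 .no (.br 707 .no (.br 706 .no
  (.hor [.f 578 1 5] []) .no (.br 705 .no (.use 325) (.red [.t 713 4 1] 105 136 [2, 2, 3] [(105,
  136, [2, 2, 3])]) (.hor [.f 697 3 5] []) .no (.br 699 .no (.red [.f 571 1 3, .f 698 3 5, .t 842
  2 4] 105 136 [2, 2, 3] [(88, 89, [4]), (105, 136, [2, 2, 3])]) .no (.use 389) .no .no)) .no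
  (.red [.f 705 5 1, .f 706 1 3] 105 136 [2, 2, 3] [(105, 136, [2, 2, 3])])) (.red [.f 707 3 1, .f
  714 1 5] 105 136 [2, 2, 3] [(105, 136, [2, 2, 3])]) (.use 326) .no (.red [.t 842 2 4] 105 136
  [2, 2, 3] [(105, 136, [2, 2, 3])])) (.hor [.f 842 3 1, .f 841 1 5] [(122, 105, [1, 3])]) .no .no
  .no) .no .no .no) .no) (.red [.t 953 2 3, .t 833 4 1, .t 952 4 2] 119 136 [2, 4] [(119, 136, [2,
  4])])) .no .no .no) .no) (.br 970 .no (.br 1096 (.hor [.f 1096 1 5] []) .no (.br 817 .no (.br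
  834 .no (.br 833 .no (.hor [.f 705 1 5] []) (.br 835 .no (.hor [.f 706 1 5] []) (.con 136 [2, 2,
  3]) (.br 826 .no (.br 818 .no (.hor [.f 689 1 5] []) .no (.use 394) (.use 329) .no) .no (.use
  392) .no .no) .no .no) .no .no .no) .no (.use 321) (.br 826 .no (.use 278) .no (.use 387) (.br
  818 .no (.hor [.f 689 1 5] []) .no (.use 186) (.use 329) .no) .no) (.use 395)) .no (.red [.f 809
  3 1, .f 817 1 3] 119 136 [2, 4] [(118, 136, [2, 4, 4]), (119, 136, [2, 4])]) (.use 421) (.red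
  [.t 952 4 2] 119 136 [2, 4] [(119, 136, [2, 4])])) .no .no .no) (.hor [.f 969 3 5] []) .no .no
  .no) .no (.use 175) .no

def c21l15 : List Tr4 :=
  [c21t413, c21t414, c21t415, c21t416, c21t417, c21t418, c21t419, c21t420, c21t421, c21t422]

theorem c21k15 : chkLF ⟨4, 0, 0, true, -8⟩ false 1 c21N 413 c21l15 = true := by decide +kernel

def c21t423 : Tr4 :=
  .br 946 (.br 1227 (.br 1209 (.use 199) .no (.use 310) (.hor [.f 1073 3 1, .f 1081 1 5] [(151,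
  119, [1, 1])]) .no (.br 824 .no (.br 834 .no (.br 817 .no (.use 223) .no (.red [.f 809 3 1, .f
  817 1 3] 119 136 [2, 4] [(118, 136, [2, 4, 4]), (119, 136, [2, 4])]) (.br 835 .no (.hor [.f 706
  1 5] []) (.br 833 .no (.hor [.f 705 1 5] []) (.br 832 .no (.con 136 [2, 2, 3]) (.hor [.f 832 3
  5] []) .no .no .no) .no .no (.br 969 (.use 312) (.use 280) (.br 1097 (.use 288) .no (.use 54)
  .no .no (.use 313)) .no (.use 68) .no)) (.use 287) .no .no) (.red [.t 952 4 2] 119 136 [2, 4]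
  [(119, 136, [2, 4])])) (.br 817 .no (.br 826 .no (.use 192) .no (.use 196) (.use 3) .no) .no
  (.red [.f 809 3 1, .f 817 1 3] 119 136 [2, 4] [(118, 136, [2, 4, 4]), (119, 136, [2, 4])]) (.br
  969 (.use 312) (.br 832 .no (.use 314) (.hor [.f 832 3 1, .f 840 1 5] [(121, 136, [2, 3])]) .no
  (.use 283) .no) (.use 290) .no (.use 68) .no) (.red [.t 952 4 2] 119 136 [2, 4] [(119, 136, [2,
  4])])) (.red [.f 826 3 1, .f 825 1 5, .t 1073 3 2, .f 953 1 3, .t 961 4 2] 136 136 [] [(135,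
  136, [4]), (136, 136, [])]) (.use 282) (.red [.t 953 2 3, .t 1073 3 2, .f 953 1 3, .f 825 3 1]
  136 136 [] [(135, 136, [4]), (136, 136, [])])) (.use 316) (.red [.f 816 3 1, .f 824 1 5] 119 136
  [2, 4] [(119, 136, [2, 4])]) .no .no)) .no (.red [.f 1099 3 1, .f 1091 1 3, .f 1090 3 5] 153 136
  [3, 1] [(153, 136, [3, 1]), (154, 136, [3, 3, 1])]) .no .no (.red [.t 1090 3 1, .t 954 3 1, .f
  961 1 5] 153 136 [3, 1] [(136, 136, []), (153, 136, [3, 1])])) (.use 6) .no (.hor [.f 937 3 5]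
  []) (.br 1074 (.hor [.f 1074 1 3, .f 1073 3 5] [(151, 119, [1, 1])]) .no .no (.br 1227 (.use
  378) .no (.red [.f 1099 3 1, .f 1091 1 3, .f 1090 3 5] 153 136 [3, 1] [(153, 136, [3, 1]), (154,
  136, [3, 3, 1])]) .no .no (.red [.t 1090 3 1, .t 954 3 1, .f 961 1 5] 153 136 [3, 1] [(136, 136,
  []), (153, 136, [3, 1])])) (.br 1227 (.br 1209 (.use 199) .no (.br 1097 (.br 1211 (.br 824 .no
  (.br 817 .no (.br 826 .no (.use 74) (.use 79) (.br 827 .no (.use 238) (.br 1202 (.br 816 .no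
  (.hor [.f 688 1 5] []) .no (.br 939 (.use 239) (.con 136 [2, 4, 4, 2]) .no (.br 938 (.use 240)
  (.use 241) .no (.hor [.f 930 3 5] []) .no .no) .no (.red [.f 938 5 3, .f 937 3 5, .t 825 1 4, .f
  944 3 5] 119 136 [2, 4] [(119, 136, [2, 4])])) .no .no) .no .no (.use 242) (.red [.f 1074 5 1,
  .f 1074 1 3, .f 1073 3 5, .t 961 1 4] 136 136 [] [(136, 136, []), (151, 135, [1])]) (.red [.t
  1081 4 1, .t 961 1 4] 136 136 [] [(136, 136, []), (151, 135, [1])])) (.hor [.f 818 3 5] []) .no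
  .no) (.use 76) .no) .no (.red [.f 809 3 1, .f 817 1 3] 119 136 [2, 4] [(118, 136, [2, 4, 4]),
  (119, 136, [2, 4])]) (.br 827 .no (.use 155) (.use 243) (.con 136 [2, 4, 2]) .no (.use 244))
  (.red [.t 952 4 2] 119 136 [2, 4] [(119, 136, [2, 4])])) (.use 422) (.red [.f 816 3 1, .f 824 1
  5] 119 136 [2, 4] [(119, 136, [2, 4])]) .no .no) .no .no (.hor [.t 1210 2 4, .f 1073 3 5] [(151,
  119, [1, 1])]) .no .no) (.use 185) (.use 54) .no .no (.use 274)) (.hor [.f 1073 3 1, .f 1081 1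
  5] [(151, 119, [1, 1])]) .no (.use 245)) .no (.red [.f 1099 3 1, .f 1091 1 3, .f 1090 3 5] 153
  136 [3, 1] [(153, 136, [3, 1]), (154, 136, [3, 3, 1])]) .no .no (.red [.t 1090 3 1, .t 954 3 1,
  .f 961 1 5] 153 136 [3, 1] [(136, 136, []), (153, 136, [3, 1])])) .no) .no

def c21t424 : Tr4 :=
  .br 960 .no (.br 824 .no (.br 1227 (.br 946 (.use 233) (.use 6) .no (.hor [.f 937 3 5] []) (.br
  1209 (.use 199) .no (.br 1074 (.hor [.f 1074 1 3, .f 1073 3 5] [(151, 119, [1, 1])]) .no .no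
  (.use 237) (.br 1211 (.br 817 .no (.br 826 .no (.use 74) (.use 79) (.br 827 .no (.use 238) (.br
  1202 (.br 816 .no (.hor [.f 688 1 5] []) .no (.br 688 .no (.br 939 (.use 239) (.con 136 [2, 4,
  4, 2]) .no (.br 938 (.use 240) (.br 819 .no (.con 136 [2, 2, 4, 4]) .no (.red [.t 810 1 3, .f
  937 3 5] 118 136 [2, 4, 4] [(118, 136, [2, 4, 4])]) .no .no) .no (.hor [.f 930 3 5] []) .no .no)
  .no (.red [.f 938 5 3, .f 937 3 5, .t 825 1 4, .f 944 3 5] 119 136 [2, 4] [(119, 136, [2, 4])]))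
  .no (.red [.f 680 3 1, .f 688 1 5] 102 136 [2, 2, 4, 4] [(102, 136, [2, 2, 4, 4])]) .no .no) .no
  .no) .no .no (.use 242) (.red [.f 1074 5 1, .f 1074 1 3, .f 1073 3 5, .t 961 1 4] 136 136 []
  [(136, 136, []), (151, 135, [1])]) (.red [.t 1081 4 1, .t 961 1 4] 136 136 [] [(136, 136, []),
  (151, 135, [1])])) (.hor [.f 818 3 5] []) .no .no) (.use 76) .no) .no (.red [.f 809 3 1, .f 817
  1 3] 119 136 [2, 4] [(118, 136, [2, 4, 4]), (119, 136, [2, 4])]) (.br 826 .no (.br 835 .no (.use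
  191) (.use 229) (.use 243) .no (.use 210)) (.br 827 .no (.use 155) (.use 243) (.con 136 [2, 2,
  4]) .no .no) .no (.use 244) .no) (.red [.t 952 4 2] 119 136 [2, 4] [(119, 136, [2, 4])])) .no
  .no (.hor [.t 1210 2 4, .f 1073 3 5] [(151, 119, [1, 1])]) .no .no) .no) (.hor [.f 1073 3 1, .f
  1081 1 5] [(151, 119, [1, 1])]) .no (.br 1074 (.hor [.f 1074 1 3, .f 1073 3 5] [(151, 119, [1,
  1])]) .no .no (.use 237) (.use 245) .no)) .no) .no (.red [.f 1099 3 1, .f 1091 1 3, .f 1090 3 5]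
  153 136 [3, 1] [(153, 136, [3, 1]), (154, 136, [3, 1, 3])]) .no .no (.red [.t 1090 3 1, .t 954 3
  1, .f 961 1 5] 153 136 [3, 1] [(136, 136, []), (153, 136, [3, 1])])) .no (.red [.f 816 3 1, .f
  824 1 5] 119 136 [2, 4] [(119, 136, [2, 4])]) .no .no) (.use 423) .no .no .no

def c21t425 : Tr4 :=
  .br 827 .no (.hor [.f 698 1 5] []) .no (.con 136 [2, 2, 4]) .no .no

def c21t426 : Tr4 :=
  .br 688 (.hor [.f 688 1 5] []) (.con 136 [2, 4, 2, 4]) .no (.con 136 [2, 4, 2, 4]) .no .no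

def c21t427 : Tr4 :=
  .br 688 (.hor [.f 688 1 5] []) (.con 136 [2, 4, 2, 4]) .no (.con 136 [2, 4, 2, 4]) .no .no

def c21t428 : Tr4 :=
  .br 826 .no (.br 818 .no (.hor [.f 689 1 5] []) .no (.use 426) (.use 427) .no) (.br 818 .no
  (.hor [.f 689 1 5] []) .no (.use 426) (.use 427) .no) (.red [.t 825 1 4, .f 944 3 5] 119 136 [2,
  4] [(119, 136, [2, 4])]) (.br 818 .no (.hor [.f 689 1 5] []) .no (.use 426) (.use 427) .no) .no

def c21t429 : Tr4 :=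
  .br 816 .no (.red [.f 688 1 3] 103 136 [2, 2, 4] [(103, 136, [2, 2, 4])]) .no (.hor [.f 808 3 5]
  []) .no .no

def c21t430 : Tr4 :=
  .br 1075 (.con 136 [4, 2, 4, 1, 3, 2]) (.red [.t 1074 4 2] 134 136 [4, 4] [(134, 136, [4, 4])])
  .no (.con 136 [4, 2, 4, 1, 3, 2]) .no .no

def c21t431 : Tr4 :=
  .br 938 .no (.red [.t 809 3 1, .f 817 1 3] 119 136 [2, 4] [(118, 136, [2, 4, 4]), (119, 136, [2,
  4])]) .no (.hor [.f 929 3 5] []) (.use 430) .no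

def c21t432 : Tr4 :=
  .br 816 .no (.red [.f 688 1 3] 103 136 [2, 4, 2] [(103, 136, [2, 4, 2])]) .no (.hor [.f 808 3 5]
  []) .no .no

def c21t433 : Tr4 :=
  .br 697 .no (.hor [.f 569 1 5] []) (.con 136 [2, 2, 2]) .no .no .no

def c21t434 : Tr4 :=
  .br 832 .no (.use 105) (.red [.f 832 3 1] 121 136 [2, 3] [(121, 136, [2, 3])]) .no (.br 817 .no
  (.br 827 .no (.br 698 .no (.use 433) (.red [.f 698 3 1, .f 698 1 5] 104 136 [2, 2] [(104, 136,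
  [2, 2])]) (.con 136 [2, 2, 4, 2]) .no (.br 816 .no (.hor [.f 688 1 5] []) .no (.br 818 .no (.hor
  [.f 689 1 5] []) .no (.con 136 [2, 2, 4, 4]) (.con 136 [2, 2, 4, 4]) .no) .no .no)) .no (.con
  136 [2, 2, 4]) .no .no) .no (.use 432) (.red [.f 817 5 1, .f 817 1 3] 119 136 [2, 4] [(119, 136,
  [2, 4])]) (.red [.t 952 4 2] 119 136 [2, 4] [(119, 136, [2, 4])])) .no

def c21t435 : Tr4 :=
  .br 840 .no (.hor [.f 712 1 5] []) (.con 136 [2, 3, 2, 3]) .no .no .no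

def c21t436 : Tr4 :=
  .br 841 .no (.use 435) (.hor [.f 841 3 5] []) .no .no (.red [.f 832 5 3, .f 832 3 1] 121 136 [2,
  3] [(121, 136, [2, 3])])

def c21t437 : Tr4 :=
  .br 832 .no (.br 833 .no (.hor [.f 704 1 5] []) (.con 136 [2, 2, 3]) .no .no .no) (.red [.f 832
  3 1] 121 136 [2, 3] [(121, 136, [2, 3])]) .no (.br 842 .no (.red [.f 706 1 3] 105 136 [2, 2, 3]
  [(105, 136, [2, 2, 3])]) (.use 436) .no (.red [.t 1089 2 3, .f 970 1 5, .f 842 5 1, .f 835 1 3]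
  121 136 [2, 3] [(121, 136, [2, 3]), (137, 121, [1])]) (.red [.f 841 5 1, .t 968 4 2] 121 136 [2,
  3] [(121, 136, [2, 3])])) .no

def c21t438 : Tr4 :=
  .br 688 (.hor [.f 688 1 5] []) (.con 136 [2, 4, 2, 4]) .no (.con 136 [2, 4, 2, 4]) .no .no

def c21t439 : Tr4 :=
  .br 817 .no (.br 818 .no (.hor [.f 689 1 5] []) .no (.use 438) (.red [.t 962 4 2, .t 826 1 3, .f
  818 5 3, .t 825 1 4] 119 136 [2, 4] [(119, 136, [2, 4])]) .no) .no (.use 429) (.red [.f 817 5 1,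
  .f 817 1 3] 119 136 [2, 4] [(119, 136, [2, 4])]) (.red [.t 952 4 2] 119 136 [2, 4] [(119, 136,
  [2, 4])])

def c21t440 : Tr4 :=
  .br 826 .no (.use 425) (.use 434) (.red [.t 825 1 4, .f 944 3 5] 119 136 [2, 4] [(119, 136, [2,
  4])]) (.use 439) .no

def c21t441 : Tr4 :=
  .br 835 .no (.hor [.f 706 1 5] []) (.use 229) (.hor [.f 698 1 3, .f 826 3 5] [(104, 103, [3])])
  .no .no

def c21t442 : Tr4 :=
  .br 834 .no (.use 441) (.hor [.t 968 4 2, .f 833 3 5] [(121, 136, [2, 3])]) .no (.use 281) .no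

def c21t443 : Tr4 :=
  .br 688 (.hor [.f 688 1 5] []) (.con 136 [2, 4, 2, 4]) .no (.con 136 [2, 4, 2, 4]) .no .no

def c21t444 : Tr4 :=
  .br 818 .no (.hor [.f 689 1 5] []) (.red [.t 825 1 4, .f 944 3 5] 119 136 [2, 4] [(119, 136, [2,
  4])]) (.use 438) (.use 443) .no

def c21t445 : Tr4 :=
  .br 969 (.con 136 [3, 3]) (.use 108) (.use 72) .no (.br 834 .no (.use 45) (.red [.t 1089 2 3, .f
  970 1 5, .t 834 3 1] 121 136 [2, 3] [(121, 136, [2, 3]), (137, 121, [1])]) .no .no .no) .no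

def c21t446 : Tr4 :=
  .br 834 .no (.use 45) (.red [.t 834 3 1] 121 136 [2, 3] [(121, 136, [2, 3])]) .no .no .no

def c21t447 : Tr4 :=
  .br 818 .no (.hor [.f 689 1 5] []) .no (.use 394) (.use 329) .no

def c21t448 : Tr4 :=
  .br 690 .no (.hor [.f 562 1 5] []) .no .no .no .no

def c21t449 : Tr4 :=
  .br 691 .no (.use 448) (.red [.t 698 1 4] 103 136 [2, 2, 4] [(103, 136, [2, 2, 4])]) (.red [.t
  682 1 3, .f 809 3 5, .t 697 4 1] 103 136 [2, 2, 4] [(102, 101, [3]), (103, 136, [2, 2, 4])]) .no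
  (.red [.f 690 5 1, .f 690 1 3] 103 136 [2, 2, 4] [(103, 136, [2, 2, 4])])

def c21t450 : Tr4 :=
  .br 810 .no (.use 449) .no (.red [.f 802 3 1, .t 809 3 1] 118 136 [2, 4, 4] [(117, 136, [2, 4,
  4, 4]), (118, 136, [2, 4, 4])]) (.red [.f 810 5 3, .f 809 3 5, .t 697 4 1] 103 136 [2, 2, 4]
  [(103, 136, [2, 2, 4])]) .no

def c21t451 : Tr4 :=
  .br 699 .no (.con 136 [2, 2, 2, 4]) (.con 136 [2, 2, 2, 4]) (.red [.t 698 1 4] 103 136 [2, 2, 4]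
  [(103, 136, [2, 2, 4])]) .no .no

def c21t452 : Tr4 :=
  .br 696 .no (.br 697 .no (.hor [.f 568 1 5] []) .no (.use 450) .no .no) (.hor [.f 696 3 1, .f
  704 1 5] [(104, 136, [2, 2])]) (.br 697 .no (.use 451) .no (.use 450) .no .no) (.hor [.t 832 4
  2, .t 968 4 2, .f 833 3 5] [(104, 136, [2, 2]), (121, 136, [2, 3])]) .no

def c21t453 : Tr4 :=
  .br 696 .no (.use 247) (.use 393) (.con 136 [2, 2, 4, 4]) (.red [.t 832 4 2] 104 136 [2, 2]
  [(104, 136, [2, 2])]) .no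

def c21t454 : Tr4 :=
  .br 699 .no (.br 698 .no (.hor [.f 570 1 5] []) .no .no .no (.br 696 .no (.br 704 .no (.red [.f
  568 1 3] 88 136 [2, 2, 2] [(88, 136, [2, 2, 2])]) (.br 569 .no (.br 843 .no (.hor [.f 707 1 3,
  .f 834 3 5] [(105, 104, [3])]) (.use 271) .no .no .no) (.red [.t 577 4 1, .f 568 1 5] 88 136 [2,
  2, 2] [(88, 136, [2, 2, 2])]) (.br 570 .no (.con 136 [2, 2, 2, 2, 4]) .no (.hor [.f 561 3 5] [])
  .no .no) (.red [.f 569 5 1, .f 570 1 5, .f 698 5 1, .f 690 1 3] 103 136 [2, 2, 4] [(103, 136,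
  [2, 2, 4])]) .no) .no .no .no) (.red [.f 696 3 1, .f 704 1 5] 104 136 [2, 2] [(104, 136, [2,
  2])]) (.con 136 [2, 2, 2, 4]) .no .no)) .no (.red [.t 690 1 3, .f 699 1 3] 104 136 [2, 2] [(103,
  136, [2, 2, 4]), (104, 136, [2, 2])]) .no (.red [.f 698 5 1, .f 699 1 3] 104 136 [2, 2] [(104,
  136, [2, 2])])

def c21t455 : Tr4 :=
  .br 696 .no (.br 697 .no (.hor [.f 568 1 5] []) .no (.br 817 .no .no .no (.br 818 .no (.br 698
  .no (.br 699 .no (.hor [.f 570 1 5] []) (.con 136 [2, 2, 2]) (.red [.t 690 1 3, .t 825 1 4] 103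
  136 [2, 2, 4] [(103, 136, [2, 2, 4]), (119, 136, [2, 4])]) .no .no) (.red [.f 826 5 3, .f 698 3
  1] 104 136 [2, 2] [(104, 136, [2, 2])]) .no (.red [.f 698 5 1, .f 690 1 3, .t 825 1 4] 103 136
  [2, 2, 4] [(103, 136, [2, 2, 4]), (119, 136, [2, 4])]) .no) .no (.hor [.f 809 3 5] []) (.red [.f
  826 5 3, .f 826 3 5, .f 818 5 3, .t 825 1 4] 119 136 [2, 4] [(119, 136, [2, 4])]) .no) (.red [.f
  826 5 3, .f 817 5 1, .f 817 1 3] 119 136 [2, 4] [(119, 136, [2, 4])]) (.red [.t 952 4 2] 119 136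
  [2, 4] [(119, 136, [2, 4])])) (.red [.f 826 5 3, .t 833 2 4] 104 136 [2, 2] [(104, 136, [2,
  2])]) .no) (.red [.f 696 3 1, .f 704 1 5] 104 136 [2, 2] [(104, 136, [2, 2])]) (.use 390) (.red
  [.t 832 4 2] 104 136 [2, 2] [(104, 136, [2, 2])]) .no

def c21l16 : List Tr4 :=
  [c21t423, c21t424, c21t425, c21t426, c21t427, c21t428, c21t429, c21t430, c21t431, c21t432,
  c21t433, c21t434, c21t435, c21t436, c21t437, c21t438, c21t439, c21t440, c21t441, c21t442,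
  c21t443, c21t444, c21t445, c21t446, c21t447, c21t448, c21t449, c21t450, c21t451, c21t452,
  c21t453, c21t454, c21t455]

theorem c21k16 : chkLF ⟨4, 0, 0, true, -8⟩ false 1 c21N 423 c21l16 = true := by decide +kernel

def c21t456 : Tr4 :=
  .br 1096 (.hor [.f 1096 1 5] []) .no (.br 970 .no (.hor [.f 841 1 5] []) (.br 834 .no (.hor [.f
  705 1 5] []) (.br 835 .no (.br 706 .no (.br 1226 (.hor [.f 1226 1 5] []) .no (.br 817 .no (.br
  818 .no (.hor [.f 689 1 5] []) .no (.use 453) (.use 319) .no) .no (.br 818 .no (.use 454) .no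
  (.hor [.f 809 3 5] []) (.red [.f 818 5 3, .t 825 1 4] 119 136 [2, 4] [(119, 136, [2, 4])]) .no)
  (.red [.f 817 5 1, .f 817 1 3] 119 136 [2, 4] [(119, 136, [2, 4])]) (.red [.t 952 4 2] 119 136
  [2, 4] [(119, 136, [2, 4])])) .no .no .no) (.hor [.f 706 3 1, .f 705 1 5] [(105, 104, [3])])
  (.red [.t 706 4 1] 104 136 [2, 2] [(104, 136, [2, 2])]) .no .no) (.hor [.f 834 3 5] []) .no .no
  .no) .no (.use 455) .no) .no .no .no) .no .no .no

def c21t457 : Tr4 :=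
  .br 969 .no (.use 456) (.br 834 .no (.hor [.f 705 1 5] []) (.use 290) .no (.use 455) .no) .no
  (.use 118) .no

def c21t458 : Tr4 :=
  .br 963 .no (.br 826 .no (.use 47) (.con 136 [2, 2]) (.red [.t 825 1 4, .f 944 3 5] 119 136 [2,
  4] [(119, 136, [2, 4])]) (.br 1099 (.red [.f 1091 1 3, .f 1090 3 5] 153 136 [3, 1] [(153, 136,
  [3, 1])]) (.use 445) (.br 1227 (.br 971 .no (.red [.f 835 1 3] 121 136 [2, 3] [(121, 136, [2,
  3])]) (.use 119) .no .no (.use 446)) .no (.red [.f 1099 3 1, .f 1091 1 3, .f 1090 3 5] 153 136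
  [3, 1] [(153, 136, [3, 1]), (154, 136, [3, 3, 1])]) .no .no (.red [.t 1090 3 1, .t 954 3 1, .f
  961 1 5] 153 136 [3, 1] [(136, 136, []), (153, 136, [3, 1])])) .no .no .no) .no) (.br 1099 (.red
  [.f 1091 1 3, .f 1090 3 5] 153 136 [3, 1] [(153, 136, [3, 1])]) .no (.br 826 .no (.br 834 .no
  (.hor [.f 705 1 5] []) (.br 1227 (.br 969 (.use 130) (.br 827 .no (.hor [.f 698 1 5] []) (.br
  817 .no (.use 447) .no (.br 818 .no (.red [.f 690 1 3] 103 136 [2, 2, 4] [(103, 136, [2, 2,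
  4])]) .no (.hor [.f 809 3 5] []) (.br 937 (.red [.t 1065 2 3, .f 809 3 1] 118 136 [2, 4, 4]
  [(118, 136, [2, 4, 4]), (134, 136, [4, 4])]) .no .no (.use 431) (.red [.f 937 5 3, .f 809 3 1,
  .f 817 1 3] 119 136 [2, 4] [(118, 136, [2, 4, 4]), (119, 136, [2, 4])]) (.br 938 .no (.red [.t
  809 3 1, .f 817 1 3] 119 136 [2, 4] [(118, 136, [2, 4, 4]), (119, 136, [2, 4])]) .no (.use 452)
  (.use 430) .no)) .no) (.use 332) (.red [.t 952 4 2] 119 136 [2, 4] [(119, 136, [2, 4])])) (.con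
  136 [2, 2, 4]) .no .no) (.use 290) .no (.use 118) .no) .no (.red [.f 1099 3 1, .f 1091 1 3, .f
  1090 3 5] 153 136 [3, 1] [(153, 136, [3, 1]), (154, 136, [3, 3, 1])]) .no .no (.red [.t 1090 3
  1, .t 954 3 1, .f 961 1 5] 153 136 [3, 1] [(136, 136, []), (153, 136, [3, 1])])) .no (.use 278)
  .no) (.use 321) (.red [.t 825 1 4, .f 944 3 5] 119 136 [2, 4] [(119, 136, [2, 4])]) (.br 1227
  (.br 1209 (.use 199) .no (.br 1097 (.use 457) (.use 130) (.use 54) .no .no (.use 274)) (.hor [.f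
  1073 3 1, .f 1081 1 5] [(151, 119, [1, 1])]) .no (.br 1097 (.use 457) (.use 129) (.use 54) .no
  .no (.use 356))) .no (.red [.f 1099 3 1, .f 1091 1 3, .f 1090 3 5] 153 136 [3, 1] [(153, 136,
  [3, 1]), (154, 136, [3, 3, 1])]) .no .no (.red [.t 1090 3 1, .t 954 3 1, .f 961 1 5] 153 136 [3,
  1] [(136, 136, []), (153, 136, [3, 1])])) .no) .no .no .no) .no .no .no

def c21t459 : Tr4 :=
  .br 834 .no (.con 136 [2, 2, 3]) (.hor [.f 833 3 5] []) (.con 136 [2, 2]) .no .no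

def c21t460 : Tr4 :=
  .br 939 (.con 136 [2, 4, 4, 1, 3, 2]) .no (.red [.f 810 5 3, .f 811 3 1] 118 136 [2, 4, 4]
  [(118, 136, [2, 4, 4])]) (.con 136 [2, 4, 4, 1, 3, 2]) .no .no

def c21t461 : Tr4 :=
  .br 810 .no (.red [.t 682 1 3, .f 809 3 5, .f 817 5 1, .f 817 1 3] 119 136 [2, 4] [(102, 101,
  [3]), (119, 136, [2, 4])]) .no (.red [.f 802 3 1, .t 809 3 1] 118 136 [2, 4, 4] [(117, 136, [2,
  4, 4, 4]), (118, 136, [2, 4, 4])]) (.use 460) .no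

def c21t462 : Tr4 :=
  .br 939 (.red [.f 939 1 3] 134 136 [4, 4] [(134, 136, [4, 4])]) (.con 136 [2, 4, 4, 4]) .no
  (.hor [.f 930 3 5] []) .no .no

def c21t463 : Tr4 :=
  .br 696 .no (.con 136 [2, 2, 2]) (.hor [.f 696 3 5] []) (.con 136 [2, 2, 2]) .no .no

def c21t464 : Tr4 :=
  .br 696 .no (.hor [.f 568 1 5] []) .no (.con 136 [2, 2, 2, 4]) .no .no

def c21t465 : Tr4 :=
  .br 706 (.hor [.f 706 1 5] []) (.con 136 [2, 3, 2, 4]) (.con 136 [2, 3, 2, 4]) (.con 136 [2, 3,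
  2, 4]) .no (.con 136 [2, 3, 2, 4])

def c21t466 : Tr4 :=
  .br 696 .no (.use 247) (.use 393) (.con 136 [2, 2, 4, 4]) (.br 688 (.hor [.f 688 1 5] []) (.con
  136 [2, 2, 4, 4]) .no (.con 136 [2, 2, 4, 4]) .no .no) .no

def c21t467 : Tr4 :=
  .br 818 .no (.hor [.f 689 1 5] []) .no (.use 466) (.use 329) .no

def c21t468 : Tr4 :=
  .br 699 .no (.hor [.f 570 1 5] []) (.br 696 .no (.con 136 [2, 2, 2]) (.red [.f 696 3 1] 104 136
  [2, 2] [(104, 136, [2, 2])]) (.con 136 [2, 2, 2]) (.con 136 [2, 2, 2]) .no) (.red [.t 690 1 3,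
  .t 825 1 4] 103 136 [2, 2, 4] [(103, 136, [2, 2, 4]), (119, 136, [2, 4])]) .no .no

def c21t469 : Tr4 :=
  .br 704 .no (.hor [.f 576 1 5] []) (.use 365) (.red [.f 696 3 1] 104 136 [2, 2] [(104, 136, [2,
  2])]) .no .no

def c21t470 : Tr4 :=
  .br 570 .no (.hor [.f 441 1 5] []) (.con 136 [2, 2, 2, 2]) (.red [.t 561 1 3, .f 570 1 5] 87 136
  [2, 2, 2, 4] [(87, 136, [2, 2, 2, 4])]) .no .no

def c21t471 : Tr4 :=
  .br 808 .no (.con 136 [2, 4, 2, 4, 1, 3, 2, 4, 1, 3]) (.hor [.f 808 3 5] []) (.con 136 [2, 4, 2,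
  4, 1, 3, 2, 4, 1, 3]) .no .no

def c21t472 : Tr4 :=
  .br 937 (.br 698 .no (.use 468) (.red [.f 826 5 3, .f 698 3 1] 104 136 [2, 2] [(104, 136, [2,
  2])]) .no (.red [.f 698 5 1, .f 690 1 3, .t 825 1 4] 103 136 [2, 2, 4] [(103, 136, [2, 2, 4]),
  (119, 136, [2, 4])]) (.br 705 .no (.use 469) (.red [.f 826 5 3, .f 705 3 1] 105 136 [2, 2, 3]
  [(105, 136, [2, 2, 3])]) .no (.red [.f 826 5 3, .f 697 5 3, .f 698 3 1] 104 136 [2, 2] [(104,
  136, [2, 2])]) (.br 699 .no (.br 691 (.red [.t 1065 2 3, .f 809 3 1] 118 136 [2, 4, 4] [(118,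
  136, [2, 4, 4]), (134, 136, [4, 4])]) (.red [.f 563 1 3] 87 136 [2, 2, 2, 4] [(87, 136, [2, 2,
  2, 4])]) .no (.br 810 .no (.red [.f 682 1 3, .f 809 3 5, .f 817 5 1, .f 817 1 3] 119 136 [2, 4]
  [(102, 101, [3]), (119, 136, [2, 4])]) .no (.br 811 (.hor [.f 802 3 1, .f 810 1 5] [(117, 136,
  [2, 4, 4, 4])]) .no (.red [.t 1065 2 3, .f 809 3 1] 118 136 [2, 4, 4] [(118, 136, [2, 4, 4]),
  (134, 136, [4, 4])]) (.hor [.f 802 3 5] []) .no .no) (.red [.t 690 1 4, .f 809 3 5, .f 817 5 1,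
  .f 817 1 3] 119 136 [2, 4] [(102, 103, [4]), (119, 136, [2, 4])]) .no) .no .no) (.con 136 [2, 2,
  2]) (.red [.t 690 1 3, .t 825 1 4] 103 136 [2, 2, 4] [(103, 136, [2, 2, 4]), (119, 136, [2,
  4])]) .no .no))) .no .no (.hor [.f 929 3 5] []) .no (.br 698 .no (.use 468) (.red [.f 826 5 3,
  .f 698 3 1] 104 136 [2, 2] [(104, 136, [2, 2])]) .no (.red [.f 698 5 1, .f 690 1 3, .t 825 1 4]
  103 136 [2, 2, 4] [(103, 136, [2, 2, 4]), (119, 136, [2, 4])]) (.br 705 .no (.use 469) (.red [.f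
  826 5 3, .f 705 3 1] 105 136 [2, 2, 3] [(105, 136, [2, 2, 3])]) .no (.red [.f 826 5 3, .f 697 5
  3, .f 698 3 1] 104 136 [2, 2] [(104, 136, [2, 2])]) (.br 1075 (.br 699 .no (.br 696 .no (.br 691
  (.hor [.f 690 1 5] []) (.red [.f 563 1 3] 87 136 [2, 2, 2, 4] [(87, 136, [2, 2, 2, 4])]) .no
  (.br 810 .no (.red [.f 682 1 3, .f 809 3 5, .f 817 5 1, .f 817 1 3] 119 136 [2, 4] [(102, 101,
  [3]), (119, 136, [2, 4])]) .no (.br 939 (.br 819 (.br 569 .no (.br 689 .no (.use 470) .no (.red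
  [.f 681 3 1, .f 689 1 5, .f 817 5 1, .f 817 1 3] 119 136 [2, 4] [(102, 86, [1]), (119, 136, [2,
  4])]) .no (.use 471)) (.red [.t 568 1 3] 88 136 [2, 2, 2] [(88, 136, [2, 2, 2])]) (.br 689 .no
  .no .no (.red [.f 681 3 1, .f 689 1 5, .f 817 5 1, .f 817 1 3] 119 136 [2, 4] [(102, 86, [1]),
  (119, 136, [2, 4])]) .no (.use 471)) (.red [.f 569 5 1, .f 570 1 5, .f 698 5 1, .f 690 1 3] 103
  136 [2, 2, 4] [(103, 136, [2, 2, 4])]) .no) .no .no (.con 136 [2, 4, 4, 1, 3, 2]) .no .no) (.red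
  [.f 802 3 1, .t 809 3 1] 117 136 [2, 4, 4, 4] [(117, 136, [2, 4, 4, 4]), (118, 136, [2, 4, 4])])
  (.red [.f 802 3 1, .t 809 3 1] 118 136 [2, 4, 4] [(117, 136, [2, 4, 4, 4]), (118, 136, [2, 4,
  4])]) (.hor [.f 930 3 5] []) .no .no) (.red [.t 690 1 4, .f 809 3 5, .f 817 5 1, .f 817 1 3] 119
  136 [2, 4] [(102, 103, [4]), (119, 136, [2, 4])]) .no) .no .no) .no (.con 136 [2, 2, 2, 4]) .no
  .no) (.con 136 [2, 2, 2]) (.red [.t 690 1 3, .t 825 1 4] 103 136 [2, 2, 4] [(103, 136, [2, 2,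
  4]), (119, 136, [2, 4])]) .no .no) (.use 462) .no (.hor [.f 1066 3 5] []) .no .no)))

def c21t473 : Tr4 :=
  .br 808 (.con 136 [2, 4, 2, 4, 1, 1, 3, 2, 2, 4, 1, 1, 3, 2]) (.con 136 [2, 4, 2, 4, 1, 1, 3, 2,
  2, 4, 1, 1, 3, 2]) (.hor [.f 808 3 5] []) (.con 136 [2, 4, 2, 4, 1, 1, 3, 2, 2, 4, 1, 1, 3, 2])
  .no .no

def c21t474 : Tr4 :=
  .br 826 .no (.br 834 .no (.br 835 .no (.hor [.f 706 1 5] []) (.con 136 [2, 2, 3]) (.br 817 .no
  (.use 447) .no (.br 1227 (.br 969 (.use 130) .no (.br 818 .no (.red [.f 690 1 3] 103 136 [2, 2,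
  4] [(103, 136, [2, 2, 4])]) .no (.hor [.f 809 3 5] []) (.br 937 (.red [.t 1065 2 3, .f 809 3 1]
  118 136 [2, 4, 4] [(118, 136, [2, 4, 4]), (134, 136, [4, 4])]) .no .no (.use 431) (.red [.f 937
  5 3, .f 809 3 1, .f 817 1 3] 119 136 [2, 4] [(118, 136, [2, 4, 4]), (119, 136, [2, 4])]) (.br
  938 .no (.red [.t 809 3 1, .f 817 1 3] 119 136 [2, 4] [(118, 136, [2, 4, 4]), (119, 136, [2,
  4])]) .no (.br 970 .no (.br 699 .no (.br 691 .no (.red [.f 563 1 3, .t 698 1 4] 103 136 [2, 2,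
  4] [(87, 136, [2, 2, 4, 2]), (103, 136, [2, 2, 4])]) .no (.br 1075 (.use 461) (.use 462) .no
  (.hor [.f 1066 3 5] []) .no .no) .no (.red [.f 698 1 3, .f 690 5 1, .f 698 3 1, .f 690 1 3] 103
  136 [2, 2, 4] [(103, 136, [2, 2, 4])])) (.br 1075 (.br 691 .no (.br 810 .no (.br 705 .no (.br
  704 .no (.hor [.f 576 1 5] []) (.con 136 [2, 2, 2, 3]) (.br 697 .no (.use 291) .no (.use 448)
  .no .no) .no .no) (.red [.f 699 3 1, .f 698 1 5, .f 705 3 1] 105 136 [2, 2, 3] [(104, 103, [3]),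
  (105, 136, [2, 2, 3])]) (.use 463) .no (.br 697 .no (.use 464) .no (.use 448) .no (.hor [.f 696
  5 3, .f 696 3 1, .f 698 1 3, .f 697 3 5, .f 826 3 5] []))) .no (.red [.f 802 3 1, .t 809 3 1]
  118 136 [2, 4, 4] [(117, 136, [2, 4, 4, 4]), (118, 136, [2, 4, 4])]) (.use 460) .no) .no (.use
  461) .no (.red [.f 699 3 1, .f 690 5 1, .f 690 1 3, .f 699 1 3] 103 136 [2, 2, 4] [(103, 136,
  [2, 2, 4])])) (.use 462) .no (.hor [.f 1066 3 5] []) .no .no) (.red [.t 698 1 4] 103 136 [2, 2,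
  4] [(103, 136, [2, 2, 4])]) .no .no) (.hor [.f 969 3 5] []) .no .no .no) (.use 430) .no)) .no)
  .no (.use 118) .no) .no (.red [.f 1099 3 1, .f 1091 1 3, .f 1090 3 5] 153 136 [3, 1] [(153, 136,
  [3, 1]), (154, 136, [3, 3, 1])]) .no .no (.red [.t 1090 3 1, .t 954 3 1, .f 961 1 5] 153 136 [3,
  1] [(136, 136, []), (153, 136, [3, 1])])) (.red [.f 817 5 1, .f 817 1 3] 119 136 [2, 4] [(119,
  136, [2, 4])]) (.red [.t 952 4 2] 119 136 [2, 4] [(119, 136, [2, 4])])) .no .no) (.hor [.f 833 3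
  5] []) .no (.use 278) .no) (.use 321) (.red [.t 825 1 4, .f 944 3 5] 119 136 [2, 4] [(119, 136,
  [2, 4])]) (.br 1227 (.br 969 (.use 130) .no (.br 970 .no (.br 835 .no (.use 465) (.con 136 [2,
  3, 2]) .no .no (.br 817 .no (.use 467) .no (.br 818 .no (.br 938 .no (.red [.t 809 3 1, .f 817 1
  3] 119 136 [2, 4] [(118, 136, [2, 4, 4]), (119, 136, [2, 4])]) .no (.use 472) (.br 1075 (.br 698
  .no (.use 468) (.red [.f 826 5 3, .f 698 3 1] 104 136 [2, 2] [(104, 136, [2, 2])]) .no (.red [.f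
  698 5 1, .f 690 1 3, .t 825 1 4] 103 136 [2, 2, 4] [(103, 136, [2, 2, 4]), (119, 136, [2, 4])])
  (.br 705 .no (.use 469) (.red [.f 826 5 3, .f 705 3 1] 105 136 [2, 2, 3] [(105, 136, [2, 2,
  3])]) .no (.red [.f 826 5 3, .f 697 5 3, .f 698 3 1] 104 136 [2, 2] [(104, 136, [2, 2])]) (.br
  699 .no (.br 696 .no (.br 691 (.con 136 [2, 4, 4, 1, 3, 2]) (.red [.f 563 1 3] 87 136 [2, 2, 2,
  4] [(87, 136, [2, 2, 2, 4])]) .no (.br 569 .no (.br 689 .no (.use 470) .no (.red [.f 681 3 1, .f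
  689 1 5, .f 817 5 1, .f 817 1 3] 119 136 [2, 4] [(102, 86, [1]), (119, 136, [2, 4])]) .no (.use
  473)) (.red [.t 568 1 3] 88 136 [2, 2, 2] [(88, 136, [2, 2, 2])]) (.br 689 .no .no .no (.red [.f
  681 3 1, .f 689 1 5, .f 817 5 1, .f 817 1 3] 119 136 [2, 4] [(102, 86, [1]), (119, 136, [2,
  4])]) .no (.use 473)) (.red [.f 569 5 1, .f 570 1 5, .f 698 5 1, .f 690 1 3] 103 136 [2, 2, 4]
  [(103, 136, [2, 2, 4])]) .no) .no .no) .no (.con 136 [2, 2, 2, 4]) .no .no) (.con 136 [2, 2, 2])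
  (.red [.t 690 1 3, .t 825 1 4] 103 136 [2, 2, 4] [(103, 136, [2, 2, 4]), (119, 136, [2, 4])])
  .no .no))) (.red [.t 1074 4 2] 134 136 [4, 4] [(134, 136, [4, 4])]) .no (.hor [.f 1066 3 5] [])
  .no .no) (.red [.f 937 5 3, .f 809 3 1, .f 817 1 3] 119 136 [2, 4] [(118, 136, [2, 4, 4]), (119,
  136, [2, 4])])) .no (.hor [.f 809 3 5] []) (.red [.f 826 5 3, .f 826 3 5, .f 818 5 3, .t 825 1
  4] 119 136 [2, 4] [(119, 136, [2, 4])]) .no) (.red [.f 826 5 3, .f 817 5 1, .f 817 1 3] 119 136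
  [2, 4] [(119, 136, [2, 4])]) (.red [.t 952 4 2] 119 136 [2, 4] [(119, 136, [2, 4])]))) (.hor [.f
  969 3 5] []) .no .no .no) .no (.use 118) .no) .no (.red [.f 1099 3 1, .f 1091 1 3, .f 1090 3 5]
  153 136 [3, 1] [(153, 136, [3, 1]), (154, 136, [3, 3, 1])]) .no .no (.red [.t 1090 3 1, .t 954 3
  1, .f 961 1 5] 153 136 [3, 1] [(136, 136, []), (153, 136, [3, 1])])) .no

def c21l17 : List Tr4 :=
  [c21t456, c21t457, c21t458, c21t459, c21t460, c21t461, c21t462, c21t463, c21t464, c21t465,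
  c21t466, c21t467, c21t468, c21t469, c21t470, c21t471, c21t472, c21t473, c21t474]

theorem c21k17 : chkLF ⟨4, 0, 0, true, -8⟩ false 1 c21N 456 c21l17 = true := by decide +kernel

def c21t475 : Tr4 :=
  .br 824 .no (.br 963 .no (.use 440) (.br 1099 (.red [.f 1091 1 3, .f 1090 3 5] 153 136 [3, 1]
  [(153, 136, [3, 1])]) .no (.br 1227 (.br 969 (.use 130) (.br 832 .no (.br 833 .no (.hor [.f 704
  1 5] []) .no .no (.red [.t 953 2 3, .f 945 5 3, .f 944 3 5, .t 1088 4 2, .f 825 3 1] 136 136 []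
  [(136, 136, [])]) .no) (.hor [.f 832 3 1, .f 840 1 5] [(121, 136, [2, 3])]) .no (.br 817 .no
  (.br 818 .no (.hor [.f 689 1 5] []) (.red [.t 825 1 4, .f 944 3 5] 119 136 [2, 4] [(119, 136,
  [2, 4])]) (.use 438) (.br 826 .no (.use 442) (.br 827 .no (.br 835 .no (.red [.f 699 1 3] 104
  136 [2, 2] [(104, 136, [2, 2])]) (.br 707 .no (.br 970 .no (.hor [.f 841 1 5] []) (.br 842 .no
  (.br 706 .no (.hor [.f 578 1 5] []) .no (.red [.f 698 3 1, .f 698 1 5] 104 136 [2, 2] [(104,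
  136, [2, 2])]) .no (.red [.t 968 4 2, .t 841 4 2] 105 136 [2, 2, 3] [(105, 136, [2, 2, 3]),
  (121, 136, [2, 3])])) (.hor [.f 842 3 1, .f 841 1 5] [(122, 105, [1, 3])]) .no .no .no) .no .no
  .no) (.red [.f 707 3 1, .f 699 1 3, .f 826 3 5] 105 136 [2, 2, 3] [(104, 136, [2, 2]), (105,
  136, [2, 2, 3])]) .no .no (.red [.t 826 3 2] 104 136 [2, 2] [(104, 136, [2, 2])])) .no .no .no)
  (.hor [.f 826 3 5] []) .no .no .no) .no (.red [.f 818 5 3, .t 825 1 4] 119 136 [2, 4] [(119,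
  136, [2, 4])]) .no) .no) .no (.br 826 .no (.use 442) (.use 432) (.red [.t 825 1 4, .f 944 3 5]
  119 136 [2, 4] [(119, 136, [2, 4])]) (.use 429) .no) (.red [.f 817 5 1, .f 817 1 3] 119 136 [2,
  4] [(119, 136, [2, 4])]) (.red [.t 952 4 2] 119 136 [2, 4] [(119, 136, [2, 4])])) .no) (.br 817
  .no (.use 444) .no (.br 826 .no (.br 834 .no (.use 441) (.use 290) .no (.use 281) (.red [.t 953
  2 3, .f 945 5 3, .f 944 3 5, .t 1088 4 2, .f 825 3 1] 136 136 [] [(136, 136, [])])) (.use 432)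
  (.red [.t 825 1 4, .f 944 3 5] 119 136 [2, 4] [(119, 136, [2, 4])]) (.use 429) .no) (.red [.f
  817 5 1, .f 817 1 3] 119 136 [2, 4] [(119, 136, [2, 4])]) (.red [.t 952 4 2] 119 136 [2, 4]
  [(119, 136, [2, 4])])) .no (.use 118) .no) .no (.red [.f 1099 3 1, .f 1091 1 3, .f 1090 3 5] 153
  136 [3, 1] [(153, 136, [3, 1]), (154, 136, [3, 3, 1])]) .no .no (.red [.t 1090 3 1, .t 954 3 1,
  .f 961 1 5] 153 136 [3, 1] [(136, 136, []), (153, 136, [3, 1])])) .no .no .no) .no .no .no) (.br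
  833 .no (.use 458) (.br 963 .no (.use 459) (.br 1099 (.red [.f 1091 1 3, .f 1090 3 5] 153 136
  [3, 1] [(153, 136, [3, 1])]) .no (.use 474) .no .no .no) .no .no .no) .no (.red [.t 953 2 3, .f
  945 5 3, .f 944 3 5, .t 1088 4 2, .f 825 3 1] 136 136 [] [(136, 136, [])]) .no) (.red [.f 816 3
  1, .f 824 1 5] 119 136 [2, 4] [(119, 136, [2, 4])]) .no .no

def c21t476 : Tr4 :=
  .br 816 .no (.red [.f 688 1 3] 103 136 [2, 4, 2] [(103, 136, [2, 4, 2])]) .no (.hor [.f 808 3 5]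
  []) .no .no

def c21t477 : Tr4 :=
  .br 826 .no (.use 476) (.use 432) (.red [.t 825 1 4, .f 944 3 5] 119 136 [2, 4] [(119, 136, [2,
  4])]) (.use 429) .no

def c21t478 : Tr4 :=
  .br 817 .no (.use 428) .no (.use 477) (.red [.f 817 5 1, .f 817 1 3] 119 136 [2, 4] [(119, 136,
  [2, 4])]) (.red [.t 952 4 2] 119 136 [2, 4] [(119, 136, [2, 4])])

def c21t479 : Tr4 :=
  .br 817 .no (.use 444) .no (.use 477) (.red [.f 817 5 1, .f 817 1 3] 119 136 [2, 4] [(119, 136,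
  [2, 4])]) (.red [.t 952 4 2] 119 136 [2, 4] [(119, 136, [2, 4])])

def c21t480 : Tr4 :=
  .br 811 .no .no .no (.hor [.f 802 3 5] []) .no .no

def c21t481 : Tr4 :=
  .br 810 .no (.use 449) .no (.use 480) (.red [.f 810 5 3, .f 809 3 5, .t 697 4 1] 103 136 [2, 2,
  4] [(103, 136, [2, 2, 4])]) .no

def c21t482 : Tr4 :=
  .br 810 .no (.use 448) .no (.br 690 .no (.hor [.f 562 1 5] []) .no (.br 811 .no (.red [.t 682 3
  1, .f 690 1 3, .f 689 3 5] 103 136 [2, 4, 2] [(102, 136, [2, 4, 2, 4]), (103, 136, [2, 4, 2])])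
  .no (.hor [.f 802 3 5] []) .no .no) .no .no) (.red [.f 810 5 3, .f 809 3 5, .t 697 4 1] 103 136
  [2, 4, 2] [(103, 136, [2, 4, 2])]) .no

def c21t483 : Tr4 :=
  .br 939 (.con 136 [2, 4, 4, 1, 3, 2]) (.con 136 [2, 4, 4, 1, 3, 2]) (.br 699 .no (.br 691 .no
  (.red [.f 563 1 3, .t 698 1 4] 103 136 [2, 2, 4] [(87, 136, [2, 2, 4, 2]), (103, 136, [2, 2,
  4])]) .no (.use 481) .no (.red [.f 690 5 1, .f 690 1 3] 103 136 [2, 2, 4] [(103, 136, [2, 2,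
  4])])) (.br 691 .no (.use 482) .no (.use 481) .no (.red [.f 699 3 1, .f 690 5 1, .f 690 1 3, .f
  699 1 3] 103 136 [2, 2, 4] [(103, 136, [2, 2, 4])])) (.red [.t 698 1 4] 103 136 [2, 2, 4] [(103,
  136, [2, 2, 4])]) .no .no) (.con 136 [2, 4, 4, 1, 3, 2]) .no .no

def c21t484 : Tr4 :=
  .br 963 .no (.br 826 .no (.use 47) (.con 136 [2, 2]) (.red [.t 825 1 4, .f 944 3 5] 119 136 [2,
  4] [(119, 136, [2, 4])]) (.br 1099 (.red [.f 1091 1 3, .f 1090 3 5] 153 136 [3, 1] [(153, 136,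
  [3, 1])]) (.use 445) (.use 188) .no .no .no) .no) (.br 1099 (.red [.f 1091 1 3, .f 1090 3 5] 153
  136 [3, 1] [(153, 136, [3, 1])]) .no (.br 826 .no (.br 817 .no (.use 447) .no (.br 834 .no (.hor
  [.f 705 1 5] []) (.br 1227 (.br 969 (.use 185) (.br 827 .no (.hor [.f 698 1 5] []) (.br 818 .no
  (.red [.f 690 1 3] 103 136 [2, 2, 4] [(103, 136, [2, 2, 4])]) .no (.hor [.f 809 3 5] []) (.br
  938 (.br 696 .no (.br 697 .no (.hor [.f 568 1 5] []) .no (.use 483) .no .no) (.hor [.f 696 3 1,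
  .f 704 1 5] [(104, 136, [2, 2])]) (.br 697 .no (.use 451) .no (.use 483) .no .no) (.hor [.t 832
  4 2, .t 968 4 2, .f 833 3 5] [(104, 136, [2, 2]), (121, 136, [2, 3])]) .no) (.red [.t 809 3 1,
  .f 817 1 3] 119 136 [2, 4] [(118, 136, [2, 4, 4]), (119, 136, [2, 4])]) .no (.use 452) (.con 136
  [2, 4, 4, 1, 3, 2]) (.red [.f 937 5 3, .f 809 3 1, .f 817 1 3] 119 136 [2, 4] [(118, 136, [2, 4,
  4]), (119, 136, [2, 4])])) .no) (.con 136 [2, 2, 4]) .no .no) (.use 290) .no (.use 175) .no) .no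
  (.red [.f 1099 3 1, .f 1091 1 3, .f 1090 3 5] 153 136 [3, 1] [(153, 136, [3, 1]), (154, 136, [3,
  3, 1])]) .no .no (.red [.t 1090 3 1, .t 954 3 1, .f 961 1 5] 153 136 [3, 1] [(136, 136, []),
  (153, 136, [3, 1])])) .no (.use 278) .no) (.red [.f 817 5 1, .f 817 1 3] 119 136 [2, 4] [(119,
  136, [2, 4])]) (.red [.t 952 4 2] 119 136 [2, 4] [(119, 136, [2, 4])])) (.use 321) (.red [.t 825
  1 4, .f 944 3 5] 119 136 [2, 4] [(119, 136, [2, 4])]) (.br 834 .no (.hor [.f 705 1 5] []) (.br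
  1227 (.br 969 (.use 185) (.br 1209 (.use 199) .no (.br 1097 (.use 456) .no (.use 54) .no .no
  (.use 274)) (.hor [.f 1073 3 1, .f 1081 1 5] [(151, 119, [1, 1])]) .no (.use 245)) (.use 290)
  .no (.use 175) .no) .no (.red [.f 1099 3 1, .f 1091 1 3, .f 1090 3 5] 153 136 [3, 1] [(153, 136,
  [3, 1]), (154, 136, [3, 3, 1])]) .no .no (.red [.t 1090 3 1, .t 954 3 1, .f 961 1 5] 153 136 [3,
  1] [(136, 136, []), (153, 136, [3, 1])])) .no (.use 455) .no) .no) .no .no .no) .no .no .no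

def c21t485 : Tr4 :=
  .br 810 .no (.red [.t 682 1 3, .f 809 3 5, .f 817 5 1, .f 817 1 3] 119 136 [2, 4] [(102, 101,
  [3]), (119, 136, [2, 4])]) .no (.use 480) (.red [.t 938 1 3, .f 810 5 1, .t 809 3 1] 118 136 [2,
  4, 4] [(118, 136, [2, 4, 4]), (134, 118, [1])]) .no

def c21t486 : Tr4 :=
  .br 691 .no (.use 482) .no (.use 485) .no (.red [.f 699 3 1, .f 690 5 1, .f 690 1 3, .f 699 1 3]
  103 136 [2, 2, 4] [(103, 136, [2, 2, 4])])

def c21t487 : Tr4 :=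
  .br 810 .no (.red [.t 682 1 3, .f 809 3 5, .f 817 5 1, .f 817 1 3] 119 136 [2, 4] [(102, 101,
  [3]), (119, 136, [2, 4])]) .no (.use 480) (.red [.f 810 5 3, .f 811 3 1] 118 136 [2, 4, 4]
  [(118, 136, [2, 4, 4])]) .no

def c21t488 : Tr4 :=
  .br 810 .no (.br 691 .no (.use 448) .no (.use 487) .no (.red [.f 699 3 1, .f 690 5 1, .f 690 1
  3, .f 699 1 3] 103 136 [2, 2, 4] [(103, 136, [2, 2, 4])])) .no (.red [.f 802 3 1, .t 809 3 1]
  118 136 [2, 4, 4] [(117, 136, [2, 4, 4, 4]), (118, 136, [2, 4, 4])]) (.red [.f 810 5 3, .f 809 3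
  5, .t 697 4 1] 103 136 [2, 2, 4] [(103, 136, [2, 2, 4])]) .no

def c21t489 : Tr4 :=
  .br 817 .no (.use 447) .no (.br 1227 (.br 969 (.use 185) .no (.br 818 .no (.red [.f 690 1 3] 103
  136 [2, 2, 4] [(103, 136, [2, 2, 4])]) .no (.hor [.f 809 3 5] []) (.br 970 .no (.br 939 (.con
  136 [2, 4, 4, 1, 3, 2]) (.con 136 [2, 4, 4, 1, 3, 2]) (.br 938 (.br 699 .no (.br 691 .no (.red
  [.f 563 1 3, .t 698 1 4] 103 136 [2, 2, 4] [(87, 136, [2, 2, 4, 2]), (103, 136, [2, 2, 4])]) .no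
  (.use 485) .no (.red [.f 698 1 3, .f 690 5 1, .f 698 3 1, .f 690 1 3] 103 136 [2, 2, 4] [(103,
  136, [2, 2, 4])])) (.br 705 .no (.br 704 .no (.hor [.f 576 1 5] []) (.con 136 [2, 2, 2, 3]) (.br
  697 .no (.use 291) .no (.use 486) .no .no) .no .no) (.red [.f 699 3 1, .f 698 1 5, .f 705 3 1]
  105 136 [2, 2, 3] [(104, 103, [3]), (105, 136, [2, 2, 3])]) (.use 463) .no (.br 697 .no (.use
  464) .no (.use 486) .no (.hor [.f 696 5 3, .f 696 3 1, .f 698 1 3, .f 697 3 5, .f 826 3 5] [])))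
  (.red [.t 698 1 4] 103 136 [2, 2, 4] [(103, 136, [2, 2, 4])]) .no .no) (.red [.t 938 2 3, .f 809
  3 5] 118 136 [2, 4, 4] [(118, 136, [2, 4, 4])]) .no (.br 699 .no (.br 691 .no (.red [.f 563 1 3,
  .t 698 1 4] 103 136 [2, 2, 4] [(87, 136, [2, 2, 4, 2]), (103, 136, [2, 2, 4])]) .no (.use 487)
  .no (.red [.f 698 1 3, .f 690 5 1, .f 698 3 1, .f 690 1 3] 103 136 [2, 2, 4] [(103, 136, [2, 2,
  4])])) (.br 705 .no (.br 704 .no (.hor [.f 576 1 5] []) (.con 136 [2, 2, 2, 3]) (.br 697 .no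
  (.use 291) .no (.use 488) .no .no) .no .no) (.red [.f 699 3 1, .f 698 1 5, .f 705 3 1] 105 136
  [2, 2, 3] [(104, 103, [3]), (105, 136, [2, 2, 3])]) (.use 463) .no (.br 697 .no (.use 464) .no
  (.use 488) .no (.hor [.f 696 5 3, .f 696 3 1, .f 698 1 3, .f 697 3 5, .f 826 3 5] []))) (.red
  [.t 698 1 4] 103 136 [2, 2, 4] [(103, 136, [2, 2, 4])]) .no .no) .no (.red [.f 937 5 3, .f 809 3
  1, .f 817 1 3] 119 136 [2, 4] [(118, 136, [2, 4, 4]), (119, 136, [2, 4])])) (.con 136 [2, 4, 4,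
  1, 3, 2]) .no (.con 136 [2, 4, 4, 1, 3, 2])) (.hor [.f 969 3 5] []) .no .no .no) .no) .no (.use
  175) .no) .no (.red [.f 1099 3 1, .f 1091 1 3, .f 1090 3 5] 153 136 [3, 1] [(153, 136, [3, 1]),
  (154, 136, [3, 3, 1])]) .no .no (.red [.t 1090 3 1, .t 954 3 1, .f 961 1 5] 153 136 [3, 1]
  [(136, 136, []), (153, 136, [3, 1])])) (.red [.f 817 5 1, .f 817 1 3] 119 136 [2, 4] [(119, 136,
  [2, 4])]) (.red [.t 952 4 2] 119 136 [2, 4] [(119, 136, [2, 4])])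

def c21t490 : Tr4 :=
  .br 808 (.con 136 [2, 2, 4, 4, 1, 1, 3, 3]) (.con 136 [2, 2, 4, 4, 1, 1, 3, 3]) (.hor [.f 808 3
  5] []) (.con 136 [2, 2, 4, 4, 1, 1, 3, 3]) .no .no

def c21t491 : Tr4 :=
  .br 1099 (.red [.f 1091 1 3, .f 1090 3 5] 153 136 [3, 1] [(153, 136, [3, 1])]) .no (.br 826 .no
  (.br 834 .no (.br 835 .no (.hor [.f 706 1 5] []) (.con 136 [2, 2, 3]) (.use 489) .no .no) (.hor
  [.f 833 3 5] []) .no (.use 278) .no) (.use 321) (.red [.t 825 1 4, .f 944 3 5] 119 136 [2, 4]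
  [(119, 136, [2, 4])]) (.br 817 .no (.use 467) .no (.br 1227 (.br 969 (.use 185) .no (.br 818 .no
  (.br 970 .no (.br 835 .no (.use 465) (.con 136 [2, 3, 2]) .no .no (.br 698 .no (.use 468) (.red
  [.f 826 5 3, .f 698 3 1] 104 136 [2, 2] [(104, 136, [2, 2])]) .no (.red [.f 698 5 1, .f 690 1 3,
  .t 825 1 4] 103 136 [2, 2, 4] [(103, 136, [2, 2, 4]), (119, 136, [2, 4])]) (.br 705 .no (.use
  469) (.red [.f 826 5 3, .f 705 3 1] 105 136 [2, 2, 3] [(105, 136, [2, 2, 3])]) .no (.red [.f 826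
  5 3, .f 697 5 3, .f 698 3 1] 104 136 [2, 2] [(104, 136, [2, 2])]) (.br 699 .no (.br 696 .no (.br
  691 (.hor [.f 690 1 5] []) (.red [.f 563 1 3] 87 136 [2, 2, 2, 4] [(87, 136, [2, 2, 2, 4])]) .no
  (.br 810 (.red [.t 809 3 1, .f 817 1 3] 119 136 [2, 4] [(118, 136, [2, 4, 4]), (119, 136, [2,
  4])]) (.red [.f 682 1 3, .f 809 3 5, .f 817 5 1, .f 817 1 3] 119 136 [2, 4] [(102, 101, [3]),
  (119, 136, [2, 4])]) .no (.br 819 (.br 569 .no (.br 689 .no (.use 470) .no (.red [.f 681 3 1, .f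
  689 1 5, .f 817 5 1, .f 817 1 3] 119 136 [2, 4] [(102, 86, [1]), (119, 136, [2, 4])]) .no (.use
  490)) (.red [.t 568 1 3] 88 136 [2, 2, 2] [(88, 136, [2, 2, 2])]) (.br 689 .no .no .no (.red [.f
  681 3 1, .f 689 1 5, .f 817 5 1, .f 817 1 3] 119 136 [2, 4] [(102, 86, [1]), (119, 136, [2,
  4])]) .no (.use 490)) (.red [.f 569 5 1, .f 570 1 5, .f 698 5 1, .f 690 1 3] 103 136 [2, 2, 4]
  [(103, 136, [2, 2, 4])]) .no) .no .no (.red [.f 683 3 1, .f 690 1 5, .f 818 5 3, .t 825 1 4] 119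
  136 [2, 4] [(102, 103, [4]), (119, 136, [2, 4])]) .no .no) (.red [.t 690 1 4, .f 809 3 5, .f 817
  5 1, .f 817 1 3] 119 136 [2, 4] [(102, 103, [4]), (119, 136, [2, 4])]) .no) .no .no) .no (.con
  136 [2, 2, 2, 4]) .no .no) (.con 136 [2, 2, 2]) (.red [.t 690 1 3, .t 825 1 4] 103 136 [2, 2, 4]
  [(103, 136, [2, 2, 4]), (119, 136, [2, 4])]) .no .no)))) (.hor [.f 969 3 5] []) .no .no .no) .no
  (.hor [.f 809 3 5] []) (.red [.f 818 5 3, .t 825 1 4] 119 136 [2, 4] [(119, 136, [2, 4])]) .no)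
  .no (.use 175) .no) .no (.red [.f 1099 3 1, .f 1091 1 3, .f 1090 3 5] 153 136 [3, 1] [(153, 136,
  [3, 1]), (154, 136, [3, 3, 1])]) .no .no (.red [.t 1090 3 1, .t 954 3 1, .f 961 1 5] 153 136 [3,
  1] [(136, 136, []), (153, 136, [3, 1])])) (.red [.f 817 5 1, .f 817 1 3] 119 136 [2, 4] [(119,
  136, [2, 4])]) (.red [.t 952 4 2] 119 136 [2, 4] [(119, 136, [2, 4])])) .no) .no .no .no

def c21t492 : Tr4 :=
  .br 1226 (.hor [.f 1226 1 5] []) .no (.br 1225 (.con 136 [3, 1, 3, 1]) .no (.hor [.f 1225 3 5]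
  []) .no .no (.con 136 [3, 1, 3, 1])) .no .no (.red [.f 1217 5 3, .f 1090 3 1] 153 136 [3, 1]
  [(153, 136, [3, 1])])

def c21t493 : Tr4 :=
  .br 1227 (.use 492) .no (.red [.f 1099 3 1, .f 1091 1 3, .f 1090 3 5] 154 136 [3, 1, 3] [(153,
  136, [3, 1]), (154, 136, [3, 1, 3])]) .no .no (.red [.t 1090 3 1, .t 954 3 1, .f 961 1 5] 153
  136 [3, 1] [(136, 136, []), (153, 136, [3, 1])])

def c21t494 : Tr4 :=
  .br 1099 (.red [.f 1091 1 3, .f 1090 3 5] 153 136 [3, 1] [(153, 136, [3, 1])]) .no (.use 493)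
  .no .no .no

def c21t495 : Tr4 :=
  .br 817 .no (.use 5) .no (.red [.f 809 3 1, .f 817 1 3] 119 136 [2, 4] [(118, 136, [2, 4, 4]),
  (119, 136, [2, 4])]) (.use 23) (.red [.t 952 4 2] 119 136 [2, 4] [(119, 136, [2, 4])])

def c21t496 : Tr4 :=
  .br 834 .no (.br 817 .no (.use 223) .no (.red [.f 809 3 1, .f 817 1 3] 119 136 [2, 4] [(118,
  136, [2, 4, 4]), (119, 136, [2, 4])]) (.br 963 .no (.use 23) (.use 494) .no .no .no) (.red [.t
  952 4 2] 119 136 [2, 4] [(119, 136, [2, 4])])) (.br 963 .no (.use 495) (.use 494) .no .no .no)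
  (.red [.f 826 3 1, .f 825 1 5, .t 1073 3 2, .f 953 1 3, .t 961 4 2] 136 136 [] [(135, 136, [4]),
  (136, 136, [])]) (.use 282) (.red [.t 953 2 3, .t 1073 3 2, .f 953 1 3, .f 825 3 1] 136 136 []
  [(135, 136, [4]), (136, 136, [])])

def c21t497 : Tr4 :=
  .br 939 .no (.br 816 .no (.red [.f 688 1 3] 103 136 [2, 4, 2] [(103, 136, [2, 4, 2])]) .no (.con
  136 [2, 4, 4, 2]) .no .no) .no (.red [.f 931 3 1, .f 938 1 5] 133 136 [4, 4, 4] [(133, 136, [4,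
  4, 4])]) .no .no

def c21l18 : List Tr4 :=
  [c21t475, c21t476, c21t477, c21t478, c21t479, c21t480, c21t481, c21t482, c21t483, c21t484,
  c21t485, c21t486, c21t487, c21t488, c21t489, c21t490, c21t491, c21t492, c21t493, c21t494,
  c21t495, c21t496, c21t497]

theorem c21k18 : chkLF ⟨4, 0, 0, true, -8⟩ false 1 c21N 475 c21l18 = true := by decide +kernel

def c21t498 : Tr4 :=
  .br 827 .no (.br 1202 (.use 32) .no .no (.br 938 (.br 1067 (.br 1201 (.red [.f 1201 1 3, .f 1073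
  3 1, .f 1081 1 5, .t 961 1 4] 136 136 [] [(136, 136, []), (151, 135, [1]), (167, 168, [4])]) .no
  .no (.use 33) .no (.hor [.f 946 5 1, .f 946 1 5, .t 1194 3 2, .f 1074 1 3, .f 1073 3 5] [(150,
  119, [1, 1, 4]), (151, 119, [1, 1])])) (.hor [.f 938 1 5] []) .no (.use 497) .no .no) (.red [.t
  937 3 2, .f 817 1 3] 119 136 [2, 4] [(118, 136, [2, 4, 4]), (119, 136, [2, 4])]) .no (.br 816
  .no (.red [.f 688 1 3] 103 136 [2, 2, 4] [(103, 136, [2, 2, 4])]) .no (.use 31) .no .no) (.red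
  [.f 938 5 3, .f 937 3 5, .f 817 5 1, .f 817 1 3] 119 136 [2, 4] [(119, 136, [2, 4])]) .no) (.red
  [.f 1074 5 1, .f 1074 1 3, .f 1073 3 5, .t 961 1 4] 136 136 [] [(136, 136, []), (151, 135,
  [1])]) (.red [.f 826 3 1, .f 826 1 3, .t 1081 4 1, .t 961 1 4] 136 136 [] [(136, 136, []), (151,
  135, [1])])) .no (.con 136 [2, 2, 4]) .no .no

def c21t499 : Tr4 :=
  .br 946 (.use 496) (.use 6) .no (.hor [.f 937 3 5] []) (.br 963 .no (.br 1099 (.red [.f 1091 1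
  3, .f 1090 3 5] 153 136 [3, 1] [(153, 136, [3, 1])]) (.br 960 .no (.br 817 .no (.use 21) .no
  (.red [.f 809 3 1, .f 817 1 3] 119 136 [2, 4] [(118, 136, [2, 4, 4]), (119, 136, [2, 4])]) (.br
  1074 (.hor [.f 1074 1 3, .f 1073 3 5] [(151, 119, [1, 1])]) .no .no (.use 26) (.br 1211 (.br 826
  .no (.use 22) (.use 498) .no (.br 1208 (.hor [.f 1208 1 5] []) .no (.br 1096 (.con 136 [3, 3,
  1]) (.br 969 .no (.br 1227 (.use 492) .no (.br 970 .no (.hor [.f 841 1 5] []) (.br 1107 .no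
  (.hor [.f 971 1 3, .f 970 3 5] [(138, 136, [3, 3])]) (.br 1106 (.red [.t 962 4 2, .t 1098 4 2,
  .t 1234 2 4, .f 1091 1 3, .f 963 3 1] 154 136 [3, 3, 1] [(120, 119, [3]), (153, 136, [3, 1]),
  (154, 136, [3, 3, 1])]) .no (.hor [.f 1106 3 5] []) .no .no .no) .no .no (.red [.t 970 3 1, .f
  1099 3 1] 154 136 [3, 3, 1] [(138, 136, [3, 3]), (154, 136, [3, 3, 1])])) .no .no .no) .no .no
  (.red [.t 1090 3 1, .t 954 3 1, .f 961 1 5] 153 136 [3, 1] [(136, 136, []), (153, 136, [3,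
  1])])) (.br 1227 (.use 492) .no (.br 1226 (.br 1345 (.br 1225 (.hor [.f 1225 1 5] []) .no (.red
  [.f 969 3 1, .f 969 1 3, .f 1097 3 1] 154 136 [3, 3, 1] [(154, 136, [3, 3, 1])]) .no .no (.br
  1344 (.hor [.f 1344 1 5] []) .no (.br 1346 (.hor [.f 1345 1 5] []) .no .no (.red [.t 1337 2 3,
  .f 1208 3 5] 168 136 [1, 1] [(168, 136, [1, 1])]) (.con 136 [3, 1, 1, 1]) .no) (.red [.f 1208 3
  1, .f 1208 1 5] 168 136 [1, 1] [(168, 136, [1, 1])]) .no .no)) .no (.red [.t 1353 4 2, .f 1209 1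
  3] 169 136 [3, 1, 1] [(168, 136, [1, 1]), (169, 136, [3, 1, 1])]) .no (.red [.f 1217 5 1, .f
  1209 1 3] 168 136 [1, 1] [(168, 136, [1, 1])]) (.red [.t 1208 3 1] 168 136 [1, 1] [(168, 136,
  [1, 1])])) .no (.hor [.f 1226 3 5] []) .no .no (.red [.f 1217 5 3, .f 1090 3 1] 153 136 [3, 1]
  [(153, 136, [3, 1])])) .no .no (.red [.t 1090 3 1, .t 954 3 1, .f 961 1 5] 153 136 [3, 1] [(136,
  136, []), (153, 136, [3, 1])])) .no (.red [.f 1080 3 1, .t 1089 2 3, .f 1089 5 1, .f 1082 1 3,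
  .f 954 3 1, .f 962 1 3] 136 136 [] [(136, 136, [])]) .no) (.hor [.f 1096 3 5] []) .no .no .no)
  (.use 42) .no .no) .no) .no .no (.hor [.t 1210 2 4, .f 1073 3 5] [(151, 119, [1, 1])]) .no .no)
  .no) (.red [.t 952 4 2] 119 136 [2, 4] [(119, 136, [2, 4])])) (.use 78) .no .no .no) (.use 493)
  .no .no .no) (.use 494) .no .no .no) .no

def c21t500 : Tr4 :=
  .br 960 .no (.use 478) (.use 479) .no .no .no

def c21t501 : Tr4 :=
  .br 817 .no (.use 21) .no (.red [.f 809 3 1, .f 817 1 3] 119 136 [2, 4] [(118, 136, [2, 4, 4]),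
  (119, 136, [2, 4])]) (.br 1074 (.hor [.f 1074 1 3, .f 1073 3 5] [(151, 119, [1, 1])]) .no .no
  (.use 26) (.br 1211 (.br 826 .no (.use 22) (.use 34) .no (.use 43) .no) .no .no (.hor [.t 1210 2
  4, .f 1073 3 5] [(151, 119, [1, 1])]) .no .no) .no) (.red [.t 952 4 2] 119 136 [2, 4] [(119,
  136, [2, 4])])

def c21t502 : Tr4 :=
  .br 1226 (.hor [.f 1226 1 5] []) .no (.br 1225 (.con 136 [3, 3, 1, 1]) .no (.hor [.f 1225 3 5]
  []) .no .no (.con 136 [3, 3, 1, 1])) .no .no (.red [.f 1217 5 3, .f 1090 3 1] 153 136 [3, 1]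
  [(153, 136, [3, 1])])

def c21t503 : Tr4 :=
  .br 1227 (.use 502) .no (.red [.f 1099 3 1, .f 1091 1 3, .f 1090 3 5] 154 136 [3, 3, 1] [(153,
  136, [3, 1]), (154, 136, [3, 3, 1])]) .no .no (.red [.t 1090 3 1, .t 954 3 1, .f 961 1 5] 153
  136 [3, 1] [(136, 136, []), (153, 136, [3, 1])])

def c21t504 : Tr4 :=
  .br 1099 (.red [.f 1091 1 3, .f 1090 3 5] 153 136 [3, 1] [(153, 136, [3, 1])]) .no (.use 503)
  .no .no .no

def c21t505 : Tr4 :=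
  .br 816 .no (.red [.f 688 1 3] 103 136 [2, 2, 4] [(103, 136, [2, 2, 4])]) .no (.br 819 .no (.con
  136 [2, 2, 4, 4]) .no (.use 166) .no .no) .no .no

def c21t506 : Tr4 :=
  .br 817 .no (.use 80) .no (.red [.f 809 3 1, .f 817 1 3] 119 136 [2, 4] [(118, 136, [2, 4, 4]),
  (119, 136, [2, 4])]) (.br 826 .no (.use 22) (.use 107) .no (.use 25) .no) (.red [.t 952 4 2] 119
  136 [2, 4] [(119, 136, [2, 4])])

def c21t507 : Tr4 :=
  .br 1226 (.hor [.f 1226 1 5] []) .no (.br 1225 (.con 136 [3, 1, 3, 1]) .no (.hor [.f 1225 3 5]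
  []) .no .no (.con 136 [3, 1, 3, 1])) .no .no (.red [.f 1217 5 3, .f 1090 3 1] 153 136 [3, 1]
  [(153, 136, [3, 1])])

def c21t508 : Tr4 :=
  .br 1227 (.use 507) .no (.red [.f 1099 3 1, .f 1091 1 3, .f 1090 3 5] 154 136 [3, 3, 1] [(153,
  136, [3, 1]), (154, 136, [3, 3, 1])]) .no .no (.red [.t 1090 3 1, .t 954 3 1, .f 961 1 5] 153
  136 [3, 1] [(136, 136, []), (153, 136, [3, 1])])

def c21t509 : Tr4 :=
  .br 1099 (.red [.f 1091 1 3, .f 1090 3 5] 153 136 [3, 1] [(153, 136, [3, 1])]) (.use 72) (.use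
  508) .no .no .no

def c21t510 : Tr4 :=
  .br 833 .no (.hor [.f 704 1 5] []) .no .no (.red [.t 953 2 3, .f 696 1 3, .f 824 3 5, .t 968 4
  2] 121 136 [2, 3] [(104, 105, [4]), (120, 119, [3]), (121, 136, [2, 3])]) .no

def c21t511 : Tr4 :=
  .br 832 .no (.use 510) (.red [.f 832 3 1, .f 840 1 5] 121 136 [2, 3] [(121, 136, [2, 3])]) .no
  (.red [.t 968 4 2] 121 136 [2, 3] [(121, 136, [2, 3])]) .no

def c21t512 : Tr4 :=
  .br 832 .no (.use 105) (.red [.f 832 3 1] 121 136 [2, 3] [(121, 136, [2, 3])]) .no (.br 842 .no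
  (.br 841 .no (.hor [.f 713 1 5] []) (.br 1226 (.br 1225 (.hor [.f 1225 1 5] []) .no (.br 1107
  .no (.red [.f 971 1 3] 138 136 [3, 3] [(138, 136, [3, 3])]) (.br 977 (.red [.t 960 3 1, .f 1089
  3 5, .f 969 5 1, .f 969 1 3] 138 136 [3, 3] [(137, 121, [1]), (138, 136, [3, 3])]) .no (.br 978
  (.con 136 [3, 3, 3]) (.red [.t 849 4 1, .t 968 4 2] 122 136 [2, 3, 3] [(121, 136, [2, 3]), (122,
  136, [2, 3, 3])]) (.hor [.f 977 3 5] []) .no (.br 1105 .no .no (.red [.f 977 3 1] 139 136 [3, 3,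
  3] [(139, 136, [3, 3, 3])]) .no (.red [.t 960 3 1, .f 1089 3 5, .f 1097 5 3, .t 1098 3 2] 138
  136 [3, 3] [(137, 121, [1]), (138, 136, [3, 3])]) (.red [.f 1096 5 3, .f 1097 3 1, .t 1097 1 4]
  154 136 [3, 3, 1] [(153, 136, [3, 1]), (154, 136, [3, 3, 1])])) .no) .no (.red [.f 969 5 3, .f
  841 3 1, .t 968 4 2] 122 136 [2, 3, 3] [(121, 136, [2, 3]), (122, 136, [2, 3, 3])]) (.red [.t
  1089 2 3, .f 960 3 5, .f 968 5 3, .f 841 3 1] 122 136 [2, 3, 3] [(122, 136, [2, 3, 3]), (137,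
  121, [1])])) .no .no (.red [.t 1089 2 3, .f 970 1 5, .f 1098 5 3, .f 1099 3 1] 154 136 [3, 3, 1]
  [(137, 121, [1]), (154, 136, [3, 3, 1])])) .no .no (.red [.f 1096 5 1, .t 1097 1 4] 153 136 [3,
  1] [(153, 136, [3, 1])])) .no (.hor [.f 1226 3 5] []) .no .no (.use 154)) .no .no (.red [.f 832
  5 3, .f 832 3 1] 121 136 [2, 3] [(121, 136, [2, 3])])) (.use 436) .no (.red [.t 1089 2 3, .f 970
  1 5, .f 842 5 1, .f 835 1 3] 121 136 [2, 3] [(121, 136, [2, 3]), (137, 121, [1])]) (.red [.f 841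
  5 1, .t 968 4 2] 121 136 [2, 3] [(121, 136, [2, 3])])) .no

def c21t513 : Tr4 :=
  .br 1209 (.br 1074 (.hor [.f 1074 1 3, .f 1073 3 5] [(151, 119, [1, 1])]) .no .no (.use 506)
  (.br 817 .no (.use 148) .no (.red [.f 809 3 1, .f 817 1 3] 119 136 [2, 4] [(118, 136, [2, 4,
  4]), (119, 136, [2, 4])]) (.br 826 .no (.use 22) (.br 832 .no (.use 105) (.red [.f 832 3 1] 121
  136 [2, 3] [(121, 136, [2, 3])]) .no (.br 1211 (.br 1208 (.hor [.f 1208 1 5] []) .no (.br 969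
  .no (.red [.t 968 4 2] 121 136 [2, 3] [(121, 136, [2, 3])]) (.use 509) .no (.red [.f 1080 3 1,
  .t 1089 2 3, .f 1089 5 1, .f 1082 1 3, .f 954 3 1, .f 962 1 3] 136 136 [] [(136, 136, [])]) .no)
  (.use 152) .no .no) .no .no (.hor [.t 1210 2 4, .f 1073 3 5] [(151, 119, [1, 1])]) .no .no) .no)
  .no (.br 1099 (.red [.f 1091 1 3, .f 1090 3 5] 153 136 [3, 1] [(153, 136, [3, 1])]) (.br 1211
  (.br 969 .no (.use 511) (.use 72) .no (.br 834 .no (.use 437) (.red [.t 1089 2 3, .f 970 1 5, .t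
  834 3 1] 121 136 [2, 3] [(121, 136, [2, 3]), (137, 121, [1])]) .no .no (.br 1208 (.hor [.f 1208
  1 5] []) .no (.red [.f 1080 3 1, .t 1089 2 3, .f 1089 5 1, .f 1082 1 3, .f 954 3 1, .f 962 1 3]
  136 136 [] [(136, 136, [])]) (.br 938 (.br 1202 (.use 134) .no .no (.br 1067 (.hor [.f 946 5 1,
  .f 946 1 5, .t 1194 3 2, .f 1074 1 3, .f 1073 3 5] [(150, 119, [1, 1, 4]), (151, 119, [1, 1])])
  (.hor [.f 938 1 5] []) .no (.use 497) .no .no) (.red [.f 1074 5 1, .f 1074 1 3, .f 1073 3 5, .t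
  961 1 4] 136 136 [] [(136, 136, []), (151, 135, [1])]) (.red [.t 953 2 3, .t 833 4 1, .t 1081 4
  1, .t 961 1 4] 136 136 [] [(136, 136, []), (151, 135, [1])])) (.red [.t 937 3 2, .f 817 1 3] 119
  136 [2, 4] [(118, 136, [2, 4, 4]), (119, 136, [2, 4])]) .no (.use 505) (.red [.f 938 5 3, .f 937
  3 5, .f 817 5 1, .f 817 1 3] 119 136 [2, 4] [(119, 136, [2, 4])]) .no) .no .no)) .no) .no .no
  (.hor [.t 1210 2 4, .f 1073 3 5] [(151, 119, [1, 1])]) .no .no) (.use 508) .no .no .no) .no)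
  (.red [.t 952 4 2] 119 136 [2, 4] [(119, 136, [2, 4])])) .no) .no .no (.hor [.f 1073 3 1, .f
  1081 1 5] [(151, 119, [1, 1])]) .no (.br 969 .no (.use 511) (.use 509) .no (.br 1099 (.red [.f
  1091 1 3, .f 1090 3 5] 153 136 [3, 1] [(153, 136, [3, 1])]) (.br 1074 (.hor [.f 1074 1 3, .f
  1073 3 5] [(151, 119, [1, 1])]) .no .no (.use 506) (.br 1227 (.use 507) .no (.br 834 .no (.use
  437) (.red [.t 1089 2 3, .f 970 1 5, .t 834 3 1] 121 136 [2, 3] [(121, 136, [2, 3]), (137, 121,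
  [1])]) (.use 512) .no (.br 832 .no (.use 142) (.red [.f 832 3 1] 121 136 [2, 3] [(121, 136, [2,
  3])]) .no .no .no)) .no .no (.red [.t 1090 3 1, .t 954 3 1, .f 961 1 5] 153 136 [3, 1] [(136,
  136, []), (153, 136, [3, 1])])) .no) (.use 508) .no .no .no) .no)

def c21t514 : Tr4 :=
  .br 834 .no (.use 45) (.red [.t 960 3 1, .t 824 3 1, .f 953 3 5, .t 841 1 4] 121 136 [2, 3]
  [(120, 104, [1]), (121, 136, [2, 3]), (137, 121, [1])]) .no .no (.red [.t 953 2 3, .f 824 3 5,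
  .t 968 4 2] 121 136 [2, 3] [(120, 104, [1]), (121, 136, [2, 3])])

def c21t515 : Tr4 :=
  .br 1227 (.use 507) .no (.br 1226 (.br 1225 (.hor [.f 1225 1 5] []) .no (.br 1224 (.red [.f 1216
  1 3] 169 136 [3, 1, 1] [(169, 136, [3, 1, 1])]) .no (.hor [.f 1224 3 5] []) .no .no .no) .no .no
  (.red [.f 1096 5 1, .t 1097 1 4] 153 136 [3, 1] [(153, 136, [3, 1])])) .no (.hor [.f 1226 3 5]
  []) .no .no (.red [.f 1217 5 3, .f 1090 3 1] 153 136 [3, 1] [(153, 136, [3, 1])])) .no .no (.red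
  [.t 1090 3 1, .t 954 3 1, .f 961 1 5] 153 136 [3, 1] [(136, 136, []), (153, 136, [3, 1])])

def c21t516 : Tr4 :=
  .br 960 .no (.br 824 .no (.br 945 .no (.red [.f 817 1 3] 119 136 [2, 4] [(119, 136, [2, 4])])
  .no (.br 946 (.br 834 .no (.br 817 .no (.use 223) .no (.red [.f 809 3 1, .f 817 1 3] 119 136 [2,
  4] [(118, 136, [2, 4, 4]), (119, 136, [2, 4])]) (.br 963 .no (.use 23) (.use 504) .no .no .no)
  (.red [.t 952 4 2] 119 136 [2, 4] [(119, 136, [2, 4])])) (.br 963 .no (.use 495) (.use 504) .no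
  .no .no) (.red [.f 826 3 1, .f 825 1 5, .t 1073 3 2, .f 953 1 3, .t 961 4 2] 136 136 [] [(135,
  136, [4]), (136, 136, [])]) (.use 228) (.red [.t 953 2 3, .t 1073 3 2, .f 953 1 3, .f 825 3 1]
  136 136 [] [(135, 136, [4]), (136, 136, [])])) (.use 6) .no (.hor [.f 937 3 5] []) (.br 963 .no
  (.br 1209 (.br 817 .no (.use 21) .no (.red [.f 809 3 1, .f 817 1 3] 119 136 [2, 4] [(118, 136,
  [2, 4, 4]), (119, 136, [2, 4])]) (.br 1074 (.hor [.f 1074 1 3, .f 1073 3 5] [(151, 119, [1,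
  1])]) .no .no (.use 26) (.br 1211 (.br 826 .no (.use 22) (.use 498) .no (.br 1208 (.hor [.f 1208
  1 5] []) .no (.br 1202 (.use 40) .no .no (.br 938 (.br 1067 (.br 1200 (.hor [.f 946 5 1, .f 946
  1 5, .t 1194 3 2, .f 1074 1 3, .f 1073 3 5] [(150, 119, [1, 1, 4]), (151, 119, [1, 1])]) (.br
  1201 (.hor [.f 1201 1 3, .f 1073 3 1, .f 1072 1 5] [(151, 119, [1, 1]), (167, 168, [4])]) .no
  .no (.use 41) .no .no) .no (.hor [.f 946 5 1, .f 946 1 5, .t 1194 3 2, .f 1074 1 3, .f 1073 3 5]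
  [(150, 119, [1, 1, 4]), (151, 119, [1, 1])]) (.hor [.f 946 5 1, .f 946 1 5, .t 1194 3 2, .f 1074
  1 3, .f 1073 3 5] [(150, 119, [1, 1, 4]), (151, 119, [1, 1])]) .no) (.hor [.f 938 1 5] []) .no
  (.use 497) .no .no) (.red [.t 937 3 2, .f 817 1 3] 119 136 [2, 4] [(118, 136, [2, 4, 4]), (119,
  136, [2, 4])]) .no (.use 505) (.red [.f 938 5 3, .f 937 3 5, .f 817 5 1, .f 817 1 3] 119 136 [2,
  4] [(119, 136, [2, 4])]) .no) (.red [.f 1074 5 1, .f 1074 1 3, .f 1073 3 5, .t 961 1 4] 136 136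
  [] [(136, 136, []), (151, 135, [1])]) (.red [.t 962 4 2, .t 826 1 3, .t 1081 4 1, .t 961 1 4]
  136 136 [] [(136, 136, []), (151, 135, [1])])) (.use 42) .no .no) .no) .no .no (.hor [.t 1210 2
  4, .f 1073 3 5] [(151, 119, [1, 1])]) .no .no) .no) (.red [.t 952 4 2] 119 136 [2, 4] [(119,
  136, [2, 4])])) .no .no (.hor [.f 1073 3 1, .f 1081 1 5] [(151, 119, [1, 1])]) .no (.use 501))
  (.use 504) .no .no .no) .no) (.use 478) .no) .no (.red [.f 816 3 1, .f 824 1 5] 119 136 [2, 4]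
  [(119, 136, [2, 4])]) .no .no) (.br 963 .no (.br 824 .no (.br 945 .no (.red [.f 817 1 3] 119 136
  [2, 4] [(119, 136, [2, 4])]) .no (.br 946 (.br 834 .no (.use 46) (.use 495) (.red [.f 826 3 1,
  .f 825 1 5, .t 1073 3 2, .f 953 1 3, .t 961 4 2] 136 136 [] [(135, 136, [4]), (136, 136, [])])
  .no (.red [.t 953 2 3, .t 1073 3 2, .f 953 1 3, .f 825 3 1] 136 136 [] [(135, 136, [4]), (136,
  136, [])])) (.use 6) .no (.hor [.f 937 3 5] []) (.use 513) .no) (.use 440) .no) (.br 1099 (.red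
  [.f 1091 1 3, .f 1090 3 5] 153 136 [3, 1] [(153, 136, [3, 1])]) (.br 826 .no (.use 47) (.con 136
  [2, 2]) (.br 945 .no (.red [.f 817 1 3, .f 817 3 5] 119 136 [2, 4] [(119, 136, [2, 4])]) .no
  (.br 817 .no (.br 969 .no (.use 514) (.use 72) .no (.br 834 .no (.use 45) (.red [.t 1089 2 3, .f
  970 1 5, .t 834 3 1] 121 136 [2, 3] [(121, 136, [2, 3]), (137, 121, [1])]) .no .no (.br 946
  (.red [.t 953 2 3, .t 1073 3 2, .f 818 3 1, .f 826 1 3] 119 136 [2, 4] [(119, 136, [2, 4]),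
  (135, 136, [4])]) .no .no (.hor [.f 937 3 5] []) (.br 1074 (.hor [.f 1074 1 3, .f 1073 3 5]
  [(151, 119, [1, 1])]) .no .no (.use 90) (.br 1216 (.br 1211 (.br 1209 (.br 1208 (.hor [.f 1208 1
  5] []) .no .no (.use 170) .no .no) .no .no (.hor [.f 1073 3 1, .f 1081 1 5] [(151, 119, [1,
  1])]) .no (.use 174)) .no .no (.hor [.t 1210 2 4, .f 1073 3 5] [(151, 119, [1, 1])]) .no .no)
  .no (.red [.t 960 3 1, .t 1096 2 4, .t 1089 2 3, .f 1089 5 1, .t 1216 3 2, .f 961 3 1] 153 136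
  [3, 1] [(153, 136, [3, 1])]) (.red [.f 1080 3 1, .t 1089 2 3, .f 1089 5 1, .f 1082 1 3, .f 954 3
  1, .f 962 1 3] 136 136 [] [(136, 136, [])]) .no .no) .no) .no)) .no) .no (.red [.f 809 3 1, .f
  817 1 3] 119 136 [2, 4] [(118, 136, [2, 4, 4]), (119, 136, [2, 4])]) .no (.red [.t 952 4 2, .f
  817 3 5] 119 136 [2, 4] [(119, 136, [2, 4])])) (.red [.t 825 1 4, .f 944 3 5] 119 136 [2, 4]
  [(119, 136, [2, 4])]) .no) (.br 969 .no (.use 108) (.use 72) .no (.br 1216 (.use 515) .no (.red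
  [.t 960 3 1, .t 1096 2 4, .t 1089 2 3, .f 1089 5 1, .t 1216 3 2, .f 961 3 1] 153 136 [3, 1]
  [(153, 136, [3, 1])]) (.red [.f 1080 3 1, .t 1089 2 3, .f 1089 5 1, .f 1082 1 3, .f 954 3 1, .f
  962 1 3] 136 136 [] [(136, 136, [])]) .no .no) .no) .no) (.use 508) .no .no .no) (.red [.f 816 3
  1, .f 824 1 5] 119 136 [2, 4] [(119, 136, [2, 4])]) .no .no) (.use 504) .no .no .no) .no .no .no

def c21l19 : List Tr4 :=
  [c21t498, c21t499, c21t500, c21t501, c21t502, c21t503, c21t504, c21t505, c21t506, c21t507,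
  c21t508, c21t509, c21t510, c21t511, c21t512, c21t513, c21t514, c21t515, c21t516]

theorem c21k19 : chkLF ⟨4, 0, 0, true, -8⟩ false 1 c21N 498 c21l19 = true := by decide +kernel

def c21t517 : Tr4 :=
  .br 1218 (.br 945 .no (.red [.f 817 1 3] 119 136 [2, 4] [(119, 136, [2, 4])]) .no (.br 963 .no
  (.use 190) (.br 1099 (.red [.f 1091 1 3, .f 1090 3 5] 153 136 [3, 1] [(153, 136, [3, 1])]) .no
  (.use 424) .no .no .no) .no .no .no) (.br 1074 (.hor [.f 1074 1 3, .f 1073 3 5] [(151, 119, [1,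
  1])]) .no .no (.br 960 .no (.br 824 .no (.br 817 .no (.use 428) .no (.br 826 .no (.br 818 .no
  (.red [.f 690 1 3] 103 136 [2, 4, 2] [(103, 136, [2, 4, 2])]) .no (.hor [.f 809 3 5] []) (.br
  937 (.red [.t 1065 2 3, .f 809 3 1] 118 136 [2, 4, 4] [(118, 136, [2, 4, 4]), (134, 136, [4,
  4])]) .no .no (.use 431) (.red [.f 937 5 3, .f 809 3 1, .f 817 1 3] 119 136 [2, 4] [(118, 136,
  [2, 4, 4]), (119, 136, [2, 4])]) (.br 816 .no (.red [.f 688 1 3, .f 816 3 1, .t 816 1 4] 103 136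
  [2, 4, 2] [(103, 136, [2, 4, 2]), (118, 136, [2, 4, 4]), (119, 136, [2, 4])]) .no (.hor [.f 808
  3 5] []) .no .no)) .no) (.use 432) (.red [.t 825 1 4, .f 944 3 5] 119 136 [2, 4] [(119, 136, [2,
  4])]) (.use 429) .no) (.red [.f 817 5 1, .f 817 1 3] 119 136 [2, 4] [(119, 136, [2, 4])]) (.red
  [.t 952 4 2] 119 136 [2, 4] [(119, 136, [2, 4])])) .no (.red [.f 816 3 1, .f 824 1 5] 119 136
  [2, 4] [(119, 136, [2, 4])]) .no .no) (.use 475) .no .no .no) (.br 960 .no (.br 824 .no (.use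
  478) .no (.red [.f 816 3 1, .f 824 1 5] 119 136 [2, 4] [(119, 136, [2, 4])]) .no .no) (.br 824
  .no (.use 479) (.br 833 .no (.use 484) (.br 963 .no (.use 459) (.use 491) .no .no .no) .no (.red
  [.t 953 2 3, .f 945 5 3, .f 944 3 5, .t 1088 4 2, .f 825 3 1] 136 136 [] [(136, 136, [])]) .no)
  (.red [.f 816 3 1, .f 824 1 5] 119 136 [2, 4] [(119, 136, [2, 4])]) .no .no) .no .no .no) .no)
  .no) .no (.red [.f 1090 3 1, .f 1090 1 5] 153 136 [3, 1] [(153, 136, [3, 1])]) .no .no (.br 1097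
  (.red [.t 1097 1 4, .f 1090 1 5] 153 136 [3, 1] [(153, 136, [3, 1])]) (.red [.f 961 1 3, .f 1089
  3 5, .f 1089 5 1, .f 1090 1 5, .t 954 3 1, .t 961 3 1] 136 136 [] [(136, 136, [])]) (.br 824 .no
  (.br 1209 (.br 945 .no (.red [.f 817 1 3] 119 136 [2, 4] [(119, 136, [2, 4])]) .no (.use 499)
  (.use 500) .no) .no .no (.hor [.f 1073 3 1, .f 1081 1 5] [(151, 119, [1, 1])]) .no (.br 945 .no
  (.red [.f 817 1 3] 119 136 [2, 4] [(119, 136, [2, 4])]) .no (.br 946 (.use 496) (.use 6) .no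
  (.hor [.f 937 3 5] []) (.br 963 .no (.br 1099 (.red [.f 1091 1 3, .f 1090 3 5] 153 136 [3, 1]
  [(153, 136, [3, 1])]) (.br 960 .no (.use 501) (.use 78) .no .no .no) (.use 493) .no .no .no)
  (.use 494) .no .no .no) .no) (.use 500) .no)) (.br 1099 (.red [.f 1091 1 3, .f 1090 3 5] 153 136
  [3, 1] [(153, 136, [3, 1])]) (.br 960 .no .no (.use 78) .no .no .no) (.use 493) .no .no .no)
  (.red [.f 816 3 1, .f 824 1 5] 119 136 [2, 4] [(119, 136, [2, 4])]) .no .no) .no .no (.use 516))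

def c21t518 : Tr4 :=
  .br 1217 (.hor [.f 1216 1 5] []) .no (.con 136 [3, 1, 1]) .no .no .no

def c21t519 : Tr4 :=
  .br 947 .no (.dom 119 136 [2, 4]) .no (.hor [.f 938 3 5] []) .no .no

def c21t520 : Tr4 :=
  .br 947 .no (.dom 119 136 [2, 4]) .no (.hor [.f 938 3 5] []) .no .no

def c21t521 : Tr4 :=
  .br 1075 (.use 520) (.con 136 [4, 4]) .no (.use 519) .no .no

def c21t522 : Tr4 :=
  .br 946 .no .no .no (.use 521) (.red [.t 1082 4 2, .f 945 1 5, .t 825 1 4] 119 136 [2, 4] [(119,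
  136, [2, 4]), (135, 119, [1])]) .no

def c21t523 : Tr4 :=
  .br 947 .no (.hor [.f 818 1 5] []) .no (.con 136 [4, 2, 4]) .no .no

def c21t524 : Tr4 :=
  .br 818 .no (.hor [.f 689 1 5] []) .no (.use 426) (.use 427) .no

def c21t525 : Tr4 :=
  .br 816 .no (.red [.f 688 1 3] 103 136 [2, 2, 4] [(103, 136, [2, 2, 4])]) .no (.red [.t 937 2 3,
  .f 808 3 5, .t 952 4 2] 119 136 [2, 4] [(118, 117, [3]), (119, 136, [2, 4])]) .no .no

def c21t526 : Tr4 :=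
  .br 1064 (.con 136 [4, 4, 1]) .no (.red [.t 1072 4 2, .f 937 3 5] 134 136 [4, 4] [(134, 136, [4,
  4])]) (.con 136 [4, 4, 1]) (.con 136 [4, 4, 1]) .no

def c21t527 : Tr4 :=
  .br 817 .no (.br 946 .no (.use 523) .no (.use 524) (.use 76) .no) .no (.use 429) (.br 946 .no
  .no .no (.br 1066 (.br 1065 (.hor [.f 1065 1 5] []) (.red [.f 937 1 3, .f 937 3 5] 134 136 [4,
  4] [(134, 136, [4, 4])]) .no (.br 937 .no (.use 525) .no (.red [.f 929 3 1, .f 937 1 3] 134 136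
  [4, 4] [(133, 136, [4, 4, 4]), (134, 136, [4, 4])]) .no (.br 1072 (.con 136 [4, 4, 1]) .no .no
  (.red [.t 1072 4 2, .f 937 3 5] 134 136 [4, 4] [(134, 136, [4, 4])]) .no .no)) .no (.con 136 [4,
  4, 1])) .no .no (.br 937 (.red [.f 937 1 3, .f 937 3 5] 134 136 [4, 4] [(134, 136, [4, 4])])
  (.use 525) .no (.br 1065 (.con 136 [4, 4, 4, 1]) .no .no (.hor [.f 1057 3 5] []) .no (.con 136
  [4, 4, 1])) .no (.use 526)) .no (.red [.t 945 1 4] 134 136 [4, 4] [(134, 136, [4, 4])])) (.red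
  [.t 1082 4 2, .f 945 1 5, .f 817 5 1, .f 817 1 3] 119 136 [2, 4] [(119, 136, [2, 4]), (135, 119,
  [1])]) .no) (.red [.t 952 4 2] 119 136 [2, 4] [(119, 136, [2, 4])])

def c21t528 : Tr4 :=
  .br 688 (.hor [.f 688 1 5] []) (.con 136 [2, 4, 2, 4]) .no (.con 136 [2, 4, 2, 4]) .no .no

def c21t529 : Tr4 :=
  .br 1064 (.con 136 [4, 4, 1, 3]) (.con 136 [4, 4, 1, 4]) (.red [.t 1064 3 1, .f 1193 3 5, .t
  1081 1 4] 151 136 [4, 1] [(150, 134, [1]), (151, 136, [4, 1])]) (.con 136 [4, 4, 1, 4]) .no .no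

def c21t530 : Tr4 :=
  .br 1200 (.red [.f 1200 1 3] 167 136 [4, 1, 1] [(167, 136, [4, 1, 1])]) (.con 136 [4, 4, 1, 1])
  .no (.con 136 [4, 4, 1, 1]) (.use 529) .no

def c21t531 : Tr4 :=
  .br 1337 (.con 136 [1, 4, 1, 1]) .no .no (.hor [.f 1329 3 5] []) .no .no

def c21t532 : Tr4 :=
  .br 1338 (.red [.f 1338 1 3, .f 1210 3 1] 168 136 [1, 1] [(168, 136, [1, 1]), (184, 136, [1, 1,
  1])]) .no .no (.br 1208 (.use 531) .no .no (.dom 151 136 [4, 1]) .no .no) .no (.red [.t 1217 1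
  4, .f 1210 1 5] 168 136 [1, 1] [(168, 136, [1, 1])])

def c21t533 : Tr4 :=
  .br 1226 (.hor [.f 1226 1 5] []) .no (.hor [.f 1225 3 5] []) .no .no .no

def c21t534 : Tr4 :=
  .br 1337 (.hor [.f 1337 1 5] []) .no .no (.red [.t 1336 2 4, .f 1201 1 5] 167 136 [4, 1, 1]
  [(167, 136, [4, 1, 1])]) .no .no

def c21t535 : Tr4 :=
  .br 1338 (.br 1200 (.red [.f 1200 1 3] 167 136 [4, 1, 1] [(167, 136, [4, 1, 1])]) .no .no (.br
  1337 (.hor [.f 1337 1 5] []) .no .no (.con 136 [4, 4, 1, 1, 3]) .no .no) (.use 534) .no) .no .no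
  .no .no (.red [.t 1217 1 4, .f 1210 1 5] 168 136 [1, 1] [(168, 136, [1, 1])])

def c21t536 : Tr4 :=
  .br 1066 (.hor [.f 1065 1 5] []) .no .no (.br 1064 (.hor [.f 1064 1 5] []) (.con 136 [4, 4, 1,
  4]) (.use 535) (.con 136 [4, 4, 1, 4]) .no .no) (.br 1064 (.hor [.f 1064 1 5] []) (.con 136 [4,
  4, 4]) (.use 535) (.con 136 [4, 4, 4, 1]) .no .no) .no

def c21t537 : Tr4 :=
  .br 1200 (.con 136 [4, 4, 1, 3]) (.br 1201 (.hor [.f 1201 1 5] []) .no .no (.red [.t 1200 2 4]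
  150 136 [4, 4, 1] [(150, 136, [4, 4, 1])]) .no .no) .no (.con 136 [4, 4, 1, 3]) (.con 136 [4, 4,
  1, 3]) .no

def c21t538 : Tr4 :=
  .br 1193 (.con 136 [4, 4, 1, 1]) .no (.hor [.f 1193 3 5] []) (.con 136 [4, 4, 1, 1]) .no (.con
  136 [4, 4, 1, 1])

def c21t539 : Tr4 :=
  .br 1208 (.br 1346 (.use 532) .no (.br 1202 (.br 1065 (.use 536) .no .no (.red [.f 929 3 1, .f
  937 1 3] 134 136 [4, 4] [(133, 136, [4, 4, 4]), (134, 136, [4, 4])]) (.red [.t 945 1 4] 134 136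
  [4, 4] [(134, 136, [4, 4])]) (.use 537)) .no .no (.br 1065 (.use 530) .no .no (.red [.f 929 3 1,
  .f 937 1 3] 134 136 [4, 4] [(133, 136, [4, 4, 4]), (134, 136, [4, 4])]) (.red [.t 945 1 4] 134
  136 [4, 4] [(134, 136, [4, 4])]) (.use 538)) .no (.red [.t 1081 1 4, .f 1074 1 5] 151 136 [4, 1]
  [(151, 136, [4, 1])])) (.red [.f 1210 3 1, .f 1210 1 5] 168 136 [1, 1] [(168, 136, [1, 1])])
  (.red [.t 1210 3 1, .t 1074 3 1, .f 1081 1 5] 168 136 [1, 1] [(151, 136, [4, 1]), (168, 136, [1,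
  1])]) .no) .no .no (.dom 151 136 [4, 1]) .no .no

def c21t540 : Tr4 :=
  .br 1072 (.br 1064 (.red [.f 1064 1 3, .t 1072 4 2] 134 136 [4, 4] [(134, 136, [4, 4]), (150,
  136, [4, 4, 1])]) .no .no (.br 1065 (.br 1066 (.hor [.f 1065 1 5] []) .no .no (.con 136 [4, 4,
  1, 4]) (.con 136 [4, 4, 4, 1]) .no) .no .no (.hor [.f 1056 3 5] []) (.red [.t 945 1 4] 134 136
  [4, 4] [(134, 136, [4, 4])]) .no) (.red [.f 936 5 1, .f 937 1 3] 134 136 [4, 4] [(134, 136, [4,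
  4])]) .no) .no .no (.red [.t 1072 4 2, .f 937 3 5] 134 136 [4, 4] [(134, 136, [4, 4])]) .no .no

def c21t541 : Tr4 :=
  .br 1216 (.br 1075 (.br 1211 (.br 1210 (.hor [.f 1210 1 5] []) .no (.use 518) (.red [.f 1074 3
  1, .f 1074 1 5] 151 136 [4, 1] [(151, 136, [4, 1])]) .no .no) .no .no .no .no (.red [.t 1074 3
  1, .f 1081 1 5] 151 136 [4, 1] [(151, 136, [4, 1])])) (.con 136 [4, 4]) .no (.use 527) .no .no)
  .no (.br 1075 (.br 1211 (.br 1210 (.hor [.f 1210 1 5] []) .no (.br 946 .no (.br 817 .no (.use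
  528) .no (.use 429) .no (.red [.t 952 4 2] 119 136 [2, 4] [(119, 136, [2, 4])])) .no (.br 817
  .no (.use 524) .no (.use 429) (.br 1217 (.br 937 (.red [.f 937 1 3, .f 937 3 5] 134 136 [4, 4]
  [(134, 136, [4, 4])]) (.use 525) .no (.use 539) .no (.use 540)) .no (.hor [.f 1216 3 5] []) .no
  .no .no) (.red [.t 952 4 2] 119 136 [2, 4] [(119, 136, [2, 4])])) (.red [.t 1082 4 2, .t 1218 4
  2, .f 1081 1 5, .t 961 1 4] 136 136 [] [(135, 119, [1]), (136, 136, []), (152, 136, [1])]) .no)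
  (.red [.f 1074 3 1, .f 1074 1 5] 151 136 [4, 1] [(151, 136, [4, 1])]) .no .no) .no .no .no .no
  (.red [.t 1074 3 1, .f 1081 1 5] 151 136 [4, 1] [(151, 136, [4, 1])])) (.con 136 [4, 4]) .no
  (.use 527) .no .no) (.red [.f 1080 3 1, .f 1080 1 5, .t 944 3 1, .f 1073 3 5, .t 961 1 4] 136
  136 [] [(135, 119, [1]), (136, 136, []), (152, 136, [1])]) (.red [.t 1080 3 1, .t 944 3 1, .f
  1073 3 5, .t 961 1 4] 136 136 [] [(135, 119, [1]), (136, 136, []), (152, 136, [1])]) .no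

def c21t542 : Tr4 :=
  .br 825 (.red [.f 817 1 3] 119 136 [2, 4] [(119, 136, [2, 4])]) (.con 136 [4, 2, 3, 1]) (.con
  136 [4, 2, 3, 1]) .no (.con 136 [4, 2, 3, 1]) .no

def c21t543 : Tr4 :=
  .br 817 .no (.use 528) .no (.red [.f 809 3 1, .f 817 1 5] 118 136 [2, 4, 4] [(118, 136, [2, 4,
  4])]) .no (.red [.t 952 4 2] 119 136 [2, 4] [(119, 136, [2, 4])])

def c21t544 : Tr4 :=
  .br 1211 (.br 1210 (.hor [.f 1210 1 5] []) .no .no (.red [.f 1074 3 1, .f 1074 1 5] 151 136 [4,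
  1] [(151, 136, [4, 1])]) .no .no) .no .no .no .no (.red [.t 1074 3 1, .f 1081 1 5] 151 136 [4,
  1] [(151, 136, [4, 1])])

def c21t545 : Tr4 :=
  .br 1201 (.hor [.f 1201 1 5] []) .no .no (.red [.f 937 3 1, .f 937 1 3, .f 1065 3 1] 150 136 [4,
  4, 1] [(150, 136, [4, 4, 1])]) .no (.br 1064 (.con 136 [4, 4, 1]) (.con 136 [4, 4, 1]) (.hor [.f
  1064 3 5] []) (.con 136 [4, 4, 1]) .no .no)

def c21t546 : Tr4 :=
  .br 1064 (.con 136 [4, 4, 1]) (.con 136 [4, 4, 1]) (.hor [.f 1064 3 5] []) (.con 136 [4, 4, 1])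
  .no .no

def c21t547 : Tr4 :=
  .br 1066 .no .no .no (.use 546) .no .no

def c21t548 : Tr4 :=
  .br 1075 (.use 544) .no .no (.br 1210 (.br 1211 (.hor [.f 1210 1 5] []) .no .no (.br 1202 (.red
  [.f 1202 1 3, .f 1074 3 1] 151 136 [4, 1] [(151, 136, [4, 1]), (167, 136, [4, 1, 1])]) .no .no
  (.br 1208 (.con 136 [4, 1, 1]) .no .no (.br 1066 .no .no .no (.br 1201 (.con 136 [4, 4, 1, 1])
  .no .no (.hor [.f 1193 3 5] []) .no .no) .no .no) .no .no) .no (.red [.f 937 3 1, .t 1081 1 4]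
  151 136 [4, 1] [(134, 118, [1]), (151, 136, [4, 1])])) .no .no) .no .no (.red [.f 1074 3 1, .f
  1081 1 5] 151 136 [4, 1] [(151, 136, [4, 1])]) (.br 1202 (.use 545) .no .no (.use 547) (.red [.f
  1202 5 3, .f 1074 3 1] 151 136 [4, 1] [(151, 136, [4, 1])]) (.red [.f 937 3 1, .t 1081 1 4] 151
  136 [4, 1] [(134, 118, [1]), (151, 136, [4, 1])])) .no) .no .no

def c21t549 : Tr4 :=
  .br 938 (.br 1075 (.use 544) .no .no (.red [.t 1066 2 3, .f 937 3 5, .f 817 5 1, .f 817 1 3] 119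
  136 [2, 4] [(119, 136, [2, 4]), (134, 118, [1])]) .no .no) (.red [.t 937 3 2, .f 817 1 3] 119
  136 [2, 4] [(118, 136, [2, 4, 4]), (119, 136, [2, 4])]) .no (.br 1226 (.red [.f 1218 1 3, .f
  1090 3 1] 153 136 [3, 1] [(153, 136, [3, 1]), (169, 136, [3, 1, 1])]) .no (.br 1217 (.hor [.f
  1217 1 5] []) .no (.use 0) .no .no (.use 548)) .no (.red [.t 1090 3 1, .t 954 3 1, .f 961 1 5]
  153 136 [3, 1] [(136, 136, []), (153, 136, [3, 1])]) (.br 1217 (.hor [.f 1217 1 5] []) .no .no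
  .no .no (.use 548))) (.red [.f 938 5 3, .f 937 3 5, .f 817 5 1, .f 817 1 3] 119 136 [2, 4]
  [(119, 136, [2, 4])]) .no

def c21t550 : Tr4 :=
  .br 817 .no (.use 79) .no (.use 432) (.use 549) (.red [.t 952 4 2] 119 136 [2, 4] [(119, 136,
  [2, 4])])

def c21t551 : Tr4 :=
  .br 817 .no (.use 76) .no (.use 429) (.use 549) (.red [.t 952 4 2] 119 136 [2, 4] [(119, 136,
  [2, 4])])

def c21t552 : Tr4 :=
  .br 826 .no (.use 425) (.use 550) (.red [.t 1082 4 2, .f 937 3 1, .f 945 1 5, .t 825 1 4] 119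
  136 [2, 4] [(119, 136, [2, 4]), (134, 118, [1]), (135, 119, [1])]) (.use 551) .no

def c21t553 : Tr4 :=
  .br 825 (.use 478) (.con 136 [4, 2, 3, 1]) (.con 136 [4, 2, 3, 1]) (.con 136 [4, 2, 3, 1]) (.con
  136 [4, 2, 3, 1]) .no

def c21t554 : Tr4 :=
  .br 946 .no (.use 543) .no (.hor [.f 937 3 5] []) (.red [.t 1082 4 2, .t 1218 4 2, .f 1081 1 5,
  .t 961 1 4] 136 136 [] [(135, 119, [1]), (136, 136, []), (152, 136, [1])]) .no

def c21t555 : Tr4 :=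
  .br 1211 (.br 1210 (.hor [.f 1210 1 5] []) .no .no (.red [.f 1074 3 1, .f 1074 1 5] 151 136 [4,
  1] [(151, 136, [4, 1])]) .no .no) .no .no .no .no (.red [.t 1074 3 1, .f 1081 1 5] 151 136 [4,
  1] [(151, 136, [4, 1])])

def c21l20 : List Tr4 :=
  [c21t517, c21t518, c21t519, c21t520, c21t521, c21t522, c21t523, c21t524, c21t525, c21t526,
  c21t527, c21t528, c21t529, c21t530, c21t531, c21t532, c21t533, c21t534, c21t535, c21t536,
  c21t537, c21t538, c21t539, c21t540, c21t541, c21t542, c21t543, c21t544, c21t545, c21t546,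
  c21t547, c21t548, c21t549, c21t550, c21t551, c21t552, c21t553, c21t554, c21t555]

theorem c21k20 : chkLF ⟨4, 0, 0, true, -8⟩ false 1 c21N 517 c21l20 = true := by decide +kernel

end Pool.Agent.FT4D
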