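import Pool.Agent.FT4D.Tab_c21

/-!
# Four levels: decision trees (found by a computer search)
-/

namespace Pool.Agent.FT4D

def c21t556 : Tr4 :=
  .br 938 (.br 1075 (.use 555) .no .no (.red [.t 1066 2 3, .f 937 3 5, .f 817 5 1, .f 817 1 3] 119
  136 [2, 4] [(119, 136, [2, 4]), (134, 118, [1])]) .no .no) (.red [.t 937 3 2, .f 817 1 3] 119
  136 [2, 4] [(118, 136, [2, 4, 4]), (119, 136, [2, 4])]) .no (.br 1075 (.use 555) .no .no (.br
  1202 (.use 545) .no (.red [.f 1074 3 1, .f 1081 1 5] 151 136 [4, 1] [(151, 136, [4, 1])]) (.use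
  547) (.br 1066 (.red [.t 1066 1 3] 150 136 [4, 4, 1] [(150, 136, [4, 4, 1])]) .no .no (.use 546)
  .no .no) (.red [.f 937 3 1, .t 1081 1 4] 151 136 [4, 1] [(134, 118, [1]), (151, 136, [4, 1])]))
  .no .no) (.red [.f 938 5 3, .f 937 3 5, .f 817 5 1, .f 817 1 3] 119 136 [2, 4] [(119, 136, [2,
  4])]) .no

def c21t557 : Tr4 :=
  .br 826 .no (.use 425) (.br 817 .no (.use 79) .no (.use 432) (.use 556) (.red [.t 952 4 2] 119
  136 [2, 4] [(119, 136, [2, 4])])) (.red [.t 1082 4 2, .f 937 3 1, .f 945 1 5, .t 825 1 4] 119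
  136 [2, 4] [(119, 136, [2, 4]), (134, 118, [1]), (135, 119, [1])]) (.br 817 .no (.use 76) .no
  (.use 429) (.use 556) (.red [.t 952 4 2] 119 136 [2, 4] [(119, 136, [2, 4])])) .no

def c21t558 : Tr4 :=
  .br 945 .no (.red [.f 816 3 1, .f 824 1 3] 119 136 [4, 2] [(119, 136, [4, 2]), (120, 136, [2])])
  (.hor [.f 944 3 5] []) (.red [.f 816 3 1, .f 824 1 3] 119 136 [4, 2] [(119, 136, [4, 2]), (120,
  136, [2])]) (.red [.f 816 3 1, .f 824 1 3] 119 136 [4, 2] [(119, 136, [4, 2]), (120, 136, [2])])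
  .no

def c21t559 : Tr4 :=
  .br 945 .no (.con 136 [4, 2, 3, 1]) (.hor [.f 944 3 5] []) (.con 136 [4, 2, 3, 1]) (.con 136 [4,
  2, 3, 1]) .no

def c21t560 : Tr4 :=
  .br 1217 (.hor [.f 1217 1 5] []) .no (.hor [.f 1216 3 5] []) .no .no .no

def c21t561 : Tr4 :=
  .br 1211 (.hor [.f 1210 1 5] []) .no .no (.con 136 [4, 1, 1]) .no .no

def c21t562 : Tr4 :=
  .br 1203 (.hor [.f 1202 1 5] []) .no .no (.red [.f 1067 3 1, .t 1074 3 1] 151 136 [4, 1] [(150,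
  136, [4, 1, 4]), (151, 136, [4, 1])]) .no .no

def c21t563 : Tr4 :=
  .br 1201 (.con 136 [4, 1, 1, 4]) .no .no (.hor [.f 1192 3 5] []) .no .no

def c21t564 : Tr4 :=
  .br 1200 (.red [.f 1200 1 3, .t 1208 4 2] 151 136 [4, 1] [(151, 136, [4, 1]), (167, 136, [4, 1,
  1])]) .no .no (.br 1202 (.use 562) .no .no (.use 563) (.red [.f 1202 5 3, .f 1074 3 1] 151 136
  [4, 1] [(151, 136, [4, 1])]) (.red [.t 1081 1 4] 151 136 [4, 1] [(151, 136, [4, 1])])) (.red [.f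
  1072 5 1, .f 1073 1 3] 151 136 [4, 1] [(151, 136, [4, 1])]) .no

def c21t565 : Tr4 :=
  .br 1210 (.use 561) .no .no (.red [.f 1074 3 1, .f 1081 1 5] 151 136 [4, 1] [(151, 136, [4,
  1])]) (.br 1075 (.use 544) .no .no (.use 564) .no .no) .no

def c21t566 : Tr4 :=
  .br 945 .no (.red [.f 816 3 1, .f 824 1 3] 119 136 [4, 2] [(119, 136, [4, 2]), (120, 136, [2])])
  (.hor [.f 944 3 5] []) (.red [.f 816 3 1, .f 824 1 3] 119 136 [4, 2] [(119, 136, [4, 2]), (120,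
  136, [2])]) (.red [.f 816 3 1, .f 824 1 3] 119 136 [4, 2] [(119, 136, [4, 2]), (120, 136, [2])])
  .no

def c21t567 : Tr4 :=
  .br 945 .no (.con 136 [4, 2, 3, 1]) (.hor [.f 944 3 5] []) (.con 136 [4, 2, 3, 1]) (.con 136 [4,
  2, 3, 1]) .no

def c21t568 : Tr4 :=
  .br 1217 (.hor [.f 1217 1 5] []) .no (.con 136 [3, 1, 1]) .no .no .no

def c21t569 : Tr4 :=
  .br 1202 (.use 562) .no .no (.br 1200 (.br 1203 (.br 1201 (.con 136 [4, 4, 1, 1]) .no .no (.hor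
  [.f 1193 3 5] []) .no .no) .no .no (.hor [.f 1194 3 5] []) .no .no) .no .no (.use 563) (.red [.f
  1080 3 1, .f 1072 5 1, .f 1073 1 3, .f 1080 1 3] 151 136 [4, 1] [(151, 136, [4, 1])]) .no) (.red
  [.f 1202 5 3, .f 1074 3 1] 151 136 [4, 1] [(151, 136, [4, 1])]) (.red [.f 1080 3 1, .f 1080 1 3,
  .t 1081 1 4] 151 136 [4, 1] [(151, 136, [4, 1])])

def c21t570 : Tr4 :=
  .br 1210 (.br 1211 (.hor [.f 1210 1 5] []) .no .no (.con 136 [4, 1, 1]) .no .no) .no .no (.red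
  [.f 1074 3 1, .f 1081 1 5] 151 136 [4, 1] [(151, 136, [4, 1])]) (.use 569) .no

def c21t571 : Tr4 :=
  .br 1208 (.br 824 .no (.br 945 .no (.use 542) (.hor [.f 944 3 5] []) (.br 825 (.br 946 .no (.use
  543) .no (.hor [.f 937 3 5] []) (.br 1218 (.use 565) .no (.red [.f 1090 3 1, .f 1090 1 5] 153
  136 [3, 1] [(153, 136, [3, 1])]) (.use 554) .no (.br 1210 (.use 561) .no .no (.red [.f 1074 3 1,
  .f 1081 1 5] 151 136 [4, 1] [(151, 136, [4, 1])]) (.br 1075 (.use 555) .no .no (.use 564) .no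
  .no) .no)) .no) (.con 136 [4, 2, 3, 1]) (.con 136 [4, 2, 3, 1]) (.con 136 [4, 2, 3, 1]) (.con
  136 [4, 2, 3, 1]) .no) (.use 553) .no) .no (.use 566) (.use 567) .no) .no (.br 824 .no (.br 945
  .no (.use 542) (.hor [.f 944 3 5] []) (.br 825 (.br 946 .no (.use 543) .no (.hor [.f 937 3 5]
  []) (.br 1218 (.use 568) .no (.red [.f 1090 3 1, .f 1090 1 5] 153 136 [3, 1] [(153, 136, [3,
  1])]) (.con 136 [1, 1]) .no (.br 1075 (.use 555) .no .no (.use 570) .no .no)) .no) (.con 136 [4,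
  2, 3, 1]) (.con 136 [4, 2, 3, 1]) (.con 136 [4, 2, 3, 1]) (.con 136 [4, 2, 3, 1]) .no) (.use
  553) .no) .no (.use 566) (.use 567) .no) (.red [.t 1208 4 2, .f 1073 3 5] 151 136 [4, 1] [(151,
  136, [4, 1])]) .no .no

def c21t572 : Tr4 :=
  .br 1073 (.red [.f 1073 1 3, .f 1073 3 5] 151 136 [4, 1] [(151, 136, [4, 1])]) (.br 825 (.br 824
  .no (.br 835 (.br 826 .no (.use 425) (.red [.f 826 3 1, .f 825 1 5, .t 1073 2 3, .f 944 3 5, .t
  1088 4 2, .t 961 4 2] 136 136 [] [(135, 119, [1]), (136, 136, [])]) (.use 522) (.use 541) .no)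
  (.con 136 [3, 2, 4, 4]) (.con 136 [3, 2, 4, 4]) (.con 136 [3, 2, 4, 4]) .no (.con 136 [3, 2, 4,
  4])) .no (.red [.f 816 3 1, .f 824 1 5] 119 136 [2, 4] [(119, 136, [2, 4])]) .no .no) (.con 136
  [4, 2, 3, 1]) (.con 136 [4, 2, 3, 1]) (.con 136 [4, 2, 3, 1]) (.con 136 [4, 2, 3, 1]) (.con 136
  [4, 2, 3, 1])) .no (.br 824 .no (.br 1218 (.br 835 (.br 945 .no (.use 542) (.hor [.f 944 3 5]
  []) (.br 825 (.br 946 .no (.use 543) .no (.hor [.f 937 3 5] []) (.use 552) .no) (.con 136 [4, 2,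
  3, 1]) (.con 136 [4, 2, 3, 1]) (.con 136 [4, 2, 3, 1]) (.con 136 [4, 2, 3, 1]) .no) (.use 553)
  .no) (.con 136 [3, 2, 4, 1]) (.con 136 [3, 2, 4, 1]) (.con 136 [3, 2, 4, 1]) .no (.con 136 [3,
  2, 4, 1])) .no (.red [.f 1090 3 1, .f 1090 1 5] 153 136 [3, 1] [(153, 136, [3, 1])]) (.br 945
  .no (.use 542) (.hor [.f 944 3 5] []) (.br 825 (.use 554) (.con 136 [4, 2, 3, 1]) (.con 136 [4,
  2, 3, 1]) (.con 136 [4, 2, 3, 1]) (.con 136 [4, 2, 3, 1]) .no) (.use 553) .no) .no (.br 945 .no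
  (.use 542) (.hor [.f 944 3 5] []) (.br 825 (.br 946 .no (.use 543) .no (.hor [.f 937 3 5] [])
  (.br 963 .no (.use 557) .no .no .no .no) .no) (.con 136 [4, 2, 3, 1]) (.con 136 [4, 2, 3, 1])
  (.con 136 [4, 2, 3, 1]) (.con 136 [4, 2, 3, 1]) .no) (.use 553) .no)) .no (.use 558) (.use 559)
  .no) .no (.use 571)

def c21t573 : Tr4 :=
  .br 1217 (.hor [.f 1216 1 5] []) .no (.con 136 [1, 3, 1]) .no .no .no

def c21t574 : Tr4 :=
  .br 1097 (.red [.t 1097 1 4, .f 1090 1 5] 153 136 [3, 1] [(153, 136, [3, 1])]) (.red [.f 961 1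
  3, .f 1089 3 5, .f 1089 5 1, .f 1090 1 5, .t 954 3 1, .t 961 3 1] 136 136 [] [(136, 136, [])])
  (.use 492) .no .no (.use 502)

def c21t575 : Tr4 :=
  .br 1218 (.use 573) .no (.red [.f 1090 3 1, .f 1090 1 5] 153 136 [3, 1] [(153, 136, [3, 1])])
  (.use 518) .no (.use 574)

def c21t576 : Tr4 :=
  .br 1066 (.hor [.f 1065 1 5] []) .no .no (.con 136 [4, 4, 4, 1]) .no .no

def c21t577 : Tr4 :=
  .br 1065 (.br 1211 (.br 1075 (.use 539) .no .no (.use 576) .no .no) .no .no (.br 1075 .no .no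
  .no (.use 576) .no .no) .no .no) .no .no (.red [.f 929 3 1, .f 937 1 3] 134 136 [4, 4] [(133,
  136, [4, 4, 4]), (134, 136, [4, 4])]) (.red [.t 945 1 4] 134 136 [4, 4] [(134, 136, [4, 4])])
  (.br 1075 (.br 1211 (.use 539) .no .no .no .no .no) .no .no (.con 136 [4, 4, 1]) .no .no)

def c21t578 : Tr4 :=
  .br 826 .no (.br 817 .no (.use 74) .no (.use 476) (.use 549) (.red [.t 952 4 2] 119 136 [2, 4]
  [(119, 136, [2, 4])])) (.use 550) (.red [.t 1082 4 2, .f 937 3 1, .f 945 1 5, .t 825 1 4] 119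
  136 [2, 4] [(119, 136, [2, 4]), (134, 118, [1]), (135, 119, [1])]) (.use 551) .no

def c21t579 : Tr4 :=
  .br 1097 (.red [.t 1097 1 4, .f 1090 1 5] 153 136 [3, 1] [(153, 136, [3, 1])]) (.red [.f 961 1
  3, .f 1089 3 5, .f 1089 5 1, .f 1090 1 5, .t 954 3 1, .t 961 3 1] 136 136 [] [(136, 136, [])])
  (.use 492) .no .no (.use 507)

def c21t580 : Tr4 :=
  .br 1073 (.red [.f 1073 1 3, .f 1073 3 5] 151 136 [4, 1] [(151, 136, [4, 1])]) (.br 825 (.br 824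
  .no (.br 826 .no (.br 963 .no (.use 425) (.br 1216 (.use 575) .no (.br 1218 (.use 560) .no (.red
  [.f 1090 3 1, .f 1090 1 5] 153 136 [3, 1] [(153, 136, [3, 1])]) (.br 946 .no (.br 817 .no (.use
  528) .no (.use 476) .no (.red [.t 952 4 2] 119 136 [2, 4] [(119, 136, [2, 4])])) .no (.br 1217
  (.br 947 (.con 136 [4, 4]) (.br 937 (.red [.f 937 1 3, .f 937 3 5] 134 136 [4, 4] [(134, 136,
  [4, 4])]) (.br 817 .no (.br 818 .no (.hor [.f 689 1 5] []) .no (.use 426) .no .no) .no .no (.br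
  816 .no (.red [.f 688 1 3] 103 136 [2, 4, 2] [(103, 136, [2, 4, 2])]) .no (.red [.t 937 2 3, .f
  808 3 5, .t 952 4 2] 119 136 [2, 4] [(118, 102, [1]), (119, 136, [2, 4])]) .no .no) (.red [.t
  952 4 2] 119 136 [2, 4] [(119, 136, [2, 4])])) .no (.use 577) .no (.use 540)) .no (.hor [.f 938
  3 5] []) .no .no) .no (.hor [.f 1216 3 5] []) .no .no .no) (.red [.t 1082 4 2, .t 1218 4 2, .f
  1081 1 5, .t 961 1 4] 136 136 [] [(135, 119, [1]), (136, 136, []), (152, 136, [1])]) .no) .no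
  (.use 574)) (.red [.f 1080 3 1, .f 1080 1 5, .t 944 3 1, .f 1073 3 5, .t 961 1 4] 136 136 []
  [(135, 119, [1]), (136, 136, []), (152, 136, [1])]) (.red [.t 1080 3 1, .t 944 3 1, .f 1073 3 5,
  .t 961 1 4] 136 136 [] [(135, 119, [1]), (136, 136, []), (152, 136, [1])]) .no) .no .no .no)
  (.red [.f 826 3 1, .f 825 1 5, .t 1073 2 3, .f 944 3 5, .t 1088 4 2, .t 961 4 2] 136 136 []
  [(135, 119, [1]), (136, 136, [])]) (.use 522) (.use 541) .no) .no (.red [.f 816 3 1, .f 824 1 5]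
  119 136 [2, 4] [(119, 136, [2, 4])]) .no .no) (.con 136 [4, 2, 3, 1]) (.con 136 [4, 2, 3, 1])
  (.con 136 [4, 2, 3, 1]) (.con 136 [4, 2, 3, 1]) (.con 136 [4, 2, 3, 1])) .no (.br 824 .no (.br
  945 .no (.use 542) (.hor [.f 944 3 5] []) (.br 825 (.br 946 .no (.use 543) .no (.hor [.f 937 3
  5] []) (.br 1218 (.use 578) .no (.red [.f 1090 3 1, .f 1090 1 5] 153 136 [3, 1] [(153, 136, [3,
  1])]) (.use 554) .no (.use 579)) .no) (.con 136 [4, 2, 3, 1]) (.con 136 [4, 2, 3, 1]) (.con 136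
  [4, 2, 3, 1]) (.con 136 [4, 2, 3, 1]) .no) (.use 553) .no) .no (.use 558) (.use 559) .no) .no
  (.use 571)

def c21t581 : Tr4 :=
  .br 944 (.con 136 [2, 4, 1, 3]) .no (.red [.f 816 3 1, .f 824 1 5] 119 136 [2, 4] [(119, 136,
  [2, 4])]) (.con 136 [2, 4, 1, 3]) (.con 136 [2, 4, 1, 3]) .no

def c21t582 : Tr4 :=
  .br 824 (.hor [.f 824 1 5] []) (.use 510) .no (.use 581) .no .no

def c21t583 : Tr4 :=
  .br 1208 (.use 565) .no .no (.red [.t 1208 4 2, .f 1073 3 5] 151 136 [4, 1] [(151, 136, [4,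
  1])]) .no .no

def c21t584 : Tr4 :=
  .br 1073 (.red [.f 1073 1 3, .f 1073 3 5] 151 136 [4, 1] [(151, 136, [4, 1])]) .no .no (.red [.t
  1082 4 2, .f 937 3 1, .f 945 1 5, .t 825 1 4] 119 136 [2, 4] [(119, 136, [2, 4]), (134, 118,
  [1]), (135, 119, [1])]) .no (.use 583)

def c21t585 : Tr4 :=
  .br 945 (.use 522) (.red [.f 817 1 3, .f 817 3 5] 119 136 [2, 4] [(119, 136, [2, 4])]) .no (.br
  946 .no .no .no (.hor [.f 937 3 5] []) (.use 584) .no) (.red [.t 825 1 4, .f 944 3 5] 119 136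
  [2, 4] [(119, 136, [2, 4])]) .no

def c21t586 : Tr4 :=
  .br 947 .no (.hor [.f 818 1 5] []) .no (.con 136 [2, 4, 4]) .no .no

def c21t587 : Tr4 :=
  .br 1075 (.use 544) (.con 136 [2, 4, 4]) .no (.use 586) .no .no

def c21t588 : Tr4 :=
  .br 817 .no (.use 587) .no (.red [.f 809 3 1, .f 817 1 5] 118 136 [2, 4, 4] [(118, 136, [2, 4,
  4])]) .no (.red [.t 952 4 2] 119 136 [2, 4] [(119, 136, [2, 4])])

def c21t589 : Tr4 :=
  .br 946 .no (.use 588) .no (.hor [.f 937 3 5] []) (.use 583) .no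

def c21l21 : List Tr4 :=
  [c21t556, c21t557, c21t558, c21t559, c21t560, c21t561, c21t562, c21t563, c21t564, c21t565,
  c21t566, c21t567, c21t568, c21t569, c21t570, c21t571, c21t572, c21t573, c21t574, c21t575,
  c21t576, c21t577, c21t578, c21t579, c21t580, c21t581, c21t582, c21t583, c21t584, c21t585,
  c21t586, c21t587, c21t588, c21t589]

theorem c21k21 : chkLF ⟨4, 0, 0, true, -8⟩ false 1 c21N 556 c21l21 = true := by decide +kernel

def c21t590 : Tr4 :=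
  .br 945 (.red [.t 1080 3 1, .t 944 3 1, .f 1073 3 5, .t 961 1 4] 136 136 [] [(135, 119, [1]),
  (136, 136, []), (152, 136, [1])]) (.use 542) .no (.br 1073 (.red [.f 1073 1 3, .f 1073 3 5] 151
  136 [4, 1] [(151, 136, [4, 1])]) .no .no (.br 946 .no (.use 588) .no (.hor [.f 937 3 5] [])
  (.use 552) .no) .no (.use 589)) (.use 440) .no

def c21t591 : Tr4 :=
  .br 818 .no (.hor [.f 689 1 5] []) .no (.br 696 .no (.use 247) (.use 393) (.con 136 [2, 2, 4,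
  4]) (.use 98) .no) (.use 99) .no

def c21t592 : Tr4 :=
  .br 824 (.hor [.f 824 1 5] []) (.br 944 (.con 136 [2, 4, 1, 3]) (.con 136 [2, 4, 1, 3]) (.use
  590) (.con 136 [2, 4, 1, 3]) (.con 136 [2, 4, 1, 3]) .no) (.br 834 .no (.use 45) (.red [.t 1089
  2 3, .f 970 1 5, .t 834 3 1] 121 136 [2, 3] [(121, 136, [2, 3]), (137, 121, [1])]) (.con 136 [2,
  2]) .no (.br 944 (.con 136 [2, 4, 1, 3]) (.con 136 [2, 4, 1, 3]) (.br 945 (.red [.t 953 2 3, .t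
  1073 2 3, .f 944 3 5, .t 1088 4 2, .f 825 3 1] 136 136 [] [(135, 119, [1]), (136, 136, [])])
  (.red [.f 817 1 3] 119 136 [2, 4] [(119, 136, [2, 4])]) .no (.br 1073 (.red [.f 1073 1 3, .f
  1073 3 5] 151 136 [4, 1] [(151, 136, [4, 1])]) .no .no (.br 946 .no (.use 588) .no (.hor [.f 937
  3 5] []) (.br 817 .no (.br 826 .no (.use 47) .no (.use 584) (.use 591) .no) .no (.red [.f 809 3
  1, .f 817 1 3] 119 136 [2, 4] [(118, 136, [2, 4, 4]), (119, 136, [2, 4])]) (.use 549) (.red [.t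
  953 2 3, .t 833 4 1, .t 952 4 2] 119 136 [2, 4] [(119, 136, [2, 4])])) .no) .no (.use 589))
  (.red [.t 953 2 3, .f 945 5 3, .f 944 3 5, .t 1088 4 2, .f 825 3 1] 136 136 [] [(136, 136, [])])
  .no) (.con 136 [2, 4, 1, 3]) (.con 136 [2, 4, 1, 3]) .no)) (.use 581) .no .no

def c21t593 : Tr4 :=
  .br 824 (.hor [.f 816 1 3, .f 944 3 5] [(119, 136, [2, 4])]) (.con 136 [2, 4, 1, 3]) (.con 136
  [2, 4, 1, 3]) .no (.con 136 [2, 4, 1, 3]) .no

def c21t594 : Tr4 :=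
  .br 1072 (.br 1075 (.use 544) (.con 136 [4, 4, 1]) .no (.con 136 [4, 4, 1]) .no .no) .no .no
  (.hor [.f 1064 3 5] []) .no .no

def c21t595 : Tr4 :=
  .br 944 (.red [.t 1080 3 1, .t 944 1 3, .f 953 1 3, .f 1081 3 1] 136 136 [] [(135, 136, [4]),
  (136, 136, [])]) (.use 593) (.hor [.f 944 3 5] []) (.use 594) .no .no

def c21t596 : Tr4 :=
  .br 1346 (.use 532) .no (.br 1338 (.br 1337 (.hor [.f 1337 1 5] []) .no .no (.br 1201 .no .no
  .no (.red [.f 1065 3 1, .f 1073 1 3] 151 136 [4, 1] [(150, 136, [4, 1, 4]), (151, 136, [4, 1])])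
  (.red [.t 1081 1 4, .f 1074 1 5] 151 136 [4, 1] [(151, 136, [4, 1])]) (.red [.t 1336 2 4] 167
  136 [4, 1, 1] [(167, 136, [4, 1, 1])])) .no .no) .no .no (.use 531) .no (.red [.t 1217 1 4, .f
  1210 1 5] 168 136 [1, 1] [(168, 136, [1, 1])])) (.red [.f 1210 3 1, .f 1210 1 5] 168 136 [1, 1]
  [(168, 136, [1, 1])]) (.red [.t 1210 3 1, .t 1074 3 1, .f 1081 1 5] 168 136 [1, 1] [(151, 136,
  [4, 1]), (168, 136, [1, 1])]) .no

def c21t597 : Tr4 :=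
  .br 1211 (.use 596) .no .no .no .no .no

def c21t598 : Tr4 :=
  .br 1208 (.br 1217 (.use 597) .no .no .no .no .no) .no .no (.dom 151 136 [4, 1]) .no .no

def c21t599 : Tr4 :=
  .br 938 (.hor [.f 939 3 1, .f 938 1 5] [(134, 150, [2])]) (.hor [.f 810 1 3, .f 809 3 5] [(118,
  136, [2, 4, 4])]) .no (.br 937 .no .no .no (.hor [.f 929 3 5] []) .no (.br 1066 (.br 1202 (.br
  1201 (.hor [.f 1201 1 5] []) .no .no (.red [.t 1072 2 4, .t 936 3 1, .f 1065 3 1, .f 1065 1 5]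
  150 136 [4, 4, 1] [(150, 136, [4, 4, 1])]) .no (.red [.t 1072 2 4, .f 1072 5 1, .f 1073 1 3] 151
  136 [4, 1] [(134, 150, [2]), (151, 136, [4, 1])])) .no .no .no (.red [.t 1066 1 3] 150 136 [4,
  4, 1] [(150, 136, [4, 4, 1])]) (.red [.t 1081 1 4] 151 136 [4, 1] [(151, 136, [4, 1])])) .no .no
  (.hor [.t 1072 2 4, .f 930 3 1, .f 937 1 5] [(133, 150, [2, 4]), (134, 150, [2])]) .no .no)) .no
  (.hor [.t 817 4 1, .f 938 3 5] [(118, 136, [2, 4, 4])])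

def c21t600 : Tr4 :=
  .br 947 (.red [.f 947 1 3, .f 1074 3 5, .t 1218 4 2, .f 1081 1 5, .t 961 1 4] 136 136 [] [(135,
  136, [4]), (136, 136, []), (152, 136, [1])]) (.hor [.f 818 1 5] []) .no (.br 1075 (.use 598) .no
  .no (.use 599) .no .no) .no .no

def c21t601 : Tr4 :=
  .br 817 .no (.red [.f 689 1 3, .f 817 3 1, .f 824 1 5, .t 1088 4 2] 136 136 [] [(103, 136, [2,
  4, 2]), (119, 120, [4]), (136, 136, [])]) .no (.use 600) .no (.hor [.t 952 2 4, .f 817 1 5]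
  [(119, 136, [2, 4])])

def c21t602 : Tr4 :=
  .br 1202 (.br 1203 (.hor [.f 1202 1 5] []) .no .no (.red [.f 939 3 1, .f 939 1 3, .f 1067 3 1,
  .f 1066 1 5] 150 136 [4, 4, 1] [(150, 136, [4, 4, 1])]) .no .no) .no .no .no (.red [.t 1066 1 3]
  150 136 [4, 4, 1] [(150, 136, [4, 4, 1])]) (.red [.t 1081 1 4] 151 136 [4, 1] [(151, 136, [4,
  1])])

def c21t603 : Tr4 :=
  .br 1064 (.hor [.f 939 3 1, .f 930 3 1, .f 938 1 5] [(133, 150, [2, 4]), (134, 150, [2])]) (.hor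
  [.f 936 1 3, .f 1064 3 5] [(134, 150, [2])]) .no (.hor [.f 939 3 1, .f 930 3 1, .f 938 1 5]
  [(133, 149, [2]), (134, 150, [2])]) .no .no

def c21t604 : Tr4 :=
  .br 1066 (.use 602) .no .no (.use 603) .no .no

def c21t605 : Tr4 :=
  .br 1338 (.br 1337 (.hor [.f 1337 1 5] []) .no .no (.br 1201 .no .no .no (.red [.f 1065 3 1, .f
  1073 1 3] 151 136 [4, 1] [(150, 136, [4, 1, 4]), (151, 136, [4, 1])]) (.red [.t 1081 1 4] 151
  136 [4, 1] [(151, 136, [4, 1])]) (.red [.t 1336 2 4] 167 136 [4, 1, 1] [(167, 136, [4, 1, 1])]))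
  .no .no) .no (.red [.f 1210 3 1, .f 1210 1 5] 168 136 [1, 1] [(168, 136, [1, 1])]) (.use 531)
  .no (.red [.t 1217 1 4, .f 1210 1 5] 168 136 [1, 1] [(168, 136, [1, 1])])

def c21t606 : Tr4 :=
  .br 1337 (.hor [.f 1337 1 5] []) .no .no .no .no (.red [.t 1200 3 1, .t 1064 1 3, .f 1073 1 3,
  .f 1201 3 1] 151 136 [4, 1] [(150, 136, [4, 4, 1]), (151, 136, [4, 1])])

def c21t607 : Tr4 :=
  .br 1064 (.use 606) .no .no (.hor [.f 928 3 1, .f 936 1 3, .f 1064 3 5] [(133, 136, [4, 4, 4]),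
  (134, 136, [4, 4])]) .no .no

def c21t608 : Tr4 :=
  .br 1203 (.con 136 [4, 1, 1, 4]) .no .no (.red [.f 939 3 1, .f 939 1 3, .f 1067 3 1] 150 136 [4,
  1, 4] [(150, 136, [4, 1, 4])]) .no (.red [.t 1338 4 2, .f 1201 1 5, .t 1081 1 4] 151 136 [4, 1]
  [(151, 136, [4, 1]), (167, 151, [1])])

def c21t609 : Tr4 :=
  .br 1202 (.hor [.f 1201 1 5] []) .no .no (.con 136 [4, 1, 4, 1]) .no .no

def c21t610 : Tr4 :=
  .br 1208 (.con 136 [4, 1, 1]) .no .no (.br 1201 (.use 609) .no .no (.red [.f 1065 3 1, .f 1073 1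
  3] 151 136 [4, 1] [(150, 136, [4, 1, 4]), (151, 136, [4, 1])]) (.red [.t 1081 1 4, .f 1200 3 5]
  151 136 [4, 1] [(151, 136, [4, 1])]) .no) .no .no

def c21t611 : Tr4 :=
  .br 939 .no (.con 136 [2, 4, 4, 1, 1]) (.br 938 (.hor [.f 939 3 1, .f 938 1 5] [(134, 150,
  [2])]) (.hor [.f 810 1 3, .f 938 3 5] [(118, 136, [2, 4, 4])]) .no (.br 1211 (.use 604) .no .no
  (.br 1066 (.br 1202 (.br 1201 (.hor [.f 1201 1 5] []) .no .no (.red [.f 1065 3 1, .f 1065 1 5]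
  150 136 [4, 4, 1] [(150, 136, [4, 4, 1])]) .no (.con 136 [4, 1, 1])) .no .no .no .no (.red [.t
  1081 1 4] 151 136 [4, 1] [(151, 136, [4, 1])])) .no .no (.use 603) .no .no) .no .no) .no (.br
  1211 (.br 696 .no (.hor [.f 568 1 5] []) .no (.br 1208 (.use 605) .no .no (.br 1201 (.br 936
  (.red [.f 936 1 3, .f 1064 3 5, .t 1208 4 2, .f 945 3 1] 151 136 [4, 1] [(134, 150, [2]), (135,
  136, [4]), (151, 136, [4, 1])]) (.con 136 [2, 4, 2, 4, 1, 1, 1]) .no (.br 1338 (.use 607) .no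
  (.red [.f 1210 3 1, .f 1210 1 5] 168 136 [1, 1] [(168, 136, [1, 1])]) (.use 608) .no (.red [.t
  1217 1 4, .f 1210 1 5] 168 136 [1, 1] [(168, 136, [1, 1])])) .no .no) .no .no (.red [.f 1065 3
  1, .f 1073 1 3] 151 136 [4, 1] [(150, 136, [4, 4, 1]), (151, 136, [4, 1])]) (.red [.t 1081 1 4,
  .f 1200 3 5] 151 136 [4, 1] [(151, 136, [4, 1])]) .no) .no .no) .no .no) .no .no (.use 610) .no
  .no)) (.con 136 [2, 4, 4, 1, 1]) .no (.con 136 [2, 4, 4, 1, 1])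

def c21t612 : Tr4 :=
  .br 698 .no (.hor [.f 569 1 5] []) .no (.br 947 .no (.hor [.f 818 1 5] []) .no (.br 819 .no
  (.hor [.t 690 3 1, .f 698 1 3, .f 825 3 5] [(103, 136, [2, 2, 4]), (104, 136, [2, 2])]) .no
  (.hor [.f 811 3 1, .f 818 1 5] [(118, 136, [2, 4, 4])]) .no .no) .no .no) (.hor [.f 698 5 1, .f
  698 1 3, .f 825 3 5, .t 945 3 2, .f 824 1 5] [(104, 136, [2, 2]), (119, 136, [2, 4])]) .no

def c21t613 : Tr4 :=
  .br 819 .no (.br 699 .no (.hor [.t 833 4 2, .f 571 1 3, .f 698 3 5] [(88, 105, [4, 2]), (104,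
  105, [4])]) .no .no .no .no) .no (.hor [.f 811 3 1, .f 818 1 5] [(118, 136, [4, 2, 4])]) .no .no

def c21t614 : Tr4 :=
  .br 826 .no (.br 817 .no (.br 697 .no (.br 827 .no (.hor [.f 698 1 5] []) .no (.br 1217 (.use
  611) .no .no .no .no .no) .no .no) (.hor [.f 697 3 1, .f 697 1 5] [(104, 121, [4, 2])]) .no .no
  (.hor [.t 832 2 4, .f 697 1 5] [(104, 121, [4, 2])])) .no (.use 600) .no (.hor [.t 952 2 4, .f
  817 1 5] [(119, 121, [4, 4])])) (.hor [.f 825 3 5] []) .no (.br 817 .no (.br 834 .no (.br 970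
  .no (.hor [.f 841 1 5] []) (.br 697 .no (.use 612) (.hor [.f 697 3 1, .f 704 1 5] [(104, 105,
  [4])]) .no (.br 1211 (.br 1217 (.br 1208 (.use 605) .no .no (.br 947 .no (.hor [.f 818 1 5] [])
  .no (.br 1201 (.br 1338 (.br 1346 (.red [.f 1338 1 3, .f 1210 3 1] 168 136 [1, 1] [(168, 136,
  [1, 1]), (184, 136, [1, 1, 1])]) .no (.br 1226 .no .no (.br 1096 .no .no (.br 1227 (.br 1106 .no
  .no (.br 1107 (.br 1105 (.con 136 [3, 3, 3, 1]) (.br 842 .no (.red [.f 706 1 3] 105 136 [2, 2,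
  3] [(105, 136, [2, 2, 3])]) (.red [.f 842 3 1, .f 841 1 5, .t 1089 2 3, .f 960 3 5, .t 1104 4 2,
  .t 977 4 2] 138 136 [3, 3] [(137, 121, [1]), (138, 136, [3, 3])]) .no (.br 707 .no (.use 613)
  (.red [.t 706 1 3] 105 136 [2, 2, 3] [(105, 136, [2, 2, 3])]) (.hor [.t 833 4 2, .f 698 3 5]
  [(104, 105, [4])]) .no .no) .no) (.hor [.f 1105 3 5] []) .no .no .no) (.red [.f 971 1 3, .f 970
  3 5] 138 136 [3, 3] [(138, 136, [3, 3])]) (.hor [.f 1106 3 5] []) .no .no .no) .no (.red [.t 970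
  3 1] 138 136 [3, 3] [(138, 136, [3, 3])]) (.red [.t 1225 2 3, .t 1345 2 3, .f 1226 1 5, .t 1090
  3 1, .f 1098 1 3] 153 136 [3, 1] [(153, 136, [3, 1]), (169, 153, [1])])) .no (.hor [.f 1226 3 5]
  []) .no .no .no) .no .no .no) .no (.red [.t 1090 3 1, .t 954 3 1, .f 961 1 5] 153 136 [3, 1]
  [(136, 136, []), (153, 136, [3, 1])]) .no) .no (.red [.t 1210 3 1, .f 1217 1 5] 168 136 [1, 1]
  [(168, 136, [1, 1])]) .no) .no (.red [.f 1210 3 1, .f 1210 1 5] 168 136 [1, 1] [(168, 136, [1,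
  1])]) (.use 608) .no (.red [.t 1217 1 4, .f 1210 1 5] 168 136 [1, 1] [(168, 136, [1, 1])])) .no
  .no (.red [.f 1065 3 1, .f 1073 1 3] 151 136 [4, 1] [(150, 136, [4, 4, 1]), (151, 136, [4, 1])])
  (.red [.t 1081 1 4, .f 1200 3 5] 151 136 [4, 1] [(151, 136, [4, 1])]) .no) .no .no) .no .no) .no
  .no .no .no .no) .no .no (.use 610) .no .no) (.red [.t 832 2 4, .t 968 4 2, .f 824 1 3, .f 696 3
  1] 121 136 [2, 3] [(120, 136, [2]), (121, 136, [2, 3])])) .no .no .no) (.red [.t 962 4 2, .t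
  1098 4 2, .f 961 1 5, .t 841 1 4] 121 136 [2, 3] [(120, 121, [4]), (121, 136, [2, 3]), (137,
  121, [1])]) .no .no .no) .no (.use 600) .no (.hor [.t 952 2 4, .f 817 1 5] [(119, 121, [4,
  4])])) .no

def c21t615 : Tr4 :=
  .br 1203 (.con 136 [4, 1, 1, 4]) .no .no (.red [.f 1067 3 1] 150 136 [4, 1, 4] [(150, 136, [4,
  1, 4])]) .no (.red [.t 1338 4 2, .f 1201 1 5, .t 1081 1 4] 151 136 [4, 1] [(151, 136, [4, 1]),
  (167, 151, [1])])

def c21t616 : Tr4 :=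
  .br 1465 (.br 1353 (.br 1473 (.red [.f 1465 1 3, .t 1472 2 4] 184 136 [1, 1, 1] [(184, 136, [1,
  1, 1]), (200, 136, [1, 1, 1, 1])]) .no .no .no (.red [.t 1353 1 4] 185 136 [3, 1, 1, 1] [(185,
  136, [3, 1, 1, 1])]) .no) .no (.br 1352 (.con 136 [3, 1, 3, 1, 1]) .no (.hor [.f 1352 3 5] [])
  .no .no .no) .no .no (.red [.t 1216 3 1, .t 1080 3 1, .f 1209 3 5, .t 1097 1 4] 153 136 [3, 1]
  [(152, 136, [1]), (153, 136, [3, 1]), (169, 153, [1])])) .no (.red [.t 1472 2 4, .f 1337 1 5]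
  184 136 [1, 1, 1] [(184, 136, [1, 1, 1])]) (.br 1328 (.red [.t 1456 2 3, .f 1337 1 5, .t 1217 1
  4] 168 136 [1, 1] [(168, 136, [1, 1]), (183, 199, [2])]) .no .no .no .no .no) .no (.red [.f 1336
  5 1, .f 1337 1 5, .t 1217 1 4] 168 136 [1, 1] [(168, 136, [1, 1])])

def c21t617 : Tr4 :=
  .br 1211 (.br 1217 (.br 1208 (.use 605) .no .no (.br 1201 (.br 1338 (.br 1346 (.red [.f 1338 1
  3, .f 1210 3 1] 168 136 [1, 1] [(168, 136, [1, 1]), (184, 136, [1, 1, 1])]) .no (.br 1064 (.use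
  606) (.red [.f 936 1 3, .f 1064 3 5, .t 1208 4 2, .f 945 3 1] 151 136 [4, 1] [(134, 150, [2]),
  (135, 136, [4]), (151, 136, [4, 1])]) .no (.br 1202 (.hor [.f 1201 1 5] []) .no .no (.br 1203
  (.con 136 [4, 4, 1, 1]) .no .no (.hor [.f 1194 3 5] []) .no .no) (.br 1066 (.red [.t 1066 1 3]
  150 136 [4, 4, 1] [(150, 136, [4, 4, 1])]) .no .no (.br 1226 .no .no (.br 1337 (.hor [.f 1337 1
  5] []) .no .no .no .no (.br 1344 (.br 1192 (.use 616) .no .no (.red [.f 1056 3 1] 149 136 [4, 4,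
  4, 1] [(149, 136, [4, 4, 4, 1])]) (.red [.t 1200 3 1, .f 1192 5 3, .f 1065 3 1, .f 1073 1 3] 151
  136 [4, 1] [(150, 136, [4, 4, 1]), (151, 136, [4, 1]), (167, 151, [1])]) .no) .no (.con 136 [3,
  1, 1, 1]) .no .no .no)) .no .no .no) .no .no) .no) .no .no) .no (.red [.t 1210 3 1, .f 1217 1 5]
  168 136 [1, 1] [(168, 136, [1, 1])]) .no) .no (.red [.f 1210 3 1, .f 1210 1 5] 168 136 [1, 1]
  [(168, 136, [1, 1])]) (.use 615) .no (.red [.t 1217 1 4, .f 1210 1 5] 168 136 [1, 1] [(168, 136,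
  [1, 1])])) .no .no (.red [.f 1065 3 1, .f 1073 1 3] 151 136 [4, 1] [(150, 136, [4, 4, 1]), (151,
  136, [4, 1])]) (.red [.t 1081 1 4, .f 1200 3 5] 151 136 [4, 1] [(151, 136, [4, 1])]) .no) .no
  .no) .no .no .no .no .no) .no .no (.use 610) .no .no

def c21t618 : Tr4 :=
  .br 1072 (.con 136 [4, 4, 1]) .no .no (.hor [.f 1064 3 5] []) .no .no

def c21t619 : Tr4 :=
  .br 1200 (.red [.f 1200 1 3, .t 1208 4 2] 151 136 [4, 1] [(151, 136, [4, 1]), (167, 136, [4, 1,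
  1])]) .no .no (.br 1201 (.br 1202 (.hor [.f 1201 1 5] []) .no .no (.con 136 [4, 1, 1, 4]) (.con
  136 [4, 1, 4, 1]) .no) .no .no (.hor [.f 1192 3 5] []) (.red [.t 1081 1 4] 151 136 [4, 1] [(151,
  136, [4, 1])]) .no) (.red [.f 1072 5 1, .f 1073 1 3] 151 136 [4, 1] [(151, 136, [4, 1])]) .no

def c21t620 : Tr4 :=
  .br 1208 (.use 619) .no .no (.red [.t 1208 4 2, .f 1073 3 5] 151 136 [4, 1] [(151, 136, [4,
  1])]) .no .no

def c21t621 : Tr4 :=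
  .br 834 .no (.use 45) (.br 944 (.con 136 [2, 4, 1, 3]) (.con 136 [2, 4, 1, 4]) (.br 826 .no
  (.use 47) .no (.use 522) (.use 108) .no) (.con 136 [2, 4, 1, 4]) .no .no) (.con 136 [2, 2]) .no
  (.red [.t 953 2 3, .f 824 3 5, .t 968 4 2] 121 136 [2, 3] [(120, 104, [1]), (121, 136, [2, 3])])

def c21l22 : List Tr4 :=
  [c21t590, c21t591, c21t592, c21t593, c21t594, c21t595, c21t596, c21t597, c21t598, c21t599,
  c21t600, c21t601, c21t602, c21t603, c21t604, c21t605, c21t606, c21t607, c21t608, c21t609,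
  c21t610, c21t611, c21t612, c21t613, c21t614, c21t615, c21t616, c21t617, c21t618, c21t619,
  c21t620, c21t621]

theorem c21k22 : chkLF ⟨4, 0, 0, true, -8⟩ false 1 c21N 590 c21l22 = true := by decide +kernel

def c21t622 : Tr4 :=
  .br 832 .no (.br 953 .no (.use 582) .no (.br 1073 (.red [.f 1073 1 3, .f 1073 3 5] 151 136 [4,
  1] [(151, 136, [4, 1])]) .no .no (.br 952 .no (.br 944 (.br 946 .no (.br 825 .no (.use 601) (.br
  1075 (.use 598) (.red [.f 947 1 3, .f 1074 3 5, .t 1218 4 2, .f 1081 1 5, .t 961 1 4] 136 136 []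
  [(135, 136, [4]), (136, 136, []), (152, 136, [1])]) .no (.use 614) .no .no) (.hor [.f 817 3 1,
  .f 817 1 5] [(119, 121, [4, 4])]) (.hor [.t 945 3 2, .f 824 1 5] [(119, 121, [4, 4])]) .no) .no
  (.br 1075 (.use 598) (.red [.f 947 1 3, .f 1074 3 5, .t 1218 4 2, .f 1081 1 5, .t 961 1 4] 136
  136 [] [(135, 136, [4]), (136, 136, []), (152, 136, [1])]) .no (.br 1227 (.use 617) .no (.br
  1211 (.br 1217 (.br 1208 (.use 605) .no .no (.br 1201 (.br 1338 (.br 1346 (.red [.f 1338 1 3, .f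
  1210 3 1] 168 136 [1, 1] [(168, 136, [1, 1]), (184, 136, [1, 1, 1])]) .no (.br 1226 .no .no
  (.hor [.f 1226 3 5] []) .no .no .no) .no (.red [.t 1210 3 1, .f 1217 1 5] 168 136 [1, 1] [(168,
  136, [1, 1])]) .no) .no (.red [.f 1210 3 1, .f 1210 1 5] 168 136 [1, 1] [(168, 136, [1, 1])])
  (.use 615) .no (.red [.t 1217 1 4, .f 1210 1 5] 168 136 [1, 1] [(168, 136, [1, 1])])) .no .no
  (.red [.f 1065 3 1, .f 1073 1 3] 151 136 [4, 1] [(150, 136, [4, 4, 1]), (151, 136, [4, 1])])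
  (.red [.t 1081 1 4, .f 1200 3 5] 151 136 [4, 1] [(151, 136, [4, 1])]) .no) .no .no) .no .no .no
  .no .no) .no .no (.use 610) .no .no) .no .no (.red [.t 1090 3 1, .t 954 3 1, .f 961 1 5] 153 136
  [3, 1] [(136, 136, []), (153, 136, [3, 1])])) .no .no) (.red [.t 1082 4 2, .t 1218 4 2, .f 1081
  1 5, .t 961 1 4] 136 136 [] [(135, 136, [4]), (136, 136, []), (152, 136, [1])]) .no) (.use 593)
  .no (.br 1075 (.use 598) (.red [.f 947 1 3, .f 1074 3 5, .t 1218 4 2, .f 1081 1 5, .t 961 1 4]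
  136 136 [] [(135, 134, [3]), (136, 136, []), (152, 136, [1])]) .no (.use 618) .no .no) .no .no)
  .no (.hor [.f 944 3 5] []) .no .no) .no (.use 620)) .no (.red [.t 1088 4 2, .f 953 3 5] 136 136
  [] [(136, 136, [])])) (.red [.f 832 3 1, .f 840 1 5] 121 136 [2, 3] [(121, 136, [2, 3])]) (.br
  1073 (.red [.f 1073 1 3, .f 1073 3 5] 151 136 [4, 1] [(151, 136, [4, 1])]) (.br 953 .no (.use
  621) .no .no .no (.red [.t 1088 4 2, .f 953 3 5] 136 136 [] [(136, 136, [])])) .no (.br 1075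
  (.use 598) (.red [.f 947 1 3, .f 1074 3 5, .t 1218 4 2, .f 1081 1 5, .t 961 1 4] 136 136 []
  [(135, 136, [4]), (136, 136, []), (152, 136, [1])]) .no (.br 952 .no .no .no (.br 953 .no (.br
  826 .no (.use 47) (.con 136 [2, 2]) (.br 946 .no .no .no (.use 519) (.red [.t 1082 4 2, .t 1218
  4 2, .f 1081 1 5, .t 961 1 4] 136 136 [] [(135, 119, [1]), (136, 136, []), (152, 136, [1])])
  (.red [.t 825 1 4, .f 944 3 5] 119 136 [2, 4] [(119, 136, [2, 4])])) (.use 108) .no) .no (.hor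
  [.f 944 3 5] []) .no .no) (.red [.t 1088 4 2, .f 953 3 5] 136 136 [] [(136, 136, [])]) .no) .no
  .no) .no (.use 620)) (.red [.t 968 4 2] 121 136 [2, 3] [(121, 136, [2, 3])]) .no

def c21t623 : Tr4 :=
  .br 1218 (.use 573) .no (.red [.f 1090 3 1, .f 1090 1 5] 153 136 [3, 1] [(153, 136, [3, 1])])
  (.use 518) .no (.use 515)

def c21t624 : Tr4 :=
  .br 1225 (.con 136 [3, 1, 1, 3]) .no (.use 533) .no (.red [.t 1345 2 3, .f 1226 1 5, .t 1090 3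
  1] 153 136 [3, 1] [(153, 136, [3, 1]), (169, 153, [1])]) .no

def c21t625 : Tr4 :=
  .br 1106 (.red [.t 960 3 1, .f 1089 3 5, .f 1097 5 1, .f 1098 1 3] 154 136 [3, 3, 1] [(137, 121,
  [1]), (154, 136, [3, 3, 1])]) .no (.hor [.f 1106 3 5] []) .no .no (.red [.t 960 3 1, .f 1089 3
  5, .f 1097 5 3, .f 970 3 1] 138 136 [3, 3] [(137, 121, [1]), (138, 136, [3, 3])])

def c21t626 : Tr4 :=
  .br 1217 (.br 835 (.br 969 .no (.br 970 .no (.hor [.f 841 1 5] []) (.br 1211 (.br 1075 (.br 1208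
  (.use 596) .no .no (.dom 151 136 [4, 1]) .no .no) (.red [.f 947 1 3, .f 1074 3 5, .t 1218 4 2,
  .f 1081 1 5, .t 961 1 4] 136 136 [] [(135, 136, [4]), (136, 136, []), (152, 136, [1])]) .no (.br
  1208 (.use 605) .no .no (.br 1201 (.br 1338 (.br 1346 (.red [.f 1338 1 3, .f 1210 3 1] 168 136
  [1, 1] [(168, 136, [1, 1]), (184, 136, [1, 1, 1])]) .no (.br 1227 (.use 624) .no (.br 1107 .no
  (.red [.f 971 1 3, .f 970 3 5] 138 136 [3, 3] [(138, 136, [3, 3])]) (.br 1226 .no .no (.hor [.f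
  1226 3 5] []) .no .no (.use 625)) .no .no (.red [.t 970 3 1] 138 136 [3, 3] [(138, 136, [3,
  3])])) .no .no (.red [.t 1090 3 1, .t 954 3 1, .f 961 1 5] 153 136 [3, 1] [(136, 136, []), (153,
  136, [3, 1])])) .no (.red [.t 1210 3 1, .f 1217 1 5] 168 136 [1, 1] [(168, 136, [1, 1])]) .no)
  .no (.red [.f 1210 3 1, .f 1210 1 5] 168 136 [1, 1] [(168, 136, [1, 1])]) (.use 615) .no (.red
  [.t 1217 1 4, .f 1210 1 5] 168 136 [1, 1] [(168, 136, [1, 1])])) .no .no (.red [.f 1065 3 1, .f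
  1073 1 3] 151 136 [4, 1] [(150, 136, [4, 1, 4]), (151, 136, [4, 1])]) (.red [.t 1081 1 4, .f
  1200 3 5] 151 136 [4, 1] [(151, 136, [4, 1])]) .no) .no .no) .no .no) .no .no (.use 610) .no
  .no) .no .no .no) (.use 72) .no (.red [.t 1089 2 3, .t 1209 2 3, .f 1090 1 5, .t 954 3 1, .f 962
  1 3] 136 136 [] [(136, 136, []), (152, 136, [1])]) .no) (.con 136 [3, 2, 4, 1]) (.con 136 [3, 2,
  4, 1]) (.con 136 [3, 2, 4, 1]) .no .no) .no (.hor [.f 1216 3 5] []) .no .no .no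

def c21t627 : Tr4 :=
  .br 1202 (.red [.f 1202 1 3, .f 1074 3 1] 151 136 [4, 1] [(151, 136, [4, 1]), (167, 136, [4, 1,
  1])]) .no .no (.br 1201 (.con 136 [4, 1, 4, 1]) .no .no (.hor [.f 1193 3 5] []) .no (.con 136
  [4, 1, 1])) .no (.red [.t 1081 1 4] 151 136 [4, 1] [(151, 136, [4, 1])])

def c21t628 : Tr4 :=
  .br 1227 (.use 507) .no (.br 1107 .no (.red [.f 971 1 3, .f 970 3 5] 138 136 [3, 3] [(138, 136,
  [3, 3])]) (.br 1226 (.br 1225 (.hor [.f 1225 1 5] []) .no (.br 1105 .no (.red [.t 960 3 1, .f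
  1089 3 5, .t 977 1 4] 138 136 [3, 3] [(137, 121, [1]), (138, 136, [3, 3])]) (.br 1106 (.red [.t
  960 3 1, .f 1089 3 5, .t 1233 4 2] 154 136 [3, 3, 1] [(137, 121, [1]), (154, 136, [3, 3, 1])])
  .no (.hor [.f 1105 3 5] []) .no .no .no) .no (.red [.t 960 3 1, .f 1089 3 5, .f 1097 5 3, .f 970
  3 1] 138 136 [3, 3] [(137, 121, [1]), (138, 136, [3, 3])]) (.red [.f 1096 5 3, .f 1097 3 1, .t
  1097 1 4] 154 136 [3, 3, 1] [(153, 136, [3, 1]), (154, 136, [3, 3, 1])])) .no .no .no) .no (.hor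
  [.f 1226 3 5] []) .no .no (.use 625)) .no .no (.red [.t 970 3 1] 138 136 [3, 3] [(138, 136, [3,
  3])])) .no .no (.red [.t 1090 3 1, .t 954 3 1, .f 961 1 5] 153 136 [3, 1] [(136, 136, []), (153,
  136, [3, 1])])

def c21t629 : Tr4 :=
  .br 969 .no (.br 970 .no (.hor [.f 841 1 5] []) (.use 628) .no .no .no) (.br 970 .no (.con 136
  [3, 2, 3]) (.use 628) .no .no .no) .no (.red [.t 960 3 1, .t 1096 2 4, .t 1089 2 3, .f 1089 5 1,
  .t 1216 3 2, .f 961 3 1] 153 136 [3, 1] [(153, 136, [3, 1])]) .no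

def c21t630 : Tr4 :=
  .br 1072 (.con 136 [4, 4, 1]) .no .no (.red [.f 936 3 1] 134 136 [4, 4] [(134, 136, [4, 4])])
  .no .no

def c21t631 : Tr4 :=
  .br 1208 (.br 1210 (.use 561) .no (.use 619) (.red [.f 1074 3 1, .f 1081 1 5] 151 136 [4, 1]
  [(151, 136, [4, 1])]) (.br 1216 (.use 623) .no (.br 1218 (.use 560) .no (.red [.f 1090 3 1, .f
  1090 1 5] 153 136 [3, 1] [(153, 136, [3, 1])]) .no .no (.use 629)) .no (.red [.t 1080 3 1, .f
  1072 5 3, .f 945 3 1, .f 953 1 3] 136 136 [] [(135, 136, [4]), (136, 136, []), (152, 136, [1])])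
  .no) .no) .no (.red [.f 1080 3 1, .f 1080 1 5, .f 1072 5 3, .f 945 3 1, .f 953 1 3, .t 1088 1 4]
  136 136 [] [(135, 136, [4]), (136, 136, [])]) (.red [.t 1208 4 2, .f 1073 3 5] 151 136 [4, 1]
  [(151, 136, [4, 1])]) .no .no

def c21t632 : Tr4 :=
  .br 1073 (.red [.f 1073 1 3, .f 1073 3 5] 151 136 [4, 1] [(151, 136, [4, 1])]) .no .no (.br 944
  (.br 1216 (.use 623) .no (.br 1218 (.use 560) .no (.red [.f 1090 3 1, .f 1090 1 5] 153 136 [3,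
  1] [(153, 136, [3, 1])]) (.use 626) .no (.use 629)) (.red [.f 1080 3 1, .f 1080 1 5, .t 944 1 3,
  .f 953 1 3, .t 1088 1 4] 136 136 [] [(135, 136, [4]), (136, 136, [])]) (.red [.t 1080 3 1, .t
  944 1 3, .f 953 1 3, .f 1081 3 1] 136 136 [] [(135, 136, [4]), (136, 136, [])]) .no) (.use 593)
  .no (.br 1218 (.use 594) .no (.red [.f 1090 3 1, .f 1090 1 5] 153 136 [3, 1] [(153, 136, [3,
  1])]) (.br 1216 (.use 518) .no (.use 626) (.con 136 [1, 1]) (.br 1075 (.br 1226 (.br 1072 (.br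
  1201 (.br 1211 (.br 1346 (.br 1338 (.red [.f 1338 1 3, .f 1210 3 1] 168 136 [1, 1] [(168, 136,
  [1, 1]), (184, 136, [1, 1, 1])]) .no .no (.con 136 [4, 1, 1, 4]) .no (.br 1345 (.hor [.f 1345 1
  5] []) .no (.red [.t 1080 3 1, .f 1209 3 5, .t 1353 4 2] 169 136 [3, 1, 1] [(152, 136, [1]),
  (169, 136, [3, 1, 1])]) .no .no (.red [.f 1216 5 1, .t 1217 1 4] 168 136 [1, 1] [(168, 136, [1,
  1])]))) .no .no (.red [.f 1210 3 1, .f 1210 1 5] 168 136 [1, 1] [(168, 136, [1, 1])]) (.red [.t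
  1210 3 1, .t 1074 3 1, .f 1081 1 5] 168 136 [1, 1] [(151, 136, [4, 1]), (168, 136, [1, 1])])
  (.red [.t 1080 3 1, .f 1209 3 5, .f 1217 5 1, .f 1218 1 3] 169 136 [3, 1, 1] [(152, 136, [1]),
  (169, 136, [3, 1, 1])])) .no .no .no .no .no) .no .no (.red [.f 1065 3 1, .f 1072 1 5] 150 136
  [4, 4, 1] [(150, 136, [4, 4, 1])]) (.red [.t 1081 1 4, .f 1074 1 5] 151 136 [4, 1] [(151, 136,
  [4, 1])]) .no) .no .no (.hor [.f 1064 3 5] []) .no .no) .no (.use 139) .no (.red [.t 1090 3 1,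
  .t 954 3 1, .f 961 1 5] 153 136 [3, 1] [(136, 136, []), (153, 136, [3, 1])]) (.red [.t 1080 3 1,
  .f 1209 3 5, .f 1217 5 3, .f 1090 3 1] 153 136 [3, 1] [(152, 136, [1]), (153, 136, [3, 1])]))
  (.red [.f 947 1 3, .f 1074 3 5, .t 1218 4 2, .f 1081 1 5, .t 961 1 4] 136 136 [] [(135, 134,
  [3]), (136, 136, []), (152, 136, [1])]) .no (.use 618) .no .no) .no) .no (.br 1075 (.use 555)
  (.use 630) .no (.use 618) .no .no)) .no .no) .no (.use 631)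

def c21t633 : Tr4 :=
  .br 945 .no (.red [.f 816 3 1] 119 136 [4, 2] [(119, 136, [4, 2])]) (.hor [.f 944 3 5] []) (.red
  [.f 816 3 1] 119 136 [4, 2] [(119, 136, [4, 2])]) (.red [.f 816 3 1] 119 136 [4, 2] [(119, 136,
  [4, 2])]) .no

def c21t634 : Tr4 :=
  .br 824 .no (.br 953 .no (.use 510) .no (.hor [.f 944 3 5] []) .no .no) .no (.use 633) (.use
  559) .no

def c21t635 : Tr4 :=
  .br 826 .no (.use 47) (.con 136 [2, 2]) (.use 514) (.use 108) .no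

def c21t636 : Tr4 :=
  .br 1075 (.use 555) (.con 136 [2, 4, 4]) .no (.use 586) .no .no

def c21t637 : Tr4 :=
  .br 817 .no (.use 636) .no (.red [.f 809 3 1, .f 817 1 5] 118 136 [2, 4, 4] [(118, 136, [2, 4,
  4])]) .no (.red [.t 953 2 3, .t 833 4 1, .t 952 4 2] 119 136 [2, 4] [(119, 136, [2, 4])])

def c21t638 : Tr4 :=
  .br 969 .no (.br 832 .no (.use 634) (.red [.f 832 3 1, .f 840 1 5] 121 136 [2, 3] [(121, 136,
  [2, 3])]) (.br 953 .no (.use 635) .no (.hor [.f 944 3 5] []) .no .no) (.red [.t 968 4 2] 121 136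
  [2, 3] [(121, 136, [2, 3])]) .no) (.use 72) .no (.br 1210 (.br 1211 (.hor [.f 1210 1 5] []) .no
  .no (.use 627) .no .no) .no (.red [.t 1089 2 3, .t 1209 2 3, .f 1090 1 5, .t 954 3 1, .f 962 1
  3] 136 136 [] [(136, 136, []), (152, 136, [1])]) (.red [.f 1074 3 1, .f 1081 1 5] 151 136 [4, 1]
  [(151, 136, [4, 1])]) (.br 1218 (.br 1216 (.br 1217 (.hor [.f 1216 1 5] []) .no (.con 136 [3, 1,
  1]) .no .no .no) .no (.use 560) (.use 568) (.br 953 .no (.use 592) .no (.use 595) .no .no) .no)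
  .no (.red [.f 1090 3 1, .f 1090 1 5] 153 136 [3, 1] [(153, 136, [3, 1])]) .no .no (.br 1227
  (.use 507) .no (.br 953 .no (.br 824 .no (.br 834 .no (.use 437) (.red [.t 1089 2 3, .f 970 1 5,
  .t 834 3 1] 121 136 [2, 3] [(121, 136, [2, 3]), (137, 121, [1])]) (.use 512) .no (.br 945 .no
  (.use 542) .no (.br 946 .no (.use 637) .no (.hor [.f 937 3 5] []) (.use 557) .no) (.use 440)
  .no)) (.br 834 .no (.use 45) (.red [.t 1089 2 3, .f 970 1 5, .t 834 3 1] 121 136 [2, 3] [(121,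
  136, [2, 3]), (137, 121, [1])]) (.con 136 [2, 2]) .no (.br 945 .no (.red [.f 817 1 3] 119 136
  [2, 4] [(119, 136, [2, 4])]) .no (.br 946 .no (.use 637) .no (.hor [.f 937 3 5] []) (.br 817 .no
  (.br 826 .no (.use 47) .no (.red [.t 1082 4 2, .f 937 3 1, .f 945 1 5, .t 825 1 4] 119 136 [2,
  4] [(119, 136, [2, 4]), (134, 118, [1]), (135, 119, [1])]) (.use 591) .no) .no (.red [.f 809 3
  1, .f 817 1 3] 119 136 [2, 4] [(118, 136, [2, 4, 4]), (119, 136, [2, 4])]) (.use 556) (.red [.t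
  953 2 3, .t 833 4 1, .t 952 4 2] 119 136 [2, 4] [(119, 136, [2, 4])])) .no) (.red [.t 953 2 3,
  .f 945 5 3, .f 944 3 5, .t 1088 4 2, .f 825 3 1] 136 136 [] [(136, 136, [])]) .no)) (.use 581)
  .no .no) .no (.hor [.f 944 3 5] []) .no .no) .no .no (.red [.t 1090 3 1, .t 954 3 1, .f 961 1 5]
  153 136 [3, 1] [(136, 136, []), (153, 136, [3, 1])]))) .no) .no

def c21t639 : Tr4 :=
  .br 946 .no (.con 136 [2, 4, 4]) .no (.hor [.f 937 3 5] []) .no .no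

def c21t640 : Tr4 :=
  .br 945 .no (.use 542) .no (.br 1208 (.br 1210 (.use 561) .no (.use 619) (.red [.f 1074 3 1, .f
  1081 1 5] 151 136 [4, 1] [(151, 136, [4, 1])]) (.br 1075 (.red [.t 1074 3 1, .f 1081 1 5] 151
  136 [4, 1] [(151, 136, [4, 1])]) (.use 639) .no (.use 564) .no .no) .no) .no (.br 1218 (.use
  568) .no (.red [.f 1090 3 1, .f 1090 1 5] 153 136 [3, 1] [(153, 136, [3, 1])]) (.con 136 [1, 1])
  .no (.br 1075 (.use 555) (.use 639) .no (.use 570) .no .no)) (.red [.t 1208 4 2, .f 1073 3 5]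
  151 136 [4, 1] [(151, 136, [4, 1])]) .no .no) (.use 479) .no

def c21t641 : Tr4 :=
  .br 946 .no (.con 136 [2, 4, 4]) .no (.hor [.f 937 3 5] []) .no .no

def c21t642 : Tr4 :=
  .br 945 .no (.red [.f 817 1 3] 119 136 [2, 4] [(119, 136, [2, 4])]) .no (.use 641) (.red [.t 953
  2 3, .f 945 5 3, .f 944 3 5, .t 1088 4 2, .f 825 3 1] 136 136 [] [(136, 136, [])]) .no

def c21t643 : Tr4 :=
  .br 963 .no (.br 969 .no (.use 635) (.use 72) .no (.br 834 .no (.use 45) (.red [.t 1089 2 3, .f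
  970 1 5, .t 834 3 1] 121 136 [2, 3] [(121, 136, [2, 3]), (137, 121, [1])]) (.con 136 [2, 2]) .no
  (.use 642)) .no) .no .no .no .no

def c21l23 : List Tr4 :=
  [c21t622, c21t623, c21t624, c21t625, c21t626, c21t627, c21t628, c21t629, c21t630, c21t631,
  c21t632, c21t633, c21t634, c21t635, c21t636, c21t637, c21t638, c21t639, c21t640, c21t641,
  c21t642, c21t643]

theorem c21k23 : chkLF ⟨4, 0, 0, true, -8⟩ false 1 c21N 622 c21l23 = true := by decide +kernel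

def c21t644 : Tr4 :=
  .br 952 .no (.br 832 .no (.br 833 .no (.hor [.f 704 1 5] []) (.br 834 .no (.con 136 [3, 2, 2])
  (.hor [.f 833 3 5] []) (.con 136 [3, 2, 2]) (.con 136 [3, 2, 2]) .no) (.red [.t 960 3 1, .t 824
  1 3, .f 952 3 1, .f 960 1 3] 136 136 [] [(120, 136, [2]), (136, 136, [])]) (.br 825 (.hor [.f
  824 1 5] []) (.br 945 (.con 136 [4, 2, 3, 1]) (.con 136 [4, 2, 3, 1]) (.use 632) (.con 136 [4,
  2, 3, 1]) (.con 136 [4, 2, 3, 1]) (.con 136 [4, 2, 3, 1])) .no (.br 945 (.con 136 [4, 2, 3, 1])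
  .no (.use 632) (.con 136 [4, 2, 3, 1]) (.con 136 [4, 2, 3, 1]) (.con 136 [4, 2, 3, 1])) (.red
  [.t 960 3 1, .f 825 5 3, .t 824 1 3, .f 952 3 1, .f 960 1 3] 136 136 [] [(120, 136, [2]), (136,
  136, [])]) .no) .no) (.red [.f 832 3 1] 121 136 [3, 2] [(121, 136, [3, 2])]) .no (.red [.t 960 3
  1, .f 832 5 1, .f 824 1 3, .f 952 3 1, .f 960 1 3] 136 136 [] [(120, 136, [2]), (136, 136, [])])
  .no) .no (.br 1073 (.red [.f 1073 1 3, .f 1073 3 5] 151 136 [4, 1] [(151, 136, [4, 1])]) (.br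
  1216 (.use 623) .no (.br 1218 (.use 560) .no (.red [.f 1090 3 1, .f 1090 1 5] 153 136 [3, 1]
  [(153, 136, [3, 1])]) (.br 963 .no (.br 825 (.br 969 .no (.br 832 .no (.use 582) (.red [.f 832 3
  1, .f 840 1 5] 121 136 [2, 3] [(121, 136, [2, 3])]) (.use 621) (.red [.t 968 4 2] 121 136 [2, 3]
  [(121, 136, [2, 3])]) .no) (.use 72) .no (.red [.t 1089 2 3, .t 1209 2 3, .f 1090 1 5, .t 954 3
  1, .f 962 1 3] 136 136 [] [(136, 136, []), (152, 136, [1])]) .no) (.con 136 [4, 2, 3, 3]) (.con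
  136 [4, 2, 3, 3]) (.con 136 [4, 2, 3, 3]) (.con 136 [4, 2, 3, 3]) (.con 136 [4, 2, 3, 3])) .no
  .no .no .no) .no (.use 629)) (.red [.f 1080 3 1, .f 1080 1 5, .t 944 3 1, .f 1073 3 5, .t 961 1
  4] 136 136 [] [(135, 119, [1]), (136, 136, []), (152, 136, [1])]) (.red [.t 1080 3 1, .t 944 3
  1, .f 1073 3 5, .t 961 1 4] 136 136 [] [(135, 119, [1]), (136, 136, []), (152, 136, [1])]) .no)
  .no (.br 963 .no (.use 638) .no .no .no .no) .no (.br 953 .no (.br 824 .no (.use 640) (.br 1208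
  (.br 1210 (.use 561) .no (.use 619) (.red [.f 1074 3 1, .f 1081 1 5] 151 136 [4, 1] [(151, 136,
  [4, 1])]) (.br 1075 (.red [.t 1074 3 1, .f 1081 1 5] 151 136 [4, 1] [(151, 136, [4, 1])]) (.use
  643) .no (.use 564) .no .no) .no) .no (.br 1218 (.use 568) .no (.red [.f 1090 3 1, .f 1090 1 5]
  153 136 [3, 1] [(153, 136, [3, 1])]) (.con 136 [1, 1]) .no (.br 1075 (.use 555) (.use 643) .no
  (.use 570) .no .no)) (.red [.t 1208 4 2, .f 1073 3 5] 151 136 [4, 1] [(151, 136, [4, 1])]) .no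
  .no) (.use 581) .no .no) .no (.use 631) .no .no)) (.red [.t 1088 4 2, .f 953 3 5] 136 136 []
  [(136, 136, [])]) .no

def c21t645 : Tr4 :=
  .br 947 (.con 136 [4, 4]) (.hor [.f 818 1 5] []) .no (.con 136 [4, 2, 4]) .no .no

def c21t646 : Tr4 :=
  .br 816 .no (.red [.f 688 1 3] 103 136 [2, 2, 4] [(103, 136, [2, 2, 4])]) .no (.red [.t 937 2 3,
  .f 808 3 5, .t 952 4 2] 119 136 [2, 4] [(118, 117, [3]), (119, 136, [2, 4])]) .no .no

def c21t647 : Tr4 :=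
  .br 817 .no (.br 818 .no (.hor [.f 689 1 5] []) .no (.use 438) .no .no) .no .no (.use 646) (.red
  [.t 952 4 2] 119 136 [2, 4] [(119, 136, [2, 4])])

def c21t648 : Tr4 :=
  .br 1216 (.use 518) .no (.br 1217 (.br 946 .no (.use 645) .no (.br 947 (.con 136 [4, 4]) (.br
  937 (.red [.f 937 1 3, .f 937 3 5] 134 136 [4, 4] [(134, 136, [4, 4])]) (.use 647) .no (.use
  577) .no (.use 540)) .no (.hor [.f 938 3 5] []) .no .no) (.red [.t 1082 4 2, .t 1218 4 2, .f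
  1081 1 5, .t 961 1 4] 136 136 [] [(135, 119, [1]), (136, 136, []), (152, 136, [1])]) .no) .no
  (.hor [.f 1216 3 5] []) .no .no .no) (.con 136 [1, 1]) (.red [.t 1080 3 1, .t 944 3 1, .f 1073 3
  5, .t 961 1 4] 136 136 [] [(135, 119, [1]), (136, 136, []), (152, 136, [1])]) .no

def c21t649 : Tr4 :=
  .br 1216 (.use 573) .no (.use 560) (.use 568) (.red [.t 1080 3 1, .t 944 3 1, .f 1073 3 5, .t
  961 1 4] 136 136 [] [(135, 119, [1]), (136, 136, []), (152, 136, [1])]) .no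

def c21t650 : Tr4 :=
  .br 1217 (.use 597) .no (.hor [.f 1216 3 5] []) .no .no .no

def c21t651 : Tr4 :=
  .br 1225 (.br 1226 (.hor [.f 1225 1 5] []) .no (.con 136 [3, 1, 3, 1]) .no .no .no) .no (.use
  533) .no (.red [.t 1080 3 1, .f 1209 3 5, .f 1217 5 3, .f 1090 3 1] 153 136 [3, 1] [(152, 136,
  [1]), (153, 136, [3, 1])]) (.br 1226 (.hor [.f 1226 1 5] []) .no (.con 136 [3, 1, 3, 1]) .no .no
  .no)

def c21t652 : Tr4 :=
  .br 1097 (.red [.t 1080 3 1, .f 1209 3 5, .t 1097 1 4] 153 136 [3, 1] [(152, 136, [1]), (153,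
  136, [3, 1])]) .no (.use 54) .no .no (.use 651)

def c21t653 : Tr4 :=
  .br 1097 (.red [.t 1080 3 1, .f 1209 3 5, .t 1097 1 4] 153 136 [3, 1] [(152, 136, [1]), (153,
  136, [3, 1])]) .no (.use 54) .no .no (.use 651)

def c21t654 : Tr4 :=
  .br 1208 (.br 969 (.red [.f 961 1 3, .f 1089 3 5, .t 1209 2 3, .f 1090 1 5, .t 954 3 1, .t 961 3
  1] 136 136 [] [(136, 136, []), (152, 136, [1])]) (.br 1216 (.use 518) .no (.use 650) .no (.use
  652) .no) (.br 1216 (.use 518) .no (.use 650) .no (.use 653) .no) .no (.red [.t 1089 2 3, .t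
  1209 2 3, .f 1090 1 5, .t 954 3 1, .f 962 1 3] 136 136 [] [(136, 136, []), (152, 136, [1])])
  .no) .no (.con 136 [1, 1]) (.dom 151 136 [4, 1]) .no .no

def c21t655 : Tr4 :=
  .br 1097 (.red [.t 1097 1 4, .f 1090 1 5] 153 136 [3, 1] [(153, 136, [3, 1])]) (.red [.f 961 1
  3, .f 1089 3 5, .f 1089 5 1, .f 1090 1 5, .t 954 3 1, .t 961 3 1] 136 136 [] [(136, 136, [])])
  (.use 54) .no .no (.use 508)

def c21t656 : Tr4 :=
  .br 1073 (.red [.f 1073 1 3, .f 1073 3 5] 151 136 [4, 1] [(151, 136, [4, 1])]) (.br 826 .no (.br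
  1227 (.br 963 .no (.use 425) (.br 834 .no (.use 441) (.br 1216 (.use 575) .no (.br 1218 (.use
  560) .no (.red [.f 1090 3 1, .f 1090 1 5] 153 136 [3, 1] [(153, 136, [3, 1])]) (.br 969 (.red
  [.f 961 1 3, .f 1089 3 5, .t 1209 2 3, .f 1090 1 5, .t 954 3 1, .t 961 3 1] 136 136 [] [(136,
  136, []), (152, 136, [1])]) (.br 832 .no (.use 314) (.hor [.f 832 3 1, .f 840 1 5] [(121, 136,
  [2, 3])]) .no (.use 442) .no) (.use 290) .no (.red [.t 1089 2 3, .t 1209 2 3, .f 1090 1 5, .t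
  954 3 1, .f 962 1 3] 136 136 [] [(136, 136, []), (152, 136, [1])]) .no) .no (.use 574)) (.red
  [.f 1080 3 1, .f 1080 1 5, .t 944 3 1, .f 1073 3 5, .t 961 1 4] 136 136 [] [(135, 119, [1]),
  (136, 136, []), (152, 136, [1])]) (.red [.t 1080 3 1, .t 944 3 1, .f 1073 3 5, .t 961 1 4] 136
  136 [] [(135, 119, [1]), (136, 136, []), (152, 136, [1])]) .no) .no (.use 281) (.red [.t 953 2
  3, .t 1073 2 3, .f 944 3 5, .t 1088 4 2, .f 825 3 1] 136 136 [] [(135, 119, [1]), (136, 136,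
  [])])) .no .no .no) .no (.red [.f 1099 3 1, .f 1091 1 3, .f 1090 3 5] 153 136 [3, 1] [(153, 136,
  [3, 1]), (154, 136, [3, 3, 1])]) .no .no (.red [.t 1090 3 1, .t 954 3 1, .f 961 1 5] 153 136 [3,
  1] [(136, 136, []), (153, 136, [3, 1])])) (.red [.f 826 3 1, .f 825 1 5, .t 1073 2 3, .f 944 3
  5, .t 1088 4 2, .t 961 4 2] 136 136 [] [(135, 119, [1]), (136, 136, [])]) (.use 522) (.br 963
  .no (.br 1227 (.br 1218 (.br 1216 (.use 573) .no (.use 560) (.use 568) (.use 590) .no) .no (.red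
  [.f 1090 3 1, .f 1090 1 5] 153 136 [3, 1] [(153, 136, [3, 1])]) (.use 648) .no (.use 579)) .no
  (.red [.f 1099 3 1, .f 1091 1 3, .f 1090 3 5] 153 136 [3, 1] [(153, 136, [3, 1]), (154, 136, [3,
  3, 1])]) .no .no (.red [.t 1090 3 1, .t 954 3 1, .f 961 1 5] 153 136 [3, 1] [(136, 136, []),
  (153, 136, [3, 1])])) (.br 1218 (.use 649) .no (.red [.f 1090 3 1, .f 1090 1 5] 153 136 [3, 1]
  [(153, 136, [3, 1])]) (.use 648) .no (.br 1097 (.red [.t 1097 1 4, .f 1090 1 5] 153 136 [3, 1]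
  [(153, 136, [3, 1])]) (.red [.f 961 1 3, .f 1089 3 5, .f 1089 5 1, .f 1090 1 5, .t 954 3 1, .t
  961 3 1] 136 136 [] [(136, 136, [])]) (.use 54) .no .no (.use 503))) .no .no .no) .no) .no (.br
  945 .no (.use 542) .no (.br 946 .no (.br 817 .no (.br 1218 (.use 587) .no (.red [.f 1090 3 1, .f
  1090 1 5] 153 136 [3, 1] [(153, 136, [3, 1])]) (.br 1227 (.br 1075 (.use 654) (.con 136 [2, 4,
  4]) .no (.use 586) .no .no) .no (.red [.f 1099 3 1, .f 1091 1 3, .f 1090 3 5] 153 136 [3, 1]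
  [(153, 136, [3, 1]), (154, 136, [3, 3, 1])]) .no .no (.red [.t 1090 3 1, .t 954 3 1, .f 961 1 5]
  153 136 [3, 1] [(136, 136, []), (153, 136, [3, 1])])) .no (.use 636)) .no (.red [.f 809 3 1, .f
  817 1 5] 118 136 [2, 4, 4] [(118, 136, [2, 4, 4])]) .no (.red [.t 952 4 2] 119 136 [2, 4] [(119,
  136, [2, 4])])) .no (.hor [.f 937 3 5] []) (.br 1218 (.use 578) .no (.red [.f 1090 3 1, .f 1090
  1 5] 153 136 [3, 1] [(153, 136, [3, 1])]) (.red [.t 1082 4 2, .t 1218 4 2, .f 1081 1 5, .t 961 1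
  4] 136 136 [] [(135, 119, [1]), (136, 136, []), (152, 136, [1])]) .no (.use 655)) .no) (.use
  479) .no) .no (.use 640)

def c21t657 : Tr4 :=
  .br 963 .no (.con 136 [2, 2]) (.use 321) .no .no .no

def c21t658 : Tr4 :=
  .br 1072 (.con 136 [4, 4, 1]) .no .no (.hor [.f 1064 3 5] []) .no .no

def c21t659 : Tr4 :=
  .br 937 .no .no .no (.br 938 (.br 1067 (.con 136 [4, 4, 4]) (.hor [.f 938 1 5] []) .no (.con 136
  [4, 4, 4]) .no .no) (.red [.t 809 3 1, .f 817 1 3] 119 136 [2, 4] [(118, 136, [2, 4, 4]), (119,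
  136, [2, 4])]) .no (.hor [.f 929 3 5] []) (.br 1064 (.con 136 [4, 4, 1]) (.con 136 [4, 4, 4])
  (.hor [.f 1064 3 5] []) (.con 136 [4, 4, 1]) .no .no) .no) (.red [.f 937 5 3, .f 809 3 1, .f 817
  1 3] 119 136 [2, 4] [(118, 136, [2, 4, 4]), (119, 136, [2, 4])]) (.br 1064 (.con 136 [4, 4, 1])
  .no (.hor [.f 1064 3 5] []) (.con 136 [4, 4, 1]) .no .no)

def c21t660 : Tr4 :=
  .br 818 .no (.hor [.f 689 1 5] []) .no (.use 453) (.use 329) .no

def c21t661 : Tr4 :=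
  .br 1200 (.red [.f 1200 1 3, .t 1208 4 2] 151 136 [4, 1] [(151, 136, [4, 1]), (167, 136, [4, 1,
  1])]) .no .no (.br 1202 (.br 1201 (.hor [.f 1201 1 5] []) .no .no (.hor [.f 1192 3 5] []) .no
  .no) .no .no (.use 563) (.red [.f 1202 5 3, .f 1074 3 1] 151 136 [4, 1] [(151, 136, [4, 1])])
  (.red [.t 1081 1 4] 151 136 [4, 1] [(151, 136, [4, 1])])) (.red [.f 1072 5 1, .f 1073 1 3] 151
  136 [4, 1] [(151, 136, [4, 1])]) .no

def c21t662 : Tr4 :=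
  .br 1210 (.use 561) .no .no (.red [.f 1074 3 1, .f 1081 1 5] 151 136 [4, 1] [(151, 136, [4,
  1])]) (.use 661) .no

def c21t663 : Tr4 :=
  .br 817 .no (.use 394) .no .no .no (.red [.t 952 4 2] 119 136 [2, 4] [(119, 136, [2, 4])])

def c21t664 : Tr4 :=
  .br 970 .no (.use 116) (.hor [.f 970 3 5] []) .no .no .no

def c21t665 : Tr4 :=
  .br 818 .no (.hor [.f 689 1 5] []) .no (.use 247) .no .no

def c21t666 : Tr4 :=
  .br 1208 (.use 531) .no .no (.br 1075 (.dom 151 136 [4, 1]) .no .no (.br 1065 (.use 576) .no .no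
  (.br 1066 (.br 1202 .no .no .no .no (.red [.t 1066 1 3] 150 136 [4, 4, 1] [(150, 136, [4, 4,
  1])]) (.red [.t 1081 1 4, .f 1200 3 5] 151 136 [4, 1] [(151, 136, [4, 1])])) .no .no (.hor [.f
  1057 3 5] []) .no .no) (.red [.t 945 1 4] 134 136 [4, 4] [(134, 136, [4, 4])]) (.con 136 [4, 4,
  1])) .no .no) .no .no

def c21t667 : Tr4 :=
  .br 1338 (.red [.f 1338 1 3, .f 1210 3 1] 168 136 [1, 1] [(168, 136, [1, 1]), (184, 136, [1, 1,
  1])]) .no .no (.use 666) .no (.red [.t 1217 1 4, .f 1210 1 5] 168 136 [1, 1] [(168, 136, [1,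
  1])])

def c21t668 : Tr4 :=
  .br 1211 (.br 1346 (.use 667) .no (.use 624) (.red [.f 1210 3 1, .f 1210 1 5] 168 136 [1, 1]
  [(168, 136, [1, 1])]) (.red [.t 1210 3 1, .f 1217 1 5] 168 136 [1, 1] [(168, 136, [1, 1])]) .no)
  .no .no (.br 1208 (.con 136 [4, 1, 1]) .no .no (.br 1201 (.use 609) .no .no (.br 1202 (.br 1338
  (.br 1346 (.red [.f 1338 1 3, .f 1210 3 1] 168 136 [1, 1] [(168, 136, [1, 1]), (184, 136, [1, 1,
  1])]) .no (.use 624) .no (.br 1339 (.hor [.f 1338 1 5] []) .no .no (.red [.f 1203 3 1, .f 1202 1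
  5] 167 136 [4, 1, 1] [(167, 136, [4, 1, 1])]) .no .no) .no) .no (.red [.f 1210 3 1, .f 1217 1 5]
  168 136 [1, 1] [(168, 136, [1, 1])]) .no (.red [.t 1202 1 3] 167 136 [4, 1, 1] [(167, 136, [4,
  1, 1])]) (.red [.t 1217 1 4] 168 136 [1, 1] [(168, 136, [1, 1])])) .no .no (.hor [.f 1193 3 5]
  []) .no .no) (.red [.t 1081 1 4, .f 1200 3 5] 151 136 [4, 1] [(151, 136, [4, 1])]) .no) .no .no)
  .no .no

def c21t669 : Tr4 :=
  .br 696 .no (.br 817 .no (.use 665) .no .no (.br 697 .no (.hor [.f 568 1 5] []) .no (.br 698 .no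
  (.br 704 .no (.red [.f 568 1 3] 88 136 [2, 2, 2] [(88, 136, [2, 2, 2])]) (.br 706 .no (.red [.f
  570 1 3] 88 136 [2, 2, 2] [(88, 136, [2, 2, 2])]) (.use 388) .no (.br 569 .no (.br 699 .no (.hor
  [.f 570 1 5] []) .no (.br 571 .no (.br 579 .no (.red [.f 443 1 3] 72 136 [2, 2, 2, 2] [(72, 136,
  [2, 2, 2, 2])]) (.br 578 .no (.br 577 .no (.red [.f 441 1 3] 72 136 [2, 2, 2, 2] [(72, 136, [2,
  2, 2, 2])]) (.con 136 [2, 2, 2, 2, 3]) .no .no (.con 136 [2, 2, 2, 2, 3])) (.hor [.f 578 3 5]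
  []) .no .no (.red [.f 706 5 1, .f 705 1 5, .f 577 5 1, .f 570 1 3] 88 136 [2, 2, 2] [(88, 136,
  [2, 2, 2])])) .no .no (.red [.f 578 5 1, .f 570 1 3] 88 136 [2, 2, 2] [(88, 136, [2, 2, 2])]))
  (.red [.t 570 1 3] 88 136 [2, 2, 2] [(88, 136, [2, 2, 2])]) (.hor [.f 563 3 1, .f 570 1 5] [(87,
  88, [4])]) .no .no) .no .no) (.red [.f 706 5 1, .f 705 1 5, .t 569 3 1] 88 136 [2, 2, 2] [(88,
  136, [2, 2, 2])]) (.red [.f 561 3 1, .f 568 1 5, .t 832 4 2] 104 136 [2, 2] [(87, 71, [1]),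
  (104, 136, [2, 2])]) .no .no) .no) .no .no .no) (.red [.f 826 5 3, .f 698 3 1] 104 136 [2, 2]
  [(104, 136, [2, 2])]) (.use 255) (.red [.f 698 5 1, .t 697 4 1] 103 136 [2, 2, 4] [(103, 136,
  [2, 2, 4])]) .no) (.red [.f 826 5 3, .t 833 2 4] 104 136 [2, 2] [(104, 136, [2, 2])]) .no) (.red
  [.t 952 4 2] 119 136 [2, 4] [(119, 136, [2, 4])])) (.red [.f 696 3 1, .f 704 1 5] 104 136 [2, 2]
  [(104, 136, [2, 2])]) (.use 390) (.red [.t 832 4 2] 104 136 [2, 2] [(104, 136, [2, 2])]) .no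

def c21l24 : List Tr4 :=
  [c21t644, c21t645, c21t646, c21t647, c21t648, c21t649, c21t650, c21t651, c21t652, c21t653,
  c21t654, c21t655, c21t656, c21t657, c21t658, c21t659, c21t660, c21t661, c21t662, c21t663,
  c21t664, c21t665, c21t666, c21t667, c21t668, c21t669]

theorem c21k24 : chkLF ⟨4, 0, 0, true, -8⟩ false 1 c21N 644 c21l24 = true := by decide +kernel

def c21t670 : Tr4 :=
  .br 963 .no (.br 971 .no (.red [.f 835 1 3] 121 136 [2, 3] [(121, 136, [2, 3])]) (.use 664) .no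
  .no (.use 446)) (.br 1217 (.br 947 (.con 136 [4, 4]) (.br 937 (.red [.f 937 1 3, .f 937 3 5] 134
  136 [4, 4] [(134, 136, [4, 4])]) (.br 970 .no (.hor [.f 841 1 5] []) (.br 834 .no (.hor [.f 705
  1 5] []) (.br 835 .no (.br 706 .no (.br 1097 (.br 696 .no (.br 698 .no (.red [.f 570 1 3] 88 136
  [2, 2, 2] [(88, 136, [2, 2, 2])]) .no (.use 255) (.red [.f 698 5 1, .f 699 1 3] 104 136 [2, 2]
  [(104, 136, [2, 2])]) (.br 704 .no (.red [.f 568 1 3] 88 136 [2, 2, 2] [(88, 136, [2, 2, 2])])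
  (.br 1096 .no .no (.br 1226 (.hor [.f 1226 1 5] []) .no (.br 817 .no (.br 818 .no (.use 454) .no
  (.use 247) .no .no) .no .no (.use 272) (.red [.t 952 4 2] 119 136 [2, 4] [(119, 136, [2, 4])]))
  .no .no .no) .no .no .no) .no .no .no)) (.red [.f 696 3 1, .f 704 1 5] 104 136 [2, 2] [(104,
  136, [2, 2])]) (.br 698 .no (.red [.f 570 1 3] 88 136 [2, 2, 2] [(88, 136, [2, 2, 2])]) .no
  (.use 261) (.red [.f 698 5 1, .f 699 1 3] 104 136 [2, 2] [(104, 136, [2, 2])]) (.br 1096 .no .no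
  (.br 1226 (.hor [.f 1226 1 5] []) .no (.br 818 .no (.use 454) .no (.br 817 .no (.con 136 [2, 2,
  4, 4]) .no .no .no (.red [.t 952 4 2] 119 136 [2, 4] [(119, 136, [2, 4])])) .no (.br 689 .no
  (.use 262) .no (.use 265) (.red [.f 689 5 3, .f 688 3 5, .t 832 4 2] 104 136 [2, 2] [(104, 136,
  [2, 2])]) .no)) .no .no .no) .no .no .no)) (.red [.t 832 4 2] 104 136 [2, 2] [(104, 136, [2,
  2])]) .no) .no (.use 54) .no .no (.use 668)) (.hor [.f 706 3 1, .f 705 1 5] [(105, 104, [3])])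
  (.red [.t 706 4 1] 104 136 [2, 2] [(104, 136, [2, 2])]) .no .no) (.hor [.f 834 3 5] []) .no .no
  .no) .no (.use 669) .no) .no .no .no) .no (.use 577) .no (.use 540)) .no (.hor [.f 938 3 5] [])
  .no .no) .no (.hor [.f 1216 3 5] []) .no .no .no) .no .no .no

def c21t671 : Tr4 :=
  .br 1075 (.use 654) (.red [.f 947 1 3, .f 1074 3 5, .t 1218 4 2, .f 1081 1 5, .t 961 1 4] 136
  136 [] [(135, 134, [3]), (136, 136, []), (152, 136, [1])]) .no (.use 658) .no .no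

def c21t672 : Tr4 :=
  .br 810 .no .no .no (.red [.t 809 1 4] 117 136 [2, 4, 4, 4] [(117, 136, [2, 4, 4, 4])]) (.red
  [.t 946 4 2, .f 809 1 5, .f 809 5 3, .f 682 3 1, .t 690 1 3] 103 136 [2, 2, 4] [(102, 136, [2,
  2, 4, 4]), (103, 136, [2, 2, 4]), (118, 117, [3])]) .no

def c21t673 : Tr4 :=
  .br 928 (.red [.f 928 1 3, .f 800 3 1, .f 808 1 5] 117 136 [2, 4, 4, 4] [(117, 136, [2, 4, 4,
  4]), (133, 136, [4, 4, 4])]) .no .no (.br 929 .no (.red [.f 801 1 3, .f 800 3 5] 117 136 [2, 4,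
  4, 4] [(117, 136, [2, 4, 4, 4])]) .no (.hor [.f 920 3 5] []) (.br 690 .no (.hor [.f 562 1 3, .f
  689 3 5] [(87, 103, [2])]) .no (.use 672) .no .no) .no) (.red [.t 808 4 1] 117 136 [2, 4, 4, 4]
  [(117, 136, [2, 4, 4, 4])]) .no

def c21t674 : Tr4 :=
  .br 697 .no (.hor [.f 568 1 5] []) .no (.br 698 .no (.br 699 .no (.hor [.f 570 1 5] []) (.con
  136 [2, 2, 2]) (.use 673) .no .no) (.red [.f 826 5 3, .f 698 3 1] 104 136 [2, 2] [(104, 136, [2,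
  2])]) (.hor [.f 689 3 5] []) (.red [.f 698 5 1, .t 697 4 1] 103 136 [2, 2, 4] [(103, 136, [2, 2,
  4])]) .no) (.br 928 (.red [.f 928 1 3, .f 800 3 1, .f 808 1 5] 117 136 [2, 4, 4, 4] [(117, 136,
  [2, 4, 4, 4]), (133, 136, [4, 4, 4])]) .no .no (.br 929 .no (.red [.f 801 1 3, .f 800 3 5] 117
  136 [2, 4, 4, 4] [(117, 136, [2, 4, 4, 4])]) .no (.hor [.f 920 3 5] []) (.br 569 .no (.br 577
  .no (.red [.f 441 1 3, .t 568 1 3] 88 136 [2, 2, 2] [(72, 136, [2, 2, 2, 2]), (88, 136, [2, 2,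
  2])]) (.br 843 .no (.con 136 [2, 2, 3, 3]) (.br 712 .no (.br 578 (.br 707 .no (.con 136 [2, 2,
  2, 3, 2]) (.br 714 .no (.con 136 [2, 2, 2, 3, 3]) (.br 713 .no .no (.hor [.f 713 3 5] []) .no
  .no .no) .no .no (.br 849 .no (.red [.t 577 3 1, .f 584 1 5, .t 848 4 2] 106 136 [2, 2, 3, 3]
  [(89, 73, [1]), (106, 136, [2, 2, 3, 3])]) (.br 850 .no (.con 136 [2, 2, 3, 3, 3]) (.hor [.f 849
  3 5] []) .no .no .no) .no (.red [.t 970 2 4, .t 834 3 1, .t 969 3 2, .f 842 3 5] 122 136 [2, 3,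
  3] [(122, 136, [2, 3, 3])]) .no)) (.con 136 [2, 2, 2]) .no .no) (.con 136 [2, 2, 2, 3, 2]) (.hor
  [.f 577 3 5] []) (.con 136 [2, 2, 2, 3, 2]) (.con 136 [2, 2, 2, 3, 2]) .no) (.red [.f 712 3 1]
  106 136 [2, 2, 3, 3] [(106, 136, [2, 2, 3, 3])]) .no (.red [.f 704 5 3, .f 705 3 1] 105 136 [2,
  2, 3] [(105, 136, [2, 2, 3])]) .no) .no .no .no) .no (.br 712 .no (.br 707 .no (.con 136 [2, 2,
  2, 3]) (.br 706 .no .no (.hor [.f 706 3 5] []) .no .no .no) (.con 136 [2, 2, 2]) .no (.br 713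
  .no (.hor [.f 584 1 5] []) (.br 714 .no (.con 136 [2, 2, 2, 3, 3]) (.hor [.f 713 3 5] []) .no
  (.con 136 [2, 2, 2, 3, 3]) .no) .no (.red [.f 706 5 1, .t 833 3 2] 105 136 [2, 2, 3] [(105, 136,
  [2, 2, 3])]) .no)) (.red [.f 712 3 1] 106 136 [2, 2, 3, 3] [(106, 136, [2, 2, 3, 3])]) .no (.red
  [.f 704 5 3, .f 705 3 1] 105 136 [2, 2, 3] [(105, 136, [2, 2, 3])]) .no) (.red [.f 576 5 1, .f
  568 1 3, .f 696 3 1, .f 688 1 3] 88 136 [2, 2, 2] [(88, 136, [2, 2, 2]), (103, 136, [2, 2, 4]),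
  (104, 136, [2, 2])])) (.red [.t 568 1 3] 88 136 [2, 2, 2] [(88, 136, [2, 2, 2])]) (.br 699 .no
  (.use 372) (.con 136 [2, 2, 2]) (.br 690 .no (.red [.t 561 3 1, .f 568 1 5, .f 696 5 3, .f 696 3
  1] 104 136 [2, 2] [(87, 71, [1]), (104, 136, [2, 2])]) .no (.use 672) .no (.red [.f 689 5 1, .t
  690 1 3] 103 136 [2, 2, 4] [(103, 136, [2, 2, 4])])) .no .no) (.red [.f 569 5 1, .f 568 1 5, .f
  696 5 3, .f 696 3 1] 104 136 [2, 2] [(104, 136, [2, 2])]) .no) .no) (.red [.t 808 4 1] 117 136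
  [2, 4, 4, 4] [(117, 136, [2, 4, 4, 4])]) .no) .no

def c21t675 : Tr4 :=
  .br 715 (.con 136 [2, 2, 3, 3]) (.red [.f 579 1 3, .f 578 3 5] 89 136 [2, 2, 3, 2] [(89, 136,
  [2, 2, 3, 2])]) (.hor [.f 714 3 5] []) .no .no .no

def c21t676 : Tr4 :=
  .br 571 .no (.br 441 .no (.br 442 .no (.hor [.f 313 1 5] []) (.red [.t 442 3 1, .f 449 1 5] 72
  136 [2, 2, 2, 2] [(72, 136, [2, 2, 2, 2])]) (.con 136 [2, 2, 2, 2, 2, 4]) .no .no) .no (.red [.f
  433 3 1, .f 440 1 5] 71 136 [2, 2, 2, 2, 4] [(71, 136, [2, 2, 2, 2, 4])]) (.red [.f 562 1 3, .f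
  561 3 5, .f 441 5 1, .f 441 1 3] 72 136 [2, 2, 2, 2] [(72, 136, [2, 2, 2, 2]), (87, 71, [1])])
  .no) .no (.con 136 [2, 2, 2, 2, 4]) .no .no

def c21t677 : Tr4 :=
  .br 850 .no (.con 136 [2, 3, 3, 2, 3]) (.hor [.f 849 3 5] []) .no .no .no

def c21t678 : Tr4 :=
  .br 849 .no (.red [.t 848 4 2] 106 136 [2, 2, 3, 3] [(106, 136, [2, 2, 3, 3])]) (.use 677) .no
  (.red [.t 970 2 4, .t 834 3 1, .t 969 3 2, .f 842 3 5] 122 136 [2, 3, 3] [(122, 136, [2, 3,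
  3])]) .no

def c21t679 : Tr4 :=
  .br 843 .no .no (.br 979 .no .no (.br 1115 .no .no (.br 1114 (.br 840 .no (.br 976 .no (.red [.t
  585 4 1, .f 576 1 5, .t 840 2 4, .t 976 2 4] 122 136 [2, 3, 3] [(89, 73, [1]), (105, 136, [2, 2,
  3]), (122, 136, [2, 3, 3])]) (.br 713 .no .no (.br 848 .no (.br 850 .no (.con 136 [2, 2, 3, 3,
  3]) (.br 985 .no (.con 136 [2, 2, 3, 3, 3, 1]) (.br 857 .no (.con 136 [2, 2, 3, 3, 3, 1]) (.con
  136 [2, 2, 3, 3, 3, 1]) (.hor [.f 849 3 5] []) .no (.con 136 [2, 2, 3, 3, 3, 1])) .no (.red [.t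
  1105 3 2, .f 850 3 1] 123 136 [2, 3, 3, 3] [(123, 136, [2, 3, 3, 3]), (139, 136, [3, 3, 3])])
  .no) .no .no (.red [.t 970 2 4, .t 834 3 1, .t 969 3 2, .f 842 3 5] 122 136 [2, 3, 3] [(122,
  136, [2, 3, 3])])) (.red [.f 848 3 1] 123 136 [2, 3, 3, 3] [(123, 136, [2, 3, 3, 3])]) .no (.br
  985 .no (.red [.t 984 4 2] 123 136 [2, 3, 3, 3] [(123, 136, [2, 3, 3, 3])]) (.br 986 .no (.con
  136 [2, 3, 3, 3, 3]) (.hor [.f 985 3 5] []) .no .no .no) .no (.red [.t 1105 3 2, .f 978 3 5] 139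
  136 [3, 3, 3] [(139, 136, [3, 3, 3])]) .no) .no) .no .no .no) .no .no .no) (.br 712 .no (.con
  136 [2, 2, 2, 3, 3]) (.red [.f 712 3 1] 106 136 [2, 2, 3, 3] [(106, 136, [2, 2, 3, 3])]) .no
  (.use 678) .no) .no .no .no) (.red [.f 978 1 3, .f 978 3 5] 139 136 [3, 3, 3] [(139, 136, [3, 3,
  3])]) (.hor [.f 1114 3 5] []) .no .no .no) .no .no (.red [.t 970 2 4, .t 978 1 3] 139 136 [3, 3,
  3] [(121, 105, [1]), (139, 136, [3, 3, 3])])) .no .no .no) .no .no .no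

def c21t680 : Tr4 :=
  .br 840 .no .no (.br 843 .no .no (.use 678) .no .no .no) .no .no .no

def c21t681 : Tr4 :=
  .br 713 .no (.red [.t 585 1 4, .f 705 3 1] 105 136 [2, 2, 3] [(89, 136, [2, 2, 3, 2]), (105,
  136, [2, 2, 3])]) (.hor [.f 713 3 5] []) .no .no (.use 680)

def c21t682 : Tr4 :=
  .br 707 .no (.red [.t 578 3 1] 89 136 [2, 2, 3, 2] [(89, 136, [2, 2, 3, 2])]) .no .no .no .no

def c21t683 : Tr4 :=
  .br 570 .no (.con 136 [2, 2, 4, 2, 2]) (.con 136 [2, 2, 4, 2, 2]) (.hor [.f 561 3 5] []) (.con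
  136 [2, 2, 4, 2, 2]) .no

def c21t684 : Tr4 :=
  .br 691 .no (.hor [.f 562 1 5] []) .no (.con 136 [2, 2, 4, 2, 4]) .no .no

def c21t685 : Tr4 :=
  .br 682 .no (.br 683 .no (.hor [.f 554 1 5] []) .no (.red [.t 946 4 2, .t 810 1 3, .t 674 1 3,
  .t 809 1 4] 117 136 [2, 4, 4, 4] [(101, 136, [2, 4, 2, 4, 4]), (117, 136, [2, 4, 4, 4])]) .no
  .no) .no .no (.red [.f 682 5 1, .t 681 3 1, .f 688 1 5, .t 952 4 2] 119 136 [2, 4] [(102, 86,
  [1]), (119, 136, [2, 4])]) .no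

def c21t686 : Tr4 :=
  .br 560 .no (.hor [.f 432 1 5] []) .no (.br 562 .no (.hor [.f 433 1 5] []) .no (.con 136 [2, 2,
  2, 4, 2, 4]) (.con 136 [2, 2, 2, 4, 2, 4]) .no) .no .no

def c21t687 : Tr4 :=
  .br 441 .no (.br 442 .no (.hor [.f 313 1 5] []) (.red [.t 449 1 4, .f 442 1 5] 72 136 [2, 2, 2,
  2] [(72, 136, [2, 2, 2, 2])]) (.con 136 [2, 2, 2, 2, 2, 4]) .no .no) .no (.red [.t 440 1 4] 71
  136 [2, 2, 2, 2, 4] [(71, 136, [2, 2, 2, 2, 4])]) (.hor [.f 441 5 1, .f 440 1 5, .f 442 1 5] [])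
  .no

def c21t688 : Tr4 :=
  .br 1235 (.red [.f 1227 1 3, .f 1226 3 5] 170 136 [3, 1, 1, 3] [(170, 136, [3, 1, 1, 3])]) .no
  (.use 679) .no .no .no

def c21t689 : Tr4 :=
  .br 570 .no (.hor [.f 441 1 5] []) (.red [.f 441 1 3] 72 136 [2, 2, 2, 2] [(72, 136, [2, 2, 2,
  2])]) (.red [.f 690 5 3, .f 562 3 1] 87 136 [2, 2, 2, 4] [(87, 136, [2, 2, 2, 4])]) (.red [.f
  441 1 3] 72 136 [2, 2, 2, 2] [(72, 136, [2, 2, 2, 2])]) .no

def c21t690 : Tr4 :=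
  .br 682 .no (.br 562 .no (.hor [.f 433 1 5] []) .no .no (.red [.f 562 5 1, .f 554 1 3] 86 136
  [2, 2, 2, 4, 4] [(86, 136, [2, 2, 2, 4, 4])]) .no) .no (.br 571 .no (.br 442 .no (.br 801 .no
  (.br 683 .no (.br 562 .no (.hor [.f 433 1 5] []) .no (.con 136 [2, 2, 2, 4, 4, 2]) (.br 680 .no
  (.br 441 .no (.hor [.f 313 1 5] []) .no .no .no (.br 554 .no (.br 553 .no (.hor [.f 425 1 5] [])
  .no (.con 136 [2, 2, 2, 2, 4, 4, 4]) .no .no) .no (.red [.f 546 3 1, .f 554 1 5] 85 136 [2, 2,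
  2, 4, 4, 4] [(85, 136, [2, 2, 2, 4, 4, 4])]) .no (.red [.t 560 3 2, .t 440 1 4, .f 562 5 1, .t
  689 4 2] 86 136 [2, 2, 2, 4, 4] [(86, 136, [2, 2, 2, 4, 4])]))) .no (.con 136 [2, 2, 2, 4, 4,
  4]) .no .no) .no) .no (.hor [.f 674 3 5] []) .no .no) .no (.hor [.f 793 3 5] []) .no .no) (.red
  [.t 449 1 4, .f 442 1 5] 72 136 [2, 2, 2, 2] [(72, 136, [2, 2, 2, 2])]) (.red [.t 433 1 3, .f
  560 3 5, .f 568 5 1, .f 568 1 3] 88 136 [2, 2, 2] [(71, 55, [1]), (88, 136, [2, 2, 2])]) .no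
  (.red [.f 441 5 1, .f 441 1 3] 72 136 [2, 2, 2, 2] [(72, 136, [2, 2, 2, 2])])) .no (.br 562 .no
  (.hor [.f 433 1 5] []) .no (.con 136 [2, 2, 2, 2, 4, 4]) .no .no) .no .no) (.red [.f 682 5 1, .t
  681 3 1, .f 688 1 5, .t 952 4 2] 119 136 [2, 4] [(102, 86, [1]), (119, 136, [2, 4])]) .no

def c21t691 : Tr4 :=
  .br 714 .no (.br 568 .no (.br 569 .no (.hor [.f 440 1 5] []) (.red [.t 576 1 4, .f 696 3 1, .f
  688 1 3] 88 136 [2, 2, 2] [(88, 136, [2, 2, 2]), (103, 136, [2, 2, 4]), (104, 136, [2, 2])])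
  (.use 683) (.br 577 .no (.br 578 .no (.hor [.f 449 1 5] []) .no .no (.br 690 .no (.use 684) .no
  (.hor [.f 681 3 5] []) (.br 571 .no (.br 561 .no (.use 686) .no (.red [.f 553 3 1] 86 136 [2, 2,
  2, 4, 4] [(86, 136, [2, 2, 2, 4, 4])]) (.red [.f 690 5 3, .f 561 5 3, .f 562 3 1] 87 136 [2, 2,
  2, 4] [(87, 136, [2, 2, 2, 4])]) (.use 687)) .no (.con 136 [2, 2, 2, 2, 4]) .no .no) .no) .no)
  (.use 688) .no (.red [.f 569 5 3, .t 576 1 4] 88 136 [2, 2, 2] [(88, 136, [2, 2, 2])]) .no) .no)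
  .no (.br 690 .no (.use 684) .no (.hor [.f 681 3 5] []) (.br 577 .no (.br 802 .no (.use 685) .no
  (.br 569 .no (.use 689) .no (.hor [.f 560 3 5] []) (.br 561 .no (.br 578 .no (.hor [.f 449 1 5]
  []) .no .no (.use 690) .no) .no (.red [.f 553 3 1, .t 560 3 1] 87 136 [2, 2, 2, 4] [(86, 136,
  [2, 2, 2, 4, 4]), (87, 136, [2, 2, 2, 4])]) (.red [.f 690 5 3, .f 561 5 3, .f 562 3 1] 87 136
  [2, 2, 2, 4] [(87, 136, [2, 2, 2, 4])]) .no) .no) (.red [.t 946 4 2, .t 810 1 3, .f 802 5 3, .t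
  809 1 4] 117 136 [2, 4, 4, 4] [(117, 136, [2, 4, 4, 4])]) (.red [.f 801 5 1, .f 801 1 3] 117 136
  [2, 4, 4, 4] [(117, 136, [2, 4, 4, 4])])) (.use 688) (.red [.t 576 1 4, .f 696 3 1, .f 688 1 3]
  88 136 [2, 2, 2] [(88, 136, [2, 2, 2]), (103, 136, [2, 2, 4]), (104, 136, [2, 2])]) (.br 569 .no
  (.br 570 .no (.hor [.f 441 1 5] []) .no (.red [.f 690 5 3, .f 562 3 1] 87 136 [2, 2, 2, 4] [(87,
  136, [2, 2, 2, 4])]) (.red [.f 577 5 1, .f 570 5 1, .f 570 1 3] 88 136 [2, 2, 2] [(88, 136, [2,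
  2, 2])]) .no) .no (.hor [.f 560 3 5] []) (.red [.f 569 5 3, .t 576 1 4] 88 136 [2, 2, 2] [(88,
  136, [2, 2, 2])]) .no) .no) .no) (.red [.f 568 5 1, .f 568 1 3] 88 136 [2, 2, 2] [(88, 136, [2,
  2, 2])]) .no) (.br 690 .no (.use 684) .no (.hor [.f 681 3 5] []) (.br 713 .no (.br 577 .no (.br
  578 .no (.hor [.f 449 1 5] []) (.use 681) (.br 571 .no (.con 136 [2, 2, 2, 2]) (.hor [.f 570 3
  5] []) (.con 136 [2, 2, 2, 2]) .no .no) (.br 802 .no (.use 685) .no (.br 569 .no (.use 689) .no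
  (.br 568 .no (.use 683) .no (.hor [.f 560 3 5] []) .no .no) (.br 561 .no (.br 568 .no (.use 686)
  .no (.use 690) .no .no) .no (.red [.f 553 3 1] 86 136 [2, 2, 2, 4, 4] [(86, 136, [2, 2, 2, 4,
  4])]) (.red [.f 690 5 3, .f 561 5 3, .f 562 3 1] 87 136 [2, 2, 2, 4] [(87, 136, [2, 2, 2, 4])])
  (.br 571 .no (.br 568 .no (.use 687) .no .no .no .no) .no (.con 136 [2, 2, 2, 4, 2]) .no .no))
  (.red [.f 568 5 1, .f 568 1 3] 88 136 [2, 2, 2] [(88, 136, [2, 2, 2])])) (.red [.t 946 4 2, .t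
  810 1 3, .f 802 5 3, .t 809 1 4] 117 136 [2, 4, 4, 4] [(117, 136, [2, 4, 4, 4])]) (.red [.f 801
  5 1, .f 801 1 3] 117 136 [2, 4, 4, 4] [(117, 136, [2, 4, 4, 4])])) .no) .no (.red [.t 576 1 4,
  .f 696 3 1, .f 688 1 3] 88 136 [2, 2, 2] [(88, 136, [2, 2, 2]), (103, 136, [2, 2, 4]), (104,
  136, [2, 2])]) (.red [.f 577 5 1, .f 577 1 3, .f 705 3 1] 105 136 [2, 2, 3] [(89, 136, [2, 2, 2,
  3]), (105, 136, [2, 2, 3])]) .no) (.hor [.f 713 3 5] []) .no .no (.use 680)) .no) .no .no (.red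
  [.f 705 5 3, .f 705 3 1, .t 832 4 2] 105 136 [2, 2, 3] [(104, 136, [2, 2]), (105, 136, [2, 2,
  3])])

def c21l25 : List Tr4 :=
  [c21t670, c21t671, c21t672, c21t673, c21t674, c21t675, c21t676, c21t677, c21t678, c21t679,
  c21t680, c21t681, c21t682, c21t683, c21t684, c21t685, c21t686, c21t687, c21t688, c21t689,
  c21t690, c21t691]

theorem c21k25 : chkLF ⟨4, 0, 0, true, -8⟩ false 1 c21N 670 c21l25 = true := by decide +kernel

def c21t692 : Tr4 :=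
  .br 699 .no (.use 374) (.con 136 [2, 2, 2]) (.br 698 .no (.br 690 .no (.br 689 .no (.hor [.f 561
  1 5] []) .no (.br 569 .no (.br 568 .no (.hor [.f 440 1 5] []) .no (.br 561 .no (.red [.f 562 1
  3, .f 433 1 3, .f 560 3 5, .f 568 5 1, .f 568 1 3] 88 136 [2, 2, 2] [(71, 70, [3]), (87, 86,
  [3]), (88, 136, [2, 2, 2])]) .no (.red [.f 553 3 1, .t 560 3 1] 86 136 [2, 2, 2, 4, 4] [(86,
  136, [2, 2, 2, 4, 4]), (87, 136, [2, 2, 2, 4])]) .no .no) .no .no) (.red [.f 562 1 3, .f 562 3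
  1, .t 569 3 1] 88 136 [2, 2, 2] [(88, 136, [2, 2, 2])]) (.br 568 .no (.br 707 .no (.br 571 .no
  (.br 578 .no (.br 577 .no (.hor [.f 449 1 5] []) (.con 136 [2, 2, 2, 2, 3]) .no .no .no) (.br
  714 .no .no (.br 713 .no (.red [.t 585 1 4, .f 578 1 5] 89 136 [2, 2, 2, 3] [(89, 136, [2, 2, 2,
  3])]) (.hor [.f 713 3 5] []) .no .no (.use 675)) .no (.red [.f 562 1 3, .t 578 3 1] 89 136 [2,
  2, 2, 3] [(87, 71, [1]), (89, 136, [2, 2, 2, 3])]) (.red [.f 705 5 3, .f 705 3 1, .t 832 4 2]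
  105 136 [2, 2, 3] [(104, 136, [2, 2]), (105, 136, [2, 2, 3])])) .no .no (.hor [.f 577 5 1, .f
  576 1 5, .f 578 1 5] [])) .no (.con 136 [2, 2, 2, 2, 4]) .no .no) (.br 714 .no (.br 1235 (.red
  [.f 1227 1 3, .f 1226 3 5] 170 136 [3, 1, 1, 3] [(170, 136, [3, 1, 1, 3])]) .no (.br 577 .no
  (.br 578 .no (.hor [.f 449 1 5] []) .no .no (.use 676) .no) (.use 679) .no (.red [.f 577 5 1, .f
  570 1 3] 88 136 [2, 2, 2] [(88, 136, [2, 2, 2])]) .no) .no .no .no) (.br 577 .no (.br 578 .no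
  (.hor [.f 449 1 5] []) (.use 681) .no (.use 676) .no) (.br 713 .no .no (.hor [.f 713 3 5] [])
  .no .no (.use 680)) .no (.red [.f 577 5 1, .f 570 1 3] 88 136 [2, 2, 2] [(88, 136, [2, 2, 2])])
  .no) .no .no (.red [.f 705 5 3, .f 705 3 1, .t 832 4 2] 105 136 [2, 2, 3] [(104, 136, [2, 2]),
  (105, 136, [2, 2, 3])])) .no .no .no) .no (.hor [.f 560 3 5] []) .no .no) .no (.red [.f 568 5 1,
  .f 568 1 3] 88 136 [2, 2, 2] [(88, 136, [2, 2, 2])])) .no .no) .no (.use 672) .no (.red [.f 689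
  5 1, .t 690 1 3] 103 136 [2, 2, 4] [(103, 136, [2, 2, 4])])) .no (.hor [.f 690 3 5] []) .no .no)
  .no (.br 689 .no (.br 568 .no (.br 569 .no (.hor [.f 440 1 5] []) (.red [.t 576 1 4, .f 561 1 3]
  88 136 [2, 2, 2] [(87, 136, [2, 2, 2, 4]), (88, 136, [2, 2, 2])]) .no (.br 690 .no (.hor [.f 561
  1 5] []) .no (.br 810 .no .no .no (.red [.t 809 1 4] 117 136 [2, 4, 4, 4] [(117, 136, [2, 4, 4,
  4])]) (.br 691 .no (.br 681 .no (.hor [.f 553 1 3, .f 681 3 5] [(86, 87, [4])]) .no (.br 801 .no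
  .no .no (.br 802 .no (.br 683 .no (.hor [.f 555 1 3, .f 682 3 5] [(86, 87, [4])]) .no (.red [.t
  946 4 2, .t 810 1 3, .t 674 1 3, .t 809 1 4] 117 136 [2, 4, 4, 4] [(101, 136, [2, 2, 4, 4, 4]),
  (117, 136, [2, 4, 4, 4])]) .no .no) .no (.hor [.f 793 3 5] []) (.red [.t 946 4 2, .t 810 1 3, .f
  802 5 3, .t 809 1 4] 117 136 [2, 4, 4, 4] [(117, 136, [2, 4, 4, 4])]) .no) (.red [.f 801 5 1, .f
  801 1 3] 117 136 [2, 4, 4, 4] [(117, 136, [2, 4, 4, 4])]) .no) .no (.red [.t 937 2 3, .t 816 2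
  4, .t 952 4 2] 119 136 [2, 4] [(102, 103, [4]), (118, 117, [3]), (119, 136, [2, 4])])) .no (.hor
  [.f 682 3 5] []) .no .no) .no) (.red [.f 690 5 3, .t 689 2 3] 87 136 [2, 2, 2, 4] [(87, 136, [2,
  2, 2, 4])]) .no) .no) .no (.red [.t 560 3 1, .f 568 1 3] 88 136 [2, 2, 2] [(87, 136, [2, 2, 2,
  4]), (88, 136, [2, 2, 2])]) (.red [.f 568 5 1, .f 561 1 3] 87 136 [2, 2, 2, 4] [(87, 136, [2, 2,
  2, 4])]) .no) .no (.br 810 .no (.red [.t 681 3 1, .f 688 1 5, .t 952 4 2] 119 136 [2, 4] [(102,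
  86, [1]), (119, 136, [2, 4])]) .no (.red [.t 809 1 4] 117 136 [2, 4, 4, 4] [(117, 136, [2, 4, 4,
  4])]) (.br 707 .no (.br 578 .no (.br 577 .no (.hor [.f 449 1 5] []) (.con 136 [2, 2, 2, 2, 3])
  (.red [.t 576 1 4, .f 696 3 1, .f 688 1 3] 88 136 [2, 2, 2] [(88, 136, [2, 2, 2]), (103, 136,
  [2, 2, 4]), (104, 136, [2, 2])]) .no .no) (.br 713 .no (.red [.t 585 1 4, .f 705 3 1] 89 136 [2,
  2, 2, 3] [(89, 136, [2, 2, 2, 3]), (105, 136, [2, 2, 3])]) (.br 714 .no .no (.hor [.f 713 3 5]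
  []) .no (.use 682) .no) .no (.red [.f 705 5 3, .f 705 3 1, .t 832 4 2] 105 136 [2, 2, 3] [(104,
  136, [2, 2]), (105, 136, [2, 2, 3])]) (.br 714 .no .no (.use 675) .no (.use 682) .no)) (.br 569
  .no (.con 136 [2, 2, 2, 2]) (.red [.t 576 1 4, .f 696 3 1, .f 688 1 3] 88 136 [2, 2, 2] [(88,
  136, [2, 2, 2]), (103, 136, [2, 2, 4]), (104, 136, [2, 2])]) (.con 136 [2, 2, 2, 2]) .no (.con
  136 [2, 2, 2, 2])) .no (.hor [.f 577 5 1, .f 576 1 5, .f 578 1 5] [])) (.use 691) .no .no .no)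
  .no) (.red [.f 698 5 1, .f 689 5 1, .f 690 1 3] 103 136 [2, 2, 4] [(103, 136, [2, 2, 4])]) .no)

def c21t693 : Tr4 :=
  .br 939 (.br 1106 .no (.br 816 .no (.br 696 .no (.br 705 .no (.use 469) (.red [.f 826 5 3, .f
  705 3 1] 105 136 [2, 2, 3] [(105, 136, [2, 2, 3])]) (.use 366) (.br 704 .no (.red [.f 568 1 3,
  .f 696 3 1, .f 688 1 3] 88 136 [2, 2, 2] [(88, 136, [2, 2, 2]), (103, 136, [2, 2, 4]), (104,
  136, [2, 2])]) (.br 697 .no (.hor [.f 568 1 5] []) .no (.br 698 .no (.br 699 .no (.hor [.f 570 1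
  5] []) (.con 136 [2, 2, 2]) (.br 808 .no (.red [.t 937 2 3, .f 680 1 3, .f 808 3 5, .t 952 4 2]
  119 136 [2, 4] [(102, 103, [4]), (118, 117, [3]), (119, 136, [2, 4])]) .no (.use 673) .no .no)
  .no .no) .no (.hor [.f 689 3 5] []) (.red [.f 698 5 1, .t 697 4 1] 103 136 [2, 2, 4] [(103, 136,
  [2, 2, 4])]) .no) (.red [.f 826 5 3, .f 697 5 3, .f 698 3 1] 104 136 [2, 2] [(104, 136, [2,
  2])]) .no) .no .no .no) (.br 840 .no (.red [.t 840 2 4] 105 136 [2, 2, 3] [(105, 136, [2, 2,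
  3])]) (.br 808 .no (.red [.t 937 2 3, .f 680 1 3, .f 808 3 5, .t 952 4 2] 119 136 [2, 4] [(102,
  103, [4]), (118, 117, [3]), (119, 136, [2, 4])]) .no (.use 674) .no .no) .no .no .no)) (.red [.f
  696 3 1] 104 136 [2, 2] [(104, 136, [2, 2])]) .no (.br 705 .no (.use 368) (.red [.f 826 5 3, .f
  705 3 1] 105 136 [2, 2, 3] [(105, 136, [2, 2, 3])]) .no (.br 808 .no (.red [.t 937 2 3, .f 680 1
  3, .f 808 3 5, .t 952 4 2] 119 136 [2, 4] [(102, 103, [4]), (118, 117, [3]), (119, 136, [2,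
  4])]) .no (.br 928 (.red [.f 928 1 3, .f 800 3 1, .f 808 1 5] 117 136 [2, 4, 4, 4] [(117, 136,
  [2, 4, 4, 4]), (133, 136, [4, 4, 4])]) .no .no (.br 929 .no (.red [.f 801 1 3, .f 800 3 5] 117
  136 [2, 4, 4, 4] [(117, 136, [2, 4, 4, 4])]) .no (.hor [.f 920 3 5] []) (.br 704 .no (.use 692)
  (.br 714 .no (.use 418) (.br 707 .no (.con 136 [2, 2, 2, 3]) (.br 849 .no (.red [.f 826 5 3, .f
  826 3 1, .f 834 1 3, .f 833 3 5, .t 721 1 4, .f 841 3 1] 106 136 [2, 2, 3, 3] [(106, 136, [2, 2,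
  3, 3]), (120, 104, [1]), (121, 105, [1]), (122, 136, [2, 3, 3])]) (.br 840 .no .no (.br 843 .no
  .no (.use 677) .no .no .no) .no .no .no) .no (.red [.t 969 3 2, .f 714 3 1] 106 136 [2, 2, 3, 3]
  [(106, 136, [2, 2, 3, 3]), (122, 136, [2, 3, 3])]) (.br 843 .no .no (.con 136 [2, 2, 3, 3, 1])
  .no .no .no)) (.con 136 [2, 2, 2]) .no .no) .no (.con 136 [2, 2, 3, 2]) (.red [.f 705 5 3, .f
  705 3 1, .t 832 4 2] 105 136 [2, 2, 3] [(104, 136, [2, 2]), (105, 136, [2, 2, 3])])) .no .no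
  .no) .no) (.red [.t 808 4 1] 117 136 [2, 4, 4, 4] [(117, 136, [2, 4, 4, 4])]) .no) .no .no)
  (.red [.f 696 5 3, .f 696 3 1] 104 136 [2, 2] [(104, 136, [2, 2])])) .no) .no (.red [.t 937 2 3,
  .f 808 3 5, .t 952 4 2] 119 136 [2, 4] [(118, 102, [1]), (119, 136, [2, 4])]) .no .no) (.hor [.f
  1105 3 5] []) .no .no .no) (.con 136 [4, 4, 4]) .no (.con 136 [4, 4, 4]) .no .no

def c21t694 : Tr4 :=
  .br 939 .no (.red [.f 811 1 3, .f 938 3 5, .t 1082 4 2, .f 945 1 5, .f 817 5 1, .f 817 1 3] 119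
  136 [2, 4] [(118, 117, [3]), (119, 136, [2, 4]), (135, 119, [1])]) .no (.br 936 (.con 136 [4, 4,
  4]) (.hor [.f 808 1 5] []) .no (.br 1072 (.br 1064 (.red [.f 1064 1 3] 150 136 [4, 4, 1] [(150,
  136, [4, 4, 1])]) .no .no (.hor [.f 1056 3 5] []) .no .no) .no .no (.br 929 .no (.red [.f 801 1
  3] 117 136 [2, 4, 4, 4] [(117, 136, [2, 4, 4, 4])]) .no (.br 930 (.red [.t 937 2 3, .t 1057 3 2,
  .f 937 1 3, .f 809 3 1] 134 136 [4, 4] [(133, 136, [4, 4, 4]), (134, 136, [4, 4])]) (.con 136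
  [2, 4, 4, 4, 4]) .no (.hor [.f 921 3 5] []) .no .no) (.red [.t 937 2 3, .f 929 5 3, .f 928 3 5,
  .t 1072 4 2, .f 809 3 1] 134 136 [4, 4] [(134, 136, [4, 4])]) .no) .no .no) .no .no) .no .no

def c21t695 : Tr4 :=
  .br 1066 .no .no .no (.hor [.f 1057 3 5] []) (.use 694) .no

def c21t696 : Tr4 :=
  .br 1065 (.use 576) .no .no (.br 1066 (.br 1202 (.br 1203 (.hor [.f 1202 1 5] []) .no .no (.red
  [.f 1067 3 1, .f 1066 1 5] 150 136 [4, 4, 1] [(150, 136, [4, 4, 1])]) .no .no) .no .no .no (.red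
  [.t 1066 1 3] 150 136 [4, 4, 1] [(150, 136, [4, 4, 1])]) (.red [.t 1081 1 4] 151 136 [4, 1]
  [(151, 136, [4, 1])])) .no .no (.hor [.f 1057 3 5] []) .no .no) (.red [.t 945 1 4] 134 136 [4,
  4] [(134, 136, [4, 4])]) (.con 136 [4, 4, 1])

def c21t697 : Tr4 :=
  .br 1211 (.br 1338 (.br 1346 (.use 667) .no (.br 1105 (.red [.f 1097 1 3, .f 1225 3 5, .t 1345 2
  3, .f 1226 1 5, .t 1090 3 1, .t 1097 3 1] 153 136 [3, 1] [(153, 136, [3, 1]), (169, 153, [1])])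
  .no (.br 1208 (.br 1075 (.br 1202 (.br 1065 (.use 536) .no .no (.br 1201 (.hor [.f 1201 1 5] [])
  .no .no (.br 1200 (.red [.f 1200 1 3] 167 136 [4, 1, 1] [(167, 136, [4, 1, 1])]) (.br 1064 (.red
  [.f 1064 1 3] 150 136 [4, 4, 1] [(150, 136, [4, 4, 1])]) (.use 693) .no (.hor [.f 1056 3 5] [])
  .no .no) .no (.hor [.f 1192 3 5] []) .no .no) .no (.use 534)) (.red [.t 945 1 4] 134 136 [4, 4]
  [(134, 136, [4, 4])]) (.use 537)) .no .no (.br 1065 (.use 530) .no .no (.use 695) (.red [.t 945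
  1 4] 134 136 [4, 4] [(134, 136, [4, 4])]) (.use 538)) .no (.red [.t 1081 1 4, .f 1074 1 5] 151
  136 [4, 1] [(151, 136, [4, 1])])) .no .no (.use 696) .no .no) .no .no (.br 1075 (.dom 151 136
  [4, 1]) .no .no (.use 696) .no .no) .no .no) .no (.red [.t 1225 2 3, .t 1345 2 3, .f 1226 1 5,
  .t 1090 3 1, .f 1098 1 3] 153 136 [3, 1] [(153, 136, [3, 1]), (169, 153, [1])]) .no) .no (.red
  [.t 1210 3 1, .f 1217 1 5] 168 136 [1, 1] [(168, 136, [1, 1])]) .no) .no (.red [.f 1210 3 1, .f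
  1210 1 5] 168 136 [1, 1] [(168, 136, [1, 1])]) (.use 666) .no (.red [.t 1217 1 4, .f 1210 1 5]
  168 136 [1, 1] [(168, 136, [1, 1])])) .no .no (.br 1208 (.con 136 [4, 1, 1]) .no .no (.br 1201
  (.use 609) .no .no (.br 1202 (.br 1065 .no .no .no (.br 1066 (.br 1075 .no .no .no (.br 939 .no
  (.red [.f 811 1 3, .f 938 3 5, .t 1082 4 2, .f 945 1 5, .f 817 5 1, .f 817 1 3] 119 136 [2, 4]
  [(118, 117, [3]), (119, 136, [2, 4]), (135, 119, [1])]) .no (.br 936 (.con 136 [4, 4, 4]) (.hor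
  [.f 808 1 5] []) .no (.br 1064 (.con 136 [4, 4, 1]) .no (.br 929 .no (.red [.f 801 1 3] 117 136
  [2, 4, 4, 4] [(117, 136, [2, 4, 4, 4])]) .no (.br 930 (.red [.t 937 2 3, .t 1057 3 2, .f 937 1
  3, .f 809 3 1] 134 136 [4, 4] [(133, 136, [4, 4, 4]), (134, 136, [4, 4])]) (.con 136 [2, 4, 4,
  4, 4]) .no (.hor [.f 921 3 5] []) .no .no) (.red [.t 937 2 3, .f 929 5 3, .f 928 3 5, .t 1072 4
  2, .f 809 3 1] 134 136 [4, 4] [(134, 136, [4, 4])]) .no) (.con 136 [4, 4, 1]) .no .no) .no .no)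
  .no .no) .no .no) .no .no (.hor [.f 1057 3 5] []) (.use 694) .no) (.red [.t 945 1 4] 134 136 [4,
  4] [(134, 136, [4, 4])]) (.br 1075 .no .no .no (.con 136 [4, 4, 1]) .no .no)) .no .no (.hor [.f
  1193 3 5] []) .no .no) (.red [.t 1081 1 4, .f 1200 3 5] 151 136 [4, 1] [(151, 136, [4, 1])])
  .no) .no .no) .no .no

def c21t698 : Tr4 :=
  .br 826 .no (.br 963 .no (.use 47) (.br 834 .no (.br 833 .no (.hor [.f 705 1 5] []) (.br 835 .no
  (.hor [.f 706 1 5] []) (.con 136 [2, 2, 3]) (.br 1217 (.br 947 (.con 136 [4, 4]) (.br 937 (.red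
  [.f 937 1 3, .f 937 3 5] 134 136 [4, 4] [(134, 136, [4, 4])]) (.br 818 .no (.red [.f 690 1 3]
  103 136 [2, 2, 4] [(103, 136, [2, 2, 4])]) .no (.use 663) .no (.br 970 .no (.br 705 .no (.use
  296) (.red [.f 698 1 3, .f 705 3 1] 105 136 [2, 2, 3] [(104, 103, [3]), (105, 136, [2, 2, 3])])
  (.br 696 .no (.use 297) (.hor [.f 696 3 5] []) (.br 699 .no (.con 136 [2, 2, 2, 4]) (.con 136
  [2, 2, 2]) (.red [.t 937 2 3, .f 818 1 5, .t 698 1 4] 103 136 [2, 2, 4] [(103, 136, [2, 2, 4]),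
  (118, 119, [4])]) .no .no) .no .no) .no (.use 305)) (.hor [.f 969 3 5] []) .no .no .no)) .no
  (.use 577) .no (.use 540)) .no (.hor [.f 938 3 5] []) .no .no) .no (.hor [.f 1216 3 5] []) .no
  .no .no) .no .no) .no .no .no) (.use 290) .no (.use 278) (.red [.t 953 2 3, .t 1073 2 3, .f 944
  3 5, .t 1088 4 2, .f 825 3 1] 136 136 [] [(135, 119, [1]), (136, 136, [])])) .no .no .no) (.use
  657) (.use 521) (.br 963 .no (.br 971 .no (.red [.f 835 1 3] 121 136 [2, 3] [(121, 136, [2,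
  3])]) (.use 143) .no .no (.br 834 .no (.use 45) (.red [.t 834 3 1] 121 136 [2, 3] [(121, 136,
  [2, 3])]) .no .no (.use 187))) (.br 1217 (.br 970 .no (.br 834 .no (.br 835 .no (.hor [.f 706 1
  5] []) (.br 833 .no (.use 357) (.con 136 [2, 2, 3]) .no .no .no) .no .no .no) .no .no (.br 947
  (.con 136 [4, 4]) (.br 937 (.red [.f 937 1 3, .f 937 3 5] 134 136 [4, 4] [(134, 136, [4, 4])])
  (.br 1097 (.br 833 .no (.use 669) (.br 817 .no (.br 818 .no (.hor [.f 689 1 5] []) .no (.use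
  466) .no .no) .no .no (.br 1096 .no .no (.br 1226 (.hor [.f 1226 1 5] []) .no (.use 697) .no .no
  .no) .no .no .no) (.red [.t 952 4 2] 119 136 [2, 4] [(119, 136, [2, 4])])) .no .no .no) .no
  (.use 54) .no .no (.use 668)) .no (.use 577) .no (.use 540)) .no (.hor [.f 938 3 5] []) .no .no)
  (.red [.t 953 2 3, .t 1073 2 3, .f 944 3 5, .t 1088 4 2, .f 825 3 1] 136 136 [] [(135, 119,
  [1]), (136, 136, [])])) (.hor [.f 969 3 5] []) .no .no .no) .no (.hor [.f 1216 3 5] []) .no .no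
  .no) .no .no .no) .no

def c21l26 : List Tr4 :=
  [c21t692, c21t693, c21t694, c21t695, c21t696, c21t697, c21t698]

theorem c21k26 : chkLF ⟨4, 0, 0, true, -8⟩ false 1 c21N 692 c21l26 = true := by decide +kernel

def c21t699 : Tr4 :=
  .br 969 (.red [.f 961 1 3, .f 1089 3 5, .t 1209 2 3, .f 1090 1 5, .t 954 3 1, .t 961 3 1] 136
  136 [] [(136, 136, []), (152, 136, [1])]) (.br 1216 (.use 518) .no (.br 1227 (.br 1073 (.red [.f
  1073 1 3, .f 1073 3 5] 151 136 [4, 1] [(151, 136, [4, 1])]) (.br 946 .no (.use 645) .no (.br 833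
  .no (.br 826 .no (.br 834 .no (.hor [.f 705 1 5] []) (.br 827 .no (.hor [.f 698 1 5] []) (.br
  1217 (.br 947 (.con 136 [4, 4]) (.br 937 (.red [.f 937 1 3, .f 937 3 5] 134 136 [4, 4] [(134,
  136, [4, 4])]) (.br 818 .no (.red [.f 690 1 3] 103 136 [2, 2, 4] [(103, 136, [2, 2, 4])]) .no
  (.use 663) .no (.use 332)) .no (.use 577) .no (.use 540)) .no (.hor [.f 938 3 5] []) .no .no)
  .no (.hor [.f 1216 3 5] []) .no .no .no) (.con 136 [2, 2, 4]) .no .no) .no (.use 278) .no) (.use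
  657) (.use 521) (.use 670) .no) .no .no (.red [.t 953 2 3, .t 1073 2 3, .f 944 3 5, .t 1088 4 2,
  .f 825 3 1] 136 136 [] [(135, 119, [1]), (136, 136, [])]) .no) (.red [.t 1082 4 2, .t 1218 4 2,
  .f 1081 1 5, .t 961 1 4] 136 136 [] [(135, 119, [1]), (136, 136, []), (152, 136, [1])]) .no) .no
  (.use 671) .no (.use 620)) .no (.red [.f 1099 3 1, .f 1091 1 3, .f 1090 3 5] 153 136 [3, 1]
  [(153, 136, [3, 1]), (154, 136, [3, 3, 1])]) .no .no (.red [.t 1090 3 1, .t 954 3 1, .f 961 1 5]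
  153 136 [3, 1] [(136, 136, []), (153, 136, [3, 1])])) (.con 136 [1, 1]) (.br 1227 (.use 652) .no
  (.red [.f 1099 3 1, .f 1091 1 3, .f 1090 3 5] 153 136 [3, 1] [(153, 136, [3, 1]), (154, 136, [3,
  3, 1])]) .no .no (.red [.t 1090 3 1, .t 954 3 1, .f 961 1 5] 153 136 [3, 1] [(136, 136, []),
  (153, 136, [3, 1])])) .no) (.br 1216 (.use 518) .no (.br 1227 (.br 1073 (.red [.f 1073 1 3, .f
  1073 3 5] 151 136 [4, 1] [(151, 136, [4, 1])]) (.br 946 .no (.use 645) .no (.use 698) (.red [.t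
  1082 4 2, .t 1218 4 2, .f 1081 1 5, .t 961 1 4] 136 136 [] [(135, 119, [1]), (136, 136, []),
  (152, 136, [1])]) .no) .no (.use 671) .no (.use 620)) .no (.red [.f 1099 3 1, .f 1091 1 3, .f
  1090 3 5] 153 136 [3, 1] [(153, 136, [3, 1]), (154, 136, [3, 3, 1])]) .no .no (.red [.t 1090 3
  1, .t 954 3 1, .f 961 1 5] 153 136 [3, 1] [(136, 136, []), (153, 136, [3, 1])])) (.con 136 [1,
  1]) (.br 1227 (.use 653) .no (.red [.f 1099 3 1, .f 1091 1 3, .f 1090 3 5] 153 136 [3, 1] [(153,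
  136, [3, 1]), (154, 136, [3, 3, 1])]) .no .no (.red [.t 1090 3 1, .t 954 3 1, .f 961 1 5] 153
  136 [3, 1] [(136, 136, []), (153, 136, [3, 1])])) .no) .no (.red [.t 1089 2 3, .t 1209 2 3, .f
  1090 1 5, .t 954 3 1, .f 962 1 3] 136 136 [] [(136, 136, []), (152, 136, [1])]) .no

def c21t700 : Tr4 :=
  .br 697 .no (.br 827 .no (.hor [.f 698 1 5] []) (.br 1211 (.br 1208 (.use 605) .no .no (.br 1201
  (.br 1338 (.br 947 .no (.hor [.f 818 1 5] []) .no (.br 938 (.hor [.f 939 3 1, .f 938 1 5] [(134,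
  150, [2])]) (.hor [.f 810 1 3, .f 938 3 5] [(118, 136, [2, 4, 4])]) .no (.use 604) .no (.br 819
  .no (.br 696 .no (.hor [.f 568 1 5] []) .no (.br 936 (.red [.f 936 1 3, .f 1064 3 5, .t 1208 4
  2, .f 945 3 1] 151 136 [4, 1] [(134, 150, [2]), (135, 136, [4]), (151, 136, [4, 1])]) (.con 136
  [2, 2, 4, 4, 1, 1, 1]) .no (.use 607) .no .no) .no .no) .no (.hor [.f 811 3 1, .f 818 1 5]
  [(118, 136, [2, 4, 4])]) .no .no)) .no .no) .no (.red [.f 1210 3 1, .f 1210 1 5] 168 136 [1, 1]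
  [(168, 136, [1, 1])]) (.use 615) .no (.red [.t 1217 1 4, .f 1210 1 5] 168 136 [1, 1] [(168, 136,
  [1, 1])])) .no .no (.red [.f 1065 3 1, .f 1073 1 3] 151 136 [4, 1] [(150, 136, [4, 4, 1]), (151,
  136, [4, 1])]) (.red [.t 1081 1 4, .f 1200 3 5] 151 136 [4, 1] [(151, 136, [4, 1])]) .no) .no
  .no) .no .no (.use 610) .no .no) (.use 611) .no .no) (.hor [.f 697 3 1, .f 697 1 5] [(104, 136,
  [2, 2])]) .no .no (.hor [.t 832 2 4, .f 697 1 5] [(104, 136, [2, 2])])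

def c21t701 : Tr4 :=
  .br 1064 (.use 606) .no .no (.br 1192 (.use 616) .no .no (.red [.f 1056 3 1] 149 136 [4, 4, 4,
  1] [(149, 136, [4, 4, 4, 1])]) (.red [.t 1200 3 1, .f 1192 5 3, .f 1065 3 1, .f 1073 1 3] 151
  136 [4, 1] [(150, 136, [4, 4, 1]), (151, 136, [4, 1]), (167, 151, [1])]) .no) .no .no

def c21t702 : Tr4 :=
  .br 1211 (.br 1208 (.use 605) .no .no (.br 1201 (.br 1338 (.br 947 .no (.hor [.f 818 1 5] [])
  .no (.br 938 (.hor [.f 939 3 1, .f 938 1 5] [(134, 150, [2])]) (.hor [.f 810 1 3, .f 938 3 5]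
  [(118, 136, [2, 4, 4])]) .no (.use 604) .no (.br 1346 (.red [.f 1338 1 3, .f 1210 3 1] 168 136
  [1, 1] [(168, 136, [1, 1]), (184, 136, [1, 1, 1])]) .no (.br 707 .no (.use 613) (.br 1096 .no
  .no (.br 1066 (.use 602) .no .no (.br 936 (.red [.f 936 1 3, .f 1064 3 5, .t 1208 4 2, .f 945 3
  1] 151 136 [4, 1] [(134, 150, [2]), (135, 136, [4]), (151, 136, [4, 1])]) (.br 1226 .no .no (.br
  1105 (.red [.f 1097 1 3, .f 1225 3 5, .t 1345 2 3, .f 1226 1 5, .t 1090 3 1, .t 1097 3 1] 153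
  136 [3, 1] [(153, 136, [3, 1]), (169, 153, [1])]) (.br 1106 .no (.hor [.f 977 1 5] []) (.br 978
  .no .no (.hor [.f 978 3 1, .f 977 1 5] [(139, 121, [1, 3, 3])]) .no (.br 843 .no .no (.red [.f
  970 5 3, .f 843 3 1, .f 835 1 3] 121 136 [2, 3] [(121, 136, [2, 3]), (122, 136, [2, 3, 3])]) .no
  .no .no) .no) .no .no .no) (.br 1106 .no (.br 1337 (.hor [.f 1337 1 5] []) .no .no .no .no (.br
  1344 (.use 701) .no (.con 136 [3, 1, 1, 1]) .no .no .no)) (.hor [.f 1105 3 5] []) .no .no .no)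
  .no (.red [.t 1225 2 3, .t 1345 2 3, .f 1226 1 5, .t 1090 3 1, .f 1098 1 3] 153 136 [3, 1]
  [(153, 136, [3, 1]), (169, 153, [1])]) .no) .no .no .no) .no (.use 607) .no .no) .no .no) .no
  .no .no) (.hor [.t 833 4 2, .f 698 3 5] [(104, 105, [4])]) .no .no) .no (.red [.t 1210 3 1, .f
  1217 1 5] 168 136 [1, 1] [(168, 136, [1, 1])]) .no)) .no .no) .no (.red [.f 1210 3 1, .f 1210 1
  5] 168 136 [1, 1] [(168, 136, [1, 1])]) (.use 615) .no (.red [.t 1217 1 4, .f 1210 1 5] 168 136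
  [1, 1] [(168, 136, [1, 1])])) .no .no (.red [.f 1065 3 1, .f 1073 1 3] 151 136 [4, 1] [(150,
  136, [4, 4, 1]), (151, 136, [4, 1])]) (.red [.t 1081 1 4, .f 1200 3 5] 151 136 [4, 1] [(151,
  136, [4, 1])]) .no) .no .no) .no .no (.use 610) .no .no

def c21t703 : Tr4 :=
  .br 825 .no (.br 817 .no (.red [.f 689 1 3, .f 817 3 1, .f 824 1 5, .t 1088 4 2] 136 136 []
  [(103, 136, [2, 4, 2]), (119, 120, [4]), (136, 136, [])]) .no (.br 947 .no (.hor [.f 818 1 5]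
  []) .no (.use 599) .no .no) .no (.hor [.t 952 2 4, .f 817 1 5] [(119, 136, [2, 4])])) (.br 1097
  (.br 817 .no (.br 826 .no (.use 700) (.hor [.f 825 3 5] []) .no (.br 963 .no (.br 971 .no (.red
  [.f 835 1 3] 121 136 [2, 3] [(121, 136, [2, 3])]) (.use 664) .no .no (.br 834 .no (.br 697 .no
  (.use 612) (.hor [.f 697 3 1, .f 704 1 5] [(104, 105, [4])]) .no (.br 842 .no (.red [.f 706 1 3]
  105 136 [2, 2, 3] [(105, 136, [2, 2, 3])]) (.use 702) .no (.red [.f 842 5 1, .f 835 1 3] 121 136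
  [2, 3] [(121, 136, [2, 3])]) .no) (.red [.t 832 2 4, .t 968 4 2, .f 824 1 3, .f 696 3 1] 121 136
  [2, 3] [(120, 136, [2]), (121, 136, [2, 3])])) (.red [.t 834 3 1, .f 841 1 5] 121 136 [2, 3]
  [(121, 136, [2, 3])]) .no .no .no)) (.br 970 .no (.hor [.f 841 1 5] []) (.br 1211 (.br 1208
  (.use 605) .no .no (.br 1201 (.br 1338 (.br 947 .no (.hor [.f 818 1 5] []) .no (.br 938 (.hor
  [.f 939 3 1, .f 938 1 5] [(134, 150, [2])]) (.hor [.f 810 1 3, .f 938 3 5] [(118, 136, [2, 4,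
  4])]) .no (.use 604) .no (.br 1346 (.red [.f 1338 1 3, .f 1210 3 1] 168 136 [1, 1] [(168, 136,
  [1, 1]), (184, 136, [1, 1, 1])]) .no (.br 1066 (.use 602) .no .no (.br 936 (.red [.f 936 1 3, .f
  1064 3 5, .t 1208 4 2, .f 945 3 1] 151 136 [4, 1] [(134, 150, [2]), (135, 136, [4]), (151, 136,
  [4, 1])]) (.br 1226 .no .no (.br 1106 .no .no (.br 1337 (.hor [.f 1337 1 5] []) .no .no .no .no
  (.br 1344 (.use 701) .no (.con 136 [3, 1, 1, 1]) .no .no .no)) .no .no (.red [.t 1225 2 3, .t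
  1345 2 3, .f 1226 1 5, .t 1090 3 1, .f 1098 1 3] 153 136 [3, 1] [(153, 136, [3, 1]), (169, 153,
  [1])])) .no .no .no) .no (.use 607) .no .no) .no .no) .no (.red [.t 1210 3 1, .f 1217 1 5] 168
  136 [1, 1] [(168, 136, [1, 1])]) .no)) .no .no) .no (.red [.f 1210 3 1, .f 1210 1 5] 168 136 [1,
  1] [(168, 136, [1, 1])]) (.use 615) .no (.red [.t 1217 1 4, .f 1210 1 5] 168 136 [1, 1] [(168,
  136, [1, 1])])) .no .no (.red [.f 1065 3 1, .f 1073 1 3] 151 136 [4, 1] [(150, 136, [4, 4, 1]),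
  (151, 136, [4, 1])]) (.red [.t 1081 1 4, .f 1200 3 5] 151 136 [4, 1] [(151, 136, [4, 1])]) .no)
  .no .no) .no .no (.use 610) .no .no) .no .no .no) .no .no .no) .no) .no (.use 600) .no (.hor [.t
  952 2 4, .f 817 1 5] [(119, 136, [2, 4])])) .no (.use 54) .no .no (.red [.t 960 3 1, .t 824 1 3,
  .f 952 3 1, .f 960 1 3] 136 136 [] [(120, 136, [2]), (136, 136, [])])) (.hor [.f 817 3 1, .f 817
  1 5] [(119, 136, [2, 4])]) (.hor [.t 945 3 2, .f 824 1 5] [(119, 136, [2, 4])]) .no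

def c21t704 : Tr4 :=
  .br 1211 (.br 1346 (.br 1338 (.red [.f 1338 1 3, .f 1210 3 1] 168 136 [1, 1] [(168, 136, [1,
  1]), (184, 136, [1, 1, 1])]) .no .no (.br 1208 (.use 531) .no .no (.br 1201 (.use 615) .no .no
  (.red [.f 1065 3 1, .f 1073 1 3] 151 136 [4, 1] [(150, 136, [4, 1, 4]), (151, 136, [4, 1])])
  (.red [.t 1081 1 4, .f 1200 3 5] 151 136 [4, 1] [(151, 136, [4, 1])]) .no) .no .no) .no (.red
  [.t 1217 1 4, .f 1210 1 5] 168 136 [1, 1] [(168, 136, [1, 1])])) .no (.use 624) (.red [.f 1210 3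
  1, .f 1210 1 5] 168 136 [1, 1] [(168, 136, [1, 1])]) (.red [.t 1210 3 1, .f 1217 1 5] 168 136
  [1, 1] [(168, 136, [1, 1])]) .no) .no .no (.use 610) .no .no

def c21t705 : Tr4 :=
  .br 1075 (.use 654) (.red [.f 947 1 3, .f 1074 3 5, .t 1218 4 2, .f 1081 1 5, .t 961 1 4] 136
  136 [] [(135, 136, [4]), (136, 136, []), (152, 136, [1])]) .no (.br 944 (.br 1217 (.br 1097 (.br
  946 .no (.br 824 (.br 825 .no (.use 601) (.br 832 .no (.br 817 .no (.br 826 .no (.use 700) (.hor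
  [.f 825 3 5] []) .no (.br 963 .no (.br 971 .no (.red [.f 835 1 3] 121 136 [2, 3] [(121, 136, [2,
  3])]) (.use 143) .no .no (.br 834 .no (.br 697 .no (.use 612) (.hor [.f 697 3 1, .f 704 1 5]
  [(104, 105, [4])]) .no (.br 842 .no (.red [.f 706 1 3] 105 136 [2, 2, 3] [(105, 136, [2, 2,
  3])]) (.use 702) .no (.red [.f 842 5 1, .f 835 1 3] 121 136 [2, 3] [(121, 136, [2, 3])]) (.red
  [.t 833 4 2, .f 833 5 3, .t 834 3 1] 121 136 [2, 3] [(104, 105, [4]), (121, 136, [2, 3])]))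
  (.hor [.t 832 2 4, .f 689 1 3, .f 817 3 1, .f 817 1 5] [(103, 105, [4, 4]), (104, 105, [4]),
  (119, 121, [4, 4])])) (.red [.t 834 3 1] 121 136 [2, 3] [(121, 136, [2, 3])]) .no .no .no)) (.br
  834 .no (.br 835 .no (.hor [.f 706 1 5] []) (.br 697 .no (.use 612) (.hor [.f 697 3 1, .f 704 1
  5] [(104, 105, [4])]) .no (.br 707 .no (.br 947 .no (.hor [.f 818 1 5] []) .no (.use 613) .no
  .no) (.red [.f 707 3 1, .f 706 1 5] 105 136 [2, 2, 3] [(105, 136, [2, 2, 3])]) (.hor [.t 833 4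
  2, .f 698 3 5] [(104, 105, [4])]) .no .no) (.hor [.t 832 2 4, .f 689 1 3, .f 817 3 1, .f 817 1
  5] [(103, 105, [4, 4]), (104, 105, [4]), (119, 136, [2, 4])])) .no .no .no) (.use 290) .no (.hor
  [.f 826 5 3, .f 825 3 5, .t 945 3 2, .f 824 1 5] [(119, 136, [2, 4])]) .no) .no .no .no) .no)
  .no (.use 600) .no (.hor [.t 952 2 4, .f 817 1 5] [(119, 136, [2, 4])])) (.hor [.f 832 3 1, .f
  824 1 3, .f 824 3 5] [(120, 136, [2]), (121, 136, [2, 3])]) .no .no .no) (.hor [.f 817 3 1, .f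
  817 1 5] [(119, 136, [2, 4])]) (.hor [.t 945 3 2, .f 824 1 5] [(119, 136, [2, 4])]) .no) (.con
  136 [2, 4, 1, 3]) (.con 136 [2, 4, 1, 3]) (.con 136 [2, 4, 1, 3]) (.con 136 [2, 4, 1, 3]) .no)
  .no (.use 617) (.red [.t 1082 4 2, .t 1218 4 2, .f 1081 1 5, .t 961 1 4] 136 136 [] [(135, 136,
  [4]), (136, 136, []), (152, 136, [1])]) .no) .no (.use 54) .no .no (.use 704)) .no (.hor [.f
  1216 3 5] []) .no .no .no) (.use 593) (.use 658) (.use 618) .no .no) .no .no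

def c21t706 : Tr4 :=
  .br 1073 (.red [.f 1073 1 3, .f 1073 3 5] 151 136 [4, 1] [(151, 136, [4, 1])]) .no .no (.br 1218
  (.br 1216 (.use 573) .no (.use 560) (.use 568) (.use 595) .no) .no (.red [.f 1090 3 1, .f 1090 1
  5] 153 136 [3, 1] [(153, 136, [3, 1])]) (.br 969 (.red [.f 961 1 3, .f 1089 3 5, .t 1209 2 3, .f
  1090 1 5, .t 954 3 1, .t 961 3 1] 136 136 [] [(136, 136, []), (152, 136, [1])]) (.br 1216 (.use
  518) .no (.br 1075 (.use 654) (.red [.f 947 1 3, .f 1074 3 5, .t 1218 4 2, .f 1081 1 5, .t 961 1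
  4] 136 136 [] [(135, 136, [4]), (136, 136, []), (152, 136, [1])]) .no (.br 944 (.br 824 (.br 832
  .no (.br 1217 (.br 946 .no (.use 703) .no (.br 1097 (.use 617) .no (.use 54) .no .no (.use 704))
  (.red [.t 1082 4 2, .t 1218 4 2, .f 1081 1 5, .t 961 1 4] 136 136 [] [(135, 136, [4]), (136,
  136, []), (152, 136, [1])]) .no) .no (.hor [.f 1216 3 5] []) .no .no .no) (.hor [.f 832 3 1, .f
  840 1 5] [(121, 136, [2, 3])]) .no (.br 1097 (.br 946 .no (.br 825 .no (.use 601) .no (.hor [.f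
  817 3 1, .f 817 1 5] [(119, 136, [2, 4])]) (.hor [.t 945 3 2, .f 824 1 5] [(119, 136, [2, 4])])
  .no) .no (.use 617) (.red [.t 1082 4 2, .t 1218 4 2, .f 1081 1 5, .t 961 1 4] 136 136 [] [(135,
  136, [4]), (136, 136, []), (152, 136, [1])]) .no) .no (.use 54) .no .no (.red [.t 960 3 1, .f
  832 5 1, .f 824 1 3, .f 952 3 1, .f 960 1 3] 136 136 [] [(120, 136, [2]), (136, 136, [])])) .no)
  (.con 136 [2, 4, 1, 3]) (.con 136 [2, 4, 1, 3]) (.con 136 [2, 4, 1, 3]) (.con 136 [2, 4, 1, 3])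
  .no) (.use 593) (.use 658) (.use 618) .no .no) .no .no) (.con 136 [1, 1]) (.use 652) .no) (.br
  1216 (.use 518) .no (.use 705) (.con 136 [1, 1]) (.use 653) .no) .no (.red [.t 1089 2 3, .t 1209
  2 3, .f 1090 1 5, .t 954 3 1, .f 962 1 3] 136 136 [] [(136, 136, []), (152, 136, [1])]) .no) .no
  (.use 579)) .no (.br 1208 (.br 1218 (.use 662) .no (.red [.f 1090 3 1, .f 1090 1 5] 153 136 [3,
  1] [(153, 136, [3, 1])]) (.use 619) .no (.use 579)) .no (.red [.f 1080 3 1, .f 1080 1 5, .f 1072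
  5 3, .f 945 3 1, .f 953 1 3, .t 1088 1 4] 136 136 [] [(135, 136, [4]), (136, 136, [])]) (.red
  [.t 1208 4 2, .f 1073 3 5] 151 136 [4, 1] [(151, 136, [4, 1])]) .no .no)

def c21l27 : List Tr4 :=
  [c21t699, c21t700, c21t701, c21t702, c21t703, c21t704, c21t705, c21t706]

theorem c21k27 : chkLF ⟨4, 0, 0, true, -8⟩ false 1 c21N 699 c21l27 = true := by decide +kernel

end Pool.Agent.FT4D
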