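import Pool.Agent.FT4D.Tab_c21

/-!
# Four levels: decision trees (found by a computer search)
-/

namespace Pool.Agent.FT4D

def c21t707 : Tr4 :=
  .br 953 .no (.br 824 (.hor [.f 824 1 5] []) (.br 944 (.con 136 [2, 4, 1, 3]) (.con 136 [2, 4, 1,
  3]) (.use 656) (.con 136 [2, 4, 1, 3]) (.con 136 [2, 4, 1, 3]) .no) (.br 944 (.con 136 [2, 4, 1,
  3]) (.con 136 [2, 4, 1, 3]) (.br 1218 (.br 1216 (.use 573) .no (.use 560) (.use 568) (.br 1073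
  (.red [.f 1073 1 3, .f 1073 3 5] 151 136 [4, 1] [(151, 136, [4, 1])]) (.use 649) .no (.br 945
  .no (.red [.f 817 1 3] 119 136 [2, 4] [(119, 136, [2, 4])]) .no (.br 946 .no (.use 588) .no
  (.hor [.f 937 3 5] []) (.br 1075 (.use 544) .no .no (.use 658) .no .no) .no) (.br 1075 (.use
  544) (.br 826 .no (.br 817 .no (.use 447) .no (.use 659) (.red [.f 817 5 1, .f 817 1 3] 119 136
  [2, 4] [(119, 136, [2, 4])]) (.red [.t 952 4 2] 119 136 [2, 4] [(119, 136, [2, 4])])) (.use 657)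
  (.use 585) (.br 833 .no (.br 817 .no (.use 660) .no (.use 659) (.red [.f 817 5 1, .f 817 1 3]
  119 136 [2, 4] [(119, 136, [2, 4])]) (.red [.t 952 4 2] 119 136 [2, 4] [(119, 136, [2, 4])]))
  (.br 817 .no (.use 467) .no (.use 659) (.red [.f 817 5 1, .f 817 1 3] 119 136 [2, 4] [(119, 136,
  [2, 4])]) (.red [.t 952 4 2] 119 136 [2, 4] [(119, 136, [2, 4])])) .no (.red [.t 953 2 3, .f 945
  5 3, .f 944 3 5, .t 1088 4 2, .f 825 3 1] 136 136 [] [(136, 136, [])]) .no) .no) .no (.use 658)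
  .no .no) .no) .no (.br 1208 (.use 662) .no .no (.red [.t 1208 4 2, .f 1073 3 5] 151 136 [4, 1]
  [(151, 136, [4, 1])]) .no .no)) .no) .no (.red [.f 1090 3 1, .f 1090 1 5] 153 136 [3, 1] [(153,
  136, [3, 1])]) (.use 699) .no (.use 655)) (.con 136 [2, 4, 1, 3]) (.con 136 [2, 4, 1, 3]) .no)
  (.use 581) .no .no) .no (.br 1227 (.use 706) .no (.red [.f 1099 3 1, .f 1091 1 3, .f 1090 3 5]
  153 136 [3, 1] [(153, 136, [3, 1]), (154, 136, [3, 3, 1])]) .no .no (.red [.t 1090 3 1, .t 954 3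
  1, .f 961 1 5] 153 136 [3, 1] [(136, 136, []), (153, 136, [3, 1])])) .no (.red [.t 1088 4 2, .f
  953 3 5] 136 136 [] [(136, 136, [])])

def c21t708 : Tr4 :=
  .br 960 .no (.br 952 .no (.red [.f 824 1 3, .f 952 3 1, .f 960 1 5] 136 136 [] [(120, 136, [2]),
  (136, 136, [])]) .no (.br 1081 (.br 1099 (.red [.f 1091 1 3, .f 1090 3 5] 153 136 [3, 1] [(153,
  136, [3, 1])]) (.use 572) (.br 1227 (.use 580) .no (.red [.f 1099 3 1, .f 1091 1 3, .f 1090 3 5]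
  153 136 [3, 1] [(153, 136, [3, 1]), (154, 136, [3, 1, 3])]) .no .no (.red [.t 1090 3 1, .t 954 3
  1, .f 961 1 5] 153 136 [3, 1] [(136, 136, []), (153, 136, [3, 1])])) .no .no .no) (.red [.f 953
  1 3, .f 953 3 5] 136 136 [] [(136, 136, [])]) .no (.hor [.f 1073 3 5] []) .no .no) (.red [.t
  1088 4 2, .f 953 3 5] 136 136 [] [(136, 136, [])]) .no) (.br 1081 (.br 1099 (.red [.f 1091 1 3,
  .f 1090 3 5] 153 136 [3, 1] [(153, 136, [3, 1])]) (.br 1097 (.br 1218 (.br 1216 (.use 573) .no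
  (.use 560) (.use 568) (.br 963 .no (.br 953 .no (.br 969 .no (.br 832 .no (.use 582) (.red [.f
  832 3 1, .f 840 1 5] 121 136 [2, 3] [(121, 136, [2, 3])]) (.br 834 .no (.use 45) (.br 944 (.con
  136 [2, 4, 1, 3]) (.con 136 [2, 4, 1, 3]) (.br 826 .no (.use 47) .no (.use 585) (.use 108) .no)
  (.con 136 [2, 4, 1, 3]) (.con 136 [2, 4, 1, 3]) .no) (.con 136 [2, 2]) .no (.red [.t 953 2 3, .f
  824 3 5, .t 968 4 2] 121 136 [2, 3] [(120, 104, [1]), (121, 136, [2, 3])])) (.red [.t 968 4 2]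
  121 136 [2, 3] [(121, 136, [2, 3])]) .no) (.use 72) .no (.use 592) .no) .no (.br 1073 (.red [.f
  1073 1 3, .f 1073 3 5] 151 136 [4, 1] [(151, 136, [4, 1])]) .no .no (.use 595) .no (.red [.t
  1080 3 1, .f 1072 5 3, .f 945 3 1, .f 953 1 3] 136 136 [] [(135, 136, [4]), (136, 136, []),
  (152, 136, [1])])) .no (.red [.t 1088 4 2, .f 953 3 5] 136 136 [] [(136, 136, [])])) .no .no .no
  .no) .no) .no (.red [.f 1090 3 1, .f 1090 1 5] 153 136 [3, 1] [(153, 136, [3, 1])]) (.br 1216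
  (.use 518) .no (.br 963 .no (.br 969 .no (.use 622) (.use 72) .no (.red [.t 1089 2 3, .t 1209 2
  3, .f 1090 1 5, .t 954 3 1, .f 962 1 3] 136 136 [] [(136, 136, []), (152, 136, [1])]) .no) .no
  .no .no .no) (.con 136 [1, 1]) (.red [.t 1080 3 1, .f 1209 3 5, .t 1097 1 4] 153 136 [3, 1]
  [(152, 136, [1]), (153, 136, [3, 1])]) .no) .no (.red [.t 1097 1 4, .f 1090 1 5] 153 136 [3, 1]
  [(153, 136, [3, 1])])) (.con 136 [3, 3]) (.use 78) .no .no (.use 644)) (.use 707) .no .no .no)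
  (.red [.f 953 1 3, .f 953 3 5] 136 136 [] [(136, 136, [])]) .no (.hor [.f 1073 3 5] []) .no .no)
  (.red [.f 952 3 1, .f 960 1 5] 136 136 [] [(136, 136, [])]) .no .no

def c21t709 : Tr4 :=
  .br 1200 (.red [.f 1200 1 3] 167 136 [4, 1, 1] [(167, 136, [4, 1, 1])]) (.con 136 [4, 4, 1, 1])
  .no (.con 136 [4, 4, 1, 1]) (.use 529) .no

def c21t710 : Tr4 :=
  .br 1202 (.red [.f 1202 1 3, .f 1074 3 1] 151 136 [4, 1] [(151, 136, [4, 1]), (167, 136, [4, 1,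
  1])]) .no .no (.br 1065 (.use 709) .no .no (.red [.f 929 3 1, .f 937 1 3] 134 136 [4, 4] [(133,
  136, [4, 4, 4]), (134, 136, [4, 4])]) (.red [.t 945 1 4] 134 136 [4, 4] [(134, 136, [4, 4])])
  (.use 538)) .no (.red [.t 1081 1 4, .f 1074 1 5] 151 136 [4, 1] [(151, 136, [4, 1])])

def c21t711 : Tr4 :=
  .br 946 .no (.br 825 (.use 543) (.con 136 [4, 2, 3, 1]) (.con 136 [4, 2, 3, 1]) (.con 136 [4, 2,
  2]) (.con 136 [4, 2, 3, 1]) .no) .no (.hor [.f 937 3 5] []) (.red [.t 1082 4 2, .t 1218 2 4, .f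
  954 3 1] 136 136 [] [(135, 119, [1]), (136, 136, []), (152, 136, [1])]) .no

def c21t712 : Tr4 :=
  .br 824 .no (.br 945 .no (.use 542) (.hor [.f 944 3 5] []) (.use 711) (.use 553) .no) .no (.use
  566) (.use 567) .no

def c21t713 : Tr4 :=
  .br 1208 (.con 136 [4, 1, 1]) .no (.con 136 [4, 1, 1]) (.red [.t 1208 4 2, .f 1073 3 5] 151 136
  [4, 1] [(151, 136, [4, 1])]) .no .no

def c21t714 : Tr4 :=
  .br 1211 (.hor [.f 1210 1 5] []) .no (.br 1075 (.br 1073 (.red [.f 1073 1 3, .f 1073 3 5] 151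
  136 [4, 1] [(151, 136, [4, 1])]) (.br 946 .no (.use 645) .no (.br 825 (.br 824 .no (.br 826 .no
  (.use 425) (.red [.f 826 3 1, .f 825 1 5, .t 1073 2 3, .f 944 3 5, .t 1088 4 2, .t 961 4 2] 136
  136 [] [(135, 119, [1]), (136, 136, [])]) (.use 520) (.br 1208 (.br 817 .no (.use 524) .no (.use
  429) (.br 937 (.red [.f 937 1 3, .f 937 3 5] 134 136 [4, 4] [(134, 136, [4, 4])]) (.use 525) .no
  (.use 710) .no (.use 540)) (.red [.t 952 4 2] 119 136 [2, 4] [(119, 136, [2, 4])])) .no (.red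
  [.f 1080 3 1, .f 1080 1 5, .t 944 3 1, .f 1073 3 5, .t 961 1 4] 136 136 [] [(135, 119, [1]),
  (136, 136, []), (152, 136, [1])]) (.dom 151 136 [4, 1]) .no .no) .no) .no (.red [.f 816 3 1, .f
  824 1 5] 119 136 [2, 4] [(119, 136, [2, 4])]) .no .no) (.con 136 [4, 2, 3, 1]) (.con 136 [4, 2,
  3, 1]) (.con 136 [4, 2, 3, 1]) (.con 136 [4, 2, 3, 1]) (.con 136 [4, 2, 3, 1])) (.red [.t 1082 4
  2, .t 1218 2 4, .f 954 3 1] 136 136 [] [(135, 119, [1]), (136, 136, []), (152, 136, [1])]) .no)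
  .no (.br 824 .no (.br 945 .no (.use 542) (.hor [.f 944 3 5] []) (.use 711) (.use 553) .no) .no
  (.use 558) (.use 559) .no) .no (.use 712)) (.red [.f 947 1 3, .f 1074 3 5, .t 1218 2 4, .f 954 3
  1] 136 136 [] [(135, 134, [3]), (136, 136, []), (152, 136, [1])]) .no (.br 1073 (.red [.f 1073 1
  3, .f 1073 3 5] 151 136 [4, 1] [(151, 136, [4, 1])]) (.br 825 (.br 946 .no (.use 523) .no (.br
  824 .no (.br 826 .no (.use 425) (.red [.f 826 3 1, .f 825 1 5, .t 1073 2 3, .f 944 3 5, .t 1088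
  4 2, .t 961 4 2] 136 136 [] [(135, 119, [1]), (136, 136, [])]) (.use 519) (.use 527) .no) .no
  (.red [.f 816 3 1, .f 824 1 5] 119 136 [2, 4] [(119, 136, [2, 4])]) .no .no) (.red [.t 1082 4 2,
  .t 1218 2 4, .f 954 3 1] 136 136 [] [(135, 119, [1]), (136, 136, []), (152, 136, [1])]) .no)
  (.con 136 [4, 2, 3, 1]) (.con 136 [4, 2, 3, 1]) (.con 136 [4, 2, 3, 1]) (.con 136 [4, 2, 3, 1])
  (.con 136 [4, 2, 3, 1])) .no (.use 658) .no (.use 712)) .no .no) (.br 1073 (.red [.f 1073 1 3,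
  .f 1073 3 5] 151 136 [4, 1] [(151, 136, [4, 1])]) (.br 825 (.br 824 .no (.br 826 .no (.use 425)
  (.red [.f 826 3 1, .f 825 1 5, .t 1073 2 3, .f 944 3 5, .t 1088 4 2, .t 961 4 2] 136 136 []
  [(135, 119, [1]), (136, 136, [])]) (.use 522) (.br 1075 .no (.con 136 [4, 4]) .no (.use 527) .no
  .no) .no) .no (.red [.f 816 3 1, .f 824 1 5] 119 136 [2, 4] [(119, 136, [2, 4])]) .no .no) (.con
  136 [4, 2, 3, 1]) (.con 136 [4, 2, 3, 1]) (.con 136 [4, 2, 3, 1]) (.con 136 [4, 2, 3, 1]) (.con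
  136 [4, 2, 3, 1])) .no (.use 627) .no (.use 713)) .no .no

def c21t715 : Tr4 :=
  .br 825 (.use 641) (.con 136 [4, 2, 3, 1]) (.con 136 [4, 2, 3, 1]) (.con 136 [4, 2, 3, 1]) (.con
  136 [4, 2, 3, 1]) .no

def c21t716 : Tr4 :=
  .br 1208 (.use 564) .no (.use 569) (.red [.t 1208 4 2, .f 1073 3 5] 151 136 [4, 1] [(151, 136,
  [4, 1])]) .no .no

def c21t717 : Tr4 :=
  .br 824 (.hor [.f 824 1 5] []) (.con 136 [2, 4, 1, 3]) (.con 136 [2, 4, 1, 3]) .no .no .no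

def c21t718 : Tr4 :=
  .br 824 (.hor [.f 824 1 5] []) (.con 136 [2, 4, 1, 3]) (.con 136 [2, 4, 1, 3]) (.con 136 [2, 4,
  1, 3]) .no .no

def c21t719 : Tr4 :=
  .br 953 .no (.br 944 (.hor [.f 944 1 5] []) (.use 717) (.use 522) (.use 718) .no .no) .no .no
  .no (.red [.t 1088 4 2, .f 953 3 5] 136 136 [] [(136, 136, [])])

def c21t720 : Tr4 :=
  .br 952 .no (.con 136 [4, 2, 3, 1]) .no (.con 136 [4, 2, 3, 1]) (.red [.t 1088 4 2, .f 953 3 5]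
  136 136 [] [(136, 136, [])]) .no

def c21t721 : Tr4 :=
  .br 824 (.hor [.f 824 1 5] []) (.con 136 [2, 2, 4]) (.con 136 [2, 2, 4]) (.use 581) .no .no

def c21t722 : Tr4 :=
  .br 827 .no (.br 826 .no (.hor [.f 698 1 5] []) (.red [.f 826 3 1, .f 834 1 5, .t 1098 2 4, .f
  955 1 3, .t 954 2 3] 136 136 [] [(136, 136, []), (137, 136, [3])]) (.use 719) .no (.use 720))
  .no (.br 826 .no (.br 953 .no (.use 721) .no .no .no (.red [.t 1088 4 2, .f 953 3 5] 136 136 []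
  [(136, 136, [])])) (.red [.f 826 3 1, .f 834 1 5, .t 1098 2 4, .f 955 1 3, .t 954 2 3] 136 136
  [] [(136, 136, []), (137, 136, [3])]) (.use 719) .no (.use 720)) .no (.red [.t 962 4 2, .t 1098
  2 4, .f 955 1 3, .f 827 3 1] 136 136 [] [(136, 136, []), (137, 136, [3])])

def c21t723 : Tr4 :=
  .br 825 (.hor [.f 824 1 5] []) (.con 136 [4, 2, 3, 1]) (.con 136 [4, 2, 3, 1]) (.con 136 [4, 2,
  3, 1]) (.con 136 [4, 2, 3, 1]) .no

def c21t724 : Tr4 :=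
  .br 952 .no (.use 723) .no (.use 645) (.red [.t 1088 4 2, .f 953 3 5] 136 136 [] [(136, 136,
  [])]) .no

def c21t725 : Tr4 :=
  .br 824 .no (.use 425) (.use 47) (.use 581) .no .no

def c21t726 : Tr4 :=
  .br 1208 (.use 710) .no .no (.dom 151 136 [4, 1]) .no .no

def c21t727 : Tr4 :=
  .br 1096 .no .no (.hor [.f 1096 3 5] []) .no .no .no

def c21t728 : Tr4 :=
  .br 1075 (.br 1202 (.red [.f 1202 1 3, .f 1074 3 1] 151 136 [4, 1] [(151, 136, [4, 1]), (167,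
  136, [4, 1, 1])]) .no .no (.br 1208 (.use 709) .no .no (.dom 151 136 [4, 1]) .no .no) .no (.red
  [.t 1081 1 4, .f 1074 1 5] 151 136 [4, 1] [(151, 136, [4, 1])])) .no .no (.use 576) .no .no

def c21t729 : Tr4 :=
  .br 1075 (.br 1202 (.red [.f 1202 1 3, .f 1074 3 1] 151 136 [4, 1] [(151, 136, [4, 1]), (167,
  136, [4, 1, 1])]) .no .no (.use 538) .no (.red [.t 1081 1 4, .f 1074 1 5] 151 136 [4, 1] [(151,
  136, [4, 1])])) .no .no (.con 136 [4, 4, 1]) .no .no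

def c21t730 : Tr4 :=
  .br 1216 (.br 1065 (.br 1075 (.use 726) .no .no (.use 576) .no .no) .no .no (.red [.f 929 3 1,
  .f 937 1 3] 134 136 [4, 4] [(133, 136, [4, 4, 4]), (134, 136, [4, 4])]) (.red [.t 945 1 4] 134
  136 [4, 4] [(134, 136, [4, 4])]) (.br 1075 (.use 726) .no .no (.con 136 [4, 4, 1]) .no .no)) .no
  (.br 1065 (.use 728) .no .no (.red [.f 929 3 1, .f 937 1 3] 134 136 [4, 4] [(133, 136, [4, 4,
  4]), (134, 136, [4, 4])]) (.red [.t 945 1 4] 134 136 [4, 4] [(134, 136, [4, 4])]) (.use 729))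
  (.red [.f 1080 3 1, .f 1080 1 5, .t 944 3 1, .f 1073 3 5, .t 961 1 4] 136 136 [] [(135, 119,
  [1]), (136, 136, []), (152, 136, [1])]) (.red [.t 1080 3 1, .t 944 3 1, .f 1073 3 5, .t 961 1 4]
  136 136 [] [(135, 119, [1]), (136, 136, []), (152, 136, [1])]) .no

def c21t731 : Tr4 :=
  .br 937 (.red [.f 937 1 3, .f 937 3 5] 134 136 [4, 4] [(134, 136, [4, 4])]) (.use 647) .no (.use
  730) .no (.use 540)

def c21t732 : Tr4 :=
  .br 1066 (.red [.t 1066 1 3] 150 136 [4, 4, 1] [(150, 136, [4, 4, 1])]) .no .no (.hor [.f 1057 3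
  5] []) .no .no

def c21l28 : List Tr4 :=
  [c21t707, c21t708, c21t709, c21t710, c21t711, c21t712, c21t713, c21t714, c21t715, c21t716,
  c21t717, c21t718, c21t719, c21t720, c21t721, c21t722, c21t723, c21t724, c21t725, c21t726,
  c21t727, c21t728, c21t729, c21t730, c21t731, c21t732]

theorem c21k28 : chkLF ⟨4, 0, 0, true, -8⟩ false 1 c21N 707 c21l28 = true := by decide +kernel

def c21t733 : Tr4 :=
  .br 1208 (.br 1345 (.br 1202 (.red [.f 1202 1 3, .f 1074 3 1] 151 136 [4, 1] [(151, 136, [4,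
  1]), (167, 136, [4, 1, 1])]) .no .no (.br 1065 (.br 1075 (.use 709) .no .no (.use 576) .no .no)
  .no .no (.use 695) (.red [.t 945 1 4] 134 136 [4, 4] [(134, 136, [4, 4])]) (.use 729)) (.br 1346
  (.hor [.f 1345 1 5] []) .no .no .no (.red [.t 1210 1 3, .f 1202 5 3, .f 1074 3 1, .f 1082 1 3]
  151 136 [4, 1] [(151, 136, [4, 1]), (152, 136, [1]), (168, 167, [3])]) .no) (.red [.t 1081 1 4]
  151 136 [4, 1] [(151, 136, [4, 1])])) .no (.hor [.f 1208 1 3, .f 1208 3 1, .f 1217 3 1, .f 1216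
  1 5] [(169, 136, [1, 3, 1])]) (.hor [.f 1208 1 3, .f 1336 3 5] [(168, 167, [3])]) (.hor [.f 1208
  1 3, .f 1208 3 1, .t 1225 4 1, .f 1216 1 5] [(169, 136, [1, 3, 1])]) .no) .no .no (.br 1075
  (.dom 151 136 [4, 1]) .no .no (.br 1065 (.use 576) .no .no (.br 1202 (.red [.f 1202 1 3, .f 1074
  3 1] 151 136 [4, 1] [(151, 136, [4, 1]), (167, 136, [4, 1, 1])]) .no .no (.use 695) (.use 732)
  (.red [.t 1081 1 4, .f 1200 3 5] 151 136 [4, 1] [(151, 136, [4, 1])])) (.red [.t 945 1 4] 134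
  136 [4, 4] [(134, 136, [4, 4])]) (.con 136 [4, 4, 1])) .no .no) .no .no

def c21t734 : Tr4 :=
  .br 818 .no (.hor [.f 689 1 5] []) .no (.con 136 [2, 2, 4, 4]) .no .no

def c21t735 : Tr4 :=
  .br 1065 (.use 728) .no .no (.br 1202 (.red [.f 1202 1 3, .f 1074 3 1] 151 136 [4, 1] [(151,
  136, [4, 1]), (167, 136, [4, 1, 1])]) .no .no (.use 695) (.br 1075 .no .no .no (.use 732) .no
  .no) (.red [.t 1081 1 4] 151 136 [4, 1] [(151, 136, [4, 1])])) (.red [.t 945 1 4] 134 136 [4, 4]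
  [(134, 136, [4, 4])]) (.use 729)

def c21t736 : Tr4 :=
  .br 952 .no (.use 723) .no (.br 825 (.br 826 .no (.use 725) (.red [.f 826 3 1, .f 825 1 5, .t
  1073 2 3, .f 944 3 5, .t 1088 4 2, .t 961 4 2] 136 136 [] [(135, 119, [1]), (136, 136, [])])
  (.use 521) (.br 947 (.con 136 [4, 4]) (.br 824 .no (.use 731) (.br 833 .no (.br 937 (.red [.f
  937 1 3, .f 937 3 5] 134 136 [4, 4] [(134, 136, [4, 4])]) (.br 1216 (.br 1217 (.hor [.f 1216 1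
  5] []) .no (.br 1098 (.hor [.f 1090 1 3, .f 1090 3 5] [(153, 121, [1, 1])]) .no (.br 1097 .no
  .no (.hor [.f 1097 3 5] []) .no .no (.br 1226 (.br 696 .no (.br 817 .no (.use 665) .no .no (.use
  733) (.red [.t 952 4 2] 119 136 [2, 4] [(119, 136, [2, 4])])) (.red [.f 696 3 1, .f 704 1 5] 104
  136 [2, 2] [(104, 136, [2, 2])]) (.br 817 .no (.use 734) .no .no (.use 733) (.red [.t 952 4 2]
  119 136 [2, 4] [(119, 136, [2, 4])])) (.red [.t 832 4 2] 104 136 [2, 2] [(104, 136, [2, 2])])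
  .no) .no (.hor [.f 1098 3 1, .f 1090 1 3, .f 1090 3 5] [(153, 121, [1, 1]), (154, 121, [1, 3,
  1])]) .no (.hor [.t 1090 1 3, .f 1217 3 5] [(153, 121, [1, 1])]) .no)) .no .no (.hor [.t 1217 3
  2, .f 1090 3 5] [(153, 121, [1, 1])])) .no .no .no) .no (.br 696 .no (.br 817 .no (.use 665) .no
  .no (.use 735) (.red [.t 952 4 2] 119 136 [2, 4] [(119, 136, [2, 4])])) (.red [.f 696 3 1, .f
  704 1 5] 104 136 [2, 2] [(104, 136, [2, 2])]) (.br 817 .no (.use 734) .no .no (.use 735) (.red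
  [.t 952 4 2] 119 136 [2, 4] [(119, 136, [2, 4])])) (.red [.t 832 4 2] 104 136 [2, 2] [(104, 136,
  [2, 2])]) .no) (.red [.f 1080 3 1, .f 1080 1 5, .t 944 3 1, .f 1073 3 5, .t 961 1 4] 136 136 []
  [(135, 119, [1]), (136, 136, []), (152, 136, [1])]) (.red [.t 1080 3 1, .t 944 3 1, .f 1073 3 5,
  .t 961 1 4] 136 136 [] [(135, 119, [1]), (136, 136, []), (152, 136, [1])]) .no) .no (.use 730)
  .no (.use 540)) (.use 459) .no (.red [.t 953 2 3, .t 1073 2 3, .f 944 3 5, .t 1088 4 2, .f 825 3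
  1] 136 136 [] [(135, 119, [1]), (136, 136, [])]) .no) (.use 581) .no .no) .no (.hor [.f 938 3 5]
  []) .no .no) .no) (.con 136 [4, 2, 3, 3]) (.con 136 [4, 2, 3, 3]) (.con 136 [4, 2, 3, 3]) (.con
  136 [4, 2, 3, 3]) (.con 136 [4, 2, 3, 3])) (.red [.t 1088 4 2, .f 953 3 5] 136 136 [] [(136,
  136, [])]) .no

def c21t737 : Tr4 :=
  .br 937 .no (.br 817 .no (.br 818 .no (.hor [.f 689 1 5] []) .no (.use 438) (.use 443) .no) .no
  .no (.use 646) (.red [.t 952 4 2] 119 136 [2, 4] [(119, 136, [2, 4])])) .no (.red [.f 929 3 1,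
  .f 937 1 3] 134 136 [4, 4] [(133, 136, [4, 4, 4]), (134, 136, [4, 4])]) .no (.use 526)

def c21t738 : Tr4 :=
  .br 817 .no (.use 76) .no (.use 429) (.red [.t 1082 4 2, .f 945 1 5, .f 817 5 1, .f 817 1 3] 119
  136 [2, 4] [(119, 136, [2, 4]), (135, 119, [1])]) (.red [.t 952 4 2] 119 136 [2, 4] [(119, 136,
  [2, 4])])

def c21t739 : Tr4 :=
  .br 937 .no (.br 947 .no (.br 817 .no (.br 696 .no (.use 665) (.red [.f 696 3 1, .f 704 1 5] 104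
  136 [2, 2] [(104, 136, [2, 2])]) (.use 734) (.red [.t 832 4 2] 104 136 [2, 2] [(104, 136, [2,
  2])]) .no) .no .no (.use 695) (.red [.t 952 4 2] 119 136 [2, 4] [(119, 136, [2, 4])])) .no (.hor
  [.f 938 3 5] []) .no .no) .no (.red [.f 929 3 1, .f 937 1 3] 134 136 [4, 4] [(133, 136, [4, 4,
  4]), (134, 136, [4, 4])]) .no (.use 526)

def c21t740 : Tr4 :=
  .br 698 .no (.br 697 .no (.hor [.f 569 1 5] []) .no (.br 696 .no (.br 704 .no (.red [.f 568 1 3]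
  88 136 [2, 2, 2] [(88, 136, [2, 2, 2])]) (.br 843 .no (.br 706 .no (.red [.f 570 1 3] 88 136 [2,
  2, 2] [(88, 136, [2, 2, 2])]) (.con 136 [2, 2, 3, 2]) .no (.br 699 .no (.hor [.f 570 1 5] [])
  .no (.red [.t 690 1 3] 103 136 [2, 2, 4] [(103, 136, [2, 2, 4])]) .no .no) .no) (.red [.f 843 3
  1, .f 835 1 3, .f 834 3 5] 121 136 [2, 3] [(121, 136, [2, 3]), (122, 136, [2, 3, 3])]) .no .no
  .no) .no .no .no) (.red [.f 696 3 1, .f 704 1 5] 104 136 [2, 2] [(104, 136, [2, 2])]) (.hor [.f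
  688 3 5] []) .no .no) .no (.red [.t 832 4 2] 104 136 [2, 2] [(104, 136, [2, 2])])) (.red [.t 962
  4 2, .f 825 1 5, .t 705 1 4] 104 136 [2, 2] [(104, 136, [2, 2]), (120, 104, [1])]) .no (.red [.f
  698 5 1, .f 690 1 3] 103 136 [2, 2, 4] [(103, 136, [2, 2, 4])]) (.red [.t 962 4 2, .f 825 1 5,
  .f 697 5 1, .f 697 1 3] 104 136 [2, 2] [(104, 136, [2, 2]), (120, 104, [1])])

def c21t741 : Tr4 :=
  .br 817 .no (.br 818 .no (.hor [.f 689 1 5] []) .no (.use 453) (.use 329) .no) .no (.br 818 .no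
  (.use 740) .no (.hor [.f 809 3 5] []) (.red [.t 1082 4 2, .f 818 5 3, .f 945 1 5, .t 825 1 4]
  119 136 [2, 4] [(119, 136, [2, 4]), (135, 119, [1])]) .no) (.red [.t 1082 4 2, .f 945 1 5, .f
  817 5 1, .f 817 1 3] 119 136 [2, 4] [(119, 136, [2, 4]), (135, 119, [1])]) (.red [.t 952 4 2]
  119 136 [2, 4] [(119, 136, [2, 4])])

def c21t742 : Tr4 :=
  .br 1200 (.hor [.f 1200 1 5] []) .no .no (.con 136 [4, 1, 1, 4]) .no .no

def c21t743 : Tr4 :=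
  .br 1339 (.hor [.f 1339 1 3, .f 1211 3 1, .f 1210 1 5] [(168, 136, [1, 1]), (184, 136, [1, 1,
  1])]) .no .no (.red [.f 1067 1 3, .f 1194 3 5, .t 1338 2 4, .f 1074 3 1] 151 136 [4, 1] [(150,
  151, [4]), (151, 136, [4, 1]), (167, 136, [4, 1, 1])]) .no .no

def c21t744 : Tr4 :=
  .br 712 .no (.con 136 [3, 2, 2, 2, 3]) (.hor [.f 712 3 5] []) .no .no .no

def c21t745 : Tr4 :=
  .br 1330 (.con 136 [4, 1, 1, 4, 1]) .no .no (.red [.f 1194 3 1, .f 1202 1 3] 167 136 [4, 1, 1]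
  [(166, 136, [4, 1, 1, 4]), (167, 136, [4, 1, 1])]) (.con 136 [4, 1, 1, 4, 1]) .no

def c21t746 : Tr4 :=
  .br 1467 (.hor [.f 1466 1 5] []) .no .no (.red [.f 1331 3 1, .f 1339 1 3, .f 1211 3 1, .f 1210 1
  5, .t 1074 3 1] 151 136 [4, 1] [(151, 136, [4, 1]), (168, 136, [1, 1]), (183, 136, [1, 1, 1,
  4]), (184, 136, [1, 1, 1])]) .no .no

def c21t747 : Tr4 :=
  .br 987 (.br 1232 (.con 136 [3, 3, 1, 1, 3]) .no (.br 1112 .no (.red [.f 976 1 3, .f 1104 3 1,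
  .f 1096 1 3, .f 1096 3 5] 155 136 [3, 3, 3, 1] [(139, 136, [3, 3, 3]), (154, 136, [3, 3, 1]),
  (155, 136, [3, 3, 3, 1])]) (.br 1113 (.con 136 [3, 3, 1, 1, 3, 2]) (.con 136 [3, 3, 3, 3]) (.hor
  [.f 1112 3 5] []) .no .no .no) .no (.br 985 .no (.red [.f 849 1 3] 123 136 [2, 3, 3, 3] [(123,
  136, [2, 3, 3, 3])]) (.br 984 .no (.con 136 [2, 3, 3, 3, 3]) (.hor [.f 984 3 5] []) .no .no .no)
  .no .no (.red [.f 984 5 1, .f 976 1 3, .f 1104 3 1, .f 1096 1 3] 155 136 [3, 3, 3, 1] [(139,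
  136, [3, 3, 3]), (154, 136, [3, 3, 1]), (155, 136, [3, 3, 3, 1])])) .no) .no (.br 1352 (.con 136
  [3, 3, 1, 1, 1]) .no (.red [.t 1096 1 3, .f 1224 3 1] 170 136 [3, 3, 1, 1] [(154, 136, [3, 3,
  1]), (170, 136, [3, 3, 1, 1])]) .no .no .no) .no) (.red [.t 986 4 2, .f 849 1 5] 123 136 [2, 3,
  3, 3] [(123, 136, [2, 3, 3, 3])]) (.br 1115 (.red [.f 1107 1 3, .f 1106 3 5] 155 136 [3, 3, 3,
  1] [(155, 136, [3, 3, 3, 1])]) .no (.br 1243 (.br 1362 (.red [.f 1354 1 3, .f 1226 3 1] 170 136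
  [3, 3, 1, 1] [(170, 136, [3, 3, 1, 1]), (186, 136, [3, 3, 1, 1, 1])]) .no (.con 136 [3, 3, 1, 1,
  3, 1]) .no (.red [.t 1226 3 1, .t 1090 1 3, .f 1217 3 5] 170 136 [3, 3, 1, 1] [(153, 137, [1]),
  (170, 136, [3, 3, 1, 1])]) .no) .no (.red [.f 1115 3 1, .f 1107 1 3, .f 1106 3 5] 155 136 [3, 3,
  3, 1] [(155, 136, [3, 3, 3, 1]), (156, 136, [3, 3, 3, 1, 3])]) .no .no (.red [.t 1106 3 1, .t
  970 1 3, .f 1097 3 5] 155 136 [3, 3, 3, 1] [(138, 122, [1]), (155, 136, [3, 3, 3, 1])])) .no .no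
  .no) .no .no .no

def c21t748 : Tr4 :=
  .br 1362 (.red [.f 1354 1 3, .f 1226 3 1] 170 136 [3, 3, 1, 1] [(170, 136, [3, 3, 1, 1]), (186,
  136, [3, 3, 1, 1, 1])]) .no (.br 987 (.br 1232 (.con 136 [3, 3, 3, 1, 1]) .no (.hor [.f 1232 3
  5] []) .no .no .no) (.red [.t 986 4 2, .f 849 1 5] 123 136 [2, 3, 3, 3] [(123, 136, [2, 3, 3,
  3])]) (.br 1115 (.red [.f 1107 1 3, .f 1106 3 5] 155 136 [3, 3, 3, 1] [(155, 136, [3, 3, 3,
  1])]) .no (.br 1243 (.br 1232 (.con 136 [3, 3, 3, 1, 1]) .no (.con 136 [3, 3, 3, 1, 1, 3]) .no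
  .no .no) .no (.red [.f 1115 3 1, .f 1107 1 3, .f 1106 3 5] 156 136 [3, 3, 3, 1, 3] [(155, 136,
  [3, 3, 3, 1]), (156, 136, [3, 3, 3, 1, 3])]) .no .no (.red [.t 1106 3 1, .t 970 1 3, .f 1097 3
  5] 155 136 [3, 3, 3, 1] [(138, 122, [1]), (155, 136, [3, 3, 3, 1])])) .no .no .no) .no .no .no)
  .no (.red [.t 1226 3 1, .t 1090 1 3, .f 1217 3 5] 170 136 [3, 3, 1, 1] [(153, 137, [1]), (170,
  136, [3, 3, 1, 1])]) (.red [.t 1216 1 3, .t 1225 1 3] 170 136 [3, 3, 1, 1] [(169, 136, [3, 1,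
  1]), (170, 136, [3, 3, 1, 1])])

def c21t749 : Tr4 :=
  .br 984 (.red [.f 976 1 3, .t 976 3 2] 123 136 [2, 3, 3, 3] [(123, 136, [2, 3, 3, 3]), (139,
  136, [3, 3, 3])]) .no (.br 985 (.con 136 [3, 3, 3, 3]) .no (.hor [.f 984 3 5] []) .no .no .no)
  .no (.red [.f 856 5 1, .f 849 1 3] 123 136 [2, 3, 3, 3] [(123, 136, [2, 3, 3, 3])]) .no

def c21t750 : Tr4 :=
  .br 857 (.red [.f 849 1 3] 123 136 [2, 3, 3, 3] [(123, 136, [2, 3, 3, 3])]) (.con 136 [2, 3, 3,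
  3, 2, 3]) (.hor [.f 857 3 5] []) .no .no (.use 749)

def c21t751 : Tr4 :=
  .br 722 .no (.br 585 .no (.br 579 .no (.hor [.f 450 1 5] []) (.br 586 .no (.hor [.f 457 1 5] [])
  .no .no .no .no) .no .no .no) (.red [.t 593 4 1, .f 577 1 3] 90 136 [2, 2, 2, 3, 3] [(89, 136,
  [2, 2, 2, 3]), (90, 136, [2, 2, 2, 3, 3])]) .no (.red [.f 585 5 1, .f 586 1 3] 90 136 [2, 2, 2,
  3, 3] [(90, 136, [2, 2, 2, 3, 3])]) .no) (.br 579 .no (.hor [.f 450 1 5] []) (.br 586 .no (.red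
  [.f 450 1 3] 73 136 [2, 2, 2, 3, 2] [(73, 136, [2, 2, 2, 3, 2])]) (.br 858 .no .no (.br 720 .no
  (.red [.f 584 1 3, .f 712 3 1, .f 704 1 3] 90 136 [2, 2, 2, 3, 3] [(90, 136, [2, 2, 2, 3, 3]),
  (105, 136, [2, 2, 3]), (106, 136, [2, 2, 3, 3])]) (.use 750) .no (.br 585 .no (.con 136 [2, 2,
  2, 3, 2, 3]) (.red [.t 584 1 3] 90 136 [2, 2, 2, 3, 3] [(90, 136, [2, 2, 2, 3, 3])]) .no .no
  .no) .no) .no (.red [.f 850 5 3, .f 850 3 1] 123 136 [2, 3, 3, 3] [(123, 136, [2, 3, 3, 3])])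
  (.red [.t 977 2 3] 123 136 [2, 3, 3, 3] [(123, 136, [2, 3, 3, 3])])) .no .no (.br 720 .no (.red
  [.f 584 1 3, .f 712 3 1, .f 704 1 3] 90 136 [2, 2, 2, 3, 3] [(90, 136, [2, 2, 2, 3, 3]), (105,
  136, [2, 2, 3]), (106, 136, [2, 2, 3, 3])]) (.br 858 .no .no (.use 750) .no (.red [.f 850 5 3,
  .f 850 3 1] 123 136 [2, 3, 3, 3] [(123, 136, [2, 3, 3, 3])]) (.red [.t 977 2 3] 123 136 [2, 3,
  3, 3] [(123, 136, [2, 3, 3, 3])])) .no (.red [.f 585 5 1, .f 584 1 5, .f 712 5 3, .f 712 3 1]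
  106 136 [2, 2, 3, 3] [(106, 136, [2, 2, 3, 3])]) .no)) .no .no .no) .no (.red [.f 841 1 3, .f
  722 5 1, .f 715 1 3] 106 136 [2, 2, 3, 3] [(106, 136, [2, 2, 3, 3]), (122, 106, [1])]) (.red [.f
  841 1 3, .f 713 5 3, .t 714 3 1] 106 136 [2, 2, 3, 3] [(106, 136, [2, 2, 3, 3]), (122, 106,
  [1])])

def c21t752 : Tr4 :=
  .br 1115 (.red [.f 1107 1 3, .f 1106 3 5] 155 136 [3, 3, 3, 1] [(155, 136, [3, 3, 3, 1])]) .no
  (.br 1243 (.br 1361 (.con 136 [3, 3, 3, 1, 1, 1]) .no (.hor [.f 1361 3 5] []) .no .no (.con 136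
  [3, 3, 3, 1, 1, 1])) .no (.red [.f 1115 3 1, .f 1107 1 3, .f 1106 3 5] 155 136 [3, 3, 3, 1]
  [(155, 136, [3, 3, 3, 1]), (156, 136, [3, 3, 3, 1, 3])]) .no .no (.red [.t 1106 3 1, .t 970 1 3,
  .f 1097 3 5] 155 136 [3, 3, 3, 1] [(138, 122, [1]), (155, 136, [3, 3, 3, 1])])) .no .no .no

def c21t753 : Tr4 :=
  .br 1115 (.red [.f 1107 1 3, .f 1106 3 5] 155 136 [3, 3, 3, 1] [(155, 136, [3, 3, 3, 1])]) .no
  (.br 1233 (.red [.t 1233 1 4, .f 1226 1 5] 170 136 [3, 3, 1, 1] [(170, 136, [3, 3, 1, 1])]) .no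
  (.br 1232 (.con 136 [3, 3, 3, 1, 1]) .no (.hor [.f 1232 3 5] []) .no .no .no) .no .no (.br 1243
  (.br 1352 (.br 1362 (.br 1482 (.br 1481 (.hor [.f 1481 1 5] []) .no (.red [.f 1345 5 3, .f 1345
  3 5, .t 1489 4 2, .f 1352 1 5] 186 136 [3, 3, 1, 1, 1] [(186, 136, [3, 3, 1, 1, 1])]) (.br 1474
  (.red [.f 1474 1 3, .f 1473 3 5] 201 136 [3, 1, 1, 1, 1] [(201, 136, [3, 1, 1, 1, 1])]) .no .no
  .no .no .no) .no .no) .no .no (.red [.f 1345 5 3, .f 1346 3 1, .f 1354 1 3] 186 136 [3, 3, 1, 1,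
  1] [(185, 136, [3, 1, 1, 1]), (186, 136, [3, 3, 1, 1, 1])]) (.red [.f 1345 5 3, .t 1346 3 1, .f
  1354 1 3] 186 136 [3, 3, 1, 1, 1] [(185, 136, [3, 1, 1, 1]), (186, 136, [3, 3, 1, 1, 1])]) (.red
  [.f 1353 5 1, .f 1354 1 3, .f 1226 3 1] 170 136 [3, 3, 1, 1] [(170, 136, [3, 3, 1, 1]), (186,
  136, [3, 3, 1, 1, 1])])) .no (.br 1360 (.red [.f 1345 5 3, .f 1352 1 3] 186 136 [3, 3, 1, 1, 1]
  [(186, 136, [3, 3, 1, 1, 1])]) .no (.con 136 [3, 3, 3, 1, 1, 3]) .no (.con 136 [3, 3, 3, 1, 1,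
  1]) .no) .no (.red [.t 1226 3 1, .t 1090 1 3, .f 1217 3 5] 170 136 [3, 3, 1, 1] [(153, 137,
  [1]), (170, 136, [3, 3, 1, 1])]) (.red [.f 1353 5 3, .f 1226 3 1, .f 1226 1 5, .t 1090 1 3, .t
  954 3 1] 170 136 [3, 3, 1, 1] [(136, 136, []), (153, 137, [1]), (170, 136, [3, 3, 1, 1])])) .no
  (.red [.t 1096 1 3, .f 1224 3 1] 170 136 [3, 3, 1, 1] [(154, 136, [3, 3, 1]), (170, 136, [3, 3,
  1, 1])]) .no .no .no) .no (.red [.f 1115 3 1, .f 1107 1 3, .f 1106 3 5] 155 136 [3, 3, 3, 1]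
  [(155, 136, [3, 3, 3, 1]), (156, 136, [3, 3, 3, 1, 3])]) .no .no (.red [.t 1106 3 1, .t 970 1 3,
  .f 1097 3 5] 155 136 [3, 3, 3, 1] [(138, 122, [1]), (155, 136, [3, 3, 3, 1])]))) .no .no .no

def c21t754 : Tr4 :=
  .br 858 .no .no (.br 857 (.red [.f 849 1 3] 123 136 [2, 3, 3, 3] [(123, 136, [2, 3, 3, 3])])
  (.br 856 (.con 136 [2, 3, 3, 3, 3]) (.hor [.f 728 1 5] []) (.con 136 [2, 3, 3, 2, 3, 3]) .no .no
  .no) (.hor [.f 857 3 5] []) .no .no (.use 749)) .no (.red [.f 850 5 3, .f 850 3 1] 123 136 [2,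
  3, 3, 3] [(123, 136, [2, 3, 3, 3])]) (.red [.t 977 2 3] 123 136 [2, 3, 3, 3] [(123, 136, [2, 3,
  3, 3])])

def c21l29 : List Tr4 :=
  [c21t733, c21t734, c21t735, c21t736, c21t737, c21t738, c21t739, c21t740, c21t741, c21t742,
  c21t743, c21t744, c21t745, c21t746, c21t747, c21t748, c21t749, c21t750, c21t751, c21t752,
  c21t753, c21t754]

theorem c21k29 : chkLF ⟨4, 0, 0, true, -8⟩ false 1 c21N 733 c21l29 = true := by decide +kernel

def c21t755 : Tr4 :=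
  .br 578 .no (.br 714 .no (.br 713 .no (.hor [.f 584 1 5] []) (.con 136 [2, 2, 2, 3, 3]) .no .no
  .no) (.red [.t 714 3 1] 106 136 [2, 2, 3, 3] [(106, 136, [2, 2, 3, 3])]) .no .no (.br 1339 (.hor
  [.f 1339 1 3, .f 1211 3 1, .f 1210 1 5] [(168, 167, [3]), (184, 183, [3])]) .no .no (.br 1466
  (.use 746) .no (.hor [.t 1465 2 3, .f 1208 1 3, .f 1336 3 5] [(168, 167, [3]), (184, 167, [3,
  1])]) (.red [.f 1208 1 3, .f 1208 3 1, .t 1465 2 4, .t 1336 2 4] 167 136 [4, 1, 1] [(167, 136,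
  [4, 1, 1]), (183, 136, [4, 1, 1, 1])]) (.br 1354 (.br 1353 (.hor [.f 1353 1 5] []) .no (.use
  747) .no .no (.br 1233 (.red [.t 1216 1 3, .f 1225 1 3, .f 1225 3 5] 170 136 [3, 3, 1, 1] [(169,
  136, [3, 1, 1]), (170, 136, [3, 3, 1, 1])]) .no (.use 748) .no .no (.br 1362 (.red [.f 1354 1 3,
  .f 1226 3 1] 170 136 [3, 3, 1, 1] [(170, 136, [3, 3, 1, 1]), (186, 136, [3, 3, 1, 1, 1])]) .no
  (.br 987 (.use 751) (.red [.t 986 4 2, .f 849 1 5] 123 136 [2, 3, 3, 3] [(123, 136, [2, 3, 3,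
  3])]) (.use 752) .no .no .no) .no (.red [.t 1226 3 1, .t 1090 1 3, .f 1217 3 5] 170 136 [3, 3,
  1, 1] [(153, 137, [1]), (170, 136, [3, 3, 1, 1])]) (.red [.t 1216 1 3, .t 1225 1 3] 170 136 [3,
  3, 1, 1] [(169, 136, [3, 1, 1]), (170, 136, [3, 3, 1, 1])])))) .no (.red [.f 1226 3 1, .f 1226 1
  5] 170 136 [3, 3, 1, 1] [(170, 136, [3, 3, 1, 1])]) .no .no (.br 987 (.use 751) (.red [.t 986 4
  2, .f 849 1 5] 123 136 [2, 3, 3, 3] [(123, 136, [2, 3, 3, 3])]) (.use 753) .no .no .no)) .no)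
  .no .no)) (.br 714 .no .no (.red [.t 714 3 1] 106 136 [2, 2, 3, 3] [(106, 136, [2, 2, 3, 3])])
  .no .no (.br 1339 (.hor [.f 1339 1 3, .f 1211 3 1, .f 1210 1 5] [(168, 167, [3]), (184, 183,
  [3])]) .no .no (.br 1466 (.use 746) .no (.hor [.t 1465 2 3, .f 1208 1 3, .f 1336 3 5] [(168,
  167, [3]), (184, 167, [3, 1])]) (.red [.f 1208 1 3, .f 1208 3 1, .t 1465 2 4, .t 1336 2 4] 167
  136 [4, 1, 1] [(167, 136, [4, 1, 1]), (183, 136, [4, 1, 1, 1])]) (.br 722 .no (.red [.t 842 4 2,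
  .t 577 1 3, .f 586 1 3] 90 136 [2, 2, 2, 3, 3] [(89, 136, [2, 2, 2, 3]), (90, 136, [2, 2, 2, 3,
  3]), (105, 106, [4])]) (.br 1354 (.br 1353 (.hor [.f 1353 1 5] []) .no (.use 747) .no .no (.br
  1233 (.red [.t 1216 1 3, .f 1225 1 3, .f 1225 3 5] 170 136 [3, 3, 1, 1] [(169, 136, [3, 1, 1]),
  (170, 136, [3, 3, 1, 1])]) .no (.use 748) .no .no (.br 1362 (.red [.f 1354 1 3, .f 1226 3 1] 170
  136 [3, 3, 1, 1] [(170, 136, [3, 3, 1, 1]), (186, 136, [3, 3, 1, 1, 1])]) .no (.br 987 (.use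
  754) (.red [.t 986 4 2, .f 849 1 5] 123 136 [2, 3, 3, 3] [(123, 136, [2, 3, 3, 3])]) (.use 752)
  .no .no .no) .no (.red [.t 1226 3 1, .t 1090 1 3, .f 1217 3 5] 170 136 [3, 3, 1, 1] [(153, 137,
  [1]), (170, 136, [3, 3, 1, 1])]) (.red [.t 1216 1 3, .t 1225 1 3] 170 136 [3, 3, 1, 1] [(169,
  136, [3, 1, 1]), (170, 136, [3, 3, 1, 1])])))) .no (.red [.f 1226 3 1, .f 1226 1 5] 170 136 [3,
  3, 1, 1] [(170, 136, [3, 3, 1, 1])]) .no .no (.br 987 (.use 754) (.red [.t 986 4 2, .f 849 1 5]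
  123 136 [2, 3, 3, 3] [(123, 136, [2, 3, 3, 3])]) (.use 753) .no .no .no)) .no (.red [.f 841 1 3,
  .f 722 5 1, .f 715 1 3] 106 136 [2, 2, 3, 3] [(106, 136, [2, 2, 3, 3]), (122, 106, [1])]) (.red
  [.f 841 1 3, .f 713 5 3, .t 714 3 1] 106 136 [2, 2, 3, 3] [(106, 136, [2, 2, 3, 3]), (122, 106,
  [1])])) .no) .no .no)) (.hor [.t 570 3 1, .f 577 1 5] [(88, 106, [4, 2, 4])]) (.hor [.f 578 5 1,
  .f 577 1 5, .t 825 3 2, .f 704 1 5] [(104, 106, [4, 4])]) .no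

def c21t756 : Tr4 :=
  .br 706 .no (.hor [.f 577 1 5] []) (.br 978 .no (.red [.f 706 3 1, .f 714 1 5, .t 978 2 4, .f
  835 1 3, .t 834 2 3] 121 136 [2, 3] [(121, 136, [2, 3]), (122, 136, [2, 3, 3])]) (.br 977 .no
  (.br 699 .no (.br 707 .no (.br 578 .no (.br 713 .no (.red [.f 577 1 3] 89 136 [2, 2, 2, 3] [(89,
  136, [2, 2, 2, 3])]) (.use 744) .no .no (.red [.f 841 1 3, .f 840 3 5, .f 712 5 1, .f 704 1 3,
  .f 832 3 1, .t 968 2 3] 121 136 [2, 3] [(105, 136, [2, 2, 3]), (121, 136, [2, 3])])) (.red [.f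
  578 3 1, .f 577 1 5] 89 136 [2, 2, 2, 3] [(89, 136, [2, 2, 2, 3])]) (.hor [.f 571 1 3, .f 570 3
  5] [(88, 89, [4])]) .no .no) .no .no .no .no) (.br 713 .no (.red [.f 577 1 3] 89 136 [2, 2, 2,
  3] [(89, 136, [2, 2, 2, 3])]) (.use 744) .no .no (.red [.f 841 1 3, .f 840 3 5, .f 712 5 1, .f
  704 1 3, .f 832 3 1, .t 968 2 3] 121 136 [2, 3] [(105, 136, [2, 2, 3]), (121, 136, [2, 3])]))
  (.hor [.f 691 3 1, .f 698 1 5] [(103, 136, [2, 2, 4])]) .no .no) (.hor [.f 977 3 5] []) .no .no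
  (.hor [.f 978 3 1, .f 970 1 3, .f 970 3 5] [(138, 106, [1, 1]), (139, 106, [1, 3, 1])])) .no .no
  (.hor [.t 1097 3 2, .f 970 3 5] [(138, 106, [1, 1])])) .no (.br 978 .no (.red [.t 842 4 2, .t
  978 2 4, .f 835 1 3, .f 707 3 1] 121 136 [2, 3] [(121, 136, [2, 3]), (122, 136, [2, 3, 3])])
  (.br 1201 (.use 742) .no .no (.hor [.f 1193 3 5] []) .no (.br 699 .no (.br 977 .no (.br 1064
  (.red [.t 1064 1 3, .f 1073 1 3, .f 1073 3 5] 151 136 [4, 1] [(150, 136, [4, 4, 1]), (151, 136,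
  [4, 1])]) .no .no (.br 1337 (.br 1345 (.hor [.f 1337 1 3, .f 1208 1 3, .f 1336 3 5] [(168, 167,
  [3]), (184, 167, [3, 1])]) .no (.hor [.f 1208 1 3, .f 1208 3 1, .f 1217 3 1, .f 1216 1 5] [(169,
  136, [3, 1, 1])]) .no (.br 1104 (.hor [.f 978 3 1, .f 970 1 3, .f 970 3 5] [(138, 106, [1, 1]),
  (139, 106, [1, 1, 3])]) (.br 1192 (.br 1107 (.br 1329 (.red [.f 1329 1 3, .t 1336 2 4] 167 136
  [4, 1, 1] [(167, 136, [4, 1, 1]), (183, 136, [4, 1, 1, 1])]) .no .no (.use 745) (.br 851 .no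
  (.red [.f 715 1 3] 106 136 [2, 2, 3, 3] [(106, 136, [2, 2, 3, 3])]) (.br 850 .no (.con 136 [2,
  2, 3, 3, 3]) (.red [.f 850 3 1, .f 849 1 5] 123 136 [2, 3, 3, 3] [(123, 136, [2, 3, 3, 3])]) .no
  .no .no) .no .no (.br 712 .no (.use 755) (.red [.f 712 3 1] 106 136 [2, 2, 3, 3] [(106, 136, [2,
  2, 3, 3])]) .no (.red [.f 841 1 3, .f 840 3 5, .f 712 5 1, .f 704 1 3, .f 832 3 1, .t 968 2 3]
  121 136 [2, 3] [(105, 136, [2, 2, 3]), (121, 136, [2, 3])]) .no)) (.red [.f 1200 5 1, .f 1200 1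
  3] 167 136 [4, 1, 1] [(167, 136, [4, 1, 1])])) .no (.hor [.f 1106 3 5] []) .no .no .no) .no .no
  (.red [.f 1056 3 1, .t 1064 1 3, .f 1073 1 3] 151 136 [4, 1] [(149, 136, [4, 4, 1, 4]), (150,
  136, [4, 4, 1]), (151, 136, [4, 1])]) (.red [.f 1192 5 3, .f 1065 3 1, .f 1073 1 3] 151 136 [4,
  1] [(150, 136, [4, 4, 1]), (151, 136, [4, 1])]) .no) (.hor [.f 978 3 1, .f 970 1 3, .f 970 3 5]
  [(138, 106, [1, 1]), (139, 106, [1, 1, 3])]) .no .no .no) .no) .no (.hor [.f 1208 1 3, .f 1336 3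
  5] [(168, 167, [3])]) (.red [.t 1336 2 4] 167 136 [4, 1, 1] [(167, 136, [4, 1, 1])]) .no .no)
  .no .no) (.hor [.f 977 3 5] []) .no .no (.hor [.f 978 3 1, .f 970 1 3, .f 970 3 5] [(138, 106,
  [1, 1]), (139, 106, [1, 3, 1])])) .no (.hor [.f 691 3 1, .f 698 1 5] [(103, 136, [2, 2, 4])])
  .no .no)) .no .no (.hor [.t 1097 3 2, .f 970 3 5] [(138, 106, [1, 1])])) .no

def c21t757 : Tr4 :=
  .br 937 .no .no .no (.hor [.f 929 3 5] []) .no (.red [.t 1072 2 4, .f 1072 5 1, .f 1073 1 3] 151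
  136 [4, 1] [(134, 150, [2]), (151, 136, [4, 1])])

def c21t758 : Tr4 :=
  .br 1201 (.use 742) .no .no (.hor [.f 1193 3 5] []) .no (.use 757)

def c21t759 : Tr4 :=
  .br 576 .no (.hor [.f 448 1 5] []) .no .no .no .no

def c21t760 : Tr4 :=
  .br 683 .no (.con 136 [2, 4, 2, 2, 4, 2]) .no (.hor [.f 674 3 5] []) .no .no

def c21t761 : Tr4 :=
  .br 1322 (.hor [.f 1321 1 5] []) .no .no (.con 136 [4, 1, 4, 1, 4, 1]) .no .no

def c21t762 : Tr4 :=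
  .br 1193 (.hor [.f 1192 1 5] []) .no .no (.br 1195 (.br 1321 (.use 761) .no .no (.red [.f 1185 3
  1, .f 1192 1 5] 165 136 [4, 1, 4, 4, 1] [(165, 136, [4, 1, 4, 4, 1])]) (.hor [.f 1321 5 3, .f
  1194 3 1, .f 1194 1 5, .t 1320 2 3, .f 1201 1 5] []) .no) .no .no (.con 136 [4, 1, 4, 4, 1]) .no
  .no) .no .no

def c21t763 : Tr4 :=
  .br 1192 (.br 1329 (.red [.f 1329 1 3, .t 1336 2 4] 167 136 [4, 1, 1] [(167, 136, [4, 1, 1]),
  (183, 136, [4, 1, 1, 1])]) .no .no (.use 745) (.use 762) (.red [.f 1200 5 1, .f 1200 1 3] 167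
  136 [4, 1, 1] [(167, 136, [4, 1, 1])])) .no .no (.red [.f 1056 3 1, .t 1064 1 3, .f 1073 1 3]
  151 136 [4, 1] [(149, 136, [4, 4, 1, 4]), (150, 136, [4, 4, 1]), (151, 136, [4, 1])]) (.red [.f
  1192 5 3, .f 1065 3 1, .f 1073 1 3] 151 136 [4, 1] [(150, 136, [4, 4, 1]), (151, 136, [4, 1])])
  .no

def c21t764 : Tr4 :=
  .br 1337 (.use 763) .no (.hor [.f 1208 1 3, .f 1336 3 5] [(168, 167, [3])]) (.red [.t 1336 2 4]
  167 136 [4, 1, 1] [(167, 136, [4, 1, 1])]) .no .no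

def c21t765 : Tr4 :=
  .br 1067 (.br 1337 (.use 743) .no (.hor [.f 1208 1 3, .f 1336 3 5] [(168, 167, [3])]) (.red [.t
  1336 2 4] 167 136 [4, 1, 1] [(167, 136, [4, 1, 1])]) .no .no) .no .no (.use 764) .no .no

def c21t766 : Tr4 :=
  .br 1064 (.red [.t 1064 1 3, .f 1073 1 3, .f 1073 3 5] 151 136 [4, 1] [(150, 136, [4, 4, 1]),
  (151, 136, [4, 1])]) (.hor [.f 936 1 3, .f 1064 3 5] [(134, 136, [4, 4])]) .no (.br 817 .no (.br
  697 .no (.br 696 .no (.hor [.f 568 1 5] []) .no (.br 936 .no (.con 136 [2, 2, 4, 4, 1, 3, 2, 4])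
  .no (.br 937 .no (.br 938 (.use 765) (.hor [.f 928 3 1, .f 936 1 3, .f 1064 3 5] [(133, 136, [4,
  4, 4]), (134, 136, [4, 4])]) .no (.hor [.f 928 3 1, .f 936 1 3, .f 1064 3 5] [(133, 117, [1]),
  (134, 117, [3, 1])]) .no .no) .no (.hor [.f 928 3 5] []) (.hor [.f 928 3 1, .f 936 1 3, .f 1064
  3 5] [(133, 136, [4, 4, 4]), (134, 136, [4, 4])]) .no) (.red [.t 1072 2 4, .f 1072 5 1, .f 1073
  1 3] 151 136 [4, 1] [(134, 118, [1]), (151, 136, [4, 1])]) .no) .no .no) .no .no .no (.hor [.t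
  832 2 4, .f 697 1 5] [(104, 136, [2, 2])])) .no (.br 938 (.use 765) (.hor [.f 810 1 3, .f 809 3
  5] [(118, 136, [2, 4, 4])]) .no (.use 757) .no (.hor [.t 817 4 1, .f 938 3 5] [(118, 136, [2, 4,
  4])])) .no (.hor [.t 952 2 4, .f 817 1 5] [(119, 136, [2, 4])])) .no .no

def c21t767 : Tr4 :=
  .br 1345 (.br 1337 (.hor [.f 1337 1 3, .f 1208 1 3, .f 1336 3 5] [(168, 167, [3]), (184, 167,
  [3, 1])]) .no .no (.red [.t 1336 2 4] 167 136 [4, 1, 1] [(167, 136, [4, 1, 1])]) .no .no) .no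
  (.hor [.f 1208 1 3, .f 1208 3 1, .f 1217 3 1, .f 1216 1 5] [(169, 136, [3, 1, 1])]) (.hor [.f
  1208 1 3, .f 1336 3 5] [(168, 167, [3])]) (.hor [.f 1208 1 3, .f 1208 3 1, .t 1225 4 1, .f 1216
  1 5] [(169, 136, [3, 1, 1])]) .no

def c21t768 : Tr4 :=
  .br 1226 (.use 767) .no (.hor [.f 1226 3 5] []) .no .no .no

def c21t769 : Tr4 :=
  .br 1202 (.red [.f 1202 1 3, .f 1074 3 1] 151 136 [4, 1] [(151, 136, [4, 1]), (167, 136, [4, 1,
  1])]) .no .no (.br 705 .no (.br 697 .no (.red [.f 569 1 3, .f 697 3 1, .f 704 1 5, .t 968 4 2]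
  121 136 [2, 3] [(88, 121, [2, 4, 2]), (104, 103, [3]), (121, 136, [2, 3])]) .no (.br 817 .no .no
  .no (.br 840 .no (.red [.f 704 1 3, .f 832 3 1, .f 824 1 3, .f 824 3 5] 121 136 [2, 3] [(105,
  136, [2, 2, 3]), (120, 136, [2]), (121, 136, [2, 3])]) (.br 1227 (.br 938 (.br 937 .no .no .no
  (.br 843 .no (.br 1347 (.br 1226 (.hor [.f 1226 1 5] []) .no (.br 1106 .no (.hor [.f 970 1 3, .f
  970 3 5] [(138, 106, [1, 1])]) (.br 936 (.hor [.f 936 1 3, .f 1064 3 5] [(134, 133, [3])]) (.use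
  756) .no (.hor [.f 928 3 5] []) .no .no) .no (.hor [.t 970 1 3, .f 1097 3 5] [(138, 106, [1,
  1])]) .no) .no .no .no) .no .no (.hor [.f 1211 3 1, .f 1210 1 5] [(168, 167, [3])]) .no (.red
  [.t 1210 1 3, .t 1074 3 1, .t 938 1 3, .f 1065 3 5] 151 136 [4, 1] [(134, 118, [1]), (151, 136,
  [4, 1]), (168, 167, [3])])) (.red [.f 843 3 1, .f 835 1 3, .f 834 3 5] 121 136 [2, 3] [(121,
  136, [2, 3]), (122, 136, [2, 3, 3])]) .no .no .no) .no (.hor [.t 1072 2 4, .f 937 1 5] [(134,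
  136, [4, 4])])) (.hor [.f 810 1 3, .f 809 3 5] [(118, 136, [2, 4, 4])]) .no (.use 758) .no (.hor
  [.t 817 4 1, .f 938 3 5] [(118, 136, [2, 4, 4])])) .no (.br 938 (.br 1226 (.br 1345 (.br 1346
  (.hor [.f 1345 1 5] []) .no .no .no (.red [.t 1210 1 3, .t 1074 3 1, .t 938 1 3, .f 1065 3 5]
  151 136 [4, 1] [(134, 118, [1]), (151, 136, [4, 1]), (168, 167, [3])]) .no) .no (.hor [.f 1208 1
  3, .f 1208 3 1, .f 1217 3 1, .f 1216 1 5] [(169, 136, [3, 1, 1])]) (.hor [.f 1208 1 3, .f 1336 3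
  5] [(168, 167, [3])]) (.hor [.f 1208 1 3, .f 1208 3 1, .t 1225 4 1, .f 1216 1 5] [(169, 136, [3,
  1, 1])]) .no) .no (.hor [.f 1226 3 5] []) .no .no .no) (.hor [.f 810 1 3, .f 809 3 5] [(118,
  136, [2, 4, 4])]) .no (.use 758) .no (.hor [.t 817 4 1, .f 938 3 5] [(118, 136, [2, 4, 4])]))
  .no .no (.red [.t 1090 1 3, .t 954 3 1, .t 818 1 3, .f 945 3 5] 136 136 [] [(119, 103, [1]),
  (136, 136, []), (153, 121, [1, 1])])) .no .no .no) .no (.hor [.t 952 2 4, .f 817 1 5] [(119,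
  121, [4, 4])])) .no (.hor [.t 832 2 4, .f 697 1 5] [(104, 121, [2, 4])])) (.br 1201 (.use 742)
  .no .no (.hor [.f 1193 3 5] []) .no (.br 1227 (.br 1347 (.use 766) .no .no (.hor [.f 1211 3 1,
  .f 1210 1 5] [(168, 167, [3])]) .no (.red [.t 1210 1 3, .t 1074 3 1, .f 1081 1 5] 151 136 [4, 1]
  [(151, 136, [4, 1]), (168, 167, [3])])) .no (.br 1347 (.use 766) .no (.use 768) (.hor [.f 1211 3
  1, .f 1210 1 5] [(168, 167, [3])]) .no (.red [.t 1210 1 3, .t 1074 3 1, .f 1081 1 5] 151 136 [4,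
  1] [(151, 136, [4, 1]), (168, 167, [3])])) .no .no (.red [.t 1090 1 3, .t 954 3 1, .t 818 1 3,
  .f 945 3 5] 136 136 [] [(119, 103, [1]), (136, 136, []), (153, 121, [1, 1])]))) (.hor [.f 697 3
  1, .f 697 1 5] [(104, 121, [2, 4])]) (.hor [.t 825 3 2, .f 704 1 5] [(104, 121, [2, 4])]) .no)
  .no (.red [.t 1081 1 4, .f 1074 1 5] 151 136 [4, 1] [(151, 136, [4, 1])])

def c21t770 : Tr4 :=
  .br 1202 (.red [.f 1202 1 3, .f 1074 3 1] 151 136 [4, 1] [(151, 136, [4, 1]), (167, 136, [4, 1,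
  1])]) .no .no .no (.red [.t 1066 1 3] 150 136 [4, 4, 1] [(150, 136, [4, 4, 1])]) .no

def c21t771 : Tr4 :=
  .br 1066 (.use 770) .no .no (.use 603) .no .no

def c21t772 : Tr4 :=
  .br 1201 (.use 771) .no .no (.red [.f 1065 3 1, .f 1073 1 3] 151 136 [4, 1] [(150, 136, [4, 4,
  1]), (151, 136, [4, 1])]) (.red [.t 1081 1 4] 151 136 [4, 1] [(151, 136, [4, 1])]) (.use 757)

def c21t773 : Tr4 :=
  .br 938 (.hor [.f 939 3 1, .f 938 1 5] [(134, 150, [2])]) (.hor [.f 810 1 3, .f 809 3 5] [(118,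
  136, [2, 4, 4])]) .no (.use 772) .no (.hor [.t 817 4 1, .f 938 3 5] [(118, 136, [2, 4, 4])])

def c21t774 : Tr4 :=
  .br 697 .no (.red [.f 569 1 3, .f 697 3 1, .f 704 1 5, .t 968 4 2] 121 136 [2, 3] [(88, 121, [4,
  2, 2]), (104, 105, [4]), (121, 136, [2, 3])]) .no (.br 817 .no .no .no (.use 773) .no (.hor [.t
  952 2 4, .f 817 1 5] [(119, 121, [4, 4])])) .no (.hor [.t 832 2 4, .f 697 1 5] [(104, 121, [4,
  2])])

def c21t775 : Tr4 :=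
  .br 1201 (.use 771) .no .no (.red [.f 1065 3 1, .f 1073 1 3] 151 136 [4, 1] [(150, 136, [4, 4,
  1]), (151, 136, [4, 1])]) (.red [.t 1081 1 4] 151 136 [4, 1] [(151, 136, [4, 1])]) (.br 1066
  (.br 1202 (.red [.f 1202 1 3, .f 1074 3 1] 151 136 [4, 1] [(151, 136, [4, 1]), (167, 136, [4, 1,
  1])]) .no .no .no (.red [.t 1066 1 3] 150 136 [4, 4, 1] [(150, 136, [4, 4, 1])]) .no) .no .no
  (.use 603) .no .no)

def c21t776 : Tr4 :=
  .br 1203 (.con 136 [4, 1, 4, 1]) .no .no (.hor [.f 1194 3 5] []) .no .no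

def c21t777 : Tr4 :=
  .br 1201 (.use 742) .no .no (.hor [.f 1193 3 5] []) .no (.use 776)

def c21t778 : Tr4 :=
  .br 1345 (.br 1339 (.hor [.f 1339 1 3, .f 1211 3 1, .f 1210 1 5] [(168, 167, [3]), (184, 167,
  [3, 1])]) .no .no (.red [.t 1338 2 4, .f 1074 3 1, .f 1081 1 5] 151 136 [4, 1] [(151, 136, [4,
  1]), (167, 136, [4, 1, 1])]) .no .no) .no (.hor [.f 1208 1 3, .f 1208 3 1, .f 1217 3 1, .f 1216
  1 5] [(169, 136, [1, 3, 1])]) (.hor [.f 1208 1 3, .f 1336 3 5] [(168, 167, [3])]) (.br 1339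
  (.hor [.f 1339 1 3, .f 1211 3 1, .f 1210 1 5] [(168, 167, [3]), (184, 167, [3, 1])]) .no .no
  (.red [.t 1338 2 4, .f 1074 3 1, .f 1081 1 5] 151 136 [4, 1] [(151, 136, [4, 1]), (167, 136, [4,
  1, 1])]) .no .no) .no

def c21t779 : Tr4 :=
  .br 1347 (.use 778) .no .no (.hor [.f 1211 3 1, .f 1210 1 5] [(168, 167, [3])]) .no (.red [.t
  1210 1 3, .f 1202 5 3, .f 1074 3 1, .f 1082 1 3] 151 136 [4, 1] [(151, 136, [4, 1]), (152, 136,
  [1]), (168, 167, [3])])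

def c21t780 : Tr4 :=
  .br 1200 (.hor [.f 1200 1 5] []) .no .no (.con 136 [1, 4, 4, 1]) .no .no

def c21t781 : Tr4 :=
  .br 1347 (.use 778) .no (.br 1201 (.use 780) .no .no (.red [.f 1065 3 1, .f 1073 1 3] 151 136
  [4, 1] [(150, 136, [4, 1, 4]), (151, 136, [4, 1])]) .no (.use 768)) (.hor [.f 1211 3 1, .f 1210
  1 5] [(168, 167, [3])]) .no (.red [.t 1210 1 3, .f 1202 5 3, .f 1074 3 1, .f 1082 1 3] 151 136
  [4, 1] [(151, 136, [4, 1]), (152, 136, [1]), (168, 167, [3])])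

def c21t782 : Tr4 :=
  .br 1203 (.con 136 [4, 1, 4, 1]) .no .no (.hor [.f 1194 3 5] []) .no .no

def c21t783 : Tr4 :=
  .br 691 .no (.hor [.f 562 1 5] []) .no (.con 136 [2, 4, 2, 2, 4]) .no .no

def c21t784 : Tr4 :=
  .br 811 .no (.hor [.f 682 1 5] []) .no (.con 136 [4, 2, 4, 2, 4]) .no .no

def c21t785 : Tr4 :=
  .br 1195 (.hor [.f 1194 1 5] []) .no .no (.con 136 [4, 1, 4, 1, 4]) .no .no

def c21t786 : Tr4 :=
  .br 1193 (.hor [.f 1193 1 5] []) .no .no (.use 785) .no .no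

def c21l30 : List Tr4 :=
  [c21t755, c21t756, c21t757, c21t758, c21t759, c21t760, c21t761, c21t762, c21t763, c21t764,
  c21t765, c21t766, c21t767, c21t768, c21t769, c21t770, c21t771, c21t772, c21t773, c21t774,
  c21t775, c21t776, c21t777, c21t778, c21t779, c21t780, c21t781, c21t782, c21t783, c21t784,
  c21t785, c21t786]

theorem c21k30 : chkLF ⟨4, 0, 0, true, -8⟩ false 1 c21N 755 c21l30 = true := by decide +kernel

def c21t787 : Tr4 :=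
  .br 811 .no (.red [.t 826 2 4, .f 683 1 3] 102 136 [2, 2, 4, 4] [(102, 136, [2, 2, 4, 4]), (103,
  136, [2, 2, 4])]) .no (.br 1057 (.red [.t 1057 1 3, .t 1066 1 3] 150 136 [4, 4, 1] [(149, 136,
  [4, 4, 4, 1]), (150, 136, [4, 4, 1])]) (.hor [.t 1057 2 3, .f 928 3 5] [(133, 101, [1, 1])]) .no
  (.br 1331 (.hor [.f 1330 1 5] []) .no .no (.br 1056 (.br 1185 (.br 1322 (.red [.f 1322 1 3, .t
  1329 2 4] 166 136 [4, 4, 1, 1] [(166, 136, [4, 4, 1, 1]), (182, 136, [4, 4, 1, 1, 1])]) .no .no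
  (.con 136 [4, 4, 1, 1, 4, 4]) .no (.red [.f 1193 5 1, .f 1193 1 3] 166 136 [4, 4, 1, 1] [(166,
  136, [4, 4, 1, 1])])) .no .no (.hor [.f 1056 1 3, .f 1049 3 1, .f 1056 3 1, .f 1056 1 5] [(148,
  136, [4, 4, 4, 4, 1])]) (.red [.f 1185 5 3, .f 1058 3 1, .t 1066 1 3] 150 136 [4, 4, 1] [(149,
  136, [4, 4, 4, 1]), (150, 136, [4, 4, 1])]) .no) .no .no (.hor [.f 1048 3 5] []) .no .no) .no
  .no) .no (.br 681 .no (.br 682 .no (.hor [.f 553 1 5] []) .no (.br 683 .no (.con 136 [2, 2, 4,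
  2, 4, 4]) .no (.hor [.f 674 3 5] []) .no .no) (.red [.f 682 5 3, .t 689 1 4] 102 136 [2, 2, 4,
  4] [(102, 136, [2, 2, 4, 4])]) .no) .no (.br 801 (.red [.f 809 5 1, .f 801 1 3, .f 673 3 1] 101
  136 [2, 2, 4, 4, 4] [(101, 136, [2, 2, 4, 4, 4]), (117, 136, [2, 4, 4, 4])]) .no .no (.br 802
  (.br 929 .no .no .no (.red [.f 793 3 1, .f 801 1 5] 116 136 [2, 4, 4, 4, 4] [(116, 136, [2, 4,
  4, 4, 4])]) .no .no) (.red [.t 673 3 1, .f 681 1 3] 102 136 [2, 2, 4, 4] [(101, 136, [2, 2, 4,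
  4, 4]), (102, 136, [2, 2, 4, 4])]) .no (.hor [.f 793 3 5] []) .no .no) (.red [.f 801 5 3, .f 673
  3 1, .f 681 1 3] 102 136 [2, 2, 4, 4] [(101, 136, [2, 2, 4, 4, 4]), (102, 136, [2, 2, 4, 4])])
  (.red [.f 809 5 1, .t 936 4 2, .f 673 3 1] 101 136 [2, 2, 4, 4, 4] [(101, 136, [2, 2, 4, 4, 4]),
  (117, 136, [2, 4, 4, 4])])) (.red [.f 681 5 1, .f 681 1 3, .f 808 3 5, .t 952 2 4, .f 817 1 5]
  102 136 [2, 2, 4, 4] [(102, 136, [2, 2, 4, 4]), (119, 87, [1, 1])]) (.red [.t 816 4 2] 102 136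
  [2, 2, 4, 4] [(102, 136, [2, 2, 4, 4])]))) .no .no

def c21t788 : Tr4 :=
  .br 568 .no (.br 712 .no (.br 577 .no (.use 759) (.hor [.f 577 3 1, .f 577 1 5] [(89, 87, [3,
  3])]) .no .no (.hor [.t 712 2 4, .f 577 1 5] [(89, 87, [3, 3])])) (.red [.f 712 3 1] 106 136 [2,
  2, 3, 3] [(106, 136, [2, 2, 3, 3])]) .no .no .no) (.br 1064 (.br 1194 (.use 786) .no .no (.red
  [.f 1058 3 1, .t 1066 1 3] 150 136 [4, 4, 1] [(149, 136, [4, 4, 4, 1]), (150, 136, [4, 4, 1])])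
  (.red [.f 1194 5 3, .f 1067 3 1] 150 136 [4, 4, 1] [(150, 136, [4, 4, 1])]) (.br 809 .no (.red
  [.f 681 1 3] 102 136 [2, 2, 4, 4] [(102, 136, [2, 2, 4, 4])]) .no (.br 571 .no (.br 810 .no (.br
  570 .no (.hor [.f 442 1 5] []) .no (.br 691 .no (.con 136 [2, 2, 4, 4, 2, 3]) .no (.con 136 [2,
  2, 4, 4, 2]) .no (.red [.t 826 2 4, .f 562 3 1, .f 569 1 5] 87 136 [2, 2, 2, 4] [(87, 136, [2,
  2, 2, 4]), (103, 136, [2, 2, 4])])) .no .no) .no (.hor [.f 801 3 5] []) (.br 690 .no (.use 783)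
  .no (.red [.t 946 2 4, .f 682 3 1, .f 689 1 5] 102 136 [2, 2, 4, 4] [(102, 136, [2, 2, 4, 4]),
  (118, 136, [2, 4, 4])]) (.br 570 .no (.hor [.f 442 1 5] []) .no (.red [.t 826 2 4, .f 562 3 1,
  .f 569 1 5] 87 136 [2, 2, 2, 4] [(87, 136, [2, 2, 2, 4]), (103, 136, [2, 2, 4])]) .no .no) .no)
  .no) (.hor [.f 571 3 1, .f 578 1 5] [(88, 136, [2, 2, 2])]) (.br 570 .no (.con 136 [2, 2, 2, 2,
  4]) .no (.hor [.f 562 3 5] []) .no .no) .no (.br 810 .no (.use 784) .no (.hor [.f 801 3 5] [])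
  (.br 690 .no (.use 783) .no (.red [.t 946 2 4, .f 682 3 1, .f 689 1 5] 102 136 [2, 2, 4, 4]
  [(102, 136, [2, 2, 4, 4]), (118, 136, [2, 4, 4])]) (.br 681 .no (.br 561 .no (.br 682 .no (.hor
  [.f 553 1 5] []) .no (.br 562 .no (.hor [.f 433 1 5] []) .no (.use 760) (.red [.t 706 2 4, .f
  562 5 1, .f 563 1 3] 87 136 [2, 2, 2, 4] [(87, 136, [2, 2, 2, 4]), (88, 136, [2, 2, 2])]) .no)
  (.red [.t 826 2 4, .f 682 5 1, .f 683 1 3] 102 136 [2, 2, 4, 4] [(102, 136, [2, 2, 4, 4]), (103,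
  136, [2, 2, 4])]) .no) .no .no (.red [.t 706 2 4, .t 826 2 4, .t 697 2 4] 87 136 [2, 2, 2, 4]
  [(87, 136, [2, 2, 2, 4]), (88, 136, [2, 2, 2]), (103, 136, [2, 2, 4])]) (.red [.t 696 4 2] 87
  136 [2, 2, 2, 4] [(87, 136, [2, 2, 2, 4])])) .no (.red [.f 673 3 1, .f 681 1 3] 102 136 [2, 2,
  4, 4] [(101, 136, [2, 2, 4, 4, 4]), (102, 136, [2, 2, 4, 4])]) (.red [.t 826 2 4, .t 946 2 4, .t
  817 2 4] 102 136 [2, 2, 4, 4] [(102, 136, [2, 2, 4, 4]), (103, 136, [2, 2, 4]), (118, 136, [2,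
  4, 4])]) (.red [.t 816 4 2] 102 136 [2, 2, 4, 4] [(102, 136, [2, 2, 4, 4])])) .no) .no)) (.br
  690 .no (.use 783) .no (.red [.t 689 1 4, .f 808 3 5] 102 136 [2, 2, 4, 4] [(102, 136, [2, 2, 4,
  4])]) (.br 1330 (.use 787) .no .no (.red [.t 1329 2 4] 166 136 [4, 4, 1, 1] [(166, 136, [4, 4,
  1, 1])]) (.red [.f 1202 5 1, .f 1201 1 5, .t 1081 1 4] 151 136 [4, 1] [(151, 136, [4, 1])]) .no)
  .no) .no)) .no .no (.hor [.f 928 3 1, .f 936 1 3, .f 1064 3 5] [(133, 149, [2]), (134, 150,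
  [2])]) .no .no) (.red [.f 560 3 1, .f 568 1 5] 87 136 [2, 2, 2, 4] [(87, 136, [2, 2, 2, 4])])
  .no .no

def c21t789 : Tr4 :=
  .br 808 .no (.con 136 [2, 2, 4, 4, 1, 1, 1]) (.use 788) (.con 136 [2, 2, 4, 4, 1, 1, 1]) (.con
  136 [2, 2, 4, 4, 1, 1, 1]) .no

def c21t790 : Tr4 :=
  .br 1208 (.br 1227 (.br 1202 (.red [.f 1202 1 3, .f 1074 3 1] 151 136 [4, 1] [(151, 136, [4,
  1]), (167, 136, [4, 1, 1])]) .no .no (.use 777) (.use 779) (.red [.t 1081 1 4] 151 136 [4, 1]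
  [(151, 136, [4, 1])])) .no (.br 1202 (.red [.f 1202 1 3, .f 1074 3 1] 151 136 [4, 1] [(151, 136,
  [4, 1]), (167, 136, [4, 1, 1])]) .no .no (.use 777) (.use 781) (.red [.t 1081 1 4] 151 136 [4,
  1] [(151, 136, [4, 1])])) .no .no (.red [.t 1090 1 3, .t 954 3 1, .t 818 1 3, .f 945 3 5] 136
  136 [] [(119, 103, [1]), (136, 136, []), (153, 121, [1, 1])])) .no .no (.br 938 (.hor [.f 939 3
  1, .f 938 1 5] [(134, 150, [2])]) (.hor [.f 810 1 3, .f 938 3 5] [(118, 136, [2, 4, 4])]) .no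
  (.use 775) .no (.br 1201 (.br 1227 (.br 696 .no (.hor [.f 568 1 5] []) .no (.br 936 (.red [.f
  936 1 3, .f 1064 3 5, .t 1208 4 2, .f 945 3 1] 151 136 [4, 1] [(134, 150, [2]), (135, 136, [4]),
  (151, 136, [4, 1])]) (.con 136 [2, 2, 4, 4, 1, 1, 1]) .no (.br 1066 (.use 770) .no .no (.br 707
  .no (.hor [.f 578 1 5] []) .no (.br 1202 (.red [.f 1202 1 3, .f 1074 3 1] 151 136 [4, 1] [(151,
  136, [4, 1]), (167, 136, [4, 1, 1])]) .no .no (.use 782) (.br 1347 (.br 1339 (.use 789) .no .no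
  (.red [.t 1338 2 4, .f 1074 3 1, .f 1081 1 5] 151 136 [4, 1] [(151, 136, [4, 1]), (167, 136, [4,
  1, 1])]) .no .no) .no .no (.hor [.f 1211 3 1, .f 1210 1 5] [(168, 136, [1, 1])]) .no (.red [.t
  1210 1 3, .f 1202 5 3, .f 1074 3 1, .f 1082 1 3] 151 136 [4, 1] [(151, 136, [4, 1]), (152, 136,
  [1]), (168, 136, [1, 1])])) .no) .no .no) .no .no) .no .no) .no .no) .no (.br 1202 (.red [.f
  1202 1 3, .f 1074 3 1] 151 136 [4, 1] [(151, 136, [4, 1]), (167, 136, [4, 1, 1])]) .no .no (.use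
  782) (.br 1066 (.use 770) .no .no (.br 1226 (.br 1346 (.br 1347 (.hor [.f 1346 1 5] []) .no (.br
  696 .no (.hor [.f 568 1 5] []) .no (.br 936 (.red [.f 936 1 3, .f 1064 3 5, .t 1208 4 2, .f 945
  3 1] 151 136 [4, 1] [(134, 150, [2]), (135, 136, [4]), (151, 136, [4, 1])]) (.con 136 [2, 2, 4,
  4, 1, 1, 1]) .no (.br 707 .no (.hor [.f 578 1 5] []) .no (.br 1339 (.use 789) .no .no (.red [.t
  1338 2 4, .f 1074 3 1, .f 1081 1 5] 151 136 [4, 1] [(151, 136, [4, 1]), (167, 136, [4, 1, 1])])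
  .no .no) .no .no) .no .no) .no .no) (.hor [.f 1211 3 1, .f 1210 1 5] [(168, 136, [1, 1])]) .no
  .no) .no .no .no (.red [.t 1210 1 3, .f 1202 5 3, .f 1074 3 1, .f 1082 1 3] 151 136 [4, 1]
  [(151, 136, [4, 1]), (152, 136, [1]), (168, 136, [1, 1])]) (.hor [.t 1225 4 1, .f 1216 1 5]
  [(169, 136, [3, 1, 1])])) .no (.hor [.f 1226 3 5] []) .no .no .no) .no .no) .no) .no .no (.red
  [.t 1090 1 3, .t 954 3 1, .t 818 1 3, .f 945 3 5] 136 136 [] [(119, 103, [1]), (136, 136, []),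
  (153, 121, [1, 1])])) .no .no (.red [.f 1065 3 1, .f 1073 1 3] 151 136 [4, 1] [(150, 136, [4, 4,
  1]), (151, 136, [4, 1])]) (.red [.t 1081 1 4, .f 1200 3 5] 151 136 [4, 1] [(151, 136, [4, 1])])
  .no)) .no .no

def c21t791 : Tr4 :=
  .br 1193 (.hor [.f 1192 1 5] []) .no .no (.con 136 [4, 1, 4, 4, 1]) .no .no

def c21t792 : Tr4 :=
  .br 1192 (.use 791) .no .no (.red [.f 1056 3 1, .t 1064 1 3, .f 1073 1 3] 151 136 [4, 1] [(149,
  136, [4, 4, 1, 4]), (150, 136, [4, 4, 1]), (151, 136, [4, 1])]) (.red [.f 1192 5 3, .f 1065 3 1,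
  .f 1073 1 3] 151 136 [4, 1] [(150, 136, [4, 4, 1]), (151, 136, [4, 1])]) .no

def c21t793 : Tr4 :=
  .br 1337 (.use 763) .no .no (.red [.t 1336 2 4] 167 136 [4, 1, 1] [(167, 136, [4, 1, 1])]) .no
  .no

def c21t794 : Tr4 :=
  .br 1067 (.use 792) .no .no (.use 793) .no .no

def c21t795 : Tr4 :=
  .br 938 (.br 1201 (.use 742) .no .no (.hor [.f 1193 3 5] []) .no (.br 1064 (.red [.t 1064 1 3,
  .f 1073 1 3, .f 1073 3 5] 151 136 [4, 1] [(150, 136, [4, 4, 1]), (151, 136, [4, 1])]) (.hor [.f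
  936 1 3, .f 1064 3 5] [(134, 133, [3])]) .no (.br 1217 (.use 794) .no .no .no .no .no) .no .no))
  (.hor [.f 810 1 3, .f 809 3 5] [(118, 136, [2, 4, 4])]) .no (.use 758) .no (.hor [.t 817 4 1, .f
  938 3 5] [(118, 136, [2, 4, 4])])

def c21t796 : Tr4 :=
  .br 1208 (.use 795) .no .no (.dom 151 136 [4, 1]) .no .no

def c21t797 : Tr4 :=
  .br 1339 (.hor [.f 1339 1 3, .f 1211 3 1, .f 1210 1 5] [(168, 167, [3]), (184, 167, [3, 1])])
  .no .no (.red [.t 1202 4 2, .t 1338 2 4, .f 1074 3 1] 151 136 [4, 1] [(150, 151, [4]), (151,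
  136, [4, 1]), (167, 136, [4, 1, 1])]) .no .no

def c21t798 : Tr4 :=
  .br 696 .no (.hor [.f 568 1 5] []) .no (.con 136 [2, 4, 2, 4, 1, 3, 2, 4]) .no .no

def c21t799 : Tr4 :=
  .br 936 .no (.use 798) .no (.hor [.f 928 3 1, .f 936 1 3, .f 1064 3 5] [(133, 136, [4, 4, 4]),
  (134, 136, [4, 4])]) (.red [.t 1072 2 4, .f 1072 5 1, .f 1073 1 3] 151 136 [4, 1] [(134, 118,
  [1]), (151, 136, [4, 1])]) .no

def c21t800 : Tr4 :=
  .br 1064 (.red [.t 1064 1 3, .f 1073 1 3, .f 1073 3 5] 151 136 [4, 1] [(150, 136, [4, 4, 1]),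
  (151, 136, [4, 1])]) (.hor [.f 936 1 3, .f 1064 3 5] [(134, 136, [4, 4])]) .no (.br 1217 (.br
  1067 (.use 792) .no .no (.use 793) .no (.use 799)) .no .no .no .no .no) .no .no

def c21t801 : Tr4 :=
  .br 1201 (.use 782) .no .no (.hor [.f 1193 3 5] []) .no (.use 776)

def c21t802 : Tr4 :=
  .br 1201 (.br 1208 (.use 780) .no .no (.br 1194 (.use 786) .no .no (.red [.f 1058 3 1, .t 1066 1
  3] 150 136 [4, 4, 1] [(149, 136, [4, 4, 4, 1]), (150, 136, [4, 4, 1])]) (.red [.f 1194 5 3, .f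
  1067 3 1] 150 136 [4, 4, 1] [(150, 136, [4, 4, 1])]) (.br 808 .no (.con 136 [2, 2, 4, 4, 1, 1,
  1]) (.br 1330 (.br 691 .no (.red [.f 563 1 3] 87 136 [2, 2, 2, 4] [(87, 136, [2, 2, 2, 4])]) .no
  (.br 690 .no (.con 136 [2, 2, 2, 4, 4]) .no (.hor [.f 682 3 5] []) .no .no) .no (.br 809 .no
  (.red [.f 681 1 3] 102 136 [2, 2, 4, 4] [(102, 136, [2, 2, 4, 4])]) .no (.br 810 .no (.use 784)
  .no (.hor [.f 801 3 5] []) (.br 681 .no (.br 712 .no (.br 570 .no (.br 682 .no (.hor [.f 553 1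
  5] []) .no (.br 561 .no (.br 562 .no (.hor [.f 433 1 5] []) .no (.use 760) (.red [.f 562 5 1, .f
  563 1 3] 87 136 [2, 2, 2, 4] [(87, 136, [2, 2, 2, 4])]) .no) .no .no (.red [.t 826 2 4, .t 697 2
  4] 87 136 [2, 2, 2, 4] [(87, 136, [2, 2, 2, 4]), (103, 136, [2, 2, 4])]) (.red [.t 696 4 2] 87
  136 [2, 2, 2, 4] [(87, 136, [2, 2, 2, 4])])) (.red [.t 826 2 4, .f 682 5 1, .f 683 1 3] 102 136
  [2, 2, 4, 4] [(102, 136, [2, 2, 4, 4]), (103, 136, [2, 2, 4])]) .no) (.br 577 .no (.br 568 .no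
  (.use 759) (.br 682 .no (.hor [.f 553 1 5] []) .no (.br 561 .no (.br 562 .no (.hor [.f 433 1 5]
  []) .no (.use 760) (.red [.f 562 5 1, .f 563 1 3] 87 136 [2, 2, 2, 4] [(87, 136, [2, 2, 2, 4])])
  .no) .no .no (.red [.t 826 2 4, .t 697 2 4] 87 136 [2, 2, 2, 4] [(87, 136, [2, 2, 2, 4]), (103,
  136, [2, 2, 4])]) (.hor [.t 696 4 2, .t 832 2 4, .f 568 3 1, .f 560 1 3, .f 560 3 5] [(88, 72,
  [1]), (104, 72, [1, 1])])) (.red [.t 826 2 4, .f 682 5 1, .f 683 1 3] 102 136 [2, 2, 4, 4]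
  [(102, 136, [2, 2, 4, 4]), (103, 136, [2, 2, 4])]) .no) (.red [.f 560 3 1, .f 568 1 5] 87 136
  [2, 2, 2, 4] [(87, 136, [2, 2, 2, 4])]) .no .no) (.hor [.f 577 3 1, .f 584 1 5] [(89, 87, [3,
  3])]) .no .no (.hor [.t 712 2 4, .f 569 1 3, .f 569 3 5] [(88, 87, [3]), (89, 87, [3, 3])]))
  (.red [.t 826 2 4, .f 562 3 1, .f 569 1 5] 87 136 [2, 2, 2, 4] [(87, 136, [2, 2, 2, 4]), (103,
  136, [2, 2, 4])]) .no .no) (.red [.f 712 3 1] 106 136 [2, 2, 3, 3] [(106, 136, [2, 2, 3, 3])])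
  .no .no .no) .no (.red [.f 673 3 1, .f 681 1 3] 102 136 [2, 2, 4, 4] [(101, 136, [2, 2, 4, 4,
  4]), (102, 136, [2, 2, 4, 4])]) (.red [.t 826 2 4, .t 946 2 4, .t 817 2 4] 102 136 [2, 2, 4, 4]
  [(102, 136, [2, 2, 4, 4]), (103, 136, [2, 2, 4]), (118, 136, [2, 4, 4])]) (.red [.t 816 4 2] 102
  136 [2, 2, 4, 4] [(102, 136, [2, 2, 4, 4])])) .no) (.use 787) .no)) .no .no (.red [.t 1329 2 4]
  166 136 [4, 4, 1, 1] [(166, 136, [4, 4, 1, 1])]) (.red [.f 1202 5 1, .f 1201 1 5, .t 1081 1 4]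
  151 136 [4, 1] [(151, 136, [4, 1])]) .no) (.con 136 [2, 2, 4, 4, 1, 1, 1]) (.con 136 [2, 2, 4,
  4, 1, 1, 1]) .no)) .no .no) .no .no (.red [.f 1065 3 1, .f 1064 1 5] 150 136 [4, 4, 1] [(150,
  136, [4, 4, 1])]) .no (.red [.t 1064 1 3, .f 1073 1 3, .f 1073 3 5] 151 136 [4, 1] [(150, 136,
  [4, 4, 1]), (151, 136, [4, 1])])

def c21t803 : Tr4 :=
  .br 1075 (.br 1202 (.red [.f 1202 1 3, .f 1074 3 1] 151 136 [4, 1] [(151, 136, [4, 1]), (167,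
  136, [4, 1, 1])]) .no .no (.br 705 .no (.br 697 .no (.red [.f 569 1 3, .f 697 3 1, .f 704 1 5,
  .t 968 4 2] 121 136 [2, 3] [(88, 121, [2, 4, 2]), (104, 103, [3]), (121, 136, [2, 3])]) .no (.br
  817 .no .no .no (.use 796) .no (.hor [.t 952 2 4, .f 817 1 5] [(119, 121, [4, 4])])) .no (.hor
  [.t 832 2 4, .f 697 1 5] [(104, 121, [2, 4])])) (.br 817 .no (.br 697 .no (.br 1208 (.br 1201
  (.use 742) .no .no (.hor [.f 1193 3 5] []) .no (.use 800)) .no .no (.dom 151 136 [4, 1]) .no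
  .no) .no .no .no (.hor [.t 832 2 4, .f 697 1 5] [(104, 121, [2, 4])])) .no (.use 796) .no (.hor
  [.t 952 2 4, .f 817 1 5] [(119, 121, [4, 4])])) (.hor [.f 697 3 1, .f 697 1 5] [(104, 121, [2,
  4])]) (.hor [.t 825 3 2, .f 704 1 5] [(104, 121, [2, 4])]) .no) .no (.red [.t 1081 1 4, .f 1074
  1 5] 151 136 [4, 1] [(151, 136, [4, 1])])) .no .no (.br 705 .no (.use 774) (.br 938 (.hor [.f
  939 3 1, .f 938 1 5] [(134, 150, [2])]) (.hor [.f 810 1 3, .f 938 3 5] [(118, 136, [2, 4, 4])])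
  .no (.use 775) .no (.br 817 .no (.br 840 .no (.red [.f 704 1 3, .f 832 3 1, .f 824 1 3, .f 824 3
  5] 121 136 [2, 3] [(105, 136, [2, 2, 3]), (120, 136, [2]), (121, 136, [2, 3])]) (.br 697 .no
  (.br 843 .no (.br 1202 (.red [.f 1202 1 3, .f 1074 3 1] 151 136 [4, 1] [(151, 136, [4, 1]),
  (167, 136, [4, 1, 1])]) .no .no (.use 801) (.br 1066 (.red [.t 1066 1 3] 150 136 [4, 4, 1]
  [(150, 136, [4, 4, 1])]) .no .no (.br 1339 (.br 696 .no (.hor [.f 568 1 5] []) .no (.br 706 .no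
  (.br 699 .no (.br 707 .no (.hor [.f 578 1 5] []) .no .no .no .no) (.br 936 (.hor [.f 936 1 3, .f
  1064 3 5] [(134, 150, [2])]) (.con 136 [2, 2, 4, 4, 1, 1, 1]) .no (.br 1064 (.br 1201 (.br 1208
  (.use 780) .no .no (.use 789) .no .no) .no .no (.red [.f 1065 3 1, .f 1064 1 5] 150 136 [4, 4,
  1] [(150, 136, [4, 4, 1])]) .no (.red [.t 1064 1 3, .f 1073 1 3, .f 1073 3 5] 151 136 [4, 1]
  [(150, 136, [4, 4, 1]), (151, 136, [4, 1])])) .no .no (.hor [.f 928 3 1, .f 936 1 3, .f 1064 3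
  5] [(133, 149, [2]), (134, 150, [2])]) .no .no) .no .no) (.hor [.f 691 3 1, .f 698 1 5] [(103,
  136, [2, 2, 4])]) .no .no) (.hor [.f 705 3 5] []) .no (.br 699 .no (.br 936 (.hor [.f 936 1 3,
  .f 1064 3 5] [(134, 150, [2])]) (.con 136 [2, 2, 4, 4, 1, 1, 1]) .no (.br 1064 (.use 802) .no
  .no (.hor [.f 928 3 1, .f 936 1 3, .f 1064 3 5] [(133, 149, [2]), (134, 150, [2])]) .no .no) .no
  .no) .no (.hor [.f 691 3 1, .f 698 1 5] [(103, 136, [2, 2, 4])]) .no .no) .no) .no .no) .no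
  (.hor [.f 1211 3 1, .f 1210 1 5] [(168, 136, [1, 1])]) (.red [.t 1338 2 4, .f 1074 3 1, .f 1081
  1 5] 151 136 [4, 1] [(151, 136, [4, 1]), (167, 136, [4, 1, 1])]) .no .no) .no .no) (.red [.t
  1081 1 4] 151 136 [4, 1] [(151, 136, [4, 1])])) (.red [.f 843 3 1, .f 835 1 3, .f 834 3 5] 121
  136 [2, 3] [(121, 136, [2, 3]), (122, 136, [2, 3, 3])]) .no .no .no) .no .no .no (.hor [.t 832 2
  4, .f 697 1 5] [(104, 121, [2, 4])])) .no .no .no) .no (.use 773) .no (.hor [.t 952 2 4, .f 817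
  1 5] [(119, 121, [4, 4])]))) (.hor [.f 697 3 1, .f 697 1 5] [(104, 121, [2, 4])]) (.hor [.t 825
  3 2, .f 704 1 5] [(104, 121, [2, 4])]) .no) .no .no

def c21t804 : Tr4 :=
  .br 1072 (.br 1201 (.con 136 [4, 1, 1, 4]) .no .no (.hor [.f 1193 3 5] []) .no .no) .no .no
  (.hor [.f 1064 3 5] []) .no .no

def c21t805 : Tr4 :=
  .br 1202 (.red [.f 1202 1 3, .f 1074 3 1] 151 136 [4, 1] [(151, 136, [4, 1]), (167, 136, [4, 1,
  1])]) .no .no (.use 804) .no (.red [.t 1081 1 4, .f 1074 1 5] 151 136 [4, 1] [(151, 136, [4,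
  1])])

def c21t806 : Tr4 :=
  .br 1075 (.use 805) .no .no (.use 618) .no .no

def c21l31 : List Tr4 :=
  [c21t787, c21t788, c21t789, c21t790, c21t791, c21t792, c21t793, c21t794, c21t795, c21t796,
  c21t797, c21t798, c21t799, c21t800, c21t801, c21t802, c21t803, c21t804, c21t805, c21t806]

theorem c21k31 : chkLF ⟨4, 0, 0, true, -8⟩ false 1 c21N 787 c21l31 = true := by decide +kernel

def c21t807 : Tr4 :=
  .br 826 .no (.br 827 .no (.hor [.f 698 1 5] []) .no (.br 947 (.red [.f 947 1 3, .f 1074 3 5, .t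
  1218 2 4, .f 954 3 1] 136 136 [] [(135, 136, [4]), (136, 136, []), (152, 136, [1])]) .no .no
  (.br 944 (.br 825 .no (.hor [.f 697 1 5] []) (.br 824 (.br 834 .no (.hor [.f 698 1 3, .f 825 3
  5] [(104, 105, [4])]) (.br 1216 (.br 1217 (.hor [.f 1216 1 5] []) .no (.br 1097 .no .no (.br
  1096 (.br 1075 (.br 1208 (.use 769) .no .no (.dom 151 136 [4, 1]) .no .no) .no .no (.br 705 .no
  (.use 774) (.br 817 .no (.br 840 .no (.red [.f 704 1 3, .f 832 3 1, .f 824 1 3, .f 824 3 5] 121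
  136 [2, 3] [(105, 136, [2, 2, 3]), (120, 136, [2]), (121, 136, [2, 3])]) (.br 977 .no (.red [.f
  841 1 3, .f 840 3 5, .t 704 1 3, .f 832 3 1, .t 968 2 3] 121 136 [2, 3] [(105, 136, [2, 2, 3]),
  (121, 136, [2, 3])]) (.br 978 (.hor [.f 970 1 3, .f 970 3 5] [(138, 121, [3, 1])]) (.br 697 .no
  (.br 843 .no (.br 706 .no (.use 790) (.hor [.f 705 3 5] []) .no (.red [.t 842 4 2, .t 978 2 4,
  .f 835 1 3, .f 707 3 1] 121 136 [2, 3] [(121, 136, [2, 3]), (122, 136, [2, 3, 3])]) .no) (.red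
  [.f 843 3 1, .f 835 1 3, .f 834 3 5] 121 136 [2, 3] [(121, 136, [2, 3]), (122, 136, [2, 3, 3])])
  .no .no .no) .no .no .no (.hor [.t 832 2 4, .f 697 1 5] [(104, 121, [2, 4])])) (.hor [.f 977 3
  5] []) .no .no .no) .no (.hor [.t 1097 3 2, .f 970 3 5] [(138, 121, [3, 1])]) (.red [.t 840 3 1,
  .t 704 1 3, .f 832 3 1, .f 840 1 3] 121 136 [2, 3] [(105, 136, [2, 2, 3]), (121, 136, [2, 3])]))
  .no .no .no) .no (.use 773) .no (.hor [.t 952 2 4, .f 817 1 5] [(119, 121, [4, 4])])) (.hor [.f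
  697 3 1, .f 697 1 5] [(104, 121, [2, 4])]) (.hor [.t 825 3 2, .f 704 1 5] [(104, 121, [2, 4])])
  .no) .no .no) .no (.hor [.f 1096 3 5] []) .no .no .no) .no .no (.red [.t 960 3 1, .t 824 1 3, .f
  833 1 3, .f 961 3 1] 121 136 [2, 3] [(120, 136, [2]), (121, 136, [2, 3])])) .no .no .no) .no
  (.br 1097 (.use 803) .no (.use 727) .no .no (.red [.t 960 3 1, .t 824 1 3, .f 833 1 3, .f 961 3
  1] 121 136 [2, 3] [(120, 136, [2]), (121, 136, [2, 3])])) (.red [.f 1080 3 1, .f 1080 1 5, .t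
  944 1 3, .f 953 1 3, .t 1088 1 4] 136 136 [] [(135, 136, [4]), (136, 136, [])]) (.red [.t 1080 3
  1, .t 944 1 3, .f 953 1 3, .f 1081 3 1] 136 136 [] [(135, 136, [4]), (136, 136, [])]) .no) .no
  .no .no) (.con 136 [2, 4, 1, 3]) .no (.con 136 [2, 4, 1, 3]) .no .no) (.hor [.f 817 3 1, .f 817
  1 5] [(119, 136, [4, 2])]) .no (.con 136 [2, 4, 1, 3])) (.use 593) (.use 634) (.use 806) .no
  .no) .no .no) .no .no) (.red [.f 826 3 1, .f 834 1 5, .t 1098 2 4, .f 955 1 3, .t 954 2 3] 136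
  136 [] [(136, 136, []), (137, 136, [3])]) .no (.red [.t 962 4 2, .t 1098 2 4, .f 955 1 3, .f 827
  3 1] 136 136 [] [(136, 136, []), (137, 136, [3])]) (.br 952 .no (.hor [.t 945 3 2, .f 824 1 5]
  [(119, 121, [4, 4])]) .no (.use 634) .no .no)

def c21t808 : Tr4 :=
  .br 843 .no (.con 136 [2, 3, 2, 3]) (.red [.f 843 3 1, .f 835 1 3, .f 963 3 1, .f 970 1 5] 121
  136 [2, 3] [(121, 136, [2, 3]), (122, 136, [2, 3, 3]), (137, 136, [3])]) .no .no .no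

def c21t809 : Tr4 :=
  .br 1193 (.hor [.f 1192 1 5] []) .no .no (.br 1066 .no .no .no (.br 1321 (.br 1184 (.red [.f
  1184 1 3, .f 1056 3 1] 165 136 [4, 4, 4, 1, 1] [(149, 136, [4, 4, 4, 1]), (165, 136, [4, 4, 4,
  1, 1])]) .no .no (.br 1195 (.use 761) .no .no (.con 136 [4, 4, 4, 1, 1]) .no .no) .no .no) .no
  .no (.red [.f 1185 3 1, .f 1192 1 5] 165 136 [4, 4, 4, 1, 1] [(165, 136, [4, 4, 4, 1, 1])])
  (.red [.f 1321 5 3, .f 1194 3 1, .f 1202 1 3] 167 136 [4, 1, 1] [(166, 136, [4, 4, 1, 1]), (167,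
  136, [4, 1, 1])]) .no) .no .no) .no .no

def c21t810 : Tr4 :=
  .br 1064 (.red [.t 1064 1 3, .f 1073 1 3, .f 1073 3 5] 151 136 [4, 1] [(150, 136, [4, 4, 1]),
  (151, 136, [4, 1])]) (.hor [.f 936 1 3, .f 1064 3 5] [(134, 136, [4, 4])]) .no (.br 1337 (.br
  1192 (.br 1329 (.red [.f 1329 1 3, .t 1336 2 4] 167 136 [4, 1, 1] [(167, 136, [4, 1, 1]), (183,
  136, [4, 1, 1, 1])]) .no .no (.use 745) (.br 1339 (.hor [.f 1339 1 3, .f 1211 3 1, .f 1210 1 5]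
  [(168, 167, [3]), (184, 183, [3])]) .no .no (.br 1067 (.use 743) (.use 809) .no (.use 762) .no
  (.red [.t 1202 4 2, .t 1338 2 4, .f 1074 3 1] 151 136 [4, 1] [(150, 151, [4]), (151, 136, [4,
  1]), (167, 136, [4, 1, 1])])) .no .no) (.red [.f 1200 5 1, .f 1200 1 3] 167 136 [4, 1, 1] [(167,
  136, [4, 1, 1])])) .no .no (.red [.f 1056 3 1, .t 1064 1 3, .f 1073 1 3] 151 136 [4, 1] [(149,
  136, [4, 4, 1, 4]), (150, 136, [4, 4, 1]), (151, 136, [4, 1])]) (.red [.f 1192 5 3, .f 1065 3 1,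
  .f 1073 1 3] 151 136 [4, 1] [(150, 136, [4, 4, 1]), (151, 136, [4, 1])]) .no) .no (.hor [.f 1208
  1 3, .f 1336 3 5] [(168, 167, [3])]) (.red [.t 1336 2 4] 167 136 [4, 1, 1] [(167, 136, [4, 1,
  1])]) .no .no) .no .no

def c21t811 : Tr4 :=
  .br 1347 (.use 810) .no .no (.hor [.f 1211 3 1, .f 1210 1 5] [(168, 167, [3])]) .no (.red [.t
  1210 1 3, .t 1074 3 1, .f 1081 1 5] 151 136 [4, 1] [(151, 136, [4, 1]), (168, 167, [3])])

def c21t812 : Tr4 :=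
  .br 843 .no (.br 842 .no (.hor [.f 714 1 5] []) .no .no .no .no) (.red [.f 843 3 1, .f 835 1 3,
  .f 963 3 1, .f 970 1 5] 121 136 [2, 3] [(121, 136, [2, 3]), (122, 136, [2, 3, 3]), (137, 136,
  [3])]) .no .no (.red [.t 978 2 4, .f 835 1 3] 121 136 [2, 3] [(121, 136, [2, 3]), (122, 136, [2,
  3, 3])])

def c21t813 : Tr4 :=
  .br 707 .no (.con 136 [2, 2, 2, 3]) (.hor [.f 706 3 5] []) .no .no .no

def c21t814 : Tr4 :=
  .br 842 .no (.hor [.f 714 1 5] []) (.con 136 [2, 2, 3, 3]) .no .no .no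

def c21t815 : Tr4 :=
  .br 578 .no (.br 579 .no (.hor [.f 450 1 5] []) .no (.red [.t 570 1 3, .f 579 1 3] 89 136 [2, 2,
  2, 3] [(88, 136, [2, 2, 2]), (89, 136, [2, 2, 2, 3])]) .no .no) (.red [.t 586 4 1, .f 577 1 5]
  89 136 [2, 2, 2, 3] [(89, 136, [2, 2, 2, 3])]) .no (.red [.f 578 5 1, .f 579 1 3] 89 136 [2, 2,
  2, 3] [(89, 136, [2, 2, 2, 3])]) .no

def c21t816 : Tr4 :=
  .br 715 .no (.use 815) (.con 136 [2, 2, 2, 3, 3]) .no .no .no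

def c21t817 : Tr4 :=
  .br 705 .no (.br 706 .no (.hor [.f 577 1 5] []) (.use 813) .no (.br 843 .no (.use 814) (.red [.f
  843 3 1, .f 835 1 3, .f 963 3 1, .f 970 1 5] 121 136 [2, 3] [(121, 136, [2, 3]), (122, 136, [2,
  3, 3]), (137, 136, [3])]) .no .no (.br 850 .no (.br 712 .no (.br 713 .no (.red [.f 577 1 3] 89
  136 [2, 2, 2, 3] [(89, 136, [2, 2, 2, 3])]) (.con 136 [2, 2, 3, 3, 2]) .no (.use 816) .no) (.red
  [.f 712 3 1] 106 136 [2, 2, 3, 3] [(106, 136, [2, 2, 3, 3])]) .no (.red [.f 841 1 3, .f 840 3 5,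
  .f 712 5 1, .f 704 1 3, .f 832 3 1, .t 968 2 3] 105 136 [2, 2, 3] [(105, 136, [2, 2, 3]), (121,
  136, [2, 3])]) .no) (.red [.f 850 3 1, .f 849 1 5] 123 136 [2, 3, 3, 3] [(123, 136, [2, 3, 3,
  3])]) .no (.red [.f 842 5 3, .f 843 3 1, .f 835 1 3] 121 136 [2, 3] [(121, 136, [2, 3]), (122,
  136, [2, 3, 3])]) .no)) .no) (.red [.f 841 1 3, .f 840 3 5, .t 704 1 3, .f 832 3 1, .t 968 2 3]
  105 136 [2, 2, 3] [(105, 136, [2, 2, 3]), (121, 136, [2, 3])]) .no (.br 842 .no (.red [.f 705 5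
  1, .f 706 1 3] 105 136 [2, 2, 3] [(105, 136, [2, 2, 3])]) (.use 808) .no (.br 850 .no (.br 707
  .no (.br 715 .no (.red [.f 579 1 3] 89 136 [2, 2, 2, 3] [(89, 136, [2, 2, 2, 3])]) (.con 136 [2,
  2, 3, 3, 3]) .no .no (.red [.f 714 5 1, .f 705 5 1, .f 706 1 3] 105 136 [2, 2, 3] [(105, 136,
  [2, 2, 3])])) (.red [.f 705 5 1, .t 706 1 3] 105 136 [2, 2, 3] [(105, 136, [2, 2, 3])]) .no .no
  .no) (.red [.f 850 3 1, .f 849 1 5] 123 136 [2, 3, 3, 3] [(123, 136, [2, 3, 3, 3])]) .no (.red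
  [.f 842 5 3, .f 843 3 1, .f 835 1 3] 121 136 [2, 3] [(121, 136, [2, 3]), (122, 136, [2, 3, 3])])
  .no) .no) .no

def c21t818 : Tr4 :=
  .br 705 .no (.br 707 .no (.br 715 .no (.red [.f 579 1 3] 89 136 [2, 2, 2, 3] [(89, 136, [2, 2,
  2, 3])]) (.br 850 .no (.con 136 [2, 2, 3, 3, 3]) (.red [.f 850 3 1, .f 849 1 5] 123 136 [2, 3,
  3, 3] [(123, 136, [2, 3, 3, 3])]) .no (.red [.f 842 5 3, .f 843 3 1, .f 835 1 3] 121 136 [2, 3]
  [(121, 136, [2, 3]), (122, 136, [2, 3, 3])]) .no) .no .no (.red [.t 697 1 3, .f 714 5 1, .f 706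
  1 3] 105 136 [2, 2, 3] [(104, 136, [2, 2]), (105, 136, [2, 2, 3])])) (.red [.t 697 1 3, .t 706 1
  3] 105 136 [2, 2, 3] [(104, 136, [2, 2]), (105, 136, [2, 2, 3])]) .no .no .no) (.red [.f 841 1
  3, .f 840 3 5, .t 704 1 3, .f 832 3 1, .t 968 2 3] 105 136 [2, 2, 3] [(105, 136, [2, 2, 3]),
  (121, 136, [2, 3])]) .no .no .no

def c21t819 : Tr4 :=
  .br 713 .no (.red [.f 577 1 3] 89 136 [2, 2, 2, 3] [(89, 136, [2, 2, 2, 3])]) (.br 714 .no (.con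
  136 [2, 2, 2, 3, 3]) (.hor [.f 713 3 5] []) .no (.con 136 [2, 2, 2, 3, 3]) .no) .no (.use 816)
  .no

def c21t820 : Tr4 :=
  .br 712 .no (.con 136 [2, 3, 2, 3, 2]) (.red [.f 712 3 1] 106 136 [2, 3, 2, 3] [(106, 136, [2,
  3, 2, 3])]) .no (.con 136 [2, 3, 2, 2, 3]) .no

def c21t821 : Tr4 :=
  .br 705 .no (.br 706 .no (.hor [.f 577 1 5] []) (.use 813) .no (.br 843 .no (.use 814) (.red [.f
  843 3 1, .f 835 1 3, .f 963 3 1, .f 970 1 5] 121 136 [2, 3] [(121, 136, [2, 3]), (122, 136, [2,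
  3, 3]), (137, 136, [3])]) .no .no (.br 712 .no (.use 819) (.red [.f 712 3 1] 106 136 [2, 2, 3,
  3] [(106, 136, [2, 2, 3, 3])]) .no (.red [.t 840 3 1, .f 712 5 1, .f 704 1 3, .f 832 3 1, .f 840
  1 3] 105 136 [2, 2, 3] [(105, 136, [2, 2, 3]), (121, 136, [2, 3])]) .no)) .no) (.red [.t 840 3
  1, .t 704 1 3, .f 832 3 1, .f 840 1 3] 105 136 [2, 2, 3] [(105, 136, [2, 2, 3]), (121, 136, [2,
  3])]) .no (.br 842 .no (.red [.f 705 5 1, .f 706 1 3] 105 136 [2, 2, 3] [(105, 136, [2, 2, 3])])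
  (.use 808) .no (.br 707 .no (.br 715 .no (.red [.f 579 1 3] 89 136 [2, 2, 2, 3] [(89, 136, [2,
  2, 2, 3])]) (.br 714 .no (.use 820) (.hor [.f 714 3 5] []) .no .no (.red [.t 840 3 1, .f 705 5
  3, .t 704 1 3, .f 832 3 1, .f 840 1 3] 105 136 [2, 2, 3] [(105, 136, [2, 2, 3]), (121, 136, [2,
  3])])) .no .no (.red [.f 714 5 1, .f 705 5 1, .f 706 1 3] 105 136 [2, 2, 3] [(105, 136, [2, 2,
  3])])) (.red [.f 705 5 1, .t 706 1 3] 105 136 [2, 2, 3] [(105, 136, [2, 2, 3])]) .no .no .no)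
  .no) .no

def c21t822 : Tr4 :=
  .br 713 .no (.red [.f 577 1 3] 89 136 [2, 3, 2, 2] [(89, 136, [2, 3, 2, 2])]) (.con 136 [2, 3,
  2, 2, 3]) .no (.con 136 [2, 3, 2, 2, 3]) .no

def c21t823 : Tr4 :=
  .br 705 .no (.br 707 .no (.br 715 .no (.red [.f 579 1 3] 89 136 [2, 2, 2, 3] [(89, 136, [2, 2,
  2, 3])]) (.br 712 .no (.use 822) (.red [.f 712 3 1] 106 136 [2, 2, 3, 3] [(106, 136, [2, 2, 3,
  3])]) .no (.red [.t 840 3 1, .f 712 5 1, .f 704 1 3, .f 832 3 1, .f 840 1 3] 105 136 [2, 2, 3]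
  [(105, 136, [2, 2, 3]), (121, 136, [2, 3])]) .no) .no .no (.red [.t 697 1 3, .f 714 5 1, .f 706
  1 3] 105 136 [2, 2, 3] [(104, 136, [2, 2]), (105, 136, [2, 2, 3])])) (.red [.t 697 1 3, .t 706 1
  3] 105 136 [2, 2, 3] [(104, 136, [2, 2]), (105, 136, [2, 2, 3])]) .no .no .no) (.red [.t 840 3
  1, .t 704 1 3, .f 832 3 1, .f 840 1 3] 105 136 [2, 2, 3] [(105, 136, [2, 2, 3]), (121, 136, [2,
  3])]) .no .no .no

def c21t824 : Tr4 :=
  .br 843 .no (.hor [.f 714 1 5] []) (.red [.f 843 3 1, .f 835 1 3, .f 963 3 1, .f 970 1 5] 121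
  136 [2, 3] [(121, 136, [2, 3]), (122, 136, [2, 3, 3]), (137, 136, [3])]) .no .no .no

def c21t825 : Tr4 :=
  .br 1106 .no .no (.hor [.f 978 3 1, .f 970 1 3, .f 970 3 5] [(138, 121, [1, 3]), (139, 121, [1,
  3, 3])]) .no (.red [.t 960 3 1, .t 970 1 3, .f 842 5 1, .f 835 1 3] 121 136 [2, 3] [(121, 136,
  [2, 3]), (137, 121, [1]), (138, 121, [1, 3])]) .no

def c21t826 : Tr4 :=
  .br 850 .no .no (.br 851 .no (.red [.t 722 4 1, .t 713 4 1, .f 697 1 3] 106 136 [2, 2, 3, 3]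
  [(104, 136, [2, 2]), (105, 136, [2, 2, 3]), (106, 136, [2, 2, 3, 3])]) (.hor [.f 850 3 5] [])
  .no .no .no) .no (.red [.f 842 5 3, .f 714 3 1, .t 713 4 1, .f 697 1 3] 106 136 [2, 2, 3, 3]
  [(104, 136, [2, 2]), (105, 136, [2, 2, 3]), (106, 136, [2, 2, 3, 3])]) (.red [.f 849 5 1, .t 978
  2 4, .f 714 3 1] 106 136 [2, 2, 3, 3] [(106, 136, [2, 2, 3, 3]), (122, 136, [2, 3, 3])])

def c21t827 : Tr4 :=
  .br 705 .no (.br 706 .no (.hor [.f 577 1 5] []) (.use 813) .no (.br 712 .no (.use 819) (.red [.f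
  712 3 1] 106 136 [2, 2, 3, 3] [(106, 136, [2, 2, 3, 3])]) .no (.br 849 .no (.red [.t 848 4 2]
  106 136 [2, 2, 3, 3] [(106, 136, [2, 2, 3, 3])]) (.br 850 .no (.br 715 .no (.use 815) (.con 136
  [2, 2, 3, 3, 2]) .no .no (.br 851 .no (.red [.f 714 5 1, .f 715 1 3] 106 136 [2, 2, 3, 3] [(106,
  136, [2, 2, 3, 3])]) (.con 136 [2, 2, 3, 3, 3]) .no .no .no)) (.hor [.f 849 3 5] []) .no (.red
  [.f 842 5 3, .f 843 3 1, .f 835 1 3] 121 136 [2, 3] [(121, 136, [2, 3]), (122, 136, [2, 3, 3])])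
  .no) .no (.red [.f 849 5 1, .t 978 2 4, .f 835 1 3] 121 136 [2, 3] [(121, 136, [2, 3]), (122,
  136, [2, 3, 3])]) .no) .no) .no) (.br 706 .no (.br 707 .no (.hor [.f 578 1 5] []) (.br 714 .no
  (.hor [.f 578 1 3, .f 705 3 5] [(89, 105, [2])]) (.use 826) .no .no .no) .no .no .no) (.hor [.f
  705 3 5] []) .no (.br 714 .no (.br 712 .no (.br 715 .no (.hor [.f 586 1 5] []) (.con 136 [2, 2,
  2, 3, 3]) .no .no .no) (.red [.f 712 3 1] 106 136 [2, 2, 3, 3] [(106, 136, [2, 2, 3, 3])]) .no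
  .no .no) (.use 826) .no (.red [.f 714 5 1, .t 713 4 1, .f 697 1 3] 105 136 [2, 2, 3] [(104, 136,
  [2, 2]), (105, 136, [2, 2, 3])]) .no) .no) .no (.br 707 .no (.br 715 .no (.red [.f 579 1 3] 89
  136 [2, 2, 2, 3] [(89, 136, [2, 2, 2, 3])]) (.br 714 .no (.use 820) (.hor [.f 714 3 5] []) .no
  .no (.br 712 .no (.con 136 [2, 2, 2, 3, 3]) (.red [.f 712 3 1] 106 136 [2, 2, 3, 3] [(106, 136,
  [2, 2, 3, 3])]) .no .no .no)) .no .no (.red [.f 714 5 1, .f 705 5 1, .f 706 1 3] 105 136 [2, 2,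
  3] [(105, 136, [2, 2, 3])])) (.red [.f 705 5 1, .t 706 1 3] 105 136 [2, 2, 3] [(105, 136, [2, 2,
  3])]) .no .no .no) .no

def c21t828 : Tr4 :=
  .br 707 .no (.br 705 .no (.br 715 .no (.red [.f 579 1 3] 89 136 [2, 2, 2, 3] [(89, 136, [2, 2,
  2, 3])]) (.br 712 .no (.use 822) (.red [.f 712 3 1] 106 136 [2, 2, 3, 3] [(106, 136, [2, 2, 3,
  3])]) .no (.br 850 .no (.con 136 [2, 2, 3, 3, 2]) (.br 849 .no (.red [.t 848 4 2] 106 136 [2, 2,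
  3, 3] [(106, 136, [2, 2, 3, 3])]) (.hor [.f 849 3 5] []) .no .no .no) .no (.red [.f 842 5 3, .f
  843 3 1, .f 835 1 3] 121 136 [2, 3] [(121, 136, [2, 3]), (122, 136, [2, 3, 3])]) (.red [.f 849 5
  1, .t 978 2 4, .f 835 1 3] 121 136 [2, 3] [(121, 136, [2, 3]), (122, 136, [2, 3, 3])])) .no) .no
  .no (.red [.t 697 1 3, .f 714 5 1, .f 706 1 3] 105 136 [2, 2, 3] [(104, 136, [2, 2]), (105, 136,
  [2, 2, 3])])) (.br 714 .no (.br 715 .no (.hor [.f 586 1 5] []) (.use 820) .no .no .no) (.use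
  826) .no (.red [.t 697 1 3, .f 714 5 1, .f 706 1 3] 105 136 [2, 2, 3] [(104, 136, [2, 2]), (105,
  136, [2, 2, 3])]) .no) .no .no .no) (.red [.t 697 1 3, .t 706 1 3] 105 136 [2, 2, 3] [(104, 136,
  [2, 2]), (105, 136, [2, 2, 3])]) .no .no .no

def c21t829 : Tr4 :=
  .br 1193 (.hor [.f 1193 1 5] []) .no .no (.use 785) .no (.br 1195 (.hor [.f 1194 1 5] []) .no
  .no (.con 136 [4, 1, 4, 4, 1]) .no .no)

def c21t830 : Tr4 :=
  .br 1336 (.br 1330 (.br 1331 (.hor [.f 1330 1 5] []) .no .no (.br 1328 (.con 136 [4, 1, 4, 1,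
  1]) .no .no (.br 1322 (.red [.f 1322 1 3, .t 1329 2 4] 166 136 [4, 1, 4, 1] [(166, 136, [4, 1,
  4, 1]), (182, 136, [4, 1, 4, 1, 1])]) .no .no (.br 1321 (.con 136 [4, 1, 4, 1, 4, 1]) .no .no
  (.hor [.f 1313 3 5] []) .no .no) .no (.hor [.f 1193 5 1, .f 1193 1 3, .f 1320 3 5, .t 1322 2 3,
  .f 1193 3 5] [])) .no .no) .no .no) .no .no (.red [.t 1329 2 4] 166 136 [4, 1, 4, 1] [(166, 136,
  [4, 1, 4, 1])]) (.red [.f 1202 5 1, .f 1201 1 5, .t 1081 1 4] 151 136 [4, 1] [(151, 136, [4,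
  1])]) .no) .no .no (.br 1330 (.br 1331 (.hor [.f 1330 1 5] []) .no .no (.con 136 [4, 1, 4, 1,
  1]) .no .no) .no .no (.red [.f 1200 3 1, .f 1200 1 3, .t 1329 2 4] 166 136 [4, 1, 4, 1] [(166,
  136, [4, 1, 4, 1])]) (.red [.f 1202 5 1, .f 1201 1 5, .t 1081 1 4] 151 136 [4, 1] [(151, 136,
  [4, 1])]) .no) .no .no

def c21t831 : Tr4 :=
  .br 1066 (.red [.t 1066 1 3] 150 136 [4, 4, 1] [(150, 136, [4, 4, 1])]) .no .no (.br 1194 (.use
  829) .no .no (.red [.f 1058 3 1, .t 1066 1 3] 150 136 [4, 4, 1] [(149, 136, [4, 4, 4, 1]), (150,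
  136, [4, 4, 1])]) (.red [.f 1194 5 3, .f 1067 3 1] 150 136 [4, 4, 1] [(150, 136, [4, 4, 1])])
  (.use 830)) .no .no

def c21t832 : Tr4 :=
  .br 1201 (.br 1339 (.br 1345 (.hor [.f 1339 1 3, .f 1211 3 1, .f 1210 1 5] [(168, 136, [1, 1]),
  (184, 136, [1, 1, 1])]) .no (.hor [.f 1339 1 3, .f 1211 3 1, .f 1210 1 5] [(168, 136, [1, 1]),
  (184, 136, [1, 1, 1])]) (.use 831) (.hor [.f 1339 1 3, .f 1211 3 1, .f 1210 1 5] [(168, 136, [1,
  1]), (184, 136, [1, 1, 1])]) .no) .no .no (.red [.t 1338 2 4, .f 1074 3 1, .f 1081 1 5] 151 136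
  [4, 1] [(151, 136, [4, 1]), (167, 136, [4, 1, 1])]) .no .no) .no .no (.red [.f 1065 3 1, .f 1073
  1 3] 151 136 [4, 1] [(150, 136, [4, 4, 1]), (151, 136, [4, 1])]) .no .no

def c21t833 : Tr4 :=
  .br 1347 (.use 832) .no .no (.hor [.f 1211 3 1, .f 1210 1 5] [(168, 136, [1, 1])]) .no (.red [.t
  1210 1 3, .f 1202 5 3, .f 1074 3 1, .f 1082 1 3] 151 136 [4, 1] [(151, 136, [4, 1]), (152, 136,
  [1]), (168, 136, [1, 1])])

def c21l32 : List Tr4 :=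
  [c21t807, c21t808, c21t809, c21t810, c21t811, c21t812, c21t813, c21t814, c21t815, c21t816,
  c21t817, c21t818, c21t819, c21t820, c21t821, c21t822, c21t823, c21t824, c21t825, c21t826,
  c21t827, c21t828, c21t829, c21t830, c21t831, c21t832, c21t833]

theorem c21k32 : chkLF ⟨4, 0, 0, true, -8⟩ false 1 c21N 807 c21l32 = true := by decide +kernel

def c21t834 : Tr4 :=
  .br 1217 (.hor [.f 1216 1 5] []) .no (.br 1075 (.br 1208 (.br 1202 (.red [.f 1202 1 3, .f 1074 3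
  1] 151 136 [4, 1] [(151, 136, [4, 1]), (167, 136, [4, 1, 1])]) .no .no (.br 1201 (.use 742) .no
  .no (.hor [.f 1193 3 5] []) .no (.br 1227 (.use 811) .no (.br 1347 (.use 810) .no (.use 768)
  (.hor [.f 1211 3 1, .f 1210 1 5] [(168, 167, [3])]) .no (.red [.t 1210 1 3, .t 1074 3 1, .f 1081
  1 5] 151 136 [4, 1] [(151, 136, [4, 1]), (168, 167, [3])])) .no .no (.hor [.t 1090 1 3, .f 1217
  3 5] [(153, 136, [3, 1])]))) .no (.red [.t 1081 1 4, .f 1074 1 5] 151 136 [4, 1] [(151, 136, [4,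
  1])])) .no .no (.dom 151 136 [4, 1]) .no .no) (.red [.f 947 1 3, .f 1074 3 5, .t 1218 2 4, .f
  954 3 1] 136 136 [] [(135, 136, [4]), (136, 136, []), (152, 136, [1])]) .no (.br 1202 (.red [.f
  1202 1 3, .f 1074 3 1] 151 136 [4, 1] [(151, 136, [4, 1]), (167, 136, [4, 1, 1])]) .no .no (.use
  801) (.br 1208 (.br 1227 (.use 779) .no (.use 781) .no .no (.hor [.t 1090 1 3, .f 1217 3 5]
  [(153, 136, [3, 1])])) .no .no (.br 1227 (.use 833) .no (.br 1347 (.use 832) .no (.br 1201 (.br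
  1226 (.br 1066 (.red [.t 1066 1 3] 150 136 [4, 4, 1] [(150, 136, [4, 4, 1])]) .no .no (.br 1194
  (.use 829) .no .no (.red [.f 1058 3 1, .t 1066 1 3] 150 136 [4, 4, 1] [(149, 136, [4, 4, 4, 1]),
  (150, 136, [4, 4, 1])]) (.red [.f 1194 5 3, .f 1067 3 1] 150 136 [4, 4, 1] [(150, 136, [4, 4,
  1])]) (.br 1346 (.br 1345 (.hor [.f 1345 1 5] []) .no (.hor [.f 1217 3 1, .f 1216 1 5] [(169,
  136, [3, 1, 1])]) (.br 1339 (.use 830) .no .no (.red [.t 1338 2 4, .f 1074 3 1, .f 1081 1 5] 151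
  136 [4, 1] [(151, 136, [4, 1]), (167, 136, [4, 1, 1])]) .no .no) .no .no) .no .no .no .no (.hor
  [.t 1225 4 1, .f 1216 1 5] [(169, 136, [3, 1, 1])]))) .no .no) .no (.hor [.f 1226 3 5] []) .no
  .no .no) .no .no (.red [.f 1065 3 1, .f 1073 1 3] 151 136 [4, 1] [(150, 136, [4, 4, 1]), (151,
  136, [4, 1])]) .no .no) (.hor [.f 1211 3 1, .f 1210 1 5] [(168, 136, [1, 1])]) .no (.red [.t
  1210 1 3, .f 1202 5 3, .f 1074 3 1, .f 1082 1 3] 151 136 [4, 1] [(151, 136, [4, 1]), (152, 136,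
  [1]), (168, 136, [1, 1])])) .no .no (.hor [.t 1090 1 3, .f 1217 3 5] [(153, 136, [3, 1])])) .no
  .no) (.red [.t 1081 1 4] 151 136 [4, 1] [(151, 136, [4, 1])])) .no .no) .no .no .no

def c21t835 : Tr4 :=
  .br 1331 (.red [.f 1331 1 3] 183 136 [4, 1, 1, 1] [(183, 136, [4, 1, 1, 1])]) .no .no (.con 136
  [4, 1, 4, 1, 1]) .no .no

def c21t836 : Tr4 :=
  .br 1192 (.br 1337 (.br 1329 (.red [.f 1329 1 3, .t 1336 2 4] 167 136 [4, 1, 1] [(167, 136, [4,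
  1, 1]), (183, 136, [4, 1, 1, 1])]) .no .no (.use 745) (.br 1067 (.use 791) (.use 809) .no (.use
  762) .no (.br 1339 (.use 835) .no .no (.red [.t 1202 4 2, .t 1338 2 4, .f 1074 3 1] 151 136 [4,
  1] [(150, 151, [4]), (151, 136, [4, 1]), (167, 136, [4, 1, 1])]) .no .no)) (.red [.f 1200 5 1,
  .f 1200 1 3] 167 136 [4, 1, 1] [(167, 136, [4, 1, 1])])) .no .no (.red [.t 1336 2 4] 167 136 [4,
  1, 1] [(167, 136, [4, 1, 1])]) .no .no) .no .no (.red [.f 1056 3 1, .t 1064 1 3, .f 1073 1 3]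
  151 136 [4, 1] [(149, 136, [4, 4, 1, 4]), (150, 136, [4, 4, 1]), (151, 136, [4, 1])]) (.red [.f
  1192 5 3, .f 1065 3 1, .f 1073 1 3] 151 136 [4, 1] [(150, 136, [4, 4, 1]), (151, 136, [4, 1])])
  .no

def c21t837 : Tr4 :=
  .br 1347 (.hor [.f 1346 1 5] []) .no (.use 836) (.hor [.f 1211 3 1, .f 1210 1 5] [(168, 167,
  [3])]) .no .no

def c21t838 : Tr4 :=
  .br 1346 (.use 837) .no .no .no (.red [.t 1210 1 3, .t 1074 3 1, .f 1081 1 5] 151 136 [4, 1]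
  [(151, 136, [4, 1]), (168, 167, [3])]) .no

def c21t839 : Tr4 :=
  .br 1106 (.br 1226 (.use 838) .no .no .no (.red [.t 1090 1 3, .t 954 3 1, .f 961 1 5] 136 136 []
  [(136, 136, []), (153, 121, [1, 1])]) .no) .no (.hor [.f 978 3 1, .f 970 1 3, .f 970 3 5] [(138,
  121, [1, 3]), (139, 121, [1, 3, 3])]) .no (.red [.t 970 1 3, .f 842 5 1, .f 835 1 3, .f 963 3 1,
  .f 971 1 3] 121 136 [2, 3] [(121, 136, [2, 3]), (137, 136, [3])]) .no

def c21t840 : Tr4 :=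
  .br 1097 (.br 1064 (.red [.t 1064 1 3, .f 1073 1 3, .f 1073 3 5] 151 136 [4, 1] [(150, 136, [4,
  4, 1]), (151, 136, [4, 1])]) (.hor [.f 936 1 3, .f 1064 3 5] [(134, 136, [4, 4])]) .no (.br 698
  .no (.br 978 (.hor [.f 970 1 3, .f 970 3 5] [(138, 106, [1, 1])]) (.use 812) (.br 977 (.use 839)
  (.use 817) (.hor [.f 977 3 5] []) .no .no (.use 821)) .no .no (.use 827)) (.br 978 (.hor [.f 970
  1 3, .f 970 3 5] [(138, 106, [1, 1])]) (.use 812) (.br 977 (.use 839) (.use 818) (.hor [.f 977 3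
  5] []) .no .no (.use 823)) .no .no (.use 828)) (.hor [.f 690 3 1, .f 697 1 5] [(103, 104, [4])])
  .no .no) .no .no) .no (.use 727) .no .no (.br 1064 (.red [.t 1064 1 3, .f 1073 1 3, .f 1073 3 5]
  151 136 [4, 1] [(150, 136, [4, 4, 1]), (151, 136, [4, 1])]) (.hor [.f 936 1 3, .f 1064 3 5]
  [(134, 136, [4, 4])]) .no (.br 1226 (.use 838) .no (.br 698 .no (.br 978 (.hor [.f 970 1 3, .f
  970 3 5] [(138, 106, [1, 1])]) (.use 812) (.br 977 (.use 825) (.use 817) (.hor [.f 977 3 5] [])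
  .no .no (.use 821)) .no .no (.use 827)) (.br 978 (.hor [.f 970 1 3, .f 970 3 5] [(138, 106, [1,
  1])]) (.use 812) (.br 977 (.use 825) (.use 818) (.hor [.f 977 3 5] []) .no .no (.use 823)) .no
  .no (.use 828)) (.hor [.f 690 3 1, .f 697 1 5] [(103, 104, [4])]) .no .no) .no (.red [.t 1090 1
  3, .t 954 3 1, .f 961 1 5] 136 136 [] [(136, 136, []), (153, 121, [1, 1])]) (.br 1346 (.use 837)
  .no (.hor [.t 1345 2 3, .f 1216 3 5] [(169, 167, [3, 3])]) .no (.red [.t 1210 1 3, .t 1074 3 1,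
  .f 1081 1 5] 151 136 [4, 1] [(151, 136, [4, 1]), (168, 167, [3])]) .no)) .no .no)

def c21t841 : Tr4 :=
  .br 1208 (.use 780) .no .no (.br 1194 (.use 829) .no .no (.red [.f 1058 3 1, .t 1066 1 3] 150
  136 [4, 4, 1] [(149, 136, [4, 4, 4, 1]), (150, 136, [4, 4, 1])]) (.red [.f 1194 5 3, .f 1067 3
  1] 150 136 [4, 4, 1] [(150, 136, [4, 4, 1])]) (.br 1330 (.br 1331 (.hor [.f 1330 1 5] []) .no
  .no (.br 1322 (.red [.f 1322 1 3, .t 1329 2 4] 166 136 [4, 4, 1, 1] [(166, 136, [4, 4, 1, 1]),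
  (182, 136, [4, 4, 1, 1, 1])]) .no .no (.br 1321 (.con 136 [4, 4, 1, 1, 4, 1]) .no .no (.hor [.f
  1313 3 5] []) .no (.con 136 [4, 4, 1, 1, 1])) .no (.red [.f 1193 5 1, .f 1193 1 3] 166 136 [4,
  4, 1, 1] [(166, 136, [4, 4, 1, 1])])) .no .no) .no .no (.red [.t 1329 2 4] 166 136 [4, 4, 1, 1]
  [(166, 136, [4, 4, 1, 1])]) (.red [.f 1202 5 1, .f 1201 1 5, .t 1081 1 4] 151 136 [4, 1] [(151,
  136, [4, 1])]) .no)) .no .no

def c21t842 : Tr4 :=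
  .br 1193 (.hor [.f 1192 1 5] []) .no .no (.con 136 [1, 4, 4, 4, 1]) .no .no

def c21t843 : Tr4 :=
  .br 1331 (.red [.f 1331 1 3] 183 136 [4, 1, 1, 1] [(183, 136, [4, 1, 1, 1])]) .no .no (.con 136
  [4, 1, 4, 1, 4]) .no (.red [.f 1202 5 1, .f 1202 1 3] 167 136 [4, 1, 1] [(167, 136, [4, 1, 1])])

def c21t844 : Tr4 :=
  .br 1066 (.red [.t 1066 1 3] 150 136 [4, 4, 1] [(150, 136, [4, 4, 1])]) .no .no (.br 1201 (.use
  841) .no .no (.red [.f 1065 3 1, .f 1073 1 3] 151 136 [4, 1] [(150, 136, [4, 4, 1]), (151, 136,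
  [4, 1])]) .no (.br 1064 (.red [.t 1064 1 3, .f 1073 1 3, .f 1073 3 5] 151 136 [4, 1] [(150, 136,
  [4, 4, 1]), (151, 136, [4, 1])]) (.hor [.f 936 1 3, .f 1064 3 5] [(134, 150, [2])]) .no (.br
  1208 (.br 1192 (.br 1337 (.br 1194 (.use 842) .no .no (.red [.f 1058 3 1, .t 1066 1 3] 150 136
  [4, 4, 1] [(149, 136, [4, 4, 4, 1]), (150, 136, [4, 4, 1])]) (.red [.f 1194 5 3, .f 1067 3 1]
  150 136 [4, 4, 1] [(150, 136, [4, 4, 1])]) (.use 843)) .no .no (.red [.t 1336 2 4] 167 136 [4,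
  1, 1] [(167, 136, [4, 1, 1])]) .no .no) .no .no (.red [.f 1056 3 1, .t 1064 1 3, .f 1073 1 3]
  151 136 [4, 1] [(149, 136, [4, 4, 4, 1]), (150, 136, [4, 4, 1]), (151, 136, [4, 1])]) (.red [.f
  1192 5 3, .f 1065 3 1, .f 1073 1 3] 151 136 [4, 1] [(150, 136, [4, 4, 1]), (151, 136, [4, 1])])
  .no) .no .no .no .no .no) .no .no)) .no .no

def c21t845 : Tr4 :=
  .br 1339 (.br 1075 .no .no .no (.use 844) .no .no) .no (.hor [.f 1211 3 1, .f 1210 1 5] [(168,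
  136, [1, 1])]) (.red [.t 1338 2 4, .f 1074 3 1, .f 1081 1 5] 151 136 [4, 1] [(151, 136, [4, 1]),
  (167, 136, [4, 1, 1])]) .no .no

def c21t846 : Tr4 :=
  .br 1208 (.use 742) .no .no (.dom 151 136 [4, 1]) .no .no

def c21t847 : Tr4 :=
  .br 1067 (.use 792) (.br 1192 (.br 1337 (.br 1329 (.red [.f 1329 1 3, .t 1336 2 4] 167 136 [4,
  1, 1] [(167, 136, [4, 1, 1]), (183, 136, [4, 1, 1, 1])]) .no .no (.use 745) (.use 809) (.red [.f
  1200 5 1, .f 1200 1 3] 167 136 [4, 1, 1] [(167, 136, [4, 1, 1])])) .no .no (.red [.t 1336 2 4]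
  167 136 [4, 1, 1] [(167, 136, [4, 1, 1])]) .no .no) .no .no (.red [.f 1056 3 1, .t 1064 1 3, .f
  1073 1 3] 151 136 [4, 1] [(149, 136, [4, 4, 1, 4]), (150, 136, [4, 4, 1]), (151, 136, [4, 1])])
  (.red [.f 1192 5 3, .f 1065 3 1, .f 1073 1 3] 151 136 [4, 1] [(150, 136, [4, 4, 1]), (151, 136,
  [4, 1])]) .no) .no (.use 793) .no (.use 797)

def c21t848 : Tr4 :=
  .br 1208 (.br 1217 (.use 847) .no .no .no .no .no) .no .no .no .no .no

def c21t849 : Tr4 :=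
  .br 1208 (.br 1217 (.use 836) .no .no .no .no .no) .no .no .no .no .no

def c21t850 : Tr4 :=
  .br 1347 (.br 1064 (.red [.t 1064 1 3, .f 1073 1 3, .f 1073 3 5] 151 136 [4, 1] [(150, 136, [4,
  4, 1]), (151, 136, [4, 1])]) (.hor [.f 936 1 3, .f 1064 3 5] [(134, 136, [4, 4])]) .no (.use
  848) .no .no) .no (.br 1064 (.red [.t 1064 1 3, .f 1073 1 3, .f 1073 3 5] 151 136 [4, 1] [(150,
  136, [4, 4, 1]), (151, 136, [4, 1])]) (.hor [.f 936 1 3, .f 1064 3 5] [(134, 136, [4, 4])]) .no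
  (.use 849) .no .no) (.hor [.f 1211 3 1, .f 1210 1 5] [(168, 136, [1, 1])]) .no (.red [.t 1210 1
  3, .t 1074 3 1, .f 1081 1 5] 151 136 [4, 1] [(151, 136, [4, 1]), (168, 136, [1, 1])])

def c21t851 : Tr4 :=
  .br 1339 (.br 1075 .no .no .no (.br 1217 (.use 844) .no .no .no .no .no) .no .no) .no (.hor [.f
  1211 3 1, .f 1210 1 5] [(168, 136, [1, 1])]) (.red [.t 1338 2 4, .f 1074 3 1, .f 1081 1 5] 151
  136 [4, 1] [(151, 136, [4, 1]), (167, 136, [4, 1, 1])]) .no .no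

def c21t852 : Tr4 :=
  .br 1202 (.red [.f 1202 1 3, .f 1074 3 1] 151 136 [4, 1] [(151, 136, [4, 1]), (167, 136, [4, 1,
  1])]) .no .no (.br 1075 (.br 1201 (.use 846) .no .no (.hor [.f 1193 3 5] []) .no (.use 850)) .no
  .no (.use 801) .no .no) (.use 851) (.red [.t 1081 1 4] 151 136 [4, 1] [(151, 136, [4, 1])])

def c21t853 : Tr4 :=
  .br 1075 (.use 805) (.use 630) .no (.use 618) .no .no

def c21t854 : Tr4 :=
  .br 953 .no (.use 582) .no (.br 1211 (.hor [.f 1210 1 5] []) .no (.br 946 .no (.use 807) .no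
  (.br 944 (.br 824 (.br 1216 (.use 834) .no (.br 947 (.red [.f 947 1 3, .f 1074 3 5, .t 1218 2 4,
  .f 954 3 1] 136 136 [] [(135, 136, [4]), (136, 136, []), (152, 136, [1])]) (.br 827 .no (.br 826
  .no (.hor [.f 698 1 5] []) (.red [.f 826 3 1, .f 834 1 5, .t 1098 2 4, .f 955 1 3, .t 954 2 3]
  136 136 [] [(136, 136, []), (137, 136, [3])]) (.br 825 .no (.br 833 .no (.hor [.f 704 1 5] [])
  .no .no (.br 1217 (.br 840 .no (.red [.f 704 1 3, .f 832 3 1, .f 824 1 3] 105 136 [2, 2, 3]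
  [(105, 136, [2, 2, 3]), (120, 136, [2]), (121, 136, [2, 3])]) (.br 842 .no (.use 824) (.use 808)
  .no (.br 1202 (.red [.f 1202 1 3, .f 1074 3 1] 151 136 [4, 1] [(151, 136, [4, 1]), (167, 136,
  [4, 1, 1])]) .no .no (.br 1075 (.br 1208 (.br 1201 (.use 742) .no .no (.hor [.f 1193 3 5] [])
  .no (.use 840)) .no .no (.dom 151 136 [4, 1]) .no .no) .no .no (.use 801) .no .no) (.use 845)
  (.red [.t 1081 1 4] 151 136 [4, 1] [(151, 136, [4, 1])])) .no) .no .no .no) .no (.hor [.f 1216 3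
  5] []) .no .no .no) .no) (.br 1097 (.use 852) .no (.use 727) .no .no (.red [.t 960 3 1, .t 824 1
  3, .f 833 1 3, .f 961 3 1] 121 136 [2, 3] [(120, 136, [2]), (121, 136, [2, 3])])) (.hor [.f 817
  3 5] []) .no .no) .no (.br 833 .no (.hor [.f 704 1 5] []) .no .no (.br 1097 (.use 852) .no (.use
  727) .no .no (.red [.t 960 3 1, .f 825 5 3, .t 824 1 3, .f 833 1 3] 121 136 [2, 3] [(120, 136,
  [2]), (121, 136, [2, 3]), (137, 121, [1])])) .no)) .no .no .no (.red [.t 962 4 2, .t 1098 2 4,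
  .f 955 1 3, .f 827 3 1] 136 136 [] [(136, 136, []), (137, 136, [3])])) .no (.hor [.f 938 3 5]
  []) .no .no) (.red [.f 1080 3 1, .f 1080 1 5, .t 944 1 3, .f 953 1 3, .t 1088 1 4] 136 136 []
  [(135, 136, [4]), (136, 136, [])]) (.red [.t 1080 3 1, .t 944 1 3, .f 953 1 3, .f 1081 3 1] 136
  136 [] [(135, 136, [4]), (136, 136, [])]) .no) (.con 136 [2, 4, 1, 3]) .no (.con 136 [2, 4, 1,
  3]) (.con 136 [2, 4, 1, 3]) .no) (.use 593) (.use 634) (.use 853) .no .no) (.red [.t 1082 4 2,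
  .t 1218 2 4, .f 954 3 1] 136 136 [] [(135, 136, [4]), (136, 136, []), (152, 136, [1])]) .no)
  (.use 627) .no .no) .no (.red [.t 1088 4 2, .f 953 3 5] 136 136 [] [(136, 136, [])])

def c21t855 : Tr4 :=
  .br 946 .no .no .no (.hor [.f 937 3 5] []) (.red [.t 1082 4 2, .t 1218 2 4, .f 954 3 1] 136 136
  [] [(135, 136, [4]), (136, 136, []), (152, 136, [1])]) .no

def c21t856 : Tr4 :=
  .br 945 .no (.red [.f 817 1 3, .f 817 3 5] 119 136 [2, 4] [(119, 136, [2, 4])]) .no (.use 855)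
  (.red [.t 825 1 4] 119 136 [2, 4] [(119, 136, [2, 4])]) (.con 136 [2, 4, 1, 3])

def c21t857 : Tr4 :=
  .br 944 (.con 136 [2, 4, 1, 3]) (.con 136 [2, 4, 1, 3]) (.hor [.f 944 3 5] []) (.con 136 [2, 4,
  1, 3]) .no .no

def c21t858 : Tr4 :=
  .br 953 .no .no .no (.use 857) .no (.red [.t 1088 4 2, .f 953 3 5] 136 136 [] [(136, 136, [])])

def c21t859 : Tr4 :=
  .br 824 (.hor [.f 824 1 5] []) (.con 136 [2, 4, 1, 3]) (.con 136 [2, 4, 1, 3]) (.con 136 [2, 4,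
  1, 3]) .no .no

def c21t860 : Tr4 :=
  .br 945 .no (.hor [.f 817 1 3, .f 817 3 5] [(119, 136, [2, 4])]) .no (.use 855) .no (.use 859)

def c21t861 : Tr4 :=
  .br 824 (.hor [.f 824 1 5] []) (.red [.t 825 1 4] 119 136 [2, 4] [(119, 136, [2, 4])]) (.use
  856) (.use 581) .no .no

def c21t862 : Tr4 :=
  .br 953 .no (.use 861) .no .no .no (.red [.t 1088 4 2, .f 953 3 5] 136 136 [] [(136, 136, [])])

def c21t863 : Tr4 :=
  .br 1216 (.use 834) .no (.br 1201 (.use 846) .no .no (.hor [.f 1193 3 5] []) .no (.br 1064 (.red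
  [.t 1064 1 3, .f 1073 1 3, .f 1073 3 5] 151 136 [4, 1] [(150, 136, [4, 4, 1]), (151, 136, [4,
  1])]) (.hor [.f 936 1 3, .f 1064 3 5] [(134, 136, [4, 4])]) .no (.br 1347 (.use 848) .no (.use
  849) (.hor [.f 1211 3 1, .f 1210 1 5] [(168, 136, [1, 1])]) .no (.red [.t 1210 1 3, .t 1074 3 1,
  .f 1081 1 5] 151 136 [4, 1] [(151, 136, [4, 1]), (168, 136, [1, 1])])) .no .no)) (.red [.f 1080
  3 1, .f 1080 1 5, .t 944 1 3, .f 953 1 3, .t 1088 1 4] 136 136 [] [(135, 136, [4]), (136, 136,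
  [])]) (.red [.t 1080 3 1, .t 944 1 3, .f 953 1 3, .f 1081 3 1] 136 136 [] [(135, 136, [4]),
  (136, 136, [])]) .no

def c21t864 : Tr4 :=
  .br 824 (.hor [.t 945 3 2, .f 824 1 5] [(119, 136, [2, 4])]) (.con 136 [2, 4, 1, 3]) .no (.con
  136 [2, 4, 1, 3]) .no .no

def c21l33 : List Tr4 :=
  [c21t834, c21t835, c21t836, c21t837, c21t838, c21t839, c21t840, c21t841, c21t842, c21t843,
  c21t844, c21t845, c21t846, c21t847, c21t848, c21t849, c21t850, c21t851, c21t852, c21t853,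
  c21t854, c21t855, c21t856, c21t857, c21t858, c21t859, c21t860, c21t861, c21t862, c21t863,
  c21t864]

theorem c21k33 : chkLF ⟨4, 0, 0, true, -8⟩ false 1 c21N 834 c21l33 = true := by decide +kernel

def c21t865 : Tr4 :=
  .br 1202 (.red [.f 1202 1 3, .f 1074 3 1] 151 136 [4, 1] [(151, 136, [4, 1]), (167, 136, [4, 1,
  1])]) .no .no (.br 832 .no (.br 833 .no (.hor [.f 704 1 5] []) (.use 71) .no (.br 953 .no .no
  .no (.br 944 (.br 824 (.br 946 .no (.hor [.f 825 5 3, .f 825 3 5, .t 945 3 2, .f 824 1 5] [(119,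
  121, [4, 4])]) .no (.use 863) (.red [.t 1082 4 2, .t 1218 2 4, .f 954 3 1] 136 136 [] [(135,
  136, [4]), (136, 136, []), (152, 136, [1])]) .no) (.con 136 [2, 4, 1, 3]) .no (.con 136 [2, 4,
  1, 3]) .no .no) (.use 593) (.hor [.f 944 3 5] []) (.use 804) .no .no) .no (.red [.t 1088 4 2, .f
  953 3 5] 136 136 [] [(136, 136, [])])) .no) (.red [.f 832 3 1] 121 136 [2, 3] [(121, 136, [2,
  3])]) (.use 858) (.br 953 .no .no .no (.br 944 (.br 946 .no (.use 864) .no (.use 863) (.red [.t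
  1082 4 2, .t 1218 2 4, .f 954 3 1] 136 136 [] [(135, 136, [4]), (136, 136, []), (152, 136,
  [1])]) .no) (.use 593) (.hor [.f 944 3 5] []) (.use 804) .no .no) .no (.red [.t 1088 4 2, .f 953
  3 5] 136 136 [] [(136, 136, [])])) .no) .no (.red [.t 1081 1 4, .f 1074 1 5] 151 136 [4, 1]
  [(151, 136, [4, 1])])

def c21t866 : Tr4 :=
  .br 841 .no .no (.red [.f 841 3 1] 122 136 [2, 3, 3] [(122, 136, [2, 3, 3])]) .no .no (.red [.t
  704 1 3, .f 832 3 1] 121 136 [2, 3] [(105, 136, [2, 2, 3]), (121, 136, [2, 3])])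

def c21t867 : Tr4 :=
  .br 953 .no (.use 721) .no (.br 944 (.br 824 (.br 825 .no (.hor [.f 697 1 5] []) (.br 832 .no
  (.br 1208 (.br 834 .no (.hor [.f 698 1 3, .f 825 3 5] [(104, 105, [4])]) (.br 1217 (.br 1202
  (.red [.f 1202 1 3, .f 1074 3 1] 151 136 [4, 1] [(151, 136, [4, 1]), (167, 136, [4, 1, 1])]) .no
  .no (.br 946 .no (.br 1216 (.hor [.f 1216 1 5] []) .no (.br 1201 (.use 742) .no .no (.hor [.f
  1193 3 5] []) .no (.br 705 .no (.br 817 .no (.br 697 .no (.br 939 (.con 136 [2, 4, 4, 1, 3, 3])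
  (.con 136 [2, 4, 4, 1, 3, 3]) (.use 800) (.con 136 [2, 4, 4, 1, 3, 3]) .no (.con 136 [2, 4, 4,
  1, 3, 3])) .no .no .no (.hor [.t 832 2 4, .f 697 1 5] [(104, 121, [2, 4])])) .no (.br 1064 (.red
  [.t 1064 1 3, .f 1073 1 3, .f 1073 3 5] 151 136 [4, 1] [(150, 136, [4, 4, 1]), (151, 136, [4,
  1])]) (.hor [.f 936 1 3, .f 1064 3 5] [(134, 136, [4, 4])]) .no (.br 1067 (.use 792) (.con 136
  [2, 4, 4, 1, 3, 3]) .no (.use 793) .no (.br 939 .no (.con 136 [2, 4, 4, 1, 3, 3]) (.use 795)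
  (.con 136 [2, 4, 4, 1, 3, 3]) .no (.con 136 [2, 4, 4, 1, 3, 3]))) .no .no) .no (.hor [.t 952 2
  4, .f 817 1 5] [(119, 121, [4, 4])])) (.use 866) (.hor [.f 697 3 1, .f 697 1 5] [(104, 121, [2,
  4])]) (.hor [.t 825 3 2, .f 704 1 5] [(104, 121, [2, 4])]) .no)) .no .no .no) .no (.use 863)
  (.red [.t 1082 4 2, .t 1218 2 4, .f 954 3 1] 136 136 [] [(135, 136, [4]), (136, 136, []), (152,
  136, [1])]) .no) .no (.red [.t 1081 1 4, .f 1074 1 5] 151 136 [4, 1] [(151, 136, [4, 1])])) .no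
  .no .no .no (.red [.t 1080 3 1, .t 944 1 3, .f 953 1 3, .f 1081 3 1] 136 136 [] [(135, 136,
  [4]), (136, 136, [])])) .no .no .no) .no (.red [.f 1080 3 1, .f 1080 1 5, .t 944 1 3, .f 953 1
  3, .t 1088 1 4] 136 136 [] [(135, 136, [4]), (136, 136, [])]) (.dom 151 136 [4, 1]) .no .no)
  (.red [.f 832 3 1] 121 136 [2, 3] [(121, 136, [2, 3])]) .no .no .no) (.hor [.f 817 3 1, .f 824 1
  5] [(119, 103, [1])]) .no .no) (.con 136 [2, 4, 1, 3]) (.con 136 [2, 4, 1, 3]) (.con 136 [2, 4,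
  1, 3]) (.con 136 [2, 4, 1, 3]) .no) (.use 593) (.hor [.f 944 3 5] []) (.use 805) .no .no) .no
  (.red [.t 1088 4 2, .f 953 3 5] 136 136 [] [(136, 136, [])])

def c21t868 : Tr4 :=
  .br 945 .no .no (.hor [.f 817 3 1, .f 824 1 5] [(119, 136, [2, 4])]) (.con 136 [4, 2, 3, 1])
  (.con 136 [4, 2, 3, 1]) (.con 136 [4, 2, 3, 1])

def c21t869 : Tr4 :=
  .br 952 .no (.br 825 (.hor [.f 824 1 5] []) (.hor [.f 697 1 5] []) (.br 832 .no (.br 945 .no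
  (.con 136 [4, 2, 3, 3]) (.br 944 (.br 946 .no (.br 834 .no (.hor [.f 698 1 3, .f 825 3 5] [(104,
  105, [4])]) (.br 705 .no (.br 1217 (.br 1216 (.hor [.f 1216 1 5] []) .no (.br 827 .no (.hor [.f
  698 1 5] []) .no (.br 947 .no .no .no (.br 938 (.hor [.f 939 3 1, .f 938 1 5] [(134, 150, [2])])
  (.hor [.f 810 1 3, .f 938 3 5] [(118, 136, [2, 4, 4])]) .no (.use 775) .no (.br 817 .no (.br 697
  .no (.br 1339 (.br 1066 (.red [.t 1066 1 3] 150 136 [4, 4, 1] [(150, 136, [4, 4, 1])]) .no .no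
  (.br 1201 (.use 841) .no .no (.red [.f 1065 3 1, .f 1073 1 3] 151 136 [4, 1] [(150, 136, [4, 4,
  1]), (151, 136, [4, 1])]) .no (.br 1064 (.red [.t 1064 1 3, .f 1073 1 3, .f 1073 3 5] 151 136
  [4, 1] [(150, 136, [4, 4, 1]), (151, 136, [4, 1])]) (.hor [.f 936 1 3, .f 1064 3 5] [(134, 150,
  [2])]) .no (.br 936 .no (.use 798) .no (.hor [.f 928 3 1, .f 936 1 3, .f 1064 3 5] [(133, 149,
  [2]), (134, 150, [2])]) .no .no) .no .no)) .no .no) .no (.hor [.f 1211 3 1, .f 1210 1 5] [(168,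
  136, [1, 1])]) (.red [.t 1338 2 4, .f 1074 3 1, .f 1081 1 5] 151 136 [4, 1] [(151, 136, [4, 1]),
  (167, 136, [4, 1, 1])]) .no .no) .no .no .no (.hor [.t 832 2 4, .f 697 1 5] [(104, 121, [2,
  4])])) .no (.use 773) .no (.hor [.t 952 2 4, .f 817 1 5] [(119, 121, [4, 4])]))) .no .no) .no
  .no) (.red [.f 1080 3 1, .f 1080 1 5, .t 944 1 3, .f 953 1 3, .t 1088 1 4] 136 136 [] [(135,
  136, [4]), (136, 136, [])]) .no .no) .no .no .no .no (.red [.t 1080 3 1, .t 944 1 3, .f 953 1 3,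
  .f 1081 3 1] 136 136 [] [(135, 136, [4]), (136, 136, [])])) (.use 866) (.hor [.f 697 3 1, .f 697
  1 5] [(104, 121, [2, 4])]) (.hor [.t 825 3 2, .f 704 1 5] [(104, 121, [2, 4])]) .no) .no .no
  .no) .no (.br 827 .no (.hor [.f 698 1 5] []) .no (.br 939 .no (.con 136 [2, 4, 4, 1, 1]) (.hor
  [.f 938 3 5] []) (.con 136 [2, 4, 4, 1, 1]) .no .no) .no .no) (.red [.t 1082 4 2, .t 1218 2 4,
  .f 954 3 1] 136 136 [] [(135, 136, [4]), (136, 136, []), (152, 136, [1])]) .no) (.use 593) .no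
  (.use 618) .no .no) (.con 136 [4, 2, 3, 3]) (.con 136 [4, 2, 3, 3]) (.con 136 [4, 2, 3, 3]))
  (.red [.f 832 3 1] 121 136 [2, 3] [(121, 136, [2, 3])]) .no .no .no) (.use 868) .no .no) .no
  (.use 658) (.red [.t 1088 4 2, .f 953 3 5] 136 136 [] [(136, 136, [])]) .no

def c21t870 : Tr4 :=
  .br 944 (.br 1216 (.use 834) .no (.br 1202 (.red [.f 1202 1 3, .f 1074 3 1] 151 136 [4, 1]
  [(151, 136, [4, 1]), (167, 136, [4, 1, 1])]) .no .no (.use 801) (.br 947 .no (.use 851) .no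
  (.hor [.f 938 3 5] []) .no .no) (.red [.t 1081 1 4] 151 136 [4, 1] [(151, 136, [4, 1])])) (.red
  [.f 1080 3 1, .f 1080 1 5, .t 944 1 3, .f 953 1 3, .t 1088 1 4] 136 136 [] [(135, 136, [4]),
  (136, 136, [])]) (.red [.t 1080 3 1, .t 944 1 3, .f 953 1 3, .f 1081 3 1] 136 136 [] [(135, 136,
  [4]), (136, 136, [])]) .no) (.use 593) (.use 658) (.use 618) .no .no

def c21t871 : Tr4 :=
  .br 1075 (.br 827 .no (.br 826 .no (.hor [.f 698 1 5] []) (.red [.f 826 3 1, .f 834 1 5, .t 1098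
  2 4, .f 955 1 3, .t 954 2 3] 136 136 [] [(136, 136, []), (137, 136, [3])]) (.br 1202 (.red [.f
  1202 1 3, .f 1074 3 1] 151 136 [4, 1] [(151, 136, [4, 1]), (167, 136, [4, 1, 1])]) .no .no (.br
  946 .no .no .no (.br 953 .no (.use 860) .no (.br 944 (.br 1216 (.use 834) .no (.br 824 (.br 1201
  (.use 846) .no .no (.hor [.f 1193 3 5] []) .no (.br 819 (.use 850) (.hor [.f 691 1 3, .f 818 3
  5] [(103, 121, [4, 2, 4])]) .no (.br 947 .no .no .no (.hor [.f 938 3 5] []) .no .no) .no .no))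
  (.con 136 [2, 4, 1, 3]) (.con 136 [2, 4, 1, 3]) (.con 136 [2, 4, 1, 3]) (.con 136 [2, 4, 1, 3])
  .no) (.red [.f 1080 3 1, .f 1080 1 5, .t 944 1 3, .f 953 1 3, .t 1088 1 4] 136 136 [] [(135,
  136, [4]), (136, 136, [])]) (.red [.t 1080 3 1, .t 944 1 3, .f 953 1 3, .f 1081 3 1] 136 136 []
  [(135, 136, [4]), (136, 136, [])]) .no) (.use 593) (.hor [.f 944 3 5] []) (.use 804) .no .no)
  .no (.red [.t 1088 4 2, .f 953 3 5] 136 136 [] [(136, 136, [])])) (.red [.t 1082 4 2, .t 1218 2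
  4, .f 954 3 1] 136 136 [] [(135, 136, [4]), (136, 136, []), (152, 136, [1])]) (.use 862)) .no
  (.red [.t 1081 1 4, .f 1074 1 5] 151 136 [4, 1] [(151, 136, [4, 1])])) .no (.use 865)) .no (.br
  826 .no (.use 867) (.red [.f 826 3 1, .f 834 1 5, .t 1098 2 4, .f 955 1 3, .t 954 2 3] 136 136
  [] [(136, 136, []), (137, 136, [3])]) (.hor [.f 818 3 5] []) .no (.use 865)) .no (.red [.t 962 4
  2, .t 1098 2 4, .f 955 1 3, .f 827 3 1] 136 136 [] [(136, 136, []), (137, 136, [3])])) (.red [.f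
  947 1 3, .f 1074 3 5, .t 1218 2 4, .f 954 3 1] 136 136 [] [(135, 136, [4]), (136, 136, []),
  (152, 136, [1])]) .no (.br 826 .no (.br 1202 (.red [.f 1202 1 3, .f 1074 3 1] 151 136 [4, 1]
  [(151, 136, [4, 1]), (167, 136, [4, 1, 1])]) .no .no (.use 801) (.use 869) (.red [.t 1081 1 4]
  151 136 [4, 1] [(151, 136, [4, 1])])) (.red [.f 826 3 1, .f 834 1 5, .t 1098 2 4, .f 955 1 3, .t
  954 2 3] 136 136 [] [(136, 136, []), (137, 136, [3])]) (.br 946 .no .no .no (.br 953 .no (.use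
  860) .no (.use 870) .no (.red [.t 1088 4 2, .f 953 3 5] 136 136 [] [(136, 136, [])])) (.red [.t
  1082 4 2, .t 1218 2 4, .f 954 3 1] 136 136 [] [(135, 136, [4]), (136, 136, []), (152, 136,
  [1])]) (.use 862)) (.red [.t 962 4 2, .t 1098 2 4, .f 955 1 3, .f 827 3 1] 136 136 [] [(136,
  136, []), (137, 136, [3])]) (.br 952 .no (.br 945 .no (.con 136 [4, 2, 3, 3]) (.br 946 .no (.hor
  [.t 945 3 2, .f 824 1 5] [(119, 121, [4, 4])]) .no (.use 870) (.red [.t 1082 4 2, .t 1218 2 4,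
  .f 954 3 1] 136 136 [] [(135, 136, [4]), (136, 136, []), (152, 136, [1])]) .no) (.con 136 [4, 2,
  3, 3]) (.con 136 [4, 2, 3, 3]) (.con 136 [4, 2, 3, 3])) .no (.use 658) (.red [.t 1088 4 2, .f
  953 3 5] 136 136 [] [(136, 136, [])]) .no)) .no .no

def c21t872 : Tr4 :=
  .br 824 (.hor [.f 824 1 5] []) (.con 136 [2, 4, 1, 3]) (.con 136 [2, 4, 1, 3]) (.con 136 [2, 4,
  1, 3]) .no .no

def c21t873 : Tr4 :=
  .br 944 (.use 872) (.use 717) (.use 725) (.use 718) (.use 859) .no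

def c21t874 : Tr4 :=
  .br 944 (.use 872) (.use 717) (.br 945 .no (.red [.f 817 1 3, .f 817 3 5] 119 136 [2, 4] [(119,
  136, [2, 4])]) .no (.br 946 .no .no .no (.hor [.f 937 3 5] []) (.red [.t 1082 4 2, .f 937 3 1,
  .f 945 1 5, .t 825 1 4] 119 136 [2, 4] [(119, 136, [2, 4]), (134, 118, [1]), (135, 119, [1])])
  .no) (.red [.t 825 1 4, .f 944 3 5] 119 136 [2, 4] [(119, 136, [2, 4])]) .no) (.use 718) (.use
  859) .no

def c21t875 : Tr4 :=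
  .br 1217 (.br 947 (.red [.f 947 1 3, .f 1074 3 5, .t 1218 2 4, .f 954 3 1] 136 136 [] [(135,
  136, [4]), (136, 136, []), (152, 136, [1])]) (.br 1202 (.red [.f 1202 1 3, .f 1074 3 1] 151 136
  [4, 1] [(151, 136, [4, 1]), (167, 136, [4, 1, 1])]) .no .no (.br 1075 (.br 1201 (.use 846) .no
  .no (.hor [.f 1193 3 5] []) .no (.br 1064 (.red [.t 1064 1 3, .f 1073 1 3, .f 1073 3 5] 151 136
  [4, 1] [(150, 136, [4, 4, 1]), (151, 136, [4, 1])]) (.hor [.f 936 1 3, .f 1064 3 5] [(134, 136,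
  [4, 4])]) .no (.br 1208 (.br 1347 (.use 847) .no (.use 836) (.hor [.f 1211 3 1, .f 1210 1 5]
  [(168, 167, [3])]) .no (.red [.t 1210 1 3, .t 1074 3 1, .f 1081 1 5] 151 136 [4, 1] [(151, 136,
  [4, 1]), (168, 167, [3])])) .no .no .no .no .no) .no .no)) .no .no (.use 801) .no .no) (.use
  845) (.red [.t 1081 1 4] 151 136 [4, 1] [(151, 136, [4, 1])])) .no (.hor [.f 938 3 5] []) .no
  .no) .no (.hor [.f 1216 3 5] []) .no .no .no

def c21t876 : Tr4 :=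
  .br 969 (.hor [.f 969 1 5] []) (.br 832 .no (.use 854) (.red [.f 832 3 1, .f 840 1 5] 121 136
  [2, 3] [(121, 136, [2, 3])]) (.br 1211 (.hor [.f 1210 1 5] []) .no (.br 833 .no (.br 834 .no
  (.hor [.f 705 1 5] []) (.br 827 .no (.br 826 .no (.hor [.f 698 1 5] []) .no (.br 825 (.use 856)
  (.red [.f 697 1 3] 104 136 [2, 2] [(104, 136, [2, 2])]) .no (.hor [.f 817 3 5] []) .no .no) .no
  (.use 858)) .no (.br 826 .no (.br 825 (.con 136 [2, 2, 4]) (.hor [.f 697 1 5] []) .no (.con 136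
  [2, 2, 4]) .no .no) .no (.hor [.f 818 3 5] []) .no (.use 858)) .no (.red [.t 962 4 2, .t 1098 2
  4, .f 834 3 1] 121 136 [2, 3] [(120, 104, [1]), (121, 136, [2, 3]), (137, 136, [3])])) (.con 136
  [2, 2]) .no .no) .no (.hor [.f 824 3 5] []) (.br 953 .no (.red [.t 953 2 3, .f 824 3 5, .t 968 4
  2] 121 136 [2, 3] [(120, 104, [1]), (121, 136, [2, 3])]) .no (.use 857) .no (.red [.t 1088 4 2,
  .f 953 3 5] 136 136 [] [(136, 136, [])])) .no) (.use 627) .no .no) (.red [.t 968 4 2] 121 136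
  [2, 3] [(121, 136, [2, 3])]) .no) (.br 1097 (.br 1211 (.hor [.f 1210 1 5] []) .no (.use 871)
  (.use 627) .no .no) .no (.hor [.f 969 3 1, .f 969 1 5] [(138, 122, [1])]) .no .no (.br 953 .no
  (.br 826 .no (.use 873) (.red [.f 826 3 1, .f 834 1 5, .t 1098 2 4, .f 955 1 3, .t 954 2 3] 136
  136 [] [(136, 136, []), (137, 136, [3])]) (.use 874) (.red [.t 962 4 2, .t 1098 2 4, .f 955 1 3,
  .f 827 3 1] 136 136 [] [(136, 136, []), (137, 136, [3])]) .no) .no (.br 944 (.br 824 (.br 832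
  .no (.br 833 .no (.hor [.f 704 1 5] []) (.use 71) (.red [.t 960 3 1, .t 824 1 3, .f 952 3 1, .f
  960 1 3] 136 136 [] [(120, 136, [2]), (136, 136, [])]) (.br 825 .no (.br 826 .no (.hor [.f 697 1
  5] []) .no (.br 1211 (.hor [.f 1210 1 5] []) .no (.br 946 .no .no .no (.br 1216 (.use 834) .no
  (.use 875) (.red [.f 1080 3 1, .f 1080 1 5, .t 944 1 3, .f 953 1 3, .t 1088 1 4] 136 136 []
  [(135, 136, [4]), (136, 136, [])]) (.red [.t 1080 3 1, .t 944 1 3, .f 953 1 3, .f 1081 3 1] 136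
  136 [] [(135, 136, [4]), (136, 136, [])]) .no) (.red [.t 1082 4 2, .t 1218 2 4, .f 954 3 1] 136
  136 [] [(135, 136, [4]), (136, 136, []), (152, 136, [1])]) .no) (.use 627) .no .no) (.red [.t
  962 4 2, .t 1098 2 4, .f 955 1 3, .f 827 3 1] 136 136 [] [(136, 136, []), (137, 136, [3])]) .no)
  .no (.use 868) (.red [.t 960 3 1, .f 825 5 3, .t 824 1 3, .f 952 3 1, .f 960 1 3] 136 136 []
  [(120, 136, [2]), (136, 136, [])]) .no) .no) (.red [.f 832 3 1] 121 136 [2, 3] [(121, 136, [2,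
  3])]) .no (.red [.t 960 3 1, .f 832 5 1, .f 824 1 3, .f 952 3 1, .f 960 1 3] 136 136 [] [(120,
  136, [2]), (136, 136, [])]) .no) (.con 136 [2, 4, 1, 3]) (.con 136 [2, 4, 1, 3]) (.con 136 [2,
  4, 1, 3]) (.con 136 [2, 4, 1, 3]) .no) (.use 593) (.hor [.f 944 3 5] []) (.use 853) .no .no) .no
  (.red [.t 1088 4 2, .f 953 3 5] 136 136 [] [(136, 136, [])]))) .no .no .no

def c21t877 : Tr4 :=
  .br 1202 (.red [.f 1202 1 3, .f 1074 3 1] 151 136 [4, 1] [(151, 136, [4, 1]), (167, 136, [4, 1,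
  1])]) .no .no (.br 1201 (.br 1072 (.con 136 [4, 4, 1, 1]) .no .no (.hor [.f 1064 3 5] []) .no
  .no) .no .no (.hor [.f 1193 3 5] []) .no (.br 1064 (.con 136 [4, 4, 1, 3]) (.con 136 [4, 4, 1,
  3]) (.hor [.f 1064 3 5] []) (.con 136 [4, 4, 1, 3]) .no .no)) .no (.red [.t 1081 1 4, .f 1074 1
  5] 151 136 [4, 1] [(151, 136, [4, 1])])

def c21l34 : List Tr4 :=
  [c21t865, c21t866, c21t867, c21t868, c21t869, c21t870, c21t871, c21t872, c21t873, c21t874,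
  c21t875, c21t876, c21t877]

theorem c21k34 : chkLF ⟨4, 0, 0, true, -8⟩ false 1 c21N 865 c21l34 = true := by decide +kernel

end Pool.Agent.FT4D
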