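import Pool.Agent.FT4D.Tab_c21

/-!
# Four levels: decision trees (found by a computer search)
-/

namespace Pool.Agent.FT4D

def c21t878 : Tr4 :=
  .br 944 (.use 872) (.use 717) (.use 877) (.use 718) (.use 859) .no

def c21t879 : Tr4 :=
  .br 1345 (.br 1346 (.hor [.f 1345 1 5] []) .no .no .no (.red [.t 1210 1 3, .t 1074 3 1, .f 1081
  1 5] 151 136 [4, 1] [(151, 136, [4, 1]), (168, 167, [3])]) .no) .no (.hor [.f 1208 1 3, .f 1208
  3 1, .f 1217 3 1, .f 1216 1 5] [(169, 136, [1, 3, 1])]) (.hor [.f 1208 1 3, .f 1336 3 5] [(168,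
  167, [3])]) (.hor [.f 1208 1 3, .f 1208 3 1, .t 1225 4 1, .f 1216 1 5] [(169, 136, [1, 3, 1])])
  .no

def c21t880 : Tr4 :=
  .br 1217 (.hor [.f 1216 1 5] []) .no (.br 1098 (.hor [.f 1090 1 3, .f 1090 3 5] [(153, 136, [3,
  1])]) .no (.br 1097 .no .no (.hor [.f 1097 3 5] []) .no .no (.br 1226 (.use 879) .no (.hor [.f
  1098 3 1, .f 1090 1 3, .f 1090 3 5] [(153, 136, [3, 1]), (154, 136, [3, 3, 1])]) .no (.hor [.t
  1090 1 3, .f 1217 3 5] [(153, 136, [3, 1])]) .no)) .no .no (.hor [.t 1217 3 2, .f 1090 3 5]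
  [(153, 136, [3, 1])])) .no .no .no

def c21t881 : Tr4 :=
  .br 819 (.hor [.f 818 1 5] []) (.con 136 [4, 2, 4, 1, 3, 3]) .no (.con 136 [4, 2, 4, 1, 3, 3])
  .no .no

def c21t882 : Tr4 :=
  .br 947 .no (.hor [.f 818 1 5] []) .no (.hor [.t 817 4 1, .f 938 3 5] [(118, 136, [4, 2, 4])])
  .no .no

def c21t883 : Tr4 :=
  .br 1217 (.br 1201 (.use 742) .no .no (.hor [.f 1193 3 5] []) .no (.br 1064 (.red [.t 1064 1 3,
  .f 1073 1 3, .f 1073 3 5] 151 136 [4, 1] [(150, 136, [4, 4, 1]), (151, 136, [4, 1])]) (.hor [.f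
  936 1 3, .f 1064 3 5] [(134, 136, [4, 4])]) .no (.br 937 .no .no .no (.br 1067 (.use 792) (.use
  881) .no (.use 793) .no (.br 947 .no (.hor [.f 818 1 5] []) .no (.br 938 .no (.hor [.f 810 1 3,
  .f 809 3 5] [(118, 136, [4, 2, 4])]) .no (.use 757) .no .no) .no .no)) (.use 882) (.red [.t 1072
  2 4, .f 1072 5 1, .f 1073 1 3] 151 136 [4, 1] [(134, 135, [4]), (151, 136, [4, 1])])) .no .no))
  .no (.hor [.f 1216 3 5] []) .no .no .no

def c21t884 : Tr4 :=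
  .br 1216 (.use 880) .no (.use 883) .no (.red [.t 1080 3 1, .t 944 1 3, .f 953 1 3, .f 1081 3 1]
  136 136 [] [(135, 136, [4]), (136, 136, [])]) .no

def c21t885 : Tr4 :=
  .br 841 .no .no (.br 840 .no (.red [.t 712 1 4, .f 697 1 3] 105 136 [2, 2, 3] [(104, 136, [2,
  2]), (105, 136, [2, 2, 3])]) (.hor [.f 840 3 5] []) .no .no .no) .no (.red [.f 841 5 1, .t 968 4
  2] 121 136 [2, 3] [(121, 136, [2, 3])]) (.red [.f 832 5 3, .f 832 3 1] 121 136 [2, 3] [(121,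
  136, [2, 3])])

def c21t886 : Tr4 :=
  .br 705 .no (.hor [.f 577 1 5] []) (.use 885) .no .no (.red [.f 704 5 1, .f 697 1 3] 104 136 [2,
  2] [(104, 136, [2, 2])])

def c21t887 : Tr4 :=
  .br 705 .no (.br 704 .no (.hor [.f 576 1 5] []) (.con 136 [2, 2, 2, 3]) (.red [.t 696 3 1, .f
  825 3 5] 104 136 [2, 2] [(104, 136, [2, 2])]) .no .no) (.use 885) .no .no (.red [.f 704 5 1, .f
  697 1 3] 104 136 [2, 2] [(104, 136, [2, 2])])

def c21t888 : Tr4 :=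
  .br 938 .no (.hor [.f 810 1 3, .f 809 3 5] [(118, 136, [4, 2, 4])]) .no (.use 757) .no (.use
  882)

def c21t889 : Tr4 :=
  .br 826 .no (.br 827 .no (.hor [.f 698 1 5] []) .no (.br 1201 (.use 742) .no .no (.hor [.f 1193
  3 5] []) .no (.br 705 .no (.br 1064 (.red [.t 1064 1 3, .f 1073 1 3, .f 1073 3 5] 151 136 [4, 1]
  [(150, 136, [4, 4, 1]), (151, 136, [4, 1])]) (.hor [.f 936 1 3, .f 1064 3 5] [(134, 136, [4,
  4])]) .no (.br 1067 (.use 792) (.con 136 [2, 4, 4, 1, 3, 3]) .no (.use 793) .no (.br 939 .no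
  (.con 136 [2, 4, 4, 1, 3, 3]) (.br 817 .no (.br 697 .no (.use 799) .no .no .no (.hor [.t 832 2
  4, .f 697 1 5] [(104, 121, [4, 2])])) .no (.use 888) .no (.hor [.t 952 2 4, .f 817 1 5] [(119,
  121, [4, 4])])) (.con 136 [2, 4, 4, 1, 3, 3]) .no (.con 136 [2, 4, 4, 1, 3, 3]))) .no .no) (.br
  1064 (.red [.t 1064 1 3, .f 1073 1 3, .f 1073 3 5] 151 136 [4, 1] [(150, 136, [4, 4, 1]), (151,
  136, [4, 1])]) (.hor [.f 936 1 3, .f 1064 3 5] [(134, 136, [4, 4])]) .no (.br 1067 (.use 792)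
  (.con 136 [2, 4, 4, 1, 3, 3]) .no (.use 793) .no (.br 939 .no (.con 136 [2, 4, 4, 1, 3, 3]) (.br
  817 .no (.br 697 .no (.use 799) .no .no .no (.hor [.t 832 2 4, .f 697 1 5] [(104, 121, [4,
  2])])) .no (.use 888) .no (.hor [.t 952 2 4, .f 817 1 5] [(119, 121, [4, 4])])) (.con 136 [2, 4,
  4, 1, 3, 3]) .no (.con 136 [2, 4, 4, 1, 3, 3]))) .no .no) (.hor [.f 697 3 1, .f 697 1 5] [(104,
  121, [4, 2])]) (.hor [.t 825 3 2, .f 704 1 5] [(104, 121, [4, 2])]) .no)) .no .no) (.hor [.f 825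
  3 5] []) .no (.br 1201 (.use 742) .no .no (.hor [.f 1193 3 5] []) .no (.br 1064 (.red [.t 1064 1
  3, .f 1073 1 3, .f 1073 3 5] 151 136 [4, 1] [(150, 136, [4, 4, 1]), (151, 136, [4, 1])]) (.hor
  [.f 936 1 3, .f 1064 3 5] [(134, 136, [4, 4])]) .no (.br 1067 (.use 792) (.use 881) .no (.use
  793) .no (.br 1347 (.use 797) .no (.br 1192 (.br 1339 (.br 1337 (.br 1329 (.red [.f 1329 1 3]
  183 136 [4, 1, 1, 1] [(183, 136, [4, 1, 1, 1])]) .no .no (.use 745) (.use 835) (.red [.f 1200 5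
  1, .f 1200 1 3] 167 136 [4, 1, 1] [(167, 136, [4, 1, 1])])) .no .no (.red [.t 1336 2 4] 167 136
  [4, 1, 1] [(167, 136, [4, 1, 1])]) .no .no) .no .no (.red [.t 1202 4 2, .t 1338 2 4, .f 1074 3
  1] 151 136 [4, 1] [(150, 151, [4]), (151, 136, [4, 1]), (167, 136, [4, 1, 1])]) .no .no) .no .no
  (.red [.f 1056 3 1, .t 1064 1 3, .f 1073 1 3] 151 136 [4, 1] [(149, 136, [4, 4, 4, 1]), (150,
  136, [4, 4, 1]), (151, 136, [4, 1])]) (.red [.f 1192 5 3, .f 1065 3 1, .f 1073 1 3] 151 136 [4,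
  1] [(150, 136, [4, 4, 1]), (151, 136, [4, 1])]) .no) (.hor [.f 1211 3 1, .f 1210 1 5] [(168,
  167, [3])]) .no (.red [.t 1210 1 3, .t 1074 3 1, .f 1081 1 5] 151 136 [4, 1] [(151, 136, [4,
  1]), (168, 167, [3])]))) .no .no)) .no

def c21t890 : Tr4 :=
  .br 1217 (.use 889) .no (.hor [.f 1216 3 5] []) .no .no .no

def c21t891 : Tr4 :=
  .br 944 (.br 824 (.br 1208 (.br 1202 (.red [.f 1202 1 3, .f 1074 3 1] 151 136 [4, 1] [(151, 136,
  [4, 1]), (167, 136, [4, 1, 1])]) .no .no (.br 946 .no (.br 825 .no (.br 817 .no (.red [.f 689 1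
  3, .f 817 3 1, .f 824 1 5, .t 1088 4 2] 136 136 [] [(103, 121, [4, 4, 2]), (119, 120, [4]),
  (136, 136, [])]) .no (.br 832 .no (.br 833 .no (.hor [.f 704 1 5] []) (.use 71) .no (.br 826 .no
  (.hor [.f 697 1 5] []) .no .no (.use 884) .no) .no) (.red [.f 832 3 1] 121 136 [2, 3] [(121,
  136, [2, 3])]) .no (.br 826 .no (.hor [.f 697 1 5] []) (.br 706 .no (.use 886) (.use 887) (.red
  [.f 698 3 1, .f 697 1 5] 104 136 [2, 2] [(104, 136, [2, 2])]) (.br 827 .no (.red [.t 826 3 2]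
  104 136 [2, 2] [(104, 136, [2, 2])]) .no (.br 705 .no (.br 704 .no (.hor [.f 576 1 5] []) (.con
  136 [2, 2, 2, 3]) (.red [.t 696 3 1, .f 825 3 5] 104 136 [2, 2] [(104, 136, [2, 2])]) .no .no)
  (.use 885) .no .no (.red [.f 704 5 1, .f 697 1 3] 104 136 [2, 2] [(104, 136, [2, 2])])) .no .no)
  (.red [.t 825 2 3] 104 136 [2, 2] [(104, 136, [2, 2])])) .no (.use 884) .no) .no) .no (.hor [.t
  952 2 4, .f 817 1 5] [(119, 121, [4, 4])])) (.br 832 .no (.br 1216 (.use 880) .no (.use 890) .no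
  (.red [.t 1080 3 1, .t 944 1 3, .f 953 1 3, .f 1081 3 1] 136 136 [] [(135, 136, [4]), (136, 136,
  [])]) .no) (.red [.f 832 3 1] 121 136 [2, 3] [(121, 136, [2, 3])]) .no .no .no) (.use 868) (.hor
  [.t 945 3 2, .f 824 1 5] [(119, 121, [4, 4])]) .no) .no (.br 1216 (.use 880) .no (.use 875) .no
  (.red [.t 1080 3 1, .t 944 1 3, .f 953 1 3, .f 1081 3 1] 136 136 [] [(135, 136, [4]), (136, 136,
  [])]) .no) (.red [.t 1082 4 2, .t 1218 2 4, .f 954 3 1] 136 136 [] [(135, 136, [4]), (136, 136,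
  []), (152, 136, [1])]) .no) .no (.red [.t 1081 1 4, .f 1074 1 5] 151 136 [4, 1] [(151, 136, [4,
  1])])) .no (.red [.f 1080 3 1, .f 1080 1 5, .t 944 1 3, .f 953 1 3, .t 1088 1 4] 136 136 []
  [(135, 136, [4]), (136, 136, [])]) (.dom 151 136 [4, 1]) .no .no) (.con 136 [2, 4, 1, 3]) (.con
  136 [2, 4, 1, 3]) (.con 136 [2, 4, 1, 3]) (.con 136 [2, 4, 1, 3]) .no) (.use 593) (.use 877)
  (.use 805) .no .no

def c21t892 : Tr4 :=
  .br 944 (.use 872) (.use 717) (.use 658) (.use 718) (.use 859) .no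

def c21t893 : Tr4 :=
  .br 817 .no (.red [.f 689 1 3, .f 817 3 1, .f 824 1 5, .t 1088 4 2] 136 136 [] [(103, 136, [2,
  4, 2]), (119, 120, [4]), (136, 136, [])]) .no (.br 947 .no (.hor [.f 818 1 5] []) .no (.br 938
  (.hor [.f 939 3 1, .f 938 1 5] [(134, 150, [2])]) (.hor [.f 810 1 3, .f 809 3 5] [(118, 136, [2,
  4, 4])]) .no (.use 772) .no (.hor [.t 817 4 1, .f 938 3 5] [(118, 136, [2, 4, 4])])) .no .no)
  .no (.hor [.t 952 2 4, .f 817 1 5] [(119, 136, [2, 4])])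

def c21t894 : Tr4 :=
  .br 1339 (.br 1346 (.br 1345 (.hor [.f 1345 1 5] []) .no (.hor [.f 1217 3 1, .f 1216 1 5] [(169,
  136, [1, 3, 1])]) (.br 1208 (.hor [.f 1208 1 3, .f 1336 3 5] [(168, 167, [3])]) .no .no (.br
  1201 (.use 831) .no .no (.red [.f 1065 3 1, .f 1073 1 3] 151 136 [4, 1] [(150, 136, [4, 4, 1]),
  (151, 136, [4, 1])]) .no .no) .no .no) .no .no) .no .no .no (.red [.t 1210 1 3, .f 1202 5 3, .f
  1074 3 1, .f 1082 1 3] 151 136 [4, 1] [(151, 136, [4, 1]), (152, 136, [1]), (168, 136, [1, 1])])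
  (.hor [.t 1225 4 1, .f 1216 1 5] [(169, 136, [1, 3, 1])])) .no (.hor [.f 1211 3 1, .f 1210 1 5]
  [(168, 136, [1, 1])]) (.red [.t 1338 2 4, .f 1074 3 1, .f 1081 1 5] 151 136 [4, 1] [(151, 136,
  [4, 1]), (167, 136, [4, 1, 1])]) .no .no

def c21t895 : Tr4 :=
  .br 1217 (.br 947 .no (.hor [.f 818 1 5] []) .no (.br 938 (.hor [.f 939 3 1, .f 938 1 5] [(134,
  150, [2])]) (.hor [.f 810 1 3, .f 938 3 5] [(118, 136, [4, 2, 4])]) .no (.use 775) .no (.br 1339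
  (.br 1066 (.red [.t 1066 1 3] 150 136 [4, 4, 1] [(150, 136, [4, 4, 1])]) .no .no (.br 1201 (.use
  841) .no .no (.red [.f 1065 3 1, .f 1073 1 3] 151 136 [4, 1] [(150, 136, [4, 4, 1]), (151, 136,
  [4, 1])]) .no (.br 1064 (.red [.t 1064 1 3, .f 1073 1 3, .f 1073 3 5] 151 136 [4, 1] [(150, 136,
  [4, 4, 1]), (151, 136, [4, 1])]) (.hor [.f 936 1 3, .f 1064 3 5] [(134, 150, [2])]) .no (.br
  1208 (.br 1192 (.br 1194 (.use 842) .no .no (.red [.f 1058 3 1, .t 1066 1 3] 150 136 [4, 4, 1]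
  [(149, 136, [4, 4, 4, 1]), (150, 136, [4, 4, 1])]) (.red [.f 1194 5 3, .f 1067 3 1] 150 136 [4,
  4, 1] [(150, 136, [4, 4, 1])]) (.br 1337 (.use 843) .no .no (.red [.t 1336 2 4] 167 136 [4, 1,
  1] [(167, 136, [4, 1, 1])]) .no .no)) .no .no (.red [.f 1056 3 1, .t 1064 1 3, .f 1073 1 3] 151
  136 [4, 1] [(149, 136, [4, 4, 4, 1]), (150, 136, [4, 4, 1]), (151, 136, [4, 1])]) (.red [.f 1192
  5 3, .f 1065 3 1, .f 1073 1 3] 151 136 [4, 1] [(150, 136, [4, 4, 1]), (151, 136, [4, 1])]) .no)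
  .no .no .no .no .no) .no .no)) .no .no) .no (.hor [.f 1211 3 1, .f 1210 1 5] [(168, 136, [1,
  1])]) (.red [.t 1338 2 4, .f 1074 3 1, .f 1081 1 5] 151 136 [4, 1] [(151, 136, [4, 1]), (167,
  136, [4, 1, 1])]) .no .no)) .no .no) .no (.hor [.f 1216 3 5] []) .no .no .no

def c21t896 : Tr4 :=
  .br 1202 (.red [.f 1202 1 3, .f 1074 3 1] 151 136 [4, 1] [(151, 136, [4, 1]), (167, 136, [4, 1,
  1])]) .no .no (.br 1200 (.red [.f 1200 1 3, .t 1208 4 2] 151 136 [4, 1] [(151, 136, [4, 1]),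
  (167, 136, [4, 1, 1])]) .no .no (.use 563) (.red [.f 1072 5 1, .f 1073 1 3] 151 136 [4, 1]
  [(151, 136, [4, 1])]) .no) (.br 1200 (.red [.f 1200 1 3, .t 1208 4 2] 151 136 [4, 1] [(151, 136,
  [4, 1]), (167, 136, [4, 1, 1])]) .no .no (.br 1201 (.con 136 [4, 1, 4, 1]) .no .no (.hor [.f
  1192 3 5] []) .no .no) (.red [.f 1072 5 1, .f 1073 1 3] 151 136 [4, 1] [(151, 136, [4, 1])])
  .no) (.red [.t 1081 1 4] 151 136 [4, 1] [(151, 136, [4, 1])])

def c21t897 : Tr4 :=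
  .br 819 (.hor [.f 818 1 5] []) (.con 136 [2, 4, 4]) .no (.con 136 [2, 4, 4]) .no .no

def c21t898 : Tr4 :=
  .br 945 .no (.red [.f 817 1 3, .f 817 3 5] 119 136 [2, 4] [(119, 136, [2, 4])]) .no (.use 855)
  (.red [.t 825 1 4, .f 944 3 5] 119 136 [2, 4] [(119, 136, [2, 4])]) .no

def c21t899 : Tr4 :=
  .br 946 .no (.br 817 .no (.use 897) .no (.red [.f 809 3 1, .f 817 1 5] 118 136 [2, 4, 4] [(118,
  136, [2, 4, 4])]) .no (.red [.t 952 4 2] 119 136 [2, 4] [(119, 136, [2, 4])])) .no (.hor [.f 937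
  3 5] []) (.red [.f 1080 3 1, .f 1080 1 5, .t 1082 4 2, .t 1218 2 4, .f 954 3 1] 136 136 []
  [(135, 119, [1]), (136, 136, [])]) .no

def c21t900 : Tr4 :=
  .br 833 .no (.br 817 .no (.use 660) .no (.br 834 .no (.use 45) (.br 818 .no (.use 740) .no (.hor
  [.f 809 3 5] []) (.red [.t 962 4 2, .t 826 1 3, .f 818 5 3, .t 825 1 4] 119 136 [2, 4] [(119,
  136, [2, 4])]) .no) .no .no .no) (.red [.f 817 5 1, .f 817 1 3] 119 136 [2, 4] [(119, 136, [2,
  4])]) (.red [.t 952 4 2] 119 136 [2, 4] [(119, 136, [2, 4])])) (.use 459) .no (.red [.t 953 2 3,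
  .f 945 5 3, .f 944 3 5, .t 1088 4 2, .f 825 3 1] 136 136 [] [(136, 136, [])]) .no

def c21t901 : Tr4 :=
  .br 1208 (.use 896) .no (.br 953 .no (.br 944 .no (.use 717) (.br 1211 (.hor [.f 1210 1 5] [])
  .no (.br 824 .no (.br 945 .no (.use 542) .no (.br 946 .no (.br 817 .no (.br 826 .no (.use 425)
  (.br 970 (.red [.f 826 3 1, .f 834 1 5, .t 1098 2 4, .f 955 1 3, .t 954 2 3] 136 136 [] [(136,
  136, []), (137, 136, [3])]) (.use 116) (.hor [.f 970 3 5] []) .no .no (.br 832 .no (.use 105)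
  (.red [.f 832 3 1] 121 136 [2, 3] [(121, 136, [2, 3])]) .no (.br 827 .no (.br 698 .no (.use 433)
  (.red [.f 698 3 1, .f 698 1 5] 104 136 [2, 2] [(104, 136, [2, 2])]) (.con 136 [2, 2, 4, 2]) .no
  (.br 705 .no (.br 706 .no (.hor [.f 577 1 5] []) (.br 707 .no (.con 136 [2, 2, 2, 3]) (.hor [.f
  706 3 5] []) .no .no .no) .no (.red [.t 826 3 2] 104 136 [2, 2] [(104, 136, [2, 2])]) .no) (.br
  841 .no .no (.br 840 .no (.red [.t 712 1 4, .t 833 2 4] 105 136 [2, 2, 3] [(104, 136, [2, 2]),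
  (105, 136, [2, 2, 3])]) (.hor [.f 840 3 5] []) .no .no .no) .no (.red [.f 841 5 1, .t 968 4 2]
  121 136 [2, 3] [(121, 136, [2, 3])]) (.red [.f 832 5 3, .f 832 3 1] 121 136 [2, 3] [(121, 136,
  [2, 3])])) .no (.red [.f 697 5 3, .f 698 3 1] 104 136 [2, 2] [(104, 136, [2, 2])]) (.hor [.f 704
  5 1, .f 696 1 3, .t 833 2 4, .f 696 3 5, .f 698 1 5] []))) .no (.con 136 [2, 2, 4]) .no .no)
  .no)) .no (.use 897) .no) .no (.red [.f 809 3 1, .f 817 1 5] 118 136 [2, 4, 4] [(118, 136, [2,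
  4, 4])]) .no (.red [.t 952 4 2] 119 136 [2, 4] [(119, 136, [2, 4])])) .no (.hor [.f 937 3 5] [])
  (.red [.f 1080 3 1, .f 1080 1 5, .t 1082 4 2, .t 1218 2 4, .f 954 3 1] 136 136 [] [(135, 119,
  [1]), (136, 136, [])]) .no) (.use 440) .no) (.br 826 .no (.use 47) (.con 136 [2, 2]) (.use 898)
  (.br 945 .no (.red [.f 817 1 3] 119 136 [2, 4] [(119, 136, [2, 4])]) .no (.use 899) (.use 900)
  .no) .no) (.use 581) .no .no) (.con 136 [4, 1, 1]) .no .no) (.use 718) (.use 859) .no) .no (.red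
  [.f 1080 3 1, .f 1080 1 5, .f 1072 5 3, .f 945 3 1, .f 953 1 3, .t 1088 1 4] 136 136 [] [(135,
  136, [4]), (136, 136, [])]) .no (.red [.t 1088 4 2, .f 953 3 5] 136 136 [] [(136, 136, [])]))
  (.red [.t 1208 4 2, .f 1073 3 5] 151 136 [4, 1] [(151, 136, [4, 1])]) .no .no

def c21l35 : List Tr4 :=
  [c21t878, c21t879, c21t880, c21t881, c21t882, c21t883, c21t884, c21t885, c21t886, c21t887,
  c21t888, c21t889, c21t890, c21t891, c21t892, c21t893, c21t894, c21t895, c21t896, c21t897,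
  c21t898, c21t899, c21t900, c21t901]

theorem c21k35 : chkLF ⟨4, 0, 0, true, -8⟩ false 1 c21N 878 c21l35 = true := by decide +kernel

def c21t902 : Tr4 :=
  .br 1073 (.red [.f 1073 1 3, .f 1073 3 5] 151 136 [4, 1] [(151, 136, [4, 1])]) (.br 970 (.use
  722) (.use 116) (.hor [.f 970 3 5] []) .no .no (.br 1211 (.hor [.f 1210 1 5] []) .no (.br 946
  .no (.use 724) .no (.use 736) (.red [.t 1082 4 2, .t 1218 2 4, .f 954 3 1] 136 136 [] [(135,
  136, [4]), (136, 136, []), (152, 136, [1])]) .no) (.br 952 .no (.use 723) .no (.br 825 (.br 826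
  .no (.use 725) (.red [.f 826 3 1, .f 825 1 5, .t 1073 2 3, .f 944 3 5, .t 1088 4 2, .t 961 4 2]
  136 136 [] [(135, 119, [1]), (136, 136, [])]) (.use 522) (.br 1208 (.con 136 [4, 1, 1]) .no
  (.con 136 [4, 1, 1]) (.br 1075 .no (.con 136 [4, 4]) .no (.br 1202 (.red [.f 1202 1 3, .f 1074 3
  1] 151 136 [4, 1] [(151, 136, [4, 1]), (167, 136, [4, 1, 1])]) .no .no (.br 824 .no (.br 946 .no
  (.use 523) .no (.br 1065 (.con 136 [4, 4, 1, 1]) (.red [.f 937 1 3, .f 937 3 5] 134 136 [4, 4]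
  [(134, 136, [4, 4])]) .no (.use 737) (.red [.t 945 1 4] 134 136 [4, 4] [(134, 136, [4, 4])])
  (.con 136 [4, 4, 1])) (.use 738) .no) (.br 833 .no (.br 834 .no (.use 45) (.br 946 .no (.use
  523) .no (.br 1065 (.con 136 [4, 4, 1, 1]) (.red [.f 937 1 3, .f 937 3 5] 134 136 [4, 4] [(134,
  136, [4, 4])]) .no (.use 739) (.red [.t 945 1 4] 134 136 [4, 4] [(134, 136, [4, 4])]) (.con 136
  [4, 4, 1])) (.use 741) .no) .no .no .no) (.use 459) .no (.red [.t 953 2 3, .t 1073 2 3, .f 944 3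
  5, .t 1088 4 2, .f 825 3 1] 136 136 [] [(135, 119, [1]), (136, 136, [])]) .no) (.use 581) .no
  .no) .no (.red [.t 1081 1 4, .f 1200 3 5] 151 136 [4, 1] [(151, 136, [4, 1])])) .no .no) .no
  .no) .no) (.con 136 [4, 2, 3, 3]) (.con 136 [4, 2, 3, 3]) (.con 136 [4, 2, 3, 3]) (.con 136 [4,
  2, 3, 3]) (.con 136 [4, 2, 3, 3])) (.red [.t 1088 4 2, .f 953 3 5] 136 136 [] [(136, 136, [])])
  .no) .no .no)) .no (.br 970 (.use 876) (.use 116) (.hor [.f 970 3 5] []) .no .no (.br 1211 (.hor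
  [.f 1210 1 5] []) .no (.br 1075 (.br 953 .no (.use 878) .no (.use 891) .no (.red [.t 1088 4 2,
  .f 953 3 5] 136 136 [] [(136, 136, [])])) (.red [.f 947 1 3, .f 1074 3 5, .t 1218 2 4, .f 954 3
  1] 136 136 [] [(135, 136, [4]), (136, 136, []), (152, 136, [1])]) .no (.br 953 .no (.use 892)
  .no (.br 944 (.br 824 (.br 1202 (.red [.f 1202 1 3, .f 1074 3 1] 151 136 [4, 1] [(151, 136, [4,
  1]), (167, 136, [4, 1, 1])]) .no .no (.use 801) (.br 1216 (.br 1217 (.hor [.f 1216 1 5] []) .no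
  (.br 1098 (.hor [.f 1090 1 3, .f 1090 3 5] [(153, 121, [1, 1])]) .no (.br 1097 .no .no (.hor [.f
  1097 3 5] []) .no .no (.br 832 .no (.br 833 .no (.hor [.f 704 1 5] []) (.use 71) (.red [.t 960 3
  1, .t 824 1 3, .f 952 3 1, .f 960 1 3] 136 136 [] [(120, 136, [2]), (136, 136, [])]) (.br 825
  .no (.br 1226 (.br 946 .no (.use 893) .no (.use 894) (.red [.t 1082 4 2, .t 1218 2 4, .f 954 3
  1] 136 136 [] [(135, 136, [4]), (136, 136, []), (152, 136, [1])]) .no) .no (.hor [.f 1098 3 1,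
  .f 1090 1 3, .f 1090 3 5] [(153, 121, [1, 1]), (154, 122, [1, 1])]) .no (.hor [.t 1090 1 3, .f
  1217 3 5] [(153, 121, [1, 1])]) .no) .no (.use 868) (.red [.t 960 3 1, .f 825 5 3, .t 824 1 3,
  .f 952 3 1, .f 960 1 3] 136 136 [] [(120, 136, [2]), (136, 136, [])]) .no) .no) (.red [.f 832 3
  1] 121 136 [2, 3] [(121, 136, [2, 3])]) .no (.red [.t 960 3 1, .f 832 5 1, .f 824 1 3, .f 952 3
  1, .f 960 1 3] 136 136 [] [(120, 136, [2]), (136, 136, [])]) .no)) .no .no (.hor [.t 1217 3 2,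
  .f 1090 3 5] [(153, 121, [1, 1])])) .no .no .no) .no (.br 946 .no (.use 895) .no (.use 875)
  (.red [.t 1082 4 2, .t 1218 2 4, .f 954 3 1] 136 136 [] [(135, 136, [4]), (136, 136, []), (152,
  136, [1])]) .no) (.red [.f 1080 3 1, .f 1080 1 5, .t 944 1 3, .f 953 1 3, .t 1088 1 4] 136 136
  [] [(135, 136, [4]), (136, 136, [])]) (.red [.t 1080 3 1, .t 944 1 3, .f 953 1 3, .f 1081 3 1]
  136 136 [] [(135, 136, [4]), (136, 136, [])]) .no) (.red [.t 1081 1 4] 151 136 [4, 1] [(151,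
  136, [4, 1])])) (.con 136 [2, 4, 1, 3]) (.con 136 [2, 4, 1, 3]) (.con 136 [2, 4, 1, 3]) (.con
  136 [2, 4, 1, 3]) .no) (.use 593) (.use 658) (.use 618) .no .no) .no (.red [.t 1088 4 2, .f 953
  3 5] 136 136 [] [(136, 136, [])])) .no .no) (.use 627) .no .no)) .no (.use 901)

def c21t903 : Tr4 :=
  .br 1066 (.hor [.f 1066 1 5] []) .no .no (.br 1200 (.red [.f 1200 1 3] 167 136 [4, 1, 1] [(167,
  136, [4, 1, 1])]) .no .no (.con 136 [4, 4, 1, 4]) (.br 1064 (.red [.t 1064 1 3, .f 1073 1 3, .f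
  1073 3 5] 151 136 [4, 1] [(150, 136, [4, 4, 1]), (151, 136, [4, 1])]) (.con 136 [4, 4, 4, 1])
  .no (.con 136 [4, 4, 4, 1]) .no .no) .no) .no .no

def c21t904 : Tr4 :=
  .br 1201 (.con 136 [1, 4, 4, 1]) .no .no (.hor [.f 1193 3 5] []) .no (.con 136 [1, 4, 4, 1])

def c21t905 : Tr4 :=
  .br 1202 (.hor [.f 1202 1 5] []) .no .no (.use 904) .no (.red [.t 1081 1 4] 151 136 [4, 1]
  [(151, 136, [4, 1])])

def c21t906 : Tr4 :=
  .br 1203 (.use 905) .no .no (.red [.f 947 1 3, .f 947 3 1, .t 946 4 1, .f 1067 3 1] 150 136 [4,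
  4, 1] [(134, 136, [4, 4]), (150, 136, [4, 4, 1])]) .no (.red [.f 1202 5 3, .f 1074 3 1, .f 1082
  1 3] 151 136 [4, 1] [(151, 136, [4, 1]), (152, 136, [1])])

def c21t907 : Tr4 :=
  .br 1201 (.br 1202 (.hor [.f 1201 1 5] []) .no .no (.con 136 [4, 1, 4, 1]) (.red [.f 1202 5 3,
  .f 1074 3 1, .f 1082 1 3] 151 136 [4, 1] [(151, 136, [4, 1]), (152, 136, [1])]) .no) .no .no
  (.red [.f 1065 3 1, .f 1073 1 3] 151 136 [4, 1] [(150, 136, [4, 1, 4]), (151, 136, [4, 1])])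
  (.red [.t 1081 1 4, .f 1200 3 5] 151 136 [4, 1] [(151, 136, [4, 1])]) .no

def c21t908 : Tr4 :=
  .br 1208 (.br 1067 (.use 903) .no .no (.hor [.f 931 3 1, .f 939 1 3, .f 938 3 5] [(133, 136, [4,
  4, 4]), (134, 136, [4, 4])]) .no (.use 906)) .no .no (.br 1067 (.use 907) .no .no (.hor [.f 931
  3 1, .f 939 1 3, .f 938 3 5] [(133, 136, [4, 4, 4]), (134, 136, [4, 4])]) .no (.use 906)) .no
  .no

def c21t909 : Tr4 :=
  .br 1208 (.use 903) .no .no (.use 907) .no .no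

def c21t910 : Tr4 :=
  .br 818 .no (.br 819 .no (.hor [.f 690 1 5] []) .no .no .no .no) .no (.hor [.f 810 3 1, .f 810 1
  5] [(118, 136, [2, 4, 4])]) (.hor [.t 938 3 2, .t 945 3 2, .f 824 1 5] [(118, 136, [2, 4, 4]),
  (119, 136, [2, 4])]) (.red [.f 817 5 3, .f 817 3 1, .f 824 1 5, .t 1088 4 2] 136 136 [] [(119,
  120, [4]), (136, 136, [])])

def c21t911 : Tr4 :=
  .br 1216 (.br 939 (.hor [.f 939 1 3, .f 938 3 5] [(134, 136, [4, 4])]) (.use 910) .no (.use 908)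
  .no .no) .no (.br 1067 (.use 909) (.hor [.f 939 1 3, .f 938 3 5] [(134, 136, [4, 4])]) .no (.br
  939 .no (.use 910) .no (.hor [.f 931 3 1, .f 939 1 3, .f 938 3 5] [(133, 136, [4, 4, 4]), (134,
  136, [4, 4])]) .no .no) .no (.use 906)) (.red [.f 1080 3 1, .f 1080 1 5, .t 944 1 3, .f 953 1 3,
  .t 1088 1 4] 136 136 [] [(135, 136, [4]), (136, 136, [])]) (.red [.t 1080 3 1, .t 944 1 3, .f
  953 1 3, .f 1081 3 1] 136 136 [] [(135, 136, [4]), (136, 136, [])]) .no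

def c21t912 : Tr4 :=
  .br 826 .no (.hor [.f 698 1 5] []) (.red [.f 826 3 1, .f 834 1 5, .t 1098 2 4, .f 955 1 3, .t
  954 2 3] 136 136 [] [(136, 136, []), (137, 136, [3])]) (.br 953 .no (.use 874) .no (.br 944 (.br
  824 (.br 1216 (.br 946 .no .no .no (.br 819 .no (.hor [.f 691 1 3, .f 818 3 5] [(103, 121, [4,
  2, 4])]) .no (.br 939 (.hor [.f 939 1 3, .f 938 3 5] [(134, 136, [4, 4])]) .no .no (.use 908)
  .no .no) .no .no) .no .no) .no (.br 946 .no .no .no (.br 1067 (.use 909) (.hor [.f 939 1 3, .f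
  938 3 5] [(134, 136, [4, 4])]) .no (.br 939 .no (.br 819 .no (.hor [.f 691 1 3, .f 818 3 5]
  [(103, 121, [4, 2, 4])]) .no .no .no .no) .no (.hor [.f 931 3 1, .f 939 1 3, .f 938 3 5] [(133,
  136, [4, 4, 4]), (134, 136, [4, 4])]) .no .no) .no (.use 906)) .no .no) (.red [.f 1080 3 1, .f
  1080 1 5, .t 944 1 3, .f 953 1 3, .t 1088 1 4] 136 136 [] [(135, 136, [4]), (136, 136, [])])
  (.red [.t 1080 3 1, .t 944 1 3, .f 953 1 3, .f 1081 3 1] 136 136 [] [(135, 136, [4]), (136, 136,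
  [])]) .no) (.con 136 [2, 4, 1, 3]) (.con 136 [2, 4, 1, 3]) (.con 136 [2, 4, 1, 3]) (.con 136 [2,
  4, 1, 3]) .no) (.use 593) (.hor [.f 944 3 5] []) (.use 630) .no .no) .no (.red [.t 1088 4 2, .f
  953 3 5] 136 136 [] [(136, 136, [])])) .no (.br 832 .no (.br 833 .no (.hor [.f 704 1 5] [])
  (.use 71) .no (.br 953 .no .no .no (.br 944 (.br 824 (.br 946 .no (.hor [.f 825 5 3, .f 825 3 5,
  .t 945 3 2, .f 824 1 5] [(119, 121, [4, 4])]) .no (.use 911) .no .no) (.con 136 [2, 4, 1, 3])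
  .no (.con 136 [2, 4, 1, 3]) .no .no) (.use 593) (.hor [.f 944 3 5] []) (.use 630) .no .no) .no
  (.red [.t 1088 4 2, .f 953 3 5] 136 136 [] [(136, 136, [])])) .no) (.red [.f 832 3 1] 121 136
  [2, 3] [(121, 136, [2, 3])]) (.use 858) (.br 953 .no .no .no (.br 944 (.br 946 .no (.use 864)
  .no (.br 824 (.use 911) (.con 136 [2, 4, 1, 3]) .no (.con 136 [2, 4, 1, 3]) .no .no) .no .no)
  (.use 593) (.hor [.f 944 3 5] []) (.use 630) .no .no) .no (.red [.t 1088 4 2, .f 953 3 5] 136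
  136 [] [(136, 136, [])])) .no)

def c21t913 : Tr4 :=
  .br 1202 (.hor [.f 1201 1 5] []) .no .no (.use 742) (.red [.f 1202 5 3, .f 1074 3 1, .f 1082 1
  3] 151 136 [4, 1] [(151, 136, [4, 1]), (152, 136, [1])]) .no

def c21t914 : Tr4 :=
  .br 1331 (.red [.f 1331 1 3] 183 136 [4, 1, 1, 1] [(183, 136, [4, 1, 1, 1])]) .no .no (.red [.f
  1195 3 1, .f 1202 1 5, .f 1202 5 3, .f 1074 3 1] 151 136 [4, 1] [(151, 136, [4, 1]), (166, 150,
  [1])]) .no .no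

def c21t915 : Tr4 :=
  .br 1203 (.use 905) .no .no (.br 1202 (.br 1339 (.br 1338 (.hor [.f 1338 1 5] []) .no (.red [.f
  1219 1 3, .f 1219 3 1, .t 1346 4 2, .f 1202 1 3] 167 136 [4, 1, 1] [(167, 136, [4, 1, 1]), (168,
  136, [1, 1])]) .no .no (.use 914)) .no .no (.red [.t 1330 2 3, .f 1074 3 1] 151 136 [4, 1]
  [(151, 136, [4, 1]), (167, 136, [4, 1, 1])]) .no (.red [.f 1210 5 1, .f 1202 1 3] 167 136 [4, 1,
  1] [(167, 136, [4, 1, 1])])) .no .no (.hor [.f 1194 3 5] []) .no .no) .no (.red [.f 1202 5 3, .f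
  1074 3 1, .f 1082 1 3] 151 136 [4, 1] [(151, 136, [4, 1]), (152, 136, [1])])

def c21t916 : Tr4 :=
  .br 1347 (.con 136 [1, 1, 3, 3]) (.use 915) .no (.con 136 [1, 1, 3, 3]) .no (.con 136 [1, 1, 3,
  3])

def c21t917 : Tr4 :=
  .br 1202 (.hor [.f 1201 1 5] []) .no .no (.br 1203 (.con 136 [4, 1, 4, 1]) .no .no (.hor [.f
  1194 3 5] []) .no .no) (.red [.f 1202 5 3, .f 1074 3 1, .f 1082 1 3] 151 136 [4, 1] [(151, 136,
  [4, 1]), (152, 136, [1])]) .no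

def c21t918 : Tr4 :=
  .br 1201 (.use 917) .no .no (.red [.f 1065 3 1, .f 1073 1 3] 151 136 [4, 1] [(150, 136, [4, 1,
  4]), (151, 136, [4, 1])]) (.red [.t 1081 1 4, .f 1200 3 5] 151 136 [4, 1] [(151, 136, [4, 1])])
  .no

def c21t919 : Tr4 :=
  .br 1338 (.hor [.f 1338 1 5] []) .no (.br 1347 (.con 136 [1, 1, 3, 2, 2, 4]) (.red [.t 1346 4 2,
  .f 1202 1 3] 167 136 [4, 1, 1] [(167, 136, [4, 1, 1]), (168, 136, [1, 1])]) (.con 136 [1, 1, 3,
  2, 2, 4]) .no .no .no) .no .no (.use 914)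

def c21t920 : Tr4 :=
  .br 1096 (.br 1227 (.br 1208 (.br 1201 (.use 913) .no .no (.red [.f 1065 3 1, .f 1073 1 3] 151
  136 [4, 1] [(150, 136, [4, 4, 1]), (151, 136, [4, 1])]) (.red [.t 1081 1 4] 151 136 [4, 1]
  [(151, 136, [4, 1])]) (.br 1226 (.hor [.f 1226 1 5] []) .no (.use 916) .no .no .no)) .no .no
  (.use 918) .no .no) .no (.br 1208 (.br 1201 (.use 913) .no .no (.red [.f 1065 3 1, .f 1073 1 3]
  151 136 [4, 1] [(150, 136, [4, 4, 1]), (151, 136, [4, 1])]) (.red [.t 1081 1 4] 151 136 [4, 1]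
  [(151, 136, [4, 1])]) (.br 1203 (.use 905) .no .no (.br 1202 (.br 1339 (.use 919) .no (.con 136
  [1, 1, 3, 2, 2, 4]) (.red [.t 1330 2 3, .f 1074 3 1] 151 136 [4, 1] [(151, 136, [4, 1]), (167,
  136, [4, 1, 1])]) .no (.red [.f 1210 5 1, .f 1202 1 3] 167 136 [4, 1, 1] [(167, 136, [4, 1,
  1])])) .no .no (.hor [.f 1194 3 5] []) .no .no) .no (.red [.f 1202 5 3, .f 1074 3 1, .f 1082 1
  3] 151 136 [4, 1] [(151, 136, [4, 1]), (152, 136, [1])]))) .no .no (.use 918) .no .no) (.hor [.f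
  1091 3 1, .f 1090 1 5] [(153, 169, [2])]) .no (.hor [.t 1090 1 3, .f 1217 3 5] [(153, 136, [3,
  1])])) .no (.hor [.f 1096 3 5] []) .no .no .no

def c21t921 : Tr4 :=
  .br 1227 (.br 1208 (.br 1347 (.con 136 [1, 1, 3, 2, 2, 4]) (.use 915) .no (.con 136 [1, 1, 3, 2,
  2, 4]) .no (.con 136 [1, 1, 3, 2, 2, 4])) .no .no .no .no .no) .no (.br 1208 (.br 1217 (.br 1203
  (.use 905) .no .no (.br 1202 (.br 1339 (.br 1338 (.use 534) .no (.br 1347 (.con 136 [1, 1, 3, 2,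
  2, 4]) (.red [.t 1346 4 2, .f 1202 1 3] 167 136 [4, 1, 1] [(167, 136, [4, 1, 1]), (168, 136, [1,
  1])]) (.con 136 [1, 1, 3, 2, 2, 4]) .no .no .no) .no .no (.use 914)) .no (.con 136 [1, 1, 3, 2,
  2, 4]) (.red [.t 1330 2 3, .f 1074 3 1] 151 136 [4, 1] [(151, 136, [4, 1]), (167, 136, [4, 1,
  1])]) .no (.red [.f 1210 5 1, .f 1202 1 3] 167 136 [4, 1, 1] [(167, 136, [4, 1, 1])])) .no .no
  (.hor [.f 1194 3 5] []) .no .no) .no (.red [.f 1202 5 3, .f 1074 3 1, .f 1082 1 3] 151 136 [4,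
  1] [(151, 136, [4, 1]), (152, 136, [1])])) .no .no .no .no .no) .no .no .no .no .no) (.hor [.f
  1091 3 1, .f 1090 1 5] [(153, 136, [3, 1])]) .no (.red [.t 1090 1 3, .t 954 3 1, .f 961 1 5] 136
  136 [] [(136, 136, []), (153, 136, [3, 1])])

def c21t922 : Tr4 :=
  .br 1201 (.use 917) .no .no (.red [.f 1065 3 1, .f 1073 1 3] 151 136 [4, 1] [(150, 136, [4, 1,
  4]), (151, 136, [4, 1])]) (.red [.t 1081 1 4] 151 136 [4, 1] [(151, 136, [4, 1])]) (.use 921)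

def c21t923 : Tr4 :=
  .br 1217 (.hor [.f 1216 1 5] []) .no .no .no .no .no

def c21l36 : List Tr4 :=
  [c21t902, c21t903, c21t904, c21t905, c21t906, c21t907, c21t908, c21t909, c21t910, c21t911,
  c21t912, c21t913, c21t914, c21t915, c21t916, c21t917, c21t918, c21t919, c21t920, c21t921,
  c21t922, c21t923]

theorem c21k36 : chkLF ⟨4, 0, 0, true, -8⟩ false 1 c21N 902 c21l36 = true := by decide +kernel

def c21t924 : Tr4 :=
  .br 832 .no (.br 833 .no (.hor [.f 704 1 5] []) (.use 71) .no (.br 969 (.hor [.f 969 1 5] [])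
  (.br 952 .no (.br 945 .no (.con 136 [4, 2, 3, 3]) (.br 944 (.br 1208 (.br 1201 (.use 913) .no
  .no (.red [.f 1065 3 1, .f 1073 1 3] 151 136 [4, 1] [(150, 136, [4, 4, 1]), (151, 136, [4, 1])])
  (.red [.t 1081 1 4] 151 136 [4, 1] [(151, 136, [4, 1])]) (.br 1216 (.br 1217 (.hor [.f 1216 1 5]
  []) .no (.br 1097 .no .no (.use 920) .no .no (.red [.t 960 3 1, .f 825 5 3, .t 824 1 3, .f 833 1
  3] 121 136 [2, 3] [(120, 136, [2]), (121, 136, [2, 3]), (137, 121, [1])])) .no .no .no) .no (.br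
  1097 (.use 921) .no (.use 727) .no .no (.red [.t 960 3 1, .f 825 5 3, .t 824 1 3, .f 833 1 3]
  121 136 [2, 3] [(120, 136, [2]), (121, 136, [2, 3]), (137, 121, [1])])) .no (.red [.t 1080 3 1,
  .t 944 1 3, .f 953 1 3, .f 1081 3 1] 136 136 [] [(135, 136, [4]), (136, 136, [])]) .no)) .no
  (.red [.f 1080 3 1, .f 1080 1 5, .t 944 1 3, .f 953 1 3, .t 1088 1 4] 136 136 [] [(135, 136,
  [4]), (136, 136, [])]) (.use 918) .no .no) (.use 593) .no (.use 630) .no .no) (.con 136 [4, 2,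
  3, 3]) (.con 136 [4, 2, 3, 3]) (.con 136 [4, 2, 3, 3])) .no (.use 634) (.red [.t 1088 4 2, .f
  953 3 5] 136 136 [] [(136, 136, [])]) .no) (.br 953 .no .no .no (.br 944 (.br 1208 (.br 824 (.br
  1097 (.br 1216 (.use 923) .no (.use 922) .no (.red [.t 1080 3 1, .t 944 1 3, .f 953 1 3, .f 1081
  3 1] 136 136 [] [(135, 136, [4]), (136, 136, [])]) .no) .no (.hor [.f 969 3 1, .f 969 1 5]
  [(138, 121, [1, 3])]) .no .no (.red [.t 960 3 1, .f 825 5 3, .t 824 1 3, .f 952 3 1, .f 960 1 3]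
  136 136 [] [(120, 136, [2]), (136, 136, [])])) (.con 136 [2, 4, 1, 3]) .no (.con 136 [2, 4, 1,
  3]) .no .no) .no (.red [.f 1080 3 1, .f 1080 1 5, .t 944 1 3, .f 953 1 3, .t 1088 1 4] 136 136
  [] [(135, 136, [4]), (136, 136, [])]) (.use 918) .no .no) (.use 593) (.hor [.f 944 3 5] [])
  (.use 630) .no .no) .no (.red [.t 1088 4 2, .f 953 3 5] 136 136 [] [(136, 136, [])])) .no .no
  .no) .no) (.red [.f 832 3 1] 121 136 [2, 3] [(121, 136, [2, 3])]) (.use 858) (.br 969 (.hor [.f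
  969 1 5] []) (.red [.t 968 4 2] 121 136 [2, 3] [(121, 136, [2, 3])]) (.br 1097 (.br 1201 (.use
  917) .no .no (.red [.f 1065 3 1, .f 1073 1 3] 151 136 [4, 1] [(150, 136, [4, 1, 4]), (151, 136,
  [4, 1])]) (.red [.t 1081 1 4] 151 136 [4, 1] [(151, 136, [4, 1])]) (.br 953 .no .no .no (.br 944
  (.br 1216 (.use 923) .no (.use 921) (.red [.f 1080 3 1, .f 1080 1 5, .t 944 1 3, .f 953 1 3, .t
  1088 1 4] 136 136 [] [(135, 136, [4]), (136, 136, [])]) (.red [.t 1080 3 1, .t 944 1 3, .f 953 1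
  3, .f 1081 3 1] 136 136 [] [(135, 136, [4]), (136, 136, [])]) .no) (.use 593) (.hor [.f 944 3 5]
  []) (.use 630) .no .no) .no (.red [.t 1088 4 2, .f 953 3 5] 136 136 [] [(136, 136, [])]))) .no
  (.hor [.f 969 3 1, .f 969 1 5] [(138, 121, [1, 3])]) .no .no (.br 952 .no (.red [.t 960 3 1, .f
  832 5 1, .f 824 1 3, .f 952 3 1, .f 960 1 3] 136 136 [] [(120, 136, [2]), (136, 136, [])]) .no
  (.br 945 .no (.con 136 [4, 2, 3, 3]) (.hor [.f 944 3 5] []) (.con 136 [4, 2, 3, 3]) (.con 136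
  [4, 2, 3, 3]) .no) (.red [.t 1088 4 2, .f 953 3 5] 136 136 [] [(136, 136, [])]) .no)) .no .no
  .no) .no

def c21t925 : Tr4 :=
  .br 944 .no (.use 717) (.br 945 .no (.red [.f 817 1 3, .f 817 3 5] 119 136 [2, 4] [(119, 136,
  [2, 4])]) .no (.use 641) (.red [.t 825 1 4, .f 944 3 5] 119 136 [2, 4] [(119, 136, [2, 4])])
  .no) (.use 718) (.use 859) .no

def c21t926 : Tr4 :=
  .br 1203 (.use 905) .no .no (.br 1202 (.br 1339 (.use 919) .no (.con 136 [1, 1, 3, 2, 2, 4])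
  (.red [.t 1330 2 3, .f 1074 3 1] 151 136 [4, 1] [(151, 136, [4, 1]), (167, 136, [4, 1, 1])]) .no
  (.red [.f 1210 5 1, .f 1202 1 3] 167 136 [4, 1, 1] [(167, 136, [4, 1, 1])])) .no .no (.hor [.f
  1194 3 5] []) .no .no) .no (.red [.f 1202 5 3, .f 1074 3 1, .f 1082 1 3] 151 136 [4, 1] [(151,
  136, [4, 1]), (152, 136, [1])])

def c21t927 : Tr4 :=
  .br 1227 (.hor [.f 1226 1 5] []) .no (.use 926) (.hor [.f 1091 3 1, .f 1090 1 5] [(153, 169,
  [2])]) .no .no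

def c21t928 : Tr4 :=
  .br 1226 (.use 927) .no (.hor [.f 1098 3 1, .f 1090 1 3, .f 1090 3 5] [(153, 136, [3, 1]), (154,
  136, [3, 3, 1])]) .no (.hor [.t 1090 1 3, .f 1217 3 5] [(153, 136, [3, 1])]) .no

def c21t929 : Tr4 :=
  .br 1339 (.br 1347 (.con 136 [1, 1, 3, 2, 2, 4]) (.br 1338 (.use 534) .no (.red [.t 1346 4 2, .f
  1202 1 3] 167 136 [4, 1, 1] [(167, 136, [4, 1, 1]), (168, 136, [1, 1])]) .no .no (.br 1203 (.use
  905) .no .no (.use 914) .no .no)) (.con 136 [1, 1, 3, 2, 2, 4]) .no .no (.con 136 [1, 1, 3, 2,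
  2, 4])) .no (.con 136 [1, 1, 3, 2, 2, 4]) (.red [.t 1330 2 3, .f 1074 3 1] 151 136 [4, 1] [(151,
  136, [4, 1]), (167, 136, [4, 1, 1])]) .no (.red [.f 1210 5 1, .f 1202 1 3] 167 136 [4, 1, 1]
  [(167, 136, [4, 1, 1])])

def c21t930 : Tr4 :=
  .br 1203 (.con 136 [4, 1, 4, 1]) .no .no (.hor [.f 1194 3 5] []) .no .no

def c21t931 : Tr4 :=
  .br 1217 (.br 1227 (.br 1202 (.br 1339 (.br 1347 (.con 136 [1, 1, 3, 2, 2, 4]) (.use 915) .no
  .no .no (.con 136 [1, 1, 3, 2, 2, 4])) .no (.con 136 [1, 1, 3, 2, 2, 4]) (.red [.t 1330 2 3, .f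
  1074 3 1] 151 136 [4, 1] [(151, 136, [4, 1]), (167, 136, [4, 1, 1])]) .no (.red [.f 1210 5 1, .f
  1202 1 3] 167 136 [4, 1, 1] [(167, 136, [4, 1, 1])])) .no .no (.use 930) (.red [.f 1202 5 3, .f
  1074 3 1, .f 1082 1 3] 151 136 [4, 1] [(151, 136, [4, 1]), (152, 136, [1])]) .no) .no (.br 1202
  (.use 929) .no .no (.use 930) (.red [.f 1202 5 3, .f 1074 3 1, .f 1082 1 3] 151 136 [4, 1]
  [(151, 136, [4, 1]), (152, 136, [1])]) .no) (.hor [.f 1091 3 1, .f 1090 1 5] [(153, 136, [3,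
  1])]) .no (.red [.t 1090 1 3, .t 954 3 1, .f 961 1 5] 136 136 [] [(136, 136, []), (153, 136, [3,
  1])])) .no (.hor [.f 1216 3 5] []) .no .no .no

def c21t932 : Tr4 :=
  .br 1208 (.use 661) .no (.red [.f 1080 3 1, .f 1080 1 5, .f 1072 5 3, .f 945 3 1, .f 953 1 3, .t
  1088 1 4] 136 136 [] [(135, 136, [4]), (136, 136, [])]) (.red [.t 1208 4 2, .f 1073 3 5] 151 136
  [4, 1] [(151, 136, [4, 1])]) .no .no

def c21t933 : Tr4 :=
  .br 970 (.br 1073 (.red [.f 1073 1 3, .f 1073 3 5] 151 136 [4, 1] [(151, 136, [4, 1])]) (.use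
  722) .no (.br 827 .no (.use 912) .no (.br 826 .no (.br 953 .no (.use 721) .no (.br 944 (.br 824
  (.br 825 .no (.hor [.f 697 1 5] []) (.br 1216 (.br 1217 (.hor [.f 1216 1 5] []) .no (.br 1097
  .no (.hor [.f 969 1 5] []) (.use 920) .no .no (.red [.t 960 3 1, .t 824 1 3, .f 952 3 1, .f 960
  1 3] 136 136 [] [(120, 136, [2]), (136, 136, [])])) .no .no .no) .no (.br 1097 (.use 922) (.hor
  [.f 969 1 5] []) (.use 727) .no .no (.red [.t 960 3 1, .t 824 1 3, .f 952 3 1, .f 960 1 3] 136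
  136 [] [(120, 136, [2]), (136, 136, [])])) (.red [.f 1080 3 1, .f 1080 1 5, .t 944 1 3, .f 953 1
  3, .t 1088 1 4] 136 136 [] [(135, 136, [4]), (136, 136, [])]) (.red [.t 1080 3 1, .t 944 1 3, .f
  953 1 3, .f 1081 3 1] 136 136 [] [(135, 136, [4]), (136, 136, [])]) .no) (.use 868) .no .no)
  (.con 136 [2, 4, 1, 3]) (.con 136 [2, 4, 1, 3]) (.con 136 [2, 4, 1, 3]) (.con 136 [2, 4, 1, 3])
  .no) (.use 593) (.hor [.f 944 3 5] []) (.use 630) .no .no) .no (.red [.t 1088 4 2, .f 953 3 5]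
  136 136 [] [(136, 136, [])])) (.red [.f 826 3 1, .f 834 1 5, .t 1098 2 4, .f 955 1 3, .t 954 2
  3] 136 136 [] [(136, 136, []), (137, 136, [3])]) (.hor [.f 818 3 5] []) .no (.use 924)) .no
  (.red [.t 962 4 2, .t 1098 2 4, .f 955 1 3, .f 827 3 1] 136 136 [] [(136, 136, []), (137, 136,
  [3])])) .no (.br 1208 (.use 661) .no (.br 953 .no (.br 826 .no (.use 873) (.red [.f 826 3 1, .f
  834 1 5, .t 1098 2 4, .f 955 1 3, .t 954 2 3] 136 136 [] [(136, 136, []), (137, 136, [3])])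
  (.use 925) (.red [.t 962 4 2, .t 1098 2 4, .f 955 1 3, .f 827 3 1] 136 136 [] [(136, 136, []),
  (137, 136, [3])]) .no) .no (.red [.f 1080 3 1, .f 1080 1 5, .f 1072 5 3, .f 945 3 1, .f 953 1 3,
  .t 1088 1 4] 136 136 [] [(135, 136, [4]), (136, 136, [])]) .no (.red [.t 1088 4 2, .f 953 3 5]
  136 136 [] [(136, 136, [])])) (.red [.t 1208 4 2, .f 1073 3 5] 151 136 [4, 1] [(151, 136, [4,
  1])]) .no .no)) (.use 116) (.hor [.f 970 3 5] []) .no .no (.br 953 .no (.br 944 (.use 872) (.use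
  717) (.br 945 (.con 136 [4, 4]) (.red [.f 817 1 3] 119 136 [2, 4] [(119, 136, [2, 4])]) .no
  (.use 641) (.br 824 .no (.use 440) (.br 826 .no (.use 47) (.con 136 [2, 2]) (.red [.t 825 1 4,
  .f 944 3 5] 119 136 [2, 4] [(119, 136, [2, 4])]) (.use 900) .no) (.use 581) .no .no) .no) (.use
  718) (.use 859) .no) .no (.br 1073 (.red [.f 1073 1 3, .f 1073 3 5] 151 136 [4, 1] [(151, 136,
  [4, 1])]) .no .no (.br 944 (.br 1208 (.br 1201 (.use 913) .no .no (.red [.f 1065 3 1, .f 1073 1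
  3] 151 136 [4, 1] [(150, 136, [4, 4, 1]), (151, 136, [4, 1])]) (.red [.t 1081 1 4] 151 136 [4,
  1] [(151, 136, [4, 1])]) (.br 1216 (.br 1217 (.hor [.f 1216 1 5] []) .no (.br 1098 (.hor [.f
  1090 1 3, .f 1090 3 5] [(153, 121, [1, 1])]) .no (.br 1097 .no .no (.hor [.f 1097 3 5] []) .no
  .no (.use 928)) .no .no (.hor [.t 1217 3 2, .f 1090 3 5] [(153, 121, [1, 1])])) .no .no .no) .no
  (.use 931) .no (.red [.t 1080 3 1, .t 944 1 3, .f 953 1 3, .f 1081 3 1] 136 136 [] [(135, 136,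
  [4]), (136, 136, [])]) .no)) .no (.red [.f 1080 3 1, .f 1080 1 5, .t 944 1 3, .f 953 1 3, .t
  1088 1 4] 136 136 [] [(135, 136, [4]), (136, 136, [])]) (.use 918) .no .no) (.use 593) (.hor [.f
  944 3 5] []) (.use 630) .no .no) .no (.use 932)) .no (.red [.t 1088 4 2, .f 953 3 5] 136 136 []
  [(136, 136, [])]))

def c21t934 : Tr4 :=
  .br 946 .no (.use 523) .no (.br 1065 (.use 576) (.red [.f 937 1 3, .f 937 3 5] 134 136 [4, 4]
  [(134, 136, [4, 4])]) .no (.use 737) (.red [.t 945 1 4] 134 136 [4, 4] [(134, 136, [4, 4])])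
  (.con 136 [4, 4, 1])) (.use 738) .no

def c21t935 : Tr4 :=
  .br 1202 (.use 562) .no .no (.br 1203 (.use 904) .no .no (.hor [.f 1194 3 5] []) .no .no) (.red
  [.f 1202 5 3, .f 1074 3 1, .f 1082 1 3] 151 136 [4, 1] [(151, 136, [4, 1]), (152, 136, [1])])
  (.red [.t 1081 1 4] 151 136 [4, 1] [(151, 136, [4, 1])])

def c21t936 : Tr4 :=
  .br 946 .no (.use 645) .no (.use 731) .no .no

def c21t937 : Tr4 :=
  .br 944 (.use 872) (.use 717) (.red [.f 817 1 3] 119 136 [2, 4] [(119, 136, [2, 4])]) (.use 718)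
  .no .no

def c21t938 : Tr4 :=
  .br 945 .no (.use 937) .no (.hor [.f 937 3 5] []) .no (.use 859)

def c21t939 : Tr4 :=
  .br 1098 (.hor [.f 1090 1 3, .f 1090 3 5] [(153, 136, [3, 1])]) .no (.hor [.f 1097 3 5] []) .no
  .no .no

def c21t940 : Tr4 :=
  .br 1097 .no (.red [.f 961 1 3, .f 960 3 5, .t 824 1 3, .f 952 3 1, .t 1088 2 3] 136 136 []
  [(120, 136, [2]), (136, 136, [])]) (.use 939) .no (.hor [.t 1217 3 2, .f 1090 3 5] [(153, 121,
  [1, 1])]) (.red [.t 960 3 1, .t 824 1 3, .f 952 3 1, .f 960 1 3] 136 136 [] [(120, 136, [2]),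
  (136, 136, [])])

def c21t941 : Tr4 :=
  .br 1097 .no (.red [.f 961 1 3, .f 960 3 5, .f 832 5 1, .f 824 1 3, .f 952 3 1, .t 1088 2 3] 136
  136 [] [(120, 136, [2]), (136, 136, [])]) (.use 939) .no (.hor [.t 1217 3 2, .f 1090 3 5] [(153,
  121, [1, 1])]) (.red [.t 960 3 1, .f 832 5 1, .f 824 1 3, .f 952 3 1, .f 960 1 3] 136 136 []
  [(120, 136, [2]), (136, 136, [])])

def c21t942 : Tr4 :=
  .br 1217 (.hor [.f 1216 1 5] []) .no (.br 832 .no (.br 833 .no (.hor [.f 704 1 5] []) (.con 136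
  [2, 2, 3]) (.use 940) .no .no) (.red [.f 832 3 1] 121 136 [2, 3] [(121, 136, [2, 3])]) .no (.use
  941) .no) .no .no .no

def c21t943 : Tr4 :=
  .br 1217 (.hor [.f 1216 1 5] []) .no (.br 833 .no (.hor [.f 705 1 5] []) .no (.use 940) .no
  (.use 941)) .no .no .no

def c21t944 : Tr4 :=
  .br 824 (.use 943) (.con 136 [2, 4, 1, 3]) (.con 136 [2, 4, 1, 3]) (.con 136 [2, 4, 1, 3]) (.con
  136 [2, 4, 1, 3]) .no

def c21t945 : Tr4 :=
  .br 842 .no (.red [.f 706 1 3, .t 834 3 1] 121 136 [2, 3] [(105, 136, [2, 3, 2]), (121, 136, [2,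
  3])]) (.br 953 .no (.use 938) .no (.br 944 (.br 1216 (.br 824 (.use 942) (.con 136 [2, 4, 1, 3])
  (.con 136 [2, 4, 1, 3]) (.con 136 [2, 4, 1, 3]) (.con 136 [2, 4, 1, 3]) .no) .no (.use 875)
  (.red [.f 1080 3 1, .f 1080 1 5, .t 944 1 3, .f 953 1 3, .t 1088 1 4] 136 136 [] [(135, 136,
  [4]), (136, 136, [])]) (.red [.t 1080 3 1, .t 944 1 3, .f 953 1 3, .f 1081 3 1] 136 136 []
  [(135, 136, [4]), (136, 136, [])]) .no) (.use 593) (.hor [.f 944 3 5] []) (.use 853) .no .no)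
  .no (.red [.t 1088 4 2, .f 953 3 5] 136 136 [] [(136, 136, [])])) .no (.red [.f 842 5 1, .f 835
  1 3] 121 136 [2, 3] [(121, 136, [2, 3])]) (.br 953 .no (.use 938) .no (.br 944 (.br 1216 (.use
  944) .no (.use 875) (.red [.f 1080 3 1, .f 1080 1 5, .t 944 1 3, .f 953 1 3, .t 1088 1 4] 136
  136 [] [(135, 136, [4]), (136, 136, [])]) (.red [.t 1080 3 1, .t 944 1 3, .f 953 1 3, .f 1081 3
  1] 136 136 [] [(135, 136, [4]), (136, 136, [])]) .no) (.use 593) (.hor [.f 944 3 5] []) (.use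
  853) .no .no) .no (.red [.t 1088 4 2, .f 953 3 5] 136 136 [] [(136, 136, [])]))

def c21t946 : Tr4 :=
  .br 824 .no (.use 439) (.use 45) (.use 581) .no .no

def c21t947 : Tr4 :=
  .br 944 (.use 872) (.use 717) (.use 946) (.use 718) .no .no

def c21t948 : Tr4 :=
  .br 953 .no (.br 826 .no (.use 873) .no (.use 861) (.use 947) .no) .no .no .no (.red [.t 1088 4
  2, .f 953 3 5] 136 136 [] [(136, 136, [])])

def c21t949 : Tr4 :=
  .br 945 .no (.use 937) .no (.use 899) (.use 946) .no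

def c21t950 : Tr4 :=
  .br 946 .no (.use 724) .no (.hor [.f 938 3 5] []) .no .no

def c21t951 : Tr4 :=
  .br 842 .no (.red [.f 706 1 3, .t 834 3 1] 121 136 [2, 3] [(105, 136, [2, 3, 2]), (121, 136, [2,
  3])]) (.use 942) .no (.red [.f 842 5 1, .f 835 1 3] 121 136 [2, 3] [(121, 136, [2, 3])]) (.use
  943)

def c21l37 : List Tr4 :=
  [c21t924, c21t925, c21t926, c21t927, c21t928, c21t929, c21t930, c21t931, c21t932, c21t933,
  c21t934, c21t935, c21t936, c21t937, c21t938, c21t939, c21t940, c21t941, c21t942, c21t943,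
  c21t944, c21t945, c21t946, c21t947, c21t948, c21t949, c21t950, c21t951]

theorem c21k37 : chkLF ⟨4, 0, 0, true, -8⟩ false 1 c21N 924 c21l37 = true := by decide +kernel

def c21t952 : Tr4 :=
  .br 1075 (.br 953 .no (.use 878) .no (.br 944 (.br 824 (.br 1208 (.br 825 .no (.br 826 .no (.hor
  [.f 697 1 5] []) .no .no (.br 817 .no (.hor [.f 689 1 3, .f 817 3 1, .f 817 1 5] [(103, 121, [4,
  2, 4]), (119, 121, [4, 4])]) .no (.br 1202 (.red [.f 1202 1 3, .f 1074 3 1] 151 136 [4, 1]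
  [(151, 136, [4, 1]), (167, 136, [4, 1, 1])]) .no .no (.br 1216 (.use 951) .no (.use 883) .no
  (.red [.t 1080 3 1, .t 944 1 3, .f 953 1 3, .f 1081 3 1] 136 136 [] [(135, 136, [4]), (136, 136,
  [])]) .no) .no (.red [.t 1081 1 4, .f 1074 1 5] 151 136 [4, 1] [(151, 136, [4, 1])])) .no (.hor
  [.t 952 2 4, .f 817 1 5] [(119, 121, [4, 4])])) .no) (.br 832 .no (.br 1216 (.use 951) .no (.br
  1202 (.red [.f 1202 1 3, .f 1074 3 1] 151 136 [4, 1] [(151, 136, [4, 1]), (167, 136, [4, 1,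
  1])]) .no .no (.use 890) .no (.red [.t 1081 1 4, .f 1074 1 5] 151 136 [4, 1] [(151, 136, [4,
  1])])) .no (.red [.t 1080 3 1, .t 944 1 3, .f 953 1 3, .f 1081 3 1] 136 136 [] [(135, 136, [4]),
  (136, 136, [])]) .no) (.red [.f 832 3 1] 121 136 [2, 3] [(121, 136, [2, 3])]) .no .no .no) (.use
  868) (.hor [.t 945 3 2, .f 824 1 5] [(119, 121, [4, 4])]) .no) .no (.red [.f 1080 3 1, .f 1080 1
  5, .t 944 1 3, .f 953 1 3, .t 1088 1 4] 136 136 [] [(135, 136, [4]), (136, 136, [])]) (.dom 151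
  136 [4, 1]) .no .no) (.con 136 [2, 4, 1, 3]) (.con 136 [2, 4, 1, 3]) (.con 136 [2, 4, 1, 3])
  (.con 136 [2, 4, 1, 3]) .no) (.use 593) (.use 877) (.use 805) .no .no) .no (.red [.t 1088 4 2,
  .f 953 3 5] 136 136 [] [(136, 136, [])])) .no .no (.br 953 .no (.use 892) .no (.br 944 (.br 824
  (.br 1216 (.use 951) .no (.br 1202 (.red [.f 1202 1 3, .f 1074 3 1] 151 136 [4, 1] [(151, 136,
  [4, 1]), (167, 136, [4, 1, 1])]) .no .no (.use 801) (.use 895) (.red [.t 1081 1 4] 151 136 [4,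
  1] [(151, 136, [4, 1])])) (.red [.f 1080 3 1, .f 1080 1 5, .t 944 1 3, .f 953 1 3, .t 1088 1 4]
  136 136 [] [(135, 136, [4]), (136, 136, [])]) (.red [.t 1080 3 1, .t 944 1 3, .f 953 1 3, .f
  1081 3 1] 136 136 [] [(135, 136, [4]), (136, 136, [])]) .no) (.con 136 [2, 4, 1, 3]) (.con 136
  [2, 4, 1, 3]) (.con 136 [2, 4, 1, 3]) (.con 136 [2, 4, 1, 3]) .no) (.use 593) (.use 658) (.use
  618) .no .no) .no (.red [.t 1088 4 2, .f 953 3 5] 136 136 [] [(136, 136, [])])) .no .no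

def c21t953 : Tr4 :=
  .br 952 .no (.use 723) .no (.br 825 (.use 725) (.con 136 [4, 2, 3, 3]) (.con 136 [4, 2, 3, 3])
  (.con 136 [4, 2, 3, 3]) .no (.con 136 [4, 2, 3, 3])) (.red [.t 1088 4 2, .f 953 3 5] 136 136 []
  [(136, 136, [])]) .no

def c21t954 : Tr4 :=
  .br 1211 (.hor [.f 1210 1 5] []) .no (.br 947 (.red [.f 947 1 3, .f 1074 3 5, .t 1218 2 4, .f
  954 3 1] 136 136 [] [(135, 136, [4]), (136, 136, []), (152, 136, [1])]) (.br 1073 (.red [.f 1073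
  1 3, .f 1073 3 5] 151 136 [4, 1] [(151, 136, [4, 1])]) (.br 952 .no (.use 723) .no (.br 825 (.br
  826 .no (.use 725) .no (.dom 119 136 [2, 4]) (.br 824 .no (.use 936) (.use 45) (.use 581) .no
  .no) .no) (.con 136 [4, 2, 3, 3]) (.con 136 [4, 2, 3, 3]) (.con 136 [4, 2, 3, 3]) (.con 136 [4,
  2, 3, 3]) (.con 136 [4, 2, 3, 3])) (.red [.t 1088 4 2, .f 953 3 5] 136 136 [] [(136, 136, [])])
  .no) .no (.br 946 .no (.hor [.f 818 1 5] []) .no (.use 945) .no (.use 948)) .no (.br 1208 (.use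
  896) .no (.br 953 .no (.br 944 .no (.use 717) (.br 826 .no (.use 725) .no (.dom 119 136 [2, 4])
  (.use 949) .no) (.use 718) (.use 859) .no) .no (.red [.f 1080 3 1, .f 1080 1 5, .f 1072 5 3, .f
  945 3 1, .f 953 1 3, .t 1088 1 4] 136 136 [] [(135, 136, [4]), (136, 136, [])]) .no (.red [.t
  1088 4 2, .f 953 3 5] 136 136 [] [(136, 136, [])])) (.red [.t 1208 4 2, .f 1073 3 5] 151 136 [4,
  1] [(151, 136, [4, 1])]) .no .no)) .no (.br 1073 (.red [.f 1073 1 3, .f 1073 3 5] 151 136 [4, 1]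
  [(151, 136, [4, 1])]) (.use 950) .no (.br 946 .no (.use 952) .no (.use 945) .no (.use 948)) .no
  (.br 1208 (.use 896) .no (.br 953 .no (.br 944 .no (.use 717) (.br 826 .no (.use 725) .no (.use
  898) (.use 949) .no) (.use 718) (.use 859) .no) .no (.red [.f 1080 3 1, .f 1080 1 5, .f 1072 5
  3, .f 945 3 1, .f 953 1 3, .t 1088 1 4] 136 136 [] [(135, 136, [4]), (136, 136, [])]) .no (.red
  [.t 1088 4 2, .f 953 3 5] 136 136 [] [(136, 136, [])])) (.red [.t 1208 4 2, .f 1073 3 5] 151 136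
  [4, 1] [(151, 136, [4, 1])]) .no .no)) .no (.red [.t 1082 4 2, .t 1218 2 4, .f 954 3 1] 136 136
  [] [(135, 136, [4]), (136, 136, []), (152, 136, [1])])) (.br 1073 (.red [.f 1073 1 3, .f 1073 3
  5] 151 136 [4, 1] [(151, 136, [4, 1])]) (.br 826 .no (.use 953) .no (.use 719) (.br 953 .no (.br
  944 (.use 872) (.use 717) (.br 824 .no (.br 947 (.con 136 [4, 4]) (.use 936) .no (.use 950) .no
  (.use 738)) (.use 45) (.use 581) .no .no) (.use 718) .no .no) .no .no .no (.red [.t 1088 4 2, .f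
  953 3 5] 136 136 [] [(136, 136, [])])) (.use 720)) .no (.use 627) .no (.use 713)) .no .no

def c21t955 : Tr4 :=
  .br 946 .no (.hor [.f 818 1 5] []) .no (.hor [.f 937 3 5] []) .no .no

def c21t956 : Tr4 :=
  .br 832 .no (.con 136 [3, 2, 2]) (.hor [.f 832 3 5] []) .no .no .no

def c21t957 : Tr4 :=
  .br 824 (.br 825 .no (.br 1217 (.hor [.f 1216 1 5] []) .no (.br 833 .no (.red [.f 697 1 3] 104
  136 [2, 2] [(104, 136, [2, 2])]) (.use 956) .no .no (.use 941)) .no .no .no) (.hor [.f 825 3 5]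
  []) (.use 868) .no .no) (.con 136 [2, 4, 1, 3]) (.con 136 [2, 4, 1, 3]) (.con 136 [2, 4, 1, 3])
  (.con 136 [2, 4, 1, 3]) .no

def c21t958 : Tr4 :=
  .br 1208 (.use 896) .no (.red [.f 1080 3 1, .f 1080 1 5, .f 1072 5 3, .f 945 3 1, .f 953 1 3, .t
  1088 1 4] 136 136 [] [(135, 136, [4]), (136, 136, [])]) (.red [.t 1208 4 2, .f 1073 3 5] 151 136
  [4, 1] [(151, 136, [4, 1])]) .no .no

def c21t959 : Tr4 :=
  .br 1201 (.use 846) .no .no (.hor [.f 1193 3 5] []) .no (.br 938 (.br 1064 (.red [.t 1064 1 3,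
  .f 1073 1 3, .f 1073 3 5] 151 136 [4, 1] [(150, 136, [4, 4, 1]), (151, 136, [4, 1])]) (.hor [.f
  936 1 3, .f 1064 3 5] [(134, 133, [3])]) .no (.br 1208 (.use 794) .no .no .no .no .no) .no .no)
  (.hor [.f 810 1 3, .f 809 3 5] [(118, 136, [4, 2, 4])]) .no (.use 757) .no (.use 882))

def c21t960 : Tr4 :=
  .br 946 .no (.con 136 [2, 4, 4]) .no (.hor [.f 937 3 5] []) .no .no

def c21t961 : Tr4 :=
  .br 1073 (.red [.f 1073 1 3, .f 1073 3 5] 151 136 [4, 1] [(151, 136, [4, 1])]) (.use 950) .no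
  (.br 946 .no (.br 953 .no (.br 1075 (.use 878) .no .no (.use 892) .no .no) .no (.br 944 (.br 825
  .no (.br 1216 (.use 957) .no (.br 824 (.br 833 .no (.red [.f 697 1 3] 104 136 [2, 2] [(104, 136,
  [2, 2])]) (.use 956) .no .no (.br 1075 (.br 817 .no (.red [.f 826 3 1, .f 689 1 3, .f 817 3 1,
  .f 824 1 5, .f 826 1 3, .t 1088 4 2] 136 136 [] [(103, 104, [4]), (119, 118, [3]), (136, 136,
  [])]) .no (.br 1202 (.red [.f 1202 1 3, .f 1074 3 1] 151 136 [4, 1] [(151, 136, [4, 1]), (167,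
  136, [4, 1, 1])]) .no .no (.br 1217 (.use 959) .no (.use 941) .no .no .no) .no (.red [.t 1081 1
  4, .f 1074 1 5] 151 136 [4, 1] [(151, 136, [4, 1])])) .no (.hor [.t 952 2 4, .f 817 1 5] [(119,
  104, [1, 4])])) .no .no (.use 893) .no .no)) (.con 136 [2, 4, 1, 3]) (.con 136 [2, 2]) (.con 136
  [2, 4, 1, 3]) .no .no) (.red [.f 1080 3 1, .f 1080 1 5, .t 944 1 3, .f 953 1 3, .t 1088 1 4] 136
  136 [] [(135, 136, [4]), (136, 136, [])]) (.red [.t 1080 3 1, .t 944 1 3, .f 953 1 3, .f 1081 3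
  1] 136 136 [] [(135, 136, [4]), (136, 136, [])]) .no) (.hor [.f 825 3 5] []) (.hor [.f 826 3 1,
  .f 817 3 1, .f 817 1 5, .f 826 1 3] [(119, 136, [4, 2])]) .no (.con 136 [2, 4, 1, 3])) (.use
  593) (.hor [.f 944 3 5] []) (.use 806) .no .no) .no (.red [.t 1088 4 2, .f 953 3 5] 136 136 []
  [(136, 136, [])])) .no (.hor [.f 938 3 5] []) .no (.br 1075 (.br 953 .no (.use 878) .no .no .no
  (.red [.t 1088 4 2, .f 953 3 5] 136 136 [] [(136, 136, [])])) .no .no (.br 953 .no (.use 892)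
  .no .no .no (.red [.t 1088 4 2, .f 953 3 5] 136 136 [] [(136, 136, [])])) .no .no)) .no (.br 953
  .no (.br 944 .no (.use 717) (.br 824 .no (.br 945 .no (.use 542) .no (.use 960) (.use 434) .no)
  (.con 136 [2, 2]) (.use 581) .no .no) (.use 718) (.use 859) .no) .no (.use 958) .no (.red [.t
  1088 4 2, .f 953 3 5] 136 136 [] [(136, 136, [])]))

def c21t962 : Tr4 :=
  .br 952 .no (.use 723) .no (.br 825 (.red [.f 826 3 1, .f 825 1 5, .t 1073 2 3, .f 944 3 5, .t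
  1088 4 2, .t 961 4 2] 136 136 [] [(135, 119, [1]), (136, 136, [])]) (.con 136 [4, 2, 3, 1])
  (.con 136 [4, 2, 3, 1]) (.con 136 [4, 2, 3, 1]) .no (.con 136 [4, 2, 3, 1])) (.red [.t 1088 4 2,
  .f 953 3 5] 136 136 [] [(136, 136, [])]) .no

def c21t963 : Tr4 :=
  .br 1075 (.br 826 .no (.hor [.f 697 1 5] []) .no .no (.br 817 .no (.hor [.f 689 1 3, .f 817 3 1,
  .f 817 1 5] [(103, 136, [2, 2, 4]), (119, 136, [2, 4])]) .no (.br 1208 (.br 1202 (.red [.f 1202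
  1 3, .f 1074 3 1] 151 136 [4, 1] [(151, 136, [4, 1]), (167, 136, [4, 1, 1])]) .no .no (.br 1201
  (.use 742) .no .no (.hor [.f 1193 3 5] []) .no (.br 937 .no .no .no (.br 947 .no (.hor [.f 818 1
  5] []) .no (.br 938 (.br 1064 (.red [.t 1064 1 3, .f 1073 1 3, .f 1073 3 5] 151 136 [4, 1]
  [(150, 136, [4, 4, 1]), (151, 136, [4, 1])]) (.hor [.f 936 1 3, .f 1064 3 5] [(134, 133, [3])])
  .no (.br 1067 (.use 792) .no .no (.use 764) .no .no) .no .no) (.hor [.f 810 1 3, .f 809 3 5]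
  [(118, 136, [2, 4, 4])]) .no (.use 757) .no .no) .no .no) (.use 882) (.red [.t 1072 2 4, .f 1072
  5 1, .f 1073 1 3] 151 136 [4, 1] [(134, 135, [4]), (151, 136, [4, 1])]))) .no (.red [.t 1081 1
  4, .f 1074 1 5] 151 136 [4, 1] [(151, 136, [4, 1])])) .no .no (.dom 151 136 [4, 1]) .no .no) .no
  (.hor [.t 952 2 4, .f 817 1 5] [(119, 136, [2, 4])])) .no) (.red [.f 947 1 3, .f 1074 3 5, .t
  1218 2 4, .f 954 3 1] 136 136 [] [(135, 136, [4]), (136, 136, []), (152, 136, [1])]) .no (.use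
  893) .no .no

def c21t964 : Tr4 :=
  .br 1208 (.br 1202 (.red [.f 1202 1 3, .f 1074 3 1] 151 136 [4, 1] [(151, 136, [4, 1]), (167,
  136, [4, 1, 1])]) .no .no (.br 1075 (.br 1226 (.use 879) .no (.br 1201 (.use 742) .no .no (.hor
  [.f 1193 3 5] []) .no (.br 1227 (.use 811) .no (.hor [.f 1226 3 5] []) .no .no .no)) .no (.hor
  [.t 1090 1 3, .f 1217 3 5] [(153, 136, [3, 1])]) .no) .no .no (.use 777) .no .no) (.br 1227
  (.use 779) .no (.br 1201 (.use 780) .no .no (.red [.f 1065 3 1, .f 1073 1 3] 151 136 [4, 1]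
  [(150, 136, [4, 1, 4]), (151, 136, [4, 1])]) .no (.br 1226 (.br 1347 (.use 778) .no (.use 767)
  (.hor [.f 1211 3 1, .f 1210 1 5] [(168, 167, [3])]) .no (.red [.t 1210 1 3, .f 1202 5 3, .f 1074
  3 1, .f 1082 1 3] 151 136 [4, 1] [(151, 136, [4, 1]), (152, 136, [1]), (168, 167, [3])])) .no
  (.hor [.f 1226 3 5] []) .no .no .no)) .no .no (.hor [.t 1090 1 3, .f 1217 3 5] [(153, 136, [3,
  1])])) (.red [.t 1081 1 4] 151 136 [4, 1] [(151, 136, [4, 1])])) .no .no (.br 1201 (.br 1075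
  (.dom 151 136 [4, 1]) .no .no (.br 1202 (.red [.f 1202 1 3, .f 1074 3 1] 151 136 [4, 1] [(151,
  136, [4, 1]), (167, 136, [4, 1, 1])]) .no .no (.use 782) (.br 1226 (.use 894) .no (.br 1227
  (.use 833) .no (.hor [.f 1226 3 5] []) .no .no .no) .no (.hor [.t 1090 1 3, .f 1217 3 5] [(153,
  136, [3, 1])]) .no) .no) .no .no) .no .no (.red [.f 1065 3 1, .f 1073 1 3] 151 136 [4, 1] [(150,
  136, [4, 4, 1]), (151, 136, [4, 1])]) (.red [.t 1081 1 4, .f 1200 3 5] 151 136 [4, 1] [(151,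
  136, [4, 1])]) .no) .no .no

def c21t965 : Tr4 :=
  .br 1098 (.hor [.f 1090 1 3, .f 1090 3 5] [(153, 136, [3, 1])]) .no (.use 964) .no .no .no

def c21t966 : Tr4 :=
  .br 1098 (.hor [.f 1090 1 3, .f 1090 3 5] [(153, 136, [3, 1])]) .no (.use 964) .no .no .no

def c21l38 : List Tr4 :=
  [c21t952, c21t953, c21t954, c21t955, c21t956, c21t957, c21t958, c21t959, c21t960, c21t961,
  c21t962, c21t963, c21t964, c21t965, c21t966]

theorem c21k38 : chkLF ⟨4, 0, 0, true, -8⟩ false 1 c21N 952 c21l38 = true := by decide +kernel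

def c21t967 : Tr4 :=
  .br 1211 (.hor [.f 1210 1 5] []) .no (.br 825 .no (.br 1216 (.br 1217 (.hor [.f 1216 1 5] [])
  .no (.br 1097 .no (.br 946 .no (.use 963) .no (.br 947 (.red [.f 947 1 3, .f 1074 3 5, .t 1218 2
  4, .f 954 3 1] 136 136 [] [(135, 136, [4]), (136, 136, []), (152, 136, [1])]) (.use 965) .no
  (.hor [.f 938 3 5] []) .no .no) (.red [.t 1082 4 2, .t 1218 2 4, .f 954 3 1] 136 136 [] [(135,
  136, [4]), (136, 136, []), (152, 136, [1])]) .no) (.use 939) .no (.hor [.t 1217 3 2, .f 1090 3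
  5] [(153, 136, [3, 1])]) (.br 946 .no (.use 963) .no (.br 947 (.red [.f 947 1 3, .f 1074 3 5, .t
  1218 2 4, .f 954 3 1] 136 136 [] [(135, 136, [4]), (136, 136, []), (152, 136, [1])]) (.use 966)
  .no (.hor [.f 938 3 5] []) .no .no) (.red [.t 1082 4 2, .t 1218 2 4, .f 954 3 1] 136 136 []
  [(135, 136, [4]), (136, 136, []), (152, 136, [1])]) .no)) .no .no .no) .no (.br 946 .no (.br
  1075 (.br 826 .no (.hor [.f 697 1 5] []) .no .no (.br 817 .no (.hor [.f 689 1 3, .f 817 3 1, .f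
  817 1 5] [(103, 136, [2, 2, 4]), (119, 136, [2, 4])]) .no (.br 1217 (.br 1202 (.red [.f 1202 1
  3, .f 1074 3 1] 151 136 [4, 1] [(151, 136, [4, 1]), (167, 136, [4, 1, 1])]) .no .no (.br 947 .no
  (.hor [.f 818 1 5] []) .no (.use 959) .no .no) .no (.red [.t 1081 1 4, .f 1074 1 5] 151 136 [4,
  1] [(151, 136, [4, 1])])) .no (.hor [.f 1216 3 5] []) .no .no .no) .no (.hor [.t 952 2 4, .f 817
  1 5] [(119, 136, [2, 4])])) .no) (.red [.f 947 1 3, .f 1074 3 5, .t 1218 2 4, .f 954 3 1] 136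
  136 [] [(135, 136, [4]), (136, 136, []), (152, 136, [1])]) .no (.use 893) .no .no) .no (.use
  875) (.red [.t 1082 4 2, .t 1218 2 4, .f 954 3 1] 136 136 [] [(135, 136, [4]), (136, 136, []),
  (152, 136, [1])]) .no) (.red [.f 1080 3 1, .f 1080 1 5, .t 944 1 3, .f 953 1 3, .t 1088 1 4] 136
  136 [] [(135, 136, [4]), (136, 136, [])]) (.red [.t 1080 3 1, .t 944 1 3, .f 953 1 3, .f 1081 3
  1] 136 136 [] [(135, 136, [4]), (136, 136, [])]) .no) .no (.use 868) (.br 946 .no (.hor [.f 825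
  5 3, .f 825 3 5, .t 945 3 2, .f 824 1 5] [(119, 136, [2, 4])]) .no (.br 1216 (.br 947 (.red [.f
  947 1 3, .f 1074 3 5, .t 1218 2 4, .f 954 3 1] 136 136 [] [(135, 136, [4]), (136, 136, []),
  (152, 136, [1])]) (.br 1217 (.hor [.f 1216 1 5] []) .no (.br 1097 .no (.use 965) (.use 939) .no
  (.hor [.t 1217 3 2, .f 1090 3 5] [(153, 136, [3, 1])]) (.use 966)) .no .no .no) .no (.hor [.f
  938 3 5] []) .no .no) .no (.use 875) (.red [.f 1080 3 1, .f 1080 1 5, .t 944 1 3, .f 953 1 3, .t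
  1088 1 4] 136 136 [] [(135, 136, [4]), (136, 136, [])]) (.red [.t 1080 3 1, .t 944 1 3, .f 953 1
  3, .f 1081 3 1] 136 136 [] [(135, 136, [4]), (136, 136, [])]) .no) (.red [.t 1082 4 2, .t 1218 2
  4, .f 954 3 1] 136 136 [] [(135, 136, [4]), (136, 136, []), (152, 136, [1])]) .no) .no) (.use
  627) .no .no

def c21t968 : Tr4 :=
  .br 834 .no (.use 954) (.red [.t 834 3 1] 121 136 [2, 3] [(121, 136, [2, 3])]) (.br 1211 (.hor
  [.f 1210 1 5] []) .no (.br 947 (.red [.f 947 1 3, .f 1074 3 5, .t 1218 2 4, .f 954 3 1] 136 136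
  [] [(135, 136, [4]), (136, 136, []), (152, 136, [1])]) (.br 953 .no (.br 944 (.use 872) (.use
  717) (.br 824 .no (.br 945 (.red [.f 826 3 1, .f 825 1 5, .t 1073 2 3, .f 944 3 5, .t 1088 4 2,
  .t 961 4 2] 136 136 [] [(135, 119, [1]), (136, 136, [])]) (.use 542) .no (.use 955) (.use 434)
  .no) (.con 136 [2, 2]) (.use 581) .no .no) (.use 718) (.use 859) .no) .no (.br 946 .no (.hor [.f
  818 1 5] []) .no (.br 1073 (.red [.f 1073 1 3, .f 1073 3 5] 151 136 [4, 1] [(151, 136, [4, 1])])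
  .no .no (.br 944 (.br 1216 (.use 957) .no (.use 875) (.red [.f 1080 3 1, .f 1080 1 5, .t 944 1
  3, .f 953 1 3, .t 1088 1 4] 136 136 [] [(135, 136, [4]), (136, 136, [])]) (.red [.t 1080 3 1, .t
  944 1 3, .f 953 1 3, .f 1081 3 1] 136 136 [] [(135, 136, [4]), (136, 136, [])]) .no) (.use 593)
  (.hor [.f 944 3 5] []) (.use 853) .no .no) .no (.use 958)) .no .no) .no (.red [.t 1088 4 2, .f
  953 3 5] 136 136 [] [(136, 136, [])])) .no (.use 961) .no (.red [.t 1082 4 2, .t 1218 2 4, .f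
  954 3 1] 136 136 [] [(135, 136, [4]), (136, 136, []), (152, 136, [1])])) (.br 1073 (.red [.f
  1073 1 3, .f 1073 3 5] 151 136 [4, 1] [(151, 136, [4, 1])]) (.use 962) .no (.use 627) .no (.use
  713)) .no .no) .no (.br 953 .no (.br 944 (.use 872) (.use 717) (.br 945 (.red [.t 953 2 3, .t
  1073 2 3, .f 944 3 5, .t 1088 4 2, .f 825 3 1] 136 136 [] [(135, 119, [1]), (136, 136, [])])
  (.use 937) .no (.br 947 (.use 641) (.use 955) .no (.use 960) .no (.br 1211 (.hor [.f 1210 1 5]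
  []) .no (.red [.t 1082 4 2, .t 1218 2 4, .f 954 3 1] 136 136 [] [(135, 119, [1]), (136, 136,
  []), (152, 136, [1])]) (.br 1073 (.red [.f 1073 1 3, .f 1073 3 5] 151 136 [4, 1] [(151, 136, [4,
  1])]) .no .no (.use 627) .no (.use 713)) .no .no)) (.red [.t 953 2 3, .f 945 5 3, .f 944 3 5, .t
  1088 4 2, .f 825 3 1] 136 136 [] [(136, 136, [])]) .no) (.use 718) (.use 859) .no) .no (.br 1073
  (.red [.f 1073 1 3, .f 1073 3 5] 151 136 [4, 1] [(151, 136, [4, 1])]) .no .no (.br 944 (.br 824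
  (.use 967) (.con 136 [2, 4, 1, 3]) (.con 136 [2, 4, 1, 3]) (.con 136 [2, 4, 1, 3]) (.con 136 [2,
  4, 1, 3]) .no) (.use 593) (.hor [.f 944 3 5] []) (.use 853) .no .no) .no (.use 958)) .no (.red
  [.t 1088 4 2, .f 953 3 5] 136 136 [] [(136, 136, [])]))

def c21t969 : Tr4 :=
  .br 944 (.hor [.f 944 1 5] []) (.con 136 [4, 4]) (.con 136 [4, 4]) (.con 136 [4, 4]) .no .no

def c21t970 : Tr4 :=
  .br 1201 (.use 917) .no .no (.red [.f 1065 3 1, .f 1073 1 3] 151 136 [4, 1] [(150, 136, [4, 1,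
  4]), (151, 136, [4, 1])]) (.red [.t 1081 1 4] 151 136 [4, 1] [(151, 136, [4, 1])]) (.br 1227
  (.br 1225 (.hor [.f 1217 1 3, .f 1216 3 5] [(169, 137, [1, 1])]) .no (.br 1226 (.hor [.f 1226 1
  5] []) .no (.hor [.f 1225 3 5] []) .no .no .no) .no (.red [.f 1097 5 1, .f 1090 1 3, .f 1090 3
  5, .t 954 3 1] 136 136 [] [(136, 136, []), (153, 136, [3, 1])]) .no) .no (.br 1202 (.br 1208
  (.use 929) .no .no .no .no .no) .no .no (.use 930) (.red [.f 1202 5 3, .f 1074 3 1, .f 1082 1 3]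
  151 136 [4, 1] [(151, 136, [4, 1]), (152, 136, [1])]) .no) (.hor [.f 1091 3 1, .f 1090 1 5]
  [(153, 136, [3, 1])]) .no (.red [.t 1090 1 3, .t 954 3 1, .f 961 1 5] 136 136 [] [(136, 136,
  []), (153, 136, [3, 1])]))

def c21t971 : Tr4 :=
  .br 1097 (.use 922) (.red [.f 961 1 3, .f 960 3 5, .t 824 1 3, .f 952 3 1, .t 1088 2 3] 136 136
  [] [(120, 136, [2]), (136, 136, [])]) (.use 727) .no (.br 1217 (.use 970) .no (.use 940) .no .no
  .no) (.red [.t 960 3 1, .t 824 1 3, .f 952 3 1, .f 960 1 3] 136 136 [] [(120, 136, [2]), (136,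
  136, [])])

def c21t972 : Tr4 :=
  .br 824 .no (.br 945 .no (.use 542) (.hor [.f 944 3 5] []) (.use 715) (.br 825 (.use 440) (.con
  136 [4, 2, 3, 3]) .no (.con 136 [4, 2, 3, 3]) (.con 136 [4, 2, 3, 3]) .no) .no) .no (.use 633)
  (.use 559) .no

def c21t973 : Tr4 :=
  .br 952 .no (.red [.f 961 1 3, .f 960 3 5, .f 832 5 1, .f 824 1 3, .f 952 3 1, .t 1088 2 3] 136
  136 [] [(120, 136, [2]), (136, 136, [])]) .no (.use 972) (.red [.t 1088 4 2, .f 953 3 5] 136 136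
  [] [(136, 136, [])]) .no

def c21t974 : Tr4 :=
  .br 1217 (.use 970) .no (.use 941) .no .no .no

def c21t975 : Tr4 :=
  .br 944 .no (.use 717) (.use 641) (.use 718) .no .no

def c21t976 : Tr4 :=
  .br 1073 (.red [.f 1073 1 3, .f 1073 3 5] 151 136 [4, 1] [(151, 136, [4, 1])]) (.use 969) .no
  (.br 833 .no (.hor [.f 705 1 5] []) (.br 832 .no (.con 136 [2, 2, 3]) (.hor [.f 832 3 5] [])
  (.con 136 [2, 2, 3]) .no .no) (.br 832 .no (.br 953 .no .no .no (.br 944 (.br 824 (.br 1216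
  (.use 951) .no (.use 971) (.red [.f 1080 3 1, .f 1080 1 5, .t 944 1 3, .f 953 1 3, .t 1088 1 4]
  136 136 [] [(135, 136, [4]), (136, 136, [])]) (.red [.t 1080 3 1, .t 944 1 3, .f 953 1 3, .f
  1081 3 1] 136 136 [] [(135, 136, [4]), (136, 136, [])]) .no) (.con 136 [2, 4, 1, 3]) .no (.con
  136 [2, 4, 1, 3]) .no .no) (.use 593) (.hor [.f 944 3 5] []) (.use 630) .no .no) .no (.red [.t
  1088 4 2, .f 953 3 5] 136 136 [] [(136, 136, [])])) (.red [.f 832 3 1] 121 136 [2, 3] [(121,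
  136, [2, 3])]) (.hor [.f 824 3 5] []) .no .no) .no (.br 969 (.use 973) (.red [.t 968 4 2] 121
  136 [2, 3] [(121, 136, [2, 3])]) (.br 842 .no (.red [.f 706 1 3] 105 136 [2, 2, 3] [(105, 136,
  [2, 2, 3])]) (.br 841 .no (.use 435) (.hor [.f 841 3 5] []) .no .no (.red [.f 832 5 3, .f 832 3
  1] 121 136 [2, 3] [(121, 136, [2, 3])])) .no (.red [.f 842 5 1, .f 835 1 3] 121 136 [2, 3]
  [(121, 136, [2, 3])]) (.br 953 .no (.br 944 (.use 872) (.use 717) (.use 972) (.use 718) (.use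
  859) .no) .no (.br 944 (.br 1216 (.use 944) .no (.br 824 (.br 1097 (.use 922) .no (.use 727) .no
  (.use 974) (.red [.t 960 3 1, .f 832 5 1, .f 824 1 3, .f 952 3 1, .f 960 1 3] 136 136 [] [(120,
  136, [2]), (136, 136, [])])) (.con 136 [2, 4, 1, 3]) .no (.con 136 [2, 4, 1, 3]) (.con 136 [2,
  4, 1, 3]) .no) (.red [.f 1080 3 1, .f 1080 1 5, .t 944 1 3, .f 953 1 3, .t 1088 1 4] 136 136 []
  [(135, 136, [4]), (136, 136, [])]) (.red [.t 1080 3 1, .t 944 1 3, .f 953 1 3, .f 1081 3 1] 136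
  136 [] [(135, 136, [4]), (136, 136, [])]) .no) (.use 593) (.use 972) (.use 630) .no .no) .no
  (.red [.t 1088 4 2, .f 953 3 5] 136 136 [] [(136, 136, [])]))) .no .no .no)) .no (.br 953 .no
  (.br 826 .no (.use 873) .no (.use 925) (.br 945 .no (.use 937) .no (.use 975) (.use 947) (.use
  859)) .no) .no (.use 932) .no (.red [.t 1088 4 2, .f 953 3 5] 136 136 [] [(136, 136, [])]))

def c21t977 : Tr4 :=
  .br 834 .no (.use 976) (.red [.t 834 3 1] 121 136 [2, 3] [(121, 136, [2, 3])]) (.br 1073 (.red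
  [.f 1073 1 3, .f 1073 3 5] 151 136 [4, 1] [(151, 136, [4, 1])]) (.use 962) .no (.br 953 .no (.br
  944 (.use 872) (.use 717) (.br 832 .no (.use 105) (.red [.f 832 3 1] 121 136 [2, 3] [(121, 136,
  [2, 3])]) (.con 136 [2, 2]) (.use 972) .no) (.use 718) (.use 859) .no) .no (.br 944 (.br 1216
  (.use 957) .no (.br 824 (.br 825 .no (.br 833 .no (.red [.f 697 1 3] 104 136 [2, 2] [(104, 136,
  [2, 2])]) (.use 956) .no .no (.br 1097 (.use 922) (.use 973) (.use 727) .no (.use 974) (.red [.t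
  960 3 1, .f 832 5 1, .f 824 1 3, .f 952 3 1, .f 960 1 3] 136 136 [] [(120, 136, [2]), (136, 136,
  [])]))) (.use 971) (.use 868) .no .no) (.con 136 [2, 4, 1, 3]) (.con 136 [2, 4, 1, 3]) (.con 136
  [2, 4, 1, 3]) (.con 136 [2, 4, 1, 3]) .no) (.red [.f 1080 3 1, .f 1080 1 5, .t 944 1 3, .f 953 1
  3, .t 1088 1 4] 136 136 [] [(135, 136, [4]), (136, 136, [])]) (.red [.t 1080 3 1, .t 944 1 3, .f
  953 1 3, .f 1081 3 1] 136 136 [] [(135, 136, [4]), (136, 136, [])]) .no) (.use 593) (.hor [.f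
  944 3 5] []) (.use 630) .no .no) .no (.red [.t 1088 4 2, .f 953 3 5] 136 136 [] [(136, 136,
  [])])) .no (.br 953 .no (.br 945 .no (.use 937) .no (.use 975) (.br 944 .no (.use 717) (.br 824
  .no (.use 434) (.con 136 [2, 2]) (.use 581) .no .no) (.use 718) .no .no) (.use 859)) .no (.use
  932) .no (.red [.t 1088 4 2, .f 953 3 5] 136 136 [] [(136, 136, [])]))) .no (.br 1073 (.red [.f
  1073 1 3, .f 1073 3 5] 151 136 [4, 1] [(151, 136, [4, 1])]) (.use 969) .no (.br 953 .no (.br 944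
  (.use 872) (.use 717) (.br 945 .no (.use 937) .no (.use 641) (.red [.t 953 2 3, .f 945 5 3, .f
  944 3 5, .t 1088 4 2, .f 825 3 1] 136 136 [] [(136, 136, [])]) .no) (.use 718) (.use 859) .no)
  .no (.br 944 (.br 1208 (.br 1201 (.use 913) .no .no (.red [.f 1065 3 1, .f 1073 1 3] 151 136 [4,
  1] [(150, 136, [4, 4, 1]), (151, 136, [4, 1])]) (.red [.t 1081 1 4] 151 136 [4, 1] [(151, 136,
  [4, 1])]) (.br 1216 (.br 1217 (.hor [.f 1216 1 5] []) .no (.br 1227 (.br 1098 (.hor [.f 1090 1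
  3, .f 1090 3 5] [(153, 121, [1, 1])]) .no (.br 1097 .no (.br 1226 (.use 927) .no (.br 1096 (.use
  916) .no (.hor [.f 1098 3 1, .f 1090 1 3, .f 1090 3 5] [(153, 121, [1, 1]), (154, 138, [1])])
  .no .no .no) .no .no .no) (.use 939) .no .no (.use 928)) .no .no (.hor [.t 1217 3 2, .f 1090 3
  5] [(153, 121, [1, 1])])) .no (.use 926) (.hor [.f 1091 3 1, .f 1090 1 5] [(153, 169, [2])]) .no
  (.hor [.t 1090 1 3, .f 1217 3 5] [(153, 121, [1, 1])])) .no .no .no) .no (.use 931) .no (.red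
  [.t 1080 3 1, .t 944 1 3, .f 953 1 3, .f 1081 3 1] 136 136 [] [(135, 136, [4]), (136, 136, [])])
  .no)) .no (.red [.f 1080 3 1, .f 1080 1 5, .t 944 1 3, .f 953 1 3, .t 1088 1 4] 136 136 []
  [(135, 136, [4]), (136, 136, [])]) (.use 918) .no .no) (.use 593) (.hor [.f 944 3 5] []) (.use
  630) .no .no) .no (.red [.t 1088 4 2, .f 953 3 5] 136 136 [] [(136, 136, [])])) .no (.br 953 .no
  (.br 944 .no (.use 717) (.use 642) (.use 718) (.use 859) .no) .no (.use 932) .no (.red [.t 1088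
  4 2, .f 953 3 5] 136 136 [] [(136, 136, [])])))

def c21l39 : List Tr4 :=
  [c21t967, c21t968, c21t969, c21t970, c21t971, c21t972, c21t973, c21t974, c21t975, c21t976,
  c21t977]

theorem c21k39 : chkLF ⟨4, 0, 0, true, -8⟩ false 1 c21N 967 c21l39 = true := by decide +kernel

def c21t978 : Tr4 :=
  .br 971 .no (.red [.f 835 1 3] 121 136 [2, 3] [(121, 136, [2, 3])]) (.br 1210 (.use 902) .no .no
  (.red [.f 1074 3 1, .f 1081 1 5] 151 136 [4, 1] [(151, 136, [4, 1])]) (.br 1075 (.red [.t 1074 3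
  1, .f 1081 1 5] 151 136 [4, 1] [(151, 136, [4, 1])]) (.use 933) .no (.br 1073 (.red [.f 1073 1
  3, .f 1073 3 5] 151 136 [4, 1] [(151, 136, [4, 1])]) (.br 952 .no (.use 723) .no (.br 825 (.br
  826 .no (.use 725) (.red [.f 826 3 1, .f 825 1 5, .t 1073 2 3, .f 944 3 5, .t 1088 4 2, .t 961 4
  2] 136 136 [] [(135, 119, [1]), (136, 136, [])]) (.use 522) (.br 824 .no (.use 934) (.br 833 .no
  (.br 834 .no (.use 45) (.br 946 .no (.use 523) .no (.br 1065 (.use 576) (.red [.f 937 1 3, .f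
  937 3 5] 134 136 [4, 4] [(134, 136, [4, 4])]) .no (.br 1202 (.use 562) .no .no (.use 739) (.use
  732) (.red [.t 1081 1 4] 151 136 [4, 1] [(151, 136, [4, 1])])) (.red [.t 945 1 4] 134 136 [4, 4]
  [(134, 136, [4, 4])]) (.con 136 [4, 4, 1])) (.use 741) .no) .no .no .no) (.use 459) .no (.red
  [.t 953 2 3, .t 1073 2 3, .f 944 3 5, .t 1088 4 2, .f 825 3 1] 136 136 [] [(135, 119, [1]),
  (136, 136, [])]) .no) (.use 581) .no .no) .no) (.con 136 [4, 2, 3, 3]) (.con 136 [4, 2, 3, 3])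
  (.con 136 [4, 2, 3, 3]) (.con 136 [4, 2, 3, 3]) (.con 136 [4, 2, 3, 3])) (.red [.t 1088 4 2, .f
  953 3 5] 136 136 [] [(136, 136, [])]) .no) .no (.use 935) .no (.use 716)) .no .no) .no) .no .no
  (.br 1210 (.use 968) .no .no (.red [.f 1074 3 1, .f 1081 1 5] 151 136 [4, 1] [(151, 136, [4,
  1])]) (.br 1075 (.red [.t 1074 3 1, .f 1081 1 5] 151 136 [4, 1] [(151, 136, [4, 1])]) (.use 977)
  .no (.br 1073 (.red [.f 1073 1 3, .f 1073 3 5] 151 136 [4, 1] [(151, 136, [4, 1])]) (.br 826 .no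
  (.use 953) (.use 962) (.use 719) (.br 953 .no (.br 944 (.use 872) (.use 717) (.br 834 .no (.br
  824 .no (.use 934) (.use 45) (.use 581) .no .no) (.red [.t 834 3 1] 121 136 [2, 3] [(121, 136,
  [2, 3])]) .no .no (.red [.t 953 2 3, .t 1073 2 3, .f 944 3 5, .t 1088 4 2, .f 825 3 1] 136 136
  [] [(135, 119, [1]), (136, 136, [])])) (.use 718) .no .no) .no .no .no (.red [.t 1088 4 2, .f
  953 3 5] 136 136 [] [(136, 136, [])])) (.use 720)) .no (.use 935) .no (.use 716)) .no .no) .no)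

def c21t979 : Tr4 :=
  .br 1082 (.br 1090 (.red [.f 1082 1 3, .f 954 3 1] 136 136 [] [(136, 136, []), (152, 136, [1])])
  .no (.br 1081 (.hor [.f 1081 1 5] []) (.red [.f 953 1 3, .f 953 3 5] 136 136 [] [(136, 136,
  [])]) .no (.br 953 .no (.br 1091 (.br 952 .no (.hor [.f 824 1 5] []) (.red [.f 952 3 1, .f 960 1
  5] 136 136 [] [(136, 136, [])]) (.use 517) .no .no) (.red [.f 955 1 3, .f 954 3 5] 136 136 []
  [(136, 136, [])]) (.hor [.f 1090 3 5] []) .no .no .no) .no (.red [.f 945 3 1, .f 953 1 3] 136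
  136 [] [(135, 136, [4]), (136, 136, [])]) .no (.red [.t 1088 4 2, .f 953 3 5] 136 136 [] [(136,
  136, [])])) .no .no) .no (.red [.t 954 3 1, .f 961 1 5] 136 136 [] [(136, 136, [])]) .no) .no
  (.red [.f 954 3 1, .f 954 1 5] 136 136 [] [(136, 136, [])]) (.br 1091 (.br 1090 (.hor [.f 1090 1
  5] []) .no (.use 708) .no .no .no) (.red [.f 955 1 3, .f 954 3 5] 136 136 [] [(136, 136, [])])
  (.br 1081 (.br 963 .no (.br 1090 (.br 960 .no (.br 952 .no (.red [.f 824 1 3, .f 952 3 1, .f 960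
  1 5] 136 136 [] [(120, 136, [2]), (136, 136, [])]) .no (.br 1210 (.use 714) .no .no (.red [.f
  1074 3 1, .f 1081 1 5] 151 136 [4, 1] [(151, 136, [4, 1])]) (.br 1075 (.red [.t 1074 3 1, .f
  1081 1 5] 151 136 [4, 1] [(151, 136, [4, 1])]) (.br 1073 (.red [.f 1073 1 3, .f 1073 3 5] 151
  136 [4, 1] [(151, 136, [4, 1])]) (.con 136 [4, 4]) .no (.br 824 .no (.br 945 .no (.use 542)
  (.hor [.f 944 3 5] []) (.use 715) (.use 553) .no) .no (.use 558) (.use 559) .no) .no (.br 824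
  .no (.br 945 .no (.use 542) (.hor [.f 944 3 5] []) (.use 715) (.use 553) .no) .no (.use 566)
  (.use 567) .no)) .no (.br 1073 (.red [.f 1073 1 3, .f 1073 3 5] 151 136 [4, 1] [(151, 136, [4,
  1])]) (.br 825 (.br 824 .no (.br 826 .no (.use 425) (.red [.f 826 3 1, .f 825 1 5, .t 1073 2 3,
  .f 944 3 5, .t 1088 4 2, .t 961 4 2] 136 136 [] [(135, 119, [1]), (136, 136, [])]) (.use 522)
  (.use 527) .no) .no (.red [.f 816 3 1, .f 824 1 5] 119 136 [2, 4] [(119, 136, [2, 4])]) .no .no)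
  (.con 136 [4, 2, 3, 1]) (.con 136 [4, 2, 3, 1]) (.con 136 [4, 2, 3, 1]) (.con 136 [4, 2, 3, 1])
  (.con 136 [4, 2, 3, 1])) .no (.use 658) .no (.use 716)) .no .no) .no) (.red [.t 1088 4 2, .f 953
  3 5] 136 136 [] [(136, 136, [])]) .no) (.use 978) (.red [.f 952 3 1, .f 960 1 5] 136 136 []
  [(136, 136, [])]) .no .no) .no (.hor [.f 1090 3 5] []) .no .no .no) (.red [.f 963 3 1, .f 955 1
  3, .f 954 3 5] 136 136 [] [(136, 136, []), (137, 136, [3])]) .no .no .no) (.red [.f 953 1 3, .f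
  953 3 5] 136 136 [] [(136, 136, [])]) .no (.hor [.f 1073 3 5] []) .no .no) .no .no (.red [.t 954
  3 1, .f 961 1 5] 136 136 [] [(136, 136, [])])) .no (.red [.t 961 1 4, .f 954 1 5] 136 136 []
  [(136, 136, [])])

def c21l40 : List Tr4 :=
  [c21t978, c21t979]

theorem c21k40 : chkLF ⟨4, 0, 0, true, -8⟩ false 1 c21N 978 c21l40 = true := by decide +kernel

end Pool.Agent.FT4D
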