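import Pool.Agent.FT4D.ChainF4
import Pool.Agent.FT4D.Tr_c21_0
import Pool.Agent.FT4D.Tr_c21_1
import Pool.Agent.FT4D.Tr_c21_2
import Pool.Agent.FT4D.Tr_c21_3
import Pool.Agent.FT4D.Tr_c21_4
import Pool.Agent.FT4D.Tr_c21_5

/-!
# Four levels: the chunks of the trees `c21` together
-/

namespace Pool.Agent.FT4D

theorem c21H : Holds ⟨4, 0, 0, true, -8⟩ false 1 [] := by
  have h0 := chStart ⟨4, 0, 0, true, -8⟩ false 1 c21N
  have h1 := chStepF c21l0 44 h0 c21k0 (by decide +kernel) (by decide +kernel)
  have h2 := chStepF c21l1 101 h1 c21k1 (by decide +kernel) (by decide +kernel)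
  have h3 := chStepF c21l2 132 h2 c21k2 (by decide +kernel) (by decide +kernel)
  have h4 := chStepF c21l3 151 h3 c21k3 (by decide +kernel) (by decide +kernel)
  have h5 := chStepF c21l4 179 h4 c21k4 (by decide +kernel) (by decide +kernel)
  have h6 := chStepF c21l5 190 h5 c21k5 (by decide +kernel) (by decide +kernel)
  have h7 := chStepF c21l6 216 h6 c21k6 (by decide +kernel) (by decide +kernel)
  have h8 := chStepF c21l7 233 h7 c21k7 (by decide +kernel) (by decide +kernel)
  have h9 := chStepF c21l8 272 h8 c21k8 (by decide +kernel) (by decide +kernel)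
  have h10 := chStepF c21l9 300 h9 c21k9 (by decide +kernel) (by decide +kernel)
  have h11 := chStepF c21l10 316 h10 c21k10 (by decide +kernel) (by decide +kernel)
  have h12 := chStepF c21l11 343 h11 c21k11 (by decide +kernel) (by decide +kernel)
  have h13 := chStepF c21l12 376 h12 c21k12 (by decide +kernel) (by decide +kernel)
  have h14 := chStepF c21l13 393 h13 c21k13 (by decide +kernel) (by decide +kernel)
  have h15 := chStepF c21l14 413 h14 c21k14 (by decide +kernel) (by decide +kernel)
  have h16 := chStepF c21l15 423 h15 c21k15 (by decide +kernel) (by decide +kernel)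
  have h17 := chStepF c21l16 456 h16 c21k16 (by decide +kernel) (by decide +kernel)
  have h18 := chStepF c21l17 475 h17 c21k17 (by decide +kernel) (by decide +kernel)
  have h19 := chStepF c21l18 498 h18 c21k18 (by decide +kernel) (by decide +kernel)
  have h20 := chStepF c21l19 517 h19 c21k19 (by decide +kernel) (by decide +kernel)
  have h21 := chStepF c21l20 556 h20 c21k20 (by decide +kernel) (by decide +kernel)
  have h22 := chStepF c21l21 590 h21 c21k21 (by decide +kernel) (by decide +kernel)
  have h23 := chStepF c21l22 622 h22 c21k22 (by decide +kernel) (by decide +kernel)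
  have h24 := chStepF c21l23 644 h23 c21k23 (by decide +kernel) (by decide +kernel)
  have h25 := chStepF c21l24 670 h24 c21k24 (by decide +kernel) (by decide +kernel)
  have h26 := chStepF c21l25 692 h25 c21k25 (by decide +kernel) (by decide +kernel)
  have h27 := chStepF c21l26 699 h26 c21k26 (by decide +kernel) (by decide +kernel)
  have h28 := chStepF c21l27 707 h27 c21k27 (by decide +kernel) (by decide +kernel)
  have h29 := chStepF c21l28 733 h28 c21k28 (by decide +kernel) (by decide +kernel)
  have h30 := chStepF c21l29 755 h29 c21k29 (by decide +kernel) (by decide +kernel)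
  have h31 := chStepF c21l30 787 h30 c21k30 (by decide +kernel) (by decide +kernel)
  have h32 := chStepF c21l31 807 h31 c21k31 (by decide +kernel) (by decide +kernel)
  have h33 := chStepF c21l32 834 h32 c21k32 (by decide +kernel) (by decide +kernel)
  have h34 := chStepF c21l33 865 h33 c21k33 (by decide +kernel) (by decide +kernel)
  have h35 := chStepF c21l34 878 h34 c21k34 (by decide +kernel) (by decide +kernel)
  have h36 := chStepF c21l35 902 h35 c21k35 (by decide +kernel) (by decide +kernel)
  have h37 := chStepF c21l36 924 h36 c21k36 (by decide +kernel) (by decide +kernel)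
  have h38 := chStepF c21l37 952 h37 c21k37 (by decide +kernel) (by decide +kernel)
  have h39 := chStepF c21l38 967 h38 c21k38 (by decide +kernel) (by decide +kernel)
  have h40 := chStepF c21l39 978 h39 c21k39 (by decide +kernel) (by decide +kernel)
  have h41 := chStepF c21l40 980 h40 c21k40 (by decide +kernel) (by decide +kernel)
  exact chEnd h41 979 (by decide +kernel) (by decide +kernel)

end Pool.Agent.FT4D
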