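import Pool.Agent.FT4D.Tab_c22

/-!
# Four levels: decision trees (found by a computer search)
-/

namespace Pool.Agent.FT4D

def c22t0 : Tr4 :=
  .br 816 .no (.hor [.f 688 1 5] []) .no (.con 136 [2, 4, 2, 4]) .no .no

def c22t1 : Tr4 :=
  .br 818 .no (.hor [.f 689 1 5] []) .no (.use 0) (.br 816 .no (.hor [.f 688 1 5] []) .no (.con
  136 [2, 4, 2, 4]) .no .no) .no

def c22t2 : Tr4 :=
  .br 809 .no (.hor [.f 680 1 5] []) .no (.br 681 .no (.br 682 .no (.hor [.f 553 1 5] []) .no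
  (.con 136 [2, 4, 2, 4, 2, 4]) (.con 136 [2, 4, 2, 4, 4]) .no) .no (.red [.f 673 3 1, .f 680 1 5]
  101 136 [2, 4, 2, 4, 4] [(101, 136, [2, 4, 2, 4, 4])]) (.red [.f 681 5 3, .f 682 3 1, .f 690 1
  3] 103 136 [2, 4, 2] [(102, 136, [2, 4, 2, 4]), (103, 136, [2, 4, 2])]) .no) .no .no

def c22t3 : Tr4 :=
  .br 691 .no (.red [.f 563 1 3] 87 136 [2, 2, 2, 4] [(87, 136, [2, 2, 2, 4])]) .no (.br 808 .no
  (.br 689 .no (.red [.f 561 1 3] 87 136 [2, 2, 2, 4] [(87, 136, [2, 2, 2, 4])]) .no (.con 136 [2,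
  2, 4, 4, 2]) (.con 136 [2, 2, 4, 4, 2]) (.red [.f 688 5 1, .f 688 1 3] 103 136 [2, 2, 4] [(103,
  136, [2, 2, 4])])) .no (.red [.f 800 3 1, .t 936 2 3, .f 817 1 3] 119 136 [2, 4] [(117, 136, [2,
  4, 4, 4]), (118, 136, [2, 4, 4]), (119, 136, [2, 4])]) (.red [.f 808 5 3, .f 809 3 1, .f 817 1
  3] 119 136 [2, 4] [(118, 136, [2, 4, 4]), (119, 136, [2, 4])]) .no) .no (.red [.f 690 5 1, .f
  690 1 3] 103 136 [2, 2, 4] [(103, 136, [2, 2, 4])])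

def c22t4 : Tr4 :=
  .br 1106 (.con 136 [3, 3, 1]) .no (.con 136 [3, 3, 1]) (.red [.f 970 3 1, .f 969 1 5] 138 136
  [3, 3] [(138, 136, [3, 3])]) .no (.con 136 [3, 3, 1])

def c22t5 : Tr4 :=
  .br 808 .no (.br 690 .no (.br 689 .no (.hor [.f 561 1 5] []) .no (.con 136 [2, 4, 2, 4, 2]) .no
  (.red [.f 688 5 1, .f 688 1 3] 103 136 [2, 4, 2] [(103, 136, [2, 4, 2])])) .no (.red [.f 682 3
  1, .f 690 1 3] 103 136 [2, 4, 2] [(102, 136, [2, 4, 2, 4]), (103, 136, [2, 4, 2])]) (.br 689 .no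
  (.red [.f 561 1 3] 87 136 [2, 4, 2, 2] [(87, 136, [2, 4, 2, 2])]) .no (.con 136 [2, 4, 2, 4, 2])
  .no (.red [.f 688 5 1, .f 688 1 3] 103 136 [2, 4, 2] [(103, 136, [2, 4, 2])])) (.use 2)) .no
  (.red [.f 800 3 1, .t 936 2 3, .f 817 1 3] 119 136 [2, 4] [(117, 136, [2, 4, 4, 4]), (118, 136,
  [2, 4, 4]), (119, 136, [2, 4])]) (.red [.f 808 5 3, .f 809 3 5, .t 953 2 4] 119 136 [2, 4]
  [(119, 136, [2, 4])]) .no

def c22t6 : Tr4 :=
  .br 689 .no (.hor [.f 561 1 5] []) .no (.con 136 [2, 4, 2, 4, 2]) .no (.red [.f 688 5 1, .f 688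
  1 3] 103 136 [2, 4, 2] [(103, 136, [2, 4, 2])])

def c22t7 : Tr4 :=
  .br 809 .no (.hor [.f 680 1 5] []) .no (.con 136 [2, 4, 2, 4, 4]) .no .no

def c22t8 : Tr4 :=
  .br 811 .no (.red [.t 810 3 2, .f 690 1 3] 103 136 [2, 4, 2] [(102, 136, [2, 4, 2, 4]), (103,
  136, [2, 4, 2])]) .no (.use 7) .no .no

def c22t9 : Tr4 :=
  .br 817 .no (.use 1) .no (.red [.f 809 3 1, .f 817 1 3] 119 136 [2, 4] [(118, 136, [2, 4, 4]),
  (119, 136, [2, 4])]) (.red [.t 953 2 4] 119 136 [2, 4] [(119, 136, [2, 4])]) (.br 1074 (.hor [.f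
  1074 1 5] []) .no .no (.br 818 .no (.red [.f 690 1 3] 103 136 [2, 2, 4] [(103, 136, [2, 2, 4])])
  .no (.br 697 .no (.br 936 (.hor [.f 936 1 3, .f 936 3 5] [(134, 119, [1, 4])]) (.red [.t 936 2
  3, .f 817 1 3] 119 136 [2, 4] [(118, 136, [2, 4, 4]), (119, 136, [2, 4])]) .no (.use 5) .no .no)
  (.br 936 (.hor [.f 936 1 3, .f 936 3 5] [(134, 119, [1, 4])]) (.red [.t 936 2 3, .f 817 1 3] 119
  136 [2, 4] [(118, 136, [2, 4, 4]), (119, 136, [2, 4])]) .no (.br 819 (.br 808 .no (.br 690 .no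
  (.use 6) .no (.red [.f 682 3 1, .f 690 1 3] 103 136 [2, 2, 4] [(102, 136, [2, 2, 4, 4]), (103,
  136, [2, 2, 4])]) (.br 939 (.br 811 .no (.red [.t 810 3 2, .f 690 1 3] 103 136 [2, 2, 4] [(102,
  136, [2, 2, 4, 4]), (103, 136, [2, 2, 4])]) .no (.use 7) .no .no) (.red [.f 811 1 3, .f 810 3 5,
  .f 690 5 1, .f 690 1 3] 103 136 [2, 2, 4] [(103, 136, [2, 2, 4]), (118, 102, [1])]) .no (.use 8)
  .no (.red [.t 818 4 1, .f 690 5 1, .f 690 1 3] 103 136 [2, 2, 4] [(103, 136, [2, 2, 4]), (118,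
  102, [1])])) (.use 2)) .no (.red [.f 800 3 1, .t 936 2 3, .f 817 1 3] 119 136 [2, 4] [(117, 136,
  [2, 4, 4, 4]), (118, 136, [2, 4, 4]), (119, 136, [2, 4])]) (.red [.f 808 5 3, .f 809 3 5, .t 953
  2 4] 119 136 [2, 4] [(119, 136, [2, 4])]) .no) (.con 136 [2, 2, 4, 4]) .no (.hor [.f 810 3 5]
  []) .no .no) .no .no) (.red [.t 696 1 4] 103 136 [2, 2, 4] [(103, 136, [2, 2, 4])]) .no .no)
  (.br 936 (.hor [.f 936 1 3, .f 936 3 5] [(134, 119, [1, 4])]) (.red [.t 936 2 3, .f 817 1 3] 119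
  136 [2, 4] [(118, 136, [2, 4, 4]), (119, 136, [2, 4])]) .no (.br 699 .no (.br 697 .no (.use 3)
  (.br 1067 (.hor [.f 1067 1 3, .f 1066 3 5] [(150, 118, [1, 1])]) (.con 136 [2, 4, 4, 1, 3, 2])
  .no (.br 939 .no (.con 136 [2, 4, 4, 1, 3, 2]) (.br 691 .no (.red [.f 563 1 3] 87 136 [2, 2, 2,
  4] [(87, 136, [2, 2, 2, 4])]) .no (.br 808 .no (.br 810 (.red [.t 938 2 3] 118 136 [2, 4, 4]
  [(118, 136, [2, 4, 4])]) (.con 136 [2, 2, 4, 4, 2]) .no (.br 938 .no .no .no (.red [.f 802 3 1]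
  117 136 [2, 4, 4, 4] [(117, 136, [2, 4, 4, 4])]) .no .no) (.red [.f 810 5 3, .f 811 3 1] 118 136
  [2, 4, 4] [(118, 136, [2, 4, 4])]) (.con 136 [2, 2, 4, 4, 4])) .no (.red [.f 800 3 1, .t 936 2
  3, .f 817 1 3] 119 136 [2, 4] [(117, 136, [2, 4, 4, 4]), (118, 136, [2, 4, 4]), (119, 136, [2,
  4])]) (.red [.f 808 5 3, .f 809 3 1, .f 817 1 3] 119 136 [2, 4] [(118, 136, [2, 4, 4]), (119,
  136, [2, 4])]) .no) .no (.red [.f 690 5 1, .f 690 1 3] 103 136 [2, 2, 4] [(103, 136, [2, 2,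
  4])])) (.con 136 [2, 4, 4, 1, 3, 2]) .no (.con 136 [2, 4, 4, 1, 3, 2])) .no .no) (.red [.t 696 1
  4] 103 136 [2, 2, 4] [(103, 136, [2, 2, 4])]) .no .no) (.hor [.f 699 3 1, .f 698 1 5] [(104,
  103, [3])]) (.red [.t 698 1 4] 103 136 [2, 2, 4] [(103, 136, [2, 2, 4])]) .no .no) .no .no) .no)
  .no .no)

def c22t10 : Tr4 :=
  .br 938 .no (.red [.t 938 2 3] 118 136 [2, 4, 4] [(118, 136, [2, 4, 4])]) .no (.hor [.f 939 3 1,
  .f 930 3 1, .f 938 1 5] [(133, 117, [1]), (134, 118, [1])]) .no .no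

def c22t11 : Tr4 :=
  .br 938 .no (.red [.t 938 2 3] 118 136 [2, 4, 4] [(118, 136, [2, 4, 4])]) .no (.br 808 .no (.br
  691 .no (.red [.f 563 1 3] 87 136 [2, 2, 2, 4] [(87, 136, [2, 2, 2, 4])]) .no (.br 810 .no (.con
  136 [2, 2, 4, 4, 2]) .no (.red [.f 802 3 1] 117 136 [2, 4, 4, 4] [(117, 136, [2, 4, 4, 4])])
  (.red [.f 810 5 3, .f 811 3 1] 118 136 [2, 4, 4] [(118, 136, [2, 4, 4])]) (.con 136 [2, 2, 4, 4,
  4])) .no (.red [.f 690 5 1, .f 690 1 3] 103 136 [2, 2, 4] [(103, 136, [2, 2, 4])])) .no (.red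
  [.f 800 3 1, .t 936 2 3, .f 817 1 3] 119 136 [2, 4] [(117, 136, [2, 4, 4, 4]), (118, 136, [2, 4,
  4]), (119, 136, [2, 4])]) (.red [.f 808 5 3, .f 809 3 1, .f 817 1 3] 119 136 [2, 4] [(118, 136,
  [2, 4, 4]), (119, 136, [2, 4])]) .no) .no .no

def c22t12 : Tr4 :=
  .br 1075 (.use 9) (.red [.f 947 1 3, .f 946 3 5, .t 834 1 4, .f 954 3 1] 136 136 [] [(120, 136,
  [2]), (135, 119, [1]), (136, 136, [])]) .no (.br 817 .no (.use 1) .no (.red [.f 809 3 1, .f 817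
  1 3] 119 136 [2, 4] [(118, 136, [2, 4, 4]), (119, 136, [2, 4])]) (.red [.t 953 2 4] 119 136 [2,
  4] [(119, 136, [2, 4])]) (.br 1074 (.br 697 .no (.br 936 (.hor [.f 936 1 3, .f 936 3 5] [(134,
  119, [1, 4])]) (.red [.t 936 2 3, .f 817 1 3] 119 136 [2, 4] [(118, 136, [2, 4, 4]), (119, 136,
  [2, 4])]) .no (.br 818 .no (.red [.f 690 1 3] 103 136 [2, 2, 4] [(103, 136, [2, 2, 4])]) .no
  (.use 5) (.br 699 .no (.use 3) (.hor [.f 699 3 1, .f 698 1 5] [(104, 103, [3])]) (.red [.t 698 1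
  4] 103 136 [2, 2, 4] [(103, 136, [2, 2, 4])]) .no .no) .no) .no .no) (.br 936 (.hor [.f 936 1 3,
  .f 936 3 5] [(134, 119, [1, 4])]) (.red [.t 936 2 3, .f 817 1 3] 119 136 [2, 4] [(118, 136, [2,
  4, 4]), (119, 136, [2, 4])]) .no (.br 818 .no (.red [.f 690 1 3] 103 136 [2, 2, 4] [(103, 136,
  [2, 2, 4])]) .no (.br 947 .no (.br 808 .no (.br 690 .no (.use 6) .no (.red [.f 682 3 1, .f 690 1
  3] 103 136 [2, 2, 4] [(102, 136, [2, 2, 4, 4]), (103, 136, [2, 2, 4])]) (.br 939 .no (.red [.f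
  811 1 3, .f 810 3 5, .f 690 5 1, .f 690 1 3] 103 136 [2, 2, 4] [(103, 136, [2, 2, 4]), (118,
  102, [1])]) .no (.use 8) .no (.red [.t 818 4 1, .f 690 5 1, .f 690 1 3] 103 136 [2, 2, 4] [(103,
  136, [2, 2, 4]), (118, 102, [1])])) (.use 2)) .no (.red [.f 800 3 1, .t 936 2 3, .f 817 1 3] 119
  136 [2, 4] [(117, 136, [2, 4, 4, 4]), (118, 136, [2, 4, 4]), (119, 136, [2, 4])]) (.red [.f 808
  5 3, .f 809 3 5, .t 953 2 4] 119 136 [2, 4] [(119, 136, [2, 4])]) .no) .no (.br 819 .no (.con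
  136 [2, 2, 4, 4]) .no (.hor [.f 810 3 5] []) .no .no) .no .no) (.br 707 .no (.br 947 .no .no .no
  (.br 1066 (.hor [.f 939 3 1, .f 939 1 3, .f 1066 1 3, .f 1066 3 5] [(150, 136, [4, 4, 1])])
  (.hor [.f 939 3 1, .f 938 1 5] [(134, 118, [1])]) .no (.use 10) .no (.br 699 .no (.use 11) .no
  (.red [.t 698 1 4] 103 136 [2, 2, 4] [(103, 136, [2, 2, 4])]) .no .no)) .no .no) (.br 947 .no
  .no .no (.br 1066 (.hor [.f 939 3 1, .f 939 1 3, .f 1066 1 3, .f 1066 3 5] [(150, 136, [4, 4,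
  1])]) (.hor [.f 939 3 1, .f 938 1 5] [(134, 118, [1])]) .no (.use 10) .no (.br 699 .no (.use 11)
  .no (.red [.t 698 1 4] 103 136 [2, 2, 4] [(103, 136, [2, 2, 4])]) .no .no)) .no .no) (.hor [.f
  699 3 1, .f 698 1 5] [(104, 88, [1])]) .no (.hor [.t 826 2 3, .f 697 3 5] [(104, 103, [3])]))
  .no) .no .no) (.red [.t 696 1 4] 103 136 [2, 2, 4] [(103, 136, [2, 2, 4])]) .no .no) .no .no
  (.hor [.f 1066 3 5] []) .no .no)) .no (.red [.t 954 4 1, .t 834 1 4, .f 954 3 1] 136 136 []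
  [(120, 136, [2]), (135, 119, [1]), (136, 136, [])])

def c22t13 : Tr4 :=
  .br 819 .no (.con 136 [2, 4, 4, 2]) .no (.hor [.f 810 3 5] []) .no .no

def c22t14 : Tr4 :=
  .br 690 .no (.br 809 .no (.red [.f 681 1 3] 102 136 [2, 4, 2, 4] [(102, 136, [2, 4, 2, 4])]) .no
  (.br 810 .no (.con 136 [2, 4, 2, 4, 4]) .no (.hor [.f 801 3 5] []) (.red [.f 810 5 3, .f 811 3
  1] 118 136 [2, 4, 4] [(118, 136, [2, 4, 4])]) .no) (.br 682 .no (.red [.f 554 1 3] 86 136 [2, 4,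
  2, 2, 4] [(86, 136, [2, 4, 2, 2, 4])]) .no (.br 681 .no (.con 136 [2, 4, 2, 4, 4, 2]) .no (.hor
  [.f 673 3 5] []) .no (.con 136 [2, 4, 2, 4, 2])) .no (.red [.f 681 5 1, .f 681 1 3] 102 136 [2,
  4, 2, 4] [(102, 136, [2, 4, 2, 4])])) (.br 810 .no (.con 136 [2, 4, 2, 4, 4]) .no (.red [.f 802
  3 1] 117 136 [2, 4, 4, 4] [(117, 136, [2, 4, 4, 4])]) (.red [.f 810 5 3, .f 811 3 1] 118 136 [2,
  4, 4] [(118, 136, [2, 4, 4])]) .no)) .no (.hor [.f 682 3 5] []) .no .no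

def c22t15 : Tr4 :=
  .br 1075 (.br 1074 (.hor [.f 1074 1 5] []) .no .no (.br 817 .no (.br 818 .no (.hor [.f 689 1 5]
  []) .no (.br 947 .no (.dom 119 136 [2, 4]) .no (.use 13) .no .no) (.br 1067 (.hor [.f 1067 1 3,
  .f 1066 3 5] [(150, 118, [1, 1])]) (.con 136 [2, 4, 4, 1, 3, 2]) .no (.br 699 .no (.br 939 .no
  (.con 136 [2, 4, 4, 1, 3, 2]) (.br 691 .no (.red [.f 563 1 3, .t 698 1 4, .f 818 3 1] 119 136
  [2, 4] [(87, 136, [2, 2, 4, 2]), (103, 136, [2, 2, 4]), (119, 136, [2, 4])]) .no (.br 938 .no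
  (.red [.t 938 2 3] 118 136 [2, 4, 4] [(118, 136, [2, 4, 4])]) .no (.use 14) .no .no) .no (.red
  [.f 690 5 1, .f 689 1 5, .t 953 2 4] 119 136 [2, 4] [(119, 136, [2, 4])])) (.con 136 [2, 4, 4,
  1, 3, 2]) .no (.con 136 [2, 4, 4, 1, 3, 2])) (.hor [.f 699 3 1, .f 698 1 5] [(104, 102, [3,
  3])]) (.red [.t 698 1 4, .f 818 3 1, .f 825 1 5] 119 136 [2, 4] [(103, 136, [2, 2, 4]), (119,
  136, [2, 4])]) .no .no) .no .no) .no) .no (.red [.f 809 3 1, .f 817 1 3] 119 136 [2, 4] [(118,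
  136, [2, 4, 4]), (119, 136, [2, 4])]) (.red [.t 953 2 4, .f 816 3 5] 119 136 [2, 4] [(119, 136,
  [2, 4])]) .no) .no .no) (.red [.f 947 1 3, .f 946 3 5, .t 834 1 4, .f 954 3 1] 136 136 [] [(120,
  136, [2]), (135, 119, [1]), (136, 136, [])]) .no (.br 1074 (.br 818 .no (.red [.f 690 1 3, .f
  818 3 1, .f 825 1 5] 119 136 [2, 4] [(103, 136, [2, 2, 4]), (119, 136, [2, 4])]) .no (.br 947
  .no (.dom 119 136 [2, 4]) .no (.br 817 .no (.use 13) .no (.hor [.f 809 3 5] []) .no .no) .no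
  .no) (.br 947 .no .no .no (.br 1066 (.hor [.f 939 3 1, .f 939 1 3, .f 1066 1 3, .f 1066 3 5]
  [(150, 136, [4, 4, 1])]) (.hor [.f 939 3 1, .f 938 1 5] [(134, 118, [1])]) .no (.br 938 .no
  (.red [.t 938 2 3] 118 136 [2, 4, 4] [(118, 136, [2, 4, 4])]) .no (.br 1064 (.hor [.f 939 3 1,
  .f 930 3 1, .f 938 1 5] [(133, 118, [1, 4]), (134, 118, [1])]) (.hor [.f 936 1 3, .f 936 3 5]
  [(134, 118, [1])]) .no (.hor [.f 939 3 1, .f 930 3 1, .f 938 1 5] [(133, 118, [1, 4]), (134,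
  118, [1])]) (.hor [.f 939 3 1, .f 930 3 1, .f 938 1 5] [(133, 118, [1, 4]), (134, 118, [1])])
  .no) .no .no) .no (.br 699 .no (.br 817 .no (.br 938 .no (.red [.t 938 2 3] 118 136 [2, 4, 4]
  [(118, 136, [2, 4, 4])]) .no (.br 691 .no (.red [.f 563 1 3, .t 698 1 4, .f 818 3 1] 119 136 [2,
  4] [(87, 136, [2, 2, 4, 2]), (103, 136, [2, 2, 4]), (119, 136, [2, 4])]) .no (.use 14) .no (.red
  [.f 690 5 1, .f 689 1 5, .t 953 2 4] 119 136 [2, 4] [(119, 136, [2, 4])])) .no .no) .no (.red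
  [.f 809 3 1, .f 817 1 3] 119 136 [2, 4] [(118, 136, [2, 4, 4]), (119, 136, [2, 4])]) .no .no)
  (.hor [.f 699 3 1, .f 698 1 5] [(104, 119, [2, 3])]) (.red [.t 698 1 4, .f 818 3 1, .f 825 1 5]
  119 136 [2, 4] [(103, 136, [2, 2, 4]), (119, 136, [2, 4])]) .no .no)) .no .no) (.red [.t 953 2
  4, .f 816 3 5] 119 136 [2, 4] [(119, 136, [2, 4])])) .no .no (.hor [.f 1066 3 5] []) .no .no)
  .no (.red [.t 954 4 1, .t 834 1 4, .f 954 3 1] 136 136 [] [(120, 136, [2]), (135, 119, [1]),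
  (136, 136, [])])

def c22t16 : Tr4 :=
  .br 817 .no (.con 136 [2, 4, 2, 4]) .no (.hor [.f 809 3 5] []) .no .no

def c22t17 : Tr4 :=
  .br 817 .no (.con 136 [2, 4, 2, 4]) .no (.hor [.f 809 3 5] []) .no .no

def c22t18 : Tr4 :=
  .br 818 .no (.red [.f 690 1 3] 103 136 [2, 4, 2] [(103, 136, [2, 4, 2])]) .no (.use 17) (.con
  136 [2, 4, 4]) (.red [.t 953 2 4] 119 136 [2, 4] [(119, 136, [2, 4])])

def c22t19 : Tr4 :=
  .br 944 .no (.use 18) .no (.hor [.f 936 3 5] []) .no .no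

def c22t20 : Tr4 :=
  .br 697 .no (.br 707 .no (.hor [.f 696 1 3, .f 569 1 3, .f 696 3 5] [(88, 103, [3, 2]), (104,
  103, [3])]) (.hor [.f 696 1 3, .f 569 1 3, .f 696 3 5] [(88, 103, [3, 2]), (104, 103, [3])])
  (.hor [.f 699 3 1, .f 698 1 5] [(104, 103, [3])]) .no (.hor [.f 696 1 3, .f 569 1 3, .f 696 3 5]
  [(88, 103, [3, 2]), (104, 103, [3])])) .no (.br 817 .no .no .no (.hor [.f 808 3 5] []) (.red [.t
  953 2 4] 119 136 [2, 4] [(119, 136, [2, 4])]) .no) .no .no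

def c22t21 : Tr4 :=
  .br 705 .no (.use 20) (.hor [.f 696 1 3, .f 696 3 1, .f 705 3 1, .f 704 1 5] [(105, 136, [2, 2,
  3])]) (.hor [.f 696 1 3, .f 696 3 5] [(104, 103, [3])]) (.hor [.t 841 4 2, .f 704 1 5] [(105,
  136, [2, 2, 3])]) .no

def c22t22 : Tr4 :=
  .br 817 .no (.con 136 [2, 4, 2, 4]) .no (.hor [.f 808 3 5] []) .no .no

def c22t23 : Tr4 :=
  .br 705 .no (.use 20) (.hor [.f 696 1 3, .f 696 3 1, .f 705 3 1, .f 704 1 5] [(105, 136, [2, 2,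
  3])]) (.hor [.f 696 1 3, .f 696 3 5] [(104, 103, [3])]) (.br 818 .no (.red [.f 690 1 3] 103 136
  [2, 2, 4] [(103, 136, [2, 2, 4])]) .no (.br 817 .no (.con 136 [2, 2, 4, 4]) .no (.hor [.f 808 3
  5] []) .no .no) (.use 22) (.red [.t 953 2 4] 119 136 [2, 4] [(119, 136, [2, 4])])) .no

def c22t24 : Tr4 :=
  .br 824 .no (.br 816 .no (.red [.f 688 1 3] 103 136 [2, 2, 4] [(103, 136, [2, 2, 4])]) .no (.br
  833 .no (.hor [.f 704 1 5] []) (.br 970 (.br 842 .no (.use 21) (.use 23) .no (.hor [.t 962 2 3,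
  .f 833 3 5] [(121, 119, [3, 3])]) .no) (.hor [.f 834 1 3, .f 833 3 5] [(121, 119, [3, 3])]) (.br
  842 .no (.use 21) (.use 23) .no (.hor [.t 962 2 3, .f 833 3 5] [(121, 119, [3, 3])]) .no) .no
  .no (.hor [.t 833 3 1, .f 962 3 5] [(121, 119, [3, 3])])) .no .no .no) (.red [.f 816 5 1, .f 817
  1 3] 119 136 [2, 4] [(119, 136, [2, 4])]) .no) .no (.red [.t 824 4 1] 119 136 [2, 4] [(119, 136,
  [2, 4])]) .no .no

def c22t25 : Tr4 :=
  .br 816 .no (.con 136 [2, 4, 2]) (.red [.t 824 4 1] 119 136 [2, 4] [(119, 136, [2, 4])]) (.con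
  136 [2, 4, 2]) (.con 136 [2, 4, 2]) .no

def c22t26 : Tr4 :=
  .br 817 .no (.con 136 [2, 4, 2, 4]) .no (.hor [.f 808 3 5] []) .no .no

def c22t27 : Tr4 :=
  .br 818 .no (.red [.f 690 1 3] 103 136 [2, 4, 2] [(103, 136, [2, 4, 2])]) .no (.use 26) (.use
  22) (.red [.t 953 2 4] 119 136 [2, 4] [(119, 136, [2, 4])])

def c22t28 : Tr4 :=
  .br 816 .no (.red [.f 688 1 3] 103 136 [2, 4, 2] [(103, 136, [2, 4, 2])]) .no (.use 27) (.red
  [.f 816 5 1, .f 817 1 3] 119 136 [2, 4] [(119, 136, [2, 4])]) .no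

def c22t29 : Tr4 :=
  .br 824 .no (.use 28) .no (.red [.t 824 4 1] 119 136 [2, 4] [(119, 136, [2, 4])]) .no .no

def c22t30 : Tr4 :=
  .br 947 (.con 136 [2, 4, 4]) (.red [.t 946 3 2, .f 825 1 5] 119 136 [2, 4] [(119, 136, [2, 4])])
  .no (.con 136 [2, 4, 4]) .no .no

def c22t31 : Tr4 :=
  .br 691 .no (.red [.f 563 1 3] 87 136 [2, 4, 2, 2] [(87, 136, [2, 4, 2, 2])]) .no (.red [.f 683
  3 1, .f 690 1 5, .f 818 5 3, .f 818 3 1] 119 136 [2, 4] [(102, 103, [4]), (119, 136, [2, 4])])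
  .no .no

def c22l0 : List Tr4 :=
  [c22t0, c22t1, c22t2, c22t3, c22t4, c22t5, c22t6, c22t7, c22t8, c22t9, c22t10, c22t11, c22t12,
  c22t13, c22t14, c22t15, c22t16, c22t17, c22t18, c22t19, c22t20, c22t21, c22t22, c22t23, c22t24,
  c22t25, c22t26, c22t27, c22t28, c22t29, c22t30, c22t31]

theorem c22k0 : chkLF ⟨4, 0, 0, true, -8⟩ false 2 c22N 0 c22l0 = true := by decide +kernel

def c22t32 : Tr4 :=
  .br 698 .no (.br 699 .no (.hor [.f 570 1 5] []) .no (.red [.t 690 1 3, .f 699 1 3] 103 136 [2,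
  4, 2] [(103, 136, [2, 4, 2]), (104, 136, [2, 2])]) .no .no) (.red [.t 706 4 1, .f 690 1 3] 103
  136 [2, 4, 2] [(103, 136, [2, 4, 2]), (104, 136, [2, 2])]) .no (.red [.f 698 5 1, .f 690 1 3]
  103 136 [2, 4, 2] [(103, 136, [2, 4, 2])]) (.br 699 .no (.br 819 .no (.hor [.f 690 1 5] []) .no
  (.use 31) .no .no) .no (.red [.t 690 1 3, .f 699 1 3] 103 136 [2, 4, 2] [(103, 136, [2, 4, 2]),
  (104, 136, [2, 2])]) .no .no)

def c22t33 : Tr4 :=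
  .br 817 .no (.hor [.f 689 1 5] []) .no (.red [.f 809 3 1, .f 817 1 3] 119 136 [2, 4] [(118, 136,
  [2, 4, 4]), (119, 136, [2, 4])]) .no (.use 32)

def c22t34 : Tr4 :=
  .br 819 .no (.con 136 [2, 4, 2, 4]) .no (.hor [.f 810 3 5] []) .no .no

def c22t35 : Tr4 :=
  .br 817 .no (.use 0) .no (.hor [.f 809 3 5] []) .no (.use 34)

def c22t36 : Tr4 :=
  .br 824 .no (.use 35) .no (.red [.t 952 3 2, .t 1072 2 3, .f 816 3 1, .f 824 1 3] 119 136 [2, 4]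
  [(119, 136, [2, 4]), (135, 136, [4])]) .no .no

def c22t37 : Tr4 :=
  .br 696 (.red [.f 688 1 3] 103 136 [2, 2, 4] [(103, 136, [2, 2, 4])]) (.con 136 [2, 4, 2, 3, 1,
  4]) (.con 136 [2, 4, 2, 3, 1, 4]) .no (.con 136 [2, 4, 2, 3, 1, 4]) .no

def c22t38 : Tr4 :=
  .br 818 .no (.use 33) .no (.br 817 .no (.br 819 .no (.con 136 [2, 4, 4, 2]) .no (.hor [.f 810 3
  5] []) .no .no) .no (.hor [.f 809 3 5] []) .no (.use 34)) (.red [.f 818 5 3, .f 818 3 1] 119 136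
  [2, 4] [(119, 136, [2, 4])]) (.red [.t 953 2 4] 119 136 [2, 4] [(119, 136, [2, 4])])

def c22t39 : Tr4 :=
  .br 817 .no (.hor [.f 689 1 5] []) .no (.hor [.f 808 3 5] []) .no .no

def c22t40 : Tr4 :=
  .br 818 .no (.use 39) .no (.use 26) (.use 22) (.red [.t 953 2 4] 119 136 [2, 4] [(119, 136, [2,
  4])])

def c22t41 : Tr4 :=
  .br 816 .no (.red [.f 688 1 3] 103 136 [2, 2, 4] [(103, 136, [2, 2, 4])]) .no (.use 40) (.red
  [.f 816 5 1, .f 817 1 3] 119 136 [2, 4] [(119, 136, [2, 4])]) .no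

def c22t42 : Tr4 :=
  .br 824 .no (.use 41) .no (.red [.t 824 4 1] 119 136 [2, 4] [(119, 136, [2, 4])]) .no .no

def c22t43 : Tr4 :=
  .br 818 .no (.hor [.f 690 1 5] []) .no (.br 817 .no (.con 136 [2, 4, 4, 2]) .no (.hor [.f 809 3
  5] []) .no (.con 136 [2, 4, 2, 4])) .no (.red [.t 953 2 4] 119 136 [2, 4] [(119, 136, [2, 4])])

def c22t44 : Tr4 :=
  .br 819 .no (.use 43) .no (.red [.f 811 3 1, .t 946 3 2, .f 826 1 3] 119 136 [2, 4] [(118, 136,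
  [2, 4, 4]), (119, 136, [2, 4]), (120, 136, [2])]) .no (.red [.f 818 5 3, .f 818 3 1] 119 136 [2,
  4] [(119, 136, [2, 4])])

def c22t45 : Tr4 :=
  .br 824 .no (.use 41) .no (.red [.t 824 4 1] 119 136 [2, 4] [(119, 136, [2, 4])]) .no .no

def c22t46 : Tr4 :=
  .br 826 .no (.br 945 .no (.red [.f 817 1 3] 119 136 [2, 4] [(119, 136, [2, 4])]) .no (.br 1072
  (.hor [.f 1072 1 3, .f 1072 3 5] [(151, 119, [1, 1])]) (.br 824 .no (.br 835 .no (.br 827 .no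
  (.hor [.f 698 1 5] []) .no (.con 136 [2, 2, 4]) .no .no) (.hor [.f 835 3 1, .f 834 1 5] [(121,
  119, [3, 3])]) (.use 12) .no .no) (.red [.f 824 3 1, .f 824 1 5, .t 1072 2 3, .f 953 1 3, .t 960
  2 4] 136 136 [] [(135, 136, [4]), (136, 136, [])]) (.br 827 .no (.hor [.f 698 1 5] []) (.use 15)
  (.br 818 .no (.red [.f 690 1 3] 103 136 [2, 2, 4] [(103, 136, [2, 2, 4])]) .no (.use 16) .no
  (.red [.t 953 2 4, .f 816 3 5] 119 136 [2, 4] [(119, 136, [2, 4])])) .no .no) .no .no) .no (.use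
  19) .no .no) .no (.br 832 .no (.br 827 .no (.hor [.f 698 1 5] []) (.use 24) (.use 25) .no .no)
  (.use 29) (.red [.f 824 3 1, .f 824 1 5, .f 944 5 3, .f 945 3 1, .f 953 1 3, .t 960 2 4] 136 136
  [] [(135, 136, [4]), (136, 136, [])]) (.red [.t 952 3 2, .f 944 5 3, .f 945 3 1, .f 953 1 3, .f
  825 3 1] 136 136 [] [(135, 136, [4]), (136, 136, [])]) .no)) .no (.red [.f 818 3 1, .f 825 1 5]
  119 136 [2, 4] [(119, 136, [2, 4])]) (.br 832 .no (.br 947 (.br 835 .no (.br 945 .no (.red [.f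
  817 1 3] 119 136 [2, 4] [(119, 136, [2, 4])]) .no (.use 38) .no (.use 45)) (.hor [.f 835 3 1, .f
  834 1 5] [(121, 119, [3, 3])]) .no .no .no) (.red [.t 946 3 2, .f 825 1 5] 119 136 [2, 4] [(119,
  136, [2, 4])]) .no (.br 945 .no (.red [.f 817 1 3] 119 136 [2, 4] [(119, 136, [2, 4])]) .no
  (.use 44) .no (.use 45)) .no .no) (.br 835 .no (.br 947 (.br 945 .no (.red [.f 817 1 3] 119 136
  [2, 4] [(119, 136, [2, 4])]) .no (.use 38) .no (.use 42)) (.red [.t 946 3 2, .f 825 1 5] 119 136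
  [2, 4] [(119, 136, [2, 4])]) .no (.br 945 .no (.red [.f 817 1 3] 119 136 [2, 4] [(119, 136, [2,
  4])]) .no (.use 44) .no (.use 42)) .no .no) (.hor [.f 835 3 1, .f 834 1 5] [(121, 119, [3, 3])])
  .no .no .no) (.br 945 .no (.red [.f 824 3 1, .f 817 1 3, .f 824 1 3] 119 136 [2, 4] [(119, 136,
  [2, 4])]) .no (.br 944 (.red [.f 824 3 1, .f 824 1 5, .t 1072 2 3, .f 953 1 3, .t 960 2 4] 136
  136 [] [(135, 136, [4]), (136, 136, [])]) (.use 30) .no (.hor [.f 936 3 5] []) .no .no) .no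
  (.red [.f 824 3 1, .f 824 1 5, .f 944 5 3, .f 945 3 1, .f 953 1 3, .t 960 2 4] 136 136 [] [(135,
  136, [4]), (136, 136, [])])) (.br 945 .no (.red [.f 817 1 3] 119 136 [2, 4] [(119, 136, [2,
  4])]) .no (.br 944 (.br 835 .no (.br 947 (.br 818 .no (.use 33) .no (.use 36) (.red [.f 818 5 3,
  .f 818 3 1] 119 136 [2, 4] [(119, 136, [2, 4])]) (.red [.t 953 2 4] 119 136 [2, 4] [(119, 136,
  [2, 4])])) (.red [.t 952 3 2, .t 832 1 4, .t 946 3 2] 119 136 [2, 4] [(119, 136, [2, 4])]) .no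
  (.br 819 .no (.br 818 .no (.hor [.f 690 1 5] []) .no (.br 816 .no (.use 37) (.red [.t 952 3 2,
  .t 1072 2 3, .f 816 3 1, .f 824 1 3] 119 136 [2, 4] [(119, 136, [2, 4]), (135, 136, [4])]) (.con
  136 [2, 4, 2, 4]) (.con 136 [2, 4, 2, 4]) .no) .no (.red [.t 953 2 4] 119 136 [2, 4] [(119, 136,
  [2, 4])])) .no (.red [.f 811 3 1, .t 946 3 2, .f 826 1 3] 119 136 [2, 4] [(118, 136, [2, 4, 4]),
  (119, 136, [2, 4]), (120, 136, [2])]) .no (.red [.f 818 5 3, .f 818 3 1] 119 136 [2, 4] [(119,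
  136, [2, 4])])) .no .no) (.hor [.f 835 3 1, .f 834 1 5] [(121, 119, [3, 3])]) .no .no .no) (.use
  30) .no (.hor [.f 936 3 5] []) .no .no) .no (.red [.t 952 3 2, .f 944 5 3, .f 945 3 1, .f 953 1
  3, .f 825 3 1] 136 136 [] [(135, 136, [4]), (136, 136, [])])) .no) .no

def c22t47 : Tr4 :=
  .br 1211 (.hor [.f 1210 1 5] []) .no .no .no .no .no

def c22t48 : Tr4 :=
  .br 1210 (.use 47) .no (.red [.f 1082 3 1, .f 1081 1 5, .t 945 1 3, .f 1072 3 5, .t 960 4 1] 136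
  136 [] [(135, 119, [1]), (136, 136, []), (152, 136, [1])]) (.dom 151 136 [4, 1]) (.red [.t 1090
  4 1, .f 1081 1 5, .t 945 1 3, .f 1072 3 5, .t 960 4 1] 136 136 [] [(135, 119, [1]), (136, 136,
  []), (152, 136, [1])]) .no

def c22t49 : Tr4 :=
  .br 1074 (.hor [.f 1074 1 5] []) .no .no (.hor [.f 1065 3 5] []) .no .no

def c22t50 : Tr4 :=
  .br 944 .no (.use 17) .no (.hor [.f 936 3 5] []) .no .no

def c22t51 : Tr4 :=
  .br 1201 (.hor [.f 1201 1 5] []) .no .no (.hor [.f 1192 3 5] []) .no .no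

def c22t52 : Tr4 :=
  .br 817 .no (.hor [.f 688 1 5] []) .no (.hor [.f 809 3 5] []) .no .no

def c22t53 : Tr4 :=
  .br 816 .no (.use 52) (.red [.t 824 4 1] 119 136 [2, 4] [(119, 136, [2, 4])]) (.use 26) (.red
  [.f 816 5 1, .f 817 1 3] 119 136 [2, 4] [(119, 136, [2, 4])]) .no

def c22t54 : Tr4 :=
  .br 945 .no (.red [.f 817 1 3] 119 136 [2, 4] [(119, 136, [2, 4])]) .no (.use 50) .no (.use 53)

def c22t55 : Tr4 :=
  .br 944 .no (.con 136 [2, 4, 4]) .no (.hor [.f 936 3 5] []) .no .no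

def c22t56 : Tr4 :=
  .br 696 .no (.br 697 .no (.hor [.f 568 1 5] []) .no (.red [.f 824 3 1, .f 824 1 5, .t 688 1 3,
  .f 697 1 3, .t 832 1 4] 103 136 [2, 4, 2] [(103, 136, [2, 4, 2]), (104, 136, [2, 2])]) .no .no)
  (.hor [.f 696 3 1, .f 704 1 5] [(104, 136, [2, 2])]) .no (.red [.t 832 4 2, .f 688 1 3] 103 136
  [2, 4, 2] [(103, 136, [2, 4, 2]), (104, 136, [2, 2])]) .no

def c22t57 : Tr4 :=
  .br 1201 (.con 136 [4, 1, 1, 4]) .no .no (.hor [.f 1192 3 5] []) .no .no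

def c22t58 : Tr4 :=
  .br 1210 (.use 47) .no (.br 1200 (.red [.f 1200 1 3, .f 1072 3 1, .f 1080 1 5] 151 136 [4, 1]
  [(151, 136, [4, 1]), (167, 136, [4, 1, 1])]) .no .no (.br 1202 (.use 51) .no .no (.use 57) .no
  (.red [.f 1073 5 1, .f 1073 1 3] 151 136 [4, 1] [(151, 136, [4, 1])])) (.red [.t 1080 4 1] 151
  136 [4, 1] [(151, 136, [4, 1])]) .no) (.dom 151 136 [4, 1]) (.br 1200 (.red [.f 1200 1 3, .f
  1072 3 1, .f 1080 1 5] 151 136 [4, 1] [(151, 136, [4, 1]), (167, 136, [4, 1, 1])]) .no .no (.br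
  1202 (.use 51) .no .no (.use 57) .no (.red [.f 1073 5 1, .f 1073 1 3] 151 136 [4, 1] [(151, 136,
  [4, 1])])) (.red [.t 1080 4 1] 151 136 [4, 1] [(151, 136, [4, 1])]) .no) .no

def c22t59 : Tr4 :=
  .br 1074 (.con 136 [4, 4, 1]) .no .no (.hor [.f 1066 3 5] []) .no .no

def c22t60 : Tr4 :=
  .br 945 (.use 59) (.red [.f 817 1 3] 119 136 [2, 4] [(119, 136, [2, 4])]) .no (.use 50) .no
  (.use 53)

def c22t61 : Tr4 :=
  .br 1074 (.con 136 [1, 4, 4]) .no .no (.hor [.f 1065 3 5] []) .no .no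

def c22t62 : Tr4 :=
  .br 1211 (.hor [.f 1210 1 5] []) .no .no (.con 136 [1, 4, 1]) .no .no

def c22t63 : Tr4 :=
  .br 1201 (.con 136 [4, 1, 4, 1]) .no .no (.hor [.f 1192 3 5] []) .no .no

def c22t64 : Tr4 :=
  .br 1200 (.red [.f 1200 1 3, .f 1072 3 1, .f 1080 1 5] 151 136 [4, 1] [(151, 136, [4, 1]), (167,
  136, [4, 1, 1])]) .no .no (.br 1202 (.use 51) .no .no (.use 57) (.use 63) (.red [.f 1073 5 1, .f
  1073 1 3] 151 136 [4, 1] [(151, 136, [4, 1])])) (.red [.t 1080 4 1] 151 136 [4, 1] [(151, 136,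
  [4, 1])]) .no

def c22t65 : Tr4 :=
  .br 1202 (.use 51) .no .no (.use 57) (.use 63) (.red [.f 1073 5 1, .f 1073 1 3] 151 136 [4, 1]
  [(151, 136, [4, 1])])

def c22t66 : Tr4 :=
  .br 1200 (.red [.f 1200 1 3, .f 1072 3 1, .f 1080 1 5] 151 136 [4, 1] [(151, 136, [4, 1]), (167,
  136, [4, 1, 1])]) .no .no (.use 65) (.red [.t 1080 4 1] 151 136 [4, 1] [(151, 136, [4, 1])]) .no

def c22t67 : Tr4 :=
  .br 1210 (.use 62) .no (.use 64) (.red [.t 1209 2 4, .f 1072 3 5] 151 136 [4, 1] [(151, 136, [4,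
  1])]) (.use 66) .no

def c22t68 : Tr4 :=
  .br 1066 (.hor [.f 1065 1 5] []) (.con 136 [4, 4, 1, 4]) .no (.con 136 [4, 4, 1, 4]) (.con 136
  [4, 4, 1, 4]) .no

def c22t69 : Tr4 :=
  .br 816 .no (.con 136 [2, 4, 2]) (.br 817 .no (.con 136 [2, 4, 2, 4]) .no (.hor [.f 809 3 5] [])
  .no .no) (.con 136 [2, 4, 2]) (.con 136 [2, 4, 2]) .no

def c22t70 : Tr4 :=
  .br 944 .no (.con 136 [2, 4, 2]) .no (.use 69) .no .no

def c22t71 : Tr4 :=
  .br 818 .no (.red [.f 690 1 3] 103 136 [2, 2, 4] [(103, 136, [2, 2, 4])]) .no (.br 945 (.use 70)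
  (.red [.f 817 1 3] 119 136 [2, 4] [(119, 136, [2, 4])]) .no (.use 50) .no (.use 25)) .no (.red
  [.t 953 2 4] 119 136 [2, 4] [(119, 136, [2, 4])])

def c22t72 : Tr4 :=
  .br 827 .no (.hor [.f 698 1 5] []) (.br 1075 (.br 1073 (.red [.f 1073 1 3, .f 1072 3 5] 151 136
  [4, 1] [(151, 136, [4, 1])]) (.use 48) .no (.use 49) (.br 1208 (.use 58) .no .no (.red [.f 1072
  3 1, .f 1080 1 5] 151 136 [4, 1] [(151, 136, [4, 1])]) .no .no) .no) (.red [.f 947 1 3, .f 946 3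
  5, .t 834 1 4, .f 954 3 1] 136 136 [] [(120, 136, [2]), (135, 119, [1]), (136, 136, [])]) .no
  (.br 818 .no (.red [.f 690 1 3, .f 818 3 1, .f 825 1 5] 119 136 [2, 4] [(103, 136, [2, 2, 4]),
  (119, 136, [2, 4])]) .no (.use 60) (.br 945 (.use 59) (.red [.f 817 1 3] 119 136 [2, 4] [(119,
  136, [2, 4])]) .no (.use 55) .no (.br 1208 (.br 1073 (.red [.f 1073 1 3, .f 1072 3 5] 151 136
  [4, 1] [(151, 136, [4, 1])]) .no .no (.use 61) (.use 67) .no) .no .no (.red [.f 1072 3 1, .f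
  1080 1 5] 151 136 [4, 1] [(151, 136, [4, 1])]) .no .no)) (.red [.t 953 2 4] 119 136 [2, 4]
  [(119, 136, [2, 4])])) .no (.red [.t 954 4 1, .t 834 1 4, .f 954 3 1] 136 136 [] [(120, 136,
  [2]), (135, 119, [1]), (136, 136, [])])) (.use 71) .no .no

def c22t73 : Tr4 :=
  .br 1217 (.hor [.f 1217 1 5] []) .no (.con 136 [1, 3, 1]) .no .no .no

def c22t74 : Tr4 :=
  .br 1098 .no .no (.hor [.f 1098 3 5] []) .no .no (.red [.t 1088 3 2, .t 1208 3 2, .f 1081 3 5,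
  .f 1089 5 3, .f 961 3 1, .f 1090 3 1] 153 136 [3, 1] [(152, 136, [1]), (153, 136, [3, 1])])

def c22t75 : Tr4 :=
  .br 1074 (.con 136 [4, 4, 1]) .no .no (.hor [.f 1065 3 5] []) .no .no

def c22t76 : Tr4 :=
  .br 1211 (.hor [.f 1210 1 5] []) .no .no (.con 136 [1, 4, 1]) .no .no

def c22t77 : Tr4 :=
  .br 1211 (.hor [.f 1210 1 5] []) .no .no (.con 136 [1, 4, 1]) .no .no

def c22t78 : Tr4 :=
  .br 1208 (.use 76) .no (.use 77) (.red [.f 1072 3 1, .f 1080 1 5] 151 136 [4, 1] [(151, 136, [4,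
  1])]) .no .no

def c22t79 : Tr4 :=
  .br 1208 (.use 64) .no (.con 136 [1, 1]) (.red [.f 1072 3 1, .f 1080 1 5] 151 136 [4, 1] [(151,
  136, [4, 1])]) .no .no

def c22t80 : Tr4 :=
  .br 1344 (.br 1336 (.red [.f 1336 1 3, .f 1208 3 1] 168 136 [1, 1] [(168, 136, [1, 1]), (184,
  136, [1, 1, 1])]) .no .no .no (.br 1345 (.hor [.f 1344 1 5] []) .no (.red [.t 1090 4 1, .f 1081
  1 5, .f 1209 5 3, .f 1208 3 5, .t 1352 2 4] 169 136 [3, 1, 1] [(152, 136, [1]), (169, 136, [3,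
  1, 1])]) .no (.red [.f 1217 5 1, .t 1216 4 1] 168 136 [1, 1] [(168, 136, [1, 1])]) .no) .no) .no
  .no (.red [.f 1208 3 1, .f 1200 1 3, .f 1072 3 1, .f 1080 1 5] 168 136 [1, 1] [(151, 136, [4,
  1]), (167, 136, [4, 1, 1]), (168, 136, [1, 1])]) (.red [.t 1081 1 3, .f 1208 3 5, .f 1216 5 1,
  .f 1216 1 3] 169 136 [3, 1, 1] [(152, 136, [1]), (169, 136, [3, 1, 1])]) .no

def c22t81 : Tr4 :=
  .br 1200 (.use 80) .no .no (.use 57) (.red [.t 1080 4 1] 151 136 [4, 1] [(151, 136, [4, 1])])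
  .no

def c22l1 : List Tr4 :=
  [c22t32, c22t33, c22t34, c22t35, c22t36, c22t37, c22t38, c22t39, c22t40, c22t41, c22t42, c22t43,
  c22t44, c22t45, c22t46, c22t47, c22t48, c22t49, c22t50, c22t51, c22t52, c22t53, c22t54, c22t55,
  c22t56, c22t57, c22t58, c22t59, c22t60, c22t61, c22t62, c22t63, c22t64, c22t65, c22t66, c22t67,
  c22t68, c22t69, c22t70, c22t71, c22t72, c22t73, c22t74, c22t75, c22t76, c22t77, c22t78, c22t79,
  c22t80, c22t81]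

theorem c22k1 : chkLF ⟨4, 0, 0, true, -8⟩ false 2 c22N 32 c22l1 = true := by decide +kernel

def c22t82 : Tr4 :=
  .br 832 .no (.use 24) (.use 29) (.br 833 .no (.use 56) (.br 970 (.br 1210 (.use 78) .no (.red
  [.f 1082 3 1, .f 1090 1 5, .t 970 1 4, .f 955 1 3] 136 136 [] [(136, 136, []), (137, 136, [3]),
  (152, 136, [1])]) (.red [.t 1209 2 4, .f 1072 3 5] 151 136 [4, 1] [(151, 136, [4, 1])]) (.red
  [.t 1090 4 1, .t 970 1 4, .f 955 1 3] 136 136 [] [(136, 136, []), (137, 136, [3]), (152, 136,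
  [1])]) .no) (.hor [.f 834 1 3, .f 833 3 5] [(121, 119, [3, 3])]) (.br 969 (.use 4) .no (.hor [.f
  969 3 5] []) .no .no (.br 1210 (.use 78) .no (.use 79) (.red [.t 1209 2 4, .f 1072 3 5] 151 136
  [4, 1] [(151, 136, [4, 1])]) (.br 1208 (.use 66) .no (.br 1218 (.use 73) .no (.use 74) .no .no
  (.br 947 .no .no .no (.br 1097 (.red [.t 1081 1 3, .f 1208 3 5, .t 1096 4 1] 153 136 [3, 1]
  [(152, 136, [1]), (153, 136, [3, 1])]) .no (.br 1098 (.con 136 [3, 3, 1]) .no (.hor [.f 1097 3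
  5] []) .no .no .no) .no (.br 1202 (.br 1203 (.hor [.f 1202 1 5] []) .no .no (.red [.f 939 3 1,
  .f 939 1 3, .f 1067 3 1] 150 136 [4, 4, 1] [(150, 136, [4, 4, 1])]) .no .no) .no .no (.br 1227
  (.br 1226 (.hor [.f 1226 1 5] []) .no (.br 1224 (.use 81) .no (.con 136 [3, 3, 1, 1]) .no (.con
  136 [3, 3, 1, 1]) .no) .no .no (.br 1200 (.br 1224 (.use 80) .no (.con 136 [3, 3, 1, 1]) .no .no
  .no) .no .no (.use 57) (.red [.t 1080 4 1] 151 136 [4, 1] [(151, 136, [4, 1])]) .no)) .no (.red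
  [.f 1099 3 1, .f 1091 1 3] 154 136 [3, 3, 1] [(153, 136, [3, 1]), (154, 136, [3, 3, 1])]) .no
  .no (.br 1224 (.use 81) .no (.br 1225 (.con 136 [3, 3, 1, 1]) .no (.hor [.f 1224 3 5] []) .no
  .no .no) .no (.red [.t 1081 1 3, .f 1208 3 5, .f 1216 5 3, .f 1088 3 1] 153 136 [3, 1] [(152,
  136, [1]), (153, 136, [3, 1])]) .no)) (.red [.f 1202 5 3, .t 1209 2 4] 151 136 [4, 1] [(151,
  136, [4, 1])]) (.red [.f 1073 5 1, .f 1073 1 3] 151 136 [4, 1] [(151, 136, [4, 1])])) .no) .no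
  .no)) (.red [.f 1072 3 1, .f 1080 1 5] 151 136 [4, 1] [(151, 136, [4, 1])]) .no .no) .no)) .no
  .no (.hor [.t 833 3 1, .f 962 3 5] [(121, 119, [3, 3])])) .no .no .no) (.br 696 (.use 28) (.con
  136 [2, 4, 2, 3, 1, 4]) (.con 136 [2, 4, 2, 3, 1, 4]) .no (.con 136 [2, 4, 2, 3, 1, 4]) .no) .no

def c22t83 : Tr4 :=
  .br 1075 (.br 1073 (.red [.f 1073 1 3, .f 1072 3 5] 151 136 [4, 1] [(151, 136, [4, 1])]) (.use
  48) .no (.use 49) (.br 818 .no (.red [.f 690 1 3, .f 818 3 1, .f 825 1 5] 119 136 [2, 4] [(103,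
  136, [2, 2, 4]), (119, 136, [2, 4])]) .no (.use 54) (.br 1208 (.use 58) .no (.br 1210 (.use 47)
  .no (.con 136 [1, 1]) (.dom 151 136 [4, 1]) (.br 970 (.red [.t 1090 4 1, .t 970 1 4, .f 955 1 3]
  136 136 [] [(136, 136, []), (137, 136, [3]), (152, 136, [1])]) (.hor [.f 834 1 3, .f 962 3 5]
  [(121, 119, [3, 3])]) (.br 969 (.use 4) (.br 945 .no (.red [.f 817 1 3] 119 136 [2, 4] [(119,
  136, [2, 4])]) .no (.use 55) .no (.br 816 .no (.br 824 .no (.use 28) (.br 833 .no (.use 56) .no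
  .no .no .no) .no .no .no) (.red [.t 824 4 1] 119 136 [2, 4] [(119, 136, [2, 4])]) (.use 22)
  (.red [.f 816 5 1, .f 817 1 3] 119 136 [2, 4] [(119, 136, [2, 4])]) .no)) (.hor [.f 969 3 5] [])
  .no .no (.br 1218 (.use 73) .no (.use 74) .no .no (.red [.t 1081 1 3, .f 1073 5 3, .t 1074 3 1,
  .f 1082 1 3] 151 136 [4, 1] [(151, 136, [4, 1])]))) .no .no (.br 1218 (.use 73) .no (.br 1098
  .no .no (.hor [.f 1098 3 5] []) .no .no (.red [.f 969 5 1, .t 1090 4 1, .t 970 1 4, .f 955 1 3]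
  136 136 [] [(136, 136, []), (137, 136, [3]), (152, 136, [1])])) .no .no (.red [.t 1081 1 3, .f
  1073 5 3, .t 1074 3 1, .f 1082 1 3] 151 136 [4, 1] [(151, 136, [4, 1])]))) .no) (.red [.f 1072 3
  1, .f 1080 1 5] 151 136 [4, 1] [(151, 136, [4, 1])]) .no .no) (.red [.t 953 2 4] 119 136 [2, 4]
  [(119, 136, [2, 4])])) .no) (.red [.f 947 1 3, .f 946 3 5, .t 834 1 4, .f 954 3 1] 136 136 []
  [(120, 136, [2]), (135, 119, [1]), (136, 136, [])]) .no (.br 818 .no (.red [.f 690 1 3, .f 818 3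
  1, .f 825 1 5] 119 136 [2, 4] [(103, 136, [2, 2, 4]), (119, 136, [2, 4])]) .no (.use 60) (.br
  945 (.use 59) (.red [.f 817 1 3] 119 136 [2, 4] [(119, 136, [2, 4])]) .no (.use 55) .no (.br
  1073 (.red [.f 1073 1 3, .f 1072 3 5] 151 136 [4, 1] [(151, 136, [4, 1])]) .no .no (.use 75)
  (.br 816 .no (.use 82) (.red [.t 824 4 1] 119 136 [2, 4] [(119, 136, [2, 4])]) (.use 22) (.red
  [.f 816 5 1, .f 817 1 3] 119 136 [2, 4] [(119, 136, [2, 4])]) .no) .no)) (.red [.t 953 2 4] 119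
  136 [2, 4] [(119, 136, [2, 4])])) .no (.red [.t 954 4 1, .t 834 1 4, .f 954 3 1] 136 136 []
  [(120, 136, [2]), (135, 119, [1]), (136, 136, [])])

def c22t84 : Tr4 :=
  .br 930 (.con 136 [2, 4, 4, 4, 1]) (.con 136 [2, 4, 4, 4, 1]) (.hor [.f 929 3 5] []) (.con 136
  [2, 4, 4, 4, 1]) (.con 136 [2, 4, 4, 4, 1]) .no

def c22t85 : Tr4 :=
  .br 817 .no (.con 136 [2, 4, 2, 4]) .no (.hor [.f 809 3 5] []) .no .no

def c22t86 : Tr4 :=
  .br 816 .no (.red [.f 688 1 3] 103 136 [2, 2, 4] [(103, 136, [2, 2, 4])]) .no (.con 136 [2, 2,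
  4, 4]) (.con 136 [2, 2, 4, 4]) .no

def c22t87 : Tr4 :=
  .br 818 .no (.hor [.f 690 1 5] []) .no (.br 944 .no (.con 136 [2, 4, 4]) .no (.br 937 (.red [.f
  937 1 3, .f 936 3 5] 134 136 [4, 4] [(134, 136, [4, 4])]) (.con 136 [2, 4, 4, 2]) .no (.use 84)
  (.br 824 .no (.use 86) .no (.use 85) .no .no) .no) .no .no) .no (.red [.t 953 2 4] 119 136 [2,
  4] [(119, 136, [2, 4])])

def c22t88 : Tr4 :=
  .br 818 .no (.hor [.f 690 1 5] []) .no (.br 937 (.red [.f 937 1 3] 134 136 [4, 4] [(134, 136,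
  [4, 4])]) (.con 136 [2, 4, 4, 2]) .no (.br 944 .no (.con 136 [2, 4, 4]) .no (.use 84) .no .no)
  (.br 944 .no (.con 136 [2, 4, 4]) .no (.br 816 .no (.br 696 (.use 86) (.con 136 [2, 4, 2, 3, 1,
  4]) (.con 136 [2, 4, 2, 3, 1, 4]) .no (.con 136 [2, 4, 2, 3, 1, 4]) .no) (.use 85) (.con 136 [2,
  4, 2, 4]) (.con 136 [2, 4, 2, 4]) .no) .no .no) (.con 136 [4, 4, 2])) .no (.red [.t 953 2 4] 119
  136 [2, 4] [(119, 136, [2, 4])])

def c22t89 : Tr4 :=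
  .br 819 .no (.hor [.f 690 1 5] []) .no (.red [.f 811 3 1, .t 946 3 2, .f 826 1 3] 119 136 [2, 4]
  [(118, 136, [2, 4, 4]), (119, 136, [2, 4]), (120, 136, [2])]) .no .no

def c22t90 : Tr4 :=
  .br 816 .no (.br 832 .no (.use 45) (.use 42) (.br 818 .no (.use 89) .no (.use 52) (.red [.f 818
  5 3, .f 818 3 1] 119 136 [2, 4] [(119, 136, [2, 4])]) (.red [.f 824 3 1, .f 824 1 3, .t 953 2 4]
  119 136 [2, 4] [(119, 136, [2, 4])])) (.use 37) .no) (.red [.t 824 4 1] 119 136 [2, 4] [(119,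
  136, [2, 4])]) (.use 40) (.red [.f 816 5 1, .f 817 1 3] 119 136 [2, 4] [(119, 136, [2, 4])]) .no

def c22t91 : Tr4 :=
  .br 1200 (.br 1201 (.hor [.f 1200 1 5] []) .no .no (.br 817 .no (.hor [.f 688 1 5] []) .no (.br
  936 (.br 1065 .no (.hor [.f 936 1 5] []) .no (.br 1066 (.red [.t 1193 3 2, .f 1073 1 3] 151 136
  [4, 1] [(150, 136, [4, 4, 1]), (151, 136, [4, 1])]) (.con 136 [4, 4, 4]) .no (.hor [.f 1057 3 5]
  []) (.con 136 [4, 4, 4]) .no) (.red [.f 1065 5 3, .f 1065 3 1, .f 1073 1 3] 151 136 [4, 1]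
  [(150, 136, [4, 4, 1]), (151, 136, [4, 1])]) .no) (.red [.t 808 1 3, .f 817 1 3] 119 136 [2, 4]
  [(118, 136, [2, 4, 4]), (119, 136, [2, 4])]) .no (.br 808 .no (.red [.f 680 1 3, .f 808 3 5, .f
  816 5 1, .f 817 1 3] 119 136 [2, 4] [(102, 103, [4]), (119, 136, [2, 4])]) .no (.red [.f 800 3
  1, .t 808 1 3, .f 817 1 3] 119 136 [2, 4] [(117, 136, [2, 4, 4, 4]), (118, 136, [2, 4, 4]),
  (119, 136, [2, 4])]) .no .no) (.red [.f 936 5 3, .f 809 3 1, .f 817 1 3] 119 136 [2, 4] [(118,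
  136, [2, 4, 4]), (119, 136, [2, 4])]) .no) .no .no) (.red [.f 1073 5 1, .f 1073 1 3] 151 136 [4,
  1] [(151, 136, [4, 1])]) .no) .no .no (.use 65) (.red [.t 1080 4 1] 151 136 [4, 1] [(151, 136,
  [4, 1])]) .no

def c22t92 : Tr4 :=
  .br 816 .no (.red [.f 688 1 3] 103 136 [2, 2, 4] [(103, 136, [2, 2, 4])]) .no (.con 136 [2, 2,
  4, 4]) (.con 136 [2, 2, 4, 4]) .no

def c22t93 : Tr4 :=
  .br 947 (.br 1073 (.red [.f 1073 1 3, .f 1072 3 5] 151 136 [4, 1] [(151, 136, [4, 1])]) (.con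
  136 [4, 4]) .no (.br 1074 (.con 136 [4, 4, 1]) .no .no (.hor [.f 1065 3 5] []) .no .no) (.br
  1210 (.use 78) .no (.use 79) (.red [.t 1209 2 4, .f 1072 3 5] 151 136 [4, 1] [(151, 136, [4,
  1])]) (.br 1208 (.use 66) .no (.br 818 .no (.br 835 .no (.br 945 .no (.red [.f 817 1 3] 119 136
  [2, 4] [(119, 136, [2, 4])]) .no (.use 33) .no (.br 816 .no (.use 91) (.red [.t 824 4 1] 119 136
  [2, 4] [(119, 136, [2, 4])]) (.use 39) (.use 32) .no)) (.hor [.f 835 3 1, .f 834 1 5] [(121,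
  119, [3, 3])]) .no .no .no) .no (.use 54) (.red [.f 818 5 3, .f 818 3 1] 119 136 [2, 4] [(119,
  136, [2, 4])]) (.red [.t 953 2 4] 119 136 [2, 4] [(119, 136, [2, 4])])) (.red [.f 1072 3 1, .f
  1080 1 5] 151 136 [4, 1] [(151, 136, [4, 1])]) .no .no) .no) .no) (.red [.t 946 3 2, .f 825 1 5]
  119 136 [2, 4] [(119, 136, [2, 4])]) .no (.br 945 (.br 1075 (.use 48) .no .no (.use 59) .no (.br
  818 .no (.use 89) .no (.br 832 .no (.br 944 .no (.con 136 [2, 4, 4]) .no (.br 937 (.red [.f 937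
  1 3, .f 936 3 5] 134 136 [4, 4] [(134, 136, [4, 4])]) (.con 136 [2, 4, 4, 4]) .no (.use 84) (.br
  819 .no (.br 824 .no (.use 92) .no (.use 85) .no .no) .no (.hor [.f 810 3 5] []) .no .no) .no)
  .no .no) (.br 944 .no (.con 136 [2, 4, 4]) .no (.br 937 (.red [.f 937 1 3, .f 936 3 5] 134 136
  [4, 4] [(134, 136, [4, 4])]) (.con 136 [2, 4, 4, 4]) .no (.use 84) (.br 819 .no (.br 816 .no
  (.br 696 (.use 92) (.con 136 [2, 4, 2, 3, 1, 4]) (.con 136 [2, 4, 2, 3, 1, 4]) .no (.con 136 [2,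
  4, 2, 3, 1, 4]) .no) (.use 85) (.con 136 [2, 4, 2, 4]) (.con 136 [2, 4, 2, 4]) .no) .no (.hor
  [.f 810 3 5] []) .no .no) .no) .no .no) (.red [.f 824 3 1, .f 824 1 5, .t 1072 3 2, .f 945 3 5,
  .t 1089 2 4, .t 960 2 4] 136 136 [] [(135, 119, [1]), (136, 136, [])]) (.red [.t 952 3 2, .t
  1072 3 2, .f 945 3 5, .t 833 4 1, .f 954 3 1] 136 136 [] [(135, 119, [1]), (136, 136, [])]) .no)
  (.red [.f 818 5 3, .f 818 3 1] 119 136 [2, 4] [(119, 136, [2, 4])]) (.red [.t 953 2 4] 119 136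
  [2, 4] [(119, 136, [2, 4])]))) (.red [.f 817 1 3] 119 136 [2, 4] [(119, 136, [2, 4])]) .no (.use
  44) .no (.use 90)) .no .no

def c22t94 : Tr4 :=
  .br 1088 (.br 1208 (.br 1073 (.red [.f 1073 1 3, .f 1072 3 5] 151 136 [4, 1] [(151, 136, [4,
  1])]) (.br 1075 (.use 48) (.con 136 [4, 4]) .no (.use 59) .no (.br 947 .no (.red [.t 946 3 2, .f
  825 1 5] 119 136 [2, 4] [(119, 136, [2, 4])]) .no (.br 832 .no (.br 819 .no (.use 87) .no (.red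
  [.f 811 3 1, .t 946 3 2, .f 826 1 3] 119 136 [2, 4] [(118, 136, [2, 4, 4]), (119, 136, [2, 4]),
  (120, 136, [2])]) .no (.red [.f 818 5 3, .f 818 3 1] 119 136 [2, 4] [(119, 136, [2, 4])])) (.br
  819 .no (.use 88) .no (.red [.f 811 3 1, .t 946 3 2, .f 826 1 3] 119 136 [2, 4] [(118, 136, [2,
  4, 4]), (119, 136, [2, 4]), (120, 136, [2])]) .no (.red [.f 818 5 3, .f 818 3 1] 119 136 [2, 4]
  [(119, 136, [2, 4])])) (.red [.f 824 3 1, .f 824 1 5, .t 1072 3 2, .f 945 3 5, .t 1089 2 4, .t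
  960 2 4] 136 136 [] [(135, 119, [1]), (136, 136, [])]) (.red [.t 952 3 2, .t 1072 3 2, .f 945 3
  5, .t 833 4 1, .f 954 3 1] 136 136 [] [(135, 119, [1]), (136, 136, [])]) .no) .no .no)) .no (.br
  1075 (.use 49) (.br 1074 (.con 136 [4, 4, 1]) .no .no (.hor [.f 1065 3 5] []) .no .no) .no (.use
  61) .no (.br 947 .no (.red [.t 946 3 2, .f 825 1 5] 119 136 [2, 4] [(119, 136, [2, 4])]) .no
  (.br 945 .no (.red [.f 817 1 3] 119 136 [2, 4] [(119, 136, [2, 4])]) .no (.use 44) .no (.use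
  90)) .no .no)) (.use 67) .no) .no .no (.red [.f 1072 3 1, .f 1080 1 5] 151 136 [4, 1] [(151,
  136, [4, 1])]) .no .no) .no (.use 93) .no .no .no

def c22t95 : Tr4 :=
  .br 832 .no (.con 136 [2, 3, 2]) (.hor [.f 832 3 5] []) (.con 136 [2, 3, 2]) .no .no

def c22t96 : Tr4 :=
  .br 1203 (.con 136 [4, 1, 4, 1]) .no .no (.red [.f 1067 3 1] 150 136 [4, 1, 4] [(150, 136, [4,
  1, 4])]) .no .no

def c22t97 : Tr4 :=
  .br 1200 (.red [.f 1200 1 3, .f 1072 3 1, .f 1080 1 5] 151 136 [4, 1] [(151, 136, [4, 1]), (167,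
  136, [4, 1, 1])]) .no .no (.br 1201 (.use 96) .no .no (.hor [.f 1192 3 5] []) .no .no) (.red [.t
  1080 4 1] 151 136 [4, 1] [(151, 136, [4, 1])]) .no

def c22t98 : Tr4 :=
  .br 1075 (.hor [.f 1074 1 5] []) (.con 136 [4, 4, 1]) .no (.con 136 [4, 4, 1]) .no .no

def c22t99 : Tr4 :=
  .br 1203 (.con 136 [4, 4, 1, 1]) .no .no (.red [.t 938 3 1, .f 1067 3 1] 150 136 [4, 4, 1]
  [(134, 136, [4, 4]), (150, 136, [4, 4, 1])]) .no .no

def c22t100 : Tr4 :=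
  .br 1202 (.hor [.f 1201 1 5] []) .no .no (.con 136 [4, 1, 4, 1]) (.con 136 [4, 1, 4, 1]) .no

def c22t101 : Tr4 :=
  .br 843 .no (.con 136 [2, 3, 2, 3]) (.hor [.f 842 3 5] []) .no .no .no

def c22t102 : Tr4 :=
  .br 1203 (.con 136 [4, 4, 1, 1]) .no .no (.red [.t 938 3 1, .f 1067 3 1] 150 136 [4, 4, 1]
  [(134, 136, [4, 4]), (150, 136, [4, 4, 1])]) .no .no

def c22t103 : Tr4 :=
  .br 1203 (.con 136 [4, 4, 1, 1]) .no .no (.red [.f 1066 5 3, .f 1067 3 1] 150 136 [4, 4, 1]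
  [(150, 136, [4, 4, 1])]) .no .no

def c22t104 : Tr4 :=
  .br 1202 (.hor [.f 1201 1 5] []) .no .no (.con 136 [4, 1, 4, 1]) (.con 136 [4, 1, 4, 1]) .no

def c22t105 : Tr4 :=
  .br 843 .no (.con 136 [2, 3, 2, 3]) (.red [.f 843 3 1, .f 835 1 3, .f 962 3 5] 122 136 [2, 3, 3]
  [(121, 136, [2, 3]), (122, 136, [2, 3, 3])]) .no .no .no

def c22t106 : Tr4 :=
  .br 843 .no (.con 136 [2, 3, 2, 3]) (.red [.f 843 3 1, .f 835 1 3, .f 962 3 5] 121 136 [2, 3]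
  [(121, 136, [2, 3]), (122, 136, [2, 3, 3])]) .no .no .no

def c22t107 : Tr4 :=
  .br 840 (.br 969 .no (.hor [.f 840 1 5] []) (.con 136 [2, 3, 3]) .no .no .no) (.red [.f 704 1 3]
  105 136 [2, 3, 2] [(105, 136, [2, 3, 2])]) (.use 106) .no (.use 105) .no

def c22l2 : List Tr4 :=
  [c22t82, c22t83, c22t84, c22t85, c22t86, c22t87, c22t88, c22t89, c22t90, c22t91, c22t92, c22t93,
  c22t94, c22t95, c22t96, c22t97, c22t98, c22t99, c22t100, c22t101, c22t102, c22t103, c22t104,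
  c22t105, c22t106, c22t107]

theorem c22k2 : chkLF ⟨4, 0, 0, true, -8⟩ false 2 c22N 82 c22l2 = true := by decide +kernel

def c22t108 : Tr4 :=
  .br 1200 (.red [.f 1200 1 3, .f 1072 3 1, .f 1080 1 5] 151 136 [4, 1] [(151, 136, [4, 1]), (167,
  136, [4, 1, 1])]) .no .no (.br 1211 (.br 1201 (.use 104) .no .no (.hor [.f 1192 3 5] []) (.br
  1066 (.red [.t 1065 3 1, .f 1073 1 3] 151 136 [4, 1] [(150, 136, [4, 4, 1]), (151, 136, [4,
  1])]) .no .no (.br 1067 (.con 136 [4, 4, 1, 4]) (.use 102) .no (.hor [.f 1058 3 5] []) .no .no)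
  (.use 103) .no) .no) .no .no (.con 136 [4, 1, 1]) .no .no) (.red [.t 1080 4 1] 151 136 [4, 1]
  [(151, 136, [4, 1])]) .no

def c22t109 : Tr4 :=
  .br 969 .no (.hor [.f 840 1 5] []) (.con 136 [2, 3, 3]) .no .no .no

def c22t110 : Tr4 :=
  .br 840 (.use 109) (.red [.f 704 1 3] 105 136 [2, 3, 2] [(105, 136, [2, 3, 2])]) (.use 106) .no
  (.use 105) .no

def c22t111 : Tr4 :=
  .br 840 (.br 969 .no (.hor [.f 840 1 5] []) (.con 136 [2, 3, 3]) .no .no .no) (.red [.f 704 1 3]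
  105 136 [2, 3, 2] [(105, 136, [2, 3, 2])]) (.use 106) .no (.use 105) .no

def c22t112 : Tr4 :=
  .br 843 .no (.con 136 [2, 3, 3, 2]) (.hor [.f 842 3 5] []) .no .no .no

def c22t113 : Tr4 :=
  .br 1203 (.con 136 [4, 4, 1, 1]) .no .no (.red [.f 1066 5 3, .f 1067 3 1] 150 136 [4, 4, 1]
  [(150, 136, [4, 4, 1])]) .no .no

def c22t114 : Tr4 :=
  .br 1200 (.red [.f 1200 1 3, .f 1072 3 1, .f 1080 1 5] 151 136 [4, 1] [(151, 136, [4, 1]), (167,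
  136, [4, 1, 1])]) .no .no (.br 1201 (.use 100) .no .no (.hor [.f 1192 3 5] []) (.br 1066 (.red
  [.t 1065 3 1, .f 1073 1 3] 151 136 [4, 1] [(150, 136, [4, 4, 1]), (151, 136, [4, 1])]) .no .no
  (.br 1067 (.con 136 [4, 4, 1, 4]) (.br 1203 (.con 136 [4, 4, 1, 1]) .no .no (.red [.t 938 3 1,
  .f 1067 3 1] 150 136 [4, 4, 1] [(134, 136, [4, 4]), (150, 136, [4, 4, 1])]) .no .no) .no (.hor
  [.f 1058 3 5] []) .no .no) (.use 113) .no) .no) (.red [.t 1080 4 1] 151 136 [4, 1] [(151, 136,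
  [4, 1])]) .no

def c22t115 : Tr4 :=
  .br 1200 (.red [.f 1200 1 3, .f 1072 3 1, .f 1080 1 5] 151 136 [4, 1] [(151, 136, [4, 1]), (167,
  136, [4, 1, 1])]) .no .no (.br 1201 (.use 104) .no .no (.hor [.f 1192 3 5] []) (.br 1066 (.red
  [.t 1065 3 1, .f 1073 1 3] 151 136 [4, 1] [(150, 136, [4, 4, 1]), (151, 136, [4, 1])]) (.red [.f
  946 5 1, .f 938 1 3, .f 1065 3 5, .f 1073 5 1, .f 1073 1 3] 151 136 [4, 1] [(134, 150, [2]),
  (151, 136, [4, 1])]) .no (.br 1067 (.con 136 [4, 4, 1, 4]) (.br 1203 (.con 136 [4, 4, 1, 1]) .no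
  .no (.red [.f 946 5 1, .f 939 1 3, .f 1067 3 1] 150 136 [4, 4, 1] [(134, 136, [4, 4]), (150,
  136, [4, 4, 1])]) .no .no) .no (.hor [.f 1058 3 5] []) .no .no) (.use 103) .no) .no) (.red [.t
  1080 4 1] 151 136 [4, 1] [(151, 136, [4, 1])]) .no

def c22t116 : Tr4 :=
  .br 1211 (.use 115) .no .no (.con 136 [4, 1, 1]) .no .no

def c22t117 : Tr4 :=
  .br 843 .no (.con 136 [2, 3, 2, 3]) (.hor [.f 842 3 5] []) .no .no .no

def c22t118 : Tr4 :=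
  .br 939 .no (.br 819 .no (.hor [.f 690 1 5] []) .no .no .no .no) .no (.hor [.f 931 3 1, .f 938 1
  5] [(133, 136, [4, 4, 4])]) .no .no

def c22t119 : Tr4 :=
  .br 1200 (.red [.f 1200 1 3, .f 1072 3 1, .f 1080 1 5] 151 136 [4, 1] [(151, 136, [4, 1]), (167,
  136, [4, 1, 1])]) .no .no (.br 1067 (.con 136 [4, 4, 1, 1]) (.br 1203 (.con 136 [4, 4, 1, 1])
  .no .no (.red [.f 946 5 1, .f 939 1 3, .f 1067 3 1] 150 136 [4, 4, 1] [(134, 136, [4, 4]), (150,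
  136, [4, 4, 1])]) .no .no) .no (.br 1066 (.br 1203 (.con 136 [4, 4, 1, 1]) .no .no (.red [.f 946
  5 1, .f 946 1 5, .t 1194 2 3, .f 1065 3 5] 150 136 [4, 4, 1] [(150, 136, [4, 4, 1])]) .no .no)
  (.use 118) .no (.hor [.f 1058 3 5] []) .no .no) .no (.red [.f 1066 5 3, .f 1065 3 5, .t 1209 2
  4] 151 136 [4, 1] [(151, 136, [4, 1])])) .no .no

def c22t120 : Tr4 :=
  .br 819 .no (.hor [.f 691 1 3, .t 826 1 4, .f 945 3 5] [(103, 136, [2, 4, 2]), (119, 136, [2,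
  4])]) .no (.hor [.f 810 3 5] []) .no .no

def c22t121 : Tr4 :=
  .br 819 .no (.hor [.f 691 1 3, .t 826 1 4, .f 945 3 5] [(103, 136, [2, 4, 2]), (119, 136, [2,
  4])]) .no (.hor [.f 810 3 5] []) .no .no

def c22t122 : Tr4 :=
  .br 818 .no (.use 119) .no (.use 121) (.red [.f 818 5 1, .f 818 1 3, .f 945 3 5, .t 1089 2 4, .f
  954 1 5] 136 136 [] [(119, 120, [4]), (136, 136, [])]) (.red [.f 946 5 1, .t 953 4 2, .t 1089 2
  4] 136 136 [] [(119, 120, [4]), (136, 136, [])])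

def c22t123 : Tr4 :=
  .br 819 .no (.hor [.f 691 1 3, .t 826 1 4, .f 945 3 5] [(103, 136, [2, 2, 4]), (119, 136, [2,
  4])]) .no (.hor [.f 810 3 5] []) .no .no

def c22t124 : Tr4 :=
  .br 818 .no (.use 119) .no (.use 123) (.red [.f 818 5 1, .f 818 1 3, .f 945 3 5, .t 1089 2 4, .f
  954 1 5] 136 136 [] [(119, 120, [4]), (136, 136, [])]) (.red [.f 946 5 1, .t 953 4 2, .t 1089 2
  4] 136 136 [] [(119, 120, [4]), (136, 136, [])])

def c22t125 : Tr4 :=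
  .br 825 .no (.use 122) (.br 818 .no (.use 119) .no (.use 120) (.red [.f 818 5 1, .f 818 1 3, .f
  945 3 5, .t 1089 2 4, .f 954 1 5] 136 136 [] [(119, 120, [4]), (136, 136, [])]) (.red [.f 946 5
  1, .t 953 4 2, .t 1089 2 4] 136 136 [] [(119, 120, [4]), (136, 136, [])])) (.hor [.f 817 3 1, .f
  825 1 5] [(119, 136, [2, 4])]) .no (.use 124)

def c22t126 : Tr4 :=
  .br 1201 (.br 1211 (.use 125) .no .no (.hor [.f 1202 3 5] []) .no .no) .no .no (.red [.f 1065 3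
  1, .f 1073 1 3] 151 136 [4, 1] [(150, 136, [4, 4, 1]), (151, 136, [4, 1])]) .no (.red [.t 1080 4
  1] 151 136 [4, 1] [(151, 136, [4, 1])])

def c22t127 : Tr4 :=
  .br 946 (.br 1210 (.use 62) .no (.red [.f 1082 3 1, .f 1081 1 5, .t 945 3 1, .f 953 1 3] 136 136
  [] [(135, 136, [4]), (136, 136, []), (152, 136, [1])]) (.br 1075 (.dom 151 136 [4, 1]) (.hor [.f
  946 1 5] []) .no (.br 1211 (.use 97) .no .no (.hor [.f 1202 3 5] []) .no .no) .no .no) (.red [.t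
  1090 4 1, .f 1081 1 5, .t 945 3 1, .f 953 1 3] 136 136 [] [(135, 136, [4]), (136, 136, []),
  (152, 136, [1])]) .no) (.hor [.f 818 1 3, .f 945 3 5] [(119, 136, [2, 4])]) .no (.br 1074 (.use
  98) .no .no (.hor [.f 1065 3 5] []) (.br 1210 (.use 62) .no (.use 108) (.br 1200 (.red [.f 1200
  1 3, .f 1072 3 1, .f 1080 1 5] 151 136 [4, 1] [(151, 136, [4, 1]), (167, 136, [4, 1, 1])]) .no
  .no (.br 1211 (.br 1201 (.br 1067 (.con 136 [4, 4, 1, 1]) (.use 99) .no (.br 1066 (.br 1203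
  (.con 136 [4, 4, 1, 1]) .no .no (.red [.t 1194 2 3, .f 938 3 1] 150 136 [4, 4, 1] [(134, 136,
  [4, 4]), (150, 136, [4, 4, 1])]) .no .no) .no .no (.hor [.f 1058 3 5] []) .no .no) .no (.red [.f
  1066 5 3, .f 1065 3 5, .t 1209 2 4] 151 136 [4, 1] [(151, 136, [4, 1])])) .no .no (.hor [.f 1192
  3 5] []) .no .no) .no .no (.hor [.f 1202 3 5] []) .no .no) (.red [.t 1080 4 1] 151 136 [4, 1]
  [(151, 136, [4, 1])]) .no) (.use 114) .no) .no) (.br 827 .no (.br 1074 (.use 98) .no .no (.hor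
  [.f 1065 3 5] []) (.br 1210 (.use 62) .no (.use 116) (.use 126) (.red [.t 1090 4 1, .f 946 5 1,
  .f 1081 1 5, .t 945 3 1, .f 953 1 3] 136 136 [] [(135, 136, [4]), (136, 136, []), (152, 136,
  [1])]) .no) .no) .no (.hor [.t 826 1 4, .f 945 3 5] [(119, 136, [2, 4])]) .no .no) .no

def c22t128 : Tr4 :=
  .br 1200 (.red [.f 1200 1 3, .f 1072 3 1, .f 1080 1 5] 151 136 [4, 1] [(151, 136, [4, 1]), (167,
  136, [4, 1, 1])]) .no .no (.br 1067 (.con 136 [4, 4, 1, 1]) (.use 99) .no (.br 1066 (.br 1203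
  (.con 136 [4, 4, 1, 1]) .no .no (.red [.t 1194 2 3, .f 938 3 1] 150 136 [4, 4, 1] [(134, 136,
  [4, 4]), (150, 136, [4, 4, 1])]) .no .no) .no .no (.hor [.f 1058 3 5] []) .no .no) .no (.red [.f
  1066 5 3, .f 1065 3 5, .t 1209 2 4] 151 136 [4, 1] [(151, 136, [4, 1])])) .no .no

def c22t129 : Tr4 :=
  .br 1201 (.br 1211 (.use 128) .no .no (.hor [.f 1202 3 5] []) .no .no) .no .no (.red [.f 1065 3
  1, .f 1073 1 3] 151 136 [4, 1] [(150, 136, [4, 4, 1]), (151, 136, [4, 1])]) .no (.red [.t 1080 4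
  1] 151 136 [4, 1] [(151, 136, [4, 1])])

def c22t130 : Tr4 :=
  .br 1098 (.con 136 [3, 3, 1]) .no (.hor [.f 1097 3 5] []) .no .no .no

def c22t131 : Tr4 :=
  .br 1098 (.con 136 [3, 3, 1]) .no (.hor [.f 1097 3 5] []) .no .no .no

def c22t132 : Tr4 :=
  .br 1200 (.red [.f 1200 1 3, .f 1072 3 1, .f 1080 1 5] 151 136 [4, 1] [(151, 136, [4, 1]), (167,
  136, [4, 1, 1])]) .no .no (.br 1203 (.con 136 [4, 1, 4, 1]) .no .no (.red [.f 1067 3 1] 150 136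
  [4, 1, 4] [(150, 136, [4, 1, 4])]) .no .no) .no .no

def c22t133 : Tr4 :=
  .br 1074 (.use 98) (.br 1210 (.use 76) .no (.red [.f 1082 3 1, .f 1081 1 5, .t 945 3 1, .f 953 1
  3] 136 136 [] [(135, 136, [4]), (136, 136, []), (152, 136, [1])]) (.br 1075 (.dom 151 136 [4,
  1]) (.hor [.f 946 1 5] []) .no (.br 1201 (.br 1211 (.use 132) .no .no (.hor [.f 1202 3 5] [])
  .no .no) .no .no (.red [.f 1065 3 1, .f 1073 1 3] 151 136 [4, 1] [(150, 136, [4, 4, 1]), (151,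
  136, [4, 1])]) .no (.red [.t 1080 4 1] 151 136 [4, 1] [(151, 136, [4, 1])])) .no .no) (.red [.t
  1090 4 1, .f 1081 1 5, .t 945 3 1, .f 953 1 3] 136 136 [] [(135, 136, [4]), (136, 136, []),
  (152, 136, [1])]) .no) .no (.hor [.f 1065 3 5] []) (.br 946 .no (.hor [.f 818 1 3, .f 945 3 5]
  [(119, 136, [2, 4])]) .no (.br 1210 (.use 76) .no (.use 108) (.use 129) (.use 114) .no) (.br
  1210 (.use 76) .no (.use 116) (.br 827 .no (.use 126) .no (.hor [.t 826 1 4, .f 945 3 5] [(119,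
  136, [2, 4])]) .no .no) (.red [.t 1090 4 1, .f 946 5 1, .f 1081 1 5, .t 945 3 1, .f 953 1 3] 136
  136 [] [(135, 136, [4]), (136, 136, []), (152, 136, [1])]) .no) .no) .no

def c22t134 : Tr4 :=
  .br 705 .no (.hor [.f 576 1 5] []) (.red [.t 712 1 4, .f 697 1 3] 105 136 [2, 2, 3] [(104, 136,
  [2, 2]), (105, 136, [2, 2, 3])]) .no .no .no

def c22t135 : Tr4 :=
  .br 704 .no (.use 134) .no (.red [.t 696 3 1, .f 704 1 3] 105 136 [2, 2, 3] [(104, 136, [2, 2]),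
  (105, 136, [2, 2, 3])]) (.red [.f 704 5 1, .f 705 1 5, .t 969 2 4] 121 136 [2, 3] [(121, 136,
  [2, 3])]) .no

def c22t136 : Tr4 :=
  .br 840 .no (.use 135) (.use 117) .no .no .no

def c22t137 : Tr4 :=
  .br 833 .no (.hor [.f 705 1 5] []) .no .no .no (.use 136)

def c22t138 : Tr4 :=
  .br 1200 (.hor [.f 1200 1 5] []) .no .no (.con 136 [4, 1, 4, 1]) .no .no

def c22t139 : Tr4 :=
  .br 1075 (.dom 151 136 [4, 1]) (.hor [.f 946 1 5] []) .no (.br 1203 (.use 138) .no .no (.red [.f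
  1067 3 1] 150 136 [4, 4, 1] [(150, 136, [4, 4, 1])]) .no .no) .no .no

def c22t140 : Tr4 :=
  .br 1066 (.hor [.f 1066 1 5] []) .no .no (.br 1200 (.hor [.f 1200 1 5] []) .no .no (.con 136 [4,
  4, 1, 4]) .no .no) .no .no

def c22t141 : Tr4 :=
  .br 947 .no (.br 939 (.br 1203 (.use 138) .no .no (.red [.t 938 3 1, .f 1067 3 1] 150 136 [4, 4,
  1] [(134, 136, [4, 4]), (150, 136, [4, 4, 1])]) .no .no) (.hor [.f 811 1 3, .f 938 3 5] [(118,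
  150, [2, 2])]) .no (.br 1067 (.use 140) .no .no (.br 1066 (.br 1203 (.use 138) .no .no (.red [.t
  1194 2 3, .f 938 3 1] 150 136 [4, 4, 1] [(134, 136, [4, 4]), (150, 136, [4, 4, 1])]) .no .no)
  .no .no (.hor [.f 1058 3 5] []) .no .no) .no (.red [.f 1066 5 3, .f 1065 3 5, .t 1209 2 4] 151
  136 [4, 1] [(151, 136, [4, 1])])) .no .no) .no (.hor [.f 938 3 5] []) .no .no

def c22t142 : Tr4 :=
  .br 1201 (.br 1211 (.use 141) .no .no (.hor [.f 1202 3 5] []) .no .no) .no .no (.red [.f 1065 3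
  1, .f 1073 1 3] 151 136 [4, 1] [(150, 136, [4, 4, 1]), (151, 136, [4, 1])]) .no (.red [.t 1080 4
  1] 151 136 [4, 1] [(151, 136, [4, 1])])

def c22t143 : Tr4 :=
  .br 704 .no (.hor [.f 576 1 5] []) .no (.red [.f 824 5 3, .f 696 3 1, .f 704 1 3] 105 136 [2, 2,
  3] [(104, 136, [2, 2]), (105, 136, [2, 2, 3])]) .no .no

def c22t144 : Tr4 :=
  .br 705 .no (.use 143) (.red [.f 824 5 3, .f 824 3 5, .t 712 1 4] 105 136 [2, 2, 3] [(105, 136,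
  [2, 2, 3])]) (.red [.f 824 5 3, .f 697 3 1, .f 705 1 5, .t 969 2 4] 121 136 [2, 3] [(104, 105,
  [4]), (121, 136, [2, 3])]) .no (.red [.f 824 5 3, .f 824 3 5, .f 704 5 1, .f 704 1 3] 105 136
  [2, 2, 3] [(105, 136, [2, 2, 3])])

def c22t145 : Tr4 :=
  .br 833 .no (.hor [.f 705 1 5] []) .no .no .no (.br 840 .no (.use 144) (.use 117) .no .no .no)

def c22t146 : Tr4 :=
  .br 1067 .no (.red [.f 946 5 1, .f 939 1 3, .f 1067 3 1] 150 136 [4, 4, 1] [(134, 136, [4, 4]),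
  (150, 136, [4, 4, 1])]) .no (.br 1066 (.red [.f 946 5 1, .f 946 1 5, .t 1194 2 3, .f 1065 3 5]
  150 136 [4, 4, 1] [(150, 136, [4, 4, 1])]) (.use 118) .no (.hor [.f 1058 3 5] []) .no .no) .no
  (.red [.f 1066 5 3, .f 1065 3 5, .t 1209 2 4] 151 136 [4, 1] [(151, 136, [4, 1])])

def c22t147 : Tr4 :=
  .br 818 .no (.br 1203 (.use 138) .no .no (.use 146) .no .no) .no (.use 120) (.red [.f 818 5 1,
  .f 818 1 3, .f 945 3 5, .t 1089 2 4, .f 954 1 5] 136 136 [] [(119, 120, [4]), (136, 136, [])])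
  (.red [.f 946 5 1, .t 953 4 2, .t 1089 2 4] 136 136 [] [(119, 120, [4]), (136, 136, [])])

def c22t148 : Tr4 :=
  .br 842 .no (.red [.f 706 1 3, .f 834 3 1, .f 834 1 5] 121 136 [2, 3] [(105, 136, [2, 3, 2]),
  (121, 136, [2, 3])]) (.br 1074 (.use 98) (.br 1210 (.use 77) .no .no (.br 1201 (.br 1211 (.use
  139) .no .no (.hor [.f 1202 3 5] []) .no .no) .no .no (.red [.f 1065 3 1, .f 1073 1 3] 151 136
  [4, 1] [(150, 136, [4, 4, 1]), (151, 136, [4, 1])]) .no (.red [.t 1080 4 1] 151 136 [4, 1]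
  [(151, 136, [4, 1])])) (.red [.t 1090 4 1, .f 1081 1 5, .t 945 3 1, .f 953 1 3] 136 136 []
  [(135, 136, [4]), (136, 136, []), (152, 136, [1])]) .no) .no (.hor [.f 1065 3 5] []) (.br 946
  .no (.hor [.f 818 1 3, .f 945 3 5] [(119, 121, [4, 4])]) .no (.br 968 .no (.hor [.f 840 1 5] [])
  (.br 825 .no (.use 137) (.br 1210 (.use 77) .no .no (.use 142) (.red [.t 1090 4 1, .t 970 4 1,
  .f 961 1 5, .t 825 3 1, .f 833 1 3] 121 136 [2, 3] [(120, 136, [2]), (121, 136, [2, 3]), (137,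
  121, [1]), (152, 136, [1])]) .no) (.hor [.f 817 3 1, .f 825 1 5] [(119, 121, [4, 4])]) .no (.use
  145)) .no .no .no) (.br 827 .no (.br 1210 (.use 77) .no .no (.br 1201 (.br 1211 (.br 968 .no
  (.hor [.f 840 1 5] []) (.br 825 .no (.use 137) (.use 147) (.hor [.f 817 3 1, .f 825 1 5] [(119,
  121, [4, 4])]) .no (.use 145)) .no .no .no) .no .no (.hor [.f 1202 3 5] []) .no .no) .no .no
  (.red [.f 1065 3 1, .f 1073 1 3] 151 136 [4, 1] [(150, 136, [4, 4, 1]), (151, 136, [4, 1])]) .no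
  (.red [.t 1080 4 1] 151 136 [4, 1] [(151, 136, [4, 1])])) (.red [.t 1090 4 1, .f 946 5 1, .f
  1081 1 5, .t 945 3 1, .f 953 1 3] 136 136 [] [(135, 136, [4]), (136, 136, []), (152, 136, [1])])
  .no) .no (.hor [.t 826 1 4, .f 945 3 5] [(119, 121, [4, 4])]) .no .no) .no) .no) .no (.red [.t
  962 3 2, .f 841 1 5] 121 136 [2, 3] [(121, 136, [2, 3])]) .no

def c22t149 : Tr4 :=
  .br 968 .no (.con 136 [2, 3, 3]) (.hor [.f 968 3 5] []) .no .no .no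

def c22t150 : Tr4 :=
  .br 840 .no (.use 135) (.con 136 [2, 2, 3, 3]) .no .no .no

def c22l3 : List Tr4 :=
  [c22t108, c22t109, c22t110, c22t111, c22t112, c22t113, c22t114, c22t115, c22t116, c22t117,
  c22t118, c22t119, c22t120, c22t121, c22t122, c22t123, c22t124, c22t125, c22t126, c22t127,
  c22t128, c22t129, c22t130, c22t131, c22t132, c22t133, c22t134, c22t135, c22t136, c22t137,
  c22t138, c22t139, c22t140, c22t141, c22t142, c22t143, c22t144, c22t145, c22t146, c22t147,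
  c22t148, c22t149, c22t150]

theorem c22k3 : chkLF ⟨4, 0, 0, true, -8⟩ false 2 c22N 108 c22l3 = true := by decide +kernel

def c22t151 : Tr4 :=
  .br 842 .no (.hor [.f 714 1 5] []) (.br 968 .no (.con 136 [2, 2, 3, 3]) (.use 150) .no .no .no)
  .no .no .no

def c22t152 : Tr4 :=
  .br 968 .no (.con 136 [2, 3, 3]) (.hor [.f 968 3 5] []) .no .no .no

def c22t153 : Tr4 :=
  .br 833 .no (.hor [.f 705 1 5] []) .no .no .no (.red [.t 961 1 3, .f 824 5 3, .t 825 3 1, .f 833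
  1 3] 121 136 [2, 3] [(120, 136, [2]), (121, 136, [2, 3]), (137, 121, [1])])

def c22t154 : Tr4 :=
  .br 971 .no (.red [.f 835 1 3] 121 136 [2, 3] [(121, 136, [2, 3])]) (.br 1098 .no .no (.hor [.f
  1098 3 5] []) .no .no (.br 825 .no (.br 843 .no (.br 969 .no (.br 833 .no (.hor [.f 705 1 5] [])
  .no .no .no (.use 151)) (.use 152) .no .no (.red [.t 1088 3 2, .t 1208 3 2, .f 1081 3 5, .f 1089
  5 3, .f 961 3 1, .f 1090 3 1] 153 136 [3, 1] [(152, 136, [1]), (153, 136, [3, 1])])) (.red [.t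
  961 1 3, .f 843 3 1, .f 835 1 3] 121 136 [2, 3] [(121, 136, [2, 3]), (122, 136, [2, 3, 3]),
  (137, 121, [1])]) .no .no (.red [.t 962 3 2] 121 136 [2, 3] [(121, 136, [2, 3])])) (.red [.t 961
  1 3, .t 825 3 1, .f 954 3 1, .f 962 1 3] 136 136 [] [(120, 136, [2]), (136, 136, [])]) (.hor [.f
  817 3 1, .f 825 1 5] [(119, 121, [4, 4])]) .no (.br 843 .no (.br 969 .no (.use 153) (.use 152)
  .no .no (.red [.t 1088 3 2, .t 1208 3 2, .f 1081 3 5, .f 1089 5 3, .f 961 3 1, .f 1090 3 1] 153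
  136 [3, 1] [(152, 136, [1]), (153, 136, [3, 1])])) (.red [.t 961 1 3, .f 843 3 1, .f 835 1 3]
  121 136 [2, 3] [(121, 136, [2, 3]), (122, 136, [2, 3, 3]), (137, 121, [1])]) .no .no (.red [.t
  962 3 2] 121 136 [2, 3] [(121, 136, [2, 3])])))) .no .no .no

def c22t155 : Tr4 :=
  .br 832 .no (.con 136 [2, 2, 3]) (.hor [.f 832 3 5] []) (.con 136 [2, 2, 3]) .no .no

def c22t156 : Tr4 :=
  .br 842 .no (.red [.f 706 1 3] 105 136 [2, 2, 3] [(105, 136, [2, 2, 3])]) (.br 968 .no (.hor [.f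
  840 1 5] []) (.use 136) .no .no .no) .no (.red [.t 962 3 2, .f 841 1 5] 121 136 [2, 3] [(121,
  136, [2, 3])]) .no

def c22t157 : Tr4 :=
  .br 841 .no (.use 112) (.hor [.f 841 3 5] []) .no .no (.use 101)

def c22t158 : Tr4 :=
  .br 1226 (.hor [.f 1225 1 5] []) .no (.con 136 [3, 1, 1, 3]) .no (.con 136 [3, 1, 3, 1]) .no

def c22t159 : Tr4 :=
  .br 977 (.hor [.f 977 1 5] []) (.con 136 [3, 3, 3]) (.con 136 [3, 3, 3]) .no .no (.con 136 [3,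
  3, 3])

def c22t160 : Tr4 :=
  .br 977 .no (.con 136 [2, 3, 3, 3]) (.hor [.f 977 3 5] []) .no .no (.con 136 [2, 3, 3, 3])

def c22t161 : Tr4 :=
  .br 1200 (.hor [.f 1200 1 5] []) .no .no (.con 136 [4, 1, 1, 4]) .no .no

def c22t162 : Tr4 :=
  .br 1106 (.red [.t 1233 4 2] 154 136 [3, 3, 1] [(154, 136, [3, 3, 1])]) (.br 1107 (.con 136 [3,
  3, 3]) (.red [.f 971 1 3] 138 136 [3, 3] [(138, 136, [3, 3])]) (.con 136 [3, 3, 3]) .no .no .no)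
  (.hor [.f 1105 3 5] []) .no (.br 1104 (.red [.t 961 1 3, .f 1088 3 5, .t 1232 2 4] 154 136 [3,
  3, 1] [(137, 121, [1]), (154, 136, [3, 3, 1])]) (.con 136 [3, 3, 3]) (.hor [.f 1104 3 5] []) .no
  .no .no) .no

def c22t163 : Tr4 :=
  .br 1344 (.hor [.f 1344 1 5] []) .no .no (.red [.f 1208 3 1, .f 1216 1 3] 169 136 [1, 1, 3]
  [(168, 136, [1, 1]), (169, 136, [1, 1, 3])]) .no .no

def c22t164 : Tr4 :=
  .br 1338 (.con 136 [1, 1, 1]) .no (.hor [.f 1337 3 5] []) (.con 136 [1, 1, 1]) (.con 136 [1, 1,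
  1]) .no

def c22t165 : Tr4 :=
  .br 1344 (.red [.f 1336 1 3, .f 1208 3 1] 168 136 [1, 1] [(168, 136, [1, 1]), (184, 136, [1, 1,
  1])]) .no .no .no .no .no

def c22t166 : Tr4 :=
  .br 1106 (.red [.f 1097 5 1, .f 1098 1 3] 154 136 [3, 3, 1] [(154, 136, [3, 3, 1])]) (.use 159)
  (.hor [.f 1106 3 5] []) .no .no (.br 979 .no (.br 978 .no (.hor [.f 850 1 5] []) (.use 160) .no
  .no (.br 987 .no (.red [.f 851 1 3] 123 136 [2, 3, 3, 3] [(123, 136, [2, 3, 3, 3])]) (.br 976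
  (.con 136 [3, 3, 3]) (.br 850 .no (.con 136 [2, 3, 2, 3, 2]) (.br 986 (.red [.f 977 5 1, .f 978
  1 3, .f 850 3 1] 123 136 [2, 3, 3, 3] [(123, 136, [2, 3, 3, 3]), (139, 136, [3, 3, 3])]) .no
  (.hor [.f 986 3 5] []) .no .no (.red [.f 977 5 3, .f 850 3 1] 123 136 [2, 3, 3, 3] [(123, 136,
  [2, 3, 3, 3])])) .no .no (.hor [.f 849 5 1, .f 848 1 5, .f 850 1 5] [])) (.con 136 [2, 3, 3, 3])
  .no .no .no) .no .no (.red [.f 1097 5 1, .f 977 5 1, .t 1106 2 3] 139 136 [3, 3, 3] [(139, 136,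
  [3, 3, 3])]))) (.red [.f 979 3 1, .f 971 1 3] 139 136 [3, 3, 3] [(138, 136, [3, 3]), (139, 136,
  [3, 3, 3])]) .no .no (.red [.f 1097 5 3, .t 1098 3 2] 138 136 [3, 3] [(138, 136, [3, 3])]))

def c22t167 : Tr4 :=
  .br 1227 (.con 136 [3, 3, 1, 1]) .no (.red [.t 961 1 3, .f 970 1 5, .f 1098 5 3, .f 1099 3 1]
  154 136 [3, 3, 1] [(137, 121, [1]), (154, 136, [3, 3, 1])]) .no .no .no

def c22t168 : Tr4 :=
  .br 1106 (.red [.f 1097 5 1, .f 1098 1 3] 154 136 [3, 3, 1] [(154, 136, [3, 3, 1])]) (.use 159)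
  (.hor [.f 1106 3 5] []) .no .no (.br 979 .no (.br 978 .no (.hor [.f 850 1 5] []) (.use 160) .no
  .no (.br 840 .no (.red [.t 696 3 1, .f 704 1 3] 105 136 [2, 2, 3] [(104, 136, [2, 2]), (105,
  136, [2, 2, 3])]) (.con 136 [2, 3, 3, 2]) .no .no .no)) (.red [.f 979 3 1, .f 971 1 3] 139 136
  [3, 3, 3] [(138, 136, [3, 3]), (139, 136, [3, 3, 3])]) .no .no (.red [.f 1097 5 3, .t 1098 3 2]
  138 136 [3, 3] [(138, 136, [3, 3])]))

def c22t169 : Tr4 :=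
  .br 1106 (.red [.f 1097 5 1, .f 1098 1 3] 154 136 [3, 3, 1] [(154, 136, [3, 3, 1])]) (.use 159)
  (.hor [.f 1106 3 5] []) .no .no (.br 979 .no (.br 978 .no (.hor [.f 850 1 5] []) (.use 160) .no
  .no (.br 840 .no (.red [.f 704 5 1, .f 704 1 3] 105 136 [2, 2, 3] [(105, 136, [2, 2, 3])]) (.con
  136 [2, 3, 3, 2]) .no .no .no)) (.red [.f 979 3 1, .f 971 1 3] 139 136 [3, 3, 3] [(138, 136, [3,
  3]), (139, 136, [3, 3, 3])]) .no .no (.red [.f 1097 5 3, .t 1098 3 2] 138 136 [3, 3] [(138, 136,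
  [3, 3])]))

def c22t170 : Tr4 :=
  .br 1338 (.con 136 [1, 1, 1]) .no (.hor [.f 1337 3 5] []) (.con 136 [1, 1, 1]) (.con 136 [1, 1,
  1]) .no

def c22t171 : Tr4 :=
  .br 1336 (.use 164) .no (.red [.f 1208 3 1, .f 1216 1 3] 169 136 [3, 1, 1] [(168, 136, [1, 1]),
  (169, 136, [3, 1, 1])]) (.use 170) .no .no

def c22t172 : Tr4 :=
  .br 979 (.red [.f 971 1 3] 138 136 [3, 3] [(138, 136, [3, 3])]) .no (.br 978 (.con 136 [3, 3,
  3]) (.red [.t 961 1 3, .f 970 1 5, .t 850 1 4, .f 835 1 3] 122 136 [2, 3, 3] [(121, 136, [2,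
  3]), (122, 136, [2, 3, 3]), (137, 121, [1])]) (.hor [.f 978 3 5] []) .no .no (.br 1106 (.red [.t
  961 1 3, .f 970 1 5, .f 1098 5 1, .f 1098 1 3] 154 136 [3, 3, 1] [(137, 121, [1]), (154, 136,
  [3, 3, 1])]) .no (.br 1107 (.con 136 [3, 3, 3, 1]) .no (.hor [.f 1106 3 5] []) .no .no .no) .no
  (.red [.t 1088 3 2, .f 961 3 5, .f 969 5 3, .t 970 3 1] 138 136 [3, 3] [(137, 121, [1]), (138,
  136, [3, 3])]) .no)) .no .no (.red [.t 1088 3 2, .f 961 3 5, .f 841 5 1, .t 842 1 3] 122 136 [2,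
  3, 3] [(122, 136, [2, 3, 3]), (137, 121, [1])])

def c22t173 : Tr4 :=
  .br 1105 (.con 136 [3, 3, 3]) (.hor [.f 977 1 5] []) (.con 136 [3, 3, 3]) .no .no (.con 136 [3,
  3, 3])

def c22t174 : Tr4 :=
  .br 1105 (.con 136 [3, 3, 3, 1]) .no (.hor [.f 1105 3 5] []) .no .no (.con 136 [3, 3, 3, 1])

def c22t175 : Tr4 :=
  .br 1224 (.br 1345 (.use 163) .no (.red [.t 1090 4 1, .f 1081 1 5, .f 1209 5 3, .f 1208 3 5, .t
  1352 2 4] 169 136 [3, 1, 1] [(152, 136, [1]), (169, 136, [3, 1, 1])]) (.use 171) (.br 1336 (.use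
  165) .no (.red [.f 1217 5 1, .f 1208 3 1] 168 136 [1, 1] [(168, 136, [1, 1])]) (.br 1225 (.hor
  [.f 1224 1 5] []) .no (.br 1105 .no (.red [.t 1088 3 2, .f 961 3 5, .f 969 5 1, .f 969 1 3] 138
  136 [3, 3] [(137, 121, [1]), (138, 136, [3, 3])]) (.use 162) .no (.red [.f 1097 5 3, .f 1097 3
  1] 154 136 [3, 3, 1] [(154, 136, [3, 3, 1])]) (.br 1226 (.red [.f 1217 5 1, .f 1218 1 3] 169 136
  [3, 1, 1] [(169, 136, [3, 1, 1])]) .no (.hor [.f 1225 3 5] []) .no (.br 843 .no (.con 136 [2, 2,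
  3, 2]) (.use 172) .no .no .no) .no)) .no (.br 843 .no (.con 136 [2, 2, 3, 2]) (.br 979 (.red [.f
  971 1 3] 138 136 [3, 3] [(138, 136, [3, 3])]) .no (.br 978 (.use 173) (.red [.t 961 1 3, .f 970
  1 5, .t 850 1 4, .f 835 1 3] 122 136 [2, 3, 3] [(121, 136, [2, 3]), (122, 136, [2, 3, 3]), (137,
  121, [1])]) (.hor [.f 978 3 5] []) .no .no (.br 1107 (.br 1106 (.hor [.f 1106 1 5] []) .no (.use
  174) .no .no (.br 976 (.con 136 [3, 3, 3]) (.con 136 [2, 2, 3, 3, 1]) (.br 1347 (.br 1355 (.con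
  136 [3, 3, 1, 1, 4]) (.br 850 .no (.con 136 [2, 2, 3, 3, 2]) (.br 986 (.red [.f 977 5 1, .f 978
  1 3, .f 850 3 1] 123 136 [2, 3, 3, 3] [(123, 136, [2, 3, 3, 3]), (139, 136, [3, 3, 3])]) .no
  (.br 985 (.con 136 [3, 3, 3, 3]) (.con 136 [2, 2, 3, 3, 3, 1]) (.hor [.f 985 3 5] []) .no .no
  .no) .no .no (.red [.f 977 5 3, .f 850 3 1] 123 136 [2, 3, 3, 3] [(123, 136, [2, 3, 3, 3])]))
  .no .no (.red [.f 841 5 3, .f 842 3 5, .t 962 3 2] 121 136 [2, 3] [(121, 136, [2, 3])])) (.con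
  136 [3, 3, 1, 1, 4]) .no .no (.con 136 [3, 3, 1, 1, 4])) .no (.con 136 [3, 3, 1, 1, 4]) (.con
  136 [1, 1, 1]) .no .no) .no .no .no)) .no (.use 166) .no .no (.red [.f 1097 5 1, .t 1088 3 2, .f
  961 3 5, .f 969 5 3, .t 970 3 1] 138 136 [3, 3] [(137, 121, [1]), (138, 136, [3, 3])]))) .no .no
  (.red [.t 1088 3 2, .f 961 3 5, .f 841 5 1, .t 842 1 3] 122 136 [2, 3, 3] [(122, 136, [2, 3,
  3]), (137, 121, [1])])) .no .no .no) .no) (.red [.f 1217 5 1, .t 1216 4 1] 168 136 [1, 1] [(168,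
  136, [1, 1])]) .no) (.red [.t 1081 1 3, .f 1208 3 5, .f 1216 5 1, .f 1216 1 3] 169 136 [3, 1, 1]
  [(152, 136, [1]), (169, 136, [3, 1, 1])])) .no (.br 1225 (.use 158) .no (.hor [.f 1224 3 5] [])
  .no (.br 1107 (.con 136 [3, 3, 1, 1]) (.red [.f 971 1 3] 138 136 [3, 3] [(138, 136, [3, 3])])
  (.use 166) .no .no (.use 167)) .no) .no (.red [.t 1081 1 3, .f 1208 3 5, .f 1216 5 3, .f 1088 3
  1] 153 136 [3, 1] [(152, 136, [1]), (153, 136, [3, 1])]) .no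

def c22t176 : Tr4 :=
  .br 1105 .no (.red [.t 1088 3 2, .f 961 3 5, .f 969 5 1, .f 969 1 3] 138 136 [3, 3] [(137, 121,
  [1]), (138, 136, [3, 3])]) (.use 162) .no (.red [.f 1097 5 3, .f 1097 3 1] 154 136 [3, 3, 1]
  [(154, 136, [3, 3, 1])]) (.br 1226 (.red [.f 1217 5 1, .f 1218 1 3] 169 136 [3, 1, 1] [(169,
  136, [3, 1, 1])]) .no (.hor [.f 1225 3 5] []) .no (.br 843 .no (.con 136 [2, 3, 2, 3]) (.use
  172) .no .no .no) .no)

def c22t177 : Tr4 :=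
  .br 850 .no (.con 136 [2, 3, 2, 3, 3]) (.br 986 (.red [.f 977 5 1, .f 978 1 3, .f 850 3 1] 123
  136 [2, 3, 3, 3] [(123, 136, [2, 3, 3, 3]), (139, 136, [3, 3, 3])]) .no (.br 985 (.con 136 [2,
  3, 3, 3, 3, 1]) (.con 136 [2, 3, 2, 3, 3, 1]) (.hor [.f 985 3 5] []) .no .no (.con 136 [2, 3, 3,
  3, 1])) .no .no (.red [.f 977 5 3, .f 850 3 1] 123 136 [2, 3, 3, 3] [(123, 136, [2, 3, 3, 3])]))
  .no .no (.red [.f 841 5 3, .f 842 3 5, .t 962 3 2] 121 136 [2, 3] [(121, 136, [2, 3])])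

def c22t178 : Tr4 :=
  .br 843 .no (.con 136 [2, 3, 2, 3]) (.br 979 .no .no (.br 978 (.use 173) (.red [.t 961 1 3, .f
  970 1 5, .t 850 1 4, .f 835 1 3] 122 136 [2, 3, 3] [(121, 136, [2, 3]), (122, 136, [2, 3, 3]),
  (137, 121, [1])]) (.hor [.f 978 3 5] []) .no .no (.br 1106 (.hor [.f 1106 1 5] []) .no (.use
  174) .no .no (.br 1115 (.red [.f 1107 1 3] 155 136 [3, 3, 3, 1] [(155, 136, [3, 3, 3, 1])]) .no
  (.br 1104 (.use 177) (.con 136 [3, 3, 3]) (.con 136 [3, 3, 3, 1]) .no .no .no) .no .no (.red [.f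
  1097 5 1, .f 977 5 1, .t 978 1 3] 139 136 [3, 3, 3] [(139, 136, [3, 3, 3])])))) .no .no (.red
  [.t 1088 3 2, .f 961 3 5, .f 841 5 1, .t 842 1 3] 122 136 [2, 3, 3] [(122, 136, [2, 3, 3]),
  (137, 121, [1])])) .no .no .no

def c22t179 : Tr4 :=
  .br 1338 (.hor [.f 1337 1 5] []) .no .no (.con 136 [1, 1, 4, 1]) (.con 136 [1, 1, 4, 1]) .no

def c22t180 : Tr4 :=
  .br 1203 (.con 136 [4, 1, 1, 4]) .no .no (.red [.t 938 3 1, .f 1067 3 1] 150 136 [4, 4, 1]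
  [(134, 136, [4, 4]), (150, 136, [4, 4, 1])]) .no .no

def c22t181 : Tr4 :=
  .br 1355 (.con 136 [3, 3, 1, 1, 4]) (.br 849 .no (.red [.t 848 4 2] 106 136 [2, 3, 2, 3] [(106,
  136, [2, 3, 2, 3])]) (.br 986 (.red [.f 1097 5 1, .f 977 5 1, .f 978 1 3] 139 136 [3, 3, 3]
  [(139, 136, [3, 3, 3])]) (.con 136 [2, 3, 3, 3, 2]) (.br 1114 (.br 1113 (.hor [.f 1113 1 5] [])
  (.con 136 [3, 3, 3, 1, 3]) (.con 136 [3, 3, 3, 1, 3]) .no .no (.con 136 [3, 3, 3, 3, 1])) .no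
  (.red [.f 986 3 1] 140 136 [2, 3, 3, 3, 3, 1] [(140, 136, [3, 3, 3, 3])]) .no .no (.br 1234 (.br
  1353 (.br 1473 (.br 1474 (.hor [.f 1473 1 5] []) .no (.con 136 [3, 3, 1, 1, 1, 4]) (.con 136 [1,
  1, 1, 1]) .no .no) .no .no (.red [.f 1217 5 3, .f 1337 5 3, .f 1337 3 1] 184 136 [1, 1, 1]
  [(184, 136, [1, 1, 1])]) (.red [.f 1345 5 1, .f 1345 1 3] 185 136 [3, 1, 1, 1] [(185, 136, [3,
  1, 1, 1])]) (.con 136 [1, 1, 1, 3])) .no (.con 136 [3, 3, 1, 1, 3]) .no (.hor [.f 1225 5 1, .f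
  1224 1 5, .f 1226 1 5] []) .no) .no (.red [.f 1105 5 3, .f 1106 3 1] 155 136 [3, 3, 3, 1] [(155,
  136, [3, 3, 3, 1])]) .no .no (.hor [.f 1105 5 1, .f 1104 1 5, .f 1106 1 5] []))) .no .no (.red
  [.f 1097 5 3, .f 977 5 3, .f 978 3 5, .t 1098 3 2] 138 136 [3, 3] [(138, 136, [3, 3])])) .no
  (.red [.f 841 5 3, .f 842 3 5, .t 962 3 2] 121 136 [2, 3] [(121, 136, [2, 3])]) .no) (.con 136
  [3, 3, 1, 1, 4]) .no .no (.con 136 [3, 3, 1, 1, 4])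

def c22t182 : Tr4 :=
  .br 1347 (.br 843 .no (.con 136 [2, 3, 2, 3]) (.br 979 .no .no (.br 978 (.use 173) (.red [.t 961
  1 3, .f 970 1 5, .t 850 1 4, .f 835 1 3] 122 136 [2, 3, 3] [(121, 136, [2, 3]), (122, 136, [2,
  3, 3]), (137, 121, [1])]) (.hor [.f 978 3 5] []) .no .no (.br 1106 (.hor [.f 1106 1 5] []) .no
  (.use 174) .no .no (.br 1115 (.red [.f 1107 1 3] 155 136 [3, 3, 3, 1] [(155, 136, [3, 3, 3,
  1])]) .no (.br 1104 (.use 181) (.con 136 [3, 3, 3]) (.con 136 [3, 3, 3, 1]) .no .no .no) .no .no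
  (.red [.f 1097 5 1, .f 977 5 1, .t 978 1 3] 139 136 [3, 3, 3] [(139, 136, [3, 3, 3])])))) .no
  .no (.red [.t 1088 3 2, .f 961 3 5, .f 841 5 1, .t 842 1 3] 122 136 [2, 3, 3] [(122, 136, [2, 3,
  3]), (137, 121, [1])])) .no .no .no) .no (.con 136 [3, 3, 1, 1, 4]) (.con 136 [1, 1, 1]) .no .no

def c22t183 : Tr4 :=
  .br 978 .no (.red [.t 1088 3 2, .f 961 3 5, .f 841 5 1, .f 842 1 3] 122 136 [2, 3, 3] [(122,
  136, [2, 3, 3]), (137, 121, [1])]) (.br 977 (.red [.t 1088 3 2, .f 961 3 5, .f 969 5 1, .f 969 1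
  3] 138 136 [3, 3] [(137, 121, [1]), (138, 136, [3, 3])]) (.con 136 [2, 3, 3, 3]) (.hor [.f 977 3
  5] []) .no .no (.br 979 .no (.con 136 [2, 3, 3, 2]) (.hor [.f 978 3 5] []) .no .no .no)) .no
  (.red [.f 978 5 1, .f 971 1 3] 138 136 [3, 3] [(138, 136, [3, 3])]) (.red [.f 1097 5 1, .t 1088
  3 2, .f 961 3 5, .f 969 5 3, .t 970 3 1] 138 136 [3, 3] [(137, 121, [1]), (138, 136, [3, 3])])

def c22l4 : List Tr4 :=
  [c22t151, c22t152, c22t153, c22t154, c22t155, c22t156, c22t157, c22t158, c22t159, c22t160,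
  c22t161, c22t162, c22t163, c22t164, c22t165, c22t166, c22t167, c22t168, c22t169, c22t170,
  c22t171, c22t172, c22t173, c22t174, c22t175, c22t176, c22t177, c22t178, c22t179, c22t180,
  c22t181, c22t182, c22t183]

theorem c22k4 : chkLF ⟨4, 0, 0, true, -8⟩ false 2 c22N 151 c22l4 = true := by decide +kernel

def c22t184 : Tr4 :=
  .br 1224 (.br 1345 (.use 163) .no (.red [.t 1090 4 1, .f 1081 1 5, .f 1209 5 3, .f 1208 3 5, .t
  1352 2 4] 169 136 [3, 1, 1] [(152, 136, [1]), (169, 136, [3, 1, 1])]) (.use 171) (.br 1336 (.use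
  165) .no (.red [.f 1217 5 1, .f 1208 3 1] 168 136 [1, 1] [(168, 136, [1, 1])]) (.br 1337 (.use
  179) .no .no (.hor [.f 1328 3 5] []) (.br 840 .no (.red [.f 704 5 1, .f 704 1 3] 105 136 [2, 2,
  3] [(105, 136, [2, 2, 3])]) (.br 1225 (.hor [.f 1224 1 5] []) .no (.use 176) .no (.br 1107 (.br
  713 .no (.br 712 .no (.hor [.f 584 1 5] []) (.red [.f 712 3 1] 106 136 [2, 2, 3, 3] [(106, 136,
  [2, 2, 3, 3])]) .no .no .no) (.use 178) .no (.red [.f 713 5 1, .f 706 1 3] 105 136 [2, 2, 3]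
  [(105, 136, [2, 2, 3])]) (.use 182)) (.red [.f 971 1 3] 138 136 [3, 3] [(138, 136, [3, 3])])
  (.use 169) .no .no (.use 183)) .no) .no .no .no) .no) (.red [.f 1217 5 1, .t 1216 4 1] 168 136
  [1, 1] [(168, 136, [1, 1])]) .no) (.red [.t 1081 1 3, .f 1208 3 5, .f 1216 5 1, .f 1216 1 3] 169
  136 [3, 1, 1] [(152, 136, [1]), (169, 136, [3, 1, 1])])) .no (.br 1225 (.use 158) .no (.hor [.f
  1224 3 5] []) .no (.br 1107 (.con 136 [3, 3, 1, 1]) (.red [.f 971 1 3] 138 136 [3, 3] [(138,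
  136, [3, 3])]) (.use 169) .no .no (.use 167)) .no) .no (.red [.t 1081 1 3, .f 1208 3 5, .f 1216
  5 3, .f 1088 3 1] 153 136 [3, 1] [(152, 136, [1]), (153, 136, [3, 1])]) .no

def c22t185 : Tr4 :=
  .br 1106 (.red [.f 1097 5 1, .f 1098 1 3] 154 136 [3, 3, 1] [(154, 136, [3, 3, 1])]) (.use 159)
  (.hor [.f 1106 3 5] []) .no .no (.br 979 .no (.br 840 .no (.use 143) (.con 136 [2, 3, 3, 2]) .no
  .no .no) (.red [.f 979 3 1, .f 971 1 3] 139 136 [3, 3, 3] [(138, 136, [3, 3]), (139, 136, [3, 3,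
  3])]) .no .no (.red [.f 1097 5 3, .t 1098 3 2] 138 136 [3, 3] [(138, 136, [3, 3])]))

def c22t186 : Tr4 :=
  .br 840 .no (.use 143) (.con 136 [2, 2, 3, 3]) .no .no .no

def c22t187 : Tr4 :=
  .br 1224 (.br 1345 (.use 163) .no (.red [.t 1090 4 1, .f 1081 1 5, .f 1209 5 3, .f 1208 3 5, .t
  1352 2 4] 169 136 [3, 1, 1] [(152, 136, [1]), (169, 136, [3, 1, 1])]) (.use 171) (.br 1336 (.use
  165) .no (.red [.f 1217 5 1, .f 1208 3 1] 168 136 [1, 1] [(168, 136, [1, 1])]) (.br 1337 (.use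
  179) .no .no (.hor [.f 1328 3 5] []) (.br 1225 (.hor [.f 1224 1 5] []) .no (.br 1105 .no (.red
  [.t 1088 3 2, .f 961 3 5, .f 969 5 1, .f 969 1 3] 138 136 [3, 3] [(137, 121, [1]), (138, 136,
  [3, 3])]) (.use 162) .no (.red [.f 1097 5 3, .f 1097 3 1] 154 136 [3, 3, 1] [(154, 136, [3, 3,
  1])]) (.br 1226 (.red [.f 1217 5 1, .f 1218 1 3] 169 136 [3, 1, 1] [(169, 136, [3, 1, 1])]) .no
  (.hor [.f 1225 3 5] []) .no (.br 843 .no (.use 186) (.use 172) .no .no .no) .no)) .no (.br 843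
  .no (.use 186) (.br 979 (.red [.f 971 1 3] 138 136 [3, 3] [(138, 136, [3, 3])]) .no (.br 978
  (.use 173) (.red [.t 961 1 3, .f 970 1 5, .t 850 1 4, .f 835 1 3] 122 136 [2, 3, 3] [(121, 136,
  [2, 3]), (122, 136, [2, 3, 3]), (137, 121, [1])]) (.hor [.f 978 3 5] []) .no .no (.br 1107 (.br
  1106 (.hor [.f 1106 1 5] []) .no (.use 174) .no .no (.br 1347 (.br 1115 (.red [.f 1107 1 3] 155
  136 [3, 3, 3, 1] [(155, 136, [3, 3, 3, 1])]) .no (.br 1104 (.br 840 .no (.use 143) (.br 713 .no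
  (.red [.f 577 1 3, .t 705 3 1] 105 136 [2, 2, 3] [(89, 136, [2, 2, 3, 2]), (105, 136, [2, 2,
  3])]) (.use 177) .no (.red [.f 824 5 3, .f 713 5 1, .f 706 1 3] 105 136 [2, 2, 3] [(105, 136,
  [2, 2, 3])]) (.use 181)) .no .no .no) (.con 136 [3, 3, 3]) (.con 136 [3, 3, 3, 1]) .no .no .no)
  .no .no (.red [.f 1097 5 1, .f 977 5 1, .t 978 1 3] 139 136 [3, 3, 3] [(139, 136, [3, 3, 3])]))
  .no (.con 136 [3, 3, 1, 1, 4]) (.con 136 [1, 1, 1]) .no .no)) .no (.use 185) .no .no (.red [.f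
  1097 5 1, .t 1088 3 2, .f 961 3 5, .f 969 5 3, .t 970 3 1] 138 136 [3, 3] [(137, 121, [1]),
  (138, 136, [3, 3])]))) .no .no (.red [.t 1088 3 2, .f 961 3 5, .f 841 5 1, .t 842 1 3] 122 136
  [2, 3, 3] [(122, 136, [2, 3, 3]), (137, 121, [1])])) .no .no .no) .no) .no) (.red [.f 1217 5 1,
  .t 1216 4 1] 168 136 [1, 1] [(168, 136, [1, 1])]) .no) (.red [.t 1081 1 3, .f 1208 3 5, .f 1216
  5 1, .f 1216 1 3] 169 136 [3, 1, 1] [(152, 136, [1]), (169, 136, [3, 1, 1])])) .no (.br 1225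
  (.use 158) .no (.hor [.f 1224 3 5] []) .no (.br 1107 (.con 136 [3, 3, 1, 1]) (.red [.f 971 1 3]
  138 136 [3, 3] [(138, 136, [3, 3])]) (.use 185) .no .no (.use 167)) .no) .no (.red [.t 1081 1 3,
  .f 1208 3 5, .f 1216 5 3, .f 1088 3 1] 153 136 [3, 1] [(152, 136, [1]), (153, 136, [3, 1])]) .no

def c22t188 : Tr4 :=
  .br 825 .no (.br 833 .no (.hor [.f 705 1 5] []) (.use 155) .no .no (.br 969 .no (.use 156) (.use
  149) .no .no (.br 842 .no (.red [.f 706 1 3] 105 136 [2, 2, 3] [(105, 136, [2, 2, 3])]) (.use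
  157) .no (.red [.t 1088 3 2, .t 962 3 2] 121 136 [2, 3] [(121, 136, [2, 3]), (137, 121, [1])])
  (.br 705 .no (.br 824 .no (.hor [.f 696 1 5] []) .no (.br 696 .no (.br 704 .no (.hor [.f 576 1
  5] []) (.br 713 .no (.red [.f 577 1 3] 89 136 [2, 2, 2, 3] [(89, 136, [2, 2, 2, 3])]) (.use 175)
  .no (.red [.f 713 5 1, .f 706 1 3] 105 136 [2, 2, 3] [(105, 136, [2, 2, 3])]) .no) .no .no .no)
  (.br 1224 (.br 1345 (.use 163) .no (.red [.t 1090 4 1, .f 1081 1 5, .f 1209 5 3, .f 1208 3 5, .t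
  1352 2 4] 169 136 [3, 1, 1] [(152, 136, [1]), (169, 136, [3, 1, 1])]) (.use 171) (.br 1336 (.use
  165) .no (.red [.f 1217 5 1, .f 1208 3 1] 168 136 [1, 1] [(168, 136, [1, 1])]) (.br 840 .no
  (.red [.t 696 3 1, .f 704 1 3] 105 136 [2, 2, 3] [(104, 136, [2, 2]), (105, 136, [2, 2, 3])])
  (.br 1225 (.hor [.f 1224 1 5] []) .no (.use 176) .no (.br 1107 (.br 713 .no (.red [.f 577 1 3,
  .t 705 3 1] 105 136 [2, 2, 3] [(89, 136, [2, 2, 2, 3]), (105, 136, [2, 2, 3])]) (.use 178) .no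
  (.red [.f 713 5 1, .f 706 1 3] 105 136 [2, 2, 3] [(105, 136, [2, 2, 3])]) (.br 1337 (.use 179)
  .no .no (.hor [.f 1328 3 5] []) (.use 182) .no)) (.red [.f 971 1 3] 138 136 [3, 3] [(138, 136,
  [3, 3])]) (.use 168) .no .no (.use 183)) .no) .no .no .no) (.red [.f 1217 5 1, .t 1216 4 1] 168
  136 [1, 1] [(168, 136, [1, 1])]) .no) (.red [.t 1081 1 3, .f 1208 3 5, .f 1216 5 1, .f 1216 1 3]
  169 136 [3, 1, 1] [(152, 136, [1]), (169, 136, [3, 1, 1])])) .no (.br 1225 (.use 158) .no (.hor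
  [.f 1224 3 5] []) .no (.br 1107 (.con 136 [3, 3, 1, 1]) (.red [.f 971 1 3] 138 136 [3, 3] [(138,
  136, [3, 3])]) (.use 168) .no .no (.use 167)) .no) .no (.red [.t 1081 1 3, .f 1208 3 5, .f 1216
  5 3, .f 1088 3 1] 153 136 [3, 1] [(152, 136, [1]), (153, 136, [3, 1])]) .no) (.hor [.f 688 3 1,
  .f 696 1 5] [(103, 105, [4, 4])]) .no .no) .no .no) (.red [.t 705 3 1] 105 136 [2, 2, 3] [(105,
  136, [2, 2, 3])]) .no .no (.use 184))))) (.red [.t 961 1 3, .t 825 3 1, .f 954 3 1, .f 962 1 3]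
  136 136 [] [(120, 136, [2]), (136, 136, [])]) (.hor [.f 817 3 1, .f 825 1 5] [(119, 121, [4,
  4])]) .no (.br 969 .no (.use 153) (.use 149) .no .no (.br 833 .no (.hor [.f 705 1 5] []) (.use
  155) .no .no (.br 842 .no (.red [.f 706 1 3] 105 136 [2, 2, 3] [(105, 136, [2, 2, 3])]) (.use
  157) .no (.red [.t 1088 3 2, .t 962 3 2] 121 136 [2, 3] [(121, 136, [2, 3]), (137, 121, [1])])
  (.br 705 .no (.use 187) (.red [.f 824 5 3, .t 705 3 1] 105 136 [2, 2, 3] [(105, 136, [2, 2,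
  3])]) (.red [.t 1088 3 2, .f 824 5 3, .f 697 3 1, .f 705 1 5, .f 833 5 3, .f 834 3 1] 121 136
  [2, 3] [(104, 105, [4]), (121, 136, [2, 3]), (137, 121, [1])]) .no (.use 184)))))

def c22t189 : Tr4 :=
  .br 1106 (.con 136 [3, 3, 1]) (.con 136 [3, 3, 1]) (.con 136 [3, 3, 1]) (.hor [.f 1098 3 5] [])
  .no (.con 136 [3, 3, 1])

def c22t190 : Tr4 :=
  .br 841 .no (.con 136 [2, 3, 2, 3]) (.hor [.f 841 3 5] []) .no .no (.con 136 [2, 3, 2, 3])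

def c22t191 : Tr4 :=
  .br 840 .no (.red [.f 704 5 1, .f 704 1 3] 105 136 [2, 2, 3] [(105, 136, [2, 2, 3])]) (.con 136
  [2, 2, 3, 3]) .no .no .no

def c22t192 : Tr4 :=
  .br 824 .no (.hor [.f 696 1 5] []) .no (.br 696 .no (.br 704 .no (.br 705 .no (.hor [.f 576 1 5]
  []) (.red [.t 705 3 1] 105 136 [2, 2, 3] [(105, 136, [2, 2, 3])]) .no .no .no) (.con 136 [2, 2,
  3, 3]) .no (.use 191) .no) (.br 840 .no (.red [.t 696 3 1, .f 704 1 3] 105 136 [2, 2, 3] [(104,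
  136, [2, 2]), (105, 136, [2, 2, 3])]) (.con 136 [2, 2, 3, 3]) .no .no .no) (.hor [.f 688 3 1, .f
  696 1 5] [(103, 105, [4, 4])]) .no .no) .no .no

def c22t193 : Tr4 :=
  .br 705 .no (.use 186) (.red [.f 824 5 3, .t 705 3 1] 105 136 [2, 2, 3] [(105, 136, [2, 2, 3])])
  (.red [.t 1088 3 2, .f 824 5 3, .f 697 3 1, .f 705 1 5, .f 833 5 3, .f 834 3 1] 121 136 [2, 3]
  [(104, 105, [4]), (121, 136, [2, 3]), (137, 121, [1])]) .no (.use 191)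

def c22t194 : Tr4 :=
  .br 825 .no (.br 843 .no (.br 969 .no (.use 151) (.use 152) .no .no (.br 842 .no (.hor [.f 714 1
  5] []) (.use 190) .no .no (.use 192))) (.red [.t 961 1 3, .f 843 3 1, .f 835 1 3] 121 136 [2, 3]
  [(121, 136, [2, 3]), (122, 136, [2, 3, 3]), (137, 121, [1])]) .no .no (.red [.t 962 3 2] 121 136
  [2, 3] [(121, 136, [2, 3])])) .no (.hor [.f 817 3 1, .f 825 1 5] [(119, 121, [4, 4])]) .no (.br
  843 .no (.br 969 .no (.use 153) (.use 152) .no .no (.br 842 .no (.hor [.f 714 1 5] []) (.use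
  190) .no .no (.use 193))) (.red [.t 961 1 3, .f 843 3 1, .f 835 1 3] 121 136 [2, 3] [(121, 136,
  [2, 3]), (122, 136, [2, 3, 3]), (137, 121, [1])]) .no .no (.red [.t 962 3 2] 121 136 [2, 3]
  [(121, 136, [2, 3])]))

def c22t195 : Tr4 :=
  .br 833 .no (.hor [.f 705 1 5] []) (.use 155) (.red [.t 961 1 3, .t 825 3 1, .f 954 3 1, .f 962
  1 3] 136 136 [] [(120, 136, [2]), (136, 136, [])]) .no (.use 194)

def c22t196 : Tr4 :=
  .br 841 .no (.con 136 [2, 3, 2, 3]) (.hor [.f 841 3 5] []) .no .no (.con 136 [2, 3, 2, 3])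

def c22t197 : Tr4 :=
  .br 704 .no (.use 134) .no (.red [.t 696 3 1, .f 704 1 3] 105 136 [2, 2, 3] [(104, 136, [2, 2]),
  (105, 136, [2, 2, 3])]) (.red [.f 704 5 1, .f 704 1 3] 105 136 [2, 2, 3] [(105, 136, [2, 2,
  3])]) .no

def c22t198 : Tr4 :=
  .br 840 .no (.use 197) (.con 136 [2, 2, 3, 3]) .no .no .no

def c22t199 : Tr4 :=
  .br 705 .no (.use 143) (.red [.f 824 5 3, .t 705 3 1] 105 136 [2, 2, 3] [(105, 136, [2, 2, 3])])
  (.red [.f 824 5 3, .f 697 3 1, .f 705 1 5, .f 833 5 3, .f 834 3 1] 121 136 [2, 3] [(104, 105,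
  [4]), (121, 136, [2, 3])]) .no (.red [.f 824 5 3, .f 824 3 5, .f 704 5 1, .f 704 1 3] 105 136
  [2, 2, 3] [(105, 136, [2, 2, 3])])

def c22t200 : Tr4 :=
  .br 825 .no (.br 843 .no (.br 968 .no (.con 136 [2, 3, 3]) (.br 842 .no (.hor [.f 714 1 5] [])
  (.use 196) .no .no (.use 198)) .no .no .no) (.red [.f 843 3 1, .f 835 1 3, .f 962 3 5] 122 136
  [2, 3, 3] [(121, 136, [2, 3]), (122, 136, [2, 3, 3])]) .no .no (.red [.f 961 1 3, .t 962 3 2]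
  121 136 [2, 3] [(121, 136, [2, 3]), (137, 121, [1])])) .no (.hor [.f 817 3 1, .f 825 1 5] [(119,
  121, [4, 4])]) .no (.br 843 .no (.br 842 .no (.hor [.f 714 1 5] []) (.use 196) .no .no (.br 968
  .no (.con 136 [2, 3, 3]) (.br 840 .no (.use 199) (.con 136 [2, 2, 3, 3]) .no .no .no) .no .no
  .no)) (.red [.f 843 3 1, .f 835 1 3, .f 962 3 5] 122 136 [2, 3, 3] [(121, 136, [2, 3]), (122,
  136, [2, 3, 3])]) .no .no (.red [.f 961 1 3, .t 962 3 2] 121 136 [2, 3] [(121, 136, [2, 3]),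
  (137, 121, [1])]))

def c22t201 : Tr4 :=
  .br 833 .no (.hor [.f 705 1 5] []) (.use 155) (.red [.f 961 1 3, .f 961 3 5, .t 825 3 1, .f 954
  3 1, .t 1089 3 2] 136 136 [] [(120, 136, [2]), (136, 136, [])]) .no (.use 200)

def c22t202 : Tr4 :=
  .br 1225 (.br 1226 (.hor [.f 1225 1 5] []) .no (.br 1224 (.hor [.f 1224 1 5] []) .no (.con 136
  [3, 3, 1, 1]) .no .no .no) .no (.red [.f 1098 5 1, .f 1091 1 3] 153 136 [3, 1] [(153, 136, [3,
  1])]) .no) .no (.red [.f 1097 3 1] 154 136 [3, 3, 1] [(154, 136, [3, 3, 1])]) .no (.red [.f 1217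
  5 3, .t 1218 3 2] 153 136 [3, 1] [(153, 136, [3, 1])]) (.red [.t 1081 1 3, .f 1208 3 5, .f 1216
  5 3, .f 1088 3 1] 153 136 [3, 1] [(152, 136, [1]), (153, 136, [3, 1])])

def c22t203 : Tr4 :=
  .br 825 .no (.br 833 .no (.hor [.f 705 1 5] []) .no .no .no (.use 156)) (.red [.t 1090 4 1, .t
  970 4 1, .f 961 1 5, .t 825 3 1, .f 833 1 3] 121 136 [2, 3] [(120, 136, [2]), (121, 136, [2,
  3]), (137, 121, [1]), (152, 136, [1])]) (.hor [.f 817 3 1, .f 825 1 5] [(119, 121, [4, 4])]) .no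
  (.br 842 .no (.red [.f 706 1 3, .f 834 3 1, .f 834 1 5] 121 136 [2, 3] [(105, 136, [2, 2, 3]),
  (121, 136, [2, 3])]) (.br 968 .no (.hor [.f 840 1 5] []) (.use 145) .no .no .no) .no (.red [.t
  962 3 2, .f 841 1 5] 121 136 [2, 3] [(121, 136, [2, 3])]) .no)

def c22l5 : List Tr4 :=
  [c22t184, c22t185, c22t186, c22t187, c22t188, c22t189, c22t190, c22t191, c22t192, c22t193,
  c22t194, c22t195, c22t196, c22t197, c22t198, c22t199, c22t200, c22t201, c22t202, c22t203]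

theorem c22k5 : chkLF ⟨4, 0, 0, true, -8⟩ false 2 c22N 184 c22l5 = true := by decide +kernel

def c22t204 : Tr4 :=
  .br 1073 (.red [.f 1073 1 3, .f 1072 3 5] 151 136 [4, 1] [(151, 136, [4, 1])]) .no .no (.br 1088
  (.br 1208 (.use 127) .no .no (.red [.f 1072 3 1, .f 1080 1 5] 151 136 [4, 1] [(151, 136, [4,
  1])]) .no .no) .no (.br 1208 (.use 133) .no (.br 1218 (.use 73) .no (.br 1099 (.red [.f 1091 1
  3] 153 136 [3, 1] [(153, 136, [3, 1])]) (.br 1097 (.br 969 .no (.use 148) (.use 149) .no .no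
  (.red [.t 1088 3 2, .t 1208 3 2, .f 1081 3 5, .t 1225 2 4, .f 961 3 1] 153 136 [3, 1] [(152,
  136, [1]), (153, 136, [3, 1])])) (.con 136 [3, 3]) (.use 130) .no (.br 969 .no (.use 148) (.use
  149) .no .no (.red [.t 1088 3 2, .t 1208 3 2, .f 1081 3 5, .f 1089 5 3, .f 961 3 1, .f 1090 3 1]
  153 136 [3, 1] [(152, 136, [1]), (153, 136, [3, 1])])) .no) (.use 154) .no .no (.red [.t 1218 3
  2] 153 136 [3, 1] [(153, 136, [3, 1])])) (.con 136 [1, 1]) .no (.br 1074 (.use 98) (.red [.t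
  1081 1 3, .t 945 3 1, .f 953 1 3] 136 136 [] [(135, 136, [4]), (136, 136, []), (152, 136, [1])])
  .no (.hor [.f 1065 3 5] []) (.br 946 .no (.hor [.f 818 1 3, .f 945 3 5] [(119, 121, [4, 4])])
  .no (.br 1210 (.use 77) .no .no (.use 142) (.br 971 (.br 1097 (.red [.t 1081 1 3, .f 1208 3 5,
  .t 1096 4 1] 153 136 [3, 1] [(152, 136, [1]), (153, 136, [3, 1])]) (.con 136 [3, 3]) (.use 130)
  .no (.use 188) .no) (.red [.f 835 1 3] 121 136 [2, 3] [(121, 136, [2, 3])]) (.br 1099 (.red [.f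
  1091 1 3] 153 136 [3, 1] [(153, 136, [3, 1])]) .no (.br 1097 (.red [.t 1081 1 3, .f 1208 3 5, .t
  1096 4 1] 153 136 [3, 1] [(152, 136, [1]), (153, 136, [3, 1])]) (.use 189) (.use 131) .no (.use
  195) .no) .no .no (.br 1097 (.red [.t 1081 1 3, .f 1208 3 5, .t 1096 4 1] 153 136 [3, 1] [(152,
  136, [1]), (153, 136, [3, 1])]) (.use 201) (.use 202) .no .no .no)) .no .no .no) .no) (.red [.f
  946 5 1, .t 1081 1 3, .t 945 3 1, .f 953 1 3] 136 136 [] [(135, 136, [4]), (136, 136, []), (152,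
  136, [1])]) .no) .no)) (.red [.f 1072 3 1, .f 1080 1 5] 151 136 [4, 1] [(151, 136, [4, 1])]) .no
  .no) .no .no .no) (.br 1210 (.br 1088 (.br 1208 (.use 62) .no .no (.red [.f 1072 3 1, .f 1080 1
  5] 151 136 [4, 1] [(151, 136, [4, 1])]) .no .no) .no (.use 78) .no .no .no) .no (.use 79) (.red
  [.t 1209 2 4, .f 1072 3 5] 151 136 [4, 1] [(151, 136, [4, 1])]) (.br 1208 (.use 66) .no (.br
  1218 (.use 73) .no (.br 1088 .no .no (.br 1099 (.red [.f 1091 1 3] 153 136 [3, 1] [(153, 136,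
  [3, 1])]) (.br 1097 (.br 969 .no (.use 203) (.use 149) .no .no (.red [.t 1088 3 2, .t 1208 3 2,
  .f 1081 3 5, .t 1225 2 4, .f 961 3 1] 153 136 [3, 1] [(152, 136, [1]), (153, 136, [3, 1])]))
  (.con 136 [3, 3]) (.use 130) .no (.br 969 .no (.use 203) (.use 149) .no .no (.red [.t 1088 3 2,
  .t 1208 3 2, .f 1081 3 5, .f 1089 5 3, .f 961 3 1, .f 1090 3 1] 153 136 [3, 1] [(152, 136, [1]),
  (153, 136, [3, 1])])) .no) (.use 154) .no .no (.red [.t 1218 3 2] 153 136 [3, 1] [(153, 136, [3,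
  1])])) .no .no .no) .no .no (.red [.t 1081 1 3, .f 1073 5 3, .f 945 3 1, .f 953 1 3] 136 136 []
  [(135, 136, [4]), (136, 136, []), (152, 136, [1])])) (.red [.f 1072 3 1, .f 1080 1 5] 151 136
  [4, 1] [(151, 136, [4, 1])]) .no .no) .no) .no

def c22t205 : Tr4 :=
  .br 1208 (.br 953 .no (.hor [.f 825 1 5] []) .no (.br 1073 (.red [.f 1073 1 3, .f 1072 3 5] 151
  136 [4, 1] [(151, 136, [4, 1])]) .no .no (.use 127) (.use 67) .no) .no .no) .no .no (.red [.f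
  1072 3 1, .f 1080 1 5] 151 136 [4, 1] [(151, 136, [4, 1])]) .no .no

def c22t206 : Tr4 :=
  .br 843 .no (.use 152) (.red [.f 843 3 1, .f 835 1 3, .f 962 3 5] 122 136 [2, 3, 3] [(121, 136,
  [2, 3]), (122, 136, [2, 3, 3])]) .no .no (.red [.t 962 3 2] 121 136 [2, 3] [(121, 136, [2, 3])])

def c22t207 : Tr4 :=
  .br 971 (.use 149) (.red [.f 835 1 3] 121 136 [2, 3] [(121, 136, [2, 3])]) (.use 206) .no .no
  .no

def c22t208 : Tr4 :=
  .br 1218 (.use 73) .no (.red [.t 1088 3 2, .t 1208 3 2, .f 1081 3 5, .t 1225 2 4, .f 961 3 1]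
  153 136 [3, 1] [(152, 136, [1]), (153, 136, [3, 1])]) (.con 136 [1, 1]) .no (.red [.t 1081 1 3,
  .f 1208 3 5, .t 1096 4 1] 153 136 [3, 1] [(152, 136, [1]), (153, 136, [3, 1])])

def c22t209 : Tr4 :=
  .br 1210 (.use 76) .no (.use 64) (.red [.t 1209 2 4, .f 1072 3 5] 151 136 [4, 1] [(151, 136, [4,
  1])]) (.use 66) .no

def c22t210 : Tr4 :=
  .br 833 .no (.hor [.f 704 1 5] []) (.con 136 [2, 2, 3]) .no .no .no

def c22t211 : Tr4 :=
  .br 833 .no (.hor [.f 704 1 5] []) (.con 136 [2, 2, 3]) .no .no .no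

def c22t212 : Tr4 :=
  .br 827 .no (.hor [.f 698 1 5] []) .no (.br 818 .no (.red [.f 690 1 3] 103 136 [2, 2, 4] [(103,
  136, [2, 2, 4])]) .no (.use 70) .no (.red [.t 953 2 4] 119 136 [2, 4] [(119, 136, [2, 4])])) .no
  .no

def c22t213 : Tr4 :=
  .br 817 .no .no .no (.hor [.f 809 3 5] []) .no .no

def c22t214 : Tr4 :=
  .br 818 .no (.red [.t 954 4 1, .t 834 4 1, .f 825 1 5, .t 689 3 1, .f 697 1 3] 104 136 [2, 2]
  [(103, 136, [2, 4, 2]), (104, 136, [2, 2]), (120, 104, [1]), (135, 119, [1])]) .no (.use 213)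
  (.con 136 [2, 4, 4]) (.red [.t 953 2 4] 119 136 [2, 4] [(119, 136, [2, 4])])

def c22t215 : Tr4 :=
  .br 697 .no (.hor [.f 569 1 5] []) .no (.use 214) .no (.con 136 [2, 4, 2, 3])

def c22t216 : Tr4 :=
  .br 947 .no (.con 136 [2, 4, 4, 2]) .no (.con 136 [2, 4, 4, 2]) .no .no

def c22t217 : Tr4 :=
  .br 816 .no (.red [.f 688 1 3, .f 688 3 5] 103 136 [2, 4, 2] [(103, 136, [2, 4, 2])]) .no (.use
  216) (.red [.t 936 3 2, .f 809 3 5, .t 953 2 4] 119 136 [2, 4] [(118, 117, [3]), (119, 136, [2,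
  4])]) .no

def c22t218 : Tr4 :=
  .br 938 (.con 136 [4, 2, 4, 4]) (.hor [.f 809 1 5] []) .no (.con 136 [4, 2, 4, 4]) (.con 136 [4,
  2, 4, 4]) .no

def c22t219 : Tr4 :=
  .br 818 .no (.red [.t 954 4 1, .t 834 4 1, .f 825 1 5, .t 689 3 1, .f 697 1 3] 104 136 [2, 2]
  [(103, 136, [2, 2, 4]), (104, 136, [2, 2]), (120, 104, [1]), (135, 119, [1])]) .no (.br 824 .no
  (.use 217) .no (.red [.t 954 4 1, .f 945 1 5, .t 809 1 3, .f 936 3 5, .t 824 4 1] 119 136 [2, 4]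
  [(118, 117, [3]), (119, 136, [2, 4]), (135, 119, [1])]) .no .no) (.use 218) (.red [.t 953 2 4]
  119 136 [2, 4] [(119, 136, [2, 4])])

def c22t220 : Tr4 :=
  .br 947 .no (.dom 119 136 [2, 4]) .no (.br 938 (.con 136 [4, 4, 4]) (.hor [.f 809 1 5] []) .no
  (.con 136 [2, 4, 4, 4]) .no .no) .no .no

def c22t221 : Tr4 :=
  .br 697 .no (.hor [.f 569 1 5] []) .no (.use 219) .no (.br 816 .no (.con 136 [2, 4, 2, 3]) (.use
  220) (.con 136 [2, 4, 2, 3]) (.con 136 [2, 4, 2, 3]) .no)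

def c22t222 : Tr4 :=
  .br 1201 (.br 1203 (.con 136 [4, 4, 1, 1]) .no .no (.red [.t 1194 2 3, .t 1073 2 4] 134 136 [4,
  4] [(134, 136, [4, 4]), (150, 136, [4, 4, 1])]) .no .no) .no .no (.hor [.f 1192 3 5] []) .no .no

def c22t223 : Tr4 :=
  .br 1066 (.use 222) .no .no (.hor [.f 1057 3 5] []) (.red [.f 1066 5 3, .t 1073 2 4] 134 136 [4,
  4] [(134, 136, [4, 4])]) .no

def c22t224 : Tr4 :=
  .br 819 .no (.hor [.f 690 1 5] []) .no (.red [.f 811 3 1] 118 136 [4, 2, 4] [(118, 136, [4, 2,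
  4])]) .no .no

def c22t225 : Tr4 :=
  .br 947 .no (.dom 119 136 [2, 4]) .no (.use 224) .no .no

def c22t226 : Tr4 :=
  .br 818 .no (.use 225) .no (.red [.t 954 4 1, .f 945 1 5, .t 809 1 3, .f 936 3 5, .t 824 4 1]
  119 136 [2, 4] [(118, 117, [3]), (119, 136, [2, 4]), (135, 119, [1])]) (.use 218) (.red [.t 953
  2 4, .f 816 3 5] 119 136 [2, 4] [(119, 136, [2, 4])])

def c22t227 : Tr4 :=
  .br 816 .no (.con 136 [2, 4, 2, 3]) (.use 226) (.con 136 [2, 4, 2, 3]) (.con 136 [2, 4, 2, 3])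
  .no

def c22t228 : Tr4 :=
  .br 697 .no (.hor [.f 569 1 5] []) .no (.use 219) .no (.use 227)

def c22t229 : Tr4 :=
  .br 809 .no (.con 136 [4, 2, 4, 2, 3, 1, 4, 2]) (.hor [.f 808 3 5] []) (.con 136 [4, 2, 4, 2, 3,
  1, 4, 2]) .no .no

def c22t230 : Tr4 :=
  .br 819 (.use 229) (.con 136 [2, 4, 2, 4]) .no (.hor [.f 810 3 5] []) .no .no

def c22t231 : Tr4 :=
  .br 816 .no (.red [.f 688 1 3, .f 688 3 5] 103 136 [2, 2, 4] [(103, 136, [2, 2, 4])]) .no (.use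
  230) (.red [.t 696 1 4] 103 136 [2, 2, 4] [(103, 136, [2, 2, 4])]) .no

def c22t232 : Tr4 :=
  .br 819 (.dom 119 136 [2, 4]) (.use 85) .no (.hor [.f 810 3 5] []) .no .no

def c22t233 : Tr4 :=
  .br 816 .no (.con 136 [2, 4, 2, 3]) (.use 232) (.con 136 [2, 4, 2, 3]) (.con 136 [2, 4, 2, 3])
  .no

def c22t234 : Tr4 :=
  .br 947 .no .no .no (.red [.t 938 2 3] 118 136 [2, 4, 4] [(118, 136, [2, 4, 4])]) .no .no

def c22t235 : Tr4 :=
  .br 938 .no (.use 234) .no (.hor [.f 929 3 5] []) (.con 136 [2, 4, 4, 1]) .no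

def c22t236 : Tr4 :=
  .br 818 .no (.use 225) .no (.use 232) (.use 235) (.red [.t 953 2 4, .f 816 3 5] 119 136 [2, 4]
  [(119, 136, [2, 4])])

def c22t237 : Tr4 :=
  .br 816 .no (.con 136 [2, 4, 2, 3]) (.use 236) (.con 136 [2, 4, 2, 3]) (.con 136 [2, 4, 2, 3])
  .no

def c22t238 : Tr4 :=
  .br 816 .no (.con 136 [2, 4, 2, 3]) (.use 232) (.con 136 [2, 4, 2, 3]) (.con 136 [2, 4, 2, 3])
  .no

def c22t239 : Tr4 :=
  .br 937 .no (.use 228) .no (.br 697 .no (.hor [.f 569 1 5] []) .no (.br 818 .no (.red [.t 954 4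
  1, .t 834 4 1, .f 825 1 5, .t 689 3 1, .f 697 1 3] 104 136 [2, 2] [(103, 136, [2, 2, 4]), (104,
  136, [2, 2]), (120, 104, [1]), (135, 119, [1])]) .no (.br 696 (.use 231) (.use 238) (.use 233)
  (.hor [.f 688 3 5] []) .no .no) (.use 235) (.red [.t 953 2 4] 119 136 [2, 4] [(119, 136, [2,
  4])])) .no (.use 237)) (.red [.f 937 5 1, .f 937 1 3] 134 136 [4, 4] [(134, 136, [4, 4])]) .no

def c22t240 : Tr4 :=
  .br 944 .no (.use 215) .no (.br 1065 (.use 68) (.red [.f 937 1 3, .f 936 3 5] 134 136 [4, 4]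
  [(134, 136, [4, 4])]) .no (.br 937 .no (.use 221) .no (.red [.f 929 3 1, .f 937 1 3] 134 136 [4,
  4] [(133, 136, [4, 4, 4]), (134, 136, [4, 4])]) (.use 223) .no) (.use 239) (.red [.t 944 4 1]
  134 136 [4, 4] [(134, 136, [4, 4])])) .no .no

def c22t241 : Tr4 :=
  .br 707 .no (.hor [.f 578 1 5] []) (.red [.t 954 4 1, .t 834 4 1, .t 714 1 4, .f 699 1 3] 104
  136 [2, 2] [(104, 136, [2, 2]), (105, 136, [2, 2, 3]), (120, 104, [1]), (135, 119, [1])]) .no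
  .no .no

def c22t242 : Tr4 :=
  .br 697 .no (.con 136 [2, 4, 2, 2]) .no (.use 214) .no (.con 136 [2, 4, 2, 2])

def c22t243 : Tr4 :=
  .br 697 .no (.con 136 [2, 4, 2, 2]) .no (.use 217) .no .no

def c22t244 : Tr4 :=
  .br 818 .no .no .no (.br 824 .no (.use 243) .no (.use 220) .no .no) (.use 218) (.red [.t 953 2
  4] 119 136 [2, 4] [(119, 136, [2, 4])])

def c22t245 : Tr4 :=
  .br 818 .no .no .no (.br 824 .no (.use 243) .no (.use 226) .no .no) (.use 218) (.red [.t 953 2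
  4] 119 136 [2, 4] [(119, 136, [2, 4])])

def c22t246 : Tr4 :=
  .br 937 .no (.use 245) .no (.br 697 .no (.br 816 .no (.con 136 [2, 4, 2, 2]) (.use 236) (.con
  136 [2, 4, 2, 2]) (.con 136 [2, 4, 2, 2]) .no) .no (.hor [.f 689 3 5] []) .no (.use 237)) (.red
  [.f 937 5 1, .f 937 1 3] 134 136 [4, 4] [(134, 136, [4, 4])]) .no

def c22t247 : Tr4 :=
  .br 944 .no (.use 242) .no (.br 1065 (.use 68) (.red [.f 937 1 3, .f 936 3 5] 134 136 [4, 4]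
  [(134, 136, [4, 4])]) .no (.br 937 .no (.use 244) .no (.red [.f 929 3 1, .f 937 1 3] 134 136 [4,
  4] [(133, 136, [4, 4, 4]), (134, 136, [4, 4])]) (.use 223) .no) (.use 246) (.red [.t 944 4 1]
  134 136 [4, 4] [(134, 136, [4, 4])])) .no .no

def c22t248 : Tr4 :=
  .br 698 .no (.use 240) (.red [.f 698 3 1, .f 698 1 5] 104 136 [2, 2] [(104, 136, [2, 2])]) (.use
  247) .no (.red [.t 833 2 4, .f 698 1 5] 104 136 [2, 2] [(104, 136, [2, 2])])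

def c22t249 : Tr4 :=
  .br 944 .no (.con 136 [2, 4, 2]) .no (.br 818 .no (.br 698 .no (.br 699 .no (.hor [.f 570 1 5]
  []) (.br 697 .no (.hor [.f 569 1 5] []) .no (.red [.t 954 4 1, .t 834 4 1, .f 825 1 5, .t 689 3
  1, .f 697 1 3] 104 136 [2, 2] [(103, 136, [2, 2, 4]), (104, 136, [2, 2]), (120, 104, [1]), (135,
  119, [1])]) .no (.con 136 [2, 2, 2])) (.red [.f 691 3 1, .f 690 1 5] 103 136 [2, 2, 4] [(103,
  136, [2, 2, 4])]) .no .no) (.red [.f 698 3 1, .f 705 1 5] 104 136 [2, 2] [(104, 136, [2, 2])])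
  .no (.red [.t 818 2 3] 103 136 [2, 2, 4] [(103, 136, [2, 2, 4])]) (.red [.t 833 2 4] 104 136 [2,
  2] [(104, 136, [2, 2])])) .no (.use 69) .no (.red [.t 953 2 4] 119 136 [2, 4] [(119, 136, [2,
  4])])) .no .no

def c22t250 : Tr4 :=
  .br 833 .no (.br 1200 (.red [.f 1200 1 3, .f 1072 3 1, .f 1080 1 5] 151 136 [4, 1] [(151, 136,
  [4, 1]), (167, 136, [4, 1, 1])]) .no .no (.br 827 .no (.use 248) .no (.use 249) .no .no) (.red
  [.t 1080 4 1] 151 136 [4, 1] [(151, 136, [4, 1])]) .no) (.hor [.f 832 3 5] []) .no .no .no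

def c22t251 : Tr4 :=
  .br 1211 (.use 250) .no .no (.hor [.f 1202 3 5] []) .no .no

def c22t252 : Tr4 :=
  .br 818 .no (.red [.f 690 1 3, .f 818 3 1, .f 825 1 5] 119 136 [2, 4] [(103, 136, [2, 4, 2]),
  (119, 136, [2, 4])]) .no (.use 50) (.use 55) (.red [.t 953 2 4] 119 136 [2, 4] [(119, 136, [2,
  4])])

def c22l6 : List Tr4 :=
  [c22t204, c22t205, c22t206, c22t207, c22t208, c22t209, c22t210, c22t211, c22t212, c22t213,
  c22t214, c22t215, c22t216, c22t217, c22t218, c22t219, c22t220, c22t221, c22t222, c22t223,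
  c22t224, c22t225, c22t226, c22t227, c22t228, c22t229, c22t230, c22t231, c22t232, c22t233,
  c22t234, c22t235, c22t236, c22t237, c22t238, c22t239, c22t240, c22t241, c22t242, c22t243,
  c22t244, c22t245, c22t246, c22t247, c22t248, c22t249, c22t250, c22t251, c22t252]

theorem c22k6 : chkLF ⟨4, 0, 0, true, -8⟩ false 2 c22N 204 c22l6 = true := by decide +kernel

end Pool.Agent.FT4D
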