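import Pool.Agent.FT4D.Tab_c22

/-!
# Four levels: decision trees (found by a computer search)
-/

namespace Pool.Agent.FT4D

def c22t253 : Tr4 :=
  .br 824 .no (.br 816 .no (.red [.f 688 1 3] 103 136 [2, 4, 2] [(103, 136, [2, 4, 2])]) .no (.use
  27) (.red [.t 952 3 2, .f 816 5 1, .t 832 1 4, .f 817 1 3] 119 136 [2, 4] [(119, 136, [2, 4])])
  .no) .no (.red [.t 952 3 2, .t 832 1 4, .t 824 4 1] 119 136 [2, 4] [(119, 136, [2, 4])]) .no .no

def c22t254 : Tr4 :=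
  .br 944 .no (.con 136 [2, 4, 4]) .no (.hor [.f 936 3 5] []) .no .no

def c22t255 : Tr4 :=
  .br 824 .no (.use 41) .no (.red [.t 952 3 2, .t 832 1 4, .t 824 4 1] 119 136 [2, 4] [(119, 136,
  [2, 4])]) .no .no

def c22t256 : Tr4 :=
  .br 705 (.hor [.f 705 1 5] []) (.con 136 [2, 2, 3]) (.con 136 [2, 2, 3]) (.con 136 [2, 2, 3])
  .no (.con 136 [2, 2, 3])

def c22t257 : Tr4 :=
  .br 832 .no (.use 45) (.use 42) (.use 256) (.use 255) .no

def c22t258 : Tr4 :=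
  .br 842 .no (.red [.f 706 1 3, .f 834 3 1, .f 834 1 5] 121 136 [2, 3] [(105, 136, [2, 3, 2]),
  (121, 136, [2, 3])]) (.br 833 .no (.hor [.f 705 1 5] []) (.use 95) (.br 945 .no (.con 136 [4, 2,
  3, 3]) (.hor [.f 945 3 5] []) (.con 136 [4, 2, 3, 3]) .no (.con 136 [4, 2, 3, 3])) .no (.br 953
  .no (.br 826 .no (.br 945 .no (.red [.f 817 1 3] 119 136 [2, 4] [(119, 136, [2, 4])]) .no (.use
  252) .no (.use 253)) .no (.red [.f 818 3 1, .f 825 1 5] 119 136 [2, 4] [(119, 136, [2, 4])])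
  (.br 947 .no (.red [.t 952 3 2, .t 832 1 4, .t 946 3 2] 119 136 [2, 4] [(119, 136, [2, 4])]) .no
  (.br 945 .no (.red [.f 817 1 3] 119 136 [2, 4] [(119, 136, [2, 4])]) .no (.use 254) .no (.use
  255)) .no .no) .no) .no (.hor [.f 945 3 5] []) .no .no)) .no (.red [.t 962 3 2] 121 136 [2, 3]
  [(121, 136, [2, 3])]) (.br 953 .no (.br 826 .no (.br 945 .no (.red [.f 817 1 3] 119 136 [2, 4]
  [(119, 136, [2, 4])]) .no (.use 252) .no (.br 833 .no (.hor [.f 705 1 5] []) .no .no .no (.use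
  253))) .no (.red [.f 818 3 1, .f 825 1 5] 119 136 [2, 4] [(119, 136, [2, 4])]) (.br 947 .no
  (.red [.t 946 3 2, .f 825 1 5] 119 136 [2, 4] [(119, 136, [2, 4])]) .no (.br 945 .no (.red [.f
  817 1 3] 119 136 [2, 4] [(119, 136, [2, 4])]) .no (.use 254) .no (.use 257)) .no .no) .no) .no
  (.hor [.f 945 3 5] []) .no .no)

def c22t259 : Tr4 :=
  .br 818 .no .no .no (.use 17) (.con 136 [2, 4, 4]) (.red [.t 953 2 4] 119 136 [2, 4] [(119, 136,
  [2, 4])])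

def c22t260 : Tr4 :=
  .br 833 .no (.br 827 .no (.br 698 .no (.br 818 .no (.br 697 .no (.hor [.f 569 1 5] []) .no (.red
  [.t 954 4 1, .t 834 4 1, .f 825 1 5, .t 689 3 1, .f 697 1 3] 104 136 [2, 2] [(103, 136, [2, 4,
  2]), (104, 136, [2, 2]), (120, 104, [1]), (135, 119, [1])]) .no (.con 136 [2, 4, 2, 3])) .no
  (.use 17) (.con 136 [2, 4, 4]) (.red [.t 953 2 4] 119 136 [2, 4] [(119, 136, [2, 4])])) (.red
  [.f 698 3 1, .f 698 1 5] 104 136 [2, 2] [(104, 136, [2, 2])]) (.use 259) .no (.red [.t 833 2 4,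
  .f 698 1 5] 104 136 [2, 2] [(104, 136, [2, 2])])) .no (.con 136 [2, 4, 2]) .no .no) (.hor [.f
  832 3 5] []) .no .no .no

def c22t261 : Tr4 :=
  .br 841 .no (.use 112) (.hor [.f 841 3 5] []) .no .no (.use 101)

def c22t262 : Tr4 :=
  .br 842 .no .no (.use 261) .no (.red [.t 962 3 2] 121 136 [2, 3] [(121, 136, [2, 3])]) (.red [.t
  952 3 2, .f 825 3 5, .f 833 5 3, .f 834 3 1] 121 136 [2, 3] [(120, 104, [1]), (121, 136, [2,
  3])])

def c22t263 : Tr4 :=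
  .br 842 .no (.red [.t 952 3 2, .f 825 3 5, .f 705 5 1, .f 706 1 3] 105 136 [2, 2, 3] [(105, 136,
  [2, 2, 3]), (120, 104, [1])]) (.use 261) .no (.red [.t 962 3 2] 121 136 [2, 3] [(121, 136, [2,
  3])]) (.red [.t 952 3 2, .f 825 3 5, .f 833 5 3, .f 834 3 1] 121 136 [2, 3] [(120, 104, [1]),
  (121, 136, [2, 3])])

def c22t264 : Tr4 :=
  .br 705 .no (.hor [.f 577 1 5] []) (.red [.t 952 3 2, .f 825 3 5, .t 713 4 1] 105 136 [2, 2, 3]
  [(105, 136, [2, 2, 3]), (120, 104, [1])]) .no .no (.red [.f 704 5 1, .t 833 2 4] 104 136 [2, 2]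
  [(104, 136, [2, 2])])

def c22t265 : Tr4 :=
  .br 698 .no (.red [.f 570 1 3, .f 698 3 1] 104 136 [2, 2] [(88, 136, [2, 2, 2]), (104, 136, [2,
  2])]) .no (.use 259) (.br 827 .no .no .no (.con 136 [2, 4, 2]) .no .no) (.use 264)

def c22t266 : Tr4 :=
  .br 706 .no (.use 265) .no (.red [.f 698 3 1, .f 706 1 3] 105 136 [2, 2, 3] [(104, 136, [2, 2]),
  (105, 136, [2, 2, 3])]) (.red [.t 954 4 1, .t 834 4 1, .f 706 5 1, .f 706 1 3] 105 136 [2, 2, 3]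
  [(105, 136, [2, 2, 3]), (120, 104, [1]), (135, 119, [1])]) (.red [.t 952 3 2, .f 825 3 5, .f 705
  5 1, .f 706 1 3] 105 136 [2, 2, 3] [(105, 136, [2, 2, 3]), (120, 104, [1])])

def c22t267 : Tr4 :=
  .br 842 .no (.use 266) (.use 157) .no (.red [.t 962 3 2] 121 136 [2, 3] [(121, 136, [2, 3])])
  (.red [.t 952 3 2, .f 825 3 5, .f 833 5 3, .f 834 3 1] 121 136 [2, 3] [(120, 104, [1]), (121,
  136, [2, 3])])

def c22t268 : Tr4 :=
  .br 824 .no (.br 816 .no (.red [.f 688 1 3] 103 136 [2, 2, 4] [(103, 136, [2, 2, 4])]) .no (.br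
  818 .no (.use 39) .no (.use 26) (.use 22) (.red [.t 953 2 4] 119 136 [2, 4] [(119, 136, [2,
  4])])) (.red [.f 816 5 1, .f 817 1 3] 119 136 [2, 4] [(119, 136, [2, 4])]) .no) (.con 136 [2,
  2]) (.red [.t 824 4 1] 119 136 [2, 4] [(119, 136, [2, 4])]) .no .no

def c22t269 : Tr4 :=
  .br 827 .no (.hor [.f 698 1 5] []) .no (.use 25) .no .no

def c22t270 : Tr4 :=
  .br 842 .no (.hor [.f 713 1 5] []) (.use 112) .no (.red [.t 962 3 2] 121 136 [2, 3] [(121, 136,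
  [2, 3])]) .no

def c22t271 : Tr4 :=
  .br 819 .no (.hor [.f 690 1 5] []) .no (.red [.f 811 3 1, .t 946 3 2] 119 136 [2, 4] [(118, 136,
  [2, 4, 4]), (119, 136, [2, 4])]) .no .no

def c22t272 : Tr4 :=
  .br 818 .no (.use 271) .no (.use 53) (.red [.f 818 5 3, .f 818 3 1] 119 136 [2, 4] [(119, 136,
  [2, 4])]) (.red [.f 824 3 1, .f 824 1 3, .t 953 2 4] 119 136 [2, 4] [(119, 136, [2, 4])])

def c22t273 : Tr4 :=
  .br 953 .no (.br 945 .no (.red [.f 817 1 3] 119 136 [2, 4] [(119, 136, [2, 4])]) .no (.br 826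
  .no (.use 252) .no (.red [.f 818 3 1, .f 825 1 5] 119 136 [2, 4] [(119, 136, [2, 4])]) (.br 947
  .no (.red [.t 946 3 2, .f 825 1 5] 119 136 [2, 4] [(119, 136, [2, 4])]) .no (.use 254) .no .no)
  .no) .no (.br 826 .no (.use 269) .no (.red [.f 818 3 1, .f 825 1 5] 119 136 [2, 4] [(119, 136,
  [2, 4])]) (.br 824 .no (.use 41) (.br 947 .no (.red [.t 946 3 2, .f 825 1 5] 119 136 [2, 4]
  [(119, 136, [2, 4])]) .no (.use 272) .no .no) (.red [.t 824 4 1] 119 136 [2, 4] [(119, 136, [2,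
  4])]) .no .no) .no)) .no (.hor [.f 945 3 5] []) .no .no

def c22t274 : Tr4 :=
  .br 944 .no (.use 260) .no (.hor [.f 936 3 5] []) .no .no

def c22t275 : Tr4 :=
  .br 843 .no (.con 136 [2, 3, 3, 2]) (.red [.f 843 3 1, .f 835 1 3, .f 962 3 5] 122 136 [2, 3, 3]
  [(121, 136, [2, 3]), (122, 136, [2, 3, 3])]) .no .no .no

def c22t276 : Tr4 :=
  .br 843 .no (.con 136 [2, 3, 2, 3]) (.red [.f 843 3 1, .f 835 1 3, .f 962 3 5] 122 136 [2, 3, 3]
  [(121, 136, [2, 3]), (122, 136, [2, 3, 3])]) .no .no .no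

def c22t277 : Tr4 :=
  .br 841 (.red [.t 952 3 2, .f 825 3 5, .t 969 2 4] 121 136 [2, 3] [(120, 104, [1]), (121, 136,
  [2, 3])]) (.use 275) (.hor [.f 841 3 5] []) .no .no (.use 276)

def c22t278 : Tr4 :=
  .br 953 .no (.br 945 .no (.red [.f 817 1 3] 119 136 [2, 4] [(119, 136, [2, 4])]) .no (.br 832
  .no (.use 211) (.use 274) (.con 136 [2, 2]) (.br 944 .no (.br 842 .no (.use 266) (.use 277) .no
  (.red [.t 962 3 2] 121 136 [2, 3] [(121, 136, [2, 3])]) (.red [.t 952 3 2, .f 825 3 5, .f 833 5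
  3, .f 834 3 1] 121 136 [2, 3] [(120, 104, [1]), (121, 136, [2, 3])])) .no (.hor [.f 936 3 5] [])
  .no .no) .no) .no (.use 268)) .no (.hor [.f 945 3 5] []) .no .no

def c22t279 : Tr4 :=
  .br 834 .no (.use 258) (.red [.f 834 3 1, .f 834 1 5] 121 136 [2, 3] [(121, 136, [2, 3])]) (.use
  278) .no (.use 273)

def c22t280 : Tr4 :=
  .br 1074 (.use 98) .no .no (.hor [.f 1065 3 5] []) (.br 971 (.br 834 .no (.use 258) (.red [.f
  834 3 1, .f 834 1 5] 121 136 [2, 3] [(121, 136, [2, 3])]) (.br 953 .no (.br 945 .no (.red [.f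
  817 1 3] 119 136 [2, 4] [(119, 136, [2, 4])]) .no (.br 944 .no (.br 832 .no (.use 211) (.use
  260) (.con 136 [2, 2]) (.br 969 (.br 1096 (.con 136 [3, 3]) (.hor [.f 968 1 5] []) (.con 136 [3,
  3]) .no .no .no) (.red [.t 952 3 2, .f 825 3 5, .t 969 2 4] 121 136 [2, 3] [(120, 104, [1]),
  (121, 136, [2, 3])]) (.br 827 .no (.br 698 .no (.br 706 .no (.red [.f 570 1 3, .f 698 3 1, .f
  698 1 5] 104 136 [2, 2] [(88, 136, [2, 2, 2]), (104, 136, [2, 2])]) (.use 262) .no (.red [.t 952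
  3 2, .t 826 3 2] 104 136 [2, 2] [(104, 136, [2, 2]), (120, 104, [1])]) (.use 263)) (.red [.f 698
  3 1, .f 698 1 5] 104 136 [2, 2] [(104, 136, [2, 2])]) (.use 259) .no (.br 706 .no (.br 842 .no
  (.use 241) (.use 261) .no (.red [.t 962 3 2] 121 136 [2, 3] [(121, 136, [2, 3])]) (.red [.t 952
  3 2, .f 825 3 5, .f 833 5 3, .f 834 3 1] 121 136 [2, 3] [(120, 104, [1]), (121, 136, [2, 3])]))
  (.use 262) .no (.red [.t 952 3 2, .t 826 3 2] 104 136 [2, 2] [(104, 136, [2, 2]), (120, 104,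
  [1])]) (.use 263))) .no (.con 136 [2, 4, 2]) .no .no) .no .no (.use 267)) .no) .no (.hor [.f 936
  3 5] []) .no .no) .no (.use 268)) .no (.hor [.f 945 3 5] []) .no .no) .no (.use 273)) (.red [.f
  835 1 3] 121 136 [2, 3] [(121, 136, [2, 3])]) (.use 279) .no .no .no) .no

def c22t281 : Tr4 :=
  .br 833 .no (.hor [.f 705 1 5] []) (.use 155) .no .no (.red [.t 952 3 2, .t 1072 3 2, .f 945 3
  5, .t 1089 2 4, .f 825 3 1] 136 136 [] [(135, 119, [1]), (136, 136, [])])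

def c22t282 : Tr4 :=
  .br 1074 (.use 98) .no .no (.hor [.f 1065 3 5] []) (.br 834 .no (.use 258) (.red [.f 834 3 1, .f
  834 1 5] 121 136 [2, 3] [(121, 136, [2, 3])]) (.br 953 .no (.br 945 .no (.red [.f 817 1 3] 119
  136 [2, 4] [(119, 136, [2, 4])]) .no (.br 832 .no (.use 211) (.use 274) (.con 136 [2, 2]) (.br
  969 (.con 136 [3, 3]) (.red [.t 952 3 2, .f 825 3 5, .t 969 2 4] 121 136 [2, 3] [(120, 104,
  [1]), (121, 136, [2, 3])]) (.use 149) .no .no (.br 944 .no (.use 267) .no (.hor [.f 936 3 5] [])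
  .no .no)) .no) .no (.use 268)) .no (.hor [.f 945 3 5] []) .no .no) .no (.use 273)) .no

def c22t283 : Tr4 :=
  .br 1074 (.use 98) .no .no (.hor [.f 1065 3 5] []) (.use 279) .no

def c22t284 : Tr4 :=
  .br 971 (.use 282) (.red [.f 835 1 3] 121 136 [2, 3] [(121, 136, [2, 3])]) (.use 283) .no .no
  .no

def c22t285 : Tr4 :=
  .br 945 .no (.red [.f 817 1 3] 119 136 [2, 4] [(119, 136, [2, 4])]) .no (.use 252) .no (.use
  269)

def c22t286 : Tr4 :=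
  .br 944 .no (.use 30) .no (.hor [.f 936 3 5] []) .no .no

def c22t287 : Tr4 :=
  .br 826 .no (.use 285) .no (.red [.f 818 3 1, .f 825 1 5] 119 136 [2, 4] [(119, 136, [2, 4])])
  (.br 945 .no (.red [.f 817 1 3] 119 136 [2, 4] [(119, 136, [2, 4])]) .no (.use 286) .no (.use
  257)) .no

def c22t288 : Tr4 :=
  .br 953 .no (.br 1073 (.red [.f 1073 1 3, .f 1072 3 5] 151 136 [4, 1] [(151, 136, [4, 1])])
  (.use 281) .no (.use 282) (.use 287) .no) .no (.hor [.f 945 3 5] []) .no .no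

def c22t289 : Tr4 :=
  .br 1066 (.hor [.f 1065 1 5] []) .no .no (.br 1200 (.hor [.f 1200 1 5] []) .no .no (.con 136 [4,
  4, 1, 4]) .no .no) (.red [.f 1066 5 3, .t 1073 2 4] 134 136 [4, 4] [(134, 136, [4, 4])]) .no

def c22t290 : Tr4 :=
  .br 938 (.con 136 [2, 4, 4, 4, 1]) (.use 234) .no (.hor [.f 929 3 5] []) (.con 136 [2, 4, 4, 1])
  .no

def c22t291 : Tr4 :=
  .br 937 .no (.use 218) .no (.use 290) (.use 289) .no

def c22t292 : Tr4 :=
  .br 818 .no (.use 225) .no (.use 232) (.use 290) (.red [.t 953 2 4, .f 816 3 5] 119 136 [2, 4]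
  [(119, 136, [2, 4])])

def c22t293 : Tr4 :=
  .br 816 .no (.con 136 [2, 4, 2, 3]) (.use 292) (.con 136 [2, 4, 2, 3]) (.con 136 [2, 4, 2, 3])
  .no

def c22t294 : Tr4 :=
  .br 937 .no (.use 227) .no (.use 293) (.use 289) .no

def c22t295 : Tr4 :=
  .br 1337 (.hor [.f 1336 1 5] []) .no .no (.hor [.f 1329 3 5] []) .no .no

def c22t296 : Tr4 :=
  .br 1067 .no (.br 1059 .no (.red [.f 931 1 3, .f 1059 3 1, .f 1066 1 5, .f 1066 5 3, .t 1073 2
  4] 134 136 [4, 4] [(133, 134, [4]), (134, 136, [4, 4]), (149, 150, [4])]) .no (.hor [.f 1050 3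
  5] []) .no .no) .no (.hor [.f 1059 3 1, .f 1066 1 5] [(149, 133, [1])]) .no .no

def c22t297 : Tr4 :=
  .br 1064 (.use 296) .no .no (.hor [.f 1056 3 5] []) .no .no

def c22t298 : Tr4 :=
  .br 1195 (.red [.t 954 4 1, .t 1074 2 3, .f 1195 1 3, .t 1194 2 3] 150 136 [4, 4, 1] [(150, 136,
  [4, 4, 1]), (166, 136, [4, 4, 1, 1])]) (.hor [.f 1066 1 5] []) .no (.br 1058 (.red [.f 1058 1 3,
  .f 1057 3 5, .f 937 5 1, .f 937 1 3] 134 136 [4, 4] [(134, 136, [4, 4]), (149, 148, [3])]) (.red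
  [.t 1057 3 2, .f 937 1 3] 134 136 [4, 4] [(133, 136, [4, 4, 4]), (134, 136, [4, 4])]) .no (.use
  297) (.red [.t 1194 2 4, .f 1057 3 5, .f 937 5 1, .f 937 1 3] 134 136 [4, 4] [(134, 136, [4,
  4]), (149, 150, [4])]) .no) .no .no

def c22l7 : List Tr4 :=
  [c22t253, c22t254, c22t255, c22t256, c22t257, c22t258, c22t259, c22t260, c22t261, c22t262,
  c22t263, c22t264, c22t265, c22t266, c22t267, c22t268, c22t269, c22t270, c22t271, c22t272,
  c22t273, c22t274, c22t275, c22t276, c22t277, c22t278, c22t279, c22t280, c22t281, c22t282,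
  c22t283, c22t284, c22t285, c22t286, c22t287, c22t288, c22t289, c22t290, c22t291, c22t292,
  c22t293, c22t294, c22t295, c22t296, c22t297, c22t298]

theorem c22k7 : chkLF ⟨4, 0, 0, true, -8⟩ false 2 c22N 253 c22l7 = true := by decide +kernel

def c22t299 : Tr4 :=
  .br 1066 (.br 1200 (.br 1336 (.br 1201 (.hor [.f 1200 1 5] []) .no .no (.br 1203 (.br 1346 (.br
  1338 (.red [.f 1338 1 3] 184 136 [1, 1, 1] [(184, 136, [1, 1, 1])]) .no .no (.use 295) .no (.use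
  298)) .no (.red [.f 1218 3 1, .f 1217 1 5, .t 1081 1 3, .f 1208 3 5, .t 1096 4 1] 153 136 [3, 1]
  [(152, 136, [1]), (153, 136, [3, 1]), (169, 153, [1])]) (.red [.t 954 4 1, .f 945 1 5, .t 1209 2
  4, .t 1345 2 4] 168 136 [1, 1] [(135, 119, [1]), (151, 136, [4, 1]), (168, 136, [1, 1])]) (.br
  1338 (.br 1337 (.hor [.f 1336 1 5] []) .no .no (.br 1195 (.red [.t 954 4 1, .t 1074 2 3, .f 1195
  1 3, .t 1194 2 3] 150 136 [4, 4, 1] [(150, 136, [4, 4, 1]), (166, 136, [4, 4, 1, 1])]) (.hor [.f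
  1066 1 5] []) .no (.br 1058 (.red [.f 1058 1 3, .f 1057 3 5, .f 937 5 1, .f 937 1 3] 134 136 [4,
  4] [(134, 136, [4, 4]), (149, 148, [3])]) (.red [.t 1057 3 2, .f 937 1 3] 134 136 [4, 4] [(133,
  136, [4, 4, 4]), (134, 136, [4, 4])]) .no (.use 297) (.red [.t 1194 2 4, .f 1057 3 5, .f 937 5
  1, .f 937 1 3] 134 136 [4, 4] [(134, 136, [4, 4]), (149, 150, [4])]) .no) .no .no) .no .no) .no
  .no (.use 295) .no (.use 298)) .no) .no .no (.red [.t 1194 2 3, .t 1073 2 4] 134 136 [4, 4]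
  [(134, 136, [4, 4]), (150, 136, [4, 4, 1])]) .no .no) .no .no) .no (.red [.f 1208 3 1, .f 1200 1
  3, .f 1072 3 1, .f 1080 1 5] 168 136 [1, 1] [(151, 136, [4, 1]), (167, 136, [4, 1, 1]), (168,
  136, [1, 1])]) .no (.red [.t 1216 4 1] 168 136 [1, 1] [(168, 136, [1, 1])]) .no) .no .no (.use
  222) (.red [.t 1080 4 1] 151 136 [4, 1] [(151, 136, [4, 1])]) .no) .no .no (.hor [.f 1057 3 5]
  []) (.red [.f 1066 5 3, .t 1073 2 4] 134 136 [4, 4] [(134, 136, [4, 4])]) .no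

def c22t300 : Tr4 :=
  .br 816 .no (.con 136 [2, 4, 2, 3]) (.use 232) (.con 136 [2, 4, 2, 3]) (.con 136 [2, 4, 2, 3])
  .no

def c22t301 : Tr4 :=
  .br 698 .no (.br 944 .no (.use 215) .no (.br 1065 (.br 1201 (.br 697 .no (.hor [.f 569 1 5] [])
  .no (.br 818 .no (.red [.t 954 4 1, .t 834 4 1, .f 825 1 5, .t 689 3 1, .f 697 1 3] 104 136 [2,
  2] [(103, 136, [2, 2, 4]), (104, 136, [2, 2]), (120, 104, [1]), (135, 119, [1])]) .no (.br 696
  (.br 816 .no (.red [.f 688 1 3, .f 688 3 5] 103 136 [2, 2, 4] [(103, 136, [2, 2, 4])]) .no (.br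
  937 .no (.use 216) .no (.use 230) (.use 289) .no) (.red [.t 696 1 4] 103 136 [2, 2, 4] [(103,
  136, [2, 2, 4])]) .no) (.use 238) (.use 233) (.hor [.f 688 3 5] []) .no .no) (.use 291) (.red
  [.t 953 2 4] 119 136 [2, 4] [(119, 136, [2, 4])])) .no (.use 294)) .no .no .no .no (.red [.t
  1080 4 1] 151 136 [4, 1] [(151, 136, [4, 1])])) (.red [.f 937 1 3, .f 936 3 5] 134 136 [4, 4]
  [(134, 136, [4, 4])]) .no (.br 937 .no (.use 221) .no (.red [.f 929 3 1, .f 937 1 3] 134 136 [4,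
  4] [(133, 136, [4, 4, 4]), (134, 136, [4, 4])]) (.use 299) .no) (.br 937 .no (.use 228) .no (.br
  697 .no (.hor [.f 569 1 5] []) .no (.br 818 .no (.red [.t 954 4 1, .t 834 4 1, .f 825 1 5, .t
  689 3 1, .f 697 1 3] 104 136 [2, 2] [(103, 136, [2, 2, 4]), (104, 136, [2, 2]), (120, 104, [1]),
  (135, 119, [1])]) .no (.br 704 .no (.br 696 (.use 231) (.red [.f 568 1 3] 88 136 [2, 2, 2] [(88,
  136, [2, 2, 2])]) .no (.hor [.f 688 3 5] []) .no .no) (.red [.f 704 3 1, .f 704 1 5, .t 952 3 2,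
  .f 825 3 5, .t 969 2 4, .t 840 2 4] 121 136 [2, 3] [(120, 104, [1]), (121, 136, [2, 3])]) (.use
  233) .no .no) (.use 235) (.red [.t 953 2 4] 119 136 [2, 4] [(119, 136, [2, 4])])) .no (.use
  237)) (.red [.f 937 5 1, .f 937 1 3] 134 136 [4, 4] [(134, 136, [4, 4])]) .no) (.red [.t 944 4
  1] 134 136 [4, 4] [(134, 136, [4, 4])])) .no .no) (.red [.f 698 3 1, .f 698 1 5] 104 136 [2, 2]
  [(104, 136, [2, 2])]) (.br 944 .no (.use 242) .no (.br 1065 (.br 1201 (.br 697 .no (.br 696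
  (.con 136 [2, 2, 2, 4]) (.hor [.f 568 1 5] []) (.br 818 .no .no .no (.use 300) (.use 291) (.red
  [.t 953 2 4] 119 136 [2, 4] [(119, 136, [2, 4])])) (.con 136 [2, 2, 2, 4]) .no .no) .no (.hor
  [.f 689 3 5] []) .no (.use 294)) .no .no .no .no (.red [.t 1080 4 1] 151 136 [4, 1] [(151, 136,
  [4, 1])])) (.red [.f 937 1 3, .f 936 3 5] 134 136 [4, 4] [(134, 136, [4, 4])]) .no (.br 937 .no
  (.use 244) .no (.red [.f 929 3 1, .f 937 1 3] 134 136 [4, 4] [(133, 136, [4, 4, 4]), (134, 136,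
  [4, 4])]) (.use 299) .no) (.use 246) (.red [.t 944 4 1] 134 136 [4, 4] [(134, 136, [4, 4])]))
  .no .no) .no (.red [.t 833 2 4, .f 698 1 5] 104 136 [2, 2] [(104, 136, [2, 2])])

def c22t302 : Tr4 :=
  .br 944 .no (.br 947 (.con 136 [2, 4, 4]) (.br 818 .no (.br 817 .no (.hor [.f 689 1 5] []) .no
  (.red [.f 809 3 1, .f 816 1 5] 118 136 [2, 4, 4] [(118, 136, [2, 4, 4])]) .no .no) .no (.use 17)
  .no (.red [.t 953 2 4, .f 818 1 5] 119 136 [2, 4] [(119, 136, [2, 4])])) .no (.con 136 [2, 4,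
  4]) .no .no) .no (.hor [.f 936 3 5] []) .no .no

def c22t303 : Tr4 :=
  .br 953 .no (.br 832 .no (.use 211) (.br 945 (.br 1075 (.use 48) (.con 136 [4, 4]) .no (.use 59)
  .no (.br 1210 (.use 77) .no .no (.br 1211 (.br 1217 (.br 833 .no (.br 827 .no (.use 301) .no
  (.use 249) .no .no) .no .no .no .no) .no .no .no .no .no) .no .no (.hor [.f 1202 3 5] []) .no
  .no) (.red [.t 1090 4 1, .f 1081 1 5, .t 945 1 3, .f 1072 3 5, .t 960 4 1] 136 136 [] [(135,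
  119, [1]), (136, 136, []), (152, 136, [1])]) .no)) (.red [.f 817 1 3] 119 136 [2, 4] [(119, 136,
  [2, 4])]) .no (.use 302) .no (.use 268)) (.con 136 [2, 2]) (.red [.t 952 3 2, .f 825 3 5, .t 969
  2 4] 121 136 [2, 3] [(120, 104, [1]), (121, 136, [2, 3])]) .no) .no (.hor [.f 945 3 5] []) .no
  .no

def c22t304 : Tr4 :=
  .br 832 .no (.use 211) (.red [.t 961 1 3, .t 825 1 3, .f 952 3 5, .t 840 4 1] 121 136 [2, 3]
  [(120, 104, [1]), (121, 136, [2, 3]), (137, 121, [1])]) (.con 136 [2, 2]) (.red [.t 961 1 3, .t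
  825 1 3, .f 952 3 5, .f 832 5 1, .f 833 1 3] 121 136 [2, 3] [(120, 104, [1]), (121, 136, [2,
  3]), (137, 121, [1])]) .no

def c22t305 : Tr4 :=
  .br 953 .no (.use 304) .no (.hor [.f 945 3 5] []) .no .no

def c22t306 : Tr4 :=
  .br 953 .no (.br 1073 (.red [.f 1073 1 3, .f 1072 3 5] 151 136 [4, 1] [(151, 136, [4, 1])])
  (.use 281) .no (.use 283) (.use 287) .no) .no (.hor [.f 945 3 5] []) .no .no

def c22t307 : Tr4 :=
  .br 945 .no (.red [.f 817 1 3] 119 136 [2, 4] [(119, 136, [2, 4])]) .no (.use 302) .no (.use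
  268)

def c22t308 : Tr4 :=
  .br 1218 (.use 73) .no (.br 1099 (.red [.f 1091 1 3] 153 136 [3, 1] [(153, 136, [3, 1])]) (.br
  1097 (.br 969 .no (.br 834 .no (.use 288) (.red [.f 834 3 1, .f 834 1 5] 121 136 [2, 3] [(121,
  136, [2, 3])]) (.use 303) .no (.red [.t 969 2 4, .f 834 1 5] 121 136 [2, 3] [(121, 136, [2,
  3])])) (.use 149) .no .no (.use 208)) (.con 136 [3, 3]) (.use 130) .no (.br 969 .no (.br 834 .no
  (.use 288) (.red [.f 834 3 1, .f 834 1 5] 121 136 [2, 3] [(121, 136, [2, 3])]) (.use 305) .no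
  (.red [.t 969 2 4, .f 834 1 5] 121 136 [2, 3] [(121, 136, [2, 3])])) (.use 149) .no .no (.red
  [.t 1088 3 2, .t 1208 3 2, .f 1081 3 5, .f 1089 5 3, .f 961 3 1, .f 1090 3 1] 153 136 [3, 1]
  [(152, 136, [1]), (153, 136, [3, 1])])) .no) (.br 971 .no (.red [.f 835 1 3] 121 136 [2, 3]
  [(121, 136, [2, 3])]) (.br 1097 (.br 969 .no (.br 834 .no (.use 306) (.red [.f 834 3 1, .f 834 1
  5] 121 136 [2, 3] [(121, 136, [2, 3])]) (.use 303) .no (.red [.t 969 2 4, .f 834 1 5] 121 136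
  [2, 3] [(121, 136, [2, 3])])) (.use 206) .no .no (.use 208)) (.use 189) (.use 131) .no (.br 969
  .no (.br 834 .no (.use 306) (.red [.f 834 3 1, .f 834 1 5] 121 136 [2, 3] [(121, 136, [2, 3])])
  (.use 305) .no (.red [.t 969 2 4, .f 834 1 5] 121 136 [2, 3] [(121, 136, [2, 3])])) (.use 206)
  .no .no (.red [.t 1088 3 2, .t 1208 3 2, .f 1081 3 5, .f 1089 5 3, .f 961 3 1, .f 1090 3 1] 153
  136 [3, 1] [(152, 136, [1]), (153, 136, [3, 1])])) .no) .no .no .no) .no .no (.red [.t 1218 3 2]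
  153 136 [3, 1] [(153, 136, [3, 1])])) (.con 136 [1, 1]) .no (.br 1073 (.red [.f 1073 1 3, .f
  1072 3 5] 151 136 [4, 1] [(151, 136, [4, 1])]) (.red [.t 1081 1 3, .t 945 1 3, .f 1072 3 5, .t
  960 4 1] 136 136 [] [(135, 119, [1]), (136, 136, []), (152, 136, [1])]) .no (.use 284) (.br 1210
  (.use 77) .no .no (.red [.t 1209 2 4, .f 1072 3 5] 151 136 [4, 1] [(151, 136, [4, 1])]) (.br 953
  .no (.br 826 .no (.use 285) (.use 307) (.red [.f 818 3 1, .f 825 1 5] 119 136 [2, 4] [(119, 136,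
  [2, 4])]) (.br 945 .no (.red [.f 817 1 3] 119 136 [2, 4] [(119, 136, [2, 4])]) .no (.use 286)
  .no (.br 824 .no (.use 41) (.br 947 (.br 818 .no (.br 816 .no (.use 91) .no (.use 39) (.red [.f
  824 3 1, .f 816 5 1, .f 817 1 3, .f 824 1 3] 119 136 [2, 4] [(119, 136, [2, 4])]) .no) .no (.use
  53) (.red [.f 818 5 3, .f 818 3 1] 119 136 [2, 4] [(119, 136, [2, 4])]) (.red [.f 824 3 1, .f
  824 1 3, .t 953 2 4] 119 136 [2, 4] [(119, 136, [2, 4])])) (.red [.t 946 3 2, .f 825 1 5] 119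
  136 [2, 4] [(119, 136, [2, 4])]) .no (.use 272) .no .no) (.red [.t 824 4 1] 119 136 [2, 4]
  [(119, 136, [2, 4])]) .no .no)) .no) .no (.hor [.f 945 3 5] []) .no .no) .no) .no)

def c22t309 : Tr4 :=
  .br 1088 (.br 1208 (.br 1073 (.red [.f 1073 1 3, .f 1072 3 5] 151 136 [4, 1] [(151, 136, [4,
  1])]) (.br 1210 (.use 62) .no (.red [.f 1082 3 1, .f 1081 1 5, .t 945 1 3, .f 1072 3 5, .t 960 4
  1] 136 136 [] [(135, 119, [1]), (136, 136, []), (152, 136, [1])]) (.br 825 (.br 1075 (.dom 151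
  136 [4, 1]) (.con 136 [4, 4]) .no (.use 59) .no (.br 832 .no (.br 834 .no (.use 210) (.red [.f
  834 3 1, .f 834 1 5] 121 136 [2, 3] [(121, 136, [2, 3])]) (.use 211) .no (.br 826 .no (.use 212)
  .no (.red [.f 818 3 1, .f 825 1 5] 119 136 [2, 4] [(119, 136, [2, 4])]) (.br 947 .no (.red [.t
  946 3 2, .f 825 1 5] 119 136 [2, 4] [(119, 136, [2, 4])]) .no (.br 819 .no (.use 87) .no (.red
  [.f 811 3 1, .t 946 3 2] 119 136 [2, 4] [(118, 136, [2, 4, 4]), (119, 136, [2, 4])]) .no (.red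
  [.f 818 5 3, .f 818 3 1] 119 136 [2, 4] [(119, 136, [2, 4])])) .no .no) .no)) (.br 826 .no (.use
  212) (.use 251) (.red [.f 818 3 1, .f 825 1 5] 119 136 [2, 4] [(119, 136, [2, 4])]) (.br 947 .no
  (.red [.t 946 3 2, .f 825 1 5] 119 136 [2, 4] [(119, 136, [2, 4])]) .no (.br 819 .no (.use 88)
  .no (.red [.f 811 3 1, .t 946 3 2] 119 136 [2, 4] [(118, 136, [2, 4, 4]), (119, 136, [2, 4])])
  .no (.red [.f 818 5 3, .f 818 3 1] 119 136 [2, 4] [(119, 136, [2, 4])])) .no .no) .no) (.red [.f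
  824 3 1, .f 824 1 5, .t 1072 3 2, .f 945 3 5, .t 1089 2 4, .t 960 2 4] 136 136 [] [(135, 119,
  [1]), (136, 136, [])]) (.red [.t 952 3 2, .t 1072 3 2, .f 945 3 5, .t 1089 2 4, .f 825 3 1] 136
  136 [] [(135, 119, [1]), (136, 136, [])]) .no)) (.con 136 [4, 2, 3, 3]) (.con 136 [4, 2, 3, 3])
  (.con 136 [4, 2, 3, 3]) (.con 136 [4, 2, 3, 3]) (.con 136 [4, 2, 3, 3])) (.red [.t 1090 4 1, .f
  1081 1 5, .t 945 1 3, .f 1072 3 5, .t 960 4 1] 136 136 [] [(135, 119, [1]), (136, 136, []),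
  (152, 136, [1])]) .no) .no (.use 280) (.use 67) .no) .no .no (.red [.f 1072 3 1, .f 1080 1 5]
  151 136 [4, 1] [(151, 136, [4, 1])]) .no .no) .no (.br 1208 (.br 1073 (.red [.f 1073 1 3, .f
  1072 3 5] 151 136 [4, 1] [(151, 136, [4, 1])]) (.br 825 (.br 1210 (.use 76) .no (.red [.f 1082 3
  1, .f 1081 1 5, .t 945 1 3, .f 1072 3 5, .t 960 4 1] 136 136 [] [(135, 119, [1]), (136, 136,
  []), (152, 136, [1])]) (.br 826 .no (.use 212) (.br 832 .no (.use 211) (.br 1075 (.dom 151 136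
  [4, 1]) (.con 136 [4, 4]) .no (.use 59) .no (.use 251)) (.con 136 [2, 2]) (.red [.t 952 3 2, .t
  1072 3 2, .f 945 3 5, .t 1089 2 4, .f 825 3 1] 136 136 [] [(135, 119, [1]), (136, 136, [])])
  .no) (.red [.f 818 3 1, .f 825 1 5] 119 136 [2, 4] [(119, 136, [2, 4])]) (.br 1075 (.dom 151 136
  [4, 1]) (.con 136 [4, 4]) .no (.use 59) .no (.br 947 .no (.red [.t 946 3 2, .f 825 1 5] 119 136
  [2, 4] [(119, 136, [2, 4])]) .no (.br 1211 (.br 818 .no (.use 271) .no (.br 944 .no (.con 136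
  [2, 4, 4]) .no (.br 937 (.red [.f 937 1 3, .f 936 3 5] 134 136 [4, 4] [(134, 136, [4, 4])])
  (.con 136 [2, 4, 4, 4]) .no (.use 84) (.br 1200 (.red [.f 1200 1 3, .f 1072 3 1, .f 1080 1 5]
  151 136 [4, 1] [(151, 136, [4, 1]), (167, 136, [4, 1, 1])]) .no .no (.br 1065 (.use 68) .no .no
  (.use 223) (.red [.f 937 5 1, .f 937 1 3] 134 136 [4, 4] [(134, 136, [4, 4])]) (.red [.t 944 4
  1] 134 136 [4, 4] [(134, 136, [4, 4])])) (.red [.t 1080 4 1] 151 136 [4, 1] [(151, 136, [4,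
  1])]) .no) .no) .no .no) (.red [.f 818 5 3, .f 818 3 1] 119 136 [2, 4] [(119, 136, [2, 4])])
  (.red [.t 953 2 4] 119 136 [2, 4] [(119, 136, [2, 4])])) .no .no (.hor [.f 1202 3 5] []) .no
  .no) .no .no)) .no) (.red [.t 1090 4 1, .f 1081 1 5, .t 945 1 3, .f 1072 3 5, .t 960 4 1] 136
  136 [] [(135, 119, [1]), (136, 136, []), (152, 136, [1])]) .no) (.con 136 [4, 2, 3, 3]) (.con
  136 [4, 2, 3, 3]) (.con 136 [4, 2, 3, 3]) (.con 136 [4, 2, 3, 3]) (.con 136 [4, 2, 3, 3])) .no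
  (.use 284) (.use 209) .no) .no (.use 308) (.red [.f 1072 3 1, .f 1080 1 5] 151 136 [4, 1] [(151,
  136, [4, 1])]) .no .no) .no .no .no

def c22l8 : List Tr4 :=
  [c22t299, c22t300, c22t301, c22t302, c22t303, c22t304, c22t305, c22t306, c22t307, c22t308,
  c22t309]

theorem c22k8 : chkLF ⟨4, 0, 0, true, -8⟩ false 2 c22N 299 c22l8 = true := by decide +kernel

def c22t310 : Tr4 :=
  .br 954 .no (.br 834 .no (.br 953 .no (.hor [.f 825 1 5] []) .no (.use 204) .no .no) (.red [.f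
  834 3 1, .f 834 1 5] 121 136 [2, 3] [(121, 136, [2, 3])]) .no .no (.br 969 (.red [.f 961 1 3, .f
  961 3 5, .f 833 5 1, .f 826 1 3, .f 954 3 1, .t 1089 3 2] 136 136 [] [(120, 136, [2]), (136,
  136, [])]) (.red [.t 969 2 4, .f 834 1 5] 121 136 [2, 3] [(121, 136, [2, 3])]) (.br 1088 (.use
  205) .no (.use 207) .no .no .no) .no .no (.br 1088 (.use 205) .no (.br 1097 (.br 1216 (.br 1208
  (.br 1217 (.hor [.f 1216 1 5] []) .no .no .no (.br 953 .no (.hor [.f 825 1 5] []) .no (.br 1073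
  (.red [.f 1073 1 3, .f 1072 3 5] 151 136 [4, 1] [(151, 136, [4, 1])]) .no .no (.br 1074 (.use
  98) (.red [.t 1081 1 3, .t 945 3 1, .f 953 1 3] 136 136 [] [(135, 136, [4]), (136, 136, []),
  (152, 136, [1])]) .no (.hor [.f 1065 3 5] []) (.br 946 .no (.hor [.f 818 1 3, .f 945 3 5] [(119,
  121, [4, 4])]) .no (.br 1210 (.use 76) .no .no (.use 129) (.use 114) .no) (.red [.f 946 5 1, .t
  1081 1 3, .t 945 3 1, .f 953 1 3] 136 136 [] [(135, 136, [4]), (136, 136, []), (152, 136, [1])])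
  .no) .no) (.red [.t 1081 1 3, .f 1073 5 3, .f 945 3 1, .f 953 1 3] 136 136 [] [(135, 136, [4]),
  (136, 136, []), (152, 136, [1])]) .no) .no .no) .no) .no .no (.red [.f 1072 3 1, .f 1080 1 5]
  151 136 [4, 1] [(151, 136, [4, 1])]) .no .no) .no (.red [.f 1088 3 1, .f 1096 1 5] 153 136 [3,
  1] [(153, 136, [3, 1])]) (.use 208) (.red [.t 1096 4 1] 153 136 [3, 1] [(153, 136, [3, 1])])
  .no) .no (.br 1099 (.br 1098 (.hor [.f 1098 1 5] []) .no (.hor [.f 1097 3 5] []) .no .no .no)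
  (.use 130) (.use 131) .no .no (.br 1208 (.br 953 .no (.hor [.f 825 1 5] []) .no (.br 1073 (.red
  [.f 1073 1 3, .f 1072 3 5] 151 136 [4, 1] [(151, 136, [4, 1])]) .no .no (.use 133) (.use 209)
  .no) .no .no) .no (.br 1218 (.use 73) .no (.red [.t 1218 3 2] 153 136 [3, 1] [(153, 136, [3,
  1])]) (.con 136 [1, 1]) .no (.use 202)) (.red [.f 1072 3 1, .f 1080 1 5] 151 136 [4, 1] [(151,
  136, [4, 1])]) .no .no)) .no (.red [.t 961 1 3, .f 833 5 1, .f 826 1 3, .f 954 3 1, .f 962 1 3]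
  136 136 [] [(120, 136, [2]), (136, 136, [])]) .no) .no .no .no))) .no (.use 309) .no (.red [.t
  1089 2 4, .f 952 3 5] 136 136 [] [(136, 136, [])])

def c22t311 : Tr4 :=
  .br 843 .no (.br 968 (.br 840 .no (.use 135) (.con 136 [2, 2, 3, 3]) .no .no .no) (.con 136 [2,
  2, 3, 3]) (.use 150) .no .no .no) (.red [.f 843 3 1, .f 835 1 3, .f 962 3 5] 121 136 [2, 3]
  [(121, 136, [2, 3]), (122, 136, [2, 3, 3])]) .no .no .no

def c22t312 : Tr4 :=
  .br 833 .no (.hor [.f 705 1 5] []) .no .no .no (.use 311)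

def c22t313 : Tr4 :=
  .br 1203 (.con 136 [4, 1, 4, 1]) .no .no (.red [.f 1067 3 1] 150 136 [4, 1, 4] [(150, 136, [4,
  1, 4])]) .no .no

def c22t314 : Tr4 :=
  .br 1193 (.hor [.f 1193 1 5] []) .no .no (.con 136 [4, 1, 4, 4, 1]) .no .no

def c22t315 : Tr4 :=
  .br 1194 (.use 314) .no .no (.red [.f 1067 1 3, .f 1058 3 1, .t 1065 3 1, .f 1073 1 3] 151 136
  [4, 1] [(149, 136, [4, 4, 1, 4]), (151, 136, [4, 1])]) .no (.red [.f 1193 5 3, .f 1065 3 1, .f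
  1073 1 3] 151 136 [4, 1] [(150, 136, [4, 4, 1]), (151, 136, [4, 1])])

def c22t316 : Tr4 :=
  .br 1329 (.hor [.f 1328 1 5] []) .no .no (.br 1330 (.con 136 [4, 1, 1, 4, 1]) .no .no (.hor [.f
  1321 3 5] []) (.con 136 [4, 1, 1, 4, 1]) .no) (.red [.f 1201 5 1, .f 1202 1 3] 167 136 [4, 1, 1]
  [(167, 136, [4, 1, 1])]) .no

def c22t317 : Tr4 :=
  .br 1195 (.hor [.f 1194 1 5] []) .no .no (.con 136 [4, 1, 4, 1, 4]) .no .no

def c22t318 : Tr4 :=
  .br 1320 (.hor [.f 1320 1 5] []) .no .no (.con 136 [4, 1, 4, 1, 4, 1]) .no .no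

def c22t319 : Tr4 :=
  .br 1339 (.con 136 [4, 1, 1, 1]) .no .no (.hor [.f 1330 3 5] []) .no .no

def c22t320 : Tr4 :=
  .br 1329 (.hor [.f 1328 1 5] []) .no .no (.br 1330 (.con 136 [4, 1, 1, 4, 1]) .no .no (.hor [.f
  1321 3 5] []) (.con 136 [4, 1, 1, 4, 1]) .no) (.red [.f 1210 5 1, .f 1201 5 1, .f 1202 1 3] 167
  136 [4, 1, 1] [(167, 136, [4, 1, 1])]) .no

def c22t321 : Tr4 :=
  .br 1338 (.red [.f 1338 1 3, .t 1346 4 2, .t 1337 4 2] 167 136 [4, 1, 1] [(167, 136, [4, 1, 1]),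
  (168, 136, [1, 1]), (184, 136, [1, 1, 1])]) .no .no (.hor [.f 1329 3 5] []) (.red [.f 1210 5 1,
  .t 1337 4 2] 167 136 [4, 1, 1] [(167, 136, [4, 1, 1])]) .no

def c22t322 : Tr4 :=
  .br 1339 (.br 1329 (.hor [.f 1328 1 5] []) .no .no (.br 1330 (.con 136 [4, 1, 4, 1, 1]) .no .no
  (.hor [.f 1321 3 5] []) (.con 136 [4, 1, 4, 1, 1]) .no) (.br 1331 (.red [.f 1329 5 3, .f 1331 1
  3] 183 136 [4, 1, 1, 1] [(183, 136, [4, 1, 1, 1])]) .no .no (.con 136 [4, 1, 4, 1, 1]) .no .no)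
  .no) .no .no (.br 1329 (.hor [.f 1328 1 5] []) .no .no (.br 1330 (.con 136 [4, 1, 4, 1, 1]) .no
  .no (.hor [.f 1321 3 5] []) .no .no) (.red [.f 1201 5 1, .t 1330 2 3, .f 1211 1 3] 167 136 [4,
  1, 1] [(167, 136, [4, 1, 1]), (168, 136, [1, 1])]) .no) .no .no

def c22t323 : Tr4 :=
  .br 1193 (.red [.t 1192 3 1, .f 1200 1 3] 167 136 [4, 1, 1] [(166, 136, [4, 4, 1, 1]), (167,
  136, [4, 1, 1])]) .no .no (.br 1194 (.br 1321 (.use 317) .no .no (.red [.f 1185 3 1, .t 1192 3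
  1] 166 136 [4, 4, 1, 1] [(165, 136, [4, 4, 1, 4, 1]), (166, 136, [4, 4, 1, 1])]) .no (.red [.f
  1320 5 3, .f 1192 3 1, .f 1200 1 3] 167 136 [4, 1, 1] [(166, 136, [4, 4, 1, 1]), (167, 136, [4,
  1, 1])])) .no .no (.hor [.f 1185 3 5] []) (.br 1059 (.red [.t 1058 3 1, .t 1065 3 1, .f 1073 1
  3] 151 136 [4, 1] [(149, 136, [4, 4, 1, 4]), (150, 136, [4, 4, 1]), (151, 136, [4, 1])]) (.hor
  [.f 931 1 3, .f 1058 3 5] [(133, 165, [2, 2])]) .no (.br 1187 (.br 1321 (.use 318) .no .no (.red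
  [.f 1185 3 1, .t 1192 3 1] 166 136 [4, 4, 1, 1] [(165, 136, [4, 4, 1, 4, 1]), (166, 136, [4, 4,
  1, 1])]) (.br 1314 (.br 1186 .no .no .no (.br 1313 (.hor [.f 1313 1 5] []) .no .no (.con 136 [4,
  4, 1, 4, 1, 1, 4]) .no (.con 136 [4, 4, 1, 4, 1, 4])) .no .no) (.red [.t 1185 3 1, .t 1192 3 1]
  166 136 [4, 4, 1, 1] [(165, 136, [4, 4, 1, 4, 1]), (166, 136, [4, 4, 1, 1])]) .no (.br 1186 .no
  .no .no (.red [.f 1178 3 1, .t 1185 3 1] 165 136 [4, 4, 1, 4, 1] [(164, 136, [4, 4, 1, 4, 4,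
  1]), (165, 136, [4, 4, 1, 4, 1])]) .no .no) .no (.red [.f 1313 5 3, .f 1185 3 1, .t 1192 3 1]
  166 136 [4, 4, 1, 1] [(165, 136, [4, 4, 1, 4, 1]), (166, 136, [4, 4, 1, 1])])) (.red [.f 1320 5
  3, .f 1192 3 1, .f 1200 1 3] 167 136 [4, 1, 1] [(166, 136, [4, 4, 1, 1]), (167, 136, [4, 1,
  1])])) .no .no (.red [.f 1051 3 1, .t 1058 3 1, .t 1065 3 1, .f 1073 1 3] 151 136 [4, 1] [(148,
  136, [4, 4, 1, 4, 4]), (149, 136, [4, 4, 1, 4]), (150, 136, [4, 4, 1]), (151, 136, [4, 1])]) .no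
  (.red [.f 1186 5 3, .f 1058 3 1, .t 1065 3 1, .f 1073 1 3] 151 136 [4, 1] [(149, 136, [4, 4, 1,
  4]), (150, 136, [4, 4, 1]), (151, 136, [4, 1])])) .no .no) .no) (.red [.f 1193 5 3, .f 1065 3 1,
  .f 1073 1 3] 151 136 [4, 1] [(150, 136, [4, 4, 1]), (151, 136, [4, 1])]) .no

def c22t324 : Tr4 :=
  .br 1339 (.br 1331 (.red [.f 1331 1 3] 183 136 [4, 1, 1, 1] [(183, 136, [4, 1, 1, 1])]) .no .no
  (.br 1330 (.con 136 [4, 1, 1, 4, 1]) .no .no (.hor [.f 1322 3 5] []) .no (.con 136 [4, 1, 1, 4,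
  1])) .no (.br 1457 (.con 136 [4, 1, 1, 1, 4]) (.hor [.f 1328 1 5] []) .no (.con 136 [4, 1, 1, 1,
  4]) (.con 136 [4, 1, 1, 1, 4]) .no)) .no .no (.br 1329 (.hor [.f 1328 1 5] []) .no .no (.br 1330
  (.con 136 [4, 1, 1, 4, 1]) .no .no (.hor [.f 1321 3 5] []) .no .no) (.red [.f 1201 5 1, .t 1330
  2 3, .f 1211 1 3] 167 136 [4, 1, 1] [(167, 136, [4, 1, 1]), (168, 136, [1, 1])]) .no) .no .no

def c22t325 : Tr4 :=
  .br 1210 (.hor [.f 1210 1 5] []) .no .no .no .no .no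

def c22t326 : Tr4 :=
  .br 1193 .no .no .no (.red [.f 1185 3 1, .t 1192 3 1] 166 136 [4, 1, 1, 4] [(165, 136, [4, 1, 4,
  4, 1]), (166, 136, [4, 1, 1, 4])]) .no .no

def c22t327 : Tr4 :=
  .br 1321 (.br 1195 (.hor [.f 1194 1 5] []) .no .no (.con 136 [4, 4, 1, 1, 4]) .no .no) (.red [.t
  1192 3 1, .f 1200 1 3] 167 136 [4, 1, 1] [(166, 136, [4, 4, 1, 1]), (167, 136, [4, 1, 1])]) .no
  (.use 326) .no (.red [.f 1320 5 3, .f 1192 3 1, .f 1200 1 3] 167 136 [4, 1, 1] [(166, 136, [4,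
  4, 1, 1]), (167, 136, [4, 1, 1])])

def c22t328 : Tr4 :=
  .br 1193 (.red [.t 1192 3 1, .f 1200 1 3] 167 136 [4, 1, 1] [(166, 136, [4, 1, 1, 4]), (167,
  136, [4, 1, 1])]) .no .no (.hor [.f 1185 3 5] []) .no .no

def c22t329 : Tr4 :=
  .br 1346 (.br 1194 (.br 1337 (.br 1338 (.hor [.f 1337 1 5] []) .no .no (.use 319) (.br 1328
  (.use 320) .no .no (.red [.f 1192 3 1, .f 1200 1 3] 167 136 [4, 1, 1] [(166, 136, [4, 1, 1, 4]),
  (167, 136, [4, 1, 1])]) (.br 1075 (.br 1321 (.br 1331 (.br 1466 (.br 1467 (.hor [.f 1466 1 5]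
  []) .no (.red [.t 1474 2 4, .f 1331 1 3] 183 136 [4, 1, 1, 1] [(183, 136, [4, 1, 1, 1]), (184,
  136, [1, 1, 1])]) .no .no .no) .no .no (.con 136 [4, 4, 1, 1, 1, 3]) (.red [.f 1338 5 1, .f 1331
  1 3] 183 136 [4, 1, 1, 1] [(183, 136, [4, 1, 1, 1])]) .no) .no .no (.con 136 [4, 4, 1, 1, 4])
  .no (.br 1457 (.br 1195 (.hor [.f 1194 1 5] []) .no .no (.con 136 [4, 4, 1, 1, 4]) .no .no) .no
  .no .no (.red [.f 1330 5 3, .t 1337 1 4] 183 136 [4, 1, 1, 1] [(183, 136, [4, 1, 1, 1])]) (.red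
  [.f 1328 5 1, .f 1329 1 3] 183 136 [4, 1, 1, 1] [(183, 136, [4, 1, 1, 1])]))) (.red [.t 1192 3
  1, .f 1200 1 3] 167 136 [4, 1, 1] [(166, 136, [4, 4, 1, 1]), (167, 136, [4, 1, 1])]) .no (.use
  326) .no (.red [.f 1320 5 3, .f 1192 3 1, .f 1200 1 3] 167 136 [4, 1, 1] [(166, 136, [4, 4, 1,
  1]), (167, 136, [4, 1, 1])])) .no .no .no .no .no) .no) .no) .no .no (.use 321) (.br 1075 (.br
  1328 (.use 322) .no .no (.red [.f 1192 3 1, .f 1200 1 3] 167 136 [4, 1, 1] [(166, 136, [4, 4, 1,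
  1]), (167, 136, [4, 1, 1])]) (.use 327) .no) .no .no .no .no .no) .no) .no .no (.br 1337 (.br
  1338 (.hor [.f 1337 1 5] []) .no .no (.use 319) (.br 1328 (.use 320) .no .no (.red [.f 1192 3 1,
  .f 1200 1 3] 167 136 [4, 1, 1] [(166, 136, [4, 1, 1, 4]), (167, 136, [4, 1, 1])]) (.use 328)
  .no) .no) .no .no (.use 321) (.br 1328 (.br 1075 (.use 322) .no .no .no .no .no) .no .no (.red
  [.f 1192 3 1, .f 1200 1 3] 167 136 [4, 1, 1] [(166, 136, [4, 1, 1, 4]), (167, 136, [4, 1, 1])])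
  (.use 328) .no) .no) (.red [.f 1066 5 1, .t 1065 3 1, .f 1073 1 3] 151 136 [4, 1] [(150, 136,
  [4, 4, 1]), (151, 136, [4, 1])]) (.red [.f 1193 5 3, .f 1065 3 1, .f 1073 1 3] 151 136 [4, 1]
  [(150, 136, [4, 4, 1]), (151, 136, [4, 1])])) .no (.hor [.f 1218 3 1, .f 1217 1 5] [(169, 168,
  [3])]) (.br 1337 (.br 1194 (.br 1075 (.br 1328 (.use 324) .no .no (.red [.f 1192 3 1, .f 1200 1
  3] 167 136 [4, 1, 1] [(166, 136, [4, 4, 1, 1]), (167, 136, [4, 1, 1])]) (.use 327) .no) .no .no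
  .no .no .no) .no .no (.br 1328 (.br 1075 (.use 324) .no .no .no .no .no) .no .no (.red [.f 1192
  3 1, .f 1200 1 3] 167 136 [4, 1, 1] [(166, 136, [4, 1, 1, 4]), (167, 136, [4, 1, 1])]) (.use
  328) .no) (.red [.f 1066 5 1, .t 1065 3 1, .f 1073 1 3] 151 136 [4, 1] [(150, 136, [4, 4, 1]),
  (151, 136, [4, 1])]) (.red [.f 1193 5 3, .f 1065 3 1, .f 1073 1 3] 151 136 [4, 1] [(150, 136,
  [4, 4, 1]), (151, 136, [4, 1])])) .no .no (.red [.t 1346 4 2, .t 1337 4 2] 167 136 [4, 1, 1]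
  [(167, 136, [4, 1, 1]), (168, 136, [1, 1])]) .no .no) .no .no

def c22t330 : Tr4 :=
  .br 1066 (.red [.t 1065 3 1, .f 1073 1 3] 151 136 [4, 1] [(150, 136, [4, 4, 1]), (151, 136, [4,
  1])]) (.red [.f 938 1 3, .f 1065 3 5, .f 1073 5 1, .f 1073 1 3] 151 136 [4, 1] [(134, 150, [2]),
  (151, 136, [4, 1])]) .no (.br 1075 (.br 1210 (.br 1337 (.br 1067 (.use 315) (.br 1328 (.use 316)
  .no .no (.red [.f 1192 3 1, .f 1200 1 3] 167 136 [4, 1, 1] [(166, 136, [4, 4, 1, 1]), (167, 136,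
  [4, 1, 1])]) (.use 323) .no) .no (.hor [.f 1058 3 5] []) .no .no) .no .no (.red [.t 1337 4 2]
  167 136 [4, 1, 1] [(167, 136, [4, 1, 1])]) .no .no) .no .no .no (.br 1219 (.br 1067 (.use 315)
  (.br 1346 (.br 1328 (.br 1337 (.br 1338 (.hor [.f 1337 1 5] []) .no .no (.use 319) (.use 320)
  .no) .no .no (.use 321) (.use 322) .no) .no .no (.red [.f 1192 3 1, .f 1200 1 3] 167 136 [4, 1,
  1] [(166, 136, [4, 4, 1, 1]), (167, 136, [4, 1, 1])]) (.use 323) .no) .no (.hor [.f 1218 3 1, .f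
  1217 1 5] [(169, 168, [3])]) (.br 1337 (.br 1328 (.use 324) .no .no (.red [.f 1192 3 1, .f 1200
  1 3] 167 136 [4, 1, 1] [(166, 136, [4, 4, 1, 1]), (167, 136, [4, 1, 1])]) (.use 323) .no) .no
  .no (.red [.t 1346 4 2, .t 1337 4 2] 167 136 [4, 1, 1] [(167, 136, [4, 1, 1]), (168, 136, [1,
  1])]) .no .no) .no .no) .no (.hor [.f 1058 3 5] []) .no .no) .no (.hor [.f 1218 3 5] []) .no .no
  .no) .no) (.hor [.f 946 1 5] []) .no (.br 1219 (.br 1211 (.use 325) .no .no (.con 136 [4, 1, 1])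
  .no (.br 1203 (.con 136 [4, 4, 1, 1]) .no .no (.red [.f 1067 3 1] 150 136 [4, 4, 1] [(150, 136,
  [4, 4, 1])]) .no .no)) .no (.hor [.f 1218 3 5] []) (.br 1203 (.con 136 [4, 4, 1, 1]) .no .no
  (.red [.f 1067 3 1] 150 136 [4, 4, 1] [(150, 136, [4, 4, 1])]) .no .no) .no .no) .no .no) (.br
  947 (.hor [.f 946 1 5] []) (.br 1219 (.br 1211 (.use 325) .no .no (.con 136 [4, 1, 1]) .no (.use
  329)) .no (.hor [.f 1218 3 5] []) (.br 1210 (.br 1337 (.br 1194 (.br 1328 (.use 316) .no .no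
  (.red [.f 1192 3 1, .f 1200 1 3] 167 136 [4, 1, 1] [(166, 136, [4, 1, 1, 4]), (167, 136, [4, 1,
  1])]) (.br 1075 (.use 327) .no .no .no .no .no) .no) .no .no (.br 1328 (.use 316) .no .no (.red
  [.f 1192 3 1, .f 1200 1 3] 167 136 [4, 1, 1] [(166, 136, [4, 1, 1, 4]), (167, 136, [4, 1, 1])])
  (.use 328) .no) (.red [.f 1066 5 1, .t 1065 3 1, .f 1073 1 3] 151 136 [4, 1] [(150, 136, [4, 4,
  1]), (151, 136, [4, 1])]) (.red [.f 1193 5 3, .f 1065 3 1, .f 1073 1 3] 151 136 [4, 1] [(150,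
  136, [4, 4, 1]), (151, 136, [4, 1])])) .no .no (.red [.t 1337 4 2] 167 136 [4, 1, 1] [(167, 136,
  [4, 1, 1])]) .no .no) .no .no .no .no .no) .no .no) .no (.hor [.t 946 1 4, .f 1065 3 5] [(134,
  136, [4, 4])]) .no .no) .no

def c22t331 : Tr4 :=
  .br 1200 (.red [.f 1200 1 3, .f 1072 3 1, .f 1080 1 5] 151 136 [4, 1] [(151, 136, [4, 1]), (167,
  136, [4, 1, 1])]) .no .no (.br 1201 (.br 1202 (.hor [.f 1201 1 5] []) .no (.br 1075 (.dom 151
  136 [4, 1]) (.hor [.f 946 1 5] []) .no (.br 1211 (.use 96) .no (.use 313) (.con 136 [4, 4, 1,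
  1]) .no .no) .no .no) (.con 136 [4, 1, 1, 4]) (.con 136 [4, 1, 4, 1]) .no) .no .no (.hor [.f
  1192 3 5] []) (.use 330) .no) (.red [.t 1080 4 1] 151 136 [4, 1] [(151, 136, [4, 1])]) .no

def c22t332 : Tr4 :=
  .br 1211 (.hor [.f 1210 1 5] []) .no .no (.con 136 [4, 1, 1]) .no .no

def c22t333 : Tr4 :=
  .br 1075 (.dom 151 136 [4, 1]) (.hor [.f 946 1 5] []) .no (.use 97) .no .no

def c22t334 : Tr4 :=
  .br 1210 (.use 332) .no .no (.br 1211 (.use 333) .no .no (.hor [.f 1202 3 5] []) .no .no) (.red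
  [.f 1210 5 3, .f 1082 3 1, .f 1081 1 5, .t 945 3 1, .f 953 1 3] 136 136 [] [(135, 136, [4]),
  (136, 136, []), (152, 136, [1])]) .no

def c22t335 : Tr4 :=
  .br 1218 (.hor [.f 1217 1 5] []) .no (.use 331) (.red [.f 1082 3 1, .f 1081 1 5, .t 945 3 1, .f
  953 1 3] 136 136 [] [(135, 136, [4]), (136, 136, []), (152, 136, [1])]) (.use 334) .no

def c22t336 : Tr4 :=
  .br 1075 (.dom 151 136 [4, 1]) (.hor [.f 946 1 5] []) .no (.br 1200 (.red [.f 1200 1 3, .f 1072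
  3 1, .f 1080 1 5] 151 136 [4, 1] [(151, 136, [4, 1]), (167, 136, [4, 1, 1])]) .no .no (.use 313)
  .no .no) .no .no

def c22t337 : Tr4 :=
  .br 1211 (.use 333) .no (.use 336) (.hor [.f 1202 3 5] []) .no .no

def c22l9 : List Tr4 :=
  [c22t310, c22t311, c22t312, c22t313, c22t314, c22t315, c22t316, c22t317, c22t318, c22t319,
  c22t320, c22t321, c22t322, c22t323, c22t324, c22t325, c22t326, c22t327, c22t328, c22t329,
  c22t330, c22t331, c22t332, c22t333, c22t334, c22t335, c22t336, c22t337]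

theorem c22k9 : chkLF ⟨4, 0, 0, true, -8⟩ false 2 c22N 310 c22l9 = true := by decide +kernel

def c22t338 : Tr4 :=
  .br 1201 (.use 337) .no .no (.red [.f 1065 3 1, .f 1073 1 3] 151 136 [4, 1] [(150, 136, [4, 4,
  1]), (151, 136, [4, 1])]) .no (.red [.t 1080 4 1] 151 136 [4, 1] [(151, 136, [4, 1])])

def c22t339 : Tr4 :=
  .br 1226 (.red [.f 1091 3 1, .f 1091 1 3, .f 1218 1 3, .f 1218 3 5] 169 136 [3, 1, 1] [(169,
  136, [3, 1, 1])]) .no (.hor [.t 1216 2 3, .f 1098 3 1, .f 1097 1 5] [(153, 169, [2]), (154, 169,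
  [2, 3])]) .no .no .no

def c22t340 : Tr4 :=
  .br 1097 .no .no (.hor [.f 1097 3 5] []) .no .no (.use 339)

def c22t341 : Tr4 :=
  .br 1219 (.hor [.f 1218 1 5] []) .no (.br 841 (.br 825 .no (.use 312) (.br 1098 (.hor [.f 1091 3
  1, .f 1098 1 5] [(153, 169, [2])]) .no (.use 340) .no .no (.red [.t 961 1 3, .t 825 3 1, .f 833
  1 3] 121 136 [2, 3] [(120, 136, [2]), (121, 136, [2, 3]), (137, 121, [1])])) (.hor [.f 817 3 1,
  .f 825 1 5] [(119, 121, [4, 4])]) .no (.br 1098 (.hor [.f 1091 3 1, .f 1098 1 5] [(153, 169,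
  [2])]) .no (.use 340) .no .no (.use 153))) (.use 275) (.hor [.f 841 3 5] []) (.use 95) .no (.use
  105)) .no .no .no

def c22t342 : Tr4 :=
  .br 1328 (.con 136 [4, 1, 1, 4]) (.red [.f 1200 1 3, .f 1072 3 1, .f 1080 1 5] 151 136 [4, 1]
  [(151, 136, [4, 1]), (167, 136, [4, 1, 1])]) .no (.con 136 [4, 1, 1, 4]) .no .no

def c22t343 : Tr4 :=
  .br 1328 (.con 136 [4, 1, 1, 4]) (.red [.f 1200 1 3, .f 1072 3 1, .f 1080 1 5] 151 136 [4, 1]
  [(151, 136, [4, 1]), (167, 136, [4, 1, 1])]) .no (.con 136 [4, 1, 1, 4]) .no .no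

def c22t344 : Tr4 :=
  .br 1202 (.hor [.f 1201 1 5] []) .no .no (.use 342) (.use 343) .no

def c22t345 : Tr4 :=
  .br 1200 (.red [.f 1200 1 3, .f 1072 3 1, .f 1080 1 5] 151 136 [4, 1] [(151, 136, [4, 1]), (167,
  136, [4, 1, 1])]) .no .no (.use 314) .no .no

def c22t346 : Tr4 :=
  .br 968 (.br 840 .no (.use 197) (.con 136 [2, 2, 3, 3]) .no .no .no) (.con 136 [2, 3, 3]) (.use
  198) .no (.use 192) .no

def c22t347 : Tr4 :=
  .br 1219 (.hor [.f 1218 1 5] []) .no (.br 1098 (.hor [.f 1091 3 1, .f 1098 1 5] [(153, 169,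
  [2])]) .no (.br 1226 (.red [.f 1091 3 1, .f 1091 1 3, .f 1218 1 3, .f 1218 3 5] 169 136 [3, 1,
  1] [(169, 136, [3, 1, 1])]) .no (.br 1096 (.hor [.f 1088 1 3, .f 1216 3 5] [(153, 169, [2])])
  (.hor [.f 1091 3 1, .f 1098 3 1, .f 1098 1 5] [(153, 169, [2]), (154, 169, [2, 3])]) (.hor [.f
  1091 3 1, .f 1098 3 1, .f 1098 1 5] [(153, 169, [2]), (154, 169, [2, 3])]) .no (.use 339) .no)
  .no .no .no) .no .no (.br 825 .no (.br 833 .no (.hor [.f 705 1 5] []) .no .no .no (.br 843 .no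
  (.use 346) (.red [.t 961 1 3, .f 843 3 1, .f 835 1 3] 122 136 [2, 3, 3] [(121, 136, [2, 3]),
  (122, 136, [2, 3, 3]), (137, 121, [1])]) .no .no .no)) (.red [.t 961 1 3, .t 825 3 1, .f 954 3
  1, .f 962 1 3] 136 136 [] [(120, 136, [2]), (136, 136, [])]) (.hor [.f 817 3 1, .f 825 1 5]
  [(119, 121, [4, 4])]) .no (.br 833 .no (.hor [.f 705 1 5] []) .no .no .no (.br 1096 (.hor [.f
  1088 1 3, .f 1216 3 5] [(153, 169, [2])]) (.br 969 .no .no (.br 978 (.hor [.t 977 4 1, .f 968 1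
  5] [(138, 122, [1])]) (.red [.t 977 4 2] 122 136 [2, 3, 3] [(122, 136, [2, 3, 3])]) (.br 843 .no
  (.br 840 .no (.use 199) (.con 136 [2, 2, 3, 3]) .no .no .no) (.red [.t 961 1 3, .f 843 3 1, .f
  835 1 3] 122 136 [2, 3, 3] [(121, 136, [2, 3]), (122, 136, [2, 3, 3]), (137, 121, [1])]) .no .no
  .no) .no .no .no) .no .no .no) (.br 968 .no (.con 136 [2, 3, 3]) (.br 977 (.con 136 [2, 3, 3, 1,
  4, 2]) (.con 136 [2, 3, 3, 1, 4, 2]) (.con 136 [2, 3, 3, 1, 4, 2]) (.hor [.f 968 3 5] []) (.con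
  136 [2, 3, 3, 1, 4, 2]) .no) .no (.br 843 .no (.br 705 .no (.use 186) (.red [.f 824 5 3, .t 705
  3 1] 105 136 [2, 2, 3] [(105, 136, [2, 2, 3])]) (.red [.f 824 5 3, .f 697 3 1, .f 705 1 5, .f
  833 5 3, .f 834 3 1] 121 136 [2, 3] [(104, 105, [4]), (121, 136, [2, 3])]) .no (.use 191)) (.red
  [.t 961 1 3, .f 843 3 1, .f 835 1 3] 122 136 [2, 3, 3] [(121, 136, [2, 3]), (122, 136, [2, 3,
  3]), (137, 121, [1])]) .no .no .no) .no) .no .no .no)))) .no .no .no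

def c22t348 : Tr4 :=
  .br 1202 (.hor [.f 1201 1 5] []) .no .no (.use 342) (.use 343) .no

def c22t349 : Tr4 :=
  .br 947 .no (.hor [.f 811 1 3, .f 938 3 5] [(118, 136, [4, 2, 4])]) .no .no .no .no

def c22t350 : Tr4 :=
  .br 1211 (.use 128) .no (.br 1066 (.br 1200 (.red [.f 1200 1 3, .f 1072 3 1, .f 1080 1 5] 151
  136 [4, 1] [(151, 136, [4, 1]), (167, 136, [4, 1, 1])]) .no .no (.br 1203 (.con 136 [4, 4, 1,
  1]) .no .no (.red [.t 1194 2 3, .f 938 3 1] 150 136 [4, 4, 1] [(134, 136, [4, 4]), (150, 136,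
  [4, 4, 1])]) .no .no) .no .no) .no .no (.br 1067 (.br 1200 (.red [.f 1200 1 3, .f 1072 3 1, .f
  1080 1 5] 151 136 [4, 1] [(151, 136, [4, 1]), (167, 136, [4, 1, 1])]) .no .no (.con 136 [4, 4,
  1, 4]) .no .no) (.br 1200 (.red [.f 1200 1 3, .f 1072 3 1, .f 1080 1 5] 151 136 [4, 1] [(151,
  136, [4, 1]), (167, 136, [4, 1, 1])]) .no .no (.br 1328 (.br 1203 (.con 136 [4, 4, 1, 1]) .no
  .no (.red [.t 938 3 1, .f 1067 3 1] 150 136 [4, 4, 1] [(134, 136, [4, 4]), (150, 136, [4, 4,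
  1])]) .no .no) .no .no (.red [.f 1192 3 1, .f 1200 1 5] 166 136 [4, 4, 1, 1] [(166, 136, [4, 4,
  1, 1])]) .no .no) .no .no) .no (.hor [.f 1058 3 5] []) .no .no) (.red [.f 1066 5 3, .f 1065 3 5,
  .t 1209 2 4] 151 136 [4, 1] [(151, 136, [4, 1])]) .no) (.hor [.f 1202 3 5] []) .no .no

def c22t351 : Tr4 :=
  .br 1202 (.hor [.f 1201 1 5] []) .no .no (.use 342) (.use 343) .no

def c22t352 : Tr4 :=
  .br 1210 (.use 348) .no (.use 351) (.use 350) (.use 114) .no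

def c22t353 : Tr4 :=
  .br 1203 (.con 136 [4, 4, 1, 1]) .no .no (.red [.t 938 3 1, .f 1067 3 1] 150 136 [4, 4, 1]
  [(134, 136, [4, 4]), (150, 136, [4, 4, 1])]) .no .no

def c22t354 : Tr4 :=
  .br 1200 (.red [.f 1200 1 3, .f 1072 3 1, .f 1080 1 5] 151 136 [4, 1] [(151, 136, [4, 1]), (167,
  136, [4, 1, 1])]) .no .no (.use 353) .no .no

def c22t355 : Tr4 :=
  .br 1203 (.con 136 [4, 4, 1, 1]) .no .no (.red [.f 1066 5 3, .f 1067 3 1] 150 136 [4, 4, 1]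
  [(150, 136, [4, 4, 1])]) .no .no

def c22t356 : Tr4 :=
  .br 1200 (.red [.f 1200 1 3, .f 1072 3 1, .f 1080 1 5] 151 136 [4, 1] [(151, 136, [4, 1]), (167,
  136, [4, 1, 1])]) .no .no (.use 355) .no .no

def c22t357 : Tr4 :=
  .br 1066 (.red [.t 1065 3 1, .f 1073 1 3] 151 136 [4, 1] [(150, 136, [4, 4, 1]), (151, 136, [4,
  1])]) .no .no (.br 1194 (.br 1067 (.use 345) (.use 354) .no (.hor [.f 1058 3 5] []) .no .no) .no
  .no (.red [.f 1058 3 1, .t 1065 3 1] 150 136 [4, 4, 1] [(149, 136, [4, 4, 1, 4]), (150, 136, [4,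
  4, 1])]) (.br 1067 .no (.use 354) .no (.hor [.f 1058 3 5] []) .no .no) (.red [.f 1193 5 3, .f
  1065 3 1, .f 1073 1 3] 151 136 [4, 1] [(150, 136, [4, 4, 1]), (151, 136, [4, 1])])) (.use 356)
  .no

def c22t358 : Tr4 :=
  .br 1194 (.use 345) .no .no (.red [.f 1058 3 1, .t 1065 3 1] 150 136 [4, 4, 1] [(149, 136, [4,
  4, 4, 1]), (150, 136, [4, 4, 1])]) .no (.red [.f 1193 5 3, .f 1065 3 1, .f 1073 1 3] 151 136 [4,
  1] [(150, 136, [4, 4, 1]), (151, 136, [4, 1])])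

def c22t359 : Tr4 :=
  .br 1200 (.red [.f 1200 1 3, .f 1072 3 1, .f 1080 1 5] 151 136 [4, 1] [(151, 136, [4, 1]), (167,
  136, [4, 1, 1])]) .no .no (.use 103) .no .no

def c22t360 : Tr4 :=
  .br 1210 (.br 1211 (.hor [.f 1210 1 5] []) .no (.use 357) (.con 136 [4, 1, 1]) .no .no) .no (.br
  1219 (.br 1211 (.red [.f 1211 1 3, .f 1210 3 5] 168 136 [1, 1] [(168, 136, [1, 1])]) .no .no
  (.con 136 [4, 1, 1]) .no .no) .no (.br 1211 (.br 1066 (.red [.t 1065 3 1, .f 1073 1 3] 151 136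
  [4, 1] [(150, 136, [4, 4, 1]), (151, 136, [4, 1])]) .no .no (.br 939 (.br 1200 (.red [.f 1200 1
  3, .f 1072 3 1, .f 1080 1 5] 151 136 [4, 1] [(151, 136, [4, 1]), (167, 136, [4, 1, 1])]) .no .no
  (.use 102) .no .no) (.use 349) (.hor [.f 938 3 5] []) (.br 1067 (.use 358) .no .no (.hor [.f
  1058 3 5] []) .no .no) .no .no) (.use 359) .no) .no .no (.con 136 [4, 1, 1]) .no .no) (.use 357)
  .no .no) .no (.use 114) .no

def c22t361 : Tr4 :=
  .br 1192 .no (.br 1200 .no .no .no .no .no .no) (.red [.f 1192 3 1, .f 1200 1 5] 166 136 [4, 1,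
  4, 1] [(166, 136, [4, 1, 4, 1])]) (.br 1203 (.con 136 [4, 1, 1, 4]) .no .no (.con 136 [4, 1, 1,
  4, 2]) .no .no) (.red [.t 1328 4 2] 166 136 [4, 1, 1, 4] [(166, 136, [4, 1, 1, 4])]) .no

def c22t362 : Tr4 :=
  .br 1328 (.br 1203 (.con 136 [4, 1, 1, 4]) .no .no (.use 146) .no .no) (.red [.f 1200 1 3, .f
  1072 3 1, .f 1080 1 5] 151 136 [4, 1] [(151, 136, [4, 1]), (167, 136, [4, 1, 1])]) .no (.use
  361) .no .no

def c22t363 : Tr4 :=
  .br 819 .no (.hor [.f 691 1 3, .t 826 1 4, .f 945 3 5] [(103, 136, [2, 2, 4]), (119, 136, [2,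
  4])]) .no (.br 818 .no (.use 362) .no (.use 123) .no (.red [.f 946 5 1, .t 953 4 2, .t 1089 2 4]
  136 136 [] [(119, 120, [4]), (136, 136, [])])) .no (.red [.f 818 5 1, .f 818 1 3, .f 945 3 5, .t
  1089 2 4, .f 954 1 5] 136 136 [] [(119, 120, [4]), (136, 136, [])])

def c22t364 : Tr4 :=
  .br 1211 (.use 125) .no (.br 843 .no (.br 825 .no (.br 833 .no (.hor [.f 705 1 5] []) (.use 155)
  .no .no (.br 842 .no (.hor [.f 714 1 5] []) (.br 841 (.use 311) (.use 275) (.hor [.f 841 3 5]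
  []) .no .no (.use 105)) .no .no (.use 346))) (.br 819 .no (.hor [.f 691 1 3, .t 826 1 4, .f 945
  3 5] [(103, 121, [4, 4, 2]), (119, 121, [4, 4])]) .no (.br 818 .no (.use 362) .no (.use 120) .no
  (.red [.f 946 5 1, .t 953 4 2, .t 1089 2 4] 136 136 [] [(119, 120, [4]), (136, 136, [])])) .no
  (.red [.f 818 5 1, .f 818 1 3, .f 945 3 5, .t 1089 2 4, .f 954 1 5] 136 136 [] [(119, 120, [4]),
  (136, 136, [])])) (.hor [.f 817 3 1, .f 825 1 5] [(119, 121, [4, 4])]) .no (.use 363)) (.red [.f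
  843 3 1, .f 835 1 3, .f 962 3 5] 121 136 [2, 3] [(121, 136, [2, 3]), (122, 136, [2, 3, 3])]) .no
  .no (.red [.t 962 3 2] 121 136 [2, 3] [(121, 136, [2, 3])])) (.hor [.f 1202 3 5] []) .no .no

def c22t365 : Tr4 :=
  .br 1202 (.hor [.f 1201 1 5] []) .no .no (.use 342) (.use 343) .no

def c22t366 : Tr4 :=
  .br 1200 (.red [.f 1200 1 3, .f 1072 3 1, .f 1080 1 5] 151 136 [4, 1] [(151, 136, [4, 1]), (167,
  136, [4, 1, 1])]) .no .no (.br 1203 (.con 136 [4, 4, 1, 1]) .no .no (.red [.f 946 5 1, .f 939 1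
  3, .f 1067 3 1] 150 136 [4, 4, 1] [(134, 136, [4, 4]), (150, 136, [4, 4, 1])]) .no .no) .no .no

def c22t367 : Tr4 :=
  .br 1200 (.red [.f 1200 1 3, .f 1072 3 1, .f 1080 1 5] 151 136 [4, 1] [(151, 136, [4, 1]), (167,
  136, [4, 1, 1])]) .no .no (.br 1203 (.con 136 [4, 4, 1, 1]) .no .no (.red [.f 946 5 1, .f 939 1
  3, .f 1067 3 1] 150 136 [4, 4, 1] [(134, 136, [4, 4]), (150, 136, [4, 4, 1])]) .no .no) .no .no

def c22t368 : Tr4 :=
  .br 1200 (.red [.f 1200 1 3, .f 1072 3 1, .f 1080 1 5] 151 136 [4, 1] [(151, 136, [4, 1]), (167,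
  136, [4, 1, 1])]) .no .no (.use 113) .no .no

def c22t369 : Tr4 :=
  .br 1066 (.red [.t 1065 3 1, .f 1073 1 3] 151 136 [4, 1] [(150, 136, [4, 4, 1]), (151, 136, [4,
  1])]) (.red [.f 946 5 1, .f 938 1 3, .f 1065 3 5, .f 1073 5 1, .f 1073 1 3] 151 136 [4, 1]
  [(134, 150, [2]), (151, 136, [4, 1])]) .no (.br 1067 (.use 358) (.br 1218 (.hor [.f 1217 1 5]
  []) .no (.br 1219 (.br 1211 (.use 325) .no .no (.con 136 [4, 1, 1]) .no (.use 366)) .no (.hor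
  [.f 1218 3 5] []) (.use 367) .no .no) (.br 1211 (.use 115) .no (.use 367) (.con 136 [4, 1, 1])
  .no .no) (.br 1210 (.use 332) .no .no .no (.use 366) .no) .no) .no (.hor [.f 1058 3 5] []) .no
  .no) (.br 1211 (.use 359) .no (.use 356) (.con 136 [4, 1, 1]) .no (.use 368)) .no

def c22t370 : Tr4 :=
  .br 1211 (.hor [.f 1210 1 5] []) .no (.hor [.f 1210 1 3, .f 1210 3 5] [(168, 167, [3])]) (.con
  136 [4, 1, 1]) .no .no

def c22t371 : Tr4 :=
  .br 1211 (.use 115) .no (.hor [.f 1210 3 5] []) (.con 136 [4, 1, 1]) .no .no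

def c22t372 : Tr4 :=
  .br 1066 (.red [.t 1065 3 1, .f 1073 1 3] 151 136 [4, 1] [(150, 136, [4, 4, 1]), (151, 136, [4,
  1])]) (.red [.f 946 5 1, .f 938 1 3, .f 1065 3 5, .f 1073 5 1, .f 1073 1 3] 151 136 [4, 1]
  [(134, 150, [2]), (151, 136, [4, 1])]) .no (.br 1067 (.use 358) (.use 366) .no (.hor [.f 1058 3
  5] []) .no .no) (.use 368) .no

def c22t373 : Tr4 :=
  .br 1210 (.use 332) .no .no .no (.use 372) .no

def c22l10 : List Tr4 :=
  [c22t338, c22t339, c22t340, c22t341, c22t342, c22t343, c22t344, c22t345, c22t346, c22t347,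
  c22t348, c22t349, c22t350, c22t351, c22t352, c22t353, c22t354, c22t355, c22t356, c22t357,
  c22t358, c22t359, c22t360, c22t361, c22t362, c22t363, c22t364, c22t365, c22t366, c22t367,
  c22t368, c22t369, c22t370, c22t371, c22t372, c22t373]

theorem c22k10 : chkLF ⟨4, 0, 0, true, -8⟩ false 2 c22N 338 c22l10 = true := by decide +kernel

def c22t374 : Tr4 :=
  .br 1074 (.use 98) (.br 842 .no (.red [.f 706 1 3, .f 834 3 1, .f 834 1 5] 121 136 [2, 3] [(105,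
  136, [2, 3, 2]), (121, 136, [2, 3])]) (.br 1217 (.use 335) .no (.br 1218 (.br 1210 (.red [.f
  1210 1 3, .f 1082 3 1, .f 1081 1 5, .t 945 3 1, .f 953 1 3] 136 136 [] [(135, 136, [4]), (136,
  136, []), (152, 136, [1]), (168, 167, [3])]) .no .no (.use 338) (.use 341) .no) .no (.hor [.f
  1217 3 5] []) (.red [.f 1082 3 1, .f 1081 1 5, .t 945 3 1, .f 953 1 3] 136 136 [] [(135, 136,
  [4]), (136, 136, []), (152, 136, [1])]) (.use 334) .no) .no (.red [.t 1081 1 3, .t 945 3 1, .f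
  953 1 3] 136 136 [] [(135, 136, [4]), (136, 136, []), (152, 136, [1])]) .no) .no (.red [.t 962 3
  2] 121 136 [2, 3] [(121, 136, [2, 3])]) (.br 1217 (.use 335) .no (.br 1218 (.br 1210 (.red [.f
  1210 1 3, .f 1082 3 1, .f 1081 1 5, .t 945 3 1, .f 953 1 3] 136 136 [] [(135, 136, [4]), (136,
  136, []), (152, 136, [1]), (168, 167, [3])]) .no .no (.use 338) (.use 347) .no) .no (.hor [.f
  1217 3 5] []) (.red [.f 1082 3 1, .f 1081 1 5, .t 945 3 1, .f 953 1 3] 136 136 [] [(135, 136,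
  [4]), (136, 136, []), (152, 136, [1])]) (.use 334) .no) .no (.red [.t 1081 1 3, .t 945 3 1, .f
  953 1 3] 136 136 [] [(135, 136, [4]), (136, 136, []), (152, 136, [1])]) .no)) .no (.hor [.f 1065
  3 5] []) (.br 946 .no (.hor [.f 818 1 3, .f 945 3 5] [(119, 121, [4, 4])]) .no (.br 1201 (.use
  352) .no .no (.red [.f 1065 3 1, .f 1073 1 3] 151 136 [4, 1] [(150, 136, [4, 4, 1]), (151, 136,
  [4, 1])]) (.use 360) (.red [.t 1080 4 1] 151 136 [4, 1] [(151, 136, [4, 1])])) (.br 827 .no (.br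
  1201 (.br 1210 (.use 348) .no (.use 351) (.use 364) (.use 365) .no) .no .no (.red [.f 1065 3 1,
  .f 1073 1 3] 151 136 [4, 1] [(150, 136, [4, 4, 1]), (151, 136, [4, 1])]) (.br 1217 (.use 369)
  .no (.br 842 .no (.red [.f 706 1 3, .f 834 3 1, .f 834 1 5] 121 136 [2, 3] [(105, 136, [2, 3,
  2]), (121, 136, [2, 3])]) (.br 1218 (.br 1210 (.use 370) .no .no .no (.use 341) .no) .no (.hor
  [.f 1217 3 5] []) (.use 371) (.use 373) .no) .no (.red [.t 962 3 2] 121 136 [2, 3] [(121, 136,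
  [2, 3])]) (.br 1218 (.br 1210 (.use 370) .no .no .no (.use 347) .no) .no (.hor [.f 1217 3 5] [])
  (.use 371) (.use 373) .no)) .no (.red [.f 946 5 1, .t 1081 1 3, .t 945 3 1, .f 953 1 3] 136 136
  [] [(135, 136, [4]), (136, 136, []), (152, 136, [1])]) .no) (.red [.t 1080 4 1] 151 136 [4, 1]
  [(151, 136, [4, 1])])) .no (.hor [.t 826 1 4, .f 945 3 5] [(119, 121, [4, 4])]) .no .no) .no)
  .no

def c22t375 : Tr4 :=
  .br 1075 .no (.red [.f 947 1 3, .f 947 3 1, .t 946 4 1] 134 136 [4, 4] [(134, 136, [4, 4])]) .no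
  .no .no .no

def c22t376 : Tr4 :=
  .br 1067 (.con 136 [4, 4, 4, 1]) (.red [.f 939 1 3, .f 938 3 5] 134 136 [4, 4] [(134, 136, [4,
  4])]) .no (.hor [.f 1058 3 5] []) .no .no

def c22t377 : Tr4 :=
  .br 1210 (.br 1201 (.br 1202 (.red [.f 1202 1 3, .t 1209 2 4] 151 136 [4, 1] [(151, 136, [4,
  1]), (167, 136, [4, 1, 1])]) .no .no (.use 342) (.use 343) .no) .no .no (.br 1202 (.red [.f 1202
  1 3, .t 1209 2 4] 151 136 [4, 1] [(151, 136, [4, 1]), (167, 136, [4, 1, 1])]) .no .no (.hor [.f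
  1193 3 5] []) (.br 1200 (.red [.f 1200 1 3, .f 1072 3 1, .f 1080 1 5] 151 136 [4, 1] [(151, 136,
  [4, 1]), (167, 136, [4, 1, 1])]) .no .no (.use 63) .no .no) .no) (.red [.f 1073 5 1, .f 1073 1
  3] 151 136 [4, 1] [(151, 136, [4, 1])]) (.red [.t 1080 4 1] 151 136 [4, 1] [(151, 136, [4,
  1])])) .no (.use 64) (.red [.t 1209 2 4, .f 1072 3 5] 151 136 [4, 1] [(151, 136, [4, 1])]) (.use
  66) .no

def c22t378 : Tr4 :=
  .br 825 (.hor [.f 825 1 5] []) (.con 136 [4, 2, 3, 1]) .no (.con 136 [4, 2, 3, 1]) .no (.con 136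
  [4, 2, 3, 1])

def c22t379 : Tr4 :=
  .br 1217 (.use 335) .no .no .no (.red [.t 1081 1 3, .t 945 3 1, .f 953 1 3] 136 136 [] [(135,
  136, [4]), (136, 136, []), (152, 136, [1])]) .no

def c22t380 : Tr4 :=
  .br 946 .no (.hor [.f 818 1 3, .f 945 3 5] [(119, 136, [2, 4])]) .no (.use 352) (.br 1210 (.use
  348) .no (.use 351) (.br 827 .no (.br 1211 (.use 122) .no (.br 818 .no (.use 362) .no (.use 121)
  (.red [.f 818 5 1, .f 818 1 3, .f 945 3 5, .t 1089 2 4, .f 954 1 5] 136 136 [] [(119, 120, [4]),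
  (136, 136, [])]) (.red [.f 946 5 1, .t 953 4 2, .t 1089 2 4] 136 136 [] [(119, 120, [4]), (136,
  136, [])])) (.hor [.f 1202 3 5] []) .no .no) .no (.hor [.t 826 1 4, .f 945 3 5] [(119, 136, [2,
  4])]) .no .no) (.use 365) .no) .no

def c22t381 : Tr4 :=
  .br 946 .no (.hor [.f 818 1 3, .f 945 3 5] [(119, 136, [2, 4])]) .no (.use 352) (.br 1210 (.use
  348) .no (.use 351) (.br 827 .no (.br 1211 (.use 124) .no (.use 363) (.hor [.f 1202 3 5] []) .no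
  .no) .no (.hor [.t 826 1 4, .f 945 3 5] [(119, 136, [2, 4])]) .no .no) (.use 365) .no) .no

def c22t382 : Tr4 :=
  .br 1074 .no .no .no (.hor [.f 1065 3 5] []) (.use 360) .no

def c22t383 : Tr4 :=
  .br 953 .no (.hor [.f 825 1 5] []) .no (.br 946 (.use 379) (.hor [.f 818 1 3, .f 945 3 5] [(119,
  136, [2, 4])]) .no (.use 382) (.br 1074 .no .no .no (.hor [.f 1065 3 5] []) (.br 1217 (.use 369)
  .no .no .no (.red [.f 946 5 1, .t 1081 1 3, .t 945 3 1, .f 953 1 3] 136 136 [] [(135, 136, [4]),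
  (136, 136, []), (152, 136, [1])]) .no) .no) .no) .no .no

def c22t384 : Tr4 :=
  .br 1217 (.use 331) .no (.hor [.f 1217 3 5] []) .no .no .no

def c22t385 : Tr4 :=
  .br 1210 (.br 1218 (.use 370) .no (.use 384) .no (.use 332) (.red [.t 1081 1 3, .t 945 3 1, .f
  953 1 3] 136 136 [] [(135, 136, [4]), (136, 136, []), (152, 136, [1])])) .no (.red [.f 1082 3 1,
  .f 1081 1 5, .t 945 3 1, .f 953 1 3] 136 136 [] [(135, 136, [4]), (136, 136, []), (152, 136,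
  [1])]) (.use 337) (.use 344) .no

def c22t386 : Tr4 :=
  .br 1210 (.use 370) .no .no .no (.br 1219 (.hor [.f 1218 1 5] []) .no (.br 1098 (.hor [.f 1091 3
  1, .f 1098 1 5] [(153, 136, [3, 1])]) .no (.hor [.f 1097 3 5] []) .no .no .no) .no .no .no) .no

def c22t387 : Tr4 :=
  .br 1217 (.use 369) .no (.hor [.f 1217 3 5] []) .no .no .no

def c22t388 : Tr4 :=
  .br 1210 (.use 370) .no .no .no (.br 1219 (.hor [.f 1218 1 5] []) .no (.br 1098 (.hor [.t 1216 2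
  3, .f 1097 1 5] [(153, 169, [2])]) .no (.use 339) .no .no .no) .no .no .no) .no

def c22t389 : Tr4 :=
  .br 1201 (.br 953 .no (.hor [.f 825 1 5] []) .no (.br 825 .no (.br 1074 (.use 98) (.use 385) .no
  (.hor [.f 1065 3 5] []) (.use 380) .no) .no (.hor [.f 817 3 1, .f 825 1 5] [(119, 121, [4, 4])])
  .no (.br 1074 (.use 98) (.use 385) .no (.hor [.f 1065 3 5] []) (.use 381) .no)) .no .no) .no .no
  (.red [.f 1065 3 1, .f 1073 1 3] 151 136 [4, 1] [(150, 136, [4, 1, 4]), (151, 136, [4, 1])])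
  (.br 1097 (.use 383) .no (.br 953 .no (.hor [.f 825 1 5] []) .no (.br 946 (.br 1218 (.use 386)
  .no (.use 384) (.red [.f 1082 3 1, .f 1081 1 5, .t 945 3 1, .f 953 1 3] 136 136 [] [(135, 136,
  [4]), (136, 136, []), (152, 136, [1])]) (.use 334) (.red [.t 1081 1 3, .t 945 3 1, .f 953 1 3]
  136 136 [] [(135, 136, [4]), (136, 136, []), (152, 136, [1])])) (.hor [.f 818 1 3, .f 945 3 5]
  [(119, 121, [4, 4])]) .no (.use 382) (.br 1074 .no .no .no (.hor [.f 1065 3 5] []) (.br 1218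
  (.use 386) .no (.use 387) (.use 371) (.use 373) (.red [.f 946 5 1, .t 1081 1 3, .t 945 3 1, .f
  953 1 3] 136 136 [] [(135, 136, [4]), (136, 136, []), (152, 136, [1])])) .no) .no) .no .no) .no
  (.red [.t 961 1 3, .f 833 5 1, .f 826 1 3, .f 954 3 1, .f 962 1 3] 136 136 [] [(120, 136, [2]),
  (136, 136, [])]) (.br 953 .no (.hor [.f 825 1 5] []) .no (.br 946 (.br 1218 (.br 1217 (.use 335)
  .no (.use 388) .no .no .no) .no (.use 384) (.red [.f 1082 3 1, .f 1081 1 5, .t 945 3 1, .f 953 1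
  3] 136 136 [] [(135, 136, [4]), (136, 136, []), (152, 136, [1])]) (.use 334) (.red [.t 1081 1 3,
  .t 945 3 1, .f 953 1 3] 136 136 [] [(135, 136, [4]), (136, 136, []), (152, 136, [1])])) (.hor
  [.f 818 1 3, .f 945 3 5] [(119, 121, [4, 4])]) .no (.use 382) (.br 1074 .no .no .no (.hor [.f
  1065 3 5] []) (.br 1218 (.br 1217 (.use 369) .no (.use 388) .no .no .no) .no (.use 387) (.use
  371) (.use 373) (.red [.f 946 5 1, .t 1081 1 3, .t 945 3 1, .f 953 1 3] 136 136 [] [(135, 136,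
  [4]), (136, 136, []), (152, 136, [1])])) .no) .no) .no .no)) (.red [.t 1080 4 1] 151 136 [4, 1]
  [(151, 136, [4, 1])])

def c22t390 : Tr4 :=
  .br 1210 (.hor [.f 1210 1 5] []) .no .no (.dom 151 136 [4, 1]) .no .no

def c22t391 : Tr4 :=
  .br 1202 (.hor [.f 1201 1 5] []) .no .no (.con 136 [4, 1, 4, 1]) .no .no

def c22t392 : Tr4 :=
  .br 1067 (.con 136 [4, 4, 4]) (.br 938 .no (.hor [.f 809 1 5] []) .no (.con 136 [4, 4, 2, 4])
  .no .no) .no (.con 136 [4, 4, 4]) .no .no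

def c22t393 : Tr4 :=
  .br 938 .no (.hor [.f 809 1 5] []) .no (.con 136 [4, 4, 2, 4]) (.con 136 [4, 4, 2, 4]) .no

def c22t394 : Tr4 :=
  .br 818 .no (.br 819 (.br 809 .no (.con 136 [2, 4, 4, 2, 3]) (.red [.t 816 1 4] 118 136 [2, 4,
  4] [(118, 136, [2, 4, 4])]) (.con 136 [2, 4, 4, 2, 3]) (.con 136 [2, 4, 4, 2, 3]) (.con 136 [2,
  4, 4, 2, 3])) (.con 136 [2, 4, 4]) .no (.con 136 [2, 4, 4]) .no .no) .no (.use 213) (.con 136
  [2, 4, 4]) (.red [.t 953 2 4] 119 136 [2, 4] [(119, 136, [2, 4])])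

def c22t395 : Tr4 :=
  .br 937 .no (.use 393) .no (.hor [.f 928 3 5] []) (.red [.t 1073 2 4] 134 136 [4, 4] [(134, 136,
  [4, 4])]) .no

def c22t396 : Tr4 :=
  .br 1065 (.red [.t 1065 1 3, .f 1192 3 5, .t 1080 4 1] 151 136 [4, 1] [(150, 134, [1]), (151,
  136, [4, 1])]) (.red [.f 937 1 3] 134 136 [4, 4] [(134, 136, [4, 4])]) .no (.br 937 .no (.br 936
  (.use 392) (.hor [.f 808 1 5] []) .no (.use 393) .no .no) .no (.red [.f 929 3 1, .f 937 1 3] 134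
  136 [4, 4] [(133, 136, [4, 4, 4]), (134, 136, [4, 4])]) (.red [.t 1073 2 4] 134 136 [4, 4]
  [(134, 136, [4, 4])]) (.use 394)) .no (.br 936 .no (.red [.f 808 1 3] 118 136 [2, 4, 4] [(118,
  136, [2, 4, 4])]) .no (.use 395) (.use 394) .no)

def c22t397 : Tr4 :=
  .br 1201 (.use 391) .no .no .no (.red [.t 1065 1 3, .f 1192 3 5, .t 1080 4 1] 151 136 [4, 1]
  [(150, 134, [1]), (151, 136, [4, 1])]) .no

def c22t398 : Tr4 :=
  .br 1200 (.red [.f 1200 1 3, .f 1072 3 1, .f 1080 1 5] 151 136 [4, 1] [(151, 136, [4, 1]), (167,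
  136, [4, 1, 1])]) .no .no (.use 397) (.red [.t 1080 4 1] 151 136 [4, 1] [(151, 136, [4, 1])])
  .no

def c22t399 : Tr4 :=
  .br 824 .no (.br 816 .no (.red [.f 688 1 3, .f 688 3 5] 103 136 [2, 2, 4] [(103, 136, [2, 2,
  4])]) .no (.br 818 .no (.br 819 (.con 136 [2, 4, 4, 2, 3]) (.con 136 [2, 4, 4, 2]) .no (.con 136
  [2, 4, 4, 2, 3]) .no .no) .no (.br 819 (.con 136 [2, 4, 4, 2]) (.con 136 [2, 4, 4, 2]) .no (.con
  136 [2, 4, 4, 2]) .no .no) (.con 136 [2, 4, 4, 2]) (.red [.t 953 2 4] 119 136 [2, 4] [(119, 136,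
  [2, 4])])) (.red [.t 696 1 4] 103 136 [2, 2, 4] [(103, 136, [2, 2, 4])]) .no) .no (.br 818 .no
  (.br 819 (.con 136 [2, 4, 4, 2, 3, 3]) (.con 136 [2, 4, 4, 2, 3, 3]) .no (.con 136 [2, 4, 4, 2,
  3, 3]) .no .no) .no (.use 232) (.con 136 [2, 4, 4, 2, 3, 3]) (.red [.t 953 2 4, .f 816 3 5] 119
  136 [2, 4] [(119, 136, [2, 4])])) .no .no

def c22t400 : Tr4 :=
  .br 947 .no .no .no (.use 224) .no .no

def c22t401 : Tr4 :=
  .br 819 (.dom 119 136 [2, 4]) (.hor [.f 690 1 5] []) .no (.use 400) .no .no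

def c22t402 : Tr4 :=
  .br 818 .no (.use 401) .no (.use 232) (.use 218) (.red [.t 953 2 4, .f 816 3 5] 119 136 [2, 4]
  [(119, 136, [2, 4])])

def c22t403 : Tr4 :=
  .br 816 .no (.con 136 [2, 4, 2, 3]) (.use 402) (.con 136 [2, 4, 2, 3]) (.con 136 [2, 4, 2, 3])
  .no

def c22t404 : Tr4 :=
  .br 697 .no (.hor [.f 569 1 5] []) .no (.use 399) .no (.use 403)

def c22t405 : Tr4 :=
  .br 937 .no (.use 404) .no (.red [.f 929 3 1, .f 937 1 3] 134 136 [4, 4] [(133, 136, [4, 4, 4]),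
  (134, 136, [4, 4])]) (.red [.t 1073 2 4, .f 936 3 5] 134 136 [4, 4] [(134, 136, [4, 4])]) .no

def c22t406 : Tr4 :=
  .br 697 .no (.br 816 .no (.con 136 [2, 4, 2, 2]) (.use 402) (.con 136 [2, 4, 2, 2]) (.con 136
  [2, 4, 2, 2]) .no) .no (.use 399) .no (.use 403)

def c22t407 : Tr4 :=
  .br 697 .no (.con 136 [2, 4, 2, 2]) .no (.use 394) .no (.con 136 [2, 4, 2, 2])

def c22t408 : Tr4 :=
  .br 944 .no (.use 407) .no .no .no .no

def c22t409 : Tr4 :=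
  .br 937 .no (.br 936 (.use 392) (.hor [.f 808 1 5] []) (.use 406) (.use 393) .no .no) .no (.red
  [.f 929 3 1, .f 937 1 3] 134 136 [4, 4] [(133, 136, [4, 4, 4]), (134, 136, [4, 4])]) (.red [.t
  1073 2 4] 134 136 [4, 4] [(134, 136, [4, 4])]) (.use 408)

def c22t410 : Tr4 :=
  .br 944 .no (.br 936 .no (.red [.f 808 1 3] 118 136 [2, 4, 4] [(118, 136, [2, 4, 4])]) .no (.use
  395) (.use 407) .no) .no (.red [.t 944 4 1] 134 136 [4, 4] [(134, 136, [4, 4])]) .no .no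

def c22l11 : List Tr4 :=
  [c22t374, c22t375, c22t376, c22t377, c22t378, c22t379, c22t380, c22t381, c22t382, c22t383,
  c22t384, c22t385, c22t386, c22t387, c22t388, c22t389, c22t390, c22t391, c22t392, c22t393,
  c22t394, c22t395, c22t396, c22t397, c22t398, c22t399, c22t400, c22t401, c22t402, c22t403,
  c22t404, c22t405, c22t406, c22t407, c22t408, c22t409, c22t410]

theorem c22k11 : chkLF ⟨4, 0, 0, true, -8⟩ false 2 c22N 374 c22l11 = true := by decide +kernel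

def c22t411 : Tr4 :=
  .br 816 .no (.con 136 [2, 4, 2]) (.br 818 .no (.br 698 .no (.br 699 .no (.hor [.f 570 1 5] [])
  (.br 697 .no (.hor [.f 569 1 5] []) .no (.con 136 [2, 4, 4, 2, 3]) .no (.con 136 [2, 2, 2]))
  (.red [.f 691 3 1, .f 690 1 5] 103 136 [2, 2, 4] [(103, 136, [2, 2, 4])]) .no .no) (.red [.f 698
  3 1, .f 705 1 5] 104 136 [2, 2] [(104, 136, [2, 2])]) .no (.red [.t 818 2 3] 103 136 [2, 2, 4]
  [(103, 136, [2, 2, 4])]) (.red [.t 833 2 4] 104 136 [2, 2] [(104, 136, [2, 2])])) .no (.con 136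
  [2, 4, 4, 2]) .no (.red [.t 953 2 4, .f 816 3 5] 119 136 [2, 4] [(119, 136, [2, 4])])) (.con 136
  [2, 4, 2]) (.con 136 [2, 4, 2]) .no

def c22t412 : Tr4 :=
  .br 937 .no (.use 411) .no (.red [.f 929 3 1, .f 937 1 3] 134 136 [4, 4] [(133, 136, [4, 4, 4]),
  (134, 136, [4, 4])]) (.red [.t 1073 2 4, .f 936 3 5] 134 136 [4, 4] [(134, 136, [4, 4])]) .no

def c22t413 : Tr4 :=
  .br 827 .no (.br 698 .no (.br 944 .no (.br 1200 (.red [.f 1200 1 3, .f 1072 3 1, .f 1080 1 5]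
  151 136 [4, 1] [(151, 136, [4, 1]), (167, 136, [4, 1, 1])]) .no .no (.br 697 .no (.hor [.f 569 1
  5] []) .no (.br 1201 (.use 391) .no .no (.hor [.f 1192 3 5] []) (.use 396) .no) .no (.con 136
  [2, 4, 2, 3])) (.red [.t 1080 4 1] 151 136 [4, 1] [(151, 136, [4, 1])]) .no) .no (.br 1065 (.use
  398) (.red [.f 937 1 3, .f 936 3 5] 134 136 [4, 4] [(134, 136, [4, 4])]) .no (.use 405) .no
  (.red [.t 944 4 1] 134 136 [4, 4] [(134, 136, [4, 4])])) .no .no) (.red [.f 698 3 1, .f 698 1 5]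
  104 136 [2, 2] [(104, 136, [2, 2])]) (.br 1065 (.use 398) (.red [.f 937 1 3] 134 136 [4, 4]
  [(134, 136, [4, 4])]) .no (.use 409) .no (.use 410)) .no (.red [.t 833 2 4, .f 698 1 5] 104 136
  [2, 2] [(104, 136, [2, 2])])) .no (.br 944 .no (.con 136 [2, 4, 2]) .no (.br 1065 (.use 398)
  (.red [.f 937 1 3, .f 936 3 5] 134 136 [4, 4] [(134, 136, [4, 4])]) .no (.use 412) .no (.red [.t
  944 4 1] 134 136 [4, 4] [(134, 136, [4, 4])])) .no .no) .no .no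

def c22t414 : Tr4 :=
  .br 1200 (.red [.f 1200 1 3, .f 1072 3 1, .f 1080 1 5] 151 136 [4, 1] [(151, 136, [4, 1]), (167,
  136, [4, 1, 1])]) .no .no (.red [.t 1065 1 3, .f 1192 3 5, .t 1080 4 1] 151 136 [4, 1] [(150,
  149, [3]), (151, 136, [4, 1])]) .no .no

def c22t415 : Tr4 :=
  .br 1074 (.hor [.f 1074 1 5] []) .no .no (.br 833 .no (.br 1219 (.br 1211 (.use 390) .no .no .no
  .no (.use 413)) .no (.hor [.f 1218 3 5] []) (.br 1210 (.br 1202 (.red [.f 1202 1 3] 167 136 [4,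
  1, 1] [(167, 136, [4, 1, 1])]) .no .no (.br 1201 (.use 342) .no .no (.hor [.f 1193 3 5] []) .no
  (.red [.t 1080 4 1] 151 136 [4, 1] [(151, 136, [4, 1])])) .no (.br 827 .no (.br 698 .no (.br 944
  .no (.br 697 .no (.hor [.f 569 1 5] []) .no (.br 1200 (.red [.f 1200 1 3, .f 1072 3 1, .f 1080 1
  5] 151 136 [4, 1] [(151, 136, [4, 1]), (167, 136, [4, 1, 1])]) .no .no (.use 396) .no .no) .no
  (.con 136 [2, 4, 2, 3])) .no (.br 1065 (.use 414) (.red [.f 937 1 3, .f 936 3 5] 134 136 [4, 4]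
  [(134, 136, [4, 4])]) .no (.use 405) .no (.red [.t 944 4 1] 134 136 [4, 4] [(134, 136, [4,
  4])])) .no .no) (.red [.f 698 3 1, .f 698 1 5] 104 136 [2, 2] [(104, 136, [2, 2])]) (.br 1065
  (.use 414) (.red [.f 937 1 3] 134 136 [4, 4] [(134, 136, [4, 4])]) .no (.use 409) .no (.use
  410)) .no (.red [.t 833 2 4, .f 698 1 5] 104 136 [2, 2] [(104, 136, [2, 2])])) .no (.br 944 .no
  (.con 136 [2, 4, 2]) .no (.br 1065 (.use 414) (.red [.f 937 1 3, .f 936 3 5] 134 136 [4, 4]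
  [(134, 136, [4, 4])]) .no (.use 412) .no (.red [.t 944 4 1] 134 136 [4, 4] [(134, 136, [4,
  4])])) .no .no) .no .no)) .no .no (.dom 151 136 [4, 1]) .no .no) .no .no) (.hor [.f 832 3 5] [])
  .no .no .no) .no .no

def c22t416 : Tr4 :=
  .br 1210 (.con 136 [4, 1, 1]) .no .no (.hor [.f 1202 3 5] []) .no .no

def c22t417 : Tr4 :=
  .br 1066 (.br 1203 (.con 136 [4, 4, 1, 1]) .no .no (.red [.t 1194 2 3, .t 1073 2 4] 134 136 [4,
  4] [(134, 136, [4, 4]), (150, 136, [4, 4, 1])]) .no .no) .no .no (.hor [.f 1057 3 5] []) (.red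
  [.f 1066 5 3, .t 1073 2 4] 134 136 [4, 4] [(134, 136, [4, 4])]) .no

def c22t418 : Tr4 :=
  .br 1201 (.use 100) .no .no (.hor [.f 1192 3 5] []) (.br 944 .no (.use 215) .no (.br 1065 (.use
  68) (.red [.f 937 1 3, .f 936 3 5] 134 136 [4, 4] [(134, 136, [4, 4])]) .no (.br 937 .no (.use
  221) .no (.red [.f 929 3 1, .f 937 1 3] 134 136 [4, 4] [(133, 136, [4, 4, 4]), (134, 136, [4,
  4])]) (.use 417) .no) (.use 239) (.red [.t 944 4 1] 134 136 [4, 4] [(134, 136, [4, 4])])) .no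
  .no) .no

def c22t419 : Tr4 :=
  .br 1201 (.use 100) .no .no (.hor [.f 1192 3 5] []) (.br 944 .no (.use 242) .no (.br 1065 (.use
  68) (.red [.f 937 1 3, .f 936 3 5] 134 136 [4, 4] [(134, 136, [4, 4])]) .no (.br 937 .no (.use
  244) .no (.red [.f 929 3 1, .f 937 1 3] 134 136 [4, 4] [(133, 136, [4, 4, 4]), (134, 136, [4,
  4])]) (.use 417) .no) (.use 246) (.red [.t 944 4 1] 134 136 [4, 4] [(134, 136, [4, 4])])) .no
  .no) .no

def c22t420 : Tr4 :=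
  .br 1328 (.br 1203 (.con 136 [4, 4, 1, 1]) .no .no (.red [.t 1194 2 3, .t 1073 2 4] 134 136 [4,
  4] [(134, 136, [4, 4]), (150, 136, [4, 4, 1])]) .no .no) .no .no (.use 361) .no .no

def c22t421 : Tr4 :=
  .br 1201 (.use 420) .no .no (.hor [.f 1192 3 5] []) .no .no

def c22t422 : Tr4 :=
  .br 1066 (.br 1210 (.br 1202 (.red [.f 1202 1 3] 167 136 [4, 1, 1] [(167, 136, [4, 1, 1])]) .no
  .no .no (.red [.f 1074 5 1, .f 1066 1 3] 150 136 [4, 4, 1] [(150, 136, [4, 4, 1])]) (.br 1337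
  (.br 1328 (.use 316) .no .no (.red [.f 1192 3 1, .f 1200 1 3] 167 136 [4, 1, 1] [(166, 136, [4,
  4, 1, 1]), (167, 136, [4, 1, 1])]) (.br 1193 (.red [.t 1192 3 1, .f 1200 1 3] 167 136 [4, 1, 1]
  [(166, 136, [4, 4, 1, 1]), (167, 136, [4, 1, 1])]) .no .no (.red [.f 1057 3 1, .f 1065 1 5, .f
  937 5 1, .f 937 1 3] 134 136 [4, 4] [(134, 136, [4, 4]), (149, 165, [2])]) .no .no) .no) .no .no
  (.red [.t 1337 4 2] 167 136 [4, 1, 1] [(167, 136, [4, 1, 1])]) .no .no)) .no .no (.use 421) .no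
  .no) .no .no (.hor [.f 1057 3 5] []) (.red [.f 1066 5 3, .t 1073 2 4] 134 136 [4, 4] [(134, 136,
  [4, 4])]) .no

def c22t423 : Tr4 :=
  .br 1075 (.use 415) (.con 136 [4, 4]) .no (.use 59) .no (.br 833 .no (.br 1219 (.br 827 .no (.br
  698 .no (.br 1200 (.red [.f 1200 1 3, .f 1072 3 1, .f 1080 1 5] 151 136 [4, 1] [(151, 136, [4,
  1]), (167, 136, [4, 1, 1])]) .no .no (.br 1211 (.br 1210 (.hor [.f 1210 1 5] []) .no .no (.use
  240) .no .no) .no .no (.use 416) .no (.use 418)) (.red [.t 1080 4 1] 151 136 [4, 1] [(151, 136,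
  [4, 1])]) .no) (.red [.f 698 3 1, .f 698 1 5] 104 136 [2, 2] [(104, 136, [2, 2])]) (.br 1200
  (.red [.f 1200 1 3, .f 1072 3 1, .f 1080 1 5] 151 136 [4, 1] [(151, 136, [4, 1]), (167, 136, [4,
  1, 1])]) .no .no (.br 1211 (.br 1210 (.hor [.f 1210 1 5] []) .no .no (.use 247) .no .no) .no .no
  (.use 416) .no (.use 419)) (.red [.t 1080 4 1] 151 136 [4, 1] [(151, 136, [4, 1])]) .no) .no
  (.red [.t 833 2 4, .f 698 1 5] 104 136 [2, 2] [(104, 136, [2, 2])])) .no (.use 249) .no .no) .no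
  (.hor [.f 1218 3 5] []) (.br 827 .no (.br 698 .no (.br 1200 (.red [.f 1200 1 3, .f 1072 3 1, .f
  1080 1 5] 151 136 [4, 1] [(151, 136, [4, 1]), (167, 136, [4, 1, 1])]) .no .no (.br 944 .no (.use
  215) .no (.br 1065 (.use 68) (.red [.f 937 1 3, .f 936 3 5] 134 136 [4, 4] [(134, 136, [4, 4])])
  .no (.br 937 .no (.use 221) .no (.red [.f 929 3 1, .f 937 1 3] 134 136 [4, 4] [(133, 136, [4, 4,
  4]), (134, 136, [4, 4])]) (.use 422) .no) (.use 239) (.red [.t 944 4 1] 134 136 [4, 4] [(134,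
  136, [4, 4])])) .no .no) (.red [.t 1080 4 1] 151 136 [4, 1] [(151, 136, [4, 1])]) .no) (.red [.f
  698 3 1, .f 698 1 5] 104 136 [2, 2] [(104, 136, [2, 2])]) (.br 1200 (.red [.f 1200 1 3, .f 1072
  3 1, .f 1080 1 5] 151 136 [4, 1] [(151, 136, [4, 1]), (167, 136, [4, 1, 1])]) .no .no (.br 944
  .no (.use 242) .no (.br 1065 (.use 68) (.red [.f 937 1 3, .f 936 3 5] 134 136 [4, 4] [(134, 136,
  [4, 4])]) .no (.br 937 .no (.use 244) .no (.red [.f 929 3 1, .f 937 1 3] 134 136 [4, 4] [(133,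
  136, [4, 4, 4]), (134, 136, [4, 4])]) (.use 422) .no) (.use 246) (.red [.t 944 4 1] 134 136 [4,
  4] [(134, 136, [4, 4])])) .no .no) (.red [.t 1080 4 1] 151 136 [4, 1] [(151, 136, [4, 1])]) .no)
  .no (.red [.t 833 2 4, .f 698 1 5] 104 136 [2, 2] [(104, 136, [2, 2])])) .no (.use 249) .no .no)
  .no .no) (.hor [.f 832 3 5] []) .no .no .no)

def c22t424 : Tr4 :=
  .br 1210 (.use 332) .no .no (.br 1075 (.dom 151 136 [4, 1]) (.con 136 [4, 4]) .no (.use 59) .no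
  (.br 1211 (.use 250) .no .no (.hor [.f 1202 3 5] []) .no .no)) (.red [.f 1210 5 3, .f 1082 3 1,
  .f 1081 1 5, .t 945 1 3, .f 1072 3 5, .t 960 4 1] 136 136 [] [(135, 119, [1]), (136, 136, []),
  (152, 136, [1])]) .no

def c22t425 : Tr4 :=
  .br 1066 (.br 1200 (.red [.f 1200 1 3, .f 1072 3 1, .f 1080 1 5] 151 136 [4, 1] [(151, 136, [4,
  1]), (167, 136, [4, 1, 1])]) .no .no (.use 420) .no .no) .no .no (.hor [.f 1057 3 5] []) (.red
  [.f 1066 5 3, .t 1073 2 4] 134 136 [4, 4] [(134, 136, [4, 4])]) .no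

def c22t426 : Tr4 :=
  .br 1075 (.dom 151 136 [4, 1]) (.con 136 [4, 4]) .no (.use 59) .no (.br 1211 (.use 250) .no (.br
  833 .no (.br 827 .no (.br 698 .no (.br 1201 (.br 944 .no (.use 215) .no (.br 1065 (.br 1200
  (.red [.f 1200 1 3, .f 1072 3 1, .f 1080 1 5] 151 136 [4, 1] [(151, 136, [4, 1]), (167, 136, [4,
  1, 1])]) .no .no (.use 68) .no .no) (.red [.f 937 1 3, .f 936 3 5] 134 136 [4, 4] [(134, 136,
  [4, 4])]) .no (.br 937 .no (.use 221) .no (.red [.f 929 3 1, .f 937 1 3] 134 136 [4, 4] [(133,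
  136, [4, 4, 4]), (134, 136, [4, 4])]) (.use 425) .no) (.use 239) (.red [.t 944 4 1] 134 136 [4,
  4] [(134, 136, [4, 4])])) .no .no) .no .no (.br 944 .no (.use 215) .no (.br 1065 .no (.red [.f
  937 1 3, .f 936 3 5] 134 136 [4, 4] [(134, 136, [4, 4])]) .no (.br 937 .no (.use 221) .no (.red
  [.f 929 3 1, .f 937 1 3] 134 136 [4, 4] [(133, 136, [4, 4, 4]), (134, 136, [4, 4])]) (.br 1066
  (.br 1200 (.red [.f 1200 1 3, .f 1072 3 1, .f 1080 1 5] 151 136 [4, 1] [(151, 136, [4, 1]),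
  (167, 136, [4, 1, 1])]) .no .no (.use 421) .no .no) .no .no (.hor [.f 1057 3 5] []) (.red [.f
  1066 5 3, .t 1073 2 4] 134 136 [4, 4] [(134, 136, [4, 4])]) .no) .no) (.use 239) (.red [.t 944 4
  1] 134 136 [4, 4] [(134, 136, [4, 4])])) .no .no) .no (.red [.t 1080 4 1] 151 136 [4, 1] [(151,
  136, [4, 1])])) (.red [.f 698 3 1, .f 698 1 5] 104 136 [2, 2] [(104, 136, [2, 2])]) (.br 1200
  (.red [.f 1200 1 3, .f 1072 3 1, .f 1080 1 5] 151 136 [4, 1] [(151, 136, [4, 1]), (167, 136, [4,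
  1, 1])]) .no .no (.br 1201 (.br 944 .no (.use 242) .no (.br 1065 (.use 68) (.red [.f 937 1 3, .f
  936 3 5] 134 136 [4, 4] [(134, 136, [4, 4])]) .no (.br 937 .no (.use 244) .no (.red [.f 929 3 1,
  .f 937 1 3] 134 136 [4, 4] [(133, 136, [4, 4, 4]), (134, 136, [4, 4])]) (.use 425) .no) (.use
  246) (.red [.t 944 4 1] 134 136 [4, 4] [(134, 136, [4, 4])])) .no .no) .no .no (.hor [.f 1192 3
  5] []) .no .no) (.red [.t 1080 4 1] 151 136 [4, 1] [(151, 136, [4, 1])]) .no) .no (.red [.t 833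
  2 4, .f 698 1 5] 104 136 [2, 2] [(104, 136, [2, 2])])) .no (.use 249) .no .no) (.hor [.f 832 3
  5] []) .no .no .no) (.hor [.f 1202 3 5] []) .no .no)

def c22t427 : Tr4 :=
  .br 833 .no (.br 1075 (.br 1074 (.hor [.f 1074 1 5] []) .no .no (.use 413) .no .no) (.con 136
  [4, 4]) .no (.use 59) .no (.br 827 .no (.br 698 .no (.br 1200 (.red [.f 1200 1 3, .f 1072 3 1,
  .f 1080 1 5] 151 136 [4, 1] [(151, 136, [4, 1]), (167, 136, [4, 1, 1])]) .no .no (.use 418)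
  (.red [.t 1080 4 1] 151 136 [4, 1] [(151, 136, [4, 1])]) .no) (.red [.f 698 3 1, .f 698 1 5] 104
  136 [2, 2] [(104, 136, [2, 2])]) (.br 1200 (.red [.f 1200 1 3, .f 1072 3 1, .f 1080 1 5] 151 136
  [4, 1] [(151, 136, [4, 1]), (167, 136, [4, 1, 1])]) .no .no (.use 419) (.red [.t 1080 4 1] 151
  136 [4, 1] [(151, 136, [4, 1])]) .no) .no (.red [.t 833 2 4, .f 698 1 5] 104 136 [2, 2] [(104,
  136, [2, 2])])) .no (.use 249) .no .no)) (.hor [.f 832 3 5] []) .no .no .no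

def c22t428 : Tr4 :=
  .br 843 .no (.br 842 .no (.hor [.f 714 1 5] []) (.br 841 (.red [.t 969 2 4, .f 834 1 5] 121 136
  [2, 3] [(121, 136, [2, 3])]) (.con 136 [2, 3, 3, 2]) (.hor [.f 841 3 5] []) .no .no (.con 136
  [2, 3, 2, 3])) .no .no (.red [.f 833 5 3, .f 834 3 1] 121 136 [2, 3] [(121, 136, [2, 3])]))
  (.red [.f 843 3 1, .f 835 1 3, .f 962 3 5] 121 136 [2, 3] [(121, 136, [2, 3]), (122, 136, [2, 3,
  3])]) .no .no (.red [.t 962 3 2] 121 136 [2, 3] [(121, 136, [2, 3])])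

def c22l12 : List Tr4 :=
  [c22t411, c22t412, c22t413, c22t414, c22t415, c22t416, c22t417, c22t418, c22t419, c22t420,
  c22t421, c22t422, c22t423, c22t424, c22t425, c22t426, c22t427, c22t428]

theorem c22k12 : chkLF ⟨4, 0, 0, true, -8⟩ false 2 c22N 411 c22l12 = true := by decide +kernel

def c22t429 : Tr4 :=
  .br 954 .no (.br 834 .no (.br 953 .no (.hor [.f 825 1 5] []) .no (.br 1073 (.red [.f 1073 1 3,
  .f 1072 3 5] 151 136 [4, 1] [(151, 136, [4, 1])]) .no .no (.use 374) (.use 377) .no) .no .no)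
  (.red [.f 834 3 1, .f 834 1 5] 121 136 [2, 3] [(121, 136, [2, 3])]) .no .no (.br 969 (.red [.f
  961 1 3, .f 961 3 5, .f 833 5 1, .f 826 1 3, .f 954 3 1, .t 1089 3 2] 136 136 [] [(120, 136,
  [2]), (136, 136, [])]) (.red [.t 969 2 4, .f 834 1 5] 121 136 [2, 3] [(121, 136, [2, 3])]) (.br
  1073 (.red [.f 1073 1 3, .f 1072 3 5] 151 136 [4, 1] [(151, 136, [4, 1])]) (.use 378) .no (.br
  1201 (.br 968 (.br 1097 (.br 953 .no (.hor [.f 825 1 5] []) .no (.br 825 .no (.br 1074 (.use 98)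
  (.use 379) .no (.hor [.f 1065 3 5] []) (.use 380) .no) .no (.hor [.f 817 3 1, .f 825 1 5] [(119,
  121, [4, 4])]) .no (.br 1074 (.use 98) (.use 379) .no (.hor [.f 1065 3 5] []) (.use 381) .no))
  .no .no) .no (.hor [.f 969 3 1, .f 968 1 5] [(138, 122, [1])]) .no (.red [.t 961 1 3, .f 833 5
  1, .f 826 1 3, .f 954 3 1, .f 962 1 3] 136 136 [] [(120, 136, [2]), (136, 136, [])]) .no) (.con
  136 [2, 3, 3]) (.hor [.f 968 3 5] []) .no .no .no) .no .no (.red [.f 1065 3 1, .f 1073 1 3] 151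
  136 [4, 1] [(150, 136, [4, 1, 4]), (151, 136, [4, 1])]) (.br 968 (.br 1097 (.use 383) .no (.hor
  [.f 969 3 1, .f 968 1 5] [(138, 122, [1])]) .no (.red [.t 961 1 3, .f 833 5 1, .f 826 1 3, .f
  954 3 1, .f 962 1 3] 136 136 [] [(120, 136, [2]), (136, 136, [])]) .no) (.con 136 [2, 3, 3])
  (.hor [.f 968 3 5] []) .no .no .no) (.red [.t 1080 4 1] 151 136 [4, 1] [(151, 136, [4, 1])]))
  (.use 377) .no) .no .no (.br 1073 (.red [.f 1073 1 3, .f 1072 3 5] 151 136 [4, 1] [(151, 136,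
  [4, 1])]) (.use 378) .no (.use 389) (.use 377) .no))) .no (.br 1073 (.red [.f 1073 1 3, .f 1072
  3 5] 151 136 [4, 1] [(151, 136, [4, 1])]) (.br 825 (.br 826 .no (.use 212) (.br 832 .no (.use
  211) (.br 1217 (.br 1218 (.hor [.f 1217 1 5] []) .no (.use 423) (.red [.f 1082 3 1, .f 1081 1 5,
  .t 945 1 3, .f 1072 3 5, .t 960 4 1] 136 136 [] [(135, 119, [1]), (136, 136, []), (152, 136,
  [1])]) (.use 424) .no) .no (.br 1218 (.br 1210 (.use 370) .no .no (.use 426) (.use 427) .no) .no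
  (.hor [.f 1217 3 5] []) (.red [.f 1082 3 1, .f 1081 1 5, .t 945 1 3, .f 1072 3 5, .t 960 4 1]
  136 136 [] [(135, 119, [1]), (136, 136, []), (152, 136, [1])]) (.use 424) .no) .no (.red [.t
  1081 1 3, .t 945 1 3, .f 1072 3 5, .t 960 4 1] 136 136 [] [(135, 119, [1]), (136, 136, []),
  (152, 136, [1])]) .no) (.con 136 [2, 2]) (.red [.t 952 3 2, .t 1072 3 2, .f 945 3 5, .t 1089 2
  4, .f 825 3 1] 136 136 [] [(135, 119, [1]), (136, 136, [])]) .no) (.red [.f 818 3 1, .f 825 1 5]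
  119 136 [2, 4] [(119, 136, [2, 4])]) (.br 834 .no (.use 281) (.red [.f 834 3 1, .f 834 1 5] 121
  136 [2, 3] [(121, 136, [2, 3])]) .no .no (.use 428)) .no) (.con 136 [4, 2, 3, 3]) (.con 136 [4,
  2, 3, 3]) (.con 136 [4, 2, 3, 3]) (.con 136 [4, 2, 3, 3]) (.con 136 [4, 2, 3, 3])) .no (.use
  280) (.use 377) .no) .no (.red [.t 1089 2 4, .f 952 3 5] 136 136 [] [(136, 136, [])])

def c22t430 : Tr4 :=
  .br 825 (.hor [.f 825 1 5] []) (.con 136 [4, 2, 3, 1]) (.con 136 [4, 2, 3, 1]) (.con 136 [4, 2,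
  3, 1]) .no (.con 136 [4, 2, 3, 1])

def c22t431 : Tr4 :=
  .br 1216 (.br 1217 (.hor [.f 1216 1 5] []) .no .no .no .no .no) .no (.hor [.f 1088 3 1, .f 1096
  1 5] [(153, 136, [1, 3])]) .no (.hor [.t 1096 4 1, .f 1217 3 5] [(153, 136, [1, 3])]) .no

def c22t432 : Tr4 :=
  .br 1210 (.br 1218 (.red [.f 1210 1 3, .f 1082 3 1, .f 1081 1 5, .t 945 3 1, .f 953 1 3] 136 136
  [] [(135, 136, [4]), (136, 136, []), (152, 136, [1]), (168, 167, [3])]) .no (.use 431) .no (.use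
  332) (.red [.t 1081 1 3, .t 945 3 1, .f 953 1 3] 136 136 [] [(135, 136, [4]), (136, 136, []),
  (152, 136, [1])])) .no (.red [.f 1082 3 1, .f 1081 1 5, .t 945 3 1, .f 953 1 3] 136 136 []
  [(135, 136, [4]), (136, 136, []), (152, 136, [1])]) .no (.br 1218 (.br 1217 (.hor [.f 1217 1 5]
  []) .no .no .no .no (.br 1219 (.hor [.f 1218 1 5] []) .no (.br 1098 (.hor [.f 1097 1 5] []) .no
  (.br 1226 (.red [.t 1096 4 1, .f 1218 1 3, .f 1217 3 5] 169 136 [3, 1, 1] [(153, 136, [3, 1]),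
  (169, 136, [3, 1, 1])]) .no (.hor [.f 1098 3 1, .f 1097 1 5] [(154, 169, [2, 3])]) .no .no .no)
  .no .no .no) .no .no .no)) .no (.use 431) .no (.red [.f 1210 5 3, .f 1082 3 1, .f 1081 1 5, .t
  945 3 1, .f 953 1 3] 136 136 [] [(135, 136, [4]), (136, 136, []), (152, 136, [1])]) (.red [.t
  1081 1 3, .t 945 3 1, .f 953 1 3] 136 136 [] [(135, 136, [4]), (136, 136, []), (152, 136,
  [1])])) .no

def c22t433 : Tr4 :=
  .br 1098 .no .no (.hor [.f 1097 3 5] []) .no .no .no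

def c22t434 : Tr4 :=
  .br 1218 (.red [.f 1210 1 3, .f 1082 3 1, .f 1081 1 5, .t 945 3 1, .f 953 1 3] 136 136 [] [(135,
  136, [4]), (136, 136, []), (152, 136, [1]), (168, 167, [3])]) .no (.use 433) .no (.use 332)
  (.red [.t 1081 1 3, .t 945 3 1, .f 953 1 3] 136 136 [] [(135, 136, [4]), (136, 136, []), (152,
  136, [1])])

def c22t435 : Tr4 :=
  .br 1216 (.con 136 [1, 3, 1]) .no (.hor [.f 1216 3 5] []) .no .no .no

def c22t436 : Tr4 :=
  .br 1224 (.hor [.f 1224 1 5] []) .no (.con 136 [1, 3, 3, 1]) .no .no .no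

def c22t437 : Tr4 :=
  .br 1354 (.br 1353 (.hor [.f 1353 1 5] []) .no (.con 136 [1, 3, 3, 1, 1]) (.red [.f 1216 5 3, .f
  1217 3 1] 169 136 [1, 3, 1] [(169, 136, [1, 3, 1])]) .no (.con 136 [1, 3, 3, 1, 1])) .no (.hor
  [.f 1354 3 5] []) .no .no (.red [.f 1216 5 3, .t 1217 3 1] 169 136 [1, 3, 1] [(169, 136, [1, 3,
  1])])

def c22t438 : Tr4 :=
  .br 1355 (.red [.f 1091 3 1, .f 1091 1 3, .f 1347 1 3, .f 1219 3 1] 169 136 [1, 3, 1] [(169,
  136, [1, 3, 1]), (185, 136, [1, 3, 1, 1])]) .no (.use 437) .no .no (.red [.t 1218 1 3] 169 136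
  [1, 3, 1] [(169, 136, [1, 3, 1])])

def c22t439 : Tr4 :=
  .br 1344 (.hor [.f 1344 1 5] []) .no (.con 136 [1, 1, 3, 1]) .no .no .no

def c22t440 : Tr4 :=
  .br 1233 (.br 1352 (.hor [.f 1352 1 5] []) .no (.red [.t 1360 4 2] 170 136 [3, 3, 1, 1] [(170,
  136, [3, 3, 1, 1])]) .no .no .no) .no (.hor [.f 1233 3 5] []) .no .no (.red [.f 1224 5 3, .f
  1097 3 1, .f 1097 1 5, .t 961 1 3, .f 1088 3 5] 154 136 [3, 3, 1] [(137, 121, [1]), (154, 136,
  [3, 3, 1])])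

def c22t441 : Tr4 :=
  .br 1107 (.con 136 [3, 1, 3, 3]) .no (.hor [.f 1106 3 5] []) .no .no .no

def c22t442 : Tr4 :=
  .br 1106 (.red [.f 1098 1 3, .f 1097 3 5] 154 136 [3, 3, 1] [(154, 136, [3, 3, 1])]) (.br 1355
  (.br 1354 (.hor [.f 1354 1 5] []) .no (.br 1353 (.br 1234 .no .no (.use 440) .no (.red [.f 1091
  3 1, .f 1098 1 5, .f 1226 5 3, .f 1226 3 1] 170 136 [3, 3, 1, 1] [(153, 154, [4]), (170, 136,
  [3, 3, 1, 1])]) (.red [.f 1216 5 3, .t 1097 3 1] 154 136 [3, 3, 1] [(154, 136, [3, 3, 1])])) .no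
  (.hor [.f 1353 3 5] []) .no .no (.red [.f 1224 5 1, .f 1216 5 1, .f 1216 1 3] 169 136 [3, 1, 1]
  [(169, 136, [3, 1, 1])])) .no .no (.red [.f 1216 5 1, .f 1216 1 5, .f 1216 5 3, .t 1217 3 1] 169
  136 [3, 1, 1] [(169, 136, [3, 1, 1])])) .no (.use 437) .no .no (.red [.t 1346 2 4, .t 1210 3 1,
  .t 1218 1 3] 169 136 [3, 1, 1] [(169, 136, [3, 1, 1])])) (.use 441) .no (.br 1355 (.br 1354
  (.hor [.f 1354 1 5] []) .no (.br 1234 .no .no (.br 1353 (.use 440) .no (.hor [.f 1353 3 5] [])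
  .no .no (.red [.f 1224 5 1, .f 1216 5 1, .f 1216 1 3] 169 136 [3, 1, 1] [(169, 136, [3, 1,
  1])])) .no (.red [.f 1091 3 1, .f 1106 5 1, .f 1098 1 3] 154 136 [3, 3, 1] [(153, 154, [4]),
  (154, 136, [3, 3, 1])]) (.red [.f 1216 5 3, .t 1097 3 1] 154 136 [3, 3, 1] [(154, 136, [3, 3,
  1])])) .no .no (.red [.f 1216 5 1, .f 1216 1 5, .f 1216 5 3, .t 1217 3 1] 169 136 [3, 1, 1]
  [(169, 136, [3, 1, 1])])) .no (.use 437) .no .no (.red [.t 1346 2 4, .t 1210 3 1, .t 1218 1 3]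
  169 136 [3, 1, 1] [(169, 136, [3, 1, 1])])) .no

def c22t443 : Tr4 :=
  .br 843 .no (.br 841 .no (.con 136 [2, 2, 3, 3]) (.hor [.f 841 3 5] []) .no .no .no) (.red [.f
  843 3 1, .f 835 1 3, .f 962 3 5] 122 136 [2, 3, 3] [(121, 136, [2, 3]), (122, 136, [2, 3, 3])])
  .no .no .no

def c22t444 : Tr4 :=
  .br 833 .no (.hor [.f 705 1 5] []) (.use 95) (.br 945 .no (.con 136 [4, 2, 3, 3]) (.br 1097
  (.use 432) (.use 201) (.br 832 .no (.use 110) (.br 1210 (.use 434) .no (.red [.f 1082 3 1, .f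
  1081 1 5, .t 945 3 1, .f 953 1 3] 136 136 [] [(135, 136, [4]), (136, 136, []), (152, 136, [1])])
  .no (.br 1218 (.br 1219 (.hor [.f 1218 1 5] []) .no (.br 1098 (.br 969 .no (.br 1217 (.hor [.f
  1217 1 5] []) .no (.use 435) .no .no (.br 1225 (.use 436) .no (.red [.f 1097 3 1, .t 1096 4 1]
  154 136 [3, 3, 1] [(153, 136, [3, 1]), (154, 136, [3, 3, 1])]) .no .no (.br 1104 (.red [.f 1216
  5 3, .f 1088 3 1, .f 1096 1 3] 154 136 [3, 3, 1] [(153, 136, [3, 1]), (154, 136, [3, 3, 1])])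
  (.con 136 [3, 3, 2, 4]) (.br 1347 (.use 438) .no (.red [.f 1091 3 1, .f 1091 1 3, .f 1219 3 1,
  .f 1218 1 5] 169 136 [3, 1, 1] [(169, 136, [3, 1, 1])]) (.br 1345 (.use 439) .no (.red [.f 1216
  5 3, .f 1217 3 1] 169 136 [3, 1, 1] [(169, 136, [3, 1, 1])]) (.con 136 [1, 1, 1]) .no (.use
  442)) .no .no) .no .no .no))) (.use 206) .no .no (.use 443)) .no (.hor [.f 1097 3 5] []) .no .no
  .no) .no .no .no) .no (.use 433) .no (.red [.f 1210 5 3, .f 1082 3 1, .f 1081 1 5, .t 945 3 1,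
  .f 953 1 3] 136 136 [] [(135, 136, [4]), (136, 136, []), (152, 136, [1])]) (.red [.t 1081 1 3,
  .t 945 3 1, .f 953 1 3] 136 136 [] [(135, 136, [4]), (136, 136, []), (152, 136, [1])])) .no)
  (.hor [.f 824 3 5] []) .no .no) .no (.use 195) .no) (.con 136 [4, 2, 3, 3]) .no (.con 136 [4, 2,
  3, 3])) .no (.br 953 .no (.hor [.f 825 1 5] []) .no (.br 1097 (.use 432) (.use 200) (.br 1210
  (.use 434) .no (.red [.f 1082 3 1, .f 1081 1 5, .t 945 3 1, .f 953 1 3] 136 136 [] [(135, 136,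
  [4]), (136, 136, []), (152, 136, [1])]) .no (.br 1218 (.br 1219 (.hor [.f 1218 1 5] []) .no (.br
  1217 (.hor [.f 1217 1 5] []) .no (.use 435) .no .no (.br 1098 (.br 841 (.br 968 .no (.use 109)
  (.br 1225 (.use 436) .no (.red [.f 1097 3 1, .t 1096 4 1] 154 136 [3, 3, 1] [(153, 136, [3, 1]),
  (154, 136, [3, 3, 1])]) .no .no (.br 1347 (.use 438) .no (.red [.f 1091 3 1, .f 1091 1 3, .f
  1219 3 1, .f 1218 1 5] 169 136 [3, 1, 1] [(169, 136, [3, 1, 1])]) (.br 1345 (.use 439) .no (.red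
  [.f 1216 5 3, .f 1217 3 1] 169 136 [3, 1, 1] [(169, 136, [3, 1, 1])]) (.con 136 [1, 1, 1]) .no
  (.br 1104 (.red [.f 1216 5 3, .f 1088 3 1, .f 1096 1 3] 154 136 [3, 3, 1] [(153, 136, [3, 1]),
  (154, 136, [3, 3, 1])]) .no (.use 442) .no .no .no)) .no .no)) .no .no .no) (.use 275) (.hor [.f
  841 3 5] []) .no .no (.use 105)) .no (.hor [.f 1097 3 5] []) .no .no .no)) .no .no .no) .no
  (.use 433) .no (.red [.f 1210 5 3, .f 1082 3 1, .f 1081 1 5, .t 945 3 1, .f 953 1 3] 136 136 []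
  [(135, 136, [4]), (136, 136, []), (152, 136, [1])]) (.red [.t 1081 1 3, .t 945 3 1, .f 953 1 3]
  136 136 [] [(135, 136, [4]), (136, 136, []), (152, 136, [1])])) .no) .no (.use 194) .no) .no
  .no)

def c22t445 : Tr4 :=
  .br 953 .no (.hor [.f 825 1 5] []) .no (.use 201) .no .no

def c22t446 : Tr4 :=
  .br 953 .no (.hor [.f 825 1 5] []) .no (.br 825 .no (.br 833 .no (.hor [.f 705 1 5] []) .no .no
  .no (.br 843 .no (.use 192) (.red [.f 843 3 1, .f 835 1 3, .f 962 3 5] 122 136 [2, 3, 3] [(121,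
  136, [2, 3]), (122, 136, [2, 3, 3])]) .no .no .no)) (.red [.t 1088 3 2, .f 961 3 5, .t 825 3 1,
  .f 841 5 1, .f 833 1 3] 121 136 [2, 3] [(120, 136, [2]), (121, 136, [2, 3]), (137, 121, [1])])
  (.hor [.f 817 3 1, .f 825 1 5] [(119, 121, [4, 4])]) .no (.br 833 .no (.hor [.f 705 1 5] []) .no
  .no .no (.br 843 .no (.use 193) (.red [.f 843 3 1, .f 835 1 3, .f 962 3 5] 122 136 [2, 3, 3]
  [(121, 136, [2, 3]), (122, 136, [2, 3, 3])]) .no .no .no))) .no .no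

def c22t447 : Tr4 :=
  .br 969 (.use 445) .no (.use 206) .no .no (.use 446)

def c22t448 : Tr4 :=
  .br 833 .no (.hor [.f 705 1 5] []) (.use 95) (.br 832 .no (.br 1097 (.use 107) .no (.use 110)
  .no (.red [.t 961 1 3, .t 825 3 1, .f 954 3 1, .f 962 1 3] 136 136 [] [(120, 136, [2]), (136,
  136, [])]) (.use 111)) (.use 443) (.hor [.f 824 3 5] []) .no .no) .no (.br 841 .no (.use 275)
  (.hor [.f 841 3 5] []) .no .no (.use 105))

def c22t449 : Tr4 :=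
  .br 1201 (.br 1074 (.use 98) (.br 953 .no (.hor [.f 825 1 5] []) .no (.br 1210 (.br 1202 (.hor
  [.f 1201 1 5] []) .no .no (.use 342) (.use 343) .no) .no (.red [.f 1082 3 1, .f 1081 1 5, .t 945
  3 1, .f 953 1 3] 136 136 [] [(135, 136, [4]), (136, 136, []), (152, 136, [1])]) (.br 1211 (.br
  1075 (.dom 151 136 [4, 1]) (.hor [.f 946 1 5] []) .no (.use 132) .no .no) .no (.use 336) (.hor
  [.f 1202 3 5] []) .no .no) (.use 344) .no) .no .no) .no (.hor [.f 1065 3 5] []) (.br 1210 (.use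
  348) .no (.use 351) (.br 953 .no (.hor [.f 825 1 5] []) .no (.br 946 .no (.hor [.f 818 1 3, .f
  945 3 5] [(119, 121, [4, 4])]) .no (.use 350) (.br 827 .no (.use 364) .no (.hor [.t 826 1 4, .f
  945 3 5] [(119, 121, [4, 4])]) .no .no) .no) .no .no) (.use 365) .no) .no) .no .no (.red [.f
  1065 3 1, .f 1073 1 3] 151 136 [4, 1] [(150, 136, [4, 1, 4]), (151, 136, [4, 1])]) (.br 1074 .no
  (.br 842 .no (.red [.f 706 1 3, .f 834 3 1, .f 834 1 5] 121 136 [2, 3] [(105, 136, [2, 3, 2]),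
  (121, 136, [2, 3])]) (.use 444) .no (.red [.t 962 3 2] 121 136 [2, 3] [(121, 136, [2, 3])])
  (.use 447)) .no (.hor [.f 1065 3 5] []) (.br 842 .no (.red [.f 706 1 3, .f 834 3 1, .f 834 1 5]
  121 136 [2, 3] [(105, 136, [2, 3, 2]), (121, 136, [2, 3])]) (.br 969 (.use 445) (.br 953 .no
  (.hor [.f 825 1 5] []) .no (.br 946 .no (.hor [.f 818 1 3, .f 945 3 5] [(119, 121, [4, 4])]) .no
  (.use 360) (.br 1210 (.br 1211 (.hor [.f 1210 1 5] []) .no (.br 1218 (.hor [.f 1210 1 3, .f 1210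
  3 5] [(168, 167, [3])]) .no (.br 1097 (.use 431) .no (.use 433) .no (.use 195) .no) .no .no
  (.red [.f 946 5 1, .t 1081 1 3, .t 945 3 1, .f 953 1 3] 136 136 [] [(135, 136, [4]), (136, 136,
  []), (152, 136, [1])])) (.con 136 [4, 1, 1]) .no .no) .no (.use 371) .no (.use 372) .no) .no)
  .no .no) (.use 206) .no .no (.use 448)) .no (.red [.t 962 3 2] 121 136 [2, 3] [(121, 136, [2,
  3])]) (.use 447)) .no) (.red [.t 1080 4 1] 151 136 [4, 1] [(151, 136, [4, 1])])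

def c22l13 : List Tr4 :=
  [c22t429, c22t430, c22t431, c22t432, c22t433, c22t434, c22t435, c22t436, c22t437, c22t438,
  c22t439, c22t440, c22t441, c22t442, c22t443, c22t444, c22t445, c22t446, c22t447, c22t448,
  c22t449]

theorem c22k13 : chkLF ⟨4, 0, 0, true, -8⟩ false 2 c22N 429 c22l13 = true := by decide +kernel

end Pool.Agent.FT4D
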