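import Pool.Agent.FT4D.Tab_c22

/-!
# Four levels: decision trees (found by a computer search)
-/

namespace Pool.Agent.FT4D

def c22t450 : Tr4 :=
  .br 1339 (.con 136 [4, 1, 1, 1]) .no .no (.hor [.f 1330 3 5] []) .no .no

def c22t451 : Tr4 :=
  .br 1210 (.con 136 [4, 1, 1]) .no .no (.hor [.f 1202 3 5] []) .no .no

def c22t452 : Tr4 :=
  .br 1339 (.br 1336 (.br 1328 (.con 136 [4, 1, 1, 4]) (.hor [.f 1200 1 5] []) .no (.con 136 [4,
  1, 1, 4]) .no .no) .no (.red [.f 1208 3 1, .f 1216 1 5] 168 136 [1, 1] [(168, 136, [1, 1])])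
  (.con 136 [4, 1, 1, 4]) .no .no) .no .no (.red [.f 1202 5 3, .f 1203 3 1, .f 1211 1 3] 168 136
  [1, 1] [(167, 136, [4, 1, 1]), (168, 136, [1, 1])]) .no .no

def c22t453 : Tr4 :=
  .br 1328 (.con 136 [4, 1, 1, 4]) (.hor [.f 1200 1 5] []) (.con 136 [4, 1, 1, 4]) (.con 136 [4,
  1, 1, 4]) .no .no

def c22t454 : Tr4 :=
  .br 1202 (.hor [.f 1201 1 5] []) .no .no (.use 161) (.use 453) .no

def c22t455 : Tr4 :=
  .br 1203 (.use 138) .no .no (.red [.f 1067 3 1] 150 136 [4, 1, 4] [(150, 136, [4, 1, 4])]) .no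
  .no

def c22t456 : Tr4 :=
  .br 1210 (.use 454) .no .no (.br 1211 (.use 139) .no .no (.hor [.f 1202 3 5] []) .no .no) (.red
  [.f 1210 5 3, .f 1082 3 1, .f 1081 1 5, .t 945 3 1, .f 953 1 3] 136 136 [] [(135, 136, [4]),
  (136, 136, []), (152, 136, [1])]) .no

def c22t457 : Tr4 :=
  .br 968 .no (.hor [.f 840 1 5] []) (.br 833 .no (.hor [.f 705 1 5] []) .no .no .no (.br 843 .no
  (.br 840 .no (.use 144) (.con 136 [2, 2, 3, 3]) .no .no .no) (.red [.f 843 3 1, .f 835 1 3, .f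
  962 3 5] 121 136 [2, 3] [(121, 136, [2, 3]), (122, 136, [2, 3, 3])]) .no .no .no)) .no .no .no

def c22t458 : Tr4 :=
  .br 1074 (.use 98) (.br 953 .no (.hor [.f 825 1 5] []) .no (.br 1217 (.br 1218 (.hor [.f 1217 1
  5] []) .no (.br 1075 (.br 1210 (.br 1202 (.hor [.f 1201 1 5] []) .no .no (.use 161) .no .no) .no
  .no (.dom 151 136 [4, 1]) (.br 1202 (.hor [.f 1201 1 5] []) .no .no (.use 161) .no .no) .no)
  (.hor [.f 946 1 5] []) .no (.br 1219 (.br 1211 (.red [.f 1211 1 3] 168 136 [1, 1] [(168, 136,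
  [1, 1])]) .no .no (.use 451) .no (.br 1346 (.br 1338 (.red [.f 1338 1 3, .t 1346 4 2] 168 136
  [1, 1] [(168, 136, [1, 1]), (184, 136, [1, 1, 1])]) .no .no (.br 1337 (.use 450) .no .no .no .no
  (.red [.t 1216 4 1] 168 136 [1, 1] [(168, 136, [1, 1])])) (.red [.f 1210 5 1, .f 1211 1 3] 168
  136 [1, 1] [(168, 136, [1, 1])]) (.br 1202 (.hor [.f 1201 1 5] []) .no .no (.use 161) (.use 452)
  .no)) .no (.hor [.f 1218 3 1, .f 1217 1 5] [(169, 168, [3])]) (.red [.t 1346 4 2] 168 136 [1, 1]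
  [(168, 136, [1, 1])]) .no .no)) .no (.hor [.f 1218 3 5] []) (.br 1210 (.use 454) .no .no (.use
  455) .no .no) .no .no) .no .no) (.red [.f 1082 3 1, .f 1081 1 5, .t 945 3 1, .f 953 1 3] 136 136
  [] [(135, 136, [4]), (136, 136, []), (152, 136, [1])]) (.use 456) .no) .no (.br 1218 (.br 1219
  (.hor [.f 1218 1 5] []) .no (.con 136 [3, 1, 1]) (.br 1210 (.use 454) .no .no (.br 1075 (.dom
  151 136 [4, 1]) (.hor [.f 946 1 5] []) .no (.use 455) .no .no) .no .no) .no .no) .no (.hor [.f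
  1217 3 5] []) (.red [.f 1082 3 1, .f 1081 1 5, .t 945 3 1, .f 953 1 3] 136 136 [] [(135, 136,
  [4]), (136, 136, []), (152, 136, [1])]) (.use 456) .no) .no (.red [.t 1081 1 3, .t 945 3 1, .f
  953 1 3] 136 136 [] [(135, 136, [4]), (136, 136, []), (152, 136, [1])]) .no) .no .no) .no (.hor
  [.f 1065 3 5] []) (.br 953 .no (.hor [.f 825 1 5] []) .no (.br 825 .no (.use 312) (.br 946 .no
  (.hor [.f 818 1 3, .f 945 3 5] [(119, 121, [4, 4])]) .no (.br 1202 (.hor [.f 1201 1 5] []) .no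
  (.br 1211 (.use 141) .no (.br 1067 (.use 140) (.br 1203 (.use 138) .no .no (.red [.t 938 3 1, .f
  1067 3 1] 150 136 [4, 4, 1] [(134, 136, [4, 4]), (150, 136, [4, 4, 1])]) .no .no) .no (.br 1066
  (.br 1203 (.use 138) .no .no (.red [.t 1194 2 3, .f 938 3 1] 150 136 [4, 4, 1] [(134, 136, [4,
  4]), (150, 136, [4, 4, 1])]) .no .no) .no .no (.hor [.f 1058 3 5] []) .no .no) .no (.red [.f
  1066 5 3, .f 1065 3 5, .t 1209 2 4] 151 136 [4, 1] [(151, 136, [4, 1])])) (.hor [.f 1202 3 5]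
  []) .no .no) (.use 161) (.use 453) .no) (.br 827 .no (.br 1202 (.hor [.f 1201 1 5] []) .no (.br
  1211 (.use 147) .no (.br 819 .no (.hor [.f 691 1 3, .t 826 1 4, .f 945 3 5] [(103, 121, [4, 4,
  2]), (119, 121, [4, 4])]) .no (.br 818 .no (.br 1203 (.use 138) .no .no (.use 146) .no .no) .no
  (.use 120) .no (.red [.f 946 5 1, .t 953 4 2, .t 1089 2 4] 136 136 [] [(119, 120, [4]), (136,
  136, [])])) .no (.red [.f 818 5 1, .f 818 1 3, .f 945 3 5, .t 1089 2 4, .f 954 1 5] 136 136 []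
  [(119, 120, [4]), (136, 136, [])])) (.hor [.f 1202 3 5] []) .no .no) (.use 161) (.use 453) .no)
  .no (.hor [.t 826 1 4, .f 945 3 5] [(119, 121, [4, 4])]) .no .no) .no) (.hor [.f 817 3 1, .f 825
  1 5] [(119, 121, [4, 4])]) .no (.use 457)) .no .no) .no

def c22t459 : Tr4 :=
  .br 1337 (.use 450) .no .no (.hor [.f 1329 3 5] []) .no (.red [.t 1216 4 1] 168 136 [1, 1]
  [(168, 136, [1, 1])])

def c22t460 : Tr4 :=
  .br 1457 (.con 136 [4, 1, 1, 1, 4]) (.hor [.f 1329 1 5] []) (.con 136 [4, 1, 1, 1, 4]) (.con 136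
  [4, 1, 1, 1, 4]) .no (.con 136 [4, 1, 1, 1, 4])

def c22t461 : Tr4 :=
  .br 1339 (.con 136 [4, 1, 1, 1]) .no .no (.use 460) .no .no

def c22t462 : Tr4 :=
  .br 1330 (.use 461) .no .no .no (.con 136 [4, 1, 1, 1]) (.red [.f 1329 5 3, .f 1328 3 5, .t 1216
  4 1] 168 136 [1, 1] [(168, 136, [1, 1])])

def c22t463 : Tr4 :=
  .br 1336 (.red [.f 1336 1 3, .f 1208 3 1, .f 1216 1 5] 168 136 [1, 1] [(168, 136, [1, 1]), (184,
  136, [1, 1, 1])]) .no .no (.br 1330 (.use 461) .no .no (.br 1464 (.br 1465 (.hor [.f 1464 1 5]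
  []) .no (.red [.t 1473 4 2, .t 1346 4 2] 168 136 [1, 1] [(168, 136, [1, 1]), (184, 136, [1, 1,
  1])]) (.br 1466 (.con 136 [4, 1, 1, 1, 1]) .no .no (.hor [.f 1457 3 5] []) (.con 136 [4, 1, 1,
  1, 1]) .no) (.red [.f 1337 5 1, .f 1338 1 3, .t 1346 4 2] 168 136 [1, 1] [(168, 136, [1, 1]),
  (184, 136, [1, 1, 1])]) .no) .no .no (.red [.f 1328 3 1, .f 1336 1 3] 184 136 [1, 1, 1] [(183,
  136, [4, 1, 1, 1]), (184, 136, [1, 1, 1])]) (.br 1329 (.red [.t 1328 3 1, .f 1336 1 3] 184 136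
  [1, 1, 1] [(183, 136, [4, 1, 1, 1]), (184, 136, [1, 1, 1])]) .no .no (.hor [.f 1321 3 5] []) .no
  .no) .no) (.con 136 [4, 1, 1, 1]) (.red [.f 1329 5 3, .f 1328 3 5, .t 1216 4 1] 168 136 [1, 1]
  [(168, 136, [1, 1])])) .no .no

def c22t464 : Tr4 :=
  .br 1330 .no .no .no .no (.red [.t 1466 4 2] 183 136 [4, 1, 1, 1] [(183, 136, [4, 1, 1, 1])])
  (.red [.f 1329 5 3, .f 1330 3 1, .f 1338 1 3] 184 136 [4, 1, 1, 3, 1] [(183, 136, [4, 1, 1, 1]),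
  (184, 136, [1, 1, 1])])

def c22t465 : Tr4 :=
  .br 1466 (.hor [.f 1465 1 5] []) .no .no (.use 464) .no .no

def c22t466 : Tr4 :=
  .br 1355 (.hor [.f 1354 1 5] []) .no (.hor [.f 1227 3 1, .f 1219 1 3, .f 1218 3 5] [(169, 136,
  [1, 3, 1]), (170, 136, [1, 3, 1, 3])]) .no .no .no

def c22t467 : Tr4 :=
  .br 1329 (.hor [.f 1329 1 5] []) .no .no (.red [.t 1321 3 2, .f 1200 1 5, .t 1080 4 1] 151 136
  [4, 1] [(151, 136, [4, 1]), (166, 182, [2])]) .no .no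

def c22t468 : Tr4 :=
  .br 1330 (.br 1200 (.use 467) .no .no (.use 314) .no .no) .no .no .no .no (.red [.f 1201 5 1, .t
  1330 2 3, .f 1211 1 3] 168 136 [1, 1] [(167, 136, [4, 1, 1]), (168, 136, [1, 1])])

def c22t469 : Tr4 :=
  .br 1466 (.con 136 [4, 1, 1, 1, 1]) .no .no (.use 464) .no .no

def c22t470 : Tr4 :=
  .br 1339 (.use 469) .no .no (.br 1330 (.red [.t 1457 3 2, .f 1336 1 5, .t 1216 4 1] 168 136 [1,
  1] [(168, 136, [1, 1]), (183, 167, [1])]) .no .no .no .no (.red [.f 1201 5 1, .t 1330 2 3, .f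
  1211 1 3] 168 136 [1, 1] [(167, 136, [4, 1, 1]), (168, 136, [1, 1])])) .no .no

def c22t471 : Tr4 :=
  .br 1465 (.hor [.f 1465 1 5] []) .no (.red [.t 1473 4 2, .t 1346 4 2] 168 136 [1, 1] [(168, 136,
  [1, 1]), (184, 136, [1, 1, 1])]) (.con 136 [4, 1, 1, 1, 1]) .no .no

def c22t472 : Tr4 :=
  .br 1464 (.con 136 [1, 1, 1, 4]) (.br 1466 (.use 471) .no .no (.br 1330 .no .no .no (.br 1331
  (.red [.f 1331 1 3] 183 136 [4, 1, 1, 1] [(183, 136, [4, 1, 1, 1])]) .no .no (.hor [.f 1322 3 5]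
  []) .no .no) (.red [.t 1466 4 2] 183 136 [4, 1, 1, 1] [(183, 136, [4, 1, 1, 1])]) (.red [.f 1329
  5 3, .f 1330 3 1, .f 1338 1 3] 184 136 [1, 1, 1] [(183, 136, [4, 1, 1, 1]), (184, 136, [1, 1,
  1])])) .no (.red [.f 1337 5 1, .f 1336 1 5, .t 1216 4 1] 168 136 [1, 1] [(168, 136, [1, 1])]))
  (.con 136 [1, 1, 1, 4]) (.con 136 [1, 1, 1, 4]) (.con 136 [1, 1, 1, 4]) .no

def c22t473 : Tr4 :=
  .br 1353 (.br 1473 (.red [.f 1465 1 3] 200 136 [1, 1, 1, 1] [(200, 136, [1, 1, 1, 1])]) .no .no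
  .no .no (.red [.t 1352 4 1, .f 1336 1 3] 184 136 [1, 1, 1] [(184, 136, [1, 1, 1]), (185, 136,
  [1, 1, 1, 3])])) .no (.hor [.f 1353 3 5] []) .no .no .no

def c22t474 : Tr4 :=
  .br 1466 (.hor [.f 1465 1 5] []) .no .no .no (.use 473) .no

def c22t475 : Tr4 :=
  .br 1465 (.use 474) .no (.red [.t 1473 4 2, .t 1346 4 2] 168 136 [1, 1] [(168, 136, [1, 1]),
  (184, 136, [1, 1, 1])]) (.red [.t 1457 3 2, .f 1336 1 5, .t 1216 4 1] 168 136 [1, 1] [(168, 136,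
  [1, 1]), (183, 199, [2])]) (.red [.f 1337 5 1, .f 1336 1 5, .t 1216 4 1] 168 136 [1, 1] [(168,
  136, [1, 1])]) .no

def c22t476 : Tr4 :=
  .br 1336 (.use 475) .no .no (.use 460) .no .no

def c22t477 : Tr4 :=
  .br 1329 (.red [.t 1457 2 3, .f 1338 1 3] 184 136 [4, 1, 1, 3, 1] [(183, 136, [4, 1, 1, 1]),
  (184, 136, [4, 1, 1, 3, 1])]) .no .no (.hor [.f 1321 3 5] []) .no .no

def c22t478 : Tr4 :=
  .br 1466 (.hor [.f 1465 1 5] []) .no .no (.use 477) (.use 473) .no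

def c22t479 : Tr4 :=
  .br 1339 (.use 472) .no .no (.br 1330 (.use 476) .no .no (.br 1193 (.red [.t 1321 2 3, .t 1330 2
  3] 167 136 [4, 1, 1] [(166, 136, [4, 4, 1, 1]), (167, 136, [4, 1, 1])]) .no .no (.hor [.f 1185 3
  5] []) .no (.br 1336 (.br 1328 (.con 136 [4, 1, 1, 4, 2, 3]) (.br 1465 (.use 478) .no (.red [.t
  1473 4 2, .t 1346 4 2] 168 136 [1, 1] [(168, 136, [1, 1]), (184, 136, [1, 1, 1])]) (.br 1321
  (.con 136 [4, 1, 1, 1, 4, 2, 3]) .no (.hor [.f 1321 3 5] []) (.con 136 [4, 1, 1, 1, 4, 2, 3])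
  .no (.con 136 [4, 1, 1, 1, 4, 2, 3])) (.red [.f 1337 5 1, .f 1336 1 5, .t 1216 4 1] 168 136 [1,
  1] [(168, 136, [1, 1])]) .no) .no (.con 136 [4, 1, 1, 4, 2, 3]) (.con 136 [4, 1, 1, 4, 2, 3])
  .no) .no .no (.con 136 [4, 1, 1, 4, 2, 3]) .no .no)) .no (.red [.f 1201 5 1, .t 1330 2 3, .f
  1211 1 3] 168 136 [1, 1] [(167, 136, [4, 1, 1]), (168, 136, [1, 1])])) .no .no

def c22t480 : Tr4 :=
  .br 1329 (.red [.t 1328 3 1] 183 136 [4, 1, 1, 1] [(183, 136, [4, 1, 1, 1])]) .no .no (.hor [.f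
  1321 3 5] []) .no .no

def c22t481 : Tr4 :=
  .br 1465 (.use 478) .no (.red [.t 1473 4 2, .t 1346 4 2] 168 136 [1, 1] [(168, 136, [1, 1]),
  (184, 136, [1, 1, 1])]) (.br 1321 (.con 136 [4, 1, 1, 1, 4, 2, 3]) .no (.hor [.f 1321 3 5] [])
  (.con 136 [4, 1, 1, 1, 4, 2, 3]) .no (.con 136 [4, 1, 1, 1, 4, 2, 3])) (.red [.f 1337 5 1, .f
  1336 1 5, .t 1216 4 1] 168 136 [1, 1] [(168, 136, [1, 1])]) .no

def c22t482 : Tr4 :=
  .br 1336 (.br 1328 (.con 136 [4, 1, 1, 4, 2, 3]) (.use 481) .no (.con 136 [4, 1, 1, 4, 2, 3])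
  (.con 136 [4, 1, 1, 4, 2, 3]) .no) .no .no (.con 136 [4, 1, 1, 4, 2, 3]) .no .no

def c22t483 : Tr4 :=
  .br 1329 (.hor [.f 1328 1 5] []) .no .no (.hor [.f 1321 3 5] []) .no .no

def c22t484 : Tr4 :=
  .br 1466 (.br 1465 (.hor [.f 1465 1 5] []) .no (.red [.t 1473 4 2, .t 1346 4 2] 168 136 [1, 1]
  [(168, 136, [1, 1]), (184, 136, [1, 1, 1])]) (.br 1464 (.con 136 [4, 1, 1, 1, 1]) .no (.con 136
  [4, 1, 1, 1, 1]) (.red [.f 1328 3 1] 183 136 [4, 1, 1, 1] [(183, 136, [4, 1, 1, 1])]) .no .no)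
  .no (.use 480)) .no .no (.br 1329 (.red [.t 1457 2 3, .f 1328 3 5] 183 136 [4, 1, 1, 1] [(183,
  136, [4, 1, 1, 1])]) .no .no (.hor [.f 1321 3 5] []) .no .no) (.br 1464 (.br 1465 (.hor [.f 1464
  1 5] []) .no (.red [.t 1473 4 2, .t 1346 4 2] 168 136 [1, 1] [(168, 136, [1, 1]), (184, 136, [1,
  1, 1])]) (.con 136 [4, 1, 1, 1, 1]) .no .no) .no (.br 1473 (.con 136 [1, 1, 1, 1]) .no (.con 136
  [1, 1, 1, 1]) (.hor [.f 1464 3 5] []) .no .no) (.red [.f 1328 3 1] 183 136 [4, 1, 1, 1] [(183,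
  136, [4, 1, 1, 1])]) (.use 480) .no) (.red [.f 1337 5 1, .f 1338 1 3, .t 1346 4 2] 168 136 [1,
  1] [(168, 136, [1, 1]), (184, 136, [1, 1, 1])])

def c22l14 : List Tr4 :=
  [c22t450, c22t451, c22t452, c22t453, c22t454, c22t455, c22t456, c22t457, c22t458, c22t459,
  c22t460, c22t461, c22t462, c22t463, c22t464, c22t465, c22t466, c22t467, c22t468, c22t469,
  c22t470, c22t471, c22t472, c22t473, c22t474, c22t475, c22t476, c22t477, c22t478, c22t479,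
  c22t480, c22t481, c22t482, c22t483, c22t484]

theorem c22k14 : chkLF ⟨4, 0, 0, true, -8⟩ false 2 c22N 450 c22l14 = true := by decide +kernel

def c22t485 : Tr4 :=
  .br 1194 (.br 1336 (.br 1465 (.br 1339 (.use 465) .no .no (.br 1330 (.br 1466 (.hor [.f 1465 1
  5] []) .no .no .no (.br 1200 (.use 467) .no .no (.br 1328 (.br 1457 (.con 136 [4, 1, 1, 1, 4])
  (.hor [.f 1328 1 5] []) .no (.con 136 [4, 1, 1, 1, 4]) .no .no) .no .no (.red [.f 1192 3 1] 166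
  136 [4, 4, 1, 1] [(166, 136, [4, 4, 1, 1])]) (.br 1321 (.use 317) (.red [.t 1192 3 1] 166 136
  [4, 4, 1, 1] [(166, 136, [4, 4, 1, 1])]) .no (.use 326) .no (.red [.f 1320 5 3, .f 1192 3 1] 166
  136 [4, 4, 1, 1] [(166, 136, [4, 4, 1, 1])])) .no) .no .no) .no) .no .no .no .no (.red [.f 1201
  5 1, .t 1330 2 3, .f 1211 1 3] 168 136 [1, 1] [(167, 136, [4, 1, 1]), (168, 136, [1, 1])])) .no
  .no) .no (.red [.t 1473 4 2, .t 1346 4 2] 168 136 [1, 1] [(168, 136, [1, 1]), (184, 136, [1, 1,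
  1])]) (.use 470) (.red [.f 1337 5 1, .f 1336 1 5, .t 1216 4 1] 168 136 [1, 1] [(168, 136, [1,
  1])]) .no) .no .no (.use 462) .no .no) .no .no (.use 479) (.br 1339 (.use 472) .no .no (.br 1330
  (.use 476) .no .no (.br 1193 (.red [.t 1321 2 3, .t 1330 2 3] 167 136 [4, 1, 1] [(166, 136, [4,
  4, 1, 1]), (167, 136, [4, 1, 1])]) .no .no (.br 1059 (.br 1192 (.red [.t 1058 3 1, .t 1065 3 1,
  .f 1073 1 3] 151 136 [4, 1] [(149, 136, [4, 4, 1, 4]), (150, 136, [4, 4, 1]), (151, 136, [4,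
  1])]) (.use 482) (.red [.t 1058 3 1, .t 1065 3 1, .f 1073 1 3] 151 136 [4, 1] [(149, 136, [4, 4,
  1, 4]), (150, 136, [4, 4, 1]), (151, 136, [4, 1])]) (.red [.t 1058 3 1, .t 1065 3 1, .f 1073 1
  3] 151 136 [4, 1] [(149, 136, [4, 4, 1, 4]), (150, 136, [4, 4, 1]), (151, 136, [4, 1])]) .no
  .no) (.hor [.f 931 1 3, .f 1058 3 5] [(133, 136, [4, 4, 4])]) .no (.br 1192 (.br 1336 (.br 1328
  (.con 136 [4, 1, 1, 4, 4]) (.use 481) .no .no (.con 136 [4, 1, 1, 4, 4]) .no) .no .no (.con 136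
  [4, 1, 1, 4, 4]) .no .no) (.use 482) (.br 1187 (.br 1328 (.use 483) .no (.use 484) (.red [.f
  1192 3 1] 166 136 [4, 4, 1, 1] [(166, 136, [4, 4, 1, 1])]) (.br 1321 (.use 318) .no .no (.red
  [.f 1185 3 1, .t 1321 2 3, .f 1192 3 5] 166 136 [4, 4, 1, 1] [(165, 136, [4, 4, 1, 4, 1]), (166,
  136, [4, 4, 1, 1])]) .no (.red [.f 1320 5 3, .f 1192 3 1] 166 136 [4, 4, 1, 1] [(166, 136, [4,
  4, 1, 1])])) .no) .no .no (.red [.f 1051 3 1, .t 1058 3 1, .t 1065 3 1, .f 1073 1 3] 151 136 [4,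
  1] [(148, 136, [4, 4, 1, 4, 4]), (149, 136, [4, 4, 1, 4]), (150, 136, [4, 4, 1]), (151, 136, [4,
  1])]) .no (.red [.f 1186 5 3, .f 1058 3 1, .t 1065 3 1, .f 1073 1 3] 151 136 [4, 1] [(149, 136,
  [4, 4, 1, 4]), (150, 136, [4, 4, 1]), (151, 136, [4, 1])])) (.hor [.f 1184 3 5] []) .no .no) .no
  .no) .no (.br 1336 (.br 1465 (.br 1328 (.con 136 [4, 1, 1, 4, 2, 3]) (.use 478) .no (.con 136
  [4, 1, 1, 4, 2, 3]) (.con 136 [4, 1, 1, 4, 2, 3]) .no) .no (.red [.t 1473 4 2, .t 1346 4 2] 168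
  136 [1, 1] [(168, 136, [1, 1]), (184, 136, [1, 1, 1])]) (.br 1321 (.con 136 [4, 1, 1, 1, 4, 2,
  2, 3]) .no (.hor [.f 1321 3 5] []) (.con 136 [4, 1, 1, 1, 4, 2, 2, 3]) .no (.con 136 [4, 1, 1,
  1, 4, 2, 2, 3])) (.red [.f 1337 5 1, .f 1336 1 5, .t 1216 4 1] 168 136 [1, 1] [(168, 136, [1,
  1])]) .no) .no .no (.con 136 [4, 1, 1, 4, 2, 3]) .no .no)) .no (.red [.f 1201 5 1, .t 1330 2 3,
  .f 1211 1 3] 168 136 [1, 1] [(167, 136, [4, 1, 1]), (168, 136, [1, 1])])) .no .no) (.red [.f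
  1193 5 3, .f 1065 3 1, .f 1073 1 3] 151 136 [4, 1] [(150, 136, [4, 4, 1]), (151, 136, [4, 1])])

def c22t486 : Tr4 :=
  .br 1328 (.con 136 [4, 1, 1, 4]) (.br 1330 (.use 467) .no .no .no .no (.red [.f 1201 5 1, .f
  1200 1 5, .t 1080 4 1] 151 136 [4, 1] [(151, 136, [4, 1])])) .no (.con 136 [4, 1, 1, 4]) (.con
  136 [4, 1, 1, 4]) .no

def c22t487 : Tr4 :=
  .br 1203 (.red [.t 1330 4 2] 166 136 [4, 1, 4, 1] [(166, 136, [4, 1, 4, 1])]) .no .no .no .no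
  .no

def c22t488 : Tr4 :=
  .br 1339 (.red [.t 1466 4 2] 183 136 [4, 1, 1, 1] [(183, 136, [4, 1, 1, 1])]) .no .no .no .no
  .no

def c22t489 : Tr4 :=
  .br 1330 (.use 476) .no .no (.use 487) .no (.red [.f 1201 5 1, .t 1330 2 3, .f 1211 1 3] 168 136
  [1, 1] [(167, 136, [4, 1, 1]), (168, 136, [1, 1])])

def c22t490 : Tr4 :=
  .br 1075 (.br 1338 (.red [.f 1338 1 3, .t 1346 4 2] 168 136 [1, 1] [(168, 136, [1, 1]), (184,
  136, [1, 1, 1])]) .no .no (.use 459) (.red [.f 1210 5 1, .f 1211 1 3] 168 136 [1, 1] [(168, 136,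
  [1, 1])]) (.br 1344 (.use 463) .no (.br 1067 (.br 1194 (.br 1336 (.br 1465 (.br 1339 (.use 465)
  .no .no (.use 468) .no .no) .no (.red [.t 1473 4 2, .t 1346 4 2] 168 136 [1, 1] [(168, 136, [1,
  1]), (184, 136, [1, 1, 1])]) (.br 1339 (.use 469) .no .no (.use 468) .no .no) (.red [.f 1337 5
  1, .f 1336 1 5, .t 1216 4 1] 168 136 [1, 1] [(168, 136, [1, 1])]) .no) .no .no (.use 462) .no
  .no) .no .no (.red [.f 1067 1 3, .f 1058 3 1, .t 1065 3 1, .f 1073 1 3] 151 136 [4, 1] [(149,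
  136, [4, 4, 4, 1]), (151, 136, [4, 1])]) .no (.red [.f 1193 5 3, .f 1065 3 1, .f 1073 1 3] 151
  136 [4, 1] [(150, 136, [4, 4, 1]), (151, 136, [4, 1])])) (.br 1227 (.hor [.f 1219 1 3, .f 1218 3
  5] [(169, 168, [3])]) .no (.br 1354 (.use 466) .no (.use 485) .no (.red [.t 1218 3 1, .f 1210 5
  3, .t 1217 1 4] 168 136 [1, 1] [(168, 136, [1, 1]), (169, 168, [3])]) (.hor [.t 1217 1 3, .f
  1344 3 5] [(169, 168, [3])])) .no .no .no) .no (.hor [.f 1058 3 5] []) .no .no) (.red [.f 1208 3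
  1, .f 1216 1 5] 168 136 [1, 1] [(168, 136, [1, 1])]) .no .no)) (.hor [.f 946 1 5] []) .no (.br
  1338 (.red [.f 1338 1 3, .t 1346 4 2] 168 136 [1, 1] [(168, 136, [1, 1]), (184, 136, [1, 1,
  1])]) .no .no (.use 459) (.red [.f 1210 5 1, .f 1211 1 3] 168 136 [1, 1] [(168, 136, [1, 1])])
  (.br 1344 (.use 463) .no (.br 1194 (.br 1336 (.br 1203 (.use 486) .no .no (.red [.f 1067 3 1]
  150 136 [4, 4, 1] [(150, 136, [4, 4, 1])]) .no .no) .no .no (.use 462) .no .no) .no .no (.red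
  [.f 1058 3 1, .t 1065 3 1] 150 136 [4, 4, 1] [(149, 136, [4, 4, 4, 1]), (150, 136, [4, 4, 1])])
  (.br 1227 (.hor [.f 1219 1 3, .f 1218 3 5] [(169, 168, [3])]) .no (.br 1354 (.use 466) .no (.br
  1466 (.br 1465 (.hor [.f 1465 1 5] []) .no (.red [.t 1473 4 2, .t 1346 4 2] 168 136 [1, 1]
  [(168, 136, [1, 1]), (184, 136, [1, 1, 1])]) (.br 1339 (.con 136 [1, 1, 1, 1, 4]) .no .no (.use
  489) .no .no) .no (.br 1339 (.con 136 [1, 1, 1, 4]) .no .no (.use 489) .no .no)) .no .no (.br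
  1330 .no .no .no (.use 487) (.use 488) (.red [.f 1329 5 3, .f 1330 3 1, .f 1338 1 3] 184 136 [1,
  1, 1] [(183, 136, [4, 1, 1, 1]), (184, 136, [1, 1, 1])])) (.br 1339 .no .no .no (.use 489) .no
  .no) (.red [.f 1337 5 1, .f 1338 1 3, .t 1346 4 2] 168 136 [1, 1] [(168, 136, [1, 1]), (184,
  136, [1, 1, 1])])) .no (.red [.t 1218 3 1, .f 1210 5 3, .t 1217 1 4] 168 136 [1, 1] [(168, 136,
  [1, 1]), (169, 168, [3])]) (.hor [.t 1217 1 3, .f 1344 3 5] [(169, 168, [3])])) .no .no .no)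
  (.red [.f 1193 5 3, .f 1065 3 1, .f 1073 1 3] 151 136 [4, 1] [(150, 136, [4, 4, 1]), (151, 136,
  [4, 1])])) (.red [.f 1208 3 1, .f 1216 1 5] 168 136 [1, 1] [(168, 136, [1, 1])]) .no .no)) .no
  .no

def c22t491 : Tr4 :=
  .br 1227 (.hor [.f 1219 1 3, .f 1218 3 5] [(169, 168, [3])]) .no (.br 1354 (.use 466) .no (.br
  1336 (.br 1465 (.br 1339 (.use 465) .no .no (.br 1330 (.use 474) .no .no .no .no (.red [.f 1201
  5 1, .t 1330 2 3, .f 1211 1 3] 168 136 [1, 1] [(167, 136, [4, 1, 1]), (168, 136, [1, 1])])) .no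
  .no) .no (.red [.t 1473 4 2, .t 1346 4 2] 168 136 [1, 1] [(168, 136, [1, 1]), (184, 136, [1, 1,
  1])]) (.use 470) (.red [.f 1337 5 1, .f 1336 1 5, .t 1216 4 1] 168 136 [1, 1] [(168, 136, [1,
  1])]) .no) .no .no (.use 462) .no .no) .no (.red [.t 1218 3 1, .f 1210 5 3, .t 1217 1 4] 168 136
  [1, 1] [(168, 136, [1, 1]), (169, 168, [3])]) (.hor [.t 1217 1 3, .f 1344 3 5] [(169, 168,
  [3])])) .no .no .no

def c22t492 : Tr4 :=
  .br 1330 (.con 136 [1, 1, 4, 4, 1]) .no .no (.hor [.f 1321 3 5] []) (.con 136 [1, 1, 4, 1]) .no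

def c22t493 : Tr4 :=
  .br 1210 (.br 1337 (.br 1336 (.hor [.f 1336 1 5] []) .no (.hor [.f 1208 3 1, .f 1216 1 5] [(168,
  136, [1, 1])]) (.br 1329 (.red [.f 1329 1 3, .f 1328 3 5] 183 136 [4, 1, 1, 1] [(183, 136, [4,
  1, 1, 1])]) .no .no (.use 492) (.red [.f 1201 5 1, .f 1202 1 3] 167 136 [4, 1, 1] [(167, 136,
  [4, 1, 1])]) .no) .no .no) .no .no (.red [.t 1337 4 2] 167 136 [4, 1, 1] [(167, 136, [4, 1,
  1])]) .no (.hor [.t 1216 4 1, .t 1096 4 1, .f 1217 3 5] [(153, 136, [1, 3]), (168, 136, [1,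
  1])])) .no .no .no .no .no

def c22t494 : Tr4 :=
  .br 1211 (.hor [.f 1210 1 5] []) .no .no (.con 136 [4, 1, 1]) .no .no

def c22t495 : Tr4 :=
  .br 1210 (.use 494) .no .no .no (.red [.f 1210 5 3, .f 1082 3 1, .f 1081 1 5, .t 945 3 1, .f 953
  1 3] 136 136 [] [(135, 136, [4]), (136, 136, []), (152, 136, [1])]) .no

def c22t496 : Tr4 :=
  .br 1200 .no .no .no (.con 136 [4, 4, 1, 1]) .no .no

def c22t497 : Tr4 :=
  .br 1203 (.con 136 [4, 1, 1, 4]) .no .no .no .no .no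

def c22t498 : Tr4 :=
  .br 1330 .no .no .no (.br 1328 (.use 483) (.use 477) .no (.use 496) (.use 497) .no) (.use 488)
  (.red [.f 1329 5 3, .f 1330 3 1, .f 1338 1 3] 184 136 [1, 1, 1] [(183, 136, [4, 1, 1, 1]), (184,
  136, [1, 1, 1])])

def c22t499 : Tr4 :=
  .br 1328 (.use 483) (.con 136 [4, 4, 1, 1, 3]) .no (.use 496) (.use 497) .no

def c22t500 : Tr4 :=
  .br 1330 (.use 461) .no .no (.use 484) (.con 136 [4, 1, 1, 1]) (.red [.f 1329 5 3, .f 1328 3 5,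
  .t 1216 4 1] 168 136 [1, 1] [(168, 136, [1, 1])])

def c22t501 : Tr4 :=
  .br 1194 (.use 491) .no .no (.red [.f 1058 3 1, .t 1065 3 1] 150 136 [4, 4, 1] [(149, 136, [4,
  4, 1, 4]), (150, 136, [4, 4, 1])]) (.br 1227 (.hor [.f 1219 1 3, .f 1218 3 5] [(169, 168, [3])])
  .no (.br 1354 (.use 466) .no (.br 1336 (.br 1465 (.br 1466 (.hor [.f 1465 1 5] []) .no .no (.use
  498) (.use 473) .no) .no (.red [.t 1473 4 2, .t 1346 4 2] 168 136 [1, 1] [(168, 136, [1, 1]),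
  (184, 136, [1, 1, 1])]) (.br 1339 (.br 1466 (.con 136 [4, 1, 1, 1, 1]) .no .no (.use 498) .no
  .no) .no .no (.br 1330 (.use 475) .no .no (.use 499) .no (.red [.f 1201 5 1, .t 1330 2 3, .f
  1211 1 3] 168 136 [1, 1] [(167, 136, [4, 1, 1]), (168, 136, [1, 1])])) .no .no) (.red [.f 1337 5
  1, .f 1336 1 5, .t 1216 4 1] 168 136 [1, 1] [(168, 136, [1, 1])]) .no) .no .no (.use 500) .no
  .no) .no (.red [.t 1218 3 1, .f 1210 5 3, .t 1217 1 4] 168 136 [1, 1] [(168, 136, [1, 1]), (169,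
  168, [3])]) (.hor [.t 1217 1 3, .f 1344 3 5] [(169, 168, [3])])) .no .no .no) (.red [.f 1193 5
  3, .f 1065 3 1, .f 1073 1 3] 151 136 [4, 1] [(150, 136, [4, 4, 1]), (151, 136, [4, 1])])

def c22t502 : Tr4 :=
  .br 1227 (.hor [.f 1219 1 3, .f 1218 3 5] [(169, 168, [3])]) .no (.br 1354 (.use 466) .no (.br
  1336 (.br 1203 (.br 1328 (.con 136 [4, 1, 1, 4]) (.br 1330 (.use 475) .no .no (.br 1466 (.br
  1465 (.use 478) .no (.red [.t 1473 4 2, .t 1346 4 2] 168 136 [1, 1] [(168, 136, [1, 1]), (184,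
  136, [1, 1, 1])]) (.con 136 [4, 1, 1, 1, 1]) .no .no) .no .no (.use 477) (.con 136 [4, 1, 1, 1,
  3]) (.red [.f 1337 5 1, .f 1336 1 5, .t 1216 4 1] 168 136 [1, 1] [(168, 136, [1, 1])])) .no
  (.red [.f 1201 5 1, .f 1200 1 5, .t 1080 4 1] 151 136 [4, 1] [(151, 136, [4, 1])])) .no (.con
  136 [4, 1, 1, 4]) (.con 136 [4, 1, 1, 4]) .no) .no .no (.red [.f 1066 5 3, .f 1067 3 1] 150 136
  [4, 4, 1] [(150, 136, [4, 4, 1])]) .no .no) .no .no (.use 500) .no .no) .no (.red [.t 1218 3 1,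
  .f 1210 5 3, .t 1217 1 4] 168 136 [1, 1] [(168, 136, [1, 1]), (169, 168, [3])]) (.hor [.t 1217 1
  3, .f 1344 3 5] [(169, 168, [3])])) .no .no .no

def c22t503 : Tr4 :=
  .br 1219 (.con 136 [1, 1]) .no (.con 136 [1, 1]) (.hor [.f 1210 3 5] []) .no .no

def c22t504 : Tr4 :=
  .br 1338 (.hor [.f 1337 1 5] []) .no (.red [.f 1210 5 3, .f 1210 3 1] 168 136 [1, 1] [(168, 136,
  [1, 1])]) (.con 136 [4, 1, 1, 1]) (.con 136 [4, 1, 1, 1]) .no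

def c22t505 : Tr4 :=
  .br 1226 (.red [.t 1354 2 4, .f 1210 5 1, .f 1211 1 3] 168 136 [1, 1] [(168, 136, [1, 1]), (169,
  136, [3, 1, 1])]) .no (.hor [.f 1098 3 1, .f 1097 1 5] [(154, 136, [3, 3, 1])]) .no (.red [.f
  1218 5 3, .f 1210 5 1, .f 1219 3 1, .f 1211 1 3] 168 136 [1, 1] [(168, 136, [1, 1]), (169, 136,
  [3, 1, 1])]) .no

def c22t506 : Tr4 :=
  .br 1344 (.br 1336 (.red [.f 1336 1 3, .f 1208 3 1, .f 1216 1 5] 168 136 [1, 1] [(168, 136, [1,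
  1]), (184, 136, [1, 1, 1])]) .no .no (.use 504) .no .no) .no (.br 1338 (.hor [.f 1337 1 5] [])
  .no (.red [.f 1210 5 3, .f 1210 3 1] 168 136 [1, 1] [(168, 136, [1, 1])]) (.br 1339 (.con 136
  [4, 1, 1, 1]) .no (.con 136 [1, 1, 1]) (.hor [.f 1330 3 5] []) .no .no) (.br 1346 (.br 1347
  (.hor [.f 1346 1 5] []) .no (.use 505) .no .no .no) .no (.br 1347 (.con 136 [3, 1, 1, 1]) .no
  (.use 505) .no .no .no) .no (.red [.f 1218 5 1, .f 1210 5 1, .f 1211 1 3] 168 136 [1, 1] [(168,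
  136, [1, 1])]) .no) .no) (.red [.f 1208 3 1, .f 1216 1 5] 168 136 [1, 1] [(168, 136, [1, 1])])
  .no .no

def c22t507 : Tr4 :=
  .br 1347 (.con 136 [1, 3, 1, 1]) .no (.hor [.f 1346 3 5] []) (.con 136 [1, 1, 1]) .no .no

def c22t508 : Tr4 :=
  .br 1330 (.hor [.f 1330 1 3, .f 1329 3 5] [(183, 167, [1])]) .no .no .no .no .no

def c22t509 : Tr4 :=
  .br 1339 (.hor [.f 1338 1 5] []) .no .no (.use 508) .no .no

def c22t510 : Tr4 :=
  .br 1328 (.hor [.f 1328 1 3, .f 1328 3 5] [(183, 167, [1])]) (.con 136 [4, 4, 1, 1, 3]) .no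
  (.use 496) .no .no

def c22t511 : Tr4 :=
  .br 1330 (.hor [.f 1330 1 3, .f 1329 3 5] [(183, 167, [1])]) .no .no (.use 510) .no .no

def c22t512 : Tr4 :=
  .br 1339 (.hor [.f 1338 1 5] []) .no .no (.use 511) .no .no

def c22t513 : Tr4 :=
  .br 1336 (.br 1344 (.red [.f 1336 1 3, .f 1208 3 1, .f 1216 1 5] 168 136 [1, 1] [(168, 136, [1,
  1]), (184, 136, [1, 1, 1])]) .no (.br 1346 (.red [.f 1338 1 3] 184 136 [1, 1, 1] [(184, 136, [1,
  1, 1])]) .no (.use 507) .no (.br 1194 (.use 509) .no .no (.red [.f 1058 3 1, .t 1065 3 1] 150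
  136 [4, 4, 1] [(149, 136, [4, 4, 1, 4]), (150, 136, [4, 4, 1])]) (.use 512) (.red [.f 1193 5 3,
  .f 1065 3 1, .f 1073 1 3] 151 136 [4, 1] [(150, 136, [4, 4, 1]), (151, 136, [4, 1])])) .no) .no
  .no .no) .no (.red [.f 1208 3 1, .f 1216 1 5] 168 136 [1, 1] [(168, 136, [1, 1])]) (.hor [.f
  1328 3 5] []) .no .no

def c22t514 : Tr4 :=
  .br 1475 (.hor [.f 1474 1 5] []) .no (.br 1473 (.red [.f 1465 1 3] 200 136 [1, 1, 1, 1] [(200,
  136, [1, 1, 1, 1])]) .no (.con 136 [1, 1, 1, 1, 3]) .no .no (.con 136 [1, 1, 1, 3, 1])) (.red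
  [.t 1466 2 3] 184 136 [1, 1, 1] [(184, 136, [1, 1, 1])]) .no .no

def c22l15 : List Tr4 :=
  [c22t485, c22t486, c22t487, c22t488, c22t489, c22t490, c22t491, c22t492, c22t493, c22t494,
  c22t495, c22t496, c22t497, c22t498, c22t499, c22t500, c22t501, c22t502, c22t503, c22t504,
  c22t505, c22t506, c22t507, c22t508, c22t509, c22t510, c22t511, c22t512, c22t513, c22t514]

theorem c22k15 : chkLF ⟨4, 0, 0, true, -8⟩ false 2 c22N 485 c22l15 = true := by decide +kernel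

def c22t515 : Tr4 :=
  .br 1226 (.br 1339 (.hor [.f 1338 1 5] []) .no .no (.br 1330 (.hor [.f 1330 1 3, .f 1329 3 5]
  [(183, 167, [1])]) .no .no (.br 1227 (.hor [.f 1226 1 5] []) .no (.br 1465 (.br 1355 (.br 1474
  (.br 1467 (.br 1475 (.red [.f 1467 1 3] 200 136 [1, 1, 1, 1] [(200, 136, [1, 1, 1, 1])]) .no .no
  .no .no .no) .no (.red [.t 1466 2 3, .f 1347 1 3] 185 136 [3, 1, 1, 1] [(184, 136, [1, 1, 1]),
  (185, 136, [3, 1, 1, 1])]) (.hor [.f 1331 3 1, .f 1338 1 5] [(183, 167, [1])]) .no .no) .no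
  (.red [.t 1482 4 2] 185 136 [3, 1, 1, 1] [(185, 136, [3, 1, 1, 1])]) .no (.red [.f 1346 5 1, .f
  1347 1 3] 185 136 [3, 1, 1, 1] [(185, 136, [3, 1, 1, 1])]) (.red [.f 1218 5 1, .f 1217 1 5, .f
  1345 5 1, .f 1338 1 3] 184 136 [1, 1, 1] [(184, 136, [1, 1, 1])])) .no (.hor [.f 1227 3 1, .f
  1226 1 5] [(170, 168, [3, 3])]) .no .no .no) .no (.red [.f 1218 5 1, .f 1217 1 5, .t 1465 3 2]
  184 136 [1, 1, 1] [(184, 136, [1, 1, 1])]) (.hor [.f 1329 3 1, .f 1336 1 5] [(183, 167, [1])])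
  .no .no) .no .no .no) .no .no) .no .no) .no (.hor [.f 1098 3 1, .f 1097 1 5] [(154, 136, [3, 3,
  1])]) .no (.br 1105 (.hor [.f 1097 1 3, .f 1097 3 5] [(154, 136, [3, 3, 1])]) (.br 1339 (.hor
  [.f 1338 1 5] []) .no .no (.br 1330 (.hor [.f 1330 1 3, .f 1329 3 5] [(183, 167, [1])]) .no .no
  (.br 1107 (.hor [.t 1106 4 1, .f 1097 1 5] [(154, 136, [3, 3, 1])]) .no (.br 1465 (.br 1193
  (.red [.t 1321 2 3, .t 1330 2 3] 167 136 [4, 1, 1] [(166, 136, [4, 4, 1, 1]), (167, 136, [4, 1,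
  1])]) .no .no (.hor [.f 1185 3 5] []) .no (.br 1328 (.hor [.f 1328 1 3, .f 1328 3 5] [(183, 167,
  [1])]) (.br 1235 (.br 1355 (.br 1474 (.br 1475 (.hor [.f 1474 1 5] []) .no .no (.red [.t 1466 2
  3, .f 1347 1 3] 185 136 [3, 1, 1, 1] [(184, 136, [1, 1, 1]), (185, 136, [3, 1, 1, 1])]) .no .no)
  .no (.red [.t 1482 4 2] 185 136 [3, 1, 1, 1] [(185, 136, [3, 1, 1, 1])]) .no (.red [.f 1346 5 1,
  .f 1347 1 3] 185 136 [3, 1, 1, 1] [(185, 136, [3, 1, 1, 1])]) (.red [.f 1218 5 1, .f 1217 1 5,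
  .f 1345 5 1, .f 1338 1 3] 184 136 [1, 1, 1] [(184, 136, [1, 1, 1])])) .no .no .no .no (.br 1474
  (.use 514) .no (.red [.f 1346 5 3, .f 1346 3 1] 185 136 [3, 1, 1, 1] [(185, 136, [3, 1, 1, 1])])
  .no (.red [.f 1226 5 1, .f 1346 5 1, .f 1338 1 3] 184 136 [1, 1, 1] [(184, 136, [1, 1, 1])])
  (.red [.f 1218 5 1, .f 1217 1 5, .f 1345 5 1, .f 1338 1 3] 184 136 [1, 1, 1] [(184, 136, [1, 1,
  1])]))) .no (.hor [.f 1218 5 3, .f 1107 3 1, .f 1218 3 5, .t 1106 4 1, .f 1097 1 5] [(154, 136,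
  [3, 3, 1]), (155, 136, [3, 3, 3, 1])]) .no .no (.br 1474 (.use 514) .no (.br 1475 (.br 1467
  (.red [.f 1467 1 3] 200 136 [1, 1, 1, 1] [(200, 136, [1, 1, 1, 1])]) .no .no (.hor [.f 1331 3 1,
  .f 1338 1 5] [(183, 167, [1])]) .no .no) .no (.hor [.f 1474 3 5] []) (.red [.t 1466 2 3] 184 136
  [1, 1, 1] [(184, 136, [1, 1, 1])]) .no .no) .no (.red [.f 1226 5 3, .f 1346 5 1, .f 1338 1 3]
  184 136 [1, 1, 1] [(184, 136, [1, 1, 1])]) (.red [.f 1218 5 1, .f 1217 1 5, .f 1345 5 1, .f 1338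
  1 3] 184 136 [1, 1, 1] [(184, 136, [1, 1, 1])]))) .no (.br 1203 .no .no .no (.con 136 [4, 1, 1,
  4, 2]) .no .no) .no .no)) .no (.red [.f 1218 5 1, .f 1217 1 5, .t 1465 3 2] 184 136 [1, 1, 1]
  [(184, 136, [1, 1, 1])]) (.hor [.f 1329 3 1, .f 1336 1 5] [(183, 167, [1])]) .no .no) .no .no
  .no) .no .no) .no .no) (.br 1104 (.con 136 [3, 1, 1, 3, 2, 2, 4, 4]) .no (.hor [.f 1104 3 5] [])
  .no .no .no) .no .no (.br 1224 .no .no (.hor [.t 1224 3 2, .f 1097 3 5] [(154, 136, [3, 3, 1])])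
  .no .no .no)) .no

def c22t516 : Tr4 :=
  .br 1336 (.br 1344 (.red [.f 1336 1 3, .f 1208 3 1, .f 1216 1 5] 168 136 [1, 1] [(168, 136, [1,
  1]), (184, 136, [1, 1, 1])]) .no (.br 1346 (.red [.f 1338 1 3] 184 136 [1, 1, 1] [(184, 136, [1,
  1, 1])]) .no (.use 507) .no (.br 1194 (.use 509) .no .no (.use 515) (.use 512) (.red [.f 1193 5
  3, .f 1065 3 1, .f 1073 1 3] 151 136 [4, 1] [(150, 136, [4, 4, 1]), (151, 136, [4, 1])])) .no)
  .no .no .no) .no (.red [.f 1208 3 1, .f 1216 1 5] 168 136 [1, 1] [(168, 136, [1, 1])]) (.hor [.f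
  1328 3 5] []) .no .no

def c22t517 : Tr4 :=
  .br 946 .no (.hor [.f 818 1 3, .f 945 3 5] [(119, 136, [2, 4])]) .no (.br 1218 (.hor [.f 1217 1
  5] []) .no (.br 1219 (.br 1211 (.use 325) .no .no (.con 136 [4, 1, 1]) .no (.br 1346 (.br 1338
  (.red [.f 1338 1 3, .t 1346 4 2] 168 136 [1, 1] [(168, 136, [1, 1]), (184, 136, [1, 1, 1])]) .no
  .no (.use 459) (.red [.f 1210 5 1, .f 1211 1 3] 168 136 [1, 1] [(168, 136, [1, 1])]) (.br 1344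
  (.use 463) .no (.br 1066 (.red [.t 1065 3 1, .f 1073 1 3] 151 136 [4, 1] [(150, 136, [4, 4, 1]),
  (151, 136, [4, 1])]) .no .no (.use 501) (.use 502) .no) (.red [.f 1208 3 1, .f 1216 1 5] 168 136
  [1, 1] [(168, 136, [1, 1])]) .no .no)) .no (.hor [.f 1218 3 1, .f 1217 1 5] [(169, 168, [3])])
  (.red [.t 1346 4 2] 168 136 [1, 1] [(168, 136, [1, 1])]) .no .no)) .no (.hor [.f 1218 3 5] [])
  (.use 493) .no .no) (.use 503) (.br 1210 (.use 494) .no .no .no (.br 1337 (.use 506) .no .no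
  (.br 1338 (.br 968 .no .no (.br 1066 (.red [.t 1065 3 1, .f 1073 1 3] 151 136 [4, 1] [(150, 136,
  [4, 4, 1]), (151, 136, [4, 1])]) .no .no (.use 513) (.use 516) .no) .no .no .no) .no (.red [.f
  1210 5 3, .f 1210 3 1] 168 136 [1, 1] [(168, 136, [1, 1])]) (.hor [.f 1329 3 5] []) (.red [.f
  1210 5 3, .f 1210 3 5, .f 1210 5 1, .t 1337 4 2] 167 136 [4, 1, 1] [(167, 136, [4, 1, 1])]) .no)
  (.red [.f 1210 5 3, .t 1217 1 4] 168 136 [1, 1] [(168, 136, [1, 1])]) (.red [.t 1216 4 1] 168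
  136 [1, 1] [(168, 136, [1, 1])])) .no) .no) (.br 1218 (.hor [.f 1217 1 5] []) .no (.br 1219 (.br
  1211 (.use 325) .no .no (.con 136 [4, 1, 1]) .no (.br 1346 (.br 1338 (.red [.f 1338 1 3, .t 1346
  4 2] 168 136 [1, 1] [(168, 136, [1, 1]), (184, 136, [1, 1, 1])]) .no .no (.use 459) (.red [.f
  1210 5 1, .f 1211 1 3] 168 136 [1, 1] [(168, 136, [1, 1])]) (.br 1344 (.use 463) .no (.br 1066
  (.red [.t 1065 3 1, .f 1073 1 3] 151 136 [4, 1] [(150, 136, [4, 4, 1]), (151, 136, [4, 1])])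
  (.red [.f 946 5 1, .f 938 1 3, .f 1065 3 5, .f 1073 5 1, .f 1073 1 3] 151 136 [4, 1] [(134, 150,
  [2]), (151, 136, [4, 1])]) .no (.use 501) (.use 502) .no) (.red [.f 1208 3 1, .f 1216 1 5] 168
  136 [1, 1] [(168, 136, [1, 1])]) .no .no)) .no (.hor [.f 1218 3 1, .f 1217 1 5] [(169, 168,
  [3])]) (.red [.t 1346 4 2] 168 136 [1, 1] [(168, 136, [1, 1])]) .no .no)) .no (.hor [.f 1218 3
  5] []) (.use 493) .no .no) (.use 503) (.br 1210 (.use 494) .no .no .no (.br 1337 (.use 506) .no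
  .no (.br 1338 (.br 1066 (.red [.t 1065 3 1, .f 1073 1 3] 151 136 [4, 1] [(150, 136, [4, 4, 1]),
  (151, 136, [4, 1])]) (.red [.f 946 5 1, .f 938 1 3, .f 1065 3 5, .f 1073 5 1, .f 1073 1 3] 151
  136 [4, 1] [(134, 150, [2]), (151, 136, [4, 1])]) .no (.use 513) (.br 968 .no .no (.use 516) .no
  .no .no) .no) .no (.red [.f 1210 5 3, .f 1210 3 1] 168 136 [1, 1] [(168, 136, [1, 1])]) (.hor
  [.f 1329 3 5] []) (.red [.f 1210 5 3, .f 1210 3 5, .f 1210 5 1, .t 1337 4 2] 167 136 [4, 1, 1]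
  [(167, 136, [4, 1, 1])]) .no) (.red [.f 1210 5 3, .t 1217 1 4] 168 136 [1, 1] [(168, 136, [1,
  1])]) (.red [.t 1216 4 1] 168 136 [1, 1] [(168, 136, [1, 1])])) .no) .no) .no

def c22t518 : Tr4 :=
  .br 1200 (.red [.f 1208 3 1, .f 1200 1 3, .f 1072 3 1, .f 1080 1 5] 151 136 [4, 1] [(151, 136,
  [4, 1]), (167, 136, [4, 1, 1]), (168, 136, [1, 1])]) .no .no (.use 353) .no .no

def c22t519 : Tr4 :=
  .br 1329 (.red [.f 1329 1 3, .f 1328 3 5] 183 136 [4, 1, 1, 1] [(183, 136, [4, 1, 1, 1])]) .no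
  .no (.con 136 [4, 1, 1, 4, 1]) (.red [.f 1201 5 1, .f 1202 1 3] 167 136 [4, 1, 1] [(167, 136,
  [4, 1, 1])]) .no

def c22t520 : Tr4 :=
  .br 1203 .no .no .no (.red [.t 938 3 1, .f 1067 3 1] 150 136 [4, 4, 1] [(134, 136, [4, 4]),
  (150, 136, [4, 4, 1])]) .no .no

def c22t521 : Tr4 :=
  .br 1336 (.red [.f 1336 1 3, .f 1208 3 1] 184 136 [1, 1, 1] [(168, 136, [1, 1]), (184, 136, [1,
  1, 1])]) .no .no (.br 1339 (.con 136 [4, 1, 1, 1]) .no (.con 136 [1, 1, 1]) (.use 520) .no .no)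
  .no .no

def c22t522 : Tr4 :=
  .br 1195 (.hor [.f 1194 1 5] []) .no .no (.br 1321 (.con 136 [4, 1, 4, 1, 4]) (.hor [.f 1193 1
  5] []) .no (.con 136 [4, 1, 4, 1, 4]) .no (.con 136 [4, 1, 4, 1, 4])) .no .no

def c22t523 : Tr4 :=
  .br 1328 (.con 136 [4, 1, 1, 4]) (.br 1329 (.use 522) .no .no (.con 136 [4, 1, 4, 1, 1]) (.red
  [.f 1201 5 1, .f 1200 1 5, .t 1080 4 1] 151 136 [4, 1] [(151, 136, [4, 1])]) .no) .no (.con 136
  [4, 1, 1, 4]) (.con 136 [4, 1, 1, 4]) .no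

def c22t524 : Tr4 :=
  .br 1203 (.use 523) .no .no (.red [.t 938 3 1, .f 1067 3 1] 150 136 [4, 4, 1] [(134, 136, [4,
  4]), (150, 136, [4, 4, 1])]) .no .no

def c22t525 : Tr4 :=
  .br 1328 (.con 136 [4, 1, 1, 4]) (.br 1329 (.use 522) .no .no (.con 136 [4, 4, 1, 1, 1]) (.red
  [.f 1201 5 1, .f 1200 1 5, .t 1080 4 1] 151 136 [4, 1] [(151, 136, [4, 1])]) .no) .no (.con 136
  [4, 1, 1, 4]) (.con 136 [4, 1, 1, 4]) .no

def c22t526 : Tr4 :=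
  .br 1203 (.use 525) .no .no (.red [.t 938 3 1, .f 1067 3 1] 150 136 [4, 4, 1] [(134, 136, [4,
  4]), (150, 136, [4, 4, 1])]) .no .no

def c22t527 : Tr4 :=
  .br 1321 (.con 136 [4, 4, 1, 1, 4]) (.hor [.f 1193 1 5] []) (.con 136 [4, 4, 1, 1, 4]) (.con 136
  [4, 4, 1, 1, 4]) .no (.con 136 [4, 4, 1, 1, 4])

def c22t528 : Tr4 :=
  .br 1067 (.use 527) .no .no (.hor [.f 1058 3 5] []) .no .no

def c22t529 : Tr4 :=
  .br 1331 (.red [.f 1331 1 3] 183 136 [4, 1, 1, 1] [(183, 136, [4, 1, 1, 1])]) (.red [.t 1330 4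
  2] 166 136 [4, 1, 4, 1] [(166, 136, [4, 1, 4, 1])]) .no (.hor [.f 1322 3 5] []) .no .no

def c22t530 : Tr4 :=
  .br 1329 (.hor [.f 1329 1 5] []) .no .no (.con 136 [4, 1, 4, 1, 1]) .no .no

def c22t531 : Tr4 :=
  .br 1331 (.hor [.f 1330 1 5] []) (.br 1328 (.con 136 [4, 1, 1, 4]) (.use 530) .no (.con 136 [4,
  1, 1, 4]) (.con 136 [4, 1, 1, 4]) .no) .no (.br 1328 (.con 136 [4, 4, 1, 1, 1]) (.con 136 [4, 4,
  1, 1, 3]) .no (.use 496) (.con 136 [4, 4, 1, 1, 1]) .no) .no .no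

def c22t532 : Tr4 :=
  .br 1465 (.hor [.f 1465 1 5] []) .no (.red [.t 1337 3 2, .t 1217 1 4, .f 1337 3 1] 184 136 [1,
  1, 1] [(184, 136, [1, 1, 1])]) (.con 136 [4, 1, 1, 1, 1]) .no .no

def c22t533 : Tr4 :=
  .br 1329 (.hor [.f 1328 1 5] []) .no .no (.br 1330 (.con 136 [4, 1, 1, 4, 1]) .no .no (.hor [.f
  1321 3 5] []) (.con 136 [4, 1, 1, 4, 1]) .no) (.red [.f 1201 5 1, .f 1202 1 3] 167 136 [4, 1, 1]
  [(167, 136, [4, 1, 1])]) .no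

def c22t534 : Tr4 :=
  .br 1329 (.hor [.f 1329 1 5] []) .no .no (.con 136 [4, 1, 4, 1, 1]) .no .no

def c22t535 : Tr4 :=
  .br 1330 (.use 534) .no .no (.red [.t 1330 4 2] 166 136 [4, 1, 4, 1] [(166, 136, [4, 1, 4, 1])])
  .no (.red [.f 1201 5 1, .f 1200 1 5, .t 1080 4 1] 151 136 [4, 1] [(151, 136, [4, 1])])

def c22t536 : Tr4 :=
  .br 1328 (.use 533) (.br 1331 (.con 136 [4, 4, 1, 1, 3]) (.use 535) .no (.con 136 [4, 4, 1, 1,
  3]) .no (.con 136 [4, 4, 1, 1, 3])) .no (.use 496) (.red [.f 1328 5 3, .t 1337 4 2] 167 136 [4,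
  1, 1] [(167, 136, [4, 1, 1])]) .no

def c22t537 : Tr4 :=
  .br 1329 (.hor [.f 1329 1 5] []) .no .no (.con 136 [4, 1, 4, 1, 1]) .no .no

def c22t538 : Tr4 :=
  .br 1328 (.use 533) (.br 1330 (.use 537) .no .no (.br 1331 (.con 136 [4, 4, 1, 1, 3]) (.use 535)
  .no (.con 136 [4, 4, 1, 1, 3]) .no .no) (.con 136 [4, 4, 1, 1, 3]) (.red [.f 1201 5 1, .f 1200 1
  5, .t 1080 4 1] 151 136 [4, 1] [(151, 136, [4, 1])])) .no (.use 496) (.red [.f 1328 5 3, .t 1337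
  4 2] 167 136 [4, 1, 1] [(167, 136, [4, 1, 1])]) .no

def c22t539 : Tr4 :=
  .br 1339 (.use 536) .no (.use 538) (.use 520) .no .no

def c22t540 : Tr4 :=
  .br 1067 .no .no .no (.hor [.f 1058 3 5] []) .no .no

def c22t541 : Tr4 :=
  .br 1194 (.br 939 (.br 1337 (.br 1336 (.hor [.f 1336 1 5] []) .no (.use 518) (.use 519) .no .no)
  .no (.br 1344 (.use 521) .no (.br 1339 (.br 1336 (.use 524) .no .no (.con 136 [4, 1, 1, 1]) .no
  .no) .no (.con 136 [1, 1, 1]) (.use 520) .no .no) (.use 518) .no .no) (.red [.t 1337 4 2] 167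
  136 [4, 1, 1] [(167, 136, [4, 1, 1])]) .no (.use 526)) (.use 349) (.hor [.f 938 3 5] []) (.use
  528) .no .no) .no .no (.red [.f 1058 3 1, .t 1065 3 1] 150 136 [4, 4, 1] [(149, 136, [4, 4, 1,
  4]), (150, 136, [4, 4, 1])]) (.br 939 (.br 1337 (.br 1336 (.hor [.f 1336 1 5] []) .no (.use 518)
  (.br 1339 (.con 136 [4, 1, 1, 1]) .no (.con 136 [4, 1, 1, 1]) (.use 520) .no .no) .no .no) .no
  (.br 1344 (.use 521) .no (.br 1339 (.br 1336 (.br 1472 (.br 1330 (.use 531) .no .no (.use 529)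
  (.br 1466 (.use 532) .no (.br 1473 (.con 136 [1, 1, 1, 1]) .no (.con 136 [1, 1, 1, 1]) (.hor [.f
  1465 3 5] []) .no .no) (.red [.t 1466 4 2] 183 136 [4, 1, 1, 1] [(183, 136, [4, 1, 1, 1])]) .no
  (.hor [.t 1337 3 2, .f 1210 3 5, .f 1337 5 1, .f 1336 1 5, .t 1216 4 1] [])) (.red [.f 1201 5 1,
  .f 1202 1 3] 167 136 [4, 1, 1] [(167, 136, [4, 1, 1])])) .no (.red [.f 1344 3 1, .f 1336 1 3, .f
  1208 3 1] 184 136 [1, 1, 1] [(168, 136, [1, 1]), (184, 136, [1, 1, 1]), (185, 136, [1, 3, 1,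
  1])]) .no (.red [.t 1336 1 3] 184 136 [1, 1, 1] [(184, 136, [1, 1, 1])]) .no) .no .no (.con 136
  [4, 1, 1, 1]) .no .no) .no (.con 136 [1, 1, 1]) (.use 520) .no .no) (.use 518) .no .no) (.red
  [.t 1337 4 2] 167 136 [4, 1, 1] [(167, 136, [4, 1, 1])]) .no (.use 539)) (.use 349) (.hor [.f
  938 3 5] []) (.use 540) .no .no) (.red [.f 1193 5 3, .f 1065 3 1, .f 1073 1 3] 151 136 [4, 1]
  [(150, 136, [4, 4, 1]), (151, 136, [4, 1])])

def c22t542 : Tr4 :=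
  .br 1200 (.red [.f 1208 3 1, .f 1200 1 3, .f 1072 3 1, .f 1080 1 5] 151 136 [4, 1] [(151, 136,
  [4, 1]), (167, 136, [4, 1, 1]), (168, 136, [1, 1])]) .no .no (.use 355) .no .no

def c22t543 : Tr4 :=
  .br 1336 (.hor [.f 1336 1 5] []) .no (.use 542) (.use 519) .no .no

def c22t544 : Tr4 :=
  .br 1203 .no .no .no (.red [.f 1066 5 3, .f 1067 3 1] 150 136 [4, 4, 1] [(150, 136, [4, 4, 1])])
  .no .no

def c22t545 : Tr4 :=
  .br 1339 (.con 136 [4, 1, 1, 1]) .no (.con 136 [1, 1, 1]) (.use 544) .no .no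

def c22t546 : Tr4 :=
  .br 1336 (.red [.f 1336 1 3, .f 1208 3 1] 184 136 [1, 1, 1] [(168, 136, [1, 1]), (184, 136, [1,
  1, 1])]) .no .no (.use 545) .no .no

def c22t547 : Tr4 :=
  .br 1330 .no .no .no .no (.red [.t 1466 4 2] 183 136 [4, 1, 1, 1] [(183, 136, [4, 1, 1, 1])])
  (.red [.f 1201 5 1, .f 1202 1 3] 167 136 [4, 1, 1] [(167, 136, [4, 1, 1])])

def c22t548 : Tr4 :=
  .br 1466 (.use 532) .no .no (.use 547) .no (.hor [.t 1337 3 2, .f 1210 3 5, .f 1337 5 1, .f 1336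
  1 5, .t 1216 4 1] [])

def c22l16 : List Tr4 :=
  [c22t515, c22t516, c22t517, c22t518, c22t519, c22t520, c22t521, c22t522, c22t523, c22t524,
  c22t525, c22t526, c22t527, c22t528, c22t529, c22t530, c22t531, c22t532, c22t533, c22t534,
  c22t535, c22t536, c22t537, c22t538, c22t539, c22t540, c22t541, c22t542, c22t543, c22t544,
  c22t545, c22t546, c22t547, c22t548]

theorem c22k16 : chkLF ⟨4, 0, 0, true, -8⟩ false 2 c22N 515 c22l16 = true := by decide +kernel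

def c22t549 : Tr4 :=
  .br 1203 (.br 1328 (.con 136 [4, 1, 1, 4]) (.br 1330 (.use 534) .no .no .no .no (.red [.f 1201 5
  1, .f 1200 1 5, .t 1080 4 1] 151 136 [4, 1] [(151, 136, [4, 1])])) .no (.con 136 [4, 1, 1, 4])
  (.con 136 [4, 1, 1, 4]) .no) .no .no (.red [.f 1066 5 3, .f 1067 3 1] 150 136 [4, 4, 1] [(150,
  136, [4, 4, 1])]) .no .no

def c22t550 : Tr4 :=
  .br 1195 (.red [.f 1195 1 3] 166 136 [4, 1, 4, 1] [(166, 136, [4, 1, 4, 1])]) .no .no (.hor [.f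
  1186 3 5] []) .no .no

def c22t551 : Tr4 :=
  .br 1203 (.use 550) .no .no (.red [.f 1066 5 3, .f 1067 3 1] 150 136 [4, 4, 1] [(150, 136, [4,
  4, 1])]) .no .no

def c22t552 : Tr4 :=
  .br 1337 (.use 450) .no (.br 1344 (.con 136 [1, 1, 1]) .no (.con 136 [1, 1, 1]) (.red [.f 1208 3
  1] 168 136 [1, 1] [(168, 136, [1, 1])]) .no .no) (.hor [.f 1329 3 5] []) .no (.br 1345 (.hor [.f
  1345 1 5] []) .no (.red [.t 1353 4 2, .t 1216 4 1] 168 136 [1, 1] [(168, 136, [1, 1]), (169,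
  136, [1, 3, 1])]) .no .no (.red [.f 1336 5 3, .f 1208 3 1] 168 136 [1, 1] [(168, 136, [1, 1])]))

def c22t553 : Tr4 :=
  .br 1345 (.hor [.f 1345 1 5] []) .no (.hor [.f 1344 3 5] []) .no .no .no

def c22t554 : Tr4 :=
  .br 1203 (.use 486) .no .no (.red [.t 938 3 1, .f 1067 3 1] 150 136 [4, 4, 1] [(134, 136, [4,
  4]), (150, 136, [4, 4, 1])]) .no .no

def c22t555 : Tr4 :=
  .br 1336 (.use 554) .no (.red [.f 1208 3 1] 168 136 [1, 1] [(168, 136, [1, 1])]) (.use 180) .no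
  .no

def c22t556 : Tr4 :=
  .br 1338 (.hor [.f 1337 1 5] []) .no .no (.use 450) (.red [.f 1217 5 1, .f 1210 5 1, .f 1211 1
  3] 168 136 [1, 1] [(168, 136, [1, 1])]) .no

def c22t557 : Tr4 :=
  .br 1339 (.hor [.f 1338 1 5] []) .no .no (.use 508) .no .no

def c22t558 : Tr4 :=
  .br 1338 (.br 1336 (.use 557) .no (.red [.f 1217 5 1, .f 1208 3 1, .f 1216 1 5, .f 1218 1 5] 168
  136 [1, 1] [(168, 136, [1, 1])]) (.hor [.f 1328 3 5] []) .no .no) .no .no (.hor [.f 1329 3 5]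
  []) (.red [.f 1217 5 1, .f 1210 5 1, .f 1211 1 3] 168 136 [1, 1] [(168, 136, [1, 1])]) .no

def c22t559 : Tr4 :=
  .br 1337 (.use 556) .no .no (.use 558) (.use 555) (.red [.f 1217 5 1, .t 1216 4 1] 168 136 [1,
  1] [(168, 136, [1, 1])])

def c22t560 : Tr4 :=
  .br 1339 (.con 136 [4, 1, 1, 1]) .no .no (.hor [.f 1330 3 5] []) .no .no

def c22t561 : Tr4 :=
  .br 1337 (.use 450) .no (.br 1344 (.con 136 [1, 1, 1]) .no (.con 136 [1, 1, 1]) (.red [.f 1208 3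
  1] 168 136 [1, 1] [(168, 136, [1, 1])]) .no .no) (.hor [.f 1329 3 5] []) .no (.use 560)

def c22t562 : Tr4 :=
  .br 1337 (.con 136 [1, 1, 4, 1]) .no (.con 136 [1, 1, 4, 1]) (.hor [.f 1329 3 5] []) .no (.con
  136 [1, 1, 4, 1])

def c22t563 : Tr4 :=
  .br 1337 (.hor [.f 1337 1 5] []) .no (.red [.f 1330 1 3, .f 1330 3 5, .f 1210 5 1, .f 1211 1 3]
  168 136 [1, 1] [(168, 136, [1, 1]), (183, 184, [4])]) (.red [.f 1330 1 3, .f 1330 3 5, .f 1210 5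
  1, .f 1211 1 3] 168 136 [1, 1] [(168, 136, [1, 1]), (183, 167, [1])]) .no (.red [.f 1330 1 3, .f
  1330 3 5, .f 1210 5 1, .f 1211 1 3] 168 136 [1, 1] [(168, 136, [1, 1]), (183, 167, [1])])

def c22t564 : Tr4 :=
  .br 1466 (.con 136 [4, 1, 1, 1, 1]) .no .no (.hor [.f 1457 3 5] []) .no .no

def c22t565 : Tr4 :=
  .br 1339 (.use 564) .no .no (.br 1330 (.red [.t 1457 3 2, .f 1330 3 5, .f 1210 5 1, .f 1211 1 3]
  168 136 [1, 1] [(168, 136, [1, 1]), (183, 167, [1])]) .no .no (.use 499) .no (.red [.f 1201 5 1,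
  .t 1330 2 3, .f 1211 1 3] 168 136 [1, 1] [(167, 136, [4, 1, 1]), (168, 136, [1, 1])])) .no .no

def c22t566 : Tr4 :=
  .br 1336 (.br 1344 (.red [.f 1336 1 3, .f 1208 3 1] 168 136 [1, 1] [(168, 136, [1, 1]), (184,
  136, [1, 1, 1])]) .no (.use 553) .no (.br 1473 (.br 1465 (.red [.f 1465 1 3, .t 1464 2 3] 184
  136 [1, 1, 1] [(184, 136, [1, 1, 1]), (200, 136, [1, 1, 1, 1])]) .no .no (.use 565) (.red [.f
  1337 5 1, .f 1338 1 3, .t 1346 4 2] 168 136 [1, 1] [(168, 136, [1, 1]), (184, 136, [1, 1, 1])])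
  .no) .no (.br 1465 (.br 1466 (.hor [.f 1465 1 5] []) .no .no (.br 1330 .no .no .no (.br 1329
  (.red [.t 1457 2 3, .f 1338 1 3] 184 136 [1, 1, 1] [(183, 136, [4, 1, 1, 1]), (184, 136, [1, 1,
  1])]) .no .no (.hor [.f 1321 3 5] []) .no (.use 497)) (.use 488) (.red [.f 1329 5 3, .f 1330 3
  1, .f 1338 1 3] 184 136 [1, 1, 1] [(183, 136, [4, 1, 1, 1]), (184, 136, [1, 1, 1])])) (.br 1339
  .no .no .no (.br 1330 (.br 1328 (.br 1457 (.con 136 [4, 1, 1, 1, 4]) (.hor [.f 1328 1 5] []) .no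
  (.con 136 [4, 1, 1, 1, 4]) .no .no) (.con 136 [4, 4, 1, 1, 3]) .no (.use 496) (.use 497) .no)
  .no .no (.use 499) .no (.red [.f 1201 5 1, .t 1330 2 3, .f 1211 1 3] 168 136 [1, 1] [(167, 136,
  [4, 1, 1]), (168, 136, [1, 1])])) .no .no) .no) .no .no (.use 565) (.red [.f 1337 5 1, .f 1338 1
  3, .t 1346 4 2] 168 136 [1, 1] [(168, 136, [1, 1]), (184, 136, [1, 1, 1])]) .no) (.red [.t 1464
  2 3, .f 1208 3 1] 168 136 [1, 1] [(168, 136, [1, 1]), (184, 136, [1, 1, 1])]) .no (.red [.f 1344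
  5 1, .f 1336 1 3, .f 1208 3 1] 168 136 [1, 1] [(168, 136, [1, 1]), (184, 136, [1, 1, 1])])) .no)
  .no (.red [.f 1208 3 1] 168 136 [1, 1] [(168, 136, [1, 1])]) (.use 180) .no .no

def c22t567 : Tr4 :=
  .br 1339 (.hor [.f 1338 1 5] []) .no .no (.use 511) .no .no

def c22t568 : Tr4 :=
  .br 1337 (.use 556) .no .no (.br 1338 (.br 1336 (.use 567) .no (.red [.f 1217 5 1, .f 1208 3 1,
  .f 1216 1 5, .f 1218 1 5] 168 136 [1, 1] [(168, 136, [1, 1])]) (.hor [.f 1328 3 5] []) .no .no)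
  .no .no (.hor [.f 1329 3 5] []) (.red [.f 1217 5 1, .f 1210 5 1, .f 1211 1 3] 168 136 [1, 1]
  [(168, 136, [1, 1])]) .no) (.red [.f 1217 5 1, .f 1217 1 5, .f 1337 5 3, .t 1346 4 2] 168 136
  [1, 1] [(168, 136, [1, 1])]) (.red [.f 1217 5 1, .t 1216 4 1] 168 136 [1, 1] [(168, 136, [1,
  1])])

def c22t569 : Tr4 :=
  .br 1345 (.con 136 [4, 1, 1, 3, 1, 3]) .no (.hor [.f 1344 3 5] []) .no .no .no

def c22t570 : Tr4 :=
  .br 1331 (.red [.f 1331 1 3] 183 136 [4, 1, 1, 1] [(183, 136, [4, 1, 1, 1])]) (.red [.t 1330 4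
  2] 166 136 [4, 1, 4, 1] [(166, 136, [4, 1, 4, 1])]) .no (.hor [.f 1322 3 5] []) .no .no

def c22t571 : Tr4 :=
  .br 1330 .no .no .no (.use 570) (.use 488) (.red [.f 1329 5 3, .f 1330 3 1] 183 136 [4, 1, 1, 1]
  [(183, 136, [4, 1, 1, 1])])

def c22t572 : Tr4 :=
  .br 1465 (.br 1466 (.hor [.f 1465 1 5] []) .no (.con 136 [1, 1, 1, 1]) (.use 571) .no .no) .no
  (.red [.t 1464 2 3, .f 1208 3 1] 168 136 [1, 1] [(168, 136, [1, 1]), (184, 136, [1, 1, 1])])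
  (.br 1466 (.con 136 [4, 1, 1, 1, 1]) .no (.con 136 [1, 1, 1, 1]) (.use 571) .no .no) (.hor [.f
  1337 5 1, .f 1336 1 5, .f 1338 1 5] []) .no

def c22t573 : Tr4 :=
  .br 1345 (.br 1344 (.hor [.f 1344 1 5] []) .no (.con 136 [1, 3, 1, 1]) .no .no .no) .no (.hor
  [.f 1345 3 5] []) .no .no (.red [.f 1336 5 3, .f 1208 3 1] 168 136 [1, 1] [(168, 136, [1, 1])])

def c22t574 : Tr4 :=
  .br 1330 (.br 1329 (.hor [.f 1329 1 5] []) .no .no (.br 1328 (.con 136 [4, 4, 1, 1, 1]) (.con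
  136 [4, 4, 1, 1, 3]) .no (.use 496) .no .no) .no (.use 497)) .no .no (.use 499) .no (.red [.f
  1201 5 1, .t 1330 2 3, .f 1211 1 3] 168 136 [1, 1] [(167, 136, [4, 1, 1]), (168, 136, [1, 1])])

def c22t575 : Tr4 :=
  .br 1194 (.br 939 (.br 1226 (.br 1346 (.br 1338 (.red [.f 1338 1 3, .t 1346 4 2] 168 136 [1, 1]
  [(168, 136, [1, 1]), (184, 136, [1, 1, 1])]) .no .no (.use 552) (.red [.f 1210 5 1, .f 1211 1 3]
  168 136 [1, 1] [(168, 136, [1, 1])]) (.use 555)) .no .no (.red [.t 1346 4 2] 168 136 [1, 1]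
  [(168, 136, [1, 1])]) .no (.use 559)) .no (.hor [.f 1098 3 1, .f 1097 1 5] [(154, 136, [3, 3,
  1])]) .no (.br 1346 (.br 1338 (.red [.f 1338 1 3, .t 1346 4 2] 168 136 [1, 1] [(168, 136, [1,
  1]), (184, 136, [1, 1, 1])]) .no .no (.use 561) (.red [.f 1210 5 1, .f 1211 1 3] 168 136 [1, 1]
  [(168, 136, [1, 1])]) (.use 555)) .no (.br 1339 (.br 1338 (.hor [.f 1338 1 5] []) .no .no (.use
  562) .no (.use 555)) .no .no (.br 1338 (.br 1330 (.use 563) .no .no .no .no (.red [.f 1201 5 1,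
  .t 1330 2 3, .f 1211 1 3] 168 136 [1, 1] [(167, 136, [4, 1, 1]), (168, 136, [1, 1])])) .no .no
  (.hor [.f 1330 3 5] []) .no (.use 555)) .no (.red [.f 1210 5 1, .f 1211 1 3] 168 136 [1, 1]
  [(168, 136, [1, 1])])) (.red [.t 1346 4 2] 168 136 [1, 1] [(168, 136, [1, 1])]) .no (.use 559))
  .no) (.use 349) (.hor [.f 938 3 5] []) (.use 528) .no .no) .no .no (.red [.f 1058 3 1, .t 1065 3
  1] 150 136 [4, 4, 1] [(149, 136, [4, 4, 1, 4]), (150, 136, [4, 4, 1])]) (.br 939 (.br 1226 (.br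
  1346 (.br 1338 (.red [.f 1338 1 3, .t 1346 4 2] 168 136 [1, 1] [(168, 136, [1, 1]), (184, 136,
  [1, 1, 1])]) .no .no (.use 552) (.red [.f 1210 5 1, .f 1211 1 3] 168 136 [1, 1] [(168, 136, [1,
  1])]) (.use 566)) .no .no (.red [.t 1346 4 2] 168 136 [1, 1] [(168, 136, [1, 1])]) .no (.use
  568)) .no (.hor [.f 1098 3 1, .f 1097 1 5] [(154, 136, [3, 3, 1])]) .no (.br 1346 (.br 1338
  (.red [.f 1338 1 3, .t 1346 4 2] 168 136 [1, 1] [(168, 136, [1, 1]), (184, 136, [1, 1, 1])]) .no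
  .no (.use 561) (.red [.f 1210 5 1, .f 1211 1 3] 168 136 [1, 1] [(168, 136, [1, 1])]) (.use 566))
  .no (.br 1339 (.br 1338 (.hor [.f 1338 1 5] []) .no .no (.use 562) .no (.br 1336 (.br 1344 (.red
  [.f 1336 1 3, .f 1208 3 1] 168 136 [1, 1] [(168, 136, [1, 1]), (184, 136, [1, 1, 1])]) .no (.use
  569) .no (.use 572) .no) .no (.red [.f 1208 3 1] 168 136 [1, 1] [(168, 136, [1, 1])]) (.con 136
  [4, 1, 1, 1]) .no .no)) .no .no (.br 1338 (.br 1330 (.use 563) .no .no (.br 1337 (.hor [.f 1337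
  1 5] []) .no (.br 1344 (.con 136 [1, 1, 1]) .no (.con 136 [1, 1, 1]) (.red [.f 1208 3 1] 168 136
  [1, 1] [(168, 136, [1, 1])]) .no .no) (.br 1336 (.use 510) .no (.red [.f 1208 3 1] 168 136 [1,
  1] [(168, 136, [1, 1])]) (.hor [.f 1328 3 5] []) .no .no) .no (.use 573)) .no (.red [.f 1201 5
  1, .t 1330 2 3, .f 1211 1 3] 168 136 [1, 1] [(167, 136, [4, 1, 1]), (168, 136, [1, 1])])) .no
  .no (.hor [.f 1330 3 5] []) .no (.br 1336 (.use 574) .no (.red [.f 1208 3 1] 168 136 [1, 1]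
  [(168, 136, [1, 1])]) (.use 180) .no .no)) .no (.red [.f 1210 5 1, .f 1211 1 3] 168 136 [1, 1]
  [(168, 136, [1, 1])])) (.red [.t 1346 4 2] 168 136 [1, 1] [(168, 136, [1, 1])]) .no (.use 568))
  .no) (.use 349) (.hor [.f 938 3 5] []) (.use 540) .no .no) (.red [.f 1193 5 3, .f 1065 3 1, .f
  1073 1 3] 151 136 [4, 1] [(150, 136, [4, 4, 1]), (151, 136, [4, 1])])

def c22t576 : Tr4 :=
  .br 1203 (.con 136 [4, 1, 1, 4]) .no .no (.red [.f 1066 5 3, .f 1067 3 1] 150 136 [4, 4, 1]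
  [(150, 136, [4, 4, 1])]) .no .no

def c22t577 : Tr4 :=
  .br 1336 (.red [.f 1336 1 3, .f 1208 3 1] 168 136 [1, 1] [(168, 136, [1, 1]), (184, 136, [1, 1,
  1])]) .no .no (.use 576) .no .no

def c22t578 : Tr4 :=
  .br 1203 (.use 486) .no .no (.red [.f 1066 5 3, .f 1067 3 1] 150 136 [4, 4, 1] [(150, 136, [4,
  4, 1])]) .no .no

def c22t579 : Tr4 :=
  .br 1336 (.use 578) .no .no (.use 576) .no .no

def c22t580 : Tr4 :=
  .br 1344 (.use 577) .no (.use 553) (.red [.f 1208 3 1] 168 136 [1, 1] [(168, 136, [1, 1])])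
  (.use 579) .no

def c22t581 : Tr4 :=
  .br 1337 (.use 556) .no .no (.use 558) (.red [.f 1217 5 1, .f 1217 1 5, .f 1337 5 3, .t 1346 4
  2] 168 136 [1, 1] [(168, 136, [1, 1])]) (.red [.f 1217 5 1, .t 1216 4 1] 168 136 [1, 1] [(168,
  136, [1, 1])])

def c22t582 : Tr4 :=
  .br 1203 .no .no .no (.red [.f 1066 5 3, .f 1067 3 1] 150 136 [4, 4, 1] [(150, 136, [4, 4, 1])])
  .no .no

def c22t583 : Tr4 :=
  .br 1203 (.use 550) .no .no (.red [.f 1066 5 3, .f 1067 3 1] 150 136 [4, 4, 1] [(150, 136, [4,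
  4, 1])]) .no .no

def c22t584 : Tr4 :=
  .br 1344 (.hor [.f 1344 1 5] []) .no (.con 136 [1, 3, 1, 1]) (.red [.f 1208 3 1] 168 136 [1, 1]
  [(168, 136, [1, 1])]) .no .no

def c22t585 : Tr4 :=
  .br 1346 (.br 1347 (.hor [.f 1346 1 5] []) .no (.red [.f 1091 3 1, .f 1091 1 3, .f 1219 3 1] 169
  136 [3, 1, 1] [(169, 136, [3, 1, 1])]) (.br 1345 (.hor [.f 1345 1 5] []) .no (.red [.t 1353 4 2,
  .f 1218 3 5] 169 136 [3, 1, 1] [(169, 136, [3, 1, 1])]) (.con 136 [1, 1, 1]) .no (.con 136 [1,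
  1, 1])) .no .no) .no .no (.br 1347 (.br 1066 (.red [.t 1065 3 1, .f 1073 1 3] 151 136 [4, 1]
  [(150, 136, [4, 4, 1]), (151, 136, [4, 1])]) .no .no (.br 1345 (.use 584) .no (.red [.t 1353 4
  2, .f 1218 3 5] 169 136 [3, 1, 1] [(169, 136, [3, 1, 1])]) (.hor [.f 1337 3 5] []) .no (.br 1339
  (.red [.f 1339 1 3, .f 1338 3 5, .f 1210 5 1, .t 1226 1 4, .f 1211 1 3] 169 136 [3, 1, 1] [(168,
  136, [1, 1]), (169, 136, [3, 1, 1]), (184, 168, [1])]) .no .no (.br 1337 (.br 1336 (.hor [.f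
  1336 1 5] []) .no .no (.br 1329 (.red [.f 1329 1 3, .f 1328 3 5] 183 136 [4, 1, 1, 1] [(183,
  136, [4, 1, 1, 1])]) .no .no (.br 1330 (.con 136 [4, 1, 1, 4, 1]) .no .no (.hor [.f 1321 3 5]
  []) .no .no) (.red [.f 1201 5 1, .t 1330 2 3] 167 136 [4, 1, 1] [(167, 136, [4, 1, 1])]) .no)
  .no .no) .no .no (.br 1336 (.br 1224 (.red [.t 1081 1 3, .f 1208 3 5, .f 1216 5 1, .f 1216 1 3]
  169 136 [3, 1, 1] [(152, 136, [1]), (169, 136, [3, 1, 1])]) .no (.br 1194 (.br 1465 (.br 1466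
  (.hor [.f 1465 1 5] []) .no (.red [.f 1338 3 1, .f 1346 1 5, .t 1226 1 4] 169 136 [3, 1, 1]
  [(169, 136, [3, 1, 1]), (184, 168, [1])]) (.br 1328 (.con 136 [4, 1, 1, 4, 1, 3, 2]) (.con 136
  [4, 4, 1, 1, 1, 3, 2]) .no (.con 136 [4, 1, 1, 4, 1, 3, 2]) .no .no) (.red [.t 1346 4 1, .t 1226
  1 4] 169 136 [3, 1, 1] [(169, 136, [3, 1, 1]), (184, 168, [1])]) .no) .no (.red [.t 1464 2 3, .f
  1208 3 1] 168 136 [1, 1] [(168, 136, [1, 1]), (184, 136, [1, 1, 1])]) (.hor [.f 1329 3 1, .f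
  1336 1 5] [(183, 167, [1])]) (.br 1330 (.hor [.t 1329 3 1, .f 1336 1 5] [(183, 167, [1])]) .no
  .no .no .no .no) .no) .no .no (.red [.f 1058 3 1, .t 1065 3 1] 150 136 [4, 4, 1] [(149, 136, [4,
  4, 1, 4]), (150, 136, [4, 4, 1])]) (.br 1328 (.hor [.f 1328 1 3, .f 1328 3 5] [(183, 167, [1])])
  (.con 136 [4, 4, 1, 1, 3]) .no (.use 496) .no .no) (.red [.f 1193 5 3, .f 1065 3 1, .f 1073 1 3]
  151 136 [4, 1] [(150, 136, [4, 4, 1]), (151, 136, [4, 1])])) .no .no .no) .no .no (.hor [.f 1328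
  3 5] []) .no .no) .no (.red [.f 1336 5 3, .f 1208 3 1] 168 136 [1, 1] [(168, 136, [1, 1])])) .no
  .no)) (.br 1345 (.use 584) .no (.red [.t 1353 4 2, .f 1218 3 5] 169 136 [3, 1, 1] [(169, 136,
  [3, 1, 1])]) (.hor [.f 1337 3 5] []) .no (.br 1339 (.red [.f 1339 1 3, .f 1338 3 5, .f 1210 5 1,
  .t 1226 1 4, .f 1211 1 3] 169 136 [3, 1, 1] [(168, 136, [1, 1]), (169, 136, [3, 1, 1]), (184,
  168, [1])]) .no .no (.use 582) .no .no)) .no) .no (.red [.f 1219 3 1, .t 1346 4 2] 169 136 [3,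
  1, 1] [(168, 136, [1, 1]), (169, 136, [3, 1, 1])]) (.hor [.f 1338 3 5] []) .no .no) (.red [.f
  1091 3 1, .f 1091 1 3, .t 1226 1 4] 169 136 [3, 1, 1] [(169, 136, [3, 1, 1])]) (.red [.f 1217 5
  1, .f 1218 1 3] 169 136 [3, 1, 1] [(169, 136, [3, 1, 1])])

def c22l17 : List Tr4 :=
  [c22t549, c22t550, c22t551, c22t552, c22t553, c22t554, c22t555, c22t556, c22t557, c22t558,
  c22t559, c22t560, c22t561, c22t562, c22t563, c22t564, c22t565, c22t566, c22t567, c22t568,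
  c22t569, c22t570, c22t571, c22t572, c22t573, c22t574, c22t575, c22t576, c22t577, c22t578,
  c22t579, c22t580, c22t581, c22t582, c22t583, c22t584, c22t585]

theorem c22k17 : chkLF ⟨4, 0, 0, true, -8⟩ false 2 c22N 549 c22l17 = true := by decide +kernel

def c22t586 : Tr4 :=
  .br 1210 (.br 1211 (.hor [.f 1210 1 5] []) .no (.br 1066 (.red [.t 1065 3 1, .f 1073 1 3] 151
  136 [4, 1] [(150, 136, [4, 4, 1]), (151, 136, [4, 1])]) .no .no (.use 541) (.br 1194 (.br 1337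
  (.use 543) .no (.br 1344 (.use 546) .no (.br 1339 (.br 1336 (.br 1226 (.br 1346 (.use 548) .no
  .no .no (.br 1466 (.br 1465 (.hor [.f 1465 1 5] []) .no (.red [.t 1337 3 2, .t 1217 1 4, .f 1337
  3 1] 184 136 [1, 1, 1] [(184, 136, [1, 1, 1])]) (.con 136 [4, 1, 1, 1, 1]) .no .no) .no (.br
  1473 (.con 136 [1, 1, 1, 1]) .no (.con 136 [1, 1, 1, 1]) (.hor [.f 1465 3 5] []) .no (.con 136
  [1, 1, 1, 1])) (.use 547) .no (.hor [.t 1337 3 2, .f 1210 3 5, .f 1337 5 1, .f 1336 1 5, .t 1216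
  4 1] [])) .no) .no (.hor [.f 1098 3 1, .f 1097 1 5] [(154, 136, [3, 3, 1])]) .no (.br 1346 (.use
  548) .no (.br 1347 (.con 136 [3, 1, 1, 1]) .no (.hor [.f 1346 3 5] []) .no .no .no) .no (.br
  1466 (.use 532) .no (.br 1473 (.con 136 [1, 1, 1, 1]) .no (.con 136 [1, 1, 1, 1]) (.hor [.f 1465
  3 5] []) .no (.con 136 [1, 1, 1, 1])) (.use 547) .no (.hor [.t 1337 3 2, .f 1210 3 5, .f 1337 5
  1, .f 1336 1 5, .t 1216 4 1] [])) .no) .no) .no .no (.con 136 [4, 1, 1, 1]) .no .no) .no (.con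
  136 [1, 1, 1]) (.use 544) .no .no) (.use 542) .no .no) (.red [.t 1337 4 2] 167 136 [4, 1, 1]
  [(167, 136, [4, 1, 1])]) .no (.use 549)) .no .no (.use 551) (.red [.f 1066 5 1, .t 1065 3 1, .f
  1073 1 3] 151 136 [4, 1] [(150, 136, [4, 4, 1]), (151, 136, [4, 1])]) (.red [.f 1193 5 3, .f
  1065 3 1, .f 1073 1 3] 151 136 [4, 1] [(150, 136, [4, 4, 1]), (151, 136, [4, 1])])) .no) (.con
  136 [4, 1, 1]) .no .no) .no .no .no (.br 1219 (.br 1066 (.red [.t 1065 3 1, .f 1073 1 3] 151 136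
  [4, 1] [(150, 136, [4, 4, 1]), (151, 136, [4, 1])]) .no .no (.use 575) (.br 1194 (.br 1226 (.br
  1346 (.br 1338 (.red [.f 1338 1 3, .t 1346 4 2] 168 136 [1, 1] [(168, 136, [1, 1]), (184, 136,
  [1, 1, 1])]) .no .no (.use 552) (.red [.f 1210 5 1, .f 1211 1 3] 168 136 [1, 1] [(168, 136, [1,
  1])]) (.use 580)) .no .no (.red [.t 1346 4 2] 168 136 [1, 1] [(168, 136, [1, 1])]) .no (.use
  581)) .no (.hor [.f 1098 3 1, .f 1097 1 5] [(154, 136, [3, 3, 1])]) .no (.br 1346 (.br 1338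
  (.red [.f 1338 1 3, .t 1346 4 2] 168 136 [1, 1] [(168, 136, [1, 1]), (184, 136, [1, 1, 1])]) .no
  .no (.use 561) (.red [.f 1210 5 1, .f 1211 1 3] 168 136 [1, 1] [(168, 136, [1, 1])]) (.use 580))
  .no (.br 1336 (.br 1337 (.hor [.f 1336 1 5] []) .no (.con 136 [1, 1, 1]) (.br 1338 (.use 557)
  .no .no (.hor [.f 1329 3 5] []) (.red [.f 1210 5 1, .f 1211 1 3] 168 136 [1, 1] [(168, 136, [1,
  1])]) .no) (.use 578) .no) .no (.red [.f 1208 3 1] 168 136 [1, 1] [(168, 136, [1, 1])]) (.use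
  576) (.use 573) .no) (.red [.t 1346 4 2] 168 136 [1, 1] [(168, 136, [1, 1])]) .no (.use 581))
  .no) .no .no (.use 583) (.red [.f 1066 5 1, .t 1065 3 1, .f 1073 1 3] 151 136 [4, 1] [(150, 136,
  [4, 4, 1]), (151, 136, [4, 1])]) (.red [.f 1193 5 3, .f 1065 3 1, .f 1073 1 3] 151 136 [4, 1]
  [(150, 136, [4, 4, 1]), (151, 136, [4, 1])])) .no) .no (.br 1226 (.use 585) .no (.hor [.f 1098 3
  1, .f 1097 1 5] [(154, 169, [2, 3])]) .no .no .no) .no .no .no) .no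

def c22t587 : Tr4 :=
  .br 1336 (.hor [.f 1336 1 5] []) .no (.use 518) (.br 1339 (.con 136 [4, 1, 1, 1]) .no (.con 136
  [4, 1, 1, 1]) (.use 520) .no .no) .no .no

def c22t588 : Tr4 :=
  .br 1339 (.con 136 [4, 1, 1, 1]) .no (.con 136 [4, 1, 1, 1]) (.use 520) .no .no

def c22t589 : Tr4 :=
  .br 1203 (.br 1328 (.con 136 [4, 1, 1, 4]) (.br 1330 (.use 530) .no .no .no .no (.red [.f 1201 5
  1, .f 1200 1 5, .t 1080 4 1] 151 136 [4, 1] [(151, 136, [4, 1])])) .no (.con 136 [4, 1, 1, 4])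
  (.con 136 [4, 1, 1, 4]) .no) .no .no (.red [.f 1066 5 3, .f 1067 3 1] 150 136 [4, 4, 1] [(150,
  136, [4, 4, 1])]) .no .no

def c22t590 : Tr4 :=
  .br 1194 (.br 1337 (.br 1336 (.hor [.f 1336 1 5] []) .no (.use 542) (.br 1339 (.con 136 [4, 1,
  1, 1]) .no (.con 136 [4, 1, 1, 1]) (.use 544) .no .no) .no .no) .no (.br 1344 (.use 546) .no
  (.br 1339 (.br 1336 (.use 589) .no .no (.con 136 [4, 1, 1, 1]) .no .no) .no (.con 136 [1, 1, 1])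
  (.use 544) .no .no) (.use 542) .no .no) (.red [.t 1337 4 2] 167 136 [4, 1, 1] [(167, 136, [4, 1,
  1])]) .no (.use 549)) .no .no (.use 551) (.red [.f 1066 5 1, .t 1065 3 1, .f 1073 1 3] 151 136
  [4, 1] [(150, 136, [4, 4, 1]), (151, 136, [4, 1])]) (.red [.f 1193 5 3, .f 1065 3 1, .f 1073 1
  3] 151 136 [4, 1] [(150, 136, [4, 4, 1]), (151, 136, [4, 1])])

def c22t591 : Tr4 :=
  .br 1329 (.red [.f 1329 1 3, .f 1328 3 5] 183 136 [4, 1, 1, 1] [(183, 136, [4, 1, 1, 1])]) .no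
  .no (.con 136 [4, 1, 1, 4, 1]) (.red [.f 1201 5 1, .f 1202 1 3] 167 136 [4, 1, 1] [(167, 136,
  [4, 1, 1])]) .no

def c22t592 : Tr4 :=
  .br 1339 (.hor [.f 1337 1 3, .f 1336 3 5] [(184, 183, [3])]) .no (.hor [.f 1211 3 1, .f 1218 1
  5, .f 1337 1 3, .f 1208 3 1, .f 1337 3 1] []) (.hor [.f 1337 1 3, .f 1336 3 5] [(184, 167, [3,
  1])]) .no .no

def c22t593 : Tr4 :=
  .br 1203 (.con 136 [4, 1, 1, 4]) .no .no (.red [.f 946 5 1, .f 939 1 3, .f 1067 3 1] 150 136 [4,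
  4, 1] [(134, 136, [4, 4]), (150, 136, [4, 4, 1])]) .no .no

def c22t594 : Tr4 :=
  .br 1336 (.red [.f 1336 1 3, .f 1208 3 1] 184 136 [1, 1, 1] [(168, 136, [1, 1]), (184, 136, [1,
  1, 1])]) .no .no (.use 593) .no .no

def c22t595 : Tr4 :=
  .br 1200 (.con 136 [1, 4, 4, 1, 3, 2, 4, 1, 3]) .no .no (.con 136 [1, 4, 4, 1, 3, 2, 4, 1]) .no
  .no

def c22t596 : Tr4 :=
  .br 1066 (.red [.t 1065 3 1, .f 1073 1 3] 151 136 [4, 1] [(150, 136, [4, 4, 1]), (151, 136, [4,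
  1])]) (.red [.f 946 5 1, .f 938 1 3, .f 1065 3 5, .f 1073 5 1, .f 1073 1 3] 151 136 [4, 1]
  [(134, 150, [2]), (151, 136, [4, 1])]) .no (.br 1194 (.br 1067 (.use 527) (.br 1337 (.br 1345
  (.br 1344 (.hor [.f 1344 1 5] []) .no (.br 1336 (.hor [.f 1336 1 5] []) .no .no (.use 591) .no
  .no) (.use 592) .no .no) .no (.red [.f 1210 1 3, .f 1217 3 1] 169 136 [1, 3, 1] [(168, 167,
  [3]), (169, 136, [1, 3, 1])]) .no .no (.br 1336 (.hor [.f 1336 1 5] []) .no .no (.use 591) .no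
  .no)) .no (.br 1344 (.use 594) .no (.br 1336 (.br 1203 (.use 523) .no .no (.red [.f 946 5 1, .f
  939 1 3, .f 1067 3 1] 150 136 [4, 4, 1] [(134, 136, [4, 4]), (150, 136, [4, 4, 1])]) .no .no)
  .no .no (.use 593) .no .no) (.hor [.f 1336 3 5] []) .no .no) (.red [.t 1337 4 2] 167 136 [4, 1,
  1] [(167, 136, [4, 1, 1])]) .no (.br 1203 (.use 525) .no .no (.red [.f 946 5 1, .f 939 1 3, .f
  1067 3 1] 150 136 [4, 4, 1] [(134, 136, [4, 4]), (150, 136, [4, 4, 1])]) .no .no)) .no (.hor [.f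
  1058 3 5] []) .no .no) .no .no (.red [.f 1058 3 1, .t 1065 3 1] 150 136 [4, 4, 1] [(149, 136,
  [4, 4, 1, 4]), (150, 136, [4, 4, 1])]) (.br 1067 .no (.br 1337 (.br 1336 (.hor [.f 1336 1 5] [])
  .no (.br 1345 (.use 592) .no (.red [.f 1208 3 1, .f 1208 1 3, .f 1217 3 1, .f 1217 1 5] 169 136
  [1, 3, 1] [(169, 136, [1, 3, 1])]) .no .no .no) (.use 593) .no .no) .no (.br 1344 (.use 594) .no
  (.br 1339 (.br 1330 (.br 1336 (.use 531) .no .no (.con 136 [4, 1, 1, 1]) .no .no) .no .no (.use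
  529) (.br 1200 (.con 136 [4, 4, 1, 1, 3]) .no .no (.con 136 [4, 4, 1, 1]) .no .no) (.red [.f
  1201 5 1, .f 1202 1 3] 167 136 [4, 1, 1] [(167, 136, [4, 1, 1])])) .no (.con 136 [1, 1, 1])
  (.use 595) .no .no) (.hor [.f 1336 3 5] []) .no .no) (.red [.t 1337 4 2] 167 136 [4, 1, 1]
  [(167, 136, [4, 1, 1])]) .no (.br 1339 (.use 536) .no (.use 538) (.use 595) .no .no)) .no (.hor
  [.f 1058 3 5] []) .no .no) (.red [.f 1193 5 3, .f 1065 3 1, .f 1073 1 3] 151 136 [4, 1] [(150,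
  136, [4, 4, 1]), (151, 136, [4, 1])])) (.use 590) .no

def c22t597 : Tr4 :=
  .br 1218 (.br 1074 .no (.red [.f 1210 1 3, .f 1082 3 1, .f 1081 1 5, .t 945 3 1, .f 953 1 3] 136
  136 [] [(135, 136, [4]), (136, 136, []), (152, 136, [1]), (168, 167, [3])]) .no (.hor [.f 1065 3
  5] []) (.br 1217 (.hor [.f 1217 1 5] []) .no (.br 946 .no (.hor [.f 818 1 3, .f 945 3 5] [(119,
  136, [2, 4])]) .no (.br 1066 (.red [.t 1065 3 1, .f 1073 1 3] 151 136 [4, 1] [(150, 136, [4, 4,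
  1]), (151, 136, [4, 1])]) .no .no (.br 1194 (.br 939 (.br 1337 (.use 587) .no (.br 1336 (.use
  524) .no (.use 518) (.use 588) .no .no) (.red [.t 1337 4 2] 167 136 [4, 1, 1] [(167, 136, [4, 1,
  1])]) .no (.use 526)) (.use 349) (.hor [.f 938 3 5] []) (.use 528) .no .no) .no .no (.red [.f
  1058 3 1, .t 1065 3 1] 150 136 [4, 4, 1] [(149, 136, [4, 4, 1, 4]), (150, 136, [4, 4, 1])]) (.br
  939 (.br 1337 (.use 587) .no (.br 1336 (.br 1339 (.br 1330 (.use 531) .no .no (.use 529) (.br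
  1200 (.con 136 [4, 4, 1, 1, 3]) .no .no (.con 136 [4, 4, 1, 1]) .no .no) (.red [.f 1201 5 1, .f
  1202 1 3] 167 136 [4, 1, 1] [(167, 136, [4, 1, 1])])) .no (.con 136 [1, 1, 1]) (.use 520) .no
  .no) .no (.use 518) (.use 588) .no .no) (.red [.t 1337 4 2] 167 136 [4, 1, 1] [(167, 136, [4, 1,
  1])]) .no (.use 539)) (.use 349) (.hor [.f 938 3 5] []) (.use 540) .no .no) (.red [.f 1193 5 3,
  .f 1065 3 1, .f 1073 1 3] 151 136 [4, 1] [(150, 136, [4, 4, 1]), (151, 136, [4, 1])])) (.use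
  590) .no) (.use 596) .no) .no .no .no) .no) .no .no .no .no (.br 1074 .no (.red [.t 1081 1 3, .t
  945 3 1, .f 953 1 3] 136 136 [] [(135, 136, [4]), (136, 136, []), (152, 136, [1])]) .no (.hor
  [.f 1065 3 5] []) (.br 946 .no (.hor [.f 818 1 3, .f 945 3 5] [(119, 136, [2, 4])]) .no (.br
  1066 (.red [.t 1065 3 1, .f 1073 1 3] 151 136 [4, 1] [(150, 136, [4, 4, 1]), (151, 136, [4,
  1])]) .no .no (.use 541) (.br 1194 (.br 1337 (.use 543) .no (.br 1336 (.use 589) .no (.use 542)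
  (.use 545) .no .no) (.red [.t 1337 4 2] 167 136 [4, 1, 1] [(167, 136, [4, 1, 1])]) .no (.use
  549)) .no .no (.use 551) (.red [.f 1066 5 1, .t 1065 3 1, .f 1073 1 3] 151 136 [4, 1] [(150,
  136, [4, 4, 1]), (151, 136, [4, 1])]) (.red [.f 1193 5 3, .f 1065 3 1, .f 1073 1 3] 151 136 [4,
  1] [(150, 136, [4, 4, 1]), (151, 136, [4, 1])])) .no) (.red [.f 946 5 1, .t 1081 1 3, .t 945 3
  1, .f 953 1 3] 136 136 [] [(135, 136, [4]), (136, 136, []), (152, 136, [1])]) .no) .no)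

def c22t598 : Tr4 :=
  .br 1219 (.hor [.f 1218 1 5] []) .no (.br 1217 (.hor [.f 1217 1 5] []) .no (.con 136 [1, 3, 1])
  .no .no .no) .no .no .no

def c22t599 : Tr4 :=
  .br 1336 (.hor [.f 1336 1 5] []) .no (.red [.f 1208 3 1, .f 1216 1 5] 168 136 [1, 1] [(168, 136,
  [1, 1])]) (.use 504) .no .no

def c22t600 : Tr4 :=
  .br 1336 (.br 1344 (.red [.f 1336 1 3, .f 1208 3 1, .f 1216 1 5] 168 136 [1, 1] [(168, 136, [1,
  1]), (184, 136, [1, 1, 1])]) .no (.br 1346 (.red [.f 1338 1 3] 184 136 [1, 1, 1] [(184, 136, [1,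
  1, 1])]) .no (.use 507) .no (.br 1194 (.use 509) .no .no (.use 583) (.use 512) (.red [.f 1193 5
  3, .f 1065 3 1, .f 1073 1 3] 151 136 [4, 1] [(150, 136, [4, 4, 1]), (151, 136, [4, 1])])) .no)
  .no .no .no) .no (.red [.f 1208 3 1, .f 1216 1 5] 168 136 [1, 1] [(168, 136, [1, 1])]) (.use
  576) .no .no

def c22t601 : Tr4 :=
  .br 1346 (.con 136 [1, 1, 1]) .no (.con 136 [1, 1, 1]) (.red [.f 1210 5 3, .f 1210 3 1] 168 136
  [1, 1] [(168, 136, [1, 1])]) (.con 136 [1, 1, 1]) .no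

def c22t602 : Tr4 :=
  .br 1337 (.use 504) .no .no (.hor [.f 1328 3 5] []) (.red [.f 1210 5 3, .f 1337 5 3, .f 1210 3
  1] 168 136 [1, 1] [(168, 136, [1, 1])]) .no

def c22t603 : Tr4 :=
  .br 1203 (.use 525) .no .no (.red [.t 938 3 1, .f 1067 3 1] 150 136 [4, 4, 1] [(134, 136, [4,
  4]), (150, 136, [4, 4, 1])]) .no .no

def c22t604 : Tr4 :=
  .br 1346 (.hor [.f 1345 1 5] []) .no (.con 136 [1, 3, 1, 1]) (.red [.f 1210 5 3, .f 1210 3 1]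
  168 136 [1, 1] [(168, 136, [1, 1])]) (.con 136 [1, 3, 1, 1]) .no

def c22t605 : Tr4 :=
  .br 1346 (.con 136 [1, 1, 1]) .no (.con 136 [1, 1, 1]) (.red [.f 1210 5 3, .f 1210 3 1] 168 136
  [1, 1] [(168, 136, [1, 1])]) (.con 136 [1, 1, 1]) .no

def c22t606 : Tr4 :=
  .br 1336 (.hor [.f 1336 1 5] []) .no .no (.use 504) .no .no

def c22t607 : Tr4 :=
  .br 1338 (.br 1339 (.hor [.f 1338 1 5] []) .no (.con 136 [1, 1, 1]) (.br 1336 (.use 508) .no .no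
  (.use 602) .no .no) .no .no) .no .no (.hor [.f 1329 3 5] []) (.red [.f 1210 5 3, .f 1210 3 5, .f
  1210 5 1, .t 1337 4 2] 167 136 [4, 1, 1] [(167, 136, [4, 1, 1])]) .no

def c22t608 : Tr4 :=
  .br 1339 (.hor [.f 1338 1 5] []) .no (.con 136 [1, 1, 1]) (.use 508) .no .no

def c22t609 : Tr4 :=
  .br 1338 (.use 608) .no (.red [.f 1210 5 3, .f 1210 3 1] 168 136 [1, 1] [(168, 136, [1, 1])])
  (.hor [.f 1329 3 5] []) (.red [.f 1210 5 3, .f 1210 3 5, .f 1210 5 1, .t 1337 4 2] 167 136 [4,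
  1, 1] [(167, 136, [4, 1, 1])]) .no

def c22t610 : Tr4 :=
  .br 1337 (.use 504) .no .no (.hor [.f 1328 3 5] []) (.br 1339 (.con 136 [4, 1, 1, 1]) .no (.con
  136 [1, 1, 1]) (.br 1330 (.use 460) .no .no .no .no (.hor [.f 1329 5 3, .f 1328 3 5, .f 1330 3
  5] [])) .no .no) .no

def c22t611 : Tr4 :=
  .br 1339 (.hor [.f 1338 1 5] []) .no (.con 136 [4, 1, 1, 3, 1]) (.con 136 [4, 1, 4, 1, 3]) .no
  .no

def c22l18 : List Tr4 :=
  [c22t586, c22t587, c22t588, c22t589, c22t590, c22t591, c22t592, c22t593, c22t594, c22t595,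
  c22t596, c22t597, c22t598, c22t599, c22t600, c22t601, c22t602, c22t603, c22t604, c22t605,
  c22t606, c22t607, c22t608, c22t609, c22t610, c22t611]

theorem c22k18 : chkLF ⟨4, 0, 0, true, -8⟩ false 2 c22N 586 c22l18 = true := by decide +kernel

def c22t612 : Tr4 :=
  .br 1330 (.br 1331 (.con 136 [4, 4, 1, 1, 3]) (.br 1329 (.hor [.f 1329 1 5] []) .no .no (.con
  136 [4, 4, 1, 1, 1]) .no .no) .no (.con 136 [4, 4, 1, 1, 3]) .no .no) .no .no (.use 570) (.con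
  136 [4, 4, 1, 1, 3]) (.red [.f 1201 5 1, .f 1200 1 5, .t 1080 4 1] 151 136 [4, 1] [(151, 136,
  [4, 1])])

def c22t613 : Tr4 :=
  .br 1339 (.use 612) .no (.con 136 [1, 1, 1]) (.con 136 [4, 4, 1, 1, 3]) .no .no

def c22t614 : Tr4 :=
  .br 1344 (.hor [.f 1344 1 5] []) .no (.use 604) .no .no .no

def c22t615 : Tr4 :=
  .br 1338 (.hor [.f 1338 1 5] []) .no .no (.con 136 [4, 1, 1, 1]) .no .no

def c22t616 : Tr4 :=
  .br 1200 (.br 1336 (.br 1344 (.red [.f 1336 1 3, .f 1208 3 1] 168 136 [1, 1] [(168, 136, [1,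
  1]), (184, 136, [1, 1, 1])]) .no (.br 1345 (.use 604) .no (.hor [.f 1344 3 5] []) (.use 605)
  (.br 1337 (.use 606) .no .no (.br 1338 (.use 611) .no .no (.hor [.f 1329 3 5] []) (.red [.f 1210
  5 3, .f 1210 3 5, .f 1210 5 1, .t 1337 4 2] 167 136 [4, 1, 1] [(167, 136, [4, 1, 1])]) .no)
  (.red [.f 1210 5 3, .f 1337 5 3, .f 1210 3 1] 168 136 [1, 1] [(168, 136, [1, 1])]) .no) .no) .no
  (.br 1337 (.hor [.f 1336 1 5] []) .no .no (.br 1338 (.use 611) .no (.red [.f 1210 5 3, .f 1210 3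
  1] 168 136 [1, 1] [(168, 136, [1, 1])]) (.hor [.f 1329 3 5] []) (.red [.f 1210 5 3, .f 1210 3 5,
  .f 1210 5 1, .t 1337 4 2] 167 136 [4, 1, 1] [(167, 136, [4, 1, 1])]) .no) (.use 613) .no) .no)
  .no (.red [.f 1208 3 1, .f 1200 1 3, .f 1072 3 1, .f 1080 1 5] 168 136 [1, 1] [(151, 136, [4,
  1]), (167, 136, [4, 1, 1]), (168, 136, [1, 1])]) .no (.br 1345 (.use 614) .no (.red [.f 1217 3
  1, .t 1216 4 1] 169 136 [1, 3, 1] [(168, 136, [1, 1]), (169, 136, [1, 3, 1])]) .no (.br 1339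
  (.use 615) .no (.con 136 [1, 1, 1]) (.con 136 [4, 4, 1, 1, 3]) .no (.br 1330 (.use 537) .no .no
  (.br 1203 (.red [.f 1210 5 3, .t 1330 4 2] 166 136 [4, 4, 1, 1] [(166, 136, [4, 4, 1, 1])]) .no
  .no .no .no .no) (.con 136 [4, 4, 1, 1, 3]) (.red [.f 1201 5 1, .f 1200 1 5, .t 1080 4 1] 151
  136 [4, 1] [(151, 136, [4, 1])]))) (.red [.f 1336 5 3, .f 1208 3 1] 168 136 [1, 1] [(168, 136,
  [1, 1])])) .no) .no .no (.con 136 [4, 4, 1, 1]) .no .no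

def c22t617 : Tr4 :=
  .br 1203 (.br 1328 (.con 136 [4, 1, 1, 4]) (.br 1330 (.use 534) .no .no .no .no (.red [.f 1201 5
  1, .f 1200 1 5, .t 1080 4 1] 151 136 [4, 1] [(151, 136, [4, 1])])) .no (.con 136 [4, 1, 1, 4])
  (.con 136 [4, 1, 1, 4]) .no) .no .no (.red [.f 1066 5 3, .f 1067 3 1] 150 136 [4, 4, 1] [(150,
  136, [4, 4, 1])]) .no .no

def c22t618 : Tr4 :=
  .br 1339 (.use 615) .no (.con 136 [1, 1, 1]) (.use 582) .no (.use 617)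

def c22t619 : Tr4 :=
  .br 1194 (.br 1336 (.br 1337 (.hor [.f 1336 1 5] []) .no (.br 1346 (.con 136 [1, 1, 1]) .no
  (.con 136 [1, 1, 1]) (.red [.f 1210 5 3, .f 1210 3 1] 168 136 [1, 1] [(168, 136, [1, 1])]) (.con
  136 [1, 1, 1]) .no) (.use 609) (.use 578) .no) .no (.red [.f 1208 3 1] 168 136 [1, 1] [(168,
  136, [1, 1])]) (.use 576) (.br 1345 (.use 614) .no (.red [.f 1217 3 1, .t 1216 4 1] 169 136 [1,
  3, 1] [(168, 136, [1, 1]), (169, 136, [1, 3, 1])]) .no (.use 618) (.red [.f 1336 5 3, .f 1208 3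
  1] 168 136 [1, 1] [(168, 136, [1, 1])])) .no) .no .no (.use 583) (.use 616) (.red [.f 1193 5 3,
  .f 1065 3 1, .f 1073 1 3] 151 136 [4, 1] [(150, 136, [4, 4, 1]), (151, 136, [4, 1])])

def c22t620 : Tr4 :=
  .br 1337 (.use 450) .no (.br 1344 (.con 136 [1, 1, 1]) .no (.con 136 [1, 1, 1]) (.red [.f 1208 3
  1] 168 136 [1, 1] [(168, 136, [1, 1])]) .no .no) (.hor [.f 1329 3 5] []) .no (.use 560)

def c22t621 : Tr4 :=
  .br 1344 (.con 136 [1, 1, 1]) .no (.con 136 [1, 1, 1]) (.red [.f 1208 3 1] 168 136 [1, 1] [(168,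
  136, [1, 1])]) .no .no

def c22t622 : Tr4 :=
  .br 1336 (.br 1337 (.hor [.f 1336 1 5] []) .no .no (.br 1338 (.use 567) .no .no (.use 620) (.red
  [.f 1210 5 1, .f 1211 1 3] 168 136 [1, 1] [(168, 136, [1, 1])]) .no) (.br 1339 (.use 572) .no
  .no (.use 574) .no .no) .no) .no .no (.br 1337 (.br 1338 (.hor [.f 1337 1 5] []) .no .no (.con
  136 [4, 1, 1, 1]) (.con 136 [4, 1, 1, 1]) .no) .no .no (.hor [.f 1328 3 5] []) (.use 180) .no)
  (.red [.f 1336 5 3, .f 1208 3 1] 168 136 [1, 1] [(168, 136, [1, 1])]) .no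

def c22t623 : Tr4 :=
  .br 1066 (.red [.t 1065 3 1, .f 1073 1 3] 151 136 [4, 1] [(150, 136, [4, 4, 1]), (151, 136, [4,
  1])]) .no .no (.br 1194 (.br 939 (.br 1346 (.br 1338 (.red [.f 1338 1 3, .t 1346 4 2] 168 136
  [1, 1] [(168, 136, [1, 1]), (184, 136, [1, 1, 1])]) .no .no (.use 620) (.red [.f 1210 5 1, .f
  1211 1 3] 168 136 [1, 1] [(168, 136, [1, 1])]) (.use 555)) .no (.br 1338 (.br 1337 (.hor [.f
  1337 1 5] []) .no (.use 621) (.br 1336 (.use 557) .no (.red [.f 1208 3 1] 168 136 [1, 1] [(168,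
  136, [1, 1])]) (.hor [.f 1328 3 5] []) .no .no) .no (.use 603)) .no .no (.use 620) (.red [.f
  1210 5 1, .f 1211 1 3] 168 136 [1, 1] [(168, 136, [1, 1])]) (.use 555)) (.red [.t 1346 4 2] 168
  136 [1, 1] [(168, 136, [1, 1])]) .no (.use 559)) (.use 349) (.hor [.f 938 3 5] []) (.use 528)
  .no .no) .no .no (.red [.f 1058 3 1, .t 1065 3 1] 150 136 [4, 4, 1] [(149, 136, [4, 4, 1, 4]),
  (150, 136, [4, 4, 1])]) (.br 939 (.br 1346 (.br 1338 (.red [.f 1338 1 3, .t 1346 4 2] 168 136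
  [1, 1] [(168, 136, [1, 1]), (184, 136, [1, 1, 1])]) .no .no (.use 620) (.red [.f 1210 5 1, .f
  1211 1 3] 168 136 [1, 1] [(168, 136, [1, 1])]) (.use 566)) .no (.br 1225 (.br 1344 (.br 1345
  (.hor [.f 1344 1 5] []) .no .no (.con 136 [1, 1, 1]) .no .no) .no (.con 136 [3, 1, 1, 1]) (.red
  [.f 1208 3 1] 168 136 [1, 1] [(168, 136, [1, 1])]) (.use 622) .no) .no (.red [.f 1097 3 1, .f
  1097 1 5] 154 136 [3, 3, 1] [(154, 136, [3, 3, 1])]) .no .no (.br 1345 (.br 1344 (.hor [.f 1344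
  1 5] []) .no (.con 136 [3, 1, 1, 1]) (.red [.f 1208 3 1] 168 136 [1, 1] [(168, 136, [1, 1])])
  .no .no) .no (.hor [.f 1345 3 5] []) (.use 621) .no (.use 622))) (.red [.t 1346 4 2] 168 136 [1,
  1] [(168, 136, [1, 1])]) .no (.use 568)) (.use 349) (.hor [.f 938 3 5] []) (.use 540) .no .no)
  (.red [.f 1193 5 3, .f 1065 3 1, .f 1073 1 3] 151 136 [4, 1] [(150, 136, [4, 4, 1]), (151, 136,
  [4, 1])])) (.br 1338 (.br 1339 (.hor [.f 1338 1 5] []) .no .no (.use 582) .no .no) .no (.red [.t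
  1346 4 2] 168 136 [1, 1] [(168, 136, [1, 1])]) (.use 620) (.red [.f 1210 5 1, .f 1211 1 3] 168
  136 [1, 1] [(168, 136, [1, 1])]) (.br 1344 (.use 577) .no (.br 1346 (.use 553) .no (.use 569)
  .no .no (.red [.f 1217 5 1, .f 1217 1 5, .f 1337 5 3, .t 1346 4 2] 168 136 [1, 1] [(168, 136,
  [1, 1])])) (.red [.f 1208 3 1] 168 136 [1, 1] [(168, 136, [1, 1])]) (.br 1194 (.use 579) .no .no
  (.use 583) (.red [.f 1066 5 1, .t 1065 3 1, .f 1073 1 3] 151 136 [4, 1] [(150, 136, [4, 4, 1]),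
  (151, 136, [4, 1])]) (.red [.f 1193 5 3, .f 1065 3 1, .f 1073 1 3] 151 136 [4, 1] [(150, 136,
  [4, 4, 1]), (151, 136, [4, 1])])) .no)) .no

def c22t624 : Tr4 :=
  .br 1345 (.con 136 [1, 3, 1, 1]) .no (.hor [.f 1344 3 5] []) .no .no .no

def c22t625 : Tr4 :=
  .br 1232 (.con 136 [3, 3, 1, 1, 1]) .no (.red [.f 1104 3 1] 155 136 [3, 3, 1, 3] [(155, 136, [3,
  3, 1, 3])]) .no (.red [.f 1224 5 3, .f 1097 3 1, .f 1097 1 5, .t 961 1 3, .f 1088 3 5] 154 136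
  [3, 3, 1] [(137, 121, [1]), (154, 136, [3, 3, 1])]) .no

def c22t626 : Tr4 :=
  .br 1473 (.red [.f 1465 1 3, .f 1465 3 5] 200 136 [1, 1, 1, 1] [(200, 136, [1, 1, 1, 1])]) .no
  (.br 1354 (.con 136 [3, 1, 1, 1, 3]) .no (.hor [.f 1354 3 5] []) .no .no (.br 1232 (.con 136 [3,
  3, 1, 1, 1]) .no (.red [.f 1104 3 1] 155 136 [3, 3, 3, 1] [(155, 136, [3, 3, 3, 1])]) .no (.red
  [.f 1224 5 3, .f 1097 3 1, .f 1097 1 5, .t 961 1 3, .f 1088 3 5] 154 136 [3, 3, 1] [(137, 121,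
  [1]), (154, 136, [3, 3, 1])]) .no)) .no .no (.red [.f 1344 5 1, .f 1336 1 3, .f 1208 3 1] 168
  136 [1, 1] [(168, 136, [1, 1]), (184, 136, [1, 1, 1])])

def c22t627 : Tr4 :=
  .br 1328 (.con 136 [4, 1, 1, 4]) (.br 1466 (.hor [.f 1465 1 5] []) .no (.use 626) (.con 136 [4,
  1, 4, 1, 1, 3, 2]) .no .no) .no (.con 136 [4, 1, 1, 4]) .no .no

def c22t628 : Tr4 :=
  .br 1336 (.br 1337 (.hor [.f 1336 1 5] []) .no (.use 164) (.br 1338 (.use 608) .no (.br 1347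
  (.br 1344 (.red [.f 1336 1 3, .f 1208 3 1] 168 136 [1, 1] [(168, 136, [1, 1]), (184, 136, [1, 1,
  1])]) .no (.use 624) .no (.br 1225 (.br 1224 (.hor [.f 1224 1 5] []) .no (.con 136 [3, 3, 1, 1])
  .no .no .no) .no (.red [.f 1097 3 1, .f 1097 1 5] 154 136 [3, 3, 1] [(154, 136, [3, 3, 1])]) .no
  .no (.br 1104 (.red [.t 1104 1 4, .f 1097 1 5] 154 136 [3, 3, 1] [(154, 136, [3, 3, 1])]) .no
  (.br 1339 (.br 1106 (.red [.f 1098 1 3, .f 1097 3 5] 154 136 [3, 3, 1] [(154, 136, [3, 3, 1])])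
  (.br 1355 (.red [.f 1347 1 3, .f 1219 3 1, .t 1346 4 2] 169 136 [3, 1, 1] [(168, 136, [1, 1]),
  (169, 136, [3, 1, 1]), (185, 136, [3, 1, 1, 1])]) .no (.br 1465 (.br 1203 (.br 1328 (.con 136
  [4, 1, 1, 4]) (.br 1466 (.hor [.f 1465 1 5] []) .no (.br 1473 (.red [.f 1465 1 3, .f 1465 3 5]
  200 136 [1, 1, 1, 1] [(200, 136, [1, 1, 1, 1])]) .no (.br 1354 (.con 136 [3, 1, 1, 1, 3]) .no
  (.hor [.f 1354 3 5] []) .no .no (.use 625)) .no .no (.red [.f 1344 5 1, .f 1336 1 3, .f 1208 3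
  1] 168 136 [1, 1] [(168, 136, [1, 1]), (184, 136, [1, 1, 1])])) (.con 136 [4, 4, 1, 1, 1, 3, 2])
  .no .no) .no (.con 136 [4, 1, 1, 4]) .no .no) .no .no (.red [.t 938 3 1, .f 1067 3 1] 150 136
  [4, 4, 1] [(134, 136, [4, 4]), (150, 136, [4, 4, 1])]) .no .no) .no (.red [.t 1464 2 3, .f 1208
  3 1] 168 136 [1, 1] [(168, 136, [1, 1]), (184, 136, [1, 1, 1])]) (.red [.f 1329 3 1, .f 1336 1
  5, .f 1336 5 3, .f 1208 3 1] 168 136 [1, 1] [(168, 136, [1, 1]), (183, 167, [1])]) (.red [.f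
  1339 1 3, .f 1338 3 5, .f 1210 5 1, .t 1337 4 2, .f 1337 5 1, .t 1466 2 3] 167 136 [4, 1, 1]
  [(167, 136, [4, 1, 1])]) .no) .no .no (.red [.f 1339 1 3, .f 1338 3 5, .f 1346 5 3, .f 1219 3 1]
  169 136 [3, 1, 1] [(169, 136, [3, 1, 1]), (184, 168, [1])])) (.use 441) .no (.br 1355 (.red [.f
  1347 1 3, .f 1219 3 1, .t 1346 4 2] 169 136 [3, 1, 1] [(168, 136, [1, 1]), (169, 136, [3, 1,
  1]), (185, 136, [3, 1, 1, 1])]) .no (.br 1465 (.br 1203 (.use 627) .no .no (.red [.t 938 3 1, .f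
  1067 3 1] 150 136 [4, 4, 1] [(134, 136, [4, 4]), (150, 136, [4, 4, 1])]) .no .no) .no (.red [.t
  1464 2 3, .f 1208 3 1] 168 136 [1, 1] [(168, 136, [1, 1]), (184, 136, [1, 1, 1])]) (.red [.f
  1329 3 1, .f 1336 1 5, .f 1336 5 3, .f 1208 3 1] 168 136 [1, 1] [(168, 136, [1, 1]), (183, 167,
  [1])]) (.red [.f 1339 1 3, .f 1338 3 5, .f 1210 5 1, .t 1337 4 2, .f 1337 5 1, .t 1466 2 3] 167
  136 [4, 1, 1] [(167, 136, [4, 1, 1])]) .no) .no .no (.red [.f 1339 1 3, .f 1338 3 5, .f 1346 5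
  3, .f 1219 3 1] 169 136 [3, 1, 1] [(169, 136, [3, 1, 1]), (184, 168, [1])])) .no) .no .no (.br
  1203 .no .no .no (.red [.t 938 3 1, .f 1067 3 1] 150 136 [4, 4, 1] [(134, 136, [4, 4]), (150,
  136, [4, 4, 1])]) .no .no) .no .no) .no .no .no)) .no) .no (.red [.f 1219 3 1, .t 1346 4 2] 169
  136 [3, 1, 1] [(168, 136, [1, 1]), (169, 136, [3, 1, 1])]) (.hor [.f 1338 3 5] []) .no .no)
  (.hor [.f 1329 3 5] []) (.red [.f 1091 3 1, .f 1091 1 3, .f 1210 5 1, .t 1337 4 2] 167 136 [4,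
  1, 1] [(167, 136, [4, 1, 1])]) .no) (.use 554) .no) .no (.red [.f 1208 3 1] 168 136 [1, 1]
  [(168, 136, [1, 1])]) (.br 1337 (.br 1339 (.con 136 [4, 1, 1, 1]) .no (.con 136 [4, 1, 1, 1])
  (.br 1329 (.red [.f 1329 1 3, .f 1328 3 5] 183 136 [4, 1, 1, 1] [(183, 136, [4, 1, 1, 1])]) .no
  .no (.con 136 [4, 1, 1, 4, 1]) (.red [.f 1201 5 1, .t 1330 2 3] 167 136 [4, 1, 1] [(167, 136,
  [4, 1, 1])]) .no) .no (.con 136 [4, 1, 1, 1])) .no (.use 170) (.hor [.f 1328 3 5] []) (.use 180)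
  .no) (.use 603) .no

def c22t629 : Tr4 :=
  .br 1224 (.hor [.f 1224 1 5] []) .no (.con 136 [1, 3, 3, 1]) .no .no .no

def c22t630 : Tr4 :=
  .br 1347 (.use 624) .no (.red [.f 1219 3 1, .t 1346 4 2] 169 136 [1, 3, 1] [(168, 136, [1, 1]),
  (169, 136, [1, 3, 1])]) (.hor [.f 1338 3 5] []) .no .no

def c22t631 : Tr4 :=
  .br 1337 (.hor [.f 1336 1 5] []) .no (.use 164) (.br 1338 (.use 611) .no (.use 630) (.hor [.f
  1329 3 5] []) (.red [.f 1091 3 1, .f 1091 1 3, .f 1210 5 1, .t 1337 4 2] 167 136 [4, 1, 1]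
  [(167, 136, [4, 1, 1])]) .no) (.br 1339 (.use 612) .no (.con 136 [1, 1, 1]) (.con 136 [4, 4, 1,
  1, 3]) .no .no) .no

def c22t632 : Tr4 :=
  .br 1355 (.red [.f 1347 1 3, .f 1219 3 1, .t 1346 4 2] 169 136 [3, 1, 1] [(168, 136, [1, 1]),
  (169, 136, [3, 1, 1]), (185, 136, [3, 1, 1, 1])]) .no (.br 1354 (.br 1353 (.hor [.f 1353 1 5]
  []) .no (.con 136 [3, 3, 1, 1, 1]) .no .no (.con 136 [3, 3, 1, 1, 1])) .no (.hor [.f 1354 3 5]
  []) .no .no (.use 625)) .no .no (.red [.f 1339 1 3, .f 1338 3 5, .f 1346 5 3, .f 1219 3 1] 169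
  136 [3, 1, 1] [(169, 136, [3, 1, 1]), (184, 168, [1])])

def c22t633 : Tr4 :=
  .br 1203 (.red [.t 1330 4 2] 166 136 [4, 4, 1, 1] [(166, 136, [4, 4, 1, 1])]) .no .no .no .no
  .no

def c22t634 : Tr4 :=
  .br 1330 (.use 537) .no (.br 1339 (.con 136 [4, 1, 1, 1]) .no (.con 136 [1, 1, 1]) (.con 136 [4,
  4, 1, 1, 3]) .no .no) (.use 633) (.con 136 [4, 4, 1, 1, 3]) (.red [.f 1201 5 1, .f 1200 1 5, .t
  1080 4 1] 151 136 [4, 1] [(151, 136, [4, 1])])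

def c22l19 : List Tr4 :=
  [c22t612, c22t613, c22t614, c22t615, c22t616, c22t617, c22t618, c22t619, c22t620, c22t621,
  c22t622, c22t623, c22t624, c22t625, c22t626, c22t627, c22t628, c22t629, c22t630, c22t631,
  c22t632, c22t633, c22t634]

theorem c22k19 : chkLF ⟨4, 0, 0, true, -8⟩ false 2 c22N 612 c22l19 = true := by decide +kernel

def c22t635 : Tr4 :=
  .br 1225 (.use 629) .no (.red [.f 1097 3 1, .f 1097 1 5] 154 136 [3, 3, 1] [(154, 136, [3, 3,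
  1])]) .no .no (.br 1104 (.red [.t 1104 1 4, .f 1097 1 5] 154 136 [3, 3, 1] [(154, 136, [3, 3,
  1])]) .no (.br 1106 (.red [.f 1098 1 3, .f 1097 3 5] 154 136 [3, 3, 1] [(154, 136, [3, 3, 1])])
  (.br 1200 (.br 1336 (.br 1344 (.red [.f 1336 1 3, .f 1208 3 1] 168 136 [1, 1] [(168, 136, [1,
  1]), (184, 136, [1, 1, 1])]) .no (.use 631) .no (.br 1337 (.hor [.f 1336 1 5] []) .no .no (.br
  1338 (.use 611) .no (.br 1347 (.br 1339 (.use 632) .no .no (.con 136 [4, 4, 1, 1, 3]) .no .no)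
  .no (.red [.f 1219 3 1, .t 1346 4 2] 169 136 [3, 1, 1] [(168, 136, [1, 1]), (169, 136, [3, 1,
  1])]) (.hor [.f 1338 3 5] []) .no .no) (.hor [.f 1329 3 5] []) (.red [.f 1091 3 1, .f 1091 1 3,
  .f 1210 5 1, .t 1337 4 2] 167 136 [4, 1, 1] [(167, 136, [4, 1, 1])]) .no) (.use 613) .no) .no)
  .no (.red [.f 1208 3 1, .f 1200 1 3, .f 1072 3 1, .f 1080 1 5] 168 136 [1, 1] [(151, 136, [4,
  1]), (167, 136, [4, 1, 1]), (168, 136, [1, 1])]) .no (.use 634) .no) .no .no (.con 136 [4, 4, 1,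
  1]) .no .no) (.use 441) .no (.br 1200 (.br 1336 (.br 1344 (.red [.f 1336 1 3, .f 1208 3 1] 168
  136 [1, 1] [(168, 136, [1, 1]), (184, 136, [1, 1, 1])]) .no (.use 631) .no (.br 1337 (.hor [.f
  1336 1 5] []) .no .no (.br 1338 (.use 611) .no (.br 1347 (.br 1339 (.br 1355 (.red [.f 1347 1 3,
  .f 1219 3 1, .t 1346 4 2] 169 136 [3, 1, 1] [(168, 136, [1, 1]), (169, 136, [3, 1, 1]), (185,
  136, [3, 1, 1, 1])]) .no (.br 1465 (.br 1466 (.hor [.f 1465 1 5] []) .no (.use 626) (.br 1330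
  .no .no .no (.use 633) (.con 136 [4, 4, 1, 1, 3]) .no) .no .no) .no (.red [.t 1464 2 3, .f 1208
  3 1] 168 136 [1, 1] [(168, 136, [1, 1]), (184, 136, [1, 1, 1])]) (.red [.f 1329 3 1, .f 1336 1
  5, .f 1336 5 3, .f 1208 3 1] 168 136 [1, 1] [(168, 136, [1, 1]), (183, 167, [1])]) (.red [.f
  1339 1 3, .f 1338 3 5, .f 1210 5 1, .t 1337 4 2, .f 1337 5 1, .t 1466 2 3] 167 136 [4, 1, 1]
  [(167, 136, [4, 1, 1])]) .no) .no .no (.red [.f 1339 1 3, .f 1338 3 5, .f 1346 5 3, .f 1219 3 1]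
  169 136 [3, 1, 1] [(169, 136, [3, 1, 1]), (184, 168, [1])])) .no .no (.con 136 [4, 4, 1, 1, 3])
  .no .no) .no (.red [.f 1219 3 1, .t 1346 4 2] 169 136 [3, 1, 1] [(168, 136, [1, 1]), (169, 136,
  [3, 1, 1])]) (.hor [.f 1338 3 5] []) .no .no) (.hor [.f 1329 3 5] []) (.red [.f 1091 3 1, .f
  1091 1 3, .f 1210 5 1, .t 1337 4 2] 167 136 [4, 1, 1] [(167, 136, [4, 1, 1])]) .no) (.use 613)
  .no) .no) .no (.red [.f 1208 3 1, .f 1200 1 3, .f 1072 3 1, .f 1080 1 5] 168 136 [1, 1] [(151,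
  136, [4, 1]), (167, 136, [4, 1, 1]), (168, 136, [1, 1])]) .no (.use 634) .no) .no .no (.con 136
  [4, 4, 1, 1]) .no .no) .no) .no .no .no)

def c22t636 : Tr4 :=
  .br 1336 (.br 1337 (.hor [.f 1336 1 5] []) .no (.use 164) (.br 1338 (.use 608) .no (.br 1344
  (.red [.f 1336 1 3, .f 1208 3 1] 168 136 [1, 1] [(168, 136, [1, 1]), (184, 136, [1, 1, 1])]) .no
  (.use 630) .no (.br 1347 (.br 1339 (.br 1104 (.red [.t 1104 1 4, .f 1097 1 5] 154 136 [3, 3, 1]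
  [(154, 136, [3, 3, 1])]) .no (.br 1106 (.red [.f 1098 1 3, .f 1097 3 5] 154 136 [3, 3, 1] [(154,
  136, [3, 3, 1])]) (.use 632) (.use 441) .no (.br 1355 (.red [.f 1347 1 3, .f 1219 3 1, .t 1346 4
  2] 169 136 [3, 1, 1] [(168, 136, [1, 1]), (169, 136, [3, 1, 1]), (185, 136, [3, 1, 1, 1])]) .no
  (.br 1465 (.br 1203 (.use 627) .no .no (.red [.f 1066 5 3, .f 1067 3 1] 150 136 [4, 4, 1] [(150,
  136, [4, 4, 1])]) .no .no) .no (.red [.t 1464 2 3, .f 1208 3 1] 168 136 [1, 1] [(168, 136, [1,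
  1]), (184, 136, [1, 1, 1])]) (.red [.f 1329 3 1, .f 1336 1 5, .f 1336 5 3, .f 1208 3 1] 168 136
  [1, 1] [(168, 136, [1, 1]), (183, 167, [1])]) (.red [.f 1339 1 3, .f 1338 3 5, .f 1210 5 1, .t
  1337 4 2, .f 1337 5 1, .t 1466 2 3] 167 136 [4, 1, 1] [(167, 136, [4, 1, 1])]) .no) .no .no
  (.red [.f 1339 1 3, .f 1338 3 5, .f 1346 5 3, .f 1219 3 1] 169 136 [3, 1, 1] [(169, 136, [3, 1,
  1]), (184, 168, [1])])) .no) .no .no .no) .no .no (.use 582) .no .no) .no (.red [.f 1219 3 1, .t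
  1346 4 2] 169 136 [3, 1, 1] [(168, 136, [1, 1]), (169, 136, [3, 1, 1])]) (.hor [.f 1338 3 5] [])
  .no .no) .no) (.hor [.f 1329 3 5] []) (.red [.f 1091 3 1, .f 1091 1 3, .f 1210 5 1, .t 1337 4 2]
  167 136 [4, 1, 1] [(167, 136, [4, 1, 1])]) .no) (.use 578) .no) .no (.red [.f 1208 3 1] 168 136
  [1, 1] [(168, 136, [1, 1])]) (.use 576) (.br 1345 (.br 1344 (.hor [.f 1344 1 5] []) .no (.br
  1347 (.con 136 [3, 1, 1, 1]) .no (.red [.f 1091 3 1, .f 1091 1 3, .f 1219 3 1] 169 136 [3, 1, 1]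
  [(169, 136, [3, 1, 1])]) (.con 136 [3, 1, 1, 1]) .no (.con 136 [3, 1, 1, 1])) .no .no .no) .no
  (.br 1344 (.br 1104 (.red [.t 1104 1 4, .f 1097 1 5] 154 136 [3, 3, 1] [(154, 136, [3, 3, 1])])
  .no (.br 1339 (.br 1338 (.hor [.f 1338 1 5] []) .no (.br 1347 (.br 1355 (.red [.f 1347 1 3, .f
  1219 3 1, .t 1346 4 2] 169 136 [3, 1, 1] [(168, 136, [1, 1]), (169, 136, [3, 1, 1]), (185, 136,
  [3, 1, 1, 1])]) .no (.br 1106 (.red [.f 1098 1 3, .f 1097 3 5] 154 136 [3, 3, 1] [(154, 136, [3,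
  3, 1])]) (.br 1354 (.br 1232 (.con 136 [3, 3, 1, 1, 1]) .no (.red [.f 1104 3 1] 155 136 [3, 3,
  3, 1] [(155, 136, [3, 3, 3, 1])]) .no (.red [.f 1224 5 3, .f 1097 3 1, .f 1097 1 5, .t 961 1 3,
  .f 1088 3 5] 154 136 [3, 3, 1] [(137, 121, [1]), (154, 136, [3, 3, 1])]) .no) .no (.hor [.f 1354
  3 5] []) .no .no .no) (.use 441) .no (.br 1354 (.br 1232 (.con 136 [3, 3, 1, 1, 1]) .no (.red
  [.f 1104 3 1] 155 136 [3, 3, 3, 1] [(155, 136, [3, 3, 3, 1])]) .no (.red [.f 1224 5 3, .f 1097 3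
  1, .f 1097 1 5, .t 961 1 3, .f 1088 3 5] 154 136 [3, 3, 1] [(137, 121, [1]), (154, 136, [3, 3,
  1])]) .no) .no (.hor [.f 1354 3 5] []) .no .no .no) .no) .no .no (.red [.f 1339 1 3, .f 1338 3
  5, .f 1346 5 3, .f 1219 3 1] 169 136 [3, 1, 1] [(169, 136, [3, 1, 1]), (184, 168, [1])])) .no
  (.red [.f 1219 3 1, .t 1346 4 2] 169 136 [3, 1, 1] [(168, 136, [1, 1]), (169, 136, [3, 1, 1])])
  .no .no .no) (.con 136 [4, 1, 1, 1]) .no .no) .no (.br 1346 (.con 136 [1, 1, 1]) .no (.con 136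
  [1, 1, 1]) (.hor [.f 1338 3 5] []) .no .no) (.use 582) .no (.use 617)) .no .no .no) .no (.hor
  [.f 1344 3 5] []) .no .no .no) .no (.use 618) (.red [.f 1336 5 3, .f 1208 3 1] 168 136 [1, 1]
  [(168, 136, [1, 1])])) .no

def c22t637 : Tr4 :=
  .br 1218 (.use 598) .no .no .no (.br 1217 (.br 1337 (.use 599) .no .no (.br 1338 (.br 1066 (.red
  [.t 1065 3 1, .f 1073 1 3] 151 136 [4, 1] [(150, 136, [4, 4, 1]), (151, 136, [4, 1])]) .no .no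
  (.use 513) (.use 600) .no) .no (.red [.f 1210 5 3, .f 1210 3 1] 168 136 [1, 1] [(168, 136, [1,
  1])]) (.hor [.f 1329 3 5] []) (.red [.f 1210 5 3, .f 1210 3 5, .f 1210 5 1, .t 1337 4 2] 167 136
  [4, 1, 1] [(167, 136, [4, 1, 1])]) .no) (.red [.f 1210 5 3, .t 1217 1 4] 168 136 [1, 1] [(168,
  136, [1, 1])]) (.red [.t 1216 4 1] 168 136 [1, 1] [(168, 136, [1, 1])])) .no (.br 1066 (.red [.t
  1065 3 1, .f 1073 1 3] 151 136 [4, 1] [(150, 136, [4, 4, 1]), (151, 136, [4, 1])]) .no .no (.br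
  1194 (.br 939 (.br 1344 (.br 1345 (.hor [.f 1344 1 5] []) .no (.red [.f 1217 3 1] 169 136 [3, 1,
  1] [(169, 136, [3, 1, 1])]) (.use 601) (.br 1336 (.red [.f 1336 1 3, .f 1208 3 1] 168 136 [1, 1]
  [(168, 136, [1, 1]), (184, 136, [1, 1, 1])]) .no .no (.use 602) (.use 603) .no) .no) .no (.br
  1345 (.use 604) .no (.hor [.f 1344 3 5] []) (.use 605) (.br 1337 (.use 606) .no .no (.use 607)
  (.red [.f 1210 5 3, .f 1337 5 3, .f 1210 3 1] 168 136 [1, 1] [(168, 136, [1, 1])]) (.use 603))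
  .no) (.red [.f 1208 3 1] 168 136 [1, 1] [(168, 136, [1, 1])]) (.br 1336 (.br 1337 (.hor [.f 1336
  1 5] []) .no .no (.use 609) (.use 554) .no) .no .no (.use 610) (.use 603) .no) .no) (.use 349)
  (.hor [.f 938 3 5] []) (.use 528) .no .no) .no .no (.red [.f 1058 3 1, .t 1065 3 1] 150 136 [4,
  4, 1] [(149, 136, [4, 4, 1, 4]), (150, 136, [4, 4, 1])]) (.use 616) (.red [.f 1193 5 3, .f 1065
  3 1, .f 1073 1 3] 151 136 [4, 1] [(150, 136, [4, 4, 1]), (151, 136, [4, 1])])) (.use 619) .no)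
  .no .no .no) (.br 1219 (.use 623) .no (.br 968 .no .no (.br 1066 (.red [.t 1065 3 1, .f 1073 1
  3] 151 136 [4, 1] [(150, 136, [4, 4, 1]), (151, 136, [4, 1])]) .no .no (.br 1194 (.br 939 (.use
  628) (.use 349) (.hor [.f 938 3 5] []) (.use 528) .no .no) .no .no (.red [.f 1058 3 1, .t 1065 3
  1] 150 136 [4, 4, 1] [(149, 136, [4, 4, 1, 4]), (150, 136, [4, 4, 1])]) (.use 635) (.red [.f
  1193 5 3, .f 1065 3 1, .f 1073 1 3] 151 136 [4, 1] [(150, 136, [4, 4, 1]), (151, 136, [4, 1])]))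
  (.br 1194 (.br 1225 (.use 629) .no (.red [.f 1097 3 1, .f 1097 1 5] 154 136 [3, 3, 1] [(154,
  136, [3, 3, 1])]) .no .no (.use 636)) .no .no (.use 583) (.use 635) (.red [.f 1193 5 3, .f 1065
  3 1, .f 1073 1 3] 151 136 [4, 1] [(150, 136, [4, 4, 1]), (151, 136, [4, 1])])) .no) .no .no .no)
  .no .no .no)

def c22t638 : Tr4 :=
  .br 1203 (.use 525) .no .no (.red [.f 946 5 1, .f 939 1 3, .f 1067 3 1] 150 136 [4, 4, 1] [(134,
  136, [4, 4]), (150, 136, [4, 4, 1])]) .no .no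

def c22t639 : Tr4 :=
  .br 1074 .no (.br 1218 (.use 598) .no .no .no (.use 495) (.red [.t 1081 1 3, .t 945 3 1, .f 953
  1 3] 136 136 [] [(135, 136, [4]), (136, 136, []), (152, 136, [1])])) .no (.hor [.f 1065 3 5] [])
  (.br 946 .no (.hor [.f 818 1 3, .f 945 3 5] [(119, 121, [4, 4])]) .no (.use 637) (.br 1218 (.use
  598) .no .no .no (.br 1217 (.br 1337 (.use 599) .no .no (.br 1338 (.br 1066 (.red [.t 1065 3 1,
  .f 1073 1 3] 151 136 [4, 1] [(150, 136, [4, 4, 1]), (151, 136, [4, 1])]) (.red [.f 946 5 1, .f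
  938 1 3, .f 1065 3 5, .f 1073 5 1, .f 1073 1 3] 151 136 [4, 1] [(134, 150, [2]), (151, 136, [4,
  1])]) .no (.use 513) (.use 600) .no) .no (.red [.f 1210 5 3, .f 1210 3 1] 168 136 [1, 1] [(168,
  136, [1, 1])]) (.hor [.f 1329 3 5] []) (.red [.f 1210 5 3, .f 1210 3 5, .f 1210 5 1, .t 1337 4
  2] 167 136 [4, 1, 1] [(167, 136, [4, 1, 1])]) .no) (.red [.f 1210 5 3, .t 1217 1 4] 168 136 [1,
  1] [(168, 136, [1, 1])]) (.red [.t 1216 4 1] 168 136 [1, 1] [(168, 136, [1, 1])])) .no (.br 1066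
  (.red [.t 1065 3 1, .f 1073 1 3] 151 136 [4, 1] [(150, 136, [4, 4, 1]), (151, 136, [4, 1])])
  (.red [.f 946 5 1, .f 938 1 3, .f 1065 3 5, .f 1073 5 1, .f 1073 1 3] 151 136 [4, 1] [(134, 150,
  [2]), (151, 136, [4, 1])]) .no (.br 1194 (.br 1067 (.use 527) (.br 1344 (.br 1345 (.hor [.f 1344
  1 5] []) .no (.red [.f 1217 3 1] 169 136 [3, 1, 1] [(169, 136, [3, 1, 1])]) (.use 601) (.br 1336
  (.red [.f 1336 1 3, .f 1208 3 1] 168 136 [1, 1] [(168, 136, [1, 1]), (184, 136, [1, 1, 1])]) .no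
  .no (.use 602) (.use 638) .no) .no) .no (.br 1345 (.use 604) .no (.hor [.f 1344 3 5] []) (.use
  605) (.br 1337 (.use 606) .no .no (.use 607) (.red [.f 1210 5 3, .f 1337 5 3, .f 1210 3 1] 168
  136 [1, 1] [(168, 136, [1, 1])]) (.use 638)) .no) (.red [.f 1208 3 1] 168 136 [1, 1] [(168, 136,
  [1, 1])]) (.br 1336 (.br 1337 (.hor [.f 1336 1 5] []) .no .no (.use 609) (.br 1203 (.use 486)
  .no .no (.red [.f 946 5 1, .f 939 1 3, .f 1067 3 1] 150 136 [4, 4, 1] [(134, 136, [4, 4]), (150,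
  136, [4, 4, 1])]) .no .no) .no) .no .no (.use 610) (.use 638) .no) .no) .no (.hor [.f 1058 3 5]
  []) .no .no) .no .no (.red [.f 1058 3 1, .t 1065 3 1] 150 136 [4, 4, 1] [(149, 136, [4, 4, 1,
  4]), (150, 136, [4, 4, 1])]) (.use 616) (.red [.f 1193 5 3, .f 1065 3 1, .f 1073 1 3] 151 136
  [4, 1] [(150, 136, [4, 4, 1]), (151, 136, [4, 1])])) (.use 619) .no) .no .no .no) (.red [.f 946
  5 1, .t 1081 1 3, .t 945 3 1, .f 953 1 3] 136 136 [] [(135, 136, [4]), (136, 136, []), (152,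
  136, [1])])) .no) .no

def c22t640 : Tr4 :=
  .br 1097 (.br 1098 (.hor [.f 1097 1 5] []) .no (.br 1217 (.br 1074 .no (.br 1218 (.hor [.f 1217
  1 5] []) .no (.br 1219 (.br 1211 (.use 325) .no .no (.con 136 [4, 1, 1]) .no (.br 1346 (.br 1066
  (.red [.t 1065 3 1, .f 1073 1 3] 151 136 [4, 1] [(150, 136, [4, 4, 1]), (151, 136, [4, 1])])
  (.red [.f 938 1 3, .f 1065 3 5, .f 1073 5 1, .f 1073 1 3] 151 136 [4, 1] [(134, 150, [2]), (151,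
  136, [4, 1])]) .no (.use 490) (.br 947 (.hor [.f 946 1 5] []) (.br 1338 (.red [.f 1338 1 3, .t
  1346 4 2] 168 136 [1, 1] [(168, 136, [1, 1]), (184, 136, [1, 1, 1])]) .no .no (.use 459) (.red
  [.f 1210 5 1, .f 1211 1 3] 168 136 [1, 1] [(168, 136, [1, 1])]) (.br 1344 (.use 463) .no (.br
  1194 (.use 491) .no .no (.br 1227 (.hor [.f 1219 1 3, .f 1218 3 5] [(169, 168, [3])]) .no (.br
  1354 (.use 466) .no (.br 1075 (.use 479) .no .no .no .no .no) .no (.red [.t 1218 3 1, .f 1210 5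
  3, .t 1217 1 4] 168 136 [1, 1] [(168, 136, [1, 1]), (169, 168, [3])]) (.hor [.t 1217 1 3, .f
  1344 3 5] [(169, 168, [3])])) .no .no .no) (.red [.f 1066 5 1, .t 1065 3 1, .f 1073 1 3] 151 136
  [4, 1] [(150, 136, [4, 4, 1]), (151, 136, [4, 1])]) (.red [.f 1193 5 3, .f 1065 3 1, .f 1073 1
  3] 151 136 [4, 1] [(150, 136, [4, 4, 1]), (151, 136, [4, 1])])) (.red [.f 1208 3 1, .f 1216 1 5]
  168 136 [1, 1] [(168, 136, [1, 1])]) .no .no)) .no (.hor [.t 946 1 4, .f 1065 3 5] [(134, 136,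
  [4, 4])]) .no .no) .no) .no (.hor [.f 1218 3 1, .f 1217 1 5] [(169, 168, [3])]) (.red [.t 1346 4
  2] 168 136 [1, 1] [(168, 136, [1, 1])]) .no .no)) .no (.hor [.f 1218 3 5] []) (.use 493) .no
  .no) (.red [.f 1082 3 1, .f 1081 1 5, .t 945 3 1, .f 953 1 3] 136 136 [] [(135, 136, [4]), (136,
  136, []), (152, 136, [1])]) (.use 495) .no) .no (.hor [.f 1065 3 5] []) (.use 517) .no) .no .no
  .no (.br 1074 .no (.red [.t 1081 1 3, .t 945 3 1, .f 953 1 3] 136 136 [] [(135, 136, [4]), (136,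
  136, []), (152, 136, [1])]) .no (.hor [.f 1065 3 5] []) (.br 946 .no (.hor [.f 818 1 3, .f 945 3
  5] [(119, 121, [4, 4])]) .no (.use 586) (.red [.f 946 5 1, .t 1081 1 3, .t 945 3 1, .f 953 1 3]
  136 136 [] [(135, 136, [4]), (136, 136, []), (152, 136, [1])]) .no) .no) .no) .no .no .no) .no
  (.br 1098 (.br 1210 (.br 1211 (.hor [.f 1210 1 5] []) .no (.use 597) (.con 136 [4, 1, 1]) .no
  .no) .no (.use 503) .no (.use 639) .no) .no (.hor [.f 1097 3 5] []) .no .no .no) .no (.use 195)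
  .no

def c22t641 : Tr4 :=
  .br 1200 (.hor [.f 1200 1 5] []) .no .no (.con 136 [4, 1, 1, 4]) .no .no

def c22t642 : Tr4 :=
  .br 1202 (.red [.f 1202 1 3, .t 1209 2 4] 151 136 [4, 1] [(151, 136, [4, 1]), (167, 136, [4, 1,
  1])]) .no .no (.use 641) (.use 453) .no

def c22t643 : Tr4 :=
  .br 1224 (.red [.t 1224 1 4, .f 1217 1 5] 169 136 [3, 1, 1] [(169, 136, [3, 1, 1])]) .no (.br
  1352 (.br 1353 (.hor [.f 1352 1 5] []) .no (.br 1354 (.con 136 [3, 1, 1, 3, 1]) .no (.hor [.f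
  1353 3 5] []) .no (.con 136 [3, 1, 1, 3, 1]) .no) .no (.red [.f 1210 1 3, .f 1210 3 1, .t 1217 3
  1] 169 136 [3, 1, 1] [(169, 136, [3, 1, 1])]) .no) .no (.red [.f 1224 3 1] 170 136 [3, 1, 1, 3]
  [(170, 136, [3, 1, 1, 3])]) .no (.red [.f 1344 5 3, .f 1217 3 1, .f 1217 1 5, .t 1081 1 3, .f
  1208 3 5] 169 136 [3, 1, 1] [(152, 136, [1]), (169, 136, [3, 1, 1])]) .no) .no .no .no

def c22t644 : Tr4 :=
  .br 696 (.br 818 .no (.br 697 .no (.br 698 .no (.hor [.f 569 1 5] []) .no .no .no .no) (.hor [.f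
  697 3 1, .f 696 1 5] [(104, 136, [2, 2])]) (.con 136 [2, 4, 4, 2, 3, 3, 1, 1]) (.hor [.t 833 4
  2, .f 696 1 5] [(104, 136, [2, 2])]) .no) .no (.use 120) .no (.hor [.t 953 4 2, .f 816 1 5]
  [(119, 136, [2, 4])])) (.con 136 [2, 4, 2, 3, 1, 1]) (.con 136 [2, 4, 2, 3, 1, 1]) (.con 136 [2,
  4, 2, 3, 1, 1]) (.con 136 [2, 4, 2, 3, 1, 1]) .no

def c22l20 : List Tr4 :=
  [c22t635, c22t636, c22t637, c22t638, c22t639, c22t640, c22t641, c22t642, c22t643, c22t644]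

theorem c22k20 : chkLF ⟨4, 0, 0, true, -8⟩ false 2 c22N 635 c22l20 = true := by decide +kernel

end Pool.Agent.FT4D
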