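import Pool.Agent.FT4D.Tab_c22

/-!
# Four levels: decision trees (found by a computer search)
-/

namespace Pool.Agent.FT4D

def c22t645 : Tr4 :=
  .br 824 .no (.br 816 (.br 939 .no .no .no (.br 1058 .no (.red [.f 930 1 3, .f 930 3 5] 133 136
  [4, 4, 4] [(133, 136, [4, 4, 4])]) .no (.br 930 .no (.br 929 .no (.hor [.f 801 1 5] []) .no (.br
  928 (.red [.t 1056 2 3, .f 937 1 5] 133 136 [4, 4, 4] [(133, 136, [4, 4, 4])]) (.con 136 [4, 2,
  4, 4, 4]) .no (.hor [.f 920 3 5] []) .no .no) .no (.red [.f 928 5 3, .f 929 3 1] 133 136 [4, 4,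
  4] [(133, 136, [4, 4, 4])])) .no (.red [.f 922 3 1, .f 930 1 3] 133 136 [4, 4, 4] [(132, 136,
  [4, 4, 4, 4]), (133, 136, [4, 4, 4])]) .no (.red [.t 1065 4 2, .f 930 3 5] 133 136 [4, 4, 4]
  [(133, 136, [4, 4, 4])])) (.red [.t 1066 2 3, .t 946 4 1, .t 938 1 4] 133 136 [4, 4, 4] [(133,
  136, [4, 4, 4])]) .no) .no .no) (.con 136 [4, 4, 2, 3, 1, 3]) .no (.con 136 [4, 4, 2, 3, 1, 3])
  (.con 136 [4, 4, 2, 3, 1, 3]) .no) .no (.con 136 [4, 4, 2, 3, 1, 3]) .no .no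

def c22t646 : Tr4 :=
  .br 1057 (.red [.t 1184 3 2] 149 136 [4, 1, 4, 4] [(149, 136, [4, 1, 4, 4])]) (.br 928 (.hor [.f
  928 1 5] []) (.con 136 [4, 4, 4, 4]) (.con 136 [4, 4, 4, 4]) (.con 136 [4, 4, 4, 4]) .no .no)
  .no (.hor [.f 1049 3 5] []) .no (.red [.f 1056 5 3, .f 1056 3 1] 149 136 [4, 1, 4, 4] [(149,
  136, [4, 1, 4, 4])])

def c22t647 : Tr4 :=
  .br 1354 (.con 136 [1, 3, 1, 3, 1]) .no (.hor [.f 1353 3 5] []) .no .no .no

def c22t648 : Tr4 :=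
  .br 1353 (.red [.f 1345 1 3, .f 1344 3 5] 185 136 [1, 3, 1, 1] [(185, 136, [1, 3, 1, 1])]) .no
  (.use 647) .no (.red [.f 1210 1 3, .f 1210 3 1, .t 1217 3 1] 169 136 [1, 3, 1] [(169, 136, [1,
  3, 1])]) .no

def c22t649 : Tr4 :=
  .br 1200 (.red [.f 1208 3 1, .f 1200 1 3, .f 1072 3 1, .f 1080 1 5] 151 136 [4, 1] [(151, 136,
  [4, 1]), (167, 136, [4, 1, 1]), (168, 136, [1, 1])]) .no .no (.use 63) .no .no

def c22t650 : Tr4 :=
  .br 1353 (.br 1473 (.hor [.f 1472 1 5] []) .no .no (.red [.f 1337 3 1, .f 1336 1 5] 184 136 [1,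
  1, 1] [(184, 136, [1, 1, 1])]) (.red [.f 1210 1 3, .f 1337 3 5, .f 1345 5 1, .f 1345 1 3] 185
  136 [1, 3, 1, 1] [(168, 169, [4]), (185, 136, [1, 3, 1, 1])]) .no) .no (.use 647) .no (.red [.f
  1210 1 3, .f 1210 3 1, .t 1217 3 1] 169 136 [1, 3, 1] [(169, 136, [1, 3, 1])]) .no

def c22t651 : Tr4 :=
  .br 1331 (.red [.f 1331 1 3, .t 1338 2 4] 167 136 [4, 1, 1] [(167, 136, [4, 1, 1]), (183, 136,
  [4, 1, 1, 1])]) .no .no (.red [.t 1322 2 3, .f 1193 3 5, .t 1337 4 2] 167 136 [4, 1, 1] [(166,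
  165, [3]), (167, 136, [4, 1, 1])]) .no (.red [.f 1202 5 1, .f 1202 1 3, .t 1209 2 4] 151 136 [4,
  1] [(151, 136, [4, 1]), (167, 136, [4, 1, 1])])

def c22t652 : Tr4 :=
  .br 1331 (.br 1330 (.hor [.f 1330 1 5] []) .no .no .no .no .no) .no .no (.red [.t 1322 2 3, .f
  1193 3 5, .t 1337 4 2] 167 136 [4, 1, 1] [(166, 165, [3]), (167, 136, [4, 1, 1])]) .no (.red [.f
  1202 5 1, .f 1202 1 3, .t 1209 2 4] 151 136 [4, 1] [(151, 136, [4, 1]), (167, 136, [4, 1, 1])])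

def c22t653 : Tr4 :=
  .br 1339 (.br 1336 (.br 1337 (.hor [.f 1336 1 5] []) .no .no (.use 651) .no .no) .no (.use 649)
  (.br 1337 (.con 136 [4, 1, 1, 1]) .no .no (.use 651) .no .no) (.hor [.t 1216 4 1, .t 1096 4 1,
  .f 1217 3 5] [(153, 136, [1, 3]), (168, 136, [1, 1])]) .no) .no (.br 1336 (.br 1337 (.hor [.f
  1336 1 5] []) .no .no (.use 652) .no .no) .no (.use 649) (.br 1337 (.con 136 [4, 1, 1, 1]) .no
  .no (.use 652) .no .no) (.hor [.t 1216 4 1, .t 1096 4 1, .f 1217 3 5] [(153, 136, [1, 3]), (168,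
  136, [1, 1])]) .no) (.red [.t 1338 2 4, .t 1209 2 4, .f 1072 3 5] 151 136 [4, 1] [(151, 136, [4,
  1]), (167, 136, [4, 1, 1])]) .no .no

def c22t654 : Tr4 :=
  .br 1194 (.use 653) .no .no (.red [.f 1058 3 1, .t 1066 1 3, .f 1193 3 5] 150 136 [4, 4, 1]
  [(149, 136, [4, 4, 1, 4]), (150, 136, [4, 4, 1])]) (.red [.f 1194 5 3, .f 1067 3 1] 150 136 [4,
  4, 1] [(150, 136, [4, 4, 1])]) .no

def c22t655 : Tr4 :=
  .br 939 .no .no .no (.br 1058 .no (.red [.f 930 1 3, .f 930 3 5] 133 136 [4, 4, 4] [(133, 136,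
  [4, 4, 4])]) .no (.br 1064 (.br 1059 (.con 136 [4, 4, 1, 1, 4, 2, 2]) .no .no (.hor [.f 1050 3
  5] []) .no .no) .no .no (.hor [.f 1056 3 5] []) .no .no) (.red [.t 1066 2 3, .t 946 4 1, .t 938
  1 4] 133 136 [4, 4, 4] [(133, 136, [4, 4, 4])]) .no) .no .no

def c22t656 : Tr4 :=
  .br 1059 (.con 136 [4, 1, 4, 1, 4, 2, 3, 1, 4, 2, 3, 1, 4, 2, 3, 1, 4, 2]) .no .no (.br 1187
  (.con 136 [4, 1, 4, 1, 4, 2, 3, 1, 4, 2, 3, 1, 4, 2, 3, 1, 4, 2]) .no (.hor [.f 1186 3 5] [])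
  (.con 136 [4, 1, 4, 1, 4, 2, 3, 1, 4, 2, 3, 1, 4, 2, 3, 1, 4, 2]) .no .no) .no .no

def c22t657 : Tr4 :=
  .br 1195 (.red [.t 1322 3 2, .f 1202 1 3] 167 136 [4, 1, 1] [(166, 136, [4, 1, 1, 4]), (167,
  136, [4, 1, 1])]) .no .no (.hor [.f 1186 3 5] []) .no .no

def c22t658 : Tr4 :=
  .br 1330 (.hor [.f 1330 1 5] []) .no .no (.use 657) .no .no

def c22t659 : Tr4 :=
  .br 1065 .no (.hor [.f 937 1 5] []) .no (.br 937 .no (.br 944 .no (.use 644) .no (.br 1331 (.use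
  658) .no .no (.use 655) .no (.red [.f 1202 5 1, .f 1202 1 3, .t 1209 2 4] 151 136 [4, 1] [(151,
  136, [4, 1]), (167, 136, [4, 1, 1])])) .no .no) .no (.red [.f 929 3 1, .f 937 1 5] 133 136 [4,
  4, 4] [(133, 136, [4, 4, 4])]) .no (.use 645)) .no (.br 1330 (.br 1200 (.br 1192 (.red [.f 1192
  1 3, .f 1192 3 5, .t 1080 4 1] 151 136 [4, 1] [(151, 136, [4, 1]), (166, 150, [1])]) .no .no
  (.br 939 .no .no .no (.br 1058 .no (.red [.f 930 1 3, .f 930 3 5] 133 136 [4, 4, 4] [(133, 136,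
  [4, 4, 4])]) .no (.use 646) (.red [.t 1066 2 3, .t 946 4 1, .t 938 1 4] 133 136 [4, 4, 4] [(133,
  136, [4, 4, 4])]) (.br 1331 (.use 658) .no .no (.use 656) .no .no)) .no .no) .no .no) .no .no
  (.use 63) .no .no) .no .no (.use 657) (.red [.f 1202 5 1, .f 1202 1 3, .t 1209 2 4] 151 136 [4,
  1] [(151, 136, [4, 1]), (167, 136, [4, 1, 1])]) .no)

def c22t660 : Tr4 :=
  .br 946 .no (.hor [.f 818 1 3, .f 945 3 5] [(119, 121, [4, 4])]) .no (.br 1217 (.br 1202 (.red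
  [.f 1202 1 3, .t 1209 2 4] 151 136 [4, 1] [(151, 136, [4, 1]), (167, 136, [4, 1, 1])]) .no .no
  (.hor [.f 1193 3 5] []) (.br 1065 .no (.red [.t 937 1 3, .f 1065 3 1] 150 136 [4, 1, 4] [(134,
  136, [4, 4]), (150, 136, [4, 1, 4])]) .no (.br 1066 (.red [.t 1193 3 2, .f 938 3 1] 150 136 [4,
  1, 4] [(134, 136, [4, 4]), (150, 136, [4, 1, 4])]) .no .no (.hor [.f 1057 3 5] []) (.use 375)
  .no) (.red [.f 1065 5 3, .f 1065 3 1, .f 1073 1 3] 151 136 [4, 1] [(150, 136, [4, 1, 4]), (151,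
  136, [4, 1])]) (.br 1066 (.red [.t 1193 3 2, .f 938 3 1] 150 136 [4, 1, 4] [(134, 136, [4, 4]),
  (150, 136, [4, 1, 4])]) .no .no (.br 1075 .no (.use 376) .no (.use 654) .no .no) (.use 375)
  .no)) .no) .no .no .no .no .no) (.br 827 .no (.br 1217 (.br 832 .no (.use 107) (.br 1202 (.red
  [.f 1202 1 3, .t 1209 2 4] 151 136 [4, 1] [(151, 136, [4, 1]), (167, 136, [4, 1, 1])]) .no .no
  (.hor [.f 1193 3 5] []) (.br 819 .no (.hor [.f 691 1 3, .t 826 1 4, .f 945 3 5] [(103, 121, [2,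
  4, 4]), (119, 121, [4, 4])]) .no (.br 1194 (.use 653) (.red [.t 1193 3 2, .f 1073 1 3, .f 945 3
  1] 151 136 [4, 1] [(135, 136, [4]), (150, 136, [4, 1, 4]), (151, 136, [4, 1])]) .no (.br 1066
  .no (.br 1339 (.br 1075 .no .no .no (.br 1065 .no (.hor [.f 937 1 5] []) .no (.br 937 .no (.br
  944 .no (.use 644) .no (.br 1331 (.red [.f 1331 1 3, .t 1338 2 4] 167 136 [4, 1, 1] [(167, 136,
  [4, 1, 1]), (183, 136, [4, 1, 1, 1])]) .no .no (.use 655) .no (.red [.f 1202 5 1, .f 1202 1 3,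
  .t 1209 2 4] 151 136 [4, 1] [(151, 136, [4, 1]), (167, 136, [4, 1, 1])])) .no .no) .no (.red [.f
  929 3 1, .f 937 1 5] 133 136 [4, 4, 4] [(133, 136, [4, 4, 4])]) .no (.use 645)) .no (.br 1331
  (.red [.f 1331 1 3, .t 1338 2 4] 167 136 [4, 1, 1] [(167, 136, [4, 1, 1]), (183, 136, [4, 1, 1,
  1])]) .no .no (.br 1200 (.br 1192 (.red [.f 1192 1 3, .f 1192 3 5, .t 1080 4 1] 151 136 [4, 1]
  [(151, 136, [4, 1]), (166, 150, [1])]) .no .no (.br 939 .no .no .no (.br 1058 .no (.red [.f 930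
  1 3, .f 930 3 5] 133 136 [4, 4, 4] [(133, 136, [4, 4, 4])]) .no (.use 646) (.red [.t 1066 2 3,
  .t 946 4 1, .t 938 1 4] 133 136 [4, 4, 4] [(133, 136, [4, 4, 4])]) (.use 656)) .no .no) .no .no)
  .no .no (.use 63) .no .no) .no (.red [.f 1202 5 1, .f 1202 1 3, .t 1209 2 4] 151 136 [4, 1]
  [(151, 136, [4, 1]), (167, 136, [4, 1, 1])]))) .no .no) .no (.br 1075 .no .no .no (.br 1336 (.br
  1337 (.hor [.f 1336 1 5] []) .no .no (.use 659) .no .no) .no (.use 649) (.br 1337 (.con 136 [4,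
  1, 1, 1]) .no .no (.use 659) .no .no) (.hor [.t 1216 4 1, .t 1096 4 1, .f 1217 3 5] [(153, 136,
  [3, 1]), (168, 136, [1, 1])]) .no) .no .no) (.red [.t 1338 2 4, .t 1209 2 4, .f 1072 3 5] 151
  136 [4, 1] [(151, 136, [4, 1]), (167, 136, [4, 1, 1])]) .no .no) .no (.br 1075 .no .no .no (.use
  654) .no .no) (.con 136 [4, 1, 4, 2, 3, 3]) (.red [.f 1065 5 3, .f 1065 3 1, .f 1073 1 3] 151
  136 [4, 1] [(150, 136, [4, 1, 4]), (151, 136, [4, 1])])) (.red [.f 1194 5 3, .f 1193 3 5, .f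
  1073 5 1, .f 1073 1 3] 151 136 [4, 1] [(151, 136, [4, 1])]) .no) .no (.red [.f 818 5 1, .f 818 1
  3, .f 945 3 5, .t 1089 2 4, .f 954 1 5] 136 136 [] [(119, 120, [4]), (136, 136, [])])) .no)
  (.hor [.f 824 3 5] []) .no .no) .no .no .no .no .no) .no (.hor [.t 826 1 4, .f 945 3 5] [(119,
  121, [4, 4])]) .no .no) .no

def c22t661 : Tr4 :=
  .br 1218 (.br 1217 (.hor [.f 1217 1 5] []) .no (.br 1097 .no .no (.br 1201 (.use 642) .no .no
  (.br 1202 (.red [.f 1202 1 3, .t 1209 2 4] 151 136 [4, 1] [(151, 136, [4, 1]), (167, 136, [4, 1,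
  1])]) .no .no (.hor [.f 1193 3 5] []) (.br 1098 (.br 1339 (.br 1345 (.br 1344 (.hor [.f 1344 1
  5] []) .no (.br 1347 (.con 136 [3, 1, 1, 1]) .no (.use 648) .no .no .no) (.use 649) .no .no) .no
  (.red [.f 1210 1 3, .f 1217 3 1] 169 136 [3, 1, 1] [(168, 167, [3]), (169, 136, [3, 1, 1])])
  (.br 1336 (.br 1344 (.red [.f 1336 1 3, .f 1208 3 1] 184 136 [1, 1, 1] [(168, 136, [1, 1]),
  (184, 136, [1, 1, 1])]) .no (.br 1347 (.con 136 [3, 1, 1, 1]) .no (.br 1472 (.use 650) .no (.red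
  [.f 1344 3 1, .f 1336 1 3, .f 1208 3 1] 185 136 [3, 1, 1, 1] [(168, 136, [1, 1]), (184, 136, [1,
  1, 1]), (185, 136, [3, 1, 1, 1])]) .no (.red [.t 1336 1 3] 184 136 [1, 1, 1] [(184, 136, [1, 1,
  1])]) .no) .no .no .no) .no .no .no) .no (.use 649) (.con 136 [4, 1, 1, 1]) .no .no) .no (.use
  643)) .no (.br 1200 (.br 1336 (.br 1337 (.hor [.f 1336 1 5] []) .no (.con 136 [1, 1, 1]) (.br
  1344 (.red [.f 1336 1 3, .f 1208 3 1] 184 136 [1, 1, 1] [(168, 136, [1, 1]), (184, 136, [1, 1,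
  1])]) .no (.br 1345 (.con 136 [3, 1, 1, 1]) .no (.hor [.f 1344 3 5] []) .no .no .no) .no (.use
  643) .no) .no .no) .no (.red [.f 1208 3 1, .f 1200 1 3, .f 1072 3 1, .f 1080 1 5] 151 136 [4, 1]
  [(151, 136, [4, 1]), (167, 136, [4, 1, 1]), (168, 136, [1, 1])]) .no (.br 1345 (.br 1344 (.hor
  [.f 1344 1 5] []) .no (.con 136 [3, 1, 1, 1]) .no .no .no) .no (.red [.f 1217 3 1, .t 1216 4 1]
  169 136 [3, 1, 1] [(168, 136, [1, 1]), (169, 136, [3, 1, 1])]) .no .no (.use 643)) .no) .no .no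
  (.use 63) .no .no) (.red [.t 1338 2 4, .t 1209 2 4, .f 1072 3 5] 151 136 [4, 1] [(151, 136, [4,
  1]), (167, 136, [4, 1, 1])]) .no .no) .no (.hor [.f 1097 3 5] []) .no .no .no) .no) (.red [.f
  1073 5 1, .f 1073 1 3] 151 136 [4, 1] [(151, 136, [4, 1])]) (.red [.t 1080 4 1] 151 136 [4, 1]
  [(151, 136, [4, 1])])) .no (.use 195) .no) .no .no .no) .no (.br 1097 (.br 1201 (.use 642) .no
  .no (.use 660) (.red [.f 1073 5 1, .f 1073 1 3] 151 136 [4, 1] [(151, 136, [4, 1])]) (.red [.t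
  1080 4 1] 151 136 [4, 1] [(151, 136, [4, 1])])) .no (.use 433) .no (.use 195) .no) .no .no (.red
  [.t 1081 1 3, .f 1073 5 3, .f 945 3 1, .f 953 1 3] 136 136 [] [(135, 136, [4]), (136, 136, []),
  (152, 136, [1])])

def c22t662 : Tr4 :=
  .br 1202 (.hor [.f 1201 1 5] []) .no .no (.use 641) (.use 452) .no

def c22t663 : Tr4 :=
  .br 1466 (.use 471) .no .no (.br 1329 (.red [.t 1457 2 3, .f 1338 1 5] 183 136 [4, 1, 1, 1]
  [(183, 136, [4, 1, 1, 1])]) .no .no (.red [.f 1193 3 1, .f 1201 1 5, .f 1329 5 3, .f 1330 3 1]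
  183 136 [4, 1, 1, 1] [(166, 167, [4]), (183, 136, [4, 1, 1, 1])]) .no (.br 1192 (.con 136 [4, 1,
  1, 4, 2, 3]) (.con 136 [4, 1, 1, 4, 2, 3]) (.use 51) (.con 136 [4, 1, 1, 4, 2, 3]) .no .no)) .no
  (.red [.f 1337 5 1, .f 1336 1 5, .t 1216 4 1] 168 136 [1, 1] [(168, 136, [1, 1])])

def c22t664 : Tr4 :=
  .br 1203 (.hor [.f 1202 1 5] []) .no .no (.red [.f 1067 3 1] 150 136 [4, 4, 1] [(150, 136, [4,
  4, 1])]) .no .no

def c22t665 : Tr4 :=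
  .br 946 .no (.hor [.f 818 1 3, .f 945 3 5] [(119, 136, [2, 4])]) .no (.br 1346 (.br 1217 (.br
  1338 (.red [.f 1338 1 3, .t 1346 4 2] 168 136 [1, 1] [(168, 136, [1, 1]), (184, 136, [1, 1,
  1])]) .no .no (.use 459) (.red [.f 1210 5 1, .f 1211 1 3] 168 136 [1, 1] [(168, 136, [1, 1])])
  (.br 1201 (.use 662) .no .no (.br 1202 (.br 1339 (.br 1336 (.br 1066 (.red [.t 1193 3 2, .f 1073
  1 3, .f 945 3 1] 151 136 [4, 1] [(135, 136, [4]), (150, 136, [4, 4, 1]), (151, 136, [4, 1])])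
  .no .no (.br 1065 .no (.br 1075 (.use 663) (.red [.t 937 1 3] 134 136 [4, 4] [(134, 136, [4,
  4])]) .no (.red [.t 937 1 3, .f 1065 3 1] 150 136 [4, 4, 1] [(134, 136, [4, 4]), (150, 136, [4,
  4, 1])]) .no .no) .no (.hor [.f 1057 3 5] []) .no (.br 1075 (.use 663) (.use 376) .no (.br 1194
  (.br 1203 (.hor [.f 1202 1 5] []) .no .no (.red [.f 1194 1 3, .f 1193 3 5, .f 1073 5 1, .f 1073
  1 3] 151 136 [4, 1] [(151, 136, [4, 1]), (166, 150, [1])]) .no .no) .no .no (.red [.f 1058 3 1]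
  149 136 [4, 4, 4, 1] [(149, 136, [4, 4, 4, 1])]) (.br 1331 (.red [.f 1331 1 3] 183 136 [4, 1, 1,
  1] [(183, 136, [4, 1, 1, 1])]) (.hor [.f 1202 1 5] []) .no (.red [.t 1330 2 4, .f 1193 3 5, .f
  1073 5 1, .f 1073 1 3] 151 136 [4, 1] [(151, 136, [4, 1]), (166, 167, [4])]) .no .no) .no) .no
  .no)) (.br 1075 (.use 663) (.red [.f 947 1 3, .f 947 3 1, .t 946 4 1] 134 136 [4, 4] [(134, 136,
  [4, 4])]) .no .no .no .no) (.red [.f 1065 5 3, .f 1065 3 1, .f 1073 1 3] 151 136 [4, 1] [(150,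
  136, [4, 4, 1]), (151, 136, [4, 1])])) .no (.red [.f 1208 3 1, .f 1216 1 5] 168 136 [1, 1]
  [(168, 136, [1, 1])]) (.con 136 [4, 1, 1, 1]) .no .no) .no .no (.red [.t 1330 2 3, .t 1209 2 4]
  151 136 [4, 1] [(151, 136, [4, 1]), (167, 136, [4, 1, 1])]) .no .no) .no .no (.hor [.f 1193 3 5]
  []) (.red [.f 1202 5 3, .t 1209 2 4] 151 136 [4, 1] [(151, 136, [4, 1])]) .no) (.red [.f 1073 5
  1, .f 1073 1 3] 151 136 [4, 1] [(151, 136, [4, 1])]) (.red [.t 1080 4 1] 151 136 [4, 1] [(151,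
  136, [4, 1])]))) .no .no .no .no .no) .no (.hor [.f 1218 3 1, .f 1218 1 5] [(169, 136, [1, 3,
  1])]) (.red [.t 1346 4 2] 168 136 [1, 1] [(168, 136, [1, 1])]) .no (.con 136 [1, 1, 3, 2, 4,
  2])) (.br 1346 (.br 1217 (.br 1338 (.red [.f 1338 1 3, .t 1346 4 2] 168 136 [1, 1] [(168, 136,
  [1, 1]), (184, 136, [1, 1, 1])]) .no .no (.use 459) (.red [.f 1210 5 1, .f 1211 1 3] 168 136 [1,
  1] [(168, 136, [1, 1])]) (.br 1201 (.use 662) .no .no (.br 1202 (.br 1339 (.br 1336 (.br 1075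
  (.use 663) .no .no (.use 664) .no .no) .no (.red [.f 1208 3 1, .f 1216 1 5] 168 136 [1, 1]
  [(168, 136, [1, 1])]) (.con 136 [4, 1, 1, 1]) .no .no) .no .no (.red [.t 1330 2 3, .t 1209 2 4]
  151 136 [4, 1] [(151, 136, [4, 1]), (167, 136, [4, 1, 1])]) .no .no) .no .no (.hor [.f 1193 3 5]
  []) (.red [.f 1202 5 3, .t 1209 2 4] 151 136 [4, 1] [(151, 136, [4, 1])]) .no) (.red [.f 1073 5
  1, .f 1073 1 3] 151 136 [4, 1] [(151, 136, [4, 1])]) (.red [.t 1080 4 1] 151 136 [4, 1] [(151,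
  136, [4, 1])]))) .no .no .no .no .no) .no (.hor [.f 1218 3 1, .f 1218 1 5] [(169, 136, [1, 3,
  1])]) (.red [.t 1346 4 2] 168 136 [1, 1] [(168, 136, [1, 1])]) .no (.con 136 [1, 1, 3, 2, 4,
  2])) .no

def c22t666 : Tr4 :=
  .br 1202 (.hor [.f 1201 1 5] []) .no .no (.use 641) (.use 453) .no

def c22t667 : Tr4 :=
  .br 1337 (.use 599) .no .no (.br 1336 (.br 1338 (.br 1339 (.hor [.f 1338 1 5] []) .no (.con 136
  [1, 1, 1]) (.red [.t 1330 2 3, .t 1209 2 4] 151 136 [4, 1] [(151, 136, [4, 1]), (167, 136, [4,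
  1, 1])]) .no .no) .no (.red [.f 1210 5 3, .f 1210 3 1] 168 136 [1, 1] [(168, 136, [1, 1])]) .no
  (.red [.f 1210 5 3, .f 1210 3 5, .f 1210 5 1, .f 1202 1 3] 167 136 [4, 1, 1] [(167, 136, [4, 1,
  1])]) .no) .no (.red [.f 1208 3 1, .f 1216 1 5] 168 136 [1, 1] [(168, 136, [1, 1])]) (.hor [.f
  1328 3 5] []) .no .no) (.red [.f 1210 5 3, .t 1217 1 4] 168 136 [1, 1] [(168, 136, [1, 1])])
  (.red [.t 1216 4 1] 168 136 [1, 1] [(168, 136, [1, 1])])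

def c22l21 : List Tr4 :=
  [c22t645, c22t646, c22t647, c22t648, c22t649, c22t650, c22t651, c22t652, c22t653, c22t654,
  c22t655, c22t656, c22t657, c22t658, c22t659, c22t660, c22t661, c22t662, c22t663, c22t664,
  c22t665, c22t666, c22t667]

theorem c22k21 : chkLF ⟨4, 0, 0, true, -8⟩ false 2 c22N 645 c22l21 = true := by decide +kernel

def c22t668 : Tr4 :=
  .br 1466 (.hor [.f 1465 1 5] []) .no .no (.hor [.t 1457 2 3, .f 1338 1 5] [(183, 136, [1, 4, 1,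
  1])]) .no .no

def c22t669 : Tr4 :=
  .br 1338 (.hor [.f 1338 1 5] []) .no (.red [.f 1210 5 3, .f 1210 3 1] 168 136 [1, 1] [(168, 136,
  [1, 1])]) .no .no (.br 1336 (.br 1344 (.red [.f 1336 1 3, .f 1208 3 1] 168 136 [1, 1] [(168,
  136, [1, 1]), (184, 136, [1, 1, 1])]) .no (.br 1345 (.use 604) .no (.hor [.f 1344 3 5] []) .no
  (.red [.f 1210 5 3, .f 1337 5 3, .f 1210 3 1] 168 136 [1, 1] [(168, 136, [1, 1])]) .no) .no (.br
  1200 (.br 1329 (.br 1465 (.br 1466 (.hor [.f 1465 1 5] []) .no (.con 136 [1, 1, 1, 1]) (.red [.t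
  1457 2 3, .f 1338 1 5] 183 136 [4, 1, 1, 1] [(183, 136, [4, 1, 1, 1])]) .no .no) .no (.red [.t
  1464 2 3, .f 1208 3 1] 168 136 [1, 1] [(168, 136, [1, 1]), (184, 136, [1, 1, 1])]) .no (.red [.f
  1337 5 1, .f 1329 1 3] 183 136 [4, 1, 1, 1] [(183, 136, [4, 1, 1, 1])]) .no) .no .no (.hor [.f
  1193 3 1, .f 1200 1 5] [(166, 167, [4])]) .no .no) .no .no (.use 51) .no .no) .no) .no (.red [.f
  1208 3 1] 168 136 [1, 1] [(168, 136, [1, 1])]) (.con 136 [4, 1, 1, 1]) .no .no)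

def c22t670 : Tr4 :=
  .br 1338 (.br 1344 (.con 136 [1, 1, 1]) .no (.con 136 [1, 1, 1]) (.red [.f 1208 3 1] 168 136 [1,
  1] [(168, 136, [1, 1])]) (.con 136 [1, 1, 1]) .no) .no (.red [.f 1210 5 3, .f 1210 3 1] 168 136
  [1, 1] [(168, 136, [1, 1])]) .no .no (.br 1344 (.con 136 [1, 1, 1]) .no (.con 136 [1, 1, 1])
  (.red [.f 1208 3 1] 168 136 [1, 1] [(168, 136, [1, 1])]) (.con 136 [1, 1, 1]) .no)

def c22t671 : Tr4 :=
  .br 1339 (.use 669) .no (.use 670) (.red [.t 1330 2 3, .t 1209 2 4] 151 136 [4, 1] [(151, 136,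
  [4, 1]), (167, 136, [4, 1, 1])]) .no (.red [.f 1210 5 3, .f 1210 3 5, .f 1210 5 1, .f 1202 1 3]
  167 136 [4, 1, 1] [(167, 136, [4, 1, 1])])

def c22t672 : Tr4 :=
  .br 1210 (.br 1211 (.hor [.f 1210 1 5] []) .no (.br 953 .no (.hor [.f 825 1 5] []) .no (.br 825
  .no (.use 312) (.use 661) (.hor [.f 817 3 1, .f 825 1 5] [(119, 121, [4, 4])]) .no (.use 457))
  .no .no) (.con 136 [4, 1, 1]) .no .no) .no (.use 503) (.red [.t 1209 2 4, .f 1072 3 5] 151 136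
  [4, 1] [(151, 136, [4, 1])]) (.br 953 .no (.hor [.f 825 1 5] []) .no (.br 1218 (.use 598) .no
  (.br 1097 (.br 1219 (.use 665) .no (.hor [.f 1218 3 5] []) .no .no .no) .no (.use 433) .no (.use
  195) .no) .no (.br 946 .no (.hor [.f 818 1 3, .f 945 3 5] [(119, 121, [4, 4])]) .no (.br 1201
  (.use 666) .no .no (.br 1202 (.br 1217 (.use 667) .no (.br 1066 (.red [.t 1193 3 2, .f 1073 1 3,
  .f 945 3 1] 151 136 [4, 1] [(135, 136, [4]), (150, 136, [4, 4, 1]), (151, 136, [4, 1])]) .no .no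
  (.br 1065 .no (.br 1075 (.use 671) (.red [.t 937 1 3] 134 136 [4, 4] [(134, 136, [4, 4])]) .no
  (.use 664) .no .no) .no (.hor [.f 1057 3 5] []) .no (.br 1075 (.use 671) (.use 376) .no (.use
  664) .no .no)) (.br 1075 (.use 671) (.red [.f 947 1 3, .f 947 3 1, .t 946 4 1] 134 136 [4, 4]
  [(134, 136, [4, 4])]) .no .no .no .no) (.red [.f 1065 5 3, .f 1065 3 1, .f 1073 1 3] 151 136 [4,
  1] [(150, 136, [4, 4, 1]), (151, 136, [4, 1])])) .no .no .no) .no .no (.hor [.f 1193 3 5] [])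
  (.red [.f 1202 5 3, .t 1209 2 4] 151 136 [4, 1] [(151, 136, [4, 1])]) .no) (.red [.f 1073 5 1,
  .f 1073 1 3] 151 136 [4, 1] [(151, 136, [4, 1])]) (.red [.t 1080 4 1] 151 136 [4, 1] [(151, 136,
  [4, 1])])) (.br 1201 (.use 666) .no .no (.br 1202 (.br 1217 (.use 667) .no (.br 1339 (.br 1075
  (.use 669) .no .no (.use 664) .no .no) .no (.use 670) (.red [.t 1330 2 3, .t 1209 2 4] 151 136
  [4, 1] [(151, 136, [4, 1]), (167, 136, [4, 1, 1])]) .no (.red [.f 1210 5 3, .f 1210 3 5, .f 1210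
  5 1, .f 1202 1 3] 167 136 [4, 1, 1] [(167, 136, [4, 1, 1])])) .no .no .no) .no .no (.hor [.f
  1193 3 5] []) (.red [.f 1202 5 3, .t 1209 2 4] 151 136 [4, 1] [(151, 136, [4, 1])]) .no) (.red
  [.f 1073 5 1, .f 1073 1 3] 151 136 [4, 1] [(151, 136, [4, 1])]) (.red [.t 1080 4 1] 151 136 [4,
  1] [(151, 136, [4, 1])])) .no) (.red [.t 1081 1 3, .f 1073 5 3, .f 945 3 1, .f 953 1 3] 136 136
  [] [(135, 136, [4]), (136, 136, []), (152, 136, [1])])) .no .no) .no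

def c22t673 : Tr4 :=
  .br 841 .no (.con 136 [2, 3, 2, 3]) (.hor [.f 841 3 5] []) .no .no .no

def c22t674 : Tr4 :=
  .br 977 (.red [.f 969 1 3, .f 968 3 5] 138 136 [3, 3] [(138, 136, [3, 3])]) (.con 136 [2, 3, 3,
  3]) (.hor [.f 977 3 5] []) .no .no .no

def c22t675 : Tr4 :=
  .br 978 .no (.red [.f 961 1 3, .f 961 3 5, .f 841 5 1, .f 842 1 3] 122 136 [2, 3, 3] [(122, 136,
  [2, 3, 3]), (137, 121, [1])]) (.use 674) .no .no (.red [.t 1097 2 3, .f 968 3 5] 138 136 [3, 3]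
  [(138, 136, [3, 3])])

def c22t676 : Tr4 :=
  .br 968 .no .no (.br 1098 .no .no (.use 675) .no .no .no) .no .no .no

def c22t677 : Tr4 :=
  .br 969 .no (.use 304) (.use 206) .no .no (.red [.t 961 1 3, .t 825 1 3, .f 952 3 5, .f 960 5 3,
  .f 832 3 1] 121 136 [2, 3] [(120, 104, [1]), (121, 136, [2, 3]), (137, 121, [1])])

def c22t678 : Tr4 :=
  .br 1074 (.use 98) (.br 953 .no (.con 136 [2, 4, 1, 3]) .no (.con 136 [2, 4, 1, 3]) (.red [.t
  1089 2 4, .f 952 3 5] 136 136 [] [(136, 136, [])]) .no) .no (.hor [.f 1065 3 5] []) (.br 954 .no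
  .no .no (.use 278) .no (.red [.t 1089 2 4, .f 952 3 5] 136 136 [] [(136, 136, [])])) .no

def c22t679 : Tr4 :=
  .br 938 .no (.hor [.f 809 1 5] []) .no (.con 136 [1, 1, 4, 2, 4, 2, 2, 4]) (.con 136 [1, 1, 4,
  2, 4, 2, 4]) .no

def c22t680 : Tr4 :=
  .br 1339 (.con 136 [4, 1, 1, 1]) .no .no (.red [.t 1065 1 3, .f 1074 1 5, .f 1202 5 3, .f 1203 3
  1] 167 136 [4, 1, 1] [(150, 134, [1]), (167, 136, [4, 1, 1])]) .no .no

def c22t681 : Tr4 :=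
  .br 1201 (.br 1202 (.hor [.f 1201 1 5] []) .no .no (.con 136 [4, 1, 1, 4]) .no .no) .no .no .no
  (.use 680) (.red [.t 1080 4 1] 151 136 [4, 1] [(151, 136, [4, 1])])

def c22t682 : Tr4 :=
  .br 1065 (.use 681) (.red [.f 937 1 3] 134 136 [4, 4] [(134, 136, [4, 4])]) .no (.use 409) .no
  (.use 410)

def c22t683 : Tr4 :=
  .br 697 .no (.hor [.f 569 1 5] []) .no (.use 394) .no (.con 136 [2, 4, 2, 3])

def c22t684 : Tr4 :=
  .br 944 .no (.use 683) .no .no .no .no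

def c22t685 : Tr4 :=
  .br 937 .no (.br 936 (.use 392) (.hor [.f 808 1 5] []) (.use 404) (.use 393) .no .no) .no (.red
  [.f 929 3 1, .f 937 1 3] 134 136 [4, 4] [(133, 136, [4, 4, 4]), (134, 136, [4, 4])]) (.red [.t
  1073 2 4] 134 136 [4, 4] [(134, 136, [4, 4])]) (.use 684)

def c22t686 : Tr4 :=
  .br 944 .no (.br 936 .no (.red [.f 808 1 3] 118 136 [2, 4, 4] [(118, 136, [2, 4, 4])]) .no (.use
  395) (.use 683) .no) .no (.red [.t 944 4 1] 134 136 [4, 4] [(134, 136, [4, 4])]) .no .no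

def c22t687 : Tr4 :=
  .br 1202 (.hor [.f 1201 1 5] []) .no .no (.use 641) .no .no

def c22t688 : Tr4 :=
  .br 947 .no .no .no (.red [.t 938 2 3] 118 136 [2, 4, 4] [(118, 136, [2, 4, 4])]) .no .no

def c22t689 : Tr4 :=
  .br 818 .no .no .no .no (.use 688) (.red [.t 953 2 4, .f 816 3 5] 119 136 [2, 4] [(119, 136, [2,
  4])])

def c22t690 : Tr4 :=
  .br 944 .no (.red [.f 808 1 3] 118 136 [2, 4, 4] [(118, 136, [2, 4, 4])]) .no .no .no .no

def c22t691 : Tr4 :=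
  .br 1065 (.br 1201 (.use 687) .no .no .no (.br 937 .no (.br 936 (.use 679) (.hor [.f 808 1 5]
  []) (.use 406) (.use 393) .no .no) .no (.br 938 .no (.br 697 .no (.br 696 (.con 136 [2, 2, 2,
  4]) (.hor [.f 568 1 5] []) (.br 816 (.con 136 [2, 4, 2, 2]) (.con 136 [2, 4, 2, 2]) (.use 689)
  (.con 136 [2, 4, 2, 2]) (.con 136 [2, 4, 2, 2]) .no) (.con 136 [2, 2, 2, 4]) .no .no) .no (.hor
  [.f 689 3 5] []) .no (.br 816 (.con 136 [2, 4, 2, 2]) (.con 136 [2, 4, 2, 2]) (.use 689) (.con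
  136 [2, 4, 2, 2]) (.con 136 [2, 4, 2, 2]) .no)) .no (.hor [.f 929 3 5] []) (.br 936 (.con 136
  [4, 4, 4]) (.use 690) (.br 819 (.br 818 .no .no .no (.br 824 .no (.br 697 .no (.con 136 [2, 2,
  2, 4]) .no (.use 231) .no .no) .no (.dom 119 136 [2, 4]) .no .no) .no (.red [.t 953 2 4, .f 818
  1 5] 119 136 [2, 4] [(119, 136, [2, 4])])) (.con 136 [2, 4, 4, 1]) .no (.con 136 [2, 4, 4, 1])
  .no (.con 136 [2, 4, 4, 1])) (.hor [.f 928 3 5] []) .no .no) .no) (.red [.t 1073 2 4] 134 136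
  [4, 4] [(134, 136, [4, 4])]) (.use 408)) (.red [.t 1080 4 1] 151 136 [4, 1] [(151, 136, [4,
  1])])) (.red [.f 937 1 3] 134 136 [4, 4] [(134, 136, [4, 4])]) .no (.use 409) .no (.use 410)

def c22t692 : Tr4 :=
  .br 697 .no (.hor [.f 569 1 5] []) .no (.br 818 .no (.br 824 .no (.br 1336 (.br 1339 (.br 1465
  (.br 816 (.br 936 (.br 939 (.br 1057 (.red [.f 1057 1 3] 149 136 [4, 4, 4, 1] [(149, 136, [4, 4,
  4, 1])]) .no .no (.br 1200 (.br 1329 (.use 668) .no .no (.br 819 (.br 809 .no (.con 136 [2, 4,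
  4, 2, 3]) (.br 1194 (.red [.t 1321 3 2, .f 1200 1 5, .t 1080 4 1] 151 136 [4, 1] [(151, 136, [4,
  1]), (166, 167, [4])]) .no .no (.br 1058 .no (.red [.t 1065 1 3, .t 929 3 1, .f 937 1 3] 134 136
  [4, 4] [(133, 136, [4, 4, 4]), (134, 136, [4, 4]), (150, 134, [1])]) .no (.hor [.f 1049 3 5] [])
  (.br 1056 (.con 136 [4, 4, 4, 4, 1]) (.red [.f 928 1 3, .f 928 3 5] 133 136 [4, 4, 4] [(133,
  136, [4, 4, 4])]) .no (.hor [.f 1048 3 5] []) .no .no) .no) (.red [.t 1074 4 1, .t 954 4 1, .f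
  945 1 5, .t 809 3 1, .f 817 1 3] 119 136 [2, 4] [(118, 136, [2, 4, 4]), (119, 136, [2, 4]),
  (135, 119, [1]), (150, 134, [1])]) .no) (.con 136 [2, 4, 4, 2, 3]) .no (.con 136 [2, 4, 4, 2,
  3])) (.con 136 [2, 4, 4]) .no (.con 136 [2, 4, 4]) .no .no) (.red [.f 1201 5 1, .f 1200 1 5, .t
  1080 4 1] 151 136 [4, 1] [(151, 136, [4, 1])]) .no) .no .no (.use 396) .no .no) (.red [.t 1065 1
  3, .f 1057 5 3, .f 929 3 1, .f 937 1 3] 134 136 [4, 4] [(133, 136, [4, 4, 4]), (134, 136, [4,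
  4]), (150, 134, [1])]) (.red [.t 936 1 4] 133 136 [4, 4, 4] [(133, 136, [4, 4, 4])])) (.con 136
  [4, 4, 4]) (.con 136 [2, 4, 4]) (.con 136 [4, 4, 4]) .no .no) (.use 690) .no (.hor [.f 928 3 5]
  []) .no .no) (.red [.f 688 1 3, .f 688 3 5] 103 136 [2, 2, 4] [(103, 136, [2, 2, 4])]) .no (.br
  819 (.br 809 .no (.con 136 [2, 4, 4, 2, 3]) (.hor [.f 808 3 5] []) (.con 136 [2, 4, 4, 2, 3])
  .no .no) (.hor [.f 690 1 5] []) .no (.use 400) .no .no) (.red [.t 696 1 4, .f 689 1 5] 103 136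
  [2, 2, 4] [(103, 136, [2, 2, 4])]) .no) .no (.red [.t 1473 4 2, .t 1346 4 2] 168 136 [1, 1]
  [(168, 136, [1, 1]), (184, 136, [1, 1, 1])]) (.use 564) (.red [.f 1337 5 1, .f 1336 1 5, .t 1216
  4 1] 168 136 [1, 1] [(168, 136, [1, 1])]) .no) .no .no (.red [.t 1065 1 3, .f 1074 1 5, .f 1202
  5 3, .f 1203 3 1] 167 136 [4, 1, 1] [(150, 134, [1]), (167, 136, [4, 1, 1])]) .no .no) .no .no
  (.use 680) .no .no) .no (.use 401) .no .no) .no .no (.use 688) (.red [.t 953 2 4] 119 136 [2, 4]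
  [(119, 136, [2, 4])])) .no (.br 816 (.con 136 [2, 4, 2, 3]) (.con 136 [2, 4, 2, 3]) (.br 818 .no
  (.use 401) .no .no (.use 688) (.red [.t 953 2 4, .f 816 3 5] 119 136 [2, 4] [(119, 136, [2,
  4])])) (.con 136 [2, 4, 2, 3]) (.con 136 [2, 4, 2, 3]) .no)

def c22t693 : Tr4 :=
  .br 819 (.br 824 .no (.br 697 .no (.hor [.f 569 1 5] []) .no (.br 816 .no (.red [.f 688 1 3, .f
  688 3 5] 103 136 [2, 2, 4] [(103, 136, [2, 2, 4])]) .no (.br 818 .no (.br 809 .no (.con 136 [2,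
  4, 4, 2, 3]) (.hor [.f 808 3 5] []) (.con 136 [2, 4, 4, 2, 3]) (.con 136 [2, 4, 4, 2, 3]) .no)
  .no (.use 229) .no (.red [.t 953 2 4, .f 818 1 5] 119 136 [2, 4] [(119, 136, [2, 4])])) (.red
  [.t 696 1 4] 103 136 [2, 2, 4] [(103, 136, [2, 2, 4])]) .no) .no .no) .no (.dom 119 136 [2, 4])
  .no .no) (.con 136 [2, 4, 4, 1]) .no (.con 136 [2, 4, 4, 1]) .no (.con 136 [2, 4, 4, 1])

def c22l22 : List Tr4 :=
  [c22t668, c22t669, c22t670, c22t671, c22t672, c22t673, c22t674, c22t675, c22t676, c22t677,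
  c22t678, c22t679, c22t680, c22t681, c22t682, c22t683, c22t684, c22t685, c22t686, c22t687,
  c22t688, c22t689, c22t690, c22t691, c22t692, c22t693]

theorem c22k22 : chkLF ⟨4, 0, 0, true, -8⟩ false 2 c22N 668 c22l22 = true := by decide +kernel

def c22t694 : Tr4 :=
  .br 1065 (.br 1201 (.use 687) .no .no .no (.br 937 .no (.use 411) .no (.br 938 .no (.br 816 .no
  (.con 136 [2, 4, 2]) (.br 698 .no (.br 699 .no (.hor [.f 570 1 5] []) (.br 697 .no (.hor [.f 569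
  1 5] []) .no (.br 818 .no (.br 1336 (.br 1339 (.br 1465 (.br 1200 (.br 1329 (.use 668) .no .no
  (.br 809 .no (.con 136 [2, 4, 4, 2, 3]) (.br 1194 (.red [.t 1321 3 2, .f 1200 1 5, .t 1080 4 1]
  151 136 [4, 1] [(151, 136, [4, 1]), (166, 167, [4])]) .no .no (.br 1064 (.hor [.f 1064 1 5] [])
  .no .no (.br 1058 .no (.red [.t 1065 1 3, .t 929 3 1, .f 937 1 3] 134 136 [4, 4] [(133, 136, [4,
  4, 4]), (134, 136, [4, 4]), (150, 134, [1])]) .no (.br 1057 (.red [.f 1057 1 3, .f 1056 3 5] 149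
  136 [4, 4, 1, 4] [(149, 136, [4, 4, 1, 4])]) .no .no (.hor [.f 1049 3 5] []) .no .no) (.con 136
  [2, 4, 4, 4, 1, 1]) (.red [.t 1193 2 4, .f 1056 3 5] 149 136 [4, 4, 1, 4] [(149, 136, [4, 4, 1,
  4])])) .no .no) (.red [.t 1074 4 1, .t 954 4 1, .f 945 1 5, .t 809 3 1, .f 817 1 3] 119 136 [2,
  4] [(118, 136, [2, 4, 4]), (119, 136, [2, 4]), (135, 119, [1]), (150, 134, [1])]) .no) (.con 136
  [2, 4, 4, 2, 3]) .no (.con 136 [2, 4, 4, 2, 3])) (.red [.f 1201 5 1, .f 1200 1 5, .t 1080 4 1]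
  151 136 [4, 1] [(151, 136, [4, 1])]) .no) .no .no (.use 397) .no .no) .no (.red [.t 1473 4 2, .t
  1346 4 2] 168 136 [1, 1] [(168, 136, [1, 1]), (184, 136, [1, 1, 1])]) (.use 564) (.red [.f 1337
  5 1, .f 1336 1 5, .t 1216 4 1] 168 136 [1, 1] [(168, 136, [1, 1])]) .no) .no .no (.red [.t 1065
  1 3, .f 1074 1 5, .f 1202 5 3, .f 1203 3 1] 167 136 [4, 1, 1] [(150, 134, [1]), (167, 136, [4,
  1, 1])]) .no .no) .no .no (.use 680) .no .no) .no .no .no (.red [.t 953 2 4, .f 816 3 5] 119 136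
  [2, 4] [(119, 136, [2, 4])])) .no (.con 136 [2, 2, 2])) (.red [.f 691 3 1] 103 136 [2, 2, 4]
  [(103, 136, [2, 2, 4])]) .no .no) (.red [.f 698 3 1, .f 705 1 5] 104 136 [2, 2] [(104, 136, [2,
  2])]) (.use 689) (.br 818 .no (.red [.t 818 2 3] 103 136 [2, 2, 4] [(103, 136, [2, 2, 4])]) .no
  .no .no (.red [.t 953 2 4, .f 816 3 5] 119 136 [2, 4] [(119, 136, [2, 4])])) (.red [.t 833 2 4]
  104 136 [2, 2] [(104, 136, [2, 2])])) (.con 136 [2, 4, 2]) (.con 136 [2, 4, 2]) .no) .no (.hor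
  [.f 929 3 5] []) (.con 136 [2, 4, 4, 1]) .no) (.red [.t 1073 2 4, .f 936 3 5] 134 136 [4, 4]
  [(134, 136, [4, 4])]) .no) (.red [.t 1080 4 1] 151 136 [4, 1] [(151, 136, [4, 1])])) (.red [.f
  937 1 3, .f 936 3 5] 134 136 [4, 4] [(134, 136, [4, 4])]) .no (.use 412) .no (.red [.t 944 4 1]
  134 136 [4, 4] [(134, 136, [4, 4])])

def c22t695 : Tr4 :=
  .br 1344 (.br 1336 (.red [.f 1336 1 3, .f 1208 3 1, .f 1216 1 5] 168 136 [1, 1] [(168, 136, [1,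
  1]), (184, 136, [1, 1, 1])]) .no .no (.br 827 .no (.br 706 .no (.br 698 .no (.red [.f 570 1 3,
  .f 698 3 1, .f 698 1 5] 104 136 [2, 2] [(88, 136, [2, 2, 2]), (104, 136, [2, 2])]) .no (.use
  682) .no (.red [.t 833 2 4, .f 698 1 5] 104 136 [2, 2] [(104, 136, [2, 2])])) (.br 698 .no (.br
  1065 (.use 681) (.red [.f 937 1 3] 134 136 [4, 4] [(134, 136, [4, 4])]) .no (.use 685) .no (.use
  686)) .no (.use 682) .no (.red [.t 833 2 4, .f 698 1 5] 104 136 [2, 2] [(104, 136, [2, 2])]))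
  (.red [.f 698 3 1, .f 698 1 5] 104 136 [2, 2] [(104, 136, [2, 2])]) (.red [.t 826 3 2, .f 705 1
  5] 104 136 [2, 2] [(104, 136, [2, 2])]) .no) .no (.br 944 .no (.con 136 [2, 4, 2]) .no (.br 1065
  (.use 681) (.red [.f 937 1 3, .f 936 3 5] 134 136 [4, 4] [(134, 136, [4, 4])]) .no (.use 412)
  .no (.red [.t 944 4 1] 134 136 [4, 4] [(134, 136, [4, 4])])) .no .no) .no .no) .no .no) .no (.br
  827 .no (.br 706 .no (.br 698 .no (.red [.f 570 1 3, .f 698 3 1, .f 698 1 5] 104 136 [2, 2]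
  [(88, 136, [2, 2, 2]), (104, 136, [2, 2])]) .no (.use 691) .no (.red [.t 833 2 4, .f 698 1 5]
  104 136 [2, 2] [(104, 136, [2, 2])])) (.br 698 .no (.br 1065 (.br 1201 (.use 687) .no .no .no
  (.br 937 .no (.br 936 (.use 679) (.use 690) (.use 404) (.use 393) .no .no) .no (.br 938 .no
  (.use 692) .no (.hor [.f 929 3 5] []) (.br 936 (.con 136 [4, 4, 4]) (.use 690) (.use 693) (.hor
  [.f 928 3 5] []) .no .no) .no) (.red [.t 1073 2 4] 134 136 [4, 4] [(134, 136, [4, 4])]) (.use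
  684)) (.red [.t 1080 4 1] 151 136 [4, 1] [(151, 136, [4, 1])])) (.red [.f 937 1 3] 134 136 [4,
  4] [(134, 136, [4, 4])]) .no (.use 685) .no (.use 686)) .no (.use 691) .no (.red [.t 833 2 4, .f
  698 1 5] 104 136 [2, 2] [(104, 136, [2, 2])])) (.red [.f 698 3 1, .f 698 1 5] 104 136 [2, 2]
  [(104, 136, [2, 2])]) (.red [.t 826 3 2, .f 705 1 5] 104 136 [2, 2] [(104, 136, [2, 2])]) .no)
  .no (.br 944 .no (.con 136 [2, 4, 2]) .no (.use 694) .no .no) .no .no) (.red [.f 1208 3 1, .f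
  1216 1 5] 168 136 [1, 1] [(168, 136, [1, 1])]) .no .no

def c22t696 : Tr4 :=
  .br 1201 (.use 641) .no .no (.hor [.f 1193 3 5] []) .no (.red [.t 1080 4 1] 151 136 [4, 1]
  [(151, 136, [4, 1])])

def c22t697 : Tr4 :=
  .br 698 .no (.use 684) (.red [.f 698 3 1, .f 698 1 5] 104 136 [2, 2] [(104, 136, [2, 2])]) (.use
  408) .no (.red [.t 833 2 4, .f 698 1 5] 104 136 [2, 2] [(104, 136, [2, 2])])

def c22t698 : Tr4 :=
  .br 827 .no (.use 697) .no (.br 944 .no (.con 136 [2, 4, 2]) .no .no .no .no) .no .no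

def c22t699 : Tr4 :=
  .br 937 .no (.br 936 (.use 392) (.use 690) (.br 827 .no (.br 698 .no (.use 404) (.red [.f 698 3
  1, .f 698 1 5] 104 136 [2, 2] [(104, 136, [2, 2])]) (.use 406) .no (.red [.t 833 2 4, .f 698 1
  5] 104 136 [2, 2] [(104, 136, [2, 2])])) .no (.use 411) .no .no) (.use 393) .no .no) .no (.red
  [.f 929 3 1, .f 937 1 3] 134 136 [4, 4] [(133, 136, [4, 4, 4]), (134, 136, [4, 4])]) (.red [.t
  1073 2 4] 134 136 [4, 4] [(134, 136, [4, 4])]) (.use 698)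

def c22t700 : Tr4 :=
  .br 936 .no (.use 690) (.red [.t 944 4 1] 134 136 [4, 4] [(134, 136, [4, 4])]) (.use 395) (.use
  698) .no

def c22t701 : Tr4 :=
  .br 1065 (.red [.t 1065 1 3, .f 1074 1 5, .t 1338 2 4] 167 136 [4, 1, 1] [(150, 134, [1]), (167,
  136, [4, 1, 1])]) (.red [.f 937 1 3] 134 136 [4, 4] [(134, 136, [4, 4])]) .no (.use 699) .no
  (.use 700)

def c22t702 : Tr4 :=
  .br 697 .no (.con 136 [2, 2, 2, 4]) .no (.hor [.f 689 3 5] []) .no .no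

def c22t703 : Tr4 :=
  .br 1058 (.red [.f 1058 1 3, .f 1057 3 5, .f 937 5 1, .f 937 1 3] 134 136 [4, 4] [(134, 136, [4,
  4]), (149, 133, [1])]) (.red [.t 1057 3 2, .f 937 1 3] 134 136 [4, 4] [(133, 136, [4, 4, 4]),
  (134, 136, [4, 4])]) .no (.br 1202 (.hor [.f 1202 1 5] []) .no .no .no .no (.br 1195 (.red [.f
  1195 1 3] 166 136 [4, 4, 1, 1] [(166, 136, [4, 4, 1, 1])]) .no .no (.use 297) .no .no)) .no .no

def c22t704 : Tr4 :=
  .br 1067 (.hor [.f 1066 1 5] []) (.con 136 [2, 4, 4, 1]) .no (.use 703) .no .no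

def c22t705 : Tr4 :=
  .br 1337 (.br 1336 (.hor [.f 1336 1 5] []) .no (.hor [.f 1208 3 1, .f 1216 1 5] [(168, 136, [1,
  1])]) (.br 1329 (.red [.f 1329 1 3, .f 1328 3 5] 183 136 [4, 1, 1, 1] [(183, 136, [4, 1, 1,
  1])]) .no .no (.use 492) (.red [.f 1201 5 1, .f 1202 1 3] 167 136 [4, 1, 1] [(167, 136, [4, 1,
  1])]) .no) .no .no) .no .no (.red [.t 1337 4 2] 167 136 [4, 1, 1] [(167, 136, [4, 1, 1])]) .no
  (.hor [.t 1216 4 1, .t 1096 4 1, .f 1217 3 5] [(153, 136, [1, 3]), (168, 136, [1, 1])])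

def c22t706 : Tr4 :=
  .br 1202 (.red [.f 1202 1 3] 167 136 [4, 1, 1] [(167, 136, [4, 1, 1])]) .no .no .no (.red [.f
  1074 5 1, .f 1066 1 3] 150 136 [4, 4, 1] [(150, 136, [4, 4, 1])]) (.use 705)

def c22t707 : Tr4 :=
  .br 707 .no (.hor [.f 578 1 5] []) .no .no .no .no

def c22t708 : Tr4 :=
  .br 698 .no (.use 221) .no (.use 244) .no (.red [.t 833 2 4, .f 698 1 5] 104 136 [2, 2] [(104,
  136, [2, 2])])

def c22t709 : Tr4 :=
  .br 698 .no (.use 215) .no (.use 242) .no (.red [.t 833 2 4, .f 698 1 5] 104 136 [2, 2] [(104,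
  136, [2, 2])])

def c22t710 : Tr4 :=
  .br 944 .no (.use 709) .no (.red [.t 944 4 1] 134 136 [4, 4] [(134, 136, [4, 4])]) .no .no

def c22t711 : Tr4 :=
  .br 819 (.br 809 .no (.con 136 [2, 4, 4, 2]) (.hor [.f 808 3 5] []) (.con 136 [2, 4, 4, 2]) .no
  .no) (.con 136 [2, 4, 2, 4]) .no (.hor [.f 810 3 5] []) .no .no

def c22t712 : Tr4 :=
  .br 1064 (.br 1195 (.red [.t 954 4 1, .t 1074 2 3, .f 1195 1 3, .t 1194 2 3] 150 136 [4, 4, 1]
  [(150, 136, [4, 4, 1]), (166, 136, [4, 4, 1, 1])]) .no .no (.use 296) .no .no) .no .no (.hor [.f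
  1056 3 5] []) .no .no

def c22t713 : Tr4 :=
  .br 1067 (.hor [.f 1066 1 5] []) (.con 136 [2, 4, 4, 1]) .no (.br 1058 (.red [.f 1058 1 3, .f
  1057 3 5, .f 937 5 1, .f 937 1 3] 134 136 [4, 4] [(134, 136, [4, 4]), (149, 133, [1])]) (.red
  [.t 1057 3 2, .f 937 1 3] 134 136 [4, 4] [(133, 136, [4, 4, 4]), (134, 136, [4, 4])]) .no (.br
  1203 (.use 712) .no .no (.red [.t 1194 2 3, .t 1073 2 4] 134 136 [4, 4] [(134, 136, [4, 4]),
  (150, 136, [4, 4, 1])]) .no .no) .no .no) .no .no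

def c22t714 : Tr4 :=
  .br 1066 (.hor [.f 1065 1 5] []) (.br 939 (.hor [.f 938 1 5] []) (.con 136 [4, 4, 4]) (.con 136
  [4, 4, 4]) (.con 136 [4, 4, 4]) .no .no) .no (.br 1192 (.con 136 [4, 4, 1, 4]) (.hor [.f 1064 1
  5] []) (.con 136 [4, 4, 1, 4]) (.con 136 [4, 4, 1, 4]) .no .no) (.br 698 .no (.br 937 .no (.use
  228) .no (.br 938 .no (.br 818 .no (.br 697 .no (.hor [.f 569 1 5] []) .no (.red [.t 954 4 1, .t
  834 4 1, .f 825 1 5, .t 689 3 1, .f 697 1 3] 104 136 [2, 2] [(103, 136, [2, 2, 4]), (104, 136,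
  [2, 2]), (120, 104, [1]), (135, 119, [1])]) .no (.use 293)) .no .no (.use 234) (.red [.t 953 2
  4] 119 136 [2, 4] [(119, 136, [2, 4])])) .no (.hor [.f 929 3 5] []) (.use 693) .no) (.red [.f
  1066 5 3, .t 1073 2 4] 134 136 [4, 4] [(134, 136, [4, 4])]) .no) .no (.br 937 .no (.use 245) .no
  (.br 824 .no (.use 702) .no (.use 292) .no .no) (.red [.f 1066 5 3, .t 1073 2 4] 134 136 [4, 4]
  [(134, 136, [4, 4])]) .no) .no (.red [.t 833 2 4, .f 698 1 5] 104 136 [2, 2] [(104, 136, [2,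
  2])])) .no

def c22t715 : Tr4 :=
  .br 698 .no (.use 239) .no (.use 246) .no (.red [.t 833 2 4, .f 698 1 5] 104 136 [2, 2] [(104,
  136, [2, 2])])

def c22t716 : Tr4 :=
  .br 704 .no (.br 819 (.br 824 .no (.use 702) .no (.dom 119 136 [2, 4]) .no .no) (.br 816 .no
  (.br 696 (.use 702) (.con 136 [2, 4, 2, 3]) .no .no (.con 136 [2, 4, 2, 2]) .no) (.use 85) (.con
  136 [2, 4, 2, 4]) (.con 136 [2, 4, 2, 4]) .no) .no (.hor [.f 810 3 5] []) .no .no) (.con 136 [2,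
  2, 3, 2]) (.use 300) .no .no

def c22t717 : Tr4 :=
  .br 1065 (.use 714) (.red [.f 937 1 3, .f 936 3 5] 134 136 [4, 4] [(134, 136, [4, 4])]) .no (.br
  937 .no (.use 708) .no (.red [.f 929 3 1, .f 937 1 3] 134 136 [4, 4] [(133, 136, [4, 4, 4]),
  (134, 136, [4, 4])]) (.br 1066 (.br 698 .no (.br 1203 (.br 1200 (.br 1201 (.use 138) .no .no
  (.br 1330 (.con 136 [4, 1, 1, 4, 2]) (.hor [.f 1202 1 5] []) .no (.con 136 [4, 1, 1, 4, 2]) .no
  (.con 136 [4, 1, 1, 4, 2])) (.br 697 .no (.hor [.f 569 1 5] []) .no (.br 818 .no (.red [.t 954 4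
  1, .t 834 4 1, .f 825 1 5, .t 689 3 1, .f 697 1 3] 104 136 [2, 2] [(103, 136, [2, 2, 4]), (104,
  136, [2, 2]), (120, 104, [1]), (135, 119, [1])]) .no (.br 696 (.br 816 .no (.red [.f 688 1 3, .f
  688 3 5] 103 136 [2, 2, 4] [(103, 136, [2, 2, 4])]) .no (.br 819 (.br 1067 (.hor [.f 1066 1 5]
  []) (.br 809 .no (.con 136 [2, 4, 4, 2]) (.hor [.f 808 3 5] []) (.con 136 [2, 4, 4, 2]) .no .no)
  .no (.use 703) .no .no) (.con 136 [2, 2, 4, 4]) .no (.hor [.f 810 3 5] []) .no .no) (.red [.t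
  696 1 4] 103 136 [2, 2, 4] [(103, 136, [2, 2, 4])]) .no) (.use 238) (.use 233) (.hor [.f 688 3
  5] []) .no .no) (.use 704) (.red [.t 953 2 4] 119 136 [2, 4] [(119, 136, [2, 4])])) .no (.br 816
  .no (.con 136 [2, 4, 2, 3]) (.br 818 .no (.use 225) .no (.use 232) (.use 704) (.red [.t 953 2 4,
  .f 816 3 5] 119 136 [2, 4] [(119, 136, [2, 4])])) (.con 136 [2, 4, 2, 3]) (.con 136 [2, 4, 2,
  3]) .no)) .no) .no .no (.use 418) (.red [.t 1080 4 1] 151 136 [4, 1] [(151, 136, [4, 1])]) .no)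
  .no .no (.red [.t 1194 2 3, .t 1073 2 4] 134 136 [4, 4] [(134, 136, [4, 4]), (150, 136, [4, 4,
  1])]) .no (.red [.f 1074 5 1, .f 1066 1 3] 150 136 [4, 4, 1] [(150, 136, [4, 4, 1])])) .no (.br
  1203 (.br 818 .no .no .no (.use 716) (.use 704) (.red [.t 953 2 4] 119 136 [2, 4] [(119, 136,
  [2, 4])])) .no .no (.red [.t 1194 2 3, .t 1073 2 4] 134 136 [4, 4] [(134, 136, [4, 4]), (150,
  136, [4, 4, 1])]) .no (.red [.f 1074 5 1, .f 1066 1 3] 150 136 [4, 4, 1] [(150, 136, [4, 4,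
  1])])) .no (.red [.t 833 2 4, .f 698 1 5] 104 136 [2, 2] [(104, 136, [2, 2])])) .no .no (.hor
  [.f 1057 3 5] []) (.red [.f 1066 5 3, .t 1073 2 4] 134 136 [4, 4] [(134, 136, [4, 4])]) .no)
  .no) (.use 715) (.use 710)

def c22t718 : Tr4 :=
  .br 944 .no (.use 709) .no (.use 708) .no .no

def c22t719 : Tr4 :=
  .br 944 .no (.use 709) .no (.use 715) .no .no

def c22l23 : List Tr4 :=
  [c22t694, c22t695, c22t696, c22t697, c22t698, c22t699, c22t700, c22t701, c22t702, c22t703,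
  c22t704, c22t705, c22t706, c22t707, c22t708, c22t709, c22t710, c22t711, c22t712, c22t713,
  c22t714, c22t715, c22t716, c22t717, c22t718, c22t719]

theorem c22k23 : chkLF ⟨4, 0, 0, true, -8⟩ false 2 c22N 694 c22l23 = true := by decide +kernel

def c22t720 : Tr4 :=
  .br 1201 (.br 944 .no (.use 709) .no (.br 1065 (.use 714) (.red [.f 937 1 3, .f 936 3 5] 134 136
  [4, 4] [(134, 136, [4, 4])]) .no (.br 937 .no (.use 708) .no (.red [.f 929 3 1, .f 937 1 3] 134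
  136 [4, 4] [(133, 136, [4, 4, 4]), (134, 136, [4, 4])]) (.br 1066 (.br 1203 (.use 138) .no .no
  (.red [.t 1194 2 3, .t 1073 2 4] 134 136 [4, 4] [(134, 136, [4, 4]), (150, 136, [4, 4, 1])]) .no
  .no) .no .no (.hor [.f 1057 3 5] []) (.red [.f 1066 5 3, .t 1073 2 4] 134 136 [4, 4] [(134, 136,
  [4, 4])]) .no) .no) (.use 715) (.use 710)) .no .no) .no .no (.br 1065 .no (.red [.f 937 1 3] 134
  136 [4, 4] [(134, 136, [4, 4])]) .no (.br 937 .no (.use 718) .no (.red [.f 929 3 1, .f 937 1 3]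
  134 136 [4, 4] [(133, 136, [4, 4, 4]), (134, 136, [4, 4])]) (.br 1066 (.br 944 .no (.use 709)
  .no (.br 698 .no (.br 697 .no (.hor [.f 569 1 5] []) .no (.br 818 .no (.red [.t 954 4 1, .t 834
  4 1, .f 825 1 5, .t 689 3 1, .f 697 1 3] 104 136 [2, 2] [(103, 136, [2, 2, 4]), (104, 136, [2,
  2]), (120, 104, [1]), (135, 119, [1])]) .no (.br 696 (.br 816 .no (.red [.f 688 1 3, .f 688 3 5]
  103 136 [2, 2, 4] [(103, 136, [2, 2, 4])]) .no (.use 711) (.red [.t 696 1 4] 103 136 [2, 2, 4]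
  [(103, 136, [2, 2, 4])]) .no) (.use 238) (.use 233) (.hor [.f 688 3 5] []) .no .no) (.use 713)
  (.red [.t 953 2 4] 119 136 [2, 4] [(119, 136, [2, 4])])) .no (.br 816 .no (.con 136 [2, 4, 2,
  3]) (.br 818 .no (.use 225) .no (.use 232) (.use 713) (.red [.t 953 2 4, .f 816 3 5] 119 136 [2,
  4] [(119, 136, [2, 4])])) (.con 136 [2, 4, 2, 3]) (.con 136 [2, 4, 2, 3]) .no)) .no (.br 818 .no
  .no .no (.use 716) (.use 713) (.red [.t 953 2 4] 119 136 [2, 4] [(119, 136, [2, 4])])) .no (.red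
  [.t 833 2 4, .f 698 1 5] 104 136 [2, 2] [(104, 136, [2, 2])])) .no .no) .no .no (.hor [.f 1057 3
  5] []) (.red [.f 1066 5 3, .t 1073 2 4] 134 136 [4, 4] [(134, 136, [4, 4])]) .no) (.use 697))
  (.use 719) (.use 710)) .no (.red [.t 1080 4 1] 151 136 [4, 1] [(151, 136, [4, 1])])

def c22t721 : Tr4 :=
  .br 1219 (.br 1211 (.red [.f 1211 1 3] 168 136 [1, 1] [(168, 136, [1, 1])]) .no .no (.use 451)
  .no (.br 1346 (.br 1338 (.red [.f 1338 1 3, .t 1346 4 2] 168 136 [1, 1] [(168, 136, [1, 1]),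
  (184, 136, [1, 1, 1])]) .no .no (.use 459) (.red [.f 1210 5 1, .f 1211 1 3] 168 136 [1, 1]
  [(168, 136, [1, 1])]) (.br 827 .no (.br 706 .no (.use 707) (.br 944 .no (.use 709) .no (.use
  717) .no .no) (.red [.f 698 3 1, .f 698 1 5] 104 136 [2, 2] [(104, 136, [2, 2])]) (.red [.t 826
  3 2, .f 705 1 5] 104 136 [2, 2] [(104, 136, [2, 2])]) .no) .no (.use 249) .no .no)) .no (.hor
  [.f 1218 3 1, .f 1217 1 5] [(169, 168, [3])]) (.red [.t 1346 4 2] 168 136 [1, 1] [(168, 136, [1,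
  1])]) .no .no)) .no (.hor [.f 1218 3 5] []) (.br 827 .no (.br 706 .no (.use 707) (.br 1210 (.br
  1202 (.red [.f 1202 1 3] 167 136 [4, 1, 1] [(167, 136, [4, 1, 1])]) .no .no (.use 696) (.br 1201
  (.use 453) .no .no (.br 1065 .no (.red [.f 937 1 3] 134 136 [4, 4] [(134, 136, [4, 4])]) .no
  (.br 937 .no (.br 1066 (.use 706) (.br 939 (.hor [.f 938 1 5] []) (.con 136 [4, 4, 4]) (.con 136
  [4, 4, 4]) (.con 136 [4, 4, 4]) .no .no) .no (.hor [.f 1057 3 5] []) (.br 938 .no (.hor [.f 809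
  1 5] []) .no (.br 939 .no (.con 136 [4, 4, 4, 2]) (.con 136 [4, 4, 4, 2]) (.hor [.f 930 3 5] [])
  .no .no) (.br 936 (.con 136 [4, 4, 4]) (.use 690) (.use 708) (.con 136 [4, 4, 2, 4]) .no .no)
  .no) .no) .no (.red [.f 929 3 1, .f 937 1 3] 134 136 [4, 4] [(133, 136, [4, 4, 4]), (134, 136,
  [4, 4])]) (.br 1066 (.use 706) .no .no (.hor [.f 1057 3 5] []) (.red [.f 1066 5 3, .t 1073 2 4]
  134 136 [4, 4] [(134, 136, [4, 4])]) .no) (.use 697)) (.red [.t 954 4 1, .t 1074 2 3, .f 1074 5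
  1, .t 1201 4 2] 150 136 [4, 4, 1] [(150, 136, [4, 4, 1])]) (.use 710)) .no (.red [.t 1080 4 1]
  151 136 [4, 1] [(151, 136, [4, 1])])) (.use 705)) .no .no (.use 720) .no .no) (.red [.f 698 3 1,
  .f 698 1 5] 104 136 [2, 2] [(104, 136, [2, 2])]) (.red [.t 826 3 2, .f 705 1 5] 104 136 [2, 2]
  [(104, 136, [2, 2])]) .no) .no (.use 249) .no .no) .no .no

def c22t722 : Tr4 :=
  .br 1218 (.hor [.f 1217 1 5] []) .no (.br 1098 .no .no (.br 1097 (.br 1075 (.br 1074 (.hor [.f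
  1074 1 5] []) .no .no (.br 833 .no (.br 1219 (.br 1211 (.use 390) .no .no .no .no (.br 1346 (.br
  1338 (.red [.f 1338 1 3, .t 1346 4 2] 168 136 [1, 1] [(168, 136, [1, 1]), (184, 136, [1, 1,
  1])]) .no .no (.use 459) (.red [.f 1210 5 1, .f 1211 1 3] 168 136 [1, 1] [(168, 136, [1, 1])])
  (.use 695)) .no (.hor [.f 1218 3 1, .f 1217 1 5] [(169, 168, [3])]) (.red [.t 1346 4 2] 168 136
  [1, 1] [(168, 136, [1, 1])]) .no .no)) .no (.hor [.f 1218 3 5] []) (.br 1210 (.br 1202 (.red [.f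
  1202 1 3] 167 136 [4, 1, 1] [(167, 136, [4, 1, 1])]) .no .no (.use 696) .no (.br 1337 (.br 1336
  (.hor [.f 1336 1 5] []) .no (.hor [.f 1208 3 1, .f 1216 1 5] [(168, 136, [1, 1])]) (.br 1339
  (.con 136 [4, 1, 1, 1]) .no (.con 136 [4, 1, 1, 1]) (.use 701) .no .no) .no .no) .no .no (.red
  [.t 1337 4 2] 167 136 [4, 1, 1] [(167, 136, [4, 1, 1])]) .no (.hor [.t 1216 4 1, .t 1096 4 1, .f
  1217 3 5] [(153, 136, [3, 1]), (168, 136, [1, 1])]))) .no .no (.dom 151 136 [4, 1]) .no .no) .no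
  .no) (.hor [.f 832 3 5] []) .no .no .no) .no .no) (.con 136 [4, 4]) .no (.use 59) .no (.br 843
  .no (.br 833 .no (.use 721) (.hor [.f 832 3 5] []) .no .no .no) (.red [.f 843 3 1, .f 835 1 3,
  .f 962 3 5] 121 136 [2, 3] [(121, 136, [2, 3]), (122, 136, [2, 3, 3])]) .no .no (.red [.t 962 3
  2] 121 136 [2, 3] [(121, 136, [2, 3])]))) (.br 843 .no (.br 833 .no (.br 842 .no (.hor [.f 714 1
  5] []) (.use 673) .no .no (.use 676)) (.hor [.f 832 3 5] []) .no .no .no) (.red [.f 843 3 1, .f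
  835 1 3, .f 962 3 5] 122 136 [2, 3, 3] [(121, 136, [2, 3]), (122, 136, [2, 3, 3])]) .no .no
  (.red [.f 961 1 3, .t 962 3 2] 121 136 [2, 3] [(121, 136, [2, 3]), (137, 121, [1])])) (.use 433)
  .no .no .no) .no .no (.use 677)) (.use 503) (.br 1210 (.use 494) .no .no (.br 1075 (.dom 151 136
  [4, 1]) (.con 136 [4, 4]) .no (.use 59) .no (.br 1211 (.br 843 .no (.br 833 .no (.br 1346 (.br
  827 .no (.br 706 .no (.use 707) (.br 1200 (.br 1336 (.br 1338 (.red [.f 1338 1 3, .t 1338 3 2]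
  168 136 [1, 1] [(168, 136, [1, 1]), (184, 136, [1, 1, 1])]) .no .no (.use 295) .no (.br 1201
  (.hor [.f 1200 1 5] []) .no .no (.br 1065 .no (.red [.f 937 1 3] 134 136 [4, 4] [(134, 136, [4,
  4])]) .no (.br 937 .no (.use 718) .no (.red [.f 929 3 1, .f 937 1 3] 134 136 [4, 4] [(133, 136,
  [4, 4, 4]), (134, 136, [4, 4])]) (.br 1066 (.br 1203 (.red [.f 1203 1 3, .f 1202 3 5, .f 1210 5
  3, .t 1217 1 4] 168 136 [1, 1] [(167, 151, [1]), (168, 136, [1, 1])]) .no .no (.red [.t 1194 2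
  3, .t 1073 2 4] 134 136 [4, 4] [(134, 136, [4, 4]), (150, 136, [4, 4, 1])]) .no .no) .no .no
  (.hor [.f 1057 3 5] []) (.red [.f 1066 5 3, .t 1073 2 4] 134 136 [4, 4] [(134, 136, [4, 4])])
  .no) (.use 697)) (.use 719) (.use 710)) .no .no)) .no (.red [.f 1208 3 1, .f 1200 1 3, .f 1072 3
  1, .f 1080 1 5] 168 136 [1, 1] [(151, 136, [4, 1]), (167, 136, [4, 1, 1]), (168, 136, [1, 1])])
  .no (.red [.t 1216 4 1] 168 136 [1, 1] [(168, 136, [1, 1])]) .no) .no .no (.use 248) (.red [.t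
  1080 4 1] 151 136 [4, 1] [(151, 136, [4, 1])]) .no) (.red [.f 698 3 1, .f 698 1 5] 104 136 [2,
  2] [(104, 136, [2, 2])]) (.red [.t 826 3 2, .f 705 1 5] 104 136 [2, 2] [(104, 136, [2, 2])])
  .no) .no (.use 249) .no .no) .no (.br 827 .no (.br 1200 (.br 1336 (.br 1344 (.red [.f 1336 1 3,
  .f 1208 3 1, .f 1216 1 5] 168 136 [1, 1] [(168, 136, [1, 1]), (184, 136, [1, 1, 1])]) .no (.use
  507) .no .no .no) .no (.red [.f 1208 3 1, .f 1200 1 3, .f 1072 3 1, .f 1080 1 5] 168 136 [1, 1]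
  [(151, 136, [4, 1]), (167, 136, [4, 1, 1]), (168, 136, [1, 1])]) .no (.red [.t 1216 4 1] 168 136
  [1, 1] [(168, 136, [1, 1])]) .no) .no .no (.use 248) (.red [.t 1080 4 1] 151 136 [4, 1] [(151,
  136, [4, 1])]) .no) .no (.use 249) .no .no) (.red [.t 1338 3 2, .f 1217 1 5] 168 136 [1, 1]
  [(168, 136, [1, 1])]) (.red [.f 1218 5 1, .f 1211 1 3] 168 136 [1, 1] [(168, 136, [1, 1])]) .no)
  (.hor [.f 832 3 5] []) .no .no .no) (.red [.f 843 3 1, .f 835 1 3, .f 962 3 5] 121 136 [2, 3]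
  [(121, 136, [2, 3]), (122, 136, [2, 3, 3])]) .no .no (.red [.t 962 3 2] 121 136 [2, 3] [(121,
  136, [2, 3])])) .no .no (.hor [.f 1202 3 5] []) .no .no)) (.red [.f 1210 5 3, .f 1082 3 1, .f
  1081 1 5, .t 945 1 3, .f 1072 3 5, .t 960 4 1] 136 136 [] [(135, 119, [1]), (136, 136, []),
  (152, 136, [1])]) .no) .no

def c22t723 : Tr4 :=
  .br 1337 (.use 592) .no .no (.red [.t 1337 4 2] 167 136 [4, 1, 1] [(167, 136, [4, 1, 1])]) .no
  .no

def c22t724 : Tr4 :=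
  .br 1336 (.red [.f 1336 1 3, .f 1208 3 1] 184 136 [1, 1, 1] [(168, 136, [1, 1]), (184, 136, [1,
  1, 1])]) .no .no (.con 136 [4, 1, 1, 1]) .no .no

def c22t725 : Tr4 :=
  .br 1345 (.br 1344 (.hor [.f 1344 1 5] []) .no (.con 136 [3, 1, 1, 1]) (.use 723) .no .no) .no
  (.red [.f 1210 1 3, .f 1217 3 1] 169 136 [3, 1, 1] [(168, 167, [3]), (169, 136, [3, 1, 1])])
  (.br 1344 (.use 724) .no (.con 136 [3, 1, 1, 1]) (.hor [.f 1336 3 5] []) .no .no) .no (.use 643)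

def c22t726 : Tr4 :=
  .br 968 .no .no (.use 675) .no .no .no

def c22t727 : Tr4 :=
  .br 1344 (.hor [.f 1344 1 5] []) .no (.use 648) (.use 723) .no .no

def c22t728 : Tr4 :=
  .br 978 .no (.red [.f 961 1 3, .f 961 3 5, .f 841 5 1, .f 842 1 3] 122 136 [2, 3, 3] [(122, 136,
  [2, 3, 3]), (137, 121, [1])]) (.use 674) .no .no (.red [.f 977 5 1, .f 969 1 3] 138 136 [3, 3]
  [(138, 136, [3, 3])])

def c22t729 : Tr4 :=
  .br 968 .no .no (.br 1104 (.br 1224 .no .no .no .no .no .no) .no (.br 1105 (.br 1106 (.hor [.f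
  1105 1 5] []) (.con 136 [3, 3, 3]) (.con 136 [3, 3, 3, 1]) .no (.con 136 [3, 3, 3, 1]) .no)
  (.red [.f 969 1 3, .f 968 3 5] 138 136 [3, 3] [(138, 136, [3, 3])]) (.hor [.f 1104 3 5] []) .no
  (.use 728) .no) .no (.red [.t 968 3 1] 138 136 [3, 3] [(138, 136, [3, 3])]) .no) .no .no .no

def c22t730 : Tr4 :=
  .br 1344 (.use 724) .no (.use 729) (.hor [.f 1336 3 5] []) .no .no

def c22t731 : Tr4 :=
  .br 842 .no (.hor [.f 714 1 5] []) (.use 673) .no .no (.use 726)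

def c22t732 : Tr4 :=
  .br 1344 (.con 136 [1, 3, 1, 1, 4]) .no (.con 136 [1, 3, 1, 1]) (.hor [.f 1336 3 5] []) .no .no

def c22t733 : Tr4 :=
  .br 1345 (.br 1344 (.hor [.f 1344 1 5] []) .no (.con 136 [3, 1, 1, 1]) (.use 723) .no .no) .no
  (.red [.f 1211 3 1, .f 1210 1 5, .f 1217 3 1] 169 136 [3, 1, 1] [(168, 167, [3]), (169, 136, [3,
  1, 1])]) (.use 732) .no (.use 643)

def c22t734 : Tr4 :=
  .br 1203 .no .no .no (.red [.t 1194 2 3, .t 1073 2 4] 134 136 [4, 4] [(134, 136, [4, 4]), (150,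
  136, [4, 4, 1])]) .no .no

def c22t735 : Tr4 :=
  .br 944 .no (.use 709) .no (.br 1065 (.use 714) (.red [.f 937 1 3, .f 936 3 5] 134 136 [4, 4]
  [(134, 136, [4, 4])]) .no (.br 937 .no (.use 708) .no (.red [.f 929 3 1, .f 937 1 3] 134 136 [4,
  4] [(133, 136, [4, 4, 4]), (134, 136, [4, 4])]) (.br 1066 (.use 734) .no .no (.hor [.f 1057 3 5]
  []) (.red [.f 1066 5 3, .t 1073 2 4] 134 136 [4, 4] [(134, 136, [4, 4])]) .no) .no) (.use 715)
  (.use 710)) .no .no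

def c22l24 : List Tr4 :=
  [c22t720, c22t721, c22t722, c22t723, c22t724, c22t725, c22t726, c22t727, c22t728, c22t729,
  c22t730, c22t731, c22t732, c22t733, c22t734, c22t735]

theorem c22k24 : chkLF ⟨4, 0, 0, true, -8⟩ false 2 c22N 720 c22l24 = true := by decide +kernel

def c22t736 : Tr4 :=
  .br 1075 (.br 1074 (.hor [.f 1074 1 5] []) .no .no (.br 1202 (.red [.f 1202 1 3] 167 136 [4, 1,
  1] [(167, 136, [4, 1, 1])]) .no .no (.use 696) .no (.br 843 .no (.br 833 .no (.br 1339 (.br 1347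
  (.br 842 .no (.hor [.f 714 1 5] []) (.use 673) .no .no (.br 1098 (.use 725) .no (.use 726) .no
  .no .no)) .no (.br 1226 (.red [.f 1210 1 3, .f 1210 3 1, .f 1218 1 3, .f 1346 3 5] 169 136 [3,
  1, 1] [(169, 136, [3, 1, 1])]) (.br 842 .no (.hor [.f 714 1 5] []) (.use 673) .no .no (.br 1345
  (.use 727) .no (.red [.f 1210 1 3, .f 1217 3 1] 169 136 [3, 1, 1] [(168, 167, [3]), (169, 136,
  [3, 1, 1])]) (.use 730) .no (.use 643))) (.br 1098 .no .no (.use 731) .no .no .no) .no (.red [.f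
  1210 1 3, .f 1210 3 1, .t 1346 2 3] 169 136 [3, 1, 1] [(169, 136, [3, 1, 1])]) .no) .no .no .no)
  .no (.br 1098 (.use 733) .no (.use 731) .no .no .no) (.use 701) .no .no) (.hor [.f 832 3 5] [])
  .no .no .no) (.red [.f 843 3 1, .f 835 1 3, .f 962 3 5] 122 136 [2, 3, 3] [(121, 136, [2, 3]),
  (122, 136, [2, 3, 3])]) .no .no (.red [.f 961 1 3, .t 962 3 2] 121 136 [2, 3] [(121, 136, [2,
  3]), (137, 121, [1])]))) .no .no) (.con 136 [4, 4]) .no (.use 59) .no (.br 843 .no (.br 833 .no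
  (.br 1098 (.br 827 .no (.br 706 .no (.use 707) (.br 842 .no .no (.use 673) .no .no (.br 1345
  (.br 1344 (.hor [.f 1344 1 5] []) .no (.use 729) (.br 1337 (.use 592) .no .no (.br 1201 .no .no
  .no (.br 1200 (.red [.f 1208 3 1, .f 1200 1 3, .f 1072 3 1, .f 1080 1 5] 151 136 [4, 1] [(151,
  136, [4, 1]), (167, 136, [4, 1, 1]), (168, 136, [1, 1])]) .no .no (.hor [.f 1192 3 5] []) .no
  .no) (.use 723) (.red [.t 1080 4 1] 151 136 [4, 1] [(151, 136, [4, 1])])) .no .no) .no .no) .no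
  (.red [.f 1210 1 3, .f 1217 3 1] 169 136 [3, 1, 1] [(168, 167, [3]), (169, 136, [3, 1, 1])])
  (.br 1339 (.use 730) .no (.use 732) (.br 1202 (.red [.f 1202 1 3] 167 136 [4, 1, 1] [(167, 136,
  [4, 1, 1])]) .no .no (.use 696) (.red [.f 1210 1 3, .f 1210 3 1, .t 1338 2 4] 167 136 [4, 1, 1]
  [(167, 136, [4, 1, 1])]) (.use 735)) .no .no) .no (.use 643))) (.red [.f 698 3 1, .f 698 1 5]
  104 136 [2, 2] [(104, 136, [2, 2])]) (.red [.t 826 3 2, .f 705 1 5] 104 136 [2, 2] [(104, 136,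
  [2, 2])]) .no) .no (.use 249) .no .no) .no (.use 731) .no .no .no) (.hor [.f 832 3 5] []) .no
  .no .no) (.red [.f 843 3 1, .f 835 1 3, .f 962 3 5] 122 136 [2, 3, 3] [(121, 136, [2, 3]), (122,
  136, [2, 3, 3])]) .no .no (.red [.f 961 1 3, .t 962 3 2] 121 136 [2, 3] [(121, 136, [2, 3]),
  (137, 121, [1])]))

def c22t737 : Tr4 :=
  .br 833 .no (.br 827 .no (.br 706 .no (.use 707) (.use 720) (.red [.f 698 3 1, .f 698 1 5] 104
  136 [2, 2] [(104, 136, [2, 2])]) (.red [.t 826 3 2, .f 705 1 5] 104 136 [2, 2] [(104, 136, [2,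
  2])]) .no) .no (.use 249) .no .no) (.hor [.f 832 3 5] []) .no .no .no

def c22t738 : Tr4 :=
  .br 1472 (.use 650) .no (.red [.f 1344 3 1, .f 1336 1 3, .f 1208 3 1] 185 136 [1, 3, 1, 1]
  [(168, 136, [1, 1]), (184, 136, [1, 1, 1]), (185, 136, [1, 3, 1, 1])]) .no (.red [.t 1336 1 3]
  184 136 [1, 1, 1] [(184, 136, [1, 1, 1])]) .no

def c22t739 : Tr4 :=
  .br 1347 (.use 725) .no (.br 1345 (.use 727) .no (.red [.f 1210 1 3, .f 1217 3 1] 169 136 [3, 1,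
  1] [(168, 167, [3]), (169, 136, [3, 1, 1])]) (.br 1344 (.use 724) .no (.br 1336 (.use 738) .no
  .no (.con 136 [4, 1, 1, 1]) .no .no) (.hor [.f 1336 3 5] []) .no .no) .no (.use 643)) .no .no
  .no

def c22t740 : Tr4 :=
  .br 1075 (.br 1074 (.hor [.f 1074 1 5] []) .no .no (.br 1202 (.red [.f 1202 1 3] 167 136 [4, 1,
  1] [(167, 136, [4, 1, 1])]) .no .no (.use 696) .no (.br 1098 (.br 833 .no (.br 1065 (.br 1339
  (.br 1347 (.use 725) .no (.br 1345 (.use 727) .no (.red [.f 1210 1 3, .f 1217 3 1] 169 136 [3,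
  1, 1] [(168, 167, [3]), (169, 136, [3, 1, 1])]) (.br 1344 (.use 724) .no (.br 1200 (.br 1336
  (.use 738) .no .no .no .no .no) .no .no (.red [.t 1065 1 3, .f 1192 3 5, .t 1080 4 1] 151 136
  [4, 1] [(150, 134, [1]), (151, 136, [4, 1])]) .no .no) (.hor [.f 1336 3 5] []) .no .no) .no
  (.use 643)) .no .no .no) .no (.use 733) (.use 701) .no .no) (.red [.f 937 1 3] 134 136 [4, 4]
  [(134, 136, [4, 4])]) .no (.use 699) .no (.use 700)) (.hor [.f 832 3 5] []) .no .no .no) .no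
  (.hor [.f 1097 3 5] []) .no .no .no)) .no .no) (.con 136 [4, 4]) .no (.use 59) .no (.br 1098
  (.br 843 .no (.br 833 .no (.br 827 .no (.br 706 .no (.use 707) (.br 1202 (.red [.f 1202 1 3] 167
  136 [4, 1, 1] [(167, 136, [4, 1, 1])]) .no .no (.use 696) (.br 1201 (.use 453) .no .no (.br 1065
  .no (.red [.f 937 1 3] 134 136 [4, 4] [(134, 136, [4, 4])]) .no (.br 937 .no (.use 718) .no
  (.red [.f 929 3 1, .f 937 1 3] 134 136 [4, 4] [(133, 136, [4, 4, 4]), (134, 136, [4, 4])]) (.br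
  1066 (.red [.f 1074 5 1, .f 1066 1 3] 150 136 [4, 4, 1] [(150, 136, [4, 4, 1])]) .no .no (.hor
  [.f 1057 3 5] []) (.red [.f 1066 5 3, .t 1073 2 4] 134 136 [4, 4] [(134, 136, [4, 4])]) .no)
  (.use 697)) (.use 719) (.use 710)) .no (.red [.t 1080 4 1] 151 136 [4, 1] [(151, 136, [4, 1])]))
  (.br 1339 (.use 739) .no (.use 733) (.use 735) .no .no)) (.red [.f 698 3 1, .f 698 1 5] 104 136
  [2, 2] [(104, 136, [2, 2])]) (.red [.t 826 3 2, .f 705 1 5] 104 136 [2, 2] [(104, 136, [2, 2])])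
  .no) .no (.use 249) .no .no) (.hor [.f 832 3 5] []) .no .no .no) (.red [.f 843 3 1, .f 835 1 3,
  .f 962 3 5] 121 136 [2, 3] [(121, 136, [2, 3]), (122, 136, [2, 3, 3])]) .no .no (.red [.t 962 3
  2] 121 136 [2, 3] [(121, 136, [2, 3])])) .no (.hor [.f 1097 3 5] []) .no .no .no)

def c22t741 : Tr4 :=
  .br 944 .no (.con 136 [2, 4, 4]) .no (.br 1067 (.hor [.f 1066 1 5] []) (.con 136 [2, 4, 4, 1])
  .no (.br 1058 (.red [.f 1058 1 3, .f 1057 3 5, .f 937 5 1, .f 937 1 3] 134 136 [4, 4] [(134,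
  136, [4, 4]), (149, 133, [1])]) (.red [.t 1057 3 2, .f 937 1 3] 134 136 [4, 4] [(133, 136, [4,
  4, 4]), (134, 136, [4, 4])]) .no (.use 712) .no .no) .no .no) .no .no

def c22t742 : Tr4 :=
  .br 818 .no (.red [.t 954 4 1, .t 834 4 1, .f 825 1 5, .t 689 3 1, .f 697 1 3] 104 136 [2, 2]
  [(103, 136, [2, 2, 4]), (104, 136, [2, 2]), (120, 104, [1]), (135, 119, [1])]) .no (.br 824 .no
  (.br 816 (.use 213) (.red [.f 688 1 3, .f 688 3 5] 103 136 [2, 2, 4] [(103, 136, [2, 2, 4])])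
  .no (.use 711) (.red [.t 696 1 4] 103 136 [2, 2, 4] [(103, 136, [2, 2, 4])]) .no) .no (.use 232)
  .no .no) (.use 741) (.red [.t 953 2 4] 119 136 [2, 4] [(119, 136, [2, 4])])

def c22t743 : Tr4 :=
  .br 818 .no (.use 225) .no (.use 232) (.use 741) (.red [.t 953 2 4, .f 816 3 5] 119 136 [2, 4]
  [(119, 136, [2, 4])])

def c22t744 : Tr4 :=
  .br 816 (.con 136 [2, 4, 2, 3]) (.con 136 [2, 4, 2, 3]) (.use 743) (.con 136 [2, 4, 2, 3]) (.con
  136 [2, 4, 2, 3]) .no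

def c22t745 : Tr4 :=
  .br 1211 (.br 843 .no (.br 833 .no (.br 827 .no (.br 706 .no (.use 707) (.br 1201 (.br 944 .no
  (.use 709) .no (.br 1065 (.use 714) (.red [.f 937 1 3, .f 936 3 5] 134 136 [4, 4] [(134, 136,
  [4, 4])]) .no (.br 937 .no (.use 708) .no (.red [.f 929 3 1, .f 937 1 3] 134 136 [4, 4] [(133,
  136, [4, 4, 4]), (134, 136, [4, 4])]) (.br 1066 (.br 1203 (.use 138) .no .no (.red [.t 1194 2 3,
  .t 1073 2 4] 134 136 [4, 4] [(134, 136, [4, 4]), (150, 136, [4, 4, 1])]) .no .no) .no .no (.hor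
  [.f 1057 3 5] []) (.red [.f 1066 5 3, .t 1073 2 4] 134 136 [4, 4] [(134, 136, [4, 4])]) .no)
  .no) (.use 715) (.use 710)) .no .no) .no .no (.br 1065 .no (.red [.f 937 1 3] 134 136 [4, 4]
  [(134, 136, [4, 4])]) .no (.br 937 .no (.use 718) .no (.red [.f 929 3 1, .f 937 1 3] 134 136 [4,
  4] [(133, 136, [4, 4, 4]), (134, 136, [4, 4])]) (.br 1066 (.br 698 .no (.br 1203 (.br 697 .no
  (.hor [.f 569 1 5] []) .no (.use 742) .no (.use 744)) .no .no (.red [.t 1194 2 3, .t 1073 2 4]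
  134 136 [4, 4] [(134, 136, [4, 4]), (150, 136, [4, 4, 1])]) .no .no) .no (.br 1203 (.br 697 .no
  (.br 816 (.con 136 [2, 4, 2, 2]) (.con 136 [2, 4, 2, 2]) (.use 743) (.con 136 [2, 4, 2, 2])
  (.con 136 [2, 4, 2, 2]) .no) .no (.use 742) .no (.use 744)) .no .no (.red [.t 1194 2 3, .t 1073
  2 4] 134 136 [4, 4] [(134, 136, [4, 4]), (150, 136, [4, 4, 1])]) .no .no) .no (.red [.t 833 2 4,
  .f 698 1 5] 104 136 [2, 2] [(104, 136, [2, 2])])) .no .no (.hor [.f 1057 3 5] []) (.red [.f 1066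
  5 3, .t 1073 2 4] 134 136 [4, 4] [(134, 136, [4, 4])]) .no) (.use 697)) (.use 719) (.use 710))
  .no (.red [.t 1080 4 1] 151 136 [4, 1] [(151, 136, [4, 1])])) (.red [.f 698 3 1, .f 698 1 5] 104
  136 [2, 2] [(104, 136, [2, 2])]) (.red [.t 826 3 2, .f 705 1 5] 104 136 [2, 2] [(104, 136, [2,
  2])]) .no) .no (.use 249) .no .no) (.hor [.f 832 3 5] []) .no .no .no) (.red [.f 843 3 1, .f 835
  1 3, .f 962 3 5] 121 136 [2, 3] [(121, 136, [2, 3]), (122, 136, [2, 3, 3])]) .no .no (.red [.t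
  962 3 2] 121 136 [2, 3] [(121, 136, [2, 3])])) .no .no (.hor [.f 1202 3 5] []) .no .no

def c22t746 : Tr4 :=
  .br 1073 (.red [.f 1073 1 3, .f 1072 3 5] 151 136 [4, 1] [(151, 136, [4, 1])]) (.br 954 .no .no
  .no (.br 825 (.br 832 .no (.use 211) (.br 1217 (.use 722) .no (.br 1218 (.br 1219 (.hor [.f 1218
  1 5] []) .no (.con 136 [3, 1, 1]) (.br 1097 .no (.br 1210 (.use 736) .no .no (.br 1075 (.dom 151
  136 [4, 1]) (.con 136 [4, 4]) .no (.use 59) .no (.br 843 .no (.use 737) (.red [.f 843 3 1, .f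
  835 1 3, .f 962 3 5] 122 136 [2, 3, 3] [(121, 136, [2, 3]), (122, 136, [2, 3, 3])]) .no .no
  (.red [.f 961 1 3, .t 962 3 2] 121 136 [2, 3] [(121, 136, [2, 3]), (137, 121, [1])]))) .no .no)
  (.br 1210 (.use 740) .no .no (.br 1075 (.dom 151 136 [4, 1]) (.con 136 [4, 4]) .no (.use 59) .no
  (.br 843 .no (.use 737) (.red [.f 843 3 1, .f 835 1 3, .f 962 3 5] 121 136 [2, 3] [(121, 136,
  [2, 3]), (122, 136, [2, 3, 3])]) .no .no (.red [.t 962 3 2] 121 136 [2, 3] [(121, 136, [2,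
  3])]))) .no .no) .no (.use 677) .no) .no .no) .no (.hor [.f 1217 3 5] []) (.use 503) (.br 1210
  (.use 494) .no .no (.br 1075 (.dom 151 136 [4, 1]) (.con 136 [4, 4]) .no (.use 59) .no (.use
  745)) (.red [.f 1210 5 3, .f 1082 3 1, .f 1081 1 5, .t 945 1 3, .f 1072 3 5, .t 960 4 1] 136 136
  [] [(135, 119, [1]), (136, 136, []), (152, 136, [1])]) .no) .no) .no (.red [.t 1081 1 3, .t 945
  1 3, .f 1072 3 5, .t 960 4 1] 136 136 [] [(135, 119, [1]), (136, 136, []), (152, 136, [1])])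
  .no) (.con 136 [2, 2]) (.red [.t 952 3 2, .t 1072 3 2, .f 945 3 5, .t 1089 2 4, .f 825 3 1] 136
  136 [] [(135, 119, [1]), (136, 136, [])]) .no) (.con 136 [4, 2, 3, 2]) (.con 136 [4, 2, 3, 3])
  (.con 136 [4, 2, 3, 2]) .no (.con 136 [4, 2, 3, 2])) .no (.red [.t 1089 2 4, .f 952 3 5] 136 136
  [] [(136, 136, [])])) .no (.use 678) (.br 953 .no (.br 946 .no (.con 136 [2, 4, 1, 3]) (.use
  307) (.con 136 [2, 4, 1, 3]) (.con 136 [2, 4, 1, 3]) (.con 136 [2, 4, 1, 3])) .no (.br 946 .no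
  (.con 136 [2, 4, 1, 3]) (.hor [.f 945 3 5] []) (.con 136 [2, 4, 1, 3]) (.con 136 [2, 4, 1, 3])
  .no) (.red [.t 1089 2 4, .f 952 3 5] 136 136 [] [(136, 136, [])]) .no) .no

def c22l25 : List Tr4 :=
  [c22t736, c22t737, c22t738, c22t739, c22t740, c22t741, c22t742, c22t743, c22t744, c22t745,
  c22t746]

theorem c22k25 : chkLF ⟨4, 0, 0, true, -8⟩ false 2 c22N 736 c22l25 = true := by decide +kernel

def c22t747 : Tr4 :=
  .br 834 .no (.br 954 .no (.br 1208 (.br 1073 (.red [.f 1073 1 3, .f 1072 3 5] 151 136 [4, 1]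
  [(151, 136, [4, 1])]) (.use 430) .no (.use 449) (.use 377) .no) .no (.br 969 (.use 445) (.br 842
  .no (.red [.f 706 1 3, .f 834 3 1, .f 834 1 5] 121 136 [2, 3] [(105, 136, [2, 3, 2]), (121, 136,
  [2, 3])]) (.br 1073 (.red [.f 1073 1 3, .f 1072 3 5] 151 136 [4, 1] [(151, 136, [4, 1])]) (.use
  430) .no (.br 1201 (.use 458) .no .no (.red [.f 1065 3 1, .f 1073 1 3] 151 136 [4, 1] [(150,
  136, [4, 1, 4]), (151, 136, [4, 1])]) (.br 953 .no (.hor [.f 825 1 5] []) .no (.br 825 .no (.use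
  312) (.br 832 .no (.br 1097 (.use 107) .no (.use 110) .no (.red [.t 961 1 3, .t 825 3 1, .f 833
  1 3] 121 136 [2, 3] [(120, 136, [2]), (121, 136, [2, 3]), (137, 121, [1])]) .no) (.use 640)
  (.hor [.f 824 3 5] []) .no .no) (.hor [.f 817 3 1, .f 825 1 5] [(119, 121, [4, 4])]) .no (.use
  457)) .no .no) (.red [.t 1080 4 1] 151 136 [4, 1] [(151, 136, [4, 1])])) (.use 672) .no) .no
  (.red [.t 962 3 2, .f 841 1 5] 121 136 [2, 3] [(121, 136, [2, 3])]) .no) (.use 206) .no .no (.br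
  842 .no (.red [.f 706 1 3, .f 834 3 1, .f 834 1 5] 121 136 [2, 3] [(105, 136, [2, 3, 2]), (121,
  136, [2, 3])]) (.use 448) .no (.red [.t 1088 3 2, .t 962 3 2] 121 136 [2, 3] [(121, 136, [2,
  3]), (137, 121, [1])]) (.use 446))) (.red [.f 1072 3 1, .f 1080 1 5] 151 136 [4, 1] [(151, 136,
  [4, 1])]) .no .no) .no (.use 306) .no (.red [.t 1089 2 4, .f 952 3 5] 136 136 [] [(136, 136,
  [])])) (.red [.f 834 3 1, .f 834 1 5] 121 136 [2, 3] [(121, 136, [2, 3])]) (.br 1208 (.br 1073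
  (.red [.f 1073 1 3, .f 1072 3 5] 151 136 [4, 1] [(151, 136, [4, 1])]) (.br 954 .no .no .no (.br
  825 (.br 832 .no (.use 211) (.br 1210 (.br 1211 (.hor [.f 1210 1 5] []) .no (.br 1218 (.hor [.f
  1210 1 3, .f 1210 3 5] [(168, 167, [3])]) .no (.br 1075 (.use 415) (.con 136 [4, 4]) .no (.use
  59) .no (.br 1097 (.use 431) (.br 843 .no (.br 833 .no (.br 827 .no (.br 706 .no (.br 842 .no
  (.use 241) (.use 673) .no .no (.use 676)) (.br 842 .no .no (.use 673) .no .no (.use 676)) (.red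
  [.f 698 3 1, .f 698 1 5] 104 136 [2, 2] [(104, 136, [2, 2])]) (.red [.t 826 3 2, .f 705 1 5] 104
  136 [2, 2] [(104, 136, [2, 2])]) .no) .no (.use 249) .no .no) (.hor [.f 832 3 5] []) .no .no
  .no) (.red [.f 843 3 1, .f 835 1 3, .f 962 3 5] 122 136 [2, 3, 3] [(121, 136, [2, 3]), (122,
  136, [2, 3, 3])]) .no .no (.red [.f 961 1 3, .t 962 3 2] 121 136 [2, 3] [(121, 136, [2, 3]),
  (137, 121, [1])])) (.use 433) .no (.use 677) .no)) .no .no (.red [.t 1081 1 3, .t 945 1 3, .f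
  1072 3 5, .t 960 4 1] 136 136 [] [(135, 119, [1]), (136, 136, []), (152, 136, [1])])) (.con 136
  [4, 1, 1]) .no .no) .no (.red [.f 1082 3 1, .f 1081 1 5, .t 945 1 3, .f 1072 3 5, .t 960 4 1]
  136 136 [] [(135, 119, [1]), (136, 136, []), (152, 136, [1])]) (.use 426) (.use 427) .no) (.con
  136 [2, 2]) (.red [.t 952 3 2, .t 1072 3 2, .f 945 3 5, .t 1089 2 4, .f 825 3 1] 136 136 []
  [(135, 119, [1]), (136, 136, [])]) .no) (.con 136 [4, 2, 3, 2]) (.con 136 [4, 2, 3, 3]) (.con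
  136 [4, 2, 3, 2]) .no (.con 136 [4, 2, 3, 2])) .no (.red [.t 1089 2 4, .f 952 3 5] 136 136 []
  [(136, 136, [])])) .no (.use 678) (.use 377) .no) .no (.use 746) (.red [.f 1072 3 1, .f 1080 1
  5] 151 136 [4, 1] [(151, 136, [4, 1])]) .no .no) .no (.use 428)

def c22t748 : Tr4 :=
  .br 824 .no (.br 827 .no (.hor [.f 698 1 5] []) .no (.con 136 [2, 2, 4]) .no .no) .no (.red [.t
  952 3 2, .t 1072 2 3, .f 816 3 1, .f 824 1 3] 119 136 [2, 4] [(119, 136, [2, 4]), (135, 136,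
  [4])]) .no .no

def c22t749 : Tr4 :=
  .br 978 (.con 136 [3, 3, 3]) (.red [.f 961 1 3, .f 961 3 5, .f 841 5 1, .f 842 1 3] 122 136 [2,
  3, 3] [(122, 136, [2, 3, 3]), (137, 121, [1])]) (.use 674) .no .no (.br 1106 .no .no (.hor [.f
  1105 3 5] []) .no (.red [.f 1098 5 3, .t 1097 2 3] 138 136 [3, 3] [(138, 136, [3, 3])]) .no)

def c22t750 : Tr4 :=
  .br 1105 (.con 136 [3, 3, 1, 3]) (.red [.f 969 1 3, .f 968 3 5] 138 136 [3, 3] [(138, 136, [3,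
  3])]) (.use 749) .no (.use 728) (.red [.t 968 3 1] 138 136 [3, 3] [(138, 136, [3, 3])])

def c22t751 : Tr4 :=
  .br 1105 (.br 1104 (.hor [.f 1104 1 5] []) .no (.con 136 [3, 3, 1, 3]) .no .no .no) (.red [.f
  969 1 3, .f 968 3 5] 138 136 [3, 3] [(138, 136, [3, 3])]) (.use 749) .no (.use 728) (.red [.t
  968 3 1] 138 136 [3, 3] [(138, 136, [3, 3])])

def c22t752 : Tr4 :=
  .br 1105 (.br 1106 (.hor [.f 1105 1 5] []) (.con 136 [3, 3, 3]) (.con 136 [3, 3, 3, 1]) .no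
  (.con 136 [3, 3, 3, 1]) .no) (.red [.f 969 1 3, .f 968 3 5] 138 136 [3, 3] [(138, 136, [3, 3])])
  (.hor [.f 1104 3 5] []) .no (.use 728) .no

def c22t753 : Tr4 :=
  .br 1104 .no .no (.use 752) .no (.red [.t 968 3 1] 138 136 [3, 3] [(138, 136, [3, 3])]) .no

def c22t754 : Tr4 :=
  .br 968 .no .no (.use 753) .no .no .no

def c22t755 : Tr4 :=
  .br 827 .no (.red [.t 826 3 2, .f 706 1 3] 105 136 [2, 2, 3] [(104, 136, [2, 2]), (105, 136, [2,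
  2, 3])]) .no (.br 816 .no (.con 136 [2, 4, 2]) (.red [.t 952 3 2, .t 1072 2 3, .f 816 3 1, .f
  824 1 3] 119 136 [2, 4] [(119, 136, [2, 4]), (135, 136, [4])]) (.con 136 [2, 4, 2]) (.con 136
  [2, 4, 2]) .no) .no .no

def c22t756 : Tr4 :=
  .br 706 .no (.br 824 .no (.br 698 .no (.red [.f 570 1 3] 88 136 [2, 2, 2] [(88, 136, [2, 2,
  2])]) .no (.br 699 (.br 843 .no (.use 707) (.red [.f 843 3 1, .f 835 1 3, .f 962 3 5] 121 136
  [2, 3] [(121, 136, [2, 3]), (122, 136, [2, 3, 3])]) .no .no .no) (.con 136 [2, 2, 4]) (.con 136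
  [2, 2, 2]) (.con 136 [2, 2, 4]) .no .no) (.con 136 [2, 2, 4]) (.use 264)) .no (.red [.t 952 3 2,
  .t 1072 2 3, .f 816 3 1, .f 824 1 3] 119 136 [2, 4] [(119, 136, [2, 4]), (135, 136, [4])]) .no
  .no) .no (.red [.f 698 3 1, .f 706 1 3] 105 136 [2, 2, 3] [(104, 136, [2, 2]), (105, 136, [2, 2,
  3])]) (.use 755) (.red [.t 952 3 2, .f 825 3 5, .f 705 5 1, .f 706 1 3] 105 136 [2, 2, 3] [(105,
  136, [2, 2, 3]), (120, 104, [1])])

def c22t757 : Tr4 :=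
  .br 842 .no (.use 756) (.use 277) .no (.red [.f 961 1 3, .t 962 3 2] 121 136 [2, 3] [(121, 136,
  [2, 3]), (137, 121, [1])]) (.red [.f 961 1 3, .t 952 3 2, .f 825 3 5, .f 833 5 3, .f 834 3 1]
  121 136 [2, 3] [(120, 104, [1]), (121, 136, [2, 3]), (137, 121, [1])])

def c22t758 : Tr4 :=
  .br 1099 (.red [.f 1091 1 3] 153 136 [3, 1] [(153, 136, [3, 1])]) .no (.use 189) .no .no (.br
  1218 (.br 834 .no (.br 833 .no (.hor [.f 705 1 5] []) (.use 155) .no .no (.br 968 .no (.con 136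
  [2, 3, 3]) (.br 843 .no (.br 842 .no (.hor [.f 714 1 5] []) (.use 196) .no .no (.br 1226 (.red
  [.f 1218 1 3, .t 1218 3 2] 153 136 [3, 1] [(153, 136, [3, 1]), (169, 136, [3, 1, 1])]) .no (.br
  1224 (.red [.f 1216 1 3, .f 1088 3 1] 153 136 [3, 1] [(153, 136, [3, 1]), (169, 136, [3, 1,
  1])]) .no (.use 750) .no (.use 751) .no) .no (.red [.f 1098 5 1, .f 1091 1 3] 153 136 [3, 1]
  [(153, 136, [3, 1])]) (.br 1224 (.red [.f 1216 1 3, .f 1088 3 1] 153 136 [3, 1] [(153, 136, [3,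
  1]), (169, 136, [3, 1, 1])]) .no (.use 753) .no .no .no))) (.red [.f 843 3 1, .f 835 1 3, .f 962
  3 5] 122 136 [2, 3, 3] [(121, 136, [2, 3]), (122, 136, [2, 3, 3])]) .no .no (.red [.f 961 1 3,
  .t 962 3 2] 121 136 [2, 3] [(121, 136, [2, 3]), (137, 121, [1])])) .no .no .no)) (.red [.f 834 3
  1, .f 834 1 5] 121 136 [2, 3] [(121, 136, [2, 3])]) (.br 945 .no (.red [.f 817 1 3] 119 136 [2,
  4] [(119, 136, [2, 4])]) .no (.br 946 (.con 136 [2, 4, 1, 3]) (.con 136 [2, 4, 1, 3]) (.br 832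
  .no (.use 211) (.br 833 .no (.br 843 .no (.br 842 .no (.hor [.f 714 1 5] []) (.use 673) .no .no
  (.br 1226 (.red [.f 1218 1 3, .t 1218 3 2] 153 136 [3, 1] [(153, 136, [3, 1]), (169, 136, [3, 1,
  1])]) .no (.br 1224 (.red [.f 1216 1 3, .f 1088 3 1] 153 136 [3, 1] [(153, 136, [3, 1]), (169,
  136, [3, 1, 1])]) .no (.br 968 .no .no (.use 750) .no .no .no) .no (.br 968 .no .no (.use 751)
  .no .no .no) .no) .no (.red [.f 1098 5 1, .f 1091 1 3] 153 136 [3, 1] [(153, 136, [3, 1])]) (.br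
  1224 (.red [.f 1216 1 3, .f 1088 3 1] 153 136 [3, 1] [(153, 136, [3, 1]), (169, 136, [3, 1,
  1])]) .no (.use 754) .no .no .no))) (.red [.f 843 3 1, .f 835 1 3, .f 962 3 5] 122 136 [2, 3, 3]
  [(121, 136, [2, 3]), (122, 136, [2, 3, 3])]) .no .no (.red [.f 961 1 3, .t 962 3 2] 121 136 [2,
  3] [(121, 136, [2, 3]), (137, 121, [1])])) (.hor [.f 832 3 5] []) .no .no .no) (.con 136 [2, 2])
  (.use 757) .no) (.con 136 [2, 4, 1, 3]) (.con 136 [2, 4, 1, 3]) .no) (.con 136 [2, 4, 1, 3])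
  .no) .no (.use 428)) .no (.red [.t 1218 3 2] 153 136 [3, 1] [(153, 136, [3, 1])]) (.hor [.f 1209
  3 5] []) .no .no)

def c22t759 : Tr4 :=
  .br 817 .no (.hor [.f 689 1 5] []) .no (.hor [.f 808 3 5] []) .no .no

def c22t760 : Tr4 :=
  .br 698 .no (.hor [.f 570 1 5] []) .no .no .no (.use 31)

def c22t761 : Tr4 :=
  .br 1227 (.con 136 [3, 1, 1, 3]) .no (.hor [.f 1226 3 5] []) .no .no .no

def c22t762 : Tr4 :=
  .br 1355 (.red [.f 1347 1 3] 185 136 [3, 1, 1, 1] [(185, 136, [3, 1, 1, 1])]) .no (.br 1352 (.br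
  1353 (.red [.f 1345 1 3] 185 136 [3, 1, 1, 1] [(185, 136, [3, 1, 1, 1])]) .no (.con 136 [3, 1,
  3, 1, 1]) .no (.con 136 [3, 1, 3, 1, 1]) .no) .no (.red [.f 1224 3 1, .f 1216 1 3, .f 1088 3 1,
  .f 1096 1 5] 170 136 [3, 1, 3, 1] [(153, 136, [3, 1]), (169, 136, [3, 1, 1]), (170, 136, [3, 1,
  3, 1])]) .no (.br 1354 (.con 136 [3, 1, 3, 1, 1]) .no (.hor [.f 1354 3 5] []) .no .no .no) .no)
  .no .no (.red [.f 1226 5 1, .f 1218 1 3] 169 136 [3, 1, 1] [(169, 136, [3, 1, 1])])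

def c22t763 : Tr4 :=
  .br 1355 (.red [.f 1347 1 3, .t 1346 2 3] 169 136 [3, 1, 1] [(169, 136, [3, 1, 1]), (185, 136,
  [3, 1, 1, 1])]) .no (.br 1352 (.br 1354 (.con 136 [3, 1, 3, 1, 1]) .no (.hor [.f 1354 3 5] [])
  .no .no .no) .no (.red [.f 1224 3 1, .f 1216 1 3, .f 1088 3 1, .f 1096 1 5] 170 136 [3, 1, 3, 1]
  [(153, 136, [3, 1]), (169, 136, [3, 1, 1]), (170, 136, [3, 1, 3, 1])]) .no .no .no) .no .no
  (.red [.f 1226 5 1, .f 1218 1 3] 169 136 [3, 1, 1] [(169, 136, [3, 1, 1])])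

def c22t764 : Tr4 :=
  .br 1098 (.hor [.f 1097 1 5] []) .no (.hor [.f 1098 3 5] []) .no .no .no

def c22t765 : Tr4 :=
  .br 971 (.br 954 .no (.hor [.f 825 1 5] []) .no (.br 824 .no (.br 705 .no (.br 840 .no (.br 704
  .no (.hor [.f 576 1 5] []) .no .no .no .no) (.use 117) .no .no .no) (.br 840 .no (.red [.t 952 3
  2, .t 832 1 4, .t 712 1 4, .f 705 1 5] 105 136 [2, 2, 3] [(105, 136, [2, 2, 3])]) (.use 117) .no
  .no .no) (.red [.t 696 1 3, .f 705 1 5, .t 969 2 4] 121 136 [2, 3] [(104, 88, [1]), (121, 136,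
  [2, 3])]) .no (.red [.f 704 5 1, .f 705 1 5, .t 969 2 4] 121 136 [2, 3] [(121, 136, [2, 3])]))
  .no (.red [.t 952 3 2, .t 1072 2 3, .f 816 3 1, .f 824 1 3] 119 136 [2, 4] [(119, 136, [2, 4]),
  (135, 136, [4])]) .no .no) .no .no) (.red [.f 835 1 3] 121 136 [2, 3] [(121, 136, [2, 3])]) (.br
  954 .no (.hor [.f 825 1 5] []) .no (.br 945 .no (.red [.f 817 1 3] 119 136 [2, 4] [(119, 136,
  [2, 4])]) .no (.br 826 .no (.use 748) .no (.red [.f 818 3 1, .f 825 1 5] 119 136 [2, 4] [(119,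
  136, [2, 4])]) (.br 819 (.red [.t 952 3 2, .t 832 1 4, .t 946 3 2] 119 136 [2, 4] [(119, 136,
  [2, 4])]) (.use 43) .no (.br 947 (.br 824 .no (.br 818 .no (.br 816 .no (.red [.f 688 1 3] 103
  136 [2, 2, 4] [(103, 136, [2, 2, 4])]) .no (.use 759) (.br 936 (.red [.f 936 1 3, .f 936 3 5, .f
  816 5 1, .f 817 1 3] 119 136 [2, 4] [(119, 136, [2, 4]), (134, 118, [1])]) (.red [.t 936 2 3, .f
  817 1 3] 119 136 [2, 4] [(118, 136, [2, 4, 4]), (119, 136, [2, 4])]) .no (.br 699 .no (.use 760)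
  (.br 697 .no (.br 689 .no (.red [.f 561 1 3] 87 136 [2, 2, 2, 4] [(87, 136, [2, 2, 2, 4])]) .no
  (.br 808 .no (.red [.t 680 1 3, .f 689 1 5, .t 953 2 4] 119 136 [2, 4] [(102, 86, [1]), (119,
  136, [2, 4])]) .no (.red [.f 800 3 1, .t 936 2 3, .f 817 1 3] 119 136 [2, 4] [(117, 136, [2, 4,
  4, 4]), (118, 136, [2, 4, 4]), (119, 136, [2, 4])]) (.red [.f 808 5 3, .f 681 3 1, .f 689 1 5,
  .t 953 2 4] 119 136 [2, 4] [(102, 103, [4]), (119, 136, [2, 4])]) .no) .no (.red [.f 688 5 1, .f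
  689 1 5, .t 953 2 4] 119 136 [2, 4] [(119, 136, [2, 4])])) (.con 136 [2, 2, 2]) (.red [.t 696 1
  4, .f 689 1 5] 103 136 [2, 2, 4] [(103, 136, [2, 2, 4])]) (.br 843 .no (.br 704 .no (.br 705 .no
  (.hor [.f 576 1 5] []) (.br 840 .no (.red [.t 952 3 2, .t 832 1 4, .t 712 1 4, .f 705 1 5] 105
  136 [2, 2, 3] [(105, 136, [2, 2, 3])]) (.con 136 [2, 2, 3, 3]) .no .no .no) .no .no .no) (.con
  136 [2, 2, 3, 3]) .no (.red [.f 704 5 1, .f 705 1 5, .t 969 2 4] 121 136 [2, 3] [(121, 136, [2,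
  3])]) .no) (.red [.f 843 3 1, .f 835 1 3, .f 962 3 5] 121 136 [2, 3] [(121, 136, [2, 3]), (122,
  136, [2, 3, 3])]) .no .no .no) .no) (.red [.t 690 1 3] 103 136 [2, 2, 4] [(103, 136, [2, 2,
  4])]) .no (.red [.f 698 5 1, .f 690 1 3] 103 136 [2, 2, 4] [(103, 136, [2, 2, 4])])) .no .no)
  .no) .no (.use 35) .no (.red [.t 953 2 4] 119 136 [2, 4] [(119, 136, [2, 4])])) .no (.red [.t
  952 3 2, .t 1072 2 3, .f 816 3 1, .f 824 1 3] 119 136 [2, 4] [(119, 136, [2, 4]), (135, 136,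
  [4])]) .no .no) .no .no (.red [.f 811 3 1, .t 946 3 2] 119 136 [2, 4] [(118, 136, [2, 4, 4]),
  (119, 136, [2, 4])]) .no .no) .no (.red [.f 818 5 3, .f 818 3 1] 119 136 [2, 4] [(119, 136, [2,
  4])])) .no) .no .no) .no .no) .no .no .no

def c22t766 : Tr4 :=
  .br 842 .no (.red [.f 706 1 3] 105 136 [2, 2, 3] [(105, 136, [2, 2, 3])]) (.br 968 .no (.hor [.f
  840 1 5] []) (.use 765) .no .no .no) .no (.red [.t 962 3 2, .f 841 1 5] 121 136 [2, 3] [(121,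
  136, [2, 3])]) .no

def c22t767 : Tr4 :=
  .br 832 .no (.use 210) (.br 705 (.hor [.f 705 1 5] []) (.con 136 [2, 2, 3, 1]) (.con 136 [2, 2,
  3, 1]) (.con 136 [2, 2, 3, 1]) .no (.con 136 [2, 2, 3, 1])) (.use 256) (.use 766) .no

def c22t768 : Tr4 :=
  .br 818 .no (.red [.t 818 2 3] 103 136 [2, 2, 4] [(103, 136, [2, 2, 4])]) .no (.use 16) .no
  (.red [.t 953 2 4, .f 816 3 5] 119 136 [2, 4] [(119, 136, [2, 4])])

def c22t769 : Tr4 :=
  .br 827 .no .no .no (.use 768) .no .no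

def c22t770 : Tr4 :=
  .br 824 .no (.con 136 [2, 2, 4]) .no (.use 769) .no .no

def c22t771 : Tr4 :=
  .br 1099 (.red [.f 1091 1 3] 153 136 [3, 1] [(153, 136, [3, 1])]) .no (.use 764) .no .no (.br
  1226 (.red [.f 1218 1 3, .t 1218 3 2] 153 136 [3, 1] [(153, 136, [3, 1]), (169, 136, [3, 1,
  1])]) .no (.br 1227 (.con 136 [3, 3, 1, 1]) .no (.hor [.f 1226 3 5] []) .no .no .no) .no (.red
  [.f 1098 5 1, .f 1091 1 3] 153 136 [3, 1] [(153, 136, [3, 1])]) .no)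

def c22t772 : Tr4 :=
  .br 706 .no (.red [.f 570 1 3, .f 698 3 1, .f 705 1 5] 104 136 [2, 2] [(88, 136, [2, 2, 2]),
  (104, 136, [2, 2])]) .no .no (.br 827 .no (.red [.t 826 3 2, .f 705 1 5] 104 136 [2, 2] [(104,
  136, [2, 2])]) .no (.br 699 .no (.hor [.f 570 1 5] []) .no (.red [.f 691 3 1, .t 826 3 2, .f 706
  1 3] 104 136 [2, 2] [(103, 136, [4, 2, 2]), (104, 136, [2, 2]), (105, 136, [2, 2, 3])]) .no .no)
  .no .no) .no

def c22l26 : List Tr4 :=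
  [c22t747, c22t748, c22t749, c22t750, c22t751, c22t752, c22t753, c22t754, c22t755, c22t756,
  c22t757, c22t758, c22t759, c22t760, c22t761, c22t762, c22t763, c22t764, c22t765, c22t766,
  c22t767, c22t768, c22t769, c22t770, c22t771, c22t772]

theorem c22k26 : chkLF ⟨4, 0, 0, true, -8⟩ false 2 c22N 747 c22l26 = true := by decide +kernel

def c22t773 : Tr4 :=
  .br 699 .no (.br 697 .no (.con 136 [2, 2, 4, 2]) .no (.hor [.f 689 3 5] []) .no (.con 136 [2, 2,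
  2, 4])) (.br 697 .no (.con 136 [2, 2, 4, 2]) .no (.hor [.f 689 3 5] []) .no (.con 136 [2, 2,
  2])) (.hor [.f 690 3 5] []) .no .no

def c22t774 : Tr4 :=
  .br 817 .no .no .no (.red [.f 809 3 1, .f 817 1 3] 119 136 [2, 4] [(118, 136, [2, 4, 4]), (119,
  136, [2, 4])]) (.red [.t 953 2 4] 119 136 [2, 4] [(119, 136, [2, 4])]) (.red [.t 696 1 4] 103
  136 [2, 4, 2] [(103, 136, [2, 4, 2])])

def c22t775 : Tr4 :=
  .br 697 .no (.hor [.f 569 1 5] []) .no (.use 774) .no .no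

def c22t776 : Tr4 :=
  .br 699 .no (.hor [.f 570 1 5] []) (.br 697 .no (.hor [.f 569 1 5] []) .no (.br 818 .no (.br 809
  .no (.con 136 [2, 4, 4, 2, 3]) (.red [.f 809 3 1, .f 817 1 3] 119 136 [2, 4] [(118, 136, [2, 4,
  4]), (119, 136, [2, 4])]) (.con 136 [2, 4, 4, 2, 3]) (.con 136 [2, 4, 4, 2, 3]) (.con 136 [2, 4,
  4, 2, 3])) .no (.use 16) .no (.red [.t 953 2 4, .f 816 3 5] 119 136 [2, 4] [(119, 136, [2,
  4])])) .no (.con 136 [2, 2, 2])) (.red [.f 691 3 1] 103 136 [2, 2, 4] [(103, 136, [2, 2, 4])])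
  .no .no

def c22t777 : Tr4 :=
  .br 827 .no (.red [.t 826 3 2, .f 705 1 5] 104 136 [2, 2] [(104, 136, [2, 2])]) .no (.br 699 .no
  (.hor [.f 570 1 5] []) .no (.red [.f 691 3 1, .t 826 3 2] 104 136 [2, 2] [(103, 136, [2, 2, 4]),
  (104, 136, [2, 2])]) .no .no) .no .no

def c22t778 : Tr4 :=
  .br 824 .no (.br 699 (.use 702) (.con 136 [2, 2, 4]) (.con 136 [2, 2, 2]) (.con 136 [2, 2, 4])
  .no .no) .no (.dom 119 136 [2, 4]) .no .no

def c22t779 : Tr4 :=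
  .br 827 .no (.br 824 .no (.use 702) .no (.br 817 .no (.br 819 .no (.con 136 [2, 2, 4, 4]) .no
  (.red [.f 811 3 1] 118 136 [2, 4, 4] [(118, 136, [2, 4, 4])]) .no (.red [.t 698 4 1, .f 689 1 5,
  .t 953 2 4, .t 1089 2 4] 136 136 [] [(103, 87, [1]), (119, 136, [2, 4]), (136, 136, [])])) .no
  (.red [.f 809 3 1, .f 817 1 3] 119 136 [2, 4] [(118, 136, [2, 4, 4]), (119, 136, [2, 4])]) (.red
  [.t 953 2 4, .f 816 3 5] 119 136 [2, 4] [(119, 136, [2, 4])]) .no) .no .no) .no (.use 773) .no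
  .no

def c22t780 : Tr4 :=
  .br 824 .no (.use 702) .no (.br 817 .no (.br 819 .no (.con 136 [2, 2, 4, 4]) .no (.br 818 .no
  .no .no (.hor [.f 810 3 5] []) .no .no) .no (.red [.t 698 4 1, .f 689 1 5, .t 953 2 4, .t 1089 2
  4] 136 136 [] [(103, 87, [1]), (119, 136, [2, 4]), (136, 136, [])])) .no (.red [.f 809 3 1, .f
  817 1 3] 119 136 [2, 4] [(118, 136, [2, 4, 4]), (119, 136, [2, 4])]) (.red [.t 953 2 4, .f 816 3
  5] 119 136 [2, 4] [(119, 136, [2, 4])]) .no) .no .no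

def c22t781 : Tr4 :=
  .br 707 .no (.br 577 .no (.hor [.f 449 1 5] []) (.con 136 [2, 2, 2, 2, 3]) (.red [.t 816 3 2, .t
  696 1 4, .t 576 1 4, .f 569 1 5] 88 136 [2, 2, 2] [(88, 136, [2, 2, 2])]) .no .no) .no .no .no
  .no

def c22t782 : Tr4 :=
  .br 712 .no (.br 713 .no (.hor [.f 584 1 5] []) (.con 136 [2, 2, 3, 2, 3]) .no .no .no) (.br 578
  .no (.use 781) (.red [.f 578 3 1] 89 136 [2, 2, 3, 2] [(89, 136, [2, 2, 3, 2])]) .no (.con 136
  [2, 2, 3, 2, 4]) (.br 713 .no (.red [.t 713 2 4] 89 136 [2, 2, 3, 2] [(89, 136, [2, 2, 3, 2])])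
  (.hor [.f 712 3 5] []) .no .no .no)) .no (.red [.t 832 3 2, .t 952 3 2, .f 825 3 5, .t 969 2 4,
  .f 705 3 1] 121 136 [2, 3] [(120, 104, [1]), (121, 136, [2, 3])]) .no

def c22t783 : Tr4 :=
  .br 697 .no (.hor [.f 569 1 5] []) .no .no .no (.br 704 .no (.br 843 .no (.use 782) (.hor [.f
  842 3 5] []) .no .no .no) (.red [.f 704 3 1, .f 704 1 5, .t 952 3 2, .f 825 3 5, .t 969 2 4, .t
  840 2 4] 121 136 [2, 3] [(120, 104, [1]), (121, 136, [2, 3])]) .no .no .no)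

def c22t784 : Tr4 :=
  .br 833 .no (.br 698 .no (.br 824 .no (.use 775) .no (.dom 119 136 [2, 4]) .no .no) (.red [.f
  698 3 1, .f 705 1 5] 104 136 [2, 2] [(104, 136, [2, 2])]) (.use 778) (.use 770) (.red [.t 833 2
  4] 104 136 [2, 2] [(104, 136, [2, 2])])) .no .no .no .no

def c22t785 : Tr4 :=
  .br 947 (.br 842 .no (.br 705 (.br 698 .no (.use 772) (.red [.f 698 3 1, .f 705 1 5] 104 136 [2,
  2] [(104, 136, [2, 2])]) (.br 827 .no (.br 706 .no (.br 707 .no (.hor [.f 578 1 5] []) (.red [.f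
  947 1 3, .f 946 3 5, .t 834 4 1, .t 714 1 4, .f 834 3 1] 121 136 [2, 3] [(105, 136, [2, 2, 3]),
  (120, 104, [1]), (121, 136, [2, 3]), (135, 119, [1])]) .no .no .no) .no .no (.red [.t 826 3 2,
  .f 705 1 5] 104 136 [2, 2] [(104, 136, [2, 2])]) .no) .no (.use 773) .no .no) (.use 770) (.red
  [.t 833 2 4] 104 136 [2, 2] [(104, 136, [2, 2])])) (.con 136 [2, 2, 3, 1]) (.con 136 [2, 2, 3,
  1]) (.con 136 [2, 2, 3, 1]) (.con 136 [2, 2, 3, 1]) (.con 136 [2, 2, 3, 1])) (.br 827 .no (.br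
  705 (.br 706 .no (.br 698 .no (.red [.f 570 1 3, .f 698 3 1, .f 698 1 5] 104 136 [2, 2] [(88,
  136, [2, 2, 2]), (104, 136, [2, 2])]) .no (.use 780) .no (.red [.t 833 2 4, .f 698 1 5] 104 136
  [2, 2] [(104, 136, [2, 2])])) (.br 698 .no (.br 824 .no (.use 775) .no (.br 817 .no (.use 783)
  .no (.red [.f 809 3 1, .f 817 1 3] 119 136 [2, 4] [(118, 136, [2, 4, 4]), (119, 136, [2, 4])])
  (.red [.t 953 2 4, .f 816 3 5] 119 136 [2, 4] [(119, 136, [2, 4])]) .no) .no .no) .no (.use 780)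
  .no (.red [.t 833 2 4, .f 698 1 5] 104 136 [2, 2] [(104, 136, [2, 2])])) (.red [.f 698 3 1, .f
  698 1 5] 104 136 [2, 2] [(104, 136, [2, 2])]) (.red [.t 826 3 2, .f 705 1 5] 104 136 [2, 2]
  [(104, 136, [2, 2])]) .no) (.con 136 [2, 2, 3, 1]) (.con 136 [2, 2, 3, 1]) (.con 136 [2, 2, 3,
  1]) (.con 136 [2, 2, 3, 1]) (.con 136 [2, 2, 3, 1])) .no (.br 816 .no (.con 136 [2, 4, 2]) (.br
  833 .no (.br 698 .no (.use 776) (.red [.f 698 3 1, .f 705 1 5] 104 136 [2, 2] [(104, 136, [2,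
  2])]) (.use 773) (.use 768) (.red [.t 833 2 4] 104 136 [2, 2] [(104, 136, [2, 2])])) .no .no .no
  .no) (.con 136 [2, 4, 2]) (.con 136 [2, 4, 2]) .no) .no .no) .no (.red [.t 962 3 2, .f 841 1 5]
  121 136 [2, 3] [(121, 136, [2, 3])]) .no) (.use 784) .no (.br 842 .no (.br 705 (.br 698 .no
  (.use 772) (.red [.f 698 3 1, .f 705 1 5] 104 136 [2, 2] [(104, 136, [2, 2])]) (.use 779) (.use
  770) (.red [.t 833 2 4] 104 136 [2, 2] [(104, 136, [2, 2])])) (.con 136 [2, 2, 3, 1]) (.con 136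
  [2, 2, 3, 1]) (.con 136 [2, 2, 3, 1]) (.con 136 [2, 2, 3, 1]) (.con 136 [2, 2, 3, 1])) (.br 833
  .no (.br 698 .no (.br 706 .no (.red [.f 570 1 3, .f 698 3 1, .f 705 1 5] 104 136 [2, 2] [(88,
  136, [2, 2, 2]), (104, 136, [2, 2])]) (.br 824 .no (.use 775) .no (.br 817 .no (.br 827 .no
  (.use 783) .no (.use 776) .no .no) .no (.red [.f 809 3 1, .f 817 1 3] 119 136 [2, 4] [(118, 136,
  [2, 4, 4]), (119, 136, [2, 4])]) (.red [.t 953 2 4, .f 816 3 5] 119 136 [2, 4] [(119, 136, [2,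
  4])]) .no) .no .no) .no (.use 777) .no) (.red [.f 698 3 1, .f 705 1 5] 104 136 [2, 2] [(104,
  136, [2, 2])]) (.use 779) (.use 770) (.red [.t 833 2 4] 104 136 [2, 2] [(104, 136, [2, 2])]))
  .no .no .no .no) .no (.red [.t 962 3 2, .f 841 1 5] 121 136 [2, 3] [(121, 136, [2, 3])]) .no)
  .no .no

def c22t786 : Tr4 :=
  .br 947 (.br 827 .no (.use 780) .no (.use 773) .no .no) (.use 778) .no (.use 779) .no .no

def c22t787 : Tr4 :=
  .br 843 .no (.br 705 (.br 698 .no (.br 706 .no (.red [.f 570 1 3, .f 698 3 1, .f 705 1 5] 104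
  136 [2, 2] [(88, 136, [2, 2, 2]), (104, 136, [2, 2])]) (.br 824 .no (.use 775) .no (.br 827 .no
  (.br 817 .no (.br 697 .no (.hor [.f 569 1 5] []) .no .no .no (.br 704 .no (.br 842 .no .no (.use
  782) .no .no .no) (.con 136 [2, 2, 3, 2]) .no .no .no)) .no (.red [.f 809 3 1, .f 817 1 3] 119
  136 [2, 4] [(118, 136, [2, 4, 4]), (119, 136, [2, 4])]) (.red [.t 953 2 4, .f 816 3 5] 119 136
  [2, 4] [(119, 136, [2, 4])]) .no) .no (.use 776) .no .no) .no .no) .no (.use 777) .no) (.red [.f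
  698 3 1, .f 705 1 5] 104 136 [2, 2] [(104, 136, [2, 2])]) (.use 786) (.use 770) (.red [.t 833 2
  4] 104 136 [2, 2] [(104, 136, [2, 2])])) (.con 136 [2, 2, 3, 1]) (.con 136 [2, 2, 3, 1]) (.con
  136 [2, 2, 3, 1]) (.con 136 [2, 2, 3, 1]) (.con 136 [2, 2, 3, 1])) (.red [.f 843 3 1, .f 835 1
  3, .f 962 3 5] 121 136 [2, 3] [(121, 136, [2, 3]), (122, 136, [2, 3, 3])]) .no .no (.red [.t 962
  3 2, .f 841 1 5] 121 136 [2, 3] [(121, 136, [2, 3])])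

def c22t788 : Tr4 :=
  .br 971 (.use 130) (.red [.f 835 1 3] 121 136 [2, 3] [(121, 136, [2, 3])]) (.use 787) .no .no
  .no

def c22t789 : Tr4 :=
  .br 832 .no (.use 211) (.br 945 .no (.red [.f 817 1 3] 119 136 [2, 4] [(119, 136, [2, 4])]) .no
  (.br 946 (.con 136 [2, 4, 1, 3]) (.con 136 [2, 4, 1, 3]) (.br 1097 (.br 1218 (.br 1210 (.hor [.f
  1210 1 3, .f 1209 3 5] [(168, 169, [4])]) .no .no (.br 1211 (.br 1224 (.red [.f 1216 1 3, .f
  1088 3 1, .f 1096 1 5] 153 136 [3, 1] [(153, 136, [3, 1]), (169, 136, [3, 1, 1])]) .no (.br 971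
  (.br 1098 (.hor [.f 1097 1 5] []) .no (.br 1226 (.red [.f 1218 1 3] 169 136 [3, 1, 1] [(169,
  136, [3, 1, 1])]) .no (.use 761) .no (.br 1345 (.br 1347 (.use 762) .no (.red [.t 1346 2 3] 169
  136 [3, 1, 1] [(169, 136, [3, 1, 1])]) .no .no .no) .no (.br 1347 (.use 763) .no (.red [.t 1346
  2 3] 169 136 [3, 1, 1] [(169, 136, [3, 1, 1])]) .no .no .no) (.hor [.f 1209 3 1, .f 1216 1 5]
  [(168, 169, [4])]) .no .no) .no) .no .no .no) (.red [.f 835 1 3] 121 136 [2, 3] [(121, 136, [2,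
  3])]) (.use 771) .no .no .no) .no .no .no) .no .no (.hor [.f 1202 3 5] []) .no .no) (.br 971
  (.br 1098 (.hor [.f 1097 1 5] []) .no (.br 1224 (.red [.f 1216 1 3, .f 1088 3 1, .f 1096 1 5]
  153 136 [3, 1] [(153, 136, [3, 1]), (169, 136, [3, 1, 1])]) .no (.br 1226 (.red [.f 1218 1 3]
  169 136 [3, 1, 1] [(169, 136, [3, 1, 1])]) .no (.use 761) .no (.br 1347 (.br 1345 (.use 762) .no
  (.use 763) (.hor [.f 1209 3 1, .f 1216 1 5] [(168, 169, [4])]) .no .no) .no (.red [.t 1346 2 3]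
  169 136 [3, 1, 1] [(169, 136, [3, 1, 1])]) (.hor [.t 1346 2 4, .f 1209 3 5] [(168, 169, [4])])
  .no .no) .no) .no .no .no) .no .no .no) (.red [.f 835 1 3] 121 136 [2, 3] [(121, 136, [2, 3])])
  (.br 1224 (.red [.f 1216 1 3, .f 1088 3 1, .f 1096 1 5] 153 136 [3, 1] [(153, 136, [3, 1]),
  (169, 136, [3, 1, 1])]) .no (.use 771) .no .no .no) .no .no .no) .no) .no (.br 1099 (.red [.f
  1091 1 3] 153 136 [3, 1] [(153, 136, [3, 1])]) (.use 785) (.use 764) .no .no (.red [.t 1218 3 2,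
  .f 1097 1 5] 153 136 [3, 1] [(153, 136, [3, 1])])) (.hor [.f 1209 3 5] []) .no .no) .no (.use
  788) .no (.use 304) .no) (.con 136 [2, 4, 1, 3]) (.con 136 [2, 4, 1, 3]) .no) (.con 136 [2, 4,
  1, 3]) .no) (.con 136 [2, 2]) (.red [.t 952 3 2, .f 825 3 5, .t 969 2 4] 121 136 [2, 3] [(120,
  104, [1]), (121, 136, [2, 3])]) .no

def c22t790 : Tr4 :=
  .br 834 .no (.use 767) (.red [.f 834 3 1, .f 834 1 5] 121 136 [2, 3] [(121, 136, [2, 3])]) (.br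
  945 .no (.red [.f 817 1 3] 119 136 [2, 4] [(119, 136, [2, 4])]) .no (.br 832 .no (.use 211) (.br
  946 (.con 136 [2, 4, 1, 3]) (.con 136 [2, 4, 1, 3]) (.use 785) (.con 136 [2, 4, 1, 3]) (.con 136
  [2, 4, 1, 3]) .no) (.con 136 [2, 2]) (.red [.t 952 3 2, .f 825 3 5, .t 969 2 4] 121 136 [2, 3]
  [(120, 104, [1]), (121, 136, [2, 3])]) .no) (.con 136 [2, 4, 1, 3]) .no) .no (.red [.t 969 2 4,
  .f 834 1 5] 121 136 [2, 3] [(121, 136, [2, 3])])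

def c22t791 : Tr4 :=
  .br 979 (.red [.f 971 1 3] 138 136 [3, 3] [(138, 136, [3, 3])]) (.br 977 (.red [.t 1088 3 2, .f
  961 3 5, .t 1105 2 4] 138 136 [3, 3] [(137, 121, [1]), (138, 136, [3, 3])]) (.con 136 [3, 2, 3,
  3]) (.hor [.f 977 3 5] []) .no .no (.con 136 [3, 2, 3, 3])) (.hor [.f 978 3 5] []) .no .no .no

def c22t792 : Tr4 :=
  .br 978 .no (.red [.t 1088 3 2, .f 961 3 5, .f 841 5 1, .f 842 1 3] 122 136 [2, 3, 3] [(122,
  136, [2, 3, 3]), (137, 121, [1])]) (.use 791) .no (.red [.t 1098 3 2] 138 136 [3, 3] [(138, 136,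
  [3, 3])]) (.red [.t 1088 3 2, .f 961 3 5, .f 969 5 3, .f 970 3 1] 138 136 [3, 3] [(137, 121,
  [1]), (138, 136, [3, 3])])

def c22t793 : Tr4 :=
  .br 978 .no (.red [.t 1088 3 2, .f 961 3 5, .t 849 4 1] 122 136 [2, 3, 3] [(122, 136, [2, 3,
  3]), (137, 121, [1])]) (.use 791) .no (.red [.t 1098 3 2] 138 136 [3, 3] [(138, 136, [3, 3])])
  (.red [.t 1088 3 2, .f 961 3 5, .f 969 5 3, .f 841 3 1] 122 136 [2, 3, 3] [(122, 136, [2, 3,
  3]), (137, 121, [1])])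

def c22t794 : Tr4 :=
  .br 832 .no (.use 211) (.br 833 .no (.br 698 .no (.br 706 .no (.red [.f 570 1 3, .f 698 3 1, .f
  705 1 5] 104 136 [2, 2] [(88, 136, [2, 2, 2]), (104, 136, [2, 2])]) (.br 842 .no .no (.br 841
  .no (.use 112) (.hor [.f 841 3 5] []) .no .no .no) .no (.red [.t 1088 3 2, .t 962 3 2] 121 136
  [2, 3] [(121, 136, [2, 3]), (137, 121, [1])]) (.use 792)) .no (.use 777) .no) (.red [.f 698 3 1,
  .f 705 1 5] 104 136 [2, 2] [(104, 136, [2, 2])]) (.use 786) (.use 770) (.red [.t 833 2 4] 104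
  136 [2, 2] [(104, 136, [2, 2])])) (.hor [.f 832 3 5] []) .no .no .no) (.con 136 [2, 2]) (.br 842
  .no (.br 841 .no (.hor [.f 713 1 5] []) (.use 793) .no .no (.red [.t 952 3 2, .f 825 3 5, .f 840
  5 1, .t 969 2 4] 121 136 [2, 3] [(120, 104, [1]), (121, 136, [2, 3])])) (.use 157) .no (.red [.t
  1088 3 2, .t 962 3 2] 121 136 [2, 3] [(121, 136, [2, 3]), (137, 121, [1])]) (.use 792)) .no

def c22t795 : Tr4 :=
  .br 841 .no (.use 270) (.use 793) .no .no (.red [.f 840 5 1, .t 969 2 4] 121 136 [2, 3] [(121,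
  136, [2, 3])])

def c22t796 : Tr4 :=
  .br 841 .no (.use 112) (.use 793) (.use 95) .no (.use 101)

def c22t797 : Tr4 :=
  .br 826 (.hor [.f 825 1 5] []) (.red [.f 817 1 3] 119 136 [2, 4] [(119, 136, [2, 4])]) (.red [.f
  817 1 3] 119 136 [2, 4] [(119, 136, [2, 4])]) (.red [.f 817 1 3] 119 136 [2, 4] [(119, 136, [2,
  4])]) (.red [.f 817 1 3] 119 136 [2, 4] [(119, 136, [2, 4])]) .no

def c22t798 : Tr4 :=
  .br 841 .no (.use 270) (.br 840 .no (.red [.f 704 1 3] 105 136 [2, 2, 3] [(105, 136, [2, 2,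
  3])]) (.hor [.f 840 3 5] []) .no .no .no) .no (.red [.t 1088 3 2, .f 833 5 3, .f 834 3 1] 121
  136 [2, 3] [(121, 136, [2, 3]), (137, 121, [1])]) (.red [.f 840 5 1, .t 969 2 4] 121 136 [2, 3]
  [(121, 136, [2, 3])])

def c22l27 : List Tr4 :=
  [c22t773, c22t774, c22t775, c22t776, c22t777, c22t778, c22t779, c22t780, c22t781, c22t782,
  c22t783, c22t784, c22t785, c22t786, c22t787, c22t788, c22t789, c22t790, c22t791, c22t792,
  c22t793, c22t794, c22t795, c22t796, c22t797, c22t798]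

theorem c22k27 : chkLF ⟨4, 0, 0, true, -8⟩ false 2 c22N 773 c22l27 = true := by decide +kernel

end Pool.Agent.FT4D
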