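import Pool.Agent.FT4D.Tab_c22

/-!
# Four levels: decision trees (found by a computer search)
-/

namespace Pool.Agent.FT4D

def c22t799 : Tr4 :=
  .br 826 (.hor [.f 825 1 5] []) (.con 136 [2, 4, 1, 3]) (.con 136 [2, 4, 1, 3]) (.con 136 [2, 4,
  1, 3]) (.con 136 [2, 4, 1, 3]) .no

def c22t800 : Tr4 :=
  .br 819 .no (.use 43) .no (.red [.f 811 3 1, .t 946 3 2] 119 136 [2, 4] [(118, 136, [2, 4, 4]),
  (119, 136, [2, 4])]) .no (.red [.f 818 5 3, .f 818 3 1] 119 136 [2, 4] [(119, 136, [2, 4])])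

def c22t801 : Tr4 :=
  .br 819 .no (.use 43) .no (.use 760) .no .no

def c22t802 : Tr4 :=
  .br 699 .no (.use 801) (.br 704 .no (.hor [.f 576 1 5] []) (.con 136 [2, 2, 2, 3]) .no .no .no)
  (.red [.t 690 1 3] 103 136 [2, 2, 4] [(103, 136, [2, 2, 4])]) .no (.red [.f 698 5 1, .f 690 1 3]
  103 136 [2, 2, 4] [(103, 136, [2, 2, 4])])

def c22t803 : Tr4 :=
  .br 818 .no (.br 824 .no (.br 816 .no (.red [.f 688 1 3] 103 136 [2, 2, 4] [(103, 136, [2, 2,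
  4])]) .no (.use 759) (.br 705 .no (.use 802) (.red [.t 705 3 1] 105 136 [2, 2, 3] [(105, 136,
  [2, 2, 3])]) (.red [.t 696 1 3, .f 705 1 5, .f 833 5 3, .f 834 3 1] 121 136 [2, 3] [(104, 88,
  [1]), (121, 136, [2, 3])]) .no (.br 1224 (.red [.f 1216 1 3, .f 1088 3 1] 153 136 [3, 1] [(153,
  136, [3, 1]), (169, 136, [3, 1, 1])]) .no (.br 1225 (.use 158) .no (.hor [.f 1224 3 5] []) .no
  (.br 1107 (.con 136 [3, 3, 1, 1]) (.red [.f 971 1 3] 138 136 [3, 3] [(138, 136, [3, 3])]) (.br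
  1106 (.red [.f 1097 5 1, .f 1098 1 3] 154 136 [3, 3, 1] [(154, 136, [3, 3, 1])]) (.use 159)
  (.hor [.f 1106 3 5] []) .no .no (.br 979 .no (.br 978 .no (.hor [.f 850 1 5] []) (.use 160) .no
  .no (.br 840 .no (.red [.f 704 5 1, .f 704 1 3] 105 136 [2, 2, 3] [(105, 136, [2, 2, 3])]) (.con
  136 [2, 3, 3, 2]) .no .no .no)) (.red [.f 979 3 1, .f 971 1 3] 139 136 [3, 3, 3] [(138, 136, [3,
  3]), (139, 136, [3, 3, 3])]) .no .no (.red [.f 1097 5 3, .t 1098 3 2] 138 136 [3, 3] [(138, 136,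
  [3, 3])]))) .no .no (.use 167)) .no) .no (.br 699 .no (.use 801) (.br 840 .no (.red [.f 704 5 1,
  .f 704 1 3] 105 136 [2, 2, 3] [(105, 136, [2, 2, 3])]) (.br 979 (.red [.f 971 1 3] 138 136 [3,
  3] [(138, 136, [3, 3])]) (.con 136 [2, 3, 3, 2]) (.br 978 (.use 173) (.red [.t 1088 3 2, .f 961
  3 5, .f 841 5 1, .f 842 1 3] 122 136 [2, 3, 3] [(122, 136, [2, 3, 3]), (137, 121, [1])]) (.hor
  [.f 978 3 5] []) .no .no (.br 1107 (.br 1106 (.hor [.f 1106 1 5] []) .no (.use 174) .no .no (.br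
  1104 (.red [.t 1088 3 2, .f 961 3 5, .f 969 5 1, .f 968 1 5, .f 1096 5 1, .f 1096 1 3] 154 136
  [3, 3, 1] [(137, 121, [1]), (154, 136, [3, 3, 1])]) (.con 136 [3, 3, 3]) (.con 136 [3, 3, 3, 1])
  .no .no .no)) .no (.red [.f 979 3 1, .f 971 1 3] 139 136 [3, 3, 3] [(138, 136, [3, 3]), (139,
  136, [3, 3, 3])]) .no .no (.red [.t 1088 3 2, .f 961 3 5, .f 969 5 3, .t 970 3 1] 138 136 [3, 3]
  [(137, 121, [1]), (138, 136, [3, 3])]))) .no .no (.br 843 .no (.con 136 [2, 2, 3, 3]) (.red [.t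
  1088 3 2, .f 961 3 5, .f 841 5 1, .t 842 1 3] 122 136 [2, 3, 3] [(122, 136, [2, 3, 3]), (137,
  121, [1])]) .no .no .no)) .no .no .no) (.red [.t 690 1 3] 103 136 [2, 2, 4] [(103, 136, [2, 2,
  4])]) .no (.red [.f 698 5 1, .f 690 1 3] 103 136 [2, 2, 4] [(103, 136, [2, 2, 4])])) .no)) .no)
  .no (.red [.t 952 3 2, .t 1072 2 3, .f 816 3 1, .f 824 1 3] 119 136 [2, 4] [(119, 136, [2, 4]),
  (135, 136, [4])]) .no .no) .no (.use 36) (.red [.f 818 5 3, .f 818 3 1] 119 136 [2, 4] [(119,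
  136, [2, 4])]) (.red [.t 953 2 4] 119 136 [2, 4] [(119, 136, [2, 4])])

def c22t804 : Tr4 :=
  .br 969 .no (.use 790) (.use 149) .no .no (.br 945 .no (.use 797) .no (.br 834 .no (.br 833 .no
  (.hor [.f 705 1 5] []) (.use 155) .no .no (.br 842 .no (.red [.f 706 1 3] 105 136 [2, 2, 3]
  [(105, 136, [2, 2, 3])]) (.use 157) .no (.red [.t 1088 3 2, .t 962 3 2] 121 136 [2, 3] [(121,
  136, [2, 3]), (137, 121, [1])]) (.br 954 .no (.hor [.f 825 1 5] []) .no (.br 826 .no (.use 748)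
  .no (.red [.f 818 3 1, .f 825 1 5] 119 136 [2, 4] [(119, 136, [2, 4])]) (.br 947 (.use 803)
  (.red [.t 952 3 2, .t 832 1 4, .t 946 3 2] 119 136 [2, 4] [(119, 136, [2, 4])]) .no (.use 800)
  .no .no) .no) .no .no))) (.red [.f 834 3 1, .f 834 1 5] 121 136 [2, 3] [(121, 136, [2, 3])])
  (.br 946 (.con 136 [2, 4, 1, 3]) (.con 136 [2, 4, 1, 3]) (.br 832 .no (.use 211) (.red [.t 961 1
  3, .t 825 1 3, .f 952 3 5, .f 960 5 3, .f 832 3 1] 121 136 [2, 3] [(120, 104, [1]), (121, 136,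
  [2, 3]), (137, 121, [1])]) (.con 136 [2, 2]) (.br 842 .no (.br 706 .no (.br 705 .no (.hor [.f
  577 1 5] []) (.red [.t 952 3 2, .f 825 3 5, .t 713 4 1] 105 136 [2, 2, 3] [(105, 136, [2, 2,
  3]), (120, 104, [1])]) (.br 824 .no (.con 136 [2, 2, 2]) .no (.red [.t 952 3 2, .t 1072 2 3, .f
  816 3 1, .f 824 1 3] 119 136 [2, 4] [(119, 136, [2, 4]), (135, 136, [4])]) .no .no) .no (.br 698
  .no (.red [.f 570 1 3] 88 136 [2, 2, 2] [(88, 136, [2, 2, 2])]) .no (.br 824 .no (.br 697 .no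
  (.con 136 [2, 2, 2, 4]) .no (.use 774) .no .no) .no (.red [.t 952 3 2, .t 1072 2 3, .f 816 3 1,
  .f 824 1 3] 119 136 [2, 4] [(119, 136, [2, 4]), (135, 136, [4])]) .no .no) (.br 824 .no (.con
  136 [2, 2, 4]) .no (.use 769) .no .no) (.use 264))) .no (.red [.f 698 3 1, .f 706 1 3] 105 136
  [2, 2, 3] [(104, 136, [2, 2]), (105, 136, [2, 2, 3])]) (.use 755) (.red [.t 952 3 2, .f 825 3 5,
  .f 705 5 1, .f 706 1 3] 105 136 [2, 2, 3] [(105, 136, [2, 2, 3]), (120, 104, [1])])) (.use 157)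
  .no (.red [.t 1088 3 2, .t 962 3 2] 121 136 [2, 3] [(121, 136, [2, 3]), (137, 121, [1])]) (.red
  [.t 1088 3 2, .t 952 3 2, .f 825 3 5, .f 833 5 3, .f 834 3 1] 121 136 [2, 3] [(120, 104, [1]),
  (121, 136, [2, 3]), (137, 121, [1])])) .no) (.con 136 [2, 4, 1, 3]) (.con 136 [2, 4, 1, 3]) .no)
  .no (.br 832 .no (.use 798) (.red [.t 961 1 3, .f 833 5 1, .t 832 3 1] 121 136 [2, 3] [(121,
  136, [2, 3]), (137, 121, [1])]) (.red [.f 824 3 1, .f 824 1 5, .t 1072 2 3, .f 953 1 3, .t 960 2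
  4] 136 136 [] [(135, 136, [4]), (136, 136, [])]) .no .no)) (.use 799) .no)

def c22t805 : Tr4 :=
  .br 833 .no (.hor [.f 705 1 5] []) (.use 155) .no .no .no

def c22t806 : Tr4 :=
  .br 969 (.br 968 .no (.con 136 [2, 3, 3]) (.br 842 .no (.red [.f 706 1 3] 105 136 [2, 2, 3]
  [(105, 136, [2, 2, 3])]) (.br 841 .no (.use 275) (.hor [.f 841 3 5] []) .no .no (.use 276)) .no
  (.red [.f 961 1 3, .t 962 3 2] 121 136 [2, 3] [(121, 136, [2, 3]), (137, 121, [1])]) (.br 954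
  .no (.hor [.f 825 1 5] []) .no (.br 826 .no (.use 748) .no (.red [.f 818 3 1, .f 825 1 5] 119
  136 [2, 4] [(119, 136, [2, 4])]) (.br 947 (.br 824 .no (.br 818 .no (.br 816 .no (.red [.f 688 1
  3] 103 136 [2, 2, 4] [(103, 136, [2, 2, 4])]) .no (.use 759) (.br 705 .no (.use 802) (.red [.t
  705 3 1] 105 136 [2, 2, 3] [(105, 136, [2, 2, 3])]) (.red [.t 696 1 3, .f 705 1 5, .f 833 5 3,
  .f 834 3 1] 121 136 [2, 3] [(104, 88, [1]), (121, 136, [2, 3])]) .no (.br 699 .no (.use 801)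
  (.br 840 .no (.red [.f 704 5 1, .f 704 1 3] 105 136 [2, 2, 3] [(105, 136, [2, 2, 3])]) (.br 843
  .no (.con 136 [2, 2, 3, 3]) (.red [.f 843 3 1, .f 835 1 3, .f 962 3 5] 122 136 [2, 3, 3] [(121,
  136, [2, 3]), (122, 136, [2, 3, 3])]) .no .no .no) .no .no .no) (.red [.t 690 1 3] 103 136 [2,
  2, 4] [(103, 136, [2, 2, 4])]) .no (.red [.f 698 5 1, .f 690 1 3] 103 136 [2, 2, 4] [(103, 136,
  [2, 2, 4])]))) .no) .no (.use 35) (.red [.f 818 5 3, .f 818 3 1] 119 136 [2, 4] [(119, 136, [2,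
  4])]) (.red [.t 953 2 4] 119 136 [2, 4] [(119, 136, [2, 4])])) .no (.red [.t 952 3 2, .t 1072 2
  3, .f 816 3 1, .f 824 1 3] 119 136 [2, 4] [(119, 136, [2, 4]), (135, 136, [4])]) .no .no) (.red
  [.t 952 3 2, .t 832 1 4, .t 946 3 2] 119 136 [2, 4] [(119, 136, [2, 4])]) .no (.use 800) .no
  .no) .no) .no .no)) .no .no .no) (.use 766) (.use 206) .no .no (.br 842 .no (.red [.f 706 1 3]
  105 136 [2, 2, 3] [(105, 136, [2, 2, 3])]) (.br 841 .no (.use 275) (.hor [.f 841 3 5] []) .no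
  .no (.use 276)) .no (.red [.t 1088 3 2, .t 962 3 2] 121 136 [2, 3] [(121, 136, [2, 3]), (137,
  121, [1])]) (.br 954 .no (.hor [.f 825 1 5] []) .no (.br 826 .no (.use 748) .no (.red [.f 818 3
  1, .f 825 1 5] 119 136 [2, 4] [(119, 136, [2, 4])]) (.br 947 (.br 818 .no (.br 824 .no (.br 816
  .no (.red [.f 688 1 3] 103 136 [2, 2, 4] [(103, 136, [2, 2, 4])]) .no (.use 759) (.br 705 .no
  (.use 802) (.red [.t 705 3 1] 105 136 [2, 2, 3] [(105, 136, [2, 2, 3])]) (.red [.t 696 1 3, .f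
  705 1 5, .f 833 5 3, .f 834 3 1] 121 136 [2, 3] [(104, 88, [1]), (121, 136, [2, 3])]) .no (.br
  699 .no (.use 801) (.br 843 .no (.br 840 .no (.red [.f 704 5 1, .f 704 1 3] 105 136 [2, 2, 3]
  [(105, 136, [2, 2, 3])]) (.con 136 [2, 2, 3, 3]) .no .no .no) (.red [.f 843 3 1, .f 835 1 3, .f
  962 3 5] 122 136 [2, 3, 3] [(121, 136, [2, 3]), (122, 136, [2, 3, 3])]) .no .no .no) (.red [.t
  690 1 3] 103 136 [2, 2, 4] [(103, 136, [2, 2, 4])]) .no (.red [.f 698 5 1, .f 690 1 3] 103 136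
  [2, 2, 4] [(103, 136, [2, 2, 4])]))) .no) .no (.red [.t 952 3 2, .t 1072 2 3, .f 816 3 1, .f 824
  1 3] 119 136 [2, 4] [(119, 136, [2, 4]), (135, 136, [4])]) .no .no) .no (.use 36) (.red [.f 818
  5 3, .f 818 3 1] 119 136 [2, 4] [(119, 136, [2, 4])]) (.red [.t 953 2 4] 119 136 [2, 4] [(119,
  136, [2, 4])])) (.red [.t 952 3 2, .t 832 1 4, .t 946 3 2] 119 136 [2, 4] [(119, 136, [2, 4])])
  .no (.use 800) .no .no) .no) .no .no))

def c22t807 : Tr4 :=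
  .br 832 .no (.use 210) (.use 805) (.use 256) (.use 806) .no

def c22t808 : Tr4 :=
  .br 842 .no .no (.hor [.f 841 3 5] []) .no .no .no

def c22t809 : Tr4 :=
  .br 824 .no (.use 775) .no (.br 817 .no (.br 827 .no (.br 697 .no (.hor [.f 569 1 5] []) .no .no
  .no (.br 704 .no (.br 578 .no (.use 781) (.red [.f 578 3 1] 89 136 [2, 2, 3, 2] [(89, 136, [2,
  2, 3, 2])]) .no (.con 136 [2, 2, 3, 2, 4]) (.red [.t 705 1 3, .f 577 5 1, .f 570 1 3, .f 698 3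
  1, .f 706 1 3] 88 136 [2, 2, 2] [(88, 136, [2, 2, 2]), (104, 136, [2, 2])])) (.con 136 [2, 2, 3,
  2]) .no .no .no)) .no (.use 776) .no .no) .no (.red [.f 809 3 1, .f 817 1 3] 119 136 [2, 4]
  [(118, 136, [2, 4, 4]), (119, 136, [2, 4])]) (.red [.t 953 2 4, .f 816 3 5] 119 136 [2, 4]
  [(119, 136, [2, 4])]) .no) .no .no

def c22t810 : Tr4 :=
  .br 833 .no (.br 698 .no (.br 706 .no (.red [.f 570 1 3, .f 698 3 1, .f 705 1 5] 104 136 [2, 2]
  [(88, 136, [2, 2, 2]), (104, 136, [2, 2])]) (.br 843 .no (.br 841 .no (.con 136 [2, 2, 3, 3])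
  (.use 808) .no (.use 809) .no) (.red [.f 843 3 1, .f 835 1 3, .f 962 3 5] 122 136 [2, 3, 3]
  [(121, 136, [2, 3]), (122, 136, [2, 3, 3])]) .no .no (.red [.t 1088 3 2, .t 962 3 2] 121 136 [2,
  3] [(121, 136, [2, 3]), (137, 121, [1])])) .no (.use 777) .no) (.red [.f 698 3 1, .f 705 1 5]
  104 136 [2, 2] [(104, 136, [2, 2])]) (.use 786) (.use 770) (.red [.t 833 2 4] 104 136 [2, 2]
  [(104, 136, [2, 2])])) (.hor [.f 832 3 5] []) .no .no .no

def c22t811 : Tr4 :=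
  .br 842 .no (.use 756) (.use 277) .no (.red [.t 962 3 2] 121 136 [2, 3] [(121, 136, [2, 3])])
  (.red [.t 952 3 2, .f 825 3 5, .f 833 5 3, .f 834 3 1] 121 136 [2, 3] [(120, 104, [1]), (121,
  136, [2, 3])])

def c22t812 : Tr4 :=
  .br 971 (.br 1097 (.br 1098 (.hor [.f 1097 1 5] []) .no (.br 969 .no (.use 790) (.use 149) .no
  .no (.br 842 .no (.br 834 .no (.red [.f 706 1 3, .f 834 3 1, .f 834 1 5] 121 136 [2, 3] [(105,
  136, [2, 2, 3]), (121, 136, [2, 3])]) .no (.br 945 .no (.red [.f 817 1 3] 119 136 [2, 4] [(119,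
  136, [2, 4])]) .no (.br 946 (.con 136 [2, 4, 1, 3]) (.con 136 [2, 4, 1, 3]) (.use 794) (.con 136
  [2, 4, 1, 3]) (.con 136 [2, 4, 1, 3]) .no) (.con 136 [2, 4, 1, 3]) .no) .no (.use 795)) (.use
  796) (.red [.f 834 3 1, .f 834 1 5] 121 136 [2, 3] [(121, 136, [2, 3])]) (.red [.t 1088 3 2, .t
  962 3 2] 121 136 [2, 3] [(121, 136, [2, 3]), (137, 121, [1])]) (.use 792))) .no .no .no) (.con
  136 [3, 3]) (.use 130) .no (.use 804) .no) (.red [.f 835 1 3] 121 136 [2, 3] [(121, 136, [2,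
  3])]) (.br 945 .no (.use 797) .no (.br 834 .no (.use 807) (.red [.f 834 3 1, .f 834 1 5] 121 136
  [2, 3] [(121, 136, [2, 3])]) (.br 946 (.con 136 [2, 4, 1, 3]) (.con 136 [2, 4, 1, 3]) (.br 832
  .no (.use 211) (.br 969 (.br 1099 (.red [.f 1091 1 3] 153 136 [3, 1] [(153, 136, [3, 1])]) .no
  (.use 189) .no .no (.br 833 .no (.br 698 .no (.br 706 .no (.red [.f 570 1 3, .f 698 3 1, .f 705
  1 5] 104 136 [2, 2] [(88, 136, [2, 2, 2]), (104, 136, [2, 2])]) (.br 843 .no (.br 842 .no .no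
  (.use 673) .no .no (.br 1224 (.red [.f 1216 1 3, .f 1088 3 1] 153 136 [3, 1] [(153, 136, [3,
  1]), (169, 136, [3, 1, 1])]) .no (.use 754) .no (.br 968 .no .no (.br 1104 (.red [.f 961 1 3, .f
  1088 3 5, .f 1096 5 1, .f 1096 1 3] 154 136 [3, 3, 1] [(137, 121, [1]), (154, 136, [3, 3, 1])])
  .no (.use 752) .no (.red [.t 968 3 1] 138 136 [3, 3] [(138, 136, [3, 3])]) .no) .no .no .no)
  .no)) (.red [.f 843 3 1, .f 835 1 3, .f 962 3 5] 122 136 [2, 3, 3] [(121, 136, [2, 3]), (122,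
  136, [2, 3, 3])]) .no .no (.red [.f 961 1 3, .t 962 3 2] 121 136 [2, 3] [(121, 136, [2, 3]),
  (137, 121, [1])])) .no (.use 777) .no) (.red [.f 698 3 1, .f 705 1 5] 104 136 [2, 2] [(104, 136,
  [2, 2])]) (.use 786) (.use 770) (.red [.t 833 2 4] 104 136 [2, 2] [(104, 136, [2, 2])])) (.hor
  [.f 832 3 5] []) .no .no .no)) (.use 787) (.use 206) .no .no (.use 810)) (.con 136 [2, 2]) (.use
  811) .no) (.con 136 [2, 4, 1, 3]) (.con 136 [2, 4, 1, 3]) .no) .no (.use 428)) (.use 799) .no)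
  .no .no .no

def c22t813 : Tr4 :=
  .br 833 .no (.br 698 .no (.br 706 .no (.red [.f 570 1 3, .f 698 3 1, .f 705 1 5] 104 136 [2, 2]
  [(88, 136, [2, 2, 2]), (104, 136, [2, 2])]) (.br 843 .no (.br 841 .no (.con 136 [2, 2, 3, 3])
  (.use 808) .no (.use 809) .no) (.red [.f 843 3 1, .f 835 1 3, .f 962 3 5] 122 136 [2, 3, 3]
  [(121, 136, [2, 3]), (122, 136, [2, 3, 3])]) .no .no (.red [.f 961 1 3, .t 962 3 2] 121 136 [2,
  3] [(121, 136, [2, 3]), (137, 121, [1])])) .no (.use 777) .no) (.red [.f 698 3 1, .f 705 1 5]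
  104 136 [2, 2] [(104, 136, [2, 2])]) (.use 786) (.use 770) (.red [.t 833 2 4] 104 136 [2, 2]
  [(104, 136, [2, 2])])) (.hor [.f 832 3 5] []) .no .no .no

def c22l28 : List Tr4 :=
  [c22t799, c22t800, c22t801, c22t802, c22t803, c22t804, c22t805, c22t806, c22t807, c22t808,
  c22t809, c22t810, c22t811, c22t812, c22t813]

theorem c22k28 : chkLF ⟨4, 0, 0, true, -8⟩ false 2 c22N 799 c22l28 = true := by decide +kernel

def c22t814 : Tr4 :=
  .br 1216 (.br 1217 (.hor [.f 1216 1 5] []) .no (.br 1218 (.con 136 [3, 1, 1]) .no (.hor [.f 1217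
  3 5] []) (.con 136 [3, 1, 1]) .no .no) (.br 969 (.br 971 (.con 136 [3, 3]) (.red [.f 835 1 3]
  121 136 [2, 3] [(121, 136, [2, 3])]) (.use 758) .no .no .no) (.br 834 .no (.use 767) (.red [.f
  834 3 1, .f 834 1 5] 121 136 [2, 3] [(121, 136, [2, 3])]) (.use 789) .no (.red [.t 969 2 4, .f
  834 1 5] 121 136 [2, 3] [(121, 136, [2, 3])])) (.use 207) .no .no (.red [.t 1088 3 2, .t 1208 2
  3, .f 952 3 1, .f 960 1 3] 136 136 [] [(136, 136, []), (152, 136, [1])])) (.use 812) .no) .no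
  (.red [.f 1088 3 1, .f 1080 1 3, .f 952 3 1, .f 960 1 5] 153 136 [3, 1] [(136, 136, []), (152,
  136, [1]), (153, 136, [3, 1])]) .no (.br 945 .no (.use 797) .no (.br 969 (.br 971 (.con 136 [3,
  3]) (.red [.f 835 1 3] 121 136 [2, 3] [(121, 136, [2, 3])]) (.br 834 .no (.use 807) (.red [.f
  834 3 1, .f 834 1 5] 121 136 [2, 3] [(121, 136, [2, 3])]) (.br 946 (.con 136 [2, 4, 1, 3]) (.con
  136 [2, 4, 1, 3]) (.br 832 .no (.use 211) (.use 813) (.con 136 [2, 2]) (.use 757) .no) (.con 136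
  [2, 4, 1, 3]) (.con 136 [2, 4, 1, 3]) .no) .no (.use 428)) .no .no .no) (.br 834 .no (.use 767)
  (.red [.f 834 3 1, .f 834 1 5] 121 136 [2, 3] [(121, 136, [2, 3])]) (.br 1097 (.red [.t 1096 4
  1] 153 136 [3, 1] [(153, 136, [3, 1])]) .no (.br 832 .no (.use 211) (.br 946 (.con 136 [2, 4, 1,
  3]) (.con 136 [2, 4, 1, 3]) (.use 788) (.con 136 [2, 4, 1, 3]) (.con 136 [2, 4, 1, 3]) .no)
  (.con 136 [2, 2]) (.red [.t 952 3 2, .f 825 3 5, .t 969 2 4] 121 136 [2, 3] [(120, 104, [1]),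
  (121, 136, [2, 3])]) .no) .no (.use 304) .no) .no (.red [.t 969 2 4, .f 834 1 5] 121 136 [2, 3]
  [(121, 136, [2, 3])])) (.use 207) .no .no (.red [.t 1088 3 2, .f 1088 5 1, .f 1080 1 3, .f 952 3
  1, .f 960 1 3] 136 136 [] [(136, 136, []), (152, 136, [1])])) (.use 799) .no) .no

def c22t815 : Tr4 :=
  .br 969 (.use 813) (.use 787) (.use 206) .no .no (.use 810)

def c22t816 : Tr4 :=
  .br 946 (.con 136 [2, 4, 1, 3]) (.con 136 [2, 4, 4]) (.use 18) (.con 136 [2, 4, 1, 3]) (.con 136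
  [2, 4, 4]) .no

def c22t817 : Tr4 :=
  .br 946 (.con 136 [2, 4, 1, 3]) .no (.red [.f 818 3 1, .f 825 1 5] 119 136 [2, 4] [(119, 136,
  [2, 4])]) (.con 136 [2, 4, 1, 3]) (.con 136 [2, 4, 1, 3]) .no

def c22t818 : Tr4 :=
  .br 946 (.con 136 [2, 4, 1, 3]) (.con 136 [2, 4, 4]) (.use 30) (.con 136 [2, 4, 1, 3]) (.con 136
  [2, 4, 4]) .no

def c22t819 : Tr4 :=
  .br 832 .no (.use 211) (.br 947 (.con 136 [2, 4, 4]) (.use 784) .no (.con 136 [2, 4, 4]) .no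
  .no) (.con 136 [2, 2]) (.red [.t 952 3 2, .f 825 3 5, .t 969 2 4] 121 136 [2, 3] [(120, 104,
  [1]), (121, 136, [2, 3])]) .no

def c22t820 : Tr4 :=
  .br 944 .no (.br 834 .no (.br 826 (.hor [.f 825 1 5] []) (.use 816) .no (.use 817) (.use 818)
  .no) (.red [.f 834 3 1, .f 834 1 5] 121 136 [2, 3] [(121, 136, [2, 3])]) (.br 946 (.con 136 [2,
  4, 1, 3]) (.con 136 [2, 4, 4]) (.use 819) (.con 136 [2, 4, 1, 3]) (.con 136 [2, 4, 4]) .no) .no
  (.red [.t 969 2 4, .f 834 1 5] 121 136 [2, 3] [(121, 136, [2, 3])])) .no (.hor [.f 936 3 5] [])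
  .no .no

def c22t821 : Tr4 :=
  .br 706 .no (.use 265) .no (.red [.f 698 3 1, .f 706 1 3] 105 136 [2, 2, 3] [(104, 136, [2, 2]),
  (105, 136, [2, 2, 3])]) (.br 827 .no (.red [.t 826 3 2, .f 706 1 3] 105 136 [2, 2, 3] [(104,
  136, [2, 2]), (105, 136, [2, 2, 3])]) .no (.con 136 [2, 4, 2]) .no .no) (.red [.t 952 3 2, .f
  825 3 5, .f 705 5 1, .f 706 1 3] 105 136 [2, 2, 3] [(105, 136, [2, 2, 3]), (120, 104, [1])])

def c22t822 : Tr4 :=
  .br 971 (.br 1097 (.br 1091 (.br 944 .no (.br 826 (.hor [.f 825 1 5] []) (.use 816) (.br 946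
  (.con 136 [2, 4, 1, 3]) (.con 136 [2, 4, 4]) (.br 1098 (.hor [.f 1097 1 5] []) .no (.br 969 .no
  (.use 819) (.use 149) .no .no (.use 794)) .no .no .no) (.con 136 [2, 4, 1, 3]) (.con 136 [2, 4,
  4]) .no) (.use 817) (.use 818) .no) .no (.hor [.f 936 3 5] []) .no .no) .no .no .no .no .no)
  (.con 136 [3, 3]) (.use 130) .no (.br 969 .no (.use 820) (.use 149) .no .no (.br 944 .no (.br
  826 (.hor [.f 825 1 5] []) (.use 816) (.br 832 .no (.use 211) (.red [.t 961 1 3, .t 825 1 3, .f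
  952 3 5, .f 960 5 3, .f 832 3 1] 121 136 [2, 3] [(120, 104, [1]), (121, 136, [2, 3]), (137, 121,
  [1])]) (.con 136 [2, 2]) (.br 946 (.con 136 [2, 4, 1, 3]) (.con 136 [2, 4, 4]) (.br 842 .no
  (.use 821) (.use 157) .no (.red [.t 1088 3 2, .t 962 3 2] 121 136 [2, 3] [(121, 136, [2, 3]),
  (137, 121, [1])]) (.red [.t 1088 3 2, .t 952 3 2, .f 825 3 5, .f 833 5 3, .f 834 3 1] 121 136
  [2, 3] [(120, 104, [1]), (121, 136, [2, 3]), (137, 121, [1])])) (.con 136 [2, 4, 1, 3]) (.con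
  136 [2, 4, 4]) .no) .no) (.use 817) (.use 818) .no) .no (.hor [.f 936 3 5] []) .no .no)) .no)
  (.red [.f 835 1 3] 121 136 [2, 3] [(121, 136, [2, 3])]) (.br 834 .no (.br 832 .no (.use 210)
  (.use 805) (.use 256) (.br 826 (.hor [.f 825 1 5] []) (.br 946 (.con 136 [2, 4, 1, 3]) (.con 136
  [2, 4, 1, 3]) (.use 19) (.con 136 [2, 4, 1, 3]) (.con 136 [2, 4, 1, 3]) .no) .no (.use 817) (.br
  946 (.con 136 [2, 4, 1, 3]) (.con 136 [2, 4, 1, 3]) (.br 947 (.br 944 .no (.con 136 [2, 4, 4])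
  .no (.hor [.f 936 3 5] []) .no .no) (.red [.t 952 3 2, .t 832 1 4, .t 946 3 2] 119 136 [2, 4]
  [(119, 136, [2, 4])]) .no (.use 800) .no .no) (.con 136 [2, 4, 1, 3]) (.con 136 [2, 4, 1, 3])
  .no) .no) .no) (.red [.f 834 3 1, .f 834 1 5] 121 136 [2, 3] [(121, 136, [2, 3])]) (.br 946
  (.con 136 [2, 4, 1, 3]) (.con 136 [2, 4, 1, 3]) (.br 832 .no (.use 211) (.use 815) (.con 136 [2,
  2]) (.br 969 (.br 944 .no (.br 842 .no (.use 821) (.use 277) .no (.red [.f 961 1 3, .t 962 3 2]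
  121 136 [2, 3] [(121, 136, [2, 3]), (137, 121, [1])]) (.red [.f 961 1 3, .t 952 3 2, .f 825 3 5,
  .f 833 5 3, .f 834 3 1] 121 136 [2, 3] [(120, 104, [1]), (121, 136, [2, 3]), (137, 121, [1])]))
  .no (.hor [.f 936 3 5] []) .no .no) (.use 820) (.use 206) .no .no (.br 944 .no (.br 842 .no
  (.use 821) (.use 277) .no (.red [.t 1088 3 2, .t 962 3 2] 121 136 [2, 3] [(121, 136, [2, 3]),
  (137, 121, [1])]) (.red [.t 1088 3 2, .t 952 3 2, .f 825 3 5, .f 833 5 3, .f 834 3 1] 121 136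
  [2, 3] [(120, 104, [1]), (121, 136, [2, 3]), (137, 121, [1])])) .no (.hor [.f 936 3 5] []) .no
  .no)) .no) (.con 136 [2, 4, 1, 3]) (.con 136 [2, 4, 1, 3]) .no) .no (.use 428)) .no .no .no

def c22t823 : Tr4 :=
  .br 1072 (.hor [.f 1072 1 3, .f 1072 3 5] [(151, 136, [4, 1])]) (.br 1091 (.use 814) .no (.br
  945 .no (.use 797) .no (.br 971 .no (.red [.f 835 1 3] 121 136 [2, 3] [(121, 136, [2, 3])]) (.br
  834 .no (.use 807) (.red [.f 834 3 1, .f 834 1 5] 121 136 [2, 3] [(121, 136, [2, 3])]) (.br 946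
  (.con 136 [2, 4, 1, 3]) (.con 136 [2, 4, 1, 3]) (.br 832 .no (.use 211) (.use 815) (.con 136 [2,
  2]) (.use 811) .no) (.con 136 [2, 4, 1, 3]) (.con 136 [2, 4, 1, 3]) .no) .no (.use 428)) .no .no
  .no) (.use 799) .no) .no .no .no) .no (.br 945 .no (.use 797) .no (.use 822) (.use 799) (.br 832
  .no (.br 834 .no (.use 210) (.red [.f 834 3 1, .f 834 1 5] 121 136 [2, 3] [(121, 136, [2, 3])])
  (.use 211) .no (.br 971 (.br 969 (.con 136 [3, 3]) (.red [.t 969 2 4, .f 834 1 5] 121 136 [2, 3]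
  [(121, 136, [2, 3])]) (.use 149) .no .no (.use 798)) (.red [.f 835 1 3] 121 136 [2, 3] [(121,
  136, [2, 3])]) (.use 428) .no .no .no)) (.br 834 .no (.use 805) (.red [.f 834 3 1, .f 834 1 5]
  121 136 [2, 3] [(121, 136, [2, 3])]) (.br 946 (.con 136 [2, 4, 1, 3]) (.con 136 [2, 4, 1, 3])
  (.use 268) (.con 136 [2, 4, 1, 3]) (.con 136 [2, 4, 1, 3]) .no) .no (.br 971 (.br 969 (.con 136
  [3, 3]) (.red [.t 969 2 4, .f 832 3 5] 121 136 [2, 3] [(121, 136, [2, 3])]) (.use 149) .no .no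
  (.br 1097 (.br 1098 (.hor [.f 1097 1 5] []) .no (.br 1091 (.br 842 .no (.use 795) (.use 796) .no
  (.red [.t 1088 3 2, .t 962 3 2] 121 136 [2, 3] [(121, 136, [2, 3]), (137, 121, [1])]) (.use
  792)) .no .no .no .no .no) .no .no .no) .no (.use 130) .no (.red [.t 961 1 3, .f 833 5 1, .t 832
  3 1] 121 136 [2, 3] [(121, 136, [2, 3]), (137, 121, [1])]) .no)) (.red [.f 835 1 3] 121 136 [2,
  3] [(121, 136, [2, 3])]) (.use 428) .no .no .no)) (.red [.f 824 3 1, .f 824 1 5, .f 944 5 3, .f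
  945 3 1, .f 953 1 3, .t 960 2 4] 136 136 [] [(135, 136, [4]), (136, 136, [])]) (.red [.t 952 3
  2, .f 944 5 3, .f 945 3 1, .f 953 1 3, .f 825 3 1] 136 136 [] [(135, 136, [4]), (136, 136, [])])
  .no)) .no .no

def c22t824 : Tr4 :=
  .br 962 .no (.br 954 .no (.red [.f 826 1 3, .f 954 3 1, .f 954 1 5] 136 136 [] [(120, 136, [2]),
  (136, 136, [])]) .no (.br 953 (.red [.f 953 1 3, .f 952 3 5] 136 136 [] [(136, 136, [])]) (.br
  963 (.red [.f 955 1 3] 136 136 [] [(136, 136, [])]) (.hor [.f 834 1 5] []) (.br 1091 (.br 1080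
  (.br 1081 (.hor [.f 1080 1 5] []) .no .no (.use 46) .no .no) .no (.red [.f 952 3 1, .f 960 1 5]
  136 136 [] [(136, 136, [])]) (.br 1099 (.red [.f 1091 1 3, .f 963 3 1, .f 955 1 3, .f 1082 3 5]
  136 136 [] [(136, 136, []), (137, 136, [3]), (153, 136, [3, 1])]) .no (.br 1081 (.br 826 .no
  (.br 1088 (.use 72) .no (.br 827 .no (.hor [.f 698 1 5] []) (.use 83) (.use 71) .no .no) .no .no
  .no) .no (.red [.f 818 3 1, .f 825 1 5] 119 136 [2, 4] [(119, 136, [2, 4])]) (.use 94) .no) .no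
  .no (.hor [.f 1072 3 5] []) .no .no) .no .no (.br 1081 (.br 826 .no (.br 1088 (.use 72) .no (.br
  1210 (.use 78) .no (.red [.f 1082 3 1, .f 1090 1 5, .f 1090 5 3, .f 963 3 1, .f 955 1 3] 136 136
  [] [(136, 136, []), (137, 136, [3]), (152, 136, [1])]) (.br 827 .no (.hor [.f 698 1 5] []) (.br
  1075 (.dom 151 136 [4, 1]) (.red [.f 947 1 3, .f 946 3 5, .t 834 1 4, .f 954 3 1] 136 136 []
  [(120, 136, [2]), (135, 119, [1]), (136, 136, [])]) .no (.br 1073 (.red [.f 1073 1 3, .f 1072 3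
  5] 151 136 [4, 1] [(151, 136, [4, 1])]) (.use 59) .no (.use 75) (.red [.t 1209 2 4, .f 1072 3 5]
  151 136 [4, 1] [(151, 136, [4, 1])]) .no) .no (.red [.t 954 4 1, .t 834 1 4, .f 954 3 1] 136 136
  [] [(120, 136, [2]), (135, 119, [1]), (136, 136, [])])) (.use 71) .no .no) (.red [.t 1090 4 1,
  .f 1090 5 3, .f 963 3 1, .f 955 1 3] 136 136 [] [(136, 136, []), (137, 136, [3]), (152, 136,
  [1])]) .no) .no .no .no) .no (.red [.f 818 3 1, .f 825 1 5] 119 136 [2, 4] [(119, 136, [2, 4])])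
  (.use 94) .no) .no .no (.hor [.f 1072 3 5] []) .no .no)) (.red [.t 960 4 1] 136 136 [] [(136,
  136, [])]) .no) .no (.red [.f 963 3 1, .f 955 1 3, .f 1082 3 5] 136 136 [] [(136, 136, []),
  (137, 136, [3])]) .no .no .no) .no .no .no) .no (.hor [.f 945 3 5] []) .no .no) .no (.red [.t
  1089 2 4, .f 952 3 5] 136 136 [] [(136, 136, [])])) (.br 963 (.red [.f 955 1 3] 136 136 []
  [(136, 136, [])]) (.br 1081 (.br 1080 (.hor [.f 1080 1 5] []) .no (.red [.f 952 3 1, .f 960 1 5]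
  136 136 [] [(136, 136, [])]) (.br 1091 (.use 310) .no (.br 971 .no (.red [.f 835 1 3] 121 136
  [2, 3] [(121, 136, [2, 3])]) (.br 1088 (.br 1208 (.use 429) .no .no (.red [.f 1072 3 1, .f 1080
  1 5] 151 136 [4, 1] [(151, 136, [4, 1])]) .no .no) .no (.use 747) .no .no .no) .no .no .no) .no
  .no .no) .no .no) (.red [.f 953 1 3, .f 952 3 5] 136 136 [] [(136, 136, [])]) .no (.br 1080 (.br
  1088 (.red [.f 1080 1 3, .f 952 3 1, .f 960 1 5] 136 136 [] [(136, 136, []), (152, 136, [1])])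
  .no (.br 953 .no (.use 823) .no (.red [.f 945 3 1, .f 953 1 3] 136 136 [] [(135, 136, [4]),
  (136, 136, [])]) (.red [.t 1089 2 4, .f 952 3 5] 136 136 [] [(136, 136, [])]) .no) .no .no .no)
  .no (.red [.f 952 3 1, .f 960 1 5] 136 136 [] [(136, 136, [])]) (.hor [.f 1072 3 5] []) .no .no)
  .no (.red [.t 960 4 1] 136 136 [] [(136, 136, [])])) (.hor [.f 962 3 5] []) .no .no .no) (.red
  [.f 954 3 1, .f 954 1 5] 136 136 [] [(136, 136, [])]) (.red [.t 1082 3 2, .f 961 1 5] 136 136 []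
  [(136, 136, [])]) .no

def c22l29 : List Tr4 :=
  [c22t814, c22t815, c22t816, c22t817, c22t818, c22t819, c22t820, c22t821, c22t822, c22t823,
  c22t824]

theorem c22k29 : chkLF ⟨4, 0, 0, true, -8⟩ false 2 c22N 814 c22l29 = true := by decide +kernel

end Pool.Agent.FT4D
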