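import Pool.Agent.FT4D.ChainF4
import Pool.Agent.FT4D.Tr_c22_0
import Pool.Agent.FT4D.Tr_c22_1
import Pool.Agent.FT4D.Tr_c22_2
import Pool.Agent.FT4D.Tr_c22_3
import Pool.Agent.FT4D.Tr_c22_4

/-!
# Four levels: the chunks of the trees `c22` together
-/

namespace Pool.Agent.FT4D

theorem c22H : Holds ⟨4, 0, 0, true, -8⟩ false 2 [] := by
  have h0 := chStart ⟨4, 0, 0, true, -8⟩ false 2 c22N
  have h1 := chStepF c22l0 32 h0 c22k0 (by decide +kernel) (by decide +kernel)
  have h2 := chStepF c22l1 82 h1 c22k1 (by decide +kernel) (by decide +kernel)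
  have h3 := chStepF c22l2 108 h2 c22k2 (by decide +kernel) (by decide +kernel)
  have h4 := chStepF c22l3 151 h3 c22k3 (by decide +kernel) (by decide +kernel)
  have h5 := chStepF c22l4 184 h4 c22k4 (by decide +kernel) (by decide +kernel)
  have h6 := chStepF c22l5 204 h5 c22k5 (by decide +kernel) (by decide +kernel)
  have h7 := chStepF c22l6 253 h6 c22k6 (by decide +kernel) (by decide +kernel)
  have h8 := chStepF c22l7 299 h7 c22k7 (by decide +kernel) (by decide +kernel)
  have h9 := chStepF c22l8 310 h8 c22k8 (by decide +kernel) (by decide +kernel)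
  have h10 := chStepF c22l9 338 h9 c22k9 (by decide +kernel) (by decide +kernel)
  have h11 := chStepF c22l10 374 h10 c22k10 (by decide +kernel) (by decide +kernel)
  have h12 := chStepF c22l11 411 h11 c22k11 (by decide +kernel) (by decide +kernel)
  have h13 := chStepF c22l12 429 h12 c22k12 (by decide +kernel) (by decide +kernel)
  have h14 := chStepF c22l13 450 h13 c22k13 (by decide +kernel) (by decide +kernel)
  have h15 := chStepF c22l14 485 h14 c22k14 (by decide +kernel) (by decide +kernel)
  have h16 := chStepF c22l15 515 h15 c22k15 (by decide +kernel) (by decide +kernel)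
  have h17 := chStepF c22l16 549 h16 c22k16 (by decide +kernel) (by decide +kernel)
  have h18 := chStepF c22l17 586 h17 c22k17 (by decide +kernel) (by decide +kernel)
  have h19 := chStepF c22l18 612 h18 c22k18 (by decide +kernel) (by decide +kernel)
  have h20 := chStepF c22l19 635 h19 c22k19 (by decide +kernel) (by decide +kernel)
  have h21 := chStepF c22l20 645 h20 c22k20 (by decide +kernel) (by decide +kernel)
  have h22 := chStepF c22l21 668 h21 c22k21 (by decide +kernel) (by decide +kernel)
  have h23 := chStepF c22l22 694 h22 c22k22 (by decide +kernel) (by decide +kernel)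
  have h24 := chStepF c22l23 720 h23 c22k23 (by decide +kernel) (by decide +kernel)
  have h25 := chStepF c22l24 736 h24 c22k24 (by decide +kernel) (by decide +kernel)
  have h26 := chStepF c22l25 747 h25 c22k25 (by decide +kernel) (by decide +kernel)
  have h27 := chStepF c22l26 773 h26 c22k26 (by decide +kernel) (by decide +kernel)
  have h28 := chStepF c22l27 799 h27 c22k27 (by decide +kernel) (by decide +kernel)
  have h29 := chStepF c22l28 814 h28 c22k28 (by decide +kernel) (by decide +kernel)
  have h30 := chStepF c22l29 825 h29 c22k29 (by decide +kernel) (by decide +kernel)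
  exact chEnd h30 824 (by decide +kernel) (by decide +kernel)

end Pool.Agent.FT4D
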