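import Pool.Agent.FT4D.Tab_c27

/-!
# Four levels: decision trees (found by a computer search)
-/

namespace Pool.Agent.FT4D

def c27t0 : Tr4 :=
  .br 1219 (.con 136 [1, 3, 1]) .no (.hor [.f 1218 3 5] []) (.con 136 [1, 3, 1]) .no .no

def c27t1 : Tr4 :=
  .br 944 .no .no .no (.red [.f 808 3 1] 118 136 [2, 4, 4] [(118, 136, [2, 4, 4])]) .no .no

def c27t2 : Tr4 :=
  .br 816 (.dom 119 136 [2, 4]) (.con 136 [2, 4, 2, 4]) .no (.use 1) .no .no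

def c27t3 : Tr4 :=
  .br 817 .no (.hor [.f 689 1 5] []) .no (.con 136 [2, 4, 2, 4]) .no (.con 136 [2, 4, 2, 4])

def c27t4 : Tr4 :=
  .br 819 .no (.hor [.f 690 1 5] []) .no (.br 824 .no (.br 825 .no (.hor [.f 696 1 5] []) .no
  (.use 2) .no .no) .no (.con 136 [2, 4, 4, 2]) (.use 3) .no) .no .no

def c27t5 : Tr4 :=
  .br 696 (.hor [.f 696 1 5] []) (.con 136 [2, 2, 4]) (.con 136 [2, 2, 4]) (.con 136 [2, 2, 4])
  .no .no

def c27t6 : Tr4 :=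
  .br 819 .no (.hor [.f 690 1 5] []) .no (.use 3) .no .no

def c27t7 : Tr4 :=
  .br 819 .no (.hor [.f 690 1 5] []) .no (.use 2) .no .no

def c27t8 : Tr4 :=
  .br 825 .no (.use 5) .no (.br 944 (.hor [.f 944 1 5] []) (.dom 119 136 [2, 4]) .no (.br 1072
  (.br 824 .no (.use 7) .no (.hor [.f 816 3 5] []) .no .no) .no .no (.hor [.f 936 3 1, .f 944 1 5]
  [(134, 118, [1])]) .no .no) .no .no) .no (.use 6)

def c27t9 : Tr4 :=
  .br 833 .no (.br 1072 (.use 4) (.hor [.f 944 1 5] []) .no (.br 944 .no (.br 825 .no (.use 5) .no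
  (.dom 119 136 [2, 4]) .no (.use 6)) .no (.hor [.f 936 3 1, .f 944 1 5] [(134, 118, [1])]) .no
  .no) .no .no) (.use 8) (.red [.f 825 3 1, .f 825 1 5, .t 1073 2 3, .f 954 1 3, .t 961 2 4] 136
  136 [] [(135, 136, [4]), (136, 136, [])]) (.red [.t 953 3 2, .t 1073 2 3, .f 954 1 3, .f 826 3
  1] 136 136 [] [(135, 136, [4]), (136, 136, [])]) .no

def c27t10 : Tr4 :=
  .br 944 (.con 136 [2, 4, 4]) (.hor [.f 816 1 5] []) .no (.con 136 [2, 4, 4]) .no .no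

def c27t11 : Tr4 :=
  .br 816 .no (.con 136 [2, 4, 2, 4]) .no (.red [.t 808 3 1, .f 937 3 5] 118 136 [2, 4, 4] [(118,
  136, [2, 4, 4])]) .no .no

def c27t12 : Tr4 :=
  .br 937 .no (.use 11) .no (.hor [.f 928 3 5] []) .no .no

def c27t13 : Tr4 :=
  .br 817 .no (.hor [.f 689 1 5] []) (.br 824 .no (.br 936 (.br 816 .no (.con 136 [2, 4, 2, 4])
  .no (.red [.t 1064 2 3, .f 808 3 1] 118 136 [2, 4, 4] [(118, 136, [2, 4, 4]), (134, 136, [4,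
  4])]) .no .no) (.con 136 [2, 4, 4, 2]) .no (.use 12) (.red [.f 936 5 3, .f 937 3 5, .t 825 4 1]
  119 136 [2, 4] [(119, 136, [2, 4])]) .no) .no (.con 136 [2, 4, 2, 4]) .no .no) (.con 136 [2, 4,
  2, 4]) .no (.con 136 [2, 4, 2, 4])

def c27t14 : Tr4 :=
  .br 819 .no (.hor [.f 690 1 5] []) .no (.use 13) .no .no

def c27t15 : Tr4 :=
  .br 945 .no (.use 10) .no (.hor [.f 937 3 5] []) .no (.use 14)

def c27t16 : Tr4 :=
  .br 1224 (.con 136 [3, 1, 1, 3]) .no (.hor [.f 1224 3 5] []) .no .no .no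

def c27t17 : Tr4 :=
  .br 1224 (.con 136 [3, 1, 1, 3]) .no (.hor [.f 1224 3 5] []) .no .no .no

def c27t18 : Tr4 :=
  .br 1227 (.red [.t 1338 2 3, .f 1219 1 3] 169 136 [3, 1, 1] [(168, 136, [1, 1]), (169, 136, [3,
  1, 1])]) .no (.use 17) .no .no .no

def c27t19 : Tr4 :=
  .br 1227 (.red [.t 1354 4 2, .f 1217 1 5] 169 136 [3, 1, 1] [(169, 136, [3, 1, 1])]) .no (.use
  17) .no .no .no

def c27t20 : Tr4 :=
  .br 1200 (.hor [.f 1200 1 5] []) .no .no .no .no .no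

def c27t21 : Tr4 :=
  .br 1064 (.use 20) .no .no (.red [.f 928 3 1, .f 936 1 5] 133 136 [4, 4, 4] [(133, 136, [4, 4,
  4])]) .no .no

def c27t22 : Tr4 :=
  .br 816 .no (.con 136 [2, 4, 2, 4]) .no (.br 936 (.red [.f 944 5 1, .f 936 1 3, .f 808 3 1] 118
  136 [2, 4, 4] [(118, 136, [2, 4, 4]), (134, 136, [4, 4])]) .no .no (.br 937 (.use 21) (.use 11)
  .no (.hor [.f 928 3 5] []) .no .no) (.red [.f 936 5 3, .f 808 3 1] 118 136 [2, 4, 4] [(118, 136,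
  [2, 4, 4])]) .no) .no .no

def c27t23 : Tr4 :=
  .br 819 .no (.hor [.f 690 1 5] []) .no (.br 817 .no (.hor [.f 689 1 5] []) (.br 824 .no (.br
  1201 (.use 22) .no .no (.hor [.f 1193 3 5] []) .no (.red [.f 1072 5 1, .f 1073 1 3, .f 1073 3 5,
  .t 961 4 1] 136 136 [] [(136, 136, []), (151, 135, [1])])) .no (.con 136 [2, 2, 4, 4]) .no .no)
  (.con 136 [2, 4, 2, 4]) .no (.con 136 [2, 4, 2, 4])) .no .no

def c27t24 : Tr4 :=
  .br 969 .no (.con 136 [3, 2, 3]) (.hor [.f 969 3 5] []) .no .no .no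

def c27t25 : Tr4 :=
  .br 1211 (.hor [.f 1210 1 5] []) .no .no .no .no .no

def c27t26 : Tr4 :=
  .br 1202 (.red [.f 1202 1 3, .f 1074 3 1, .f 1081 1 5, .t 961 4 1] 136 136 [] [(136, 136, []),
  (151, 135, [1]), (167, 168, [4])]) .no .no (.use 23) (.use 25) (.red [.t 1081 1 4, .t 961 4 1]
  136 136 [] [(136, 136, []), (151, 135, [1])])

def c27t27 : Tr4 :=
  .br 1208 (.use 26) .no .no (.red [.t 1208 4 2, .f 1073 3 5, .t 961 4 1] 136 136 [] [(136, 136,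
  []), (151, 135, [1])]) .no .no

def c27t28 : Tr4 :=
  .br 1200 (.hor [.f 1200 1 3, .t 1208 4 2, .f 1073 3 5] [(151, 136, [4, 1]), (167, 136, [4, 1,
  1])]) .no .no (.hor [.f 1192 3 5] []) .no .no

def c27t29 : Tr4 :=
  .br 819 .no (.hor [.f 690 1 5] []) .no (.br 817 .no (.hor [.f 689 1 5] []) (.br 824 .no (.br
  1201 (.use 22) .no .no (.use 28) (.red [.t 1081 1 4, .t 961 4 1] 136 136 [] [(136, 136, []),
  (151, 135, [1])]) (.red [.f 1072 5 1, .f 1073 1 3, .f 1073 3 5, .t 961 4 1] 136 136 [] [(136,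
  136, []), (151, 135, [1])])) .no (.con 136 [2, 2, 4, 4]) .no .no) (.con 136 [2, 4, 2, 4]) .no
  (.con 136 [2, 4, 2, 4])) .no .no

def c27t30 : Tr4 :=
  .br 1208 (.use 29) .no .no (.red [.t 1208 4 2, .f 1073 3 5, .t 961 4 1] 136 136 [] [(136, 136,
  []), (151, 135, [1])]) .no .no

def c27t31 : Tr4 :=
  .br 1073 (.red [.f 1073 1 3, .f 1073 3 5, .t 961 4 1] 136 136 [] [(136, 136, []), (151, 135,
  [1])]) (.use 9) .no (.use 15) .no (.br 945 .no (.use 10) .no (.hor [.f 937 3 5] []) .no (.use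
  30))

def c27t32 : Tr4 :=
  .br 819 .no (.hor [.f 690 1 5] []) .no (.br 817 .no (.hor [.f 689 1 5] []) .no (.con 136 [2, 4,
  2, 4]) .no (.con 136 [2, 4, 2, 4])) .no .no

def c27t33 : Tr4 :=
  .br 1203 (.hor [.f 1202 1 5] []) .no .no (.hor [.f 1067 3 1, .t 1074 3 1, .f 1081 1 5] [(150,
  136, [4, 4, 1]), (151, 136, [4, 1])]) .no .no

def c27t34 : Tr4 :=
  .br 1075 (.red [.t 1074 3 1, .f 1081 1 5, .t 961 4 1] 136 136 [] [(136, 136, []), (151, 135,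
  [1])]) .no .no (.br 1202 (.use 33) .no .no (.use 23) (.red [.f 1202 5 3, .f 1074 3 1, .f 1081 1
  5, .t 961 4 1] 136 136 [] [(136, 136, []), (151, 135, [1])]) (.red [.t 1081 1 4, .t 961 4 1] 136
  136 [] [(136, 136, []), (151, 135, [1])])) .no .no

def c27t35 : Tr4 :=
  .br 1208 (.use 34) .no .no (.red [.t 1208 4 2, .f 1073 3 5, .t 961 4 1] 136 136 [] [(136, 136,
  []), (151, 135, [1])]) .no .no

def c27t36 : Tr4 :=
  .br 1073 (.red [.f 1073 1 3, .f 1073 3 5, .t 961 4 1] 136 136 [] [(136, 136, []), (151, 135,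
  [1])]) .no .no (.use 14) .no (.use 35)

def c27t37 : Tr4 :=
  .br 824 .no (.br 816 .no (.con 136 [2, 4, 2, 4]) .no (.red [.f 936 5 3, .f 808 3 1] 118 136 [2,
  4, 4] [(118, 136, [2, 4, 4])]) .no .no) .no (.con 136 [2, 4, 2]) .no .no

def c27t38 : Tr4 :=
  .br 819 .no (.red [.f 691 1 3] 103 136 [2, 2, 4] [(103, 136, [2, 2, 4])]) .no (.br 937 .no (.red
  [.t 937 2 3, .f 818 1 3] 119 136 [2, 4] [(118, 136, [2, 4, 4]), (119, 136, [2, 4])]) .no (.br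
  936 (.br 824 .no (.br 816 .no (.con 136 [2, 2, 4, 4]) .no (.red [.t 1064 2 3, .f 808 3 1] 118
  136 [2, 4, 4] [(118, 136, [2, 4, 4]), (134, 136, [4, 4])]) .no .no) .no (.con 136 [2, 2, 4]) .no
  .no) (.con 136 [2, 4, 4, 2]) .no (.hor [.f 928 3 5] []) .no .no) .no (.use 37)) .no .no

def c27t39 : Tr4 :=
  .br 936 (.hor [.f 936 1 5] []) (.con 136 [4, 2, 4, 4]) .no (.use 21) .no .no

def c27t40 : Tr4 :=
  .br 819 .no (.red [.f 691 1 3] 103 136 [2, 2, 4] [(103, 136, [2, 2, 4])]) .no (.br 937 (.use 39)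
  (.red [.t 937 2 3, .f 818 1 3] 119 136 [2, 4] [(118, 136, [2, 4, 4]), (119, 136, [2, 4])]) .no
  (.br 936 (.br 696 (.br 816 .no (.con 136 [2, 2, 4, 4]) .no (.red [.f 944 5 1, .f 936 1 3, .f 808
  3 1] 118 136 [2, 4, 4] [(118, 136, [2, 4, 4]), (134, 136, [4, 4])]) .no .no) (.con 136 [2, 2,
  4]) (.con 136 [2, 2, 4]) (.con 136 [2, 2, 4]) (.con 136 [2, 2, 4]) .no) (.con 136 [2, 4, 4, 2])
  .no (.hor [.f 928 3 5] []) .no .no) .no (.use 37)) .no .no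

def c27t41 : Tr4 :=
  .br 1208 (.br 1201 (.use 40) .no .no (.use 28) (.red [.t 1081 1 4, .t 961 4 1] 136 136 [] [(136,
  136, []), (151, 135, [1])]) (.red [.f 1072 5 1, .f 1073 1 3, .f 1073 3 5, .t 961 4 1] 136 136 []
  [(136, 136, []), (151, 135, [1])])) .no .no (.red [.t 1208 4 2, .f 1073 3 5, .t 961 4 1] 136 136
  [] [(136, 136, []), (151, 135, [1])]) .no .no

def c27t42 : Tr4 :=
  .br 1201 (.use 40) .no .no (.hor [.f 1193 3 5] []) .no (.red [.f 1072 5 1, .f 1073 1 3, .f 1073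
  3 5, .t 961 4 1] 136 136 [] [(136, 136, []), (151, 135, [1])])

def c27t43 : Tr4 :=
  .br 1075 (.red [.t 1074 3 1, .f 1081 1 5, .t 961 4 1] 136 136 [] [(136, 136, []), (151, 135,
  [1])]) .no .no (.br 1202 (.use 33) .no .no (.use 42) (.red [.f 1202 5 3, .f 1074 3 1, .f 1081 1
  5, .t 961 4 1] 136 136 [] [(136, 136, []), (151, 135, [1])]) (.red [.t 1081 1 4, .t 961 4 1] 136
  136 [] [(136, 136, []), (151, 135, [1])])) .no .no

def c27t44 : Tr4 :=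
  .br 1208 (.br 1210 (.br 1202 (.red [.f 1202 1 3, .f 1074 3 1, .f 1081 1 5, .t 961 4 1] 136 136
  [] [(136, 136, []), (151, 135, [1]), (167, 168, [4])]) .no .no (.use 42) (.use 25) (.red [.t
  1081 1 4, .t 961 4 1] 136 136 [] [(136, 136, []), (151, 135, [1])])) .no .no (.red [.f 1074 3 1,
  .f 1081 1 5, .t 961 4 1] 136 136 [] [(136, 136, []), (151, 135, [1])]) (.use 43) .no) .no .no
  (.red [.t 1208 4 2, .f 1073 3 5, .t 961 4 1] 136 136 [] [(136, 136, []), (151, 135, [1])]) .no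
  .no

def c27t45 : Tr4 :=
  .br 707 .no (.hor [.f 578 1 5] []) (.con 136 [2, 2, 2, 3]) .no .no .no

def c27t46 : Tr4 :=
  .br 689 .no (.hor [.f 561 1 3, .f 688 3 5] [(87, 86, [3])]) .no (.red [.t 681 3 1, .t 688 3 1]
  103 136 [2, 2, 4] [(102, 136, [2, 2, 4, 4]), (103, 136, [2, 2, 4])]) .no .no

def c27t47 : Tr4 :=
  .br 697 .no (.hor [.f 568 1 5] []) .no (.con 136 [2, 2, 2, 4]) .no .no

def c27t48 : Tr4 :=
  .br 691 .no (.con 136 [2, 2, 4, 2, 4]) .no (.hor [.f 682 3 5] []) .no .no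

def c27t49 : Tr4 :=
  .br 689 .no (.use 48) .no (.hor [.f 681 3 5] []) .no .no

def c27t50 : Tr4 :=
  .br 1483 (.red [.f 1475 1 3] 201 136 [3, 1, 1, 1, 1] [(201, 136, [3, 1, 1, 1, 1])]) .no (.br
  1482 (.br 1472 (.con 136 [3, 1, 1, 1, 4, 2, 3, 3]) (.br 1481 (.red [.f 1473 1 3] 201 136 [3, 1,
  1, 1, 1] [(201, 136, [3, 1, 1, 1, 1])]) .no (.con 136 [3, 1, 1, 3, 1, 1]) .no .no (.con 136 [3,
  1, 1, 3, 1, 1])) (.con 136 [3, 1, 1, 1, 1]) (.con 136 [3, 1, 1, 1, 4, 2, 3, 3]) .no .no) .no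
  (.hor [.f 1482 3 5] []) .no .no (.red [.f 1353 5 1, .f 1346 1 3] 185 136 [3, 1, 1, 1] [(185,
  136, [3, 1, 1, 1])])) .no .no (.red [.t 1346 1 3] 185 136 [3, 1, 1, 1] [(185, 136, [3, 1, 1,
  1])])

def c27t51 : Tr4 :=
  .br 691 .no (.hor [.f 562 1 5] []) .no (.red [.f 683 3 1, .f 691 1 3] 103 136 [2, 4, 2] [(102,
  136, [2, 4, 2, 4]), (103, 136, [2, 4, 2])]) .no .no

def c27t52 : Tr4 :=
  .br 714 .no (.hor [.f 586 1 5] []) (.br 713 .no (.con 136 [2, 2, 3, 3, 2]) (.hor [.f 713 3 5]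
  []) .no .no (.con 136 [2, 2, 3, 2, 3])) .no .no (.red [.t 833 2 3] 105 136 [2, 2, 3] [(105, 136,
  [2, 2, 3])])

def c27t53 : Tr4 :=
  .br 715 .no (.use 52) (.red [.f 715 3 1, .t 842 4 2] 106 136 [2, 2, 3, 3] [(105, 136, [2, 2,
  3]), (106, 136, [2, 2, 3, 3])]) .no .no (.red [.f 706 5 3, .f 706 3 1] 105 136 [2, 2, 3] [(105,
  136, [2, 2, 3])])

def c27t54 : Tr4 :=
  .br 843 .no (.red [.t 842 4 2, .f 705 1 5] 105 136 [2, 2, 3] [(105, 136, [2, 2, 3])]) (.use 53)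
  .no .no .no

def c27t55 : Tr4 :=
  .br 689 .no (.hor [.f 561 1 3, .f 688 3 5] [(87, 103, [2])]) .no (.red [.t 681 3 1, .t 688 3 1]
  103 136 [2, 2, 4] [(102, 136, [2, 2, 4, 4]), (103, 136, [2, 2, 4])]) .no .no

def c27t56 : Tr4 :=
  .br 690 .no (.use 51) (.br 697 .no (.br 696 .no (.hor [.f 568 1 5] []) (.br 706 .no (.use 45)
  (.red [.f 706 3 1, .f 705 1 5] 105 136 [2, 2, 3] [(105, 136, [2, 2, 3])]) .no (.use 54) .no)
  (.use 55) .no .no) .no (.hor [.f 689 3 5] []) .no (.red [.f 696 5 1, .t 697 1 4] 103 136 [2, 2,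
  4] [(103, 136, [2, 2, 4])])) .no (.red [.t 810 2 3, .f 691 1 3] 103 136 [2, 2, 4] [(102, 136,
  [2, 2, 4, 4]), (103, 136, [2, 2, 4])]) (.red [.f 689 5 1, .f 682 1 3] 102 136 [2, 2, 4, 4]
  [(102, 136, [2, 2, 4, 4])])

def c27t57 : Tr4 :=
  .br 689 .no (.hor [.f 561 1 3, .f 688 3 5] [(87, 103, [2])]) .no .no .no .no

def c27t58 : Tr4 :=
  .br 696 .no (.hor [.f 568 1 5] []) .no (.use 57) .no .no

def c27t59 : Tr4 :=
  .br 707 .no (.hor [.f 578 1 5] []) (.br 714 .no (.red [.f 578 1 3] 89 136 [2, 2, 2, 3] [(89,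
  136, [2, 2, 2, 3])]) (.br 704 .no (.con 136 [2, 2, 2, 3]) (.br 713 .no (.con 136 [2, 2, 2, 3,
  3]) (.hor [.f 713 3 5] []) .no .no .no) (.con 136 [2, 2, 2, 3]) .no .no) .no .no (.red [.t 833 2
  3] 105 136 [2, 2, 3] [(105, 136, [2, 2, 3])])) .no .no .no

def c27t60 : Tr4 :=
  .br 809 .no (.con 136 [2, 4, 2, 4, 4]) .no (.hor [.f 801 3 5] []) .no .no

def c27l0 : List Tr4 :=
  [c27t0, c27t1, c27t2, c27t3, c27t4, c27t5, c27t6, c27t7, c27t8, c27t9, c27t10, c27t11, c27t12,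
  c27t13, c27t14, c27t15, c27t16, c27t17, c27t18, c27t19, c27t20, c27t21, c27t22, c27t23, c27t24,
  c27t25, c27t26, c27t27, c27t28, c27t29, c27t30, c27t31, c27t32, c27t33, c27t34, c27t35, c27t36,
  c27t37, c27t38, c27t39, c27t40, c27t41, c27t42, c27t43, c27t44, c27t45, c27t46, c27t47, c27t48,
  c27t49, c27t50, c27t51, c27t52, c27t53, c27t54, c27t55, c27t56, c27t57, c27t58, c27t59, c27t60]

theorem c27k0 : chkLF ⟨4, 1, 0, true, -8⟩ false 7 c27N 0 c27l0 = true := by decide +kernel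

def c27t61 : Tr4 :=
  .br 816 .no .no .no (.use 1) .no .no

def c27t62 : Tr4 :=
  .br 688 .no (.br 689 .no (.con 136 [2, 4, 2, 2, 4]) .no (.hor [.f 681 3 5] []) .no .no) .no
  (.con 136 [2, 4, 2, 2, 4]) (.con 136 [2, 4, 2, 2, 4]) .no

def c27t63 : Tr4 :=
  .br 691 .no (.use 62) .no (.hor [.f 682 3 5] []) .no .no

def c27t64 : Tr4 :=
  .br 809 .no (.br 682 .no (.br 808 .no (.hor [.f 680 1 5] []) .no (.con 136 [2, 4, 2, 4, 4]) .no
  .no) .no (.red [.f 674 3 1, .f 681 1 5] 101 136 [2, 4, 2, 4, 4] [(101, 136, [2, 4, 2, 4, 4])])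
  (.red [.f 682 5 3, .f 683 3 1, .f 691 1 3] 103 136 [2, 4, 2] [(102, 136, [2, 4, 2, 4]), (103,
  136, [2, 4, 2])]) .no) .no (.hor [.f 801 3 5] []) .no (.br 928 (.hor [.f 928 1 3, .f 928 3 5]
  [(133, 101, [1, 1])]) (.red [.t 928 2 3, .t 937 2 3, .f 818 1 3] 119 136 [2, 4] [(117, 136, [2,
  4, 4, 4]), (118, 136, [2, 4, 4]), (119, 136, [2, 4])]) .no (.br 800 .no (.br 682 .no (.br 801
  .no (.hor [.f 672 1 5] []) .no (.br 683 .no (.hor [.f 554 1 5] []) .no (.con 136 [2, 4, 2, 4, 4,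
  2]) .no .no) .no .no) .no (.red [.f 674 3 1] 101 136 [2, 4, 2, 4, 4] [(101, 136, [2, 4, 2, 4,
  4])]) (.red [.f 682 5 3, .f 683 3 1, .f 691 1 3] 103 136 [2, 4, 2] [(102, 136, [2, 4, 2, 4]),
  (103, 136, [2, 4, 2])]) (.br 801 .no (.hor [.f 672 1 5] []) .no (.br 673 .no (.br 674 .no (.hor
  [.f 545 1 5] []) .no (.con 136 [2, 4, 2, 4, 4, 2, 4]) (.con 136 [2, 4, 2, 4, 4, 4]) .no) .no
  (.red [.f 665 3 1, .f 672 1 5] 100 136 [2, 4, 2, 4, 4, 4] [(100, 136, [2, 4, 2, 4, 4, 4])])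
  (.red [.f 673 5 3, .f 674 3 1, .t 810 2 3] 102 136 [2, 4, 2, 4] [(101, 136, [2, 4, 2, 4, 4]),
  (102, 136, [2, 4, 2, 4])]) .no) .no .no)) .no (.red [.f 792 3 1, .t 928 2 3, .t 937 2 3, .f 818
  1 3] 119 136 [2, 4] [(116, 136, [2, 4, 4, 4, 4]), (117, 136, [2, 4, 4, 4]), (118, 136, [2, 4,
  4]), (119, 136, [2, 4])]) (.red [.f 800 5 3, .f 801 3 1, .t 937 2 3, .f 818 1 3] 119 136 [2, 4]
  [(117, 136, [2, 4, 4, 4]), (118, 136, [2, 4, 4]), (119, 136, [2, 4])]) .no) .no .no)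

def c27t65 : Tr4 :=
  .br 816 .no (.con 136 [2, 2, 4, 4]) .no (.use 1) .no .no

def c27t66 : Tr4 :=
  .br 809 .no (.br 808 .no (.hor [.f 680 1 5] []) .no (.con 136 [2, 4, 2, 4, 4]) .no .no) .no
  (.hor [.f 801 3 5] []) .no (.red [.f 808 5 1, .t 937 2 3, .f 818 1 3] 119 136 [2, 4] [(118, 136,
  [2, 4, 4]), (119, 136, [2, 4])])

def c27t67 : Tr4 :=
  .br 810 .no (.use 56) .no (.use 66) .no (.red [.f 809 5 3, .f 810 3 5, .t 954 2 4] 119 136 [2,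
  4] [(119, 136, [2, 4])])

def c27t68 : Tr4 :=
  .br 809 .no (.br 810 .no (.use 56) .no (.con 136 [2, 2, 4, 4, 4]) .no .no) .no (.red [.f 808 1
  3, .f 801 3 1, .f 808 3 1, .f 808 1 5] 117 136 [2, 4, 4, 4] [(117, 136, [2, 4, 4, 4])]) (.red
  [.f 808 1 3, .f 809 5 3, .f 810 3 5, .t 954 2 4] 119 136 [2, 4] [(118, 102, [1]), (119, 136, [2,
  4])]) .no

def c27t69 : Tr4 :=
  .br 819 .no (.red [.f 691 1 3] 103 136 [2, 2, 4] [(103, 136, [2, 2, 4])]) .no (.br 937 (.red [.f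
  937 1 3, .f 937 3 5, .f 817 5 1, .f 818 1 3] 119 136 [2, 4] [(119, 136, [2, 4]), (134, 118,
  [1])]) (.red [.t 937 2 3, .f 818 1 3] 119 136 [2, 4] [(118, 136, [2, 4, 4]), (119, 136, [2,
  4])]) .no (.br 696 .no (.use 47) (.con 136 [2, 2, 2]) (.br 944 .no (.br 936 (.br 697 .no (.br
  690 .no (.use 51) .no (.use 49) (.br 810 .no (.use 56) .no (.use 64) .no (.red [.f 809 5 3, .f
  810 3 5, .t 954 2 4] 119 136 [2, 4] [(119, 136, [2, 4])])) (.red [.f 689 5 1, .t 688 3 1] 103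
  136 [2, 2, 4] [(103, 136, [2, 2, 4])])) .no (.hor [.f 688 3 5] []) .no .no) (.use 68) .no (.hor
  [.f 928 3 5] []) .no .no) .no (.use 61) .no .no) (.br 944 .no (.br 810 .no (.use 56) .no (.br
  936 (.br 690 .no (.use 51) .no (.use 63) (.use 64) (.red [.f 696 5 1, .f 689 5 1, .f 689 1 3]
  103 136 [2, 2, 4] [(103, 136, [2, 2, 4])])) (.br 690 .no (.use 51) .no (.use 63) (.use 60) (.red
  [.f 696 5 1, .f 689 5 1, .f 689 1 3] 103 136 [2, 2, 4] [(103, 136, [2, 2, 4])])) .no (.hor [.f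
  928 3 5] []) .no .no) .no (.red [.f 809 5 3, .f 810 3 5, .t 954 2 4] 119 136 [2, 4] [(119, 136,
  [2, 4])])) .no (.use 65) .no .no) .no) .no (.br 696 .no (.use 47) (.con 136 [2, 2, 2]) (.br 944
  .no (.br 697 .no (.br 690 .no (.use 51) .no (.use 49) (.use 67) (.red [.f 689 5 1, .t 688 3 1]
  103 136 [2, 2, 4] [(103, 136, [2, 2, 4])])) .no (.hor [.f 688 3 5] []) .no .no) .no .no .no .no)
  (.br 944 .no (.br 690 .no (.use 51) .no (.use 63) (.use 67) (.red [.f 696 5 1, .f 689 5 1, .f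
  689 1 3] 103 136 [2, 2, 4] [(103, 136, [2, 2, 4])])) .no .no .no .no) .no)) .no .no

def c27t70 : Tr4 :=
  .br 937 (.red [.f 937 1 3, .f 937 3 5, .f 817 5 1, .f 818 1 3] 119 136 [2, 4] [(119, 136, [2,
  4]), (134, 118, [1])]) (.red [.t 937 2 3, .f 818 1 3] 119 136 [2, 4] [(118, 136, [2, 4, 4]),
  (119, 136, [2, 4])]) .no (.br 936 .no (.br 819 .no (.red [.f 691 1 3] 103 136 [2, 2, 4] [(103,
  136, [2, 2, 4])]) .no (.use 68) .no .no) .no (.hor [.f 928 3 5] []) .no .no) .no (.red [.t 1072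
  4 2, .f 937 3 5, .f 817 5 1, .f 818 1 3] 119 136 [2, 4] [(119, 136, [2, 4]), (134, 118, [1])])

def c27t71 : Tr4 :=
  .br 1072 (.br 706 .no (.use 59) (.red [.f 706 3 1, .f 705 1 5] 105 136 [2, 2, 3] [(105, 136, [2,
  2, 3])]) (.use 69) (.use 54) .no) (.hor [.f 944 1 5] []) .no (.br 944 .no (.use 70) .no (.hor
  [.f 936 3 1, .f 944 1 5] [(134, 118, [1])]) .no .no) .no .no

def c27t72 : Tr4 :=
  .br 816 .no (.con 136 [2, 4, 2, 4]) .no (.red [.f 936 5 3, .f 808 3 1] 118 136 [2, 4, 4] [(118,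
  136, [2, 4, 4])]) .no .no

def c27t73 : Tr4 :=
  .br 937 .no (.red [.t 937 2 3, .f 818 1 3] 119 136 [2, 4] [(118, 136, [2, 4, 4]), (119, 136, [2,
  4])]) .no (.br 936 (.br 816 .no (.con 136 [2, 4, 2, 4]) .no (.red [.t 1064 2 3, .f 808 3 1] 118
  136 [2, 4, 4] [(118, 136, [2, 4, 4]), (134, 136, [4, 4])]) .no .no) (.con 136 [2, 4, 4, 2]) .no
  (.hor [.f 928 3 5] []) .no .no) .no (.use 72)

def c27t74 : Tr4 :=
  .br 819 .no (.red [.f 691 1 3] 103 136 [2, 2, 4] [(103, 136, [2, 2, 4])]) .no (.use 73) .no .no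

def c27t75 : Tr4 :=
  .br 816 .no (.con 136 [2, 4, 2, 4]) .no (.red [.f 944 5 1, .f 936 1 3, .f 808 3 1] 118 136 [2,
  4, 4] [(118, 136, [2, 4, 4]), (134, 136, [4, 4])]) .no .no

def c27t76 : Tr4 :=
  .br 936 (.use 75) (.con 136 [2, 4, 4, 2]) .no (.hor [.f 928 3 5] []) .no .no

def c27t77 : Tr4 :=
  .br 819 .no (.red [.f 691 1 3] 103 136 [2, 2, 4] [(103, 136, [2, 2, 4])]) .no (.br 937 (.use 39)
  (.red [.t 937 2 3, .f 818 1 3] 119 136 [2, 4] [(118, 136, [2, 4, 4]), (119, 136, [2, 4])]) .no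
  (.use 76) .no (.use 72)) .no .no

def c27t78 : Tr4 :=
  .br 1073 (.red [.f 1073 1 3, .f 1073 3 5, .t 961 4 1] 136 136 [] [(136, 136, []), (151, 135,
  [1])]) .no .no (.use 74) .no (.br 1208 (.br 1201 (.use 77) .no .no (.use 28) (.red [.t 1081 1 4,
  .t 961 4 1] 136 136 [] [(136, 136, []), (151, 135, [1])]) (.red [.f 1072 5 1, .f 1073 1 3, .f
  1073 3 5, .t 961 4 1] 136 136 [] [(136, 136, []), (151, 135, [1])])) .no .no (.red [.t 1208 4 2,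
  .f 1073 3 5, .t 961 4 1] 136 136 [] [(136, 136, []), (151, 135, [1])]) .no .no)

def c27t79 : Tr4 :=
  .br 810 .no (.red [.t 810 2 3, .f 691 1 3] 103 136 [2, 4, 2] [(102, 136, [2, 4, 2, 4]), (103,
  136, [2, 4, 2])]) .no (.use 64) .no (.red [.f 809 5 3, .f 810 3 5, .t 954 2 4] 119 136 [2, 4]
  [(119, 136, [2, 4])])

def c27t80 : Tr4 :=
  .br 1224 (.br 1113 (.con 136 [3, 3, 1, 3, 2]) (.con 136 [3, 3, 1, 3, 2]) (.con 136 [3, 3, 1, 3,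
  2]) (.hor [.f 1104 3 5] []) (.con 136 [3, 3, 1, 3, 2]) .no) .no (.hor [.f 1224 3 5] []) .no .no
  .no

def c27t81 : Tr4 :=
  .br 1104 (.con 136 [3, 3, 1, 3]) (.red [.f 968 1 3] 138 136 [3, 3] [(138, 136, [3, 3])]) (.use
  80) .no (.br 977 .no (.red [.f 841 1 3] 122 136 [2, 3, 3] [(122, 136, [2, 3, 3])]) (.br 976 .no
  (.br 978 .no (.con 136 [2, 3, 3, 3]) (.hor [.f 977 3 5] []) .no (.con 136 [2, 3, 3, 3]) .no)
  (.hor [.f 976 3 5] []) .no .no .no) .no (.red [.t 834 3 1, .f 841 1 5, .f 969 5 3, .t 968 1 3]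
  138 136 [3, 3] [(121, 105, [1]), (138, 136, [3, 3])]) (.red [.f 976 5 1, .f 968 1 3] 138 136 [3,
  3] [(138, 136, [3, 3])])) .no

def c27t82 : Tr4 :=
  .br 1113 (.con 136 [3, 3, 1, 3, 2, 4, 1, 3, 2, 4, 1, 3, 2]) (.con 136 [3, 3, 1, 3, 2, 4, 1, 3,
  2, 4, 1, 3, 2]) (.con 136 [3, 3, 1, 3, 2, 4, 1, 3, 2, 4, 1, 3, 2]) (.hor [.f 1105 3 5] []) .no
  (.con 136 [3, 3, 1, 3, 2, 4, 1, 3, 2, 4, 1, 3, 2])

def c27t83 : Tr4 :=
  .br 1113 (.con 136 [3, 3, 1, 3, 2, 4, 1, 3, 2, 4, 1, 3, 2]) (.con 136 [3, 3, 1, 3, 2, 4, 1, 3,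
  2, 4, 1, 3, 2]) (.con 136 [3, 3, 1, 3, 2, 4, 1, 3, 2, 4, 1, 3, 2]) (.hor [.f 1104 3 5] []) .no
  .no

def c27t84 : Tr4 :=
  .br 976 (.red [.f 968 1 3] 138 136 [3, 3] [(138, 136, [3, 3])]) (.br 977 (.con 136 [3, 3, 3])
  (.red [.f 841 1 3] 122 136 [2, 3, 3] [(122, 136, [2, 3, 3])]) (.br 978 .no (.con 136 [2, 3, 3,
  3]) (.hor [.f 977 3 5] []) .no (.con 136 [2, 3, 3, 3]) .no) .no (.br 1104 (.use 82) .no (.use
  83) .no (.red [.t 834 3 1, .f 841 1 5, .f 969 5 3, .t 968 1 3] 138 136 [3, 3] [(121, 105, [1]),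
  (138, 136, [3, 3])]) .no) .no) (.br 977 (.con 136 [3, 3, 3]) (.red [.f 841 1 3] 122 136 [2, 3,
  3] [(122, 136, [2, 3, 3])]) (.hor [.f 976 3 5] []) .no (.br 1104 (.use 82) .no (.use 83) .no
  (.red [.t 834 3 1, .f 841 1 5, .f 969 5 3, .t 968 1 3] 138 136 [3, 3] [(121, 105, [1]), (138,
  136, [3, 3])]) .no) .no) .no (.br 1105 .no .no (.hor [.f 1105 3 5] []) .no .no (.red [.f 976 5
  1, .f 968 1 3] 138 136 [3, 3] [(138, 136, [3, 3])])) .no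

def c27t85 : Tr4 :=
  .br 976 (.red [.f 968 1 3] 138 136 [3, 3] [(138, 136, [3, 3])]) (.br 978 .no (.con 136 [3, 2, 3,
  3]) (.hor [.f 977 3 5] []) .no (.con 136 [3, 2, 3, 3]) .no) (.hor [.f 976 3 5] []) .no .no .no

def c27t86 : Tr4 :=
  .br 697 .no (.br 579 (.br 578 .no (.br 577 .no (.hor [.f 449 1 5] []) (.br 714 .no (.red [.t 960
  2 4, .f 825 1 5, .t 705 1 4, .t 585 4 1] 89 136 [2, 2, 2, 3] [(89, 136, [2, 2, 2, 3]), (104, 88,
  [1]), (120, 119, [3])]) (.br 713 .no .no (.hor [.f 713 3 5] []) .no .no .no) .no (.con 136 [2,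
  2, 3, 3]) (.red [.t 833 2 3] 105 136 [2, 2, 3] [(105, 136, [2, 2, 3])])) .no .no .no) (.br 577
  .no (.con 136 [2, 2, 2, 2, 3]) (.hor [.f 577 3 5] []) .no .no .no) (.red [.f 570 3 1, .f 569 1
  5] 88 136 [2, 2, 2] [(88, 136, [2, 2, 2])]) .no (.red [.t 697 2 3, .f 578 1 5] 88 136 [2, 2, 2]
  [(88, 136, [2, 2, 2])])) (.con 136 [2, 2, 2, 3]) (.con 136 [2, 2, 2, 3]) (.con 136 [2, 2, 2, 3])
  .no (.con 136 [2, 2, 2, 3])) .no (.hor [.f 688 3 5] []) .no .no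

def c27t87 : Tr4 :=
  .br 810 .no (.red [.t 810 2 3, .f 691 1 3] 103 136 [2, 4, 2] [(102, 136, [2, 4, 2, 4]), (103,
  136, [2, 4, 2])]) .no (.use 60) .no (.red [.f 808 1 3, .f 809 5 3, .f 810 3 5, .t 954 2 4] 119
  136 [2, 4] [(118, 102, [1]), (119, 136, [2, 4])])

def c27t88 : Tr4 :=
  .br 936 (.use 79) (.use 87) .no (.hor [.f 928 3 5] []) .no .no

def c27t89 : Tr4 :=
  .br 690 .no (.use 51) .no (.use 63) (.use 88) (.red [.f 696 5 1, .f 689 5 1, .f 689 1 3] 103 136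
  [2, 2, 4] [(103, 136, [2, 2, 4])])

def c27t90 : Tr4 :=
  .br 715 (.red [.t 842 4 2, .f 705 1 5] 105 136 [2, 2, 3] [(105, 136, [2, 2, 3])]) (.con 136 [2,
  2, 3, 3]) (.con 136 [2, 2, 3, 3]) .no .no (.con 136 [2, 2, 3, 3])

def c27t91 : Tr4 :=
  .br 840 .no (.use 90) (.red [.t 840 3 1] 122 136 [2, 3, 3] [(122, 136, [2, 3, 3])]) .no .no .no

def c27t92 : Tr4 :=
  .br 819 .no (.red [.f 691 1 3] 103 136 [2, 2, 4] [(103, 136, [2, 2, 4])]) .no (.br 706 .no (.use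
  59) (.red [.f 706 3 1, .f 705 1 5] 105 136 [2, 2, 3] [(105, 136, [2, 2, 3])]) (.br 944 .no (.br
  840 .no (.br 704 .no (.br 696 .no (.use 47) .no (.use 86) (.use 89) .no) .no (.con 136 [2, 2,
  2]) .no .no) (.red [.t 840 3 1] 122 136 [2, 3, 3] [(122, 136, [2, 3, 3])]) .no .no .no) .no
  (.use 65) .no .no) (.use 91) .no) .no .no

def c27t93 : Tr4 :=
  .br 809 .no (.con 136 [2, 4, 2, 4, 4]) .no (.red [.f 808 1 3, .f 801 3 1, .f 808 3 1, .f 808 1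
  5] 117 136 [2, 4, 4, 4] [(117, 136, [2, 4, 4, 4])]) (.red [.f 808 1 3, .f 809 5 3, .f 810 3 5,
  .t 954 2 4] 119 136 [2, 4] [(118, 102, [1]), (119, 136, [2, 4])]) .no

def c27t94 : Tr4 :=
  .br 690 .no (.use 51) .no (.use 93) (.use 87) (.red [.f 689 5 1, .t 688 3 1] 103 136 [2, 2, 4]
  [(103, 136, [2, 2, 4])])

def c27t95 : Tr4 :=
  .br 696 .no (.use 47) (.con 136 [2, 2, 2]) (.br 936 (.br 697 .no (.br 690 .no (.use 51) .no
  (.use 49) (.use 79) (.red [.f 689 5 1, .t 688 3 1] 103 136 [2, 2, 4] [(103, 136, [2, 2, 4])]))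
  .no (.hor [.f 688 3 5] []) .no .no) (.use 94) .no (.hor [.f 928 3 5] []) .no .no) (.use 89) .no

def c27t96 : Tr4 :=
  .br 819 .no (.red [.f 691 1 3] 103 136 [2, 2, 4] [(103, 136, [2, 2, 4])]) .no (.br 944 .no (.use
  95) .no (.use 65) .no .no) .no .no

def c27t97 : Tr4 :=
  .br 843 .no .no (.con 136 [2, 3, 3, 2]) .no .no .no

def c27t98 : Tr4 :=
  .br 715 (.red [.t 842 4 2, .f 705 1 5] 105 136 [2, 2, 3] [(105, 136, [2, 2, 3])]) (.use 52)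
  (.use 97) .no .no (.red [.f 706 5 3, .f 706 3 1] 105 136 [2, 2, 3] [(105, 136, [2, 2, 3])])

def c27t99 : Tr4 :=
  .br 1106 (.con 136 [3, 3, 3]) (.hor [.f 977 1 5] []) (.con 136 [3, 3, 3]) .no (.con 136 [3, 3,
  3]) .no

def c27t100 : Tr4 :=
  .br 1226 (.con 136 [3, 3, 1, 1]) .no (.red [.t 1234 4 2] 154 136 [3, 3, 1] [(154, 136, [3, 3,
  1])]) .no .no .no

def c27t101 : Tr4 :=
  .br 810 .no (.red [.t 810 2 3, .f 691 1 3] 103 136 [2, 4, 2] [(102, 136, [2, 4, 2, 4]), (103,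
  136, [2, 4, 2])]) .no (.use 66) .no (.red [.f 809 5 3, .f 810 3 5, .t 954 2 4] 119 136 [2, 4]
  [(119, 136, [2, 4])])

def c27t102 : Tr4 :=
  .br 690 .no (.use 51) .no (.use 63) (.use 101) (.red [.f 696 5 1, .f 689 5 1, .f 689 1 3] 103
  136 [2, 2, 4] [(103, 136, [2, 2, 4])])

def c27t103 : Tr4 :=
  .br 944 .no (.use 102) .no .no .no .no

def c27l1 : List Tr4 :=
  [c27t61, c27t62, c27t63, c27t64, c27t65, c27t66, c27t67, c27t68, c27t69, c27t70, c27t71, c27t72,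
  c27t73, c27t74, c27t75, c27t76, c27t77, c27t78, c27t79, c27t80, c27t81, c27t82, c27t83, c27t84,
  c27t85, c27t86, c27t87, c27t88, c27t89, c27t90, c27t91, c27t92, c27t93, c27t94, c27t95, c27t96,
  c27t97, c27t98, c27t99, c27t100, c27t101, c27t102, c27t103]

theorem c27k1 : chkLF ⟨4, 1, 0, true, -8⟩ false 7 c27N 61 c27l1 = true := by decide +kernel

def c27t104 : Tr4 :=
  .br 704 .no (.br 696 .no (.use 47) .no (.use 86) (.use 103) .no) .no (.con 136 [2, 2, 2]) .no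
  .no

def c27t105 : Tr4 :=
  .br 840 .no (.use 104) (.red [.t 840 3 1] 122 136 [2, 3, 3] [(122, 136, [2, 3, 3])]) .no .no .no

def c27t106 : Tr4 :=
  .br 706 .no (.use 59) (.red [.f 706 3 1, .f 705 1 5] 105 136 [2, 2, 3] [(105, 136, [2, 2, 3])])
  (.br 819 .no (.red [.f 691 1 3] 103 136 [2, 2, 4] [(103, 136, [2, 2, 4])]) .no (.use 105) .no
  .no) (.use 91) .no

def c27t107 : Tr4 :=
  .br 1106 (.con 136 [3, 3, 3]) (.hor [.f 977 1 5] []) (.con 136 [3, 3, 3]) .no (.con 136 [3, 3,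
  3]) .no

def c27t108 : Tr4 :=
  .br 978 (.red [.f 970 5 1, .f 970 1 3] 138 136 [3, 3] [(138, 136, [3, 3])]) (.con 136 [3, 2, 3,
  3]) (.hor [.f 977 3 5] []) .no (.con 136 [3, 2, 3, 3]) .no

def c27t109 : Tr4 :=
  .br 1105 .no .no (.hor [.f 1104 3 5] []) .no (.red [.f 977 5 1, .f 970 5 1, .f 970 1 3] 138 136
  [3, 3] [(138, 136, [3, 3])]) .no

def c27t110 : Tr4 :=
  .br 1106 (.con 136 [3, 3, 3]) (.hor [.f 977 1 5] []) (.con 136 [3, 3, 3]) (.con 136 [3, 3, 3])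
  (.con 136 [3, 3, 3]) .no

def c27t111 : Tr4 :=
  .br 1226 (.con 136 [3, 3, 1, 1]) .no (.red [.t 1234 4 2] 154 136 [3, 3, 1] [(154, 136, [3, 3,
  1])]) .no (.con 136 [3, 3, 1, 1]) .no

def c27t112 : Tr4 :=
  .br 1098 (.hor [.f 1098 1 5] []) .no (.con 136 [3, 3, 1]) .no .no .no

def c27t113 : Tr4 :=
  .br 977 (.use 99) (.red [.f 841 1 3] 122 136 [2, 3, 3] [(122, 136, [2, 3, 3])]) (.hor [.f 976 3
  5] []) .no (.br 1104 (.br 1107 (.use 111) (.con 136 [3, 3, 3]) (.con 136 [3, 3, 1, 3]) .no .no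
  (.con 136 [3, 3, 1, 3])) .no (.use 109) .no (.red [.t 834 3 1, .f 841 1 5, .f 969 5 3, .t 968 1
  3] 138 136 [3, 3] [(121, 105, [1]), (138, 136, [3, 3])]) .no) .no

def c27t114 : Tr4 :=
  .br 937 (.red [.f 937 1 3, .f 937 3 5, .f 817 5 1, .f 818 1 3] 119 136 [2, 4] [(119, 136, [2,
  4]), (134, 118, [1])]) (.red [.t 937 2 3, .f 818 1 3] 119 136 [2, 4] [(118, 136, [2, 4, 4]),
  (119, 136, [2, 4])]) .no (.br 976 (.red [.f 968 1 3] 138 136 [3, 3] [(138, 136, [3, 3])]) (.br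
  706 .no (.use 59) (.red [.f 706 3 1, .f 705 1 5] 105 136 [2, 2, 3] [(105, 136, [2, 2, 3])])
  (.use 96) (.use 98) .no) (.br 977 (.use 110) (.red [.f 841 1 3] 122 136 [2, 3, 3] [(122, 136,
  [2, 3, 3])]) (.hor [.f 976 3 5] []) .no (.br 1104 (.br 1107 (.br 1098 (.con 136 [3, 3, 1, 1])
  .no (.con 136 [3, 3, 1]) .no (.use 111) .no) (.con 136 [3, 3, 3]) (.con 136 [3, 3, 1, 3]) (.br
  1098 (.br 1106 (.use 81) .no (.use 84) .no .no (.red [.f 977 5 1, .t 1106 2 4] 138 136 [3, 3]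
  [(138, 136, [3, 3])])) .no (.hor [.f 1098 3 5] []) .no .no .no) .no (.con 136 [3, 3, 1, 3])) .no
  (.red [.f 976 3 1] 139 136 [3, 3, 3] [(139, 136, [3, 3, 3])]) .no (.red [.t 834 3 1, .f 841 1 5,
  .f 969 5 3, .t 968 1 3] 138 136 [3, 3] [(121, 105, [1]), (138, 136, [3, 3])]) .no) .no) .no
  (.use 92) .no) .no (.br 1099 (.use 112) .no (.br 1106 (.use 81) (.red [.t 834 3 1, .t 970 2 4,
  .t 1106 2 4] 138 136 [3, 3] [(138, 136, [3, 3])]) (.use 84) (.hor [.f 1098 3 5] []) .no (.br 977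
  .no (.red [.f 841 1 3] 122 136 [2, 3, 3] [(122, 136, [2, 3, 3])]) (.use 85) .no (.red [.f 977 5
  1, .t 1106 2 4] 138 136 [3, 3] [(138, 136, [3, 3])]) (.use 106))) .no .no (.br 976 (.red [.f 968
  1 3] 138 136 [3, 3] [(138, 136, [3, 3])]) (.br 977 (.use 107) (.red [.f 841 1 3] 122 136 [2, 3,
  3] [(122, 136, [2, 3, 3])]) (.use 108) .no (.br 1226 (.br 1104 (.con 136 [3, 3, 1, 1]) .no (.use
  109) .no (.red [.t 834 3 1, .f 841 1 5, .f 969 5 3, .t 968 1 3] 138 136 [3, 3] [(121, 105, [1]),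
  (138, 136, [3, 3])]) .no) .no (.hor [.f 1225 3 5] []) .no (.br 1104 (.con 136 [3, 3, 1, 1]) .no
  (.use 109) .no (.red [.t 834 3 1, .f 841 1 5, .f 969 5 3, .t 968 1 3] 138 136 [3, 3] [(121, 105,
  [1]), (138, 136, [3, 3])]) .no) .no) .no) (.use 113) .no (.use 106) .no))

def c27t115 : Tr4 :=
  .br 1099 (.con 136 [3, 3, 1]) .no (.hor [.f 1098 3 5] []) .no .no .no

def c27t116 : Tr4 :=
  .br 1106 (.con 136 [3, 3, 3, 1]) .no (.hor [.f 1105 3 5] []) .no (.con 136 [3, 3, 3, 1]) .no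

def c27t117 : Tr4 :=
  .br 977 (.use 99) (.red [.f 841 1 3] 122 136 [2, 3, 3] [(122, 136, [2, 3, 3])]) (.hor [.f 976 3
  5] []) .no (.br 1104 (.br 1105 (.red [.f 970 5 1, .f 962 1 3, .f 1089 3 5, .f 1097 5 1, .f 1097
  1 3] 154 136 [3, 3, 1] [(137, 136, [3]), (154, 136, [3, 3, 1])]) .no (.use 116) .no (.red [.f
  977 5 1, .f 970 5 1, .f 970 1 3] 138 136 [3, 3] [(138, 136, [3, 3])]) .no) .no (.red [.f 976 3
  1] 139 136 [3, 3, 3] [(139, 136, [3, 3, 3])]) .no (.red [.t 834 3 1, .f 841 1 5, .f 969 5 3, .t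
  968 1 3] 138 136 [3, 3] [(121, 105, [1]), (138, 136, [3, 3])]) .no) .no

def c27t118 : Tr4 :=
  .br 715 (.red [.t 842 4 2, .f 705 1 5] 105 136 [2, 2, 3] [(105, 136, [2, 2, 3])]) (.use 52) (.br
  976 (.red [.f 968 1 3] 138 136 [3, 3] [(138, 136, [3, 3])]) (.use 97) (.use 117) .no (.use 91)
  .no) .no .no (.red [.f 706 5 3, .f 706 3 1] 105 136 [2, 2, 3] [(105, 136, [2, 2, 3])])

def c27t119 : Tr4 :=
  .br 706 .no (.use 59) (.red [.f 706 3 1, .f 705 1 5] 105 136 [2, 2, 3] [(105, 136, [2, 2, 3])])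
  (.br 937 (.red [.f 937 1 3, .f 937 3 5, .f 817 5 1, .f 818 1 3] 119 136 [2, 4] [(119, 136, [2,
  4]), (134, 118, [1])]) (.red [.t 937 2 3, .f 818 1 3] 119 136 [2, 4] [(118, 136, [2, 4, 4]),
  (119, 136, [2, 4])]) .no (.use 96) .no (.br 819 .no (.red [.f 691 1 3] 103 136 [2, 2, 4] [(103,
  136, [2, 2, 4])]) .no (.br 840 .no (.use 104) (.br 976 (.red [.f 968 1 3, .f 840 3 1, .f 840 1
  5] 122 136 [2, 3, 3] [(122, 136, [2, 3, 3]), (138, 136, [3, 3])]) .no (.use 117) .no (.use 105)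
  .no) .no .no .no) .no .no)) (.use 118) .no

def c27t120 : Tr4 :=
  .br 936 .no (.br 819 .no (.red [.f 691 1 3] 103 136 [2, 2, 4] [(103, 136, [2, 2, 4])]) .no (.br
  696 .no (.use 47) (.con 136 [2, 2, 2]) (.use 94) (.br 690 .no (.use 51) .no (.use 63) (.use 87)
  (.red [.f 696 5 1, .f 689 5 1, .f 689 1 3] 103 136 [2, 2, 4] [(103, 136, [2, 2, 4])])) .no) .no
  .no) .no (.hor [.f 928 3 5] []) .no .no

def c27t121 : Tr4 :=
  .br 1225 (.red [.f 1217 1 3, .f 1089 3 1] 153 136 [3, 1] [(153, 136, [3, 1]), (169, 136, [3, 1,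
  1])]) .no (.br 976 (.red [.f 968 1 3] 138 136 [3, 3] [(138, 136, [3, 3])]) (.use 98) (.use 113)
  .no (.use 91) .no) .no (.use 118) (.red [.t 1088 1 3, .t 952 1 3, .f 961 1 5] 153 136 [3, 1]
  [(136, 136, []), (153, 136, [3, 1])])

def c27t122 : Tr4 :=
  .br 970 (.br 971 (.hor [.f 970 1 5] []) (.con 136 [3, 3]) (.con 136 [3, 3]) .no .no .no) (.hor
  [.f 841 1 5] []) (.br 971 (.br 945 (.br 833 .no (.br 834 .no (.hor [.f 705 1 5] []) (.use 71)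
  .no .no .no) .no .no (.red [.t 953 3 2, .t 1073 2 3, .f 954 1 3, .f 826 3 1] 136 136 [] [(135,
  136, [4]), (136, 136, [])]) .no) .no .no (.hor [.f 937 3 5] []) .no (.use 78)) (.con 136 [2, 3,
  3]) (.hor [.f 970 3 5] []) .no .no .no) .no (.br 945 (.br 834 .no (.br 705 (.hor [.f 705 1 5]
  []) (.con 136 [2, 3, 2, 4, 4]) (.con 136 [2, 3, 2, 4, 4]) (.con 136 [2, 3, 2, 4, 4]) .no (.con
  136 [2, 3, 2, 4, 4])) (.br 705 (.br 1072 (.br 1225 (.red [.f 1217 1 3, .f 1089 3 1] 153 136 [3,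
  1] [(153, 136, [3, 1]), (169, 136, [3, 1, 1])]) .no (.use 114) .no (.br 1098 .no .no (.use 115)
  .no (.use 119) .no) (.red [.t 1088 1 3, .t 952 1 3, .f 961 1 5] 153 136 [3, 1] [(136, 136, []),
  (153, 136, [3, 1])])) (.hor [.f 944 1 5] []) .no (.br 944 .no (.br 937 (.red [.f 937 1 3, .f 937
  3 5, .f 817 5 1, .f 818 1 3] 119 136 [2, 4] [(119, 136, [2, 4]), (134, 118, [1])]) (.red [.t 937
  2 3, .f 818 1 3] 119 136 [2, 4] [(118, 136, [2, 4, 4]), (119, 136, [2, 4])]) .no (.br 1098 (.br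
  1225 (.red [.f 1217 1 3, .f 1089 3 1] 153 136 [3, 1] [(153, 136, [3, 1]), (169, 136, [3, 1,
  1])]) .no (.br 1099 (.use 112) .no (.br 1106 (.use 81) (.red [.t 834 3 1, .t 970 2 4, .t 1106 2
  4] 138 136 [3, 3] [(138, 136, [3, 3])]) (.use 84) .no .no (.br 977 .no (.red [.f 841 1 3] 122
  136 [2, 3, 3] [(122, 136, [2, 3, 3])]) (.use 85) .no (.red [.f 977 5 1, .t 1106 2 4] 138 136 [3,
  3] [(138, 136, [3, 3])]) (.br 706 .no (.use 59) (.red [.f 706 3 1, .f 705 1 5] 105 136 [2, 2, 3]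
  [(105, 136, [2, 2, 3])]) (.use 120) (.use 91) .no))) .no .no .no) .no .no (.red [.t 1088 1 3, .t
  952 1 3, .f 961 1 5] 153 136 [3, 1] [(136, 136, []), (153, 136, [3, 1])])) .no (.use 115) .no
  (.br 706 .no (.use 59) (.red [.f 706 3 1, .f 705 1 5] 105 136 [2, 2, 3] [(105, 136, [2, 2, 3])])
  (.use 120) (.use 121) .no) .no) .no (.red [.t 1072 4 2, .f 937 3 5, .f 817 5 1, .f 818 1 3] 119
  136 [2, 4] [(119, 136, [2, 4]), (134, 118, [1])])) .no (.hor [.f 936 3 1, .f 944 1 5] [(134,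
  118, [1])]) .no .no) .no .no) (.con 136 [2, 3, 2, 4, 4]) (.con 136 [2, 3, 2, 4, 4]) (.con 136
  [2, 3, 2, 4, 4]) (.con 136 [2, 3, 2, 4, 4]) (.con 136 [2, 3, 2, 4, 4])) .no .no (.red [.t 953 3
  2, .t 1073 2 3, .f 954 1 3, .f 826 3 1] 136 136 [] [(135, 136, [4]), (136, 136, [])])) .no .no
  (.hor [.f 937 3 5] []) .no (.use 78)) .no

def c27t123 : Tr4 :=
  .br 696 .no (.con 136 [2, 2, 2, 4]) .no (.hor [.f 688 3 5] []) .no .no

def c27t124 : Tr4 :=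
  .br 697 .no (.hor [.f 569 1 5] []) .no (.use 123) .no (.use 63)

def c27t125 : Tr4 :=
  .br 697 .no (.hor [.f 569 1 5] []) .no .no .no (.red [.f 696 5 1, .f 689 5 1, .f 689 1 3] 103
  136 [2, 2, 4] [(103, 136, [2, 2, 4])])

def c27t126 : Tr4 :=
  .br 690 .no (.use 51) .no (.use 124) (.use 79) (.use 125)

def c27t127 : Tr4 :=
  .br 682 .no .no .no (.red [.f 674 3 1] 101 136 [2, 4, 2, 4, 4] [(101, 136, [2, 4, 2, 4, 4])])
  (.red [.t 562 4 1, .f 683 3 1] 102 136 [2, 4, 2, 4] [(86, 136, [2, 4, 2, 2, 4]), (102, 136, [2,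
  4, 2, 4])]) (.con 136 [2, 4, 2, 4, 2, 3, 1])

def c27t128 : Tr4 :=
  .br 576 .no (.br 696 .no (.hor [.f 568 1 5] []) .no (.br 568 .no (.br 810 .no (.use 55) .no (.br
  809 .no (.use 57) .no (.hor [.f 801 3 5] []) .no (.br 691 .no (.br 570 .no (.br 562 .no (.hor
  [.f 434 1 3, .f 562 3 1, .f 562 1 5] [(71, 103, [2, 2]), (87, 103, [2])]) .no (.br 561 (.hor [.f
  561 1 3, .f 688 3 5] [(87, 86, [3])]) (.use 127) .no (.hor [.f 553 3 5] []) .no (.hor [.t 696 4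
  2, .f 440 1 3, .t 560 1 3, .f 569 1 3, .f 568 3 5] [(72, 136, [2, 2, 2, 2]), (88, 136, [2, 2,
  2])])) .no (.hor [.t 697 2 4, .f 562 1 5] [(87, 103, [2])])) (.hor [.f 569 1 3, .f 569 3 5]
  [(88, 136, [2, 2, 2])]) (.hor [.f 562 3 1, .f 562 1 5] [(87, 103, [2])]) (.hor [.t 690 3 2, .f
  569 1 5] [(87, 103, [2])]) .no) .no (.red [.f 683 3 1, .f 691 1 3, .f 690 3 5] 103 136 [2, 2, 4]
  [(102, 136, [2, 2, 4, 4]), (103, 136, [2, 2, 4])]) .no .no)) .no (.red [.f 809 5 3, .f 810 3 5,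
  .t 954 2 4] 119 136 [2, 4] [(119, 136, [2, 4])])) .no (.hor [.f 560 3 1, .f 568 1 5] [(87, 103,
  [2])]) .no .no) .no .no) (.hor [.f 576 3 1, .f 576 1 5] [(89, 103, [3, 2, 3])]) (.hor [.f 569 1
  3, .f 568 3 5] [(88, 136, [2, 2, 2])]) .no .no

def c27t129 : Tr4 :=
  .br 691 .no (.con 136 [2, 2, 4, 2, 4]) .no (.hor [.f 682 3 5] []) .no .no

def c27t130 : Tr4 :=
  .br 691 .no (.con 136 [2, 4, 2, 4, 2]) .no (.hor [.f 682 3 5] []) .no .no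

def c27t131 : Tr4 :=
  .br 802 (.con 136 [4, 2, 2, 4, 4, 1, 3, 2, 4, 1, 3, 2, 4, 1, 3, 2]) (.con 136 [4, 2, 2, 4, 4, 1,
  3, 2, 4, 1, 3, 2, 4, 1, 3, 2]) (.hor [.f 801 3 5] []) (.con 136 [4, 2, 2, 4, 4, 1, 3, 2, 4, 1,
  3, 2, 4, 1, 3, 2]) (.con 136 [4, 2, 2, 4, 4, 1, 3, 2, 4, 1, 3, 2, 4, 1, 3, 2]) .no

def c27t132 : Tr4 :=
  .br 696 .no (.br 688 .no (.red [.f 560 1 3] 87 136 [2, 2, 2, 4] [(87, 136, [2, 2, 2, 4])]) .no
  (.use 129) (.br 691 .no (.con 136 [2, 2, 2, 4, 4]) .no (.hor [.f 682 3 5] []) .no .no) .no) .no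
  (.br 691 .no (.br 689 .no (.con 136 [2, 2, 2, 4, 4]) .no (.hor [.f 681 3 5] []) .no .no) .no
  (.hor [.f 682 3 5] []) .no .no) .no .no

def c27t133 : Tr4 :=
  .br 691 .no (.br 696 .no (.br 688 .no (.red [.f 560 1 3] 87 136 [2, 2, 2, 4] [(87, 136, [2, 2,
  2, 4])]) .no (.con 136 [2, 2, 2, 4, 4]) .no .no) .no (.red [.f 689 5 1, .t 688 3 1] 103 136 [2,
  2, 4] [(103, 136, [2, 2, 4])]) .no .no) .no (.red [.f 689 5 3, .f 683 3 1] 102 136 [2, 2, 4, 4]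
  [(102, 136, [2, 2, 4, 4])]) .no .no

def c27t134 : Tr4 :=
  .br 698 .no (.con 136 [2, 4, 2, 2]) .no (.hor [.f 689 3 5] []) .no .no

def c27t135 : Tr4 :=
  .br 681 .no (.con 136 [2, 4, 2, 4, 2]) (.hor [.f 681 3 5] []) (.con 136 [2, 4, 2, 4, 2]) .no
  (.con 136 [2, 4, 2, 4, 2])

def c27t136 : Tr4 :=
  .br 691 .no (.use 135) .no (.hor [.f 682 3 5] []) .no .no

def c27t137 : Tr4 :=
  .br 809 .no (.use 130) .no (.br 808 .no (.use 131) .no (.hor [.f 800 3 5] []) .no .no) (.red [.f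
  809 5 3, .f 810 3 5, .t 954 2 4] 119 136 [2, 4] [(119, 136, [2, 4])]) (.use 136)

def c27t138 : Tr4 :=
  .br 569 .no (.br 568 .no (.hor [.f 440 1 5] []) (.red [.f 568 3 1, .f 576 1 5] 88 136 [2, 2, 2]
  [(88, 136, [2, 2, 2])]) (.br 570 .no (.hor [.f 441 1 5] []) (.red [.t 577 1 4, .f 696 3 5] 88
  136 [2, 2, 2] [(88, 136, [2, 2, 2])]) (.con 136 [2, 2, 2, 2, 4]) (.con 136 [2, 2, 2, 2, 4]) .no)
  .no .no) .no (.red [.f 689 5 3, .f 561 3 1, .f 569 1 3] 88 136 [2, 2, 2] [(87, 136, [2, 2, 2,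
  4]), (88, 136, [2, 2, 2])]) (.red [.f 569 5 1, .f 569 1 3] 88 136 [2, 2, 2] [(88, 136, [2, 2,
  2])]) (.red [.t 704 4 2] 88 136 [2, 2, 2] [(88, 136, [2, 2, 2])])

def c27l2 : List Tr4 :=
  [c27t104, c27t105, c27t106, c27t107, c27t108, c27t109, c27t110, c27t111, c27t112, c27t113,
  c27t114, c27t115, c27t116, c27t117, c27t118, c27t119, c27t120, c27t121, c27t122, c27t123,
  c27t124, c27t125, c27t126, c27t127, c27t128, c27t129, c27t130, c27t131, c27t132, c27t133,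
  c27t134, c27t135, c27t136, c27t137, c27t138]

theorem c27k2 : chkLF ⟨4, 1, 0, true, -8⟩ false 7 c27N 104 c27l2 = true := by decide +kernel

def c27t139 : Tr4 :=
  .br 698 .no (.use 125) .no .no .no (.br 704 .no (.hor [.f 576 1 5] []) (.use 133) (.use 138) .no
  .no)

def c27t140 : Tr4 :=
  .br 690 .no (.use 51) (.br 697 .no (.br 704 .no (.hor [.f 576 1 5] []) (.use 128) (.red [.f 569
  1 3] 88 136 [2, 2, 2] [(88, 136, [2, 2, 2])]) .no .no) .no (.hor [.f 689 3 5] []) .no (.red [.f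
  696 5 1, .t 697 1 4] 103 136 [2, 2, 4] [(103, 136, [2, 2, 4])])) (.use 93) (.use 87) (.use 139)

def c27t141 : Tr4 :=
  .br 816 .no (.con 136 [2, 4, 2, 4]) .no (.use 1) .no .no

def c27t142 : Tr4 :=
  .br 810 .no (.use 55) .no (.hor [.f 801 3 5] []) .no .no

def c27t143 : Tr4 :=
  .br 809 .no (.use 57) .no (.use 142) (.red [.f 809 5 3, .f 810 3 5, .t 954 2 4] 119 136 [2, 4]
  [(119, 136, [2, 4])]) (.red [.f 808 5 1, .t 937 2 3, .f 818 1 3] 119 136 [2, 4] [(118, 136, [2,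
  4, 4]), (119, 136, [2, 4])])

def c27t144 : Tr4 :=
  .br 696 .no (.hor [.f 568 1 5] []) .no (.use 143) .no .no

def c27t145 : Tr4 :=
  .br 697 .no (.use 144) .no (.hor [.f 689 3 5] []) .no (.red [.f 696 5 1, .t 697 1 4] 103 136 [2,
  2, 4] [(103, 136, [2, 2, 4])])

def c27t146 : Tr4 :=
  .br 809 .no (.use 130) .no (.br 944 .no (.br 808 .no (.use 131) .no (.hor [.f 800 3 5] []) .no
  .no) .no .no .no .no) (.red [.f 809 5 3, .f 810 3 5, .t 954 2 4] 119 136 [2, 4] [(119, 136, [2,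
  4])]) (.use 136)

def c27t147 : Tr4 :=
  .br 944 .no (.use 101) .no .no .no .no

def c27t148 : Tr4 :=
  .br 937 (.red [.f 937 1 3, .f 937 3 5, .f 817 5 1, .f 818 1 3] 119 136 [2, 4] [(119, 136, [2,
  4]), (134, 118, [1])]) (.red [.t 937 2 3, .f 818 1 3] 119 136 [2, 4] [(118, 136, [2, 4, 4]),
  (119, 136, [2, 4])]) .no (.br 819 .no (.red [.f 691 1 3] 103 136 [2, 2, 4] [(103, 136, [2, 2,
  4])]) .no (.br 944 .no (.br 936 (.br 704 .no (.hor [.f 576 1 5] []) (.br 698 .no (.use 126) .no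
  (.br 697 .no (.use 128) .no (.hor [.f 689 3 5] []) .no (.red [.f 696 5 1, .t 697 1 4] 103 136
  [2, 2, 4] [(103, 136, [2, 2, 4])])) .no (.br 690 .no (.use 51) .no (.use 132) (.use 79) (.use
  133))) (.br 697 .no (.red [.f 569 1 3] 88 136 [2, 2, 2] [(88, 136, [2, 2, 2])]) .no (.use 134)
  (.br 690 .no (.use 51) .no (.use 137) (.use 79) (.use 138)) .no) .no .no) (.use 140) .no (.hor
  [.f 928 3 5] []) .no .no) .no (.use 141) .no .no) .no .no) .no (.br 819 .no (.red [.f 691 1 3]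
  103 136 [2, 2, 4] [(103, 136, [2, 2, 4])]) .no (.br 704 .no (.hor [.f 576 1 5] []) (.br 944 .no
  (.br 690 .no (.use 51) (.use 145) (.br 698 .no (.use 124) .no .no .no (.use 132)) (.use 101)
  (.use 139)) .no .no .no .no) (.br 697 .no (.red [.f 569 1 3] 88 136 [2, 2, 2] [(88, 136, [2, 2,
  2])]) .no (.use 134) (.br 690 .no (.use 51) .no (.use 146) (.use 147) (.use 138)) .no) .no .no)
  .no .no)

def c27t149 : Tr4 :=
  .br 561 .no (.use 127) .no (.hor [.f 553 3 5] []) .no (.red [.t 696 4 2, .f 696 5 1, .t 697 1 4]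
  103 136 [2, 2, 4] [(87, 103, [2]), (103, 136, [2, 2, 4])])

def c27t150 : Tr4 :=
  .br 562 .no (.hor [.f 434 1 3, .f 562 3 1, .f 562 1 5] [(71, 103, [2, 2]), (87, 103, [2])]) .no
  (.use 149) .no (.hor [.t 697 2 4, .f 562 1 5] [(87, 103, [2])])

def c27t151 : Tr4 :=
  .br 562 .no (.hor [.f 433 1 5] []) .no (.use 127) .no .no

def c27t152 : Tr4 :=
  .br 800 .no (.br 683 .no (.hor [.f 554 1 5] []) .no (.con 136 [2, 2, 4, 4, 4, 2]) .no .no) .no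
  (.red [.f 792 3 1, .t 928 2 3, .t 937 2 3, .f 818 1 3] 119 136 [2, 4] [(116, 136, [2, 4, 4, 4,
  4]), (117, 136, [2, 4, 4, 4]), (118, 136, [2, 4, 4]), (119, 136, [2, 4])]) (.red [.f 800 5 3, .f
  801 3 5, .f 809 5 3, .f 681 3 1] 102 136 [2, 2, 4, 4] [(102, 136, [2, 2, 4, 4])]) .no

def c27t153 : Tr4 :=
  .br 689 .no (.hor [.f 561 1 3, .f 688 3 5] [(87, 103, [2])]) .no (.br 810 .no (.use 55) .no (.br
  691 .no (.br 570 .no (.use 150) (.br 561 .no (.use 151) .no (.br 682 .no (.use 152) .no (.red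
  [.f 674 3 1, .t 681 3 1] 102 136 [2, 2, 4, 4] [(101, 136, [2, 2, 4, 4, 4]), (102, 136, [2, 2, 4,
  4])]) (.br 800 .no (.br 560 .no (.hor [.f 432 1 3, .f 560 3 1, .f 568 1 5] [(71, 103, [2, 2]),
  (87, 103, [2])]) .no (.con 136 [2, 2, 4, 4, 4, 2, 3, 1]) .no .no) .no (.red [.f 792 3 1, .t 928
  2 3, .t 937 2 3, .f 818 1 3] 119 136 [2, 4] [(116, 136, [2, 4, 4, 4, 4]), (117, 136, [2, 4, 4,
  4]), (118, 136, [2, 4, 4]), (119, 136, [2, 4])]) (.red [.f 800 5 3, .f 801 3 5, .f 809 5 3, .f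
  681 3 1] 102 136 [2, 2, 4, 4] [(102, 136, [2, 2, 4, 4])]) .no) .no) (.hor [.t 697 2 4, .f 562 1
  5] [(87, 103, [2])]) (.red [.t 696 4 2, .f 696 5 1, .t 697 1 4] 103 136 [2, 2, 4] [(87, 103,
  [2]), (103, 136, [2, 2, 4])])) (.hor [.f 562 3 1, .f 562 1 5] [(87, 103, [2])]) (.hor [.t 690 3
  2, .f 569 1 5] [(87, 103, [2])]) .no) .no (.red [.f 683 3 1, .f 691 1 3, .f 690 3 5] 103 136 [2,
  2, 4] [(102, 136, [2, 2, 4, 4]), (103, 136, [2, 2, 4])]) .no .no) .no .no) .no .no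

def c27t154 : Tr4 :=
  .br 696 .no (.hor [.f 568 1 5] []) .no (.use 57) .no .no

def c27t155 : Tr4 :=
  .br 688 .no (.red [.f 560 1 3] 87 136 [2, 4, 2, 2] [(87, 136, [2, 4, 2, 2])]) .no (.br 691 .no
  (.con 136 [2, 4, 2, 2, 4]) .no (.red [.f 689 5 3, .f 683 3 1] 102 136 [2, 4, 2, 4] [(102, 136,
  [2, 4, 2, 4])]) .no .no) .no .no

def c27t156 : Tr4 :=
  .br 696 .no (.br 697 .no (.hor [.f 568 1 5] []) .no .no (.use 155) .no) .no (.red [.f 689 5 1,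
  .t 688 3 1] 103 136 [2, 2, 4] [(103, 136, [2, 2, 4])]) (.red [.f 696 5 3, .f 689 5 1, .f 696 3
  5, .f 696 5 1, .f 689 1 3] 103 136 [2, 2, 4] [(103, 136, [2, 2, 4])]) .no

def c27t157 : Tr4 :=
  .br 809 .no (.br 690 .no (.use 51) (.br 697 .no (.use 154) .no (.hor [.f 689 3 5] []) .no (.red
  [.f 696 5 3, .f 696 3 5, .f 696 5 1, .t 697 1 4] 103 136 [2, 2, 4] [(103, 136, [2, 2, 4])]))
  (.con 136 [2, 2, 4, 4, 4]) (.use 87) (.use 156)) .no (.red [.f 808 1 3, .f 801 3 1, .f 808 3 1,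
  .f 808 1 5] 117 136 [2, 4, 4, 4] [(117, 136, [2, 4, 4, 4])]) (.red [.f 808 1 3, .f 809 5 3, .f
  810 3 5, .t 954 2 4] 119 136 [2, 4] [(118, 102, [1]), (119, 136, [2, 4])]) .no

def c27t158 : Tr4 :=
  .br 562 .no (.hor [.f 433 1 5] []) .no (.use 127) .no .no

def c27t159 : Tr4 :=
  .br 561 .no (.use 158) .no (.br 562 .no (.hor [.t 568 3 1, .f 434 1 3, .f 562 3 1, .f 562 1 5]
  [(71, 103, [2, 2]), (87, 103, [2]), (88, 136, [2, 2, 2])]) .no (.use 149) .no .no) (.hor [.t 697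
  2 4, .f 562 1 5] [(87, 103, [2])]) (.red [.t 696 4 2, .f 696 5 1, .t 697 1 4] 103 136 [2, 2, 4]
  [(87, 103, [2]), (103, 136, [2, 2, 4])])

def c27t160 : Tr4 :=
  .br 554 .no (.hor [.f 426 1 3, .f 553 3 5] [(70, 136, [2, 2, 4, 2, 2, 4])]) .no (.br 803 .no
  (.red [.t 802 3 2, .t 681 3 1, .t 688 3 1] 103 136 [2, 2, 4] [(101, 136, [2, 2, 4, 4, 4]), (102,
  136, [2, 2, 4, 4]), (103, 136, [2, 2, 4])]) .no (.br 675 .no (.con 136 [2, 2, 4, 4, 4, 2, 2])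
  .no (.red [.f 667 3 1, .t 802 3 2] 101 136 [2, 2, 4, 4, 4] [(100, 136, [2, 2, 4, 4, 4, 4]),
  (101, 136, [2, 2, 4, 4, 4])]) .no (.red [.f 674 5 3, .f 674 3 1, .t 681 3 1, .t 688 3 1] 103 136
  [2, 2, 4] [(101, 136, [2, 2, 4, 4, 4]), (102, 136, [2, 2, 4, 4]), (103, 136, [2, 2, 4])])) .no
  .no) (.red [.f 554 5 1, .f 555 1 3, .f 683 3 1] 102 136 [2, 2, 4, 4] [(86, 136, [2, 2, 4, 2,
  4]), (102, 136, [2, 2, 4, 4])]) .no

def c27t161 : Tr4 :=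
  .br 939 .no .no .no (.use 160) .no .no

def c27t162 : Tr4 :=
  .br 800 .no (.use 161) .no (.red [.f 792 3 1, .t 928 2 3, .t 937 2 3, .f 818 1 3] 119 136 [2, 4]
  [(116, 136, [2, 4, 4, 4, 4]), (117, 136, [2, 4, 4, 4]), (118, 136, [2, 4, 4]), (119, 136, [2,
  4])]) (.red [.f 800 5 3, .f 801 3 5, .f 809 5 3, .f 681 3 1] 102 136 [2, 2, 4, 4] [(102, 136,
  [2, 2, 4, 4])]) .no

def c27t163 : Tr4 :=
  .br 562 .no (.use 162) .no (.use 149) .no .no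

def c27t164 : Tr4 :=
  .br 810 .no (.use 55) .no (.br 691 .no (.br 570 .no (.use 159) (.br 561 .no (.use 151) .no (.br
  682 .no (.use 152) .no (.red [.f 674 3 1, .t 681 3 1] 102 136 [2, 2, 4, 4] [(101, 136, [2, 2, 4,
  4, 4]), (102, 136, [2, 2, 4, 4])]) (.use 163) .no) (.hor [.t 697 2 4, .f 562 1 5] [(87, 103,
  [2])]) (.red [.t 696 4 2, .f 696 5 1, .t 697 1 4] 103 136 [2, 2, 4] [(87, 103, [2]), (103, 136,
  [2, 2, 4])])) (.hor [.f 562 3 1, .f 562 1 5] [(87, 103, [2])]) (.hor [.t 690 3 2, .f 569 1 5]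
  [(87, 103, [2])]) .no) .no (.red [.f 683 3 1, .f 691 1 3, .f 690 3 5] 103 136 [2, 2, 4] [(102,
  136, [2, 2, 4, 4]), (103, 136, [2, 2, 4])]) .no .no) .no .no

def c27t165 : Tr4 :=
  .br 928 (.hor [.f 928 1 3, .f 928 3 5] [(133, 102, [1, 4, 1])]) (.red [.t 928 2 3, .t 937 2 3,
  .f 818 1 3] 119 136 [2, 4] [(117, 136, [2, 4, 4, 4]), (118, 136, [2, 4, 4]), (119, 136, [2,
  4])]) .no (.br 568 .no (.use 153) (.br 689 .no (.hor [.f 561 1 3, .f 688 3 5] [(87, 103, [2])])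
  .no (.br 1067 (.con 136 [4, 4, 1, 3, 2, 2]) (.con 136 [4, 4, 1, 3, 2, 2]) (.use 164) (.con 136
  [4, 4, 1, 3, 2, 2]) .no (.con 136 [4, 4, 1, 3, 2, 2])) .no .no) (.hor [.f 560 3 1, .f 568 1 5]
  [(87, 103, [2])]) .no .no) .no .no

def c27t166 : Tr4 :=
  .br 562 .no (.br 1059 (.hor [.f 1059 1 3, .f 1058 3 5] [(149, 101, [1, 1, 1])]) (.con 136 [2, 4,
  4, 4, 1, 3, 2, 2]) .no (.br 931 .no (.con 136 [2, 4, 4, 4, 1, 3, 2, 2]) (.br 800 .no (.use 160)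
  .no (.red [.f 792 3 1, .t 928 2 3, .t 937 2 3, .f 818 1 3] 119 136 [2, 4] [(116, 136, [2, 4, 4,
  4, 4]), (117, 136, [2, 4, 4, 4]), (118, 136, [2, 4, 4]), (119, 136, [2, 4])]) (.red [.f 800 5 3,
  .f 801 3 5, .f 809 5 3, .f 681 3 1] 102 136 [2, 2, 4, 4] [(102, 136, [2, 2, 4, 4])]) .no) (.con
  136 [2, 4, 4, 4, 1, 3, 2, 2]) .no (.con 136 [2, 4, 4, 4, 1, 3, 2, 2])) .no .no) .no (.use 149)
  .no .no

def c27t167 : Tr4 :=
  .br 675 .no (.con 136 [2, 2, 4, 4, 4, 2, 4]) .no (.red [.f 667 3 1, .t 802 3 2] 101 136 [2, 2,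
  4, 4, 4] [(100, 136, [2, 2, 4, 4, 4, 4]), (101, 136, [2, 2, 4, 4, 4])]) .no (.red [.f 674 5 3,
  .f 674 3 1, .t 681 3 1, .t 688 3 1] 103 136 [2, 2, 4] [(101, 136, [2, 2, 4, 4, 4]), (102, 136,
  [2, 2, 4, 4]), (103, 136, [2, 2, 4])])

def c27t168 : Tr4 :=
  .br 803 .no (.red [.t 802 3 2, .t 681 3 1, .t 688 3 1] 103 136 [2, 2, 4] [(101, 136, [2, 2, 4,
  4, 4]), (102, 136, [2, 2, 4, 4]), (103, 136, [2, 2, 4])]) .no (.use 167) .no .no

def c27t169 : Tr4 :=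
  .br 801 .no (.hor [.f 672 1 5] []) .no (.con 136 [4, 2, 4, 4, 2, 4]) .no .no

def c27t170 : Tr4 :=
  .br 803 .no (.red [.t 802 3 2, .t 681 3 1, .t 688 3 1] 103 136 [2, 2, 4] [(101, 136, [2, 2, 4,
  4, 4]), (102, 136, [2, 2, 4, 4]), (103, 136, [2, 2, 4])]) .no (.use 167) .no .no

def c27t171 : Tr4 :=
  .br 562 .no (.br 800 .no (.br 930 .no .no .no (.br 931 (.br 554 .no (.hor [.f 426 1 3, .f 553 3
  5] [(70, 136, [2, 2, 2, 4, 2, 4])]) .no (.use 168) (.red [.f 554 5 1, .f 555 1 3, .f 683 3 1]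
  102 136 [2, 2, 4, 4] [(86, 136, [2, 2, 2, 4, 4]), (102, 136, [2, 2, 4, 4])]) .no) (.use 169) .no
  (.hor [.f 922 3 5] []) .no .no) (.br 554 .no (.hor [.f 426 1 3, .f 553 3 5] [(70, 136, [2, 2, 2,
  4, 2, 4])]) .no (.use 170) (.red [.f 554 5 1, .f 555 1 3, .f 683 3 1] 102 136 [2, 2, 4, 4] [(86,
  136, [2, 2, 2, 4, 4]), (102, 136, [2, 2, 4, 4])]) .no) .no) .no (.red [.f 792 3 1, .t 928 2 3,
  .t 937 2 3, .f 818 1 3] 119 136 [2, 4] [(116, 136, [2, 4, 4, 4, 4]), (117, 136, [2, 4, 4, 4]),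
  (118, 136, [2, 4, 4]), (119, 136, [2, 4])]) (.red [.f 800 5 3, .f 801 3 5, .f 809 5 3, .f 681 3
  1] 102 136 [2, 2, 4, 4] [(102, 136, [2, 2, 4, 4])]) .no) .no (.use 149) .no .no

def c27t172 : Tr4 :=
  .br 931 (.con 136 [2, 4, 4, 4, 1, 3, 2, 2]) (.con 136 [2, 4, 4, 4, 1, 3, 2, 2]) (.use 160) (.con
  136 [2, 4, 4, 4, 1, 3, 2, 2]) .no (.con 136 [2, 4, 4, 4, 1, 3, 2, 2])

def c27t173 : Tr4 :=
  .br 562 .no (.br 800 .no (.use 172) .no (.red [.f 792 3 1, .t 928 2 3, .t 937 2 3, .f 818 1 3]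
  119 136 [2, 4] [(116, 136, [2, 4, 4, 4, 4]), (117, 136, [2, 4, 4, 4]), (118, 136, [2, 4, 4]),
  (119, 136, [2, 4])]) (.red [.f 800 5 3, .f 801 3 5, .f 809 5 3, .f 681 3 1] 102 136 [2, 2, 4, 4]
  [(102, 136, [2, 2, 4, 4])]) .no) .no (.use 149) .no .no

def c27t174 : Tr4 :=
  .br 1203 (.use 165) (.br 928 (.hor [.f 928 1 3, .f 928 3 5] [(133, 102, [1, 4, 1])]) (.red [.t
  928 2 3, .t 937 2 3, .f 818 1 3] 119 136 [2, 4] [(117, 136, [2, 4, 4, 4]), (118, 136, [2, 4,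
  4]), (119, 136, [2, 4])]) .no (.br 568 .no (.use 153) (.br 689 .no (.hor [.f 561 1 3, .f 688 3
  5] [(87, 103, [2])]) .no (.br 1066 .no .no .no (.br 1067 (.br 810 .no (.use 55) .no (.br 691 .no
  (.br 570 .no (.use 159) (.br 561 .no (.use 151) .no (.br 682 .no (.use 152) .no (.red [.f 674 3
  1, .t 681 3 1] 102 136 [2, 2, 4, 4] [(101, 136, [2, 2, 4, 4, 4]), (102, 136, [2, 2, 4, 4])])
  (.use 166) .no) (.hor [.t 697 2 4, .f 562 1 5] [(87, 103, [2])]) (.red [.t 696 4 2, .f 696 5 1,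
  .t 697 1 4] 103 136 [2, 2, 4] [(87, 103, [2]), (103, 136, [2, 2, 4])])) (.hor [.f 562 3 1, .f
  562 1 5] [(87, 103, [2])]) (.hor [.t 690 3 2, .f 569 1 5] [(87, 103, [2])]) .no) .no (.red [.f
  683 3 1, .f 691 1 3, .f 690 3 5] 103 136 [2, 2, 4] [(102, 136, [2, 2, 4, 4]), (103, 136, [2, 2,
  4])]) .no .no) .no .no) (.br 810 .no (.use 55) .no (.br 691 .no (.br 570 .no (.use 159) (.br 561
  .no (.use 151) .no (.br 682 .no (.use 152) .no (.red [.f 674 3 1, .t 681 3 1] 102 136 [2, 2, 4,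
  4] [(101, 136, [2, 2, 4, 4, 4]), (102, 136, [2, 2, 4, 4])]) (.use 171) .no) (.hor [.t 697 2 4,
  .f 562 1 5] [(87, 103, [2])]) (.red [.t 696 4 2, .f 696 5 1, .t 697 1 4] 103 136 [2, 2, 4] [(87,
  103, [2]), (103, 136, [2, 2, 4])])) (.hor [.f 562 3 1, .f 562 1 5] [(87, 103, [2])]) (.hor [.t
  690 3 2, .f 569 1 5] [(87, 103, [2])]) .no) .no (.red [.f 683 3 1, .f 691 1 3, .f 690 3 5] 103
  136 [2, 2, 4] [(102, 136, [2, 2, 4, 4]), (103, 136, [2, 2, 4])]) .no .no) .no .no) .no (.hor [.f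
  1058 3 5] []) .no .no) (.br 810 .no (.use 55) .no (.br 691 .no (.br 570 .no (.use 159) (.br 561
  .no (.use 151) .no (.br 682 .no (.use 152) .no (.red [.f 674 3 1, .t 681 3 1] 102 136 [2, 2, 4,
  4] [(101, 136, [2, 2, 4, 4, 4]), (102, 136, [2, 2, 4, 4])]) (.use 173) .no) (.hor [.t 697 2 4,
  .f 562 1 5] [(87, 103, [2])]) (.red [.t 696 4 2, .f 696 5 1, .t 697 1 4] 103 136 [2, 2, 4] [(87,
  103, [2]), (103, 136, [2, 2, 4])])) (.hor [.f 562 3 1, .f 562 1 5] [(87, 103, [2])]) (.hor [.t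
  690 3 2, .f 569 1 5] [(87, 103, [2])]) .no) .no (.red [.f 683 3 1, .f 691 1 3, .f 690 3 5] 103
  136 [2, 2, 4] [(102, 136, [2, 2, 4, 4]), (103, 136, [2, 2, 4])]) .no .no) .no .no) .no) .no .no)
  (.hor [.f 560 3 1, .f 568 1 5] [(87, 103, [2])]) .no .no) .no .no) .no (.hor [.f 1194 3 5] [])
  .no .no

def c27t175 : Tr4 :=
  .br 928 (.hor [.f 928 1 3, .f 928 3 5] [(133, 118, [1, 4])]) (.red [.t 928 2 3, .t 937 2 3, .f
  818 1 3] 119 136 [2, 4] [(117, 136, [2, 4, 4, 4]), (118, 136, [2, 4, 4]), (119, 136, [2, 4])])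
  .no (.br 568 .no (.use 153) (.br 689 .no (.hor [.f 561 1 3, .f 688 3 5] [(87, 103, [2])]) .no
  (.use 164) .no .no) (.hor [.f 560 3 1, .f 568 1 5] [(87, 103, [2])]) .no .no) .no .no

def c27t176 : Tr4 :=
  .br 691 .no (.con 136 [2, 2, 2, 4, 4]) .no (.red [.f 689 5 3, .f 683 3 1] 102 136 [2, 2, 4, 4]
  [(102, 136, [2, 2, 4, 4])]) .no .no

def c27t177 : Tr4 :=
  .br 696 .no (.br 697 .no (.hor [.f 568 1 5] []) .no .no (.br 688 .no (.red [.f 560 1 3] 87 136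
  [2, 2, 2, 4] [(87, 136, [2, 2, 2, 4])]) .no (.use 176) .no .no) .no) .no (.red [.f 689 5 1, .t
  688 3 1] 103 136 [2, 2, 4] [(103, 136, [2, 2, 4])]) (.red [.f 696 5 3, .f 689 5 1, .f 696 3 5,
  .f 696 5 1, .f 689 1 3] 103 136 [2, 2, 4] [(103, 136, [2, 2, 4])]) .no

def c27l3 : List Tr4 :=
  [c27t139, c27t140, c27t141, c27t142, c27t143, c27t144, c27t145, c27t146, c27t147, c27t148,
  c27t149, c27t150, c27t151, c27t152, c27t153, c27t154, c27t155, c27t156, c27t157, c27t158,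
  c27t159, c27t160, c27t161, c27t162, c27t163, c27t164, c27t165, c27t166, c27t167, c27t168,
  c27t169, c27t170, c27t171, c27t172, c27t173, c27t174, c27t175, c27t176, c27t177]

theorem c27k3 : chkLF ⟨4, 1, 0, true, -8⟩ false 7 c27N 139 c27l3 = true := by decide +kernel

def c27t178 : Tr4 :=
  .br 690 .no (.use 51) (.br 697 .no (.br 696 .no (.hor [.f 568 1 5] []) .no (.br 809 .no (.use
  57) .no (.use 142) (.red [.f 809 5 3, .f 810 3 5, .t 954 2 4] 119 136 [2, 4] [(119, 136, [2,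
  4])]) (.br 1202 .no .no .no (.use 174) (.br 1066 (.hor [.f 1065 1 5] []) .no .no (.br 1067 (.con
  136 [4, 4, 1, 3, 2, 2]) (.con 136 [4, 4, 1, 3, 2, 2]) (.use 175) (.con 136 [4, 4, 1, 3, 2, 2])
  .no .no) (.con 136 [4, 4, 1, 3, 2, 2]) .no) .no)) .no .no) .no (.hor [.f 689 3 5] []) .no (.red
  [.f 696 5 3, .f 696 3 5, .f 696 5 1, .t 697 1 4] 103 136 [2, 2, 4] [(103, 136, [2, 2, 4])]))
  (.use 137) (.use 79) (.use 177)

def c27t179 : Tr4 :=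
  .br 697 .no (.br 696 .no (.hor [.f 568 1 5] []) .no (.use 143) .no .no) .no (.hor [.f 689 3 5]
  []) .no (.red [.f 696 5 3, .f 696 3 5, .f 696 5 1, .t 697 1 4] 103 136 [2, 2, 4] [(103, 136, [2,
  2, 4])])

def c27t180 : Tr4 :=
  .br 690 .no (.use 51) (.use 179) (.use 146) (.use 101) (.use 177)

def c27t181 : Tr4 :=
  .br 1065 .no .no .no (.hor [.f 929 3 1, .f 936 1 5] [(133, 119, [1, 4, 4])]) (.red [.t 945 1 4,
  .f 817 5 1, .f 818 1 3] 119 136 [2, 4] [(119, 136, [2, 4]), (134, 118, [1])]) .no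

def c27t182 : Tr4 :=
  .br 937 (.red [.f 937 1 3, .f 937 3 5, .f 817 5 1, .f 818 1 3] 119 136 [2, 4] [(119, 136, [2,
  4]), (134, 118, [1])]) (.red [.t 937 2 3, .f 818 1 3] 119 136 [2, 4] [(118, 136, [2, 4, 4]),
  (119, 136, [2, 4])]) .no (.br 936 (.use 181) (.use 157) .no (.hor [.f 928 3 5] []) .no .no) .no
  (.use 180)

def c27t183 : Tr4 :=
  .br 819 .no (.red [.f 691 1 3] 103 136 [2, 2, 4] [(103, 136, [2, 2, 4])]) .no (.br 690 .no (.use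
  51) (.use 179) (.use 146) (.use 147) (.br 696 .no (.br 697 .no (.hor [.f 568 1 5] []) .no .no
  (.br 688 (.con 136 [2, 2, 4, 4]) (.red [.f 560 1 3] 87 136 [2, 2, 2, 4] [(87, 136, [2, 2, 2,
  4])]) .no (.use 176) .no .no) .no) .no (.red [.f 689 5 1, .t 688 3 1] 103 136 [2, 2, 4] [(103,
  136, [2, 2, 4])]) (.red [.f 696 5 3, .f 689 5 1, .f 696 3 5, .f 696 5 1, .f 689 1 3] 103 136 [2,
  2, 4] [(103, 136, [2, 2, 4])]) .no)) .no .no

def c27t184 : Tr4 :=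
  .br 937 (.red [.f 937 1 3, .f 937 3 5, .f 817 5 1, .f 818 1 3] 119 136 [2, 4] [(119, 136, [2,
  4]), (134, 118, [1])]) (.red [.t 937 2 3, .f 818 1 3] 119 136 [2, 4] [(118, 136, [2, 4, 4]),
  (119, 136, [2, 4])]) .no (.br 819 .no (.red [.f 691 1 3] 103 136 [2, 2, 4] [(103, 136, [2, 2,
  4])]) .no (.br 944 .no (.br 936 (.br 1065 (.br 690 .no (.use 51) (.br 697 .no (.br 696 .no (.hor
  [.f 568 1 5] []) .no (.br 809 .no (.use 57) .no (.use 142) (.red [.f 809 5 3, .f 810 3 5, .t 954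
  2 4] 119 136 [2, 4] [(119, 136, [2, 4])]) (.br 1066 (.hor [.f 1065 1 5] []) .no .no (.br 1067
  (.con 136 [4, 4, 1, 3, 2, 2]) (.con 136 [4, 4, 1, 3, 2, 2]) (.use 175) (.con 136 [4, 4, 1, 3, 2,
  2]) .no .no) (.con 136 [4, 4, 1, 3, 2, 2]) .no)) .no .no) .no (.hor [.f 689 3 5] []) .no (.red
  [.f 696 5 3, .f 696 3 5, .f 696 5 1, .t 697 1 4] 103 136 [2, 2, 4] [(103, 136, [2, 2, 4])]))
  (.use 137) (.use 79) (.use 177)) .no .no (.hor [.f 929 3 1, .f 936 1 5] [(133, 102, [1, 4, 1])])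
  (.red [.t 945 1 4, .f 817 5 1, .f 818 1 3] 119 136 [2, 4] [(119, 136, [2, 4]), (134, 118, [1])])
  .no) (.use 157) .no (.hor [.f 928 3 5] []) .no .no) .no (.use 141) .no .no) .no .no) .no (.use
  183)

def c27t185 : Tr4 :=
  .br 819 .no (.red [.f 691 1 3] 103 136 [2, 2, 4] [(103, 136, [2, 2, 4])]) .no (.br 944 .no (.br
  936 (.br 1065 (.use 178) .no .no (.hor [.f 929 3 1, .f 936 1 5] [(133, 102, [1, 4, 1])]) (.red
  [.t 945 1 4, .f 817 5 1, .f 818 1 3] 119 136 [2, 4] [(119, 136, [2, 4]), (134, 118, [1])]) .no)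
  (.use 157) .no (.hor [.f 928 3 5] []) .no .no) .no (.use 141) .no .no) .no .no

def c27t186 : Tr4 :=
  .br 819 .no (.red [.f 691 1 3] 103 136 [2, 2, 4] [(103, 136, [2, 2, 4])]) .no (.use 157) .no .no

def c27t187 : Tr4 :=
  .br 944 .no (.use 186) .no .no .no .no

def c27t188 : Tr4 :=
  .br 936 (.use 181) (.use 187) (.br 1065 .no .no .no (.br 1064 (.hor [.f 1064 1 3, .f 1192 3 5]
  [(150, 118, [1, 1])]) .no .no (.hor [.f 1056 3 5] []) .no .no) (.red [.t 945 1 4, .f 817 5 1, .f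
  818 1 3] 119 136 [2, 4] [(119, 136, [2, 4]), (134, 118, [1])]) (.hor [.t 1200 2 4, .f 936 3 1,
  .f 944 1 5] [(134, 118, [1]), (150, 118, [1, 1])])) (.hor [.f 928 3 5] []) .no .no

def c27t189 : Tr4 :=
  .br 1211 (.br 1346 (.br 1338 (.red [.f 1338 1 3, .f 1210 3 1, .f 1217 1 5, .t 1097 4 1, .f 1081
  1 3] 153 136 [3, 1] [(152, 136, [1]), (153, 136, [3, 1]), (168, 152, [1]), (184, 136, [1, 1,
  1])]) .no .no (.br 937 (.red [.f 937 1 3, .f 937 3 5, .f 817 5 1, .f 818 1 3] 119 136 [2, 4]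
  [(119, 136, [2, 4]), (134, 118, [1])]) (.red [.t 937 2 3, .f 818 1 3] 119 136 [2, 4] [(118, 136,
  [2, 4, 4]), (119, 136, [2, 4])]) .no (.br 1201 (.use 185) .no .no (.use 188) (.red [.t 1081 1 4,
  .t 961 4 1, .f 945 1 3] 136 136 [] [(135, 136, [4]), (136, 136, []), (151, 135, [1])]) .no) .no
  (.use 183)) .no (.red [.t 1217 1 4, .t 1097 4 1, .f 1081 1 3] 153 136 [3, 1] [(152, 136, [1]),
  (153, 136, [3, 1]), (168, 152, [1])])) .no (.br 819 .no (.red [.f 691 1 3] 103 136 [2, 2, 4]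
  [(103, 136, [2, 2, 4])]) .no (.br 944 .no (.br 1337 (.br 1201 (.br 937 (.red [.f 937 1 3, .f 937
  3 5, .f 817 5 1, .f 818 1 3] 119 136 [2, 4] [(119, 136, [2, 4]), (134, 118, [1])]) (.red [.t 937
  2 3, .f 818 1 3] 119 136 [2, 4] [(118, 136, [2, 4, 4]), (119, 136, [2, 4])]) .no (.br 936 (.br
  1065 (.br 1338 (.hor [.f 1337 1 5] []) .no .no (.use 178) .no .no) .no .no (.hor [.f 929 3 1, .f
  936 1 5] [(133, 102, [1, 4, 1])]) (.red [.t 945 1 4, .f 817 5 1, .f 818 1 3] 119 136 [2, 4]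
  [(119, 136, [2, 4]), (134, 118, [1])]) .no) (.use 157) .no (.hor [.f 928 3 5] []) .no .no) .no
  (.use 180)) .no .no (.use 182) (.red [.t 1081 1 4, .t 961 4 1, .f 945 1 3] 136 136 [] [(135,
  136, [4]), (136, 136, []), (151, 135, [1])]) .no) .no .no (.br 1201 .no .no .no (.use 182) (.red
  [.t 1081 1 4, .t 961 4 1, .f 945 1 3] 136 136 [] [(135, 136, [4]), (136, 136, []), (151, 135,
  [1])]) .no) (.red [.t 1217 1 4, .t 1097 4 1, .f 1081 1 3] 153 136 [3, 1] [(152, 136, [1]), (153,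
  136, [3, 1]), (168, 152, [1])]) (.con 136 [1, 1, 4, 2, 2, 2])) .no (.use 141) .no .no) .no .no)
  (.red [.f 1210 3 1, .f 1217 1 5, .t 1097 4 1] 153 136 [3, 1] [(153, 136, [3, 1]), (168, 152,
  [1])]) (.red [.t 1210 3 1, .f 1217 1 5, .t 1097 4 1, .f 1081 1 3] 153 136 [3, 1] [(152, 136,
  [1]), (153, 136, [3, 1]), (168, 152, [1])]) .no) .no (.hor [.f 1210 3 5] []) (.use 184) .no .no

def c27t190 : Tr4 :=
  .br 1211 (.br 1346 (.br 937 (.red [.f 937 1 3, .f 937 3 5, .f 817 5 1, .f 818 1 3] 119 136 [2,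
  4] [(119, 136, [2, 4]), (134, 118, [1])]) (.red [.t 937 2 3, .f 818 1 3] 119 136 [2, 4] [(118,
  136, [2, 4, 4]), (119, 136, [2, 4])]) .no (.br 1201 (.br 1338 (.hor [.f 1338 1 3, .f 1210 3 1,
  .f 1210 1 5] [(168, 136, [1, 1]), (184, 119, [1, 1, 1, 1, 3])]) .no .no (.use 185) .no (.red [.t
  1217 1 4, .f 1217 5 3, .f 1089 3 1] 153 136 [3, 1] [(153, 136, [3, 1]), (168, 152, [1])])) .no
  .no (.use 188) (.red [.t 1081 1 4, .t 961 4 1, .f 945 1 3] 136 136 [] [(135, 136, [4]), (136,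
  136, []), (151, 135, [1])]) .no) .no (.use 183)) .no (.red [.t 1345 2 3, .f 1089 3 1] 153 136
  [3, 1] [(153, 136, [3, 1]), (169, 136, [3, 1, 1])]) (.red [.f 1210 3 1, .f 1217 1 5, .f 1217 5
  3, .f 1089 3 1] 153 136 [3, 1] [(153, 136, [3, 1]), (168, 152, [1])]) (.red [.t 1210 3 1, .f
  1217 1 5, .f 1217 5 3, .f 1089 3 1] 153 136 [3, 1] [(153, 136, [3, 1]), (168, 152, [1])]) .no)
  .no (.hor [.f 1210 3 5] []) (.use 184) .no .no

def c27t191 : Tr4 :=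
  .br 840 .no (.hor [.t 840 2 4, .f 705 1 5] [(105, 136, [2, 2, 3])]) .no .no .no .no

def c27t192 : Tr4 :=
  .br 976 .no (.use 191) (.red [.f 976 3 1] 139 136 [3, 3, 3] [(139, 136, [3, 3, 3])]) .no .no .no

def c27t193 : Tr4 :=
  .br 937 (.red [.f 937 1 3, .f 937 3 5, .f 817 5 1, .f 818 1 3] 119 136 [2, 4] [(119, 136, [2,
  4]), (134, 118, [1])]) (.red [.t 937 2 3, .f 818 1 3] 119 136 [2, 4] [(118, 136, [2, 4, 4]),
  (119, 136, [2, 4])]) .no (.br 705 .no (.br 936 .no (.br 819 .no (.red [.f 691 1 3] 103 136 [2,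
  2, 4] [(103, 136, [2, 2, 4])]) .no (.use 140) .no .no) .no (.hor [.f 928 3 5] []) .no .no) (.hor
  [.f 705 3 1, .f 705 1 5] [(105, 103, [3, 3])]) (.red [.t 960 2 4, .f 825 1 5, .t 705 4 1, .t
  1073 2 3, .f 954 1 3, .f 826 3 1] 136 136 [] [(104, 136, [2, 2]), (135, 136, [4]), (136, 136,
  [])]) .no (.br 936 .no (.use 186) .no (.hor [.f 928 3 5] []) .no .no)) .no (.red [.t 1072 4 2,
  .f 937 3 5, .f 817 5 1, .f 818 1 3] 119 136 [2, 4] [(119, 136, [2, 4]), (134, 118, [1])])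

def c27t194 : Tr4 :=
  .br 833 .no (.hor [.f 705 1 5] []) (.br 944 .no (.use 193) .no (.hor [.f 936 3 1, .f 944 1 5]
  [(134, 118, [1])]) .no .no) .no .no .no

def c27t195 : Tr4 :=
  .br 1105 .no .no (.hor [.f 1105 3 5] []) .no .no .no

def c27t196 : Tr4 :=
  .br 579 (.hor [.f 578 1 5] []) (.con 136 [2, 2, 2, 3]) (.con 136 [2, 2, 2, 3]) (.con 136 [2, 2,
  2, 3]) .no .no

def c27t197 : Tr4 :=
  .br 579 (.hor [.f 578 1 5] []) (.con 136 [2, 2, 2, 3, 1, 4, 2, 3, 1, 4, 2, 3, 1]) (.con 136 [2,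
  2, 2, 3, 1, 4, 2, 3, 1, 4, 2, 3, 1]) (.con 136 [2, 2, 2, 3, 1, 4, 2, 3, 1, 4, 2, 3, 1]) .no .no

def c27t198 : Tr4 :=
  .br 704 .no (.use 196) (.br 714 .no (.red [.f 578 1 3, .f 706 3 1, .f 705 1 5] 105 136 [2, 2, 3]
  [(89, 136, [2, 2, 2, 3]), (105, 136, [2, 2, 3])]) (.br 851 (.hor [.f 850 1 5] []) (.con 136 [2,
  3, 3, 3]) (.con 136 [2, 3, 3, 3]) (.con 136 [2, 3, 3, 2]) .no .no) .no (.use 197) (.red [.t 833
  2 3, .f 704 3 5] 105 136 [2, 2, 3] [(105, 136, [2, 2, 3])])) (.use 45) .no .no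

def c27t199 : Tr4 :=
  .br 843 .no (.red [.t 842 4 2, .f 705 1 5] 105 136 [3, 2, 2] [(105, 136, [3, 2, 2])]) (.con 136
  [3, 2, 3, 3]) .no .no .no

def c27t200 : Tr4 :=
  .br 704 .no (.use 196) (.br 714 .no (.red [.f 578 1 3, .f 706 3 1, .f 705 1 5] 105 136 [2, 2, 3]
  [(89, 136, [2, 2, 2, 3]), (105, 136, [2, 2, 3])]) (.br 707 .no (.hor [.f 578 1 5] []) (.br 713
  .no (.con 136 [2, 2, 2, 3, 3]) (.red [.f 713 3 1, .f 705 1 3] 106 136 [2, 2, 3, 3] [(105, 136,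
  [2, 2, 3]), (106, 136, [2, 2, 3, 3])]) .no .no .no) .no .no .no) .no (.use 197) (.red [.t 833 2
  3, .f 704 3 5] 105 136 [2, 2, 3] [(105, 136, [2, 2, 3])])) (.use 45) .no .no

def c27t201 : Tr4 :=
  .br 843 .no (.red [.t 842 4 2, .f 705 1 5] 105 136 [3, 2, 2] [(105, 136, [3, 2, 2])]) (.con 136
  [3, 2, 3, 2]) .no .no .no

def c27t202 : Tr4 :=
  .br 819 .no (.red [.f 691 1 3] 103 136 [2, 2, 4] [(103, 136, [2, 2, 4])]) .no (.br 696 .no (.use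
  47) (.con 136 [2, 2, 2]) (.br 690 .no (.use 51) .no (.use 146) (.use 147) (.red [.f 689 5 1, .t
  688 3 1] 103 136 [2, 2, 4] [(103, 136, [2, 2, 4])])) (.use 103) .no) .no .no

def c27t203 : Tr4 :=
  .br 978 (.red [.t 1106 2 4, .f 969 3 5] 138 136 [3, 3] [(138, 136, [3, 3])]) (.br 1104 (.br 1106
  (.con 136 [3, 3, 1, 3]) .no (.use 195) .no .no (.red [.t 1225 3 2, .f 1104 1 5, .t 968 1 3] 138
  136 [3, 3] [(138, 136, [3, 3]), (154, 138, [1])])) (.red [.f 968 1 3, .f 968 3 5] 138 136 [3, 3]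
  [(138, 136, [3, 3])]) (.br 976 .no (.br 1105 .no .no (.hor [.f 1104 3 5] []) .no (.br 819 .no
  (.red [.f 691 1 3] 103 136 [2, 2, 4] [(103, 136, [2, 2, 4])]) .no (.br 944 .no (.br 1224 (.br
  937 (.red [.f 937 1 3, .f 937 3 5, .f 817 5 1, .f 818 1 3] 119 136 [2, 4] [(119, 136, [2, 4]),
  (134, 118, [1])]) (.red [.t 937 2 3, .f 818 1 3] 119 136 [2, 4] [(118, 136, [2, 4, 4]), (119,
  136, [2, 4])]) .no (.br 706 .no (.use 198) (.red [.f 706 3 1, .f 705 1 5] 105 136 [2, 2, 3]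
  [(105, 136, [2, 2, 3])]) (.use 95) (.use 199) .no) .no (.br 706 .no (.use 198) (.red [.f 706 3
  1, .f 705 1 5] 105 136 [2, 2, 3] [(105, 136, [2, 2, 3])]) (.br 696 .no (.use 47) (.con 136 [2,
  2, 2]) (.br 690 .no (.use 51) .no (.use 146) (.use 101) (.red [.f 689 5 1, .t 688 3 1] 103 136
  [2, 2, 4] [(103, 136, [2, 2, 4])])) (.use 102) .no) (.use 199) .no)) .no (.hor [.f 1224 3 5] [])
  .no .no .no) .no (.use 141) .no .no) .no .no) .no) (.red [.f 976 3 1] 139 136 [3, 3, 3] [(139,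
  136, [3, 3, 3])]) .no .no .no) .no (.red [.f 841 3 1, .f 841 1 3, .t 968 1 3] 138 136 [3, 3]
  [(138, 136, [3, 3])]) .no) (.br 1106 (.br 1104 (.con 136 [3, 3, 1, 3]) (.red [.f 968 1 3, .f 968
  3 5] 138 136 [3, 3] [(138, 136, [3, 3])]) (.use 80) .no (.red [.f 841 3 1, .f 841 1 3, .t 968 1
  3] 138 136 [3, 3] [(138, 136, [3, 3])]) .no) .no (.red [.f 978 3 1, .t 1106 2 4, .f 969 3 5] 138
  136 [3, 3] [(138, 136, [3, 3]), (139, 136, [3, 3, 3])]) .no .no (.br 1104 (.red [.t 1225 3 2, .f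
  1104 1 5, .t 968 1 3] 138 136 [3, 3] [(138, 136, [3, 3]), (154, 138, [1])]) (.red [.f 968 1 3,
  .f 968 3 5] 138 136 [3, 3] [(138, 136, [3, 3])]) (.br 976 .no (.br 937 (.red [.f 937 1 3, .f 937
  3 5, .f 817 5 1, .f 818 1 3] 119 136 [2, 4] [(119, 136, [2, 4]), (134, 118, [1])]) (.red [.t 937
  2 3, .f 818 1 3] 119 136 [2, 4] [(118, 136, [2, 4, 4]), (119, 136, [2, 4])]) .no (.br 706 .no
  (.use 200) (.red [.f 706 3 1, .f 705 1 5] 105 136 [2, 2, 3] [(105, 136, [2, 2, 3])]) (.use 96)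
  (.use 201) .no) .no (.br 706 .no (.use 200) (.red [.f 706 3 1, .f 705 1 5] 105 136 [2, 2, 3]
  [(105, 136, [2, 2, 3])]) (.use 202) (.use 201) .no)) (.red [.f 976 3 1] 139 136 [3, 3, 3] [(139,
  136, [3, 3, 3])]) .no .no .no) .no .no .no)) .no (.red [.f 970 5 3, .f 971 3 1] 138 136 [3, 3]
  [(138, 136, [3, 3])]) .no

def c27t204 : Tr4 :=
  .br 1106 (.con 136 [3, 3, 1, 3]) (.red [.t 1106 2 4, .f 969 3 5] 138 136 [3, 3] [(138, 136, [3,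
  3])]) (.use 195) .no .no (.red [.t 1225 3 2, .f 1104 1 5, .t 968 1 3] 138 136 [3, 3] [(138, 136,
  [3, 3]), (154, 138, [1])])

def c27t205 : Tr4 :=
  .br 704 .no (.use 196) (.red [.t 704 3 1, .f 833 3 5] 105 136 [2, 2, 3] [(105, 136, [2, 2, 3])])
  (.use 45) .no .no

def c27t206 : Tr4 :=
  .br 937 (.red [.f 937 1 3, .f 937 3 5, .f 817 5 1, .f 818 1 3] 119 136 [2, 4] [(119, 136, [2,
  4]), (134, 118, [1])]) (.red [.t 937 2 3, .f 818 1 3] 119 136 [2, 4] [(118, 136, [2, 4, 4]),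
  (119, 136, [2, 4])]) .no (.use 96) .no (.use 202)

def c27t207 : Tr4 :=
  .br 714 .no (.hor [.f 586 1 5] []) (.con 136 [2, 2, 3, 2, 3]) .no .no (.con 136 [2, 2, 3, 2, 3])

def c27t208 : Tr4 :=
  .br 979 .no .no (.hor [.f 978 3 5] []) .no .no .no

def c27t209 : Tr4 :=
  .br 843 .no (.hor [.t 842 4 2, .f 705 1 5] [(105, 136, [2, 3, 2])]) (.use 208) .no .no .no

def c27t210 : Tr4 :=
  .br 937 (.red [.f 937 1 3, .f 937 3 5, .f 817 5 1, .f 818 1 3] 119 136 [2, 4] [(119, 136, [2,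
  4]), (134, 118, [1])]) (.red [.t 937 2 3, .f 818 1 3] 119 136 [2, 4] [(118, 136, [2, 4, 4]),
  (119, 136, [2, 4])]) .no (.use 120) .no (.red [.t 1072 4 2, .f 937 3 5, .f 817 5 1, .f 818 1 3]
  119 136 [2, 4] [(119, 136, [2, 4]), (134, 118, [1])])

def c27l4 : List Tr4 :=
  [c27t178, c27t179, c27t180, c27t181, c27t182, c27t183, c27t184, c27t185, c27t186, c27t187,
  c27t188, c27t189, c27t190, c27t191, c27t192, c27t193, c27t194, c27t195, c27t196, c27t197,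
  c27t198, c27t199, c27t200, c27t201, c27t202, c27t203, c27t204, c27t205, c27t206, c27t207,
  c27t208, c27t209, c27t210]

theorem c27k4 : chkLF ⟨4, 1, 0, true, -8⟩ false 7 c27N 178 c27l4 = true := by decide +kernel

def c27t211 : Tr4 :=
  .br 1105 (.red [.f 970 5 1, .f 962 1 3, .f 1089 3 5, .f 1097 5 1, .f 1097 1 3] 154 136 [3, 3, 1]
  [(137, 136, [3]), (154, 136, [3, 3, 1])]) .no (.br 1104 (.br 1106 (.con 136 [3, 3, 3, 1]) (.red
  [.f 970 5 1, .f 970 1 3] 138 136 [3, 3] [(138, 136, [3, 3])]) (.hor [.f 1105 3 5] []) .no (.con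
  136 [3, 3, 3, 1]) .no) (.red [.f 968 1 3, .f 968 3 5] 138 136 [3, 3] [(138, 136, [3, 3])]) (.hor
  [.f 1104 3 5] []) .no .no .no) .no (.red [.f 970 5 1, .t 969 3 1] 138 136 [3, 3] [(138, 136, [3,
  3])]) (.red [.t 968 1 3] 138 136 [3, 3] [(138, 136, [3, 3])])

def c27t212 : Tr4 :=
  .br 1225 (.red [.f 1217 1 3, .f 1089 3 1] 153 136 [3, 1] [(153, 136, [3, 1]), (169, 136, [3, 1,
  1])]) .no (.br 1105 .no .no (.br 1104 (.br 1106 (.con 136 [3, 3, 3, 1]) (.red [.f 970 5 1, .f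
  970 1 3] 138 136 [3, 3] [(138, 136, [3, 3])]) (.use 195) .no (.con 136 [3, 3, 3, 1]) .no) (.red
  [.f 968 1 3, .f 968 3 5] 138 136 [3, 3] [(138, 136, [3, 3])]) (.hor [.f 1104 3 5] []) .no .no
  .no) .no (.red [.f 970 5 1, .t 969 3 1] 138 136 [3, 3] [(138, 136, [3, 3])]) (.red [.t 968 1 3]
  138 136 [3, 3] [(138, 136, [3, 3])])) .no (.use 211) (.red [.t 1088 1 3, .t 952 1 3, .f 961 1 5]
  153 136 [3, 1] [(136, 136, []), (153, 136, [3, 1])])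

def c27t213 : Tr4 :=
  .br 1098 (.br 1225 (.red [.f 1217 1 3, .f 1089 3 1] 153 136 [3, 1] [(153, 136, [3, 1]), (169,
  136, [3, 1, 1])]) .no (.br 1072 (.br 841 .no (.red [.f 705 1 3] 105 136 [2, 2, 3] [(105, 136,
  [2, 2, 3])]) (.br 1099 (.use 112) .no (.use 203) .no .no .no) .no .no (.br 1099 (.use 112) .no
  (.br 1104 (.use 204) (.red [.f 968 1 3, .f 968 3 5] 138 136 [3, 3] [(138, 136, [3, 3])]) (.br
  976 .no (.br 1105 .no .no (.hor [.f 1104 3 5] []) .no (.br 978 .no (.br 706 .no (.use 205) (.red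
  [.f 706 3 1, .f 705 1 5] 105 136 [2, 2, 3] [(105, 136, [2, 2, 3])]) (.use 206) (.use 199) .no)
  (.br 706 .no (.use 205) (.red [.f 706 3 1, .f 705 1 5] 105 136 [2, 2, 3] [(105, 136, [2, 2,
  3])]) (.use 206) (.use 209) .no) .no (.red [.t 1225 3 2, .f 970 5 3, .f 971 3 1] 138 136 [3, 3]
  [(138, 136, [3, 3]), (154, 138, [1])]) .no) .no) (.red [.f 976 3 1, .f 968 1 3, .f 968 3 5] 138
  136 [3, 3] [(138, 136, [3, 3]), (139, 136, [3, 3, 3])]) .no .no .no) .no (.red [.t 968 1 3] 138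
  136 [3, 3] [(138, 136, [3, 3])]) .no) .no .no .no)) (.hor [.f 944 1 5] []) .no (.br 1099 (.use
  112) .no (.br 1104 (.use 204) (.red [.f 968 1 3, .f 968 3 5] 138 136 [3, 3] [(138, 136, [3,
  3])]) (.br 976 .no (.br 944 .no (.br 1105 .no .no (.hor [.f 1104 3 5] []) .no (.br 841 .no (.red
  [.f 705 1 3] 105 136 [2, 2, 3] [(105, 136, [2, 2, 3])]) (.br 706 .no (.use 200) (.red [.f 706 3
  1, .f 705 1 5] 105 136 [2, 2, 3] [(105, 136, [2, 2, 3])]) (.use 210) (.use 201) .no) .no .no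
  (.br 706 .no (.use 205) (.red [.f 706 3 1, .f 705 1 5] 105 136 [2, 2, 3] [(105, 136, [2, 2,
  3])]) (.use 210) (.br 978 .no (.use 199) (.use 209) .no (.red [.t 1225 3 2, .f 970 5 3, .f 971 3
  1] 138 136 [3, 3] [(138, 136, [3, 3]), (154, 138, [1])]) .no) .no)) .no) .no (.hor [.f 936 3 1,
  .f 944 1 5] [(134, 118, [1])]) .no .no) (.red [.f 976 3 1, .f 968 1 3, .f 968 3 5] 138 136 [3,
  3] [(138, 136, [3, 3]), (139, 136, [3, 3, 3])]) .no .no .no) .no (.red [.t 968 1 3] 138 136 [3,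
  3] [(138, 136, [3, 3])]) .no) .no .no .no) .no .no) .no .no (.red [.t 1088 1 3, .t 952 1 3, .f
  961 1 5] 153 136 [3, 1] [(136, 136, []), (153, 136, [3, 1])])) .no (.use 115) .no (.use 212) .no

def c27t214 : Tr4 :=
  .br 970 (.red [.f 962 1 3, .f 1089 3 5, .t 1209 2 3, .f 953 3 1, .t 961 1 3] 136 136 [] [(136,
  136, []), (152, 136, [1])]) (.br 945 (.br 834 .no (.br 1072 (.br 833 .no (.hor [.f 705 1 5] [])
  (.br 705 .no (.use 148) (.hor [.f 705 3 1, .f 705 1 5] [(105, 103, [3, 3])]) (.red [.t 960 2 4,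
  .f 825 1 5, .t 705 4 1, .t 1073 2 3, .f 954 1 3, .f 826 3 1] 136 136 [] [(104, 136, [2, 2]),
  (135, 136, [4]), (136, 136, [])]) .no (.br 971 (.br 1225 (.red [.f 1217 1 3, .f 1089 3 1] 153
  136 [3, 1] [(153, 136, [3, 1]), (169, 136, [3, 1, 1])]) .no (.br 1098 (.use 189) .no (.br 1211
  (.br 1219 (.hor [.f 1211 1 3, .f 1210 3 5] [(168, 169, [4])]) .no (.br 1105 .no .no (.br 1104
  (.br 1107 (.br 1226 (.con 136 [3, 3, 1, 1]) .no (.red [.f 1098 3 1, .f 1106 1 5] 154 136 [3, 3,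
  1] [(154, 136, [3, 3, 1])]) .no .no .no) (.con 136 [3, 3, 3, 1]) (.con 136 [3, 3, 3, 1]) .no .no
  .no) (.hor [.f 968 1 3, .f 968 3 5] [(138, 136, [3, 3])]) (.hor [.f 1104 3 5] []) .no .no .no)
  .no .no (.hor [.t 968 1 3, .t 832 1 3, .f 841 1 5] [(121, 136, [2, 3]), (138, 136, [3, 3])]))
  .no .no .no) .no (.hor [.f 1210 3 5] []) (.use 184) .no .no) .no .no .no) .no (.use 190) (.red
  [.t 1088 1 3, .t 952 1 3, .f 961 1 5] 153 136 [3, 1] [(136, 136, []), (153, 136, [3, 1])]))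
  (.hor [.f 842 1 5] []) (.br 1225 (.red [.f 1217 1 3, .f 1089 3 1] 153 136 [3, 1] [(153, 136, [3,
  1]), (169, 136, [3, 1, 1])]) .no (.br 1211 (.br 1219 (.hor [.f 1211 1 3, .f 1210 3 5] [(168,
  169, [4])]) .no (.br 1099 .no .no (.red [.f 971 3 1] 138 136 [3, 3] [(138, 136, [3, 3])]) .no
  .no (.br 978 (.red [.t 978 1 4] 138 136 [3, 3] [(138, 136, [3, 3])]) (.hor [.f 842 1 3, .f 969 3
  5] [(122, 138, [2])]) (.br 1104 (.br 1107 (.use 100) .no (.con 136 [3, 3, 1, 3]) .no .no (.con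
  136 [3, 3, 1, 3])) (.red [.f 968 1 3, .f 968 3 5] 138 136 [3, 3] [(138, 136, [3, 3])]) (.use
  192) .no (.red [.t 968 1 3, .t 832 1 3, .f 841 1 5] 138 136 [3, 3] [(121, 136, [2, 3]), (138,
  136, [3, 3])]) .no) .no .no .no)) .no .no .no) .no (.hor [.f 1210 3 5] []) (.use 184) .no .no)
  .no (.use 190) (.red [.t 1088 1 3, .t 952 1 3, .f 961 1 5] 153 136 [3, 1] [(136, 136, []), (153,
  136, [3, 1])])) .no .no .no)) .no .no .no) (.hor [.f 944 1 5] []) .no (.use 194) .no .no) .no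
  .no .no (.red [.t 953 3 2, .t 1073 2 3, .f 954 1 3, .f 826 3 1] 136 136 [] [(135, 136, [4]),
  (136, 136, [])])) .no .no (.hor [.f 937 3 5] []) .no (.use 78)) (.hor [.f 969 3 5] []) .no (.br
  945 (.br 834 .no (.br 1072 (.br 833 .no (.hor [.f 705 1 5] []) (.br 705 .no (.use 148) (.hor [.f
  705 3 1, .f 705 1 5] [(105, 103, [3, 3])]) (.red [.t 960 2 4, .f 825 1 5, .t 705 4 1, .t 1073 2
  3, .f 954 1 3, .f 826 3 1] 136 136 [] [(104, 136, [2, 2]), (135, 136, [4]), (136, 136, [])]) .no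
  (.br 1098 (.use 189) .no (.use 115) .no (.br 1225 (.red [.f 1217 1 3, .f 1089 3 1] 153 136 [3,
  1] [(153, 136, [3, 1]), (169, 136, [3, 1, 1])]) .no (.br 1211 (.br 1219 (.hor [.f 1211 1 3, .f
  1210 3 5] [(168, 169, [4])]) .no (.br 976 (.red [.f 968 1 3, .f 968 3 5] 138 136 [3, 3] [(138,
  136, [3, 3])]) (.use 191) (.br 1104 (.br 1107 (.use 100) (.con 136 [3, 3, 1, 3]) (.con 136 [3,
  3, 1, 3]) .no .no (.con 136 [3, 3, 1, 3])) .no (.red [.f 976 3 1, .f 968 1 3, .f 968 3 5] 138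
  136 [3, 3] [(138, 136, [3, 3]), (139, 136, [3, 3, 3])]) .no (.red [.t 968 1 3] 138 136 [3, 3]
  [(138, 136, [3, 3])]) .no) .no .no .no) .no .no .no) .no (.hor [.f 1210 3 5] []) (.use 184) .no
  .no) .no (.use 190) (.red [.t 1088 1 3, .t 952 1 3, .f 961 1 5] 153 136 [3, 1] [(136, 136, []),
  (153, 136, [3, 1])])) .no)) .no .no .no) (.hor [.f 944 1 5] []) .no (.use 194) .no .no) (.br 833
  .no (.use 213) (.hor [.f 833 3 5] []) .no .no .no) .no .no (.red [.t 953 3 2, .t 1073 2 3, .f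
  954 1 3, .f 826 3 1] 136 136 [] [(135, 136, [4]), (136, 136, [])])) .no .no (.hor [.f 937 3 5]
  []) .no (.use 78)) .no

def c27t215 : Tr4 :=
  .br 1072 (.br 833 .no (.hor [.f 705 1 5] []) (.br 705 .no (.use 148) (.hor [.f 705 3 1, .f 705 1
  5] [(105, 103, [3, 3])]) (.red [.t 960 2 4, .f 825 1 5, .t 705 4 1, .t 1073 2 3, .f 954 1 3, .f
  826 3 1] 136 136 [] [(104, 136, [2, 2]), (135, 136, [4]), (136, 136, [])]) .no (.br 1211 (.hor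
  [.f 1210 1 5] []) .no .no (.use 184) .no .no)) .no .no .no) (.hor [.f 944 1 5] []) .no (.use
  194) .no .no

def c27t216 : Tr4 :=
  .br 841 (.use 59) (.red [.f 705 1 3] 105 136 [2, 2, 3] [(105, 136, [2, 2, 3])]) (.use 200) .no
  .no (.use 205)

def c27t217 : Tr4 :=
  .br 1227 (.red [.t 1354 4 2, .f 1217 1 5] 169 136 [3, 1, 1] [(169, 136, [3, 1, 1])]) .no (.con
  136 [3, 1, 1, 3]) .no .no (.con 136 [3, 1, 3, 1])

def c27t218 : Tr4 :=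
  .br 1346 (.hor [.f 1346 1 5] []) .no (.use 217) .no .no .no

def c27t219 : Tr4 :=
  .br 1224 (.br 1226 (.con 136 [3, 1, 3, 1]) .no (.red [.f 1098 3 1] 154 136 [3, 1, 3] [(154, 136,
  [3, 1, 3])]) .no (.con 136 [3, 1, 3, 1]) .no) .no (.hor [.f 1224 3 5] []) .no .no .no

def c27t220 : Tr4 :=
  .br 1227 (.red [.t 1354 4 2, .f 1217 1 5] 169 136 [3, 1, 1] [(169, 136, [3, 1, 1])]) .no (.con
  136 [3, 1, 3, 1]) .no .no .no

def c27t221 : Tr4 :=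
  .br 1224 (.use 220) .no (.hor [.f 1224 3 5] []) .no .no .no

def c27t222 : Tr4 :=
  .br 840 .no (.con 136 [3, 2, 2, 3]) (.hor [.f 840 3 5] []) .no .no .no

def c27t223 : Tr4 :=
  .br 715 .no (.br 840 .no (.con 136 [2, 2, 3, 3]) (.hor [.f 840 3 5] []) .no .no .no) (.red [.f
  715 3 1, .t 842 4 2] 106 136 [2, 2, 3, 3] [(105, 136, [2, 2, 3]), (106, 136, [2, 2, 3, 3])]) .no
  .no (.red [.f 706 5 3, .f 706 3 1] 105 136 [2, 2, 3] [(105, 136, [2, 2, 3])])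

def c27t224 : Tr4 :=
  .br 843 .no (.red [.t 842 4 2, .f 705 1 5] 105 136 [2, 2, 3] [(105, 136, [2, 2, 3])]) (.use 223)
  .no .no .no

def c27t225 : Tr4 :=
  .br 1347 (.br 1346 (.hor [.f 1346 1 5] []) .no (.use 221) .no .no .no) .no (.use 16) (.br 1224
  (.br 1353 (.br 1227 (.red [.t 1338 2 3, .f 1219 1 3] 169 136 [3, 1, 1] [(168, 136, [1, 1]),
  (169, 136, [3, 1, 1])]) .no (.con 136 [3, 3, 1, 1]) .no .no .no) .no (.red [.f 1225 3 1, .f 1217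
  1 3] 170 136 [3, 3, 1, 1] [(169, 136, [3, 1, 1]), (170, 136, [3, 3, 1, 1])]) .no (.br 1227 (.red
  [.t 1338 2 3, .f 1219 1 3] 169 136 [3, 1, 1] [(168, 136, [1, 1]), (169, 136, [3, 1, 1])]) .no
  (.con 136 [3, 3, 1, 1]) .no .no .no) .no) .no (.hor [.f 1224 3 5] []) .no .no .no) .no (.red [.f
  1218 5 1, .f 1217 1 5, .t 1097 4 1, .f 1088 1 5] 153 136 [3, 1] [(153, 136, [3, 1])])

def c27t226 : Tr4 :=
  .br 1234 (.con 136 [3, 1, 3, 1]) (.con 136 [3, 1, 3, 1]) (.con 136 [3, 1, 3, 1]) (.hor [.f 1225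
  3 5] []) (.con 136 [3, 1, 3, 1]) .no

def c27t227 : Tr4 :=
  .br 1224 (.use 226) .no (.hor [.f 1224 3 5] []) .no .no .no

def c27t228 : Tr4 :=
  .br 1099 (.hor [.f 1098 1 5] []) (.br 1347 (.br 1224 (.use 218) .no (.hor [.f 1224 3 5] []) .no
  .no .no) .no (.use 16) (.use 18) .no (.red [.f 1218 5 1, .f 1217 1 5, .t 1097 4 1, .f 1088 1 5]
  153 136 [3, 1] [(153, 136, [3, 1])])) (.use 225) .no .no .no

def c27t229 : Tr4 :=
  .br 971 (.hor [.f 970 1 5] []) (.con 136 [3, 3]) (.con 136 [3, 3]) .no .no .no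

def c27t230 : Tr4 :=
  .br 971 (.br 969 .no (.use 71) (.hor [.f 969 3 5] []) .no .no .no) (.use 24) (.hor [.f 970 3 5]
  []) .no .no .no

def c27t231 : Tr4 :=
  .br 843 .no (.red [.t 842 4 2, .f 705 1 5] 105 136 [2, 2, 3] [(105, 136, [2, 2, 3])]) (.use 223)
  .no .no .no

def c27t232 : Tr4 :=
  .br 715 .no (.br 712 .no (.red [.f 576 1 3] 89 136 [2, 2, 2, 3] [(89, 136, [2, 2, 2, 3])]) (.use
  207) .no (.red [.f 712 5 1, .f 705 1 3] 105 136 [2, 2, 3] [(105, 136, [2, 2, 3])]) .no) (.red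
  [.f 715 3 1, .t 842 4 2] 106 136 [2, 2, 3, 3] [(105, 136, [2, 2, 3]), (106, 136, [2, 2, 3, 3])])
  .no .no (.red [.f 706 5 3, .f 706 3 1] 105 136 [2, 2, 3] [(105, 136, [2, 2, 3])])

def c27t233 : Tr4 :=
  .br 843 .no (.red [.t 842 4 2, .f 705 1 5] 105 136 [2, 2, 3] [(105, 136, [2, 2, 3])]) (.use 232)
  .no .no .no

def c27t234 : Tr4 :=
  .br 579 .no (.br 713 .no (.con 136 [2, 2, 2, 3, 3]) (.hor [.f 713 3 5] []) .no .no .no) .no
  (.con 136 [2, 2, 2, 2]) .no .no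

def c27t235 : Tr4 :=
  .br 576 .no (.br 568 .no (.red [.f 440 1 3, .f 568 3 1, .f 568 1 5] 88 136 [2, 2, 2] [(72, 136,
  [2, 2, 2, 2]), (88, 136, [2, 2, 2])]) .no (.br 712 .no (.br 577 .no (.hor [.f 448 1 5] []) (.red
  [.t 704 4 1, .t 584 1 4] 89 136 [2, 2, 2, 3] [(89, 136, [2, 2, 2, 3]), (104, 88, [1])]) .no (.br
  691 .no (.br 570 .no (.br 689 .no (.con 136 [2, 2, 2, 4, 4]) .no (.br 810 .no (.red [.t 681 3 1,
  .f 810 3 5] 102 136 [2, 2, 4, 4] [(102, 136, [2, 2, 4, 4])]) .no (.use 234) .no (.red [.f 809 5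
  3, .f 810 3 5, .t 954 2 4] 119 136 [2, 4] [(119, 136, [2, 4])])) .no (.br 810 .no (.br 579 .no
  (.br 713 .no (.con 136 [2, 2, 2, 3, 3]) (.hor [.f 713 3 5] []) .no .no .no) .no (.con 136 [2, 2,
  2, 2]) .no .no) .no (.use 234) .no (.red [.f 809 5 3, .f 810 3 5, .t 954 2 4] 119 136 [2, 4]
  [(119, 136, [2, 4])]))) .no (.con 136 [2, 2, 2, 4, 2]) (.br 810 .no (.red [.t 690 3 2, .t 810 2
  3, .f 691 1 3, .f 563 3 1] 103 136 [2, 2, 4] [(102, 136, [2, 2, 4, 4]), (103, 136, [2, 2, 4])])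
  .no (.use 234) .no (.red [.f 809 5 3, .f 810 3 5, .t 954 2 4] 119 136 [2, 4] [(119, 136, [2,
  4])])) .no) .no (.red [.f 683 3 1, .f 691 1 3, .f 690 3 5] 103 136 [2, 2, 4] [(102, 136, [2, 2,
  4, 4]), (103, 136, [2, 2, 4])]) .no .no) .no) (.con 136 [2, 2, 2, 3, 3]) .no (.con 136 [2, 2, 2,
  3, 3]) .no) .no .no) (.con 136 [2, 2, 2, 3, 3]) (.red [.f 568 3 1, .f 568 1 5] 88 136 [2, 2, 2]
  [(88, 136, [2, 2, 2])]) (.red [.t 696 3 2] 88 136 [2, 2, 2] [(88, 136, [2, 2, 2])]) .no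

def c27t236 : Tr4 :=
  .br 569 (.hor [.f 569 1 5] []) (.con 136 [2, 2, 2, 4]) (.con 136 [2, 2, 2, 4]) (.con 136 [2, 2,
  2, 4]) .no (.con 136 [2, 2, 2, 4])

def c27t237 : Tr4 :=
  .br 688 .no (.red [.f 689 5 3, .t 688 2 3] 87 136 [2, 2, 2, 4] [(87, 136, [2, 2, 2, 4])]) .no
  (.con 136 [2, 2, 2, 4, 4]) .no .no

def c27t238 : Tr4 :=
  .br 576 .no (.br 691 .no (.br 568 .no (.red [.f 440 1 3, .f 568 3 1, .f 576 1 3] 89 136 [2, 2,
  2, 3] [(72, 136, [2, 2, 2, 2]), (88, 136, [2, 2, 2]), (89, 136, [2, 2, 2, 3])]) .no (.con 136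
  [2, 2, 2, 4, 4]) (.use 237) .no) .no (.red [.f 689 5 3, .f 683 3 1] 102 136 [2, 2, 4, 4] [(102,
  136, [2, 2, 4, 4])]) .no .no) .no (.red [.f 568 3 1, .f 576 1 3] 89 136 [2, 2, 2, 3] [(88, 136,
  [2, 2, 2]), (89, 136, [2, 2, 2, 3])]) (.red [.t 704 4 1, .f 576 5 1, .f 576 1 3] 89 136 [2, 2,
  2, 3] [(89, 136, [2, 2, 2, 3]), (104, 88, [1])]) .no

def c27t239 : Tr4 :=
  .br 712 .no (.use 238) (.con 136 [2, 2, 2, 3, 3]) .no (.con 136 [2, 2, 2, 3, 3]) .no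

def c27l5 : List Tr4 :=
  [c27t211, c27t212, c27t213, c27t214, c27t215, c27t216, c27t217, c27t218, c27t219, c27t220,
  c27t221, c27t222, c27t223, c27t224, c27t225, c27t226, c27t227, c27t228, c27t229, c27t230,
  c27t231, c27t232, c27t233, c27t234, c27t235, c27t236, c27t237, c27t238, c27t239]

theorem c27k5 : chkLF ⟨4, 1, 0, true, -8⟩ false 7 c27N 211 c27l5 = true := by decide +kernel

def c27t240 : Tr4 :=
  .br 714 .no (.hor [.f 586 1 5] []) (.br 690 .no (.use 51) (.br 697 .no (.use 235) .no (.hor [.f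
  689 3 5] []) .no .no) (.use 137) (.use 79) (.br 698 .no (.use 236) .no .no .no (.use 239))) .no
  .no (.red [.t 833 2 3] 105 136 [2, 2, 3] [(105, 136, [2, 2, 3])])

def c27t241 : Tr4 :=
  .br 714 .no (.hor [.f 586 1 5] []) (.use 235) .no .no (.red [.t 833 2 3] 105 136 [2, 2, 3]
  [(105, 136, [2, 2, 3])])

def c27t242 : Tr4 :=
  .br 697 .no (.use 241) .no (.hor [.f 689 3 5] []) .no .no

def c27t243 : Tr4 :=
  .br 698 .no (.use 236) .no .no .no (.br 714 .no (.hor [.f 586 1 5] []) (.use 239) .no .no (.red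
  [.t 833 2 3] 105 136 [2, 2, 3] [(105, 136, [2, 2, 3])]))

def c27t244 : Tr4 :=
  .br 690 .no (.use 51) (.use 242) (.con 136 [2, 2, 4, 4, 4]) (.use 87) (.use 243)

def c27t245 : Tr4 :=
  .br 809 .no (.use 244) .no (.red [.f 808 1 3, .f 801 3 1, .f 808 3 1, .f 808 1 5] 117 136 [2, 4,
  4, 4] [(117, 136, [2, 4, 4, 4])]) (.red [.f 808 1 3, .f 809 5 3, .f 810 3 5, .t 954 2 4] 119 136
  [2, 4] [(118, 102, [1]), (119, 136, [2, 4])]) .no

def c27t246 : Tr4 :=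
  .br 936 (.use 240) (.use 245) .no (.hor [.f 928 3 5] []) .no .no

def c27t247 : Tr4 :=
  .br 715 .no (.br 819 .no (.red [.f 691 1 3] 103 136 [2, 2, 4] [(103, 136, [2, 2, 4])]) .no (.br
  944 .no (.use 246) .no (.use 141) .no .no) .no .no) (.red [.f 715 3 1, .t 842 4 2] 106 136 [2,
  2, 3, 3] [(105, 136, [2, 2, 3]), (106, 136, [2, 2, 3, 3])]) .no .no (.red [.f 706 5 3, .f 706 3
  1] 105 136 [2, 2, 3] [(105, 136, [2, 2, 3])])

def c27t248 : Tr4 :=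
  .br 690 .no (.use 51) (.use 242) (.use 146) (.use 101) (.use 243)

def c27t249 : Tr4 :=
  .br 715 .no (.br 819 .no (.red [.f 691 1 3] 103 136 [2, 2, 4] [(103, 136, [2, 2, 4])]) .no (.br
  816 (.use 248) (.con 136 [2, 2, 4, 4]) .no (.con 136 [2, 4, 4, 1, 3, 2]) .no .no) .no .no) (.red
  [.f 715 3 1, .t 842 4 2] 106 136 [2, 2, 3, 3] [(105, 136, [2, 2, 3]), (106, 136, [2, 2, 3, 3])])
  .no .no (.red [.f 706 5 3, .f 706 3 1] 105 136 [2, 2, 3] [(105, 136, [2, 2, 3])])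

def c27t250 : Tr4 :=
  .br 704 .no (.use 233) (.red [.t 704 3 1, .f 833 3 5] 105 136 [2, 2, 3] [(105, 136, [2, 2, 3])])
  (.br 937 (.red [.f 937 1 3, .f 937 3 5, .f 817 5 1, .f 818 1 3] 119 136 [2, 4] [(119, 136, [2,
  4]), (134, 118, [1])]) (.red [.t 937 2 3, .f 818 1 3] 119 136 [2, 4] [(118, 136, [2, 4, 4]),
  (119, 136, [2, 4])]) .no (.br 843 .no (.red [.t 842 4 2, .f 705 1 5] 105 136 [2, 2, 3] [(105,
  136, [2, 2, 3])]) (.use 247) .no .no .no) .no (.br 843 .no (.red [.t 842 4 2, .f 705 1 5] 105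
  136 [2, 2, 3] [(105, 136, [2, 2, 3])]) (.use 249) .no .no .no)) .no .no

def c27t251 : Tr4 :=
  .br 819 .no (.red [.f 691 1 3] 103 136 [2, 2, 4] [(103, 136, [2, 2, 4])]) .no (.br 715 .no (.use
  245) (.red [.f 715 3 1, .t 842 4 2] 106 136 [2, 2, 3, 3] [(105, 136, [2, 2, 3]), (106, 136, [2,
  2, 3, 3])]) .no .no (.red [.f 706 5 3, .f 706 3 1] 105 136 [2, 2, 3] [(105, 136, [2, 2, 3])]))
  .no .no

def c27t252 : Tr4 :=
  .br 937 (.red [.f 937 1 3, .f 937 3 5, .f 817 5 1, .f 818 1 3] 119 136 [2, 4] [(119, 136, [2,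
  4]), (134, 118, [1])]) (.red [.t 937 2 3, .f 818 1 3] 119 136 [2, 4] [(118, 136, [2, 4, 4]),
  (119, 136, [2, 4])]) .no (.br 936 .no (.br 843 .no (.red [.t 842 4 2, .f 705 1 5] 105 136 [2, 2,
  3] [(105, 136, [2, 2, 3])]) (.use 251) .no .no .no) .no (.hor [.f 928 3 5] []) .no .no) .no
  (.red [.t 1072 4 2, .f 937 3 5, .f 817 5 1, .f 818 1 3] 119 136 [2, 4] [(119, 136, [2, 4]),
  (134, 118, [1])])

def c27t253 : Tr4 :=
  .br 1072 (.br 706 .no (.use 216) (.red [.f 706 3 1, .f 705 1 5] 105 136 [2, 2, 3] [(105, 136,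
  [2, 2, 3])]) (.use 206) (.br 841 .no (.red [.f 705 1 3] 105 136 [2, 2, 3] [(105, 136, [2, 2,
  3])]) (.use 231) .no .no (.use 250)) .no) (.hor [.f 944 1 5] []) .no (.br 944 .no (.br 706 .no
  (.use 216) (.red [.f 706 3 1, .f 705 1 5] 105 136 [2, 2, 3] [(105, 136, [2, 2, 3])]) (.use 210)
  (.br 841 .no (.red [.f 705 1 3] 105 136 [2, 2, 3] [(105, 136, [2, 2, 3])]) (.use 231) .no .no
  (.br 704 .no (.use 233) (.red [.t 704 3 1, .f 833 3 5] 105 136 [2, 2, 3] [(105, 136, [2, 2,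
  3])]) (.use 252) .no .no)) .no) .no (.hor [.f 936 3 1, .f 944 1 5] [(134, 118, [1])]) .no .no)
  .no .no

def c27t254 : Tr4 :=
  .br 833 .no (.br 970 .no .no (.use 230) .no (.use 115) (.br 1099 (.con 136 [3, 3, 1]) (.use 253)
  (.hor [.f 1098 3 5] []) .no .no .no)) (.hor [.f 833 3 5] []) .no .no .no

def c27t255 : Tr4 :=
  .br 1202 (.hor [.f 944 5 1, .f 944 1 5, .f 1202 1 3, .f 1202 3 5] [(167, 136, [4, 1, 1])]) .no
  .no (.hor [.f 1193 3 5] []) .no .no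

def c27t256 : Tr4 :=
  .br 1201 (.use 77) .no .no (.use 255) (.red [.t 1081 1 4, .t 961 4 1] 136 136 [] [(136, 136,
  []), (151, 135, [1])]) (.red [.f 1072 5 1, .f 1073 1 3, .f 1073 3 5, .t 961 4 1] 136 136 []
  [(136, 136, []), (151, 135, [1])])

def c27t257 : Tr4 :=
  .br 1073 (.red [.f 1073 1 3, .f 1073 3 5, .t 961 4 1] 136 136 [] [(136, 136, []), (151, 135,
  [1])]) .no .no (.use 74) .no (.br 1208 (.br 1211 (.hor [.f 1210 1 5] []) .no .no (.use 256) .no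
  .no) .no .no (.red [.t 1208 4 2, .f 1073 3 5, .t 961 4 1] 136 136 [] [(136, 136, []), (151, 135,
  [1])]) .no .no)

def c27t258 : Tr4 :=
  .br 944 .no (.use 210) .no (.hor [.f 936 3 1, .f 944 1 5] [(134, 118, [1])]) .no .no

def c27t259 : Tr4 :=
  .br 969 .no (.br 1072 (.use 119) (.hor [.f 944 1 5] []) .no (.br 706 .no (.use 59) (.red [.f 706
  3 1, .f 705 1 5] 105 136 [2, 2, 3] [(105, 136, [2, 2, 3])]) (.use 258) (.use 118) .no) .no .no)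
  (.use 211) .no .no .no

def c27t260 : Tr4 :=
  .br 1106 (.con 136 [3, 2, 3, 1, 3]) (.hor [.f 977 1 5] []) (.con 136 [3, 2, 3, 1, 3]) .no (.con
  136 [3, 2, 3, 1, 3]) .no

def c27t261 : Tr4 :=
  .br 977 .no (.hor [.f 848 1 5] []) (.br 979 (.con 136 [3, 3, 3]) (.red [.f 843 1 3] 122 136 [3,
  2, 3] [(122, 136, [3, 2, 3])]) (.con 136 [3, 2, 3, 3]) .no .no (.con 136 [3, 2, 3, 3])) .no (.br
  979 (.con 136 [3, 3, 3]) (.red [.f 843 1 3] 122 136 [3, 2, 3] [(122, 136, [3, 2, 3])]) (.con 136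
  [3, 2, 3, 3]) .no .no .no) .no

def c27t262 : Tr4 :=
  .br 1105 (.red [.t 960 2 4, .t 1096 2 4, .t 1232 4 2] 154 136 [3, 3, 1] [(120, 136, [2]), (137,
  136, [3]), (154, 136, [3, 3, 1])]) (.use 260) (.hor [.f 1104 3 5] []) .no (.use 261) .no

def c27t263 : Tr4 :=
  .br 978 .no (.con 136 [3, 3, 2, 3]) (.hor [.f 978 3 5] []) .no .no .no

def c27t264 : Tr4 :=
  .br 1224 (.con 136 [3, 1, 1, 3]) .no (.br 1104 .no (.red [.t 960 2 4, .f 968 1 3, .f 1096 3 1,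
  .f 1088 1 3] 138 136 [3, 3] [(120, 136, [2]), (138, 136, [3, 3]), (153, 136, [3, 1]), (154, 136,
  [3, 3, 1])]) (.br 976 .no (.use 262) (.red [.f 976 3 1, .f 968 1 3] 138 136 [3, 3] [(138, 136,
  [3, 3]), (139, 136, [3, 3, 3])]) .no (.br 1105 (.red [.t 960 2 4, .t 1096 2 4, .t 1232 4 2] 154
  136 [3, 3, 1] [(120, 136, [2]), (137, 136, [3]), (154, 136, [3, 3, 1])]) .no (.hor [.f 1104 3 5]
  []) .no (.br 1354 (.red [.f 1346 1 3, .t 1345 2 3] 169 136 [3, 1, 1] [(169, 136, [3, 1, 1]),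
  (185, 136, [3, 1, 1, 1])]) .no (.br 1353 (.con 136 [3, 1, 1, 3, 1]) .no (.hor [.f 1353 3 5] [])
  .no .no (.con 136 [3, 1, 1, 1])) .no .no (.red [.f 1225 5 1, .f 1217 1 3] 169 136 [3, 1, 1]
  [(169, 136, [3, 1, 1])])) .no) .no) .no (.red [.t 1089 3 2, .f 968 1 5, .f 1096 5 3, .f 1096 3
  1] 154 136 [3, 3, 1] [(137, 136, [3]), (154, 136, [3, 3, 1])]) .no) .no .no .no

def c27t265 : Tr4 :=
  .br 851 .no .no (.red [.f 851 3 1, .f 843 1 3] 122 136 [2, 3, 3] [(122, 136, [2, 3, 3]), (123,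
  136, [2, 3, 3, 3])]) .no .no (.red [.f 835 1 3, .f 834 3 5, .f 842 5 3, .f 715 3 1] 106 136 [2,
  3, 2, 3] [(106, 136, [2, 3, 2, 3]), (121, 105, [1])])

def c27t266 : Tr4 :=
  .br 1353 (.br 1227 (.red [.t 1338 2 3, .f 1219 1 3] 169 136 [3, 1, 1] [(168, 136, [1, 1]), (169,
  136, [3, 1, 1])]) .no (.con 136 [3, 1, 3, 1]) .no .no .no) .no (.br 1227 (.red [.t 1338 2 3, .f
  1219 1 3] 169 136 [3, 1, 1] [(168, 136, [1, 1]), (169, 136, [3, 1, 1])]) .no (.con 136 [3, 1, 3,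
  1]) .no .no .no) .no (.red [.f 1225 5 1, .f 1217 1 3] 169 136 [3, 1, 1] [(169, 136, [3, 1, 1])])
  .no

def c27t267 : Tr4 :=
  .br 562 .no (.hor [.f 434 1 3, .f 562 3 1, .f 562 1 5] [(71, 103, [2, 2]), (87, 103, [2])]) .no
  (.hor [.f 553 3 5] []) .no .no

def c27t268 : Tr4 :=
  .br 713 .no (.hor [.f 585 1 5] []) (.hor [.f 712 3 5] []) .no .no .no

def c27t269 : Tr4 :=
  .br 712 .no (.red [.f 576 1 3] 89 136 [2, 2, 2, 3] [(89, 136, [2, 2, 2, 3])]) (.br 715 .no (.use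
  207) (.br 714 .no (.use 268) (.hor [.f 714 3 5] []) .no .no (.red [.t 833 2 3] 105 136 [2, 2, 3]
  [(105, 136, [2, 2, 3])])) .no .no (.red [.f 706 5 3, .f 706 3 1] 105 136 [2, 2, 3] [(105, 136,
  [2, 2, 3])])) .no (.red [.f 712 5 1, .f 705 1 3] 105 136 [2, 2, 3] [(105, 136, [2, 2, 3])]) .no

def c27t270 : Tr4 :=
  .br 1233 (.con 136 [3, 1, 3, 3, 1]) .no (.hor [.f 1233 3 5] []) .no .no .no

def c27t271 : Tr4 :=
  .br 1234 (.br 1354 (.red [.f 1346 1 3, .t 1345 2 3] 169 136 [3, 1, 1] [(169, 136, [3, 1, 1]),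
  (185, 136, [3, 1, 1, 1])]) .no .no .no (.red [.t 1234 1 4] 170 136 [3, 1, 3, 1] [(170, 136, [3,
  1, 3, 1])]) (.red [.f 1225 5 1, .f 1217 1 3] 169 136 [3, 1, 1] [(169, 136, [3, 1, 1])])) .no
  (.use 270) .no .no (.red [.f 1225 5 3, .f 1224 3 5, .t 1088 1 3] 153 136 [3, 1] [(153, 136, [3,
  1])])

def c27t272 : Tr4 :=
  .br 1227 (.red [.t 1338 2 3, .f 1219 1 3] 169 136 [3, 1, 1] [(168, 136, [1, 1]), (169, 136, [3,
  1, 1])]) .no (.use 271) .no .no .no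

def c27t273 : Tr4 :=
  .br 1224 (.br 978 (.hor [.f 978 1 5] []) (.br 1104 (.con 136 [3, 3, 3]) (.red [.f 968 1 3] 138
  136 [3, 3] [(138, 136, [3, 3])]) (.con 136 [3, 3, 3]) .no (.con 136 [3, 3, 3]) .no) (.br 1104
  (.con 136 [3, 3, 3]) (.red [.f 968 1 3] 138 136 [3, 3] [(138, 136, [3, 3])]) (.con 136 [3, 3,
  3]) .no (.con 136 [3, 3, 3]) .no) .no .no (.br 1104 (.con 136 [3, 3, 3]) (.red [.f 969 5 3, .f
  968 1 3] 138 136 [3, 3] [(138, 136, [3, 3])]) (.con 136 [3, 3, 3]) .no (.con 136 [3, 3, 3])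
  .no)) .no (.br 1104 .no (.red [.t 960 2 4, .f 968 1 3, .f 1096 3 1, .f 1088 1 3] 138 136 [3, 3]
  [(120, 136, [2]), (138, 136, [3, 3]), (153, 136, [3, 1]), (154, 136, [3, 3, 1])]) (.br 1105
  (.red [.t 960 2 4, .t 1096 2 4, .t 1232 4 2] 154 136 [3, 3, 1] [(120, 136, [2]), (137, 136,
  [3]), (154, 136, [3, 3, 1])]) (.con 136 [3, 3, 3]) (.hor [.f 1104 3 5] []) .no (.con 136 [3, 3,
  3]) .no) .no (.red [.t 1089 3 2, .f 968 1 5, .f 1096 5 3, .f 1096 3 1] 154 136 [3, 3, 1] [(137,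
  136, [3]), (154, 136, [3, 3, 1])]) .no) .no .no .no

def c27t274 : Tr4 :=
  .br 1354 (.hor [.f 1353 1 5] []) .no (.con 136 [1, 3, 1, 1, 3]) .no (.con 136 [1, 3, 1, 3]) .no

def c27t275 : Tr4 :=
  .br 850 .no (.red [.f 835 1 3, .f 834 3 5, .f 706 5 1, .t 722 1 4, .f 707 1 3] 105 136 [2, 2, 3]
  [(105, 136, [2, 2, 3]), (106, 136, [2, 2, 3, 3]), (121, 105, [1])]) (.hor [.f 850 3 5] []) .no
  .no .no

def c27t276 : Tr4 :=
  .br 1353 (.use 274) .no (.br 1354 (.br 1355 (.con 136 [3, 1, 1, 3]) (.red [.f 1218 5 1, .f 1219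
  1 3] 169 136 [3, 1, 1] [(169, 136, [3, 1, 1])]) (.con 136 [3, 1, 1, 3]) .no .no .no) .no (.hor
  [.f 1353 3 5] []) .no (.con 136 [3, 1, 1, 3]) .no) .no (.red [.f 1225 5 1, .f 1217 1 3] 169 136
  [3, 1, 1] [(169, 136, [3, 1, 1])]) .no

def c27t277 : Tr4 :=
  .br 1227 (.red [.f 1218 5 1, .f 1219 1 3] 169 136 [3, 1, 1] [(169, 136, [3, 1, 1])]) .no (.br
  1234 (.br 1354 (.br 1355 (.hor [.f 1354 1 5] []) .no (.red [.f 1227 3 1, .f 1218 5 1, .f 1219 1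
  3] 170 136 [3, 3, 1, 1] [(169, 136, [3, 1, 1]), (170, 136, [3, 3, 1, 1])]) .no .no .no) .no .no
  .no (.red [.f 1346 5 3, .t 1345 2 3] 169 136 [3, 1, 1] [(169, 136, [3, 1, 1])]) (.red [.f 1225 5
  1, .f 1217 1 3] 169 136 [3, 1, 1] [(169, 136, [3, 1, 1])])) .no (.use 270) .no .no (.red [.f
  1225 5 3, .f 1224 3 5, .t 1088 1 3] 153 136 [3, 1] [(153, 136, [3, 1])])) .no .no .no

def c27t278 : Tr4 :=
  .br 1105 (.red [.t 960 2 4, .t 1096 2 4, .t 1232 4 2] 154 136 [3, 3, 1] [(120, 136, [2]), (137,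
  136, [3]), (154, 136, [3, 3, 1])]) .no (.hor [.f 1104 3 5] []) .no (.use 277) .no

def c27t279 : Tr4 :=
  .br 979 (.use 273) (.red [.f 843 1 3, .f 715 3 1, .t 842 4 2] 106 136 [2, 3, 2, 3] [(105, 136,
  [2, 3, 2]), (106, 136, [2, 3, 2, 3]), (122, 136, [2, 3, 3])]) (.use 265) .no .no (.br 1224 (.use
  276) .no (.br 1104 .no (.red [.t 960 2 4, .f 968 1 3, .f 1096 3 1, .f 1088 1 3] 138 136 [3, 3]
  [(120, 136, [2]), (138, 136, [3, 3]), (153, 136, [3, 1]), (154, 136, [3, 3, 1])]) (.br 976 .no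
  (.use 262) (.red [.f 976 3 1] 139 136 [3, 3, 3] [(139, 136, [3, 3, 3])]) .no (.use 278) .no) .no
  (.red [.t 1089 3 2, .f 968 1 5, .f 1096 5 3, .f 1096 3 1] 154 136 [3, 3, 1] [(137, 136, [3]),
  (154, 136, [3, 3, 1])]) .no) .no .no .no)

def c27t280 : Tr4 :=
  .br 1224 (.use 276) .no (.br 1104 .no (.red [.t 960 2 4, .f 968 1 3, .f 1096 3 1, .f 1088 1 3]
  138 136 [3, 3] [(120, 136, [2]), (138, 136, [3, 3]), (153, 136, [3, 1]), (154, 136, [3, 3, 1])])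
  (.br 976 .no (.use 262) (.red [.f 976 3 1, .f 968 1 3] 138 136 [3, 3] [(138, 136, [3, 3]), (139,
  136, [3, 3, 3])]) .no (.use 278) .no) .no (.red [.t 1089 3 2, .f 968 1 5, .f 1096 5 3, .f 1096 3
  1] 154 136 [3, 3, 1] [(137, 136, [3]), (154, 136, [3, 3, 1])]) .no) .no .no .no

def c27t281 : Tr4 :=
  .br 1346 (.br 1347 (.hor [.f 1346 1 5] []) .no (.use 264) (.br 1224 (.use 266) .no (.br 1104 .no
  (.red [.t 960 2 4, .f 968 1 3, .f 1096 3 1, .f 1088 1 3] 138 136 [3, 3] [(120, 136, [2]), (138,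
  136, [3, 3]), (153, 136, [3, 1]), (154, 136, [3, 3, 1])]) (.br 976 .no (.use 262) (.red [.f 976
  3 1, .f 968 1 3] 138 136 [3, 3] [(138, 136, [3, 3]), (139, 136, [3, 3, 3])]) .no (.br 1105 (.red
  [.t 960 2 4, .t 1096 2 4, .t 1232 4 2] 154 136 [3, 3, 1] [(120, 136, [2]), (137, 136, [3]),
  (154, 136, [3, 3, 1])]) .no (.hor [.f 1104 3 5] []) .no (.use 272) .no) .no) .no (.red [.t 1089
  3 2, .f 968 1 5, .f 1096 5 3, .f 1096 3 1] 154 136 [3, 3, 1] [(137, 136, [3]), (154, 136, [3, 3,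
  1])]) .no) .no .no .no) .no .no) .no (.red [.t 1345 2 3] 169 136 [3, 1, 1] [(169, 136, [3, 1,
  1])]) .no (.use 280) .no

def c27t282 : Tr4 :=
  .br 704 .no (.use 232) (.red [.t 704 3 1, .f 833 3 5] 105 136 [2, 2, 3] [(105, 136, [2, 2, 3])])
  (.br 937 (.red [.f 937 1 3, .f 937 3 5, .f 817 5 1, .f 818 1 3] 119 136 [2, 4] [(119, 136, [2,
  4]), (134, 118, [1])]) (.red [.t 937 2 3, .f 818 1 3] 119 136 [2, 4] [(118, 136, [2, 4, 4]),
  (119, 136, [2, 4])]) .no (.use 247) .no (.use 249)) .no .no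

def c27t283 : Tr4 :=
  .br 936 .no (.use 251) .no (.hor [.f 928 3 5] []) .no .no

def c27t284 : Tr4 :=
  .br 1065 (.br 937 .no (.red [.t 937 2 3, .f 818 1 3] 119 136 [2, 4] [(118, 136, [2, 4, 4]),
  (119, 136, [2, 4])]) .no (.use 283) .no (.red [.t 1072 4 2, .f 937 3 5, .f 817 5 1, .f 818 1 3]
  119 136 [2, 4] [(119, 136, [2, 4]), (134, 118, [1])])) (.red [.f 937 1 3, .f 937 3 5, .f 817 5
  1, .f 818 1 3] 119 136 [2, 4] [(119, 136, [2, 4]), (134, 118, [1])]) .no (.br 937 .no (.red [.t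
  937 2 3, .f 818 1 3] 119 136 [2, 4] [(118, 136, [2, 4, 4]), (119, 136, [2, 4])]) .no (.use 283)
  .no (.red [.t 1072 4 2, .f 937 3 5, .f 817 5 1, .f 818 1 3] 119 136 [2, 4] [(119, 136, [2, 4]),
  (134, 118, [1])])) (.red [.t 945 1 4, .f 817 5 1, .f 818 1 3] 119 136 [2, 4] [(119, 136, [2,
  4]), (134, 118, [1])]) .no

def c27l6 : List Tr4 :=
  [c27t240, c27t241, c27t242, c27t243, c27t244, c27t245, c27t246, c27t247, c27t248, c27t249,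
  c27t250, c27t251, c27t252, c27t253, c27t254, c27t255, c27t256, c27t257, c27t258, c27t259,
  c27t260, c27t261, c27t262, c27t263, c27t264, c27t265, c27t266, c27t267, c27t268, c27t269,
  c27t270, c27t271, c27t272, c27t273, c27t274, c27t275, c27t276, c27t277, c27t278, c27t279,
  c27t280, c27t281, c27t282, c27t283, c27t284]

theorem c27k6 : chkLF ⟨4, 1, 0, true, -8⟩ false 7 c27N 240 c27l6 = true := by decide +kernel

end Pool.Agent.FT4D
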