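import Pool.Agent.FT4D.Tab_c27

/-!
# Four levels: decision trees (found by a computer search)
-/

namespace Pool.Agent.FT4D

def c27t285 : Tr4 :=
  .br 704 .no (.use 232) (.red [.t 704 3 1, .f 833 3 5] 105 136 [2, 2, 3] [(105, 136, [2, 2, 3])])
  (.br 944 .no (.use 284) .no (.hor [.f 936 3 1, .f 944 1 5] [(134, 118, [1])]) .no .no) .no .no

def c27t286 : Tr4 :=
  .br 1072 (.br 706 .no (.use 216) (.red [.f 706 3 1, .f 705 1 5] 105 136 [2, 2, 3] [(105, 136,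
  [2, 2, 3])]) (.use 206) (.br 841 .no (.red [.f 705 1 3] 105 136 [2, 2, 3] [(105, 136, [2, 2,
  3])]) (.use 224) .no .no (.br 843 .no (.red [.t 842 4 2, .f 705 1 5] 105 136 [2, 2, 3] [(105,
  136, [2, 2, 3])]) (.use 282) .no .no .no)) .no) (.hor [.f 944 1 5] []) .no (.br 706 .no (.use
  216) (.red [.f 706 3 1, .f 705 1 5] 105 136 [2, 2, 3] [(105, 136, [2, 2, 3])]) (.use 258) (.br
  841 .no (.red [.f 705 1 3] 105 136 [2, 2, 3] [(105, 136, [2, 2, 3])]) (.use 224) .no .no (.br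
  843 .no (.red [.t 842 4 2, .f 705 1 5] 105 136 [2, 2, 3] [(105, 136, [2, 2, 3])]) (.use 285) .no
  .no .no)) .no) .no .no

def c27t287 : Tr4 :=
  .br 1227 (.red [.f 1210 5 3, .f 1211 3 1, .f 1219 1 3] 169 136 [3, 1, 1] [(168, 136, [1, 1]),
  (169, 136, [3, 1, 1])]) .no (.con 136 [3, 1, 3, 1]) .no .no .no

def c27t288 : Tr4 :=
  .br 1353 (.br 1227 (.red [.f 1210 5 3, .f 1211 3 1, .f 1219 1 3] 169 136 [3, 1, 1] [(168, 136,
  [1, 1]), (169, 136, [3, 1, 1])]) .no (.con 136 [3, 1, 3, 1]) .no .no .no) .no (.red [.f 1225 3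
  1, .f 1217 1 3] 170 136 [3, 1, 3, 1] [(169, 136, [3, 1, 1]), (170, 136, [3, 1, 3, 1])]) .no (.br
  1227 (.red [.f 1210 5 3, .f 1211 3 1, .f 1219 1 3] 169 136 [3, 1, 1] [(168, 136, [1, 1]), (169,
  136, [3, 1, 1])]) .no (.con 136 [3, 1, 3, 1]) .no .no .no) .no

def c27t289 : Tr4 :=
  .br 1099 (.hor [.f 1098 1 5] []) (.br 1346 (.br 1347 (.hor [.f 1346 1 5] []) .no (.use 16) (.br
  1224 (.use 287) .no (.hor [.f 1224 3 5] []) .no .no .no) .no .no) .no (.use 19) (.red [.f 1210 5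
  3, .f 1210 3 1, .f 1217 1 5, .t 1097 4 1] 153 136 [3, 1] [(153, 136, [3, 1]), (168, 169, [4])])
  (.red [.f 1218 5 1, .f 1217 1 5, .t 1097 4 1, .f 1088 1 5] 153 136 [3, 1] [(153, 136, [3, 1])])
  .no) (.br 1346 (.br 1347 (.hor [.f 1346 1 5] []) .no (.use 16) (.br 1224 (.use 288) .no (.hor
  [.f 1224 3 5] []) .no .no .no) .no .no) .no (.use 221) (.red [.f 1210 5 3, .f 1210 3 1, .f 1217
  1 5, .t 1097 4 1] 153 136 [3, 1] [(153, 136, [3, 1]), (168, 169, [4])]) (.red [.f 1218 5 1, .f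
  1217 1 5, .t 1097 4 1, .f 1088 1 5] 153 136 [3, 1] [(153, 136, [3, 1])]) .no) .no .no .no

def c27t290 : Tr4 :=
  .br 1098 (.use 289) (.use 229) (.use 219) .no (.use 227) .no

def c27t291 : Tr4 :=
  .br 1354 (.red [.f 1346 1 3, .t 1345 2 3] 169 136 [3, 1, 1] [(169, 136, [3, 1, 1]), (185, 136,
  [3, 1, 1, 1])]) .no (.br 1353 (.con 136 [3, 1, 1, 3, 1]) .no (.hor [.f 1353 3 5] []) .no .no
  (.con 136 [3, 1, 1, 1])) .no .no (.red [.f 1225 5 1, .f 1217 1 3] 169 136 [3, 1, 1] [(169, 136,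
  [3, 1, 1])])

def c27t292 : Tr4 :=
  .br 819 .no (.red [.f 691 1 3] 103 136 [2, 4, 2] [(103, 136, [2, 4, 2])]) .no (.con 136 [2, 4,
  2, 4]) .no .no

def c27t293 : Tr4 :=
  .br 816 .no (.use 292) .no (.use 1) .no .no

def c27t294 : Tr4 :=
  .br 1072 (.br 833 .no (.hor [.f 705 1 5] []) (.br 705 .no (.use 148) (.hor [.f 705 3 1, .f 705 1
  5] [(105, 103, [3, 3])]) (.red [.t 960 2 4, .f 825 1 5, .t 705 4 1, .t 1073 2 3, .f 954 1 3, .f
  826 3 1] 136 136 [] [(104, 136, [2, 2]), (135, 136, [4]), (136, 136, [])]) .no (.br 1075 (.red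
  [.t 1074 3 1, .f 1081 1 5, .t 961 4 1, .f 945 1 3] 136 136 [] [(135, 136, [4]), (136, 136, []),
  (151, 135, [1])]) .no .no (.br 1203 (.br 937 (.red [.f 937 1 3, .f 937 3 5, .f 817 5 1, .f 818 1
  3] 119 136 [2, 4] [(119, 136, [2, 4]), (134, 118, [1])]) (.red [.t 937 2 3, .f 818 1 3] 119 136
  [2, 4] [(118, 136, [2, 4, 4]), (119, 136, [2, 4])]) .no (.br 936 (.br 819 .no (.red [.f 691 1 3]
  103 136 [2, 2, 4] [(103, 136, [2, 2, 4])]) .no (.br 816 (.br 690 .no (.use 51) (.br 697 .no (.br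
  696 .no (.hor [.f 568 1 5] []) .no (.br 809 .no (.use 57) .no (.use 142) (.red [.f 809 5 3, .f
  810 3 5, .t 954 2 4] 119 136 [2, 4] [(119, 136, [2, 4])]) (.use 165)) .no .no) .no (.hor [.f 689
  3 5] []) .no (.red [.f 696 5 3, .f 696 3 5, .f 696 5 1, .t 697 1 4] 103 136 [2, 2, 4] [(103,
  136, [2, 2, 4])])) (.use 137) (.use 79) (.use 177)) (.con 136 [2, 2, 4, 4]) .no (.con 136 [2, 4,
  4, 1, 3, 2]) .no .no) .no .no) (.use 187) (.use 293) (.hor [.f 928 3 5] []) .no .no) .no (.use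
  183)) .no .no (.hor [.f 1067 3 1, .t 1074 3 1, .f 1081 1 5] [(150, 118, [1, 1]), (151, 119, [1,
  1])]) .no (.red [.f 1202 5 3, .f 1074 3 1, .f 1081 1 5, .t 961 4 1, .f 945 1 3] 136 136 []
  [(135, 136, [4]), (136, 136, []), (151, 135, [1])])) .no .no)) .no .no .no) (.hor [.f 944 1 5]
  []) .no (.use 194) .no .no

def c27t295 : Tr4 :=
  .br 1064 (.hor [.t 1192 2 3, .f 1073 1 3, .f 1073 3 5] [(150, 118, [1, 1]), (151, 119, [1, 1])])
  .no .no (.red [.f 928 3 1, .f 936 1 5] 133 136 [4, 4, 4] [(133, 136, [4, 4, 4])]) .no .no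

def c27t296 : Tr4 :=
  .br 1201 (.use 77) .no .no (.br 1075 (.red [.t 1074 3 1, .f 1081 1 5, .t 961 4 1] 136 136 []
  [(136, 136, []), (151, 135, [1])]) .no .no (.br 819 .no (.red [.f 691 1 3] 103 136 [2, 2, 4]
  [(103, 136, [2, 2, 4])]) .no (.br 936 (.use 75) (.con 136 [2, 4, 4, 2]) .no (.br 937 (.use 295)
  (.red [.t 937 2 3, .f 818 1 3] 119 136 [2, 4] [(118, 136, [2, 4, 4]), (119, 136, [2, 4])]) .no
  (.use 76) .no .no) (.use 72) .no) .no .no) .no .no) (.red [.t 1081 1 4, .t 961 4 1] 136 136 []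
  [(136, 136, []), (151, 135, [1])]) (.red [.f 1072 5 1, .f 1073 1 3, .f 1073 3 5, .t 961 4 1] 136
  136 [] [(136, 136, []), (151, 135, [1])])

def c27t297 : Tr4 :=
  .br 1208 (.use 296) .no .no (.red [.t 1208 4 2, .f 1073 3 5, .t 961 4 1] 136 136 [] [(136, 136,
  []), (151, 135, [1])]) .no .no

def c27t298 : Tr4 :=
  .br 1073 (.red [.f 1073 1 3, .f 1073 3 5, .t 961 4 1] 136 136 [] [(136, 136, []), (151, 135,
  [1])]) .no .no (.use 74) .no (.use 297)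

def c27t299 : Tr4 :=
  .br 1227 (.red [.f 1210 5 3, .f 1211 3 1, .f 1219 1 3] 169 136 [1, 3, 1] [(168, 136, [1, 1]),
  (169, 136, [1, 3, 1])]) .no (.con 136 [3, 3, 1, 1]) .no .no .no

def c27t300 : Tr4 :=
  .br 1227 (.red [.f 1210 5 3, .f 1211 3 1, .f 1219 1 3] 169 136 [1, 3, 1] [(168, 136, [1, 1]),
  (169, 136, [1, 3, 1])]) .no (.con 136 [3, 3, 1, 1]) .no .no .no

def c27t301 : Tr4 :=
  .br 1227 (.red [.f 1210 5 3, .f 1211 3 1, .f 1219 1 3] 169 136 [3, 1, 1] [(168, 136, [1, 1]),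
  (169, 136, [3, 1, 1])]) .no (.use 271) .no .no .no

def c27t302 : Tr4 :=
  .br 1105 (.red [.t 960 2 4, .t 1096 2 4, .t 1232 4 2] 154 136 [3, 3, 1] [(120, 136, [2]), (137,
  136, [3]), (154, 136, [3, 3, 1])]) .no (.hor [.f 1104 3 5] []) .no (.use 301) .no

def c27t303 : Tr4 :=
  .br 979 (.use 273) (.red [.f 843 1 3, .f 715 3 1, .t 842 4 2] 106 136 [2, 2, 3, 3] [(105, 136,
  [2, 2, 3]), (106, 136, [2, 2, 3, 3]), (122, 136, [2, 3, 3])]) (.use 265) .no .no (.br 1224 (.br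
  851 .no .no (.br 1104 (.br 1105 (.use 299) (.con 136 [3, 3, 3]) (.br 1106 (.con 136 [3, 3, 3,
  1]) .no (.hor [.f 1105 3 5] []) .no (.con 136 [3, 3, 3, 1]) .no) .no (.use 300) .no) (.red [.f
  968 1 3] 138 136 [3, 3] [(138, 136, [3, 3])]) (.br 976 .no (.br 977 (.con 136 [3, 3, 3]) (.use
  275) (.con 136 [2, 3, 3, 3]) .no .no .no) (.red [.f 976 3 1] 139 136 [3, 3, 3] [(139, 136, [3,
  3, 3])]) .no (.br 1105 (.use 299) .no (.hor [.f 1104 3 5] []) .no (.use 300) .no) .no) .no (.br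
  977 .no (.use 275) (.br 976 .no (.con 136 [2, 3, 3, 3]) (.hor [.f 976 3 5] []) .no .no .no) .no
  .no (.red [.f 976 5 1, .f 968 1 3] 138 136 [3, 3] [(138, 136, [3, 3])])) .no) .no .no (.red [.f
  850 5 1, .f 843 1 3, .f 715 3 1, .t 842 4 2] 106 136 [2, 2, 3, 3] [(105, 136, [2, 2, 3]), (106,
  136, [2, 2, 3, 3]), (122, 136, [2, 3, 3])])) .no (.br 1104 .no (.red [.t 960 2 4, .f 968 1 3, .f
  1096 3 1, .f 1088 1 3] 138 136 [3, 3] [(120, 136, [2]), (138, 136, [3, 3]), (153, 136, [3, 1]),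
  (154, 136, [3, 3, 1])]) (.br 976 .no (.use 262) (.red [.f 976 3 1] 139 136 [3, 3, 3] [(139, 136,
  [3, 3, 3])]) .no (.use 302) .no) .no (.red [.t 1089 3 2, .f 968 1 5, .f 1096 5 3, .f 1096 3 1]
  154 136 [3, 3, 1] [(137, 136, [3]), (154, 136, [3, 3, 1])]) .no) .no .no .no)

def c27t304 : Tr4 :=
  .br 1475 (.br 1474 (.hor [.f 1474 1 5] []) .no (.br 1473 (.con 136 [1, 3, 1, 1, 1]) .no (.hor
  [.f 1473 3 5] []) (.con 136 [1, 3, 1, 1, 1]) .no (.con 136 [1, 3, 1, 1, 1])) (.red [.f 1338 3 1,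
  .f 1338 1 5] 184 136 [1, 1, 1] [(184, 136, [1, 1, 1])]) .no (.br 1337 (.red [.t 1337 1 3] 184
  136 [1, 1, 1] [(184, 136, [1, 1, 1])]) .no .no .no .no .no)) .no (.red [.f 1347 3 1, .f 1339 1
  3, .f 1338 3 5] 185 136 [1, 3, 1, 1] [(184, 136, [1, 1, 1]), (185, 136, [1, 3, 1, 1])]) .no .no
  (.red [.t 1338 3 1] 184 136 [1, 1, 1] [(184, 136, [1, 1, 1])])

def c27t305 : Tr4 :=
  .br 706 .no (.use 205) (.red [.f 706 3 1, .f 705 1 5] 105 136 [2, 2, 3] [(105, 136, [2, 2, 3])])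
  (.use 206) (.br 704 .no (.use 269) (.red [.t 704 3 1, .f 833 3 5] 105 136 [2, 2, 3] [(105, 136,
  [2, 2, 3])]) (.br 1346 (.br 1347 (.hor [.f 1346 1 5] []) .no (.use 264) (.br 944 .no (.br 819
  .no (.red [.f 691 1 3] 103 136 [2, 2, 4] [(103, 136, [2, 2, 4])]) .no (.br 937 (.red [.f 937 1
  3, .f 937 3 5, .f 817 5 1, .f 818 1 3] 119 136 [2, 4] [(119, 136, [2, 4]), (134, 118, [1])])
  (.red [.t 937 2 3, .f 818 1 3] 119 136 [2, 4] [(118, 136, [2, 4, 4]), (119, 136, [2, 4])]) .no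
  (.br 715 .no (.use 246) (.use 303) .no .no (.red [.f 706 5 3, .f 706 3 1] 105 136 [2, 2, 3]
  [(105, 136, [2, 2, 3])])) .no (.br 715 .no (.use 248) (.use 303) .no .no (.red [.f 706 5 3, .f
  706 3 1] 105 136 [2, 2, 3] [(105, 136, [2, 2, 3])]))) .no .no) .no (.use 293) .no .no) .no .no)
  .no (.red [.t 1345 2 3] 169 136 [3, 1, 1] [(169, 136, [3, 1, 1])]) (.br 1339 (.br 1347 (.red [.f
  1339 1 3, .f 1338 3 5] 184 136 [1, 1, 1] [(184, 136, [1, 1, 1])]) .no (.br 1224 (.con 136 [3, 1,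
  1, 3]) .no (.br 1104 .no (.red [.t 960 2 4, .f 968 1 3, .f 1096 3 1, .f 1088 1 3] 138 136 [3, 3]
  [(120, 119, [3]), (138, 136, [3, 3]), (153, 136, [3, 1]), (154, 136, [3, 3, 1])]) (.br 976 .no
  (.use 262) (.red [.f 976 3 1, .f 968 1 3] 138 136 [3, 3] [(138, 136, [3, 3]), (139, 136, [3, 3,
  3])]) .no (.br 1105 (.red [.t 960 2 4, .t 1096 2 4, .t 1232 4 2] 154 136 [3, 3, 1] [(120, 119,
  [3]), (137, 136, [3]), (154, 136, [3, 3, 1])]) .no (.hor [.f 1104 3 5] []) .no (.br 1202 (.hor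
  [.f 1202 1 5] []) .no .no (.br 1201 (.br 1208 (.use 304) .no .no .no .no .no) .no .no (.hor [.f
  1193 3 5] []) .no .no) .no (.red [.t 1081 1 4, .t 961 4 1, .f 945 1 3] 136 136 [] [(135, 136,
  [4]), (136, 136, []), (151, 135, [1])])) .no) .no) .no (.red [.t 1089 3 2, .f 968 1 5, .f 1096 5
  3, .f 1096 3 1] 154 136 [3, 3, 1] [(137, 136, [3]), (154, 136, [3, 3, 1])]) .no) .no .no .no)
  .no .no .no) .no (.hor [.f 1338 3 5] []) .no .no .no) (.br 819 .no (.red [.f 691 1 3] 103 136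
  [2, 2, 4] [(103, 136, [2, 2, 4])]) .no (.br 944 .no (.br 937 (.red [.f 937 1 3, .f 937 3 5, .f
  817 5 1, .f 818 1 3] 119 136 [2, 4] [(119, 136, [2, 4]), (134, 118, [1])]) (.red [.t 937 2 3, .f
  818 1 3] 119 136 [2, 4] [(118, 136, [2, 4, 4]), (119, 136, [2, 4])]) .no (.br 715 .no (.use 246)
  (.use 279) .no .no (.red [.f 706 5 3, .f 706 3 1] 105 136 [2, 2, 3] [(105, 136, [2, 2, 3])]))
  .no (.br 715 .no (.use 248) (.use 279) .no .no (.red [.f 706 5 3, .f 706 3 1] 105 136 [2, 2, 3]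
  [(105, 136, [2, 2, 3])]))) .no (.use 141) .no .no) .no .no) .no) .no .no) .no

def c27t306 : Tr4 :=
  .br 1233 (.hor [.f 1233 1 5] []) .no (.hor [.t 1241 4 2, .f 1106 3 5] [(155, 136, [3, 1, 3,
  3])]) .no .no .no

def c27t307 : Tr4 :=
  .br 851 .no .no (.br 714 .no (.br 1107 (.con 136 [3, 1, 1, 3, 2]) .no (.br 850 .no (.red [.f 835
  1 3, .f 834 3 5, .f 706 5 1, .t 722 1 4, .f 707 1 3] 106 136 [2, 2, 3, 3] [(105, 136, [2, 2,
  3]), (106, 136, [2, 2, 3, 3]), (121, 105, [1])]) (.hor [.f 850 3 5] []) .no .no (.br 1113 (.br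
  1234 (.br 1114 (.use 306) (.con 136 [3, 3, 3, 3]) (.con 136 [3, 3, 3, 3, 1]) .no .no .no) .no
  (.con 136 [3, 3, 3, 1, 3]) .no (.con 136 [3, 1, 1, 3, 2]) (.red [.f 1225 5 3, .f 1224 3 5, .t
  1088 1 3] 153 136 [3, 1] [(153, 136, [3, 1])])) (.red [.t 1112 4 2] 139 136 [3, 3, 3] [(139,
  136, [3, 3, 3])]) (.br 985 .no (.br 986 (.con 136 [3, 3, 3, 3]) (.hor [.f 857 1 5] []) (.br 712
  .no (.br 713 .no (.hor [.f 584 1 5] []) (.br 848 .no (.red [.t 720 1 4, .f 705 1 3] 106 136 [2,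
  2, 3, 3] [(105, 136, [2, 2, 3]), (106, 136, [2, 2, 3, 3])]) (.con 136 [2, 3, 3, 3, 3]) .no .no
  .no) .no .no .no) (.use 268) .no (.red [.f 712 5 1, .f 705 1 3] 105 136 [2, 2, 3] [(105, 136,
  [2, 2, 3])]) .no) .no (.red [.f 978 5 3, .f 851 3 1, .f 843 1 3] 123 136 [2, 3, 3, 3] [(122,
  136, [2, 3, 3]), (123, 136, [2, 3, 3, 3])]) .no) (.red [.f 985 3 1] 140 136 [3, 3, 3, 3] [(140,
  136, [3, 3, 3, 3])]) .no (.br 1114 (.br 1234 (.use 306) .no .no .no (.con 136 [3, 1, 1, 3, 2])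
  (.red [.f 1225 5 3, .f 1224 3 5, .t 1088 1 3] 153 136 [3, 1] [(153, 136, [3, 1])])) .no (.hor
  [.f 1113 3 5] []) .no .no .no) (.red [.f 976 5 3, .f 976 3 1] 139 136 [3, 3, 3] [(139, 136, [3,
  3, 3])])) .no (.hor [.f 1105 5 3, .f 1104 3 5, .f 1106 3 5] []) .no)) .no .no .no) (.hor [.f 714
  3 5] []) .no .no (.red [.t 833 2 3] 105 136 [2, 2, 3] [(105, 136, [2, 2, 3])])) .no .no (.red
  [.f 850 5 1, .f 843 1 3, .f 715 3 1, .t 842 4 2] 106 136 [2, 2, 3, 3] [(105, 136, [2, 2, 3]),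
  (106, 136, [2, 2, 3, 3]), (122, 136, [2, 3, 3])])

def c27l7 : List Tr4 :=
  [c27t285, c27t286, c27t287, c27t288, c27t289, c27t290, c27t291, c27t292, c27t293, c27t294,
  c27t295, c27t296, c27t297, c27t298, c27t299, c27t300, c27t301, c27t302, c27t303, c27t304,
  c27t305, c27t306, c27t307]

theorem c27k7 : chkLF ⟨4, 1, 0, true, -8⟩ false 7 c27N 285 c27l7 = true := by decide +kernel

def c27t308 : Tr4 :=
  .br 1203 (.br 1072 (.use 305) (.hor [.f 944 1 5] []) .no (.br 706 .no (.use 205) (.red [.f 706 3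
  1, .f 705 1 5] 105 136 [2, 2, 3] [(105, 136, [2, 2, 3])]) (.use 258) (.br 704 .no (.use 269)
  (.red [.t 704 3 1, .f 833 3 5] 105 136 [2, 2, 3] [(105, 136, [2, 2, 3])]) (.br 944 .no (.br 937
  (.red [.f 937 1 3, .f 937 3 5, .f 817 5 1, .f 818 1 3] 119 136 [2, 4] [(119, 136, [2, 4]), (134,
  118, [1])]) (.red [.t 937 2 3, .f 818 1 3] 119 136 [2, 4] [(118, 136, [2, 4, 4]), (119, 136, [2,
  4])]) .no (.br 1346 (.br 1347 (.hor [.f 1346 1 5] []) .no (.use 264) (.br 936 .no (.br 819 .no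
  (.red [.f 691 1 3] 103 136 [2, 2, 4] [(103, 136, [2, 2, 4])]) .no (.br 715 .no (.use 245) (.use
  303) .no .no (.red [.f 706 5 3, .f 706 3 1] 105 136 [2, 2, 3] [(105, 136, [2, 2, 3])])) .no .no)
  .no (.hor [.f 928 3 5] []) .no .no) .no .no) .no (.red [.t 1345 2 3] 169 136 [3, 1, 1] [(169,
  136, [3, 1, 1])]) (.br 936 .no (.br 1339 (.br 1347 (.red [.f 1339 1 3, .f 1338 3 5] 184 136 [1,
  1, 1] [(184, 136, [1, 1, 1])]) .no (.br 1224 (.con 136 [3, 1, 1, 3]) .no (.br 1104 .no (.red [.t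
  960 2 4, .f 968 1 3, .f 1096 3 1, .f 1088 1 3] 138 136 [3, 3] [(120, 119, [3]), (138, 136, [3,
  3]), (153, 136, [3, 1]), (154, 136, [3, 3, 1])]) (.br 976 .no (.use 262) (.red [.f 976 3 1, .f
  968 1 3] 138 136 [3, 3] [(138, 136, [3, 3]), (139, 136, [3, 3, 3])]) .no (.br 1105 (.red [.t 960
  2 4, .t 1096 2 4, .t 1232 4 2] 154 136 [3, 3, 1] [(120, 119, [3]), (137, 136, [3]), (154, 136,
  [3, 3, 1])]) .no (.hor [.f 1104 3 5] []) .no (.br 979 (.con 136 [3, 3, 3]) (.red [.f 843 1 3]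
  122 136 [2, 3, 3] [(122, 136, [2, 3, 3])]) (.use 263) .no .no (.br 819 .no (.red [.f 691 1 3]
  103 136 [2, 2, 4] [(103, 136, [2, 2, 4])]) .no (.br 809 .no (.br 715 .no (.use 244) (.use 307)
  .no .no (.red [.f 706 5 3, .f 706 3 1] 105 136 [2, 2, 3] [(105, 136, [2, 2, 3])])) .no (.red [.f
  808 1 3, .f 801 3 1, .f 808 3 1, .f 808 1 5] 117 136 [2, 4, 4, 4] [(117, 136, [2, 4, 4, 4])])
  (.red [.f 808 1 3, .f 809 5 3, .f 810 3 5, .t 954 2 4] 119 136 [2, 4] [(118, 102, [1]), (119,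
  136, [2, 4])]) .no) .no .no)) .no) .no) .no (.red [.t 1089 3 2, .f 968 1 5, .f 1096 5 3, .f 1096
  3 1] 154 136 [3, 3, 1] [(137, 136, [3]), (154, 136, [3, 3, 1])]) .no) .no .no .no) .no .no .no)
  .no (.hor [.f 1338 3 5] []) .no .no .no) .no (.hor [.f 928 3 5] []) .no .no) (.use 280) .no) .no
  (.red [.t 1072 4 2, .f 937 3 5, .f 817 5 1, .f 818 1 3] 119 136 [2, 4] [(119, 136, [2, 4]),
  (134, 118, [1])])) .no (.hor [.f 936 3 1, .f 944 1 5] [(134, 118, [1])]) .no .no) .no .no) .no)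
  .no .no) .no .no (.hor [.f 1067 3 1, .t 1074 3 1, .f 1081 1 5] [(150, 119, [1, 1, 4]), (151,
  119, [1, 1])]) .no (.red [.f 1202 5 3, .f 1074 3 1, .f 1081 1 5, .t 961 4 1, .f 945 1 3] 136 136
  [] [(135, 136, [4]), (136, 136, []), (151, 135, [1])])

def c27t309 : Tr4 :=
  .br 1210 (.br 1225 (.red [.f 1217 1 3] 169 136 [3, 1, 1] [(169, 136, [3, 1, 1])]) .no (.br 1098
  (.use 228) (.use 229) (.use 219) .no (.use 227) .no) .no (.br 1098 .no (.use 229) (.br 945 (.br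
  834 .no (.use 215) (.use 254) .no .no (.red [.t 953 3 2, .t 1073 2 3, .f 954 1 3, .f 826 3 1]
  136 136 [] [(135, 136, [4]), (136, 136, [])])) .no .no (.hor [.f 937 3 5] []) .no (.use 257))
  .no (.br 945 (.br 834 .no (.use 215) (.br 833 .no (.br 970 .no .no (.use 230) .no (.use 259)
  (.br 971 .no (.br 841 .no (.red [.f 705 1 3] 105 136 [2, 2, 3] [(105, 136, [2, 2, 3])]) (.use
  222) .no .no (.use 281)) (.use 286) .no .no .no)) (.hor [.f 833 3 5] []) .no .no .no) .no .no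
  (.red [.t 953 3 2, .t 1073 2 3, .f 954 1 3, .f 826 3 1] 136 136 [] [(135, 136, [4]), (136, 136,
  [])])) .no .no (.hor [.f 937 3 5] []) .no (.use 257)) .no) (.red [.t 1088 1 3, .t 952 1 3, .f
  961 1 5] 153 136 [3, 1] [(136, 136, []), (153, 136, [3, 1])])) .no .no (.red [.f 1074 3 1, .f
  1081 1 5, .t 961 4 1] 136 136 [] [(136, 136, []), (151, 135, [1])]) (.br 1225 (.red [.f 1217 1
  3] 169 136 [3, 1, 1] [(169, 136, [3, 1, 1])]) .no (.use 290) .no (.br 1098 .no (.use 229) (.br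
  945 (.br 834 .no (.use 294) (.use 254) .no .no (.red [.t 953 3 2, .t 1073 2 3, .f 954 1 3, .f
  826 3 1] 136 136 [] [(135, 136, [4]), (136, 136, [])])) .no .no (.hor [.f 937 3 5] []) .no (.use
  298)) .no (.br 945 (.br 834 .no (.use 294) (.br 833 .no (.br 970 .no .no (.use 230) .no (.use
  259) (.br 971 .no (.br 841 .no (.red [.f 705 1 3] 105 136 [2, 2, 3] [(105, 136, [2, 2, 3])])
  (.use 222) .no .no (.br 1075 (.red [.t 1074 3 1, .f 1081 1 5, .t 961 4 1, .f 945 1 3] 136 136 []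
  [(135, 136, [4]), (136, 136, []), (151, 135, [1])]) .no .no (.use 308) .no .no)) (.use 286) .no
  .no .no)) (.hor [.f 833 3 5] []) .no .no .no) .no .no (.red [.t 953 3 2, .t 1073 2 3, .f 954 1
  3, .f 826 3 1] 136 136 [] [(135, 136, [4]), (136, 136, [])])) .no .no (.hor [.f 937 3 5] []) .no
  (.use 298)) .no) (.red [.t 1088 1 3, .t 952 1 3, .f 961 1 5] 153 136 [3, 1] [(136, 136, []),
  (153, 136, [3, 1])])) .no

def c27t310 : Tr4 :=
  .br 944 (.hor [.f 944 1 5] []) (.dom 119 136 [2, 4]) .no (.br 1072 (.br 818 .no (.use 4) .no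
  (.red [.f 810 3 1, .f 818 1 3] 119 136 [2, 4] [(118, 136, [2, 4, 4]), (119, 136, [2, 4])]) (.red
  [.t 954 2 4, .f 817 3 5] 119 136 [2, 4] [(119, 136, [2, 4])]) .no) .no .no (.hor [.f 936 3 1, .f
  944 1 5] [(134, 118, [1])]) .no .no) .no .no

def c27t311 : Tr4 :=
  .br 840 .no (.con 136 [3, 2, 2, 3]) (.hor [.f 840 3 5] []) .no .no .no

def c27t312 : Tr4 :=
  .br 843 .no (.red [.t 842 4 2, .f 705 1 5] 105 136 [2, 2, 3] [(105, 136, [2, 2, 3])]) (.use 311)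
  .no .no .no

def c27t313 : Tr4 :=
  .br 706 .no (.use 205) (.red [.f 706 3 1, .f 705 1 5] 105 136 [2, 2, 3] [(105, 136, [2, 2, 3])])
  (.use 206) (.use 250) .no

def c27t314 : Tr4 :=
  .br 818 .no (.use 4) .no (.red [.f 810 3 1, .f 818 1 3] 119 136 [2, 4] [(118, 136, [2, 4, 4]),
  (119, 136, [2, 4])]) (.red [.t 960 2 4, .t 824 3 1, .t 954 2 4] 119 136 [2, 4] [(119, 136, [2,
  4])]) (.use 313)

def c27t315 : Tr4 :=
  .br 818 .no (.use 6) .no (.red [.f 810 3 1, .f 818 1 3] 119 136 [2, 4] [(118, 136, [2, 4, 4]),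
  (119, 136, [2, 4])]) (.red [.t 960 2 4, .t 824 3 1, .t 954 2 4] 119 136 [2, 4] [(119, 136, [2,
  4])]) (.use 210)

def c27t316 : Tr4 :=
  .br 704 .no (.use 233) (.red [.t 704 3 1, .f 833 3 5] 105 136 [2, 2, 3] [(105, 136, [2, 2, 3])])
  (.br 818 .no (.use 6) .no (.red [.f 810 3 1, .f 818 1 3] 119 136 [2, 4] [(118, 136, [2, 4, 4]),
  (119, 136, [2, 4])]) (.red [.t 960 2 4, .t 824 3 1, .t 954 2 4] 119 136 [2, 4] [(119, 136, [2,
  4])]) (.use 252)) .no .no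

def c27t317 : Tr4 :=
  .br 969 .no (.br 706 .no (.use 59) (.red [.f 706 3 1, .f 705 1 5] 105 136 [2, 2, 3] [(105, 136,
  [2, 2, 3])]) (.br 825 .no (.use 5) .no (.use 310) .no (.br 1072 (.br 818 .no (.use 4) .no (.red
  [.f 810 3 1, .f 818 1 3] 119 136 [2, 4] [(118, 136, [2, 4, 4]), (119, 136, [2, 4])]) (.red [.t
  960 2 4, .t 824 3 1, .t 954 2 4] 119 136 [2, 4] [(119, 136, [2, 4])]) (.use 69)) (.hor [.f 944 1
  5] []) .no (.br 944 .no (.br 818 .no (.use 6) .no (.red [.f 810 3 1, .f 818 1 3] 119 136 [2, 4]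
  [(118, 136, [2, 4, 4]), (119, 136, [2, 4])]) (.red [.t 960 2 4, .t 824 3 1, .t 954 2 4] 119 136
  [2, 4] [(119, 136, [2, 4])]) (.use 70)) .no (.hor [.f 936 3 1, .f 944 1 5] [(134, 118, [1])])
  .no .no) .no .no)) (.use 54) .no) (.hor [.f 969 3 5] []) .no .no (.br 825 .no (.use 5) .no (.use
  310) .no (.br 1072 (.br 841 .no (.red [.f 705 1 3] 105 136 [2, 2, 3] [(105, 136, [2, 2, 3])])
  (.br 818 .no (.use 4) .no (.red [.f 810 3 1, .f 818 1 3] 119 136 [2, 4] [(118, 136, [2, 4, 4]),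
  (119, 136, [2, 4])]) (.red [.t 960 2 4, .t 824 3 1, .t 954 2 4] 119 136 [2, 4] [(119, 136, [2,
  4])]) (.br 706 .no (.use 200) (.red [.f 706 3 1, .f 705 1 5] 105 136 [2, 2, 3] [(105, 136, [2,
  2, 3])]) (.use 206) (.use 312) .no)) .no .no (.use 314)) (.hor [.f 944 1 5] []) .no (.br 944 .no
  (.br 841 .no (.red [.f 705 1 3] 105 136 [2, 2, 3] [(105, 136, [2, 2, 3])]) (.br 706 .no (.use
  200) (.red [.f 706 3 1, .f 705 1 5] 105 136 [2, 2, 3] [(105, 136, [2, 2, 3])]) (.use 315) (.use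
  312) .no) .no .no (.br 706 .no (.use 205) (.red [.f 706 3 1, .f 705 1 5] 105 136 [2, 2, 3]
  [(105, 136, [2, 2, 3])]) (.use 315) (.use 316) .no)) .no (.hor [.f 936 3 1, .f 944 1 5] [(134,
  118, [1])]) .no .no) .no .no))

def c27t318 : Tr4 :=
  .br 968 .no (.hor [.f 840 1 5] []) (.con 136 [3, 2, 3]) .no .no .no

def c27t319 : Tr4 :=
  .br 840 .no (.con 136 [3, 2, 2, 3]) (.hor [.f 840 3 5] []) .no .no .no

def c27t320 : Tr4 :=
  .br 818 .no (.use 4) .no (.red [.f 810 3 1, .f 818 1 3] 119 136 [2, 4] [(118, 136, [2, 4, 4]),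
  (119, 136, [2, 4])]) (.red [.t 960 2 4, .t 824 3 1, .t 954 2 4] 119 136 [2, 4] [(119, 136, [2,
  4])]) (.use 206)

def c27t321 : Tr4 :=
  .br 713 .no (.hor [.f 585 1 5] []) (.red [.t 720 1 4, .f 705 1 3] 105 136 [2, 2, 3] [(105, 136,
  [2, 2, 3]), (106, 136, [2, 2, 3, 3])]) .no .no (.red [.f 712 5 1, .f 705 1 3] 105 136 [2, 2, 3]
  [(105, 136, [2, 2, 3])])

def c27t322 : Tr4 :=
  .br 850 .no (.hor [.f 722 1 5] []) (.br 848 .no (.use 321) (.con 136 [2, 2, 3, 3, 3]) .no (.con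
  136 [2, 2, 3, 3, 3]) .no) .no .no (.red [.f 840 5 1, .t 969 2 3] 122 136 [2, 3, 3] [(122, 136,
  [2, 3, 3])])

def c27t323 : Tr4 :=
  .br 850 .no (.hor [.f 722 1 5] []) (.con 136 [3, 2, 3, 2, 3]) .no .no (.con 136 [3, 2, 3, 2, 3])

def c27t324 : Tr4 :=
  .br 848 .no (.use 321) (.use 323) .no (.red [.f 968 5 3, .f 840 5 3, .f 840 3 1] 122 136 [2, 3,
  3] [(122, 136, [2, 3, 3])]) .no

def c27t325 : Tr4 :=
  .br 977 (.br 976 .no (.con 136 [2, 3, 3, 3]) (.use 322) .no .no .no) (.red [.f 840 5 1, .f 841 1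
  3] 122 136 [2, 3, 3] [(122, 136, [2, 3, 3])]) (.br 976 .no (.con 136 [2, 3, 3, 3]) (.use 322)
  .no .no .no) .no .no (.use 324)

def c27t326 : Tr4 :=
  .br 713 .no (.con 136 [2, 2, 3, 3, 2]) (.red [.t 720 1 4, .f 705 1 3] 106 136 [2, 2, 3, 3]
  [(105, 136, [2, 2, 3]), (106, 136, [2, 2, 3, 3])]) .no .no .no

def c27t327 : Tr4 :=
  .br 976 .no (.con 136 [2, 3, 3, 3]) (.br 712 .no (.br 848 .no (.use 326) (.con 136 [2, 2, 3, 3,
  3]) .no .no .no) (.con 136 [2, 2, 3, 3, 2]) .no (.con 136 [2, 2, 3, 3, 2]) .no) .no .no .no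

def c27t328 : Tr4 :=
  .br 712 .no (.br 848 .no (.use 326) (.con 136 [2, 2, 3, 3, 3]) .no .no .no) (.con 136 [2, 2, 3,
  3, 2]) .no (.con 136 [2, 2, 3, 3, 2]) .no

def c27t329 : Tr4 :=
  .br 979 .no (.red [.f 843 1 3] 122 136 [2, 3, 3] [(122, 136, [2, 3, 3])]) (.br 851 .no (.br 714
  .no (.use 325) (.br 849 (.red [.f 840 5 1, .f 841 1 3] 122 136 [2, 3, 3] [(122, 136, [2, 3,
  3])]) (.con 136 [2, 2, 3, 3, 2]) (.br 977 (.use 327) .no (.red [.f 840 5 1, .f 849 3 1] 123 136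
  [2, 3, 3, 3] [(123, 136, [2, 3, 3, 3])]) .no .no (.use 328)) .no (.red [.f 840 5 1, .t 969 2 3]
  122 136 [2, 3, 3] [(122, 136, [2, 3, 3])]) (.con 136 [2, 2, 3, 3, 3])) .no (.red [.f 706 5 3, .f
  706 3 1] 105 136 [2, 2, 3] [(105, 136, [2, 2, 3])]) (.red [.t 833 2 3] 105 136 [2, 2, 3] [(105,
  136, [2, 2, 3])])) (.red [.f 851 3 1, .f 843 1 3, .f 970 3 5] 122 136 [2, 3, 3] [(122, 136, [2,
  3, 3]), (123, 136, [2, 3, 3, 3])]) .no .no (.red [.t 970 3 2] 122 136 [2, 3, 3] [(122, 136, [2,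
  3, 3])])) .no .no .no

def c27t330 : Tr4 :=
  .br 1107 (.con 136 [3, 3, 1]) (.con 136 [3, 3, 1]) (.con 136 [3, 3, 1]) (.use 329) .no .no

def c27t331 : Tr4 :=
  .br 1098 (.br 1099 (.con 136 [3, 3, 1, 1]) .no (.use 329) .no .no .no) .no (.use 330) .no (.use
  226) .no

def c27t332 : Tr4 :=
  .br 976 .no (.con 136 [3, 2, 3, 3]) (.hor [.f 976 3 5] []) .no .no .no

def c27t333 : Tr4 :=
  .br 697 .no (.br 850 .no (.br 715 .no (.use 241) (.red [.f 835 1 3, .f 834 3 5, .f 706 5 1, .t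
  722 1 4, .f 707 1 3] 106 136 [2, 2, 3, 3] [(105, 136, [2, 2, 3]), (106, 136, [2, 2, 3, 3]),
  (121, 105, [1])]) .no .no .no) (.hor [.f 850 3 5] []) .no .no (.red [.f 840 5 1, .t 969 2 3] 122
  136 [2, 3, 3] [(122, 136, [2, 3, 3])])) .no (.hor [.f 689 3 5] []) .no .no

def c27t334 : Tr4 :=
  .br 1353 (.br 1354 (.hor [.f 1353 1 5] []) .no (.con 136 [3, 1, 3, 1, 1]) .no .no .no) .no (.br
  1354 (.red [.f 1346 1 3, .t 1345 2 3] 185 136 [3, 1, 1, 1] [(169, 136, [3, 1, 1]), (185, 136,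
  [3, 1, 1, 1])]) .no (.hor [.f 1353 3 5] []) .no .no .no) .no (.red [.f 1225 5 1, .f 1224 1 5, .t
  1088 1 3] 153 136 [3, 1] [(153, 136, [3, 1])]) .no

def c27t335 : Tr4 :=
  .br 698 .no (.use 236) .no .no .no (.br 712 .no (.use 238) (.use 268) .no (.red [.f 712 5 1, .f
  705 1 3] 105 136 [2, 2, 3] [(105, 136, [2, 2, 3])]) .no)

def c27t336 : Tr4 :=
  .br 851 .no (.use 324) (.br 690 .no (.use 51) (.use 333) (.use 93) (.use 87) (.use 335)) .no .no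
  (.red [.t 970 3 2] 122 136 [2, 3, 3] [(122, 136, [2, 3, 3])])

def c27t337 : Tr4 :=
  .br 848 .no (.hor [.f 720 1 5] []) (.con 136 [3, 2, 2, 3, 3]) .no .no .no

def c27t338 : Tr4 :=
  .br 849 .no (.use 337) (.br 851 .no (.use 328) (.br 987 (.red [.f 979 1 3] 139 136 [3, 3, 3]
  [(139, 136, [3, 3, 3])]) .no (.br 986 (.br 985 (.hor [.f 985 1 5] []) .no (.con 136 [3, 3, 3,
  3]) .no .no (.con 136 [3, 3, 3, 3])) (.red [.f 840 5 1, .t 978 4 1, .t 858 1 4] 123 136 [2, 3,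
  3, 3] [(123, 136, [2, 3, 3, 3]), (138, 122, [1])]) (.hor [.f 986 3 5] []) .no .no (.red [.f 968
  5 3, .f 969 3 5, .f 977 5 3, .f 849 3 1] 123 136 [2, 3, 3, 3] [(123, 136, [2, 3, 3, 3])])) .no
  .no (.red [.t 978 4 1, .f 978 5 3, .f 851 3 1, .f 843 1 3] 123 136 [2, 3, 3, 3] [(122, 136, [2,
  3, 3]), (123, 136, [2, 3, 3, 3]), (138, 122, [1])])) .no .no (.red [.t 970 3 2] 122 136 [2, 3,
  3] [(122, 136, [2, 3, 3])])) .no (.red [.f 840 5 1, .t 969 2 3] 122 136 [2, 3, 3] [(122, 136,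
  [2, 3, 3])]) (.red [.f 968 5 3, .f 840 5 3, .f 840 3 1] 122 136 [2, 3, 3] [(122, 136, [2, 3,
  3])])

def c27l8 : List Tr4 :=
  [c27t308, c27t309, c27t310, c27t311, c27t312, c27t313, c27t314, c27t315, c27t316, c27t317,
  c27t318, c27t319, c27t320, c27t321, c27t322, c27t323, c27t324, c27t325, c27t326, c27t327,
  c27t328, c27t329, c27t330, c27t331, c27t332, c27t333, c27t334, c27t335, c27t336, c27t337,
  c27t338]

theorem c27k8 : chkLF ⟨4, 1, 0, true, -8⟩ false 7 c27N 308 c27l8 = true := by decide +kernel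

def c27t339 : Tr4 :=
  .br 851 .no (.br 714 .no (.use 325) (.br 849 (.red [.f 840 5 1, .f 841 1 3] 122 136 [2, 3, 3]
  [(122, 136, [2, 3, 3])]) (.con 136 [2, 2, 3, 3, 2]) (.br 977 (.use 327) .no (.red [.f 840 5 1,
  .f 849 3 1] 123 136 [2, 3, 3, 3] [(123, 136, [2, 3, 3, 3])]) .no .no (.use 328)) .no (.red [.f
  840 5 1, .t 969 2 3] 122 136 [2, 3, 3] [(122, 136, [2, 3, 3])]) (.con 136 [2, 2, 3, 3, 3])) .no
  (.red [.f 706 5 3, .f 706 3 1] 105 136 [2, 2, 3] [(105, 136, [2, 2, 3])]) (.red [.t 833 2 3] 105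
  136 [2, 2, 3] [(105, 136, [2, 2, 3])])) (.red [.f 851 3 1, .f 843 1 3, .f 970 3 5] 122 136 [2,
  3, 3] [(122, 136, [2, 3, 3]), (123, 136, [2, 3, 3, 3])]) .no .no (.red [.t 970 3 2] 122 136 [2,
  3, 3] [(122, 136, [2, 3, 3])])

def c27t340 : Tr4 :=
  .br 944 .no (.use 315) .no (.hor [.f 936 3 1, .f 944 1 5] [(134, 118, [1])]) .no .no

def c27t341 : Tr4 :=
  .br 1072 (.br 841 .no (.red [.f 705 1 3] 105 136 [2, 2, 3] [(105, 136, [2, 2, 3])]) (.use 319)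
  .no .no (.br 706 .no (.use 205) (.red [.f 706 3 1, .f 705 1 5] 105 136 [2, 2, 3] [(105, 136, [2,
  2, 3])]) (.use 320) (.br 704 .no (.use 269) (.red [.t 704 3 1, .f 833 3 5] 105 136 [2, 2, 3]
  [(105, 136, [2, 2, 3])]) (.br 1225 (.hor [.f 1224 1 5] []) .no (.use 331) .no (.br 1098 .no .no
  (.use 330) .no (.br 818 .no (.use 4) .no (.red [.f 810 3 1, .f 818 1 3] 119 136 [2, 4] [(118,
  136, [2, 4, 4]), (119, 136, [2, 4])]) (.red [.t 960 2 4, .t 824 3 1, .t 954 2 4] 119 136 [2, 4]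
  [(119, 136, [2, 4])]) (.br 979 (.br 977 (.con 136 [3, 3, 3]) (.red [.f 840 5 1, .f 841 1 3] 122
  136 [2, 3, 3] [(122, 136, [2, 3, 3])]) (.use 332) .no .no (.br 944 .no (.br 714 .no (.br 819 .no
  (.red [.f 691 1 3] 103 136 [2, 2, 4] [(103, 136, [2, 2, 4])]) .no (.br 937 (.red [.f 937 1 3, .f
  937 3 5, .f 817 5 1, .f 818 1 3] 119 136 [2, 4] [(119, 136, [2, 4]), (134, 118, [1])]) (.red [.t
  937 2 3, .f 818 1 3] 119 136 [2, 4] [(118, 136, [2, 4, 4]), (119, 136, [2, 4])]) .no (.br 936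
  (.br 851 .no (.br 715 .no (.use 240) .no .no .no .no) (.br 850 .no (.br 715 .no (.use 240) (.red
  [.f 835 1 3, .f 834 3 5, .f 706 5 1, .t 722 1 4, .f 707 1 3] 106 136 [2, 2, 3, 3] [(105, 136,
  [2, 2, 3]), (106, 136, [2, 2, 3, 3]), (121, 105, [1])]) .no .no .no) (.hor [.f 850 3 5] []) .no
  .no (.red [.f 840 5 1, .t 969 2 3] 122 136 [2, 3, 3] [(122, 136, [2, 3, 3])])) .no .no (.red [.t
  970 3 2] 122 136 [2, 3, 3] [(122, 136, [2, 3, 3])])) (.use 336) .no (.hor [.f 928 3 5] []) .no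
  .no) .no (.br 690 .no (.use 51) (.br 851 .no (.use 324) (.use 333) .no .no (.red [.t 970 3 2]
  122 136 [2, 3, 3] [(122, 136, [2, 3, 3])])) (.use 146) (.use 101) (.use 335))) .no .no) (.use
  338) .no (.red [.f 706 5 3, .f 706 3 1] 105 136 [2, 2, 3] [(105, 136, [2, 2, 3])]) (.red [.t 833
  2 3] 105 136 [2, 2, 3] [(105, 136, [2, 2, 3])])) .no (.use 293) .no .no)) (.red [.f 843 1 3] 122
  136 [2, 3, 3] [(122, 136, [2, 3, 3])]) (.use 339) .no .no .no)) .no) .no) .no .no) .no)) (.hor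
  [.f 944 1 5] []) .no (.br 841 .no (.red [.f 705 1 3] 105 136 [2, 2, 3] [(105, 136, [2, 2, 3])])
  (.use 319) .no .no (.br 706 .no (.use 205) (.red [.f 706 3 1, .f 705 1 5] 105 136 [2, 2, 3]
  [(105, 136, [2, 2, 3])]) (.use 340) (.br 704 .no (.use 269) (.red [.t 704 3 1, .f 833 3 5] 105
  136 [2, 2, 3] [(105, 136, [2, 2, 3])]) (.br 1225 (.hor [.f 1224 1 5] []) .no (.use 331) .no (.br
  1098 .no .no (.use 330) .no (.br 979 (.br 977 (.con 136 [3, 3, 3]) (.red [.f 840 5 1, .f 841 1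
  3] 122 136 [2, 3, 3] [(122, 136, [2, 3, 3])]) (.use 332) .no .no (.br 944 .no (.br 818 .no (.use
  6) .no (.red [.f 810 3 1, .f 818 1 3] 119 136 [2, 4] [(118, 136, [2, 4, 4]), (119, 136, [2,
  4])]) (.red [.t 960 2 4, .t 824 3 1, .t 954 2 4] 119 136 [2, 4] [(119, 136, [2, 4])]) (.br 937
  (.red [.f 937 1 3, .f 937 3 5, .f 817 5 1, .f 818 1 3] 119 136 [2, 4] [(119, 136, [2, 4]), (134,
  118, [1])]) (.red [.t 937 2 3, .f 818 1 3] 119 136 [2, 4] [(118, 136, [2, 4, 4]), (119, 136, [2,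
  4])]) .no (.br 936 .no (.br 714 .no (.br 819 .no (.red [.f 691 1 3] 103 136 [2, 2, 4] [(103,
  136, [2, 2, 4])]) .no (.use 336) .no .no) (.use 338) .no (.red [.f 706 5 3, .f 706 3 1] 105 136
  [2, 2, 3] [(105, 136, [2, 2, 3])]) (.red [.t 833 2 3] 105 136 [2, 2, 3] [(105, 136, [2, 2,
  3])])) .no (.hor [.f 928 3 5] []) .no .no) .no (.red [.t 1072 4 2, .f 937 3 5, .f 817 5 1, .f
  818 1 3] 119 136 [2, 4] [(119, 136, [2, 4]), (134, 118, [1])]))) .no (.hor [.f 936 3 1, .f 944 1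
  5] [(134, 118, [1])]) .no .no)) (.red [.f 843 1 3] 122 136 [2, 3, 3] [(122, 136, [2, 3, 3])])
  (.use 339) .no .no .no) .no) .no) .no .no) .no)) .no .no

def c27t342 : Tr4 :=
  .br 971 (.use 317) (.br 825 .no (.use 5) .no (.use 310) .no (.br 969 .no (.use 318) (.hor [.f
  969 3 5] []) .no .no (.use 341))) (.hor [.f 970 3 5] []) .no .no .no

def c27t343 : Tr4 :=
  .br 968 .no (.br 841 .no (.red [.f 705 1 3] 105 136 [2, 2, 3] [(105, 136, [2, 2, 3])]) (.hor [.f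
  841 3 1, .f 840 1 5] [(122, 136, [3, 2, 3])]) .no .no .no) (.hor [.f 968 3 5] []) .no .no .no

def c27t344 : Tr4 :=
  .br 818 .no (.use 4) .no (.red [.f 810 3 1, .f 818 1 3] 119 136 [2, 4] [(118, 136, [2, 4, 4]),
  (119, 136, [2, 4])]) (.red [.t 960 2 4, .t 824 3 1, .t 954 2 4] 119 136 [2, 4] [(119, 136, [2,
  4])]) (.use 282)

def c27t345 : Tr4 :=
  .br 968 .no (.hor [.f 840 1 5] []) (.br 840 .no (.use 90) (.red [.f 840 3 1, .f 840 1 5] 122 136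
  [2, 3, 3] [(122, 136, [2, 3, 3])]) .no .no .no) .no .no .no

def c27t346 : Tr4 :=
  .br 843 .no (.red [.t 842 4 2, .f 705 1 5] 105 136 [2, 2, 3] [(105, 136, [2, 2, 3])]) (.use 311)
  .no .no .no

def c27t347 : Tr4 :=
  .br 1072 (.br 706 .no (.use 216) (.red [.f 706 3 1, .f 705 1 5] 105 136 [2, 2, 3] [(105, 136,
  [2, 2, 3])]) (.use 320) (.br 843 .no (.red [.t 842 4 2, .f 705 1 5] 105 136 [2, 2, 3] [(105,
  136, [2, 2, 3])]) (.br 969 .no (.use 53) (.use 343) .no .no (.br 841 .no (.red [.f 705 1 3] 105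
  136 [2, 2, 3] [(105, 136, [2, 2, 3])]) (.use 311) .no .no (.use 344))) .no .no .no) .no) (.hor
  [.f 944 1 5] []) .no (.br 706 .no (.use 216) (.red [.f 706 3 1, .f 705 1 5] 105 136 [2, 2, 3]
  [(105, 136, [2, 2, 3])]) (.use 340) (.br 944 .no (.br 969 .no (.use 345) (.use 343) .no .no (.br
  841 .no (.red [.f 705 1 3] 105 136 [2, 2, 3] [(105, 136, [2, 2, 3])]) (.use 346) .no .no (.br
  704 .no (.br 712 .no (.red [.f 576 1 3] 89 136 [2, 2, 2, 3] [(89, 136, [2, 2, 2, 3])]) (.br 843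
  .no (.red [.t 842 4 2, .f 705 1 5] 105 136 [2, 2, 3] [(105, 136, [2, 2, 3])]) (.br 715 .no (.use
  207) (.red [.f 715 3 1, .t 842 4 2] 106 136 [2, 2, 3, 3] [(105, 136, [2, 2, 3]), (106, 136, [2,
  2, 3, 3])]) .no .no (.red [.f 706 5 3, .f 706 3 1] 105 136 [2, 2, 3] [(105, 136, [2, 2, 3])]))
  .no .no .no) .no (.red [.f 712 5 1, .f 705 1 3] 105 136 [2, 2, 3] [(105, 136, [2, 2, 3])]) .no)
  (.red [.t 704 3 1, .f 833 3 5] 105 136 [2, 2, 3] [(105, 136, [2, 2, 3])]) (.br 843 .no (.red [.t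
  842 4 2, .f 705 1 5] 105 136 [2, 2, 3] [(105, 136, [2, 2, 3])]) (.br 818 .no (.use 6) .no (.red
  [.f 810 3 1, .f 818 1 3] 119 136 [2, 4] [(118, 136, [2, 4, 4]), (119, 136, [2, 4])]) (.red [.t
  960 2 4, .t 824 3 1, .t 954 2 4] 119 136 [2, 4] [(119, 136, [2, 4])]) (.use 284)) .no .no .no)
  .no .no))) .no (.hor [.f 936 3 1, .f 944 1 5] [(134, 118, [1])]) .no .no) .no) .no .no

def c27t348 : Tr4 :=
  .br 841 .no (.red [.f 705 1 3] 105 136 [2, 2, 3] [(105, 136, [2, 2, 3])]) (.hor [.f 835 1 3, .f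
  834 3 5, .f 841 3 1, .f 832 1 3, .f 841 1 3] []) .no .no .no

def c27t349 : Tr4 :=
  .br 968 .no (.use 348) (.hor [.f 968 3 5] []) .no .no .no

def c27t350 : Tr4 :=
  .br 1347 (.hor [.f 1346 1 5] []) .no .no (.red [.t 1338 2 3, .f 1219 1 3] 169 136 [3, 1, 1]
  [(168, 136, [1, 1]), (169, 136, [3, 1, 1])]) .no .no

def c27t351 : Tr4 :=
  .br 1346 (.use 350) .no (.red [.t 1354 4 2, .f 1217 1 5] 169 136 [3, 1, 1] [(169, 136, [3, 1,
  1])]) .no (.red [.f 1218 5 1, .f 1219 1 3] 169 136 [3, 1, 1] [(169, 136, [3, 1, 1])]) .no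

def c27t352 : Tr4 :=
  .br 1227 (.use 351) .no (.con 136 [3, 1, 1, 3]) .no .no (.con 136 [3, 1, 3, 1])

def c27t353 : Tr4 :=
  .br 1106 (.con 136 [3, 3, 3, 1]) .no (.hor [.f 1105 3 5] []) .no .no .no

def c27t354 : Tr4 :=
  .br 1105 (.red [.f 962 1 3, .f 1089 3 5, .f 1097 5 1, .f 1097 1 3] 154 136 [3, 3, 1] [(137, 136,
  [3]), (154, 136, [3, 3, 1])]) .no (.use 353) .no (.red [.f 977 5 1, .f 970 1 3] 138 136 [3, 3]
  [(138, 136, [3, 3])]) .no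

def c27t355 : Tr4 :=
  .br 1105 .no .no (.use 353) .no (.red [.f 977 5 1, .f 970 1 3] 138 136 [3, 3] [(138, 136, [3,
  3])]) .no

def c27t356 : Tr4 :=
  .br 1099 (.con 136 [3, 3, 1]) (.hor [.f 970 1 5] []) (.br 971 .no (.br 979 .no (.red [.f 843 1
  3, .f 971 3 1, .f 970 1 5] 138 136 [3, 3] [(122, 136, [2, 3, 3]), (138, 136, [3, 3])]) (.br 969
  .no (.use 318) (.use 349) .no .no (.br 841 .no (.red [.f 705 1 3] 105 136 [2, 2, 3] [(105, 136,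
  [2, 2, 3])]) (.use 319) .no .no (.br 978 (.red [.f 962 1 3, .f 962 3 1, .f 970 1 3, .f 1098 3 5]
  138 136 [3, 3] [(138, 136, [3, 3])]) (.br 977 (.con 136 [3, 3, 3]) (.red [.f 840 5 1, .f 841 1
  3] 122 136 [2, 3, 3] [(122, 136, [2, 3, 3])]) (.con 136 [2, 3, 3, 3]) .no .no (.con 136 [2, 3,
  3, 3])) (.hor [.f 978 3 5] []) .no .no (.br 1225 (.red [.f 1217 1 3] 169 136 [3, 1, 1] [(169,
  136, [3, 1, 1])]) .no (.use 355) .no (.use 354) .no)))) .no .no (.red [.f 962 1 3, .f 962 3 1,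
  .t 1098 2 3] 138 136 [3, 3] [(138, 136, [3, 3])])) (.red [.f 971 3 1, .f 970 1 5] 138 136 [3, 3]
  [(138, 136, [3, 3])]) .no .no .no) .no .no .no

def c27t357 : Tr4 :=
  .br 1226 (.con 136 [3, 1, 3, 1]) .no (.red [.f 1098 3 1] 154 136 [3, 1, 3] [(154, 136, [3, 1,
  3])]) .no (.con 136 [3, 1, 3, 1]) .no

def c27t358 : Tr4 :=
  .br 1233 .no .no (.red [.f 1105 3 1, .t 1105 1 4] 154 136 [1, 3, 3] [(154, 136, [1, 3, 3]),
  (155, 136, [1, 3, 3, 3])]) .no (.red [.f 1225 5 3, .f 1225 3 1, .f 1217 1 3] 170 136 [1, 3, 3,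
  1] [(169, 136, [1, 3, 1]), (170, 136, [1, 3, 3, 1])]) (.red [.t 1352 2 3, .f 1096 3 1] 154 136
  [1, 3, 3] [(154, 136, [1, 3, 3]), (170, 136, [1, 3, 3, 1])])

def c27t359 : Tr4 :=
  .br 1353 (.use 274) .no (.use 358) .no (.red [.f 1225 5 1, .f 1217 1 3] 169 136 [1, 3, 1] [(169,
  136, [1, 3, 1])]) .no

def c27t360 : Tr4 :=
  .br 1346 (.br 1347 (.hor [.f 1346 1 5] []) .no (.con 136 [3, 1, 1, 3]) (.use 287) .no .no) .no
  (.use 217) (.red [.f 1210 5 3, .f 1210 3 1, .f 1217 1 5, .t 1097 4 1] 153 136 [3, 1] [(153, 136,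
  [3, 1]), (168, 169, [4])]) (.red [.f 1218 5 1, .f 1217 1 5, .t 1097 4 1, .f 1088 1 5] 153 136
  [3, 1] [(153, 136, [3, 1])]) .no

def c27t361 : Tr4 :=
  .br 1099 (.con 136 [3, 3, 1]) .no (.hor [.f 1098 3 5] []) .no .no .no

def c27t362 : Tr4 :=
  .br 715 .no (.br 714 .no (.hor [.f 586 1 5] []) (.br 713 .no (.con 136 [2, 2, 3, 3, 2]) (.red
  [.f 713 3 1, .f 705 1 3] 106 136 [2, 2, 3, 3] [(105, 136, [2, 2, 3]), (106, 136, [2, 2, 3, 3])])
  .no .no (.con 136 [2, 2, 3, 2, 3])) .no .no (.red [.t 833 2 3] 105 136 [2, 2, 3] [(105, 136, [2,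
  2, 3])])) (.red [.f 715 3 1, .t 842 4 2] 106 136 [2, 2, 3, 3] [(105, 136, [2, 2, 3]), (106, 136,
  [2, 2, 3, 3])]) .no .no (.red [.f 706 5 3, .f 706 3 1] 105 136 [2, 2, 3] [(105, 136, [2, 2,
  3])])

def c27t363 : Tr4 :=
  .br 843 .no (.red [.t 842 4 2, .f 705 1 5] 105 136 [2, 2, 3] [(105, 136, [2, 2, 3])]) (.use 362)
  .no .no .no

def c27t364 : Tr4 :=
  .br 1099 (.con 136 [3, 1, 3, 1]) (.br 1347 (.use 218) .no (.con 136 [3, 1, 1, 3]) (.br 1346 (.br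
  1227 (.use 350) .no (.con 136 [3, 1, 3, 1]) .no .no .no) .no (.use 217) .no .no .no) .no (.red
  [.f 1218 5 1, .f 1217 1 5, .t 1097 4 1, .f 1088 1 5] 153 136 [3, 1] [(153, 136, [3, 1])])) (.use
  352) .no .no .no

def c27t365 : Tr4 :=
  .br 1098 (.use 364) .no (.use 357) .no (.use 226) .no

def c27t366 : Tr4 :=
  .br 843 .no (.red [.t 842 4 2, .f 705 1 5] 105 136 [2, 2, 3] [(105, 136, [2, 2, 3])]) (.use 362)
  .no .no .no

def c27t367 : Tr4 :=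
  .br 841 .no (.red [.f 705 1 3] 105 136 [2, 2, 3] [(105, 136, [2, 2, 3])]) (.use 366) .no .no
  (.use 314)

def c27t368 : Tr4 :=
  .br 1099 (.con 136 [3, 3, 1]) (.use 367) (.hor [.f 1098 3 5] []) .no .no .no

def c27t369 : Tr4 :=
  .br 1211 (.hor [.f 1210 1 5] []) .no .no (.br 1339 (.br 1346 (.br 1347 (.hor [.f 1346 1 5] [])
  .no (.con 136 [3, 1, 1, 3]) .no .no .no) .no (.red [.t 1345 2 3] 169 136 [3, 1, 1] [(169, 136,
  [3, 1, 1])]) .no (.br 1353 (.use 274) .no (.br 1232 (.red [.f 1224 1 3, .f 1096 3 1] 154 136 [3,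
  3, 1] [(154, 136, [3, 3, 1]), (170, 136, [3, 3, 1, 1])]) .no (.br 1227 (.use 351) .no (.con 136
  [3, 3, 1, 1]) .no .no .no) .no (.red [.t 1352 2 3, .f 1096 3 1] 154 136 [3, 3, 1] [(154, 136,
  [3, 3, 1]), (170, 136, [3, 3, 1, 1])]) .no) .no (.red [.f 1225 5 1, .f 1217 1 3] 169 136 [3, 1,
  1] [(169, 136, [3, 1, 1])]) .no) .no) .no (.use 266) (.hor [.f 1203 3 1, .f 1210 1 5] [(167,
  169, [4, 4])]) .no .no) .no .no

def c27t370 : Tr4 :=
  .br 944 .no (.use 316) .no (.hor [.f 936 3 1, .f 944 1 5] [(134, 118, [1])]) .no .no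

def c27t371 : Tr4 :=
  .br 841 .no (.red [.f 705 1 3] 105 136 [2, 2, 3] [(105, 136, [2, 2, 3])]) (.use 366) .no .no
  (.use 370)

def c27t372 : Tr4 :=
  .br 1099 (.con 136 [3, 3, 1]) (.use 371) (.hor [.f 1098 3 5] []) .no .no .no

def c27t373 : Tr4 :=
  .br 1346 (.br 1347 (.hor [.f 1346 1 5] []) .no (.con 136 [3, 1, 1, 3]) (.use 288) .no .no) .no
  (.use 220) (.red [.f 1210 5 3, .f 1210 3 1, .f 1217 1 5, .t 1097 4 1] 153 136 [3, 1] [(153, 136,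
  [3, 1]), (168, 169, [4])]) (.red [.f 1218 5 1, .f 1217 1 5, .t 1097 4 1, .f 1088 1 5] 153 136
  [3, 1] [(153, 136, [3, 1])]) .no

def c27t374 : Tr4 :=
  .br 1099 (.con 136 [3, 1, 3, 1]) .no (.use 373) .no .no .no

def c27t375 : Tr4 :=
  .br 1225 (.red [.f 1217 1 3] 169 136 [3, 1, 1] [(169, 136, [3, 1, 1])]) .no (.use 374) .no .no
  .no

def c27t376 : Tr4 :=
  .br 1227 (.red [.f 1210 5 3, .f 1211 3 1, .f 1219 1 3] 169 136 [3, 1, 1] [(168, 136, [1, 1]),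
  (169, 136, [3, 1, 1])]) .no (.con 136 [3, 1, 3, 1]) .no .no .no

def c27t377 : Tr4 :=
  .br 1347 (.hor [.f 1346 1 5] []) .no (.con 136 [3, 1, 1, 3]) (.use 376) .no .no

def c27l9 : List Tr4 :=
  [c27t339, c27t340, c27t341, c27t342, c27t343, c27t344, c27t345, c27t346, c27t347, c27t348,
  c27t349, c27t350, c27t351, c27t352, c27t353, c27t354, c27t355, c27t356, c27t357, c27t358,
  c27t359, c27t360, c27t361, c27t362, c27t363, c27t364, c27t365, c27t366, c27t367, c27t368,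
  c27t369, c27t370, c27t371, c27t372, c27t373, c27t374, c27t375, c27t376, c27t377]

theorem c27k9 : chkLF ⟨4, 1, 0, true, -8⟩ false 7 c27N 339 c27l9 = true := by decide +kernel

def c27t378 : Tr4 :=
  .br 1347 (.br 1339 (.red [.f 1339 1 3, .f 1338 3 5] 184 136 [1, 1, 1] [(184, 136, [1, 1, 1])])
  .no .no .no .no .no) .no (.con 136 [3, 1, 1, 3]) (.use 376) .no .no

def c27t379 : Tr4 :=
  .br 1232 (.red [.f 1224 1 3, .f 1096 3 1] 154 136 [3, 3, 1] [(154, 136, [3, 3, 1]), (170, 136,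
  [3, 3, 1, 1])]) .no (.br 1227 (.red [.f 1218 5 1, .f 1219 1 3] 169 136 [3, 1, 1] [(169, 136, [3,
  1, 1])]) .no (.con 136 [3, 3, 1, 1]) .no .no .no) .no (.red [.t 1352 2 3, .f 1096 3 1] 154 136
  [3, 3, 1] [(154, 136, [3, 3, 1]), (170, 136, [3, 3, 1, 1])]) .no

def c27t380 : Tr4 :=
  .br 1225 (.red [.f 1217 1 3] 169 136 [3, 1, 1] [(169, 136, [3, 1, 1])]) .no (.use 226) .no (.br
  1075 (.red [.t 1074 3 1, .f 1081 1 5, .t 961 4 1, .f 945 1 3] 136 136 [] [(135, 136, [4]), (136,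
  136, []), (151, 135, [1])]) .no .no (.br 1203 (.br 1353 (.br 1346 (.use 377) .no (.br 1227 (.red
  [.t 1354 4 2, .f 1217 1 5] 169 136 [3, 1, 1] [(169, 136, [3, 1, 1])]) .no (.con 136 [3, 3, 1,
  1]) .no .no .no) (.use 378) (.use 274) .no) .no (.br 1346 (.use 377) .no (.red [.t 1345 2 3] 169
  136 [3, 1, 1] [(169, 136, [3, 1, 1])]) (.use 378) (.use 379) .no) .no (.red [.f 1225 5 1, .f
  1217 1 3] 169 136 [3, 1, 1] [(169, 136, [3, 1, 1])]) .no) .no .no (.hor [.f 1067 3 1, .t 1074 3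
  1, .f 1081 1 5] [(150, 136, [4, 1, 4]), (151, 136, [4, 1])]) .no (.red [.f 1202 5 3, .f 1074 3
  1, .f 1081 1 5, .t 961 4 1, .f 945 1 3] 136 136 [] [(135, 136, [4]), (136, 136, []), (151, 135,
  [1])])) .no .no) .no

def c27t381 : Tr4 :=
  .br 1225 (.red [.f 1217 1 3] 169 136 [3, 1, 1] [(169, 136, [3, 1, 1])]) .no (.use 373) .no .no
  .no

def c27t382 : Tr4 :=
  .br 1099 (.hor [.f 1098 1 5] []) .no (.use 381) .no .no .no

def c27t383 : Tr4 :=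
  .br 970 (.use 356) .no (.use 342) .no (.use 347) (.br 1210 (.br 1072 (.br 706 .no (.use 216)
  (.red [.f 706 3 1, .f 705 1 5] 105 136 [2, 2, 3] [(105, 136, [2, 2, 3])]) (.use 320) (.br 1225
  (.red [.f 1217 1 3] 169 136 [3, 1, 1] [(169, 136, [3, 1, 1])]) .no (.use 365) .no (.br 1098 .no
  .no (.use 368) .no (.use 369) .no) .no) .no) (.hor [.f 944 1 5] []) .no (.br 1225 (.red [.f 1217
  1 3] 169 136 [3, 1, 1] [(169, 136, [3, 1, 1])]) .no (.use 365) .no (.br 1098 .no .no (.br 706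
  .no (.use 216) (.red [.f 706 3 1, .f 705 1 5] 105 136 [2, 2, 3] [(105, 136, [2, 2, 3])]) (.use
  340) (.use 372) .no) .no (.use 369) .no) .no) .no .no) .no .no (.red [.f 1074 3 1, .f 1081 1 5,
  .t 961 4 1] 136 136 [] [(136, 136, []), (151, 135, [1])]) (.br 1072 (.br 706 .no (.use 216)
  (.red [.f 706 3 1, .f 705 1 5] 105 136 [2, 2, 3] [(105, 136, [2, 2, 3])]) (.use 320) (.br 971
  (.use 367) (.br 1098 (.use 375) .no (.use 368) .no (.use 380) .no) (.br 841 .no (.red [.f 705 1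
  3] 105 136 [2, 2, 3] [(105, 136, [2, 2, 3])]) (.use 363) .no .no (.br 843 .no (.red [.t 842 4 2,
  .f 705 1 5] 105 136 [2, 2, 3] [(105, 136, [2, 2, 3])]) (.use 344) .no .no .no)) .no .no .no)
  .no) (.hor [.f 944 1 5] []) .no (.br 706 .no (.use 216) (.red [.f 706 3 1, .f 705 1 5] 105 136
  [2, 2, 3] [(105, 136, [2, 2, 3])]) (.use 340) (.br 971 (.use 371) (.br 1098 (.use 375) .no (.br
  1225 (.red [.f 1217 1 3] 169 136 [3, 1, 1] [(169, 136, [3, 1, 1])]) .no (.use 357) .no (.use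
  372) .no) .no (.use 380) .no) (.br 1098 (.use 382) .no (.use 361) .no (.use 380) .no) .no .no
  .no) .no) .no .no) .no)

def c27t384 : Tr4 :=
  .br 1346 (.br 1347 (.hor [.f 1346 1 5] []) .no (.con 136 [3, 1, 1, 3]) (.br 1353 (.br 1227 (.red
  [.t 1338 2 3, .f 1219 1 3] 169 136 [3, 1, 1] [(168, 136, [1, 1]), (169, 136, [3, 1, 1])]) .no
  (.con 136 [3, 3, 1, 1]) .no .no .no) .no (.br 1227 (.red [.t 1338 2 3, .f 1219 1 3] 169 136 [3,
  1, 1] [(168, 136, [1, 1]), (169, 136, [3, 1, 1])]) .no (.con 136 [3, 3, 1, 1]) .no .no .no) .no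
  (.red [.f 1225 5 1, .f 1217 1 3] 169 136 [3, 1, 1] [(169, 136, [3, 1, 1])]) .no) .no .no) .no
  (.red [.t 1345 2 3] 169 136 [3, 1, 1] [(169, 136, [3, 1, 1])]) .no (.use 359) .no

def c27t385 : Tr4 :=
  .br 1099 (.con 136 [3, 3, 1]) (.br 1105 (.red [.t 1105 1 4] 154 136 [3, 3, 1] [(154, 136, [3, 3,
  1])]) (.hor [.t 1105 2 4, .f 968 3 5] [(138, 154, [2])]) (.use 384) .no .no .no) (.hor [.f 1098
  3 5] []) .no .no .no

def c27t386 : Tr4 :=
  .br 1225 (.red [.f 1217 1 3] 169 136 [3, 1, 1] [(169, 136, [3, 1, 1])]) .no (.use 365) .no (.br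
  1098 .no .no (.use 385) .no (.use 369) .no) .no

def c27t387 : Tr4 :=
  .br 818 .no (.use 7) .no (.red [.f 810 3 1, .f 818 1 3] 119 136 [2, 4] [(118, 136, [2, 4, 4]),
  (119, 136, [2, 4])]) (.red [.t 954 2 4, .f 817 3 5] 119 136 [2, 4] [(119, 136, [2, 4])]) .no

def c27t388 : Tr4 :=
  .br 944 (.hor [.f 944 1 5] []) (.dom 119 136 [2, 4]) .no (.br 1072 (.use 387) .no .no (.hor [.f
  936 3 1, .f 944 1 5] [(134, 118, [1])]) .no .no) .no .no

def c27t389 : Tr4 :=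
  .br 824 .no (.use 388) .no (.hor [.f 816 3 5] []) .no .no

def c27t390 : Tr4 :=
  .br 825 .no .no .no (.use 389) .no (.red [.t 960 2 4, .f 825 1 5, .t 705 4 1, .t 1073 2 3, .f
  954 1 3, .f 826 3 1] 136 136 [] [(104, 136, [2, 2]), (135, 136, [4]), (136, 136, [])])

def c27t391 : Tr4 :=
  .br 818 .no (.use 6) .no (.red [.f 810 3 1, .f 818 1 3] 119 136 [2, 4] [(118, 136, [2, 4, 4]),
  (119, 136, [2, 4])]) (.red [.t 960 2 4, .t 824 3 1, .t 954 2 4] 119 136 [2, 4] [(119, 136, [2,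
  4])]) (.use 148)

def c27t392 : Tr4 :=
  .br 818 .no (.use 6) .no (.red [.f 810 3 1, .f 818 1 3] 119 136 [2, 4] [(118, 136, [2, 4, 4]),
  (119, 136, [2, 4])]) (.red [.t 960 2 4, .t 824 3 1, .t 954 2 4] 119 136 [2, 4] [(119, 136, [2,
  4])]) (.use 189)

def c27t393 : Tr4 :=
  .br 818 .no (.use 6) .no (.red [.f 810 3 1, .f 818 1 3] 119 136 [2, 4] [(118, 136, [2, 4, 4]),
  (119, 136, [2, 4])]) (.red [.t 960 2 4, .t 824 3 1, .t 954 2 4] 119 136 [2, 4] [(119, 136, [2,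
  4])]) .no

def c27t394 : Tr4 :=
  .br 818 .no (.use 6) .no (.hor [.f 809 3 5] []) (.red [.t 960 2 4, .t 824 3 1, .t 954 2 4] 119
  136 [2, 4] [(119, 136, [2, 4])]) .no

def c27t395 : Tr4 :=
  .br 944 .no (.br 817 .no (.use 393) .no (.use 394) (.use 193) .no) .no (.hor [.f 936 3 1, .f 944
  1 5] [(134, 118, [1])]) .no .no

def c27t396 : Tr4 :=
  .br 842 .no (.hor [.f 706 1 3, .f 833 3 5] [(105, 136, [2, 2, 3])]) (.hor [.f 842 3 1, .f 842 1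
  5] [(122, 136, [3, 3, 2])]) .no .no .no

def c27t397 : Tr4 :=
  .br 1099 (.con 136 [3, 3, 1]) .no (.hor [.f 1098 3 5] []) .no .no .no

def c27t398 : Tr4 :=
  .br 818 .no (.use 6) .no (.red [.f 816 5 3, .f 810 3 1] 118 136 [2, 4, 4] [(118, 136, [2, 4,
  4])]) (.red [.t 960 2 4, .t 824 3 1, .t 954 2 4] 119 136 [2, 4] [(119, 136, [2, 4])]) .no

def c27t399 : Tr4 :=
  .br 817 .no (.use 393) .no (.use 394) (.use 294) (.use 398)

def c27t400 : Tr4 :=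
  .br 968 .no (.hor [.f 832 1 3, .f 832 3 5] [(121, 136, [2, 3])]) (.br 969 .no .no (.hor [.f 968
  3 5] []) .no (.br 1218 (.hor [.f 1217 1 5] []) .no (.use 0) (.red [.t 1089 3 2, .t 1209 2 3, .f
  953 3 1, .f 961 1 3] 136 136 [] [(136, 136, []), (152, 136, [1])]) (.br 840 .no (.br 1210 (.use
  386) .no .no (.red [.f 1074 3 1, .f 1081 1 5, .t 961 4 1] 136 136 [] [(136, 136, []), (151, 135,
  [1])]) (.br 705 .no (.br 818 .no (.use 8) .no (.red [.f 810 3 1, .f 818 1 3] 119 136 [2, 4]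
  [(118, 136, [2, 4, 4]), (119, 136, [2, 4])]) (.red [.t 954 2 4] 119 136 [2, 4] [(119, 136, [2,
  4])]) (.br 824 .no (.br 697 (.use 5) (.con 136 [2, 4, 2, 3, 1, 4]) .no (.con 136 [2, 4, 2, 3, 1,
  4]) (.con 136 [2, 4, 2, 3, 1, 4]) .no) .no (.con 136 [2, 4, 2]) (.use 294) .no)) (.hor [.f 705 3
  1, .f 705 1 5] [(105, 119, [3, 2, 3])]) (.use 390) .no (.hor [.t 840 2 4, .f 705 1 5] [(105,
  119, [3, 2, 3])])) .no) (.hor [.f 840 3 1, .f 832 1 3, .f 832 3 5] [(121, 136, [2, 3]), (122,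
  136, [2, 3, 3])]) .no .no .no) .no) .no) .no (.br 1218 (.hor [.f 1217 1 5] []) .no (.use 0) (.br
  970 (.red [.f 962 1 3, .f 1089 3 5, .t 1209 2 3, .f 953 3 1, .t 961 1 3] 136 136 [] [(136, 136,
  []), (152, 136, [1])]) (.hor [.t 832 1 3, .f 841 1 5] [(121, 136, [2, 3])]) (.br 825 .no (.use
  5) .no (.use 389) .no (.br 971 (.br 1098 (.br 1072 (.br 705 .no (.use 391) (.hor [.f 705 3 1, .f
  705 1 5] [(105, 103, [3, 3])]) (.use 390) .no (.use 392)) (.hor [.f 944 1 5] []) .no (.use 395)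
  .no .no) .no (.hor [.f 970 3 1, .f 970 1 5] [(138, 154, [2])]) .no .no .no) (.use 396) (.hor [.f
  970 3 5] []) .no .no .no)) .no (.br 825 .no (.use 5) .no (.use 389) .no (.br 1072 (.br 705 .no
  (.use 391) (.hor [.f 705 3 1, .f 705 1 5] [(105, 103, [3, 3])]) (.use 390) .no (.br 1098 (.use
  392) .no (.use 397) .no (.br 1225 (.hor [.f 1224 1 5] []) .no (.use 226) .no (.br 817 .no (.use
  393) .no (.use 394) (.use 190) (.use 398)) .no) .no)) (.hor [.f 944 1 5] []) .no (.use 395) .no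
  .no)) .no) (.br 1210 (.br 825 .no (.use 5) .no (.use 389) .no (.br 817 .no (.use 393) .no (.use
  394) (.use 215) (.use 398))) .no .no (.red [.f 1074 3 1, .f 1081 1 5, .t 961 4 1] 136 136 []
  [(136, 136, []), (151, 135, [1])]) (.br 825 .no (.use 5) .no (.use 389) .no (.use 399)) .no)
  .no) .no

def c27t401 : Tr4 :=
  .br 818 .no (.con 136 [2, 4, 2, 4]) .no (.hor [.f 810 3 5] []) .no .no

def c27t402 : Tr4 :=
  .br 824 .no (.br 816 .no (.use 401) .no (.br 936 (.red [.t 1064 2 3, .f 808 3 1] 118 136 [2, 4,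
  4] [(118, 136, [2, 4, 4]), (134, 136, [4, 4])]) .no .no (.br 818 .no (.use 12) .no (.hor [.f 810
  3 5] []) .no .no) (.red [.f 936 5 3, .f 808 3 1] 118 136 [2, 4, 4] [(118, 136, [2, 4, 4])]) .no)
  .no .no) .no (.hor [.f 816 3 5] []) .no .no

def c27t403 : Tr4 :=
  .br 817 .no (.hor [.f 688 1 5] []) .no (.con 136 [2, 4, 2, 4]) (.con 136 [2, 4, 2, 4]) .no

def c27t404 : Tr4 :=
  .br 818 .no (.con 136 [2, 4, 2, 4]) .no (.hor [.f 810 3 5] []) .no .no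

def c27t405 : Tr4 :=
  .br 816 .no (.use 403) .no (.br 817 .no (.br 818 .no (.use 13) .no (.hor [.f 810 3 5] []) .no
  .no) .no (.hor [.f 808 3 5] []) (.use 73) .no) (.use 404) .no

def c27t406 : Tr4 :=
  .br 819 .no (.red [.t 953 3 2, .f 691 1 3, .f 819 3 1, .f 827 1 3] 119 136 [2, 4] [(103, 136,
  [2, 2, 4]), (119, 136, [2, 4])]) .no (.br 825 .no (.use 5) .no (.use 402) .no (.use 405)) .no
  (.red [.t 953 3 2, .t 833 1 4, .t 954 2 4] 119 136 [2, 4] [(119, 136, [2, 4])])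

def c27t407 : Tr4 :=
  .br 825 .no (.use 5) .no .no .no (.use 77)

def c27t408 : Tr4 :=
  .br 818 .no (.use 14) .no (.red [.f 810 3 1, .f 818 1 3] 119 136 [2, 4] [(118, 136, [2, 4, 4]),
  (119, 136, [2, 4])]) (.red [.f 825 3 1, .f 825 1 3, .t 954 2 4] 119 136 [2, 4] [(119, 136, [2,
  4])]) (.use 38)

def c27t409 : Tr4 :=
  .br 818 .no (.use 31) .no (.red [.f 810 3 1, .f 818 1 3] 119 136 [2, 4] [(118, 136, [2, 4, 4]),
  (119, 136, [2, 4])]) (.red [.t 954 2 4, .f 817 3 5] 119 136 [2, 4] [(119, 136, [2, 4])]) .no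

def c27t410 : Tr4 :=
  .br 818 .no (.use 31) .no (.red [.f 810 3 1, .f 818 1 3] 119 136 [2, 4] [(118, 136, [2, 4, 4]),
  (119, 136, [2, 4])]) (.red [.t 960 2 4, .t 824 3 1, .t 954 2 4] 119 136 [2, 4] [(119, 136, [2,
  4])]) (.use 78)

def c27t411 : Tr4 :=
  .br 1098 (.use 364) (.br 1099 (.con 136 [3, 3, 1]) (.hor [.f 970 1 5] []) (.use 352) .no .no
  .no) (.use 357) .no (.use 226) .no

def c27t412 : Tr4 :=
  .br 1073 (.red [.f 1073 1 3, .f 1073 3 5, .t 961 4 1] 136 136 [] [(136, 136, []), (151, 135,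
  [1])]) .no .no (.use 408) .no (.br 818 .no (.use 27) .no (.red [.f 810 3 1, .f 818 1 3] 119 136
  [2, 4] [(118, 136, [2, 4, 4]), (119, 136, [2, 4])]) (.red [.f 825 3 1, .f 825 1 3, .t 954 2 4]
  119 136 [2, 4] [(119, 136, [2, 4])]) (.use 44))

def c27t413 : Tr4 :=
  .br 833 .no (.hor [.f 705 1 5] []) (.hor [.f 832 1 3, .f 832 3 5] [(121, 136, [2, 3])]) (.use
  412) .no .no

def c27t414 : Tr4 :=
  .br 1073 (.red [.f 1073 1 3, .f 1073 3 5, .t 961 4 1] 136 136 [] [(136, 136, []), (151, 135,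
  [1])]) .no .no (.use 406) .no (.br 1208 (.br 1211 (.hor [.f 1210 1 5] []) .no .no (.br 1201 (.br
  818 .no (.use 26) .no (.red [.f 810 3 1, .f 818 1 3] 119 136 [2, 4] [(118, 136, [2, 4, 4]),
  (119, 136, [2, 4])]) (.red [.t 953 3 2, .t 833 1 4, .t 954 2 4] 119 136 [2, 4] [(119, 136, [2,
  4])]) (.use 407)) .no .no (.use 255) (.red [.t 1081 1 4, .t 961 4 1] 136 136 [] [(136, 136, []),
  (151, 135, [1])]) (.red [.f 1072 5 1, .f 1073 1 3, .f 1073 3 5, .t 961 4 1] 136 136 [] [(136,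
  136, []), (151, 135, [1])])) .no .no) .no .no (.red [.t 1208 4 2, .f 1073 3 5, .t 961 4 1] 136
  136 [] [(136, 136, []), (151, 135, [1])]) .no .no)

def c27l10 : List Tr4 :=
  [c27t378, c27t379, c27t380, c27t381, c27t382, c27t383, c27t384, c27t385, c27t386, c27t387,
  c27t388, c27t389, c27t390, c27t391, c27t392, c27t393, c27t394, c27t395, c27t396, c27t397,
  c27t398, c27t399, c27t400, c27t401, c27t402, c27t403, c27t404, c27t405, c27t406, c27t407,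
  c27t408, c27t409, c27t410, c27t411, c27t412, c27t413, c27t414]

theorem c27k10 : chkLF ⟨4, 1, 0, true, -8⟩ false 7 c27N 378 c27l10 = true := by decide +kernel

def c27t415 : Tr4 :=
  .br 969 .no (.hor [.f 840 1 5] []) (.br 834 .no (.use 413) (.br 833 .no (.use 348) (.hor [.f 832
  1 3, .f 832 3 5] [(121, 136, [2, 3])]) (.use 412) .no .no) .no .no (.use 414)) .no .no .no

def c27t416 : Tr4 :=
  .br 977 (.con 136 [3, 3, 2, 3]) (.hor [.f 849 1 5] []) (.con 136 [3, 3, 2, 3]) .no .no (.con 136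
  [3, 3, 2, 3])

def c27t417 : Tr4 :=
  .br 1099 (.con 136 [3, 3, 1]) (.hor [.f 970 3 1, .f 970 1 5] [(138, 154, [2])]) (.hor [.f 1098 3
  5] []) .no .no .no

def c27t418 : Tr4 :=
  .br 970 .no .no (.use 417) .no (.use 397) (.br 968 .no (.br 971 (.br 1105 (.red [.t 1105 1 4]
  154 136 [3, 3, 1] [(154, 136, [3, 3, 1])]) (.hor [.t 1105 2 4, .f 970 1 5] [(138, 154, [2])])
  (.use 384) .no .no .no) (.hor [.f 832 1 3, .t 1089 3 2, .f 835 1 3, .f 834 3 5, .t 969 1 4] [])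
  (.use 361) .no .no .no) (.use 385) .no .no .no)

def c27t419 : Tr4 :=
  .br 1073 (.red [.f 1073 1 3, .f 1073 3 5, .t 961 4 1] 136 136 [] [(136, 136, []), (151, 135,
  [1])]) .no .no (.use 406) .no (.br 1208 (.br 818 .no (.use 34) .no (.red [.f 810 3 1, .f 818 1
  3] 119 136 [2, 4] [(118, 136, [2, 4, 4]), (119, 136, [2, 4])]) (.red [.t 953 3 2, .t 833 1 4, .t
  954 2 4] 119 136 [2, 4] [(119, 136, [2, 4])]) (.br 825 .no (.use 5) .no .no .no (.use 296))) .no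
  .no (.red [.t 1208 4 2, .f 1073 3 5, .t 961 4 1] 136 136 [] [(136, 136, []), (151, 135, [1])])
  .no .no)

def c27t420 : Tr4 :=
  .br 818 .no (.use 36) .no (.red [.f 810 3 1, .f 818 1 3] 119 136 [2, 4] [(118, 136, [2, 4, 4]),
  (119, 136, [2, 4])]) (.red [.t 954 2 4] 119 136 [2, 4] [(119, 136, [2, 4])]) (.br 825 .no (.use
  5) .no .no .no (.use 298))

def c27t421 : Tr4 :=
  .br 1353 (.br 1227 (.red [.f 1210 5 3, .f 1211 3 1, .f 1219 1 3] 169 136 [3, 1, 1] [(168, 136,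
  [1, 1]), (169, 136, [3, 1, 1])]) .no (.con 136 [3, 3, 1, 1]) .no .no .no) .no (.use 358) .no
  (.red [.f 1225 5 1, .f 1217 1 3] 169 136 [3, 1, 1] [(169, 136, [3, 1, 1])]) .no

def c27t422 : Tr4 :=
  .br 818 .no (.use 36) .no (.red [.f 810 3 1, .f 818 1 3] 119 136 [2, 4] [(118, 136, [2, 4, 4]),
  (119, 136, [2, 4])]) (.red [.t 954 2 4, .f 817 3 5] 119 136 [2, 4] [(119, 136, [2, 4])]) .no

def c27t423 : Tr4 :=
  .br 1073 (.red [.f 1073 1 3, .f 1073 3 5, .t 961 4 1] 136 136 [] [(136, 136, []), (151, 135,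
  [1])]) .no .no (.br 818 .no (.use 14) .no (.red [.f 810 3 1, .f 818 1 3] 119 136 [2, 4] [(118,
  136, [2, 4, 4]), (119, 136, [2, 4])]) (.red [.t 960 2 4, .t 824 3 1, .t 954 2 4] 119 136 [2, 4]
  [(119, 136, [2, 4])]) (.use 74)) .no (.br 818 .no (.use 35) .no (.red [.f 810 3 1, .f 818 1 3]
  119 136 [2, 4] [(118, 136, [2, 4, 4]), (119, 136, [2, 4])]) (.red [.t 960 2 4, .t 824 3 1, .t
  954 2 4] 119 136 [2, 4] [(119, 136, [2, 4])]) (.use 297))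

def c27t424 : Tr4 :=
  .br 825 .no (.use 5) .no (.use 422) .no (.use 423)

def c27t425 : Tr4 :=
  .br 1218 (.hor [.f 1217 1 5] []) .no (.use 0) (.br 833 .no (.br 825 .no (.use 5) .no (.use 409)
  .no (.use 410)) (.br 825 .no (.use 5) .no (.use 409) .no (.use 410)) (.br 1073 (.red [.f 1073 1
  3, .f 1073 3 5, .t 961 4 1] 136 136 [] [(136, 136, []), (151, 135, [1])]) .no .no (.use 408) .no
  (.br 818 .no (.use 30) .no (.red [.f 810 3 1, .f 818 1 3] 119 136 [2, 4] [(118, 136, [2, 4, 4]),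
  (119, 136, [2, 4])]) (.red [.f 825 3 1, .f 825 1 3, .t 954 2 4] 119 136 [2, 4] [(119, 136, [2,
  4])]) (.use 41))) (.br 1073 (.red [.f 1073 1 3, .f 1073 3 5, .t 961 4 1] 136 136 [] [(136, 136,
  []), (151, 135, [1])]) .no .no (.use 406) .no (.br 1208 (.br 1201 (.br 818 .no (.use 29) .no
  (.red [.f 810 3 1, .f 818 1 3] 119 136 [2, 4] [(118, 136, [2, 4, 4]), (119, 136, [2, 4])]) (.red
  [.t 953 3 2, .t 833 1 4, .t 954 2 4] 119 136 [2, 4] [(119, 136, [2, 4])]) (.use 407)) .no .no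
  (.use 28) (.red [.t 1081 1 4, .t 961 4 1] 136 136 [] [(136, 136, []), (151, 135, [1])]) (.red
  [.f 1072 5 1, .f 1073 1 3, .f 1073 3 5, .t 961 4 1] 136 136 [] [(136, 136, []), (151, 135,
  [1])])) .no .no (.red [.t 1208 4 2, .f 1073 3 5, .t 961 4 1] 136 136 [] [(136, 136, []), (151,
  135, [1])]) .no .no)) .no) (.br 1210 (.br 1225 (.red [.f 1217 1 3] 169 136 [3, 1, 1] [(169, 136,
  [3, 1, 1])]) .no (.use 411) .no (.br 1098 .no (.br 1099 (.con 136 [3, 3, 1]) (.hor [.f 970 1 5]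
  []) (.br 971 .no (.br 979 .no (.red [.f 843 1 3, .f 971 3 1, .f 970 1 5] 138 136 [3, 3] [(122,
  136, [2, 3, 3]), (138, 136, [3, 3])]) (.br 978 (.red [.f 962 1 3, .f 962 3 1, .f 970 1 3, .f
  1098 3 5] 138 136 [3, 3] [(138, 136, [3, 3])]) (.br 968 .no (.use 415) (.con 136 [3, 3, 3, 2])
  .no (.use 416) .no) (.hor [.f 978 3 5] []) .no .no (.br 968 .no (.use 415) (.con 136 [3, 3, 2])
  .no (.use 354) .no)) .no .no (.red [.f 962 1 3, .f 962 3 1, .t 1098 2 3] 138 136 [3, 3] [(138,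
  136, [3, 3])])) (.red [.f 971 3 1, .f 970 1 5] 138 136 [3, 3] [(138, 136, [3, 3])]) .no .no .no)
  .no .no .no) (.br 833 .no (.br 834 .no (.hor [.f 705 1 5] []) (.use 418) .no .no .no) (.br 834
  .no (.br 968 .no (.use 413) (.br 969 .no .no (.hor [.f 968 3 5] []) .no (.use 385) .no) .no (.br
  970 .no (.hor [.t 832 1 3, .f 841 1 5] [(121, 136, [2, 3])]) (.use 417) .no (.use 397) .no) .no)
  (.use 418) .no .no .no) (.use 412) (.use 414) .no) .no (.use 369) .no) .no) .no .no (.red [.f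
  1074 3 1, .f 1081 1 5, .t 961 4 1] 136 136 [] [(136, 136, []), (151, 135, [1])]) (.br 833 .no
  (.use 420) (.use 424) (.br 1073 (.red [.f 1073 1 3, .f 1073 3 5, .t 961 4 1] 136 136 [] [(136,
  136, []), (151, 135, [1])]) .no .no (.use 408) .no (.br 818 .no (.use 32) .no (.red [.f 810 3 1,
  .f 818 1 3] 119 136 [2, 4] [(118, 136, [2, 4, 4]), (119, 136, [2, 4])]) (.red [.f 825 3 1, .f
  825 1 3, .t 954 2 4] 119 136 [2, 4] [(119, 136, [2, 4])]) (.use 44))) (.use 419) .no) .no) .no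

def c27t426 : Tr4 :=
  .br 1096 (.red [.f 1088 1 3, .f 1088 3 5] 153 136 [3, 1] [(153, 136, [3, 1])]) (.br 818 .no (.br
  1210 (.br 1218 (.hor [.f 1217 1 5] []) .no (.use 0) .no (.br 1073 (.red [.f 1073 1 3, .f 1073 3
  5, .t 961 4 1] 136 136 [] [(136, 136, []), (151, 135, [1])]) (.use 9) .no (.use 15) .no (.br 945
  .no (.use 10) .no (.hor [.f 937 3 5] []) .no (.use 27))) .no) .no (.use 31) (.red [.f 1074 3 1,
  .f 1081 1 5, .t 961 4 1] 136 136 [] [(136, 136, []), (151, 135, [1])]) (.br 945 (.use 9) (.use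
  10) .no (.hor [.f 937 3 5] []) .no (.use 36)) .no) .no (.red [.f 810 3 1, .f 818 1 3] 119 136
  [2, 4] [(118, 136, [2, 4, 4]), (119, 136, [2, 4])]) (.red [.t 954 2 4] 119 136 [2, 4] [(119,
  136, [2, 4])]) (.br 825 .no (.use 5) (.br 945 (.red [.f 825 3 1, .f 825 1 5, .t 1073 2 3, .f 954
  1 3, .t 961 2 4] 136 136 [] [(135, 136, [4]), (136, 136, [])]) .no .no (.hor [.f 937 3 5] [])
  .no (.br 1218 (.hor [.f 1217 1 5] []) .no (.use 0) (.br 1073 (.red [.f 1073 1 3, .f 1073 3 5, .t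
  961 4 1] 136 136 [] [(136, 136, []), (151, 135, [1])]) .no .no (.use 38) .no (.use 41)) (.br
  1073 (.red [.f 1073 1 3, .f 1073 3 5, .t 961 4 1] 136 136 [] [(136, 136, []), (151, 135, [1])])
  .no .no (.use 38) .no (.use 44)) .no)) .no .no (.br 1218 (.hor [.f 1217 1 5] []) .no (.use 0)
  (.br 969 .no (.use 122) (.use 214) .no (.red [.t 1089 3 2, .t 1209 2 3, .f 953 3 1, .f 961 1 3]
  136 136 [] [(136, 136, []), (152, 136, [1])]) .no) (.use 309) .no))) (.br 945 (.br 833 .no (.br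
  834 .no (.hor [.f 705 1 5] []) (.br 1224 (.br 1218 (.hor [.f 1217 1 5] []) .no (.use 0) (.br 970
  (.red [.f 962 1 3, .f 1089 3 5, .t 1209 2 3, .f 953 3 1, .t 961 1 3] 136 136 [] [(136, 136, []),
  (152, 136, [1])]) .no (.use 342) .no (.br 825 .no (.use 5) .no (.use 310) .no (.use 347)) (.red
  [.t 1089 3 2, .t 1209 2 3, .f 953 3 1, .f 961 1 3] 136 136 [] [(136, 136, []), (152, 136,
  [1])])) (.br 825 .no (.use 5) .no (.use 310) .no (.use 383)) .no) .no (.red [.f 1096 3 1, .f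
  1088 1 3, .f 1088 3 5] 153 136 [3, 1] [(153, 136, [3, 1]), (154, 136, [3, 1, 3])]) .no (.red [.t
  1088 1 3, .t 952 1 3, .f 961 1 5] 153 136 [3, 1] [(136, 136, []), (153, 136, [3, 1])]) .no) .no
  .no .no) (.br 834 .no (.br 1224 (.use 400) .no (.red [.f 1096 3 1, .f 1088 1 3, .f 1088 3 5] 153
  136 [3, 1] [(153, 136, [3, 1]), (154, 136, [3, 1, 3])]) .no (.red [.t 1088 1 3, .t 952 1 3, .f
  961 1 5] 153 136 [3, 1] [(136, 136, []), (153, 136, [3, 1])]) .no) (.hor [.f 833 3 5] []) .no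
  .no .no) (.red [.f 825 3 1, .f 825 1 5, .t 1073 2 3, .f 954 1 3, .t 961 2 4] 136 136 [] [(135,
  136, [4]), (136, 136, [])]) (.red [.t 953 3 2, .t 1073 2 3, .f 954 1 3, .f 826 3 1] 136 136 []
  [(135, 136, [4]), (136, 136, [])]) .no) (.use 10) .no (.hor [.f 937 3 5] []) .no (.br 1224 (.use
  425) .no (.red [.f 1096 3 1, .f 1088 1 3, .f 1088 3 5] 153 136 [3, 1] [(153, 136, [3, 1]), (154,
  136, [3, 1, 3])]) .no (.red [.t 1088 1 3, .t 952 1 3, .f 961 1 5] 153 136 [3, 1] [(136, 136,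
  []), (153, 136, [3, 1])]) .no)) .no .no .no

def c27t427 : Tr4 :=
  .br 834 .no (.hor [.f 705 1 5] []) .no .no (.red [.t 970 2 4] 121 136 [2, 3] [(121, 136, [2,
  3])]) .no

def c27t428 : Tr4 :=
  .br 835 .no (.con 136 [2, 2, 3]) (.hor [.f 834 3 5] []) (.con 136 [2, 2, 3]) .no .no

def c27t429 : Tr4 :=
  .br 968 (.con 136 [2, 3, 3]) (.hor [.f 840 1 5] []) (.con 136 [2, 3, 3]) .no .no .no

def c27t430 : Tr4 :=
  .br 840 .no (.con 136 [2, 3, 3, 2]) (.hor [.f 840 3 5] []) .no .no .no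

def c27t431 : Tr4 :=
  .br 1114 (.red [.f 1106 1 3, .t 1105 2 3] 139 136 [3, 3, 3] [(139, 136, [3, 3, 3]), (155, 136,
  [3, 3, 3, 1])]) .no (.br 1113 (.br 1232 (.red [.f 1224 1 3, .f 1096 3 1] 170 136 [3, 3, 1, 1]
  [(154, 136, [3, 3, 1]), (170, 136, [3, 3, 1, 1])]) .no (.con 136 [3, 3, 3, 1, 3]) .no .no .no)
  .no (.hor [.f 1113 3 5] []) .no .no (.red [.t 976 3 1] 139 136 [3, 3, 3] [(139, 136, [3, 3,
  3])])) .no (.red [.f 1098 1 3, .f 1098 3 5, .f 1106 5 3, .t 1105 2 3] 139 136 [3, 3, 3] [(139,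
  136, [3, 3, 3]), (154, 153, [3])]) (.red [.f 985 5 1, .f 977 1 3] 139 136 [3, 3, 3] [(139, 136,
  [3, 3, 3])])

def c27t432 : Tr4 :=
  .br 707 .no (.hor [.f 578 1 5] []) (.con 136 [2, 3, 2, 2]) .no .no .no

def c27t433 : Tr4 :=
  .br 707 .no (.hor [.f 578 1 5] []) (.con 136 [2, 2, 2, 3]) .no .no .no

def c27t434 : Tr4 :=
  .br 579 (.hor [.f 578 1 5] []) (.con 136 [2, 2, 2, 3, 1, 4, 2, 3, 1, 4, 2, 3, 1]) (.con 136 [2,
  2, 2, 3, 1, 4, 2, 3, 1, 4, 2, 3, 1]) (.con 136 [2, 2, 2, 3, 1, 4, 2, 3, 1, 4, 2, 3, 1]) .no .no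

def c27t435 : Tr4 :=
  .br 986 .no (.con 136 [2, 3, 2, 3, 3, 1, 4, 2, 3, 1]) (.hor [.f 985 3 5] []) .no (.con 136 [2,
  3, 3, 3, 1, 4, 2, 3, 1]) .no

def c27t436 : Tr4 :=
  .br 579 (.hor [.f 578 1 5] []) (.con 136 [2, 4, 2, 3, 2, 3]) (.con 136 [2, 4, 2, 3, 2, 3]) (.con
  136 [2, 4, 2, 3, 2, 3]) .no .no

def c27t437 : Tr4 :=
  .br 697 .no (.use 436) .no (.hor [.f 689 3 5] []) .no .no

def c27t438 : Tr4 :=
  .br 579 (.hor [.f 578 1 5] []) (.con 136 [2, 2, 2, 3]) (.con 136 [2, 2, 2, 3]) (.con 136 [2, 2,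
  2, 3]) .no .no

def c27t439 : Tr4 :=
  .br 714 .no (.red [.f 578 1 3, .t 705 1 3] 105 136 [2, 2, 3] [(89, 136, [2, 2, 2, 3]), (105,
  136, [2, 2, 3])]) (.br 977 (.br 1106 (.br 707 .no (.hor [.f 578 1 5] []) (.br 840 .no (.con 136
  [2, 2, 3, 2]) (.br 849 .no (.con 136 [2, 2, 3, 3, 2]) (.br 976 .no .no (.br 985 (.red [.f 977 1
  3, .f 976 3 5] 139 136 [3, 3, 3] [(139, 136, [3, 3, 3])]) .no (.br 986 (.con 136 [2, 2, 3, 3, 3,
  1, 3, 1]) (.con 136 [2, 2, 3, 3, 3, 1]) (.hor [.f 985 3 5] []) .no (.con 136 [2, 2, 3, 3, 3, 1,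
  1]) .no) .no (.use 431) .no) .no .no .no) .no (.red [.t 1104 4 2, .f 841 5 3, .f 842 3 1] 122
  136 [2, 3, 3] [(122, 136, [2, 3, 3]), (138, 122, [1])]) .no) .no .no .no) .no .no .no) .no (.br
  704 .no (.use 433) (.br 976 .no (.br 843 .no (.con 136 [2, 3, 3, 2, 4]) (.con 136 [2, 3, 3, 2])
  .no .no .no) (.br 985 (.red [.f 977 1 3, .f 976 3 5] 139 136 [3, 3, 3] [(139, 136, [3, 3, 3])])
  (.br 840 .no .no (.br 849 .no (.br 843 .no (.use 434) (.con 136 [2, 2, 3, 3, 3]) .no .no .no)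
  .no .no (.red [.f 841 5 3, .f 840 3 5, .t 704 3 1] 105 136 [2, 2, 3] [(105, 136, [2, 2, 3])])
  .no) .no .no .no) (.br 843 .no (.use 434) (.br 840 .no .no (.br 849 .no (.con 136 [2, 2, 3, 3,
  3]) (.use 435) .no (.red [.f 841 5 3, .f 840 3 5, .t 704 3 1] 105 136 [2, 2, 3] [(105, 136, [2,
  2, 3])]) .no) .no .no .no) .no .no .no) .no (.red [.t 1105 2 3, .f 976 3 5] 139 136 [3, 3, 3]
  [(139, 136, [3, 3, 3])]) .no) .no .no .no) (.br 707 .no (.hor [.f 578 1 5] []) (.con 136 [2, 2,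
  2, 3]) .no .no .no) .no .no) .no .no .no) (.red [.t 977 2 4] 122 136 [2, 3, 3] [(122, 136, [2,
  3, 3])]) (.br 976 .no (.br 849 .no (.con 136 [2, 3, 3, 2, 3]) (.red [.f 849 3 1, .t 977 2 4] 123
  136 [2, 3, 3, 3] [(122, 136, [2, 3, 3]), (123, 136, [2, 3, 3, 3])]) .no (.red [.f 841 5 3, .f
  842 3 1] 122 136 [2, 3, 3] [(122, 136, [2, 3, 3])]) .no) (.hor [.f 976 3 5] []) .no .no .no) .no
  .no (.br 840 .no (.use 432) (.red [.f 968 5 3, .f 840 3 1] 122 136 [2, 3, 3] [(122, 136, [2, 3,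
  3])]) .no .no .no)) .no (.br 704 .no (.use 433) (.br 579 (.hor [.f 578 1 5] []) (.con 136 [2, 2,
  2, 3, 1]) (.con 136 [2, 2, 2, 3, 1]) (.con 136 [2, 2, 2, 3, 1]) .no .no) (.use 438) .no .no)
  (.red [.f 713 5 1, .f 705 1 3] 105 136 [2, 2, 3] [(105, 136, [2, 2, 3])])

def c27t440 : Tr4 :=
  .br 1099 (.con 136 [3, 1, 3]) .no (.hor [.f 1098 3 5] []) .no .no .no

def c27l11 : List Tr4 :=
  [c27t415, c27t416, c27t417, c27t418, c27t419, c27t420, c27t421, c27t422, c27t423, c27t424,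
  c27t425, c27t426, c27t427, c27t428, c27t429, c27t430, c27t431, c27t432, c27t433, c27t434,
  c27t435, c27t436, c27t437, c27t438, c27t439, c27t440]

theorem c27k11 : chkLF ⟨4, 1, 0, true, -8⟩ false 7 c27N 415 c27l11 = true := by decide +kernel

def c27t441 : Tr4 :=
  .br 841 .no (.red [.f 705 1 3] 105 136 [2, 2, 3] [(105, 136, [2, 2, 3])]) (.br 842 .no (.use
  430) (.hor [.f 841 3 5] []) .no (.red [.f 834 5 3, .f 835 3 1] 121 136 [2, 3] [(121, 136, [2,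
  3])]) .no) .no (.br 1224 (.br 1098 (.br 1099 (.con 136 [3, 3, 1, 1]) .no (.br 827 .no (.br 706
  .no (.use 439) (.red [.t 705 1 3, .t 832 1 3] 105 136 [2, 2, 3] [(105, 136, [2, 2, 3]), (121,
  136, [2, 3])]) (.red [.t 698 3 1, .f 705 1 5, .f 833 5 3, .t 832 1 3] 121 136 [2, 3] [(104, 88,
  [1]), (121, 136, [2, 3])]) (.br 843 .no (.red [.f 706 5 1, .f 707 1 3] 105 136 [2, 2, 3] [(105,
  136, [2, 2, 3])]) (.br 976 .no (.con 136 [2, 3, 3, 2]) (.br 977 (.br 1106 (.br 715 .no (.br 714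
  .no (.hor [.f 586 1 5] []) (.br 840 .no (.con 136 [2, 2, 3, 3]) (.br 849 .no (.con 136 [2, 2, 3,
  3, 2]) (.br 985 (.red [.f 977 1 3, .f 976 3 5] 139 136 [3, 3, 3] [(139, 136, [3, 3, 3])]) .no
  (.br 986 (.con 136 [2, 3, 3, 3, 3, 1]) (.con 136 [2, 2, 3, 3, 3, 1]) (.hor [.f 985 3 5] []) .no
  (.con 136 [2, 3, 3, 3, 1]) .no) .no (.use 431) .no) .no (.hor [.f 841 5 3, .f 840 3 5, .f 842 3
  5] []) .no) .no .no .no) .no .no (.red [.f 713 5 1, .f 705 1 3] 105 136 [2, 2, 3] [(105, 136,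
  [2, 2, 3])])) (.red [.f 715 3 1, .f 706 5 1, .f 707 1 3] 106 136 [2, 2, 3, 3] [(105, 136, [2, 2,
  3]), (106, 136, [2, 2, 3, 3])]) .no .no (.red [.f 706 5 3, .t 705 1 3, .t 832 1 3] 105 136 [2,
  2, 3] [(105, 136, [2, 2, 3]), (121, 136, [2, 3])])) .no (.br 715 .no (.br 714 .no (.hor [.f 586
  1 5] []) (.br 840 .no (.con 136 [2, 2, 3, 3]) (.br 849 .no (.con 136 [2, 2, 3, 3, 2]) (.br 985
  (.red [.f 977 1 3, .f 976 3 5] 139 136 [3, 3, 3] [(139, 136, [3, 3, 3])]) .no (.use 435) .no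
  (.red [.t 1105 2 3, .f 976 3 5] 139 136 [3, 3, 3] [(139, 136, [3, 3, 3])]) .no) .no (.hor [.f
  841 5 3, .f 840 3 5, .f 842 3 5] []) .no) .no .no .no) .no .no (.red [.f 713 5 1, .f 705 1 3]
  105 136 [2, 2, 3] [(105, 136, [2, 2, 3])])) (.red [.f 715 3 1, .f 706 5 1, .f 707 1 3] 106 136
  [2, 2, 3, 3] [(105, 136, [2, 2, 3]), (106, 136, [2, 2, 3, 3])]) .no .no (.red [.f 706 5 3, .t
  705 1 3, .t 832 1 3] 105 136 [2, 2, 3] [(105, 136, [2, 2, 3]), (121, 136, [2, 3])])) .no .no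
  .no) (.red [.t 977 2 4] 122 136 [2, 3, 3] [(122, 136, [2, 3, 3])]) (.hor [.f 976 3 5] []) .no
  .no .no) .no (.br 840 .no (.con 136 [2, 2, 3, 3]) (.red [.f 968 5 3, .f 840 3 1] 122 136 [2, 3,
  3] [(122, 136, [2, 3, 3])]) .no .no .no) .no) .no .no .no) .no) .no (.red [.f 819 3 1, .f 826 1
  5] 119 136 [2, 4] [(119, 136, [2, 4])]) .no .no) .no .no .no) .no (.use 440) .no (.use 226) .no)
  .no (.red [.f 1096 3 1, .f 1088 1 3, .f 1088 3 5] 153 136 [3, 1] [(153, 136, [3, 1]), (154, 136,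
  [3, 3, 1])]) .no .no .no) (.red [.f 840 5 1, .f 832 1 3] 121 136 [2, 3] [(121, 136, [2, 3])])

def c27t442 : Tr4 :=
  .br 834 .no (.hor [.f 705 1 5] []) (.use 428) .no (.br 1225 (.red [.f 1217 1 3, .f 1089 3 1] 153
  136 [3, 1] [(153, 136, [3, 1]), (169, 136, [3, 1, 1])]) .no (.br 969 .no (.use 429) (.hor [.f
  969 3 5] []) .no .no (.br 1096 (.red [.f 1088 1 3, .f 1088 3 5] 153 136 [3, 1] [(153, 136, [3,
  1])]) .no (.use 441) .no .no .no)) .no (.br 1098 .no .no (.br 969 .no (.use 429) (.hor [.f 969 3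
  5] []) .no .no (.br 1096 (.red [.f 1088 1 3, .f 1088 3 5] 153 136 [3, 1] [(153, 136, [3, 1])])
  .no (.use 417) .no .no .no)) .no (.red [.t 962 1 3, .f 1089 3 5, .f 1097 5 1, .t 1209 2 3, .f
  1090 1 3, .t 1098 4 2] 153 136 [3, 1] [(152, 136, [1]), (153, 136, [3, 1])]) .no) (.red [.t 1088
  1 3, .t 952 1 3, .f 961 1 5] 153 136 [3, 1] [(136, 136, []), (153, 136, [3, 1])])) .no

def c27t443 : Tr4 :=
  .br 970 (.red [.f 962 1 3, .f 1089 3 5, .t 1209 2 3, .f 953 3 1, .t 961 1 3] 136 136 [] [(136,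
  136, []), (152, 136, [1])]) (.use 427) (.use 442) .no .no (.red [.t 1089 3 2, .t 1209 2 3, .f
  953 3 1, .f 961 1 3] 136 136 [] [(136, 136, []), (152, 136, [1])])

def c27t444 : Tr4 :=
  .br 969 .no (.con 136 [2, 3, 3]) (.hor [.f 969 3 5] []) .no .no .no

def c27t445 : Tr4 :=
  .br 1099 (.con 136 [1, 3, 3]) .no (.hor [.f 1098 3 5] []) .no .no .no

def c27t446 : Tr4 :=
  .br 842 .no (.br 843 .no (.hor [.f 714 1 5] []) (.con 136 [2, 3, 2, 3]) .no .no .no) (.hor [.f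
  841 3 5] []) .no (.red [.t 1089 3 2, .f 834 5 3, .f 835 3 1] 121 136 [2, 3] [(121, 136, [2, 3]),
  (137, 121, [1])]) .no

def c27t447 : Tr4 :=
  .br 841 .no (.red [.f 705 1 3] 105 136 [2, 2, 3] [(105, 136, [2, 2, 3])]) (.use 446) .no (.red
  [.f 841 5 1, .t 970 2 4] 121 136 [2, 3] [(121, 136, [2, 3])]) (.red [.t 1089 3 2, .f 968 1 5, .f
  840 5 1, .f 832 1 3] 121 136 [2, 3] [(121, 136, [2, 3]), (137, 121, [1])])

def c27t448 : Tr4 :=
  .br 970 (.con 136 [3, 3]) (.use 427) (.use 444) .no .no (.use 447)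

def c27t449 : Tr4 :=
  .br 969 .no (.con 136 [3, 2, 3]) (.hor [.f 968 3 5] []) .no .no .no

def c27t450 : Tr4 :=
  .br 842 .no (.use 430) (.hor [.f 841 3 5] []) .no (.red [.f 834 5 3, .f 835 3 1] 121 136 [2, 3]
  [(121, 136, [2, 3])]) .no

def c27t451 : Tr4 :=
  .br 1227 (.use 351) .no (.con 136 [3, 1, 3, 1]) .no .no .no

def c27t452 : Tr4 :=
  .br 1225 (.red [.f 1217 1 3] 169 136 [3, 1, 1] [(169, 136, [3, 1, 1])]) .no (.use 411) .no (.br
  1098 .no (.br 1099 (.con 136 [3, 3, 1]) .no (.use 451) .no .no .no) (.use 440) .no (.use 369)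
  .no) .no

def c27t453 : Tr4 :=
  .br 1224 (.use 452) .no (.red [.f 1096 3 1, .f 1088 1 3, .f 1088 3 5] 153 136 [3, 1] [(153, 136,
  [3, 1]), (154, 136, [3, 3, 1])]) .no (.red [.t 1088 1 3, .t 952 1 3, .f 961 1 5] 153 136 [3, 1]
  [(136, 136, []), (153, 136, [3, 1])]) .no

def c27t454 : Tr4 :=
  .br 1099 (.con 136 [3, 1, 3, 1]) .no (.use 373) .no .no .no

def c27t455 : Tr4 :=
  .br 1225 (.red [.f 1217 1 3] 169 136 [3, 1, 1] [(169, 136, [3, 1, 1])]) .no (.use 454) .no .no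
  .no

def c27t456 : Tr4 :=
  .br 824 .no (.hor [.f 696 1 5] []) .no (.con 136 [2, 2, 4]) .no .no

def c27t457 : Tr4 :=
  .br 704 .no (.use 433) (.br 840 .no .no (.red [.f 968 5 3, .f 840 3 1] 122 136 [2, 3, 3] [(122,
  136, [2, 3, 3])]) .no .no .no) (.use 438) .no .no

def c27t458 : Tr4 :=
  .br 977 (.con 136 [3, 3, 3]) (.hor [.f 849 1 5] []) (.br 976 .no (.con 136 [2, 3, 3, 3]) (.hor
  [.f 976 3 5] []) .no .no .no) .no .no (.use 457)

def c27t459 : Tr4 :=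
  .br 840 .no (.use 432) (.red [.t 848 4 1] 122 136 [2, 3, 3] [(122, 136, [2, 3, 3])]) .no .no .no

def c27t460 : Tr4 :=
  .br 977 (.con 136 [2, 3, 3, 3]) (.hor [.f 849 1 5] []) (.con 136 [2, 3, 3, 3]) .no .no (.con 136
  [2, 3, 3, 3])

def c27t461 : Tr4 :=
  .br 977 .no (.br 840 .no (.con 136 [2, 3, 2, 3]) (.red [.t 848 4 1] 122 136 [2, 3, 3] [(122,
  136, [2, 3, 3])]) .no .no .no) (.hor [.f 977 3 5] []) .no .no (.red [.f 968 5 3, .t 969 3 1] 138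
  136 [3, 3] [(138, 136, [3, 3])])

def c27t462 : Tr4 :=
  .br 843 .no (.red [.f 706 5 1, .f 707 1 3] 105 136 [2, 2, 3] [(105, 136, [2, 2, 3])]) (.br 978
  (.red [.f 962 1 3, .f 962 3 1, .f 970 1 3, .f 1098 3 5] 138 136 [3, 3] [(138, 136, [3, 3])])
  (.use 460) (.br 1106 (.con 136 [3, 3, 1, 3]) .no (.red [.f 978 3 1] 139 136 [3, 3, 3] [(139,
  136, [3, 3, 3])]) .no .no (.use 461)) .no (.red [.f 962 1 3, .f 962 3 1, .t 1098 2 3] 138 136
  [3, 3] [(138, 136, [3, 3])]) (.use 355)) .no .no .no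

def c27t463 : Tr4 :=
  .br 1099 (.con 136 [3, 3, 1]) .no (.br 827 .no (.br 706 .no (.br 978 (.red [.f 962 1 3, .f 962 3
  1, .f 970 1 3, .f 1098 3 5] 138 136 [3, 3] [(138, 136, [3, 3])]) (.use 458) (.br 1106 (.con 136
  [3, 3, 1, 3]) .no (.red [.f 978 3 1] 139 136 [3, 3, 3] [(139, 136, [3, 3, 3])]) .no .no (.br 977
  .no (.use 459) (.hor [.f 977 3 5] []) .no .no (.use 457))) .no (.red [.f 962 1 3, .f 962 3 1, .t
  1098 2 3] 138 136 [3, 3] [(138, 136, [3, 3])]) (.use 355)) (.red [.t 705 1 3, .t 832 1 3] 105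
  136 [2, 2, 3] [(105, 136, [2, 2, 3]), (121, 136, [2, 3])]) (.red [.t 698 3 1, .f 705 1 5, .f 833
  5 3, .t 832 1 3] 121 136 [2, 3] [(104, 88, [1]), (121, 136, [2, 3])]) (.use 462) .no) .no (.red
  [.f 819 3 1, .f 826 1 5] 119 136 [2, 4] [(119, 136, [2, 4])]) .no .no) .no .no .no

def c27t464 : Tr4 :=
  .br 1105 (.red [.f 962 1 3, .f 1089 3 5, .f 1097 5 1, .f 1097 1 3] 154 136 [3, 3, 1] [(137, 121,
  [1]), (154, 136, [3, 3, 1])]) .no (.use 353) .no (.red [.f 977 5 1, .f 970 1 3] 138 136 [3, 3]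
  [(138, 136, [3, 3])]) .no

def c27t465 : Tr4 :=
  .br 1105 (.red [.f 962 1 3, .f 1089 3 5, .f 1097 5 1, .f 1097 1 3] 154 136 [3, 3, 1] [(137, 136,
  [3]), (154, 136, [3, 3, 1])]) (.con 136 [3, 3, 3]) (.con 136 [3, 3, 3, 1]) .no .no .no

def c27t466 : Tr4 :=
  .br 843 .no (.red [.f 706 5 1, .f 707 1 3] 105 136 [2, 2, 3] [(105, 136, [2, 2, 3])]) (.br 978
  (.red [.f 962 1 3, .f 962 3 1, .f 970 1 3, .f 1098 3 5] 138 136 [3, 3] [(138, 136, [3, 3])])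
  (.use 460) (.br 1106 (.use 465) .no (.red [.f 978 3 1] 139 136 [3, 3, 3] [(139, 136, [3, 3,
  3])]) .no .no (.use 461)) .no (.red [.f 962 1 3, .f 962 3 1, .t 1098 2 3] 138 136 [3, 3] [(138,
  136, [3, 3])]) (.use 464)) .no .no .no

def c27t467 : Tr4 :=
  .br 841 .no (.red [.f 705 1 3] 105 136 [2, 2, 3] [(105, 136, [2, 2, 3])]) (.use 450) .no (.br
  1225 (.red [.f 1217 1 3] 169 136 [3, 1, 1] [(169, 136, [3, 1, 1])]) .no (.use 463) .no (.br 1099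
  (.con 136 [3, 3, 1]) .no (.br 827 .no (.br 706 .no (.br 978 (.red [.f 962 1 3, .f 962 3 1, .f
  970 1 3, .f 1098 3 5] 138 136 [3, 3] [(138, 136, [3, 3])]) (.use 458) (.br 977 (.con 136 [3, 3,
  3]) (.use 459) (.hor [.f 977 3 5] []) .no .no (.use 457)) .no (.red [.f 962 1 3, .f 962 3 1, .t
  1098 2 3] 138 136 [3, 3] [(138, 136, [3, 3])]) (.use 464)) (.red [.t 705 1 3, .t 832 1 3] 105
  136 [2, 2, 3] [(105, 136, [2, 2, 3]), (121, 136, [2, 3])]) (.red [.t 698 3 1, .f 705 1 5, .f 833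
  5 3, .t 832 1 3] 121 136 [2, 3] [(104, 88, [1]), (121, 136, [2, 3])]) (.use 466) .no) .no (.red
  [.f 819 3 1, .f 826 1 5] 119 136 [2, 4] [(119, 136, [2, 4])]) .no .no) .no .no .no) .no) (.red
  [.f 840 5 1, .f 832 1 3] 121 136 [2, 3] [(121, 136, [2, 3])])

def c27t468 : Tr4 :=
  .br 968 .no (.red [.f 832 1 3] 121 136 [2, 3] [(121, 136, [2, 3])]) (.use 449) .no (.use 467)
  .no

def c27t469 : Tr4 :=
  .br 818 .no .no .no (.red [.f 810 3 1, .f 818 1 3] 119 136 [2, 4] [(118, 136, [2, 4, 4]), (119,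
  136, [2, 4])]) (.red [.t 954 2 4, .f 690 3 1] 119 136 [2, 4] [(103, 136, [2, 4, 2]), (119, 136,
  [2, 4])]) .no

def c27t470 : Tr4 :=
  .br 698 .no (.hor [.f 570 1 5] []) .no (.use 469) .no (.red [.f 688 1 3, .f 816 3 5, .t 960 2 4,
  .f 825 1 5, .f 697 5 1, .f 698 1 3] 104 136 [2, 2] [(103, 104, [4]), (104, 136, [2, 2]), (120,
  104, [1])])

def c27t471 : Tr4 :=
  .br 698 .no (.br 697 .no (.hor [.f 569 1 5] []) (.red [.f 688 1 3, .f 816 3 5, .t 960 2 4, .f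
  825 1 5, .t 705 4 1] 104 136 [2, 2] [(103, 87, [1]), (104, 136, [2, 2]), (120, 104, [1])]) (.con
  136 [2, 2, 2, 4]) .no .no) .no (.use 469) .no (.red [.f 688 1 3, .f 816 3 5, .t 960 2 4, .f 825
  1 5, .f 697 5 1, .f 698 1 3] 104 136 [2, 2] [(103, 87, [1]), (104, 136, [2, 2]), (120, 104,
  [1])])

def c27t472 : Tr4 :=
  .br 817 .no (.con 136 [2, 4, 2]) (.hor [.f 816 3 5] []) (.con 136 [2, 4, 2]) (.con 136 [2, 4,
  2]) .no

def c27t473 : Tr4 :=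
  .br 970 (.con 136 [3, 3]) (.br 834 .no (.br 835 .no (.hor [.f 706 1 5] []) (.red [.f 835 3 1, .f
  842 1 5] 121 136 [2, 3] [(121, 136, [2, 3])]) (.br 824 .no (.br 699 .no (.br 825 .no (.hor [.f
  696 1 5] []) .no (.br 944 (.hor [.f 944 1 5] []) (.dom 119 136 [2, 4]) .no (.br 1072 (.br 816
  .no (.use 470) .no (.use 1) .no .no) .no .no (.hor [.f 936 3 1, .f 944 1 5] [(134, 118, [1])])
  .no .no) .no .no) .no .no) (.red [.f 699 3 1, .f 706 1 5] 104 136 [2, 2] [(104, 136, [2, 2])])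
  (.br 825 .no (.hor [.f 696 1 5] []) .no (.br 944 (.hor [.f 944 1 5] []) (.dom 119 136 [2, 4])
  .no (.br 1072 (.br 816 .no (.use 471) .no (.use 1) .no .no) .no .no (.hor [.f 936 3 1, .f 944 1
  5] [(134, 118, [1])]) .no .no) .no .no) .no .no) .no (.red [.t 834 2 4] 104 136 [2, 2] [(104,
  136, [2, 2])])) .no (.use 472) (.red [.t 960 2 4, .t 1096 2 4, .f 961 1 5, .t 841 4 1] 121 136
  [2, 3] [(120, 104, [1]), (121, 136, [2, 3]), (137, 121, [1])]) .no) .no .no) .no .no (.red [.t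
  970 2 4, .f 833 3 5] 121 136 [2, 3] [(121, 136, [2, 3])]) .no) (.use 444) .no .no (.red [.t 1089
  3 2, .f 968 1 5, .t 832 1 3] 121 136 [2, 3] [(121, 136, [2, 3]), (137, 121, [1])])

def c27t474 : Tr4 :=
  .br 827 .no (.red [.t 953 3 2, .f 699 1 3, .f 826 3 5, .t 970 2 4] 121 136 [2, 3] [(104, 105,
  [4]), (120, 119, [3]), (121, 136, [2, 3])]) .no (.red [.f 819 3 1, .f 826 1 5] 119 136 [2, 4]
  [(119, 136, [2, 4])]) .no .no

def c27t475 : Tr4 :=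
  .br 834 .no (.hor [.f 706 1 5] []) .no .no .no (.use 474)

def c27t476 : Tr4 :=
  .br 936 (.red [.t 1064 2 3, .f 808 3 1] 118 136 [2, 4, 4] [(118, 136, [2, 4, 4]), (134, 136, [4,
  4])]) .no .no (.br 937 .no (.red [.t 808 3 1, .f 937 3 5] 118 136 [2, 4, 4] [(118, 136, [2, 4,
  4])]) .no (.hor [.f 928 3 5] []) .no .no) (.red [.f 936 5 3, .f 808 3 1] 118 136 [2, 4, 4]
  [(118, 136, [2, 4, 4])]) .no

def c27t477 : Tr4 :=
  .br 937 (.use 21) (.red [.t 808 3 1, .f 937 3 5] 118 136 [4, 2, 4] [(118, 136, [4, 2, 4])]) .no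
  (.hor [.f 928 3 5] []) .no .no

def c27t478 : Tr4 :=
  .br 936 (.red [.f 944 5 1, .f 936 1 3, .f 808 3 1] 118 136 [2, 4, 4] [(118, 136, [2, 4, 4]),
  (134, 136, [4, 4])]) .no .no (.br 1201 (.use 477) .no .no (.use 28) (.red [.t 1081 1 4, .t 961 4
  1] 136 136 [] [(136, 136, []), (151, 135, [1])]) (.red [.f 1072 5 1, .f 1073 1 3, .f 1073 3 5,
  .t 961 4 1] 136 136 [] [(136, 136, []), (151, 135, [1])])) (.red [.f 936 5 3, .f 808 3 1] 118
  136 [2, 4, 4] [(118, 136, [2, 4, 4])]) .no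

def c27t479 : Tr4 :=
  .br 1208 (.use 478) .no .no (.red [.t 1208 4 2, .f 1073 3 5, .t 961 4 1] 136 136 [] [(136, 136,
  []), (151, 135, [1])]) .no .no

def c27t480 : Tr4 :=
  .br 1073 (.red [.f 1073 1 3, .f 1073 3 5, .t 961 4 1] 136 136 [] [(136, 136, []), (151, 135,
  [1])]) .no .no (.use 476) .no (.use 479)

def c27t481 : Tr4 :=
  .br 817 .no (.con 136 [2, 4, 2]) (.hor [.f 816 3 5] []) (.con 136 [2, 4, 2]) (.con 136 [2, 4,
  2]) .no

def c27t482 : Tr4 :=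
  .br 834 .no (.hor [.f 706 1 5] []) (.con 136 [2, 2, 3]) .no .no .no

def c27t483 : Tr4 :=
  .br 825 .no (.use 456) .no (.use 402) .no (.use 405)

def c27t484 : Tr4 :=
  .br 841 .no (.hor [.f 713 1 5] []) (.use 430) .no .no (.red [.f 840 5 1, .f 832 1 3] 121 136 [2,
  3] [(121, 136, [2, 3])])

def c27t485 : Tr4 :=
  .br 842 .no (.use 484) (.red [.f 842 3 1] 122 136 [2, 3, 3] [(122, 136, [2, 3, 3])]) .no (.red
  [.t 953 3 2, .f 826 3 5, .f 834 5 3, .f 835 3 1] 121 136 [2, 3] [(120, 104, [1]), (121, 136, [2,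
  3])]) (.red [.f 833 5 3, .t 832 1 3] 121 136 [2, 3] [(121, 136, [2, 3])])

def c27l12 : List Tr4 :=
  [c27t441, c27t442, c27t443, c27t444, c27t445, c27t446, c27t447, c27t448, c27t449, c27t450,
  c27t451, c27t452, c27t453, c27t454, c27t455, c27t456, c27t457, c27t458, c27t459, c27t460,
  c27t461, c27t462, c27t463, c27t464, c27t465, c27t466, c27t467, c27t468, c27t469, c27t470,
  c27t471, c27t472, c27t473, c27t474, c27t475, c27t476, c27t477, c27t478, c27t479, c27t480,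
  c27t481, c27t482, c27t483, c27t484, c27t485]

theorem c27k12 : chkLF ⟨4, 1, 0, true, -8⟩ false 7 c27N 441 c27l12 = true := by decide +kernel

def c27t486 : Tr4 :=
  .br 970 (.red [.f 962 1 3, .f 1089 3 5, .t 1209 2 3, .f 953 3 1, .t 961 1 3] 136 136 [] [(136,
  136, []), (152, 136, [1])]) (.br 835 .no (.use 475) (.red [.f 835 3 1, .f 842 1 5] 121 136 [2,
  3] [(121, 136, [2, 3])]) (.br 833 .no (.use 427) (.br 969 .no .no (.br 968 (.br 834 .no (.br 824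
  .no (.br 699 .no (.br 825 .no (.hor [.f 696 1 5] []) .no (.br 816 .no (.use 470) .no (.use 480)
  .no .no) .no .no) (.red [.f 699 3 1, .f 706 1 5] 104 136 [2, 2] [(104, 136, [2, 2])]) (.br 825
  .no (.hor [.f 696 1 5] []) .no (.br 816 .no (.use 471) .no (.use 480) .no .no) .no .no) .no
  (.red [.t 834 2 4] 104 136 [2, 2] [(104, 136, [2, 2])])) .no (.use 481) (.red [.t 960 2 4, .t
  1096 2 4, .f 961 1 5, .t 841 4 1] 121 136 [2, 3] [(120, 104, [1]), (121, 136, [2, 3]), (137,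
  121, [1])]) .no) .no .no .no .no) (.red [.f 832 1 3, .f 832 3 5] 121 136 [2, 3] [(121, 136, [2,
  3])]) (.hor [.f 968 3 5] []) .no .no .no) .no .no (.red [.t 832 1 3, .f 841 1 5] 121 136 [2, 3]
  [(121, 136, [2, 3])])) (.con 136 [2, 2]) (.red [.t 953 3 2, .f 826 3 5, .t 970 2 4] 121 136 [2,
  3] [(120, 104, [1]), (121, 136, [2, 3])]) .no) .no (.red [.t 970 2 4] 121 136 [2, 3] [(121, 136,
  [2, 3])])) (.br 969 .no (.use 429) (.hor [.f 969 3 5] []) .no .no (.br 833 .no (.use 442) (.red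
  [.t 832 1 3] 121 136 [2, 3] [(121, 136, [2, 3])]) (.br 835 .no (.use 482) (.red [.f 835 3 1] 121
  136 [2, 3] [(121, 136, [2, 3])]) (.con 136 [2, 2]) .no (.br 827 .no (.br 1073 (.red [.f 1073 1
  3, .f 1073 3 5, .t 961 4 1] 136 136 [] [(136, 136, []), (151, 135, [1])]) .no .no (.use 408) .no
  (.br 1208 (.br 824 .no (.br 818 .no (.use 29) .no (.red [.f 810 3 1, .f 818 1 3] 119 136 [2, 4]
  [(118, 136, [2, 4, 4]), (119, 136, [2, 4])]) (.red [.f 825 3 1, .f 825 1 3, .t 954 2 4] 119 136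
  [2, 4] [(119, 136, [2, 4])]) (.br 816 .no (.use 292) .no (.use 478) .no .no)) .no (.con 136 [2,
  2, 4]) .no .no) .no .no (.red [.t 1208 4 2, .f 1073 3 5, .t 961 4 1] 136 136 [] [(136, 136, []),
  (151, 135, [1])]) .no .no)) .no (.red [.f 819 3 1, .f 826 1 5] 119 136 [2, 4] [(119, 136, [2,
  4])]) .no .no)) (.br 835 .no (.br 827 .no (.br 819 .no (.red [.f 699 1 3, .f 699 3 1, .f 691 1
  3, .f 819 3 1, .f 826 1 5] 119 136 [2, 4] [(103, 136, [2, 2, 4]), (119, 136, [2, 4])]) .no (.br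
  1073 (.red [.f 1073 1 3, .f 1073 3 5, .t 961 4 1] 136 136 [] [(136, 136, []), (151, 135, [1])])
  .no .no (.use 483) .no (.br 1208 (.br 825 .no (.use 456) .no (.br 816 .no (.use 401) (.hor [.f
  816 3 5] []) (.use 478) .no .no) .no (.br 816 .no (.use 403) .no (.use 478) (.use 404) .no)) .no
  .no (.red [.t 1208 4 2, .f 1073 3 5, .t 961 4 1] 136 136 [] [(136, 136, []), (151, 135, [1])])
  .no .no)) .no (.red [.f 699 1 3, .f 699 3 1, .t 954 2 4] 119 136 [2, 4] [(119, 136, [2, 4])]))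
  .no (.red [.f 819 3 1, .f 826 1 5] 119 136 [2, 4] [(119, 136, [2, 4])]) .no .no) (.red [.f 835 3
  1] 121 136 [2, 3] [(121, 136, [2, 3])]) (.use 485) .no .no) .no)) .no .no (.red [.t 1089 3 2, .t
  1209 2 3, .f 953 3 1, .f 961 1 3] 136 136 [] [(136, 136, []), (152, 136, [1])])

def c27t487 : Tr4 :=
  .br 1225 (.red [.f 1217 1 3] 169 136 [3, 1, 1] [(169, 136, [3, 1, 1])]) .no (.use 228) .no .no
  (.red [.t 1088 1 3, .t 952 1 3, .f 961 1 5] 153 136 [3, 1] [(136, 136, []), (153, 136, [3, 1])])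

def c27t488 : Tr4 :=
  .br 833 .no (.con 136 [2, 2, 3]) (.red [.t 1089 3 2, .f 968 1 5, .t 832 1 3] 121 136 [2, 3]
  [(121, 136, [2, 3]), (137, 121, [1])]) (.con 136 [2, 2, 3]) .no .no

def c27t489 : Tr4 :=
  .br 842 .no (.hor [.f 713 1 5] []) (.hor [.f 842 3 5] []) .no .no .no

def c27t490 : Tr4 :=
  .br 1106 (.con 136 [3, 3, 3]) (.hor [.f 977 1 5] []) (.con 136 [3, 3, 3]) .no (.con 136 [3, 3,
  3]) .no

def c27t491 : Tr4 :=
  .br 936 (.red [.f 944 5 1, .f 936 1 3, .f 808 3 1] 118 136 [2, 4, 4] [(118, 136, [2, 4, 4]),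
  (134, 136, [4, 4])]) .no .no (.use 477) (.red [.f 936 5 3, .f 808 3 1] 118 136 [2, 4, 4] [(118,
  136, [2, 4, 4])]) .no

def c27t492 : Tr4 :=
  .br 834 .no (.hor [.f 705 1 5] []) (.con 136 [2, 2, 3]) .no .no .no

def c27t493 : Tr4 :=
  .br 842 .no (.br 840 .no (.con 136 [2, 2, 3, 3]) (.hor [.f 840 3 5] []) .no .no .no) (.hor [.f
  841 3 5] []) .no (.red [.t 953 3 2, .f 826 3 5, .f 834 5 3, .f 835 3 1] 121 136 [2, 3] [(120,
  104, [1]), (121, 136, [2, 3])]) .no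

def c27t494 : Tr4 :=
  .br 699 .no (.con 136 [2, 2, 2]) (.hor [.f 698 3 5] []) (.con 136 [2, 2, 2]) .no .no

def c27t495 : Tr4 :=
  .br 843 .no (.red [.t 953 3 2, .f 826 3 5, .f 706 5 1, .f 707 1 3] 105 136 [2, 2, 3] [(105, 136,
  [2, 2, 3]), (120, 104, [1])]) (.use 489) .no .no (.red [.t 953 3 2, .f 826 3 5, .f 834 5 3, .f
  835 3 1] 121 136 [2, 3] [(120, 104, [1]), (121, 136, [2, 3])])

def c27t496 : Tr4 :=
  .br 833 .no (.use 492) (.red [.t 1089 3 2, .f 968 1 5, .t 832 1 3] 121 136 [2, 3] [(121, 136,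
  [2, 3]), (137, 121, [1])]) (.con 136 [2, 2]) (.br 824 .no (.br 841 .no (.br 705 .no (.br 704 .no
  (.hor [.f 576 1 5] []) (.red [.t 953 3 2, .f 832 1 5, .t 712 4 1] 105 136 [2, 2, 3] [(105, 136,
  [2, 2, 3]), (120, 104, [1])]) .no .no .no) .no (.red [.t 953 3 2, .f 832 1 5, .t 696 1 3] 104
  136 [2, 2] [(104, 136, [2, 2]), (120, 104, [1])]) (.red [.f 705 5 1, .f 705 1 3] 105 136 [2, 2,
  3] [(105, 136, [2, 2, 3])]) (.red [.t 953 3 2, .f 832 1 5, .f 704 5 1, .f 696 1 3] 104 136 [2,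
  2] [(104, 136, [2, 2]), (120, 104, [1])])) (.use 493) .no (.red [.t 1089 3 2, .f 833 5 3, .f 968
  1 5, .t 832 1 3] 121 136 [2, 3] [(121, 136, [2, 3]), (137, 121, [1])]) (.red [.t 962 1 3, .t 826
  1 3, .f 953 3 5, .f 961 5 3, .t 960 2 3] 121 136 [2, 3] [(120, 104, [1]), (121, 136, [2, 3]),
  (137, 121, [1])])) .no (.use 481) (.br 841 .no (.br 705 .no (.br 706 .no (.hor [.f 577 1 5] [])
  (.red [.t 713 1 4] 105 136 [2, 2, 3] [(105, 136, [2, 2, 3])]) (.use 494) (.use 495) .no) .no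
  (.red [.t 960 2 4, .f 825 1 5, .f 825 5 3, .f 697 3 1] 104 136 [2, 2] [(104, 136, [2, 2]), (120,
  104, [1])]) (.red [.f 705 5 1, .f 705 1 3] 105 136 [2, 2, 3] [(105, 136, [2, 2, 3])]) (.br 706
  .no (.br 707 .no (.hor [.f 578 1 5] []) (.con 136 [2, 2, 2, 3]) (.red [.f 699 3 1] 104 136 [2,
  2] [(104, 136, [2, 2])]) .no .no) (.red [.t 713 1 4] 105 136 [2, 2, 3] [(105, 136, [2, 2, 3])])
  (.br 699 .no (.con 136 [2, 2, 2]) (.hor [.f 698 3 5] []) (.con 136 [2, 2, 2]) .no .no) (.use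
  495) .no)) (.use 493) .no (.red [.t 1089 3 2, .f 833 5 3, .f 968 1 5, .t 832 1 3] 121 136 [2, 3]
  [(121, 136, [2, 3]), (137, 121, [1])]) (.red [.t 962 1 3, .t 826 1 3, .f 953 3 5, .f 961 5 3, .t
  960 2 3] 121 136 [2, 3] [(120, 104, [1]), (121, 136, [2, 3]), (137, 121, [1])])) .no) .no

def c27t497 : Tr4 :=
  .br 843 .no (.red [.t 714 4 1] 105 136 [2, 2, 3] [(105, 136, [2, 2, 3])]) (.hor [.f 842 3 5] [])
  .no .no .no

def c27t498 : Tr4 :=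
  .br 1224 (.use 276) .no (.br 1104 .no (.red [.f 825 3 1, .f 968 1 3, .f 1096 3 1, .f 1088 1 3]
  138 136 [3, 3] [(120, 121, [4]), (138, 136, [3, 3]), (153, 136, [3, 1]), (154, 136, [3, 3, 1])])
  (.br 1105 (.red [.f 825 3 1, .f 832 1 5, .t 1096 2 4, .t 1232 4 2] 154 136 [3, 3, 1] [(120, 121,
  [4]), (137, 121, [1]), (154, 136, [3, 3, 1])]) (.use 490) (.hor [.f 1104 3 5] []) .no (.use 277)
  .no) .no (.red [.t 1089 3 2, .f 968 1 5, .f 1096 5 3, .f 1096 3 1] 154 136 [3, 3, 1] [(137, 121,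
  [1]), (154, 136, [3, 3, 1])]) .no) .no .no .no

def c27t499 : Tr4 :=
  .br 970 (.con 136 [3, 3]) (.br 835 .no (.use 475) (.red [.f 835 3 1, .f 842 1 5] 121 136 [2, 3]
  [(121, 136, [2, 3])]) (.br 833 .no (.use 427) (.br 1098 (.use 487) .no (.use 445) .no (.red [.t
  962 1 3, .t 826 1 3, .f 953 3 5, .t 841 4 1] 121 136 [2, 3] [(120, 104, [1]), (121, 136, [2,
  3]), (137, 121, [1])]) .no) (.con 136 [2, 2]) (.red [.t 953 3 2, .f 826 3 5, .t 970 2 4] 121 136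
  [2, 3] [(120, 104, [1]), (121, 136, [2, 3])]) .no) .no (.red [.t 970 2 4] 121 136 [2, 3] [(121,
  136, [2, 3])])) (.use 444) .no .no (.br 1098 (.use 487) .no (.use 445) .no (.br 1225 (.red [.f
  1217 1 3] 169 136 [3, 1, 1] [(169, 136, [3, 1, 1])]) .no (.use 227) .no (.br 835 .no (.br 827
  .no (.br 834 .no (.hor [.f 706 1 5] []) (.use 488) .no .no (.br 819 .no (.red [.f 699 1 3, .f
  699 3 1, .f 691 1 3, .f 819 3 1, .f 826 1 5] 119 136 [2, 4] [(103, 136, [2, 2, 4]), (119, 136,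
  [2, 4])]) .no (.br 1073 (.red [.f 1073 1 3, .f 1073 3 5, .t 961 4 1] 136 136 [] [(136, 136, []),
  (151, 135, [1])]) .no .no (.use 483) .no (.br 1208 (.br 1211 (.hor [.f 1210 1 5] []) .no .no
  (.br 1201 (.br 825 .no (.use 456) .no (.br 816 .no (.use 401) (.hor [.f 816 3 5] []) (.use 491)
  .no .no) .no (.br 816 .no (.use 403) .no (.use 491) (.use 404) .no)) .no .no (.use 255) (.red
  [.t 1089 3 2, .t 969 1 4, .t 1081 1 4, .t 961 4 1] 136 136 [] [(136, 136, []), (151, 135, [1])])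
  (.red [.f 1072 5 1, .f 1073 1 3, .f 1073 3 5, .t 961 4 1] 136 136 [] [(136, 136, []), (151, 135,
  [1])])) .no .no) .no .no (.red [.t 1208 4 2, .f 1073 3 5, .t 961 4 1] 136 136 [] [(136, 136,
  []), (151, 135, [1])]) .no .no)) .no (.red [.f 699 1 3, .f 699 3 1, .t 954 2 4] 119 136 [2, 4]
  [(119, 136, [2, 4])]))) .no (.red [.f 819 3 1, .f 826 1 5] 119 136 [2, 4] [(119, 136, [2, 4])])
  .no .no) (.red [.f 835 3 1] 121 136 [2, 3] [(121, 136, [2, 3])]) (.use 496) .no (.br 833 .no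
  (.use 447) (.red [.t 1089 3 2, .f 968 1 5, .t 832 1 3] 121 136 [2, 3] [(121, 136, [2, 3]), (137,
  121, [1])]) (.br 1346 (.br 1347 (.hor [.f 1346 1 5] []) .no (.use 291) (.br 1224 (.use 266) .no
  (.br 1104 .no (.red [.f 825 3 1, .f 968 1 3, .f 1096 3 1, .f 1088 1 3] 138 136 [3, 3] [(120,
  104, [1]), (138, 136, [3, 3]), (153, 136, [3, 1]), (154, 136, [3, 3, 1])]) (.br 1105 (.red [.f
  825 3 1, .f 832 1 5, .t 1096 2 4, .t 1232 4 2] 154 136 [3, 3, 1] [(120, 104, [1]), (137, 121,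
  [1]), (154, 136, [3, 3, 1])]) (.use 490) (.hor [.f 1104 3 5] []) .no (.use 272) .no) .no (.red
  [.t 1089 3 2, .f 968 1 5, .f 1096 5 3, .f 1096 3 1] 154 136 [3, 3, 1] [(137, 121, [1]), (154,
  136, [3, 3, 1])]) .no) .no .no .no) .no .no) .no (.red [.t 1345 2 3] 169 136 [3, 1, 1] [(169,
  136, [3, 1, 1])]) .no (.use 498) .no) .no .no)) (.red [.t 1088 1 3, .t 952 1 3, .f 961 1 5] 153
  136 [3, 1] [(136, 136, []), (153, 136, [3, 1])])) .no)

def c27t500 : Tr4 :=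
  .br 970 (.con 136 [2, 3, 3]) (.hor [.f 841 1 5] []) (.con 136 [2, 3, 3]) .no .no .no

def c27t501 : Tr4 :=
  .br 1224 (.br 1098 (.use 454) .no (.use 357) .no (.use 226) .no) .no (.red [.f 968 3 1, .f 968 1
  3, .f 1096 3 1, .f 1088 1 3] 153 136 [3, 1] [(153, 136, [3, 1]), (154, 136, [3, 3, 1])]) .no .no
  .no

def c27t502 : Tr4 :=
  .br 842 .no (.hor [.f 713 1 5] []) (.br 706 .no (.hor [.f 577 1 5] []) (.use 497) (.con 136 [2,
  2, 2]) (.br 843 .no (.red [.f 706 5 1, .f 707 1 3] 105 136 [2, 2, 3] [(105, 136, [2, 2, 3])])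
  (.hor [.f 842 3 5] []) .no .no .no) .no) .no (.red [.f 834 5 3, .f 835 3 1] 121 136 [2, 3]
  [(121, 136, [2, 3])]) .no

def c27t503 : Tr4 :=
  .br 840 .no (.hor [.f 712 1 5] []) (.red [.t 848 4 1] 122 136 [2, 3, 3] [(122, 136, [2, 3, 3])])
  .no .no .no

def c27t504 : Tr4 :=
  .br 977 .no (.use 503) (.hor [.f 977 3 5] []) .no .no (.red [.f 968 5 3, .t 969 3 1] 138 136 [3,
  3] [(138, 136, [3, 3])])

def c27t505 : Tr4 :=
  .br 1099 (.con 136 [3, 3, 1]) .no (.br 978 (.red [.f 962 1 3, .f 962 3 1, .f 970 1 3, .f 1098 3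
  5] 138 136 [3, 3] [(138, 136, [3, 3])]) .no (.br 1106 (.con 136 [3, 3, 1, 3]) .no (.red [.f 978
  3 1] 139 136 [3, 3, 3] [(139, 136, [3, 3, 3])]) .no .no (.use 504)) .no (.red [.f 962 1 3, .f
  962 3 1, .t 1098 2 3] 138 136 [3, 3] [(138, 136, [3, 3])]) (.use 355)) .no .no .no

def c27t506 : Tr4 :=
  .br 841 .no (.br 827 .no (.br 824 .no (.br 1073 (.red [.f 1073 1 3, .f 1073 3 5, .t 961 4 1] 136
  136 [] [(136, 136, []), (151, 135, [1])]) .no .no (.use 408) .no (.br 705 .no (.use 502) .no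
  (.red [.f 697 3 1, .f 696 1 5] 104 136 [2, 2] [(104, 136, [2, 2])]) (.br 842 .no (.hor [.f 713 1
  5] []) (.use 505) .no (.red [.f 834 5 3, .t 841 2 4] 105 136 [2, 2, 3] [(105, 136, [2, 2, 3])])
  .no) (.red [.f 944 5 1, .t 824 2 3] 104 136 [2, 2] [(104, 136, [2, 2])]))) .no (.con 136 [2, 2,
  4]) .no .no) .no (.red [.f 819 3 1, .f 826 1 5] 119 136 [2, 4] [(119, 136, [2, 4])]) .no .no)
  (.use 450) .no (.red [.f 962 1 3, .f 825 3 1, .t 961 2 3, .t 832 1 3, .t 970 2 4] 121 136 [2, 3]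
  [(120, 104, [1]), (121, 136, [2, 3]), (137, 121, [1])]) (.red [.f 840 5 1, .f 832 1 3] 121 136
  [2, 3] [(121, 136, [2, 3])])

def c27t507 : Tr4 :=
  .br 827 .no (.br 825 .no (.use 456) .no (.use 422) .no (.use 423)) .no (.red [.f 819 3 1, .f 826
  1 5] 119 136 [2, 4] [(119, 136, [2, 4])]) .no .no

def c27t508 : Tr4 :=
  .br 841 .no (.use 505) (.hor [.f 841 3 5] []) .no .no (.red [.f 840 5 1, .f 832 1 3] 121 136 [2,
  3] [(121, 136, [2, 3])])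

def c27t509 : Tr4 :=
  .br 842 .no (.use 484) (.use 508) .no (.red [.t 953 3 2, .f 826 3 5, .f 834 5 3, .f 835 3 1] 121
  136 [2, 3] [(120, 104, [1]), (121, 136, [2, 3])]) (.red [.f 833 5 3, .t 832 1 3] 121 136 [2, 3]
  [(121, 136, [2, 3])])

def c27t510 : Tr4 :=
  .br 835 .no (.use 475) (.red [.f 835 3 1, .f 842 1 5] 121 136 [2, 3] [(121, 136, [2, 3])]) (.br
  833 .no (.use 427) (.red [.t 962 1 3, .t 826 1 3, .f 953 3 5, .t 841 4 1] 121 136 [2, 3] [(120,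
  104, [1]), (121, 136, [2, 3]), (137, 121, [1])]) (.con 136 [2, 2]) (.red [.t 953 3 2, .f 826 3
  5, .t 970 2 4] 121 136 [2, 3] [(120, 104, [1]), (121, 136, [2, 3])]) .no) .no (.red [.t 970 2 4]
  121 136 [2, 3] [(121, 136, [2, 3])])

def c27t511 : Tr4 :=
  .br 977 (.br 1104 (.con 136 [3, 3, 3]) (.hor [.f 976 1 5] []) (.con 136 [3, 3, 3]) .no .no .no)
  (.red [.t 849 1 4] 122 136 [2, 3, 3] [(122, 136, [2, 3, 3])]) (.hor [.f 977 3 5] []) .no .no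
  (.br 979 (.con 136 [3, 3, 3]) (.red [.t 1089 3 2, .f 962 3 5, .t 850 4 1] 122 136 [2, 3, 3]
  [(122, 136, [2, 3, 3]), (137, 121, [1])]) (.hor [.f 978 3 5] []) .no .no .no)

def c27l13 : List Tr4 :=
  [c27t486, c27t487, c27t488, c27t489, c27t490, c27t491, c27t492, c27t493, c27t494, c27t495,
  c27t496, c27t497, c27t498, c27t499, c27t500, c27t501, c27t502, c27t503, c27t504, c27t505,
  c27t506, c27t507, c27t508, c27t509, c27t510, c27t511]

theorem c27k13 : chkLF ⟨4, 1, 0, true, -8⟩ false 7 c27N 486 c27l13 = true := by decide +kernel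

end Pool.Agent.FT4D
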