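import Pool.Agent.FT4D.Tab_c27

/-!
# Four levels: decision trees (found by a computer search)
-/

namespace Pool.Agent.FT4D

def c27t1903 : Tr4 :=
  .br 1211 (.br 1203 (.red [.f 1203 1 3] 167 136 [4, 1, 1] [(167, 136, [4, 1, 1])]) .no .no (.br
  1201 (.red [.f 1201 1 3] 167 136 [4, 1, 1] [(167, 136, [4, 1, 1])]) .no .no (.br 1202 (.con 136
  [4, 1, 1, 4]) .no .no (.hor [.f 1193 3 5] []) .no .no) (.red [.t 1081 4 1] 151 136 [4, 1] [(151,
  136, [4, 1])]) (.br 1202 (.con 136 [4, 1, 4, 1]) .no .no (.hor [.f 1194 3 5] []) .no .no)) .no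
  (.red [.f 1074 5 1, .f 1074 1 3] 151 136 [4, 1] [(151, 136, [4, 1])])) .no (.red [.f 1083 3 1,
  .f 1082 1 5, .f 1074 5 3, .f 1073 3 5, .t 961 4 1] 136 136 [] [(136, 136, []), (152, 136, [1])])
  (.red [.t 1210 2 4, .f 1073 3 5] 151 136 [4, 1] [(151, 136, [4, 1])]) .no .no

def c27t1904 : Tr4 :=
  .br 825 .no (.hor [.f 696 1 5] []) (.hor [.f 825 3 5] []) (.br 1074 (.red [.f 1074 1 3, .f 1073
  3 5] 151 136 [4, 1] [(151, 136, [4, 1])]) (.con 136 [4, 2, 3, 1]) .no (.br 946 .no (.con 136 [4,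
  2, 3, 1]) (.br 947 (.use 1900) (.use 1684) .no (.use 1902) .no .no) (.con 136 [4, 2, 3, 1])
  (.con 136 [4, 2, 3, 1]) (.con 136 [4, 2, 3, 1])) (.use 1903) .no) .no .no

def c27t1905 : Tr4 :=
  .br 1208 (.hor [.f 1208 1 5] []) .no (.red [.f 944 1 3, .f 1072 3 5, .t 1216 4 2, .f 953 3 1]
  136 136 [] [(135, 136, [4]), (136, 136, []), (152, 136, [1])]) (.br 1211 (.con 136 [4, 1, 1])
  .no .no (.use 1887) .no .no) .no .no

def c27t1906 : Tr4 :=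
  .br 936 (.use 1872) (.hor [.f 808 1 3, .f 936 3 5] [(118, 135, [2, 4])]) .no (.use 1883) .no .no

def c27t1907 : Tr4 :=
  .br 1208 (.hor [.f 1208 1 5] []) .no (.br 1072 (.dom 151 136 [4, 1]) .no .no (.use 1891) .no
  .no) (.use 1892) .no .no

def c27t1908 : Tr4 :=
  .br 1099 (.br 1211 (.br 1208 (.hor [.f 1208 1 5] []) .no (.br 1072 (.br 1201 (.red [.f 1201 1 3]
  167 136 [4, 1, 1] [(167, 136, [4, 1, 1])]) .no .no (.br 1225 (.use 1842) .no (.br 1203 (.red [.f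
  1203 1 3] 167 136 [4, 1, 1] [(167, 136, [4, 1, 1])]) .no .no (.use 1860) .no (.br 1067 (.red [.t
  1066 3 1, .f 1074 1 3, .f 1073 3 5] 151 136 [4, 1] [(150, 136, [4, 4, 1]), (151, 136, [4, 1])])
  (.hor [.f 939 1 3, .f 1066 3 5] [(134, 136, [4, 4])]) .no (.br 1344 (.br 1338 (.use 1906) .no
  (.hor [.f 1211 1 3, .f 1338 3 5] [(168, 167, [3])]) (.red [.t 1338 4 2] 167 136 [4, 1, 1] [(167,
  136, [4, 1, 1])]) .no .no) .no .no (.red [.f 1208 3 1, .f 1208 1 5, .t 1072 1 3, .f 1081 1 3, .t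
  1216 1 4] 151 136 [4, 1] [(151, 136, [4, 1]), (152, 136, [1])]) (.red [.t 1208 3 1, .t 1072 1 3,
  .f 1081 1 5] 151 136 [4, 1] [(151, 136, [4, 1]), (168, 167, [3])]) .no) .no .no)) .no .no .no)
  (.red [.t 1081 4 1, .f 1072 1 5] 151 136 [4, 1] [(151, 136, [4, 1])]) .no) .no .no (.use 1886)
  .no .no) (.con 136 [4, 1, 1]) .no .no) .no .no (.use 1907) .no .no) .no (.hor [.f 1098 3 5] [])
  .no .no .no

def c27t1909 : Tr4 :=
  .br 1338 (.use 1906) .no (.hor [.f 1211 1 3, .f 1338 3 5] [(168, 167, [3])]) (.red [.t 1338 4 2]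
  167 136 [4, 1, 1] [(167, 136, [4, 1, 1])]) .no .no

def c27t1910 : Tr4 :=
  .br 1211 (.br 1208 (.hor [.f 1208 1 5] []) .no (.br 1072 (.br 1201 (.red [.f 1201 1 3] 167 136
  [4, 1, 1] [(167, 136, [4, 1, 1])]) .no .no (.br 1203 (.red [.f 1203 1 3] 167 136 [4, 1, 1]
  [(167, 136, [4, 1, 1])]) .no .no (.use 1860) .no (.br 1067 (.red [.t 1066 3 1, .f 1074 1 3, .f
  1073 3 5] 151 136 [4, 1] [(150, 136, [4, 4, 1]), (151, 136, [4, 1])]) (.hor [.f 939 1 3, .f 1066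
  3 5] [(134, 136, [4, 4])]) .no (.br 1344 (.use 1909) .no .no (.red [.f 1208 3 1, .f 1208 1 5, .t
  1072 1 3, .f 1081 1 3, .t 1216 1 4] 151 136 [4, 1] [(151, 136, [4, 1]), (152, 136, [1])]) (.red
  [.t 1208 3 1, .t 1072 1 3, .f 1081 1 5] 151 136 [4, 1] [(151, 136, [4, 1]), (168, 167, [3])])
  .no) .no .no)) (.red [.t 962 1 3, .t 1081 4 1, .t 1098 4 2] 151 136 [4, 1] [(151, 136, [4, 1])])
  .no) .no .no (.use 1886) .no .no) (.con 136 [4, 1, 1]) .no .no) .no .no (.use 1907) .no .no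

def c27t1911 : Tr4 :=
  .br 1208 (.hor [.f 1208 1 5] []) .no (.use 1896) (.con 136 [4, 1, 1]) .no .no

def c27t1912 : Tr4 :=
  .br 1211 (.use 1911) .no .no (.br 825 .no (.hor [.f 696 1 5] []) .no (.use 1899) .no .no) .no
  .no

def c27t1913 : Tr4 :=
  .br 1211 (.con 136 [4, 1, 1]) .no .no (.use 1892) .no .no

def c27t1914 : Tr4 :=
  .br 1208 (.hor [.f 1208 1 5] []) .no (.red [.t 1080 2 4, .t 1216 4 2, .f 953 3 1] 136 136 []
  [(135, 136, [4]), (136, 136, []), (152, 136, [1])]) (.use 1913) .no .no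

def c27t1915 : Tr4 :=
  .br 1218 (.br 1072 (.br 1201 (.red [.f 1201 1 3, .f 1073 3 1] 151 136 [4, 1] [(151, 136, [4,
  1]), (167, 136, [4, 1, 1])]) .no .no (.br 1211 (.br 1203 (.red [.f 1203 1 3] 167 136 [4, 1, 1]
  [(167, 136, [4, 1, 1])]) .no .no (.use 1860) .no (.br 1067 (.red [.t 1066 3 1, .f 1074 1 3, .f
  1073 3 5] 151 136 [4, 1] [(150, 136, [4, 4, 1]), (151, 136, [4, 1])]) (.hor [.f 939 1 3, .f 1066
  3 5] [(134, 136, [4, 4])]) .no (.br 1344 (.br 1338 (.br 1064 (.use 1873) (.use 1872) .no (.use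
  1865) (.use 1866) .no) .no .no (.red [.t 1338 4 2] 167 136 [4, 1, 1] [(167, 136, [4, 1, 1])])
  .no .no) .no (.br 1338 (.br 936 (.use 1872) (.hor [.f 808 1 3, .f 936 3 5] [(118, 135, [2, 4])])
  .no (.use 1875) .no .no) .no .no (.red [.t 1338 4 2] 167 136 [4, 1, 1] [(167, 136, [4, 1, 1])])
  .no .no) (.red [.f 1208 3 1, .f 1208 1 5, .t 1072 1 3, .f 1081 1 3, .t 1216 1 4] 151 136 [4, 1]
  [(151, 136, [4, 1]), (152, 136, [1])]) (.red [.t 1208 3 1, .t 1072 1 3, .f 1081 1 5] 151 136 [4,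
  1] [(151, 136, [4, 1]), (168, 167, [3])]) .no) .no .no)) .no .no (.dom 151 136 [4, 1]) .no .no)
  (.red [.t 1081 4 1, .f 1072 1 5] 151 136 [4, 1] [(151, 136, [4, 1])]) .no) .no .no (.use 1881)
  .no .no) .no (.hor [.f 1218 3 5] []) .no .no .no

def c27t1916 : Tr4 :=
  .br 944 (.red [.f 944 1 3, .f 1072 3 5, .t 1216 4 2, .f 953 3 1] 136 136 [] [(135, 136, [4]),
  (136, 136, []), (152, 136, [1])]) (.use 1915) .no (.hor [.f 936 3 5] []) .no .no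

def c27t1917 : Tr4 :=
  .br 1208 (.hor [.f 1208 1 5] []) .no (.br 945 .no (.use 1725) .no (.use 1916) .no (.red [.t 1080
  2 4, .t 1216 4 2, .f 953 3 1] 136 136 [] [(135, 136, [4]), (136, 136, []), (152, 136, [1])]))
  (.use 1871) .no .no

def c27t1918 : Tr4 :=
  .br 1072 (.dom 151 136 [4, 1]) .no .no (.use 1898) .no .no

def c27t1919 : Tr4 :=
  .br 1208 (.hor [.f 1208 1 5] []) .no (.use 1916) (.use 1871) .no .no

def c27t1920 : Tr4 :=
  .br 1208 (.hor [.f 1208 1 5] []) .no (.red [.t 1080 2 4, .t 1216 4 2, .f 953 3 1] 136 136 []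
  [(135, 136, [4]), (136, 136, []), (152, 136, [1])]) (.use 1871) .no .no

def c27t1921 : Tr4 :=
  .br 1074 (.red [.f 1074 1 3, .f 946 3 1] 151 136 [4, 1] [(135, 136, [4]), (151, 136, [4, 1])])
  .no .no (.br 947 (.br 827 (.br 826 .no (.br 1219 (.br 1218 (.hor [.f 1218 1 5] []) .no (.br 945
  .no (.use 1725) .no (.br 944 (.use 1905) (.br 1224 (.br 1098 .no .no (.use 1908) .no (.use 1910)
  .no) .no (.use 1912) (.red [.f 1088 3 1, .f 1088 1 5, .t 952 1 3, .f 961 1 3, .t 1096 1 4] 136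
  136 [] [(136, 136, []), (137, 136, [3])]) (.red [.t 1088 3 1, .t 952 1 3, .f 961 1 5] 136 136 []
  [(136, 136, []), (153, 121, [1, 1])]) .no) .no (.hor [.f 936 3 5] []) .no .no) .no (.use 1914))
  .no .no .no) .no (.use 1917) (.red [.f 1083 3 1, .f 1082 1 5, .t 946 3 1, .f 954 1 3] 136 136 []
  [(135, 136, [4]), (136, 136, []), (152, 136, [1])]) .no (.red [.t 1082 1 3, .t 946 3 1, .f 954 1
  3, .f 1082 3 1] 136 136 [] [(135, 136, [4]), (136, 136, [])])) .no (.use 1744) .no (.br 945 .no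
  (.use 1835) .no (.br 1219 (.br 944 (.use 1905) (.br 1218 (.hor [.f 1218 1 5] []) .no (.br 1098
  .no .no (.br 1224 (.use 1908) .no (.br 1211 (.use 1911) .no .no (.br 1208 (.hor [.f 1208 1 5]
  []) .no (.use 1918) (.use 1892) .no .no) .no .no) (.red [.f 1088 3 1, .f 1088 1 5, .t 952 1 3,
  .f 961 1 3, .t 1096 1 4] 136 136 [] [(136, 136, []), (137, 136, [3])]) (.red [.t 1088 3 1, .t
  952 1 3, .f 961 1 5] 136 136 [] [(136, 136, []), (153, 121, [1, 1])]) .no) .no (.red [.f 825 5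
  3, .t 962 1 3, .t 826 3 1, .f 834 1 3] 121 136 [2, 3] [(120, 136, [2]), (121, 136, [2, 3]),
  (137, 121, [1])]) .no) .no .no .no) .no (.hor [.f 936 3 5] []) .no .no) .no (.use 1919) (.red
  [.f 1083 3 1, .f 1082 1 5, .t 946 3 1, .f 954 1 3] 136 136 [] [(135, 136, [4]), (136, 136, []),
  (152, 136, [1])]) .no (.red [.t 1082 1 3, .t 946 3 1, .f 954 1 3, .f 1082 3 1] 136 136 [] [(135,
  136, [4]), (136, 136, [])])) .no (.br 1219 (.use 1914) .no (.use 1920) (.red [.f 1083 3 1, .f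
  1082 1 5, .t 946 3 1, .f 954 1 3] 136 136 [] [(135, 136, [4]), (136, 136, []), (152, 136, [1])])
  .no (.red [.t 1082 1 3, .t 946 3 1, .f 954 1 3, .f 1082 3 1] 136 136 [] [(135, 136, [4]), (136,
  136, [])])))) (.con 136 [2, 4, 1, 3]) .no (.con 136 [2, 4, 1, 3]) .no (.con 136 [2, 4, 1, 3]))
  (.use 1684) (.hor [.f 946 3 5] []) (.use 1902) .no .no) (.use 1903) .no

def c27t1922 : Tr4 :=
  .br 954 .no (.br 947 (.con 136 [2, 4, 1, 3]) (.con 136 [2, 4, 1, 3]) (.use 1855) (.con 136 [2,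
  4, 1, 3]) .no (.con 136 [2, 4, 1, 3])) .no (.use 1686) (.red [.t 1090 2 4, .f 953 3 5] 136 136
  [] [(136, 136, [])]) .no

def c27t1923 : Tr4 :=
  .br 835 .no (.br 834 .no (.hor [.f 706 1 5] []) .no (.br 827 (.use 1904) (.red [.f 699 1 3, .f
  826 3 5, .t 970 2 4] 121 136 [2, 3] [(104, 105, [4]), (121, 136, [2, 3])]) .no (.use 1722) .no
  .no) .no (.br 954 .no (.use 1683) .no (.use 1921) (.red [.t 1090 2 4, .f 953 3 5] 136 136 []
  [(136, 136, [])]) .no)) (.red [.f 835 3 1, .f 842 1 5] 121 136 [2, 3] [(121, 136, [2, 3])]) (.br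
  1074 (.red [.f 1074 1 3, .f 1073 3 5] 151 136 [4, 1] [(151, 136, [4, 1])]) (.br 834 .no (.br 833
  .no (.hor [.f 705 1 5] []) (.br 826 (.br 947 (.con 136 [2, 4, 1, 3]) (.con 136 [2, 4, 1, 4])
  (.br 945 .no (.use 1764) .no (.br 944 (.con 136 [4, 4]) (.br 825 .no (.use 1539) .no (.dom 119
  136 [2, 4]) .no .no) .no (.hor [.f 936 3 5] []) .no .no) .no (.br 825 .no (.use 1539) .no (.red
  [.t 1080 2 4, .f 945 1 5, .t 825 4 1] 119 136 [2, 4] [(119, 136, [2, 4]), (135, 119, [1])]) .no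
  .no)) (.con 136 [2, 4, 1, 4]) .no .no) (.red [.f 698 1 3] 104 136 [2, 2] [(104, 136, [2, 2])])
  .no (.br 699 .no (.br 698 .no (.hor [.f 570 1 5] []) .no (.red [.f 690 3 1, .f 698 1 3] 104 136
  [2, 2] [(103, 136, [2, 2, 4]), (104, 136, [2, 2])]) .no (.use 1685)) (.red [.f 699 3 1, .f 706 1
  5] 104 136 [2, 2] [(104, 136, [2, 2])]) (.br 698 .no (.br 945 .no (.con 136 [2, 4, 2, 2]) .no
  (.br 817 .no (.con 136 [2, 4, 2, 2]) (.hor [.f 817 3 5] []) (.con 136 [2, 4, 2, 2]) .no (.con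
  136 [2, 4, 2, 2])) .no (.br 817 .no (.con 136 [2, 4, 2, 2]) (.hor [.f 817 3 5] []) (.con 136 [2,
  4, 2, 2]) .no (.con 136 [2, 4, 2, 2]))) .no (.hor [.f 690 3 5] []) .no (.use 1685)) .no (.red
  [.t 834 2 4] 104 136 [2, 2] [(104, 136, [2, 2])])) .no (.br 954 .no .no .no .no (.red [.t 1090 2
  4, .f 953 3 5] 136 136 [] [(136, 136, [])]) .no)) (.con 136 [2, 2]) .no .no) .no (.hor [.f 826 3
  5] []) .no (.br 954 .no (.red [.t 953 3 2, .f 826 3 5, .t 970 2 4] 121 136 [2, 3] [(120, 104,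
  [1]), (121, 136, [2, 3])]) .no .no (.red [.t 1090 2 4, .f 953 3 5] 136 136 [] [(136, 136, [])])
  .no)) .no (.use 1922) (.use 1903) .no) .no (.red [.t 970 2 4] 121 136 [2, 3] [(121, 136, [2,
  3])])

def c27t1924 : Tr4 :=
  .br 955 .no (.use 1760) .no .no .no (.red [.t 1090 2 4, .f 953 3 5] 136 136 [] [(136, 136, [])])

def c27t1925 : Tr4 :=
  .br 945 .no .no .no (.br 944 (.con 136 [4, 4]) (.dom 119 136 [2, 4]) .no (.hor [.f 936 3 5] [])
  .no .no) .no (.red [.t 1080 2 4, .f 945 1 5, .t 825 4 1] 119 136 [2, 4] [(119, 136, [2, 4]),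
  (135, 119, [1])])

def c27t1926 : Tr4 :=
  .br 825 .no (.hor [.f 696 1 5] []) (.red [.f 825 3 1, .f 825 1 5, .t 1073 3 2, .f 946 3 5, .t
  1090 2 4, .t 961 2 4] 136 136 [] [(135, 119, [1]), (136, 136, [])]) (.use 1925) .no .no

def c27t1927 : Tr4 :=
  .br 947 (.hor [.f 946 1 5] []) (.use 1924) (.br 826 (.use 1926) (.con 136 [4, 2, 3, 1]) (.con
  136 [4, 2, 3, 1]) (.con 136 [4, 2, 3, 1]) (.con 136 [4, 2, 3, 1]) (.con 136 [4, 2, 3, 1])) (.use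
  1763) .no .no

def c27t1928 : Tr4 :=
  .br 947 (.use 1693) (.use 1688) (.use 1855) (.use 1689) .no (.use 1694)

def c27t1929 : Tr4 :=
  .br 827 (.br 826 .no (.use 1917) .no (.use 1744) .no (.br 945 .no (.use 1835) .no (.use 1919)
  .no (.use 1920))) (.con 136 [2, 4, 1, 3]) .no (.con 136 [2, 4, 1, 3]) .no (.con 136 [2, 4, 1,
  3])

def c27t1930 : Tr4 :=
  .br 1219 (.hor [.f 1218 1 5] []) .no (.use 1929) (.red [.f 1083 3 1, .f 1082 1 5, .t 946 3 1, .f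
  954 1 3] 136 136 [] [(135, 136, [4]), (136, 136, []), (152, 136, [1])]) .no .no

def c27t1931 : Tr4 :=
  .br 947 (.red [.f 1083 3 1, .f 1082 1 5, .t 946 3 1, .f 954 1 3] 136 136 [] [(135, 136, [4]),
  (136, 136, []), (152, 136, [1])]) (.use 1700) .no (.use 1901) .no .no

def c27t1932 : Tr4 :=
  .br 954 .no (.br 947 (.use 1697) (.use 1690) (.use 1854) (.use 1691) .no .no) .no .no (.red [.t
  1090 2 4, .f 953 3 5] 136 136 [] [(136, 136, [])]) .no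

def c27t1933 : Tr4 :=
  .br 947 (.use 1697) (.use 1690) (.use 1617) (.use 1691) .no (.use 1698)

def c27t1934 : Tr4 :=
  .br 707 .no (.hor [.f 578 1 5] []) (.con 136 [2, 2, 2, 3]) (.red [.t 698 1 3, .f 825 3 5] 104
  136 [2, 2] [(104, 136, [2, 2])]) .no .no

def c27l70 : List Tr4 :=
  [c27t1903, c27t1904, c27t1905, c27t1906, c27t1907, c27t1908, c27t1909, c27t1910, c27t1911,
  c27t1912, c27t1913, c27t1914, c27t1915, c27t1916, c27t1917, c27t1918, c27t1919, c27t1920,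
  c27t1921, c27t1922, c27t1923, c27t1924, c27t1925, c27t1926, c27t1927, c27t1928, c27t1929,
  c27t1930, c27t1931, c27t1932, c27t1933, c27t1934]

theorem c27k70 : chkLF ⟨4, 1, 0, true, -8⟩ false 7 c27N 1903 c27l70 = true := by decide +kernel

def c27t1935 : Tr4 :=
  .br 705 .no (.hor [.f 577 1 5] []) (.use 1934) (.red [.f 697 3 1, .f 696 1 5] 104 136 [2, 2]
  [(104, 136, [2, 2])]) .no (.red [.t 824 2 3] 104 136 [2, 2] [(104, 136, [2, 2])])

def c27t1936 : Tr4 :=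
  .br 706 .no (.use 1935) .no .no (.red [.f 706 5 1, .f 698 1 3] 104 136 [2, 2] [(104, 136, [2,
  2])]) (.red [.t 825 3 2, .t 945 2 3, .f 826 1 5] 104 136 [2, 2] [(104, 136, [2, 2]), (119, 120,
  [4])])

def c27t1937 : Tr4 :=
  .br 954 .no (.use 1699) .no .no (.red [.t 1090 2 4, .f 953 3 5] 136 136 [] [(136, 136, [])]) .no

def c27t1938 : Tr4 :=
  .br 1211 (.con 136 [4, 1, 1]) .no (.con 136 [4, 1, 1]) (.use 1892) .no .no

def c27t1939 : Tr4 :=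
  .br 706 .no (.use 1935) (.br 705 .no (.br 840 .no (.br 704 .no (.hor [.f 576 1 5] []) .no .no
  .no .no) (.red [.f 840 3 1] 122 136 [2, 3, 3] [(122, 136, [2, 3, 3])]) .no .no .no) (.hor [.f
  705 3 5] []) (.red [.f 697 3 1, .f 696 1 5] 104 136 [2, 2] [(104, 136, [2, 2])]) .no (.red [.t
  824 2 3, .t 705 1 3] 105 136 [2, 2, 3] [(104, 136, [2, 2]), (105, 136, [2, 2, 3])])) .no (.red
  [.f 706 5 1, .f 698 1 3] 104 136 [2, 2] [(104, 136, [2, 2])]) (.red [.t 825 3 2, .t 945 2 3, .f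
  826 1 5] 104 136 [2, 2] [(104, 136, [2, 2]), (119, 120, [4])])

def c27t1940 : Tr4 :=
  .br 827 (.br 825 .no (.hor [.f 696 1 5] []) .no .no (.use 1835) .no) (.con 136 [2, 4, 1, 3]) .no
  (.con 136 [2, 4, 1, 3]) .no (.con 136 [2, 4, 1, 3])

def c27t1941 : Tr4 :=
  .br 842 .no (.use 1936) (.red [.f 842 3 1] 122 136 [2, 3, 3] [(122, 136, [2, 3, 3])]) .no (.red
  [.f 834 5 3, .f 835 3 1, .f 827 1 3] 121 136 [2, 3] [(120, 136, [2]), (121, 136, [2, 3])]) (.use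
  1939)

def c27t1942 : Tr4 :=
  .br 1346 (.con 136 [1, 1, 3, 2, 4, 2]) (.hor [.f 1218 1 5] []) (.con 136 [1, 1, 3, 2, 4, 2])
  (.con 136 [1, 1, 3, 2, 4, 2]) .no (.con 136 [1, 1, 3, 2, 4, 2])

def c27t1943 : Tr4 :=
  .br 947 (.br 1219 (.use 1942) .no (.use 1916) .no .no (.red [.t 1082 1 3, .t 946 3 1, .f 954 1
  3, .f 1082 3 1] 136 136 [] [(135, 136, [4]), (136, 136, [])])) (.use 1700) .no (.use 1901) .no
  .no

def c27t1944 : Tr4 :=
  .br 1072 (.br 945 .no (.br 825 .no (.hor [.f 696 1 5] []) (.br 955 .no (.br 826 (.hor [.f 826 1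
  5] []) (.br 946 .no (.con 136 [4, 2, 2, 3]) (.use 1941) (.con 136 [4, 2, 2, 3]) (.con 136 [4, 2,
  2, 3]) .no) .no (.use 1744) .no .no) .no (.use 1854) .no (.red [.t 1090 2 4, .f 953 3 5] 136 136
  [] [(136, 136, [])])) .no (.br 955 .no (.use 1835) .no (.use 1854) .no (.red [.t 1090 2 4, .f
  953 3 5] 136 136 [] [(136, 136, [])])) .no) .no (.br 1211 (.br 955 .no (.br 826 (.hor [.f 826 1
  5] []) (.br 946 .no (.con 136 [4, 2, 3, 3]) (.use 1943) (.con 136 [4, 2, 3, 3]) (.con 136 [4, 2,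
  3, 3]) .no) .no (.use 1744) .no (.br 946 .no (.con 136 [4, 2, 3, 3]) (.use 1943) (.con 136 [4,
  2, 3, 3]) (.con 136 [4, 2, 3, 3]) .no)) .no (.use 1854) .no (.red [.t 1090 2 4, .f 953 3 5] 136
  136 [] [(136, 136, [])])) .no (.br 955 .no (.br 826 (.hor [.f 826 1 5] []) (.br 946 .no (.con
  136 [4, 2, 3, 3]) (.use 1931) (.con 136 [4, 2, 3, 3]) (.con 136 [4, 2, 3, 3]) .no) .no (.use
  1744) .no (.br 946 .no (.con 136 [4, 2, 3, 3]) (.use 1931) (.con 136 [4, 2, 3, 3]) (.con 136 [4,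
  2, 3, 3]) .no)) .no (.use 1854) .no (.red [.t 1090 2 4, .f 953 3 5] 136 136 [] [(136, 136,
  [])])) (.dom 151 136 [4, 1]) .no .no) (.use 1932) (.red [.t 1080 2 4, .t 1216 4 2, .f 953 3 1]
  136 136 [] [(135, 136, [4]), (136, 136, []), (152, 136, [1])])) (.red [.f 944 1 3, .f 1072 3 5,
  .t 1216 4 2, .f 953 3 1] 136 136 [] [(135, 136, [4]), (136, 136, []), (152, 136, [1])]) .no (.br
  945 .no (.br 842 .no (.br 954 .no (.use 1699) .no (.br 947 (.br 827 (.br 825 .no (.hor [.f 696 1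
  5] []) (.br 826 .no (.use 1936) .no (.hor [.f 818 3 1, .f 817 1 5] [(119, 104, [4, 1])]) .no
  .no) .no (.use 1835) .no) (.con 136 [2, 4, 1, 3]) .no (.con 136 [2, 4, 1, 3]) .no (.con 136 [2,
  4, 1, 3])) (.use 1700) (.use 1745) (.use 1679) .no .no) (.red [.t 1090 2 4, .f 953 3 5] 136 136
  [] [(136, 136, [])]) .no) (.red [.f 842 3 1] 122 136 [2, 3, 3] [(122, 136, [2, 3, 3])]) .no
  (.red [.f 834 5 3, .f 835 3 1] 121 136 [2, 3] [(121, 136, [2, 3])]) (.br 954 .no (.use 1699) .no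
  (.br 947 (.br 833 .no (.use 1940) .no (.br 826 .no (.br 827 (.use 1939) (.con 136 [2, 4, 1, 3])
  .no (.con 136 [2, 4, 1, 3]) .no .no) .no (.hor [.f 818 3 1, .f 817 1 5] [(119, 136, [4, 2])])
  (.con 136 [2, 4, 1, 3]) .no) .no .no) (.use 1700) (.use 1745) (.use 1679) .no .no) (.red [.t
  1090 2 4, .f 953 3 5] 136 136 [] [(136, 136, [])]) .no)) .no (.br 944 .no (.br 954 .no (.use
  1699) .no (.br 947 (.br 1219 (.use 1942) .no (.use 1915) (.red [.f 1083 3 1, .f 1082 1 5, .t 946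
  3 1, .f 954 1 3] 136 136 [] [(135, 136, [4]), (136, 136, []), (152, 136, [1])]) .no (.red [.t
  1082 1 3, .t 946 3 1, .f 954 1 3, .f 1082 3 1] 136 136 [] [(135, 136, [4]), (136, 136, [])]))
  (.use 1700) (.use 1745) (.use 1679) .no .no) (.red [.t 1090 2 4, .f 953 3 5] 136 136 [] [(136,
  136, [])]) .no) .no (.hor [.f 936 3 5] []) .no .no) (.use 1937) (.red [.t 1080 2 4, .t 1216 4 2,
  .f 953 3 1] 136 136 [] [(135, 136, [4]), (136, 136, []), (152, 136, [1])])) .no .no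

def c27t1945 : Tr4 :=
  .br 955 .no (.red [.t 962 1 3, .f 834 5 1, .f 827 1 3, .f 955 3 1, .f 963 1 3] 136 136 [] [(120,
  136, [2]), (136, 136, [])]) .no (.use 1855) .no (.red [.t 962 1 3, .t 1098 4 2, .t 1090 2 4, .f
  953 3 5] 136 136 [] [(136, 136, [])])

def c27t1946 : Tr4 :=
  .br 1074 (.red [.f 1074 1 3, .f 1073 3 5] 151 136 [4, 1] [(151, 136, [4, 1])]) (.use 1927) .no
  (.br 835 .no (.br 834 .no (.hor [.f 706 1 5] []) (.use 514) (.br 955 .no (.use 1904) .no (.use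
  1680) .no (.red [.t 1090 2 4, .f 826 3 1] 136 136 [] [(120, 136, [2]), (136, 136, [])])) .no
  (.br 1098 (.br 954 .no (.use 1928) .no (.br 947 (.br 1218 (.use 1930) .no .no .no (.red [.t 1082
  1 3, .t 946 3 1, .f 954 1 3, .f 1082 3 1] 136 136 [] [(135, 136, [4]), (136, 136, [])]) .no)
  (.use 1684) (.use 1855) (.use 1902) .no .no) (.red [.t 1090 2 4, .f 953 3 5] 136 136 [] [(136,
  136, [])]) .no) .no (.hor [.f 970 3 1, .f 969 1 5] [(138, 122, [1])]) .no (.br 954 .no (.use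
  1928) .no (.br 947 (.br 1219 (.br 827 (.br 826 .no (.br 945 .no (.use 1725) .no (.br 944 (.use
  1905) (.br 1218 (.use 1930) .no (.br 1224 (.use 1910) .no (.use 1912) (.red [.f 1088 3 1, .f
  1088 1 5, .t 952 1 3, .f 961 1 3, .t 1096 1 4] 136 136 [] [(136, 136, []), (137, 136, [3])])
  (.red [.t 1088 3 1, .t 952 1 3, .f 961 1 5] 136 136 [] [(136, 136, []), (153, 121, [1, 1])])
  .no) .no .no .no) .no (.hor [.f 936 3 5] []) .no .no) .no (.use 1914)) .no (.use 1744) .no (.red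
  [.t 962 1 3, .f 825 5 3, .t 826 3 1, .f 955 3 1, .f 963 1 3] 136 136 [] [(120, 136, [2]), (136,
  136, [])])) (.con 136 [2, 4, 1, 3]) .no (.con 136 [2, 4, 1, 3]) .no (.con 136 [2, 4, 1, 3])) .no
  (.use 1929) (.red [.f 1083 3 1, .f 1082 1 5, .t 946 3 1, .f 954 1 3] 136 136 [] [(135, 136,
  [4]), (136, 136, []), (152, 136, [1])]) .no (.red [.t 1082 1 3, .t 946 3 1, .f 954 1 3, .f 1082
  3 1] 136 136 [] [(135, 136, [4]), (136, 136, [])])) (.use 1684) (.use 1855) (.use 1902) .no .no)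
  (.red [.t 962 1 3, .t 1098 4 2, .t 1090 2 4, .f 953 3 5] 136 136 [] [(136, 136, [])]) .no) .no))
  (.red [.f 835 3 1] 121 136 [2, 3] [(121, 136, [2, 3])]) (.use 1922) .no (.br 1098 (.br 1208
  (.hor [.f 1208 1 5] []) .no (.use 1944) (.use 1938) .no .no) .no (.hor [.f 970 3 1, .f 969 1 5]
  [(138, 122, [1])]) .no (.use 1945) .no)) (.use 1903) .no

def c27t1947 : Tr4 :=
  .br 1065 (.hor [.f 1064 1 5] []) .no .no (.br 1202 (.br 1201 (.hor [.f 1201 1 5] []) .no .no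
  (.con 136 [4, 4, 1, 1]) .no (.red [.f 1200 5 3, .f 1073 3 1, .f 1081 1 3] 151 136 [4, 1] [(151,
  136, [4, 1]), (152, 136, [1])])) .no .no (.red [.f 1066 3 1, .f 1074 1 3] 151 136 [4, 1] [(150,
  136, [4, 4, 1]), (151, 136, [4, 1])]) (.br 1067 (.red [.t 1066 3 1, .f 1074 1 3, .f 1073 3 5]
  151 136 [4, 1] [(150, 136, [4, 4, 1]), (151, 136, [4, 1])]) (.con 136 [4, 4, 4, 1]) .no (.con
  136 [4, 4, 4, 1]) .no .no) (.red [.f 944 1 3, .f 944 3 1, .t 1081 4 1] 151 136 [4, 1] [(151,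
  136, [4, 1])])) .no .no

def c27t1948 : Tr4 :=
  .br 1201 (.hor [.f 1200 1 5] []) .no .no (.use 1867) (.red [.f 944 1 3, .f 944 3 1, .t 1081 4 1]
  151 136 [4, 1] [(151, 136, [4, 1])]) .no

def c27t1949 : Tr4 :=
  .br 1200 (.use 1948) .no .no (.red [.f 944 1 3, .f 944 3 1, .t 944 1 4, .f 1064 3 1] 150 136 [4,
  4, 1] [(134, 136, [4, 4]), (150, 136, [4, 4, 1])]) (.red [.f 1200 5 3, .f 1073 3 1, .f 1081 1 3]
  151 136 [4, 1] [(151, 136, [4, 1]), (152, 136, [1])]) .no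

def c27t1950 : Tr4 :=
  .br 1064 (.use 1947) .no .no (.hor [.f 928 3 1, .f 936 1 3, .f 936 3 5] [(133, 136, [4, 4, 4]),
  (134, 136, [4, 4])]) (.use 1949) .no

def c27t1951 : Tr4 :=
  .br 946 .no (.con 136 [4, 2, 3, 1]) (.br 947 (.br 825 .no (.hor [.f 696 1 5] []) (.hor [.f 825 3
  5] []) (.br 945 .no .no .no (.br 816 .no (.hor [.f 688 1 3, .f 816 3 5] [(103, 120, [2, 4])])
  .no (.br 936 (.hor [.f 936 1 3, .f 936 3 5] [(134, 136, [4, 4])]) .no .no (.use 1950) .no .no)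
  .no .no) .no .no) .no .no) (.use 1684) .no (.use 1678) .no .no) (.con 136 [4, 2, 3, 1]) (.con
  136 [4, 2, 3, 1]) (.con 136 [4, 2, 3, 1])

def c27t1952 : Tr4 :=
  .br 945 .no (.use 1725) .no (.br 1064 (.use 1947) (.hor [.f 936 1 3, .f 936 3 5] [(134, 136, [4,
  4])]) .no (.br 936 .no (.br 825 .no (.hor [.f 696 1 5] []) .no (.br 816 .no (.hor [.f 688 1 3,
  .f 816 3 5] [(103, 104, [4])]) .no .no .no .no) .no .no) .no (.use 1950) .no .no) (.use 1949)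
  .no) .no .no

def c27t1953 : Tr4 :=
  .br 1200 (.use 1948) .no .no (.br 1328 (.red [.f 1328 1 3, .t 1328 3 2] 167 136 [4, 1, 1] [(167,
  136, [4, 1, 1]), (183, 136, [4, 1, 1, 1])]) .no .no (.red [.f 1192 3 1, .f 1200 1 5, .f 1200 5
  3, .f 1073 3 1] 151 136 [4, 1] [(151, 136, [4, 1]), (166, 150, [1])]) .no .no) .no .no

def c27t1954 : Tr4 :=
  .br 1202 (.hor [.f 1201 1 5] []) .no .no (.red [.f 1066 3 1, .f 1074 1 3] 151 136 [4, 1] [(150,
  136, [4, 1, 4]), (151, 136, [4, 1])]) (.br 1336 (.use 1953) .no (.con 136 [1, 1, 3, 2, 2, 4])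
  (.red [.t 1328 3 2] 167 136 [4, 1, 1] [(167, 136, [4, 1, 1])]) (.red [.f 944 1 3, .f 944 3 1, .f
  1208 5 1, .f 1201 1 3] 167 136 [4, 1, 1] [(167, 136, [4, 1, 1])]) .no) .no

def c27t1955 : Tr4 :=
  .br 1224 (.br 1202 (.hor [.f 1201 1 5] []) .no .no (.red [.f 1066 3 1, .f 1074 1 3] 151 136 [4,
  1] [(150, 136, [4, 1, 4]), (151, 136, [4, 1])]) (.br 1336 (.use 1953) .no (.con 136 [1, 1, 3, 2,
  2, 4]) (.red [.t 1328 3 2] 167 136 [4, 1, 1] [(167, 136, [4, 1, 1])]) (.red [.f 944 1 3, .f 944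
  3 1, .f 1208 5 1, .f 1201 1 3] 167 136 [4, 1, 1] [(167, 136, [4, 1, 1])]) .no) .no) .no (.use
  1954) (.red [.f 1088 3 1, .f 1088 1 5, .t 952 1 3, .f 961 1 3, .t 1096 1 4] 136 136 [] [(136,
  136, []), (137, 136, [3])]) (.red [.t 1088 3 1, .t 952 1 3, .f 961 1 5] 136 136 [] [(136, 136,
  []), (153, 136, [3, 1])]) .no

def c27t1956 : Tr4 :=
  .br 1218 (.hor [.f 1218 1 5] []) .no (.br 1064 (.use 1947) (.hor [.f 936 1 3, .f 936 3 5] [(134,
  136, [4, 4])]) .no (.br 1201 (.use 1955) .no .no (.use 1865) (.red [.f 944 1 3, .f 944 3 1, .t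
  1081 4 1] 151 136 [4, 1] [(151, 136, [4, 1])]) (.red [.f 1200 5 3, .f 1073 3 1, .f 1081 1 3] 151
  136 [4, 1] [(151, 136, [4, 1]), (152, 136, [1])])) (.use 1949) .no) .no .no .no

def c27t1957 : Tr4 :=
  .br 1202 (.hor [.f 1201 1 5] []) .no .no (.red [.f 1066 3 1, .f 1074 1 3] 151 136 [4, 1] [(150,
  136, [4, 1, 4]), (151, 136, [4, 1])]) (.br 1336 (.use 1953) .no (.con 136 [1, 1, 3, 2, 2, 4])
  (.red [.t 1328 3 2] 167 136 [4, 1, 1] [(167, 136, [4, 1, 1])]) (.red [.f 944 1 3, .f 944 3 1, .f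
  1208 5 1, .f 1201 1 3] 167 136 [4, 1, 1] [(167, 136, [4, 1, 1])]) .no) .no

def c27t1958 : Tr4 :=
  .br 843 .no (.red [.f 707 1 3] 105 136 [2, 2, 3] [(105, 136, [2, 2, 3])]) (.br 840 .no (.br 841
  .no (.hor [.f 712 1 5] []) (.con 136 [2, 2, 3, 3]) .no .no .no) (.red [.f 840 3 1, .f 832 1 3]
  121 136 [2, 3] [(121, 136, [2, 3]), (122, 136, [2, 3, 3])]) .no (.br 1219 (.use 1956) .no (.br
  1099 .no .no (.br 1098 (.br 1064 (.use 1947) (.hor [.f 936 1 3, .f 936 3 5] [(134, 136, [4,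
  4])]) .no (.br 1201 (.br 1224 (.br 1225 (.hor [.f 1224 1 5] []) .no (.br 1105 .no (.red [.f 969
  1 3, .f 968 3 5, .f 840 5 1, .f 832 1 3, .f 960 3 1, .t 1096 2 3] 121 136 [2, 3] [(121, 136, [2,
  3]), (137, 136, [3])]) (.br 977 .no (.red [.t 976 4 2, .f 832 1 3] 121 136 [2, 3] [(121, 136,
  [2, 3]), (122, 136, [2, 3, 3])]) (.hor [.f 977 3 1, .f 969 1 3, .f 968 3 5] [(138, 106, [1, 1]),
  (139, 106, [1, 1, 3])]) .no (.br 1106 (.hor [.f 1098 1 3, .f 1098 3 5] [(154, 122, [1, 1])]) .no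
  (.hor [.f 1105 3 5] []) .no .no .no) .no) .no (.hor [.t 1225 3 2, .f 1098 3 5] [(154, 122, [1,
  1])]) (.red [.t 968 3 1, .f 840 5 1, .f 832 1 3, .f 960 3 1, .f 968 1 3] 121 136 [2, 3] [(121,
  136, [2, 3]), (137, 136, [3])])) .no .no .no) .no (.use 1957) (.red [.f 1088 3 1, .f 1088 1 5,
  .t 952 1 3, .f 961 1 3, .t 1096 1 4] 136 136 [] [(136, 136, []), (137, 136, [3])]) (.red [.t
  1088 3 1, .t 952 1 3, .f 961 1 5] 136 136 [] [(136, 136, []), (153, 121, [1, 1])]) .no) .no .no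
  (.use 1865) (.red [.f 944 1 3, .f 944 3 1, .t 1081 4 1] 151 136 [4, 1] [(151, 136, [4, 1])])
  (.red [.f 1200 5 3, .f 1073 3 1, .f 1081 1 3] 151 136 [4, 1] [(151, 136, [4, 1]), (152, 136,
  [1])])) (.use 1949) .no) .no (.hor [.f 1098 3 5] []) .no .no .no) .no .no (.red [.f 825 5 3, .t
  962 1 3, .t 826 3 1, .f 834 1 3] 121 136 [2, 3] [(120, 136, [2]), (121, 136, [2, 3]), (137, 121,
  [1])])) (.red [.f 1083 3 1, .f 1082 1 5, .t 946 3 1, .f 954 1 3] 136 136 [] [(135, 136, [4]),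
  (136, 136, []), (152, 136, [1])]) .no (.red [.t 1082 1 3, .t 946 3 1, .f 954 1 3, .f 1082 3 1]
  136 136 [] [(135, 136, [4]), (136, 136, [])])) .no) .no .no .no

def c27l71 : List Tr4 :=
  [c27t1935, c27t1936, c27t1937, c27t1938, c27t1939, c27t1940, c27t1941, c27t1942, c27t1943,
  c27t1944, c27t1945, c27t1946, c27t1947, c27t1948, c27t1949, c27t1950, c27t1951, c27t1952,
  c27t1953, c27t1954, c27t1955, c27t1956, c27t1957, c27t1958]

theorem c27k71 : chkLF ⟨4, 1, 0, true, -8⟩ false 7 c27N 1935 c27l71 = true := by decide +kernel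

def c27t1959 : Tr4 :=
  .br 954 .no (.br 947 (.con 136 [2, 4, 1, 3]) (.con 136 [2, 4, 1, 4]) (.use 1589) (.con 136 [2,
  4, 1, 4]) .no (.con 136 [2, 4, 1, 4])) .no (.use 1686) (.red [.t 1090 2 4, .f 953 3 5] 136 136
  [] [(136, 136, [])]) .no

def c27t1960 : Tr4 :=
  .br 1064 (.use 1947) (.hor [.f 936 1 3, .f 936 3 5] [(134, 136, [4, 4])]) .no (.br 1201 (.br
  1224 (.br 1225 (.hor [.f 1224 1 5] []) .no (.br 1105 .no (.hor [.f 969 1 3, .f 968 3 5] [(138,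
  122, [1])]) (.br 1106 (.hor [.f 1098 1 3, .f 1225 3 5] [(154, 122, [1, 1])]) .no (.hor [.f 1105
  3 5] []) .no (.con 136 [3, 3, 1, 4, 2, 2]) .no) .no (.hor [.t 1225 3 2, .f 970 3 1, .f 969 1 5]
  [(138, 122, [1]), (154, 122, [1, 1])]) (.hor [.t 968 3 1, .f 1097 3 1, .f 1097 1 5] [(138, 122,
  [1]), (154, 122, [1, 1])])) .no .no .no) .no (.use 1957) (.red [.f 1088 3 1, .f 1088 1 5, .t 952
  1 3, .f 961 1 3, .t 1096 1 4] 136 136 [] [(136, 136, []), (137, 136, [3])]) (.red [.t 1088 3 1,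
  .t 952 1 3, .f 961 1 5] 136 136 [] [(136, 136, []), (153, 121, [1, 1])]) .no) .no .no (.use
  1865) (.red [.f 944 1 3, .f 944 3 1, .t 1081 4 1] 151 136 [4, 1] [(151, 136, [4, 1])]) (.red [.f
  1200 5 3, .f 1073 3 1, .f 1081 1 3] 151 136 [4, 1] [(151, 136, [4, 1]), (152, 136, [1])])) (.use
  1949) .no

def c27t1961 : Tr4 :=
  .br 1219 (.use 1956) .no (.use 1960) (.red [.f 1083 3 1, .f 1082 1 5, .t 946 3 1, .f 954 1 3]
  136 136 [] [(135, 136, [4]), (136, 136, []), (152, 136, [1])]) .no (.red [.t 1082 1 3, .t 946 3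
  1, .f 954 1 3, .f 1082 3 1] 136 136 [] [(135, 136, [4]), (136, 136, [])])

def c27t1962 : Tr4 :=
  .br 1098 (.br 945 .no (.use 1835) .no (.br 946 .no (.con 136 [4, 2, 3, 1]) (.br 947 (.use 1961)
  (.use 1684) .no (.use 1678) .no .no) (.con 136 [4, 2, 3, 1]) (.con 136 [4, 2, 3, 1]) .no) (.con
  136 [4, 2, 3, 1]) .no) .no (.hor [.f 970 3 1, .f 969 1 5] [(138, 122, [1])]) .no (.red [.t 962 1
  3, .f 825 5 3, .t 826 3 1, .f 955 3 1, .f 963 1 3] 136 136 [] [(120, 136, [2]), (136, 136, [])])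
  .no

def c27t1963 : Tr4 :=
  .br 945 .no (.use 1835) .no (.br 946 .no (.con 136 [4, 2, 3, 1]) (.br 947 (.use 1961) (.use
  1700) .no (.use 1678) .no .no) (.con 136 [4, 2, 3, 1]) (.con 136 [4, 2, 3, 1]) .no) (.con 136
  [4, 2, 3, 1]) .no

def c27t1964 : Tr4 :=
  .br 970 (.hor [.f 969 1 5] []) (.br 835 .no (.br 834 .no (.hor [.f 706 1 5] []) .no (.br 827
  (.use 1951) (.red [.f 699 1 3, .f 826 3 5, .t 970 2 4] 121 136 [2, 3] [(104, 105, [4]), (121,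
  136, [2, 3])]) .no (.use 1722) .no .no) .no (.br 954 .no (.use 1683) .no (.br 947 (.br 827 (.br
  826 .no (.use 1952) .no (.use 1744) .no (.br 945 .no (.use 1835) .no (.use 1958) .no .no)) (.con
  136 [2, 4, 1, 3]) .no (.con 136 [2, 4, 1, 3]) .no (.con 136 [2, 4, 1, 3])) (.use 1684) (.use
  1589) (.use 1678) .no .no) (.red [.t 1090 2 4, .f 953 3 5] 136 136 [] [(136, 136, [])]) .no))
  (.red [.f 835 3 1, .f 842 1 5] 121 136 [2, 3] [(121, 136, [2, 3])]) (.use 1959) .no (.red [.t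
  970 2 4] 121 136 [2, 3] [(121, 136, [2, 3])])) (.br 835 .no (.br 834 .no (.hor [.f 706 1 5] [])
  (.use 514) (.br 955 .no (.use 1951) .no (.use 1589) .no (.red [.t 1090 2 4, .f 826 3 1] 136 136
  [] [(120, 136, [2]), (136, 136, [])])) .no (.br 955 .no (.br 826 (.hor [.f 826 1 5] []) (.br 946
  .no (.con 136 [4, 2, 3, 3]) (.br 947 (.use 1952) (.use 1684) .no (.use 1678) .no .no) (.con 136
  [4, 2, 3, 3]) (.con 136 [4, 2, 3, 3]) (.con 136 [4, 2, 3, 3])) .no (.use 1744) .no (.use 1962))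
  .no (.use 1589) .no (.red [.t 1090 2 4, .f 953 3 5] 136 136 [] [(136, 136, [])]))) (.red [.f 835
  3 1] 121 136 [2, 3] [(121, 136, [2, 3])]) (.use 1959) .no (.br 955 .no (.br 1098 (.br 826 (.hor
  [.f 826 1 5] []) (.br 946 .no (.con 136 [4, 2, 3, 3]) (.br 947 (.br 1218 (.br 1219 (.hor [.f
  1218 1 5] []) .no (.br 945 .no (.br 825 .no (.hor [.f 696 1 5] []) (.use 1941) .no .no .no) .no
  (.use 1960) .no .no) (.red [.f 1083 3 1, .f 1082 1 5, .t 946 3 1, .f 954 1 3] 136 136 [] [(135,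
  136, [4]), (136, 136, []), (152, 136, [1])]) .no .no) .no .no .no (.red [.t 1082 1 3, .t 946 3
  1, .f 954 1 3, .f 1082 3 1] 136 136 [] [(135, 136, [4]), (136, 136, [])]) .no) (.use 1700) .no
  (.use 1678) .no .no) (.con 136 [4, 2, 3, 3]) (.con 136 [4, 2, 3, 3]) (.con 136 [4, 2, 3, 3]))
  .no (.use 1744) .no (.use 1963)) .no (.hor [.f 970 3 1, .f 969 1 5] [(138, 122, [1])]) .no (.red
  [.t 962 1 3, .f 834 5 1, .f 827 1 3, .f 955 3 1, .f 963 1 3] 136 136 [] [(120, 136, [2]), (136,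
  136, [])]) .no) .no (.use 1589) .no (.red [.t 1090 2 4, .f 953 3 5] 136 136 [] [(136, 136,
  [])]))) .no .no .no

def c27t1965 : Tr4 :=
  .br 1200 (.br 1201 (.hor [.f 1200 1 5] []) .no .no (.use 1867) (.red [.t 1081 4 1] 151 136 [4,
  1] [(151, 136, [4, 1])]) .no) .no .no (.red [.f 1064 3 1, .t 1072 1 3, .f 1081 1 5] 151 136 [4,
  1] [(150, 136, [4, 1, 4]), (151, 136, [4, 1])]) (.red [.f 1200 5 3, .f 1073 3 1, .f 1081 1 3]
  151 136 [4, 1] [(151, 136, [4, 1]), (152, 136, [1])]) .no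

def c27t1966 : Tr4 :=
  .br 1072 (.red [.t 1072 1 3, .f 1081 1 5] 151 136 [4, 1] [(151, 136, [4, 1])]) (.use 1857) .no
  (.use 1859) .no .no

def c27t1967 : Tr4 :=
  .br 825 .no (.br 827 .no (.con 136 [2, 2, 4]) (.con 136 [2, 2, 4]) (.red [.f 819 3 1, .f 826 1
  5] 119 136 [2, 4] [(119, 136, [2, 4])]) .no .no) (.red [.f 825 3 1, .f 825 1 5, .t 1073 3 2, .f
  946 3 5, .t 1090 2 4, .t 961 2 4] 136 136 [] [(135, 119, [1]), (136, 136, [])]) (.use 1925) .no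
  .no

def c27t1968 : Tr4 :=
  .br 947 (.hor [.f 946 1 5] []) (.use 1924) (.br 826 (.use 1967) (.con 136 [4, 2, 3, 1]) (.con
  136 [4, 2, 3, 1]) (.con 136 [4, 2, 3, 1]) (.con 136 [4, 2, 3, 1]) (.con 136 [4, 2, 3, 1])) (.use
  1763) .no .no

def c27t1969 : Tr4 :=
  .br 1338 (.use 1873) .no .no (.red [.t 1338 4 2] 167 136 [4, 1, 1] [(167, 136, [4, 1, 1])]) .no
  .no

def c27t1970 : Tr4 :=
  .br 1330 (.red [.f 1330 1 3, .t 1338 4 2] 167 136 [4, 1, 1] [(167, 136, [4, 1, 1]), (183, 136,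
  [4, 1, 1, 1])]) .no .no (.use 1861) (.red [.f 1202 5 1, .f 1203 1 3] 167 136 [4, 1, 1] [(167,
  136, [4, 1, 1])]) (.br 1194 (.red [.t 1193 3 1, .f 1201 1 3] 167 136 [4, 1, 1] [(166, 136, [4,
  1, 4, 1]), (167, 136, [4, 1, 1])]) .no .no (.br 1192 (.br 1322 (.use 1862) .no .no (.red [.f
  1186 3 1, .t 1193 3 1] 166 136 [4, 1, 4, 1] [(165, 136, [4, 1, 4, 4, 1]), (166, 136, [4, 1, 4,
  1])]) .no (.hor [.f 1321 5 3, .f 1193 3 1, .f 1192 1 5, .t 1322 3 2, .f 1201 1 5] [])) .no .no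
  (.con 136 [4, 1, 4, 4, 1]) .no .no) .no .no)

def c27t1971 : Tr4 :=
  .br 1195 (.br 1338 (.use 1970) .no .no (.red [.t 1338 4 2] 167 136 [4, 1, 1] [(167, 136, [4, 1,
  1])]) .no .no) .no .no (.red [.f 1059 3 1, .t 1066 3 1, .f 1074 1 3] 151 136 [4, 1] [(149, 136,
  [4, 4, 1, 4]), (150, 136, [4, 4, 1]), (151, 136, [4, 1])]) .no (.red [.f 1194 5 3, .f 1066 3 1,
  .f 1074 1 3] 151 136 [4, 1] [(150, 136, [4, 4, 1]), (151, 136, [4, 1])])

def c27t1972 : Tr4 :=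
  .br 1064 (.use 1969) .no .no (.use 1971) (.br 939 .no (.br 818 .no (.con 136 [2, 4, 2, 4, 1, 3,
  2, 4]) .no (.con 136 [2, 4, 2, 4, 1, 3, 3, 1]) (.hor [.t 954 4 2, .f 817 1 5] [(119, 136, [2,
  4])]) .no) .no (.hor [.f 931 3 1, .f 939 1 3, .f 1066 3 5] [(133, 136, [4, 4, 4]), (134, 136,
  [4, 4])]) .no (.red [.t 1074 4 2, .f 1074 5 1, .f 1074 1 3] 151 136 [4, 1] [(134, 118, [1]),
  (151, 136, [4, 1])])) .no

def c27t1973 : Tr4 :=
  .br 699 .no (.hor [.f 570 1 5] []) .no (.use 1972) .no .no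

def c27t1974 : Tr4 :=
  .br 939 .no (.br 938 .no (.hor [.f 810 1 5] []) .no (.br 937 .no (.hor [.f 809 1 3, .f 936 3 5]
  [(118, 136, [2, 4, 4])]) .no (.hor [.f 929 3 5] []) .no .no) .no (.br 818 .no .no .no (.hor [.t
  817 1 4, .f 810 1 5] [(118, 136, [2, 4, 4])]) (.hor [.t 954 4 2, .f 817 1 5, .t 697 1 4] [(103,
  136, [2, 2, 4]), (119, 136, [2, 4])]) .no)) .no (.hor [.f 931 3 1, .f 939 1 3, .f 1066 3 5]
  [(133, 136, [4, 4, 4]), (134, 136, [4, 4])]) .no (.red [.t 1074 4 2, .f 1074 5 1, .f 1074 1 3]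
  151 136 [4, 1] [(134, 118, [1]), (151, 136, [4, 1])])

def c27t1975 : Tr4 :=
  .br 1201 (.red [.f 1201 1 3, .f 1073 3 1] 151 136 [4, 1] [(151, 136, [4, 1]), (167, 136, [4, 1,
  1])]) .no .no (.use 1868) (.red [.t 1081 4 1] 151 136 [4, 1] [(151, 136, [4, 1])]) (.br 1065
  (.red [.t 1064 3 1] 150 136 [4, 4, 1] [(150, 136, [4, 4, 1])]) (.hor [.f 936 3 1, .f 936 1 5]
  [(134, 150, [2])]) .no (.br 1211 (.br 1203 (.red [.f 1203 1 3] 167 136 [4, 1, 1] [(167, 136, [4,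
  1, 1])]) .no .no (.use 1869) .no (.br 1067 (.red [.t 1066 3 1, .f 1074 1 3, .f 1073 3 5] 151 136
  [4, 1] [(150, 136, [4, 4, 1]), (151, 136, [4, 1])]) (.hor [.f 939 1 3, .f 1066 3 5] [(134, 150,
  [2])]) .no (.use 1877) .no .no)) .no .no (.use 1880) .no .no) .no .no)

def c27t1976 : Tr4 :=
  .br 1065 (.red [.t 1064 3 1] 150 136 [4, 4, 1] [(150, 136, [4, 4, 1])]) (.hor [.f 936 3 1, .f
  936 1 5] [(134, 150, [2])]) .no (.br 1202 (.br 1344 (.use 1889) .no (.use 1879) (.hor [.f 1208 3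
  1, .f 1208 1 5] [(168, 136, [1, 1])]) (.red [.t 1208 3 1, .f 1200 5 3, .f 1073 3 1, .f 1081 1 3]
  151 136 [4, 1] [(151, 136, [4, 1]), (152, 136, [1]), (168, 136, [1, 1])]) .no) .no .no (.red [.f
  1066 3 1, .f 1074 1 3] 151 136 [4, 1] [(150, 136, [4, 4, 1]), (151, 136, [4, 1])]) .no .no) .no
  .no

def c27t1977 : Tr4 :=
  .br 1219 (.br 944 (.use 1905) .no .no (.br 1208 (.hor [.f 1208 1 5] []) .no (.br 1072 (.br 1211
  (.br 1225 (.use 1842) .no (.br 1201 (.red [.f 1201 1 3] 167 136 [4, 1, 1] [(167, 136, [4, 1,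
  1])]) .no .no (.br 1203 (.red [.f 1203 1 3] 167 136 [4, 1, 1] [(167, 136, [4, 1, 1])]) .no .no
  (.use 1860) .no (.br 1067 (.red [.t 1066 3 1, .f 1074 1 3, .f 1073 3 5] 151 136 [4, 1] [(150,
  136, [4, 4, 1]), (151, 136, [4, 1])]) (.hor [.f 939 1 3, .f 1066 3 5] [(134, 136, [4, 4])]) .no
  (.br 1224 (.br 1344 (.br 1338 (.br 1064 (.use 1873) .no .no (.br 1195 (.use 1970) .no .no (.red
  [.f 1059 3 1, .t 1066 3 1, .f 1074 1 3] 151 136 [4, 1] [(149, 136, [4, 4, 1, 4]), (150, 136, [4,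
  4, 1]), (151, 136, [4, 1])]) .no (.red [.f 1194 5 3, .f 1066 3 1, .f 1074 1 3] 151 136 [4, 1]
  [(150, 136, [4, 4, 1]), (151, 136, [4, 1])])) (.use 1882) .no) .no (.hor [.f 1211 1 3, .f 1338 3
  5] [(168, 167, [3])]) (.red [.t 1338 4 2] 167 136 [4, 1, 1] [(167, 136, [4, 1, 1])]) .no .no)
  .no .no (.red [.f 1208 3 1, .f 1208 1 5, .t 1072 1 3, .f 1081 1 3, .t 1216 1 4] 151 136 [4, 1]
  [(151, 136, [4, 1]), (152, 136, [1])]) (.red [.t 1208 3 1, .t 1072 1 3, .f 1081 1 5] 151 136 [4,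
  1] [(151, 136, [4, 1]), (168, 167, [3])]) .no) .no (.use 1893) .no .no .no) .no .no)) (.red [.t
  1081 4 1, .f 1072 1 5] 151 136 [4, 1] [(151, 136, [4, 1])]) .no) .no .no (.red [.t 1088 3 1, .t
  952 1 3, .f 961 1 5] 136 136 [] [(136, 136, []), (153, 136, [3, 1])])) .no .no (.dom 151 136 [4,
  1]) .no .no) .no .no (.br 1201 (.red [.f 1201 1 3, .f 1073 3 1] 151 136 [4, 1] [(151, 136, [4,
  1]), (167, 136, [4, 1, 1])]) .no .no (.use 1868) (.red [.t 1081 4 1] 151 136 [4, 1] [(151, 136,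
  [4, 1])]) (.br 1211 (.br 1224 (.use 1885) .no (.br 1203 (.red [.f 1203 1 3] 167 136 [4, 1, 1]
  [(167, 136, [4, 1, 1])]) .no .no (.use 1869) .no (.br 1067 (.red [.t 1066 3 1, .f 1074 1 3, .f
  1073 3 5] 151 136 [4, 1] [(150, 136, [4, 4, 1]), (151, 136, [4, 1])]) (.hor [.f 939 1 3, .f 1066
  3 5] [(134, 150, [2])]) .no (.use 1895) .no .no)) .no (.red [.t 1088 3 1, .t 952 1 3, .f 961 1
  5] 136 136 [] [(136, 136, []), (153, 136, [3, 1])]) .no) .no .no (.use 1976) .no .no)) .no .no)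
  (.use 1913) .no .no) (.use 1914) .no) .no (.hor [.f 1218 3 5] []) (.red [.f 1083 3 1, .f 1082 1
  5, .t 946 3 1, .f 954 1 3] 136 136 [] [(135, 136, [4]), (136, 136, []), (152, 136, [1])]) .no
  .no

def c27t1978 : Tr4 :=
  .br 946 .no (.con 136 [4, 2, 3, 1]) (.br 947 (.br 1218 (.br 1219 (.hor [.f 1218 1 5] []) .no
  (.br 945 .no (.br 1208 (.hor [.f 1208 1 5] []) .no (.br 944 (.red [.f 944 1 3, .f 1072 3 5, .t
  1216 4 2, .f 953 3 1] 136 136 [] [(135, 136, [4]), (136, 136, []), (152, 136, [1])]) .no .no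
  (.br 1072 (.br 1201 (.red [.f 1201 1 3, .f 1073 3 1] 151 136 [4, 1] [(151, 136, [4, 1]), (167,
  136, [4, 1, 1])]) .no .no (.br 706 .no (.br 1211 (.br 1203 (.red [.f 1203 1 3] 167 136 [4, 1, 1]
  [(167, 136, [4, 1, 1])]) .no .no (.use 1860) .no (.br 1067 (.red [.t 1066 3 1, .f 1074 1 3, .f
  1073 3 5] 151 136 [4, 1] [(150, 136, [4, 4, 1]), (151, 136, [4, 1])]) (.hor [.f 939 1 3, .f 1066
  3 5] [(134, 136, [4, 4])]) .no (.br 698 .no (.use 1973) .no (.br 1064 (.use 1969) .no .no (.use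
  1971) (.use 1974) .no) (.hor [.t 834 4 2, .f 697 1 5] [(104, 136, [2, 2])]) .no) .no .no)) .no
  .no (.dom 151 136 [4, 1]) .no .no) (.br 1211 (.br 1203 (.red [.f 1203 1 3] 167 136 [4, 1, 1]
  [(167, 136, [4, 1, 1])]) .no .no (.use 1860) .no (.br 1067 (.red [.t 1066 3 1, .f 1074 1 3, .f
  1073 3 5] 151 136 [4, 1] [(150, 136, [4, 4, 1]), (151, 136, [4, 1])]) (.hor [.f 939 1 3, .f 1066
  3 5] [(134, 136, [4, 4])]) .no (.br 699 .no (.br 1064 (.use 1969) .no .no (.use 1971) (.br 698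
  .no (.use 1973) .no (.use 1974) .no .no) .no) .no (.use 1972) .no (.hor [.t 834 4 2, .f 697 1 5]
  [(104, 136, [2, 2])])) .no .no)) .no .no (.dom 151 136 [4, 1]) .no .no) (.hor [.f 698 3 1, .f
  697 1 5] [(104, 136, [2, 2])]) .no (.hor [.t 825 2 3, .f 706 1 5] [(104, 136, [2, 2])])) (.red
  [.t 1081 4 1, .f 1072 1 5] 151 136 [4, 1] [(151, 136, [4, 1])]) .no) .no .no (.use 1975) .no
  .no) .no .no) (.use 1871) .no .no) .no (.use 1919) .no (.use 1920)) (.red [.f 1083 3 1, .f 1082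
  1 5, .t 946 3 1, .f 954 1 3] 136 136 [] [(135, 136, [4]), (136, 136, []), (152, 136, [1])]) .no
  .no) .no (.use 1977) .no (.red [.t 1082 1 3, .t 946 3 1, .f 954 1 3, .f 1082 3 1] 136 136 []
  [(135, 136, [4]), (136, 136, [])]) .no) (.use 1684) .no (.use 1902) .no .no) (.con 136 [4, 2, 3,
  1]) (.con 136 [4, 2, 3, 1]) (.con 136 [4, 2, 3, 1])

def c27t1979 : Tr4 :=
  .br 826 .no (.br 827 (.use 1737) (.con 136 [2, 4, 1, 3]) .no (.con 136 [2, 4, 1, 3]) .no .no)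
  .no (.hor [.f 818 3 1, .f 817 1 5] [(119, 136, [4, 2])]) (.con 136 [2, 4, 1, 3]) (.hor [.f 825 5
  3, .f 825 3 5, .t 945 2 3, .f 816 3 5] [(119, 136, [4, 2])])

def c27t1980 : Tr4 :=
  .br 705 .no (.hor [.f 577 1 5] []) (.use 1934) (.red [.f 697 3 1, .f 697 1 5] 104 136 [2, 2]
  [(104, 136, [2, 2])]) .no (.br 707 .no (.hor [.f 578 1 5] []) (.con 136 [2, 2, 2, 3]) (.red [.t
  698 1 3, .f 825 3 5] 104 136 [2, 2] [(104, 136, [2, 2])]) .no .no)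

def c27l72 : List Tr4 :=
  [c27t1959, c27t1960, c27t1961, c27t1962, c27t1963, c27t1964, c27t1965, c27t1966, c27t1967,
  c27t1968, c27t1969, c27t1970, c27t1971, c27t1972, c27t1973, c27t1974, c27t1975, c27t1976,
  c27t1977, c27t1978, c27t1979, c27t1980]

theorem c27k72 : chkLF ⟨4, 1, 0, true, -8⟩ false 7 c27N 1959 c27l72 = true := by decide +kernel

def c27t1981 : Tr4 :=
  .br 843 .no (.red [.t 714 4 1] 105 136 [2, 2, 3] [(105, 136, [2, 2, 3])]) (.br 842 .no .no (.use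
  497) .no .no (.br 840 .no (.con 136 [2, 2, 3, 3]) (.red [.f 840 3 1] 122 136 [2, 3, 3] [(122,
  136, [2, 3, 3])]) .no .no .no)) .no .no (.red [.f 834 5 3, .f 706 3 1] 105 136 [2, 2, 3] [(105,
  136, [2, 2, 3])])

def c27t1982 : Tr4 :=
  .br 1072 (.use 1932) .no .no (.use 1937) .no .no

def c27t1983 : Tr4 :=
  .br 835 .no (.br 834 .no (.hor [.f 706 1 5] []) (.use 514) (.br 825 .no (.br 827 (.use 1978)
  (.hor [.f 699 1 3, .f 826 3 5] [(104, 103, [3])]) .no (.use 1722) .no .no) (.hor [.f 825 3 5]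
  []) (.hor [.f 816 3 5] []) .no .no) .no (.br 954 .no (.use 1928) .no (.br 947 (.br 1218 (.br
  1219 (.hor [.f 1218 1 5] []) .no (.br 945 .no (.use 1979) .no (.use 1919) .no (.use 1920)) (.red
  [.f 1083 3 1, .f 1082 1 5, .t 946 3 1, .f 954 1 3] 136 136 [] [(135, 136, [4]), (136, 136, []),
  (152, 136, [1])]) .no .no) .no (.use 1977) .no (.red [.t 1082 1 3, .t 946 3 1, .f 954 1 3, .f
  1082 3 1] 136 136 [] [(135, 136, [4]), (136, 136, [])]) .no) (.use 1684) (.use 1855) (.use 1902)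
  .no .no) (.red [.t 1090 2 4, .f 953 3 5] 136 136 [] [(136, 136, [])]) .no)) (.red [.f 835 3 1]
  121 136 [2, 3] [(121, 136, [2, 3])]) (.use 1922) .no (.br 970 (.hor [.f 969 1 5] []) (.red [.t
  970 2 4] 121 136 [2, 3] [(121, 136, [2, 3])]) (.br 1208 (.hor [.f 1208 1 5] []) .no (.br 944
  (.red [.f 944 1 3, .f 1072 3 5, .t 1216 4 2, .f 953 3 1] 136 136 [] [(135, 136, [4]), (136, 136,
  []), (152, 136, [1])]) .no .no (.br 945 .no (.br 954 .no (.use 1933) .no (.br 947 (.br 826 .no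
  (.br 825 .no (.hor [.f 697 1 5] []) (.br 827 (.br 706 .no (.use 1980) (.use 1981) .no (.red [.f
  706 5 1, .f 698 1 3] 104 136 [2, 2] [(104, 136, [2, 2])]) (.red [.t 825 3 2, .t 945 2 3, .f 826
  1 5] 104 136 [2, 2] [(104, 136, [2, 2]), (119, 103, [1])])) (.con 136 [2, 4, 1, 3]) .no (.con
  136 [2, 4, 1, 3]) .no .no) .no .no .no) .no (.hor [.f 818 3 1, .f 817 1 5] [(119, 136, [4, 2])])
  (.con 136 [2, 4, 1, 3]) (.hor [.t 945 2 3, .f 816 3 5] [(119, 136, [4, 2])])) (.use 1700) (.use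
  1855) (.use 1902) .no .no) (.red [.t 1090 2 4, .f 953 3 5] 136 136 [] [(136, 136, [])]) .no) .no
  (.hor [.f 936 3 5] []) (.use 1982) .no) (.red [.t 1080 2 4, .t 1216 4 2, .f 953 3 1] 136 136 []
  [(135, 136, [4]), (136, 136, []), (152, 136, [1])]) .no) (.use 1938) .no .no) .no .no .no)

def c27t1984 : Tr4 :=
  .br 1203 (.hor [.f 1202 1 5] []) .no .no (.con 136 [4, 1, 1, 4]) .no .no

def c27t1985 : Tr4 :=
  .br 1202 (.use 1984) .no .no (.red [.f 1066 3 1, .f 1074 1 3] 151 136 [4, 1] [(150, 136, [4, 4,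
  1]), (151, 136, [4, 1])]) (.br 1200 (.con 136 [4, 4, 1, 1]) .no .no (.hor [.f 1192 3 5] []) .no
  .no) .no

def c27t1986 : Tr4 :=
  .br 1202 (.br 1200 (.con 136 [4, 1, 4, 1]) .no .no (.hor [.f 1192 3 5] []) .no .no) .no .no
  (.red [.f 1066 3 1, .f 1074 1 3] 151 136 [4, 1] [(150, 136, [4, 1, 4]), (151, 136, [4, 1])]) .no
  .no

def c27t1987 : Tr4 :=
  .br 1211 (.use 1985) .no .no (.use 1986) .no .no

def c27t1988 : Tr4 :=
  .br 1218 (.br 1219 (.hor [.f 1218 1 5] []) .no (.br 1224 (.br 1201 (.br 1202 (.hor [.f 1201 1 5]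
  []) .no .no (.red [.f 1066 3 1, .f 1074 1 3] 151 136 [4, 1] [(150, 136, [4, 4, 1]), (151, 136,
  [4, 1])]) (.br 1336 (.use 1953) .no (.con 136 [1, 1, 3, 2, 2, 4]) (.red [.t 1328 3 2] 167 136
  [4, 1, 1] [(167, 136, [4, 1, 1])]) (.red [.f 944 1 3, .f 944 3 1, .f 1208 5 1, .f 1201 1 3] 167
  136 [4, 1, 1] [(167, 136, [4, 1, 1])]) .no) .no) .no .no (.use 1987) (.red [.f 944 1 3, .f 944 3
  1, .t 1081 4 1] 151 136 [4, 1] [(151, 136, [4, 1])]) (.red [.f 1200 5 3, .f 1073 3 1, .f 1081 1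
  3] 151 136 [4, 1] [(151, 136, [4, 1]), (152, 136, [1])])) .no (.br 1201 (.use 1957) .no .no
  (.use 1987) (.red [.f 944 1 3, .f 944 3 1, .t 1081 4 1] 151 136 [4, 1] [(151, 136, [4, 1])])
  (.red [.f 1200 5 3, .f 1073 3 1, .f 1081 1 3] 151 136 [4, 1] [(151, 136, [4, 1]), (152, 136,
  [1])])) (.red [.f 1088 3 1, .f 1088 1 5, .t 952 1 3, .f 961 1 3, .t 1096 1 4] 136 136 [] [(136,
  136, []), (137, 136, [3])]) (.red [.t 1088 3 1, .t 952 1 3, .f 961 1 5] 136 136 [] [(136, 136,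
  []), (153, 136, [3, 1])]) .no) (.red [.f 1083 3 1, .f 1082 1 5, .t 946 3 1, .f 954 1 3] 136 136
  [] [(135, 136, [4]), (136, 136, []), (152, 136, [1])]) .no .no) .no .no .no (.red [.t 1082 1 3,
  .t 946 3 1, .f 954 1 3, .f 1082 3 1] 136 136 [] [(135, 136, [4]), (136, 136, [])]) .no

def c27t1989 : Tr4 :=
  .br 1211 (.use 1985) .no .no (.use 1986) .no .no

def c27t1990 : Tr4 :=
  .br 825 .no (.hor [.f 697 1 5] []) .no (.hor [.f 816 3 5] []) .no .no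

def c27t1991 : Tr4 :=
  .br 947 (.use 1693) (.use 1688) (.use 1589) (.use 1689) .no (.use 1694)

def c27t1992 : Tr4 :=
  .br 834 .no (.hor [.f 706 1 5] []) (.use 514) (.br 825 .no (.br 827 (.br 946 .no (.con 136 [4,
  2, 3, 3]) (.br 947 (.br 1098 (.use 1988) (.red [.f 962 1 3, .f 962 3 5, .t 826 3 1, .f 955 3 1,
  .t 1090 3 2] 136 136 [] [(120, 136, [2]), (136, 136, [])]) (.br 1099 (.br 1219 (.br 1218 (.hor
  [.f 1218 1 5] []) .no (.br 1201 (.use 1955) .no .no (.use 1989) (.red [.f 944 1 3, .f 944 3 1,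
  .t 1081 4 1] 151 136 [4, 1] [(151, 136, [4, 1])]) (.red [.f 1200 5 3, .f 1073 3 1, .f 1081 1 3]
  151 136 [4, 1] [(151, 136, [4, 1]), (152, 136, [1])])) .no .no .no) .no .no (.red [.f 1083 3 1,
  .f 1082 1 5, .t 946 3 1, .f 954 1 3] 136 136 [] [(135, 136, [4]), (136, 136, []), (152, 136,
  [1])]) .no (.red [.t 1082 1 3, .t 946 3 1, .f 954 1 3, .f 1082 3 1] 136 136 [] [(135, 136, [4]),
  (136, 136, [])])) .no (.hor [.f 1098 3 5] []) .no .no .no) .no (.red [.t 962 1 3, .t 826 3 1, .f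
  955 3 1, .f 963 1 3] 136 136 [] [(120, 136, [2]), (136, 136, [])]) .no) (.use 1684) .no (.use
  1678) .no .no) (.con 136 [4, 2, 3, 3]) (.con 136 [4, 2, 3, 3]) (.con 136 [4, 2, 3, 3])) (.hor
  [.f 699 1 3, .f 826 3 5] [(104, 103, [3])]) .no (.use 1722) .no .no) (.hor [.f 825 3 5] [])
  (.hor [.f 816 3 5] []) .no .no) .no (.br 970 (.hor [.f 969 1 5] []) (.br 954 .no (.use 1683) .no
  (.br 947 (.br 945 .no (.use 1979) .no (.br 827 (.br 826 .no (.use 1990) .no (.use 1744) .no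
  (.use 1958)) (.con 136 [2, 4, 1, 3]) .no (.con 136 [2, 4, 1, 3]) .no (.con 136 [2, 4, 1, 3]))
  .no .no) (.use 1684) (.use 1589) (.use 1678) .no .no) (.red [.t 1090 2 4, .f 953 3 5] 136 136 []
  [(136, 136, [])]) .no) (.br 1098 (.br 954 .no (.use 1991) .no (.br 947 (.use 1988) (.use 1684)
  (.use 1589) (.use 1678) .no .no) (.red [.t 1090 2 4, .f 953 3 5] 136 136 [] [(136, 136, [])])
  .no) .no (.hor [.f 970 3 1, .f 969 1 5] [(138, 122, [1])]) .no (.br 954 .no (.use 1991) .no (.br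
  947 (.br 827 (.br 826 .no (.use 1990) .no (.use 1744) .no (.use 1962)) (.con 136 [2, 4, 1, 3])
  .no (.con 136 [2, 4, 1, 3]) .no (.con 136 [2, 4, 1, 3])) (.use 1684) (.use 1589) (.use 1678) .no
  .no) (.red [.t 962 1 3, .t 1098 4 2, .t 1090 2 4, .f 953 3 5] 136 136 [] [(136, 136, [])]) .no)
  .no) .no .no .no)

def c27t1993 : Tr4 :=
  .br 1099 (.br 1225 (.br 1105 (.con 136 [3, 3, 1, 4, 2, 4]) (.con 136 [3, 3, 1, 4, 2, 4]) (.con
  136 [3, 3, 1, 4, 2, 4]) (.hor [.f 1097 3 5] []) .no (.con 136 [3, 3, 1, 4, 2, 4])) (.hor [.f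
  1089 1 3, .f 1088 3 5] [(153, 154, [4])]) (.br 1105 .no (.con 136 [3, 3, 1, 4, 2, 4]) (.con 136
  [3, 3, 1, 4, 2, 4]) (.hor [.f 1097 3 5] []) .no (.con 136 [3, 3, 1, 4, 2, 4])) .no .no (.red [.t
  1088 3 1, .t 952 1 3, .f 961 1 5] 136 136 [] [(136, 136, []), (153, 136, [3, 1])])) .no (.hor
  [.f 1098 3 5] []) .no .no .no

def c27t1994 : Tr4 :=
  .br 1211 (.use 1842) .no .no (.dom 151 136 [4, 1]) .no .no

def c27t1995 : Tr4 :=
  .br 1105 .no (.con 136 [3, 3, 1, 4, 2, 4]) (.con 136 [3, 3, 1, 4, 2, 4]) (.hor [.f 1097 3 1, .f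
  1089 1 3, .f 1088 3 5] [(153, 136, [3, 1]), (154, 136, [3, 3, 1])]) (.con 136 [3, 3, 1, 4, 2,
  4]) (.con 136 [3, 3, 1, 4, 2, 4])

def c27t1996 : Tr4 :=
  .br 833 .no (.use 492) (.br 834 .no (.br 840 .no (.br 699 .no (.br 707 .no (.red [.f 571 1 3, .f
  699 3 1, .f 706 1 5] 104 136 [2, 2] [(88, 136, [2, 2, 2]), (104, 136, [2, 2])]) (.br 842 .no
  (.con 136 [2, 2, 3, 3]) (.br 843 .no .no (.hor [.f 842 3 5] []) .no .no .no) .no (.br 698 .no
  (.hor [.f 570 1 5] []) .no (.br 705 .no (.br 704 .no (.hor [.f 576 1 5] []) .no (.con 136 [2, 2,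
  2]) .no .no) (.con 136 [2, 2, 3, 2]) (.red [.t 960 2 4, .f 825 1 5, .t 705 4 1] 104 136 [2, 2]
  [(104, 136, [2, 2]), (120, 104, [1])]) .no (.br 697 .no (.br 579 .no (.br 696 .no (.hor [.f 568
  1 5] []) .no (.br 570 .no (.use 680) (.red [.t 706 1 3, .t 570 3 1, .f 699 3 1, .f 707 1 3] 88
  136 [2, 2, 2] [(88, 136, [2, 2, 2]), (104, 136, [2, 2])]) (.hor [.f 562 3 1, .f 569 1 5] [(87,
  88, [4])]) .no .no) .no .no) (.red [.f 579 3 1, .f 571 1 3, .f 699 3 1, .f 706 1 5] 89 136 [2,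
  2, 2, 3] [(88, 136, [2, 2, 2]), (89, 136, [2, 2, 2, 3]), (104, 136, [2, 2])]) .no .no (.red [.t
  706 1 3, .f 578 5 1, .f 571 1 3, .f 699 3 1, .f 707 1 3] 88 136 [2, 2, 2] [(88, 136, [2, 2, 2]),
  (104, 136, [2, 2])])) .no (.use 1342) .no (.red [.t 960 2 4, .f 696 5 3, .f 825 1 5, .t 705 4 1]
  104 136 [2, 2] [(104, 136, [2, 2]), (120, 104, [1])]))) .no (.red [.t 960 2 4, .f 825 1 5, .f
  697 5 1, .f 698 1 3] 104 136 [2, 2] [(104, 136, [2, 2]), (120, 104, [1])])) .no) .no .no .no)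
  (.red [.f 699 3 1, .f 706 1 5] 104 136 [2, 2] [(104, 136, [2, 2])]) (.br 698 .no (.use 1757) .no
  (.hor [.f 690 3 5] []) .no (.red [.t 960 2 4, .f 825 1 5, .f 697 5 1, .f 698 1 3] 104 136 [2, 2]
  [(104, 136, [2, 2]), (120, 104, [1])])) .no (.red [.t 834 2 4] 104 136 [2, 2] [(104, 136, [2,
  2])])) (.red [.f 840 3 1] 122 136 [2, 3, 3] [(122, 136, [2, 3, 3])]) .no .no .no) (.hor [.f 833
  3 5] []) .no .no .no) .no (.red [.t 953 3 2, .t 1073 3 2, .f 946 3 5, .t 1090 2 4, .f 826 3 1]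
  136 136 [] [(135, 119, [1]), (136, 136, [])]) .no

def c27t1997 : Tr4 :=
  .br 1203 (.red [.f 1203 1 3] 167 136 [4, 1, 1] [(167, 136, [4, 1, 1])]) .no .no (.use 1869) .no
  (.br 1067 (.red [.t 1066 3 1, .f 1074 1 3, .f 1073 3 5] 151 136 [4, 1] [(150, 136, [4, 4, 1]),
  (151, 136, [4, 1])]) (.hor [.f 939 1 3, .f 1066 3 5] [(134, 150, [2])]) .no (.use 1894) .no .no)

def c27t1998 : Tr4 :=
  .br 1346 (.use 1997) .no (.hor [.f 1218 3 1, .f 1218 1 5] [(169, 136, [1, 3, 1])]) (.hor [.f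
  1211 1 3, .f 1338 3 5] [(168, 167, [3])]) .no (.hor [.t 1225 1 4, .f 1218 1 5] [(169, 136, [1,
  3, 1])])

def c27t1999 : Tr4 :=
  .br 944 .no (.hor [.f 816 1 5] []) .no (.br 1211 (.use 1998) .no .no (.use 1976) .no .no) .no
  .no

def c27t2000 : Tr4 :=
  .br 1072 (.use 1994) (.use 1905) .no (.br 1201 (.red [.f 1201 1 3, .f 1073 3 1] 151 136 [4, 1]
  [(151, 136, [4, 1]), (167, 136, [4, 1, 1])]) .no .no (.use 1868) (.red [.t 962 1 3, .t 1081 4 1,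
  .t 1098 4 2] 151 136 [4, 1] [(151, 136, [4, 1])]) (.br 945 .no (.use 1999) .no (.br 1211 (.use
  1998) .no .no (.use 1897) .no .no) .no (.use 1914))) .no .no

def c27t2001 : Tr4 :=
  .br 1218 (.br 1072 (.br 1201 (.red [.f 1201 1 3, .f 1073 3 1] 151 136 [4, 1] [(151, 136, [4,
  1]), (167, 136, [4, 1, 1])]) .no .no (.br 1211 (.br 1202 (.use 1984) .no .no (.red [.f 1066 3 1,
  .f 1074 1 3] 151 136 [4, 1] [(150, 136, [4, 4, 1]), (151, 136, [4, 1])]) (.br 1067 (.red [.t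
  1066 3 1, .f 1074 1 3, .f 1073 3 5] 151 136 [4, 1] [(150, 136, [4, 4, 1]), (151, 136, [4, 1])])
  (.hor [.f 939 1 3, .f 1066 3 5] [(134, 136, [4, 4])]) .no (.br 1064 (.use 1969) .no .no (.use
  1971) (.br 1344 (.use 1866) .no (.br 1338 (.use 1874) .no .no (.red [.t 1338 4 2] 167 136 [4, 1,
  1] [(167, 136, [4, 1, 1])]) .no .no) (.red [.f 1208 3 1, .f 1208 1 5, .t 1072 1 3, .f 1081 1 3,
  .t 1216 1 4] 151 136 [4, 1] [(151, 136, [4, 1]), (152, 136, [1])]) (.red [.t 1208 3 1, .t 1072 1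
  3, .f 1081 1 5] 151 136 [4, 1] [(151, 136, [4, 1]), (168, 167, [3])]) .no) .no) .no .no) .no)
  .no .no (.dom 151 136 [4, 1]) .no .no) (.red [.t 1081 4 1, .f 1072 1 5] 151 136 [4, 1] [(151,
  136, [4, 1])]) .no) .no .no (.use 1975) .no .no) .no (.hor [.f 1218 3 5] []) .no .no .no

def c27t2002 : Tr4 :=
  .br 944 (.red [.f 944 1 3, .f 1072 3 5, .t 1216 4 2, .f 953 3 1] 136 136 [] [(135, 136, [4]),
  (136, 136, []), (152, 136, [1])]) (.hor [.f 816 1 5] []) .no (.use 2001) .no .no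

def c27t2003 : Tr4 :=
  .br 945 .no (.use 2002) .no (.use 1916) .no (.use 1920)

def c27t2004 : Tr4 :=
  .br 1219 (.br 1218 (.hor [.f 1218 1 5] []) .no (.br 1098 .no .no (.use 1993) .no (.br 1225 (.use
  2000) (.red [.f 1089 1 3, .f 1088 3 5, .t 952 1 3, .f 1080 3 1, .t 1216 2 3] 136 136 [] [(136,
  136, []), (152, 136, [1])]) (.use 1995) .no .no (.red [.t 1088 3 1, .t 952 1 3, .f 961 1 5] 136
  136 [] [(136, 136, []), (153, 136, [3, 1])])) (.hor [.t 1217 2 3, .f 1088 3 5] [(153, 136, [3,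
  1])])) .no .no .no) .no (.use 2003) (.red [.f 1083 3 1, .f 1082 1 5, .t 946 3 1, .f 954 1 3] 136
  136 [] [(135, 136, [4]), (136, 136, []), (152, 136, [1])]) .no (.red [.t 1082 1 3, .t 946 3 1,
  .f 954 1 3, .f 1082 3 1] 136 136 [] [(135, 136, [4]), (136, 136, [])])

def c27t2005 : Tr4 :=
  .br 947 (.use 1697) (.use 1690) (.use 1855) (.use 1691) .no (.use 1698)

def c27t2006 : Tr4 :=
  .br 1201 (.br 1224 (.hor [.f 1224 1 5] []) .no (.use 1954) (.hor [.f 1088 3 1, .f 1088 1 5]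
  [(153, 169, [2])]) .no .no) .no .no (.use 1989) (.red [.f 944 1 3, .f 944 3 1, .t 1081 4 1] 151
  136 [4, 1] [(151, 136, [4, 1])]) (.red [.f 1200 5 3, .f 1073 3 1, .f 1081 1 3] 151 136 [4, 1]
  [(151, 136, [4, 1]), (152, 136, [1])])

def c27l73 : List Tr4 :=
  [c27t1981, c27t1982, c27t1983, c27t1984, c27t1985, c27t1986, c27t1987, c27t1988, c27t1989,
  c27t1990, c27t1991, c27t1992, c27t1993, c27t1994, c27t1995, c27t1996, c27t1997, c27t1998,
  c27t1999, c27t2000, c27t2001, c27t2002, c27t2003, c27t2004, c27t2005, c27t2006]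

theorem c27k73 : chkLF ⟨4, 1, 0, true, -8⟩ false 7 c27N 1981 c27l73 = true := by decide +kernel

def c27t2007 : Tr4 :=
  .br 1218 (.br 1201 (.br 1202 (.hor [.f 1201 1 5] []) .no .no (.red [.f 1066 3 1, .f 1074 1 3]
  151 136 [4, 1] [(150, 136, [4, 4, 1]), (151, 136, [4, 1])]) (.br 1224 (.br 1336 (.use 1953) .no
  (.con 136 [1, 1, 3, 2, 2, 4]) (.red [.t 1328 3 2] 167 136 [4, 1, 1] [(167, 136, [4, 1, 1])])
  (.red [.f 944 1 3, .f 944 3 1, .f 1208 5 1, .f 1201 1 3] 167 136 [4, 1, 1] [(167, 136, [4, 1,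
  1])]) .no) .no (.br 1336 (.use 1953) .no (.con 136 [1, 1, 3, 2, 2, 4]) (.red [.t 1328 3 2] 167
  136 [4, 1, 1] [(167, 136, [4, 1, 1])]) (.red [.f 944 1 3, .f 944 3 1, .f 1208 5 1, .f 1201 1 3]
  167 136 [4, 1, 1] [(167, 136, [4, 1, 1])]) .no) (.hor [.f 1088 3 1, .f 1088 1 5] [(153, 136, [3,
  1])]) (.red [.t 1088 3 1, .t 952 1 3, .f 961 1 5] 136 136 [] [(136, 136, []), (153, 136, [3,
  1])]) .no) .no) .no .no (.use 1987) (.red [.f 944 1 3, .f 944 3 1, .t 1081 4 1] 151 136 [4, 1]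
  [(151, 136, [4, 1])]) (.red [.f 1200 5 3, .f 1073 3 1, .f 1081 1 3] 151 136 [4, 1] [(151, 136,
  [4, 1]), (152, 136, [1])])) .no (.hor [.f 1218 3 5] []) .no .no .no

def c27t2008 : Tr4 :=
  .br 1219 (.br 1218 (.hor [.f 1218 1 5] []) .no (.br 1098 .no .no (.use 1993) .no (.br 1225 (.use
  2006) (.hor [.f 1089 1 3, .f 1088 3 5] [(153, 136, [3, 1])]) (.use 1995) .no .no (.red [.t 1088
  3 1, .t 952 1 3, .f 961 1 5] 136 136 [] [(136, 136, []), (153, 136, [3, 1])])) (.hor [.f 944 1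
  3, .f 944 3 1, .t 1217 2 3, .f 1088 3 5] [(153, 136, [3, 1])])) .no .no .no) .no (.use 2007)
  (.red [.f 1083 3 1, .f 1082 1 5, .t 946 3 1, .f 954 1 3] 136 136 [] [(135, 136, [4]), (136, 136,
  []), (152, 136, [1])]) .no (.red [.t 1082 1 3, .t 946 3 1, .f 954 1 3, .f 1082 3 1] 136 136 []
  [(135, 136, [4]), (136, 136, [])])

def c27t2009 : Tr4 :=
  .br 947 (.use 2008) (.use 1700) .no (.use 1678) .no .no

def c27t2010 : Tr4 :=
  .br 1209 (.br 1074 (.red [.f 1074 1 3, .f 1073 3 5] 151 136 [4, 1] [(151, 136, [4, 1])]) (.br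
  947 (.hor [.f 946 1 5] []) (.use 1924) (.br 826 (.br 824 .no (.use 1926) .no (.use 1967) (.br
  827 .no (.use 1849) (.use 1996) (.red [.f 819 3 1, .f 826 1 5] 119 136 [2, 4] [(119, 136, [2,
  4])]) .no .no) .no) (.con 136 [4, 2, 3, 3]) (.con 136 [4, 2, 3, 3]) (.con 136 [4, 2, 3, 3])
  (.con 136 [4, 2, 3, 3]) (.con 136 [4, 2, 3, 3])) (.use 1763) .no .no) .no (.br 835 .no (.br 954
  .no (.use 1928) .no (.br 947 (.br 1208 (.hor [.f 1208 1 5] []) .no (.use 2004) (.use 1938) .no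
  .no) (.use 1684) (.use 1855) (.use 1902) .no .no) (.red [.t 1090 2 4, .f 953 3 5] 136 136 []
  [(136, 136, [])]) .no) (.red [.f 835 3 1] 121 136 [2, 3] [(121, 136, [2, 3])]) (.use 1922) .no
  (.br 1208 (.hor [.f 1208 1 5] []) .no (.br 954 .no (.use 2005) .no (.br 947 (.use 2004) (.use
  1700) (.use 1855) (.use 1902) .no .no) (.red [.t 1090 2 4, .f 953 3 5] 136 136 [] [(136, 136,
  [])]) .no) (.use 1938) .no .no)) (.use 1903) .no) .no .no (.red [.f 1073 3 1, .f 1081 1 5] 151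
  136 [4, 1] [(151, 136, [4, 1])]) .no (.br 1074 (.red [.f 1074 1 3, .f 1073 3 5] 151 136 [4, 1]
  [(151, 136, [4, 1])]) (.br 1072 (.red [.t 1072 1 3, .f 1081 1 5] 151 136 [4, 1] [(151, 136, [4,
  1])]) (.use 1759) .no (.br 947 (.hor [.f 946 1 5] []) (.use 1924) (.br 826 (.br 824 .no (.use
  1926) .no (.use 1967) (.br 827 .no (.use 1858) (.use 1996) (.red [.f 819 3 1, .f 826 1 5] 119
  136 [2, 4] [(119, 136, [2, 4])]) .no .no) .no) (.con 136 [4, 2, 3, 3]) (.con 136 [4, 2, 3, 3])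
  (.con 136 [4, 2, 3, 3]) (.con 136 [4, 2, 3, 3]) (.con 136 [4, 2, 3, 3])) (.use 1763) .no .no)
  .no .no) .no (.br 1072 (.red [.t 1072 1 3, .f 1081 1 5] 151 136 [4, 1] [(151, 136, [4, 1])])
  (.br 835 .no (.br 954 .no (.use 1991) .no (.br 947 (.use 2008) (.use 1684) (.use 1589) (.use
  1678) .no .no) (.red [.t 1090 2 4, .f 953 3 5] 136 136 [] [(136, 136, [])]) .no) (.red [.f 835 3
  1] 121 136 [2, 3] [(121, 136, [2, 3])]) (.use 1959) .no (.br 955 .no (.br 826 (.hor [.f 826 1 5]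
  []) (.br 946 .no (.con 136 [4, 2, 3, 3]) (.use 2009) (.con 136 [4, 2, 3, 3]) (.con 136 [4, 2, 3,
  3]) (.con 136 [4, 2, 3, 3])) .no (.use 1744) .no (.br 946 .no (.con 136 [4, 2, 3, 3]) (.use
  2009) (.con 136 [4, 2, 3, 3]) (.con 136 [4, 2, 3, 3]) (.con 136 [4, 2, 3, 3]))) .no (.use 1589)
  .no (.red [.t 1090 2 4, .f 953 3 5] 136 136 [] [(136, 136, [])]))) .no (.use 1965) .no .no)
  (.use 1966) .no)

def c27t2011 : Tr4 :=
  .br 1105 .no (.con 136 [3, 3, 1, 4, 2, 4]) (.con 136 [3, 3, 1, 4, 2, 4]) (.hor [.f 1097 3 5] [])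
  .no (.con 136 [3, 3, 1, 4, 2, 4])

def c27t2012 : Tr4 :=
  .br 1201 (.red [.f 1201 1 3, .f 1073 3 1] 151 136 [4, 1] [(151, 136, [4, 1]), (167, 136, [4, 1,
  1])]) .no .no (.use 1868) (.red [.t 1081 4 1] 151 136 [4, 1] [(151, 136, [4, 1])]) (.use 1999)

def c27t2013 : Tr4 :=
  .br 1201 (.red [.f 1201 1 3] 167 136 [4, 1, 1] [(167, 136, [4, 1, 1])]) .no .no (.use 1868)
  (.red [.t 1081 4 1] 151 136 [4, 1] [(151, 136, [4, 1])]) (.use 1998)

def c27t2014 : Tr4 :=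
  .br 945 .no (.use 2012) .no (.br 1211 (.use 2013) .no .no (.use 1898) .no .no) .no (.use 1914)

def c27t2015 : Tr4 :=
  .br 1099 (.br 1072 (.br 1225 (.use 1994) (.red [.f 1089 1 3, .f 1088 3 5, .t 952 1 3, .f 1080 3
  1, .t 1216 2 3] 136 136 [] [(136, 136, []), (152, 136, [1])]) (.use 2011) .no .no (.red [.t 1088
  3 1, .t 952 1 3, .f 961 1 5] 136 136 [] [(136, 136, []), (153, 121, [1, 1])])) (.use 1905) .no
  (.br 1225 (.use 2014) (.red [.f 1089 1 3, .f 1088 3 5, .t 952 1 3, .f 1080 3 1, .t 1216 2 3] 136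
  136 [] [(136, 136, []), (152, 136, [1])]) (.use 2011) .no .no (.red [.t 1088 3 1, .t 952 1 3, .f
  961 1 5] 136 136 [] [(136, 136, []), (153, 121, [1, 1])])) .no .no) .no (.hor [.f 1098 3 5] [])
  .no .no .no

def c27t2016 : Tr4 :=
  .br 1208 (.hor [.f 1208 1 5] []) .no (.use 2003) (.use 1871) .no .no

def c27t2017 : Tr4 :=
  .br 978 (.red [.f 962 1 3, .f 962 3 1, .f 970 1 3, .f 1097 3 5] 138 136 [3, 3] [(138, 136, [3,
  3])]) (.con 136 [3, 3, 3, 2]) (.hor [.f 977 3 5] []) .no (.con 136 [3, 3, 2, 3]) .no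

def c27t2018 : Tr4 :=
  .br 976 (.red [.t 960 2 4, .f 960 5 3, .f 960 3 1, .f 968 1 3] 138 136 [3, 3] [(120, 121, [4]),
  (137, 136, [3]), (138, 136, [3, 3])]) (.use 2017) (.hor [.f 976 3 5] []) .no .no .no

def c27t2019 : Tr4 :=
  .br 976 (.red [.t 1104 2 4, .f 969 1 5] 138 136 [3, 3] [(138, 136, [3, 3])]) (.use 2017) (.hor
  [.f 976 3 5] []) .no .no .no

def c27t2020 : Tr4 :=
  .br 841 .no (.br 1097 .no .no (.br 1099 (.br 977 .no (.use 503) (.use 2019) .no (.red [.f 962 1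
  3, .f 962 3 1, .t 1097 3 2] 138 136 [3, 3] [(138, 136, [3, 3])]) (.red [.f 968 5 3, .f 969 3 1]
  138 136 [3, 3] [(138, 136, [3, 3])])) .no (.hor [.f 1097 3 1, .f 1089 1 3, .f 1088 3 5] [(153,
  121, [1, 1]), (154, 138, [1])]) .no .no .no) .no .no .no) (.br 1097 .no .no (.br 1099 (.br 977
  .no .no (.use 2019) .no (.red [.f 962 1 3, .f 962 3 1, .t 1097 3 2] 138 136 [3, 3] [(138, 136,
  [3, 3])]) (.red [.f 968 5 3, .f 969 3 1] 138 136 [3, 3] [(138, 136, [3, 3])])) .no (.hor [.f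
  1097 3 1, .f 1089 1 3, .f 1088 3 5] [(153, 121, [1, 1]), (154, 138, [1])]) .no .no .no) .no .no
  .no) .no (.red [.f 833 5 3, .t 832 1 3] 121 136 [2, 3] [(121, 136, [2, 3])]) (.red [.f 840 5 1,
  .f 832 1 3, .f 960 3 1, .f 952 1 3] 121 136 [2, 3] [(121, 136, [2, 3]), (136, 136, []), (137,
  136, [3])])

def c27t2021 : Tr4 :=
  .br 1105 .no (.con 136 [3, 3, 1, 4, 2, 4]) (.con 136 [3, 3, 1, 4, 2, 4]) (.hor [.f 1097 3 1, .f
  1089 1 3, .f 1088 3 5] [(153, 136, [3, 1]), (154, 136, [3, 3, 1])]) (.con 136 [3, 3, 1, 4, 2,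
  4]) (.con 136 [3, 3, 1, 4, 2, 4])

def c27t2022 : Tr4 :=
  .br 834 .no (.hor [.f 706 1 5] []) (.use 514) (.br 833 .no (.br 827 (.br 946 .no (.con 136 [4,
  2, 3, 3]) (.br 947 (.br 1219 (.br 1218 (.hor [.f 1218 1 5] []) .no (.br 1098 .no (.red [.f 962 1
  3, .f 962 3 5, .t 826 3 1, .f 955 3 1, .t 1090 3 2] 136 136 [] [(120, 136, [2]), (136, 136,
  [])]) (.br 1208 (.hor [.f 1208 1 5] []) .no (.use 2015) (.use 1913) .no .no) .no (.red [.t 962 1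
  3, .t 826 3 1, .f 955 3 1, .f 963 1 3] 136 136 [] [(120, 136, [2]), (136, 136, [])]) (.hor [.t
  1217 2 3, .f 1088 3 5] [(153, 121, [1, 1])])) .no .no .no) .no (.use 2016) (.red [.f 1083 3 1,
  .f 1082 1 5, .t 946 3 1, .f 954 1 3] 136 136 [] [(135, 136, [4]), (136, 136, []), (152, 136,
  [1])]) .no (.red [.t 1082 1 3, .t 946 3 1, .f 954 1 3, .f 1082 3 1] 136 136 [] [(135, 136, [4]),
  (136, 136, [])])) (.use 1684) .no (.use 1902) .no .no) (.con 136 [4, 2, 3, 3]) (.con 136 [4, 2,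
  3, 3]) (.con 136 [4, 2, 3, 3])) (.hor [.f 699 1 3, .f 826 3 5] [(104, 105, [4])]) .no (.use
  1722) .no .no) (.red [.t 832 1 3] 121 136 [2, 3] [(121, 136, [2, 3])]) (.hor [.f 825 3 5] [])
  .no .no) .no (.br 954 .no (.use 1928) .no (.br 947 (.br 1219 (.br 1218 (.hor [.f 1218 1 5] [])
  .no (.br 1208 (.hor [.f 1208 1 5] []) .no (.br 1098 .no (.br 1072 (.br 1225 (.use 1994) (.red
  [.f 1089 1 3, .f 1088 3 5, .t 952 1 3, .f 1080 3 1, .t 1216 2 3] 136 136 [] [(136, 136, []),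
  (152, 136, [1])]) (.use 2020) .no .no (.red [.t 1088 3 1, .t 952 1 3, .f 961 1 5] 136 136 []
  [(136, 136, []), (153, 121, [1, 1])])) (.use 1905) .no (.br 1225 (.use 2014) (.red [.f 1089 1 3,
  .f 1088 3 5, .t 952 1 3, .f 1080 3 1, .t 1216 2 3] 136 136 [] [(136, 136, []), (152, 136, [1])])
  (.use 2020) .no .no (.red [.t 1088 3 1, .t 952 1 3, .f 961 1 5] 136 136 [] [(136, 136, []),
  (153, 121, [1, 1])])) .no .no) (.use 2015) .no (.br 1225 (.use 2000) (.red [.f 1089 1 3, .f 1088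
  3 5, .t 952 1 3, .f 1080 3 1, .t 1216 2 3] 136 136 [] [(136, 136, []), (152, 136, [1])]) (.use
  2021) .no .no (.red [.t 1088 3 1, .t 952 1 3, .f 961 1 5] 136 136 [] [(136, 136, []), (153, 121,
  [1, 1])])) (.hor [.t 1217 2 3, .f 1088 3 5] [(153, 121, [1, 1])])) (.use 1913) .no .no) .no .no
  .no) .no (.use 2016) (.red [.f 1083 3 1, .f 1082 1 5, .t 946 3 1, .f 954 1 3] 136 136 [] [(135,
  136, [4]), (136, 136, []), (152, 136, [1])]) .no (.red [.t 1082 1 3, .t 946 3 1, .f 954 1 3, .f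
  1082 3 1] 136 136 [] [(135, 136, [4]), (136, 136, [])])) (.use 1684) (.use 1855) (.use 1902) .no
  .no) (.red [.t 1090 2 4, .f 953 3 5] 136 136 [] [(136, 136, [])]) .no)

def c27t2023 : Tr4 :=
  .br 977 .no (.br 840 .no (.br 706 .no (.use 1807) (.red [.t 705 1 3, .t 832 1 3] 105 136 [2, 2,
  3] [(105, 136, [2, 2, 3]), (121, 136, [2, 3])]) .no (.br 843 .no (.red [.f 706 5 1, .f 707 1 3]
  105 136 [2, 2, 3] [(105, 136, [2, 2, 3])]) (.con 136 [2, 2, 3, 3]) .no .no .no) .no) (.red [.t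
  848 4 1] 122 136 [2, 3, 3] [(122, 136, [2, 3, 3])]) .no .no .no) (.use 2019) .no (.red [.f 962 1
  3, .f 962 3 1, .t 1097 3 2] 138 136 [3, 3] [(138, 136, [3, 3])]) (.red [.f 968 5 3, .f 969 3 1]
  138 136 [3, 3] [(138, 136, [3, 3])])

def c27t2024 : Tr4 :=
  .br 1105 .no (.con 136 [3, 3, 1, 4, 2, 4]) (.con 136 [3, 3, 1, 4, 2, 4]) (.hor [.f 1097 3 1, .f
  1089 1 3, .f 1088 3 5] [(153, 136, [3, 1]), (154, 138, [1])]) (.con 136 [3, 3, 1, 4, 2, 4])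
  (.con 136 [3, 3, 1, 4, 2, 4])

def c27t2025 : Tr4 :=
  .br 944 (.use 1905) (.br 1218 (.hor [.f 1218 1 5] []) .no (.br 1211 (.br 1225 (.br 1072 (.use
  1842) .no .no (.use 2013) .no .no) (.red [.f 1089 1 3, .f 1088 3 5, .t 952 1 3, .f 1080 3 1, .t
  1216 2 3] 136 136 [] [(136, 136, []), (152, 136, [1])]) (.br 1099 (.br 1105 .no (.con 136 [3, 3,
  1, 4, 2, 2]) (.con 136 [3, 3, 1, 4, 2, 2]) (.br 977 .no (.br 976 (.red [.t 1104 2 4, .f 969 1 5]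
  138 136 [3, 3] [(138, 136, [3, 3])]) (.hor [.f 848 1 5] []) (.br 1104 (.br 1072 (.br 1201 (.red
  [.f 1201 1 3] 167 136 [4, 1, 1] [(167, 136, [4, 1, 1])]) .no .no (.br 1202 (.use 1984) .no .no
  (.red [.f 1066 3 1, .f 1074 1 3] 151 136 [4, 1] [(150, 136, [4, 4, 1]), (151, 136, [4, 1])])
  (.br 1067 (.red [.t 1066 3 1, .f 1074 1 3, .f 1073 3 5] 151 136 [4, 1] [(150, 136, [4, 4, 1]),
  (151, 136, [4, 1])]) (.hor [.f 939 1 3, .f 1066 3 5] [(134, 136, [4, 4])]) .no (.br 1344 (.use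
  1909) .no (.con 136 [3, 3, 1, 1, 4, 4, 4]) (.red [.f 1208 3 1, .f 1208 1 5, .t 1072 1 3, .f 1081
  1 3, .t 1216 1 4] 151 136 [4, 1] [(151, 136, [4, 1]), (152, 136, [1])]) (.red [.t 1208 3 1, .t
  1072 1 3, .f 1081 1 5] 151 136 [4, 1] [(151, 136, [4, 1]), (168, 167, [3])]) .no) .no .no) .no)
  (.red [.t 1081 4 1, .f 1072 1 5] 151 136 [4, 1] [(151, 136, [4, 1])]) .no) .no .no (.br 1201
  (.red [.f 1201 1 3] 167 136 [4, 1, 1] [(167, 136, [4, 1, 1])]) .no .no (.use 1868) (.red [.t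
  1081 4 1] 151 136 [4, 1] [(151, 136, [4, 1])]) (.br 1346 (.use 1997) .no (.hor [.f 1218 3 1, .f
  1218 1 5] [(169, 136, [3, 1, 1])]) (.hor [.f 1211 1 3, .f 1338 3 5] [(168, 167, [3])]) .no (.br
  1203 (.red [.f 1203 1 3] 167 136 [4, 1, 1] [(167, 136, [4, 1, 1])]) .no .no (.use 1869) .no (.br
  1344 (.use 1884) .no (.con 136 [3, 3, 1, 1, 4, 4, 4]) (.hor [.f 1208 3 1, .f 1208 1 5] [(168,
  167, [3])]) .no .no)))) .no .no) .no (.red [.f 976 3 1, .t 1104 2 4, .f 969 1 5] 138 136 [3, 3]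
  [(138, 136, [3, 3]), (139, 136, [3, 3, 3])]) .no .no .no) .no .no .no) (.use 2019) .no (.red [.f
  962 1 3, .f 962 3 1, .t 1097 3 2] 138 136 [3, 3] [(138, 136, [3, 3])]) (.red [.f 968 5 3, .f 969
  3 1] 138 136 [3, 3] [(138, 136, [3, 3])])) (.con 136 [3, 3, 1, 4, 2, 2]) (.con 136 [3, 3, 1, 4,
  2, 2])) .no (.use 2024) .no .no .no) .no .no (.red [.t 1088 3 1, .t 952 1 3, .f 961 1 5] 136 136
  [] [(136, 136, []), (153, 121, [1, 1])])) .no .no (.use 1918) .no .no) .no .no .no) .no (.hor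
  [.f 936 3 5] []) .no .no

def c27t2026 : Tr4 :=
  .br 1097 (.red [.f 1089 1 3, .f 1088 3 5, .t 952 1 3, .f 1080 3 1, .t 1216 2 3] 136 136 []
  [(136, 136, []), (152, 136, [1])]) .no (.br 1225 (.br 1072 (.use 1994) .no .no (.use 2012) .no
  .no) .no (.br 1099 (.use 2023) .no (.hor [.f 1097 3 1, .f 1089 1 3, .f 1088 3 5] [(153, 121, [1,
  1]), (154, 138, [1])]) .no .no .no) .no .no (.red [.t 1088 3 1, .t 952 1 3, .f 961 1 5] 136 136
  [] [(136, 136, []), (153, 121, [1, 1])])) .no .no .no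

def c27l74 : List Tr4 :=
  [c27t2007, c27t2008, c27t2009, c27t2010, c27t2011, c27t2012, c27t2013, c27t2014, c27t2015,
  c27t2016, c27t2017, c27t2018, c27t2019, c27t2020, c27t2021, c27t2022, c27t2023, c27t2024,
  c27t2025, c27t2026]

theorem c27k74 : chkLF ⟨4, 1, 0, true, -8⟩ false 7 c27N 2007 c27l74 = true := by decide +kernel

def c27t2027 : Tr4 :=
  .br 824 .no (.br 1208 (.hor [.f 1208 1 5] []) .no (.br 954 .no (.use 2005) .no (.br 947 (.br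
  1219 (.br 945 .no (.use 1940) .no (.use 2025) .no (.use 1914)) .no (.use 2003) (.red [.f 1083 3
  1, .f 1082 1 5, .t 946 3 1, .f 954 1 3] 136 136 [] [(135, 136, [4]), (136, 136, []), (152, 136,
  [1])]) .no (.red [.t 1082 1 3, .t 946 3 1, .f 954 1 3, .f 1082 3 1] 136 136 [] [(135, 136, [4]),
  (136, 136, [])])) (.use 1700) (.use 1855) (.use 1902) .no .no) (.red [.t 1090 2 4, .f 953 3 5]
  136 136 [] [(136, 136, [])]) .no) (.use 1938) .no .no) .no (.br 1208 (.hor [.f 1208 1 5] []) .no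
  (.br 944 (.red [.f 944 1 3, .f 1072 3 5, .t 1216 4 2, .f 953 3 1] 136 136 [] [(135, 136, [4]),
  (136, 136, []), (152, 136, [1])]) .no .no (.br 945 .no (.br 954 .no (.use 1933) .no (.br 947
  (.br 826 .no (.br 1219 (.br 1218 (.hor [.f 1218 1 5] []) .no (.br 827 (.use 2026) (.con 136 [2,
  4, 1, 3]) .no (.con 136 [2, 4, 1, 3]) .no .no) .no .no .no) .no (.use 2001) (.red [.f 1083 3 1,
  .f 1082 1 5, .t 946 3 1, .f 954 1 3] 136 136 [] [(135, 136, [4]), (136, 136, []), (152, 136,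
  [1])]) .no (.red [.t 1082 1 3, .t 946 3 1, .f 954 1 3, .f 1082 3 1] 136 136 [] [(135, 136, [4]),
  (136, 136, [])])) .no (.hor [.f 818 3 1, .f 817 1 5] [(119, 136, [4, 2])]) (.con 136 [2, 4, 1,
  3]) (.hor [.t 945 2 3, .f 816 3 5] [(119, 136, [4, 2])])) (.use 1700) (.use 1855) (.use 1902)
  .no .no) (.red [.t 1090 2 4, .f 953 3 5] 136 136 [] [(136, 136, [])]) .no) .no (.hor [.f 936 3
  5] []) (.use 1982) .no) (.red [.t 1080 2 4, .t 1216 4 2, .f 953 3 1] 136 136 [] [(135, 136,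
  [4]), (136, 136, []), (152, 136, [1])]) .no) (.use 1938) .no .no) (.br 954 .no (.use 2005) .no
  (.br 947 (.br 1219 (.br 827 (.br 826 .no (.br 1218 (.hor [.f 1218 1 5] []) .no (.br 1208 (.hor
  [.f 1208 1 5] []) .no (.br 945 .no (.br 944 (.use 1905) (.hor [.f 816 1 5] []) .no (.use 2026)
  .no .no) .no (.use 2025) .no (.use 1914)) (.use 1913) .no .no) .no .no .no) .no (.use 1744) .no
  .no) (.con 136 [2, 4, 1, 3]) .no (.con 136 [2, 4, 1, 3]) .no (.con 136 [2, 4, 1, 3])) .no (.use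
  2016) (.red [.f 1083 3 1, .f 1082 1 5, .t 946 3 1, .f 954 1 3] 136 136 [] [(135, 136, [4]),
  (136, 136, []), (152, 136, [1])]) .no (.red [.t 1082 1 3, .t 946 3 1, .f 954 1 3, .f 1082 3 1]
  136 136 [] [(135, 136, [4]), (136, 136, [])])) (.use 1700) (.use 1855) (.use 1902) .no .no)
  (.red [.t 1090 2 4, .f 953 3 5] 136 136 [] [(136, 136, [])]) .no) .no

def c27t2028 : Tr4 :=
  .br 827 (.br 826 .no (.br 706 .no (.use 1980) (.br 842 .no .no (.use 497) .no (.red [.f 834 5 3,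
  .f 706 3 1] 105 136 [2, 2, 3] [(105, 136, [2, 2, 3])]) (.red [.f 962 1 3, .f 825 3 1, .t 961 2
  3, .t 832 1 3, .t 970 2 4] 121 136 [2, 3] [(120, 104, [1]), (121, 136, [2, 3]), (137, 121,
  [1])])) .no (.red [.f 706 5 1, .f 698 1 3] 104 136 [2, 2] [(104, 136, [2, 2])]) (.red [.t 825 3
  2] 104 136 [2, 2] [(104, 136, [2, 2])])) .no (.use 1744) .no .no) (.con 136 [2, 4, 1, 3]) .no
  (.con 136 [2, 4, 1, 3]) .no (.con 136 [2, 4, 1, 3])

def c27t2029 : Tr4 :=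
  .br 1218 (.hor [.f 1218 1 5] []) .no (.br 1098 .no .no (.use 2015) .no (.use 1945) (.hor [.t
  1217 2 3, .f 1088 3 5] [(153, 121, [1, 1])])) .no .no .no

def c27t2030 : Tr4 :=
  .br 1219 (.use 2029) .no (.use 2002) (.red [.f 1083 3 1, .f 1082 1 5, .t 946 3 1, .f 954 1 3]
  136 136 [] [(135, 136, [4]), (136, 136, []), (152, 136, [1])]) .no (.red [.t 1082 1 3, .t 946 3
  1, .f 954 1 3, .f 1082 3 1] 136 136 [] [(135, 136, [4]), (136, 136, [])])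

def c27t2031 : Tr4 :=
  .br 947 (.br 1219 (.use 2029) .no (.use 1916) (.use 1931) .no (.red [.t 1082 1 3, .t 946 3 1, .f
  954 1 3, .f 1082 3 1] 136 136 [] [(135, 136, [4]), (136, 136, [])])) (.use 1700) .no (.use 1901)
  .no .no

def c27t2032 : Tr4 :=
  .br 947 (.br 1219 (.use 2029) .no (.use 1915) (.red [.f 1083 3 1, .f 1082 1 5, .t 946 3 1, .f
  954 1 3] 136 136 [] [(135, 136, [4]), (136, 136, []), (152, 136, [1])]) .no (.red [.t 1082 1 3,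
  .t 946 3 1, .f 954 1 3, .f 1082 3 1] 136 136 [] [(135, 136, [4]), (136, 136, [])])) (.use 1700)
  .no (.use 1679) .no .no

def c27t2033 : Tr4 :=
  .br 1208 (.hor [.f 1208 1 5] []) .no (.br 1072 (.br 945 .no (.br 954 .no (.use 2005) .no (.br
  947 (.use 2030) (.use 1700) (.use 1854) (.use 1901) .no .no) (.red [.t 1090 2 4, .f 953 3 5] 136
  136 [] [(136, 136, [])]) .no) .no (.br 955 .no (.br 826 (.use 2005) (.br 946 .no (.con 136 [4,
  2, 3, 1]) (.use 2031) (.con 136 [4, 2, 3, 1]) (.con 136 [4, 2, 3, 1]) .no) .no (.use 1744) .no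
  (.br 946 .no (.con 136 [4, 2, 3, 1]) (.use 2031) (.con 136 [4, 2, 3, 1]) (.con 136 [4, 2, 3, 1])
  .no)) .no (.use 1854) .no (.red [.t 1090 2 4, .f 953 3 5] 136 136 [] [(136, 136, [])])) (.use
  1932) (.red [.t 1080 2 4, .t 1216 4 2, .f 953 3 1] 136 136 [] [(135, 136, [4]), (136, 136, []),
  (152, 136, [1])])) (.red [.f 944 1 3, .f 1072 3 5, .t 1216 4 2, .f 953 3 1] 136 136 [] [(135,
  136, [4]), (136, 136, []), (152, 136, [1])]) .no (.br 945 .no (.br 954 .no (.use 1699) .no (.br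
  947 (.use 2030) (.use 1700) (.use 1745) (.use 1679) .no .no) (.red [.t 1090 2 4, .f 953 3 5] 136
  136 [] [(136, 136, [])]) .no) .no (.br 944 .no (.br 955 .no (.br 826 (.use 1699) (.br 946 .no
  (.con 136 [4, 2, 3, 1]) (.use 2032) (.con 136 [4, 2, 3, 1]) (.con 136 [4, 2, 3, 1]) .no) .no
  (.use 1744) .no (.br 946 .no (.con 136 [4, 2, 3, 1]) (.use 2032) (.con 136 [4, 2, 3, 1]) (.con
  136 [4, 2, 3, 1]) .no)) .no (.use 1745) .no (.red [.t 1090 2 4, .f 953 3 5] 136 136 [] [(136,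
  136, [])])) .no (.hor [.f 936 3 5] []) .no .no) (.use 1937) (.red [.t 1080 2 4, .t 1216 4 2, .f
  953 3 1] 136 136 [] [(135, 136, [4]), (136, 136, []), (152, 136, [1])])) .no .no) (.use 1938)
  .no .no

def c27t2034 : Tr4 :=
  .br 1099 (.use 2011) .no (.hor [.f 1098 3 5] []) .no .no .no

def c27t2035 : Tr4 :=
  .br 1225 (.use 2006) (.hor [.f 1089 1 3, .f 1088 3 5] [(153, 121, [1, 1])]) (.use 2034) .no .no
  (.red [.t 1088 3 1, .t 952 1 3, .f 961 1 5] 136 136 [] [(136, 136, []), (153, 121, [1, 1])])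

def c27t2036 : Tr4 :=
  .br 834 .no (.hor [.f 706 1 5] []) (.use 514) (.br 833 .no (.br 827 (.br 946 .no (.con 136 [4,
  2, 3, 3]) (.br 947 (.br 1219 (.br 1218 (.hor [.f 1218 1 5] []) .no (.br 1098 .no (.red [.f 962 1
  3, .f 962 3 5, .t 826 3 1, .f 955 3 1, .t 1090 3 2] 136 136 [] [(120, 136, [2]), (136, 136,
  [])]) (.use 2035) .no (.red [.t 962 1 3, .t 826 3 1, .f 955 3 1, .f 963 1 3] 136 136 [] [(120,
  136, [2]), (136, 136, [])]) (.hor [.f 944 1 3, .f 944 3 1, .t 1217 2 3, .f 1088 3 5] [(153, 121,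
  [1, 1])])) .no .no .no) .no (.use 2007) (.red [.f 1083 3 1, .f 1082 1 5, .t 946 3 1, .f 954 1 3]
  136 136 [] [(135, 136, [4]), (136, 136, []), (152, 136, [1])]) .no (.red [.t 1082 1 3, .t 946 3
  1, .f 954 1 3, .f 1082 3 1] 136 136 [] [(135, 136, [4]), (136, 136, [])])) (.use 1684) .no (.use
  1678) .no .no) (.con 136 [4, 2, 3, 3]) (.con 136 [4, 2, 3, 3]) (.con 136 [4, 2, 3, 3])) (.hor
  [.f 699 1 3, .f 826 3 5] [(104, 105, [4])]) .no (.use 1722) .no .no) (.red [.t 832 1 3] 121 136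
  [2, 3] [(121, 136, [2, 3])]) (.hor [.f 825 3 5] []) .no .no) .no (.br 954 .no (.use 1991) .no
  (.br 947 (.br 1219 (.br 827 (.br 826 .no (.br 824 .no (.use 1952) .no (.use 1990) (.br 1218
  (.hor [.f 1218 1 5] []) .no (.br 1225 (.use 2006) (.hor [.f 1089 1 3, .f 1088 3 5] [(153, 121,
  [1, 1])]) (.br 1098 .no (.br 841 .no (.br 1097 .no .no (.br 1099 (.br 977 .no (.use 503) (.use
  2018) .no (.red [.t 960 2 4, .t 1097 3 2] 138 136 [3, 3] [(120, 121, [4]), (138, 136, [3, 3])])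
  (.red [.f 968 5 3, .f 969 3 1] 138 136 [3, 3] [(138, 136, [3, 3])])) .no (.hor [.f 1097 3 1, .f
  1089 1 3, .f 1088 3 5] [(153, 121, [1, 1]), (154, 138, [1])]) .no .no .no) .no .no .no) (.br
  1097 .no .no (.br 1099 (.br 977 .no .no (.use 2018) .no (.red [.t 960 2 4, .t 1097 3 2] 138 136
  [3, 3] [(120, 121, [4]), (138, 136, [3, 3])]) (.red [.f 968 5 3, .f 969 3 1] 138 136 [3, 3]
  [(138, 136, [3, 3])])) .no (.hor [.f 1097 3 1, .f 1089 1 3, .f 1088 3 5] [(153, 121, [1, 1]),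
  (154, 138, [1])]) .no .no .no) .no .no .no) .no (.red [.f 833 5 3, .t 832 1 3] 121 136 [2, 3]
  [(121, 136, [2, 3])]) (.red [.f 840 5 1, .f 832 1 3, .f 960 3 1, .f 952 1 3] 121 136 [2, 3]
  [(121, 136, [2, 3]), (136, 136, []), (137, 136, [3])])) (.use 2034) .no (.use 2021) (.hor [.f
  944 1 3, .f 944 3 1, .t 1217 2 3, .f 1088 3 5] [(153, 121, [1, 1])])) .no .no (.red [.t 1088 3
  1, .t 952 1 3, .f 961 1 5] 136 136 [] [(136, 136, []), (153, 121, [1, 1])])) .no .no .no) .no)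
  .no (.use 1744) .no (.br 1218 (.hor [.f 1218 1 5] []) .no (.br 1098 .no (.br 1225 (.use 2006)
  (.hor [.f 1089 1 3, .f 1088 3 5] [(153, 121, [1, 1])]) (.use 2020) .no .no (.red [.t 1088 3 1,
  .t 952 1 3, .f 961 1 5] 136 136 [] [(136, 136, []), (153, 121, [1, 1])])) (.use 2035) .no (.red
  [.t 962 1 3, .f 825 5 3, .t 826 3 1, .f 955 3 1, .f 963 1 3] 136 136 [] [(120, 136, [2]), (136,
  136, [])]) (.hor [.f 944 1 3, .f 944 3 1, .t 1217 2 3, .f 1088 3 5] [(153, 121, [1, 1])])) .no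
  .no .no)) (.con 136 [2, 4, 1, 3]) .no (.con 136 [2, 4, 1, 3]) .no (.con 136 [2, 4, 1, 3])) .no
  (.use 2007) (.red [.f 1083 3 1, .f 1082 1 5, .t 946 3 1, .f 954 1 3] 136 136 [] [(135, 136,
  [4]), (136, 136, []), (152, 136, [1])]) .no (.red [.t 1082 1 3, .t 946 3 1, .f 954 1 3, .f 1082
  3 1] 136 136 [] [(135, 136, [4]), (136, 136, [])])) (.use 1684) (.use 1589) (.use 1678) .no .no)
  (.red [.t 1090 2 4, .f 953 3 5] 136 136 [] [(136, 136, [])]) .no)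

def c27t2037 : Tr4 :=
  .br 947 (.use 1697) (.use 1690) (.use 1589) (.use 1691) .no (.use 1698)

def c27t2038 : Tr4 :=
  .br 833 .no (.br 841 .no (.red [.f 705 1 3] 105 136 [2, 2, 3] [(105, 136, [2, 2, 3])]) (.use
  450) .no (.br 954 .no (.use 2037) .no (.br 947 (.br 1219 (.br 827 (.br 1218 (.hor [.f 1218 1 5]
  []) .no (.br 1225 (.use 2006) (.hor [.f 1089 1 3, .f 1088 3 5] [(153, 121, [1, 1])]) (.br 826
  .no (.br 1099 (.br 1105 .no (.con 136 [3, 3, 1, 4, 2, 2]) (.con 136 [3, 3, 1, 4, 2, 2]) (.use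
  2023) (.con 136 [3, 3, 1, 4, 2, 2]) (.con 136 [3, 3, 1, 4, 2, 2])) .no (.use 2024) .no .no .no)
  .no (.use 1744) .no (.br 945 .no (.use 1835) .no (.br 1099 (.br 1064 (.use 1947) (.hor [.f 936 1
  3, .f 936 3 5] [(134, 136, [4, 4])]) .no (.br 1224 (.br 1201 (.br 1202 (.hor [.f 1201 1 5] [])
  .no .no (.red [.f 1066 3 1, .f 1074 1 3] 151 136 [4, 1] [(150, 136, [4, 4, 1]), (151, 136, [4,
  1])]) (.br 1336 (.use 1953) .no (.con 136 [1, 1, 3, 3]) (.red [.t 1328 3 2] 167 136 [4, 1, 1]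
  [(167, 136, [4, 1, 1])]) (.red [.f 944 1 3, .f 944 3 1, .f 1208 5 1, .f 1201 1 3] 167 136 [4, 1,
  1] [(167, 136, [4, 1, 1])]) .no) .no) .no .no (.use 1865) (.red [.f 944 1 3, .f 944 3 1, .t 1081
  4 1] 151 136 [4, 1] [(151, 136, [4, 1])]) (.red [.f 1200 5 3, .f 1073 3 1, .f 1081 1 3] 151 136
  [4, 1] [(151, 136, [4, 1]), (152, 136, [1])])) .no (.hor [.f 1224 3 5] []) (.hor [.f 1088 3 1,
  .f 1088 1 5] [(153, 169, [2])]) .no .no) (.use 1949) .no) .no (.use 2024) .no .no .no) .no .no))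
  .no .no (.red [.t 1088 3 1, .t 952 1 3, .f 961 1 5] 136 136 [] [(136, 136, []), (153, 121, [1,
  1])])) .no .no .no) (.con 136 [2, 4, 1, 3]) .no (.con 136 [2, 4, 1, 3]) .no (.con 136 [2, 4, 1,
  3])) .no (.use 2007) (.red [.f 1083 3 1, .f 1082 1 5, .t 946 3 1, .f 954 1 3] 136 136 [] [(135,
  136, [4]), (136, 136, []), (152, 136, [1])]) .no (.red [.t 1082 1 3, .t 946 3 1, .f 954 1 3, .f
  1082 3 1] 136 136 [] [(135, 136, [4]), (136, 136, [])])) (.use 1700) (.use 1589) (.use 1678) .no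
  .no) (.red [.t 1090 2 4, .f 953 3 5] 136 136 [] [(136, 136, [])]) .no) (.red [.f 840 5 1, .f 832
  1 3, .f 960 3 1, .f 952 1 3] 121 136 [2, 3] [(121, 136, [2, 3]), (136, 136, []), (137, 136,
  [3])])) (.red [.t 832 1 3] 121 136 [2, 3] [(121, 136, [2, 3])]) (.br 954 .no (.use 2037) .no
  (.br 947 (.use 2028) (.use 1700) (.use 1589) (.use 1678) .no .no) (.red [.t 1090 2 4, .f 953 3
  5] 136 136 [] [(136, 136, [])]) .no) .no .no

def c27t2039 : Tr4 :=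
  .br 947 (.br 1219 (.br 1218 (.hor [.f 1218 1 5] []) .no (.br 1098 .no .no (.use 2035) .no (.red
  [.t 962 1 3, .f 834 5 1, .f 827 1 3, .f 955 3 1, .f 963 1 3] 136 136 [] [(120, 136, [2]), (136,
  136, [])]) (.hor [.f 944 1 3, .f 944 3 1, .t 1217 2 3, .f 1088 3 5] [(153, 121, [1, 1])])) .no
  .no .no) .no (.use 2007) (.red [.f 1083 3 1, .f 1082 1 5, .t 946 3 1, .f 954 1 3] 136 136 []
  [(135, 136, [4]), (136, 136, []), (152, 136, [1])]) .no (.red [.t 1082 1 3, .t 946 3 1, .f 954 1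
  3, .f 1082 3 1] 136 136 [] [(135, 136, [4]), (136, 136, [])])) (.use 1700) .no (.use 1678) .no
  .no

def c27l75 : List Tr4 :=
  [c27t2027, c27t2028, c27t2029, c27t2030, c27t2031, c27t2032, c27t2033, c27t2034, c27t2035,
  c27t2036, c27t2037, c27t2038, c27t2039]

theorem c27k75 : chkLF ⟨4, 1, 0, true, -8⟩ false 7 c27N 2027 c27l75 = true := by decide +kernel

def c27t2040 : Tr4 :=
  .br 1074 (.red [.f 1074 1 3, .f 1073 3 5] 151 136 [4, 1] [(151, 136, [4, 1])]) (.br 1072 (.red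
  [.t 1072 1 3, .f 1081 1 5] 151 136 [4, 1] [(151, 136, [4, 1])]) (.use 1759) .no (.br 947 (.hor
  [.f 946 1 5] []) (.use 1924) (.br 826 (.br 833 .no (.br 824 .no (.use 1926) .no (.use 1967) (.br
  827 .no (.use 1858) (.use 492) (.red [.f 819 3 1, .f 826 1 5] 119 136 [2, 4] [(119, 136, [2,
  4])]) .no .no) .no) (.red [.t 832 1 3] 121 136 [2, 3] [(121, 136, [2, 3])]) (.red [.f 825 3 1,
  .f 825 1 5, .t 1073 3 2, .f 946 3 5, .t 1090 2 4, .t 961 2 4] 136 136 [] [(135, 119, [1]), (136,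
  136, [])]) (.red [.t 953 3 2, .t 1073 3 2, .f 946 3 5, .t 1090 2 4, .f 826 3 1] 136 136 []
  [(135, 119, [1]), (136, 136, [])]) .no) (.con 136 [4, 2, 3, 3]) (.con 136 [4, 2, 3, 3]) (.con
  136 [4, 2, 3, 3]) (.con 136 [4, 2, 3, 3]) (.con 136 [4, 2, 3, 3])) (.use 1763) .no .no) .no .no)
  .no (.br 1072 (.red [.t 1072 1 3, .f 1081 1 5] 151 136 [4, 1] [(151, 136, [4, 1])]) (.br 835 .no
  (.use 2036) (.red [.f 835 3 1] 121 136 [2, 3] [(121, 136, [2, 3])]) (.use 1959) .no (.br 970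
  (.use 2038) (.red [.t 970 2 4] 121 136 [2, 3] [(121, 136, [2, 3])]) (.br 955 .no (.br 945 .no
  (.br 826 (.use 2037) (.br 946 .no (.con 136 [4, 2, 3, 3]) (.use 2039) (.con 136 [4, 2, 3, 3])
  (.con 136 [4, 2, 3, 3]) .no) .no (.use 1744) .no (.use 1835)) .no (.br 826 (.use 2037) (.br 946
  .no (.con 136 [4, 2, 3, 3]) (.use 2039) (.con 136 [4, 2, 3, 3]) (.con 136 [4, 2, 3, 3]) .no) .no
  (.use 1744) .no (.br 946 .no (.con 136 [4, 2, 3, 3]) (.use 2039) (.con 136 [4, 2, 3, 3]) (.con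
  136 [4, 2, 3, 3]) .no)) (.use 1837) .no) .no (.use 1589) .no (.red [.t 1090 2 4, .f 953 3 5] 136
  136 [] [(136, 136, [])])) .no .no .no)) .no (.use 1965) .no .no) (.use 1966) .no

def c27t2041 : Tr4 :=
  .br 968 .no (.red [.f 832 1 3, .f 960 3 1, .f 952 1 3, .f 952 3 5] 121 136 [2, 3] [(121, 136,
  [2, 3]), (136, 136, []), (137, 136, [3])]) (.br 969 (.br 824 .no (.br 1209 (.br 970 (.hor [.f
  969 1 5] []) (.use 1923) (.use 1946) .no .no .no) .no .no (.red [.f 1073 3 1, .f 1081 1 5] 151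
  136 [4, 1] [(151, 136, [4, 1])]) .no (.br 1074 (.red [.f 1074 1 3, .f 1073 3 5] 151 136 [4, 1]
  [(151, 136, [4, 1])]) (.use 1927) .no (.br 1072 (.red [.t 1072 1 3, .f 1081 1 5] 151 136 [4, 1]
  [(151, 136, [4, 1])]) (.use 1964) .no (.use 1965) .no .no) (.use 1966) .no)) .no (.br 1209 (.br
  1074 (.red [.f 1074 1 3, .f 1073 3 5] 151 136 [4, 1] [(151, 136, [4, 1])]) (.use 1968) .no (.use
  1983) (.use 1903) .no) .no .no (.red [.f 1073 3 1, .f 1081 1 5] 151 136 [4, 1] [(151, 136, [4,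
  1])]) .no (.br 1074 (.red [.f 1074 1 3, .f 1073 3 5] 151 136 [4, 1] [(151, 136, [4, 1])]) (.use
  1968) .no (.br 1072 (.red [.t 1072 1 3, .f 1081 1 5] 151 136 [4, 1] [(151, 136, [4, 1])]) (.br
  835 .no (.use 1992) (.red [.f 835 3 1] 121 136 [2, 3] [(121, 136, [2, 3])]) (.use 1959) .no (.br
  970 (.hor [.f 969 1 5] []) (.red [.t 970 2 4] 121 136 [2, 3] [(121, 136, [2, 3])]) (.br 955 .no
  (.br 1098 (.br 826 (.hor [.f 826 1 5] []) (.br 825 .no (.hor [.f 697 1 5] []) (.br 706 .no (.use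
  1980) (.use 1981) .no (.red [.f 706 5 1, .f 698 1 3] 104 136 [2, 2] [(104, 136, [2, 2])]) (.red
  [.t 825 3 2] 104 136 [2, 2] [(104, 136, [2, 2])])) (.hor [.f 816 3 5] []) .no .no) .no (.use
  1744) .no (.use 1963)) .no (.hor [.f 970 3 1, .f 969 1 5] [(138, 122, [1])]) .no (.red [.t 962 1
  3, .f 834 5 1, .f 827 1 3, .f 955 3 1, .f 963 1 3] 136 136 [] [(120, 136, [2]), (136, 136, [])])
  .no) .no (.use 1589) .no (.red [.t 1090 2 4, .f 953 3 5] 136 136 [] [(136, 136, [])])) .no .no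
  .no)) .no (.use 1965) .no .no) (.use 1966) .no)) (.red [.t 960 2 4, .t 1096 4 2, .f 952 1 3, .f
  824 3 1] 136 136 [] [(136, 136, []), (137, 136, [3])]) .no) (.use 500) (.hor [.f 968 3 5] [])
  .no (.use 2010) .no) .no (.br 1209 (.br 1074 (.red [.f 1074 1 3, .f 1073 3 5] 151 136 [4, 1]
  [(151, 136, [4, 1])]) (.br 947 (.hor [.f 946 1 5] []) (.use 1924) (.br 826 (.br 833 .no (.br 824
  .no (.use 1926) .no (.use 1967) (.br 827 .no (.use 1849) (.use 492) (.red [.f 819 3 1, .f 826 1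
  5] 119 136 [2, 4] [(119, 136, [2, 4])]) .no .no) .no) (.red [.t 832 1 3] 121 136 [2, 3] [(121,
  136, [2, 3])]) (.red [.f 825 3 1, .f 825 1 5, .t 1073 3 2, .f 946 3 5, .t 1090 2 4, .t 961 2 4]
  136 136 [] [(135, 119, [1]), (136, 136, [])]) (.red [.t 953 3 2, .t 1073 3 2, .f 946 3 5, .t
  1090 2 4, .f 826 3 1] 136 136 [] [(135, 119, [1]), (136, 136, [])]) .no) (.con 136 [4, 2, 3, 3])
  (.con 136 [4, 2, 3, 3]) (.con 136 [4, 2, 3, 3]) (.con 136 [4, 2, 3, 3]) (.con 136 [4, 2, 3, 3]))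
  (.use 1763) .no .no) .no (.br 835 .no (.use 2022) (.red [.f 835 3 1] 121 136 [2, 3] [(121, 136,
  [2, 3])]) (.use 1922) .no (.br 970 (.br 833 .no (.br 841 .no (.red [.f 705 1 3] 105 136 [2, 2,
  3] [(105, 136, [2, 2, 3])]) (.use 450) .no (.use 2027) (.red [.f 840 5 1, .f 832 1 3, .f 960 3
  1, .f 952 1 3] 121 136 [2, 3] [(121, 136, [2, 3]), (136, 136, []), (137, 136, [3])])) (.red [.t
  832 1 3] 121 136 [2, 3] [(121, 136, [2, 3])]) (.br 954 .no (.use 2005) .no (.br 947 (.use 2028)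
  (.use 1700) (.use 1855) (.use 1902) .no .no) (.red [.t 1090 2 4, .f 953 3 5] 136 136 [] [(136,
  136, [])]) .no) .no .no) (.red [.t 970 2 4] 121 136 [2, 3] [(121, 136, [2, 3])]) (.use 2033) .no
  .no .no)) (.use 1903) .no) .no .no (.red [.f 1073 3 1, .f 1081 1 5] 151 136 [4, 1] [(151, 136,
  [4, 1])]) .no (.use 2040)) .no

def c27t2042 : Tr4 :=
  .br 1088 (.br 1089 (.hor [.f 1088 1 5] []) .no (.br 963 .no (.br 955 .no (.red [.f 827 1 3, .f
  955 3 1, .f 962 1 5] 136 136 [] [(120, 136, [2]), (136, 136, [])]) .no (.br 954 (.red [.f 954 1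
  3, .f 953 3 5] 136 136 [] [(136, 136, [])]) (.br 827 .no (.use 1676) .no (.red [.f 819 3 1, .f
  826 1 5] 119 136 [2, 4] [(119, 136, [2, 4])]) .no .no) .no (.hor [.f 946 3 5] []) .no .no) .no
  (.red [.t 1090 2 4, .f 953 3 5] 136 136 [] [(136, 136, [])])) (.br 1082 (.br 1096 (.red [.f 1088
  1 3, .f 1088 3 5] 153 136 [3, 1] [(153, 136, [3, 1])]) (.use 1747) (.br 1074 (.red [.f 1074 1 3,
  .f 1073 3 5] 151 136 [4, 1] [(151, 136, [4, 1])]) (.use 1782) .no (.br 1224 (.br 960 .no (.use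
  1820) (.br 1217 (.use 1826) .no (.red [.f 1089 3 1, .f 1088 1 5] 153 136 [3, 1] [(153, 136, [3,
  1])]) (.br 955 .no (.use 1839) .no (.use 1746) .no (.red [.t 1090 2 4, .f 953 3 5] 136 136 []
  [(136, 136, [])])) (.use 1781) .no) .no .no .no) .no (.red [.f 1096 3 1, .f 1088 1 3, .f 1088 3
  5] 153 136 [3, 1] [(153, 136, [3, 1]), (154, 136, [3, 3, 1])]) .no (.red [.t 1088 1 3, .t 952 1
  3, .f 961 1 5] 153 136 [3, 1] [(136, 136, []), (153, 136, [3, 1])]) .no) (.use 1743) .no) .no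
  .no .no) (.red [.f 954 1 3, .f 953 3 5] 136 136 [] [(136, 136, [])]) .no (.hor [.f 1073 3 5] [])
  .no .no) (.red [.f 955 3 1, .f 962 1 5] 136 136 [] [(136, 136, [])]) .no .no) .no .no .no) (.red
  [.f 952 1 3, .f 952 3 5] 136 136 [] [(136, 136, [])]) (.br 960 .no (.br 1082 (.br 1089 (.br 963
  .no (.br 955 .no (.red [.f 827 1 3, .f 955 3 1, .f 962 1 5] 136 136 [] [(120, 136, [2]), (136,
  136, [])]) .no (.br 1209 (.br 1074 (.red [.f 1074 1 3, .f 1073 3 5] 151 136 [4, 1] [(151, 136,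
  [4, 1])]) (.use 1853) .no (.use 1855) (.br 1211 (.use 1856) .no (.red [.f 1083 3 1, .f 1082 1 5,
  .f 1074 5 3, .f 1073 3 5, .t 961 4 1] 136 136 [] [(136, 136, []), (152, 136, [1])]) (.red [.t
  1210 2 4, .f 1073 3 5] 151 136 [4, 1] [(151, 136, [4, 1])]) .no .no) .no) .no .no (.red [.f 1073
  3 1, .f 1081 1 5] 151 136 [4, 1] [(151, 136, [4, 1])]) .no (.br 1072 (.red [.t 1072 1 3, .f 1081
  1 5] 151 136 [4, 1] [(151, 136, [4, 1])]) (.br 1074 (.red [.f 1074 1 3, .f 1073 3 5] 151 136 [4,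
  1] [(151, 136, [4, 1])]) (.con 136 [4, 4]) .no (.use 1589) (.use 1857) .no) .no (.br 1074 (.red
  [.f 1074 1 3, .f 1073 3 5] 151 136 [4, 1] [(151, 136, [4, 1])]) (.br 826 (.br 827 .no (.br 833
  .no (.br 824 .no (.use 1650) .no (.use 533) (.use 1858) .no) (.br 834 .no (.br 824 .no (.br 944
  .no (.use 1638) .no (.use 1621) (.use 1851) .no) .no (.use 1852) (.use 1858) .no) (.hor [.f 833
  3 5] []) .no .no .no) (.red [.f 825 3 1, .f 825 1 5, .t 1073 3 2, .f 946 3 5, .t 1090 2 4, .t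
  961 2 4] 136 136 [] [(135, 119, [1]), (136, 136, [])]) (.red [.t 953 3 2, .t 1073 3 2, .f 946 3
  5, .t 834 4 1, .f 955 3 1] 136 136 [] [(135, 119, [1]), (136, 136, [])]) .no) .no (.red [.f 819
  3 1, .f 826 1 5] 119 136 [2, 4] [(119, 136, [2, 4])]) .no .no) (.con 136 [4, 2, 3, 1]) (.con 136
  [4, 2, 3, 1]) (.con 136 [4, 2, 3, 1]) (.con 136 [4, 2, 3, 1]) (.con 136 [4, 2, 3, 1])) .no (.use
  1745) (.use 1859) .no) .no .no)) .no (.red [.t 1090 2 4, .f 953 3 5] 136 136 [] [(136, 136,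
  [])])) (.use 2041) (.red [.f 955 3 1, .f 962 1 5] 136 136 [] [(136, 136, [])]) .no .no) .no
  (.hor [.f 1088 3 5] []) .no .no .no) (.red [.f 954 1 3, .f 953 3 5] 136 136 [] [(136, 136, [])])
  .no (.hor [.f 1073 3 5] []) .no .no) (.red [.f 960 3 1, .f 952 1 3, .f 952 3 5] 136 136 []
  [(136, 136, []), (137, 136, [3])]) .no .no .no) .no (.red [.t 952 1 3, .f 961 1 5] 136 136 []
  [(136, 136, [])]) .no

def c27t2043 : Tr4 :=
  .br 1081 (.br 1089 (.red [.f 1081 1 3, .f 953 3 1] 136 136 [] [(136, 136, []), (152, 136, [1])])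
  .no (.br 1082 (.hor [.f 1081 1 5] []) (.red [.f 954 1 3, .f 953 3 5] 136 136 [] [(136, 136,
  [])]) .no (.br 954 .no (.br 955 .no (.hor [.f 826 1 5] []) (.red [.f 955 3 1, .f 962 1 5] 136
  136 [] [(136, 136, [])]) (.br 1088 (.use 1584) (.red [.f 952 1 3, .f 952 3 5] 136 136 [] [(136,
  136, [])]) (.hor [.f 1088 3 5] []) .no .no .no) .no .no) .no (.red [.f 946 3 1, .f 954 1 3] 136
  136 [] [(135, 136, [4]), (136, 136, [])]) (.red [.t 1090 2 4, .f 953 3 5] 136 136 [] [(136, 136,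
  [])]) .no) .no .no) .no .no (.red [.t 952 1 3, .f 961 1 5] 136 136 [] [(136, 136, [])])) .no
  (.red [.f 953 3 1, .f 952 1 5] 136 136 [] [(136, 136, [])]) (.use 2042) (.red [.t 961 4 1, .f
  952 1 5] 136 136 [] [(136, 136, [])]) .no

def c27l76 : List Tr4 :=
  [c27t2040, c27t2041, c27t2042, c27t2043]

theorem c27k76 : chkLF ⟨4, 1, 0, true, -8⟩ false 7 c27N 2040 c27l76 = true := by decide +kernel

end Pool.Agent.FT4D
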