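import Pool.Agent.FT4D.Tab_c27

/-!
# Four levels: decision trees (found by a computer search)
-/

namespace Pool.Agent.FT4D

def c27t512 : Tr4 :=
  .br 1346 (.br 1347 (.hor [.f 1346 1 5] []) .no (.use 291) (.br 978 (.red [.t 962 1 3, .f 1089 3
  5, .f 969 5 1, .f 970 1 3] 138 136 [3, 3] [(137, 121, [1]), (138, 136, [3, 3])]) .no (.use 511)
  .no (.br 1224 (.use 376) .no (.br 1104 .no (.red [.f 825 3 1, .f 968 1 3, .f 1096 3 1, .f 1088 1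
  3] 138 136 [3, 3] [(120, 104, [1]), (138, 136, [3, 3]), (153, 136, [3, 1]), (154, 136, [3, 3,
  1])]) (.br 1105 (.red [.f 825 3 1, .f 832 1 5, .t 1096 2 4, .t 1232 4 2] 154 136 [3, 3, 1]
  [(120, 104, [1]), (137, 121, [1]), (154, 136, [3, 3, 1])]) (.con 136 [3, 3, 3]) (.hor [.f 1104 3
  5] []) .no (.use 301) .no) .no (.red [.t 1089 3 2, .f 968 1 5, .f 1096 5 3, .f 1096 3 1] 154 136
  [3, 3, 1] [(137, 121, [1]), (154, 136, [3, 3, 1])]) .no) .no .no .no) (.red [.f 969 5 3, .f 842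
  3 1] 122 136 [2, 3, 3] [(122, 136, [2, 3, 3])])) .no .no) .no (.red [.t 1345 2 3] 169 136 [3, 1,
  1] [(169, 136, [3, 1, 1])]) (.br 978 (.red [.t 962 1 3, .f 1089 3 5, .f 969 5 1, .f 970 1 3] 138
  136 [3, 3] [(137, 121, [1]), (138, 136, [3, 3])]) .no (.use 511) .no (.br 818 .no (.use 32) .no
  (.red [.f 810 3 1, .f 818 1 3] 119 136 [2, 4] [(118, 136, [2, 4, 4]), (119, 136, [2, 4])]) (.red
  [.f 825 3 1, .f 825 1 3, .t 954 2 4] 119 136 [2, 4] [(119, 136, [2, 4])]) (.br 1075 (.red [.t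
  1074 3 1, .f 1081 1 5, .t 961 4 1] 136 136 [] [(136, 136, []), (151, 135, [1])]) .no .no (.br
  1203 (.br 840 .no (.hor [.f 712 1 5] []) (.br 1339 (.br 1347 (.red [.f 1339 1 3, .f 1338 3 5]
  184 136 [1, 1, 1] [(184, 136, [1, 1, 1])]) .no (.br 1224 (.con 136 [3, 1, 1, 3]) .no (.br 1104
  .no (.red [.f 968 1 3, .f 840 3 1] 122 136 [2, 3, 3] [(122, 136, [2, 3, 3]), (138, 136, [3,
  3])]) (.br 1105 (.red [.f 825 3 1, .f 832 1 5, .t 1096 2 4, .t 1232 4 2] 154 136 [3, 3, 1]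
  [(120, 104, [1]), (137, 121, [1]), (154, 136, [3, 3, 1])]) (.con 136 [3, 3, 3]) (.hor [.f 1104 3
  5] []) .no (.br 1201 (.use 304) .no .no (.br 816 .no (.use 292) .no (.br 936 (.red [.f 944 5 1,
  .f 936 1 3, .f 808 3 1] 118 136 [2, 4, 4] [(118, 136, [2, 4, 4]), (134, 136, [4, 4])]) .no .no
  (.br 937 (.use 295) (.red [.t 937 2 3, .f 808 3 5] 118 136 [2, 4, 4] [(118, 136, [2, 4, 4])])
  .no (.hor [.f 928 3 5] []) .no .no) (.red [.f 936 5 3, .f 808 3 1] 118 136 [2, 4, 4] [(118, 136,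
  [2, 4, 4])]) .no) .no .no) (.red [.t 1089 3 2, .t 969 1 4, .t 1081 1 4, .t 961 4 1] 136 136 []
  [(136, 136, []), (151, 135, [1])]) (.red [.f 1072 5 1, .f 1073 1 3, .f 1073 3 5, .t 961 4 1] 136
  136 [] [(136, 136, []), (151, 135, [1])])) .no) .no (.red [.t 1089 3 2, .f 968 1 5, .f 1096 5 3,
  .f 1096 3 1] 154 136 [3, 3, 1] [(137, 121, [1]), (154, 136, [3, 3, 1])]) .no) .no .no .no) .no
  .no .no) .no (.hor [.f 1338 3 5] []) .no .no .no) .no .no .no) .no .no (.hor [.f 1067 3 1, .t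
  1074 3 1, .f 1081 1 5] [(150, 118, [1, 1]), (151, 119, [1, 1])]) .no (.red [.f 1202 5 3, .f 1074
  3 1, .f 1081 1 5, .t 961 4 1] 136 136 [] [(136, 136, []), (151, 135, [1])])) .no .no)) (.red [.f
  969 5 3, .f 842 3 1] 122 136 [2, 3, 3] [(122, 136, [2, 3, 3])])) (.use 498) .no

def c27t513 : Tr4 :=
  .br 1224 (.use 440) .no (.red [.f 1096 3 1] 154 136 [3, 3, 1] [(154, 136, [3, 3, 1])]) .no .no
  .no

def c27t514 : Tr4 :=
  .br 833 .no (.con 136 [2, 2, 3]) (.hor [.f 833 3 5] []) (.con 136 [2, 2, 3]) .no .no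

def c27t515 : Tr4 :=
  .br 834 .no (.hor [.f 706 1 5] []) (.use 514) .no .no (.use 507)

def c27t516 : Tr4 :=
  .br 936 (.red [.f 944 5 1, .f 936 1 3, .f 808 3 1] 118 136 [2, 4, 4] [(118, 136, [2, 4, 4]),
  (134, 136, [4, 4])]) .no .no (.br 937 (.br 1064 (.hor [.t 1192 2 3, .f 1073 1 3, .f 1073 3 5]
  [(150, 119, [1, 1, 4]), (151, 119, [1, 1])]) .no .no (.red [.f 928 3 1, .f 936 1 5] 133 136 [4,
  4, 4] [(133, 136, [4, 4, 4])]) .no .no) (.red [.t 808 3 1, .f 937 3 5] 118 136 [2, 4, 4] [(118,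
  136, [2, 4, 4])]) .no (.hor [.f 928 3 5] []) .no .no) (.red [.f 936 5 3, .f 808 3 1] 118 136 [2,
  4, 4] [(118, 136, [2, 4, 4])]) .no

def c27t517 : Tr4 :=
  .br 818 .no .no .no (.red [.f 810 3 1, .f 818 1 3] 119 136 [2, 4] [(118, 136, [2, 4, 4]), (119,
  136, [2, 4])]) (.red [.t 954 2 4, .f 690 3 1] 103 136 [2, 2, 4] [(103, 136, [2, 2, 4]), (119,
  136, [2, 4])]) (.red [.f 696 5 1, .t 697 1 4] 103 136 [2, 2, 4] [(103, 136, [2, 2, 4])])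

def c27t518 : Tr4 :=
  .br 697 .no (.red [.f 569 1 3] 88 136 [2, 2, 2] [(88, 136, [2, 2, 2])]) .no (.hor [.f 689 3 5]
  []) .no (.use 517)

def c27t519 : Tr4 :=
  .br 1202 (.hor [.f 1201 1 5] []) .no .no (.hor [.f 1194 3 5] []) .no .no

def c27t520 : Tr4 :=
  .br 1339 (.red [.f 1339 1 3, .f 1338 3 5] 184 136 [1, 1, 1] [(184, 136, [1, 1, 1])]) .no .no
  (.br 1203 .no (.red [.t 1074 3 1, .f 1081 1 5, .t 961 4 1] 136 136 [] [(136, 136, []), (151,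
  135, [1])]) .no (.use 519) .no (.red [.f 1202 5 3, .f 1074 3 1, .f 1081 1 5, .t 961 4 1] 136 136
  [] [(136, 136, []), (151, 135, [1])])) .no .no

def c27t521 : Tr4 :=
  .br 1347 (.use 520) .no (.con 136 [3, 1, 1, 3]) (.use 376) .no .no

def c27t522 : Tr4 :=
  .br 1201 (.use 521) .no .no (.hor [.f 1065 3 1, .f 1072 1 5] [(150, 136, [4, 4, 1])]) (.red [.t
  1089 3 2, .t 969 1 4, .t 1081 1 4, .t 961 4 1] 136 136 [] [(136, 136, []), (151, 135, [1])]) .no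

def c27t523 : Tr4 :=
  .br 1202 (.hor [.t 1330 2 3, .f 1074 3 1, .f 1081 1 5] [(151, 136, [4, 1]), (167, 136, [4, 1,
  1])]) .no .no (.hor [.f 1193 3 5] []) .no .no

def c27t524 : Tr4 :=
  .br 1347 (.br 1339 (.red [.f 1339 1 3, .f 1338 3 5] 184 136 [1, 1, 1] [(184, 136, [1, 1, 1])])
  .no .no (.br 1203 .no (.red [.t 1074 3 1, .f 1081 1 5, .t 961 4 1] 136 136 [] [(136, 136, []),
  (151, 135, [1])]) .no (.use 523) .no (.red [.f 1202 5 3, .f 1074 3 1, .f 1081 1 5, .t 961 4 1]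
  136 136 [] [(136, 136, []), (151, 135, [1])])) .no .no) .no (.con 136 [3, 1, 1, 3]) (.use 376)
  .no .no

def c27t525 : Tr4 :=
  .br 1208 (.br 1201 (.use 521) .no .no (.use 524) (.red [.t 1089 3 2, .t 969 1 4, .t 1081 1 4, .t
  961 4 1] 136 136 [] [(136, 136, []), (151, 135, [1])]) (.red [.f 1072 5 1, .f 1073 1 3, .f 1073
  3 5, .t 961 4 1] 136 136 [] [(136, 136, []), (151, 135, [1])])) .no .no (.red [.t 1208 4 2, .f
  1073 3 5, .t 961 4 1] 136 136 [] [(136, 136, []), (151, 135, [1])]) .no .no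

def c27t526 : Tr4 :=
  .br 1353 (.use 274) .no (.use 379) .no (.red [.f 1225 5 1, .f 1217 1 3] 169 136 [3, 1, 1] [(169,
  136, [3, 1, 1])]) .no

def c27t527 : Tr4 :=
  .br 1106 (.use 465) .no (.red [.f 978 3 1] 139 136 [3, 3, 3] [(139, 136, [3, 3, 3])]) .no .no
  (.use 504)

def c27t528 : Tr4 :=
  .br 1208 (.br 1201 (.use 521) .no .no (.use 524) (.red [.t 1081 1 4, .t 961 4 1] 136 136 []
  [(136, 136, []), (151, 135, [1])]) (.red [.f 1072 5 1, .f 1073 1 3, .f 1073 3 5, .t 961 4 1] 136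
  136 [] [(136, 136, []), (151, 135, [1])])) .no .no (.red [.t 1208 4 2, .f 1073 3 5, .t 961 4 1]
  136 136 [] [(136, 136, []), (151, 135, [1])]) .no .no

def c27t529 : Tr4 :=
  .br 1098 .no (.br 835 .no (.use 515) (.red [.f 835 3 1] 121 136 [2, 3] [(121, 136, [2, 3])])
  (.br 833 .no (.use 492) (.red [.t 832 1 3] 121 136 [2, 3] [(121, 136, [2, 3])]) (.con 136 [2,
  2]) (.br 1224 (.br 842 .no (.use 484) (.br 841 .no (.br 1099 (.con 136 [3, 3, 1]) .no (.br 978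
  (.red [.f 962 1 3, .f 962 3 1, .f 970 1 3, .f 1098 3 5] 138 136 [3, 3] [(138, 136, [3, 3])]) .no
  (.use 527) .no (.red [.t 953 3 2, .t 1098 2 3] 138 136 [3, 3] [(120, 104, [1]), (138, 136, [3,
  3])]) (.use 464)) .no .no .no) (.hor [.f 841 3 5] []) .no .no (.red [.f 840 5 1, .f 832 1 3] 121
  136 [2, 3] [(121, 136, [2, 3])])) .no (.red [.t 953 3 2, .f 826 3 5, .f 834 5 3, .f 835 3 1] 121
  136 [2, 3] [(120, 104, [1]), (121, 136, [2, 3])]) (.red [.f 833 5 3, .t 832 1 3] 121 136 [2, 3]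
  [(121, 136, [2, 3])])) .no (.red [.f 1096 3 1] 154 136 [3, 3, 1] [(154, 136, [3, 3, 1])]) .no
  .no .no) .no) .no (.br 833 .no (.br 1224 (.use 467) .no (.red [.f 1096 3 1] 154 136 [3, 3, 1]
  [(154, 136, [3, 3, 1])]) .no .no .no) (.red [.t 832 1 3] 121 136 [2, 3] [(121, 136, [2, 3])])
  (.br 841 .no (.br 827 .no (.br 1224 (.br 824 .no (.br 705 .no (.use 502) .no (.red [.f 697 3 1,
  .f 696 1 5] 104 136 [2, 2] [(104, 136, [2, 2])]) (.br 842 .no (.hor [.f 713 1 5] []) (.br 1099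
  (.con 136 [3, 3, 1]) .no (.br 978 (.red [.f 962 1 3, .f 962 3 1, .f 970 1 3, .f 1098 3 5] 138
  136 [3, 3] [(138, 136, [3, 3])]) .no (.use 527) .no (.red [.f 962 1 3, .f 962 3 1, .t 1098 2 3]
  138 136 [3, 3] [(138, 136, [3, 3])]) (.use 464)) .no .no .no) .no (.red [.f 834 5 3, .t 841 2 4]
  105 136 [2, 2, 3] [(105, 136, [2, 2, 3])]) .no) (.red [.t 824 2 3, .f 705 1 3] 105 136 [2, 2, 3]
  [(104, 136, [2, 2]), (105, 136, [2, 2, 3])])) .no (.con 136 [2, 2, 4]) .no .no) .no (.red [.f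
  1096 3 1] 154 136 [3, 3, 1] [(154, 136, [3, 3, 1])]) .no .no .no) .no (.red [.f 819 3 1, .f 826
  1 5] 119 136 [2, 4] [(119, 136, [2, 4])]) .no .no) (.use 450) .no (.red [.f 962 1 3, .f 825 3 1,
  .t 961 2 3, .t 832 1 3, .t 970 2 4] 121 136 [2, 3] [(120, 104, [1]), (121, 136, [2, 3]), (137,
  121, [1])]) (.red [.f 840 5 1, .f 832 1 3] 121 136 [2, 3] [(121, 136, [2, 3])])) .no .no)) (.use
  513) .no (.br 970 .no (.use 510) (.br 835 .no (.use 515) (.red [.f 835 3 1] 121 136 [2, 3]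
  [(121, 136, [2, 3])]) (.br 833 .no (.use 492) (.red [.t 832 1 3] 121 136 [2, 3] [(121, 136, [2,
  3])]) (.con 136 [2, 2]) (.use 485) .no) .no (.br 827 .no (.br 825 .no (.use 456) (.br 1224 (.br
  1346 (.use 377) .no (.red [.t 1345 2 3] 169 136 [3, 1, 1] [(169, 136, [3, 1, 1])]) (.br 1073
  (.red [.f 1073 1 3, .f 1073 3 5, .t 961 4 1] 136 136 [] [(136, 136, []), (151, 135, [1])]) .no
  .no (.use 408) .no (.use 528)) (.use 526) .no) .no (.red [.f 1096 3 1] 154 136 [3, 3, 1] [(154,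
  136, [3, 3, 1])]) .no .no .no) (.use 422) .no (.use 423)) .no (.red [.f 819 3 1, .f 826 1 5] 119
  136 [2, 4] [(119, 136, [2, 4])]) .no .no)) .no .no .no) .no

def c27t530 : Tr4 :=
  .br 1225 (.red [.f 1217 1 3] 169 136 [3, 1, 1] [(169, 136, [3, 1, 1])]) .no (.br 1096 (.red [.f
  1088 1 3, .f 1088 3 5] 153 136 [3, 1] [(153, 136, [3, 1])]) (.br 1098 (.use 289) (.con 136 [3,
  3]) (.use 219) .no (.use 227) .no) (.br 968 .no (.red [.f 832 1 3] 121 136 [2, 3] [(121, 136,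
  [2, 3])]) (.br 969 .no (.use 500) (.hor [.f 968 3 5] []) .no (.use 501) .no) .no (.br 833 .no
  (.br 834 .no (.hor [.f 705 1 5] []) (.use 428) .no (.br 970 (.br 1224 (.use 467) .no (.red [.f
  1096 3 1] 154 136 [3, 3, 1] [(154, 136, [3, 3, 1])]) .no .no .no) (.use 427) (.use 441) .no .no
  .no) .no) (.red [.t 832 1 3] 121 136 [2, 3] [(121, 136, [2, 3])]) (.br 835 .no (.use 482) (.red
  [.f 835 3 1] 121 136 [2, 3] [(121, 136, [2, 3])]) (.con 136 [2, 2]) .no (.br 970 (.use 506)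
  (.red [.t 970 2 4] 121 136 [2, 3] [(121, 136, [2, 3])]) (.br 1224 (.br 1098 (.use 454) .no (.use
  357) .no (.use 226) .no) .no (.red [.f 1096 3 1, .f 1088 1 3, .f 1088 3 5] 153 136 [3, 1] [(153,
  136, [3, 1]), (154, 136, [3, 3, 1])]) .no .no .no) .no .no .no)) (.br 835 .no (.use 507) (.red
  [.f 835 3 1] 121 136 [2, 3] [(121, 136, [2, 3])]) (.br 970 (.use 509) (.red [.t 953 3 2, .f 826
  3 5, .t 970 2 4] 121 136 [2, 3] [(120, 104, [1]), (121, 136, [2, 3])]) (.use 485) .no .no .no)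
  .no .no) .no) .no) .no .no .no) .no (.br 1096 (.red [.f 1088 1 3, .f 1088 3 5] 153 136 [3, 1]
  [(153, 136, [3, 1])]) (.br 1098 .no (.con 136 [3, 3]) (.use 445) .no (.br 970 .no (.use 510)
  (.use 444) .no .no (.br 835 .no (.br 834 .no (.hor [.f 706 1 5] []) (.use 488) .no .no (.use
  507)) (.red [.f 835 3 1] 121 136 [2, 3] [(121, 136, [2, 3])]) (.use 496) .no (.br 833 .no (.use
  447) (.red [.t 1089 3 2, .f 968 1 5, .t 832 1 3] 121 136 [2, 3] [(121, 136, [2, 3]), (137, 121,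
  [1])]) (.br 841 .no (.br 827 .no (.br 824 .no (.br 842 .no (.hor [.f 713 1 5] []) (.br 1073
  (.red [.f 1073 1 3, .f 1073 3 5, .t 961 4 1] 136 136 [] [(136, 136, []), (151, 135, [1])]) .no
  .no (.use 408) .no (.br 1208 (.use 512) .no .no (.red [.t 1208 4 2, .f 1073 3 5, .t 961 4 1] 136
  136 [] [(136, 136, []), (151, 135, [1])]) .no .no)) .no (.red [.t 1089 3 2, .f 834 5 3, .f 835 3
  1] 121 136 [2, 3] [(121, 136, [2, 3]), (137, 121, [1])]) .no) .no (.con 136 [2, 2, 4]) .no .no)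
  .no (.red [.f 819 3 1, .f 826 1 5] 119 136 [2, 4] [(119, 136, [2, 4])]) .no .no) (.use 446) .no
  (.red [.f 841 5 1, .t 970 2 4] 121 136 [2, 3] [(121, 136, [2, 3])]) (.red [.t 1089 3 2, .f 968 1
  5, .f 840 5 1, .f 832 1 3] 121 136 [2, 3] [(121, 136, [2, 3]), (137, 121, [1])])) .no .no)))
  .no) (.br 968 .no (.red [.f 832 1 3] 121 136 [2, 3] [(121, 136, [2, 3])]) (.br 969 .no (.use
  500) (.hor [.f 968 3 5] []) .no (.br 1098 .no .no (.use 513) .no (.br 1224 (.br 1346 (.use 377)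
  .no (.red [.t 1345 2 3] 169 136 [3, 1, 1] [(169, 136, [3, 1, 1])]) (.br 1073 (.red [.f 1073 1 3,
  .f 1073 3 5, .t 961 4 1] 136 136 [] [(136, 136, []), (151, 135, [1])]) .no .no (.br 1072 (.use
  522) .no .no (.hor [.f 1064 3 5] []) .no .no) .no (.use 525)) (.use 526) .no) .no (.red [.f 1096
  3 1] 154 136 [3, 3, 1] [(154, 136, [3, 3, 1])]) .no .no .no) .no) .no) .no (.use 529) .no) .no
  .no .no) (.red [.t 1088 1 3, .t 952 1 3, .f 961 1 5] 153 136 [3, 1] [(136, 136, []), (153, 136,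
  [3, 1])])

def c27l14 : List Tr4 :=
  [c27t512, c27t513, c27t514, c27t515, c27t516, c27t517, c27t518, c27t519, c27t520, c27t521,
  c27t522, c27t523, c27t524, c27t525, c27t526, c27t527, c27t528, c27t529, c27t530]

theorem c27k14 : chkLF ⟨4, 1, 0, true, -8⟩ false 7 c27N 512 c27l14 = true := by decide +kernel

def c27t531 : Tr4 :=
  .br 945 (.br 833 .no (.br 1218 (.hor [.f 1217 1 5] []) .no (.use 0) (.use 443) (.br 834 .no
  (.hor [.f 705 1 5] []) (.use 428) .no (.br 1210 (.br 1096 (.red [.f 1088 1 3, .f 1088 3 5] 153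
  136 [3, 1] [(153, 136, [3, 1])]) (.use 448) (.use 453) .no .no .no) .no .no (.red [.f 1074 3 1,
  .f 1081 1 5, .t 961 4 1] 136 136 [] [(136, 136, []), (151, 135, [1])]) (.br 1096 (.red [.f 1088
  1 3, .f 1088 3 5] 153 136 [3, 1] [(153, 136, [3, 1])]) (.use 448) (.br 1224 (.br 1098 (.use 455)
  (.use 468) (.use 440) .no (.use 380) .no) .no (.red [.f 1096 3 1, .f 1088 1 3, .f 1088 3 5] 153
  136 [3, 1] [(153, 136, [3, 1]), (154, 136, [3, 3, 1])]) .no (.red [.t 1088 1 3, .t 952 1 3, .f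
  961 1 5] 153 136 [3, 1] [(136, 136, []), (153, 136, [3, 1])]) .no) .no .no .no) .no) .no) .no)
  (.br 968 (.use 473) (.red [.f 832 1 3, .f 832 3 5] 121 136 [2, 3] [(121, 136, [2, 3])]) (.br
  1096 (.red [.f 1088 1 3, .f 1088 3 5] 153 136 [3, 1] [(153, 136, [3, 1])]) .no (.br 969 .no .no
  (.hor [.f 968 3 5] []) .no (.br 1218 (.hor [.f 1217 1 5] []) .no (.use 0) (.red [.t 1089 3 2, .t
  1209 2 3, .f 953 3 1, .f 961 1 3] 136 136 [] [(136, 136, []), (152, 136, [1])]) (.br 1210 (.use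
  453) .no .no (.red [.f 1074 3 1, .f 1081 1 5, .t 961 4 1] 136 136 [] [(136, 136, []), (151, 135,
  [1])]) (.br 1224 (.br 1098 (.use 455) .no (.use 440) .no (.use 380) .no) .no (.red [.f 968 3 1,
  .f 968 1 3, .f 1096 3 1, .f 1088 1 3] 153 136 [3, 1] [(153, 136, [3, 1]), (154, 136, [3, 3,
  1])]) .no (.red [.t 1088 1 3, .t 952 1 3, .f 961 1 5] 153 136 [3, 1] [(136, 136, []), (153, 136,
  [3, 1])]) .no) .no) .no) .no) .no .no .no) .no (.red [.t 832 1 3] 121 136 [2, 3] [(121, 136, [2,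
  3])]) .no) (.red [.f 825 3 1, .f 825 1 5, .t 1073 2 3, .f 954 1 3, .t 961 2 4] 136 136 [] [(135,
  136, [4]), (136, 136, [])]) (.red [.t 953 3 2, .t 1073 2 3, .f 954 1 3, .f 826 3 1] 136 136 []
  [(135, 136, [4]), (136, 136, [])]) .no) (.use 10) .no (.hor [.f 937 3 5] []) .no (.br 1218 (.hor
  [.f 1217 1 5] []) .no (.use 0) (.use 486) (.br 1210 (.br 1096 (.red [.f 1088 1 3, .f 1088 3 5]
  153 136 [3, 1] [(153, 136, [3, 1])]) (.use 499) (.use 453) .no .no .no) .no .no (.red [.f 1074 3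
  1, .f 1081 1 5, .t 961 4 1] 136 136 [] [(136, 136, []), (151, 135, [1])]) (.use 530) .no) .no)

def c27t532 : Tr4 :=
  .br 835 .no (.con 136 [2, 2, 3]) (.hor [.f 834 3 5] []) (.con 136 [2, 2, 3]) .no .no

def c27t533 : Tr4 :=
  .br 825 .no (.con 136 [2, 2, 4]) .no (.hor [.f 816 3 5] []) .no .no

def c27t534 : Tr4 :=
  .br 979 .no (.red [.t 978 4 2, .f 841 1 5] 122 136 [2, 3, 3] [(122, 136, [2, 3, 3])]) (.br 851
  .no (.br 850 .no (.hor [.f 722 1 5] []) (.br 849 (.red [.f 841 1 3] 122 136 [2, 3, 3] [(122,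
  136, [2, 3, 3])]) (.con 136 [2, 3, 2, 3, 3]) (.hor [.f 849 3 5] []) .no .no (.con 136 [2, 3, 2,
  3, 3])) .no .no (.red [.t 969 2 3] 122 136 [2, 3, 3] [(122, 136, [2, 3, 3])])) (.red [.f 851 3
  1, .t 978 4 2] 122 136 [2, 3, 3] [(122, 136, [2, 3, 3]), (123, 136, [2, 3, 3, 3])]) .no .no
  (.red [.f 842 5 3, .f 842 3 1] 122 136 [2, 3, 3] [(122, 136, [2, 3, 3])])) .no .no .no

def c27t535 : Tr4 :=
  .br 1225 (.hor [.f 1224 1 5] []) .no (.br 834 .no (.hor [.f 705 1 5] []) (.use 532) .no (.br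
  1099 (.con 136 [3, 3, 1, 1]) .no (.br 842 .no (.br 843 .no (.hor [.f 714 1 5] []) (.con 136 [2,
  2, 3, 3]) .no .no .no) (.red [.f 842 3 1, .f 841 1 5] 122 136 [2, 3, 3] [(122, 136, [2, 3, 3])])
  .no (.use 534) .no) .no .no .no) .no) .no .no .no

def c27t536 : Tr4 :=
  .br 1225 (.hor [.f 1224 1 5] []) .no (.use 226) .no (.red [.t 962 1 3, .f 1089 3 5, .f 1097 5 1,
  .t 1209 2 3, .f 1090 1 3, .t 1098 4 2] 153 136 [3, 1] [(152, 136, [1]), (153, 136, [3, 1])]) .no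

def c27t537 : Tr4 :=
  .br 818 .no (.br 819 .no (.hor [.f 690 1 5] []) .no (.con 136 [2, 4, 2, 4]) .no .no) .no (.red
  [.f 810 3 1, .f 818 1 3] 119 136 [2, 4] [(118, 136, [2, 4, 4]), (119, 136, [2, 4])]) (.red [.t
  954 2 4, .f 817 3 5] 119 136 [2, 4] [(119, 136, [2, 4])]) .no

def c27t538 : Tr4 :=
  .br 944 (.hor [.f 944 1 5] []) (.dom 119 136 [2, 4]) .no (.br 1072 (.br 816 .no (.use 537) .no
  (.use 1) .no .no) .no .no (.hor [.f 936 3 1, .f 944 1 5] [(134, 118, [1])]) .no .no) .no .no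

def c27t539 : Tr4 :=
  .br 825 .no (.hor [.f 697 1 3, .f 824 3 5] [(104, 119, [3, 2])]) .no (.br 827 .no (.use 538) .no
  (.red [.f 819 3 1, .f 826 1 5] 119 136 [2, 4] [(119, 136, [2, 4])]) .no .no) .no .no

def c27t540 : Tr4 :=
  .br 986 (.con 136 [2, 3, 3, 3, 3, 1]) (.con 136 [2, 3, 2, 3, 3, 1]) (.hor [.f 985 3 5] []) .no
  .no .no

def c27t541 : Tr4 :=
  .br 840 .no .no (.br 976 .no .no (.br 979 .no (.con 136 [2, 3, 2, 3, 1]) (.br 849 .no (.con 136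
  [2, 3, 2, 3, 2]) (.br 851 .no (.con 136 [2, 3, 2, 3, 3]) (.con 136 [2, 3, 2, 3, 1]) (.br 985
  (.red [.f 977 1 3, .f 976 3 5] 139 136 [3, 3, 3] [(139, 136, [3, 3, 3])]) .no (.use 540) .no
  (.br 1114 (.red [.f 1106 1 3, .t 1105 2 3] 139 136 [3, 3, 3] [(139, 136, [3, 3, 3]), (155, 136,
  [3, 3, 3, 1])]) .no (.br 1113 (.br 1232 (.red [.f 1224 1 3, .f 1096 3 1] 170 136 [3, 3, 1, 1]
  [(154, 136, [3, 3, 1]), (170, 136, [3, 3, 1, 1])]) .no (.con 136 [3, 3, 3, 1, 3]) .no .no .no)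
  .no (.hor [.f 1113 3 5] []) .no .no (.red [.t 976 3 1] 139 136 [3, 3, 3] [(139, 136, [3, 3,
  3])])) .no (.red [.f 1098 1 3, .f 1098 3 5, .f 1106 5 3, .t 1105 2 3] 139 136 [3, 3, 3] [(139,
  136, [3, 3, 3]), (154, 153, [3])]) (.red [.f 985 5 1, .f 977 1 3] 139 136 [3, 3, 3] [(139, 136,
  [3, 3, 3])])) .no) .no (.con 136 [2, 3, 2, 3, 1])) .no (.red [.t 969 2 3, .f 840 3 5] 122 136
  [2, 3, 3] [(122, 136, [2, 3, 3])]) .no) .no .no .no) .no .no .no) .no .no .no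

def c27t542 : Tr4 :=
  .br 976 .no (.br 849 .no (.con 136 [2, 3, 3, 2, 3]) (.red [.f 849 3 1, .f 841 1 3] 123 136 [2,
  3, 3, 3] [(122, 136, [2, 3, 3]), (123, 136, [2, 3, 3, 3])]) .no (.red [.t 969 2 3] 122 136 [2,
  3, 3] [(122, 136, [2, 3, 3])]) .no) (.hor [.f 976 3 5] []) .no .no .no

def c27t543 : Tr4 :=
  .br 840 .no .no (.hor [.t 840 3 1, .f 969 3 5] [(122, 136, [2, 3, 3])]) .no .no .no

def c27t544 : Tr4 :=
  .br 840 .no .no .no .no .no .no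

def c27t545 : Tr4 :=
  .br 819 .no (.hor [.f 690 1 5] []) .no (.con 136 [2, 2, 4, 4]) .no .no

def c27t546 : Tr4 :=
  .br 696 .no (.hor [.f 570 1 3, .f 698 3 5] [(88, 87, [3])]) (.hor [.f 697 1 3, .f 570 1 3, .f
  696 3 5, .f 699 3 1, .f 570 3 1] []) (.hor [.f 570 1 3, .f 698 3 5] [(88, 103, [2, 3])]) .no .no

def c27t547 : Tr4 :=
  .br 707 .no (.hor [.f 578 1 5] []) (.br 818 .no (.br 698 .no (.br 699 .no (.hor [.f 570 1 5] [])
  .no (.con 136 [2, 2, 4, 4]) .no .no) .no .no (.use 545) .no) .no (.hor [.f 809 3 5] []) (.red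
  [.t 954 2 4] 119 136 [2, 4] [(119, 136, [2, 4])]) .no) (.br 818 .no (.br 698 .no (.use 546) .no
  .no .no .no) .no (.hor [.f 809 3 5] []) (.red [.t 954 2 4] 119 136 [2, 4] [(119, 136, [2, 4])])
  .no) .no .no

def c27t548 : Tr4 :=
  .br 578 .no (.hor [.f 450 1 5] []) .no (.red [.f 570 3 1, .f 570 1 5] 88 136 [2, 2, 2] [(88,
  136, [2, 2, 2])]) .no (.red [.f 697 1 3, .f 697 3 5, .f 577 5 1, .f 578 1 3] 89 136 [2, 2, 2, 3]
  [(89, 136, [2, 2, 2, 3]), (104, 88, [1])])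

def c27t549 : Tr4 :=
  .br 976 .no (.con 136 [2, 3, 3, 3]) (.hor [.f 976 3 5] []) .no .no .no

def c27t550 : Tr4 :=
  .br 715 .no (.hor [.f 586 1 5] []) (.red [.f 715 3 1, .t 842 4 2] 106 136 [2, 3, 2, 3] [(105,
  136, [2, 3, 2]), (106, 136, [2, 3, 2, 3])]) .no .no .no

def c27t551 : Tr4 :=
  .br 706 .no (.use 547) (.red [.f 706 3 1, .f 705 1 5] 105 136 [2, 2, 3] [(105, 136, [2, 2, 3])])
  (.br 818 .no (.br 699 .no (.br 707 .no (.red [.f 571 1 3] 88 136 [2, 2, 2] [(88, 136, [2, 2,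
  2])]) (.br 704 .no (.con 136 [2, 2, 2, 3]) (.br 696 .no (.br 819 .no (.hor [.f 690 1 5] []) .no
  (.con 136 [2, 2, 4, 4]) .no .no) .no (.br 819 .no (.hor [.f 690 1 5] []) .no (.con 136 [2, 2, 4,
  4]) .no .no) .no .no) (.con 136 [2, 2, 2]) .no .no) .no .no .no) (.hor [.f 698 3 5] []) (.con
  136 [2, 2, 4, 4]) .no .no) .no (.hor [.f 809 3 5] []) (.red [.t 954 2 4] 119 136 [2, 4] [(119,
  136, [2, 4])]) .no) (.br 818 .no (.br 699 .no (.br 698 .no (.hor [.f 570 1 5] []) .no .no .no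
  .no) .no (.con 136 [2, 2, 4, 4]) .no (.use 545)) .no (.hor [.f 809 3 5] []) (.red [.t 954 2 4]
  119 136 [2, 4] [(119, 136, [2, 4])]) .no) .no

def c27t552 : Tr4 :=
  .br 849 .no (.con 136 [2, 3, 2, 3, 3]) .no .no (.red [.t 969 2 3, .f 840 3 5] 122 136 [2, 3, 3]
  [(122, 136, [2, 3, 3])]) .no

def c27t553 : Tr4 :=
  .br 840 .no .no (.br 979 .no (.con 136 [2, 3, 2, 3, 1]) (.br 851 .no (.con 136 [2, 3, 2, 3, 3])
  (.con 136 [2, 3, 2, 3, 1]) (.use 552) .no (.con 136 [2, 3, 2, 3, 1])) .no .no .no) .no .no .no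

def c27t554 : Tr4 :=
  .br 840 .no .no (.br 979 .no (.con 136 [2, 3, 2, 3, 1]) (.br 851 .no (.con 136 [2, 3, 2, 3, 3])
  (.con 136 [2, 3, 2, 3, 1]) (.br 849 .no (.con 136 [2, 3, 2, 3, 2]) (.use 540) .no (.red [.t 969
  2 3, .f 840 3 5] 122 136 [2, 3, 3] [(122, 136, [2, 3, 3])]) .no) .no (.con 136 [2, 3, 2, 3, 1]))
  .no .no .no) .no .no .no

def c27t555 : Tr4 :=
  .br 985 (.red [.f 977 1 3, .f 976 3 5] 139 136 [3, 3, 3] [(139, 136, [3, 3, 3])]) (.use 553)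
  (.use 554) .no (.red [.t 1105 2 3, .f 976 3 5] 139 136 [3, 3, 3] [(139, 136, [3, 3, 3])]) .no

def c27t556 : Tr4 :=
  .br 976 .no (.use 544) (.use 555) .no .no .no

def c27t557 : Tr4 :=
  .br 699 .no (.hor [.f 570 1 5] []) (.use 546) (.br 696 .no (.con 136 [2, 2, 2, 4]) (.con 136 [2,
  2, 2, 4]) (.br 714 .no (.red [.f 578 1 3, .f 706 3 1, .f 705 1 5] 105 136 [2, 2, 3] [(89, 136,
  [2, 2, 2, 3]), (105, 136, [2, 2, 3])]) (.br 977 (.br 1106 (.br 707 .no (.hor [.f 578 1 5] [])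
  (.br 704 .no (.con 136 [2, 2, 2, 3]) (.use 541) .no .no .no) .no .no .no) .no (.br 707 .no (.hor
  [.f 578 1 5] []) (.br 704 .no (.con 136 [2, 2, 2, 3]) (.use 556) .no .no .no) .no .no .no) .no
  .no .no) (.red [.f 841 1 3] 122 136 [2, 3, 3] [(122, 136, [2, 3, 3])]) (.use 542) .no .no (.br
  840 .no (.br 707 .no (.hor [.f 578 1 5] []) (.con 136 [2, 2, 3, 2]) .no .no .no) (.red [.t 840 3
  1, .f 969 3 5] 122 136 [2, 3, 3] [(122, 136, [2, 3, 3])]) .no .no .no)) .no (.br 579 (.hor [.f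
  578 1 5] []) (.br 704 .no (.con 136 [2, 2, 2, 3]) (.con 136 [2, 2, 2, 3, 1]) .no .no .no) (.red
  [.t 578 1 3, .f 706 3 1, .f 705 1 5] 89 136 [2, 2, 2, 3] [(89, 136, [2, 2, 2, 3]), (105, 136,
  [2, 2, 3])]) (.br 704 .no (.con 136 [2, 2, 2, 3]) (.con 136 [2, 2, 2, 3, 1]) .no .no .no) .no
  .no) (.red [.t 833 2 3] 105 136 [2, 2, 3] [(105, 136, [2, 2, 3])])) .no .no) .no .no

def c27t558 : Tr4 :=
  .br 707 .no (.hor [.f 578 1 5] []) .no .no .no .no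

def c27t559 : Tr4 :=
  .br 714 .no (.red [.f 578 1 3, .f 706 3 1, .f 705 1 5] 105 136 [2, 2, 3] [(89, 136, [2, 2, 2,
  3]), (105, 136, [2, 2, 3])]) (.br 977 (.br 1106 (.br 707 .no (.hor [.f 578 1 5] []) (.br 704 .no
  (.con 136 [2, 2, 2, 3]) (.use 541) (.con 136 [2, 2, 2, 3]) .no .no) .no .no .no) .no (.br 707
  .no (.hor [.f 578 1 5] []) (.br 704 .no (.con 136 [2, 2, 2, 3]) (.use 556) (.con 136 [2, 2, 2,
  3]) .no .no) .no .no .no) .no .no .no) (.red [.f 841 1 3] 122 136 [2, 3, 3] [(122, 136, [2, 3,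
  3])]) (.use 542) .no .no (.br 840 .no (.br 707 .no (.hor [.f 578 1 5] []) (.con 136 [2, 2, 3,
  2]) .no .no .no) (.red [.t 840 3 1, .f 969 3 5] 122 136 [2, 3, 3] [(122, 136, [2, 3, 3])]) .no
  .no .no)) .no (.use 558) (.red [.t 833 2 3] 105 136 [2, 2, 3] [(105, 136, [2, 2, 3])])

def c27t560 : Tr4 :=
  .br 698 .no (.use 557) .no (.red [.f 697 1 3, .f 697 3 1, .t 697 1 4] 103 136 [2, 2, 4] [(103,
  136, [2, 2, 4])]) (.use 559) .no

def c27t561 : Tr4 :=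
  .br 707 .no (.red [.f 571 1 3] 88 136 [2, 2, 2] [(88, 136, [2, 2, 2])]) (.br 704 .no (.con 136
  [2, 2, 2, 3]) (.br 579 .no (.br 976 .no (.use 544) (.br 977 (.br 1106 (.br 714 .no (.use 548)
  (.use 541) .no .no (.red [.t 833 2 3, .f 704 3 5] 105 136 [2, 2, 3] [(105, 136, [2, 2, 3])]))
  .no (.br 714 .no (.use 548) (.use 555) .no .no (.red [.t 833 2 3, .f 704 3 5] 105 136 [2, 2, 3]
  [(105, 136, [2, 2, 3])])) .no .no .no) (.red [.f 841 1 3] 122 136 [2, 3, 3] [(122, 136, [2, 3,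
  3])]) (.hor [.f 976 3 5] []) .no .no .no) .no (.use 543) .no) (.red [.f 579 3 1, .f 571 1 3, .f
  698 3 5] 89 136 [2, 2, 2, 3] [(88, 136, [2, 2, 2]), (89, 136, [2, 2, 2, 3])]) .no .no (.red [.f
  697 1 3, .t 698 3 2] 88 136 [2, 2, 2] [(88, 136, [2, 2, 2]), (104, 88, [1])])) (.con 136 [2, 2,
  2]) .no .no) .no .no .no

def c27t562 : Tr4 :=
  .br 849 .no (.con 136 [2, 3, 3, 2, 3]) (.hor [.f 848 3 5] []) .no (.red [.t 969 2 3] 122 136 [2,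
  3, 3] [(122, 136, [2, 3, 3])]) .no

def c27t563 : Tr4 :=
  .br 569 .no (.hor [.f 441 1 5] []) .no (.red [.f 697 1 3, .f 697 3 5, .t 561 3 1, .f 577 5 1, .f
  569 1 3] 88 136 [2, 2, 2] [(87, 136, [2, 2, 2, 4]), (88, 136, [2, 2, 2]), (104, 88, [1])]) .no
  (.br 571 .no (.hor [.f 442 1 5] []) (.con 136 [2, 2, 2, 2]) (.red [.f 563 3 1, .f 562 1 5] 87
  136 [2, 2, 2, 4] [(87, 136, [2, 2, 2, 4])]) .no .no)

def c27t564 : Tr4 :=
  .br 578 .no (.red [.f 442 1 3] 72 136 [2, 2, 2, 2] [(72, 136, [2, 2, 2, 2])]) (.br 577 .no (.con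
  136 [2, 2, 2, 2, 3]) (.hor [.f 577 3 5] []) (.con 136 [2, 2, 2, 2]) .no .no) .no (.con 136 [2,
  2, 2, 3]) (.use 563)

def c27t565 : Tr4 :=
  .br 577 .no (.con 136 [2, 2, 2, 3, 2]) (.hor [.f 577 3 5] []) (.con 136 [2, 2, 2, 2]) .no (.con
  136 [2, 2, 2, 2])

def c27l15 : List Tr4 :=
  [c27t531, c27t532, c27t533, c27t534, c27t535, c27t536, c27t537, c27t538, c27t539, c27t540,
  c27t541, c27t542, c27t543, c27t544, c27t545, c27t546, c27t547, c27t548, c27t549, c27t550,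
  c27t551, c27t552, c27t553, c27t554, c27t555, c27t556, c27t557, c27t558, c27t559, c27t560,
  c27t561, c27t562, c27t563, c27t564, c27t565]

theorem c27k15 : chkLF ⟨4, 1, 0, true, -8⟩ false 7 c27N 531 c27l15 = true := by decide +kernel

def c27t566 : Tr4 :=
  .br 571 .no (.hor [.f 442 1 5] []) (.use 565) (.hor [.f 563 3 1, .f 562 1 5] [(87, 136, [2, 2,
  2, 4])]) .no .no

def c27t567 : Tr4 :=
  .br 843 .no (.con 136 [2, 2, 2, 3, 1]) (.br 715 .no (.con 136 [2, 2, 2, 3, 1]) (.con 136 [2, 2,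
  2, 3, 1]) (.br 714 .no (.red [.t 714 2 4] 89 136 [2, 2, 2, 3] [(89, 136, [2, 2, 2, 3])]) (.use
  541) .no .no (.red [.t 833 2 3, .f 704 3 5] 105 136 [2, 2, 3] [(105, 136, [2, 2, 3])])) .no
  (.con 136 [2, 2, 2, 3, 1])) .no .no .no

def c27t568 : Tr4 :=
  .br 811 (.con 136 [2, 2, 4, 4, 1, 3]) (.con 136 [2, 2, 4, 4, 1, 3]) (.br 689 .no (.hor [.f 561 1
  5] []) .no (.br 810 .no (.red [.t 681 3 1, .f 689 1 3] 103 136 [2, 2, 4] [(102, 136, [2, 2, 4,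
  4]), (103, 136, [2, 2, 4])]) .no (.br 682 .no (.red [.f 554 1 3, .f 681 3 5, .f 689 5 1, .f 689
  1 3] 103 136 [2, 2, 4] [(86, 87, [4]), (103, 136, [2, 2, 4])]) .no (.red [.f 674 3 1, .t 681 3
  1] 102 136 [2, 2, 4, 4] [(101, 136, [2, 2, 4, 4, 4]), (102, 136, [2, 2, 4, 4])]) (.br 563 .no
  (.red [.f 435 1 3] 71 136 [2, 2, 2, 4, 2] [(71, 136, [2, 2, 2, 4, 2])]) .no (.red [.t 562 1 4,
  .f 681 3 5, .f 689 5 1, .f 689 1 3] 103 136 [2, 2, 4] [(86, 87, [4]), (103, 136, [2, 2, 4])])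
  .no .no) .no) .no (.red [.f 809 5 3, .f 810 3 5, .t 954 2 4] 119 136 [2, 4] [(119, 136, [2,
  4])])) .no .no) (.con 136 [2, 2, 4, 4, 1, 3]) .no (.con 136 [2, 2, 4, 4, 1, 3])

def c27t569 : Tr4 :=
  .br 571 .no (.use 568) (.con 136 [2, 2, 2, 2]) (.red [.f 563 3 1, .f 562 1 5] 87 136 [2, 2, 2,
  4] [(87, 136, [2, 2, 2, 4])]) .no .no

def c27t570 : Tr4 :=
  .br 577 .no (.hor [.f 449 1 5] []) (.red [.f 697 1 3, .f 697 3 5, .f 569 5 1, .t 585 4 1, .f 569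
  1 3] 89 136 [2, 2, 2, 3] [(88, 136, [2, 2, 2]), (89, 136, [2, 2, 2, 3]), (104, 88, [1])]) .no
  .no (.con 136 [2, 2, 2, 2])

def c27t571 : Tr4 :=
  .br 571 .no (.use 568) (.use 565) (.red [.f 563 3 1, .f 562 1 5] 87 136 [2, 2, 2, 4] [(87, 136,
  [2, 2, 2, 4])]) .no .no

def c27t572 : Tr4 :=
  .br 689 .no (.con 136 [2, 2, 4, 2, 4]) .no (.hor [.f 681 3 5] []) .no .no

def c27t573 : Tr4 :=
  .br 690 .no (.br 570 .no (.br 704 .no (.use 564) (.use 544) .no .no .no) (.red [.f 697 1 3, .f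
  570 3 1] 88 136 [2, 2, 2] [(88, 136, [2, 2, 2]), (104, 88, [1])]) .no (.red [.t 690 2 3] 87 136
  [2, 2, 2, 4] [(87, 136, [2, 2, 2, 4])]) (.br 704 .no (.use 569) (.use 544) .no .no .no)) .no
  (.use 572) .no (.red [.f 697 1 3, .f 689 5 1, .f 697 3 1, .f 689 1 3] 103 136 [2, 2, 4] [(103,
  136, [2, 2, 4])])

def c27t574 : Tr4 :=
  .br 976 .no (.use 573) (.hor [.f 976 3 5] []) .no .no .no

def c27t575 : Tr4 :=
  .br 840 .no (.br 848 .no (.red [.f 712 1 3] 106 136 [2, 2, 3, 3] [(106, 136, [2, 2, 3, 3])])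
  (.br 714 .no (.br 707 .no (.br 578 .no (.br 577 .no (.hor [.f 449 1 5] []) (.red [.f 697 1 3, .f
  697 3 5, .t 585 4 1] 89 136 [2, 2, 3, 2] [(89, 136, [2, 2, 3, 2]), (104, 88, [1])]) (.con 136
  [2, 2, 3, 2, 2, 4]) .no (.con 136 [2, 2, 3, 2, 4])) .no (.red [.f 570 3 1, .f 578 1 5] 88 136
  [2, 2, 2] [(88, 136, [2, 2, 2])]) .no (.red [.f 697 1 3, .f 697 3 5, .f 577 5 1, .f 578 1 3] 89
  136 [2, 2, 3, 2] [(89, 136, [2, 2, 3, 2]), (104, 88, [1])])) (.con 136 [2, 2, 3, 2]) .no .no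
  .no) (.use 562) .no (.con 136 [2, 2, 3, 3]) (.red [.t 833 2 3] 105 136 [2, 2, 3] [(105, 136, [2,
  2, 3])])) .no (.red [.f 848 5 1, .f 841 1 3] 122 136 [2, 3, 3] [(122, 136, [2, 3, 3])]) .no)
  (.red [.t 840 3 1, .f 969 3 5] 122 136 [2, 3, 3] [(122, 136, [2, 3, 3])]) .no .no .no

def c27t576 : Tr4 :=
  .br 578 .no (.red [.f 442 1 3, .f 570 3 1] 88 136 [2, 2, 2] [(72, 136, [2, 2, 2, 2]), (88, 136,
  [2, 2, 2])]) (.use 566) .no (.br 571 .no (.hor [.f 442 1 5] []) .no (.red [.f 563 3 1, .f 562 1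
  5] 87 136 [2, 2, 2, 4] [(87, 136, [2, 2, 2, 4])]) .no .no) (.use 563)

def c27t577 : Tr4 :=
  .br 690 .no (.br 985 (.red [.f 977 1 3, .f 976 3 5] 139 136 [3, 3, 3] [(139, 136, [3, 3, 3])])
  (.br 570 .no (.use 576) (.red [.f 697 1 3, .f 570 3 1] 88 136 [2, 2, 2] [(88, 136, [2, 2, 2]),
  (104, 88, [1])]) .no (.red [.t 690 2 3] 87 136 [2, 2, 2, 4] [(87, 136, [2, 2, 2, 4])]) (.br 704
  .no (.use 569) (.br 578 .no (.br 571 .no (.use 568) (.br 843 .no (.con 136 [2, 2, 2, 3, 1]) (.br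
  715 .no (.con 136 [2, 2, 2, 3, 1]) (.con 136 [2, 2, 2, 3, 1]) (.br 714 .no (.use 570) (.use 553)
  .no .no (.red [.t 833 2 3, .f 704 3 5] 105 136 [2, 2, 3] [(105, 136, [2, 2, 3])])) .no (.con 136
  [2, 2, 2, 3, 1])) .no .no .no) (.red [.f 563 3 1, .f 562 1 5] 87 136 [2, 2, 2, 4] [(87, 136, [2,
  2, 2, 4])]) .no .no) (.use 571) .no (.br 843 .no (.con 136 [2, 2, 2, 3, 1]) (.br 715 .no (.con
  136 [2, 2, 2, 3, 1]) (.con 136 [2, 2, 2, 3, 1]) (.br 714 .no (.red [.t 714 2 4] 89 136 [2, 2, 2,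
  3] [(89, 136, [2, 2, 2, 3])]) (.use 553) .no .no (.red [.t 833 2 3, .f 704 3 5] 105 136 [2, 2,
  3] [(105, 136, [2, 2, 3])])) .no (.con 136 [2, 2, 2, 3, 1])) .no .no .no) (.red [.f 697 1 3, .f
  569 5 3, .f 570 3 1] 88 136 [2, 2, 2] [(88, 136, [2, 2, 2]), (104, 88, [1])])) .no .no .no))
  (.br 570 .no (.use 576) (.red [.f 697 1 3, .f 570 3 1] 88 136 [2, 2, 2] [(88, 136, [2, 2, 2]),
  (104, 88, [1])]) .no (.red [.t 690 2 3] 87 136 [2, 2, 2, 4] [(87, 136, [2, 2, 2, 4])]) (.br 704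
  .no (.use 569) (.br 578 .no (.br 571 .no (.use 568) (.br 843 .no (.con 136 [2, 2, 2, 3, 1]) (.br
  715 .no (.con 136 [2, 2, 2, 3, 1]) (.con 136 [2, 2, 2, 3, 1]) (.br 714 .no (.use 570) (.use 554)
  .no .no (.red [.t 833 2 3, .f 704 3 5] 105 136 [2, 2, 3] [(105, 136, [2, 2, 3])])) .no (.con 136
  [2, 2, 2, 3, 1])) .no .no .no) (.red [.f 563 3 1, .f 562 1 5] 87 136 [2, 2, 2, 4] [(87, 136, [2,
  2, 2, 4])]) .no .no) (.use 571) .no (.br 571 .no (.use 568) .no (.red [.f 563 3 1, .f 562 1 5]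
  87 136 [2, 2, 2, 4] [(87, 136, [2, 2, 2, 4])]) .no .no) (.red [.f 697 1 3, .f 569 5 3, .f 570 3
  1] 88 136 [2, 2, 2] [(88, 136, [2, 2, 2]), (104, 88, [1])])) .no .no .no)) .no (.red [.t 1105 2
  3, .f 976 3 5] 139 136 [3, 3, 3] [(139, 136, [3, 3, 3])]) .no) .no (.use 572) .no (.red [.f 697
  1 3, .f 689 5 1, .f 697 3 1, .f 689 1 3] 103 136 [2, 2, 4] [(103, 136, [2, 2, 4])])

def c27t578 : Tr4 :=
  .br 811 (.con 136 [2, 4, 2, 4, 1, 3]) .no (.red [.f 683 3 1] 102 136 [2, 4, 2, 4] [(102, 136,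
  [2, 4, 2, 4])]) (.con 136 [2, 4, 2, 4, 1, 3]) .no (.con 136 [2, 4, 2, 4, 1, 3])

def c27t579 : Tr4 :=
  .br 986 (.con 136 [3, 3, 2, 3, 3, 1]) (.con 136 [3, 3, 2, 2, 3, 1]) (.hor [.f 985 3 5] []) .no
  (.con 136 [3, 3, 2, 3, 1]) .no

def c27t580 : Tr4 :=
  .br 849 .no (.con 136 [2, 3, 2, 3, 2]) (.use 579) .no (.red [.t 969 2 3, .f 840 3 5] 122 136 [2,
  3, 3] [(122, 136, [2, 3, 3])]) .no

def c27t581 : Tr4 :=
  .br 1232 (.red [.f 1224 1 3, .f 1096 3 1] 170 136 [3, 3, 1, 1] [(154, 136, [3, 3, 1]), (170,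
  136, [3, 3, 1, 1])]) .no (.con 136 [3, 3, 3, 1, 3]) .no .no .no

def c27t582 : Tr4 :=
  .br 1114 (.red [.f 1106 1 3, .t 1105 2 3] 139 136 [3, 3, 3] [(139, 136, [3, 3, 3]), (155, 136,
  [3, 3, 3, 1])]) .no (.br 1113 (.use 581) .no (.hor [.f 1113 3 5] []) .no .no (.red [.t 976 3 1]
  139 136 [3, 3, 3] [(139, 136, [3, 3, 3])])) .no (.red [.f 1098 1 3, .f 1098 3 5, .f 1106 5 3, .t
  1105 2 3] 139 136 [3, 3, 3] [(139, 136, [3, 3, 3]), (154, 153, [3])]) (.red [.f 985 5 1, .f 977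
  1 3] 139 136 [3, 3, 3] [(139, 136, [3, 3, 3])])

def c27t583 : Tr4 :=
  .br 843 .no (.red [.t 842 4 2, .f 705 1 5] 105 136 [2, 2, 3] [(105, 136, [2, 2, 3])]) (.br 714
  .no (.use 550) (.br 977 (.br 1106 (.br 715 .no (.br 976 .no (.con 136 [2, 3, 3, 2]) (.br 840 .no
  (.con 136 [2, 2, 3, 3]) (.br 985 (.red [.f 977 1 3, .f 976 3 5] 139 136 [3, 3, 3] [(139, 136,
  [3, 3, 3])]) (.use 552) (.use 580) .no (.use 582) .no) .no .no .no) .no .no .no) (.red [.f 715 3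
  1, .t 842 4 2] 106 136 [2, 2, 3, 3] [(105, 136, [2, 2, 3]), (106, 136, [2, 2, 3, 3])]) .no .no
  .no) .no (.br 976 .no (.con 136 [2, 3, 3, 2]) (.br 715 .no (.br 840 .no (.con 136 [2, 2, 3, 3])
  (.br 985 (.red [.f 977 1 3, .f 976 3 5] 139 136 [3, 3, 3] [(139, 136, [3, 3, 3])]) (.use 552)
  (.use 580) .no (.red [.t 1105 2 3, .f 976 3 5] 139 136 [3, 3, 3] [(139, 136, [3, 3, 3])]) .no)
  .no .no .no) (.red [.f 715 3 1, .t 842 4 2] 106 136 [2, 2, 3, 3] [(105, 136, [2, 2, 3]), (106,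
  136, [2, 2, 3, 3])]) .no .no .no) .no .no .no) .no .no .no) (.red [.f 841 1 3] 122 136 [2, 3, 3]
  [(122, 136, [2, 3, 3])]) (.use 542) .no .no (.br 840 .no (.con 136 [2, 2, 3, 3]) (.red [.t 840 3
  1, .f 969 3 5] 122 136 [2, 3, 3] [(122, 136, [2, 3, 3])]) .no .no .no)) .no (.red [.f 706 5 3,
  .f 706 3 1] 105 136 [2, 2, 3] [(105, 136, [2, 2, 3])]) (.red [.t 833 2 3] 105 136 [2, 2, 3]
  [(105, 136, [2, 2, 3])])) .no .no .no

def c27t584 : Tr4 :=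
  .br 816 .no (.con 136 [2, 4, 2, 4]) .no (.use 1) .no .no

def c27t585 : Tr4 :=
  .br 818 .no .no .no (.red [.f 810 3 1, .f 818 1 3] 119 136 [2, 4] [(118, 136, [2, 4, 4]), (119,
  136, [2, 4])]) (.red [.t 954 2 4, .f 690 3 1, .f 697 1 5] 103 136 [2, 4, 2] [(103, 136, [2, 4,
  2]), (119, 136, [2, 4])]) .no

def c27t586 : Tr4 :=
  .br 698 .no (.use 557) .no (.use 585) (.use 559) .no

def c27t587 : Tr4 :=
  .br 696 .no (.con 136 [2, 2, 2, 4]) (.con 136 [2, 2, 2]) (.red [.t 696 4 1] 103 136 [2, 2, 4]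
  [(103, 136, [2, 2, 4])]) .no .no

def c27t588 : Tr4 :=
  .br 699 .no (.use 561) (.hor [.f 698 3 5] []) (.use 587) .no .no

def c27t589 : Tr4 :=
  .br 1106 (.br 1105 .no (.br 690 .no (.br 570 .no (.br 704 .no (.use 564) (.br 578 .no (.red [.f
  442 1 3, .f 570 3 1] 88 136 [2, 2, 2] [(72, 136, [2, 2, 2, 2]), (88, 136, [2, 2, 2])]) (.use
  566) .no (.use 567) (.use 563)) .no .no .no) (.red [.f 697 1 3, .f 570 3 1] 88 136 [2, 2, 2]
  [(88, 136, [2, 2, 2]), (104, 88, [1])]) .no (.red [.t 690 2 3] 87 136 [2, 2, 2, 4] [(87, 136,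
  [2, 2, 2, 4])]) (.br 704 .no (.use 569) (.br 578 .no (.br 571 .no (.use 568) (.br 843 .no (.con
  136 [2, 2, 2, 3, 1]) (.br 715 .no (.con 136 [2, 2, 2, 3, 1]) (.con 136 [2, 2, 2, 3, 1]) (.br 714
  .no (.use 570) (.use 541) .no .no (.red [.t 833 2 3, .f 704 3 5] 105 136 [2, 2, 3] [(105, 136,
  [2, 2, 3])])) .no (.con 136 [2, 2, 2, 3, 1])) .no .no .no) (.red [.f 563 3 1, .f 562 1 5] 87 136
  [2, 2, 2, 4] [(87, 136, [2, 2, 2, 4])]) .no .no) (.use 571) .no (.use 567) (.red [.f 697 1 3, .f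
  569 5 3, .f 570 3 1] 88 136 [2, 2, 2] [(88, 136, [2, 2, 2]), (104, 88, [1])])) .no .no .no)) .no
  (.use 572) .no (.red [.f 697 1 3, .f 689 5 1, .f 697 3 1, .f 689 1 3] 103 136 [2, 2, 4] [(103,
  136, [2, 2, 4])])) (.br 977 .no (.red [.f 841 1 3] 122 136 [2, 3, 3] [(122, 136, [2, 3, 3])])
  (.use 574) .no .no (.use 575)) .no .no .no) .no (.br 977 (.br 976 .no (.use 573) (.use 577) .no
  .no .no) (.red [.f 841 1 3] 122 136 [2, 3, 3] [(122, 136, [2, 3, 3])]) (.use 574) .no .no (.use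
  575)) .no .no (.br 977 .no (.red [.f 841 1 3] 122 136 [2, 3, 3] [(122, 136, [2, 3, 3])]) (.use
  574) .no .no (.use 575))

def c27t590 : Tr4 :=
  .br 819 .no (.red [.f 699 3 1, .f 691 1 3, .f 819 3 1, .f 826 1 5] 119 136 [2, 4] [(103, 136,
  [2, 4, 2]), (104, 136, [2, 2]), (119, 136, [2, 4])]) .no (.use 401) .no (.red [.f 699 3 1, .t
  954 2 4, .f 817 3 5] 119 136 [2, 4] [(104, 136, [2, 2]), (119, 136, [2, 4])])

def c27t591 : Tr4 :=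
  .br 1106 (.use 541) .no (.use 556) .no .no .no

def c27t592 : Tr4 :=
  .br 704 .no (.con 136 [2, 2, 2, 3]) (.br 714 .no (.red [.f 578 1 3] 89 136 [2, 2, 2, 3] [(89,
  136, [2, 2, 2, 3])]) (.br 977 (.use 591) (.red [.f 841 1 3] 122 136 [2, 3, 3] [(122, 136, [2, 3,
  3])]) (.use 542) .no .no (.use 543)) .no .no (.red [.t 833 2 3, .f 704 3 5] 105 136 [2, 2, 3]
  [(105, 136, [2, 2, 3])])) (.con 136 [2, 2, 2, 3]) .no .no

def c27t593 : Tr4 :=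
  .br 579 .no (.br 818 .no (.br 578 .no (.hor [.f 450 1 5] []) (.br 577 .no (.con 136 [2, 2, 2, 3,
  2]) (.hor [.f 577 3 5] []) (.con 136 [2, 2, 2, 3, 2]) .no (.con 136 [2, 2, 2, 2, 3])) (.red [.f
  570 3 1, .f 570 1 5] 88 136 [2, 2, 2] [(88, 136, [2, 2, 2])]) .no (.br 697 .no (.red [.t 697 2
  3] 88 136 [2, 2, 2] [(88, 136, [2, 2, 2])]) .no (.br 696 .no (.br 691 (.hor [.f 690 1 5] [])
  (.con 136 [2, 2, 4, 4]) .no (.con 136 [2, 2, 4, 4]) .no .no) .no .no .no .no) .no (.br 976 .no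
  (.use 544) (.br 977 (.br 714 .no (.red [.t 832 4 2, .f 697 3 5, .f 577 5 1, .f 578 1 3] 89 136
  [2, 2, 2, 3] [(89, 136, [2, 2, 2, 3]), (104, 88, [1])]) (.use 591) .no .no (.red [.t 833 2 3, .f
  704 3 5] 105 136 [2, 2, 3] [(105, 136, [2, 2, 3])])) (.red [.f 841 1 3] 122 136 [2, 3, 3] [(122,
  136, [2, 3, 3])]) (.hor [.f 976 3 5] []) .no .no .no) .no (.use 543) .no))) .no (.red [.f 810 3
  1, .f 818 1 3] 119 136 [2, 4] [(118, 136, [2, 4, 4]), (119, 136, [2, 4])]) (.red [.t 954 2 4, .f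
  817 3 5] 119 136 [2, 4] [(119, 136, [2, 4])]) .no) (.red [.f 579 3 1, .f 571 1 3, .f 698 3 5] 89
  136 [2, 2, 2, 3] [(88, 136, [2, 2, 2]), (89, 136, [2, 2, 2, 3])]) .no .no (.red [.t 698 3 2] 88
  136 [2, 2, 2] [(88, 136, [2, 2, 2])])

def c27t594 : Tr4 :=
  .br 704 .no (.con 136 [2, 2, 2, 3]) (.use 593) (.con 136 [2, 2, 2]) .no .no

def c27t595 : Tr4 :=
  .br 818 .no (.con 136 [2, 4, 2, 4]) .no (.red [.f 810 3 1, .f 818 1 3] 119 136 [2, 4] [(118,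
  136, [2, 4, 4]), (119, 136, [2, 4])]) (.red [.t 954 2 4, .f 817 3 5] 119 136 [2, 4] [(119, 136,
  [2, 4])]) .no

def c27l16 : List Tr4 :=
  [c27t566, c27t567, c27t568, c27t569, c27t570, c27t571, c27t572, c27t573, c27t574, c27t575,
  c27t576, c27t577, c27t578, c27t579, c27t580, c27t581, c27t582, c27t583, c27t584, c27t585,
  c27t586, c27t587, c27t588, c27t589, c27t590, c27t591, c27t592, c27t593, c27t594, c27t595]

theorem c27k16 : chkLF ⟨4, 1, 0, true, -8⟩ false 7 c27N 566 c27l16 = true := by decide +kernel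

def c27t596 : Tr4 :=
  .br 1072 (.br 825 .no (.br 817 .no (.red [.f 689 1 3] 103 136 [2, 2, 4] [(103, 136, [2, 2, 4])])
  .no (.use 551) (.br 706 .no (.use 560) (.red [.f 706 3 1, .f 705 1 5] 105 136 [2, 2, 3] [(105,
  136, [2, 2, 3])]) (.br 699 .no (.use 561) (.hor [.f 698 3 5] []) (.br 696 .no (.con 136 [2, 2,
  2, 4]) (.con 136 [2, 2, 2]) (.br 944 .no (.use 589) .no (.use 584) .no .no) .no .no) .no .no)
  (.use 583) .no) (.br 706 .no (.use 586) (.red [.f 706 3 1, .f 705 1 5] 105 136 [2, 2, 3] [(105,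
  136, [2, 2, 3])]) (.use 588) (.use 583) .no)) .no (.br 706 .no (.br 944 .no (.dom 119 136 [2,
  4]) .no (.br 816 .no (.br 707 .no (.hor [.f 578 1 5] []) (.use 592) (.use 590) .no .no) .no
  (.use 1) .no .no) .no .no) (.red [.f 706 3 1, .f 705 1 5] 105 136 [2, 2, 3] [(105, 136, [2, 2,
  3])]) (.br 944 .no (.dom 119 136 [2, 4]) .no (.br 816 .no (.br 699 .no (.br 707 .no (.red [.f
  571 1 3] 88 136 [2, 2, 2] [(88, 136, [2, 2, 2])]) (.use 594) .no .no .no) (.use 590) (.use 595)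
  .no .no) .no (.use 1) .no .no) .no .no) (.use 583) .no) .no .no) (.hor [.f 944 1 5] []) .no (.br
  944 .no (.br 825 .no (.br 817 .no (.red [.f 689 1 3] 103 136 [2, 2, 4] [(103, 136, [2, 2, 4])])
  .no (.use 551) (.br 706 .no (.use 560) (.red [.f 706 3 1, .f 705 1 5] 105 136 [2, 2, 3] [(105,
  136, [2, 2, 3])]) (.br 699 .no (.use 561) (.hor [.f 698 3 5] []) (.br 696 .no (.con 136 [2, 2,
  2, 4]) (.con 136 [2, 2, 2]) (.use 589) .no .no) .no .no) (.use 583) .no) .no) .no (.dom 119 136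
  [2, 4]) .no .no) .no (.hor [.f 936 3 1, .f 944 1 5] [(134, 118, [1])]) .no .no) .no .no

def c27t597 : Tr4 :=
  .br 825 .no (.hor [.f 697 1 3, .f 824 3 5] [(104, 103, [3])]) .no (.use 538) .no .no

def c27t598 : Tr4 :=
  .br 825 .no (.hor [.f 696 1 5] []) .no (.use 387) .no .no

def c27t599 : Tr4 :=
  .br 817 .no (.con 136 [2, 4, 2]) (.hor [.f 816 3 5] []) (.con 136 [2, 4, 2]) (.con 136 [2, 4,
  2]) .no

def c27t600 : Tr4 :=
  .br 819 .no (.red [.f 691 1 3] 103 136 [2, 2, 4] [(103, 136, [2, 2, 4])]) .no (.br 690 .no (.use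
  51) .no (.use 137) (.use 79) (.red [.f 824 5 3, .f 689 5 1, .t 833 4 2, .f 689 1 3] 103 136 [2,
  2, 4] [(103, 136, [2, 2, 4]), (104, 136, [2, 2])])) .no .no

def c27t601 : Tr4 :=
  .br 697 .no (.red [.f 569 1 3] 88 136 [2, 2, 2] [(88, 136, [2, 2, 2])]) .no (.use 134) (.use
  600) .no

def c27t602 : Tr4 :=
  .br 704 .no (.hor [.f 576 1 5] []) .no (.use 601) .no .no

def c27t603 : Tr4 :=
  .br 690 .no (.use 51) .no (.use 93) (.use 87) (.red [.f 824 5 3, .f 689 5 1, .t 833 4 2, .f 689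
  1 3] 103 136 [2, 2, 4] [(103, 136, [2, 2, 4]), (104, 136, [2, 2])])

def c27t604 : Tr4 :=
  .br 819 .no (.red [.f 691 1 3] 103 136 [2, 2, 4] [(103, 136, [2, 2, 4])]) .no (.use 603) .no .no

def c27t605 : Tr4 :=
  .br 697 .no (.red [.f 569 1 3] 88 136 [2, 2, 2] [(88, 136, [2, 2, 2])]) .no (.use 134) (.use
  604) .no

def c27t606 : Tr4 :=
  .br 690 .no (.use 51) .no (.use 146) (.use 101) (.red [.f 824 5 3, .f 689 5 1, .t 833 4 2, .f
  689 1 3] 103 136 [2, 2, 4] [(103, 136, [2, 2, 4]), (104, 136, [2, 2])])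

def c27t607 : Tr4 :=
  .br 819 .no (.red [.f 691 1 3] 103 136 [2, 2, 4] [(103, 136, [2, 2, 4])]) .no (.use 606) .no .no

def c27t608 : Tr4 :=
  .br 697 .no (.red [.f 569 1 3] 88 136 [2, 2, 2] [(88, 136, [2, 2, 2])]) .no (.use 134) (.use
  607) .no

def c27t609 : Tr4 :=
  .br 690 .no (.use 51) .no (.use 137) (.use 79) (.red [.f 689 5 1, .t 688 3 1] 103 136 [2, 2, 4]
  [(103, 136, [2, 2, 4])])

def c27t610 : Tr4 :=
  .br 819 .no (.red [.f 691 1 3] 103 136 [2, 2, 4] [(103, 136, [2, 2, 4])]) .no (.use 609) .no .no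

def c27t611 : Tr4 :=
  .br 696 .no (.hor [.f 568 1 3, .f 696 3 5] [(88, 87, [3])]) .no (.use 610) .no .no

def c27t612 : Tr4 :=
  .br 704 .no (.hor [.f 568 1 3, .f 696 3 5] [(88, 136, [2, 2, 2])]) .no .no .no .no

def c27t613 : Tr4 :=
  .br 819 .no (.red [.f 691 1 3] 103 136 [2, 2, 4] [(103, 136, [2, 2, 4])]) .no (.br 690 .no (.use
  51) .no (.use 93) (.use 87) (.red [.f 689 5 1, .t 688 3 1] 103 136 [2, 2, 4] [(103, 136, [2, 2,
  4])])) .no .no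

def c27t614 : Tr4 :=
  .br 690 .no (.use 51) .no (.use 146) (.use 101) (.red [.f 689 5 1, .t 688 3 1] 103 136 [2, 2, 4]
  [(103, 136, [2, 2, 4])])

def c27t615 : Tr4 :=
  .br 819 .no (.red [.f 691 1 3] 103 136 [2, 2, 4] [(103, 136, [2, 2, 4])]) .no (.use 614) .no .no

def c27t616 : Tr4 :=
  .br 698 .no (.br 937 (.red [.f 937 1 3, .f 937 3 5, .f 817 5 1, .f 818 1 3] 119 136 [2, 4]
  [(119, 136, [2, 4]), (134, 118, [1])]) (.red [.t 937 2 3, .f 818 1 3] 119 136 [2, 4] [(118, 136,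
  [2, 4, 4]), (119, 136, [2, 4])]) .no (.br 936 (.br 704 .no (.use 611) .no (.hor [.f 696 3 5] [])
  .no .no) (.br 696 .no (.use 612) (.hor [.f 696 3 5] []) (.use 613) .no .no) .no (.hor [.f 928 3
  5] []) .no .no) .no (.br 696 .no (.use 612) (.hor [.f 696 3 5] []) (.use 615) .no .no)) .no
  (.red [.f 824 5 3, .f 697 3 1, .t 697 1 4] 103 136 [2, 2, 4] [(103, 136, [2, 2, 4]), (104, 136,
  [2, 2])]) .no .no

def c27t617 : Tr4 :=
  .br 705 .no (.br 937 (.red [.f 937 1 3, .f 937 3 5, .f 817 5 1, .f 818 1 3] 119 136 [2, 4]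
  [(119, 136, [2, 4]), (134, 118, [1])]) (.red [.t 937 2 3, .f 818 1 3] 119 136 [2, 4] [(118, 136,
  [2, 4, 4]), (119, 136, [2, 4])]) .no (.br 936 (.use 602) (.br 704 .no (.hor [.f 576 1 5] []) .no
  (.use 605) .no .no) .no (.hor [.f 928 3 5] []) .no .no) .no (.br 704 .no (.hor [.f 576 1 5] [])
  .no (.use 608) .no .no)) (.hor [.t 712 1 4, .f 705 1 5] [(105, 103, [3, 3])]) (.use 616) .no
  (.hor [.t 968 4 2, .t 840 2 4, .f 705 1 5] [(105, 103, [3, 3]), (121, 119, [3, 3])])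

def c27t618 : Tr4 :=
  .br 688 .no (.red [.f 560 1 3] 87 136 [2, 2, 2, 4] [(87, 136, [2, 2, 2, 4])]) .no (.con 136 [2,
  2, 2, 4, 4]) .no .no

def c27t619 : Tr4 :=
  .br 691 .no (.use 618) .no (.red [.f 689 5 1, .f 683 3 1] 102 136 [2, 2, 4, 4] [(102, 136, [2,
  2, 4, 4])]) .no .no

def c27t620 : Tr4 :=
  .br 819 .no (.red [.f 691 1 3] 103 136 [2, 2, 4] [(103, 136, [2, 2, 4])]) .no (.br 690 .no (.use
  51) .no (.use 137) (.use 79) (.br 697 .no (.hor [.f 569 1 5] []) (.br 696 .no (.use 619) (.hor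
  [.f 696 3 5] []) (.use 609) .no .no) .no .no (.red [.f 696 5 1, .f 689 5 1, .f 689 1 3] 103 136
  [2, 2, 4] [(103, 136, [2, 2, 4])]))) .no .no

def c27t621 : Tr4 :=
  .br 1354 (.hor [.f 1353 1 5] []) .no (.con 136 [3, 1, 1, 3, 1]) .no .no .no

def c27t622 : Tr4 :=
  .br 1235 (.br 1232 (.red [.f 1224 1 3, .f 1096 3 1] 170 136 [3, 3, 1, 1] [(154, 136, [3, 3, 1]),
  (170, 136, [3, 3, 1, 1])]) .no (.con 136 [3, 3, 3, 1, 1]) .no .no .no) .no (.red [.f 979 3 1, .f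
  979 1 3, .f 1107 3 1, .f 1106 1 5] 155 136 [3, 3, 3, 1] [(155, 136, [3, 3, 3, 1])]) .no .no .no

def c27t623 : Tr4 :=
  .br 1107 (.hor [.f 1106 1 5] []) .no (.use 622) .no .no .no

def c27t624 : Tr4 :=
  .br 976 .no .no (.hor [.f 976 3 5] []) .no .no .no

def c27t625 : Tr4 :=
  .br 704 .no (.hor [.f 576 1 5] []) (.br 819 .no (.red [.f 691 1 3, .f 690 3 5] 103 136 [2, 2, 4]
  [(103, 136, [2, 2, 4])]) .no (.br 691 .no (.br 570 .no (.br 576 .no (.br 707 .no (.br 976 .no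
  .no (.br 578 .no (.hor [.f 569 1 3, .f 442 1 3, .f 569 3 5] [(72, 136, [2, 2, 2, 2]), (88, 136,
  [2, 2, 2])]) (.br 713 .no (.hor [.f 577 1 3, .f 577 3 5] [(89, 88, [3])]) (.br 849 .no .no (.br
  985 (.hor [.f 977 1 3, .f 976 3 5] [(139, 136, [3, 3, 3])]) .no (.br 986 .no (.hor [.t 968 4 2,
  .t 1104 4 2, .f 969 3 5, .t 857 4 1] [(121, 119, [3, 3]), (123, 136, [2, 3, 3, 3]), (138, 136,
  [3, 3])]) (.hor [.f 985 3 5] []) .no .no .no) .no (.hor [.t 1105 2 3, .f 976 3 5] [(139, 136,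
  [3, 3, 3])]) .no) .no (.hor [.t 969 2 3, .f 840 3 5] [(122, 136, [2, 3, 3])]) .no) .no (.hor [.t
  577 1 3, .f 704 3 5] [(89, 88, [3])]) .no) .no .no .no) .no .no .no) (.hor [.t 968 4 2, .t 706 1
  3, .f 833 3 5] [(105, 103, [3, 3]), (121, 119, [3, 3])]) .no .no .no) (.hor [.f 576 3 1, .f 576
  1 5] [(89, 103, [2, 3, 3])]) (.hor [.f 569 1 3, .f 568 3 5] [(88, 136, [2, 2, 2])]) .no .no)
  (.hor [.f 569 1 3, .f 569 3 5] [(88, 136, [2, 2, 2])]) (.hor [.f 562 3 1, .f 562 1 5] [(87, 103,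
  [2])]) (.hor [.t 690 3 2, .f 569 1 5] [(87, 103, [2])]) .no) .no (.red [.f 683 3 1, .f 691 1 3,
  .f 690 3 5] 103 136 [2, 2, 4] [(102, 136, [2, 2, 4, 4]), (103, 136, [2, 2, 4])]) .no .no) .no
  .no) .no .no .no

def c27t626 : Tr4 :=
  .br 689 .no (.hor [.f 561 1 3, .f 688 3 5] [(87, 86, [3])]) .no (.br 810 .no (.use 46) .no (.br
  568 .no (.use 150) (.use 159) (.hor [.f 560 3 1, .f 568 1 5] [(87, 103, [2])]) .no .no) .no .no)
  .no .no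

def c27t627 : Tr4 :=
  .br 800 .no (.br 683 .no (.hor [.f 554 1 5] []) .no (.con 136 [2, 2, 4, 4, 4, 2]) .no .no) .no
  (.red [.f 792 3 1, .t 928 2 3, .t 937 2 3, .f 818 1 3] 119 136 [2, 4] [(116, 136, [2, 4, 4, 4,
  4]), (117, 136, [2, 4, 4, 4]), (118, 136, [2, 4, 4]), (119, 136, [2, 4])]) (.red [.f 800 5 3, .f
  801 3 5, .f 809 5 3, .f 681 3 1] 102 136 [2, 2, 4, 4] [(102, 136, [2, 2, 4, 4])]) .no

def c27t628 : Tr4 :=
  .br 810 .no (.use 46) .no (.br 561 .no (.use 151) .no (.br 682 .no (.use 627) .no (.red [.f 674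
  3 1, .t 681 3 1] 102 136 [2, 2, 4, 4] [(101, 136, [2, 2, 4, 4, 4]), (102, 136, [2, 2, 4, 4])])
  (.use 163) .no) (.hor [.t 697 2 4, .f 562 1 5] [(87, 103, [2])]) (.red [.t 696 4 2, .f 696 5 1,
  .t 697 1 4] 103 136 [2, 2, 4] [(87, 103, [2]), (103, 136, [2, 2, 4])])) .no .no

def c27t629 : Tr4 :=
  .br 928 (.hor [.f 928 1 3, .f 928 3 5] [(133, 102, [1, 4, 1])]) (.red [.t 928 2 3, .t 937 2 3,
  .f 818 1 3] 119 136 [2, 4] [(117, 136, [2, 4, 4, 4]), (118, 136, [2, 4, 4]), (119, 136, [2,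
  4])]) .no (.br 689 .no (.hor [.f 561 1 3, .f 688 3 5] [(87, 86, [3])]) .no (.br 1202 .no .no .no
  (.br 1203 (.br 1067 (.con 136 [4, 4, 1, 3, 2, 2]) (.con 136 [4, 4, 1, 3, 2, 2]) (.use 628) (.con
  136 [4, 4, 1, 3, 2, 2]) .no (.con 136 [4, 4, 1, 3, 2, 2])) (.br 1066 .no .no .no (.br 1067 (.br
  810 .no (.use 46) .no (.br 561 .no (.use 151) .no (.br 682 .no (.use 627) .no (.red [.f 674 3 1,
  .t 681 3 1] 102 136 [2, 2, 4, 4] [(101, 136, [2, 2, 4, 4, 4]), (102, 136, [2, 2, 4, 4])]) (.use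
  166) .no) (.hor [.t 697 2 4, .f 562 1 5] [(87, 103, [2])]) (.red [.t 696 4 2, .f 696 5 1, .t 697
  1 4] 103 136 [2, 2, 4] [(87, 103, [2]), (103, 136, [2, 2, 4])])) .no .no) (.br 810 .no (.use 46)
  .no (.br 561 .no (.use 151) .no (.br 682 .no (.use 627) .no (.red [.f 674 3 1, .t 681 3 1] 102
  136 [2, 2, 4, 4] [(101, 136, [2, 2, 4, 4, 4]), (102, 136, [2, 2, 4, 4])]) (.use 171) .no) (.hor
  [.t 697 2 4, .f 562 1 5] [(87, 103, [2])]) (.red [.t 696 4 2, .f 696 5 1, .t 697 1 4] 103 136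
  [2, 2, 4] [(87, 103, [2]), (103, 136, [2, 2, 4])])) .no .no) .no (.hor [.f 1058 3 5] []) .no
  .no) (.br 810 .no (.use 46) .no (.br 561 .no (.use 151) .no (.br 682 .no (.use 627) .no (.red
  [.f 674 3 1, .t 681 3 1] 102 136 [2, 2, 4, 4] [(101, 136, [2, 2, 4, 4, 4]), (102, 136, [2, 2, 4,
  4])]) (.use 173) .no) (.hor [.t 697 2 4, .f 562 1 5] [(87, 103, [2])]) (.red [.t 696 4 2, .f 696
  5 1, .t 697 1 4] 103 136 [2, 2, 4] [(87, 103, [2]), (103, 136, [2, 2, 4])])) .no .no) .no) .no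
  (.hor [.f 1194 3 5] []) .no .no) (.br 1067 (.con 136 [4, 4, 1, 3, 2, 2]) (.con 136 [4, 4, 1, 3,
  2, 2]) (.use 628) (.con 136 [4, 4, 1, 3, 2, 2]) .no (.con 136 [4, 4, 1, 3, 2, 2])) .no) .no .no)
  .no .no

def c27t630 : Tr4 :=
  .br 809 .no (.use 57) .no (.use 142) (.red [.f 809 5 3, .f 810 3 5, .t 954 2 4] 119 136 [2, 4]
  [(119, 136, [2, 4])]) (.br 1201 (.br 691 .no (.br 570 .no (.use 626) (.use 629) (.hor [.f 562 3
  1, .f 562 1 5] [(87, 103, [2])]) (.hor [.t 690 3 2, .f 569 1 5] [(87, 103, [2])]) .no) .no (.red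
  [.f 683 3 1, .f 691 1 3, .f 690 3 5] 103 136 [2, 2, 4] [(102, 136, [2, 2, 4, 4]), (103, 136, [2,
  2, 4])]) .no .no) .no .no .no (.red [.t 1081 1 4, .t 961 4 1, .f 945 1 3] 136 136 [] [(135, 136,
  [4]), (136, 136, []), (151, 135, [1])]) .no)

def c27t631 : Tr4 :=
  .br 819 .no (.red [.f 691 1 3, .f 690 3 5] 103 136 [2, 2, 4] [(103, 136, [2, 2, 4])]) .no (.br
  1338 (.hor [.f 1337 1 5] []) .no .no (.use 630) .no .no) .no .no

def c27t632 : Tr4 :=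
  .br 819 .no (.red [.f 691 1 3] 103 136 [2, 2, 4] [(103, 136, [2, 2, 4])]) .no (.br 809 .no (.br
  698 .no (.br 690 .no (.use 51) .no (.con 136 [2, 2, 4, 4, 4]) (.use 87) (.use 125)) .no (.br 697
  .no (.use 58) .no (.hor [.f 689 3 5] []) .no (.red [.f 696 5 1, .t 697 1 4] 103 136 [2, 2, 4]
  [(103, 136, [2, 2, 4])])) .no (.use 603)) .no (.red [.f 808 1 3, .f 801 3 1, .f 808 3 1, .f 808
  1 5] 117 136 [2, 4, 4, 4] [(117, 136, [2, 4, 4, 4])]) (.red [.f 808 1 3, .f 809 5 3, .f 810 3 5,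
  .t 954 2 4] 119 136 [2, 4] [(118, 102, [1]), (119, 136, [2, 4])]) .no) .no .no

def c27t633 : Tr4 :=
  .br 704 .no (.hor [.f 576 1 5] []) (.use 632) (.use 605) .no .no

def c27l17 : List Tr4 :=
  [c27t596, c27t597, c27t598, c27t599, c27t600, c27t601, c27t602, c27t603, c27t604, c27t605,
  c27t606, c27t607, c27t608, c27t609, c27t610, c27t611, c27t612, c27t613, c27t614, c27t615,
  c27t616, c27t617, c27t618, c27t619, c27t620, c27t621, c27t622, c27t623, c27t624, c27t625,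
  c27t626, c27t627, c27t628, c27t629, c27t630, c27t631, c27t632, c27t633]

theorem c27k17 : chkLF ⟨4, 1, 0, true, -8⟩ false 7 c27N 596 c27l17 = true := by decide +kernel

def c27t634 : Tr4 :=
  .br 698 .no (.br 696 .no (.br 819 .no (.red [.f 691 1 3] 103 136 [2, 2, 4] [(103, 136, [2, 2,
  4])]) .no (.br 690 .no (.use 51) .no (.use 93) (.use 87) (.use 619)) .no .no) (.hor [.f 696 3 5]
  []) (.use 613) .no .no) .no (.red [.f 824 5 3, .f 697 3 1, .t 697 1 4] 103 136 [2, 2, 4] [(103,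
  136, [2, 2, 4]), (104, 136, [2, 2])]) .no .no

def c27t635 : Tr4 :=
  .br 705 .no (.use 633) (.hor [.t 968 4 2, .f 705 3 1, .f 705 1 5] [(105, 103, [3, 3]), (121,
  119, [3, 3])]) (.use 634) .no (.use 186)

def c27t636 : Tr4 :=
  .br 819 .no (.red [.f 691 1 3] 103 136 [2, 2, 4] [(103, 136, [2, 2, 4])]) .no (.br 691 .no (.br
  698 .no (.br 690 .no (.use 51) .no (.use 146) .no (.br 697 .no (.hor [.f 569 1 5] []) (.br 696
  .no (.use 618) (.hor [.f 696 3 5] []) (.use 614) .no .no) .no .no (.red [.f 696 5 1, .f 689 5 1,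
  .f 689 1 3] 103 136 [2, 2, 4] [(103, 136, [2, 2, 4])]))) .no (.br 705 .no (.br 704 .no (.hor [.f
  576 1 5] []) (.use 145) (.use 608) .no .no) (.hor [.t 968 4 2, .f 705 3 1, .f 705 1 5] [(105,
  103, [3, 3]), (121, 119, [3, 3])]) (.red [.f 824 5 3, .f 697 3 1, .t 697 1 4] 103 136 [2, 2, 4]
  [(103, 136, [2, 2, 4]), (104, 136, [2, 2])]) .no (.use 179)) .no (.use 606)) .no (.red [.f 683 3
  1, .f 691 1 3] 103 136 [2, 2, 4] [(102, 136, [2, 2, 4, 4]), (103, 136, [2, 2, 4])]) .no (.use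
  101)) .no .no

def c27t637 : Tr4 :=
  .br 1201 .no .no .no (.use 181) (.red [.t 1081 1 4, .t 961 4 1, .f 945 1 3] 136 136 [] [(135,
  136, [4]), (136, 136, []), (151, 135, [1])]) .no

def c27t638 : Tr4 :=
  .br 937 (.red [.f 937 1 3, .f 937 3 5, .f 817 5 1, .f 818 1 3] 119 136 [2, 4] [(119, 136, [2,
  4]), (134, 118, [1])]) (.red [.t 937 2 3, .f 818 1 3] 119 136 [2, 4] [(118, 136, [2, 4, 4]),
  (119, 136, [2, 4])]) .no (.br 936 (.use 637) (.use 635) .no (.hor [.f 928 3 5] []) .no .no) .no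
  (.use 636)

def c27t639 : Tr4 :=
  .br 1346 (.br 1347 (.hor [.f 1346 1 5] []) .no (.br 824 .no (.use 598) .no (.use 599) (.br 818
  .no (.use 6) .no (.red [.f 810 3 1, .f 818 1 3] 119 136 [2, 4] [(118, 136, [2, 4, 4]), (119,
  136, [2, 4])]) (.red [.f 824 5 3, .t 954 2 4] 119 136 [2, 4] [(119, 136, [2, 4])]) (.br 944 .no
  (.br 840 .no (.use 617) (.br 977 (.br 1106 (.use 623) .no (.br 1107 (.br 1353 (.use 621) .no
  (.red [.f 1225 3 1, .f 1217 1 3] 170 136 [3, 3, 1, 1] [(169, 136, [3, 1, 1]), (170, 136, [3, 3,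
  1, 1])]) .no (.br 1234 (.red [.t 1233 4 1, .f 1217 1 3] 170 136 [3, 3, 1, 1] [(169, 136, [3, 1,
  1]), (170, 136, [3, 3, 1, 1])]) .no (.hor [.f 1106 3 1, .f 1106 1 5] [(155, 153, [3, 3])]) .no
  .no .no) .no) .no (.hor [.f 1106 3 5] []) .no .no .no) .no (.hor [.t 970 3 1, .f 977 1 5] [(138,
  136, [3, 3])]) .no) (.hor [.f 841 1 3, .f 840 3 5] [(122, 136, [2, 3, 3])]) (.use 624) .no .no
  (.hor [.t 840 3 1, .f 969 3 5] [(122, 136, [2, 3, 3])])) .no .no .no) .no (.use 293) .no .no))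
  .no) .no .no .no) .no (.br 824 .no (.use 598) .no (.use 599) (.br 818 .no (.use 6) .no (.red [.f
  810 3 1, .f 818 1 3] 119 136 [2, 4] [(118, 136, [2, 4, 4]), (119, 136, [2, 4])]) (.red [.f 824 5
  3, .t 954 2 4] 119 136 [2, 4] [(119, 136, [2, 4])]) (.br 944 .no (.br 840 .no (.use 617) (.br
  977 (.br 1106 (.use 623) .no (.br 1337 (.br 937 (.red [.f 937 1 3, .f 937 3 5, .f 817 5 1, .f
  818 1 3] 119 136 [2, 4] [(119, 136, [2, 4]), (134, 118, [1])]) (.red [.t 937 2 3, .f 818 1 3]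
  119 136 [2, 4] [(118, 136, [2, 4, 4]), (119, 136, [2, 4])]) .no (.br 936 (.br 698 .no (.use 620)
  .no (.br 697 .no (.br 1065 (.br 705 .no (.br 696 .no (.hor [.f 568 1 5] []) (.use 601) (.use
  625) .no .no) (.hor [.t 968 4 2, .f 705 3 1, .f 705 1 5] [(105, 103, [3, 3]), (121, 119, [3,
  3])]) .no .no (.br 696 .no (.hor [.f 568 1 5] []) .no (.use 631) .no .no)) .no .no (.hor [.f 929
  3 1, .f 936 1 5] [(133, 119, [4, 4, 1])]) (.red [.t 945 1 4, .f 817 5 1, .f 818 1 3] 119 136 [2,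
  4] [(119, 136, [2, 4]), (134, 118, [1])]) .no) (.red [.f 824 5 3, .f 697 3 1, .t 697 1 4] 103
  136 [2, 2, 4] [(103, 136, [2, 2, 4]), (104, 136, [2, 2])]) (.hor [.f 689 3 5] []) .no (.red [.f
  696 5 1, .t 697 1 4] 103 136 [2, 2, 4] [(103, 136, [2, 2, 4])])) .no (.use 600)) (.use 635) .no
  (.hor [.f 928 3 5] []) .no .no) .no (.use 636)) .no .no (.use 638) (.red [.t 1217 1 4, .t 1097 4
  1, .f 1081 1 3] 153 136 [3, 1] [(152, 136, [1]), (153, 136, [3, 1]), (168, 152, [1])]) (.con 136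
  [1, 1, 4, 2, 2, 2])) .no (.hor [.t 970 3 1, .f 977 1 5] [(138, 136, [3, 3])]) .no) (.hor [.f 841
  1 3, .f 840 3 5] [(122, 136, [2, 3, 3])]) (.use 624) .no .no (.hor [.t 840 3 1, .f 969 3 5]
  [(122, 136, [2, 3, 3])])) .no .no .no) .no (.use 293) .no .no)) .no) (.red [.f 1210 3 1, .f 1217
  1 5, .t 1097 4 1] 153 136 [3, 1] [(153, 136, [3, 1]), (168, 152, [1])]) (.red [.t 1210 3 1, .f
  1217 1 5, .t 1097 4 1, .f 1081 1 3] 153 136 [3, 1] [(152, 136, [1]), (153, 136, [3, 1]), (168,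
  152, [1])]) .no

def c27t640 : Tr4 :=
  .br 937 (.red [.f 937 1 3, .f 937 3 5, .f 817 5 1, .f 818 1 3] 119 136 [2, 4] [(119, 136, [2,
  4]), (134, 118, [1])]) (.red [.t 937 2 3, .f 818 1 3] 119 136 [2, 4] [(118, 136, [2, 4, 4]),
  (119, 136, [2, 4])]) .no (.br 936 (.br 698 .no (.use 620) .no (.red [.f 824 5 3, .f 697 3 1, .t
  697 1 4] 103 136 [2, 2, 4] [(103, 136, [2, 2, 4]), (104, 136, [2, 2])]) .no .no) (.use 634) .no
  (.hor [.f 928 3 5] []) .no .no) .no (.use 636)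

def c27t641 : Tr4 :=
  .br 928 (.hor [.f 928 1 3, .f 928 3 5] [(133, 118, [1, 4])]) (.red [.t 928 2 3, .t 937 2 3, .f
  818 1 3] 119 136 [2, 4] [(117, 136, [2, 4, 4, 4]), (118, 136, [2, 4, 4]), (119, 136, [2, 4])])
  .no (.br 689 .no (.hor [.f 561 1 3, .f 688 3 5] [(87, 86, [3])]) .no (.use 628) .no .no) .no .no

def c27t642 : Tr4 :=
  .br 1066 (.hor [.f 1065 1 5] []) .no .no (.br 1067 (.con 136 [4, 4, 1, 3, 2, 2]) (.con 136 [4,
  4, 1, 3, 2, 2]) (.use 641) (.con 136 [4, 4, 1, 3, 2, 2]) .no .no) (.con 136 [4, 4, 1, 3, 2, 2])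
  .no

def c27t643 : Tr4 :=
  .br 1065 (.br 696 .no (.hor [.f 568 1 5] []) .no (.br 819 .no (.red [.f 691 1 3, .f 690 3 5] 103
  136 [2, 2, 4] [(103, 136, [2, 2, 4])]) .no (.br 809 .no (.use 57) .no (.use 142) (.red [.f 809 5
  3, .f 810 3 5, .t 954 2 4] 119 136 [2, 4] [(119, 136, [2, 4])]) (.br 1201 (.br 691 .no (.br 570
  .no (.use 626) (.use 642) (.hor [.f 562 3 1, .f 562 1 5] [(87, 103, [2])]) (.hor [.t 690 3 2, .f
  569 1 5] [(87, 103, [2])]) .no) .no (.red [.f 683 3 1, .f 691 1 3, .f 690 3 5] 103 136 [2, 2, 4]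
  [(102, 136, [2, 2, 4, 4]), (103, 136, [2, 2, 4])]) .no .no) .no .no .no (.red [.t 1081 1 4, .t
  961 4 1, .f 945 1 3] 136 136 [] [(135, 136, [4]), (136, 136, []), (151, 135, [1])]) .no)) .no
  .no) .no .no) .no .no (.hor [.f 929 3 1, .f 936 1 5] [(133, 119, [1, 4, 4])]) (.red [.t 945 1 4,
  .f 817 5 1, .f 818 1 3] 119 136 [2, 4] [(119, 136, [2, 4]), (134, 118, [1])]) .no

def c27t644 : Tr4 :=
  .br 937 (.red [.f 937 1 3, .f 937 3 5, .f 817 5 1, .f 818 1 3] 119 136 [2, 4] [(119, 136, [2,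
  4]), (134, 118, [1])]) (.red [.t 937 2 3, .f 818 1 3] 119 136 [2, 4] [(118, 136, [2, 4, 4]),
  (119, 136, [2, 4])]) .no (.br 936 (.br 698 .no (.use 620) .no (.br 697 .no (.use 643) .no (.hor
  [.f 689 3 5] []) .no (.red [.f 696 5 3, .f 696 3 5, .f 696 5 1, .t 697 1 4] 103 136 [2, 2, 4]
  [(103, 136, [2, 2, 4])])) .no (.use 600)) (.use 186) .no (.hor [.f 928 3 5] []) .no .no) .no
  (.use 636)

def c27t645 : Tr4 :=
  .br 825 .no (.hor [.f 696 1 5] []) .no (.dom 119 136 [2, 4]) .no .no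

def c27t646 : Tr4 :=
  .br 944 .no (.br 824 .no (.use 645) .no .no (.br 818 .no (.use 6) .no (.red [.f 810 3 1, .f 818
  1 3] 119 136 [2, 4] [(118, 136, [2, 4, 4]), (119, 136, [2, 4])]) (.red [.f 824 5 3, .t 954 2 4]
  119 136 [2, 4] [(119, 136, [2, 4])]) (.br 937 (.red [.f 937 1 3, .f 937 3 5, .f 817 5 1, .f 818
  1 3] 119 136 [2, 4] [(119, 136, [2, 4]), (134, 118, [1])]) (.red [.t 937 2 3, .f 818 1 3] 119
  136 [2, 4] [(118, 136, [2, 4, 4]), (119, 136, [2, 4])]) .no (.br 936 .no (.use 635) .no (.hor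
  [.f 928 3 5] []) .no .no) .no (.red [.t 1072 4 2, .f 937 3 5, .f 817 5 1, .f 818 1 3] 119 136
  [2, 4] [(119, 136, [2, 4]), (134, 118, [1])]))) .no) .no (.hor [.f 936 3 1, .f 944 1 5] [(134,
  118, [1])]) .no .no

def c27t647 : Tr4 :=
  .br 971 (.br 1098 (.br 1225 (.hor [.f 1224 1 5] []) .no (.br 1072 (.br 979 (.hor [.f 971 1 3, .f
  970 3 5] [(138, 136, [3, 3])]) (.hor [.t 978 4 2, .f 841 1 5] [(122, 136, [2, 3, 3])]) (.br 1211
  (.br 1219 (.hor [.f 1211 1 3, .f 1210 3 5] [(168, 169, [4])]) .no (.use 639) .no .no .no) .no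
  (.hor [.f 1210 3 5] []) (.br 824 .no (.use 598) .no (.use 599) (.br 818 .no (.use 6) .no (.red
  [.f 810 3 1, .f 818 1 3] 119 136 [2, 4] [(118, 136, [2, 4, 4]), (119, 136, [2, 4])]) (.red [.f
  824 5 3, .t 954 2 4] 119 136 [2, 4] [(119, 136, [2, 4])]) (.br 944 .no (.br 705 .no (.br 937
  (.red [.f 937 1 3, .f 937 3 5, .f 817 5 1, .f 818 1 3] 119 136 [2, 4] [(119, 136, [2, 4]), (134,
  118, [1])]) (.red [.t 937 2 3, .f 818 1 3] 119 136 [2, 4] [(118, 136, [2, 4, 4]), (119, 136, [2,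
  4])]) .no (.br 936 (.br 698 .no (.use 620) .no (.br 697 .no (.br 696 .no (.hor [.f 568 1 5] [])
  (.use 601) (.br 840 .no (.use 602) (.br 977 (.br 1106 (.br 1107 (.hor [.f 1106 1 5] []) .no (.br
  1219 (.br 1227 (.red [.f 1219 1 3] 169 136 [3, 1, 1] [(169, 136, [3, 1, 1])]) .no (.con 136 [3,
  3, 1, 1]) .no .no .no) .no (.use 622) .no .no .no) .no .no .no) .no (.use 625) .no (.hor [.t 970
  3 1, .f 977 1 5] [(138, 136, [3, 3])]) .no) (.hor [.f 841 1 3, .f 840 3 5] [(122, 136, [2, 3,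
  3])]) (.use 624) .no .no (.hor [.t 840 3 1, .f 969 3 5] [(122, 136, [2, 3, 3])])) .no .no .no)
  .no .no) .no (.hor [.f 689 3 5] []) .no (.red [.f 696 5 1, .t 697 1 4] 103 136 [2, 2, 4] [(103,
  136, [2, 2, 4])])) .no (.use 600)) (.use 633) .no (.hor [.f 928 3 5] []) .no .no) .no (.use
  636)) (.hor [.t 968 4 2, .f 705 3 1, .f 705 1 5] [(105, 103, [3, 3]), (121, 119, [3, 3])]) (.use
  640) .no (.use 644)) .no (.use 293) .no .no)) .no) .no .no) .no .no .no) (.hor [.f 944 1 5] [])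
  .no (.use 646) .no .no) .no .no .no) .no (.hor [.f 970 3 1, .f 970 1 5] [(138, 154, [2])]) .no
  .no .no) .no (.hor [.f 970 3 5] []) .no .no .no

def c27t648 : Tr4 :=
  .br 817 .no (.con 136 [2, 4, 2]) (.hor [.f 816 3 5] []) (.con 136 [2, 4, 2]) (.con 136 [2, 4,
  2]) .no

def c27t649 : Tr4 :=
  .br 704 .no (.con 136 [2, 2, 2, 3]) (.hor [.f 704 3 5] []) (.con 136 [2, 2, 2, 3]) .no .no

def c27t650 : Tr4 :=
  .br 698 .no (.br 696 .no (.hor [.f 570 1 3, .f 697 3 5] [(88, 87, [3])]) (.hor [.f 696 3 5] [])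
  (.hor [.f 570 1 3, .f 697 3 5] [(88, 103, [2, 3])]) .no .no) .no (.red [.f 824 5 3, .f 697 3 1,
  .t 697 1 4] 103 136 [2, 2, 4] [(103, 136, [2, 2, 4]), (104, 136, [2, 2])]) .no .no

def c27t651 : Tr4 :=
  .br 688 .no (.red [.f 560 1 3] 87 136 [2, 2, 4, 2] [(87, 136, [2, 2, 4, 2])]) .no (.con 136 [2,
  2, 4, 2, 4]) .no .no

def c27t652 : Tr4 :=
  .br 696 .no (.use 651) .no (.red [.f 689 5 1, .t 688 3 1] 103 136 [2, 2, 4] [(103, 136, [2, 2,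
  4])]) (.red [.f 696 5 3, .f 689 5 1, .f 696 3 5, .f 696 5 1, .f 689 1 3] 103 136 [2, 2, 4]
  [(103, 136, [2, 2, 4])]) .no

def c27t653 : Tr4 :=
  .br 849 .no (.con 136 [2, 3, 2, 3, 2]) (.br 976 .no .no (.br 985 (.red [.f 977 1 3, .f 976 3 5]
  139 136 [3, 3, 3] [(139, 136, [3, 3, 3])]) .no (.use 579) .no (.use 582) .no) .no .no .no) .no
  (.red [.t 969 2 3, .f 840 3 5] 122 136 [2, 3, 3] [(122, 136, [2, 3, 3])]) .no

def c27t654 : Tr4 :=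
  .br 976 .no (.con 136 [2, 3, 3, 2]) (.br 840 .no (.con 136 [2, 2, 3, 3]) (.br 985 (.red [.f 977
  1 3, .f 976 3 5] 139 136 [3, 3, 3] [(139, 136, [3, 3, 3])]) (.use 552) (.br 849 .no (.con 136
  [2, 2, 3, 3, 2]) (.use 579) .no (.red [.t 969 2 3, .f 840 3 5] 122 136 [2, 3, 3] [(122, 136, [2,
  3, 3])]) .no) .no (.red [.t 1105 2 3, .f 976 3 5] 139 136 [3, 3, 3] [(139, 136, [3, 3, 3])])
  .no) .no .no .no) .no .no .no

def c27t655 : Tr4 :=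
  .br 715 .no (.br 1106 (.br 705 .no (.hor [.f 577 1 5] []) (.use 649) (.use 650) .no (.br 714 .no
  (.hor [.f 586 1 5] []) (.br 840 .no (.con 136 [2, 2, 3, 3]) (.use 653) .no .no .no) .no .no
  (.red [.f 704 5 1, .t 833 2 3] 105 136 [2, 2, 3] [(105, 136, [2, 2, 3])]))) .no (.br 705 .no
  (.hor [.f 577 1 5] []) (.use 649) (.use 650) .no (.br 714 .no (.hor [.f 586 1 5] []) (.use 654)
  .no .no (.red [.f 704 5 1, .t 833 2 3] 105 136 [2, 2, 3] [(105, 136, [2, 2, 3])]))) .no .no .no)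
  (.red [.f 715 3 1, .f 707 1 3, .f 834 3 5] 106 136 [2, 2, 3, 3] [(105, 136, [2, 2, 3]), (106,
  136, [2, 2, 3, 3])]) .no .no (.red [.t 834 3 2] 105 136 [2, 2, 3] [(105, 136, [2, 2, 3])])

def c27t656 : Tr4 :=
  .br 697 .no (.br 696 .no (.hor [.f 568 1 5] []) (.con 136 [2, 2, 2]) (.red [.f 689 5 1, .t 688 3
  1] 103 136 [2, 2, 4] [(103, 136, [2, 2, 4])]) .no .no) (.hor [.f 697 3 5] []) .no .no (.red [.f
  696 5 1, .f 689 5 1, .f 689 1 3] 103 136 [2, 2, 4] [(103, 136, [2, 2, 4])])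

def c27t657 : Tr4 :=
  .br 690 .no (.use 51) .no (.use 137) (.use 79) (.use 656)

def c27t658 : Tr4 :=
  .br 696 .no (.con 136 [2, 2, 2, 4]) .no (.hor [.f 688 3 5] []) .no .no

def c27t659 : Tr4 :=
  .br 569 .no (.br 568 .no (.hor [.f 440 1 5] []) (.red [.t 576 4 1] 88 136 [2, 2, 2] [(88, 136,
  [2, 2, 2])]) (.br 570 .no (.hor [.f 441 1 5] []) (.red [.f 570 3 1, .f 577 1 5] 88 136 [2, 2, 2]
  [(88, 136, [2, 2, 2])]) (.con 136 [2, 2, 2, 2, 4]) (.con 136 [2, 2, 2, 2, 4]) .no) .no .no) .no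
  (.br 688 .no (.con 136 [2, 2, 4, 4, 2, 3]) .no (.con 136 [2, 2, 4, 4, 2]) (.red [.f 808 1 3, .f
  688 5 3, .f 561 3 1, .f 569 1 3] 88 136 [2, 2, 2] [(87, 136, [2, 2, 2, 4]), (88, 136, [2, 2,
  2]), (118, 119, [4])]) .no) (.red [.f 696 5 1, .t 705 2 4] 88 136 [2, 2, 2] [(88, 136, [2, 2,
  2])]) (.red [.f 568 5 1, .f 569 1 3] 88 136 [2, 2, 2] [(88, 136, [2, 2, 2])])

def c27t660 : Tr4 :=
  .br 704 .no (.con 136 [2, 2, 2, 3]) (.hor [.f 704 3 5] []) (.con 136 [2, 2, 2]) .no .no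

def c27l18 : List Tr4 :=
  [c27t634, c27t635, c27t636, c27t637, c27t638, c27t639, c27t640, c27t641, c27t642, c27t643,
  c27t644, c27t645, c27t646, c27t647, c27t648, c27t649, c27t650, c27t651, c27t652, c27t653,
  c27t654, c27t655, c27t656, c27t657, c27t658, c27t659, c27t660]

theorem c27k18 : chkLF ⟨4, 1, 0, true, -8⟩ false 7 c27N 634 c27l18 = true := by decide +kernel

def c27t661 : Tr4 :=
  .br 690 .no (.use 51) .no (.use 93) (.br 809 .no (.br 840 .no (.con 136 [2, 2, 3, 3]) (.br 705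
  .no (.br 704 .no (.hor [.f 576 1 5] []) (.br 697 .no (.red [.f 569 1 3] 88 136 [2, 2, 2] [(88,
  136, [2, 2, 2])]) .no (.use 658) .no (.use 659)) (.con 136 [2, 2, 2]) .no .no) (.use 660) (.hor
  [.f 697 3 5] []) .no (.br 714 .no (.hor [.f 586 1 5] []) (.use 653) .no .no (.red [.f 704 5 1,
  .t 833 2 3] 105 136 [2, 2, 3] [(105, 136, [2, 2, 3])]))) .no .no .no) .no (.red [.f 808 1 3, .f
  801 3 1, .f 808 3 1, .f 808 1 5] 117 136 [2, 4, 4, 4] [(117, 136, [2, 4, 4, 4])]) (.red [.f 808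
  1 3, .f 809 5 3, .f 810 3 5, .t 954 2 4] 119 136 [2, 4] [(118, 102, [1]), (119, 136, [2, 4])])
  .no) (.use 656)

def c27t662 : Tr4 :=
  .br 690 .no (.use 51) .no (.use 63) (.br 809 .no (.use 659) .no (.red [.f 808 1 3, .f 801 3 1,
  .f 808 3 1, .f 808 1 5] 117 136 [2, 4, 4, 4] [(117, 136, [2, 4, 4, 4])]) (.red [.f 808 1 3, .f
  809 5 3, .f 810 3 5, .t 954 2 4] 119 136 [2, 4] [(118, 102, [1]), (119, 136, [2, 4])]) .no)
  (.use 656)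

def c27t663 : Tr4 :=
  .br 714 .no (.hor [.f 586 1 5] []) (.use 654) .no .no (.red [.f 704 5 1, .t 833 2 3] 105 136 [2,
  2, 3] [(105, 136, [2, 2, 3])])

def c27t664 : Tr4 :=
  .br 715 .no (.br 714 .no (.hor [.f 586 1 5] []) (.br 1106 (.br 840 .no (.con 136 [2, 2, 3, 3])
  (.use 653) .no .no .no) .no (.use 654) .no .no .no) .no .no (.red [.t 968 4 2, .f 705 5 3, .f
  706 3 1] 105 136 [2, 2, 3] [(105, 136, [2, 2, 3]), (121, 105, [1])])) (.red [.f 715 3 1, .f 707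
  1 3, .f 834 3 5] 106 136 [2, 2, 3, 3] [(105, 136, [2, 2, 3]), (106, 136, [2, 2, 3, 3])]) .no .no
  (.red [.t 834 3 2] 105 136 [2, 2, 3] [(105, 136, [2, 2, 3])])

def c27t665 : Tr4 :=
  .br 840 .no (.con 136 [2, 3, 2, 3]) (.red [.t 840 3 1, .f 969 3 5] 122 136 [2, 3, 3] [(122, 136,
  [2, 3, 3])]) .no .no .no

def c27t666 : Tr4 :=
  .br 834 .no (.br 842 .no (.hor [.f 706 1 3, .f 834 3 5] [(105, 136, [2, 2, 3])]) (.red [.f 824 5
  3, .f 842 3 1] 122 136 [3, 3, 2] [(122, 136, [3, 3, 2])]) .no .no .no) (.hor [.f 834 3 5] [])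
  .no .no .no

def c27t667 : Tr4 :=
  .br 1232 (.red [.f 1224 1 3, .f 1096 3 1] 170 136 [3, 1, 1, 3] [(154, 136, [3, 3, 1]), (170,
  136, [3, 1, 1, 3])]) .no (.con 136 [3, 3, 3, 1, 3]) .no .no .no

def c27t668 : Tr4 :=
  .br 849 .no (.con 136 [2, 3, 3, 2, 3]) (.hor [.f 849 3 5] []) .no .no .no

def c27t669 : Tr4 :=
  .br 707 .no (.hor [.f 578 1 5] []) (.con 136 [2, 2, 2, 3]) .no .no .no

def c27t670 : Tr4 :=
  .br 849 .no (.con 136 [2, 3, 3, 2, 3]) (.hor [.f 849 3 5] []) .no .no .no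

def c27t671 : Tr4 :=
  .br 979 .no (.red [.t 978 4 2, .f 841 1 5] 122 136 [2, 3, 3] [(122, 136, [2, 3, 3])]) (.br 977
  (.br 851 .no (.br 850 .no (.hor [.f 722 1 5] []) (.br 976 .no (.con 136 [2, 3, 3, 3]) (.br 840
  .no (.br 848 .no (.red [.f 712 1 3] 106 136 [2, 3, 2, 3] [(106, 136, [2, 3, 2, 3])]) (.con 136
  [2, 3, 2, 3, 3]) .no (.con 136 [2, 3, 2, 3, 3]) .no) (.use 670) .no .no .no) .no .no .no) .no
  .no (.red [.f 824 5 3, .t 969 2 3] 122 136 [2, 3, 3] [(122, 136, [2, 3, 3])])) (.red [.f 851 3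
  1, .t 978 4 2] 123 136 [2, 3, 3, 3] [(122, 136, [2, 3, 3]), (123, 136, [2, 3, 3, 3])]) .no .no
  (.red [.f 842 5 3, .f 842 3 1] 122 136 [2, 3, 3] [(122, 136, [2, 3, 3])])) (.red [.f 841 1 3]
  122 136 [2, 3, 3] [(122, 136, [2, 3, 3])]) (.br 976 .no (.con 136 [2, 3, 3, 3]) (.hor [.f 976 3
  5] []) .no .no .no) .no .no (.br 840 .no (.br 848 .no (.red [.f 712 1 3] 106 136 [2, 3, 2, 3]
  [(106, 136, [2, 3, 2, 3])]) (.br 851 .no (.br 849 .no (.con 136 [2, 3, 2, 3, 3]) (.hor [.f 848 3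
  5] []) .no (.con 136 [2, 3, 2, 3, 3]) .no) (.red [.f 851 3 1, .t 978 4 2] 123 136 [2, 3, 3, 3]
  [(122, 136, [2, 3, 3]), (123, 136, [2, 3, 3, 3])]) .no .no (.red [.f 842 5 3, .f 842 3 1] 122
  136 [2, 3, 3] [(122, 136, [2, 3, 3])])) .no (.red [.f 848 5 1, .f 841 1 3] 122 136 [2, 3, 3]
  [(122, 136, [2, 3, 3])]) .no) (.red [.t 840 3 1, .f 969 3 5] 122 136 [2, 3, 3] [(122, 136, [2,
  3, 3])]) .no .no .no)) .no .no .no

def c27t672 : Tr4 :=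
  .br 842 .no (.br 843 .no (.hor [.f 714 1 5] []) (.br 840 .no (.con 136 [2, 2, 3, 3]) (.br 977
  (.br 850 .no (.red [.f 714 1 3] 106 136 [2, 2, 3, 3] [(106, 136, [2, 2, 3, 3])]) (.use 668) .no
  .no (.red [.t 969 2 3, .f 840 3 5] 122 136 [2, 3, 3] [(122, 136, [2, 3, 3])])) (.red [.f 841 1
  3, .f 840 3 5] 122 136 [2, 3, 3] [(122, 136, [2, 3, 3])]) (.use 549) .no .no (.red [.t 840 3 1,
  .f 969 3 5] 122 136 [2, 3, 3] [(122, 136, [2, 3, 3])])) .no .no .no) .no .no .no) (.red [.f 824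
  5 3, .f 842 3 1] 122 136 [2, 3, 3] [(122, 136, [2, 3, 3])]) .no (.use 671) .no

def c27t673 : Tr4 :=
  .br 824 .no (.use 598) .no (.use 648) (.br 835 .no (.br 834 .no (.hor [.f 706 1 5] []) (.br 843
  .no (.red [.f 707 1 3] 105 136 [2, 2, 3] [(105, 136, [2, 2, 3])]) (.br 818 .no (.use 6) .no
  (.red [.f 810 3 1, .f 818 1 3] 119 136 [2, 4] [(118, 136, [2, 4, 4]), (119, 136, [2, 4])]) (.red
  [.f 699 1 3, .f 699 3 1, .t 954 2 4] 119 136 [2, 4] [(119, 136, [2, 4])]) (.br 944 .no (.br 977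
  (.br 706 .no (.use 655) (.red [.f 706 3 1, .f 706 1 5] 105 136 [2, 2, 3] [(105, 136, [2, 2,
  3])]) (.br 715 .no (.br 1106 (.br 819 .no (.red [.f 691 1 3] 103 136 [2, 2, 4] [(103, 136, [2,
  2, 4])]) .no (.br 937 (.red [.f 937 1 3, .f 937 3 5, .f 817 5 1, .f 818 1 3] 119 136 [2, 4]
  [(119, 136, [2, 4]), (134, 118, [1])]) (.red [.t 937 2 3, .f 818 1 3] 119 136 [2, 4] [(118, 136,
  [2, 4, 4]), (119, 136, [2, 4])]) .no (.br 936 (.use 657) (.use 661) .no (.hor [.f 928 3 5] [])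
  .no .no) .no (.br 690 .no (.use 51) .no (.use 146) (.use 101) (.use 656))) .no .no) .no (.br 705
  .no (.br 704 .no (.hor [.f 576 1 5] []) (.br 697 .no (.red [.f 569 1 3] 88 136 [2, 2, 2] [(88,
  136, [2, 2, 2])]) .no (.use 658) .no (.br 819 .no (.red [.f 691 1 3] 103 136 [2, 2, 4] [(103,
  136, [2, 2, 4])]) .no (.br 937 (.red [.f 937 1 3, .f 937 3 5, .f 817 5 1, .f 818 1 3] 119 136
  [2, 4] [(119, 136, [2, 4]), (134, 118, [1])]) (.red [.t 937 2 3, .f 818 1 3] 119 136 [2, 4]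
  [(118, 136, [2, 4, 4]), (119, 136, [2, 4])]) .no (.br 936 (.use 657) (.use 662) .no (.hor [.f
  928 3 5] []) .no .no) .no (.use 102)) .no .no)) (.con 136 [2, 2, 2]) .no .no) (.use 660) (.hor
  [.f 697 3 5] []) .no (.use 663)) .no .no .no) (.red [.f 715 3 1, .f 707 1 3, .f 834 3 5] 106 136
  [2, 2, 3, 3] [(105, 136, [2, 2, 3]), (106, 136, [2, 2, 3, 3])]) .no .no (.red [.t 834 3 2] 105
  136 [2, 2, 3] [(105, 136, [2, 2, 3])])) .no (.use 664)) (.red [.f 841 1 3] 122 136 [2, 3, 3]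
  [(122, 136, [2, 3, 3])]) (.use 549) .no .no (.use 665)) .no (.use 293) .no .no)) .no .no .no)
  .no .no .no) (.use 666) .no .no (.use 672)) .no

def c27t674 : Tr4 :=
  .br 824 .no (.use 645) .no .no (.br 835 .no (.br 834 .no (.hor [.f 706 1 5] []) (.br 843 .no
  (.red [.f 707 1 3] 105 136 [2, 2, 3] [(105, 136, [2, 2, 3])]) (.br 977 (.br 706 .no (.br 818 .no
  (.use 6) .no (.red [.f 810 3 1, .f 818 1 3] 119 136 [2, 4] [(118, 136, [2, 4, 4]), (119, 136,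
  [2, 4])]) (.red [.f 699 1 3, .f 699 3 1, .t 954 2 4] 119 136 [2, 4] [(119, 136, [2, 4])]) (.use
  655)) (.red [.f 706 3 1, .f 706 1 5] 105 136 [2, 2, 3] [(105, 136, [2, 2, 3])]) (.br 705 .no
  (.br 818 .no (.use 6) .no (.red [.f 810 3 1, .f 818 1 3] 119 136 [2, 4] [(118, 136, [2, 4, 4]),
  (119, 136, [2, 4])]) (.red [.f 699 1 3, .f 699 3 1, .t 954 2 4] 119 136 [2, 4] [(119, 136, [2,
  4])]) (.br 937 (.red [.f 937 1 3, .f 937 3 5, .f 817 5 1, .f 818 1 3] 119 136 [2, 4] [(119, 136,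
  [2, 4]), (134, 118, [1])]) (.red [.t 937 2 3, .f 818 1 3] 119 136 [2, 4] [(118, 136, [2, 4, 4]),
  (119, 136, [2, 4])]) .no (.br 936 .no (.br 704 .no (.hor [.f 576 1 5] []) (.br 697 .no (.red [.f
  569 1 3] 88 136 [2, 2, 2] [(88, 136, [2, 2, 2])]) .no (.use 658) .no (.br 819 .no (.red [.f 691
  1 3] 103 136 [2, 2, 4] [(103, 136, [2, 2, 4])]) .no (.use 662) .no .no)) (.con 136 [2, 2, 2])
  .no .no) .no (.hor [.f 928 3 5] []) .no .no) .no (.red [.t 1072 4 2, .f 937 3 5, .f 817 5 1, .f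
  818 1 3] 119 136 [2, 4] [(119, 136, [2, 4]), (134, 118, [1])]))) (.use 660) (.hor [.f 697 3 5]
  []) .no (.br 818 .no (.use 6) .no (.red [.f 810 3 1, .f 818 1 3] 119 136 [2, 4] [(118, 136, [2,
  4, 4]), (119, 136, [2, 4])]) (.red [.f 699 1 3, .f 699 3 1, .t 954 2 4] 119 136 [2, 4] [(119,
  136, [2, 4])]) (.br 937 (.red [.f 937 1 3, .f 937 3 5, .f 817 5 1, .f 818 1 3] 119 136 [2, 4]
  [(119, 136, [2, 4]), (134, 118, [1])]) (.red [.t 937 2 3, .f 818 1 3] 119 136 [2, 4] [(118, 136,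
  [2, 4, 4]), (119, 136, [2, 4])]) .no (.br 936 .no (.br 715 .no (.br 1106 (.br 819 .no (.red [.f
  691 1 3] 103 136 [2, 2, 4] [(103, 136, [2, 2, 4])]) .no (.use 661) .no .no) .no (.use 663) .no
  .no .no) (.red [.f 715 3 1, .f 707 1 3, .f 834 3 5] 106 136 [2, 2, 3, 3] [(105, 136, [2, 2, 3]),
  (106, 136, [2, 2, 3, 3])]) .no .no (.red [.t 834 3 2] 105 136 [2, 2, 3] [(105, 136, [2, 2,
  3])])) .no (.hor [.f 928 3 5] []) .no .no) .no (.red [.t 1072 4 2, .f 937 3 5, .f 817 5 1, .f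
  818 1 3] 119 136 [2, 4] [(119, 136, [2, 4]), (134, 118, [1])])))) .no (.use 664)) (.red [.f 841
  1 3] 122 136 [2, 3, 3] [(122, 136, [2, 3, 3])]) (.use 549) .no .no (.use 665)) .no .no .no) .no
  .no .no) (.use 666) .no .no (.use 672)) .no

def c27t675 : Tr4 :=
  .br 818 .no (.br 691 (.hor [.f 690 1 5] []) (.con 136 [2, 2, 4, 4]) .no (.con 136 [2, 2, 4, 4])
  .no .no) .no (.red [.f 810 3 1, .f 818 1 3] 119 136 [2, 4] [(118, 136, [2, 4, 4]), (119, 136,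
  [2, 4])]) (.red [.t 954 2 4, .f 817 3 5] 119 136 [2, 4] [(119, 136, [2, 4])]) .no

def c27t676 : Tr4 :=
  .br 818 .no (.br 691 (.hor [.f 690 1 5] []) (.con 136 [2, 4, 2, 4]) .no (.con 136 [2, 4, 2, 4])
  .no .no) .no (.red [.f 810 3 1, .f 818 1 3] 119 136 [2, 4] [(118, 136, [2, 4, 4]), (119, 136,
  [2, 4])]) (.red [.t 954 2 4, .f 817 3 5] 119 136 [2, 4] [(119, 136, [2, 4])]) .no

def c27t677 : Tr4 :=
  .br 699 .no (.br 698 .no (.hor [.f 570 1 5] []) (.br 705 .no (.con 136 [2, 2, 2]) (.con 136 [2,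
  2, 2]) (.red [.t 696 1 3] 104 136 [2, 2] [(104, 136, [2, 2])]) .no (.con 136 [2, 2, 2])) (.use
  469) .no (.br 706 .no (.br 705 .no (.hor [.f 577 1 5] []) (.br 707 .no (.red [.f 571 1 3] 88 136
  [2, 2, 2] [(88, 136, [2, 2, 2])]) (.con 136 [2, 2, 2, 3]) .no .no .no) .no .no (.red [.f 704 5
  1, .f 696 1 3] 104 136 [2, 2] [(104, 136, [2, 2])])) (.red [.f 706 3 1] 105 136 [2, 2, 3] [(105,
  136, [2, 2, 3])]) .no (.br 843 .no (.red [.t 968 4 2, .t 842 4 2] 105 136 [2, 2, 3] [(105, 136,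
  [2, 2, 3]), (121, 105, [1])]) (.br 818 .no (.br 691 (.hor [.f 690 1 5] []) (.con 136 [2, 2, 4,
  4]) .no (.con 136 [2, 2, 4, 4]) .no .no) .no (.red [.f 810 3 1, .f 818 1 3] 119 136 [2, 4]
  [(118, 136, [2, 4, 4]), (119, 136, [2, 4])]) (.red [.t 954 2 4, .f 817 3 5] 119 136 [2, 4]
  [(119, 136, [2, 4])]) .no) .no .no .no) (.red [.f 688 1 3, .f 688 3 1, .f 697 5 3, .t 696 1 3]
  104 136 [2, 2] [(104, 136, [2, 2])]))) (.use 590) (.use 595) .no (.use 676)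

def c27t678 : Tr4 :=
  .br 704 .no (.con 136 [2, 2, 2, 3]) (.hor [.f 704 3 5] []) (.con 136 [2, 2, 2]) .no .no

def c27t679 : Tr4 :=
  .br 568 .no (.red [.f 440 1 3] 72 136 [2, 2, 2, 2] [(72, 136, [2, 2, 2, 2])]) .no (.hor [.f 560
  3 1, .f 568 1 5] [(87, 88, [4])]) .no .no

def c27t680 : Tr4 :=
  .br 576 .no (.use 679) (.br 578 .no (.hor [.f 450 1 5] []) (.con 136 [2, 2, 2, 2, 3]) .no .no
  (.con 136 [2, 2, 2, 2, 3])) (.red [.t 568 3 1] 88 136 [2, 2, 2] [(88, 136, [2, 2, 2])]) (.red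
  [.f 576 5 1, .f 569 1 3] 88 136 [2, 2, 2] [(88, 136, [2, 2, 2])]) .no

def c27t681 : Tr4 :=
  .br 698 .no (.br 697 .no (.hor [.f 569 1 5] []) (.red [.f 824 5 3, .f 697 3 1] 104 136 [2, 2]
  [(104, 136, [2, 2])]) (.con 136 [2, 2, 2, 4]) .no (.con 136 [2, 2, 2, 4])) .no (.hor [.f 690 3
  5] []) .no (.red [.f 824 5 3, .t 833 4 2] 104 136 [2, 2] [(104, 136, [2, 2])])

def c27t682 : Tr4 :=
  .br 842 .no (.br 699 .no (.br 707 .no (.red [.f 571 1 3, .f 699 3 1, .f 706 1 5] 104 136 [2, 2]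
  [(88, 136, [2, 2, 2]), (104, 136, [2, 2])]) (.br 840 .no (.con 136 [2, 2, 3, 3]) (.br 977 (.br
  850 .no (.red [.f 714 1 3] 106 136 [2, 2, 3, 3] [(106, 136, [2, 2, 3, 3])]) (.br 843 .no .no
  (.use 668) .no .no .no) .no (.con 136 [2, 2, 3, 3, 1]) (.red [.t 969 2 3, .f 840 3 5] 122 136
  [2, 3, 3] [(122, 136, [2, 3, 3])])) (.red [.f 841 1 3, .f 840 3 5] 122 136 [2, 3, 3] [(122, 136,
  [2, 3, 3])]) (.use 624) .no .no (.red [.t 840 3 1, .f 969 3 5] 122 136 [2, 3, 3] [(122, 136, [2,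
  3, 3])])) .no .no .no) .no .no .no) (.red [.f 699 3 1, .f 706 1 5] 104 136 [2, 2] [(104, 136,
  [2, 2])]) (.use 681) .no (.red [.f 706 1 3, .f 706 3 1, .t 834 2 4] 104 136 [2, 2] [(104, 136,
  [2, 2])])) (.red [.f 824 5 3, .f 842 3 1] 122 136 [2, 3, 3] [(122, 136, [2, 3, 3])]) .no (.use
  671) .no

def c27t683 : Tr4 :=
  .br 705 .no (.con 136 [2, 2, 2]) (.con 136 [2, 2, 2]) (.hor [.f 697 3 5] []) .no (.con 136 [2,
  2, 2])

def c27t684 : Tr4 :=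
  .br 706 .no (.br 705 .no (.hor [.f 577 1 5] []) (.con 136 [2, 2, 2, 3]) .no .no (.con 136 [2, 2,
  2, 3])) (.hor [.f 706 3 5] []) .no .no (.red [.f 824 5 3, .f 697 5 3, .f 697 3 1] 104 136 [2, 2]
  [(104, 136, [2, 2])])

def c27t685 : Tr4 :=
  .br 705 .no (.hor [.f 577 1 5] []) (.br 704 .no (.con 136 [2, 2, 2, 3]) (.hor [.f 704 3 5] [])
  (.con 136 [2, 2, 2]) .no .no) (.red [.f 824 5 3, .f 697 3 1] 104 136 [2, 2] [(104, 136, [2,
  2])]) .no (.br 714 .no (.red [.f 578 1 3] 89 136 [2, 2, 2, 3] [(89, 136, [2, 2, 2, 3])]) (.br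
  707 .no (.hor [.f 578 1 5] []) (.con 136 [2, 2, 2, 3]) .no .no .no) .no (.use 558) (.red [.f 704
  5 1, .t 833 2 3] 105 136 [2, 2, 3] [(105, 136, [2, 2, 3])]))

def c27t686 : Tr4 :=
  .br 691 (.hor [.f 690 1 5] []) (.con 136 [2, 2, 4, 4]) .no (.con 136 [2, 2, 4, 4]) .no .no

def c27t687 : Tr4 :=
  .br 817 .no (.hor [.f 689 1 5] []) .no (.br 699 .no (.br 691 (.hor [.f 690 1 5] []) (.con 136
  [2, 2, 4, 4]) .no (.con 136 [2, 2, 4, 4]) .no .no) (.red [.f 699 3 1] 104 136 [2, 2] [(104, 136,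
  [2, 2])]) (.con 136 [2, 2, 4, 4]) .no (.use 686)) .no .no

def c27t688 : Tr4 :=
  .br 705 .no (.con 136 [2, 3, 2, 4, 2]) (.con 136 [2, 3, 2, 4, 2]) (.hor [.f 697 3 5] []) .no
  (.con 136 [2, 3, 2, 2, 4])

def c27l19 : List Tr4 :=
  [c27t661, c27t662, c27t663, c27t664, c27t665, c27t666, c27t667, c27t668, c27t669, c27t670,
  c27t671, c27t672, c27t673, c27t674, c27t675, c27t676, c27t677, c27t678, c27t679, c27t680,
  c27t681, c27t682, c27t683, c27t684, c27t685, c27t686, c27t687, c27t688]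

theorem c27k19 : chkLF ⟨4, 1, 0, true, -8⟩ false 7 c27N 661 c27l19 = true := by decide +kernel

def c27t689 : Tr4 :=
  .br 698 .no (.br 697 .no (.hor [.f 569 1 5] []) .no (.con 136 [2, 2, 2, 4]) .no (.con 136 [2, 2,
  2, 4])) .no (.hor [.f 690 3 5] []) .no (.red [.f 824 5 3, .f 697 5 3, .f 697 3 1] 104 136 [2, 2]
  [(104, 136, [2, 2])])

def c27t690 : Tr4 :=
  .br 570 .no (.red [.f 442 1 3] 72 136 [2, 2, 2, 2] [(72, 136, [2, 2, 2, 2])]) .no (.br 704 .no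
  (.con 136 [2, 2, 2, 2]) (.br 576 .no (.con 136 [2, 2, 2, 2]) (.con 136 [2, 2, 2, 2]) (.hor [.f
  568 3 5] []) .no .no) (.con 136 [2, 2, 2]) .no .no) (.red [.f 570 5 1, .f 571 1 3] 88 136 [2, 2,
  2] [(88, 136, [2, 2, 2])]) .no

def c27t691 : Tr4 :=
  .br 585 (.hor [.f 585 1 5] []) (.con 136 [2, 3, 2, 3, 2, 4, 1, 3, 2, 4, 1, 3, 2, 4, 1, 3, 2, 4,
  1]) (.con 136 [2, 3, 2, 3, 2, 4, 1, 3, 2, 4, 1, 3, 2, 4, 1, 3, 2, 4, 1]) .no .no (.con 136 [2,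
  3, 2, 3, 2, 4, 1, 3, 2, 4, 1, 3, 2, 4, 1, 3, 2, 4, 1])

def c27t692 : Tr4 :=
  .br 1114 (.hor [.f 1113 1 5] []) (.br 979 .no (.br 1232 (.red [.f 1224 1 3, .f 1096 3 1] 170 136
  [3, 3, 1, 1] [(154, 136, [3, 3, 1]), (170, 136, [3, 3, 1, 1])]) .no (.con 136 [3, 3, 3, 1, 3])
  .no .no .no) (.con 136 [3, 3, 3, 3]) .no .no .no) (.use 581) .no (.use 667) .no

def c27t693 : Tr4 :=
  .br 713 .no (.hor [.f 585 1 5] []) (.red [.t 968 4 2, .f 833 3 5, .f 705 5 1, .t 721 4 1, .f 705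
  1 3] 105 136 [2, 2, 3] [(105, 136, [2, 2, 3]), (106, 136, [2, 2, 3, 3]), (121, 105, [1])]) .no
  .no .no

def c27t694 : Tr4 :=
  .br 577 .no (.hor [.f 449 1 5] []) (.red [.t 585 4 1, .f 706 3 1] 105 136 [2, 2, 3] [(89, 136,
  [2, 2, 2, 3]), (105, 136, [2, 2, 3])]) (.use 690) .no (.br 840 .no (.con 136 [2, 2, 3, 2, 4])
  (.br 704 .no .no (.br 849 .no (.use 691) (.br 976 .no .no (.br 985 (.red [.f 977 1 3, .f 976 3
  5] 139 136 [3, 3, 3] [(139, 136, [3, 3, 3])]) .no (.br 1113 (.use 692) .no (.red [.f 985 3 1, .f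
  977 1 3] 139 136 [3, 3, 3] [(139, 136, [3, 3, 3]), (140, 136, [3, 3, 3, 3])]) .no (.br 986 .no
  (.red [.f 1098 1 3, .f 970 3 1, .f 977 1 5, .t 857 4 1, .f 841 1 3] 122 136 [2, 3, 3] [(122,
  136, [2, 3, 3]), (123, 136, [2, 3, 3, 3]), (138, 122, [1]), (154, 153, [3])]) (.hor [.f 985 3 5]
  []) .no (.br 850 .no (.use 693) (.hor [.f 849 3 5] []) .no (.con 136 [2, 3, 3, 3, 1]) .no) .no)
  (.red [.t 976 3 1] 139 136 [3, 3, 3] [(139, 136, [3, 3, 3])])) .no (.use 582) .no) .no .no .no)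
  .no (.red [.t 969 2 3, .f 840 3 5] 122 136 [2, 3, 3] [(122, 136, [2, 3, 3])]) .no) (.con 136 [2,
  2, 2]) .no .no) .no .no .no)

def c27t695 : Tr4 :=
  .br 1232 (.red [.f 1224 1 3, .f 1096 3 1] 170 136 [3, 1, 3, 1] [(154, 136, [3, 1, 3]), (170,
  136, [3, 1, 3, 1])]) .no (.br 1360 (.br 1361 (.hor [.f 1360 1 5] []) .no (.br 1362 (.con 136 [3,
  1, 3, 1, 3, 1]) .no (.hor [.f 1361 3 5] []) .no (.con 136 [3, 1, 3, 1, 3, 1]) .no) .no (.red [.f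
  1353 5 3, .f 1225 3 1, .f 1217 1 3] 170 136 [3, 1, 3, 1] [(169, 136, [3, 1, 1]), (170, 136, [3,
  1, 3, 1])]) .no) .no (.red [.f 1232 3 1, .f 1224 1 3, .f 1096 3 1] 171 136 [3, 1, 3, 1, 3]
  [(154, 136, [3, 1, 3]), (170, 136, [3, 1, 3, 1]), (171, 136, [3, 1, 3, 1, 3])]) .no (.red [.t
  1224 1 3, .t 1088 1 3, .f 1097 1 5] 170 136 [3, 1, 3, 1] [(153, 136, [3, 1]), (170, 136, [3, 1,
  3, 1])]) .no) .no .no .no

def c27t696 : Tr4 :=
  .br 704 .no (.br 577 .no (.hor [.f 449 1 5] []) (.br 714 .no (.red [.t 585 4 1, .f 576 1 5] 89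
  136 [2, 2, 2, 3] [(89, 136, [2, 2, 2, 3])]) (.br 712 (.br 849 .no (.con 136 [2, 2, 3, 3, 2])
  (.br 985 (.red [.f 977 1 3] 139 136 [3, 3, 3] [(139, 136, [3, 3, 3])]) .no (.br 851 (.br 984
  (.br 986 .no (.con 136 [2, 2, 3, 3, 3, 1]) (.hor [.f 985 3 5] []) .no (.con 136 [3, 3, 3, 3])
  .no) (.red [.f 848 1 3, .f 848 3 5] 123 136 [2, 3, 3, 3] [(123, 136, [2, 3, 3, 3])]) (.hor [.f
  984 3 5] []) .no .no .no) (.con 136 [2, 3, 3, 3]) (.con 136 [2, 3, 3, 3]) .no .no (.con 136 [2,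
  3, 3, 3])) .no (.red [.t 1105 2 3] 139 136 [3, 3, 3] [(139, 136, [3, 3, 3])]) (.red [.t 848 1 3]
  123 136 [2, 3, 3, 3] [(123, 136, [2, 3, 3, 3])])) .no (.red [.f 824 5 3, .t 969 2 3] 122 136 [2,
  3, 3] [(122, 136, [2, 3, 3])]) .no) (.con 136 [2, 3, 3, 2, 4]) (.con 136 [2, 3, 3, 2, 2]) .no
  (.con 136 [2, 3, 3, 2, 2]) .no) .no .no (.red [.t 968 4 2, .f 705 5 3, .f 706 3 1] 105 136 [2,
  2, 3] [(105, 136, [2, 2, 3]), (121, 105, [1])])) (.con 136 [2, 2, 2, 2]) .no .no) (.con 136 [2,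
  3, 3, 2, 4]) (.con 136 [2, 2, 2]) .no .no

def c27t697 : Tr4 :=
  .br 979 .no .no (.br 986 .no (.hor [.f 857 1 5] []) (.con 136 [3, 3, 2, 3, 3]) .no .no .no) .no
  .no .no

def c27t698 : Tr4 :=
  .br 577 .no (.hor [.f 449 1 5] []) (.red [.t 585 4 1, .f 706 3 1] 105 136 [2, 2, 3] [(89, 136,
  [2, 2, 2, 3]), (105, 136, [2, 2, 3])]) (.use 690) .no (.br 840 .no (.con 136 [2, 2, 3, 2, 4])
  (.br 704 .no .no (.br 850 .no (.use 693) (.br 979 .no (.br 713 .no (.hor [.f 585 1 5] []) (.con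
  136 [2, 3, 3, 3, 2, 4, 4]) .no .no .no) (.con 136 [2, 3, 3, 3, 3]) .no .no .no) .no (.use 697)
  (.red [.t 969 2 3, .f 840 3 5] 122 136 [2, 3, 3] [(122, 136, [2, 3, 3])])) (.con 136 [2, 2, 2])
  .no .no) .no .no .no)

def c27t699 : Tr4 :=
  .br 713 .no .no (.red [.t 712 1 3] 106 136 [2, 3, 3, 2] [(106, 136, [2, 3, 3, 2])]) .no .no .no

def c27t700 : Tr4 :=
  .br 577 .no (.hor [.f 449 1 5] []) (.br 849 .no (.con 136 [2, 3, 2, 3, 2]) .no .no (.red [.f 824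
  5 3, .t 969 2 3] 122 136 [2, 3, 3] [(122, 136, [2, 3, 3])]) (.use 699)) (.con 136 [2, 3, 2, 2,
  2, 4]) .no (.con 136 [2, 3, 2, 2, 4])

def c27t701 : Tr4 :=
  .br 712 .no (.red [.f 576 1 3, .f 576 3 5] 89 136 [2, 2, 3, 2] [(89, 136, [2, 2, 3, 2])]) (.br
  849 .no (.con 136 [2, 2, 3, 3, 2]) .no .no (.red [.t 969 2 3, .f 840 3 5] 122 136 [2, 3, 3]
  [(122, 136, [2, 3, 3])]) .no) .no (.red [.t 576 1 3] 89 136 [2, 2, 3, 2] [(89, 136, [2, 2, 3,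
  2])]) .no

def c27t702 : Tr4 :=
  .br 577 .no (.hor [.f 449 1 5] []) (.use 701) (.con 136 [2, 2, 2, 2]) .no .no

def c27t703 : Tr4 :=
  .br 1232 (.red [.f 1224 1 3, .f 1096 3 1] 170 136 [3, 3, 1, 1] [(154, 136, [3, 3, 1]), (170,
  136, [3, 3, 1, 1])]) .no (.br 1362 (.br 1235 (.con 136 [3, 3, 1, 3, 1]) .no (.hor [.f 1234 3 5]
  []) .no .no .no) .no (.red [.f 1234 3 1, .t 1233 4 1, .f 1217 1 3] 171 136 [3, 3, 1, 3, 1]
  [(169, 136, [3, 1, 1]), (170, 136, [3, 3, 1, 1]), (171, 136, [3, 3, 1, 3, 1])]) .no (.br 1243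
  (.con 136 [3, 3, 1, 3, 1]) (.con 136 [3, 3, 1, 3, 1]) (.con 136 [3, 3, 1, 3, 1]) (.hor [.f 1234
  3 5] []) .no .no) (.red [.f 1353 5 3, .f 1225 3 1, .f 1217 1 3] 170 136 [3, 3, 1, 1] [(169, 136,
  [3, 1, 1]), (170, 136, [3, 3, 1, 1])])) .no .no .no

def c27t704 : Tr4 :=
  .br 849 .no (.con 136 [2, 3, 2, 3, 2, 4, 1, 3, 2, 4, 1, 3, 2, 4, 1, 3, 2, 4, 1]) .no .no .no .no

def c27t705 : Tr4 :=
  .br 850 .no .no (.use 704) .no (.use 697) (.red [.t 969 2 3, .f 840 3 5] 122 136 [2, 3, 3]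
  [(122, 136, [2, 3, 3])])

def c27t706 : Tr4 :=
  .br 1360 (.br 1344 (.br 1481 (.red [.f 1473 1 3] 201 136 [3, 1, 1, 1, 1] [(201, 136, [3, 1, 1,
  1, 1])]) .no (.con 136 [3, 3, 1, 1, 1, 1]) .no .no (.br 1483 (.hor [.f 1482 1 5] []) .no (.con
  136 [3, 3, 1, 1, 1, 1]) .no .no .no)) .no .no .no .no .no) .no (.red [.f 1232 3 1, .f 1224 1 3,
  .f 1096 3 1] 170 136 [3, 3, 1, 1] [(154, 136, [3, 3, 1]), (170, 136, [3, 3, 1, 1]), (171, 136,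
  [3, 3, 1, 1, 3])]) .no (.red [.t 1224 1 3, .t 1088 1 3, .f 1097 1 5] 170 136 [3, 3, 1, 1] [(153,
  136, [3, 1]), (170, 136, [3, 3, 1, 1])]) .no

def c27t707 : Tr4 :=
  .br 441 .no (.hor [.f 313 1 5] []) (.red [.f 561 1 3, .f 561 3 5, .t 449 4 1] 72 136 [2, 2, 2,
  2] [(72, 136, [2, 2, 2, 2]), (87, 71, [1])]) (.con 136 [2, 2, 2, 2, 2, 4]) .no .no

def c27t708 : Tr4 :=
  .br 571 .no (.br 568 .no (.br 442 .no (.use 707) .no (.red [.f 434 3 1, .f 442 1 5] 71 136 [2,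
  2, 2, 2, 4] [(71, 136, [2, 2, 2, 2, 4])]) .no (.red [.f 561 1 3, .f 561 3 5, .f 441 5 1, .f 442
  1 3] 72 136 [2, 2, 2, 2] [(72, 136, [2, 2, 2, 2]), (87, 71, [1])])) .no (.con 136 [2, 2, 2, 2,
  4]) .no .no) .no (.hor [.f 562 3 5] []) .no .no

def c27t709 : Tr4 :=
  .br 808 .no (.hor [.f 680 1 5] []) .no (.con 136 [2, 4, 4, 2, 4]) .no .no

def c27t710 : Tr4 :=
  .br 442 .no (.use 707) .no (.red [.f 434 3 1, .f 442 1 5] 71 136 [2, 2, 2, 2, 4] [(71, 136, [2,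
  2, 2, 2, 4])]) .no (.red [.f 561 1 3, .f 561 3 5, .f 441 5 1, .f 442 1 3] 72 136 [2, 2, 2, 2]
  [(72, 136, [2, 2, 2, 2]), (87, 71, [1])])

def c27t711 : Tr4 :=
  .br 682 .no (.br 563 .no (.red [.f 435 1 3] 71 136 [2, 2, 2, 4, 2] [(71, 136, [2, 2, 2, 4, 2])])
  .no (.red [.t 554 1 3, .f 681 3 5, .f 689 5 1, .t 688 3 1] 103 136 [2, 2, 4] [(86, 85, [3]),
  (103, 136, [2, 2, 4])]) .no .no) .no (.red [.f 674 3 1, .t 681 3 1] 102 136 [2, 2, 4, 4] [(101,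
  136, [2, 2, 4, 4, 4]), (102, 136, [2, 2, 4, 4])]) (.red [.f 682 5 3, .f 681 3 5, .f 689 5 1, .t
  688 3 1] 103 136 [2, 2, 4] [(103, 136, [2, 2, 4])]) .no

def c27t712 : Tr4 :=
  .br 811 (.con 136 [2, 2, 4, 4, 1, 3]) (.con 136 [2, 2, 4, 4, 1, 3]) (.br 810 .no (.red [.t 810 2
  3] 102 136 [2, 2, 4, 4] [(102, 136, [2, 2, 4, 4])]) .no (.br 568 .no (.br 689 .no (.use 710) .no
  (.use 711) .no .no) .no (.con 136 [2, 2, 2, 2, 4]) .no .no) .no (.red [.f 809 5 3, .f 810 3 5,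
  .t 954 2 4] 119 136 [2, 4] [(119, 136, [2, 4])])) (.con 136 [2, 2, 4, 4, 1, 3]) .no (.con 136
  [2, 2, 4, 4, 1, 3])

def c27t713 : Tr4 :=
  .br 690 .no .no .no (.br 689 .no (.use 708) .no (.hor [.f 681 3 5] []) .no .no) (.br 571 .no
  (.use 712) .no (.hor [.f 562 3 5] []) .no .no) (.red [.f 689 5 1, .t 688 3 1] 103 136 [2, 2, 4]
  [(103, 136, [2, 2, 4])])

def c27t714 : Tr4 :=
  .br 696 .no (.con 136 [2, 2, 2, 4]) .no (.hor [.f 688 3 5] []) .no .no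

def c27t715 : Tr4 :=
  .br 569 .no (.br 571 .no (.con 136 [2, 2, 2, 2, 4]) .no (.hor [.f 562 3 5] []) .no .no) .no
  (.hor [.f 561 3 5] []) .no (.br 571 .no (.con 136 [2, 2, 2, 2, 4]) .no (.hor [.f 562 3 5] [])
  .no .no)

def c27t716 : Tr4 :=
  .br 850 .no .no (.br 697 .no (.br 696 .no (.hor [.f 568 1 5] []) .no (.use 713) .no .no) .no
  (.use 714) .no (.use 715)) .no (.use 697) (.red [.t 969 2 3, .f 840 3 5] 122 136 [2, 3, 3]
  [(122, 136, [2, 3, 3])])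

def c27t717 : Tr4 :=
  .br 689 .no (.hor [.f 561 1 5] []) .no (.br 571 .no (.br 688 .no (.br 691 (.br 561 .no (.br 442
  .no (.br 568 .no (.br 441 .no (.hor [.f 313 1 5] []) (.red [.t 449 4 1, .f 433 1 3] 72 136 [2,
  2, 2, 2] [(71, 136, [2, 2, 2, 2, 4]), (72, 136, [2, 2, 2, 2])]) .no .no .no) .no .no .no .no)
  .no (.red [.t 433 1 3, .f 442 1 5] 71 136 [2, 2, 2, 2, 4] [(71, 136, [2, 2, 2, 2, 4])]) .no
  (.red [.f 441 5 1, .f 433 1 3] 71 136 [2, 2, 2, 2, 4] [(71, 136, [2, 2, 2, 2, 4])])) .no (.hor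
  [.f 553 3 1, .f 560 1 5] [(86, 87, [4])]) .no .no) (.hor [.f 562 1 5] []) .no (.use 578) .no
  .no) .no (.hor [.f 680 3 5] []) .no .no) .no (.red [.t 562 1 3, .f 571 1 3] 88 136 [2, 2, 2]
  [(87, 136, [2, 2, 2, 4]), (88, 136, [2, 2, 2])]) .no .no) .no (.red [.f 688 5 3, .t 689 3 2] 87
  136 [2, 2, 2, 4] [(87, 136, [2, 2, 2, 4])])

def c27t718 : Tr4 :=
  .br 688 .no (.hor [.f 560 1 5] []) .no (.con 136 [2, 2, 4, 2, 4]) .no .no

def c27t719 : Tr4 :=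
  .br 681 .no (.br 561 .no (.br 562 .no (.hor [.f 433 1 5] []) .no (.red [.f 554 3 1, .f 553 1 5]
  86 136 [2, 2, 2, 4, 4] [(86, 136, [2, 2, 2, 4, 4])]) (.br 810 .no .no .no (.hor [.f 801 3 5] [])
  (.red [.f 688 5 3, .t 690 4 1, .f 562 5 1, .t 689 3 2] 87 136 [2, 2, 2, 4] [(87, 136, [2, 2, 2,
  4]), (102, 86, [1])]) .no) .no) .no .no (.red [.f 688 5 3, .f 561 5 3, .f 561 3 1, .f 553 1 3]
  87 136 [2, 2, 2, 4] [(86, 136, [2, 2, 2, 4, 4]), (87, 136, [2, 2, 2, 4])]) (.red [.f 560 5 1, .f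
  553 1 3] 86 136 [2, 2, 2, 4, 4] [(86, 136, [2, 2, 2, 4, 4])])) .no (.br 802 (.hor [.f 673 3 1,
  .f 680 1 5] [(101, 119, [4, 4, 2])]) (.hor [.f 673 3 1, .f 680 1 5] [(101, 119, [4, 4, 2])])
  (.hor [.f 801 3 5] []) (.hor [.f 673 3 1, .f 680 1 5] [(101, 119, [4, 4, 2])]) (.hor [.f 673 3
  1, .f 680 1 5] [(101, 119, [4, 4, 2])]) .no) .no .no

def c27t720 : Tr4 :=
  .br 433 .no (.red [.t 562 2 3, .f 305 1 3, .f 433 3 5, .f 441 5 1, .f 442 1 3] 72 136 [2, 2, 2,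
  2] [(55, 70, [3, 2]), (71, 70, [3]), (72, 136, [2, 2, 2, 2])]) .no (.red [.t 424 1 3, .f 433 1
  5] 70 136 [2, 2, 2, 2, 4, 4] [(70, 136, [2, 2, 2, 2, 4, 4])]) .no (.red [.f 432 5 1, .f 424 1 3]
  70 136 [2, 2, 2, 2, 4, 4] [(70, 136, [2, 2, 2, 2, 4, 4])])

def c27t721 : Tr4 :=
  .br 563 .no (.hor [.f 434 1 5] []) .no (.br 561 .no (.hor [.f 433 1 5] []) .no (.con 136 [2, 2,
  2, 4, 2, 4]) .no (.con 136 [2, 2, 2, 4, 2, 4])) .no .no

def c27t722 : Tr4 :=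
  .br 568 .no (.br 571 .no (.br 442 .no (.br 441 .no (.hor [.f 313 1 5] []) (.red [.t 449 4 1, .f
  440 1 5] 72 136 [2, 2, 2, 2] [(72, 136, [2, 2, 2, 2])]) (.con 136 [2, 2, 2, 2, 2, 4]) .no .no)
  .no (.red [.t 442 4 1] 71 136 [2, 2, 2, 2, 4] [(71, 136, [2, 2, 2, 2, 4])]) .no (.hor [.f 441 5
  1, .f 440 1 5, .f 442 1 5] [])) .no .no .no .no) .no (.con 136 [2, 2, 2, 4, 2]) .no .no

def c27t723 : Tr4 :=
  .br 561 .no (.hor [.f 433 1 5] []) .no (.br 568 .no (.br 571 .no (.use 721) .no (.br 560 .no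
  (.con 136 [2, 2, 2, 2, 4, 4]) .no (.hor [.f 552 3 5] []) .no .no) .no .no) .no (.con 136 [2, 2,
  2, 4, 4, 2]) .no .no) .no (.br 568 .no (.br 571 .no (.use 721) .no (.br 441 .no (.br 681 .no
  (.red [.f 560 5 1, .f 553 1 3] 86 136 [2, 2, 2, 4, 4] [(86, 136, [2, 2, 2, 4, 4])]) .no (.br 680
  .no (.br 553 .no (.br 554 .no (.hor [.f 425 1 5] []) .no (.con 136 [2, 2, 2, 2, 4, 4, 4]) (.con
  136 [2, 2, 2, 4, 4, 4]) .no) .no (.red [.f 545 3 1, .f 552 1 5] 85 136 [2, 2, 2, 4, 4, 4] [(85,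
  136, [2, 2, 2, 4, 4, 4])]) (.red [.f 560 5 1, .t 689 2 4] 86 136 [2, 2, 2, 4, 4] [(86, 136, [2,
  2, 2, 4, 4])]) .no) .no (.hor [.f 672 3 5] []) .no .no) .no (.br 553 .no (.br 554 .no (.hor [.f
  425 1 5] []) .no (.br 442 .no (.hor [.f 313 1 5] []) .no .no (.br 552 .no (.use 720) .no (.con
  136 [2, 2, 2, 2, 4, 4, 4]) .no .no) .no) (.br 552 .no (.hor [.f 424 1 5] []) .no (.con 136 [2,
  2, 2, 2, 4, 4, 4]) .no .no) .no) .no (.br 442 .no (.hor [.f 313 1 5] []) .no .no (.br 552 .no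
  (.use 720) .no (.hor [.f 544 3 5] []) .no .no) .no) (.red [.f 680 5 3, .f 680 3 5, .f 560 5 1,
  .t 689 2 4] 86 136 [2, 2, 2, 4, 4] [(86, 136, [2, 2, 2, 4, 4])]) (.red [.f 680 5 3, .f 552 5 3,
  .f 552 3 1] 86 136 [2, 2, 2, 4, 4] [(86, 136, [2, 2, 2, 4, 4])]))) (.red [.f 560 5 1, .t 440 1
  3] 72 136 [2, 2, 2, 2] [(72, 136, [2, 2, 2, 2])]) (.red [.t 433 3 1, .f 562 3 5, .f 570 5 1, .f
  571 1 3] 88 136 [2, 2, 2] [(71, 55, [1]), (88, 136, [2, 2, 2])]) (.red [.f 441 5 1, .f 442 1 3]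
  72 136 [2, 2, 2, 2] [(72, 136, [2, 2, 2, 2])]) .no) .no .no) .no .no .no .no)

def c27t724 : Tr4 :=
  .br 690 .no (.use 717) .no (.br 689 .no (.use 718) .no (.hor [.f 681 3 5] []) .no (.br 562 .no
  (.br 691 (.br 809 .no (.red [.t 681 1 3, .f 690 1 5, .t 954 2 4] 119 136 [2, 4] [(102, 86, [1]),
  (119, 136, [2, 4])]) .no (.br 808 .no (.use 719) .no (.hor [.f 800 3 5] []) .no .no) (.red [.f
  809 5 3, .f 810 3 1, .f 818 1 3] 119 136 [2, 4] [(118, 136, [2, 4, 4]), (119, 136, [2, 4])])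
  (.use 723)) (.con 136 [2, 2, 2, 4, 4]) .no (.use 578) .no .no) .no (.red [.f 554 3 1] 86 136 [2,
  2, 2, 4, 4] [(86, 136, [2, 2, 2, 4, 4])]) (.use 722) (.red [.f 688 5 3, .f 561 5 3, .f 561 3 1]
  87 136 [2, 2, 2, 4] [(87, 136, [2, 2, 2, 4])]))) (.red [.f 696 5 1, .f 690 5 3, .t 697 1 4] 103
  136 [2, 2, 4] [(103, 136, [2, 2, 4])]) (.red [.f 696 5 1, .f 689 5 1, .f 689 1 3] 103 136 [2, 2,
  4] [(103, 136, [2, 2, 4])])

def c27l20 : List Tr4 :=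
  [c27t689, c27t690, c27t691, c27t692, c27t693, c27t694, c27t695, c27t696, c27t697, c27t698,
  c27t699, c27t700, c27t701, c27t702, c27t703, c27t704, c27t705, c27t706, c27t707, c27t708,
  c27t709, c27t710, c27t711, c27t712, c27t713, c27t714, c27t715, c27t716, c27t717, c27t718,
  c27t719, c27t720, c27t721, c27t722, c27t723, c27t724]

theorem c27k20 : chkLF ⟨4, 1, 0, true, -8⟩ false 7 c27N 689 c27l20 = true := by decide +kernel

end Pool.Agent.FT4D
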