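import Pool.Agent.FT4D.Tab_c27

/-!
# Four levels: decision trees (found by a computer search)
-/

namespace Pool.Agent.FT4D

def c27t725 : Tr4 :=
  .br 689 .no (.br 568 .no (.use 710) .no (.con 136 [2, 2, 2, 2, 4]) .no .no) .no (.use 711) .no
  .no

def c27t726 : Tr4 :=
  .br 979 .no .no (.br 986 .no (.red [.t 968 4 2, .t 1104 4 2, .f 969 3 5, .t 857 4 1] 123 136 [2,
  3, 3, 3] [(121, 122, [4]), (123, 136, [2, 3, 3, 3]), (138, 122, [1])]) (.hor [.f 985 3 5] [])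
  .no .no .no) .no .no .no

def c27t727 : Tr4 :=
  .br 577 .no (.hor [.f 449 1 5] []) (.red [.t 585 4 1, .f 706 3 1] 105 136 [2, 2, 3] [(89, 136,
  [2, 2, 2, 3]), (105, 136, [2, 2, 3])]) (.use 690) .no (.br 840 .no (.con 136 [2, 2, 3, 2, 4])
  (.br 704 .no .no (.br 849 .no (.use 691) (.br 850 .no (.use 693) (.hor [.f 849 3 5] []) .no
  (.use 726) .no) .no (.red [.t 969 2 3, .f 840 3 5] 122 136 [2, 3, 3] [(122, 136, [2, 3, 3])])
  .no) (.con 136 [2, 2, 2]) .no .no) .no .no .no)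

def c27t728 : Tr4 :=
  .br 848 .no (.red [.f 712 1 3] 106 136 [2, 3, 2, 3] [(106, 136, [2, 3, 2, 3])]) (.br 849 .no
  (.con 136 [2, 3, 2, 3, 2]) (.hor [.f 848 3 5] []) .no (.red [.f 824 5 3, .t 969 2 3] 122 136 [2,
  3, 3] [(122, 136, [2, 3, 3])]) .no) .no (.use 699) .no

def c27t729 : Tr4 :=
  .br 577 .no (.hor [.f 449 1 5] []) (.use 728) (.con 136 [2, 3, 2, 2, 2, 4]) .no (.con 136 [2, 3,
  2, 2, 4])

def c27t730 : Tr4 :=
  .br 850 .no .no (.hor [.f 849 3 5] []) .no (.use 726) .no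

def c27t731 : Tr4 :=
  .br 712 .no (.red [.f 576 1 3, .f 576 3 5] 89 136 [2, 2, 3, 2] [(89, 136, [2, 2, 3, 2])]) (.br
  849 .no (.con 136 [2, 2, 3, 3, 2]) (.use 730) .no (.red [.t 969 2 3, .f 840 3 5] 122 136 [2, 3,
  3] [(122, 136, [2, 3, 3])]) .no) .no (.red [.t 576 1 3] 89 136 [2, 2, 3, 2] [(89, 136, [2, 2, 3,
  2])]) .no

def c27t732 : Tr4 :=
  .br 577 .no (.hor [.f 449 1 5] []) (.use 731) (.con 136 [2, 2, 2, 2]) .no .no

def c27t733 : Tr4 :=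
  .br 570 .no (.red [.f 442 1 3] 72 136 [2, 2, 2, 2] [(72, 136, [2, 2, 2, 2])]) .no .no (.red [.f
  696 5 1, .f 570 5 1, .f 571 1 3] 88 136 [2, 2, 2] [(88, 136, [2, 2, 2])]) (.use 717)

def c27t734 : Tr4 :=
  .br 979 .no .no (.br 986 .no (.red [.t 714 3 1, .t 850 2 4, .t 986 2 4] 123 136 [2, 3, 3, 3]
  [(123, 136, [2, 3, 3, 3])]) (.hor [.f 985 3 5] []) .no .no .no) .no .no .no

def c27t735 : Tr4 :=
  .br 849 .no (.con 136 [2, 3, 2, 3, 2, 4, 1]) (.use 730) .no .no .no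

def c27t736 : Tr4 :=
  .br 696 .no (.hor [.f 568 1 5] []) .no (.br 570 .no (.red [.f 442 1 3, .t 578 4 1, .f 569 1 5]
  88 136 [2, 2, 2] [(72, 136, [2, 2, 2, 2]), (88, 136, [2, 2, 2])]) .no (.br 577 .no (.hor [.f 449
  1 5] []) (.use 735) .no .no (.use 713)) (.red [.f 570 5 1, .f 571 1 3] 88 136 [2, 2, 2] [(88,
  136, [2, 2, 2])]) .no) .no .no

def c27t737 : Tr4 :=
  .br 570 .no (.red [.f 442 1 3] 72 136 [2, 2, 2, 2] [(72, 136, [2, 2, 2, 2])]) .no (.use 715)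
  (.red [.f 696 5 1, .f 570 5 1, .f 571 1 3] 88 136 [2, 2, 2] [(88, 136, [2, 2, 2])]) (.use 724)

def c27t738 : Tr4 :=
  .br 713 .no (.con 136 [2, 3, 2, 2, 3]) (.red [.t 712 1 3] 106 136 [2, 3, 2, 3] [(106, 136, [2,
  3, 2, 3])]) .no .no .no

def c27t739 : Tr4 :=
  .br 704 .no (.br 577 .no (.con 136 [2, 2, 2, 2, 3]) (.use 701) (.con 136 [2, 2, 2, 2]) .no .no)
  (.br 979 .no (.br 713 .no (.red [.t 585 1 4, .f 578 1 5, .t 842 4 2, .t 978 4 2] 122 136 [2, 3,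
  3] [(89, 73, [1]), (105, 136, [2, 2, 3]), (122, 136, [2, 3, 3])]) (.con 136 [2, 3, 3, 3, 2, 4,
  4]) .no .no .no) (.con 136 [2, 3, 3, 3, 3]) .no .no .no) (.con 136 [2, 2, 2]) .no .no

def c27t740 : Tr4 :=
  .br 713 .no (.red [.t 585 1 4, .f 578 1 5, .t 842 4 2, .t 978 4 2] 122 136 [3, 3, 2] [(89, 73,
  [1]), (105, 136, [2, 3, 2]), (122, 136, [3, 3, 2])]) .no .no .no .no

def c27t741 : Tr4 :=
  .br 714 .no .no (.br 976 .no (.br 849 .no (.con 136 [2, 3, 3, 2, 2]) (.br 985 (.red [.f 977 1 3]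
  139 136 [3, 3, 3] [(139, 136, [3, 3, 3])]) .no (.use 730) .no (.red [.t 1105 2 3] 139 136 [3, 3,
  3] [(139, 136, [3, 3, 3])]) (.red [.t 848 1 3] 123 136 [2, 3, 3, 3] [(123, 136, [2, 3, 3, 3])]))
  .no (.red [.f 824 5 3, .t 969 2 3] 122 136 [2, 3, 3] [(122, 136, [2, 3, 3])]) .no) (.br 985
  (.red [.f 977 1 3, .f 976 3 5] 139 136 [3, 3, 3] [(139, 136, [3, 3, 3])]) (.br 840 .no (.br 849
  .no (.con 136 [2, 2, 3, 3, 2]) .no .no (.red [.f 824 5 3, .t 969 2 3] 122 136 [2, 3, 3] [(122,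
  136, [2, 3, 3])]) (.use 738)) (.br 850 .no .no (.use 739) .no (.use 697) (.red [.t 969 2 3, .f
  840 3 5] 122 136 [2, 3, 3] [(122, 136, [2, 3, 3])])) .no .no .no) (.br 840 .no (.br 849 .no
  (.con 136 [2, 2, 3, 3, 2]) (.use 730) .no (.red [.f 824 5 3, .t 969 2 3] 122 136 [2, 3, 3]
  [(122, 136, [2, 3, 3])]) (.use 738)) (.br 849 .no (.br 704 .no (.br 577 .no (.con 136 [2, 2, 2,
  2, 3]) (.use 731) (.con 136 [2, 2, 2, 2]) .no .no) (.br 850 .no .no (.br 851 (.use 740) (.con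
  136 [2, 2, 3, 3, 3]) (.hor [.f 850 3 5] []) .no .no .no) .no (.use 734) .no) (.con 136 [2, 2,
  2]) .no .no) (.use 730) .no (.red [.t 969 2 3, .f 840 3 5] 122 136 [2, 3, 3] [(122, 136, [2, 3,
  3])]) .no) .no .no .no) .no (.red [.t 1105 2 3, .f 976 3 5] 139 136 [3, 3, 3] [(139, 136, [3, 3,
  3])]) .no) .no .no .no) .no .no (.red [.t 968 4 2, .f 705 5 3, .f 706 3 1] 105 136 [2, 2, 3]
  [(105, 136, [2, 2, 3]), (121, 105, [1])])

def c27t742 : Tr4 :=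
  .br 699 .no (.use 683) (.hor [.f 698 3 5] []) (.br 705 .no (.con 136 [2, 2, 2]) (.con 136 [2, 2,
  2]) (.hor [.f 697 3 5] []) .no (.con 136 [2, 2, 2])) .no .no

def c27t743 : Tr4 :=
  .br 840 .no (.con 136 [2, 2, 3, 3]) (.br 850 .no (.br 714 .no (.br 706 .no (.red [.f 578 1 3, .f
  706 3 1] 105 136 [2, 2, 3] [(89, 136, [2, 2, 3, 2]), (105, 136, [2, 2, 3])]) .no (.use 742)
  (.use 550) (.br 715 .no (.hor [.f 586 1 5] []) (.red [.f 715 3 1, .f 722 1 5] 106 136 [2, 2, 3,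
  3] [(106, 136, [2, 2, 3, 3])]) (.br 704 .no (.con 136 [2, 2, 2, 3]) (.use 693) (.con 136 [2, 2,
  2]) .no .no) .no .no)) .no (.red [.f 706 3 1, .f 714 1 3] 106 136 [2, 2, 3, 3] [(105, 136, [2,
  2, 3]), (106, 136, [2, 2, 3, 3])]) (.red [.t 850 2 4] 106 136 [2, 2, 3, 3] [(106, 136, [2, 2, 3,
  3])]) (.red [.t 968 4 2, .f 833 3 5, .f 713 5 1, .f 714 1 3] 106 136 [2, 2, 3, 3] [(106, 136,
  [2, 2, 3, 3]), (121, 105, [1])])) (.use 668) .no .no (.red [.t 969 2 3, .f 840 3 5] 122 136 [2,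
  3, 3] [(122, 136, [2, 3, 3])])) .no .no .no

def c27t744 : Tr4 :=
  .br 843 .no (.br 707 .no (.br 706 .no (.hor [.f 578 1 5] []) (.red [.f 706 3 1, .f 714 1 5] 105
  136 [2, 2, 3] [(105, 136, [2, 2, 3])]) (.use 688) .no (.br 699 .no (.red [.f 571 1 3] 88 136 [2,
  2, 2] [(88, 136, [2, 2, 2])]) .no (.use 689) .no (.br 578 .no (.br 976 .no (.use 696) (.br 985
  (.red [.f 977 1 3, .f 976 3 5] 139 136 [3, 3, 3] [(139, 136, [3, 3, 3])]) (.br 714 .no (.use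
  698) (.br 840 .no (.use 700) (.br 704 .no (.use 702) (.br 577 .no (.hor [.f 449 1 5] []) (.use
  705) (.use 690) .no (.br 570 .no (.red [.f 442 1 3] 72 136 [2, 2, 2, 2] [(72, 136, [2, 2, 2,
  2])]) .no (.use 716) (.red [.f 570 5 1, .f 571 1 3] 88 136 [2, 2, 2] [(88, 136, [2, 2, 2])])
  (.br 697 .no .no .no (.use 714) .no (.br 850 .no .no (.use 724) .no (.use 697) (.red [.t 969 2
  3, .f 840 3 5] 122 136 [2, 3, 3] [(122, 136, [2, 3, 3])]))))) (.con 136 [2, 2, 2]) .no .no) .no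
  .no .no) .no .no (.red [.t 968 4 2, .f 705 5 3, .f 706 3 1] 105 136 [2, 2, 3] [(105, 136, [2, 2,
  3]), (121, 105, [1])])) (.br 714 .no (.use 727) (.br 840 .no (.use 729) (.br 704 .no (.use 732)
  (.br 850 .no .no (.br 697 .no (.use 736) .no (.use 714) .no (.br 577 .no (.hor [.f 449 1 5] [])
  (.use 735) (.use 690) .no (.use 737))) .no (.use 734) (.red [.t 969 2 3, .f 840 3 5] 122 136 [2,
  3, 3] [(122, 136, [2, 3, 3])])) (.con 136 [2, 2, 2]) .no .no) .no .no .no) .no .no (.red [.t 968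
  4 2, .f 705 5 3, .f 706 3 1] 105 136 [2, 2, 3] [(105, 136, [2, 2, 3]), (121, 105, [1])])) .no
  (.red [.t 1105 2 3, .f 976 3 5] 139 136 [3, 3, 3] [(139, 136, [3, 3, 3])]) .no) .no .no .no)
  (.use 741) (.red [.t 578 4 1] 88 136 [2, 2, 2] [(88, 136, [2, 2, 2])]) .no (.red [.f 577 5 1, .f
  578 1 5, .f 698 5 3, .f 699 3 1] 104 136 [2, 2] [(104, 136, [2, 2])])))) .no (.red [.f 699 3 1,
  .f 707 1 3] 105 136 [2, 2, 3] [(104, 136, [2, 2]), (105, 136, [2, 2, 3])]) .no (.red [.t 968 4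
  2, .t 842 4 2] 105 136 [2, 2, 3] [(105, 136, [2, 2, 3]), (121, 105, [1])])) (.use 743) .no .no
  .no

def c27t745 : Tr4 :=
  .br 691 (.red [.f 808 1 3, .t 681 1 3, .f 690 1 5, .t 954 2 4] 119 136 [2, 4] [(102, 86, [1]),
  (118, 119, [4]), (119, 136, [2, 4])]) (.con 136 [2, 2, 4, 4, 2]) .no (.con 136 [2, 2, 4, 4, 4])
  .no .no

def c27t746 : Tr4 :=
  .br 850 .no .no (.use 736) .no (.use 734) (.red [.t 969 2 3, .f 840 3 5] 122 136 [2, 3, 3]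
  [(122, 136, [2, 3, 3])])

def c27t747 : Tr4 :=
  .br 850 .no .no (.use 735) .no (.use 734) (.red [.t 969 2 3, .f 840 3 5] 122 136 [2, 3, 3]
  [(122, 136, [2, 3, 3])])

def c27t748 : Tr4 :=
  .br 577 .no (.hor [.f 449 1 5] []) (.use 747) (.use 690) .no (.use 733)

def c27t749 : Tr4 :=
  .br 707 .no (.br 706 .no (.hor [.f 578 1 5] []) (.red [.f 706 3 1, .f 714 1 5] 105 136 [2, 2, 3]
  [(105, 136, [2, 2, 3])]) (.use 688) .no (.br 699 .no (.red [.f 571 1 3] 88 136 [2, 2, 2] [(88,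
  136, [2, 2, 2])]) .no (.use 689) .no (.br 578 .no (.br 809 .no (.br 976 .no (.use 696) (.br 985
  (.red [.f 977 1 3, .f 976 3 5] 139 136 [3, 3, 3] [(139, 136, [3, 3, 3])]) (.br 714 .no (.use
  698) (.br 840 .no (.use 700) (.br 704 .no (.use 702) (.br 577 .no (.hor [.f 449 1 5] []) (.use
  705) (.use 690) .no (.br 570 .no (.red [.f 442 1 3] 72 136 [2, 2, 2, 2] [(72, 136, [2, 2, 2,
  2])]) .no (.use 716) (.red [.f 570 5 1, .f 571 1 3] 88 136 [2, 2, 2] [(88, 136, [2, 2, 2])])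
  (.br 697 .no .no .no (.use 714) .no (.br 690 .no (.use 717) .no (.use 745) (.red [.f 696 5 1, .f
  690 5 3, .t 697 1 4] 103 136 [2, 2, 4] [(103, 136, [2, 2, 4])]) (.red [.f 696 5 1, .f 689 5 1,
  .f 689 1 3] 103 136 [2, 2, 4] [(103, 136, [2, 2, 4])]))))) (.con 136 [2, 2, 2]) .no .no) .no .no
  .no) .no .no (.red [.t 968 4 2, .f 705 5 3, .f 706 3 1] 105 136 [2, 2, 3] [(105, 136, [2, 2,
  3]), (121, 105, [1])])) (.br 714 .no (.use 727) (.br 840 .no (.use 729) (.br 704 .no (.use 732)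
  (.br 697 .no (.use 746) .no (.use 714) .no (.br 690 .no (.use 748) .no (.use 745) (.red [.f 696
  5 1, .f 690 5 3, .t 697 1 4] 103 136 [2, 2, 4] [(103, 136, [2, 2, 4])]) (.red [.f 696 5 1, .f
  689 5 1, .f 689 1 3] 103 136 [2, 2, 4] [(103, 136, [2, 2, 4])]))) (.con 136 [2, 2, 2]) .no .no)
  .no .no .no) .no .no (.red [.t 968 4 2, .f 705 5 3, .f 706 3 1] 105 136 [2, 2, 3] [(105, 136,
  [2, 2, 3]), (121, 105, [1])])) .no (.red [.t 1105 2 3, .f 976 3 5] 139 136 [3, 3, 3] [(139, 136,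
  [3, 3, 3])]) .no) .no .no .no) .no (.hor [.f 808 1 3, .f 801 3 1, .f 808 3 1, .f 808 1 5] [(117,
  136, [2, 4, 4, 4])]) (.red [.f 809 5 3, .f 810 3 1, .f 818 1 3] 119 136 [2, 4] [(118, 136, [2,
  4, 4]), (119, 136, [2, 4])]) .no) (.use 741) (.red [.t 578 4 1] 88 136 [2, 2, 2] [(88, 136, [2,
  2, 2])]) .no (.red [.f 577 5 1, .f 578 1 5, .f 698 5 3, .f 699 3 1] 104 136 [2, 2] [(104, 136,
  [2, 2])])))) .no (.red [.f 699 3 1, .f 707 1 3] 105 136 [2, 2, 3] [(104, 136, [2, 2]), (105,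
  136, [2, 2, 3])]) .no (.red [.t 968 4 2, .t 842 4 2] 105 136 [2, 2, 3] [(105, 136, [2, 2, 3]),
  (121, 105, [1])])

def c27t750 : Tr4 :=
  .br 689 .no (.use 718) .no (.hor [.f 681 3 5] []) .no (.br 562 .no (.br 691 (.br 809 .no (.red
  [.t 681 1 3, .f 690 1 5, .t 954 2 4] 119 136 [2, 4] [(102, 86, [1]), (119, 136, [2, 4])]) .no
  (.br 808 .no (.use 719) .no (.hor [.f 800 3 5] []) .no .no) (.red [.f 809 5 3, .f 810 3 1, .f
  818 1 3] 119 136 [2, 4] [(118, 136, [2, 4, 4]), (119, 136, [2, 4])]) (.use 723)) (.con 136 [2,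
  2, 2, 4, 4]) .no (.use 578) .no .no) .no (.red [.f 554 3 1] 86 136 [2, 2, 2, 4, 4] [(86, 136,
  [2, 2, 2, 4, 4])]) (.use 722) (.red [.f 688 5 3, .f 561 5 3, .f 561 3 1] 87 136 [2, 2, 2, 4]
  [(87, 136, [2, 2, 2, 4])]))

def c27t751 : Tr4 :=
  .br 570 .no (.red [.f 442 1 3] 72 136 [2, 2, 2, 2] [(72, 136, [2, 2, 2, 2])]) .no (.use 715)
  (.red [.f 696 5 1, .f 570 5 1, .f 571 1 3] 88 136 [2, 2, 2] [(88, 136, [2, 2, 2])]) (.use 750)

def c27l21 : List Tr4 :=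
  [c27t725, c27t726, c27t727, c27t728, c27t729, c27t730, c27t731, c27t732, c27t733, c27t734,
  c27t735, c27t736, c27t737, c27t738, c27t739, c27t740, c27t741, c27t742, c27t743, c27t744,
  c27t745, c27t746, c27t747, c27t748, c27t749, c27t750, c27t751]

theorem c27k21 : chkLF ⟨4, 1, 0, true, -8⟩ false 7 c27N 725 c27l21 = true := by decide +kernel

def c27t752 : Tr4 :=
  .br 985 (.red [.f 977 1 3, .f 976 3 5] 139 136 [3, 3, 3] [(139, 136, [3, 3, 3])]) (.br 714 .no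
  (.use 698) (.br 840 .no (.use 700) (.br 704 .no (.use 702) (.br 697 .no (.br 696 .no (.hor [.f
  568 1 5] []) .no (.br 570 .no (.red [.f 442 1 3, .t 578 4 1, .f 569 1 5] 88 136 [2, 2, 2] [(72,
  136, [2, 2, 2, 2]), (88, 136, [2, 2, 2])]) .no (.br 690 .no .no .no (.br 850 .no .no (.br 689
  .no (.br 577 .no (.hor [.f 449 1 5] []) (.use 704) .no .no (.use 708)) .no (.hor [.f 681 3 5]
  []) .no .no) .no (.use 697) (.red [.t 969 2 3, .f 840 3 5] 122 136 [2, 3, 3] [(122, 136, [2, 3,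
  3])])) (.br 850 .no .no (.br 571 .no (.br 577 .no (.hor [.f 449 1 5] []) (.use 704) .no .no
  (.use 712)) .no (.hor [.f 562 3 5] []) .no .no) .no (.use 697) (.red [.t 969 2 3, .f 840 3 5]
  122 136 [2, 3, 3] [(122, 136, [2, 3, 3])])) (.red [.f 689 5 1, .t 688 3 1] 103 136 [2, 2, 4]
  [(103, 136, [2, 2, 4])])) (.red [.f 570 5 1, .f 571 1 3] 88 136 [2, 2, 2] [(88, 136, [2, 2,
  2])]) .no) .no .no) .no (.use 714) .no (.br 690 .no (.br 577 .no (.hor [.f 449 1 5] []) (.use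
  705) (.use 690) .no (.use 733)) .no (.br 577 .no (.hor [.f 449 1 5] []) (.use 705) (.use 690)
  .no (.br 570 .no (.red [.f 442 1 3] 72 136 [2, 2, 2, 2] [(72, 136, [2, 2, 2, 2])]) .no (.use
  716) (.red [.f 696 5 1, .f 570 5 1, .f 571 1 3] 88 136 [2, 2, 2] [(88, 136, [2, 2, 2])]) (.br
  850 .no .no (.use 750) .no (.use 697) (.red [.t 969 2 3, .f 840 3 5] 122 136 [2, 3, 3] [(122,
  136, [2, 3, 3])])))) (.red [.f 696 5 1, .f 690 5 3, .t 697 1 4] 103 136 [2, 2, 4] [(103, 136,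
  [2, 2, 4])]) (.red [.f 696 5 1, .f 689 5 1, .f 689 1 3] 103 136 [2, 2, 4] [(103, 136, [2, 2,
  4])]))) (.con 136 [2, 2, 2]) .no .no) .no .no .no) .no .no (.red [.t 968 4 2, .f 705 5 3, .f 706
  3 1] 105 136 [2, 2, 3] [(105, 136, [2, 2, 3]), (121, 105, [1])])) (.br 714 .no (.use 727) (.br
  840 .no (.use 729) (.br 704 .no (.use 732) (.br 697 .no (.use 746) .no (.use 714) .no (.br 690
  .no (.use 748) .no (.br 577 .no (.hor [.f 449 1 5] []) (.use 747) (.use 690) .no (.br 850 .no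
  .no (.use 751) .no (.use 734) (.red [.t 969 2 3, .f 840 3 5] 122 136 [2, 3, 3] [(122, 136, [2,
  3, 3])]))) (.red [.f 696 5 1, .f 690 5 3, .t 697 1 4] 103 136 [2, 2, 4] [(103, 136, [2, 2, 4])])
  (.red [.f 696 5 1, .f 689 5 1, .f 689 1 3] 103 136 [2, 2, 4] [(103, 136, [2, 2, 4])]))) (.con
  136 [2, 2, 2]) .no .no) .no .no .no) .no .no (.red [.t 968 4 2, .f 705 5 3, .f 706 3 1] 105 136
  [2, 2, 3] [(105, 136, [2, 2, 3]), (121, 105, [1])])) .no (.red [.t 1105 2 3, .f 976 3 5] 139 136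
  [3, 3, 3] [(139, 136, [3, 3, 3])]) .no

def c27t753 : Tr4 :=
  .br 1105 .no (.br 937 (.red [.f 937 1 3, .f 937 3 5, .f 817 5 1, .f 818 1 3] 119 136 [2, 4]
  [(119, 136, [2, 4]), (134, 118, [1])]) (.red [.t 937 2 3, .f 818 1 3] 119 136 [2, 4] [(118, 136,
  [2, 4, 4]), (119, 136, [2, 4])]) .no (.br 936 (.use 744) (.br 843 .no (.use 749) (.use 743) .no
  .no .no) .no (.hor [.f 928 3 5] []) .no .no) .no (.br 843 .no (.br 707 .no (.br 706 .no (.hor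
  [.f 578 1 5] []) (.red [.f 706 3 1, .f 714 1 5] 105 136 [2, 2, 3] [(105, 136, [2, 2, 3])]) (.use
  688) .no (.br 699 .no (.red [.f 571 1 3] 88 136 [2, 2, 2] [(88, 136, [2, 2, 2])]) .no (.use 689)
  .no (.br 578 .no (.br 976 .no (.use 696) (.use 752) .no .no .no) (.use 741) (.red [.t 578 4 1]
  88 136 [2, 2, 2] [(88, 136, [2, 2, 2])]) .no (.red [.f 577 5 1, .f 578 1 5, .f 698 5 3, .f 699 3
  1] 104 136 [2, 2] [(104, 136, [2, 2])])))) .no (.red [.f 699 3 1, .f 707 1 3] 105 136 [2, 2, 3]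
  [(104, 136, [2, 2]), (105, 136, [2, 2, 3])]) .no (.red [.t 968 4 2, .t 842 4 2] 105 136 [2, 2,
  3] [(105, 136, [2, 2, 3]), (121, 105, [1])])) (.use 743) .no .no .no)) (.hor [.f 1105 3 5] [])
  .no .no .no

def c27t754 : Tr4 :=
  .br 818 .no (.use 687) .no (.red [.f 810 3 1, .f 818 1 3] 119 136 [2, 4] [(118, 136, [2, 4, 4]),
  (119, 136, [2, 4])]) (.red [.f 824 5 3, .t 954 2 4] 119 136 [2, 4] [(119, 136, [2, 4])]) (.use
  753)

def c27t755 : Tr4 :=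
  .br 818 .no (.con 136 [2, 4, 4, 2]) .no (.hor [.f 809 3 5] []) (.con 136 [2, 4, 2, 4]) .no

def c27t756 : Tr4 :=
  .br 977 (.use 743) (.red [.f 841 1 3] 122 136 [2, 3, 3] [(122, 136, [2, 3, 3])]) (.use 549) .no
  .no (.use 665)

def c27t757 : Tr4 :=
  .br 843 .no (.red [.t 968 4 2, .t 842 4 2] 105 136 [2, 2, 3] [(105, 136, [2, 2, 3]), (121, 105,
  [1])]) (.use 756) .no .no .no

def c27t758 : Tr4 :=
  .br 707 .no (.red [.f 571 1 3] 88 136 [2, 2, 2] [(88, 136, [2, 2, 2])]) (.use 684) .no .no (.use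
  757)

def c27t759 : Tr4 :=
  .br 698 .no (.hor [.f 570 1 5] []) (.use 683) (.br 697 .no (.br 707 .no (.red [.f 571 1 3] 88
  136 [2, 2, 2] [(88, 136, [2, 2, 2])]) (.br 705 .no (.use 518) (.use 678) .no (.br 696 .no (.hor
  [.f 568 1 5] []) (.con 136 [2, 2, 2]) .no .no .no) (.br 706 .no (.con 136 [2, 2, 2, 3]) (.red
  [.f 704 5 1, .f 706 3 1] 105 136 [2, 2, 3] [(105, 136, [2, 2, 3])]) .no .no .no)) .no .no (.use
  757)) (.red [.f 824 5 3, .f 697 3 1, .t 697 1 4] 104 136 [2, 2] [(103, 136, [2, 2, 4]), (104,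
  136, [2, 2])]) (.hor [.f 689 3 5] []) .no (.use 517)) .no (.use 758)

def c27t760 : Tr4 :=
  .br 696 .no (.hor [.f 568 1 5] []) (.con 136 [2, 2, 2]) .no .no .no

def c27t761 : Tr4 :=
  .br 689 .no (.hor [.f 561 1 5] []) .no (.red [.f 696 5 1, .t 688 1 4] 102 136 [2, 2, 4, 4]
  [(102, 136, [2, 2, 4, 4])]) .no .no

def c27t762 : Tr4 :=
  .br 689 .no (.con 136 [2, 2, 2, 4, 4]) .no (.hor [.f 681 3 5] []) .no .no

def c27t763 : Tr4 :=
  .br 697 .no (.hor [.f 568 1 5] []) .no (.con 136 [2, 2, 2, 4]) .no .no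

def c27t764 : Tr4 :=
  .br 818 .no (.br 706 .no (.br 699 .no (.br 707 .no (.red [.f 571 1 3, .f 699 3 1] 104 136 [2, 2]
  [(88, 136, [2, 2, 2]), (104, 136, [2, 2])]) (.br 698 .no (.hor [.f 570 1 5] []) .no .no .no
  (.use 684)) .no .no .no) (.red [.f 699 3 1] 104 136 [2, 2] [(104, 136, [2, 2])]) (.con 136 [2,
  2, 4, 4]) .no (.use 685)) (.red [.f 706 3 1] 105 136 [2, 2, 3] [(105, 136, [2, 2, 3])]) (.use
  742) (.use 757) (.br 699 .no (.br 698 .no (.hor [.f 570 1 5] []) .no .no .no (.use 758)) (.red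
  [.f 699 3 1] 104 136 [2, 2] [(104, 136, [2, 2])]) (.con 136 [2, 2, 4, 4]) .no (.br 691 (.hor [.f
  690 1 5] []) (.con 136 [2, 2, 4, 4]) .no (.con 136 [2, 2, 4, 4]) .no .no))) .no (.red [.f 816 5
  3, .f 810 3 1] 118 136 [2, 4, 4] [(118, 136, [2, 4, 4])]) (.red [.f 824 5 3, .t 954 2 4] 119 136
  [2, 4] [(119, 136, [2, 4])]) .no

def c27t765 : Tr4 :=
  .br 816 .no (.br 817 .no (.hor [.f 688 1 5] []) .no (.use 755) (.br 699 .no (.use 759) (.red [.f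
  699 3 1] 104 136 [2, 2] [(104, 136, [2, 2])]) (.con 136 [2, 2, 4, 4]) .no (.br 706 .no (.use
  685) (.red [.f 706 3 1] 105 136 [2, 2, 3] [(105, 136, [2, 2, 3])]) .no (.use 757) (.br 937 (.red
  [.f 937 1 3, .f 937 3 5, .f 817 5 1, .f 818 1 3] 119 136 [2, 4] [(119, 136, [2, 4]), (134, 118,
  [1])]) (.red [.t 937 2 3, .f 818 1 3] 119 136 [2, 4] [(118, 136, [2, 4, 4]), (119, 136, [2,
  4])]) .no (.br 697 .no (.use 760) .no (.con 136 [2, 2, 4, 2]) .no (.br 690 .no (.br 808 .no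
  (.red [.f 680 1 3] 102 136 [2, 2, 4, 4] [(102, 136, [2, 2, 4, 4])]) .no (.br 809 .no (.br 682
  (.hor [.f 681 1 5] []) (.con 136 [2, 2, 4, 4, 4]) .no (.con 136 [2, 2, 4, 4, 4]) (.con 136 [2,
  2, 4, 4, 4]) .no) .no (.hor [.f 800 3 5] []) (.red [.f 809 5 3, .f 810 3 1, .f 818 1 3] 119 136
  [2, 4] [(118, 136, [2, 4, 4]), (119, 136, [2, 4])]) .no) (.use 761) .no) .no (.use 762) (.con
  136 [2, 2, 4, 4]) (.red [.f 696 5 1, .f 689 5 1, .f 689 1 3] 103 136 [2, 2, 4] [(103, 136, [2,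
  2, 4])]))) .no .no))) .no) .no (.use 1) (.use 764) .no

def c27t766 : Tr4 :=
  .br 1227 (.red [.f 1219 1 3] 169 136 [3, 1, 1] [(169, 136, [3, 1, 1])]) .no (.con 136 [3, 1, 3,
  1]) .no .no .no

def c27t767 : Tr4 :=
  .br 850 .no .no (.hor [.f 849 3 5] []) .no .no .no

def c27t768 : Tr4 :=
  .br 849 .no (.con 136 [2, 3, 2, 3, 2]) (.br 851 (.use 767) (.con 136 [2, 3, 3, 3]) (.con 136 [2,
  3, 3, 3]) .no .no (.con 136 [2, 3, 3, 3])) .no (.red [.f 824 5 3, .t 969 2 3] 122 136 [2, 3, 3]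
  [(122, 136, [2, 3, 3])]) .no

def c27t769 : Tr4 :=
  .br 849 .no (.con 136 [2, 3, 2, 3, 2, 4, 1, 3, 2, 4, 1, 3, 2, 4, 1]) .no .no (.hor [.t 969 2 3,
  .f 840 3 5] [(122, 136, [2, 3, 3])]) .no

def c27t770 : Tr4 :=
  .br 712 .no (.con 136 [2, 2, 3, 3, 2, 4]) (.con 136 [2, 2, 3, 3, 2]) .no (.red [.t 576 1 3] 89
  136 [2, 2, 3, 2] [(89, 136, [2, 2, 3, 2])]) .no

def c27t771 : Tr4 :=
  .br 704 .no (.use 770) (.con 136 [2, 2, 3, 3, 2, 4, 1]) .no .no .no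

def c27t772 : Tr4 :=
  .br 979 .no (.use 767) (.br 986 .no (.red [.f 1098 1 3, .f 970 3 1, .f 977 1 5, .t 857 4 1, .f
  841 1 3] 123 136 [2, 3, 3, 3] [(122, 136, [2, 3, 3]), (123, 136, [2, 3, 3, 3]), (138, 122, [1]),
  (154, 153, [3])]) (.hor [.f 985 3 5] []) .no .no .no) .no .no .no

def c27t773 : Tr4 :=
  .br 840 .no (.br 976 .no (.use 768) (.use 728) .no .no .no) (.br 976 .no .no (.br 985 (.red [.f
  977 1 3, .f 976 3 5] 139 136 [3, 3, 3] [(139, 136, [3, 3, 3])]) (.br 704 .no (.use 701) (.use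
  769) .no .no .no) (.br 1113 (.br 849 .no (.use 771) (.use 692) .no (.red [.t 969 2 3, .f 840 3
  5] 122 136 [2, 3, 3] [(122, 136, [2, 3, 3])]) .no) .no (.red [.f 985 3 1, .f 977 1 3] 139 136
  [3, 3, 3] [(139, 136, [3, 3, 3]), (140, 136, [3, 3, 3, 3])]) .no (.br 849 .no (.use 771) (.use
  772) .no (.red [.t 969 2 3, .f 840 3 5] 122 136 [2, 3, 3] [(122, 136, [2, 3, 3])]) .no) (.red
  [.t 976 3 1] 139 136 [3, 3, 3] [(139, 136, [3, 3, 3])])) .no (.use 582) .no) .no .no .no) .no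
  .no .no

def c27t774 : Tr4 :=
  .br 689 .no (.br 577 .no (.hor [.f 449 1 5] []) (.use 773) .no .no (.use 708)) .no (.hor [.f 681
  3 5] []) .no .no

def c27t775 : Tr4 :=
  .br 976 .no (.br 849 .no (.br 714 .no (.br 577 .no (.hor [.f 449 1 5] []) (.con 136 [2, 3, 3, 2,
  2, 4]) .no .no (.con 136 [2, 3, 3, 2, 2, 4, 4])) (.con 136 [2, 3, 3, 2, 2]) .no .no (.red [.t
  968 4 2, .f 705 5 3, .f 706 3 1] 105 136 [2, 2, 3] [(105, 136, [2, 2, 3]), (121, 105, [1])]))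
  (.red [.f 849 3 1, .f 841 1 3] 123 136 [2, 3, 3, 3] [(122, 136, [2, 3, 3]), (123, 136, [2, 3, 3,
  3])]) .no (.red [.f 824 5 3, .t 969 2 3] 122 136 [2, 3, 3] [(122, 136, [2, 3, 3])]) .no) (.hor
  [.f 976 3 5] []) .no .no .no

def c27t776 : Tr4 :=
  .br 840 .no (.br 848 .no (.red [.f 712 1 3] 106 136 [2, 2, 3, 3] [(106, 136, [2, 2, 3, 3])])
  (.br 714 .no (.br 577 .no (.hor [.f 449 1 5] []) (.red [.t 585 4 1, .f 569 1 3] 89 136 [2, 2, 3,
  2] [(88, 136, [2, 2, 2]), (89, 136, [2, 2, 3, 2])]) .no .no (.con 136 [2, 2, 3, 2, 4])) (.use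
  562) .no .no (.red [.t 968 4 2, .f 705 5 3, .f 706 3 1] 105 136 [2, 2, 3] [(105, 136, [2, 2,
  3]), (121, 105, [1])])) .no (.red [.f 848 5 1, .f 841 1 3] 122 136 [2, 3, 3] [(122, 136, [2, 3,
  3])]) .no) (.red [.t 840 3 1, .f 969 3 5] 122 136 [2, 3, 3] [(122, 136, [2, 3, 3])]) .no .no .no

def c27t777 : Tr4 :=
  .br 811 (.con 136 [2, 2, 4, 4, 1, 3]) (.con 136 [2, 2, 4, 4, 4]) (.br 682 (.hor [.f 681 1 5] [])
  (.con 136 [2, 2, 4, 4, 4]) .no (.con 136 [2, 2, 4, 4, 4]) (.con 136 [2, 2, 4, 4, 4]) .no) (.con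
  136 [2, 2, 4, 4, 1, 4]) .no (.con 136 [2, 2, 4, 4, 4])

def c27l22 : List Tr4 :=
  [c27t752, c27t753, c27t754, c27t755, c27t756, c27t757, c27t758, c27t759, c27t760, c27t761,
  c27t762, c27t763, c27t764, c27t765, c27t766, c27t767, c27t768, c27t769, c27t770, c27t771,
  c27t772, c27t773, c27t774, c27t775, c27t776, c27t777]

theorem c27k22 : chkLF ⟨4, 1, 0, true, -8⟩ false 7 c27N 752 c27l22 = true := by decide +kernel

def c27t778 : Tr4 :=
  .br 937 (.red [.f 937 1 3, .f 937 3 5, .f 817 5 1, .f 818 1 3] 119 136 [2, 4] [(119, 136, [2,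
  4]), (134, 118, [1])]) (.red [.t 937 2 3, .f 818 1 3] 119 136 [2, 4] [(118, 136, [2, 4, 4]),
  (119, 136, [2, 4])]) .no (.br 936 (.br 1105 .no (.br 714 .no (.use 694) (.br 690 .no .no .no
  (.use 774) (.br 577 .no (.hor [.f 449 1 5] []) (.use 773) .no .no (.br 571 .no (.br 811 (.con
  136 [2, 2, 4, 4, 1, 3]) (.con 136 [2, 2, 4, 4, 1, 3]) (.br 810 .no (.red [.t 810 2 3] 102 136
  [2, 2, 4, 4] [(102, 136, [2, 2, 4, 4])]) .no (.br 809 .no (.use 709) .no (.hor [.f 801 3 5] [])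
  .no (.use 725)) .no (.red [.f 809 5 3, .f 810 3 5, .t 954 2 4] 119 136 [2, 4] [(119, 136, [2,
  4])])) (.con 136 [2, 2, 4, 4, 1, 3]) .no (.con 136 [2, 2, 4, 4, 1, 3])) .no (.hor [.f 562 3 5]
  []) .no .no)) (.red [.f 689 5 1, .t 688 3 1] 103 136 [2, 2, 4] [(103, 136, [2, 2, 4])])) .no .no
  (.red [.t 968 4 2, .f 705 5 3, .f 706 3 1] 105 136 [2, 2, 3] [(105, 136, [2, 2, 3]), (121, 105,
  [1])])) (.br 977 .no (.red [.f 841 1 3] 122 136 [2, 3, 3] [(122, 136, [2, 3, 3])]) (.use 775)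
  .no .no (.use 776)) .no .no .no) (.br 977 (.br 714 .no (.use 694) (.br 690 .no .no .no (.use
  774) (.br 809 .no (.use 777) .no (.hor [.f 808 1 3, .f 801 3 1, .f 808 3 1, .f 808 1 5] [(117,
  136, [2, 4, 4, 4])]) (.red [.f 809 5 3, .f 810 3 1, .f 818 1 3] 119 136 [2, 4] [(118, 136, [2,
  4, 4]), (119, 136, [2, 4])]) .no) (.red [.f 689 5 1, .t 688 3 1] 103 136 [2, 2, 4] [(103, 136,
  [2, 2, 4])])) .no .no (.red [.t 968 4 2, .f 705 5 3, .f 706 3 1] 105 136 [2, 2, 3] [(105, 136,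
  [2, 2, 3]), (121, 105, [1])])) (.red [.f 841 1 3] 122 136 [2, 3, 3] [(122, 136, [2, 3, 3])])
  (.use 775) .no .no (.use 776)) .no (.hor [.f 928 3 5] []) .no .no) .no (.br 977 (.br 714 .no
  (.use 694) (.br 690 .no .no .no (.use 774) (.br 571 .no (.br 811 (.con 136 [2, 2, 4, 4, 1, 3])
  (.con 136 [2, 2, 4, 4, 1, 3]) (.br 577 .no (.hor [.f 449 1 5] []) (.use 773) .no .no (.br 810
  .no (.red [.t 810 2 3] 102 136 [2, 2, 4, 4] [(102, 136, [2, 2, 4, 4])]) .no (.br 809 .no (.br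
  808 .no (.hor [.f 680 1 5] []) .no (.con 136 [2, 2, 4, 4, 4]) .no .no) .no (.hor [.f 801 3 5]
  []) .no (.use 725)) .no (.red [.f 809 5 3, .f 810 3 5, .t 954 2 4] 119 136 [2, 4] [(119, 136,
  [2, 4])]))) (.con 136 [2, 2, 4, 4, 1, 3]) .no (.con 136 [2, 2, 4, 4, 1, 3])) .no (.hor [.f 562 3
  5] []) .no .no) (.red [.f 689 5 1, .t 688 3 1] 103 136 [2, 2, 4] [(103, 136, [2, 2, 4])])) .no
  .no (.red [.t 968 4 2, .f 705 5 3, .f 706 3 1] 105 136 [2, 2, 3] [(105, 136, [2, 2, 3]), (121,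
  105, [1])])) (.red [.f 841 1 3] 122 136 [2, 3, 3] [(122, 136, [2, 3, 3])]) (.use 775) .no .no
  (.use 776))

def c27t779 : Tr4 :=
  .br 976 .no (.use 768) (.br 848 .no (.red [.f 712 1 3] 106 136 [2, 2, 3, 3] [(106, 136, [2, 2,
  3, 3])]) (.br 849 .no (.con 136 [2, 2, 3, 3, 2]) (.hor [.f 848 3 5] []) .no (.red [.f 824 5 3,
  .t 969 2 3] 122 136 [2, 3, 3] [(122, 136, [2, 3, 3])]) .no) .no (.use 738) .no) .no .no .no

def c27t780 : Tr4 :=
  .br 979 .no .no (.br 986 (.con 136 [3, 3, 3, 3]) (.hor [.f 857 1 5] []) (.con 136 [3, 3, 3, 3,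
  2]) .no .no .no) .no .no .no

def c27t781 : Tr4 :=
  .br 577 .no (.con 136 [2, 2, 2, 2, 3]) (.use 770) .no .no .no

def c27t782 : Tr4 :=
  .br 848 .no (.red [.f 712 1 3] 106 136 [2, 3, 2, 3] [(106, 136, [2, 3, 2, 3])]) (.use 562) .no
  (.use 738) .no

def c27t783 : Tr4 :=
  .br 840 .no (.use 782) (.red [.t 840 3 1, .f 969 3 5] 122 136 [2, 3, 3] [(122, 136, [2, 3, 3])])
  .no .no .no

def c27t784 : Tr4 :=
  .br 714 .no .no (.br 977 (.br 840 .no (.use 779) (.br 976 .no .no (.br 985 (.red [.f 977 1 3, .f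
  976 3 5] 139 136 [3, 3, 3] [(139, 136, [3, 3, 3])]) (.br 850 .no .no (.use 739) .no (.use 780)
  (.red [.t 969 2 3, .f 840 3 5] 122 136 [2, 3, 3] [(122, 136, [2, 3, 3])])) (.br 1113 (.br 849
  .no (.br 1114 (.hor [.f 1113 1 5] []) (.br 851 (.br 704 .no (.use 781) (.use 740) .no .no .no)
  (.con 136 [2, 2, 3, 3, 3]) (.con 136 [2, 3, 3, 3, 3, 1]) .no .no (.con 136 [2, 3, 3, 3, 3, 1]))
  (.use 581) .no (.use 667) .no) (.use 692) .no (.red [.t 969 2 3, .f 840 3 5] 122 136 [2, 3, 3]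
  [(122, 136, [2, 3, 3])]) .no) .no (.red [.f 985 3 1, .f 977 1 3] 139 136 [3, 3, 3] [(139, 136,
  [3, 3, 3]), (140, 136, [3, 3, 3, 3])]) .no (.br 849 .no (.br 704 .no (.use 781) (.br 979 .no
  (.use 740) (.br 851 .no (.con 136 [2, 2, 3, 3, 3]) (.red [.f 851 3 1] 123 136 [2, 3, 3, 3]
  [(123, 136, [2, 3, 3, 3])]) .no .no (.br 986 .no (.red [.t 714 3 1, .t 850 2 4, .t 986 2 4] 123
  136 [2, 3, 3, 3] [(123, 136, [2, 3, 3, 3])]) (.hor [.f 985 3 5] []) .no .no .no)) .no .no .no)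
  .no .no .no) (.use 772) .no (.red [.t 969 2 3, .f 840 3 5] 122 136 [2, 3, 3] [(122, 136, [2, 3,
  3])]) .no) (.red [.t 976 3 1] 139 136 [3, 3, 3] [(139, 136, [3, 3, 3])])) .no (.use 582) .no)
  .no .no .no) .no .no .no) (.red [.f 841 1 3] 122 136 [2, 3, 3] [(122, 136, [2, 3, 3])]) (.use
  542) .no .no (.use 783)) .no .no (.red [.t 968 4 2, .f 705 5 3, .f 706 3 1] 105 136 [2, 2, 3]
  [(105, 136, [2, 2, 3]), (121, 105, [1])])

def c27t785 : Tr4 :=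
  .br 704 .no (.use 701) (.use 769) .no .no .no

def c27t786 : Tr4 :=
  .br 704 .no (.use 770) (.con 136 [2, 2, 3, 3, 2, 4, 1]) .no .no .no

def c27t787 : Tr4 :=
  .br 1113 (.br 849 .no (.use 786) (.use 692) .no (.red [.t 969 2 3, .f 840 3 5] 122 136 [2, 3, 3]
  [(122, 136, [2, 3, 3])]) .no) .no (.red [.f 985 3 1, .f 977 1 3] 139 136 [3, 3, 3] [(139, 136,
  [3, 3, 3]), (140, 136, [3, 3, 3, 3])]) .no (.br 849 .no (.use 786) (.use 772) .no (.red [.t 969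
  2 3, .f 840 3 5] 122 136 [2, 3, 3] [(122, 136, [2, 3, 3])]) .no) (.red [.t 976 3 1] 139 136 [3,
  3, 3] [(139, 136, [3, 3, 3])])

def c27t788 : Tr4 :=
  .br 976 .no .no (.br 985 (.red [.f 977 1 3, .f 976 3 5] 139 136 [3, 3, 3] [(139, 136, [3, 3,
  3])]) (.use 785) (.use 787) .no (.use 582) .no) .no .no .no

def c27t789 : Tr4 :=
  .br 976 .no .no (.br 985 (.red [.f 977 1 3, .f 976 3 5] 139 136 [3, 3, 3] [(139, 136, [3, 3,
  3])]) (.use 780) (.br 979 .no .no (.br 986 (.con 136 [3, 3, 3, 3]) (.red [.t 714 3 1, .t 850 2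
  4, .t 986 2 4] 123 136 [2, 3, 3, 3] [(123, 136, [2, 3, 3, 3])]) (.hor [.f 985 3 5] []) .no .no
  .no) .no .no .no) .no (.use 582) .no) .no .no .no

def c27t790 : Tr4 :=
  .br 976 .no (.br 849 .no (.br 714 .no (.br 577 .no (.hor [.f 449 1 5] []) (.con 136 [2, 3, 3, 2,
  2, 4]) (.con 136 [2, 3, 3, 2, 2, 4, 2, 4]) .no (.con 136 [2, 3, 3, 2, 2, 4, 4])) (.con 136 [2,
  3, 3, 2, 2]) .no .no (.red [.t 968 4 2, .f 705 5 3, .f 706 3 1] 105 136 [2, 2, 3] [(105, 136,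
  [2, 2, 3]), (121, 105, [1])])) (.red [.f 849 3 1, .f 841 1 3] 123 136 [2, 3, 3, 3] [(122, 136,
  [2, 3, 3]), (123, 136, [2, 3, 3, 3])]) .no (.red [.f 824 5 3, .t 969 2 3] 122 136 [2, 3, 3]
  [(122, 136, [2, 3, 3])]) .no) (.hor [.f 976 3 5] []) .no .no .no

def c27t791 : Tr4 :=
  .br 840 .no (.br 714 .no (.br 577 .no (.hor [.f 449 1 5] []) (.red [.t 585 4 1] 89 136 [2, 2, 3,
  2] [(89, 136, [2, 2, 3, 2])]) (.con 136 [2, 2, 3, 2, 2, 4]) .no (.con 136 [2, 2, 3, 2, 4]))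
  (.use 782) .no .no (.red [.t 968 4 2, .f 705 5 3, .f 706 3 1] 105 136 [2, 2, 3] [(105, 136, [2,
  2, 3]), (121, 105, [1])])) (.red [.t 840 3 1, .f 969 3 5] 122 136 [2, 3, 3] [(122, 136, [2, 3,
  3])]) .no .no .no

def c27t792 : Tr4 :=
  .br 714 .no .no (.br 977 (.br 840 .no (.use 779) (.br 850 .no .no (.br 851 (.br 976 .no .no (.br
  985 (.red [.f 977 1 3, .f 976 3 5] 139 136 [3, 3, 3] [(139, 136, [3, 3, 3])]) (.use 739) (.br
  713 .no (.red [.t 585 1 4, .f 578 1 5, .t 842 4 2, .t 978 4 2] 122 136 [2, 3, 3] [(89, 73, [1]),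
  (105, 136, [2, 2, 3]), (122, 136, [2, 3, 3])]) (.hor [.f 713 3 5] []) .no .no (.br 577 .no (.con
  136 [2, 2, 3, 2, 2]) (.use 787) (.con 136 [2, 2, 3, 2, 2]) .no (.con 136 [2, 2, 3, 2, 2]))) .no
  (.use 582) .no) .no .no .no) (.use 670) (.hor [.f 850 3 5] []) .no .no .no) .no (.use 789) (.red
  [.t 969 2 3, .f 840 3 5] 122 136 [2, 3, 3] [(122, 136, [2, 3, 3])])) .no .no .no) (.red [.f 841
  1 3] 122 136 [2, 3, 3] [(122, 136, [2, 3, 3])]) (.use 542) .no .no (.use 783)) .no .no (.red [.t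
  968 4 2, .f 705 5 3, .f 706 3 1] 105 136 [2, 2, 3] [(105, 136, [2, 2, 3]), (121, 105, [1])])

def c27t793 : Tr4 :=
  .br 840 .no (.use 779) (.br 577 .no (.hor [.f 449 1 5] []) (.use 788) (.use 690) .no (.use 733))
  .no .no .no

def c27t794 : Tr4 :=
  .br 937 (.red [.f 937 1 3, .f 937 3 5, .f 817 5 1, .f 818 1 3] 119 136 [2, 4] [(119, 136, [2,
  4]), (134, 118, [1])]) (.red [.t 937 2 3, .f 818 1 3] 119 136 [2, 4] [(118, 136, [2, 4, 4]),
  (119, 136, [2, 4])]) .no (.br 936 (.br 578 .no (.br 1105 .no (.br 714 .no (.use 694) (.br 840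
  .no (.use 779) (.br 577 .no (.hor [.f 449 1 5] []) (.use 788) (.use 690) .no (.br 850 .no .no
  (.use 737) .no (.use 789) (.red [.t 969 2 3, .f 840 3 5] 122 136 [2, 3, 3] [(122, 136, [2, 3,
  3])]))) .no .no .no) .no .no (.red [.t 968 4 2, .f 705 5 3, .f 706 3 1] 105 136 [2, 2, 3] [(105,
  136, [2, 2, 3]), (121, 105, [1])])) (.br 977 .no (.red [.f 841 1 3] 122 136 [2, 3, 3] [(122,
  136, [2, 3, 3])]) (.use 790) .no .no (.use 791)) .no .no .no) (.use 792) (.red [.f 696 5 1, .t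
  578 4 1] 88 136 [2, 2, 2] [(88, 136, [2, 2, 2])]) .no (.red [.f 577 5 1, .f 578 1 5, .f 698 5 3,
  .f 699 3 1] 104 136 [2, 2] [(104, 136, [2, 2])])) (.br 578 .no (.br 977 (.br 714 .no (.use 694)
  (.br 809 .no (.br 690 .no (.use 793) .no (.use 745) (.use 777) (.red [.f 696 5 1, .f 689 5 1, .f
  689 1 3] 103 136 [2, 2, 4] [(103, 136, [2, 2, 4])])) .no (.hor [.f 808 1 3, .f 801 3 1, .f 808 3
  1, .f 808 1 5] [(117, 136, [2, 4, 4, 4])]) (.red [.f 809 5 3, .f 810 3 1, .f 818 1 3] 119 136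
  [2, 4] [(118, 136, [2, 4, 4]), (119, 136, [2, 4])]) .no) .no .no (.red [.t 968 4 2, .f 705 5 3,
  .f 706 3 1] 105 136 [2, 2, 3] [(105, 136, [2, 2, 3]), (121, 105, [1])])) (.red [.f 841 1 3] 122
  136 [2, 3, 3] [(122, 136, [2, 3, 3])]) (.use 790) .no .no (.use 791)) (.use 792) (.red [.f 696 5
  1, .t 578 4 1] 88 136 [2, 2, 2] [(88, 136, [2, 2, 2])]) .no (.red [.f 577 5 1, .f 578 1 5, .f
  698 5 3, .f 699 3 1] 104 136 [2, 2] [(104, 136, [2, 2])])) .no (.hor [.f 928 3 5] []) .no .no)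
  .no (.br 578 .no (.br 977 (.br 714 .no (.use 694) (.br 690 .no (.use 793) .no (.br 840 .no (.use
  779) (.br 577 .no (.hor [.f 449 1 5] []) (.use 788) (.use 690) .no (.br 850 .no .no (.use 751)
  .no (.use 789) (.red [.t 969 2 3, .f 840 3 5] 122 136 [2, 3, 3] [(122, 136, [2, 3, 3])]))) .no
  .no .no) (.red [.f 696 5 1, .f 690 5 3, .t 697 1 4] 103 136 [2, 2, 4] [(103, 136, [2, 2, 4])])
  (.red [.f 696 5 1, .f 689 5 1, .f 689 1 3] 103 136 [2, 2, 4] [(103, 136, [2, 2, 4])])) .no .no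
  (.red [.t 968 4 2, .f 705 5 3, .f 706 3 1] 105 136 [2, 2, 3] [(105, 136, [2, 2, 3]), (121, 105,
  [1])])) (.red [.f 841 1 3] 122 136 [2, 3, 3] [(122, 136, [2, 3, 3])]) (.use 790) .no .no (.use
  791)) (.use 792) (.red [.f 696 5 1, .t 578 4 1] 88 136 [2, 2, 2] [(88, 136, [2, 2, 2])]) .no
  (.red [.f 577 5 1, .f 578 1 5, .f 698 5 3, .f 699 3 1] 104 136 [2, 2] [(104, 136, [2, 2])]))

def c27t795 : Tr4 :=
  .br 843 .no (.br 707 .no (.br 706 .no (.hor [.f 578 1 5] []) (.red [.f 706 3 1, .f 714 1 5] 105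
  136 [2, 2, 3] [(105, 136, [2, 2, 3])]) (.use 688) .no (.br 699 .no (.red [.f 571 1 3] 88 136 [2,
  2, 2] [(88, 136, [2, 2, 2])]) .no (.use 689) .no (.br 696 .no (.use 763) (.con 136 [2, 2, 2])
  (.br 697 .no (.br 578 .no (.br 570 .no (.red [.f 442 1 3, .t 578 4 1, .f 569 1 5] 88 136 [2, 2,
  2] [(72, 136, [2, 2, 2, 2]), (88, 136, [2, 2, 2])]) .no (.use 778) (.red [.f 570 5 1, .f 571 1
  3] 88 136 [2, 2, 2] [(88, 136, [2, 2, 2])]) .no) (.use 784) (.red [.t 578 4 1, .f 569 1 5] 88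
  136 [2, 2, 2] [(88, 136, [2, 2, 2])]) .no (.red [.f 577 5 1, .f 569 1 3] 88 136 [2, 2, 2] [(88,
  136, [2, 2, 2])])) .no (.hor [.f 688 3 5] []) .no .no) (.use 794) .no))) .no (.red [.f 699 3 1,
  .f 707 1 3] 105 136 [2, 2, 3] [(104, 136, [2, 2]), (105, 136, [2, 2, 3])]) .no (.use 757)) (.use
  756) .no .no .no

def c27t796 : Tr4 :=
  .br 578 .no (.use 790) (.br 714 .no .no (.use 542) .no .no (.red [.t 968 4 2, .f 705 5 3, .f 706
  3 1] 105 136 [2, 2, 3] [(105, 136, [2, 2, 3]), (121, 105, [1])])) (.red [.t 578 4 1] 88 136 [2,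
  2, 2] [(88, 136, [2, 2, 2])]) .no (.red [.f 577 5 1, .f 578 1 5, .f 698 5 3, .f 699 3 1] 104 136
  [2, 2] [(104, 136, [2, 2])])

def c27t797 : Tr4 :=
  .br 840 .no (.br 714 .no (.br 578 .no (.br 577 .no (.hor [.f 449 1 5] []) (.red [.t 585 4 1] 89
  136 [2, 2, 3, 2] [(89, 136, [2, 2, 3, 2])]) (.con 136 [2, 2, 3, 2, 2, 4]) .no (.con 136 [2, 2,
  3, 2, 4])) .no (.red [.t 578 4 1] 88 136 [2, 2, 2] [(88, 136, [2, 2, 2])]) .no (.red [.f 577 5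
  1, .f 578 1 5, .f 698 5 3, .f 699 3 1] 104 136 [2, 2] [(104, 136, [2, 2])])) (.use 782) .no .no
  (.red [.t 968 4 2, .f 705 5 3, .f 706 3 1] 105 136 [2, 2, 3] [(105, 136, [2, 2, 3]), (121, 105,
  [1])])) (.red [.t 840 3 1, .f 969 3 5] 122 136 [2, 3, 3] [(122, 136, [2, 3, 3])]) .no .no .no

def c27t798 : Tr4 :=
  .br 843 .no (.br 707 .no (.br 706 .no (.hor [.f 578 1 5] []) (.red [.f 706 3 1, .f 714 1 5] 105
  136 [2, 2, 3] [(105, 136, [2, 2, 3])]) (.use 688) .no (.br 699 .no (.red [.f 571 1 3] 88 136 [2,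
  2, 2] [(88, 136, [2, 2, 2])]) .no (.use 689) .no (.br 977 .no (.red [.f 841 1 3] 122 136 [2, 3,
  3] [(122, 136, [2, 3, 3])]) (.use 796) .no .no (.use 797)))) .no (.red [.f 699 3 1, .f 707 1 3]
  105 136 [2, 2, 3] [(104, 136, [2, 2]), (105, 136, [2, 2, 3])]) .no (.use 757)) (.use 756) .no
  .no .no

def c27l23 : List Tr4 :=
  [c27t778, c27t779, c27t780, c27t781, c27t782, c27t783, c27t784, c27t785, c27t786, c27t787,
  c27t788, c27t789, c27t790, c27t791, c27t792, c27t793, c27t794, c27t795, c27t796, c27t797,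
  c27t798]

theorem c27k23 : chkLF ⟨4, 1, 0, true, -8⟩ false 7 c27N 778 c27l23 = true := by decide +kernel

def c27t799 : Tr4 :=
  .br 1211 (.br 1219 (.hor [.f 1211 1 3, .f 1210 3 5] [(168, 169, [4])]) .no (.br 1346 (.br 1338
  (.red [.f 1338 1 3, .f 1210 3 1, .f 1217 1 5, .t 1097 4 1, .f 1081 1 3] 153 136 [3, 1] [(152,
  136, [1]), (153, 136, [3, 1]), (168, 152, [1]), (184, 136, [1, 1, 1])]) .no .no (.br 1347 (.hor
  [.f 1346 1 5] []) .no (.br 1337 (.br 1353 (.use 621) .no (.red [.f 1225 3 1, .f 1217 1 3] 170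
  136 [3, 3, 1, 1] [(169, 136, [3, 1, 1]), (170, 136, [3, 3, 1, 1])]) .no (.br 1106 (.use 695) .no
  (.br 1105 .no (.br 1234 (.red [.t 1233 4 1, .f 1217 1 3] 170 136 [3, 3, 1, 1] [(169, 136, [3, 1,
  1]), (170, 136, [3, 3, 1, 1])]) .no (.use 703) .no (.br 1208 (.br 1473 (.br 1362 (.br 1475 (.use
  50) .no (.red [.f 1219 3 1, .f 1219 1 3, .f 1347 3 1, .f 1346 1 5] 185 136 [3, 1, 1, 1] [(185,
  136, [3, 1, 1, 1])]) (.br 1232 (.red [.f 1224 1 3, .f 1096 3 1] 170 136 [3, 3, 1, 1] [(154, 136,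
  [3, 3, 1]), (170, 136, [3, 3, 1, 1])]) .no (.br 1482 (.use 706) .no .no .no (.red [.t 1346 1 3]
  185 136 [3, 1, 1, 1] [(185, 136, [3, 1, 1, 1])]) (.red [.f 1353 5 1, .f 1346 1 3] 185 136 [3, 1,
  1, 1] [(185, 136, [3, 1, 1, 1])])) .no .no .no) .no .no) .no (.br 1475 (.use 50) .no (.red [.f
  1219 3 1, .f 1219 1 3, .f 1347 3 1, .f 1346 1 5] 185 136 [3, 1, 1, 1] [(185, 136, [3, 1, 1,
  1])]) (.br 1232 (.red [.f 1224 1 3, .f 1096 3 1] 170 136 [3, 3, 1, 1] [(154, 136, [3, 3, 1]),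
  (170, 136, [3, 3, 1, 1])]) .no (.br 1482 (.use 706) .no (.br 1361 (.red [.t 1489 2 4, .f 1225 3
  1, .f 1217 1 3] 170 136 [3, 3, 1, 1] [(169, 136, [3, 1, 1]), (170, 136, [3, 3, 1, 1]), (186,
  136, [3, 3, 1, 1, 1])]) .no (.hor [.f 1361 3 5] []) .no .no (.red [.t 1224 1 3, .t 1088 1 3, .f
  1097 1 5] 170 136 [3, 3, 1, 1] [(153, 136, [3, 1]), (170, 136, [3, 3, 1, 1])])) .no (.red [.t
  1346 1 3] 185 136 [3, 1, 1, 1] [(185, 136, [3, 1, 1, 1])]) (.red [.f 1353 5 1, .f 1346 1 3] 185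
  136 [3, 1, 1, 1] [(185, 136, [3, 1, 1, 1])])) .no .no .no) .no .no) .no (.red [.f 1234 5 1, .t
  1233 4 1, .f 1217 1 3] 170 136 [3, 3, 1, 1] [(169, 136, [3, 1, 1]), (170, 136, [3, 3, 1, 1])])
  (.red [.f 1353 5 3, .f 1225 3 1, .f 1217 1 3] 170 136 [3, 3, 1, 1] [(169, 136, [3, 1, 1]), (170,
  136, [3, 3, 1, 1])])) .no (.red [.t 1473 3 2, .f 1346 3 5] 185 136 [3, 1, 1, 1] [(185, 136, [3,
  1, 1, 1])]) .no .no (.con 136 [3, 1, 1, 1, 4, 2, 2, 2])) .no .no .no .no .no) .no) (.hor [.f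
  1105 3 5] []) .no .no .no) .no .no (.hor [.t 1225 3 2, .f 1098 3 5, .f 1225 5 1, .f 1224 1 5, .t
  1104 4 1] [])) .no) .no .no (.hor [.f 1329 3 5] []) .no (.con 136 [1, 1, 4, 2, 2, 2])) .no .no
  .no) .no (.red [.t 1217 1 4, .t 1097 4 1, .f 1081 1 3] 153 136 [3, 1] [(152, 136, [1]), (153,
  136, [3, 1]), (168, 152, [1])])) .no (.br 1106 (.red [.f 1098 1 3, .f 1225 3 5, .t 1345 2 3, .f
  1089 3 1, .t 1097 1 3] 153 136 [3, 1] [(153, 136, [3, 1]), (169, 136, [3, 1, 1])]) .no (.br 944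
  .no (.use 754) .no (.use 765) .no .no) .no .no (.red [.t 1225 3 2, .t 1345 2 3, .f 1089 3 1, .f
  1097 1 3] 153 136 [3, 1] [(153, 136, [3, 1]), (169, 136, [3, 1, 1])])) (.red [.f 1210 3 1, .f
  1217 1 5, .t 1097 4 1] 153 136 [3, 1] [(153, 136, [3, 1]), (168, 152, [1])]) (.red [.t 1210 3 1,
  .f 1217 1 5, .t 1097 4 1, .f 1081 1 3] 153 136 [3, 1] [(152, 136, [1]), (153, 136, [3, 1]),
  (168, 152, [1])]) .no) .no .no .no) .no (.hor [.f 1210 3 5] []) (.br 944 .no (.br 818 .no (.use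
  687) .no (.red [.f 810 3 1, .f 818 1 3] 119 136 [2, 4] [(118, 136, [2, 4, 4]), (119, 136, [2,
  4])]) (.red [.f 824 5 3, .t 954 2 4] 119 136 [2, 4] [(119, 136, [2, 4])]) (.br 1106 (.br 1219
  (.use 766) .no (.use 795) .no .no .no) .no (.use 753) .no .no (.use 798))) .no (.use 765) .no
  .no) .no .no

def c27t800 : Tr4 :=
  .br 963 .no (.br 827 .no (.br 834 .no (.br 842 .no (.hor [.t 968 4 2, .f 706 1 3, .f 833 3 5]
  [(105, 119, [3, 2, 3]), (121, 119, [3, 3])]) (.hor [.f 842 3 1, .f 841 1 5] [(122, 136, [2, 3,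
  3])]) .no (.use 647) .no) (.hor [.t 968 4 2, .f 833 3 5] [(121, 119, [3, 3])]) .no .no .no) .no
  (.red [.f 819 3 1, .f 826 1 5] 119 136 [2, 4] [(119, 136, [2, 4])]) .no .no) (.br 1098 (.br 1225
  (.hor [.f 1224 1 5] []) .no (.br 1099 (.con 136 [3, 3, 1, 1]) .no (.br 827 .no (.br 1072 (.use
  673) (.hor [.f 944 1 5] []) .no (.br 944 .no (.use 674) .no (.hor [.f 936 3 1, .f 944 1 5]
  [(134, 118, [1])]) .no .no) .no .no) (.br 824 .no (.br 944 (.hor [.f 944 1 5] []) (.use 645) .no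
  (.br 1072 (.br 834 .no (.br 825 .no (.hor [.f 696 1 5] []) .no (.br 816 .no (.br 699 .no (.br
  698 .no (.hor [.f 570 1 5] []) .no (.use 469) .no (.use 675)) (.use 590) (.use 595) .no (.red
  [.t 834 2 4] 104 136 [2, 2] [(104, 136, [2, 2])])) .no (.use 1) .no .no) .no .no) (.br 825 .no
  (.hor [.f 696 1 5] []) .no (.br 816 .no (.use 677) .no (.use 1) .no .no) .no .no) .no .no .no)
  .no .no (.hor [.f 936 3 1, .f 944 1 5] [(134, 118, [1])]) .no .no) .no .no) .no (.use 472) (.br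
  834 .no (.use 682) (.br 1072 (.use 799) (.hor [.f 944 1 5] []) .no (.br 1219 (.use 766) .no (.br
  944 .no (.br 1106 (.br 818 .no (.use 687) .no (.red [.f 810 3 1, .f 818 1 3] 119 136 [2, 4]
  [(118, 136, [2, 4, 4]), (119, 136, [2, 4])]) (.red [.f 824 5 3, .t 954 2 4] 119 136 [2, 4]
  [(119, 136, [2, 4])]) (.use 795)) .no (.use 754) .no .no (.use 798)) .no (.hor [.f 936 3 1, .f
  944 1 5] [(134, 118, [1])]) .no .no) (.hor [.f 1210 3 5] []) .no .no) .no .no) .no .no .no) .no)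
  (.red [.f 819 3 1, .f 826 1 5] 119 136 [2, 4] [(119, 136, [2, 4])]) .no .no) .no .no .no) .no
  .no .no) .no (.use 440) .no (.use 536) .no) .no .no .no

def c27t801 : Tr4 :=
  .br 697 .no (.br 1065 (.br 696 .no (.hor [.f 568 1 5] []) .no (.br 819 .no (.red [.f 691 1 3, .f
  690 3 5] 103 136 [2, 2, 4] [(103, 136, [2, 2, 4])]) .no (.use 630) .no .no) .no .no) .no .no
  (.hor [.f 929 3 1, .f 936 1 5] [(133, 119, [1, 4, 4])]) (.red [.t 945 1 4, .f 817 5 1, .f 818 1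
  3] 119 136 [2, 4] [(119, 136, [2, 4]), (134, 118, [1])]) .no) .no (.hor [.f 689 3 5] []) .no
  (.red [.f 696 5 3, .f 696 3 5, .f 696 5 1, .t 697 1 4] 103 136 [2, 2, 4] [(103, 136, [2, 2,
  4])])

def c27t802 : Tr4 :=
  .br 937 (.red [.f 937 1 3, .f 937 3 5, .f 817 5 1, .f 818 1 3] 119 136 [2, 4] [(119, 136, [2,
  4]), (134, 118, [1])]) (.red [.t 937 2 3, .f 818 1 3] 119 136 [2, 4] [(118, 136, [2, 4, 4]),
  (119, 136, [2, 4])]) .no (.br 936 (.br 698 .no (.use 620) .no (.use 801) .no (.use 600)) (.use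
  186) .no (.hor [.f 928 3 5] []) .no .no) .no (.use 636)

def c27t803 : Tr4 :=
  .br 810 .no (.use 46) .no (.use 150) .no .no

def c27t804 : Tr4 :=
  .br 568 .no (.br 689 .no (.hor [.f 561 1 3, .f 688 3 5] [(87, 86, [3])]) .no (.use 803) .no .no)
  .no (.hor [.f 560 3 1, .f 568 1 5] [(87, 103, [2])]) .no .no

def c27t805 : Tr4 :=
  .br 704 .no (.hor [.f 576 1 5] []) (.br 819 .no (.red [.f 691 1 3, .f 690 3 5] 103 136 [2, 2, 4]
  [(103, 136, [2, 2, 4])]) .no (.br 809 .no (.use 57) .no (.use 142) (.red [.f 809 5 3, .f 810 3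
  5, .t 954 2 4] 119 136 [2, 4] [(119, 136, [2, 4])]) (.br 576 .no (.br 1201 (.br 691 .no (.br 570
  .no (.use 804) (.use 629) (.hor [.f 562 3 1, .f 562 1 5] [(87, 103, [2])]) (.hor [.t 690 3 2, .f
  569 1 5] [(87, 103, [2])]) .no) .no (.red [.f 683 3 1, .f 691 1 3, .f 690 3 5] 103 136 [2, 2, 4]
  [(102, 136, [2, 2, 4, 4]), (103, 136, [2, 2, 4])]) .no .no) .no .no .no (.red [.t 1081 1 4, .t
  961 4 1, .f 945 1 3] 136 136 [] [(135, 136, [4]), (136, 136, []), (151, 135, [1])]) .no) (.hor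
  [.f 576 3 1, .f 576 1 5] [(89, 103, [2, 3, 3])]) (.hor [.f 569 1 3, .f 568 3 5] [(88, 136, [2,
  2, 2])]) .no .no)) .no .no) .no .no .no

def c27t806 : Tr4 :=
  .br 696 .no (.hor [.f 568 1 5] []) (.use 601) (.use 805) .no .no

def c27t807 : Tr4 :=
  .br 818 .no (.use 6) .no (.red [.f 810 3 1, .f 818 1 3] 119 136 [2, 4] [(118, 136, [2, 4, 4]),
  (119, 136, [2, 4])]) (.red [.f 824 5 3, .t 954 2 4] 119 136 [2, 4] [(119, 136, [2, 4])]) (.br
  944 .no (.use 640) .no (.use 293) .no .no)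

def c27t808 : Tr4 :=
  .br 1346 (.br 1338 (.red [.f 1338 1 3, .f 1210 3 1, .f 1217 1 5, .t 1097 4 1, .f 1081 1 3] 153
  136 [3, 1] [(152, 136, [1]), (153, 136, [3, 1]), (168, 152, [1]), (184, 136, [1, 1, 1])]) .no
  .no (.br 705 .no (.br 818 .no (.use 6) .no (.red [.f 810 3 1, .f 818 1 3] 119 136 [2, 4] [(118,
  136, [2, 4, 4]), (119, 136, [2, 4])]) (.red [.f 824 5 3, .t 954 2 4] 119 136 [2, 4] [(119, 136,
  [2, 4])]) (.br 944 .no (.br 937 (.red [.f 937 1 3, .f 937 3 5, .f 817 5 1, .f 818 1 3] 119 136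
  [2, 4] [(119, 136, [2, 4]), (134, 118, [1])]) (.red [.t 937 2 3, .f 818 1 3] 119 136 [2, 4]
  [(118, 136, [2, 4, 4]), (119, 136, [2, 4])]) .no (.br 936 (.br 698 .no (.use 620) .no (.br 697
  .no (.br 1065 (.use 806) .no .no (.hor [.f 929 3 1, .f 936 1 5] [(133, 119, [4, 4, 1])]) (.red
  [.t 945 1 4, .f 817 5 1, .f 818 1 3] 119 136 [2, 4] [(119, 136, [2, 4]), (134, 118, [1])]) .no)
  .no (.hor [.f 689 3 5] []) .no (.red [.f 696 5 1, .t 697 1 4] 103 136 [2, 2, 4] [(103, 136, [2,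
  2, 4])])) .no (.use 600)) (.use 633) .no (.hor [.f 928 3 5] []) .no .no) .no (.use 636)) .no
  (.use 293) .no .no)) (.hor [.t 968 4 2, .f 705 3 1, .f 705 1 5] [(105, 103, [3, 3]), (121, 119,
  [3, 3])]) (.use 807) .no (.br 818 .no (.use 6) .no (.red [.f 810 3 1, .f 818 1 3] 119 136 [2, 4]
  [(118, 136, [2, 4, 4]), (119, 136, [2, 4])]) (.red [.f 824 5 3, .t 954 2 4] 119 136 [2, 4]
  [(119, 136, [2, 4])]) (.br 944 .no (.use 802) .no (.use 293) .no .no))) .no (.red [.t 1217 1 4,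
  .t 1097 4 1, .f 1081 1 3] 153 136 [3, 1] [(152, 136, [1]), (153, 136, [3, 1]), (168, 152,
  [1])])) .no (.br 818 .no (.use 6) .no (.red [.f 810 3 1, .f 818 1 3] 119 136 [2, 4] [(118, 136,
  [2, 4, 4]), (119, 136, [2, 4])]) (.red [.f 824 5 3, .t 954 2 4] 119 136 [2, 4] [(119, 136, [2,
  4])]) (.br 944 .no (.br 705 .no (.br 1337 (.br 937 (.red [.f 937 1 3, .f 937 3 5, .f 817 5 1, .f
  818 1 3] 119 136 [2, 4] [(119, 136, [2, 4]), (134, 118, [1])]) (.red [.t 937 2 3, .f 818 1 3]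
  119 136 [2, 4] [(118, 136, [2, 4, 4]), (119, 136, [2, 4])]) .no (.br 936 (.br 698 .no (.use 620)
  .no (.br 697 .no (.br 1065 (.br 1338 (.hor [.f 1337 1 5] []) .no .no (.use 806) .no .no) .no .no
  (.hor [.f 929 3 1, .f 936 1 5] [(133, 119, [4, 4, 1])]) (.red [.t 945 1 4, .f 817 5 1, .f 818 1
  3] 119 136 [2, 4] [(119, 136, [2, 4]), (134, 118, [1])]) .no) .no (.hor [.f 689 3 5] []) .no
  (.red [.f 696 5 1, .t 697 1 4] 103 136 [2, 2, 4] [(103, 136, [2, 2, 4])])) .no (.use 600)) (.use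
  633) .no (.hor [.f 928 3 5] []) .no .no) .no (.use 636)) .no .no (.use 638) (.red [.t 1217 1 4,
  .t 1097 4 1, .f 1081 1 3] 153 136 [3, 1] [(152, 136, [1]), (153, 136, [3, 1]), (168, 152, [1])])
  (.con 136 [1, 1, 4, 2, 2, 2])) (.hor [.t 968 4 2, .f 705 3 1, .f 705 1 5] [(105, 103, [3, 3]),
  (121, 119, [3, 3])]) (.use 640) .no (.br 1337 (.br 1338 (.hor [.f 1337 1 5] []) .no .no (.use
  802) .no .no) .no .no (.use 638) (.red [.t 1217 1 4, .t 1097 4 1, .f 1081 1 3] 153 136 [3, 1]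
  [(152, 136, [1]), (153, 136, [3, 1]), (168, 152, [1])]) (.con 136 [1, 1, 4, 2, 2, 2]))) .no
  (.use 293) .no .no)) (.red [.f 1210 3 1, .f 1217 1 5, .t 1097 4 1] 153 136 [3, 1] [(153, 136,
  [3, 1]), (168, 152, [1])]) (.red [.t 1210 3 1, .f 1217 1 5, .t 1097 4 1, .f 1081 1 3] 153 136
  [3, 1] [(152, 136, [1]), (153, 136, [3, 1]), (168, 152, [1])]) .no

def c27t809 : Tr4 :=
  .br 818 .no (.use 6) .no (.red [.f 810 3 1, .f 818 1 3] 119 136 [2, 4] [(118, 136, [2, 4, 4]),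
  (119, 136, [2, 4])]) (.red [.f 824 5 3, .t 954 2 4] 119 136 [2, 4] [(119, 136, [2, 4])]) (.br
  944 .no (.br 937 (.red [.f 937 1 3, .f 937 3 5, .f 817 5 1, .f 818 1 3] 119 136 [2, 4] [(119,
  136, [2, 4]), (134, 118, [1])]) (.red [.t 937 2 3, .f 818 1 3] 119 136 [2, 4] [(118, 136, [2, 4,
  4]), (119, 136, [2, 4])]) .no (.br 936 (.br 698 .no (.use 620) .no (.br 697 .no (.br 696 .no
  (.hor [.f 568 1 5] []) (.use 601) (.br 704 .no (.hor [.f 576 1 5] []) (.br 819 .no (.red [.f 691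
  1 3, .f 690 3 5] 103 136 [2, 2, 4] [(103, 136, [2, 2, 4])]) .no (.br 809 .no (.use 57) .no (.use
  142) (.red [.f 809 5 3, .f 810 3 5, .t 954 2 4] 119 136 [2, 4] [(119, 136, [2, 4])]) (.br 576
  .no (.br 691 .no (.br 570 .no (.use 804) (.hor [.f 569 1 3, .f 569 3 5] [(88, 136, [2, 2, 2])])
  (.hor [.f 562 3 1, .f 562 1 5] [(87, 103, [2])]) (.hor [.t 690 3 2, .f 569 1 5] [(87, 103,
  [2])]) .no) .no (.red [.f 683 3 1, .f 691 1 3, .f 690 3 5] 103 136 [2, 2, 4] [(102, 136, [2, 2,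
  4, 4]), (103, 136, [2, 2, 4])]) .no .no) (.hor [.f 576 3 1, .f 576 1 5] [(89, 103, [2, 3, 3])])
  (.hor [.f 569 1 3, .f 568 3 5] [(88, 136, [2, 2, 2])]) .no .no)) .no .no) .no .no .no) .no .no)
  .no (.hor [.f 689 3 5] []) .no (.red [.f 696 5 1, .t 697 1 4] 103 136 [2, 2, 4] [(103, 136, [2,
  2, 4])])) .no (.use 600)) (.use 633) .no (.hor [.f 928 3 5] []) .no .no) .no (.use 636)) .no
  (.use 293) .no .no)

def c27t810 : Tr4 :=
  .br 818 .no (.use 6) .no (.red [.f 810 3 1, .f 818 1 3] 119 136 [2, 4] [(118, 136, [2, 4, 4]),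
  (119, 136, [2, 4])]) (.red [.f 824 5 3, .t 954 2 4] 119 136 [2, 4] [(119, 136, [2, 4])]) (.br
  944 .no (.use 644) .no (.use 293) .no .no)

def c27t811 : Tr4 :=
  .br 1346 (.br 1219 (.hor [.f 1211 1 3, .f 1210 3 5] [(168, 169, [4])]) .no (.br 1347 (.hor [.f
  1346 1 5] []) .no (.use 334) .no .no .no) .no .no .no) .no (.red [.t 1345 2 3, .f 1089 3 1] 153
  136 [3, 1] [(153, 136, [3, 1]), (169, 136, [3, 1, 1])]) (.red [.f 1210 3 1, .f 1217 1 5, .f 1217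
  5 3, .f 1089 3 1] 153 136 [3, 1] [(153, 136, [3, 1]), (168, 152, [1])]) (.red [.t 1210 3 1, .f
  1217 1 5, .f 1217 5 3, .f 1089 3 1] 153 136 [3, 1] [(153, 136, [3, 1]), (168, 152, [1])]) .no

def c27l24 : List Tr4 :=
  [c27t799, c27t800, c27t801, c27t802, c27t803, c27t804, c27t805, c27t806, c27t807, c27t808,
  c27t809, c27t810, c27t811]

theorem c27k24 : chkLF ⟨4, 1, 0, true, -8⟩ false 7 c27N 799 c27l24 = true := by decide +kernel

def c27t812 : Tr4 :=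
  .br 833 .no (.br 970 (.red [.f 962 1 3, .f 1089 3 5, .t 1209 2 3, .f 953 3 1, .t 961 1 3] 136
  136 [] [(136, 136, []), (152, 136, [1])]) (.hor [.f 841 1 5] []) (.br 832 .no (.hor [.f 704 1 5]
  []) (.br 971 (.hor [.f 832 3 1, .f 840 1 5] [(121, 136, [3, 2])]) (.hor [.f 832 3 1, .f 840 1 5]
  [(121, 122, [4])]) (.hor [.f 832 3 1, .f 840 1 5] [(121, 136, [3, 2])]) (.br 1098 (.use 535) .no
  (.use 440) .no (.use 536) .no) .no .no) (.br 963 .no (.use 539) (.br 1098 (.br 1225 (.hor [.f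
  1224 1 5] []) .no (.br 1099 (.con 136 [3, 3, 1, 1]) .no (.br 834 .no (.hor [.f 705 1 5] []) (.br
  835 .no (.br 827 .no (.br 825 .no (.hor [.f 697 1 3, .f 824 3 5] [(104, 103, [3])]) .no (.use
  538) .no .no) .no (.red [.f 819 3 1, .f 826 1 5] 119 136 [2, 4] [(119, 136, [2, 4])]) .no .no)
  (.hor [.f 834 3 5] []) (.use 596) .no .no) .no (.br 827 .no (.use 597) .no (.red [.f 819 3 1, .f
  826 1 5] 119 136 [2, 4] [(119, 136, [2, 4])]) .no .no) .no) .no .no .no) .no .no .no) .no (.use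
  440) .no (.use 536) .no) .no .no .no) .no .no) .no (.br 832 .no (.hor [.f 704 1 5] []) (.hor [.f
  832 3 1, .f 840 1 5] [(121, 136, [3, 2])]) (.br 835 (.use 539) (.con 136 [2, 3, 1, 4]) (.con 136
  [2, 3, 1, 4]) (.con 136 [2, 3, 1, 4]) .no (.con 136 [2, 3, 1, 4])) .no .no) .no) .no (.red [.f
  825 3 1, .f 825 1 5, .t 1073 2 3, .f 954 1 3, .t 961 2 4] 136 136 [] [(135, 136, [4]), (136,
  136, [])]) (.red [.t 953 3 2, .t 1073 2 3, .f 954 1 3, .f 826 3 1] 136 136 [] [(135, 136, [4]),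
  (136, 136, [])]) (.br 970 (.red [.f 962 1 3, .f 1089 3 5, .t 1209 2 3, .f 953 3 1, .t 961 1 3]
  136 136 [] [(136, 136, []), (152, 136, [1])]) (.hor [.f 841 1 5] []) (.use 800) .no (.br 827 .no
  (.br 834 .no (.br 835 (.br 1072 (.br 824 .no (.use 598) .no (.use 599) (.br 1098 (.br 1099 (.hor
  [.f 1098 1 5] []) .no (.br 1225 (.hor [.f 1224 1 5] []) .no (.br 1219 (.use 766) .no (.br 1211
  (.use 808) .no .no (.br 705 .no (.use 809) (.hor [.t 968 4 2, .f 705 3 1, .f 705 1 5] [(105,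
  103, [3, 3]), (121, 119, [3, 3])]) (.use 807) .no (.use 810)) .no .no) (.hor [.f 1210 3 5] [])
  .no .no) .no .no .no) .no .no .no) .no (.use 397) .no (.br 1225 (.hor [.f 1224 1 5] []) .no
  (.use 226) .no (.br 705 .no (.use 809) (.hor [.t 968 4 2, .f 705 3 1, .f 705 1 5] [(105, 103,
  [3, 3]), (121, 119, [3, 3])]) (.use 807) .no (.br 1211 (.use 811) .no (.hor [.f 1210 3 5] [])
  (.use 810) .no .no)) .no) .no) .no) (.hor [.f 944 1 5] []) .no (.use 646) .no .no) (.con 136 [2,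
  3, 1, 4]) (.con 136 [2, 3, 1, 4]) .no .no .no) (.hor [.t 968 4 2, .f 833 3 5] [(121, 136, [3,
  2])]) .no (.con 136 [2, 3, 1, 4]) .no) (.con 136 [2, 3, 1, 4]) (.red [.f 819 3 1, .f 826 1 5]
  119 136 [2, 4] [(119, 136, [2, 4])]) .no .no) .no)

def c27t813 : Tr4 :=
  .br 825 .no (.hor [.f 696 1 5] []) .no (.use 388) .no .no

def c27t814 : Tr4 :=
  .br 688 .no (.red [.f 560 1 3] 87 136 [2, 2, 4, 2] [(87, 136, [2, 2, 4, 2])]) .no (.con 136 [2,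
  2, 4, 2, 4]) .no .no

def c27t815 : Tr4 :=
  .br 696 .no (.use 814) .no (.red [.f 689 5 1, .t 688 3 1, .f 696 1 3] 103 136 [2, 2, 4] [(103,
  136, [2, 2, 4]), (104, 136, [2, 2])]) (.red [.f 696 5 1, .f 689 5 1, .f 689 1 3] 103 136 [2, 2,
  4] [(103, 136, [2, 2, 4])]) .no

def c27t816 : Tr4 :=
  .br 819 .no (.red [.f 691 1 3] 103 136 [2, 2, 4] [(103, 136, [2, 2, 4])]) .no (.br 690 .no (.use
  51) .no (.con 136 [2, 2, 4, 4, 4]) (.use 87) (.use 155)) .no .no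

def c27t817 : Tr4 :=
  .br 809 .no (.use 816) .no (.hor [.f 808 1 3, .f 801 3 1, .f 808 3 1, .f 808 1 5] [(117, 136,
  [2, 4, 4, 4])]) (.red [.f 809 5 3, .f 810 3 1, .f 818 1 3] 119 136 [2, 4] [(118, 136, [2, 4,
  4]), (119, 136, [2, 4])]) .no

def c27t818 : Tr4 :=
  .br 697 .no (.hor [.f 568 1 5] []) .no (.br 698 .no (.con 136 [2, 2, 2, 4]) .no (.hor [.f 689 3
  5] []) .no .no) (.use 817) .no

def c27t819 : Tr4 :=
  .br 809 .no (.use 57) .no (.hor [.f 808 1 3, .f 801 3 1, .f 808 3 1, .f 808 1 5] [(117, 136, [2,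
  4, 4, 4])]) (.red [.f 809 5 3, .f 810 3 1, .f 818 1 3] 119 136 [2, 4] [(118, 136, [2, 4, 4]),
  (119, 136, [2, 4])]) .no

def c27t820 : Tr4 :=
  .br 691 (.red [.f 691 1 3] 103 136 [2, 2, 4] [(103, 136, [2, 2, 4])]) (.hor [.f 562 1 5] []) .no
  (.br 811 (.con 136 [2, 2, 4, 4, 1, 3]) .no (.use 51) (.con 136 [2, 2, 4, 4, 1, 3]) .no (.con 136
  [2, 2, 4, 4, 1, 3])) .no .no

def c27t821 : Tr4 :=
  .br 697 .no (.br 698 .no (.use 613) .no (.use 819) .no .no) .no (.hor [.f 688 3 5] []) (.br 809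
  .no (.br 690 .no (.use 820) .no (.red [.f 808 1 3, .t 681 1 3, .f 808 3 5, .f 816 5 3, .f 688 3
  1] 103 136 [2, 2, 4] [(102, 101, [3]), (103, 136, [2, 2, 4]), (118, 119, [4])]) (.br 811 (.con
  136 [2, 2, 4, 4, 1, 3]) (.con 136 [2, 2, 4, 4, 4]) (.use 87) (.con 136 [2, 2, 4, 4, 1, 4]) .no
  (.con 136 [2, 2, 4, 4, 4])) (.red [.f 689 5 1, .t 688 3 1, .f 696 1 3] 103 136 [2, 2, 4] [(103,
  136, [2, 2, 4]), (104, 136, [2, 2])])) .no (.hor [.f 808 1 3, .f 801 3 1, .f 808 3 1, .f 808 1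
  5] [(117, 136, [2, 4, 4, 4])]) (.red [.f 809 5 3, .f 810 3 1, .f 818 1 3] 119 136 [2, 4] [(118,
  136, [2, 4, 4]), (119, 136, [2, 4])]) .no) .no

def c27t822 : Tr4 :=
  .br 691 (.red [.f 691 1 3] 103 136 [2, 2, 4] [(103, 136, [2, 2, 4])]) (.con 136 [2, 2, 4, 4, 2])
  .no (.con 136 [2, 2, 4, 4, 4]) .no .no

def c27t823 : Tr4 :=
  .br 569 .no (.br 568 .no (.hor [.f 440 1 5] []) (.red [.t 576 4 1, .f 560 1 3] 87 136 [2, 2, 2,
  4] [(87, 136, [2, 2, 2, 4]), (88, 136, [2, 2, 2])]) .no .no .no) .no (.con 136 [2, 2, 4, 4, 2,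
  3]) .no (.red [.f 568 5 1, .f 560 1 3] 87 136 [2, 2, 2, 4] [(87, 136, [2, 2, 2, 4])])

def c27t824 : Tr4 :=
  .br 811 (.con 136 [2, 2, 4, 4, 1, 3]) (.con 136 [2, 2, 4, 4, 4]) (.use 87) (.con 136 [2, 2, 4,
  4, 1, 4]) .no (.con 136 [2, 2, 4, 4, 4])

def c27t825 : Tr4 :=
  .br 696 .no (.use 818) .no (.use 821) (.br 698 .no (.br 809 .no (.br 690 .no (.use 820) .no
  (.use 822) (.br 688 .no (.use 823) .no (.con 136 [2, 2, 4, 4, 2]) (.use 824) .no) (.use 125))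
  .no (.hor [.f 808 1 3, .f 801 3 1, .f 808 3 1, .f 808 1 5] [(117, 136, [2, 4, 4, 4])]) (.red [.f
  809 5 3, .f 810 3 1, .f 818 1 3] 119 136 [2, 4] [(118, 136, [2, 4, 4]), (119, 136, [2, 4])])
  .no) .no (.red [.f 696 5 1, .t 697 1 4] 103 136 [2, 2, 4] [(103, 136, [2, 2, 4])]) .no .no) .no

def c27t826 : Tr4 :=
  .br 819 .no (.red [.f 691 1 3] 103 136 [2, 2, 4] [(103, 136, [2, 2, 4])]) .no (.br 691 .no (.br
  690 .no (.use 51) (.br 697 .no (.br 696 .no (.hor [.f 568 1 5] []) .no (.use 143) .no .no) .no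
  (.hor [.f 689 3 5] []) .no (.red [.f 696 5 1, .t 697 1 4] 103 136 [2, 2, 4] [(103, 136, [2, 2,
  4])])) (.use 146) .no (.use 815)) .no (.red [.f 683 3 1, .f 691 1 3] 103 136 [2, 2, 4] [(102,
  136, [2, 2, 4, 4]), (103, 136, [2, 2, 4])]) .no (.use 101)) .no .no

def c27t827 : Tr4 :=
  .br 691 .no (.use 814) .no (.red [.f 689 5 1, .f 683 3 1] 102 136 [2, 2, 4, 4] [(102, 136, [2,
  2, 4, 4])]) .no .no

def c27t828 : Tr4 :=
  .br 819 .no (.red [.f 689 5 1, .f 691 1 3] 103 136 [2, 2, 4] [(103, 136, [2, 2, 4])]) .no (.use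
  827) .no .no

def c27t829 : Tr4 :=
  .br 818 .no (.use 6) .no (.red [.f 810 3 1, .f 818 1 3] 119 136 [2, 4] [(118, 136, [2, 4, 4]),
  (119, 136, [2, 4])]) (.red [.t 954 2 4] 119 136 [2, 4] [(119, 136, [2, 4])]) (.br 698 .no (.br
  944 .no (.br 937 (.red [.f 937 1 3, .f 937 3 5, .f 817 5 1, .f 818 1 3] 119 136 [2, 4] [(119,
  136, [2, 4]), (134, 118, [1])]) (.red [.t 937 2 3, .f 818 1 3] 119 136 [2, 4] [(118, 136, [2, 4,
  4]), (119, 136, [2, 4])]) .no (.br 936 (.br 696 .no (.br 819 .no (.red [.f 691 1 3] 103 136 [2,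
  2, 4] [(103, 136, [2, 2, 4])]) .no (.br 690 .no (.use 51) .no (.use 137) (.use 79) (.use 827))
  .no .no) .no (.use 610) .no .no) (.br 696 .no (.br 809 .no (.br 690 .no (.use 820) .no (.use
  822) (.br 688 .no (.red [.f 560 1 3] 87 136 [2, 2, 2, 4] [(87, 136, [2, 2, 2, 4])]) .no (.con
  136 [2, 2, 4, 4, 2]) (.use 824) .no) (.use 828)) .no (.hor [.f 808 1 3, .f 801 3 1, .f 808 3 1,
  .f 808 1 5] [(117, 136, [2, 4, 4, 4])]) (.red [.f 809 5 3, .f 810 3 1, .f 818 1 3] 119 136 [2,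
  4] [(118, 136, [2, 4, 4]), (119, 136, [2, 4])]) .no) .no (.use 613) .no .no) .no (.hor [.f 928 3
  5] []) .no .no) .no (.br 696 .no (.br 819 .no (.red [.f 691 1 3] 103 136 [2, 2, 4] [(103, 136,
  [2, 2, 4])]) .no (.br 690 .no (.use 51) .no (.use 146) (.use 101) (.use 827)) .no .no) .no (.use
  615) .no .no)) .no (.use 293) .no .no) .no (.red [.t 704 1 4, .t 697 1 4] 103 136 [2, 2, 4]
  [(103, 136, [2, 2, 4]), (104, 136, [2, 2])]) .no .no)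

def c27t830 : Tr4 :=
  .br 937 (.red [.f 937 1 3, .f 937 3 5, .f 817 5 1, .f 818 1 3] 119 136 [2, 4] [(119, 136, [2,
  4]), (134, 118, [1])]) (.red [.t 937 2 3, .f 818 1 3] 119 136 [2, 4] [(118, 136, [2, 4, 4]),
  (119, 136, [2, 4])]) .no (.hor [.f 928 3 5] []) .no .no

def c27t831 : Tr4 :=
  .br 818 .no (.use 6) .no (.red [.f 810 3 1, .f 818 1 3] 119 136 [2, 4] [(118, 136, [2, 4, 4]),
  (119, 136, [2, 4])]) (.red [.t 954 2 4] 119 136 [2, 4] [(119, 136, [2, 4])]) (.use 830)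

def c27t832 : Tr4 :=
  .br 936 .no (.br 1065 (.br 818 .no (.use 6) .no (.hor [.f 808 1 3, .f 936 3 1, .f 944 1 5, .f
  810 3 1] [(134, 119, [4, 1])]) (.red [.t 954 2 4] 119 136 [2, 4] [(119, 136, [2, 4])]) (.br 819
  .no (.red [.f 691 1 3] 103 136 [2, 2, 4] [(103, 136, [2, 2, 4])]) .no (.br 937 .no (.hor [.f 808
  1 5] []) .no (.br 696 .no (.use 818) .no (.use 821) (.br 690 .no (.use 51) (.red [.f 696 5 1, .t
  697 1 4] 103 136 [2, 2, 4] [(103, 136, [2, 2, 4])]) (.use 63) (.use 87) (.red [.f 696 5 1, .f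
  689 5 1, .f 689 1 3] 103 136 [2, 2, 4] [(103, 136, [2, 2, 4])])) .no) .no .no) .no .no)) (.hor
  [.f 937 1 3, .f 937 3 5] [(134, 119, [4, 1])]) .no (.br 818 .no (.use 6) .no (.hor [.f 808 1 3,
  .f 936 3 1, .f 944 1 5, .f 810 3 1] [(134, 119, [4, 1])]) (.red [.t 954 2 4] 119 136 [2, 4]
  [(119, 136, [2, 4])]) (.br 937 .no (.hor [.f 808 1 5] []) .no (.br 696 .no (.use 818) .no (.use
  821) (.br 698 .no (.br 809 .no (.br 690 .no (.use 820) .no (.use 822) (.br 1075 (.br 1067 (.hor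
  [.f 929 3 1, .f 937 1 3, .f 1064 3 5] [(133, 119, [4, 1, 4]), (134, 119, [4, 1])]) (.br 688 .no
  (.use 823) .no (.con 136 [2, 2, 4, 4, 2]) (.br 811 .no (.con 136 [2, 2, 4, 4, 4]) (.use 87)
  (.con 136 [2, 2, 4, 4, 1, 4]) .no (.con 136 [2, 2, 4, 4, 4])) .no) .no (.hor [.f 929 3 1, .f 937
  1 3, .f 1064 3 5] [(133, 119, [4, 1, 4]), (134, 119, [4, 1])]) .no (.hor [.f 929 3 1, .f 937 1
  3, .f 1064 3 5] [(133, 119, [4, 1, 4]), (134, 119, [4, 1])])) .no .no (.hor [.f 929 3 1, .f 937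
  1 3, .f 1064 3 5] [(133, 119, [4, 1, 4]), (134, 119, [4, 1])]) .no .no) (.use 125)) .no (.hor
  [.f 808 1 3, .f 801 3 1, .f 808 3 1, .f 808 1 5] [(117, 136, [2, 4, 4, 4])]) (.red [.f 809 5 3,
  .f 810 3 1, .f 818 1 3] 119 136 [2, 4] [(118, 136, [2, 4, 4]), (119, 136, [2, 4])]) .no) .no
  (.red [.f 696 5 1, .t 697 1 4] 103 136 [2, 2, 4] [(103, 136, [2, 2, 4])]) .no .no) .no) .no
  .no)) (.hor [.f 808 1 3, .f 808 3 1, .t 945 1 4, .f 1064 3 5] [(134, 119, [4, 1])]) .no) .no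
  (.use 831) (.hor [.t 1072 4 2, .f 937 3 5] [(134, 119, [4, 1])]) .no

def c27t833 : Tr4 :=
  .br 818 .no (.use 6) .no (.hor [.f 808 1 3, .f 936 3 1, .f 944 1 5, .f 810 3 1] [(134, 119, [4,
  1])]) (.red [.t 954 2 4] 119 136 [2, 4] [(119, 136, [2, 4])]) .no

def c27t834 : Tr4 :=
  .br 811 (.con 136 [2, 2, 4, 4, 1, 3]) (.con 136 [2, 2, 4, 4, 1, 4]) (.use 87) (.con 136 [2, 2,
  4, 4, 1, 4]) .no (.con 136 [2, 2, 4, 4, 1, 4])

def c27t835 : Tr4 :=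
  .br 936 .no (.br 817 .no (.red [.t 704 1 4, .f 689 1 3] 103 136 [2, 2, 4] [(103, 136, [2, 2,
  4]), (104, 136, [2, 2])]) .no (.use 833) (.br 937 (.red [.f 937 1 3, .f 937 3 5, .f 817 5 1, .f
  818 1 3] 119 136 [2, 4] [(119, 136, [2, 4]), (134, 118, [1])]) (.hor [.f 808 1 5] []) .no (.br
  698 .no (.br 696 .no (.br 809 .no (.br 690 .no (.use 820) .no (.use 822) (.use 834) (.use 828))
  .no (.hor [.f 808 1 3, .f 801 3 1, .f 808 3 1, .f 808 1 5] [(117, 136, [2, 4, 4, 4])]) (.red [.f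
  809 5 3, .f 810 3 1, .f 818 1 3] 119 136 [2, 4] [(118, 136, [2, 4, 4]), (119, 136, [2, 4])])
  .no) .no (.use 613) .no .no) .no (.red [.t 704 1 4, .t 697 1 4] 103 136 [2, 2, 4] [(103, 136,
  [2, 2, 4]), (104, 136, [2, 2])]) .no .no) .no .no) .no) .no (.use 831) (.hor [.t 1072 4 2, .f
  937 3 5] [(134, 119, [4, 1])]) .no

def c27t836 : Tr4 :=
  .br 818 .no (.br 691 (.hor [.f 690 1 5] []) (.con 136 [2, 4, 2, 4]) .no (.con 136 [2, 4, 2, 4])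
  .no .no) .no (.hor [.f 809 3 5] []) (.red [.t 954 2 4] 119 136 [2, 4] [(119, 136, [2, 4])]) .no

def c27t837 : Tr4 :=
  .br 809 .no (.br 819 .no (.red [.f 691 1 3] 103 136 [2, 4, 2] [(103, 136, [2, 4, 2])]) .no (.br
  690 .no (.use 51) .no (.con 136 [2, 4, 2, 4, 4]) (.use 87) (.red [.f 689 5 1, .f 689 1 3] 103
  136 [2, 4, 2] [(103, 136, [2, 4, 2])])) .no .no) .no (.hor [.f 808 1 3, .f 801 3 1, .f 808 3 1,
  .f 808 1 5] [(117, 136, [2, 4, 4, 4])]) (.red [.f 809 5 3, .f 810 3 1, .f 818 1 3] 119 136 [2,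
  4] [(118, 136, [2, 4, 4]), (119, 136, [2, 4])]) .no

def c27t838 : Tr4 :=
  .br 819 .no (.red [.f 691 1 3] 103 136 [2, 4, 2] [(103, 136, [2, 4, 2])]) .no (.use 404) .no
  (.red [.t 954 2 4] 119 136 [2, 4] [(119, 136, [2, 4])])

def c27l25 : List Tr4 :=
  [c27t812, c27t813, c27t814, c27t815, c27t816, c27t817, c27t818, c27t819, c27t820, c27t821,
  c27t822, c27t823, c27t824, c27t825, c27t826, c27t827, c27t828, c27t829, c27t830, c27t831,
  c27t832, c27t833, c27t834, c27t835, c27t836, c27t837, c27t838]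

theorem c27k25 : chkLF ⟨4, 1, 0, true, -8⟩ false 7 c27N 812 c27l25 = true := by decide +kernel

def c27t839 : Tr4 :=
  .br 1072 (.br 825 .no (.br 944 .no (.br 817 .no (.red [.f 689 1 3] 103 136 [2, 2, 4] [(103, 136,
  [2, 2, 4])]) .no (.use 836) (.br 698 .no (.br 937 (.red [.f 937 1 3, .f 937 3 5, .f 817 5 1, .f
  818 1 3] 119 136 [2, 4] [(119, 136, [2, 4]), (134, 118, [1])]) (.red [.t 937 2 3, .f 818 1 3]
  119 136 [2, 4] [(118, 136, [2, 4, 4]), (119, 136, [2, 4])]) .no (.br 936 (.br 819 .no (.red [.f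
  691 1 3] 103 136 [2, 2, 4] [(103, 136, [2, 2, 4])]) .no (.br 690 .no (.use 51) .no (.use 137)
  (.use 79) (.red [.f 689 5 1, .f 689 1 3] 103 136 [2, 2, 4] [(103, 136, [2, 2, 4])])) .no .no)
  (.use 837) .no (.use 830) .no .no) .no (.br 819 .no (.red [.f 691 1 3] 103 136 [2, 2, 4] [(103,
  136, [2, 2, 4])]) .no (.br 690 .no (.use 51) .no (.use 146) (.use 101) (.red [.f 689 5 1, .f 689
  1 3] 103 136 [2, 2, 4] [(103, 136, [2, 2, 4])])) .no .no)) .no (.red [.t 697 1 4] 103 136 [2, 2,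
  4] [(103, 136, [2, 2, 4])]) .no .no) .no) .no (.br 817 .no (.red [.f 689 1 3] 103 136 [2, 2, 4]
  [(103, 136, [2, 2, 4])]) .no (.use 836) (.br 816 .no (.use 292) .no (.use 1) .no .no) (.use
  838)) .no .no) .no (.use 538) .no .no) (.hor [.f 944 1 5] []) .no (.br 944 .no (.br 825 .no (.br
  817 .no (.red [.f 689 1 3] 103 136 [2, 2, 4] [(103, 136, [2, 2, 4])]) .no (.use 836) (.br 936
  .no (.br 698 .no (.br 937 (.red [.f 937 1 3, .f 937 3 5, .f 817 5 1, .f 818 1 3] 119 136 [2, 4]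
  [(119, 136, [2, 4]), (134, 118, [1])]) (.hor [.f 808 1 5] []) .no (.use 837) .no .no) .no (.red
  [.t 697 1 4] 103 136 [2, 2, 4] [(103, 136, [2, 2, 4])]) .no .no) .no (.use 830) (.red [.t 1072 4
  2, .f 937 3 5, .f 817 5 1, .f 818 1 3] 119 136 [2, 4] [(119, 136, [2, 4]), (134, 118, [1])])
  .no) .no) .no (.dom 119 136 [2, 4]) .no .no) .no (.hor [.f 936 3 1, .f 944 1 5] [(134, 118,
  [1])]) .no .no) .no .no

def c27t840 : Tr4 :=
  .br 944 .no (.use 645) .no (.hor [.f 936 3 1, .f 944 1 5] [(134, 119, [1, 4])]) .no .no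

def c27t841 : Tr4 :=
  .br 1072 (.use 598) (.hor [.f 944 1 5] []) .no (.use 840) .no .no

def c27t842 : Tr4 :=
  .br 691 (.red [.f 691 1 3] 103 136 [2, 2, 4] [(103, 136, [2, 2, 4])]) (.use 62) .no (.hor [.f
  682 3 5] []) .no .no

def c27t843 : Tr4 :=
  .br 811 (.con 136 [2, 4, 2, 4, 1, 3]) (.con 136 [2, 4, 2, 4, 1, 3]) (.use 79) (.con 136 [2, 4,
  2, 4, 1, 3]) .no (.con 136 [2, 4, 2, 4, 1, 3])

def c27t844 : Tr4 :=
  .br 697 .no (.hor [.f 569 1 5] []) .no (.con 136 [2, 2, 2, 4]) .no .no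

def c27t845 : Tr4 :=
  .br 704 .no (.hor [.f 576 1 5] []) (.br 697 .no (.hor [.f 569 1 5] []) .no (.use 123) .no (.br
  690 .no (.use 820) .no (.use 842) (.use 843) (.use 125))) (.use 844) .no .no

def c27t846 : Tr4 :=
  .br 691 (.red [.f 691 1 3] 103 136 [2, 2, 4] [(103, 136, [2, 2, 4])]) (.br 688 .no (.red [.f 560
  1 3] 87 136 [2, 2, 4, 2] [(87, 136, [2, 2, 4, 2])]) .no (.con 136 [2, 2, 4, 2, 4]) (.con 136 [2,
  2, 4, 2, 4]) .no) .no (.hor [.f 682 3 5] []) .no .no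

def c27t847 : Tr4 :=
  .br 691 .no (.con 136 [2, 2, 4, 2, 4]) .no (.red [.f 689 5 1, .f 683 3 1] 102 136 [2, 2, 4, 4]
  [(102, 136, [2, 2, 4, 4])]) .no .no

def c27t848 : Tr4 :=
  .br 819 .no (.red [.f 689 5 1, .f 691 1 3] 103 136 [2, 2, 4] [(103, 136, [2, 2, 4])]) .no (.br
  688 .no (.red [.f 560 1 3] 87 136 [2, 2, 4, 2] [(87, 136, [2, 2, 4, 2])]) .no (.use 847) .no
  .no) .no .no

def c27t849 : Tr4 :=
  .br 690 .no (.use 820) .no (.use 846) (.use 843) (.use 848)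

def c27t850 : Tr4 :=
  .br 696 .no (.use 849) .no (.use 610) .no .no

def c27t851 : Tr4 :=
  .br 704 .no (.use 611) (.use 850) (.hor [.f 696 3 5] []) .no .no

def c27t852 : Tr4 :=
  .br 696 .no (.use 849) .no (.use 610) (.br 690 .no (.use 820) .no (.use 842) (.use 843) (.red
  [.f 696 5 3, .f 689 5 1, .f 696 3 5, .f 696 5 1, .f 689 1 3] 103 136 [2, 2, 4] [(103, 136, [2,
  2, 4])])) .no

def c27t853 : Tr4 :=
  .br 704 .no (.hor [.f 576 1 5] []) (.use 632) (.br 697 .no (.red [.f 569 1 3] 88 136 [2, 2, 2]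
  [(88, 136, [2, 2, 2])]) .no (.use 134) (.use 604) .no) .no .no

def c27t854 : Tr4 :=
  .br 690 .no (.use 820) .no (.use 846) (.use 834) (.use 848)

def c27t855 : Tr4 :=
  .br 696 .no (.use 854) (.hor [.f 696 3 5] []) (.use 613) .no .no

def c27t856 : Tr4 :=
  .br 698 .no (.use 855) .no (.red [.f 824 5 3, .f 697 3 1, .t 697 1 4] 103 136 [2, 2, 4] [(103,
  136, [2, 2, 4]), (104, 136, [2, 2])]) .no .no

def c27t857 : Tr4 :=
  .br 705 .no (.use 853) .no (.use 856) .no (.use 186)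

def c27t858 : Tr4 :=
  .br 811 (.con 136 [2, 4, 2, 4, 1, 3]) (.con 136 [2, 4, 2, 4, 1, 3]) (.use 101) (.con 136 [2, 4,
  2, 4, 1, 3]) .no (.con 136 [2, 4, 2, 4, 1, 3])

def c27t859 : Tr4 :=
  .br 697 .no (.hor [.f 569 1 5] []) .no (.use 123) .no (.br 690 .no (.use 820) .no (.use 842)
  (.use 858) (.use 125))

def c27t860 : Tr4 :=
  .br 704 .no (.hor [.f 576 1 5] []) (.use 859) (.use 844) .no .no

def c27t861 : Tr4 :=
  .br 690 .no (.use 820) .no (.use 846) (.use 858) (.use 848)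

def c27t862 : Tr4 :=
  .br 696 .no (.use 861) (.hor [.f 696 3 5] []) (.use 615) .no .no

def c27t863 : Tr4 :=
  .br 696 .no (.use 861) .no (.use 615) (.br 690 .no (.use 820) .no (.use 842) (.use 858) (.red
  [.f 696 5 3, .f 689 5 1, .f 696 3 5, .f 696 5 1, .f 689 1 3] 103 136 [2, 2, 4] [(103, 136, [2,
  2, 4])])) .no

def c27t864 : Tr4 :=
  .br 819 .no (.red [.f 691 1 3, .f 690 3 5] 103 136 [2, 2, 4] [(103, 136, [2, 2, 4])]) .no (.use
  144) .no .no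

def c27t865 : Tr4 :=
  .br 704 .no (.hor [.f 576 1 5] []) (.use 864) (.red [.f 569 1 3] 88 136 [2, 2, 2] [(88, 136, [2,
  2, 2])]) .no .no

def c27t866 : Tr4 :=
  .br 819 .no (.red [.f 691 1 3, .f 690 3 5] 103 136 [2, 2, 4] [(103, 136, [2, 2, 4])]) .no (.use
  143) .no .no

def c27t867 : Tr4 :=
  .br 696 .no (.hor [.f 568 1 5] []) .no (.use 866) .no .no

def c27t868 : Tr4 :=
  .br 698 .no (.br 705 .no (.use 860) .no (.use 862) .no (.use 863)) .no (.br 697 .no (.br 705 .no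
  (.use 865) .no .no .no (.use 867)) (.red [.f 824 5 3, .f 697 3 1, .t 697 1 4] 103 136 [2, 2, 4]
  [(103, 136, [2, 2, 4]), (104, 136, [2, 2])]) (.hor [.f 689 3 5] []) .no (.red [.f 696 5 1, .t
  697 1 4] 103 136 [2, 2, 4] [(103, 136, [2, 2, 4])])) .no (.use 607)

def c27t869 : Tr4 :=
  .br 937 (.red [.f 937 1 3, .f 937 3 5, .f 817 5 1, .f 818 1 3] 119 136 [2, 4] [(119, 136, [2,
  4]), (134, 118, [1])]) (.red [.t 937 2 3, .f 818 1 3] 119 136 [2, 4] [(118, 136, [2, 4, 4]),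
  (119, 136, [2, 4])]) .no (.br 936 (.br 1065 (.br 698 .no (.br 705 .no (.use 845) .no (.use 851)
  .no (.use 852)) .no (.br 705 .no (.br 697 .no (.br 696 .no (.hor [.f 568 1 5] []) (.red [.f 569
  1 3] 88 136 [2, 2, 2] [(88, 136, [2, 2, 2])]) (.use 805) .no .no) .no (.hor [.f 689 3 5] []) .no
  (.red [.f 696 5 1, .t 697 1 4] 103 136 [2, 2, 4] [(103, 136, [2, 2, 4])])) .no (.red [.f 824 5
  3, .f 697 3 1, .t 697 1 4] 103 136 [2, 2, 4] [(103, 136, [2, 2, 4]), (104, 136, [2, 2])]) .no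
  (.use 801)) .no (.use 600)) .no .no (.hor [.f 929 3 1, .f 936 1 5] [(133, 119, [4, 4, 1])])
  (.red [.t 945 1 4, .f 817 5 1, .f 818 1 3] 119 136 [2, 4] [(119, 136, [2, 4]), (134, 118, [1])])
  .no) (.use 857) .no (.use 830) .no .no) .no (.use 868)

def c27t870 : Tr4 :=
  .br 818 .no (.use 6) .no (.red [.f 810 3 1, .f 818 1 3] 119 136 [2, 4] [(118, 136, [2, 4, 4]),
  (119, 136, [2, 4])]) (.red [.f 824 5 3, .t 954 2 4] 119 136 [2, 4] [(119, 136, [2, 4])]) (.br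
  944 .no (.use 869) .no (.use 293) .no .no)

def c27t871 : Tr4 :=
  .br 1337 (.hor [.f 1337 1 5] []) .no .no (.use 637) .no (.con 136 [1, 1, 4, 2, 2, 2])

def c27t872 : Tr4 :=
  .br 937 (.red [.f 937 1 3, .f 937 3 5, .f 817 5 1, .f 818 1 3] 119 136 [2, 4] [(119, 136, [2,
  4]), (134, 118, [1])]) (.red [.t 937 2 3, .f 818 1 3] 119 136 [2, 4] [(118, 136, [2, 4, 4]),
  (119, 136, [2, 4])]) .no (.use 871) .no .no

def c27t873 : Tr4 :=
  .br 937 (.red [.f 937 1 3, .f 937 3 5, .f 817 5 1, .f 818 1 3] 119 136 [2, 4] [(119, 136, [2,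
  4]), (134, 118, [1])]) (.hor [.f 808 1 5] []) .no (.use 857) .no .no

def c27t874 : Tr4 :=
  .br 937 .no (.red [.t 937 2 3, .f 818 1 3] 119 136 [2, 4] [(118, 136, [2, 4, 4]), (119, 136, [2,
  4])]) .no (.use 843) .no .no

def c27t875 : Tr4 :=
  .br 696 .no (.hor [.f 568 1 5] []) .no (.br 576 .no (.br 819 .no (.red [.f 691 1 3, .f 690 3 5]
  103 136 [2, 2, 4] [(103, 136, [2, 2, 4])]) .no (.br 691 .no (.br 570 .no (.br 809 (.red [.t 937
  2 3, .f 818 1 3] 119 136 [2, 4] [(118, 136, [2, 4, 4]), (119, 136, [2, 4])]) (.use 57) .no (.use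
  142) (.red [.f 809 5 3, .f 810 3 5, .t 954 2 4] 119 136 [2, 4] [(119, 136, [2, 4])]) (.use 804))
  (.hor [.f 569 1 3, .f 569 3 5] [(88, 136, [2, 2, 2])]) (.hor [.f 562 3 1, .f 562 1 5] [(87, 103,
  [2])]) (.hor [.t 690 3 2, .f 569 1 5] [(87, 103, [2])]) .no) .no (.red [.f 683 3 1, .f 691 1 3,
  .f 690 3 5] 103 136 [2, 2, 4] [(102, 136, [2, 2, 4, 4]), (103, 136, [2, 2, 4])]) .no .no) .no
  .no) (.hor [.f 576 3 1, .f 576 1 5] [(89, 103, [2, 3, 3])]) (.hor [.f 569 1 3, .f 568 3 5] [(88,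
  136, [2, 2, 2])]) .no .no) .no .no

def c27t876 : Tr4 :=
  .br 697 .no (.use 875) .no (.hor [.f 689 3 5] []) .no (.red [.f 696 5 1, .t 697 1 4] 103 136 [2,
  2, 4] [(103, 136, [2, 2, 4])])

def c27t877 : Tr4 :=
  .br 937 .no (.red [.t 937 2 3, .f 818 1 3] 119 136 [2, 4] [(118, 136, [2, 4, 4]), (119, 136, [2,
  4])]) .no (.use 600) .no .no

def c27t878 : Tr4 :=
  .br 937 .no (.red [.t 937 2 3, .f 818 1 3] 119 136 [2, 4] [(118, 136, [2, 4, 4]), (119, 136, [2,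
  4])]) .no (.use 600) .no .no

def c27t879 : Tr4 :=
  .br 1065 (.use 877) (.red [.f 937 1 3, .f 937 3 5, .f 817 5 1, .f 818 1 3] 119 136 [2, 4] [(119,
  136, [2, 4]), (134, 118, [1])]) .no (.use 878) (.red [.t 945 1 4, .f 817 5 1, .f 818 1 3] 119
  136 [2, 4] [(119, 136, [2, 4]), (134, 118, [1])]) .no

def c27t880 : Tr4 :=
  .br 704 .no (.hor [.f 576 1 5] []) (.br 1065 (.br 698 .no (.br 697 .no (.hor [.f 569 1 5] [])
  .no (.use 123) .no (.br 690 .no (.use 820) .no (.use 842) (.use 874) (.use 125))) .no (.use 876)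
  .no (.use 877)) (.red [.f 937 1 3, .f 937 3 5, .f 817 5 1, .f 818 1 3] 119 136 [2, 4] [(119,
  136, [2, 4]), (134, 118, [1])]) .no (.br 698 .no (.br 697 .no (.hor [.f 569 1 5] []) .no (.use
  123) .no (.br 690 .no (.use 820) .no (.use 842) (.br 937 .no (.red [.t 937 2 3, .f 818 1 3] 119
  136 [2, 4] [(118, 136, [2, 4, 4]), (119, 136, [2, 4])]) .no (.use 843) .no .no) (.use 125))) .no
  (.use 876) .no (.use 878)) (.red [.t 945 1 4, .f 817 5 1, .f 818 1 3] 119 136 [2, 4] [(119, 136,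
  [2, 4]), (134, 118, [1])]) .no) (.br 697 .no (.red [.f 569 1 3] 88 136 [2, 2, 2] [(88, 136, [2,
  2, 2])]) .no (.use 134) (.use 879) .no) .no .no

def c27t881 : Tr4 :=
  .br 1065 (.br 937 .no (.red [.t 937 2 3, .f 818 1 3] 119 136 [2, 4] [(118, 136, [2, 4, 4]),
  (119, 136, [2, 4])]) .no (.use 610) .no .no) (.red [.f 937 1 3, .f 937 3 5, .f 817 5 1, .f 818 1
  3] 119 136 [2, 4] [(119, 136, [2, 4]), (134, 118, [1])]) .no (.br 937 .no (.red [.t 937 2 3, .f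
  818 1 3] 119 136 [2, 4] [(118, 136, [2, 4, 4]), (119, 136, [2, 4])]) .no (.use 610) .no .no)
  (.red [.t 945 1 4, .f 817 5 1, .f 818 1 3] 119 136 [2, 4] [(119, 136, [2, 4]), (134, 118, [1])])
  .no

def c27t882 : Tr4 :=
  .br 698 .no (.br 704 .no (.br 696 .no (.hor [.f 568 1 3, .f 696 3 5] [(88, 87, [3])]) .no (.use
  881) .no .no) (.br 937 (.red [.f 937 1 3, .f 937 3 5, .f 817 5 1, .f 818 1 3] 119 136 [2, 4]
  [(119, 136, [2, 4]), (134, 118, [1])]) (.red [.t 937 2 3, .f 818 1 3] 119 136 [2, 4] [(118, 136,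
  [2, 4, 4]), (119, 136, [2, 4])]) .no (.use 850) .no .no) (.hor [.f 696 3 5] []) .no .no) .no
  (.red [.f 824 5 3, .f 697 3 1, .t 697 1 4] 103 136 [2, 2, 4] [(103, 136, [2, 2, 4]), (104, 136,
  [2, 2])]) .no .no

def c27t883 : Tr4 :=
  .br 937 (.red [.f 937 1 3, .f 937 3 5, .f 817 5 1, .f 818 1 3] 119 136 [2, 4] [(119, 136, [2,
  4]), (134, 118, [1])]) (.red [.t 937 2 3, .f 818 1 3] 119 136 [2, 4] [(118, 136, [2, 4, 4]),
  (119, 136, [2, 4])]) .no (.use 852) .no .no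

def c27t884 : Tr4 :=
  .br 937 (.red [.f 937 1 3, .f 937 3 5, .f 817 5 1, .f 818 1 3] 119 136 [2, 4] [(119, 136, [2,
  4]), (134, 118, [1])]) (.red [.t 937 2 3, .f 818 1 3] 119 136 [2, 4] [(118, 136, [2, 4, 4]),
  (119, 136, [2, 4])]) .no (.use 643) .no .no

def c27t885 : Tr4 :=
  .br 698 .no (.use 883) .no (.br 697 .no (.use 884) .no (.hor [.f 689 3 5] []) .no (.red [.f 696
  5 3, .f 696 3 5, .f 696 5 1, .t 697 1 4] 103 136 [2, 2, 4] [(103, 136, [2, 2, 4])])) .no (.use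
  879)

def c27l26 : List Tr4 :=
  [c27t839, c27t840, c27t841, c27t842, c27t843, c27t844, c27t845, c27t846, c27t847, c27t848,
  c27t849, c27t850, c27t851, c27t852, c27t853, c27t854, c27t855, c27t856, c27t857, c27t858,
  c27t859, c27t860, c27t861, c27t862, c27t863, c27t864, c27t865, c27t866, c27t867, c27t868,
  c27t869, c27t870, c27t871, c27t872, c27t873, c27t874, c27t875, c27t876, c27t877, c27t878,
  c27t879, c27t880, c27t881, c27t882, c27t883, c27t884, c27t885]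

theorem c27k26 : chkLF ⟨4, 1, 0, true, -8⟩ false 7 c27N 839 c27l26 = true := by decide +kernel

def c27t886 : Tr4 :=
  .br 705 .no (.br 944 .no (.br 936 (.use 880) (.use 873) .no (.use 830) (.use 868) .no) .no (.use
  293) .no .no) .no (.br 944 .no (.br 936 (.use 882) (.use 873) .no (.use 830) (.use 868) .no) .no
  (.use 293) .no .no) .no (.br 944 .no (.br 936 (.use 885) (.use 873) .no (.use 830) (.use 868)
  .no) .no (.use 293) .no .no)

def c27t887 : Tr4 :=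
  .br 818 .no (.use 6) .no (.red [.f 810 3 1, .f 818 1 3] 119 136 [2, 4] [(118, 136, [2, 4, 4]),
  (119, 136, [2, 4])]) (.red [.f 824 5 3, .t 954 2 4] 119 136 [2, 4] [(119, 136, [2, 4])]) (.use
  886)

def c27t888 : Tr4 :=
  .br 696 .no (.use 849) .no (.use 610) (.br 690 .no (.use 820) .no (.use 842) (.use 843) (.red
  [.f 696 5 1, .f 689 5 1, .f 689 1 3] 103 136 [2, 2, 4] [(103, 136, [2, 2, 4])])) .no

def c27t889 : Tr4 :=
  .br 697 .no (.hor [.f 569 1 5] []) .no (.con 136 [2, 2, 2, 4]) .no .no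

def c27t890 : Tr4 :=
  .br 704 .no (.use 888) (.hor [.f 704 3 5] []) (.use 889) .no .no

def c27t891 : Tr4 :=
  .br 689 .no (.hor [.f 561 1 3, .f 688 3 5] [(87, 86, [3])]) .no (.br 568 .no (.use 803) .no
  (.hor [.f 560 3 1, .f 568 1 5] [(87, 103, [2])]) .no .no) .no .no

def c27t892 : Tr4 :=
  .br 819 .no (.red [.f 691 1 3, .f 690 3 5] 103 136 [2, 2, 4] [(103, 136, [2, 2, 4])]) .no (.br
  809 .no (.use 57) .no (.use 142) (.red [.f 809 5 3, .f 810 3 5, .t 954 2 4] 119 136 [2, 4]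
  [(119, 136, [2, 4])]) (.br 1201 (.br 691 .no (.br 570 .no (.use 891) (.use 629) (.hor [.f 562 3
  1, .f 562 1 5] [(87, 103, [2])]) (.hor [.t 690 3 2, .f 569 1 5] [(87, 103, [2])]) .no) .no (.red
  [.f 683 3 1, .f 691 1 3, .f 690 3 5] 103 136 [2, 2, 4] [(102, 136, [2, 2, 4, 4]), (103, 136, [2,
  2, 4])]) .no .no) .no .no .no (.red [.t 1081 1 4, .t 961 4 1, .f 945 1 3] 136 136 [] [(135, 136,
  [4]), (136, 136, []), (151, 135, [1])]) .no)) .no .no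

def c27t893 : Tr4 :=
  .br 577 .no (.br 576 .no (.hor [.f 448 1 5] []) (.br 819 .no (.red [.f 691 1 3, .f 690 3 5] 103
  136 [2, 2, 4] [(103, 136, [2, 2, 4])]) .no (.br 578 .no (.hor [.f 449 1 5] []) (.con 136 [2, 2,
  2, 2, 3]) (.red [.f 832 5 3, .f 705 3 1, .f 705 1 5, .t 569 1 3] 88 136 [2, 2, 2] [(88, 136, [2,
  2, 2]), (105, 88, [1, 3])]) (.con 136 [2, 2, 2, 2, 3]) .no) .no .no) (.red [.f 568 3 1, .f 568 1
  5] 88 136 [2, 2, 2] [(88, 136, [2, 2, 2])]) .no .no) (.red [.f 577 3 1, .f 569 1 3] 88 136 [2,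
  2, 2] [(88, 136, [2, 2, 2]), (89, 136, [2, 2, 2, 3])]) .no (.red [.f 832 5 3, .f 705 3 1, .f 705
  1 5, .f 577 5 1, .f 569 1 3] 88 136 [2, 2, 2] [(88, 136, [2, 2, 2]), (105, 88, [1, 3])]) (.red
  [.t 696 3 2] 88 136 [2, 2, 2] [(88, 136, [2, 2, 2])])

def c27t894 : Tr4 :=
  .br 704 .no (.br 696 .no (.use 854) .no (.use 613) (.br 690 .no (.use 820) .no (.use 842) (.use
  834) (.red [.f 696 5 1, .f 689 5 1, .f 689 1 3] 103 136 [2, 2, 4] [(103, 136, [2, 2, 4])])) .no)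
  (.hor [.f 704 3 5] []) (.use 889) .no .no

def c27t895 : Tr4 :=
  .br 705 .no (.use 853) (.br 698 .no (.use 894) .no (.br 697 .no (.br 696 .no (.hor [.f 568 1 5]
  []) (.use 893) (.use 819) .no .no) .no (.hor [.f 689 3 5] []) .no (.red [.f 696 5 1, .t 697 1 4]
  103 136 [2, 2, 4] [(103, 136, [2, 2, 4])])) .no (.use 604)) (.use 856) .no (.use 186)

def c27t896 : Tr4 :=
  .br 690 .no (.use 820) .no (.use 842) (.use 858) (.red [.f 696 5 1, .f 689 5 1, .f 689 1 3] 103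
  136 [2, 2, 4] [(103, 136, [2, 2, 4])])

def c27t897 : Tr4 :=
  .br 705 .no (.use 860) (.br 704 .no (.br 696 .no (.use 861) .no (.use 615) (.use 896) .no) (.hor
  [.f 704 3 5] []) (.use 889) .no .no) (.use 862) .no (.use 863)

def c27t898 : Tr4 :=
  .br 705 .no (.use 865) (.br 696 .no (.hor [.f 568 1 5] []) (.use 893) (.use 866) .no .no) .no
  .no (.use 867)

def c27t899 : Tr4 :=
  .br 698 .no (.use 897) .no (.br 697 .no (.use 898) (.red [.f 824 5 3, .f 697 3 1, .t 697 1 4]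
  103 136 [2, 2, 4] [(103, 136, [2, 2, 4]), (104, 136, [2, 2])]) (.hor [.f 689 3 5] []) .no (.red
  [.f 696 5 1, .t 697 1 4] 103 136 [2, 2, 4] [(103, 136, [2, 2, 4])])) .no (.use 607)

def c27t900 : Tr4 :=
  .br 937 (.red [.f 937 1 3, .f 937 3 5, .f 817 5 1, .f 818 1 3] 119 136 [2, 4] [(119, 136, [2,
  4]), (134, 118, [1])]) (.red [.t 937 2 3, .f 818 1 3] 119 136 [2, 4] [(118, 136, [2, 4, 4]),
  (119, 136, [2, 4])]) .no (.br 936 (.br 1065 (.br 705 .no (.use 880) (.br 698 .no (.use 890) .no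
  (.br 697 .no (.br 704 .no (.br 696 .no (.hor [.f 568 1 5] []) .no (.use 892) .no .no) (.hor [.f
  704 3 5] []) (.use 893) .no .no) .no (.hor [.f 689 3 5] []) .no (.red [.f 696 5 1, .t 697 1 4]
  103 136 [2, 2, 4] [(103, 136, [2, 2, 4])])) .no (.use 600)) (.use 882) .no (.br 698 .no (.use
  852) .no (.use 801) .no (.use 600))) .no .no (.hor [.f 929 3 1, .f 936 1 5] [(133, 119, [4, 4,
  1])]) (.red [.t 945 1 4, .f 817 5 1, .f 818 1 3] 119 136 [2, 4] [(119, 136, [2, 4]), (134, 118,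
  [1])]) .no) (.use 895) .no (.use 830) .no .no) .no (.use 899)

def c27t901 : Tr4 :=
  .br 818 .no (.use 6) .no (.red [.f 810 3 1, .f 818 1 3] 119 136 [2, 4] [(118, 136, [2, 4, 4]),
  (119, 136, [2, 4])]) (.red [.f 824 5 3, .t 954 2 4] 119 136 [2, 4] [(119, 136, [2, 4])]) (.br
  944 .no (.use 900) .no (.use 293) .no .no)

def c27t902 : Tr4 :=
  .br 937 (.red [.f 937 1 3, .f 937 3 5, .f 817 5 1, .f 818 1 3] 119 136 [2, 4] [(119, 136, [2,
  4]), (134, 118, [1])]) (.hor [.f 808 1 5] []) .no (.use 895) .no .no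

def c27t903 : Tr4 :=
  .br 1065 (.br 819 .no (.red [.f 691 1 3, .f 690 3 5] 103 136 [2, 2, 4] [(103, 136, [2, 2, 4])])
  .no (.br 809 .no (.use 57) .no (.use 142) (.red [.f 809 5 3, .f 810 3 5, .t 954 2 4] 119 136 [2,
  4] [(119, 136, [2, 4])]) (.br 1201 (.br 691 .no (.br 570 .no (.use 891) (.use 642) (.hor [.f 562
  3 1, .f 562 1 5] [(87, 103, [2])]) (.hor [.t 690 3 2, .f 569 1 5] [(87, 103, [2])]) .no) .no
  (.red [.f 683 3 1, .f 691 1 3, .f 690 3 5] 103 136 [2, 2, 4] [(102, 136, [2, 2, 4, 4]), (103,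
  136, [2, 2, 4])]) .no .no) .no .no .no (.red [.t 1081 1 4, .t 961 4 1, .f 945 1 3] 136 136 []
  [(135, 136, [4]), (136, 136, []), (151, 135, [1])]) .no)) .no .no) .no .no (.hor [.f 929 3 1, .f
  936 1 5] [(133, 119, [1, 4, 4])]) (.red [.t 945 1 4, .f 817 5 1, .f 818 1 3] 119 136 [2, 4]
  [(119, 136, [2, 4]), (134, 118, [1])]) .no

def c27t904 : Tr4 :=
  .br 944 .no (.br 936 (.br 705 .no (.use 880) (.br 698 .no (.br 704 .no (.br 937 (.red [.f 937 1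
  3, .f 937 3 5, .f 817 5 1, .f 818 1 3] 119 136 [2, 4] [(119, 136, [2, 4]), (134, 118, [1])])
  (.red [.t 937 2 3, .f 818 1 3] 119 136 [2, 4] [(118, 136, [2, 4, 4]), (119, 136, [2, 4])]) .no
  (.use 888) .no .no) (.hor [.f 704 3 5] []) (.use 889) .no .no) .no (.br 697 .no (.br 704 .no
  (.br 696 .no (.hor [.f 568 1 5] []) .no (.br 937 (.red [.f 937 1 3, .f 937 3 5, .f 817 5 1, .f
  818 1 3] 119 136 [2, 4] [(119, 136, [2, 4]), (134, 118, [1])]) (.red [.t 937 2 3, .f 818 1 3]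
  119 136 [2, 4] [(118, 136, [2, 4, 4]), (119, 136, [2, 4])]) .no (.use 903) .no .no) .no .no)
  (.hor [.f 704 3 5] []) (.use 893) .no .no) .no (.hor [.f 689 3 5] []) .no (.red [.f 696 5 1, .t
  697 1 4] 103 136 [2, 2, 4] [(103, 136, [2, 2, 4])])) .no (.use 879)) (.use 882) .no (.use 885))
  (.use 902) .no (.use 830) (.use 899) .no) .no (.use 293) .no .no

def c27t905 : Tr4 :=
  .br 818 .no (.use 6) .no (.red [.f 810 3 1, .f 818 1 3] 119 136 [2, 4] [(118, 136, [2, 4, 4]),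
  (119, 136, [2, 4])]) (.red [.f 824 5 3, .t 954 2 4] 119 136 [2, 4] [(119, 136, [2, 4])]) (.use
  904)

def c27t906 : Tr4 :=
  .br 841 .no (.use 887) (.hor [.f 841 3 1, .f 841 1 5] [(122, 119, [3, 3, 3])]) .no .no (.use
  905)

def c27t907 : Tr4 :=
  .br 944 .no (.br 936 .no (.br 817 .no (.br 697 .no (.br 696 .no (.hor [.f 568 1 5] []) (.br 705
  .no (.red [.f 569 1 3] 88 136 [2, 2, 2] [(88, 136, [2, 2, 2])]) (.br 698 .no (.use 889) .no (.br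
  818 .no .no .no (.hor [.f 808 1 3, .f 936 3 1, .f 944 1 5, .f 810 3 1] [(134, 119, [4, 1])])
  (.red [.t 698 4 1, .f 689 1 5] 103 136 [2, 2, 4] [(103, 136, [2, 2, 4])]) .no) .no .no) .no .no
  .no) (.red [.t 688 3 1] 103 136 [2, 2, 4] [(103, 136, [2, 2, 4])]) .no .no) (.red [.f 824 5 3,
  .f 697 3 1, .f 689 1 3] 103 136 [2, 2, 4] [(103, 136, [2, 2, 4]), (104, 136, [2, 2])]) .no (.red
  [.f 824 5 3, .t 833 4 2, .f 689 1 3] 103 136 [2, 2, 4] [(103, 136, [2, 2, 4]), (104, 136, [2,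
  2])]) (.red [.f 696 5 1, .f 689 1 3] 103 136 [2, 2, 4] [(103, 136, [2, 2, 4])])) .no (.use 833)
  (.br 841 .no (.use 873) (.hor [.f 841 3 1, .f 841 1 5] [(122, 119, [3, 3, 3])]) .no .no (.use
  902)) .no) .no (.use 831) (.hor [.t 1072 4 2, .f 937 3 5] [(134, 119, [4, 1])]) .no) .no (.hor
  [.f 936 3 1, .f 944 1 5] [(134, 118, [1])]) .no .no

def c27t908 : Tr4 :=
  .br 833 .no (.hor [.f 705 1 5] []) (.br 832 .no (.br 824 .no (.use 813) .no (.use 599) (.br 1072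
  (.br 705 .no (.br 840 .no (.hor [.f 704 1 3, .f 832 3 5] [(105, 104, [3])]) (.br 818 .no (.use
  6) .no (.red [.f 810 3 1, .f 818 1 3] 119 136 [2, 4] [(118, 136, [2, 4, 4]), (119, 136, [2,
  4])]) (.red [.t 954 2 4] 119 136 [2, 4] [(119, 136, [2, 4])]) (.br 944 .no (.br 937 (.red [.f
  937 1 3, .f 937 3 5, .f 817 5 1, .f 818 1 3] 119 136 [2, 4] [(119, 136, [2, 4]), (134, 118,
  [1])]) (.red [.t 937 2 3, .f 818 1 3] 119 136 [2, 4] [(118, 136, [2, 4, 4]), (119, 136, [2,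
  4])]) .no (.br 936 (.br 819 .no (.red [.f 691 1 3] 103 136 [2, 2, 4] [(103, 136, [2, 2, 4])])
  .no (.br 691 .no (.br 690 .no (.use 51) (.br 697 .no (.br 696 .no (.hor [.f 568 1 5] []) .no
  (.br 570 .no (.br 809 .no (.use 57) .no (.use 142) (.red [.f 809 5 3, .f 810 3 5, .t 954 2 4]
  119 136 [2, 4] [(119, 136, [2, 4])]) (.br 576 .no (.use 804) (.br 712 .no .no (.hor [.f 712 3 1,
  .f 704 1 3, .f 832 3 5] [(105, 104, [3]), (106, 104, [3, 3])]) .no (.hor [.t 576 3 1, .f 705 3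
  1, .f 704 1 5] [(89, 103, [2, 3, 3]), (105, 104, [3])]) .no) (.hor [.f 569 1 3, .f 568 3 5]
  [(88, 136, [2, 2, 2])]) .no .no)) (.hor [.f 569 1 3, .f 569 3 5] [(88, 136, [2, 2, 2])]) (.hor
  [.f 562 3 1, .f 562 1 5] [(87, 103, [2])]) (.hor [.t 690 3 2, .f 569 1 5] [(87, 103, [2])]) .no)
  .no .no) .no (.hor [.f 689 3 5] []) .no (.red [.f 696 5 1, .t 697 1 4] 103 136 [2, 2, 4] [(103,
  136, [2, 2, 4])])) (.use 137) .no (.use 815)) .no (.red [.f 683 3 1, .f 691 1 3] 103 136 [2, 2,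
  4] [(102, 136, [2, 2, 4, 4]), (103, 136, [2, 2, 4])]) .no (.use 79)) .no .no) (.use 825) .no
  (.hor [.f 928 3 5] []) .no .no) .no (.use 826)) .no (.use 293) .no .no)) .no .no .no) (.hor [.f
  705 3 1, .f 704 1 5] [(105, 104, [3])]) (.use 829) .no .no) (.hor [.f 944 1 5] []) .no (.br 944
  .no (.br 705 .no (.use 832) (.hor [.f 705 3 1, .f 704 1 5] [(105, 104, [3])]) (.use 835) .no
  .no) .no (.hor [.f 936 3 1, .f 944 1 5] [(134, 118, [1])]) .no .no) .no .no) .no) (.hor [.f 832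
  3 5] []) (.use 839) .no .no) (.red [.f 825 3 1, .f 825 1 5, .t 1073 2 3, .f 954 1 3, .t 961 2 4]
  136 136 [] [(135, 136, [4]), (136, 136, [])]) .no (.br 824 .no (.use 841) .no (.use 599) (.br
  1072 (.br 1211 (.br 841 .no (.br 1338 (.br 818 .no (.use 6) .no (.red [.f 810 3 1, .f 818 1 3]
  119 136 [2, 4] [(118, 136, [2, 4, 4]), (119, 136, [2, 4])]) (.red [.f 824 5 3, .t 954 2 4] 119
  136 [2, 4] [(119, 136, [2, 4])]) (.br 944 .no (.br 936 (.use 872) (.use 873) .no (.use 830)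
  (.use 868) .no) .no (.use 293) .no .no)) .no (.hor [.f 1210 3 1, .f 1210 1 5] [(168, 136, [1,
  1])]) (.use 870) .no (.hor [.t 1217 1 4, .f 1210 1 5] [(168, 136, [1, 1])])) (.hor [.f 841 3 1,
  .f 841 1 5] [(122, 119, [3, 3, 3])]) .no .no (.br 1338 (.br 818 .no (.use 6) .no (.red [.f 810 3
  1, .f 818 1 3] 119 136 [2, 4] [(118, 136, [2, 4, 4]), (119, 136, [2, 4])]) (.red [.f 824 5 3, .t
  954 2 4] 119 136 [2, 4] [(119, 136, [2, 4])]) (.br 944 .no (.br 936 (.use 872) (.use 902) .no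
  (.use 830) (.use 899) .no) .no (.use 293) .no .no)) .no (.hor [.f 1210 3 1, .f 1210 1 5] [(168,
  136, [1, 1])]) (.use 901) .no (.hor [.t 1217 1 4, .f 1210 1 5] [(168, 136, [1, 1])]))) .no (.hor
  [.f 1210 3 5] []) (.use 906) .no .no) (.hor [.f 944 1 5] []) .no (.use 907) .no .no) .no)

def c27t909 : Tr4 :=
  .br 713 .no (.br 712 .no (.hor [.f 584 1 5] []) (.hor [.f 712 3 1, .f 704 1 3, .f 832 3 5]
  [(105, 104, [3]), (106, 104, [3, 3])]) .no .no .no) (.hor [.f 713 3 5] []) .no .no (.red [.t 832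
  2 3, .f 824 5 3, .t 833 4 2] 104 136 [2, 2] [(104, 136, [2, 2]), (105, 104, [3])])

def c27l27 : List Tr4 :=
  [c27t886, c27t887, c27t888, c27t889, c27t890, c27t891, c27t892, c27t893, c27t894, c27t895,
  c27t896, c27t897, c27t898, c27t899, c27t900, c27t901, c27t902, c27t903, c27t904, c27t905,
  c27t906, c27t907, c27t908, c27t909]

theorem c27k27 : chkLF ⟨4, 1, 0, true, -8⟩ false 7 c27N 886 c27l27 = true := by decide +kernel

end Pool.Agent.FT4D
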