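import Pool.Agent.FT4D.Tab_c27

/-!
# Four levels: decision trees (found by a computer search)
-/

namespace Pool.Agent.FT4D

def c27t910 : Tr4 :=
  .br 707 .no (.red [.f 571 1 3] 88 136 [2, 2, 2] [(88, 136, [2, 2, 2])]) (.br 840 .no (.hor [.f
  704 1 3, .f 832 3 5] [(105, 104, [3])]) (.br 579 .no (.br 578 .no (.hor [.f 450 1 5] []) (.br
  714 .no .no (.use 909) .no .no (.hor [.t 833 3 2, .f 706 3 5] [(105, 104, [3])])) (.red [.t 577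
  1 4, .f 570 1 5] 88 136 [2, 2, 2] [(88, 136, [2, 2, 2])]) .no .no) (.red [.f 579 3 1, .f 571 1
  3, .f 699 3 1, .f 706 1 5] 88 136 [2, 2, 2] [(88, 136, [2, 2, 2]), (89, 136, [2, 2, 2, 3]),
  (104, 136, [2, 2])]) .no .no (.br 714 .no (.red [.t 714 2 4, .f 571 1 3] 88 136 [2, 2, 2] [(88,
  136, [2, 2, 2]), (89, 136, [2, 2, 2, 3])]) (.use 909) .no .no (.hor [.t 833 3 2, .f 706 3 5]
  [(105, 104, [3])]))) .no .no .no) .no .no .no

def c27t911 : Tr4 :=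
  .br 698 .no (.hor [.f 570 1 5] []) .no (.use 518) .no (.use 910)

def c27t912 : Tr4 :=
  .br 698 .no (.con 136 [2, 2, 2, 4]) .no (.hor [.f 689 3 5] []) .no .no

def c27t913 : Tr4 :=
  .br 570 .no (.br 569 .no (.hor [.f 441 1 5] []) .no (.red [.t 561 3 1, .f 569 1 3] 88 136 [2, 2,
  2] [(87, 136, [2, 2, 2, 4]), (88, 136, [2, 2, 2])]) .no (.br 571 .no (.hor [.f 442 1 5] [])
  (.con 136 [2, 2, 2, 2]) (.red [.f 563 3 1, .f 562 1 5] 87 136 [2, 2, 2, 4] [(87, 136, [2, 2, 2,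
  4])]) .no .no)) (.red [.t 577 1 4] 88 136 [2, 2, 2] [(88, 136, [2, 2, 2])]) .no (.red [.t 690 2
  3] 87 136 [2, 2, 2, 4] [(87, 136, [2, 2, 2, 4])]) (.red [.f 569 5 1, .f 569 1 3] 88 136 [2, 2,
  2] [(88, 136, [2, 2, 2])])

def c27t914 : Tr4 :=
  .br 696 .no (.con 136 [2, 2, 2, 4]) .no (.br 817 .no (.red [.t 688 3 1, .f 696 1 3] 104 136 [2,
  2] [(103, 136, [2, 2, 4]), (104, 136, [2, 2])]) .no (.br 818 .no (.con 136 [2, 2, 4, 4]) .no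
  (.hor [.f 809 3 5] []) (.red [.t 954 2 4] 119 136 [2, 4] [(119, 136, [2, 4])]) .no) (.br 690 .no
  (.use 913) .no (.br 689 .no (.con 136 [2, 2, 2, 4, 4]) .no (.hor [.f 681 3 5] []) .no .no) .no
  (.hor [.f 689 5 3, .f 688 3 5, .f 690 3 5] [])) .no) .no .no

def c27t915 : Tr4 :=
  .br 696 .no (.con 136 [2, 2, 2, 4]) .no (.red [.f 816 5 3, .f 688 3 1, .f 696 1 3] 104 136 [2,
  2] [(103, 136, [2, 2, 4]), (104, 136, [2, 2])]) .no .no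

def c27t916 : Tr4 :=
  .br 818 .no .no .no (.red [.f 810 3 1, .f 818 1 3] 119 136 [2, 4] [(118, 136, [2, 4, 4]), (119,
  136, [2, 4])]) (.red [.t 954 2 4, .f 690 3 1, .f 697 1 5] 103 136 [2, 4, 2] [(103, 136, [2, 4,
  2]), (119, 136, [2, 4])]) (.red [.t 697 1 4] 103 136 [2, 4, 2] [(103, 136, [2, 4, 2])])

def c27t917 : Tr4 :=
  .br 698 .no (.hor [.f 570 1 5] []) .no (.use 916) .no .no

def c27t918 : Tr4 :=
  .br 818 .no (.con 136 [2, 2, 4, 4]) .no (.hor [.f 809 3 5] []) (.red [.t 954 2 4] 119 136 [2, 4]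
  [(119, 136, [2, 4])]) .no

def c27t919 : Tr4 :=
  .br 817 .no (.red [.f 689 1 3] 103 136 [2, 2, 4] [(103, 136, [2, 2, 4])]) .no (.use 918) (.br
  690 .no (.red [.f 562 1 3] 87 136 [2, 2, 2, 4] [(87, 136, [2, 2, 2, 4])]) .no (.br 696 .no (.con
  136 [2, 2, 2, 4]) .no (.use 572) .no .no) .no (.red [.f 689 5 1, .f 689 1 3] 103 136 [2, 2, 4]
  [(103, 136, [2, 2, 4])])) .no

def c27t920 : Tr4 :=
  .br 691 (.hor [.f 690 1 5] []) (.con 136 [2, 4, 2, 4]) .no (.con 136 [2, 4, 2, 4]) .no .no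

def c27t921 : Tr4 :=
  .br 818 .no (.use 920) .no (.hor [.f 809 3 5] []) (.red [.t 954 2 4] 119 136 [2, 4] [(119, 136,
  [2, 4])]) .no

def c27t922 : Tr4 :=
  .br 688 .no (.red [.f 560 1 3] 87 136 [2, 2, 2, 4] [(87, 136, [2, 2, 2, 4])]) .no (.con 136 [2,
  2, 2, 4, 4]) (.con 136 [2, 2, 2, 4, 4]) .no

def c27t923 : Tr4 :=
  .br 811 (.con 136 [2, 2, 4, 4, 1, 3]) (.con 136 [2, 2, 4, 4, 1, 3]) (.br 689 .no (.con 136 [2,
  2, 4, 2, 4]) .no (.hor [.f 681 3 5] []) .no .no) (.con 136 [2, 2, 4, 4, 1, 3]) .no (.con 136 [2,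
  2, 4, 4, 1, 3])

def c27t924 : Tr4 :=
  .br 691 (.red [.t 834 2 4, .f 691 1 3] 103 136 [2, 2, 4] [(103, 136, [2, 2, 4]), (104, 136, [2,
  2])]) (.br 690 .no (.hor [.f 562 1 5] []) .no (.br 696 .no (.use 922) .no (.use 923) .no .no)
  .no (.red [.f 689 5 1, .f 689 1 3] 103 136 [2, 2, 4] [(103, 136, [2, 2, 4])])) .no (.use 578)
  .no (.red [.f 690 5 3, .t 697 1 4] 103 136 [2, 2, 4] [(103, 136, [2, 2, 4])])

def c27t925 : Tr4 :=
  .br 691 (.red [.t 834 2 4, .f 691 1 3] 103 136 [2, 2, 4] [(103, 136, [2, 2, 4]), (104, 136, [2,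
  2])]) (.con 136 [2, 2, 4, 4]) .no (.con 136 [2, 2, 4, 4]) .no (.con 136 [2, 2, 4, 4])

def c27t926 : Tr4 :=
  .br 816 .no (.use 925) .no (.use 1) .no .no

def c27t927 : Tr4 :=
  .br 691 (.hor [.f 690 1 5] []) (.con 136 [2, 4, 2, 4]) .no (.con 136 [2, 4, 2, 4]) .no .no

def c27t928 : Tr4 :=
  .br 818 .no (.use 927) .no (.red [.f 810 3 1, .f 818 1 3] 119 136 [2, 4] [(118, 136, [2, 4, 4]),
  (119, 136, [2, 4])]) (.red [.t 954 2 4] 119 136 [2, 4] [(119, 136, [2, 4])]) .no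

def c27t929 : Tr4 :=
  .br 698 .no (.con 136 [2, 2, 2, 4]) .no (.use 916) .no .no

def c27t930 : Tr4 :=
  .br 699 .no (.use 917) (.hor [.f 699 3 1, .f 706 1 5] [(104, 136, [2, 2])]) (.use 929) .no (.hor
  [.f 696 3 1, .f 696 1 5, .t 834 2 4] [])

def c27t931 : Tr4 :=
  .br 698 .no (.br 817 .no (.red [.f 689 1 3] 103 136 [2, 2, 4] [(103, 136, [2, 2, 4])]) .no (.use
  918) (.br 690 .no (.red [.f 562 1 3] 87 136 [2, 2, 2, 4] [(87, 136, [2, 2, 2, 4])]) .no (.br 696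
  .no (.con 136 [2, 2, 2, 4]) .no (.use 572) .no .no) .no (.red [.f 689 5 1, .f 689 1 3] 103 136
  [2, 2, 4] [(103, 136, [2, 2, 4])])) (.br 696 .no (.con 136 [2, 2, 2, 4]) .no (.red [.t 824 3 2,
  .t 704 1 4, .t 696 4 1] 103 136 [2, 2, 4] [(103, 136, [2, 2, 4])]) .no .no)) .no (.use 916) .no
  .no

def c27t932 : Tr4 :=
  .br 691 (.red [.t 834 2 4, .f 691 1 3] 103 136 [2, 2, 4] [(103, 136, [2, 2, 4]), (104, 136, [2,
  2])]) (.br 690 .no (.hor [.f 562 1 5] []) .no (.br 696 .no (.use 922) .no (.use 923) .no .no)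
  .no (.red [.f 689 5 1, .f 689 1 3] 103 136 [2, 2, 4] [(103, 136, [2, 2, 4])])) .no (.use 578)
  .no (.red [.f 690 5 3, .t 697 1 4] 103 136 [2, 2, 4] [(103, 136, [2, 2, 4])])

def c27t933 : Tr4 :=
  .br 818 .no (.br 691 (.hor [.f 690 1 5] []) (.con 136 [2, 4, 2, 4]) .no (.con 136 [2, 4, 2, 4])
  .no .no) .no (.red [.f 810 3 1, .f 818 1 3] 119 136 [2, 4] [(118, 136, [2, 4, 4]), (119, 136,
  [2, 4])]) (.red [.t 954 2 4, .f 817 3 5] 119 136 [2, 4] [(119, 136, [2, 4])]) .no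

def c27t934 : Tr4 :=
  .br 1072 (.br 825 .no (.br 705 .no (.br 704 .no (.hor [.f 576 1 5] []) (.br 699 .no (.use 917)
  (.hor [.f 699 3 1, .f 706 1 5] [(104, 136, [2, 2])]) (.br 698 .no (.br 944 .no (.use 919) .no
  (.br 817 .no (.red [.f 689 1 3] 103 136 [2, 2, 4] [(103, 136, [2, 2, 4])]) .no (.use 918) (.use
  584) (.br 696 .no (.con 136 [2, 2, 2, 4]) .no (.red [.t 696 4 1] 103 136 [2, 2, 4] [(103, 136,
  [2, 2, 4])]) .no .no)) .no .no) .no (.use 916) .no .no) .no (.br 944 .no (.br 817 .no (.red [.f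
  689 1 3] 103 136 [2, 2, 4] [(103, 136, [2, 2, 4])]) .no (.use 921) (.use 924) .no) .no (.br 817
  .no (.red [.f 689 1 3] 103 136 [2, 2, 4] [(103, 136, [2, 2, 4])]) .no (.use 921) (.use 926)
  (.use 928)) .no .no)) (.use 930) .no .no) (.hor [.f 705 3 1, .f 705 1 5] [(105, 103, [3, 3])])
  .no .no (.br 699 .no (.use 917) (.hor [.f 699 3 1, .f 706 1 5] [(104, 136, [2, 2])]) (.use 931)
  .no (.br 817 .no (.red [.f 689 1 3] 103 136 [2, 2, 4] [(103, 136, [2, 2, 4])]) .no (.use 921)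
  (.br 944 .no (.use 932) .no (.use 926) .no .no) (.use 928)))) .no (.br 699 .no (.br 944 .no
  (.dom 119 136 [2, 4]) .no (.br 816 .no (.use 933) .no (.use 1) .no .no) .no .no) (.hor [.f 699 3
  1, .f 706 1 5] [(104, 136, [2, 2])]) (.br 944 .no (.dom 119 136 [2, 4]) .no (.br 816 .no (.use
  595) .no (.use 1) .no .no) .no .no) .no (.br 944 .no (.dom 119 136 [2, 4]) .no (.br 816 .no
  (.use 676) .no (.use 1) .no .no) .no .no)) .no .no) (.hor [.f 944 1 5] []) .no (.br 944 .no (.br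
  825 .no (.br 699 .no (.use 917) (.hor [.f 699 3 1, .f 706 1 5] [(104, 136, [2, 2])]) (.br 705
  .no (.br 704 .no (.hor [.f 576 1 5] []) (.br 698 .no (.use 919) .no (.use 916) .no .no) (.use
  929) .no .no) (.hor [.f 705 3 1, .f 705 1 5] [(105, 103, [3, 3])]) .no .no (.use 931)) .no (.br
  817 .no (.red [.f 689 1 3] 103 136 [2, 2, 4] [(103, 136, [2, 2, 4])]) .no (.use 921) (.br 705
  .no (.br 704 .no (.hor [.f 576 1 5] []) (.use 924) (.use 930) .no .no) (.hor [.f 705 3 1, .f 705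
  1 5] [(105, 103, [3, 3])]) .no .no (.use 932)) .no)) .no (.dom 119 136 [2, 4]) .no .no) .no
  (.hor [.f 936 3 1, .f 944 1 5] [(134, 118, [1])]) .no .no) .no .no

def c27t935 : Tr4 :=
  .br 696 .no (.hor [.f 568 1 5] []) .no (.br 570 .no (.br 579 .no (.use 680) (.red [.f 579 3 1,
  .f 571 1 3, .f 699 3 1, .f 706 1 5] 89 136 [2, 2, 2, 3] [(88, 136, [2, 2, 2]), (89, 136, [2, 2,
  2, 3]), (104, 136, [2, 2])]) .no .no (.br 576 .no (.use 679) (.br 577 .no (.con 136 [2, 2, 2, 2,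
  3]) (.hor [.f 576 3 5] []) .no .no .no) (.red [.t 568 3 1] 88 136 [2, 2, 2] [(88, 136, [2, 2,
  2])]) (.red [.f 576 5 1, .f 569 1 3] 88 136 [2, 2, 2] [(88, 136, [2, 2, 2])]) .no)) (.red [.f
  824 5 3, .f 824 3 5, .f 704 5 1, .f 705 1 5, .t 569 1 3] 88 136 [2, 2, 2] [(88, 136, [2, 2,
  2])]) (.hor [.f 562 3 1, .f 569 1 5] [(87, 88, [4])]) .no .no) .no .no

def c27t936 : Tr4 :=
  .br 699 .no (.br 698 .no (.hor [.f 570 1 5] []) .no (.br 697 .no (.br 707 .no (.red [.f 571 1 3]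
  88 136 [2, 2, 2] [(88, 136, [2, 2, 2])]) (.br 705 .no (.use 518) (.use 678) .no .no (.use 935))
  .no .no .no) (.red [.f 824 5 3, .f 697 3 1] 104 136 [2, 2] [(104, 136, [2, 2])]) (.hor [.f 689 3
  5] []) .no (.use 517)) .no (.red [.f 824 5 3, .t 833 4 2] 104 136 [2, 2] [(104, 136, [2, 2])]))
  (.red [.f 699 3 1, .f 706 1 5] 104 136 [2, 2] [(104, 136, [2, 2])]) (.use 681) .no (.red [.f 824
  5 3, .t 834 2 4] 104 136 [2, 2] [(104, 136, [2, 2])])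

def c27t937 : Tr4 :=
  .br 833 .no (.hor [.f 705 1 5] []) (.br 832 .no (.br 824 .no (.red [.f 696 1 3] 104 136 [2, 2]
  [(104, 136, [2, 2])]) .no (.use 472) (.br 705 .no (.br 1072 (.br 699 .no (.use 911) (.red [.f
  699 3 1, .f 706 1 5] 104 136 [2, 2] [(104, 136, [2, 2])]) (.br 697 .no (.red [.f 569 1 3] 88 136
  [2, 2, 2] [(88, 136, [2, 2, 2])]) .no (.use 912) (.br 944 .no (.use 914) .no (.br 816 .no (.con
  136 [2, 2, 4, 2]) .no (.use 1) (.use 915) .no) .no .no) (.red [.f 696 5 1, .f 696 1 3] 104 136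
  [2, 2] [(104, 136, [2, 2])])) .no (.red [.t 834 2 4] 104 136 [2, 2] [(104, 136, [2, 2])])) (.hor
  [.f 944 1 5] []) .no (.br 699 .no (.use 911) (.red [.f 699 3 1, .f 706 1 5] 104 136 [2, 2]
  [(104, 136, [2, 2])]) (.br 697 .no (.red [.f 569 1 3] 88 136 [2, 2, 2] [(88, 136, [2, 2, 2])])
  .no (.use 912) (.br 944 .no (.use 914) .no (.hor [.f 936 3 1, .f 944 1 5] [(134, 118, [1])]) .no
  .no) (.red [.f 696 5 1, .f 696 1 3] 104 136 [2, 2] [(104, 136, [2, 2])])) .no (.red [.t 834 2 4]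
  104 136 [2, 2] [(104, 136, [2, 2])])) .no .no) (.hor [.f 705 3 1, .f 704 1 5] [(105, 104, [3])])
  (.red [.t 704 1 4] 104 136 [2, 2] [(104, 136, [2, 2])]) .no .no) .no) (.hor [.f 832 3 5] [])
  (.use 934) .no .no) (.red [.f 825 3 1, .f 825 1 5, .t 1073 2 3, .f 954 1 3, .t 961 2 4] 136 136
  [] [(135, 136, [4]), (136, 136, [])]) .no (.br 824 .no (.br 1072 (.br 825 .no (.hor [.f 696 1 5]
  []) .no (.br 699 .no (.br 698 .no (.hor [.f 570 1 5] []) .no (.use 469) .no (.br 816 (.dom 119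
  136 [2, 4]) (.use 675) .no (.use 1) .no .no)) (.red [.f 699 3 1, .f 706 1 5] 104 136 [2, 2]
  [(104, 136, [2, 2])]) (.br 816 (.dom 119 136 [2, 4]) (.use 595) .no (.use 1) .no .no) .no (.red
  [.t 834 2 4] 104 136 [2, 2] [(104, 136, [2, 2])])) .no .no) (.hor [.f 944 1 5] []) .no (.use
  840) .no .no) .no (.use 472) (.use 936) .no)

def c27t938 : Tr4 :=
  .br 841 .no (.red [.f 705 1 3] 105 136 [2, 2, 3] [(105, 136, [2, 2, 3])]) (.hor [.f 841 3 1, .f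
  841 1 5] [(122, 105, [1, 3])]) .no .no .no

def c27t939 : Tr4 :=
  .br 818 .no (.use 6) .no (.red [.f 810 3 1, .f 818 1 3] 119 136 [2, 4] [(118, 136, [2, 4, 4]),
  (119, 136, [2, 4])]) (.red [.f 824 5 3, .t 954 2 4] 119 136 [2, 4] [(119, 136, [2, 4])]) .no

def c27t940 : Tr4 :=
  .br 682 (.hor [.f 681 1 5] []) (.con 136 [2, 2, 4, 4, 4]) .no (.con 136 [2, 2, 4, 4, 4]) (.con
  136 [2, 2, 4, 4, 4]) .no

def c27t941 : Tr4 :=
  .br 809 .no (.use 940) .no (.hor [.f 808 1 3, .f 801 3 1, .f 808 3 1, .f 808 1 5] [(117, 136,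
  [2, 4, 4, 4])]) (.red [.f 809 5 3, .f 810 3 1, .f 818 1 3] 119 136 [2, 4] [(118, 136, [2, 4,
  4]), (119, 136, [2, 4])]) .no

def c27t942 : Tr4 :=
  .br 690 .no (.use 820) .no (.use 842) (.br 937 (.red [.f 937 1 3, .f 937 3 5, .f 817 5 1, .f 818
  1 3] 119 136 [2, 4] [(119, 136, [2, 4]), (134, 118, [1])]) (.red [.t 937 2 3, .f 818 1 3] 119
  136 [2, 4] [(118, 136, [2, 4, 4]), (119, 136, [2, 4])]) .no (.br 936 (.use 843) (.use 941) .no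
  (.use 830) .no .no) .no (.use 858)) (.red [.f 696 5 1, .f 689 5 1, .f 689 1 3] 103 136 [2, 2, 4]
  [(103, 136, [2, 2, 4])])

def c27l28 : List Tr4 :=
  [c27t910, c27t911, c27t912, c27t913, c27t914, c27t915, c27t916, c27t917, c27t918, c27t919,
  c27t920, c27t921, c27t922, c27t923, c27t924, c27t925, c27t926, c27t927, c27t928, c27t929,
  c27t930, c27t931, c27t932, c27t933, c27t934, c27t935, c27t936, c27t937, c27t938, c27t939,
  c27t940, c27t941, c27t942]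

theorem c27k28 : chkLF ⟨4, 1, 0, true, -8⟩ false 7 c27N 910 c27l28 = true := by decide +kernel

def c27t943 : Tr4 :=
  .br 704 .no (.hor [.f 576 1 5] []) (.br 697 .no (.red [.f 569 1 3] 88 136 [2, 2, 2] [(88, 136,
  [2, 2, 2])]) .no (.use 658) .no (.use 942)) (.con 136 [2, 2, 2]) .no .no

def c27t944 : Tr4 :=
  .br 696 .no (.con 136 [2, 2, 2, 4]) .no (.hor [.f 688 3 5] []) .no .no

def c27t945 : Tr4 :=
  .br 696 .no (.use 651) .no (.red [.f 689 5 1, .t 688 3 1] 103 136 [2, 2, 4] [(103, 136, [2, 2,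
  4])]) (.red [.f 696 5 1, .f 689 5 1, .f 689 1 3] 103 136 [2, 2, 4] [(103, 136, [2, 2, 4])]) .no

def c27t946 : Tr4 :=
  .br 682 (.hor [.f 681 1 5] []) (.con 136 [2, 4, 2, 4, 4]) .no (.con 136 [2, 4, 2, 4, 4]) (.con
  136 [2, 4, 2, 4, 4]) .no

def c27t947 : Tr4 :=
  .br 809 .no (.br 819 .no (.red [.f 697 5 3, .f 691 1 3] 103 136 [2, 2, 4] [(103, 136, [2, 2,
  4])]) .no (.br 690 .no (.use 51) .no (.con 136 [2, 2, 4, 4, 4]) (.use 946) (.br 696 .no (.use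
  155) .no (.red [.f 689 5 1, .t 688 3 1] 103 136 [2, 2, 4] [(103, 136, [2, 2, 4])]) .no .no)) .no
  .no) .no (.hor [.f 808 1 3, .f 801 3 1, .f 808 3 1, .f 808 1 5] [(117, 136, [2, 4, 4, 4])])
  (.red [.f 809 5 3, .f 810 3 1, .f 818 1 3] 119 136 [2, 4] [(118, 136, [2, 4, 4]), (119, 136, [2,
  4])]) .no

def c27t948 : Tr4 :=
  .br 696 .no (.con 136 [2, 2, 2, 4]) .no (.hor [.f 688 3 5] []) .no .no

def c27t949 : Tr4 :=
  .br 811 (.con 136 [2, 2, 4, 4, 1, 3]) (.con 136 [2, 2, 4, 4, 4]) (.use 946) (.con 136 [2, 2, 4,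
  4, 1, 4]) .no (.con 136 [2, 2, 4, 4, 4])

def c27t950 : Tr4 :=
  .br 809 .no (.use 949) .no (.hor [.f 808 1 3, .f 801 3 1, .f 808 3 1, .f 808 1 5] [(117, 136,
  [2, 4, 4, 4])]) (.red [.f 809 5 3, .f 810 3 1, .f 818 1 3] 119 136 [2, 4] [(118, 136, [2, 4,
  4]), (119, 136, [2, 4])]) .no

def c27t951 : Tr4 :=
  .br 690 .no (.use 820) .no (.use 842) (.use 950) (.red [.f 696 5 1, .f 689 5 1, .f 689 1 3] 103
  136 [2, 2, 4] [(103, 136, [2, 2, 4])])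

def c27t952 : Tr4 :=
  .br 810 .no (.use 55) .no (.use 158) .no .no

def c27t953 : Tr4 :=
  .br 561 .no (.use 952) .no (.use 267) (.hor [.t 697 2 4, .f 562 1 5] [(87, 103, [2])]) (.hor [.t
  696 4 2, .f 440 1 3, .t 560 1 3, .f 569 1 3, .f 568 3 5] [(72, 136, [2, 2, 2, 2]), (88, 136, [2,
  2, 2])])

def c27t954 : Tr4 :=
  .br 697 .no (.br 696 .no (.hor [.f 568 1 5] []) .no (.br 570 .no (.br 576 .no (.br 809 .no (.use
  57) .no (.use 142) (.red [.f 809 5 3, .f 810 3 5, .t 954 2 4] 119 136 [2, 4] [(119, 136, [2,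
  4])]) (.br 568 .no (.br 689 .no (.hor [.f 561 1 3, .f 688 3 5] [(87, 86, [3])]) .no (.use 953)
  .no .no) .no (.hor [.f 560 3 1, .f 568 1 5] [(87, 103, [2])]) .no .no)) (.hor [.f 576 3 1, .f
  576 1 5] [(89, 103, [3, 3, 2])]) (.hor [.f 569 1 3, .f 568 3 5] [(88, 136, [2, 2, 2])]) .no .no)
  (.hor [.f 569 1 3, .f 569 3 5] [(88, 136, [2, 2, 2])]) (.hor [.f 562 3 1, .f 562 1 5] [(87, 103,
  [2])]) (.hor [.t 690 3 2, .f 569 1 5] [(87, 103, [2])]) .no) .no .no) .no (.hor [.f 689 3 5] [])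
  .no (.red [.f 696 5 1, .t 697 1 4] 103 136 [2, 2, 4] [(103, 136, [2, 2, 4])])

def c27t955 : Tr4 :=
  .br 696 .no (.use 651) .no (.red [.f 689 5 1, .t 688 3 1] 103 136 [2, 2, 4] [(103, 136, [2, 2,
  4])]) .no .no

def c27t956 : Tr4 :=
  .br 819 .no (.red [.f 691 1 3] 103 136 [2, 2, 4] [(103, 136, [2, 2, 4])]) .no (.br 691 .no (.br
  698 .no (.use 126) .no (.use 954) .no (.br 690 .no (.use 51) .no (.use 137) .no (.use 955))) .no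
  (.red [.f 683 3 1, .f 691 1 3] 103 136 [2, 2, 4] [(102, 136, [2, 2, 4, 4]), (103, 136, [2, 2,
  4])]) .no (.use 79)) .no .no

def c27t957 : Tr4 :=
  .br 819 .no (.red [.f 691 1 3] 103 136 [2, 2, 4] [(103, 136, [2, 2, 4])]) .no (.br 691 .no (.br
  690 .no (.use 51) (.use 954) (.con 136 [2, 2, 4, 4, 2]) .no (.br 698 .no (.use 125) .no .no .no
  (.use 955))) .no (.red [.f 683 3 1, .f 691 1 3] 103 136 [2, 2, 4] [(102, 136, [2, 2, 4, 4]),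
  (103, 136, [2, 2, 4])]) .no (.use 946)) .no .no

def c27t958 : Tr4 :=
  .br 809 .no (.use 957) .no (.hor [.f 808 1 3, .f 801 3 1, .f 808 3 1, .f 808 1 5] [(117, 136,
  [2, 4, 4, 4])]) (.red [.f 809 5 3, .f 810 3 1, .f 818 1 3] 119 136 [2, 4] [(118, 136, [2, 4,
  4]), (119, 136, [2, 4])]) .no

def c27t959 : Tr4 :=
  .br 819 .no (.red [.f 691 1 3] 103 136 [2, 2, 4] [(103, 136, [2, 2, 4])]) .no (.br 698 .no (.use
  859) .no (.use 145) .no (.br 690 .no (.use 51) .no (.use 146) (.use 101) (.br 691 .no (.use 955)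
  .no (.red [.f 689 5 3, .f 683 3 1] 102 136 [2, 2, 4, 4] [(102, 136, [2, 2, 4, 4])]) .no .no)))
  .no .no

def c27t960 : Tr4 :=
  .br 698 .no (.con 136 [2, 2, 2, 4]) .no (.hor [.f 689 3 5] []) .no .no

def c27t961 : Tr4 :=
  .br 568 .no (.hor [.f 440 1 5] []) (.red [.f 568 3 1, .f 576 1 5] 88 136 [2, 2, 2] [(88, 136,
  [2, 2, 2])]) (.con 136 [2, 2, 2, 4, 2]) .no .no

def c27t962 : Tr4 :=
  .br 819 .no (.red [.f 691 1 3] 103 136 [2, 2, 4] [(103, 136, [2, 2, 4])]) .no (.br 690 .no (.use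
  51) .no (.con 136 [2, 2, 4, 4, 4]) (.use 946) (.br 691 .no (.use 961) .no (.red [.f 689 5 3, .f
  683 3 1] 102 136 [2, 2, 4, 4] [(102, 136, [2, 2, 4, 4])]) .no .no)) .no .no

def c27t963 : Tr4 :=
  .br 811 (.con 136 [2, 2, 4, 4, 1, 3]) .no (.red [.f 683 3 1, .f 691 1 3] 103 136 [2, 2, 4]
  [(102, 136, [2, 2, 4, 4]), (103, 136, [2, 2, 4])]) (.con 136 [2, 2, 4, 4, 1, 3]) .no (.con 136
  [2, 2, 4, 4, 1, 3])

def c27t964 : Tr4 :=
  .br 808 .no (.br 811 (.con 136 [2, 4, 2, 4, 1, 3, 2, 4, 1, 3]) (.con 136 [2, 4, 2, 4, 1, 3, 2,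
  4, 1, 3]) (.use 131) (.con 136 [2, 4, 2, 4, 1, 3, 2, 4, 1, 3]) .no (.con 136 [2, 4, 2, 4, 1, 3,
  2, 4, 1, 3])) .no (.hor [.f 800 3 5] []) .no .no

def c27t965 : Tr4 :=
  .br 809 .no (.con 136 [2, 2, 4, 4, 2]) .no (.use 964) (.red [.f 809 5 3, .f 810 3 1, .f 818 1 3]
  119 136 [2, 4] [(118, 136, [2, 4, 4]), (119, 136, [2, 4])]) (.use 135)

def c27t966 : Tr4 :=
  .br 809 .no (.con 136 [2, 4, 2, 4, 2]) .no (.red [.f 808 1 3, .f 801 3 1, .f 808 3 1, .f 808 1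
  5] 117 136 [2, 4, 2, 4, 4, 1] [(117, 136, [2, 4, 4, 4])]) (.red [.f 809 5 3, .f 810 3 1, .f 818
  1 3] 119 136 [2, 4] [(118, 136, [2, 4, 4]), (119, 136, [2, 4])]) .no

def c27t967 : Tr4 :=
  .br 811 (.con 136 [2, 2, 4, 4, 1, 3]) (.con 136 [2, 2, 4, 4, 4]) (.use 946) (.con 136 [2, 2, 4,
  4, 1, 4]) .no (.con 136 [2, 2, 4, 4, 4])

def c27t968 : Tr4 :=
  .br 809 .no (.use 967) .no (.hor [.f 808 1 3, .f 801 3 1, .f 808 3 1, .f 808 1 5] [(117, 136,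
  [2, 4, 4, 4])]) (.red [.f 809 5 3, .f 810 3 1, .f 818 1 3] 119 136 [2, 4] [(118, 136, [2, 4,
  4]), (119, 136, [2, 4])]) .no

def c27t969 : Tr4 :=
  .br 690 .no (.use 820) .no (.br 809 .no (.red [.f 808 1 3, .t 681 1 3, .f 808 3 5, .f 816 5 3,
  .f 688 3 1] 103 136 [2, 2, 4] [(102, 101, [3]), (103, 136, [2, 2, 4]), (118, 119, [4])]) .no
  (.hor [.f 808 1 3, .f 801 3 1, .f 808 3 1, .f 808 1 5] [(117, 136, [2, 4, 4, 4])]) (.red [.f 809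
  5 3, .f 810 3 1, .f 818 1 3] 119 136 [2, 4] [(118, 136, [2, 4, 4]), (119, 136, [2, 4])]) .no)
  (.use 950) (.red [.f 689 5 1, .t 688 3 1] 103 136 [2, 2, 4] [(103, 136, [2, 2, 4])])

def c27t970 : Tr4 :=
  .br 937 (.red [.f 937 1 3, .f 937 3 5, .f 817 5 1, .f 818 1 3] 119 136 [2, 4] [(119, 136, [2,
  4]), (134, 118, [1])]) (.hor [.f 808 1 5] []) .no (.use 969) .no .no

def c27t971 : Tr4 :=
  .br 819 .no (.red [.f 691 1 3] 103 136 [2, 2, 4] [(103, 136, [2, 2, 4])]) .no (.use 146) .no .no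

def c27t972 : Tr4 :=
  .br 936 (.use 881) (.use 970) .no (.use 830) (.br 690 .no (.use 820) .no (.use 971) (.use 858)
  (.red [.f 689 5 1, .t 688 3 1] 103 136 [2, 2, 4] [(103, 136, [2, 2, 4])])) .no

def c27t973 : Tr4 :=
  .br 688 .no (.red [.f 560 1 3] 87 136 [2, 2, 4, 2] [(87, 136, [2, 2, 4, 2])]) .no (.use 847) .no
  .no

def c27t974 : Tr4 :=
  .br 690 .no (.use 51) .no (.use 93) (.use 950) (.use 973)

def c27t975 : Tr4 :=
  .br 819 .no (.red [.f 689 5 1, .f 691 1 3] 103 136 [2, 2, 4] [(103, 136, [2, 2, 4])]) .no (.use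
  973) .no .no

def c27t976 : Tr4 :=
  .br 698 .no (.br 704 .no (.br 696 .no (.hor [.f 568 1 3, .f 696 3 5] [(88, 87, [3])]) .no (.use
  972) .no .no) (.br 696 .no (.br 937 (.red [.f 937 1 3, .f 937 3 5, .f 817 5 1, .f 818 1 3] 119
  136 [2, 4] [(119, 136, [2, 4]), (134, 118, [1])]) (.red [.t 937 2 3, .f 818 1 3] 119 136 [2, 4]
  [(118, 136, [2, 4, 4]), (119, 136, [2, 4])]) .no (.br 819 .no (.red [.f 691 1 3] 103 136 [2, 2,
  4] [(103, 136, [2, 2, 4])]) .no (.br 936 (.br 690 .no (.use 51) .no (.use 137) (.use 79) (.use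
  973)) (.use 974) .no (.use 830) .no .no) .no .no) .no (.br 690 .no (.use 820) .no (.use 971)
  (.use 858) (.use 975))) .no (.use 972) .no .no) (.hor [.f 696 3 5] []) .no .no) .no (.red [.f
  824 5 3, .f 697 3 1, .t 697 1 4] 103 136 [2, 2, 4] [(103, 136, [2, 2, 4]), (104, 136, [2, 2])])
  .no .no

def c27t977 : Tr4 :=
  .br 811 (.con 136 [2, 2, 4, 4, 1, 3]) (.con 136 [2, 2, 4, 4, 1, 3]) (.use 142) (.con 136 [2, 2,
  4, 4, 1, 3]) .no (.con 136 [2, 2, 4, 4, 1, 3])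

def c27t978 : Tr4 :=
  .br 809 .no (.use 57) .no (.use 977) (.red [.f 809 5 3, .f 810 3 1, .f 818 1 3] 119 136 [2, 4]
  [(118, 136, [2, 4, 4]), (119, 136, [2, 4])]) (.br 689 .no (.hor [.f 561 1 3, .f 688 3 5] [(87,
  86, [3])]) .no (.br 811 (.con 136 [2, 2, 4, 4, 1, 3]) (.con 136 [2, 2, 4, 4, 1, 3]) (.br 561 .no
  (.use 952) .no (.br 568 .no (.use 267) (.br 562 .no (.hor [.t 568 3 1, .f 434 1 3, .f 562 3 1,
  .f 562 1 5] [(71, 103, [2, 2]), (87, 103, [2]), (88, 136, [2, 2, 2])]) .no (.hor [.f 553 3 5]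
  []) .no .no) (.hor [.f 560 3 1, .f 568 1 5] [(87, 103, [2])]) .no .no) (.hor [.t 697 2 4, .f 562
  1 5] [(87, 103, [2])]) (.red [.t 696 4 2, .f 696 5 1, .t 697 1 4] 103 136 [2, 2, 4] [(87, 103,
  [2]), (103, 136, [2, 2, 4])])) (.con 136 [2, 2, 4, 4, 1, 3]) .no (.con 136 [2, 2, 4, 4, 1, 3]))
  .no .no)

def c27t979 : Tr4 :=
  .br 571 .no (.hor [.f 443 1 3, .f 570 3 5] [(72, 103, [2, 3, 2])]) .no .no .no .no

def c27t980 : Tr4 :=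
  .br 1353 (.use 621) .no (.red [.f 1225 3 1, .f 1217 1 3] 170 136 [3, 3, 1, 1] [(169, 136, [3, 1,
  1]), (170, 136, [3, 3, 1, 1])]) .no (.br 1105 .no .no (.br 1106 (.use 695) (.br 1234 (.red [.t
  1233 4 1, .f 1217 1 3] 170 136 [3, 3, 1, 1] [(169, 136, [3, 1, 1]), (170, 136, [3, 3, 1, 1])])
  .no (.use 703) .no (.br 1232 (.red [.f 1224 1 3, .f 1096 3 1] 170 136 [3, 3, 1, 1] [(154, 136,
  [3, 3, 1]), (170, 136, [3, 3, 1, 1])]) .no (.br 1360 (.br 1361 (.hor [.f 1360 1 5] []) .no (.br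
  1362 (.con 136 [3, 3, 3, 1, 1, 1]) .no (.hor [.f 1361 3 5] []) .no (.con 136 [3, 3, 3, 1, 1, 1])
  .no) .no (.red [.f 1353 5 3, .f 1225 3 1, .f 1217 1 3] 170 136 [3, 3, 1, 1] [(169, 136, [3, 1,
  1]), (170, 136, [3, 3, 1, 1])]) .no) .no (.red [.f 1232 3 1, .f 1224 1 3, .f 1096 3 1] 171 136
  [3, 3, 3, 1, 1] [(154, 136, [3, 3, 1]), (170, 136, [3, 3, 1, 1]), (171, 136, [3, 3, 3, 1, 1])])
  .no (.red [.t 1224 1 3, .t 1088 1 3, .f 1097 1 5] 170 136 [3, 3, 1, 1] [(153, 136, [3, 1]),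
  (170, 136, [3, 3, 1, 1])]) .no) .no .no .no) .no) (.hor [.f 1105 3 5] []) .no .no .no) .no (.hor
  [.t 1225 3 2, .f 1098 3 5, .f 1225 5 1, .f 1224 1 5, .t 1104 4 1] []) .no) .no

def c27t981 : Tr4 :=
  .br 1347 (.hor [.f 1346 1 5] []) .no (.use 980) .no .no .no

def c27t982 : Tr4 :=
  .br 1067 (.br 810 .no (.use 55) .no (.br 682 .no (.use 627) .no (.red [.f 674 3 1, .t 681 3 1]
  102 136 [2, 2, 4, 4] [(101, 136, [2, 2, 4, 4, 4]), (102, 136, [2, 2, 4, 4])]) (.br 561 .no (.use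
  151) .no (.br 562 .no (.br 800 .no (.br 1059 (.hor [.f 1059 1 3, .f 1058 3 5] [(149, 101, [1, 1,
  1])]) (.con 136 [2, 4, 4, 4, 1, 3, 2, 2]) .no (.br 931 .no (.con 136 [2, 4, 4, 4, 1, 3, 2, 2])
  (.use 160) (.con 136 [2, 4, 4, 4, 1, 3, 2, 2]) .no (.con 136 [2, 4, 4, 4, 1, 3, 2, 2])) .no .no)
  .no (.red [.f 792 3 1, .t 928 2 3, .t 937 2 3, .f 818 1 3] 119 136 [2, 4] [(116, 136, [2, 4, 4,
  4, 4]), (117, 136, [2, 4, 4, 4]), (118, 136, [2, 4, 4]), (119, 136, [2, 4])]) (.red [.f 800 5 3,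
  .f 801 3 5, .f 809 5 3, .f 681 3 1] 102 136 [2, 2, 4, 4] [(102, 136, [2, 2, 4, 4])]) .no) .no
  (.hor [.f 553 3 5] []) .no .no) (.hor [.t 697 2 4, .f 562 1 5] [(87, 103, [2])]) (.red [.t 696 4
  2, .f 696 5 1, .t 697 1 4] 103 136 [2, 2, 4] [(87, 103, [2]), (103, 136, [2, 2, 4])])) .no) .no
  .no) (.br 810 .no (.use 55) .no (.br 682 .no (.use 627) .no (.red [.f 674 3 1, .t 681 3 1] 102
  136 [2, 2, 4, 4] [(101, 136, [2, 2, 4, 4, 4]), (102, 136, [2, 2, 4, 4])]) (.br 561 .no (.use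
  151) .no (.br 568 .no (.br 800 .no (.br 560 .no (.hor [.f 432 1 3, .f 560 3 1, .f 568 1 5] [(71,
  103, [2, 2]), (87, 103, [2])]) .no (.con 136 [2, 2, 4, 4, 4, 2, 3, 1]) .no .no) .no (.red [.f
  792 3 1, .t 928 2 3, .t 937 2 3, .f 818 1 3] 119 136 [2, 4] [(116, 136, [2, 4, 4, 4, 4]), (117,
  136, [2, 4, 4, 4]), (118, 136, [2, 4, 4]), (119, 136, [2, 4])]) (.red [.f 800 5 3, .f 801 3 5,
  .f 809 5 3, .f 681 3 1] 102 136 [2, 2, 4, 4] [(102, 136, [2, 2, 4, 4])]) .no) (.br 562 .no (.br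
  800 .no (.br 930 .no .no .no (.br 931 (.br 560 .no (.br 554 .no (.red [.f 426 1 3] 70 136 [2, 2,
  2, 4, 2, 4] [(70, 136, [2, 2, 2, 4, 2, 4])]) .no (.use 168) (.red [.f 554 5 1, .f 555 1 3, .f
  683 3 1] 102 136 [2, 2, 4, 4] [(86, 136, [2, 2, 2, 4, 4]), (102, 136, [2, 2, 4, 4])]) .no) .no
  (.con 136 [2, 2, 4, 4, 4, 2, 3, 1]) .no .no) (.use 169) .no (.hor [.f 922 3 5] []) .no .no) (.br
  560 .no (.br 554 .no (.red [.f 426 1 3] 70 136 [2, 2, 2, 4, 2, 4] [(70, 136, [2, 2, 2, 4, 2,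
  4])]) .no (.use 170) (.red [.f 554 5 1, .f 555 1 3, .f 683 3 1] 102 136 [2, 2, 4, 4] [(86, 136,
  [2, 2, 2, 4, 4]), (102, 136, [2, 2, 4, 4])]) .no) .no (.con 136 [2, 2, 4, 4, 4, 2, 3, 1]) .no
  .no) .no) .no (.red [.f 792 3 1, .t 928 2 3, .t 937 2 3, .f 818 1 3] 119 136 [2, 4] [(116, 136,
  [2, 4, 4, 4, 4]), (117, 136, [2, 4, 4, 4]), (118, 136, [2, 4, 4]), (119, 136, [2, 4])]) (.red
  [.f 800 5 3, .f 801 3 5, .f 809 5 3, .f 681 3 1] 102 136 [2, 2, 4, 4] [(102, 136, [2, 2, 4,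
  4])]) .no) .no (.hor [.f 553 3 5] []) .no .no) (.hor [.f 560 3 1, .f 568 1 5] [(87, 103, [2])])
  .no .no) (.hor [.t 697 2 4, .f 562 1 5] [(87, 103, [2])]) (.red [.t 696 4 2, .f 696 5 1, .t 697
  1 4] 103 136 [2, 2, 4] [(87, 103, [2]), (103, 136, [2, 2, 4])])) .no) .no .no) .no (.hor [.f
  1058 3 5] []) .no .no

def c27l29 : List Tr4 :=
  [c27t943, c27t944, c27t945, c27t946, c27t947, c27t948, c27t949, c27t950, c27t951, c27t952,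
  c27t953, c27t954, c27t955, c27t956, c27t957, c27t958, c27t959, c27t960, c27t961, c27t962,
  c27t963, c27t964, c27t965, c27t966, c27t967, c27t968, c27t969, c27t970, c27t971, c27t972,
  c27t973, c27t974, c27t975, c27t976, c27t977, c27t978, c27t979, c27t980, c27t981, c27t982]

theorem c27k29 : chkLF ⟨4, 1, 0, true, -8⟩ false 7 c27N 943 c27l29 = true := by decide +kernel

def c27t983 : Tr4 :=
  .br 689 .no (.hor [.f 561 1 3, .f 688 3 5] [(87, 86, [3])]) .no (.br 811 (.con 136 [2, 2, 4, 4,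
  1, 3]) (.con 136 [2, 2, 4, 4, 1, 3]) (.br 928 (.hor [.f 928 1 3, .f 928 3 5] [(133, 118, [1,
  4])]) (.red [.t 928 2 3, .t 937 2 3, .f 818 1 3] 119 136 [2, 4] [(117, 136, [2, 4, 4, 4]), (118,
  136, [2, 4, 4]), (119, 136, [2, 4])]) .no (.br 810 .no (.use 55) .no (.br 682 .no (.use 627) .no
  (.red [.f 674 3 1, .t 681 3 1] 102 136 [2, 2, 4, 4] [(101, 136, [2, 2, 4, 4, 4]), (102, 136, [2,
  2, 4, 4])]) (.br 561 .no (.use 151) .no (.br 562 .no (.br 800 .no (.use 161) .no (.red [.f 792 3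
  1, .t 928 2 3, .t 937 2 3, .f 818 1 3] 119 136 [2, 4] [(116, 136, [2, 4, 4, 4, 4]), (117, 136,
  [2, 4, 4, 4]), (118, 136, [2, 4, 4]), (119, 136, [2, 4])]) (.red [.f 800 5 3, .f 801 3 5, .f 809
  5 3, .f 681 3 1] 102 136 [2, 2, 4, 4] [(102, 136, [2, 2, 4, 4])]) .no) .no (.hor [.f 553 3 5]
  []) .no .no) (.hor [.t 697 2 4, .f 562 1 5] [(87, 103, [2])]) (.red [.t 696 4 2, .f 696 5 1, .t
  697 1 4] 103 136 [2, 2, 4] [(87, 103, [2]), (103, 136, [2, 2, 4])])) .no) .no .no) .no .no)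
  (.con 136 [2, 2, 4, 4, 1, 3]) .no (.con 136 [2, 2, 4, 4, 1, 3])) .no .no

def c27t984 : Tr4 :=
  .br 809 .no (.use 57) .no (.use 977) (.red [.f 809 5 3, .f 810 3 1, .f 818 1 3] 119 136 [2, 4]
  [(118, 136, [2, 4, 4]), (119, 136, [2, 4])]) (.br 1338 (.use 871) .no .no (.br 1075 (.br 1194
  (.con 136 [4, 4, 1, 1, 3, 2, 2, 2]) (.con 136 [4, 4, 1, 1, 3, 2, 2, 2]) (.br 689 .no (.hor [.f
  561 1 3, .f 688 3 5] [(87, 86, [3])]) .no (.br 811 (.con 136 [2, 2, 4, 4, 1, 3]) (.con 136 [2,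
  2, 4, 4, 1, 3]) (.br 928 (.hor [.f 928 1 3, .f 928 3 5] [(133, 102, [1, 4, 1])]) (.red [.t 928 2
  3, .t 937 2 3, .f 818 1 3] 119 136 [2, 4] [(117, 136, [2, 4, 4, 4]), (118, 136, [2, 4, 4]),
  (119, 136, [2, 4])]) .no (.br 1066 .no .no .no (.use 982) (.br 810 .no (.use 55) .no (.br 682
  .no (.use 627) .no (.red [.f 674 3 1, .t 681 3 1] 102 136 [2, 2, 4, 4] [(101, 136, [2, 2, 4, 4,
  4]), (102, 136, [2, 2, 4, 4])]) (.br 561 .no (.use 151) .no (.br 562 .no (.br 800 .no (.use 172)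
  .no (.red [.f 792 3 1, .t 928 2 3, .t 937 2 3, .f 818 1 3] 119 136 [2, 4] [(116, 136, [2, 4, 4,
  4, 4]), (117, 136, [2, 4, 4, 4]), (118, 136, [2, 4, 4]), (119, 136, [2, 4])]) (.red [.f 800 5 3,
  .f 801 3 5, .f 809 5 3, .f 681 3 1] 102 136 [2, 2, 4, 4] [(102, 136, [2, 2, 4, 4])]) .no) .no
  (.hor [.f 553 3 5] []) .no .no) (.hor [.t 697 2 4, .f 562 1 5] [(87, 103, [2])]) (.red [.t 696 4
  2, .f 696 5 1, .t 697 1 4] 103 136 [2, 2, 4] [(87, 103, [2]), (103, 136, [2, 2, 4])])) .no) .no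
  .no) .no) .no .no) (.con 136 [2, 2, 4, 4, 1, 3]) .no (.con 136 [2, 2, 4, 4, 1, 3])) .no .no)
  (.con 136 [4, 4, 1, 1, 3, 2, 2, 2]) (.con 136 [4, 4, 1, 1, 3, 2, 2, 2]) .no) .no .no (.use 983)
  .no .no) .no .no)

def c27t985 : Tr4 :=
  .br 696 .no (.hor [.f 568 1 5] []) .no (.br 570 .no (.use 978) (.use 984) (.hor [.f 562 3 1, .f
  562 1 5] [(87, 103, [2])]) (.hor [.t 690 3 2, .f 569 1 5] [(87, 103, [2])]) .no) .no .no

def c27t986 : Tr4 :=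
  .br 698 .no (.hor [.f 569 1 5] []) .no .no .no .no

def c27t987 : Tr4 :=
  .br 809 .no (.con 136 [2, 2, 4, 4, 2]) .no (.use 964) (.red [.f 809 5 3, .f 810 3 1, .f 818 1 3]
  119 136 [2, 4] [(118, 136, [2, 4, 4]), (119, 136, [2, 4])]) (.use 135)

def c27t988 : Tr4 :=
  .br 561 .no (.use 952) .no (.use 267) (.hor [.t 697 2 4, .f 562 1 5] [(87, 103, [2])]) (.red [.t
  696 4 2, .f 696 5 1, .t 697 1 4] 103 136 [2, 2, 4] [(87, 103, [2]), (103, 136, [2, 2, 4])])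

def c27t989 : Tr4 :=
  .br 809 .no (.use 57) .no (.use 977) (.red [.f 809 5 3, .f 810 3 1, .f 818 1 3] 119 136 [2, 4]
  [(118, 136, [2, 4, 4]), (119, 136, [2, 4])]) (.br 578 .no (.hor [.f 449 1 5] []) (.br 689 .no
  (.hor [.f 561 1 3, .f 688 3 5] [(87, 86, [3])]) .no (.br 811 (.con 136 [2, 2, 4, 4, 1, 3]) (.con
  136 [2, 2, 4, 4, 1, 3]) (.br 568 .no (.use 988) .no (.hor [.f 560 3 1, .f 568 1 5] [(87, 103,
  [2])]) .no .no) (.con 136 [2, 2, 4, 4, 1, 3]) .no (.con 136 [2, 2, 4, 4, 1, 3])) .no .no) .no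
  .no .no)

def c27t990 : Tr4 :=
  .br 809 .no (.con 136 [2, 4, 2, 4, 2]) .no (.use 964) (.red [.f 809 5 3, .f 810 3 1, .f 818 1 3]
  119 136 [2, 4] [(118, 136, [2, 4, 4]), (119, 136, [2, 4])]) (.use 135)

def c27t991 : Tr4 :=
  .br 578 .no (.hor [.f 449 1 5] []) (.br 576 .no (.hor [.f 448 1 5] []) (.con 136 [2, 2, 2, 2,
  3]) (.red [.f 568 3 1, .f 568 1 5] 88 136 [2, 2, 2] [(88, 136, [2, 2, 2])]) .no .no) (.red [.t
  569 1 3, .f 578 1 5] 88 136 [2, 2, 2] [(88, 136, [2, 2, 2])]) .no .no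

def c27t992 : Tr4 :=
  .br 811 (.con 136 [2, 2, 4, 4, 1, 3]) (.con 136 [2, 2, 4, 4, 1, 3]) (.br 810 .no (.red [.t 690 3
  2, .t 810 2 3, .f 691 1 3, .f 563 3 1] 103 136 [2, 2, 4] [(102, 136, [2, 2, 4, 4]), (103, 136,
  [2, 2, 4])]) .no (.br 682 .no (.br 809 .no .no .no (.hor [.f 801 3 5] []) .no (.br 928 (.hor [.f
  928 1 3, .f 928 3 5] [(133, 101, [1, 1])]) (.red [.t 928 2 3, .t 937 2 3, .f 818 1 3] 119 136
  [2, 4] [(117, 136, [2, 4, 4, 4]), (118, 136, [2, 4, 4]), (119, 136, [2, 4])]) .no (.use 627) .no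
  .no)) .no (.red [.f 674 3 1, .t 681 3 1] 102 136 [2, 2, 4, 4] [(101, 136, [2, 2, 4, 4, 4]),
  (102, 136, [2, 2, 4, 4])]) (.red [.t 690 3 2, .f 682 5 3, .f 683 3 1, .f 691 1 3, .f 563 3 1]
  103 136 [2, 2, 4] [(102, 136, [2, 2, 4, 4]), (103, 136, [2, 2, 4])]) .no) .no (.red [.f 809 5 3,
  .f 810 3 5, .t 954 2 4] 119 136 [2, 4] [(119, 136, [2, 4])])) (.con 136 [2, 2, 4, 4, 1, 3]) .no
  (.con 136 [2, 2, 4, 4, 1, 3])

def c27t993 : Tr4 :=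
  .br 576 .no (.br 568 .no (.red [.f 440 1 3] 72 136 [2, 2, 2, 2] [(72, 136, [2, 2, 2, 2])]) .no
  (.br 570 .no (.red [.f 442 1 3] 72 136 [2, 2, 2, 2] [(72, 136, [2, 2, 2, 2])]) .no (.con 136 [2,
  2, 2, 4, 2]) (.br 689 .no (.con 136 [2, 2, 2, 4, 4]) .no (.use 992) .no (.red [.t 568 4 1, .f
  689 3 5, .f 697 5 3, .t 706 4 2] 88 136 [2, 2, 2] [(87, 71, [1]), (88, 136, [2, 2, 2])])) .no)
  .no .no) (.hor [.f 576 3 5] []) (.red [.f 568 3 1, .f 568 1 5] 88 136 [2, 2, 2] [(88, 136, [2,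
  2, 2])]) .no .no

def c27t994 : Tr4 :=
  .br 698 .no (.con 136 [2, 2, 2, 4]) .no (.hor [.f 689 3 5] []) .no .no

def c27t995 : Tr4 :=
  .br 569 .no (.hor [.f 440 1 5] []) (.br 570 .no (.con 136 [2, 2, 2, 2]) (.hor [.f 569 3 5] [])
  (.con 136 [2, 2, 2, 2]) (.con 136 [2, 2, 2, 2]) .no) (.red [.f 689 5 3, .f 561 3 1] 87 136 [2,
  2, 2, 4] [(87, 136, [2, 2, 2, 4])]) (.br 576 .no (.red [.f 440 1 3] 72 136 [2, 2, 2, 2] [(72,
  136, [2, 2, 2, 2])]) (.br 577 .no (.br 811 (.con 136 [2, 2, 4, 4, 1, 3]) (.con 136 [2, 2, 4, 4,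
  1, 3]) (.br 578 .no (.hor [.f 449 1 5] []) (.con 136 [2, 2, 2, 2, 3]) .no .no .no) (.con 136 [2,
  2, 4, 4, 1, 3]) .no (.con 136 [2, 2, 4, 4, 1, 3])) (.hor [.f 576 3 5] []) .no (.red [.f 697 5 3,
  .f 569 5 3, .f 570 3 1] 88 136 [2, 2, 2] [(88, 136, [2, 2, 2])]) .no) .no (.red [.f 569 5 1, .t
  696 3 2] 88 136 [2, 2, 2] [(88, 136, [2, 2, 2])]) .no) .no

def c27t996 : Tr4 :=
  .br 688 .no (.red [.f 689 5 3, .t 688 2 3] 87 136 [2, 2, 2, 4] [(87, 136, [2, 2, 2, 4])]) .no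
  (.con 136 [2, 2, 2, 4, 4]) .no .no

def c27t997 : Tr4 :=
  .br 568 .no (.use 995) (.red [.f 568 3 1] 88 136 [2, 2, 2] [(88, 136, [2, 2, 2])]) (.con 136 [2,
  2, 2, 4, 4]) (.use 996) .no

def c27t998 : Tr4 :=
  .br 704 .no (.hor [.f 576 1 5] []) (.br 706 .no (.hor [.f 577 1 5] []) (.hor [.t 970 2 4, .f 706
  3 1, .f 713 1 5] [(105, 136, [2, 2, 3]), (121, 136, [2, 3])]) .no (.br 696 .no (.hor [.f 568 1
  5] []) .no (.br 570 .no (.br 576 .no (.br 809 .no (.use 57) .no (.use 977) (.red [.f 809 5 3, .f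
  810 3 1, .f 818 1 3] 119 136 [2, 4] [(118, 136, [2, 4, 4]), (119, 136, [2, 4])]) (.br 568 .no
  (.br 689 .no (.hor [.f 561 1 3, .f 688 3 5] [(87, 86, [3])]) .no (.br 811 (.con 136 [2, 2, 4, 4,
  1, 3]) (.con 136 [2, 2, 4, 4, 1, 3]) (.use 953) (.con 136 [2, 2, 4, 4, 1, 3]) .no (.con 136 [2,
  2, 4, 4, 1, 3])) .no .no) .no (.hor [.f 560 3 1, .f 568 1 5] [(87, 103, [2])]) .no .no)) (.hor
  [.f 576 3 1, .f 576 1 5] [(89, 103, [2, 3, 3])]) (.hor [.f 569 1 3, .f 568 3 5] [(88, 136, [2,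
  2, 2])]) .no .no) (.hor [.f 569 1 3, .f 569 3 5] [(88, 136, [2, 2, 2])]) (.hor [.f 562 3 1, .f
  562 1 5] [(87, 103, [2])]) (.hor [.t 690 3 2, .f 569 1 5] [(87, 103, [2])]) .no) .no .no) .no)
  (.red [.f 569 1 3] 88 136 [2, 2, 2] [(88, 136, [2, 2, 2])]) .no .no

def c27t999 : Tr4 :=
  .br 576 .no (.hor [.f 448 1 5] []) (.br 578 .no (.hor [.f 449 1 5] []) (.con 136 [2, 2, 2, 2,
  3]) (.red [.t 569 1 3, .f 696 3 5] 88 136 [2, 2, 2] [(88, 136, [2, 2, 2])]) (.con 136 [2, 2, 2,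
  2, 3]) .no) (.red [.f 568 3 1, .f 568 1 5] 88 136 [2, 2, 2] [(88, 136, [2, 2, 2])]) .no .no

def c27t1000 : Tr4 :=
  .br 704 .no (.br 696 .no (.hor [.f 568 1 5] []) .no (.br 712 .no (.br 579 (.br 577 .no (.br 570
  .no (.use 989) (.hor [.t 569 1 3, .f 578 1 5] [(88, 136, [2, 2, 2])]) (.hor [.f 562 3 1, .f 562
  1 5] [(87, 103, [2])]) (.hor [.t 690 3 2, .f 569 1 5] [(87, 103, [2])]) .no) (.hor [.f 576 1 3,
  .f 576 3 5] [(89, 136, [2, 2, 2, 3])]) .no (.hor [.f 577 5 1, .f 576 1 5, .f 578 1 5] []) .no)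
  (.red [.f 576 1 3] 89 136 [2, 2, 2, 3] [(89, 136, [2, 2, 2, 3])]) (.red [.f 576 1 3] 89 136 [2,
  2, 2, 3] [(89, 136, [2, 2, 2, 3])]) (.red [.f 576 1 3] 89 136 [2, 2, 2, 3] [(89, 136, [2, 2, 2,
  3])]) .no (.red [.f 576 1 3] 89 136 [2, 2, 2, 3] [(89, 136, [2, 2, 2, 3])])) (.hor [.f 712 3 1,
  .f 712 1 5] [(106, 103, [3, 3, 3])]) .no .no .no) .no .no) (.hor [.t 970 2 4, .t 841 2 4, .f 704
  3 5] [(105, 136, [2, 2, 3]), (121, 136, [2, 3])]) (.br 577 .no (.use 999) (.br 578 .no (.br 579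
  (.use 993) (.red [.t 970 2 4, .t 841 2 4, .f 577 3 1] 89 136 [2, 2, 2, 3] [(89, 136, [2, 2, 2,
  3]), (105, 136, [2, 2, 3]), (121, 136, [2, 3])]) (.red [.t 970 2 4, .t 841 2 4, .f 577 3 1] 89
  136 [2, 2, 2, 3] [(89, 136, [2, 2, 2, 3]), (105, 136, [2, 2, 3]), (121, 136, [2, 3])]) (.red [.t
  970 2 4, .t 841 2 4, .f 577 3 1] 89 136 [2, 2, 2, 3] [(89, 136, [2, 2, 2, 3]), (105, 136, [2, 2,
  3]), (121, 136, [2, 3])]) .no .no) (.hor [.f 577 3 5] []) (.red [.t 569 1 3, .f 696 3 5] 88 136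
  [2, 2, 2] [(88, 136, [2, 2, 2])]) (.red [.t 970 2 4, .t 841 2 4, .f 577 3 1] 89 136 [2, 2, 2, 3]
  [(89, 136, [2, 2, 2, 3]), (105, 136, [2, 2, 3]), (121, 136, [2, 3])]) .no) .no (.red [.f 577 5
  1, .f 569 1 3] 88 136 [2, 2, 2] [(88, 136, [2, 2, 2])]) (.red [.t 696 3 2] 88 136 [2, 2, 2]
  [(88, 136, [2, 2, 2])])) .no .no

def c27t1001 : Tr4 :=
  .br 569 .no (.use 961) .no (.red [.f 689 5 3, .f 561 3 1, .f 569 1 3] 88 136 [2, 2, 2] [(87,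
  136, [2, 2, 2, 4]), (88, 136, [2, 2, 2])]) (.red [.f 569 5 1, .f 569 1 3] 88 136 [2, 2, 2] [(88,
  136, [2, 2, 2])]) (.use 996)

def c27t1002 : Tr4 :=
  .br 578 .no (.con 136 [2, 2, 2, 2]) (.con 136 [2, 2, 2, 2]) (.hor [.f 569 3 5] []) (.con 136 [2,
  2, 2, 2]) .no

def c27t1003 : Tr4 :=
  .br 576 .no (.hor [.f 448 1 5] []) (.br 579 .no (.con 136 [2, 2, 2, 2, 3]) (.red [.f 569 5 1, .f
  579 3 1] 89 136 [2, 2, 2, 3] [(89, 136, [2, 2, 2, 3])]) (.con 136 [2, 2, 2, 2]) .no (.con 136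
  [2, 2, 2, 2, 3])) .no .no .no

def c27t1004 : Tr4 :=
  .br 696 .no (.use 651) (.br 705 .no (.br 706 .no (.hor [.f 577 1 5] []) (.hor [.t 970 2 4, .f
  706 3 1, .f 713 1 5] [(105, 136, [2, 2, 3]), (121, 136, [2, 3])]) (.con 136 [2, 2, 2]) (.br 697
  .no (.red [.f 569 1 3] 88 136 [2, 2, 2] [(88, 136, [2, 2, 2])]) .no .no (.use 1001) .no) .no)
  .no (.hor [.f 696 3 5] []) (.br 698 .no (.br 569 (.hor [.f 569 1 5] []) (.con 136 [2, 2, 2, 4])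
  (.con 136 [2, 2, 2, 4]) (.con 136 [2, 2, 2, 4]) .no (.con 136 [2, 2, 2, 4])) .no .no .no (.br
  568 .no (.br 707 .no (.use 995) (.br 569 .no (.hor [.f 440 1 5] []) (.use 1002) (.red [.f 689 5
  3, .f 561 3 1] 87 136 [2, 2, 2, 4] [(87, 136, [2, 2, 2, 4])]) (.br 577 .no (.use 1003) (.red [.t
  970 2 4, .t 841 2 4, .f 577 3 1] 89 136 [2, 2, 2, 3] [(89, 136, [2, 2, 2, 3]), (105, 136, [2, 2,
  3]), (121, 136, [2, 3])]) .no (.red [.f 697 5 3, .f 569 5 3, .f 570 3 1] 88 136 [2, 2, 2] [(88,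
  136, [2, 2, 2])]) (.red [.f 569 5 1, .t 696 3 2] 88 136 [2, 2, 2] [(88, 136, [2, 2, 2])])) .no)
  .no .no .no) (.red [.f 568 3 1] 88 136 [2, 2, 2] [(88, 136, [2, 2, 2])]) (.con 136 [2, 2, 2, 4,
  4]) (.use 996) .no)) .no) (.red [.f 689 5 1, .t 688 3 1] 103 136 [2, 2, 4] [(103, 136, [2, 2,
  4])]) (.red [.f 696 5 1, .f 689 5 1, .f 689 1 3] 103 136 [2, 2, 4] [(103, 136, [2, 2, 4])]) .no

def c27t1005 : Tr4 :=
  .br 698 .no (.con 136 [2, 2, 2, 4]) .no (.hor [.f 689 3 5] []) .no .no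

def c27t1006 : Tr4 :=
  .br 690 .no (.use 51) (.br 697 .no (.use 57) .no (.hor [.f 688 3 5] []) .no .no) (.con 136 [2,
  2, 4, 4, 4]) (.use 946) (.use 156)

def c27t1007 : Tr4 :=
  .br 819 .no (.red [.f 691 1 3] 103 136 [2, 2, 4] [(103, 136, [2, 2, 4])]) .no (.use 1006) .no
  .no

def c27t1008 : Tr4 :=
  .br 696 .no (.br 697 .no (.hor [.f 568 1 5] []) .no (.use 1005) (.br 691 (.red [.f 691 1 3] 103
  136 [2, 2, 4] [(103, 136, [2, 2, 4])]) (.br 690 .no (.use 820) .no (.con 136 [2, 2, 4, 4, 2])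
  .no (.use 651)) .no (.use 963) .no (.use 967)) .no) .no (.use 1007) (.br 698 .no (.use 951) .no
  (.red [.f 696 5 3, .f 696 3 5, .f 696 5 1, .t 697 1 4] 103 136 [2, 2, 4] [(103, 136, [2, 2,
  4])]) .no .no) .no

def c27t1009 : Tr4 :=
  .br 809 .no (.use 1008) .no (.hor [.f 808 1 3, .f 801 3 1, .f 808 3 1, .f 808 1 5] [(117, 136,
  [2, 4, 4, 4])]) (.red [.f 809 5 3, .f 810 3 1, .f 818 1 3] 119 136 [2, 4] [(118, 136, [2, 4,
  4]), (119, 136, [2, 4])]) .no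

def c27t1010 : Tr4 :=
  .br 809 .no (.use 1007) .no (.hor [.f 808 1 3, .f 801 3 1, .f 808 3 1, .f 808 1 5] [(117, 136,
  [2, 4, 4, 4])]) (.red [.f 809 5 3, .f 810 3 1, .f 818 1 3] 119 136 [2, 4] [(118, 136, [2, 4,
  4]), (119, 136, [2, 4])]) .no

def c27t1011 : Tr4 :=
  .br 696 .no (.hor [.f 568 1 5] []) .no (.use 1010) .no .no

def c27t1012 : Tr4 :=
  .br 697 .no (.use 1011) .no (.use 944) .no (.use 942)

def c27t1013 : Tr4 :=
  .br 696 .no (.hor [.f 568 1 5] []) .no (.use 819) .no .no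

def c27t1014 : Tr4 :=
  .br 698 .no (.br 697 .no (.hor [.f 569 1 5] []) .no (.use 948) .no (.use 951)) .no (.br 697 .no
  (.use 1013) .no (.hor [.f 689 3 5] []) .no (.red [.f 696 5 1, .t 697 1 4] 103 136 [2, 2, 4]
  [(103, 136, [2, 2, 4])])) .no (.use 947)

def c27t1015 : Tr4 :=
  .br 688 .no .no .no (.con 136 [2, 2, 4, 4, 2]) (.red [.t 568 4 1, .f 689 3 5, .f 697 5 3, .t 706
  4 2] 88 136 [2, 2, 2] [(87, 71, [1]), (88, 136, [2, 2, 2])]) .no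

def c27t1016 : Tr4 :=
  .br 568 .no (.red [.f 440 1 3] 72 136 [2, 2, 2, 2] [(72, 136, [2, 2, 2, 2])]) .no (.br 570 .no
  (.red [.f 442 1 3] 72 136 [2, 2, 2, 2] [(72, 136, [2, 2, 2, 2])]) .no (.con 136 [2, 2, 2, 4, 2])
  (.use 1015) .no) .no .no

def c27l30 : List Tr4 :=
  [c27t983, c27t984, c27t985, c27t986, c27t987, c27t988, c27t989, c27t990, c27t991, c27t992,
  c27t993, c27t994, c27t995, c27t996, c27t997, c27t998, c27t999, c27t1000, c27t1001, c27t1002,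
  c27t1003, c27t1004, c27t1005, c27t1006, c27t1007, c27t1008, c27t1009, c27t1010, c27t1011,
  c27t1012, c27t1013, c27t1014, c27t1015, c27t1016]

theorem c27k30 : chkLF ⟨4, 1, 0, true, -8⟩ false 7 c27N 983 c27l30 = true := by decide +kernel

def c27t1017 : Tr4 :=
  .br 698 .no (.hor [.f 569 1 5] []) .no (.br 577 .no (.use 991) (.br 809 .no (.br 578 .no (.br
  691 (.red [.f 691 1 3, .f 690 3 5] 103 136 [2, 2, 4] [(103, 136, [2, 2, 4])]) (.br 576 .no (.use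
  1016) (.hor [.f 576 3 5] []) (.red [.f 568 3 1, .f 568 1 5] 88 136 [2, 2, 2] [(88, 136, [2, 2,
  2])]) .no .no) .no (.use 963) .no .no) (.hor [.f 577 3 5] []) (.red [.t 569 1 3, .f 578 1 5] 88
  136 [2, 2, 2] [(88, 136, [2, 2, 2])]) .no .no) .no (.hor [.f 808 1 3, .f 801 3 1, .f 808 3 1, .f
  808 1 5] [(117, 136, [2, 4, 4, 4])]) (.red [.f 809 5 3, .f 810 3 1, .f 818 1 3] 119 136 [2, 4]
  [(118, 136, [2, 4, 4]), (119, 136, [2, 4])]) .no) .no (.red [.f 577 5 1, .f 569 1 3] 88 136 [2,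
  2, 2] [(88, 136, [2, 2, 2])]) (.red [.t 696 3 2] 88 136 [2, 2, 2] [(88, 136, [2, 2, 2])])) .no
  .no

def c27t1018 : Tr4 :=
  .br 691 (.red [.f 697 5 3, .f 691 1 3] 103 136 [2, 2, 4] [(103, 136, [2, 2, 4])]) (.br 690 .no
  (.use 820) .no (.use 966) .no (.use 997)) .no (.use 963) .no (.use 968)

def c27t1019 : Tr4 :=
  .br 697 .no (.use 1017) .no (.use 994) (.use 1018) .no

def c27t1020 : Tr4 :=
  .br 570 .no (.red [.f 442 1 3] 72 136 [2, 2, 2, 2] [(72, 136, [2, 2, 2, 2])]) .no (.br 579 (.use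
  1016) (.red [.t 970 2 4, .t 841 2 4, .f 577 3 1] 89 136 [2, 2, 2, 3] [(89, 136, [2, 2, 2, 3]),
  (105, 136, [2, 2, 3]), (121, 136, [2, 3])]) (.red [.t 970 2 4, .t 841 2 4, .f 577 3 1] 89 136
  [2, 2, 2, 3] [(89, 136, [2, 2, 2, 3]), (105, 136, [2, 2, 3]), (121, 136, [2, 3])]) (.con 136 [2,
  2, 2, 2]) .no .no) (.br 568 .no (.red [.f 440 1 3] 72 136 [2, 2, 2, 2] [(72, 136, [2, 2, 2,
  2])]) .no (.br 707 .no (.use 1015) (.red [.t 970 2 4, .t 841 2 4, .f 577 3 1] 89 136 [2, 2, 2,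
  3] [(89, 136, [2, 2, 2, 3]), (105, 136, [2, 2, 3]), (121, 136, [2, 3])]) .no .no .no) .no .no)
  .no

def c27t1021 : Tr4 :=
  .br 576 .no (.use 1020) (.hor [.f 576 3 5] []) (.red [.f 568 3 1, .f 568 1 5] 88 136 [2, 2, 2]
  [(88, 136, [2, 2, 2])]) .no .no

def c27t1022 : Tr4 :=
  .br 705 .no (.red [.f 569 1 3] 88 136 [2, 2, 2] [(88, 136, [2, 2, 2])]) .no .no (.br 577 .no
  (.use 999) (.br 578 .no (.use 1021) (.hor [.f 577 3 5] []) (.red [.t 569 1 3, .f 696 3 5] 88 136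
  [2, 2, 2] [(88, 136, [2, 2, 2])]) (.red [.t 970 2 4, .t 841 2 4, .f 577 3 1] 89 136 [2, 2, 2, 3]
  [(89, 136, [2, 2, 2, 3]), (105, 136, [2, 2, 3]), (121, 136, [2, 3])]) .no) .no (.red [.f 577 5
  1, .f 569 1 3] 88 136 [2, 2, 2] [(88, 136, [2, 2, 2])]) (.red [.t 696 3 2] 88 136 [2, 2, 2]
  [(88, 136, [2, 2, 2])])) .no

def c27t1023 : Tr4 :=
  .br 690 .no (.use 820) (.br 697 .no (.br 704 .no (.use 1013) (.use 58) (.use 1022) (.use 154)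
  .no) (.red [.f 824 5 3, .f 697 3 1, .t 697 1 4] 103 136 [2, 2, 4] [(103, 136, [2, 2, 4]), (104,
  136, [2, 2])]) (.hor [.f 689 3 5] []) .no (.red [.f 696 5 1, .t 697 1 4] 103 136 [2, 2, 4]
  [(103, 136, [2, 2, 4])])) (.con 136 [2, 2, 4, 4, 2]) .no (.use 1004)

def c27t1024 : Tr4 :=
  .br 704 .no (.hor [.f 576 1 5] []) (.use 658) (.con 136 [2, 2, 2]) .no .no

def c27t1025 : Tr4 :=
  .br 697 .no (.red [.f 569 1 3] 88 136 [2, 2, 2] [(88, 136, [2, 2, 2])]) .no (.use 1024) .no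
  (.use 940)

def c27t1026 : Tr4 :=
  .br 809 .no (.br 691 (.red [.f 691 1 3] 103 136 [2, 2, 4] [(103, 136, [2, 2, 4])]) (.use 1023)
  .no (.use 963) .no (.br 698 .no (.use 949) (.br 705 .no (.use 1025) .no (.hor [.f 697 3 5] [])
  .no (.use 1012)) .no .no (.use 967))) .no (.hor [.f 808 1 3, .f 801 3 1, .f 808 3 1, .f 808 1 5]
  [(117, 136, [2, 4, 4, 4])]) (.red [.f 809 5 3, .f 810 3 1, .f 818 1 3] 119 136 [2, 4] [(118,
  136, [2, 4, 4]), (119, 136, [2, 4])]) .no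

def c27t1027 : Tr4 :=
  .br 704 .no (.hor [.f 576 1 5] []) (.use 864) (.red [.f 569 1 3] 88 136 [2, 2, 2] [(88, 136, [2,
  2, 2])]) .no .no

def c27t1028 : Tr4 :=
  .br 810 .no (.red [.t 690 3 2, .t 810 2 3, .f 691 1 3, .f 563 3 1] 103 136 [2, 2, 4] [(102, 136,
  [2, 2, 4, 4]), (103, 136, [2, 2, 4])]) .no (.hor [.f 801 3 5] []) .no .no

def c27t1029 : Tr4 :=
  .br 568 .no (.red [.f 440 1 3] 72 136 [2, 2, 2, 2] [(72, 136, [2, 2, 2, 2])]) .no (.br 570 .no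
  (.red [.f 442 1 3] 72 136 [2, 2, 2, 2] [(72, 136, [2, 2, 2, 2])]) .no (.con 136 [2, 2, 2, 4, 2])
  (.br 689 .no (.con 136 [2, 2, 2, 4, 4]) .no (.br 811 (.con 136 [2, 2, 4, 4, 1, 1, 3, 2]) (.con
  136 [2, 2, 4, 4, 1, 1, 3, 2]) (.use 1028) (.con 136 [2, 2, 4, 4, 1, 1, 3, 2]) .no (.con 136 [2,
  2, 4, 4, 1, 1, 3, 2])) .no (.red [.t 568 4 1, .f 689 3 5, .f 697 5 3, .t 706 4 2] 88 136 [2, 2,
  2] [(87, 71, [1]), (88, 136, [2, 2, 2])])) .no) .no .no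

def c27t1030 : Tr4 :=
  .br 691 (.red [.f 691 1 3] 103 136 [2, 2, 4] [(103, 136, [2, 2, 4])]) (.br 690 .no (.use 820)
  (.br 697 .no (.br 705 .no (.use 1027) .no .no (.br 696 .no (.hor [.f 568 1 5] []) (.br 577 .no
  (.use 999) (.br 578 .no (.br 576 .no (.br 809 .no (.use 1020) .no (.br 579 (.use 1029) (.red [.t
  970 2 4, .t 841 2 4, .f 577 3 1] 89 136 [2, 2, 2, 3] [(89, 136, [2, 2, 2, 3]), (105, 136, [2, 2,
  3]), (121, 136, [2, 3])]) (.red [.t 970 2 4, .t 841 2 4, .f 577 3 1] 89 136 [2, 2, 2, 3] [(89,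
  136, [2, 2, 2, 3]), (105, 136, [2, 2, 3]), (121, 136, [2, 3])]) (.con 136 [2, 2, 2, 2]) .no .no)
  (.red [.f 809 5 3, .f 810 3 1, .f 818 1 3] 119 136 [2, 4] [(118, 136, [2, 4, 4]), (119, 136, [2,
  4])]) (.red [.f 808 5 1, .t 937 2 3, .f 818 1 3] 119 136 [2, 4] [(118, 136, [2, 4, 4]), (119,
  136, [2, 4])])) (.hor [.f 576 3 5] []) (.red [.f 568 3 1, .f 568 1 5] 88 136 [2, 2, 2] [(88,
  136, [2, 2, 2])]) .no .no) (.hor [.f 577 3 5] []) (.red [.t 569 1 3, .f 696 3 5] 88 136 [2, 2,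
  2] [(88, 136, [2, 2, 2])]) (.red [.t 970 2 4, .t 841 2 4, .f 577 3 1] 89 136 [2, 2, 2, 3] [(89,
  136, [2, 2, 2, 3]), (105, 136, [2, 2, 3]), (121, 136, [2, 3])]) .no) .no (.red [.f 577 5 1, .f
  569 1 3] 88 136 [2, 2, 2] [(88, 136, [2, 2, 2])]) (.red [.t 696 3 2] 88 136 [2, 2, 2] [(88, 136,
  [2, 2, 2])])) (.use 866) .no .no) (.use 867)) (.red [.f 824 5 3, .f 697 3 1, .t 697 1 4] 103 136
  [2, 2, 4] [(103, 136, [2, 2, 4]), (104, 136, [2, 2])]) (.hor [.f 689 3 5] []) .no (.red [.f 696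
  5 1, .t 697 1 4] 103 136 [2, 2, 4] [(103, 136, [2, 2, 4])])) (.use 971) .no (.use 1004)) .no
  (.use 963) .no (.use 858)

def c27t1031 : Tr4 :=
  .br 1346 (.use 981) .no (.br 1105 .no .no (.br 1106 (.red [.f 1098 1 3, .f 1225 3 5, .t 1345 2
  3, .f 1089 3 1, .t 1097 1 3] 153 136 [3, 1] [(153, 136, [3, 1]), (169, 136, [3, 1, 1])]) (.br
  818 .no (.use 6) .no (.red [.f 810 3 1, .f 818 1 3] 119 136 [2, 4] [(118, 136, [2, 4, 4]), (119,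
  136, [2, 4])]) (.red [.f 824 5 3, .t 954 2 4] 119 136 [2, 4] [(119, 136, [2, 4])]) (.br 944 .no
  (.br 1337 (.br 1201 (.br 840 .no (.hor [.f 712 1 5] []) (.br 937 (.red [.f 937 1 3, .f 937 3 5,
  .f 817 5 1, .f 818 1 3] 119 136 [2, 4] [(119, 136, [2, 4]), (134, 118, [1])]) (.red [.t 937 2 3,
  .f 818 1 3] 119 136 [2, 4] [(118, 136, [2, 4, 4]), (119, 136, [2, 4])]) .no (.br 936 (.br 1065
  (.br 691 (.red [.f 691 1 3] 103 136 [2, 2, 4] [(103, 136, [2, 2, 4])]) (.br 690 .no (.use 820)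
  (.br 697 .no (.br 705 .no (.use 998) .no .no (.use 1000) (.use 985)) (.red [.f 824 5 3, .f 697 3
  1, .t 697 1 4] 103 136 [2, 2, 4] [(103, 136, [2, 2, 4]), (104, 136, [2, 2])]) (.hor [.f 689 3 5]
  []) .no (.red [.f 696 5 1, .t 697 1 4] 103 136 [2, 2, 4] [(103, 136, [2, 2, 4])])) (.use 990)
  .no (.use 1004)) .no (.use 963) .no (.use 843)) .no .no (.hor [.f 929 3 1, .f 936 1 5] [(133,
  119, [4, 4, 1])]) (.red [.t 945 1 4, .f 817 5 1, .f 818 1 3] 119 136 [2, 4] [(119, 136, [2, 4]),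
  (134, 118, [1])]) .no) (.use 1026) .no (.use 830) .no .no) .no (.use 1030)) .no .no .no) .no .no
  (.br 937 (.red [.f 937 1 3, .f 937 3 5, .f 817 5 1, .f 818 1 3] 119 136 [2, 4] [(119, 136, [2,
  4]), (134, 118, [1])]) (.red [.t 937 2 3, .f 818 1 3] 119 136 [2, 4] [(118, 136, [2, 4, 4]),
  (119, 136, [2, 4])]) .no (.br 936 (.use 181) (.use 1026) .no (.use 830) .no .no) .no (.use
  1030)) (.red [.t 1081 1 4, .t 961 4 1, .f 945 1 3] 136 136 [] [(135, 136, [4]), (136, 136, []),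
  (151, 135, [1])]) .no) .no .no (.br 937 (.red [.f 937 1 3, .f 937 3 5, .f 817 5 1, .f 818 1 3]
  119 136 [2, 4] [(119, 136, [2, 4]), (134, 118, [1])]) (.red [.t 937 2 3, .f 818 1 3] 119 136 [2,
  4] [(118, 136, [2, 4, 4]), (119, 136, [2, 4])]) .no (.br 936 (.use 637) (.use 1026) .no (.use
  830) .no .no) .no (.use 1030)) (.red [.t 1217 1 4, .t 1097 4 1, .f 1081 1 3] 153 136 [3, 1]
  [(152, 136, [1]), (153, 136, [3, 1]), (168, 152, [1])]) (.con 136 [1, 1, 4, 2, 2, 2])) .no (.use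
  293) .no .no)) (.hor [.f 1105 3 5] []) .no .no .no) .no (.red [.t 1225 3 2, .t 1345 2 3, .f 1089
  3 1, .f 1097 1 3] 153 136 [3, 1] [(153, 136, [3, 1]), (169, 136, [3, 1, 1])]) .no) (.red [.f
  1210 3 1, .f 1217 1 5, .t 1097 4 1] 153 136 [3, 1] [(153, 136, [3, 1]), (168, 152, [1])]) (.red
  [.t 1210 3 1, .f 1217 1 5, .t 1097 4 1, .f 1081 1 3] 153 136 [3, 1] [(152, 136, [1]), (153, 136,
  [3, 1]), (168, 152, [1])]) .no

def c27t1032 : Tr4 :=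
  .br 809 .no (.use 57) .no (.use 977) (.red [.f 809 5 3, .f 810 3 1, .f 818 1 3] 119 136 [2, 4]
  [(118, 136, [2, 4, 4]), (119, 136, [2, 4])]) (.br 1067 (.con 136 [4, 4, 1, 3, 2, 2]) (.con 136
  [4, 4, 1, 3, 2, 2]) (.use 983) (.con 136 [4, 4, 1, 3, 2, 2]) .no (.con 136 [4, 4, 1, 3, 2, 2]))

def c27t1033 : Tr4 :=
  .br 818 .no (.use 6) .no (.red [.f 816 5 3, .f 810 3 1] 118 136 [2, 4, 4] [(118, 136, [2, 4,
  4])]) (.red [.f 824 5 3, .t 954 2 4] 119 136 [2, 4] [(119, 136, [2, 4])]) .no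

def c27t1034 : Tr4 :=
  .br 809 .no (.use 57) .no (.use 977) (.red [.f 809 5 3, .f 810 3 1, .f 818 1 3] 119 136 [2, 4]
  [(118, 136, [2, 4, 4]), (119, 136, [2, 4])]) (.br 689 .no (.hor [.f 561 1 3, .f 688 3 5] [(87,
  86, [3])]) .no (.br 811 (.con 136 [2, 2, 4, 4, 1, 3]) (.con 136 [2, 2, 4, 4, 1, 3]) (.br 568 .no
  (.use 988) (.br 561 .no (.use 952) .no (.br 562 .no (.hor [.f 434 1 3, .f 562 3 1, .f 562 1 5]
  [(71, 103, [2, 2]), (87, 103, [2])]) .no (.hor [.f 553 3 5] []) .no .no) (.hor [.t 697 2 4, .f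
  562 1 5] [(87, 103, [2])]) (.red [.t 696 4 2, .f 696 5 1, .t 697 1 4] 103 136 [2, 2, 4] [(87,
  103, [2]), (103, 136, [2, 2, 4])])) (.hor [.f 560 3 1, .f 568 1 5] [(87, 103, [2])]) .no .no)
  (.con 136 [2, 2, 4, 4, 1, 3]) .no (.con 136 [2, 2, 4, 4, 1, 3])) .no .no)

def c27t1035 : Tr4 :=
  .br 570 .no (.use 1034) (.hor [.t 569 1 3, .f 578 1 5] [(88, 136, [2, 2, 2])]) (.hor [.f 562 3
  1, .f 562 1 5] [(87, 103, [2])]) (.hor [.t 690 3 2, .f 569 1 5] [(87, 103, [2])]) .no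

def c27t1036 : Tr4 :=
  .br 696 .no (.hor [.f 568 1 5] []) .no (.use 1035) .no .no

def c27t1037 : Tr4 :=
  .br 697 .no (.use 1036) .no (.hor [.f 689 3 5] []) .no (.red [.f 696 5 1, .t 697 1 4] 103 136
  [2, 2, 4] [(103, 136, [2, 2, 4])])

def c27t1038 : Tr4 :=
  .br 696 .no (.use 651) .no (.red [.f 689 5 1, .t 688 3 1] 103 136 [2, 2, 4] [(103, 136, [2, 2,
  4])]) (.red [.f 696 5 1, .f 689 5 1, .f 689 1 3] 103 136 [2, 2, 4] [(103, 136, [2, 2, 4])]) .no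

def c27t1039 : Tr4 :=
  .br 704 .no (.br 690 .no (.use 820) (.br 697 .no (.br 696 .no (.hor [.f 568 1 5] []) .no (.br
  570 .no (.br 577 .no (.use 989) (.br 578 .no (.hor [.f 442 1 3, .t 569 1 3, .f 578 1 5] [(72,
  136, [2, 2, 2, 2]), (88, 136, [2, 2, 2])]) (.hor [.f 577 3 5] []) .no .no .no) .no (.hor [.f 577
  5 1, .f 576 1 5, .f 578 1 5] []) .no) (.hor [.t 569 1 3, .f 578 1 5] [(88, 136, [2, 2, 2])])
  (.hor [.f 562 3 1, .f 562 1 5] [(87, 103, [2])]) (.hor [.t 690 3 2, .f 569 1 5] [(87, 103,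
  [2])]) .no) .no .no) .no (.hor [.f 689 3 5] []) .no (.red [.f 696 5 1, .t 697 1 4] 103 136 [2,
  2, 4] [(103, 136, [2, 2, 4])])) (.use 990) .no (.use 945)) (.br 690 .no (.use 820) (.use 1037)
  (.use 990) .no (.use 1038)) (.br 697 .no (.br 698 .no (.hor [.f 569 1 5] []) .no (.br 577 .no
  (.use 991) (.br 578 .no (.use 993) (.hor [.f 577 3 5] []) (.red [.t 569 1 3, .f 578 1 5] 88 136
  [2, 2, 2] [(88, 136, [2, 2, 2])]) .no .no) .no (.red [.f 577 5 1, .f 569 1 3] 88 136 [2, 2, 2]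
  [(88, 136, [2, 2, 2])]) (.red [.t 696 3 2] 88 136 [2, 2, 2] [(88, 136, [2, 2, 2])])) .no .no)
  .no (.use 994) (.br 690 .no (.use 820) .no (.use 965) .no (.use 997)) .no) .no .no

def c27t1040 : Tr4 :=
  .br 579 .no (.use 979) (.red [.f 824 5 3, .f 706 5 1, .f 707 1 3, .f 579 3 1] 89 136 [2, 2, 2,
  3] [(89, 136, [2, 2, 2, 3]), (105, 136, [2, 2, 3])]) (.hor [.f 570 3 5] []) .no .no

def c27t1041 : Tr4 :=
  .br 697 .no (.br 696 .no (.hor [.f 568 1 5] []) .no (.br 570 .no (.use 1034) (.use 1040) (.hor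
  [.f 562 3 1, .f 562 1 5] [(87, 103, [2])]) (.hor [.t 690 3 2, .f 569 1 5] [(87, 103, [2])]) .no)
  .no .no) .no (.hor [.f 689 3 5] []) .no (.red [.f 696 5 1, .t 697 1 4] 103 136 [2, 2, 4] [(103,
  136, [2, 2, 4])])

def c27t1042 : Tr4 :=
  .br 576 .no (.hor [.f 448 1 5] []) (.br 579 .no (.con 136 [2, 2, 2, 3, 2]) (.red [.f 824 5 3, .f
  706 5 1, .f 707 1 3, .f 579 3 1] 89 136 [2, 2, 2, 3] [(89, 136, [2, 2, 2, 3]), (105, 136, [2, 2,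
  3])]) (.con 136 [2, 2, 2, 3, 2]) .no (.con 136 [2, 2, 2, 2, 3])) (.red [.f 568 3 1, .f 568 1 5]
  88 136 [2, 2, 2] [(88, 136, [2, 2, 2])]) .no .no

def c27t1043 : Tr4 :=
  .br 688 .no .no .no (.hor [.f 680 3 5] []) .no .no

def c27t1044 : Tr4 :=
  .br 571 .no (.hor [.f 442 1 5] []) .no .no .no .no

def c27t1045 : Tr4 :=
  .br 682 (.red [.t 690 3 2, .t 810 2 3, .f 691 1 3, .f 563 3 1] 103 136 [2, 2, 4] [(102, 136, [2,
  2, 4, 4]), (103, 136, [2, 2, 4])]) (.con 136 [2, 2, 4, 4, 4]) .no (.con 136 [2, 2, 4, 4, 4])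
  (.con 136 [2, 2, 4, 4, 4]) .no

def c27t1046 : Tr4 :=
  .br 681 .no (.hor [.f 553 1 5] []) .no (.con 136 [2, 4, 2, 4, 4, 2]) .no (.br 801 .no (.hor [.f
  672 1 5] []) .no (.br 683 .no (.hor [.f 554 1 5] []) .no (.con 136 [2, 4, 2, 4, 2, 4]) .no .no)
  .no .no)

def c27l31 : List Tr4 :=
  [c27t1017, c27t1018, c27t1019, c27t1020, c27t1021, c27t1022, c27t1023, c27t1024, c27t1025,
  c27t1026, c27t1027, c27t1028, c27t1029, c27t1030, c27t1031, c27t1032, c27t1033, c27t1034,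
  c27t1035, c27t1036, c27t1037, c27t1038, c27t1039, c27t1040, c27t1041, c27t1042, c27t1043,
  c27t1044, c27t1045, c27t1046]

theorem c27k31 : chkLF ⟨4, 1, 0, true, -8⟩ false 7 c27N 1017 c27l31 = true := by decide +kernel

def c27t1047 : Tr4 :=
  .br 689 .no (.con 136 [2, 2, 2, 4, 4]) .no (.use 992) .no (.br 811 (.con 136 [2, 2, 4, 4, 1, 3])
  (.con 136 [2, 2, 4, 4, 1, 3]) (.br 809 .no (.br 808 .no (.hor [.f 680 1 5] []) .no (.use 1045)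
  .no .no) .no (.use 1028) (.red [.f 809 5 3, .f 810 3 5, .t 954 2 4] 119 136 [2, 4] [(119, 136,
  [2, 4])]) (.br 928 (.hor [.f 928 1 3, .f 928 3 5] [(133, 102, [1, 4, 1])]) (.red [.t 928 2 3, .t
  937 2 3, .f 818 1 3] 119 136 [2, 4] [(117, 136, [2, 4, 4, 4]), (118, 136, [2, 4, 4]), (119, 136,
  [2, 4])]) .no (.br 810 .no (.red [.t 690 3 2, .t 810 2 3, .f 691 1 3, .f 563 3 1] 103 136 [2, 2,
  4] [(102, 136, [2, 2, 4, 4]), (103, 136, [2, 2, 4])]) .no (.br 682 .no (.br 800 .no (.use 1046)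
  .no (.red [.f 792 3 1, .t 928 2 3, .t 937 2 3, .f 818 1 3] 119 136 [2, 4] [(116, 136, [2, 4, 4,
  4, 4]), (117, 136, [2, 4, 4, 4]), (118, 136, [2, 4, 4]), (119, 136, [2, 4])]) (.red [.f 800 5 3,
  .f 801 3 1, .t 937 2 3, .f 818 1 3] 119 136 [2, 4] [(117, 136, [2, 4, 4, 4]), (118, 136, [2, 4,
  4]), (119, 136, [2, 4])]) .no) .no (.red [.f 674 3 1] 101 136 [2, 2, 4, 4, 4] [(101, 136, [2, 2,
  4, 4, 4])]) (.red [.t 690 3 2, .f 682 5 3, .f 683 3 1, .f 691 1 3, .f 563 3 1] 103 136 [2, 2, 4]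
  [(102, 136, [2, 2, 4, 4]), (103, 136, [2, 2, 4])]) (.br 801 .no (.red [.t 801 2 3] 101 136 [2,
  2, 4, 4, 4] [(101, 136, [2, 2, 4, 4, 4])]) .no (.br 683 .no (.red [.f 555 1 3] 86 136 [2, 2, 2,
  4, 4] [(86, 136, [2, 2, 2, 4, 4])]) .no (.br 800 .no (.con 136 [2, 2, 4, 4, 4, 2]) .no (.hor [.f
  792 3 5] []) .no .no) .no .no) .no (.red [.f 800 5 3, .f 801 3 1, .t 937 2 3, .f 818 1 3] 119
  136 [2, 4] [(117, 136, [2, 4, 4, 4]), (118, 136, [2, 4, 4]), (119, 136, [2, 4])]))) .no .no) .no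
  .no)) (.con 136 [2, 2, 4, 4, 1, 3]) .no (.con 136 [2, 2, 4, 4, 1, 3]))

def c27t1048 : Tr4 :=
  .br 568 .no (.red [.f 440 1 3] 72 136 [2, 2, 2, 2] [(72, 136, [2, 2, 2, 2])]) .no (.br 570 .no
  (.use 1044) .no (.con 136 [2, 2, 2, 4, 2]) (.use 1047) .no) .no .no

def c27t1049 : Tr4 :=
  .br 576 .no (.con 136 [2, 2, 2, 2]) (.con 136 [2, 2, 2, 2]) (.red [.f 568 3 1, .f 568 1 5] 88
  136 [2, 2, 2] [(88, 136, [2, 2, 2])]) .no .no

def c27t1050 : Tr4 :=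
  .br 578 .no (.con 136 [2, 2, 2, 2]) (.con 136 [2, 2, 2, 2]) (.hor [.f 569 3 5] []) (.con 136 [2,
  2, 2, 2]) .no

def c27t1051 : Tr4 :=
  .br 568 .no (.br 569 .no (.hor [.f 440 1 5] []) (.use 1050) (.red [.f 689 5 3, .f 561 3 1] 87
  136 [2, 2, 2, 4] [(87, 136, [2, 2, 2, 4])]) (.br 576 .no (.red [.f 440 1 3] 72 136 [2, 2, 2, 2]
  [(72, 136, [2, 2, 2, 2])]) (.br 577 .no (.br 579 .no (.con 136 [2, 2, 2, 2, 3]) (.red [.f 824 5
  3, .f 706 5 1, .f 707 1 3, .f 579 3 1] 89 136 [2, 2, 2, 3] [(89, 136, [2, 2, 2, 3]), (105, 136,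
  [2, 2, 3])]) (.con 136 [2, 2, 2, 2]) .no (.con 136 [2, 2, 2, 2, 3])) (.red [.f 569 5 1, .f 577 3
  1] 89 136 [2, 2, 2, 3] [(89, 136, [2, 2, 2, 3])]) .no (.br 579 .no (.con 136 [2, 2, 2, 2, 3])
  (.red [.f 824 5 3, .f 706 5 1, .f 707 1 3, .f 579 3 1] 89 136 [2, 2, 2, 3] [(89, 136, [2, 2, 2,
  3]), (105, 136, [2, 2, 3])]) (.con 136 [2, 2, 2, 2]) .no .no) .no) .no (.red [.f 569 5 1, .t 696
  3 2] 88 136 [2, 2, 2] [(88, 136, [2, 2, 2])]) .no) .no) (.red [.f 568 3 1] 88 136 [2, 2, 2]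
  [(88, 136, [2, 2, 2])]) (.con 136 [2, 2, 2, 4, 4]) (.use 996) .no

def c27t1052 : Tr4 :=
  .br 707 .no (.br 706 .no (.hor [.f 578 1 5] []) (.hor [.t 714 4 1, .f 835 3 1, .f 842 1 5]
  [(105, 136, [2, 2, 3]), (121, 136, [2, 3])]) (.br 705 .no (.use 943) (.br 704 .no (.br 690 .no
  (.use 820) .no (.use 987) .no (.use 945)) (.hor [.f 704 3 5] []) (.con 136 [2, 2, 2]) .no .no)
  (.hor [.f 697 3 5] []) .no (.br 690 .no (.use 820) .no (.use 987) .no (.use 652))) .no (.use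
  1039)) .no .no .no (.br 705 .no (.br 704 .no (.hor [.f 576 1 5] []) (.use 956) (.br 697 .no
  (.red [.f 569 1 3] 88 136 [2, 2, 2] [(88, 136, [2, 2, 2])]) .no (.use 960) (.br 690 .no (.use
  820) .no (.use 965) .no (.use 1001)) .no) .no .no) (.br 704 .no (.br 690 .no (.use 820) (.use
  1041) (.use 990) .no (.use 945)) (.hor [.f 704 3 5] []) (.br 697 .no (.br 698 .no (.hor [.f 569
  1 5] []) .no (.br 577 .no (.use 1042) (.red [.f 577 3 1, .f 569 1 3] 89 136 [2, 2, 2, 3] [(88,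
  136, [2, 2, 2]), (89, 136, [2, 2, 2, 3])]) .no (.br 579 .no (.br 576 .no (.use 1048) (.con 136
  [2, 2, 2, 2, 3]) (.red [.f 568 3 1, .f 568 1 5] 88 136 [2, 2, 2] [(88, 136, [2, 2, 2])]) .no
  .no) (.red [.f 824 5 3, .f 706 5 1, .f 707 1 3, .f 579 3 1] 89 136 [2, 2, 2, 3] [(89, 136, [2,
  2, 2, 3]), (105, 136, [2, 2, 3])]) (.use 1049) .no .no) (.red [.t 696 3 2] 88 136 [2, 2, 2]
  [(88, 136, [2, 2, 2])])) .no .no) .no (.use 960) (.br 690 .no (.use 820) .no (.use 965) .no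
  (.use 1051)) .no) .no .no) (.use 976) .no (.br 690 .no (.use 820) (.br 697 .no (.use 985) .no
  (.hor [.f 689 3 5] []) .no (.red [.f 696 5 3, .f 696 3 5, .f 696 5 1, .t 697 1 4] 103 136 [2, 2,
  4] [(103, 136, [2, 2, 4])])) (.br 697 .no (.use 986) .no (.con 136 [2, 2, 4, 4, 2]) (.use 965)
  (.use 62)) .no (.use 652)))

def c27t1053 : Tr4 :=
  .br 715 .no .no (.hor [.f 714 3 5] []) .no .no .no

def c27t1054 : Tr4 :=
  .br 714 .no (.red [.t 586 1 4, .f 705 3 5] 89 136 [2, 2, 2, 3] [(89, 136, [2, 2, 2, 3])]) (.use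
  1053) .no (.red [.f 706 5 3, .f 579 3 1] 89 136 [2, 2, 2, 3] [(89, 136, [2, 2, 2, 3])]) .no

def c27t1055 : Tr4 :=
  .br 579 .no (.con 136 [2, 2, 2, 3, 2]) (.use 1054) (.con 136 [2, 2, 2, 3, 2]) .no (.con 136 [2,
  2, 2, 2, 3])

def c27t1056 : Tr4 :=
  .br 576 .no (.hor [.f 448 1 5] []) (.use 1055) (.red [.f 568 3 1, .f 568 1 5] 88 136 [2, 2, 2]
  [(88, 136, [2, 2, 2])]) .no .no

def c27t1057 : Tr4 :=
  .br 979 .no .no (.br 986 (.hor [.f 978 1 3, .f 978 3 5] [(139, 136, [3, 3, 3])]) .no (.br 985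
  .no (.br 848 .no (.br 849 .no (.hor [.f 720 1 5] []) .no .no .no .no) (.hor [.f 848 3 1, .t 976
  2 4, .f 841 1 5] [(122, 107, [1, 4]), (123, 107, [1])]) .no (.hor [.t 984 4 2, .t 976 2 4, .f
  841 1 5] [(122, 136, [2, 3, 3]), (123, 136, [2, 3, 3, 3])]) .no) (.hor [.f 985 3 5] []) .no .no
  .no) .no .no (.hor [.t 1105 3 2, .f 978 3 5] [(139, 136, [3, 3, 3])])) .no .no .no

def c27t1058 : Tr4 :=
  .br 850 .no .no (.use 1057) .no .no (.hor [.t 969 3 2, .f 842 3 5] [(122, 136, [2, 3, 3])])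

def c27t1059 : Tr4 :=
  .br 706 .no (.use 669) (.hor [.f 705 3 5] []) .no (.br 577 .no (.use 1056) (.red [.f 577 3 1, .f
  569 1 3] 89 136 [2, 2, 2, 3] [(88, 136, [2, 2, 2]), (89, 136, [2, 2, 2, 3])]) .no (.br 714 .no
  (.red [.t 713 4 2, .f 569 1 3, .f 696 3 5] 89 136 [2, 2, 2, 3] [(88, 136, [2, 2, 2]), (89, 136,
  [2, 2, 2, 3])]) (.use 1058) .no (.red [.f 706 5 3, .f 705 3 5, .f 577 5 1, .f 569 1 3] 88 136
  [2, 2, 2] [(88, 136, [2, 2, 2])]) .no) (.red [.t 696 3 2] 88 136 [2, 2, 2] [(88, 136, [2, 2,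
  2])])) .no

def c27t1060 : Tr4 :=
  .br 578 .no (.br 576 .no (.br 568 .no (.red [.f 440 1 3] 72 136 [2, 2, 2, 2] [(72, 136, [2, 2,
  2, 2])]) .no (.br 570 .no (.red [.f 442 1 3] 72 136 [2, 2, 2, 2] [(72, 136, [2, 2, 2, 2])]) .no
  (.con 136 [2, 2, 2, 4, 2]) (.use 1047) .no) .no .no) (.hor [.f 576 3 5] []) (.red [.f 568 3 1,
  .f 568 1 5] 88 136 [2, 2, 2] [(88, 136, [2, 2, 2])]) .no .no) (.hor [.f 577 3 5] []) (.red [.t
  569 1 3, .f 696 3 5] 88 136 [2, 2, 2] [(88, 136, [2, 2, 2])]) (.con 136 [2, 2, 2, 3, 1, 4, 2])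
  .no

def c27t1061 : Tr4 :=
  .br 579 .no (.use 979) (.hor [.t 569 1 3, .f 579 3 1, .f 578 1 5] [(88, 136, [2, 2, 2]), (89,
  136, [2, 2, 2, 3])]) (.hor [.f 570 3 5] []) .no .no

def c27t1062 : Tr4 :=
  .br 698 .no (.hor [.f 569 1 5] []) (.con 136 [2, 2, 2]) .no .no .no

def c27t1063 : Tr4 :=
  .br 706 .no (.use 669) (.hor [.f 705 3 5] []) .no (.br 568 .no (.br 569 .no (.hor [.f 440 1 5]
  []) (.use 1050) (.red [.f 689 5 3, .f 561 3 1] 87 136 [2, 2, 2, 4] [(87, 136, [2, 2, 2, 4])])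
  (.br 576 .no (.red [.f 440 1 3] 72 136 [2, 2, 2, 2] [(72, 136, [2, 2, 2, 2])]) (.br 577 .no
  (.use 1055) (.red [.f 569 5 1, .f 577 3 1] 89 136 [2, 2, 2, 3] [(89, 136, [2, 2, 2, 3])]) .no
  (.br 579 .no (.con 136 [2, 2, 2, 2, 3]) (.use 1054) (.con 136 [2, 2, 2, 2]) .no .no) .no) .no
  (.red [.f 569 5 1, .t 696 3 2] 88 136 [2, 2, 2] [(88, 136, [2, 2, 2])]) .no) .no) (.red [.f 568
  3 1] 88 136 [2, 2, 2] [(88, 136, [2, 2, 2])]) (.con 136 [2, 2, 2, 4, 4]) (.use 996) .no) .no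

def c27t1064 : Tr4 :=
  .br 697 .no (.use 1062) (.hor [.f 696 3 5] []) .no (.br 705 .no (.use 1001) (.use 1063) .no (.br
  568 .no (.br 707 .no (.use 995) (.br 569 .no (.hor [.f 440 1 5] []) (.use 1002) (.red [.f 689 5
  3, .f 561 3 1] 87 136 [2, 2, 2, 4] [(87, 136, [2, 2, 2, 4])]) (.br 577 .no (.use 1003) (.br 714
  .no (.red [.t 585 4 1] 89 136 [2, 2, 2, 3] [(89, 136, [2, 2, 2, 3])]) (.use 1058) .no .no (.red
  [.f 705 5 3, .f 577 3 1] 89 136 [2, 2, 2, 3] [(89, 136, [2, 2, 2, 3])])) .no (.red [.f 697 5 3,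
  .f 569 5 3, .f 570 3 1] 88 136 [2, 2, 2] [(88, 136, [2, 2, 2])]) (.red [.f 569 5 1, .t 696 3 2]
  88 136 [2, 2, 2] [(88, 136, [2, 2, 2])])) .no) .no .no .no) (.red [.f 568 3 1] 88 136 [2, 2, 2]
  [(88, 136, [2, 2, 2])]) (.con 136 [2, 2, 2, 4, 4]) (.use 996) .no) .no) .no

def c27t1065 : Tr4 :=
  .br 696 .no (.use 651) (.use 1064) (.red [.f 689 5 1, .t 688 3 1] 103 136 [2, 2, 4] [(103, 136,
  [2, 2, 4])]) (.red [.f 696 5 1, .f 689 5 1, .f 689 1 3] 103 136 [2, 2, 4] [(103, 136, [2, 2,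
  4])]) .no

def c27t1066 : Tr4 :=
  .br 697 .no (.hor [.f 568 1 5] []) .no (.con 136 [2, 2, 2, 4]) .no .no

def c27t1067 : Tr4 :=
  .br 697 .no (.br 577 .no (.br 578 .no (.hor [.f 449 1 5] []) (.con 136 [2, 2, 2, 2, 3]) (.red
  [.f 570 3 1, .f 569 1 5] 88 136 [2, 2, 2] [(88, 136, [2, 2, 2])]) .no .no) (.red [.f 577 3 1, .f
  569 1 3] 89 136 [2, 2, 2, 3] [(88, 136, [2, 2, 2]), (89, 136, [2, 2, 2, 3])]) .no (.red [.t 697
  2 3, .f 578 1 5] 88 136 [2, 2, 2] [(88, 136, [2, 2, 2])]) .no) .no (.hor [.f 688 3 5] []) .no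
  .no

def c27t1068 : Tr4 :=
  .br 696 .no (.use 1066) .no (.use 1067) (.use 942) .no

def c27t1069 : Tr4 :=
  .br 704 .no (.use 1068) (.hor [.f 704 3 5] []) (.con 136 [2, 2, 2]) .no .no

def c27t1070 : Tr4 :=
  .br 705 .no (.use 943) (.use 1069) (.hor [.f 697 3 5] []) .no (.use 1012)

def c27t1071 : Tr4 :=
  .br 691 (.red [.f 691 1 3] 103 136 [2, 2, 4] [(103, 136, [2, 2, 4])]) (.br 690 .no (.use 820)
  (.use 1037) (.con 136 [2, 2, 4, 4, 2]) .no (.use 1038)) .no (.use 963) .no (.br 698 .no (.use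
  949) .no .no .no (.use 967))

def c27t1072 : Tr4 :=
  .br 691 (.red [.f 691 1 3] 103 136 [2, 2, 4] [(103, 136, [2, 2, 4])]) (.con 136 [2, 2, 4, 4, 2])
  .no (.con 136 [2, 2, 4, 4, 4]) .no .no

def c27t1073 : Tr4 :=
  .br 577 .no (.use 1042) (.red [.f 577 3 1, .f 569 1 3] 89 136 [2, 2, 2, 3] [(88, 136, [2, 2,
  2]), (89, 136, [2, 2, 2, 3])]) .no (.br 698 .no (.hor [.f 569 1 5] []) .no (.br 579 .no (.br 576
  .no (.br 568 .no (.red [.f 440 1 3] 72 136 [2, 2, 2, 2] [(72, 136, [2, 2, 2, 2])]) .no (.br 570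
  .no (.use 1044) .no (.con 136 [2, 2, 2, 4, 2]) (.br 682 (.red [.t 690 3 2, .t 810 2 3, .f 691 1
  3, .f 563 3 1] 103 136 [2, 2, 4] [(102, 136, [2, 2, 4, 4]), (103, 136, [2, 2, 4])]) (.con 136
  [2, 2, 4, 4, 4]) .no (.con 136 [2, 2, 4, 4, 4]) (.con 136 [2, 2, 4, 4, 4]) .no) .no) .no .no)
  (.con 136 [2, 2, 2, 2, 3]) (.red [.f 568 3 1, .f 568 1 5] 88 136 [2, 2, 2] [(88, 136, [2, 2,
  2])]) .no .no) (.red [.f 824 5 3, .f 706 5 1, .f 707 1 3, .f 579 3 1] 89 136 [2, 2, 2, 3] [(89,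
  136, [2, 2, 2, 3]), (105, 136, [2, 2, 3])]) (.use 1049) .no .no) .no .no) (.red [.t 696 3 2] 88
  136 [2, 2, 2] [(88, 136, [2, 2, 2])])

def c27t1074 : Tr4 :=
  .br 819 .no (.red [.f 691 1 3] 103 136 [2, 2, 4] [(103, 136, [2, 2, 4])]) .no (.br 691 .no (.br
  704 .no (.br 690 .no (.use 51) (.use 1041) (.con 136 [2, 2, 4, 4, 2]) .no (.use 945)) (.hor [.f
  704 3 5] []) (.br 697 .no (.use 1073) .no (.use 960) (.br 690 .no (.use 51) .no (.con 136 [2, 2,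
  4, 4, 2]) .no (.use 1051)) .no) .no .no) .no (.use 963) .no (.use 946)) .no .no

def c27t1075 : Tr4 :=
  .br 579 (.use 1016) (.con 136 [2, 2, 2, 3, 1, 4, 2]) (.con 136 [2, 2, 2, 3, 1, 4, 2]) (.con 136
  [2, 2, 2, 2]) .no .no

def c27t1076 : Tr4 :=
  .br 688 .no (.red [.f 560 1 3] 87 136 [2, 2, 4, 2] [(87, 136, [2, 2, 4, 2])]) .no (.use 847) .no
  .no

def c27l32 : List Tr4 :=
  [c27t1047, c27t1048, c27t1049, c27t1050, c27t1051, c27t1052, c27t1053, c27t1054, c27t1055,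
  c27t1056, c27t1057, c27t1058, c27t1059, c27t1060, c27t1061, c27t1062, c27t1063, c27t1064,
  c27t1065, c27t1066, c27t1067, c27t1068, c27t1069, c27t1070, c27t1071, c27t1072, c27t1073,
  c27t1074, c27t1075, c27t1076]

theorem c27k32 : chkLF ⟨4, 1, 0, true, -8⟩ false 7 c27N 1047 c27l32 = true := by decide +kernel

def c27t1077 : Tr4 :=
  .br 843 .no (.br 707 .no (.br 706 .no (.hor [.f 578 1 5] []) (.hor [.t 714 4 1, .f 835 3 1, .f
  842 1 5] [(105, 136, [2, 2, 3]), (121, 136, [2, 3])]) (.use 1070) .no (.br 704 .no (.use 1014)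
  (.use 1071) (.use 1019) .no .no)) .no .no .no (.br 705 .no (.br 704 .no (.hor [.f 576 1 5] [])
  (.use 957) (.br 697 .no (.red [.f 569 1 3] 88 136 [2, 2, 2] [(88, 136, [2, 2, 2])]) .no (.use
  960) (.br 569 .no (.use 962) .no (.br 690 .no (.use 820) .no (.use 1072) (.use 967) (.red [.f
  689 5 3, .f 561 3 1, .f 569 1 3] 88 136 [2, 2, 2] [(87, 136, [2, 2, 2, 4]), (88, 136, [2, 2,
  2])])) (.red [.f 569 5 1, .f 569 1 3] 88 136 [2, 2, 2] [(88, 136, [2, 2, 2])]) (.red [.t 704 4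
  2] 88 136 [2, 2, 2] [(88, 136, [2, 2, 2])])) .no) .no .no) (.use 1074) (.use 976) .no (.use
  1008))) (.br 819 .no (.red [.f 691 1 3] 103 136 [2, 2, 4] [(103, 136, [2, 2, 4])]) .no (.br 690
  .no (.use 51) (.br 697 .no (.br 704 .no (.use 1013) (.use 58) (.br 705 .no (.red [.f 569 1 3] 88
  136 [2, 2, 2] [(88, 136, [2, 2, 2])]) (.use 1059) .no (.br 577 .no (.use 999) (.br 714 .no (.red
  [.t 585 4 1, .f 569 1 3, .f 696 3 5] 88 136 [2, 2, 2] [(88, 136, [2, 2, 2]), (89, 136, [2, 2, 2,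
  3])]) (.use 1058) .no (.br 578 .no (.br 576 .no (.br 691 .no (.use 1075) .no (.use 963) .no .no)
  (.hor [.f 576 3 5] []) (.red [.f 568 3 1, .f 568 1 5] 88 136 [2, 2, 2] [(88, 136, [2, 2, 2])])
  .no .no) (.hor [.f 577 3 5] []) (.red [.t 569 1 3, .f 696 3 5] 88 136 [2, 2, 2] [(88, 136, [2,
  2, 2])]) (.con 136 [2, 2, 2, 3, 1, 4, 2]) .no) (.red [.f 705 5 3, .f 577 3 1, .f 569 1 3] 88 136
  [2, 2, 2] [(88, 136, [2, 2, 2]), (89, 136, [2, 2, 2, 3])])) .no (.red [.f 577 5 1, .f 569 1 3]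
  88 136 [2, 2, 2] [(88, 136, [2, 2, 2])]) (.red [.t 696 3 2] 88 136 [2, 2, 2] [(88, 136, [2, 2,
  2])])) .no) (.use 154) .no) (.red [.f 824 5 3, .f 697 3 1, .t 697 1 4] 103 136 [2, 2, 4] [(103,
  136, [2, 2, 4]), (104, 136, [2, 2])]) (.hor [.f 689 3 5] []) .no (.red [.f 696 5 1, .t 697 1 4]
  103 136 [2, 2, 4] [(103, 136, [2, 2, 4])])) (.con 136 [2, 2, 4, 4, 4]) (.use 946) (.br 696 .no
  (.use 1076) (.br 691 .no (.use 1064) .no (.use 963) .no .no) (.red [.f 689 5 1, .t 688 3 1] 103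
  136 [2, 2, 4] [(103, 136, [2, 2, 4])]) (.red [.f 696 5 1, .f 689 5 1, .f 689 1 3] 103 136 [2, 2,
  4] [(103, 136, [2, 2, 4])]) .no)) .no .no) .no .no .no

def c27t1078 : Tr4 :=
  .br 809 .no (.use 1077) .no (.hor [.f 808 1 3, .f 801 3 1, .f 808 3 1, .f 808 1 5] [(117, 136,
  [2, 4, 4, 4])]) (.red [.f 809 5 3, .f 810 3 1, .f 818 1 3] 119 136 [2, 4] [(118, 136, [2, 4,
  4]), (119, 136, [2, 4])]) .no

def c27t1079 : Tr4 :=
  .br 696 .no (.hor [.f 568 1 5] []) .no (.use 866) .no .no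

def c27t1080 : Tr4 :=
  .br 808 .no (.hor [.f 680 1 5] []) .no (.use 1045) .no .no

def c27t1081 : Tr4 :=
  .br 705 .no (.br 704 .no (.hor [.f 576 1 5] []) (.use 959) (.br 697 .no (.red [.f 569 1 3] 88
  136 [2, 2, 2] [(88, 136, [2, 2, 2])]) .no (.use 960) (.br 690 .no (.use 820) .no (.use 971) .no
  (.use 1001)) .no) .no .no) (.br 704 .no (.br 690 .no (.use 820) (.br 697 .no (.use 1079) .no
  (.hor [.f 689 3 5] []) .no (.red [.f 696 5 1, .t 697 1 4] 103 136 [2, 2, 4] [(103, 136, [2, 2,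
  4])])) (.use 971) .no (.use 945)) (.hor [.f 704 3 5] []) (.br 697 .no (.br 577 .no (.use 1042)
  (.red [.f 577 3 1, .f 569 1 3] 89 136 [2, 2, 2, 3] [(88, 136, [2, 2, 2]), (89, 136, [2, 2, 2,
  3])]) .no (.br 698 .no (.hor [.f 569 1 5] []) .no (.br 579 .no (.br 576 .no (.br 570 .no (.use
  1044) .no (.br 811 (.con 136 [2, 2, 4, 4, 1, 3]) (.con 136 [2, 2, 4, 4, 1, 3]) (.br 568 .no
  (.red [.f 440 1 3] 72 136 [2, 2, 2, 2] [(72, 136, [2, 2, 2, 2])]) .no (.con 136 [2, 2, 2, 4, 2])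
  .no .no) (.con 136 [2, 2, 4, 4, 1, 3]) .no (.con 136 [2, 2, 4, 4, 1, 3])) (.br 811 (.con 136 [2,
  2, 4, 4, 1, 3]) (.con 136 [2, 2, 4, 4, 1, 3]) (.br 809 .no (.use 1080) .no (.use 1028) (.red [.f
  809 5 3, .f 810 3 5, .t 954 2 4] 119 136 [2, 4] [(119, 136, [2, 4])]) (.red [.f 808 5 1, .t 937
  2 3, .f 818 1 3] 119 136 [2, 4] [(118, 136, [2, 4, 4]), (119, 136, [2, 4])])) (.con 136 [2, 2,
  4, 4, 1, 3]) .no (.con 136 [2, 2, 4, 4, 1, 3])) .no) (.con 136 [2, 2, 2, 2, 3]) (.red [.f 568 3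
  1, .f 568 1 5] 88 136 [2, 2, 2] [(88, 136, [2, 2, 2])]) .no .no) (.red [.f 824 5 3, .f 706 5 1,
  .f 707 1 3, .f 579 3 1] 89 136 [2, 2, 2, 3] [(89, 136, [2, 2, 2, 3]), (105, 136, [2, 2, 3])])
  (.use 1049) .no .no) .no .no) (.red [.t 696 3 2] 88 136 [2, 2, 2] [(88, 136, [2, 2, 2])])) .no
  (.use 960) (.br 690 .no (.use 820) .no (.use 971) .no (.use 1051)) .no) .no .no) (.use 976) .no
  (.br 690 .no (.use 820) (.br 697 .no (.use 867) .no (.hor [.f 689 3 5] []) .no (.red [.f 696 5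
  3, .f 696 3 5, .f 696 5 1, .t 697 1 4] 103 136 [2, 2, 4] [(103, 136, [2, 2, 4])])) (.use 971)
  .no (.use 652))

def c27t1082 : Tr4 :=
  .br 691 (.red [.f 691 1 3] 103 136 [2, 2, 4] [(103, 136, [2, 2, 4])]) (.br 707 .no (.br 706 .no
  (.hor [.f 578 1 5] []) (.hor [.t 714 4 1, .f 835 3 1, .f 842 1 5] [(105, 136, [2, 2, 3]), (121,
  136, [2, 3])]) (.br 705 .no (.use 943) (.use 1069) (.hor [.f 697 3 5] []) .no (.br 690 .no (.use
  820) .no (.use 971) .no (.use 652))) .no (.br 690 .no (.use 820) (.br 697 .no (.br 696 .no (.hor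
  [.f 568 1 5] []) (.br 577 .no (.use 991) (.br 576 .no (.br 578 .no (.br 809 .no (.use 1016) .no
  (.use 1029) (.red [.f 809 5 3, .f 810 3 1, .f 818 1 3] 119 136 [2, 4] [(118, 136, [2, 4, 4]),
  (119, 136, [2, 4])]) (.red [.f 808 5 1, .t 937 2 3, .f 818 1 3] 119 136 [2, 4] [(118, 136, [2,
  4, 4]), (119, 136, [2, 4])])) (.hor [.f 577 3 5] []) (.red [.t 569 1 3, .f 578 1 5] 88 136 [2,
  2, 2] [(88, 136, [2, 2, 2])]) .no .no) (.hor [.f 576 3 5] []) (.red [.f 568 3 1, .f 568 1 5] 88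
  136 [2, 2, 2] [(88, 136, [2, 2, 2])]) .no .no) .no (.red [.f 577 5 1, .f 569 1 3] 88 136 [2, 2,
  2] [(88, 136, [2, 2, 2])]) (.red [.t 696 3 2] 88 136 [2, 2, 2] [(88, 136, [2, 2, 2])])) (.use
  866) .no .no) .no (.hor [.f 689 3 5] []) .no (.red [.f 696 5 1, .t 697 1 4] 103 136 [2, 2, 4]
  [(103, 136, [2, 2, 4])])) (.use 971) .no (.br 696 .no (.use 651) (.br 697 .no (.use 1062) .no
  .no (.use 997) .no) (.red [.f 689 5 1, .t 688 3 1] 103 136 [2, 2, 4] [(103, 136, [2, 2, 4])])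
  (.red [.f 696 5 1, .f 689 5 1, .f 689 1 3] 103 136 [2, 2, 4] [(103, 136, [2, 2, 4])]) .no))) .no
  .no .no (.use 1081)) .no (.use 963) .no (.use 858)

def c27t1083 : Tr4 :=
  .br 578 .no (.br 576 .no (.br 809 .no (.use 1075) .no (.br 568 .no (.red [.f 440 1 3] 72 136 [2,
  2, 2, 2] [(72, 136, [2, 2, 2, 2])]) .no (.br 570 .no (.red [.f 442 1 3] 72 136 [2, 2, 2, 2]
  [(72, 136, [2, 2, 2, 2])]) .no (.con 136 [2, 2, 2, 4, 2]) (.br 811 (.con 136 [2, 2, 4, 4, 1, 3])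
  (.con 136 [2, 2, 4, 4, 1, 3]) (.use 1028) (.con 136 [2, 2, 4, 4, 1, 3]) .no (.con 136 [2, 2, 4,
  4, 1, 3])) .no) .no .no) (.red [.f 809 5 3, .f 810 3 1, .f 818 1 3] 119 136 [2, 4] [(118, 136,
  [2, 4, 4]), (119, 136, [2, 4])]) (.red [.f 808 5 1, .t 937 2 3, .f 818 1 3] 119 136 [2, 4]
  [(118, 136, [2, 4, 4]), (119, 136, [2, 4])])) (.hor [.f 576 3 5] []) (.red [.f 568 3 1, .f 568 1
  5] 88 136 [2, 2, 2] [(88, 136, [2, 2, 2])]) .no .no) (.hor [.f 577 3 5] []) (.red [.t 569 1 3,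
  .f 696 3 5] 88 136 [2, 2, 2] [(88, 136, [2, 2, 2])]) (.con 136 [2, 2, 2, 3, 1, 4, 2]) .no

def c27t1084 : Tr4 :=
  .br 843 .no (.use 1082) (.br 691 (.red [.f 691 1 3] 103 136 [2, 2, 4] [(103, 136, [2, 2, 4])])
  (.br 690 .no (.use 820) (.br 697 .no (.br 704 .no (.use 1079) (.use 864) (.br 705 .no (.use
  1027) (.use 1059) .no (.br 577 .no (.use 999) (.br 714 .no (.red [.t 585 4 1, .f 569 1 3, .f 696
  3 5] 88 136 [2, 2, 2] [(88, 136, [2, 2, 2]), (89, 136, [2, 2, 2, 3])]) (.use 1058) .no (.use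
  1083) (.red [.f 705 5 3, .f 577 3 1, .f 569 1 3] 88 136 [2, 2, 2] [(88, 136, [2, 2, 2]), (89,
  136, [2, 2, 2, 3])])) .no (.red [.f 577 5 1, .f 569 1 3] 88 136 [2, 2, 2] [(88, 136, [2, 2,
  2])]) (.red [.t 696 3 2] 88 136 [2, 2, 2] [(88, 136, [2, 2, 2])])) .no) (.use 867) .no) (.red
  [.f 824 5 3, .f 697 3 1, .t 697 1 4] 103 136 [2, 2, 4] [(103, 136, [2, 2, 4]), (104, 136, [2,
  2])]) (.hor [.f 689 3 5] []) .no (.red [.f 696 5 1, .t 697 1 4] 103 136 [2, 2, 4] [(103, 136,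
  [2, 2, 4])])) (.use 971) .no (.use 1065)) .no (.use 963) .no (.use 858)) .no .no .no

def c27t1085 : Tr4 :=
  .br 937 (.red [.f 937 1 3, .f 937 3 5, .f 817 5 1, .f 818 1 3] 119 136 [2, 4] [(119, 136, [2,
  4]), (134, 118, [1])]) (.red [.t 937 2 3, .f 818 1 3] 119 136 [2, 4] [(118, 136, [2, 4, 4]),
  (119, 136, [2, 4])]) .no (.br 936 (.br 1065 (.br 691 (.red [.f 691 1 3] 103 136 [2, 2, 4] [(103,
  136, [2, 2, 4])]) (.br 843 .no (.use 1052) (.br 690 .no (.use 820) (.br 697 .no (.br 696 .no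
  (.hor [.f 568 1 5] []) (.br 705 .no (.red [.f 569 1 3] 88 136 [2, 2, 2] [(88, 136, [2, 2, 2])])
  (.use 1059) .no (.br 577 .no (.use 999) (.br 714 .no (.red [.t 585 4 1, .f 569 1 3, .f 696 3 5]
  88 136 [2, 2, 2] [(88, 136, [2, 2, 2]), (89, 136, [2, 2, 2, 3])]) (.use 1058) .no (.use 1060)
  (.red [.f 705 5 3, .f 577 3 1, .f 569 1 3] 88 136 [2, 2, 2] [(88, 136, [2, 2, 2]), (89, 136, [2,
  2, 2, 3])])) .no (.red [.f 577 5 1, .f 569 1 3] 88 136 [2, 2, 2] [(88, 136, [2, 2, 2])]) (.red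
  [.t 696 3 2] 88 136 [2, 2, 2] [(88, 136, [2, 2, 2])])) .no) (.br 570 .no (.use 1034) (.br 705
  .no (.hor [.f 569 1 3, .f 569 3 5] [(88, 136, [2, 2, 2])]) (.br 706 .no .no (.hor [.f 705 3 5]
  []) .no (.br 704 .no (.br 850 .no (.br 579 .no (.use 979) (.br 715 .no .no (.hor [.f 715 3 1, .f
  722 1 5] [(106, 136, [2, 2, 3, 3])]) .no .no (.red [.f 706 5 3, .f 579 3 1] 89 136 [2, 2, 2, 3]
  [(89, 136, [2, 2, 2, 3])])) (.hor [.f 570 3 5] []) .no .no) (.use 1057) .no .no (.hor [.t 969 3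
  2, .f 842 3 5] [(122, 89, [1, 3, 1])])) (.hor [.f 704 3 5] []) .no .no .no) .no) .no (.br 707
  .no (.use 1035) (.use 1061) .no .no .no) (.use 984)) (.hor [.f 562 3 1, .f 562 1 5] [(87, 103,
  [2])]) (.hor [.t 690 3 2, .f 569 1 5] [(87, 103, [2])]) .no) .no .no) (.red [.f 824 5 3, .f 697
  3 1, .t 697 1 4] 103 136 [2, 2, 4] [(103, 136, [2, 2, 4]), (104, 136, [2, 2])]) (.hor [.f 689 3
  5] []) .no (.red [.f 696 5 1, .t 697 1 4] 103 136 [2, 2, 4] [(103, 136, [2, 2, 4])])) (.use 990)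
  .no (.use 1065)) .no .no .no) .no (.use 963) .no (.use 843)) .no .no (.hor [.f 929 3 1, .f 936 1
  5] [(133, 119, [4, 4, 1])]) (.red [.t 945 1 4, .f 817 5 1, .f 818 1 3] 119 136 [2, 4] [(119,
  136, [2, 4]), (134, 118, [1])]) .no) (.use 1078) .no (.use 830) .no .no) .no (.use 1084)

def c27t1086 : Tr4 :=
  .br 937 .no (.red [.t 937 2 3, .f 818 1 3] 119 136 [2, 4] [(118, 136, [2, 4, 4]), (119, 136, [2,
  4])]) .no (.use 965) .no .no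

def c27t1087 : Tr4 :=
  .br 937 .no (.red [.t 937 2 3, .f 818 1 3] 119 136 [2, 4] [(118, 136, [2, 4, 4]), (119, 136, [2,
  4])]) .no (.use 1034) .no .no

def c27t1088 : Tr4 :=
  .br 937 .no (.red [.t 937 2 3, .f 818 1 3] 119 136 [2, 4] [(118, 136, [2, 4, 4]), (119, 136, [2,
  4])]) .no (.hor [.f 929 3 1, .f 936 1 5] [(133, 119, [1, 4, 4])]) .no .no

def c27t1089 : Tr4 :=
  .br 704 .no (.use 1014) (.br 809 .no (.use 1071) .no (.hor [.f 808 1 3, .f 801 3 1, .f 808 3 1,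
  .f 808 1 5] [(117, 136, [2, 4, 4, 4])]) (.red [.f 809 5 3, .f 810 3 1, .f 818 1 3] 119 136 [2,
  4] [(118, 136, [2, 4, 4]), (119, 136, [2, 4])]) .no) (.use 1019) .no .no

def c27t1090 : Tr4 :=
  .br 569 .no (.br 809 .no (.use 962) .no (.hor [.f 808 1 3, .f 801 3 1, .f 808 3 1, .f 808 1 5]
  [(117, 136, [2, 4, 4, 4])]) (.red [.f 809 5 3, .f 810 3 1, .f 818 1 3] 119 136 [2, 4] [(118,
  136, [2, 4, 4]), (119, 136, [2, 4])]) .no) .no (.br 690 .no (.use 820) .no (.br 809 .no (.use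
  1072) .no (.hor [.f 808 1 3, .f 801 3 1, .f 808 3 1, .f 808 1 5] [(117, 136, [2, 4, 4, 4])])
  (.red [.f 809 5 3, .f 810 3 1, .f 818 1 3] 119 136 [2, 4] [(118, 136, [2, 4, 4]), (119, 136, [2,
  4])]) .no) (.use 968) (.red [.f 689 5 3, .f 561 3 1, .f 569 1 3] 88 136 [2, 2, 2] [(87, 136, [2,
  2, 2, 4]), (88, 136, [2, 2, 2])])) (.red [.f 569 5 1, .f 569 1 3] 88 136 [2, 2, 2] [(88, 136,
  [2, 2, 2])]) (.red [.t 704 4 2] 88 136 [2, 2, 2] [(88, 136, [2, 2, 2])])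

def c27t1091 : Tr4 :=
  .br 704 .no (.hor [.f 576 1 5] []) (.use 958) (.br 697 .no (.red [.f 569 1 3] 88 136 [2, 2, 2]
  [(88, 136, [2, 2, 2])]) .no (.use 960) (.use 1090) .no) .no .no

def c27t1092 : Tr4 :=
  .br 809 .no (.use 1074) .no (.hor [.f 808 1 3, .f 801 3 1, .f 808 3 1, .f 808 1 5] [(117, 136,
  [2, 4, 4, 4])]) (.red [.f 809 5 3, .f 810 3 1, .f 818 1 3] 119 136 [2, 4] [(118, 136, [2, 4,
  4]), (119, 136, [2, 4])]) .no

def c27t1093 : Tr4 :=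
  .br 1105 .no .no (.use 1058) .no .no .no

def c27t1094 : Tr4 :=
  .br 706 .no (.use 669) (.hor [.f 705 3 5] []) .no (.br 577 .no (.use 1056) (.red [.f 577 3 1, .f
  569 1 3] 89 136 [2, 2, 2, 3] [(88, 136, [2, 2, 2]), (89, 136, [2, 2, 2, 3])]) .no (.br 714 .no
  (.red [.t 713 4 2, .f 569 1 3, .f 696 3 5] 89 136 [2, 2, 2, 3] [(88, 136, [2, 2, 2]), (89, 136,
  [2, 2, 2, 3])]) (.use 1093) .no (.red [.f 706 5 3, .f 705 3 5, .f 577 5 1, .f 569 1 3] 88 136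
  [2, 2, 2] [(88, 136, [2, 2, 2])]) .no) (.red [.t 696 3 2] 88 136 [2, 2, 2] [(88, 136, [2, 2,
  2])])) .no

def c27t1095 : Tr4 :=
  .br 570 .no (.use 1034) (.use 1032) (.hor [.f 562 3 1, .f 562 1 5] [(87, 103, [2])]) (.hor [.t
  690 3 2, .f 569 1 5] [(87, 103, [2])]) .no

def c27l33 : List Tr4 :=
  [c27t1077, c27t1078, c27t1079, c27t1080, c27t1081, c27t1082, c27t1083, c27t1084, c27t1085,
  c27t1086, c27t1087, c27t1088, c27t1089, c27t1090, c27t1091, c27t1092, c27t1093, c27t1094,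
  c27t1095]

theorem c27k33 : chkLF ⟨4, 1, 0, true, -8⟩ false 7 c27N 1077 c27l33 = true := by decide +kernel

def c27t1096 : Tr4 :=
  .br 696 .no (.use 651) (.br 697 .no (.use 1062) (.hor [.f 696 3 5] []) .no (.br 705 .no (.use
  1001) (.use 1063) .no (.br 568 .no (.br 707 .no (.use 995) (.br 569 .no (.hor [.f 440 1 5] [])
  (.use 1002) (.red [.f 689 5 3, .f 561 3 1] 87 136 [2, 2, 2, 4] [(87, 136, [2, 2, 2, 4])]) (.br
  577 .no (.use 1003) (.br 714 .no (.red [.t 585 4 1] 89 136 [2, 2, 2, 3] [(89, 136, [2, 2, 2,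
  3])]) (.use 1093) .no .no (.red [.f 705 5 3, .f 577 3 1] 89 136 [2, 2, 2, 3] [(89, 136, [2, 2,
  2, 3])])) .no (.red [.f 697 5 3, .f 569 5 3, .f 570 3 1] 88 136 [2, 2, 2] [(88, 136, [2, 2,
  2])]) (.red [.f 569 5 1, .t 696 3 2] 88 136 [2, 2, 2] [(88, 136, [2, 2, 2])])) .no) .no .no .no)
  (.red [.f 568 3 1] 88 136 [2, 2, 2] [(88, 136, [2, 2, 2])]) (.con 136 [2, 2, 2, 4, 4]) (.use
  996) .no) .no) .no) (.red [.f 689 5 1, .t 688 3 1] 103 136 [2, 2, 4] [(103, 136, [2, 2, 4])])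
  (.red [.f 696 5 1, .f 689 5 1, .f 689 1 3] 103 136 [2, 2, 4] [(103, 136, [2, 2, 4])]) .no

def c27t1097 : Tr4 :=
  .br 578 .no (.br 576 .no (.use 1075) (.hor [.f 576 3 5] []) (.red [.f 568 3 1, .f 568 1 5] 88
  136 [2, 2, 2] [(88, 136, [2, 2, 2])]) .no .no) (.hor [.f 577 3 5] []) (.red [.t 569 1 3, .f 696
  3 5] 88 136 [2, 2, 2] [(88, 136, [2, 2, 2])]) (.con 136 [2, 2, 2, 3, 1, 4, 2]) .no

def c27t1098 : Tr4 :=
  .br 705 .no (.red [.f 569 1 3] 88 136 [2, 2, 2] [(88, 136, [2, 2, 2])]) (.use 1094) .no (.br 577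
  .no (.use 999) (.br 714 .no (.red [.t 585 4 1, .f 569 1 3, .f 696 3 5] 88 136 [2, 2, 2] [(88,
  136, [2, 2, 2]), (89, 136, [2, 2, 2, 3])]) (.use 1093) .no (.use 1097) (.red [.f 705 5 3, .f 577
  3 1, .f 569 1 3] 88 136 [2, 2, 2] [(88, 136, [2, 2, 2]), (89, 136, [2, 2, 2, 3])])) .no (.red
  [.f 577 5 1, .f 569 1 3] 88 136 [2, 2, 2] [(88, 136, [2, 2, 2])]) (.red [.t 696 3 2] 88 136 [2,
  2, 2] [(88, 136, [2, 2, 2])])) .no

def c27t1099 : Tr4 :=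
  .br 698 .no (.use 949) (.br 705 .no (.use 1025) (.br 704 .no (.br 579 (.use 1068) (.con 136 [2,
  2, 2, 3]) (.con 136 [2, 2, 2, 3]) (.con 136 [2, 2, 2, 3]) .no (.con 136 [2, 2, 2, 3])) (.hor [.f
  704 3 5] []) (.con 136 [2, 2, 2]) .no .no) (.hor [.f 697 3 5] []) .no (.use 1012)) .no .no (.use
  967)

def c27t1100 : Tr4 :=
  .br 937 (.red [.f 937 1 3, .f 937 3 5, .f 817 5 1, .f 818 1 3] 119 136 [2, 4] [(119, 136, [2,
  4]), (134, 118, [1])]) (.red [.t 937 2 3, .f 818 1 3] 119 136 [2, 4] [(118, 136, [2, 4, 4]),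
  (119, 136, [2, 4])]) .no (.br 936 (.br 691 (.red [.f 691 1 3] 103 136 [2, 2, 4] [(103, 136, [2,
  2, 4])]) (.br 690 .no (.use 820) (.br 697 .no (.br 696 .no (.hor [.f 568 1 5] []) (.br 705 .no
  (.red [.f 569 1 3] 88 136 [2, 2, 2] [(88, 136, [2, 2, 2])]) (.use 1094) .no (.br 577 .no (.use
  999) (.br 714 .no (.red [.t 585 4 1, .f 569 1 3, .f 696 3 5] 88 136 [2, 2, 2] [(88, 136, [2, 2,
  2]), (89, 136, [2, 2, 2, 3])]) (.use 1093) .no (.use 1060) (.red [.f 705 5 3, .f 577 3 1, .f 569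
  1 3] 88 136 [2, 2, 2] [(88, 136, [2, 2, 2]), (89, 136, [2, 2, 2, 3])])) .no (.red [.f 577 5 1,
  .f 569 1 3] 88 136 [2, 2, 2] [(88, 136, [2, 2, 2])]) (.red [.t 696 3 2] 88 136 [2, 2, 2] [(88,
  136, [2, 2, 2])])) .no) (.use 1095) .no .no) (.red [.f 824 5 3, .f 697 3 1, .t 697 1 4] 103 136
  [2, 2, 4] [(103, 136, [2, 2, 4]), (104, 136, [2, 2])]) (.hor [.f 689 3 5] []) .no (.red [.f 696
  5 1, .t 697 1 4] 103 136 [2, 2, 4] [(103, 136, [2, 2, 4])])) (.use 990) .no (.use 1096)) .no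
  (.use 963) .no (.use 843)) (.br 809 .no (.br 691 (.red [.f 691 1 3] 103 136 [2, 2, 4] [(103,
  136, [2, 2, 4])]) (.br 690 .no (.use 820) (.br 697 .no (.br 704 .no (.use 1013) (.use 58) (.use
  1098) (.use 154) .no) (.red [.f 824 5 3, .f 697 3 1, .t 697 1 4] 103 136 [2, 2, 4] [(103, 136,
  [2, 2, 4]), (104, 136, [2, 2])]) (.hor [.f 689 3 5] []) .no (.red [.f 696 5 1, .t 697 1 4] 103
  136 [2, 2, 4] [(103, 136, [2, 2, 4])])) (.con 136 [2, 2, 4, 4, 2]) .no (.use 1096)) .no (.use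
  963) .no (.use 1099)) .no (.hor [.f 808 1 3, .f 801 3 1, .f 808 3 1, .f 808 1 5] [(117, 136, [2,
  4, 4, 4])]) (.red [.f 809 5 3, .f 810 3 1, .f 818 1 3] 119 136 [2, 4] [(118, 136, [2, 4, 4]),
  (119, 136, [2, 4])]) .no) .no (.use 830) .no .no) .no (.br 691 (.red [.f 691 1 3] 103 136 [2, 2,
  4] [(103, 136, [2, 2, 4])]) (.br 690 .no (.use 820) (.br 697 .no (.br 704 .no (.use 1079) (.use
  864) (.br 705 .no (.use 1027) (.use 1094) .no (.br 577 .no (.use 999) (.br 714 .no (.red [.t 585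
  4 1, .f 569 1 3, .f 696 3 5] 88 136 [2, 2, 2] [(88, 136, [2, 2, 2]), (89, 136, [2, 2, 2, 3])])
  (.use 1093) .no (.use 1083) (.red [.f 705 5 3, .f 577 3 1, .f 569 1 3] 88 136 [2, 2, 2] [(88,
  136, [2, 2, 2]), (89, 136, [2, 2, 2, 3])])) .no (.red [.f 577 5 1, .f 569 1 3] 88 136 [2, 2, 2]
  [(88, 136, [2, 2, 2])]) (.red [.t 696 3 2] 88 136 [2, 2, 2] [(88, 136, [2, 2, 2])])) .no) (.use
  867) .no) (.red [.f 824 5 3, .f 697 3 1, .t 697 1 4] 103 136 [2, 2, 4] [(103, 136, [2, 2, 4]),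
  (104, 136, [2, 2])]) (.hor [.f 689 3 5] []) .no (.red [.f 696 5 1, .t 697 1 4] 103 136 [2, 2, 4]
  [(103, 136, [2, 2, 4])])) (.use 971) .no (.use 1096)) .no (.use 963) .no (.use 858))

def c27t1101 : Tr4 :=
  .br 706 .no (.use 669) (.hor [.f 705 3 5] []) .no (.br 577 .no (.use 1056) (.red [.f 577 3 1, .f
  569 1 3] 89 136 [2, 2, 2, 3] [(88, 136, [2, 2, 2]), (89, 136, [2, 2, 2, 3])]) .no (.br 714 .no
  (.red [.t 713 4 2, .f 569 1 3, .f 696 3 5] 89 136 [2, 2, 2, 3] [(88, 136, [2, 2, 2]), (89, 136,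
  [2, 2, 2, 3])]) .no .no (.red [.f 706 5 3, .f 705 3 5, .f 577 5 1, .f 569 1 3] 88 136 [2, 2, 2]
  [(88, 136, [2, 2, 2])]) .no) (.red [.t 696 3 2] 88 136 [2, 2, 2] [(88, 136, [2, 2, 2])])) .no

def c27t1102 : Tr4 :=
  .br 696 .no (.use 651) (.br 697 .no (.use 1062) (.hor [.f 696 3 5] []) .no (.br 705 .no (.use
  1001) (.use 1063) .no (.br 568 .no (.br 707 .no (.use 995) (.br 569 .no (.hor [.f 440 1 5] [])
  (.use 1002) (.red [.f 689 5 3, .f 561 3 1] 87 136 [2, 2, 2, 4] [(87, 136, [2, 2, 2, 4])]) (.br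
  577 .no (.use 1003) (.br 714 .no (.red [.t 585 4 1] 89 136 [2, 2, 2, 3] [(89, 136, [2, 2, 2,
  3])]) .no .no .no (.red [.f 705 5 3, .f 577 3 1] 89 136 [2, 2, 2, 3] [(89, 136, [2, 2, 2, 3])]))
  .no (.red [.f 697 5 3, .f 569 5 3, .f 570 3 1] 88 136 [2, 2, 2] [(88, 136, [2, 2, 2])]) (.red
  [.f 569 5 1, .t 696 3 2] 88 136 [2, 2, 2] [(88, 136, [2, 2, 2])])) .no) .no .no .no) (.red [.f
  568 3 1] 88 136 [2, 2, 2] [(88, 136, [2, 2, 2])]) (.con 136 [2, 2, 2, 4, 4]) (.use 996) .no)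
  .no) .no) (.red [.f 689 5 1, .t 688 3 1] 103 136 [2, 2, 4] [(103, 136, [2, 2, 4])]) (.red [.f
  696 5 1, .f 689 5 1, .f 689 1 3] 103 136 [2, 2, 4] [(103, 136, [2, 2, 4])]) .no

def c27t1103 : Tr4 :=
  .br 705 .no (.red [.f 569 1 3] 88 136 [2, 2, 2] [(88, 136, [2, 2, 2])]) (.use 1101) .no (.br 577
  .no (.use 999) (.br 714 .no (.red [.t 585 4 1, .f 569 1 3, .f 696 3 5] 88 136 [2, 2, 2] [(88,
  136, [2, 2, 2]), (89, 136, [2, 2, 2, 3])]) .no .no (.use 1097) (.red [.f 705 5 3, .f 577 3 1, .f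
  569 1 3] 88 136 [2, 2, 2] [(88, 136, [2, 2, 2]), (89, 136, [2, 2, 2, 3])])) .no (.red [.f 577 5
  1, .f 569 1 3] 88 136 [2, 2, 2] [(88, 136, [2, 2, 2])]) (.red [.t 696 3 2] 88 136 [2, 2, 2]
  [(88, 136, [2, 2, 2])])) .no

def c27t1104 : Tr4 :=
  .br 937 (.red [.f 937 1 3, .f 937 3 5, .f 817 5 1, .f 818 1 3] 119 136 [2, 4] [(119, 136, [2,
  4]), (134, 118, [1])]) (.red [.t 937 2 3, .f 818 1 3] 119 136 [2, 4] [(118, 136, [2, 4, 4]),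
  (119, 136, [2, 4])]) .no (.br 850 .no (.br 936 (.br 691 (.red [.f 691 1 3] 103 136 [2, 2, 4]
  [(103, 136, [2, 2, 4])]) (.br 690 .no (.use 820) (.br 697 .no (.br 696 .no (.hor [.f 568 1 5]
  []) (.br 705 .no (.red [.f 569 1 3] 88 136 [2, 2, 2] [(88, 136, [2, 2, 2])]) (.use 1101) .no
  (.br 577 .no (.use 999) (.br 714 .no (.red [.t 585 4 1, .f 569 1 3, .f 696 3 5] 88 136 [2, 2, 2]
  [(88, 136, [2, 2, 2]), (89, 136, [2, 2, 2, 3])]) .no .no (.use 1060) (.red [.f 705 5 3, .f 577 3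
  1, .f 569 1 3] 88 136 [2, 2, 2] [(88, 136, [2, 2, 2]), (89, 136, [2, 2, 2, 3])])) .no (.red [.f
  577 5 1, .f 569 1 3] 88 136 [2, 2, 2] [(88, 136, [2, 2, 2])]) (.red [.t 696 3 2] 88 136 [2, 2,
  2] [(88, 136, [2, 2, 2])])) .no) (.use 1095) .no .no) (.red [.f 824 5 3, .f 697 3 1, .t 697 1 4]
  103 136 [2, 2, 4] [(103, 136, [2, 2, 4]), (104, 136, [2, 2])]) (.hor [.f 689 3 5] []) .no (.red
  [.f 696 5 1, .t 697 1 4] 103 136 [2, 2, 4] [(103, 136, [2, 2, 4])])) (.use 990) .no (.use 1102))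
  .no (.use 963) .no (.use 843)) (.br 809 .no (.br 691 (.red [.f 691 1 3] 103 136 [2, 2, 4] [(103,
  136, [2, 2, 4])]) (.br 690 .no (.use 820) (.br 697 .no (.br 704 .no (.use 1013) (.use 58) (.use
  1103) (.use 154) .no) (.red [.f 824 5 3, .f 697 3 1, .t 697 1 4] 103 136 [2, 2, 4] [(103, 136,
  [2, 2, 4]), (104, 136, [2, 2])]) (.hor [.f 689 3 5] []) .no (.red [.f 696 5 1, .t 697 1 4] 103
  136 [2, 2, 4] [(103, 136, [2, 2, 4])])) (.con 136 [2, 2, 4, 4, 2]) .no (.use 1102)) .no (.use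
  963) .no (.use 1099)) .no (.hor [.f 808 1 3, .f 801 3 1, .f 808 3 1, .f 808 1 5] [(117, 136, [2,
  4, 4, 4])]) (.red [.f 809 5 3, .f 810 3 1, .f 818 1 3] 119 136 [2, 4] [(118, 136, [2, 4, 4]),
  (119, 136, [2, 4])]) .no) .no (.use 830) .no .no) (.hor [.f 850 3 1, .f 842 1 3, .f 842 3 5]
  [(122, 119, [3, 3, 3]), (123, 119, [3, 3, 3, 3])]) .no .no (.hor [.t 969 3 2, .f 842 3 5] [(122,
  119, [3, 3, 3])])) .no (.br 850 .no (.br 691 (.red [.f 691 1 3] 103 136 [2, 2, 4] [(103, 136,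
  [2, 2, 4])]) (.br 690 .no (.use 820) (.br 697 .no (.br 704 .no (.use 1079) (.use 864) (.br 705
  .no (.use 1027) (.use 1101) .no (.br 577 .no (.use 999) (.br 714 .no (.red [.t 585 4 1, .f 569 1
  3, .f 696 3 5] 88 136 [2, 2, 2] [(88, 136, [2, 2, 2]), (89, 136, [2, 2, 2, 3])]) .no .no (.use
  1083) (.red [.f 705 5 3, .f 577 3 1, .f 569 1 3] 88 136 [2, 2, 2] [(88, 136, [2, 2, 2]), (89,
  136, [2, 2, 2, 3])])) .no (.red [.f 577 5 1, .f 569 1 3] 88 136 [2, 2, 2] [(88, 136, [2, 2,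
  2])]) (.red [.t 696 3 2] 88 136 [2, 2, 2] [(88, 136, [2, 2, 2])])) .no) (.use 867) .no) (.red
  [.f 824 5 3, .f 697 3 1, .t 697 1 4] 103 136 [2, 2, 4] [(103, 136, [2, 2, 4]), (104, 136, [2,
  2])]) (.hor [.f 689 3 5] []) .no (.red [.f 696 5 1, .t 697 1 4] 103 136 [2, 2, 4] [(103, 136,
  [2, 2, 4])])) (.use 971) .no (.use 1102)) .no (.use 963) .no (.use 858)) (.hor [.f 850 3 1, .f
  842 1 3, .f 842 3 5] [(122, 119, [3, 3, 3]), (123, 119, [3, 3, 3, 3])]) .no .no (.hor [.t 969 3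
  2, .f 842 3 5] [(122, 119, [3, 3, 3])]))

def c27t1105 : Tr4 :=
  .br 1347 (.hor [.f 1346 1 5] []) .no (.use 980) .no .no .no

def c27t1106 : Tr4 :=
  .br 705 .no (.br 704 .no (.hor [.f 576 1 5] []) (.br 937 .no (.red [.t 937 2 3, .f 818 1 3] 119
  136 [2, 4] [(118, 136, [2, 4, 4]), (119, 136, [2, 4])]) .no (.use 956) .no .no) (.br 697 .no
  (.red [.f 569 1 3] 88 136 [2, 2, 2] [(88, 136, [2, 2, 2])]) .no (.use 960) (.br 690 .no (.use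
  820) .no (.use 1086) .no (.use 1001)) .no) .no .no) (.br 704 .no (.br 690 .no (.use 820) (.br
  697 .no (.br 696 .no (.hor [.f 568 1 5] []) .no (.br 570 .no (.use 1087) (.use 1040) (.hor [.f
  562 3 1, .f 562 1 5] [(87, 103, [2])]) (.hor [.t 690 3 2, .f 569 1 5] [(87, 103, [2])]) .no) .no
  .no) .no (.hor [.f 689 3 5] []) .no (.red [.f 696 5 1, .t 697 1 4] 103 136 [2, 2, 4] [(103, 136,
  [2, 2, 4])])) (.br 697 .no (.use 986) .no (.con 136 [2, 2, 4, 4, 2]) (.use 1086) (.use 62)) .no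
  (.use 945)) (.hor [.f 704 3 5] []) (.br 697 .no (.br 577 .no (.use 1042) (.red [.f 577 3 1, .f
  569 1 3] 89 136 [2, 2, 2, 3] [(88, 136, [2, 2, 2]), (89, 136, [2, 2, 2, 3])]) .no (.br 698 .no
  (.hor [.f 569 1 5] []) .no (.br 579 .no (.br 576 .no (.br 937 .no (.red [.t 937 2 3, .f 818 1 3]
  119 136 [2, 4] [(118, 136, [2, 4, 4]), (119, 136, [2, 4])]) .no (.use 1048) .no .no) (.con 136
  [2, 2, 2, 2, 3]) (.red [.f 568 3 1, .f 568 1 5] 88 136 [2, 2, 2] [(88, 136, [2, 2, 2])]) .no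
  .no) (.red [.f 824 5 3, .f 706 5 1, .f 707 1 3, .f 579 3 1] 89 136 [2, 2, 2, 3] [(89, 136, [2,
  2, 2, 3]), (105, 136, [2, 2, 3])]) (.use 1049) .no .no) .no .no) (.red [.t 696 3 2] 88 136 [2,
  2, 2] [(88, 136, [2, 2, 2])])) .no (.use 960) (.br 690 .no (.use 820) .no (.use 1086) .no (.use
  1051)) .no) .no .no) (.use 976) .no (.br 690 .no (.use 820) (.br 697 .no (.br 696 .no (.hor [.f
  568 1 5] []) .no (.br 570 .no (.use 1087) (.br 937 .no (.red [.t 937 2 3, .f 818 1 3] 119 136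
  [2, 4] [(118, 136, [2, 4, 4]), (119, 136, [2, 4])]) .no (.use 1032) .no .no) (.hor [.f 562 3 1,
  .f 562 1 5] [(87, 103, [2])]) (.hor [.t 690 3 2, .f 569 1 5] [(87, 103, [2])]) .no) .no .no) .no
  (.hor [.f 689 3 5] []) .no (.red [.f 696 5 3, .f 696 3 5, .f 696 5 1, .t 697 1 4] 103 136 [2, 2,
  4] [(103, 136, [2, 2, 4])])) (.br 697 .no (.use 986) .no (.con 136 [2, 2, 4, 4, 2]) (.use 1086)
  (.use 62)) .no (.use 652))

def c27l34 : List Tr4 :=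
  [c27t1096, c27t1097, c27t1098, c27t1099, c27t1100, c27t1101, c27t1102, c27t1103, c27t1104,
  c27t1105, c27t1106]

theorem c27k34 : chkLF ⟨4, 1, 0, true, -8⟩ false 7 c27N 1096 c27l34 = true := by decide +kernel

end Pool.Agent.FT4D
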