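import Pool.Agent.FT4D.Tab_c27

/-!
# Four levels: decision trees (found by a computer search)
-/

namespace Pool.Agent.FT4D

def c27t1107 : Tr4 :=
  .br 936 (.br 1065 (.br 707 .no (.br 706 .no (.hor [.f 578 1 5] []) (.hor [.t 714 4 1, .f 835 3
  1, .f 842 1 5] [(105, 136, [2, 2, 3]), (121, 136, [2, 3])]) (.br 705 .no (.use 943) (.use 1069)
  (.hor [.f 697 3 5] []) .no (.br 697 .no (.br 696 .no (.hor [.f 568 1 5] []) .no (.br 690 .no
  (.use 820) .no (.br 691 (.red [.f 691 1 3] 103 136 [2, 2, 4] [(103, 136, [2, 2, 4])]) (.br 937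
  .no (.red [.t 937 2 3, .f 818 1 3] 119 136 [2, 4] [(118, 136, [2, 4, 4]), (119, 136, [2, 4])])
  .no (.use 987) .no .no) .no (.use 963) .no .no) (.use 874) (.red [.f 689 5 1, .t 688 3 1] 103
  136 [2, 2, 4] [(103, 136, [2, 2, 4])])) .no .no) .no (.use 944) .no (.use 942))) .no (.br 691
  (.red [.f 691 1 3] 103 136 [2, 2, 4] [(103, 136, [2, 2, 4])]) (.br 937 .no (.red [.t 937 2 3, .f
  818 1 3] 119 136 [2, 4] [(118, 136, [2, 4, 4]), (119, 136, [2, 4])]) .no (.use 1039) .no .no)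
  .no (.use 963) .no (.use 874))) .no .no .no (.br 691 (.red [.f 691 1 3] 103 136 [2, 2, 4] [(103,
  136, [2, 2, 4])]) (.use 1106) .no (.use 963) .no (.use 874))) (.red [.f 937 1 3, .f 937 3 5, .f
  817 5 1, .f 818 1 3] 119 136 [2, 4] [(119, 136, [2, 4]), (134, 118, [1])]) .no (.use 1088) (.red
  [.t 945 1 4, .f 817 5 1, .f 818 1 3] 119 136 [2, 4] [(119, 136, [2, 4]), (134, 118, [1])]) .no)
  (.br 937 (.red [.f 937 1 3, .f 937 3 5, .f 817 5 1, .f 818 1 3] 119 136 [2, 4] [(119, 136, [2,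
  4]), (134, 118, [1])]) (.hor [.f 808 1 5] []) .no (.br 707 .no (.br 706 .no (.hor [.f 578 1 5]
  []) (.hor [.t 714 4 1, .f 835 3 1, .f 842 1 5] [(105, 136, [2, 2, 3]), (121, 136, [2, 3])])
  (.use 1070) .no (.use 1089)) .no .no .no (.br 705 .no (.use 1091) (.use 1092) (.use 976) .no
  (.use 1009))) .no .no) .no (.use 830) (.use 1082) .no

def c27t1108 : Tr4 :=
  .br 817 .no (.use 939) .no (.use 836) (.br 1211 (.br 1346 (.use 981) .no (.br 1105 .no .no (.br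
  1106 (.red [.f 1098 1 3, .f 1225 3 5, .t 1345 2 3, .f 1089 3 1, .t 1097 1 3] 153 136 [3, 1]
  [(153, 136, [3, 1]), (169, 136, [3, 1, 1])]) (.br 944 .no (.br 976 .no (.hor [.t 976 2 4, .f 841
  1 5] [(122, 119, [3, 3, 3])]) (.br 1337 (.br 1201 (.use 1085) .no .no (.br 937 (.red [.f 937 1
  3, .f 937 3 5, .f 817 5 1, .f 818 1 3] 119 136 [2, 4] [(119, 136, [2, 4]), (134, 118, [1])])
  (.red [.t 937 2 3, .f 818 1 3] 119 136 [2, 4] [(118, 136, [2, 4, 4]), (119, 136, [2, 4])]) .no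
  (.br 936 (.use 181) (.use 1078) .no (.use 830) .no .no) .no (.use 1084)) (.red [.t 1081 1 4, .t
  961 4 1, .f 945 1 3] 136 136 [] [(135, 136, [4]), (136, 136, []), (151, 135, [1])]) .no) .no .no
  (.br 937 (.red [.f 937 1 3, .f 937 3 5, .f 817 5 1, .f 818 1 3] 119 136 [2, 4] [(119, 136, [2,
  4]), (134, 118, [1])]) (.red [.t 937 2 3, .f 818 1 3] 119 136 [2, 4] [(118, 136, [2, 4, 4]),
  (119, 136, [2, 4])]) .no (.br 936 (.use 637) (.use 1078) .no (.use 830) .no .no) .no (.use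
  1084)) (.red [.t 1217 1 4, .t 1097 4 1, .f 1081 1 3] 153 136 [3, 1] [(152, 136, [1]), (153, 136,
  [3, 1]), (168, 152, [1])]) (.con 136 [1, 1, 4, 2, 2, 2])) .no .no .no) .no (.use 293) .no .no)
  (.hor [.f 1105 3 5] []) .no .no .no) .no (.red [.t 1225 3 2, .t 1345 2 3, .f 1089 3 1, .f 1097 1
  3] 153 136 [3, 1] [(153, 136, [3, 1]), (169, 136, [3, 1, 1])]) .no) (.red [.f 1210 3 1, .f 1217
  1 5, .t 1097 4 1] 153 136 [3, 1] [(153, 136, [3, 1]), (168, 152, [1])]) (.red [.t 1210 3 1, .f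
  1217 1 5, .t 1097 4 1, .f 1081 1 3] 153 136 [3, 1] [(152, 136, [1]), (153, 136, [3, 1]), (168,
  152, [1])]) .no) .no .no (.br 978 (.br 944 .no (.br 976 .no (.hor [.t 976 2 4, .f 841 1 5]
  [(122, 119, [3, 3, 3])]) (.br 843 .no (.use 1107) (.use 1100) .no .no .no) .no .no .no) .no
  (.use 293) .no .no) (.hor [.f 842 1 3, .f 969 3 5] [(122, 119, [3, 3, 3])]) (.br 944 .no (.br
  976 .no (.hor [.t 976 2 4, .f 841 1 5] [(122, 119, [3, 3, 3])]) (.br 843 .no (.use 1107) (.use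
  1104) .no .no .no) .no .no .no) .no (.use 293) .no .no) .no (.br 843 .no (.br 944 .no (.use
  1107) .no (.use 293) .no .no) (.hor [.t 842 1 3, .f 969 3 5] [(122, 119, [3, 3, 3])]) .no .no
  .no) .no) .no .no) (.use 1033)

def c27t1109 : Tr4 :=
  .br 937 .no (.hor [.f 808 1 5] []) .no (.use 93) .no .no

def c27t1110 : Tr4 :=
  .br 937 .no (.hor [.f 808 1 5] []) .no (.use 968) .no .no

def c27t1111 : Tr4 :=
  .br 937 .no .no .no (.hor [.f 808 1 3, .f 801 3 1, .f 808 3 1, .f 808 1 5] [(117, 136, [4, 2, 4,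
  4])]) .no .no

def c27t1112 : Tr4 :=
  .br 1065 (.br 819 .no (.red [.f 691 1 3] 103 136 [2, 2, 4] [(103, 136, [2, 2, 4])]) .no (.br 809
  (.hor [.f 808 1 5] []) (.br 691 .no (.br 690 .no (.use 51) (.br 697 .no (.br 696 .no (.hor [.f
  568 1 5] []) (.use 1022) (.use 57) .no .no) (.red [.f 824 5 3, .f 697 3 1, .t 697 1 4] 103 136
  [2, 2, 4] [(103, 136, [2, 2, 4]), (104, 136, [2, 2])]) (.hor [.f 689 3 5] []) .no (.red [.f 696
  5 1, .t 697 1 4] 103 136 [2, 2, 4] [(103, 136, [2, 2, 4])])) (.con 136 [2, 2, 4, 4, 2]) .no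
  (.use 1004)) .no (.use 963) .no (.use 946)) .no (.use 1111) (.red [.f 808 1 3, .f 809 5 3, .f
  810 3 5, .t 954 2 4] 119 136 [2, 4] [(118, 102, [1]), (119, 136, [2, 4])]) .no) .no .no) (.red
  [.f 937 1 3, .f 937 3 5, .f 817 5 1, .f 818 1 3] 119 136 [2, 4] [(119, 136, [2, 4]), (134, 118,
  [1])]) .no (.br 937 .no (.hor [.f 808 1 5] []) .no (.br 809 .no (.br 698 .no (.br 691 (.red [.f
  691 1 3] 103 136 [2, 2, 4] [(103, 136, [2, 2, 4])]) (.use 1023) .no (.use 963) .no (.use 949))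
  (.br 705 .no (.br 691 (.red [.f 691 1 3] 103 136 [2, 2, 4] [(103, 136, [2, 2, 4])]) (.use 1023)
  .no (.use 963) .no (.use 1025)) .no (.hor [.f 697 3 5] []) .no (.br 697 .no (.use 1011) .no
  (.use 944) .no (.br 690 .no (.use 820) .no (.use 842) (.use 940) (.red [.f 696 5 3, .f 689 5 1,
  .f 696 3 5, .f 696 5 1, .f 689 1 3] 103 136 [2, 2, 4] [(103, 136, [2, 2, 4])])))) (.br 697 .no
  (.br 704 .no (.use 1013) (.use 58) (.br 705 .no (.red [.f 569 1 3] 88 136 [2, 2, 2] [(88, 136,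
  [2, 2, 2])]) .no .no (.br 577 .no (.use 999) (.br 578 .no (.br 691 (.red [.f 691 1 3, .f 690 3
  5] 103 136 [2, 2, 4] [(103, 136, [2, 2, 4])]) (.use 1021) .no (.use 963) .no .no) (.hor [.f 577
  3 5] []) (.red [.t 569 1 3, .f 696 3 5] 88 136 [2, 2, 2] [(88, 136, [2, 2, 2])]) (.red [.t 970 2
  4, .t 841 2 4, .f 577 3 1] 89 136 [2, 2, 2, 3] [(89, 136, [2, 2, 2, 3]), (105, 136, [2, 2, 3]),
  (121, 136, [2, 3])]) .no) .no (.red [.f 577 5 1, .f 569 1 3] 88 136 [2, 2, 2] [(88, 136, [2, 2,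
  2])]) (.red [.t 696 3 2] 88 136 [2, 2, 2] [(88, 136, [2, 2, 2])])) .no) (.use 154) .no) (.red
  [.f 824 5 3, .f 697 3 1, .t 697 1 4] 103 136 [2, 2, 4] [(103, 136, [2, 2, 4]), (104, 136, [2,
  2])]) (.hor [.f 689 3 5] []) .no (.red [.f 696 5 1, .t 697 1 4] 103 136 [2, 2, 4] [(103, 136,
  [2, 2, 4])])) .no (.br 691 (.red [.f 691 1 3] 103 136 [2, 2, 4] [(103, 136, [2, 2, 4])]) (.use
  1023) .no (.use 963) .no (.use 967))) .no (.hor [.f 808 1 3, .f 801 3 1, .f 808 3 1, .f 808 1 5]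
  [(117, 136, [2, 4, 4, 4])]) (.red [.f 809 5 3, .f 810 3 1, .f 818 1 3] 119 136 [2, 4] [(118,
  136, [2, 4, 4]), (119, 136, [2, 4])]) .no) .no .no) (.hor [.f 808 1 3, .f 808 3 1, .t 945 1 4,
  .f 1064 3 5] [(134, 119, [4, 1])]) .no

def c27t1113 : Tr4 :=
  .br 570 .no (.con 136 [2, 4, 2, 2, 2, 3]) (.hor [.f 569 3 5] []) (.con 136 [2, 4, 2, 2, 2])
  (.con 136 [2, 4, 2, 2, 2, 3]) .no

def c27t1114 : Tr4 :=
  .br 682 (.hor [.f 681 1 5] []) (.con 136 [2, 4, 2, 4, 4]) .no (.con 136 [2, 4, 2, 4, 4]) (.con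
  136 [2, 4, 2, 4, 4]) .no

def c27t1115 : Tr4 :=
  .br 690 .no (.use 820) .no (.use 842) (.br 937 .no (.hor [.f 808 1 5] []) .no (.use 941) .no
  .no) (.red [.f 696 5 1, .f 689 5 1, .f 689 1 3] 103 136 [2, 2, 4] [(103, 136, [2, 2, 4])])

def c27t1116 : Tr4 :=
  .br 704 .no (.use 1067) (.hor [.f 704 3 5] []) .no .no .no

def c27t1117 : Tr4 :=
  .br 809 (.hor [.f 808 1 5] []) (.use 1007) .no (.use 1111) (.red [.f 809 5 3, .f 810 3 1, .f 818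
  1 3] 119 136 [2, 4] [(118, 136, [2, 4, 4]), (119, 136, [2, 4])]) .no

def c27t1118 : Tr4 :=
  .br 696 .no (.hor [.f 568 1 5] []) .no (.use 1117) .no .no

def c27t1119 : Tr4 :=
  .br 697 .no (.use 58) .no (.hor [.f 689 3 5] []) .no (.red [.f 696 5 1, .t 697 1 4] 103 136 [2,
  2, 4] [(103, 136, [2, 2, 4])])

def c27t1120 : Tr4 :=
  .br 705 .no (.br 704 .no (.hor [.f 576 1 5] []) (.br 937 .no (.hor [.f 808 1 5] []) .no (.use
  958) .no .no) (.br 697 .no (.red [.f 569 1 3] 88 136 [2, 2, 2] [(88, 136, [2, 2, 2])]) .no (.use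
  960) (.br 937 .no (.hor [.f 808 1 5] []) .no (.use 1090) .no .no) .no) .no .no) (.br 819 .no
  (.red [.f 691 1 3] 103 136 [2, 2, 4] [(103, 136, [2, 2, 4])]) .no (.br 809 (.hor [.f 808 1 5]
  []) (.br 690 .no (.use 51) (.br 697 .no (.br 696 .no (.hor [.f 568 1 5] []) (.br 691 .no (.use
  1073) .no (.use 963) .no .no) (.use 57) .no .no) .no (.hor [.f 689 3 5] []) .no (.red [.f 696 5
  1, .t 697 1 4] 103 136 [2, 2, 4] [(103, 136, [2, 2, 4])])) (.con 136 [2, 2, 4, 4, 4]) (.use 946)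
  (.use 1114)) .no (.use 1111) (.red [.f 808 1 3, .f 809 5 3, .f 810 3 5, .t 954 2 4] 119 136 [2,
  4] [(118, 102, [1]), (119, 136, [2, 4])]) .no) .no .no) (.br 819 .no (.red [.f 691 1 3] 103 136
  [2, 2, 4] [(103, 136, [2, 2, 4])]) .no (.br 698 .no (.br 696 .no (.br 937 .no (.hor [.f 808 1 5]
  []) .no (.use 974) .no .no) (.hor [.f 696 3 5] []) (.use 970) .no .no) .no (.red [.f 824 5 3, .f
  697 3 1, .t 697 1 4] 103 136 [2, 2, 4] [(103, 136, [2, 2, 4]), (104, 136, [2, 2])]) .no .no) .no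
  .no) .no (.br 819 .no (.red [.f 691 1 3] 103 136 [2, 2, 4] [(103, 136, [2, 2, 4])]) .no (.br 696
  .no (.br 697 .no (.hor [.f 568 1 5] []) .no (.use 1005) (.br 690 .no (.use 51) .no (.use 1109)
  (.use 1110) (.use 1076)) .no) .no (.br 809 (.hor [.f 808 1 5] []) (.use 1006) .no (.br 697 .no
  (.br 698 .no (.use 970) .no (.use 142) .no .no) .no (.hor [.f 688 3 5] []) (.br 690 .no (.use
  51) .no (.use 1109) (.use 1110) (.red [.f 689 5 1, .t 688 3 1] 103 136 [2, 2, 4] [(103, 136, [2,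
  2, 4])])) .no) (.red [.f 808 1 3, .f 809 5 3, .f 810 3 5, .t 954 2 4] 119 136 [2, 4] [(118, 102,
  [1]), (119, 136, [2, 4])]) .no) (.br 698 .no (.br 690 .no (.use 51) .no (.use 63) (.br 937 .no
  (.hor [.f 808 1 5] []) .no (.use 950) .no .no) (.red [.f 696 5 3, .f 689 5 1, .f 696 3 5, .f 696
  5 1, .f 689 1 3] 103 136 [2, 2, 4] [(103, 136, [2, 2, 4])])) .no (.red [.f 696 5 3, .f 696 3 5,
  .f 696 5 1, .t 697 1 4] 103 136 [2, 2, 4] [(103, 136, [2, 2, 4])]) .no .no) .no) .no .no)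

def c27t1121 : Tr4 :=
  .br 690 .no (.use 51) (.br 697 .no (.br 696 .no (.hor [.f 568 1 5] []) (.br 691 .no (.use 1098)
  .no (.use 963) .no .no) (.use 57) .no .no) (.red [.f 824 5 3, .f 697 3 1, .t 697 1 4] 103 136
  [2, 2, 4] [(103, 136, [2, 2, 4]), (104, 136, [2, 2])]) (.hor [.f 689 3 5] []) .no (.red [.f 696
  5 1, .t 697 1 4] 103 136 [2, 2, 4] [(103, 136, [2, 2, 4])])) (.con 136 [2, 2, 4, 4, 4]) (.use
  946) (.use 1114)

def c27t1122 : Tr4 :=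
  .br 690 .no (.use 51) (.br 697 .no (.br 696 .no (.hor [.f 568 1 5] []) (.br 691 .no (.use 1103)
  .no (.use 963) .no .no) (.use 57) .no .no) (.red [.f 824 5 3, .f 697 3 1, .t 697 1 4] 103 136
  [2, 2, 4] [(103, 136, [2, 2, 4]), (104, 136, [2, 2])]) (.hor [.f 689 3 5] []) .no (.red [.f 696
  5 1, .t 697 1 4] 103 136 [2, 2, 4] [(103, 136, [2, 2, 4])])) (.con 136 [2, 2, 4, 4, 4]) (.use
  946) (.use 1114)

def c27l35 : List Tr4 :=
  [c27t1107, c27t1108, c27t1109, c27t1110, c27t1111, c27t1112, c27t1113, c27t1114, c27t1115,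
  c27t1116, c27t1117, c27t1118, c27t1119, c27t1120, c27t1121, c27t1122]

theorem c27k35 : chkLF ⟨4, 1, 0, true, -8⟩ false 7 c27N 1107 c27l35 = true := by decide +kernel

def c27t1123 : Tr4 :=
  .br 843 .no (.br 707 .no (.br 706 .no (.hor [.f 578 1 5] []) (.hor [.t 714 4 1, .f 835 3 1, .f
  842 1 5] [(105, 136, [2, 2, 3]), (121, 136, [2, 3])]) (.br 705 .no (.br 697 .no (.red [.f 569 1
  3] 88 136 [2, 2, 2] [(88, 136, [2, 2, 2])]) .no (.use 1024) .no (.use 1115)) (.br 696 .no (.use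
  1066) (.con 136 [2, 2, 2]) (.use 1116) (.use 1115) .no) (.hor [.f 697 3 5] []) .no (.br 697 .no
  (.use 1118) .no (.use 944) .no (.use 1115))) .no (.br 704 .no (.br 937 .no (.hor [.f 808 1 5]
  []) .no (.use 1014) .no .no) (.br 819 .no (.red [.f 691 1 3] 103 136 [2, 2, 4] [(103, 136, [2,
  2, 4])]) .no (.br 809 (.hor [.f 808 1 5] []) (.br 690 .no (.use 51) (.use 1119) (.con 136 [2, 2,
  4, 4, 4]) (.use 946) (.use 1114)) .no (.use 1111) (.red [.f 808 1 3, .f 809 5 3, .f 810 3 5, .t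
  954 2 4] 119 136 [2, 4] [(118, 102, [1]), (119, 136, [2, 4])]) .no) .no .no) (.br 697 .no (.br
  937 .no (.hor [.f 808 1 5] []) .no (.use 1017) .no .no) .no (.use 994) (.br 937 .no (.hor [.f
  808 1 5] []) .no (.use 1018) .no .no) .no) .no .no)) .no .no .no (.use 1120)) (.br 978 (.br 819
  .no (.red [.f 691 1 3] 103 136 [2, 2, 4] [(103, 136, [2, 2, 4])]) .no (.br 809 (.hor [.f 808 1
  5] []) (.use 1121) .no (.use 1111) (.red [.f 808 1 3, .f 809 5 3, .f 810 3 5, .t 954 2 4] 119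
  136 [2, 4] [(118, 102, [1]), (119, 136, [2, 4])]) .no) .no .no) (.hor [.f 842 1 3, .f 842 3 5]
  [(122, 119, [3, 3, 3])]) (.br 850 .no (.br 819 .no (.red [.f 691 1 3] 103 136 [2, 2, 4] [(103,
  136, [2, 2, 4])]) .no (.br 809 (.hor [.f 808 1 5] []) (.use 1122) .no (.use 1111) (.red [.f 808
  1 3, .f 809 5 3, .f 810 3 5, .t 954 2 4] 119 136 [2, 4] [(118, 102, [1]), (119, 136, [2, 4])])
  .no) .no .no) (.hor [.f 850 3 1, .f 842 1 3, .f 842 3 5] [(122, 119, [3, 3, 3]), (123, 119, [3,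
  3, 3, 3])]) .no .no (.hor [.t 969 3 2, .f 842 3 5] [(122, 119, [3, 3, 3])])) .no (.hor [.t 842 1
  3, .f 969 3 5] [(122, 119, [3, 3, 3])]) .no) .no .no .no

def c27t1124 : Tr4 :=
  .br 690 .no (.use 820) .no (.use 842) (.br 937 .no (.hor [.f 808 1 5] []) .no (.use 941) .no
  .no) (.red [.f 696 5 1, .f 689 5 1, .f 689 1 3] 103 136 [2, 2, 4] [(103, 136, [2, 2, 4])])

def c27t1125 : Tr4 :=
  .br 696 .no (.hor [.f 568 1 5] []) .no (.br 937 .no (.hor [.f 808 1 5] []) .no (.use 1010) .no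
  .no) .no .no

def c27t1126 : Tr4 :=
  .br 691 (.red [.f 691 1 3] 103 136 [2, 2, 4] [(103, 136, [2, 2, 4])]) (.use 966) .no (.use 963)
  .no .no

def c27t1127 : Tr4 :=
  .br 843 .no (.br 707 .no (.br 706 .no (.hor [.f 578 1 5] []) (.hor [.t 714 4 1, .f 835 3 1, .f
  842 1 5] [(105, 136, [2, 2, 3]), (121, 136, [2, 3])]) (.br 705 .no (.br 697 .no (.red [.f 569 1
  3] 88 136 [2, 2, 2] [(88, 136, [2, 2, 2])]) .no (.use 1024) .no (.use 1124)) (.br 696 .no (.use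
  1066) (.con 136 [2, 2, 2]) (.use 1116) (.use 1124) .no) (.hor [.f 697 3 5] []) .no (.br 697 .no
  (.use 1125) .no (.use 944) .no (.use 1124))) .no (.br 937 .no (.hor [.f 808 1 5] []) .no (.use
  1089) .no .no)) .no .no .no (.br 937 .no (.hor [.f 808 1 5] []) .no (.br 705 .no (.use 1091)
  (.use 1092) (.br 698 .no (.br 696 .no (.br 690 .no (.use 820) .no (.use 1126) (.use 950) (.use
  975)) (.hor [.f 696 3 5] []) (.use 969) .no .no) .no (.red [.f 824 5 3, .f 697 3 1, .t 697 1 4]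
  103 136 [2, 2, 4] [(103, 136, [2, 2, 4]), (104, 136, [2, 2])]) .no .no) .no (.use 1009)) .no
  .no)) (.br 978 (.br 937 .no (.hor [.f 808 1 5] []) .no (.br 809 .no (.br 819 .no (.red [.f 691 1
  3] 103 136 [2, 2, 4] [(103, 136, [2, 2, 4])]) .no (.use 1121) .no .no) .no (.hor [.f 808 1 3, .f
  801 3 1, .f 808 3 1, .f 808 1 5] [(117, 136, [2, 4, 4, 4])]) (.red [.f 809 5 3, .f 810 3 1, .f
  818 1 3] 119 136 [2, 4] [(118, 136, [2, 4, 4]), (119, 136, [2, 4])]) .no) .no .no) (.hor [.f 842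
  1 3, .f 842 3 5] [(122, 119, [3, 3, 3])]) (.br 937 .no (.hor [.f 808 1 5] []) .no (.br 850 .no
  (.br 809 .no (.br 819 .no (.red [.f 691 1 3] 103 136 [2, 2, 4] [(103, 136, [2, 2, 4])]) .no
  (.use 1122) .no .no) .no (.hor [.f 808 1 3, .f 801 3 1, .f 808 3 1, .f 808 1 5] [(117, 136, [2,
  4, 4, 4])]) (.red [.f 809 5 3, .f 810 3 1, .f 818 1 3] 119 136 [2, 4] [(118, 136, [2, 4, 4]),
  (119, 136, [2, 4])]) .no) (.hor [.f 850 3 1, .f 842 1 3, .f 842 3 5] [(122, 119, [3, 3, 3]),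
  (123, 119, [3, 3, 3, 3])]) .no .no (.hor [.t 969 3 2, .f 842 3 5] [(122, 119, [3, 3, 3])])) .no
  .no) .no (.hor [.t 842 1 3, .f 969 3 5] [(122, 119, [3, 3, 3])]) .no) .no .no .no

def c27t1128 : Tr4 :=
  .br 1072 (.br 841 .no (.br 1211 (.use 1031) .no .no (.br 817 .no (.use 939) .no (.use 836) (.br
  944 .no (.br 937 (.red [.f 937 1 3, .f 937 3 5, .f 817 5 1, .f 818 1 3] 119 136 [2, 4] [(119,
  136, [2, 4]), (134, 118, [1])]) (.red [.t 937 2 3, .f 818 1 3] 119 136 [2, 4] [(118, 136, [2, 4,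
  4]), (119, 136, [2, 4])]) .no (.br 936 (.br 840 .no (.hor [.f 712 1 5] []) (.br 691 (.red [.f
  691 1 3] 103 136 [2, 2, 4] [(103, 136, [2, 2, 4])]) (.br 690 .no (.use 820) (.br 697 .no (.br
  705 .no (.use 998) .no .no (.use 1000) (.br 696 .no (.hor [.f 568 1 5] []) .no (.br 570 .no
  (.use 978) (.use 1032) (.hor [.f 562 3 1, .f 562 1 5] [(87, 103, [2])]) (.hor [.t 690 3 2, .f
  569 1 5] [(87, 103, [2])]) .no) .no .no)) (.red [.f 824 5 3, .f 697 3 1, .t 697 1 4] 103 136 [2,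
  2, 4] [(103, 136, [2, 2, 4]), (104, 136, [2, 2])]) (.hor [.f 689 3 5] []) .no (.red [.f 696 5 1,
  .t 697 1 4] 103 136 [2, 2, 4] [(103, 136, [2, 2, 4])])) (.use 990) .no (.use 1004)) .no (.use
  963) .no (.use 843)) .no .no .no) (.use 1026) .no (.use 830) .no .no) .no (.use 1030)) .no (.use
  293) .no .no) (.use 1033)) .no .no) (.hor [.f 841 3 1, .f 841 1 5] [(122, 119, [3, 3, 3])]) .no
  .no (.use 1108)) (.hor [.f 944 1 5] []) .no (.br 817 .no (.use 939) .no (.use 836) (.br 936 .no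
  (.br 944 .no (.br 841 .no (.use 1112) (.hor [.f 841 3 1, .f 841 1 5] [(122, 119, [3, 3, 3])])
  .no .no (.br 1065 (.br 976 .no (.hor [.t 976 2 4, .f 841 1 5] [(122, 119, [3, 3, 3])]) (.use
  1123) .no .no .no) (.red [.f 937 1 3, .f 937 3 5, .f 817 5 1, .f 818 1 3] 119 136 [2, 4] [(119,
  136, [2, 4]), (134, 118, [1])]) .no (.br 976 .no (.hor [.t 976 2 4, .f 841 1 5] [(122, 119, [3,
  3, 3])]) (.use 1127) .no .no .no) (.hor [.f 808 1 3, .f 808 3 1, .t 945 1 4, .f 1064 3 5] [(134,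
  119, [4, 1])]) .no)) .no .no .no .no) (.hor [.f 936 3 1, .f 944 1 5] [(134, 118, [1])]) (.use
  830) (.red [.t 1072 4 2, .f 937 3 5, .f 817 5 1, .f 818 1 3] 119 136 [2, 4] [(119, 136, [2, 4]),
  (134, 118, [1])]) .no) (.use 1033)) .no .no

def c27t1129 : Tr4 :=
  .br 832 .no (.br 824 .no (.use 813) .no (.use 599) (.br 1072 (.br 705 .no (.br 818 .no (.use 6)
  .no (.red [.f 810 3 1, .f 818 1 3] 119 136 [2, 4] [(118, 136, [2, 4, 4]), (119, 136, [2, 4])])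
  (.red [.t 954 2 4] 119 136 [2, 4] [(119, 136, [2, 4])]) (.br 944 .no (.br 937 (.red [.f 937 1 3,
  .f 937 3 5, .f 817 5 1, .f 818 1 3] 119 136 [2, 4] [(119, 136, [2, 4]), (134, 118, [1])]) (.red
  [.t 937 2 3, .f 818 1 3] 119 136 [2, 4] [(118, 136, [2, 4, 4]), (119, 136, [2, 4])]) .no (.br
  936 (.br 691 (.red [.f 691 1 3] 103 136 [2, 2, 4] [(103, 136, [2, 2, 4])]) (.br 690 .no (.use
  820) (.br 697 .no (.br 696 .no (.hor [.f 568 1 5] []) .no (.br 570 .no (.use 1034) (.hor [.f 569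
  1 3, .f 569 3 5] [(88, 136, [2, 2, 2])]) (.hor [.f 562 3 1, .f 562 1 5] [(87, 103, [2])]) (.hor
  [.t 690 3 2, .f 569 1 5] [(87, 103, [2])]) .no) .no .no) .no (.hor [.f 689 3 5] []) .no (.red
  [.f 696 5 1, .t 697 1 4] 103 136 [2, 2, 4] [(103, 136, [2, 2, 4])])) (.use 990) .no (.use 815))
  .no (.use 963) .no (.use 843)) (.use 825) .no (.use 830) .no .no) .no (.use 826)) .no (.use 293)
  .no .no)) (.hor [.f 705 3 1, .f 704 1 5] [(105, 104, [3])]) (.use 829) .no .no) (.hor [.f 944 1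
  5] []) .no (.br 944 .no (.br 705 .no (.use 832) (.hor [.f 705 3 1, .f 704 1 5] [(105, 104,
  [3])]) (.use 835) .no .no) .no (.hor [.f 936 3 1, .f 944 1 5] [(134, 118, [1])]) .no .no) .no
  .no) .no) (.hor [.f 832 3 5] []) (.use 839) .no .no

def c27t1130 : Tr4 :=
  .br 937 (.red [.f 937 1 3, .f 937 3 5, .f 817 5 1, .f 818 1 3] 119 136 [2, 4] [(119, 136, [2,
  4]), (134, 118, [1])]) (.hor [.f 808 1 5] []) .no (.use 604) .no .no

def c27t1131 : Tr4 :=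
  .br 936 (.use 879) (.use 1130) .no (.use 830) (.use 607) .no

def c27t1132 : Tr4 :=
  .br 697 .no (.red [.f 569 1 3] 88 136 [2, 2, 2] [(88, 136, [2, 2, 2])]) .no (.use 134) (.use
  1131) .no

def c27t1133 : Tr4 :=
  .br 704 .no (.hor [.f 576 1 5] []) .no (.use 1132) .no .no

def c27t1134 : Tr4 :=
  .br 937 (.red [.f 937 1 3, .f 937 3 5, .f 817 5 1, .f 818 1 3] 119 136 [2, 4] [(119, 136, [2,
  4]), (134, 118, [1])]) (.hor [.f 808 1 5] []) .no (.use 186) .no .no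

def c27t1135 : Tr4 :=
  .br 978 (.hor [.t 1106 2 4, .f 969 3 5] [(138, 136, [3, 3])]) (.hor [.f 841 3 1, .f 849 1 5]
  [(122, 136, [2, 3, 3])]) (.br 840 .no (.br 842 .no (.br 843 .no (.hor [.f 714 1 5] []) (.use
  208) .no .no .no) (.hor [.f 841 3 5] []) .no (.br 976 .no (.hor [.f 842 5 1, .f 841 3 1, .f 841
  1 5, .f 848 1 5] [(122, 136, [2, 3, 3])]) (.br 848 .no (.hor [.f 712 1 3, .f 840 3 5] [(106,
  136, [2, 2, 3, 3])]) (.hor [.f 848 3 1, .f 841 3 1, .f 848 1 5] [(122, 136, [2, 3, 3]), (123,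
  136, [2, 3, 3, 3])]) .no .no .no) .no .no .no) .no) (.hor [.f 840 3 5] []) .no .no .no) .no (.br
  842 .no (.br 840 .no (.br 713 .no (.br 976 .no (.hor [.f 841 3 1, .f 848 1 5] [(122, 136, [2, 3,
  3])]) (.br 843 .no (.hor [.f 714 1 5] []) (.br 848 .no (.red [.f 712 1 3] 106 136 [2, 2, 3, 3]
  [(106, 136, [2, 2, 3, 3])]) (.hor [.f 848 3 1, .f 841 3 1, .f 848 1 5] [(122, 106, [1]), (123,
  106, [1, 3])]) .no .no .no) .no .no .no) .no .no .no) (.hor [.f 706 1 3, .f 713 3 1, .f 712 1 5]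
  [(105, 136, [2, 2, 3]), (106, 136, [2, 2, 3, 3])]) (.hor [.t 712 1 4, .f 705 1 5] [(105, 136,
  [2, 2, 3])]) .no .no) (.hor [.f 840 3 5] []) .no .no .no) (.hor [.f 841 3 5] []) .no (.br 976
  .no (.hor [.f 842 5 1, .f 841 3 1, .f 841 1 5, .f 848 1 5] [(122, 136, [2, 3, 3])]) (.br 840 .no
  (.br 848 .no (.hor [.f 712 1 3, .f 840 3 5] [(106, 136, [2, 2, 3, 3])]) (.hor [.f 848 3 1, .f
  841 3 1, .f 848 1 5] [(122, 136, [2, 3, 3]), (123, 136, [2, 3, 3, 3])]) .no .no .no) (.hor [.f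
  840 3 5] []) .no .no .no) .no .no .no) .no) .no

def c27t1136 : Tr4 :=
  .br 705 .no (.use 853) (.use 894) (.use 855) .no (.use 186)

def c27t1137 : Tr4 :=
  .br 937 (.red [.f 937 1 3, .f 937 3 5, .f 817 5 1, .f 818 1 3] 119 136 [2, 4] [(119, 136, [2,
  4]), (134, 118, [1])]) (.red [.t 937 2 3, .f 818 1 3] 119 136 [2, 4] [(118, 136, [2, 4, 4]),
  (119, 136, [2, 4])]) .no (.br 936 (.br 705 .no (.use 845) (.use 890) (.use 851) .no (.use 852))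
  (.use 1136) .no (.use 830) .no .no) .no (.use 897)

def c27t1138 : Tr4 :=
  .br 577 .no (.br 576 .no (.hor [.f 448 1 5] []) (.br 578 .no (.hor [.f 449 1 5] []) (.con 136
  [2, 2, 2, 2, 3]) (.red [.f 824 5 3, .t 705 3 1, .t 569 1 3] 88 136 [2, 2, 2] [(88, 136, [2, 2,
  2]), (105, 88, [1, 3])]) (.con 136 [2, 2, 2, 2, 3]) .no) (.red [.f 568 3 1, .f 568 1 5] 88 136
  [2, 2, 2] [(88, 136, [2, 2, 2])]) .no .no) (.red [.f 577 3 1, .f 569 1 3] 88 136 [2, 2, 2] [(88,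
  136, [2, 2, 2]), (89, 136, [2, 2, 2, 3])]) .no (.red [.t 705 3 1, .f 577 5 1, .f 569 1 3] 88 136
  [2, 2, 2] [(88, 136, [2, 2, 2]), (105, 88, [1, 3])]) (.red [.t 696 3 2] 88 136 [2, 2, 2] [(88,
  136, [2, 2, 2])])

def c27t1139 : Tr4 :=
  .br 705 .no (.use 1132) (.use 1138) .no .no .no

def c27t1140 : Tr4 :=
  .br 944 .no (.br 698 .no (.use 1137) .no (.br 697 .no (.br 696 .no (.hor [.f 568 1 5] []) (.use
  1139) (.br 937 (.red [.f 937 1 3, .f 937 3 5, .f 817 5 1, .f 818 1 3] 119 136 [2, 4] [(119, 136,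
  [2, 4]), (134, 118, [1])]) (.red [.t 937 2 3, .f 818 1 3] 119 136 [2, 4] [(118, 136, [2, 4, 4]),
  (119, 136, [2, 4])]) .no (.br 936 (.br 705 .no (.use 880) (.br 704 .no (.use 903) (.hor [.f 704
  3 5] []) .no .no .no) .no .no (.use 643)) (.use 819) .no (.use 830) .no .no) .no (.use 866)) .no
  .no) (.red [.f 824 5 3, .f 697 3 1, .t 697 1 4] 103 136 [2, 2, 4] [(103, 136, [2, 2, 4]), (104,
  136, [2, 2])]) (.hor [.f 689 3 5] []) .no (.red [.f 696 5 1, .t 697 1 4] 103 136 [2, 2, 4]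
  [(103, 136, [2, 2, 4])])) .no (.use 1131)) .no (.use 293) .no .no

def c27l36 : List Tr4 :=
  [c27t1123, c27t1124, c27t1125, c27t1126, c27t1127, c27t1128, c27t1129, c27t1130, c27t1131,
  c27t1132, c27t1133, c27t1134, c27t1135, c27t1136, c27t1137, c27t1138, c27t1139, c27t1140]

theorem c27k36 : chkLF ⟨4, 1, 0, true, -8⟩ false 7 c27N 1123 c27l36 = true := by decide +kernel

def c27t1141 : Tr4 :=
  .br 841 .no (.br 1211 (.br 1346 (.br 1338 (.red [.f 1338 1 3, .f 1210 3 1, .f 1217 1 5, .t 1097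
  4 1, .f 1081 1 3] 153 136 [3, 1] [(152, 136, [1]), (153, 136, [3, 1]), (168, 152, [1]), (184,
  136, [1, 1, 1])]) .no .no (.use 870) .no (.red [.t 1217 1 4, .t 1097 4 1, .f 1081 1 3] 153 136
  [3, 1] [(152, 136, [1]), (153, 136, [3, 1]), (168, 152, [1])])) .no (.br 944 .no (.br 936 (.br
  1338 (.use 872) .no .no (.use 869) .no (.red [.t 1217 1 4, .t 1097 4 1, .f 1081 1 3] 153 136 [3,
  1] [(152, 136, [1]), (153, 136, [3, 1]), (168, 152, [1])])) (.use 873) .no (.use 830) (.use 868)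
  .no) .no (.use 293) .no .no) (.red [.f 1210 3 1, .f 1217 1 5, .t 1097 4 1] 153 136 [3, 1] [(153,
  136, [3, 1]), (168, 152, [1])]) (.red [.t 1210 3 1, .f 1217 1 5, .t 1097 4 1, .f 1081 1 3] 153
  136 [3, 1] [(152, 136, [1]), (153, 136, [3, 1]), (168, 152, [1])]) .no) .no .no (.use 887) .no
  .no) (.use 1135) .no (.br 1211 (.br 1346 (.use 981) .no (.br 944 .no (.br 698 .no (.use 1137)
  .no (.br 697 .no (.br 1337 (.br 696 .no (.hor [.f 568 1 5] []) (.use 1139) (.br 937 (.red [.f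
  937 1 3, .f 937 3 5, .f 817 5 1, .f 818 1 3] 119 136 [2, 4] [(119, 136, [2, 4]), (134, 118,
  [1])]) (.red [.t 937 2 3, .f 818 1 3] 119 136 [2, 4] [(118, 136, [2, 4, 4]), (119, 136, [2,
  4])]) .no (.br 936 (.br 1065 (.br 705 .no (.use 880) (.br 704 .no (.br 1338 (.use 871) .no .no
  (.use 892) .no .no) (.hor [.f 704 3 5] []) .no .no .no) .no .no (.use 631)) .no .no (.use 1088)
  (.red [.t 945 1 4, .f 817 5 1, .f 818 1 3] 119 136 [2, 4] [(119, 136, [2, 4]), (134, 118, [1])])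
  .no) (.use 819) .no (.use 830) .no .no) .no (.use 866)) .no .no) .no .no (.br 696 .no (.hor [.f
  568 1 5] []) (.use 1139) (.br 937 (.red [.f 937 1 3, .f 937 3 5, .f 817 5 1, .f 818 1 3] 119 136
  [2, 4] [(119, 136, [2, 4]), (134, 118, [1])]) (.red [.t 937 2 3, .f 818 1 3] 119 136 [2, 4]
  [(118, 136, [2, 4, 4]), (119, 136, [2, 4])]) .no (.br 936 (.use 637) (.use 819) .no (.use 830)
  .no .no) .no (.use 866)) .no .no) (.red [.t 1217 1 4, .t 1097 4 1, .f 1081 1 3] 153 136 [3, 1]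
  [(152, 136, [1]), (153, 136, [3, 1]), (168, 152, [1])]) (.con 136 [1, 1, 4, 2, 2, 2])) (.red [.f
  824 5 3, .f 697 3 1, .t 697 1 4] 103 136 [2, 2, 4] [(103, 136, [2, 2, 4]), (104, 136, [2, 2])])
  (.hor [.f 689 3 5] []) .no (.red [.f 696 5 1, .t 697 1 4] 103 136 [2, 2, 4] [(103, 136, [2, 2,
  4])])) .no (.use 1131)) .no (.use 293) .no .no) (.red [.f 1210 3 1, .f 1217 1 5, .t 1097 4 1]
  153 136 [3, 1] [(153, 136, [3, 1]), (168, 152, [1])]) (.red [.t 1210 3 1, .f 1217 1 5, .t 1097 4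
  1, .f 1081 1 3] 153 136 [3, 1] [(152, 136, [1]), (153, 136, [3, 1]), (168, 152, [1])]) .no) .no
  .no (.use 1140) .no .no) (.br 1211 (.br 1346 (.br 1338 (.red [.f 1338 1 3, .f 1210 3 1, .f 1217
  1 5, .t 1097 4 1, .f 1081 1 3] 153 136 [3, 1] [(152, 136, [1]), (153, 136, [3, 1]), (168, 152,
  [1]), (184, 136, [1, 1, 1])]) .no .no (.use 901) .no (.red [.t 1217 1 4, .t 1097 4 1, .f 1081 1
  3] 153 136 [3, 1] [(152, 136, [1]), (153, 136, [3, 1]), (168, 152, [1])])) .no (.br 944 .no (.br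
  936 (.br 1338 (.use 872) .no .no (.use 900) .no (.red [.t 1217 1 4, .t 1097 4 1, .f 1081 1 3]
  153 136 [3, 1] [(152, 136, [1]), (153, 136, [3, 1]), (168, 152, [1])])) (.use 902) .no (.use
  830) (.use 899) .no) .no (.use 293) .no .no) (.red [.f 1210 3 1, .f 1217 1 5, .t 1097 4 1] 153
  136 [3, 1] [(153, 136, [3, 1]), (168, 152, [1])]) (.red [.t 1210 3 1, .f 1217 1 5, .t 1097 4 1,
  .f 1081 1 3] 153 136 [3, 1] [(152, 136, [1]), (153, 136, [3, 1]), (168, 152, [1])]) .no) .no .no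
  (.use 905) .no .no)

def c27t1142 : Tr4 :=
  .br 819 .no (.red [.f 691 1 3] 103 136 [2, 2, 4] [(103, 136, [2, 2, 4])]) .no (.br 809 (.hor [.f
  808 1 5] []) (.br 690 .no (.use 51) .no (.con 136 [2, 2, 4, 4, 4]) (.use 946) (.use 1114)) .no
  (.use 1111) (.red [.f 808 1 3, .f 809 5 3, .f 810 3 5, .t 954 2 4] 119 136 [2, 4] [(118, 102,
  [1]), (119, 136, [2, 4])]) .no) .no .no

def c27t1143 : Tr4 :=
  .br 704 .no (.hor [.f 576 1 5] []) (.use 875) (.red [.f 569 1 3] 88 136 [2, 2, 2] [(88, 136, [2,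
  2, 2])]) .no .no

def c27t1144 : Tr4 :=
  .br 704 .no (.br 712 .no (.hor [.f 576 1 3, .f 704 3 5] [(89, 136, [2, 2, 2, 3])]) (.hor [.f 712
  3 1, .t 712 1 4, .f 705 1 5] [(105, 136, [2, 2, 3]), (106, 136, [2, 2, 3, 3])]) .no .no .no)
  (.hor [.f 704 3 5] []) (.use 1138) .no .no

def c27t1145 : Tr4 :=
  .br 840 .no (.hor [.t 712 1 4, .f 705 1 5] [(105, 136, [2, 2, 3])]) (.use 1144) .no .no .no

def c27t1146 : Tr4 :=
  .br 937 .no (.hor [.f 808 1 5] []) .no (.use 1136) .no .no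

def c27t1147 : Tr4 :=
  .br 1065 (.br 698 .no (.use 1142) .no (.br 697 .no (.br 705 .no (.use 1143) (.use 1145) .no .no
  (.use 1118)) (.red [.f 824 5 3, .f 697 3 1, .t 697 1 4] 103 136 [2, 2, 4] [(103, 136, [2, 2,
  4]), (104, 136, [2, 2])]) (.hor [.f 689 3 5] []) .no (.red [.f 696 5 1, .t 697 1 4] 103 136 [2,
  2, 4] [(103, 136, [2, 2, 4])])) .no (.use 1130)) (.red [.f 937 1 3, .f 937 3 5, .f 817 5 1, .f
  818 1 3] 119 136 [2, 4] [(119, 136, [2, 4]), (134, 118, [1])]) .no (.br 698 .no (.use 1146) .no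
  (.br 697 .no (.br 705 .no (.use 1143) (.use 1145) .no .no (.use 1125)) (.red [.f 824 5 3, .f 697
  3 1, .t 697 1 4] 103 136 [2, 2, 4] [(103, 136, [2, 2, 4]), (104, 136, [2, 2])]) (.hor [.f 689 3
  5] []) .no (.red [.f 696 5 1, .t 697 1 4] 103 136 [2, 2, 4] [(103, 136, [2, 2, 4])])) .no (.use
  1130)) (.hor [.f 808 1 3, .f 808 3 1, .t 945 1 4, .f 1064 3 5] [(134, 119, [4, 1])]) .no

def c27t1148 : Tr4 :=
  .br 698 .no (.br 936 (.use 883) (.use 1134) .no (.use 830) (.use 863) .no) .no (.br 697 .no (.br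
  936 (.use 884) (.use 1134) .no (.use 830) (.use 867) .no) .no (.hor [.f 689 3 5] []) .no (.red
  [.f 696 5 3, .f 696 3 5, .f 696 5 1, .t 697 1 4] 103 136 [2, 2, 4] [(103, 136, [2, 2, 4])])) .no
  (.use 1131)

def c27t1149 : Tr4 :=
  .br 944 .no (.br 705 .no (.use 1133) .no (.use 616) .no (.use 1148)) .no (.use 293) .no .no

def c27t1150 : Tr4 :=
  .br 840 .no (.hor [.t 712 1 4, .f 705 1 5] [(105, 136, [2, 2, 3])]) (.hor [.f 840 3 5] []) .no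
  .no .no

def c27t1151 : Tr4 :=
  .br 697 .no (.use 1143) .no (.hor [.f 689 3 5] []) .no (.red [.f 696 5 1, .t 697 1 4] 103 136
  [2, 2, 4] [(103, 136, [2, 2, 4])])

def c27t1152 : Tr4 :=
  .br 1065 (.br 698 .no (.use 1142) .no (.br 697 .no (.br 705 .no (.use 1143) (.use 1150) .no .no
  (.use 1118)) (.red [.f 824 5 3, .f 697 3 1, .t 697 1 4] 103 136 [2, 2, 4] [(103, 136, [2, 2,
  4]), (104, 136, [2, 2])]) (.hor [.f 689 3 5] []) .no (.red [.f 696 5 1, .t 697 1 4] 103 136 [2,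
  2, 4] [(103, 136, [2, 2, 4])])) .no (.use 1130)) (.red [.f 937 1 3, .f 937 3 5, .f 817 5 1, .f
  818 1 3] 119 136 [2, 4] [(119, 136, [2, 4]), (134, 118, [1])]) .no (.br 698 .no (.use 1146) .no
  (.br 705 .no (.use 1151) (.use 1150) (.red [.f 824 5 3, .f 697 3 1, .t 697 1 4] 103 136 [2, 2,
  4] [(103, 136, [2, 2, 4]), (104, 136, [2, 2])]) .no (.use 1134)) .no (.use 1130)) (.hor [.f 808
  1 3, .f 808 3 1, .t 945 1 4, .f 1064 3 5] [(134, 119, [4, 1])]) .no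

def c27t1153 : Tr4 :=
  .br 936 .no (.br 944 .no (.br 841 .no (.use 873) (.use 1152) .no (.use 1147) (.use 902)) .no .no
  .no .no) (.hor [.f 936 3 1, .f 944 1 5] [(134, 118, [1])]) (.use 830) (.red [.t 1072 4 2, .f 937
  3 5, .f 817 5 1, .f 818 1 3] 119 136 [2, 4] [(119, 136, [2, 4]), (134, 118, [1])]) .no

def c27t1154 : Tr4 :=
  .br 833 .no (.hor [.f 705 1 5] []) (.use 1129) (.red [.f 825 3 1, .f 825 1 5, .t 1073 2 3, .f
  954 1 3, .t 961 2 4] 136 136 [] [(135, 136, [4]), (136, 136, [])]) .no (.br 824 .no (.use 841)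
  .no (.use 599) (.br 817 .no (.use 939) .no (.use 836) (.br 1098 (.br 1099 (.hor [.f 1098 1 5]
  []) .no (.br 1225 (.hor [.f 1224 1 5] []) .no (.br 1219 (.use 766) .no (.br 1072 (.use 1141)
  (.hor [.f 944 1 5] []) .no (.br 936 .no (.br 944 .no (.br 841 .no (.use 873) (.use 1135) .no
  (.use 1147) (.use 902)) .no .no .no .no) (.hor [.f 936 3 1, .f 944 1 5] [(134, 118, [1])]) (.use
  830) (.red [.t 1072 4 2, .f 937 3 5, .f 817 5 1, .f 818 1 3] 119 136 [2, 4] [(119, 136, [2, 4]),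
  (134, 118, [1])]) .no) .no .no) (.hor [.f 1210 3 5] []) .no .no) .no .no .no) .no .no .no) .no
  (.use 397) .no (.br 1225 (.hor [.f 1224 1 5] []) .no (.use 226) .no (.br 1211 (.use 811) .no
  (.hor [.f 1210 3 5] []) (.br 1072 (.br 841 .no (.use 886) (.br 840 .no (.br 842 .no (.br 713 .no
  (.use 1149) (.hor [.f 706 1 3, .f 713 3 1, .f 712 1 5] [(105, 103, [3, 3]), (106, 136, [2, 2, 3,
  3])]) (.hor [.t 712 1 4, .f 705 1 5] [(105, 103, [3, 3])]) .no .no) (.hor [.f 841 3 5] []) .no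
  (.br 713 .no (.use 1149) (.hor [.f 713 3 1, .f 712 1 5] [(106, 136, [2, 2, 3, 3])]) (.hor [.t
  712 1 4, .f 705 1 5] [(105, 103, [3, 3])]) (.br 944 .no (.br 705 .no (.use 1133) .no (.use 616)
  .no (.use 1148)) .no (.use 293) .no .no) .no) .no) (.hor [.f 840 3 5] []) .no .no .no) .no (.use
  1140) (.use 904)) (.hor [.f 944 1 5] []) .no (.use 1153) .no .no) .no .no) .no) .no) (.use
  1033)) .no)

def c27t1155 : Tr4 :=
  .br 841 .no (.red [.f 705 1 3] 105 136 [2, 2, 3] [(105, 136, [2, 2, 3])]) (.hor [.f 841 3 1, .f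
  832 3 1, .f 840 1 5] [(121, 105, [1]), (122, 105, [1, 3])]) .no .no .no

def c27t1156 : Tr4 :=
  .br 937 (.red [.f 937 1 3, .f 937 3 5, .f 817 5 1, .f 818 1 3] 119 136 [2, 4] [(119, 136, [2,
  4]), (134, 118, [1])]) (.hor [.f 808 1 5] []) .no (.use 613) .no .no

def c27t1157 : Tr4 :=
  .br 936 (.use 881) (.use 1156) .no (.use 830) (.use 615) .no

def c27t1158 : Tr4 :=
  .br 706 .no (.use 650) (.hor [.f 706 3 1, .f 713 1 5] [(105, 136, [2, 2, 3])]) (.hor [.f 697 3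
  5] []) (.br 696 .no (.hor [.f 568 1 3, .f 696 3 5] [(88, 103, [3, 2])]) .no (.br 698 .no (.use
  1157) .no (.red [.f 824 5 3, .f 697 3 1, .t 697 1 4] 103 136 [2, 2, 4] [(103, 136, [2, 2, 4]),
  (104, 136, [2, 2])]) .no .no) .no .no) .no

def c27t1159 : Tr4 :=
  .br 811 (.con 136 [2, 2, 4, 4, 1, 3]) (.con 136 [2, 2, 4, 4, 1, 4]) (.use 87) (.con 136 [2, 2,
  4, 4, 1, 4]) .no (.con 136 [2, 2, 4, 4, 1, 4])

def c27t1160 : Tr4 :=
  .br 690 .no (.use 820) .no (.use 842) (.use 1159) (.red [.f 696 5 1, .f 689 5 1, .f 689 1 3] 103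
  136 [2, 2, 4] [(103, 136, [2, 2, 4])])

def c27t1161 : Tr4 :=
  .br 937 (.red [.f 937 1 3, .f 937 3 5, .f 817 5 1, .f 818 1 3] 119 136 [2, 4] [(119, 136, [2,
  4]), (134, 118, [1])]) (.red [.t 937 2 3, .f 818 1 3] 119 136 [2, 4] [(118, 136, [2, 4, 4]),
  (119, 136, [2, 4])]) .no (.br 936 (.br 691 (.red [.f 691 1 3] 103 136 [2, 2, 4] [(103, 136, [2,
  2, 4])]) (.br 690 .no (.use 820) (.br 697 .no (.br 696 .no (.hor [.f 568 1 5] []) .no (.br 570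
  .no (.use 1034) (.br 707 .no (.use 1035) (.use 1061) .no .no .no) (.hor [.f 562 3 1, .f 562 1 5]
  [(87, 103, [2])]) (.hor [.t 690 3 2, .f 569 1 5] [(87, 103, [2])]) .no) .no .no) .no (.hor [.f
  689 3 5] []) .no (.red [.f 696 5 1, .t 697 1 4] 103 136 [2, 2, 4] [(103, 136, [2, 2, 4])]))
  (.use 990) .no (.use 945)) .no (.use 963) .no (.use 843)) (.br 698 .no (.br 697 .no (.hor [.f
  569 1 5] []) .no (.use 948) .no (.use 1160)) .no (.br 697 .no (.use 1013) .no (.hor [.f 689 3 5]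
  []) .no (.red [.f 696 5 1, .t 697 1 4] 103 136 [2, 2, 4] [(103, 136, [2, 2, 4])])) .no (.use
  947)) .no (.use 830) .no .no) .no (.br 698 .no (.br 697 .no (.hor [.f 569 1 5] []) .no (.use
  948) .no (.use 896)) .no (.br 697 .no (.use 1079) .no (.hor [.f 689 3 5] []) .no (.red [.f 696 5
  1, .t 697 1 4] 103 136 [2, 2, 4] [(103, 136, [2, 2, 4])])) .no (.br 819 .no (.red [.f 697 5 3,
  .f 691 1 3] 103 136 [2, 2, 4] [(103, 136, [2, 2, 4])]) .no (.br 690 .no (.use 51) .no (.use 146)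
  (.use 101) (.br 691 .no (.use 945) .no (.red [.f 689 5 3, .f 683 3 1] 102 136 [2, 2, 4, 4]
  [(102, 136, [2, 2, 4, 4])]) .no .no)) .no .no))

def c27t1162 : Tr4 :=
  .br 698 .no (.con 136 [2, 2, 2, 4]) .no (.hor [.f 689 3 5] []) .no .no

def c27t1163 : Tr4 :=
  .br 691 .no (.br 568 .no (.hor [.f 440 1 5] []) (.red [.f 568 3 1, .f 576 1 5] 88 136 [2, 2, 2]
  [(88, 136, [2, 2, 2])]) (.con 136 [2, 2, 2, 4, 2]) .no .no) .no (.use 963) .no .no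

def c27t1164 : Tr4 :=
  .br 691 (.red [.f 691 1 3] 103 136 [2, 2, 4] [(103, 136, [2, 2, 4])]) (.use 990) .no (.use 963)
  .no .no

def c27t1165 : Tr4 :=
  .br 937 (.red [.f 937 1 3, .f 937 3 5, .f 817 5 1, .f 818 1 3] 119 136 [2, 4] [(119, 136, [2,
  4]), (134, 118, [1])]) (.red [.t 937 2 3, .f 818 1 3] 119 136 [2, 4] [(118, 136, [2, 4, 4]),
  (119, 136, [2, 4])]) .no (.br 936 (.use 1164) (.use 1126) .no (.use 830) .no .no) .no (.use 971)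

def c27l37 : List Tr4 :=
  [c27t1141, c27t1142, c27t1143, c27t1144, c27t1145, c27t1146, c27t1147, c27t1148, c27t1149,
  c27t1150, c27t1151, c27t1152, c27t1153, c27t1154, c27t1155, c27t1156, c27t1157, c27t1158,
  c27t1159, c27t1160, c27t1161, c27t1162, c27t1163, c27t1164, c27t1165]

theorem c27k37 : chkLF ⟨4, 1, 0, true, -8⟩ false 7 c27N 1141 c27l37 = true := by decide +kernel

def c27t1166 : Tr4 :=
  .br 811 (.con 136 [2, 2, 4, 4, 1, 3]) (.con 136 [2, 2, 4, 4, 1, 4]) (.use 87) (.con 136 [2, 2,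
  4, 4, 1, 4]) .no (.con 136 [2, 2, 4, 4, 1, 4])

def c27t1167 : Tr4 :=
  .br 937 (.red [.f 937 1 3, .f 937 3 5, .f 817 5 1, .f 818 1 3] 119 136 [2, 4] [(119, 136, [2,
  4]), (134, 118, [1])]) (.red [.t 937 2 3, .f 818 1 3] 119 136 [2, 4] [(118, 136, [2, 4, 4]),
  (119, 136, [2, 4])]) .no (.br 936 (.use 843) (.use 1166) .no (.use 830) .no .no) .no (.use 858)

def c27t1168 : Tr4 :=
  .br 569 .no (.br 819 .no (.red [.f 691 1 3] 103 136 [2, 2, 4] [(103, 136, [2, 2, 4])]) .no (.br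
  937 (.red [.f 937 1 3, .f 937 3 5, .f 817 5 1, .f 818 1 3] 119 136 [2, 4] [(119, 136, [2, 4]),
  (134, 118, [1])]) (.red [.t 937 2 3, .f 818 1 3] 119 136 [2, 4] [(118, 136, [2, 4, 4]), (119,
  136, [2, 4])]) .no (.br 936 (.br 690 .no (.use 51) .no (.use 137) (.use 79) (.use 1163)) (.br
  690 .no (.use 51) .no (.use 93) (.use 87) (.use 1163)) .no (.use 830) .no .no) .no (.br 690 .no
  (.use 51) .no (.use 146) (.use 101) (.use 1163))) .no .no) .no (.br 690 .no (.use 820) .no (.use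
  1165) (.use 1167) (.red [.f 689 5 3, .f 561 3 1, .f 569 1 3] 88 136 [2, 2, 2] [(87, 136, [2, 2,
  2, 4]), (88, 136, [2, 2, 2])])) (.red [.f 569 5 1, .f 569 1 3] 88 136 [2, 2, 2] [(88, 136, [2,
  2, 2])]) (.red [.t 704 4 2] 88 136 [2, 2, 2] [(88, 136, [2, 2, 2])])

def c27t1169 : Tr4 :=
  .br 697 .no (.red [.f 569 1 3] 88 136 [2, 2, 2] [(88, 136, [2, 2, 2])]) .no (.use 1162) (.use
  1168) .no

def c27t1170 : Tr4 :=
  .br 706 .no (.hor [.f 577 1 5] []) (.hor [.f 706 3 1, .f 713 1 5] [(105, 136, [2, 2, 3])]) (.con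
  136 [2, 2, 2]) (.use 1169) .no

def c27t1171 : Tr4 :=
  .br 576 .no (.hor [.f 448 1 5] []) (.br 578 .no (.hor [.f 449 1 5] []) (.con 136 [2, 2, 2, 2,
  3]) (.red [.t 569 1 3, .f 696 3 5] 88 136 [2, 2, 2] [(88, 136, [2, 2, 2])]) (.con 136 [2, 2, 2,
  2, 3]) .no) (.red [.f 568 3 1, .f 568 1 5] 88 136 [2, 2, 2] [(88, 136, [2, 2, 2])]) .no .no

def c27t1172 : Tr4 :=
  .br 577 .no (.use 1171) (.red [.t 841 2 4, .f 577 3 1, .f 569 1 3] 88 136 [2, 2, 2] [(88, 136,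
  [2, 2, 2]), (89, 136, [2, 2, 2, 3]), (105, 136, [2, 2, 3])]) .no (.red [.f 577 5 1, .f 569 1 3]
  88 136 [2, 2, 2] [(88, 136, [2, 2, 2])]) (.red [.t 696 3 2] 88 136 [2, 2, 2] [(88, 136, [2, 2,
  2])])

def c27t1173 : Tr4 :=
  .br 697 .no (.use 1172) .no (.hor [.f 689 3 5] []) .no .no

def c27t1174 : Tr4 :=
  .br 691 (.red [.f 691 1 3] 103 136 [2, 2, 4] [(103, 136, [2, 2, 4])]) (.br 690 .no (.use 820)
  (.br 697 .no (.use 867) .no (.hor [.f 689 3 5] []) .no (.red [.f 696 5 3, .f 696 3 5, .f 696 5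
  1, .t 697 1 4] 103 136 [2, 2, 4] [(103, 136, [2, 2, 4])])) (.use 971) .no (.use 652)) .no (.use
  963) .no (.use 858)

def c27t1175 : Tr4 :=
  .br 937 (.red [.f 937 1 3, .f 937 3 5, .f 817 5 1, .f 818 1 3] 119 136 [2, 4] [(119, 136, [2,
  4]), (134, 118, [1])]) (.red [.t 937 2 3, .f 818 1 3] 119 136 [2, 4] [(118, 136, [2, 4, 4]),
  (119, 136, [2, 4])]) .no (.br 936 (.br 691 (.red [.f 691 1 3] 103 136 [2, 2, 4] [(103, 136, [2,
  2, 4])]) (.br 690 .no (.use 820) (.br 697 .no (.br 696 .no (.hor [.f 568 1 5] []) .no (.br 570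
  .no (.use 1034) .no (.hor [.f 562 3 1, .f 562 1 5] [(87, 103, [2])]) (.hor [.t 690 3 2, .f 569 1
  5] [(87, 103, [2])]) .no) .no .no) .no (.hor [.f 689 3 5] []) .no (.red [.f 696 5 3, .f 696 3 5,
  .f 696 5 1, .t 697 1 4] 103 136 [2, 2, 4] [(103, 136, [2, 2, 4])])) (.use 990) .no (.use 652))
  .no (.use 963) .no (.use 843)) (.br 696 .no (.br 697 .no (.use 1011) .no (.br 698 .no (.con 136
  [2, 2, 2, 4]) .no (.hor [.f 689 3 5] []) .no .no) (.use 817) .no) .no (.use 1010) (.br 698 .no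
  (.use 1160) .no (.red [.f 696 5 3, .f 696 3 5, .f 696 5 1, .t 697 1 4] 103 136 [2, 2, 4] [(103,
  136, [2, 2, 4])]) .no .no) .no) .no (.use 830) .no .no) .no (.use 1174)

def c27t1176 : Tr4 :=
  .br 691 (.red [.f 689 5 1, .f 691 1 3] 103 136 [2, 2, 4] [(103, 136, [2, 2, 4])]) (.use 652) .no
  (.use 963) .no .no

def c27t1177 : Tr4 :=
  .br 811 (.con 136 [2, 2, 4, 4, 1, 3]) (.con 136 [2, 2, 4, 4, 1, 4]) (.use 87) (.con 136 [2, 2,
  4, 4, 1, 4]) .no (.con 136 [2, 2, 4, 4, 1, 4])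

def c27t1178 : Tr4 :=
  .br 937 (.red [.f 937 1 3, .f 937 3 5, .f 817 5 1, .f 818 1 3] 119 136 [2, 4] [(119, 136, [2,
  4]), (134, 118, [1])]) (.red [.t 937 2 3, .f 818 1 3] 119 136 [2, 4] [(118, 136, [2, 4, 4]),
  (119, 136, [2, 4])]) .no (.br 936 (.br 690 .no (.use 820) .no (.use 1164) (.use 843) (.use
  1176)) (.br 690 .no (.use 820) .no (.use 1126) (.use 1177) (.use 1176)) .no (.use 830) .no .no)
  .no (.use 1174)

def c27t1179 : Tr4 :=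
  .br 697 .no (.br 696 .no (.hor [.f 568 1 5] []) .no (.br 691 (.red [.f 691 1 3, .f 690 3 5] 103
  136 [2, 2, 4] [(103, 136, [2, 2, 4])]) (.br 570 .no (.use 1034) (.br 979 .no (.br 579 .no (.use
  979) (.br 714 .no (.hor [.t 586 1 4, .f 706 3 1, .f 713 1 5] [(89, 136, [2, 2, 2, 3]), (105,
  136, [2, 2, 3])]) (.br 850 .no .no (.hor [.f 850 3 1, .f 850 1 5] [(123, 138, [2, 3])]) .no .no
  (.hor [.t 713 1 3, .f 840 3 5] [(106, 105, [3])])) .no .no .no) (.hor [.f 570 3 5] []) .no .no)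
  (.hor [.f 978 3 5] []) .no .no .no) (.hor [.f 562 3 1, .f 562 1 5] [(87, 103, [2])]) (.hor [.t
  690 3 2, .f 569 1 5] [(87, 103, [2])]) .no) .no (.use 963) .no .no) .no .no) .no (.hor [.f 689 3
  5] []) .no (.red [.f 696 5 3, .f 696 3 5, .f 696 5 1, .t 697 1 4] 103 136 [2, 2, 4] [(103, 136,
  [2, 2, 4])])

def c27t1180 : Tr4 :=
  .br 698 .no (.use 1159) .no .no .no (.use 1166)

def c27t1181 : Tr4 :=
  .br 704 .no (.br 705 .no (.hor [.f 576 1 5] []) .no (.use 1158) (.use 1161) .no) (.hor [.t 712 4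
  1, .f 833 3 5] [(105, 136, [2, 2, 3])]) (.br 705 .no (.use 1170) .no (.hor [.f 696 3 5] []) (.br
  819 .no (.red [.f 691 1 3] 103 136 [2, 2, 4] [(103, 136, [2, 2, 4])]) .no (.br 698 .no (.br 697
  .no (.hor [.f 569 1 5] []) .no (.con 136 [2, 2, 2, 4]) .no .no) .no (.use 1173) .no (.br 690 .no
  (.use 51) .no (.use 1165) (.use 1167) (.br 691 .no (.br 568 .no (.br 569 .no (.hor [.f 440 1 5]
  []) (.use 1113) (.red [.f 689 5 3, .f 561 3 1] 87 136 [2, 2, 2, 4] [(87, 136, [2, 2, 2, 4])])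
  (.br 576 .no (.red [.f 440 1 3] 72 136 [2, 2, 2, 2] [(72, 136, [2, 2, 2, 2])]) (.br 577 .no (.br
  979 .no (.br 810 .no (.red [.f 697 5 3, .f 689 5 1, .f 682 1 3] 102 136 [2, 2, 4, 4] [(102, 136,
  [2, 2, 4, 4])]) .no (.br 707 .no (.br 578 .no (.hor [.f 449 1 5] []) (.con 136 [2, 2, 2, 2, 3])
  .no .no .no) (.con 136 [2, 2, 3, 3, 1, 4, 2, 2]) .no .no .no) .no (.red [.f 809 5 3, .f 810 3 5,
  .t 954 2 4] 119 136 [2, 4] [(119, 136, [2, 4])])) (.hor [.f 978 3 5] []) .no .no .no) (.hor [.f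
  576 3 5] []) .no (.red [.f 697 5 3, .f 569 5 3, .f 570 3 1] 88 136 [2, 2, 2] [(88, 136, [2, 2,
  2])]) .no) .no (.red [.f 569 5 1, .t 696 3 2] 88 136 [2, 2, 2] [(88, 136, [2, 2, 2])]) .no) .no)
  (.red [.f 568 3 1] 88 136 [2, 2, 2] [(88, 136, [2, 2, 2])]) (.con 136 [2, 2, 2, 4, 4]) (.use
  237) .no) .no (.use 963) .no .no))) .no .no) .no) (.br 843 .no (.br 706 .no (.use 1175) (.hor
  [.f 704 5 1, .f 704 1 5, .f 706 3 1, .f 714 1 5] [(105, 136, [2, 2, 3])]) (.use 1178) (.br 937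
  (.red [.f 937 1 3, .f 937 3 5, .f 817 5 1, .f 818 1 3] 119 136 [2, 4] [(119, 136, [2, 4]), (134,
  118, [1])]) (.red [.t 937 2 3, .f 818 1 3] 119 136 [2, 4] [(118, 136, [2, 4, 4]), (119, 136, [2,
  4])]) .no (.br 936 (.br 690 .no (.use 820) (.use 1179) (.use 1164) (.use 843) (.use 1176)) (.br
  690 .no (.use 820) (.use 1179) (.use 1126) (.use 1180) (.use 1176)) .no (.use 830) .no .no) .no
  (.use 1174)) .no) (.use 208) .no .no .no) .no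

def c27t1182 : Tr4 :=
  .br 705 .no (.hor [.f 576 1 5] []) .no (.br 840 .no (.hor [.f 712 1 5] []) (.use 1158) .no .no
  .no) (.use 1161) .no

def c27t1183 : Tr4 :=
  .br 698 .no (.con 136 [2, 2, 2, 4]) .no (.use 1173) .no .no

def c27t1184 : Tr4 :=
  .br 1105 .no .no (.hor [.f 1105 3 5] []) .no .no .no

def c27t1185 : Tr4 :=
  .br 691 .no (.br 568 .no (.br 569 .no (.hor [.f 440 1 5] []) (.use 1113) (.red [.f 689 5 3, .f
  561 3 1] 87 136 [2, 2, 2, 4] [(87, 136, [2, 2, 2, 4])]) (.br 576 .no (.red [.f 440 1 3] 72 136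
  [2, 2, 2, 2] [(72, 136, [2, 2, 2, 2])]) (.br 577 .no (.br 578 .no (.hor [.f 449 1 5] []) (.con
  136 [2, 2, 2, 2, 3]) .no (.con 136 [2, 2, 2, 2, 3]) .no) (.hor [.f 576 3 5] []) .no (.red [.f
  697 5 3, .f 569 5 3, .f 570 3 1] 88 136 [2, 2, 2] [(88, 136, [2, 2, 2])]) .no) .no (.red [.f 569
  5 1, .t 696 3 2] 88 136 [2, 2, 2] [(88, 136, [2, 2, 2])]) .no) .no) (.red [.f 568 3 1] 88 136
  [2, 2, 2] [(88, 136, [2, 2, 2])]) (.con 136 [2, 2, 2, 4, 4]) (.use 237) .no) .no (.use 963) .no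
  .no

def c27t1186 : Tr4 :=
  .br 819 .no (.red [.f 689 5 3, .f 691 1 3] 103 136 [2, 2, 4] [(103, 136, [2, 2, 4])]) .no (.use
  1185) .no .no

def c27t1187 : Tr4 :=
  .br 690 .no (.use 820) .no (.use 1165) (.use 1167) (.use 1186)

def c27t1188 : Tr4 :=
  .br 705 .no (.use 1170) .no (.hor [.f 696 3 5] []) (.br 697 .no (.use 1172) .no (.use 1183)
  (.use 1187) .no) .no

def c27t1189 : Tr4 :=
  .br 689 .no (.hor [.f 561 1 3, .f 688 3 5] [(87, 86, [3])]) .no (.br 811 (.con 136 [2, 2, 4, 4,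
  1, 3]) (.con 136 [2, 2, 4, 4, 1, 3]) (.br 928 (.hor [.f 928 1 3, .f 928 3 5] [(133, 118, [1,
  4])]) (.red [.t 928 2 3, .t 937 2 3, .f 818 1 3] 119 136 [2, 4] [(117, 136, [2, 4, 4, 4]), (118,
  136, [2, 4, 4]), (119, 136, [2, 4])]) .no (.br 810 .no (.use 46) .no (.br 682 .no (.use 627) .no
  (.red [.f 674 3 1, .t 681 3 1] 102 136 [2, 2, 4, 4] [(101, 136, [2, 2, 4, 4, 4]), (102, 136, [2,
  2, 4, 4])]) (.br 561 .no (.use 151) .no (.br 562 .no (.use 162) .no (.hor [.f 553 3 5] []) .no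
  .no) (.hor [.t 697 2 4, .f 562 1 5] [(87, 103, [2])]) (.red [.t 696 4 2, .f 696 5 1, .t 697 1 4]
  103 136 [2, 2, 4] [(87, 103, [2]), (103, 136, [2, 2, 4])])) .no) .no .no) .no .no) (.con 136 [2,
  2, 4, 4, 1, 3]) .no (.con 136 [2, 2, 4, 4, 1, 3])) .no .no

def c27t1190 : Tr4 :=
  .br 570 .no (.use 1034) (.br 809 .no (.use 57) .no (.use 977) (.red [.f 809 5 3, .f 810 3 1, .f
  818 1 3] 119 136 [2, 4] [(118, 136, [2, 4, 4]), (119, 136, [2, 4])]) (.br 1208 (.br 1201 (.br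
  1066 (.con 136 [4, 4, 1, 1, 3, 2, 2, 2]) .no .no (.br 1067 (.con 136 [4, 4, 1, 3, 2, 2]) (.con
  136 [4, 4, 1, 3, 2, 2]) (.use 1189) (.con 136 [4, 4, 1, 3, 2, 2]) .no .no) (.con 136 [4, 4, 1,
  3, 2, 2]) .no) .no .no .no (.red [.t 1081 1 4, .t 961 4 1, .f 945 1 3] 136 136 [] [(135, 136,
  [4]), (136, 136, []), (151, 135, [1])]) .no) .no .no .no .no .no)) (.hor [.f 562 3 1, .f 562 1
  5] [(87, 103, [2])]) (.hor [.t 690 3 2, .f 569 1 5] [(87, 103, [2])]) .no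

def c27t1191 : Tr4 :=
  .br 690 .no (.use 820) (.br 697 .no (.use 1011) .no (.hor [.f 689 3 5] []) .no (.red [.f 696 5
  3, .f 696 3 5, .f 696 5 1, .t 697 1 4] 103 136 [2, 2, 4] [(103, 136, [2, 2, 4])])) (.use 1126)
  (.use 1180) (.use 1176)

def c27t1192 : Tr4 :=
  .br 570 .no (.use 1034) (.br 809 .no (.use 57) .no (.use 977) (.red [.f 809 5 3, .f 810 3 1, .f
  818 1 3] 119 136 [2, 4] [(118, 136, [2, 4, 4]), (119, 136, [2, 4])]) (.br 1067 (.con 136 [4, 4,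
  1, 3, 2, 2]) (.con 136 [4, 4, 1, 3, 2, 2]) (.use 1189) (.con 136 [4, 4, 1, 3, 2, 2]) .no (.con
  136 [4, 4, 1, 3, 2, 2]))) (.hor [.f 562 3 1, .f 562 1 5] [(87, 103, [2])]) (.hor [.t 690 3 2, .f
  569 1 5] [(87, 103, [2])]) .no

def c27t1193 : Tr4 :=
  .br 691 (.red [.f 691 1 3, .f 690 3 5] 103 136 [2, 2, 4] [(103, 136, [2, 2, 4])]) (.use 1192)
  .no (.use 963) .no .no

def c27l38 : List Tr4 :=
  [c27t1166, c27t1167, c27t1168, c27t1169, c27t1170, c27t1171, c27t1172, c27t1173, c27t1174,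
  c27t1175, c27t1176, c27t1177, c27t1178, c27t1179, c27t1180, c27t1181, c27t1182, c27t1183,
  c27t1184, c27t1185, c27t1186, c27t1187, c27t1188, c27t1189, c27t1190, c27t1191, c27t1192,
  c27t1193]

theorem c27k38 : chkLF ⟨4, 1, 0, true, -8⟩ false 7 c27N 1166 c27l38 = true := by decide +kernel

def c27t1194 : Tr4 :=
  .br 944 .no (.br 704 .no (.use 1182) (.hor [.t 712 4 1, .f 833 3 5] [(105, 136, [2, 2, 3])])
  (.use 1188) (.br 706 .no (.use 1175) (.hor [.f 706 3 1, .f 713 1 5] [(105, 136, [2, 2, 3])])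
  (.use 1178) (.br 937 (.red [.f 937 1 3, .f 937 3 5, .f 817 5 1, .f 818 1 3] 119 136 [2, 4]
  [(119, 136, [2, 4]), (134, 118, [1])]) (.red [.t 937 2 3, .f 818 1 3] 119 136 [2, 4] [(118, 136,
  [2, 4, 4]), (119, 136, [2, 4])]) .no (.br 936 (.br 690 .no (.use 820) (.br 697 .no (.br 696 .no
  (.hor [.f 568 1 5] []) .no (.use 1193) .no .no) .no (.hor [.f 689 3 5] []) .no (.red [.f 696 5
  3, .f 696 3 5, .f 696 5 1, .t 697 1 4] 103 136 [2, 2, 4] [(103, 136, [2, 2, 4])])) (.use 1164)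
  (.use 843) (.use 1176)) (.use 1191) .no (.use 830) .no .no) .no (.use 1174)) .no) .no) .no (.use
  293) .no .no

def c27t1195 : Tr4 :=
  .br 698 .no (.con 136 [2, 2, 2, 4]) .no (.hor [.f 689 3 5] []) .no .no

def c27t1196 : Tr4 :=
  .br 576 .no (.hor [.f 448 1 5] []) (.br 579 .no (.con 136 [2, 2, 2, 3, 2]) (.red [.t 842 4 2, .f
  579 3 1] 89 136 [2, 2, 2, 3] [(89, 136, [2, 2, 2, 3]), (105, 136, [2, 2, 3])]) (.con 136 [2, 2,
  2, 3, 2]) .no (.con 136 [2, 2, 2, 2, 3])) (.red [.f 568 3 1, .f 568 1 5] 88 136 [2, 2, 2] [(88,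
  136, [2, 2, 2])]) .no .no

def c27t1197 : Tr4 :=
  .br 1105 .no .no (.br 1232 (.red [.f 1224 1 3, .f 1096 3 1] 170 136 [3, 3, 1, 1] [(154, 136, [3,
  3, 1]), (170, 136, [3, 3, 1, 1])]) .no (.br 1114 (.red [.f 1106 1 3, .f 978 3 1] 155 136 [3, 3,
  3, 1] [(139, 136, [3, 3, 3]), (155, 136, [3, 3, 3, 1])]) .no (.br 1115 (.con 136 [3, 3, 3, 1,
  3]) (.br 1360 (.br 1235 (.con 136 [3, 3, 3, 1, 1]) .no (.red [.f 1098 1 3, .f 1098 3 5, .t 986 4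
  1, .f 1107 3 1] 155 136 [3, 3, 3, 1] [(139, 136, [3, 3, 3]), (154, 153, [3]), (155, 136, [3, 3,
  3, 1])]) .no .no .no) .no (.red [.f 1232 3 1, .f 1224 1 3, .f 1096 3 1] 171 136 [3, 3, 3, 1, 1]
  [(154, 136, [3, 3, 1]), (170, 136, [3, 3, 1, 1]), (171, 136, [3, 3, 3, 1, 1])]) .no (.red [.t
  1224 1 3, .t 1088 1 3, .f 1097 1 5] 170 136 [3, 3, 1, 1] [(153, 136, [3, 1]), (170, 136, [3, 3,
  1, 1])]) .no) (.hor [.f 1114 3 5] []) .no .no .no) .no (.br 1235 (.con 136 [3, 3, 3, 1, 1]) .no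
  (.red [.f 1098 1 3, .f 1098 3 1, .t 1234 2 3] 155 136 [3, 3, 3, 1] [(155, 136, [3, 3, 3, 1])])
  .no .no .no) .no) .no .no .no) .no .no .no

def c27t1198 : Tr4 :=
  .br 937 (.red [.f 937 1 3, .f 937 3 5, .f 817 5 1, .f 818 1 3] 119 136 [2, 4] [(119, 136, [2,
  4]), (134, 118, [1])]) (.red [.t 937 2 3, .f 818 1 3] 119 136 [2, 4] [(118, 136, [2, 4, 4]),
  (119, 136, [2, 4])]) .no (.br 936 (.use 843) (.use 1177) .no (.use 830) .no .no) .no (.use 858)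

def c27t1199 : Tr4 :=
  .br 690 .no (.use 820) .no (.use 842) (.use 1198) (.red [.f 696 5 1, .f 689 5 1, .f 689 1 3] 103
  136 [2, 2, 4] [(103, 136, [2, 2, 4])])

def c27t1200 : Tr4 :=
  .br 691 (.red [.f 689 5 1, .f 691 1 3] 103 136 [2, 2, 4] [(103, 136, [2, 2, 4])]) (.use 945) .no
  (.use 963) .no .no

def c27t1201 : Tr4 :=
  .br 691 (.red [.f 691 1 3, .f 690 3 5] 103 136 [2, 2, 4] [(103, 136, [2, 2, 4])]) (.br 576 .no
  (.br 578 .no (.br 568 .no (.red [.f 440 1 3] 72 136 [2, 2, 2, 2] [(72, 136, [2, 2, 2, 2])]) .no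
  (.br 570 .no (.red [.f 442 1 3] 72 136 [2, 2, 2, 2] [(72, 136, [2, 2, 2, 2])]) .no (.con 136 [2,
  2, 2, 4, 2]) (.br 689 .no (.con 136 [2, 2, 2, 4, 4]) .no (.use 1043) .no (.red [.t 568 4 1, .f
  689 3 5, .f 697 5 3, .t 706 4 2] 88 136 [2, 2, 2] [(87, 71, [1]), (88, 136, [2, 2, 2])])) .no)
  .no .no) (.hor [.f 577 3 5] []) (.red [.t 569 1 3, .f 578 1 5] 88 136 [2, 2, 2] [(88, 136, [2,
  2, 2])]) .no .no) (.hor [.f 576 3 5] []) (.red [.f 568 3 1, .f 568 1 5] 88 136 [2, 2, 2] [(88,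
  136, [2, 2, 2])]) .no .no) .no (.use 963) .no .no

def c27t1202 : Tr4 :=
  .br 706 .no (.hor [.f 578 1 5] []) (.hor [.f 832 5 3, .f 706 3 1, .f 714 1 5, .f 832 3 5] [(105,
  136, [2, 2, 3])]) (.br 705 .no (.br 704 .no (.hor [.f 576 1 5] []) (.br 697 .no (.red [.f 569 1
  3] 88 136 [2, 2, 2] [(88, 136, [2, 2, 2])]) .no (.use 658) .no (.use 1199)) (.con 136 [2, 2, 2])
  .no .no) (.br 704 .no (.br 690 .no (.use 820) .no (.use 1165) (.use 1198) (.use 1200)) (.hor [.f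
  704 3 5] []) (.con 136 [2, 2, 2]) .no .no) (.hor [.f 697 3 5] []) .no (.use 1178)) .no (.br 704
  .no (.use 1161) (.br 937 (.red [.f 937 1 3, .f 937 3 5, .f 817 5 1, .f 818 1 3] 119 136 [2, 4]
  [(119, 136, [2, 4]), (134, 118, [1])]) (.red [.t 937 2 3, .f 818 1 3] 119 136 [2, 4] [(118, 136,
  [2, 4, 4]), (119, 136, [2, 4])]) .no (.br 936 (.br 691 (.red [.f 691 1 3] 103 136 [2, 2, 4]
  [(103, 136, [2, 2, 4])]) (.br 690 .no (.use 820) (.br 697 .no (.use 1036) .no (.hor [.f 689 3 5]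
  []) .no (.red [.f 696 5 1, .t 697 1 4] 103 136 [2, 2, 4] [(103, 136, [2, 2, 4])])) (.use 990)
  .no (.use 1038)) .no (.use 963) .no (.use 843)) (.br 809 .no (.br 698 .no (.br 697 .no (.hor [.f
  569 1 5] []) .no (.use 123) .no (.use 1160)) .no (.use 1119) .no (.br 690 .no (.use 820) .no
  (.use 1126) (.use 1166) (.br 696 .no (.use 816) .no (.red [.f 689 5 1, .t 688 3 1] 103 136 [2,
  2, 4] [(103, 136, [2, 2, 4])]) .no .no))) .no (.hor [.f 808 1 3, .f 801 3 1, .f 808 3 1, .f 808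
  1 5] [(117, 136, [2, 4, 4, 4])]) (.red [.f 809 5 3, .f 810 3 1, .f 818 1 3] 119 136 [2, 4]
  [(118, 136, [2, 4, 4]), (119, 136, [2, 4])]) .no) .no (.use 830) .no .no) .no (.br 691 (.red [.f
  691 1 3] 103 136 [2, 2, 4] [(103, 136, [2, 2, 4])]) (.br 690 .no (.use 820) (.br 697 .no (.use
  864) .no (.hor [.f 689 3 5] []) .no (.red [.f 696 5 1, .t 697 1 4] 103 136 [2, 2, 4] [(103, 136,
  [2, 2, 4])])) (.use 971) .no (.use 1038)) .no (.use 963) .no (.use 858))) (.br 697 .no (.br 577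
  .no (.use 1171) (.br 698 .no (.hor [.f 569 1 5] []) .no (.use 1201) .no .no) .no (.red [.f 577 5
  1, .f 569 1 3] 88 136 [2, 2, 2] [(88, 136, [2, 2, 2])]) (.red [.t 696 3 2] 88 136 [2, 2, 2]
  [(88, 136, [2, 2, 2])])) .no (.use 1195) (.use 1187) .no) .no .no)

def c27t1203 : Tr4 :=
  .br 689 .no (.con 136 [2, 2, 2, 4, 4]) .no (.use 1043) .no (.br 810 .no (.red [.t 690 3 2, .t
  810 2 3, .f 691 1 3, .f 563 3 1] 103 136 [2, 2, 4] [(102, 136, [2, 2, 4, 4]), (103, 136, [2, 2,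
  4])]) .no (.br 809 .no (.use 709) .no (.hor [.f 801 3 5] []) .no (.br 928 (.hor [.f 928 1 3, .f
  928 3 5] [(133, 101, [1, 1])]) (.red [.t 928 2 3, .t 937 2 3, .f 818 1 3] 119 136 [2, 4] [(117,
  136, [2, 4, 4, 4]), (118, 136, [2, 4, 4]), (119, 136, [2, 4])]) .no (.br 682 .no (.br 800 .no
  (.use 1046) .no (.red [.f 792 3 1, .t 928 2 3, .t 937 2 3, .f 818 1 3] 119 136 [2, 4] [(116,
  136, [2, 4, 4, 4, 4]), (117, 136, [2, 4, 4, 4]), (118, 136, [2, 4, 4]), (119, 136, [2, 4])])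
  (.red [.f 800 5 3, .f 801 3 1, .t 937 2 3, .f 818 1 3] 119 136 [2, 4] [(117, 136, [2, 4, 4, 4]),
  (118, 136, [2, 4, 4]), (119, 136, [2, 4])]) .no) .no (.red [.f 674 3 1] 101 136 [2, 2, 4, 4, 4]
  [(101, 136, [2, 2, 4, 4, 4])]) (.red [.t 690 3 2, .f 682 5 3, .f 683 3 1, .f 691 1 3, .f 563 3
  1] 103 136 [2, 2, 4] [(102, 136, [2, 2, 4, 4]), (103, 136, [2, 2, 4])]) (.br 801 .no (.red [.t
  801 2 3] 101 136 [2, 2, 4, 4, 4] [(101, 136, [2, 2, 4, 4, 4])]) .no (.br 683 .no (.red [.f 555 1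
  3] 86 136 [2, 2, 2, 4, 4] [(86, 136, [2, 2, 2, 4, 4])]) .no (.br 800 .no (.con 136 [2, 2, 4, 4,
  4, 2]) .no (.hor [.f 792 3 5] []) .no .no) .no .no) .no (.red [.f 800 5 3, .f 801 3 1, .t 937 2
  3, .f 818 1 3] 119 136 [2, 4] [(117, 136, [2, 4, 4, 4]), (118, 136, [2, 4, 4]), (119, 136, [2,
  4])]))) .no .no)) .no (.red [.f 809 5 3, .f 810 3 5, .t 954 2 4] 119 136 [2, 4] [(119, 136, [2,
  4])]))

def c27t1204 : Tr4 :=
  .br 579 .no (.br 568 .no (.red [.f 440 1 3] 72 136 [2, 2, 2, 2] [(72, 136, [2, 2, 2, 2])]) .no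
  (.br 570 .no (.use 1044) .no (.con 136 [2, 2, 2, 4, 2]) (.use 1203) .no) .no .no) (.red [.t 842
  4 2, .f 579 3 1] 89 136 [2, 2, 2, 3] [(89, 136, [2, 2, 2, 3]), (105, 136, [2, 2, 3])]) (.con 136
  [2, 2, 2, 2]) .no .no

def c27t1205 : Tr4 :=
  .br 579 .no (.con 136 [2, 2, 2, 2, 3]) (.red [.t 842 4 2, .f 579 3 1] 89 136 [2, 2, 2, 3] [(89,
  136, [2, 2, 2, 3]), (105, 136, [2, 2, 3])]) (.con 136 [2, 2, 2, 2]) .no .no

def c27t1206 : Tr4 :=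
  .br 705 .no (.use 1169) (.br 577 .no (.use 1196) (.red [.f 577 3 1, .f 569 1 3] 89 136 [2, 2, 2,
  3] [(88, 136, [2, 2, 2]), (89, 136, [2, 2, 2, 3])]) .no (.br 1201 (.br 1208 (.br 811 (.con 136
  [2, 2, 4, 4, 1, 3]) (.con 136 [2, 2, 4, 4, 1, 3]) (.br 576 .no (.use 1204) (.use 1205) (.red [.f
  568 3 1, .f 568 1 5] 88 136 [2, 2, 2] [(88, 136, [2, 2, 2])]) .no .no) (.con 136 [2, 2, 4, 4, 1,
  3]) .no (.con 136 [2, 2, 4, 4, 1, 3])) .no .no .no .no .no) .no .no .no (.red [.t 1081 1 4, .t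
  961 4 1, .f 945 1 3] 136 136 [] [(135, 136, [4]), (136, 136, []), (151, 135, [1])]) .no) (.red
  [.t 696 3 2] 88 136 [2, 2, 2] [(88, 136, [2, 2, 2])])) .no .no .no

def c27t1207 : Tr4 :=
  .br 698 .no (.hor [.f 569 1 5] []) .no .no .no .no

def c27t1208 : Tr4 :=
  .br 569 .no (.hor [.f 440 1 5] []) (.use 1113) (.red [.f 689 5 3, .f 561 3 1] 87 136 [2, 2, 2,
  4] [(87, 136, [2, 2, 2, 4])]) (.br 576 .no (.red [.f 440 1 3] 72 136 [2, 2, 2, 2] [(72, 136, [2,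
  2, 2, 2])]) (.br 577 .no (.br 579 .no (.con 136 [2, 2, 2, 2, 3]) (.red [.t 842 4 2, .f 579 3 1]
  89 136 [2, 2, 2, 3] [(89, 136, [2, 2, 2, 3]), (105, 136, [2, 2, 3])]) (.con 136 [2, 2, 2, 2])
  .no (.con 136 [2, 2, 2, 2, 3])) (.red [.f 569 5 1, .f 577 3 1] 89 136 [2, 2, 2, 3] [(89, 136,
  [2, 2, 2, 3])]) .no (.use 1205) .no) .no (.red [.f 569 5 1, .t 696 3 2] 88 136 [2, 2, 2] [(88,
  136, [2, 2, 2])]) .no) .no

def c27t1209 : Tr4 :=
  .br 568 .no (.br 811 (.con 136 [2, 2, 4, 4, 1, 3]) (.con 136 [2, 2, 4, 4, 1, 3]) (.use 1208)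
  (.con 136 [2, 2, 4, 4, 1, 3]) .no (.con 136 [2, 2, 4, 4, 1, 3])) (.red [.f 568 3 1] 88 136 [2,
  2, 2] [(88, 136, [2, 2, 2])]) (.con 136 [2, 2, 2, 4, 4]) (.use 237) .no

def c27t1210 : Tr4 :=
  .br 696 .no (.use 651) (.br 705 .no (.use 1169) (.br 697 .no (.use 1207) .no .no (.use 1209)
  .no) (.hor [.f 696 3 5] []) .no .no) (.red [.f 689 5 1, .t 688 3 1] 103 136 [2, 2, 4] [(103,
  136, [2, 2, 4])]) (.red [.f 696 5 1, .f 689 5 1, .f 689 1 3] 103 136 [2, 2, 4] [(103, 136, [2,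
  2, 4])]) .no

def c27t1211 : Tr4 :=
  .br 682 (.red [.t 690 3 2, .t 810 2 3, .f 691 1 3, .f 563 3 1] 103 136 [2, 2, 4] [(102, 136, [2,
  2, 4, 4]), (103, 136, [2, 2, 4])]) (.con 136 [2, 2, 4, 4, 4]) .no (.con 136 [2, 2, 4, 4, 4])
  (.con 136 [2, 2, 4, 4, 4]) .no

def c27t1212 : Tr4 :=
  .br 811 (.con 136 [2, 2, 4, 4, 1, 1, 3, 2]) (.con 136 [2, 2, 4, 4, 4]) (.use 1211) (.con 136 [2,
  2, 4, 4, 1, 4]) .no (.con 136 [2, 2, 4, 4, 4])

def c27t1213 : Tr4 :=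
  .br 809 .no (.br 691 (.red [.f 691 1 3] 103 136 [2, 2, 4] [(103, 136, [2, 2, 4])]) (.br 690 .no
  (.use 820) (.br 697 .no (.br 704 .no (.use 1013) (.use 58) (.br 705 .no (.use 1169) (.br 577 .no
  (.use 1196) (.red [.f 577 3 1, .f 569 1 3] 89 136 [2, 2, 2, 3] [(88, 136, [2, 2, 2]), (89, 136,
  [2, 2, 2, 3])]) .no (.br 714 .no (.red [.t 713 4 2, .f 569 1 3, .f 696 3 5] 89 136 [2, 2, 2, 3]
  [(88, 136, [2, 2, 2]), (89, 136, [2, 2, 2, 3])]) (.br 576 .no (.br 568 .no (.red [.f 440 1 3] 72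
  136 [2, 2, 2, 2] [(72, 136, [2, 2, 2, 2])]) .no (.br 579 .no (.br 570 .no (.use 1044) .no (.con
  136 [2, 2, 2, 4, 2]) (.use 1212) .no) (.red [.t 842 4 2, .f 579 3 1] 89 136 [2, 2, 2, 3] [(89,
  136, [2, 2, 2, 3]), (105, 136, [2, 2, 3])]) (.con 136 [2, 2, 2, 2]) .no .no) .no .no) (.use
  1205) (.red [.f 568 3 1, .f 568 1 5] 88 136 [2, 2, 2] [(88, 136, [2, 2, 2])]) .no .no) .no .no
  .no) (.red [.t 696 3 2] 88 136 [2, 2, 2] [(88, 136, [2, 2, 2])])) .no .no .no) (.use 154) .no)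
  (.red [.f 824 5 3, .f 697 3 1, .t 697 1 4] 103 136 [2, 2, 4] [(103, 136, [2, 2, 4]), (104, 136,
  [2, 2])]) (.hor [.f 689 3 5] []) .no (.red [.f 696 5 1, .t 697 1 4] 103 136 [2, 2, 4] [(103,
  136, [2, 2, 4])])) (.con 136 [2, 2, 4, 4, 2]) .no (.br 696 .no (.use 651) (.br 705 .no (.use
  1169) (.br 697 .no (.use 1207) .no .no (.br 811 (.con 136 [2, 2, 4, 4, 1, 3]) (.con 136 [2, 2,
  4, 4, 4]) (.use 1114) (.con 136 [2, 2, 4, 4, 1, 4]) .no (.con 136 [2, 2, 4, 4, 4])) .no) (.hor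
  [.f 696 3 5] []) .no .no) (.red [.f 689 5 1, .t 688 3 1] 103 136 [2, 2, 4] [(103, 136, [2, 2,
  4])]) (.red [.f 696 5 1, .f 689 5 1, .f 689 1 3] 103 136 [2, 2, 4] [(103, 136, [2, 2, 4])])
  .no)) .no (.use 963) .no (.use 1180)) .no (.hor [.f 808 1 3, .f 801 3 1, .f 808 3 1, .f 808 1 5]
  [(117, 136, [2, 4, 4, 4])]) (.red [.f 809 5 3, .f 810 3 1, .f 818 1 3] 119 136 [2, 4] [(118,
  136, [2, 4, 4]), (119, 136, [2, 4])]) .no

def c27t1214 : Tr4 :=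
  .br 811 (.con 136 [2, 2, 4, 4, 1, 3]) (.con 136 [2, 2, 4, 4, 1, 3]) (.br 809 .no (.use 1080) .no
  (.br 810 .no (.red [.t 690 3 2, .t 810 2 3, .f 691 1 3, .f 563 3 1] 103 136 [2, 2, 4] [(102,
  136, [2, 2, 4, 4]), (103, 136, [2, 2, 4])]) .no (.hor [.f 801 3 5] []) .no .no) (.red [.f 809 5
  3, .f 810 3 5, .t 954 2 4] 119 136 [2, 4] [(119, 136, [2, 4])]) (.red [.f 808 5 1, .t 937 2 3,
  .f 818 1 3] 119 136 [2, 4] [(118, 136, [2, 4, 4]), (119, 136, [2, 4])])) (.con 136 [2, 2, 4, 4,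
  1, 3]) .no (.con 136 [2, 2, 4, 4, 1, 3])

def c27l39 : List Tr4 :=
  [c27t1194, c27t1195, c27t1196, c27t1197, c27t1198, c27t1199, c27t1200, c27t1201, c27t1202,
  c27t1203, c27t1204, c27t1205, c27t1206, c27t1207, c27t1208, c27t1209, c27t1210, c27t1211,
  c27t1212, c27t1213, c27t1214]

theorem c27k39 : chkLF ⟨4, 1, 0, true, -8⟩ false 7 c27N 1194 c27l39 = true := by decide +kernel

def c27t1215 : Tr4 :=
  .br 691 (.red [.f 691 1 3] 103 136 [2, 2, 4] [(103, 136, [2, 2, 4])]) (.br 690 .no (.use 820)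
  (.br 697 .no (.br 704 .no (.use 1079) (.use 864) (.br 705 .no (.use 1169) (.br 577 .no (.use
  1196) (.red [.f 577 3 1, .f 569 1 3] 89 136 [2, 2, 2, 3] [(88, 136, [2, 2, 2]), (89, 136, [2, 2,
  2, 3])]) .no (.br 714 .no (.red [.t 713 4 2, .f 569 1 3, .f 696 3 5] 89 136 [2, 2, 2, 3] [(88,
  136, [2, 2, 2]), (89, 136, [2, 2, 2, 3])]) (.br 576 .no (.br 579 .no (.br 568 .no (.red [.f 440
  1 3] 72 136 [2, 2, 2, 2] [(72, 136, [2, 2, 2, 2])]) .no (.br 570 .no (.use 1044) .no (.con 136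
  [2, 2, 2, 4, 2]) (.use 1214) .no) .no .no) (.red [.t 842 4 2, .f 579 3 1] 89 136 [2, 2, 2, 3]
  [(89, 136, [2, 2, 2, 3]), (105, 136, [2, 2, 3])]) (.con 136 [2, 2, 2, 2]) .no .no) (.use 1205)
  (.red [.f 568 3 1, .f 568 1 5] 88 136 [2, 2, 2] [(88, 136, [2, 2, 2])]) .no .no) .no .no .no)
  (.red [.t 696 3 2] 88 136 [2, 2, 2] [(88, 136, [2, 2, 2])])) .no .no .no) (.use 867) .no) (.red
  [.f 824 5 3, .f 697 3 1, .t 697 1 4] 103 136 [2, 2, 4] [(103, 136, [2, 2, 4]), (104, 136, [2,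
  2])]) (.hor [.f 689 3 5] []) .no (.red [.f 696 5 1, .t 697 1 4] 103 136 [2, 2, 4] [(103, 136,
  [2, 2, 4])])) (.use 971) .no (.br 696 .no (.use 651) (.br 705 .no (.use 1169) (.br 697 .no (.use
  1207) .no .no (.br 568 .no (.br 811 (.con 136 [2, 2, 4, 4, 1, 3]) (.con 136 [2, 2, 4, 4, 1, 3])
  (.use 1208) (.con 136 [2, 2, 4, 4, 1, 3]) .no (.con 136 [2, 2, 4, 4, 1, 3])) (.red [.f 568 3 1]
  88 136 [2, 2, 2] [(88, 136, [2, 2, 2])]) (.con 136 [2, 2, 2, 4, 4]) (.use 237) .no) .no) (.hor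
  [.f 696 3 5] []) .no .no) (.red [.f 689 5 1, .t 688 3 1] 103 136 [2, 2, 4] [(103, 136, [2, 2,
  4])]) (.red [.f 696 5 1, .f 689 5 1, .f 689 1 3] 103 136 [2, 2, 4] [(103, 136, [2, 2, 4])])
  .no)) .no (.use 963) .no (.use 858)

def c27t1216 : Tr4 :=
  .br 707 .no (.use 1202) .no .no .no (.br 1337 (.br 937 (.red [.f 937 1 3, .f 937 3 5, .f 817 5
  1, .f 818 1 3] 119 136 [2, 4] [(119, 136, [2, 4]), (134, 118, [1])]) (.red [.t 937 2 3, .f 818 1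
  3] 119 136 [2, 4] [(118, 136, [2, 4, 4]), (119, 136, [2, 4])]) .no (.br 936 (.br 1065 (.br 691
  (.red [.f 691 1 3] 103 136 [2, 2, 4] [(103, 136, [2, 2, 4])]) (.br 690 .no (.use 820) (.br 697
  .no (.br 696 .no (.hor [.f 568 1 5] []) (.use 1206) (.use 1190) .no .no) (.red [.f 824 5 3, .f
  697 3 1, .t 697 1 4] 103 136 [2, 2, 4] [(103, 136, [2, 2, 4]), (104, 136, [2, 2])]) (.hor [.f
  689 3 5] []) .no (.red [.f 696 5 1, .t 697 1 4] 103 136 [2, 2, 4] [(103, 136, [2, 2, 4])]))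
  (.use 990) .no (.use 1210)) .no (.use 963) .no (.use 843)) .no .no (.use 1088) (.red [.t 945 1
  4, .f 817 5 1, .f 818 1 3] 119 136 [2, 4] [(119, 136, [2, 4]), (134, 118, [1])]) .no) (.use
  1213) .no (.use 830) .no .no) .no (.use 1215)) .no .no (.hor [.f 1329 3 5] []) .no (.con 136 [1,
  1, 4, 2, 2, 2]))

def c27t1217 : Tr4 :=
  .br 691 (.red [.f 691 1 3] 103 136 [2, 2, 4] [(103, 136, [2, 2, 4])]) (.br 690 .no (.use 820)
  (.br 697 .no (.br 696 .no (.hor [.f 568 1 5] []) (.use 1206) (.use 1192) .no .no) (.red [.f 824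
  5 3, .f 697 3 1, .t 697 1 4] 103 136 [2, 2, 4] [(103, 136, [2, 2, 4]), (104, 136, [2, 2])])
  (.hor [.f 689 3 5] []) .no (.red [.f 696 5 1, .t 697 1 4] 103 136 [2, 2, 4] [(103, 136, [2, 2,
  4])])) (.use 990) .no (.use 1210)) .no (.use 963) .no (.use 843)

def c27t1218 : Tr4 :=
  .br 707 .no (.use 1202) .no .no .no (.br 937 (.red [.f 937 1 3, .f 937 3 5, .f 817 5 1, .f 818 1
  3] 119 136 [2, 4] [(119, 136, [2, 4]), (134, 118, [1])]) (.red [.t 937 2 3, .f 818 1 3] 119 136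
  [2, 4] [(118, 136, [2, 4, 4]), (119, 136, [2, 4])]) .no (.br 936 (.br 1065 (.br 1337 (.use 1217)
  .no .no (.use 637) (.red [.t 1217 1 4, .t 1097 4 1, .f 1081 1 3] 153 136 [3, 1] [(152, 136,
  [1]), (153, 136, [3, 1]), (168, 152, [1])]) (.con 136 [1, 1, 4, 2, 2, 2])) .no .no (.use 1088)
  (.red [.t 945 1 4, .f 817 5 1, .f 818 1 3] 119 136 [2, 4] [(119, 136, [2, 4]), (134, 118, [1])])
  .no) (.use 1213) .no (.use 830) .no .no) .no (.use 1215))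

def c27t1219 : Tr4 :=
  .br 843 .no (.br 944 .no (.use 1218) .no (.use 293) .no .no) (.hor [.t 834 3 1, .t 842 1 3, .f
  969 3 5] [(121, 119, [3, 3]), (122, 119, [3, 3, 3])]) .no .no .no

def c27t1220 : Tr4 :=
  .br 1106 (.br 1346 (.br 1338 (.red [.f 1338 1 3, .f 1210 3 1, .f 1217 1 5, .t 1097 4 1, .f 1081
  1 3] 153 136 [3, 1] [(152, 136, [1]), (153, 136, [3, 1]), (168, 152, [1]), (184, 136, [1, 1,
  1])]) .no .no (.br 1211 (.use 981) .no .no (.br 1347 (.hor [.f 1346 1 5] []) .no (.br 1353 (.use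
  621) .no (.red [.f 1225 3 1, .f 1217 1 3] 170 136 [3, 3, 1, 1] [(169, 136, [3, 1, 1]), (170,
  136, [3, 3, 1, 1])]) .no (.use 695) .no) (.br 944 .no (.br 978 .no (.hor [.t 834 3 1, .f 842 1
  3, .f 969 3 5] [(121, 119, [3, 3]), (122, 119, [3, 3, 3])]) (.use 1197) .no (.br 843 .no (.use
  1216) (.hor [.t 834 3 1, .t 842 1 3, .f 969 3 5] [(121, 119, [3, 3]), (122, 119, [3, 3, 3])])
  .no .no .no) .no) .no (.use 293) .no .no) .no .no) .no .no) (.use 1105) (.red [.t 1217 1 4, .t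
  1097 4 1, .f 1081 1 3] 153 136 [3, 1] [(152, 136, [1]), (153, 136, [3, 1]), (168, 152, [1])]))
  .no (.red [.f 1098 1 3, .f 1225 3 5, .t 1345 2 3, .f 1089 3 1, .t 1097 1 3] 153 136 [3, 1]
  [(153, 136, [3, 1]), (169, 136, [3, 1, 1])]) (.red [.f 1210 3 1, .f 1217 1 5, .t 1097 4 1] 153
  136 [3, 1] [(153, 136, [3, 1]), (168, 152, [1])]) (.br 1211 (.red [.t 1210 3 1, .f 1217 1 5, .t
  1097 4 1, .f 1081 1 3] 153 136 [3, 1] [(152, 136, [1]), (153, 136, [3, 1]), (168, 152, [1])])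
  .no .no (.br 978 .no (.hor [.t 834 3 1, .f 842 1 3, .f 969 3 5] [(121, 119, [3, 3]), (122, 119,
  [3, 3, 3])]) (.use 1197) .no (.use 1219) .no) .no .no) .no) (.hor [.t 1106 2 4, .f 969 3 5]
  [(138, 136, [3, 3])]) (.use 1184) .no .no (.br 1346 (.br 1338 (.red [.f 1338 1 3, .f 1210 3 1,
  .f 1217 1 5, .t 1097 4 1, .f 1081 1 3] 153 136 [3, 1] [(152, 136, [1]), (153, 136, [3, 1]),
  (168, 152, [1]), (184, 136, [1, 1, 1])]) .no .no (.br 1211 (.use 981) .no .no (.br 978 .no (.hor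
  [.t 834 3 1, .f 842 1 3, .f 969 3 5] [(121, 119, [3, 3]), (122, 119, [3, 3, 3])]) (.br 944 .no
  (.br 1347 (.hor [.f 1346 1 5] []) .no (.use 980) (.br 843 .no (.use 1216) (.use 208) .no .no
  .no) .no .no) .no (.use 293) .no .no) .no (.use 1219) .no) .no .no) (.use 1105) (.red [.t 1217 1
  4, .t 1097 4 1, .f 1081 1 3] 153 136 [3, 1] [(152, 136, [1]), (153, 136, [3, 1]), (168, 152,
  [1])])) .no (.red [.t 1225 3 2, .t 1345 2 3, .f 1089 3 1, .f 1097 1 3] 153 136 [3, 1] [(153,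
  136, [3, 1]), (169, 136, [3, 1, 1])]) (.red [.f 1210 3 1, .f 1217 1 5, .t 1097 4 1] 153 136 [3,
  1] [(153, 136, [3, 1]), (168, 152, [1])]) (.br 1211 (.red [.t 1210 3 1, .f 1217 1 5, .t 1097 4
  1, .f 1081 1 3] 153 136 [3, 1] [(152, 136, [1]), (153, 136, [3, 1]), (168, 152, [1])]) .no .no
  (.br 978 .no (.hor [.t 834 3 1, .f 842 1 3, .f 969 3 5] [(121, 119, [3, 3]), (122, 119, [3, 3,
  3])]) (.br 944 .no (.br 843 .no (.use 1218) (.use 208) .no .no .no) .no (.use 293) .no .no) .no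
  (.use 1219) .no) .no .no) .no)

def c27t1221 : Tr4 :=
  .br 696 .no (.hor [.f 568 1 5] []) .no (.use 57) .no .no

def c27t1222 : Tr4 :=
  .br 690 .no (.use 51) .no (.con 136 [2, 2, 4, 4, 4]) (.use 946) (.use 1114)

def c27t1223 : Tr4 :=
  .br 819 .no (.red [.f 691 1 3] 103 136 [2, 2, 4] [(103, 136, [2, 2, 4])]) .no (.br 809 (.hor [.f
  808 1 5] []) (.use 1222) .no (.use 1111) (.red [.f 808 1 3, .f 809 5 3, .f 810 3 5, .t 954 2 4]
  119 136 [2, 4] [(118, 102, [1]), (119, 136, [2, 4])]) .no) .no .no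

def c27t1224 : Tr4 :=
  .br 809 (.hor [.f 808 1 5] []) (.br 811 (.con 136 [2, 2, 4, 4, 1, 3]) (.con 136 [2, 2, 4, 4, 4])
  (.use 946) (.con 136 [2, 2, 4, 4, 1, 4]) .no (.con 136 [2, 2, 4, 4, 4])) .no (.use 1111) (.red
  [.f 809 5 3, .f 810 3 1, .f 818 1 3] 119 136 [2, 4] [(118, 136, [2, 4, 4]), (119, 136, [2, 4])])
  .no

def c27t1225 : Tr4 :=
  .br 577 .no (.br 576 .no (.hor [.f 448 1 5] []) (.con 136 [2, 2, 2, 2, 3]) (.red [.f 568 3 1, .f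
  568 1 5] 88 136 [2, 2, 2] [(88, 136, [2, 2, 2])]) .no .no) (.red [.f 577 3 1, .f 569 1 3] 89 136
  [2, 2, 2, 3] [(88, 136, [2, 2, 2]), (89, 136, [2, 2, 2, 3])]) .no .no (.red [.t 696 3 2] 88 136
  [2, 2, 2] [(88, 136, [2, 2, 2])])

def c27t1226 : Tr4 :=
  .br 578 .no (.br 579 (.use 1201) (.con 136 [2, 2, 2, 3, 1, 4, 2]) (.con 136 [2, 2, 2, 3, 1, 4,
  2]) (.con 136 [2, 2, 2, 3, 1, 4, 2]) .no .no) (.hor [.f 577 3 5] []) (.red [.t 569 1 3, .f 696 3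
  5] 88 136 [2, 2, 2] [(88, 136, [2, 2, 2])]) (.con 136 [2, 2, 2, 3, 1, 4, 2]) .no

def c27t1227 : Tr4 :=
  .br 577 .no (.use 1171) (.use 1226) .no (.red [.f 577 5 1, .f 569 1 3] 88 136 [2, 2, 2] [(88,
  136, [2, 2, 2])]) (.red [.t 696 3 2] 88 136 [2, 2, 2] [(88, 136, [2, 2, 2])])

def c27t1228 : Tr4 :=
  .br 690 .no (.use 51) (.br 697 .no (.br 704 .no (.use 1221) (.use 58) (.br 705 .no (.red [.f 569
  1 3] 88 136 [2, 2, 2] [(88, 136, [2, 2, 2])]) (.br 706 .no (.use 1225) (.hor [.f 705 3 5] [])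
  .no (.br 577 .no (.use 1196) (.red [.f 577 3 1, .f 569 1 3] 89 136 [2, 2, 2, 3] [(88, 136, [2,
  2, 2]), (89, 136, [2, 2, 2, 3])]) .no (.br 576 .no (.br 691 .no (.br 568 .no (.red [.f 440 1 3]
  72 136 [2, 2, 2, 2] [(72, 136, [2, 2, 2, 2])]) .no (.br 570 .no (.br 579 .no (.use 1044) (.red
  [.t 842 4 2, .f 579 3 1] 89 136 [2, 2, 2, 3] [(89, 136, [2, 2, 2, 3]), (105, 136, [2, 2, 3])])
  (.con 136 [2, 2, 2, 2]) .no .no) .no (.con 136 [2, 2, 2, 4, 2]) (.use 1211) .no) .no .no) .no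
  (.use 963) .no .no) (.use 1205) (.red [.f 568 3 1, .f 568 1 5] 88 136 [2, 2, 2] [(88, 136, [2,
  2, 2])]) .no .no) (.red [.t 696 3 2] 88 136 [2, 2, 2] [(88, 136, [2, 2, 2])])) .no) .no (.use
  1227) .no) (.use 154) .no) (.red [.f 824 5 3, .f 697 3 1, .t 697 1 4] 103 136 [2, 2, 4] [(103,
  136, [2, 2, 4]), (104, 136, [2, 2])]) (.hor [.f 689 3 5] []) .no (.red [.f 696 5 1, .t 697 1 4]
  103 136 [2, 2, 4] [(103, 136, [2, 2, 4])])) (.con 136 [2, 2, 4, 4, 4]) (.use 946) (.use 1114)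

def c27t1229 : Tr4 :=
  .br 819 .no (.red [.f 691 1 3] 103 136 [2, 2, 4] [(103, 136, [2, 2, 4])]) .no (.br 809 (.hor [.f
  808 1 5] []) (.use 1228) .no (.use 1111) (.red [.f 808 1 3, .f 809 5 3, .f 810 3 5, .t 954 2 4]
  119 136 [2, 4] [(118, 102, [1]), (119, 136, [2, 4])]) .no) .no .no

def c27t1230 : Tr4 :=
  .br 843 .no (.use 1229) (.hor [.t 834 3 1, .t 842 1 3, .f 969 3 5] [(121, 119, [3, 3]), (122,
  119, [3, 3, 3])]) .no .no .no

def c27t1231 : Tr4 :=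
  .br 809 .no (.br 819 .no (.red [.f 691 1 3] 103 136 [2, 2, 4] [(103, 136, [2, 2, 4])]) .no (.use
  1228) .no .no) .no (.hor [.f 808 1 3, .f 801 3 1, .f 808 3 1, .f 808 1 5] [(117, 136, [2, 4, 4,
  4])]) (.red [.f 809 5 3, .f 810 3 1, .f 818 1 3] 119 136 [2, 4] [(118, 136, [2, 4, 4]), (119,
  136, [2, 4])]) .no

def c27t1232 : Tr4 :=
  .br 937 .no (.hor [.f 808 1 5] []) .no (.use 1231) .no .no

def c27t1233 : Tr4 :=
  .br 1065 (.use 1230) (.red [.f 937 1 3, .f 937 3 5, .f 817 5 1, .f 818 1 3] 119 136 [2, 4]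
  [(119, 136, [2, 4]), (134, 118, [1])]) .no (.br 843 .no (.use 1232) (.hor [.t 834 3 1, .t 842 1
  3, .f 969 3 5] [(121, 119, [3, 3]), (122, 119, [3, 3, 3])]) .no .no .no) (.hor [.f 808 1 3, .f
  808 3 1, .t 945 1 4, .f 1064 3 5] [(134, 119, [4, 1])]) .no

def c27t1234 : Tr4 :=
  .br 704 .no (.br 705 .no (.hor [.f 576 1 5] []) .no (.br 706 .no (.use 650) (.hor [.f 706 3 1,
  .f 713 1 5] [(105, 136, [2, 2, 3])]) (.hor [.f 697 3 5] []) (.br 696 .no (.hor [.f 568 1 3, .f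
  696 3 5] [(88, 103, [3, 2])]) .no (.br 698 .no (.use 1156) .no (.red [.f 824 5 3, .f 697 3 1, .t
  697 1 4] 103 136 [2, 2, 4] [(103, 136, [2, 2, 4]), (104, 136, [2, 2])]) .no .no) .no .no) .no)
  (.br 819 .no (.red [.f 691 1 3] 103 136 [2, 2, 4] [(103, 136, [2, 2, 4])]) .no (.br 809 (.hor
  [.f 808 1 5] []) (.br 690 .no (.use 51) (.br 697 .no (.use 1221) .no (.hor [.f 689 3 5] []) .no
  (.red [.f 696 5 1, .t 697 1 4] 103 136 [2, 2, 4] [(103, 136, [2, 2, 4])])) (.con 136 [2, 2, 4,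
  4, 4]) (.use 946) (.use 1114)) .no (.use 1111) (.red [.f 808 1 3, .f 809 5 3, .f 810 3 5, .t 954
  2 4] 119 136 [2, 4] [(118, 102, [1]), (119, 136, [2, 4])]) .no) .no .no) .no) (.hor [.t 712 4 1,
  .f 833 3 5] [(105, 136, [2, 2, 3])]) (.br 705 .no (.br 706 .no (.hor [.f 577 1 5] []) (.hor [.f
  706 3 1, .f 713 1 5] [(105, 136, [2, 2, 3])]) (.con 136 [2, 2, 2]) (.br 697 .no (.red [.f 569 1
  3] 88 136 [2, 2, 2] [(88, 136, [2, 2, 2])]) .no (.use 1162) (.use 1223) .no) .no) .no (.hor [.f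
  696 3 5] []) (.br 697 .no (.use 1172) .no (.use 1183) (.use 1223) .no) .no) (.br 696 .no (.br
  697 .no (.use 1118) .no (.br 698 .no (.con 136 [2, 2, 2, 4]) (.con 136 [2, 2, 2, 4]) (.hor [.f
  689 3 5] []) .no .no) (.use 1223) .no) .no (.use 1117) (.br 690 .no (.use 820) (.red [.f 696 5
  3, .f 696 3 5, .f 696 5 1, .t 697 1 4] 103 136 [2, 2, 4] [(103, 136, [2, 2, 4])]) (.use 842)
  (.br 698 .no (.br 809 (.hor [.f 808 1 5] []) (.br 811 (.con 136 [2, 2, 4, 4, 1, 3]) (.con 136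
  [2, 2, 4, 4, 4]) (.use 946) (.con 136 [2, 2, 4, 4, 1, 4]) .no (.con 136 [2, 2, 4, 4, 4])) .no
  (.use 1111) (.red [.f 809 5 3, .f 810 3 1, .f 818 1 3] 119 136 [2, 4] [(118, 136, [2, 4, 4]),
  (119, 136, [2, 4])]) .no) (.use 1224) .no .no .no) (.use 1176)) .no) .no

def c27t1235 : Tr4 :=
  .br 1347 (.hor [.f 1346 1 5] []) .no (.use 334) (.br 1338 (.hor [.f 1338 1 3, .f 1338 3 5]
  [(184, 136, [1, 1, 1])]) .no .no (.br 944 .no (.use 1216) .no (.use 293) .no .no) .no (.red [.t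
  1217 1 4, .f 1217 5 3, .f 1089 3 1] 153 136 [3, 1] [(153, 136, [3, 1]), (168, 152, [1])])) .no
  .no

def c27t1236 : Tr4 :=
  .br 714 .no (.red [.t 586 1 4, .f 705 3 5] 89 136 [2, 2, 2, 3] [(89, 136, [2, 2, 2, 3])]) (.use
  1053) .no (.red [.f 706 5 3, .f 579 3 1] 89 136 [2, 2, 2, 3] [(89, 136, [2, 2, 2, 3])]) .no

def c27l40 : List Tr4 :=
  [c27t1215, c27t1216, c27t1217, c27t1218, c27t1219, c27t1220, c27t1221, c27t1222, c27t1223,
  c27t1224, c27t1225, c27t1226, c27t1227, c27t1228, c27t1229, c27t1230, c27t1231, c27t1232,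
  c27t1233, c27t1234, c27t1235, c27t1236]

theorem c27k40 : chkLF ⟨4, 1, 0, true, -8⟩ false 7 c27N 1215 c27l40 = true := by decide +kernel

def c27t1237 : Tr4 :=
  .br 1107 (.hor [.f 1106 1 5] []) (.con 136 [3, 3, 3, 1]) (.con 136 [3, 3, 3, 1]) .no .no .no

def c27t1238 : Tr4 :=
  .br 978 (.br 979 (.hor [.f 978 1 5] []) .no (.br 1107 (.br 1232 (.red [.f 1224 1 3, .f 1096 3 1]
  154 136 [3, 3, 1] [(154, 136, [3, 3, 1]), (170, 136, [3, 3, 1, 1])]) .no (.br 1233 (.br 1234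
  (.hor [.f 1233 1 5] []) .no (.con 136 [3, 3, 3, 1, 1]) .no .no .no) .no (.hor [.f 1232 3 5] [])
  .no (.red [.f 1225 5 3, .t 1234 4 2] 154 136 [3, 3, 1] [(154, 136, [3, 3, 1])]) .no) .no (.red
  [.f 970 5 1, .f 962 1 3, .f 1089 3 5, .f 1097 5 1, .t 1096 3 1] 154 136 [3, 3, 1] [(137, 136,
  [3]), (154, 136, [3, 3, 1])]) .no) .no (.hor [.f 979 3 1, .f 978 1 5] [(139, 155, [2])]) .no .no
  .no) .no .no .no) (.hor [.t 850 1 4, .f 969 3 5] [(122, 154, [2, 2])]) (.br 1106 (.use 1237) .no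
  (.hor [.f 1105 3 5] []) .no (.br 979 .no .no (.hor [.f 978 3 5] []) .no .no .no) .no) .no (.hor
  [.t 834 3 1, .t 842 1 3, .f 969 3 5] [(121, 136, [2, 3]), (122, 154, [2, 2])]) .no

def c27t1239 : Tr4 :=
  .br 1232 (.red [.f 1224 1 3, .f 1096 3 1] 154 136 [3, 3, 1] [(154, 136, [3, 3, 1]), (170, 136,
  [3, 3, 1, 1])]) .no (.br 850 .no .no (.br 985 (.red [.t 985 1 4, .f 978 1 5] 139 136 [3, 3, 3]
  [(139, 136, [3, 3, 3])]) (.hor [.f 850 3 1, .f 857 1 5] [(123, 139, [2])]) (.br 1113 (.br 1114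
  (.hor [.f 1113 1 5] []) .no (.con 136 [3, 3, 3, 1, 3]) .no (.con 136 [3, 3, 3, 1, 3]) .no) .no
  (.red [.f 985 3 1, .t 985 1 4] 139 136 [3, 3, 3] [(139, 136, [3, 3, 3]), (140, 136, [3, 3, 3,
  3])]) .no (.red [.f 1105 5 3, .f 978 3 1] 139 136 [3, 3, 3] [(139, 136, [3, 3, 3])]) (.red [.f
  970 5 1, .t 969 3 1, .t 976 3 1] 139 136 [3, 3, 3] [(138, 136, [3, 3]), (139, 136, [3, 3, 3])]))
  .no .no .no) .no .no (.hor [.t 834 3 1, .t 969 3 2, .f 842 3 5] [(121, 136, [2, 3]), (122, 139,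
  [2, 4])])) .no (.red [.f 970 5 1, .f 962 1 3, .f 1089 3 5, .f 1097 5 1, .t 1096 3 1] 154 136 [3,
  3, 1] [(137, 136, [3]), (154, 136, [3, 3, 1])]) .no

def c27t1240 : Tr4 :=
  .br 979 (.use 1239) .no (.hor [.f 978 3 5] []) .no .no .no

def c27t1241 : Tr4 :=
  .br 577 .no (.br 576 .no (.hor [.f 448 1 5] []) (.br 579 .no (.con 136 [2, 2, 2, 3, 2]) (.use
  1236) (.con 136 [2, 2, 2, 3, 2]) .no (.con 136 [2, 2, 2, 2, 3])) (.red [.f 568 3 1, .f 568 1 5]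
  88 136 [2, 2, 2] [(88, 136, [2, 2, 2])]) .no .no) (.red [.f 577 3 1, .f 569 1 3] 89 136 [2, 2,
  2, 3] [(88, 136, [2, 2, 2]), (89, 136, [2, 2, 2, 3])]) .no (.br 714 .no (.red [.t 713 4 2, .f
  569 1 3, .f 696 3 5] 89 136 [2, 2, 2, 3] [(88, 136, [2, 2, 2]), (89, 136, [2, 2, 2, 3])]) (.use
  1240) .no (.red [.f 706 5 3, .f 705 3 5, .f 577 5 1, .f 569 1 3] 88 136 [2, 2, 2] [(88, 136, [2,
  2, 2])]) .no) (.red [.t 696 3 2] 88 136 [2, 2, 2] [(88, 136, [2, 2, 2])])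

def c27t1242 : Tr4 :=
  .br 706 .no (.use 1225) (.hor [.f 705 3 5] []) .no (.use 1241) .no

def c27t1243 : Tr4 :=
  .br 568 .no (.red [.f 440 1 3] 72 136 [2, 2, 2, 2] [(72, 136, [2, 2, 2, 2])]) .no (.con 136 [2,
  2, 2, 4, 2]) .no .no

def c27t1244 : Tr4 :=
  .br 576 .no (.br 691 (.red [.f 691 1 3, .f 690 3 5] 103 136 [2, 2, 4] [(103, 136, [2, 2, 4])])
  (.br 570 .no (.red [.f 442 1 3] 72 136 [2, 2, 2, 2] [(72, 136, [2, 2, 2, 2])]) .no (.use 1243)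
  (.br 811 (.con 136 [2, 2, 4, 4, 1, 3]) (.con 136 [2, 2, 4, 4, 1, 3]) (.br 568 .no (.red [.f 440
  1 3] 72 136 [2, 2, 2, 2] [(72, 136, [2, 2, 2, 2])]) .no (.use 1203) .no .no) (.con 136 [2, 2, 4,
  4, 1, 3]) .no (.con 136 [2, 2, 4, 4, 1, 3])) .no) .no (.use 963) .no .no) (.hor [.f 576 3 5] [])
  (.red [.f 568 3 1, .f 568 1 5] 88 136 [2, 2, 2] [(88, 136, [2, 2, 2])]) .no .no

def c27t1245 : Tr4 :=
  .br 578 .no (.use 1244) (.hor [.f 577 3 5] []) (.red [.t 569 1 3, .f 696 3 5] 88 136 [2, 2, 2]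
  [(88, 136, [2, 2, 2])]) (.con 136 [2, 2, 2, 3, 1, 4, 2]) .no

def c27t1246 : Tr4 :=
  .br 705 .no (.red [.f 569 1 3] 88 136 [2, 2, 2] [(88, 136, [2, 2, 2])]) (.use 1242) .no (.br 577
  .no (.use 1171) (.br 714 .no (.red [.t 585 4 1, .f 569 1 3, .f 696 3 5] 88 136 [2, 2, 2] [(88,
  136, [2, 2, 2]), (89, 136, [2, 2, 2, 3])]) (.use 1240) .no (.use 1245) (.red [.f 705 5 3, .f 577
  3 1, .f 569 1 3] 88 136 [2, 2, 2] [(88, 136, [2, 2, 2]), (89, 136, [2, 2, 2, 3])])) .no (.red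
  [.f 577 5 1, .f 569 1 3] 88 136 [2, 2, 2] [(88, 136, [2, 2, 2])]) (.red [.t 696 3 2] 88 136 [2,
  2, 2] [(88, 136, [2, 2, 2])])) .no

def c27t1247 : Tr4 :=
  .br 819 .no (.red [.f 689 5 1, .f 691 1 3] 103 136 [2, 2, 4] [(103, 136, [2, 2, 4])]) .no (.use
  1076) .no .no

def c27t1248 : Tr4 :=
  .br 698 .no (.hor [.f 569 1 5] []) (.con 136 [2, 2, 2]) .no .no .no

def c27t1249 : Tr4 :=
  .br 819 .no (.red [.f 689 5 1, .f 691 1 3] 103 136 [2, 2, 4] [(103, 136, [2, 2, 4])]) .no (.br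
  697 .no (.use 1248) (.hor [.f 696 3 5] []) .no (.br 705 .no (.use 1168) (.br 706 .no (.br 714
  .no (.red [.f 578 1 3] 89 136 [2, 2, 2, 3] [(89, 136, [2, 2, 2, 3])]) (.use 1240) .no (.br 579
  (.hor [.f 578 1 5] []) (.con 136 [2, 2, 2, 3]) (.con 136 [2, 2, 2, 3]) (.con 136 [2, 2, 2, 3])
  .no .no) .no) (.hor [.f 705 3 5] []) .no (.br 691 .no (.br 568 .no (.br 569 .no (.hor [.f 440 1
  5] []) (.use 1113) (.red [.f 689 5 3, .f 561 3 1] 87 136 [2, 2, 2, 4] [(87, 136, [2, 2, 2, 4])])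
  (.br 576 .no (.red [.f 440 1 3] 72 136 [2, 2, 2, 2] [(72, 136, [2, 2, 2, 2])]) (.br 577 .no (.br
  579 .no (.con 136 [2, 2, 2, 2, 3]) (.use 1236) (.con 136 [2, 2, 2, 2]) .no (.con 136 [2, 2, 2,
  2, 3])) (.red [.f 569 5 1, .f 577 3 1] 89 136 [2, 2, 2, 3] [(89, 136, [2, 2, 2, 3])]) .no (.br
  579 .no (.con 136 [2, 2, 2, 2, 3]) (.use 1236) (.con 136 [2, 2, 2, 2]) .no .no) .no) .no (.red
  [.f 569 5 1, .t 696 3 2] 88 136 [2, 2, 2] [(88, 136, [2, 2, 2])]) .no) .no) (.red [.f 568 3 1]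
  88 136 [2, 2, 2] [(88, 136, [2, 2, 2])]) (.con 136 [2, 2, 2, 4, 4]) (.use 237) .no) .no (.use
  963) .no .no) .no) .no (.use 1185) .no) .no) .no .no

def c27t1250 : Tr4 :=
  .br 696 .no (.use 1247) (.use 1249) (.red [.f 689 5 1, .t 688 3 1] 103 136 [2, 2, 4] [(103, 136,
  [2, 2, 4])]) (.red [.f 696 5 1, .f 689 5 1, .f 689 1 3] 103 136 [2, 2, 4] [(103, 136, [2, 2,
  4])]) .no

def c27t1251 : Tr4 :=
  .br 690 .no (.use 820) (.br 697 .no (.br 696 .no (.hor [.f 568 1 5] []) (.br 705 .no (.red [.f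
  569 1 3] 88 136 [2, 2, 2] [(88, 136, [2, 2, 2])]) (.use 1242) .no (.br 577 .no (.use 1171) (.br
  714 .no (.red [.t 585 4 1, .f 569 1 3, .f 696 3 5] 88 136 [2, 2, 2] [(88, 136, [2, 2, 2]), (89,
  136, [2, 2, 2, 3])]) (.use 1240) .no (.br 578 .no (.br 809 .no (.br 576 .no (.br 691 (.red [.f
  691 1 3, .f 690 3 5] 103 136 [2, 2, 4] [(103, 136, [2, 2, 4])]) (.br 570 .no (.red [.f 442 1 3]
  72 136 [2, 2, 2, 2] [(72, 136, [2, 2, 2, 2])]) .no (.use 1243) (.use 1212) .no) .no (.use 963)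
  .no .no) (.hor [.f 576 3 5] []) (.red [.f 568 3 1, .f 568 1 5] 88 136 [2, 2, 2] [(88, 136, [2,
  2, 2])]) .no .no) .no (.hor [.f 808 1 3, .f 801 3 1, .f 808 3 1, .f 808 1 5] [(117, 136, [2, 4,
  4, 4])]) (.red [.f 809 5 3, .f 810 3 1, .f 818 1 3] 119 136 [2, 4] [(118, 136, [2, 4, 4]), (119,
  136, [2, 4])]) .no) (.hor [.f 577 3 5] []) (.red [.t 569 1 3, .f 696 3 5] 88 136 [2, 2, 2] [(88,
  136, [2, 2, 2])]) (.con 136 [2, 2, 2, 3, 1, 4, 2]) .no) (.red [.f 705 5 3, .f 577 3 1, .f 569 1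
  3] 88 136 [2, 2, 2] [(88, 136, [2, 2, 2]), (89, 136, [2, 2, 2, 3])])) .no (.red [.f 577 5 1, .f
  569 1 3] 88 136 [2, 2, 2] [(88, 136, [2, 2, 2])]) (.red [.t 696 3 2] 88 136 [2, 2, 2] [(88, 136,
  [2, 2, 2])])) .no) (.use 819) .no .no) (.red [.f 824 5 3, .f 697 3 1, .t 697 1 4] 103 136 [2, 2,
  4] [(103, 136, [2, 2, 4]), (104, 136, [2, 2])]) (.hor [.f 689 3 5] []) .no (.red [.f 696 5 1, .t
  697 1 4] 103 136 [2, 2, 4] [(103, 136, [2, 2, 4])])) (.use 1126) (.br 698 .no (.use 1159) (.use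
  1177) .no .no (.use 1166)) (.use 1250)

def c27t1252 : Tr4 :=
  .br 690 .no (.use 820) (.br 697 .no (.br 704 .no (.use 1079) (.use 864) (.br 705 .no (.red [.f
  569 1 3] 88 136 [2, 2, 2] [(88, 136, [2, 2, 2])]) (.use 1242) .no (.br 577 .no (.use 1171) (.br
  714 .no (.red [.t 585 4 1, .f 569 1 3, .f 696 3 5] 88 136 [2, 2, 2] [(88, 136, [2, 2, 2]), (89,
  136, [2, 2, 2, 3])]) (.use 1240) .no (.br 578 .no (.br 576 .no (.br 691 (.red [.f 691 1 3, .f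
  690 3 5] 103 136 [2, 2, 4] [(103, 136, [2, 2, 4])]) (.br 570 .no (.red [.f 442 1 3] 72 136 [2,
  2, 2, 2] [(72, 136, [2, 2, 2, 2])]) .no (.use 1243) (.use 1214) .no) .no (.use 963) .no .no)
  (.hor [.f 576 3 5] []) (.red [.f 568 3 1, .f 568 1 5] 88 136 [2, 2, 2] [(88, 136, [2, 2, 2])])
  .no .no) (.hor [.f 577 3 5] []) (.red [.t 569 1 3, .f 696 3 5] 88 136 [2, 2, 2] [(88, 136, [2,
  2, 2])]) (.con 136 [2, 2, 2, 3, 1, 4, 2]) .no) (.red [.f 705 5 3, .f 577 3 1, .f 569 1 3] 88 136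
  [2, 2, 2] [(88, 136, [2, 2, 2]), (89, 136, [2, 2, 2, 3])])) .no (.red [.f 577 5 1, .f 569 1 3]
  88 136 [2, 2, 2] [(88, 136, [2, 2, 2])]) (.red [.t 696 3 2] 88 136 [2, 2, 2] [(88, 136, [2, 2,
  2])])) .no) (.use 867) .no) (.red [.f 824 5 3, .f 697 3 1, .t 697 1 4] 103 136 [2, 2, 4] [(103,
  136, [2, 2, 4]), (104, 136, [2, 2])]) (.hor [.f 689 3 5] []) .no (.red [.f 696 5 1, .t 697 1 4]
  103 136 [2, 2, 4] [(103, 136, [2, 2, 4])])) (.use 971) (.use 858) (.use 1250)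

def c27t1253 : Tr4 :=
  .br 944 .no (.br 707 .no (.use 1202) .no .no .no (.br 1338 (.hor [.f 1338 1 5] []) .no .no (.br
  937 (.red [.f 937 1 3, .f 937 3 5, .f 817 5 1, .f 818 1 3] 119 136 [2, 4] [(119, 136, [2, 4]),
  (134, 118, [1])]) (.red [.t 937 2 3, .f 818 1 3] 119 136 [2, 4] [(118, 136, [2, 4, 4]), (119,
  136, [2, 4])]) .no (.br 936 (.br 1065 (.br 1337 (.use 1217) .no .no (.use 637) .no (.con 136 [1,
  1, 4, 2, 2, 2])) .no .no (.use 1088) (.red [.t 945 1 4, .f 817 5 1, .f 818 1 3] 119 136 [2, 4]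
  [(119, 136, [2, 4]), (134, 118, [1])]) .no) (.use 1213) .no (.use 830) .no .no) .no (.use 1215))
  .no (.red [.t 1217 1 4, .f 1217 5 3, .f 1089 3 1] 153 136 [3, 1] [(153, 136, [3, 1]), (168, 152,
  [1])]))) .no (.use 293) .no .no

def c27t1254 : Tr4 :=
  .br 1346 (.br 1219 (.br 1353 (.br 1227 (.red [.f 1219 1 3] 169 136 [3, 1, 1] [(169, 136, [3, 1,
  1])]) .no (.con 136 [3, 3, 1, 1]) .no .no .no) .no (.br 1227 (.red [.f 1219 1 3] 169 136 [3, 1,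
  1] [(169, 136, [3, 1, 1])]) .no (.con 136 [3, 3, 1, 1]) .no .no .no) .no (.red [.f 1225 5 1, .f
  1217 1 3] 169 136 [3, 1, 1] [(169, 136, [3, 1, 1])]) .no) .no (.br 1105 (.red [.f 970 5 1, .f
  962 1 3, .f 1089 3 5, .f 1097 5 1, .f 1097 1 3] 154 136 [3, 3, 1] [(137, 136, [3]), (154, 136,
  [3, 3, 1])]) .no (.br 843 .no (.use 1235) (.use 1238) .no .no .no) .no (.br 843 .no (.use 1235)
  (.br 978 .no (.hor [.t 850 1 4, .f 969 3 5] [(122, 154, [2, 2])]) (.br 1347 (.hor [.f 1346 1 5]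
  []) .no (.use 334) (.br 1338 (.hor [.f 1338 1 3, .f 1338 3 5] [(184, 136, [1, 1, 1])]) .no .no
  (.br 944 .no (.br 976 .no (.hor [.t 976 2 4, .t 968 4 2, .f 833 3 5] [(121, 119, [3, 3]), (122,
  154, [2, 2])]) (.br 937 (.red [.f 937 1 3, .f 937 3 5, .f 817 5 1, .f 818 1 3] 119 136 [2, 4]
  [(119, 136, [2, 4]), (134, 118, [1])]) (.red [.t 937 2 3, .f 818 1 3] 119 136 [2, 4] [(118, 136,
  [2, 4, 4]), (119, 136, [2, 4])]) .no (.br 936 (.br 1065 (.br 1337 (.br 690 .no (.use 820) (.br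
  697 .no (.br 696 .no (.hor [.f 568 1 5] []) (.use 1246) (.br 691 (.red [.f 691 1 3, .f 690 3 5]
  103 136 [2, 2, 4] [(103, 136, [2, 2, 4])]) (.use 1190) .no (.use 963) .no .no) .no .no) (.red
  [.f 824 5 3, .f 697 3 1, .t 697 1 4] 103 136 [2, 2, 4] [(103, 136, [2, 2, 4]), (104, 136, [2,
  2])]) (.hor [.f 689 3 5] []) .no (.red [.f 696 5 1, .t 697 1 4] 103 136 [2, 2, 4] [(103, 136,
  [2, 2, 4])])) (.use 1164) (.use 843) (.use 1250)) .no .no (.use 637) .no (.con 136 [1, 1, 4, 2,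
  2, 2])) .no .no (.use 1088) (.red [.t 945 1 4, .f 817 5 1, .f 818 1 3] 119 136 [2, 4] [(119,
  136, [2, 4]), (134, 118, [1])]) .no) (.use 1251) .no (.use 830) .no .no) .no (.use 1252)) .no
  .no .no) .no (.use 293) .no .no) .no (.red [.t 1217 1 4, .f 1217 5 3, .f 1089 3 1] 153 136 [3,
  1] [(153, 136, [3, 1]), (168, 152, [1])])) .no .no) .no (.hor [.t 834 3 1, .t 842 1 3, .f 969 3
  5] [(121, 119, [3, 3]), (122, 154, [2, 2])]) .no) .no .no .no) .no) .no .no .no) .no (.red [.t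
  1345 2 3, .f 1089 3 1] 153 136 [3, 1] [(153, 136, [3, 1]), (169, 136, [3, 1, 1])]) (.red [.f
  1210 3 1, .f 1217 1 5, .f 1217 5 3, .f 1089 3 1] 153 136 [3, 1] [(153, 136, [3, 1]), (168, 152,
  [1])]) (.br 1105 (.red [.f 970 5 1, .f 962 1 3, .f 1089 3 5, .f 1097 5 1, .f 1097 1 3] 154 136
  [3, 3, 1] [(137, 136, [3]), (154, 136, [3, 3, 1])]) .no (.br 1339 (.br 843 .no (.use 1253) (.use
  1238) .no .no .no) .no .no (.hor [.f 1203 3 1, .t 1210 3 1, .f 1217 1 5] [(167, 135, [1, 1]),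
  (168, 136, [1, 1])]) .no (.red [.f 1338 5 3, .f 1210 3 1, .f 1217 1 5, .f 1217 5 3, .f 1089 3 1]
  153 136 [3, 1] [(153, 136, [3, 1]), (168, 152, [1])])) .no (.br 1339 (.br 843 .no (.use 1253)
  (.br 978 .no (.hor [.t 850 1 4, .f 969 3 5] [(122, 154, [2, 2])]) (.br 944 .no (.br 976 .no
  (.hor [.t 976 2 4, .t 968 4 2, .f 833 3 5] [(121, 119, [3, 3]), (122, 154, [2, 2])]) (.br 937
  (.red [.f 937 1 3, .f 937 3 5, .f 817 5 1, .f 818 1 3] 119 136 [2, 4] [(119, 136, [2, 4]), (134,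
  118, [1])]) (.red [.t 937 2 3, .f 818 1 3] 119 136 [2, 4] [(118, 136, [2, 4, 4]), (119, 136, [2,
  4])]) .no (.br 936 (.br 690 .no (.use 820) (.br 697 .no (.br 696 .no (.hor [.f 568 1 5] [])
  (.use 1246) (.use 1193) .no .no) (.red [.f 824 5 3, .f 697 3 1, .t 697 1 4] 103 136 [2, 2, 4]
  [(103, 136, [2, 2, 4]), (104, 136, [2, 2])]) (.hor [.f 689 3 5] []) .no (.red [.f 696 5 1, .t
  697 1 4] 103 136 [2, 2, 4] [(103, 136, [2, 2, 4])])) (.use 1164) (.use 843) (.use 1250)) (.use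
  1251) .no (.use 830) .no .no) .no (.use 1252)) .no .no .no) .no (.use 293) .no .no) .no (.hor
  [.t 834 3 1, .t 842 1 3, .f 969 3 5] [(121, 119, [3, 3]), (122, 154, [2, 2])]) .no) .no .no .no)
  .no .no (.hor [.f 1203 3 1, .t 1210 3 1, .f 1217 1 5] [(167, 135, [1, 1]), (168, 136, [1, 1])])
  .no (.red [.f 1338 5 3, .f 1210 3 1, .f 1217 1 5, .f 1217 5 3, .f 1089 3 1] 153 136 [3, 1]
  [(153, 136, [3, 1]), (168, 152, [1])])) .no) .no

def c27l41 : List Tr4 :=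
  [c27t1237, c27t1238, c27t1239, c27t1240, c27t1241, c27t1242, c27t1243, c27t1244, c27t1245,
  c27t1246, c27t1247, c27t1248, c27t1249, c27t1250, c27t1251, c27t1252, c27t1253, c27t1254]

theorem c27k41 : chkLF ⟨4, 1, 0, true, -8⟩ false 7 c27N 1237 c27l41 = true := by decide +kernel

end Pool.Agent.FT4D
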