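import Pool.Agent.FT4D.Tab_c27

/-!
# Four levels: decision trees (found by a computer search)
-/

namespace Pool.Agent.FT4D

def c27t1255 : Tr4 :=
  .br 841 .no (.use 1234) (.hor [.t 834 3 1, .f 841 3 1, .f 841 1 5] [(121, 119, [3, 3]), (122,
  154, [2, 2])]) .no .no (.br 843 .no (.use 1229) (.br 1105 (.red [.f 970 5 1, .f 962 1 3, .f 1089
  3 5, .f 1097 5 1, .f 1097 1 3] 154 136 [3, 3, 1] [(137, 136, [3]), (154, 136, [3, 3, 1])]) .no
  (.use 1238) .no (.br 978 .no (.hor [.t 850 1 4, .f 969 3 5] [(122, 154, [2, 2])]) (.br 976 .no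
  (.hor [.t 976 2 4, .t 968 4 2, .f 833 3 5] [(121, 119, [3, 3]), (122, 154, [2, 2])]) (.br 979
  (.br 819 .no (.red [.f 691 1 3] 103 136 [2, 2, 4] [(103, 136, [2, 2, 4])]) .no (.br 809 (.hor
  [.f 808 1 5] []) (.br 690 .no (.use 51) (.br 697 .no (.br 704 .no (.use 1221) (.use 58) (.br 705
  .no (.red [.f 569 1 3] 88 136 [2, 2, 2] [(88, 136, [2, 2, 2])]) (.use 1242) .no (.br 577 .no
  (.use 1171) (.br 714 .no (.red [.t 585 4 1, .f 569 1 3, .f 696 3 5] 88 136 [2, 2, 2] [(88, 136,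
  [2, 2, 2]), (89, 136, [2, 2, 2, 3])]) (.use 1239) .no (.br 578 .no (.br 576 .no (.br 691 .no
  (.br 570 .no (.red [.f 442 1 3] 72 136 [2, 2, 2, 2] [(72, 136, [2, 2, 2, 2])]) .no (.use 1243)
  (.use 1211) .no) .no (.use 963) .no .no) (.hor [.f 576 3 5] []) (.red [.f 568 3 1, .f 568 1 5]
  88 136 [2, 2, 2] [(88, 136, [2, 2, 2])]) .no .no) (.hor [.f 577 3 5] []) (.red [.t 569 1 3, .f
  696 3 5] 88 136 [2, 2, 2] [(88, 136, [2, 2, 2])]) (.con 136 [2, 2, 2, 3, 1, 4, 2]) .no) (.red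
  [.f 705 5 3, .f 577 3 1, .f 569 1 3] 88 136 [2, 2, 2] [(88, 136, [2, 2, 2]), (89, 136, [2, 2, 2,
  3])])) .no (.red [.f 577 5 1, .f 569 1 3] 88 136 [2, 2, 2] [(88, 136, [2, 2, 2])]) (.red [.t 696
  3 2] 88 136 [2, 2, 2] [(88, 136, [2, 2, 2])])) .no) (.use 154) .no) (.red [.f 824 5 3, .f 697 3
  1, .t 697 1 4] 103 136 [2, 2, 4] [(103, 136, [2, 2, 4]), (104, 136, [2, 2])]) (.hor [.f 689 3 5]
  []) .no (.red [.f 696 5 1, .t 697 1 4] 103 136 [2, 2, 4] [(103, 136, [2, 2, 4])])) (.con 136 [2,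
  2, 4, 4, 4]) (.use 946) (.use 1114)) .no (.use 1111) (.red [.f 808 1 3, .f 809 5 3, .f 810 3 5,
  .t 954 2 4] 119 136 [2, 4] [(118, 102, [1]), (119, 136, [2, 4])]) .no) .no .no) .no (.hor [.f
  978 3 5] []) .no .no .no) .no .no .no) .no (.use 1230) .no) .no) .no .no .no)

def c27t1256 : Tr4 :=
  .br 1098 (.br 1099 (.hor [.f 1098 1 5] []) .no (.br 1225 (.hor [.f 1224 1 5] []) .no (.br 1219
  (.use 766) .no (.br 1072 (.br 841 .no (.br 978 (.hor [.t 1106 2 4, .f 969 3 5] [(138, 136, [3,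
  3])]) (.hor [.t 834 3 1, .f 842 1 3, .f 969 3 5] [(121, 119, [3, 3]), (122, 119, [3, 3, 3])])
  (.br 944 .no (.br 840 .no (.hor [.f 712 1 5] []) (.use 1181) .no .no .no) .no (.use 293) .no
  .no) .no (.br 1211 (.br 1346 (.use 981) .no (.br 1106 (.red [.f 1098 1 3, .f 1225 3 5, .t 1345 2
  3, .f 1089 3 1, .t 1097 1 3] 153 136 [3, 1] [(153, 136, [3, 1]), (169, 136, [3, 1, 1])]) .no
  (.use 1184) .no .no (.red [.t 1225 3 2, .t 1345 2 3, .f 1089 3 1, .f 1097 1 3] 153 136 [3, 1]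
  [(153, 136, [3, 1]), (169, 136, [3, 1, 1])])) (.red [.f 1210 3 1, .f 1217 1 5, .t 1097 4 1] 153
  136 [3, 1] [(153, 136, [3, 1]), (168, 152, [1])]) (.red [.t 1210 3 1, .f 1217 1 5, .t 1097 4 1,
  .f 1081 1 3] 153 136 [3, 1] [(152, 136, [1]), (153, 136, [3, 1]), (168, 152, [1])]) .no) .no .no
  (.use 1194) .no .no) .no) (.hor [.t 834 3 1, .f 841 3 1, .f 841 1 5] [(121, 119, [3, 3]), (122,
  119, [3, 3, 3])]) .no .no (.use 1220)) (.hor [.f 944 1 5] []) .no (.br 936 .no (.br 944 .no (.br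
  1106 (.br 978 .no (.hor [.t 834 3 1, .f 842 1 3, .f 969 3 5] [(121, 119, [3, 3]), (122, 119, [3,
  3, 3])]) (.use 1197) .no (.use 1233) .no) (.hor [.t 1106 2 4, .f 969 3 5] [(138, 136, [3, 3])])
  (.use 1184) .no .no (.br 978 .no (.hor [.t 834 3 1, .f 842 1 3, .f 969 3 5] [(121, 119, [3, 3]),
  (122, 119, [3, 3, 3])]) (.br 1065 (.br 843 .no (.use 1229) (.use 208) .no .no .no) (.red [.f 937
  1 3, .f 937 3 5, .f 817 5 1, .f 818 1 3] 119 136 [2, 4] [(119, 136, [2, 4]), (134, 118, [1])])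
  .no (.br 843 .no (.use 1232) (.use 208) .no .no .no) (.hor [.f 808 1 3, .f 808 3 1, .t 945 1 4,
  .f 1064 3 5] [(134, 119, [4, 1])]) .no) .no (.use 1233) .no)) .no .no .no .no) (.hor [.f 936 3
  1, .f 944 1 5] [(134, 118, [1])]) (.use 830) (.red [.t 1072 4 2, .f 937 3 5, .f 817 5 1, .f 818
  1 3] 119 136 [2, 4] [(119, 136, [2, 4]), (134, 118, [1])]) .no) .no .no) (.hor [.f 1210 3 5] [])
  .no .no) .no .no .no) .no .no .no) .no (.use 397) .no (.br 1225 (.hor [.f 1224 1 5] []) .no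
  (.use 226) .no (.br 1211 (.use 811) .no (.hor [.f 1210 3 5] []) (.br 1072 (.br 841 .no (.use
  1194) (.hor [.t 834 3 1, .f 841 3 1, .f 841 1 5] [(121, 119, [3, 3]), (122, 154, [2, 2])]) .no
  .no (.use 1254)) (.hor [.f 944 1 5] []) .no (.br 936 .no (.br 944 .no (.br 1065 (.use 1255)
  (.red [.f 937 1 3, .f 937 3 5, .f 817 5 1, .f 818 1 3] 119 136 [2, 4] [(119, 136, [2, 4]), (134,
  118, [1])]) .no (.br 937 .no (.hor [.f 808 1 5] []) .no (.br 1066 (.hor [.f 929 3 1, .f 937 1 3,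
  .f 1064 3 5] [(133, 119, [1, 1, 4, 4, 2]), (134, 119, [4, 1])]) .no .no (.hor [.f 929 3 1, .f
  937 1 3, .f 1064 3 5] [(133, 119, [1, 1, 4, 4, 2]), (134, 119, [4, 1])]) (.con 136 [4, 4, 1, 3,
  2, 2]) .no) .no .no) (.hor [.f 808 1 3, .f 808 3 1, .t 945 1 4, .f 1064 3 5] [(134, 119, [4,
  1])]) .no) .no .no .no .no) (.hor [.f 936 3 1, .f 944 1 5] [(134, 118, [1])]) (.use 830) (.red
  [.t 1072 4 2, .f 937 3 5, .f 817 5 1, .f 818 1 3] 119 136 [2, 4] [(119, 136, [2, 4]), (134, 118,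
  [1])]) .no) .no .no) .no .no) .no) .no

def c27t1257 : Tr4 :=
  .br 970 (.red [.f 962 1 3, .f 1089 3 5, .t 1209 2 3, .f 953 3 1, .t 961 1 3] 136 136 [] [(136,
  136, []), (152, 136, [1])]) (.br 963 .no (.br 827 .no (.br 834 .no (.use 908) .no .no .no (.red
  [.t 953 3 2, .t 1073 2 3, .f 954 1 3, .f 826 3 1] 136 136 [] [(135, 136, [4]), (136, 136, [])]))
  .no (.red [.f 819 3 1, .f 826 1 5] 119 136 [2, 4] [(119, 136, [2, 4])]) .no .no) (.br 1098 (.br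
  834 .no (.br 835 .no (.hor [.f 706 1 5] []) (.hor [.f 835 3 1, .f 842 1 5] [(121, 136, [2, 3])])
  (.use 937) .no .no) .no .no (.br 827 .no (.br 1099 (.hor [.f 1098 1 5] []) .no (.br 1225 (.hor
  [.f 1224 1 5] []) .no (.br 1219 (.use 766) .no (.br 833 .no (.br 832 .no (.hor [.f 704 1 5] [])
  (.use 938) (.use 597) .no .no) (.hor [.t 970 2 4, .f 833 3 5] [(121, 136, [2, 3])]) (.red [.f
  825 3 1, .f 825 1 5, .t 1073 2 3, .f 954 1 3, .t 961 2 4] 136 136 [] [(135, 136, [4]), (136,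
  136, [])]) .no (.br 824 .no (.use 841) .no (.use 648) (.use 1128) .no)) (.hor [.f 1210 3 5] [])
  .no .no) .no .no .no) .no .no .no) .no (.red [.f 819 3 1, .f 826 1 5] 119 136 [2, 4] [(119, 136,
  [2, 4])]) .no .no) (.red [.t 953 3 2, .t 1073 2 3, .f 954 1 3, .f 826 3 1] 136 136 [] [(135,
  136, [4]), (136, 136, [])])) .no (.use 440) .no (.use 536) .no) .no .no .no) (.hor [.f 969 3 5]
  []) .no (.br 827 .no (.br 835 (.br 834 .no (.use 1154) (.br 833 .no (.br 832 .no (.hor [.f 704 1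
  5] []) (.use 1155) (.use 539) .no .no) (.hor [.f 833 3 5] []) (.red [.f 825 3 1, .f 825 1 5, .t
  1073 2 3, .f 954 1 3, .t 961 2 4] 136 136 [] [(135, 136, [4]), (136, 136, [])]) .no (.br 824 .no
  (.use 841) .no (.use 599) (.br 817 .no (.use 939) .no (.use 836) (.use 1256) (.use 1033)) .no))
  .no .no (.red [.t 953 3 2, .t 1073 2 3, .f 954 1 3, .f 826 3 1] 136 136 [] [(135, 136, [4]),
  (136, 136, [])])) (.con 136 [2, 3, 1, 4]) (.con 136 [2, 3, 1, 4]) .no .no (.con 136 [2, 3, 1,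
  4])) (.con 136 [2, 3, 1, 4]) (.red [.f 819 3 1, .f 826 1 5] 119 136 [2, 4] [(119, 136, [2, 4])])
  .no .no) .no

def c27t1258 : Tr4 :=
  .br 1105 (.red [.t 1105 1 4] 154 136 [3, 3, 1] [(154, 136, [3, 3, 1])]) (.hor [.t 1105 2 4, .f
  970 1 5] [(138, 154, [2])]) (.use 384) .no .no .no

def c27t1259 : Tr4 :=
  .br 1098 .no (.br 1099 (.con 136 [3, 3, 1]) (.hor [.f 970 1 5] []) (.use 451) .no .no .no) (.br
  970 .no .no (.use 417) .no (.use 397) (.br 971 (.use 1258) (.hor [.f 835 1 3, .f 834 3 5] [(121,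
  136, [2, 3])]) (.use 361) .no .no .no)) .no (.use 369) .no

def c27t1260 : Tr4 :=
  .br 842 .no (.hor [.t 968 4 2, .f 706 1 3, .f 833 3 5] [(105, 122, [4, 2]), (121, 122, [4])])
  (.br 978 (.red [.f 962 1 3, .f 962 3 1, .f 970 1 3, .f 1098 3 5] 138 136 [3, 3] [(138, 136, [3,
  3])]) .no (.hor [.f 978 3 5] []) .no .no (.red [.t 841 1 3] 122 136 [2, 3, 3] [(122, 136, [2, 3,
  3])])) .no .no .no

def c27t1261 : Tr4 :=
  .br 1106 (.con 136 [3, 3, 1, 3]) (.red [.f 962 1 3, .f 962 3 1, .f 970 1 3, .f 1098 3 5] 138 136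
  [3, 3] [(138, 136, [3, 3])]) (.use 1184) .no .no (.red [.f 962 1 3, .f 962 3 1, .t 969 3 1] 138
  136 [3, 3] [(138, 136, [3, 3])])

def c27t1262 : Tr4 :=
  .br 979 .no (.red [.f 843 1 3, .f 971 3 1, .f 970 1 5] 138 136 [3, 3] [(122, 136, [2, 3, 3]),
  (138, 136, [3, 3])]) (.br 969 .no (.use 1260) (.use 1261) .no .no .no) .no .no (.red [.f 962 1
  3, .f 962 3 1, .t 1098 2 3] 138 136 [3, 3] [(138, 136, [3, 3])])

def c27t1263 : Tr4 :=
  .br 1106 (.use 465) (.red [.f 962 1 3, .f 962 3 1, .f 970 1 3, .f 1098 3 5] 138 136 [3, 3]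
  [(138, 136, [3, 3])]) (.br 1105 (.red [.f 962 1 3, .f 1089 3 5, .f 1097 5 1, .f 1097 1 3] 154
  136 [3, 3, 1] [(137, 136, [3]), (154, 136, [3, 3, 1])]) .no (.hor [.f 1105 3 5] []) .no .no .no)
  .no .no (.red [.f 962 1 3, .f 962 3 1, .t 969 3 1] 138 136 [3, 3] [(138, 136, [3, 3])])

def c27t1264 : Tr4 :=
  .br 1346 (.hor [.f 1346 1 5] []) .no (.red [.t 1345 2 3] 169 136 [3, 1, 1] [(169, 136, [3, 1,
  1])]) (.br 1339 (.red [.f 1339 1 3, .f 1338 3 5] 184 136 [1, 1, 1] [(184, 136, [1, 1, 1])]) .no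
  .no .no .no .no) .no .no

def c27t1265 : Tr4 :=
  .br 1347 (.use 1264) .no (.con 136 [3, 1, 1, 3]) (.use 421) .no (.use 359)

def c27t1266 : Tr4 :=
  .br 691 (.red [.f 691 1 3, .f 690 3 5] 103 136 [2, 2, 4] [(103, 136, [2, 2, 4])]) (.br 570 .no
  (.use 1087) (.br 937 .no (.red [.t 937 2 3, .f 818 1 3] 119 136 [2, 4] [(118, 136, [2, 4, 4]),
  (119, 136, [2, 4])]) .no (.br 809 .no (.use 57) .no (.use 977) (.red [.f 809 5 3, .f 810 3 1, .f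
  818 1 3] 119 136 [2, 4] [(118, 136, [2, 4, 4]), (119, 136, [2, 4])]) (.br 811 (.con 136 [2, 2,
  4, 4, 1, 3]) (.con 136 [2, 2, 4, 4, 1, 3]) (.use 641) (.con 136 [2, 2, 4, 4, 1, 3]) .no (.con
  136 [2, 2, 4, 4, 1, 3]))) .no .no) (.hor [.f 562 3 1, .f 562 1 5] [(87, 103, [2])]) (.hor [.t
  690 3 2, .f 569 1 5] [(87, 103, [2])]) .no) .no (.use 963) .no .no

def c27t1267 : Tr4 :=
  .br 1065 (.br 696 .no (.hor [.f 568 1 5] []) .no (.use 1266) .no .no) (.red [.f 937 1 3, .f 937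
  3 5, .f 817 5 1, .f 818 1 3] 119 136 [2, 4] [(119, 136, [2, 4]), (134, 118, [1])]) .no (.use
  1088) (.red [.t 945 1 4, .f 817 5 1, .f 818 1 3] 119 136 [2, 4] [(119, 136, [2, 4]), (134, 118,
  [1])]) .no

def c27t1268 : Tr4 :=
  .br 944 .no (.use 1137) .no (.use 293) .no .no

def c27t1269 : Tr4 :=
  .br 944 .no (.use 1131) .no (.use 293) .no .no

def c27t1270 : Tr4 :=
  .br 698 .no (.use 1268) .no (.use 1151) .no (.use 1269)

def c27t1271 : Tr4 :=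
  .br 698 .no (.use 1268) .no (.red [.f 824 5 3, .f 697 3 1, .t 697 1 4] 103 136 [2, 2, 4] [(103,
  136, [2, 2, 4]), (104, 136, [2, 2])]) .no .no

def c27t1272 : Tr4 :=
  .br 936 .no (.br 944 .no (.br 841 .no (.use 873) (.use 1152) .no (.use 1147) (.use 902)) .no .no
  .no .no) (.hor [.f 936 3 1, .f 944 1 5] [(134, 118, [1])]) (.use 830) (.red [.t 1072 4 2, .f 937
  3 5, .f 817 5 1, .f 818 1 3] 119 136 [2, 4] [(119, 136, [2, 4]), (134, 118, [1])]) .no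

def c27t1273 : Tr4 :=
  .br 817 .no (.use 939) .no (.use 836) (.br 1072 (.br 1075 (.red [.t 1074 3 1, .f 1081 1 5, .t
  961 4 1, .f 945 1 3] 136 136 [] [(135, 136, [4]), (136, 136, []), (151, 135, [1])]) .no .no (.br
  705 .no (.use 1270) (.br 841 (.hor [.t 968 4 2, .f 705 3 1, .f 705 1 5] [(105, 103, [3, 3]),
  (121, 119, [3, 3])]) .no (.use 1150) .no (.br 840 .no (.hor [.t 712 1 4, .f 705 1 5] [(105, 103,
  [3, 3])]) (.br 698 .no (.use 1268) .no (.br 697 .no (.use 1144) .no (.hor [.f 689 3 5] []) .no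
  (.red [.f 696 5 1, .t 697 1 4] 103 136 [2, 2, 4] [(103, 136, [2, 2, 4])])) .no (.use 1269)) .no
  .no .no) (.br 944 .no (.br 698 .no (.use 1137) .no (.br 697 .no (.br 936 (.br 1065 (.br 696 .no
  (.hor [.f 568 1 5] []) (.use 893) (.use 1266) .no .no) (.red [.f 937 1 3, .f 937 3 5, .f 817 5
  1, .f 818 1 3] 119 136 [2, 4] [(119, 136, [2, 4]), (134, 118, [1])]) .no (.use 1088) (.red [.t
  945 1 4, .f 817 5 1, .f 818 1 3] 119 136 [2, 4] [(119, 136, [2, 4]), (134, 118, [1])]) .no)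
  (.use 902) .no (.use 830) (.use 898) .no) .no (.hor [.f 689 3 5] []) .no (.red [.f 696 5 1, .t
  697 1 4] 103 136 [2, 2, 4] [(103, 136, [2, 2, 4])])) .no (.use 1131)) .no (.use 293) .no .no))
  (.use 1271) .no (.br 698 .no (.use 1268) .no (.br 697 .no (.br 944 .no (.br 936 (.use 1267)
  (.use 1134) .no (.use 830) (.use 867) .no) .no (.use 293) .no .no) .no (.hor [.f 689 3 5] [])
  .no (.red [.f 696 5 3, .f 696 3 5, .f 696 5 1, .t 697 1 4] 103 136 [2, 2, 4] [(103, 136, [2, 2,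
  4])])) .no (.use 1269))) .no .no) (.hor [.f 944 1 5] []) .no (.br 969 .no (.use 646) (.use 1153)
  .no (.use 1272) .no) .no .no) (.use 1033)

def c27t1274 : Tr4 :=
  .br 971 (.hor [.f 841 3 1, .f 832 3 1, .f 840 1 5] [(121, 105, [1]), (122, 105, [1, 3])]) (.hor
  [.f 835 1 3, .f 834 3 5] [(121, 105, [1])]) (.hor [.f 841 3 1, .f 832 3 1, .f 840 1 5] [(121,
  105, [1]), (122, 105, [1, 3])]) .no .no (.use 1155)

def c27t1275 : Tr4 :=
  .br 825 .no (.hor [.f 696 1 5] []) .no (.use 388) .no .no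

def c27l42 : List Tr4 :=
  [c27t1255, c27t1256, c27t1257, c27t1258, c27t1259, c27t1260, c27t1261, c27t1262, c27t1263,
  c27t1264, c27t1265, c27t1266, c27t1267, c27t1268, c27t1269, c27t1270, c27t1271, c27t1272,
  c27t1273, c27t1274, c27t1275]

theorem c27k42 : chkLF ⟨4, 1, 0, true, -8⟩ false 7 c27N 1255 c27l42 = true := by decide +kernel

def c27t1276 : Tr4 :=
  .br 1098 (.br 1225 (.red [.f 1217 1 3] 169 136 [3, 1, 1] [(169, 136, [3, 1, 1])]) .no (.use 360)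
  .no .no .no) .no (.br 1225 (.red [.f 1217 1 3] 169 136 [3, 1, 1] [(169, 136, [3, 1, 1])]) .no
  (.use 357) .no (.br 1105 (.red [.t 1105 1 4] 154 136 [3, 3, 1] [(154, 136, [3, 3, 1])]) (.hor
  [.t 1105 2 4, .f 970 1 5] [(138, 154, [2])]) (.use 1265) .no .no .no) .no) .no .no .no

def c27t1277 : Tr4 :=
  .br 713 .no (.br 714 .no (.hor [.f 585 1 5] []) (.br 712 .no (.hor [.f 584 1 5] []) (.con 136
  [2, 2, 3, 2, 3]) .no .no .no) .no .no .no) (.red [.f 713 3 1, .f 705 1 3] 105 136 [2, 2, 3]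
  [(105, 136, [2, 2, 3]), (106, 136, [2, 2, 3, 3])]) .no (.red [.t 833 2 3, .f 714 1 5] 105 136
  [2, 2, 3] [(105, 136, [2, 2, 3])]) (.red [.t 832 3 2] 105 136 [2, 2, 3] [(105, 136, [2, 2, 3])])

def c27t1278 : Tr4 :=
  .br 697 .no (.use 436) .no (.con 136 [2, 2, 2, 4]) .no .no

def c27t1279 : Tr4 :=
  .br 1072 (.br 704 .no (.use 1277) (.red [.f 704 3 1, .f 704 1 5] 105 136 [2, 2, 3] [(105, 136,
  [2, 2, 3])]) (.br 713 .no (.br 818 .no (.use 6) .no (.red [.f 810 3 1, .f 818 1 3] 119 136 [2,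
  4] [(118, 136, [2, 4, 4]), (119, 136, [2, 4])]) (.red [.t 954 2 4] 119 136 [2, 4] [(119, 136,
  [2, 4])]) (.br 944 .no (.br 698 .no (.use 1278) .no (.use 437) .no (.br 690 .no (.use 820) .no
  (.use 1165) (.use 1167) (.br 691 (.red [.f 689 5 3, .f 691 1 3] 103 136 [2, 2, 4] [(103, 136,
  [2, 2, 4])]) (.br 714 .no (.hor [.f 585 1 5] []) (.br 568 .no (.br 569 .no (.hor [.f 440 1 5]
  []) (.con 136 [2, 2, 2, 2]) (.red [.f 689 5 3, .f 561 3 1] 87 136 [2, 2, 2, 4] [(87, 136, [2, 2,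
  2, 4])]) (.br 576 .no (.red [.f 440 1 3] 72 136 [2, 2, 2, 2] [(72, 136, [2, 2, 2, 2])]) (.con
  136 [2, 2, 2, 3, 3]) .no (.red [.f 569 5 1, .t 696 3 2] 88 136 [2, 2, 2] [(88, 136, [2, 2, 2])])
  .no) .no) (.red [.f 568 3 1] 88 136 [2, 2, 2] [(88, 136, [2, 2, 2])]) (.con 136 [2, 2, 2, 4, 4])
  (.use 237) .no) .no .no .no) .no (.use 963) .no .no))) .no (.use 293) .no .no)) (.red [.f 713 3
  1, .f 705 1 3] 105 136 [2, 2, 3] [(105, 136, [2, 2, 3]), (106, 136, [2, 2, 3, 3])]) .no (.red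
  [.t 833 2 3, .f 714 1 5] 105 136 [2, 2, 3] [(105, 136, [2, 2, 3])]) (.red [.t 832 3 2] 105 136
  [2, 2, 3] [(105, 136, [2, 2, 3])])) .no .no) (.hor [.f 944 1 5] []) .no (.br 704 .no (.use 1277)
  (.red [.f 704 3 1, .f 704 1 5] 105 136 [2, 2, 3] [(105, 136, [2, 2, 3])]) (.br 936 .no (.br 816
  (.br 818 .no (.use 6) .no (.hor [.f 808 1 3, .f 936 3 1, .f 944 1 5, .f 810 3 1] [(134, 119, [4,
  1])]) (.red [.t 954 2 4] 119 136 [2, 4] [(119, 136, [2, 4])]) (.br 937 (.red [.f 937 1 3, .f 937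
  3 5, .f 817 5 1, .f 818 1 3] 119 136 [2, 4] [(119, 136, [2, 4]), (134, 118, [1])]) (.hor [.f 808
  1 5] []) .no (.br 698 .no (.use 1278) .no (.use 437) .no (.br 809 .no (.br 819 .no (.red [.f 691
  1 3] 103 136 [2, 2, 4] [(103, 136, [2, 2, 4])]) .no (.use 1222) .no .no) .no (.hor [.f 808 1 3,
  .f 801 3 1, .f 808 3 1, .f 808 1 5] [(117, 136, [2, 4, 4, 4])]) (.red [.f 809 5 3, .f 810 3 1,
  .f 818 1 3] 119 136 [2, 4] [(118, 136, [2, 4, 4]), (119, 136, [2, 4])]) .no)) .no .no)) (.con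
  136 [2, 4, 4, 1, 3, 2]) .no .no (.con 136 [2, 4, 4, 1, 3, 2]) .no) (.hor [.f 936 3 1, .f 944 1
  5] [(134, 118, [1])]) (.use 831) (.hor [.t 1072 4 2, .f 937 3 5] [(134, 119, [1, 4])]) .no) .no
  .no) .no .no

def c27t1280 : Tr4 :=
  .br 569 (.hor [.f 568 1 5] []) (.con 136 [2, 2, 2, 4]) (.con 136 [2, 2, 2, 4]) (.con 136 [2, 2,
  2, 4]) (.con 136 [2, 2, 2, 4]) .no

def c27t1281 : Tr4 :=
  .br 1203 (.br 824 .no (.use 1275) .no (.use 533) (.br 971 (.use 1276) (.hor [.f 835 1 3, .f 834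
  3 5] [(121, 105, [1])]) (.br 843 .no (.br 706 .no (.use 1279) (.red [.f 706 3 1, .f 705 1 5] 105
  136 [2, 2, 3] [(105, 136, [2, 2, 3])]) (.br 704 .no (.br 1072 (.br 818 .no (.use 6) .no (.red
  [.f 810 3 1, .f 818 1 3] 119 136 [2, 4] [(118, 136, [2, 4, 4]), (119, 136, [2, 4])]) (.red [.t
  954 2 4] 119 136 [2, 4] [(119, 136, [2, 4])]) (.br 944 .no (.br 696 .no (.use 1280) .no (.br 690
  .no (.use 820) .no (.use 1165) (.use 1198) (.red [.f 689 5 1, .t 688 3 1] 103 136 [2, 2, 4]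
  [(103, 136, [2, 2, 4])])) (.use 1199) .no) .no (.use 293) .no .no)) (.hor [.f 944 1 5] []) .no
  (.br 936 .no (.br 944 .no (.br 817 .no (.br 696 .no (.use 1280) .no (.red [.t 688 3 1] 103 136
  [2, 2, 4] [(103, 136, [2, 2, 4])]) (.red [.f 696 5 1, .f 689 1 3] 103 136 [2, 2, 4] [(103, 136,
  [2, 2, 4])]) .no) .no (.use 833) (.br 937 (.red [.f 937 1 3, .f 937 3 5, .f 817 5 1, .f 818 1 3]
  119 136 [2, 4] [(119, 136, [2, 4]), (134, 118, [1])]) (.hor [.f 808 1 5] []) .no (.br 1065 (.br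
  696 .no (.use 1280) .no (.br 690 .no (.use 820) .no (.use 1126) (.use 1224) (.red [.f 689 5 1,
  .t 688 3 1] 103 136 [2, 2, 4] [(103, 136, [2, 2, 4])])) (.br 690 .no (.use 820) .no (.use 842)
  (.use 1224) (.red [.f 696 5 1, .f 689 5 1, .f 689 1 3] 103 136 [2, 2, 4] [(103, 136, [2, 2,
  4])])) .no) .no .no (.hor [.f 929 3 1, .f 937 1 3, .f 1064 3 5] [(133, 119, [4, 1, 4]), (134,
  119, [4, 1])]) (.hor [.f 808 1 3, .f 808 3 1, .t 945 1 4, .f 1064 3 5] [(134, 119, [4, 1])])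
  .no) .no .no) .no) .no .no .no .no) (.hor [.f 936 3 1, .f 944 1 5] [(134, 118, [1])]) (.use 831)
  (.hor [.t 1072 4 2, .f 937 3 5] [(134, 119, [1, 4])]) .no) .no .no) (.red [.f 704 3 1, .f 704 1
  5] 105 136 [2, 2, 3] [(105, 136, [2, 2, 3])]) (.con 136 [2, 2, 2]) .no .no) (.red [.t 842 4 2,
  .f 705 1 5] 105 136 [2, 2, 3] [(105, 136, [2, 2, 3])]) .no) (.hor [.f 843 3 1, .f 835 1 3, .f
  834 3 5] [(121, 105, [1]), (122, 106, [1])]) .no .no .no) .no .no .no) .no) .no .no (.hor [.f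
  1067 3 1, .t 1074 3 1, .f 1081 1 5] [(150, 119, [1, 1, 4]), (151, 119, [1, 1])]) .no (.red [.f
  1202 5 3, .f 1074 3 1, .f 1081 1 5, .t 961 4 1, .f 945 1 3] 136 136 [] [(135, 136, [4]), (136,
  136, []), (151, 135, [1])])

def c27t1282 : Tr4 :=
  .br 1099 (.con 136 [3, 3, 1]) .no (.red [.f 971 3 1, .f 970 1 5] 138 136 [3, 3] [(138, 136, [3,
  3])]) .no .no .no

def c27t1283 : Tr4 :=
  .br 971 (.hor [.f 970 1 5] []) (.hor [.f 835 1 3, .f 834 3 5] [(121, 136, [2, 3])]) (.use 1282)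
  .no .no .no

def c27t1284 : Tr4 :=
  .br 691 (.red [.f 691 1 3, .f 690 3 5] 103 136 [2, 2, 4] [(103, 136, [2, 2, 4])]) (.br 570 .no
  (.use 1034) (.br 809 .no (.use 57) .no (.use 977) (.red [.f 809 5 3, .f 810 3 1, .f 818 1 3] 119
  136 [2, 4] [(118, 136, [2, 4, 4]), (119, 136, [2, 4])]) (.use 1189)) (.hor [.f 562 3 1, .f 562 1
  5] [(87, 103, [2])]) (.hor [.t 690 3 2, .f 569 1 5] [(87, 103, [2])]) .no) .no (.use 963) .no
  .no

def c27t1285 : Tr4 :=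
  .br 937 (.red [.f 937 1 3, .f 937 3 5, .f 817 5 1, .f 818 1 3] 119 136 [2, 4] [(119, 136, [2,
  4]), (134, 118, [1])]) (.red [.t 937 2 3, .f 818 1 3] 119 136 [2, 4] [(118, 136, [2, 4, 4]),
  (119, 136, [2, 4])]) .no (.br 936 (.br 690 .no (.use 820) (.br 697 .no (.br 696 .no (.hor [.f
  568 1 5] []) .no (.use 1284) .no .no) .no (.hor [.f 689 3 5] []) .no (.red [.f 696 5 3, .f 696 3
  5, .f 696 5 1, .t 697 1 4] 103 136 [2, 2, 4] [(103, 136, [2, 2, 4])])) (.use 1164) (.use 843)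
  (.use 1176)) (.use 1191) .no (.use 830) .no .no) .no (.use 1174)

def c27t1286 : Tr4 :=
  .br 811 (.con 136 [2, 2, 4, 4, 1, 3]) (.con 136 [2, 2, 4, 4, 1, 3]) (.use 1204) (.con 136 [2, 2,
  4, 4, 1, 3]) .no (.con 136 [2, 2, 4, 4, 1, 3])

def c27t1287 : Tr4 :=
  .br 706 .no (.use 1225) (.hor [.f 705 3 5] []) .no (.br 843 .no (.br 577 .no (.use 1196) (.red
  [.f 577 3 1, .f 569 1 3] 89 136 [2, 2, 2, 3] [(88, 136, [2, 2, 2]), (89, 136, [2, 2, 2, 3])])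
  .no (.br 576 .no (.br 691 (.red [.f 691 1 3, .f 690 3 5] 103 136 [2, 2, 4] [(103, 136, [2, 2,
  4])]) (.use 1286) .no (.use 963) .no .no) (.use 1205) (.red [.f 568 3 1, .f 568 1 5] 88 136 [2,
  2, 2] [(88, 136, [2, 2, 2])]) .no .no) (.red [.t 696 3 2] 88 136 [2, 2, 2] [(88, 136, [2, 2,
  2])])) (.use 1241) .no .no .no) .no

def c27t1288 : Tr4 :=
  .br 707 .no (.hor [.f 578 1 5] []) (.con 136 [2, 2, 2, 3]) .no .no .no

def c27t1289 : Tr4 :=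
  .br 696 .no (.use 1247) (.br 697 .no (.use 1248) (.hor [.f 696 3 5] []) .no (.br 705 .no (.use
  1168) (.br 706 .no (.use 1288) (.hor [.f 705 3 5] []) .no (.br 843 .no (.br 691 (.red [.f 689 5
  3, .f 691 1 3] 103 136 [2, 2, 4] [(103, 136, [2, 2, 4])]) (.use 1209) .no (.use 963) .no .no)
  (.use 1249) .no .no .no) .no) .no (.use 1186) .no) .no) (.red [.f 689 5 1, .t 688 3 1] 103 136
  [2, 2, 4] [(103, 136, [2, 2, 4])]) (.red [.f 696 5 1, .f 689 5 1, .f 689 1 3] 103 136 [2, 2, 4]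
  [(103, 136, [2, 2, 4])]) .no

def c27t1290 : Tr4 :=
  .br 843 .no (.use 1231) (.use 1251) .no .no .no

def c27t1291 : Tr4 :=
  .br 843 .no (.br 707 .no (.use 1202) .no .no .no (.use 1215)) (.use 1252) .no .no .no

def c27t1292 : Tr4 :=
  .br 979 (.br 937 (.red [.f 937 1 3, .f 937 3 5, .f 817 5 1, .f 818 1 3] 119 136 [2, 4] [(119,
  136, [2, 4]), (134, 118, [1])]) (.red [.t 937 2 3, .f 818 1 3] 119 136 [2, 4] [(118, 136, [2, 4,
  4]), (119, 136, [2, 4])]) .no (.br 936 (.br 690 .no (.use 820) (.br 697 .no (.br 696 .no (.hor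
  [.f 568 1 5] []) (.br 705 .no (.red [.f 569 1 3] 88 136 [2, 2, 2] [(88, 136, [2, 2, 2])]) (.use
  1287) .no (.br 577 .no (.use 1171) (.br 714 .no (.red [.t 585 4 1, .f 569 1 3, .f 696 3 5] 88
  136 [2, 2, 2] [(88, 136, [2, 2, 2]), (89, 136, [2, 2, 2, 3])]) (.br 843 .no (.use 1226) (.use
  1239) .no .no .no) .no (.use 1245) (.red [.f 705 5 3, .f 577 3 1, .f 569 1 3] 88 136 [2, 2, 2]
  [(88, 136, [2, 2, 2]), (89, 136, [2, 2, 2, 3])])) .no (.red [.f 577 5 1, .f 569 1 3] 88 136 [2,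
  2, 2] [(88, 136, [2, 2, 2])]) (.red [.t 696 3 2] 88 136 [2, 2, 2] [(88, 136, [2, 2, 2])])) .no)
  (.use 1284) .no .no) (.red [.f 824 5 3, .f 697 3 1, .t 697 1 4] 103 136 [2, 2, 4] [(103, 136,
  [2, 2, 4]), (104, 136, [2, 2])]) (.hor [.f 689 3 5] []) .no (.red [.f 696 5 1, .t 697 1 4] 103
  136 [2, 2, 4] [(103, 136, [2, 2, 4])])) (.use 1164) (.use 843) (.use 1289)) (.use 1290) .no
  (.use 830) .no .no) .no (.use 1291)) (.br 937 (.red [.f 937 1 3, .f 937 3 5, .f 817 5 1, .f 818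
  1 3] 119 136 [2, 4] [(119, 136, [2, 4]), (134, 118, [1])]) (.red [.t 937 2 3, .f 818 1 3] 119
  136 [2, 4] [(118, 136, [2, 4, 4]), (119, 136, [2, 4])]) .no (.br 936 (.br 690 .no (.use 820)
  (.br 697 .no (.br 696 .no (.hor [.f 568 1 5] []) (.br 705 .no (.red [.f 569 1 3] 88 136 [2, 2,
  2] [(88, 136, [2, 2, 2])]) (.use 1287) .no (.br 577 .no (.use 1171) (.br 714 .no (.red [.t 585 4
  1, .f 569 1 3, .f 696 3 5] 88 136 [2, 2, 2] [(88, 136, [2, 2, 2]), (89, 136, [2, 2, 2, 3])])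
  (.br 578 .no (.use 1244) (.hor [.f 577 3 5] []) (.red [.t 569 1 3, .f 696 3 5] 88 136 [2, 2, 2]
  [(88, 136, [2, 2, 2])]) (.br 713 .no .no (.hor [.f 713 3 5] []) .no .no (.con 136 [2, 2, 2, 3,
  3, 1, 1, 1, 1])) .no) .no (.con 136 [2, 2, 3, 3, 1, 1, 1]) (.red [.f 705 5 3, .f 577 3 1, .f 569
  1 3] 88 136 [2, 2, 2] [(88, 136, [2, 2, 2]), (89, 136, [2, 2, 2, 3])])) .no (.red [.f 577 5 1,
  .f 569 1 3] 88 136 [2, 2, 2] [(88, 136, [2, 2, 2])]) (.red [.t 696 3 2] 88 136 [2, 2, 2] [(88,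
  136, [2, 2, 2])])) .no) (.use 1284) .no .no) (.red [.f 824 5 3, .f 697 3 1, .t 697 1 4] 103 136
  [2, 2, 4] [(103, 136, [2, 2, 4]), (104, 136, [2, 2])]) (.hor [.f 689 3 5] []) .no (.red [.f 696
  5 1, .t 697 1 4] 103 136 [2, 2, 4] [(103, 136, [2, 2, 4])])) (.use 1164) (.use 843) (.use 1289))
  (.use 1290) .no (.use 830) .no .no) .no (.use 1291)) (.hor [.f 978 3 5] []) .no .no .no

def c27t1293 : Tr4 :=
  .br 936 (.br 1065 (.br 691 (.red [.f 691 1 3] 103 136 [2, 2, 4] [(103, 136, [2, 2, 4])]) (.br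
  690 .no (.use 820) (.br 697 .no (.br 705 .no (.br 704 .no (.hor [.f 576 1 5] []) (.br 696 .no
  (.hor [.f 568 1 5] []) .no (.br 570 .no (.use 1087) (.hor [.f 569 1 3, .f 569 3 5] [(88, 136,
  [2, 2, 2])]) (.hor [.f 562 3 1, .f 562 1 5] [(87, 103, [2])]) (.hor [.t 690 3 2, .f 569 1 5]
  [(87, 103, [2])]) .no) .no .no) (.use 1169) .no .no) (.br 704 .no (.br 696 .no (.hor [.f 568 1
  5] []) .no (.br 570 .no (.use 1087) (.br 579 .no (.use 979) (.red [.t 842 4 2, .f 579 3 1] 89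
  136 [2, 2, 2, 3] [(89, 136, [2, 2, 2, 3]), (105, 136, [2, 2, 3])]) (.hor [.f 570 3 5] []) .no
  .no) (.hor [.f 562 3 1, .f 562 1 5] [(87, 103, [2])]) (.hor [.t 690 3 2, .f 569 1 5] [(87, 103,
  [2])]) .no) .no .no) (.hor [.f 704 3 5] []) (.br 577 .no (.use 1196) (.red [.f 577 3 1, .f 569 1
  3] 89 136 [2, 2, 2, 3] [(88, 136, [2, 2, 2]), (89, 136, [2, 2, 2, 3])]) .no (.br 576 .no (.br
  937 .no (.red [.t 937 2 3, .f 818 1 3] 119 136 [2, 4] [(118, 136, [2, 4, 4]), (119, 136, [2,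
  4])]) .no (.use 1286) .no .no) (.use 1205) (.red [.f 568 3 1, .f 568 1 5] 88 136 [2, 2, 2] [(88,
  136, [2, 2, 2])]) .no .no) (.red [.t 696 3 2] 88 136 [2, 2, 2] [(88, 136, [2, 2, 2])])) .no .no)
  .no .no (.use 1285)) (.red [.f 824 5 3, .f 697 3 1, .t 697 1 4] 103 136 [2, 2, 4] [(103, 136,
  [2, 2, 4]), (104, 136, [2, 2])]) (.hor [.f 689 3 5] []) .no (.red [.f 696 5 1, .t 697 1 4] 103
  136 [2, 2, 4] [(103, 136, [2, 2, 4])])) (.use 1165) .no (.use 1210)) .no (.use 963) .no (.use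
  874)) (.red [.f 937 1 3, .f 937 3 5, .f 817 5 1, .f 818 1 3] 119 136 [2, 4] [(119, 136, [2, 4]),
  (134, 118, [1])]) .no (.use 1088) (.red [.t 945 1 4, .f 817 5 1, .f 818 1 3] 119 136 [2, 4]
  [(119, 136, [2, 4]), (134, 118, [1])]) .no) (.br 937 (.red [.f 937 1 3, .f 937 3 5, .f 817 5 1,
  .f 818 1 3] 119 136 [2, 4] [(119, 136, [2, 4]), (134, 118, [1])]) (.hor [.f 808 1 5] []) .no
  (.use 1213) .no .no) .no (.use 830) (.use 1215) .no

def c27t1294 : Tr4 :=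
  .br 944 .no (.br 707 .no (.use 1202) .no .no .no (.use 1293)) .no (.use 293) .no .no

def c27l43 : List Tr4 :=
  [c27t1276, c27t1277, c27t1278, c27t1279, c27t1280, c27t1281, c27t1282, c27t1283, c27t1284,
  c27t1285, c27t1286, c27t1287, c27t1288, c27t1289, c27t1290, c27t1291, c27t1292, c27t1293,
  c27t1294]

theorem c27k43 : chkLF ⟨4, 1, 0, true, -8⟩ false 7 c27N 1276 c27l43 = true := by decide +kernel

def c27t1295 : Tr4 :=
  .br 937 .no (.hor [.f 808 1 5] []) .no (.hor [.f 929 3 1, .f 937 1 3, .f 1064 3 5] [(133, 136,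
  [4, 4, 4]), (134, 136, [4, 4])]) .no .no

def c27t1296 : Tr4 :=
  .br 1347 (.use 1264) .no (.con 136 [3, 1, 1, 3]) (.use 376) .no (.br 1072 (.br 841 .no (.br 944
  .no (.br 704 .no (.use 1182) (.hor [.t 712 4 1, .f 833 3 5] [(105, 136, [2, 2, 3])]) (.use 1188)
  (.br 706 .no (.use 1175) (.hor [.f 706 3 1, .f 713 1 5] [(105, 136, [2, 2, 3])]) (.use 1178)
  (.use 1285) .no) .no) .no (.use 293) .no .no) (.hor [.t 834 3 1, .f 841 3 1, .f 841 1 5] [(121,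
  119, [3, 3]), (122, 154, [2, 2])]) .no .no (.br 1105 (.red [.f 970 5 1, .f 962 1 3, .f 1089 3 5,
  .f 1097 5 1, .f 1097 1 3] 154 136 [3, 3, 1] [(137, 136, [3]), (154, 136, [3, 3, 1])]) .no (.br
  1106 (.use 1237) (.br 1353 (.use 274) .no (.br 1233 .no .no (.br 1234 (.red [.t 1361 4 2, .f
  1217 1 3] 170 136 [3, 3, 1, 1] [(169, 136, [3, 1, 1]), (170, 136, [3, 3, 1, 1])]) .no (.hor [.f
  1233 3 5] []) .no (.red [.f 1105 3 1] 155 136 [3, 3, 1, 3] [(155, 136, [3, 3, 1, 3])]) .no) .no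
  (.red [.f 1225 5 3, .f 1225 3 1, .f 1217 1 3] 170 136 [3, 3, 1, 1] [(169, 136, [3, 1, 1]), (170,
  136, [3, 3, 1, 1])]) (.red [.t 1352 2 3, .f 1096 3 1] 154 136 [3, 3, 1] [(154, 136, [3, 3, 1]),
  (170, 136, [3, 3, 1, 1])])) .no (.red [.f 1225 5 1, .f 1217 1 3] 169 136 [3, 1, 1] [(169, 136,
  [3, 1, 1])]) .no) (.hor [.f 1105 3 5] []) .no (.br 1353 (.use 274) .no (.br 1233 .no .no (.red
  [.f 1105 3 1] 155 136 [3, 3, 3, 1] [(155, 136, [3, 3, 3, 1])]) .no (.red [.f 1225 5 3, .f 1225 3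
  1, .f 1217 1 3] 170 136 [3, 3, 1, 1] [(169, 136, [3, 1, 1]), (170, 136, [3, 3, 1, 1])]) (.red
  [.t 1352 2 3, .f 1096 3 1] 154 136 [3, 3, 1] [(154, 136, [3, 3, 1]), (170, 136, [3, 3, 1, 1])]))
  .no (.red [.f 1225 5 1, .f 1217 1 3] 169 136 [3, 1, 1] [(169, 136, [3, 1, 1])]) .no) .no) .no
  (.br 978 .no (.hor [.t 834 3 1, .f 842 1 3, .f 969 3 5] [(121, 119, [3, 3]), (122, 154, [2,
  2])]) (.br 944 .no (.br 976 .no (.hor [.t 976 2 4, .t 968 4 2, .f 833 3 5] [(121, 119, [3, 3]),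
  (122, 154, [2, 2])]) (.use 1292) .no .no .no) .no (.use 293) .no .no) .no (.br 843 .no (.use
  1294) (.hor [.t 834 3 1, .t 842 1 3, .f 969 3 5] [(121, 119, [3, 3]), (122, 154, [2, 2])]) .no
  .no .no) .no) .no)) (.hor [.f 944 1 5] []) .no (.br 936 .no (.br 944 .no (.br 1065 (.use 1255)
  (.red [.f 937 1 3, .f 937 3 5, .f 817 5 1, .f 818 1 3] 119 136 [2, 4] [(119, 136, [2, 4]), (134,
  118, [1])]) .no (.use 1295) (.hor [.f 808 1 3, .f 808 3 1, .t 945 1 4, .f 1064 3 5] [(134, 119,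
  [4, 1])]) .no) .no .no .no .no) (.hor [.f 936 3 1, .f 944 1 5] [(134, 118, [1])]) (.use 830)
  (.red [.t 1072 4 2, .f 937 3 5, .f 817 5 1, .f 818 1 3] 119 136 [2, 4] [(119, 136, [2, 4]),
  (134, 118, [1])]) .no) .no .no)

def c27t1297 : Tr4 :=
  .br 696 .no (.hor [.f 568 1 3, .f 696 3 5] [(88, 103, [3, 2])]) .no (.br 698 .no (.br 944 .no
  (.use 1157) .no (.use 61) .no .no) .no (.red [.f 824 5 3, .f 697 3 1, .t 697 1 4] 103 136 [2, 2,
  4] [(103, 136, [2, 2, 4]), (104, 136, [2, 2])]) .no .no) .no .no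

def c27t1298 : Tr4 :=
  .br 944 .no (.use 1161) .no (.use 293) .no .no

def c27t1299 : Tr4 :=
  .br 706 .no (.br 944 .no (.use 1175) .no (.use 293) .no .no) (.hor [.f 704 5 1, .f 704 1 5, .f
  706 3 1, .f 714 1 5] [(105, 136, [2, 2, 3])]) (.br 944 .no (.use 1178) .no (.use 293) .no .no)
  (.br 944 .no (.use 1285) .no (.use 293) .no .no) .no

def c27t1300 : Tr4 :=
  .br 841 .no (.br 704 .no (.br 705 .no (.hor [.f 576 1 5] []) .no (.br 706 .no (.use 650) (.hor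
  [.f 706 3 1, .f 713 1 5] [(105, 136, [2, 2, 3])]) (.hor [.f 697 3 5] []) (.use 1297) .no) (.use
  1298) .no) (.hor [.t 712 4 1, .f 833 3 5] [(105, 136, [2, 2, 3])]) (.br 705 .no (.br 706 .no
  (.hor [.f 577 1 5] []) (.hor [.f 706 3 1, .f 713 1 5] [(105, 136, [2, 2, 3])]) (.con 136 [2, 2,
  2]) (.br 697 .no (.red [.f 569 1 3] 88 136 [2, 2, 2] [(88, 136, [2, 2, 2])]) .no (.use 1162)
  (.br 944 .no (.use 1168) .no (.use 293) .no .no) .no) .no) .no (.hor [.f 696 3 5] []) (.br 697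
  .no (.use 1172) .no (.use 1183) (.br 944 .no (.use 1187) .no (.use 293) .no .no) .no) .no) (.use
  1299) .no) (.br 840 .no (.br 704 .no (.br 705 .no (.hor [.f 576 1 5] []) (.br 944 .no (.br 819
  .no (.red [.f 691 1 3] 103 136 [2, 2, 4] [(103, 136, [2, 2, 4])]) .no (.br 690 .no (.use 51)
  (.br 697 .no (.br 696 .no (.hor [.f 568 1 5] []) .no (.br 937 (.red [.f 937 1 3, .f 937 3 5, .f
  817 5 1, .f 818 1 3] 119 136 [2, 4] [(119, 136, [2, 4]), (134, 118, [1])]) (.red [.t 937 2 3, .f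
  818 1 3] 119 136 [2, 4] [(118, 136, [2, 4, 4]), (119, 136, [2, 4])]) .no (.br 936 (.use 1284)
  (.use 819) .no (.use 830) .no .no) .no (.use 143)) .no .no) .no (.hor [.f 689 3 5] []) .no (.red
  [.f 696 5 1, .t 697 1 4] 103 136 [2, 2, 4] [(103, 136, [2, 2, 4])])) (.use 1165) (.br 937 (.red
  [.f 937 1 3, .f 937 3 5, .f 817 5 1, .f 818 1 3] 119 136 [2, 4] [(119, 136, [2, 4]), (134, 118,
  [1])]) (.red [.t 937 2 3, .f 818 1 3] 119 136 [2, 4] [(118, 136, [2, 4, 4]), (119, 136, [2,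
  4])]) .no (.use 88) .no (.use 101)) (.use 1200)) .no .no) .no (.use 293) .no .no) (.br 706 .no
  (.use 650) (.hor [.f 706 3 1, .f 714 1 5] [(105, 136, [2, 2, 3])]) (.hor [.f 697 3 5] []) (.use
  1297) .no) (.use 1298) .no) .no (.br 944 .no (.br 706 .no (.br 705 .no (.hor [.f 577 1 5] [])
  (.use 1288) (.use 650) .no .no) (.hor [.f 706 3 1, .f 714 1 5] [(105, 136, [2, 2, 3])]) (.br 705
  .no (.con 136 [2, 2, 2]) (.con 136 [2, 2, 2]) (.hor [.f 696 3 5] []) .no .no) (.use 1293) (.br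
  697 .no (.br 698 .no (.hor [.f 569 1 5] []) .no (.use 1227) .no .no) .no (.use 1195) (.use 1187)
  .no)) .no (.use 293) .no .no) (.use 1299) .no) (.hor [.f 840 3 5] []) .no .no .no) .no .no (.use
  1294)

def c27t1301 : Tr4 :=
  .br 834 .no (.br 833 .no (.hor [.f 705 1 5] []) (.use 1129) (.red [.f 825 3 1, .f 825 1 5, .t
  1073 2 3, .f 954 1 3, .t 961 2 4] 136 136 [] [(135, 136, [4]), (136, 136, [])]) .no (.br 824 .no
  (.use 841) .no (.use 599) (.use 1273) .no)) (.br 833 .no (.br 832 .no (.hor [.f 704 1 5] [])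
  (.br 841 (.hor [.f 832 3 1, .f 840 1 5] [(121, 105, [1])]) (.red [.f 705 1 3] 105 136 [2, 2, 3]
  [(105, 136, [2, 2, 3])]) (.br 969 .no .no (.use 1274) .no (.br 1075 (.red [.t 1074 3 1, .f 1081
  1 5, .t 961 4 1, .f 945 1 3] 136 136 [] [(135, 136, [4]), (136, 136, []), (151, 135, [1])]) .no
  .no (.use 1281) .no .no) .no) .no .no .no) (.use 539) .no .no) (.hor [.f 833 3 5] []) (.red [.f
  825 3 1, .f 825 1 5, .t 1073 2 3, .f 954 1 3, .t 961 2 4] 136 136 [] [(135, 136, [4]), (136,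
  136, [])]) .no (.br 824 .no (.use 841) .no (.use 599) (.br 817 .no (.use 939) .no (.use 836)
  (.br 1075 (.red [.t 1074 3 1, .f 1081 1 5, .t 961 4 1, .f 945 1 3] 136 136 [] [(135, 136, [4]),
  (136, 136, []), (151, 135, [1])]) .no .no (.br 1203 (.br 969 .no (.hor [.t 968 4 2, .f 833 3 5]
  [(121, 119, [3, 3])]) (.br 970 (.use 1283) .no (.hor [.f 969 3 5] []) .no (.br 1098 (.br 1099
  (.hor [.f 1098 1 5] []) .no (.use 381) .no .no .no) .no (.use 397) .no (.br 1225 (.red [.f 1217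
  1 3] 169 136 [3, 1, 1] [(169, 136, [3, 1, 1])]) .no (.use 226) .no (.use 1296) .no) .no) .no)
  .no (.br 971 (.use 1276) (.hor [.f 835 1 3, .f 834 3 5] [(121, 119, [3, 3])]) (.br 1072 (.br 843
  .no (.use 1300) (.hor [.f 843 3 1, .f 835 1 3, .f 834 3 5] [(121, 119, [3, 3]), (122, 119, [3,
  3, 3])]) .no .no .no) (.hor [.f 944 1 5] []) .no (.br 936 .no (.br 1065 (.br 843 .no (.br 944
  .no (.use 1229) .no .no .no .no) (.hor [.f 843 3 1, .f 835 1 3, .f 834 3 5] [(121, 119, [3, 3]),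
  (122, 119, [3, 3, 3])]) .no .no .no) (.red [.f 937 1 3, .f 937 3 5, .f 817 5 1, .f 818 1 3] 119
  136 [2, 4] [(119, 136, [2, 4]), (134, 118, [1])]) .no (.use 1295) (.red [.t 945 1 4, .f 817 5 1,
  .f 818 1 3] 119 136 [2, 4] [(119, 136, [2, 4]), (134, 118, [1])]) .no) (.hor [.f 936 3 1, .f 944
  1 5] [(134, 118, [1])]) (.use 830) (.red [.t 1072 4 2, .f 937 3 5, .f 817 5 1, .f 818 1 3] 119
  136 [2, 4] [(119, 136, [2, 4]), (134, 118, [1])]) .no) .no .no) .no .no .no) .no) .no .no (.hor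
  [.f 1067 3 1, .t 1074 3 1, .f 1081 1 5] [(150, 119, [1, 1, 4]), (151, 119, [1, 1])]) .no (.red
  [.f 1202 5 3, .f 1074 3 1, .f 1081 1 5, .t 961 4 1, .f 945 1 3] 136 136 [] [(135, 136, [4]),
  (136, 136, []), (151, 135, [1])])) .no .no) (.use 1033)) .no)) .no .no (.red [.t 953 3 2, .t
  1073 2 3, .f 954 1 3, .f 826 3 1] 136 136 [] [(135, 136, [4]), (136, 136, [])])

def c27t1302 : Tr4 :=
  .br 1234 (.con 136 [3, 1, 3, 1]) .no (.con 136 [3, 1, 3, 1]) (.hor [.f 1225 3 5] []) (.con 136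
  [3, 1, 3, 1]) .no

def c27t1303 : Tr4 :=
  .br 978 .no (.br 976 .no (.con 136 [3, 3, 3, 2]) (.hor [.f 976 3 5] []) .no .no .no) (.hor [.f
  977 3 5] []) .no (.red [.f 962 1 3, .f 962 3 1, .t 1098 2 3] 138 136 [3, 3] [(138, 136, [3,
  3])]) .no

def c27t1304 : Tr4 :=
  .br 1105 (.red [.f 962 1 3, .f 1089 3 5, .f 1097 5 1, .f 1097 1 3] 154 136 [3, 1, 3] [(137, 136,
  [3]), (154, 136, [3, 1, 3])]) .no (.hor [.f 1105 3 5] []) .no .no .no

def c27t1305 : Tr4 :=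
  .br 978 .no (.br 1105 (.red [.f 962 1 3, .f 1089 3 5, .f 1097 5 1, .f 1097 1 3] 154 136 [3, 3,
  1] [(137, 136, [3]), (154, 136, [3, 3, 1])]) (.con 136 [3, 3, 3]) (.hor [.f 1105 3 5] []) .no
  .no .no) (.red [.f 978 3 1] 139 136 [3, 3, 3] [(139, 136, [3, 3, 3])]) .no (.red [.f 962 1 3, .f
  962 3 1, .t 1098 2 3] 138 136 [3, 3] [(138, 136, [3, 3])]) (.use 1304)

def c27t1306 : Tr4 :=
  .br 977 .no (.red [.f 841 1 3] 122 136 [2, 3, 3] [(122, 136, [2, 3, 3])]) (.use 1303) .no (.red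
  [.f 977 5 1, .f 970 1 3] 138 136 [3, 3] [(138, 136, [3, 3])]) (.red [.t 968 4 2, .f 968 5 3, .t
  969 3 1] 138 136 [3, 3] [(121, 122, [4]), (138, 136, [3, 3])])

def c27t1307 : Tr4 :=
  .br 1106 (.use 465) (.red [.f 962 1 3, .f 962 3 1, .f 970 1 3, .f 1098 3 5] 138 136 [3, 3]
  [(138, 136, [3, 3])]) (.use 1305) .no .no (.use 1306)

def c27t1308 : Tr4 :=
  .br 1225 (.red [.f 1217 1 3] 169 136 [3, 1, 1] [(169, 136, [3, 1, 1])]) .no (.use 1261) .no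
  (.use 1263) .no

def c27t1309 : Tr4 :=
  .br 969 .no .no (.use 1308) .no .no .no

def c27t1310 : Tr4 :=
  .br 1106 (.con 136 [3, 3, 1, 3]) (.red [.f 962 1 3, .f 962 3 1, .f 970 1 3, .f 1098 3 5] 138 136
  [3, 3] [(138, 136, [3, 3])]) (.use 1302) .no .no (.br 1226 (.con 136 [3, 3, 1, 1]) .no (.red [.f
  962 1 3, .f 1089 3 5, .f 1097 5 3, .f 1098 3 1] 154 136 [3, 3, 1] [(137, 136, [3]), (154, 136,
  [3, 3, 1])]) .no (.con 136 [3, 3, 1, 1]) .no)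

def c27t1311 : Tr4 :=
  .br 1353 (.br 1227 (.red [.f 1210 5 3, .f 1211 3 1, .f 1219 1 3] 169 136 [3, 1, 1] [(168, 136,
  [1, 1]), (169, 136, [3, 1, 1])]) .no (.con 136 [3, 1, 3, 1]) .no .no .no) .no (.br 1227 (.red
  [.f 1210 5 3, .f 1211 3 1, .f 1219 1 3] 169 136 [3, 1, 1] [(168, 136, [1, 1]), (169, 136, [3, 1,
  1])]) .no (.con 136 [3, 1, 3, 1]) .no .no .no) .no (.red [.f 1225 5 1, .f 1217 1 3] 169 136 [3,
  1, 1] [(169, 136, [3, 1, 1])]) .no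

def c27t1312 : Tr4 :=
  .br 1353 (.use 274) .no (.br 1227 (.red [.f 1218 5 1, .f 1219 1 3] 169 136 [3, 1, 1] [(169, 136,
  [3, 1, 1])]) .no (.con 136 [3, 1, 3, 1]) .no .no .no) .no (.red [.f 1225 5 1, .f 1217 1 3] 169
  136 [3, 1, 1] [(169, 136, [3, 1, 1])]) .no

def c27t1313 : Tr4 :=
  .br 1347 (.use 1264) .no (.con 136 [3, 1, 1, 3]) (.use 1311) .no (.use 1312)

def c27t1314 : Tr4 :=
  .br 825 .no (.red [.f 689 1 3] 103 136 [2, 2, 4] [(103, 136, [2, 2, 4])]) .no .no .no .no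

def c27t1315 : Tr4 :=
  .br 1227 (.red [.f 1218 5 1, .f 1219 1 3] 169 136 [3, 1, 1] [(169, 136, [3, 1, 1])]) .no (.con
  136 [3, 1, 3, 1]) .no .no .no

def c27t1316 : Tr4 :=
  .br 1347 (.use 1264) .no (.con 136 [3, 1, 1, 3]) (.use 376) .no (.use 1315)

def c27l44 : List Tr4 :=
  [c27t1295, c27t1296, c27t1297, c27t1298, c27t1299, c27t1300, c27t1301, c27t1302, c27t1303,
  c27t1304, c27t1305, c27t1306, c27t1307, c27t1308, c27t1309, c27t1310, c27t1311, c27t1312,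
  c27t1313, c27t1314, c27t1315, c27t1316]

theorem c27k44 : chkLF ⟨4, 1, 0, true, -8⟩ false 7 c27N 1295 c27l44 = true := by decide +kernel

def c27t1317 : Tr4 :=
  .br 1210 (.br 963 .no (.br 827 .no (.br 1225 (.red [.f 1217 1 3] 169 136 [3, 1, 1] [(169, 136,
  [3, 1, 1])]) .no (.use 411) .no (.br 834 .no (.br 833 .no (.hor [.f 705 1 5] []) (.use 1129)
  (.red [.f 825 3 1, .f 825 1 5, .t 1073 2 3, .f 954 1 3, .t 961 2 4] 136 136 [] [(135, 136, [4]),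
  (136, 136, [])]) .no (.br 824 .no (.use 841) .no (.use 599) (.br 1099 (.con 136 [3, 1, 3]) (.br
  1098 .no (.hor [.f 970 1 5] []) (.br 970 .no (.br 969 .no (.hor [.f 841 1 5] []) (.br 1072 (.br
  1211 (.hor [.f 1210 1 5] []) .no .no (.use 906) .no .no) (.hor [.f 944 1 5] []) .no (.use 907)
  .no .no) .no .no .no) (.use 417) .no .no (.use 1258)) .no .no .no) (.use 451) .no .no (.use
  369)) .no)) (.use 1259) .no .no (.red [.t 953 3 2, .t 1073 2 3, .f 954 1 3, .f 826 3 1] 136 136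
  [] [(135, 136, [4]), (136, 136, [])])) .no) .no (.red [.f 819 3 1, .f 826 1 5] 119 136 [2, 4]
  [(119, 136, [2, 4])]) .no .no) (.use 452) .no .no .no) .no .no (.red [.f 1074 3 1, .f 1081 1 5,
  .t 961 4 1] 136 136 [] [(136, 136, []), (151, 135, [1])]) (.br 963 .no (.br 827 .no (.use 1301)
  .no (.red [.f 819 3 1, .f 826 1 5] 119 136 [2, 4] [(119, 136, [2, 4])]) .no .no) (.br 1098 (.use
  455) (.br 1099 (.con 136 [3, 3, 1]) .no (.br 969 .no (.br 1075 (.red [.t 1074 3 1, .f 1081 1 5,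
  .t 961 4 1, .f 945 1 3] 136 136 [] [(135, 136, [4]), (136, 136, []), (151, 135, [1])]) .no .no
  (.br 1203 (.br 1225 (.red [.f 1217 1 3] 169 136 [3, 1, 1] [(169, 136, [3, 1, 1])]) .no (.use
  1310) .no (.br 1106 (.use 465) (.red [.f 962 1 3, .f 962 3 1, .f 970 1 3, .f 1098 3 5] 138 136
  [3, 3] [(138, 136, [3, 3])]) (.use 1305) .no .no (.use 1313)) .no) .no .no (.hor [.f 1067 3 1,
  .t 1074 3 1, .f 1081 1 5] [(150, 119, [1, 1, 4]), (151, 119, [1, 1])]) .no (.red [.f 1202 5 3,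
  .f 1074 3 1, .f 1081 1 5, .t 961 4 1, .f 945 1 3] 136 136 [] [(135, 136, [4]), (136, 136, []),
  (151, 135, [1])])) .no .no) (.use 1308) .no .no .no) .no .no .no) (.use 440) .no (.br 1225 (.red
  [.f 1217 1 3] 169 136 [3, 1, 1] [(169, 136, [3, 1, 1])]) .no (.use 226) .no (.br 1075 (.red [.t
  1074 3 1, .f 1081 1 5, .t 961 4 1, .f 945 1 3] 136 136 [] [(135, 136, [4]), (136, 136, []),
  (151, 135, [1])]) .no .no (.br 1203 (.use 1316) .no .no (.hor [.f 1067 3 1, .t 1074 3 1, .f 1081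
  1 5] [(150, 119, [1, 1, 4]), (151, 119, [1, 1])]) .no (.red [.f 1202 5 3, .f 1074 3 1, .f 1081 1
  5, .t 961 4 1, .f 945 1 3] 136 136 [] [(135, 136, [4]), (136, 136, []), (151, 135, [1])])) .no
  .no) .no) .no) .no .no .no) .no

def c27t1318 : Tr4 :=
  .br 824 .no (.red [.f 696 1 3] 104 136 [2, 2] [(104, 136, [2, 2])]) .no (.con 136 [2, 2, 4]) .no
  .no

def c27t1319 : Tr4 :=
  .br 817 .no (.hor [.f 688 1 5] []) (.use 537) (.use 755) (.use 292) .no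

def c27t1320 : Tr4 :=
  .br 817 .no (.con 136 [2, 4, 2]) (.hor [.f 816 3 5] []) (.con 136 [2, 4, 2]) (.con 136 [2, 4,
  2]) .no

def c27t1321 : Tr4 :=
  .br 816 .no (.use 537) .no (.use 476) .no .no

def c27t1322 : Tr4 :=
  .br 818 .no (.br 819 .no (.hor [.f 690 1 5] []) .no (.con 136 [2, 2, 4, 4]) .no .no) .no (.red
  [.f 816 5 3, .f 810 3 1] 118 136 [2, 4, 4] [(118, 136, [2, 4, 4])]) (.red [.t 954 2 4] 119 136
  [2, 4] [(119, 136, [2, 4])]) .no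

def c27t1323 : Tr4 :=
  .br 818 .no (.use 32) .no (.red [.f 816 5 1, .f 810 3 1] 118 136 [2, 4, 4] [(118, 136, [2, 4,
  4])]) (.red [.f 825 3 1, .f 825 1 3, .t 954 2 4] 119 136 [2, 4] [(119, 136, [2, 4])]) .no

def c27t1324 : Tr4 :=
  .br 825 .no (.use 838) (.use 1323) .no .no (.use 1322)

def c27t1325 : Tr4 :=
  .br 816 .no (.use 1319) (.use 1320) (.use 480) (.use 1324) .no

def c27t1326 : Tr4 :=
  .br 1201 (.use 477) .no .no (.use 255) (.red [.t 1081 1 4, .t 961 4 1] 136 136 [] [(136, 136,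
  []), (151, 135, [1])]) (.red [.f 1072 5 1, .f 1073 1 3, .f 1073 3 5, .t 961 4 1] 136 136 []
  [(136, 136, []), (151, 135, [1])])

def c27t1327 : Tr4 :=
  .br 1099 (.con 136 [3, 3, 1]) (.hor [.f 970 1 5] []) (.use 1310) .no .no .no

def c27t1328 : Tr4 :=
  .br 1098 (.br 971 (.use 360) (.use 374) (.use 382) .no .no (.br 1099 (.con 136 [3, 3, 1, 1]) .no
  (.use 373) .no .no .no)) (.use 1327) (.use 357) .no (.use 226) .no

def c27t1329 : Tr4 :=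
  .br 1201 (.use 519) (.red [.f 1073 1 3, .f 1073 3 5, .t 961 4 1] 136 136 [] [(136, 136, []),
  (151, 135, [1])]) .no (.br 1072 (.br 1065 .no (.con 136 [4, 4, 1, 3, 2, 2]) (.use 476) (.con 136
  [4, 4, 1, 3, 2, 2]) (.con 136 [4, 4, 1, 3, 2, 2]) (.con 136 [4, 4, 1, 3, 2, 2])) .no .no (.br
  1065 .no (.con 136 [4, 4, 1, 3, 2, 2]) (.use 476) (.con 136 [4, 4, 1, 3, 2, 2]) (.con 136 [4, 4,
  1, 3, 2, 2]) .no) (.use 516) .no) (.red [.t 1081 1 4, .t 961 4 1] 136 136 [] [(136, 136, []),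
  (151, 135, [1])]) (.br 1072 .no .no .no (.br 1065 (.con 136 [4, 4, 1, 3, 2, 2]) (.con 136 [4, 4,
  1, 3, 2, 2]) (.use 476) (.con 136 [4, 4, 1, 3, 2, 2]) (.con 136 [4, 4, 1, 3, 2, 2]) .no) (.red
  [.f 1072 5 1, .f 1073 1 3, .f 1073 3 5, .t 961 4 1] 136 136 [] [(136, 136, []), (151, 135,
  [1])]) .no)

def c27t1330 : Tr4 :=
  .br 816 .no (.use 1319) (.use 1320) (.br 1203 (.use 1316) (.red [.t 1074 3 1, .f 1081 1 5, .t
  961 4 1] 136 136 [] [(136, 136, []), (151, 135, [1])]) .no (.use 1329) .no (.red [.f 1202 5 3,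
  .f 1074 3 1, .f 1081 1 5, .t 961 4 1] 136 136 [] [(136, 136, []), (151, 135, [1])])) (.use 1324)
  .no

def c27t1331 : Tr4 :=
  .br 1098 .no (.br 971 (.hor [.f 970 1 5] []) (.br 834 .no (.br 1099 (.con 136 [3, 3, 1]) .no
  (.br 833 .no (.hor [.f 705 1 5] []) (.use 1309) (.br 832 .no (.use 1318) (.br 969 .no (.hor [.f
  832 3 1, .f 840 1 5] [(121, 122, [4])]) (.use 1263) .no .no .no) (.hor [.f 824 3 5] []) .no .no)
  .no (.br 979 .no (.red [.f 843 1 3, .f 971 3 1, .f 970 1 5] 138 136 [3, 3] [(122, 136, [2, 3,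
  3]), (138, 136, [3, 3])]) (.br 969 .no (.use 1260) (.use 1263) .no .no .no) .no .no (.red [.f
  962 1 3, .f 962 3 1, .t 1098 2 3] 138 136 [3, 3] [(138, 136, [3, 3])]))) .no .no .no) (.use
  1283) .no .no (.br 1099 (.con 136 [3, 3, 1]) .no (.br 969 .no (.br 979 .no (.red [.f 843 1 3]
  122 136 [2, 3, 3] [(122, 136, [2, 3, 3])]) (.br 978 (.red [.f 962 1 3, .f 962 3 1, .f 970 1 3,
  .f 1098 3 5] 138 136 [3, 3] [(138, 136, [3, 3])]) (.br 977 (.con 136 [3, 3, 3]) (.red [.f 841 1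
  3] 122 136 [2, 3, 3] [(122, 136, [2, 3, 3])]) (.con 136 [2, 3, 3, 3]) .no .no (.con 136 [2, 3,
  3, 3])) (.hor [.f 978 3 5] []) .no .no (.br 1106 (.use 465) .no (.use 1304) .no .no (.red [.f
  977 5 1, .f 970 1 3] 138 136 [3, 3] [(138, 136, [3, 3])]))) .no .no (.red [.t 953 3 2, .t 1098 2
  3] 138 136 [3, 3] [(120, 119, [3]), (138, 136, [3, 3])])) (.use 1263) .no .no .no) .no .no .no))
  (.use 1282) .no .no .no) (.br 1099 (.con 136 [3, 3, 1]) (.br 970 .no (.br 969 .no (.hor [.f 841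
  1 5] []) (.br 816 .no (.use 1319) (.use 1320) (.br 1203 (.br 1105 (.red [.t 1105 1 4] 154 136
  [3, 3, 1] [(154, 136, [3, 3, 1])]) .no (.br 1347 (.use 1264) .no (.con 136 [3, 1, 1, 3]) (.use
  421) .no (.use 359)) .no .no .no) (.red [.t 1074 3 1, .f 1081 1 5, .t 961 4 1] 136 136 [] [(136,
  136, []), (151, 135, [1])]) .no (.use 1329) .no (.red [.f 1202 5 3, .f 1074 3 1, .f 1081 1 5, .t
  961 4 1] 136 136 [] [(136, 136, []), (151, 135, [1])])) (.use 1324) .no) .no .no .no) (.use 417)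
  .no .no (.br 1105 (.red [.t 1105 1 4] 154 136 [3, 3, 1] [(154, 136, [3, 3, 1])]) (.hor [.t 1105
  2 4, .f 970 1 5] [(138, 154, [2])]) (.br 816 .no (.use 1319) (.use 1320) (.br 1203 (.use 1265)
  (.red [.t 1074 3 1, .f 1081 1 5, .t 961 4 1] 136 136 [] [(136, 136, []), (151, 135, [1])]) .no
  (.br 1073 (.red [.f 1073 1 3, .f 1073 3 5, .t 961 4 1] 136 136 [] [(136, 136, []), (151, 135,
  [1])]) .no .no (.use 476) .no (.br 1208 (.br 1201 (.use 491) .no .no (.use 516) (.red [.t 1089 3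
  2, .t 969 1 4, .t 1081 1 4, .t 961 4 1] 136 136 [] [(136, 136, []), (151, 135, [1])]) (.red [.f
  1072 5 1, .f 1073 1 3, .f 1073 3 5, .t 961 4 1] 136 136 [] [(136, 136, []), (151, 135, [1])]))
  .no .no (.red [.t 1208 4 2, .f 1073 3 5, .t 961 4 1] 136 136 [] [(136, 136, []), (151, 135,
  [1])]) .no .no)) .no (.red [.f 1202 5 3, .f 1074 3 1, .f 1081 1 5, .t 961 4 1] 136 136 [] [(136,
  136, []), (151, 135, [1])])) (.use 1324) .no) .no .no .no)) (.hor [.f 1098 3 5] []) .no .no .no)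
  .no (.use 1330) .no

def c27t1332 : Tr4 :=
  .br 1106 (.use 465) (.red [.f 962 1 3, .f 962 3 1, .f 970 1 3, .f 1098 3 5] 138 136 [3, 3]
  [(138, 136, [3, 3])]) (.use 1305) .no .no (.br 977 .no (.red [.f 841 1 3] 122 136 [2, 3, 3]
  [(122, 136, [2, 3, 3])]) (.use 1303) .no (.red [.f 977 5 1, .f 970 1 3] 138 136 [3, 3] [(138,
  136, [3, 3])]) (.br 840 .no (.red [.f 704 1 3, .f 832 3 1, .f 840 1 5, .f 968 5 3, .t 969 3 1]
  138 136 [3, 3] [(105, 122, [4, 2]), (121, 122, [4]), (138, 136, [3, 3])]) (.red [.t 840 3 1, .t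
  969 3 1] 122 136 [2, 3, 3] [(122, 136, [2, 3, 3]), (138, 136, [3, 3])]) .no .no .no))

def c27t1333 : Tr4 :=
  .br 1339 (.red [.f 1339 1 3, .f 1338 3 5] 184 136 [1, 1, 1] [(184, 136, [1, 1, 1])]) .no .no
  (.use 523) .no .no

def c27t1334 : Tr4 :=
  .br 1201 (.use 519) .no .no (.use 1333) (.red [.t 1081 1 4, .t 961 4 1] 136 136 [] [(136, 136,
  []), (151, 135, [1])]) (.red [.f 1072 5 1, .f 1073 1 3, .f 1073 3 5, .t 961 4 1] 136 136 []
  [(136, 136, []), (151, 135, [1])])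

def c27t1335 : Tr4 :=
  .br 1208 (.br 1203 (.use 1313) (.red [.t 1074 3 1, .f 1081 1 5, .t 961 4 1] 136 136 [] [(136,
  136, []), (151, 135, [1])]) .no (.br 1347 (.br 1346 (.hor [.f 1346 1 5] []) .no (.red [.t 1345 2
  3] 169 136 [3, 1, 1] [(169, 136, [3, 1, 1])]) (.use 1334) .no .no) .no (.con 136 [3, 1, 1, 3])
  (.use 1311) .no (.use 1312)) .no (.red [.f 1202 5 3, .f 1074 3 1, .f 1081 1 5, .t 961 4 1] 136
  136 [] [(136, 136, []), (151, 135, [1])])) .no .no (.red [.t 1208 4 2, .f 1073 3 5, .t 961 4 1]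
  136 136 [] [(136, 136, []), (151, 135, [1])]) .no .no

def c27t1336 : Tr4 :=
  .br 1099 (.con 136 [3, 3, 1]) .no (.use 1263) .no .no .no

def c27t1337 : Tr4 :=
  .br 1098 (.use 455) (.br 1225 (.red [.f 1217 1 3] 169 136 [3, 1, 1] [(169, 136, [3, 1, 1])]) .no
  (.use 1327) .no (.br 969 .no (.br 1099 (.con 136 [3, 3, 1]) .no (.br 832 .no (.br 824 .no (.br
  833 .no (.hor [.f 704 1 5] []) .no (.red [.f 696 1 3] 104 136 [2, 2] [(104, 136, [2, 2])]) (.use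
  1332) .no) .no (.use 1320) (.br 833 .no (.hor [.f 704 1 5] []) .no .no (.use 1332) .no) .no)
  (.br 1106 (.use 465) (.red [.f 962 1 3, .f 962 3 1, .f 970 1 3, .f 1098 3 5] 138 136 [3, 3]
  [(138, 136, [3, 3])]) (.use 1305) .no .no (.br 977 .no (.red [.f 841 1 3] 122 136 [2, 3, 3]
  [(122, 136, [2, 3, 3])]) (.use 1303) .no (.red [.f 977 5 1, .f 970 1 3] 138 136 [3, 3] [(138,
  136, [3, 3])]) (.red [.f 832 3 1, .f 840 1 5, .f 968 5 3, .t 969 3 1] 138 136 [3, 3] [(121, 122,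
  [4]), (138, 136, [3, 3])]))) (.br 1106 (.use 465) (.red [.f 962 1 3, .f 962 3 1, .f 970 1 3, .f
  1098 3 5] 138 136 [3, 3] [(138, 136, [3, 3])]) (.use 1305) .no .no (.br 833 .no (.br 825 .no
  (.hor [.f 697 1 3, .f 824 3 5] [(104, 103, [3])]) .no (.br 1072 (.br 1073 (.red [.f 1073 1 3, .f
  1073 3 5, .t 961 4 1] 136 136 [] [(136, 136, []), (151, 135, [1])]) .no .no (.use 1321) .no .no)
  .no .no (.br 1073 (.red [.f 1073 1 3, .f 1073 3 5, .t 961 4 1] 136 136 [] [(136, 136, []), (151,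
  135, [1])]) .no .no (.use 1321) .no .no) (.use 1335) .no) .no .no) .no (.hor [.f 824 3 5] [])
  (.br 1203 (.use 1313) (.red [.t 1074 3 1, .f 1081 1 5, .t 961 4 1] 136 136 [] [(136, 136, []),
  (151, 135, [1])]) .no (.br 816 .no (.use 1319) .no (.use 1329) (.br 697 (.use 838) (.con 136 [2,
  4, 2, 3, 1, 4]) (.con 136 [2, 4, 2, 3, 1, 4]) (.con 136 [2, 4, 2, 3, 1, 4]) (.con 136 [2, 4, 2,
  3, 1, 4]) (.con 136 [2, 4, 2, 3, 1, 4])) .no) .no (.red [.f 1202 5 3, .f 1074 3 1, .f 1081 1 5,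
  .t 961 4 1] 136 136 [] [(136, 136, []), (151, 135, [1])])) .no)) (.use 1307) .no) .no .no .no)
  (.use 1336) .no .no .no) .no) (.use 440) .no (.br 1225 (.red [.f 1217 1 3] 169 136 [3, 1, 1]
  [(169, 136, [3, 1, 1])]) .no (.use 226) .no (.use 1330) .no) .no

def c27t1338 : Tr4 :=
  .br 699 .no (.use 933) (.use 590) (.use 595) .no (.use 676)

def c27t1339 : Tr4 :=
  .br 817 .no (.hor [.f 688 1 5] []) (.use 1338) (.use 755) (.br 699 .no (.br 697 (.use 917) (.con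
  136 [2, 4, 2, 3, 1, 4]) (.con 136 [2, 4, 2, 3, 1, 4]) (.con 136 [2, 4, 2, 3, 1, 4]) (.con 136
  [2, 4, 2, 3, 1, 4]) (.con 136 [2, 4, 2, 3, 1, 4])) (.hor [.f 699 3 1, .f 706 1 5] [(104, 136,
  [2, 2])]) (.con 136 [2, 4, 2, 4]) .no (.br 697 (.use 925) (.con 136 [2, 4, 2, 3, 1, 4]) (.con
  136 [2, 4, 2, 3, 1, 4]) (.con 136 [2, 4, 2, 2]) .no (.con 136 [2, 4, 2, 3, 1, 4]))) .no

def c27l45 : List Tr4 :=
  [c27t1317, c27t1318, c27t1319, c27t1320, c27t1321, c27t1322, c27t1323, c27t1324, c27t1325,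
  c27t1326, c27t1327, c27t1328, c27t1329, c27t1330, c27t1331, c27t1332, c27t1333, c27t1334,
  c27t1335, c27t1336, c27t1337, c27t1338, c27t1339]

theorem c27k45 : chkLF ⟨4, 1, 0, true, -8⟩ false 7 c27N 1317 c27l45 = true := by decide +kernel

def c27t1340 : Tr4 :=
  .br 699 .no (.br 697 (.use 917) (.con 136 [2, 4, 2, 3, 1, 4]) (.con 136 [2, 4, 2, 3, 1, 4])
  (.con 136 [2, 4, 2, 3, 1, 4]) (.con 136 [2, 4, 2, 3, 1, 4]) (.con 136 [2, 4, 2, 3, 1, 4])) (.hor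
  [.f 699 3 1, .f 706 1 5] [(104, 136, [2, 2])]) (.br 697 (.br 696 .no (.br 698 .no (.con 136 [2,
  2, 2, 4]) .no (.use 585) .no .no) (.use 929) (.red [.t 696 4 1] 103 136 [2, 2, 4] [(103, 136,
  [2, 2, 4])]) .no .no) (.con 136 [2, 4, 2, 3, 1, 4]) (.con 136 [2, 4, 2, 3, 1, 4]) (.con 136 [2,
  4, 2, 3, 1, 4]) (.con 136 [2, 4, 2, 3, 1, 4]) (.con 136 [2, 4, 2, 3, 1, 4])) .no (.use 928)

def c27t1341 : Tr4 :=
  .br 832 .no (.con 136 [2, 2]) (.con 136 [2, 2]) (.hor [.f 824 3 5] []) .no .no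

def c27t1342 : Tr4 :=
  .br 698 .no (.hor [.f 570 1 5] []) .no (.hor [.f 689 3 5] []) .no .no

def c27t1343 : Tr4 :=
  .br 817 .no (.hor [.f 688 1 5] []) (.use 595) (.con 136 [2, 4, 2, 4]) (.con 136 [2, 4, 2, 4])
  .no

def c27t1344 : Tr4 :=
  .br 824 .no (.br 699 .no (.br 705 .no (.br 697 (.use 917) (.red [.f 569 1 3] 88 136 [2, 2, 2]
  [(88, 136, [2, 2, 2])]) .no (.use 1342) (.br 817 .no (.con 136 [2, 4, 2, 3]) (.br 816 .no (.use
  675) .no (.use 480) .no .no) (.con 136 [2, 4, 2, 3]) (.con 136 [2, 4, 2, 3]) (.con 136 [2, 4, 2,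
  3])) .no) (.br 704 .no (.br 707 .no (.red [.f 571 1 3] 88 136 [2, 2, 2] [(88, 136, [2, 2, 2])])
  (.con 136 [2, 2, 2, 3]) .no .no .no) (.hor [.f 704 3 5] []) .no .no .no) (.red [.t 696 1 3, .f
  705 1 5] 104 136 [2, 2] [(104, 136, [2, 2])]) .no (.red [.f 704 5 1, .f 696 1 3] 104 136 [2, 2]
  [(104, 136, [2, 2])])) (.red [.f 699 3 1, .f 706 1 5] 104 136 [2, 2] [(104, 136, [2, 2])]) (.br
  816 .no (.use 1343) .no (.use 480) (.br 698 .no (.con 136 [2, 4, 2, 2]) .no (.hor [.f 690 3 5]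
  []) .no (.con 136 [2, 4, 2, 2])) .no) .no (.red [.t 834 2 4] 104 136 [2, 2] [(104, 136, [2,
  2])])) .no (.use 481) (.use 936) .no

def c27t1345 : Tr4 :=
  .br 816 .no (.use 1343) .no (.use 480) (.br 696 .no (.br 697 .no (.hor [.f 568 1 5] []) .no
  (.con 136 [2, 2, 2, 4]) (.con 136 [2, 2, 2, 4]) .no) .no (.red [.f 816 5 3, .f 688 3 1, .f 696 1
  3] 104 136 [2, 2] [(103, 136, [2, 2, 4]), (104, 136, [2, 2])]) (.red [.f 816 5 3, .f 816 3 5, .f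
  696 5 1, .f 696 1 3] 104 136 [2, 2] [(104, 136, [2, 2])]) .no) .no

def c27t1346 : Tr4 :=
  .br 691 (.br 681 .no (.con 136 [2, 4, 2, 4, 2]) (.hor [.f 681 3 5] []) (.con 136 [2, 4, 2, 4,
  2]) .no (.con 136 [2, 4, 2, 4, 2])) (.con 136 [2, 4, 2, 4]) .no (.con 136 [2, 4, 2, 4]) .no .no

def c27t1347 : Tr4 :=
  .br 808 .no (.red [.f 680 1 3] 102 136 [2, 4, 2, 4] [(102, 136, [2, 4, 2, 4])]) .no (.br 809 .no
  (.con 136 [2, 4, 2, 4, 4]) .no (.hor [.f 800 3 5] []) (.red [.f 809 5 3, .f 810 3 1, .f 818 1 3]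
  119 136 [2, 4] [(118, 136, [2, 4, 4]), (119, 136, [2, 4])]) .no) (.use 1346) .no

def c27t1348 : Tr4 :=
  .br 937 .no .no .no (.hor [.f 801 3 1, .f 808 1 5] [(117, 136, [2, 4, 4, 4])]) .no .no

def c27t1349 : Tr4 :=
  .br 809 (.hor [.f 808 1 5] []) (.con 136 [2, 4, 2, 4, 4]) .no (.use 1348) (.red [.f 809 5 3, .f
  810 3 1, .f 818 1 3] 119 136 [2, 4] [(118, 136, [2, 4, 4]), (119, 136, [2, 4])]) .no

def c27t1350 : Tr4 :=
  .br 937 .no (.red [.t 937 2 3, .f 818 1 3] 119 136 [2, 4] [(118, 136, [2, 4, 4]), (119, 136, [2,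
  4])]) .no (.hor [.f 928 3 5] []) .no .no

def c27t1351 : Tr4 :=
  .br 809 .no (.con 136 [2, 4, 4, 2, 4]) .no (.hor [.f 800 3 5] []) (.red [.f 809 5 3, .f 810 3 1,
  .f 818 1 3] 119 136 [2, 4] [(118, 136, [2, 4, 4]), (119, 136, [2, 4])]) .no

def c27t1352 : Tr4 :=
  .br 808 .no (.red [.f 680 1 3] 102 136 [2, 4, 2, 4] [(102, 136, [2, 4, 2, 4])]) .no (.use 1351)
  (.use 1346) .no

def c27t1353 : Tr4 :=
  .br 691 (.br 681 .no (.con 136 [2, 2, 4, 4, 2]) (.hor [.f 681 3 5] []) (.con 136 [2, 2, 4, 4,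
  2]) .no (.con 136 [2, 2, 4, 4, 2])) (.con 136 [2, 2, 4, 4]) .no (.con 136 [2, 2, 4, 4]) .no .no

def c27t1354 : Tr4 :=
  .br 808 (.br 809 (.hor [.f 808 1 5] []) (.con 136 [2, 2, 4, 4, 4]) .no (.use 1353) (.red [.f 809
  5 3, .f 810 3 1, .f 818 1 3] 119 136 [2, 4] [(118, 136, [2, 4, 4]), (119, 136, [2, 4])]) .no)
  (.red [.f 680 1 3] 102 136 [2, 2, 4, 4] [(102, 136, [2, 2, 4, 4])]) .no (.br 809 (.red [.t 937 2
  3, .f 818 1 3] 119 136 [2, 4] [(118, 136, [2, 4, 4]), (119, 136, [2, 4])]) (.con 136 [2, 2, 4,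
  4, 4]) .no (.use 1353) (.red [.f 809 5 3, .f 810 3 1, .f 818 1 3] 119 136 [2, 4] [(118, 136, [2,
  4, 4]), (119, 136, [2, 4])]) .no) (.use 1346) .no

def c27t1355 : Tr4 :=
  .br 690 .no (.red [.t 561 3 1, .f 569 1 3] 88 136 [2, 2, 2] [(87, 136, [2, 2, 4, 2]), (88, 136,
  [2, 2, 2])]) .no (.use 1354) (.con 136 [2, 2, 4, 4]) (.red [.f 689 5 3, .f 561 3 1, .f 569 1 3]
  88 136 [2, 2, 2] [(87, 136, [2, 2, 4, 2]), (88, 136, [2, 2, 2])])

def c27t1356 : Tr4 :=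
  .br 816 .no (.br 696 .no (.hor [.f 568 1 5] []) .no .no .no .no) .no (.use 480) (.br 696 .no
  (.hor [.f 568 1 5] []) .no (.red [.f 816 5 3, .f 688 3 1, .f 696 1 3] 104 136 [2, 2] [(103, 136,
  [2, 2, 4]), (104, 136, [2, 2])]) .no .no) .no

def c27t1357 : Tr4 :=
  .br 698 .no (.hor [.f 570 1 5] []) .no (.br 697 .no (.use 1356) .no (.hor [.f 689 3 5] []) .no
  (.use 517)) .no (.red [.f 697 5 3, .t 704 1 4] 104 136 [2, 2] [(104, 136, [2, 2])])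

def c27t1358 : Tr4 :=
  .br 816 .no .no .no (.use 480) (.red [.f 816 5 3, .f 688 3 1] 103 136 [2, 2, 4] [(103, 136, [2,
  2, 4])]) .no

def c27t1359 : Tr4 :=
  .br 808 .no (.red [.f 680 1 3, .f 680 3 5] 102 136 [2, 4, 4, 2] [(102, 136, [2, 4, 4, 2])]) .no
  (.br 809 .no .no .no (.hor [.f 800 3 5] []) (.red [.f 809 5 3, .f 810 3 1, .f 818 1 3] 119 136
  [2, 4] [(118, 136, [2, 4, 4]), (119, 136, [2, 4])]) .no) (.red [.t 688 1 4] 102 136 [2, 4, 4, 2]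
  [(102, 136, [2, 4, 4, 2])]) .no

def c27t1360 : Tr4 :=
  .br 689 .no (.hor [.f 561 1 5] []) .no (.use 1359) .no .no

def c27t1361 : Tr4 :=
  .br 682 (.hor [.f 681 1 5] []) (.con 136 [2, 4, 4, 2, 4]) .no (.con 136 [2, 4, 4, 2, 4]) (.con
  136 [2, 4, 4, 2, 4]) .no

def c27t1362 : Tr4 :=
  .br 809 (.hor [.f 808 1 5] []) (.use 1361) .no (.use 1348) (.red [.f 809 5 3, .f 810 3 1, .f 818
  1 3] 119 136 [2, 4] [(118, 136, [2, 4, 4]), (119, 136, [2, 4])]) .no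

def c27t1363 : Tr4 :=
  .br 682 (.hor [.f 681 1 5] []) (.con 136 [2, 4, 4, 2, 4]) .no (.con 136 [2, 4, 4, 2, 4]) (.con
  136 [2, 4, 4, 2, 4]) .no

def c27t1364 : Tr4 :=
  .br 808 .no (.red [.f 680 1 3] 102 136 [2, 4, 4, 2] [(102, 136, [2, 4, 4, 2])]) .no (.br 809 .no
  (.use 1363) .no (.hor [.f 800 3 5] []) (.red [.f 809 5 3, .f 810 3 1, .f 818 1 3] 119 136 [2, 4]
  [(118, 136, [2, 4, 4]), (119, 136, [2, 4])]) .no) (.red [.f 808 5 1, .t 937 2 3, .f 818 1 3] 119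
  136 [2, 4] [(118, 136, [2, 4, 4]), (119, 136, [2, 4])]) .no

def c27t1365 : Tr4 :=
  .br 1064 (.hor [.f 1064 1 3, .f 1064 3 5] [(150, 118, [1, 1])]) (.br 937 .no (.red [.t 937 2 3,
  .f 818 1 3] 119 136 [2, 4] [(118, 136, [2, 4, 4]), (119, 136, [2, 4])]) .no (.use 1360) .no .no)
  .no (.br 936 .no (.use 1362) .no (.use 1350) (.use 1364) .no) .no .no

def c27t1366 : Tr4 :=
  .br 706 .no (.br 698 .no (.br 705 .no (.hor [.f 577 1 5] []) .no .no .no (.hor [.f 570 1 3, .f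
  698 3 5] [(88, 103, [3, 2])])) .no (.use 916) .no .no) (.hor [.t 713 1 4, .f 699 3 1, .f 706 1
  5] [(104, 136, [2, 2]), (105, 136, [2, 2, 3])]) (.hor [.f 698 3 5] []) .no (.hor [.f 705 5 1, .f
  697 1 3, .f 699 3 1, .f 706 1 5, .f 824 3 5] [])

def c27t1367 : Tr4 :=
  .br 689 .no (.con 136 [2, 4, 2, 2, 4]) .no (.use 1359) .no .no

def c27t1368 : Tr4 :=
  .br 808 .no (.red [.f 680 1 3] 102 136 [2, 4, 4, 2] [(102, 136, [2, 4, 4, 2])]) .no (.use 1351)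
  (.red [.f 808 5 1, .t 937 2 3, .f 818 1 3] 119 136 [2, 4] [(118, 136, [2, 4, 4]), (119, 136, [2,
  4])]) .no

def c27t1369 : Tr4 :=
  .br 936 (.br 937 .no (.red [.t 937 2 3, .f 818 1 3] 119 136 [2, 4] [(118, 136, [2, 4, 4]), (119,
  136, [2, 4])]) .no (.use 1367) .no .no) (.use 1349) .no (.use 1350) (.use 1368) .no

def c27t1370 : Tr4 :=
  .br 698 .no (.hor [.f 570 1 5] []) (.br 696 .no (.br 688 .no (.red [.f 560 1 3] 87 136 [2, 2, 2,
  4] [(87, 136, [2, 2, 2, 4])]) .no (.br 818 .no (.br 689 .no (.con 136 [2, 2, 2, 4, 4]) .no (.hor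
  [.f 680 3 5] []) .no .no) .no (.red [.f 816 5 1, .f 810 3 1] 118 136 [2, 4, 4] [(118, 136, [2,
  4, 4])]) (.red [.t 953 3 2, .t 833 1 4, .t 954 2 4] 119 136 [2, 4] [(119, 136, [2, 4])]) .no)
  (.red [.f 688 5 1, .f 689 1 3] 103 136 [2, 2, 4] [(103, 136, [2, 2, 4])]) .no) (.con 136 [2, 2,
  2]) (.red [.t 696 4 1] 103 136 [2, 2, 4] [(103, 136, [2, 2, 4])]) .no .no) (.use 585) .no .no

def c27t1371 : Tr4 :=
  .br 818 .no (.con 136 [2, 4, 2, 4]) .no (.red [.f 816 5 1, .f 810 3 1] 118 136 [2, 4, 4] [(118,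
  136, [2, 4, 4])]) (.red [.t 953 3 2, .t 833 1 4, .t 954 2 4] 119 136 [2, 4] [(119, 136, [2,
  4])]) .no

def c27t1372 : Tr4 :=
  .br 697 (.br 699 .no (.use 1370) (.use 1366) (.use 1371) .no (.use 928)) (.con 136 [2, 4, 2, 3,
  1, 4]) (.con 136 [2, 4, 2, 3, 1, 4]) (.con 136 [2, 4, 2, 3, 1, 4]) (.con 136 [2, 4, 2, 3, 1, 4])
  (.con 136 [2, 4, 2, 3, 1, 4])

def c27t1373 : Tr4 :=
  .br 810 .no (.hor [.t 681 3 1, .f 688 1 5] [(102, 136, [4, 2, 4, 2])]) .no (.hor [.f 801 3 5]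
  []) .no .no

def c27t1374 : Tr4 :=
  .br 937 (.use 21) (.red [.t 937 2 3, .f 818 1 3] 119 136 [2, 4] [(118, 136, [2, 4, 4]), (119,
  136, [2, 4])]) .no (.hor [.f 928 3 5] []) .no .no

def c27t1375 : Tr4 :=
  .br 936 (.br 937 (.hor [.f 936 1 5] []) (.red [.t 937 2 3, .f 818 1 3] 119 136 [2, 4] [(118,
  136, [2, 4, 4]), (119, 136, [2, 4])]) .no (.use 1360) .no .no) (.br 809 (.hor [.f 808 1 5] [])
  (.use 1361) .no (.br 811 (.br 689 .no (.hor [.f 561 1 5] []) .no (.use 1373) .no .no) (.con 136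
  [2, 4, 4, 4]) (.con 136 [2, 4, 2, 4]) (.con 136 [2, 4, 4, 4]) .no (.con 136 [2, 4, 4, 4])) (.red
  [.f 809 5 3, .f 810 3 1, .f 818 1 3] 119 136 [2, 4] [(118, 136, [2, 4, 4]), (119, 136, [2, 4])])
  .no) .no (.use 1374) (.use 1364) .no

def c27t1376 : Tr4 :=
  .br 849 .no (.hor [.f 713 1 3, .f 713 3 5] [(106, 136, [2, 2, 3, 3])]) (.br 1105 .no .no (.br
  979 .no (.con 136 [2, 2, 3, 3, 1, 4, 4, 1]) (.br 986 (.hor [.f 978 1 3, .f 978 3 5] [(139, 136,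
  [3, 3, 3])]) (.con 136 [2, 2, 3, 3, 3, 1, 4, 4, 4, 1]) (.br 985 .no .no (.hor [.f 985 3 5] [])
  .no .no (.con 136 [3, 3, 3, 2, 4, 4, 4, 1])) .no .no (.hor [.t 1105 3 2, .f 978 3 5] [(139, 136,
  [3, 3, 3])])) .no .no .no) .no .no .no) .no (.hor [.t 713 1 3, .f 840 3 5] [(106, 136, [2, 2, 3,
  3])]) .no

def c27t1377 : Tr4 :=
  .br 843 .no .no (.hor [.t 842 1 3, .f 969 3 5] [(122, 136, [2, 3, 3])]) .no .no .no

def c27t1378 : Tr4 :=
  .br 978 .no (.hor [.f 842 1 3, .f 969 3 5] [(122, 136, [2, 3, 3])]) (.use 1197) .no (.use 1377)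
  .no

def c27t1379 : Tr4 :=
  .br 978 .no (.hor [.f 842 1 3, .f 969 3 5] [(122, 136, [2, 3, 3])]) (.br 840 .no (.hor [.f 712 1
  5] []) (.br 979 .no (.con 136 [2, 3, 2, 3, 1, 4, 4, 1]) (.hor [.f 978 3 5] []) .no .no .no) .no
  .no .no) .no (.use 1377) .no

def c27l46 : List Tr4 :=
  [c27t1340, c27t1341, c27t1342, c27t1343, c27t1344, c27t1345, c27t1346, c27t1347, c27t1348,
  c27t1349, c27t1350, c27t1351, c27t1352, c27t1353, c27t1354, c27t1355, c27t1356, c27t1357,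
  c27t1358, c27t1359, c27t1360, c27t1361, c27t1362, c27t1363, c27t1364, c27t1365, c27t1366,
  c27t1367, c27t1368, c27t1369, c27t1370, c27t1371, c27t1372, c27t1373, c27t1374, c27t1375,
  c27t1376, c27t1377, c27t1378, c27t1379]

theorem c27k46 : chkLF ⟨4, 1, 0, true, -8⟩ false 7 c27N 1340 c27l46 = true := by decide +kernel

def c27t1380 : Tr4 :=
  .br 699 .no (.br 698 .no (.hor [.f 570 1 5] []) (.br 707 .no (.red [.f 571 1 3] 88 136 [2, 2, 2]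
  [(88, 136, [2, 2, 2])]) (.br 579 .no (.br 696 .no (.br 1106 (.use 1378) (.br 840 .no (.hor [.f
  712 1 5] []) (.br 705 .no (.br 704 .no (.hor [.f 576 1 5] []) (.br 578 .no (.hor [.f 450 1 5]
  []) (.br 843 .no .no (.br 849 .no (.hor [.f 713 1 3, .f 840 3 5] [(106, 73, [1, 1, 3])]) (.br
  850 .no (.con 136 [2, 2, 2, 3, 3, 1, 4, 2, 2]) (.hor [.f 849 3 5] []) .no .no .no) .no (.hor [.t
  969 3 2, .f 842 3 5] [(122, 119, [3, 3, 3])]) .no) .no .no .no) (.red [.f 570 3 1, .f 570 1 5]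
  88 136 [2, 2, 2] [(88, 136, [2, 2, 2])]) .no .no) .no .no .no) .no .no .no (.br 578 .no (.hor
  [.f 450 1 5] []) (.br 577 .no (.con 136 [2, 2, 2, 2, 3]) (.hor [.f 577 3 5] []) (.con 136 [2, 2,
  2, 2]) .no (.con 136 [2, 2, 2, 2, 3])) (.red [.f 570 3 1, .f 570 1 5] 88 136 [2, 2, 2] [(88,
  136, [2, 2, 2])]) .no (.br 714 .no (.red [.t 824 3 2, .f 697 3 5, .f 577 5 1, .f 578 1 3] 89 136
  [2, 2, 2, 3] [(89, 136, [2, 2, 2, 3]), (104, 88, [1])]) (.use 1376) .no .no .no))) .no .no .no)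
  (.use 1184) .no .no (.use 1379)) (.con 136 [2, 2, 2]) .no .no .no) (.red [.t 697 1 3, .f 579 3
  1, .f 571 1 3] 88 136 [2, 2, 2] [(88, 136, [2, 2, 2]), (89, 136, [2, 2, 2, 3]), (104, 88, [1])])
  .no .no (.red [.t 698 3 2] 88 136 [2, 2, 2] [(88, 136, [2, 2, 2])])) .no .no .no) (.use 916) .no
  .no) (.use 1366) (.con 136 [2, 2, 4, 4]) .no (.br 706 .no (.br 705 .no (.hor [.f 577 1 5] [])
  .no .no .no (.br 840 .no (.hor [.f 712 1 5] []) (.br 1106 (.br 707 .no (.hor [.f 578 1 5] [])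
  (.use 1378) .no .no .no) (.br 707 .no (.hor [.f 578 1 5] []) (.br 714 .no (.red [.f 578 1 3] 89
  136 [2, 2, 2, 3] [(89, 136, [2, 2, 2, 3])]) (.use 1376) .no .no .no) .no .no .no) (.use 1184)
  .no .no (.br 707 .no (.hor [.f 578 1 5] []) (.use 1379) .no .no .no)) .no .no .no)) (.br 690 .no
  (.use 1375) .no (.br 691 (.red [.t 713 1 4, .t 834 2 4, .f 691 1 3] 103 136 [2, 2, 4] [(103,
  136, [2, 2, 4]), (104, 136, [2, 2]), (105, 136, [2, 2, 3])]) (.con 136 [2, 2, 4, 4]) .no (.con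
  136 [2, 2, 4, 4]) .no .no) (.con 136 [2, 2, 4, 4]) (.red [.f 689 5 1, .f 689 1 3] 103 136 [2, 2,
  4] [(103, 136, [2, 2, 4])])) .no (.hor [.f 698 5 3, .t 697 1 3, .f 699 3 1, .f 706 1 5, .f 824 3
  5] []) (.hor [.f 705 5 1, .f 697 1 3, .f 824 3 5, .t 834 2 4, .f 697 3 5] []))

def c27t1381 : Tr4 :=
  .br 1073 (.red [.f 1073 1 3, .f 1073 3 5, .t 961 4 1] 136 136 [] [(136, 136, []), (151, 135,
  [1])]) .no .no (.br 1072 (.br 816 .no (.br 817 .no (.hor [.f 688 1 5] []) (.use 1338) (.use 755)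
  (.br 697 (.br 699 .no (.br 698 .no (.hor [.f 570 1 5] []) (.br 707 .no (.red [.f 571 1 3] 88 136
  [2, 2, 2] [(88, 136, [2, 2, 2])]) (.br 696 .no (.br 690 .no (.use 1365) .no (.br 1064 (.hor [.f
  1064 1 3, .f 1064 3 5] [(150, 118, [1, 1])]) (.br 937 .no (.red [.t 937 2 3, .f 818 1 3] 119 136
  [2, 4] [(118, 136, [2, 4, 4]), (119, 136, [2, 4])]) .no (.use 1347) .no .no) .no (.br 936 .no
  (.use 1349) .no (.use 1350) (.use 1352) .no) .no .no) (.con 136 [2, 2, 4, 4]) (.red [.f 689 5 1,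
  .f 689 1 3] 103 136 [2, 2, 4] [(103, 136, [2, 2, 4])])) (.con 136 [2, 2, 2]) .no .no .no) .no
  .no .no) (.use 916) .no .no) (.use 1366) (.con 136 [2, 2, 4, 4]) .no (.br 690 .no (.use 1365)
  .no (.use 1369) (.con 136 [2, 2, 4, 4]) (.red [.f 689 5 1, .f 689 1 3] 103 136 [2, 2, 4] [(103,
  136, [2, 2, 4])]))) (.con 136 [2, 4, 2, 3, 1, 4]) (.con 136 [2, 4, 2, 3, 1, 4]) (.con 136 [2, 4,
  2, 3, 1, 4]) (.con 136 [2, 4, 2, 3, 1, 4]) (.con 136 [2, 4, 2, 3, 1, 4])) .no) .no (.use 476)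
  (.use 1372) .no) .no .no (.hor [.f 1064 3 5] []) .no .no) .no (.br 1208 (.br 816 .no (.br 817
  .no (.hor [.f 688 1 5] []) (.use 1338) (.use 755) (.br 697 (.br 1201 (.use 1380) .no .no (.use
  28) (.red [.t 1081 1 4, .t 961 4 1] 136 136 [] [(136, 136, []), (151, 135, [1])]) (.red [.f 1072
  5 1, .f 1073 1 3, .f 1073 3 5, .t 961 4 1] 136 136 [] [(136, 136, []), (151, 135, [1])])) (.con
  136 [2, 4, 2, 3, 1, 4]) (.con 136 [2, 4, 2, 3, 1, 4]) (.con 136 [2, 4, 2, 3, 1, 4]) (.con 136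
  [2, 4, 2, 3, 1, 4]) (.con 136 [2, 4, 2, 3, 1, 4])) .no) .no (.use 478) (.use 1372) .no) .no .no
  (.red [.t 1208 4 2, .f 1073 3 5, .t 961 4 1] 136 136 [] [(136, 136, []), (151, 135, [1])]) .no
  .no)

def c27t1382 : Tr4 :=
  .br 832 .no (.br 824 .no (.red [.f 696 1 3] 104 136 [2, 2] [(104, 136, [2, 2])]) .no (.use 481)
  (.br 705 .no (.br 706 .no (.hor [.f 577 1 5] []) (.br 699 .no (.br 707 .no (.red [.f 571 1 3] 88
  136 [2, 2, 2] [(88, 136, [2, 2, 2])]) (.hor [.f 706 3 5] []) .no .no .no) (.red [.t 713 1 4, .f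
  699 3 1, .f 706 1 5] 104 136 [2, 2] [(104, 136, [2, 2]), (105, 136, [2, 2, 3])]) (.use 1345) .no
  (.red [.t 713 1 4, .t 834 2 4] 104 136 [2, 2] [(104, 136, [2, 2]), (105, 136, [2, 2, 3])]))
  (.use 494) (.br 699 .no (.br 698 .no (.hor [.f 570 1 5] []) .no (.use 518) .no (.br 816 .no (.br
  817 .no (.hor [.f 688 1 5] []) .no (.use 755) (.br 570 .no (.br 569 .no (.hor [.f 441 1 5] [])
  .no (.use 1355) .no (.con 136 [2, 2, 4, 2, 3])) (.red [.t 577 1 4, .f 570 1 5] 88 136 [2, 2, 2]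
  [(88, 136, [2, 2, 2])]) (.br 569 .no (.con 136 [2, 2, 4, 2, 2]) .no (.use 1355) .no (.con 136
  [2, 2, 4, 2, 2])) .no (.red [.f 569 5 1, .f 570 1 5, .f 698 5 3, .f 699 3 1] 104 136 [2, 2]
  [(104, 136, [2, 2])])) .no) .no (.use 480) (.br 818 .no (.br 691 (.hor [.f 690 1 5] []) (.con
  136 [2, 2, 4, 4]) .no (.con 136 [2, 2, 4, 4]) .no .no) .no (.red [.f 816 5 3, .f 810 3 1] 118
  136 [2, 4, 4] [(118, 136, [2, 4, 4])]) (.red [.t 953 3 2, .t 833 1 4, .t 954 2 4] 119 136 [2, 4]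
  [(119, 136, [2, 4])]) .no) .no)) .no (.use 1345) .no (.red [.t 953 3 2, .f 698 5 3, .f 699 3 1]
  104 136 [2, 2] [(104, 136, [2, 2]), (120, 104, [1])])) .no) .no (.red [.t 704 1 4] 104 136 [2,
  2] [(104, 136, [2, 2])]) (.br 699 .no (.use 1357) (.red [.f 705 5 1, .f 699 3 1] 104 136 [2, 2]
  [(104, 136, [2, 2])]) (.br 697 .no (.use 1356) .no (.br 696 .no (.con 136 [2, 2, 2, 4]) .no
  (.hor [.f 688 3 5] []) .no .no) (.red [.f 697 5 3, .t 704 1 4] 104 136 [2, 2] [(104, 136, [2,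
  2])]) (.red [.f 705 5 1, .f 696 5 1, .f 696 1 3] 104 136 [2, 2] [(104, 136, [2, 2])])) .no (.red
  [.f 705 5 1, .t 834 2 4] 104 136 [2, 2] [(104, 136, [2, 2])])) .no) .no) (.br 824 .no (.br 704
  .no (.br 705 .no (.hor [.f 576 1 5] []) .no (.br 817 .no (.con 136 [2, 4, 2, 3]) (.br 816 .no
  (.use 1338) .no (.use 480) .no .no) (.con 136 [2, 4, 2, 3]) (.con 136 [2, 4, 2, 3]) (.con 136
  [2, 4, 2, 3])) (.red [.f 705 5 1, .f 705 1 3] 105 136 [2, 2, 3] [(105, 136, [2, 2, 3])]) .no)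
  (.red [.f 704 3 1, .f 712 1 5] 105 136 [2, 2, 3] [(105, 136, [2, 2, 3])]) .no (.red [.t 840 4 2]
  105 136 [2, 2, 3] [(105, 136, [2, 2, 3])]) .no) .no (.use 481) (.br 705 .no (.br 706 .no (.hor
  [.f 577 1 5] []) (.red [.t 713 1 4, .f 832 3 5] 105 136 [2, 2, 3] [(105, 136, [2, 2, 3])]) (.use
  494) (.br 704 .no (.hor [.f 576 1 5] []) (.red [.f 704 3 1, .f 712 1 5] 105 136 [2, 2, 3] [(105,
  136, [2, 2, 3])]) (.con 136 [2, 2, 2]) .no .no) .no) .no (.br 704 .no (.br 706 .no (.br 696 .no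
  (.red [.f 568 1 3, .f 696 3 5, .t 840 4 2] 105 136 [2, 2, 3] [(88, 89, [4]), (105, 136, [2, 2,
  3])]) .no (.use 1358) .no .no) (.red [.t 713 1 4, .f 832 3 5] 105 136 [2, 2, 3] [(105, 136, [2,
  2, 3])]) (.hor [.f 697 3 5] []) (.br 696 .no (.red [.f 568 1 3, .f 696 3 5, .t 840 4 2] 105 136
  [2, 2, 3] [(88, 89, [4]), (105, 136, [2, 2, 3])]) .no (.use 1358) .no .no) .no) (.red [.f 704 3
  1, .f 712 1 5] 105 136 [2, 2, 3] [(105, 136, [2, 2, 3])]) (.hor [.f 696 3 5] []) .no .no) (.red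
  [.f 705 5 1, .f 705 1 3] 105 136 [2, 2, 3] [(105, 136, [2, 2, 3])]) (.red [.t 840 4 2] 105 136
  [2, 2, 3] [(105, 136, [2, 2, 3])])) .no) (.use 1381) .no .no

def c27t1383 : Tr4 :=
  .br 707 .no (.red [.f 571 1 3] 88 136 [2, 2, 2] [(88, 136, [2, 2, 2])]) (.hor [.f 706 3 5] [])
  .no .no .no

def c27t1384 : Tr4 :=
  .br 690 .no (.red [.t 561 3 1, .f 568 1 5] 87 136 [2, 2, 2, 4] [(87, 136, [2, 2, 2, 4])]) .no
  (.use 1354) (.con 136 [2, 2, 4, 4]) (.red [.f 689 5 1, .f 688 1 5, .t 568 1 4] 87 136 [2, 2, 2,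
  4] [(87, 136, [2, 2, 2, 4])])

def c27t1385 : Tr4 :=
  .br 689 .no (.con 136 [2, 4, 2, 2, 4]) .no (.hor [.f 681 3 5] []) .no .no

def c27t1386 : Tr4 :=
  .br 691 (.hor [.f 690 1 5] []) (.con 136 [2, 4, 2, 4]) .no (.con 136 [2, 4, 2, 4]) .no .no

def c27t1387 : Tr4 :=
  .br 818 .no (.use 1386) .no (.red [.f 816 5 3, .f 810 3 1] 118 136 [2, 4, 4] [(118, 136, [2, 4,
  4])]) (.red [.t 953 3 2, .t 833 1 4, .t 954 2 4] 119 136 [2, 4] [(119, 136, [2, 4])]) .no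

def c27t1388 : Tr4 :=
  .br 707 .no (.red [.f 571 1 3] 88 136 [2, 4, 2, 3, 2] [(88, 136, [2, 2, 2])]) (.con 136 [2, 4,
  2, 3, 2, 3]) .no .no .no

def c27t1389 : Tr4 :=
  .br 819 .no (.red [.t 953 3 2, .f 699 3 1, .f 691 1 3, .t 833 1 4] 103 136 [2, 4, 2] [(103, 136,
  [2, 4, 2]), (104, 136, [2, 2])]) .no (.use 404) .no (.red [.t 953 3 2, .t 833 1 4, .t 954 2 4]
  119 136 [2, 4] [(119, 136, [2, 4])])

def c27t1390 : Tr4 :=
  .br 825 .no (.br 699 .no (.use 1370) (.use 1389) (.use 1371) .no (.use 928)) .no .no .no .no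

def c27t1391 : Tr4 :=
  .br 811 (.br 681 .no (.con 136 [2, 4, 2, 4, 2]) (.use 1373) (.con 136 [2, 4, 2, 4, 2]) .no (.con
  136 [2, 4, 2, 4, 2])) (.con 136 [2, 4, 4, 4]) .no (.con 136 [2, 4, 4, 4]) .no (.con 136 [2, 4,
  4, 4])

def c27t1392 : Tr4 :=
  .br 1073 (.red [.f 1073 1 3, .f 1073 3 5, .t 961 4 1] 136 136 [] [(136, 136, []), (151, 135,
  [1])]) .no .no (.br 1072 (.br 816 .no (.br 817 .no (.hor [.f 688 1 5] []) (.use 1338) (.use 755)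
  (.br 697 (.br 690 .no (.use 1365) (.use 916) (.use 1369) (.con 136 [2, 2, 4, 4]) (.red [.f 689 5
  1, .f 689 1 3] 103 136 [2, 2, 4] [(103, 136, [2, 2, 4])])) (.con 136 [2, 4, 2, 3, 1, 4]) (.con
  136 [2, 4, 2, 3, 1, 4]) (.con 136 [2, 4, 2, 3, 1, 4]) (.con 136 [2, 4, 2, 3, 1, 4]) (.con 136
  [2, 4, 2, 3, 1, 4])) .no) .no (.use 476) (.use 1390) .no) .no .no (.hor [.f 1064 3 5] []) .no
  .no) .no (.br 1208 (.br 1201 (.br 816 .no (.br 817 .no (.hor [.f 688 1 5] []) (.use 1338) (.use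
  755) (.br 697 (.br 690 .no (.use 1375) (.use 916) (.br 936 (.br 937 (.hor [.f 936 1 5] []) (.red
  [.t 937 2 3, .f 818 1 3] 119 136 [2, 4] [(118, 136, [2, 4, 4]), (119, 136, [2, 4])]) .no (.use
  1367) .no .no) (.br 699 .no (.br 809 (.hor [.f 808 1 5] []) (.con 136 [2, 2, 4, 4, 4]) .no (.br
  691 (.use 1391) (.con 136 [2, 2, 4, 4]) .no (.con 136 [2, 2, 4, 4]) .no .no) (.red [.f 809 5 3,
  .f 810 3 1, .f 818 1 3] 119 136 [2, 4] [(118, 136, [2, 4, 4]), (119, 136, [2, 4])]) .no) (.br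
  691 (.red [.t 953 3 2, .f 699 3 1, .f 691 1 3, .t 833 1 4] 103 136 [2, 2, 4] [(103, 136, [2, 2,
  4]), (104, 136, [2, 2])]) (.con 136 [2, 2, 4, 4]) .no (.con 136 [2, 2, 4, 4]) .no .no) (.con 136
  [2, 2, 4, 2]) .no (.br 809 (.hor [.f 808 1 5] []) (.con 136 [2, 2, 4, 4, 4]) .no (.br 691 (.use
  1391) (.con 136 [2, 2, 4, 4]) .no (.con 136 [2, 2, 4, 4]) .no .no) (.red [.f 809 5 3, .f 810 3
  1, .f 818 1 3] 119 136 [2, 4] [(118, 136, [2, 4, 4]), (119, 136, [2, 4])]) .no)) .no (.use 1374)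
  (.use 1368) .no) (.con 136 [2, 2, 4, 4]) (.red [.f 689 5 1, .f 689 1 3] 103 136 [2, 2, 4] [(103,
  136, [2, 2, 4])])) (.con 136 [2, 4, 2, 3, 1, 4]) (.con 136 [2, 4, 2, 3, 1, 4]) (.con 136 [2, 4,
  2, 3, 1, 4]) (.con 136 [2, 4, 2, 3, 1, 4]) (.con 136 [2, 4, 2, 3, 1, 4])) .no) .no (.use 478)
  (.use 1390) .no) .no .no (.use 28) (.red [.t 1081 1 4, .t 961 4 1] 136 136 [] [(136, 136, []),
  (151, 135, [1])]) (.red [.f 1072 5 1, .f 1073 1 3, .f 1073 3 5, .t 961 4 1] 136 136 [] [(136,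
  136, []), (151, 135, [1])])) .no .no (.red [.t 1208 4 2, .f 1073 3 5, .t 961 4 1] 136 136 []
  [(136, 136, []), (151, 135, [1])]) .no .no)

def c27l47 : List Tr4 :=
  [c27t1380, c27t1381, c27t1382, c27t1383, c27t1384, c27t1385, c27t1386, c27t1387, c27t1388,
  c27t1389, c27t1390, c27t1391, c27t1392]

theorem c27k47 : chkLF ⟨4, 1, 0, true, -8⟩ false 7 c27N 1380 c27l47 = true := by decide +kernel

def c27t1393 : Tr4 :=
  .br 841 .no (.use 1382) (.hor [.f 841 3 1, .f 841 1 5] [(122, 119, [3, 3, 3])]) .no .no (.br 832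
  .no (.br 824 .no (.red [.f 696 1 3] 104 136 [2, 2] [(104, 136, [2, 2])]) .no (.use 481) (.br 696
  .no (.br 697 .no (.use 1356) (.red [.t 704 1 4] 104 136 [2, 2] [(104, 136, [2, 2])]) (.br 698
  .no (.con 136 [2, 2, 4, 2]) (.con 136 [2, 2, 4, 2]) (.hor [.f 689 3 5] []) (.con 136 [2, 2, 2,
  4]) .no) (.br 699 .no (.br 705 .no (.br 816 .no (.br 817 .no (.hor [.f 688 1 5] []) .no (.use
  755) (.br 570 .no (.br 569 .no (.hor [.f 441 1 5] []) .no (.use 1384) .no .no) (.red [.t 577 1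
  4, .f 570 1 5] 88 136 [2, 2, 2] [(88, 136, [2, 2, 2])]) (.br 569 .no (.con 136 [2, 2, 2, 2, 4])
  .no (.use 1384) .no .no) .no (.hor [.f 569 5 1, .f 568 1 5, .f 570 1 5] [])) .no) .no (.use 480)
  (.use 1387) .no) (.br 816 .no (.br 817 .no (.hor [.f 688 1 5] []) .no (.use 755) (.br 706 .no
  (.use 1388) (.use 1383) .no (.br 570 .no (.br 569 .no (.hor [.f 441 1 5] []) (.con 136 [2, 2, 2,
  2]) (.use 1384) .no .no) (.red [.t 704 1 3, .t 570 3 1, .t 840 4 2] 88 136 [2, 2, 2] [(88, 136,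
  [2, 2, 2])]) (.br 690 .no .no .no (.use 1385) (.con 136 [2, 2, 4, 4]) (.br 569 .no (.con 136 [2,
  2, 2, 2, 4]) (.con 136 [2, 2, 2, 2]) (.use 1384) .no .no)) .no (.hor [.f 569 5 1, .f 568 1 5, .f
  570 1 5] [])) .no) .no) .no (.use 480) (.use 1387) .no) .no (.use 1357) .no) (.red [.f 699 3 1]
  104 136 [2, 2] [(104, 136, [2, 2])]) (.con 136 [2, 2, 2, 4]) .no .no) .no) .no (.use 1358) (.red
  [.f 696 5 1, .f 696 1 3] 104 136 [2, 2] [(104, 136, [2, 2])]) .no) .no) .no (.use 1392) .no .no)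

def c27t1394 : Tr4 :=
  .br 833 .no (.hor [.f 704 1 5] []) .no (.con 136 [2, 2]) .no .no

def c27t1395 : Tr4 :=
  .br 1073 (.red [.f 1073 1 3, .f 1073 3 5, .t 961 4 1] 136 136 [] [(136, 136, []), (151, 135,
  [1])]) .no .no (.hor [.f 1064 3 5] []) .no .no

def c27t1396 : Tr4 :=
  .br 816 .no (.use 1343) .no (.use 480) (.br 697 (.use 587) (.con 136 [2, 4, 2, 3, 2]) .no (.con
  136 [2, 4, 2, 2]) .no (.con 136 [2, 4, 2, 2])) .no

def c27t1397 : Tr4 :=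
  .br 808 .no (.red [.f 680 1 3] 102 136 [2, 2, 4, 4] [(102, 136, [2, 2, 4, 4])]) .no (.br 809
  (.red [.t 937 2 3, .f 818 1 3] 119 136 [2, 4] [(118, 136, [2, 4, 4]), (119, 136, [2, 4])]) (.use
  1363) .no (.hor [.f 800 3 5] []) (.red [.f 809 5 3, .f 810 3 1, .f 818 1 3] 119 136 [2, 4]
  [(118, 136, [2, 4, 4]), (119, 136, [2, 4])]) .no) (.use 761) .no

def c27t1398 : Tr4 :=
  .br 817 .no (.hor [.f 688 1 5] []) .no (.use 755) (.br 699 .no (.use 759) (.red [.f 699 3 1] 104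
  136 [2, 2] [(104, 136, [2, 2])]) (.con 136 [2, 2, 4, 4]) .no (.br 706 .no (.use 685) (.red [.f
  706 3 1] 105 136 [2, 2, 3] [(105, 136, [2, 2, 3])]) .no (.use 757) (.br 1072 (.br 1073 (.red [.f
  1073 1 3, .f 1073 3 5, .t 961 4 1] 136 136 [] [(136, 136, []), (151, 135, [1])]) .no .no (.br
  697 .no (.use 760) .no (.con 136 [2, 2, 4, 2]) .no (.br 690 .no (.br 936 (.use 1397) (.use 1362)
  .no (.use 1350) (.use 1364) .no) .no (.use 762) (.con 136 [2, 2, 4, 4]) (.red [.f 696 5 1, .f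
  689 5 1, .f 689 1 3] 103 136 [2, 2, 4] [(103, 136, [2, 2, 4])]))) .no .no) .no .no (.use 1395)
  (.br 1208 (.br 1201 (.br 697 .no (.use 760) .no (.con 136 [2, 2, 4, 2]) .no (.br 690 .no (.br
  936 (.use 1397) (.br 937 (.br 811 (.br 809 .no (.use 1361) .no (.br 689 .no (.hor [.f 561 1 5]
  []) .no (.br 810 .no (.red [.t 681 3 1, .f 696 5 1, .f 689 1 3] 103 136 [2, 2, 4] [(102, 136,
  [2, 2, 4, 4]), (103, 136, [2, 2, 4])]) .no (.hor [.f 801 3 5] []) .no .no) .no .no) (.red [.f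
  809 5 3, .f 810 3 1, .f 818 1 3] 119 136 [2, 4] [(118, 136, [2, 4, 4]), (119, 136, [2, 4])])
  .no) (.con 136 [2, 4, 4, 4]) (.con 136 [2, 2, 4, 4]) (.con 136 [2, 4, 4, 4]) .no (.con 136 [2,
  4, 4, 4])) (.hor [.f 808 1 5] []) .no (.br 809 .no (.use 1361) .no (.red [.f 801 3 1, .f 808 1
  5] 117 136 [2, 4, 4, 4] [(117, 136, [2, 4, 4, 4])]) (.red [.f 809 5 3, .f 810 3 1, .f 818 1 3]
  119 136 [2, 4] [(118, 136, [2, 4, 4]), (119, 136, [2, 4])]) .no) .no .no) .no (.use 1374) (.use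
  1364) .no) .no (.use 762) (.con 136 [2, 2, 4, 4]) (.red [.f 696 5 1, .f 689 5 1, .f 689 1 3] 103
  136 [2, 2, 4] [(103, 136, [2, 2, 4])]))) .no .no (.use 28) (.red [.t 1081 1 4, .t 961 4 1] 136
  136 [] [(136, 136, []), (151, 135, [1])]) (.red [.f 1072 5 1, .f 1073 1 3, .f 1073 3 5, .t 961 4
  1] 136 136 [] [(136, 136, []), (151, 135, [1])])) .no .no (.red [.t 1208 4 2, .f 1073 3 5, .t
  961 4 1] 136 136 [] [(136, 136, []), (151, 135, [1])]) .no .no) .no))) .no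

def c27t1399 : Tr4 :=
  .br 832 .no (.use 1394) (.con 136 [2, 3, 2]) (.br 833 .no (.br 706 .no (.br 825 .no (.br 817 .no
  (.red [.f 689 1 3] 103 136 [2, 2, 4] [(103, 136, [2, 2, 4])]) .no (.use 547) (.use 560) (.use
  586)) .no (.br 1072 (.br 707 .no (.hor [.f 578 1 5] []) (.use 592) (.br 1073 (.red [.f 1073 1 3,
  .f 1073 3 5, .t 961 4 1] 136 136 [] [(136, 136, []), (151, 135, [1])]) .no .no (.br 816 .no
  (.use 590) .no (.use 476) .no .no) .no .no) .no .no) .no .no (.use 1395) (.br 1208 (.br 707 .no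
  (.hor [.f 578 1 5] []) (.use 592) (.br 816 .no (.use 590) .no (.use 478) .no .no) .no .no) .no
  .no (.red [.t 1208 4 2, .f 1073 3 5, .t 961 4 1] 136 136 [] [(136, 136, []), (151, 135, [1])])
  .no .no) .no) .no .no) (.red [.f 706 3 1, .f 705 1 5] 105 136 [2, 2, 3] [(105, 136, [2, 2, 3])])
  (.br 1072 (.br 699 .no (.br 825 .no (.use 561) .no (.br 707 .no (.red [.f 571 1 3] 88 136 [2, 2,
  2] [(88, 136, [2, 2, 2])]) (.br 704 .no (.con 136 [2, 2, 2, 3]) (.br 1073 (.red [.f 1073 1 3, .f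
  1073 3 5, .t 961 4 1] 136 136 [] [(136, 136, []), (151, 135, [1])]) .no .no (.br 816 .no (.use
  593) .no (.use 476) .no .no) .no .no) (.con 136 [2, 2, 2]) .no .no) .no .no .no) .no .no) (.hor
  [.f 698 3 5] []) (.use 1396) .no .no) .no .no (.use 1395) (.br 1208 (.br 699 .no (.br 825 .no
  (.use 561) .no (.br 707 .no (.red [.f 571 1 3] 88 136 [2, 2, 2] [(88, 136, [2, 2, 2])]) (.br 816
  .no (.use 594) .no (.use 478) .no .no) .no .no .no) .no .no) (.hor [.f 698 3 5] []) (.use 1396)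
  .no .no) .no .no (.red [.t 1208 4 2, .f 1073 3 5, .t 961 4 1] 136 136 [] [(136, 136, []), (151,
  135, [1])]) .no .no) .no) (.use 583) .no) .no (.hor [.f 824 3 5] []) .no .no) (.br 824 .no (.br
  816 .no (.br 825 .no (.hor [.f 696 1 5] []) .no (.use 677) .no .no) .no (.use 480) (.br 697
  (.hor [.f 696 1 5] []) (.con 136 [2, 4, 2, 3]) (.con 136 [2, 4, 2, 3]) (.con 136 [2, 4, 2, 3])
  (.con 136 [2, 4, 2, 3]) .no) .no) .no (.use 481) (.br 816 .no (.use 1398) .no (.use 480) (.use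
  764) .no) .no) .no

def c27t1400 : Tr4 :=
  .br 699 .no (.use 1387) (.use 1389) (.use 1371) .no (.use 928)

def c27t1401 : Tr4 :=
  .br 816 .no (.br 698 .no (.con 136 [2, 2, 4, 2]) (.con 136 [2, 2, 4, 2]) (.hor [.f 689 3 5] [])
  (.con 136 [2, 2, 4, 2]) .no) .no (.use 480) (.use 1400) .no

def c27t1402 : Tr4 :=
  .br 705 .no (.hor [.f 577 1 5] []) (.use 1388) .no .no .no

def c27t1403 : Tr4 :=
  .br 690 .no (.red [.t 561 3 1] 87 136 [2, 4, 2, 2] [(87, 136, [2, 4, 2, 2])]) .no (.use 1347)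
  (.con 136 [2, 4, 2, 4]) (.red [.f 689 5 3, .f 561 3 1] 87 136 [2, 4, 2, 2] [(87, 136, [2, 4, 2,
  2])])

def c27t1404 : Tr4 :=
  .br 691 (.hor [.f 689 5 1, .f 688 1 5, .f 690 1 5] []) (.con 136 [2, 2, 4, 4]) .no (.con 136 [2,
  2, 4, 4]) .no .no

def c27t1405 : Tr4 :=
  .br 1072 (.br 697 .no (.use 1356) (.red [.t 704 1 4] 104 136 [2, 2] [(104, 136, [2, 2])]) (.use
  1401) (.br 816 .no (.br 699 .no (.br 817 .no (.hor [.f 688 1 5] []) .no (.use 755) (.br 706 .no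
  (.use 1402) (.use 1383) .no (.br 1073 (.red [.f 1073 1 3, .f 1073 3 5, .t 961 4 1] 136 136 []
  [(136, 136, []), (151, 135, [1])]) .no .no (.br 1064 (.hor [.f 1064 1 3, .f 1064 3 5] [(150,
  118, [1, 1])]) (.br 937 .no (.red [.t 937 2 3, .f 818 1 3] 119 136 [2, 4] [(118, 136, [2, 4,
  4]), (119, 136, [2, 4])]) .no (.br 570 .no (.br 569 .no (.hor [.f 441 1 5] []) (.con 136 [2, 2,
  4, 2, 2, 3]) (.use 1403) .no (.con 136 [2, 2, 4, 2, 3])) (.red [.t 570 3 1] 88 136 [2, 2, 2]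
  [(88, 136, [2, 2, 2])]) (.br 569 .no (.con 136 [2, 2, 4, 2, 2]) (.con 136 [2, 2, 4, 2, 2]) (.use
  1403) .no (.con 136 [2, 2, 4, 2, 2])) .no (.red [.f 569 5 1, .f 570 1 5, .f 698 5 3, .f 699 3 1]
  104 136 [2, 2] [(104, 136, [2, 2])])) .no .no) .no (.br 936 .no (.br 690 .no (.use 1362) .no
  (.use 1349) (.con 136 [2, 2, 4, 4]) (.use 1404)) .no (.use 1350) (.br 690 .no (.use 1364) .no
  (.use 1352) (.con 136 [2, 2, 4, 4]) (.use 1404)) .no) .no .no) .no .no) (.use 1357)) .no) (.red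
  [.f 699 3 1] 104 136 [2, 2] [(104, 136, [2, 2])]) (.con 136 [2, 2, 4, 2]) .no .no) .no (.use
  480) (.use 1400) .no) (.red [.f 696 5 1, .f 696 1 3] 104 136 [2, 2] [(104, 136, [2, 2])])) .no
  .no (.use 1395) (.br 1208 (.br 697 .no (.use 1356) (.red [.t 704 1 4] 104 136 [2, 2] [(104, 136,
  [2, 2])]) (.use 1401) (.br 816 .no (.br 699 .no (.br 817 .no (.hor [.f 688 1 5] []) .no (.use
  755) (.br 706 .no (.use 1402) (.use 1383) .no (.br 690 .no (.br 570 .no (.br 569 .no (.hor [.f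
  441 1 5] []) (.con 136 [2, 2, 4, 2, 2, 3]) (.red [.t 561 3 1] 87 136 [2, 2, 4, 2] [(87, 136, [2,
  2, 4, 2])]) .no (.con 136 [2, 2, 4, 2, 3])) (.red [.t 570 3 1] 88 136 [2, 2, 2] [(88, 136, [2,
  2, 2])]) .no .no (.red [.f 569 5 1, .f 570 1 5, .f 698 5 3, .f 699 3 1] 104 136 [2, 2] [(104,
  136, [2, 2])])) .no (.use 1385) (.con 136 [2, 2, 4, 4]) (.use 1404)) (.use 1357)) .no) (.red [.f
  699 3 1] 104 136 [2, 2] [(104, 136, [2, 2])]) (.con 136 [2, 2, 4, 2]) .no .no) .no (.use 478)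
  (.use 1400) .no) (.red [.f 696 5 1, .f 696 1 3] 104 136 [2, 2] [(104, 136, [2, 2])])) .no .no
  (.red [.t 1208 4 2, .f 1073 3 5, .t 961 4 1] 136 136 [] [(136, 136, []), (151, 135, [1])]) .no
  .no) .no

def c27l48 : List Tr4 :=
  [c27t1393, c27t1394, c27t1395, c27t1396, c27t1397, c27t1398, c27t1399, c27t1400, c27t1401,
  c27t1402, c27t1403, c27t1404, c27t1405]

theorem c27k48 : chkLF ⟨4, 1, 0, true, -8⟩ false 7 c27N 1393 c27l48 = true := by decide +kernel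

end Pool.Agent.FT4D
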