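import Pool.Agent.FT4D.Tab_c27

/-!
# Four levels: decision trees (found by a computer search)
-/

namespace Pool.Agent.FT4D

def c27t1406 : Tr4 :=
  .br 970 .no (.br 969 .no (.hor [.f 841 1 5] []) (.br 1099 (.hor [.f 1098 1 5] []) .no (.br 1225
  (.hor [.f 1224 1 5] []) .no (.br 1219 (.use 766) .no (.br 834 .no (.br 833 .no (.hor [.f 705 1
  5] []) (.br 832 .no (.br 824 .no (.red [.f 696 1 3] 104 136 [2, 2] [(104, 136, [2, 2])]) .no
  (.use 481) (.br 705 .no (.br 699 .no (.use 911) (.red [.f 699 3 1, .f 706 1 5] 104 136 [2, 2]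
  [(104, 136, [2, 2])]) (.br 697 .no (.red [.f 569 1 3] 88 136 [2, 2, 2] [(88, 136, [2, 2, 2])])
  .no (.use 912) (.br 816 .no (.con 136 [2, 2, 4, 2]) .no (.use 480) (.use 915) .no) (.red [.f 696
  5 1, .f 696 1 3] 104 136 [2, 2] [(104, 136, [2, 2])])) .no (.red [.t 834 2 4] 104 136 [2, 2]
  [(104, 136, [2, 2])])) (.hor [.f 705 3 1, .f 704 1 5] [(105, 104, [3])]) (.red [.t 704 1 4] 104
  136 [2, 2] [(104, 136, [2, 2])]) .no .no) .no) (.hor [.f 832 3 5] []) (.br 1073 (.red [.f 1073 1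
  3, .f 1073 3 5, .t 961 4 1] 136 136 [] [(136, 136, []), (151, 135, [1])]) .no .no (.br 816 .no
  (.use 1339) .no (.use 476) (.use 1340) .no) .no (.br 816 .no (.use 1339) .no (.use 479) (.use
  1340) .no)) .no .no) (.use 1341) .no (.use 1344)) .no .no .no (.use 1393)) (.hor [.f 1210 3 5]
  []) .no .no) .no .no .no) .no .no .no) .no .no .no) (.br 969 .no (.br 1099 (.hor [.f 1098 1 5]
  []) .no (.br 1225 (.hor [.f 1224 1 5] []) .no (.br 834 .no (.br 833 .no (.hor [.f 705 1 5] [])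
  .no (.use 1341) .no (.use 1344)) (.use 1399) .no .no (.br 832 .no (.br 824 .no (.red [.f 696 1
  3] 104 136 [2, 2] [(104, 136, [2, 2])]) .no (.use 481) (.use 1405) .no) (.br 842 .no (.br 843
  .no (.hor [.f 714 1 5] []) (.con 136 [2, 2, 3, 3]) .no .no .no) (.red [.f 842 3 1, .f 841 1 5]
  122 136 [2, 3, 3] [(122, 136, [2, 3, 3])]) .no (.use 534) .no) (.use 1392) .no .no)) .no .no
  .no) .no .no .no) (.hor [.f 969 3 5] []) .no .no .no) .no .no (.red [.t 1089 3 2, .t 1209 2 3,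
  .f 953 3 1, .f 961 1 3] 136 136 [] [(136, 136, []), (152, 136, [1])])

def c27t1407 : Tr4 :=
  .br 1201 (.use 519) (.red [.f 1073 1 3, .f 1073 3 5, .t 961 4 1] 136 136 [] [(136, 136, []),
  (151, 135, [1])]) .no (.br 1065 .no (.con 136 [4, 4, 1, 3, 2, 3]) (.hor [.f 1065 3 1, .f 1072 1
  5] [(150, 135, [1, 4])]) (.con 136 [4, 4, 1, 3, 2, 3]) (.con 136 [4, 4, 1, 3, 2, 3]) (.con 136
  [4, 4, 1, 3, 2, 3])) (.red [.t 1081 1 4, .t 961 4 1] 136 136 [] [(136, 136, []), (151, 135,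
  [1])]) .no

def c27t1408 : Tr4 :=
  .br 969 .no .no (.hor [.f 969 3 5] []) .no .no .no

def c27t1409 : Tr4 :=
  .br 1208 (.br 1201 (.use 521) .no .no (.br 1203 (.use 1316) (.red [.t 1074 3 1, .f 1081 1 5, .t
  961 4 1] 136 136 [] [(136, 136, []), (151, 135, [1])]) .no (.br 1347 (.use 1333) .no (.con 136
  [3, 1, 1, 3]) (.use 376) .no .no) .no (.red [.f 1202 5 3, .f 1074 3 1, .f 1081 1 5, .t 961 4 1]
  136 136 [] [(136, 136, []), (151, 135, [1])])) (.red [.t 1081 1 4, .t 961 4 1] 136 136 [] [(136,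
  136, []), (151, 135, [1])]) (.red [.f 1072 5 1, .f 1073 1 3, .f 1073 3 5, .t 961 4 1] 136 136 []
  [(136, 136, []), (151, 135, [1])])) .no .no (.red [.t 1208 4 2, .f 1073 3 5, .t 961 4 1] 136 136
  [] [(136, 136, []), (151, 135, [1])]) .no .no

def c27t1410 : Tr4 :=
  .br 963 .no (.br 827 .no (.br 1218 (.hor [.f 1217 1 5] []) .no (.use 0) (.use 1325) (.br 1210
  (.br 816 .no (.use 1319) (.use 1320) (.br 1073 (.red [.f 1073 1 3, .f 1073 3 5, .t 961 4 1] 136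
  136 [] [(136, 136, []), (151, 135, [1])]) .no .no (.use 476) .no (.br 1208 (.br 936 (.red [.f
  944 5 1, .f 936 1 3, .f 808 3 1] 118 136 [2, 4, 4] [(118, 136, [2, 4, 4]), (134, 136, [4, 4])])
  .no .no (.br 1211 (.hor [.f 1210 1 5] []) .no .no (.use 1326) .no .no) (.red [.f 936 5 3, .f 808
  3 1] 118 136 [2, 4, 4] [(118, 136, [2, 4, 4])]) .no) .no .no (.red [.t 1208 4 2, .f 1073 3 5, .t
  961 4 1] 136 136 [] [(136, 136, []), (151, 135, [1])]) .no .no)) (.use 1324) .no) .no .no (.red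
  [.f 1074 3 1, .f 1081 1 5, .t 961 4 1] 136 136 [] [(136, 136, []), (151, 135, [1])]) (.br 1225
  (.red [.f 1217 1 3] 169 136 [3, 1, 1] [(169, 136, [3, 1, 1])]) .no (.use 1328) .no (.use 1331)
  .no) .no) .no) .no (.red [.f 819 3 1, .f 826 1 5] 119 136 [2, 4] [(119, 136, [2, 4])]) .no .no)
  (.br 827 .no (.br 1218 (.hor [.f 1217 1 5] []) .no (.use 0) (.use 1325) (.br 1210 (.use 452) .no
  .no (.red [.f 1074 3 1, .f 1081 1 5, .t 961 4 1] 136 136 [] [(136, 136, []), (151, 135, [1])])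
  (.use 1337) .no) .no) (.br 1218 (.hor [.f 1217 1 5] []) .no (.use 0) (.br 1098 (.use 1406) (.red
  [.f 962 1 3, .f 1089 3 5, .t 1209 2 3, .f 953 3 1, .t 961 1 3] 136 136 [] [(136, 136, []), (152,
  136, [1])]) (.use 440) .no (.use 536) .no) (.br 1210 (.use 452) .no .no (.red [.f 1074 3 1, .f
  1081 1 5, .t 961 4 1] 136 136 [] [(136, 136, []), (151, 135, [1])]) (.br 1098 (.use 455) (.br
  1225 (.red [.f 1217 1 3] 169 136 [3, 1, 1] [(169, 136, [3, 1, 1])]) .no (.use 1327) .no (.br 969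
  .no (.br 1099 (.con 136 [3, 3, 1]) .no (.br 1106 (.use 465) (.red [.f 962 1 3, .f 962 3 1, .f
  970 1 3, .f 1098 3 5] 138 136 [3, 3] [(138, 136, [3, 3])]) (.use 1305) .no .no (.br 1072 (.br
  1203 (.use 1313) (.red [.t 1074 3 1, .f 1081 1 5, .t 961 4 1] 136 136 [] [(136, 136, []), (151,
  135, [1])]) .no (.use 1407) .no (.red [.f 1202 5 3, .f 1074 3 1, .f 1081 1 5, .t 961 4 1] 136
  136 [] [(136, 136, []), (151, 135, [1])])) .no .no (.use 1395) (.use 1335) .no)) .no .no .no)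
  (.use 1336) .no .no .no) .no) (.use 440) .no (.br 1225 (.red [.f 1217 1 3] 169 136 [3, 1, 1]
  [(169, 136, [3, 1, 1])]) .no (.use 226) .no (.br 1346 (.use 377) .no (.red [.t 1345 2 3] 169 136
  [3, 1, 1] [(169, 136, [3, 1, 1])]) (.br 1072 (.br 1203 (.use 1316) (.red [.t 1074 3 1, .f 1081 1
  5, .t 961 4 1] 136 136 [] [(136, 136, []), (151, 135, [1])]) .no (.use 1407) .no (.red [.f 1202
  5 3, .f 1074 3 1, .f 1081 1 5, .t 961 4 1] 136 136 [] [(136, 136, []), (151, 135, [1])])) .no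
  .no (.use 1395) (.use 1409) .no) (.use 1315) .no) .no) .no) .no) .no) (.red [.f 819 3 1, .f 826
  1 5] 119 136 [2, 4] [(119, 136, [2, 4])]) .no .no) .no .no .no

def c27t1411 : Tr4 :=
  .br 1104 .no (.red [.t 960 2 4, .f 968 1 3, .f 1096 3 1, .f 1088 1 3] 154 136 [3, 1, 3] [(120,
  136, [2]), (138, 136, [3, 3]), (153, 136, [3, 1]), (154, 136, [3, 1, 3])]) (.br 1105 (.red [.t
  960 2 4, .t 1096 2 4, .t 1232 4 2] 154 136 [3, 1, 3] [(120, 136, [2]), (137, 136, [3]), (154,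
  136, [3, 1, 3])]) (.br 976 .no .no (.red [.f 976 3 1, .f 976 1 5] 139 136 [3, 3, 3] [(139, 136,
  [3, 3, 3])]) .no .no .no) (.hor [.f 1104 3 5] []) .no .no .no) .no (.red [.t 1089 3 2, .f 968 1
  5, .f 1096 5 3, .f 1096 3 1] 154 136 [3, 1, 3] [(137, 136, [3]), (154, 136, [3, 1, 3])]) .no

def c27t1412 : Tr4 :=
  .br 1346 (.hor [.f 1346 1 5] []) .no (.br 1226 .no .no (.red [.t 960 2 4, .f 1098 3 1, .t 1097 4
  1] 154 136 [3, 1, 3] [(120, 136, [2]), (153, 136, [3, 1]), (154, 136, [3, 1, 3])]) .no (.con 136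
  [3, 1, 3, 1]) .no) .no .no (.red [.f 1217 5 1, .f 1210 1 3] 168 136 [1, 1] [(168, 136, [1, 1])])

def c27t1413 : Tr4 :=
  .br 1105 (.hor [.f 1104 1 5] []) .no (.con 136 [3, 3, 3, 1]) .no .no .no

def c27t1414 : Tr4 :=
  .br 1345 (.hor [.f 1345 1 5] []) .no .no (.red [.t 1337 3 2, .f 1217 1 3, .f 1089 3 1] 153 136
  [3, 1] [(153, 136, [3, 1]), (168, 136, [1, 1]), (169, 136, [3, 1, 1])]) .no (.con 136 [3, 1, 1,
  1])

def c27t1415 : Tr4 :=
  .br 1105 (.hor [.f 1104 1 5] []) .no (.br 1106 (.con 136 [3, 3, 3, 1]) (.red [.f 970 5 1, .f 970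
  1 3] 138 136 [3, 3] [(138, 136, [3, 3])]) (.hor [.f 1105 3 5] []) .no (.con 136 [3, 3, 3, 1])
  .no) .no (.use 1414) .no

def c27t1416 : Tr4 :=
  .br 969 .no .no (.br 970 .no (.br 971 .no (.hor [.f 842 1 5] []) (.br 978 (.red [.t 978 1 4] 138
  136 [3, 3] [(138, 136, [3, 3])]) (.hor [.f 842 1 3, .f 969 3 5] [(122, 138, [2])]) (.br 1104
  (.br 1347 (.hor [.f 1346 1 5] []) .no (.br 1106 (.use 1413) .no (.red [.f 978 3 1] 139 136 [3,
  3, 3] [(139, 136, [3, 3, 3])]) .no (.red [.f 1098 5 3, .f 971 3 1] 138 136 [3, 3] [(138, 136,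
  [3, 3])]) (.use 1414)) (.red [.f 1083 3 1, .f 1083 1 3, .f 1211 3 1, .f 1210 1 5] 168 136 [1, 1]
  [(168, 136, [1, 1])]) .no .no) (.red [.f 968 1 3, .f 968 3 5] 138 136 [3, 3] [(138, 136, [3,
  3])]) (.use 192) .no (.red [.t 968 1 3, .t 832 1 3, .f 841 1 5] 138 136 [3, 3] [(121, 136, [2,
  3]), (138, 136, [3, 3])]) .no) .no .no .no) .no .no .no) (.br 971 .no (.use 396) (.hor [.f 970 3
  5] []) .no .no .no) .no (.br 976 (.red [.f 968 1 3, .f 840 3 1] 138 136 [3, 3] [(122, 136, [2,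
  3, 3]), (138, 136, [3, 3])]) .no (.br 1104 (.br 1347 (.hor [.f 1346 1 5] []) .no (.use 1415)
  (.red [.f 1083 3 1, .f 1083 1 3, .f 1211 3 1, .f 1210 1 5] 168 136 [1, 1] [(168, 136, [1, 1])])
  .no .no) .no (.red [.f 976 3 1, .f 968 1 3, .f 840 3 1] 138 136 [3, 3] [(122, 136, [2, 3, 3]),
  (138, 136, [3, 3]), (139, 136, [3, 3, 3])]) .no (.red [.t 968 1 3] 138 136 [3, 3] [(138, 136,
  [3, 3])]) .no) .no .no .no) .no) .no (.br 1347 (.hor [.f 1346 1 5] []) .no (.br 971 .no (.br 842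
  .no (.hor [.f 706 1 3, .f 833 3 5] [(105, 103, [3, 3])]) (.br 1224 (.con 136 [3, 1, 1, 1]) .no
  (.br 1104 .no (.red [.f 968 1 3, .f 840 3 1] 122 136 [2, 3, 3] [(122, 136, [2, 3, 3]), (138,
  136, [3, 3])]) (.br 976 .no .no (.red [.f 976 3 1, .f 968 1 3, .f 840 3 1] 122 136 [2, 3, 3]
  [(122, 136, [2, 3, 3]), (138, 136, [3, 3]), (139, 136, [3, 3, 3])]) .no (.br 1105 (.red [.t 960
  2 4, .t 1096 2 4, .t 1232 4 2] 154 136 [3, 3, 1] [(120, 119, [3]), (137, 136, [3]), (154, 136,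
  [3, 3, 1])]) .no (.hor [.f 1104 3 5] []) .no (.br 979 (.con 136 [3, 3, 3]) (.red [.f 843 1 3, .f
  842 3 5] 122 136 [2, 3, 3] [(122, 136, [2, 3, 3])]) (.use 263) .no .no (.red [.t 842 3 1] 122
  136 [2, 3, 3] [(122, 136, [2, 3, 3])])) .no) .no) .no (.red [.t 1089 3 2, .f 968 1 5, .f 1096 5
  3, .f 1096 3 1] 154 136 [3, 3, 1] [(137, 136, [3]), (154, 136, [3, 3, 1])]) .no) .no .no .no)
  .no .no .no) (.br 1224 (.con 136 [3, 1, 1, 1]) .no (.br 1104 .no (.red [.f 968 1 3, .f 840 3 1]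
  138 136 [3, 3] [(122, 136, [2, 3, 3]), (138, 136, [3, 3])]) (.br 976 .no .no (.red [.f 976 3 1,
  .f 968 1 3, .f 840 3 1] 138 136 [3, 3] [(122, 136, [2, 3, 3]), (138, 136, [3, 3]), (139, 136,
  [3, 3, 3])]) .no (.br 1105 (.red [.t 960 2 4, .t 1096 2 4, .t 1232 4 2] 154 136 [3, 3, 1] [(120,
  119, [3]), (137, 136, [3]), (154, 136, [3, 3, 1])]) .no (.hor [.f 1104 3 5] []) .no (.br 944 .no
  (.br 936 (.br 1065 (.br 1201 (.br 1337 (.br 1208 (.br 1473 (.con 136 [1, 1, 1, 3]) (.red [.f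
  1337 1 3] 184 136 [1, 1, 1] [(184, 136, [1, 1, 1])]) (.con 136 [1, 1, 1, 3]) .no .no (.con 136
  [1, 1, 1, 3])) .no .no .no .no .no) .no (.red [.t 1337 3 2, .f 1217 1 3, .f 1089 3 1] 153 136
  [3, 1] [(153, 136, [3, 1]), (168, 136, [1, 1]), (169, 136, [3, 1, 1])]) .no .no (.con 136 [1, 1,
  4, 2, 2, 2])) .no .no .no (.red [.t 1081 1 4, .t 961 4 1, .f 945 1 3] 136 136 [] [(135, 136,
  [4]), (136, 136, []), (151, 135, [1])]) .no) (.red [.f 937 1 3, .f 937 3 5, .f 817 5 1, .f 818 1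
  3] 119 136 [2, 4] [(119, 136, [2, 4]), (134, 118, [1])]) .no (.use 1088) (.red [.t 945 1 4, .f
  817 5 1, .f 818 1 3] 119 136 [2, 4] [(119, 136, [2, 4]), (134, 118, [1])]) .no) (.use 1134) .no
  (.use 830) (.use 183) .no) .no (.use 293) .no .no) .no) .no) .no (.red [.t 1089 3 2, .f 968 1 5,
  .f 1096 5 3, .f 1096 3 1] 154 136 [3, 3, 1] [(137, 136, [3]), (154, 136, [3, 3, 1])]) .no) .no
  .no .no) .no .no .no) (.red [.f 1083 3 1, .f 1083 1 3, .f 1211 3 1, .f 1210 1 5] 168 136 [1, 1]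
  [(168, 136, [1, 1])]) .no .no) .no

def c27l49 : List Tr4 :=
  [c27t1406, c27t1407, c27t1408, c27t1409, c27t1410, c27t1411, c27t1412, c27t1413, c27t1414,
  c27t1415, c27t1416]

theorem c27k49 : chkLF ⟨4, 1, 0, true, -8⟩ false 7 c27N 1406 c27l49 = true := by decide +kernel

def c27t1417 : Tr4 :=
  .br 1096 (.red [.f 1088 1 3, .f 1088 3 5] 153 136 [3, 1] [(153, 136, [3, 1])]) (.br 1098 (.red
  [.t 1097 4 1, .f 1081 1 3] 153 136 [3, 1] [(152, 136, [1]), (153, 136, [3, 1])]) (.use 229) (.br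
  1099 (.con 136 [3, 3, 1]) (.br 969 .no .no (.br 970 .no (.br 976 (.hor [.f 968 1 3, .f 968 3 5]
  [(138, 136, [3, 3])]) .no (.br 1104 (.br 1225 (.br 1226 (.hor [.f 1225 1 5] []) .no (.red [.t
  960 2 4, .f 1098 3 1, .t 1097 4 1] 154 136 [3, 3, 1] [(120, 119, [3]), (153, 136, [3, 1]), (154,
  136, [3, 3, 1])]) .no (.br 1105 (.hor [.f 1104 1 5] []) .no (.br 1107 (.red [.t 1106 4 1, .t
  1097 4 1, .f 1081 1 3] 154 136 [3, 3, 1] [(152, 136, [1]), (153, 136, [3, 1]), (154, 136, [3, 3,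
  1])]) (.con 136 [3, 3, 3, 1]) (.con 136 [3, 3, 3, 1]) .no .no .no) .no .no .no) .no) .no (.br
  1226 (.con 136 [3, 3, 1, 1]) .no (.red [.t 960 2 4, .f 1098 3 1, .t 1097 4 1] 154 136 [3, 3, 1]
  [(120, 119, [3]), (153, 136, [3, 1]), (154, 136, [3, 3, 1])]) .no (.con 136 [3, 3, 1, 1]) .no)
  .no (.red [.f 1217 5 3, .f 1089 3 1, .f 1081 1 3] 153 136 [3, 1] [(152, 136, [1]), (153, 136,
  [3, 1])]) (.red [.t 1088 1 3, .t 952 1 3, .f 961 1 5] 153 136 [3, 1] [(136, 136, []), (153, 136,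
  [3, 1])])) .no (.hor [.f 976 3 1, .f 968 1 3, .f 968 3 5] [(138, 136, [3, 3]), (139, 136, [3, 3,
  3])]) .no (.hor [.t 968 1 3, .t 832 1 3, .f 841 1 5] [(121, 136, [2, 3]), (138, 136, [3, 3])])
  .no) .no .no .no) (.hor [.f 969 3 5] []) .no .no .no) .no (.br 1225 (.br 1346 (.br 1347 (.hor
  [.f 1346 1 5] []) .no (.br 1224 (.con 136 [3, 1, 1, 1]) .no (.use 1411) .no .no .no) (.red [.f
  1083 3 1, .f 1083 1 3, .f 1211 3 1, .f 1210 1 5] 168 136 [1, 1] [(168, 136, [1, 1])]) .no .no)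
  .no (.red [.t 1353 2 4, .f 1089 3 1, .f 1081 1 3] 153 136 [3, 1] [(152, 136, [1]), (153, 136,
  [3, 1]), (169, 136, [3, 1, 1])]) .no (.red [.t 1210 1 3] 168 136 [1, 1] [(168, 136, [1, 1])])
  (.red [.f 1217 5 1, .f 1217 1 3] 169 136 [3, 1, 1] [(169, 136, [3, 1, 1])])) .no (.br 1224 (.br
  1347 (.use 1412) .no (.con 136 [3, 1, 1, 3]) (.red [.f 1083 3 1, .f 1083 1 3, .f 1211 3 1, .f
  1210 1 5] 168 136 [1, 1] [(168, 136, [1, 1])]) .no (.red [.t 1210 1 3] 168 136 [1, 1] [(168,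
  136, [1, 1])])) .no (.use 1411) .no .no .no) .no (.red [.f 1217 5 3, .f 1089 3 1, .f 1081 1 3]
  153 136 [3, 1] [(152, 136, [1]), (153, 136, [3, 1])]) (.red [.t 1088 1 3, .t 952 1 3, .f 961 1
  5] 153 136 [3, 1] [(136, 136, []), (153, 136, [3, 1])])) .no) (.hor [.f 1098 3 5] []) .no .no
  .no) .no (.br 1225 (.br 1346 (.use 1416) .no (.red [.t 1353 2 4, .f 1089 3 1, .f 1081 1 3] 153
  136 [3, 1] [(152, 136, [1]), (153, 136, [3, 1]), (169, 136, [3, 1, 1])]) .no (.red [.t 1210 1 3]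
  168 136 [1, 1] [(168, 136, [1, 1])]) (.red [.f 1217 5 1, .f 1217 1 3] 169 136 [3, 1, 1] [(169,
  136, [3, 1, 1])])) .no (.use 227) .no (.red [.f 1217 5 3, .f 1089 3 1, .f 1081 1 3] 153 136 [3,
  1] [(152, 136, [1]), (153, 136, [3, 1])]) (.red [.t 1088 1 3, .t 952 1 3, .f 961 1 5] 153 136
  [3, 1] [(136, 136, []), (153, 136, [3, 1])])) .no) (.br 1224 (.br 968 .no .no (.br 969 .no .no
  (.hor [.f 968 3 5] []) .no (.hor [.f 840 3 1, .f 832 1 3, .f 832 3 5] [(121, 136, [2, 3]), (122,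
  136, [2, 3, 3])]) .no) .no (.br 1225 (.hor [.f 1224 1 5] []) .no (.br 1098 (.red [.t 1097 4 1,
  .f 1081 1 3] 153 136 [3, 1] [(152, 136, [1]), (153, 136, [3, 1])]) (.br 1099 (.con 136 [3, 3,
  1]) (.hor [.f 970 1 5] []) (.br 971 .no (.br 1106 (.con 136 [3, 3, 1, 3]) (.red [.f 962 1 3, .f
  962 3 1, .f 970 1 3, .f 1098 3 5] 138 136 [3, 3] [(138, 136, [3, 3])]) (.use 1302) .no .no (.br
  977 .no (.red [.t 848 4 1] 122 136 [2, 3, 3] [(122, 136, [2, 3, 3])]) (.br 978 .no (.br 842 .no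
  (.hor [.f 706 1 3, .f 833 3 5] [(105, 103, [3, 3])]) .no .no .no .no) (.hor [.f 977 3 5] []) .no
  (.red [.f 962 1 3, .f 962 3 1, .t 1098 2 3] 138 136 [3, 3] [(138, 136, [3, 3])]) .no) .no (.use
  355) (.red [.f 968 5 3, .f 840 3 1] 122 136 [2, 3, 3] [(122, 136, [2, 3, 3])]))) (.red [.f 971 3
  1, .f 970 1 5] 138 136 [3, 3] [(138, 136, [3, 3])]) .no .no .no) .no .no .no) (.br 1347 (.use
  1412) .no (.con 136 [3, 1, 1, 3]) (.red [.f 1083 3 1, .f 1083 1 3, .f 1211 3 1, .f 1210 1 5] 168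
  136 [1, 1] [(168, 136, [1, 1])]) .no (.red [.t 1210 1 3] 168 136 [1, 1] [(168, 136, [1, 1])]))
  .no (.use 226) .no) .no (.red [.f 1217 5 3, .f 1089 3 1, .f 1081 1 3] 153 136 [3, 1] [(152, 136,
  [1]), (153, 136, [3, 1])]) .no) .no) .no (.red [.t 960 2 4, .f 1096 3 1, .f 1088 1 3] 153 136
  [3, 1] [(120, 119, [3]), (153, 136, [3, 1]), (154, 136, [3, 1, 3])]) .no (.red [.t 1088 1 3, .t
  952 1 3, .f 961 1 5] 153 136 [3, 1] [(136, 136, []), (153, 136, [3, 1])]) .no) .no .no .no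

def c27t1418 : Tr4 :=
  .br 1226 .no .no (.red [.f 1098 3 1, .t 1097 4 1, .f 1081 1 3] 154 136 [3, 1, 3] [(152, 136,
  [1]), (153, 136, [3, 1]), (154, 136, [3, 1, 3])]) .no (.con 136 [3, 1, 3, 1]) .no

def c27t1419 : Tr4 :=
  .br 1347 (.br 1346 (.hor [.f 1346 1 5] []) .no (.use 1418) .no .no (.red [.f 1217 5 1, .f 1210 1
  3] 168 136 [1, 1] [(168, 136, [1, 1])])) .no (.con 136 [3, 1, 1, 3]) (.red [.f 1083 3 1, .f 1083
  1 3, .f 1211 3 1, .f 1210 1 5] 168 136 [1, 1] [(168, 136, [1, 1])]) .no (.red [.t 1210 1 3] 168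
  136 [1, 1] [(168, 136, [1, 1])])

def c27t1420 : Tr4 :=
  .br 960 .no (.br 833 .no (.hor [.f 705 1 5] []) (.br 824 .no (.use 813) .no (.use 599) (.br 1072
  (.br 705 .no (.use 391) (.hor [.f 705 3 1, .f 705 1 5] [(105, 103, [3, 3])]) (.use 390) .no (.br
  817 .no (.use 393) .no (.use 394) (.br 1211 (.hor [.f 1210 1 5] []) .no (.br 840 (.hor [.t 960 2
  4, .t 824 3 1, .f 832 1 3, .f 832 3 5] [(121, 136, [2, 3])]) (.hor [.t 840 2 4, .f 705 1 5]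
  [(105, 103, [3, 3])]) (.use 1417) .no .no .no) (.use 184) .no .no) (.use 398))) (.hor [.f 944 1
  5] []) .no (.use 395) .no .no) .no) (.red [.f 825 3 1, .f 825 1 5, .t 1073 2 3, .f 954 1 3, .t
  961 2 4] 136 136 [] [(135, 136, [4]), (136, 136, [])]) .no .no) (.br 1096 (.red [.f 1088 1 3, .f
  960 3 1] 153 136 [3, 1] [(137, 136, [3]), (153, 136, [3, 1])]) .no (.br 833 .no (.hor [.f 705 1
  5] []) (.use 1129) (.red [.f 825 3 1, .f 825 1 5, .t 1073 2 3, .f 954 1 3, .t 961 2 4] 136 136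
  [] [(135, 136, [4]), (136, 136, [])]) .no (.br 824 .no (.use 841) .no (.use 599) (.br 1224 (.br
  1225 (.hor [.f 1224 1 5] []) .no (.br 1098 (.red [.t 1097 4 1, .f 1081 1 3] 153 136 [3, 1]
  [(152, 136, [1]), (153, 136, [3, 1])]) (.br 1099 (.con 136 [3, 3, 1]) (.hor [.f 970 1 5] [])
  (.br 971 .no (.use 1262) (.red [.f 971 3 1, .f 970 1 5] 138 136 [3, 3] [(138, 136, [3, 3])]) .no
  .no .no) .no .no .no) (.br 1099 (.con 136 [3, 3, 1]) (.br 970 .no (.br 969 .no (.hor [.f 841 1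
  5] []) (.br 1072 (.br 1211 (.hor [.f 1210 1 5] []) .no (.use 1419) (.use 906) .no .no) (.hor [.f
  944 1 5] []) .no (.use 907) .no .no) .no .no .no) (.hor [.f 970 3 1, .f 970 1 5] [(138, 154,
  [2])]) .no .no (.br 817 .no (.use 939) .no (.use 836) (.br 1072 (.br 1211 (.hor [.f 1210 1 5]
  []) .no (.use 1419) (.br 841 .no (.use 886) (.br 705 .no (.use 1270) (.use 1150) (.use 1271) .no
  (.br 944 .no (.use 1148) .no (.use 293) .no .no)) .no (.use 1140) (.use 904)) .no .no) (.hor [.f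
  944 1 5] []) .no (.use 1272) .no .no) (.use 1033))) (.hor [.f 1098 3 5] []) .no .no .no) .no
  (.use 226) .no) .no (.red [.f 1217 5 3, .f 1089 3 1, .f 1081 1 3] 153 136 [3, 1] [(152, 136,
  [1]), (153, 136, [3, 1])]) .no) .no (.red [.f 1096 3 1, .f 1088 1 3, .f 960 3 1] 153 136 [3, 1]
  [(137, 136, [3]), (153, 136, [3, 1]), (154, 136, [3, 1, 3])]) .no (.red [.t 1088 1 3, .t 952 1
  3, .f 961 1 5] 153 136 [3, 1] [(136, 136, []), (153, 136, [3, 1])]) .no) .no)) .no .no .no) .no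
  .no .no

def c27t1421 : Tr4 :=
  .br 971 (.use 317) (.use 24) (.hor [.f 970 3 5] []) .no .no .no

def c27t1422 : Tr4 :=
  .br 970 .no .no (.use 1421) .no (.use 115) (.br 1099 (.con 136 [3, 3, 1]) (.br 817 .no (.use
  393) .no (.use 394) (.use 253) (.use 398)) (.hor [.f 1098 3 5] []) .no .no .no)

def c27t1423 : Tr4 :=
  .br 817 .no (.use 393) .no (.use 394) (.br 1072 (.br 706 .no (.use 216) (.red [.f 706 3 1, .f
  705 1 5] 105 136 [2, 2, 3] [(105, 136, [2, 2, 3])]) (.use 206) (.br 843 .no (.red [.t 842 4 2,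
  .f 705 1 5] 105 136 [2, 2, 3] [(105, 136, [2, 2, 3])]) (.br 841 (.use 53) (.red [.f 705 1 3] 105
  136 [2, 2, 3] [(105, 136, [2, 2, 3])]) (.use 223) .no .no (.use 282)) .no .no .no) .no) (.hor
  [.f 944 1 5] []) .no (.br 706 .no (.use 216) (.red [.f 706 3 1, .f 705 1 5] 105 136 [2, 2, 3]
  [(105, 136, [2, 2, 3])]) (.use 258) (.br 843 .no (.red [.t 842 4 2, .f 705 1 5] 105 136 [2, 2,
  3] [(105, 136, [2, 2, 3])]) (.br 841 (.use 53) (.red [.f 705 1 3] 105 136 [2, 2, 3] [(105, 136,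
  [2, 2, 3])]) (.use 223) .no .no (.use 285)) .no .no .no) .no) .no .no) (.use 398)

def c27t1424 : Tr4 :=
  .br 1227 (.red [.f 1219 1 3] 169 136 [3, 1, 1] [(169, 136, [3, 1, 1])]) .no (.br 1226 (.hor [.f
  1225 1 5] []) .no (.hor [.f 1226 3 5] []) .no .no .no) .no .no (.red [.f 1098 5 1, .t 1097 4 1,
  .f 1081 1 3] 153 136 [3, 1] [(152, 136, [1]), (153, 136, [3, 1])])

def c27t1425 : Tr4 :=
  .br 1219 .no .no (.red [.t 1089 3 2, .f 1089 5 1, .t 1218 2 3, .f 962 3 1] 153 136 [3, 1] [(153,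
  136, [3, 1])]) (.red [.t 1210 1 3] 168 136 [1, 1] [(168, 136, [1, 1])]) .no .no

def c27t1426 : Tr4 :=
  .br 1345 (.hor [.f 1345 1 5] []) .no .no (.red [.t 1337 3 2, .f 1217 1 3, .f 1089 3 1] 153 136
  [3, 1] [(153, 136, [3, 1]), (168, 136, [1, 1]), (169, 136, [3, 1, 1])]) .no (.con 136 [3, 1, 1,
  1])

def c27t1427 : Tr4 :=
  .br 1224 (.br 1225 (.hor [.f 1224 1 5] []) .no (.br 1098 (.red [.t 1097 4 1, .f 1081 1 3] 153
  136 [3, 1] [(152, 136, [1]), (153, 136, [3, 1])]) (.br 1099 (.con 136 [3, 3, 1]) (.hor [.f 970 1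
  5] []) (.br 971 .no (.br 969 .no (.use 318) (.use 349) .no .no (.br 841 .no (.red [.f 705 1 3]
  105 136 [2, 2, 3] [(105, 136, [2, 2, 3])]) (.use 319) .no .no (.br 1106 (.con 136 [3, 3, 1, 3])
  (.red [.f 962 1 3, .f 962 3 1, .f 970 1 3, .f 1098 3 5] 138 136 [3, 3] [(138, 136, [3, 3])])
  (.use 1302) .no .no (.br 977 .no (.red [.f 840 5 1, .f 841 1 3] 122 136 [2, 3, 3] [(122, 136,
  [2, 3, 3])]) (.br 978 .no (.br 979 .no (.red [.f 843 1 3] 122 136 [2, 3, 3] [(122, 136, [2, 3,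
  3])]) (.con 136 [2, 3, 3, 3]) .no .no .no) (.hor [.f 977 3 5] []) .no (.red [.f 840 5 1, .t 1098
  2 3] 138 136 [3, 3] [(138, 136, [3, 3])]) .no) .no (.use 355) (.red [.f 840 5 1, .f 840 1 5, .f
  968 5 3, .t 969 3 1] 138 136 [3, 3] [(138, 136, [3, 3])]))))) (.red [.f 971 3 1, .f 970 1 5] 138
  136 [3, 3] [(138, 136, [3, 3])]) .no .no .no) .no .no .no) (.br 1099 (.con 136 [3, 3, 1]) (.br
  970 .no .no (.use 317) .no .no (.br 817 .no (.use 393) .no (.use 394) (.br 841 .no (.red [.f 705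
  1 3] 105 136 [2, 2, 3] [(105, 136, [2, 2, 3])]) (.br 706 .no (.use 200) (.red [.f 706 3 1, .f
  705 1 5] 105 136 [2, 2, 3] [(105, 136, [2, 2, 3])]) (.br 1072 (.use 206) (.hor [.f 944 1 5] [])
  .no (.use 258) .no .no) (.use 366) .no) .no .no (.br 1072 (.use 313) (.hor [.f 944 1 5] []) .no
  (.br 706 .no (.use 205) (.red [.f 706 3 1, .f 705 1 5] 105 136 [2, 2, 3] [(105, 136, [2, 2,
  3])]) (.use 258) (.use 370) .no) .no .no)) (.use 398))) (.hor [.f 1098 3 5] []) .no .no .no) .no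
  (.use 226) .no) .no (.red [.f 1217 5 3, .f 1089 3 1, .f 1081 1 3] 153 136 [3, 1] [(152, 136,
  [1]), (153, 136, [3, 1])]) .no) .no (.red [.t 960 2 4, .f 1096 3 1, .f 1088 1 3] 153 136 [3, 1]
  [(120, 119, [3]), (153, 136, [3, 1]), (154, 136, [3, 1, 3])]) .no (.red [.t 1088 1 3, .t 952 1
  3, .f 961 1 5] 153 136 [3, 1] [(136, 136, []), (153, 136, [3, 1])]) .no

def c27t1428 : Tr4 :=
  .br 1225 (.hor [.f 1224 1 5] []) .no (.br 1226 (.con 136 [3, 1, 3, 1]) .no (.red [.f 1098 3 1,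
  .t 1097 4 1, .f 1081 1 3] 154 136 [3, 1, 3] [(152, 136, [1]), (153, 136, [3, 1]), (154, 136, [3,
  1, 3])]) .no (.con 136 [3, 1, 3, 1]) .no) .no (.red [.f 1217 5 3, .f 1089 3 1, .f 1081 1 3] 153
  136 [3, 1] [(152, 136, [1]), (153, 136, [3, 1])]) .no

def c27t1429 : Tr4 :=
  .br 1224 (.use 1428) .no (.red [.f 1096 3 1, .f 1088 1 3, .f 960 3 1] 154 136 [3, 1, 3] [(137,
  136, [3]), (153, 136, [3, 1]), (154, 136, [3, 1, 3])]) .no (.red [.t 1088 1 3, .t 952 1 3, .f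
  961 1 5] 153 136 [3, 1] [(136, 136, []), (153, 136, [3, 1])]) .no

def c27t1430 : Tr4 :=
  .br 1225 (.hor [.f 1224 1 5] []) .no (.use 226) .no (.red [.f 1217 5 3, .f 1089 3 1, .f 1081 1
  3] 153 136 [3, 1] [(152, 136, [1]), (153, 136, [3, 1])]) .no

def c27t1431 : Tr4 :=
  .br 1224 (.use 1430) .no (.red [.f 1096 3 1, .f 1088 1 3, .f 960 3 1] 154 136 [3, 3, 1] [(137,
  136, [3]), (153, 136, [3, 1]), (154, 136, [3, 3, 1])]) .no (.red [.t 1088 1 3, .t 952 1 3, .f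
  961 1 5] 153 136 [3, 1] [(136, 136, []), (153, 136, [3, 1])]) .no

def c27t1432 : Tr4 :=
  .br 1096 (.red [.f 1088 1 3, .f 960 3 1] 153 136 [3, 1] [(137, 136, [3]), (153, 136, [3, 1])])
  .no (.br 1098 (.red [.t 1097 4 1, .f 1081 1 3] 153 136 [3, 1] [(152, 136, [1]), (153, 136, [3,
  1])]) (.use 1283) (.use 1429) .no (.use 1431) .no) .no .no .no

def c27t1433 : Tr4 :=
  .br 960 .no .no (.use 1432) .no .no .no

def c27l50 : List Tr4 :=
  [c27t1417, c27t1418, c27t1419, c27t1420, c27t1421, c27t1422, c27t1423, c27t1424, c27t1425,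
  c27t1426, c27t1427, c27t1428, c27t1429, c27t1430, c27t1431, c27t1432, c27t1433]

theorem c27k50 : chkLF ⟨4, 1, 0, true, -8⟩ false 7 c27N 1417 c27l50 = true := by decide +kernel

def c27t1434 : Tr4 :=
  .br 834 .no (.use 1420) (.br 833 .no (.br 824 .no (.use 1275) (.use 539) (.use 533) (.br 960 .no
  (.br 1096 (.red [.f 1088 1 3, .f 1088 3 5] 153 136 [3, 1] [(153, 136, [3, 1])]) (.br 1098 (.red
  [.t 1097 4 1, .f 1081 1 3] 153 136 [3, 1] [(152, 136, [1]), (153, 136, [3, 1])]) (.use 229)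
  (.use 1422) .no (.br 1225 (.br 970 .no .no (.use 1421) .no (.use 1423) (.br 817 .no (.use 393)
  .no (.use 394) (.br 971 .no (.br 841 .no (.red [.f 705 1 3] 105 136 [2, 2, 3] [(105, 136, [2, 2,
  3])]) (.use 222) .no .no (.br 1346 (.br 1219 (.use 1424) .no (.red [.t 1089 3 2, .f 1089 5 1, .t
  1218 2 3, .f 962 3 1] 153 136 [3, 1] [(153, 136, [3, 1])]) (.br 1347 (.hor [.f 1346 1 5] []) .no
  (.br 1224 (.con 136 [3, 1, 1, 1]) .no (.br 1104 .no (.red [.t 960 2 4, .f 968 1 3, .f 1096 3 1,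
  .f 1088 1 3] 138 136 [3, 3] [(120, 119, [3]), (138, 136, [3, 3]), (153, 136, [3, 1]), (154, 136,
  [3, 3, 1])]) (.br 976 .no (.br 1105 (.red [.t 960 2 4, .t 1096 2 4, .t 1232 4 2] 154 136 [3, 3,
  1] [(120, 119, [3]), (137, 136, [3]), (154, 136, [3, 3, 1])]) (.use 260) (.hor [.f 1104 3 5] [])
  .no (.use 261) .no) (.red [.f 976 3 1, .f 968 1 3] 138 136 [3, 3] [(138, 136, [3, 3]), (139,
  136, [3, 3, 3])]) .no (.br 1105 (.red [.t 960 2 4, .t 1096 2 4, .t 1232 4 2] 154 136 [3, 3, 1]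
  [(120, 119, [3]), (137, 136, [3]), (154, 136, [3, 3, 1])]) .no (.hor [.f 1104 3 5] []) .no (.use
  1426) .no) .no) .no (.red [.t 1089 3 2, .f 968 1 5, .f 1096 5 3, .f 1096 3 1] 154 136 [3, 3, 1]
  [(137, 136, [3]), (154, 136, [3, 3, 1])]) .no) .no .no .no) (.red [.f 1083 3 1, .f 1083 1 3, .f
  1211 3 1, .f 1210 1 5] 168 136 [1, 1] [(168, 136, [1, 1])]) .no .no) .no .no) .no (.red [.t 1353
  2 4, .f 1089 3 1, .f 1081 1 3] 153 136 [3, 1] [(152, 136, [1]), (153, 136, [3, 1]), (169, 136,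
  [3, 1, 1])]) .no (.use 1425) (.red [.f 1217 5 1, .f 1217 1 3, .f 1089 3 1] 153 136 [3, 1] [(153,
  136, [3, 1]), (169, 136, [3, 1, 1])]))) (.use 286) .no .no .no) (.use 398))) .no (.use 227) .no
  (.red [.f 1217 5 3, .f 1089 3 1, .f 1081 1 3] 153 136 [3, 1] [(152, 136, [1]), (153, 136, [3,
  1])]) (.red [.t 1088 1 3, .t 952 1 3, .f 961 1 5] 153 136 [3, 1] [(136, 136, []), (153, 136, [3,
  1])])) .no) (.use 1427) .no .no .no) (.use 1432) .no .no .no) .no) (.hor [.f 833 3 5] []) (.red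
  [.f 825 3 1, .f 825 1 5, .t 1073 2 3, .f 954 1 3, .t 961 2 4] 136 136 [] [(135, 136, [4]), (136,
  136, [])]) .no (.use 1433)) .no .no (.red [.t 953 3 2, .t 1073 2 3, .f 954 1 3, .f 826 3 1] 136
  136 [] [(135, 136, [4]), (136, 136, [])])

def c27t1435 : Tr4 :=
  .br 1073 (.red [.f 1073 1 3, .f 1073 3 5, .t 961 4 1] 136 136 [] [(136, 136, []), (151, 135,
  [1])]) .no .no (.use 476) .no .no

def c27t1436 : Tr4 :=
  .br 816 .no (.use 1319) .no (.use 1435) (.use 1324) .no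

def c27t1437 : Tr4 :=
  .br 1345 (.hor [.f 1345 1 5] []) .no .no (.red [.t 1337 3 2, .f 1217 1 3, .f 1089 3 1] 153 136
  [3, 1] [(153, 136, [3, 1]), (168, 136, [1, 1]), (169, 136, [3, 1, 1])]) .no (.con 136 [3, 1, 1,
  1])

def c27t1438 : Tr4 :=
  .br 1346 (.br 1347 (.hor [.f 1346 1 5] []) .no (.br 1226 (.hor [.f 1225 1 5] []) .no (.red [.f
  1098 3 1, .t 1097 4 1, .f 1081 1 3] 153 136 [3, 1] [(152, 136, [1]), (153, 136, [3, 1]), (154,
  136, [3, 1, 3])]) .no (.use 1437) .no) (.red [.f 1083 3 1, .f 1083 1 3, .f 1211 3 1, .f 1210 1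
  5] 168 136 [1, 1] [(168, 136, [1, 1])]) .no .no) .no (.red [.t 1353 2 4, .f 1089 3 1, .f 1081 1
  3] 153 136 [3, 1] [(152, 136, [1]), (153, 136, [3, 1]), (169, 136, [3, 1, 1])]) .no (.red [.t
  1210 1 3] 168 136 [1, 1] [(168, 136, [1, 1])]) (.red [.f 1217 5 1, .f 1217 1 3] 169 136 [3, 1,
  1] [(169, 136, [3, 1, 1])])

def c27t1439 : Tr4 :=
  .br 936 (.red [.f 944 5 1, .f 936 1 3, .f 808 3 1] 118 136 [2, 4, 4] [(118, 136, [2, 4, 4]),
  (134, 136, [4, 4])]) .no .no (.br 1211 (.hor [.f 1210 1 5] []) .no (.use 1438) (.use 1326) .no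
  .no) (.red [.f 936 5 3, .f 808 3 1] 118 136 [2, 4, 4] [(118, 136, [2, 4, 4])]) .no

def c27t1440 : Tr4 :=
  .br 816 .no (.use 1319) .no (.use 1435) (.use 1322) .no

def c27t1441 : Tr4 :=
  .br 824 .no (.br 1225 (.br 1072 (.use 1436) .no .no (.use 1395) (.br 1208 (.br 816 .no (.use
  1319) .no (.use 1439) (.use 1324) .no) .no .no (.red [.t 1208 4 2, .f 1073 3 5, .t 961 4 1] 136
  136 [] [(136, 136, []), (151, 135, [1])]) .no .no) .no) .no (.br 1072 (.use 1436) .no .no (.use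
  1395) (.br 1208 (.br 816 .no (.use 1319) .no (.br 936 (.red [.f 944 5 1, .f 936 1 3, .f 808 3 1]
  118 136 [2, 4, 4] [(118, 136, [2, 4, 4]), (134, 136, [4, 4])]) .no .no (.br 1211 (.hor [.f 1210
  1 5] []) .no (.br 1347 (.br 1346 (.hor [.f 1346 1 5] []) .no (.br 1224 (.use 1418) .no (.hor [.f
  1224 3 5] []) .no .no .no) .no .no (.red [.f 1217 5 1, .f 1210 1 3] 168 136 [1, 1] [(168, 136,
  [1, 1])])) .no (.br 1224 (.con 136 [3, 1, 1, 3]) .no (.hor [.f 1224 3 5] []) .no .no .no) (.red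
  [.f 1083 3 1, .f 1083 1 3, .f 1211 3 1, .f 1210 1 5] 168 136 [1, 1] [(168, 136, [1, 1])]) .no
  (.red [.t 1210 1 3] 168 136 [1, 1] [(168, 136, [1, 1])])) (.use 1326) .no .no) (.red [.f 936 5
  3, .f 808 3 1] 118 136 [2, 4, 4] [(118, 136, [2, 4, 4])]) .no) (.use 1324) .no) .no .no (.red
  [.t 1208 4 2, .f 1073 3 5, .t 961 4 1] 136 136 [] [(136, 136, []), (151, 135, [1])]) .no .no)
  .no) .no (.red [.f 1217 5 3, .f 1089 3 1, .f 1081 1 3] 153 136 [3, 1] [(152, 136, [1]), (153,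
  136, [3, 1])]) (.red [.t 1088 1 3, .t 952 1 3, .f 961 1 5] 153 136 [3, 1] [(136, 136, []), (153,
  136, [3, 1])])) .no (.use 1320) (.br 1224 (.use 1428) .no (.br 1225 (.br 1211 (.hor [.f 1210 1
  5] []) .no (.use 1438) (.br 1072 (.use 1440) .no .no (.use 1395) (.br 1208 (.br 817 .no (.br 816
  .no (.use 1319) .no (.use 1439) .no .no) .no (.use 836) (.use 256) (.use 1322)) .no .no (.red
  [.t 1208 4 2, .f 1073 3 5, .t 961 4 1] 136 136 [] [(136, 136, []), (151, 135, [1])]) .no .no)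
  .no) .no .no) .no (.hor [.f 1224 3 5] []) .no (.red [.f 1217 5 3, .f 1089 3 1, .f 1081 1 3] 153
  136 [3, 1] [(152, 136, [1]), (153, 136, [3, 1])]) .no) .no (.red [.t 1088 1 3, .t 952 1 3, .f
  961 1 5] 153 136 [3, 1] [(136, 136, []), (153, 136, [3, 1])]) .no) .no

def c27t1442 : Tr4 :=
  .br 698 .no (.con 136 [2, 2, 2, 4]) .no (.hor [.f 689 3 5] []) .no .no

def c27t1443 : Tr4 :=
  .br 1106 (.con 136 [3, 3, 3]) (.hor [.f 977 1 5] []) (.con 136 [3, 3, 3]) .no (.con 136 [3, 3,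
  3]) .no

def c27t1444 : Tr4 :=
  .br 1226 (.hor [.f 1225 1 5] []) .no (.red [.f 970 5 1, .f 962 1 3, .f 1089 3 5, .f 1097 5 3, .f
  1098 3 1] 154 136 [3, 3, 1] [(137, 136, [3]), (154, 136, [3, 3, 1])]) .no (.use 1437) .no

def c27t1445 : Tr4 :=
  .br 971 .no (.use 24) (.hor [.f 970 3 5] []) .no .no .no

def c27t1446 : Tr4 :=
  .br 834 .no (.br 705 .no (.br 697 .no (.red [.f 569 1 3] 88 136 [2, 2, 2] [(88, 136, [2, 2,
  2])]) .no (.use 1442) (.red [.t 833 4 2, .f 696 1 5] 104 136 [2, 2] [(104, 136, [2, 2])]) .no)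
  (.br 697 .no (.br 1201 (.use 477) .no .no (.br 698 .no (.hor [.f 569 1 5] []) .no (.br 817 .no
  (.red [.f 825 3 1, .f 825 1 5, .t 689 1 3, .f 698 1 3] 104 136 [2, 2] [(103, 136, [2, 2, 4]),
  (104, 136, [2, 2]), (120, 104, [1])]) .no (.use 836) (.br 937 (.br 1064 (.br 1202 (.red [.f 1202
  1 3, .f 1074 3 1, .f 1081 1 5, .t 961 4 1] 136 136 [] [(136, 136, []), (151, 135, [1]), (167,
  168, [4])]) .no .no (.use 42) (.hor [.t 1192 2 3, .f 1073 1 3, .f 1073 3 5] [(150, 119, [1, 1,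
  4]), (151, 119, [1, 1])]) .no) .no .no (.red [.f 928 3 1, .f 936 1 5] 133 136 [4, 4, 4] [(133,
  136, [4, 4, 4])]) .no .no) (.red [.t 937 2 3, .f 808 3 5] 118 136 [2, 4, 4] [(118, 136, [2, 4,
  4])]) .no (.hor [.f 928 3 5] []) .no .no) .no) .no .no) (.red [.t 1081 1 4, .t 961 4 1] 136 136
  [] [(136, 136, []), (151, 135, [1])]) (.red [.f 1072 5 1, .f 1073 1 3, .f 1073 3 5, .t 961 4 1]
  136 136 [] [(136, 136, []), (151, 135, [1])])) .no (.use 1442) (.red [.t 833 4 2, .f 696 1 5]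
  104 136 [2, 2] [(104, 136, [2, 2])]) .no) (.red [.f 697 3 1, .f 696 1 5] 104 136 [2, 2] [(104,
  136, [2, 2])]) .no (.red [.f 944 5 1, .t 824 2 3] 104 136 [2, 2] [(104, 136, [2, 2])])) (.br
  1224 (.con 136 [3, 1, 1, 1]) .no (.br 970 .no .no (.use 1445) .no (.br 969 .no (.br 1104 .no
  (.red [.f 825 3 1, .f 968 1 3, .f 1096 3 1, .f 1088 1 3] 138 136 [3, 3] [(120, 104, [1]), (138,
  136, [3, 3]), (153, 136, [3, 1]), (154, 136, [3, 3, 1])]) (.br 976 .no (.br 977 (.use 107) (.red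
  [.f 841 1 3] 122 136 [2, 3, 3] [(122, 136, [2, 3, 3])]) (.use 108) .no (.br 1105 (.red [.f 825 3
  1, .f 832 1 5, .t 1096 2 4, .t 1232 4 2] 154 136 [3, 3, 1] [(120, 104, [1]), (137, 136, [3]),
  (154, 136, [3, 3, 1])]) .no (.hor [.f 1104 3 5] []) .no (.red [.f 977 5 1, .f 970 5 1, .f 970 1
  3] 138 136 [3, 3] [(138, 136, [3, 3])]) .no) .no) (.red [.f 976 3 1, .f 968 1 3] 138 136 [3, 3]
  [(138, 136, [3, 3]), (139, 136, [3, 3, 3])]) .no (.br 1105 (.red [.f 825 3 1, .f 832 1 5, .t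
  1096 2 4, .t 1232 4 2] 154 136 [3, 3, 1] [(120, 104, [1]), (137, 136, [3]), (154, 136, [3, 3,
  1])]) .no (.hor [.f 1104 3 5] []) .no (.use 1444) .no) .no) .no (.br 977 .no (.red [.f 841 1 3]
  122 136 [2, 3, 3] [(122, 136, [2, 3, 3])]) (.br 976 .no (.use 108) (.hor [.f 976 3 5] []) .no
  .no .no) .no (.red [.f 825 3 1, .t 834 3 1, .f 841 1 5, .f 969 5 3, .t 968 1 3] 138 136 [3, 3]
  [(120, 104, [1]), (121, 105, [1]), (138, 136, [3, 3])]) (.red [.f 976 5 1, .f 968 1 3, .f 1096 3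
  1, .f 1088 1 3] 138 136 [3, 3] [(138, 136, [3, 3]), (153, 136, [3, 1]), (154, 136, [3, 3, 1])]))
  .no) (.br 1104 .no (.red [.f 825 3 1, .f 968 1 3, .f 1096 3 1, .f 1088 1 3] 138 136 [3, 3]
  [(120, 104, [1]), (138, 136, [3, 3]), (153, 136, [3, 1]), (154, 136, [3, 3, 1])]) (.br 1105
  (.red [.f 825 3 1, .f 832 1 5, .t 1096 2 4, .t 1232 4 2] 154 136 [3, 3, 1] [(120, 104, [1]),
  (137, 136, [3]), (154, 136, [3, 3, 1])]) .no (.hor [.f 1104 3 5] []) .no (.use 1414) .no) .no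
  (.red [.f 825 3 1, .t 968 1 3, .f 1096 3 1] 138 136 [3, 3] [(120, 104, [1]), (138, 136, [3, 3]),
  (154, 136, [3, 3, 1])]) .no) .no .no .no) (.br 1104 .no (.red [.f 825 3 1, .f 968 1 3, .f 1096 3
  1, .f 1088 1 3] 138 136 [3, 3] [(120, 104, [1]), (138, 136, [3, 3]), (153, 136, [3, 1]), (154,
  136, [3, 3, 1])]) (.br 971 .no (.br 1105 (.red [.f 825 3 1, .f 832 1 5, .t 1096 2 4, .t 1232 4
  2] 154 136 [3, 3, 1] [(120, 104, [1]), (137, 136, [3]), (154, 136, [3, 3, 1])]) (.use 1443)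
  (.hor [.f 1104 3 5] []) .no (.use 1426) .no) (.br 1105 (.red [.f 825 3 1, .f 832 1 5, .t 1096 2
  4, .t 1232 4 2] 154 136 [3, 3, 1] [(120, 104, [1]), (137, 136, [3]), (154, 136, [3, 3, 1])])
  (.br 1106 (.con 136 [3, 3, 3]) (.hor [.f 977 1 5] []) (.con 136 [3, 3, 3]) .no (.con 136 [3, 3,
  3]) .no) (.hor [.f 1104 3 5] []) .no (.use 1426) .no) .no .no .no) .no (.red [.t 1089 3 2, .f
  968 1 5, .f 1096 5 3, .f 1096 3 1] 154 136 [3, 3, 1] [(137, 136, [3]), (154, 136, [3, 3, 1])])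
  .no)) .no .no .no) .no .no .no

def c27t1447 : Tr4 :=
  .br 1105 (.hor [.f 1105 1 5] []) .no (.hor [.f 1104 3 5] []) .no .no .no

def c27t1448 : Tr4 :=
  .br 1104 (.use 1413) (.red [.f 968 1 3, .f 968 3 5] 138 136 [3, 3] [(138, 136, [3, 3])]) (.use
  1447) .no (.red [.t 968 1 3] 138 136 [3, 3] [(138, 136, [3, 3])]) .no

def c27t1449 : Tr4 :=
  .br 936 (.red [.f 944 5 1, .f 936 1 3, .f 808 3 1] 118 136 [4, 2, 4] [(118, 136, [4, 2, 4]),
  (134, 136, [4, 4])]) .no .no (.br 1211 (.hor [.f 1210 1 5] []) .no (.br 1347 (.hor [.f 1346 1 5]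
  []) .no (.use 1414) (.red [.f 1083 3 1, .f 1083 1 3, .f 1211 3 1, .f 1210 1 5] 168 136 [1, 1]
  [(168, 136, [1, 1])]) .no .no) (.use 1326) .no .no) (.red [.f 936 5 3, .f 808 3 1] 118 136 [4,
  2, 4] [(118, 136, [4, 2, 4])]) .no

def c27t1450 : Tr4 :=
  .br 936 (.red [.f 944 5 1, .f 936 1 3, .f 808 3 1] 118 136 [2, 4, 4] [(118, 136, [2, 4, 4]),
  (134, 136, [4, 4])]) .no .no (.br 1211 (.hor [.f 1210 1 5] []) .no (.br 1347 (.hor [.f 1346 1 5]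
  []) .no (.br 969 .no (.br 1224 (.con 136 [3, 1, 1, 1]) .no (.br 1226 (.hor [.f 1225 1 5] []) .no
  (.br 1106 .no (.red [.f 970 5 1, .f 970 1 3] 138 136 [3, 3] [(138, 136, [3, 3])]) (.br 1107
  (.con 136 [3, 1, 1, 3, 2]) (.br 976 (.red [.f 968 1 3, .f 1096 3 1, .f 1088 1 3, .f 1088 3 5]
  138 136 [3, 3] [(138, 136, [3, 3]), (153, 136, [3, 1]), (154, 136, [3, 3, 1])]) (.con 136 [3, 3,
  3]) (.con 136 [3, 3, 3]) .no (.con 136 [3, 3, 3]) .no) (.hor [.f 1106 3 5] []) .no .no .no) .no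
  (.red [.f 1098 5 3, .f 1098 3 1, .t 1097 4 1, .f 1081 1 3] 154 136 [3, 3, 1] [(152, 136, [1]),
  (153, 136, [3, 1]), (154, 136, [3, 3, 1])]) (.use 1444)) .no (.use 1437) .no) .no .no .no) (.br
  1104 (.use 1415) (.red [.f 968 1 3, .f 968 3 5] 138 136 [3, 3] [(138, 136, [3, 3])]) (.br 1105
  (.br 1224 (.con 136 [3, 1, 1, 1]) .no (.br 1226 (.hor [.f 1225 1 5] []) .no (.br 1106 .no (.red
  [.f 970 5 1, .f 970 1 3] 138 136 [3, 3] [(138, 136, [3, 3])]) (.br 1107 (.con 136 [3, 1, 1, 3,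
  2]) (.con 136 [3, 3, 3]) (.hor [.f 1106 3 5] []) .no .no .no) .no (.red [.f 1098 5 3, .f 1098 3
  1, .t 1097 4 1, .f 1081 1 3] 154 136 [3, 3, 1] [(152, 136, [1]), (153, 136, [3, 1]), (154, 136,
  [3, 3, 1])]) .no) .no (.use 1437) .no) .no .no .no) .no (.hor [.f 1104 3 5] []) .no (.use 1414)
  .no) .no (.red [.t 968 1 3] 138 136 [3, 3] [(138, 136, [3, 3])]) .no) .no .no .no) (.red [.f
  1083 3 1, .f 1083 1 3, .f 1211 3 1, .f 1210 1 5] 168 136 [1, 1] [(168, 136, [1, 1])]) .no .no)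
  (.use 1326) .no .no) (.red [.f 936 5 3, .f 808 3 1] 118 136 [2, 4, 4] [(118, 136, [2, 4, 4])])
  .no

def c27t1451 : Tr4 :=
  .br 1105 (.red [.t 1089 3 2, .f 968 1 5, .t 1232 4 2] 154 136 [3, 3, 1] [(137, 136, [3]), (154,
  136, [3, 3, 1])]) (.con 136 [3, 3, 3]) (.hor [.f 1104 3 5] []) .no .no .no

def c27t1452 : Tr4 :=
  .br 1219 (.use 1424) .no (.red [.t 1089 3 2, .f 1089 5 1, .t 1218 2 3, .f 962 3 1] 153 136 [3,
  1] [(153, 136, [3, 1])]) (.br 1347 (.hor [.f 1346 1 5] []) .no (.br 971 .no (.br 1224 (.con 136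
  [3, 1, 1, 1]) .no (.br 1104 .no (.red [.t 1089 3 2, .f 968 1 3, .f 1096 3 1] 138 136 [3, 3]
  [(137, 136, [3]), (138, 136, [3, 3]), (154, 136, [3, 3, 1])]) (.br 1105 (.red [.t 1089 3 2, .f
  968 1 5, .t 1232 4 2] 154 136 [3, 3, 1] [(137, 136, [3]), (154, 136, [3, 3, 1])]) (.use 1443)
  (.hor [.f 1104 3 5] []) .no (.use 1426) .no) .no (.red [.t 1089 3 2, .f 968 1 5, .f 1096 5 3, .f
  1096 3 1] 154 136 [3, 3, 1] [(137, 136, [3]), (154, 136, [3, 3, 1])]) .no) .no .no .no) (.br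
  1106 (.br 1224 (.con 136 [3, 1, 1, 1]) .no (.br 1104 .no (.red [.t 1089 3 2, .f 968 1 3, .f 1096
  3 1] 138 136 [3, 3] [(137, 136, [3]), (138, 136, [3, 3]), (154, 136, [3, 3, 1])]) (.br 1105
  (.red [.t 1089 3 2, .f 968 1 5, .t 1232 4 2] 154 136 [3, 3, 1] [(137, 136, [3]), (154, 136, [3,
  3, 1])]) (.con 136 [3, 3, 3]) (.hor [.f 1104 3 5] []) .no .no .no) .no (.red [.t 1089 3 2, .f
  968 1 5, .f 1096 5 3, .f 1096 3 1] 154 136 [3, 3, 1] [(137, 136, [3]), (154, 136, [3, 3, 1])])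
  .no) .no .no .no) (.red [.t 978 1 4] 138 136 [3, 3] [(138, 136, [3, 3])]) (.br 1224 (.con 136
  [3, 1, 1, 1]) .no (.br 1104 .no (.red [.t 1089 3 2, .f 968 1 3, .f 1096 3 1] 138 136 [3, 3]
  [(137, 136, [3]), (138, 136, [3, 3]), (154, 136, [3, 3, 1])]) (.use 1451) .no (.red [.t 1089 3
  2, .f 968 1 5, .f 1096 5 3, .f 1096 3 1] 154 136 [3, 3, 1] [(137, 136, [3]), (154, 136, [3, 3,
  1])]) .no) .no .no .no) .no (.red [.f 1098 5 3, .f 971 3 1] 138 136 [3, 3] [(138, 136, [3, 3])])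
  (.use 1426)) .no .no .no) (.red [.f 1083 3 1, .f 1083 1 3, .f 1211 3 1, .f 1210 1 5] 168 136 [1,
  1] [(168, 136, [1, 1])]) .no .no) .no .no

def c27t1453 : Tr4 :=
  .br 936 (.red [.f 944 5 1, .f 936 1 3, .f 808 3 1] 118 136 [2, 4, 4] [(118, 136, [2, 4, 4]),
  (134, 136, [4, 4])]) .no .no (.use 1326) (.red [.f 936 5 3, .f 808 3 1] 118 136 [2, 4, 4] [(118,
  136, [2, 4, 4])]) .no

def c27l51 : List Tr4 :=
  [c27t1434, c27t1435, c27t1436, c27t1437, c27t1438, c27t1439, c27t1440, c27t1441, c27t1442,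
  c27t1443, c27t1444, c27t1445, c27t1446, c27t1447, c27t1448, c27t1449, c27t1450, c27t1451,
  c27t1452, c27t1453]

theorem c27k51 : chkLF ⟨4, 1, 0, true, -8⟩ false 7 c27N 1434 c27l51 = true := by decide +kernel

def c27t1454 : Tr4 :=
  .br 824 .no (.br 1072 (.use 1436) .no .no (.use 1395) (.br 1208 (.br 1346 (.br 825 .no (.use 5)
  (.br 816 .no (.use 1319) .no (.br 936 (.red [.f 944 5 1, .f 936 1 3, .f 808 3 1] 118 136 [2, 4,
  4] [(118, 136, [2, 4, 4]), (134, 136, [4, 4])]) .no .no (.br 1211 (.hor [.f 1210 1 5] []) .no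
  (.br 1347 (.hor [.f 1346 1 5] []) .no (.use 1446) (.red [.f 1083 3 1, .f 1083 1 3, .f 1211 3 1,
  .f 1210 1 5] 168 136 [1, 1] [(168, 136, [1, 1])]) .no .no) (.use 1326) .no .no) (.red [.f 936 5
  3, .f 808 3 1] 118 136 [2, 4, 4] [(118, 136, [2, 4, 4])]) .no) (.use 1323) .no) (.br 970 .no
  (.br 971 .no (.hor [.f 842 1 5] []) (.br 969 .no (.hor [.f 841 1 5] []) (.br 978 (.red [.t 978 1
  4] 138 136 [3, 3] [(138, 136, [3, 3])]) (.hor [.f 842 1 3, .f 969 3 5] [(122, 138, [2])]) (.br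
  1106 (.use 1448) .no (.red [.f 978 3 1, .t 978 1 4] 138 136 [3, 3] [(138, 136, [3, 3]), (139,
  136, [3, 3, 3])]) .no (.red [.f 1098 5 3, .f 971 3 1] 138 136 [3, 3] [(138, 136, [3, 3])]) (.br
  816 .no (.use 537) .no (.use 1449) .no .no)) .no .no .no) .no .no .no) .no .no .no) (.use 1445)
  .no (.br 816 .no (.use 537) .no (.use 1450) .no .no) (.use 1452)) .no .no) .no (.red [.t 1353 2
  4, .f 1089 3 1, .f 1081 1 3] 153 136 [3, 1] [(152, 136, [1]), (153, 136, [3, 1]), (169, 136, [3,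
  1, 1])]) .no (.br 1211 (.hor [.f 1210 1 5] []) .no (.red [.t 1210 1 3] 168 136 [1, 1] [(168,
  136, [1, 1])]) (.br 816 .no (.use 1319) .no (.use 1453) (.use 1324) .no) .no .no) (.red [.f 1217
  5 1, .f 1217 1 3, .f 1089 3 1] 153 136 [3, 1] [(153, 136, [3, 1]), (169, 136, [3, 1, 1])])) .no
  .no (.red [.t 1208 4 2, .f 1073 3 5, .t 961 4 1] 136 136 [] [(136, 136, []), (151, 135, [1])])
  .no .no) .no) .no (.use 1320) (.br 1072 (.use 1440) .no .no (.use 1395) (.br 1208 (.br 1346 (.br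
  970 .no (.br 971 .no (.hor [.f 842 1 5] []) (.br 969 .no (.hor [.f 841 1 5] []) (.br 978 (.red
  [.t 978 1 4] 138 136 [3, 3] [(138, 136, [3, 3])]) (.hor [.f 842 1 3, .f 969 3 5] [(122, 138,
  [2])]) (.br 1106 (.use 1448) .no (.red [.f 978 3 1, .t 978 1 4] 138 136 [3, 3] [(138, 136, [3,
  3]), (139, 136, [3, 3, 3])]) .no (.red [.f 1098 5 3, .f 971 3 1] 138 136 [3, 3] [(138, 136, [3,
  3])]) (.br 816 .no (.use 1319) .no (.use 1449) (.use 1322) .no)) .no .no .no) .no .no .no) .no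
  .no .no) (.use 1445) .no (.br 816 .no (.use 1319) .no (.use 1450) (.use 1322) .no) (.use 1452))
  .no (.red [.t 1353 2 4, .f 1089 3 1, .f 1081 1 3] 153 136 [3, 1] [(152, 136, [1]), (153, 136,
  [3, 1]), (169, 136, [3, 1, 1])]) .no (.br 1211 (.hor [.f 1210 1 5] []) .no (.red [.t 1210 1 3]
  168 136 [1, 1] [(168, 136, [1, 1])]) (.br 816 .no (.use 1319) .no (.use 1453) (.use 1322) .no)
  .no .no) (.red [.f 1217 5 1, .f 1217 1 3, .f 1089 3 1] 153 136 [3, 1] [(153, 136, [3, 1]), (169,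
  136, [3, 1, 1])])) .no .no (.red [.t 1208 4 2, .f 1073 3 5, .t 961 4 1] 136 136 [] [(136, 136,
  []), (151, 135, [1])]) .no .no) .no) .no

def c27t1455 : Tr4 :=
  .br 978 .no (.use 416) (.hor [.f 978 3 5] []) .no .no (.use 355)

def c27t1456 : Tr4 :=
  .br 1224 (.br 1098 (.red [.t 1097 4 1, .f 1081 1 3] 153 136 [3, 1] [(152, 136, [1]), (153, 136,
  [3, 1])]) (.br 1225 (.hor [.f 1224 1 5] []) .no (.br 1099 (.con 136 [3, 3, 1]) (.hor [.f 970 1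
  5] []) (.br 971 .no (.br 1106 (.con 136 [3, 3, 1, 3]) (.red [.f 962 1 3, .f 962 3 1, .f 970 1 3,
  .f 1098 3 5] 138 136 [3, 3] [(138, 136, [3, 3])]) (.use 1302) .no .no (.br 969 .no (.br 968 .no
  (.hor [.f 840 1 5] []) (.con 136 [2, 3, 3]) .no .no .no) (.red [.f 962 1 3, .f 962 3 1, .t 969 3
  1] 138 136 [3, 3] [(138, 136, [3, 3])]) .no .no (.br 979 .no (.red [.f 843 1 3] 122 136 [2, 3,
  3] [(122, 136, [2, 3, 3])]) (.use 1455) .no .no (.red [.f 962 1 3, .f 962 3 1, .t 1098 2 3] 138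
  136 [3, 3] [(138, 136, [3, 3])])))) (.red [.f 971 3 1, .f 970 1 5] 138 136 [3, 3] [(138, 136,
  [3, 3])]) .no .no .no) .no .no .no) .no (.red [.f 1217 5 3, .f 1089 3 1, .f 1081 1 3] 153 136
  [3, 1] [(152, 136, [1]), (153, 136, [3, 1])]) .no) (.use 1428) .no (.use 1430) .no) .no (.red
  [.f 1096 3 1, .f 1088 1 3, .f 1088 3 5] 153 136 [3, 1] [(153, 136, [3, 1]), (154, 136, [3, 1,
  3])]) .no (.red [.t 1088 1 3, .t 952 1 3, .f 961 1 5] 153 136 [3, 1] [(136, 136, []), (153, 136,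
  [3, 1])]) .no

def c27t1457 : Tr4 :=
  .br 1099 (.con 136 [3, 3, 1]) .no (.br 969 .no (.br 834 .no (.br 833 .no (.hor [.f 705 1 5] [])
  .no (.br 832 .no (.use 1318) (.hor [.f 832 3 1, .f 840 1 5] [(121, 122, [4])]) (.hor [.f 824 3
  5] []) .no .no) .no (.use 1262)) (.use 1283) .no .no (.br 1106 (.con 136 [3, 3, 1, 3]) (.red [.f
  962 1 3, .f 962 3 1, .f 970 1 3, .f 1098 3 5] 138 136 [3, 3] [(138, 136, [3, 3])]) (.use 1302)
  .no .no (.br 977 .no (.red [.f 841 1 3] 122 136 [2, 3, 3] [(122, 136, [2, 3, 3])]) (.use 1303)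
  .no (.red [.f 977 5 1, .f 970 1 3] 138 136 [3, 3] [(138, 136, [3, 3])]) (.br 979 .no (.red [.f
  843 1 3] 122 136 [2, 3, 3] [(122, 136, [2, 3, 3])]) (.br 978 .no (.con 136 [2, 3, 3, 3]) (.hor
  [.f 978 3 5] []) .no .no .no) .no .no (.red [.t 953 3 2, .t 1098 2 3] 138 136 [3, 3] [(120, 119,
  [3]), (138, 136, [3, 3])]))))) (.use 1261) .no .no .no) .no .no .no

def c27t1458 : Tr4 :=
  .br 1096 (.red [.f 1088 1 3, .f 960 3 1] 153 136 [3, 1] [(137, 136, [3]), (153, 136, [3, 1])])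
  .no (.br 1098 (.red [.t 1097 4 1, .f 1081 1 3] 153 136 [3, 1] [(152, 136, [1]), (153, 136, [3,
  1])]) (.br 1224 (.br 971 (.hor [.f 970 1 5] []) (.br 1225 (.hor [.f 1224 1 5] []) .no (.use
  1457) .no (.red [.f 1217 5 3, .f 1089 3 1, .f 1081 1 3] 153 136 [3, 1] [(152, 136, [1]), (153,
  136, [3, 1])]) .no) (.use 1282) .no .no .no) .no (.red [.f 1096 3 1, .f 1088 1 3, .f 960 3 1]
  154 136 [3, 1, 3] [(137, 136, [3]), (153, 136, [3, 1]), (154, 136, [3, 1, 3])]) .no (.red [.t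
  1088 1 3, .t 952 1 3, .f 961 1 5] 153 136 [3, 1] [(136, 136, []), (153, 136, [3, 1])]) .no)
  (.use 1429) .no (.use 1431) .no) .no .no .no

def c27t1459 : Tr4 :=
  .br 841 .no (.red [.f 705 1 3] 105 136 [2, 2, 3] [(105, 136, [2, 2, 3])]) (.use 450) .no (.use
  463) (.red [.f 840 5 1, .f 832 1 3] 121 136 [2, 3] [(121, 136, [2, 3])])

def c27t1460 : Tr4 :=
  .br 1098 (.red [.t 1097 4 1, .f 1081 1 3] 153 136 [3, 1] [(152, 136, [1]), (153, 136, [3, 1])])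
  (.br 968 .no (.red [.f 832 1 3] 121 136 [2, 3] [(121, 136, [2, 3])]) (.use 449) .no (.br 1225
  (.hor [.f 1224 1 5] []) .no (.use 1459) .no (.red [.f 1217 5 3, .f 1089 3 1, .f 1081 1 3] 153
  136 [3, 1] [(152, 136, [1]), (153, 136, [3, 1])]) .no) .no) (.use 440) .no (.use 1430) .no

def c27t1461 : Tr4 :=
  .br 969 .no .no (.hor [.f 968 3 5] []) .no (.br 1224 (.br 1098 (.red [.t 1097 4 1, .f 1081 1 3]
  153 136 [3, 1] [(152, 136, [1]), (153, 136, [3, 1])]) .no (.use 440) .no (.use 1430) .no) .no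
  (.red [.f 968 3 1, .f 968 1 3, .f 1096 3 1, .f 1088 1 3] 153 136 [3, 1] [(153, 136, [3, 1]),
  (154, 136, [3, 3, 1])]) .no (.red [.t 1088 1 3, .t 952 1 3, .f 961 1 5] 153 136 [3, 1] [(136,
  136, []), (153, 136, [3, 1])]) .no) .no

def c27t1462 : Tr4 :=
  .br 833 .no (.br 834 .no (.hor [.f 705 1 5] []) (.use 428) .no (.br 1096 (.red [.f 1088 1 3, .f
  1088 3 5] 153 136 [3, 1] [(153, 136, [3, 1])]) (.use 448) (.br 827 .no (.br 824 .no (.use 1275)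
  .no (.use 533) (.br 1224 (.use 1460) .no (.red [.t 960 2 4, .f 1096 3 1, .f 1088 1 3] 153 136
  [3, 1] [(120, 119, [3]), (153, 136, [3, 1]), (154, 136, [3, 3, 1])]) .no (.red [.t 1088 1 3, .t
  952 1 3, .f 961 1 5] 153 136 [3, 1] [(136, 136, []), (153, 136, [3, 1])]) .no) .no) .no (.red
  [.f 819 3 1, .f 826 1 5] 119 136 [2, 4] [(119, 136, [2, 4])]) .no .no) .no .no .no) .no) (.br
  968 (.use 473) (.red [.f 832 1 3, .f 832 3 5] 121 136 [2, 3] [(121, 136, [2, 3])]) (.br 1096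
  (.red [.f 1088 1 3, .f 1088 3 5] 153 136 [3, 1] [(153, 136, [3, 1])]) .no (.use 1461) .no .no
  .no) .no (.red [.t 832 1 3] 121 136 [2, 3] [(121, 136, [2, 3])]) .no) (.red [.f 825 3 1, .f 825
  1 5, .t 1073 2 3, .f 954 1 3, .t 961 2 4] 136 136 [] [(135, 136, [4]), (136, 136, [])]) (.red
  [.t 953 3 2, .t 1073 2 3, .f 954 1 3, .f 826 3 1] 136 136 [] [(135, 136, [4]), (136, 136, [])])
  .no

def c27t1463 : Tr4 :=
  .br 1099 (.con 136 [3, 3, 1]) .no (.hor [.f 1098 3 5] []) .no .no .no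

def c27t1464 : Tr4 :=
  .br 1098 (.red [.t 1097 4 1, .f 1081 1 3] 153 136 [3, 1] [(152, 136, [1]), (153, 136, [3, 1])])
  (.con 136 [3, 3]) (.use 1463) .no (.br 970 .no (.use 510) (.use 444) .no .no (.br 1225 (.br 1346
  (.br 1219 (.use 1424) .no (.red [.t 1089 3 2, .f 1089 5 1, .t 1218 2 3, .f 962 3 1] 153 136 [3,
  1] [(153, 136, [3, 1])]) (.br 1347 (.hor [.f 1346 1 5] []) .no (.br 1224 (.con 136 [3, 1, 1, 1])
  .no (.br 1104 .no (.red [.t 1089 3 2, .f 968 1 3, .f 1096 3 1] 138 136 [3, 3] [(137, 121, [1]),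
  (138, 136, [3, 3]), (154, 136, [3, 3, 1])]) (.br 1105 (.red [.t 1089 3 2, .f 968 1 5, .t 1232 4
  2] 154 136 [3, 3, 1] [(137, 121, [1]), (154, 136, [3, 3, 1])]) (.use 490) (.hor [.f 1104 3 5]
  []) .no (.use 1426) .no) .no (.red [.t 1089 3 2, .f 968 1 5, .f 1096 5 3, .f 1096 3 1] 154 136
  [3, 3, 1] [(137, 121, [1]), (154, 136, [3, 3, 1])]) .no) .no .no .no) (.red [.f 1083 3 1, .f
  1083 1 3, .f 1211 3 1, .f 1210 1 5] 168 136 [1, 1] [(168, 136, [1, 1])]) .no .no) .no .no) .no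
  (.red [.t 1353 2 4, .f 1089 3 1, .f 1081 1 3] 153 136 [3, 1] [(152, 136, [1]), (153, 136, [3,
  1]), (169, 136, [3, 1, 1])]) .no (.use 1425) (.red [.f 1217 5 1, .f 1217 1 3, .f 1089 3 1] 153
  136 [3, 1] [(153, 136, [3, 1]), (169, 136, [3, 1, 1])])) .no (.use 227) .no (.red [.f 1217 5 3,
  .f 1089 3 1, .f 1081 1 3] 153 136 [3, 1] [(152, 136, [1]), (153, 136, [3, 1])]) (.red [.t 1088 1
  3, .t 952 1 3, .f 961 1 5] 153 136 [3, 1] [(136, 136, []), (153, 136, [3, 1])]))) .no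

def c27t1465 : Tr4 :=
  .br 1224 (.br 1098 (.red [.t 1097 4 1, .f 1081 1 3] 153 136 [3, 1] [(152, 136, [1]), (153, 136,
  [3, 1])]) (.br 968 .no (.red [.f 832 1 3] 121 136 [2, 3] [(121, 136, [2, 3])]) (.use 449) .no
  (.br 1225 (.hor [.f 1224 1 5] []) .no (.br 1099 (.con 136 [3, 3, 1]) .no (.br 827 .no (.br 835
  .no (.br 834 .no (.hor [.f 706 1 5] []) (.use 514) .no .no (.br 842 .no (.use 484) (.use 508)
  .no (.br 1106 (.con 136 [3, 3, 1, 3]) (.red [.f 962 1 3, .f 962 3 1, .f 970 1 3, .f 1098 3 5]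
  138 136 [3, 3] [(138, 136, [3, 3])]) (.use 1302) .no .no (.br 979 .no (.red [.f 962 1 3, .f 962
  3 5, .f 842 5 1, .f 843 1 3] 122 136 [2, 3, 3] [(122, 136, [2, 3, 3]), (137, 121, [1])]) (.use
  1455) .no .no (.red [.t 953 3 2, .t 1098 2 3] 138 136 [3, 3] [(120, 119, [3]), (138, 136, [3,
  3])]))) (.red [.f 833 5 3, .t 832 1 3] 121 136 [2, 3] [(121, 136, [2, 3])]))) (.red [.f 835 3 1]
  121 136 [2, 3] [(121, 136, [2, 3])]) .no .no (.br 833 .no (.use 1459) (.red [.t 832 1 3] 121 136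
  [2, 3] [(121, 136, [2, 3])]) (.use 506) .no .no)) (.br 833 .no (.use 492) (.red [.t 832 1 3] 121
  136 [2, 3] [(121, 136, [2, 3])]) (.con 136 [2, 2]) (.use 509) .no) (.red [.f 819 3 1, .f 826 1
  5] 119 136 [2, 4] [(119, 136, [2, 4])]) .no .no) .no .no .no) .no (.red [.f 1217 5 3, .f 1089 3
  1, .f 1081 1 3] 153 136 [3, 1] [(152, 136, [1]), (153, 136, [3, 1])]) .no) .no) (.use 440) .no
  (.use 1430) .no) .no (.red [.f 1096 3 1, .f 1088 1 3, .f 1088 3 5] 153 136 [3, 1] [(153, 136,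
  [3, 1]), (154, 136, [3, 3, 1])]) .no (.red [.t 1088 1 3, .t 952 1 3, .f 961 1 5] 153 136 [3, 1]
  [(136, 136, []), (153, 136, [3, 1])]) .no

def c27t1466 : Tr4 :=
  .br 840 .no (.con 136 [2, 3, 2, 3]) (.red [.t 840 3 1, .t 969 3 1] 122 136 [2, 3, 3] [(122, 136,
  [2, 3, 3]), (138, 136, [3, 3])]) .no .no .no

def c27t1467 : Tr4 :=
  .br 840 .no (.con 136 [2, 3, 2, 3]) (.red [.t 840 3 1, .t 969 3 1] 122 136 [2, 3, 3] [(122, 136,
  [2, 3, 3]), (138, 136, [3, 3])]) .no .no .no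

def c27t1468 : Tr4 :=
  .br 1106 (.con 136 [3, 3, 1, 3]) (.red [.f 962 1 3, .f 962 3 1, .f 970 1 3, .f 1098 3 5] 138 136
  [3, 3] [(138, 136, [3, 3])]) (.use 1302) .no .no (.br 1234 (.con 136 [3, 3, 1, 1]) .no (.con 136
  [3, 3, 1, 1]) (.red [.f 962 1 3, .f 1089 3 5, .f 1097 5 3, .f 1098 3 1] 154 136 [3, 3, 1] [(137,
  136, [3]), (154, 136, [3, 3, 1])]) (.con 136 [3, 3, 1, 1]) .no)

def c27t1469 : Tr4 :=
  .br 1099 (.con 136 [3, 3, 1]) .no (.use 1468) .no .no .no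

def c27t1470 : Tr4 :=
  .br 1096 (.red [.f 1088 1 3, .f 960 3 1] 153 136 [3, 1] [(137, 136, [3]), (153, 136, [3, 1])])
  .no (.br 1098 (.red [.t 1097 4 1, .f 1081 1 3] 153 136 [3, 1] [(152, 136, [1]), (153, 136, [3,
  1])]) (.br 1224 (.br 1225 (.hor [.f 1224 1 5] []) .no (.use 1469) .no (.red [.f 1217 5 3, .f
  1089 3 1, .f 1081 1 3] 153 136 [3, 1] [(152, 136, [1]), (153, 136, [3, 1])]) .no) .no (.red [.f
  1096 3 1, .f 1088 1 3, .f 960 3 1] 154 136 [3, 3, 1] [(137, 136, [3]), (153, 136, [3, 1]), (154,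
  136, [3, 3, 1])]) .no (.red [.t 1088 1 3, .t 952 1 3, .f 961 1 5] 153 136 [3, 1] [(136, 136,
  []), (153, 136, [3, 1])]) .no) (.use 1429) .no (.use 1431) .no) .no .no .no

def c27t1471 : Tr4 :=
  .br 1219 (.use 1424) .no (.red [.t 1089 3 2, .f 1089 5 1, .t 1218 2 3, .f 962 3 1] 153 136 [3,
  1] [(153, 136, [3, 1])]) .no .no .no

def c27t1472 : Tr4 :=
  .br 1225 (.use 1471) .no (.use 227) .no (.red [.f 1217 5 3, .f 1089 3 1, .f 1081 1 3] 153 136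
  [3, 1] [(152, 136, [1]), (153, 136, [3, 1])]) (.red [.t 1088 1 3, .t 952 1 3, .f 961 1 5] 153
  136 [3, 1] [(136, 136, []), (153, 136, [3, 1])])

def c27t1473 : Tr4 :=
  .br 1098 (.red [.t 1097 4 1, .f 1081 1 3] 153 136 [3, 1] [(152, 136, [1]), (153, 136, [3, 1])])
  (.con 136 [3, 3]) (.use 1463) .no (.br 970 .no (.use 510) (.use 444) .no .no (.use 1472)) .no

def c27l52 : List Tr4 :=
  [c27t1454, c27t1455, c27t1456, c27t1457, c27t1458, c27t1459, c27t1460, c27t1461, c27t1462,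
  c27t1463, c27t1464, c27t1465, c27t1466, c27t1467, c27t1468, c27t1469, c27t1470, c27t1471,
  c27t1472, c27t1473]

theorem c27k52 : chkLF ⟨4, 1, 0, true, -8⟩ false 7 c27N 1454 c27l52 = true := by decide +kernel

def c27t1474 : Tr4 :=
  .br 945 (.br 963 .no (.br 827 .no (.br 960 .no (.br 1096 (.red [.f 1088 1 3, .f 1088 3 5] 153
  136 [3, 1] [(153, 136, [3, 1])]) (.br 825 .no (.use 5) (.red [.f 825 3 1, .f 825 1 5, .t 1073 2
  3, .f 954 1 3, .t 961 2 4] 136 136 [] [(135, 136, [4]), (136, 136, [])]) (.use 389) .no (.br 834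
  .no (.use 399) (.br 1098 (.red [.t 1097 4 1, .f 1081 1 3] 153 136 [3, 1] [(152, 136, [1]), (153,
  136, [3, 1])]) (.use 229) (.br 833 .no (.use 1422) (.hor [.f 833 3 5] []) .no .no .no) .no (.br
  1225 (.br 970 .no .no (.use 1445) .no (.br 833 .no (.use 1423) (.hor [.f 833 3 5] []) .no .no
  .no) (.use 1471)) .no (.use 227) .no (.red [.f 1217 5 3, .f 1089 3 1, .f 1081 1 3] 153 136 [3,
  1] [(152, 136, [1]), (153, 136, [3, 1])]) (.red [.t 1088 1 3, .t 952 1 3, .f 961 1 5] 153 136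
  [3, 1] [(136, 136, []), (153, 136, [3, 1])])) .no) .no .no (.red [.t 953 3 2, .t 1073 2 3, .f
  954 1 3, .f 826 3 1] 136 136 [] [(135, 136, [4]), (136, 136, [])]))) (.use 1456) .no .no .no)
  (.use 1458) .no .no .no) .no (.red [.f 819 3 1, .f 826 1 5] 119 136 [2, 4] [(119, 136, [2, 4])])
  .no .no) (.br 960 .no (.use 1462) (.use 1470) .no .no .no) .no .no .no) (.use 10) .no (.hor [.f
  937 3 5] []) .no (.br 963 .no (.br 827 .no (.br 960 .no (.br 833 .no (.use 420) (.use 424) (.br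
  824 .no (.br 1072 (.use 1436) .no .no (.use 1395) (.br 1208 (.br 817 .no (.br 818 .no (.use 32)
  .no (.red [.f 810 3 1, .f 818 1 3] 119 136 [2, 4] [(118, 136, [2, 4, 4]), (119, 136, [2, 4])])
  (.red [.f 825 3 1, .f 825 1 3, .t 954 2 4] 119 136 [2, 4] [(119, 136, [2, 4])]) .no) .no (.use
  836) (.use 43) (.use 1323)) .no .no (.red [.t 1208 4 2, .f 1073 3 5, .t 961 4 1] 136 136 []
  [(136, 136, []), (151, 135, [1])]) .no .no) .no) .no (.con 136 [2, 2, 4]) .no .no) (.use 419)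
  .no) (.use 1458) .no .no .no) .no (.red [.f 819 3 1, .f 826 1 5] 119 136 [2, 4] [(119, 136, [2,
  4])]) .no .no) (.br 960 .no (.br 1096 (.red [.f 1088 1 3, .f 1088 3 5] 153 136 [3, 1] [(153,
  136, [3, 1])]) (.use 1473) (.use 1465) .no .no .no) (.use 1470) .no .no .no) .no .no .no)

def c27t1475 : Tr4 :=
  .br 810 (.con 136 [4, 2, 4, 2, 3, 1, 4, 2, 3]) (.con 136 [4, 2, 4, 2, 3, 1, 4, 2, 3]) (.hor [.f
  810 3 5] []) (.con 136 [4, 2, 4, 2, 3, 1, 4, 2, 3]) .no (.con 136 [4, 2, 4, 2, 3, 1, 4, 2, 3])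

def c27t1476 : Tr4 :=
  .br 818 .no .no .no (.hor [.f 810 3 5] []) .no .no

def c27t1477 : Tr4 :=
  .br 691 .no (.hor [.f 562 1 5] []) .no (.red [.f 683 3 1, .f 691 1 3] 103 136 [2, 2, 4] [(102,
  136, [2, 2, 4, 4]), (103, 136, [2, 2, 4])]) .no .no

def c27t1478 : Tr4 :=
  .br 688 .no (.red [.f 560 1 3, .t 688 3 1] 103 136 [2, 2, 4] [(87, 136, [2, 2, 4, 2]), (103,
  136, [2, 2, 4])]) .no (.br 690 (.hor [.f 689 1 5] []) (.red [.f 680 3 1, .f 688 1 5, .f 816 5 3,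
  .t 825 4 1] 119 136 [2, 4] [(102, 103, [4]), (119, 136, [2, 4])]) (.red [.f 680 3 1, .f 688 1 5,
  .f 816 5 3, .t 825 4 1] 119 136 [2, 4] [(102, 103, [4]), (119, 136, [2, 4])]) (.red [.f 680 3 1,
  .f 688 1 5, .f 816 5 3, .t 825 4 1] 119 136 [2, 4] [(102, 86, [1]), (119, 136, [2, 4])]) (.red
  [.f 680 3 1, .f 688 1 5, .f 816 5 3, .t 825 4 1] 119 136 [2, 4] [(102, 86, [1]), (119, 136, [2,
  4])]) .no) .no .no

def c27t1479 : Tr4 :=
  .br 697 .no (.hor [.f 568 1 5] []) (.br 688 .no (.red [.f 560 1 3, .t 688 3 1] 103 136 [2, 2, 4]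
  [(87, 136, [2, 2, 2, 4]), (103, 136, [2, 2, 4])]) .no (.br 819 .no (.red [.f 691 1 3] 103 136
  [2, 2, 4] [(103, 136, [2, 2, 4])]) .no (.br 698 .no (.br 690 (.hor [.f 689 1 5] []) (.red [.f
  562 1 3] 87 136 [2, 2, 2, 4] [(87, 136, [2, 2, 2, 4])]) .no (.use 129) (.use 1475) .no) .no
  (.use 1476) .no .no) .no (.red [.t 960 2 4, .t 824 3 1, .t 954 2 4] 119 136 [2, 4] [(119, 136,
  [2, 4])])) .no .no) .no (.br 819 .no (.red [.f 691 1 3] 103 136 [2, 2, 4] [(103, 136, [2, 2,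
  4])]) .no (.br 688 .no (.red [.f 560 1 3] 87 136 [2, 2, 2, 4] [(87, 136, [2, 2, 2, 4])]) .no
  (.br 690 (.hor [.f 689 1 5] []) (.use 1477) .no (.use 129) (.use 1475) .no) .no .no) .no (.red
  [.t 954 2 4, .t 817 2 3] 103 136 [2, 2, 4] [(103, 136, [2, 2, 4]), (119, 136, [2, 4])])) .no

def c27t1480 : Tr4 :=
  .br 819 .no (.red [.f 691 1 3] 103 136 [2, 2, 4] [(103, 136, [2, 2, 4])]) .no (.br 690 (.hor [.f
  689 1 5] []) (.use 1477) .no (.br 818 .no .no .no (.hor [.f 810 3 5] []) .no .no) (.use 1475)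
  .no) .no (.red [.t 954 2 4, .t 817 2 3] 103 136 [2, 2, 4] [(103, 136, [2, 2, 4]), (119, 136, [2,
  4])])

def c27t1481 : Tr4 :=
  .br 1073 (.red [.f 1073 1 3, .f 1073 3 5, .f 945 5 1, .t 961 4 1, .f 945 1 3] 136 136 [] [(135,
  136, [4]), (136, 136, []), (151, 135, [1])]) .no .no (.br 1072 (.br 816 (.use 1480) (.hor [.f
  688 1 5] []) .no (.br 944 .no .no .no (.red [.f 808 3 1] 118 136 [2, 4, 4] [(118, 136, [2, 4,
  4])]) .no .no) .no .no) (.br 816 .no (.hor [.f 688 1 5] []) .no (.br 936 (.red [.f 936 1 3, .f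
  808 3 1] 118 136 [2, 4, 4] [(118, 136, [2, 4, 4]), (134, 136, [4, 4])]) .no .no (.br 937 .no
  (.br 818 .no (.hor [.f 689 1 5] []) .no (.red [.f 944 1 3, .t 809 1 3, .f 818 1 3] 119 136 [2,
  4] [(118, 136, [2, 4, 4]), (119, 136, [2, 4]), (135, 119, [1])]) (.red [.t 954 2 4, .t 817 2 3]
  103 136 [2, 2, 4] [(103, 136, [2, 2, 4]), (119, 136, [2, 4])]) .no) .no (.hor [.f 928 3 5] [])
  (.red [.f 937 5 3, .f 937 3 1] 134 136 [4, 4] [(134, 136, [4, 4])]) .no) (.red [.f 944 1 3, .f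
  944 3 1, .t 1072 2 4, .f 808 3 1] 118 136 [2, 4, 4] [(118, 136, [2, 4, 4]), (134, 136, [4, 4])])
  .no) .no .no) .no (.hor [.f 1064 3 5] []) .no .no) .no (.br 816 (.use 1480) (.hor [.f 688 1 5]
  []) .no (.br 944 .no .no .no (.red [.f 808 3 1] 118 136 [2, 4, 4] [(118, 136, [2, 4, 4])]) .no
  .no) .no .no)

def c27t1482 : Tr4 :=
  .br 818 .no .no .no (.hor [.f 809 3 5] []) .no .no

def c27t1483 : Tr4 :=
  .br 818 .no .no .no (.hor [.f 809 3 5] []) .no .no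

def c27t1484 : Tr4 :=
  .br 691 .no (.br 698 .no (.br 818 .no (.con 136 [2, 2, 4, 4]) .no (.hor [.f 809 3 5] []) .no
  .no) .no (.use 1482) .no (.br 818 .no (.con 136 [2, 2, 4, 4]) .no (.hor [.f 809 3 5] []) .no
  .no)) .no (.red [.f 683 3 1, .f 691 1 3] 103 136 [2, 2, 4] [(102, 136, [2, 2, 4, 4]), (103, 136,
  [2, 2, 4])]) .no (.use 1483)

def c27t1485 : Tr4 :=
  .br 819 .no (.red [.f 691 1 3] 103 136 [2, 2, 4] [(103, 136, [2, 2, 4])]) .no (.use 1484) .no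
  (.red [.t 960 2 4, .t 824 3 1, .t 954 2 4] 119 136 [2, 4] [(119, 136, [2, 4])])

def c27t1486 : Tr4 :=
  .br 824 .no (.hor [.f 696 1 5] []) .no (.con 136 [2, 2, 4]) .no .no

def c27t1487 : Tr4 :=
  .br 819 .no (.red [.f 691 1 3] 103 136 [2, 2, 4] [(103, 136, [2, 2, 4])]) .no (.use 1484) .no
  (.red [.t 954 2 4] 119 136 [2, 4] [(119, 136, [2, 4])])

def c27t1488 : Tr4 :=
  .br 818 .no .no .no (.hor [.f 809 3 5] []) .no .no

def c27t1489 : Tr4 :=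
  .br 819 .no (.red [.f 691 1 3] 103 136 [2, 2, 4] [(103, 136, [2, 2, 4])]) .no (.br 691 .no (.br
  698 .no (.br 690 (.con 136 [2, 2, 4, 4]) (.hor [.f 562 1 5] []) .no (.br 689 .no (.con 136 [2,
  2, 4, 4, 2]) .no (.hor [.f 681 3 5] []) .no (.con 136 [2, 2, 4, 2, 4])) .no (.use 1488)) .no
  (.use 1482) .no .no) .no (.red [.f 683 3 1, .f 691 1 3] 103 136 [2, 2, 4] [(102, 136, [2, 2, 4,
  4]), (103, 136, [2, 2, 4])]) .no (.use 1483)) .no (.red [.t 954 2 4] 119 136 [2, 4] [(119, 136,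
  [2, 4])])

def c27t1490 : Tr4 :=
  .br 937 .no (.hor [.f 808 1 5] []) .no (.br 938 (.red [.f 944 1 3, .f 944 3 1, .t 1065 3 2] 134
  136 [4, 4] [(134, 136, [4, 4])]) (.con 136 [2, 4, 4, 4]) .no (.hor [.f 929 3 5] []) (.con 136
  [2, 4, 4, 4]) .no) (.red [.f 937 5 3, .f 937 3 1] 134 136 [4, 4] [(134, 136, [4, 4])]) .no

def c27t1491 : Tr4 :=
  .br 818 .no (.con 136 [2, 4, 2, 4]) .no (.hor [.f 810 3 5] []) .no .no

def c27t1492 : Tr4 :=
  .br 819 .no (.red [.f 691 1 3] 103 136 [2, 4, 2] [(103, 136, [2, 4, 2])]) .no (.use 1491) .no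
  (.red [.t 954 2 4] 119 136 [2, 4] [(119, 136, [2, 4])])

def c27t1493 : Tr4 :=
  .br 824 .no (.hor [.f 696 1 5] []) .no (.con 136 [2, 2, 4]) .no .no

def c27t1494 : Tr4 :=
  .br 819 .no (.red [.f 691 1 3, .f 690 3 5] 103 136 [2, 4, 2] [(103, 136, [2, 4, 2])]) .no (.use
  1476) .no (.red [.t 698 4 1, .f 689 1 5] 103 136 [2, 4, 2] [(103, 136, [2, 4, 2])])

def c27t1495 : Tr4 :=
  .br 833 .no (.hor [.f 705 1 5] []) (.br 960 .no (.br 825 .no (.use 5) .no (.red [.t 825 4 1] 119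
  136 [2, 4] [(119, 136, [2, 4])]) .no (.br 817 .no (.br 696 .no (.br 816 (.use 1479) (.hor [.f
  688 1 5] []) .no (.use 1478) .no .no) (.br 705 .no (.br 697 .no (.red [.f 569 1 3] 88 136 [2, 2,
  2] [(88, 136, [2, 2, 2])]) .no .no (.use 1481) .no) (.hor [.f 705 3 1, .f 705 1 5] [(105, 88,
  [1, 3])]) (.hor [.f 696 3 5] []) .no .no) (.red [.t 688 3 1] 103 136 [2, 2, 4] [(103, 136, [2,
  2, 4])]) (.red [.f 696 5 1, .f 689 1 3] 103 136 [2, 2, 4] [(103, 136, [2, 2, 4])]) .no) .no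
  (.use 1485) (.red [.f 817 5 1, .f 818 1 3] 119 136 [2, 4] [(119, 136, [2, 4])]) (.red [.f 816 5
  3, .t 825 4 1] 119 136 [2, 4] [(119, 136, [2, 4])]))) (.br 832 .no (.br 825 .no (.use 1486) .no
  (.red [.t 825 4 1] 119 136 [2, 4] [(119, 136, [2, 4])]) .no (.br 817 .no (.br 705 .no (.br 696
  .no (.br 697 .no (.hor [.f 568 1 5] []) .no .no (.use 1481) .no) .no (.red [.t 688 3 1, .f 696 1
  3] 103 136 [2, 2, 4] [(103, 136, [2, 2, 4]), (104, 136, [2, 2])]) (.red [.f 696 5 1, .f 689 1 3]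
  103 136 [2, 2, 4] [(103, 136, [2, 2, 4])]) .no) (.hor [.f 705 3 1, .f 704 1 5] [(105, 104,
  [3])]) (.red [.t 704 1 4, .f 689 1 3] 103 136 [2, 2, 4] [(103, 136, [2, 2, 4]), (104, 136, [2,
  2])]) .no .no) .no (.use 1487) (.red [.f 817 5 1, .f 818 1 3] 119 136 [2, 4] [(119, 136, [2,
  4])]) (.red [.f 816 5 3, .t 825 4 1] 119 136 [2, 4] [(119, 136, [2, 4])]))) (.hor [.f 832 3 5]
  []) (.br 825 .no (.br 817 .no (.use 1314) .no (.use 1489) (.red [.f 817 5 1, .f 818 1 3] 119 136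
  [2, 4] [(119, 136, [2, 4])]) (.use 1492)) .no (.red [.t 825 4 1] 119 136 [2, 4] [(119, 136, [2,
  4])]) .no .no) .no .no) .no .no .no) (.red [.f 825 3 1, .f 825 1 5, .f 945 5 3, .f 946 3 5, .t
  1090 2 4, .t 961 2 4] 136 136 [] [(136, 136, [])]) .no (.br 825 .no (.use 1493) .no (.red [.t
  825 4 1] 119 136 [2, 4] [(119, 136, [2, 4])]) .no (.br 817 .no (.br 697 .no (.br 696 .no (.hor
  [.f 568 1 5] []) (.br 705 .no (.red [.f 569 1 3] 88 136 [2, 2, 2] [(88, 136, [2, 2, 2])]) (.br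
  698 .no (.use 889) .no (.use 1494) .no .no) .no .no .no) (.red [.t 688 3 1] 103 136 [2, 2, 4]
  [(103, 136, [2, 2, 4])]) .no .no) (.red [.f 824 5 3, .f 697 3 1, .f 689 1 3] 103 136 [2, 2, 4]
  [(103, 136, [2, 2, 4]), (104, 136, [2, 2])]) .no (.use 1481) (.red [.f 696 5 1, .f 689 1 3] 103
  136 [2, 2, 4] [(103, 136, [2, 2, 4])])) .no (.use 1487) (.red [.f 824 5 3, .f 817 5 1, .f 818 1
  3] 119 136 [2, 4] [(119, 136, [2, 4])]) (.red [.f 824 5 3, .f 824 3 5, .f 816 5 3, .t 825 4 1,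
  .f 946 3 1] 119 136 [2, 4] [(119, 136, [2, 4]), (135, 136, [4])])))

def c27t1496 : Tr4 :=
  .br 696 .no (.use 47) (.con 136 [2, 2, 2]) (.red [.t 688 3 1] 103 136 [2, 2, 4] [(103, 136, [2,
  2, 4])]) (.red [.f 696 5 1, .f 689 1 3] 103 136 [2, 2, 4] [(103, 136, [2, 2, 4])]) .no

def c27t1497 : Tr4 :=
  .br 971 (.br 969 .no (.br 706 .no (.use 59) (.red [.f 706 3 1, .f 705 1 5] 105 136 [2, 2, 3]
  [(105, 136, [2, 2, 3])]) (.use 1496) (.use 54) .no) (.hor [.f 969 3 5] []) .no .no .no) (.use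
  24) (.hor [.f 970 3 5] []) .no .no .no

def c27t1498 : Tr4 :=
  .br 1225 (.red [.f 1217 1 3, .f 1089 3 1] 153 136 [3, 1] [(153, 136, [3, 1]), (169, 136, [3, 1,
  1])]) .no (.br 969 .no (.br 976 (.red [.f 968 1 3] 138 136 [3, 3] [(138, 136, [3, 3])]) (.use
  98) (.br 977 (.use 110) (.red [.f 841 1 3] 122 136 [2, 3, 3] [(122, 136, [2, 3, 3])]) (.hor [.f
  976 3 5] []) .no (.br 1104 (.br 1099 (.con 136 [3, 3, 1, 1]) .no (.br 1106 (.con 136 [3, 3, 1,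
  3]) .no (.use 82) .no .no (.red [.f 977 5 1, .t 1106 2 4] 138 136 [3, 3] [(138, 136, [3, 3])]))
  .no .no .no) .no (.red [.f 976 3 1] 139 136 [3, 3, 3] [(139, 136, [3, 3, 3])]) .no (.red [.t 834
  3 1, .f 841 1 5, .f 969 5 3, .t 968 1 3] 138 136 [3, 3] [(121, 105, [1]), (138, 136, [3, 3])])
  .no) .no) .no (.use 91) .no) (.br 1099 (.use 112) .no (.br 978 (.red [.t 1106 2 4, .f 969 3 5]
  138 136 [3, 3] [(138, 136, [3, 3])]) (.br 843 .no (.red [.t 842 4 2, .f 705 1 5] 105 136 [2, 2,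
  3] [(105, 136, [2, 2, 3])]) (.br 841 .no (.red [.f 705 1 3] 105 136 [2, 2, 3] [(105, 136, [2, 2,
  3])]) (.use 223) .no .no (.br 976 (.red [.f 968 1 3, .f 968 3 5] 138 136 [3, 3] [(138, 136, [3,
  3])]) (.con 136 [2, 3, 3, 3]) (.br 1104 (.use 204) .no (.br 1106 (.red [.f 976 3 1, .f 968 1 3,
  .f 968 3 5] 139 136 [3, 3, 3] [(138, 136, [3, 3]), (139, 136, [3, 3, 3])]) .no (.red [.f 976 3
  1, .f 968 1 3, .f 968 3 5] 139 136 [3, 3, 3] [(138, 136, [3, 3]), (139, 136, [3, 3, 3])]) .no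
  .no (.red [.f 976 3 1, .f 968 1 3, .f 968 3 5] 139 136 [3, 3, 3] [(138, 136, [3, 3]), (139, 136,
  [3, 3, 3])])) .no (.red [.t 968 1 3] 138 136 [3, 3] [(138, 136, [3, 3])]) .no) .no .no .no)) .no
  .no .no) (.use 209) .no (.red [.f 970 5 3, .f 971 3 1] 138 136 [3, 3] [(138, 136, [3, 3])]) .no)
  .no .no .no) .no .no .no) .no .no (.red [.t 1088 1 3, .t 952 1 3, .f 961 1 5] 153 136 [3, 1]
  [(136, 136, []), (153, 136, [3, 1])])

def c27t1499 : Tr4 :=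
  .br 1098 (.use 1498) .no (.use 115) .no (.br 969 .no (.use 121) (.use 212) .no .no .no) .no

def c27t1500 : Tr4 :=
  .br 1098 (.use 1498) .no (.use 115) .no (.br 1225 (.red [.f 1217 1 3] 169 136 [3, 1, 1] [(169,
  136, [3, 1, 1])]) .no (.use 227) .no (.br 969 .no (.use 118) (.use 211) .no .no .no) (.red [.t
  1088 1 3, .t 952 1 3, .f 961 1 5] 153 136 [3, 1] [(136, 136, []), (153, 136, [3, 1])])) .no

def c27t1501 : Tr4 :=
  .br 971 (.use 231) (.use 222) (.use 224) .no .no .no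

def c27t1502 : Tr4 :=
  .br 843 (.use 269) (.red [.t 842 4 2, .f 705 1 5] 105 136 [2, 2, 3] [(105, 136, [2, 2, 3])])
  (.use 232) .no .no .no

def c27t1503 : Tr4 :=
  .br 704 .no (.use 1502) (.red [.t 704 3 1, .f 833 3 5] 105 136 [2, 2, 3] [(105, 136, [2, 2,
  3])]) .no .no .no

def c27t1504 : Tr4 :=
  .br 841 .no (.red [.f 705 1 3] 105 136 [2, 2, 3] [(105, 136, [2, 2, 3])]) (.use 1501) .no .no
  (.use 1503)

def c27l53 : List Tr4 :=
  [c27t1474, c27t1475, c27t1476, c27t1477, c27t1478, c27t1479, c27t1480, c27t1481, c27t1482,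
  c27t1483, c27t1484, c27t1485, c27t1486, c27t1487, c27t1488, c27t1489, c27t1490, c27t1491,
  c27t1492, c27t1493, c27t1494, c27t1495, c27t1496, c27t1497, c27t1498, c27t1499, c27t1500,
  c27t1501, c27t1502, c27t1503, c27t1504]

theorem c27k53 : chkLF ⟨4, 1, 0, true, -8⟩ false 7 c27N 1474 c27l53 = true := by decide +kernel

def c27t1505 : Tr4 :=
  .br 1099 (.con 136 [3, 3, 1]) .no (.hor [.f 1098 3 5] []) .no .no .no

def c27t1506 : Tr4 :=
  .br 698 .no (.use 236) .no (.use 1494) .no (.use 1481)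

def c27t1507 : Tr4 :=
  .br 691 .no (.br 689 .no (.con 136 [2, 2, 4, 2, 4]) .no (.hor [.f 681 3 5] []) .no (.con 136 [2,
  2, 4, 2, 4])) .no (.hor [.f 682 3 5] []) .no .no

def c27t1508 : Tr4 :=
  .br 696 .no (.use 47) (.con 136 [2, 2, 2]) (.br 697 .no (.br 819 .no (.red [.f 691 1 3] 103 136
  [2, 2, 4] [(103, 136, [2, 2, 4])]) .no (.br 690 (.con 136 [2, 2, 4, 4]) (.use 1477) .no (.br 689
  .no (.use 48) .no (.hor [.f 681 3 5] []) .no .no) (.use 1483) (.use 1488)) .no (.red [.t 960 2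
  4, .t 824 3 1, .t 954 2 4] 119 136 [2, 4] [(119, 136, [2, 4])])) .no (.hor [.f 688 3 5] []) .no
  .no) (.br 819 .no (.red [.f 691 1 3] 103 136 [2, 2, 4] [(103, 136, [2, 2, 4])]) .no (.br 690
  (.con 136 [2, 2, 4, 4]) (.use 1477) .no (.use 1507) (.use 1483) (.use 1488)) .no (.red [.f 696 5
  1, .t 954 2 4] 119 136 [2, 4] [(119, 136, [2, 4])])) .no

def c27t1509 : Tr4 :=
  .br 971 (.br 969 .no (.br 706 .no (.use 59) (.red [.f 706 3 1, .f 705 1 5] 105 136 [2, 2, 3]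
  [(105, 136, [2, 2, 3])]) (.use 1508) (.use 54) .no) (.hor [.f 969 3 5] []) .no .no .no) (.use
  24) (.hor [.f 970 3 5] []) .no .no .no

def c27t1510 : Tr4 :=
  .br 713 .no (.con 136 [2, 2, 3, 3, 2]) (.hor [.f 713 3 5] []) .no .no (.con 136 [2, 2, 3, 2, 3])

def c27t1511 : Tr4 :=
  .br 715 .no (.br 714 .no (.hor [.f 586 1 5] []) (.use 1510) .no .no (.red [.t 833 2 3] 105 136
  [2, 2, 3] [(105, 136, [2, 2, 3])])) (.red [.f 715 3 1, .t 842 4 2] 106 136 [2, 2, 3, 3] [(105,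
  136, [2, 2, 3]), (106, 136, [2, 2, 3, 3])]) .no .no (.red [.f 706 5 3, .f 706 3 1] 105 136 [2,
  2, 3] [(105, 136, [2, 2, 3])])

def c27t1512 : Tr4 :=
  .br 714 .no (.hor [.f 586 1 5] []) (.use 1510) .no .no (.red [.t 833 2 3] 105 136 [2, 2, 3]
  [(105, 136, [2, 2, 3])])

def c27t1513 : Tr4 :=
  .br 1104 .no (.red [.t 960 2 4, .f 968 1 3, .f 1096 3 1, .f 1088 1 3] 138 136 [3, 3] [(120, 136,
  [2]), (138, 136, [3, 3]), (153, 136, [3, 1]), (154, 136, [3, 3, 1])]) (.br 976 .no (.use 262)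
  (.red [.f 976 3 1, .f 968 1 3] 138 136 [3, 3] [(138, 136, [3, 3]), (139, 136, [3, 3, 3])]) .no
  (.br 1105 (.red [.t 960 2 4, .t 1096 2 4, .t 1232 4 2] 154 136 [3, 3, 1] [(120, 136, [2]), (137,
  136, [3]), (154, 136, [3, 3, 1])]) .no (.hor [.f 1104 3 5] []) .no (.br 979 (.con 136 [3, 3, 3])
  (.red [.f 843 1 3] 122 136 [2, 3, 3] [(122, 136, [2, 3, 3])]) (.use 263) .no .no (.br 715 .no
  (.use 1512) (.use 307) .no .no (.red [.f 706 5 3, .f 706 3 1] 105 136 [2, 2, 3] [(105, 136, [2,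
  2, 3])]))) .no) .no) .no (.red [.t 1089 3 2, .f 968 1 5, .f 1096 5 3, .f 1096 3 1] 154 136 [3,
  3, 1] [(137, 136, [3]), (154, 136, [3, 3, 1])]) .no

def c27t1514 : Tr4 :=
  .br 1073 (.red [.f 1073 1 3, .f 1073 3 5, .f 945 5 1, .t 961 4 1, .f 945 1 3] 136 136 [] [(135,
  136, [4]), (136, 136, []), (151, 135, [1])]) .no .no (.hor [.f 1064 3 5] []) .no .no

def c27t1515 : Tr4 :=
  .br 1210 (.br 1225 (.red [.f 1217 1 3] 169 136 [3, 1, 1] [(169, 136, [3, 1, 1])]) .no (.br 1211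
  (.hor [.f 1210 1 5] []) .no .no (.br 971 (.br 1098 (.br 1346 (.br 1339 (.br 1347 (.hor [.f 1346
  1 5] []) .no (.use 16) .no .no .no) .no (.use 18) (.hor [.f 1203 3 1, .f 1210 1 5] [(167, 169,
  [4, 4])]) .no .no) .no (.use 19) .no (.red [.f 1218 5 1, .f 1217 1 5, .t 1097 4 1, .f 1088 1 5]
  153 136 [3, 1] [(153, 136, [3, 1])]) .no) .no (.use 219) .no .no .no) (.br 1098 (.br 1099 (.hor
  [.f 1098 1 5] []) .no (.use 225) .no .no .no) .no (.use 219) .no (.use 227) .no) (.br 1098 (.br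
  1099 (.hor [.f 1098 1 5] []) .no (.red [.f 971 3 1] 138 136 [3, 3] [(138, 136, [3, 3])]) .no .no
  .no) .no (.use 219) .no (.use 227) .no) .no .no .no) .no .no) .no (.br 843 (.br 1098 .no .no
  (.use 1505) .no (.use 281) .no) (.red [.t 842 4 2, .f 705 1 5] 105 136 [2, 2, 3] [(105, 136, [2,
  2, 3])]) (.use 1511) .no .no .no) (.red [.t 1088 1 3, .t 952 1 3, .f 961 1 5] 153 136 [3, 1]
  [(136, 136, []), (153, 136, [3, 1])])) .no .no (.red [.f 1074 3 1, .f 1081 1 5, .t 961 4 1] 136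
  136 [] [(136, 136, []), (151, 135, [1])]) (.br 1225 (.red [.f 1217 1 3] 169 136 [3, 1, 1] [(169,
  136, [3, 1, 1])]) .no (.use 290) .no (.br 843 (.br 1098 .no .no (.use 1505) .no (.br 704 .no
  (.use 269) (.red [.t 704 3 1, .f 833 3 5] 105 136 [2, 2, 3] [(105, 136, [2, 2, 3])]) (.br 1075
  (.red [.t 1074 3 1, .f 1081 1 5, .t 961 4 1] 136 136 [] [(136, 136, []), (151, 135, [1])]) .no
  .no (.br 1346 (.br 1347 (.hor [.f 1346 1 5] []) .no (.use 264) (.br 1224 (.use 376) .no (.br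
  1104 .no (.red [.t 960 2 4, .f 968 1 3, .f 1096 3 1, .f 1088 1 3] 138 136 [3, 3] [(120, 136,
  [2]), (138, 136, [3, 3]), (153, 136, [3, 1]), (154, 136, [3, 3, 1])]) (.br 976 .no (.use 262)
  (.red [.f 976 3 1, .f 968 1 3] 138 136 [3, 3] [(138, 136, [3, 3]), (139, 136, [3, 3, 3])]) .no
  (.use 302) .no) .no (.red [.t 1089 3 2, .f 968 1 5, .f 1096 5 3, .f 1096 3 1] 154 136 [3, 3, 1]
  [(137, 136, [3]), (154, 136, [3, 3, 1])]) .no) .no .no .no) .no .no) .no (.red [.t 1345 2 3] 169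
  136 [3, 1, 1] [(169, 136, [3, 1, 1])]) (.br 1208 (.br 1203 (.br 1339 (.br 1347 (.red [.f 1339 1
  3, .f 1338 3 5] 184 136 [1, 1, 1] [(184, 136, [1, 1, 1])]) .no (.br 1224 (.con 136 [3, 1, 1, 3])
  .no (.use 1513) .no .no .no) .no .no .no) .no (.hor [.f 1338 3 5] []) .no .no .no) .no .no (.br
  1201 (.use 519) (.red [.f 1073 1 3, .f 1073 3 5, .f 945 5 1, .t 961 4 1, .f 945 1 3] 136 136 []
  [(135, 136, [4]), (136, 136, []), (151, 135, [1])]) .no (.hor [.f 1067 3 1, .t 1074 3 1, .f 1081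
  1 5] [(150, 119, [1, 1, 4]), (151, 119, [1, 1])]) (.hor [.f 1067 3 1, .t 1074 3 1, .f 1081 1 5]
  [(150, 119, [1, 1, 4]), (151, 119, [1, 1])]) (.hor [.f 1067 3 1, .t 1074 3 1, .f 1081 1 5]
  [(150, 119, [1, 1, 4]), (151, 119, [1, 1])])) .no (.red [.f 1202 5 3, .f 1074 3 1, .f 1081 1 5,
  .t 961 4 1] 136 136 [] [(136, 136, []), (151, 135, [1])])) .no .no (.br 1072 .no (.br 1073 (.red
  [.f 1073 1 3, .f 1073 3 5, .f 945 5 1, .t 961 4 1, .f 945 1 3] 136 136 [] [(135, 136, [4]),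
  (136, 136, []), (151, 135, [1])]) .no .no (.br 1201 (.br 1347 (.use 520) .no (.br 1224 (.con 136
  [3, 1, 1, 3]) .no (.use 1513) .no .no .no) (.hor [.f 1338 3 5] []) .no .no) .no .no (.hor [.f
  1065 3 1, .f 1073 1 3, .f 1200 3 5] [(150, 134, [1]), (151, 119, [1, 1])]) (.hor [.f 944 1 3, .f
  944 3 1, .t 1081 1 4, .f 1200 3 5] [(151, 119, [1, 1])]) .no) .no .no) .no (.use 1514) (.red [.t
  1208 4 2, .f 1073 3 5, .f 945 5 1, .t 961 4 1, .f 945 1 3] 136 136 [] [(135, 136, [4]), (136,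
  136, []), (151, 135, [1])]) .no) .no .no) (.use 280) .no) .no .no) .no .no) .no) (.red [.t 842 4
  2, .f 705 1 5] 105 136 [2, 2, 3] [(105, 136, [2, 2, 3])]) (.use 1511) .no .no .no) (.red [.t
  1088 1 3, .t 952 1 3, .f 961 1 5] 153 136 [3, 1] [(136, 136, []), (153, 136, [3, 1])])) .no

def c27t1516 : Tr4 :=
  .br 971 (.use 366) (.br 969 .no .no (.use 349) .no (.br 840 (.hor [.f 832 1 3, .t 1089 3 2, .f
  835 1 3, .f 834 3 5, .t 969 1 4] []) (.con 136 [2, 2, 3, 3]) (.hor [.f 840 3 5] []) .no .no .no)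
  (.use 319)) (.use 363) .no .no (.br 969 .no .no (.use 343) .no .no (.use 346))

def c27t1517 : Tr4 :=
  .br 841 (.use 345) (.red [.f 705 1 3] 105 136 [2, 2, 3] [(105, 136, [2, 2, 3])]) (.use 1516) .no
  .no (.use 1503)

def c27t1518 : Tr4 :=
  .br 1073 (.red [.f 1073 1 3, .f 1073 3 5, .f 945 5 1, .t 961 4 1, .f 945 1 3] 136 136 [] [(135,
  136, [4]), (136, 136, []), (151, 135, [1])]) .no .no (.use 522) .no .no

def c27t1519 : Tr4 :=
  .br 1064 (.hor [.t 1064 1 3, .f 1073 1 3, .f 1073 3 5] [(150, 119, [1, 1, 4]), (151, 119, [1,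
  1])]) .no .no (.red [.f 928 3 1, .f 936 1 3] 134 136 [4, 4] [(133, 136, [4, 4, 4]), (134, 136,
  [4, 4])]) .no .no

def c27t1520 : Tr4 :=
  .br 936 (.red [.f 936 1 3] 134 136 [4, 4] [(134, 136, [4, 4])]) (.use 1490) .no (.br 1201 (.use
  519) .no .no (.red [.f 1065 3 1, .f 1073 1 3, .f 1073 3 5, .t 961 4 1] 136 136 [] [(136, 136,
  []), (150, 134, [1]), (151, 135, [1])]) (.red [.t 1089 3 2, .t 969 1 4, .t 1081 1 4, .t 961 4 1]
  136 136 [] [(136, 136, []), (151, 135, [1])]) (.use 1519)) (.red [.t 1072 2 4] 134 136 [4, 4]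
  [(134, 136, [4, 4])]) .no

def c27t1521 : Tr4 :=
  .br 1073 (.red [.f 1073 1 3, .f 1073 3 5, .f 945 5 1, .t 961 4 1, .f 945 1 3] 136 136 [] [(135,
  136, [4]), (136, 136, []), (151, 135, [1])]) .no .no (.use 1520) .no .no

def c27t1522 : Tr4 :=
  .br 1346 (.use 377) .no (.red [.t 1345 2 3] 169 136 [3, 1, 1] [(169, 136, [3, 1, 1])]) (.br 1203
  (.use 378) (.red [.t 1074 3 1, .f 1081 1 5, .t 961 4 1] 136 136 [] [(136, 136, []), (151, 135,
  [1])]) .no (.br 1072 (.use 1518) (.use 1521) .no (.use 1514) (.use 525) .no) .no (.red [.f 1202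
  5 3, .f 1074 3 1, .f 1081 1 5, .t 961 4 1] 136 136 [] [(136, 136, []), (151, 135, [1])])) (.use
  526) .no

def c27t1523 : Tr4 :=
  .br 843 (.br 1225 (.hor [.f 1224 1 5] []) .no (.use 331) .no (.br 1098 .no .no (.use 330) .no
  (.br 979 (.br 977 (.con 136 [3, 3, 3]) (.red [.f 840 5 1, .f 841 1 3] 122 136 [2, 3, 3] [(122,
  136, [2, 3, 3])]) (.use 332) .no .no (.br 714 .no (.br 848 .no (.use 321) (.br 851 .no (.use
  323) (.br 850 .no (.br 715 .no (.use 1512) (.red [.f 835 1 3, .f 834 3 5, .f 706 5 1, .t 722 1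
  4, .f 707 1 3] 106 136 [2, 2, 3, 3] [(105, 136, [2, 2, 3]), (106, 136, [2, 2, 3, 3]), (121, 105,
  [1])]) .no .no .no) (.hor [.f 850 3 5] []) .no .no (.red [.f 840 5 1, .t 969 2 3] 122 136 [2, 3,
  3] [(122, 136, [2, 3, 3])])) .no .no (.red [.t 970 3 2] 122 136 [2, 3, 3] [(122, 136, [2, 3,
  3])])) .no (.red [.f 968 5 3, .f 840 5 3, .f 840 3 1] 122 136 [2, 3, 3] [(122, 136, [2, 3, 3])])
  .no) (.use 338) .no (.red [.f 706 5 3, .f 706 3 1] 105 136 [2, 2, 3] [(105, 136, [2, 2, 3])])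
  (.red [.t 833 2 3] 105 136 [2, 2, 3] [(105, 136, [2, 2, 3])]))) (.red [.f 843 1 3] 122 136 [2,
  3, 3] [(122, 136, [2, 3, 3])]) (.use 339) .no .no .no) .no) .no) (.red [.t 842 4 2, .f 705 1 5]
  105 136 [2, 2, 3] [(105, 136, [2, 2, 3])]) (.use 1511) .no .no .no

def c27t1524 : Tr4 :=
  .br 843 .no (.red [.t 842 4 2, .f 705 1 5] 105 136 [2, 2, 3] [(105, 136, [2, 2, 3])]) (.use
  1511) .no .no .no

def c27l54 : List Tr4 :=
  [c27t1505, c27t1506, c27t1507, c27t1508, c27t1509, c27t1510, c27t1511, c27t1512, c27t1513,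
  c27t1514, c27t1515, c27t1516, c27t1517, c27t1518, c27t1519, c27t1520, c27t1521, c27t1522,
  c27t1523, c27t1524]

theorem c27k54 : chkLF ⟨4, 1, 0, true, -8⟩ false 7 c27N 1505 c27l54 = true := by decide +kernel

def c27t1525 : Tr4 :=
  .br 1096 (.red [.f 1088 1 3, .f 1088 3 5] 153 136 [3, 1] [(153, 136, [3, 1])]) (.br 817 .no (.br
  1218 (.hor [.f 1217 1 5] []) .no (.use 0) (.br 970 (.use 229) .no (.use 1497) .no (.br 706 .no
  (.use 216) (.red [.f 706 3 1, .f 705 1 5] 105 136 [2, 2, 3] [(105, 136, [2, 2, 3])]) (.use 1496)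
  (.use 1499) .no) (.red [.t 1089 3 2, .t 1209 2 3, .f 953 3 1, .f 961 1 3] 136 136 [] [(136, 136,
  []), (152, 136, [1])])) (.br 970 (.use 229) .no (.use 1497) .no (.br 706 .no (.use 216) (.red
  [.f 706 3 1, .f 705 1 5] 105 136 [2, 2, 3] [(105, 136, [2, 2, 3])]) (.use 1496) (.use 1500) .no)
  (.br 706 .no (.use 216) (.red [.f 706 3 1, .f 705 1 5] 105 136 [2, 2, 3] [(105, 136, [2, 2,
  3])]) (.use 1496) (.br 696 .no (.use 1504) (.use 1506) (.red [.t 688 3 1] 103 136 [2, 2, 4]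
  [(103, 136, [2, 2, 4])]) (.red [.f 696 5 1, .f 689 1 3] 103 136 [2, 2, 4] [(103, 136, [2, 2,
  4])]) .no) .no)) .no) .no (.br 1218 (.hor [.f 1217 1 5] []) .no (.use 0) (.br 970 (.use 229) .no
  (.use 1509) .no (.br 706 .no (.use 216) (.red [.f 706 3 1, .f 705 1 5] 105 136 [2, 2, 3] [(105,
  136, [2, 2, 3])]) (.use 1508) (.use 1499) .no) (.red [.t 1089 3 2, .t 1209 2 3, .f 953 3 1, .f
  961 1 3] 136 136 [] [(136, 136, []), (152, 136, [1])])) (.br 970 (.use 229) .no (.use 1509) .no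
  (.br 706 .no (.use 216) (.red [.f 706 3 1, .f 705 1 5] 105 136 [2, 2, 3] [(105, 136, [2, 2,
  3])]) (.use 1508) (.use 1500) .no) (.br 706 .no (.use 216) (.red [.f 706 3 1, .f 705 1 5] 105
  136 [2, 2, 3] [(105, 136, [2, 2, 3])]) (.use 1508) (.br 841 .no (.red [.f 705 1 3] 105 136 [2,
  2, 3] [(105, 136, [2, 2, 3])]) (.use 1501) .no .no (.use 1515)) .no)) .no) (.red [.f 817 5 1, .f
  818 1 3] 119 136 [2, 4] [(119, 136, [2, 4])]) (.red [.f 816 5 3, .t 825 4 1] 119 136 [2, 4]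
  [(119, 136, [2, 4])])) (.br 1224 (.br 817 .no (.br 706 .no (.use 216) (.red [.f 706 3 1, .f 705
  1 5] 105 136 [2, 2, 3] [(105, 136, [2, 2, 3])]) (.use 1496) (.br 696 .no (.use 1517) (.use 1506)
  (.red [.t 688 3 1] 103 136 [2, 2, 4] [(103, 136, [2, 2, 4])]) (.red [.f 696 5 1, .f 689 1 3] 103
  136 [2, 2, 4] [(103, 136, [2, 2, 4])]) .no) .no) .no (.br 706 .no (.use 216) (.red [.f 706 3 1,
  .f 705 1 5] 105 136 [2, 2, 3] [(105, 136, [2, 2, 3])]) (.use 1508) (.br 841 (.use 345) (.red [.f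
  705 1 3] 105 136 [2, 2, 3] [(105, 136, [2, 2, 3])]) (.use 1516) .no .no (.br 968 .no .no (.br
  969 .no .no (.hor [.f 968 3 5] []) .no (.br 1218 (.hor [.f 1217 1 5] []) .no (.use 0) (.red [.t
  1089 3 2, .t 1209 2 3, .f 953 3 1, .f 961 1 3] 136 136 [] [(136, 136, []), (152, 136, [1])])
  (.br 1210 (.use 386) .no .no (.red [.f 1074 3 1, .f 1081 1 5, .t 961 4 1] 136 136 [] [(136, 136,
  []), (151, 135, [1])]) (.br 843 (.br 1098 (.use 375) .no (.br 1099 (.con 136 [3, 3, 1]) .no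
  (.hor [.f 1098 3 5] []) .no .no .no) .no (.br 1225 (.red [.f 1217 1 3] 169 136 [3, 1, 1] [(169,
  136, [3, 1, 1])]) .no (.use 226) .no (.use 1522) .no) .no) (.red [.t 842 4 2, .f 705 1 5] 105
  136 [2, 2, 3] [(105, 136, [2, 2, 3])]) (.use 1511) .no .no .no) .no) .no) .no) .no (.br 704 .no
  (.use 1502) (.red [.t 704 3 1, .f 833 3 5] 105 136 [2, 2, 3] [(105, 136, [2, 2, 3])]) (.br 1218
  (.hor [.f 1217 1 5] []) .no (.use 0) (.br 970 (.red [.f 962 1 3, .f 1089 3 5, .t 1209 2 3, .f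
  953 3 1, .t 961 1 3] 136 136 [] [(136, 136, []), (152, 136, [1])]) .no (.use 1523) .no (.use
  1524) .no) (.br 970 (.use 356) .no (.use 1523) .no (.use 1524) .no) .no) .no .no) .no)) .no)
  (.red [.f 817 5 1, .f 818 1 3] 119 136 [2, 4] [(119, 136, [2, 4])]) (.red [.f 816 5 3, .t 825 4
  1] 119 136 [2, 4] [(119, 136, [2, 4])])) .no (.red [.t 960 2 4, .f 1096 3 1, .f 1088 1 3] 153
  136 [3, 1] [(120, 119, [3]), (153, 136, [3, 1]), (154, 136, [3, 1, 3])]) .no (.red [.t 1088 1 3,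
  .t 952 1 3, .f 961 1 5] 153 136 [3, 1] [(136, 136, []), (153, 136, [3, 1])]) .no) .no .no .no

def c27t1526 : Tr4 :=
  .br 825 .no (.hor [.f 696 1 5] []) .no (.red [.t 825 4 1] 119 136 [2, 4] [(119, 136, [2, 4])])
  .no .no

def c27t1527 : Tr4 :=
  .br 698 .no (.hor [.f 569 1 5] []) (.con 136 [2, 4, 2, 2, 3]) (.use 1494) .no .no

def c27t1528 : Tr4 :=
  .br 696 .no (.hor [.f 568 1 5] []) (.use 1527) (.red [.t 688 3 1] 103 136 [2, 2, 4] [(103, 136,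
  [2, 2, 4])]) .no .no

def c27t1529 : Tr4 :=
  .br 697 .no (.use 1528) .no .no (.use 1481) (.red [.f 696 5 1, .f 689 1 3] 103 136 [2, 2, 4]
  [(103, 136, [2, 2, 4])])

def c27t1530 : Tr4 :=
  .br 1065 .no (.con 136 [4, 4, 1, 3, 2, 2]) (.hor [.f 1065 3 1, .f 1072 1 5] [(150, 135, [1,
  4])]) (.con 136 [4, 4, 1, 3, 2, 2]) (.con 136 [4, 4, 1, 3, 2, 2]) (.con 136 [4, 4, 1, 3, 2, 2])

def c27t1531 : Tr4 :=
  .br 1346 (.use 377) .no (.red [.t 1345 2 3] 169 136 [3, 1, 1] [(169, 136, [3, 1, 1])]) (.br 1072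
  (.use 1518) (.br 1073 (.red [.f 1073 1 3, .f 1073 3 5, .f 945 5 1, .t 961 4 1, .f 945 1 3] 136
  136 [] [(135, 136, [4]), (136, 136, []), (151, 135, [1])]) .no .no (.br 1203 (.use 1316) (.red
  [.t 1074 3 1, .f 1081 1 5, .t 961 4 1] 136 136 [] [(136, 136, []), (151, 135, [1])]) .no (.use
  1520) .no (.red [.f 1202 5 3, .f 1074 3 1, .f 1081 1 5, .t 961 4 1] 136 136 [] [(136, 136, []),
  (151, 135, [1])])) .no .no) .no (.use 1514) (.use 1409) .no) (.use 1315) .no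

def c27t1532 : Tr4 :=
  .br 825 .no (.hor [.f 697 1 3, .f 824 3 5] [(104, 119, [3, 2])]) .no (.red [.t 825 4 1] 119 136
  [2, 4] [(119, 136, [2, 4])]) .no .no

def c27t1533 : Tr4 :=
  .br 960 .no (.br 825 .no (.use 5) .no (.red [.t 825 4 1] 119 136 [2, 4] [(119, 136, [2, 4])])
  .no (.use 1525)) (.br 1096 (.red [.f 1088 1 3, .f 960 3 1] 153 136 [3, 1] [(137, 136, [3]),
  (153, 136, [3, 1])]) .no (.br 832 .no (.hor [.f 704 1 5] []) (.br 1224 (.br 841 (.hor [.f 832 3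
  1, .f 840 1 5] [(121, 105, [1])]) (.red [.f 705 1 3] 105 136 [2, 2, 3] [(105, 136, [2, 2, 3])])
  (.br 969 .no .no (.use 1274) .no (.br 1218 (.hor [.f 1217 1 5] []) .no (.use 0) (.red [.t 1089 3
  2, .t 1209 2 3, .f 953 3 1, .f 961 1 3] 136 136 [] [(136, 136, []), (152, 136, [1])]) (.br 1210
  (.br 1225 (.red [.f 1217 1 3] 169 136 [3, 1, 1] [(169, 136, [3, 1, 1])]) .no (.use 365) .no
  (.use 1259) .no) .no .no (.red [.f 1074 3 1, .f 1081 1 5, .t 961 4 1] 136 136 [] [(136, 136,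
  []), (151, 135, [1])]) (.br 1225 (.red [.f 1217 1 3] 169 136 [3, 1, 1] [(169, 136, [3, 1, 1])])
  .no (.use 1328) .no (.br 971 (.br 1098 .no .no (.br 1105 (.red [.t 1105 1 4] 154 136 [3, 3, 1]
  [(154, 136, [3, 3, 1])]) (.hor [.t 1105 2 4, .f 970 1 5] [(138, 154, [2])]) (.br 1203 (.use
  1265) (.red [.t 1074 3 1, .f 1081 1 5, .t 961 4 1] 136 136 [] [(136, 136, []), (151, 135, [1])])
  .no (.br 1347 (.br 1346 (.hor [.f 1346 1 5] []) .no (.red [.t 1345 2 3] 169 136 [3, 1, 1] [(169,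
  136, [3, 1, 1])]) (.br 1072 (.br 1201 (.use 519) (.red [.f 1073 1 3, .f 1073 3 5, .f 945 5 1, .t
  961 4 1, .f 945 1 3] 136 136 [] [(135, 136, [4]), (136, 136, []), (151, 135, [1])]) .no (.use
  1530) (.red [.t 1089 3 2, .t 969 1 4, .t 1081 1 4, .t 961 4 1] 136 136 [] [(136, 136, []), (151,
  135, [1])]) .no) (.use 1521) .no (.use 1514) (.br 1208 (.use 1334) .no .no (.red [.t 1208 4 2,
  .f 1073 3 5, .f 945 5 1, .t 961 4 1, .f 945 1 3] 136 136 [] [(135, 136, [4]), (136, 136, []),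
  (151, 135, [1])]) .no .no) .no) .no .no) .no (.con 136 [3, 1, 1, 3]) (.use 421) .no (.use 359))
  .no (.red [.f 1202 5 3, .f 1074 3 1, .f 1081 1 5, .t 961 4 1] 136 136 [] [(136, 136, []), (151,
  135, [1])])) .no .no .no) .no .no .no) (.hor [.f 835 1 3, .f 834 3 5] [(121, 105, [1])]) (.br
  1098 .no .no (.use 361) .no (.use 1531) .no) .no .no .no) .no) .no) .no) .no) .no .no .no) .no
  (.red [.f 1096 3 1, .f 1088 1 3, .f 960 3 1] 153 136 [3, 1] [(137, 136, [3]), (153, 136, [3,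
  1]), (154, 136, [3, 1, 3])]) .no (.red [.t 1088 1 3, .t 952 1 3, .f 961 1 5] 153 136 [3, 1]
  [(136, 136, []), (153, 136, [3, 1])]) .no) (.use 1532) .no .no) .no .no .no) .no .no .no

def c27t1534 : Tr4 :=
  .br 691 .no (.con 136 [2, 2, 4, 4, 2]) .no (.hor [.f 682 3 5] []) .no .no

def c27t1535 : Tr4 :=
  .br 689 .no (.use 1534) (.hor [.f 688 3 5] []) (.hor [.f 681 3 5] []) .no .no

def c27t1536 : Tr4 :=
  .br 691 .no (.con 136 [2, 2, 4, 2, 4]) .no (.hor [.f 682 3 5] []) .no .no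

def c27t1537 : Tr4 :=
  .br 1201 (.use 519) (.red [.f 1073 1 3, .f 1073 3 5, .f 945 5 1, .t 961 4 1, .f 945 1 3] 136 136
  [] [(135, 136, [4]), (136, 136, []), (151, 135, [1])]) .no (.use 1530) (.red [.t 1081 1 4, .t
  961 4 1] 136 136 [] [(136, 136, []), (151, 135, [1])]) .no

def c27t1538 : Tr4 :=
  .br 1073 (.red [.f 1073 1 3, .f 1073 3 5, .f 945 5 1, .t 961 4 1, .f 945 1 3] 136 136 [] [(135,
  136, [4]), (136, 136, []), (151, 135, [1])]) .no .no (.br 936 (.red [.f 936 1 3] 134 136 [4, 4]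
  [(134, 136, [4, 4])]) (.use 1490) .no (.br 1201 (.use 519) .no .no (.red [.f 1065 3 1, .f 1073 1
  3, .f 1073 3 5, .t 961 4 1] 136 136 [] [(136, 136, []), (150, 134, [1]), (151, 135, [1])]) (.red
  [.t 1081 1 4, .t 961 4 1] 136 136 [] [(136, 136, []), (151, 135, [1])]) (.use 1519)) (.red [.t
  1072 2 4] 134 136 [4, 4] [(134, 136, [4, 4])]) .no) .no .no

def c27t1539 : Tr4 :=
  .br 824 .no (.hor [.f 696 1 5] []) .no (.con 136 [2, 2, 4]) .no .no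

def c27t1540 : Tr4 :=
  .br 825 .no (.use 1539) .no (.red [.t 825 4 1] 119 136 [2, 4] [(119, 136, [2, 4])]) .no (.red
  [.t 960 2 4, .t 1096 2 4, .f 961 1 5, .t 841 4 1] 121 136 [2, 3] [(120, 104, [1]), (121, 136,
  [2, 3]), (137, 121, [1])])

def c27t1541 : Tr4 :=
  .br 833 .no (.br 834 .no (.hor [.f 705 1 5] []) (.use 428) .no (.br 1096 (.red [.f 1088 1 3, .f
  1088 3 5] 153 136 [3, 1] [(153, 136, [3, 1])]) (.use 448) (.br 827 .no (.br 824 .no (.use 1526)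
  .no (.use 533) (.br 1218 (.hor [.f 1217 1 5] []) .no (.use 0) (.use 443) (.br 1210 (.use 453)
  .no .no (.red [.f 1074 3 1, .f 1081 1 5, .t 961 4 1] 136 136 [] [(136, 136, []), (151, 135,
  [1])]) (.br 1224 (.br 1098 (.use 455) (.use 468) (.use 440) .no (.br 1225 (.red [.f 1217 1 3]
  169 136 [3, 1, 1] [(169, 136, [3, 1, 1])]) .no (.use 226) .no (.br 1346 (.use 377) .no (.red [.t
  1345 2 3] 169 136 [3, 1, 1] [(169, 136, [3, 1, 1])]) (.br 1203 (.use 378) (.red [.t 1074 3 1, .f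
  1081 1 5, .t 961 4 1] 136 136 [] [(136, 136, []), (151, 135, [1])]) .no (.br 1072 (.use 1537)
  (.use 1538) .no (.use 1514) (.use 528) .no) .no (.red [.f 1202 5 3, .f 1074 3 1, .f 1081 1 5, .t
  961 4 1] 136 136 [] [(136, 136, []), (151, 135, [1])])) (.use 526) .no) .no) .no) .no (.red [.t
  960 2 4, .f 1096 3 1, .f 1088 1 3] 153 136 [3, 1] [(120, 119, [3]), (153, 136, [3, 1]), (154,
  136, [3, 3, 1])]) .no (.red [.t 1088 1 3, .t 952 1 3, .f 961 1 5] 153 136 [3, 1] [(136, 136,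
  []), (153, 136, [3, 1])]) .no) .no) .no) .no) .no (.red [.f 819 3 1, .f 826 1 5] 119 136 [2, 4]
  [(119, 136, [2, 4])]) .no .no) .no .no .no) .no) (.br 968 (.br 970 (.con 136 [3, 3]) (.br 835
  .no (.use 475) (.red [.f 835 3 1, .f 842 1 5] 121 136 [2, 3] [(121, 136, [2, 3])]) (.use 1540)
  .no (.red [.t 970 2 4, .f 833 3 5] 121 136 [2, 3] [(121, 136, [2, 3])])) (.use 444) .no .no
  (.red [.t 1089 3 2, .f 968 1 5, .t 832 1 3] 121 136 [2, 3] [(121, 136, [2, 3]), (137, 121,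
  [1])])) (.red [.f 832 1 3, .f 832 3 5] 121 136 [2, 3] [(121, 136, [2, 3])]) (.br 1096 (.red [.f
  1088 1 3, .f 1088 3 5] 153 136 [3, 1] [(153, 136, [3, 1])]) .no (.br 969 .no .no (.hor [.f 968 3
  5] []) .no (.br 1218 (.hor [.f 1217 1 5] []) .no (.use 0) (.red [.t 1089 3 2, .t 1209 2 3, .f
  953 3 1, .f 961 1 3] 136 136 [] [(136, 136, []), (152, 136, [1])]) (.br 1210 (.use 453) .no .no
  (.red [.f 1074 3 1, .f 1081 1 5, .t 961 4 1] 136 136 [] [(136, 136, []), (151, 135, [1])]) (.br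
  1225 (.red [.f 1217 1 3] 169 136 [3, 1, 1] [(169, 136, [3, 1, 1])]) .no (.use 501) .no (.br 1098
  .no .no (.use 513) .no (.br 1224 (.use 1522) .no (.red [.f 1096 3 1] 154 136 [3, 3, 1] [(154,
  136, [3, 3, 1])]) .no .no .no) .no) (.red [.t 1088 1 3, .t 952 1 3, .f 961 1 5] 153 136 [3, 1]
  [(136, 136, []), (153, 136, [3, 1])])) .no) .no) .no) .no .no .no) .no (.red [.t 832 1 3] 121
  136 [2, 3] [(121, 136, [2, 3])]) .no) (.red [.f 825 3 1, .f 825 1 5, .f 945 5 3, .f 946 3 5, .t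
  1090 2 4, .t 961 2 4] 136 136 [] [(136, 136, [])]) (.red [.t 953 3 2, .f 945 5 3, .f 946 3 1, .f
  954 1 3, .f 826 3 1] 136 136 [] [(135, 136, [4]), (136, 136, [])]) .no

def c27t1542 : Tr4 :=
  .br 1218 (.hor [.f 1217 1 5] []) .no (.use 0) (.red [.f 962 1 3, .f 1089 3 5, .t 1209 2 3, .f
  953 3 1, .t 961 1 3] 136 136 [] [(136, 136, []), (152, 136, [1])]) (.br 1099 (.con 136 [3, 3,
  1]) .no (.use 1309) .no .no .no) .no

def c27t1543 : Tr4 :=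
  .br 1218 (.hor [.f 1217 1 5] []) .no (.use 0) (.red [.t 1089 3 2, .t 1209 2 3, .f 953 3 1, .f
  961 1 3] 136 136 [] [(136, 136, []), (152, 136, [1])]) (.br 1210 (.use 452) .no .no (.red [.f
  1074 3 1, .f 1081 1 5, .t 961 4 1] 136 136 [] [(136, 136, []), (151, 135, [1])]) (.br 1098 (.use
  455) .no (.use 440) .no (.br 1225 (.red [.f 1217 1 3] 169 136 [3, 1, 1] [(169, 136, [3, 1, 1])])
  .no (.use 226) .no (.use 1531) .no) .no) .no) .no

def c27t1544 : Tr4 :=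
  .br 1224 (.br 834 .no (.br 835 .no (.hor [.f 706 1 5] []) (.br 970 (.use 1542) (.hor [.f 835 3
  1, .f 842 1 5] [(121, 136, [2, 3])]) (.use 1408) .no .no (.use 1543)) .no .no .no) (.hor [.f 833
  3 5] []) .no (.br 970 (.use 1542) (.hor [.t 970 2 4, .f 833 3 5] [(121, 136, [2, 3])]) (.use
  1408) .no .no (.use 1543)) .no) .no (.red [.f 1096 3 1, .f 1088 1 3, .f 960 3 1] 153 136 [3, 1]
  [(137, 136, [3]), (153, 136, [3, 1]), (154, 136, [3, 3, 1])]) .no (.red [.t 1088 1 3, .t 952 1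
  3, .f 961 1 5] 153 136 [3, 1] [(136, 136, []), (153, 136, [3, 1])]) .no

def c27t1545 : Tr4 :=
  .br 818 .no .no .no (.hor [.f 809 3 5] []) (.red [.t 954 2 4, .f 690 3 1, .f 697 1 5] 103 136
  [2, 4, 2] [(103, 136, [2, 4, 2]), (119, 136, [2, 4])]) .no

def c27t1546 : Tr4 :=
  .br 818 .no (.use 920) .no (.hor [.f 809 3 5] []) (.red [.t 954 2 4] 119 136 [2, 4] [(119, 136,
  [2, 4])]) .no

def c27l55 : List Tr4 :=
  [c27t1525, c27t1526, c27t1527, c27t1528, c27t1529, c27t1530, c27t1531, c27t1532, c27t1533,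
  c27t1534, c27t1535, c27t1536, c27t1537, c27t1538, c27t1539, c27t1540, c27t1541, c27t1542,
  c27t1543, c27t1544, c27t1545, c27t1546]

theorem c27k55 : chkLF ⟨4, 1, 0, true, -8⟩ false 7 c27N 1525 c27l55 = true := by decide +kernel

end Pool.Agent.FT4D
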