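import Pool.Agent.FT4D.Tab_c27

/-!
# Four levels: decision trees (found by a computer search)
-/

namespace Pool.Agent.FT4D

def c27t1547 : Tr4 :=
  .br 699 .no (.br 698 .no (.hor [.f 570 1 5] []) .no (.use 1545) .no .no) (.hor [.f 699 3 1, .f
  706 1 5] [(104, 136, [2, 2])]) (.br 698 .no (.br 818 .no (.con 136 [2, 2, 4, 4]) .no (.hor [.f
  809 3 5] []) (.red [.t 954 2 4] 119 136 [2, 4] [(119, 136, [2, 4])]) .no) .no (.use 1545) .no
  .no) .no (.use 1546)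

def c27t1548 : Tr4 :=
  .br 1073 (.red [.f 1073 1 3, .f 1073 3 5, .f 945 5 1, .t 961 4 1, .f 945 1 3] 136 136 [] [(135,
  136, [4]), (136, 136, []), (151, 135, [1])]) .no .no (.br 936 (.red [.f 936 1 3] 134 136 [4, 4]
  [(134, 136, [4, 4])]) (.use 1490) .no (.br 937 .no (.br 818 .no (.br 699 .no (.use 1386) (.hor
  [.f 699 3 1, .f 706 1 5] [(104, 136, [2, 2])]) (.con 136 [2, 4, 2, 4]) .no (.use 927)) .no (.red
  [.f 944 1 3, .t 809 1 3, .f 818 1 3] 119 136 [2, 4] [(118, 136, [2, 4, 4]), (119, 136, [2, 4]),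
  (135, 119, [1])]) (.red [.t 954 2 4] 119 136 [2, 4] [(119, 136, [2, 4])]) .no) .no (.hor [.f 928
  3 5] []) (.red [.f 937 5 3, .f 937 3 1] 134 136 [4, 4] [(134, 136, [4, 4])]) .no) (.red [.t 1072
  2 4] 134 136 [4, 4] [(134, 136, [4, 4])]) .no) .no .no

def c27t1549 : Tr4 :=
  .br 929 (.con 136 [2, 4, 4, 4, 1, 3, 2]) .no (.red [.f 801 3 1, .t 809 1 3] 118 136 [2, 4, 4]
  [(117, 136, [2, 4, 4, 4]), (118, 136, [2, 4, 4])]) (.con 136 [2, 4, 4, 4, 1, 3, 2]) (.con 136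
  [2, 4, 4, 4, 1, 3, 2]) (.con 136 [2, 4, 4, 4, 1, 3, 2])

def c27t1550 : Tr4 :=
  .br 818 .no .no .no (.br 809 (.red [.t 936 3 2, .f 809 3 5] 118 136 [2, 4, 4] [(118, 136, [2, 4,
  4])]) (.red [.t 680 3 1, .f 809 3 5, .t 697 1 4] 103 136 [2, 4, 2] [(102, 101, [3]), (103, 136,
  [2, 4, 2])]) .no (.br 808 .no .no .no (.hor [.f 800 3 5] []) .no .no) .no (.red [.f 808 5 3, .f
  809 3 5, .f 817 5 1, .f 818 1 3] 119 136 [2, 4] [(119, 136, [2, 4])])) (.red [.t 954 2 4, .f 690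
  3 1, .f 697 1 5] 103 136 [2, 4, 2] [(103, 136, [2, 4, 2]), (119, 136, [2, 4])]) .no

def c27t1551 : Tr4 :=
  .br 811 (.hor [.f 810 1 5] []) (.con 136 [4, 4, 2, 4]) (.con 136 [4, 4, 2, 4]) (.con 136 [4, 4,
  2, 4]) .no .no

def c27t1552 : Tr4 :=
  .br 819 .no (.red [.t 834 2 4, .f 691 1 3] 103 136 [2, 4, 2] [(103, 136, [2, 4, 2]), (104, 136,
  [2, 2])]) .no (.use 1491) .no (.red [.t 954 2 4] 119 136 [2, 4] [(119, 136, [2, 4])])

def c27t1553 : Tr4 :=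
  .br 818 .no .no .no (.red [.f 937 5 3, .f 810 3 1, .f 818 1 3] 119 136 [2, 4] [(118, 136, [2, 4,
  4]), (119, 136, [2, 4])]) (.red [.t 954 2 4, .f 690 3 1, .f 697 1 5] 103 136 [2, 4, 2] [(103,
  136, [2, 4, 2]), (119, 136, [2, 4])]) .no

def c27t1554 : Tr4 :=
  .br 819 .no (.br 680 .no (.hor [.f 552 1 3, .f 680 3 5] [(86, 103, [2, 4])]) .no (.red [.f 672 3
  1, .t 680 1 3, .f 689 1 3] 103 136 [2, 4, 2] [(101, 136, [2, 4, 4, 4, 2]), (102, 136, [2, 4, 2,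
  4]), (103, 136, [2, 4, 2])]) .no .no) .no (.use 1491) .no (.red [.t 954 2 4, .f 690 3 1, .f 697
  1 5] 103 136 [2, 4, 2] [(103, 136, [2, 4, 2]), (119, 136, [2, 4])])

def c27t1555 : Tr4 :=
  .br 818 .no .no .no (.br 809 .no .no .no (.hor [.f 800 3 5] []) .no .no) (.red [.t 954 2 4, .f
  690 3 1, .f 697 1 5] 103 136 [2, 4, 2] [(103, 136, [2, 4, 2]), (119, 136, [2, 4])]) .no

def c27t1556 : Tr4 :=
  .br 689 .no (.hor [.f 560 1 5] []) .no (.br 808 .no (.red [.t 680 1 3, .f 689 1 3, .f 689 3 5]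
  103 136 [2, 4, 2] [(102, 136, [2, 4, 2, 4]), (103, 136, [2, 4, 2])]) .no (.br 1338 (.hor [.f
  1337 1 5] []) .no .no (.br 937 (.br 938 (.hor [.f 937 1 5] []) (.use 1551) .no (.br 1064 (.use
  20) .no .no (.br 929 (.red [.f 929 1 3, .f 929 3 5] 133 136 [4, 4, 4] [(133, 136, [4, 4, 4])])
  (.br 939 (.con 136 [4, 4, 4]) (.br 819 .no (.con 136 [2, 4, 4, 4, 2, 3, 3]) .no .no .no (.red
  [.t 954 2 4, .f 690 3 1, .f 697 1 5] 103 136 [2, 4, 2] [(103, 136, [2, 4, 2]), (119, 136, [2,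
  4])])) .no (.con 136 [2, 4, 4, 4, 4]) .no .no) .no (.br 1057 (.br 939 (.con 136 [4, 4, 4]) (.br
  1200 (.hor [.f 1200 1 5] []) .no .no (.br 1066 (.br 1203 (.con 136 [4, 4, 1, 1, 3, 2, 2, 2])
  (.con 136 [4, 4, 1, 1, 3, 2, 2, 2]) .no (.con 136 [4, 4, 1, 1, 3, 2, 2, 2]) .no (.br 1067 (.con
  136 [4, 4, 1, 3, 2, 2]) .no (.br 1058 (.red [.f 1058 1 3, .f 930 3 1] 133 136 [4, 4, 4] [(133,
  136, [4, 4, 4]), (149, 136, [4, 4, 4, 1])]) .no .no (.br 1059 (.con 136 [4, 4, 4, 4, 1]) (.red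
  [.t 1066 1 3, .t 930 3 1, .f 937 1 5] 133 136 [4, 4, 4] [(133, 136, [4, 4, 4]), (150, 118, [1,
  1])]) .no (.hor [.f 1050 3 5] []) .no .no) (.red [.t 1066 1 3, .f 1058 5 3, .f 930 3 1] 133 136
  [4, 4, 4] [(133, 136, [4, 4, 4]), (150, 118, [1, 1])]) .no) (.con 136 [4, 4, 1, 3, 2, 2]) .no
  .no)) .no .no (.red [.f 930 3 1, .f 937 1 5] 133 136 [4, 4, 4] [(133, 136, [4, 4, 4])]) (.br
  1203 (.con 136 [4, 4, 1, 3, 2, 2]) (.br 1194 (.con 136 [4, 4, 1, 1, 3, 2, 2, 2]) .no (.br 1193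
  (.hor [.f 1193 1 3, .f 1192 3 5] [(166, 150, [1])]) .no .no .no .no .no) (.con 136 [4, 4, 1, 1,
  3, 2, 2, 2]) (.con 136 [4, 4, 1, 1, 3, 2, 2, 2]) (.con 136 [4, 4, 1, 1, 3, 2, 2, 2])) .no (.con
  136 [4, 4, 1, 3, 2, 2]) .no (.con 136 [4, 4, 1, 3, 2, 2])) .no) .no .no) .no (.hor [.f 930 3 5]
  []) .no .no) .no .no (.red [.f 921 3 1, .f 929 1 3] 133 136 [4, 4, 4] [(132, 136, [4, 4, 4, 4]),
  (133, 136, [4, 4, 4])]) (.red [.t 937 1 4, .f 1056 3 5] 133 136 [4, 4, 4] [(133, 136, [4, 4,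
  4])]) .no) .no (.red [.t 1064 4 2, .f 929 3 5] 133 136 [4, 4, 4] [(133, 136, [4, 4, 4])])) .no
  .no) (.use 1554) .no) (.red [.t 936 3 2] 118 136 [2, 4, 4] [(118, 136, [2, 4, 4])]) .no (.use
  1555) (.use 1553) .no) .no .no) (.red [.f 808 5 3, .f 808 3 1] 118 136 [2, 4, 4] [(118, 136, [2,
  4, 4])]) .no) .no .no

def c27t1557 : Tr4 :=
  .br 688 .no (.br 1211 (.br 1346 (.use 981) .no (.br 1337 (.use 1556) .no .no .no (.red [.t 1217
  1 4, .t 1097 4 1, .f 1081 1 3] 153 136 [3, 1] [(152, 136, [1]), (153, 136, [3, 1]), (168, 152,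
  [1])]) .no) (.red [.f 1210 3 1, .f 1217 1 5, .t 1097 4 1] 153 136 [3, 1] [(153, 136, [3, 1]),
  (168, 152, [1])]) (.red [.t 1210 3 1, .f 1217 1 5, .t 1097 4 1, .f 1081 1 3] 153 136 [3, 1]
  [(152, 136, [1]), (153, 136, [3, 1]), (168, 152, [1])]) .no) .no .no (.br 1337 (.br 1338 (.hor
  [.f 1337 1 5] []) .no (.red [.f 1210 3 1, .f 1217 1 5, .t 1097 4 1] 153 136 [3, 1] [(153, 136,
  [3, 1]), (168, 152, [1])]) (.br 689 .no (.hor [.f 560 1 5] []) .no (.br 808 .no (.red [.t 680 1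
  3, .f 689 1 3, .f 689 3 5] 103 136 [2, 2, 4] [(102, 136, [2, 2, 4, 4]), (103, 136, [2, 2, 4])])
  .no (.br 937 (.br 938 (.hor [.f 937 1 5] []) (.use 1551) .no (.br 1066 (.br 1339 (.br 1200 (.con
  136 [4, 4, 1, 1, 3, 2, 2, 2]) .no .no (.con 136 [4, 4, 1, 1, 3, 2, 2, 2]) .no .no) .no (.br 1200
  (.con 136 [4, 4, 1, 1, 3, 2, 2, 2]) .no .no (.con 136 [4, 4, 1, 1, 3, 2, 2, 2]) .no .no) (.hor
  [.f 1330 3 5] []) .no .no) .no .no (.red [.f 930 3 1, .f 937 1 5] 133 136 [4, 4, 4] [(133, 136,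
  [4, 4, 4])]) (.con 136 [4, 4, 1, 3, 2, 2]) .no) (.use 1554) .no) (.red [.t 936 3 2] 118 136 [2,
  4, 4] [(118, 136, [2, 4, 4])]) .no (.use 1555) (.use 1553) .no) (.red [.f 808 5 3, .f 808 3 1]
  118 136 [2, 4, 4] [(118, 136, [2, 4, 4])]) .no) .no .no) (.br 689 .no (.hor [.f 560 1 5] []) .no
  (.br 808 .no (.red [.t 680 1 3, .f 689 1 3, .f 689 3 5] 103 136 [2, 2, 4] [(102, 136, [2, 2, 4,
  4]), (103, 136, [2, 2, 4])]) .no (.br 937 (.br 938 (.hor [.f 937 1 5] []) (.use 1551) .no (.br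
  1066 (.br 1200 (.hor [.f 1200 1 5] []) .no .no (.br 1330 (.con 136 [4, 4, 1, 1, 3, 2, 2, 2])
  (.hor [.f 1201 1 5] []) .no (.con 136 [4, 4, 1, 1, 3, 2, 2, 2]) (.con 136 [4, 4, 1, 1, 3, 2, 2,
  2]) .no) .no .no) .no .no (.red [.f 930 3 1, .f 937 1 5] 133 136 [4, 4, 4] [(133, 136, [4, 4,
  4])]) (.con 136 [4, 4, 1, 3, 2, 2]) .no) (.use 1554) .no) (.red [.t 936 3 2] 118 136 [2, 4, 4]
  [(118, 136, [2, 4, 4])]) .no (.use 1555) (.use 1553) .no) (.red [.f 808 5 3, .f 808 3 1] 118 136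
  [2, 4, 4] [(118, 136, [2, 4, 4])]) .no) .no .no) .no) .no .no .no (.red [.t 1217 1 4, .t 1097 4
  1, .f 1081 1 3] 153 136 [3, 1] [(152, 136, [1]), (153, 136, [3, 1]), (168, 152, [1])]) .no) .no
  .no) .no (.use 1550) (.red [.f 696 3 1, .f 688 5 1, .f 689 1 3, .f 696 1 3] 103 136 [2, 2, 4]
  [(103, 136, [2, 2, 4])]) .no

def c27t1558 : Tr4 :=
  .br 698 .no (.con 136 [2, 2, 2, 4]) .no (.hor [.f 690 3 5] []) .no .no

def c27t1559 : Tr4 :=
  .br 699 .no (.br 1072 (.br 1073 (.red [.f 1073 1 3, .f 1073 3 5, .f 945 5 1, .t 961 4 1, .f 945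
  1 3] 136 136 [] [(135, 136, [4]), (136, 136, []), (151, 135, [1])]) .no .no (.br 698 .no (.hor
  [.f 570 1 5] []) .no (.br 688 .no (.br 689 .no (.hor [.f 560 1 5] []) .no (.br 808 .no (.red [.t
  680 1 3, .f 689 1 3, .f 689 3 5] 103 136 [2, 2, 4] [(102, 136, [2, 2, 4, 4]), (103, 136, [2, 2,
  4])]) .no (.br 937 .no (.red [.t 936 3 2] 118 136 [2, 4, 4] [(118, 136, [2, 4, 4])]) .no (.br
  938 (.br 818 .no .no .no (.red [.t 1065 3 2, .f 810 3 1] 118 136 [2, 4, 4] [(118, 136, [2, 4,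
  4]), (134, 136, [4, 4])]) (.red [.t 954 2 4, .f 690 3 1, .f 697 1 5] 103 136 [2, 2, 4] [(103,
  136, [2, 2, 4]), (119, 136, [2, 4])]) .no) (.br 811 (.hor [.f 810 1 5] []) (.con 136 [2, 4, 4,
  4]) (.con 136 [2, 4, 4, 2]) (.con 136 [2, 4, 4, 4]) .no .no) .no (.hor [.f 929 3 5] []) (.br 818
  .no .no .no (.br 809 .no .no .no (.use 1549) .no .no) (.red [.t 954 2 4, .f 690 3 1, .f 697 1 5]
  103 136 [2, 2, 4] [(103, 136, [2, 2, 4]), (119, 136, [2, 4])]) .no) .no) (.use 1553) .no) (.red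
  [.f 808 5 3, .f 808 3 1] 118 136 [2, 4, 4] [(118, 136, [2, 4, 4])]) .no) .no .no) .no (.br 818
  .no .no .no (.br 938 (.red [.t 1065 3 2, .f 810 3 1] 118 136 [2, 4, 4] [(118, 136, [2, 4, 4]),
  (134, 136, [4, 4])]) .no .no (.br 937 .no (.red [.t 936 3 2, .f 809 3 5] 118 136 [2, 4, 4]
  [(118, 136, [2, 4, 4])]) .no (.hor [.f 929 3 5] []) .no .no) (.br 809 (.red [.t 936 3 2, .f 809
  3 5] 118 136 [2, 4, 4] [(118, 136, [2, 4, 4])]) (.red [.t 680 3 1, .f 809 3 5, .t 697 1 4] 103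
  136 [2, 2, 4] [(102, 101, [3]), (103, 136, [2, 2, 4])]) .no (.use 1549) .no (.red [.f 808 5 3,
  .f 809 3 5, .f 817 5 1, .f 818 1 3] 119 136 [2, 4] [(119, 136, [2, 4])])) (.red [.f 937 5 3, .f
  810 3 1, .f 818 1 3] 119 136 [2, 4] [(118, 136, [2, 4, 4]), (119, 136, [2, 4])])) (.red [.t 954
  2 4, .f 690 3 1, .f 697 1 5] 103 136 [2, 2, 4] [(103, 136, [2, 2, 4]), (119, 136, [2, 4])]) .no)
  (.red [.f 696 3 1, .f 688 5 1, .f 689 1 3, .f 696 1 3] 103 136 [2, 2, 4] [(103, 136, [2, 2,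
  4])]) .no) .no .no) .no .no) .no .no (.use 1514) (.br 1208 (.br 1201 (.br 977 (.con 136 [3, 3,
  2, 4, 4, 4]) (.con 136 [3, 3, 2, 4, 4, 4]) (.con 136 [3, 3, 2, 4, 4, 4]) (.br 698 .no (.hor [.f
  570 1 5] []) .no (.use 1557) .no .no) (.con 136 [3, 3, 2, 4, 4, 4]) (.con 136 [3, 3, 2, 4, 4,
  4])) .no .no (.use 28) (.red [.t 1081 1 4, .t 961 4 1] 136 136 [] [(136, 136, []), (151, 135,
  [1])]) (.red [.f 1072 5 1, .f 1073 1 3, .f 1073 3 5, .t 961 4 1] 136 136 [] [(136, 136, []),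
  (151, 135, [1])])) .no .no (.red [.t 1208 4 2, .f 1073 3 5, .f 945 5 1, .t 961 4 1, .f 945 1 3]
  136 136 [] [(135, 136, [4]), (136, 136, []), (151, 135, [1])]) .no .no) .no) (.hor [.f 699 3 1,
  .f 706 1 5] [(104, 136, [2, 2])]) (.use 1558) .no (.use 1552)

def c27t1560 : Tr4 :=
  .br 1203 (.use 1316) (.red [.t 1074 3 1, .f 1081 1 5, .t 961 4 1] 136 136 [] [(136, 136, []),
  (151, 135, [1])]) .no (.use 1537) .no (.red [.f 1202 5 3, .f 1074 3 1, .f 1081 1 5, .t 961 4 1]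
  136 136 [] [(136, 136, []), (151, 135, [1])])

def c27t1561 : Tr4 :=
  .br 1098 (.br 1225 (.hor [.f 1224 1 5] []) .no (.br 1099 (.con 136 [3, 3, 1, 1]) .no (.br 817
  .no (.red [.f 689 1 3] 103 136 [2, 2, 4] [(103, 136, [2, 2, 4])]) .no (.use 1547) (.red [.f 817
  5 1, .f 818 1 3] 119 136 [2, 4] [(119, 136, [2, 4])]) (.br 1218 (.hor [.f 1217 1 5] []) .no .no
  (.br 1219 (.use 766) .no (.br 696 .no (.br 944 (.use 1548) .no .no (.br 688 .no (.red [.f 560 1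
  3, .t 696 4 1] 103 136 [2, 2, 4] [(87, 136, [2, 2, 4, 2]), (103, 136, [2, 2, 4])]) .no (.br 699
  .no (.br 698 .no (.hor [.f 570 1 5] []) .no (.use 1550) .no .no) (.hor [.f 699 3 1, .f 706 1 5]
  [(104, 136, [2, 2])]) (.br 698 .no (.con 136 [2, 2, 2, 4]) .no (.use 1550) .no .no) .no (.use
  1552)) (.red [.f 688 5 1, .f 689 1 3] 103 136 [2, 2, 4] [(103, 136, [2, 2, 4])]) .no) .no .no)
  (.br 944 (.use 1548) .no .no (.use 1559) .no .no) (.red [.t 696 4 1] 103 136 [2, 2, 4] [(103,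
  136, [2, 2, 4])]) .no .no) (.hor [.f 1210 3 5] []) .no .no) (.br 1210 (.use 352) .no .no (.red
  [.f 1074 3 1, .f 1081 1 5, .t 961 4 1] 136 136 [] [(136, 136, []), (151, 135, [1])]) (.use 373)
  .no) .no)) .no .no .no) .no .no .no) .no (.use 440) .no (.br 817 .no (.red [.f 689 1 3] 103 136
  [2, 2, 4] [(103, 136, [2, 2, 4])]) .no (.use 1547) (.red [.f 817 5 1, .f 818 1 3] 119 136 [2, 4]
  [(119, 136, [2, 4])]) (.br 1218 (.hor [.f 1217 1 5] []) .no (.use 0) (.use 536) (.br 1210 (.use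
  452) .no .no (.red [.f 1074 3 1, .f 1081 1 5, .t 961 4 1] 136 136 [] [(136, 136, []), (151, 135,
  [1])]) (.br 1225 (.red [.f 1217 1 3] 169 136 [3, 1, 1] [(169, 136, [3, 1, 1])]) .no (.use 226)
  .no (.br 1346 (.use 377) .no (.red [.t 1345 2 3] 169 136 [3, 1, 1] [(169, 136, [3, 1, 1])]) (.br
  1072 (.use 1560) (.use 1548) .no (.use 1514) (.use 1409) .no) (.use 1315) .no) .no) .no) .no))
  .no

def c27t1562 : Tr4 :=
  .br 1218 (.hor [.f 1217 1 5] []) .no (.use 0) (.red [.f 962 1 3, .f 1089 3 5, .t 1209 2 3, .f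
  953 3 1, .t 961 1 3] 136 136 [] [(136, 136, []), (152, 136, [1])]) (.br 1210 (.use 452) .no .no
  (.red [.f 1074 3 1, .f 1081 1 5, .t 961 4 1] 136 136 [] [(136, 136, []), (151, 135, [1])]) (.br
  1225 (.red [.f 1217 1 3] 169 136 [3, 1, 1] [(169, 136, [3, 1, 1])]) .no (.use 1327) .no (.br 969
  .no (.br 1099 (.con 136 [3, 3, 1]) .no (.br 1106 (.use 465) (.red [.f 962 1 3, .f 962 3 1, .f
  970 1 3, .f 1098 3 5] 138 136 [3, 3] [(138, 136, [3, 3])]) (.use 1305) .no .no (.br 1203 (.use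
  1313) (.red [.t 1074 3 1, .f 1081 1 5, .t 961 4 1] 136 136 [] [(136, 136, []), (151, 135, [1])])
  .no (.br 1072 (.use 1537) (.use 1538) .no (.use 1514) (.use 1335) .no) .no (.red [.f 1202 5 3,
  .f 1074 3 1, .f 1081 1 5, .t 961 4 1] 136 136 [] [(136, 136, []), (151, 135, [1])]))) .no .no
  .no) (.use 1336) .no .no .no) .no) .no) .no

def c27t1563 : Tr4 :=
  .br 1218 (.hor [.f 1217 1 5] []) .no (.use 0) (.use 536) (.br 1210 (.use 452) .no .no (.red [.f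
  1074 3 1, .f 1081 1 5, .t 961 4 1] 136 136 [] [(136, 136, []), (151, 135, [1])]) (.br 1225 (.red
  [.f 1217 1 3] 169 136 [3, 1, 1] [(169, 136, [3, 1, 1])]) .no (.use 226) .no (.br 1346 (.use 377)
  .no (.red [.t 1345 2 3] 169 136 [3, 1, 1] [(169, 136, [3, 1, 1])]) (.br 1072 (.use 1560) (.br
  1203 (.use 1316) (.red [.t 1074 3 1, .f 1081 1 5, .t 961 4 1] 136 136 [] [(136, 136, []), (151,
  135, [1])]) .no (.use 1538) .no (.red [.f 1202 5 3, .f 1074 3 1, .f 1081 1 5, .t 961 4 1] 136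
  136 [] [(136, 136, []), (151, 135, [1])])) .no (.use 1514) (.use 1409) .no) (.use 1315) .no)
  .no) .no) .no

def c27l56 : List Tr4 :=
  [c27t1547, c27t1548, c27t1549, c27t1550, c27t1551, c27t1552, c27t1553, c27t1554, c27t1555,
  c27t1556, c27t1557, c27t1558, c27t1559, c27t1560, c27t1561, c27t1562, c27t1563]

theorem c27k56 : chkLF ⟨4, 1, 0, true, -8⟩ false 7 c27N 1547 c27l56 = true := by decide +kernel

def c27t1564 : Tr4 :=
  .br 834 .no (.br 833 .no (.hor [.f 705 1 5] []) (.br 970 (.use 1542) (.use 1561) (.use 1408) .no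
  .no (.use 1543)) .no .no .no) (.br 833 .no (.br 970 (.use 1562) .no (.br 1098 (.br 1225 (.hor
  [.f 1224 1 5] []) .no (.br 1099 (.con 136 [3, 3, 1, 1]) .no (.br 969 .no (.br 817 .no (.red [.f
  689 1 3] 103 136 [2, 2, 4] [(103, 136, [2, 2, 4])]) .no (.br 706 .no (.br 698 .no (.use 557) .no
  (.use 1545) (.use 559) .no) (.red [.f 706 3 1, .f 705 1 5] 105 136 [2, 2, 3] [(105, 136, [2, 2,
  3])]) (.br 699 .no (.use 561) (.hor [.f 698 3 5] []) (.br 696 .no (.con 136 [2, 2, 2, 4]) (.con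
  136 [2, 2, 2]) (.br 689 .no (.br 690 (.con 136 [2, 2, 4, 4]) (.hor [.f 561 1 5] []) .no (.con
  136 [2, 2, 2, 4, 4]) .no .no) .no (.red [.f 681 3 1, .f 689 1 3] 103 136 [2, 2, 4] [(102, 136,
  [2, 2, 4, 4]), (103, 136, [2, 2, 4])]) (.br 818 .no .no .no (.hor [.f 809 3 5] []) (.red [.t 954
  2 4, .t 825 2 4, .f 688 3 5] 103 136 [2, 2, 4] [(103, 136, [2, 2, 4]), (119, 136, [2, 4])]) .no)
  .no) .no .no) .no .no) (.use 583) .no) (.red [.f 817 5 1, .f 818 1 3] 119 136 [2, 4] [(119, 136,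
  [2, 4])]) (.br 706 .no (.br 698 .no (.use 557) .no (.br 699 .no (.br 707 .no (.hor [.f 578 1 5]
  []) (.use 592) .no .no .no) (.br 819 .no (.red [.f 699 3 1, .f 691 1 3, .f 690 3 5] 103 136 [2,
  2, 4] [(103, 136, [2, 2, 4]), (104, 136, [2, 2])]) .no (.use 1491) .no (.red [.t 954 2 4, .f 690
  3 1, .f 697 1 5] 103 136 [2, 2, 4] [(103, 136, [2, 2, 4]), (119, 136, [2, 4])])) (.hor [.f 690 3
  5] []) .no .no) (.use 559) .no) (.red [.f 706 3 1, .f 705 1 5] 105 136 [2, 2, 3] [(105, 136, [2,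
  2, 3])]) (.use 588) (.use 583) .no)) (.hor [.f 969 3 5] []) .no .no .no) .no .no .no) .no .no
  .no) .no (.use 440) .no (.use 1563) .no) .no .no (.use 1543)) (.hor [.f 833 3 5] []) .no .no
  .no) .no .no (.red [.t 953 3 2, .f 945 5 3, .f 946 3 1, .f 954 1 3, .f 826 3 1] 136 136 []
  [(135, 136, [4]), (136, 136, [])])

def c27t1565 : Tr4 :=
  .br 832 .no (.hor [.f 704 1 5] []) (.br 834 .no (.hor [.f 705 1 5] []) (.use 532) .no (.br 1224
  (.br 1098 (.br 970 .no (.br 969 .no (.hor [.f 841 1 5] []) (.use 938) .no .no .no) (.br 969 .no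
  (.use 535) (.hor [.f 969 3 5] []) .no .no .no) .no .no (.use 1543)) (.use 1562) (.use 440) .no
  (.use 1563) .no) .no (.red [.f 1096 3 1, .f 1088 1 3, .f 960 3 1] 153 136 [3, 1] [(137, 136,
  [3]), (153, 136, [3, 1]), (154, 136, [3, 3, 1])]) .no (.red [.t 1088 1 3, .t 952 1 3, .f 961 1
  5] 153 136 [3, 1] [(136, 136, []), (153, 136, [3, 1])]) .no) .no) .no .no .no

def c27t1566 : Tr4 :=
  .br 696 .no (.hor [.f 568 1 5] []) (.con 136 [2, 2, 2]) (.red [.t 688 3 1] 103 136 [2, 2, 4]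
  [(103, 136, [2, 2, 4])]) .no .no

def c27t1567 : Tr4 :=
  .br 690 (.con 136 [2, 2, 4, 4]) (.use 1477) (.use 1482) (.br 689 .no (.use 1534) (.br 696 .no
  (.con 136 [2, 2, 4, 2]) (.con 136 [2, 2, 4, 2]) (.use 1535) .no .no) (.hor [.f 681 3 5] []) .no
  (.use 1536)) (.use 1483) (.use 1488)

def c27t1568 : Tr4 :=
  .br 696 .no (.br 697 .no (.hor [.f 568 1 5] []) .no .no (.br 699 .no (.use 910) (.red [.f 699 3
  1, .f 706 1 5] 104 136 [2, 2] [(104, 136, [2, 2])]) (.con 136 [2, 2, 2, 4]) .no .no) .no) .no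
  (.red [.t 688 3 1, .f 696 1 3] 104 136 [2, 2] [(103, 136, [2, 2, 4]), (104, 136, [2, 2])]) (.red
  [.f 696 5 1, .f 689 1 3] 103 136 [2, 2, 4] [(103, 136, [2, 2, 4])]) .no

def c27t1569 : Tr4 :=
  .br 696 .no (.hor [.f 568 1 5] []) (.con 136 [2, 2, 2]) (.red [.t 688 3 1] 103 136 [2, 2, 4]
  [(103, 136, [2, 2, 4])]) .no .no

def c27t1570 : Tr4 :=
  .br 699 .no (.br 697 .no (.use 1569) (.red [.f 824 5 3, .f 697 3 1, .f 689 1 3] 104 136 [2, 2]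
  [(103, 136, [2, 2, 4]), (104, 136, [2, 2])]) .no (.red [.f 824 5 3, .t 833 4 2, .f 689 1 3] 104
  136 [2, 2] [(103, 136, [2, 2, 4]), (104, 136, [2, 2])]) (.red [.f 696 5 1, .f 689 1 3] 103 136
  [2, 2, 4] [(103, 136, [2, 2, 4])])) (.red [.f 699 3 1, .f 706 1 5] 104 136 [2, 2] [(104, 136,
  [2, 2])]) (.use 681) .no (.red [.f 824 5 3, .t 834 2 4] 104 136 [2, 2] [(104, 136, [2, 2])])

def c27t1571 : Tr4 :=
  .br 697 .no (.red [.f 569 1 3] 88 136 [2, 2, 2] [(88, 136, [2, 2, 2])]) .no (.use 1342) (.use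
  910) (.red [.f 696 5 1, .f 696 1 3] 104 136 [2, 2] [(104, 136, [2, 2])])

def c27t1572 : Tr4 :=
  .br 697 .no (.br 707 .no (.red [.f 571 1 3] 88 136 [2, 2, 2] [(88, 136, [2, 2, 2])]) (.use 935)
  .no .no .no) .no (.use 1342) .no (.red [.f 704 5 1, .f 696 5 1, .f 696 1 3] 104 136 [2, 2]
  [(104, 136, [2, 2])])

def c27t1573 : Tr4 :=
  .br 698 .no (.hor [.f 570 1 5] []) .no (.br 841 .no (.br 705 .no (.br 697 .no (.red [.f 569 1 3]
  88 136 [2, 2, 2] [(88, 136, [2, 2, 2])]) .no (.use 1342) .no (.br 704 .no (.hor [.f 576 1 5] [])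
  (.red [.t 712 4 1, .f 696 5 1, .f 696 1 3] 104 136 [2, 2] [(104, 136, [2, 2]), (105, 136, [2, 2,
  3])]) .no .no .no)) .no (.red [.f 824 5 3, .f 697 3 1, .f 705 1 3] 104 136 [2, 2] [(104, 136,
  [2, 2]), (105, 136, [2, 2, 3])]) .no (.use 1572)) (.hor [.f 841 3 1, .f 841 1 5] [(122, 104, [3,
  1, 3])]) .no .no (.br 705 .no (.br 697 .no (.red [.f 569 1 3] 88 136 [2, 2, 2] [(88, 136, [2, 2,
  2])]) .no (.use 1342) .no (.br 704 .no (.hor [.f 576 1 5] []) (.red [.f 832 5 3, .f 696 5 1, .f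
  704 3 1, .f 696 1 3] 104 136 [2, 2] [(104, 136, [2, 2]), (105, 136, [2, 2, 3])]) .no .no .no))
  (.br 704 .no (.br 707 .no (.red [.f 571 1 3] 88 136 [2, 2, 2] [(88, 136, [2, 2, 2])]) (.con 136
  [2, 2, 2, 3]) .no .no .no) (.hor [.f 704 3 5] []) (.con 136 [2, 2, 2]) .no .no) (.red [.f 824 5
  3, .f 697 3 1] 104 136 [2, 2] [(104, 136, [2, 2])]) .no (.use 1572))) .no (.red [.f 824 5 3, .t
  833 4 2] 104 136 [2, 2] [(104, 136, [2, 2])])

def c27t1574 : Tr4 :=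
  .br 697 .no (.red [.f 569 1 3] 88 136 [2, 2, 2] [(88, 136, [2, 2, 2])]) .no (.use 912) (.br 690
  (.con 136 [2, 2, 4, 4]) (.use 913) .no (.br 696 .no (.con 136 [2, 2, 2, 4]) .no (.br 689 .no
  (.con 136 [2, 2, 2, 4, 4]) .no (.hor [.f 681 3 5] []) .no .no) .no .no) .no (.red [.f 689 5 3,
  .f 690 3 5, .t 834 2 4] 104 136 [2, 2] [(104, 136, [2, 2])])) (.red [.f 696 5 1, .f 696 1 3] 104
  136 [2, 2] [(104, 136, [2, 2])])

def c27t1575 : Tr4 :=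
  .br 969 .no (.br 1099 (.hor [.f 1098 1 5] []) .no (.use 682) .no .no .no) (.hor [.f 969 3 5] [])
  .no .no .no

def c27t1576 : Tr4 :=
  .br 706 .no (.br 705 .no (.hor [.f 577 1 5] []) (.br 696 .no (.br 704 .no (.con 136 [2, 2, 3,
  2]) (.hor [.f 704 3 5] []) .no .no .no) (.con 136 [2, 2, 3, 2]) (.red [.t 688 3 1] 103 136 [2,
  2, 4] [(103, 136, [2, 2, 4])]) (.red [.f 696 5 1, .f 689 1 3] 103 136 [2, 2, 4] [(103, 136, [2,
  2, 4])]) .no) (.red [.f 824 5 3, .f 697 3 1, .f 689 1 3] 104 136 [2, 2] [(103, 136, [2, 2, 4]),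
  (104, 136, [2, 2])]) .no (.br 707 .no (.hor [.f 578 1 5] []) (.con 136 [2, 2, 2, 3]) (.red [.f
  699 3 1] 104 136 [2, 2] [(104, 136, [2, 2])]) .no .no)) (.red [.f 706 3 1] 105 136 [2, 2, 3]
  [(105, 136, [2, 2, 3])]) (.use 742) (.use 757) (.br 697 .no (.br 699 .no (.use 1569) (.red [.f
  699 3 1] 104 136 [2, 2] [(104, 136, [2, 2])]) (.use 689) .no (.br 696 .no (.use 763) (.con 136
  [2, 2, 2]) (.red [.t 688 3 1] 103 136 [2, 2, 4] [(103, 136, [2, 2, 4])]) .no .no)) .no .no (.red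
  [.f 824 5 3, .f 697 5 3, .f 697 3 1, .f 689 1 3] 104 136 [2, 2] [(103, 136, [2, 2, 4]), (104,
  136, [2, 2])]) (.red [.f 696 5 1, .f 689 1 3] 103 136 [2, 2, 4] [(103, 136, [2, 2, 4])]))

def c27t1577 : Tr4 :=
  .br 834 .no (.br 1224 (.br 1098 (.br 817 .no (.br 970 .no (.br 833 .no (.use 1565) (.br 832 .no
  (.br 705 .no (.use 1568) (.hor [.f 705 3 1, .f 704 1 5] [(105, 104, [3])]) (.red [.t 704 1 4, .f
  689 1 3] 104 136 [2, 2] [(103, 136, [2, 2, 4]), (104, 136, [2, 2])]) .no .no) (.hor [.f 832 3 5]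
  []) .no .no .no) .no .no (.use 1570)) (.br 833 .no (.use 1565) (.use 1408) .no .no (.use 1570))
  .no .no (.use 1543)) .no (.br 970 .no (.br 969 .no (.hor [.f 841 1 5] []) (.br 699 .no (.br 833
  .no (.use 1565) (.br 832 .no (.br 705 .no (.use 1571) (.hor [.f 705 3 1, .f 704 1 5] [(105, 104,
  [3])]) (.red [.t 704 1 4] 104 136 [2, 2] [(104, 136, [2, 2])]) .no .no) (.hor [.f 832 3 5] [])
  .no .no .no) .no .no (.use 1573)) (.red [.f 699 3 1, .f 706 1 5] 104 136 [2, 2] [(104, 136, [2,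
  2])]) (.br 833 .no (.use 1565) (.br 832 .no (.br 705 .no (.use 1574) (.hor [.f 705 3 1, .f 704 1
  5] [(105, 104, [3])]) (.red [.t 704 1 4] 104 136 [2, 2] [(104, 136, [2, 2])]) .no .no) (.hor [.f
  832 3 5] []) .no .no .no) .no .no (.use 681)) .no (.use 1546)) .no .no .no) (.br 833 .no (.use
  1565) (.use 1408) .no .no (.use 1575)) .no .no (.use 1543)) (.red [.f 817 5 1, .f 818 1 3] 119
  136 [2, 4] [(119, 136, [2, 4])]) (.red [.f 816 5 3, .t 825 4 1] 119 136 [2, 4] [(119, 136, [2,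
  4])])) (.use 1562) (.use 440) .no (.use 1563) .no) .no (.red [.f 1096 3 1, .f 1088 1 3, .f 960 3
  1] 153 136 [3, 1] [(137, 136, [3]), (153, 136, [3, 1]), (154, 136, [3, 3, 1])]) .no (.red [.t
  1088 1 3, .t 952 1 3, .f 961 1 5] 153 136 [3, 1] [(136, 136, []), (153, 136, [3, 1])]) .no) (.br
  833 .no (.use 1565) (.hor [.f 833 3 5] []) .no .no (.br 1224 (.br 1098 (.br 970 .no .no (.br 969
  .no (.br 817 .no (.use 1576) .no (.br 843 .no (.br 707 .no (.br 706 .no (.hor [.f 578 1 5] [])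
  (.red [.f 706 3 1, .f 714 1 5] 105 136 [2, 2, 3] [(105, 136, [2, 2, 3])]) (.use 688) .no (.br
  699 .no (.red [.f 571 1 3] 88 136 [2, 2, 2] [(88, 136, [2, 2, 2])]) .no (.use 689) .no (.use
  1546))) .no (.red [.f 699 3 1, .f 707 1 3] 105 136 [2, 2, 3] [(104, 136, [2, 2]), (105, 136, [2,
  2, 3])]) .no (.use 757)) (.use 756) .no .no .no) (.red [.f 824 5 3, .f 817 5 1, .f 818 1 3] 119
  136 [2, 4] [(119, 136, [2, 4])]) (.red [.f 824 5 3, .f 824 3 5, .f 816 5 3, .t 825 4 1, .f 946 3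
  1] 119 136 [2, 4] [(119, 136, [2, 4]), (135, 136, [4])])) (.hor [.f 969 3 5] []) .no .no .no)
  .no .no (.use 1543)) (.use 1562) (.use 440) .no (.use 1563) .no) .no (.red [.f 1096 3 1, .f 1088
  1 3, .f 960 3 1] 153 136 [3, 1] [(137, 136, [3]), (153, 136, [3, 1]), (154, 136, [3, 3, 1])])
  .no (.red [.t 1088 1 3, .t 952 1 3, .f 961 1 5] 153 136 [3, 1] [(136, 136, []), (153, 136, [3,
  1])]) .no)) .no .no (.red [.t 953 3 2, .f 945 5 3, .f 946 3 1, .f 954 1 3, .f 826 3 1] 136 136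
  [] [(135, 136, [4]), (136, 136, [])])

def c27l57 : List Tr4 :=
  [c27t1564, c27t1565, c27t1566, c27t1567, c27t1568, c27t1569, c27t1570, c27t1571, c27t1572,
  c27t1573, c27t1574, c27t1575, c27t1576, c27t1577]

theorem c27k57 : chkLF ⟨4, 1, 0, true, -8⟩ false 7 c27N 1564 c27l57 = true := by decide +kernel

def c27t1578 : Tr4 :=
  .br 963 .no (.br 827 .no (.br 834 .no (.use 1495) (.br 833 .no (.use 1533) (.hor [.f 833 3 5]
  []) (.red [.f 825 3 1, .f 825 1 5, .f 945 5 3, .f 946 3 5, .t 1090 2 4, .t 961 2 4] 136 136 []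
  [(136, 136, [])]) .no (.br 825 .no (.use 1493) .no (.red [.t 825 4 1] 119 136 [2, 4] [(119, 136,
  [2, 4])]) .no (.br 817 .no (.br 697 .no (.use 1528) (.red [.f 824 5 3, .f 697 3 1, .f 689 1 3]
  103 136 [2, 2, 4] [(103, 136, [2, 2, 4]), (104, 136, [2, 2])]) .no (.use 1481) (.red [.f 696 5
  1, .f 689 1 3] 103 136 [2, 2, 4] [(103, 136, [2, 2, 4])])) .no (.br 819 .no (.red [.f 691 1 3]
  103 136 [2, 2, 4] [(103, 136, [2, 2, 4])]) .no (.br 690 (.con 136 [2, 2, 4, 4]) (.use 1477)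
  (.use 1482) (.br 696 .no (.br 697 .no (.hor [.f 568 1 5] []) (.br 689 .no (.use 1534) .no (.hor
  [.f 681 3 5] []) .no (.use 1536)) (.con 136 [2, 2, 4, 2]) (.br 689 .no (.use 1534) .no (.hor [.f
  681 3 5] []) .no (.br 691 .no (.con 136 [2, 2, 2, 4, 4]) .no (.hor [.f 682 3 5] []) .no .no))
  .no) (.br 689 .no (.use 1534) (.con 136 [2, 2, 4, 2]) (.hor [.f 681 3 5] []) .no (.use 1536))
  (.use 1535) (.use 1507) .no) (.use 1483) (.use 1488)) .no (.red [.f 824 5 3, .t 954 2 4] 119 136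
  [2, 4] [(119, 136, [2, 4])])) (.red [.f 824 5 3, .f 817 5 1, .f 818 1 3] 119 136 [2, 4] [(119,
  136, [2, 4])]) (.red [.f 824 5 3, .f 824 3 5, .f 816 5 3, .t 825 4 1, .f 946 3 1] 119 136 [2, 4]
  [(119, 136, [2, 4]), (135, 136, [4])])))) .no .no (.red [.t 953 3 2, .f 945 5 3, .f 946 3 1, .f
  954 1 3, .f 826 3 1] 136 136 [] [(135, 136, [4]), (136, 136, [])])) .no (.red [.f 819 3 1, .f
  826 1 5] 119 136 [2, 4] [(119, 136, [2, 4])]) .no .no) (.br 960 .no (.use 1541) (.br 1096 (.red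
  [.f 1088 1 3, .f 960 3 1] 153 136 [3, 1] [(137, 136, [3]), (153, 136, [3, 1])]) .no (.br 825 .no
  (.br 827 .no (.br 824 .no (.hor [.f 696 1 5] []) (.br 833 .no (.hor [.f 697 1 3, .f 824 3 5]
  [(104, 103, [3])]) (.use 1544) .no (.red [.t 953 3 2, .f 945 5 3, .f 946 3 1, .f 954 1 3, .f 826
  3 1] 136 136 [] [(135, 136, [4]), (136, 136, [])]) .no) (.con 136 [2, 2, 4]) .no .no) (.br 824
  .no (.hor [.f 696 1 5] []) (.br 1224 (.use 1564) .no (.red [.f 1096 3 1, .f 1088 1 3, .f 960 3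
  1] 153 136 [3, 1] [(137, 136, [3]), (153, 136, [3, 1]), (154, 136, [3, 3, 1])]) .no (.red [.t
  1088 1 3, .t 952 1 3, .f 961 1 5] 153 136 [3, 1] [(136, 136, []), (153, 136, [3, 1])]) .no)
  (.con 136 [2, 2, 4]) .no .no) (.red [.f 819 3 1, .f 826 1 5] 119 136 [2, 4] [(119, 136, [2,
  4])]) .no .no) (.red [.f 825 3 1, .f 825 1 5, .f 945 5 3, .f 946 3 5, .t 1090 2 4, .t 961 2 4]
  136 136 [] [(136, 136, [])]) (.red [.t 825 4 1] 119 136 [2, 4] [(119, 136, [2, 4])]) .no (.br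
  827 .no (.br 833 .no (.use 1565) (.use 1544) .no (.red [.t 953 3 2, .f 945 5 3, .f 946 3 1, .f
  954 1 3, .f 826 3 1] 136 136 [] [(135, 136, [4]), (136, 136, [])]) (.br 817 .no (.br 697 .no
  (.br 698 .no (.hor [.f 569 1 5] []) (.use 1566) (.use 1494) .no .no) (.red [.f 824 5 3, .f 697 3
  1, .f 689 1 3] 103 136 [2, 2, 4] [(103, 136, [2, 2, 4]), (104, 136, [2, 2])]) .no (.use 1481)
  (.red [.f 696 5 1, .f 689 1 3] 103 136 [2, 2, 4] [(103, 136, [2, 2, 4])])) .no (.br 819 .no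
  (.red [.f 691 1 3] 103 136 [2, 2, 4] [(103, 136, [2, 2, 4])]) .no (.use 1567) .no (.red [.f 824
  5 3, .t 954 2 4] 119 136 [2, 4] [(119, 136, [2, 4])])) (.red [.f 824 5 3, .f 817 5 1, .f 818 1
  3] 119 136 [2, 4] [(119, 136, [2, 4])]) (.red [.f 824 5 3, .f 824 3 5, .f 816 5 3, .t 825 4 1,
  .f 946 3 1] 119 136 [2, 4] [(119, 136, [2, 4]), (135, 136, [4])]))) (.use 1577) (.red [.f 819 3
  1, .f 826 1 5] 119 136 [2, 4] [(119, 136, [2, 4])]) .no .no)) .no .no .no) .no .no .no) .no .no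
  .no

def c27t1579 : Tr4 :=
  .br 970 .no .no (.use 1509) .no (.use 115) (.br 1099 (.con 136 [3, 3, 1]) (.br 706 .no (.use
  216) (.red [.f 706 3 1, .f 705 1 5] 105 136 [2, 2, 3] [(105, 136, [2, 2, 3])]) (.use 1508) (.br
  841 .no (.red [.f 705 1 3] 105 136 [2, 2, 3] [(105, 136, [2, 2, 3])]) (.use 231) .no .no (.br
  843 .no (.red [.t 842 4 2, .f 705 1 5] 105 136 [2, 2, 3] [(105, 136, [2, 2, 3])]) (.use 1511)
  .no .no .no)) .no) (.hor [.f 1098 3 5] []) .no .no .no)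

def c27t1580 : Tr4 :=
  .br 969 .no (.br 843 .no (.red [.t 842 4 2, .f 705 1 5] 105 136 [2, 2, 3] [(105, 136, [2, 2,
  3])]) (.use 53) .no .no .no) (.br 841 .no (.red [.f 705 1 3] 105 136 [2, 2, 3] [(105, 136, [2,
  2, 3])]) (.br 843 .no (.red [.t 842 4 2, .f 705 1 5] 105 136 [2, 2, 3] [(105, 136, [2, 2, 3])])
  (.use 223) .no .no .no) .no .no (.use 1524)) .no .no .no

def c27t1581 : Tr4 :=
  .br 706 .no (.use 216) (.red [.f 706 3 1, .f 705 1 5] 105 136 [2, 2, 3] [(105, 136, [2, 2, 3])])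
  (.use 1508) (.use 1580) .no

def c27t1582 : Tr4 :=
  .br 833 .no (.br 834 .no (.hor [.f 705 1 5] []) (.use 428) .no (.br 1224 (.use 1460) .no (.red
  [.f 1096 3 1, .f 1088 1 3, .f 1088 3 5] 153 136 [3, 1] [(153, 136, [3, 1]), (154, 136, [3, 3,
  1])]) .no (.red [.t 1088 1 3, .t 952 1 3, .f 961 1 5] 153 136 [3, 1] [(136, 136, []), (153, 136,
  [3, 1])]) .no) .no) (.br 968 .no (.red [.f 832 1 3, .f 832 3 5] 121 136 [2, 3] [(121, 136, [2,
  3])]) (.use 1461) .no (.red [.t 832 1 3] 121 136 [2, 3] [(121, 136, [2, 3])]) .no) (.red [.f 825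
  3 1, .f 825 1 5, .f 945 5 3, .f 946 3 5, .t 1090 2 4, .t 961 2 4] 136 136 [] [(136, 136, [])])
  (.red [.t 953 3 2, .f 945 5 3, .f 946 3 1, .f 954 1 3, .f 826 3 1] 136 136 [] [(135, 136, [4]),
  (136, 136, [])]) .no

def c27t1583 : Tr4 :=
  .br 1210 (.br 963 .no (.br 827 .no (.br 834 .no (.use 1495) (.br 833 .no (.br 960 .no (.br 824
  .no (.use 1526) .no (.use 533) (.br 1096 (.red [.f 1088 1 3, .f 1088 3 5] 153 136 [3, 1] [(153,
  136, [3, 1])]) (.br 817 .no (.use 1529) .no (.br 1098 (.red [.t 1097 4 1, .f 1081 1 3] 153 136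
  [3, 1] [(152, 136, [1]), (153, 136, [3, 1])]) (.use 229) (.use 1579) .no (.br 1225 (.br 970 .no
  .no (.use 1445) .no (.use 1581) (.br 1346 (.use 1452) .no (.red [.t 1353 2 4, .f 1089 3 1, .f
  1081 1 3] 153 136 [3, 1] [(152, 136, [1]), (153, 136, [3, 1]), (169, 136, [3, 1, 1])]) .no (.use
  1425) (.red [.f 1217 5 1, .f 1217 1 3, .f 1089 3 1] 153 136 [3, 1] [(153, 136, [3, 1]), (169,
  136, [3, 1, 1])]))) .no (.use 227) .no (.red [.f 1217 5 3, .f 1089 3 1, .f 1081 1 3] 153 136 [3,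
  1] [(152, 136, [1]), (153, 136, [3, 1])]) (.red [.t 1088 1 3, .t 952 1 3, .f 961 1 5] 153 136
  [3, 1] [(136, 136, []), (153, 136, [3, 1])])) .no) (.red [.f 817 5 1, .f 818 1 3] 119 136 [2, 4]
  [(119, 136, [2, 4])]) (.red [.f 816 5 3, .t 825 4 1] 119 136 [2, 4] [(119, 136, [2, 4])])) (.use
  1456) .no .no .no) .no) (.use 1432) .no .no .no) (.hor [.f 833 3 5] []) (.red [.f 825 3 1, .f
  825 1 5, .f 945 5 3, .f 946 3 5, .t 1090 2 4, .t 961 2 4] 136 136 [] [(136, 136, [])]) .no (.use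
  1433)) .no .no (.red [.t 953 3 2, .f 945 5 3, .f 946 3 1, .f 954 1 3, .f 826 3 1] 136 136 []
  [(135, 136, [4]), (136, 136, [])])) .no (.red [.f 819 3 1, .f 826 1 5] 119 136 [2, 4] [(119,
  136, [2, 4])]) .no .no) (.br 960 .no (.br 1096 (.red [.f 1088 1 3, .f 1088 3 5] 153 136 [3, 1]
  [(153, 136, [3, 1])]) (.use 1464) (.use 1582) .no .no .no) (.use 1470) .no .no .no) .no .no .no)
  .no .no (.red [.f 1074 3 1, .f 1081 1 5, .t 961 4 1] 136 136 [] [(136, 136, []), (151, 135,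
  [1])]) (.br 963 .no (.br 827 .no (.br 834 .no (.use 1495) (.br 833 .no (.br 960 .no (.br 824 .no
  (.use 1526) .no (.use 533) (.br 1096 (.red [.f 1088 1 3, .f 1088 3 5] 153 136 [3, 1] [(153, 136,
  [3, 1])]) (.br 817 .no (.use 1529) .no (.br 1098 (.red [.t 1097 4 1, .f 1081 1 3] 153 136 [3, 1]
  [(152, 136, [1]), (153, 136, [3, 1])]) (.use 229) (.use 1579) .no (.br 970 .no .no (.use 1445)
  .no (.use 1581) (.use 1472)) .no) (.red [.f 817 5 1, .f 818 1 3] 119 136 [2, 4] [(119, 136, [2,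
  4])]) (.red [.f 816 5 3, .t 825 4 1] 119 136 [2, 4] [(119, 136, [2, 4])])) (.use 1456) .no .no
  .no) .no) (.use 1432) .no .no .no) (.hor [.f 833 3 5] []) (.red [.f 825 3 1, .f 825 1 5, .f 945
  5 3, .f 946 3 5, .t 1090 2 4, .t 961 2 4] 136 136 [] [(136, 136, [])]) .no (.use 1433)) .no .no
  (.red [.t 953 3 2, .f 945 5 3, .f 946 3 1, .f 954 1 3, .f 826 3 1] 136 136 [] [(135, 136, [4]),
  (136, 136, [])])) .no (.red [.f 819 3 1, .f 826 1 5] 119 136 [2, 4] [(119, 136, [2, 4])]) .no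
  .no) (.br 960 .no (.br 1096 (.red [.f 1088 1 3, .f 1088 3 5] 153 136 [3, 1] [(153, 136, [3,
  1])]) (.use 1473) (.use 1582) .no .no .no) (.use 1470) .no .no .no) .no .no .no) .no

def c27t1584 : Tr4 :=
  .br 946 .no (.red [.f 818 1 3] 119 136 [2, 4] [(119, 136, [2, 4])]) .no (.br 1217 (.br 960 .no
  (.br 963 .no (.br 827 .no (.use 426) .no (.red [.f 819 3 1, .f 826 1 5] 119 136 [2, 4] [(119,
  136, [2, 4])]) .no .no) (.use 531) .no .no .no) (.br 1096 (.red [.f 1088 1 3, .f 960 3 1] 153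
  136 [3, 1] [(137, 136, [3]), (153, 136, [3, 1])]) .no (.br 1224 (.br 945 (.br 1218 (.hor [.f
  1217 1 5] []) .no (.use 0) (.br 969 .no (.use 812) (.use 1257) .no (.red [.t 1089 3 2, .t 1209 2
  3, .f 953 3 1, .f 961 1 3] 136 136 [] [(136, 136, []), (152, 136, [1])]) .no) (.use 1317) .no)
  (.use 10) .no (.hor [.f 937 3 5] []) .no (.use 1410)) .no (.red [.f 1096 3 1, .f 1088 1 3, .f
  960 3 1] 153 136 [3, 1] [(137, 136, [3]), (153, 136, [3, 1]), (154, 136, [3, 1, 3])]) .no (.red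
  [.t 1088 1 3, .t 952 1 3, .f 961 1 5] 153 136 [3, 1] [(136, 136, []), (153, 136, [3, 1])]) .no)
  .no .no .no) .no .no .no) .no (.red [.f 1089 3 1, .f 1081 1 3] 153 136 [3, 1] [(152, 136, [1]),
  (153, 136, [3, 1])]) .no (.br 1210 (.br 963 .no (.br 827 .no (.br 945 (.use 1434) (.use 10) .no
  (.hor [.f 937 3 5] []) .no (.br 960 .no (.br 1096 (.red [.f 1088 1 3, .f 1088 3 5] 153 136 [3,
  1] [(153, 136, [3, 1])]) (.br 1098 (.red [.t 1097 4 1, .f 1081 1 3] 153 136 [3, 1] [(152, 136,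
  [1]), (153, 136, [3, 1])]) (.use 229) (.use 1441) .no (.br 1225 (.use 1454) .no (.use 227) .no
  (.red [.f 1217 5 3, .f 1089 3 1, .f 1081 1 3] 153 136 [3, 1] [(152, 136, [1]), (153, 136, [3,
  1])]) (.red [.t 1088 1 3, .t 952 1 3, .f 961 1 5] 153 136 [3, 1] [(136, 136, []), (153, 136, [3,
  1])])) .no) (.use 1456) .no .no .no) (.use 1458) .no .no .no)) .no (.red [.f 819 3 1, .f 826 1
  5] 119 136 [2, 4] [(119, 136, [2, 4])]) .no .no) (.br 960 .no (.br 945 (.use 1462) (.use 10) .no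
  (.hor [.f 937 3 5] []) .no (.br 1096 (.red [.f 1088 1 3, .f 1088 3 5] 153 136 [3, 1] [(153, 136,
  [3, 1])]) (.use 1464) (.use 1465) .no .no .no)) (.use 1470) .no .no .no) .no .no .no) .no .no
  (.red [.f 1074 3 1, .f 1081 1 5, .t 961 4 1] 136 136 [] [(136, 136, []), (151, 135, [1])]) (.use
  1474) .no) .no) .no (.br 1217 (.use 1578) .no (.red [.f 1089 3 1, .f 1081 1 3] 153 136 [3, 1]
  [(152, 136, [1]), (153, 136, [3, 1])]) .no (.use 1583) .no)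

def c27t1585 : Tr4 :=
  .br 1074 (.con 136 [4, 1, 3, 2]) (.con 136 [4, 1, 3, 2]) (.hor [.f 1073 3 5] []) (.con 136 [4,
  1, 3, 2]) (.con 136 [4, 1, 3, 2]) .no

def c27t1586 : Tr4 :=
  .br 1075 (.con 136 [4, 4, 1]) .no .no (.hor [.f 1066 3 5] []) .no .no

def c27t1587 : Tr4 :=
  .br 1208 (.br 1209 (.hor [.f 1208 1 5] []) .no .no (.red [.f 1073 3 1, .f 1072 1 5] 151 136 [4,
  1] [(151, 136, [4, 1])]) .no .no) .no .no .no (.red [.t 1072 1 3, .f 1081 1 5] 151 136 [4, 1]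
  [(151, 136, [4, 1])]) .no

def c27t1588 : Tr4 :=
  .br 946 .no (.red [.f 818 1 3] 119 136 [2, 4] [(119, 136, [2, 4])]) .no (.hor [.f 937 3 5] [])
  .no .no

def c27t1589 : Tr4 :=
  .br 1075 (.con 136 [4, 4, 1]) .no .no (.hor [.f 1066 3 5] []) .no .no

def c27t1590 : Tr4 :=
  .br 946 .no (.red [.f 818 1 3] 119 136 [2, 4] [(119, 136, [2, 4])]) .no (.hor [.f 937 3 5] [])
  .no .no

def c27t1591 : Tr4 :=
  .br 1201 (.hor [.f 1201 1 5] []) .no .no (.con 136 [4, 1, 1, 4]) .no (.con 136 [4, 1, 4, 1])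

def c27t1592 : Tr4 :=
  .br 1202 (.use 1591) .no .no (.hor [.f 1194 3 5] []) .no (.red [.f 944 1 3, .f 944 3 1, .t 1081
  4 1] 151 136 [4, 1] [(151, 136, [4, 1])])

def c27t1593 : Tr4 :=
  .br 1203 (.red [.f 1203 1 3, .t 1210 2 4, .f 1073 3 5] 151 136 [4, 1] [(151, 136, [4, 1]), (167,
  136, [4, 1, 1])]) .no .no (.br 1208 (.br 1209 (.hor [.f 1208 1 5] []) .no .no (.red [.f 1073 3
  1, .f 1081 1 5] 151 136 [4, 1] [(151, 136, [4, 1])]) .no .no) .no .no (.br 1201 (.con 136 [4, 1,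
  1]) .no (.hor [.f 1200 3 5] []) (.con 136 [4, 1, 1]) (.con 136 [4, 1, 1]) .no) (.br 1202 (.use
  1591) .no .no (.hor [.f 1194 3 5] []) .no (.red [.t 1082 1 3, .t 1218 4 2, .t 1081 4 1] 151 136
  [4, 1] [(151, 136, [4, 1])])) .no) .no (.red [.f 1074 5 1, .f 1074 1 3] 151 136 [4, 1] [(151,
  136, [4, 1])])

def c27t1594 : Tr4 :=
  .br 1074 (.red [.f 1074 1 3, .f 1073 3 5] 151 136 [4, 1] [(151, 136, [4, 1])]) (.red [.t 1082 1
  3, .t 946 1 3, .f 1073 3 5, .t 961 4 1] 136 136 [] [(135, 119, [1]), (136, 136, []), (152, 136,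
  [1])]) .no (.br 1072 (.use 1587) (.use 1589) .no (.use 1586) .no .no) (.br 1211 (.use 1593) .no
  .no (.red [.t 1082 1 3, .t 1218 4 2, .t 1210 2 4, .f 1073 3 5] 151 136 [4, 1] [(151, 136, [4,
  1])]) .no .no) .no

def c27t1595 : Tr4 :=
  .br 1082 (.use 1594) .no .no (.hor [.f 1073 3 5] []) .no .no

def c27t1596 : Tr4 :=
  .br 1218 (.hor [.f 1217 1 5] []) .no .no (.use 1585) (.use 1595) .no

def c27t1597 : Tr4 :=
  .br 1219 (.con 136 [1, 3, 1]) .no (.hor [.f 1218 3 5] []) (.con 136 [1, 3, 1]) .no .no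

def c27t1598 : Tr4 :=
  .br 1218 (.hor [.f 1217 1 5] []) .no .no (.use 1585) (.use 1595) .no

def c27t1599 : Tr4 :=
  .br 1218 (.hor [.f 1218 1 5] []) .no (.con 136 [3, 1, 1]) .no .no .no

def c27t1600 : Tr4 :=
  .br 819 .no (.red [.f 691 1 3] 103 136 [2, 2, 4] [(103, 136, [2, 2, 4])]) .no (.red [.t 937 3 2,
  .f 810 3 5, .t 954 2 4] 119 136 [2, 4] [(118, 117, [3]), (119, 136, [2, 4])]) .no .no

def c27t1601 : Tr4 :=
  .br 1065 (.hor [.f 1065 1 5] []) .no .no (.con 136 [4, 4, 4, 1]) .no .no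

def c27t1602 : Tr4 :=
  .br 1066 (.use 1601) .no .no (.red [.f 930 3 1, .f 938 1 3] 134 136 [4, 4] [(133, 136, [4, 4,
  4]), (134, 136, [4, 4])]) (.con 136 [4, 4, 1]) (.red [.t 945 4 1] 134 136 [4, 4] [(134, 136, [4,
  4])])

def c27l58 : List Tr4 :=
  [c27t1578, c27t1579, c27t1580, c27t1581, c27t1582, c27t1583, c27t1584, c27t1585, c27t1586,
  c27t1587, c27t1588, c27t1589, c27t1590, c27t1591, c27t1592, c27t1593, c27t1594, c27t1595,
  c27t1596, c27t1597, c27t1598, c27t1599, c27t1600, c27t1601, c27t1602]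

theorem c27k58 : chkLF ⟨4, 1, 0, true, -8⟩ false 7 c27N 1578 c27l58 = true := by decide +kernel

def c27t1603 : Tr4 :=
  .br 1075 (.con 136 [4, 4, 1]) .no .no (.red [.t 1074 2 4, .f 937 3 5] 134 136 [4, 4] [(134, 136,
  [4, 4])]) .no .no

def c27t1604 : Tr4 :=
  .br 1075 .no .no .no (.red [.t 1066 1 3, .f 1193 3 5, .t 1081 4 1] 151 136 [4, 1] [(150, 149,
  [3]), (151, 136, [4, 1])]) .no .no

def c27t1605 : Tr4 :=
  .br 1203 (.red [.f 1203 1 3] 167 136 [4, 1, 1] [(167, 136, [4, 1, 1])]) (.con 136 [4, 4, 1, 1])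
  .no (.con 136 [4, 4, 1, 1]) .no (.use 1604)

def c27t1606 : Tr4 :=
  .br 1194 (.con 136 [1, 4, 4, 1]) .no (.red [.t 1202 4 2] 150 136 [1, 4, 4] [(150, 136, [1, 4,
  4])]) (.con 136 [1, 4, 4, 1]) (.con 136 [1, 4, 4, 1]) .no

def c27t1607 : Tr4 :=
  .br 1203 (.con 136 [4, 4, 1, 3]) (.use 1606) .no (.con 136 [4, 4, 1, 3]) .no (.con 136 [4, 4, 1,
  3])

def c27t1608 : Tr4 :=
  .br 1065 (.hor [.f 1065 1 5] []) .no .no (.con 136 [4, 4, 1, 4]) .no (.con 136 [4, 4, 4, 1])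

def c27t1609 : Tr4 :=
  .br 1066 (.use 1608) .no .no (.hor [.f 1058 3 5] []) .no (.red [.t 945 4 1] 134 136 [4, 4]
  [(134, 136, [4, 4])])

def c27t1610 : Tr4 :=
  .br 1075 (.br 1067 (.red [.f 1067 1 3] 150 136 [4, 4, 1] [(150, 136, [4, 4, 1])]) .no .no (.use
  1609) .no (.red [.f 938 5 1, .f 938 1 3] 134 136 [4, 4] [(134, 136, [4, 4])])) .no .no (.red [.t
  1074 2 4, .f 937 3 5] 134 136 [4, 4] [(134, 136, [4, 4])]) .no .no

def c27t1611 : Tr4 :=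
  .br 817 .no (.br 819 .no (.red [.f 691 1 3] 103 136 [2, 2, 4] [(103, 136, [2, 2, 4])]) .no (.br
  690 (.hor [.f 689 1 5] []) (.con 136 [2, 4, 4, 2, 3]) (.con 136 [2, 4, 4, 2, 3]) (.con 136 [2,
  4, 4, 2, 3]) (.con 136 [2, 4, 4, 2, 3]) .no) .no (.red [.t 960 2 4, .t 824 3 1, .t 954 2 4] 119
  136 [2, 4] [(119, 136, [2, 4])])) .no (.br 819 .no (.red [.f 691 1 3] 103 136 [2, 2, 4] [(103,
  136, [2, 2, 4])]) .no (.con 136 [2, 4, 4, 2]) .no (.red [.t 960 2 4, .t 824 3 1, .t 954 2 4] 119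
  136 [2, 4] [(119, 136, [2, 4])])) (.use 1600) .no

def c27t1612 : Tr4 :=
  .br 1203 (.red [.f 1203 1 3] 167 136 [4, 1, 1] [(167, 136, [4, 1, 1])]) .no .no (.br 1338 (.hor
  [.f 1337 1 5] []) .no .no (.con 136 [4, 4, 1, 1, 3]) .no .no) .no (.br 1338 (.hor [.f 1337 1 5]
  []) .no .no (.red [.t 1338 4 2, .f 1201 1 5] 167 136 [4, 1, 1] [(167, 136, [4, 1, 1])]) .no .no)

def c27t1613 : Tr4 :=
  .br 1072 (.br 1066 (.br 1208 (.br 1337 (.br 1211 (.br 1201 (.br 1065 (.hor [.f 1065 1 5] []) .no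
  .no (.br 1067 (.hor [.f 1066 1 5] []) (.con 136 [4, 4, 1, 4]) (.use 1612) (.con 136 [4, 4, 1,
  4]) .no .no) .no (.br 1067 (.hor [.f 1066 1 5] []) (.con 136 [4, 4, 4]) (.use 1612) (.con 136
  [4, 4, 4, 1]) .no .no)) .no .no (.use 1605) (.red [.t 1081 4 1, .f 1072 1 5] 151 136 [4, 1]
  [(151, 136, [4, 1])]) .no) .no .no (.dom 151 136 [4, 1]) .no .no) .no (.red [.f 1209 3 1, .f
  1208 1 5] 168 136 [1, 1] [(168, 136, [1, 1])]) (.br 1211 (.br 1201 .no .no .no (.use 1605) (.red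
  [.t 1081 4 1, .f 1072 1 5] 151 136 [4, 1] [(151, 136, [4, 1])]) .no) .no .no (.dom 151 136 [4,
  1]) .no .no) (.red [.t 1217 4 1, .f 1208 1 5] 168 136 [1, 1] [(168, 136, [1, 1])]) .no) .no .no
  .no .no .no) .no .no (.red [.f 930 3 1, .f 938 1 3] 134 136 [4, 4] [(133, 136, [4, 4, 4]), (134,
  136, [4, 4])]) (.br 1211 (.br 1203 (.con 136 [4, 4, 1, 3]) (.br 1201 (.br 1202 (.hor [.f 1201 1
  5] []) .no .no (.red [.t 1202 4 2] 150 136 [4, 4, 1] [(150, 136, [4, 4, 1])]) .no .no) .no .no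
  (.use 1606) (.red [.t 1081 4 1, .f 1072 1 5] 151 136 [4, 1] [(151, 136, [4, 1])]) .no) .no (.con
  136 [4, 4, 1, 3]) .no (.con 136 [4, 4, 1, 3])) .no .no (.con 136 [4, 4, 1, 3]) .no .no) (.red
  [.t 945 4 1] 134 136 [4, 4] [(134, 136, [4, 4])])) .no .no (.use 1602) .no .no

def c27t1614 : Tr4 :=
  .br 1218 (.br 938 (.red [.f 938 1 3, .f 937 3 5] 134 136 [4, 4] [(134, 136, [4, 4])]) (.use
  1611) .no (.use 1613) (.use 1610) .no) .no (.hor [.f 1218 3 5] []) .no .no .no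

def c27t1615 : Tr4 :=
  .br 1074 (.red [.f 1074 1 3, .f 1073 3 5] 151 136 [4, 1] [(151, 136, [4, 1])]) (.br 1219 (.use
  1599) .no (.use 1614) (.con 136 [1, 1]) .no (.red [.t 1082 1 3, .t 946 1 3, .f 1073 3 5, .t 961
  4 1] 136 136 [] [(135, 119, [1]), (136, 136, []), (152, 136, [1])])) .no (.use 1588) (.use 1590)
  .no

def c27t1616 : Tr4 :=
  .br 696 .no (.use 1479) (.br 705 .no (.br 697 .no (.use 1527) .no .no (.use 1480) .no) (.hor [.f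
  705 3 1, .f 705 1 5] [(105, 88, [1, 3])]) (.hor [.f 696 3 5] []) .no .no) (.red [.t 688 3 1] 103
  136 [2, 2, 4] [(103, 136, [2, 2, 4])]) (.red [.f 696 5 1, .f 689 1 3] 103 136 [2, 2, 4] [(103,
  136, [2, 2, 4])]) .no

def c27t1617 : Tr4 :=
  .br 946 .no (.hor [.f 817 1 5] []) .no (.con 136 [2, 4, 4]) .no .no

def c27t1618 : Tr4 :=
  .br 946 .no (.hor [.f 817 1 5] []) .no (.con 136 [2, 4, 4]) .no .no

def c27t1619 : Tr4 :=
  .br 1074 (.red [.f 1074 1 3, .f 1073 3 5] 151 136 [4, 1] [(151, 136, [4, 1])]) (.con 136 [2, 4,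
  4]) .no (.use 1617) (.use 1618) .no

def c27t1620 : Tr4 :=
  .br 816 .no (.hor [.f 688 1 5] []) .no (.red [.f 808 3 1] 118 136 [2, 4, 4] [(118, 136, [2, 4,
  4])]) .no .no

def c27t1621 : Tr4 :=
  .br 945 .no (.use 1619) .no (.hor [.f 936 3 5] []) (.br 825 .no (.use 5) .no (.red [.t 825 4 1]
  119 136 [2, 4] [(119, 136, [2, 4])]) .no (.br 817 .no (.use 1620) .no (.use 1485) (.red [.f 817
  5 1, .f 818 1 3] 119 136 [2, 4] [(119, 136, [2, 4])]) (.red [.f 816 5 3, .t 825 4 1] 119 136 [2,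
  4] [(119, 136, [2, 4])]))) .no

def c27t1622 : Tr4 :=
  .br 944 (.br 946 .no (.hor [.f 817 1 5] []) .no (.con 136 [2, 4, 4]) .no .no) (.hor [.f 816 1 5]
  []) .no (.use 1618) .no .no

def c27t1623 : Tr4 :=
  .br 945 .no (.use 1622) .no (.use 1590) (.red [.f 825 3 1, .f 825 1 5, .f 945 5 3, .f 946 3 5,
  .t 1090 2 4, .t 961 2 4] 136 136 [] [(136, 136, [])]) (.red [.t 1080 2 4, .t 1216 2 4, .f 1081 1
  5, .t 961 4 1] 136 136 [] [(135, 119, [1]), (136, 136, []), (152, 136, [1])])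

def c27t1624 : Tr4 :=
  .br 1074 (.red [.f 1074 1 3, .f 1073 3 5] 151 136 [4, 1] [(151, 136, [4, 1])]) (.red [.f 825 3
  1, .f 825 1 5, .t 1073 3 2, .f 946 3 5, .t 1090 2 4, .t 961 2 4] 136 136 [] [(135, 119, [1]),
  (136, 136, [])]) .no (.br 945 .no (.br 944 (.br 946 .no (.hor [.f 817 1 5] []) .no (.con 136 [2,
  4, 4]) .no .no) (.hor [.f 816 1 5] []) .no (.use 1617) .no .no) .no (.use 1588) (.red [.f 825 3
  1, .f 825 1 5, .f 945 5 3, .f 946 3 5, .t 1090 2 4, .t 961 2 4] 136 136 [] [(136, 136, [])])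
  (.red [.t 1080 2 4, .t 1216 2 4, .f 1081 1 5, .t 961 4 1] 136 136 [] [(135, 119, [1]), (136,
  136, []), (152, 136, [1])])) (.use 1623) .no

def c27t1625 : Tr4 :=
  .br 1082 (.use 1624) .no .no (.hor [.f 1073 3 5] []) .no .no

def c27t1626 : Tr4 :=
  .br 833 .no (.hor [.f 705 1 5] []) (.br 1082 (.br 944 (.red [.f 944 1 3, .f 1072 3 5, .t 1216 2
  4, .f 1081 1 5, .t 961 4 1] 136 136 [] [(135, 119, [1]), (136, 136, []), (152, 136, [1])]) (.br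
  825 .no (.use 5) .no (.dom 119 136 [2, 4]) .no (.br 945 .no (.hor [.f 816 1 5] []) .no (.use
  1615) (.br 817 .no (.use 1616) .no (.use 1485) (.red [.f 817 5 1, .f 818 1 3] 119 136 [2, 4]
  [(119, 136, [2, 4])]) .no) .no)) .no (.use 1621) (.red [.t 1080 2 4, .t 1216 2 4, .f 1081 1 5,
  .t 961 4 1] 136 136 [] [(135, 119, [1]), (136, 136, []), (152, 136, [1])]) .no) .no .no (.hor
  [.f 1073 3 5] []) .no .no) (.use 1625) .no .no

def c27t1627 : Tr4 :=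
  .br 944 (.red [.f 944 1 3, .f 1072 3 5, .t 1216 2 4, .f 1081 1 5, .t 961 4 1] 136 136 [] [(135,
  119, [1]), (136, 136, []), (152, 136, [1])]) (.hor [.f 816 1 5] []) .no (.use 1619) .no .no

def c27t1628 : Tr4 :=
  .br 944 (.con 136 [4, 4]) (.br 825 .no (.use 5) .no (.dom 119 136 [2, 4]) .no .no) .no (.hor [.f
  936 3 5] []) .no .no

def c27t1629 : Tr4 :=
  .br 945 .no (.use 1627) .no (.br 1074 (.red [.f 1074 1 3, .f 1073 3 5] 151 136 [4, 1] [(151,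
  136, [4, 1])]) (.use 1628) .no (.use 1588) (.use 1590) .no) (.use 1526) (.red [.t 1080 2 4, .t
  1216 2 4, .f 1081 1 5, .t 961 4 1] 136 136 [] [(135, 119, [1]), (136, 136, []), (152, 136,
  [1])])

def c27t1630 : Tr4 :=
  .br 944 (.red [.f 944 1 3, .f 1072 3 5, .t 1216 2 4, .f 1081 1 5, .t 961 4 1] 136 136 [] [(135,
  119, [1]), (136, 136, []), (152, 136, [1])]) (.use 1615) .no (.hor [.f 936 3 5] []) .no .no

def c27t1631 : Tr4 :=
  .br 698 .no (.use 236) .no (.use 1494) .no (.use 1480)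

def c27t1632 : Tr4 :=
  .br 819 .no (.red [.f 691 1 3] 103 136 [2, 2, 4] [(103, 136, [2, 2, 4])]) .no (.use 1567) .no
  (.red [.t 960 2 4, .t 824 3 1, .t 954 2 4] 119 136 [2, 4] [(119, 136, [2, 4])])

def c27t1633 : Tr4 :=
  .br 1074 (.red [.f 1074 1 3, .f 1073 3 5] 151 136 [4, 1] [(151, 136, [4, 1])]) (.red [.t 953 3
  2, .t 1073 3 2, .f 946 3 5, .t 834 4 1, .f 955 3 1] 136 136 [] [(135, 119, [1]), (136, 136,
  [])]) .no (.use 1588) (.use 1590) .no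

def c27t1634 : Tr4 :=
  .br 1082 (.br 945 .no (.use 1627) .no (.use 1633) (.hor [.t 953 3 2, .f 832 1 5, .f 945 5 3, .f
  946 3 5, .t 834 4 1] []) (.red [.t 1080 2 4, .t 1216 2 4, .f 1081 1 5, .t 961 4 1] 136 136 []
  [(135, 119, [1]), (136, 136, []), (152, 136, [1])])) .no .no (.hor [.f 1073 3 5] []) .no .no

def c27t1635 : Tr4 :=
  .br 834 .no (.use 1626) (.br 833 .no (.br 1082 (.br 824 .no (.use 1629) .no (.use 533) (.br 945
  .no (.use 1627) .no (.use 1630) (.br 970 (.use 229) .no (.br 817 .no (.use 1497) .no (.use 1509)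
  (.red [.f 817 5 1, .f 818 1 3] 119 136 [2, 4] [(119, 136, [2, 4])]) (.red [.f 816 5 3, .t 825 4
  1] 119 136 [2, 4] [(119, 136, [2, 4])])) .no (.br 817 .no (.br 706 .no (.use 216) (.red [.f 706
  3 1, .f 705 1 5] 105 136 [2, 2, 3] [(105, 136, [2, 2, 3])]) (.use 1496) (.use 1580) .no) .no
  (.use 1581) (.red [.f 817 5 1, .f 818 1 3] 119 136 [2, 4] [(119, 136, [2, 4])]) (.red [.f 816 5
  3, .t 825 4 1] 119 136 [2, 4] [(119, 136, [2, 4])])) (.br 1072 (.br 817 .no (.br 706 .no (.use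
  216) (.red [.f 706 3 1, .f 705 1 5] 105 136 [2, 2, 3] [(105, 136, [2, 2, 3])]) (.use 1496) (.br
  696 .no (.use 1504) (.br 944 .no (.use 1631) .no (.use 1620) .no .no) (.red [.t 688 3 1] 103 136
  [2, 2, 4] [(103, 136, [2, 2, 4])]) (.red [.f 696 5 1, .f 689 1 3] 103 136 [2, 2, 4] [(103, 136,
  [2, 2, 4])]) .no) .no) .no (.use 1632) (.red [.f 817 5 1, .f 818 1 3] 119 136 [2, 4] [(119, 136,
  [2, 4])]) (.red [.f 816 5 3, .t 825 4 1] 119 136 [2, 4] [(119, 136, [2, 4])])) (.red [.f 944 1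
  3, .f 1072 3 5, .t 1216 2 4, .f 1081 1 5, .t 961 4 1] 136 136 [] [(135, 119, [1]), (136, 136,
  []), (152, 136, [1])]) .no (.br 817 .no (.br 706 .no (.use 216) (.red [.f 706 3 1, .f 705 1 5]
  105 136 [2, 2, 3] [(105, 136, [2, 2, 3])]) (.use 1496) (.br 696 .no (.use 1504) (.br 944 .no
  (.use 1631) .no (.use 1620) .no .no) (.red [.t 688 3 1] 103 136 [2, 2, 4] [(103, 136, [2, 2,
  4])]) (.red [.f 696 5 1, .f 689 1 3] 103 136 [2, 2, 4] [(103, 136, [2, 2, 4])]) .no) .no) .no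
  (.use 1632) (.red [.f 817 5 1, .f 818 1 3] 119 136 [2, 4] [(119, 136, [2, 4])]) (.red [.f 816 5
  3, .t 825 4 1] 119 136 [2, 4] [(119, 136, [2, 4])])) .no .no)) (.red [.t 1080 2 4, .t 1216 2 4,
  .f 1081 1 5, .t 961 4 1] 136 136 [] [(135, 119, [1]), (136, 136, []), (152, 136, [1])])) .no)
  .no .no (.hor [.f 1073 3 5] []) .no .no) (.hor [.f 833 3 5] []) (.use 1625) .no .no) .no .no
  (.use 1634)

def c27t1636 : Tr4 :=
  .br 1209 (.br 1208 (.hor [.f 1208 1 5] []) .no .no .no .no .no) .no .no (.red [.f 1073 3 1, .f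
  1072 1 5] 151 136 [4, 1] [(151, 136, [4, 1])]) .no (.red [.t 1072 1 3, .f 1081 1 5] 151 136 [4,
  1] [(151, 136, [4, 1])])

def c27t1637 : Tr4 :=
  .br 825 .no (.use 5) .no (.dom 119 136 [2, 4]) .no (.use 1611)

def c27t1638 : Tr4 :=
  .br 945 .no (.hor [.f 816 1 5] []) .no (.br 938 (.red [.f 938 1 3, .f 937 3 5] 134 136 [4, 4]
  [(134, 136, [4, 4])]) (.use 1637) .no (.use 1602) (.use 1603) .no) .no .no

def c27t1639 : Tr4 :=
  .br 1208 (.hor [.f 1208 1 5] []) .no .no (.con 136 [4, 1, 1]) .no .no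

def c27t1640 : Tr4 :=
  .br 938 (.hor [.f 937 1 5] []) (.con 136 [4, 4, 4]) .no (.con 136 [4, 4, 4]) (.con 136 [4, 4,
  4]) .no

def c27t1641 : Tr4 :=
  .br 1065 .no .no .no (.hor [.f 1057 3 5] []) .no .no

def c27t1642 : Tr4 :=
  .br 936 .no .no .no (.br 937 (.use 1640) (.red [.t 808 3 1] 118 136 [2, 4, 4] [(118, 136, [2, 4,
  4])]) .no (.hor [.f 928 3 5] []) (.br 1066 (.con 136 [4, 4, 1, 1]) .no .no (.use 1641) (.con 136
  [4, 4, 1]) (.red [.f 937 5 1, .f 938 1 3] 134 136 [4, 4] [(134, 136, [4, 4])])) .no) (.red [.f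
  936 5 3, .f 808 3 1] 118 136 [2, 4, 4] [(118, 136, [2, 4, 4])]) .no

def c27t1643 : Tr4 :=
  .br 1201 (.red [.f 1201 1 3, .f 1200 3 5] 167 136 [4, 1, 1] [(167, 136, [4, 1, 1])]) .no .no
  (.br 816 .no (.hor [.f 688 1 5] []) .no (.use 1642) .no .no) (.red [.t 1081 4 1] 151 136 [4, 1]
  [(151, 136, [4, 1])]) .no

def c27l59 : List Tr4 :=
  [c27t1603, c27t1604, c27t1605, c27t1606, c27t1607, c27t1608, c27t1609, c27t1610, c27t1611,
  c27t1612, c27t1613, c27t1614, c27t1615, c27t1616, c27t1617, c27t1618, c27t1619, c27t1620,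
  c27t1621, c27t1622, c27t1623, c27t1624, c27t1625, c27t1626, c27t1627, c27t1628, c27t1629,
  c27t1630, c27t1631, c27t1632, c27t1633, c27t1634, c27t1635, c27t1636, c27t1637, c27t1638,
  c27t1639, c27t1640, c27t1641, c27t1642, c27t1643]

theorem c27k59 : chkLF ⟨4, 1, 0, true, -8⟩ false 7 c27N 1603 c27l59 = true := by decide +kernel

def c27t1644 : Tr4 :=
  .br 1201 (.hor [.f 1200 1 5] []) .no .no (.br 936 .no .no .no (.br 937 (.use 1640) (.red [.t 808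
  3 1] 118 136 [2, 4, 4] [(118, 136, [2, 4, 4])]) .no (.hor [.f 928 3 5] []) (.br 1066 (.con 136
  [4, 4, 1, 1]) .no .no (.use 1641) (.con 136 [4, 4, 1]) (.red [.f 937 5 1, .f 938 1 3] 134 136
  [4, 4] [(134, 136, [4, 4])])) .no) (.red [.f 936 5 3, .f 808 3 1] 118 136 [2, 4, 4] [(118, 136,
  [2, 4, 4])]) .no) (.red [.t 1081 4 1] 151 136 [4, 1] [(151, 136, [4, 1])]) .no

def c27t1645 : Tr4 :=
  .br 816 .no (.hor [.f 688 1 5] []) .no (.br 1200 (.use 1644) .no .no (.red [.f 1064 3 1, .t 1072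
  1 3, .f 1081 1 5] 151 136 [4, 1] [(150, 136, [4, 4, 1]), (151, 136, [4, 1])]) (.red [.f 1200 5
  3, .f 1073 3 1] 151 136 [4, 1] [(151, 136, [4, 1])]) .no) .no .no

def c27t1646 : Tr4 :=
  .br 819 .no (.red [.f 691 1 3] 103 136 [2, 2, 4] [(103, 136, [2, 2, 4])]) .no (.con 136 [2, 2,
  4, 4]) .no (.con 136 [2, 2, 4, 4])

def c27t1647 : Tr4 :=
  .br 1201 (.red [.f 1201 1 3, .f 1200 3 5] 167 136 [4, 1, 1] [(167, 136, [4, 1, 1])]) .no .no
  (.br 816 .no (.use 1646) .no (.use 1642) .no .no) (.red [.t 1081 4 1] 151 136 [4, 1] [(151, 136,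
  [4, 1])]) .no

def c27t1648 : Tr4 :=
  .br 1200 (.br 816 .no (.use 1646) .no (.use 1644) .no .no) .no .no (.red [.f 1064 3 1, .t 1072 1
  3, .f 1081 1 5] 151 136 [4, 1] [(150, 136, [4, 4, 1]), (151, 136, [4, 1])]) (.red [.f 1200 5 3,
  .f 1073 3 1] 151 136 [4, 1] [(151, 136, [4, 1])]) .no

def c27t1649 : Tr4 :=
  .br 817 .no (.br 1209 (.br 1208 (.hor [.f 1208 1 5] []) .no .no (.use 1643) .no .no) .no .no
  (.red [.t 1080 2 4, .t 944 3 1, .f 1073 3 1] 151 136 [4, 1] [(151, 136, [4, 1])]) .no (.use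
  1645)) .no (.br 1209 (.br 1208 (.hor [.f 1208 1 5] []) .no .no (.use 1647) .no .no) .no .no
  (.red [.t 1080 2 4, .t 944 3 1, .f 1073 3 1] 151 136 [4, 1] [(151, 136, [4, 1])]) .no (.use
  1648)) (.red [.t 1080 2 4, .f 945 1 5, .f 817 5 1, .f 818 1 3] 119 136 [2, 4] [(119, 136, [2,
  4]), (135, 119, [1])]) (.red [.t 1080 2 4, .f 816 5 3, .f 945 1 5, .t 825 4 1] 119 136 [2, 4]
  [(119, 136, [2, 4]), (135, 119, [1])])

def c27t1650 : Tr4 :=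
  .br 825 .no (.use 5) .no (.br 945 .no .no .no (.use 1628) .no (.red [.t 1080 2 4, .f 945 1 5, .t
  825 4 1] 119 136 [2, 4] [(119, 136, [2, 4]), (135, 119, [1])])) .no .no

def c27t1651 : Tr4 :=
  .br 944 .no (.hor [.f 816 1 5] []) .no (.con 136 [2, 4, 4]) .no .no

def c27t1652 : Tr4 :=
  .br 938 (.red [.f 938 1 3, .f 937 3 5] 134 136 [4, 4] [(134, 136, [4, 4])]) (.br 944 .no (.use
  1611) .no (.hor [.f 936 3 5] []) .no .no) .no (.use 1602) (.use 1603) .no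

def c27t1653 : Tr4 :=
  .br 1203 (.red [.f 1203 1 3] 167 136 [4, 1, 1] [(167, 136, [4, 1, 1])]) .no .no (.br 1200 (.br
  1201 (.hor [.f 1200 1 5] []) .no .no (.con 136 [4, 4, 1, 1]) (.con 136 [4, 4, 1, 1]) .no) .no
  .no (.red [.f 1064 3 1, .t 1072 1 3, .f 1081 1 5] 151 136 [4, 1] [(150, 136, [4, 4, 1]), (151,
  136, [4, 1])]) (.red [.f 1200 5 3, .f 1073 3 1] 151 136 [4, 1] [(151, 136, [4, 1])]) .no) .no
  (.red [.f 1074 5 1, .f 1074 1 3] 151 136 [4, 1] [(151, 136, [4, 1])])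

def c27t1654 : Tr4 :=
  .br 1072 (.use 1636) (.br 1203 (.red [.f 1203 1 3, .t 1210 2 4, .f 1073 3 5] 151 136 [4, 1]
  [(151, 136, [4, 1]), (167, 136, [4, 1, 1])]) .no .no (.br 1209 (.use 1639) .no .no (.red [.f
  1073 3 1, .f 1081 1 5] 151 136 [4, 1] [(151, 136, [4, 1])]) .no (.use 1592)) .no (.red [.f 1074
  5 1, .f 1074 1 3] 151 136 [4, 1] [(151, 136, [4, 1])])) .no (.br 1209 (.use 1639) .no .no (.red
  [.f 1073 3 1, .f 1081 1 5] 151 136 [4, 1] [(151, 136, [4, 1])]) .no (.use 1653)) .no .no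

def c27t1655 : Tr4 :=
  .br 1082 (.br 1074 (.red [.f 1074 1 3, .f 1073 3 5] 151 136 [4, 1] [(151, 136, [4, 1])]) (.br
  834 .no (.br 833 .no (.hor [.f 705 1 5] []) (.br 1072 (.use 1636) (.con 136 [4, 4]) .no (.br 944
  .no (.use 1638) .no (.use 1621) (.br 825 .no (.use 5) .no (.red [.t 1080 2 4, .f 945 1 5, .t 825
  4 1] 119 136 [2, 4] [(119, 136, [2, 4]), (135, 119, [1])]) .no (.use 1649)) .no) .no .no) (.red
  [.f 825 3 1, .f 825 1 5, .t 1073 3 2, .f 946 3 5, .t 1090 2 4, .t 961 2 4] 136 136 [] [(135,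
  119, [1]), (136, 136, [])]) .no .no) (.br 833 .no (.br 1072 (.use 1636) (.con 136 [4, 4]) .no
  (.br 824 .no (.use 1650) .no (.use 533) (.br 945 .no (.use 1651) .no (.use 1652) .no (.use
  1649)) .no) .no .no) (.hor [.f 833 3 5] []) (.red [.f 825 3 1, .f 825 1 5, .t 1073 3 2, .f 946 3
  5, .t 1090 2 4, .t 961 2 4] 136 136 [] [(135, 119, [1]), (136, 136, [])]) .no .no) .no .no (.red
  [.t 953 3 2, .t 1073 3 2, .f 946 3 5, .t 834 4 1, .f 955 3 1] 136 136 [] [(135, 119, [1]), (136,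
  136, [])])) .no (.br 1072 (.use 1636) (.use 1589) .no (.use 1586) .no .no) (.br 1211 (.use 1654)
  .no (.red [.f 1083 3 1, .f 1082 1 5, .f 1074 5 3, .f 1073 3 5, .t 961 4 1] 136 136 [] [(136,
  136, []), (152, 136, [1])]) (.red [.t 1210 2 4, .f 1073 3 5] 151 136 [4, 1] [(151, 136, [4,
  1])]) .no .no) .no) .no .no (.hor [.f 1073 3 5] []) .no .no

def c27t1656 : Tr4 :=
  .br 1218 (.hor [.f 1217 1 5] []) .no (.use 1597) .no (.use 1594) .no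

def c27t1657 : Tr4 :=
  .br 1225 (.hor [.f 1224 1 5] []) .no (.use 1261) .no (.use 1263) .no

def c27t1658 : Tr4 :=
  .br 690 (.hor [.f 689 1 5] []) (.br 819 .no (.con 136 [2, 4, 4, 2, 3]) .no (.con 136 [2, 4, 4,
  2, 3]) .no (.red [.t 954 2 4, .t 817 2 3] 103 136 [2, 4, 2] [(103, 136, [2, 4, 2]), (119, 136,
  [2, 4])])) .no (.br 819 .no (.con 136 [2, 4, 4, 2, 3]) .no (.con 136 [2, 4, 4, 2, 3]) .no (.red
  [.t 954 2 4, .t 817 2 3] 103 136 [2, 4, 2] [(103, 136, [2, 4, 2]), (119, 136, [2, 4])])) (.br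
  819 .no .no .no (.con 136 [2, 4, 4, 2, 3]) .no (.red [.t 954 2 4, .t 817 2 3] 103 136 [2, 4, 2]
  [(103, 136, [2, 4, 2]), (119, 136, [2, 4])])) .no

def c27t1659 : Tr4 :=
  .br 819 .no (.red [.f 691 1 3] 103 136 [2, 2, 4] [(103, 136, [2, 2, 4])]) .no (.con 136 [2, 4,
  4, 2]) .no (.red [.t 954 2 4] 119 136 [2, 4] [(119, 136, [2, 4])])

def c27t1660 : Tr4 :=
  .br 819 .no (.red [.f 691 1 3] 103 136 [2, 4, 2] [(103, 136, [2, 4, 2])]) .no (.con 136 [2, 4,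
  4, 2]) .no (.red [.t 954 2 4] 119 136 [2, 4] [(119, 136, [2, 4])])

def c27t1661 : Tr4 :=
  .br 819 .no (.red [.f 691 1 3] 103 136 [2, 4, 2] [(103, 136, [2, 4, 2])]) .no (.red [.t 937 3 2,
  .f 810 3 5, .t 954 2 4] 119 136 [2, 4] [(118, 117, [3]), (119, 136, [2, 4])]) .no .no

def c27t1662 : Tr4 :=
  .br 819 .no (.con 136 [2, 4, 4, 2, 3]) .no (.con 136 [2, 4, 4, 2, 3]) .no (.red [.t 698 4 1, .f
  689 1 5] 103 136 [2, 4, 2] [(103, 136, [2, 4, 2])])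

def c27t1663 : Tr4 :=
  .br 1218 (.br 938 (.red [.f 938 1 3, .f 937 3 5] 134 136 [4, 4] [(134, 136, [4, 4])]) (.br 833
  .no (.hor [.f 705 1 5] []) (.br 832 .no (.br 824 .no (.br 705 .no (.br 697 (.use 1486) (.hor [.f
  569 1 3, .f 696 1 3, .f 696 3 5] [(88, 136, [2, 2, 2]), (104, 136, [2, 2])]) .no (.br 817 .no
  .no (.dom 119 136 [2, 4]) (.con 136 [2, 4, 2, 3, 1, 4]) (.con 136 [2, 4, 2, 3, 1, 4]) .no) (.br
  817 .no (.con 136 [2, 4, 2, 3, 1, 4]) (.dom 119 136 [2, 4]) (.con 136 [2, 4, 2, 3, 1, 4]) (.con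
  136 [2, 4, 2, 3, 1, 4]) .no) .no) (.hor [.f 705 3 1, .f 704 1 5] [(105, 104, [3])]) (.hor [.f
  696 1 3, .f 696 3 5] [(104, 136, [2, 2])]) .no .no) .no .no (.br 817 .no (.br 705 .no (.br 696
  .no (.br 697 .no (.hor [.f 568 1 5] []) .no .no (.use 1658) .no) .no (.red [.t 688 3 1, .f 696 1
  3] 103 136 [2, 2, 4] [(103, 136, [2, 2, 4]), (104, 136, [2, 2])]) (.red [.f 696 5 1, .f 689 1 3]
  103 136 [2, 2, 4] [(103, 136, [2, 2, 4])]) .no) (.hor [.f 705 3 1, .f 704 1 5] [(105, 104,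
  [3])]) (.red [.t 704 1 4, .f 689 1 3] 103 136 [2, 2, 4] [(103, 136, [2, 2, 4]), (104, 136, [2,
  2])]) .no .no) .no (.use 1659) (.use 1600) .no) .no) (.hor [.f 832 3 5] []) (.br 817 .no (.use
  1314) (.dom 119 136 [2, 4]) (.use 1660) (.use 1661) .no) .no .no) (.use 1624) .no (.br 824 .no
  (.use 645) .no .no (.br 817 .no (.br 697 .no (.br 696 .no (.hor [.f 568 1 5] []) (.br 705 .no
  (.red [.f 569 1 3] 88 136 [2, 2, 2] [(88, 136, [2, 2, 2])]) (.br 698 .no (.use 889) .no (.use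
  1662) .no .no) .no .no .no) (.red [.t 688 3 1] 103 136 [2, 2, 4] [(103, 136, [2, 2, 4])]) .no
  .no) (.red [.f 824 5 3, .f 697 3 1, .f 689 1 3] 103 136 [2, 2, 4] [(103, 136, [2, 2, 4]), (104,
  136, [2, 2])]) .no (.use 1658) (.red [.f 696 5 1, .f 689 1 3] 103 136 [2, 2, 4] [(103, 136, [2,
  2, 4])])) .no (.use 1659) (.use 1600) .no) .no)) .no (.use 1613) (.use 1610) .no) .no (.hor [.f
  1218 3 5] []) .no .no .no

def c27t1664 : Tr4 :=
  .br 698 .no (.hor [.f 569 1 5] []) (.use 1566) (.use 1662) .no .no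

def c27t1665 : Tr4 :=
  .br 1202 (.hor [.f 1201 1 5] []) .no .no (.red [.f 1066 3 1, .f 1074 1 5] 150 136 [4, 4, 1]
  [(150, 136, [4, 4, 1])]) .no .no

def c27t1666 : Tr4 :=
  .br 1075 (.use 1665) .no .no (.hor [.f 1066 3 5] []) .no .no

def c27t1667 : Tr4 :=
  .br 1202 (.con 136 [4, 1, 1, 4]) .no .no (.red [.f 1066 3 1, .f 1074 1 5] 150 136 [4, 4, 1]
  [(150, 136, [4, 4, 1])]) .no .no

def c27t1668 : Tr4 :=
  .br 1075 (.use 1667) .no .no (.hor [.f 1066 3 5] []) .no .no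

def c27t1669 : Tr4 :=
  .br 1201 (.use 1666) .no .no (.use 1668) (.red [.t 1081 4 1, .f 1072 1 5] 151 136 [4, 1] [(151,
  136, [4, 1])]) .no

def c27t1670 : Tr4 :=
  .br 696 .no (.br 697 .no (.use 1528) (.red [.t 704 1 4, .f 689 1 3] 103 136 [2, 2, 4] [(103,
  136, [2, 2, 4]), (104, 136, [2, 2])]) .no (.br 816 (.use 1480) (.hor [.f 688 1 5] []) .no (.use
  1478) .no .no) .no) .no (.red [.t 688 3 1, .f 696 1 3] 103 136 [2, 2, 4] [(103, 136, [2, 2, 4]),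
  (104, 136, [2, 2])]) (.red [.f 696 5 1, .f 689 1 3] 103 136 [2, 2, 4] [(103, 136, [2, 2, 4])])
  .no

def c27t1671 : Tr4 :=
  .br 816 (.use 1480) (.hor [.f 688 1 5] []) .no (.br 944 .no .no .no (.use 1620) .no .no) .no .no

def c27t1672 : Tr4 :=
  .br 819 .no (.red [.f 691 1 3] 103 136 [2, 2, 4] [(103, 136, [2, 2, 4])]) .no (.use 1567) .no
  (.red [.t 954 2 4] 119 136 [2, 4] [(119, 136, [2, 4])])

def c27t1673 : Tr4 :=
  .br 697 .no (.use 1528) .no .no (.use 1480) (.red [.f 696 5 1, .f 689 1 3] 103 136 [2, 2, 4]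
  [(103, 136, [2, 2, 4])])

def c27t1674 : Tr4 :=
  .br 825 .no (.br 824 .no (.hor [.f 696 1 5] []) (.br 817 .no (.red [.f 689 1 3] 103 136 [2, 2,
  4] [(103, 136, [2, 2, 4])]) .no (.br 834 .no (.use 1489) (.br 833 .no (.use 1532) (.hor [.f 833
  3 5] []) .no .no .no) .no .no (.br 698 .no (.br 816 (.br 696 .no (.br 819 .no (.red [.f 691 1 3]
  103 136 [2, 2, 4] [(103, 136, [2, 2, 4])]) .no (.br 690 (.con 136 [2, 2, 4, 4]) (.red [.f 562 1
  3] 87 136 [2, 2, 2, 4] [(87, 136, [2, 2, 2, 4])]) .no (.br 689 .no (.br 688 .no (.hor [.f 560 1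
  5] []) .no (.con 136 [2, 2, 2, 4, 4]) .no .no) .no (.hor [.f 681 3 5] []) .no (.br 691 .no (.con
  136 [2, 2, 2, 4, 4]) .no (.hor [.f 682 3 5] []) .no .no)) (.use 1483) (.use 1488)) .no (.red [.t
  953 3 2, .t 833 1 4, .t 954 2 4] 119 136 [2, 4] [(119, 136, [2, 4])])) (.hor [.f 696 3 1, .f 696
  1 5] [(104, 103, [3])]) (.br 819 .no (.red [.f 691 1 3] 103 136 [2, 2, 4] [(103, 136, [2, 2,
  4])]) .no (.br 689 .no (.br 690 (.con 136 [2, 2, 4, 4]) (.hor [.f 561 1 5] []) .no (.br 691 .no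
  (.con 136 [2, 2, 2, 4, 4]) .no (.hor [.f 682 3 5] []) .no .no) (.use 1483) .no) .no (.red [.f
  681 3 1, .f 689 1 3] 103 136 [2, 2, 4] [(102, 136, [2, 2, 4, 4]), (103, 136, [2, 2, 4])]) (.use
  1488) .no) .no (.red [.t 953 3 2, .t 833 1 4, .t 954 2 4] 119 136 [2, 4] [(119, 136, [2, 4])]))
  .no .no) (.br 819 .no (.red [.f 691 1 3] 103 136 [2, 2, 4] [(103, 136, [2, 2, 4])]) .no (.con
  136 [2, 2, 4, 4]) .no (.con 136 [2, 2, 4, 4])) .no (.hor [.f 808 3 5] []) .no .no) (.hor [.t 697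
  1 3, .f 824 3 5] [(104, 103, [3])]) (.use 1545) .no .no)) (.red [.f 817 5 1, .f 818 1 3] 119 136
  [2, 4] [(119, 136, [2, 4])]) (.use 1492)) (.con 136 [2, 2, 4]) .no .no) (.use 1623) (.red [.t
  825 4 1] 119 136 [2, 4] [(119, 136, [2, 4])]) .no (.br 1072 (.br 817 .no (.br 832 .no (.use
  1670) (.br 833 .no (.br 697 .no (.use 1528) .no .no (.use 1671) (.red [.f 696 5 1, .f 689 1 3]
  103 136 [2, 2, 4] [(103, 136, [2, 2, 4])])) (.hor [.f 832 3 5] []) .no (.br 944 .no (.red [.t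
  953 3 2, .f 945 5 3, .t 944 2 3, .f 825 1 3] 119 136 [2, 4] [(119, 136, [2, 4])]) .no (.use
  1620) .no .no) .no) .no (.br 697 .no (.use 1528) (.red [.f 824 5 3, .f 697 3 1, .f 689 1 3] 103
  136 [2, 2, 4] [(103, 136, [2, 2, 4]), (104, 136, [2, 2])]) .no (.use 1671) (.red [.f 696 5 1, .f
  689 1 3] 103 136 [2, 2, 4] [(103, 136, [2, 2, 4])])) .no) .no (.use 1672) (.red [.f 817 5 1, .f
  818 1 3] 119 136 [2, 4] [(119, 136, [2, 4])]) (.red [.f 816 5 3, .t 825 4 1] 119 136 [2, 4]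
  [(119, 136, [2, 4])])) (.red [.f 944 1 3, .f 1072 3 5, .t 1216 2 4, .f 1081 1 5, .t 961 4 1] 136
  136 [] [(135, 119, [1]), (136, 136, []), (152, 136, [1])]) .no (.br 817 .no (.br 832 .no (.use
  1670) (.br 833 .no (.br 944 .no (.use 1673) .no (.use 1620) .no .no) (.hor [.f 832 3 5] []) .no
  (.br 944 .no (.red [.t 953 3 2, .f 945 5 3, .t 944 2 3, .f 825 1 3] 119 136 [2, 4] [(119, 136,
  [2, 4])]) .no (.use 1620) .no .no) .no) .no (.br 697 .no (.use 1528) (.red [.f 824 5 3, .f 697 3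
  1, .f 689 1 3] 103 136 [2, 2, 4] [(103, 136, [2, 2, 4]), (104, 136, [2, 2])]) .no (.br 944 .no
  (.use 1480) .no (.use 1620) .no .no) (.red [.f 696 5 1, .f 689 1 3] 103 136 [2, 2, 4] [(103,
  136, [2, 2, 4])])) .no) .no (.use 1672) (.red [.f 817 5 1, .f 818 1 3] 119 136 [2, 4] [(119,
  136, [2, 4])]) (.red [.f 816 5 3, .t 825 4 1] 119 136 [2, 4] [(119, 136, [2, 4])])) .no .no)

def c27l60 : List Tr4 :=
  [c27t1644, c27t1645, c27t1646, c27t1647, c27t1648, c27t1649, c27t1650, c27t1651, c27t1652,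
  c27t1653, c27t1654, c27t1655, c27t1656, c27t1657, c27t1658, c27t1659, c27t1660, c27t1661,
  c27t1662, c27t1663, c27t1664, c27t1665, c27t1666, c27t1667, c27t1668, c27t1669, c27t1670,
  c27t1671, c27t1672, c27t1673, c27t1674]

theorem c27k60 : chkLF ⟨4, 1, 0, true, -8⟩ false 7 c27N 1644 c27l60 = true := by decide +kernel

def c27t1675 : Tr4 :=
  .br 1217 (.use 1656) .no (.red [.f 1089 3 1, .f 1088 1 5] 153 136 [3, 1] [(153, 136, [3, 1])])
  (.br 945 .no (.use 1627) .no (.br 1074 (.red [.f 1074 1 3, .f 1073 3 5] 151 136 [4, 1] [(151,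
  136, [4, 1])]) (.br 1219 (.use 1599) .no (.br 944 (.con 136 [4, 4]) (.br 834 .no (.use 1663)
  (.br 833 .no (.br 1218 (.br 938 (.red [.f 938 1 3, .f 937 3 5] 134 136 [4, 4] [(134, 136, [4,
  4])]) (.br 817 .no (.br 825 .no (.red [.f 689 1 3] 103 136 [2, 4, 2] [(103, 136, [2, 4, 2])])
  .no .no .no (.br 697 .no (.use 1664) .no .no (.use 1658) (.red [.f 696 5 1, .f 689 1 3] 103 136
  [2, 2, 4] [(103, 136, [2, 2, 4])]))) (.dom 119 136 [2, 4]) (.use 1660) (.use 1661) .no) .no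
  (.use 1613) (.use 1610) .no) .no (.hor [.f 1218 3 5] []) .no .no .no) (.hor [.f 833 3 5] [])
  (.use 1624) .no (.br 824 .no (.use 645) .no .no (.br 1218 (.br 938 (.red [.f 938 1 3, .f 937 3
  5] 134 136 [4, 4] [(134, 136, [4, 4])]) (.br 817 .no (.br 697 .no (.use 1664) (.red [.f 824 5 3,
  .f 697 3 1, .f 689 1 3] 103 136 [2, 2, 4] [(103, 136, [2, 2, 4]), (104, 136, [2, 2])]) .no (.use
  1658) (.red [.f 696 5 1, .f 689 1 3] 103 136 [2, 2, 4] [(103, 136, [2, 2, 4])])) .no (.use 1659)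
  (.use 1600) .no) .no (.use 1613) (.use 1610) .no) .no (.hor [.f 1218 3 5] []) .no .no .no) .no))
  .no .no (.use 1633)) .no (.hor [.f 936 3 5] []) .no .no) (.con 136 [1, 1]) .no (.red [.t 1082 1
  3, .t 946 1 3, .f 1073 3 5, .t 961 4 1] 136 136 [] [(135, 119, [1]), (136, 136, []), (152, 136,
  [1])])) .no (.use 1588) (.use 1590) .no) (.br 1074 (.red [.f 1074 1 3, .f 1073 3 5] 151 136 [4,
  1] [(151, 136, [4, 1])]) .no .no (.br 1072 (.use 1669) (.use 1589) .no (.use 1586) .no .no)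
  (.use 1674) .no) (.red [.t 1080 2 4, .t 1216 2 4, .f 1081 1 5, .t 961 4 1] 136 136 [] [(135,
  119, [1]), (136, 136, []), (152, 136, [1])])) (.br 1225 (.hor [.f 1224 1 5] []) .no (.br 1098
  (.red [.t 1097 4 1, .f 1088 1 5] 153 136 [3, 1] [(153, 136, [3, 1])]) (.br 971 (.hor [.f 970 1
  5] []) (.use 1457) (.use 1282) .no .no .no) (.br 1226 (.con 136 [3, 1, 3, 1]) .no (.red [.f 1098
  3 1] 154 136 [3, 1, 3] [(154, 136, [3, 1, 3])]) .no (.con 136 [3, 1, 3, 1]) .no) .no (.use 226)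
  .no) .no (.red [.f 1217 5 3, .f 1089 3 1] 153 136 [3, 1] [(153, 136, [3, 1])]) .no) .no

def c27t1676 : Tr4 :=
  .br 960 .no (.br 1096 (.red [.f 1088 1 3, .f 1088 3 5] 153 136 [3, 1] [(153, 136, [3, 1])]) (.br
  1217 (.br 1225 (.red [.f 1217 1 3, .f 1089 3 1] 153 136 [3, 1] [(153, 136, [3, 1]), (169, 136,
  [3, 1, 1])]) .no (.br 1098 (.use 1596) (.use 229) (.br 1218 (.hor [.f 1217 1 5] []) .no (.use
  1597) (.use 1585) (.use 219) .no) .no (.use 227) .no) .no (.use 1598) (.red [.t 1088 1 3, .t 952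
  1 3, .f 961 1 5] 153 136 [3, 1] [(136, 136, []), (153, 136, [3, 1])])) .no (.red [.f 1089 3 1,
  .f 1088 1 5] 153 136 [3, 1] [(153, 136, [3, 1])]) (.use 1635) (.use 1655) .no) (.br 1217 (.br
  1082 (.use 1656) .no .no (.hor [.f 1073 3 5] []) .no .no) .no (.red [.f 1089 3 1, .f 1088 1 5]
  153 136 [3, 1] [(153, 136, [3, 1])]) (.br 834 .no (.use 1626) (.br 833 .no (.br 1082 (.br 824
  .no (.use 1629) .no (.use 533) (.br 945 .no (.use 1627) .no (.use 1630) (.br 817 .no (.br 944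
  (.red [.f 944 1 3, .f 1072 3 5, .t 1216 2 4, .f 1081 1 5, .t 961 4 1] 136 136 [] [(135, 119,
  [1]), (136, 136, []), (152, 136, [1])]) (.br 706 .no (.use 216) (.red [.f 706 3 1, .f 705 1 5]
  105 136 [2, 2, 3] [(105, 136, [2, 2, 3])]) (.use 1496) (.br 696 .no (.use 1517) (.use 1631)
  (.red [.t 688 3 1] 103 136 [2, 2, 4] [(103, 136, [2, 2, 4])]) (.red [.f 696 5 1, .f 689 1 3] 103
  136 [2, 2, 4] [(103, 136, [2, 2, 4])]) .no) .no) .no (.use 1620) .no .no) .no (.use 1632) (.red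
  [.f 817 5 1, .f 818 1 3] 119 136 [2, 4] [(119, 136, [2, 4])]) (.red [.f 816 5 3, .t 825 4 1] 119
  136 [2, 4] [(119, 136, [2, 4])])) (.red [.t 1080 2 4, .t 1216 2 4, .f 1081 1 5, .t 961 4 1] 136
  136 [] [(135, 119, [1]), (136, 136, []), (152, 136, [1])])) .no) .no .no (.hor [.f 1073 3 5] [])
  .no .no) (.hor [.f 833 3 5] []) (.use 1625) .no .no) .no .no (.use 1634)) (.use 1655) .no) .no
  .no .no) (.br 1096 (.red [.f 1088 1 3, .f 960 3 1] 153 136 [3, 1] [(137, 136, [3]), (153, 136,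
  [3, 1])]) .no (.br 1082 (.br 1224 (.use 1675) .no (.red [.f 1096 3 1, .f 1088 1 3, .f 960 3 1]
  153 136 [3, 1] [(137, 136, [3]), (153, 136, [3, 1]), (154, 136, [3, 1, 3])]) .no (.red [.t 1088
  1 3, .t 952 1 3, .f 961 1 5] 153 136 [3, 1] [(136, 136, []), (153, 136, [3, 1])]) .no) .no .no
  (.hor [.f 1073 3 5] []) .no .no) .no .no .no) .no .no .no

def c27t1677 : Tr4 :=
  .br 1218 (.hor [.f 1217 1 5] []) .no .no .no (.red [.t 1082 1 3, .t 946 3 1, .f 954 1 3, .f 1082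
  3 1] 136 136 [] [(135, 136, [4]), (136, 136, [])]) .no

def c27t1678 : Tr4 :=
  .br 1075 (.con 136 [4, 4, 1]) .no .no (.hor [.f 1066 3 5] []) .no .no

def c27t1679 : Tr4 :=
  .br 1075 (.con 136 [4, 4, 1]) .no .no (.hor [.f 1066 3 5] []) .no .no

def c27t1680 : Tr4 :=
  .br 946 .no (.con 136 [4, 2, 3, 1]) (.hor [.f 946 3 5] []) (.con 136 [4, 2, 3, 1]) .no (.con 136
  [4, 2, 3, 1])

def c27t1681 : Tr4 :=
  .br 954 .no (.hor [.f 826 1 5] []) .no (.br 947 (.use 1677) (.hor [.f 819 1 3, .f 946 3 5]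
  [(119, 136, [2, 4])]) .no (.use 1678) .no .no) .no .no

def c27t1682 : Tr4 :=
  .br 955 .no (.use 1681) .no (.use 1589) .no (.red [.t 1090 2 4, .f 953 3 5] 136 136 [] [(136,
  136, [])])

def c27t1683 : Tr4 :=
  .br 827 (.hor [.f 826 1 5] []) (.red [.t 953 3 2, .f 699 1 3, .f 826 3 5, .t 970 2 4] 121 136
  [2, 3] [(104, 105, [4]), (120, 119, [3]), (121, 136, [2, 3])]) .no (.br 947 (.con 136 [2, 4, 1,
  3]) .no (.use 474) (.con 136 [2, 4, 1, 3]) .no (.con 136 [2, 4, 1, 3])) .no .no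

def c27t1684 : Tr4 :=
  .br 827 (.hor [.f 819 1 3, .f 946 3 5] [(119, 136, [2, 4])]) (.con 136 [2, 4, 1, 3]) .no .no .no
  (.con 136 [2, 4, 1, 3])

def c27t1685 : Tr4 :=
  .br 817 (.con 136 [2, 4, 2, 3, 1, 4, 2, 3]) (.con 136 [2, 4, 2, 3, 1, 4, 2, 3]) (.hor [.f 817 3
  5] []) (.con 136 [2, 4, 2, 3, 1, 4, 2, 3]) .no (.con 136 [2, 4, 2, 3, 1, 4, 2, 3])

def c27t1686 : Tr4 :=
  .br 947 (.con 136 [2, 4, 1, 3]) (.con 136 [2, 4, 1, 3]) (.hor [.f 946 3 5] []) (.con 136 [2, 4,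
  1, 3]) .no .no

def c27t1687 : Tr4 :=
  .br 954 .no (.br 947 (.con 136 [2, 4, 1, 3]) (.con 136 [2, 4, 1, 3]) (.use 1586) (.con 136 [2,
  4, 1, 3]) .no (.con 136 [2, 4, 1, 3])) .no (.use 1686) (.red [.t 1090 2 4, .f 953 3 5] 136 136
  [] [(136, 136, [])]) .no

def c27t1688 : Tr4 :=
  .br 827 (.hor [.f 826 1 5] []) (.con 136 [2, 4, 1, 3]) .no .no .no .no

def c27t1689 : Tr4 :=
  .br 827 (.hor [.f 826 1 5] []) (.con 136 [2, 4, 1, 3]) .no (.con 136 [2, 4, 1, 3]) .no .no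

def c27t1690 : Tr4 :=
  .br 827 (.hor [.f 826 1 5] []) (.con 136 [2, 4, 1, 3]) .no .no .no .no

def c27t1691 : Tr4 :=
  .br 827 (.hor [.f 826 1 5] []) (.con 136 [2, 4, 1, 3]) .no (.con 136 [2, 4, 1, 3]) .no .no

def c27t1692 : Tr4 :=
  .br 835 .no (.br 954 .no (.br 947 (.hor [.f 946 1 5] []) (.use 1688) (.use 1596) (.use 1689) .no
  .no) .no .no (.red [.t 1090 2 4, .f 953 3 5] 136 136 [] [(136, 136, [])]) .no) (.red [.f 835 3
  1] 121 136 [2, 3] [(121, 136, [2, 3])]) (.br 954 .no (.br 947 (.con 136 [2, 4, 1, 3]) (.con 136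
  [2, 4, 1, 4]) (.use 1596) (.con 136 [2, 4, 1, 4]) .no .no) .no .no (.red [.t 1090 2 4, .f 953 3
  5] 136 136 [] [(136, 136, [])]) .no) .no (.br 954 .no (.br 947 (.hor [.f 946 1 5] []) (.use
  1690) (.use 1596) (.use 1691) .no .no) .no .no (.red [.t 1090 2 4, .f 953 3 5] 136 136 [] [(136,
  136, [])]) .no)

def c27t1693 : Tr4 :=
  .br 827 (.hor [.f 826 1 5] []) (.con 136 [2, 4, 1, 3]) .no (.con 136 [2, 4, 1, 3]) .no .no

def c27t1694 : Tr4 :=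
  .br 827 (.hor [.f 826 1 5] []) (.con 136 [2, 4, 1, 3]) .no (.con 136 [2, 4, 1, 3]) .no .no

def c27t1695 : Tr4 :=
  .br 947 (.use 1693) (.use 1688) (.use 1586) (.use 1689) .no (.use 1694)

def c27t1696 : Tr4 :=
  .br 954 .no (.use 1695) .no (.br 947 (.use 1677) (.use 1684) (.hor [.f 946 3 5] []) (.use 1679)
  .no .no) (.red [.t 1090 2 4, .f 953 3 5] 136 136 [] [(136, 136, [])]) .no

def c27t1697 : Tr4 :=
  .br 827 (.hor [.f 826 1 5] []) (.con 136 [2, 4, 1, 3]) .no (.con 136 [2, 4, 1, 3]) .no .no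

def c27t1698 : Tr4 :=
  .br 827 (.hor [.f 826 1 5] []) (.con 136 [2, 4, 1, 3]) .no (.con 136 [2, 4, 1, 3]) .no .no

def c27t1699 : Tr4 :=
  .br 947 (.use 1697) (.use 1690) (.use 1586) (.use 1691) .no (.use 1698)

def c27t1700 : Tr4 :=
  .br 827 (.hor [.f 819 1 3, .f 946 3 5] [(119, 136, [2, 4])]) (.con 136 [2, 4, 1, 3]) .no .no .no
  (.con 136 [2, 4, 1, 3])

def c27t1701 : Tr4 :=
  .br 954 .no (.use 1699) .no (.br 947 (.use 1677) (.use 1700) (.hor [.f 946 3 5] []) (.use 1679)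
  .no .no) (.red [.t 1090 2 4, .f 953 3 5] 136 136 [] [(136, 136, [])]) .no

def c27t1702 : Tr4 :=
  .br 1201 (.hor [.f 1201 1 5] []) .no .no (.con 136 [4, 1, 1, 4]) .no (.con 136 [4, 1, 4, 1])

def c27t1703 : Tr4 :=
  .br 1202 (.use 1702) .no .no (.red [.f 1066 3 1, .f 1074 1 3] 151 136 [4, 1] [(150, 136, [4, 1,
  4]), (151, 136, [4, 1])]) .no (.red [.t 1081 4 1] 151 136 [4, 1] [(151, 136, [4, 1])])

def c27t1704 : Tr4 :=
  .br 1338 (.con 136 [1, 4, 1, 1]) .no .no (.red [.t 1338 4 2] 167 136 [1, 4, 1] [(167, 136, [1,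
  4, 1])]) .no .no

def c27t1705 : Tr4 :=
  .br 1208 (.br 1337 (.br 1203 (.red [.f 1203 1 3] 167 136 [4, 1, 1] [(167, 136, [4, 1, 1])]) .no
  .no (.use 1703) .no (.br 1338 (.hor [.f 1337 1 5] []) .no .no (.red [.t 1338 4 2] 167 136 [4, 1,
  1] [(167, 136, [4, 1, 1])]) .no .no)) .no (.red [.f 1209 3 1, .f 1208 1 5] 168 136 [1, 1] [(168,
  136, [1, 1])]) (.br 1203 (.red [.f 1203 1 3] 167 136 [4, 1, 1] [(167, 136, [4, 1, 1])]) .no .no
  (.use 1703) .no (.use 1704)) (.red [.t 1217 4 1, .f 1208 1 5] 168 136 [1, 1] [(168, 136, [1,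
  1])]) .no) .no .no (.con 136 [4, 1, 1]) .no .no

def c27t1706 : Tr4 :=
  .br 1208 (.br 1200 (.con 136 [4, 1, 1, 4]) .no .no (.red [.f 1064 3 1] 150 136 [4, 1, 4] [(150,
  136, [4, 1, 4])]) (.red [.t 1336 2 4, .f 1201 1 5, .t 1081 4 1] 151 136 [4, 1] [(151, 136, [4,
  1]), (167, 151, [1])]) .no) .no .no (.con 136 [4, 1, 1, 4]) .no .no

def c27t1707 : Tr4 :=
  .br 1201 (.hor [.f 1201 1 5] []) .no .no (.con 136 [1, 1, 4, 4]) .no (.con 136 [1, 1, 4, 2])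

def c27t1708 : Tr4 :=
  .br 1337 (.hor [.f 1337 1 5] []) .no (.red [.f 1209 3 1, .f 1217 1 5] 168 136 [1, 1] [(168, 136,
  [1, 1])]) (.use 1706) .no (.use 1707)

def c27t1709 : Tr4 :=
  .br 1201 (.hor [.f 1201 1 5] []) .no .no (.con 136 [4, 1, 4, 1]) .no .no

def c27t1710 : Tr4 :=
  .br 1337 (.br 1208 (.br 1345 (.red [.f 1337 1 3, .f 1209 3 1] 168 136 [1, 1] [(168, 136, [1,
  1]), (184, 136, [1, 1, 1])]) .no .no .no .no (.red [.t 1208 1 3, .f 1217 1 5] 168 136 [1, 1]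
  [(168, 136, [1, 1])])) .no .no (.use 1709) .no .no) .no (.red [.f 1209 3 1, .f 1217 1 5] 168 136
  [1, 1] [(168, 136, [1, 1])]) (.use 1706) (.red [.t 1217 4 1] 168 136 [1, 1] [(168, 136, [1,
  1])]) (.use 1707)

def c27t1711 : Tr4 :=
  .br 1202 (.use 1710) .no .no (.red [.f 1066 3 1, .f 1074 1 3] 151 136 [4, 1] [(150, 136, [4, 1,
  4]), (151, 136, [4, 1])]) .no (.red [.t 1081 4 1] 151 136 [4, 1] [(151, 136, [4, 1])])

def c27t1712 : Tr4 :=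
  .br 1211 (.use 1705) .no .no (.br 1072 (.dom 151 136 [4, 1]) .no .no (.use 1711) .no .no) .no
  .no

def c27l61 : List Tr4 :=
  [c27t1675, c27t1676, c27t1677, c27t1678, c27t1679, c27t1680, c27t1681, c27t1682, c27t1683,
  c27t1684, c27t1685, c27t1686, c27t1687, c27t1688, c27t1689, c27t1690, c27t1691, c27t1692,
  c27t1693, c27t1694, c27t1695, c27t1696, c27t1697, c27t1698, c27t1699, c27t1700, c27t1701,
  c27t1702, c27t1703, c27t1704, c27t1705, c27t1706, c27t1707, c27t1708, c27t1709, c27t1710,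
  c27t1711, c27t1712]

theorem c27k61 : chkLF ⟨4, 1, 0, true, -8⟩ false 7 c27N 1675 c27l61 = true := by decide +kernel

def c27t1713 : Tr4 :=
  .br 1202 (.br 1337 (.br 1208 (.br 1345 (.red [.f 1337 1 3, .f 1209 3 1] 168 136 [1, 1] [(168,
  136, [1, 1]), (184, 136, [1, 1, 1])]) .no (.br 1347 (.br 1338 (.use 1708) .no .no .no (.br 1473
  (.br 1474 (.hor [.f 1473 1 5] []) .no (.con 136 [3, 1, 1, 1, 1]) (.red [.t 1474 4 2, .f 1337 1
  5] 184 136 [1, 1, 1] [(184, 136, [1, 1, 1])]) .no .no) .no (.red [.f 1345 3 1, .f 1337 1 3] 185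
  136 [3, 1, 1, 1] [(184, 136, [1, 1, 1]), (185, 136, [3, 1, 1, 1])]) .no (.br 1354 (.red [.t 1353
  4 1, .f 1337 1 3] 185 136 [3, 1, 1, 1] [(184, 136, [1, 1, 1]), (185, 136, [3, 1, 1, 1])]) .no
  (.br 1355 (.con 136 [3, 1, 3, 1, 1]) .no (.hor [.f 1354 3 5] []) .no .no .no) .no (.red [.t 1218
  1 3, .t 1082 1 3, .f 1209 3 5, .t 1097 4 1] 153 136 [3, 1] [(152, 136, [1]), (153, 136, [3, 1]),
  (169, 153, [1])]) .no) (.con 136 [3, 1, 1, 1, 4])) .no) .no (.con 136 [3, 1, 1, 1]) (.br 1338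
  (.use 1708) .no .no .no .no .no) .no .no) .no .no (.red [.t 1208 1 3, .f 1217 1 5] 168 136 [1,
  1] [(168, 136, [1, 1])])) .no .no (.use 1709) .no .no) .no (.red [.f 1209 3 1, .f 1217 1 5] 168
  136 [1, 1] [(168, 136, [1, 1])]) (.use 1706) (.red [.t 1217 4 1] 168 136 [1, 1] [(168, 136, [1,
  1])]) (.use 1707)) .no .no (.red [.f 1066 3 1, .f 1074 1 3] 151 136 [4, 1] [(150, 136, [4, 1,
  4]), (151, 136, [4, 1])]) .no (.red [.t 1081 4 1] 151 136 [4, 1] [(151, 136, [4, 1])])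

def c27t1714 : Tr4 :=
  .br 1224 (.use 1713) .no (.hor [.f 1224 3 5] []) .no .no .no

def c27t1715 : Tr4 :=
  .br 1218 (.br 1225 (.use 1712) .no (.br 1211 (.use 1705) .no .no (.br 1072 (.dom 151 136 [4, 1])
  .no .no (.use 1714) .no .no) .no .no) .no .no (.red [.t 1088 1 3, .t 952 1 3, .f 961 1 5] 153
  136 [3, 1] [(136, 136, []), (153, 136, [3, 1])])) .no .no .no .no .no

def c27t1716 : Tr4 :=
  .br 1075 (.br 1201 (.use 1665) .no .no (.use 1667) (.red [.t 1081 4 1] 151 136 [4, 1] [(151,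
  136, [4, 1])]) (.con 136 [4, 1, 4])) .no .no (.hor [.f 1066 3 5] []) .no .no

def c27t1717 : Tr4 :=
  .br 1203 (.red [.f 1203 1 3] 167 136 [4, 1, 1] [(167, 136, [4, 1, 1])]) .no .no (.br 1202 (.use
  1702) .no .no (.hor [.f 1194 3 5] []) .no (.red [.t 1081 4 1] 151 136 [4, 1] [(151, 136, [4,
  1])])) .no (.red [.f 1074 5 1, .f 1074 1 3] 151 136 [4, 1] [(151, 136, [4, 1])])

def c27t1718 : Tr4 :=
  .br 1211 (.use 1717) .no .no (.red [.t 1210 2 4, .f 946 3 1] 151 136 [4, 1] [(135, 136, [4]),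
  (151, 136, [4, 1])]) .no .no

def c27t1719 : Tr4 :=
  .br 1211 (.use 1705) .no .no (.dom 151 136 [4, 1]) .no .no

def c27t1720 : Tr4 :=
  .br 1218 (.br 1072 (.use 1719) .no .no (.br 1211 (.use 1705) .no .no (.br 1225 (.use 1711) .no
  (.use 1714) .no .no (.red [.t 1088 1 3, .t 952 1 3, .f 961 1 5] 153 136 [3, 1] [(136, 136, []),
  (153, 136, [3, 1])])) .no .no) .no .no) .no .no .no .no .no

def c27t1721 : Tr4 :=
  .br 946 (.con 136 [4, 2, 3, 1]) (.con 136 [4, 2, 3, 1]) (.hor [.f 946 3 5] []) (.con 136 [4, 2,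
  3, 1]) .no (.con 136 [4, 2, 3, 1])

def c27t1722 : Tr4 :=
  .br 955 .no .no .no (.use 1721) .no (.red [.t 1090 2 4, .f 826 3 1] 136 136 [] [(120, 136, [2]),
  (136, 136, [])])

def c27t1723 : Tr4 :=
  .br 835 .no (.br 834 .no (.hor [.f 706 1 5] []) .no (.br 944 (.red [.f 944 1 3, .f 1072 3 5, .t
  1216 2 4, .f 1081 1 5, .t 961 4 1] 136 136 [] [(135, 136, [4]), (136, 136, []), (152, 136,
  [1])]) (.br 954 .no .no .no (.br 1074 (.red [.f 1074 1 3, .f 946 3 1] 151 136 [4, 1] [(135, 136,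
  [4]), (151, 136, [4, 1])]) .no .no (.br 827 (.br 947 (.use 1715) (.use 1684) .no (.use 1716) .no
  .no) (.red [.f 699 1 3, .f 826 3 5, .t 970 2 4] 121 136 [2, 3] [(104, 105, [4]), (121, 136, [2,
  3])]) .no (.br 947 (.con 136 [2, 4, 1, 3]) .no (.use 1680) (.con 136 [2, 4, 1, 3]) .no .no) .no
  .no) (.use 1718) .no) (.red [.t 1090 2 4, .f 826 3 1] 136 136 [] [(120, 136, [2]), (136, 136,
  [])]) .no) .no (.br 827 (.br 945 .no (.br 946 (.con 136 [4, 2, 3, 3]) (.con 136 [4, 2, 3, 3])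
  (.br 1074 (.red [.f 1074 1 3, .f 946 3 1] 151 136 [4, 1] [(135, 136, [4]), (151, 136, [4, 1])])
  .no .no (.br 947 (.use 1720) (.use 1684) .no (.use 1716) .no .no) (.use 1718) .no) (.con 136 [4,
  2, 3, 3]) (.con 136 [4, 2, 3, 3]) .no) .no (.hor [.f 936 3 5] []) (.con 136 [4, 2, 3, 3]) .no)
  (.red [.f 699 1 3, .f 826 3 5, .t 970 2 4] 121 136 [2, 3] [(104, 105, [4]), (121, 136, [2, 3])])
  .no (.use 1722) .no .no) (.red [.t 1080 2 4, .t 1216 2 4, .f 1081 1 5, .t 961 4 1] 136 136 []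
  [(135, 136, [4]), (136, 136, []), (152, 136, [1])]) .no) .no (.br 954 .no (.use 1683) .no (.br
  1074 (.red [.f 1074 1 3, .f 946 3 1] 151 136 [4, 1] [(135, 136, [4]), (151, 136, [4, 1])]) .no
  .no (.br 947 (.br 944 (.red [.f 944 1 3, .f 1072 3 5, .t 1216 2 4, .f 1081 1 5, .t 961 4 1] 136
  136 [] [(135, 136, [4]), (136, 136, []), (152, 136, [1])]) (.use 1715) .no (.use 1720) (.red [.t
  1080 2 4, .t 1216 2 4, .f 1081 1 5, .t 961 4 1] 136 136 [] [(135, 136, [4]), (136, 136, []),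
  (152, 136, [1])]) .no) (.use 1684) (.hor [.f 946 3 5] []) (.use 1716) .no .no) (.use 1718) .no)
  (.red [.t 1090 2 4, .f 953 3 5] 136 136 [] [(136, 136, [])]) .no)) (.red [.f 835 3 1, .f 842 1
  5] 121 136 [2, 3] [(121, 136, [2, 3])]) (.br 954 .no (.br 833 .no (.use 427) (.br 947 (.con 136
  [2, 4, 1, 3]) (.con 136 [2, 4, 1, 3]) (.br 945 .no (.use 1627) .no (.br 1074 (.red [.f 1074 1 3,
  .f 1073 3 5] 151 136 [4, 1] [(151, 136, [4, 1])]) (.br 944 (.con 136 [4, 4]) (.br 825 .no (.use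
  1539) .no (.dom 119 136 [2, 4]) .no (.red [.t 960 2 4, .t 1096 2 4, .f 961 1 5, .t 841 4 1] 121
  136 [2, 3] [(120, 104, [1]), (121, 136, [2, 3]), (137, 121, [1])])) .no (.hor [.f 936 3 5] [])
  .no .no) .no (.use 1588) (.use 1590) .no) (.use 1540) (.red [.t 1080 2 4, .t 1216 2 4, .f 1081 1
  5, .t 961 4 1] 136 136 [] [(135, 119, [1]), (136, 136, []), (152, 136, [1])])) (.con 136 [2, 4,
  1, 3]) .no (.con 136 [2, 4, 1, 3])) (.con 136 [2, 2]) (.red [.t 953 3 2, .f 826 3 5, .t 970 2 4]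
  121 136 [2, 3] [(120, 104, [1]), (121, 136, [2, 3])]) .no) .no (.use 1686) (.red [.t 1090 2 4,
  .f 953 3 5] 136 136 [] [(136, 136, [])]) .no) .no (.red [.t 970 2 4] 121 136 [2, 3] [(121, 136,
  [2, 3])])

def c27t1724 : Tr4 :=
  .br 1218 (.hor [.f 1217 1 5] []) .no (.con 136 [3, 1, 1]) .no .no .no

def c27t1725 : Tr4 :=
  .br 697 (.hor [.f 696 1 5] []) (.con 136 [2, 4, 2, 3, 1, 1]) (.con 136 [2, 4, 2, 3, 1, 1]) (.con
  136 [2, 4, 2, 3, 1, 1]) .no .no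

def c27t1726 : Tr4 :=
  .br 1226 (.hor [.f 1225 1 5] []) .no (.red [.f 1098 5 3, .f 1098 3 1] 154 136 [3, 3, 1] [(154,
  136, [3, 3, 1])]) .no (.red [.t 962 1 3, .t 1098 4 2, .f 1098 5 1, .t 1097 4 1] 153 136 [3, 1]
  [(153, 136, [3, 1])]) .no

def c27t1727 : Tr4 :=
  .br 1226 (.hor [.f 1225 1 5] []) .no (.red [.t 962 1 3, .f 1089 3 5, .f 1097 5 3, .f 1098 3 1]
  154 136 [3, 3, 1] [(137, 121, [1]), (154, 136, [3, 3, 1])]) .no (.red [.t 962 1 3, .t 1098 4 2,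
  .f 1098 5 1, .t 1097 4 1] 153 136 [3, 1] [(153, 136, [3, 1])]) .no

def c27t1728 : Tr4 :=
  .br 1226 (.hor [.f 1225 1 5] []) .no (.red [.t 962 1 3, .f 1089 3 5, .t 1233 2 4] 154 136 [3, 3,
  1] [(137, 121, [1]), (154, 136, [3, 3, 1])]) .no (.red [.t 962 1 3, .t 1098 4 2, .f 1098 5 1, .t
  1097 4 1] 153 136 [3, 1] [(153, 136, [3, 1])]) .no

def c27t1729 : Tr4 :=
  .br 1225 (.br 1104 (.br 1224 (.hor [.f 1224 1 5] []) .no .no .no .no .no) (.red [.f 968 1 3, .f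
  968 3 5] 138 136 [3, 3] [(138, 136, [3, 3])]) (.br 976 .no (.br 978 (.red [.t 962 1 3, .f 1089 3
  5, .t 977 4 1] 138 136 [3, 3] [(137, 121, [1]), (138, 136, [3, 3])]) (.con 136 [2, 3, 3, 3])
  (.br 1106 (.use 1447) .no (.red [.f 978 3 1] 139 136 [3, 3, 3] [(139, 136, [3, 3, 3])]) .no
  (.use 1726) (.use 1727)) .no (.br 1106 (.use 1447) .no (.br 1105 (.use 1728) .no (.hor [.f 1104
  3 5] []) .no .no .no) .no (.use 1726) (.use 1727)) .no) (.red [.f 976 3 1, .f 968 1 3, .f 968 3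
  5] 138 136 [3, 3] [(138, 136, [3, 3]), (139, 136, [3, 3, 3])]) .no .no .no) .no (.red [.t 962 1
  3, .f 1089 3 5, .t 968 1 3] 138 136 [3, 3] [(137, 121, [1]), (138, 136, [3, 3])]) .no) .no (.use
  227) .no (.red [.f 1217 5 3, .f 1089 3 1] 153 136 [3, 1] [(153, 136, [3, 1])]) (.red [.t 1088 1
  3, .t 952 1 3, .f 961 1 5] 153 136 [3, 1] [(136, 136, []), (153, 136, [3, 1])])

def c27t1730 : Tr4 :=
  .br 1345 (.red [.f 1337 1 3, .f 1209 3 1] 168 136 [1, 1] [(168, 136, [1, 1]), (184, 136, [1, 1,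
  1])]) .no (.br 1224 (.red [.t 1345 3 2, .f 1224 1 5, .t 1088 1 3] 153 136 [3, 1] [(153, 136, [3,
  1]), (169, 185, [2])]) .no .no .no .no .no) .no .no (.red [.t 1208 1 3, .f 1217 1 5] 168 136 [1,
  1] [(168, 136, [1, 1])])

def c27t1731 : Tr4 :=
  .br 979 (.con 136 [3, 3, 3]) .no (.hor [.f 978 3 5] []) .no .no .no

def c27t1732 : Tr4 :=
  .br 978 .no (.con 136 [2, 3, 3, 3]) (.use 1731) .no (.red [.t 842 1 3, .f 714 5 1, .f 707 1 3,
  .f 835 3 1, .f 843 1 3] 105 136 [2, 3, 2] [(105, 136, [2, 3, 2]), (121, 136, [2, 3])]) .no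

def c27t1733 : Tr4 :=
  .br 840 .no (.hor [.f 712 1 5] []) .no .no .no .no

def c27t1734 : Tr4 :=
  .br 1202 (.br 1337 (.br 1208 (.br 705 .no (.hor [.f 577 1 5] []) (.br 1104 (.use 1730) (.red [.f
  968 1 3, .f 968 3 5] 138 136 [3, 3] [(138, 136, [3, 3])]) (.br 976 .no (.br 841 .no .no (.con
  136 [2, 3, 3, 2]) .no .no (.br 1105 (.red [.t 962 1 3, .f 1089 3 5, .f 1097 5 1, .f 1097 1 3]
  154 136 [3, 3, 1] [(137, 121, [1]), (154, 136, [3, 3, 1])]) .no (.hor [.f 1104 3 5] []) .no (.br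
  715 .no (.br 714 .no (.hor [.f 586 1 5] []) (.con 136 [2, 2, 3, 3, 2]) .no .no .no) (.red [.f
  715 3 1, .f 707 1 3, .f 835 3 1, .f 842 1 5] 106 136 [2, 2, 3, 3] [(105, 136, [2, 2, 3]), (106,
  136, [2, 2, 3, 3]), (121, 136, [2, 3])]) .no .no (.use 1732)) .no)) (.red [.f 976 3 1, .f 968 1
  3, .f 968 3 5] 138 136 [3, 3] [(138, 136, [3, 3]), (139, 136, [3, 3, 3])]) .no .no .no) .no
  (.red [.t 962 1 3, .f 1089 3 5, .t 968 1 3] 138 136 [3, 3] [(137, 121, [1]), (138, 136, [3,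
  3])]) .no) .no .no (.br 1104 (.use 1730) (.red [.f 968 1 3, .f 968 3 5] 138 136 [3, 3] [(138,
  136, [3, 3])]) (.br 976 .no (.br 978 (.red [.t 962 1 3, .f 1089 3 5, .t 977 4 1] 138 136 [3, 3]
  [(137, 121, [1]), (138, 136, [3, 3])]) (.con 136 [2, 3, 3, 3]) (.use 1731) .no (.br 715 .no (.br
  841 .no (.use 1733) (.con 136 [2, 3, 3, 2]) .no .no (.br 714 .no (.hor [.f 586 1 5] []) (.br 713
  .no (.con 136 [2, 2, 2, 3, 3]) (.hor [.f 713 3 5] []) .no .no (.con 136 [2, 2, 2, 3, 3])) .no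
  .no (.br 577 .no (.br 576 .no (.hor [.f 448 1 5] []) (.con 136 [2, 2, 2, 3, 2]) (.br 712 .no
  (.red [.t 568 3 1, .f 576 1 3] 89 136 [2, 2, 2, 3] [(88, 136, [2, 2, 2]), (89, 136, [2, 2, 2,
  3])]) (.con 136 [2, 2, 2, 3, 3]) .no .no .no) .no .no) (.red [.t 577 3 1] 89 136 [2, 2, 2, 3]
  [(89, 136, [2, 2, 2, 3])]) .no .no (.br 712 .no (.red [.f 576 5 1, .f 576 1 3] 89 136 [2, 2, 2,
  3] [(89, 136, [2, 2, 2, 3])]) (.con 136 [2, 2, 2, 3, 3]) .no .no .no)))) (.red [.f 715 3 1, .f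
  707 1 3, .f 835 3 1, .f 842 1 5] 106 136 [2, 3, 3, 2] [(105, 136, [2, 2, 3]), (106, 136, [2, 3,
  3, 2]), (121, 136, [2, 3])]) .no .no (.red [.t 842 1 3, .f 714 5 1, .f 707 1 3, .f 835 3 1, .f
  843 1 3] 105 136 [2, 2, 3] [(105, 136, [2, 2, 3]), (121, 136, [2, 3])])) .no) (.red [.f 976 3 1,
  .f 968 1 3, .f 968 3 5] 138 136 [3, 3] [(138, 136, [3, 3]), (139, 136, [3, 3, 3])]) .no .no .no)
  .no (.red [.t 962 1 3, .f 1089 3 5, .t 968 1 3] 138 136 [3, 3] [(137, 121, [1]), (138, 136, [3,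
  3])]) .no)) .no .no (.use 1709) .no .no) .no (.red [.f 1209 3 1, .f 1217 1 5] 168 136 [1, 1]
  [(168, 136, [1, 1])]) (.use 1706) (.red [.t 1217 4 1] 168 136 [1, 1] [(168, 136, [1, 1])]) (.use
  1707)) .no .no (.red [.f 1066 3 1, .f 1074 1 3] 151 136 [4, 1] [(150, 136, [4, 1, 4]), (151,
  136, [4, 1])]) .no (.red [.t 962 1 3, .t 1081 4 1, .t 1098 4 2] 151 136 [4, 1] [(151, 136, [4,
  1])])

def c27t1735 : Tr4 :=
  .br 1225 (.use 1712) .no (.use 227) .no (.br 1211 (.use 1705) .no .no (.br 706 .no (.br 697 .no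
  (.use 1734) (.br 1202 (.br 1337 (.br 1208 (.br 1104 (.use 1730) (.red [.f 968 1 3, .f 968 3 5]
  138 136 [3, 3] [(138, 136, [3, 3])]) (.br 976 .no (.br 841 .no (.use 1733) (.con 136 [2, 3, 3,
  2]) .no .no (.br 1105 (.red [.t 962 1 3, .f 1089 3 5, .f 1097 5 1, .f 1097 1 3] 154 136 [3, 3,
  1] [(137, 121, [1]), (154, 136, [3, 3, 1])]) .no (.hor [.f 1104 3 5] []) .no (.br 715 .no (.br
  704 .no (.br 712 .no (.red [.f 576 1 3, .t 697 3 1] 89 136 [2, 2, 2, 3] [(89, 136, [2, 2, 2,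
  3]), (104, 136, [2, 2])]) (.br 714 .no (.hor [.f 586 1 5] []) (.con 136 [2, 2, 2, 3, 3]) .no .no
  (.con 136 [2, 2, 2, 3, 3])) .no (.red [.t 697 3 1, .f 712 5 1, .f 705 1 3] 105 136 [2, 2, 3]
  [(104, 136, [2, 2]), (105, 136, [2, 2, 3])]) .no) (.red [.t 697 3 1, .t 704 3 1] 105 136 [2, 2,
  3] [(104, 136, [2, 2]), (105, 136, [2, 2, 3])]) .no .no .no) (.red [.f 715 3 1, .f 707 1 3, .f
  835 3 1, .f 842 1 5] 106 136 [2, 2, 3, 3] [(105, 136, [2, 2, 3]), (106, 136, [2, 2, 3, 3]),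
  (121, 136, [2, 3])]) .no .no (.use 1732)) .no)) (.red [.f 976 3 1, .f 968 1 3, .f 968 3 5] 138
  136 [3, 3] [(138, 136, [3, 3]), (139, 136, [3, 3, 3])]) .no .no .no) .no (.red [.t 962 1 3, .f
  1089 3 5, .t 968 1 3] 138 136 [3, 3] [(137, 121, [1]), (138, 136, [3, 3])]) .no) .no .no (.use
  1709) .no .no) .no (.red [.f 1209 3 1, .f 1217 1 5] 168 136 [1, 1] [(168, 136, [1, 1])]) (.use
  1706) (.red [.t 1217 4 1] 168 136 [1, 1] [(168, 136, [1, 1])]) (.use 1707)) .no .no (.red [.f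
  1066 3 1, .f 1074 1 3] 151 136 [4, 1] [(150, 136, [4, 4, 1]), (151, 136, [4, 1])]) .no (.red [.t
  962 1 3, .t 1081 4 1, .t 1098 4 2] 151 136 [4, 1] [(151, 136, [4, 1])])) (.hor [.f 689 3 1, .f
  696 1 5] [(103, 104, [4])]) .no .no) (.br 978 (.red [.t 962 1 3, .f 1089 3 5, .t 977 4 1] 138
  136 [3, 3] [(137, 121, [1]), (138, 136, [3, 3])]) (.red [.f 842 1 3, .f 842 3 5, .t 706 3 1, .f
  835 3 1, .t 970 3 2] 105 136 [2, 2, 3] [(105, 136, [2, 2, 3]), (121, 136, [2, 3])]) (.br 1104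
  (.br 1202 (.br 1337 (.br 1208 (.use 1730) .no .no (.use 1709) .no .no) .no (.red [.f 1209 3 1,
  .f 1217 1 5] 168 136 [1, 1] [(168, 136, [1, 1])]) (.use 1706) (.red [.t 1217 4 1] 168 136 [1, 1]
  [(168, 136, [1, 1])]) (.use 1707)) .no .no (.red [.f 1066 3 1, .f 1074 1 3] 151 136 [4, 1]
  [(150, 136, [4, 4, 1]), (151, 136, [4, 1])]) .no (.red [.t 962 1 3, .t 1081 4 1, .t 1098 4 2]
  151 136 [4, 1] [(151, 136, [4, 1])])) (.red [.f 968 1 3, .f 968 3 5] 138 136 [3, 3] [(138, 136,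
  [3, 3])]) (.use 1731) .no (.red [.t 962 1 3, .f 1089 3 5, .t 968 1 3] 138 136 [3, 3] [(137, 121,
  [1]), (138, 136, [3, 3])]) .no) .no (.red [.t 842 1 3, .t 706 3 1, .f 835 3 1, .f 843 1 3] 105
  136 [2, 2, 3] [(105, 136, [2, 2, 3]), (121, 136, [2, 3])]) .no) .no .no (.red [.f 705 5 1, .f
  706 1 5, .t 970 2 4] 121 136 [2, 3] [(121, 136, [2, 3])])) .no .no) (.red [.t 1088 1 3, .t 952 1
  3, .f 961 1 5] 153 136 [3, 1] [(136, 136, []), (153, 136, [3, 1])])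

def c27t1736 : Tr4 :=
  .br 1072 (.br 1217 (.use 1587) .no (.red [.f 1089 3 1, .f 1088 1 5] 153 136 [3, 1] [(153, 136,
  [3, 1])]) (.use 1716) (.use 1636) .no) (.use 1678) .no (.use 1679) .no .no

def c27t1737 : Tr4 :=
  .br 697 (.hor [.f 697 1 5] []) (.con 136 [2, 4, 2, 3, 1, 1]) (.con 136 [2, 4, 2, 3, 1, 1]) (.con
  136 [2, 4, 2, 3, 1, 1]) .no (.con 136 [2, 4, 2, 3, 1, 1])

def c27t1738 : Tr4 :=
  .br 1211 (.use 1705) .no .no (.use 1711) .no .no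

def c27l62 : List Tr4 :=
  [c27t1713, c27t1714, c27t1715, c27t1716, c27t1717, c27t1718, c27t1719, c27t1720, c27t1721,
  c27t1722, c27t1723, c27t1724, c27t1725, c27t1726, c27t1727, c27t1728, c27t1729, c27t1730,
  c27t1731, c27t1732, c27t1733, c27t1734, c27t1735, c27t1736, c27t1737, c27t1738]

theorem c27k62 : chkLF ⟨4, 1, 0, true, -8⟩ false 7 c27N 1713 c27l62 = true := by decide +kernel

end Pool.Agent.FT4D
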