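import Pool.Agent.FT4D.Tab_c27

/-!
# Four levels: decision trees (found by a computer search)
-/

namespace Pool.Agent.FT4D

def c27t1739 : Tr4 :=
  .br 947 (.br 1219 (.use 1599) .no (.br 1218 (.br 944 (.red [.f 944 1 3, .f 1072 3 5, .t 1216 2
  4, .f 1081 1 5, .t 961 4 1] 136 136 [] [(135, 136, [4]), (136, 136, []), (152, 136, [1])]) (.use
  1712) .no (.br 1072 (.use 1719) .no .no (.use 1738) .no .no) (.red [.t 1080 2 4, .t 1216 2 4, .f
  1081 1 5, .t 961 4 1] 136 136 [] [(135, 136, [4]), (136, 136, []), (152, 136, [1])]) .no) .no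
  (.hor [.f 1218 3 5] []) .no .no .no) (.con 136 [1, 1]) .no (.red [.t 1082 1 3, .t 946 3 1, .f
  954 1 3, .f 1082 3 1] 136 136 [] [(135, 136, [4]), (136, 136, [])])) (.use 1684) .no (.use 1716)
  .no .no

def c27t1740 : Tr4 :=
  .br 1067 (.br 1338 (.use 1708) .no .no .no (.red [.t 1202 1 3, .t 1066 3 1, .f 1074 1 3, .f 1202
  3 1] 151 136 [4, 1] [(150, 136, [4, 4, 1]), (151, 136, [4, 1])]) (.red [.t 1217 4 1] 168 136 [1,
  1] [(168, 136, [1, 1])])) (.red [.f 939 1 3, .f 1066 3 5, .t 1210 2 4, .f 946 3 1] 151 136 [4,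
  1] [(134, 150, [2]), (135, 136, [4]), (151, 136, [4, 1])]) .no (.br 1208 (.br 939 .no (.br 1201
  (.hor [.f 1201 1 5] []) .no .no (.br 1200 (.con 136 [4, 4, 1, 1]) .no .no (.red [.f 1064 3 1]
  150 136 [4, 4, 1] [(150, 136, [4, 4, 1])]) .no .no) .no (.br 1065 (.red [.t 1064 3 1] 150 136
  [4, 4, 1] [(150, 136, [4, 4, 1])]) (.hor [.f 936 3 1, .f 936 1 5] [(134, 150, [2])]) .no (.br
  937 .no (.hor [.f 809 1 3, .f 936 3 5] [(118, 136, [2, 4, 4])]) .no (.hor [.f 936 3 1, .f 929 3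
  1, .f 936 1 5] [(133, 149, [2]), (134, 150, [2])]) (.br 818 .no (.hor [.f 690 1 3, .f 818 3 1,
  .f 817 1 5] [(103, 136, [2, 2, 4]), (119, 136, [2, 4])]) .no (.hor [.t 817 1 4, .f 810 1 5]
  [(118, 136, [2, 4, 4])]) (.hor [.t 954 4 2, .f 817 1 5] [(119, 136, [2, 4])]) .no) .no) .no
  .no)) .no (.red [.f 931 3 1, .f 939 1 3, .f 1066 3 5, .t 1210 2 4] 151 136 [4, 1] [(133, 149,
  [2]), (134, 150, [2]), (151, 136, [4, 1])]) .no (.red [.t 1074 4 2, .t 1210 2 4, .f 946 3 1] 151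
  136 [4, 1] [(134, 150, [2]), (135, 136, [4]), (151, 136, [4, 1])])) .no .no (.use 1709) .no .no)
  .no .no

def c27t1741 : Tr4 :=
  .br 1217 (.hor [.f 1217 1 5] []) .no .no (.br 1072 (.use 1719) (.red [.f 944 1 3, .f 1072 3 5,
  .t 1216 2 4, .f 1081 1 5, .t 961 4 1] 136 136 [] [(135, 136, [4]), (136, 136, []), (152, 136,
  [1])]) .no (.br 945 .no (.br 944 .no (.hor [.f 816 1 5] []) .no (.br 824 .no (.use 1725) .no
  (.use 1737) (.br 1211 (.use 1705) .no .no (.br 1202 (.use 1740) .no .no (.red [.f 1066 3 1, .f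
  1074 1 3] 151 136 [4, 1] [(150, 136, [4, 4, 1]), (151, 136, [4, 1])]) .no (.red [.t 962 1 3, .t
  1081 4 1, .t 1098 4 2] 151 136 [4, 1] [(151, 136, [4, 1])])) .no .no) .no) .no .no) .no (.br 944
  .no (.br 841 .no (.br 706 .no (.br 705 .no (.hor [.f 577 1 5] []) .no (.red [.t 697 3 1, .f 705
  1 3] 105 136 [2, 2, 3] [(104, 136, [2, 2]), (105, 136, [2, 2, 3])]) .no (.br 843 .no (.red [.f
  707 1 3] 105 136 [2, 2, 3] [(105, 136, [2, 2, 3])]) (.use 489) .no .no (.br 714 .no (.red [.f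
  578 1 3] 89 136 [2, 2, 2, 3] [(89, 136, [2, 2, 2, 3])]) (.br 697 (.hor [.f 697 1 5] []) (.br 840
  .no (.hor [.f 712 1 5] []) (.br 715 .no (.br 712 .no (.br 577 .no (.br 576 .no (.hor [.f 448 1
  5] []) .no (.red [.t 568 3 1, .f 576 1 3] 89 136 [2, 2, 2, 3] [(88, 136, [2, 2, 2]), (89, 136,
  [2, 2, 2, 3])]) .no .no) (.red [.t 584 1 4, .f 569 1 3] 89 136 [2, 2, 2, 3] [(88, 136, [2, 2,
  2]), (89, 136, [2, 2, 2, 3])]) .no .no (.red [.f 576 5 1, .f 576 1 3] 89 136 [2, 2, 2, 3] [(89,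
  136, [2, 2, 2, 3])])) (.con 136 [2, 2, 2, 3, 3]) .no .no .no) (.hor [.f 714 3 5] []) .no .no
  .no) .no .no .no) .no (.br 817 .no .no (.hor [.f 689 3 1, .f 697 1 5] [(103, 105, [4, 4])])
  (.hor [.f 809 3 1, .f 816 1 5] [(118, 150, [2, 2])]) (.hor [.t 697 4 1, .f 818 3 1, .f 826 1 5]
  [(103, 105, [4, 4]), (119, 121, [4, 4])]) .no) .no (.red [.f 696 5 3, .t 697 3 1, .f 705 1 3]
  105 136 [2, 2, 3] [(104, 136, [2, 2]), (105, 136, [2, 2, 3])])) .no (.red [.f 714 5 1, .f 707 1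
  3] 105 136 [2, 2, 3] [(105, 136, [2, 2, 3])]) .no))) (.red [.t 713 1 4, .f 706 1 5] 105 136 [2,
  2, 3] [(105, 136, [2, 2, 3])]) .no .no (.red [.f 705 5 1, .f 705 1 3] 105 136 [2, 2, 3] [(105,
  136, [2, 2, 3])])) (.br 843 .no (.red [.f 707 1 3] 105 136 [2, 2, 3] [(105, 136, [2, 2, 3])])
  (.br 842 .no (.con 136 [2, 2, 3, 3]) (.hor [.f 841 3 5] []) .no .no .no) .no .no (.br 840 .no
  (.con 136 [2, 2, 3, 3]) (.hor [.f 840 3 5] []) .no .no .no)) .no (.red [.t 1089 3 2, .f 833 5 3,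
  .f 968 1 5, .t 832 1 3] 121 136 [2, 3] [(121, 136, [2, 3]), (137, 121, [1])]) (.red [.t 1089 3
  2, .f 968 1 5, .f 840 5 1, .f 832 1 3] 121 136 [2, 3] [(121, 136, [2, 3]), (137, 121, [1])]))
  .no (.hor [.f 936 3 5] []) .no .no) .no (.red [.t 1080 2 4, .t 1216 2 4, .f 1081 1 5, .t 961 4
  1] 136 136 [] [(135, 136, [4]), (136, 136, []), (152, 136, [1])])) .no .no) .no .no

def c27t1742 : Tr4 :=
  .br 970 .no (.br 969 .no (.hor [.f 841 1 5] []) (.br 946 .no (.con 136 [4, 2, 3, 3]) (.br 947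
  (.br 1219 (.br 843 .no (.red [.f 707 1 3] 105 136 [2, 2, 3] [(105, 136, [2, 2, 3])]) (.br 1217
  (.use 1724) .no (.red [.f 1089 3 1, .f 1088 1 5] 153 136 [3, 1] [(153, 136, [3, 1])]) (.use
  1599) (.use 1729) .no) .no .no .no) .no (.br 843 .no (.red [.f 707 1 3] 105 136 [2, 2, 3] [(105,
  136, [2, 2, 3])]) (.br 1218 (.br 1217 (.hor [.f 1217 1 5] []) .no (.red [.f 1089 3 1, .f 1088 1
  5] 153 136 [3, 1] [(153, 136, [3, 1])]) (.br 1072 (.use 1719) (.red [.f 944 1 3, .f 1072 3 5, .t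
  1216 2 4, .f 1081 1 5, .t 961 4 1] 136 136 [] [(135, 136, [4]), (136, 136, []), (152, 136,
  [1])]) .no (.br 825 .no (.hor [.f 697 1 5] []) .no (.br 945 .no .no .no (.br 824 .no (.br 944
  .no (.use 1735) .no (.hor [.f 936 3 5] []) .no .no) .no (.hor [.f 816 3 5] []) .no .no) .no
  (.red [.t 1080 2 4, .t 1216 2 4, .f 1081 1 5, .t 961 4 1] 136 136 [] [(135, 136, [4]), (136,
  136, []), (152, 136, [1])])) .no (.red [.t 960 2 4, .t 1096 2 4, .f 961 1 5, .f 833 5 1, .f 834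
  1 3] 121 136 [2, 3] [(120, 121, [4]), (121, 136, [2, 3]), (137, 121, [1])])) .no .no) .no .no)
  .no (.hor [.f 1218 3 5] []) .no .no (.use 1729)) .no .no .no) (.red [.f 1083 3 1, .f 1082 1 5,
  .t 946 3 1, .f 954 1 3] 136 136 [] [(135, 136, [4]), (136, 136, []), (152, 136, [1])]) .no (.red
  [.t 1082 1 3, .t 946 3 1, .f 954 1 3, .f 1082 3 1] 136 136 [] [(135, 136, [4]), (136, 136,
  [])])) (.use 1684) .no (.use 1736) .no .no) (.con 136 [4, 2, 3, 3]) (.con 136 [4, 2, 3, 3])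
  (.con 136 [4, 2, 3, 3])) .no .no .no) (.use 444) .no .no (.br 1225 (.br 1217 (.red [.f 1217 1 3,
  .f 1089 3 1] 153 136 [3, 1] [(153, 136, [3, 1]), (169, 136, [3, 1, 1])]) .no .no (.br 946 .no
  (.con 136 [4, 2, 3, 3]) (.use 1739) (.con 136 [4, 2, 3, 3]) (.con 136 [4, 2, 3, 3]) (.con 136
  [4, 2, 3, 3])) (.br 1224 (.hor [.f 1224 1 5] []) .no (.br 1104 .no (.red [.t 1089 3 2, .f 968 1
  3, .f 1096 3 1] 138 136 [3, 3] [(137, 121, [1]), (138, 136, [3, 3]), (154, 136, [3, 3, 1])])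
  (.br 1106 (.br 1105 (.use 1728) (.con 136 [3, 3, 3]) (.hor [.f 1104 3 5] []) .no .no .no) (.red
  [.t 962 1 3, .f 1089 3 5, .f 969 5 1, .f 970 1 3] 138 136 [3, 3] [(137, 121, [1]), (138, 136,
  [3, 3])]) (.use 1451) .no (.use 1726) (.use 1727)) .no (.red [.t 1089 3 2, .f 968 1 5, .f 1096 5
  3, .f 1096 3 1] 154 136 [3, 3, 1] [(137, 121, [1]), (154, 136, [3, 3, 1])]) .no) .no .no .no)
  .no) .no (.use 227) (.red [.t 1089 3 2, .t 969 1 4, .f 1089 3 1] 153 136 [3, 1] [(153, 136, [3,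
  1])]) (.br 946 .no (.con 136 [4, 2, 3, 3]) (.br 947 (.br 1218 (.br 1219 (.hor [.f 1218 1 5] [])
  .no (.use 1741) (.red [.f 1083 3 1, .f 1082 1 5, .t 946 3 1, .f 954 1 3] 136 136 [] [(135, 136,
  [4]), (136, 136, []), (152, 136, [1])]) .no .no) .no .no .no (.red [.t 1082 1 3, .t 946 3 1, .f
  954 1 3, .f 1082 3 1] 136 136 [] [(135, 136, [4]), (136, 136, [])]) (.red [.f 1217 5 3, .f 1089
  3 1] 153 136 [3, 1] [(153, 136, [3, 1])])) (.use 1684) .no (.use 1736) .no .no) (.con 136 [4, 2,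
  3, 3]) (.con 136 [4, 2, 3, 3]) (.con 136 [4, 2, 3, 3])) (.red [.t 1088 1 3, .t 952 1 3, .f 961 1
  5] 153 136 [3, 1] [(136, 136, []), (153, 136, [3, 1])]))

def c27t1743 : Tr4 :=
  .br 1211 (.br 1217 (.br 1218 (.hor [.f 1217 1 5] []) .no (.use 1597) .no (.use 1593) .no) .no
  (.red [.f 1089 3 1, .f 1088 1 5] 153 136 [3, 1] [(153, 136, [3, 1])]) (.use 1717) (.use 1654)
  .no) .no (.red [.f 1083 3 1, .f 1082 1 5, .f 1074 5 3, .f 1073 3 5, .t 961 4 1] 136 136 []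
  [(136, 136, []), (152, 136, [1])]) (.red [.t 1210 2 4, .f 1073 3 5] 151 136 [4, 1] [(151, 136,
  [4, 1])]) .no .no

def c27t1744 : Tr4 :=
  .br 946 (.con 136 [4, 2, 3, 1]) .no (.hor [.f 818 3 1, .f 826 1 5] [(119, 136, [2, 4])]) (.con
  136 [4, 2, 3, 1]) (.con 136 [4, 2, 3, 1]) (.con 136 [4, 2, 3, 1])

def c27t1745 : Tr4 :=
  .br 954 .no (.use 1586) .no (.hor [.f 946 3 5] []) .no .no

def c27t1746 : Tr4 :=
  .br 1072 (.br 1217 (.use 1587) .no (.red [.f 1089 3 1, .f 1088 1 5] 153 136 [3, 1] [(153, 136,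
  [3, 1])]) (.use 1669) (.use 1636) .no) (.use 1589) .no (.use 1745) .no .no

def c27t1747 : Tr4 :=
  .br 1098 (.br 1217 (.br 960 .no (.br 1074 (.red [.f 1074 1 3, .f 1073 3 5] 151 136 [4, 1] [(151,
  136, [4, 1])]) (.use 1692) .no (.br 1072 (.use 1587) (.use 1682) .no (.br 835 .no (.use 1696)
  (.red [.f 835 3 1] 121 136 [2, 3] [(121, 136, [2, 3])]) (.use 1687) .no (.use 1701)) .no .no)
  (.br 1211 (.br 1218 (.hor [.f 1217 1 5] []) .no .no .no (.use 1593) .no) .no (.red [.f 1083 3 1,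
  .f 1082 1 5, .f 1074 5 3, .f 1073 3 5, .t 961 4 1] 136 136 [] [(136, 136, []), (152, 136, [1])])
  (.red [.t 1210 2 4, .f 1073 3 5] 151 136 [4, 1] [(151, 136, [4, 1])]) .no .no) .no) .no .no .no
  .no) .no (.red [.f 1089 3 1, .f 1088 1 5] 153 136 [3, 1] [(153, 136, [3, 1])]) (.br 1219 (.use
  1599) .no (.br 960 .no (.br 970 .no (.use 1723) (.use 444) .no .no (.red [.t 1089 3 2, .t 1209 3
  2, .f 1082 3 5, .t 1226 2 4, .f 962 3 1] 153 136 [3, 1] [(152, 136, [1]), (153, 136, [3, 1])]))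
  .no .no .no .no) (.con 136 [1, 1]) .no (.red [.t 1082 1 3, .f 1209 3 5, .t 1097 4 1] 153 136 [3,
  1] [(152, 136, [1]), (153, 136, [3, 1])])) (.red [.t 1097 4 1, .f 1088 1 5] 153 136 [3, 1]
  [(153, 136, [3, 1])]) .no) (.con 136 [3, 3]) (.use 1463) .no (.br 955 .no (.br 835 .no (.br 832
  (.br 834 .no (.hor [.f 706 1 5] []) (.use 514) (.red [.t 962 1 3, .t 826 3 1, .f 955 3 1, .f 963
  1 3] 136 136 [] [(120, 136, [2]), (136, 136, [])]) .no (.br 826 (.hor [.f 826 1 5] []) (.br 1074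
  (.red [.f 1074 1 3, .f 1073 3 5] 151 136 [4, 1] [(151, 136, [4, 1])]) (.con 136 [4, 2, 3, 3])
  .no (.use 1742) (.use 1743) .no) .no (.use 1744) .no (.red [.t 962 1 3, .f 825 5 3, .t 826 3 1,
  .f 955 3 1, .f 963 1 3] 136 136 [] [(120, 136, [2]), (136, 136, [])]))) (.con 136 [3, 2, 4, 1])
  (.con 136 [3, 2, 4, 1]) (.con 136 [3, 2, 4, 1]) (.con 136 [3, 2, 4, 1]) .no) (.red [.f 835 3 1,
  .f 827 1 3, .f 955 3 1, .f 962 1 5] 121 136 [3, 2] [(120, 136, [2]), (121, 136, [3, 2]), (136,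
  136, [])]) .no .no (.red [.t 962 1 3, .f 834 5 1, .f 827 1 3, .f 955 3 1, .f 963 1 3] 136 136 []
  [(120, 136, [2]), (136, 136, [])])) .no (.br 1074 (.red [.f 1074 1 3, .f 1073 3 5] 151 136 [4,
  1] [(151, 136, [4, 1])]) (.br 960 .no (.br 826 (.br 970 .no (.use 510) (.use 444) .no .no (.br
  833 .no (.br 834 .no (.hor [.f 705 1 5] []) (.use 428) .no (.use 447) .no) (.red [.t 1089 3 2,
  .f 968 1 5, .t 832 1 3] 121 136 [2, 3] [(121, 136, [2, 3]), (137, 121, [1])]) (.red [.f 825 3 1,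
  .f 825 1 5, .t 1073 3 2, .f 946 3 5, .t 1090 2 4, .t 961 2 4] 136 136 [] [(135, 119, [1]), (136,
  136, [])]) (.red [.t 953 3 2, .t 1073 3 2, .f 946 3 5, .t 1090 2 4, .f 826 3 1] 136 136 []
  [(135, 119, [1]), (136, 136, [])]) .no)) (.con 136 [4, 2, 3, 3]) (.con 136 [4, 2, 3, 3]) (.con
  136 [4, 2, 3, 3]) (.con 136 [4, 2, 3, 3]) (.con 136 [4, 2, 3, 3])) .no .no .no .no) .no (.use
  1746) (.use 1743) .no) .no (.red [.t 962 1 3, .t 1098 4 2, .t 1090 2 4, .f 953 3 5] 136 136 []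
  [(136, 136, [])])) .no

def c27t1748 : Tr4 :=
  .br 1219 (.use 1599) .no (.red [.t 1089 3 2, .t 1209 3 2, .f 1082 3 5, .t 1226 2 4, .f 962 3 1]
  153 136 [3, 1] [(152, 136, [1]), (153, 136, [3, 1])]) (.con 136 [1, 1]) .no (.red [.t 1082 1 3,
  .f 1209 3 5, .t 1097 4 1] 153 136 [3, 1] [(152, 136, [1]), (153, 136, [3, 1])])

def c27t1749 : Tr4 :=
  .br 835 .no (.use 1688) (.red [.f 835 3 1] 121 136 [2, 3] [(121, 136, [2, 3])]) (.con 136 [2, 4,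
  1, 3]) .no (.use 1690)

def c27t1750 : Tr4 :=
  .br 835 .no (.use 1689) (.red [.f 835 3 1] 121 136 [2, 3] [(121, 136, [2, 3])]) (.con 136 [2, 4,
  1, 3]) .no (.use 1691)

def c27t1751 : Tr4 :=
  .br 827 .no (.br 825 .no (.use 456) .no (.dom 119 136 [2, 4]) .no (.use 1614)) (.use 492) (.red
  [.f 819 3 1, .f 826 1 5] 119 136 [2, 4] [(119, 136, [2, 4])]) .no .no

def c27t1752 : Tr4 :=
  .br 819 .no (.con 136 [2, 4, 4, 2, 3]) .no (.con 136 [2, 4, 4, 2]) .no (.red [.t 954 2 4, .f 690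
  3 1] 103 136 [2, 4, 2] [(103, 136, [2, 4, 2]), (119, 136, [2, 4])])

def c27t1753 : Tr4 :=
  .br 1066 (.use 1605) .no .no (.br 1065 .no .no .no (.hor [.f 1057 3 5] []) .no (.br 1203 (.red
  [.f 1203 1 3] 167 136 [4, 1, 1] [(167, 136, [4, 1, 1])]) (.br 1067 (.red [.f 1067 1 3] 150 136
  [4, 4, 1] [(150, 136, [4, 4, 1])]) (.con 136 [4, 4, 4]) .no (.hor [.f 1058 3 5] []) .no .no) .no
  (.br 1202 (.con 136 [4, 4, 1, 1]) .no .no (.hor [.f 1193 3 5] []) .no .no) .no (.use 1704)))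
  (.use 1607) (.red [.t 945 4 1] 134 136 [4, 4] [(134, 136, [4, 4])])

def c27t1754 : Tr4 :=
  .br 1066 (.use 1601) .no .no (.br 1065 (.br 1201 (.br 1200 (.hor [.f 1200 1 5] []) .no (.br 1337
  (.br 1345 (.red [.f 1337 1 3, .f 1209 3 1] 168 136 [1, 1] [(168, 136, [1, 1]), (184, 136, [1, 1,
  1])]) .no (.red [.t 1345 3 2, .f 1224 1 5, .t 1088 1 3] 153 136 [3, 1] [(153, 136, [3, 1]),
  (169, 185, [2])]) .no .no (.br 1336 (.hor [.f 1336 1 5] []) .no .no (.red [.f 1200 3 1, .f 1200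
  1 5] 167 136 [4, 1, 1] [(167, 136, [4, 1, 1])]) .no .no)) .no (.red [.f 1209 3 1, .f 1201 1 3]
  168 136 [1, 1] [(167, 136, [4, 1, 1]), (168, 136, [1, 1])]) .no (.red [.t 1217 4 1, .f 1201 1 3]
  168 136 [1, 1] [(167, 136, [4, 1, 1]), (168, 136, [1, 1])]) (.red [.t 1200 3 1] 167 136 [4, 1,
  1] [(167, 136, [4, 1, 1])])) (.red [.f 1064 3 1, .f 1064 1 5] 150 136 [4, 4, 1] [(150, 136, [4,
  4, 1])]) .no .no) .no .no .no (.red [.t 1081 4 1, .f 1065 1 3] 151 136 [4, 1] [(150, 136, [4, 4,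
  1]), (151, 136, [4, 1])]) (.red [.t 1064 3 1] 150 136 [4, 4, 1] [(150, 136, [4, 4, 1])])) .no
  .no (.hor [.f 1057 3 5] []) .no .no) (.con 136 [4, 4, 1]) (.red [.t 945 4 1] 134 136 [4, 4]
  [(134, 136, [4, 4])])

def c27t1755 : Tr4 :=
  .br 1072 (.br 1208 (.br 1345 (.br 1337 (.red [.f 1337 1 3, .f 1209 3 1] 168 136 [1, 1] [(168,
  136, [1, 1]), (184, 136, [1, 1, 1])]) .no .no (.br 1201 .no .no .no (.br 1211 (.use 1753) .no
  .no (.dom 151 136 [4, 1]) .no .no) (.red [.t 937 3 2, .t 1081 4 1] 151 136 [4, 1] [(118, 119,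
  [4]), (151, 136, [4, 1])]) .no) (.red [.t 1217 4 1, .f 1208 1 5] 168 136 [1, 1] [(168, 136, [1,
  1])]) .no) .no (.red [.t 1345 3 2, .f 1224 1 5, .t 1088 1 3] 153 136 [3, 1] [(153, 136, [3, 1]),
  (169, 153, [1])]) (.red [.f 1209 3 1, .f 1208 1 5] 168 136 [1, 1] [(168, 136, [1, 1])]) .no
  (.red [.t 1208 1 3, .t 1072 1 3, .f 1081 1 5] 168 136 [1, 1] [(151, 136, [4, 1]), (168, 136, [1,
  1])])) .no .no .no .no .no) .no .no (.use 1754) .no .no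

def c27t1756 : Tr4 :=
  .br 817 .no (.red [.t 960 2 4, .f 825 1 5, .t 689 1 3, .f 698 1 3] 104 136 [2, 2] [(103, 136,
  [2, 2, 4]), (104, 136, [2, 2]), (120, 104, [1])]) .no (.use 1752) (.use 1755) .no

def c27l63 : List Tr4 :=
  [c27t1739, c27t1740, c27t1741, c27t1742, c27t1743, c27t1744, c27t1745, c27t1746, c27t1747,
  c27t1748, c27t1749, c27t1750, c27t1751, c27t1752, c27t1753, c27t1754, c27t1755, c27t1756]

theorem c27k63 : chkLF ⟨4, 1, 0, true, -8⟩ false 7 c27N 1739 c27l63 = true := by decide +kernel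

def c27t1757 : Tr4 :=
  .br 697 .no (.hor [.f 569 1 5] []) (.red [.t 960 2 4, .f 825 1 5, .t 705 4 1] 104 136 [2, 2]
  [(104, 136, [2, 2]), (120, 104, [1])]) (.con 136 [2, 2, 2, 4]) .no (.con 136 [2, 2, 2, 4])

def c27t1758 : Tr4 :=
  .br 1098 (.br 1217 (.use 1692) .no (.red [.t 1089 3 2, .t 969 1 4, .f 1089 3 1] 153 136 [3, 1]
  [(153, 136, [3, 1])]) (.use 1748) (.red [.t 1097 4 1, .f 1088 1 5] 153 136 [3, 1] [(153, 136,
  [3, 1])]) .no) .no (.use 440) .no (.br 1225 (.hor [.f 1224 1 5] []) .no (.use 226) (.red [.t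
  1089 3 2, .t 969 1 4, .f 1089 3 1] 153 136 [3, 1] [(153, 136, [3, 1])]) (.br 1217 (.br 954 .no
  (.br 947 (.hor [.f 946 1 5] []) (.use 1749) (.use 1598) (.use 1750) .no .no) .no .no (.red [.t
  962 1 3, .t 1098 4 2, .t 1090 2 4, .f 953 3 5] 136 136 [] [(136, 136, [])]) .no) .no .no (.br
  954 .no (.br 947 (.hor [.f 946 1 5] []) (.use 1749) (.br 945 .no (.use 1627) .no (.br 1219 (.use
  1599) .no (.br 944 (.con 136 [4, 4]) (.br 833 .no (.use 1751) (.br 834 .no (.br 835 .no (.hor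
  [.f 706 1 5] []) (.red [.f 835 3 1] 121 136 [2, 3] [(121, 136, [2, 3])]) (.br 1218 (.br 938
  (.red [.f 938 1 3, .f 937 3 5] 134 136 [4, 4] [(134, 136, [4, 4])]) (.br 825 .no (.use 1539) .no
  (.dom 119 136 [2, 4]) .no (.br 699 .no (.br 698 .no (.hor [.f 570 1 5] []) .no (.use 1756) .no
  (.red [.t 960 2 4, .f 825 1 5, .f 697 5 1, .f 698 1 3] 104 136 [2, 2] [(104, 136, [2, 2]), (120,
  104, [1])])) (.red [.f 699 3 1, .f 706 1 5] 104 136 [2, 2] [(104, 136, [2, 2])]) (.br 698 .no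
  (.use 1757) .no (.use 1756) .no (.red [.t 960 2 4, .f 825 1 5, .f 697 5 1, .f 698 1 3] 104 136
  [2, 2] [(104, 136, [2, 2]), (120, 104, [1])])) .no (.red [.t 834 2 4] 104 136 [2, 2] [(104, 136,
  [2, 2])]))) .no (.use 1613) (.use 1610) .no) .no .no .no .no .no) .no .no) (.hor [.f 833 3 5]
  []) .no (.red [.t 962 1 3, .f 834 5 1, .t 833 3 1] 121 136 [2, 3] [(121, 136, [2, 3]), (137,
  121, [1])]) .no) (.use 1624) (.red [.t 953 3 2, .t 1073 3 2, .f 946 3 5, .t 1090 2 4, .f 826 3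
  1] 136 136 [] [(135, 119, [1]), (136, 136, [])]) .no) .no (.hor [.f 936 3 5] []) .no .no) (.con
  136 [1, 1]) .no (.red [.t 1082 1 3, .t 946 1 3, .f 1073 3 5, .t 961 4 1] 136 136 [] [(135, 119,
  [1]), (136, 136, []), (152, 136, [1])])) .no (.red [.t 1080 2 4, .t 1216 2 4, .f 1081 1 5, .t
  961 4 1] 136 136 [] [(135, 119, [1]), (136, 136, []), (152, 136, [1])])) (.use 1750) .no .no)
  .no .no (.red [.t 962 1 3, .t 1098 4 2, .t 1090 2 4, .f 953 3 5] 136 136 [] [(136, 136, [])])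
  .no) (.red [.f 1217 5 3, .f 1089 3 1] 153 136 [3, 1] [(153, 136, [3, 1])]) .no) .no) .no

def c27t1759 : Tr4 :=
  .br 947 (.hor [.f 946 1 5] []) (.con 136 [4, 4]) (.con 136 [4, 4]) (.con 136 [4, 4]) .no .no

def c27t1760 : Tr4 :=
  .br 826 (.hor [.f 826 1 5] []) (.con 136 [4, 2, 3, 1]) (.con 136 [4, 2, 3, 1]) (.con 136 [4, 2,
  3, 1]) .no (.con 136 [4, 2, 3, 1])

def c27t1761 : Tr4 :=
  .br 955 .no (.use 1760) .no (.red [.t 1082 1 3, .t 946 1 3, .f 1073 3 5, .t 961 4 1] 136 136 []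
  [(135, 119, [1]), (136, 136, []), (152, 136, [1])]) .no (.red [.t 1090 2 4, .f 953 3 5] 136 136
  [] [(136, 136, [])])

def c27t1762 : Tr4 :=
  .br 1218 (.hor [.f 1217 1 5] []) .no (.use 1597) .no (.use 1761) .no

def c27t1763 : Tr4 :=
  .br 955 .no (.use 1760) .no .no .no (.red [.t 1090 2 4, .f 953 3 5] 136 136 [] [(136, 136, [])])

def c27t1764 : Tr4 :=
  .br 944 (.use 1759) (.hor [.f 816 1 5] []) .no (.br 947 (.hor [.f 946 1 5] []) (.con 136 [4, 2,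
  4]) (.con 136 [4, 2, 4]) (.use 1763) .no .no) .no .no

def c27t1765 : Tr4 :=
  .br 1225 (.hor [.f 1224 1 5] []) .no (.use 226) .no (.red [.f 1217 5 3, .f 1089 3 1] 153 136 [3,
  1] [(153, 136, [3, 1])]) .no

def c27t1766 : Tr4 :=
  .br 968 .no (.red [.f 832 1 3] 121 136 [2, 3] [(121, 136, [2, 3])]) (.br 969 .no (.use 500)
  (.hor [.f 968 3 5] []) .no (.br 1224 (.use 1758) .no (.red [.f 968 3 1, .f 968 1 3, .f 1096 3 1,
  .f 1088 1 3] 153 136 [3, 1] [(153, 136, [3, 1]), (154, 136, [3, 3, 1])]) .no (.red [.t 1088 1 3,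
  .t 952 1 3, .f 961 1 5] 153 136 [3, 1] [(136, 136, []), (153, 136, [3, 1])]) .no) .no) .no (.br
  1217 (.use 1762) .no (.red [.f 1089 3 1, .f 1088 1 5] 153 136 [3, 1] [(153, 136, [3, 1])]) (.br
  1219 (.use 1599) .no (.br 945 .no (.use 1764) .no (.br 944 (.use 1759) (.br 955 .no (.use 1760)
  .no (.br 826 (.br 833 .no (.use 1751) (.red [.t 832 1 3] 121 136 [2, 3] [(121, 136, [2, 3])])
  (.use 1624) (.red [.t 953 3 2, .t 1073 3 2, .f 946 3 5, .t 1090 2 4, .f 826 3 1] 136 136 []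
  [(135, 119, [1]), (136, 136, [])]) .no) (.con 136 [4, 2, 3, 3]) (.con 136 [4, 2, 3, 3]) (.con
  136 [4, 2, 3, 3]) (.con 136 [4, 2, 3, 3]) (.con 136 [4, 2, 3, 3])) .no (.red [.t 1090 2 4, .f
  953 3 5] 136 136 [] [(136, 136, [])])) .no (.hor [.f 936 3 5] []) .no .no) .no (.red [.t 1080 2
  4, .t 1216 2 4, .f 1081 1 5, .t 961 4 1] 136 136 [] [(135, 136, [4]), (136, 136, []), (152, 136,
  [1])])) (.con 136 [1, 1]) .no (.use 1761)) (.br 1224 (.br 1098 (.red [.t 1097 4 1, .f 1088 1 5]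
  153 136 [3, 1] [(153, 136, [3, 1])]) (.br 955 .no (.use 1760) .no (.br 826 (.br 833 .no (.br 834
  .no (.hor [.f 705 1 5] []) (.use 428) .no (.br 1225 (.hor [.f 1224 1 5] []) .no (.use 1459) .no
  (.red [.f 1217 5 3, .f 1089 3 1] 153 136 [3, 1] [(153, 136, [3, 1])]) .no) .no) (.red [.t 832 1
  3] 121 136 [2, 3] [(121, 136, [2, 3])]) (.red [.f 825 3 1, .f 825 1 5, .t 1073 3 2, .f 946 3 5,
  .t 1090 2 4, .t 961 2 4] 136 136 [] [(135, 119, [1]), (136, 136, [])]) (.red [.t 953 3 2, .t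
  1073 3 2, .f 946 3 5, .t 1090 2 4, .f 826 3 1] 136 136 [] [(135, 119, [1]), (136, 136, [])])
  .no) (.con 136 [4, 2, 3, 3]) (.con 136 [4, 2, 3, 3]) (.con 136 [4, 2, 3, 3]) (.con 136 [4, 2, 3,
  3]) (.con 136 [4, 2, 3, 3])) .no (.red [.t 1090 2 4, .f 953 3 5] 136 136 [] [(136, 136, [])]))
  (.use 440) .no (.use 1765) .no) .no (.red [.f 1096 3 1, .f 1088 1 3, .f 1088 3 5] 153 136 [3, 1]
  [(153, 136, [3, 1]), (154, 136, [3, 3, 1])]) .no (.red [.t 1088 1 3, .t 952 1 3, .f 961 1 5] 153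
  136 [3, 1] [(136, 136, []), (153, 136, [3, 1])]) .no) .no) .no

def c27t1767 : Tr4 :=
  .br 698 .no (.hor [.f 569 1 5] []) (.use 1566) (.br 819 .no (.con 136 [2, 4, 4, 2, 3]) .no (.con
  136 [2, 4, 4, 2, 3]) .no (.red [.t 698 4 1, .f 689 1 5] 103 136 [2, 2, 4] [(103, 136, [2, 2,
  4])])) .no .no

def c27t1768 : Tr4 :=
  .br 1225 (.hor [.f 1224 1 5] []) .no (.use 1469) .no (.br 969 .no .no (.use 1336) .no .no .no)
  .no

def c27t1769 : Tr4 :=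
  .br 1225 (.hor [.f 1224 1 5] []) .no (.use 226) .no (.br 1072 (.br 1208 (.br 1345 (.br 1337
  (.red [.f 1337 1 3, .f 1209 3 1] 168 136 [1, 1] [(168, 136, [1, 1]), (184, 136, [1, 1, 1])]) .no
  .no (.br 1211 (.br 1201 .no .no .no (.use 1753) (.red [.t 962 1 3, .t 1081 4 1, .t 1098 4 2] 151
  136 [4, 1] [(151, 136, [4, 1])]) .no) .no .no (.dom 151 136 [4, 1]) .no .no) (.red [.t 1217 4 1,
  .f 1208 1 5] 168 136 [1, 1] [(168, 136, [1, 1])]) .no) .no (.red [.t 1345 3 2, .f 1224 1 5, .t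
  1088 1 3] 153 136 [3, 1] [(153, 136, [3, 1]), (169, 153, [1])]) (.red [.f 1209 3 1, .f 1208 1 5]
  168 136 [1, 1] [(168, 136, [1, 1])]) .no (.red [.t 1208 1 3, .t 1072 1 3, .f 1081 1 5] 168 136
  [1, 1] [(151, 136, [4, 1]), (168, 136, [1, 1])])) .no .no .no .no .no) .no .no (.use 1754) .no
  .no) .no

def c27t1770 : Tr4 :=
  .br 1098 (.use 1748) .no (.use 440) .no (.use 1769) .no

def c27t1771 : Tr4 :=
  .br 811 (.con 136 [2, 4, 2, 4, 1, 3]) (.con 136 [2, 4, 2, 4, 1, 4]) (.red [.t 937 3 2, .f 810 3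
  5, .t 954 2 4] 119 136 [2, 4] [(118, 102, [1]), (119, 136, [2, 4])]) (.con 136 [2, 4, 2, 4, 1,
  4]) .no .no

def c27t1772 : Tr4 :=
  .br 817 .no (.br 825 .no (.red [.f 689 1 3] 103 136 [2, 2, 4] [(103, 136, [2, 2, 4])]) .no .no
  .no .no) (.dom 119 136 [2, 4]) (.br 697 (.br 696 .no (.br 698 .no (.br 699 .no (.hor [.f 570 1
  5] []) (.hor [.f 699 3 1, .f 706 1 5] [(104, 136, [2, 2])]) (.con 136 [2, 2, 2, 4]) .no .no) .no
  (.use 1752) (.br 688 .no (.red [.f 560 1 3] 87 136 [2, 2, 2, 4] [(87, 136, [2, 2, 2, 4])]) .no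
  (.br 689 .no (.br 690 (.con 136 [2, 2, 2, 4, 4]) (.hor [.f 561 1 5] []) .no (.con 136 [2, 2, 2,
  4, 4]) (.con 136 [2, 2, 2, 4, 4]) .no) .no (.hor [.f 680 3 5] []) (.br 819 .no (.con 136 [2, 4,
  4, 2, 2]) .no (.con 136 [2, 4, 4, 2]) .no (.red [.t 834 2 4, .t 954 2 4, .t 825 2 4] 103 136 [2,
  2, 4] [(103, 136, [2, 2, 4]), (104, 136, [2, 2]), (119, 136, [2, 4])])) .no) (.red [.f 809 3 1,
  .f 816 1 5, .f 688 5 1, .f 689 1 3] 103 136 [2, 2, 4] [(103, 136, [2, 2, 4]), (118, 102, [1])])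
  .no) .no) (.br 699 .no (.br 698 .no (.hor [.f 570 1 5] []) .no (.use 1752) .no .no) (.hor [.f
  699 3 1, .f 706 1 5] [(104, 136, [2, 2])]) (.use 1558) .no (.hor [.f 696 3 1, .f 696 1 5, .t 834
  2 4] [])) (.red [.f 809 3 1, .f 816 1 5, .t 696 4 1] 103 136 [2, 2, 4] [(103, 136, [2, 2, 4]),
  (118, 102, [1])]) .no .no) (.con 136 [2, 4, 2, 3, 1, 4]) (.con 136 [2, 4, 2, 3, 1, 4]) (.con 136
  [2, 4, 2, 3, 1, 4]) (.con 136 [2, 4, 2, 3, 1, 4]) (.con 136 [2, 4, 2, 3, 1, 4])) (.br 699 .no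
  (.br 697 (.br 698 .no (.hor [.f 570 1 5] []) .no (.red [.t 697 1 4] 103 136 [2, 2, 4] [(103,
  136, [2, 2, 4])]) .no .no) (.con 136 [2, 4, 2, 3, 1, 4]) (.con 136 [2, 4, 2, 3, 1, 4]) (.con 136
  [2, 4, 2, 3, 1, 4]) (.con 136 [2, 4, 2, 3, 1, 4]) (.con 136 [2, 4, 2, 3, 1, 4])) (.hor [.f 699 3
  1, .f 706 1 5] [(104, 136, [2, 2])]) (.use 1771) .no (.br 697 (.br 705 .no (.br 704 .no (.hor
  [.f 576 1 5] []) (.use 924) (.hor [.f 696 3 1, .f 696 1 5, .t 834 2 4] []) .no .no) (.hor [.f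
  705 3 1, .f 705 1 5] [(105, 103, [3, 3])]) .no .no (.use 932)) (.con 136 [2, 4, 2, 3, 1, 4])
  (.con 136 [2, 4, 2, 3, 1, 4]) (.con 136 [2, 4, 2, 3, 1, 4]) .no (.con 136 [2, 4, 2, 3, 1, 4])))
  .no

def c27t1773 : Tr4 :=
  .br 969 .no (.br 1225 (.hor [.f 1224 1 5] []) .no (.br 1106 (.con 136 [3, 3, 1, 3]) (.red [.f
  962 1 3, .f 962 3 1, .f 970 1 3, .f 1098 3 5] 138 136 [3, 3] [(138, 136, [3, 3])]) (.use 1302)
  .no .no (.use 1306)) .no (.use 1307) .no) (.use 1657) .no .no .no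

def c27t1774 : Tr4 :=
  .br 696 .no (.con 136 [2, 2, 2, 4]) (.con 136 [2, 2, 2]) (.red [.f 809 3 1, .f 816 1 5, .t 696 4
  1] 103 136 [2, 2, 4] [(103, 136, [2, 2, 4]), (118, 119, [4])]) .no .no

def c27t1775 : Tr4 :=
  .br 819 .no (.red [.t 937 3 2, .f 682 3 1, .f 690 1 5, .t 954 2 4] 119 136 [2, 4] [(102, 103,
  [4]), (118, 119, [4]), (119, 136, [2, 4])]) .no (.red [.t 937 3 2, .f 810 3 5, .t 954 2 4] 119
  136 [2, 4] [(118, 102, [1]), (119, 136, [2, 4])]) .no .no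

def c27t1776 : Tr4 :=
  .br 811 (.con 136 [2, 4, 2, 4, 1, 3]) (.con 136 [2, 4, 2, 4, 1, 4]) (.red [.t 937 3 2, .f 810 3
  5, .t 954 2 4] 119 136 [2, 4] [(118, 102, [1]), (119, 136, [2, 4])]) (.con 136 [2, 4, 2, 4, 1,
  4]) .no .no

def c27t1777 : Tr4 :=
  .br 570 .no (.red [.f 442 1 3, .t 578 4 1, .f 569 1 5] 88 136 [2, 2, 2] [(72, 136, [2, 2, 2,
  2]), (88, 136, [2, 2, 2])]) .no (.br 690 .no .no .no (.use 1775) (.use 1776) (.red [.f 689 5 1,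
  .t 688 3 1] 103 136 [2, 2, 4] [(103, 136, [2, 2, 4])])) (.red [.f 570 5 1, .f 571 1 3] 88 136
  [2, 2, 2] [(88, 136, [2, 2, 2])]) .no

def c27t1778 : Tr4 :=
  .br 699 .no (.red [.f 571 1 3] 88 136 [2, 2, 2] [(88, 136, [2, 2, 2])]) .no (.use 689) .no (.br
  977 (.br 1106 (.br 696 .no (.use 763) (.con 136 [2, 2, 2]) (.br 697 .no (.br 578 .no (.use 1777)
  (.use 784) (.red [.t 578 4 1, .f 569 1 5] 88 136 [2, 2, 2] [(88, 136, [2, 2, 2])]) .no (.red [.f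
  577 5 1, .f 569 1 3] 88 136 [2, 2, 2] [(88, 136, [2, 2, 2])])) .no (.hor [.f 688 3 5] []) .no
  .no) (.br 690 .no (.br 578 .no (.br 714 .no (.use 694) (.use 793) .no .no (.red [.t 968 4 2, .f
  705 5 3, .f 706 3 1] 105 136 [2, 2, 3] [(105, 136, [2, 2, 3]), (121, 105, [1])])) (.use 792)
  (.red [.f 696 5 1, .t 578 4 1] 88 136 [2, 2, 2] [(88, 136, [2, 2, 2])]) .no (.red [.f 577 5 1,
  .f 578 1 5, .f 698 5 3, .f 699 3 1] 104 136 [2, 2] [(104, 136, [2, 2])])) .no (.use 1775) (.use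
  1776) (.red [.f 696 5 1, .f 689 5 1, .f 689 1 3] 103 136 [2, 2, 4] [(103, 136, [2, 2, 4])]))
  .no) .no (.br 578 .no (.br 696 .no (.use 763) (.con 136 [2, 2, 2]) (.br 697 .no (.use 1777) .no
  (.hor [.f 688 3 5] []) .no .no) (.br 690 .no (.br 976 .no (.use 696) (.br 577 .no (.hor [.f 449
  1 5] []) (.br 714 .no (.red [.t 585 4 1, .f 706 3 1] 105 136 [2, 2, 3] [(89, 136, [2, 2, 2, 3]),
  (105, 136, [2, 2, 3])]) (.br 840 .no (.use 728) (.br 985 (.red [.f 977 1 3, .f 976 3 5] 139 136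
  [3, 3, 3] [(139, 136, [3, 3, 3])]) (.use 785) (.br 704 .no (.use 731) (.use 747) .no .no .no)
  .no (.red [.t 1105 2 3, .f 976 3 5] 139 136 [3, 3, 3] [(139, 136, [3, 3, 3])]) .no) .no .no .no)
  .no .no (.red [.t 968 4 2, .f 705 5 3, .f 706 3 1] 105 136 [2, 2, 3] [(105, 136, [2, 2, 3]),
  (121, 105, [1])])) (.use 690) .no (.use 733)) .no .no .no) .no (.use 1775) (.use 1776) (.red [.f
  696 5 1, .f 689 5 1, .f 689 1 3] 103 136 [2, 2, 4] [(103, 136, [2, 2, 4])])) .no) (.use 741)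
  (.red [.t 578 4 1] 88 136 [2, 2, 2] [(88, 136, [2, 2, 2])]) .no (.red [.f 577 5 1, .f 578 1 5,
  .f 698 5 3, .f 699 3 1] 104 136 [2, 2] [(104, 136, [2, 2])])) .no .no .no) (.red [.f 841 1 3]
  122 136 [2, 3, 3] [(122, 136, [2, 3, 3])]) (.use 796) .no .no (.use 797))

def c27l64 : List Tr4 :=
  [c27t1757, c27t1758, c27t1759, c27t1760, c27t1761, c27t1762, c27t1763, c27t1764, c27t1765,
  c27t1766, c27t1767, c27t1768, c27t1769, c27t1770, c27t1771, c27t1772, c27t1773, c27t1774,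
  c27t1775, c27t1776, c27t1777, c27t1778]

theorem c27k64 : chkLF ⟨4, 1, 0, true, -8⟩ false 7 c27N 1757 c27l64 = true := by decide +kernel

def c27t1779 : Tr4 :=
  .br 832 .no (.use 1394) (.con 136 [2, 3, 2]) (.br 833 .no (.br 825 .no (.br 817 .no (.red [.f
  689 1 3] 103 136 [2, 2, 4] [(103, 136, [2, 2, 4])]) .no (.br 1225 (.hor [.f 1224 1 5] []) .no
  (.br 706 .no (.br 698 .no (.use 557) .no (.use 1752) (.use 559) .no) (.red [.f 706 3 1, .f 705 1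
  5] 105 136 [2, 2, 3] [(105, 136, [2, 2, 3])]) (.br 699 .no (.use 561) (.hor [.f 698 3 5] [])
  (.use 1774) .no .no) (.use 583) .no) .no .no .no) (.br 1225 (.hor [.f 1224 1 5] []) .no (.br 706
  .no (.use 560) (.red [.f 706 3 1, .f 705 1 5] 105 136 [2, 2, 3] [(105, 136, [2, 2, 3])]) (.br
  699 .no (.use 561) (.hor [.f 698 3 5] []) (.use 1771) .no .no) (.use 583) .no) .no .no .no) .no)
  .no (.dom 119 136 [2, 4]) .no .no) .no (.use 1624) .no .no) (.br 824 .no (.use 645) .no .no (.br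
  1225 (.hor [.f 1224 1 5] []) .no (.br 817 .no (.use 1576) .no (.br 843 .no (.br 707 .no (.br 706
  .no (.hor [.f 578 1 5] []) (.red [.f 706 3 1, .f 714 1 5] 105 136 [2, 2, 3] [(105, 136, [2, 2,
  3])]) (.use 688) .no (.br 699 .no (.red [.f 571 1 3] 88 136 [2, 2, 2] [(88, 136, [2, 2, 2])])
  .no (.use 689) .no (.br 696 .no (.use 763) (.con 136 [2, 2, 2]) (.red [.f 809 3 1, .f 816 1 5,
  .f 816 5 3, .f 688 3 1] 103 136 [2, 2, 4] [(103, 136, [2, 2, 4]), (118, 102, [1])]) (.br 819 .no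
  (.br 690 (.use 686) (.con 136 [2, 4, 4, 2, 3]) .no (.con 136 [2, 4, 4, 2, 3]) .no (.con 136 [2,
  4, 4, 2, 3])) .no (.con 136 [2, 4, 4, 2]) .no (.red [.f 696 5 1, .t 954 2 4] 119 136 [2, 4]
  [(119, 136, [2, 4])])) .no))) .no (.red [.f 699 3 1, .f 707 1 3] 105 136 [2, 2, 3] [(104, 136,
  [2, 2]), (105, 136, [2, 2, 3])]) .no (.use 757)) (.use 756) .no .no .no) (.br 843 .no (.br 707
  .no (.br 706 .no (.hor [.f 578 1 5] []) (.red [.f 706 3 1, .f 714 1 5] 105 136 [2, 2, 3] [(105,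
  136, [2, 2, 3])]) (.use 688) .no (.use 1778)) .no (.red [.f 699 3 1, .f 707 1 3] 105 136 [2, 2,
  3] [(104, 136, [2, 2]), (105, 136, [2, 2, 3])]) .no (.use 757)) (.use 756) .no .no .no) .no) .no
  .no .no) .no) .no

def c27t1780 : Tr4 :=
  .br 834 .no (.br 1218 (.br 938 (.red [.f 938 1 3, .f 937 3 5] 134 136 [4, 4] [(134, 136, [4,
  4])]) (.br 833 .no (.hor [.f 705 1 5] []) (.br 832 .no (.br 824 .no (.red [.f 696 1 3] 104 136
  [2, 2] [(104, 136, [2, 2])]) .no .no (.br 705 .no (.br 699 .no (.br 970 (.use 1768) (.use 1571)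
  (.use 1408) .no .no (.use 1770)) (.red [.f 699 3 1, .f 706 1 5] 104 136 [2, 2] [(104, 136, [2,
  2])]) (.br 1098 (.br 970 .no (.br 817 .no (.use 1568) .no (.use 1574) (.use 1771) .no) (.use
  1408) .no .no (.use 1748)) (.use 1768) (.use 440) .no (.use 1769) .no) .no (.red [.t 834 2 4]
  104 136 [2, 2] [(104, 136, [2, 2])])) (.hor [.f 705 3 1, .f 704 1 5] [(105, 104, [3])]) (.red
  [.t 704 1 4] 104 136 [2, 2] [(104, 136, [2, 2])]) .no .no) .no) (.hor [.f 832 3 5] []) (.use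
  1772) .no .no) (.use 1341) .no (.br 824 .no (.use 645) .no .no (.br 699 .no (.br 1099 .no .no
  (.br 1098 (.br 970 .no (.br 969 .no (.hor [.f 841 1 5] []) (.use 1573) .no .no .no) (.use 1575)
  .no .no (.use 1748)) (.use 1773) (.use 440) .no .no .no) .no .no (.use 1769)) (.red [.f 699 3 1,
  .f 706 1 5] 104 136 [2, 2] [(104, 136, [2, 2])]) (.use 681) .no (.red [.f 824 5 3, .t 834 2 4]
  104 136 [2, 2] [(104, 136, [2, 2])])) .no)) .no (.use 1613) (.use 1610) .no) .no (.hor [.f 1218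
  3 5] []) .no .no .no) (.br 1218 (.br 938 (.red [.f 938 1 3, .f 937 3 5] 134 136 [4, 4] [(134,
  136, [4, 4])]) (.br 1099 .no .no (.br 970 (.br 833 .no (.br 832 .no (.hor [.f 704 1 5] []) (.con
  136 [2, 2, 3]) (.br 969 .no (.br 825 .no (.br 1225 (.hor [.f 1224 1 5] []) .no (.use 1468) .no
  (.br 817 .no (.red [.f 689 1 3] 103 136 [2, 2, 4] [(103, 136, [2, 2, 4])]) .no (.br 1106 (.use
  465) (.red [.f 962 1 3, .f 962 3 1, .f 970 1 3, .f 1098 3 5] 138 136 [3, 3] [(138, 136, [3,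
  3])]) (.use 1305) .no .no (.br 977 .no (.red [.f 841 1 3] 122 136 [2, 3, 3] [(122, 136, [2, 3,
  3])]) (.use 1303) .no (.red [.f 977 5 1, .f 970 1 3] 138 136 [3, 3] [(138, 136, [3, 3])]) (.br
  707 .no (.br 706 .no (.hor [.f 578 1 5] []) (.red [.f 706 3 1, .f 705 1 5] 105 136 [2, 2, 3]
  [(105, 136, [2, 2, 3])]) (.br 699 .no (.red [.f 571 1 3] 88 136 [2, 2, 2] [(88, 136, [2, 2,
  2])]) .no (.use 1774) .no .no) .no .no) (.use 1467) (.br 843 .no (.red [.f 699 3 1, .f 707 1 3]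
  105 136 [2, 2, 3] [(104, 136, [2, 2]), (105, 136, [2, 2, 3])]) (.use 1466) .no .no .no) .no (.br
  843 .no (.red [.t 842 4 2, .f 705 1 5] 105 136 [2, 2, 3] [(105, 136, [2, 2, 3])]) (.use 1466)
  .no .no .no)))) (.use 1755) .no) .no) .no (.dom 119 136 [2, 4]) .no .no) (.use 1657) .no .no
  .no) .no .no) (.use 1768) (.use 1624) .no (.use 1773)) .no (.br 1098 (.br 969 .no (.use 1779)
  (.hor [.f 969 3 5] []) .no .no .no) .no (.use 440) .no .no .no) .no .no (.use 1770)) .no .no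
  (.use 1769)) .no (.use 1613) (.use 1610) .no) .no (.hor [.f 1218 3 5] []) .no .no .no) .no .no
  (.red [.t 953 3 2, .t 1073 3 2, .f 946 3 5, .t 1090 2 4, .f 826 3 1] 136 136 [] [(135, 119,
  [1]), (136, 136, [])])

def c27t1781 : Tr4 :=
  .br 1098 (.red [.t 1097 4 1, .f 1088 1 5] 153 136 [3, 1] [(153, 136, [3, 1])]) (.br 1225 (.hor
  [.f 1224 1 5] []) .no (.use 1469) .no (.red [.f 1217 5 3, .f 1089 3 1] 153 136 [3, 1] [(153,
  136, [3, 1])]) .no) (.use 440) .no (.use 1765) .no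

def c27t1782 : Tr4 :=
  .br 960 .no (.use 1766) (.br 1224 (.br 1217 (.use 1762) .no (.red [.f 1089 3 1, .f 1088 1 5] 153
  136 [3, 1] [(153, 136, [3, 1])]) (.br 945 .no (.use 1764) .no (.br 1219 (.use 1599) .no (.br 944
  (.use 1759) (.br 955 .no (.use 1760) .no (.br 826 (.br 827 .no (.br 1218 (.br 938 (.red [.f 938
  1 3, .f 937 3 5] 134 136 [4, 4] [(134, 136, [4, 4])]) (.br 817 .no (.br 825 .no (.red [.f 689 1
  3] 103 136 [2, 4, 2] [(103, 136, [2, 4, 2])]) (.use 1624) .no .no (.br 832 .no (.br 697 .no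
  (.use 1767) (.red [.t 704 1 4, .f 689 1 3] 103 136 [2, 2, 4] [(103, 136, [2, 2, 4]), (104, 136,
  [2, 2])]) .no (.use 1658) (.red [.f 696 5 1, .f 689 1 3] 103 136 [2, 2, 4] [(103, 136, [2, 2,
  4])])) (.br 833 .no (.br 697 .no (.use 1767) .no .no (.use 1658) (.red [.f 696 5 1, .f 689 1 3]
  103 136 [2, 2, 4] [(103, 136, [2, 2, 4])])) (.hor [.f 832 3 5] []) .no (.red [.t 953 3 2, .t
  1073 3 2, .f 946 3 5, .t 1090 2 4, .f 826 3 1] 136 136 [] [(135, 119, [1]), (136, 136, [])])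
  .no) .no (.br 697 .no (.use 1767) (.red [.f 824 5 3, .f 697 3 1, .f 689 1 3] 103 136 [2, 2, 4]
  [(103, 136, [2, 2, 4]), (104, 136, [2, 2])]) .no (.use 1658) (.red [.f 696 5 1, .f 689 1 3] 103
  136 [2, 2, 4] [(103, 136, [2, 2, 4])])) .no)) (.dom 119 136 [2, 4]) (.use 1660) (.use 1661) .no)
  .no (.use 1613) (.use 1610) .no) .no (.hor [.f 1218 3 5] []) .no .no .no) (.use 1780) (.red [.f
  819 3 1, .f 826 1 5] 119 136 [2, 4] [(119, 136, [2, 4])]) .no .no) (.con 136 [4, 2, 3, 1]) (.con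
  136 [4, 2, 3, 1]) (.con 136 [4, 2, 3, 1]) (.con 136 [4, 2, 3, 1]) (.con 136 [4, 2, 3, 1])) .no
  (.red [.t 1090 2 4, .f 953 3 5] 136 136 [] [(136, 136, [])])) .no (.hor [.f 936 3 5] []) .no
  .no) (.con 136 [1, 1]) .no (.use 1761)) .no (.red [.t 1080 2 4, .t 1216 2 4, .f 1081 1 5, .t 961
  4 1] 136 136 [] [(135, 136, [4]), (136, 136, []), (152, 136, [1])])) (.use 1781) .no) .no (.red
  [.f 1096 3 1, .f 1088 1 3, .f 960 3 1] 153 136 [3, 1] [(137, 136, [3]), (153, 136, [3, 1]),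
  (154, 136, [3, 3, 1])]) .no (.red [.t 1088 1 3, .t 952 1 3, .f 961 1 5] 153 136 [3, 1] [(136,
  136, []), (153, 136, [3, 1])]) .no) .no .no .no

def c27t1783 : Tr4 :=
  .br 1072 (.use 1587) (.use 1682) .no (.br 835 .no (.use 1696) (.red [.f 835 3 1] 121 136 [2, 3]
  [(121, 136, [2, 3])]) (.use 1687) .no (.use 1701)) .no .no

def c27t1784 : Tr4 :=
  .br 1337 (.br 1208 (.br 1345 (.red [.f 1337 1 3, .f 1209 3 1] 168 136 [1, 1] [(168, 136, [1,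
  1]), (184, 136, [1, 1, 1])]) .no (.red [.t 1345 3 2, .f 1224 1 5, .t 1088 1 3] 153 136 [3, 1]
  [(153, 136, [3, 1]), (169, 185, [2])]) .no .no (.red [.t 1208 1 3, .f 1217 1 5] 168 136 [1, 1]
  [(168, 136, [1, 1])])) .no .no (.use 1709) .no .no) .no (.red [.f 1209 3 1, .f 1217 1 5] 168 136
  [1, 1] [(168, 136, [1, 1])]) (.use 1706) (.red [.t 1217 4 1] 168 136 [1, 1] [(168, 136, [1,
  1])]) (.use 1707)

def c27t1785 : Tr4 :=
  .br 947 (.br 1218 (.br 1219 (.hor [.f 1218 1 5] []) .no (.br 1217 (.hor [.f 1217 1 5] []) .no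
  .no (.br 1072 (.use 1719) (.red [.f 944 1 3, .f 1072 3 5, .t 1216 2 4, .f 1081 1 5, .t 961 4 1]
  136 136 [] [(135, 136, [4]), (136, 136, []), (152, 136, [1])]) .no (.br 1211 (.use 1705) .no .no
  (.br 1202 (.use 1784) .no .no (.red [.f 1066 3 1, .f 1074 1 3] 151 136 [4, 1] [(150, 136, [4, 4,
  1]), (151, 136, [4, 1])]) .no (.red [.t 962 1 3, .t 1081 4 1, .t 1098 4 2] 151 136 [4, 1] [(151,
  136, [4, 1])])) .no .no) .no .no) .no .no) (.red [.f 1083 3 1, .f 1082 1 5, .t 946 3 1, .f 954 1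
  3] 136 136 [] [(135, 136, [4]), (136, 136, []), (152, 136, [1])]) .no .no) .no .no .no (.red [.t
  1082 1 3, .t 946 3 1, .f 954 1 3, .f 1082 3 1] 136 136 [] [(135, 136, [4]), (136, 136, [])])
  (.use 1765)) (.use 1684) .no (.use 1736) .no .no

def c27t1786 : Tr4 :=
  .br 946 .no (.con 136 [4, 2, 3, 1]) (.use 1785) (.con 136 [4, 2, 3, 1]) (.con 136 [4, 2, 3, 1])
  (.con 136 [4, 2, 3, 1])

def c27t1787 : Tr4 :=
  .br 1225 (.use 1711) .no (.use 1713) .no .no .no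

def c27t1788 : Tr4 :=
  .br 1218 (.br 1211 (.use 1705) .no .no (.br 1072 (.dom 151 136 [4, 1]) .no .no (.use 1787) .no
  .no) .no .no) .no .no .no .no .no

def c27t1789 : Tr4 :=
  .br 954 .no (.hor [.f 826 1 5] []) .no (.br 947 (.use 1788) (.use 1684) .no (.use 1716) .no .no)
  .no .no

def c27t1790 : Tr4 :=
  .br 947 (.use 1788) (.use 1700) .no (.use 1716) .no .no

def c27t1791 : Tr4 :=
  .br 826 (.hor [.f 826 1 5] []) (.br 945 .no (.hor [.f 816 1 5] []) .no (.br 946 .no (.con 136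
  [4, 2, 3, 1]) (.use 1790) (.con 136 [4, 2, 3, 1]) (.con 136 [4, 2, 3, 1]) .no) (.con 136 [4, 2,
  3, 1]) .no) .no (.use 1744) .no (.br 946 .no (.con 136 [4, 2, 3, 1]) (.use 1790) (.con 136 [4,
  2, 3, 1]) (.con 136 [4, 2, 3, 1]) (.con 136 [4, 2, 3, 1]))

def c27t1792 : Tr4 :=
  .br 1218 (.use 1719) .no .no .no .no .no

def c27t1793 : Tr4 :=
  .br 954 .no (.hor [.f 826 1 5] []) .no (.br 947 (.use 1792) (.use 1684) .no (.use 1716) .no .no)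
  .no .no

def c27t1794 : Tr4 :=
  .br 947 (.use 1792) (.use 1700) .no (.use 1716) .no .no

def c27t1795 : Tr4 :=
  .br 826 (.hor [.f 826 1 5] []) (.br 946 .no (.con 136 [4, 2, 3, 1]) (.use 1794) (.con 136 [4, 2,
  3, 1]) (.con 136 [4, 2, 3, 1]) .no) .no (.use 1744) .no (.br 946 .no (.con 136 [4, 2, 3, 1])
  (.use 1794) (.con 136 [4, 2, 3, 1]) (.con 136 [4, 2, 3, 1]) .no)

def c27t1796 : Tr4 :=
  .br 1218 (.br 1211 (.use 1705) .no .no (.use 1787) .no .no) .no .no .no .no .no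

def c27t1797 : Tr4 :=
  .br 954 .no (.use 1695) .no (.br 947 (.use 1796) (.use 1684) (.use 1745) (.use 1679) .no .no)
  (.red [.t 1090 2 4, .f 953 3 5] 136 136 [] [(136, 136, [])]) .no

def c27t1798 : Tr4 :=
  .br 954 .no (.use 1699) .no (.br 947 (.use 1796) (.use 1700) (.use 1745) (.use 1679) .no .no)
  (.red [.t 1090 2 4, .f 953 3 5] 136 136 [] [(136, 136, [])]) .no

def c27l65 : List Tr4 :=
  [c27t1779, c27t1780, c27t1781, c27t1782, c27t1783, c27t1784, c27t1785, c27t1786, c27t1787,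
  c27t1788, c27t1789, c27t1790, c27t1791, c27t1792, c27t1793, c27t1794, c27t1795, c27t1796,
  c27t1797, c27t1798]

theorem c27k65 : chkLF ⟨4, 1, 0, true, -8⟩ false 7 c27N 1779 c27l65 = true := by decide +kernel

def c27t1799 : Tr4 :=
  .br 835 .no (.use 1797) (.red [.f 835 3 1] 121 136 [2, 3] [(121, 136, [2, 3])]) (.use 1687) .no
  (.use 1798)

def c27t1800 : Tr4 :=
  .br 947 (.br 835 .no (.use 1693) (.red [.f 835 3 1] 121 136 [2, 3] [(121, 136, [2, 3])]) (.con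
  136 [2, 4, 1, 3]) .no (.use 1697)) (.use 1749) (.use 1746) (.use 1750) .no (.br 835 .no (.use
  1694) (.red [.f 835 3 1] 121 136 [2, 3] [(121, 136, [2, 3])]) (.con 136 [2, 4, 1, 3]) .no (.use
  1698))

def c27t1801 : Tr4 :=
  .br 978 .no (.br 979 .no (.hor [.f 850 1 5] []) (.con 136 [2, 3, 3, 3]) .no .no .no) (.hor [.f
  977 3 5] []) .no (.red [.f 962 1 3, .f 962 3 1, .t 1098 2 3] 138 136 [3, 3] [(138, 136, [3,
  3])]) .no

def c27t1802 : Tr4 :=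
  .br 1225 (.hor [.f 1224 1 5] []) .no (.br 842 .no (.use 484) (.use 508) .no (.br 1099 (.con 136
  [3, 3, 1]) .no (.br 1106 (.con 136 [3, 3, 1, 3]) (.red [.f 962 1 3, .f 962 3 1, .f 970 1 3, .f
  1098 3 5] 138 136 [3, 3] [(138, 136, [3, 3])]) (.use 1302) .no .no (.br 977 .no (.br 841 .no
  (.use 503) .no .no .no (.red [.f 840 5 1, .f 841 1 3] 122 136 [2, 3, 3] [(122, 136, [2, 3,
  3])])) (.use 1801) .no (.use 355) (.red [.f 968 5 3, .t 969 3 1] 138 136 [3, 3] [(138, 136, [3,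
  3])]))) .no .no .no) (.red [.f 833 5 3, .t 832 1 3] 121 136 [2, 3] [(121, 136, [2, 3])])) .no
  (.red [.f 1217 5 3, .f 1089 3 1] 153 136 [3, 1] [(153, 136, [3, 1])]) .no

def c27t1803 : Tr4 :=
  .br 1211 (.use 1705) .no .no (.br 1202 (.use 1740) .no .no (.red [.f 1066 3 1, .f 1074 1 3] 151
  136 [4, 1] [(150, 136, [4, 4, 1]), (151, 136, [4, 1])]) .no (.red [.t 1081 4 1] 151 136 [4, 1]
  [(151, 136, [4, 1])])) .no .no

def c27t1804 : Tr4 :=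
  .br 1211 (.use 1705) .no .no (.br 1099 .no .no (.br 1202 (.br 1225 (.use 1710) .no (.br 1106
  (.con 136 [3, 3, 1, 3]) (.red [.f 962 1 3, .f 962 3 1, .f 970 1 3, .f 1098 3 5] 138 136 [3, 3]
  [(138, 136, [3, 3])]) (.use 1302) .no .no (.br 977 .no (.use 503) (.use 1801) .no (.use 355)
  (.red [.f 968 5 3, .t 969 3 1] 138 136 [3, 3] [(138, 136, [3, 3])]))) .no (.use 1784) .no) .no
  .no (.red [.f 1066 3 1, .f 1074 1 3] 151 136 [4, 1] [(150, 136, [4, 4, 1]), (151, 136, [4, 1])])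
  .no (.red [.t 1081 4 1] 151 136 [4, 1] [(151, 136, [4, 1])])) .no .no .no) .no .no

def c27t1805 : Tr4 :=
  .br 977 .no .no (.br 1099 .no .no (.use 1801) .no .no .no) .no (.red [.f 977 5 1, .f 970 1 3]
  138 136 [3, 3] [(138, 136, [3, 3])]) (.red [.f 968 5 3, .t 969 3 1] 138 136 [3, 3] [(138, 136,
  [3, 3])])

def c27t1806 : Tr4 :=
  .br 1105 (.red [.f 962 1 3, .f 1089 3 5, .f 1097 5 1, .f 1097 1 3] 154 136 [3, 3, 1] [(137, 136,
  [3]), (154, 136, [3, 3, 1])]) (.con 136 [3, 3, 3]) (.hor [.f 1105 3 5] []) .no .no .no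

def c27t1807 : Tr4 :=
  .br 707 .no (.hor [.f 578 1 5] []) (.con 136 [2, 3, 2, 2]) (.br 843 .no (.red [.t 698 1 3, .f
  707 1 3, .f 835 3 1, .f 827 1 3, .f 826 3 5] 105 136 [2, 3, 2] [(104, 136, [2, 2]), (105, 136,
  [2, 3, 2]), (120, 136, [2]), (121, 136, [2, 3])]) (.con 136 [2, 3, 2, 3]) .no .no .no) .no .no

def c27t1808 : Tr4 :=
  .br 840 .no (.use 1807) (.red [.t 848 4 1] 122 136 [2, 3, 3] [(122, 136, [2, 3, 3])]) .no .no
  .no

def c27t1809 : Tr4 :=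
  .br 833 .no (.br 841 .no (.red [.f 705 1 3] 105 136 [2, 2, 3] [(105, 136, [2, 2, 3])]) (.use
  450) .no (.br 1099 (.con 136 [3, 3, 1]) .no (.br 706 .no (.br 1106 (.con 136 [3, 3, 1, 3]) (.red
  [.f 962 1 3, .f 962 3 1, .f 970 1 3, .f 1098 3 5] 138 136 [3, 3] [(138, 136, [3, 3])]) (.use
  1302) .no .no (.br 977 .no (.use 1808) (.use 1801) .no (.use 355) (.red [.f 968 5 3, .t 969 3 1]
  138 136 [3, 3] [(138, 136, [3, 3])]))) (.red [.t 705 1 3, .t 832 1 3] 105 136 [2, 2, 3] [(105,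
  136, [2, 2, 3]), (121, 136, [2, 3])]) .no (.use 462) .no) .no .no .no) (.red [.f 840 5 1, .f 832
  1 3] 121 136 [2, 3] [(121, 136, [2, 3])])) (.red [.t 832 1 3] 121 136 [2, 3] [(121, 136, [2,
  3])]) (.br 841 .no (.br 842 .no (.hor [.f 713 1 5] []) (.use 505) .no (.red [.f 834 5 3, .f 835
  3 1, .f 827 1 3] 121 136 [2, 3] [(120, 136, [2]), (121, 136, [2, 3])]) .no) (.use 450) .no (.red
  [.f 962 1 3, .f 825 3 1, .t 961 2 3, .t 832 1 3, .t 970 2 4] 121 136 [2, 3] [(120, 104, [1]),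
  (121, 136, [2, 3]), (137, 121, [1])]) (.red [.f 840 5 1, .f 832 1 3] 121 136 [2, 3] [(121, 136,
  [2, 3])])) .no .no

def c27t1810 : Tr4 :=
  .br 1225 (.hor [.f 1224 1 5] []) .no (.use 1809) .no (.red [.f 1217 5 3, .f 1089 3 1] 153 136
  [3, 1] [(153, 136, [3, 1])]) .no

def c27t1811 : Tr4 :=
  .br 1218 (.hor [.f 1217 1 5] []) .no (.use 1597) .no .no .no

def c27t1812 : Tr4 :=
  .br 1106 (.con 136 [3, 3, 1, 3]) (.red [.f 962 1 3, .f 962 3 1, .f 970 1 3, .f 1098 3 5] 138 136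
  [3, 3] [(138, 136, [3, 3])]) (.use 1302) .no .no (.br 977 .no (.br 978 .no (.hor [.f 849 1 5]
  []) (.br 840 .no (.br 976 .no (.hor [.f 848 1 5] []) (.br 848 .no (.red [.f 712 1 3] 106 136 [2,
  3, 3, 2] [(106, 136, [2, 3, 3, 2])]) (.br 979 .no (.hor [.f 848 3 1, .f 848 1 5] [(123, 122,
  [3])]) (.use 1455) .no .no .no) .no .no .no) .no .no .no) (.red [.t 848 4 1] 122 136 [2, 3, 3]
  [(122, 136, [2, 3, 3])]) .no .no .no) .no (.red [.t 1098 2 3, .t 977 2 4] 122 136 [2, 3, 3]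
  [(122, 136, [2, 3, 3]), (138, 136, [3, 3])]) .no) (.use 1801) .no (.use 355) (.red [.f 968 5 3,
  .t 969 3 1] 138 136 [3, 3] [(138, 136, [3, 3])]))

def c27t1813 : Tr4 :=
  .br 1225 (.hor [.f 1224 1 5] []) .no (.use 1812) .no (.red [.f 1217 5 3, .f 1089 3 1] 153 136
  [3, 1] [(153, 136, [3, 1])]) .no

def c27t1814 : Tr4 :=
  .br 1202 (.use 1784) .no .no (.red [.f 1066 3 1, .f 1074 1 3] 151 136 [4, 1] [(150, 136, [4, 1,
  4]), (151, 136, [4, 1])]) .no (.red [.t 1081 4 1] 151 136 [4, 1] [(151, 136, [4, 1])])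

def c27t1815 : Tr4 :=
  .br 1211 (.use 1705) .no .no (.br 1072 (.dom 151 136 [4, 1]) .no .no (.use 1814) .no .no) .no
  .no

def c27t1816 : Tr4 :=
  .br 1219 (.use 1724) .no (.use 1811) (.red [.f 1083 3 1, .f 1082 1 5, .t 946 3 1, .f 954 1 3]
  136 136 [] [(135, 136, [4]), (136, 136, []), (152, 136, [1])]) .no (.red [.t 1082 1 3, .t 946 3
  1, .f 954 1 3, .f 1082 3 1] 136 136 [] [(135, 136, [4]), (136, 136, [])])

def c27t1817 : Tr4 :=
  .br 826 .no (.br 1219 (.br 1217 (.use 1724) .no (.red [.f 1089 3 1, .f 1088 1 5] 153 136 [3, 1]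
  [(153, 136, [3, 1])]) (.use 1599) (.use 1810) .no) .no (.br 1225 (.hor [.f 1224 1 5] []) .no
  (.use 1809) (.red [.f 1089 3 1, .f 1088 1 5] 153 136 [3, 1] [(153, 136, [3, 1])]) (.br 1218 (.br
  1217 (.hor [.f 1217 1 5] []) .no .no (.br 1072 (.use 1719) (.red [.f 944 1 3, .f 1072 3 5, .t
  1216 2 4, .f 1081 1 5, .t 961 4 1] 136 136 [] [(135, 136, [4]), (136, 136, []), (152, 136,
  [1])]) .no (.br 841 .no (.use 1804) (.use 450) (.red [.t 832 1 3] 121 136 [2, 3] [(121, 136, [2,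
  3])]) (.br 833 .no (.br 706 .no (.br 1099 .no .no (.br 1106 (.use 465) (.red [.f 962 1 3, .f 962
  3 1, .f 970 1 3, .f 1098 3 5] 138 136 [3, 3] [(138, 136, [3, 3])]) (.use 1806) .no .no (.br 977
  .no (.use 1808) (.use 1801) .no (.use 464) (.red [.f 968 5 3, .t 969 3 1] 138 136 [3, 3] [(138,
  136, [3, 3])]))) .no .no .no) (.red [.t 705 1 3, .t 832 1 3] 105 136 [2, 2, 3] [(105, 136, [2,
  2, 3]), (121, 136, [2, 3])]) .no (.br 1099 .no .no (.use 466) .no .no .no) .no) .no (.red [.f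
  962 1 3, .f 825 3 1, .t 961 2 3, .t 832 1 3, .t 970 2 4] 121 136 [2, 3] [(120, 104, [1]), (121,
  136, [2, 3]), (137, 121, [1])]) .no .no) (.red [.f 840 5 1, .f 832 1 3] 121 136 [2, 3] [(121,
  136, [2, 3])])) .no .no) .no .no) .no .no .no .no (.use 1810)) .no) (.red [.f 1083 3 1, .f 1082
  1 5, .t 946 3 1, .f 954 1 3] 136 136 [] [(135, 136, [4]), (136, 136, []), (152, 136, [1])]) .no
  (.red [.t 1082 1 3, .t 946 3 1, .f 954 1 3, .f 1082 3 1] 136 136 [] [(135, 136, [4]), (136, 136,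
  [])])) .no (.use 1744) .no (.br 1099 (.con 136 [3, 3, 1]) .no (.br 833 .no (.br 841 .no (.red
  [.f 705 1 3] 105 136 [2, 2, 3] [(105, 136, [2, 2, 3])]) (.use 450) .no (.br 945 .no (.hor [.t
  945 2 3, .f 826 1 5] [(119, 121, [4, 4])]) .no (.br 1219 (.br 1217 (.use 1724) .no (.red [.f
  1089 3 1, .f 1088 1 5] 153 136 [3, 1] [(153, 136, [3, 1])]) (.use 1599) (.br 1225 (.hor [.f 1224
  1 5] []) .no (.br 1227 (.red [.f 1219 1 3] 169 136 [3, 1, 1] [(169, 136, [3, 1, 1])]) .no (.con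
  136 [3, 3, 1, 1]) .no .no (.con 136 [3, 3, 1, 1])) .no (.red [.f 1217 5 3, .f 1089 3 1] 153 136
  [3, 1] [(153, 136, [3, 1])]) .no) .no) .no (.br 944 (.br 1217 (.use 1811) .no (.red [.f 1089 3
  1, .f 1088 1 5] 153 136 [3, 1] [(153, 136, [3, 1])]) (.red [.f 944 1 3, .f 1072 3 5, .t 1216 2
  4, .f 1081 1 5, .t 961 4 1] 136 136 [] [(135, 136, [4]), (136, 136, []), (152, 136, [1])]) (.use
  1813) .no) (.br 1217 (.use 1811) .no (.red [.f 1089 3 1, .f 1088 1 5] 153 136 [3, 1] [(153, 136,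
  [3, 1])]) (.br 1218 (.br 1225 (.use 1712) .no (.use 1812) .no (.use 1815) .no) .no (.hor [.f
  1218 3 5] []) .no .no .no) (.use 1813) .no) .no (.hor [.f 936 3 5] []) .no .no) (.red [.f 1083 3
  1, .f 1082 1 5, .t 946 3 1, .f 954 1 3] 136 136 [] [(135, 136, [4]), (136, 136, []), (152, 136,
  [1])]) .no (.red [.t 1082 1 3, .t 946 3 1, .f 954 1 3, .f 1082 3 1] 136 136 [] [(135, 136, [4]),
  (136, 136, [])])) .no (.br 1217 (.use 1816) .no (.red [.t 1080 2 4, .f 1089 3 1] 153 136 [3, 1]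
  [(135, 136, [4]), (153, 136, [3, 1])]) (.red [.t 1080 2 4, .t 1216 2 4, .f 1081 1 5, .t 961 4 1]
  136 136 [] [(135, 136, [4]), (136, 136, []), (152, 136, [1])]) (.use 1813) .no)) (.red [.f 840 5
  1, .f 832 1 3] 121 136 [2, 3] [(121, 136, [2, 3])])) (.red [.t 832 1 3] 121 136 [2, 3] [(121,
  136, [2, 3])]) .no .no .no) .no .no .no)

def c27t1818 : Tr4 :=
  .br 835 .no (.br 947 (.br 827 (.br 834 .no (.hor [.f 706 1 5] []) (.use 514) (.red [.f 962 1 3,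
  .f 962 3 5, .t 826 3 1, .f 955 3 1, .t 1090 3 2] 136 136 [] [(120, 136, [2]), (136, 136, [])])
  .no (.br 1219 (.br 1217 (.use 1724) .no (.red [.f 1089 3 1, .f 1088 1 5] 153 136 [3, 1] [(153,
  136, [3, 1])]) (.use 1599) (.use 1802) .no) .no (.br 1218 (.br 1217 (.hor [.f 1217 1 5] []) .no
  (.red [.f 1089 3 1, .f 1088 1 5] 153 136 [3, 1] [(153, 136, [3, 1])]) (.br 1072 (.use 1719)
  (.red [.f 944 1 3, .f 1072 3 5, .t 1216 2 4, .f 1081 1 5, .t 961 4 1] 136 136 [] [(135, 136,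
  [4]), (136, 136, []), (152, 136, [1])]) .no (.br 841 .no (.use 1804) (.br 1211 (.use 1705) .no
  .no (.br 1225 (.use 1711) .no (.br 1106 (.con 136 [3, 3, 1, 1]) (.red [.f 970 1 3] 138 136 [3,
  3] [(138, 136, [3, 3])]) (.use 1302) .no (.con 136 [3, 3, 1]) (.use 1805)) .no (.br 1099 .no .no
  (.br 1106 (.use 465) (.red [.f 962 1 3, .f 962 3 1, .f 970 1 3, .f 1098 3 5] 138 136 [3, 3]
  [(138, 136, [3, 3])]) (.use 1806) .no .no (.use 1805)) .no .no .no) .no) .no .no) .no (.red [.f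
  833 5 3, .t 832 1 3] 121 136 [2, 3] [(121, 136, [2, 3])]) (.red [.f 840 5 1, .f 832 1 3] 121 136
  [2, 3] [(121, 136, [2, 3])])) .no .no) .no .no) .no (.hor [.f 1218 3 5] []) .no .no (.use 1802))
  (.red [.f 1083 3 1, .f 1082 1 5, .t 946 3 1, .f 954 1 3] 136 136 [] [(135, 136, [4]), (136, 136,
  []), (152, 136, [1])]) .no (.red [.t 1082 1 3, .t 946 3 1, .f 954 1 3, .f 1082 3 1] 136 136 []
  [(135, 136, [4]), (136, 136, [])]))) (.con 136 [2, 4, 1, 3]) .no (.con 136 [2, 4, 1, 3]) .no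
  (.con 136 [2, 4, 1, 3])) (.use 1684) (.use 1746) (.use 1736) .no .no) (.red [.f 835 3 1] 121 136
  [2, 3] [(121, 136, [2, 3])]) (.use 1686) .no (.br 947 (.br 827 (.use 1817) (.con 136 [2, 4, 1,
  3]) .no (.con 136 [2, 4, 1, 3]) .no (.con 136 [2, 4, 1, 3])) (.use 1700) (.use 1746) (.use 1736)
  .no .no)

def c27t1819 : Tr4 :=
  .br 1225 (.hor [.f 1224 1 5] []) .no (.use 226) (.red [.f 1089 3 1, .f 1088 1 5] 153 136 [3, 1]
  [(153, 136, [3, 1])]) (.use 1786) .no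

def c27l66 : List Tr4 :=
  [c27t1799, c27t1800, c27t1801, c27t1802, c27t1803, c27t1804, c27t1805, c27t1806, c27t1807,
  c27t1808, c27t1809, c27t1810, c27t1811, c27t1812, c27t1813, c27t1814, c27t1815, c27t1816,
  c27t1817, c27t1818, c27t1819]

theorem c27k66 : chkLF ⟨4, 1, 0, true, -8⟩ false 7 c27N 1799 c27l66 = true := by decide +kernel

def c27t1820 : Tr4 :=
  .br 968 .no (.red [.f 832 1 3] 121 136 [2, 3] [(121, 136, [2, 3])]) (.br 969 .no (.use 500)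
  (.hor [.f 968 3 5] []) .no (.br 1098 (.br 1217 (.use 1783) .no (.red [.t 1089 3 2, .t 969 1 4,
  .f 1089 3 1] 153 136 [3, 1] [(153, 136, [3, 1])]) (.use 1748) (.red [.t 1097 4 1, .f 1088 1 5]
  153 136 [3, 1] [(153, 136, [3, 1])]) .no) .no (.use 440) .no (.br 955 .no (.br 835 .no (.br 834
  .no (.hor [.f 706 1 5] []) (.use 514) (.red [.t 962 1 3, .t 826 3 1, .f 955 3 1, .f 963 1 3] 136
  136 [] [(120, 136, [2]), (136, 136, [])]) .no (.br 826 (.hor [.f 826 1 5] []) (.br 1225 (.hor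
  [.f 1224 1 5] []) .no (.use 226) (.red [.t 1089 3 2, .t 969 1 4, .f 1089 3 1] 153 136 [3, 1]
  [(153, 136, [3, 1])]) (.use 1786) .no) .no (.use 1744) .no (.red [.t 962 1 3, .f 825 5 3, .t 826
  3 1, .f 955 3 1, .f 963 1 3] 136 136 [] [(120, 136, [2]), (136, 136, [])]))) (.red [.t 1089 3 2,
  .f 835 3 1, .f 827 1 3, .t 969 1 4] 121 136 [2, 3] [(120, 136, [2]), (121, 136, [2, 3])]) .no
  .no (.red [.t 962 1 3, .f 834 5 1, .f 827 1 3, .f 955 3 1, .f 963 1 3] 136 136 [] [(120, 136,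
  [2]), (136, 136, [])])) .no (.use 1746) .no (.red [.t 962 1 3, .t 1098 4 2, .t 1090 2 4, .f 953
  3 5] 136 136 [] [(136, 136, [])])) .no) .no) .no (.br 1098 (.br 1217 (.use 1783) .no (.red [.f
  1089 3 1, .f 1088 1 5] 153 136 [3, 1] [(153, 136, [3, 1])]) (.br 1219 (.use 1599) .no (.br 944
  (.red [.f 944 1 3, .f 1072 3 5, .t 1216 2 4, .f 1081 1 5, .t 961 4 1] 136 136 [] [(135, 136,
  [4]), (136, 136, []), (152, 136, [1])]) (.br 955 .no (.br 835 .no (.use 1789) (.red [.f 835 3 1,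
  .f 827 1 3, .f 955 3 1, .f 962 1 5] 121 136 [2, 3] [(120, 136, [2]), (121, 136, [2, 3]), (136,
  136, [])]) .no .no (.use 1791)) .no (.use 1746) .no (.red [.t 1090 2 4, .f 953 3 5] 136 136 []
  [(136, 136, [])])) .no (.br 945 .no (.br 1072 (.br 955 .no (.br 835 .no (.use 1793) (.red [.f
  835 3 1, .f 827 1 3, .f 955 3 1, .f 962 1 5] 121 136 [2, 3] [(120, 136, [2]), (121, 136, [2,
  3]), (136, 136, [])]) .no .no (.use 1795)) .no (.use 1669) .no (.red [.t 1090 2 4, .f 953 3 5]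
  136 136 [] [(136, 136, [])])) .no .no (.use 1799) .no .no) .no (.hor [.f 936 3 5] []) (.br 1072
  (.br 954 .no (.br 947 (.use 1792) (.use 1749) (.use 1669) (.use 1750) .no .no) .no .no (.red [.t
  1090 2 4, .f 953 3 5] 136 136 [] [(136, 136, [])]) .no) .no .no (.use 1799) .no .no) .no) (.red
  [.t 1080 2 4, .t 1216 2 4, .f 1081 1 5, .t 961 4 1] 136 136 [] [(135, 136, [4]), (136, 136, []),
  (152, 136, [1])]) .no) (.con 136 [1, 1]) .no (.red [.t 1082 1 3, .f 1209 3 5, .t 1097 4 1] 153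
  136 [3, 1] [(152, 136, [1]), (153, 136, [3, 1])])) (.red [.t 1097 4 1, .f 1088 1 5] 153 136 [3,
  1] [(153, 136, [3, 1])]) .no) (.br 954 .no (.use 1800) .no (.use 1818) (.red [.t 1090 2 4, .f
  953 3 5] 136 136 [] [(136, 136, [])]) .no) (.use 440) .no (.br 955 .no (.br 835 .no (.br 834 .no
  (.hor [.f 706 1 5] []) (.use 514) (.red [.t 962 1 3, .t 826 3 1, .f 955 3 1, .f 963 1 3] 136 136
  [] [(120, 136, [2]), (136, 136, [])]) .no (.br 826 (.use 1800) (.use 1819) .no (.use 1744) .no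
  (.red [.t 962 1 3, .f 825 5 3, .t 826 3 1, .f 955 3 1, .f 963 1 3] 136 136 [] [(120, 136, [2]),
  (136, 136, [])]))) (.red [.f 835 3 1, .f 827 1 3, .f 955 3 1, .f 962 1 5] 121 136 [2, 3] [(120,
  136, [2]), (121, 136, [2, 3]), (136, 136, [])]) .no .no (.red [.t 962 1 3, .f 834 5 1, .f 827 1
  3, .f 955 3 1, .f 963 1 3] 136 136 [] [(120, 136, [2]), (136, 136, [])])) .no (.use 1746) .no
  (.red [.t 962 1 3, .t 1098 4 2, .t 1090 2 4, .f 953 3 5] 136 136 [] [(136, 136, [])])) .no) .no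

def c27t1821 : Tr4 :=
  .br 947 (.use 1816) (.use 1684) .no (.use 1678) .no .no

def c27t1822 : Tr4 :=
  .br 946 .no (.con 136 [4, 2, 3, 1]) (.use 1821) (.con 136 [4, 2, 3, 1]) (.con 136 [4, 2, 3, 1])
  (.con 136 [4, 2, 3, 1])

def c27t1823 : Tr4 :=
  .br 947 (.use 1816) (.use 1684) .no (.use 1679) .no .no

def c27t1824 : Tr4 :=
  .br 946 .no (.con 136 [4, 2, 3, 1]) (.use 1823) (.con 136 [4, 2, 3, 1]) (.con 136 [4, 2, 3, 1])
  (.con 136 [4, 2, 3, 1])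

def c27t1825 : Tr4 :=
  .br 947 (.use 1816) (.use 1700) .no (.use 1736) .no .no

def c27t1826 : Tr4 :=
  .br 955 .no (.br 835 .no (.br 1072 (.use 1587) (.br 1098 (.use 1681) (.br 826 (.hor [.f 826 1 5]
  []) (.br 946 .no (.con 136 [4, 2, 3, 1]) (.use 1821) (.con 136 [4, 2, 3, 1]) (.con 136 [4, 2, 3,
  1]) (.con 136 [4, 2, 3, 1])) (.red [.f 962 1 3, .f 962 3 5, .t 826 3 1, .f 955 3 1, .t 1090 3 2]
  136 136 [] [(120, 136, [2]), (136, 136, [])]) (.use 1744) .no (.use 1822)) (.use 440) .no (.br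
  826 (.hor [.f 826 1 5] []) (.use 1819) (.red [.t 962 1 3, .t 826 3 1, .f 955 3 1, .f 963 1 3]
  136 136 [] [(120, 136, [2]), (136, 136, [])]) (.use 1744) .no (.use 1822)) .no) .no (.br 1098
  (.use 1696) (.br 826 (.use 1695) (.br 946 .no (.con 136 [4, 2, 3, 1]) (.use 1823) (.con 136 [4,
  2, 3, 1]) (.con 136 [4, 2, 3, 1]) (.con 136 [4, 2, 3, 1])) (.red [.f 962 1 3, .f 962 3 5, .t 826
  3 1, .f 955 3 1, .t 1090 3 2] 136 136 [] [(120, 136, [2]), (136, 136, [])]) (.use 1744) .no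
  (.use 1824)) (.use 440) .no (.br 826 (.use 1695) (.use 1819) (.red [.t 962 1 3, .t 826 3 1, .f
  955 3 1, .f 963 1 3] 136 136 [] [(120, 136, [2]), (136, 136, [])]) (.use 1744) .no (.use 1824))
  .no) .no .no) (.red [.f 835 3 1, .f 827 1 3, .f 955 3 1, .f 962 1 5] 136 136 [] [(120, 136,
  [2]), (121, 136, [2, 3]), (136, 136, [])]) .no .no (.br 826 (.hor [.f 826 1 5] []) (.br 946 .no
  (.con 136 [4, 2, 3, 1]) (.use 1825) (.con 136 [4, 2, 3, 1]) (.con 136 [4, 2, 3, 1]) (.con 136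
  [4, 2, 3, 1])) .no (.use 1744) .no (.br 946 .no (.con 136 [4, 2, 3, 1]) (.use 1825) (.con 136
  [4, 2, 3, 1]) (.con 136 [4, 2, 3, 1]) (.con 136 [4, 2, 3, 1])))) .no (.use 1746) .no (.red [.t
  1090 2 4, .f 953 3 5] 136 136 [] [(136, 136, [])])

def c27t1827 : Tr4 :=
  .br 947 (.br 1225 (.use 1712) .no (.use 1469) .no (.use 1815) .no) (.use 1684) .no (.use 1716)
  .no .no

def c27t1828 : Tr4 :=
  .br 826 (.hor [.f 826 1 5] []) (.use 1819) (.red [.t 962 1 3, .t 826 3 1, .f 955 3 1, .f 963 1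
  3] 136 136 [] [(120, 136, [2]), (136, 136, [])]) (.use 1744) .no (.br 945 .no (.hor [.f 816 1 5]
  []) .no (.br 946 .no (.con 136 [4, 2, 3, 1]) (.br 1225 (.use 1739) .no (.use 226) .no (.use
  1785) .no) (.con 136 [4, 2, 3, 1]) (.con 136 [4, 2, 3, 1]) .no) (.con 136 [4, 2, 3, 1]) .no)

def c27t1829 : Tr4 :=
  .br 947 (.red [.t 1082 1 3, .t 946 3 1, .f 954 1 3, .f 1082 3 1] 136 136 [] [(135, 136, [4]),
  (136, 136, [])]) (.use 1684) .no (.use 1716) .no .no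

def c27t1830 : Tr4 :=
  .br 946 .no (.con 136 [4, 2, 3, 1]) (.use 1829) (.con 136 [4, 2, 3, 1]) (.con 136 [4, 2, 3, 1])
  (.con 136 [4, 2, 3, 1])

def c27t1831 : Tr4 :=
  .br 826 (.hor [.f 826 1 5] []) (.br 946 .no (.con 136 [4, 2, 3, 1]) (.use 1829) (.con 136 [4, 2,
  3, 1]) (.con 136 [4, 2, 3, 1]) (.con 136 [4, 2, 3, 1])) (.red [.f 962 1 3, .f 962 3 5, .t 826 3
  1, .f 955 3 1, .t 1090 3 2] 136 136 [] [(120, 136, [2]), (136, 136, [])]) (.use 1744) .no (.use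
  1830)

def c27t1832 : Tr4 :=
  .br 1218 (.use 1719) .no (.hor [.f 1218 3 5] []) .no .no .no

def c27t1833 : Tr4 :=
  .br 947 (.use 1832) (.use 1684) .no (.use 1716) .no .no

def c27t1834 : Tr4 :=
  .br 946 .no (.con 136 [4, 2, 3, 1]) (.use 1833) (.con 136 [4, 2, 3, 1]) (.con 136 [4, 2, 3, 1])
  .no

def c27t1835 : Tr4 :=
  .br 946 .no (.con 136 [4, 2, 3, 1]) (.hor [.t 945 2 3, .f 826 1 5] [(119, 136, [2, 4])]) (.con
  136 [4, 2, 3, 1]) (.con 136 [4, 2, 3, 1]) .no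

def c27t1836 : Tr4 :=
  .br 1072 (.br 1098 (.use 1793) (.br 826 (.hor [.f 826 1 5] []) (.br 946 .no (.con 136 [4, 2, 3,
  1]) (.use 1833) (.con 136 [4, 2, 3, 1]) (.con 136 [4, 2, 3, 1]) .no) (.red [.f 962 1 3, .f 962 3
  5, .t 826 3 1, .f 955 3 1, .t 1090 3 2] 136 136 [] [(120, 136, [2]), (136, 136, [])]) (.use
  1744) .no (.use 1834)) (.use 440) .no (.br 826 (.hor [.f 826 1 5] []) (.use 1819) (.red [.t 962
  1 3, .t 826 3 1, .f 955 3 1, .f 963 1 3] 136 136 [] [(120, 136, [2]), (136, 136, [])]) (.use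
  1744) .no (.use 1834)) .no) .no .no (.br 1098 (.use 1797) (.br 826 (.use 1695) (.br 946 .no
  (.con 136 [4, 2, 3, 1]) (.br 947 (.br 1218 (.br 834 .no (.hor [.f 706 1 5] []) (.br 825 .no
  (.hor [.f 697 1 5] []) (.br 832 .no (.br 706 .no (.br 705 .no (.hor [.f 577 1 5] []) (.con 136
  [2, 2, 2, 3]) (.red [.f 697 3 1, .f 697 1 5] 104 136 [2, 2] [(104, 136, [2, 2])]) .no .no) (.red
  [.f 706 3 1, .f 706 1 5] 105 136 [2, 2, 3] [(105, 136, [2, 2, 3])]) .no .no (.red [.t 825 3 2,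
  .t 945 2 3, .f 826 1 5] 104 136 [2, 2] [(104, 136, [2, 2]), (119, 118, [3])])) (.con 136 [2, 2,
  3]) (.hor [.f 824 3 5] []) .no .no) .no .no (.use 1803)) .no .no (.br 824 .no (.use 1725) (.br
  697 (.hor [.f 697 1 5] []) (.con 136 [2, 4, 2, 3, 1, 1]) (.con 136 [2, 4, 2, 3, 1, 1]) (.con 136
  [2, 4, 2, 3, 1, 1]) .no (.con 136 [2, 4, 2, 3, 1, 1])) (.use 1737) (.use 1803) .no)) .no (.hor
  [.f 1218 3 5] []) .no .no .no) (.use 1684) .no (.use 1679) .no .no) (.con 136 [4, 2, 3, 1])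
  (.con 136 [4, 2, 3, 1]) .no) (.red [.f 962 1 3, .f 962 3 5, .t 826 3 1, .f 955 3 1, .t 1090 3 2]
  136 136 [] [(120, 136, [2]), (136, 136, [])]) (.use 1744) .no (.use 1835)) (.use 440) .no (.br
  826 (.use 1695) (.use 1819) (.red [.t 962 1 3, .t 826 3 1, .f 955 3 1, .f 963 1 3] 136 136 []
  [(120, 136, [2]), (136, 136, [])]) (.use 1744) .no (.use 1835)) .no) .no .no

def c27t1837 : Tr4 :=
  .br 826 (.hor [.f 826 1 5] []) (.con 136 [4, 2, 3, 1]) (.con 136 [4, 2, 3, 1]) (.con 136 [4, 2,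
  3, 1]) .no (.con 136 [4, 2, 3, 1])

def c27t1838 : Tr4 :=
  .br 947 (.br 1219 (.use 1599) .no (.br 1072 (.use 1832) (.red [.f 944 1 3, .f 1072 3 5, .t 1216
  2 4, .f 1081 1 5, .t 961 4 1] 136 136 [] [(135, 136, [4]), (136, 136, []), (152, 136, [1])]) .no
  (.br 1218 (.br 1225 (.use 1738) .no (.use 1468) .no (.br 1211 (.use 1705) .no .no (.use 1814)
  .no .no) .no) .no (.hor [.f 1218 3 5] []) .no .no .no) .no .no) (.con 136 [1, 1]) .no (.red [.t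
  1082 1 3, .t 946 3 1, .f 954 1 3, .f 1082 3 1] 136 136 [] [(135, 136, [4]), (136, 136, [])]))
  (.use 1700) .no (.use 1716) .no .no

def c27l67 : List Tr4 :=
  [c27t1820, c27t1821, c27t1822, c27t1823, c27t1824, c27t1825, c27t1826, c27t1827, c27t1828,
  c27t1829, c27t1830, c27t1831, c27t1832, c27t1833, c27t1834, c27t1835, c27t1836, c27t1837,
  c27t1838]

theorem c27k67 : chkLF ⟨4, 1, 0, true, -8⟩ false 7 c27N 1820 c27l67 = true := by decide +kernel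

def c27t1839 : Tr4 :=
  .br 835 .no (.br 944 (.red [.f 944 1 3, .f 1072 3 5, .t 1216 2 4, .f 1081 1 5, .t 961 4 1] 136
  136 [] [(135, 136, [4]), (136, 136, []), (152, 136, [1])]) (.br 1219 (.use 1599) .no (.br 1218
  (.br 1098 (.use 1789) (.br 826 (.hor [.f 826 1 5] []) (.br 945 .no (.hor [.f 816 1 5] []) .no
  (.br 946 .no (.con 136 [4, 2, 3, 1]) (.use 1827) (.con 136 [4, 2, 3, 1]) (.con 136 [4, 2, 3, 1])
  .no) (.con 136 [4, 2, 3, 1]) .no) (.red [.f 962 1 3, .f 962 3 5, .t 826 3 1, .f 955 3 1, .t 1090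
  3 2] 136 136 [] [(120, 136, [2]), (136, 136, [])]) (.use 1744) .no (.br 946 .no (.con 136 [4, 2,
  3, 1]) (.use 1827) (.con 136 [4, 2, 3, 1]) (.con 136 [4, 2, 3, 1]) (.con 136 [4, 2, 3, 1])))
  (.use 440) .no (.use 1828) .no) .no (.hor [.f 1218 3 5] []) .no .no .no) (.con 136 [1, 1]) .no
  (.br 1098 (.red [.t 1082 1 3, .f 1209 3 5, .t 1097 4 1] 153 136 [3, 1] [(152, 136, [1]), (153,
  136, [3, 1])]) (.use 1831) (.use 440) .no (.use 1828) .no)) .no (.br 945 .no (.br 1219 (.use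
  1599) .no (.use 1836) (.con 136 [1, 1]) .no (.br 1098 (.red [.t 1082 1 3, .f 1209 3 5, .t 1097 4
  1] 153 136 [3, 1] [(152, 136, [1]), (153, 136, [3, 1])]) (.use 1831) (.use 440) .no (.br 826
  (.hor [.f 826 1 5] []) (.use 1819) (.red [.t 962 1 3, .t 826 3 1, .f 955 3 1, .f 963 1 3] 136
  136 [] [(120, 136, [2]), (136, 136, [])]) (.use 1744) .no (.use 1830)) .no)) .no (.hor [.f 936 3
  5] []) (.use 1837) .no) (.red [.t 1080 2 4, .t 1216 2 4, .f 1081 1 5, .t 961 4 1] 136 136 []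
  [(135, 136, [4]), (136, 136, []), (152, 136, [1])]) .no) (.red [.f 835 3 1, .f 827 1 3, .f 955 3
  1, .f 962 1 5] 136 136 [] [(120, 136, [2]), (121, 136, [2, 3]), (136, 136, [])]) .no .no (.br
  1098 (.br 1219 (.use 1599) .no (.br 944 (.red [.f 944 1 3, .f 1072 3 5, .t 1216 2 4, .f 1081 1
  5, .t 961 4 1] 136 136 [] [(135, 136, [4]), (136, 136, []), (152, 136, [1])]) (.use 1791) .no
  (.br 945 .no (.br 1072 (.use 1795) .no .no (.use 1798) .no .no) .no (.hor [.f 936 3 5] []) (.use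
  1837) .no) (.red [.t 1080 2 4, .t 1216 2 4, .f 1081 1 5, .t 961 4 1] 136 136 [] [(135, 136,
  [4]), (136, 136, []), (152, 136, [1])]) .no) (.con 136 [1, 1]) .no (.red [.t 1082 1 3, .f 1209 3
  5, .t 1097 4 1] 153 136 [3, 1] [(152, 136, [1]), (153, 136, [3, 1])])) (.br 1099 (.con 136 [3,
  3, 1]) .no (.br 826 (.hor [.f 826 1 5] []) (.br 946 .no (.con 136 [4, 2, 3, 1]) (.use 1838)
  (.con 136 [4, 2, 3, 1]) (.con 136 [4, 2, 3, 1]) (.con 136 [4, 2, 3, 1])) .no (.use 1744) .no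
  (.br 946 .no (.con 136 [4, 2, 3, 1]) (.use 1838) (.con 136 [4, 2, 3, 1]) (.con 136 [4, 2, 3, 1])
  (.con 136 [4, 2, 3, 1]))) .no .no .no) (.use 440) .no (.red [.t 962 1 3, .f 834 5 1, .f 827 1 3,
  .f 955 3 1, .f 963 1 3] 136 136 [] [(120, 136, [2]), (136, 136, [])]) .no)

def c27t1840 : Tr4 :=
  .br 944 .no (.hor [.f 816 1 5] []) .no (.con 136 [2, 4, 4]) .no .no

def c27t1841 : Tr4 :=
  .br 1203 (.red [.f 1203 1 3] 167 136 [4, 1, 1] [(167, 136, [4, 1, 1])]) (.con 136 [4, 4, 1, 1])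
  .no (.con 136 [4, 4, 1, 1]) .no (.use 1604)

def c27t1842 : Tr4 :=
  .br 1346 (.br 1345 (.hor [.f 1345 1 5] []) .no .no .no .no (.red [.t 1208 3 1, .t 1072 1 3, .f
  1081 1 5] 151 136 [4, 1] [(151, 136, [4, 1]), (168, 167, [3])])) .no (.hor [.f 1218 3 1, .f 1218
  1 5] [(169, 136, [1, 3, 1])]) (.hor [.f 1211 1 3, .f 1338 3 5] [(168, 167, [3])]) .no (.hor [.t
  1225 1 4, .f 1218 1 5] [(169, 136, [1, 3, 1])])

def c27t1843 : Tr4 :=
  .br 945 .no (.use 1651) .no (.use 1652) .no (.br 1208 (.hor [.f 1208 1 5] []) .no (.red [.t 1080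
  2 4, .t 1216 4 2, .f 953 3 1] 136 136 [] [(135, 119, [1]), (136, 136, []), (152, 136, [1])])
  (.br 817 .no (.use 1643) .no (.use 1647) (.red [.t 1080 2 4, .f 945 1 5, .f 817 5 1, .f 818 1 3]
  119 136 [2, 4] [(119, 136, [2, 4]), (135, 119, [1])]) (.red [.t 1080 2 4, .f 816 5 3, .f 945 1
  5, .t 825 4 1] 119 136 [2, 4] [(119, 136, [2, 4]), (135, 119, [1])])) .no .no)

def c27t1844 : Tr4 :=
  .br 1211 (.use 1841) .no .no (.dom 151 136 [4, 1]) .no .no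

def c27t1845 : Tr4 :=
  .br 1203 (.con 136 [4, 4, 1, 3]) (.br 1202 (.con 136 [4, 4, 1, 1]) .no .no (.red [.t 1202 4 2]
  150 136 [4, 4, 1] [(150, 136, [4, 4, 1])]) .no .no) .no (.con 136 [4, 4, 1, 3]) .no (.con 136
  [4, 4, 1, 3])

def c27t1846 : Tr4 :=
  .br 1211 (.use 1845) .no .no (.con 136 [4, 4, 1, 3]) .no .no

def c27t1847 : Tr4 :=
  .br 1066 (.use 1844) .no .no (.red [.f 930 3 1, .f 938 1 3] 134 136 [4, 4] [(133, 136, [4, 4,
  4]), (134, 136, [4, 4])]) (.use 1846) (.red [.t 945 4 1] 134 136 [4, 4] [(134, 136, [4, 4])])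

def c27t1848 : Tr4 :=
  .br 1075 (.br 1067 (.red [.f 1067 1 3] 150 136 [4, 4, 1] [(150, 136, [4, 4, 1])]) .no .no (.use
  1609) .no .no) .no .no (.red [.t 1074 2 4, .f 937 3 5] 134 136 [4, 4] [(134, 136, [4, 4])]) .no
  .no

def c27t1849 : Tr4 :=
  .br 1219 (.br 1072 (.br 1208 (.hor [.f 1208 1 5] []) .no (.br 945 .no (.use 1840) .no (.br 1211
  (.br 944 .no (.br 1201 (.red [.f 1201 1 3] 167 136 [4, 1, 1] [(167, 136, [4, 1, 1])]) .no .no
  (.br 1066 (.use 1841) (.red [.f 938 1 3, .f 937 3 5] 134 136 [4, 4] [(134, 136, [4, 4])]) .no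
  (.br 938 .no (.use 1611) .no (.red [.f 930 3 1, .f 938 1 3] 134 136 [4, 4] [(133, 136, [4, 4,
  4]), (134, 136, [4, 4])]) (.use 1848) .no) (.use 1845) (.red [.t 945 4 1] 134 136 [4, 4] [(134,
  136, [4, 4])])) (.red [.t 1081 4 1, .f 1072 1 5] 151 136 [4, 1] [(151, 136, [4, 1])]) .no) .no
  (.hor [.f 936 3 5] []) .no .no) .no .no (.dom 151 136 [4, 1]) .no .no) .no (.red [.t 1080 2 4,
  .t 1216 4 2, .f 953 3 1] 136 136 [] [(135, 119, [1]), (136, 136, []), (152, 136, [1])])) .no .no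
  .no) (.con 136 [4, 4]) .no (.use 1843) .no .no) .no (.br 1072 (.br 1208 (.hor [.f 1208 1 5] [])
  .no (.br 945 .no (.use 1840) .no (.br 944 .no (.br 1201 (.red [.f 1201 1 3, .f 1073 3 1] 151 136
  [4, 1] [(151, 136, [4, 1]), (167, 136, [4, 1, 1])]) .no .no (.br 938 (.red [.f 938 1 3, .f 937 3
  5] 134 136 [4, 4] [(134, 136, [4, 4])]) (.use 1611) .no (.use 1847) (.br 1066 (.use 1844) .no
  .no (.use 1848) (.use 1846) (.red [.t 945 4 1] 134 136 [4, 4] [(134, 136, [4, 4])])) .no) (.red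
  [.t 1081 4 1, .f 1072 1 5] 151 136 [4, 1] [(151, 136, [4, 1])]) .no) .no (.hor [.f 936 3 5] [])
  .no .no) .no (.red [.t 1080 2 4, .t 1216 4 2, .f 953 3 1] 136 136 [] [(135, 119, [1]), (136,
  136, []), (152, 136, [1])])) .no .no .no) (.con 136 [4, 4]) .no (.use 1843) .no .no) (.red [.f
  1083 3 1, .f 1082 1 5, .t 946 1 3, .f 1073 3 5, .t 961 4 1] 136 136 [] [(135, 119, [1]), (136,
  136, []), (152, 136, [1])]) .no (.red [.t 1082 1 3, .t 946 1 3, .f 1073 3 5, .t 961 4 1] 136 136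
  [] [(135, 119, [1]), (136, 136, []), (152, 136, [1])])

def c27t1850 : Tr4 :=
  .br 1066 (.br 1075 (.br 1067 (.hor [.f 1066 1 5] []) .no .no (.use 1608) .no .no) .no .no (.red
  [.t 1074 2 4, .f 937 3 5] 134 136 [4, 4] [(134, 136, [4, 4])]) .no .no) .no .no (.use 1848)
  (.red [.f 938 5 1, .f 938 1 3] 134 136 [4, 4] [(134, 136, [4, 4])]) (.red [.t 945 4 1] 134 136
  [4, 4] [(134, 136, [4, 4])])

def c27t1851 : Tr4 :=
  .br 825 .no (.use 5) .no (.red [.t 1080 2 4, .f 945 1 5, .t 825 4 1] 119 136 [2, 4] [(119, 136,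
  [2, 4]), (135, 119, [1])]) .no .no

def c27t1852 : Tr4 :=
  .br 944 (.con 136 [4, 4]) .no .no (.use 1621) (.use 1320) .no

def c27t1853 : Tr4 :=
  .br 826 (.br 827 .no (.br 833 .no (.br 824 .no (.use 1650) .no (.use 533) (.use 1849) .no) (.br
  834 .no (.br 824 .no (.br 1219 (.br 944 (.con 136 [4, 4]) (.br 945 .no (.hor [.f 816 1 5] [])
  .no (.br 938 (.red [.f 938 1 3, .f 937 3 5] 134 136 [4, 4] [(134, 136, [4, 4])]) (.use 1637) .no
  (.br 1072 (.br 1211 (.br 1201 (.red [.f 1201 1 3] 167 136 [4, 1, 1] [(167, 136, [4, 1, 1])]) .no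
  .no (.br 1066 (.use 1841) .no .no (.red [.f 930 3 1, .f 938 1 3] 134 136 [4, 4] [(133, 136, [4,
  4, 4]), (134, 136, [4, 4])]) (.use 1845) (.red [.t 945 4 1] 134 136 [4, 4] [(134, 136, [4,
  4])])) (.red [.t 1081 4 1, .f 1072 1 5] 151 136 [4, 1] [(151, 136, [4, 1])]) .no) .no .no (.dom
  151 136 [4, 1]) .no .no) .no .no (.use 1602) .no .no) (.use 1850) .no) .no .no) .no (.use 1621)
  (.use 1851) .no) .no (.br 944 (.con 136 [4, 4]) (.br 945 .no (.hor [.f 816 1 5] []) .no (.br 938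
  (.red [.f 938 1 3, .f 937 3 5] 134 136 [4, 4] [(134, 136, [4, 4])]) (.use 1637) .no (.br 1072
  (.br 1201 (.red [.f 1201 1 3, .f 1073 3 1] 151 136 [4, 1] [(151, 136, [4, 1]), (167, 136, [4, 1,
  1])]) .no .no (.use 1847) (.red [.t 1081 4 1, .f 1072 1 5] 151 136 [4, 1] [(151, 136, [4, 1])])
  .no) .no .no (.use 1602) .no .no) (.use 1850) .no) .no .no) .no (.use 1621) (.use 1851) .no)
  (.red [.f 1083 3 1, .f 1082 1 5, .t 946 1 3, .f 1073 3 5, .t 961 4 1] 136 136 [] [(135, 119,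
  [1]), (136, 136, []), (152, 136, [1])]) .no (.red [.t 1082 1 3, .t 946 1 3, .f 1073 3 5, .t 961
  4 1] 136 136 [] [(135, 119, [1]), (136, 136, []), (152, 136, [1])])) .no (.use 1852) (.use 1849)
  .no) (.hor [.f 833 3 5] []) .no .no .no) (.red [.f 825 3 1, .f 825 1 5, .t 1073 3 2, .f 946 3 5,
  .t 1090 2 4, .t 961 2 4] 136 136 [] [(135, 119, [1]), (136, 136, [])]) (.red [.t 953 3 2, .t
  1073 3 2, .f 946 3 5, .t 834 4 1, .f 955 3 1] 136 136 [] [(135, 119, [1]), (136, 136, [])]) .no)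
  .no (.red [.f 819 3 1, .f 826 1 5] 119 136 [2, 4] [(119, 136, [2, 4])]) .no .no) (.con 136 [4,
  2, 3, 1]) (.con 136 [4, 2, 3, 1]) (.con 136 [4, 2, 3, 1]) (.con 136 [4, 2, 3, 1]) (.con 136 [4,
  2, 3, 1])

def c27t1854 : Tr4 :=
  .br 1201 (.use 1666) .no .no (.use 1668) (.red [.t 1081 4 1, .f 1072 1 5] 151 136 [4, 1] [(151,
  136, [4, 1])]) .no

def c27t1855 : Tr4 :=
  .br 1072 (.use 1854) (.use 1589) .no (.use 1745) .no .no

def c27t1856 : Tr4 :=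
  .br 827 .no (.br 826 (.br 945 .no (.use 1622) .no (.use 1590) (.br 825 .no (.use 5) (.red [.f
  825 3 1, .f 825 1 5, .f 945 5 3, .f 946 3 5, .t 1090 2 4, .t 961 2 4] 136 136 [] [(136, 136,
  [])]) (.red [.t 825 4 1] 119 136 [2, 4] [(119, 136, [2, 4])]) .no (.br 817 .no (.br 1208 (.hor
  [.f 1208 1 5] []) .no (.br 944 (.red [.f 944 1 3, .f 1072 3 5, .t 1216 4 2, .f 953 3 1] 136 136
  [] [(135, 119, [1]), (136, 136, []), (152, 136, [1])]) (.br 833 .no (.use 1673) (.br 834 .no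
  (.use 1616) (.hor [.f 833 3 5] []) .no .no .no) .no (.red [.t 953 3 2, .f 945 5 3, .t 944 2 3,
  .f 825 1 3] 119 136 [2, 4] [(119, 136, [2, 4])]) .no) .no (.use 1620) .no .no) (.con 136 [4, 1,
  1]) .no .no) .no (.use 1632) (.red [.f 817 5 1, .f 818 1 3] 119 136 [2, 4] [(119, 136, [2, 4])])
  (.red [.f 816 5 3, .t 825 4 1] 119 136 [2, 4] [(119, 136, [2, 4])]))) (.br 1208 (.hor [.f 1208 1
  5] []) .no (.red [.t 1080 2 4, .t 1216 4 2, .f 953 3 1] 136 136 [] [(135, 119, [1]), (136, 136,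
  []), (152, 136, [1])]) (.con 136 [4, 1, 1]) .no .no)) (.hor [.f 698 1 5] []) (.use 1721) (.br
  1208 (.hor [.f 1208 1 5] []) .no (.br 945 .no (.br 946 .no .no (.hor [.f 946 3 5] []) (.con 136
  [4, 2, 2]) .no .no) .no (.br 946 .no .no (.hor [.f 946 3 5] []) (.con 136 [4, 2, 3, 1]) .no .no)
  (.con 136 [4, 2, 3, 1]) (.red [.t 1080 2 4, .t 1216 4 2, .f 953 3 1] 136 136 [] [(135, 136,
  [4]), (136, 136, []), (152, 136, [1])])) (.con 136 [4, 1, 1]) .no .no) .no (.br 1208 (.hor [.f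
  1208 1 5] []) .no (.br 945 .no (.br 946 .no (.con 136 [4, 2, 3, 1]) (.hor [.f 946 3 5] []) (.con
  136 [4, 2, 3, 1]) .no .no) .no (.br 946 .no (.con 136 [4, 2, 3, 1]) (.hor [.f 946 3 5] []) (.con
  136 [4, 2, 3, 1]) .no .no) (.con 136 [4, 2, 3, 1]) (.red [.t 1080 2 4, .t 1216 4 2, .f 953 3 1]
  136 136 [] [(135, 136, [4]), (136, 136, []), (152, 136, [1])])) (.con 136 [4, 1, 1]) .no .no))
  .no (.br 946 .no (.red [.f 819 3 1, .f 827 1 3] 119 136 [4, 2] [(119, 136, [4, 2]), (120, 136,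
  [2])]) (.hor [.f 946 3 5] []) (.red [.f 819 3 1, .f 827 1 3] 119 136 [4, 2] [(119, 136, [4, 2]),
  (120, 136, [2])]) .no (.red [.f 819 3 1, .f 827 1 3] 119 136 [4, 2] [(119, 136, [4, 2]), (120,
  136, [2])])) .no (.br 946 .no (.con 136 [4, 2, 3, 1]) (.hor [.f 946 3 5] []) (.con 136 [4, 2, 3,
  1]) .no (.con 136 [4, 2, 3, 1]))

def c27t1857 : Tr4 :=
  .br 1211 (.br 1203 (.red [.f 1203 1 3] 167 136 [4, 1, 1] [(167, 136, [4, 1, 1])]) .no .no (.use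
  1592) .no (.red [.f 1074 5 1, .f 1074 1 3] 151 136 [4, 1] [(151, 136, [4, 1])])) .no (.red [.f
  1083 3 1, .f 1082 1 5, .f 1074 5 3, .f 1073 3 5, .t 961 4 1] 136 136 [] [(136, 136, []), (152,
  136, [1])]) (.red [.t 1210 2 4, .f 1073 3 5] 151 136 [4, 1] [(151, 136, [4, 1])]) .no .no

def c27t1858 : Tr4 :=
  .br 945 .no (.use 1651) .no (.use 1652) .no (.br 817 .no (.use 1645) .no (.use 1648) (.red [.t
  1080 2 4, .f 945 1 5, .f 817 5 1, .f 818 1 3] 119 136 [2, 4] [(119, 136, [2, 4]), (135, 119,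
  [1])]) (.red [.t 1080 2 4, .f 816 5 3, .f 945 1 5, .t 825 4 1] 119 136 [2, 4] [(119, 136, [2,
  4]), (135, 119, [1])]))

def c27t1859 : Tr4 :=
  .br 1211 (.use 1653) .no (.red [.f 1083 3 1, .f 1082 1 5, .f 1074 5 3, .f 1073 3 5, .t 961 4 1]
  136 136 [] [(136, 136, []), (152, 136, [1])]) (.red [.t 1210 2 4, .f 1073 3 5] 151 136 [4, 1]
  [(151, 136, [4, 1])]) .no .no

def c27t1860 : Tr4 :=
  .br 1202 (.con 136 [4, 1, 1, 4]) .no .no (.red [.f 1066 3 1, .f 1074 1 3] 151 136 [4, 1] [(150,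
  136, [4, 1, 4]), (151, 136, [4, 1])]) .no .no

def c27t1861 : Tr4 :=
  .br 1329 (.con 136 [1, 4, 1, 4, 1]) .no .no (.hor [.f 1321 3 5] []) .no (.con 136 [1, 4, 1, 4,
  1])

def c27t1862 : Tr4 :=
  .br 1321 (.hor [.f 1321 1 5] []) .no .no (.con 136 [1, 4, 4, 1, 4, 1]) .no .no

def c27t1863 : Tr4 :=
  .br 1194 (.red [.t 1193 3 1, .f 1201 1 3] 167 136 [4, 1, 1] [(166, 136, [4, 1, 4, 1]), (167,
  136, [4, 1, 1])]) .no .no (.br 1322 (.br 1192 (.use 1862) .no .no (.con 136 [4, 1, 4, 4, 1]) .no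
  .no) .no .no (.red [.f 1186 3 1, .t 1193 3 1] 166 136 [4, 1, 4, 1] [(165, 136, [4, 1, 4, 4, 1]),
  (166, 136, [4, 1, 4, 1])]) .no (.red [.f 1321 5 3, .f 1193 3 1, .f 1201 1 3] 167 136 [4, 1, 1]
  [(166, 136, [4, 1, 4, 1]), (167, 136, [4, 1, 1])])) .no .no

def c27l68 : List Tr4 :=
  [c27t1839, c27t1840, c27t1841, c27t1842, c27t1843, c27t1844, c27t1845, c27t1846, c27t1847,
  c27t1848, c27t1849, c27t1850, c27t1851, c27t1852, c27t1853, c27t1854, c27t1855, c27t1856,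
  c27t1857, c27t1858, c27t1859, c27t1860, c27t1861, c27t1862, c27t1863]

theorem c27k68 : chkLF ⟨4, 1, 0, true, -8⟩ false 7 c27N 1839 c27l68 = true := by decide +kernel

def c27t1864 : Tr4 :=
  .br 1194 (.red [.t 1193 3 1, .f 1201 1 3] 167 136 [4, 1, 1] [(166, 136, [4, 1, 4, 1]), (167,
  136, [4, 1, 1])]) .no .no (.con 136 [4, 1, 4, 4, 1]) .no .no

def c27t1865 : Tr4 :=
  .br 1065 .no .no .no (.hor [.f 1056 3 5] []) .no .no

def c27t1866 : Tr4 :=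
  .br 1336 (.hor [.f 1336 1 3, .f 1208 3 1, .f 1208 1 5] [(168, 136, [1, 1]), (184, 136, [1, 1,
  1])]) .no .no (.red [.t 1200 2 4, .t 1336 4 2, .f 1073 3 1] 151 136 [4, 1] [(150, 151, [4]),
  (151, 136, [4, 1]), (167, 136, [4, 1, 1])]) .no .no

def c27t1867 : Tr4 :=
  .br 1202 (.con 136 [4, 1, 4, 1]) .no .no (.red [.f 1066 3 1, .f 1074 1 3] 151 136 [4, 1] [(150,
  136, [4, 1, 4]), (151, 136, [4, 1])]) (.con 136 [4, 1, 4, 1]) .no

def c27t1868 : Tr4 :=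
  .br 1200 (.use 1867) .no .no (.red [.f 1064 3 1] 150 136 [4, 1, 4] [(150, 136, [4, 1, 4])]) .no
  .no

def c27t1869 : Tr4 :=
  .br 1202 (.con 136 [4, 1, 4, 1]) .no .no (.red [.f 1066 3 1, .f 1074 1 3] 151 136 [4, 1] [(150,
  136, [4, 1, 4]), (151, 136, [4, 1])]) .no .no

def c27t1870 : Tr4 :=
  .br 1202 (.con 136 [4, 1, 4, 1]) .no .no (.red [.f 1066 3 1, .f 1074 1 3] 151 136 [4, 1] [(150,
  136, [4, 1, 4]), (151, 136, [4, 1])]) .no .no

def c27t1871 : Tr4 :=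
  .br 1201 (.red [.f 1201 1 3, .f 1200 3 5] 167 136 [4, 1, 1] [(167, 136, [4, 1, 1])]) .no .no
  (.br 1211 (.con 136 [4, 1, 1]) .no .no (.use 1870) .no .no) (.red [.t 1081 4 1] 151 136 [4, 1]
  [(151, 136, [4, 1])]) .no

def c27t1872 : Tr4 :=
  .br 1195 (.br 1330 (.red [.f 1330 1 3, .t 1338 4 2] 167 136 [4, 1, 1] [(167, 136, [4, 1, 1]),
  (183, 136, [4, 1, 1, 1])]) .no .no (.use 1861) (.red [.f 1202 5 1, .f 1203 1 3] 167 136 [4, 1,
  1] [(167, 136, [4, 1, 1])]) (.use 1863)) .no .no (.red [.f 1059 3 1, .t 1066 3 1, .f 1074 1 3]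
  151 136 [4, 1] [(149, 136, [4, 4, 1, 4]), (150, 136, [4, 4, 1]), (151, 136, [4, 1])]) .no (.red
  [.f 1194 5 3, .f 1066 3 1, .f 1074 1 3] 151 136 [4, 1] [(150, 136, [4, 4, 1]), (151, 136, [4,
  1])])

def c27t1873 : Tr4 :=
  .br 1195 (.br 1330 (.red [.f 1330 1 3, .t 1338 4 2] 167 136 [4, 1, 1] [(167, 136, [4, 1, 1]),
  (183, 136, [4, 1, 1, 1])]) .no .no (.con 136 [4, 4, 1, 1, 4]) (.red [.f 1202 5 1, .f 1203 1 3]
  167 136 [4, 1, 1] [(167, 136, [4, 1, 1])]) (.use 1864)) .no .no (.red [.f 1059 3 1, .t 1066 3 1,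
  .f 1074 1 3] 151 136 [4, 1] [(149, 136, [4, 4, 1, 4]), (150, 136, [4, 4, 1]), (151, 136, [4,
  1])]) .no (.red [.f 1194 5 3, .f 1066 3 1, .f 1074 1 3] 151 136 [4, 1] [(150, 136, [4, 4, 1]),
  (151, 136, [4, 1])])

def c27t1874 : Tr4 :=
  .br 1195 (.br 1330 (.red [.f 1330 1 3, .t 1338 4 2] 167 136 [4, 1, 1] [(167, 136, [4, 1, 1]),
  (183, 136, [4, 1, 1, 1])]) .no .no (.use 1861) (.red [.f 1202 5 1, .f 1203 1 3] 167 136 [4, 1,
  1] [(167, 136, [4, 1, 1])]) (.br 1194 (.red [.t 1193 3 1, .f 1201 1 3] 167 136 [4, 1, 1] [(166,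
  136, [4, 4, 1, 1]), (167, 136, [4, 1, 1])]) .no .no (.br 1336 (.br 1328 (.red [.f 1328 1 3] 183
  136 [4, 1, 1, 1] [(183, 136, [4, 1, 1, 1])]) .no .no (.con 136 [4, 4, 1, 1, 4]) .no .no) .no .no
  (.red [.t 1200 2 4, .t 1336 4 2, .f 1073 3 1] 151 136 [4, 1] [(150, 151, [4]), (151, 136, [4,
  1]), (167, 136, [4, 1, 1])]) .no .no) .no .no)) .no .no (.red [.f 1059 3 1, .t 1066 3 1, .f 1074
  1 3] 151 136 [4, 1] [(149, 136, [4, 4, 4, 1]), (150, 136, [4, 4, 1]), (151, 136, [4, 1])]) .no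
  (.red [.f 1194 5 3, .f 1066 3 1, .f 1074 1 3] 151 136 [4, 1] [(150, 136, [4, 4, 1]), (151, 136,
  [4, 1])])

def c27t1875 : Tr4 :=
  .br 1064 (.use 1873) .no .no (.use 1865) (.use 1874) .no

def c27t1876 : Tr4 :=
  .br 1195 (.br 1336 (.br 1330 (.red [.f 1330 1 3, .t 1338 4 2] 167 136 [4, 1, 1] [(167, 136, [4,
  1, 1]), (183, 136, [4, 1, 1, 1])]) .no .no (.br 1329 (.con 136 [4, 4, 1, 1, 1]) .no .no (.hor
  [.f 1321 3 5] []) .no (.con 136 [4, 4, 1, 1, 1])) (.red [.f 1202 5 1, .f 1203 1 3] 167 136 [4,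
  1, 1] [(167, 136, [4, 1, 1])]) (.br 1328 (.red [.f 1328 1 3, .t 1336 4 2] 167 136 [4, 1, 1]
  [(167, 136, [4, 1, 1]), (183, 136, [4, 1, 1, 1])]) .no .no (.con 136 [4, 4, 1, 1, 1]) .no .no))
  .no .no (.red [.t 1336 4 2] 167 136 [4, 1, 1] [(167, 136, [4, 1, 1])]) .no .no) .no .no (.red
  [.f 1059 3 1, .t 1066 3 1, .f 1074 1 3] 151 136 [4, 1] [(149, 136, [4, 4, 4, 1]), (150, 136, [4,
  4, 1]), (151, 136, [4, 1])]) .no (.red [.f 1194 5 3, .f 1066 3 1, .f 1074 1 3] 151 136 [4, 1]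
  [(150, 136, [4, 4, 1]), (151, 136, [4, 1])])

def c27t1877 : Tr4 :=
  .br 1344 (.br 1336 (.hor [.f 1336 1 3, .f 1208 3 1, .f 1208 1 5] [(168, 167, [3]), (184, 167,
  [3, 1])]) .no .no (.red [.t 1336 4 2] 167 136 [4, 1, 1] [(167, 136, [4, 1, 1])]) .no .no) .no
  (.br 1338 (.use 1876) .no .no (.red [.t 1338 4 2] 167 136 [4, 1, 1] [(167, 136, [4, 1, 1])]) .no
  .no) (.hor [.f 1208 3 1, .f 1208 1 5] [(168, 167, [3])]) (.red [.t 1208 3 1, .f 1200 5 3, .f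
  1073 3 1, .f 1081 1 3] 151 136 [4, 1] [(151, 136, [4, 1]), (152, 136, [1]), (168, 167, [3])])
  .no

def c27t1878 : Tr4 :=
  .br 1193 (.br 1329 (.br 1194 (.red [.f 1194 1 3, .f 1066 3 1] 150 136 [4, 1, 4] [(150, 136, [4,
  1, 4]), (166, 136, [4, 1, 4, 1])]) .no .no (.br 1328 (.hor [.f 1328 1 5] []) .no .no (.con 136
  [4, 1, 4, 1, 4]) .no .no) (.br 1328 (.hor [.f 1328 1 5] []) .no .no (.con 136 [4, 1, 4, 1, 4])
  .no .no) .no) .no .no .no .no (.red [.f 1200 5 1, .f 1201 1 5, .t 1081 4 1] 151 136 [4, 1]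
  [(151, 136, [4, 1])])) .no .no (.red [.f 1057 3 1, .t 1064 3 1] 150 136 [4, 1, 4] [(149, 136,
  [4, 4, 4, 1]), (150, 136, [4, 1, 4])]) (.br 1329 (.br 1328 (.hor [.f 1328 1 5] []) .no .no (.br
  1321 (.red [.f 1321 1 3, .f 1320 3 5] 182 136 [4, 1, 4, 1, 1] [(182, 136, [4, 1, 4, 1, 1])]) .no
  .no (.br 1322 (.con 136 [4, 1, 4, 1, 4, 1]) .no .no (.hor [.f 1313 3 5] []) (.con 136 [4, 1, 4,
  1, 1]) .no) (.red [.f 1193 5 1, .f 1194 1 3, .f 1066 3 1] 150 136 [4, 1, 4] [(150, 136, [4, 1,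
  4]), (166, 136, [4, 1, 4, 1])]) .no) .no .no) .no .no (.red [.t 1329 4 2, .f 1066 3 1] 150 136
  [4, 1, 4] [(150, 136, [4, 1, 4]), (166, 136, [4, 1, 4, 1])]) .no (.red [.f 1200 5 1, .f 1201 1
  5, .t 1081 4 1] 151 136 [4, 1] [(151, 136, [4, 1])])) (.red [.f 1192 5 3, .f 1064 3 1] 150 136
  [4, 1, 4] [(150, 136, [4, 1, 4])])

def c27t1879 : Tr4 :=
  .br 1336 (.use 1878) .no .no (.red [.t 1336 4 2, .f 1073 3 1, .f 1081 1 5] 151 136 [4, 1] [(151,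
  136, [4, 1]), (167, 136, [4, 1, 1])]) .no .no

def c27t1880 : Tr4 :=
  .br 1202 (.br 1344 (.br 1336 (.hor [.f 1336 1 3, .f 1208 3 1, .f 1208 1 5] [(168, 136, [1, 1]),
  (184, 136, [1, 1, 1])]) .no .no (.red [.t 1336 4 2, .f 1073 3 1, .f 1081 1 5] 151 136 [4, 1]
  [(151, 136, [4, 1]), (167, 136, [4, 1, 1])]) .no .no) .no (.use 1879) (.hor [.f 1208 3 1, .f
  1208 1 5] [(168, 136, [1, 1])]) (.red [.t 1208 3 1, .f 1200 5 3, .f 1073 3 1, .f 1081 1 3] 151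
  136 [4, 1] [(151, 136, [4, 1]), (152, 136, [1]), (168, 136, [1, 1])]) .no) .no .no (.red [.f
  1066 3 1, .f 1074 1 3] 151 136 [4, 1] [(150, 136, [4, 1, 4]), (151, 136, [4, 1])]) .no .no

def c27t1881 : Tr4 :=
  .br 1201 (.red [.f 1201 1 3, .f 1073 3 1] 151 136 [4, 1] [(151, 136, [4, 1]), (167, 136, [4, 1,
  1])]) .no .no (.use 1868) (.red [.t 1081 4 1] 151 136 [4, 1] [(151, 136, [4, 1])]) (.br 1065
  (.red [.t 1064 3 1] 150 136 [4, 4, 1] [(150, 136, [4, 4, 1])]) .no .no (.br 1211 (.br 1203 (.red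
  [.f 1203 1 3] 167 136 [4, 1, 1] [(167, 136, [4, 1, 1])]) .no .no (.use 1869) .no (.br 1067 (.red
  [.t 1066 3 1, .f 1074 1 3, .f 1073 3 5] 151 136 [4, 1] [(150, 136, [4, 4, 1]), (151, 136, [4,
  1])]) (.hor [.f 939 1 3, .f 1066 3 5] [(134, 150, [2])]) .no (.use 1877) .no .no)) .no .no (.use
  1880) .no .no) .no .no)

def c27t1882 : Tr4 :=
  .br 1336 (.hor [.f 1336 1 3, .f 1208 3 1, .f 1208 1 5] [(168, 136, [1, 1]), (184, 136, [1, 1,
  1])]) .no .no (.red [.t 1200 2 4, .t 1336 4 2, .f 1073 3 1] 151 136 [4, 1] [(150, 151, [4]),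
  (151, 136, [4, 1]), (167, 136, [4, 1, 1])]) .no .no

def c27t1883 : Tr4 :=
  .br 1064 (.use 1873) .no .no (.use 1865) (.use 1882) .no

def c27t1884 : Tr4 :=
  .br 1338 (.br 1336 (.hor [.f 1336 1 3, .f 1208 3 1, .f 1208 1 5] [(168, 167, [3]), (184, 183,
  [3])]) .no .no (.red [.t 1336 4 2] 167 136 [1, 4, 1] [(167, 136, [1, 4, 1])]) .no .no) .no (.hor
  [.f 1211 1 3, .f 1338 3 5] [(168, 167, [3])]) (.red [.t 1338 4 2] 167 136 [1, 4, 1] [(167, 136,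
  [1, 4, 1])]) .no .no

def c27t1885 : Tr4 :=
  .br 1203 (.red [.f 1203 1 3] 167 136 [4, 1, 1] [(167, 136, [4, 1, 1])]) .no .no (.use 1869) .no
  (.br 1344 (.use 1884) .no .no (.hor [.f 1208 3 1, .f 1208 1 5] [(168, 167, [3])]) (.red [.t 1208
  3 1, .f 1200 5 3, .f 1073 3 1, .f 1081 1 3] 151 136 [4, 1] [(151, 136, [4, 1]), (152, 136, [1]),
  (168, 167, [3])]) .no)

def c27t1886 : Tr4 :=
  .br 1201 (.red [.f 1201 1 3] 167 136 [4, 1, 1] [(167, 136, [4, 1, 1])]) .no .no (.use 1868)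
  (.red [.t 1081 4 1] 151 136 [4, 1] [(151, 136, [4, 1])]) (.use 1885)

def c27t1887 : Tr4 :=
  .br 1201 (.red [.f 1201 1 3, .f 1200 3 5] 167 136 [4, 1, 1] [(167, 136, [4, 1, 1])]) .no .no
  (.use 1870) (.red [.f 944 1 3, .f 944 3 1, .t 1081 4 1] 151 136 [4, 1] [(151, 136, [4, 1])]) .no

def c27t1888 : Tr4 :=
  .br 1208 (.hor [.f 1208 1 5] []) .no (.red [.f 944 1 3, .f 1072 3 5, .t 1216 4 2, .f 953 3 1]
  136 136 [] [(135, 136, [4]), (136, 136, []), (152, 136, [1])]) (.use 1887) .no .no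

def c27t1889 : Tr4 :=
  .br 1336 (.use 1878) .no .no (.red [.t 1336 4 2, .f 1073 3 1, .f 1081 1 5] 151 136 [4, 1] [(151,
  136, [4, 1]), (167, 136, [4, 1, 1])]) .no .no

def c27t1890 : Tr4 :=
  .br 1065 (.red [.t 1064 3 1] 150 136 [4, 1, 4] [(150, 136, [4, 1, 4])]) .no .no (.use 1889) .no
  .no

def c27t1891 : Tr4 :=
  .br 1201 (.red [.f 1201 1 3, .f 1073 3 1] 151 136 [4, 1] [(151, 136, [4, 1]), (167, 136, [4, 1,
  1])]) .no .no (.use 1868) (.red [.t 1081 4 1] 151 136 [4, 1] [(151, 136, [4, 1])]) (.br 1202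
  (.br 1344 (.use 1890) .no .no (.hor [.f 1208 3 1, .f 1208 1 5] [(168, 136, [1, 1])]) (.red [.t
  1208 3 1, .f 1200 5 3, .f 1073 3 1, .f 1081 1 3] 151 136 [4, 1] [(151, 136, [4, 1]), (152, 136,
  [1]), (168, 136, [1, 1])]) .no) .no .no (.red [.f 1066 3 1, .f 1074 1 3] 151 136 [4, 1] [(150,
  136, [4, 1, 4]), (151, 136, [4, 1])]) .no .no)

def c27t1892 : Tr4 :=
  .br 1201 (.red [.f 1201 1 3, .f 1200 3 5] 167 136 [4, 1, 1] [(167, 136, [4, 1, 1])]) .no .no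
  (.use 1870) (.red [.t 1081 4 1] 151 136 [4, 1] [(151, 136, [4, 1])]) .no

def c27t1893 : Tr4 :=
  .br 1225 (.use 1842) .no (.hor [.f 1224 3 5] []) .no .no .no

def c27t1894 : Tr4 :=
  .br 1344 (.use 1884) .no (.br 1338 (.use 1876) .no .no (.red [.t 1338 4 2] 167 136 [4, 1, 1]
  [(167, 136, [4, 1, 1])]) .no .no) (.hor [.f 1208 3 1, .f 1208 1 5] [(168, 167, [3])]) (.red [.t
  1208 3 1, .f 1200 5 3, .f 1073 3 1, .f 1081 1 3] 151 136 [4, 1] [(151, 136, [4, 1]), (152, 136,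
  [1]), (168, 167, [3])]) .no

def c27t1895 : Tr4 :=
  .br 1225 (.br 1346 (.use 1894) .no (.hor [.f 1218 3 1, .f 1218 1 5] [(169, 136, [1, 3, 1])])
  (.hor [.f 1211 1 3, .f 1338 3 5] [(168, 167, [3])]) .no (.hor [.t 1225 1 4, .f 1218 1 5] [(169,
  136, [1, 3, 1])])) .no (.hor [.f 1224 3 5] []) .no .no .no

def c27t1896 : Tr4 :=
  .br 1072 (.use 1893) .no .no (.br 1201 (.red [.f 1201 1 3] 167 136 [4, 1, 1] [(167, 136, [4, 1,
  1])]) .no .no (.use 1868) (.red [.t 1081 4 1] 151 136 [4, 1] [(151, 136, [4, 1])]) (.br 1203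
  (.red [.f 1203 1 3] 167 136 [4, 1, 1] [(167, 136, [4, 1, 1])]) .no .no (.use 1869) .no (.br 1067
  (.red [.t 1066 3 1, .f 1074 1 3, .f 1073 3 5] 151 136 [4, 1] [(150, 136, [4, 4, 1]), (151, 136,
  [4, 1])]) (.hor [.f 939 1 3, .f 1066 3 5] [(134, 150, [2])]) .no (.use 1895) .no .no))) .no .no

def c27t1897 : Tr4 :=
  .br 1202 (.br 1344 (.use 1890) .no (.br 1065 (.red [.t 1064 3 1] 150 136 [4, 4, 1] [(150, 136,
  [4, 4, 1])]) .no .no (.use 1879) .no .no) (.hor [.f 1208 3 1, .f 1208 1 5] [(168, 136, [1, 1])])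
  (.red [.t 1208 3 1, .f 1200 5 3, .f 1073 3 1, .f 1081 1 3] 151 136 [4, 1] [(151, 136, [4, 1]),
  (152, 136, [1]), (168, 136, [1, 1])]) .no) .no .no (.red [.f 1066 3 1, .f 1074 1 3] 151 136 [4,
  1] [(150, 136, [4, 4, 1]), (151, 136, [4, 1])]) .no .no

def c27t1898 : Tr4 :=
  .br 1201 (.red [.f 1201 1 3, .f 1073 3 1] 151 136 [4, 1] [(151, 136, [4, 1]), (167, 136, [4, 1,
  1])]) .no .no (.use 1868) (.red [.t 1081 4 1] 151 136 [4, 1] [(151, 136, [4, 1])]) (.use 1897)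

def c27t1899 : Tr4 :=
  .br 1072 (.dom 151 136 [4, 1]) (.use 1888) .no (.br 1208 (.hor [.f 1208 1 5] []) .no (.br 945
  .no .no .no (.use 1898) .no (.red [.t 1080 2 4, .t 1216 4 2, .f 953 3 1] 136 136 [] [(135, 136,
  [4]), (136, 136, []), (152, 136, [1])])) (.use 1892) .no .no) .no .no

def c27t1900 : Tr4 :=
  .br 1218 (.br 1219 (.hor [.f 1218 1 5] []) .no (.br 1208 (.hor [.f 1208 1 5] []) .no (.br 945
  .no .no .no (.br 944 (.red [.f 944 1 3, .f 1072 3 5, .t 1216 4 2, .f 953 3 1] 136 136 [] [(135,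
  136, [4]), (136, 136, []), (152, 136, [1])]) (.br 1072 (.br 1201 (.red [.f 1201 1 3, .f 1073 3
  1] 151 136 [4, 1] [(151, 136, [4, 1]), (167, 136, [4, 1, 1])]) .no .no (.br 1211 (.br 1203 (.red
  [.f 1203 1 3] 167 136 [4, 1, 1] [(167, 136, [4, 1, 1])]) .no .no (.use 1860) .no (.br 1067 (.red
  [.t 1066 3 1, .f 1074 1 3, .f 1073 3 5] 151 136 [4, 1] [(150, 136, [4, 4, 1]), (151, 136, [4,
  1])]) (.hor [.f 939 1 3, .f 1066 3 5] [(134, 136, [4, 4])]) .no (.br 1344 (.br 1338 (.br 1195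
  (.br 1330 (.red [.f 1330 1 3, .t 1338 4 2] 167 136 [4, 1, 1] [(167, 136, [4, 1, 1]), (183, 136,
  [4, 1, 1, 1])]) .no .no (.use 1861) (.red [.f 1202 5 1, .f 1203 1 3] 167 136 [4, 1, 1] [(167,
  136, [4, 1, 1])]) (.br 936 (.use 1863) (.hor [.f 808 1 3, .f 936 3 5] [(118, 120, [4, 4])]) .no
  (.br 1064 (.use 1864) .no .no (.use 1865) (.use 1866) .no) .no .no)) .no .no (.red [.f 1059 3 1,
  .t 1066 3 1, .f 1074 1 3] 151 136 [4, 1] [(149, 136, [4, 4, 1, 4]), (150, 136, [4, 4, 1]), (151,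
  136, [4, 1])]) .no (.red [.f 1194 5 3, .f 1066 3 1, .f 1074 1 3] 151 136 [4, 1] [(150, 136, [4,
  4, 1]), (151, 136, [4, 1])])) .no .no (.red [.t 1338 4 2] 167 136 [4, 1, 1] [(167, 136, [4, 1,
  1])]) .no .no) .no (.br 1338 (.br 936 (.use 1872) (.hor [.f 808 1 3, .f 936 3 5] [(118, 120, [4,
  4])]) .no (.use 1875) .no .no) .no .no (.red [.t 1338 4 2] 167 136 [4, 1, 1] [(167, 136, [4, 1,
  1])]) .no .no) (.red [.f 1208 3 1, .f 1208 1 5, .t 1072 1 3, .f 1081 1 3, .t 1216 1 4] 151 136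
  [4, 1] [(151, 136, [4, 1]), (152, 136, [1])]) (.red [.t 1208 3 1, .t 1072 1 3, .f 1081 1 5] 151
  136 [4, 1] [(151, 136, [4, 1]), (168, 167, [3])]) .no) .no .no)) .no .no (.dom 151 136 [4, 1])
  .no .no) (.red [.t 1081 4 1, .f 1072 1 5] 151 136 [4, 1] [(151, 136, [4, 1])]) .no) .no .no
  (.use 1881) .no .no) .no (.hor [.f 936 3 5] []) .no .no) .no (.red [.t 1080 2 4, .t 1216 4 2, .f
  953 3 1] 136 136 [] [(135, 136, [4]), (136, 136, []), (152, 136, [1])])) (.use 1871) .no .no)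
  (.red [.f 1083 3 1, .f 1082 1 5, .t 946 3 1, .f 954 1 3] 136 136 [] [(135, 136, [4]), (136, 136,
  []), (152, 136, [1])]) .no .no) .no (.br 1219 (.br 1224 (.br 1211 (.br 1208 (.hor [.f 1208 1 5]
  []) .no (.br 945 .no .no .no (.br 944 (.red [.f 944 1 3, .f 1072 3 5, .t 1216 4 2, .f 953 3 1]
  136 136 [] [(135, 136, [4]), (136, 136, []), (152, 136, [1])]) (.br 1072 (.br 1201 (.red [.f
  1201 1 3] 167 136 [4, 1, 1] [(167, 136, [4, 1, 1])]) .no .no (.br 1203 (.red [.f 1203 1 3] 167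
  136 [4, 1, 1] [(167, 136, [4, 1, 1])]) .no .no (.use 1860) .no (.br 1067 (.red [.t 1066 3 1, .f
  1074 1 3, .f 1073 3 5] 151 136 [4, 1] [(150, 136, [4, 4, 1]), (151, 136, [4, 1])]) (.hor [.f 939
  1 3, .f 1066 3 5] [(134, 136, [4, 4])]) .no (.br 1344 (.br 1338 (.br 936 (.use 1872) (.hor [.f
  808 1 3, .f 936 3 5] [(118, 120, [4, 4])]) .no (.use 1883) .no .no) .no (.hor [.f 1211 1 3, .f
  1338 3 5] [(168, 167, [3])]) (.red [.t 1338 4 2] 167 136 [4, 1, 1] [(167, 136, [4, 1, 1])]) .no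
  .no) .no .no (.red [.f 1208 3 1, .f 1208 1 5, .t 1072 1 3, .f 1081 1 3, .t 1216 1 4] 151 136 [4,
  1] [(151, 136, [4, 1]), (152, 136, [1])]) (.red [.t 1208 3 1, .t 1072 1 3, .f 1081 1 5] 151 136
  [4, 1] [(151, 136, [4, 1]), (168, 167, [3])]) .no) .no .no)) (.red [.t 1081 4 1, .f 1072 1 5]
  151 136 [4, 1] [(151, 136, [4, 1])]) .no) .no .no (.use 1886) .no .no) .no (.hor [.f 936 3 5]
  []) .no .no) .no (.red [.t 1080 2 4, .t 1216 4 2, .f 953 3 1] 136 136 [] [(135, 136, [4]), (136,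
  136, []), (152, 136, [1])])) (.con 136 [4, 1, 1]) .no .no) .no .no (.br 1072 (.dom 151 136 [4,
  1]) (.use 1888) .no (.br 1208 (.hor [.f 1208 1 5] []) .no (.br 945 .no .no .no (.use 1891) .no
  (.red [.t 1080 2 4, .t 1216 4 2, .f 953 3 1] 136 136 [] [(135, 136, [4]), (136, 136, []), (152,
  136, [1])])) (.use 1892) .no .no) .no .no) .no .no) .no (.br 1211 (.br 1208 (.hor [.f 1208 1 5]
  []) .no (.br 945 .no .no .no (.br 944 (.red [.f 944 1 3, .f 1072 3 5, .t 1216 4 2, .f 953 3 1]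
  136 136 [] [(135, 136, [4]), (136, 136, []), (152, 136, [1])]) (.use 1896) .no (.hor [.f 936 3
  5] []) .no .no) .no (.red [.t 1080 2 4, .t 1216 4 2, .f 953 3 1] 136 136 [] [(135, 136, [4]),
  (136, 136, []), (152, 136, [1])])) (.con 136 [4, 1, 1]) .no .no) .no .no (.use 1899) .no .no)
  (.red [.f 1088 3 1, .f 1088 1 5, .t 952 1 3, .f 961 1 3, .t 1096 1 4] 136 136 [] [(136, 136,
  []), (137, 136, [3])]) (.red [.t 1088 3 1, .t 952 1 3, .f 961 1 5] 136 136 [] [(136, 136, []),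
  (153, 136, [3, 1])]) .no) .no (.hor [.f 1218 3 5] []) (.red [.f 1083 3 1, .f 1082 1 5, .t 946 3
  1, .f 954 1 3] 136 136 [] [(135, 136, [4]), (136, 136, []), (152, 136, [1])]) .no .no) .no (.red
  [.t 1082 1 3, .t 946 3 1, .f 954 1 3, .f 1082 3 1] 136 136 [] [(135, 136, [4]), (136, 136, [])])
  .no

def c27t1901 : Tr4 :=
  .br 1201 (.red [.f 1201 1 3, .f 1073 3 1] 151 136 [4, 1] [(151, 136, [4, 1]), (167, 136, [4, 1,
  1])]) .no .no (.br 1075 (.use 1667) .no .no (.hor [.f 1066 3 5] []) .no .no) (.red [.t 1081 4 1,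
  .f 1072 1 5] 151 136 [4, 1] [(151, 136, [4, 1])]) .no

def c27t1902 : Tr4 :=
  .br 1072 (.use 1901) (.use 1678) .no (.use 1679) .no .no

def c27l69 : List Tr4 :=
  [c27t1864, c27t1865, c27t1866, c27t1867, c27t1868, c27t1869, c27t1870, c27t1871, c27t1872,
  c27t1873, c27t1874, c27t1875, c27t1876, c27t1877, c27t1878, c27t1879, c27t1880, c27t1881,
  c27t1882, c27t1883, c27t1884, c27t1885, c27t1886, c27t1887, c27t1888, c27t1889, c27t1890,
  c27t1891, c27t1892, c27t1893, c27t1894, c27t1895, c27t1896, c27t1897, c27t1898, c27t1899,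
  c27t1900, c27t1901, c27t1902]

theorem c27k69 : chkLF ⟨4, 1, 0, true, -8⟩ false 7 c27N 1864 c27l69 = true := by decide +kernel

end Pool.Agent.FT4D
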