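import Pool.Agent.FT4D.ChainF4
import Pool.Agent.FT4D.Tr_c27_0
import Pool.Agent.FT4D.Tr_c27_1
import Pool.Agent.FT4D.Tr_c27_2
import Pool.Agent.FT4D.Tr_c27_3
import Pool.Agent.FT4D.Tr_c27_4
import Pool.Agent.FT4D.Tr_c27_5
import Pool.Agent.FT4D.Tr_c27_6
import Pool.Agent.FT4D.Tr_c27_7
import Pool.Agent.FT4D.Tr_c27_8
import Pool.Agent.FT4D.Tr_c27_9
import Pool.Agent.FT4D.Tr_c27_10

/-!
# Four levels: the chunks of the trees `c27` together
-/

namespace Pool.Agent.FT4D

theorem c27H : Holds ⟨4, 1, 0, true, -8⟩ false 7 [] := by
  have h0 := chStart ⟨4, 1, 0, true, -8⟩ false 7 c27N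
  have h1 := chStepF c27l0 61 h0 c27k0 (by decide +kernel) (by decide +kernel)
  have h2 := chStepF c27l1 104 h1 c27k1 (by decide +kernel) (by decide +kernel)
  have h3 := chStepF c27l2 139 h2 c27k2 (by decide +kernel) (by decide +kernel)
  have h4 := chStepF c27l3 178 h3 c27k3 (by decide +kernel) (by decide +kernel)
  have h5 := chStepF c27l4 211 h4 c27k4 (by decide +kernel) (by decide +kernel)
  have h6 := chStepF c27l5 240 h5 c27k5 (by decide +kernel) (by decide +kernel)
  have h7 := chStepF c27l6 285 h6 c27k6 (by decide +kernel) (by decide +kernel)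
  have h8 := chStepF c27l7 308 h7 c27k7 (by decide +kernel) (by decide +kernel)
  have h9 := chStepF c27l8 339 h8 c27k8 (by decide +kernel) (by decide +kernel)
  have h10 := chStepF c27l9 378 h9 c27k9 (by decide +kernel) (by decide +kernel)
  have h11 := chStepF c27l10 415 h10 c27k10 (by decide +kernel) (by decide +kernel)
  have h12 := chStepF c27l11 441 h11 c27k11 (by decide +kernel) (by decide +kernel)
  have h13 := chStepF c27l12 486 h12 c27k12 (by decide +kernel) (by decide +kernel)
  have h14 := chStepF c27l13 512 h13 c27k13 (by decide +kernel) (by decide +kernel)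
  have h15 := chStepF c27l14 531 h14 c27k14 (by decide +kernel) (by decide +kernel)
  have h16 := chStepF c27l15 566 h15 c27k15 (by decide +kernel) (by decide +kernel)
  have h17 := chStepF c27l16 596 h16 c27k16 (by decide +kernel) (by decide +kernel)
  have h18 := chStepF c27l17 634 h17 c27k17 (by decide +kernel) (by decide +kernel)
  have h19 := chStepF c27l18 661 h18 c27k18 (by decide +kernel) (by decide +kernel)
  have h20 := chStepF c27l19 689 h19 c27k19 (by decide +kernel) (by decide +kernel)
  have h21 := chStepF c27l20 725 h20 c27k20 (by decide +kernel) (by decide +kernel)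
  have h22 := chStepF c27l21 752 h21 c27k21 (by decide +kernel) (by decide +kernel)
  have h23 := chStepF c27l22 778 h22 c27k22 (by decide +kernel) (by decide +kernel)
  have h24 := chStepF c27l23 799 h23 c27k23 (by decide +kernel) (by decide +kernel)
  have h25 := chStepF c27l24 812 h24 c27k24 (by decide +kernel) (by decide +kernel)
  have h26 := chStepF c27l25 839 h25 c27k25 (by decide +kernel) (by decide +kernel)
  have h27 := chStepF c27l26 886 h26 c27k26 (by decide +kernel) (by decide +kernel)
  have h28 := chStepF c27l27 910 h27 c27k27 (by decide +kernel) (by decide +kernel)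
  have h29 := chStepF c27l28 943 h28 c27k28 (by decide +kernel) (by decide +kernel)
  have h30 := chStepF c27l29 983 h29 c27k29 (by decide +kernel) (by decide +kernel)
  have h31 := chStepF c27l30 1017 h30 c27k30 (by decide +kernel) (by decide +kernel)
  have h32 := chStepF c27l31 1047 h31 c27k31 (by decide +kernel) (by decide +kernel)
  have h33 := chStepF c27l32 1077 h32 c27k32 (by decide +kernel) (by decide +kernel)
  have h34 := chStepF c27l33 1096 h33 c27k33 (by decide +kernel) (by decide +kernel)
  have h35 := chStepF c27l34 1107 h34 c27k34 (by decide +kernel) (by decide +kernel)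
  have h36 := chStepF c27l35 1123 h35 c27k35 (by decide +kernel) (by decide +kernel)
  have h37 := chStepF c27l36 1141 h36 c27k36 (by decide +kernel) (by decide +kernel)
  have h38 := chStepF c27l37 1166 h37 c27k37 (by decide +kernel) (by decide +kernel)
  have h39 := chStepF c27l38 1194 h38 c27k38 (by decide +kernel) (by decide +kernel)
  have h40 := chStepF c27l39 1215 h39 c27k39 (by decide +kernel) (by decide +kernel)
  have h41 := chStepF c27l40 1237 h40 c27k40 (by decide +kernel) (by decide +kernel)
  have h42 := chStepF c27l41 1255 h41 c27k41 (by decide +kernel) (by decide +kernel)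
  have h43 := chStepF c27l42 1276 h42 c27k42 (by decide +kernel) (by decide +kernel)
  have h44 := chStepF c27l43 1295 h43 c27k43 (by decide +kernel) (by decide +kernel)
  have h45 := chStepF c27l44 1317 h44 c27k44 (by decide +kernel) (by decide +kernel)
  have h46 := chStepF c27l45 1340 h45 c27k45 (by decide +kernel) (by decide +kernel)
  have h47 := chStepF c27l46 1380 h46 c27k46 (by decide +kernel) (by decide +kernel)
  have h48 := chStepF c27l47 1393 h47 c27k47 (by decide +kernel) (by decide +kernel)
  have h49 := chStepF c27l48 1406 h48 c27k48 (by decide +kernel) (by decide +kernel)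
  have h50 := chStepF c27l49 1417 h49 c27k49 (by decide +kernel) (by decide +kernel)
  have h51 := chStepF c27l50 1434 h50 c27k50 (by decide +kernel) (by decide +kernel)
  have h52 := chStepF c27l51 1454 h51 c27k51 (by decide +kernel) (by decide +kernel)
  have h53 := chStepF c27l52 1474 h52 c27k52 (by decide +kernel) (by decide +kernel)
  have h54 := chStepF c27l53 1505 h53 c27k53 (by decide +kernel) (by decide +kernel)
  have h55 := chStepF c27l54 1525 h54 c27k54 (by decide +kernel) (by decide +kernel)
  have h56 := chStepF c27l55 1547 h55 c27k55 (by decide +kernel) (by decide +kernel)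
  have h57 := chStepF c27l56 1564 h56 c27k56 (by decide +kernel) (by decide +kernel)
  have h58 := chStepF c27l57 1578 h57 c27k57 (by decide +kernel) (by decide +kernel)
  have h59 := chStepF c27l58 1603 h58 c27k58 (by decide +kernel) (by decide +kernel)
  have h60 := chStepF c27l59 1644 h59 c27k59 (by decide +kernel) (by decide +kernel)
  have h61 := chStepF c27l60 1675 h60 c27k60 (by decide +kernel) (by decide +kernel)
  have h62 := chStepF c27l61 1713 h61 c27k61 (by decide +kernel) (by decide +kernel)
  have h63 := chStepF c27l62 1739 h62 c27k62 (by decide +kernel) (by decide +kernel)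
  have h64 := chStepF c27l63 1757 h63 c27k63 (by decide +kernel) (by decide +kernel)
  have h65 := chStepF c27l64 1779 h64 c27k64 (by decide +kernel) (by decide +kernel)
  have h66 := chStepF c27l65 1799 h65 c27k65 (by decide +kernel) (by decide +kernel)
  have h67 := chStepF c27l66 1820 h66 c27k66 (by decide +kernel) (by decide +kernel)
  have h68 := chStepF c27l67 1839 h67 c27k67 (by decide +kernel) (by decide +kernel)
  have h69 := chStepF c27l68 1864 h68 c27k68 (by decide +kernel) (by decide +kernel)
  have h70 := chStepF c27l69 1903 h69 c27k69 (by decide +kernel) (by decide +kernel)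
  have h71 := chStepF c27l70 1935 h70 c27k70 (by decide +kernel) (by decide +kernel)
  have h72 := chStepF c27l71 1959 h71 c27k71 (by decide +kernel) (by decide +kernel)
  have h73 := chStepF c27l72 1981 h72 c27k72 (by decide +kernel) (by decide +kernel)
  have h74 := chStepF c27l73 2007 h73 c27k73 (by decide +kernel) (by decide +kernel)
  have h75 := chStepF c27l74 2027 h74 c27k74 (by decide +kernel) (by decide +kernel)
  have h76 := chStepF c27l75 2040 h75 c27k75 (by decide +kernel) (by decide +kernel)
  have h77 := chStepF c27l76 2044 h76 c27k76 (by decide +kernel) (by decide +kernel)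
  exact chEnd h77 2043 (by decide +kernel) (by decide +kernel)

end Pool.Agent.FT4D
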