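import Pool.Agent.FT4D.Tab_c28

/-!
# Four levels: decision trees (found by a computer search)
-/

namespace Pool.Agent.FT4D

def c28t0 : Tr4 :=
  .br 835 .no (.con 136 [2, 2, 3]) (.hor [.f 834 3 5] []) (.con 136 [2, 2, 3]) .no .no

def c28t1 : Tr4 :=
  .br 1208 (.hor [.f 1208 1 5] []) .no .no (.con 136 [1, 4, 1]) .no .no

def c28t2 : Tr4 :=
  .br 1072 (.hor [.f 1072 1 5] []) (.con 136 [4, 4, 1]) .no (.con 136 [4, 4, 1]) .no .no

def c28t3 : Tr4 :=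
  .br 1203 (.hor [.f 1202 1 5] []) .no .no (.br 1201 (.hor [.f 1201 1 5] []) .no .no (.con 136 [4,
  1, 4, 1]) .no (.con 136 [4, 1, 4, 1])) .no .no

def c28t4 : Tr4 :=
  .br 944 .no (.hor [.f 808 1 3, .f 936 3 5] [(118, 136, [4, 2, 4])]) .no .no .no .no

def c28t5 : Tr4 :=
  .br 1200 (.con 136 [4, 4, 1, 1]) .no .no (.red [.t 1192 3 2, .f 1065 3 5] 150 136 [4, 4, 1]
  [(150, 136, [4, 4, 1])]) .no .no

def c28t6 : Tr4 :=
  .br 1065 (.use 5) .no .no (.hor [.f 1056 3 5] []) .no .no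

def c28t7 : Tr4 :=
  .br 1203 (.hor [.f 1202 1 5] []) .no .no (.con 136 [4, 1, 1, 4]) .no .no

def c28t8 : Tr4 :=
  .br 1203 (.hor [.f 1202 1 5] []) .no .no (.con 136 [4, 1, 4, 1]) .no .no

def c28t9 : Tr4 :=
  .br 1201 (.hor [.f 1201 1 5] []) .no .no (.use 7) .no (.use 8)

def c28t10 : Tr4 :=
  .br 1203 (.red [.f 1203 1 3] 167 136 [4, 1, 1] [(167, 136, [4, 1, 1])]) .no .no (.br 1064 (.con
  136 [4, 4, 1, 4]) (.br 1200 (.con 136 [4, 4, 1, 1]) .no .no (.red [.t 936 1 3, .f 1064 3 1] 150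
  136 [4, 4, 1] [(134, 136, [4, 4]), (150, 136, [4, 4, 1])]) .no .no) .no (.hor [.f 1056 3 5] [])
  .no .no) .no .no

def c28t11 : Tr4 :=
  .br 1065 (.red [.t 1065 1 3, .f 1074 1 3, .f 1074 3 5] 151 136 [4, 1] [(150, 136, [4, 4, 1]),
  (151, 136, [4, 1])]) .no .no (.br 1208 (.use 10) .no .no (.con 136 [4, 1, 1]) .no .no) .no (.red
  [.f 1064 5 3, .f 1065 3 5, .f 1073 5 1, .f 1074 1 3] 151 136 [4, 1] [(151, 136, [4, 1])])

def c28t12 : Tr4 :=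
  .br 1203 (.red [.f 1203 1 3] 167 136 [4, 1, 1] [(167, 136, [4, 1, 1])]) .no .no (.br 1064 (.con
  136 [4, 4, 1, 4]) (.br 1200 (.con 136 [4, 4, 1, 1]) .no .no (.red [.f 944 5 1, .f 936 1 3, .f
  1064 3 1] 150 136 [4, 4, 1] [(134, 136, [4, 4]), (150, 136, [4, 4, 1])]) .no .no) .no (.hor [.f
  1056 3 5] []) .no .no) .no .no

def c28t13 : Tr4 :=
  .br 1203 (.red [.f 1203 1 3] 167 136 [4, 1, 1] [(167, 136, [4, 1, 1])]) .no .no (.br 1064 (.con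
  136 [4, 4, 1, 4]) (.br 1200 (.con 136 [4, 4, 1, 1]) .no .no (.red [.t 936 1 3, .f 1064 3 1] 150
  136 [4, 4, 1] [(134, 136, [4, 4]), (150, 136, [4, 4, 1])]) .no .no) .no (.hor [.f 1056 3 5] [])
  .no .no) .no .no

def c28t14 : Tr4 :=
  .br 1065 (.red [.t 1065 1 3, .f 1074 1 3, .f 1074 3 5] 151 136 [4, 1] [(150, 136, [4, 4, 1]),
  (151, 136, [4, 1])]) .no .no (.use 13) .no (.red [.f 1064 5 3, .f 1065 3 5, .f 1073 5 1, .f 1074
  1 3] 151 136 [4, 1] [(151, 136, [4, 1])])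

def c28t15 : Tr4 :=
  .br 1065 (.red [.t 1065 1 3, .f 1074 1 3, .f 1074 3 5] 151 136 [4, 1] [(150, 136, [4, 4, 1]),
  (151, 136, [4, 1])]) (.red [.f 944 5 1, .f 937 1 3, .f 1065 3 5, .f 1073 5 1, .f 1074 1 3] 151
  136 [4, 1] [(134, 150, [2]), (151, 136, [4, 1])]) .no (.br 1203 (.red [.f 1203 1 3] 167 136 [4,
  1, 1] [(167, 136, [4, 1, 1])]) .no .no (.br 1064 (.con 136 [4, 4, 1, 4]) (.br 1200 (.con 136 [4,
  4, 1, 1]) .no .no (.red [.f 944 5 1, .f 936 1 3, .f 1064 3 1] 150 136 [4, 4, 1] [(134, 136, [4,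
  4]), (150, 136, [4, 4, 1])]) .no .no) .no (.hor [.f 1056 3 5] []) .no .no) .no .no) .no (.red
  [.f 1064 5 3, .f 1065 3 5, .f 1073 5 1, .f 1074 1 3] 151 136 [4, 1] [(151, 136, [4, 1])])

def c28t16 : Tr4 :=
  .br 1202 (.br 945 (.br 1209 (.use 1) .no (.red [.f 1081 3 1, .f 1081 1 5, .t 945 1 3, .f 954 1
  3] 136 136 [] [(135, 136, [4]), (136, 136, []), (152, 136, [1])]) (.br 1072 (.dom 151 136 [4,
  1]) (.hor [.f 944 1 5] []) .no (.br 1208 (.br 1203 (.hor [.f 1202 1 5] []) .no .no (.br 1200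
  (.con 136 [4, 4, 1, 1]) .no .no (.red [.f 1064 3 1] 150 136 [4, 4, 1] [(150, 136, [4, 4, 1])])
  .no .no) .no .no) .no .no (.hor [.f 1200 3 5] []) .no .no) .no .no) .no (.red [.t 1088 1 4, .f
  1081 1 5, .t 945 1 3, .f 954 1 3] 136 136 [] [(135, 136, [4]), (136, 136, []), (152, 136,
  [1])])) (.hor [.f 817 1 3, .f 945 3 5] [(119, 136, [2, 4])]) .no (.br 1073 (.use 2) .no .no
  (.hor [.f 1065 3 5] []) .no (.br 1209 (.use 1) .no (.use 3) (.br 1208 (.br 1203 (.hor [.f 1202 1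
  5] []) .no .no (.br 1064 (.con 136 [4, 4, 1, 1]) (.br 1200 (.con 136 [4, 4, 1, 1]) .no .no (.red
  [.t 936 1 3, .f 1064 3 1] 150 136 [4, 4, 1] [(134, 136, [4, 4]), (150, 136, [4, 4, 1])]) .no
  .no) .no (.use 6) (.red [.f 1064 5 3, .f 1065 3 5, .t 1209 4 2] 151 136 [4, 1] [(151, 136, [4,
  1])]) .no) .no .no) .no .no (.hor [.f 1200 3 5] []) .no .no) .no (.use 9))) .no (.br 1073 (.use
  2) .no .no (.hor [.f 1065 3 5] []) .no (.br 1209 (.use 1) .no (.use 3) (.br 1208 (.br 1203 (.hor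
  [.f 1202 1 5] []) .no .no (.br 1065 (.use 5) (.red [.f 944 5 1, .f 937 1 3, .f 1065 3 5, .t 1209
  4 2] 151 136 [4, 1] [(134, 150, [2]), (151, 136, [4, 1])]) .no (.br 1064 (.con 136 [4, 4, 1, 4])
  (.br 1200 (.con 136 [4, 4, 1, 1]) .no .no (.red [.f 944 5 1, .f 936 1 3, .f 1064 3 1] 150 136
  [4, 4, 1] [(134, 136, [4, 4]), (150, 136, [4, 4, 1])]) .no .no) .no (.hor [.f 1056 3 5] []) .no
  .no) .no (.red [.f 1064 5 3, .f 1065 3 5, .t 1209 4 2] 151 136 [4, 1] [(151, 136, [4, 1])])) .no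
  .no) .no .no (.hor [.f 1200 3 5] []) .no .no) .no (.use 9)))) .no .no (.red [.f 1066 3 1, .f
  1074 1 3] 151 136 [4, 1] [(150, 136, [4, 1, 4]), (151, 136, [4, 1])]) (.red [.t 1082 1 4, .t 962
  1 4, .f 1081 3 5] 136 136 [] [(136, 136, []), (151, 136, [4, 1])]) (.br 1209 (.use 1) .no (.br
  1073 .no (.red [.f 1081 3 1, .f 1081 1 5, .t 945 1 3, .f 954 1 3] 136 136 [] [(135, 136, [4]),
  (136, 136, []), (152, 136, [1])]) .no (.hor [.f 1065 3 5] []) .no (.br 945 .no (.hor [.f 817 1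
  3, .f 945 3 5] [(119, 136, [2, 4])]) .no (.use 11) .no (.br 1065 (.red [.t 1065 1 3, .f 1074 1
  3, .f 1074 3 5] 151 136 [4, 1] [(150, 136, [4, 4, 1]), (151, 136, [4, 1])]) (.red [.f 944 5 1,
  .f 937 1 3, .f 1065 3 5, .f 1073 5 1, .f 1074 1 3] 151 136 [4, 1] [(134, 150, [2]), (151, 136,
  [4, 1])]) .no (.br 1208 (.use 12) .no .no (.con 136 [4, 1, 1]) .no .no) .no (.red [.f 1064 5 3,
  .f 1065 3 5, .f 1073 5 1, .f 1074 1 3] 151 136 [4, 1] [(151, 136, [4, 1])])))) .no .no (.br 1073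
  .no (.red [.t 1088 1 4, .f 1081 1 5, .t 945 1 3, .f 954 1 3] 136 136 [] [(135, 136, [4]), (136,
  136, []), (152, 136, [1])]) .no (.hor [.f 1065 3 5] []) .no (.br 945 .no (.hor [.f 817 1 3, .f
  945 3 5] [(119, 136, [2, 4])]) .no (.use 14) .no (.use 15))))

def c28t17 : Tr4 :=
  .br 1097 (.con 136 [3, 3, 1]) .no (.hor [.f 1097 3 5] []) .no .no .no

def c28t18 : Tr4 :=
  .br 1097 (.con 136 [3, 3, 1]) .no (.hor [.f 1096 3 5] []) .no .no .no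

def c28t19 : Tr4 :=
  .br 1073 .no (.br 1072 (.dom 151 136 [4, 1]) (.hor [.f 944 1 5] []) .no (.br 1203 (.hor [.f 1202
  1 5] []) .no .no (.br 1200 (.con 136 [4, 4, 1, 1]) .no .no (.red [.f 1064 3 1] 150 136 [4, 4, 1]
  [(150, 136, [4, 4, 1])]) .no .no) .no .no) .no .no) .no (.hor [.f 1065 3 5] []) .no (.br 945 .no
  (.hor [.f 817 1 3, .f 945 3 5] [(119, 136, [2, 4])]) .no (.br 1203 (.hor [.f 1202 1 5] []) .no
  .no (.br 1064 (.con 136 [4, 4, 1, 1]) (.br 1200 (.con 136 [4, 4, 1, 1]) .no .no (.red [.t 936 1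
  3, .f 1064 3 1] 150 136 [4, 4, 1] [(134, 136, [4, 4]), (150, 136, [4, 4, 1])]) .no .no) .no
  (.use 6) (.red [.f 1064 5 3, .f 1065 3 5, .t 1209 4 2] 151 136 [4, 1] [(151, 136, [4, 1])]) .no)
  .no .no) .no (.br 1203 (.hor [.f 1202 1 5] []) .no .no (.br 1065 (.use 5) (.red [.f 944 5 1, .f
  937 1 3, .f 1065 3 5, .t 1209 4 2] 151 136 [4, 1] [(134, 150, [2]), (151, 136, [4, 1])]) .no
  (.br 1064 (.con 136 [4, 4, 1, 4]) (.br 1200 (.con 136 [4, 4, 1, 1]) .no .no (.red [.f 944 5 1,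
  .f 936 1 3, .f 1064 3 1] 150 136 [4, 4, 1] [(134, 136, [4, 4]), (150, 136, [4, 4, 1])]) .no .no)
  .no (.hor [.f 1056 3 5] []) .no .no) .no (.red [.f 1064 5 3, .f 1065 3 5, .t 1209 4 2] 151 136
  [4, 1] [(151, 136, [4, 1])])) .no .no))

def c28t20 : Tr4 :=
  .br 971 .no (.con 136 [2, 3, 3]) (.hor [.f 970 3 5] []) .no .no .no

def c28t21 : Tr4 :=
  .br 976 (.red [.f 968 1 3] 138 136 [3, 3] [(138, 136, [3, 3])]) (.br 978 (.red [.t 1090 2 3, .f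
  961 3 5, .t 1105 4 2] 138 136 [3, 3] [(137, 121, [1]), (138, 136, [3, 3])]) (.con 136 [2, 3, 3,
  3]) (.hor [.f 977 3 5] []) .no (.con 136 [2, 3, 3, 3]) .no) (.hor [.f 976 3 5] []) .no .no .no

def c28t22 : Tr4 :=
  .br 977 .no .no (.use 21) .no (.red [.t 1090 2 3, .f 961 3 5, .f 969 5 3, .f 969 3 1] 138 136
  [3, 3] [(137, 121, [1]), (138, 136, [3, 3])]) (.red [.t 1090 2 3, .f 961 3 5, .t 1096 2 3] 138
  136 [3, 3] [(137, 121, [1]), (138, 136, [3, 3])])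

def c28t23 : Tr4 :=
  .br 707 .no (.hor [.f 578 1 5] []) .no (.red [.t 698 1 3, .f 707 1 3] 105 136 [2, 2, 3] [(104,
  136, [2, 2]), (105, 136, [2, 2, 3])]) .no .no

def c28t24 : Tr4 :=
  .br 843 .no (.red [.t 714 4 1, .f 705 1 5] 105 136 [2, 2, 3] [(105, 136, [2, 2, 3])]) (.con 136
  [2, 3, 3, 2]) .no .no .no

def c28t25 : Tr4 :=
  .br 706 .no (.br 843 .no (.use 23) (.con 136 [2, 3, 3, 2]) .no .no .no) (.use 24) .no (.red [.f
  706 5 1, .f 705 1 5, .t 969 4 2] 121 136 [2, 3] [(121, 136, [2, 3])]) .no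

def c28t26 : Tr4 :=
  .br 1203 (.red [.f 1203 1 3] 167 136 [4, 1, 1] [(167, 136, [4, 1, 1])]) .no .no (.br 1064 (.con
  136 [4, 4, 1, 4]) (.br 1200 (.con 136 [4, 4, 1, 1]) .no .no (.red [.t 936 1 3, .f 1064 3 1] 150
  136 [4, 4, 1] [(134, 136, [4, 4]), (150, 136, [4, 4, 1])]) .no .no) .no (.hor [.f 1056 3 5] [])
  .no .no) .no .no

def c28t27 : Tr4 :=
  .br 1065 (.red [.t 1065 1 3, .f 1074 1 3, .f 1074 3 5] 151 136 [4, 1] [(150, 136, [4, 4, 1]),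
  (151, 136, [4, 1])]) (.red [.f 944 5 1, .f 937 1 3, .f 1065 3 5, .f 1073 5 1, .f 1074 1 3] 151
  136 [4, 1] [(134, 150, [2]), (151, 136, [4, 1])]) .no (.use 12) .no (.red [.f 1064 5 3, .f 1065
  3 5, .f 1073 5 1, .f 1074 1 3] 151 136 [4, 1] [(151, 136, [4, 1])])

def c28t28 : Tr4 :=
  .br 1202 (.br 1201 (.hor [.f 1201 1 5] []) (.use 2) (.br 1208 (.use 19) .no .no (.hor [.f 1200 3
  5] []) .no .no) (.use 7) .no (.use 8)) .no .no (.red [.f 1066 3 1, .f 1074 1 3] 151 136 [4, 1]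
  [(150, 136, [4, 1, 4]), (151, 136, [4, 1])]) (.red [.t 1082 1 4, .t 962 1 4, .f 1081 3 5] 136
  136 [] [(136, 136, []), (151, 136, [4, 1])]) (.br 1208 (.br 1209 (.hor [.f 1208 1 5] []) .no
  (.br 1073 .no (.red [.f 1081 3 1, .f 1081 1 5, .t 945 1 3, .f 954 1 3] 136 136 [] [(135, 136,
  [4]), (136, 136, []), (152, 136, [1])]) .no (.hor [.f 1065 3 5] []) .no (.br 945 .no (.hor [.f
  817 1 3, .f 945 3 5] [(119, 136, [2, 4])]) .no (.use 11) .no (.use 27))) .no .no .no) .no .no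
  (.con 136 [4, 1, 1]) (.br 1073 .no (.red [.t 1088 1 4, .f 1081 1 5, .t 945 1 3, .f 954 1 3] 136
  136 [] [(135, 136, [4]), (136, 136, []), (152, 136, [1])]) .no (.hor [.f 1065 3 5] []) .no (.br
  945 .no (.hor [.f 817 1 3, .f 945 3 5] [(119, 136, [2, 4])]) .no (.br 1065 (.red [.t 1065 1 3,
  .f 1074 1 3, .f 1074 3 5] 151 136 [4, 1] [(150, 136, [4, 4, 1]), (151, 136, [4, 1])]) .no .no
  (.use 26) .no (.red [.f 1064 5 3, .f 1065 3 5, .f 1073 5 1, .f 1074 1 3] 151 136 [4, 1] [(151,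
  136, [4, 1])])) .no (.use 15))) .no)

def c28t29 : Tr4 :=
  .br 1203 (.hor [.f 1202 1 5] []) .no .no (.con 136 [1, 1, 4, 4]) .no .no

def c28t30 : Tr4 :=
  .br 1338 (.hor [.f 1338 1 5] []) .no .no .no .no (.use 29)

def c28t31 : Tr4 :=
  .br 1339 (.use 30) .no (.red [.f 1211 3 1, .f 1218 1 5] 168 136 [1, 1] [(168, 136, [1, 1])])
  (.con 136 [4, 1, 1, 4]) .no (.red [.t 1218 1 4, .t 1098 1 4, .f 1217 3 5] 153 136 [3, 1] [(153,
  136, [3, 1]), (168, 136, [1, 1])])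

def c28t32 : Tr4 :=
  .br 1209 (.con 136 [1, 4, 1]) .no .no (.hor [.f 1200 3 5] []) .no .no

def c28t33 : Tr4 :=
  .br 1064 .no (.red [.t 936 1 3, .f 1064 3 1] 150 136 [4, 4, 1] [(134, 136, [4, 4]), (150, 136,
  [4, 4, 1])]) .no (.hor [.f 1056 3 5] []) .no .no

def c28t34 : Tr4 :=
  .br 1065 (.red [.t 1192 3 2, .f 1065 3 5] 150 136 [4, 4, 1] [(150, 136, [4, 4, 1])]) .no .no
  (.use 33) .no (.red [.f 1064 5 3, .f 1065 3 5, .t 1209 4 2] 151 136 [4, 1] [(151, 136, [4, 1])])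

def c28t35 : Tr4 :=
  .br 1200 (.con 136 [1, 4, 4, 1]) .no .no (.hor [.f 1192 3 5] []) .no .no

def c28t36 : Tr4 :=
  .br 1203 (.hor [.f 1202 1 5] []) .no .no (.con 136 [4, 1, 4, 1]) .no .no

def c28t37 : Tr4 :=
  .br 1201 (.hor [.f 1201 1 5] []) .no .no (.use 35) .no (.use 36)

def c28t38 : Tr4 :=
  .br 1064 .no (.red [.f 944 5 1, .f 936 1 3, .f 1064 3 1] 150 136 [4, 4, 1] [(134, 136, [4, 4]),
  (150, 136, [4, 4, 1])]) .no (.hor [.f 1056 3 5] []) .no .no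

def c28t39 : Tr4 :=
  .br 1065 (.red [.t 1192 3 2, .f 1065 3 5] 150 136 [4, 4, 1] [(150, 136, [4, 4, 1])]) (.red [.f
  944 5 1, .f 937 1 3, .f 1065 3 5, .t 1209 4 2] 151 136 [4, 1] [(134, 150, [2]), (151, 136, [4,
  1])]) .no (.use 38) .no (.red [.f 1064 5 3, .f 1065 3 5, .t 1209 4 2] 151 136 [4, 1] [(151, 136,
  [4, 1])])

def c28t40 : Tr4 :=
  .br 1218 (.br 1217 (.hor [.f 1217 1 5] []) .no (.br 1073 (.use 2) (.br 1208 (.br 1209 (.hor [.f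
  1208 1 5] []) .no .no (.br 1072 (.dom 151 136 [4, 1]) (.hor [.f 944 1 5] []) .no (.br 1200 (.use
  31) .no .no (.red [.f 1064 3 1] 150 136 [4, 4, 1] [(150, 136, [4, 4, 1])]) .no .no) .no .no) .no
  .no) .no .no (.use 32) (.red [.t 1088 1 4, .f 1081 1 5, .t 945 1 3, .f 954 1 3] 136 136 []
  [(135, 136, [4]), (136, 136, []), (152, 136, [1])]) .no) .no (.hor [.f 1065 3 5] []) .no (.br
  945 .no (.hor [.f 817 1 3, .f 945 3 5] [(119, 136, [2, 4])]) .no (.br 1208 (.br 1209 (.hor [.f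
  1208 1 5] []) .no .no (.br 1200 (.use 31) .no .no (.use 34) .no .no) .no .no) .no .no (.use 32)
  (.use 37) .no) .no (.br 1208 (.br 1209 (.hor [.f 1208 1 5] []) .no .no (.br 1200 (.use 31) .no
  .no (.use 39) .no .no) .no .no) .no .no (.use 32) (.use 37) .no))) (.con 136 [1, 1]) .no .no)
  .no .no .no .no (.red [.t 1081 3 1, .f 1210 3 5, .t 1098 1 4] 153 136 [3, 1] [(152, 136, [1]),
  (153, 136, [3, 1])])

def c28t41 : Tr4 :=
  .br 1218 (.hor [.f 1217 1 5] []) .no (.con 136 [3, 1, 1]) .no .no .no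

def c28t42 : Tr4 :=
  .br 1339 (.use 30) .no (.red [.f 1211 3 1, .f 1218 1 5] 168 136 [1, 1] [(168, 136, [1, 1])])
  (.con 136 [4, 1, 1, 4]) .no (.red [.t 1218 1 4] 168 136 [1, 1] [(168, 136, [1, 1])])

def c28l0 : List Tr4 :=
  [c28t0, c28t1, c28t2, c28t3, c28t4, c28t5, c28t6, c28t7, c28t8, c28t9, c28t10, c28t11, c28t12,
  c28t13, c28t14, c28t15, c28t16, c28t17, c28t18, c28t19, c28t20, c28t21, c28t22, c28t23, c28t24,
  c28t25, c28t26, c28t27, c28t28, c28t29, c28t30, c28t31, c28t32, c28t33, c28t34, c28t35, c28t36,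
  c28t37, c28t38, c28t39, c28t40, c28t41, c28t42]

theorem c28k0 : chkLF ⟨4, 1, 0, true, -8⟩ false 8 c28N 0 c28l0 = true := by decide +kernel

def c28t43 : Tr4 :=
  .br 1208 (.br 1209 (.hor [.f 1208 1 5] []) .no .no (.br 1072 (.dom 151 136 [4, 1]) (.hor [.f 944
  1 5] []) .no (.br 1218 (.br 1200 (.use 42) .no .no (.red [.f 1064 3 1] 150 136 [4, 4, 1] [(150,
  136, [4, 4, 1])]) .no .no) .no (.hor [.f 1217 3 5] []) .no .no .no) .no .no) .no .no) .no .no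
  (.use 32) (.red [.t 1088 1 4, .f 1081 1 5, .t 945 1 3, .f 954 1 3] 136 136 [] [(135, 136, [4]),
  (136, 136, []), (152, 136, [1])]) .no

def c28t44 : Tr4 :=
  .br 1217 (.use 41) .no (.use 43) (.con 136 [1, 1]) (.red [.t 1081 3 1, .t 945 1 3, .f 954 1 3]
  136 136 [] [(135, 136, [4]), (136, 136, []), (152, 136, [1])]) .no

def c28t45 : Tr4 :=
  .br 1208 (.br 1209 (.hor [.f 1208 1 5] []) .no .no (.br 1218 (.br 945 .no (.hor [.f 817 1 3, .f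
  945 3 5] [(119, 136, [2, 4])]) .no (.br 1339 (.br 1200 (.use 30) .no .no (.use 34) .no .no) .no
  (.red [.f 1211 3 1, .f 1218 1 5] 168 136 [1, 1] [(168, 136, [1, 1])]) (.br 1200 (.con 136 [4, 1,
  1, 4]) .no .no (.use 34) .no .no) .no (.red [.t 1218 1 4] 168 136 [1, 1] [(168, 136, [1, 1])]))
  .no (.br 1200 (.use 42) .no .no (.use 39) .no .no)) .no (.hor [.f 1217 3 5] []) .no .no .no) .no
  .no) .no .no (.use 32) (.use 37) .no

def c28t46 : Tr4 :=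
  .br 1106 (.con 136 [3, 3, 3, 1]) .no (.hor [.f 1105 3 5] []) .no (.con 136 [3, 3, 3, 1]) .no

def c28t47 : Tr4 :=
  .br 1347 (.br 1339 (.red [.f 1339 1 3, .f 1211 3 1] 168 136 [1, 1] [(168, 136, [1, 1]), (184,
  136, [1, 1, 1])]) .no .no (.con 136 [1, 4, 1, 4]) .no (.br 1346 (.hor [.f 1346 1 5] []) .no
  (.red [.t 1081 3 1, .f 1210 3 5, .t 1354 4 2] 169 136 [3, 1, 1] [(152, 136, [1]), (169, 136, [3,
  1, 1])]) .no .no (.red [.f 1217 5 1, .t 1218 1 4] 168 136 [1, 1] [(168, 136, [1, 1])]))) .no .no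
  (.red [.f 1211 3 1, .f 1219 1 3, .f 1091 3 1] 153 136 [3, 1] [(153, 136, [3, 1]), (168, 136, [1,
  1]), (169, 136, [3, 1, 1])]) .no (.red [.t 1081 3 1, .f 1210 3 5, .f 1218 5 1, .f 1219 1 3] 169
  136 [3, 1, 1] [(152, 136, [1]), (169, 136, [3, 1, 1])])

def c28t48 : Tr4 :=
  .br 1225 (.hor [.f 1225 1 5] []) .no (.con 136 [3, 1, 1, 3]) .no .no (.con 136 [3, 1, 3, 1])

def c28t49 : Tr4 :=
  .br 1226 (.use 48) .no (.hor [.f 1226 3 5] []) .no .no (.br 1224 (.con 136 [3, 3, 1, 1]) .no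
  (.red [.t 961 3 1, .f 968 1 5, .f 1096 5 3, .f 1096 3 1] 154 136 [3, 3, 1] [(137, 121, [1]),
  (154, 136, [3, 3, 1])]) .no .no .no)

def c28t50 : Tr4 :=
  .br 1227 (.use 47) .no (.use 49) .no .no (.red [.t 1081 3 1, .f 1210 3 5, .f 1218 5 3, .f 1091 3
  1] 153 136 [3, 1] [(152, 136, [1]), (153, 136, [3, 1])])

def c28t51 : Tr4 :=
  .br 1200 (.use 50) .no .no (.use 34) .no .no

def c28t52 : Tr4 :=
  .br 1104 (.br 977 (.br 978 (.hor [.f 977 1 5] []) (.con 136 [3, 3, 3]) (.con 136 [3, 3, 3]) .no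
  .no .no) .no (.hor [.f 976 3 5] []) .no (.br 1200 (.br 1105 (.hor [.f 1104 1 5] []) .no (.use
  46) .no (.br 1227 (.use 47) .no (.con 136 [3, 3, 1, 3]) .no .no (.red [.t 1081 3 1, .f 1210 3 5,
  .f 1218 5 3, .f 1091 3 1] 153 136 [3, 1] [(152, 136, [1]), (153, 136, [3, 1])])) .no) .no .no
  (.use 34) .no .no) .no) .no (.red [.f 976 3 1, .f 968 1 3] 138 136 [3, 3] [(138, 136, [3, 3]),
  (139, 136, [3, 3, 3])]) .no (.use 51) .no

def c28t53 : Tr4 :=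
  .br 1227 (.use 47) .no (.use 48) .no .no .no

def c28t54 : Tr4 :=
  .br 1226 (.use 53) .no (.red [.t 961 3 1, .t 1097 2 4, .t 1233 2 4] 154 136 [3, 3, 1] [(154,
  136, [3, 3, 1])]) .no (.red [.t 1081 3 1, .f 1210 3 5, .f 1218 5 3, .f 1091 3 1] 153 136 [3, 1]
  [(152, 136, [1]), (153, 136, [3, 1])]) (.red [.f 1097 5 1, .f 1097 1 3] 154 136 [3, 3, 1] [(154,
  136, [3, 3, 1])])

def c28t55 : Tr4 :=
  .br 1200 (.br 1105 (.use 54) .no (.br 1106 (.br 1226 (.use 53) .no .no .no (.red [.t 1081 3 1,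
  .f 1210 3 5, .f 1218 5 3, .f 1091 3 1] 153 136 [3, 1] [(152, 136, [1]), (153, 136, [3, 1])])
  (.br 1104 (.con 136 [3, 3, 3, 1]) .no (.hor [.f 1104 3 5] []) .no .no .no)) (.red [.t 961 3 1,
  .f 1090 3 5, .t 978 1 4] 138 136 [3, 3] [(137, 121, [1]), (138, 136, [3, 3])]) (.hor [.f 1105 3
  5] []) .no (.red [.t 961 3 1, .f 1090 3 5, .f 1098 5 3, .f 971 3 1] 138 136 [3, 3] [(137, 121,
  [1]), (138, 136, [3, 3])]) .no) .no (.red [.f 1097 5 3, .t 1096 2 3] 138 136 [3, 3] [(138, 136,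
  [3, 3])]) (.use 50)) .no .no (.use 34) .no .no

def c28t56 : Tr4 :=
  .br 1209 (.con 136 [4, 1, 1]) .no .no (.hor [.f 1200 3 5] []) .no .no

def c28t57 : Tr4 :=
  .br 1105 (.use 54) (.con 136 [3, 3, 1, 3]) (.con 136 [3, 3, 1, 3]) .no (.con 136 [3, 3, 1, 3])
  .no

def c28t58 : Tr4 :=
  .br 1217 (.use 41) .no (.red [.t 1090 2 3, .t 1210 2 3, .f 1081 3 5, .f 1089 5 3, .f 962 3 1, .f
  1089 3 1] 153 136 [3, 1] [(152, 136, [1]), (153, 136, [3, 1])]) (.con 136 [1, 1]) (.br 1073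
  (.use 2) (.use 44) .no (.hor [.f 1065 3 5] []) .no (.br 945 .no (.hor [.f 817 1 3, .f 945 3 5]
  [(119, 121, [4, 4])]) .no (.br 1208 (.br 1209 (.hor [.f 1208 1 5] []) .no .no (.br 1200 (.br
  1227 (.use 47) .no (.br 1104 (.use 57) (.red [.f 968 1 3] 138 136 [3, 3] [(138, 136, [3, 3])])
  (.br 976 .no (.br 1105 (.use 54) (.br 978 (.hor [.f 977 1 5] []) (.con 136 [3, 3, 3]) (.con 136
  [3, 3, 3]) .no (.con 136 [3, 3, 3]) .no) (.hor [.f 1104 3 5] []) .no (.br 977 .no (.hor [.f 848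
  1 5] []) (.br 978 .no (.con 136 [2, 3, 3, 3]) (.hor [.f 977 3 5] []) .no (.con 136 [2, 3, 3, 3])
  .no) .no (.red [.f 1097 5 3, .t 1090 2 3, .f 961 3 5, .f 969 5 3, .f 969 3 1] 138 136 [3, 3]
  [(137, 121, [1]), (138, 136, [3, 3])]) .no) .no) (.red [.f 976 3 1, .f 968 1 3] 138 136 [3, 3]
  [(138, 136, [3, 3]), (139, 136, [3, 3, 3])]) .no (.br 1105 (.use 54) .no (.hor [.f 1104 3 5] [])
  .no (.red [.t 1090 2 3, .f 1097 5 3, .t 1096 2 3] 138 136 [3, 3] [(137, 121, [1]), (138, 136,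
  [3, 3])]) .no) .no) .no (.use 49) .no) .no .no (.red [.t 1081 3 1, .f 1210 3 5, .f 1218 5 3, .f
  1091 3 1] 153 136 [3, 1] [(152, 136, [1]), (153, 136, [3, 1])])) .no .no (.use 34) .no .no) .no
  .no) .no .no (.use 56) (.use 37) .no) .no (.red [.f 944 5 1, .t 1081 3 1, .t 945 1 3, .f 954 1
  3] 136 136 [] [(135, 136, [4]), (136, 136, []), (152, 136, [1])]))) .no

def c28t59 : Tr4 :=
  .br 1073 (.use 2) (.use 43) .no (.hor [.f 1065 3 5] []) .no (.use 45)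

def c28t60 : Tr4 :=
  .br 707 .no (.hor [.f 578 1 5] []) .no (.red [.f 826 5 3, .f 699 3 1, .f 707 1 3] 105 136 [2, 2,
  3] [(104, 136, [2, 2]), (105, 136, [2, 2, 3])]) .no .no

def c28t61 : Tr4 :=
  .br 706 .no (.br 843 .no (.use 60) (.con 136 [2, 3, 3, 2]) .no .no .no) (.use 24) (.red [.f 826
  5 3, .f 698 3 1, .f 705 1 5, .t 969 4 2] 121 136 [2, 3] [(104, 105, [4]), (121, 136, [2, 3])])
  (.red [.f 706 5 1, .f 705 1 5, .t 969 4 2] 121 136 [2, 3] [(121, 136, [2, 3])]) .no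

def c28t62 : Tr4 :=
  .br 826 .no (.br 970 .no (.br 841 .no (.red [.f 705 1 3] 105 136 [2, 2, 3] [(105, 136, [2, 2,
  3])]) (.br 971 .no (.hor [.f 842 1 5] []) (.br 1073 (.use 2) (.use 44) .no (.hor [.f 1065 3 5]
  []) .no (.br 1217 (.use 41) .no (.use 45) (.con 136 [1, 1]) (.br 945 .no (.hor [.f 817 1 3, .f
  945 3 5] [(119, 121, [4, 4])]) .no (.br 1208 (.br 1209 (.hor [.f 1208 1 5] []) .no .no (.br 976
  (.red [.f 968 1 3] 138 136 [3, 3] [(138, 136, [3, 3])]) (.use 25) (.use 52) .no (.use 55) .no)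
  .no .no) .no .no (.use 56) (.use 37) .no) .no (.red [.f 944 5 1, .t 1081 3 1, .t 945 1 3, .f 954
  1 3] 136 136 [] [(135, 136, [4]), (136, 136, []), (152, 136, [1])])) .no)) .no .no .no) .no .no
  (.red [.t 960 2 3, .t 1080 2 3, .f 961 1 5] 121 136 [2, 3] [(121, 136, [2, 3]), (136, 136,
  [])])) (.use 20) .no (.use 58) .no) .no (.hor [.f 818 3 1, .f 825 1 5] [(119, 121, [4, 4])])
  (.br 970 .no (.br 1217 (.use 41) .no (.use 59) (.con 136 [1, 1]) (.br 1073 (.use 2) (.use 44)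
  .no (.hor [.f 1065 3 5] []) .no (.br 945 .no (.hor [.f 826 5 3, .f 817 1 3, .f 826 3 5, .f 945 3
  5] [(119, 121, [4, 4])]) .no (.br 1208 (.br 841 .no (.red [.f 705 1 3] 105 136 [2, 2, 3] [(105,
  136, [2, 2, 3])]) (.br 1209 (.hor [.f 1208 1 5] []) .no .no (.br 971 .no (.hor [.f 842 1 5] [])
  (.br 1104 (.br 1200 (.br 1227 (.use 47) .no (.use 57) .no .no (.red [.t 1081 3 1, .f 1210 3 5,
  .f 1218 5 3, .f 1091 3 1] 153 136 [3, 1] [(152, 136, [1]), (153, 136, [3, 1])])) .no .no (.use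
  34) .no .no) (.red [.f 968 1 3] 138 136 [3, 3] [(138, 136, [3, 3])]) (.br 976 .no (.use 61)
  (.use 52) .no (.use 55) .no) .no (.use 51) .no) .no .no .no) .no .no) .no .no (.red [.t 960 2 3,
  .t 1080 2 3, .f 961 1 5] 121 136 [2, 3] [(121, 136, [2, 3]), (136, 136, [])])) .no .no (.use 56)
  (.use 37) .no) .no (.red [.f 944 5 1, .t 1081 3 1, .t 945 1 3, .f 954 1 3] 136 136 [] [(135,
  136, [4]), (136, 136, []), (152, 136, [1])]))) .no) (.use 20) .no (.use 58) .no) .no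

def c28t63 : Tr4 :=
  .br 1225 (.hor [.f 1225 1 5] []) .no (.br 1200 (.br 1227 (.use 47) .no (.con 136 [3, 1, 3, 1])
  .no .no .no) .no .no (.use 34) .no .no) .no .no (.red [.t 1081 3 1, .f 1096 5 1, .f 1088 1 3]
  153 136 [3, 1] [(152, 136, [1]), (153, 136, [3, 1])])

def c28t64 : Tr4 :=
  .br 1096 (.red [.f 1088 1 3] 153 136 [3, 1] [(153, 136, [3, 1])]) .no (.use 18) .no (.br 1226
  (.use 63) .no (.red [.f 1098 3 1] 154 136 [3, 3, 1] [(154, 136, [3, 3, 1])]) .no (.red [.t 1081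
  3 1, .f 1210 3 5, .f 1218 5 3, .f 1091 3 1] 153 136 [3, 1] [(152, 136, [1]), (153, 136, [3,
  1])]) (.red [.f 1217 5 3, .t 1216 2 3] 153 136 [3, 1] [(153, 136, [3, 1])])) .no

def c28t65 : Tr4 :=
  .br 1097 (.con 136 [3, 3, 1]) .no (.hor [.f 1096 3 5] []) .no .no .no

def c28t66 : Tr4 :=
  .br 842 .no (.con 136 [2, 3, 2, 3]) (.hor [.f 841 3 5] []) .no (.con 136 [2, 3, 2, 3]) .no

def c28t67 : Tr4 :=
  .br 978 .no (.br 977 (.con 136 [3, 3, 3]) (.hor [.f 849 1 5] []) (.con 136 [2, 3, 3, 3]) .no .no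
  .no) (.red [.f 978 3 1] 139 136 [3, 3, 3] [(139, 136, [3, 3, 3])]) .no .no (.br 1105 (.br 1224
  (.hor [.f 1224 1 5] []) .no (.red [.t 1232 4 2] 154 136 [3, 3, 1] [(154, 136, [3, 3, 1])]) .no
  .no .no) .no (.hor [.f 1105 3 5] []) .no .no (.hor [.f 1096 5 3, .f 968 3 1, .t 1097 3 2, .f 970
  3 5, .f 976 1 5] []))

def c28t68 : Tr4 :=
  .br 1225 (.br 841 .no (.red [.f 705 1 3] 105 136 [2, 2, 3] [(105, 136, [2, 2, 3])]) (.use 66)
  .no (.br 706 .no (.br 1106 .no (.red [.f 962 1 3, .f 962 3 1, .f 970 1 3, .f 970 3 5] 138 136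
  [3, 3] [(138, 136, [3, 3])]) (.use 67) .no (.red [.t 970 1 3] 138 136 [3, 3] [(138, 136, [3,
  3])]) (.br 977 .no (.red [.f 962 1 3, .f 961 3 5, .f 841 5 1, .f 841 1 3] 122 136 [2, 3, 3]
  [(122, 136, [2, 3, 3]), (137, 121, [1])]) (.br 843 .no (.use 23) (.con 136 [2, 2, 3, 3]) .no .no
  .no) .no (.red [.f 977 5 1, .f 970 1 3] 138 136 [3, 3] [(138, 136, [3, 3])]) .no)) (.red [.t 705
  1 3] 105 136 [2, 2, 3] [(105, 136, [2, 2, 3])]) .no (.red [.f 706 5 1, .f 705 1 5, .f 833 5 3,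
  .f 833 3 1] 121 136 [2, 3] [(121, 136, [2, 3])]) .no) .no) .no (.hor [.f 1225 3 5] []) .no .no
  (.red [.t 1081 3 1, .f 1096 5 1, .f 1088 1 3] 153 136 [3, 1] [(152, 136, [1]), (153, 136, [3,
  1])])

def c28t69 : Tr4 :=
  .br 1225 (.br 1106 .no (.red [.f 962 1 3, .f 962 3 1, .f 970 1 3, .f 970 3 5] 138 136 [3, 3]
  [(138, 136, [3, 3])]) (.use 67) .no (.red [.t 970 1 3] 138 136 [3, 3] [(138, 136, [3, 3])]) (.br
  977 .no (.red [.f 962 1 3, .f 961 3 5, .f 841 5 1, .f 841 1 3] 122 136 [2, 3, 3] [(122, 136, [2,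
  3, 3]), (137, 121, [1])]) (.br 843 .no (.use 60) (.con 136 [2, 2, 3, 3]) .no .no .no) .no (.red
  [.f 977 5 1, .f 970 1 3] 138 136 [3, 3] [(138, 136, [3, 3])]) .no)) .no (.hor [.f 1225 3 5] [])
  .no .no (.red [.t 1081 3 1, .f 1096 5 1, .f 1088 1 3] 153 136 [3, 1] [(152, 136, [1]), (153,
  136, [3, 1])])

def c28l1 : List Tr4 :=
  [c28t43, c28t44, c28t45, c28t46, c28t47, c28t48, c28t49, c28t50, c28t51, c28t52, c28t53, c28t54,
  c28t55, c28t56, c28t57, c28t58, c28t59, c28t60, c28t61, c28t62, c28t63, c28t64, c28t65, c28t66,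
  c28t67, c28t68, c28t69]

theorem c28k1 : chkLF ⟨4, 1, 0, true, -8⟩ false 8 c28N 43 c28l1 = true := by decide +kernel

def c28t70 : Tr4 :=
  .br 834 .no (.hor [.f 705 1 5] []) (.use 0) (.br 1098 (.use 40) (.red [.f 962 1 3, .f 961 3 5,
  .t 825 1 3, .f 953 3 1, .t 1089 2 3] 136 136 [] [(120, 136, [2]), (136, 136, [])]) (.use 64) .no
  .no (.red [.t 961 3 1, .t 825 1 3, .f 953 3 1, .f 961 1 3] 136 136 [] [(120, 136, [2]), (136,
  136, [])])) (.br 1098 (.use 40) (.br 826 .no (.br 971 .no (.con 136 [2, 3, 3]) (.br 1096 (.red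
  [.f 1088 1 3] 153 136 [3, 1] [(153, 136, [3, 1])]) .no (.use 65) .no (.br 1226 (.use 63) .no
  (.use 68) .no (.red [.t 1081 3 1, .f 1210 3 5, .f 1218 5 3, .f 1091 3 1] 153 136 [3, 1] [(152,
  136, [1]), (153, 136, [3, 1])]) (.red [.f 1217 5 3, .t 1216 2 3] 153 136 [3, 1] [(153, 136, [3,
  1])])) .no) .no .no .no) .no (.hor [.f 818 3 1, .f 825 1 5] [(119, 121, [4, 4])]) (.br 1096
  (.red [.f 1088 1 3] 153 136 [3, 1] [(153, 136, [3, 1])]) .no (.use 65) .no (.br 841 .no (.red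
  [.f 705 1 3] 105 136 [2, 2, 3] [(105, 136, [2, 2, 3])]) (.use 66) .no (.br 706 .no (.br 971 .no
  (.con 136 [2, 3, 3]) (.br 1226 (.use 63) .no (.use 69) .no (.red [.t 1081 3 1, .f 1210 3 5, .f
  1218 5 3, .f 1091 3 1] 153 136 [3, 1] [(152, 136, [1]), (153, 136, [3, 1])]) (.red [.f 1217 5 3,
  .t 1216 2 3] 153 136 [3, 1] [(153, 136, [3, 1])])) .no .no .no) (.red [.t 705 1 3] 105 136 [2,
  2, 3] [(105, 136, [2, 2, 3])]) (.red [.f 826 5 3, .f 698 3 1, .f 705 1 5, .f 833 5 3, .f 833 3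
  1] 121 136 [2, 3] [(104, 105, [4]), (121, 136, [2, 3])]) (.red [.f 706 5 1, .f 705 1 5, .f 833 5
  3, .f 833 3 1] 121 136 [2, 3] [(121, 136, [2, 3])]) .no) .no) .no) .no) (.use 64) .no .no (.br
  1096 (.red [.f 1088 1 3] 153 136 [3, 1] [(153, 136, [3, 1])]) .no (.br 1224 (.br 1225 (.hor [.f
  1224 1 5] []) .no (.br 1226 (.con 136 [3, 3, 1, 1]) .no (.hor [.f 1225 3 5] []) .no (.con 136
  [3, 3, 1, 1]) .no) .no (.br 1200 (.br 1227 (.use 47) .no (.con 136 [3, 3, 1, 1]) .no .no .no)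
  .no .no (.use 34) .no .no) .no) .no (.red [.f 1096 3 1] 154 136 [3, 3, 1] [(154, 136, [3, 3,
  1])]) .no (.br 1200 (.br 1226 (.use 53) .no (.br 1227 (.use 47) .no (.hor [.f 1226 3 5] []) .no
  .no .no) .no (.red [.t 1081 3 1, .f 1210 3 5, .f 1218 5 3, .f 1091 3 1] 153 136 [3, 1] [(152,
  136, [1]), (153, 136, [3, 1])]) .no) .no .no (.use 34) .no .no) .no) .no .no .no)) .no

def c28t71 : Tr4 :=
  .br 1209 (.hor [.f 1208 1 5] []) .no .no .no .no .no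

def c28t72 : Tr4 :=
  .br 840 .no (.con 136 [2, 3, 2, 3]) (.hor [.f 840 3 5] []) .no .no .no

def c28t73 : Tr4 :=
  .br 843 .no (.use 23) (.use 72) .no .no .no

def c28t74 : Tr4 :=
  .br 843 .no (.use 60) (.use 72) .no .no .no

def c28t75 : Tr4 :=
  .br 843 .no (.red [.t 714 4 1, .f 705 1 5] 105 136 [2, 2, 3] [(105, 136, [2, 2, 3])]) (.use 72)
  .no .no .no

def c28t76 : Tr4 :=
  .br 841 .no (.red [.f 705 1 3] 105 136 [2, 2, 3] [(105, 136, [2, 2, 3])]) (.br 971 .no (.hor [.f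
  842 1 5] []) (.br 826 .no (.br 706 .no (.use 73) (.use 75) .no (.red [.f 706 5 1, .f 705 1 5, .t
  969 4 2] 121 136 [2, 3] [(121, 136, [2, 3])]) .no) .no (.hor [.f 818 3 1, .f 825 1 5] [(119,
  121, [4, 4])]) (.br 706 .no (.use 74) (.use 75) (.red [.f 826 5 3, .f 698 3 1, .f 705 1 5, .t
  969 4 2] 121 136 [2, 3] [(104, 105, [4]), (121, 136, [2, 3])]) (.red [.f 706 5 1, .f 705 1 5, .t
  969 4 2] 121 136 [2, 3] [(121, 136, [2, 3])]) .no) .no) .no .no .no) .no .no (.red [.t 960 2 3,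
  .t 1080 2 3, .f 961 1 5] 121 136 [2, 3] [(121, 136, [2, 3]), (136, 136, [])])

def c28t77 : Tr4 :=
  .br 706 .no (.use 23) (.red [.t 714 4 1, .f 705 1 5] 105 136 [2, 2, 3] [(105, 136, [2, 2, 3])])
  .no (.red [.f 706 5 1, .f 705 1 5, .t 969 4 2] 121 136 [2, 3] [(121, 136, [2, 3])]) .no

def c28t78 : Tr4 :=
  .br 843 .no (.use 77) (.con 136 [2, 2, 3, 3]) .no .no .no

def c28t79 : Tr4 :=
  .br 706 .no (.use 60) (.red [.t 714 4 1, .f 705 1 5] 105 136 [2, 2, 3] [(105, 136, [2, 2, 3])])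
  (.red [.f 826 5 3, .f 698 3 1, .f 705 1 5, .t 969 4 2] 121 136 [2, 3] [(104, 105, [4]), (121,
  136, [2, 3])]) (.red [.f 706 5 1, .f 705 1 5, .t 969 4 2] 121 136 [2, 3] [(121, 136, [2, 3])])
  .no

def c28t80 : Tr4 :=
  .br 843 .no (.use 79) (.con 136 [2, 2, 3, 3]) .no .no .no

def c28t81 : Tr4 :=
  .br 841 .no (.red [.f 705 1 3] 105 136 [2, 2, 3] [(105, 136, [2, 2, 3])]) (.br 826 .no (.use 78)
  .no (.hor [.f 818 3 1, .f 825 1 5] [(119, 121, [4, 4])]) (.use 80) .no) .no .no .no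

def c28t82 : Tr4 :=
  .br 971 .no (.hor [.f 842 1 5] []) (.use 81) .no .no .no

def c28t83 : Tr4 :=
  .br 971 .no (.con 136 [2, 3, 3]) (.hor [.f 970 3 5] []) .no .no .no

def c28t84 : Tr4 :=
  .br 1097 .no .no (.br 1096 (.red [.f 1088 1 3] 153 136 [3, 1] [(153, 136, [3, 1])]) (.br 1098
  (.br 970 .no (.br 841 .no (.red [.f 705 1 3, .f 833 3 1] 121 136 [2, 3] [(105, 136, [2, 3, 2]),
  (121, 136, [2, 3])]) (.br 971 .no (.hor [.f 842 1 5] []) (.br 1208 (.use 71) .no .no (.con 136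
  [1, 4, 1]) (.br 834 .no (.hor [.f 705 1 5] []) .no (.red [.t 1088 1 4, .t 968 1 4, .f 961 1 5,
  .t 825 1 3, .f 834 1 3] 121 136 [2, 3] [(120, 136, [2]), (121, 136, [2, 3]), (137, 121, [1]),
  (152, 136, [1])]) (.br 826 .no (.br 976 (.red [.f 968 1 3] 138 136 [3, 3] [(138, 136, [3, 3])])
  (.use 25) (.br 977 .no .no (.hor [.f 976 3 5] []) .no (.br 706 .no (.use 73) (.red [.t 841 3 1,
  .t 705 1 3, .f 833 3 1, .f 841 1 3] 105 136 [2, 2, 3] [(105, 136, [2, 2, 3]), (121, 136, [2,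
  3])]) .no (.red [.f 706 5 1, .f 705 1 5, .t 969 4 2] 121 136 [2, 3] [(121, 136, [2, 3])]) .no)
  .no) .no (.red [.t 1096 2 3, .t 1216 2 3, .f 1097 1 5] 138 136 [3, 3] [(138, 136, [3, 3]), (153,
  136, [3, 1])]) .no) .no (.hor [.f 818 3 1, .f 825 1 5] [(119, 121, [4, 4])]) (.br 976 (.red [.f
  968 1 3] 138 136 [3, 3] [(138, 136, [3, 3])]) (.use 61) (.br 977 .no .no (.hor [.f 976 3 5] [])
  .no (.br 706 .no (.use 74) (.red [.t 841 3 1, .t 705 1 3, .f 833 3 1, .f 841 1 3] 105 136 [2, 2,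
  3] [(105, 136, [2, 2, 3]), (121, 136, [2, 3])]) (.red [.f 826 5 3, .f 698 3 1, .f 705 1 5, .t
  969 4 2] 121 136 [2, 3] [(104, 105, [4]), (121, 136, [2, 3])]) (.red [.f 706 5 1, .f 705 1 5, .t
  969 4 2] 121 136 [2, 3] [(121, 136, [2, 3])]) .no) .no) .no (.red [.t 1096 2 3, .t 1216 2 3, .f
  1097 1 5] 138 136 [3, 3] [(138, 136, [3, 3]), (153, 136, [3, 1])]) .no) .no) .no) .no) .no .no
  .no) .no .no (.red [.t 960 2 3, .t 1080 2 3, .f 961 1 5] 121 136 [2, 3] [(121, 136, [2, 3]),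
  (136, 136, [])])) (.use 20) .no (.red [.t 1090 2 3, .t 1210 2 3, .f 1081 3 5, .t 1225 4 2, .f
  962 3 1] 153 136 [3, 1] [(152, 136, [1]), (153, 136, [3, 1])]) .no) (.con 136 [3, 3]) (.use 17)
  .no .no .no) (.hor [.f 1096 3 5] []) .no .no .no) .no (.br 834 .no (.hor [.f 705 1 5] []) (.use
  0) (.red [.t 961 3 1, .t 825 1 3, .f 953 3 1, .f 961 1 3] 136 136 [] [(120, 136, [2]), (136,
  136, [])]) (.br 968 (.br 970 .no (.use 76) (.use 20) .no (.red [.t 1090 2 3, .t 1210 2 3, .f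
  1081 3 5, .f 1089 5 3, .f 962 3 1, .f 1089 3 1] 153 136 [3, 1] [(152, 136, [1]), (153, 136, [3,
  1])]) .no) (.red [.f 832 1 3] 121 136 [2, 3] [(121, 136, [2, 3])]) (.br 840 .no (.br 970 .no
  (.use 82) (.use 83) .no (.red [.t 1090 2 3, .t 1210 2 3, .f 1081 3 5, .f 1089 5 3, .f 962 3 1,
  .f 1089 3 1] 153 136 [3, 1] [(152, 136, [1]), (153, 136, [3, 1])]) .no) (.red [.f 840 3 1, .f
  832 1 3, .f 960 3 5] 121 136 [2, 3] [(121, 136, [2, 3]), (122, 136, [2, 3, 3])]) .no (.red [.t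
  960 2 3, .t 1080 2 3, .f 961 1 5] 121 136 [2, 3] [(121, 136, [2, 3]), (136, 136, [])]) .no) .no
  .no .no) .no) (.red [.t 1216 2 3] 153 136 [3, 1] [(153, 136, [3, 1])])

def c28t85 : Tr4 :=
  .br 1209 (.hor [.f 1208 1 5] []) .no .no .no .no .no

def c28t86 : Tr4 :=
  .br 978 (.hor [.f 977 1 5] []) (.con 136 [3, 3, 3]) (.con 136 [3, 3, 3]) .no (.con 136 [3, 3,
  3]) .no

def c28t87 : Tr4 :=
  .br 1105 (.hor [.f 1104 1 5] []) .no (.use 46) .no (.red [.f 1097 5 3, .t 1090 2 3, .f 961 3 5,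
  .f 969 5 3, .f 969 3 1] 138 136 [3, 3] [(137, 121, [1]), (138, 136, [3, 3])]) .no

def c28t88 : Tr4 :=
  .br 976 (.red [.f 968 1 3] 138 136 [3, 3] [(138, 136, [3, 3])]) (.con 136 [2, 3, 3, 2]) (.br
  1104 (.br 977 (.use 86) .no (.hor [.f 976 3 5] []) .no (.use 87) .no) .no (.red [.f 976 3 1, .f
  968 1 3] 138 136 [3, 3] [(138, 136, [3, 3]), (139, 136, [3, 3, 3])]) .no (.br 977 .no .no (.hor
  [.f 976 3 5] []) .no (.red [.t 1090 2 3, .f 961 3 5, .f 969 5 3, .t 968 1 3] 138 136 [3, 3]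
  [(137, 121, [1]), (138, 136, [3, 3])]) .no) .no) .no (.br 840 .no (.con 136 [2, 3, 3, 2]) (.hor
  [.f 840 3 5] []) .no .no .no) .no

def c28t89 : Tr4 :=
  .br 840 .no (.con 136 [2, 3, 2, 3]) (.hor [.f 840 3 5] []) .no .no .no

def c28t90 : Tr4 :=
  .br 842 .no (.use 88) (.hor [.f 841 3 5] []) .no (.use 89) .no

def c28t91 : Tr4 :=
  .br 976 (.red [.f 968 1 3, .f 840 3 1] 122 136 [2, 3, 3] [(122, 136, [2, 3, 3]), (138, 136, [3,
  3])]) .no (.br 977 (.use 86) (.red [.t 1088 1 4, .t 968 1 4, .t 848 4 1, .f 832 1 3] 122 136 [2,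
  3, 3] [(121, 136, [2, 3]), (122, 136, [2, 3, 3]), (137, 121, [1]), (152, 136, [1])]) (.hor [.f
  976 3 5] []) .no (.br 1104 (.use 87) .no (.red [.f 976 3 1, .f 968 1 3, .f 840 3 1] 139 136 [3,
  3, 3] [(122, 136, [2, 3, 3]), (138, 136, [3, 3]), (139, 136, [3, 3, 3])]) .no (.red [.t 1090 2
  3, .f 961 3 5, .f 969 5 3, .t 968 1 3] 138 136 [3, 3] [(137, 121, [1]), (138, 136, [3, 3])])
  .no) .no) .no (.red [.t 1088 1 4, .t 968 1 4, .f 968 5 3, .f 840 3 1] 122 136 [2, 3, 3] [(122,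
  136, [2, 3, 3]), (137, 121, [1]), (152, 136, [1])]) .no

def c28t92 : Tr4 :=
  .br 843 .no (.use 23) (.con 136 [2, 2, 3, 3]) .no .no .no

def c28t93 : Tr4 :=
  .br 843 .no (.use 60) (.con 136 [2, 2, 3, 3]) .no .no .no

def c28t94 : Tr4 :=
  .br 1225 (.hor [.f 1225 1 5] []) .no (.br 1224 (.con 136 [3, 1, 3, 1]) .no (.hor [.f 1224 3 5]
  []) .no .no .no) .no .no (.red [.t 1081 3 1, .f 1096 5 1, .f 1088 1 3] 153 136 [3, 1] [(152,
  136, [1]), (153, 136, [3, 1])])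

def c28t95 : Tr4 :=
  .br 1096 (.red [.f 1088 1 3] 153 136 [3, 1] [(153, 136, [3, 1])]) .no (.use 18) .no (.br 1226
  (.use 94) .no (.red [.f 1098 3 1] 154 136 [3, 3, 1] [(154, 136, [3, 3, 1])]) .no (.red [.t 1081
  3 1, .f 1210 3 5, .f 1218 5 3, .f 1091 3 1] 153 136 [3, 1] [(152, 136, [1]), (153, 136, [3,
  1])]) (.red [.f 1217 5 3, .t 1216 2 3] 153 136 [3, 1] [(153, 136, [3, 1])])) .no

def c28t96 : Tr4 :=
  .br 842 .no (.con 136 [2, 3, 2, 3]) (.hor [.f 841 3 5] []) .no (.con 136 [2, 3, 2, 3]) .no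

def c28t97 : Tr4 :=
  .br 706 .no (.use 92) (.red [.t 705 1 3] 105 136 [2, 2, 3] [(105, 136, [2, 2, 3])]) .no (.red
  [.f 706 5 1, .f 705 1 5, .f 833 5 3, .f 833 3 1] 121 136 [2, 3] [(121, 136, [2, 3])]) .no

def c28t98 : Tr4 :=
  .br 841 .no (.red [.f 705 1 3] 105 136 [2, 2, 3] [(105, 136, [2, 2, 3])]) (.use 96) .no (.use
  97) .no

def c28t99 : Tr4 :=
  .br 841 .no (.red [.f 705 1 3] 105 136 [2, 2, 3] [(105, 136, [2, 2, 3])]) (.use 96) .no (.br 706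
  .no (.use 93) (.red [.t 705 1 3] 105 136 [2, 2, 3] [(105, 136, [2, 2, 3])]) (.red [.f 826 5 3,
  .f 698 3 1, .f 705 1 5, .f 833 5 3, .f 833 3 1] 121 136 [2, 3] [(104, 105, [4]), (121, 136, [2,
  3])]) (.red [.f 706 5 1, .f 705 1 5, .f 833 5 3, .f 833 3 1] 121 136 [2, 3] [(121, 136, [2,
  3])]) .no) .no

def c28t100 : Tr4 :=
  .br 826 .no (.use 98) .no (.hor [.f 818 3 1, .f 825 1 5] [(119, 121, [4, 4])]) (.use 99) .no

def c28t101 : Tr4 :=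
  .br 968 (.br 1098 (.red [.t 1081 3 1, .f 1210 3 5, .t 1098 1 4] 153 136 [3, 1] [(152, 136, [1]),
  (153, 136, [3, 1])]) (.con 136 [3, 3]) (.use 17) .no .no (.br 834 .no (.hor [.f 705 1 5] [])
  (.use 0) (.red [.t 961 3 1, .t 825 1 3, .f 953 3 1, .f 961 1 3] 136 136 [] [(120, 136, [2]),
  (136, 136, [])]) (.br 970 .no (.use 76) (.use 20) .no (.br 826 .no (.br 841 .no (.red [.f 705 1
  3] 105 136 [2, 2, 3] [(105, 136, [2, 2, 3])]) (.use 90) .no (.br 1208 (.use 85) .no .no (.con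
  136 [4, 1, 1]) (.br 706 .no (.br 840 .no (.use 92) (.use 91) .no .no .no) (.red [.t 705 1 3] 105
  136 [2, 2, 3] [(105, 136, [2, 2, 3])]) .no (.red [.f 706 5 1, .f 705 1 5, .f 833 5 3, .f 833 3
  1] 121 136 [2, 3] [(121, 136, [2, 3])]) .no) .no) (.red [.t 960 2 3, .t 1080 2 3, .f 961 1 5]
  121 136 [2, 3] [(121, 136, [2, 3]), (136, 136, [])])) .no (.hor [.f 818 3 1, .f 825 1 5] [(119,
  121, [4, 4])]) (.br 841 .no (.red [.f 705 1 3] 105 136 [2, 2, 3] [(105, 136, [2, 2, 3])]) (.use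
  90) .no (.br 1208 (.use 85) .no .no (.con 136 [4, 1, 1]) (.br 706 .no (.br 840 .no (.use 93)
  (.use 91) .no .no .no) (.red [.t 705 1 3] 105 136 [2, 2, 3] [(105, 136, [2, 2, 3])]) (.red [.f
  826 5 3, .f 698 3 1, .f 705 1 5, .f 833 5 3, .f 833 3 1] 121 136 [2, 3] [(104, 105, [4]), (121,
  136, [2, 3])]) (.red [.f 706 5 1, .f 705 1 5, .f 833 5 3, .f 833 3 1] 121 136 [2, 3] [(121, 136,
  [2, 3])]) .no) .no) (.red [.t 960 2 3, .t 1080 2 3, .f 961 1 5] 121 136 [2, 3] [(121, 136, [2,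
  3]), (136, 136, [])])) .no) .no) .no)) (.red [.f 832 1 3] 121 136 [2, 3] [(121, 136, [2, 3])])
  (.br 840 .no (.br 834 .no (.hor [.f 705 1 5] []) (.use 0) (.br 1098 (.red [.t 1081 3 1, .f 1210
  3 5, .t 1098 1 4] 153 136 [3, 1] [(152, 136, [1]), (153, 136, [3, 1])]) (.red [.f 962 1 3, .f
  961 3 5, .t 825 1 3, .f 953 3 1, .t 1089 2 3] 136 136 [] [(120, 136, [2]), (136, 136, [])])
  (.use 95) .no .no (.red [.t 961 3 1, .t 825 1 3, .f 953 3 1, .f 961 1 3] 136 136 [] [(120, 136,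
  [2]), (136, 136, [])])) (.br 970 (.br 1096 (.red [.f 1088 1 3] 153 136 [3, 1] [(153, 136, [3,
  1])]) .no (.use 65) .no (.br 841 .no (.red [.f 705 1 3] 105 136 [2, 2, 3] [(105, 136, [2, 2,
  3])]) (.use 66) .no (.br 971 .no (.con 136 [2, 3, 3]) (.br 826 .no (.br 1226 (.use 94) .no (.use
  68) .no (.red [.t 1081 3 1, .f 1210 3 5, .f 1218 5 3, .f 1091 3 1] 153 136 [3, 1] [(152, 136,
  [1]), (153, 136, [3, 1])]) (.red [.f 1217 5 3, .t 1216 2 3] 153 136 [3, 1] [(153, 136, [3,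
  1])])) .no (.hor [.f 818 3 1, .f 825 1 5] [(119, 121, [4, 4])]) (.br 706 .no (.br 1226 (.use 94)
  .no (.use 69) .no (.red [.t 1081 3 1, .f 1210 3 5, .f 1218 5 3, .f 1091 3 1] 153 136 [3, 1]
  [(152, 136, [1]), (153, 136, [3, 1])]) (.red [.f 1217 5 3, .t 1216 2 3] 153 136 [3, 1] [(153,
  136, [3, 1])])) (.red [.t 705 1 3] 105 136 [2, 2, 3] [(105, 136, [2, 2, 3])]) (.red [.f 826 5 3,
  .f 698 3 1, .f 705 1 5, .f 833 5 3, .f 833 3 1] 121 136 [2, 3] [(104, 105, [4]), (121, 136, [2,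
  3])]) (.red [.f 706 5 1, .f 705 1 5, .f 833 5 3, .f 833 3 1] 121 136 [2, 3] [(121, 136, [2,
  3])]) .no) .no) .no .no .no) .no) .no) (.use 82) (.use 83) .no (.use 100) .no) .no) (.red [.f
  840 3 1, .f 832 1 3, .f 960 3 5] 121 136 [2, 3] [(121, 136, [2, 3]), (122, 136, [2, 3, 3])]) .no
  (.red [.t 960 2 3, .t 1080 2 3, .f 961 1 5] 121 136 [2, 3] [(121, 136, [2, 3]), (136, 136, [])])
  .no) .no .no .no

def c28t102 : Tr4 :=
  .br 1203 (.hor [.f 1202 1 5] []) .no .no (.con 136 [4, 1, 4, 1]) .no .no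

def c28l2 : List Tr4 :=
  [c28t70, c28t71, c28t72, c28t73, c28t74, c28t75, c28t76, c28t77, c28t78, c28t79, c28t80, c28t81,
  c28t82, c28t83, c28t84, c28t85, c28t86, c28t87, c28t88, c28t89, c28t90, c28t91, c28t92, c28t93,
  c28t94, c28t95, c28t96, c28t97, c28t98, c28t99, c28t100, c28t101, c28t102]

theorem c28k2 : chkLF ⟨4, 1, 0, true, -8⟩ false 8 c28N 70 c28l2 = true := by decide +kernel

def c28t103 : Tr4 :=
  .br 1201 (.hor [.f 1201 1 5] []) (.use 2) (.br 1208 (.use 19) .no (.br 1073 .no (.br 1072 (.dom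
  151 136 [4, 1]) (.hor [.f 944 1 5] []) .no (.br 1200 (.use 102) .no .no (.red [.f 1064 3 1] 150
  136 [4, 4, 1] [(150, 136, [4, 4, 1])]) .no .no) .no .no) .no (.hor [.f 1065 3 5] []) .no (.br
  945 .no (.hor [.f 817 1 3, .f 945 3 5] [(119, 136, [2, 4])]) .no (.br 1200 (.use 102) .no .no
  (.use 34) .no .no) .no (.br 1203 (.hor [.f 1202 1 5] []) .no .no (.br 1200 (.con 136 [4, 4, 1,
  1]) .no .no (.use 39) .no .no) .no .no))) (.hor [.f 1200 3 5] []) .no .no) (.use 7) .no (.use 8)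

def c28t104 : Tr4 :=
  .br 1216 (.hor [.f 1216 1 5] []) .no (.hor [.f 1088 3 1, .f 1096 1 5] [(153, 136, [3, 1])]) .no
  .no .no

def c28t105 : Tr4 :=
  .br 1209 (.hor [.f 1208 1 5] []) .no .no .no .no .no

def c28t106 : Tr4 :=
  .br 1208 (.use 105) .no .no (.con 136 [4, 1, 1]) (.red [.f 1208 5 3, .f 1081 3 1, .f 1081 1 5,
  .t 945 1 3, .f 954 1 3] 136 136 [] [(135, 136, [4]), (136, 136, []), (152, 136, [1])]) .no

def c28t107 : Tr4 :=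
  .br 1338 (.br 1203 (.red [.f 1203 1 3] 167 136 [4, 1, 1] [(167, 136, [4, 1, 1])]) .no .no (.br
  1200 (.con 136 [4, 4, 1, 1]) .no .no (.use 33) .no .no) .no .no) .no (.hor [.t 1337 2 3, .f 1208
  3 5] [(168, 167, [3])]) (.red [.t 1337 2 4] 167 136 [4, 1, 1] [(167, 136, [4, 1, 1])]) .no .no

def c28t108 : Tr4 :=
  .br 1209 (.hor [.f 1209 1 3, .f 1208 3 5] [(168, 136, [1, 1])]) .no .no .no .no .no

def c28t109 : Tr4 :=
  .br 1202 (.use 103) .no .no (.red [.f 1066 3 1, .f 1074 1 3] 151 136 [4, 1] [(150, 136, [4, 1,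
  4]), (151, 136, [4, 1])]) (.red [.t 1082 1 4, .t 962 1 4, .f 1081 3 5] 136 136 [] [(136, 136,
  []), (151, 136, [4, 1])]) (.br 1073 .no (.br 1217 (.br 1209 (.red [.f 1209 1 3, .f 1081 3 1, .f
  1081 1 5, .t 945 1 3, .f 954 1 3] 136 136 [] [(135, 136, [4]), (136, 136, []), (152, 136, [1]),
  (168, 167, [3])]) .no .no .no .no (.use 104)) .no .no (.red [.f 1081 3 1, .f 1081 1 5, .t 945 1
  3, .f 954 1 3] 136 136 [] [(135, 136, [4]), (136, 136, []), (152, 136, [1])]) (.red [.t 1081 3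
  1, .t 945 1 3, .f 954 1 3] 136 136 [] [(135, 136, [4]), (136, 136, []), (152, 136, [1])]) (.use
  106)) .no (.hor [.f 1065 3 5] []) .no (.br 945 .no (.hor [.f 817 1 3, .f 945 3 5] [(119, 136,
  [2, 4])]) .no (.br 1065 (.red [.t 1065 1 3, .f 1074 1 3, .f 1074 3 5] 151 136 [4, 1] [(150, 136,
  [4, 4, 1]), (151, 136, [4, 1])]) .no .no (.br 1208 (.use 10) .no (.br 1209 (.br 1217 (.hor [.f
  1209 1 3, .f 1208 3 5] [(168, 167, [3])]) .no .no .no (.use 107) .no) .no (.hor [.f 1208 3 5]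
  []) .no .no .no) (.con 136 [4, 1, 1]) (.use 13) .no) .no (.red [.f 1064 5 3, .f 1065 3 5, .f
  1073 5 1, .f 1074 1 3] 151 136 [4, 1] [(151, 136, [4, 1])])) .no (.br 1208 (.use 27) .no (.br
  1217 (.use 108) .no .no (.hor [.f 1208 3 5] []) (.red [.f 944 5 1, .t 1081 3 1, .t 945 1 3, .f
  954 1 3] 136 136 [] [(135, 136, [4]), (136, 136, []), (152, 136, [1])]) .no) (.con 136 [4, 1,
  1]) (.use 15) .no)))

def c28t110 : Tr4 :=
  .br 1225 (.hor [.f 1217 1 3, .f 1216 3 5] [(169, 136, [1, 1, 3])]) .no (.hor [.f 1097 3 1, .f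
  1097 1 5] [(154, 136, [3, 3, 1])]) .no .no .no

def c28t111 : Tr4 :=
  .br 1216 (.hor [.f 1216 1 5] []) .no (.use 110) .no .no .no

def c28t112 : Tr4 :=
  .br 1331 (.br 1329 (.con 136 [4, 1, 1, 4, 1]) .no .no (.hor [.f 1321 3 5] []) .no (.con 136 [4,
  1, 1, 4, 1])) .no .no (.hor [.f 1322 3 5] []) .no .no

def c28t113 : Tr4 :=
  .br 1322 (.br 1192 (.hor [.f 1192 1 5] []) .no .no (.con 136 [4, 1, 4, 4, 1]) .no .no) .no .no
  (.red [.f 1186 3 1, .f 1193 1 5] 165 136 [4, 1, 4, 4, 1] [(165, 136, [4, 1, 4, 4, 1])]) (.red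
  [.f 1322 5 3, .f 1195 3 1, .f 1203 1 3] 167 136 [4, 1, 1] [(166, 136, [4, 1, 4, 1]), (167, 136,
  [4, 1, 1])]) .no

def c28t114 : Tr4 :=
  .br 1321 (.hor [.f 1321 1 5] []) .no (.red [.t 1450 2 3, .f 1321 3 5, .f 1201 5 1, .f 1201 1 3]
  167 136 [4, 1, 1] [(167, 136, [4, 1, 1]), (182, 181, [3])]) (.con 136 [4, 1, 1, 4, 1, 4]) .no
  (.con 136 [4, 1, 1, 4, 1, 4])

def c28t115 : Tr4 :=
  .br 1459 (.red [.f 1459 1 3, .t 1466 2 4] 183 136 [4, 1, 1, 1] [(183, 136, [4, 1, 1, 1]), (199,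
  136, [4, 1, 1, 1, 1])]) .no .no (.use 114) .no (.red [.f 1330 5 1, .f 1330 1 3, .t 1337 2 4] 167
  136 [4, 1, 1] [(167, 136, [4, 1, 1]), (183, 136, [4, 1, 1, 1])])

def c28t116 : Tr4 :=
  .br 1323 (.hor [.f 1322 1 5] []) .no .no (.con 136 [4, 1, 4, 1, 4, 1]) .no .no

def c28t117 : Tr4 :=
  .br 1323 (.hor [.f 1322 1 5] []) .no .no (.con 136 [4, 1, 1, 4, 1, 4]) .no .no

def c28t118 : Tr4 :=
  .br 1185 (.red [.f 1192 5 1, .f 1185 1 3] 165 136 [4, 1, 1, 4, 4] [(165, 136, [4, 1, 1, 4, 4])])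
  .no .no (.hor [.f 1176 3 5] []) .no .no

def c28t119 : Tr4 :=
  .br 1321 (.hor [.f 1321 1 5] []) .no .no (.use 117) .no (.use 118)

def c28t120 : Tr4 :=
  .br 1185 (.br 1458 (.hor [.f 1458 1 5] []) .no .no .no .no (.red [.t 1321 3 1, .t 1185 1 3, .t
  1194 1 3] 166 136 [4, 1, 4, 1] [(165, 136, [4, 1, 4, 4, 1]), (166, 136, [4, 1, 4, 1]), (182,
  166, [1])])) .no .no (.hor [.f 1176 3 5] []) .no .no

def c28t121 : Tr4 :=
  .br 1459 (.br 1329 (.use 119) .no .no (.use 120) .no .no) .no .no (.use 114) .no (.red [.f 1330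
  5 1, .f 1330 1 3, .t 1337 2 4] 167 136 [4, 1, 1] [(167, 136, [4, 1, 1]), (183, 136, [4, 1, 1,
  1])])

def c28t122 : Tr4 :=
  .br 1185 (.red [.t 1185 1 3, .t 1194 1 3] 166 136 [4, 4, 1, 1] [(165, 136, [4, 4, 1, 4, 1]),
  (166, 136, [4, 4, 1, 1])]) .no .no (.br 1184 (.br 1313 (.br 1314 (.hor [.f 1313 1 5] []) .no .no
  (.con 136 [4, 4, 1, 4, 1, 1, 4]) (.con 136 [4, 4, 1, 4, 1, 4]) .no) .no .no (.red [.f 1177 3 1,
  .f 1184 1 5] 164 136 [4, 4, 1, 4, 4, 1] [(164, 136, [4, 4, 1, 4, 4, 1])]) (.red [.f 1313 5 3, .f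
  1186 3 1, .t 1194 1 3, .f 1203 1 3] 167 136 [4, 1, 1] [(165, 136, [4, 4, 1, 4, 1]), (166, 136,
  [4, 4, 1, 1]), (167, 136, [4, 1, 1])]) .no) .no .no (.hor [.f 1176 3 5] []) .no .no) .no (.red
  [.f 1184 5 3, .f 1057 3 1, .t 1065 1 3, .f 1074 1 3] 151 136 [4, 1] [(149, 136, [4, 4, 1, 4]),
  (150, 136, [4, 4, 1]), (151, 136, [4, 1])])

def c28t123 : Tr4 :=
  .br 1345 (.br 1344 (.hor [.f 1344 1 5] []) .no (.br 1330 (.red [.f 1330 1 3, .t 1337 2 4] 167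
  136 [4, 1, 1] [(167, 136, [4, 1, 1]), (183, 136, [4, 1, 1, 1])]) .no .no (.use 112) (.br 1194
  (.red [.t 1194 1 3, .f 1203 1 3] 167 136 [4, 1, 1] [(166, 136, [4, 4, 1, 1]), (167, 136, [4, 1,
  1])]) .no .no (.br 1193 (.use 113) .no .no (.hor [.f 1185 3 5] []) .no (.br 1056 (.red [.t 1056
  1 3, .t 1065 1 3, .f 1074 1 3] 151 136 [4, 1] [(149, 136, [4, 4, 1, 4]), (150, 136, [4, 4, 1]),
  (151, 136, [4, 1])]) (.hor [.f 928 1 3, .f 1056 3 5] [(133, 165, [2, 2])]) .no (.br 1467 (.br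
  1322 (.br 1184 (.use 116) .no .no (.br 1336 (.use 115) .no .no (.use 121) .no .no) (.red [.f
  1184 5 3, .f 1057 3 1, .t 1065 1 3, .f 1074 1 3] 151 136 [4, 1] [(149, 136, [4, 4, 1, 4]), (150,
  136, [4, 4, 1]), (151, 136, [4, 1])]) .no) .no .no (.red [.f 1186 3 1, .t 1194 1 3] 166 136 [4,
  4, 1, 1] [(165, 136, [4, 4, 1, 4, 1]), (166, 136, [4, 4, 1, 1])]) (.red [.f 1322 5 3, .f 1195 3
  1, .f 1203 1 3] 167 136 [4, 1, 1] [(166, 136, [4, 4, 1, 1]), (167, 136, [4, 1, 1])]) (.use 122))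
  .no (.br 1322 (.br 1184 (.use 116) .no .no (.br 1321 (.hor [.f 1321 1 5] []) .no (.br 1459 (.br
  1328 (.br 1336 (.red [.f 1328 1 3] 183 136 [4, 1, 1, 1] [(183, 136, [4, 1, 1, 1])]) .no .no .no
  .no .no) .no (.use 120) (.hor [.f 1320 3 5] []) .no .no) .no .no (.use 114) .no (.red [.f 1330 5
  1, .f 1330 1 3, .t 1337 2 4] 167 136 [4, 1, 1] [(167, 136, [4, 1, 1]), (183, 136, [4, 1, 1,
  1])])) (.use 117) .no (.use 118)) (.red [.f 1184 5 3, .f 1057 3 1, .t 1065 1 3, .f 1074 1 3] 151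
  136 [4, 1] [(149, 136, [4, 4, 1, 4]), (150, 136, [4, 4, 1]), (151, 136, [4, 1])]) .no) .no .no
  (.red [.f 1186 3 1, .t 1194 1 3] 166 136 [4, 4, 1, 1] [(165, 136, [4, 4, 1, 4, 1]), (166, 136,
  [4, 4, 1, 1])]) (.red [.f 1322 5 3, .f 1195 3 1, .f 1203 1 3] 167 136 [4, 1, 1] [(166, 136, [4,
  4, 1, 1]), (167, 136, [4, 1, 1])]) (.use 122)) (.red [.t 1466 2 4, .t 1337 2 4] 167 136 [4, 1,
  1] [(167, 136, [4, 1, 1]), (183, 136, [4, 1, 1, 1])]) .no .no) .no .no)) .no (.red [.f 1193 5 3,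
  .f 1066 3 1, .f 1074 1 3] 151 136 [4, 1] [(150, 136, [4, 4, 1]), (151, 136, [4, 1])])) (.red [.f
  1201 5 1, .f 1201 1 3] 167 136 [4, 1, 1] [(167, 136, [4, 1, 1])])) (.hor [.f 1208 3 1, .f 1208 1
  5] [(168, 167, [3])]) .no .no) .no (.hor [.f 1217 3 1, .f 1217 1 5] [(169, 167, [3, 3])]) .no
  .no (.br 1330 (.red [.f 1330 1 3, .t 1337 2 4] 167 136 [4, 1, 1] [(167, 136, [4, 1, 1]), (183,
  136, [4, 1, 1, 1])]) .no .no (.use 112) (.br 1194 (.red [.t 1194 1 3, .f 1203 1 3] 167 136 [4,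
  1, 1] [(166, 136, [4, 4, 1, 1]), (167, 136, [4, 1, 1])]) .no .no (.br 1193 (.use 113) .no .no
  (.hor [.f 1185 3 5] []) .no (.br 1056 (.red [.t 1056 1 3, .t 1065 1 3, .f 1074 1 3] 151 136 [4,
  1] [(149, 136, [4, 4, 1, 4]), (150, 136, [4, 4, 1]), (151, 136, [4, 1])]) (.hor [.f 928 1 3, .f
  1056 3 5] [(133, 165, [2, 2])]) .no (.br 1322 (.br 1467 (.br 1336 (.use 115) .no .no (.br 1184
  (.use 116) .no .no (.use 121) (.red [.f 1184 5 3, .f 1057 3 1, .t 1065 1 3, .f 1074 1 3] 151 136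
  [4, 1] [(149, 136, [4, 4, 1, 4]), (150, 136, [4, 4, 1]), (151, 136, [4, 1])]) .no) .no .no) .no
  (.br 1184 (.use 116) .no .no (.br 1321 (.hor [.f 1321 1 5] []) .no (.br 1459 (.br 1336 (.br 1328
  (.red [.f 1328 1 3] 183 136 [4, 1, 1, 1] [(183, 136, [4, 1, 1, 1])]) .no .no (.hor [.f 1320 3 5]
  []) .no .no) .no .no (.use 120) .no .no) .no .no (.use 114) .no (.red [.f 1330 5 1, .f 1330 1 3,
  .t 1337 2 4] 167 136 [4, 1, 1] [(167, 136, [4, 1, 1]), (183, 136, [4, 1, 1, 1])])) (.use 117)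
  .no (.use 118)) (.red [.f 1184 5 3, .f 1057 3 1, .t 1065 1 3, .f 1074 1 3] 151 136 [4, 1] [(149,
  136, [4, 4, 1, 4]), (150, 136, [4, 4, 1]), (151, 136, [4, 1])]) .no) (.red [.t 1466 2 4, .t 1337
  2 4] 167 136 [4, 1, 1] [(167, 136, [4, 1, 1]), (183, 136, [4, 1, 1, 1])]) .no .no) .no .no (.red
  [.f 1186 3 1, .t 1194 1 3] 166 136 [4, 4, 1, 1] [(165, 136, [4, 4, 1, 4, 1]), (166, 136, [4, 4,
  1, 1])]) (.red [.f 1322 5 3, .f 1195 3 1, .f 1203 1 3] 167 136 [4, 1, 1] [(166, 136, [4, 4, 1,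
  1]), (167, 136, [4, 1, 1])]) (.use 122)) .no .no)) .no (.red [.f 1193 5 3, .f 1066 3 1, .f 1074
  1 3] 151 136 [4, 1] [(150, 136, [4, 4, 1]), (151, 136, [4, 1])])) (.red [.f 1201 5 1, .f 1201 1
  3] 167 136 [4, 1, 1] [(167, 136, [4, 1, 1])]))

def c28t124 : Tr4 :=
  .br 1064 (.br 1193 (.br 1194 (.hor [.f 1193 1 5] []) .no .no (.con 136 [4, 4, 1, 4, 1]) .no .no)
  .no .no (.red [.f 1064 1 3, .f 1057 3 1, .f 1064 3 1, .f 1064 1 5] 149 136 [4, 4, 1, 4] [(149,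
  136, [4, 4, 1, 4])]) (.red [.f 1193 5 3, .f 1066 3 1, .f 1074 1 3] 151 136 [4, 1] [(150, 136,
  [4, 4, 1]), (151, 136, [4, 1])]) .no) (.use 123) .no (.hor [.f 1056 3 5] []) .no .no

def c28t125 : Tr4 :=
  .br 1322 (.con 136 [4, 1, 4, 1, 4]) (.red [.f 1201 5 1, .f 1194 1 3, .f 1066 3 1] 166 136 [4, 1,
  4, 1] [(150, 136, [4, 1, 4]), (166, 136, [4, 1, 4, 1])]) .no (.con 136 [4, 1, 4, 1, 4]) (.con
  136 [4, 1, 4, 1, 4]) .no

def c28t126 : Tr4 :=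
  .br 1322 (.con 136 [4, 1, 1, 4, 4]) (.hor [.f 1193 1 5] []) .no (.con 136 [4, 1, 1, 4, 4]) (.con
  136 [4, 1, 1, 4, 4]) .no

def c28t127 : Tr4 :=
  .br 1193 (.br 1331 (.br 1330 (.hor [.f 1330 1 5] []) .no (.br 1337 (.br 1336 (.hor [.f 1336 1 5]
  []) .no .no (.br 1457 (.con 136 [4, 4, 1, 1, 1, 3, 2]) (.hor [.f 1329 1 3, .f 1328 3 5] [(183,
  167, [1])]) .no (.con 136 [4, 4, 1, 1, 1, 3, 2]) (.con 136 [4, 4, 1, 1, 1, 3, 2]) (.con 136 [4,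
  4, 1, 1, 1, 3, 2])) .no .no) .no .no (.hor [.f 1329 3 5] []) .no (.red [.f 1208 5 1, .t 1337 2
  4] 167 136 [4, 1, 1] [(167, 136, [4, 1, 1])])) (.con 136 [4, 4, 1, 1, 4]) .no (.use 125)) .no
  .no (.red [.f 1195 3 1, .f 1203 1 3, .f 1075 3 1, .f 1082 1 5] 151 136 [4, 1] [(151, 136, [4,
  1]), (166, 136, [4, 4, 1, 1]), (167, 136, [4, 1, 1])]) .no (.use 126)) .no .no (.red [.f 1064 1
  3, .f 1057 3 1, .f 1064 3 1, .f 1064 1 5] 149 136 [4, 4, 1, 4] [(149, 136, [4, 4, 1, 4])]) (.red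
  [.f 1193 5 3, .f 1066 3 1, .f 1074 1 3] 151 136 [4, 1] [(150, 136, [4, 4, 1]), (151, 136, [4,
  1])]) .no

def c28t128 : Tr4 :=
  .br 1330 (.hor [.f 1330 1 5] []) .no .no (.br 1329 (.con 136 [1, 4, 1, 4, 1]) .no .no (.hor [.f
  1321 3 5] []) .no (.con 136 [1, 4, 1, 4, 1])) .no (.red [.f 1208 5 1, .f 1201 5 1, .f 1201 1 3]
  167 136 [1, 4, 1] [(167, 136, [1, 4, 1])])

def c28t129 : Tr4 :=
  .br 1337 (.hor [.f 1337 1 5] []) .no .no (.br 1330 (.red [.f 1330 1 3, .f 1329 3 5] 183 136 [4,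
  1, 1, 1] [(183, 136, [4, 1, 1, 1])]) .no .no (.con 136 [4, 1, 1, 4, 1]) .no .no) .no (.use 128)

def c28t130 : Tr4 :=
  .br 1328 (.red [.f 1201 5 1, .f 1328 1 3] 183 136 [1, 4, 1, 1] [(183, 136, [1, 4, 1, 1])]) .no
  .no (.con 136 [1, 4, 1, 4, 1]) .no .no

def c28t131 : Tr4 :=
  .br 1330 (.hor [.f 1330 1 5] []) .no .no (.br 1329 (.con 136 [1, 4, 1, 4, 1]) .no .no (.hor [.f
  1321 3 5] []) .no (.con 136 [1, 4, 1, 4, 1])) .no (.br 1336 (.use 130) .no .no (.red [.f 1201 5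
  1, .t 1328 3 2, .f 1208 1 3] 167 136 [1, 4, 1] [(167, 136, [1, 4, 1]), (168, 136, [1, 1])]) .no
  .no)

def c28t132 : Tr4 :=
  .br 1464 (.br 1472 (.hor [.f 1337 1 3, .f 1464 1 3, .f 1464 3 5] [(184, 136, [1, 1, 1]), (200,
  136, [1, 1, 1, 1])]) .no (.br 1352 .no .no (.hor [.f 1224 3 1, .f 1216 1 3, .f 1216 3 5] [(169,
  152, [3, 1]), (170, 152, [3, 1, 3])]) .no .no .no) .no .no .no) .no (.hor [.f 1337 1 3, .f 1464
  3 5] [(184, 136, [1, 1, 1])]) (.hor [.f 1328 3 1, .f 1336 1 5] [(183, 167, [1])]) .no .no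

def c28t133 : Tr4 :=
  .br 1338 (.use 129) .no .no (.br 1337 (.br 1336 (.hor [.f 1336 1 5] []) .no .no (.br 1466 (.use
  132) .no (.hor [.f 1337 1 3, .f 1465 3 5] [(184, 136, [1, 1, 1])]) (.hor [.f 1330 3 1, .f 1330 1
  5] [(183, 167, [1])]) (.hor [.t 1330 3 1, .f 1337 1 5] [(183, 167, [1])]) .no) .no .no) .no .no
  (.hor [.f 1329 3 5] []) .no (.red [.f 1208 5 1, .t 1337 2 4] 167 136 [4, 1, 1] [(167, 136, [4,
  1, 1])])) .no (.use 131)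

def c28t134 : Tr4 :=
  .br 1322 (.br 1192 (.hor [.f 1192 1 5] []) .no .no (.con 136 [4, 1, 4, 4, 1]) .no .no) .no .no
  (.red [.f 1186 3 1, .f 1193 1 5] 165 136 [4, 1, 4, 4, 1] [(165, 136, [4, 1, 4, 4, 1])]) (.red
  [.f 1322 5 3, .f 1195 3 1, .f 1203 1 3] 167 136 [4, 1, 1] [(166, 136, [4, 1, 4, 1]), (167, 136,
  [4, 1, 1])]) .no

def c28t135 : Tr4 :=
  .br 1321 (.hor [.f 1321 1 5] []) .no .no (.use 117) .no (.use 118)

def c28t136 : Tr4 :=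
  .br 1323 (.hor [.f 1322 1 5] []) .no .no (.br 1185 (.br 1320 (.con 136 [4, 4, 1, 4, 1, 1]) .no
  .no (.red [.t 1312 3 2, .f 1185 3 5] 165 136 [4, 4, 1, 4, 1] [(165, 136, [4, 4, 1, 4, 1])]) .no
  .no) .no .no (.hor [.f 1176 3 5] []) .no .no) .no .no

def c28l3 : List Tr4 :=
  [c28t103, c28t104, c28t105, c28t106, c28t107, c28t108, c28t109, c28t110, c28t111, c28t112,
  c28t113, c28t114, c28t115, c28t116, c28t117, c28t118, c28t119, c28t120, c28t121, c28t122,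
  c28t123, c28t124, c28t125, c28t126, c28t127, c28t128, c28t129, c28t130, c28t131, c28t132,
  c28t133, c28t134, c28t135, c28t136]

theorem c28k3 : chkLF ⟨4, 1, 0, true, -8⟩ false 8 c28N 103 c28l3 = true := by decide +kernel

def c28t137 : Tr4 :=
  .br 1194 (.red [.t 1194 1 3, .f 1203 1 3] 167 136 [4, 1, 1] [(166, 136, [4, 4, 1, 1]), (167,
  136, [4, 1, 1])]) .no .no (.br 1338 (.br 1337 (.hor [.f 1337 1 5] []) .no .no (.br 1336 (.con
  136 [4, 1, 1, 1]) .no .no (.hor [.f 1328 3 5] []) .no .no) .no (.br 1193 (.use 134) .no .no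
  (.hor [.f 1185 3 5] []) .no (.br 1056 (.red [.t 1056 1 3, .t 1065 1 3, .f 1074 1 3] 151 136 [4,
  1] [(149, 136, [4, 4, 1, 4]), (150, 136, [4, 4, 1]), (151, 136, [4, 1])]) (.hor [.f 928 1 3, .f
  1056 3 5] [(133, 165, [2, 2])]) .no (.br 1322 (.br 1184 (.use 116) .no .no (.br 1321 (.hor [.f
  1321 1 5] []) .no (.br 1328 (.br 1465 (.br 1464 (.hor [.f 1464 1 5] []) .no (.red [.t 1472 4 2,
  .f 1328 1 3] 183 136 [4, 1, 1, 1] [(183, 136, [4, 1, 1, 1]), (184, 136, [1, 1, 1])]) .no .no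
  .no) .no .no (.red [.f 1208 5 1, .f 1208 1 5, .t 1456 2 3, .f 1337 1 3] 183 136 [4, 1, 1, 1]
  [(183, 136, [4, 1, 1, 1]), (184, 136, [1, 1, 1])]) .no (.red [.f 1336 5 1, .f 1328 1 3] 183 136
  [4, 1, 1, 1] [(183, 136, [4, 1, 1, 1])])) .no .no (.hor [.f 1320 3 5] []) .no .no) (.use 117)
  .no (.use 118)) (.red [.f 1184 5 3, .f 1057 3 1, .t 1065 1 3, .f 1074 1 3] 151 136 [4, 1] [(149,
  136, [4, 4, 1, 4]), (150, 136, [4, 4, 1]), (151, 136, [4, 1])]) .no) .no .no (.red [.f 1186 3 1,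
  .t 1194 1 3] 166 136 [4, 4, 1, 1] [(165, 136, [4, 4, 1, 4, 1]), (166, 136, [4, 4, 1, 1])]) (.red
  [.f 1322 5 3, .f 1195 3 1, .f 1203 1 3] 167 136 [4, 1, 1] [(166, 136, [4, 4, 1, 1]), (167, 136,
  [4, 1, 1])]) (.use 122)) .no .no))) .no .no .no .no (.br 1193 (.use 134) .no .no (.hor [.f 1185
  3 5] []) .no (.br 1056 (.red [.t 1056 1 3, .t 1065 1 3, .f 1074 1 3] 151 136 [4, 1] [(149, 136,
  [4, 4, 1, 4]), (150, 136, [4, 4, 1]), (151, 136, [4, 1])]) (.hor [.f 928 1 3, .f 1056 3 5]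
  [(133, 165, [2, 2])]) .no (.br 1322 (.br 1184 (.use 116) .no .no (.br 1336 (.br 1328 (.red [.f
  1328 1 3] 183 136 [4, 1, 1, 1] [(183, 136, [4, 1, 1, 1])]) .no .no (.br 1329 (.con 136 [4, 4, 1,
  1, 1]) .no .no (.hor [.f 1320 3 5] []) .no .no) (.use 135) .no) .no .no (.br 1329 (.use 119) .no
  .no (.use 136) .no .no) .no .no) (.red [.f 1184 5 3, .f 1057 3 1, .t 1065 1 3, .f 1074 1 3] 151
  136 [4, 1] [(149, 136, [4, 4, 1, 4]), (150, 136, [4, 4, 1]), (151, 136, [4, 1])]) .no) .no .no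
  (.red [.f 1186 3 1, .t 1194 1 3] 166 136 [4, 4, 1, 1] [(165, 136, [4, 4, 1, 4, 1]), (166, 136,
  [4, 4, 1, 1])]) (.red [.f 1322 5 3, .f 1195 3 1, .f 1203 1 3] 167 136 [4, 1, 1] [(166, 136, [4,
  4, 1, 1]), (167, 136, [4, 1, 1])]) (.use 122)) .no .no))) .no (.red [.f 1193 5 3, .f 1066 3 1,
  .f 1074 1 3] 151 136 [4, 1] [(150, 136, [4, 4, 1]), (151, 136, [4, 1])])

def c28t138 : Tr4 :=
  .br 1464 (.br 1472 (.hor [.f 1337 1 3, .f 1464 1 3, .f 1464 3 5] [(184, 136, [1, 1, 1]), (200,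
  136, [1, 1, 1, 1])]) .no (.hor [.t 1472 3 2, .f 1217 3 1, .f 1216 1 5] [(169, 152, [3, 1]),
  (185, 136, [1, 3, 1, 1])]) .no .no .no) .no (.hor [.f 1337 1 3, .f 1464 3 5] [(184, 136, [1, 1,
  1])]) (.hor [.f 1328 3 1, .f 1336 1 5] [(183, 167, [1])]) .no .no

def c28t139 : Tr4 :=
  .br 1338 (.use 129) .no .no (.br 1337 (.br 1336 (.hor [.f 1336 1 5] []) .no .no (.br 1466 (.use
  138) .no (.hor [.f 1337 1 3, .f 1465 3 5] [(184, 136, [1, 1, 1])]) (.hor [.f 1330 3 1, .f 1330 1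
  5] [(183, 167, [1])]) (.hor [.t 1330 3 1, .f 1337 1 5] [(183, 167, [1])]) .no) .no .no) .no .no
  (.hor [.f 1329 3 5] []) .no (.red [.f 1208 5 1, .t 1337 2 4] 167 136 [4, 1, 1] [(167, 136, [4,
  1, 1])])) .no (.use 131)

def c28t140 : Tr4 :=
  .br 1331 (.br 1330 (.hor [.f 1330 1 5] []) .no .no (.con 136 [4, 1, 4, 1, 4]) .no (.use 125))
  .no .no (.red [.f 1195 3 1, .f 1203 1 3, .f 1075 3 1, .f 1082 1 5] 151 136 [4, 1] [(151, 136,
  [4, 1]), (166, 136, [4, 1, 4, 1]), (167, 136, [4, 1, 1])]) .no (.use 126)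

def c28t141 : Tr4 :=
  .br 1329 (.con 136 [4, 1, 1, 4, 1]) .no .no (.hor [.f 1321 3 5] []) .no .no

def c28t142 : Tr4 :=
  .br 1330 (.hor [.f 1330 1 5] []) .no .no (.br 1336 (.br 1328 (.red [.f 1328 1 3, .t 1344 2 4]
  183 136 [4, 1, 1, 1] [(168, 136, [1, 1]), (183, 136, [4, 1, 1, 1])]) .no .no (.con 136 [4, 1, 1,
  4, 1]) (.con 136 [4, 1, 1, 4, 1]) .no) .no .no (.use 141) .no .no) .no (.br 1336 (.use 130) .no
  .no (.red [.f 1201 5 1, .t 1328 3 2, .f 1208 1 3] 167 136 [4, 1, 1] [(167, 136, [4, 1, 1]),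
  (168, 136, [1, 1])]) .no .no)

def c28t143 : Tr4 :=
  .br 1331 (.use 142) .no .no (.red [.f 1195 3 1, .f 1203 1 3, .f 1075 3 1, .f 1082 1 5] 151 136
  [4, 1] [(151, 136, [4, 1]), (166, 136, [4, 4, 1, 1]), (167, 136, [4, 1, 1])]) .no (.br 1194
  (.red [.t 1194 1 3, .f 1203 1 3] 167 136 [4, 1, 1] [(166, 136, [4, 4, 1, 1]), (167, 136, [4, 1,
  1])]) .no .no (.br 1193 (.use 134) .no .no (.hor [.f 1185 3 5] []) .no (.br 1056 (.red [.t 1056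
  1 3, .t 1065 1 3, .f 1074 1 3] 151 136 [4, 1] [(149, 136, [4, 4, 1, 4]), (150, 136, [4, 4, 1]),
  (151, 136, [4, 1])]) (.hor [.f 928 1 3, .f 1056 3 5] [(133, 165, [2, 2])]) .no (.br 1322 (.br
  1336 (.br 1184 (.use 116) .no .no (.br 1328 (.red [.f 1328 1 3, .t 1344 2 4] 183 136 [4, 1, 1,
  1] [(168, 136, [1, 1]), (183, 136, [4, 1, 1, 1])]) .no .no (.br 1329 (.con 136 [4, 4, 1, 1, 1])
  .no .no (.hor [.f 1320 3 5] []) .no .no) (.use 135) .no) (.red [.f 1184 5 3, .f 1057 3 1, .t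
  1065 1 3, .f 1074 1 3] 151 136 [4, 1] [(149, 136, [4, 4, 1, 4]), (150, 136, [4, 4, 1]), (151,
  136, [4, 1])]) .no) .no .no (.br 1184 (.use 116) .no .no (.br 1321 (.hor [.f 1321 1 5] []) .no
  (.use 136) (.use 117) .no (.use 118)) (.red [.f 1184 5 3, .f 1057 3 1, .t 1065 1 3, .f 1074 1 3]
  151 136 [4, 1] [(149, 136, [4, 4, 1, 4]), (150, 136, [4, 4, 1]), (151, 136, [4, 1])]) .no) .no
  .no) .no .no (.red [.f 1186 3 1, .t 1194 1 3] 166 136 [4, 4, 1, 1] [(165, 136, [4, 4, 1, 4, 1]),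
  (166, 136, [4, 4, 1, 1])]) (.red [.f 1322 5 3, .f 1195 3 1, .f 1203 1 3] 167 136 [4, 1, 1]
  [(166, 136, [4, 4, 1, 1]), (167, 136, [4, 1, 1])]) (.use 122)) .no .no)) .no (.red [.f 1193 5 3,
  .f 1066 3 1, .f 1074 1 3] 151 136 [4, 1] [(150, 136, [4, 4, 1]), (151, 136, [4, 1])]))

def c28t144 : Tr4 :=
  .br 1194 (.hor [.f 1193 1 5] []) .no .no (.br 1192 (.hor [.f 1192 1 5] []) .no .no (.con 136 [4,
  4, 1, 4, 1]) .no .no) .no .no

def c28t145 : Tr4 :=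
  .br 1194 (.red [.t 1194 1 3, .f 1203 1 3] 167 136 [4, 1, 1] [(166, 136, [4, 1, 1, 4]), (167,
  136, [4, 1, 1])]) .no .no (.hor [.f 1185 3 5] []) .no .no

def c28t146 : Tr4 :=
  .br 1331 (.use 142) .no .no (.red [.f 1195 3 1, .f 1203 1 3, .f 1075 3 1, .f 1082 1 5] 151 136
  [4, 1] [(151, 136, [4, 1]), (166, 136, [4, 1, 4, 1]), (167, 136, [4, 1, 1])]) .no (.use 145)

def c28t147 : Tr4 :=
  .br 1193 (.use 144) .no .no (.use 146) (.red [.f 1193 5 3, .f 1066 3 1, .f 1074 1 3] 151 136 [4,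
  1] [(150, 136, [4, 4, 1]), (151, 136, [4, 1])]) (.red [.f 1064 5 1, .t 1065 1 3, .f 1074 1 3]
  151 136 [4, 1] [(150, 136, [4, 4, 1]), (151, 136, [4, 1])])

def c28t148 : Tr4 :=
  .br 1209 (.br 1338 (.br 1203 (.red [.f 1203 1 3] 167 136 [4, 1, 1] [(167, 136, [4, 1, 1])]) .no
  .no (.br 1330 (.red [.f 1330 1 3, .t 1337 2 4] 167 136 [4, 1, 1] [(167, 136, [4, 1, 1]), (183,
  136, [4, 1, 1, 1])]) .no .no (.use 112) (.br 1193 (.use 144) .no .no (.use 145) (.red [.f 1193 5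
  3, .f 1066 3 1, .f 1074 1 3] 151 136 [4, 1] [(150, 136, [4, 4, 1]), (151, 136, [4, 1])]) (.red
  [.f 1064 5 1, .t 1065 1 3, .f 1074 1 3] 151 136 [4, 1] [(150, 136, [4, 4, 1]), (151, 136, [4,
  1])])) (.red [.f 1201 5 1, .f 1201 1 3] 167 136 [4, 1, 1] [(167, 136, [4, 1, 1])])) .no .no) .no
  .no (.red [.t 1337 2 4] 167 136 [4, 1, 1] [(167, 136, [4, 1, 1])]) .no .no) .no .no .no .no .no

def c28t149 : Tr4 :=
  .br 1065 (.red [.t 1065 1 3, .f 1074 1 3, .f 1074 3 5] 151 136 [4, 1] [(150, 136, [4, 4, 1]),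
  (151, 136, [4, 1])]) (.hor [.f 937 1 3, .f 1065 3 5] [(134, 136, [4, 4])]) .no (.br 1203 (.red
  [.f 1203 1 3] 167 136 [4, 1, 1] [(167, 136, [4, 1, 1])]) .no .no (.br 1208 (.use 71) .no (.br
  1209 (.br 1338 (.br 1218 (.use 124) .no .no .no .no .no) .no (.con 136 [1, 1, 3, 2, 2, 4]) (.red
  [.t 1337 2 4] 167 136 [4, 1, 1] [(167, 136, [4, 1, 1])]) .no .no) .no .no .no .no .no) .no (.br
  1216 (.br 1345 (.br 1218 (.br 1064 (.use 127) (.br 1224 (.hor [.f 1216 1 3, .f 1216 3 5] [(169,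
  168, [3])]) .no (.br 1353 (.hor [.f 1345 1 3, .f 1217 3 1, .f 1216 1 5] [(169, 168, [3]), (185,
  167, [3, 3, 1])]) .no (.br 1331 (.use 133) .no .no (.red [.f 1195 3 1, .f 1203 1 3, .f 1075 3 1,
  .f 1082 1 5] 151 136 [4, 1] [(151, 136, [4, 1]), (166, 136, [4, 4, 1, 1]), (167, 136, [4, 1,
  1])]) .no (.use 137)) .no (.red [.t 1217 3 1, .t 1081 3 1, .t 945 1 3, .f 954 1 3] 136 136 []
  [(135, 136, [4]), (136, 136, []), (152, 136, [1]), (169, 168, [3])]) (.br 1331 (.use 139) .no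
  .no (.red [.f 1195 3 1, .f 1203 1 3, .f 1075 3 1, .f 1082 1 5] 151 136 [4, 1] [(151, 136, [4,
  1]), (166, 136, [4, 4, 1, 1]), (167, 136, [4, 1, 1])]) .no (.use 137))) .no .no .no) .no (.hor
  [.f 1056 3 5] []) .no .no) .no .no .no .no .no) .no (.hor [.f 1217 3 1, .f 1216 1 5] [(169, 137,
  [1, 1])]) (.br 1338 (.br 1064 (.br 1193 (.br 1218 (.use 140) .no .no .no .no .no) .no .no (.red
  [.f 1064 1 3, .f 1057 3 1, .f 1064 3 1, .f 1064 1 5] 149 136 [4, 4, 1, 4] [(149, 136, [4, 4, 1,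
  4])]) (.red [.f 1193 5 3, .f 1066 3 1, .f 1074 1 3] 151 136 [4, 1] [(150, 136, [4, 4, 1]), (151,
  136, [4, 1])]) .no) (.use 143) .no (.hor [.f 1056 3 5] []) .no .no) .no (.con 136 [1, 1, 3, 2,
  2, 4]) (.red [.t 1344 2 4, .t 1337 2 4] 167 136 [4, 1, 1] [(167, 136, [4, 1, 1]), (168, 136, [1,
  1])]) .no .no) (.con 136 [1, 1, 3, 2, 2, 4]) .no) .no (.hor [.f 1216 3 5] []) .no .no .no) .no)
  .no .no) .no (.br 1218 (.br 1216 (.br 1208 (.use 71) .no .no .no (.br 1203 (.red [.f 1203 1 3]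
  167 136 [4, 1, 1] [(167, 136, [4, 1, 1])]) .no .no (.br 1345 (.br 1224 (.hor [.f 1216 1 3, .f
  1216 3 5] [(169, 168, [3])]) .no (.br 1193 (.use 144) .no .no (.br 1331 (.br 1353 (.hor [.f 1345
  1 3, .f 1217 3 1, .f 1216 1 5] [(169, 168, [3]), (185, 167, [3, 3, 1])]) .no (.use 133) .no
  (.red [.t 1217 3 1, .t 1081 3 1, .t 945 1 3, .f 954 1 3] 136 136 [] [(135, 136, [4]), (136, 136,
  []), (152, 136, [1]), (169, 168, [3])]) (.use 139)) .no .no (.red [.f 1195 3 1, .f 1203 1 3, .f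
  1075 3 1, .f 1082 1 5] 151 136 [4, 1] [(151, 136, [4, 1]), (166, 136, [4, 4, 1, 1]), (167, 136,
  [4, 1, 1])]) .no (.use 145)) (.red [.f 1193 5 3, .f 1066 3 1, .f 1074 1 3] 151 136 [4, 1] [(150,
  136, [4, 4, 1]), (151, 136, [4, 1])]) (.red [.f 1064 5 1, .t 1065 1 3, .f 1074 1 3] 151 136 [4,
  1] [(150, 136, [4, 4, 1]), (151, 136, [4, 1])])) .no .no .no) .no (.hor [.f 1217 3 1, .f 1216 1
  5] [(169, 168, [3])]) (.br 1338 (.use 147) .no .no (.red [.t 1344 2 4, .t 1337 2 4] 167 136 [4,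
  1, 1] [(167, 136, [4, 1, 1]), (168, 136, [1, 1])]) .no .no) .no .no) .no .no) .no) .no (.hor [.f
  1216 3 5] []) (.use 148) .no .no) .no .no .no .no .no)

def c28t150 : Tr4 :=
  .br 1203 (.red [.f 1203 1 3] 167 136 [4, 1, 1] [(167, 136, [4, 1, 1])]) .no .no (.con 136 [4, 1,
  4, 1]) .no .no

def c28t151 : Tr4 :=
  .br 1200 (.use 150) .no (.con 136 [4, 1, 1]) (.red [.f 1064 3 1] 150 136 [4, 1, 4] [(150, 136,
  [4, 1, 4])]) .no .no

def c28t152 : Tr4 :=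
  .br 1200 (.con 136 [4, 4, 1, 1]) .no .no (.use 33) .no .no

def c28t153 : Tr4 :=
  .br 1200 (.con 136 [4, 4, 1, 1]) .no .no (.use 38) .no .no

def c28t154 : Tr4 :=
  .br 1073 .no (.br 1217 (.br 1209 (.red [.f 1209 1 3, .f 1081 3 1, .f 1081 1 5, .t 945 1 3, .f
  954 1 3] 136 136 [] [(135, 136, [4]), (136, 136, []), (152, 136, [1]), (168, 167, [3])]) .no .no
  .no .no (.use 111)) .no (.br 1072 (.use 149) (.hor [.f 944 1 5] []) .no (.use 151) .no .no)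
  (.red [.f 1081 3 1, .f 1081 1 5, .t 945 1 3, .f 954 1 3] 136 136 [] [(135, 136, [4]), (136, 136,
  []), (152, 136, [1])]) (.red [.t 1081 3 1, .t 945 1 3, .f 954 1 3] 136 136 [] [(135, 136, [4]),
  (136, 136, []), (152, 136, [1])]) (.use 106)) .no (.hor [.f 1065 3 5] []) .no (.br 945 .no (.hor
  [.f 817 1 3, .f 945 3 5] [(119, 136, [2, 4])]) .no (.br 1065 (.red [.t 1065 1 3, .f 1074 1 3, .f
  1074 3 5] 151 136 [4, 1] [(150, 136, [4, 4, 1]), (151, 136, [4, 1])]) .no .no (.br 1208 (.use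
  10) .no (.br 1209 (.br 1217 (.use 108) .no (.br 1338 (.br 1203 (.red [.f 1203 1 3] 167 136 [4,
  1, 1] [(167, 136, [4, 1, 1])]) .no .no (.br 1218 (.use 152) .no .no .no .no .no) .no .no) .no
  (.con 136 [1, 1, 3, 2, 2, 4]) (.red [.t 1337 2 4] 167 136 [4, 1, 1] [(167, 136, [4, 1, 1])]) .no
  .no) .no (.use 107) .no) .no (.hor [.f 1208 3 5] []) .no .no .no) (.con 136 [4, 1, 1]) (.use 13)
  .no) .no (.red [.f 1064 5 3, .f 1065 3 5, .f 1073 5 1, .f 1074 1 3] 151 136 [4, 1] [(151, 136,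
  [4, 1])])) .no (.br 1208 (.use 27) .no (.br 1217 (.use 108) .no (.br 1065 (.red [.t 1065 1 3, .f
  1074 1 3, .f 1074 3 5] 151 136 [4, 1] [(150, 136, [4, 4, 1]), (151, 136, [4, 1])]) (.red [.f 944
  5 1, .f 937 1 3, .f 1065 3 5, .f 1073 5 1, .f 1074 1 3] 151 136 [4, 1] [(134, 150, [2]), (151,
  136, [4, 1])]) .no (.br 1209 (.br 1338 (.br 1203 (.red [.f 1203 1 3] 167 136 [4, 1, 1] [(167,
  136, [4, 1, 1])]) .no .no (.br 1218 (.use 153) .no .no .no .no .no) .no .no) .no (.con 136 [1,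
  1, 3, 2, 2, 4]) (.red [.t 1337 2 4] 167 136 [4, 1, 1] [(167, 136, [4, 1, 1])]) .no .no) .no .no
  .no .no .no) .no (.red [.f 1064 5 3, .f 1065 3 5, .f 1073 5 1, .f 1074 1 3] 151 136 [4, 1]
  [(151, 136, [4, 1])])) (.hor [.f 1208 3 5] []) (.red [.f 944 5 1, .t 1081 3 1, .t 945 1 3, .f
  954 1 3] 136 136 [] [(135, 136, [4]), (136, 136, []), (152, 136, [1])]) .no) (.con 136 [4, 1,
  1]) (.use 15) .no))

def c28t155 : Tr4 :=
  .br 1225 (.red [.f 1217 1 3, .f 1216 3 5] 169 136 [1, 1, 3] [(169, 136, [1, 1, 3])]) .no (.hor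
  [.f 1097 3 1, .f 1088 3 1, .f 1096 1 5] [(153, 136, [3, 1]), (154, 136, [3, 3, 1])]) .no .no .no

def c28t156 : Tr4 :=
  .br 1216 (.hor [.f 1216 1 5] []) .no (.use 155) .no .no .no

def c28t157 : Tr4 :=
  .br 1466 (.br 1464 (.br 1472 (.hor [.f 1337 1 3, .f 1464 1 3, .f 1464 3 5] [(184, 136, [1, 1,
  1]), (200, 136, [1, 1, 1, 1])]) .no (.br 1352 .no .no (.hor [.f 1224 3 1, .f 1216 1 3, .f 1216 3
  5] [(169, 168, [3]), (170, 167, [3, 3, 3])]) .no (.hor [.t 1472 3 2, .f 1217 3 1, .f 1216 1 5]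
  [(169, 168, [3]), (185, 167, [3, 3, 1])]) .no) .no .no .no) .no (.hor [.f 1337 1 3, .f 1464 3 5]
  [(184, 136, [1, 1, 1])]) (.hor [.f 1328 3 1, .f 1336 1 5] [(183, 167, [1])]) .no .no) .no (.hor
  [.f 1337 1 3, .f 1465 3 5] [(184, 136, [1, 1, 1])]) (.hor [.f 1330 3 1, .f 1330 1 5] [(183, 167,
  [1])]) (.hor [.t 1330 3 1, .f 1337 1 5] [(183, 167, [1])]) .no

def c28t158 : Tr4 :=
  .br 1338 (.use 129) .no .no (.br 1337 (.br 1336 (.hor [.f 1336 1 5] []) .no .no (.use 157) .no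
  .no) .no .no (.hor [.f 1329 3 5] []) .no (.red [.f 1208 5 1, .t 1337 2 4] 167 136 [4, 1, 1]
  [(167, 136, [4, 1, 1])])) .no (.use 131)

def c28t159 : Tr4 :=
  .br 1065 (.red [.t 1065 1 3, .f 1074 1 3, .f 1074 3 5] 151 136 [4, 1] [(150, 136, [4, 4, 1]),
  (151, 136, [4, 1])]) (.hor [.f 937 1 3, .f 1065 3 5] [(134, 136, [4, 4])]) .no (.br 1224 (.hor
  [.f 1216 1 3, .f 1216 3 5] [(169, 168, [3])]) .no (.br 1203 (.red [.f 1203 1 3] 167 136 [4, 1,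
  1] [(167, 136, [4, 1, 1])]) .no .no (.br 1064 (.use 127) (.br 1331 (.use 158) .no .no (.red [.f
  1195 3 1, .f 1203 1 3, .f 1075 3 1, .f 1082 1 5] 151 136 [4, 1] [(151, 136, [4, 1]), (166, 136,
  [4, 4, 1, 1]), (167, 136, [4, 1, 1])]) .no (.use 137)) .no (.hor [.f 1056 3 5] []) .no .no) .no
  .no) .no .no .no) .no (.br 1203 (.red [.f 1203 1 3] 167 136 [4, 1, 1] [(167, 136, [4, 1, 1])])
  .no .no (.br 1224 (.hor [.f 1216 1 3, .f 1216 3 5] [(169, 168, [3])]) .no (.br 1193 (.use 144)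
  .no .no (.br 1331 (.use 158) .no .no (.red [.f 1195 3 1, .f 1203 1 3, .f 1075 3 1, .f 1082 1 5]
  151 136 [4, 1] [(151, 136, [4, 1]), (166, 136, [4, 4, 1, 1]), (167, 136, [4, 1, 1])]) .no (.use
  145)) (.red [.f 1193 5 3, .f 1066 3 1, .f 1074 1 3] 151 136 [4, 1] [(150, 136, [4, 4, 1]), (151,
  136, [4, 1])]) (.red [.f 1064 5 1, .t 1065 1 3, .f 1074 1 3] 151 136 [4, 1] [(150, 136, [4, 4,
  1]), (151, 136, [4, 1])])) .no .no .no) .no .no)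

def c28t160 : Tr4 :=
  .br 1338 (.br 1065 (.red [.t 1065 1 3, .f 1074 1 3, .f 1074 3 5] 151 136 [4, 1] [(150, 136, [4,
  4, 1]), (151, 136, [4, 1])]) (.hor [.f 937 1 3, .f 1065 3 5] [(134, 136, [4, 4])]) .no (.br 1203
  (.red [.f 1203 1 3] 167 136 [4, 1, 1] [(167, 136, [4, 1, 1])]) .no .no (.br 1064 (.br 1193 (.use
  140) .no .no (.use 146) (.red [.f 1193 5 3, .f 1066 3 1, .f 1074 1 3] 151 136 [4, 1] [(150, 136,
  [4, 4, 1]), (151, 136, [4, 1])]) .no) (.use 143) .no (.hor [.f 1056 3 5] []) .no .no) .no .no)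
  .no (.br 1203 (.red [.f 1203 1 3] 167 136 [4, 1, 1] [(167, 136, [4, 1, 1])]) .no .no (.use 147)
  .no .no)) .no .no (.red [.t 1344 2 4, .t 1337 2 4] 167 136 [4, 1, 1] [(167, 136, [4, 1, 1]),
  (168, 136, [1, 1])]) .no .no

def c28l4 : List Tr4 :=
  [c28t137, c28t138, c28t139, c28t140, c28t141, c28t142, c28t143, c28t144, c28t145, c28t146,
  c28t147, c28t148, c28t149, c28t150, c28t151, c28t152, c28t153, c28t154, c28t155, c28t156,
  c28t157, c28t158, c28t159, c28t160]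

theorem c28k4 : chkLF ⟨4, 1, 0, true, -8⟩ false 8 c28N 137 c28l4 = true := by decide +kernel

def c28t161 : Tr4 :=
  .br 1065 (.red [.t 1065 1 3, .f 1074 1 3, .f 1074 3 5] 151 136 [4, 1] [(150, 136, [4, 4, 1]),
  (151, 136, [4, 1])]) (.hor [.f 937 1 3, .f 1065 3 5] [(134, 136, [4, 4])]) .no (.br 1209 (.br
  1338 (.br 1203 (.red [.f 1203 1 3] 167 136 [4, 1, 1] [(167, 136, [4, 1, 1])]) .no .no (.use 124)
  .no .no) .no .no (.red [.t 1337 2 4] 167 136 [4, 1, 1] [(167, 136, [4, 1, 1])]) .no .no) .no .no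
  .no .no .no) .no (.use 148)

def c28t162 : Tr4 :=
  .br 1065 (.red [.t 1065 1 3, .f 1074 1 3, .f 1074 3 5] 151 136 [4, 1] [(150, 136, [4, 4, 1]),
  (151, 136, [4, 1])]) .no .no (.use 10) .no (.red [.f 1064 5 3, .f 1065 3 5, .f 1073 5 1, .f 1074
  1 3] 151 136 [4, 1] [(151, 136, [4, 1])])

def c28t163 : Tr4 :=
  .br 1073 .no .no .no (.hor [.f 1065 3 5] []) .no (.br 1209 (.br 1208 (.hor [.f 1208 1 5] []) .no
  (.br 1217 (.use 108) .no (.br 1218 (.br 1065 (.red [.t 1065 1 3, .f 1074 1 3, .f 1074 3 5] 151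
  136 [4, 1] [(150, 136, [4, 4, 1]), (151, 136, [4, 1])]) .no .no (.br 1338 (.br 1203 (.red [.f
  1203 1 3] 167 136 [4, 1, 1] [(167, 136, [4, 1, 1])]) .no .no (.use 152) .no .no) .no .no (.red
  [.t 1337 2 4] 167 136 [4, 1, 1] [(167, 136, [4, 1, 1])]) .no .no) .no (.red [.f 1064 5 3, .f
  1065 3 5, .f 1073 5 1, .f 1074 1 3] 151 136 [4, 1] [(151, 136, [4, 1])])) .no (.hor [.f 1217 3
  5] []) .no .no .no) .no (.br 1065 (.red [.t 1065 1 3, .f 1074 1 3, .f 1074 3 5] 151 136 [4, 1]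
  [(150, 136, [4, 4, 1]), (151, 136, [4, 1])]) .no .no (.use 107) .no (.red [.f 1064 5 3, .f 1065
  3 5, .f 1073 5 1, .f 1074 1 3] 151 136 [4, 1] [(151, 136, [4, 1])])) .no) (.con 136 [4, 1, 1])
  .no .no) .no (.br 1208 (.use 162) .no (.hor [.f 1208 3 5] []) (.con 136 [4, 1, 1]) .no .no) .no
  .no (.use 14))

def c28t164 : Tr4 :=
  .br 1065 (.con 136 [4, 4, 1, 3, 2, 4, 1, 3]) (.con 136 [4, 4, 1, 3, 2, 4, 1, 3]) (.hor [.f 1065
  3 5] []) (.con 136 [4, 4, 1, 3, 2, 4, 1, 3]) .no (.con 136 [4, 4, 1, 3, 2, 4, 1, 3])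

def c28t165 : Tr4 :=
  .br 1072 (.use 164) .no .no (.use 151) (.br 1208 (.use 27) .no (.br 1217 (.use 108) .no (.br
  1218 (.br 1209 (.br 1065 (.red [.t 1065 1 3, .f 1074 1 3, .f 1074 3 5] 151 136 [4, 1] [(150,
  136, [4, 4, 1]), (151, 136, [4, 1])]) (.red [.f 944 5 1, .f 937 1 3, .f 1065 3 5, .f 1073 5 1,
  .f 1074 1 3] 151 136 [4, 1] [(134, 150, [2]), (151, 136, [4, 1])]) .no (.br 1338 (.br 1203 (.red
  [.f 1203 1 3] 167 136 [4, 1, 1] [(167, 136, [4, 1, 1])]) .no .no (.use 153) .no .no) .no .no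
  (.red [.t 1337 2 4] 167 136 [4, 1, 1] [(167, 136, [4, 1, 1])]) .no .no) .no (.red [.f 1064 5 3,
  .f 1065 3 5, .f 1073 5 1, .f 1074 1 3] 151 136 [4, 1] [(151, 136, [4, 1])])) .no .no .no .no
  .no) .no (.hor [.f 1217 3 5] []) .no .no .no) (.hor [.f 1208 3 5] []) (.red [.f 944 5 1, .t 1081
  3 1, .t 945 1 3, .f 954 1 3] 136 136 [] [(135, 136, [4]), (136, 136, []), (152, 136, [1])]) .no)
  (.con 136 [4, 1, 1]) (.use 15) .no) .no

def c28t166 : Tr4 :=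
  .br 945 (.br 1217 (.br 1209 (.red [.f 1209 1 3, .f 1081 3 1, .f 1081 1 5, .t 945 1 3, .f 954 1
  3] 136 136 [] [(135, 136, [4]), (136, 136, []), (152, 136, [1]), (168, 167, [3])]) .no .no .no
  .no (.br 1218 (.hor [.f 1217 1 5] []) .no (.use 156) .no .no .no)) .no (.br 1072 (.br 1218 (.br
  1216 (.br 1208 (.use 71) .no .no .no (.br 1345 (.use 159) .no (.hor [.f 1217 3 1, .f 1216 1 5]
  [(169, 168, [3])]) (.use 160) .no .no) .no) .no (.hor [.f 1216 3 5] []) (.use 161) .no .no) .no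
  (.hor [.f 1217 3 5] []) .no .no .no) (.hor [.f 944 1 5] []) .no (.use 151) .no .no) (.red [.f
  1081 3 1, .f 1081 1 5, .t 945 1 3, .f 954 1 3] 136 136 [] [(135, 136, [4]), (136, 136, []),
  (152, 136, [1])]) (.red [.t 1081 3 1, .t 945 1 3, .f 954 1 3] 136 136 [] [(135, 136, [4]), (136,
  136, []), (152, 136, [1])]) (.use 106)) (.hor [.f 817 1 3, .f 945 3 5] [(119, 136, [2, 4])]) .no
  (.use 163) .no (.use 165)

def c28t167 : Tr4 :=
  .br 1099 (.hor [.f 1091 1 3, .f 1218 3 5] [(153, 169, [2])]) (.hor [.f 1097 3 1, .f 1088 3 1, .f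
  1096 1 5] [(153, 169, [2]), (154, 169, [2, 3])]) (.hor [.f 1097 3 1, .f 1088 3 1, .f 1096 1 5]
  [(153, 169, [2]), (154, 169, [2, 3])]) .no .no (.use 155)

def c28t168 : Tr4 :=
  .br 842 (.br 843 .no (.use 77) (.con 136 [2, 2, 3, 3]) .no .no .no) (.con 136 [2, 2, 3, 3])
  (.hor [.f 841 3 5] []) .no (.con 136 [2, 2, 3, 3]) .no

def c28t169 : Tr4 :=
  .br 706 .no (.br 843 .no (.use 23) (.con 136 [2, 2, 3, 3]) .no .no .no) (.red [.t 705 1 3] 105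
  136 [2, 2, 3] [(105, 136, [2, 2, 3])]) .no (.red [.f 706 5 1, .f 705 1 5, .f 833 5 3, .f 833 3
  1] 121 136 [2, 3] [(121, 136, [2, 3])]) .no

def c28t170 : Tr4 :=
  .br 970 .no (.hor [.f 842 1 5] []) (.con 136 [3, 2, 3]) .no .no .no

def c28t171 : Tr4 :=
  .br 970 .no (.use 81) (.hor [.f 970 3 5] []) .no .no .no

def c28t172 : Tr4 :=
  .br 841 .no (.red [.f 705 1 3] 105 136 [2, 2, 3] [(105, 136, [2, 2, 3])]) (.br 842 (.br 843 .no
  (.use 79) (.con 136 [2, 2, 3, 3]) .no .no .no) (.con 136 [2, 2, 3, 3]) (.hor [.f 841 3 5] [])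
  .no (.con 136 [2, 2, 3, 3]) .no) .no (.br 706 .no (.br 843 .no (.use 60) (.con 136 [2, 2, 3, 3])
  .no .no .no) (.red [.t 705 1 3] 105 136 [2, 2, 3] [(105, 136, [2, 2, 3])]) (.red [.f 826 5 3, .f
  698 3 1, .f 705 1 5, .f 833 5 3, .f 833 3 1] 121 136 [2, 3] [(104, 105, [4]), (121, 136, [2,
  3])]) (.red [.f 706 5 1, .f 705 1 5, .f 833 5 3, .f 833 3 1] 121 136 [2, 3] [(121, 136, [2,
  3])]) .no) .no

def c28t173 : Tr4 :=
  .br 971 (.use 172) (.use 170) (.use 171) .no .no (.use 99)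

def c28t174 : Tr4 :=
  .br 1099 (.br 1107 (.red [.f 1091 1 3, .f 1091 3 1, .f 1099 1 3, .f 971 3 1] 138 136 [3, 3]
  [(138, 136, [3, 3]), (154, 136, [3, 3, 1])]) .no (.br 1226 (.hor [.f 1218 1 3, .f 1217 3 5]
  [(169, 121, [1, 1, 1])]) .no (.br 1106 .no (.red [.f 962 1 3, .f 962 3 1, .f 970 1 3, .f 970 3
  5] 138 136 [3, 3] [(138, 136, [3, 3])]) (.hor [.f 1106 3 5] []) .no .no (.con 136 [3, 3, 1, 4,
  2, 2])) .no .no .no) .no .no (.red [.t 970 1 3] 138 136 [3, 3] [(138, 136, [3, 3])])) .no (.red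
  [.f 971 3 1, .f 970 1 5] 138 136 [3, 3] [(138, 136, [3, 3])]) .no .no .no

def c28t175 : Tr4 :=
  .br 1217 (.br 1209 (.red [.f 1209 1 3, .f 1081 3 1, .f 1081 1 5, .t 945 1 3, .f 954 1 3] 136 136
  [] [(135, 136, [4]), (136, 136, []), (152, 136, [1]), (168, 167, [3])]) .no .no .no .no (.br
  1216 (.hor [.f 1216 1 5] []) .no (.br 1218 (.hor [.f 1217 1 5] []) .no (.br 840 .no (.br 826 .no
  (.br 1225 (.red [.f 1217 1 3, .f 1216 3 5] 169 136 [3, 1, 1] [(169, 136, [3, 1, 1])]) (.use 104)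
  (.br 1097 .no .no (.use 167) .no (.br 1099 (.hor [.f 1091 1 3, .f 1218 3 5] [(153, 169, [2])])
  (.br 841 .no (.red [.f 705 1 3] 105 136 [2, 2, 3] [(105, 136, [2, 2, 3])]) (.use 168) .no (.use
  169) .no) (.br 971 .no (.use 170) (.use 171) .no .no (.use 98)) .no .no .no) .no) .no .no .no)
  .no (.hor [.f 818 3 1, .f 825 1 5] [(119, 121, [4, 4])]) (.br 1225 (.red [.f 1217 1 3, .f 1216 3
  5] 169 136 [3, 1, 1] [(169, 136, [3, 1, 1])]) (.use 104) (.br 1097 .no .no (.use 167) .no (.use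
  173) .no) .no .no .no) .no) (.red [.f 840 3 1, .f 832 1 3, .f 960 3 5] 121 136 [2, 3] [(121,
  136, [2, 3]), (122, 136, [2, 3, 3])]) .no (.red [.t 960 2 3, .t 1080 2 3, .f 961 1 5] 121 136
  [2, 3] [(121, 136, [2, 3]), (136, 136, [])]) .no) .no .no .no) .no .no .no)) .no (.br 1072 (.br
  1218 (.br 1216 (.br 1208 (.use 71) .no .no .no (.br 1345 (.br 840 .no (.br 826 .no (.br 841 .no
  (.red [.f 705 1 3] 105 136 [2, 2, 3] [(105, 136, [2, 2, 3])]) (.br 971 (.use 168) (.con 136 [2,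
  2, 3, 3]) (.br 970 (.use 66) (.use 78) (.hor [.f 970 3 5] []) .no .no .no) .no .no (.use 96))
  .no (.br 971 (.use 169) (.con 136 [2, 3, 3]) (.br 970 (.use 174) .no (.hor [.f 970 3 5] []) .no
  .no .no) .no .no (.use 97)) .no) .no (.hor [.f 818 3 1, .f 825 1 5] [(119, 121, [4, 4])]) (.br
  1097 .no .no (.br 1098 (.use 149) (.br 971 (.use 172) (.con 136 [2, 3, 3]) (.use 174) .no .no
  .no) (.hor [.f 1097 3 5] []) .no (.use 159) .no) .no (.use 173) .no) .no) (.red [.f 840 3 1, .f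
  832 1 3, .f 960 3 5] 121 136 [2, 3] [(121, 136, [2, 3]), (122, 136, [2, 3, 3])]) .no (.red [.t
  960 2 3, .t 1080 2 3, .f 961 1 5] 121 136 [2, 3] [(121, 136, [2, 3]), (136, 136, [])]) .no) .no
  (.hor [.f 1217 3 1, .f 1216 1 5] [(169, 168, [3])]) (.use 160) .no .no) .no) .no (.hor [.f 1216
  3 5] []) (.use 161) .no .no) .no (.hor [.f 1217 3 5] []) .no .no .no) (.hor [.f 944 1 5] []) .no
  (.use 151) .no .no) (.red [.f 1081 3 1, .f 1081 1 5, .t 945 1 3, .f 954 1 3] 136 136 [] [(135,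
  136, [4]), (136, 136, []), (152, 136, [1])]) (.red [.t 1081 3 1, .t 945 1 3, .f 954 1 3] 136 136
  [] [(135, 136, [4]), (136, 136, []), (152, 136, [1])]) (.use 106)

def c28t176 : Tr4 :=
  .br 1203 (.red [.f 1203 1 3] 167 136 [4, 1, 1] [(167, 136, [4, 1, 1])]) .no .no (.br 1200 (.con
  136 [4, 4, 1, 1]) .no .no (.use 33) .no .no) .no .no

def c28t177 : Tr4 :=
  .br 1072 (.use 164) .no .no (.use 151) (.red [.f 944 5 1, .t 1081 3 1, .t 945 1 3, .f 954 1 3]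
  136 136 [] [(135, 136, [4]), (136, 136, []), (152, 136, [1])]) .no

def c28t178 : Tr4 :=
  .br 1208 (.hor [.f 1208 1 5] []) .no (.hor [.f 1209 1 3, .f 1208 3 5] [(168, 167, [3])]) (.con
  136 [4, 1, 1]) .no .no

def c28t179 : Tr4 :=
  .br 1208 (.br 945 (.red [.f 1081 3 1, .f 1081 1 5, .t 945 1 3, .f 954 1 3] 136 136 [] [(135,
  136, [4]), (136, 136, []), (152, 136, [1])]) (.hor [.f 817 1 3, .f 945 3 5] [(119, 136, [2,
  4])]) .no (.br 1073 .no .no .no (.hor [.f 1065 3 5] []) .no (.use 162)) .no (.br 1072 (.use 164)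
  .no .no (.use 151) (.use 27) .no)) .no (.hor [.f 1208 3 5] []) (.con 136 [4, 1, 1]) .no .no

def c28t180 : Tr4 :=
  .br 1073 .no .no .no (.hor [.f 1065 3 5] []) .no (.br 1065 (.red [.t 1065 1 3, .f 1074 1 3, .f
  1074 3 5] 151 136 [4, 1] [(150, 136, [4, 4, 1]), (151, 136, [4, 1])]) .no .no (.use 26) .no
  (.red [.f 1064 5 3, .f 1065 3 5, .f 1073 5 1, .f 1074 1 3] 151 136 [4, 1] [(151, 136, [4, 1])]))

def c28t181 : Tr4 :=
  .br 1208 (.use 105) .no .no (.con 136 [4, 1, 1]) (.br 945 (.use 106) (.hor [.f 817 1 3, .f 945 3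
  5] [(119, 136, [2, 4])]) .no (.use 180) .no (.br 1072 (.use 164) .no .no (.use 151) (.use 15)
  .no)) .no

def c28t182 : Tr4 :=
  .br 1217 (.br 1209 (.use 178) .no .no .no .no (.use 111)) .no (.hor [.t 1098 1 4, .f 1217 3 5]
  [(153, 136, [3, 1])]) (.use 179) .no (.use 181)

def c28t183 : Tr4 :=
  .br 1097 (.hor [.f 1097 1 5] []) .no (.br 1219 (.br 1218 (.hor [.f 1218 1 5] []) .no .no .no .no
  (.br 945 (.red [.t 1081 3 1, .t 945 1 3, .f 954 1 3] 136 136 [] [(135, 136, [4]), (136, 136,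
  []), (152, 136, [1])]) (.hor [.f 817 1 3, .f 945 3 5] [(119, 136, [2, 4])]) .no (.br 1073 .no
  .no .no (.hor [.f 1065 3 5] []) .no (.br 1065 (.red [.t 1065 1 3, .f 1074 1 3, .f 1074 3 5] 151
  136 [4, 1] [(150, 136, [4, 4, 1]), (151, 136, [4, 1])]) .no .no (.br 1208 (.use 10) .no (.br
  1209 (.br 1338 (.use 176) .no (.hor [.t 1337 2 3, .f 1218 1 5, .t 1098 1 4] [(153, 136, [3, 1]),
  (168, 167, [3])]) (.red [.t 1337 2 4] 167 136 [4, 1, 1] [(167, 136, [4, 1, 1])]) .no .no) .no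
  .no .no .no .no) (.con 136 [4, 1, 1]) (.use 26) .no) .no (.red [.f 1064 5 3, .f 1065 3 5, .f
  1073 5 1, .f 1074 1 3] 151 136 [4, 1] [(151, 136, [4, 1])]))) .no (.use 177))) .no (.hor [.f
  1091 3 1, .f 1098 1 5] [(153, 136, [3, 1])]) .no .no (.use 182)) .no .no .no

def c28t184 : Tr4 :=
  .br 1219 (.con 136 [1, 3, 1]) .no (.hor [.f 1218 3 5] []) .no .no .no

def c28t185 : Tr4 :=
  .br 1227 (.hor [.f 1226 1 5] []) .no (.con 136 [1, 3, 3, 1]) .no .no .no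

def c28t186 : Tr4 :=
  .br 1235 (.br 1234 (.hor [.f 1234 1 5] []) .no (.con 136 [3, 3, 1, 1, 3]) .no .no (.con 136 [3,
  3, 1, 1, 3])) .no (.red [.f 1107 3 1, .t 1106 4 1] 154 136 [3, 3, 1] [(154, 136, [3, 3, 1]),
  (155, 136, [3, 3, 1, 3])]) .no .no (.red [.f 1226 5 3, .f 1098 3 1, .f 1097 1 5, .t 961 3 1, .f
  1090 3 5] 154 136 [3, 3, 1] [(137, 121, [1]), (154, 136, [3, 3, 1])])

def c28t187 : Tr4 :=
  .br 1235 (.hor [.f 1234 1 5] []) .no (.red [.f 1107 3 1, .t 1106 4 1] 154 136 [3, 3, 1] [(154,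
  136, [3, 3, 1]), (155, 136, [3, 3, 1, 3])]) .no .no .no

def c28t188 : Tr4 :=
  .br 971 .no (.hor [.f 842 1 5] []) (.br 1218 (.hor [.f 1217 1 5] []) .no (.use 184) .no (.br
  1226 (.use 185) .no (.red [.f 1098 3 1, .f 1097 1 5] 154 136 [3, 3, 1] [(154, 136, [3, 3, 1])])
  .no (.br 1107 (.red [.t 1106 4 1, .f 1097 1 5] 154 136 [3, 3, 1] [(154, 136, [3, 3, 1])]) .no
  (.br 1344 (.br 1352 (.red [.f 1344 1 3, .f 1216 3 1, .f 1216 1 5] 169 136 [3, 1, 1] [(169, 136,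
  [3, 1, 1]), (185, 136, [3, 1, 1, 1])]) .no (.use 186) .no (.red [.t 1216 3 1] 169 136 [3, 1, 1]
  [(169, 136, [3, 1, 1])]) .no) .no (.red [.f 1216 3 1, .f 1216 1 5] 169 136 [3, 1, 1] [(169, 136,
  [3, 1, 1])]) (.br 1346 (.br 1347 (.hor [.f 1346 1 5] []) .no (.con 136 [3, 1, 1, 1]) .no .no
  .no) .no (.red [.f 1218 5 3, .f 1218 3 1] 169 136 [3, 1, 1] [(169, 136, [3, 1, 1])]) (.con 136
  [1, 1, 1]) (.br 1234 (.use 187) .no (.br 1353 (.br 1354 (.hor [.f 1353 1 5] []) .no (.br 1235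
  (.con 136 [3, 3, 1, 1, 1]) .no (.hor [.f 1234 3 5] []) .no .no .no) .no (.red [.f 1226 5 1, .f
  1218 5 1, .f 1219 1 3] 169 136 [3, 1, 1] [(169, 136, [3, 1, 1])]) .no) .no (.br 1233 .no (.red
  [.f 1097 1 3, .f 1097 3 5] 154 136 [3, 3, 1] [(154, 136, [3, 3, 1])]) (.hor [.f 1233 3 5] [])
  .no .no (.red [.f 1088 3 1, .f 1096 1 5, .f 1224 5 3, .f 1225 3 1] 170 136 [3, 3, 1, 1] [(153,
  154, [4]), (170, 136, [3, 3, 1, 1])])) .no (.red [.f 1218 5 3, .t 1217 1 3] 169 136 [3, 1, 1]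
  [(169, 136, [3, 1, 1])]) (.red [.t 1216 3 1] 169 136 [3, 1, 1] [(169, 136, [3, 1, 1])])) .no
  (.red [.f 1226 5 3, .f 1098 3 1, .f 1097 1 5, .t 961 3 1, .f 1090 3 5] 154 136 [3, 3, 1] [(137,
  121, [1]), (154, 136, [3, 3, 1])]) (.red [.t 1097 1 3] 154 136 [3, 3, 1] [(154, 136, [3, 3,
  1])])) .no) .no .no) .no .no .no) .no) .no) .no .no .no

def c28l5 : List Tr4 :=
  [c28t161, c28t162, c28t163, c28t164, c28t165, c28t166, c28t167, c28t168, c28t169, c28t170,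
  c28t171, c28t172, c28t173, c28t174, c28t175, c28t176, c28t177, c28t178, c28t179, c28t180,
  c28t181, c28t182, c28t183, c28t184, c28t185, c28t186, c28t187, c28t188]

theorem c28k5 : chkLF ⟨4, 1, 0, true, -8⟩ false 8 c28N 161 c28l5 = true := by decide +kernel

def c28t189 : Tr4 :=
  .br 841 .no (.red [.f 705 1 3, .f 833 3 1] 121 136 [2, 3] [(105, 136, [2, 2, 3]), (121, 136, [2,
  3])]) (.br 840 .no (.br 842 .no (.con 136 [2, 3, 3, 2]) (.hor [.f 841 3 5] []) .no (.con 136 [2,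
  3, 2, 3]) .no) (.hor [.f 840 3 5] []) .no .no .no) .no (.red [.t 1090 2 3, .f 961 3 5, .t 825 1
  3, .f 841 5 1, .f 834 1 3] 121 136 [2, 3] [(120, 136, [2]), (121, 136, [2, 3]), (137, 121,
  [1])]) (.red [.t 960 2 3, .t 1080 2 3, .f 961 1 5] 121 136 [2, 3] [(121, 136, [2, 3]), (136,
  136, [])])

def c28t190 : Tr4 :=
  .br 945 (.red [.t 1081 3 1, .t 945 1 3, .f 954 1 3] 136 136 [] [(135, 136, [4]), (136, 136, []),
  (152, 136, [1])]) (.hor [.f 817 1 3, .f 945 3 5] [(119, 136, [2, 4])]) .no (.br 1208 (.use 85)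
  .no (.br 1073 .no .no .no (.hor [.f 1065 3 5] []) .no (.br 1209 (.br 1338 (.br 1065 (.red [.t
  1065 1 3, .f 1074 1 3, .f 1074 3 5] 151 136 [4, 1] [(150, 136, [4, 4, 1]), (151, 136, [4, 1])])
  .no .no (.use 176) .no (.red [.f 1064 5 3, .f 1065 3 5, .f 1073 5 1, .f 1074 1 3] 151 136 [4, 1]
  [(151, 136, [4, 1])])) .no (.hor [.t 1337 2 3, .f 1208 3 5] [(168, 167, [3])]) (.red [.t 1337 2
  4] 167 136 [4, 1, 1] [(167, 136, [4, 1, 1])]) .no .no) .no .no .no .no .no)) (.con 136 [4, 1,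
  1]) (.use 180) .no) .no (.use 177)

def c28t191 : Tr4 :=
  .br 1106 .no (.red [.f 962 1 3, .f 962 3 1, .f 970 1 3, .f 970 3 5] 138 136 [3, 3] [(138, 136,
  [3, 3])]) (.br 1105 (.red [.f 1097 1 3] 154 136 [3, 3, 1] [(154, 136, [3, 3, 1])]) (.con 136 [3,
  3, 3]) (.hor [.f 1105 3 5] []) .no .no (.br 978 .no (.br 977 .no (.hor [.f 849 1 5] []) (.con
  136 [3, 2, 3, 3]) .no .no .no) (.red [.f 978 3 1] 139 136 [3, 3, 3] [(139, 136, [3, 3, 3])]) .no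
  .no (.red [.f 1088 3 1, .f 1096 1 5, .f 1096 5 3, .t 1097 3 2] 138 136 [3, 3] [(138, 136, [3,
  3]), (153, 154, [4])]))) .no (.red [.t 970 1 3, .f 1098 3 1, .f 1097 1 5] 138 136 [3, 3] [(138,
  136, [3, 3]), (154, 136, [3, 3, 1])]) (.red [.t 1225 2 3] 154 136 [3, 3, 1] [(154, 136, [3, 3,
  1])])

def c28t192 : Tr4 :=
  .br 1105 (.red [.f 1097 1 3] 154 136 [3, 3, 1] [(154, 136, [3, 3, 1])]) (.con 136 [3, 3, 3])
  (.con 136 [3, 3, 3, 1]) .no .no (.con 136 [3, 3, 3, 1])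

def c28t193 : Tr4 :=
  .br 978 .no (.con 136 [3, 3, 2, 3]) (.hor [.f 977 3 5] []) .no .no .no

def c28t194 : Tr4 :=
  .br 1107 (.red [.f 962 1 3, .f 1090 3 5, .f 1098 5 1, .f 1099 1 3] 154 136 [3, 3, 1] [(137, 121,
  [1]), (154, 136, [3, 3, 1])]) .no (.br 1106 (.use 192) (.red [.f 962 1 3, .f 962 3 1, .f 970 1
  3, .f 970 3 5] 138 136 [3, 3] [(138, 136, [3, 3])]) (.hor [.f 1106 3 5] []) .no .no (.br 977 .no
  (.red [.f 962 1 3, .f 961 3 5, .f 841 5 1, .f 841 1 3] 122 136 [2, 3, 3] [(122, 136, [2, 3, 3]),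
  (137, 121, [1])]) (.use 193) .no (.red [.f 977 5 1, .f 970 1 3] 138 136 [3, 3] [(138, 136, [3,
  3])]) .no)) .no .no (.red [.t 970 1 3] 138 136 [3, 3] [(138, 136, [3, 3])])

def c28t195 : Tr4 :=
  .br 1226 (.use 185) .no (.use 191) .no (.use 194) .no

def c28t196 : Tr4 :=
  .br 978 (.red [.f 962 1 3, .f 962 3 1, .f 970 1 3, .f 970 3 5] 138 136 [3, 3] [(138, 136, [3,
  3])]) (.con 136 [3, 2, 3, 3]) (.hor [.f 977 3 5] []) .no .no .no

def c28t197 : Tr4 :=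
  .br 977 .no (.red [.f 962 1 3, .f 961 3 5, .f 841 5 1, .f 841 1 3] 122 136 [2, 3, 3] [(122, 136,
  [2, 3, 3]), (137, 121, [1])]) (.use 196) .no (.red [.f 962 1 3, .f 962 3 1, .t 1097 3 2] 138 136
  [3, 3] [(138, 136, [3, 3])]) .no

def c28t198 : Tr4 :=
  .br 971 .no (.con 136 [2, 3, 3]) (.br 1097 (.br 1218 (.hor [.f 1217 1 5] []) .no (.use 184) .no
  (.use 195) .no) .no (.use 197) .no .no .no) .no .no .no

def c28t199 : Tr4 :=
  .br 1107 (.red [.f 1091 3 1, .f 1099 1 3, .f 971 3 1] 138 136 [3, 3] [(138, 136, [3, 3]), (153,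
  136, [3, 1]), (154, 136, [3, 3, 1])]) .no (.hor [.f 1106 3 5] []) .no .no .no

def c28t200 : Tr4 :=
  .br 840 .no (.use 78) (.hor [.f 840 3 5] []) .no .no .no

def c28t201 : Tr4 :=
  .br 840 .no (.use 96) (.hor [.f 840 3 5] []) .no .no .no

def c28t202 : Tr4 :=
  .br 970 .no (.br 971 .no (.use 170) (.use 200) .no .no .no) (.use 83) .no (.use 201) .no

def c28t203 : Tr4 :=
  .br 840 .no (.use 66) (.hor [.f 840 3 5] []) .no .no .no

def c28t204 : Tr4 :=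
  .br 971 .no (.con 136 [2, 3, 3]) (.br 1097 .no .no (.use 197) .no .no .no) .no .no .no

def c28t205 : Tr4 :=
  .br 1097 .no .no (.hor [.f 1097 3 5] []) .no .no .no

def c28t206 : Tr4 :=
  .br 840 .no (.use 97) (.red [.f 840 3 1] 122 136 [2, 3, 3] [(122, 136, [2, 3, 3])]) .no .no .no

def c28t207 : Tr4 :=
  .br 1217 (.br 1209 (.use 178) .no .no .no .no (.br 1216 (.hor [.f 1216 1 5] []) .no (.br 840 .no
  (.br 970 (.br 841 .no (.red [.f 705 1 3] 105 136 [2, 2, 3] [(105, 136, [2, 2, 3])]) (.use 66)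
  .no (.use 198) .no) (.use 82) (.use 83) .no (.use 100) .no) (.red [.f 840 3 1, .f 832 1 3, .f
  960 3 5] 121 136 [2, 3] [(121, 136, [2, 3]), (122, 136, [2, 3, 3])]) .no (.red [.t 960 2 3, .t
  1080 2 3, .f 961 1 5] 121 136 [2, 3] [(121, 136, [2, 3]), (136, 136, [])]) .no) .no .no .no))
  .no (.br 826 .no (.br 841 .no (.red [.f 705 1 3] 105 136 [2, 2, 3] [(105, 136, [2, 2, 3])]) (.br
  1218 (.br 1219 (.hor [.f 1218 1 5] []) .no (.br 1226 (.hor [.f 1218 1 3, .f 1217 3 5] [(169,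
  121, [1, 1, 1])]) (.use 183) (.br 1098 .no (.br 971 .no (.con 136 [2, 3, 3]) (.br 1106 .no (.red
  [.f 962 1 3, .f 962 3 1, .f 970 1 3, .f 970 3 5] 138 136 [3, 3] [(138, 136, [3, 3])]) (.use 199)
  .no (.red [.t 970 1 3] 138 136 [3, 3] [(138, 136, [3, 3])]) (.con 136 [3, 3, 1, 4, 2, 2])) .no
  .no .no) (.hor [.f 1091 3 1, .f 1098 3 1, .f 1098 1 5] [(153, 136, [3, 1]), (154, 136, [3, 3,
  1])]) .no .no (.use 202)) .no .no .no) .no .no .no) .no (.hor [.f 1217 3 5] []) .no (.br 1097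
  .no .no (.br 1098 (.use 182) (.use 203) (.hor [.f 1097 3 5] []) .no .no .no) .no (.use 202) .no)
  .no) .no (.br 970 (.use 204) .no (.use 83) .no (.use 206) .no) (.red [.t 960 2 3, .t 1080 2 3,
  .f 961 1 5] 121 136 [2, 3] [(121, 136, [2, 3]), (136, 136, [])])) .no (.hor [.f 818 3 1, .f 825
  1 5] [(119, 121, [4, 4])]) (.br 1098 (.use 183) (.br 841 .no (.red [.f 705 1 3] 105 136 [2, 2,
  3] [(105, 136, [2, 2, 3])]) (.use 203) .no (.use 204) (.red [.t 960 2 3, .t 1080 2 3, .f 961 1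
  5] 121 136 [2, 3] [(121, 136, [2, 3]), (136, 136, [])])) (.use 205) .no .no (.br 840 .no (.use
  173) (.red [.f 840 3 1, .f 832 1 3, .f 960 3 5] 121 136 [2, 3] [(121, 136, [2, 3]), (122, 136,
  [2, 3, 3])]) .no (.red [.t 960 2 3, .t 1080 2 3, .f 961 1 5] 121 136 [2, 3] [(121, 136, [2, 3]),
  (136, 136, [])]) .no)) .no) (.use 179) (.use 190) (.use 181)

def c28t208 : Tr4 :=
  .br 1218 (.hor [.f 1217 1 5] []) .no (.con 136 [1, 3, 1]) .no .no .no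

def c28t209 : Tr4 :=
  .br 1203 (.hor [.f 1202 1 5] []) .no .no (.con 136 [4, 1, 4, 1]) .no .no

def c28t210 : Tr4 :=
  .br 1200 (.use 209) .no .no (.red [.f 1064 3 1] 150 136 [4, 1, 4] [(150, 136, [4, 1, 4])]) .no
  .no

def c28t211 : Tr4 :=
  .br 1200 (.use 209) .no .no (.red [.f 1064 3 1] 150 136 [4, 1, 4] [(150, 136, [4, 1, 4])]) .no
  .no

def c28t212 : Tr4 :=
  .br 1208 (.br 945 (.br 1072 (.dom 151 136 [4, 1]) (.hor [.f 944 1 5] []) .no (.use 210) .no .no)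
  (.hor [.f 817 1 3, .f 945 3 5] [(119, 136, [2, 4])]) .no (.br 1073 .no .no .no (.hor [.f 1065 3
  5] []) .no (.br 1200 (.use 209) .no .no (.use 34) .no .no)) .no (.br 1072 (.dom 151 136 [4, 1])
  .no .no (.use 210) (.br 1200 (.use 209) .no .no (.use 39) .no .no) .no)) .no (.br 945 (.br 1072
  (.dom 151 136 [4, 1]) (.hor [.f 944 1 5] []) .no (.use 211) .no .no) (.hor [.f 817 1 3, .f 945 3
  5] [(119, 136, [2, 4])]) .no (.br 1073 .no .no .no (.hor [.f 1065 3 5] []) .no (.br 1200 (.use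
  209) .no .no (.use 34) .no .no)) .no (.br 1072 (.dom 151 136 [4, 1]) .no .no (.use 211) (.br
  1200 (.use 209) .no .no (.use 39) .no .no) .no)) (.hor [.f 1200 3 5] []) .no .no

def c28t213 : Tr4 :=
  .br 1209 (.hor [.f 1208 1 5] []) .no .no .no .no .no

def c28t214 : Tr4 :=
  .br 1192 (.con 136 [4, 4, 1, 1]) .no (.hor [.f 1192 3 5] []) (.con 136 [4, 4, 1, 1]) .no .no

def c28t215 : Tr4 :=
  .br 1200 (.con 136 [4, 4, 1, 1]) .no .no (.red [.f 1064 5 3, .f 1064 3 1] 150 136 [4, 4, 1]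
  [(150, 136, [4, 4, 1])]) .no .no

def c28t216 : Tr4 :=
  .br 944 .no (.br 936 (.br 1200 (.con 136 [4, 4, 1, 1]) .no .no (.red [.t 936 1 3, .f 1064 3 1]
  150 136 [4, 4, 1] [(134, 136, [4, 4]), (150, 136, [4, 4, 1])]) .no .no) (.use 4) .no (.br 1064
  (.con 136 [4, 4, 1, 1]) .no .no (.use 214) (.use 215) .no) .no .no) .no (.hor [.f 936 3 5] [])
  .no .no

def c28t217 : Tr4 :=
  .br 1209 (.br 1208 (.hor [.f 1208 1 5] []) .no (.use 216) (.con 136 [4, 1, 1]) .no .no) .no (.br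
  1216 (.con 136 [1, 1]) .no (.con 136 [1, 1]) (.use 216) .no .no) .no .no (.use 35)

def c28t218 : Tr4 :=
  .br 1216 (.con 136 [1, 1]) .no (.con 136 [1, 1]) (.hor [.f 1208 3 5] []) .no .no

def c28t219 : Tr4 :=
  .br 1208 (.use 213) .no .no (.con 136 [4, 1, 1]) (.use 35) .no

def c28t220 : Tr4 :=
  .br 1064 (.con 136 [4, 4, 1, 1]) (.br 1200 (.con 136 [4, 4, 1, 1]) .no .no (.red [.f 944 5 1, .f
  936 1 3, .f 1064 3 1] 150 136 [4, 4, 1] [(134, 136, [4, 4]), (150, 136, [4, 4, 1])]) .no .no)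
  .no (.use 214) (.use 215) .no

def c28t221 : Tr4 :=
  .br 1208 (.use 105) .no .no (.con 136 [1, 4, 1]) (.red [.f 1208 5 3, .f 1081 3 1, .f 1081 1 5,
  .t 945 1 3, .f 954 1 3] 136 136 [] [(135, 136, [4]), (136, 136, []), (152, 136, [1])]) .no

def c28t222 : Tr4 :=
  .br 1353 (.con 136 [1, 3, 1, 3, 1]) .no (.hor [.f 1353 3 5] []) .no .no .no

def c28t223 : Tr4 :=
  .br 1344 (.con 136 [1, 3, 1, 1]) .no (.br 1354 (.red [.f 1346 1 3, .f 1218 3 1] 169 136 [1, 3,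
  1] [(169, 136, [1, 3, 1]), (185, 136, [1, 3, 1, 1])]) .no (.use 222) .no .no (.red [.t 1217 1 3,
  .f 1344 3 5] 169 136 [1, 3, 1] [(169, 136, [1, 3, 1])])) (.con 136 [1, 3, 1, 1]) .no .no

def c28t224 : Tr4 :=
  .br 1347 (.hor [.f 1346 1 5] []) .no (.use 223) .no .no .no

def c28t225 : Tr4 :=
  .br 1347 (.hor [.f 1346 1 5] []) .no (.use 223) (.br 1344 (.hor [.f 1338 1 3, .f 1338 3 5]
  [(184, 185, [4])]) .no (.hor [.f 1338 1 3, .f 1338 3 5] [(184, 167, [3, 1])]) (.hor [.f 1338 1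
  3, .f 1209 1 3, .f 1211 3 1, .f 1336 3 5, .f 1338 3 1] []) .no .no) .no .no

def c28t226 : Tr4 :=
  .br 1227 (.red [.t 1226 4 1, .f 1217 1 5] 169 136 [3, 1, 1] [(169, 136, [3, 1, 1])]) .no (.br
  1355 (.br 1354 (.hor [.f 1354 1 5] []) .no (.br 1353 (.con 136 [3, 1, 1, 3, 1]) .no (.hor [.f
  1353 3 5] []) .no .no (.con 136 [3, 1, 1, 3, 1])) .no .no (.red [.t 1217 1 3] 169 136 [3, 1, 1]
  [(169, 136, [3, 1, 1])])) .no (.red [.f 1227 3 1, .t 1226 4 1] 170 136 [3, 1, 1, 3] [(169, 136,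
  [3, 1, 1]), (170, 136, [3, 1, 1, 3])]) .no .no (.red [.f 1346 5 3, .f 1218 3 1, .f 1217 1 5, .t
  1081 3 1, .f 1210 3 5] 169 136 [3, 1, 1] [(152, 136, [1]), (169, 136, [3, 1, 1])])) .no .no .no

def c28t227 : Tr4 :=
  .br 1346 (.use 225) .no (.red [.f 1218 3 1, .f 1217 1 5] 169 136 [3, 1, 1] [(169, 136, [3, 1,
  1])]) .no (.use 226) .no

def c28t228 : Tr4 :=
  .br 1347 (.red [.f 1339 1 3, .f 1338 3 5] 184 136 [1, 1, 1] [(184, 136, [1, 1, 1])]) .no (.br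
  1344 (.con 136 [1, 3, 1, 1]) .no (.br 1475 (.br 1354 (.br 1474 (.hor [.f 1474 1 5] []) .no .no
  (.red [.f 1338 3 1, .f 1338 1 5] 184 136 [1, 1, 1] [(184, 136, [1, 1, 1])]) .no (.red [.f 1209 1
  3, .f 1337 3 5, .f 1345 5 1, .f 1346 1 3] 185 136 [1, 3, 1, 1] [(168, 167, [3]), (185, 136, [1,
  3, 1, 1])])) .no (.use 222) .no .no (.red [.t 1217 1 3, .f 1344 3 5] 169 136 [1, 3, 1] [(169,
  136, [1, 3, 1])])) .no (.red [.f 1347 3 1, .f 1339 1 3, .f 1338 3 5] 185 136 [1, 3, 1, 1] [(184,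
  136, [1, 1, 1]), (185, 136, [1, 3, 1, 1])]) .no .no (.red [.t 1338 3 1] 184 136 [1, 1, 1] [(184,
  136, [1, 1, 1])])) (.con 136 [1, 1, 1]) .no .no) .no .no .no

def c28t229 : Tr4 :=
  .br 1200 .no .no .no (.use 33) .no .no

def c28t230 : Tr4 :=
  .br 1346 (.use 224) .no (.red [.f 1218 3 1, .f 1217 1 5] 169 136 [3, 1, 1] [(169, 136, [3, 1,
  1])]) .no (.use 226) .no

def c28t231 : Tr4 :=
  .br 1328 (.red [.f 1328 1 3] 183 136 [4, 1, 1, 1] [(183, 136, [4, 1, 1, 1])]) (.con 136 [4, 1,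
  1, 4]) .no (.con 136 [4, 1, 4, 1, 1]) (.con 136 [4, 1, 4, 1, 1]) .no

def c28t232 : Tr4 :=
  .br 1329 (.con 136 [4, 1, 4, 1, 1]) .no .no (.hor [.f 1321 3 5] []) .no .no

def c28t233 : Tr4 :=
  .br 1336 (.con 136 [4, 1, 1, 1]) .no (.con 136 [1, 1, 1]) (.use 229) .no .no

def c28t234 : Tr4 :=
  .br 1339 (.red [.f 1339 1 3, .f 1338 3 5] 184 136 [1, 1, 1] [(184, 136, [1, 1, 1])]) .no .no
  (.use 233) .no .no

def c28t235 : Tr4 :=
  .br 1465 (.hor [.f 1465 1 5] []) .no .no (.red [.t 1337 2 3, .t 1457 3 2, .f 1337 1 3, .f 1209 3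
  1] 184 136 [1, 1, 1] [(183, 136, [1, 1, 4, 1]), (184, 136, [1, 1, 1])]) .no .no

def c28t236 : Tr4 :=
  .br 1344 (.con 136 [1, 3, 1, 1]) .no (.hor [.f 1344 3 5] []) .no .no .no

def c28l6 : List Tr4 :=
  [c28t189, c28t190, c28t191, c28t192, c28t193, c28t194, c28t195, c28t196, c28t197, c28t198,
  c28t199, c28t200, c28t201, c28t202, c28t203, c28t204, c28t205, c28t206, c28t207, c28t208,
  c28t209, c28t210, c28t211, c28t212, c28t213, c28t214, c28t215, c28t216, c28t217, c28t218,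
  c28t219, c28t220, c28t221, c28t222, c28t223, c28t224, c28t225, c28t226, c28t227, c28t228,
  c28t229, c28t230, c28t231, c28t232, c28t233, c28t234, c28t235, c28t236]

theorem c28k6 : chkLF ⟨4, 1, 0, true, -8⟩ false 8 c28N 189 c28l6 = true := by decide +kernel

end Pool.Agent.FT4D
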