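import Pool.Agent.FT4D.Tab_c28

/-!
# Four levels: decision trees (found by a computer search)
-/

namespace Pool.Agent.FT4D

def c28t237 : Tr4 :=
  .br 1200 (.br 1329 (.br 1330 (.hor [.f 1329 1 5] []) .no .no (.con 136 [4, 1, 1, 1, 4]) (.con
  136 [4, 1, 1, 4]) .no) .no .no (.red [.t 1328 2 4] 166 136 [4, 4, 1, 1] [(166, 136, [4, 4, 1,
  1])]) (.red [.f 1201 5 1, .f 1201 1 3] 167 136 [4, 1, 1] [(167, 136, [4, 1, 1])]) .no) .no .no
  .no .no .no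

def c28t238 : Tr4 :=
  .br 1322 (.con 136 [4, 1, 4, 1, 4]) (.hor [.f 1193 1 5] []) .no (.con 136 [4, 1, 4, 1, 4]) (.con
  136 [4, 1, 4, 1, 4]) .no

def c28t239 : Tr4 :=
  .br 1192 (.hor [.f 1192 1 5] []) .no .no (.use 238) .no .no

def c28t240 : Tr4 :=
  .br 1329 (.con 136 [4, 1, 4, 1, 1]) .no .no (.hor [.f 1321 3 5] []) .no .no

def c28t241 : Tr4 :=
  .br 1328 (.con 136 [4, 1, 4, 1, 3]) (.use 240) .no (.con 136 [4, 1, 4, 1, 3]) (.con 136 [4, 1,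
  4, 1, 3]) .no

def c28t242 : Tr4 :=
  .br 1474 (.hor [.f 1474 1 5] []) .no (.br 1330 (.br 1466 (.use 235) .no .no .no .no (.red [.t
  1345 1 4, .f 1338 1 5] 184 136 [1, 1, 1] [(184, 136, [1, 1, 1])])) .no .no (.con 136 [4, 4, 1,
  1, 4]) (.br 1195 (.con 136 [4, 4, 1, 4]) (.br 1328 (.red [.f 1328 1 3] 183 136 [4, 1, 1, 1]
  [(183, 136, [4, 1, 1, 1])]) (.con 136 [4, 1, 1, 4]) .no (.con 136 [4, 4, 1, 1, 1]) (.br 1465
  (.br 1466 (.hor [.f 1465 1 5] []) .no .no (.con 136 [4, 1, 1, 1, 1]) .no .no) .no .no (.red [.t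
  1337 2 3, .t 1217 4 1, .t 1464 2 4] 183 136 [4, 1, 1, 1] [(183, 136, [4, 1, 1, 1])]) (.red [.t
  1345 1 4, .f 1338 1 5] 184 136 [1, 1, 1] [(184, 136, [1, 1, 1])]) .no) .no) (.con 136 [4, 4, 1,
  4]) (.con 136 [4, 4, 1, 4]) .no (.con 136 [4, 4, 1, 4])) (.red [.f 1201 5 1, .f 1201 1 3] 167
  136 [4, 1, 1] [(167, 136, [4, 1, 1])])) (.red [.f 1338 3 1, .f 1338 1 5] 184 136 [1, 1, 1]
  [(184, 136, [1, 1, 1])]) .no .no

def c28t243 : Tr4 :=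
  .br 1328 (.con 136 [1, 4, 1, 4, 1, 3]) (.con 136 [1, 4, 1, 4]) .no (.con 136 [1, 4, 1, 4, 1])
  (.red [.t 1208 3 1, .t 1344 2 4, .t 1464 2 4] 183 136 [1, 4, 1, 1] [(183, 136, [1, 4, 1, 1])])
  .no

def c28t244 : Tr4 :=
  .br 1330 (.red [.f 1330 1 3, .t 1337 2 4] 167 136 [4, 1, 1] [(167, 136, [4, 1, 1]), (183, 136,
  [4, 1, 1, 1])]) .no .no (.br 1193 (.br 1200 (.br 1203 (.con 136 [4, 4, 1, 1, 1]) .no .no (.con
  136 [4, 4, 1, 1]) .no .no) .no .no (.use 33) .no .no) .no .no (.red [.f 1057 3 1, .t 1065 1 3]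
  150 136 [4, 4, 1] [(149, 136, [4, 4, 1, 4]), (150, 136, [4, 4, 1])]) (.red [.f 1193 5 3, .f 1066
  3 1, .f 1074 1 3] 151 136 [4, 1] [(150, 136, [4, 4, 1]), (151, 136, [4, 1])]) (.br 1336 (.br
  1339 (.hor [.f 1338 1 5] []) .no (.br 1331 (.use 231) (.use 241) .no (.hor [.f 1322 3 5] []) .no
  .no) (.con 136 [4, 1, 1, 1]) .no .no) .no (.br 1339 (.hor [.f 1338 1 5] []) .no (.br 1331 (.br
  1328 (.use 232) (.con 136 [4, 1, 1, 4]) .no (.con 136 [4, 4, 1, 1, 1]) (.con 136 [4, 4, 1, 1,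
  1]) .no) (.red [.f 1211 3 1, .f 1203 1 3] 167 136 [4, 1, 1] [(167, 136, [4, 1, 1]), (168, 136,
  [1, 1])]) .no (.hor [.f 1322 3 5] []) .no .no) (.con 136 [4, 1, 1, 1]) .no .no) (.use 229) .no
  .no)) (.br 1200 (.con 136 [4, 1, 1, 4]) .no .no (.use 33) .no .no) (.red [.f 1201 5 1, .f 1201 1
  3] 167 136 [4, 1, 1] [(167, 136, [4, 1, 1])])

def c28t245 : Tr4 :=
  .br 1193 (.br 1330 (.br 1200 (.use 239) .no .no (.use 33) .no .no) .no .no (.br 1200 (.br 1203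
  (.con 136 [4, 4, 1, 1, 1]) .no .no (.con 136 [4, 4, 1, 1]) .no .no) .no .no (.use 33) .no .no)
  (.red [.f 1330 5 3, .t 1337 2 4] 167 136 [4, 1, 1] [(167, 136, [4, 1, 1])]) (.red [.f 1201 5 1,
  .f 1201 1 3] 167 136 [4, 1, 1] [(167, 136, [4, 1, 1])])) .no .no (.red [.f 1057 3 1, .t 1065 1
  3] 150 136 [4, 4, 1] [(149, 136, [4, 4, 4, 1]), (150, 136, [4, 4, 1])]) (.red [.f 1193 5 3, .f
  1066 3 1, .f 1074 1 3] 151 136 [4, 1] [(150, 136, [4, 4, 1]), (151, 136, [4, 1])]) (.br 1330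
  (.br 1200 (.br 1329 (.hor [.f 1329 1 5] []) .no .no (.red [.t 1328 2 4] 166 136 [4, 4, 1, 1]
  [(166, 136, [4, 4, 1, 1])]) .no .no) .no .no .no .no .no) .no .no (.br 1336 (.br 1331 (.use 231)
  (.use 241) .no (.hor [.f 1322 3 5] []) .no .no) .no (.br 1331 (.br 1328 (.use 232) (.con 136 [4,
  1, 1, 4]) .no (.con 136 [4, 4, 1, 1, 1]) (.con 136 [4, 4, 1, 1, 1]) .no) (.br 1200 (.use 240)
  .no .no .no .no .no) .no (.hor [.f 1322 3 5] []) .no .no) (.use 229) .no .no) (.red [.f 1330 5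
  3, .t 1337 2 4] 167 136 [4, 1, 1] [(167, 136, [4, 1, 1])]) (.red [.f 1201 5 1, .f 1201 1 3] 167
  136 [4, 1, 1] [(167, 136, [4, 1, 1])]))

def c28t246 : Tr4 :=
  .br 1322 (.con 136 [4, 1, 4, 1, 4]) (.hor [.f 1193 1 5] []) .no (.con 136 [4, 1, 4, 1, 4]) (.con
  136 [4, 1, 4, 1, 4]) .no

def c28t247 : Tr4 :=
  .br 1193 (.br 1330 (.use 246) .no .no (.con 136 [4, 4, 1, 1, 4]) (.red [.f 1330 5 3, .t 1337 2
  4] 167 136 [4, 1, 1] [(167, 136, [4, 1, 1])]) (.red [.f 1201 5 1, .f 1201 1 3] 167 136 [4, 1, 1]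
  [(167, 136, [4, 1, 1])])) .no .no (.red [.f 1057 3 1, .f 1064 1 5] 149 136 [4, 4, 4, 1] [(149,
  136, [4, 4, 4, 1])]) (.red [.f 1193 5 3, .f 1066 3 1, .f 1074 1 3] 151 136 [4, 1] [(150, 136,
  [4, 4, 1]), (151, 136, [4, 1])]) .no

def c28t248 : Tr4 :=
  .br 936 (.br 1338 (.use 244) .no (.br 1347 (.use 234) .no (.br 1336 (.br 1193 (.br 1200 (.br
  1339 (.br 1192 (.hor [.f 1192 1 5] []) .no .no (.br 1330 (.br 1466 (.br 1345 (.use 235) .no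
  (.use 236) .no .no (.br 1465 (.hor [.f 1465 1 5] []) .no (.con 136 [1, 1, 1, 1]) (.br 1331 (.con
  136 [4, 1, 1, 4]) (.con 136 [4, 4, 1, 1, 1, 3]) .no (.con 136 [4, 1, 1, 4]) .no .no) .no .no))
  .no (.red [.f 1338 3 1, .f 1338 1 5] 184 136 [1, 1, 1] [(184, 136, [1, 1, 1])]) .no .no (.hor
  [.t 1337 2 3, .f 1208 3 5, .f 1337 5 1, .f 1338 1 5, .t 1218 1 4] [])) .no .no (.con 136 [4, 4,
  1, 1, 4]) (.con 136 [4, 1, 1, 4]) (.red [.f 1201 5 1, .f 1201 1 3] 167 136 [4, 1, 1] [(167, 136,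
  [4, 1, 1])])) .no .no) .no .no (.con 136 [4, 1, 1, 4]) .no .no) .no .no (.use 33) .no .no) .no
  .no (.red [.f 1057 3 1, .t 1065 1 3] 150 136 [4, 4, 1] [(149, 136, [4, 4, 4, 1]), (150, 136, [4,
  4, 1])]) (.red [.f 1193 5 3, .f 1066 3 1, .f 1074 1 3] 151 136 [4, 1] [(150, 136, [4, 4, 1]),
  (151, 136, [4, 1])]) (.use 237)) .no (.con 136 [1, 1, 1]) (.use 229) .no .no) (.hor [.f 1338 3
  5] []) .no .no) (.red [.t 1337 2 4] 167 136 [4, 1, 1] [(167, 136, [4, 1, 1])]) (.use 245) .no)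
  (.use 4) .no (.br 1064 (.br 1338 (.use 244) .no (.br 1347 (.use 234) .no (.br 1193 (.br 1336
  (.br 1345 (.br 1339 (.br 1475 (.use 242) .no (.red [.f 1347 3 1, .f 1339 1 3, .f 1338 3 5] 184
  136 [1, 1, 1] [(184, 136, [1, 1, 1]), (185, 136, [1, 3, 1, 1])]) .no .no (.red [.t 1338 3 1, .f
  1345 1 5] 184 136 [1, 1, 1] [(184, 136, [1, 1, 1])])) .no .no (.con 136 [4, 1, 1, 1]) .no .no)
  .no (.use 236) .no .no (.br 1339 (.br 1330 (.br 1466 (.br 1465 (.hor [.f 1465 1 5] []) .no (.con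
  136 [1, 1, 1, 1]) (.br 1328 (.red [.f 1328 1 3] 183 136 [4, 1, 1, 1] [(183, 136, [4, 1, 1, 1])])
  (.br 1331 (.con 136 [4, 1, 1, 4]) (.con 136 [4, 4, 1, 1, 1, 3]) .no (.con 136 [4, 1, 1, 4]) .no
  .no) .no (.br 1331 (.con 136 [4, 4, 1, 1, 1]) (.con 136 [4, 4, 1, 1, 3]) .no (.con 136 [4, 4, 1,
  1, 1, 3]) .no .no) (.red [.t 1208 3 1, .t 1344 2 4, .t 1464 2 4] 183 136 [4, 1, 1, 1] [(183,
  136, [4, 1, 1, 1])]) .no) .no .no) .no (.red [.f 1338 3 1, .f 1338 1 5] 184 136 [1, 1, 1] [(184,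
  136, [1, 1, 1])]) .no .no (.hor [.t 1337 2 3, .f 1208 3 5, .f 1337 5 1, .f 1338 1 5, .t 1218 1
  4] [])) .no .no (.con 136 [4, 4, 1, 1, 4]) (.br 1466 (.br 1465 (.hor [.f 1465 1 5] []) .no (.con
  136 [1, 1, 1, 1]) (.use 243) .no .no) .no (.red [.f 1338 3 1, .f 1338 1 5] 184 136 [1, 1, 1]
  [(184, 136, [1, 1, 1])]) (.br 1465 (.con 136 [4, 1, 1, 1, 1]) .no (.con 136 [1, 1, 1, 1]) (.use
  243) .no .no) .no (.hor [.t 1337 2 3, .f 1208 3 5, .f 1337 5 1, .f 1338 1 5, .t 1218 1 4] []))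
  (.red [.f 1201 5 1, .f 1201 1 3] 167 136 [4, 1, 1] [(167, 136, [4, 1, 1])])) .no .no (.con 136
  [4, 1, 1, 1]) .no .no)) .no (.con 136 [1, 1, 1]) (.use 229) .no .no) .no .no (.red [.f 1057 3 1,
  .f 1064 1 5] 149 136 [4, 4, 4, 1] [(149, 136, [4, 4, 4, 1])]) (.red [.f 1193 5 3, .f 1066 3 1,
  .f 1074 1 3] 151 136 [4, 1] [(150, 136, [4, 4, 1]), (151, 136, [4, 1])]) .no) (.hor [.f 1338 3
  5] []) .no .no) (.red [.t 1337 2 4] 167 136 [4, 1, 1] [(167, 136, [4, 1, 1])]) (.use 247) .no)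
  .no .no (.hor [.f 1056 3 5] []) .no .no) .no .no

def c28t249 : Tr4 :=
  .br 1216 (.con 136 [1, 1]) .no (.con 136 [1, 1]) (.hor [.f 1208 3 5] []) .no .no

def c28t250 : Tr4 :=
  .br 1216 (.hor [.f 1216 1 5] []) .no (.use 208) .no .no .no

def c28t251 : Tr4 :=
  .br 1200 .no .no .no (.use 33) .no .no

def c28t252 : Tr4 :=
  .br 1336 (.hor [.f 1336 1 5] []) .no .no (.use 251) .no .no

def c28t253 : Tr4 :=
  .br 1338 (.con 136 [4, 1, 1, 1]) .no (.con 136 [4, 1, 1, 1]) (.hor [.f 1329 3 5] []) (.con 136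
  [4, 1, 1, 1]) .no

def c28t254 : Tr4 :=
  .br 1203 (.hor [.f 1201 5 1, .f 1200 1 5, .f 1202 1 5] []) .no .no (.con 136 [4, 1, 4, 1]) .no
  .no

def c28t255 : Tr4 :=
  .br 1192 (.hor [.f 1192 1 5] []) .no .no (.br 1330 (.use 238) .no .no (.con 136 [4, 4, 1, 1, 4])
  (.con 136 [4, 1, 1, 4]) (.use 254)) .no .no

def c28t256 : Tr4 :=
  .br 1336 (.br 1337 (.use 252) .no (.red [.t 1344 2 4] 168 136 [1, 1] [(168, 136, [1, 1])]) (.use
  253) (.br 1339 (.br 1200 (.br 1193 (.use 255) .no .no (.red [.f 1057 3 1, .t 1065 1 3] 150 136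
  [4, 4, 1] [(149, 136, [4, 4, 4, 1]), (150, 136, [4, 4, 1])]) (.red [.f 1193 5 3, .f 1066 3 1, .f
  1074 1 3] 151 136 [4, 1] [(150, 136, [4, 4, 1]), (151, 136, [4, 1])]) (.br 1331 (.con 136 [4, 1,
  1, 4]) (.br 1329 (.br 1330 (.hor [.f 1329 1 5] []) .no .no (.con 136 [4, 4, 1, 1, 1]) .no .no)
  .no .no (.red [.t 1328 2 4] 166 136 [4, 4, 1, 1] [(166, 136, [4, 4, 1, 1])]) (.hor [.f 1201 5 1,
  .f 1200 1 5, .f 1202 1 5] []) .no) .no (.con 136 [4, 1, 1, 4]) .no (.con 136 [4, 1, 1, 4]))) .no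
  .no (.use 33) .no .no) .no (.red [.f 1211 3 1] 168 136 [1, 1] [(168, 136, [1, 1])]) (.con 136
  [4, 1, 1, 1]) .no .no) .no) .no .no (.use 251) (.red [.f 1208 5 1, .f 1208 1 3] 168 136 [1, 1]
  [(168, 136, [1, 1])]) .no

def c28t257 : Tr4 :=
  .br 1329 .no .no .no .no (.red [.f 1329 5 3, .f 1329 3 1, .f 1337 1 3] 183 136 [1, 1, 4, 1]
  [(183, 136, [1, 1, 4, 1]), (184, 136, [1, 1, 1])]) (.red [.t 1464 2 4] 183 136 [1, 1, 4, 1]
  [(183, 136, [1, 1, 4, 1])])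

def c28t258 : Tr4 :=
  .br 1466 (.br 1465 (.hor [.f 1465 1 5] []) .no .no (.use 257) .no .no) .no (.red [.t 1473 2 4,
  .f 1338 1 5] 184 136 [1, 1, 1] [(184, 136, [1, 1, 1])]) (.br 1465 (.con 136 [1, 4, 1, 1, 1]) .no
  .no (.use 257) .no .no) .no (.hor [.f 1337 5 1, .f 1336 1 5, .f 1338 1 5] [])

def c28t259 : Tr4 :=
  .br 1203 (.red [.f 1201 5 1, .f 1202 1 5, .t 1082 1 4] 151 136 [4, 1] [(151, 136, [4, 1])]) .no
  .no (.con 136 [4, 4, 1, 4]) .no .no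

def c28t260 : Tr4 :=
  .br 1330 (.use 246) .no .no (.con 136 [4, 4, 1, 1, 4]) (.br 1195 (.con 136 [4, 4, 1, 4]) (.br
  1328 (.red [.f 1328 1 3] 183 136 [4, 1, 1, 1] [(183, 136, [4, 1, 1, 1])]) (.con 136 [4, 1, 1,
  4]) .no (.con 136 [4, 4, 1, 1, 1]) (.br 1466 (.br 1465 (.hor [.f 1465 1 5] []) .no (.con 136 [1,
  1, 1, 1]) (.red [.t 1464 2 4] 183 136 [4, 1, 1, 1] [(183, 136, [4, 1, 1, 1])]) .no .no) .no
  (.red [.t 1466 3 2] 184 136 [1, 1, 1] [(184, 136, [1, 1, 1])]) (.br 1465 (.con 136 [4, 1, 1, 1,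
  1]) .no (.con 136 [1, 1, 1, 1]) (.hor [.f 1457 3 5] []) .no .no) .no (.hor [.f 1337 5 1, .f 1336
  1 5, .f 1338 1 5] [])) .no) (.con 136 [4, 4, 1, 4]) (.con 136 [4, 4, 1, 4]) .no (.con 136 [4, 4,
  1, 4])) (.use 259)

def c28t261 : Tr4 :=
  .br 1346 (.con 136 [1, 3, 1, 1]) .no (.hor [.f 1345 3 5] []) .no .no .no

def c28t262 : Tr4 :=
  .br 1345 (.con 136 [1, 1, 1]) .no (.con 136 [1, 1, 1]) (.hor [.f 1337 3 5] []) .no (.con 136 [1,
  1, 1])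

def c28t263 : Tr4 :=
  .br 1344 (.br 1346 (.con 136 [1, 3, 1, 1]) .no (.hor [.f 1346 3 5] []) .no .no .no) .no (.red
  [.f 1216 3 1] 169 136 [1, 3, 1] [(169, 136, [1, 3, 1])]) (.hor [.f 1336 3 5] []) .no .no

def c28t264 : Tr4 :=
  .br 1352 (.red [.f 1344 1 3, .f 1216 3 1] 169 136 [3, 1, 1] [(169, 136, [3, 1, 1]), (185, 136,
  [3, 1, 1, 1])]) .no (.use 186) .no (.red [.f 1336 1 3, .f 1336 3 5, .f 1344 5 3, .f 1216 3 1]
  169 136 [3, 1, 1] [(169, 136, [3, 1, 1]), (184, 168, [1])]) .no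

def c28t265 : Tr4 :=
  .br 1347 (.red [.f 1339 1 3, .f 1211 3 1] 168 136 [1, 1] [(168, 136, [1, 1]), (184, 136, [1, 1,
  1])]) .no (.br 1337 (.br 1336 (.hor [.f 1336 1 5] []) .no (.con 136 [1, 1, 1]) .no .no .no) .no
  (.use 263) (.hor [.f 1329 3 5] []) .no (.red [.f 1208 5 1, .t 1337 2 4] 167 136 [4, 1, 1] [(167,
  136, [4, 1, 1])])) .no .no (.br 1337 (.br 1336 (.hor [.f 1336 1 5] []) .no (.con 136 [1, 1, 1])
  .no .no .no) .no (.br 1344 (.br 1336 (.use 264) .no .no .no .no .no) .no (.red [.f 1216 3 1] 169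
  136 [3, 1, 1] [(169, 136, [3, 1, 1])]) (.hor [.f 1336 3 5] []) .no .no) (.hor [.f 1329 3 5] [])
  .no (.red [.f 1208 5 1, .t 1337 2 4] 167 136 [4, 1, 1] [(167, 136, [4, 1, 1])]))

def c28t266 : Tr4 :=
  .br 1344 (.con 136 [1, 3, 1, 1]) .no (.red [.f 1216 3 1] 169 136 [1, 3, 1] [(169, 136, [1, 3,
  1])]) (.con 136 [1, 3, 1, 1]) (.con 136 [1, 3, 1, 1]) .no

def c28t267 : Tr4 :=
  .br 1347 (.hor [.f 1346 1 5] []) .no (.use 266) .no .no .no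

def c28l7 : List Tr4 :=
  [c28t237, c28t238, c28t239, c28t240, c28t241, c28t242, c28t243, c28t244, c28t245, c28t246,
  c28t247, c28t248, c28t249, c28t250, c28t251, c28t252, c28t253, c28t254, c28t255, c28t256,
  c28t257, c28t258, c28t259, c28t260, c28t261, c28t262, c28t263, c28t264, c28t265, c28t266,
  c28t267]

theorem c28k7 : chkLF ⟨4, 1, 0, true, -8⟩ false 8 c28N 237 c28l7 = true := by decide +kernel

def c28t268 : Tr4 :=
  .br 1203 (.hor [.f 1201 5 1, .f 1200 1 5, .f 1202 1 5] []) .no .no (.con 136 [1, 1, 4, 4]) .no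
  .no

def c28t269 : Tr4 :=
  .br 1346 (.use 266) .no (.hor [.f 1346 3 5] []) .no .no (.br 1344 (.con 136 [1, 3, 1, 1]) .no
  (.red [.f 1217 5 1, .f 1216 3 1] 169 136 [1, 3, 1] [(169, 136, [1, 3, 1])]) (.con 136 [1, 1, 1])
  .no .no)

def c28t270 : Tr4 :=
  .br 1345 (.hor [.f 1344 1 5] []) .no (.con 136 [1, 1, 3, 1]) .no .no .no

def c28t271 : Tr4 :=
  .br 1352 (.red [.f 1344 1 3, .f 1216 3 1] 169 136 [3, 1, 1] [(169, 136, [3, 1, 1]), (185, 136,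
  [3, 1, 1, 1])]) .no (.use 186) .no (.red [.f 1336 1 3, .f 1336 3 5, .f 1344 5 3, .f 1216 3 1]
  169 136 [3, 1, 1] [(169, 136, [3, 1, 1]), (184, 168, [1])]) .no

def c28t272 : Tr4 :=
  .br 1329 (.hor [.f 1329 1 5] []) .no .no (.red [.t 1328 2 4] 166 136 [4, 1, 4, 1] [(166, 136,
  [4, 1, 4, 1])]) .no .no

def c28t273 : Tr4 :=
  .br 1193 (.br 1339 (.br 1338 (.hor [.f 1338 1 5] []) .no (.use 262) (.use 265) .no (.use 255))
  .no (.red [.f 1211 3 1] 168 136 [1, 1] [(168, 136, [1, 1])]) (.con 136 [4, 1, 1, 4]) .no (.br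
  1346 (.use 267) .no (.br 1347 (.br 1330 (.use 239) .no .no (.br 1203 (.con 136 [4, 4, 1, 1, 1])
  .no .no (.con 136 [4, 4, 1, 1]) .no .no) (.con 136 [4, 1, 1, 4]) (.use 268)) .no (.hor [.f 1346
  3 5] []) .no .no .no) .no (.red [.f 1338 5 3, .f 1211 3 1] 168 136 [1, 1] [(168, 136, [1, 1])])
  (.red [.f 1217 5 1, .t 1218 1 4] 168 136 [1, 1] [(168, 136, [1, 1])]))) .no .no (.red [.f 1057 3
  1, .t 1065 1 3] 150 136 [4, 4, 1] [(149, 136, [4, 4, 4, 1]), (150, 136, [4, 4, 1])]) (.red [.f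
  1193 5 3, .f 1066 3 1, .f 1074 1 3] 151 136 [4, 1] [(150, 136, [4, 4, 1]), (151, 136, [4, 1])])
  (.br 1339 (.br 1338 (.hor [.f 1338 1 5] []) .no (.use 262) (.use 265) .no (.br 1347 (.red [.f
  1339 1 3] 184 136 [1, 1, 1] [(184, 136, [1, 1, 1])]) .no (.use 269) .no .no (.br 1344 (.use 270)
  .no (.red [.f 1216 3 1] 169 136 [3, 1, 1] [(169, 136, [3, 1, 1])]) (.con 136 [1, 1, 1]) (.br
  1466 (.br 1465 (.hor [.f 1465 1 5] []) .no (.con 136 [4, 1, 1, 1, 1, 3]) (.br 1329 .no .no .no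
  (.red [.t 1328 2 4] 166 136 [4, 4, 1, 1] [(166, 136, [4, 4, 1, 1])]) (.red [.f 1329 5 3, .f 1329
  3 1] 183 136 [4, 1, 1, 1] [(183, 136, [4, 1, 1, 1])]) .no) .no (.con 136 [4, 1, 1, 1, 3])) .no
  (.red [.t 1466 3 2] 184 136 [1, 1, 1] [(184, 136, [1, 1, 1])]) (.br 1329 (.con 136 [4, 1, 1, 1,
  4]) .no .no (.red [.t 1328 2 4] 166 136 [4, 4, 1, 1] [(166, 136, [4, 4, 1, 1])]) (.br 1331 (.con
  136 [4, 1, 1, 4]) (.hor [.f 1201 5 1, .f 1200 1 5, .f 1202 1 5] []) .no (.con 136 [4, 1, 1, 4])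
  .no .no) .no) .no (.red [.f 1337 5 1, .f 1338 1 5, .f 1338 5 3, .f 1211 3 1] 168 136 [1, 1]
  [(168, 136, [1, 1])])) .no))) .no (.red [.f 1211 3 1] 168 136 [1, 1] [(168, 136, [1, 1])]) (.con
  136 [4, 1, 1, 4]) .no (.br 1346 (.use 267) .no (.br 1347 (.br 1337 (.br 1336 (.hor [.f 1336 1 5]
  []) .no (.con 136 [1, 1, 1]) .no .no .no) .no (.br 1344 (.br 1336 (.use 271) .no .no .no .no
  .no) .no (.red [.f 1216 3 1] 169 136 [3, 1, 1] [(169, 136, [3, 1, 1])]) (.hor [.f 1336 3 5] [])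
  .no .no) (.con 136 [4, 1, 1, 1]) .no (.br 1330 (.use 272) .no .no (.br 1329 (.con 136 [4, 1, 1,
  1, 4]) .no .no (.hor [.f 1321 3 5] []) .no .no) (.con 136 [4, 1, 1, 4]) (.use 268))) .no (.hor
  [.f 1346 3 5] []) .no .no .no) .no (.red [.f 1338 5 3, .f 1211 3 1] 168 136 [1, 1] [(168, 136,
  [1, 1])]) (.red [.f 1217 5 1, .t 1218 1 4] 168 136 [1, 1] [(168, 136, [1, 1])])))

def c28t274 : Tr4 :=
  .br 1336 (.hor [.f 1336 1 5] []) .no (.con 136 [1, 1, 1]) (.use 251) .no .no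

def c28t275 : Tr4 :=
  .br 1336 (.hor [.f 1336 1 5] []) .no (.con 136 [1, 1, 1]) (.use 251) .no .no

def c28t276 : Tr4 :=
  .br 1328 (.con 136 [4, 4, 1, 1, 1, 3]) (.con 136 [4, 4, 1, 1, 1, 3, 2, 4]) .no (.con 136 [4, 4,
  1, 1, 1]) (.red [.t 1464 2 4] 183 136 [4, 4, 1, 1, 3, 1] [(183, 136, [4, 1, 1, 1])]) .no

def c28t277 : Tr4 :=
  .br 1466 (.br 1465 (.hor [.f 1465 1 5] []) .no (.con 136 [4, 1, 1, 3, 1, 1]) (.use 276) .no .no)
  .no (.red [.t 1466 3 2] 184 136 [4, 1, 1, 3, 1] [(184, 136, [1, 1, 1])]) (.br 1465 (.con 136 [4,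
  1, 1, 1, 1]) .no (.con 136 [4, 1, 1, 1, 1]) (.use 276) .no .no) .no (.hor [.f 1337 5 1, .f 1336
  1 5, .f 1338 1 5] [])

def c28t278 : Tr4 :=
  .br 1193 (.br 1330 (.use 246) .no (.br 1339 (.br 1347 (.red [.f 1339 1 3, .f 1211 3 1] 168 136
  [1, 1] [(168, 136, [1, 1]), (184, 136, [1, 1, 1])]) .no (.br 1337 (.use 274) .no (.use 263)
  (.hor [.f 1329 3 5] []) .no (.red [.f 1208 5 1, .t 1337 2 4] 167 136 [4, 1, 1] [(167, 136, [4,
  1, 1])])) .no .no (.br 1337 (.use 275) .no (.br 1344 (.br 1336 (.use 264) .no .no (.use 251) .no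
  .no) .no (.red [.f 1216 3 1] 169 136 [3, 1, 1] [(169, 136, [3, 1, 1])]) (.hor [.f 1336 3 5] [])
  .no .no) (.hor [.f 1329 3 5] []) .no (.red [.f 1208 5 1, .t 1337 2 4] 167 136 [4, 1, 1] [(167,
  136, [4, 1, 1])]))) .no (.red [.f 1211 3 1] 168 136 [1, 1] [(168, 136, [1, 1])]) (.hor [.f 1330
  3 5] []) .no .no) (.con 136 [4, 4, 1, 1, 4]) (.br 1339 (.br 1338 (.hor [.f 1338 1 5] []) .no
  (.use 262) .no .no (.br 1347 (.red [.f 1339 1 3] 184 136 [1, 1, 1] [(184, 136, [1, 1, 1])]) .no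
  (.use 269) .no .no (.br 1344 (.use 270) .no (.red [.f 1216 3 1] 169 136 [3, 1, 1] [(169, 136,
  [3, 1, 1])]) (.con 136 [1, 1, 1]) (.br 1336 (.use 277) .no .no (.use 251) .no .no) .no))) .no
  (.red [.f 1211 3 1] 168 136 [1, 1] [(168, 136, [1, 1])]) .no .no (.br 1346 (.use 267) .no (.br
  1347 (.br 1336 (.br 1337 (.hor [.f 1336 1 5] []) .no (.br 1344 (.use 271) .no (.red [.f 1216 3
  1] 169 136 [3, 1, 1] [(169, 136, [3, 1, 1])]) .no .no .no) (.con 136 [4, 1, 1, 1]) .no .no) .no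
  (.br 1345 (.con 136 [1, 1, 1]) .no (.con 136 [1, 1, 1]) (.hor [.f 1336 3 5] []) .no .no) (.use
  251) (.red [.f 1208 5 1, .f 1330 5 3, .t 1337 2 4] 167 136 [4, 1, 1] [(167, 136, [4, 1, 1])])
  .no) .no (.hor [.f 1346 3 5] []) .no .no .no) .no (.red [.f 1338 5 3, .f 1211 3 1] 168 136 [1,
  1] [(168, 136, [1, 1])]) (.red [.f 1217 5 1, .t 1218 1 4] 168 136 [1, 1] [(168, 136, [1, 1])])))
  (.use 259)) .no .no (.red [.f 1057 3 1, .f 1064 1 5] 149 136 [4, 4, 4, 1] [(149, 136, [4, 4, 4,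
  1])]) (.red [.f 1193 5 3, .f 1066 3 1, .f 1074 1 3] 151 136 [4, 1] [(150, 136, [4, 4, 1]), (151,
  136, [4, 1])]) .no

def c28t279 : Tr4 :=
  .br 1339 (.hor [.f 1338 1 5] []) .no (.red [.f 1211 3 1, .f 1218 1 5] 168 136 [1, 1] [(168, 136,
  [1, 1])]) (.br 1337 (.hor [.f 1337 1 5] []) .no (.red [.f 1208 5 3, .f 1209 3 1] 168 136 [1, 1]
  [(168, 136, [1, 1])]) (.con 136 [4, 1, 1, 1]) .no (.con 136 [4, 1, 1, 1])) .no .no

def c28t280 : Tr4 :=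
  .br 1347 (.red [.f 1339 1 3] 184 136 [1, 1, 1] [(184, 136, [1, 1, 1])]) .no (.use 274) .no .no
  .no

def c28t281 : Tr4 :=
  .br 1337 (.br 1347 (.br 1339 (.red [.f 1339 1 3] 184 136 [1, 1, 1] [(184, 136, [1, 1, 1])]) .no
  .no (.hor [.f 1330 3 5] []) .no .no) .no (.use 274) (.red [.f 1211 3 1] 168 136 [1, 1] [(168,
  136, [1, 1])]) .no (.use 275)) .no (.red [.f 1208 5 3, .f 1209 3 1, .t 1337 2 4] 168 136 [1, 1]
  [(167, 136, [4, 1, 1]), (168, 136, [1, 1])]) (.hor [.f 1329 3 5] []) .no (.red [.f 1208 5 3, .f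
  1208 3 5, .f 1208 5 1, .t 1337 2 4] 167 136 [4, 1, 1] [(167, 136, [4, 1, 1])])

def c28t282 : Tr4 :=
  .br 1345 (.con 136 [1, 1, 1]) .no (.con 136 [1, 1, 1]) (.hor [.f 1337 3 5] []) .no (.con 136 [1,
  1, 1])

def c28t283 : Tr4 :=
  .br 1346 (.br 1345 (.hor [.f 1345 1 5] []) .no (.con 136 [1, 3, 1, 1]) .no .no (.con 136 [1, 3,
  1, 1])) .no (.red [.f 1218 3 1] 169 136 [1, 3, 1] [(169, 136, [1, 3, 1])]) .no .no (.red [.f
  1337 5 3, .f 1208 5 3, .f 1209 3 1] 168 136 [1, 1] [(168, 136, [1, 1])])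

def c28t284 : Tr4 :=
  .br 1345 (.hor [.f 1345 1 5] []) .no (.con 136 [1, 3, 1, 1]) (.red [.f 1208 5 3, .f 1209 3 1]
  168 136 [1, 1] [(168, 136, [1, 1])]) .no (.con 136 [1, 3, 1, 1])

def c28t285 : Tr4 :=
  .br 1347 (.hor [.f 1346 1 5] []) .no (.use 284) .no .no .no

def c28t286 : Tr4 :=
  .br 1337 (.hor [.f 1336 1 5] []) .no .no (.con 136 [1, 1, 4, 1]) .no .no

def c28t287 : Tr4 :=
  .br 1329 (.br 1330 (.hor [.f 1329 1 5] []) .no .no (.con 136 [4, 1, 4, 1, 1]) .no .no) .no .no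
  (.red [.t 1328 2 4] 166 136 [4, 1, 4, 1] [(166, 136, [4, 1, 4, 1])]) (.hor [.f 1201 5 1, .f 1200
  1 5, .f 1202 1 5] []) .no

def c28t288 : Tr4 :=
  .br 1331 (.con 136 [4, 1, 1, 4]) (.use 287) .no (.con 136 [4, 1, 1, 4]) .no (.con 136 [4, 1, 1,
  4])

def c28t289 : Tr4 :=
  .br 1330 (.use 239) .no .no (.br 1203 (.con 136 [4, 1, 4, 1, 1]) .no .no (.con 136 [4, 1, 4, 1])
  .no .no) (.con 136 [4, 1, 1, 4]) (.red [.f 1208 5 3, .f 1201 5 1, .f 1208 3 5, .f 1208 5 1, .f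
  1201 1 3] 167 136 [4, 1, 1] [(167, 136, [4, 1, 1])])

def c28t290 : Tr4 :=
  .br 1330 (.use 272) .no .no (.br 1329 (.con 136 [4, 1, 1, 1, 4]) .no .no (.hor [.f 1321 3 5] [])
  .no .no) (.con 136 [4, 1, 1, 4]) (.red [.f 1208 5 3, .f 1201 5 1, .f 1208 3 5, .f 1208 5 1, .f
  1201 1 3] 167 136 [4, 1, 1] [(167, 136, [4, 1, 1])])

def c28t291 : Tr4 :=
  .br 1218 (.br 1338 (.use 279) .no .no (.br 1337 (.br 1339 (.use 280) .no (.red [.f 1211 3 1, .f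
  1218 1 5] 168 136 [1, 1] [(168, 136, [1, 1])]) (.hor [.f 1330 3 5] []) .no .no) .no (.red [.f
  1208 5 3, .f 1209 3 1, .t 1337 2 4] 168 136 [1, 1] [(167, 136, [4, 1, 1]), (168, 136, [1, 1])])
  (.hor [.f 1329 3 5] []) .no (.red [.f 1208 5 3, .f 1208 3 5, .f 1208 5 1, .t 1337 2 4] 167 136
  [4, 1, 1] [(167, 136, [4, 1, 1])])) (.red [.t 1218 1 4] 168 136 [1, 1] [(168, 136, [1, 1])])
  (.red [.f 1208 5 3, .t 1217 4 1] 168 136 [1, 1] [(168, 136, [1, 1])])) .no (.br 1064 (.br 1193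
  (.br 1330 (.use 246) .no (.use 281) (.con 136 [4, 4, 1, 1, 4]) (.br 1339 (.br 1347 (.red [.f
  1339 1 3, .f 1211 3 1] 168 136 [1, 1] [(168, 136, [1, 1]), (184, 136, [1, 1, 1])]) .no (.br 1338
  (.hor [.f 1338 1 5] []) .no (.use 282) .no .no (.use 283)) .no .no (.br 1338 (.hor [.f 1338 1 5]
  []) .no .no .no .no (.br 1336 (.use 277) .no (.con 136 [1, 1, 1]) (.use 251) .no .no))) .no
  (.red [.f 1211 3 1] 168 136 [1, 1] [(168, 136, [1, 1])]) .no .no (.br 1346 (.use 285) .no (.red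
  [.f 1218 3 1] 169 136 [1, 3, 1] [(169, 136, [1, 3, 1])]) .no (.red [.f 1338 5 3, .f 1211 3 1]
  168 136 [1, 1] [(168, 136, [1, 1])]) (.br 1336 (.use 286) .no (.con 136 [1, 1, 1]) (.use 251)
  (.red [.f 1208 5 1, .f 1330 5 3, .t 1337 2 4] 167 136 [4, 1, 1] [(167, 136, [4, 1, 1])]) .no)))
  (.use 259)) .no .no (.red [.f 1057 3 1, .f 1064 1 5] 149 136 [4, 4, 4, 1] [(149, 136, [4, 4, 4,
  1])]) (.red [.f 1193 5 3, .f 1066 3 1, .f 1074 1 3] 151 136 [4, 1] [(150, 136, [4, 4, 1]), (151,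
  136, [4, 1])]) .no) (.br 1200 (.br 1339 (.br 1338 (.hor [.f 1338 1 5] []) .no (.use 282) (.use
  281) .no (.br 1193 (.use 255) .no .no (.red [.f 1057 3 1, .t 1065 1 3] 150 136 [4, 4, 1] [(149,
  136, [4, 4, 4, 1]), (150, 136, [4, 4, 1])]) (.red [.f 1193 5 3, .f 1066 3 1, .f 1074 1 3] 151
  136 [4, 1] [(150, 136, [4, 4, 1]), (151, 136, [4, 1])]) (.use 288))) .no (.red [.f 1211 3 1] 168
  136 [1, 1] [(168, 136, [1, 1])]) (.con 136 [4, 1, 1, 4]) .no (.br 1346 (.use 285) .no (.red [.f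
  1218 3 1] 169 136 [1, 3, 1] [(169, 136, [1, 3, 1])]) .no (.red [.f 1338 5 3, .f 1211 3 1] 168
  136 [1, 1] [(168, 136, [1, 1])]) (.br 1336 (.use 286) .no (.con 136 [1, 1, 1]) .no (.br 1193
  (.use 289) .no .no (.red [.f 1057 3 1, .t 1065 1 3] 150 136 [4, 4, 1] [(149, 136, [4, 4, 4, 1]),
  (150, 136, [4, 4, 1])]) (.red [.f 1193 5 3, .f 1066 3 1, .f 1074 1 3] 151 136 [4, 1] [(150, 136,
  [4, 4, 1]), (151, 136, [4, 1])]) (.use 290)) .no))) .no .no (.use 33) .no .no) .no (.hor [.f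
  1056 3 5] []) .no .no) .no .no .no

def c28l8 : List Tr4 :=
  [c28t268, c28t269, c28t270, c28t271, c28t272, c28t273, c28t274, c28t275, c28t276, c28t277,
  c28t278, c28t279, c28t280, c28t281, c28t282, c28t283, c28t284, c28t285, c28t286, c28t287,
  c28t288, c28t289, c28t290, c28t291]

theorem c28k8 : chkLF ⟨4, 1, 0, true, -8⟩ false 8 c28N 268 c28l8 = true := by decide +kernel

def c28t292 : Tr4 :=
  .br 1209 (.br 1208 (.hor [.f 1208 1 5] []) .no (.br 1217 (.br 1218 (.hor [.f 1217 1 5] []) .no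
  (.br 1338 (.use 227) .no (.br 1339 (.use 228) .no (.hor [.f 1338 3 5] []) (.br 1336 (.con 136
  [4, 1, 1, 1]) .no (.con 136 [1, 1, 1]) (.use 229) .no .no) .no .no) (.red [.f 1209 1 3, .f 1209
  3 1, .t 1337 2 4] 167 136 [4, 1, 1] [(167, 136, [4, 1, 1])]) (.use 230) .no) .no .no .no) .no
  .no .no (.use 248) .no) (.con 136 [4, 1, 1]) .no .no) .no (.use 249) .no .no (.br 1217 (.use
  250) .no .no .no (.br 1216 (.br 936 (.use 256) (.use 4) .no (.br 1064 (.br 1336 (.br 1337 (.use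
  252) .no (.red [.t 1344 2 4] 168 136 [1, 1] [(168, 136, [1, 1])]) (.use 253) (.br 1193 (.br 1339
  (.br 1347 (.red [.f 1339 1 3] 184 136 [1, 1, 1] [(184, 136, [1, 1, 1])]) .no (.br 1345 (.use
  258) .no (.use 261) .no (.red [.f 1337 5 3, .t 1344 2 4] 168 136 [1, 1] [(168, 136, [1, 1])])
  .no) .no .no (.use 260)) .no (.red [.f 1211 3 1] 168 136 [1, 1] [(168, 136, [1, 1])]) (.con 136
  [4, 1, 1, 1]) .no .no) .no .no (.red [.f 1057 3 1, .f 1064 1 5] 149 136 [4, 4, 4, 1] [(149, 136,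
  [4, 4, 4, 1])]) (.red [.f 1193 5 3, .f 1066 3 1, .f 1074 1 3] 151 136 [4, 1] [(150, 136, [4, 4,
  1]), (151, 136, [4, 1])]) .no) .no) .no .no (.use 251) (.red [.f 1208 5 1, .f 1208 1 3] 168 136
  [1, 1] [(168, 136, [1, 1])]) .no) .no .no (.hor [.f 1056 3 5] []) .no .no) .no .no) .no (.br
  1226 (.br 1227 (.hor [.f 1226 1 5] []) .no (.con 136 [3, 3, 1, 1]) .no .no .no) .no (.red [.f
  1098 3 1, .f 1097 1 5] 154 136 [3, 3, 1] [(154, 136, [3, 3, 1])]) .no (.br 1107 (.red [.t 1106 4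
  1, .f 1097 1 5] 154 136 [3, 3, 1] [(154, 136, [3, 3, 1])]) .no (.br 1234 (.use 187) .no (.br 936
  (.br 1200 (.use 273) .no .no (.use 33) .no .no) (.use 4) .no (.br 1064 (.use 278) .no .no (.hor
  [.f 1056 3 5] []) .no .no) .no .no) .no (.red [.f 1226 5 3, .f 1098 3 1, .f 1097 1 5, .t 961 3
  1, .f 1090 3 5] 154 136 [3, 3, 1] [(137, 121, [1]), (154, 136, [3, 3, 1])]) (.red [.t 1097 1 3]
  154 136 [3, 3, 1] [(154, 136, [3, 3, 1])])) .no .no .no) .no) .no .no .no) (.use 291))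

def c28t293 : Tr4 :=
  .br 1065 (.con 136 [4, 4, 1, 3, 2, 4, 1]) (.con 136 [4, 4, 1, 3, 2, 4, 1]) (.hor [.f 1064 3 5]
  []) (.con 136 [4, 4, 1, 3, 2, 4, 1]) .no .no

def c28t294 : Tr4 :=
  .br 1072 (.use 164) .no .no (.use 293) (.red [.f 944 5 1, .t 1081 3 1, .t 945 1 3, .f 954 1 3]
  136 136 [] [(135, 136, [4]), (136, 136, []), (152, 136, [1])]) .no

def c28t295 : Tr4 :=
  .br 1200 .no .no .no (.use 38) .no .no

def c28t296 : Tr4 :=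
  .br 1339 (.br 1065 (.red [.t 1065 1 3, .f 1074 1 3, .f 1074 3 5] 151 136 [4, 1] [(150, 136, [4,
  4, 1]), (151, 136, [4, 1])]) (.red [.f 944 5 1, .f 937 1 3, .f 1065 3 5, .f 1073 5 1, .f 1074 1
  3] 151 136 [4, 1] [(134, 150, [2]), (151, 136, [4, 1])]) .no (.br 1336 (.hor [.f 1336 1 5] [])
  .no (.con 136 [1, 1, 1]) (.use 295) .no .no) .no (.red [.f 1064 5 3, .f 1065 3 5, .f 1073 5 1,
  .f 1074 1 3] 151 136 [4, 1] [(151, 136, [4, 1])])) .no (.red [.f 1211 3 1, .f 1218 1 5] 168 136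
  [1, 1] [(168, 136, [1, 1])]) (.hor [.f 1330 3 5] []) .no .no

def c28t297 : Tr4 :=
  .br 1330 (.use 246) .no (.hor [.f 1330 3 5] []) (.con 136 [4, 4, 1, 1, 4]) .no (.use 259)

def c28t298 : Tr4 :=
  .br 1330 (.use 246) .no .no (.con 136 [4, 4, 1, 1, 4]) (.red [.f 1208 5 1, .f 1330 5 3, .t 1337
  2 4] 167 136 [4, 1, 1] [(167, 136, [4, 1, 1])]) (.use 259)

def c28t299 : Tr4 :=
  .br 1337 (.br 1336 (.hor [.f 1336 1 5] []) .no (.con 136 [1, 1, 1]) (.use 295) .no .no) .no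
  (.red [.f 1208 5 3, .f 1209 3 1, .t 1337 2 4] 168 136 [1, 1] [(167, 136, [4, 1, 1]), (168, 136,
  [1, 1])]) (.hor [.f 1329 3 5] []) .no (.red [.f 1208 5 3, .f 1208 3 5, .f 1208 5 1, .t 1337 2 4]
  167 136 [4, 1, 1] [(167, 136, [4, 1, 1])])

def c28t300 : Tr4 :=
  .br 1064 (.br 1193 (.br 1347 (.br 1346 (.hor [.f 1346 1 5] []) .no (.red [.f 1218 3 1] 169 136
  [1, 3, 1] [(169, 136, [1, 3, 1])]) (.br 1345 (.con 136 [1, 1, 1]) .no (.con 136 [1, 1, 1]) (.hor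
  [.f 1337 3 5] []) .no (.con 136 [1, 1, 1])) .no (.br 1339 (.red [.f 1339 1 3] 184 136 [1, 1, 1]
  [(184, 136, [1, 1, 1])]) .no .no (.use 297) .no (.br 1336 (.use 286) .no (.con 136 [1, 1, 1])
  (.use 295) (.use 298) .no))) .no (.br 1346 (.use 284) .no (.red [.f 1218 3 1] 169 136 [1, 3, 1]
  [(169, 136, [1, 3, 1])]) (.br 1345 (.con 136 [1, 1, 1]) .no (.con 136 [1, 1, 1]) (.hor [.f 1337
  3 5] []) .no (.con 136 [1, 1, 1])) .no (.br 1336 (.br 1337 (.hor [.f 1336 1 5] []) .no .no (.use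
  253) (.use 283) .no) .no (.con 136 [1, 1, 1]) (.use 295) (.br 1338 (.br 1339 (.hor [.f 1338 1 5]
  []) .no .no (.con 136 [4, 1, 1, 1]) .no .no) .no .no (.red [.f 1208 5 3, .f 1208 3 5, .f 1208 5
  1, .t 1337 2 4] 167 136 [4, 1, 1] [(167, 136, [4, 1, 1])]) (.use 298) .no) .no)) (.red [.f 1211
  3 1] 168 136 [1, 1] [(168, 136, [1, 1])]) .no (.br 1339 (.br 1338 (.hor [.f 1338 1 5] []) .no
  .no (.use 299) .no (.br 1330 (.use 246) .no .no (.con 136 [4, 4, 1, 1, 4]) (.br 1336 (.use 277)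
  .no (.con 136 [1, 1, 1]) (.use 295) .no .no) (.use 259))) .no .no (.use 297) .no (.red [.f 1338
  5 3, .f 1211 3 1] 168 136 [1, 1] [(168, 136, [1, 1])]))) .no .no (.red [.f 1057 3 1, .f 1064 1
  5] 149 136 [4, 4, 4, 1] [(149, 136, [4, 4, 4, 1])]) (.red [.f 1193 5 3, .f 1066 3 1, .f 1074 1
  3] 151 136 [4, 1] [(150, 136, [4, 4, 1]), (151, 136, [4, 1])]) .no) (.br 1200 (.br 1193 (.br
  1339 (.br 1338 (.hor [.f 1338 1 5] []) .no (.use 282) (.use 299) .no (.use 255)) .no (.red [.f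
  1211 3 1] 168 136 [1, 1] [(168, 136, [1, 1])]) (.con 136 [4, 1, 1, 4]) .no (.br 1346 (.use 285)
  .no (.red [.f 1218 3 1] 169 136 [1, 3, 1] [(169, 136, [1, 3, 1])]) .no (.red [.f 1338 5 3, .f
  1211 3 1] 168 136 [1, 1] [(168, 136, [1, 1])]) (.br 1336 (.use 286) .no (.con 136 [1, 1, 1]) .no
  (.use 289) .no))) .no .no (.red [.f 1057 3 1, .t 1065 1 3] 150 136 [4, 4, 1] [(149, 136, [4, 4,
  4, 1]), (150, 136, [4, 4, 1])]) (.red [.f 1193 5 3, .f 1066 3 1, .f 1074 1 3] 151 136 [4, 1]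
  [(150, 136, [4, 4, 1]), (151, 136, [4, 1])]) (.br 1339 (.br 1338 (.hor [.f 1338 1 5] []) .no
  (.use 282) (.use 299) .no (.use 288)) .no (.red [.f 1211 3 1] 168 136 [1, 1] [(168, 136, [1,
  1])]) (.con 136 [4, 1, 1, 4]) .no (.br 1346 (.use 285) .no (.red [.f 1218 3 1] 169 136 [1, 3, 1]
  [(169, 136, [1, 3, 1])]) .no (.red [.f 1338 5 3, .f 1211 3 1] 168 136 [1, 1] [(168, 136, [1,
  1])]) (.br 1336 (.use 286) .no (.con 136 [1, 1, 1]) .no (.use 290) .no)))) .no .no (.use 38) .no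
  .no) .no (.hor [.f 1056 3 5] []) .no .no

def c28t301 : Tr4 :=
  .br 945 (.br 1217 (.br 1216 (.hor [.f 1216 1 5] []) .no (.use 208) (.br 1209 (.red [.f 1209 1 3,
  .f 1081 3 1, .f 1081 1 5, .t 945 1 3, .f 954 1 3] 136 136 [] [(135, 136, [4]), (136, 136, []),
  (152, 136, [1]), (168, 167, [3])]) .no .no .no .no .no) .no .no) .no .no (.red [.f 1081 3 1, .f
  1081 1 5, .t 945 1 3, .f 954 1 3] 136 136 [] [(135, 136, [4]), (136, 136, []), (152, 136, [1])])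
  (.red [.t 1081 3 1, .t 945 1 3, .f 954 1 3] 136 136 [] [(135, 136, [4]), (136, 136, []), (152,
  136, [1])]) (.use 221)) (.hor [.f 817 1 3, .f 945 3 5] [(119, 121, [4, 4])]) .no (.br 1073 .no
  .no .no (.hor [.f 1065 3 5] []) .no (.br 944 .no (.br 1065 (.red [.t 1065 1 3, .f 1074 1 3, .f
  1074 3 5] 151 136 [4, 1] [(150, 136, [4, 4, 1]), (151, 136, [4, 1])]) .no .no (.use 292) .no
  (.red [.f 1064 5 3, .f 1065 3 5, .f 1073 5 1, .f 1074 1 3] 151 136 [4, 1] [(151, 136, [4, 1])]))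
  .no (.hor [.f 936 3 5] []) .no .no)) .no (.br 1209 (.br 1208 (.hor [.f 1208 1 5] []) .no (.br
  1217 (.br 1218 (.hor [.f 1217 1 5] []) .no (.br 1338 (.use 227) .no (.br 1339 (.use 228) .no
  (.hor [.f 1338 3 5] []) (.br 1336 (.con 136 [4, 1, 1, 1]) .no (.con 136 [1, 1, 1]) (.br 1073 .no
  .no .no (.hor [.f 1065 3 5] []) .no (.br 1065 (.red [.t 1065 1 3, .f 1074 1 3, .f 1074 3 5] 151
  136 [4, 1] [(150, 136, [4, 4, 1]), (151, 136, [4, 1])]) (.red [.f 944 5 1, .f 937 1 3, .f 1065 3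
  5, .f 1073 5 1, .f 1074 1 3] 151 136 [4, 1] [(134, 150, [2]), (151, 136, [4, 1])]) .no (.br 1200
  .no .no .no (.use 38) .no .no) .no (.red [.f 1064 5 3, .f 1065 3 5, .f 1073 5 1, .f 1074 1 3]
  151 136 [4, 1] [(151, 136, [4, 1])]))) .no .no) .no .no) (.red [.f 1209 1 3, .f 1209 3 1, .t
  1337 2 4] 167 136 [4, 1, 1] [(167, 136, [4, 1, 1])]) (.use 230) .no) .no .no .no) .no .no .no
  (.use 294) .no) (.con 136 [4, 1, 1]) .no .no) .no (.use 249) .no .no (.br 1217 (.use 250) .no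
  .no .no (.use 294) (.br 1072 (.use 164) .no .no (.use 293) (.br 1218 (.br 1338 (.use 279) .no
  .no (.br 1337 (.use 296) .no (.red [.f 1208 5 3, .f 1209 3 1, .t 1337 2 4] 168 136 [1, 1] [(167,
  136, [4, 1, 1]), (168, 136, [1, 1])]) (.hor [.f 1329 3 5] []) .no (.red [.f 1208 5 3, .f 1208 3
  5, .f 1208 5 1, .t 1337 2 4] 167 136 [4, 1, 1] [(167, 136, [4, 1, 1])])) (.red [.t 1218 1 4] 168
  136 [1, 1] [(168, 136, [1, 1])]) (.red [.f 1208 5 3, .t 1217 4 1] 168 136 [1, 1] [(168, 136, [1,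
  1])])) .no (.br 1065 (.red [.t 1065 1 3, .f 1074 1 3, .f 1074 3 5] 151 136 [4, 1] [(150, 136,
  [4, 4, 1]), (151, 136, [4, 1])]) (.red [.f 944 5 1, .f 937 1 3, .f 1065 3 5, .f 1073 5 1, .f
  1074 1 3] 151 136 [4, 1] [(134, 150, [2]), (151, 136, [4, 1])]) .no (.use 300) .no (.red [.f
  1064 5 3, .f 1065 3 5, .f 1073 5 1, .f 1074 1 3] 151 136 [4, 1] [(151, 136, [4, 1])])) .no .no
  .no) .no)))

def c28t302 : Tr4 :=
  .br 1331 (.con 136 [1, 4, 1, 4]) (.hor [.f 1202 1 5] []) .no (.con 136 [1, 4, 1, 4]) .no .no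

def c28t303 : Tr4 :=
  .br 1339 (.use 302) .no (.hor [.f 1211 3 1, .f 1218 1 5] [(168, 136, [1, 1])]) (.con 136 [4, 1,
  1, 4]) .no (.hor [.t 1218 1 4, .t 1098 1 4, .f 1217 3 5] [(153, 136, [1, 3]), (168, 136, [1,
  1])])

def c28t304 : Tr4 :=
  .br 1328 (.red [.f 1328 1 3] 183 136 [1, 4, 1, 1] [(183, 136, [1, 4, 1, 1])]) .no .no (.br 1329
  .no .no .no (.hor [.f 1320 3 5] []) (.red [.f 1329 5 3, .f 1329 3 1, .f 1337 1 3] 184 136 [1, 1,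
  1] [(183, 136, [1, 4, 1, 1]), (184, 136, [1, 1, 1])]) .no) (.red [.t 1464 2 4] 183 136 [1, 4, 1,
  1] [(183, 136, [1, 4, 1, 1])]) .no

def c28t305 : Tr4 :=
  .br 1352 (.hor [.f 1352 1 5] []) .no (.hor [.f 1224 3 1, .f 1216 1 3, .f 1216 3 5] [(169, 136,
  [1, 3, 1]), (170, 136, [1, 3, 1, 3])]) .no .no .no

def c28t306 : Tr4 :=
  .br 1352 (.con 136 [1, 1, 3, 1, 3, 2, 4, 1, 3, 2, 4, 1, 3, 2, 4, 1, 3, 2, 4, 4]) .no (.con 136
  [1, 1, 3, 1, 3, 2, 4, 1, 3, 2, 4, 1, 3, 2, 4, 1, 3, 2, 4, 4]) .no .no .no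

def c28t307 : Tr4 :=
  .br 1235 (.con 136 [3, 1, 1, 3, 2, 2, 2, 4]) .no (.con 136 [3, 1, 1, 3, 2, 2, 2, 4]) (.br 1234
  (.use 306) .no (.br 1114 .no (.hor [.f 978 1 3, .f 977 3 5] [(139, 121, [3, 3, 1])]) (.br 1352
  (.br 1113 (.con 136 [3, 3, 3, 1, 1, 4, 4, 4]) .no (.hor [.f 1113 3 5] []) .no .no (.con 136 [3,
  3, 3, 1, 4, 2, 2, 4])) .no (.hor [.f 1224 3 1, .f 1216 1 3, .f 1216 3 5] [(169, 168, [3]), (170,
  168, [3, 3])]) .no .no .no) .no .no (.hor [.t 977 3 1, .f 1106 3 5] [(139, 121, [3, 3, 1])]))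
  .no .no (.red [.t 1097 3 1, .t 961 3 1, .t 825 1 3, .f 834 1 3] 121 136 [3, 2] [(120, 136, [2]),
  (121, 136, [3, 2]), (137, 121, [1]), (154, 121, [3, 1, 1])])) .no (.con 136 [3, 1, 1, 3, 2, 2,
  2, 4])

def c28t308 : Tr4 :=
  .br 1354 (.red [.t 1354 1 4, .f 1339 1 3] 184 136 [1, 1, 1] [(184, 136, [1, 1, 1]), (185, 136,
  [1, 3, 1, 1])]) .no (.hor [.f 1353 3 5] []) .no .no .no

def c28t309 : Tr4 :=
  .br 1465 (.con 136 [1, 4, 1, 1, 1]) .no .no (.use 304) .no .no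

def c28t310 : Tr4 :=
  .br 1194 (.red [.t 1321 3 2, .f 1066 3 1] 166 136 [1, 1, 4, 1, 4, 2] [(150, 136, [1, 1, 4, 2,
  4]), (166, 136, [1, 1, 4, 4])]) .no .no (.hor [.f 1185 3 5] []) (.br 1330 .no .no .no (.hor [.f
  1321 3 5] []) (.con 136 [1, 1, 4, 4, 2, 3]) .no) .no

def c28t311 : Tr4 :=
  .br 1336 (.use 309) .no .no (.br 1329 (.red [.t 1457 2 3, .f 1328 3 5, .f 1208 5 1, .f 1208 1 3]
  168 136 [1, 1] [(168, 136, [1, 1]), (183, 167, [1])]) .no .no (.br 1193 .no .no .no (.use 310)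
  (.red [.f 1193 5 3, .f 1066 3 1, .f 1074 1 3] 151 136 [4, 1] [(150, 136, [4, 4, 1]), (151, 136,
  [4, 1])]) (.br 1330 .no .no .no (.hor [.f 1321 3 5] []) (.br 1195 (.con 136 [4, 1, 1, 4, 2, 3])
  (.con 136 [4, 1, 1, 4, 2, 3]) (.br 1322 (.red [.t 1466 4 2, .f 1322 1 3, .f 1321 3 5, .f 1201 5
  1, .t 1328 3 2] 167 136 [4, 1, 1] [(167, 136, [4, 1, 1]), (182, 166, [1]), (183, 167, [1])])
  (.red [.t 1321 3 2, .f 1066 3 1] 166 136 [4, 4, 1, 1] [(150, 136, [4, 4, 1]), (166, 136, [4, 4,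
  1, 1])]) .no (.br 1194 .no .no .no (.red [.f 1186 3 1, .t 1194 1 3, .f 1321 3 5] 166 136 [4, 4,
  1, 1] [(165, 136, [4, 4, 1, 4, 1]), (166, 136, [4, 4, 1, 1])]) .no .no) (.red [.f 1322 5 3, .f
  1195 3 1] 166 136 [4, 4, 1, 1] [(166, 136, [4, 4, 1, 1])]) .no) (.con 136 [4, 1, 1, 4, 2, 3])
  .no (.con 136 [4, 1, 1, 4, 2, 3])) .no)) (.red [.f 1201 5 1, .t 1328 3 2, .f 1208 1 3] 168 136
  [1, 1] [(167, 136, [4, 1, 1]), (168, 136, [1, 1])]) .no) .no .no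

def c28t312 : Tr4 :=
  .br 1227 .no .no (.hor [.t 1226 2 3, .f 1097 3 5] [(154, 136, [3, 3, 1])]) .no .no .no

def c28t313 : Tr4 :=
  .br 1107 (.con 136 [1, 3, 1, 3, 2, 4, 1, 3, 2, 4]) .no (.hor [.f 1106 3 5] []) .no .no .no

def c28t314 : Tr4 :=
  .br 1329 (.br 1330 (.hor [.f 1329 1 5] []) .no .no (.br 1331 (.con 136 [4, 1, 1, 4, 1]) (.red
  [.t 1321 2 3, .f 1202 1 5, .t 1082 1 4] 151 136 [4, 1] [(151, 136, [4, 1]), (166, 167, [4])])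
  .no (.hor [.f 1322 3 5] []) .no .no) (.br 1195 (.con 136 [4, 1, 1, 4, 2, 3]) (.con 136 [4, 1, 1,
  4, 2, 3]) (.use 144) (.con 136 [4, 1, 1, 4, 2, 3]) .no (.con 136 [4, 1, 1, 4, 2, 3])) .no) .no
  .no .no (.red [.f 1201 5 1, .t 1328 3 2, .f 1208 1 3] 168 136 [1, 1] [(167, 136, [4, 1, 1]),
  (168, 136, [1, 1])]) .no

def c28t315 : Tr4 :=
  .br 1474 (.red [.f 1466 1 3, .t 1473 2 4, .f 1338 1 5] 184 136 [1, 1, 1] [(184, 136, [1, 1, 1]),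
  (200, 136, [1, 1, 1, 1])]) .no (.br 1107 (.con 136 [3, 1, 1, 3, 2, 2, 2, 4]) .no (.br 977 .no
  .no (.use 307) .no .no .no) .no .no .no) .no (.use 308) .no

def c28l9 : List Tr4 :=
  [c28t292, c28t293, c28t294, c28t295, c28t296, c28t297, c28t298, c28t299, c28t300, c28t301,
  c28t302, c28t303, c28t304, c28t305, c28t306, c28t307, c28t308, c28t309, c28t310, c28t311,
  c28t312, c28t313, c28t314, c28t315]

theorem c28k9 : chkLF ⟨4, 1, 0, true, -8⟩ false 8 c28N 292 c28l9 = true := by decide +kernel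

def c28t316 : Tr4 :=
  .br 1065 (.red [.t 1065 1 3, .f 1074 1 3, .f 1074 3 5] 151 136 [4, 1] [(150, 136, [4, 4, 1]),
  (151, 136, [4, 1])]) (.hor [.f 937 1 3, .f 1065 3 5] [(134, 136, [4, 4])]) .no (.br 1353 (.use
  305) .no (.br 977 .no .no (.br 978 (.br 1107 (.con 136 [3, 1, 1, 3, 2, 2, 2, 4]) .no (.br 1466
  (.br 1474 (.red [.f 1466 1 3, .t 1473 2 4, .f 1338 1 5] 184 136 [1, 1, 1] [(184, 136, [1, 1,
  1]), (200, 136, [1, 1, 1, 1])]) .no (.use 307) .no (.use 308) .no) .no (.red [.t 1473 2 4, .f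
  1338 1 5] 184 136 [1, 1, 1] [(184, 136, [1, 1, 1])]) (.use 311) .no (.red [.f 1337 5 1, .f 1337
  1 3] 184 136 [1, 1, 1] [(184, 136, [1, 1, 1])])) .no .no .no) (.br 1466 (.br 1474 (.red [.f 1466
  1 3, .t 1473 2 4, .f 1338 1 5] 184 136 [1, 1, 1] [(184, 136, [1, 1, 1]), (200, 136, [1, 1, 1,
  1])]) .no (.br 1234 (.use 306) (.hor [.f 1098 1 3, .f 1097 3 5] [(154, 121, [3, 1, 1])]) (.br
  1106 .no .no (.hor [.f 1106 3 1, .f 1098 1 3, .f 1097 3 5] [(154, 121, [3, 1, 1]), (155, 121,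
  [3, 1, 1, 3])]) .no (.use 312) .no) .no (.con 136 [3, 1, 1, 3, 2, 2, 2, 4]) (.red [.t 1097 3 1,
  .t 961 3 1, .t 825 1 3, .f 834 1 3] 121 136 [2, 3] [(120, 136, [2]), (121, 136, [2, 3]), (137,
  121, [1]), (154, 121, [3, 1, 1])])) .no (.use 308) .no) .no (.red [.t 1473 2 4, .f 1338 1 5] 184
  136 [1, 1, 1] [(184, 136, [1, 1, 1])]) (.use 311) .no (.red [.f 1337 5 1, .f 1337 1 3] 184 136
  [1, 1, 1] [(184, 136, [1, 1, 1])])) (.hor [.f 977 3 5] []) .no .no .no) .no (.br 1106 (.hor [.f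
  1098 1 3, .f 1097 3 5] [(154, 121, [3, 1, 1])]) .no (.use 313) .no (.use 312) .no) .no) .no
  (.red [.t 1217 3 1, .t 1081 3 1, .t 945 1 3, .f 954 1 3] 136 136 [] [(135, 136, [4]), (136, 136,
  []), (152, 136, [1]), (169, 168, [3])]) (.red [.t 1216 1 3, .f 1208 5 3, .t 1217 4 1] 168 136
  [1, 1] [(168, 136, [1, 1]), (169, 168, [3])])) .no (.br 1353 (.use 305) .no (.br 1106 (.hor [.f
  1098 1 3, .f 1097 3 5] [(154, 121, [3, 1, 1])]) (.br 1193 (.br 1466 (.br 1336 (.br 1465 (.hor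
  [.f 1465 1 5] []) .no .no (.br 1329 .no .no .no .no (.red [.f 1329 5 3, .f 1329 3 1, .f 1337 1
  3] 184 136 [1, 1, 1] [(183, 136, [4, 1, 1, 1]), (184, 136, [1, 1, 1])]) (.red [.t 1464 2 4] 183
  136 [4, 1, 1, 1] [(183, 136, [4, 1, 1, 1])])) .no .no) .no .no (.use 314) .no .no) .no (.red [.t
  1473 2 4, .f 1338 1 5] 184 136 [1, 1, 1] [(184, 136, [1, 1, 1])]) (.br 1336 (.use 309) .no .no
  (.use 314) .no .no) .no (.red [.f 1337 5 1, .f 1337 1 3] 184 136 [1, 1, 1] [(184, 136, [1, 1,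
  1])])) .no .no (.br 1466 (.use 315) .no (.red [.t 1473 2 4, .f 1338 1 5] 184 136 [1, 1, 1]
  [(184, 136, [1, 1, 1])]) (.br 1336 (.use 309) .no .no (.br 1329 (.red [.t 1457 2 3, .f 1328 3 5,
  .f 1208 5 1, .f 1208 1 3] 168 136 [1, 1] [(168, 136, [1, 1]), (183, 167, [1])]) .no .no (.use
  310) (.red [.f 1201 5 1, .t 1328 3 2, .f 1208 1 3] 168 136 [1, 1] [(167, 136, [4, 1, 1]), (168,
  136, [1, 1])]) .no) .no .no) .no (.red [.f 1337 5 1, .f 1337 1 3] 184 136 [1, 1, 1] [(184, 136,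
  [1, 1, 1])])) (.red [.f 1193 5 3, .f 1066 3 1, .f 1074 1 3] 151 136 [4, 1] [(150, 136, [4, 4,
  1]), (151, 136, [4, 1])]) (.red [.f 1064 5 1, .t 1065 1 3, .f 1074 1 3] 151 136 [4, 1] [(150,
  136, [4, 4, 1]), (151, 136, [4, 1])])) (.use 313) .no (.use 312) .no) .no (.red [.t 1217 3 1, .t
  1081 3 1, .t 945 1 3, .f 954 1 3] 136 136 [] [(135, 136, [4]), (136, 136, []), (152, 136, [1]),
  (169, 168, [3])]) (.red [.t 1216 1 3, .f 1208 5 3, .t 1217 4 1] 168 136 [1, 1] [(168, 136, [1,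
  1]), (169, 168, [3])]))

def c28t317 : Tr4 :=
  .br 1336 (.con 136 [4, 1, 1, 1]) .no .no (.br 1330 (.br 1466 (.br 1465 (.hor [.f 1465 1 5] [])
  .no .no (.red [.t 1457 3 2, .f 1330 3 5] 183 136 [4, 1, 1, 1] [(183, 136, [4, 1, 1, 1])]) .no
  (.br 1467 (.hor [.f 1466 1 5] []) .no (.con 136 [1, 1, 1, 1]) (.red [.f 1331 3 1, .f 1330 1 5]
  183 136 [4, 1, 1, 1] [(183, 136, [4, 1, 1, 1])]) .no .no)) .no (.red [.t 1473 2 4] 184 136 [1,
  1, 1] [(184, 136, [1, 1, 1])]) .no (.red [.t 1330 1 3] 183 136 [4, 1, 1, 1] [(183, 136, [4, 1,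
  1, 1])]) (.red [.f 1337 5 1, .f 1337 1 3] 184 136 [1, 1, 1] [(184, 136, [1, 1, 1])])) .no .no
  (.br 1329 (.con 136 [4, 1, 1, 4, 1]) .no .no (.hor [.f 1321 3 5] []) .no .no) .no (.red [.f 1201
  5 1, .t 1328 3 2, .f 1208 1 3] 168 136 [1, 1] [(167, 136, [4, 1, 1]), (168, 136, [1, 1])])) .no
  .no

def c28t318 : Tr4 :=
  .br 1331 (.con 136 [4, 1, 1, 4]) (.use 287) .no (.con 136 [4, 1, 1, 4]) .no .no

def c28t319 : Tr4 :=
  .br 1193 (.br 1330 .no .no .no (.con 136 [4, 4, 1, 1, 4]) (.br 1465 (.con 136 [4, 1, 1, 1, 1])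
  .no .no (.use 276) .no .no) (.use 259)) .no .no (.red [.f 1057 3 1, .f 1064 1 5] 149 136 [4, 4,
  4, 1] [(149, 136, [4, 4, 4, 1])]) (.red [.f 1193 5 3, .f 1066 3 1, .f 1074 1 3] 151 136 [4, 1]
  [(150, 136, [4, 4, 1]), (151, 136, [4, 1])]) .no

def c28t320 : Tr4 :=
  .br 1329 (.con 136 [4, 1, 1, 1, 4]) .no .no (.red [.t 1328 2 4] 166 136 [4, 1, 4, 1] [(166, 136,
  [4, 1, 4, 1])]) (.use 318) .no

def c28t321 : Tr4 :=
  .br 945 (.br 1072 (.br 1339 (.br 1347 (.red [.f 1339 1 3] 184 136 [1, 1, 1] [(184, 136, [1, 1,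
  1])]) .no (.br 1224 (.hor [.f 1216 1 3, .f 1216 3 5] [(169, 168, [3])]) .no (.use 316) .no .no
  .no) .no .no .no) .no (.red [.f 1211 3 1, .f 1218 1 5] 168 136 [1, 1] [(168, 136, [1, 1])])
  (.use 317) .no .no) (.hor [.f 944 1 5] []) .no (.br 1339 (.br 1347 (.red [.f 1339 1 3] 184 136
  [1, 1, 1] [(184, 136, [1, 1, 1])]) .no (.br 1065 (.red [.t 1065 1 3, .f 1074 1 3, .f 1074 3 5]
  151 136 [4, 1] [(150, 136, [4, 4, 1]), (151, 136, [4, 1])]) (.hor [.f 937 1 3, .f 1064 3 5]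
  [(134, 150, [2])]) .no (.br 1200 (.br 1224 (.hor [.f 1216 1 3, .f 1216 3 5] [(169, 168, [3])])
  .no (.br 1353 (.use 305) .no (.br 1106 (.hor [.f 1098 1 3, .f 1097 3 5] [(154, 121, [3, 1, 1])])
  (.br 1466 (.use 315) .no (.red [.t 1473 2 4, .f 1338 1 5] 184 136 [1, 1, 1] [(184, 136, [1, 1,
  1])]) (.br 1193 (.br 1192 (.red [.f 1192 1 3, .f 1064 3 1] 150 136 [4, 4, 1] [(150, 136, [4, 4,
  1]), (166, 136, [4, 4, 1, 1])]) .no .no (.br 1330 .no .no .no (.con 136 [4, 4, 1, 1, 4]) (.con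
  136 [4, 1, 1, 4]) (.use 254)) .no .no) .no .no (.red [.f 1057 3 1, .t 1065 1 3] 150 136 [4, 4,
  1] [(149, 136, [4, 4, 4, 1]), (150, 136, [4, 4, 1])]) (.red [.f 1193 5 3, .f 1066 3 1, .f 1074 1
  3] 151 136 [4, 1] [(150, 136, [4, 4, 1]), (151, 136, [4, 1])]) (.br 1329 (.con 136 [4, 1, 1, 1,
  4]) .no .no (.red [.t 1328 2 4, .f 1064 3 1] 150 136 [4, 4, 1] [(150, 136, [4, 4, 1]), (166,
  136, [4, 4, 1, 1])]) (.use 318) .no)) .no (.red [.f 1337 5 1, .f 1337 1 3] 184 136 [1, 1, 1]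
  [(184, 136, [1, 1, 1])])) (.use 313) .no (.use 312) .no) .no (.red [.t 1217 3 1, .t 1081 3 1, .t
  945 1 3, .f 954 1 3] 136 136 [] [(135, 136, [4]), (136, 136, []), (152, 136, [1]), (169, 168,
  [3])]) (.red [.t 1216 1 3, .f 1208 5 3, .t 1217 4 1] 168 136 [1, 1] [(168, 136, [1, 1]), (169,
  168, [3])])) .no .no .no) .no .no (.red [.f 1064 3 1] 150 136 [4, 4, 1] [(150, 136, [4, 4, 1])])
  .no .no) .no .no) .no .no .no) .no (.red [.f 1211 3 1, .f 1218 1 5] 168 136 [1, 1] [(168, 136,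
  [1, 1])]) (.use 317) .no .no) .no .no) (.hor [.f 817 1 3, .f 945 3 5] [(119, 121, [4, 4])]) .no
  (.br 1073 .no .no .no (.hor [.f 1065 3 5] []) .no (.br 1339 (.br 1347 (.red [.f 1339 1 3] 184
  136 [1, 1, 1] [(184, 136, [1, 1, 1])]) .no (.br 1065 (.red [.t 1065 1 3, .f 1074 1 3, .f 1074 3
  5] 151 136 [4, 1] [(150, 136, [4, 4, 1]), (151, 136, [4, 1])]) .no .no (.br 1224 (.hor [.f 1216
  1 3, .f 1216 3 5] [(169, 168, [3])]) .no (.br 1353 (.use 305) .no (.br 1106 (.hor [.f 1098 1 3,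
  .f 1097 3 5] [(154, 121, [3, 1, 1])]) (.br 1466 (.use 315) .no (.red [.t 1473 2 4, .f 1338 1 5]
  184 136 [1, 1, 1] [(184, 136, [1, 1, 1])]) (.br 1336 (.br 1064 (.use 319) (.br 1200 (.br 1193
  (.use 255) .no .no (.red [.f 1057 3 1, .t 1065 1 3] 150 136 [4, 4, 1] [(149, 136, [4, 4, 4, 1]),
  (150, 136, [4, 4, 1])]) (.red [.f 1193 5 3, .f 1066 3 1, .f 1074 1 3] 151 136 [4, 1] [(150, 136,
  [4, 4, 1]), (151, 136, [4, 1])]) (.use 320)) .no .no (.use 33) .no .no) .no (.hor [.f 1056 3 5]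
  []) .no .no) .no .no (.use 251) .no .no) .no (.red [.f 1337 5 1, .f 1337 1 3] 184 136 [1, 1, 1]
  [(184, 136, [1, 1, 1])])) (.use 313) .no (.use 312) .no) .no (.hor [.t 1217 3 1, .f 1346 3 5]
  [(169, 168, [3])]) (.red [.t 1216 1 3, .f 1208 5 3, .t 1217 4 1] 168 136 [1, 1] [(168, 136, [1,
  1]), (169, 168, [3])])) .no .no .no) .no (.red [.f 1064 5 3, .f 1065 3 5, .f 1073 5 1, .f 1074 1
  3] 151 136 [4, 1] [(151, 136, [4, 1])])) .no .no .no) .no (.red [.f 1211 3 1, .f 1218 1 5] 168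
  136 [1, 1] [(168, 136, [1, 1])]) (.use 317) .no .no)) .no (.br 1072 (.use 164) .no .no (.use
  293) (.br 1339 (.br 1347 (.red [.f 1339 1 3] 184 136 [1, 1, 1] [(184, 136, [1, 1, 1])]) .no (.br
  1065 (.red [.t 1065 1 3, .f 1074 1 3, .f 1074 3 5] 151 136 [4, 1] [(150, 136, [4, 4, 1]), (151,
  136, [4, 1])]) (.red [.f 944 5 1, .f 937 1 3, .f 1065 3 5, .f 1073 5 1, .f 1074 1 3] 151 136 [4,
  1] [(134, 150, [2]), (151, 136, [4, 1])]) .no (.br 1224 (.hor [.f 1216 1 3, .f 1216 3 5] [(169,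
  168, [3])]) .no (.br 1353 (.use 305) .no (.br 1106 (.hor [.f 1098 1 3, .f 1097 3 5] [(154, 121,
  [3, 1, 1])]) (.br 1466 (.use 315) .no (.red [.t 1473 2 4, .f 1338 1 5] 184 136 [1, 1, 1] [(184,
  136, [1, 1, 1])]) (.br 1336 (.br 1064 (.use 319) (.br 1200 (.br 1193 (.use 255) .no .no (.red
  [.f 1057 3 1, .t 1065 1 3] 150 136 [4, 4, 1] [(149, 136, [4, 4, 4, 1]), (150, 136, [4, 4, 1])])
  (.red [.f 1193 5 3, .f 1066 3 1, .f 1074 1 3] 151 136 [4, 1] [(150, 136, [4, 4, 1]), (151, 136,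
  [4, 1])]) (.use 320)) .no .no (.use 38) .no .no) .no (.hor [.f 1056 3 5] []) .no .no) .no .no
  (.use 295) .no .no) .no (.red [.f 1337 5 1, .f 1337 1 3] 184 136 [1, 1, 1] [(184, 136, [1, 1,
  1])])) (.use 313) .no (.use 312) .no) .no (.hor [.t 1217 3 1, .f 1346 3 5] [(169, 168, [3])])
  (.red [.t 1216 1 3, .f 1208 5 3, .t 1217 4 1] 168 136 [1, 1] [(168, 136, [1, 1]), (169, 168,
  [3])])) .no .no .no) .no (.red [.f 1064 5 3, .f 1065 3 5, .f 1073 5 1, .f 1074 1 3] 151 136 [4,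
  1] [(151, 136, [4, 1])])) .no .no .no) .no (.red [.f 1211 3 1, .f 1218 1 5] 168 136 [1, 1]
  [(168, 136, [1, 1])]) (.use 317) .no .no) .no)

def c28t322 : Tr4 :=
  .br 1329 (.con 136 [1, 4, 1, 4, 1]) .no .no (.hor [.f 1321 3 5] []) .no .no

def c28t323 : Tr4 :=
  .br 1339 (.hor [.f 1338 1 5] []) .no (.hor [.f 1211 3 1, .f 1218 1 5] [(168, 136, [1, 1])]) (.br
  1345 (.br 1344 (.hor [.f 1344 1 5] []) .no (.br 1330 (.red [.f 1330 1 3, .t 1337 2 4] 167 136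
  [4, 1, 1] [(167, 136, [4, 1, 1]), (183, 136, [4, 1, 1, 1])]) .no .no (.br 1336 (.con 136 [4, 1,
  1, 1]) .no .no (.use 322) .no .no) .no (.red [.f 1201 5 1, .f 1201 1 3] 167 136 [4, 1, 1] [(167,
  136, [4, 1, 1])])) (.con 136 [4, 1, 1, 1]) .no .no) .no (.hor [.f 1217 3 1, .f 1217 1 5] [(169,
  167, [3, 3])]) .no .no (.br 1330 (.red [.f 1330 1 3, .t 1337 2 4] 167 136 [4, 1, 1] [(167, 136,
  [4, 1, 1]), (183, 136, [4, 1, 1, 1])]) .no .no (.br 1336 (.con 136 [4, 1, 1, 1]) .no .no (.use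
  322) .no .no) .no (.red [.f 1201 5 1, .f 1201 1 3] 167 136 [4, 1, 1] [(167, 136, [4, 1, 1])])))
  .no .no

def c28t324 : Tr4 :=
  .br 1338 (.use 323) .no .no (.red [.t 1337 2 4] 167 136 [4, 1, 1] [(167, 136, [4, 1, 1])]) (.hor
  [.t 1218 1 4, .t 1098 1 4, .f 1217 3 5] [(153, 136, [1, 3]), (168, 136, [1, 1])]) .no

def c28t325 : Tr4 :=
  .br 1339 (.use 302) .no (.red [.f 1211 3 1, .f 1218 1 5] 168 136 [1, 1] [(168, 136, [1, 1])])
  (.con 136 [4, 1, 1, 4]) .no (.red [.t 1218 1 4] 168 136 [1, 1] [(168, 136, [1, 1])])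

def c28t326 : Tr4 :=
  .br 1217 (.hor [.f 1217 1 5] []) .no (.br 1202 (.br 1201 (.hor [.f 1201 1 5] []) (.use 2) (.use
  212) (.use 303) .no (.use 36)) .no .no (.red [.f 1066 3 1, .f 1074 1 3] 151 136 [4, 1] [(150,
  136, [4, 1, 4]), (151, 136, [4, 1])]) (.red [.t 1082 1 4, .t 962 1 4, .f 1081 3 5] 136 136 []
  [(136, 136, []), (151, 136, [4, 1])]) (.br 1216 (.br 1208 (.use 71) .no .no (.con 136 [4, 1, 1])
  (.br 1345 (.br 1337 (.red [.f 1337 1 3, .t 1344 2 4] 168 136 [1, 1] [(168, 136, [1, 1]), (184,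
  136, [1, 1, 1])]) .no .no (.br 1338 (.br 1339 (.hor [.f 1338 1 5] []) .no (.red [.f 1211 3 1, .f
  1218 1 5] 168 136 [1, 1] [(168, 136, [1, 1])]) (.con 136 [4, 1, 1, 1]) .no .no) .no .no (.hor
  [.f 1329 3 5] []) (.red [.t 1218 1 4, .t 1098 1 4, .f 1217 3 5] 168 136 [1, 1] [(153, 136, [3,
  1]), (168, 136, [1, 1])]) .no) (.use 321) (.red [.f 1208 5 1, .f 1208 1 3] 168 136 [1, 1] [(168,
  136, [1, 1])])) .no (.hor [.f 1217 3 1, .f 1216 1 5] [(169, 168, [3])]) (.red [.t 1344 2 4] 168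
  136 [1, 1] [(168, 136, [1, 1])]) .no .no) .no) .no (.hor [.f 1216 3 5] []) (.br 1209 (.use 324)
  .no .no .no .no .no) .no .no)) (.use 218) .no (.br 1202 (.br 1201 (.hor [.f 1201 1 5] []) (.use
  2) (.use 212) (.use 325) .no (.use 36)) .no .no (.red [.f 1066 3 1, .f 1074 1 3] 151 136 [4, 1]
  [(150, 136, [4, 1, 4]), (151, 136, [4, 1])]) (.red [.t 1082 1 4, .t 962 1 4, .f 1081 3 5] 136
  136 [] [(136, 136, []), (151, 136, [4, 1])]) (.br 1208 (.use 105) .no .no (.con 136 [4, 1, 1])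
  (.br 1338 (.use 279) .no .no (.br 1337 (.br 945 (.use 221) (.hor [.f 817 1 3, .f 945 3 5] [(119,
  121, [4, 4])]) .no (.br 1339 (.br 1073 .no .no .no (.hor [.f 1065 3 5] []) .no (.br 1065 (.red
  [.t 1065 1 3, .f 1074 1 3, .f 1074 3 5] 151 136 [4, 1] [(150, 136, [4, 4, 1]), (151, 136, [4,
  1])]) .no .no (.use 280) .no (.red [.f 1064 5 3, .f 1065 3 5, .f 1073 5 1, .f 1074 1 3] 151 136
  [4, 1] [(151, 136, [4, 1])]))) .no (.red [.f 1211 3 1, .f 1218 1 5] 168 136 [1, 1] [(168, 136,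
  [1, 1])]) (.hor [.f 1330 3 5] []) .no .no) .no (.br 1072 (.use 164) .no .no (.use 293) (.use
  296) .no)) .no (.red [.f 1208 5 3, .f 1209 3 1, .t 1337 2 4] 168 136 [1, 1] [(167, 136, [4, 1,
  1]), (168, 136, [1, 1])]) (.hor [.f 1329 3 5] []) .no (.red [.f 1208 5 3, .f 1208 3 5, .f 1208 5
  1, .t 1337 2 4] 167 136 [4, 1, 1] [(167, 136, [4, 1, 1])])) (.red [.t 1218 1 4] 168 136 [1, 1]
  [(168, 136, [1, 1])]) (.red [.f 1208 5 3, .t 1217 4 1] 168 136 [1, 1] [(168, 136, [1, 1])]))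
  .no))

def c28t327 : Tr4 :=
  .br 1475 (.use 242) .no (.red [.f 1347 3 1, .f 1339 1 3, .f 1338 3 5] 184 136 [1, 1, 1] [(184,
  136, [1, 1, 1]), (185, 136, [1, 3, 1, 1])]) .no .no (.red [.t 1338 3 1, .f 1345 1 5] 184 136 [1,
  1, 1] [(184, 136, [1, 1, 1])])

def c28t328 : Tr4 :=
  .br 1328 (.red [.f 1328 1 3] 183 136 [4, 1, 1, 1] [(183, 136, [4, 1, 1, 1])]) (.con 136 [4, 1,
  1, 4]) .no (.con 136 [4, 4, 1, 1, 1]) (.br 1466 (.br 1465 (.hor [.f 1465 1 5] []) .no (.con 136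
  [1, 1, 1, 1]) (.red [.t 1208 3 1, .t 1344 2 4, .t 1464 2 4] 183 136 [4, 1, 1, 1] [(183, 136, [4,
  1, 1, 1])]) .no .no) .no (.red [.f 1338 3 1, .f 1338 1 5] 184 136 [1, 1, 1] [(184, 136, [1, 1,
  1])]) (.br 1465 (.con 136 [4, 1, 1, 1, 1]) .no (.con 136 [1, 1, 1, 1]) (.hor [.f 1457 3 5] [])
  .no .no) .no (.hor [.t 1337 2 3, .f 1208 3 5, .f 1337 5 1, .f 1338 1 5, .t 1218 1 4] [])) .no

def c28l10 : List Tr4 :=
  [c28t316, c28t317, c28t318, c28t319, c28t320, c28t321, c28t322, c28t323, c28t324, c28t325,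
  c28t326, c28t327, c28t328]

theorem c28k10 : chkLF ⟨4, 1, 0, true, -8⟩ false 8 c28N 316 c28l10 = true := by decide +kernel

def c28t329 : Tr4 :=
  .br 1208 (.use 85) .no (.br 1209 (.br 1338 (.use 244) .no (.br 1339 (.br 1347 (.use 234) .no
  (.br 1193 (.br 1336 (.br 936 (.br 1200 (.br 1330 (.use 239) .no .no (.br 1331 (.con 136 [4, 1,
  1, 4]) (.con 136 [4, 4, 1, 1, 1]) .no (.con 136 [4, 1, 1, 4]) .no .no) (.con 136 [4, 1, 1, 4])
  (.red [.f 1201 5 1, .f 1201 1 3] 167 136 [4, 1, 1] [(167, 136, [4, 1, 1])])) .no .no (.use 33)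
  .no .no) (.use 4) .no (.br 1064 (.br 1330 (.use 246) .no .no (.con 136 [4, 4, 1, 1, 4]) (.br
  1225 (.br 1345 (.use 327) .no .no .no .no (.use 328)) .no (.hor [.f 1097 3 1, .f 1097 1 5]
  [(154, 136, [3, 3, 1])]) .no .no (.br 1345 (.use 327) .no (.br 1344 (.con 136 [3, 1, 1, 1]) .no
  (.hor [.f 1344 3 5] []) .no .no .no) .no .no (.use 328))) (.use 259)) .no .no (.hor [.f 1056 3
  5] []) .no .no) .no .no) .no (.con 136 [1, 1, 1]) (.use 229) .no .no) .no .no (.red [.f 1057 3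
  1, .t 1065 1 3] 150 136 [4, 4, 1] [(149, 136, [4, 4, 1, 4]), (150, 136, [4, 4, 1])]) (.red [.f
  1193 5 3, .f 1066 3 1, .f 1074 1 3] 151 136 [4, 1] [(150, 136, [4, 4, 1]), (151, 136, [4, 1])])
  (.use 237)) .no .no .no) .no (.hor [.f 1338 3 5] []) (.use 233) .no .no) (.red [.t 1337 2 4] 167
  136 [4, 1, 1] [(167, 136, [4, 1, 1])]) (.br 1064 (.use 247) (.use 245) .no (.hor [.f 1056 3 5]
  []) .no .no) .no) .no .no .no .no .no) (.con 136 [4, 1, 1]) (.br 1216 (.br 936 (.use 256) (.use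
  4) .no (.br 1064 (.br 1193 (.br 1336 (.br 1337 (.use 252) .no (.red [.t 1344 2 4] 168 136 [1, 1]
  [(168, 136, [1, 1])]) (.use 253) (.br 1339 (.br 1347 (.red [.f 1339 1 3] 184 136 [1, 1, 1]
  [(184, 136, [1, 1, 1])]) .no (.br 1345 (.use 258) .no (.use 261) .no (.red [.f 1337 5 3, .t 1344
  2 4] 168 136 [1, 1] [(168, 136, [1, 1])]) .no) .no .no (.use 260)) .no (.red [.f 1211 3 1] 168
  136 [1, 1] [(168, 136, [1, 1])]) (.con 136 [4, 1, 1, 1]) .no .no) .no) .no .no (.use 251) (.red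
  [.f 1208 5 1, .f 1208 1 3] 168 136 [1, 1] [(168, 136, [1, 1])]) .no) .no .no (.red [.f 1057 3 1,
  .f 1064 1 5] 149 136 [4, 4, 4, 1] [(149, 136, [4, 4, 4, 1])]) (.red [.f 1193 5 3, .f 1066 3 1,
  .f 1074 1 3] 151 136 [4, 1] [(150, 136, [4, 4, 1]), (151, 136, [4, 1])]) .no) .no .no (.hor [.f
  1056 3 5] []) .no .no) .no .no) .no (.br 1225 (.br 1344 (.br 1345 (.hor [.f 1344 1 5] []) .no
  .no (.br 1336 (.br 1346 (.red [.f 1336 1 3, .f 1336 3 5, .t 1224 4 1] 169 136 [3, 1, 1] [(169,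
  136, [3, 1, 1]), (184, 168, [1])]) .no (.red [.f 1336 1 3, .f 1336 3 5, .t 1224 4 1] 169 136 [3,
  1, 1] [(169, 136, [3, 1, 1]), (184, 168, [1])]) (.hor [.f 1337 3 5] []) (.red [.f 1336 1 3, .f
  1336 3 5, .t 1224 4 1] 169 136 [3, 1, 1] [(169, 136, [3, 1, 1]), (184, 168, [1])]) .no) .no .no
  (.use 251) .no .no) (.red [.f 1217 5 1, .f 1217 1 3] 169 136 [3, 1, 1] [(169, 136, [3, 1, 1])])
  .no) .no (.red [.f 1216 3 1, .f 1224 1 5] 169 136 [3, 1, 1] [(169, 136, [3, 1, 1])]) (.br 1345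
  (.br 1346 (.hor [.f 1345 1 5] []) .no (.red [.t 1353 2 4, .f 1216 3 5] 169 136 [3, 1, 1] [(169,
  136, [3, 1, 1])]) (.con 136 [1, 1, 1]) (.con 136 [1, 1, 1]) .no) .no .no (.hor [.f 1336 3 5] [])
  (.red [.f 1217 5 1, .f 1217 1 3] 169 136 [3, 1, 1] [(169, 136, [3, 1, 1])]) .no) (.red [.t 1224
  4 1] 169 136 [3, 1, 1] [(169, 136, [3, 1, 1])]) .no) .no (.hor [.f 1097 3 1, .f 1097 1 5] [(154,
  169, [2, 3])]) .no .no .no) .no .no .no) .no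

def c28t330 : Tr4 :=
  .br 1097 (.br 1098 (.hor [.f 1097 1 5] []) .no (.br 971 .no (.hor [.f 842 1 5] []) (.br 1202
  (.br 1201 (.hor [.f 1201 1 5] []) (.use 2) (.use 212) (.br 945 (.br 1217 (.br 1216 (.hor [.f
  1216 1 5] []) .no (.use 208) (.br 1209 (.red [.f 1209 1 3, .f 1081 3 1, .f 1081 1 5, .t 945 1 3,
  .f 954 1 3] 136 136 [] [(135, 136, [4]), (136, 136, []), (152, 136, [1]), (168, 167, [3])]) .no
  .no .no .no .no) .no .no) .no .no (.red [.f 1081 3 1, .f 1081 1 5, .t 945 1 3, .f 954 1 3] 136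
  136 [] [(135, 136, [4]), (136, 136, []), (152, 136, [1])]) (.red [.t 1081 3 1, .t 945 1 3, .f
  954 1 3] 136 136 [] [(135, 136, [4]), (136, 136, []), (152, 136, [1])]) (.br 1208 (.use 213) .no
  .no (.con 136 [4, 1, 1]) (.red [.f 1208 5 3, .f 1081 3 1, .f 1081 1 5, .t 945 1 3, .f 954 1 3]
  136 136 [] [(135, 136, [4]), (136, 136, []), (152, 136, [1])]) .no)) (.hor [.f 817 1 3, .f 945 3
  5] [(119, 121, [4, 4])]) .no (.br 1073 .no .no .no (.hor [.f 1065 3 5] []) .no (.use 217)) .no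
  (.br 1073 .no .no .no (.hor [.f 1065 3 5] []) .no (.br 1218 (.br 1217 (.hor [.f 1217 1 5] [])
  .no .no (.use 218) .no (.use 219)) .no (.br 1217 (.br 1216 (.hor [.f 1216 1 5] []) .no (.con 136
  [3, 1, 1]) (.use 220) .no .no) .no .no (.br 1216 (.con 136 [1, 1]) .no (.con 136 [1, 1]) (.use
  220) .no .no) .no (.use 219)) .no .no (.red [.f 944 5 1, .t 1081 3 1, .t 945 1 3, .f 954 1 3]
  136 136 [] [(135, 136, [4]), (136, 136, []), (152, 136, [1])])))) .no (.use 36)) .no .no (.red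
  [.f 1066 3 1, .f 1074 1 3] 151 136 [4, 1] [(150, 136, [4, 1, 4]), (151, 136, [4, 1])]) (.red [.t
  1082 1 4, .t 962 1 4, .f 1081 3 5] 136 136 [] [(136, 136, []), (151, 136, [4, 1])]) (.use 301))
  .no .no .no) .no .no .no) .no (.br 1098 (.br 971 .no (.hor [.f 842 1 5] []) (.br 1218 (.use 326)
  .no .no .no .no (.br 945 (.red [.t 1081 3 1, .t 945 1 3, .f 954 1 3] 136 136 [] [(135, 136,
  [4]), (136, 136, []), (152, 136, [1])]) (.hor [.f 817 1 3, .f 945 3 5] [(119, 121, [4, 4])]) .no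
  (.br 1073 (.use 2) .no .no (.hor [.f 1065 3 5] []) .no (.br 944 .no (.br 1202 (.br 1201 (.hor
  [.f 1201 1 5] []) .no (.use 212) (.use 217) .no (.use 36)) .no .no (.red [.f 1066 3 1, .f 1074 1
  3] 151 136 [4, 1] [(150, 136, [4, 4, 1]), (151, 136, [4, 1])]) (.red [.t 1082 1 4, .t 962 1 4,
  .f 1081 3 5] 136 136 [] [(136, 136, []), (151, 136, [4, 1])]) (.br 1065 (.red [.t 1065 1 3, .f
  1074 1 3, .f 1074 3 5] 151 136 [4, 1] [(150, 136, [4, 4, 1]), (151, 136, [4, 1])]) .no .no (.use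
  329) .no (.red [.f 1064 5 3, .f 1065 3 5, .f 1073 5 1, .f 1074 1 3] 151 136 [4, 1] [(151, 136,
  [4, 1])]))) .no (.hor [.f 936 3 5] []) .no .no)) .no (.br 1073 (.use 2) .no .no (.hor [.f 1065 3
  5] []) .no (.red [.f 944 5 1, .t 1081 3 1, .t 945 1 3, .f 954 1 3] 136 136 [] [(135, 136, [4]),
  (136, 136, []), (152, 136, [1])])))) .no .no .no) .no (.hor [.f 1097 3 5] []) .no .no .no) .no
  (.red [.t 961 3 1, .t 825 1 3, .f 834 1 3] 121 136 [2, 3] [(120, 136, [2]), (121, 136, [2, 3]),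
  (137, 121, [1])]) .no

def c28t331 : Tr4 :=
  .br 826 .no (.br 841 .no (.red [.f 705 1 3] 105 136 [2, 2, 3] [(105, 136, [2, 2, 3])]) (.br 970
  (.use 203) (.br 971 .no (.hor [.f 842 1 5] []) (.use 200) .no .no .no) (.use 83) .no (.use 201)
  .no) .no (.br 970 (.br 971 .no (.con 136 [2, 3, 3]) (.br 706 .no (.br 840 .no (.br 843 .no (.use
  23) (.con 136 [2, 2, 3, 3]) .no .no .no) (.red [.f 840 3 1] 122 136 [2, 3, 3] [(122, 136, [2, 3,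
  3])]) .no .no .no) (.red [.t 705 1 3] 105 136 [2, 2, 3] [(105, 136, [2, 2, 3])]) .no (.red [.f
  706 5 1, .f 705 1 5, .f 833 5 3, .f 833 3 1] 121 136 [2, 3] [(121, 136, [2, 3])]) .no) .no .no
  .no) .no (.use 83) .no (.use 206) .no) (.red [.t 960 2 3, .t 1080 2 3, .f 961 1 5] 121 136 [2,
  3] [(121, 136, [2, 3]), (136, 136, [])])) .no (.hor [.f 818 3 1, .f 825 1 5] [(119, 121, [4,
  4])]) (.br 970 (.br 841 .no (.red [.f 705 1 3] 105 136 [2, 2, 3] [(105, 136, [2, 2, 3])]) (.use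
  203) .no (.br 971 .no (.con 136 [2, 3, 3]) (.br 706 .no (.br 840 .no (.br 843 .no (.use 60)
  (.con 136 [2, 2, 3, 3]) .no .no .no) (.red [.f 840 3 1] 122 136 [2, 3, 3] [(122, 136, [2, 3,
  3])]) .no .no .no) (.red [.t 705 1 3] 105 136 [2, 2, 3] [(105, 136, [2, 2, 3])]) (.red [.f 826 5
  3, .f 698 3 1, .f 705 1 5, .f 833 5 3, .f 833 3 1] 121 136 [2, 3] [(104, 105, [4]), (121, 136,
  [2, 3])]) (.red [.f 706 5 1, .f 705 1 5, .f 833 5 3, .f 833 3 1] 121 136 [2, 3] [(121, 136, [2,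
  3])]) .no) .no .no .no) (.red [.t 960 2 3, .t 1080 2 3, .f 961 1 5] 121 136 [2, 3] [(121, 136,
  [2, 3]), (136, 136, [])])) (.br 841 .no (.red [.f 705 1 3] 105 136 [2, 2, 3] [(105, 136, [2, 2,
  3])]) (.br 971 .no (.hor [.f 842 1 5] []) (.br 840 .no (.use 80) (.hor [.f 840 3 5] []) .no .no
  .no) .no .no .no) .no .no (.red [.t 960 2 3, .t 1080 2 3, .f 961 1 5] 121 136 [2, 3] [(121, 136,
  [2, 3]), (136, 136, [])])) (.use 83) .no (.br 840 .no (.use 99) (.red [.f 840 3 1] 122 136 [2,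
  3, 3] [(122, 136, [2, 3, 3])]) .no (.red [.t 960 2 3, .t 1080 2 3, .f 961 1 5] 121 136 [2, 3]
  [(121, 136, [2, 3]), (136, 136, [])]) .no) .no) .no

def c28t332 : Tr4 :=
  .br 1091 (.br 1211 (.br 834 .no (.hor [.f 705 1 5] []) (.use 0) (.br 1097 (.use 109) .no (.br
  1202 (.use 103) .no .no (.red [.f 1066 3 1, .f 1074 1 3] 151 136 [4, 1] [(150, 136, [4, 1, 4]),
  (151, 136, [4, 1])]) (.red [.t 1082 1 4, .t 962 1 4, .f 1081 3 5] 136 136 [] [(136, 136, []),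
  (151, 136, [4, 1])]) (.br 1098 (.use 154) (.red [.f 962 1 3, .f 961 3 5, .t 825 1 3, .f 953 3 1,
  .t 1089 2 3] 136 136 [] [(120, 136, [2]), (136, 136, [])]) (.hor [.f 1097 3 5] []) .no (.use
  166) .no)) .no (.red [.t 961 3 1, .t 825 1 3, .f 953 3 1, .f 961 1 3] 136 136 [] [(120, 136,
  [2]), (136, 136, [])]) .no) (.br 1202 (.use 103) .no .no (.red [.f 1066 3 1, .f 1074 1 3] 151
  136 [4, 1] [(150, 136, [4, 1, 4]), (151, 136, [4, 1])]) (.red [.t 1082 1 4, .t 962 1 4, .f 1081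
  3 5] 136 136 [] [(136, 136, []), (151, 136, [4, 1])]) (.br 945 (.use 175) (.hor [.f 817 1 3, .f
  945 3 5] [(119, 121, [4, 4])]) .no (.use 163) .no (.use 165))) .no) .no .no (.red [.f 1075 3 1,
  .f 1083 1 3, .f 955 3 1, .f 962 1 5] 136 136 [] [(136, 136, []), (151, 136, [4, 1]), (152, 136,
  [1])]) .no .no) .no (.br 1211 (.br 1202 (.use 103) .no .no (.red [.f 1066 3 1, .f 1074 1 3] 151
  136 [4, 1] [(150, 136, [4, 1, 4]), (151, 136, [4, 1])]) (.red [.t 1082 1 4, .t 962 1 4, .f 1081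
  3 5] 136 136 [] [(136, 136, []), (151, 136, [4, 1])]) (.br 834 .no (.hor [.f 705 1 5] []) (.use
  0) (.br 1098 (.use 183) (.red [.f 962 1 3, .f 961 3 5, .t 825 1 3, .f 953 3 1, .t 1089 2 3] 136
  136 [] [(120, 136, [2]), (136, 136, [])]) (.br 1097 (.br 1217 (.br 1209 (.use 178) .no .no .no
  .no (.br 1216 (.hor [.f 1216 1 5] []) .no (.br 970 .no (.use 188) (.use 83) .no (.use 189) .no)
  .no .no .no)) .no .no (.use 179) (.use 190) (.use 181)) .no (.hor [.f 1097 3 5] []) .no .no .no)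
  .no .no (.red [.t 961 3 1, .t 825 1 3, .f 953 3 1, .f 961 1 3] 136 136 [] [(120, 136, [2]),
  (136, 136, [])])) (.use 207) .no)) .no (.br 834 .no (.hor [.f 705 1 5] []) (.use 0) (.br 970
  (.red [.f 962 1 3, .f 961 3 5, .t 825 1 3, .f 953 3 1, .t 1089 2 3] 136 136 [] [(120, 136, [2]),
  (136, 136, [])]) (.br 841 .no (.red [.f 705 1 3, .f 833 3 1] 121 136 [2, 3] [(105, 136, [2, 2,
  3]), (121, 136, [2, 3])]) (.use 330) .no .no (.red [.t 960 2 3, .t 1080 2 3, .f 961 1 5] 121 136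
  [2, 3] [(121, 136, [2, 3]), (136, 136, [])])) (.use 83) .no (.use 189) .no) (.use 331) .no)
  (.red [.f 1075 3 1, .f 1082 1 5] 151 136 [4, 1] [(151, 136, [4, 1])]) .no .no) .no .no .no

def c28t333 : Tr4 :=
  .br 1225 (.red [.f 1217 1 3, .f 1216 3 5] 169 136 [3, 1, 1] [(169, 136, [3, 1, 1])]) .no (.use
  167) .no .no .no

def c28t334 : Tr4 :=
  .br 971 (.hor [.f 970 1 5] []) (.con 136 [2, 3, 3]) (.use 174) .no .no .no

def c28t335 : Tr4 :=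
  .br 840 .no (.br 841 .no (.hor [.f 712 1 5] []) (.br 842 .no (.con 136 [2, 3, 3, 2]) (.hor [.f
  841 3 5] []) .no (.con 136 [2, 3, 2, 3]) .no) .no (.red [.f 833 5 3, .f 833 3 1, .f 825 1 3] 121
  136 [2, 3] [(120, 136, [2]), (121, 136, [2, 3])]) .no) (.red [.f 840 3 1] 122 136 [2, 3, 3]
  [(122, 136, [2, 3, 3])]) .no (.red [.t 960 2 3, .t 1080 2 3, .f 961 1 5] 121 136 [2, 3] [(121,
  136, [2, 3]), (136, 136, [])]) .no

def c28t336 : Tr4 :=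
  .br 970 (.use 335) (.red [.t 969 4 2, .f 825 1 3] 121 136 [2, 3] [(120, 136, [2]), (121, 136,
  [2, 3])]) (.use 83) .no (.br 840 .no (.br 841 .no (.hor [.f 712 1 5] []) (.br 842 .no (.con 136
  [2, 3, 3, 2]) (.hor [.f 841 3 5] []) .no (.con 136 [2, 3, 2, 3]) .no) .no (.red [.f 833 5 3, .f
  833 3 1, .f 825 1 3] 121 136 [2, 3] [(120, 136, [2]), (121, 136, [2, 3])]) .no) (.red [.f 840 3
  1] 122 136 [2, 3, 3] [(122, 136, [2, 3, 3])]) .no (.red [.t 960 2 3, .t 1080 2 3, .f 961 1 5]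
  121 136 [2, 3] [(121, 136, [2, 3]), (136, 136, [])]) .no) .no

def c28l11 : List Tr4 :=
  [c28t329, c28t330, c28t331, c28t332, c28t333, c28t334, c28t335, c28t336]

theorem c28k11 : chkLF ⟨4, 1, 0, true, -8⟩ false 8 c28N 329 c28l11 = true := by decide +kernel

def c28t337 : Tr4 :=
  .br 1091 (.br 1211 (.br 1088 (.use 16) .no (.br 968 .no (.red [.f 832 1 3, .f 960 3 1, .f 952 1
  3, .f 1080 3 5] 121 136 [2, 3] [(121, 136, [2, 3]), (136, 136, []), (137, 136, [3])]) (.br 1097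
  (.use 109) .no (.br 1202 (.use 103) .no .no (.red [.f 1066 3 1, .f 1074 1 3] 151 136 [4, 1]
  [(150, 136, [4, 1, 4]), (151, 136, [4, 1])]) (.red [.t 1082 1 4, .t 962 1 4, .f 1081 3 5] 136
  136 [] [(136, 136, []), (151, 136, [4, 1])]) (.br 1098 (.use 154) (.br 945 (.br 1217 (.br 1216
  (.hor [.f 1216 1 5] []) .no (.br 1218 (.hor [.f 1217 1 5] []) .no (.use 333) .no .no .no) (.use
  108) .no .no) .no (.br 1218 (.use 334) .no (.hor [.f 1217 3 5] []) .no .no .no) (.red [.f 1081 3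
  1, .f 1081 1 5, .t 945 1 3, .f 954 1 3] 136 136 [] [(135, 136, [4]), (136, 136, []), (152, 136,
  [1])]) (.red [.t 1081 3 1, .t 945 1 3, .f 954 1 3] 136 136 [] [(135, 136, [4]), (136, 136, []),
  (152, 136, [1])]) (.use 106)) (.hor [.f 817 1 3, .f 945 3 5] [(119, 121, [4, 4])]) .no (.use
  163) .no (.use 165)) (.hor [.f 1097 3 5] []) .no (.use 166) .no)) .no (.red [.t 961 3 1, .f 833
  5 1, .f 825 1 3, .f 953 3 1, .f 961 1 3] 136 136 [] [(120, 136, [2]), (136, 136, [])]) .no) .no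
  .no .no) .no .no .no) .no .no (.red [.f 1075 3 1, .f 1083 1 3, .f 955 3 1, .f 962 1 5] 136 136
  [] [(136, 136, []), (151, 136, [4, 1]), (152, 136, [1])]) .no .no) .no (.br 1088 (.br 1211 (.use
  28) .no (.br 1217 (.use 41) .no (.br 1097 .no .no (.br 1096 (.red [.f 1088 1 3] 153 136 [3, 1]
  [(153, 136, [3, 1])]) (.br 970 (.con 136 [3, 3]) (.red [.t 969 4 2, .f 825 1 3] 121 136 [2, 3]
  [(120, 136, [2]), (121, 136, [2, 3])]) (.use 20) .no (.br 1098 (.red [.t 1090 2 3, .t 1210 2 3,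
  .f 1081 3 5, .t 1225 4 2, .f 962 3 1] 153 136 [3, 1] [(152, 136, [1]), (153, 136, [3, 1])]) .no
  (.use 17) .no .no .no) .no) (.hor [.f 1096 3 5] []) .no .no .no) .no (.red [.t 961 3 1, .f 833 5
  1, .f 825 1 3, .f 953 3 1, .f 961 1 3] 136 136 [] [(120, 136, [2]), (136, 136, [])]) (.red [.t
  1216 2 3] 153 136 [3, 1] [(153, 136, [3, 1])])) (.con 136 [1, 1]) (.br 1098 (.red [.t 1081 3 1,
  .f 1210 3 5, .t 1098 1 4] 153 136 [3, 1] [(152, 136, [1]), (153, 136, [3, 1])]) (.br 968 (.con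
  136 [3, 3]) (.red [.f 832 1 3] 121 136 [2, 3] [(121, 136, [2, 3])]) (.use 335) .no .no .no) (.br
  968 (.use 17) (.red [.f 832 1 3] 121 136 [2, 3] [(121, 136, [2, 3])]) (.use 95) .no .no .no) .no
  .no (.red [.t 961 3 1, .f 833 5 1, .f 825 1 3, .f 953 3 1, .f 961 1 3] 136 136 [] [(120, 136,
  [2]), (136, 136, [])])) .no) (.red [.f 1075 3 1, .f 1082 1 5] 151 136 [4, 1] [(151, 136, [4,
  1])]) .no .no) .no (.br 968 .no (.red [.f 832 1 3, .f 960 3 1, .f 952 1 3, .f 1080 3 5] 121 136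
  [2, 3] [(121, 136, [2, 3]), (136, 136, []), (137, 136, [3])]) (.use 336) .no .no .no) .no .no
  .no) .no .no .no

def c28t338 : Tr4 :=
  .br 1202 (.use 7) .no .no (.hor [.f 1193 3 5] []) (.red [.t 1082 1 4, .t 962 1 4, .f 1081 3 5]
  136 136 [] [(136, 136, []), (151, 136, [4, 1])]) .no

def c28t339 : Tr4 :=
  .br 1065 (.red [.t 1193 2 3, .f 1074 1 3] 151 136 [4, 1] [(150, 136, [4, 4, 1]), (151, 136, [4,
  1])]) .no .no (.hor [.f 1057 3 5] []) .no (.red [.t 944 1 4] 134 136 [4, 4] [(134, 136, [4,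
  4])])

def c28t340 : Tr4 :=
  .br 1203 (.red [.f 1203 1 3] 167 136 [4, 1, 1] [(167, 136, [4, 1, 1])]) .no .no (.hor [.f 1194 3
  5] []) .no .no

def c28t341 : Tr4 :=
  .br 1202 (.use 8) .no .no (.use 340) (.red [.t 1082 1 4, .t 962 1 4, .f 1081 3 5] 136 136 []
  [(136, 136, []), (151, 136, [4, 1])]) .no

def c28t342 : Tr4 :=
  .br 1203 (.hor [.f 1211 3 1, .f 1203 1 3, .f 1330 3 5] [(167, 136, [4, 1, 1]), (168, 136, [1,
  1])]) .no .no (.hor [.f 1194 3 5] []) .no .no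

def c28t343 : Tr4 :=
  .br 1339 (.use 228) .no (.hor [.f 1338 3 5] []) (.con 136 [4, 1, 1, 1]) .no .no

def c28t344 : Tr4 :=
  .br 1339 (.con 136 [1, 1, 1]) .no (.hor [.f 1338 3 5] []) (.con 136 [1, 1, 1]) .no .no

def c28t345 : Tr4 :=
  .br 1202 (.use 303) .no .no (.hor [.f 1193 3 5] []) (.red [.t 1082 1 4, .t 962 1 4, .f 1081 3 5]
  136 136 [] [(136, 136, []), (151, 136, [4, 1])]) .no

def c28t346 : Tr4 :=
  .br 1329 (.red [.t 1329 1 3, .f 1338 1 5, .t 1218 1 4, .f 1203 1 3] 167 136 [1, 1, 4] [(167,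
  136, [1, 1, 4]), (168, 136, [1, 1]), (183, 167, [1])]) .no .no .no .no .no

def c28t347 : Tr4 :=
  .br 1465 (.hor [.f 1464 1 5] []) .no .no (.con 136 [4, 4, 1, 1, 1, 3, 2]) (.use 346) .no

def c28t348 : Tr4 :=
  .br 840 .no (.br 817 .no (.br 1464 (.br 1203 (.br 938 .no (.br 827 .no (.br 698 .no (.br 706 .no
  (.br 697 .no (.hor [.f 570 1 3, .f 698 3 1, .f 698 1 5] [(88, 121, [4, 4, 2, 2, 3]), (104, 106,
  [4, 4])]) .no .no .no (.con 136 [2, 2, 4, 1, 3, 3])) (.br 707 .no (.br 713 .no (.br 578 .no (.br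
  696 (.br 569 (.br 577 .no (.hor [.f 449 1 5] []) .no .no .no (.con 136 [2, 2, 3, 2, 4, 1, 3,
  3])) (.con 136 [2, 2, 2, 4, 1, 3, 3, 3]) (.con 136 [2, 2, 2, 4, 1, 3, 3, 3]) (.con 136 [2, 2, 2,
  4, 1, 3, 3, 3]) .no (.con 136 [2, 2, 2, 4, 1, 3, 3, 3])) (.con 136 [2, 2, 4, 1, 3, 3]) (.con 136
  [2, 2, 4, 1, 3, 3]) (.con 136 [2, 2, 4, 1, 3, 3]) (.con 136 [2, 2, 4, 1, 3, 3]) .no) (.hor [.f
  578 3 1, .f 578 1 5] [(89, 106, [4, 2])]) .no .no (.hor [.t 713 2 4, .f 578 1 5] [(89, 106, [4,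
  2])])) (.red [.f 713 3 1, .f 705 1 3] 106 136 [2, 2, 3, 3] [(105, 136, [2, 2, 3]), (106, 136,
  [2, 2, 3, 3])]) .no .no .no) (.hor [.f 706 3 5] []) .no .no .no) .no (.hor [.t 826 3 2, .f 705 1
  5] [(104, 106, [4, 4])]) .no) (.hor [.f 698 3 1, .f 698 1 5] [(104, 106, [4, 4])]) (.br 819
  (.con 136 [2, 4, 4, 2, 3, 1, 3, 3]) (.con 136 [2, 4, 4, 2, 3, 1, 3, 3]) .no (.con 136 [2, 4, 4,
  2, 3, 1, 3, 3]) .no (.br 939 .no (.con 136 [4, 4, 2, 3, 3, 3]) (.use 347) (.con 136 [4, 4, 2, 3,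
  3, 3]) .no .no)) .no (.hor [.t 833 2 4, .f 698 1 5] [(104, 106, [4, 4])])) .no (.br 939 .no
  (.con 136 [4, 4, 2, 3, 3, 3]) (.use 347) (.con 136 [4, 4, 2, 3, 3, 3]) .no .no) .no .no) .no
  (.br 939 .no (.br 947 .no (.br 1465 (.hor [.f 1464 1 5] []) .no .no (.con 136 [4, 4, 1, 1, 1, 3,
  2]) (.use 346) .no) .no .no .no .no) (.use 347) (.hor [.f 930 3 5] []) .no .no) (.red [.f 938 5
  1, .t 937 3 1, .f 1066 3 1] 150 136 [4, 4, 1] [(134, 136, [4, 4]), (150, 136, [4, 4, 1])]) .no)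
  .no .no (.hor [.f 1194 3 5] []) .no .no) .no (.red [.f 1336 3 1, .f 1344 1 5] 184 136 [1, 1, 1]
  [(184, 136, [1, 1, 1])]) .no (.red [.t 1344 4 1] 184 136 [1, 1, 1] [(184, 136, [1, 1, 1])]) .no)
  .no (.hor [.f 809 3 1, .f 816 1 5] [(118, 150, [2, 2])]) (.red [.t 953 2 4, .t 1089 4 2, .f 826
  3 1] 136 136 [] [(119, 120, [4]), (120, 136, [2]), (136, 136, [])]) .no) (.hor [.f 840 3 5] [])
  .no .no .no

def c28t349 : Tr4 :=
  .br 1338 (.con 136 [1, 4, 1, 1]) .no .no (.hor [.f 1330 3 5] []) .no .no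

def c28t350 : Tr4 :=
  .br 1193 (.red [.t 1320 3 2, .f 1193 3 5, .f 1073 5 1, .f 1074 1 3] 151 136 [4, 1] [(151, 136,
  [4, 1]), (166, 165, [3])]) (.red [.t 1193 2 3, .f 1064 3 5] 150 136 [4, 4, 1] [(150, 136, [4, 4,
  1])]) .no (.br 1192 .no .no .no (.hor [.f 1184 3 5] []) .no .no) .no (.red [.f 1192 5 3, .f 1064
  3 1] 150 136 [4, 4, 1] [(150, 136, [4, 4, 1])])

def c28t351 : Tr4 :=
  .br 1328 (.red [.f 1328 1 3, .t 1336 4 2] 167 136 [4, 1, 1] [(167, 136, [4, 1, 1]), (183, 136,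
  [4, 1, 1, 1])]) .no .no (.use 350) (.red [.f 1200 5 1, .f 1201 1 3] 167 136 [4, 1, 1] [(167,
  136, [4, 1, 1])]) .no

def c28t352 : Tr4 :=
  .br 1465 (.hor [.f 1464 1 5] []) .no .no (.con 136 [4, 1, 1, 4, 1, 3, 2]) (.use 346) .no

def c28t353 : Tr4 :=
  .br 945 .no (.hor [.f 817 1 3, .f 945 3 5] [(119, 121, [4, 4])]) .no (.br 1201 (.red [.f 1201 1
  3] 167 136 [4, 1, 1] [(167, 136, [4, 1, 1])]) .no .no (.use 345) (.use 324) (.br 1345 (.br 1202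
  (.use 36) .no .no (.br 1066 .no (.red [.t 937 3 1, .f 1066 3 1] 150 136 [4, 1, 4] [(134, 136,
  [4, 4]), (150, 136, [4, 1, 4])]) .no (.br 1072 .no (.use 339) .no (.br 1065 (.red [.t 1193 2 3,
  .f 1064 3 5] 150 136 [4, 4, 1] [(150, 136, [4, 4, 1])]) .no .no (.hor [.f 1057 3 5] []) .no .no)
  .no .no) (.br 1072 .no (.br 1065 (.red [.t 1193 2 3, .f 1074 1 3] 151 136 [4, 1] [(150, 136, [4,
  4, 1]), (151, 136, [4, 1])]) .no .no (.br 1064 (.con 136 [4, 4, 4, 1]) (.red [.f 936 1 3, .f 936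
  3 5] 134 136 [4, 4] [(134, 136, [4, 4])]) .no (.hor [.f 1056 3 5] []) .no .no) .no (.red [.t 944
  1 4] 134 136 [4, 4] [(134, 136, [4, 4])])) .no (.br 944 .no (.br 835 .no (.br 840 .no (.br 843
  .no (.red [.f 707 1 3] 105 136 [2, 2, 3] [(105, 136, [2, 2, 3])]) (.con 136 [2, 2, 3, 3]) .no
  .no .no) (.hor [.f 840 3 5] []) .no .no .no) (.br 1065 (.red [.t 1193 2 3, .f 1064 3 5] 150 136
  [4, 4, 1] [(150, 136, [4, 4, 1])]) .no .no (.br 1193 (.br 1328 (.br 1336 (.red [.f 1328 1 3, .t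
  1336 4 2] 167 136 [4, 1, 1] [(167, 136, [4, 1, 1]), (183, 136, [4, 1, 1, 1])]) .no (.br 1339
  (.br 1338 (.hor [.f 1338 1 5] []) .no .no (.use 348) .no .no) .no (.hor [.f 1211 3 1, .f 1218 1
  5] [(168, 136, [1, 1])]) (.use 349) .no (.hor [.t 1218 1 4, .t 1098 1 4, .f 1217 3 5] [(153,
  136, [3, 1]), (168, 136, [1, 1])])) .no .no .no) .no (.red [.t 1336 4 2] 167 136 [4, 1, 1]
  [(167, 136, [4, 1, 1])]) (.red [.t 1320 3 2, .f 1193 3 5, .f 1073 5 1, .f 1074 1 3] 151 136 [4,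
  1] [(151, 136, [4, 1]), (166, 165, [3])]) (.red [.f 1200 5 1, .f 1201 1 3] 167 136 [4, 1, 1]
  [(167, 136, [4, 1, 1])]) .no) .no .no (.red [.f 1057 3 1, .t 1193 2 3, .f 1064 3 5] 150 136 [4,
  4, 1] [(149, 136, [4, 4, 4, 1]), (150, 136, [4, 4, 1])]) .no (.red [.f 1192 5 3, .f 1064 3 1]
  150 136 [4, 4, 1] [(150, 136, [4, 4, 1])])) .no .no) (.hor [.f 826 3 5] []) .no .no) .no (.hor
  [.f 936 3 5] []) .no .no) .no .no) (.red [.f 1065 5 3, .f 1066 3 1, .f 1074 1 3] 151 136 [4, 1]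
  [(150, 136, [4, 1, 4]), (151, 136, [4, 1])])) (.red [.t 1082 1 4, .t 962 1 4, .f 1081 3 5] 136
  136 [] [(136, 136, []), (151, 136, [4, 1])]) .no) .no (.hor [.f 1217 3 1, .f 1217 1 5] [(169,
  167, [3, 3])]) .no .no (.red [.t 1208 3 1, .f 1200 5 3, .t 1209 4 2, .t 1345 4 2] 151 136 [4, 1]
  [(151, 136, [4, 1])]))) .no (.br 1201 (.red [.f 1201 1 3] 167 136 [4, 1, 1] [(167, 136, [4, 1,
  1])]) .no .no (.use 345) (.use 324) (.br 1345 (.br 1202 (.use 36) .no .no (.br 1072 .no .no .no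
  (.br 1339 (.br 1338 (.hor [.f 1338 1 5] []) .no .no (.br 1336 (.use 351) .no (.br 1328 (.br 1464
  (.br 1065 (.red [.t 1193 2 3, .f 1064 3 5] 150 136 [4, 4, 1] [(150, 136, [4, 4, 1])]) (.br 1203
  (.br 1192 (.br 1329 (.hor [.f 1328 1 5] []) .no .no (.red [.t 1320 2 3, .f 1064 3 1] 150 136 [4,
  4, 1] [(150, 136, [4, 4, 1]), (166, 136, [4, 4, 1, 1])]) .no .no) .no .no (.br 1193 (.use 352)
  .no .no (.hor [.f 1184 3 5] []) .no .no) (.red [.f 1192 5 3, .f 1064 3 1] 150 136 [4, 4, 1]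
  [(150, 136, [4, 4, 1])]) .no) .no .no (.hor [.f 1194 3 5] []) .no .no) .no (.br 1193 (.br 1203
  (.use 352) .no .no (.hor [.f 1194 3 5] []) .no .no) .no .no (.red [.f 1057 3 1, .t 1193 2 3, .f
  1064 3 5] 150 136 [4, 4, 1] [(149, 136, [4, 4, 1, 4]), (150, 136, [4, 4, 1])]) .no (.red [.f
  1192 5 3, .f 1064 3 1] 150 136 [4, 4, 1] [(150, 136, [4, 4, 1])])) (.red [.f 1065 5 3, .f 1066 3
  1, .f 1074 1 3] 151 136 [4, 1] [(150, 136, [4, 4, 1]), (151, 136, [4, 1])]) .no) .no (.red [.f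
  1336 3 1, .f 1344 1 5] 184 136 [1, 1, 1] [(184, 136, [1, 1, 1])]) .no (.red [.t 1344 4 1] 184
  136 [1, 1, 1] [(184, 136, [1, 1, 1])]) .no) .no .no (.use 350) (.red [.f 1208 3 1, .f 1200 5 1,
  .f 1201 1 3, .f 1208 1 3] 167 136 [4, 1, 1] [(167, 136, [4, 1, 1])]) .no) (.red [.t 1336 4 2]
  167 136 [4, 1, 1] [(167, 136, [4, 1, 1])]) .no .no) .no .no) .no (.hor [.f 1211 3 1, .f 1218 1
  5] [(168, 136, [1, 1])]) (.br 1336 (.use 351) .no (.use 349) (.red [.t 1336 4 2] 167 136 [4, 1,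
  1] [(167, 136, [4, 1, 1])]) .no .no) .no (.hor [.t 1218 1 4, .t 1098 1 4, .f 1217 3 5] [(153,
  136, [3, 1]), (168, 136, [1, 1])])) .no .no) (.red [.t 1082 1 4, .t 962 1 4, .f 1081 3 5] 136
  136 [] [(136, 136, []), (151, 136, [4, 1])]) .no) .no (.hor [.f 1217 3 1, .f 1217 1 5] [(169,
  167, [3, 3])]) .no .no (.red [.t 1208 3 1, .f 1200 5 3, .t 1209 4 2, .t 1345 4 2] 151 136 [4, 1]
  [(151, 136, [4, 1])])))

def c28t354 : Tr4 :=
  .br 1217 (.br 833 .no (.br 1218 (.hor [.f 1217 1 5] []) .no (.br 1088 .no .no (.br 834 .no (.hor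
  [.f 705 1 5] []) (.use 0) (.br 1098 .no (.red [.f 962 1 3, .f 961 3 5, .t 825 1 3, .f 953 3 1,
  .t 1089 2 3] 136 136 [] [(120, 136, [2]), (136, 136, [])]) (.br 1097 (.br 1201 (.red [.f 1201 1
  3] 167 136 [4, 1, 1] [(167, 136, [4, 1, 1])]) .no .no (.br 1202 (.br 1339 (.use 302) .no (.br
  1338 (.use 227) .no (.hor [.f 1338 3 5] []) .no .no .no) (.con 136 [4, 1, 1, 4]) .no (.use 230))
  .no .no (.hor [.f 1193 3 5] []) (.red [.t 1082 1 4, .t 962 1 4, .f 1081 3 5] 136 136 [] [(136,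
  136, []), (151, 136, [4, 1])]) .no) (.red [.f 1073 5 1, .f 1074 1 3, .f 946 3 1] 151 136 [4, 1]
  [(135, 136, [4]), (151, 136, [4, 1])]) (.br 1202 (.use 36) .no .no (.br 1336 (.br 1346 (.br 1338
  (.use 225) .no .no (.br 1347 (.hor [.f 1346 1 5] []) .no (.use 223) (.use 342) .no .no) (.use
  224) .no) .no (.red [.f 1218 3 1, .f 1217 1 5] 169 136 [3, 1, 1] [(169, 136, [3, 1, 1])]) (.use
  343) (.use 226) .no) .no (.br 1346 (.br 1338 (.use 225) .no .no (.br 1347 (.hor [.f 1346 1 5]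
  []) .no (.con 136 [3, 1, 1, 1]) (.use 342) .no .no) (.use 224) .no) .no (.red [.f 1218 3 1, .f
  1217 1 5] 169 136 [3, 1, 1] [(169, 136, [3, 1, 1])]) (.use 344) (.use 226) .no) (.red [.t 1336 4
  2] 167 136 [4, 1, 1] [(167, 136, [4, 1, 1])]) .no .no) (.red [.t 1082 1 4, .t 962 1 4, .f 1081 3
  5] 136 136 [] [(136, 136, []), (151, 136, [4, 1])]) .no)) .no (.hor [.f 1097 3 5] []) .no .no
  .no) .no .no (.red [.t 961 3 1, .t 825 1 3, .f 953 3 1, .f 961 1 3] 136 136 [] [(120, 136, [2]),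
  (136, 136, [])])) (.use 331) .no) .no .no .no) .no .no .no) (.red [.f 833 3 1, .f 825 1 3] 121
  136 [2, 3] [(120, 136, [2]), (121, 136, [2, 3])]) .no (.use 336) .no) .no (.br 833 .no (.br 1218
  (.br 1088 .no .no (.br 834 .no (.hor [.f 705 1 5] []) (.use 0) (.br 1098 (.br 970 .no (.br 841
  .no (.red [.f 705 1 3, .f 833 3 1] 121 136 [2, 3] [(105, 136, [2, 2, 3]), (121, 136, [2, 3])])
  (.br 971 .no (.hor [.f 842 1 5] []) (.use 353) .no .no .no) .no .no (.red [.t 960 2 3, .t 1080 2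
  3, .f 961 1 5] 121 136 [2, 3] [(121, 136, [2, 3]), (136, 136, [])])) (.use 83) .no (.use 189)
  .no) (.red [.f 962 1 3, .f 961 3 5, .t 825 1 3, .f 953 3 1, .t 1089 2 3] 136 136 [] [(120, 136,
  [2]), (136, 136, [])]) (.use 205) .no .no (.red [.t 961 3 1, .t 825 1 3, .f 953 3 1, .f 961 1 3]
  136 136 [] [(120, 136, [2]), (136, 136, [])])) (.use 331) .no) .no .no .no) .no (.hor [.f 1217 3
  5] []) .no .no .no) (.red [.f 833 3 1, .f 825 1 3] 121 136 [2, 3] [(120, 136, [2]), (121, 136,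
  [2, 3])]) .no (.use 336) .no) .no (.red [.t 1081 3 1, .f 1073 5 3, .f 946 3 1, .f 954 1 3] 136
  136 [] [(135, 136, [4]), (136, 136, []), (152, 136, [1])]) .no

def c28t355 : Tr4 :=
  .br 1203 (.red [.f 1203 1 3] 167 136 [4, 1, 1] [(167, 136, [4, 1, 1])]) .no .no (.hor [.f 1194 3
  5] []) .no .no

def c28t356 : Tr4 :=
  .br 1201 (.br 1202 (.hor [.f 1201 1 5] []) .no .no (.use 355) (.red [.t 1082 1 4, .t 962 1 4, .f
  1081 3 5] 136 136 [] [(136, 136, []), (151, 136, [4, 1])]) .no) .no .no (.use 338) (.red [.f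
  1073 5 1, .f 1074 1 3, .f 946 3 1] 151 136 [4, 1] [(135, 136, [4]), (151, 136, [4, 1])]) (.red
  [.f 1200 5 3, .t 1209 4 2, .f 946 3 1] 151 136 [4, 1] [(135, 136, [4]), (151, 136, [4, 1])])

def c28l12 : List Tr4 :=
  [c28t337, c28t338, c28t339, c28t340, c28t341, c28t342, c28t343, c28t344, c28t345, c28t346,
  c28t347, c28t348, c28t349, c28t350, c28t351, c28t352, c28t353, c28t354, c28t355, c28t356]

theorem c28k12 : chkLF ⟨4, 1, 0, true, -8⟩ false 8 c28N 337 c28l12 = true := by decide +kernel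

def c28t357 : Tr4 :=
  .br 1203 (.br 1330 .no .no .no (.red [.f 1194 3 1, .f 1202 1 5, .t 1082 1 4] 151 136 [4, 1]
  [(151, 136, [4, 1]), (166, 150, [1])]) .no .no) .no .no (.hor [.f 1194 3 5] []) .no .no

def c28t358 : Tr4 :=
  .br 1337 (.br 1338 (.use 279) .no .no (.br 1339 (.br 1336 (.hor [.f 1336 1 5] []) .no (.con 136
  [1, 1, 1]) (.red [.t 1328 3 2] 167 136 [4, 1, 1] [(167, 136, [4, 1, 1])]) .no .no) .no (.use
  342) (.hor [.f 1330 3 5] []) .no .no) (.red [.t 1218 1 4] 168 136 [1, 1] [(168, 136, [1, 1])])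
  .no) .no (.red [.f 1208 5 3, .f 1209 3 1, .f 1201 1 3] 168 136 [1, 1] [(167, 136, [4, 1, 1]),
  (168, 136, [1, 1])]) .no (.red [.f 1208 5 3, .t 1217 4 1, .f 1201 1 3] 168 136 [1, 1] [(167,
  136, [4, 1, 1]), (168, 136, [1, 1])]) (.red [.f 1208 5 3, .f 1208 3 5, .f 1208 5 1, .f 1201 1 3]
  167 136 [4, 1, 1] [(167, 136, [4, 1, 1])])

def c28t359 : Tr4 :=
  .br 1336 (.hor [.f 1336 1 5] []) .no (.br 1347 (.con 136 [1, 1, 1]) .no (.con 136 [1, 1, 1])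
  (.red [.f 1211 3 1] 168 136 [1, 1] [(168, 136, [1, 1])]) .no (.con 136 [1, 1, 1])) (.red [.t
  1328 3 2] 167 136 [4, 1, 1] [(167, 136, [4, 1, 1])]) .no .no

def c28t360 : Tr4 :=
  .br 1347 (.hor [.f 1346 1 5] []) .no (.use 284) (.red [.f 1211 3 1] 168 136 [1, 1] [(168, 136,
  [1, 1])]) .no .no

def c28t361 : Tr4 :=
  .br 1339 (.br 1466 (.br 1328 (.red [.f 1328 1 3, .t 1328 3 2] 167 136 [4, 1, 1] [(167, 136, [4,
  1, 1]), (183, 136, [4, 1, 1, 1])]) .no .no (.br 1203 (.br 1330 (.br 1465 (.hor [.f 1465 1 5] [])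
  .no (.con 136 [1, 1, 1, 1]) (.red [.t 1457 3 2, .f 1336 1 5] 183 136 [4, 1, 1, 1] [(183, 136,
  [4, 1, 1, 1])]) .no .no) .no .no (.red [.f 1194 3 1, .f 1202 1 5, .t 1082 1 4] 151 136 [4, 1]
  [(151, 136, [4, 1]), (166, 167, [4])]) .no .no) .no .no (.hor [.f 1194 3 5] []) .no .no) .no
  .no) .no (.red [.t 1466 3 2] 184 136 [1, 1, 1] [(184, 136, [1, 1, 1])]) (.use 357) .no (.hor [.f
  1337 5 1, .f 1336 1 5, .f 1338 1 5] [])) .no .no (.con 136 [4, 1, 1, 1]) .no .no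

def c28t362 : Tr4 :=
  .br 1200 (.hor [.f 1200 1 5] []) .no .no (.red [.f 1064 3 1] 150 136 [4, 4, 1] [(150, 136, [4,
  4, 1])]) .no .no

def c28t363 : Tr4 :=
  .br 1346 (.use 360) .no (.red [.f 1218 3 1] 169 136 [1, 3, 1] [(169, 136, [1, 3, 1])]) .no (.br
  1336 (.br 1072 (.use 361) .no .no (.use 362) .no .no) .no (.con 136 [1, 1, 1]) (.red [.t 1328 3
  2] 167 136 [4, 1, 1] [(167, 136, [4, 1, 1])]) .no .no) (.red [.f 1337 5 3, .f 1208 5 3, .f 1209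
  3 1, .f 1201 1 3] 168 136 [1, 1] [(167, 136, [4, 1, 1]), (168, 136, [1, 1])])

def c28t364 : Tr4 :=
  .br 1202 (.br 1218 (.use 325) .no (.br 1339 (.use 302) .no (.red [.f 1211 3 1] 168 136 [1, 1]
  [(168, 136, [1, 1])]) (.con 136 [4, 1, 1, 4]) .no (.br 1203 (.hor [.f 1202 1 5] []) .no .no
  (.con 136 [4, 1, 1, 4]) .no .no)) .no .no .no) .no .no (.hor [.f 1193 3 5] []) (.red [.t 1082 1
  4, .t 962 1 4, .f 1081 3 5] 136 136 [] [(136, 136, []), (151, 136, [4, 1])]) .no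

def c28t365 : Tr4 :=
  .br 1217 (.use 250) .no (.br 1216 (.br 1218 (.br 833 .no (.br 834 .no (.hor [.f 705 1 5] [])
  (.use 0) (.br 1098 (.br 1201 (.br 970 .no (.br 841 .no (.red [.f 705 1 3, .f 833 3 1] 121 136
  [2, 3] [(105, 136, [2, 2, 3]), (121, 136, [2, 3])]) (.br 1345 (.br 1337 (.red [.f 1337 1 3, .t
  1344 2 4] 168 136 [1, 1] [(168, 136, [1, 1]), (184, 136, [1, 1, 1])]) .no .no .no (.br 1202
  (.hor [.f 1201 1 5] []) .no .no (.br 971 .no (.hor [.f 842 1 5] []) (.br 1097 .no .no (.br 1336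
  (.br 1339 (.br 1347 (.red [.f 1339 1 3] 184 136 [1, 1, 1] [(184, 136, [1, 1, 1])]) .no (.br 1224
  (.hor [.f 1216 1 3, .f 1216 3 5] [(169, 168, [3])]) .no (.br 1353 (.use 305) .no (.br 1106 (.hor
  [.f 1098 1 3, .f 1097 3 5] [(154, 121, [3, 1, 1])]) (.br 1466 (.use 315) .no (.red [.t 1473 2 4,
  .f 1338 1 5] 184 136 [1, 1, 1] [(184, 136, [1, 1, 1])]) (.use 357) .no (.hor [.f 1337 5 1, .f
  1336 1 5, .f 1338 1 5] [])) (.use 313) .no (.use 312) .no) .no (.hor [.t 1217 3 1, .f 1346 3 5]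
  [(169, 168, [3])]) (.red [.t 1216 1 3, .f 1208 5 3, .t 1217 4 1] 168 136 [1, 1] [(168, 136, [1,
  1]), (169, 168, [3])])) .no .no .no) .no .no .no) .no (.red [.f 1211 3 1, .f 1218 1 5] 168 136
  [1, 1] [(168, 136, [1, 1])]) (.con 136 [4, 1, 1, 1]) .no .no) .no .no (.red [.t 1328 3 2, .f
  1208 1 3] 168 136 [1, 1] [(167, 136, [4, 1, 1]), (168, 136, [1, 1])]) .no .no) .no .no .no) .no
  .no .no) (.red [.t 1082 1 4, .t 962 1 4, .f 1081 3 5] 136 136 [] [(136, 136, []), (151, 136, [4,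
  1])]) .no) (.red [.f 1208 5 1, .f 1201 1 3] 167 136 [4, 1, 1] [(167, 136, [4, 1, 1])])) .no
  (.hor [.f 1217 3 1, .f 1216 1 5] [(169, 168, [3])]) (.red [.t 1344 2 4, .f 1201 1 3] 168 136 [1,
  1] [(167, 136, [4, 1, 1]), (168, 136, [1, 1])]) .no .no) .no .no (.red [.t 960 2 3, .t 1080 2 3,
  .f 961 1 5] 121 136 [2, 3] [(121, 136, [2, 3]), (136, 136, [])])) (.use 83) .no (.use 189) .no)
  .no .no (.use 345) (.red [.f 1073 5 1, .f 1074 1 3, .f 946 3 1] 151 136 [4, 1] [(135, 136, [4]),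
  (151, 136, [4, 1])]) (.red [.f 1200 5 3, .t 1209 4 2, .f 946 3 1] 151 136 [4, 1] [(135, 136,
  [4]), (151, 136, [4, 1])])) (.red [.f 962 1 3, .f 961 3 5, .t 825 1 3, .f 953 3 1, .t 1089 2 3]
  136 136 [] [(120, 136, [2]), (136, 136, [])]) (.use 205) .no .no (.red [.t 961 3 1, .t 825 1 3,
  .f 953 3 1, .f 961 1 3] 136 136 [] [(120, 136, [2]), (136, 136, [])])) (.use 331) .no) (.red [.f
  833 3 1, .f 825 1 3] 121 136 [2, 3] [(120, 136, [2]), (121, 136, [2, 3])]) .no (.use 336) .no)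
  .no (.hor [.f 1217 3 5] []) .no .no .no) .no (.hor [.f 1216 3 5] []) .no .no .no) .no (.red [.t
  1081 3 1, .f 1073 5 3, .f 946 3 1, .f 954 1 3] 136 136 [] [(135, 136, [4]), (136, 136, []),
  (152, 136, [1])]) (.br 1201 (.br 1202 (.hor [.f 1201 1 5] []) .no .no (.br 945 .no (.hor [.f 817
  1 3, .f 945 3 5] [(119, 121, [4, 4])]) .no (.br 944 (.br 1066 .no (.red [.t 937 3 1, .f 944 1 5]
  134 136 [4, 4] [(134, 136, [4, 4])]) .no (.use 339) (.br 1065 (.red [.t 1193 2 3, .f 1074 1 3]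
  151 136 [4, 1] [(150, 136, [4, 4, 1]), (151, 136, [4, 1])]) .no .no (.br 1064 (.con 136 [4, 4,
  4, 1]) (.red [.f 936 1 3, .f 936 3 5] 134 136 [4, 4] [(134, 136, [4, 4])]) .no (.hor [.f 1056 3
  5] []) .no .no) .no (.red [.t 944 1 4] 134 136 [4, 4] [(134, 136, [4, 4])])) (.red [.f 1065 5 3,
  .f 1066 3 1, .f 1074 1 3] 151 136 [4, 1] [(150, 136, [4, 4, 1]), (151, 136, [4, 1])])) (.br 1218
  (.use 358) .no (.br 1337 (.use 359) .no (.red [.f 1208 5 3, .f 1209 3 1, .f 1201 1 3] 168 136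
  [1, 1] [(167, 136, [4, 1, 1]), (168, 136, [1, 1])]) .no (.use 363) (.red [.f 1208 5 3, .f 1208 3
  5, .f 1208 5 1, .f 1201 1 3] 167 136 [4, 1, 1] [(167, 136, [4, 1, 1])])) .no .no .no) .no (.hor
  [.f 936 3 5] []) .no .no) .no (.br 1218 (.use 358) .no (.br 1337 (.use 359) .no (.red [.f 1208 5
  3, .f 1209 3 1, .f 1201 1 3] 168 136 [1, 1] [(167, 136, [4, 1, 1]), (168, 136, [1, 1])]) .no
  (.br 1346 (.use 360) .no (.red [.f 1218 3 1] 169 136 [3, 1, 1] [(169, 136, [3, 1, 1])]) .no (.br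
  1072 (.br 1336 (.use 361) .no (.con 136 [1, 1, 1]) (.red [.t 1328 3 2] 167 136 [4, 1, 1] [(167,
  136, [4, 1, 1])]) .no .no) .no .no (.use 362) .no .no) (.red [.f 1337 5 3, .f 1208 5 3, .f 1209
  3 1, .f 1201 1 3] 168 136 [1, 1] [(167, 136, [4, 1, 1]), (168, 136, [1, 1])])) (.red [.f 1208 5
  3, .f 1208 3 5, .f 1208 5 1, .f 1201 1 3] 167 136 [4, 1, 1] [(167, 136, [4, 1, 1])])) .no .no
  .no)) (.red [.t 1082 1 4, .t 962 1 4, .f 1081 3 5] 136 136 [] [(136, 136, []), (151, 136, [4,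
  1])]) .no) .no .no (.use 364) (.red [.f 1073 5 1, .f 1074 1 3, .f 946 3 1] 151 136 [4, 1] [(135,
  136, [4]), (151, 136, [4, 1])]) (.red [.f 1200 5 3, .t 1209 4 2, .f 946 3 1] 151 136 [4, 1]
  [(135, 136, [4]), (151, 136, [4, 1])]))

def c28t366 : Tr4 :=
  .br 1074 (.red [.f 1074 1 3, .f 946 3 1] 151 136 [4, 1] [(135, 136, [4]), (151, 136, [4, 1])])
  .no .no (.br 833 .no (.br 1088 (.br 1091 (.br 1211 (.use 16) .no .no (.red [.f 1075 3 1, .f 1083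
  1 3, .f 955 3 1, .f 962 1 5] 136 136 [] [(136, 136, []), (151, 136, [4, 1]), (152, 136, [1])])
  .no .no) .no (.br 1211 (.use 28) .no (.br 1202 (.br 968 (.br 1098 (.use 40) (.con 136 [3, 3])
  (.use 17) .no .no (.br 834 .no (.hor [.f 705 1 5] []) (.use 0) (.red [.t 961 3 1, .t 825 1 3, .f
  953 3 1, .f 961 1 3] 136 136 [] [(120, 136, [2]), (136, 136, [])]) (.use 62) .no)) (.red [.f 832
  1 3] 121 136 [2, 3] [(121, 136, [2, 3])]) (.br 1217 (.use 41) .no (.use 59) (.con 136 [1, 1])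
  (.br 1073 (.use 2) (.use 44) .no (.hor [.f 1065 3 5] []) .no (.br 945 .no (.hor [.f 817 1 3, .f
  945 3 5] [(119, 121, [4, 4])]) .no (.br 1208 (.br 1209 (.hor [.f 1208 1 5] []) .no .no (.br 840
  .no (.use 70) (.red [.f 840 3 1, .f 832 1 3, .f 960 3 5] 121 136 [2, 3] [(121, 136, [2, 3]),
  (122, 136, [2, 3, 3])]) .no (.red [.t 960 2 3, .t 1080 2 3, .f 961 1 5] 121 136 [2, 3] [(121,
  136, [2, 3]), (136, 136, [])]) .no) .no .no) .no .no (.use 56) (.use 37) .no) .no (.red [.f 944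
  5 1, .t 1081 3 1, .t 945 1 3, .f 954 1 3] 136 136 [] [(135, 136, [4]), (136, 136, []), (152,
  136, [1])]))) .no) .no .no .no) .no .no (.red [.f 1066 3 1, .f 1074 1 3] 151 136 [4, 1] [(150,
  136, [4, 1, 4]), (151, 136, [4, 1])]) (.red [.t 1082 1 4, .t 962 1 4, .f 1081 3 5] 136 136 []
  [(136, 136, []), (151, 136, [4, 1])]) (.br 1217 (.use 41) .no (.use 84) (.con 136 [1, 1]) (.use
  101) .no)) (.red [.f 1075 3 1, .f 1082 1 5] 151 136 [4, 1] [(151, 136, [4, 1])]) .no .no) .no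
  .no .no) .no (.br 968 .no (.red [.f 832 1 3, .f 960 3 1, .f 952 1 3, .f 1080 3 5] 121 136 [2, 3]
  [(121, 136, [2, 3]), (136, 136, []), (137, 136, [3])]) (.use 332) .no .no .no) .no .no .no)
  (.red [.f 833 3 1, .f 825 1 3] 121 136 [2, 3] [(120, 136, [2]), (121, 136, [2, 3])]) .no (.use
  337) .no) .no (.br 1209 (.br 1091 (.br 1211 (.br 1201 (.red [.f 1201 1 3] 167 136 [4, 1, 1]
  [(167, 136, [4, 1, 1])]) .no .no (.use 338) (.red [.f 1073 5 1, .f 1074 1 3, .f 946 3 1] 151 136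
  [4, 1] [(135, 136, [4]), (151, 136, [4, 1])]) (.use 341)) .no .no (.red [.f 1075 3 1, .f 1083 1
  3, .f 955 3 1, .f 962 1 5] 136 136 [] [(136, 136, []), (151, 136, [4, 1]), (152, 136, [1])]) .no
  .no) .no (.br 1211 (.br 1201 (.red [.f 1201 1 3] 167 136 [4, 1, 1] [(167, 136, [4, 1, 1])]) .no
  .no (.use 338) (.red [.f 1073 5 1, .f 1074 1 3, .f 946 3 1] 151 136 [4, 1] [(135, 136, [4]),
  (151, 136, [4, 1])]) (.use 341)) .no (.br 1208 (.hor [.f 1208 1 5] []) .no (.br 968 (.con 136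
  [3, 1, 4, 2]) (.red [.f 832 1 3] 121 136 [2, 3] [(121, 136, [2, 3])]) (.use 354) .no .no .no)
  (.con 136 [4, 1, 1]) .no .no) (.red [.f 1075 3 1, .f 1082 1 5] 151 136 [4, 1] [(151, 136, [4,
  1])]) .no .no) .no .no .no) .no (.red [.f 1081 3 1, .f 1081 1 5, .f 1073 5 3, .f 1074 3 5, .t
  962 1 4] 136 136 [] [(136, 136, []), (152, 136, [1])]) (.red [.t 1209 4 2, .f 946 3 1] 151 136
  [4, 1] [(135, 136, [4]), (151, 136, [4, 1])]) .no (.br 1088 (.red [.t 1088 1 4, .f 1081 1 5, .f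
  1073 5 3, .f 946 3 1, .f 954 1 3] 136 136 [] [(135, 136, [4]), (136, 136, []), (152, 136, [1])])
  .no (.br 968 .no (.red [.f 832 1 3, .f 960 3 1, .f 952 1 3, .f 1080 3 5] 121 136 [2, 3] [(121,
  136, [2, 3]), (136, 136, []), (137, 136, [3])]) (.br 1091 (.br 1211 (.use 356) .no .no (.red [.f
  1075 3 1, .f 1083 1 3, .f 955 3 1, .f 962 1 5] 136 136 [] [(136, 136, []), (151, 136, [4, 1]),
  (152, 136, [1])]) .no .no) .no (.br 1211 (.use 356) .no (.use 365) (.red [.f 1075 3 1, .f 1082 1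
  5] 151 136 [4, 1] [(151, 136, [4, 1])]) .no .no) .no .no .no) .no .no .no) .no .no .no))

def c28t367 : Tr4 :=
  .br 826 (.red [.f 818 1 3] 119 136 [2, 4] [(119, 136, [2, 4])]) (.con 136 [4, 2, 3, 1]) (.con
  136 [4, 2, 3, 1]) .no (.con 136 [4, 2, 3, 1]) (.con 136 [4, 2, 3, 1])

def c28t368 : Tr4 :=
  .br 947 .no (.con 136 [2, 4, 4]) .no (.hor [.f 938 3 5] []) .no .no

def c28t369 : Tr4 :=
  .br 824 .no (.hor [.f 696 1 5] []) .no (.br 944 .no .no .no (.use 368) .no .no) .no .no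

def c28t370 : Tr4 :=
  .br 1073 (.use 2) .no .no (.hor [.f 1065 3 5] []) .no (.use 369)

def c28t371 : Tr4 :=
  .br 1074 (.red [.f 1074 1 3, .f 1074 3 5] 151 136 [4, 1] [(151, 136, [4, 1])]) .no .no (.use
  370) .no (.red [.f 1081 3 1, .f 1081 1 5, .f 1073 5 3, .f 1074 3 5, .t 962 1 4] 136 136 []
  [(136, 136, []), (152, 136, [1])])

def c28t372 : Tr4 :=
  .br 939 (.con 136 [4, 4, 2]) (.con 136 [4, 4, 2]) (.hor [.f 938 3 5] []) (.con 136 [4, 4, 2])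
  .no .no

def c28t373 : Tr4 :=
  .br 944 (.red [.f 944 1 3, .f 944 3 5, .f 824 5 1, .f 825 1 3, .f 953 3 1] 136 136 [] [(120,
  136, [2]), (135, 119, [1]), (136, 136, [])]) (.red [.t 944 2 3, .f 825 1 5] 119 136 [2, 4]
  [(119, 136, [2, 4])]) .no (.use 372) .no .no

def c28t374 : Tr4 :=
  .br 827 .no (.br 819 .no (.red [.f 691 1 3] 103 136 [2, 2, 4] [(103, 136, [2, 2, 4])]) .no (.br
  824 .no (.hor [.f 696 1 5] []) .no (.con 136 [2, 2, 4]) .no .no) .no (.red [.t 952 1 4, .f 818 5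
  1, .f 818 1 3] 119 136 [2, 4] [(119, 136, [2, 4]), (135, 119, [1])])) (.red [.f 827 3 1, .f 826
  1 5, .f 946 5 3, .f 945 3 5, .t 1089 4 2, .t 962 4 2] 136 136 [] [(136, 136, [])]) (.red [.t 826
  1 4, .f 945 3 5] 119 136 [2, 4] [(119, 136, [2, 4])]) .no .no

def c28t375 : Tr4 :=
  .br 818 .no (.con 136 [2, 4, 2, 4]) .no (.hor [.f 810 3 5] []) .no (.con 136 [2, 4, 2, 4])

def c28t376 : Tr4 :=
  .br 827 .no (.br 819 .no (.red [.f 691 1 3] 103 136 [2, 2, 4] [(103, 136, [2, 2, 4])]) .no (.use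
  375) .no (.red [.t 952 1 4, .f 818 5 1, .f 818 1 3] 119 136 [2, 4] [(119, 136, [2, 4]), (135,
  119, [1])])) (.red [.f 827 3 1, .f 826 1 5, .f 946 5 3, .f 945 3 5, .t 1089 4 2, .t 962 4 2] 136
  136 [] [(136, 136, [])]) (.red [.t 826 1 4, .f 945 3 5] 119 136 [2, 4] [(119, 136, [2, 4])]) .no
  .no

def c28t377 : Tr4 :=
  .br 946 (.red [.f 1081 3 1, .f 1081 1 5, .t 945 3 1, .f 1074 3 5, .t 962 1 4] 136 136 [] [(135,
  119, [1]), (136, 136, []), (152, 136, [1])]) (.use 367) (.hor [.f 945 3 5] []) (.br 826 (.br 825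
  .no (.use 371) .no (.red [.f 817 3 1, .f 825 1 5] 119 136 [2, 4] [(119, 136, [2, 4])]) .no (.use
  373)) (.con 136 [4, 2, 3, 1]) (.con 136 [4, 2, 3, 1]) (.con 136 [4, 2, 3, 1]) (.con 136 [4, 2,
  3, 1]) (.con 136 [4, 2, 3, 1])) (.br 826 (.br 825 .no (.br 1074 (.red [.f 1074 1 3, .f 1074 3 5]
  151 136 [4, 1] [(151, 136, [4, 1])]) .no .no (.br 1073 (.use 2) .no .no (.hor [.f 1065 3 5] [])
  .no (.use 374)) .no (.red [.f 1081 3 1, .f 1081 1 5, .f 1073 5 3, .f 1074 3 5, .t 962 1 4] 136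
  136 [] [(136, 136, []), (152, 136, [1])])) .no (.red [.f 817 3 1, .f 825 1 5] 119 136 [2, 4]
  [(119, 136, [2, 4])]) .no (.br 944 (.red [.f 944 1 3, .f 944 3 5, .f 824 5 1, .f 825 1 3, .f 953
  3 1] 136 136 [] [(120, 136, [2]), (135, 119, [1]), (136, 136, [])]) (.red [.t 944 2 3, .f 825 1
  5] 119 136 [2, 4] [(119, 136, [2, 4])]) .no (.br 816 .no (.br 1074 (.red [.f 1074 1 3, .f 1074 3
  5] 151 136 [4, 1] [(151, 136, [4, 1])]) .no .no (.br 1073 (.use 2) .no .no (.hor [.f 1065 3 5]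
  []) .no (.use 376)) .no (.red [.f 1081 3 1, .f 1081 1 5, .f 1073 5 3, .f 1074 3 5, .t 962 1 4]
  136 136 [] [(136, 136, []), (152, 136, [1])])) .no (.red [.f 808 3 1, .t 944 2 3, .f 825 1 5]
  119 136 [2, 4] [(118, 136, [2, 4, 4]), (119, 136, [2, 4])]) (.red [.f 816 5 3, .f 817 3 1, .f
  825 1 3] 119 136 [2, 4] [(119, 136, [2, 4]), (120, 136, [2])]) .no) .no .no)) (.con 136 [4, 2,
  3, 1]) (.con 136 [4, 2, 3, 1]) (.con 136 [4, 2, 3, 1]) (.con 136 [4, 2, 3, 1]) (.con 136 [4, 2,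
  3, 1])) .no

def c28t378 : Tr4 :=
  .br 1074 (.red [.f 1074 1 3, .f 1074 3 5] 151 136 [4, 1] [(151, 136, [4, 1])]) .no .no (.hor [.f
  1065 3 5] []) .no .no

def c28t379 : Tr4 :=
  .br 1074 (.red [.f 1074 1 3, .f 1074 3 5] 151 136 [4, 1] [(151, 136, [4, 1])]) .no .no (.hor [.f
  1065 3 5] []) .no .no

def c28t380 : Tr4 :=
  .br 946 (.red [.f 1081 3 1, .f 1081 1 5, .t 945 3 1, .f 1074 3 5, .t 962 1 4] 136 136 [] [(135,
  119, [1]), (136, 136, []), (152, 136, [1])]) (.use 367) (.hor [.f 945 3 5] []) (.use 378) (.use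
  379) .no

def c28l13 : List Tr4 :=
  [c28t357, c28t358, c28t359, c28t360, c28t361, c28t362, c28t363, c28t364, c28t365, c28t366,
  c28t367, c28t368, c28t369, c28t370, c28t371, c28t372, c28t373, c28t374, c28t375, c28t376,
  c28t377, c28t378, c28t379, c28t380]

theorem c28k13 : chkLF ⟨4, 1, 0, true, -8⟩ false 8 c28N 357 c28l13 = true := by decide +kernel

end Pool.Agent.FT4D
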