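import Pool.Agent.FT4D.Tab_c28

/-!
# Four levels: decision trees (found by a computer search)
-/

namespace Pool.Agent.FT4D

def c28t381 : Tr4 :=
  .br 1073 (.hor [.f 1072 1 5] []) .no .no (.use 380) (.red [.f 1081 3 1, .f 1081 1 5, .f 1073 5
  3, .f 1074 3 5, .t 962 1 4] 136 136 [] [(136, 136, []), (152, 136, [1])]) .no

def c28t382 : Tr4 :=
  .br 1202 (.con 136 [4, 1, 4]) (.hor [.f 1073 1 5] []) .no (.con 136 [4, 1, 4]) (.con 136 [4, 1,
  4]) .no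

def c28t383 : Tr4 :=
  .br 1073 (.use 382) .no .no (.use 380) (.red [.f 1081 3 1, .f 1081 1 5, .f 1073 5 3, .f 1074 3
  5, .t 962 1 4] 136 136 [] [(136, 136, []), (152, 136, [1])]) .no

def c28t384 : Tr4 :=
  .br 1072 (.use 381) (.red [.f 944 1 3, .f 944 3 5, .t 832 4 1, .f 953 3 1] 136 136 [] [(120,
  136, [2]), (135, 134, [3]), (136, 136, [])]) .no (.use 383) (.red [.t 952 1 4, .t 832 4 1, .f
  953 3 1] 136 136 [] [(120, 136, [2]), (135, 136, [4]), (136, 136, [])]) .no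

def c28t385 : Tr4 :=
  .br 946 (.br 1072 (.dom 151 136 [4, 1]) (.con 136 [4, 4]) .no (.hor [.f 1064 3 5] []) .no .no)
  (.use 367) (.hor [.f 945 3 5] []) (.use 378) (.use 379) .no

def c28t386 : Tr4 :=
  .br 1066 (.con 136 [4, 1, 4, 2, 4]) (.hor [.f 937 1 5] []) .no (.con 136 [4, 1, 4, 2, 4]) (.con
  136 [4, 1, 4, 2, 4]) .no

def c28t387 : Tr4 :=
  .br 944 .no .no .no .no .no .no

def c28t388 : Tr4 :=
  .br 817 .no (.red [.f 689 1 3] 103 136 [2, 2, 4] [(103, 136, [2, 2, 4])]) .no (.br 1202 (.br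
  1200 (.con 136 [4, 4, 1, 1]) .no .no (.br 1064 .no (.br 947 .no (.con 136 [2, 4, 2]) .no (.con
  136 [2, 4, 4, 1]) .no .no) .no (.br 1065 (.red [.t 1192 3 2] 150 136 [4, 4, 1] [(150, 136, [4,
  4, 1])]) (.use 386) .no (.hor [.f 1056 3 5] []) (.br 937 .no .no .no (.br 938 .no (.con 136 [2,
  4, 4, 2]) .no (.hor [.f 929 3 5] []) (.br 936 .no (.con 136 [2, 4, 4, 4]) (.con 136 [4, 4, 2])
  (.hor [.f 928 3 5] []) .no .no) .no) (.red [.f 937 5 1, .f 938 1 3] 134 136 [4, 4] [(134, 136,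
  [4, 4])]) (.use 387)) .no) (.red [.f 1064 5 3, .f 1064 3 1] 150 136 [4, 4, 1] [(150, 136, [4, 4,
  1])]) .no) .no .no) .no .no (.hor [.f 1194 3 5] []) .no .no) (.red [.t 953 4 2] 119 136 [2, 4]
  [(119, 136, [2, 4])]) .no

def c28t389 : Tr4 :=
  .br 817 .no (.hor [.f 688 1 5] []) .no (.br 937 .no .no .no (.br 938 .no (.con 136 [2, 4, 4, 2])
  .no (.hor [.f 929 3 5] []) (.con 136 [4, 4, 2]) .no) (.red [.f 937 5 1, .f 938 1 3] 134 136 [4,
  4] [(134, 136, [4, 4])]) .no) (.red [.t 953 4 2] 119 136 [2, 4] [(119, 136, [2, 4])]) .no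

def c28t390 : Tr4 :=
  .br 1064 .no .no .no (.br 1065 (.red [.t 1192 3 2] 150 136 [4, 4, 1] [(150, 136, [4, 4, 1])])
  (.use 386) .no (.hor [.f 1056 3 5] []) (.use 389) .no) (.red [.f 1064 5 3, .f 1064 3 1] 150 136
  [4, 4, 1] [(150, 136, [4, 4, 1])]) .no

def c28t391 : Tr4 :=
  .br 816 .no (.br 1203 (.red [.f 1203 1 3, .f 1075 3 1, .f 1082 1 5] 151 136 [4, 1] [(151, 136,
  [4, 1]), (167, 136, [4, 1, 1])]) .no .no (.br 1202 (.br 1200 (.con 136 [4, 4, 1, 1]) .no .no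
  (.use 390) .no .no) .no .no (.hor [.f 1194 3 5] []) .no .no) .no (.red [.t 1082 1 4, .t 962 1 4,
  .f 1081 3 5] 136 136 [] [(136, 136, []), (151, 136, [4, 1])])) .no (.red [.f 808 3 1, .t 944 2
  3, .f 825 1 5] 119 136 [2, 4] [(118, 136, [2, 4, 4]), (119, 136, [2, 4])]) (.red [.t 952 1 4, .f
  816 5 3, .f 945 1 5, .t 825 4 1] 119 136 [2, 4] [(119, 136, [2, 4]), (135, 119, [1])]) .no

def c28t392 : Tr4 :=
  .br 816 .no (.use 376) .no (.red [.f 808 3 1, .t 944 2 3, .f 825 1 5] 119 136 [2, 4] [(118, 136,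
  [2, 4, 4]), (119, 136, [2, 4])]) (.red [.f 816 5 3, .f 817 3 1, .f 825 1 3] 119 136 [2, 4]
  [(119, 136, [2, 4]), (120, 136, [2])]) .no

def c28t393 : Tr4 :=
  .br 1073 .no .no .no (.use 385) (.red [.t 1209 4 2, .f 1074 3 5] 151 136 [4, 1] [(151, 136, [4,
  1])]) (.red [.t 952 1 4, .t 832 4 1, .f 953 3 1] 136 136 [] [(120, 136, [2]), (135, 136, [4]),
  (136, 136, [])])

def c28t394 : Tr4 :=
  .br 1208 (.br 960 .no (.hor [.f 832 1 5] []) (.br 832 .no (.br 1073 .no .no .no (.use 385) (.red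
  [.t 1209 4 2, .f 1074 3 5] 151 136 [4, 1] [(151, 136, [4, 1])]) (.br 954 .no (.br 825 .no (.br
  946 (.br 1203 (.red [.f 1203 1 3, .f 1075 3 1, .f 1082 1 5] 151 136 [4, 1] [(151, 136, [4, 1]),
  (167, 136, [4, 1, 1])]) .no .no (.br 824 .no (.hor [.f 696 1 5] []) .no (.use 388) .no .no) .no
  (.red [.t 1082 1 4, .t 962 1 4, .f 1081 3 5] 136 136 [] [(136, 136, []), (151, 136, [4, 1])]))
  (.use 367) .no (.use 369) (.use 374) .no) .no (.red [.f 817 3 1, .f 825 1 5] 119 136 [2, 4]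
  [(119, 136, [2, 4])]) .no (.br 944 .no (.red [.t 944 2 3, .f 825 1 5] 119 136 [2, 4] [(119, 136,
  [2, 4])]) .no (.br 946 (.use 391) (.use 367) .no (.use 372) (.use 392) .no) .no .no)) .no (.hor
  [.f 945 3 5] []) .no .no)) (.hor [.f 832 3 1, .f 832 1 5] [(121, 136, [2, 3])]) (.use 393) .no
  .no) .no .no .no) .no .no (.hor [.f 1200 3 5] []) .no .no

def c28t395 : Tr4 :=
  .br 1072 (.hor [.f 1072 1 5] []) (.con 136 [4, 1, 4]) .no (.con 136 [4, 1, 4]) .no .no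

def c28t396 : Tr4 :=
  .br 1201 (.hor [.f 1201 1 5] []) (.use 395) .no (.use 7) .no (.use 8)

def c28t397 : Tr4 :=
  .br 1073 .no .no .no (.use 378) (.red [.f 1073 5 1, .f 1074 1 3] 151 136 [4, 1] [(151, 136, [4,
  1])]) (.use 369)

def c28t398 : Tr4 :=
  .br 832 .no (.br 825 .no (.use 374) .no (.red [.f 817 3 1, .f 825 1 5] 119 136 [2, 4] [(119,
  136, [2, 4])]) .no (.br 944 .no (.red [.t 944 2 3, .f 825 1 5] 119 136 [2, 4] [(119, 136, [2,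
  4])]) .no (.use 392) .no .no)) (.hor [.f 832 3 1, .f 832 1 5] [(121, 119, [3, 3])]) (.red [.t
  952 1 4, .t 832 4 1, .f 953 3 1] 136 136 [] [(120, 136, [2]), (135, 119, [1]), (136, 136, [])])
  .no .no

def c28t399 : Tr4 :=
  .br 946 (.red [.t 1088 1 4, .f 1081 1 5, .t 945 3 1, .f 1074 3 5, .t 962 1 4] 136 136 [] [(135,
  119, [1]), (136, 136, []), (152, 136, [1])]) (.use 367) (.hor [.f 945 3 5] []) (.br 826 (.br 825
  .no (.br 832 .no (.br 1202 (.use 396) (.red [.f 1074 1 3, .f 1074 3 5] 151 136 [4, 1] [(151,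
  136, [4, 1])]) .no (.use 355) (.red [.t 1082 1 4, .t 962 1 4, .f 1081 3 5] 136 136 [] [(136,
  136, []), (151, 136, [4, 1])]) (.use 397)) (.hor [.f 832 3 1, .f 832 1 5] [(121, 119, [3, 3])])
  (.br 944 (.red [.f 944 1 3, .f 944 3 5, .t 832 4 1, .f 953 3 1] 136 136 [] [(120, 136, [2]),
  (135, 119, [1]), (136, 136, [])]) (.br 1202 (.use 396) (.red [.f 1074 1 3, .f 1074 3 5] 151 136
  [4, 1] [(151, 136, [4, 1])]) .no (.use 355) (.red [.t 1082 1 4, .t 962 1 4, .f 1081 3 5] 136 136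
  [] [(136, 136, []), (151, 136, [4, 1])]) (.br 1073 .no .no .no (.use 378) (.red [.f 1073 5 1, .f
  1074 1 3] 151 136 [4, 1] [(151, 136, [4, 1])]) (.red [.t 952 1 4, .t 832 4 1, .f 816 1 3] 119
  136 [2, 4] [(119, 136, [2, 4]), (120, 136, [2]), (135, 119, [1])]))) .no (.use 368) .no .no) .no
  .no) .no (.red [.f 817 3 1, .f 825 1 5] 119 136 [2, 4] [(119, 136, [2, 4])]) .no (.use 373))
  (.con 136 [4, 2, 3, 1]) (.con 136 [4, 2, 3, 1]) (.con 136 [4, 2, 3, 1]) (.con 136 [4, 2, 3, 1])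
  (.con 136 [4, 2, 3, 1])) (.br 826 (.br 1202 (.use 396) (.red [.f 1074 1 3, .f 1074 3 5] 151 136
  [4, 1] [(151, 136, [4, 1])]) .no (.use 355) (.red [.t 1082 1 4, .t 962 1 4, .f 1081 3 5] 136 136
  [] [(136, 136, []), (151, 136, [4, 1])]) (.br 1073 .no .no .no (.use 379) (.red [.f 1073 5 1, .f
  1074 1 3] 151 136 [4, 1] [(151, 136, [4, 1])]) (.use 398))) (.con 136 [4, 2, 3, 1]) (.con 136
  [4, 2, 3, 1]) (.con 136 [4, 2, 3, 1]) (.con 136 [4, 2, 3, 1]) (.con 136 [4, 2, 3, 1])) .no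

def c28t400 : Tr4 :=
  .br 1202 (.con 136 [4, 1, 4]) (.hor [.f 1073 1 5] []) .no (.con 136 [4, 1, 4]) (.con 136 [4, 1,
  4]) .no

def c28t401 : Tr4 :=
  .br 1073 (.use 400) .no .no (.use 378) (.red [.f 1081 3 1, .f 1081 1 5, .f 1073 5 3, .f 1074 3
  5, .t 962 1 4] 136 136 [] [(136, 136, []), (152, 136, [1])]) .no

def c28t402 : Tr4 :=
  .br 835 .no (.con 136 [2, 2, 3]) (.hor [.f 834 3 5] []) (.con 136 [2, 2, 3]) .no .no

def c28t403 : Tr4 :=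
  .br 824 .no (.hor [.f 696 1 5] []) .no .no .no .no

def c28t404 : Tr4 :=
  .br 939 (.con 136 [4, 4, 2, 3, 1, 4, 2, 3]) (.con 136 [4, 4, 2, 3, 1, 4, 2, 3]) (.hor [.f 938 3
  5] []) (.con 136 [4, 4, 2, 3, 1, 4, 2, 3]) .no .no

def c28t405 : Tr4 :=
  .br 824 .no (.red [.t 824 2 3, .t 944 2 3, .f 825 1 5] 104 136 [2, 2] [(104, 136, [2, 2]), (119,
  136, [2, 4])]) .no .no .no .no

def c28t406 : Tr4 :=
  .br 840 .no .no (.hor [.f 840 3 5] []) .no .no .no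

def c28t407 : Tr4 :=
  .br 947 .no (.br 697 .no (.red [.f 569 1 3, .f 697 3 1] 104 136 [2, 2] [(88, 136, [2, 2, 2]),
  (104, 136, [2, 2])]) .no (.con 136 [2, 4, 2, 4]) (.red [.t 833 4 2] 104 136 [2, 2] [(104, 136,
  [2, 2])]) (.br 704 .no (.hor [.f 576 1 5] []) (.use 406) .no .no .no)) .no (.hor [.f 938 3 5]
  []) .no .no

def c28t408 : Tr4 :=
  .br 698 .no (.br 697 .no (.hor [.f 569 1 5] []) .no (.con 136 [2, 4, 2, 2]) .no .no) .no .no
  (.con 136 [2, 4, 2, 3]) (.red [.t 833 4 2, .f 696 1 5] 104 136 [2, 2] [(104, 136, [2, 2])])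

def c28t409 : Tr4 :=
  .br 824 .no (.use 408) .no .no .no .no

def c28t410 : Tr4 :=
  .br 947 .no (.use 409) .no (.hor [.f 938 3 5] []) .no .no

def c28t411 : Tr4 :=
  .br 835 .no (.con 136 [2, 2, 3]) (.hor [.f 834 3 5] []) (.con 136 [2, 2]) .no .no

def c28t412 : Tr4 :=
  .br 699 (.con 136 [2, 3, 2, 4, 2]) (.con 136 [2, 3, 2, 4, 2]) (.hor [.f 698 3 5] []) (.con 136
  [2, 3, 2, 4, 2]) .no .no

def c28t413 : Tr4 :=
  .br 819 (.con 136 [2, 4, 2, 4]) (.hor [.f 690 1 5] []) (.dom 119 136 [2, 4]) (.con 136 [2, 4, 2,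
  4]) .no .no

def c28t414 : Tr4 :=
  .br 704 .no (.hor [.f 576 1 5] []) (.red [.t 952 1 4, .t 832 1 4, .t 712 4 1, .f 833 3 1] 121
  136 [2, 3] [(105, 136, [2, 3, 2]), (120, 121, [4]), (121, 136, [2, 3]), (135, 136, [4])]) .no
  .no .no

def c28t415 : Tr4 :=
  .br 824 .no .no .no .no .no .no

def c28t416 : Tr4 :=
  .br 705 .no (.br 697 .no (.red [.f 569 1 3, .f 697 3 1] 104 136 [2, 2] [(88, 136, [2, 2, 2]),
  (104, 136, [2, 2])]) .no (.use 413) (.red [.t 833 4 2] 104 136 [2, 2] [(104, 136, [2, 2])])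
  (.use 415)) (.use 410) (.red [.f 697 3 1, .f 705 1 5] 104 136 [2, 2] [(104, 136, [2, 2])]) .no
  (.use 405)

def c28t417 : Tr4 :=
  .br 840 .no (.con 136 [2, 3, 3, 2]) (.hor [.f 840 3 5] []) .no .no .no

def c28t418 : Tr4 :=
  .br 825 .no (.use 403) (.br 818 .no (.br 834 .no (.br 835 .no (.hor [.f 706 1 5] []) (.use 416)
  (.con 136 [2, 2]) .no .no) (.use 411) .no (.br 841 .no (.br 705 .no (.br 706 .no (.hor [.f 577 1
  5] []) (.red [.t 954 2 3, .f 825 3 5, .t 713 1 4] 105 136 [2, 2, 3] [(105, 136, [2, 2, 3]),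
  (120, 104, [1])]) (.use 412) (.br 697 .no (.red [.f 569 1 3] 88 136 [2, 2, 2] [(88, 136, [2, 2,
  2])]) .no (.use 413) (.red [.t 954 2 3, .t 834 4 1, .f 706 5 1, .t 833 4 2] 104 136 [2, 2]
  [(104, 136, [2, 2])]) (.use 414)) .no) .no (.red [.f 697 3 1, .f 705 1 3] 105 136 [2, 2, 3]
  [(104, 136, [2, 2]), (105, 136, [2, 2, 3])]) (.red [.t 954 2 3, .f 825 3 5, .f 705 5 1, .f 705 1
  3] 105 136 [2, 2, 3] [(105, 136, [2, 2, 3]), (120, 104, [1])]) (.use 405)) (.br 842 (.red [.t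
  954 2 3, .f 825 3 5, .t 969 4 2] 121 136 [2, 3] [(120, 104, [1]), (121, 136, [2, 3])]) (.use
  417) (.hor [.f 841 3 5] []) .no (.use 89) .no) .no (.red [.t 954 2 3, .f 825 3 5, .f 833 5 3, .f
  833 3 1] 121 136 [2, 3] [(120, 104, [1]), (121, 136, [2, 3])]) (.red [.t 954 2 3, .f 825 3 5, .t
  960 2 3] 121 136 [2, 3] [(120, 104, [1]), (121, 136, [2, 3])])) .no) .no (.red [.f 810 3 1, .f
  818 1 3] 119 136 [2, 4] [(118, 136, [2, 4, 4]), (119, 136, [2, 4])]) (.use 404) (.red [.t 953 4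
  2, .f 816 1 5] 119 136 [2, 4] [(119, 136, [2, 4])])) (.red [.f 817 3 1, .f 816 1 5] 119 136 [2,
  4] [(119, 136, [2, 4])]) .no (.red [.t 944 2 3, .f 825 1 5] 119 136 [2, 4] [(119, 136, [2, 4])])

def c28t419 : Tr4 :=
  .br 944 .no (.use 418) .no (.use 372) .no .no

def c28t420 : Tr4 :=
  .br 1073 (.use 400) .no .no (.use 379) (.red [.f 1081 3 1, .f 1081 1 5, .f 1073 5 3, .f 1074 3
  5, .t 962 1 4] 136 136 [] [(136, 136, []), (152, 136, [1])]) .no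

def c28t421 : Tr4 :=
  .br 818 .no (.br 816 .no (.con 136 [2, 4, 2, 4]) (.con 136 [2, 4, 2]) (.red [.f 808 3 1] 118 136
  [2, 4, 4] [(118, 136, [2, 4, 4])]) (.con 136 [2, 4, 2, 4]) .no) .no (.hor [.f 810 3 5] []) .no
  (.red [.t 953 4 2] 119 136 [2, 4] [(119, 136, [2, 4])])

def c28t422 : Tr4 :=
  .br 819 .no (.red [.f 691 1 3] 103 136 [2, 2, 4] [(103, 136, [2, 2, 4])]) .no (.br 944 .no (.use
  403) .no (.use 421) .no .no) .no (.red [.t 952 1 4, .f 818 5 1, .f 818 1 3] 119 136 [2, 4]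
  [(119, 136, [2, 4]), (135, 119, [1])])

def c28t423 : Tr4 :=
  .br 818 .no (.con 136 [2, 4, 2, 4]) .no (.hor [.f 810 3 5] []) .no (.red [.t 953 4 2] 119 136
  [2, 4] [(119, 136, [2, 4])])

def c28t424 : Tr4 :=
  .br 698 .no (.hor [.f 569 1 5] []) .no .no .no .no

def c28t425 : Tr4 :=
  .br 705 .no (.br 697 .no (.red [.f 569 1 3] 88 136 [2, 2, 2] [(88, 136, [2, 2, 2])]) .no (.use
  423) (.red [.t 833 4 2] 104 136 [2, 2] [(104, 136, [2, 2])]) (.con 136 [2, 2, 4])) (.br 818 .no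
  (.br 697 .no (.use 424) .no (.con 136 [2, 2, 4, 4]) (.red [.t 833 4 2] 104 136 [2, 2] [(104,
  136, [2, 2])]) (.con 136 [2, 2, 4])) .no (.hor [.f 810 3 5] []) .no (.red [.t 953 4 2] 119 136
  [2, 4] [(119, 136, [2, 4])])) (.red [.f 697 3 1, .f 705 1 5] 104 136 [2, 2] [(104, 136, [2,
  2])]) .no (.br 824 .no (.red [.t 824 2 3, .f 705 1 5] 104 136 [2, 2] [(104, 136, [2, 2])]) .no
  (.con 136 [2, 2, 4]) .no .no)

def c28l14 : List Tr4 :=
  [c28t381, c28t382, c28t383, c28t384, c28t385, c28t386, c28t387, c28t388, c28t389, c28t390,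
  c28t391, c28t392, c28t393, c28t394, c28t395, c28t396, c28t397, c28t398, c28t399, c28t400,
  c28t401, c28t402, c28t403, c28t404, c28t405, c28t406, c28t407, c28t408, c28t409, c28t410,
  c28t411, c28t412, c28t413, c28t414, c28t415, c28t416, c28t417, c28t418, c28t419, c28t420,
  c28t421, c28t422, c28t423, c28t424, c28t425]

theorem c28k14 : chkLF ⟨4, 1, 0, true, -8⟩ false 8 c28N 381 c28l14 = true := by decide +kernel

def c28t426 : Tr4 :=
  .br 706 .no (.hor [.f 577 1 5] []) (.red [.t 954 2 3, .f 825 3 5, .t 713 1 4] 105 136 [2, 2, 3]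
  [(105, 136, [2, 2, 3]), (120, 104, [1])]) (.con 136 [2, 2, 2]) (.br 697 .no (.red [.f 569 1 3]
  88 136 [2, 2, 2] [(88, 136, [2, 2, 2])]) .no (.use 423) (.red [.t 954 2 3, .t 834 4 1, .f 706 5
  1, .t 833 4 2] 104 136 [2, 2] [(104, 136, [2, 2])]) (.con 136 [2, 2, 4])) .no

def c28t427 : Tr4 :=
  .br 842 (.red [.t 954 2 3, .f 825 3 5, .t 969 4 2] 121 136 [2, 3] [(120, 104, [1]), (121, 136,
  [2, 3])]) (.use 417) (.hor [.f 841 3 5] []) .no (.use 89) .no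

def c28t428 : Tr4 :=
  .br 818 .no (.con 136 [2, 4, 2, 4]) .no (.hor [.f 810 3 5] []) .no (.con 136 [2, 4, 2, 4])

def c28t429 : Tr4 :=
  .br 944 .no (.red [.t 944 2 3, .f 825 1 5] 119 136 [2, 4] [(119, 136, [2, 4])]) .no (.br 816 .no
  (.br 819 .no (.red [.f 691 1 3] 103 136 [2, 2, 4] [(103, 136, [2, 2, 4])]) .no (.use 428) .no
  (.red [.t 952 1 4, .f 818 5 1, .f 818 1 3] 119 136 [2, 4] [(119, 136, [2, 4]), (135, 119,
  [1])])) .no (.red [.f 808 3 1, .t 944 2 3, .f 825 1 5] 119 136 [2, 4] [(118, 136, [2, 4, 4]),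
  (119, 136, [2, 4])]) (.red [.f 816 5 3, .f 817 3 1] 119 136 [2, 4] [(119, 136, [2, 4])]) .no)
  .no .no

def c28t430 : Tr4 :=
  .br 827 .no (.br 825 .no (.use 422) (.br 819 .no (.red [.f 691 1 3] 103 136 [2, 2, 4] [(103,
  136, [2, 2, 4])]) .no (.br 834 .no (.use 425) (.use 411) .no (.br 841 .no (.br 705 .no (.use
  426) .no (.red [.f 697 3 1, .f 705 1 3] 105 136 [2, 2, 3] [(104, 136, [2, 2]), (105, 136, [2, 2,
  3])]) (.red [.t 954 2 3, .f 825 3 5, .f 705 5 1, .f 705 1 3] 105 136 [2, 2, 3] [(105, 136, [2,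
  2, 3]), (120, 104, [1])]) (.br 824 .no (.red [.t 824 2 3, .f 705 1 3] 105 136 [2, 2, 3] [(104,
  136, [2, 2]), (105, 136, [2, 2, 3])]) .no (.con 136 [2, 2, 4]) .no .no)) (.use 427) .no (.red
  [.t 954 2 3, .f 825 3 5, .f 833 5 3, .f 833 3 1] 121 136 [2, 3] [(120, 104, [1]), (121, 136, [2,
  3])]) (.red [.t 954 2 3, .f 825 3 5, .t 960 2 3] 121 136 [2, 3] [(120, 104, [1]), (121, 136, [2,
  3])])) .no) .no (.red [.t 952 1 4, .f 818 5 1, .f 818 1 3] 119 136 [2, 4] [(119, 136, [2, 4]),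
  (135, 119, [1])])) (.red [.f 817 3 1, .f 825 1 5] 119 136 [2, 4] [(119, 136, [2, 4])]) .no (.use
  429)) (.red [.f 827 3 1, .f 826 1 5, .f 946 5 3, .f 945 3 5, .t 1089 4 2, .t 962 4 2] 136 136 []
  [(136, 136, [])]) (.red [.t 826 1 4, .f 945 3 5] 119 136 [2, 4] [(119, 136, [2, 4])]) .no .no

def c28t431 : Tr4 :=
  .br 946 (.red [.f 1081 3 1, .f 1081 1 5, .t 945 3 1, .f 1074 3 5, .t 962 1 4] 136 136 [] [(135,
  119, [1]), (136, 136, []), (152, 136, [1])]) (.use 367) (.hor [.f 945 3 5] []) (.br 826 (.br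
  1072 (.use 381) (.use 401) .no (.use 383) (.use 419) .no) (.con 136 [4, 2, 3, 3]) (.con 136 [4,
  2, 3, 3]) (.con 136 [4, 2, 3, 3]) (.con 136 [4, 2, 3, 3]) (.con 136 [4, 2, 3, 3])) (.br 826 (.br
  1072 (.use 381) (.use 420) .no (.use 383) (.use 430) .no) (.con 136 [4, 2, 3, 3]) (.con 136 [4,
  2, 3, 3]) (.con 136 [4, 2, 3, 3]) (.con 136 [4, 2, 3, 3]) (.con 136 [4, 2, 3, 3])) .no

def c28t432 : Tr4 :=
  .br 833 .no (.con 136 [2, 2, 3]) (.red [.f 833 3 1, .f 832 1 5] 121 136 [2, 3] [(121, 136, [2,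
  3])]) (.con 136 [2, 2, 3]) .no .no

def c28t433 : Tr4 :=
  .br 824 .no (.hor [.f 696 1 5] []) .no (.br 1203 (.hor [.f 1202 1 5] []) .no .no (.use 388) .no
  .no) .no .no

def c28t434 : Tr4 :=
  .br 944 .no (.red [.t 944 2 3, .f 825 1 5] 119 136 [2, 4] [(119, 136, [2, 4])]) .no (.use 391)
  .no .no

def c28t435 : Tr4 :=
  .br 938 .no (.hor [.f 809 1 5] []) .no (.hor [.f 930 3 5] []) .no .no

def c28t436 : Tr4 :=
  .br 698 .no (.con 136 [2, 4, 2, 2]) .no (.hor [.f 689 3 5] []) (.con 136 [2, 4, 2, 2]) .no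

def c28t437 : Tr4 :=
  .br 698 .no (.con 136 [2, 2, 4, 2]) .no (.hor [.f 689 3 5] []) (.con 136 [2, 2, 2]) .no

def c28t438 : Tr4 :=
  .br 698 .no (.con 136 [2, 2, 4, 2]) .no (.hor [.f 689 3 5] []) (.con 136 [2, 2, 2, 4]) .no

def c28t439 : Tr4 :=
  .br 697 .no (.hor [.f 568 1 5] []) .no (.use 438) (.red [.t 833 4 2] 104 136 [2, 2] [(104, 136,
  [2, 2])]) .no

def c28t440 : Tr4 :=
  .br 824 .no (.red [.t 824 2 3, .f 705 1 5] 104 136 [2, 2] [(104, 136, [2, 2])]) .no (.br 696 .no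
  (.use 439) .no (.red [.f 688 3 1, .t 824 2 3, .f 705 1 5] 104 136 [2, 2] [(103, 136, [2, 2, 4]),
  (104, 136, [2, 2])]) (.red [.f 696 5 3, .f 697 3 1, .f 705 1 3] 104 136 [2, 2] [(104, 136, [2,
  2]), (105, 136, [2, 2, 3])]) .no) .no .no

def c28t441 : Tr4 :=
  .br 947 .no (.br 939 .no (.red [.f 811 1 3] 118 136 [2, 4, 4] [(118, 136, [2, 4, 4])]) .no (.br
  937 .no (.use 435) .no (.red [.f 929 3 1, .f 936 1 5, .f 1064 5 3, .f 1064 3 1] 150 136 [4, 4,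
  1] [(133, 117, [1]), (150, 136, [4, 4, 1])]) (.br 824 .no (.br 697 .no (.br 705 .no (.red [.f
  569 1 3, .f 697 3 1] 104 136 [2, 2] [(88, 136, [2, 2, 2]), (104, 136, [2, 2])]) (.br 818 .no
  (.use 408) .no (.red [.t 952 1 4, .f 945 1 5, .f 937 5 3, .f 810 3 1, .f 818 1 3] 119 136 [2, 4]
  [(118, 136, [2, 4, 4]), (119, 136, [2, 4]), (135, 119, [1])]) .no (.red [.t 953 4 2] 119 136 [2,
  4] [(119, 136, [2, 4])])) .no .no (.red [.t 824 2 3, .f 705 1 5] 104 136 [2, 2] [(104, 136, [2,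
  2])])) (.red [.f 697 3 1, .f 696 1 5] 104 136 [2, 2] [(104, 136, [2, 2])]) (.use 436) (.red [.t
  833 4 2, .f 696 1 5] 104 136 [2, 2] [(104, 136, [2, 2])]) .no) .no (.con 136 [2, 4, 2]) .no .no)
  .no) .no (.red [.f 938 5 1, .f 938 1 3] 134 136 [4, 4] [(134, 136, [4, 4])])) .no (.red [.t 952
  1 4, .t 946 1 4, .t 1072 3 2] 134 136 [4, 4] [(134, 136, [4, 4])]) .no .no

def c28t442 : Tr4 :=
  .br 944 .no (.br 818 .no (.br 819 (.con 136 [2, 4, 2, 2]) (.con 136 [2, 4, 2, 2]) (.con 136 [2,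
  2, 4, 4, 1, 3]) (.con 136 [2, 4, 2, 2]) .no .no) .no (.red [.t 952 1 4, .f 945 1 5, .t 809 1 3,
  .f 818 1 3] 119 136 [2, 4] [(118, 136, [2, 4, 4]), (119, 136, [2, 4]), (135, 119, [1])]) (.con
  136 [2, 4, 2, 4, 1, 3]) (.red [.t 953 4 2, .f 809 1 3] 119 136 [2, 4] [(118, 136, [2, 4, 4]),
  (119, 136, [2, 4])])) .no .no .no .no

def c28t443 : Tr4 :=
  .br 697 .no (.red [.f 569 1 3, .f 697 3 1] 104 136 [2, 2] [(88, 136, [2, 2, 2]), (104, 136, [2,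
  2])]) .no (.use 442) (.red [.t 833 4 2, .f 696 1 5] 104 136 [2, 2] [(104, 136, [2, 2])]) .no

def c28t444 : Tr4 :=
  .br 699 (.red [.t 698 4 1] 103 136 [2, 2, 4] [(103, 136, [2, 2, 4])]) (.con 136 [2, 4, 2, 3])
  (.con 136 [2, 4, 2, 3]) (.con 136 [2, 4, 2, 3]) .no .no

def c28t445 : Tr4 :=
  .br 698 .no (.hor [.f 569 1 5] []) .no (.use 444) (.con 136 [2, 4, 2, 3]) .no

def c28t446 : Tr4 :=
  .br 697 .no (.br 944 .no (.br 818 .no (.br 819 (.use 408) (.hor [.f 690 1 5] []) (.dom 119 136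
  [2, 4]) (.br 947 .no .no .no (.br 810 .no (.red [.f 682 1 3] 102 136 [2, 4, 2, 4] [(102, 136,
  [2, 4, 2, 4])]) .no (.hor [.f 811 3 1, .f 802 3 1, .f 809 1 5, .f 811 1 3] [(117, 102, [1, 4])])
  .no .no) .no .no) .no .no) .no (.red [.t 952 1 4, .f 945 1 5, .t 809 1 3, .f 818 1 3] 119 136
  [2, 4] [(118, 136, [2, 4, 4]), (119, 136, [2, 4]), (135, 119, [1])]) (.use 445) (.red [.t 953 4
  2, .f 809 1 3] 119 136 [2, 4] [(118, 136, [2, 4, 4]), (119, 136, [2, 4])])) .no .no .no .no) .no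
  (.use 442) (.red [.t 833 4 2, .f 696 1 5] 104 136 [2, 2] [(104, 136, [2, 2])]) .no

def c28t447 : Tr4 :=
  .br 698 .no (.hor [.f 569 1 5] []) .no .no (.con 136 [2, 2, 2]) .no

def c28t448 : Tr4 :=
  .br 696 .no (.hor [.f 568 1 5] []) (.use 447) (.red [.f 688 3 1] 103 136 [2, 2, 4] [(103, 136,
  [2, 2, 4])]) .no .no

def c28t449 : Tr4 :=
  .br 944 .no .no .no .no .no .no

def c28t450 : Tr4 :=
  .br 697 .no (.br 818 .no (.br 944 .no (.br 819 (.use 408) (.con 136 [4, 4, 2, 3]) (.con 136 [4,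
  4, 2, 3]) (.con 136 [4, 4, 2, 2]) .no .no) .no .no .no .no) .no (.red [.t 952 1 4, .f 945 1 5,
  .t 809 1 3, .f 818 1 3] 119 136 [2, 4] [(118, 136, [4, 4, 2]), (119, 136, [2, 4]), (135, 119,
  [1])]) (.use 445) (.red [.t 953 4 2, .f 809 1 3] 119 136 [2, 4] [(118, 136, [4, 4, 2]), (119,
  136, [2, 4])])) .no (.use 442) (.red [.t 833 4 2, .f 696 1 5] 104 136 [2, 2] [(104, 136, [2,
  2])]) .no

def c28t451 : Tr4 :=
  .br 819 .no (.con 136 [2, 4, 2, 3]) (.dom 119 136 [2, 4]) (.con 136 [2, 4, 2, 3]) .no (.con 136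
  [2, 4, 2, 3])

def c28t452 : Tr4 :=
  .br 819 (.con 136 [2, 4, 2, 3]) (.con 136 [2, 4, 2, 3]) (.dom 119 136 [2, 4]) (.con 136 [2, 4,
  2, 3]) .no .no

def c28t453 : Tr4 :=
  .br 818 .no (.use 452) .no .no (.con 136 [2, 4, 2, 3]) (.red [.t 953 4 2, .f 816 1 5] 119 136
  [2, 4] [(119, 136, [2, 4])])

def c28t454 : Tr4 :=
  .br 819 (.use 436) (.con 136 [4, 4, 2, 3]) (.con 136 [4, 4, 2, 3]) (.con 136 [4, 4, 2, 3]) .no
  (.con 136 [4, 4, 2, 3])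

def c28t455 : Tr4 :=
  .br 938 .no (.br 944 .no (.br 698 .no (.br 699 (.con 136 [2, 2, 2, 4]) (.hor [.f 570 1 5] [])
  (.br 939 (.con 136 [4, 4, 2, 4]) (.hor [.f 810 1 5] []) (.use 451) (.con 136 [4, 4, 2, 4]) .no
  .no) (.con 136 [2, 2, 2, 4]) .no .no) .no (.hor [.f 689 3 5] []) (.use 453) .no) .no .no .no
  .no) .no (.hor [.f 929 3 5] []) (.br 944 .no (.use 454) .no .no .no .no) .no

def c28t456 : Tr4 :=
  .br 698 .no (.hor [.f 569 1 5] []) .no (.br 818 .no .no .no .no (.use 444) (.red [.t 953 4 2, .f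
  690 3 1] 119 136 [2, 4] [(103, 136, [2, 2, 4]), (119, 136, [2, 4])])) (.use 453) .no

def c28t457 : Tr4 :=
  .br 819 (.red [.t 818 4 1] 118 136 [2, 4, 4] [(118, 136, [2, 4, 4])]) (.con 136 [4, 4, 2, 3])
  (.con 136 [4, 4, 2, 3]) (.con 136 [4, 4, 2, 3]) .no .no

def c28t458 : Tr4 :=
  .br 818 .no .no .no (.use 457) (.con 136 [4, 4, 2, 3]) (.red [.t 953 4 2, .f 690 3 1] 103 136
  [4, 4, 2, 2, 3] [(103, 136, [2, 4, 2]), (119, 136, [2, 4])])

def c28t459 : Tr4 :=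
  .br 698 .no (.hor [.f 569 1 5] []) .no (.use 458) (.br 818 .no (.use 452) .no (.use 457) (.con
  136 [2, 4, 2, 3]) (.con 136 [4, 4, 2, 2, 3, 3])) .no

def c28t460 : Tr4 :=
  .br 937 .no (.br 938 .no (.hor [.f 809 1 5] []) .no (.br 824 .no (.br 705 .no (.use 443) (.use
  446) (.red [.f 697 3 1, .f 696 1 5] 104 136 [2, 2] [(104, 136, [2, 2])]) .no (.red [.t 824 2 3,
  .f 705 1 5] 104 136 [2, 2] [(104, 136, [2, 2])])) .no (.use 449) .no .no) (.br 824 .no (.br 705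
  .no (.use 443) (.use 450) (.red [.f 697 3 1, .f 696 1 5] 104 136 [2, 2] [(104, 136, [2, 2])])
  .no (.red [.t 824 2 3, .f 705 1 5] 104 136 [2, 2] [(104, 136, [2, 2])])) .no (.use 449) .no .no)
  .no) .no (.br 824 .no (.br 705 .no (.br 697 .no (.red [.f 569 1 3, .f 697 3 1] 104 136 [2, 2]
  [(88, 136, [2, 2, 2]), (104, 136, [2, 2])]) .no (.use 455) (.red [.t 833 4 2, .f 696 1 5] 104
  136 [2, 2] [(104, 136, [2, 2])]) .no) (.br 697 .no (.br 938 .no (.br 944 .no (.use 456) .no .no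
  .no .no) .no (.hor [.f 929 3 5] []) (.br 944 .no (.use 459) .no .no .no .no) .no) .no (.use 455)
  (.red [.t 833 4 2, .f 696 1 5] 104 136 [2, 2] [(104, 136, [2, 2])]) .no) (.red [.f 697 3 1, .f
  696 1 5] 104 136 [2, 2] [(104, 136, [2, 2])]) .no (.red [.t 824 2 3, .f 705 1 5] 104 136 [2, 2]
  [(104, 136, [2, 2])])) .no (.use 449) .no .no) (.red [.f 937 5 1, .f 936 1 5, .f 1064 5 3, .f
  1064 3 1] 150 136 [4, 4, 1] [(150, 136, [4, 4, 1])]) .no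

def c28t461 : Tr4 :=
  .br 937 .no (.hor [.f 808 1 5] []) .no (.br 938 .no (.con 136 [4, 4, 4, 2]) .no (.hor [.f 929 3
  5] []) (.con 136 [4, 4, 2, 4]) .no) (.red [.f 937 5 1, .f 938 1 3] 134 136 [4, 4] [(134, 136,
  [4, 4])]) .no

def c28t462 : Tr4 :=
  .br 819 (.con 136 [2, 4, 2, 3]) (.con 136 [2, 4, 2, 3]) (.dom 119 136 [2, 4]) (.con 136 [2, 4,
  2, 3]) .no .no

def c28t463 : Tr4 :=
  .br 696 (.br 699 (.con 136 [2, 2, 2, 4]) (.hor [.f 570 1 5] []) (.br 818 .no (.br 819 (.con 136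
  [2, 4, 2, 2]) (.con 136 [2, 4, 2, 2]) (.dom 119 136 [2, 4]) (.con 136 [2, 4, 2, 2]) .no .no) .no
  (.use 462) (.con 136 [2, 4, 2, 2]) (.red [.t 953 4 2, .f 816 1 5] 119 136 [2, 4] [(119, 136, [2,
  4])])) (.con 136 [2, 2, 2, 4]) .no .no) (.con 136 [2, 2, 4, 2]) (.con 136 [2, 2, 4, 2]) (.hor
  [.f 688 3 5] []) .no .no

def c28t464 : Tr4 :=
  .br 818 .no (.use 452) .no (.br 819 (.con 136 [2, 4, 2, 3]) (.con 136 [2, 4, 2, 3]) (.dom 119
  136 [2, 4]) (.con 136 [2, 4, 2, 3]) .no .no) (.con 136 [2, 4, 2, 3]) (.red [.t 953 4 2, .f 816 1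
  5] 119 136 [2, 4] [(119, 136, [2, 4])])

def c28t465 : Tr4 :=
  .br 698 .no (.use 463) .no (.hor [.f 689 3 5] []) (.br 696 (.use 464) (.con 136 [2, 2, 2, 4])
  (.con 136 [2, 2, 2]) (.hor [.f 688 3 5] []) .no .no) .no

def c28t466 : Tr4 :=
  .br 697 .no (.red [.f 569 1 3, .f 697 3 1] 104 136 [2, 2] [(88, 136, [2, 2, 2]), (104, 136, [2,
  2])]) .no (.use 465) (.red [.t 833 4 2] 104 136 [2, 2] [(104, 136, [2, 2])]) (.br 704 .no (.hor
  [.f 576 1 5] []) (.con 136 [2, 3, 3, 2, 4, 4]) .no .no .no)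

def c28t467 : Tr4 :=
  .br 947 .no (.red [.f 811 1 3] 118 136 [2, 4, 4] [(118, 136, [2, 4, 4])]) .no .no .no .no

def c28t468 : Tr4 :=
  .br 818 .no .no .no (.hor [.f 809 3 5] []) (.use 444) .no

def c28t469 : Tr4 :=
  .br 810 .no (.red [.f 681 3 1] 102 136 [4, 4, 2, 2] [(102, 136, [4, 4, 2, 2])]) (.hor [.f 809 3
  5] []) (.red [.f 681 3 1] 102 136 [4, 4, 2, 2] [(102, 136, [4, 4, 2, 2])]) (.red [.f 681 3 1]
  102 136 [4, 4, 2, 2] [(102, 136, [4, 4, 2, 2])]) .no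

def c28l15 : List Tr4 :=
  [c28t426, c28t427, c28t428, c28t429, c28t430, c28t431, c28t432, c28t433, c28t434, c28t435,
  c28t436, c28t437, c28t438, c28t439, c28t440, c28t441, c28t442, c28t443, c28t444, c28t445,
  c28t446, c28t447, c28t448, c28t449, c28t450, c28t451, c28t452, c28t453, c28t454, c28t455,
  c28t456, c28t457, c28t458, c28t459, c28t460, c28t461, c28t462, c28t463, c28t464, c28t465,
  c28t466, c28t467, c28t468, c28t469]

theorem c28k15 : chkLF ⟨4, 1, 0, true, -8⟩ false 8 c28N 426 c28l15 = true := by decide +kernel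

def c28t470 : Tr4 :=
  .br 827 .no (.con 136 [2, 2, 4]) .no (.con 136 [2, 2, 4, 1]) .no .no

def c28t471 : Tr4 :=
  .br 1064 .no (.br 1065 (.red [.t 1192 3 2] 150 136 [4, 4, 1] [(150, 136, [4, 4, 1])]) (.hor [.f
  936 1 5] []) .no (.br 1066 (.con 136 [4, 4, 1, 4]) (.red [.f 938 1 3] 134 136 [4, 4] [(134, 136,
  [4, 4])]) .no (.hor [.f 1057 3 5] []) (.use 441) .no) (.use 460) .no) .no (.br 1065 (.red [.t
  1192 3 2] 150 136 [4, 4, 1] [(150, 136, [4, 4, 1])]) (.use 386) .no (.hor [.f 1056 3 5] []) (.br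
  1194 (.red [.f 1194 1 3, .f 1194 3 5] 166 136 [4, 4, 1, 1] [(166, 136, [4, 4, 1, 1])]) .no .no
  (.br 1193 (.con 136 [4, 4, 1, 4, 1]) .no .no (.hor [.f 1185 3 5] []) .no .no) .no (.red [.f 1065
  5 1, .t 1192 3 2] 150 136 [4, 4, 1] [(150, 136, [4, 4, 1])])) .no) (.red [.f 1064 5 3, .f 1064 3
  1] 150 136 [4, 4, 1] [(150, 136, [4, 4, 1])]) .no

def c28t472 : Tr4 :=
  .br 1200 (.con 136 [4, 4, 1, 1]) .no .no (.use 471) .no .no

def c28t473 : Tr4 :=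
  .br 835 .no (.br 834 .no (.hor [.f 706 1 5] []) (.use 432) .no .no (.br 825 .no (.use 433) .no
  (.red [.f 817 3 1, .f 825 1 5] 119 136 [2, 4] [(119, 136, [2, 4])]) .no (.use 434))) (.br 825
  .no (.use 433) (.br 834 .no (.br 1203 (.hor [.f 1202 1 5] []) .no .no (.use 472) .no .no) (.use
  411) .no .no .no) (.red [.f 817 3 1, .f 825 1 5] 119 136 [2, 4] [(119, 136, [2, 4])]) .no (.use
  434)) (.red [.f 827 3 1, .f 826 1 5, .t 1074 2 3, .f 945 3 5, .t 1089 4 2, .t 962 4 2] 136 136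
  [] [(135, 119, [1]), (136, 136, [])]) .no (.red [.t 954 2 3, .t 1074 2 3, .f 945 3 5, .t 1089 4
  2, .f 826 3 1] 136 136 [] [(135, 119, [1]), (136, 136, [])])

def c28t474 : Tr4 :=
  .br 1203 (.red [.f 1203 1 3, .f 1075 3 1, .f 1082 1 5] 151 136 [4, 1] [(151, 136, [4, 1]), (167,
  136, [4, 1, 1])]) .no .no (.hor [.f 1194 3 5] []) .no .no

def c28t475 : Tr4 :=
  .br 1073 .no .no .no (.use 385) (.red [.t 1209 4 2, .f 1074 3 5] 151 136 [4, 1] [(151, 136, [4,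
  1])]) (.br 1202 (.br 1208 (.br 954 .no (.br 946 (.use 473) (.use 367) .no (.use 419) (.use 430)
  .no) .no (.hor [.f 945 3 5] []) .no .no) .no .no (.hor [.f 1200 3 5] []) .no .no) (.red [.f 1074
  1 3, .f 1074 3 5] 151 136 [4, 1] [(151, 136, [4, 1])]) .no (.use 474) (.red [.t 1082 1 4, .t 962
  1 4, .f 1081 3 5] 136 136 [] [(136, 136, []), (151, 136, [4, 1])]) .no)

def c28t476 : Tr4 :=
  .br 1073 .no .no .no (.use 378) (.red [.f 1073 5 1, .f 1074 1 3] 151 136 [4, 1] [(151, 136, [4,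
  1])]) (.use 419)

def c28t477 : Tr4 :=
  .br 1073 .no .no .no (.use 379) (.red [.f 1073 5 1, .f 1074 1 3] 151 136 [4, 1] [(151, 136, [4,
  1])]) (.use 430)

def c28t478 : Tr4 :=
  .br 1202 (.use 396) (.red [.f 1074 1 3, .f 1074 3 5] 151 136 [4, 1] [(151, 136, [4, 1])]) .no
  (.use 355) (.red [.t 1082 1 4, .t 962 1 4, .f 1081 3 5] 136 136 [] [(136, 136, []), (151, 136,
  [4, 1])]) (.br 946 (.red [.t 1088 1 4, .f 1081 1 5, .t 945 3 1, .f 1074 3 5, .t 962 1 4] 136 136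
  [] [(135, 119, [1]), (136, 136, []), (152, 136, [1])]) (.use 367) (.hor [.f 945 3 5] []) (.br
  826 (.use 476) (.con 136 [4, 2, 3, 3]) (.con 136 [4, 2, 3, 3]) (.con 136 [4, 2, 3, 3]) (.con 136
  [4, 2, 3, 3]) (.con 136 [4, 2, 3, 3])) (.br 826 (.use 477) (.con 136 [4, 2, 3, 3]) (.con 136 [4,
  2, 3, 3]) (.con 136 [4, 2, 3, 3]) (.con 136 [4, 2, 3, 3]) (.con 136 [4, 2, 3, 3])) .no)

def c28t479 : Tr4 :=
  .br 944 .no (.use 403) .no (.use 372) .no .no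

def c28t480 : Tr4 :=
  .br 824 .no (.br 697 .no (.use 445) (.red [.f 697 3 1, .f 696 1 5] 104 136 [2, 2] [(104, 136,
  [2, 2])]) (.br 698 .no (.con 136 [2, 4, 2, 2]) .no (.use 444) (.con 136 [2, 4, 2, 2]) .no) (.red
  [.t 833 4 2, .f 696 1 5] 104 136 [2, 2] [(104, 136, [2, 2])]) .no) .no (.con 136 [2, 4, 2]) .no
  .no

def c28t481 : Tr4 :=
  .br 818 .no (.br 944 .no (.use 416) .no (.use 372) .no .no) .no (.red [.f 810 3 1, .f 818 1 3]
  119 136 [2, 4] [(118, 136, [2, 4, 4]), (119, 136, [2, 4])]) (.use 480) (.red [.t 953 4 2] 119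
  136 [2, 4] [(119, 136, [2, 4])])

def c28t482 : Tr4 :=
  .br 840 .no (.br 841 .no (.hor [.f 712 1 5] []) (.br 842 (.red [.t 954 2 3, .f 825 3 5, .t 969 4
  2] 121 136 [2, 3] [(120, 104, [1]), (121, 136, [2, 3])]) (.con 136 [2, 2, 3, 3]) (.hor [.f 841 3
  5] []) .no (.con 136 [2, 2, 3, 3]) .no) .no (.red [.t 954 2 3, .f 825 3 5, .f 833 5 3, .f 833 3
  1] 121 136 [2, 3] [(120, 104, [1]), (121, 136, [2, 3])]) .no) (.red [.f 840 3 1, .f 832 1 3, .f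
  960 3 5] 121 136 [2, 3] [(121, 136, [2, 3]), (122, 136, [2, 3, 3])]) .no (.red [.t 954 2 3, .f
  825 3 5, .t 960 2 3] 121 136 [2, 3] [(120, 104, [1]), (121, 136, [2, 3])]) .no

def c28t483 : Tr4 :=
  .br 944 .no (.red [.t 944 2 3, .f 825 1 5] 119 136 [2, 4] [(119, 136, [2, 4])]) .no (.use 372)
  .no .no

def c28t484 : Tr4 :=
  .br 825 .no (.use 479) (.br 834 .no (.br 835 .no (.hor [.f 706 1 5] []) (.use 481) (.con 136 [2,
  2]) .no .no) (.use 411) .no (.use 482) .no) (.red [.f 817 3 1, .f 825 1 5] 119 136 [2, 4] [(119,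
  136, [2, 4])]) .no (.use 483)

def c28t485 : Tr4 :=
  .br 1072 (.use 381) (.use 401) .no (.use 383) (.use 484) .no

def c28t486 : Tr4 :=
  .br 827 .no (.br 825 .no (.use 422) (.br 834 .no (.br 819 .no (.red [.f 691 1 3] 103 136 [2, 2,
  4] [(103, 136, [2, 2, 4])]) .no (.use 425) .no (.red [.t 952 1 4, .f 818 5 1, .f 818 1 3] 119
  136 [2, 4] [(119, 136, [2, 4]), (135, 119, [1])])) (.use 411) .no (.use 482) .no) (.red [.f 817
  3 1, .f 825 1 5] 119 136 [2, 4] [(119, 136, [2, 4])]) .no (.use 429)) (.red [.f 827 3 1, .f 826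
  1 5, .f 946 5 3, .f 945 3 5, .t 1089 4 2, .t 962 4 2] 136 136 [] [(136, 136, [])]) (.red [.t 826
  1 4, .f 945 3 5] 119 136 [2, 4] [(119, 136, [2, 4])]) .no .no

def c28t487 : Tr4 :=
  .br 1072 (.use 381) (.use 420) .no (.use 383) (.use 486) .no

def c28t488 : Tr4 :=
  .br 946 (.red [.f 1081 3 1, .f 1081 1 5, .t 945 3 1, .f 1074 3 5, .t 962 1 4] 136 136 [] [(135,
  119, [1]), (136, 136, []), (152, 136, [1])]) (.use 367) (.hor [.f 945 3 5] []) (.br 826 (.use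
  485) (.con 136 [4, 2, 3, 3]) (.con 136 [4, 2, 3, 3]) (.con 136 [4, 2, 3, 3]) (.con 136 [4, 2, 3,
  3]) (.con 136 [4, 2, 3, 3])) (.br 826 (.use 487) (.con 136 [4, 2, 3, 3]) (.con 136 [4, 2, 3, 3])
  (.con 136 [4, 2, 3, 3]) (.con 136 [4, 2, 3, 3]) (.con 136 [4, 2, 3, 3])) .no

def c28t489 : Tr4 :=
  .br 826 (.use 484) (.con 136 [4, 2, 3, 3]) (.con 136 [4, 2, 3, 3]) (.con 136 [4, 2, 3, 3]) (.con
  136 [4, 2, 3, 3]) (.con 136 [4, 2, 3, 3])

def c28t490 : Tr4 :=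
  .br 826 (.use 486) (.con 136 [4, 2, 3, 3]) (.con 136 [4, 2, 3, 3]) (.con 136 [4, 2, 3, 3]) (.con
  136 [4, 2, 3, 3]) (.con 136 [4, 2, 3, 3])

def c28t491 : Tr4 :=
  .br 1073 .no .no .no (.use 385) (.red [.t 1209 4 2, .f 1074 3 5] 151 136 [4, 1] [(151, 136, [4,
  1])]) (.br 1202 (.br 1208 (.br 946 (.br 826 (.use 473) (.con 136 [4, 2, 3, 3]) (.con 136 [4, 2,
  3, 3]) (.con 136 [4, 2, 3, 3]) (.con 136 [4, 2, 3, 3]) (.con 136 [4, 2, 3, 3])) (.use 367) (.hor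
  [.f 945 3 5] []) (.use 489) (.use 490) .no) .no .no (.hor [.f 1200 3 5] []) .no .no) (.red [.f
  1074 1 3, .f 1074 3 5] 151 136 [4, 1] [(151, 136, [4, 1])]) .no (.use 474) (.red [.t 1082 1 4,
  .t 962 1 4, .f 1081 3 5] 136 136 [] [(136, 136, []), (151, 136, [4, 1])]) .no)

def c28t492 : Tr4 :=
  .br 1073 .no .no .no (.use 378) (.red [.f 1073 5 1, .f 1074 1 3] 151 136 [4, 1] [(151, 136, [4,
  1])]) (.use 484)

def c28t493 : Tr4 :=
  .br 1202 (.use 396) (.red [.f 1074 1 3, .f 1074 3 5] 151 136 [4, 1] [(151, 136, [4, 1])]) .no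
  (.use 355) (.red [.t 1082 1 4, .t 962 1 4, .f 1081 3 5] 136 136 [] [(136, 136, []), (151, 136,
  [4, 1])]) (.use 492)

def c28t494 : Tr4 :=
  .br 1073 .no .no .no (.use 379) (.red [.f 1073 5 1, .f 1074 1 3] 151 136 [4, 1] [(151, 136, [4,
  1])]) (.use 486)

def c28t495 : Tr4 :=
  .br 1202 (.use 396) (.red [.f 1074 1 3, .f 1074 3 5] 151 136 [4, 1] [(151, 136, [4, 1])]) .no
  (.use 355) (.red [.t 1082 1 4, .t 962 1 4, .f 1081 3 5] 136 136 [] [(136, 136, []), (151, 136,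
  [4, 1])]) (.use 494)

def c28t496 : Tr4 :=
  .br 946 (.red [.t 1088 1 4, .f 1081 1 5, .t 945 3 1, .f 1074 3 5, .t 962 1 4] 136 136 [] [(135,
  119, [1]), (136, 136, []), (152, 136, [1])]) (.use 367) (.hor [.f 945 3 5] []) (.br 826 (.use
  493) (.con 136 [4, 2, 3, 3]) (.con 136 [4, 2, 3, 3]) (.con 136 [4, 2, 3, 3]) (.con 136 [4, 2, 3,
  3]) (.con 136 [4, 2, 3, 3])) (.br 826 (.use 495) (.con 136 [4, 2, 3, 3]) (.con 136 [4, 2, 3, 3])
  (.con 136 [4, 2, 3, 3]) (.con 136 [4, 2, 3, 3]) (.con 136 [4, 2, 3, 3])) .no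

def c28t497 : Tr4 :=
  .br 1209 (.hor [.f 1208 1 5] []) .no .no (.dom 151 136 [4, 1]) .no .no

def c28t498 : Tr4 :=
  .br 1073 (.con 136 [4, 4, 1]) .no .no (.hor [.f 1064 3 5] []) .no .no

def c28t499 : Tr4 :=
  .br 1209 (.con 136 [4, 1, 1]) .no .no (.hor [.f 1200 3 5] []) .no .no

def c28t500 : Tr4 :=
  .br 840 .no (.hor [.f 712 1 5] []) (.red [.f 840 3 1] 122 136 [2, 3, 3] [(122, 136, [2, 3, 3])])
  .no .no .no

def c28t501 : Tr4 :=
  .br 1202 (.con 136 [4, 1, 1, 4]) .no .no (.use 340) .no .no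

def c28t502 : Tr4 :=
  .br 840 .no (.con 136 [2, 3, 3, 2]) (.hor [.f 840 3 5] []) .no .no .no

def c28t503 : Tr4 :=
  .br 840 .no (.con 136 [2, 3, 2, 3]) (.hor [.f 840 3 5] []) .no .no .no

def c28t504 : Tr4 :=
  .br 841 .no (.use 500) (.br 842 .no (.use 502) (.hor [.f 841 3 5] []) .no (.use 503) .no) .no
  (.red [.f 833 5 3, .f 833 3 1] 121 136 [2, 3] [(121, 136, [2, 3])]) (.red [.t 960 2 3, .t 1080 2
  3, .f 961 1 5] 121 136 [2, 3] [(121, 136, [2, 3]), (136, 136, [])])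

def c28t505 : Tr4 :=
  .br 840 .no (.hor [.f 712 1 5] []) (.red [.f 840 3 1] 122 136 [2, 3, 3] [(122, 136, [2, 3, 3])])
  .no .no .no

def c28t506 : Tr4 :=
  .br 842 .no (.use 502) (.hor [.f 841 3 5] []) .no (.use 503) .no

def c28t507 : Tr4 :=
  .br 841 .no (.use 505) (.use 506) .no (.red [.f 833 5 3, .f 833 3 1] 121 136 [2, 3] [(121, 136,
  [2, 3])]) (.red [.t 960 2 3, .t 1080 2 3, .f 961 1 5] 121 136 [2, 3] [(121, 136, [2, 3]), (136,
  136, [])])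

def c28t508 : Tr4 :=
  .br 970 (.use 334) (.red [.t 969 4 2, .f 832 1 5] 121 136 [2, 3] [(121, 136, [2, 3])]) (.use
  504) .no (.use 507) .no

def c28t509 : Tr4 :=
  .br 697 .no (.red [.f 569 1 3, .f 697 3 1] 104 136 [2, 2] [(88, 136, [2, 2, 2]), (104, 136, [2,
  2])]) .no (.use 465) (.red [.t 833 4 2] 104 136 [2, 2] [(104, 136, [2, 2])]) (.use 415)

def c28t510 : Tr4 :=
  .br 1466 (.br 1353 (.use 305) .no (.use 132) .no (.br 1347 (.br 1474 (.br 1464 (.hor [.f 1337 1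
  3, .f 1466 1 3, .f 1465 3 5] [(184, 136, [1, 1, 1]), (200, 136, [1, 1, 1, 1])]) .no (.hor [.f
  1337 1 3, .f 1464 3 5] [(184, 136, [1, 1, 1])]) (.hor [.f 1337 1 3, .f 1466 1 3, .f 1465 3 5]
  [(184, 136, [1, 1, 1]), (200, 136, [1, 1, 1, 1])]) .no .no) .no (.hor [.t 1473 2 3, .f 1217 3 1,
  .f 1216 1 5] [(169, 168, [3]), (185, 184, [3])]) .no .no .no) .no (.hor [.t 1217 3 1, .f 1346 3
  5] [(169, 168, [3])]) .no .no .no) (.use 138)) .no (.hor [.f 1337 1 3, .f 1465 3 5] [(184, 136,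
  [1, 1, 1])]) (.hor [.f 1330 3 1, .f 1330 1 5] [(183, 167, [1])]) (.hor [.t 1330 3 1, .f 1337 1
  5] [(183, 167, [1])]) .no

def c28t511 : Tr4 :=
  .br 1193 (.red [.f 1058 3 1, .t 1065 3 1, .f 1194 3 5, .t 1082 1 4, .t 1210 4 1] 151 136 [4, 1]
  [(149, 165, [2]), (150, 165, [2, 3]), (151, 136, [4, 1]), (167, 136, [4, 1, 1])]) .no .no (.hor
  [.f 1185 3 5] []) .no (.red [.f 1058 3 1, .t 1065 3 1, .f 1194 3 5, .t 1082 1 4, .t 1210 4 1]
  151 136 [4, 1] [(149, 165, [2]), (150, 166, [2]), (151, 136, [4, 1]), (167, 136, [4, 1, 1])])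

def c28t512 : Tr4 :=
  .br 947 .no (.br 939 .no (.use 467) .no (.br 938 .no (.br 937 .no (.use 435) .no (.con 136 [2,
  4, 4, 4]) .no (.con 136 [2, 4, 4, 4])) .no (.hor [.f 930 3 5] []) .no (.red [.t 1073 4 2] 134
  136 [4, 4] [(134, 136, [4, 4])])) .no (.red [.f 938 5 1, .f 938 1 3] 134 136 [4, 4] [(134, 136,
  [4, 4])])) .no (.red [.t 946 1 4, .f 1065 3 5] 134 136 [4, 4] [(134, 136, [4, 4])]) .no .no

def c28t513 : Tr4 :=
  .br 1203 (.red [.f 1203 1 3] 167 136 [4, 1, 1] [(167, 136, [4, 1, 1])]) .no .no (.red [.t 1065 3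
  1, .f 1194 3 5, .t 1082 1 4] 151 136 [4, 1] [(150, 149, [3]), (151, 136, [4, 1])]) .no .no

def c28t514 : Tr4 :=
  .br 1194 (.red [.t 1194 1 3, .f 1203 1 3] 167 136 [4, 1, 1] [(166, 136, [4, 4, 1, 1]), (167,
  136, [4, 1, 1])]) .no .no (.use 511) .no (.red [.f 1193 5 3, .f 1194 3 5, .t 1082 1 4] 151 136
  [4, 1] [(151, 136, [4, 1])])

def c28t515 : Tr4 :=
  .br 1203 (.red [.f 1203 1 3] 167 136 [4, 1, 1] [(167, 136, [4, 1, 1])]) .no .no (.br 1338 (.br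
  1331 (.use 142) .no .no (.red [.f 1195 3 1, .f 1203 1 3, .f 1075 3 1, .f 1082 1 5] 151 136 [4,
  1] [(151, 136, [4, 1]), (166, 136, [4, 4, 1, 1]), (167, 136, [4, 1, 1])]) .no (.use 514)) .no
  .no (.red [.t 1344 2 4, .t 1337 2 4] 167 136 [4, 1, 1] [(167, 136, [4, 1, 1]), (168, 136, [1,
  1])]) .no .no) .no .no

def c28l16 : List Tr4 :=
  [c28t470, c28t471, c28t472, c28t473, c28t474, c28t475, c28t476, c28t477, c28t478, c28t479,
  c28t480, c28t481, c28t482, c28t483, c28t484, c28t485, c28t486, c28t487, c28t488, c28t489,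
  c28t490, c28t491, c28t492, c28t493, c28t494, c28t495, c28t496, c28t497, c28t498, c28t499,
  c28t500, c28t501, c28t502, c28t503, c28t504, c28t505, c28t506, c28t507, c28t508, c28t509,
  c28t510, c28t511, c28t512, c28t513, c28t514, c28t515]

theorem c28k16 : chkLF ⟨4, 1, 0, true, -8⟩ false 8 c28N 470 c28l16 = true := by decide +kernel

def c28t516 : Tr4 :=
  .br 1209 (.br 1203 (.red [.f 1203 1 3] 167 136 [4, 1, 1] [(167, 136, [4, 1, 1])]) .no .no (.br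
  1201 (.red [.f 1201 1 3] 167 136 [4, 1, 1] [(167, 136, [4, 1, 1])]) .no .no (.use 501) (.br 1066
  (.red [.t 1065 3 1, .f 1194 3 5, .t 1082 1 4] 151 136 [4, 1] [(150, 134, [1]), (151, 136, [4,
  1])]) (.red [.f 938 1 3] 134 136 [4, 4] [(134, 136, [4, 4])]) .no (.br 1338 (.br 1330 (.red [.f
  1330 1 3, .t 1337 2 4] 167 136 [4, 1, 1] [(167, 136, [4, 1, 1]), (183, 136, [4, 1, 1, 1])]) .no
  .no (.use 112) (.use 514) (.red [.f 1201 5 1, .f 1201 1 3] 167 136 [4, 1, 1] [(167, 136, [4, 1,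
  1])])) .no .no (.red [.t 1337 2 4] 167 136 [4, 1, 1] [(167, 136, [4, 1, 1])]) .no .no) (.use
  512) .no) .no) .no (.red [.t 1082 1 4, .t 962 1 4, .f 1081 3 5] 136 136 [] [(136, 136, []),
  (151, 136, [4, 1])])) .no .no (.dom 151 136 [4, 1]) .no .no

def c28t517 : Tr4 :=
  .br 1098 (.br 1216 (.br 1208 (.use 497) .no .no .no (.br 1202 (.use 396) .no .no (.use 355)
  (.red [.t 1082 1 4, .t 962 1 4, .f 1081 3 5] 136 136 [] [(136, 136, []), (151, 136, [4, 1])])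
  (.br 1345 (.br 1203 (.red [.f 1203 1 3] 167 136 [4, 1, 1] [(167, 136, [4, 1, 1])]) .no .no (.br
  1066 (.red [.t 1065 3 1, .f 1194 3 5, .t 1082 1 4] 151 136 [4, 1] [(150, 134, [1]), (151, 136,
  [4, 1])]) (.red [.f 938 1 3] 134 136 [4, 4] [(134, 136, [4, 4])]) .no (.br 1224 (.hor [.f 1216 1
  3, .f 1216 3 5] [(169, 168, [3])]) .no (.br 1194 (.br 1331 (.br 1338 (.use 129) .no .no (.br
  1337 (.br 1336 (.hor [.f 1336 1 5] []) .no .no (.br 1329 (.hor [.f 1329 1 3, .f 1328 3 5] [(183,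
  167, [1])]) .no .no (.red [.t 1321 3 2, .f 1194 3 5] 166 136 [4, 4, 1, 1] [(166, 136, [4, 4, 1,
  1])]) .no .no) .no .no) .no .no (.hor [.f 1329 3 5] []) .no (.red [.f 1208 5 1, .t 1337 2 4] 167
  136 [4, 1, 1] [(167, 136, [4, 1, 1])])) .no (.use 131)) .no .no (.red [.f 1195 3 1, .f 1203 1 3,
  .f 1075 3 1, .f 1082 1 5] 151 136 [4, 1] [(151, 136, [4, 1]), (166, 136, [4, 4, 1, 1]), (167,
  136, [4, 1, 1])]) .no (.red [.t 1194 1 3, .f 1203 1 3] 167 136 [4, 1, 1] [(166, 136, [4, 4, 1,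
  1]), (167, 136, [4, 1, 1])])) .no .no (.br 1331 (.br 1338 (.use 129) .no .no (.br 1337 (.br 1336
  (.hor [.f 1336 1 5] []) .no .no (.use 510) .no .no) .no .no (.hor [.f 1329 3 5] []) .no (.red
  [.f 1208 5 1, .t 1337 2 4] 167 136 [4, 1, 1] [(167, 136, [4, 1, 1])])) .no (.use 131)) .no .no
  (.red [.f 1195 3 1, .f 1203 1 3, .f 1075 3 1, .f 1082 1 5] 151 136 [4, 1] [(151, 136, [4, 1]),
  (166, 136, [4, 4, 1, 1]), (167, 136, [4, 1, 1])]) .no (.use 511)) .no (.red [.f 1193 5 3, .f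
  1194 3 5, .t 1082 1 4] 151 136 [4, 1] [(151, 136, [4, 1])])) .no .no .no) (.use 512) .no) .no
  .no) .no (.hor [.f 1217 3 1, .f 1216 1 5] [(169, 168, [3])]) (.br 1066 (.use 513) (.red [.f 938
  1 3] 134 136 [4, 4] [(134, 136, [4, 4])]) .no (.use 515) (.use 512) .no) .no .no)) .no) .no
  (.hor [.f 1216 3 5] []) (.use 516) .no .no) (.use 334) (.use 205) .no (.br 1216 (.br 1208 (.use
  497) .no .no .no (.br 1202 (.use 396) .no .no (.use 355) (.red [.t 1082 1 4, .t 962 1 4, .f 1081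
  3 5] 136 136 [] [(136, 136, []), (151, 136, [4, 1])]) (.br 1066 (.use 513) (.red [.f 938 1 3]
  134 136 [4, 4] [(134, 136, [4, 4])]) .no (.br 1345 (.br 1203 (.red [.f 1203 1 3] 167 136 [4, 1,
  1] [(167, 136, [4, 1, 1])]) .no .no (.br 1224 (.hor [.f 1216 1 3, .f 1216 3 5] [(169, 168,
  [3])]) .no (.br 1331 (.use 158) .no .no (.red [.f 1195 3 1, .f 1203 1 3, .f 1075 3 1, .f 1082 1
  5] 151 136 [4, 1] [(151, 136, [4, 1]), (166, 136, [4, 4, 1, 1]), (167, 136, [4, 1, 1])]) .no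
  (.use 514)) .no .no .no) .no .no) .no (.hor [.f 1217 3 1, .f 1216 1 5] [(169, 168, [3])]) (.use
  515) .no .no) (.use 512) .no)) .no) .no (.hor [.f 1216 3 5] []) (.use 516) .no .no) .no

def c28t518 : Tr4 :=
  .br 841 .no (.use 500) (.con 136 [2, 3, 3, 2]) .no .no .no

def c28t519 : Tr4 :=
  .br 578 .no (.hor [.f 449 1 5] []) (.con 136 [2, 2, 3, 2, 2]) (.red [.t 578 4 1, .f 569 1 5] 88
  136 [2, 2, 2] [(88, 136, [2, 2, 2])]) .no .no

def c28t520 : Tr4 :=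
  .br 707 .no (.br 577 .no (.use 519) (.red [.f 577 3 1, .f 569 1 3] 89 136 [2, 2, 3, 2] [(88,
  136, [2, 2, 2]), (89, 136, [2, 2, 3, 2])]) .no (.red [.t 705 3 1, .f 577 5 1, .f 569 1 3, .f 697
  3 1, .f 705 1 3] 88 136 [2, 2, 2] [(88, 136, [2, 2, 2]), (104, 136, [2, 2])]) (.con 136 [2, 2,
  3, 2, 4])) (.con 136 [2, 2, 3, 2]) .no .no .no

def c28t521 : Tr4 :=
  .br 698 .no (.use 463) .no (.hor [.f 689 3 5] []) (.br 696 (.use 453) (.con 136 [2, 2, 2, 4])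
  (.con 136 [2, 2, 2]) (.hor [.f 688 3 5] []) .no .no) .no

def c28t522 : Tr4 :=
  .br 944 .no (.br 705 .no (.use 509) (.br 697 .no (.br 696 (.use 456) (.hor [.f 568 1 5] [])
  (.use 470) (.br 698 .no (.hor [.f 569 1 5] []) .no (.br 818 .no .no .no .no (.br 827 .no (.con
  136 [2, 2, 4]) .no .no .no .no) (.red [.t 953 4 2, .f 690 3 1] 103 136 [2, 2, 4] [(103, 136, [2,
  2, 4]), (119, 136, [2, 4])])) (.use 520) .no) .no .no) .no (.use 521) (.red [.t 705 3 1, .t 841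
  2 4, .t 833 4 2] 104 136 [2, 2] [(104, 136, [2, 2])]) (.use 415)) (.red [.f 697 3 1, .f 705 1 5]
  104 136 [2, 2] [(104, 136, [2, 2])]) .no (.use 405)) .no (.br 937 .no (.hor [.f 809 1 5] []) .no
  (.con 136 [4, 4, 4, 2]) .no .no) .no .no

def c28t523 : Tr4 :=
  .br 842 .no (.con 136 [2, 3, 2, 3]) (.hor [.f 841 3 5] []) .no .no .no

def c28t524 : Tr4 :=
  .br 841 .no (.use 505) (.use 523) .no (.use 522) .no

def c28t525 : Tr4 :=
  .br 819 (.use 409) (.con 136 [4, 4, 2, 3]) (.con 136 [2, 2, 4, 1]) (.con 136 [4, 4, 2, 2]) .no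
  .no

def c28t526 : Tr4 :=
  .br 696 (.use 459) (.hor [.f 568 1 5] []) (.use 447) (.use 525) .no .no

def c28t527 : Tr4 :=
  .br 696 (.use 454) (.con 136 [2, 2, 4, 2]) (.con 136 [2, 2, 4, 2]) (.use 525) .no .no

def c28t528 : Tr4 :=
  .br 944 .no (.br 705 .no (.use 509) (.br 818 .no (.br 697 .no (.use 526) .no (.use 527) (.red
  [.t 705 3 1, .t 841 2 4, .t 833 4 2] 104 136 [2, 2] [(104, 136, [2, 2])]) (.use 415)) .no (.use
  457) (.con 136 [4, 4, 2, 3]) (.red [.t 953 4 2, .f 816 1 5] 119 136 [2, 4] [(119, 136, [2,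
  4])])) (.red [.f 697 3 1, .f 705 1 5] 104 136 [2, 2] [(104, 136, [2, 2])]) .no (.use 405)) .no
  (.con 136 [4, 4, 2]) .no .no

def c28t529 : Tr4 :=
  .br 841 .no (.use 505) (.use 523) .no (.use 528) .no

def c28t530 : Tr4 :=
  .br 840 .no (.br 938 .no (.br 970 .no (.red [.t 961 3 1, .t 825 3 1, .f 954 3 5, .t 842 1 4] 121
  136 [2, 3] [(120, 104, [1]), (121, 136, [2, 3]), (137, 121, [1])]) (.br 842 .no (.use 518) (.red
  [.f 842 3 1] 122 136 [2, 3, 3] [(122, 136, [2, 3, 3])]) .no .no (.use 522)) .no (.use 524) .no)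
  .no (.red [.f 930 3 1, .f 938 1 3] 134 136 [4, 4] [(133, 136, [4, 4, 4]), (134, 136, [4, 4])])
  (.br 970 .no (.red [.t 961 3 1, .t 825 3 1, .f 954 3 5, .t 842 1 4] 121 136 [2, 3] [(120, 104,
  [1]), (121, 136, [2, 3]), (137, 121, [1])]) (.br 842 .no (.use 518) (.red [.f 842 3 1] 122 136
  [2, 3, 3] [(122, 136, [2, 3, 3])]) .no .no (.use 528)) .no (.use 529) .no) (.red [.t 1073 4 2]
  134 136 [4, 4] [(134, 136, [4, 4])])) (.red [.f 840 3 1, .f 832 1 3, .f 960 3 5] 121 136 [2, 3]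
  [(121, 136, [2, 3]), (122, 136, [2, 3, 3])]) .no (.red [.t 960 2 3, .t 1080 2 3, .f 961 1 5] 121
  136 [2, 3] [(121, 136, [2, 3]), (136, 136, [])]) .no

def c28t531 : Tr4 :=
  .br 1202 (.use 396) .no .no (.use 355) (.red [.t 1082 1 4, .t 962 1 4, .f 1081 3 5] 136 136 []
  [(136, 136, []), (151, 136, [4, 1])]) (.br 1066 (.use 513) (.red [.f 938 1 3] 134 136 [4, 4]
  [(134, 136, [4, 4])]) .no (.use 530) (.use 512) .no)

def c28t532 : Tr4 :=
  .br 1202 (.use 472) .no .no (.use 474) .no .no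

def c28t533 : Tr4 :=
  .br 1209 (.hor [.f 1208 1 5] []) .no .no (.use 532) .no .no

def c28t534 : Tr4 :=
  .br 1065 (.hor [.f 1065 1 5] []) (.con 136 [4, 1, 4, 4]) .no (.con 136 [4, 1, 4, 4]) .no (.con
  136 [4, 1, 4, 4])

def c28t535 : Tr4 :=
  .br 937 (.con 136 [4, 4, 4]) (.hor [.f 809 1 5] []) .no (.con 136 [4, 4, 4, 2]) .no .no

def c28t536 : Tr4 :=
  .br 1200 (.con 136 [4, 4, 1, 1]) .no .no (.red [.t 1192 3 2] 150 136 [4, 4, 1] [(150, 136, [4,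
  4, 1])]) .no .no

def c28t537 : Tr4 :=
  .br 1065 (.use 536) .no .no (.hor [.f 1057 3 5] []) .no (.red [.f 1064 5 3, .t 1073 4 2] 134 136
  [4, 4] [(134, 136, [4, 4])])

def c28t538 : Tr4 :=
  .br 938 .no (.use 535) .no (.red [.f 930 3 1, .f 938 1 3] 134 136 [4, 4] [(133, 136, [4, 4, 4]),
  (134, 136, [4, 4])]) (.con 136 [4, 4, 2]) (.use 537)

def c28t539 : Tr4 :=
  .br 696 .no (.use 438) (.use 437) (.hor [.f 688 3 5] []) .no .no

def c28t540 : Tr4 :=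
  .br 816 .no (.br 824 .no (.br 818 .no (.br 819 (.con 136 [2, 4, 4]) (.con 136 [2, 4, 2, 2])
  (.con 136 [2, 2, 4, 4]) (.con 136 [2, 4, 2, 4]) .no .no) .no (.red [.t 952 1 4, .f 945 1 5, .t
  809 1 3, .f 818 1 3] 119 136 [2, 4] [(118, 136, [2, 4, 4]), (119, 136, [2, 4]), (135, 119,
  [1])]) (.con 136 [2, 4, 2, 4]) (.red [.t 953 4 2, .f 809 1 3, .f 936 3 5] 119 136 [2, 4] [(118,
  136, [2, 4, 4]), (119, 136, [2, 4])])) .no .no .no .no) (.use 539) (.red [.f 808 3 1, .f 808 1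
  5] 118 136 [2, 4, 4] [(118, 136, [2, 4, 4])]) (.red [.t 936 3 2] 118 136 [2, 4, 4] [(118, 136,
  [2, 4, 4])]) .no

def c28t541 : Tr4 :=
  .br 937 (.con 136 [4, 4, 4]) (.use 540) .no (.hor [.f 929 3 5] []) .no .no

def c28t542 : Tr4 :=
  .br 938 (.red [.f 938 1 3] 134 136 [4, 4] [(134, 136, [4, 4])]) (.use 535) .no (.use 541) (.con
  136 [4, 4, 2]) (.br 1202 (.use 9) .no .no (.use 355) .no (.br 1066 (.use 534) .no .no (.use 537)
  (.br 947 .no (.br 824 .no (.use 436) .no (.con 136 [2, 4, 2]) .no .no) .no (.red [.t 952 1 4, .t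
  946 1 4, .t 1072 3 2] 134 136 [4, 4] [(134, 136, [4, 4])]) .no .no) (.red [.f 937 5 1, .f 938 1
  3] 134 136 [4, 4] [(134, 136, [4, 4])])))

def c28t543 : Tr4 :=
  .br 947 .no (.con 136 [2, 4, 4]) .no (.red [.t 952 1 4, .t 946 1 4, .t 1072 3 2] 134 136 [4, 4]
  [(134, 136, [4, 4])]) .no .no

def c28t544 : Tr4 :=
  .br 817 .no (.br 816 .no (.hor [.f 688 1 5] []) (.red [.t 816 3 2] 103 136 [2, 2, 4] [(103, 136,
  [2, 2, 4])]) (.red [.f 808 3 1, .f 808 1 5] 118 136 [2, 4, 4] [(118, 136, [2, 4, 4])]) .no .no)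
  .no .no (.red [.t 953 4 2, .f 809 1 3, .f 936 3 5] 119 136 [2, 4] [(118, 136, [2, 4, 4]), (119,
  136, [2, 4])]) (.red [.t 936 3 2] 118 136 [2, 4, 4] [(118, 136, [2, 4, 4])])

def c28t545 : Tr4 :=
  .br 937 .no (.use 544) .no (.hor [.f 929 3 5] []) .no .no

def c28t546 : Tr4 :=
  .br 944 .no (.use 415) .no (.br 1202 (.use 9) .no .no (.use 355) .no (.br 1066 (.use 534) (.red
  [.f 938 1 3] 134 136 [4, 4] [(134, 136, [4, 4])]) .no (.use 538) (.use 543) (.br 938 .no (.use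
  535) .no (.use 545) (.con 136 [4, 4, 2]) (.red [.f 937 5 1, .f 938 1 3] 134 136 [4, 4] [(134,
  136, [4, 4])])))) .no .no

def c28t547 : Tr4 :=
  .br 697 .no (.red [.f 569 1 3, .f 697 3 1] 104 136 [2, 2] [(88, 136, [2, 2, 2]), (104, 136, [2,
  2])]) .no (.br 944 .no (.use 465) .no (.use 542) .no .no) (.red [.t 833 4 2] 104 136 [2, 2]
  [(104, 136, [2, 2])]) (.use 546)

def c28t548 : Tr4 :=
  .br 936 (.hor [.f 936 1 5] []) (.con 136 [4, 4, 4]) .no (.con 136 [4, 4, 4]) .no .no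

def c28t549 : Tr4 :=
  .br 1331 (.hor [.f 1330 1 5] []) .no .no (.red [.f 1195 3 1, .f 1203 1 3, .f 1075 3 1, .f 1082 1
  5] 151 136 [4, 1] [(151, 136, [4, 1]), (166, 136, [4, 1, 1, 4]), (167, 136, [4, 1, 1])]) .no .no

def c28t550 : Tr4 :=
  .br 1330 (.use 549) .no .no .no (.red [.t 1194 1 3, .f 1203 1 3] 167 136 [4, 1, 1] [(166, 136,
  [4, 1, 1, 4]), (167, 136, [4, 1, 1])]) (.red [.f 1201 5 1, .f 1194 1 3] 166 136 [4, 1, 1, 4]
  [(166, 136, [4, 1, 1, 4])])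

def c28t551 : Tr4 :=
  .br 827 .no (.red [.t 698 4 1] 103 136 [2, 4, 2] [(103, 136, [2, 4, 2])]) .no .no .no .no

def c28t552 : Tr4 :=
  .br 818 .no .no .no (.br 938 (.red [.f 938 1 3, .f 810 3 1] 134 136 [4, 4] [(118, 136, [2, 4,
  4]), (134, 136, [4, 4])]) .no .no (.br 937 (.use 548) (.red [.t 952 1 4, .f 945 1 5, .t 809 1 3,
  .f 818 1 3] 119 136 [2, 4] [(118, 136, [2, 4, 4]), (119, 136, [2, 4]), (135, 119, [1])]) .no
  (.hor [.f 929 3 5] []) .no (.br 939 (.con 136 [4, 4, 4]) (.use 467) (.br 696 (.br 707 .no (.br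
  699 (.br 819 .no (.red [.f 691 1 3, .f 690 3 5] 103 136 [2, 2, 4] [(103, 136, [2, 2, 4])]) .no
  (.hor [.f 810 3 5] []) .no .no) (.red [.f 571 1 3] 88 136 [2, 2, 2] [(88, 136, [2, 2, 2])]) .no
  (.hor [.f 690 3 5] []) .no .no) (.con 136 [2, 2, 3, 2]) (.use 451) .no .no) (.hor [.f 568 1 5]
  []) (.use 470) (.br 689 (.red [.t 952 1 4, .t 832 1 4, .f 825 1 5, .t 689 1 3, .f 698 1 3] 104
  136 [2, 2] [(103, 136, [2, 2, 4]), (104, 136, [2, 2]), (120, 104, [1]), (135, 119, [1])]) (.red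
  [.f 561 1 3, .f 689 3 5, .t 833 4 2] 104 136 [2, 2] [(87, 86, [3]), (104, 136, [2, 2])]) .no
  (.br 817 .no .no .no (.use 469) .no .no) .no .no) .no .no) (.hor [.f 930 3 5] []) .no .no))
  (.use 457) (.red [.t 952 1 4, .f 945 1 5, .f 937 5 3, .f 810 3 1, .f 818 1 3] 119 136 [2, 4]
  [(118, 136, [2, 4, 4]), (119, 136, [2, 4]), (135, 119, [1])])) (.use 551) (.red [.t 953 4 2, .f
  690 3 1] 119 136 [2, 4] [(103, 136, [2, 2, 4]), (119, 136, [2, 4])])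

def c28t553 : Tr4 :=
  .br 1200 (.con 136 [4, 4, 1, 1]) .no .no (.red [.f 1064 5 3, .f 1064 3 1] 150 136 [4, 4, 1]
  [(150, 136, [4, 4, 1])]) .no .no

def c28l17 : List Tr4 :=
  [c28t516, c28t517, c28t518, c28t519, c28t520, c28t521, c28t522, c28t523, c28t524, c28t525,
  c28t526, c28t527, c28t528, c28t529, c28t530, c28t531, c28t532, c28t533, c28t534, c28t535,
  c28t536, c28t537, c28t538, c28t539, c28t540, c28t541, c28t542, c28t543, c28t544, c28t545,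
  c28t546, c28t547, c28t548, c28t549, c28t550, c28t551, c28t552, c28t553]

theorem c28k17 : chkLF ⟨4, 1, 0, true, -8⟩ false 8 c28N 516 c28l17 = true := by decide +kernel

def c28t554 : Tr4 :=
  .br 939 .no (.con 136 [4, 4, 2, 3]) (.red [.t 952 1 4, .t 946 1 4, .t 1072 3 2] 134 136 [4, 4]
  [(134, 136, [4, 4])]) (.con 136 [4, 4, 2, 3]) .no (.con 136 [4, 4, 2, 3])

def c28t555 : Tr4 :=
  .br 818 .no (.br 827 .no .no .no (.con 136 [2, 2, 4, 1]) .no .no) .no (.br 938 (.red [.f 938 1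
  3, .f 810 3 1] 134 136 [4, 4] [(118, 136, [2, 4, 4]), (134, 136, [4, 4])]) .no .no (.br 937
  (.use 548) (.red [.t 952 1 4, .f 945 1 5, .t 809 1 3, .f 818 1 3] 119 136 [2, 4] [(118, 136, [2,
  4, 4]), (119, 136, [2, 4]), (135, 119, [1])]) .no (.hor [.f 929 3 5] []) .no (.br 1066 (.br 1065
  (.use 536) .no .no (.con 136 [4, 4, 1, 4]) .no (.con 136 [4, 4, 1, 4])) .no .no (.red [.f 930 3
  1, .f 938 1 3] 134 136 [4, 4] [(133, 136, [4, 4, 4]), (134, 136, [4, 4])]) (.br 939 .no (.use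
  467) (.red [.t 952 1 4, .t 946 1 4, .t 1072 3 2] 134 136 [4, 4] [(134, 136, [4, 4])]) (.hor [.f
  930 3 5] []) .no .no) (.br 1064 (.con 136 [4, 4, 1, 4]) .no .no (.br 1057 (.br 1194 (.use 550)
  .no .no (.con 136 [4, 4, 1, 4, 4]) .no (.red [.f 1193 5 3, .f 1194 3 5, .t 1082 1 4] 151 136 [4,
  1] [(151, 136, [4, 1])])) (.red [.t 1056 3 2, .f 929 3 5] 133 136 [4, 4, 4] [(133, 136, [4, 4,
  4])]) .no (.br 939 (.con 136 [4, 4, 4]) (.use 467) (.br 929 .no (.br 819 .no (.br 817 .no (.br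
  809 .no (.hor [.f 681 1 3, .f 809 3 5] [(102, 103, [4])]) .no .no .no (.red [.f 808 5 1, .f 801
  1 3, .f 929 3 5, .f 937 5 1, .f 938 1 3] 134 136 [4, 4] [(117, 133, [2]), (134, 136, [4, 4])]))
  .no (.hor [.f 809 3 5] []) .no .no) (.con 136 [2, 2, 4, 1]) (.hor [.f 810 3 5] []) .no .no) .no
  (.red [.f 921 3 1, .t 929 1 3] 133 136 [4, 4, 4] [(132, 136, [4, 4, 4, 4]), (133, 136, [4, 4,
  4])]) .no (.red [.f 928 5 3, .f 929 3 5, .f 937 5 1, .f 938 1 3] 134 136 [4, 4] [(134, 136, [4,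
  4])])) (.hor [.f 930 3 5] []) .no .no) (.red [.f 1057 5 3, .f 930 3 1, .f 938 1 3] 134 136 [4,
  4] [(133, 136, [4, 4, 4]), (134, 136, [4, 4])]) .no) .no .no))) (.use 457) (.red [.t 952 1 4, .f
  945 1 5, .f 937 5 3, .f 810 3 1, .f 818 1 3] 119 136 [2, 4] [(118, 136, [2, 4, 4]), (119, 136,
  [2, 4]), (135, 119, [1])])) (.br 1193 (.br 1066 (.con 136 [4, 4, 1, 4]) (.red [.f 938 1 3] 134
  136 [4, 4] [(134, 136, [4, 4])]) .no (.br 938 .no (.br 939 (.con 136 [4, 4, 2, 3]) (.con 136 [4,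
  4, 2, 3]) (.br 1065 .no (.br 936 (.hor [.f 936 1 5] []) (.con 136 [4, 4, 4]) .no (.con 136 [4,
  4, 4]) .no .no) .no (.hor [.f 1057 3 5] []) .no (.use 553)) (.con 136 [4, 4, 2, 3]) .no .no) .no
  (.red [.f 930 3 1, .f 938 1 3] 134 136 [4, 4] [(133, 136, [4, 4, 4]), (134, 136, [4, 4])]) (.con
  136 [4, 4, 2, 3]) (.use 537)) (.use 554) (.br 1194 (.use 550) .no .no (.con 136 [4, 4, 1, 4, 1])
  .no .no)) (.use 536) .no (.br 1066 (.con 136 [4, 4, 1, 4]) (.red [.f 938 1 3] 134 136 [4, 4]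
  [(134, 136, [4, 4])]) .no (.br 1065 .no (.br 936 (.hor [.f 936 1 5] []) (.con 136 [4, 4, 4]) .no
  (.con 136 [4, 4, 4]) .no .no) .no (.hor [.f 1057 3 5] []) .no (.use 553)) (.use 554) (.br 1194
  (.use 550) .no .no (.hor [.f 1185 3 5] []) .no .no)) (.red [.f 1193 5 3, .f 1194 3 5, .t 1082 1
  4] 151 136 [4, 1] [(151, 136, [4, 1])]) (.con 136 [4, 4, 1, 1])) (.red [.t 953 4 2, .f 816 1 5]
  119 136 [2, 4] [(119, 136, [2, 4])])

def c28t556 : Tr4 :=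
  .br 697 .no (.br 698 .no (.hor [.f 569 1 5] []) .no (.use 552) (.br 696 (.use 464) (.hor [.f 568
  1 5] []) (.con 136 [2, 2, 2]) (.use 555) .no .no) .no) .no (.br 698 .no (.use 463) .no (.hor [.f
  689 3 5] []) (.br 696 (.use 464) (.con 136 [2, 2, 2, 4]) (.con 136 [2, 2, 2]) (.use 555) .no
  .no) .no) (.red [.t 833 4 2] 104 136 [2, 2] [(104, 136, [2, 2])]) (.use 415)

def c28t557 : Tr4 :=
  .br 1337 (.hor [.f 1336 1 5] []) .no .no (.br 1338 (.con 136 [4, 1, 1, 1]) .no .no (.hor [.f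
  1329 3 5] []) .no .no) (.use 556) .no

def c28t558 : Tr4 :=
  .br 1066 (.con 136 [4, 4, 1, 4]) (.red [.f 938 1 3] 134 136 [4, 4] [(134, 136, [4, 4])]) .no
  (.hor [.f 1057 3 5] []) (.br 1193 (.br 1194 (.hor [.f 1193 1 5] []) .no .no (.con 136 [4, 4, 1,
  4, 1]) .no .no) .no .no (.red [.f 1057 3 1] 149 136 [4, 4, 1, 4] [(149, 136, [4, 4, 1, 4])])
  (.red [.f 1193 5 3, .f 1194 3 5, .t 1082 1 4] 151 136 [4, 1] [(151, 136, [4, 1])]) (.con 136 [4,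
  4, 1, 1])) .no

def c28t559 : Tr4 :=
  .br 1194 (.red [.t 1194 1 3, .f 1203 1 3] 167 136 [4, 1, 1] [(166, 136, [4, 4, 1, 1]), (167,
  136, [4, 1, 1])]) .no .no (.br 1193 (.con 136 [4, 4, 1, 4, 1]) .no .no (.hor [.f 1185 3 5] [])
  .no (.con 136 [4, 4, 1, 1])) .no (.red [.f 1193 5 3, .f 1194 3 5, .t 1082 1 4] 151 136 [4, 1]
  [(151, 136, [4, 1])])

def c28t560 : Tr4 :=
  .br 1066 (.con 136 [4, 4, 4]) (.hor [.f 937 1 5] []) .no (.con 136 [4, 4, 4]) (.con 136 [4, 4,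
  4]) .no

def c28t561 : Tr4 :=
  .br 1338 (.br 1064 (.con 136 [4, 4, 1, 1]) (.br 1331 (.use 128) .no .no (.red [.f 1195 3 1, .f
  1203 1 3, .f 1075 3 1, .f 1082 1 5] 151 136 [4, 1] [(151, 136, [4, 1]), (166, 136, [4, 4, 1,
  1]), (167, 136, [4, 1, 1])]) .no (.br 1065 (.use 536) (.hor [.f 936 1 5] []) .no (.use 558)
  (.use 559) .no)) .no (.br 1065 (.use 536) (.use 560) .no (.use 558) (.br 1331 (.use 128) .no .no
  (.red [.f 1195 3 1, .f 1203 1 3, .f 1075 3 1, .f 1082 1 5] 151 136 [4, 1] [(151, 136, [4, 1]),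
  (166, 136, [4, 4, 1, 1]), (167, 136, [4, 1, 1])]) .no (.use 559)) .no) (.use 553) .no) .no .no
  (.red [.f 1208 5 1, .t 1337 2 4] 167 136 [4, 1, 1] [(167, 136, [4, 1, 1])]) .no .no

def c28t562 : Tr4 :=
  .br 817 .no (.br 816 .no (.hor [.f 688 1 5] []) (.br 696 .no (.hor [.f 568 1 5] []) (.br 698 .no
  (.hor [.f 569 1 5] []) .no (.red [.t 952 1 4, .t 832 1 4, .f 825 1 5, .t 689 1 3, .f 698 1 3]
  104 136 [2, 2] [(103, 136, [2, 2, 4]), (104, 136, [2, 2]), (120, 104, [1]), (135, 119, [1])])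
  (.con 136 [2, 2, 2]) .no) (.red [.f 688 3 1, .f 688 1 5] 103 136 [2, 2, 4] [(103, 136, [2, 2,
  4])]) .no .no) (.red [.f 808 3 1, .f 808 1 5] 118 136 [2, 4, 4] [(118, 136, [2, 4, 4])]) .no
  .no) .no .no (.red [.t 953 4 2, .f 809 1 3, .f 936 3 5] 119 136 [2, 4] [(118, 136, [2, 4, 4]),
  (119, 136, [2, 4])]) (.red [.t 936 3 2] 118 136 [2, 4, 4] [(118, 136, [2, 4, 4])])

def c28t563 : Tr4 :=
  .br 938 .no (.use 535) .no (.br 937 .no (.br 697 .no (.use 562) .no (.use 540) (.red [.t 833 4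
  2] 104 136 [2, 2] [(104, 136, [2, 2])]) (.use 544)) .no (.hor [.f 929 3 5] []) .no .no) (.con
  136 [4, 4, 2]) (.red [.f 937 5 1, .f 938 1 3] 134 136 [4, 4] [(134, 136, [4, 4])])

def c28t564 : Tr4 :=
  .br 824 .no (.red [.t 824 2 3, .f 705 1 5] 104 136 [2, 2] [(104, 136, [2, 2])]) .no (.br 696 .no
  (.use 439) .no (.red [.f 688 3 1, .t 824 2 3, .f 705 1 5] 104 136 [2, 2] [(103, 136, [2, 2, 4]),
  (104, 136, [2, 2])]) (.use 546) .no) .no .no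

def c28t565 : Tr4 :=
  .br 1064 (.con 136 [4, 4, 1, 4]) (.hor [.f 936 1 5] []) .no (.use 560) .no .no

def c28t566 : Tr4 :=
  .br 1202 (.use 9) .no .no (.use 355) .no (.br 1338 (.br 1065 (.use 536) (.use 565) .no (.use
  558) (.br 1331 (.br 1330 (.use 549) .no .no (.br 1336 (.br 1328 (.red [.f 1328 1 3, .t 1344 2 4]
  183 136 [4, 1, 1, 1] [(168, 136, [1, 1]), (183, 136, [4, 1, 1, 1])]) (.con 136 [4, 4, 1, 1]) .no
  (.con 136 [4, 4, 1, 1, 1]) (.con 136 [4, 4, 1, 1, 1]) .no) .no .no (.use 141) .no .no) .no (.br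
  1336 (.br 1328 (.red [.f 1201 5 1, .f 1328 1 3] 183 136 [4, 1, 1, 1] [(183, 136, [4, 1, 1, 1])])
  (.con 136 [4, 4, 1, 1]) .no (.con 136 [4, 4, 1, 1, 1]) .no .no) .no .no (.red [.f 1201 5 1, .t
  1328 3 2, .f 1208 1 3] 167 136 [4, 1, 1] [(167, 136, [4, 1, 1]), (168, 136, [1, 1])]) .no .no))
  .no .no (.red [.f 1195 3 1, .f 1203 1 3, .f 1075 3 1, .f 1082 1 5] 151 136 [4, 1] [(151, 136,
  [4, 1]), (166, 136, [4, 4, 1, 1]), (167, 136, [4, 1, 1])]) .no (.use 559)) (.use 553)) .no .no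
  (.red [.t 1344 2 4, .t 1337 2 4] 167 136 [4, 1, 1] [(167, 136, [4, 1, 1]), (168, 136, [1, 1])])
  .no .no)

def c28t567 : Tr4 :=
  .br 1200 (.con 136 [4, 4, 1, 1]) .no .no (.red [.t 1192 3 2] 150 136 [4, 4, 1] [(150, 136, [4,
  4, 1])]) .no .no

def c28t568 : Tr4 :=
  .br 1202 (.con 136 [4, 1, 4, 1]) .no .no (.use 340) .no .no

def c28t569 : Tr4 :=
  .br 1202 (.br 1200 (.con 136 [4, 4, 1, 1]) .no .no (.use 471) .no .no) .no .no (.use 474) .no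
  .no

def c28t570 : Tr4 :=
  .br 1209 (.br 1201 (.red [.f 1201 1 3] 167 136 [4, 1, 1] [(167, 136, [4, 1, 1])]) .no .no (.use
  501) (.br 1338 (.br 1330 (.red [.f 1330 1 3, .t 1337 2 4] 167 136 [4, 1, 1] [(167, 136, [4, 1,
  1]), (183, 136, [4, 1, 1, 1])]) .no .no (.use 112) (.br 1065 (.use 567) (.use 565) .no (.use
  558) (.use 559) (.br 1200 (.con 136 [4, 4, 1, 1]) .no .no (.red [.f 1064 5 3, .f 1064 3 1] 150
  136 [4, 4, 1] [(150, 136, [4, 4, 1])]) .no .no)) (.red [.f 1201 5 1, .f 1201 1 3] 167 136 [4, 1,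
  1] [(167, 136, [4, 1, 1])])) .no .no (.red [.t 1337 2 4] 167 136 [4, 1, 1] [(167, 136, [4, 1,
  1])]) .no .no) (.use 568)) .no .no (.use 569) .no .no

def c28t571 : Tr4 :=
  .br 1336 (.use 557) .no .no (.br 1337 (.br 1338 (.hor [.f 1337 1 5] []) .no .no (.br 1331 (.use
  157) .no .no (.red [.f 1195 3 1, .f 1203 1 3, .f 1075 3 1, .f 1082 1 5] 151 136 [4, 1] [(151,
  136, [4, 1]), (166, 136, [4, 4, 1, 1]), (167, 136, [4, 1, 1])]) .no .no) .no .no) .no .no (.hor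
  [.f 1328 3 5] []) (.use 556) .no) (.use 561) .no

def c28t572 : Tr4 :=
  .br 698 .no (.hor [.f 569 1 5] []) .no (.br 944 .no (.use 552) .no (.use 563) .no .no) (.use
  520) .no

def c28t573 : Tr4 :=
  .br 1098 (.br 1203 (.red [.f 1203 1 3, .f 1075 3 1, .f 1082 1 5] 151 136 [4, 1] [(151, 136, [4,
  1]), (167, 136, [4, 1, 1])]) .no .no (.br 1216 (.br 1208 (.use 533) .no .no (.use 499) (.br 1345
  (.br 705 .no (.use 547) (.br 840 .no (.br 1202 (.use 9) .no .no (.use 355) .no (.br 944 .no (.br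
  1336 (.use 557) .no .no (.br 1337 (.br 1224 (.hor [.f 1216 1 3, .f 1216 3 5] [(169, 168, [3])])
  .no (.br 1338 (.hor [.f 1337 1 5] []) .no .no (.br 1331 (.use 510) .no .no (.red [.f 1195 3 1,
  .f 1203 1 3, .f 1075 3 1, .f 1082 1 5] 151 136 [4, 1] [(151, 136, [4, 1]), (166, 136, [4, 4, 1,
  1]), (167, 136, [4, 1, 1])]) .no .no) .no .no) .no .no .no) .no .no (.hor [.f 1328 3 5] [])
  (.use 556) .no) (.use 561) .no) .no (.br 1066 (.use 534) (.red [.f 938 1 3] 134 136 [4, 4]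
  [(134, 136, [4, 4])]) .no (.use 538) (.use 543) (.use 563)) .no .no)) (.red [.f 840 3 1, .f 832
  1 3, .f 960 3 5] 121 136 [2, 3] [(121, 136, [2, 3]), (122, 136, [2, 3, 3])]) .no (.red [.t 960 2
  3, .t 1080 2 3, .f 961 1 5] 121 136 [2, 3] [(121, 136, [2, 3]), (136, 136, [])]) .no) (.red [.f
  697 3 1, .f 705 1 5] 104 136 [2, 2] [(104, 136, [2, 2])]) .no (.use 564)) .no (.hor [.f 1217 3
  1, .f 1216 1 5] [(169, 168, [3])]) (.use 566) .no .no) .no) .no (.hor [.f 1216 3 5] []) (.use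
  570) .no .no) .no (.red [.t 1082 1 4, .t 962 1 4, .f 1081 3 5] 136 136 [] [(136, 136, []), (151,
  136, [4, 1])])) (.use 334) (.use 205) .no (.br 1203 (.red [.f 1203 1 3, .f 1075 3 1, .f 1082 1
  5] 151 136 [4, 1] [(151, 136, [4, 1]), (167, 136, [4, 1, 1])]) .no .no (.br 1216 (.br 1208 (.use
  533) .no .no (.use 499) (.br 705 .no (.use 547) (.br 1345 (.br 841 .no .no (.br 1202 (.use 9)
  .no .no (.use 355) .no (.br 1065 (.use 536) (.use 565) .no (.use 558) (.br 1224 (.hor [.f 1216 1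
  3, .f 1216 3 5] [(169, 168, [3])]) .no (.br 944 .no (.br 840 .no (.use 571) (.hor [.f 840 3 5]
  []) .no .no .no) .no (.use 563) .no .no) .no .no .no) (.use 553))) .no (.br 697 .no (.br 1202
  (.use 9) .no .no (.use 355) .no (.br 1065 (.use 536) (.use 565) .no (.use 558) (.br 840 .no
  (.use 572) (.red [.f 840 3 1] 122 136 [2, 3, 3] [(122, 136, [2, 3, 3])]) .no .no .no) (.use
  553))) .no (.br 944 .no (.br 1202 (.use 9) .no .no (.use 355) .no (.br 840 .no (.br 1224 (.hor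
  [.f 1216 1 3, .f 1216 3 5] [(169, 168, [3])]) .no (.use 571) .no .no .no) (.red [.f 840 3 1] 122
  136 [2, 3, 3] [(122, 136, [2, 3, 3])]) .no .no .no)) .no (.use 542) .no .no) (.red [.t 705 3 1,
  .t 841 2 4, .t 833 4 2] 104 136 [2, 2] [(104, 136, [2, 2])]) (.use 546)) (.red [.t 960 2 3, .t
  1080 2 3, .f 961 1 5] 121 136 [2, 3] [(121, 136, [2, 3]), (136, 136, [])])) .no (.hor [.f 1217 3
  1, .f 1216 1 5] [(169, 168, [3])]) (.use 566) .no .no) (.red [.f 697 3 1, .f 705 1 5] 104 136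
  [2, 2] [(104, 136, [2, 2])]) .no (.use 564)) .no) .no (.hor [.f 1216 3 5] []) (.use 570) .no
  .no) .no (.red [.t 1082 1 4, .t 962 1 4, .f 1081 3 5] 136 136 [] [(136, 136, []), (151, 136, [4,
  1])])) .no

def c28l18 : List Tr4 :=
  [c28t554, c28t555, c28t556, c28t557, c28t558, c28t559, c28t560, c28t561, c28t562, c28t563,
  c28t564, c28t565, c28t566, c28t567, c28t568, c28t569, c28t570, c28t571, c28t572, c28t573]

theorem c28k18 : chkLF ⟨4, 1, 0, true, -8⟩ false 8 c28N 554 c28l18 = true := by decide +kernel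

def c28t574 : Tr4 :=
  .br 698 .no (.use 463) .no (.hor [.f 689 3 5] []) (.br 696 (.use 464) (.con 136 [2, 2, 2, 4])
  (.con 136 [2, 2, 2]) (.hor [.f 688 3 5] []) .no .no) .no

def c28t575 : Tr4 :=
  .br 705 .no (.use 547) (.br 840 .no (.br 842 (.red [.t 961 3 1, .t 825 3 1, .f 954 3 5, .t 842 1
  4] 121 136 [2, 3] [(120, 104, [1]), (121, 136, [2, 3]), (137, 121, [1])]) (.con 136 [2, 2, 3,
  3]) (.br 970 .no .no (.red [.f 842 3 1] 122 136 [2, 3, 3] [(122, 136, [2, 3, 3])]) .no (.br 841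
  .no .no (.use 523) .no .no .no) .no) .no .no (.br 1202 (.use 9) .no .no (.use 355) .no (.br 1065
  (.use 536) (.use 565) .no (.use 558) (.br 697 .no (.use 572) .no (.br 944 .no (.use 574) .no
  (.use 542) .no .no) (.red [.t 705 3 1, .t 841 2 4, .t 833 4 2] 104 136 [2, 2] [(104, 136, [2,
  2])]) (.use 546)) (.use 553)))) (.red [.f 840 3 1, .f 832 1 3, .f 960 3 5] 121 136 [2, 3] [(121,
  136, [2, 3]), (122, 136, [2, 3, 3])]) .no (.red [.t 960 2 3, .t 1080 2 3, .f 961 1 5] 121 136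
  [2, 3] [(121, 136, [2, 3]), (136, 136, [])]) .no) (.red [.f 697 3 1, .f 705 1 5] 104 136 [2, 2]
  [(104, 136, [2, 2])]) .no (.use 564)

def c28t576 : Tr4 :=
  .br 1208 (.br 1209 (.hor [.f 1208 1 5] []) .no .no (.dom 151 136 [4, 1]) .no .no) .no .no .no
  (.red [.f 1208 5 3, .f 1081 3 1, .f 1081 1 5, .t 945 3 1, .f 1074 3 5, .t 962 1 4] 136 136 []
  [(135, 119, [1]), (136, 136, []), (152, 136, [1])]) .no

def c28t577 : Tr4 :=
  .br 1202 (.use 473) .no .no (.use 474) (.red [.t 1082 1 4, .t 962 1 4, .f 1081 3 5] 136 136 []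
  [(136, 136, []), (151, 136, [4, 1])]) .no

def c28t578 : Tr4 :=
  .br 1209 (.hor [.f 1208 1 5] []) .no .no (.use 577) .no .no

def c28t579 : Tr4 :=
  .br 1072 (.use 576) (.con 136 [4, 4]) .no (.use 498) (.br 1208 (.use 578) .no .no (.br 1209
  (.con 136 [4, 1, 1]) .no .no (.hor [.f 1200 3 5] []) .no .no) (.red [.f 1208 5 3, .f 1081 3 1,
  .f 1081 1 5, .t 945 3 1, .f 1074 3 5, .t 962 1 4] 136 136 [] [(135, 119, [1]), (136, 136, []),
  (152, 136, [1])]) .no) .no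

def c28t580 : Tr4 :=
  .br 1099 (.hor [.f 962 1 3, .f 962 3 1, .f 1091 1 3, .f 1218 3 5] [(153, 121, [1, 1])]) (.hor
  [.f 970 1 5] []) (.br 971 .no (.con 136 [3, 2, 3]) (.red [.f 971 3 1, .f 970 1 5] 138 136 [3, 3]
  [(138, 136, [3, 3])]) .no .no .no) .no .no .no

def c28t581 : Tr4 :=
  .br 970 (.use 580) (.red [.t 969 4 2, .f 832 1 5] 121 136 [2, 3] [(121, 136, [2, 3])]) (.use
  504) .no (.use 507) .no

def c28t582 : Tr4 :=
  .br 834 .no (.hor [.f 706 1 5] []) (.use 432) .no .no (.use 581)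

def c28t583 : Tr4 :=
  .br 1208 (.hor [.f 1208 1 5] []) .no .no (.con 136 [4, 1, 1]) .no .no

def c28t584 : Tr4 :=
  .br 1203 (.red [.f 1203 1 3, .f 1075 3 1, .f 1082 1 5] 151 136 [4, 1] [(151, 136, [4, 1]), (167,
  136, [4, 1, 1])]) .no .no (.use 569) .no (.red [.t 1082 1 4, .t 962 1 4, .f 1081 3 5] 136 136 []
  [(136, 136, []), (151, 136, [4, 1])])

def c28t585 : Tr4 :=
  .br 1218 (.br 1217 (.hor [.f 1217 1 5] []) .no (.br 835 .no (.br 834 .no (.hor [.f 706 1 5] [])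
  (.use 432) .no .no (.use 508)) (.br 834 .no (.br 833 .no (.hor [.f 705 1 5] []) (.red [.f 833 3
  1, .f 832 1 5] 121 136 [2, 3] [(121, 136, [2, 3])]) (.br 1072 (.br 1073 (.hor [.f 1072 1 5] [])
  .no .no (.br 1097 .no .no (.use 517) .no (.br 1216 (.br 1208 (.use 497) .no .no .no (.use 531)
  .no) .no (.hor [.f 1216 3 5] []) (.use 516) .no .no) .no) .no .no) (.con 136 [4, 4]) .no (.use
  498) (.br 1097 .no .no (.use 573) .no (.br 1203 (.red [.f 1203 1 3, .f 1075 3 1, .f 1082 1 5]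
  151 136 [4, 1] [(151, 136, [4, 1]), (167, 136, [4, 1, 1])]) .no .no (.br 1208 (.use 533) .no
  (.use 570) (.use 499) (.use 575) .no) .no (.red [.t 1082 1 4, .t 962 1 4, .f 1081 3 5] 136 136
  [] [(136, 136, []), (151, 136, [4, 1])])) .no) .no) .no .no) (.hor [.f 834 3 5] []) .no .no
  (.use 508)) (.red [.f 827 3 1, .f 826 1 5, .t 1074 2 3, .f 945 3 5, .t 1089 4 2, .t 962 4 2] 136
  136 [] [(135, 119, [1]), (136, 136, [])]) .no (.red [.t 954 2 3, .t 1074 2 3, .f 945 3 5, .t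
  1089 4 2, .f 826 3 1] 136 136 [] [(135, 119, [1]), (136, 136, [])])) (.use 488) .no (.use 579))
  .no (.br 1217 (.br 1072 (.br 835 .no (.use 582) (.br 834 .no (.br 833 .no (.hor [.f 705 1 5] [])
  (.red [.f 833 3 1, .f 832 1 5] 121 136 [2, 3] [(121, 136, [2, 3])]) (.br 1073 (.hor [.f 1072 1
  5] []) .no .no (.br 1209 (.br 1208 (.hor [.f 1208 1 5] []) .no (.hor [.f 1209 1 3, .f 1208 3 5]
  [(168, 167, [3])]) .no .no .no) .no .no (.dom 151 136 [4, 1]) .no (.br 1097 (.use 104) .no (.br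
  1098 .no (.use 580) (.hor [.f 1097 3 5] []) .no (.use 156) .no) .no (.use 531) .no)) .no .no)
  .no .no) (.hor [.f 834 3 5] []) .no .no (.use 581)) (.red [.f 827 3 1, .f 826 1 5, .t 1074 2 3,
  .f 945 3 5, .t 1089 4 2, .t 962 4 2] 136 136 [] [(135, 119, [1]), (136, 136, [])]) .no (.red [.t
  954 2 3, .t 1074 2 3, .f 945 3 5, .t 1089 4 2, .f 826 3 1] 136 136 [] [(135, 119, [1]), (136,
  136, [])])) (.con 136 [4, 4]) .no (.use 498) (.br 835 .no (.use 582) (.br 834 .no (.br 833 .no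
  (.hor [.f 705 1 5] []) (.red [.f 833 3 1, .f 832 1 5] 121 136 [2, 3] [(121, 136, [2, 3])]) (.br
  1216 (.hor [.f 1216 1 5] []) .no (.br 1097 (.hor [.f 1088 3 1, .f 1096 1 5] [(153, 169, [2])])
  .no (.use 333) .no (.br 1203 (.red [.f 1203 1 3, .f 1075 3 1, .f 1082 1 5] 151 136 [4, 1] [(151,
  136, [4, 1]), (167, 136, [4, 1, 1])]) .no .no (.br 1209 (.use 583) .no .no (.br 1208 (.use 532)
  .no .no (.hor [.f 1200 3 5] []) .no .no) .no (.use 575)) .no (.red [.t 1082 1 4, .t 962 1 4, .f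
  1081 3 5] 136 136 [] [(136, 136, []), (151, 136, [4, 1])])) .no) (.br 1209 (.hor [.f 1209 1 3,
  .f 1208 3 5] [(168, 167, [3])]) .no .no (.use 584) .no .no) .no .no) .no .no) (.hor [.f 834 3 5]
  []) .no .no (.use 581)) (.red [.f 827 3 1, .f 826 1 5, .t 1074 2 3, .f 945 3 5, .t 1089 4 2, .t
  962 4 2] 136 136 [] [(135, 119, [1]), (136, 136, [])]) .no (.red [.t 954 2 3, .t 1074 2 3, .f
  945 3 5, .t 1089 4 2, .f 826 3 1] 136 136 [] [(135, 119, [1]), (136, 136, [])])) .no) .no (.hor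
  [.f 1217 3 5] []) (.use 488) .no (.use 579)) .no .no (.red [.t 1081 3 1, .t 945 3 1, .f 1074 3
  5, .t 962 1 4] 136 136 [] [(135, 119, [1]), (136, 136, []), (152, 136, [1])])

def c28t586 : Tr4 :=
  .br 1201 (.hor [.f 1201 1 5] []) (.use 395) .no (.use 7) .no (.use 8)

def c28t587 : Tr4 :=
  .br 1073 .no .no .no (.use 378) (.red [.t 1209 4 2, .f 1074 3 5] 151 136 [4, 1] [(151, 136, [4,
  1])]) (.use 484)

def c28t588 : Tr4 :=
  .br 826 (.br 1209 (.br 1202 (.use 586) (.red [.f 1074 1 3, .f 1074 3 5] 151 136 [4, 1] [(151,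
  136, [4, 1])]) .no (.use 340) (.red [.t 1082 1 4, .t 962 1 4, .f 1081 3 5] 136 136 [] [(136,
  136, []), (151, 136, [4, 1])]) (.use 492)) .no (.use 485) (.use 587) .no (.use 493)) (.con 136
  [4, 2, 3, 3]) (.con 136 [4, 2, 3, 3]) (.con 136 [4, 2, 3, 3]) (.con 136 [4, 2, 3, 3]) (.con 136
  [4, 2, 3, 3])

def c28t589 : Tr4 :=
  .br 1073 .no .no .no (.use 379) (.red [.t 1209 4 2, .f 1074 3 5] 151 136 [4, 1] [(151, 136, [4,
  1])]) (.use 486)

def c28t590 : Tr4 :=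
  .br 826 (.br 1209 (.br 1202 (.use 586) (.red [.f 1074 1 3, .f 1074 3 5] 151 136 [4, 1] [(151,
  136, [4, 1])]) .no (.use 340) (.red [.t 1082 1 4, .t 962 1 4, .f 1081 3 5] 136 136 [] [(136,
  136, []), (151, 136, [4, 1])]) (.use 494)) .no (.use 487) (.use 589) .no (.use 495)) (.con 136
  [4, 2, 3, 3]) (.con 136 [4, 2, 3, 3]) (.con 136 [4, 2, 3, 3]) (.con 136 [4, 2, 3, 3]) (.con 136
  [4, 2, 3, 3])

def c28t591 : Tr4 :=
  .br 1088 (.br 961 .no (.br 1083 (.hor [.f 1082 1 5] []) .no .no (.br 1211 (.br 1209 (.use 1) .no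
  (.br 960 .no (.hor [.f 832 1 5] []) (.br 832 .no (.use 377) (.hor [.f 832 3 1, .f 832 1 5]
  [(121, 136, [2, 3])]) (.use 384) .no .no) .no .no .no) (.use 394) .no (.br 960 .no (.hor [.f 832
  1 5] []) (.use 399) .no .no .no)) .no .no (.red [.f 1075 3 1, .f 1083 1 3, .f 955 3 1, .f 962 1
  5] 136 136 [] [(136, 136, []), (151, 136, [4, 1]), (152, 136, [1])]) .no .no) .no .no) (.br 1083
  (.hor [.f 1082 1 5] []) .no .no (.br 1211 (.br 960 .no (.br 968 (.br 1209 (.use 1) .no (.use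
  431) (.use 475) .no (.use 478)) (.red [.f 832 1 3] 121 136 [2, 3] [(121, 136, [2, 3])]) (.br
  1209 (.use 1) .no (.use 488) (.use 491) .no (.use 496)) .no .no .no) (.hor [.f 960 3 5] []) .no
  .no .no) .no .no (.red [.f 1075 3 1, .f 1083 1 3, .f 955 3 1, .f 962 1 5] 136 136 [] [(136, 136,
  []), (151, 136, [4, 1]), (152, 136, [1])]) .no .no) .no .no) .no .no (.red [.t 1080 2 3, .f 961
  1 5] 136 136 [] [(136, 136, [])])) (.red [.f 952 1 3] 136 136 [] [(136, 136, [])]) (.br 960 .no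
  (.br 961 .no (.hor [.f 832 1 5] []) (.br 968 .no (.red [.f 832 1 3, .f 960 3 1, .f 952 1 3, .f
  1080 3 5] 121 136 [2, 3] [(121, 136, [2, 3]), (136, 136, []), (137, 136, [3])]) (.br 1083 (.hor
  [.f 1082 1 5] []) .no .no (.br 1211 (.br 946 (.br 826 (.use 585) (.con 136 [4, 2, 3, 3]) (.con
  136 [4, 2, 3, 3]) (.con 136 [4, 2, 3, 3]) (.con 136 [4, 2, 3, 3]) (.con 136 [4, 2, 3, 3])) (.use
  367) (.hor [.f 945 3 5] []) (.use 588) (.use 590) .no) .no .no (.red [.f 1075 3 1, .f 1083 1 3,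
  .f 955 3 1, .f 962 1 5] 136 136 [] [(136, 136, []), (151, 136, [4, 1]), (152, 136, [1])]) .no
  .no) .no .no) .no .no .no) .no .no .no) (.red [.f 960 3 1, .f 952 1 3, .f 1080 3 5] 136 136 []
  [(136, 136, []), (137, 136, [3])]) .no (.red [.t 1080 2 3, .f 961 1 5] 136 136 [] [(136, 136,
  [])]) .no) .no .no .no

def c28t592 : Tr4 :=
  .br 1211 (.con 136 [1, 4, 2, 3]) (.hor [.f 1082 1 5] []) (.con 136 [1, 4, 2, 3]) .no .no .no

def c28t593 : Tr4 :=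
  .br 1208 (.hor [.f 1208 1 5] []) .no .no (.con 136 [1, 4, 1]) .no .no

def c28t594 : Tr4 :=
  .br 1211 (.br 1209 (.use 593) .no .no (.use 394) .no (.use 399)) .no (.use 41) (.red [.f 1075 3
  1, .f 1082 1 5] 151 136 [4, 1] [(151, 136, [4, 1])]) .no .no

def c28t595 : Tr4 :=
  .br 1209 (.use 593) .no .no (.use 394) .no (.use 399)

def c28t596 : Tr4 :=
  .br 1192 (.red [.f 1192 1 3, .t 1192 3 2] 150 136 [4, 4, 1] [(150, 136, [4, 4, 1]), (166, 136,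
  [4, 4, 1, 1])]) (.hor [.f 1064 1 5] []) .no (.br 1064 .no .no .no (.red [.f 1056 3 1, .f 1064 1
  5, .f 1064 5 3, .t 1073 4 2] 134 136 [4, 4] [(134, 136, [4, 4]), (149, 133, [1])]) .no .no) .no
  .no

def c28t597 : Tr4 :=
  .br 938 .no (.use 535) .no (.red [.f 930 3 1, .f 938 1 3] 134 136 [4, 4] [(133, 136, [4, 4, 4]),
  (134, 136, [4, 4])]) (.con 136 [4, 4, 2]) (.br 1065 (.br 1200 (.use 596) .no .no (.red [.t 1192
  3 2] 150 136 [4, 4, 1] [(150, 136, [4, 4, 1])]) .no .no) .no .no (.hor [.f 1057 3 5] []) .no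
  (.red [.f 1064 5 3, .t 1073 4 2] 134 136 [4, 4] [(134, 136, [4, 4])]))

def c28t598 : Tr4 :=
  .br 1211 (.con 136 [1, 4, 2, 3]) (.hor [.f 1082 1 5] []) (.con 136 [1, 4, 2, 3]) (.con 136 [1,
  4, 2, 3]) .no .no

def c28t599 : Tr4 :=
  .br 1211 (.con 136 [1, 4, 2, 3]) (.hor [.f 1082 1 5] []) (.con 136 [1, 4, 2, 3]) (.con 136 [1,
  4, 2, 3]) .no .no

def c28t600 : Tr4 :=
  .br 969 .no (.hor [.f 833 1 3, .f 960 3 5] [(121, 136, [2, 3])]) (.hor [.f 969 3 5] []) .no .no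
  .no

def c28t601 : Tr4 :=
  .br 824 .no (.hor [.f 696 1 5] []) .no (.con 136 [2, 2, 4]) .no .no

def c28t602 : Tr4 :=
  .br 936 (.hor [.f 936 1 5] []) (.con 136 [4, 4, 4]) .no (.con 136 [4, 4, 4]) .no .no

def c28t603 : Tr4 :=
  .br 1202 (.hor [.f 1201 1 5] []) .no .no (.br 1336 (.br 1200 (.hor [.f 1200 1 5] []) .no .no
  (.br 1328 (.red [.f 1328 1 3, .t 1328 3 2] 167 136 [4, 1, 1] [(167, 136, [4, 1, 1]), (183, 136,
  [4, 1, 1, 1])]) .no .no (.red [.f 1192 3 1, .f 1200 1 5, .f 1200 5 3, .t 1209 4 2] 151 136 [4,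
  1] [(151, 136, [4, 1]), (166, 150, [1])]) .no .no) .no .no) .no (.br 1345 (.br 1339 (.con 136
  [1, 1, 1]) .no (.red [.f 1211 3 1, .f 1218 1 5] 168 136 [1, 1] [(168, 136, [1, 1])]) (.con 136
  [1, 1, 1]) .no (.con 136 [1, 1, 1])) .no (.br 1339 (.con 136 [1, 1, 1]) .no (.red [.f 1211 3 1,
  .f 1218 1 5] 168 136 [1, 1] [(168, 136, [1, 1])]) (.con 136 [1, 1, 1]) .no (.con 136 [1, 1, 1]))
  (.hor [.f 1336 3 5] []) .no .no) (.red [.t 1328 3 2] 167 136 [4, 1, 1] [(167, 136, [4, 1, 1])])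
  (.red [.f 944 1 3, .f 944 3 1, .f 1208 5 1, .f 1201 1 3] 167 136 [4, 1, 1] [(167, 136, [4, 1,
  1])]) .no) (.red [.t 1082 1 4, .t 962 1 4, .f 1081 3 5] 136 136 [] [(136, 136, []), (151, 136,
  [4, 1])]) .no

def c28l19 : List Tr4 :=
  [c28t574, c28t575, c28t576, c28t577, c28t578, c28t579, c28t580, c28t581, c28t582, c28t583,
  c28t584, c28t585, c28t586, c28t587, c28t588, c28t589, c28t590, c28t591, c28t592, c28t593,
  c28t594, c28t595, c28t596, c28t597, c28t598, c28t599, c28t600, c28t601, c28t602, c28t603]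

theorem c28k19 : chkLF ⟨4, 1, 0, true, -8⟩ false 8 c28N 574 c28l19 = true := by decide +kernel

def c28t604 : Tr4 :=
  .br 1202 (.br 1339 (.use 302) .no (.red [.f 1211 3 1, .f 1218 1 5] 168 136 [1, 1] [(168, 136,
  [1, 1])]) (.con 136 [4, 1, 1, 4]) .no (.red [.t 1218 1 4] 168 136 [1, 1] [(168, 136, [1, 1])]))
  .no .no (.hor [.f 1193 3 5] []) (.red [.t 1082 1 4, .t 962 1 4, .f 1081 3 5] 136 136 [] [(136,
  136, []), (151, 136, [4, 1])]) .no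

def c28t605 : Tr4 :=
  .br 1072 (.hor [.f 1072 1 5] []) (.use 400) .no (.use 382) .no .no

def c28t606 : Tr4 :=
  .br 1211 (.con 136 [1, 4, 2, 3]) (.hor [.f 1082 1 5] []) (.con 136 [1, 4, 2, 3]) (.con 136 [1,
  4, 2, 3]) .no .no

def c28t607 : Tr4 :=
  .br 1208 (.hor [.f 1208 1 5] []) .no .no (.con 136 [4, 1, 1]) .no .no

def c28t608 : Tr4 :=
  .br 946 (.br 826 (.br 825 .no (.br 824 .no (.hor [.f 696 1 5] []) .no (.br 817 .no (.red [.f 689
  1 3] 103 136 [2, 2, 4] [(103, 136, [2, 2, 4])]) .no (.br 818 .no (.con 136 [2, 4, 4, 2]) .no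
  (.hor [.f 809 3 5] []) (.con 136 [2, 4, 2]) .no) (.red [.t 953 4 2] 119 136 [2, 4] [(119, 136,
  [2, 4])]) .no) .no .no) .no (.red [.f 817 3 1, .f 825 1 5] 119 136 [2, 4] [(119, 136, [2, 4])])
  .no (.br 944 (.red [.f 944 1 3, .f 944 3 5, .f 824 5 1, .f 825 1 3, .f 953 3 1] 136 136 []
  [(120, 136, [2]), (135, 119, [1]), (136, 136, [])]) (.red [.t 944 2 3, .f 825 1 5] 119 136 [2,
  4] [(119, 136, [2, 4])]) .no (.br 1075 (.use 592) (.hor [.f 946 1 5] []) (.br 1217 (.use 594)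
  .no (.br 1211 (.use 595) .no (.br 1208 (.br 1072 (.use 497) .no .no (.use 498) (.br 1218 (.br
  816 .no (.br 1209 (.hor [.f 1208 1 5] []) .no .no (.br 1066 (.br 1202 (.br 1200 (.use 42) .no
  .no (.use 390) .no .no) .no .no .no (.red [.t 1082 1 4, .t 962 1 4, .f 1081 3 5] 136 136 []
  [(136, 136, []), (151, 136, [4, 1])]) .no) (.red [.f 938 1 3] 134 136 [4, 4] [(134, 136, [4,
  4])]) .no (.use 597) (.use 543) (.use 389)) .no .no) .no (.red [.f 808 3 1, .t 944 2 3, .f 825 1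
  5] 119 136 [2, 4] [(118, 136, [2, 4, 4]), (119, 136, [2, 4])]) (.red [.t 952 1 4, .f 816 5 3, .f
  945 1 5, .t 825 4 1] 119 136 [2, 4] [(119, 136, [2, 4]), (135, 119, [1])]) .no) .no (.hor [.f
  1217 3 5] []) .no .no .no) .no) .no .no (.use 32) (.red [.t 1088 1 4, .f 1081 1 5, .t 945 3 1,
  .f 1074 3 5, .t 962 1 4] 136 136 [] [(135, 119, [1]), (136, 136, []), (152, 136, [1])]) .no)
  (.red [.f 1075 3 1, .f 1082 1 5] 151 136 [4, 1] [(151, 136, [4, 1])]) .no .no) (.use 377) (.red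
  [.t 1081 3 1, .t 945 3 1, .f 1074 3 5, .t 962 1 4] 136 136 [] [(135, 119, [1]), (136, 136, []),
  (152, 136, [1])]) .no) (.use 598) .no .no) .no .no)) (.con 136 [4, 2, 3, 1]) (.con 136 [4, 2, 3,
  1]) (.con 136 [4, 2, 3, 1]) (.con 136 [4, 2, 3, 1]) (.con 136 [4, 2, 3, 1])) (.use 367) (.hor
  [.f 945 3 5] []) (.br 826 (.br 825 .no (.br 1075 (.use 592) (.use 599) (.br 1217 (.use 594) .no
  (.br 1211 (.use 595) .no (.br 1218 (.br 1208 (.br 1209 (.hor [.f 1208 1 5] []) .no .no (.br 1073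
  .no .no .no (.use 378) (.red [.t 1209 4 2, .f 1074 3 5] 151 136 [4, 1] [(151, 136, [4, 1])])
  (.use 369)) .no .no) .no .no (.use 32) (.br 824 .no (.hor [.f 696 1 5] []) .no (.br 1074 (.red
  [.f 1074 1 3, .f 1074 3 5] 151 136 [4, 1] [(151, 136, [4, 1])]) .no .no (.use 370) .no (.br 944
  (.br 1201 (.use 603) .no .no (.use 604) (.use 397) (.red [.f 944 1 3, .f 944 3 1, .f 1200 5 3,
  .t 1209 4 2] 151 136 [4, 1] [(151, 136, [4, 1])])) .no .no (.use 368) .no .no)) .no .no) .no)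
  .no (.hor [.f 1217 3 5] []) .no .no .no) (.red [.f 1075 3 1, .f 1082 1 5] 151 136 [4, 1] [(151,
  136, [4, 1])]) .no .no) (.use 371) (.br 1073 (.use 605) .no .no (.use 378) (.red [.t 1081 3 1,
  .f 1073 5 3, .f 1074 3 5, .t 962 1 4] 136 136 [] [(136, 136, []), (152, 136, [1])]) (.use 369))
  .no) (.use 598) .no (.use 606)) .no (.red [.f 817 3 1, .f 825 1 5] 119 136 [2, 4] [(119, 136,
  [2, 4])]) .no (.br 1075 (.use 592) (.use 599) (.use 373) (.use 598) .no (.use 606))) (.con 136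
  [4, 2, 3, 1]) (.con 136 [4, 2, 3, 1]) (.con 136 [4, 2, 3, 1]) (.con 136 [4, 2, 3, 1]) (.con 136
  [4, 2, 3, 1])) (.br 826 (.br 825 .no (.br 827 .no (.br 824 .no (.hor [.f 696 1 5] []) .no (.con
  136 [2, 2, 4]) .no .no) (.use 601) (.red [.t 826 1 4, .f 945 3 5] 119 136 [2, 4] [(119, 136, [2,
  4])]) .no .no) .no (.red [.f 817 3 1, .f 825 1 5] 119 136 [2, 4] [(119, 136, [2, 4])]) .no (.br
  944 (.red [.f 944 1 3, .f 944 3 5, .f 824 5 1, .f 825 1 3, .f 953 3 1] 136 136 [] [(120, 136,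
  [2]), (135, 119, [1]), (136, 136, [])]) (.red [.t 944 2 3, .f 825 1 5] 119 136 [2, 4] [(119,
  136, [2, 4])]) .no (.br 816 .no (.br 827 .no (.br 819 .no (.red [.f 691 1 3] 103 136 [2, 2, 4]
  [(103, 136, [2, 2, 4])]) .no (.use 375) .no (.red [.f 818 5 1, .f 818 1 3] 119 136 [2, 4] [(119,
  136, [2, 4])])) (.red [.f 827 3 1, .f 826 1 5, .f 946 5 3, .f 945 3 5, .t 1089 4 2, .t 962 4 2]
  136 136 [] [(136, 136, [])]) (.red [.t 826 1 4, .f 945 3 5] 119 136 [2, 4] [(119, 136, [2, 4])])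
  .no .no) .no (.red [.f 808 3 1, .t 944 2 3, .f 825 1 5] 119 136 [2, 4] [(118, 136, [2, 4, 4]),
  (119, 136, [2, 4])]) (.red [.f 816 5 3, .f 817 3 1, .f 825 1 3] 119 136 [2, 4] [(119, 136, [2,
  4]), (120, 136, [2])]) .no) .no .no)) (.con 136 [4, 2, 3, 1]) (.con 136 [4, 2, 3, 1]) (.con 136
  [4, 2, 3, 1]) (.con 136 [4, 2, 3, 1]) (.con 136 [4, 2, 3, 1])) .no

def c28t609 : Tr4 :=
  .br 827 .no (.br 819 .no (.red [.f 691 1 3] 103 136 [2, 4, 2] [(103, 136, [2, 4, 2])]) .no (.br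
  944 .no (.br 818 .no (.br 817 .no (.hor [.f 689 1 5] []) .no (.con 136 [2, 4, 2, 4]) .no .no)
  .no (.hor [.f 810 3 5] []) .no (.red [.t 953 4 2, .f 816 1 5] 119 136 [2, 4] [(119, 136, [2,
  4])])) .no (.use 421) .no .no) .no (.red [.f 818 5 1, .f 818 1 3] 119 136 [2, 4] [(119, 136, [2,
  4])])) (.red [.f 827 3 1, .f 826 1 5, .f 946 5 3, .f 945 3 5, .t 1089 4 2, .t 962 4 2] 136 136
  [] [(136, 136, [])]) (.red [.t 826 1 4, .f 945 3 5] 119 136 [2, 4] [(119, 136, [2, 4])]) .no .no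

def c28t610 : Tr4 :=
  .br 1073 (.use 382) .no .no (.hor [.f 1064 3 5] []) (.br 1201 (.use 362) .no .no (.use 604)
  (.red [.f 1073 5 1, .f 1074 1 3] 151 136 [4, 1] [(151, 136, [4, 1])]) (.red [.f 1200 5 3, .t
  1209 4 2] 151 136 [4, 1] [(151, 136, [4, 1])])) .no

def c28t611 : Tr4 :=
  .br 1217 (.use 594) .no (.br 1211 (.use 595) .no (.br 1218 (.br 1072 (.br 1208 (.use 497) .no
  .no .no (.br 946 (.red [.t 1088 1 4, .f 1081 1 5, .t 945 3 1, .f 1074 3 5, .t 962 1 4] 136 136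
  [] [(135, 119, [1]), (136, 136, []), (152, 136, [1])]) (.use 367) (.hor [.f 945 3 5] []) (.br
  825 .no (.br 826 (.br 944 .no (.br 818 .no (.br 947 .no (.br 817 .no (.hor [.f 689 1 5] []) .no
  (.con 136 [2, 4, 2, 4]) .no .no) .no (.hor [.f 938 3 5] []) .no .no) .no (.red [.f 810 3 1, .f
  818 1 3] 119 136 [2, 4] [(118, 136, [2, 4, 4]), (119, 136, [2, 4])]) (.use 404) (.red [.t 953 4
  2, .f 816 1 5] 119 136 [2, 4] [(119, 136, [2, 4])])) .no (.use 368) .no .no) (.con 136 [4, 2, 3,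
  1]) (.con 136 [4, 2, 3, 1]) (.con 136 [4, 2, 3, 1]) (.con 136 [4, 2, 3, 1]) .no) .no (.red [.f
  817 3 1, .f 825 1 3] 119 136 [4, 2] [(119, 136, [4, 2]), (120, 136, [2])]) (.con 136 [4, 2, 3,
  1]) .no) (.br 825 .no (.br 826 (.use 609) (.con 136 [4, 2, 3, 1]) (.con 136 [4, 2, 3, 1]) (.con
  136 [4, 2, 3, 1]) (.con 136 [4, 2, 3, 1]) .no) .no (.red [.f 817 3 1, .f 825 1 3] 119 136 [4, 2]
  [(119, 136, [4, 2]), (120, 136, [2])]) (.con 136 [4, 2, 3, 1]) .no) .no) .no) (.red [.f 944 1 3,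
  .f 944 3 5, .t 832 4 1, .f 953 3 1] 136 136 [] [(120, 136, [2]), (135, 134, [3]), (136, 136,
  [])]) .no (.br 1208 (.br 1209 (.hor [.f 1208 1 5] []) .no .no (.use 393) .no .no) .no .no (.use
  32) (.use 610) .no) (.red [.t 952 1 4, .t 832 4 1, .f 953 3 1] 136 136 [] [(120, 136, [2]),
  (135, 136, [4]), (136, 136, [])]) .no) .no (.hor [.f 1217 3 5] []) .no .no .no) (.red [.f 1075 3
  1, .f 1082 1 5] 151 136 [4, 1] [(151, 136, [4, 1])]) .no .no) (.use 384) (.br 1073 (.use 605)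
  .no .no (.br 946 (.red [.t 1081 3 1, .t 945 3 1, .f 1074 3 5, .t 962 1 4] 136 136 [] [(135, 119,
  [1]), (136, 136, []), (152, 136, [1])]) (.use 367) (.hor [.f 945 3 5] []) (.use 378) (.use 379)
  .no) (.red [.t 1081 3 1, .f 1073 5 3, .f 1074 3 5, .t 962 1 4] 136 136 [] [(136, 136, []), (152,
  136, [1])]) (.red [.t 952 1 4, .t 832 4 1, .f 953 3 1] 136 136 [] [(120, 136, [2]), (135, 136,
  [4]), (136, 136, [])])) .no

def c28t612 : Tr4 :=
  .br 944 (.use 603) (.use 403) .no (.use 372) .no .no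

def c28t613 : Tr4 :=
  .br 1072 (.use 609) (.use 603) .no (.use 362) .no .no

def c28t614 : Tr4 :=
  .br 1073 (.use 400) .no .no (.use 378) (.br 1209 (.use 607) .no .no (.red [.t 1209 4 2, .f 1074
  3 5] 151 136 [4, 1] [(151, 136, [4, 1])]) .no (.br 1218 (.br 1201 (.use 603) .no .no (.use 345)
  (.use 476) (.red [.f 944 1 3, .f 944 3 1, .f 1200 5 3, .t 1209 4 2] 151 136 [4, 1] [(151, 136,
  [4, 1])])) .no .no .no .no .no)) .no

def c28t615 : Tr4 :=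
  .br 816 .no (.br 827 .no (.br 819 .no (.red [.f 691 1 3] 103 136 [2, 2, 4] [(103, 136, [2, 2,
  4])]) .no (.use 428) .no (.red [.f 818 5 1, .f 818 1 3] 119 136 [2, 4] [(119, 136, [2, 4])]))
  .no (.red [.t 954 2 3, .t 834 4 1, .t 826 1 4] 119 136 [2, 4] [(119, 136, [2, 4])]) .no .no) .no
  (.red [.f 808 3 1, .t 944 2 3, .f 825 1 5] 119 136 [2, 4] [(118, 136, [2, 4, 4]), (119, 136, [2,
  4])]) (.red [.f 816 5 3, .f 817 3 1] 119 136 [2, 4] [(119, 136, [2, 4])]) .no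

def c28t616 : Tr4 :=
  .br 705 .no (.br 697 .no (.red [.f 569 1 3, .f 697 3 1] 104 136 [2, 2] [(88, 136, [2, 2, 2]),
  (104, 136, [2, 2])]) .no (.br 704 .no (.hor [.f 576 1 5] []) (.red [.t 952 1 4, .t 832 1 4, .t
  712 4 1, .f 833 3 1] 121 136 [2, 3] [(105, 136, [2, 2, 3]), (120, 104, [1]), (121, 136, [2, 3]),
  (135, 119, [1])]) (.use 437) .no .no) (.red [.t 833 4 2] 104 136 [2, 2] [(104, 136, [2, 2])])
  (.use 414)) .no (.red [.f 697 3 1, .f 705 1 5] 104 136 [2, 2] [(104, 136, [2, 2])]) .no (.use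
  440)

def c28t617 : Tr4 :=
  .br 698 .no (.hor [.f 569 1 5] []) .no .no (.use 452) .no

def c28t618 : Tr4 :=
  .br 937 .no (.br 938 .no (.hor [.f 809 1 5] []) .no (.use 446) (.use 450) .no) .no (.red [.f 929
  3 1, .f 936 1 5, .f 1064 5 3, .f 1064 3 1] 150 136 [4, 4, 1] [(133, 149, [2]), (150, 136, [4, 4,
  1])]) (.br 944 .no (.br 697 .no (.br 818 .no (.use 617) .no (.red [.t 952 1 4, .f 945 1 5, .f
  937 5 3, .f 810 3 1, .f 818 1 3] 119 136 [2, 4] [(118, 136, [2, 4, 4]), (119, 136, [2, 4]),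
  (135, 119, [1])]) (.use 445) (.red [.t 953 4 2, .f 816 1 5] 119 136 [2, 4] [(119, 136, [2,
  4])])) .no (.use 574) (.red [.t 833 4 2, .f 696 1 5] 104 136 [2, 2] [(104, 136, [2, 2])]) .no)
  .no .no .no .no) .no

def c28t619 : Tr4 :=
  .br 697 .no (.br 937 .no (.use 562) .no (.hor [.f 929 3 5] []) .no .no) (.red [.f 697 3 1, .f
  705 1 5] 104 136 [2, 2] [(104, 136, [2, 2])]) (.use 541) (.red [.t 833 4 2] 104 136 [2, 2]
  [(104, 136, [2, 2])]) (.use 545)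

def c28t620 : Tr4 :=
  .br 938 .no (.use 535) .no (.use 619) (.con 136 [4, 4, 2]) (.red [.f 937 5 1, .f 938 1 3] 134
  136 [4, 4] [(134, 136, [4, 4])])

def c28t621 : Tr4 :=
  .br 1064 .no (.br 1065 (.red [.t 1192 3 2] 150 136 [4, 4, 1] [(150, 136, [4, 4, 1])]) (.hor [.f
  936 1 5] []) .no (.br 1066 (.br 824 .no (.br 705 .no (.br 944 .no (.use 466) .no .no .no .no)
  (.use 618) (.red [.f 697 3 1, .f 696 1 5] 104 136 [2, 2] [(104, 136, [2, 2])]) .no (.red [.t 824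
  2 3, .f 705 1 5] 104 136 [2, 2] [(104, 136, [2, 2])])) .no (.use 449) .no .no) (.red [.f 938 1
  3] 134 136 [4, 4] [(134, 136, [4, 4])]) .no (.hor [.f 1057 3 5] []) (.use 441) .no) (.use 460)
  .no) .no (.br 1065 (.red [.t 1192 3 2] 150 136 [4, 4, 1] [(150, 136, [4, 4, 1])]) (.use 386) .no
  (.hor [.f 1056 3 5] []) (.br 936 .no (.use 461) (.use 620) (.red [.f 928 3 1] 133 136 [4, 4, 4]
  [(133, 136, [4, 4, 4])]) (.br 824 .no (.br 705 .no (.br 944 .no (.use 466) .no .no .no .no) (.br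
  944 .no (.br 697 .no (.br 698 .no (.hor [.f 569 1 5] []) .no (.br 817 .no (.red [.t 952 1 4, .t
  832 1 4, .f 825 1 5, .t 689 1 3, .f 698 1 3] 104 136 [2, 2] [(103, 136, [2, 2, 4]), (104, 136,
  [2, 2]), (120, 104, [1]), (135, 119, [1])]) .no (.br 938 .no (.br 939 (.con 136 [4, 4, 4]) (.con
  136 [4, 4, 2, 2]) (.br 819 .no (.con 136 [2, 4, 4, 2, 3]) (.con 136 [2, 4, 4, 2, 3, 3]) (.con
  136 [2, 4, 4, 2]) .no (.red [.t 938 2 3, .f 809 3 5, .t 953 4 2] 119 136 [2, 4] [(118, 102,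
  [1]), (119, 136, [2, 4])])) (.con 136 [4, 4, 2, 2]) .no .no) .no (.br 939 (.con 136 [4, 4, 4])
  (.use 467) (.br 704 .no (.use 468) (.con 136 [2, 3, 3, 2, 4, 4]) .no .no .no) (.hor [.f 930 3 5]
  []) .no .no) (.use 458) .no) (.red [.t 953 4 2, .f 690 3 1] 119 136 [2, 4] [(103, 136, [2, 2,
  4]), (119, 136, [2, 4])]) .no) (.use 464) .no) .no (.use 574) (.red [.t 833 4 2, .f 696 1 5] 104
  136 [2, 2] [(104, 136, [2, 2])]) .no) .no .no .no .no) (.red [.f 697 3 1, .f 696 1 5] 104 136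
  [2, 2] [(104, 136, [2, 2])]) .no (.red [.t 824 2 3, .f 705 1 5] 104 136 [2, 2] [(104, 136, [2,
  2])])) .no (.use 387) .no .no) .no) .no) (.red [.f 1064 5 3, .f 1064 3 1] 150 136 [4, 4, 1]
  [(150, 136, [4, 4, 1])]) .no

def c28t622 : Tr4 :=
  .br 698 .no (.hor [.f 569 1 5] []) .no (.br 817 .no (.red [.t 952 1 4, .t 832 1 4, .f 825 1 5,
  .t 689 1 3, .f 698 1 3] 104 136 [2, 2] [(103, 136, [2, 2, 4]), (104, 136, [2, 2]), (120, 104,
  [1]), (135, 119, [1])]) .no (.use 468) (.red [.t 953 4 2, .f 690 3 1] 119 136 [2, 4] [(103, 136,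
  [2, 2, 4]), (119, 136, [2, 4])]) .no) (.use 464) .no

def c28l20 : List Tr4 :=
  [c28t604, c28t605, c28t606, c28t607, c28t608, c28t609, c28t610, c28t611, c28t612, c28t613,
  c28t614, c28t615, c28t616, c28t617, c28t618, c28t619, c28t620, c28t621, c28t622]

theorem c28k20 : chkLF ⟨4, 1, 0, true, -8⟩ false 8 c28N 604 c28l20 = true := by decide +kernel

end Pool.Agent.FT4D
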