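import Pool.Agent.FT4D.Tab_c28

/-!
# Four levels: decision trees (found by a computer search)
-/

namespace Pool.Agent.FT4D

def c28t623 : Tr4 :=
  .br 1200 (.use 29) .no .no (.br 1064 .no (.br 1065 (.red [.t 1192 3 2] 150 136 [4, 4, 1] [(150,
  136, [4, 4, 1])]) (.hor [.f 936 1 5] []) .no (.br 1066 (.br 824 .no (.br 705 .no (.br 944 .no
  (.use 509) .no .no .no .no) (.use 618) (.red [.f 697 3 1, .f 696 1 5] 104 136 [2, 2] [(104, 136,
  [2, 2])]) .no (.red [.t 824 2 3, .f 705 1 5] 104 136 [2, 2] [(104, 136, [2, 2])])) .no (.use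
  449) .no .no) (.red [.f 938 1 3] 134 136 [4, 4] [(134, 136, [4, 4])]) .no (.hor [.f 1057 3 5]
  []) (.use 441) .no) (.use 460) .no) .no (.br 1065 (.red [.t 1192 3 2] 150 136 [4, 4, 1] [(150,
  136, [4, 4, 1])]) (.use 386) .no (.hor [.f 1056 3 5] []) (.br 936 .no (.use 461) (.use 620)
  (.red [.f 928 3 1] 133 136 [4, 4, 4] [(133, 136, [4, 4, 4])]) (.br 824 .no (.br 705 .no (.br 944
  .no (.use 509) .no .no .no .no) (.br 944 .no (.br 697 .no (.use 622) .no (.use 574) (.red [.t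
  833 4 2, .f 696 1 5] 104 136 [2, 2] [(104, 136, [2, 2])]) .no) .no .no .no .no) (.red [.f 697 3
  1, .f 696 1 5] 104 136 [2, 2] [(104, 136, [2, 2])]) .no (.red [.t 824 2 3, .f 705 1 5] 104 136
  [2, 2] [(104, 136, [2, 2])])) .no (.use 387) .no .no) .no) .no) (.red [.f 1064 5 3, .f 1064 3 1]
  150 136 [4, 4, 1] [(150, 136, [4, 4, 1])]) .no) .no .no

def c28t624 : Tr4 :=
  .br 824 .no .no .no .no .no .no

def c28t625 : Tr4 :=
  .br 938 .no (.use 535) .no (.use 619) (.con 136 [4, 4, 2]) (.red [.f 937 5 1, .f 938 1 3] 134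
  136 [4, 4] [(134, 136, [4, 4])])

def c28t626 : Tr4 :=
  .br 705 .no (.use 509) (.br 697 .no (.br 696 (.use 622) (.hor [.f 568 1 5] []) (.use 470) (.use
  624) .no .no) .no (.use 574) (.red [.t 833 4 2] 104 136 [2, 2] [(104, 136, [2, 2])]) (.use 415))
  (.red [.f 697 3 1, .f 705 1 5] 104 136 [2, 2] [(104, 136, [2, 2])]) .no (.use 405)

def c28t627 : Tr4 :=
  .br 944 .no (.use 626) .no (.br 1066 .no (.red [.f 938 1 3] 134 136 [4, 4] [(134, 136, [4, 4])])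
  .no (.use 597) (.use 543) (.use 625)) .no .no

def c28t628 : Tr4 :=
  .br 944 .no (.use 413) .no (.use 372) .no .no

def c28t629 : Tr4 :=
  .br 944 .no (.use 415) .no (.use 372) .no .no

def c28t630 : Tr4 :=
  .br 824 .no (.red [.t 824 2 3, .f 705 1 5] 104 136 [2, 2] [(104, 136, [2, 2])]) .no (.use 448)
  .no .no

def c28t631 : Tr4 :=
  .br 827 .no (.br 819 .no (.red [.f 691 1 3] 103 136 [2, 2, 4] [(103, 136, [2, 2, 4])]) .no (.use
  425) .no (.red [.f 818 5 1, .f 818 1 3] 119 136 [2, 4] [(119, 136, [2, 4])])) .no (.red [.t 826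
  1 4, .f 945 3 5] 119 136 [2, 4] [(119, 136, [2, 4])]) .no .no

def c28t632 : Tr4 :=
  .br 1208 (.br 1209 (.hor [.f 1208 1 5] []) .no .no (.br 1073 .no .no .no (.use 385) (.red [.t
  1209 4 2, .f 1074 3 5] 151 136 [4, 1] [(151, 136, [4, 1])]) (.br 946 (.br 1097 .no .no (.br 1339
  (.br 1202 (.br 1338 (.hor [.f 1338 1 5] []) .no .no .no .no (.use 623)) .no .no (.use 627) (.red
  [.t 1082 1 4, .t 962 1 4, .f 1081 3 5] 136 136 [] [(136, 136, []), (151, 136, [4, 1])]) .no) .no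
  (.red [.f 1211 3 1, .f 1218 1 5] 168 136 [1, 1] [(168, 136, [1, 1])]) (.br 841 .no (.use 616)
  (.br 1202 (.br 1337 (.br 1345 (.red [.f 1337 1 3] 184 136 [1, 1, 1] [(184, 136, [1, 1, 1])]) .no
  (.red [.f 1217 3 1, .f 1217 1 5, .t 1081 3 1, .f 1210 3 5, .t 1098 1 4] 153 136 [3, 1] [(152,
  136, [1]), (153, 136, [3, 1]), (169, 153, [1])]) .no .no (.br 1224 (.red [.t 1224 1 4, .f 1217 1
  5, .t 1081 3 1, .f 1210 3 5, .t 1098 1 4] 153 136 [3, 1] [(152, 136, [1]), (153, 136, [3, 1]),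
  (169, 153, [1])]) .no (.br 1104 .no (.red [.f 968 1 3, .f 1096 3 1, .f 1088 1 3, .f 1216 3 5]
  138 136 [3, 3] [(138, 136, [3, 3]), (153, 136, [3, 1]), (154, 136, [3, 3, 1])]) (.br 976 .no
  (.br 1200 (.con 136 [4, 1, 1, 4]) .no .no (.use 621) .no .no) (.red [.f 976 3 1, .f 968 1 3, .f
  1096 3 5] 138 136 [3, 3] [(138, 136, [3, 3]), (139, 136, [3, 3, 3])]) .no (.red [.t 1096 2 3, .t
  1216 2 3, .f 1097 1 5] 138 136 [3, 3] [(138, 136, [3, 3]), (153, 136, [3, 1])]) .no) .no .no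
  .no) .no .no .no)) .no (.red [.t 952 1 4, .f 945 1 5, .t 1209 4 2, .t 1345 4 2] 168 136 [1, 1]
  [(135, 119, [1]), (151, 136, [4, 1]), (168, 136, [1, 1])]) (.con 136 [4, 1, 1, 1]) (.use 623)
  .no) .no .no (.use 627) (.red [.t 1082 1 4, .t 962 1 4, .f 1081 3 5] 136 136 [] [(136, 136, []),
  (151, 136, [4, 1])]) .no) .no .no (.red [.t 960 2 3, .t 1080 2 3, .f 961 1 5] 121 136 [2, 3]
  [(121, 136, [2, 3]), (136, 136, [])])) .no (.red [.t 1218 1 4, .t 1098 1 4, .f 1217 3 5] 153 136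
  [3, 1] [(153, 136, [3, 1]), (168, 136, [1, 1])])) .no .no .no) (.use 367) .no (.use 419) (.use
  430) .no)) .no .no) .no .no (.use 32) (.br 946 (.red [.t 1088 1 4, .f 1081 1 5, .t 945 3 1, .f
  1074 3 5, .t 962 1 4] 136 136 [] [(135, 119, [1]), (136, 136, []), (152, 136, [1])]) (.use 367)
  .no (.br 1072 (.br 818 .no (.br 841 .no (.br 705 .no (.br 697 .no (.red [.f 569 1 3, .f 697 3 1]
  104 136 [2, 2] [(88, 136, [2, 2, 2]), (104, 136, [2, 2])]) .no (.use 628) (.red [.t 833 4 2] 104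
  136 [2, 2] [(104, 136, [2, 2])]) (.use 629)) .no (.red [.f 697 3 1, .f 705 1 5] 104 136 [2, 2]
  [(104, 136, [2, 2])]) .no (.use 440)) (.br 697 .no (.br 705 .no (.use 407) (.br 944 .no (.use
  410) .no (.use 372) .no .no) .no .no (.use 630)) (.red [.f 697 3 1, .f 705 1 5] 104 136 [2, 2]
  [(104, 136, [2, 2])]) (.use 628) (.red [.t 833 4 2] 104 136 [2, 2] [(104, 136, [2, 2])]) (.use
  629)) .no .no (.red [.t 960 2 3, .t 1080 2 3, .f 961 1 5] 121 136 [2, 3] [(121, 136, [2, 3]),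
  (136, 136, [])])) .no (.red [.f 810 3 1, .f 818 1 3] 119 136 [2, 4] [(118, 136, [2, 4, 4]),
  (119, 136, [2, 4])]) (.use 480) (.red [.t 953 4 2] 119 136 [2, 4] [(119, 136, [2, 4])])) (.use
  614) .no (.use 610) (.use 419) .no) (.use 631) .no) .no

def c28t633 : Tr4 :=
  .br 833 .no (.br 954 .no (.br 825 .no (.br 834 .no (.hor [.f 705 1 5] []) .no .no (.br 946 (.red
  [.t 954 2 3, .t 1074 2 3, .f 945 3 5, .t 1089 4 2, .f 826 3 1] 136 136 [] [(135, 119, [1]),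
  (136, 136, [])]) (.use 367) .no (.br 1073 (.use 605) .no .no (.use 378) (.br 1209 (.use 607) .no
  .no (.red [.t 1209 4 2, .f 1074 3 5] 151 136 [4, 1] [(151, 136, [4, 1])]) .no (.br 1218 (.br
  1201 (.use 612) .no .no (.use 345) (.use 476) (.red [.f 1200 5 3, .t 1209 4 2] 151 136 [4, 1]
  [(151, 136, [4, 1])])) .no .no .no .no .no)) (.use 419)) (.br 1073 (.use 605) .no .no (.use 379)
  (.br 1209 (.use 607) .no .no (.red [.t 1209 4 2, .f 1074 3 5] 151 136 [4, 1] [(151, 136, [4,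
  1])]) .no (.br 1218 (.br 1201 (.use 613) .no .no (.use 345) (.use 477) (.red [.f 1200 5 3, .t
  1209 4 2] 151 136 [4, 1] [(151, 136, [4, 1])])) .no .no .no .no .no)) (.use 430)) .no) .no) .no
  (.red [.f 817 3 1, .f 825 1 5] 119 136 [2, 4] [(119, 136, [2, 4])]) .no (.br 834 .no (.hor [.f
  705 1 5] []) .no .no (.br 946 (.red [.t 954 2 3, .t 1074 2 3, .f 945 3 5, .t 1089 4 2, .f 826 3
  1] 136 136 [] [(135, 119, [1]), (136, 136, [])]) (.use 367) .no (.br 944 (.use 614) (.red [.t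
  944 2 3, .f 825 1 5] 119 136 [2, 4] [(119, 136, [2, 4])]) .no (.use 372) .no .no) (.br 1073
  (.use 605) .no .no (.use 379) (.br 1209 (.use 607) .no .no (.red [.t 1209 4 2, .f 1074 3 5] 151
  136 [4, 1] [(151, 136, [4, 1])]) .no (.br 1218 (.br 1201 (.br 944 (.use 603) (.red [.t 944 2 3,
  .f 825 1 5] 119 136 [2, 4] [(119, 136, [2, 4])]) .no (.use 615) .no .no) .no .no (.use 345)
  (.use 477) (.red [.f 1200 5 3, .t 1209 4 2] 151 136 [4, 1] [(151, 136, [4, 1])])) .no .no .no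
  .no .no)) (.use 430)) .no) .no)) .no (.hor [.f 945 3 5] []) .no .no) (.red [.f 833 3 1, .f 832 1
  5] 121 136 [2, 3] [(121, 136, [2, 3])]) (.br 954 .no (.br 834 .no (.br 835 .no (.hor [.f 706 1
  5] []) (.br 1218 (.use 632) .no .no .no .no .no) (.con 136 [2, 2]) .no .no) .no .no (.red [.t
  954 2 3, .f 825 3 5, .t 969 4 2] 121 136 [2, 3] [(120, 104, [1]), (121, 136, [2, 3])]) .no) .no
  (.hor [.f 945 3 5] []) .no .no) (.red [.t 969 4 2, .f 832 1 5] 121 136 [2, 3] [(121, 136, [2,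
  3])]) .no

def c28t634 : Tr4 :=
  .br 834 .no (.hor [.f 705 1 5] []) .no .no (.red [.t 954 2 3, .t 1074 2 3, .f 945 3 5, .t 1089 4
  2, .f 826 3 1] 136 136 [] [(135, 119, [1]), (136, 136, [])]) .no

def c28t635 : Tr4 :=
  .br 1073 (.use 400) .no .no (.use 379) (.br 1201 (.use 603) .no .no (.use 604) (.use 477) (.red
  [.f 944 1 3, .f 944 3 1, .f 1200 5 3, .t 1209 4 2] 151 136 [4, 1] [(151, 136, [4, 1])])) .no

def c28t636 : Tr4 :=
  .br 834 .no (.hor [.f 705 1 5] []) .no .no (.use 615) .no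

def c28t637 : Tr4 :=
  .br 1208 (.br 1209 (.hor [.f 1208 1 5] []) .no .no (.br 1073 .no .no .no (.use 385) (.red [.t
  1209 4 2, .f 1074 3 5] 151 136 [4, 1] [(151, 136, [4, 1])]) (.br 954 .no (.br 946 (.use 634)
  (.use 367) .no (.use 419) (.use 430) .no) .no (.hor [.f 945 3 5] []) .no .no)) .no .no) .no .no
  (.use 32) (.br 946 (.red [.t 1088 1 4, .f 1081 1 5, .t 945 3 1, .f 1074 3 5, .t 962 1 4] 136 136
  [] [(135, 119, [1]), (136, 136, []), (152, 136, [1])]) (.use 367) (.hor [.f 945 3 5] []) (.br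
  826 (.br 825 .no (.br 1073 (.use 605) .no .no (.use 378) (.br 1201 (.use 612) .no .no (.use 604)
  (.use 476) (.red [.f 1200 5 3, .t 1209 4 2] 151 136 [4, 1] [(151, 136, [4, 1])])) (.use 419))
  .no (.red [.f 817 3 1, .f 825 1 5] 119 136 [2, 4] [(119, 136, [2, 4])]) .no (.br 944 (.br 1073
  (.use 400) .no .no (.use 378) (.br 1201 (.use 603) .no .no (.use 604) (.use 476) (.red [.f 944 1
  3, .f 944 3 1, .f 1200 5 3, .t 1209 4 2] 151 136 [4, 1] [(151, 136, [4, 1])])) .no) (.red [.t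
  944 2 3, .f 825 1 5] 119 136 [2, 4] [(119, 136, [2, 4])]) .no (.use 372) .no .no)) (.con 136 [4,
  2, 3, 3]) (.con 136 [4, 2, 3, 3]) (.con 136 [4, 2, 3, 3]) (.con 136 [4, 2, 3, 3]) (.con 136 [4,
  2, 3, 3])) (.br 826 (.br 825 .no (.br 1072 (.use 609) (.use 635) .no (.use 610) (.use 430) .no)
  .no (.red [.f 817 3 1, .f 825 1 5] 119 136 [2, 4] [(119, 136, [2, 4])]) .no (.br 1072 (.br 944
  .no (.red [.t 944 2 3, .f 825 1 5] 119 136 [2, 4] [(119, 136, [2, 4])]) .no (.use 636) .no .no)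
  (.use 635) .no (.use 610) (.use 430) .no)) (.con 136 [4, 2, 3, 3]) (.con 136 [4, 2, 3, 3]) (.con
  136 [4, 2, 3, 3]) (.con 136 [4, 2, 3, 3]) (.con 136 [4, 2, 3, 3])) .no) .no

def c28t638 : Tr4 :=
  .br 954 .no (.red [.t 961 3 1, .t 825 3 1, .f 832 1 5, .t 1080 2 3, .f 961 1 3, .f 1089 3 1] 153
  136 [3, 1] [(120, 104, [1]), (136, 136, []), (153, 136, [3, 1])]) .no (.hor [.f 945 3 5] []) .no
  .no

def c28t639 : Tr4 :=
  .br 954 .no (.br 946 (.use 634) (.use 367) .no (.br 825 .no (.br 1073 (.use 605) .no .no (.use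
  378) (.br 1209 (.use 607) .no .no (.use 587) .no (.br 1201 (.use 612) .no .no (.use 604) (.use
  492) (.red [.f 1200 5 3, .t 1209 4 2] 151 136 [4, 1] [(151, 136, [4, 1])]))) (.use 479)) .no
  (.red [.f 817 3 1, .f 825 1 5] 119 136 [2, 4] [(119, 136, [2, 4])]) .no (.br 944 (.br 1073 (.use
  400) .no .no (.use 378) (.br 1209 (.use 607) .no .no (.use 587) .no (.br 1201 (.use 603) .no .no
  (.use 604) (.use 492) (.red [.f 944 1 3, .f 944 3 1, .f 1200 5 3, .t 1209 4 2] 151 136 [4, 1]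
  [(151, 136, [4, 1])]))) .no) (.red [.t 944 2 3, .f 825 1 5] 119 136 [2, 4] [(119, 136, [2, 4])])
  .no (.use 372) .no .no)) (.br 825 .no (.br 1073 (.use 605) .no .no (.use 379) (.br 1209 (.use
  607) .no .no (.use 589) .no (.br 1201 (.use 613) .no .no (.use 604) (.use 494) (.red [.f 1200 5
  3, .t 1209 4 2] 151 136 [4, 1] [(151, 136, [4, 1])]))) (.use 486)) .no (.red [.f 817 3 1, .f 825
  1 5] 119 136 [2, 4] [(119, 136, [2, 4])]) .no (.br 944 (.br 1073 (.use 400) .no .no (.use 379)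
  (.br 1209 (.use 607) .no .no (.use 589) .no (.br 1201 (.use 603) .no .no (.use 604) (.use 494)
  (.red [.f 944 1 3, .f 944 3 1, .f 1200 5 3, .t 1209 4 2] 151 136 [4, 1] [(151, 136, [4, 1])])))
  .no) (.red [.t 944 2 3, .f 825 1 5] 119 136 [2, 4] [(119, 136, [2, 4])]) .no (.use 636) .no
  .no)) .no) .no (.hor [.f 945 3 5] []) .no .no

def c28l21 : List Tr4 :=
  [c28t623, c28t624, c28t625, c28t626, c28t627, c28t628, c28t629, c28t630, c28t631, c28t632,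
  c28t633, c28t634, c28t635, c28t636, c28t637, c28t638, c28t639]

theorem c28k21 : chkLF ⟨4, 1, 0, true, -8⟩ false 8 c28N 623 c28l21 = true := by decide +kernel

def c28t640 : Tr4 :=
  .br 946 (.red [.t 1081 3 1, .t 945 3 1, .f 1074 3 5, .t 962 1 4] 136 136 [] [(135, 119, [1]),
  (136, 136, []), (152, 136, [1])]) (.use 367) (.hor [.f 945 3 5] []) (.br 826 (.br 1073 (.use
  605) .no .no (.use 378) (.red [.t 1081 3 1, .f 1073 5 3, .f 1074 3 5, .t 962 1 4] 136 136 []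
  [(136, 136, []), (152, 136, [1])]) (.br 968 (.use 419) (.red [.f 832 1 3] 121 136 [2, 3] [(121,
  136, [2, 3])]) (.use 484) .no .no .no)) (.con 136 [4, 2, 3, 3]) (.con 136 [4, 2, 3, 3]) (.con
  136 [4, 2, 3, 3]) (.con 136 [4, 2, 3, 3]) (.con 136 [4, 2, 3, 3])) (.br 826 (.br 1073 (.use 605)
  .no .no (.use 379) (.red [.t 1081 3 1, .f 1073 5 3, .f 1074 3 5, .t 962 1 4] 136 136 [] [(136,
  136, []), (152, 136, [1])]) (.br 968 (.use 430) (.red [.f 832 1 3] 121 136 [2, 3] [(121, 136,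
  [2, 3])]) (.use 486) .no .no .no)) (.con 136 [4, 2, 3, 3]) (.con 136 [4, 2, 3, 3]) (.con 136 [4,
  2, 3, 3]) (.con 136 [4, 2, 3, 3]) (.con 136 [4, 2, 3, 3])) .no

def c28t641 : Tr4 :=
  .br 1209 (.hor [.f 1209 1 3, .f 1208 3 5] [(168, 167, [3])]) .no .no (.dom 151 136 [4, 1]) .no
  .no

def c28t642 : Tr4 :=
  .br 1203 (.red [.f 1203 1 3] 167 136 [4, 1, 1] [(167, 136, [4, 1, 1])]) .no .no (.red [.t 1065 3
  1, .f 1194 3 5, .t 1082 1 4] 151 136 [4, 1] [(150, 149, [3]), (151, 136, [4, 1])]) .no .no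

def c28t643 : Tr4 :=
  .br 840 .no (.hor [.f 712 1 5] []) (.hor [.f 840 3 1, .f 848 1 5] [(122, 136, [2, 3, 3])]) .no
  .no .no

def c28t644 : Tr4 :=
  .br 977 .no (.br 841 .no (.use 643) .no .no (.use 197) (.red [.t 976 4 2] 122 136 [2, 3, 3]
  [(122, 136, [2, 3, 3])])) (.use 196) .no (.red [.f 962 1 3, .f 962 3 1, .t 1097 3 2] 138 136 [3,
  3] [(138, 136, [3, 3])]) .no

def c28t645 : Tr4 :=
  .br 970 (.br 1218 (.hor [.f 1217 1 5] []) .no (.br 1219 (.br 1216 (.hor [.f 1216 1 5] []) .no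
  (.con 136 [3, 1, 1]) (.use 641) .no .no) .no (.hor [.f 1218 3 5] []) .no .no .no) .no (.br 1216
  (.hor [.f 1216 1 5] []) .no (.br 971 .no (.con 136 [2, 3, 3]) (.br 1097 (.br 1226 (.use 185) .no
  (.use 191) .no (.br 841 .no (.br 1107 (.red [.f 962 1 3, .f 1090 3 5, .f 1098 5 1, .f 1099 1 3]
  154 136 [3, 3, 1] [(137, 121, [1]), (154, 136, [3, 3, 1])]) .no (.br 1106 (.use 192) (.red [.f
  962 1 3, .f 962 3 1, .f 970 1 3, .f 970 3 5] 138 136 [3, 3] [(138, 136, [3, 3])]) (.hor [.f 1106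
  3 5] []) .no .no (.br 977 .no (.use 643) (.use 193) .no (.red [.f 977 5 1, .f 970 1 3] 138 136
  [3, 3] [(138, 136, [3, 3])]) .no)) .no .no (.red [.t 970 1 3] 138 136 [3, 3] [(138, 136, [3,
  3])])) (.br 842 .no (.use 502) (.br 978 (.red [.f 962 1 3, .f 962 3 1, .f 970 1 3, .f 970 3 5]
  138 136 [3, 3] [(138, 136, [3, 3])]) .no (.br 1106 (.br 977 (.con 136 [3, 3, 3]) .no (.hor [.f
  977 3 5] []) .no .no .no) .no (.red [.f 978 3 1] 139 136 [3, 3, 3] [(139, 136, [3, 3, 3])]) .no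
  (.red [.t 970 1 3] 138 136 [3, 3] [(138, 136, [3, 3])]) (.br 977 .no .no (.use 193) .no .no
  .no)) .no .no (.red [.f 962 1 3, .f 961 3 5, .f 833 5 1, .f 969 5 3, .f 842 3 1, .f 834 1 3] 122
  136 [2, 3, 3] [(121, 136, [2, 3]), (122, 136, [2, 3, 3]), (137, 121, [1])])) .no (.use 503) .no)
  .no (.use 194) (.red [.t 960 2 3, .t 1080 2 3, .f 961 1 5] 121 136 [2, 3] [(121, 136, [2, 3]),
  (136, 136, [])])) .no) .no (.use 644) .no .no .no) .no .no .no) (.use 641) .no .no) .no) (.red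
  [.t 969 4 2, .f 832 1 5] 121 136 [2, 3] [(121, 136, [2, 3])]) (.use 83) .no (.use 507) .no

def c28t646 : Tr4 :=
  .br 840 .no (.br 841 .no (.hor [.f 712 1 5] []) (.br 842 .no (.con 136 [2, 2, 3, 3]) (.hor [.f
  841 3 5] []) .no .no .no) .no (.use 198) .no) (.red [.f 840 3 1] 122 136 [2, 3, 3] [(122, 136,
  [2, 3, 3])]) .no (.red [.t 960 2 3, .t 1080 2 3, .f 961 1 5] 121 136 [2, 3] [(121, 136, [2, 3]),
  (136, 136, [])]) .no

def c28t647 : Tr4 :=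
  .br 970 (.br 971 .no (.con 136 [2, 3, 3]) (.br 1097 .no .no (.use 644) .no .no .no) .no .no .no)
  (.red [.t 969 4 2, .f 832 1 5] 121 136 [2, 3] [(121, 136, [2, 3])]) (.use 83) .no (.use 507) .no

def c28t648 : Tr4 :=
  .br 977 .no (.br 841 .no (.use 643) .no .no (.use 197) (.red [.t 976 4 2] 122 136 [2, 3, 3]
  [(122, 136, [2, 3, 3])])) (.use 196) .no (.red [.f 962 1 3, .f 962 3 1, .t 1097 3 2] 138 136 [3,
  3] [(138, 136, [3, 3])]) .no

def c28t649 : Tr4 :=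
  .br 1098 (.br 1218 (.br 1219 (.hor [.f 1218 1 5] []) .no (.hor [.f 1091 3 1, .f 1098 1 5] [(153,
  136, [3, 1])]) .no .no .no) .no .no .no (.hor [.t 1098 1 4, .f 1217 3 5] [(153, 136, [3, 1])])
  .no) (.br 971 .no .no (.use 648) .no .no .no) (.use 205) .no .no .no

def c28t650 : Tr4 :=
  .br 1217 (.br 835 .no (.br 834 .no (.hor [.f 706 1 5] []) (.use 432) .no .no (.use 645)) (.br
  1216 (.hor [.f 1216 1 5] []) .no (.br 1209 (.use 583) .no .no (.dom 151 136 [4, 1]) .no (.br 834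
  .no (.br 833 .no (.hor [.f 705 1 5] []) (.red [.f 833 3 1, .f 832 1 5] 121 136 [2, 3] [(121,
  136, [2, 3])]) (.br 1073 (.use 605) .no .no (.br 1202 (.use 396) .no .no (.use 355) (.red [.t
  1082 1 4, .t 962 1 4, .f 1081 3 5] 136 136 [] [(136, 136, []), (151, 136, [4, 1])]) (.br 1066
  (.use 642) (.red [.f 938 1 3] 134 136 [4, 4] [(134, 136, [4, 4])]) .no (.br 1097 (.br 1098 (.hor
  [.f 1097 1 5] []) (.use 646) (.br 970 .no (.use 188) (.use 83) .no (.br 938 .no (.br 840 .no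
  (.use 524) (.red [.f 840 3 1] 122 136 [2, 3, 3] [(122, 136, [2, 3, 3])]) .no (.red [.t 960 2 3,
  .t 1080 2 3, .f 961 1 5] 121 136 [2, 3] [(121, 136, [2, 3]), (136, 136, [])]) .no) .no (.red [.f
  930 3 1, .f 938 1 3] 134 136 [4, 4] [(133, 136, [4, 4, 4]), (134, 136, [4, 4])]) (.br 840 .no
  (.use 529) (.red [.f 840 3 1] 122 136 [2, 3, 3] [(122, 136, [2, 3, 3])]) .no (.red [.t 960 2 3,
  .t 1080 2 3, .f 961 1 5] 121 136 [2, 3] [(121, 136, [2, 3]), (136, 136, [])]) .no) (.red [.t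
  1073 4 2] 134 136 [4, 4] [(134, 136, [4, 4])])) .no) .no .no .no) .no (.br 1098 (.use 110) (.use
  646) (.hor [.f 1097 3 5] []) .no .no .no) .no (.use 530) .no) (.use 512) .no)) .no .no) .no .no)
  (.hor [.f 834 3 5] []) .no .no (.use 645))) (.use 641) .no .no) (.red [.f 827 3 1, .f 826 1 5,
  .t 1074 2 3, .f 945 3 5, .t 1089 4 2, .t 962 4 2] 136 136 [] [(135, 119, [1]), (136, 136, [])])
  .no (.red [.t 954 2 3, .t 1074 2 3, .f 945 3 5, .t 1089 4 2, .f 826 3 1] 136 136 [] [(135, 119,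
  [1]), (136, 136, [])])) .no (.br 1073 (.use 605) .no .no (.br 835 .no (.br 834 .no (.hor [.f 706
  1 5] []) (.use 432) .no .no (.use 647)) (.br 834 .no (.br 833 .no (.hor [.f 705 1 5] []) (.red
  [.f 833 3 1, .f 832 1 5] 121 136 [2, 3] [(121, 136, [2, 3])]) (.br 1097 .no .no (.use 649) .no
  (.br 1216 (.br 1208 (.use 497) .no .no .no (.br 1066 (.br 1202 (.use 396) .no .no .no (.red [.t
  1082 1 4, .t 962 1 4, .f 1081 3 5] 136 136 [] [(136, 136, []), (151, 136, [4, 1])]) (.use 642))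
  (.red [.f 938 1 3] 134 136 [4, 4] [(134, 136, [4, 4])]) .no (.br 1202 (.use 396) .no .no (.use
  355) (.red [.t 1082 1 4, .t 962 1 4, .f 1081 3 5] 136 136 [] [(136, 136, []), (151, 136, [4,
  1])]) (.use 530)) (.use 512) .no) .no) .no (.hor [.f 1216 3 5] []) (.br 1209 (.br 1202 (.use
  586) .no .no (.use 340) (.red [.t 1082 1 4, .t 962 1 4, .f 1081 3 5] 136 136 [] [(136, 136, []),
  (151, 136, [4, 1])]) (.br 1066 (.br 1203 (.red [.f 1203 1 3] 167 136 [4, 1, 1] [(167, 136, [4,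
  1, 1])]) .no .no (.red [.t 1065 3 1, .f 1194 3 5, .t 1082 1 4] 151 136 [4, 1] [(150, 134, [1]),
  (151, 136, [4, 1])]) .no .no) (.red [.f 938 1 3] 134 136 [4, 4] [(134, 136, [4, 4])]) .no (.use
  530) (.use 512) .no)) .no .no (.dom 151 136 [4, 1]) .no .no) .no .no) .no) .no .no) (.hor [.f
  834 3 5] []) .no .no (.use 647)) (.red [.f 827 3 1, .f 826 1 5, .t 1074 2 3, .f 945 3 5, .t 1089
  4 2, .t 962 4 2] 136 136 [] [(135, 119, [1]), (136, 136, [])]) .no (.red [.t 954 2 3, .t 1074 2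
  3, .f 945 3 5, .t 1089 4 2, .f 826 3 1] 136 136 [] [(135, 119, [1]), (136, 136, [])])) .no .no)
  (.use 381) (.use 640) (.use 576)

def c28t651 : Tr4 :=
  .br 840 .no (.hor [.f 712 1 5] []) (.red [.f 840 3 1] 122 136 [2, 3, 3] [(122, 136, [2, 3, 3])])
  .no .no .no

def c28t652 : Tr4 :=
  .br 841 .no (.use 651) (.br 842 .no (.use 502) (.hor [.f 841 3 5] []) .no (.use 503) .no) .no
  (.red [.f 833 5 3, .f 833 3 1] 121 136 [2, 3] [(121, 136, [2, 3])]) (.red [.t 960 2 3, .t 1080 2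
  3, .f 961 1 5] 121 136 [2, 3] [(121, 136, [2, 3]), (136, 136, [])])

def c28t653 : Tr4 :=
  .br 970 (.use 652) (.red [.t 969 4 2, .f 832 1 5] 121 136 [2, 3] [(121, 136, [2, 3])]) (.use 83)
  .no (.use 507) .no

def c28t654 : Tr4 :=
  .br 834 .no (.hor [.f 706 1 5] []) (.use 432) .no .no (.use 653)

def c28t655 : Tr4 :=
  .br 938 .no (.use 535) .no (.br 937 .no (.br 697 .no (.use 562) (.red [.f 697 3 1, .f 705 1 5]
  104 136 [2, 2] [(104, 136, [2, 2])]) (.use 540) (.red [.t 833 4 2] 104 136 [2, 2] [(104, 136,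
  [2, 2])]) (.use 544)) .no (.hor [.f 929 3 5] []) .no .no) (.con 136 [4, 4, 2]) (.red [.f 1064 5
  3, .t 1073 4 2] 134 136 [4, 4] [(134, 136, [4, 4])])

def c28t656 : Tr4 :=
  .br 1202 (.use 9) .no .no (.use 355) (.red [.t 1082 1 4, .t 962 1 4, .f 1081 3 5] 136 136 []
  [(136, 136, []), (151, 136, [4, 1])]) (.br 944 .no (.use 626) .no (.br 1066 (.br 1065 (.hor [.f
  1065 1 5] []) (.con 136 [4, 4, 4]) .no (.br 1203 (.red [.f 1203 1 3] 167 136 [4, 1, 1] [(167,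
  136, [4, 1, 1])]) .no .no (.con 136 [4, 4, 1, 4]) .no .no) .no (.use 655)) (.red [.f 938 1 3]
  134 136 [4, 4] [(134, 136, [4, 4])]) .no (.br 938 .no (.use 535) .no (.red [.f 930 3 1, .f 938 1
  3] 134 136 [4, 4] [(133, 136, [4, 4, 4]), (134, 136, [4, 4])]) (.con 136 [4, 4, 2]) (.br 1065
  (.br 1200 (.use 150) .no .no (.red [.t 1192 3 2] 150 136 [4, 4, 1] [(150, 136, [4, 4, 1])]) .no
  .no) .no .no (.hor [.f 1057 3 5] []) .no (.red [.f 1064 5 3, .t 1073 4 2] 134 136 [4, 4] [(134,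
  136, [4, 4])]))) (.use 543) (.use 625)) .no .no)

def c28t657 : Tr4 :=
  .br 1072 (.use 650) (.con 136 [4, 4]) .no (.use 498) (.br 835 .no (.use 654) (.br 834 .no (.br
  833 .no (.hor [.f 705 1 5] []) (.red [.f 833 3 1, .f 832 1 5] 121 136 [2, 3] [(121, 136, [2,
  3])]) (.br 1217 (.br 1216 (.hor [.f 1216 1 5] []) .no (.br 1209 (.use 583) .no .no (.br 1208
  (.use 577) .no .no (.hor [.f 1200 3 5] []) .no .no) .no (.use 656)) (.br 1209 (.hor [.f 1209 1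
  3, .f 1208 3 5] [(168, 167, [3])]) .no .no (.use 584) .no .no) .no .no) .no (.br 1097 .no .no
  (.use 649) .no (.br 1203 (.red [.f 1203 1 3, .f 1075 3 1, .f 1082 1 5] 151 136 [4, 1] [(151,
  136, [4, 1]), (167, 136, [4, 1, 1])]) .no .no (.br 1208 (.use 533) .no (.br 1209 (.br 1201 (.red
  [.f 1201 1 3] 167 136 [4, 1, 1] [(167, 136, [4, 1, 1])]) .no .no (.use 501) (.br 944 .no (.use
  626) .no (.br 1066 (.use 534) (.red [.f 938 1 3] 134 136 [4, 4] [(134, 136, [4, 4])]) .no (.br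
  938 .no (.use 535) .no (.red [.f 930 3 1, .f 938 1 3] 134 136 [4, 4] [(133, 136, [4, 4, 4]),
  (134, 136, [4, 4])]) (.con 136 [4, 4, 2]) (.br 1065 (.use 567) .no .no (.use 558) .no (.red [.f
  1064 5 3, .t 1073 4 2] 134 136 [4, 4] [(134, 136, [4, 4])]))) (.use 543) (.use 625)) .no .no)
  (.use 568)) .no .no (.use 569) .no .no) (.use 499) (.use 575) .no) .no (.red [.t 1082 1 4, .t
  962 1 4, .f 1081 3 5] 136 136 [] [(136, 136, []), (151, 136, [4, 1])])) .no) (.use 488) (.use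
  640) (.br 1208 (.use 578) .no .no (.br 1209 (.con 136 [4, 1, 1]) .no .no (.hor [.f 1200 3 5] [])
  .no .no) (.use 656) .no)) .no .no) (.hor [.f 834 3 5] []) .no .no (.use 653)) (.red [.f 827 3 1,
  .f 826 1 5, .t 1074 2 3, .f 945 3 5, .t 1089 4 2, .t 962 4 2] 136 136 [] [(135, 119, [1]), (136,
  136, [])]) .no (.red [.t 954 2 3, .t 1074 2 3, .f 945 3 5, .t 1089 4 2, .f 826 3 1] 136 136 []
  [(135, 119, [1]), (136, 136, [])])) .no

def c28t658 : Tr4 :=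
  .br 946 (.con 136 [4, 2, 3, 1]) (.con 136 [4, 2, 3, 1]) (.hor [.f 945 3 5] []) (.con 136 [4, 2,
  3, 1]) (.con 136 [4, 2, 3, 1]) .no

def c28t659 : Tr4 :=
  .br 1065 .no (.con 136 [4, 4, 4]) .no (.hor [.f 1056 3 5] []) (.br 936 .no (.br 937 .no (.hor
  [.f 808 1 5] []) .no (.con 136 [4, 4, 4, 2]) .no .no) .no (.red [.f 928 3 1, .f 936 1 3] 134 136
  [4, 4] [(133, 136, [4, 4, 4]), (134, 136, [4, 4])]) (.red [.f 1065 5 3, .t 1072 2 4] 134 136 [4,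
  4] [(134, 136, [4, 4])]) .no) .no

def c28t660 : Tr4 :=
  .br 937 .no (.hor [.f 808 1 5] []) .no (.con 136 [4, 4, 4, 2]) .no .no

def c28l22 : List Tr4 :=
  [c28t640, c28t641, c28t642, c28t643, c28t644, c28t645, c28t646, c28t647, c28t648, c28t649,
  c28t650, c28t651, c28t652, c28t653, c28t654, c28t655, c28t656, c28t657, c28t658, c28t659,
  c28t660]

theorem c28k22 : chkLF ⟨4, 1, 0, true, -8⟩ false 8 c28N 640 c28l22 = true := by decide +kernel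

def c28t661 : Tr4 :=
  .br 937 .no (.br 819 (.con 136 [2, 4, 2]) (.con 136 [2, 4, 2]) (.br 689 (.hor [.f 689 1 5] [])
  (.con 136 [2, 2, 4, 4]) .no (.con 136 [2, 2, 4, 4]) .no (.con 136 [2, 2, 4, 4])) (.con 136 [2,
  4, 2]) .no .no) .no (.hor [.f 928 3 5] []) .no .no

def c28t662 : Tr4 :=
  .br 1202 (.br 824 .no (.hor [.f 696 1 5] []) .no (.br 818 .no (.br 1064 (.con 136 [4, 4, 1, 1])
  (.red [.f 936 1 3] 134 136 [4, 4] [(134, 136, [4, 4])]) .no (.use 659) (.br 936 .no (.use 660)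
  .no (.use 661) (.red [.f 936 5 1, .f 936 1 3] 134 136 [4, 4] [(134, 136, [4, 4])]) .no) .no) .no
  (.red [.f 810 3 1, .f 818 1 3] 119 136 [2, 4] [(118, 136, [2, 4, 4]), (119, 136, [2, 4])]) (.con
  136 [2, 4, 2]) (.red [.f 944 1 3, .t 953 4 2] 119 136 [2, 4] [(119, 136, [2, 4]), (135, 119,
  [1])])) .no .no) .no .no (.hor [.f 1193 3 5] []) (.red [.t 1082 1 4, .t 962 1 4, .f 1081 3 5]
  136 136 [] [(136, 136, []), (151, 136, [4, 1])]) .no

def c28t663 : Tr4 :=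
  .br 1064 (.br 1066 .no .no .no (.hor [.f 1057 3 5] []) (.con 136 [4, 4, 4, 1]) .no) (.red [.f
  936 1 3] 134 136 [4, 4] [(134, 136, [4, 4])]) .no (.hor [.f 1056 3 5] []) .no .no

def c28t664 : Tr4 :=
  .br 1065 (.red [.t 1193 2 3, .f 1074 1 3] 151 136 [4, 1] [(150, 136, [4, 4, 1]), (151, 136, [4,
  1])]) (.use 602) .no (.use 663) (.red [.f 1065 5 3, .f 1066 3 1, .f 1074 1 3] 151 136 [4, 1]
  [(150, 136, [4, 4, 1]), (151, 136, [4, 1])]) (.br 936 .no (.use 660) .no (.br 824 .no (.hor [.f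
  696 1 5] []) .no (.br 818 .no (.use 661) .no (.red [.f 810 3 1, .f 818 1 3] 119 136 [2, 4]
  [(118, 136, [2, 4, 4]), (119, 136, [2, 4])]) (.con 136 [2, 4, 2]) (.red [.f 944 1 3, .t 953 4 2]
  119 136 [2, 4] [(119, 136, [2, 4]), (135, 119, [1])])) .no .no) (.red [.f 936 5 1, .f 936 1 3]
  134 136 [4, 4] [(134, 136, [4, 4])]) .no)

def c28t665 : Tr4 :=
  .br 1202 (.use 36) .no .no (.use 664) (.red [.t 1082 1 4, .t 962 1 4, .f 1081 3 5] 136 136 []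
  [(136, 136, []), (151, 136, [4, 1])]) .no

def c28t666 : Tr4 :=
  .br 1201 (.red [.f 1201 1 3] 167 136 [4, 1, 1] [(167, 136, [4, 1, 1])]) .no .no (.use 662) (.use
  492) (.use 665)

def c28t667 : Tr4 :=
  .br 936 .no (.use 660) .no (.br 937 .no (.br 939 (.con 136 [4, 4, 2]) (.con 136 [4, 4, 2]) (.hor
  [.f 938 3 5] []) (.con 136 [4, 4, 2]) .no .no) .no (.hor [.f 928 3 5] []) .no .no) (.red [.f 936
  5 1, .f 936 1 3] 134 136 [4, 4] [(134, 136, [4, 4])]) .no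

def c28t668 : Tr4 :=
  .br 1065 (.red [.t 1193 2 3, .f 1074 1 3] 151 136 [4, 1] [(150, 136, [4, 4, 1]), (151, 136, [4,
  1])]) (.use 602) .no (.use 663) (.red [.f 1065 5 3, .f 1066 3 1, .f 1074 1 3] 151 136 [4, 1]
  [(150, 136, [4, 4, 1]), (151, 136, [4, 1])]) (.use 667)

def c28t669 : Tr4 :=
  .br 1202 (.use 36) .no .no (.use 668) (.red [.t 1082 1 4, .t 962 1 4, .f 1081 3 5] 136 136 []
  [(136, 136, []), (151, 136, [4, 1])]) .no

def c28t670 : Tr4 :=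
  .br 1339 (.use 302) .no (.red [.f 1211 3 1, .f 1218 1 5] 168 136 [1, 1] [(168, 136, [1, 1])])
  (.con 136 [1, 4, 1, 4]) .no (.red [.t 1218 1 4] 168 136 [1, 1] [(168, 136, [1, 1])])

def c28t671 : Tr4 :=
  .br 1209 (.br 1208 (.hor [.f 1208 1 5] []) .no (.br 1201 (.red [.f 1201 1 3] 167 136 [4, 1, 1]
  [(167, 136, [4, 1, 1])]) .no .no (.br 1202 (.br 1339 (.use 302) .no (.hor [.f 1211 3 1, .f 1218
  1 5] [(168, 136, [1, 1])]) (.con 136 [4, 1, 1, 4]) .no (.br 1064 (.con 136 [4, 4, 1, 1]) (.red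
  [.f 936 1 3] 134 136 [4, 4] [(134, 136, [4, 4])]) .no (.use 659) (.use 667) .no)) .no .no (.hor
  [.f 1193 3 5] []) (.red [.t 1082 1 4, .t 962 1 4, .f 1081 3 5] 136 136 [] [(136, 136, []), (151,
  136, [4, 1])]) .no) (.use 492) (.use 669)) (.con 136 [4, 1, 1]) .no .no) .no .no (.use 587) .no
  (.br 1201 (.use 603) .no .no (.br 1202 (.use 670) .no .no (.use 668) (.red [.t 1082 1 4, .t 962
  1 4, .f 1081 3 5] 136 136 [] [(136, 136, []), (151, 136, [4, 1])]) .no) (.use 492) (.use 669))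

def c28t672 : Tr4 :=
  .br 825 .no (.br 1073 (.use 605) .no .no (.use 378) (.br 944 (.br 1209 (.use 666) .no .no (.use
  587) .no (.br 1201 (.use 603) .no .no (.use 662) (.use 492) (.use 665))) (.use 403) .no (.use
  372) .no .no) (.use 479)) .no (.red [.f 817 3 1, .f 825 1 5] 119 136 [2, 4] [(119, 136, [2,
  4])]) .no (.br 944 (.br 1073 (.use 400) .no .no (.use 378) (.use 671) .no) (.red [.t 944 2 3, .f
  825 1 5] 119 136 [2, 4] [(119, 136, [2, 4])]) .no (.use 372) .no .no)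

def c28t673 : Tr4 :=
  .br 825 .no (.br 827 .no (.br 824 .no (.hor [.f 696 1 5] []) .no (.con 136 [2, 2, 4]) .no .no)
  .no (.red [.t 954 2 3, .t 834 4 1, .t 826 1 4] 119 136 [2, 4] [(119, 136, [2, 4])]) .no .no) .no
  (.red [.f 817 3 1, .f 825 1 5] 119 136 [2, 4] [(119, 136, [2, 4])]) .no (.br 944 (.br 827 .no
  (.br 819 .no (.red [.f 691 1 3] 103 136 [2, 2, 4] [(103, 136, [2, 2, 4])]) .no (.br 818 .no (.br
  689 (.hor [.f 689 1 5] []) (.con 136 [2, 2, 4, 4]) (.con 136 [2, 2, 4, 4]) (.con 136 [2, 2, 4,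
  4]) .no (.con 136 [2, 2, 4, 4])) .no (.hor [.f 810 3 5] []) .no (.red [.f 944 1 3, .t 953 4 2]
  119 136 [2, 4] [(119, 136, [2, 4]), (135, 119, [1])])) .no (.red [.f 818 5 1, .f 818 1 3] 119
  136 [2, 4] [(119, 136, [2, 4])])) .no (.red [.t 954 2 3, .t 834 4 1, .t 826 1 4] 119 136 [2, 4]
  [(119, 136, [2, 4])]) .no .no) (.red [.t 944 2 3, .f 825 1 5] 119 136 [2, 4] [(119, 136, [2,
  4])]) .no (.use 615) .no .no)

def c28t674 : Tr4 :=
  .br 705 .no (.use 509) (.br 697 .no (.br 696 (.use 456) (.hor [.f 568 1 5] []) (.use 470) (.use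
  624) .no .no) .no (.use 521) (.red [.t 833 4 2] 104 136 [2, 2] [(104, 136, [2, 2])]) (.use 415))
  (.red [.f 697 3 1, .f 705 1 5] 104 136 [2, 2] [(104, 136, [2, 2])]) .no (.use 405)

def c28t675 : Tr4 :=
  .br 937 .no (.hor [.f 809 1 5] []) .no (.br 944 .no (.use 674) .no (.con 136 [4, 4, 4, 2]) .no
  .no) .no (.br 944 .no (.use 674) .no .no .no .no)

def c28t676 : Tr4 :=
  .br 944 .no (.br 705 .no (.use 509) (.br 818 .no (.br 697 .no (.use 526) .no (.use 527) (.red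
  [.t 833 4 2] 104 136 [2, 2] [(104, 136, [2, 2])]) (.use 415)) .no (.use 457) (.con 136 [4, 4, 2,
  3]) (.red [.t 953 4 2, .f 816 1 5] 119 136 [2, 4] [(119, 136, [2, 4])])) (.red [.f 697 3 1, .f
  705 1 5] 104 136 [2, 2] [(104, 136, [2, 2])]) .no (.use 405)) .no (.con 136 [4, 4, 2]) .no .no

def c28t677 : Tr4 :=
  .br 938 .no (.use 675) .no (.red [.f 930 3 1, .f 938 1 3] 134 136 [4, 4] [(133, 136, [4, 4, 4]),
  (134, 136, [4, 4])]) (.use 676) (.red [.t 1073 4 2] 134 136 [4, 4] [(134, 136, [4, 4])])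

def c28t678 : Tr4 :=
  .br 1065 (.hor [.f 1065 1 5] []) (.con 136 [4, 4, 4]) .no (.br 1064 (.con 136 [4, 4, 4, 1]) .no
  .no (.hor [.f 1056 3 5] []) .no .no) .no (.use 655)

def c28t679 : Tr4 :=
  .br 818 .no (.use 416) .no (.red [.f 810 3 1, .f 818 1 3] 119 136 [2, 4] [(118, 136, [2, 4, 4]),
  (119, 136, [2, 4])]) (.use 404) (.red [.t 953 4 2, .f 816 1 5] 119 136 [2, 4] [(119, 136, [2,
  4])])

def c28t680 : Tr4 :=
  .br 1202 (.br 1203 (.hor [.f 1202 1 5] []) .no .no (.con 136 [4, 1, 4, 1]) .no .no) .no .no .no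
  (.red [.t 1082 1 4, .t 962 1 4, .f 1081 3 5] 136 136 [] [(136, 136, []), (151, 136, [4, 1])])
  .no

def c28t681 : Tr4 :=
  .br 1072 (.br 1073 (.use 605) .no .no (.br 1066 (.br 1216 (.br 1208 (.use 497) .no .no .no (.br
  1345 (.br 1337 (.red [.f 1337 1 3, .t 1344 2 4] 168 136 [1, 1] [(168, 136, [1, 1]), (184, 136,
  [1, 1, 1])]) .no .no (.br 1339 (.br 1338 (.hor [.f 1338 1 5] []) .no .no (.hor [.f 1329 3 5] [])
  .no .no) .no (.red [.f 1211 3 1, .f 1218 1 5] 168 136 [1, 1] [(168, 136, [1, 1])]) (.br 1338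
  (.con 136 [4, 1, 1, 1]) .no .no (.hor [.f 1329 3 5] []) .no .no) .no (.red [.t 1218 1 4] 168 136
  [1, 1] [(168, 136, [1, 1])])) (.br 1202 (.br 1201 (.hor [.f 1201 1 5] []) .no .no (.use 670) .no
  .no) .no .no .no (.red [.t 1082 1 4, .t 962 1 4, .f 1081 3 5] 136 136 [] [(136, 136, []), (151,
  136, [4, 1])]) (.br 1339 (.br 1336 (.br 1466 (.br 1465 (.hor [.f 1465 1 5] []) .no .no (.use
  304) .no .no) .no (.red [.t 1473 2 4, .f 1338 1 5] 184 136 [1, 1, 1] [(184, 136, [1, 1, 1])])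
  (.use 309) .no (.hor [.f 1337 5 1, .f 1336 1 5, .f 1338 1 5] [])) .no .no (.red [.t 1065 3 1, .f
  1072 1 5, .f 1200 5 3, .f 1200 3 1] 167 136 [4, 1, 1] [(150, 134, [1]), (167, 136, [4, 1, 1])])
  .no .no) .no (.red [.f 1211 3 1, .f 1218 1 5] 168 136 [1, 1] [(168, 136, [1, 1])]) (.use 317)
  .no .no)) (.red [.f 1208 5 1, .f 1208 1 3] 168 136 [1, 1] [(168, 136, [1, 1])])) .no (.hor [.f
  1217 3 1, .f 1216 1 5] [(169, 168, [3])]) (.red [.t 1344 2 4] 168 136 [1, 1] [(168, 136, [1,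
  1])]) .no .no) .no) .no (.hor [.f 1216 3 5] []) (.br 1209 (.br 1201 (.red [.f 1201 1 3] 167 136
  [4, 1, 1] [(167, 136, [4, 1, 1])]) .no .no (.use 680) (.br 1338 (.use 323) .no .no (.red [.t
  1065 3 1, .t 1201 2 4, .t 1337 2 4] 167 136 [4, 1, 1] [(167, 136, [4, 1, 1])]) (.br 1203 (.red
  [.t 1218 1 4, .f 1203 1 3] 167 136 [4, 1, 1] [(167, 136, [4, 1, 1]), (168, 136, [1, 1])]) .no
  .no (.red [.t 1065 3 1, .f 1194 3 5, .t 1082 1 4] 151 136 [4, 1] [(150, 134, [1]), (151, 136,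
  [4, 1])]) .no .no) .no) .no) .no .no (.dom 151 136 [4, 1]) .no .no) .no .no) (.red [.f 938 1 3]
  134 136 [4, 4] [(134, 136, [4, 4])]) .no (.use 677) (.use 512) .no) .no .no) (.con 136 [4, 4])
  .no (.use 498) (.br 944 .no (.use 626) .no (.br 1066 (.use 678) (.red [.f 938 1 3] 134 136 [4,
  4] [(134, 136, [4, 4])]) .no (.br 938 .no (.use 535) .no (.red [.f 930 3 1, .f 938 1 3] 134 136
  [4, 4] [(133, 136, [4, 4, 4]), (134, 136, [4, 4])]) (.con 136 [4, 4, 2]) (.br 1065 (.br 1200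
  (.use 596) .no (.use 32) (.red [.t 1192 3 2] 150 136 [4, 4, 1] [(150, 136, [4, 4, 1])]) (.red
  [.f 1072 5 1, .f 1065 1 3] 150 136 [4, 4, 1] [(150, 136, [4, 4, 1])]) .no) .no .no (.hor [.f
  1057 3 5] []) .no (.red [.f 1064 5 3, .t 1073 4 2] 134 136 [4, 4] [(134, 136, [4, 4])]))) (.use
  543) (.use 625)) .no .no) .no

def c28t682 : Tr4 :=
  .br 954 .no (.use 482) .no (.hor [.f 945 3 5] []) .no .no

def c28t683 : Tr4 :=
  .br 1208 (.hor [.f 1208 1 5] []) .no .no (.con 136 [1, 4, 1]) .no .no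

def c28t684 : Tr4 :=
  .br 1201 (.br 1202 (.hor [.f 1201 1 5] []) .no .no (.use 358) (.red [.t 1082 1 4, .t 962 1 4, .f
  1081 3 5] 136 136 [] [(136, 136, []), (151, 136, [4, 1])]) .no) .no .no (.use 364) (.use 492)
  (.red [.f 1200 5 3, .t 1209 4 2] 151 136 [4, 1] [(151, 136, [4, 1])])

def c28t685 : Tr4 :=
  .br 1209 (.use 683) .no .no (.use 587) .no (.use 684)

def c28t686 : Tr4 :=
  .br 1073 .no .no .no (.use 385) (.red [.t 1209 4 2, .f 1074 3 5] 151 136 [4, 1] [(151, 136, [4,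
  1])]) (.br 946 (.br 826 (.br 1208 (.br 944 .no (.use 626) .no (.br 1066 (.use 678) (.red [.f 938
  1 3] 134 136 [4, 4] [(134, 136, [4, 4])]) .no (.use 597) (.use 543) (.use 625)) .no .no) .no .no
  (.hor [.f 1200 3 5] []) .no .no) (.con 136 [4, 2, 3, 2]) .no (.con 136 [4, 2, 3, 2]) (.con 136
  [4, 2, 3, 2]) .no) (.use 367) (.hor [.f 945 3 5] []) (.use 489) (.use 490) .no)

def c28t687 : Tr4 :=
  .br 826 (.use 631) (.con 136 [4, 2, 3, 2]) .no (.con 136 [4, 2, 3, 2]) (.con 136 [4, 2, 3, 2])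
  .no

def c28l23 : List Tr4 :=
  [c28t661, c28t662, c28t663, c28t664, c28t665, c28t666, c28t667, c28t668, c28t669, c28t670,
  c28t671, c28t672, c28t673, c28t674, c28t675, c28t676, c28t677, c28t678, c28t679, c28t680,
  c28t681, c28t682, c28t683, c28t684, c28t685, c28t686, c28t687]

theorem c28k23 : chkLF ⟨4, 1, 0, true, -8⟩ false 8 c28N 661 c28l23 = true := by decide +kernel

def c28t688 : Tr4 :=
  .br 1217 (.hor [.f 1217 1 5] []) .no (.br 833 .no (.br 841 .no (.red [.f 705 1 3, .f 833 3 1]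
  121 136 [2, 3] [(105, 136, [2, 3, 2]), (121, 136, [2, 3])]) (.br 834 .no (.hor [.f 705 1 5] [])
  (.use 402) (.use 658) (.br 970 (.use 203) (.br 954 .no (.br 946 (.use 634) (.use 367) .no (.use
  672) (.use 673) .no) .no (.hor [.f 945 3 5] []) .no .no) (.use 83) .no (.use 201) .no) .no) .no
  (.br 834 .no (.hor [.f 705 1 5] []) .no (.use 658) (.br 954 .no (.br 946 (.red [.t 954 2 3, .t
  1074 2 3, .f 945 3 5, .t 1089 4 2, .f 826 3 1] 136 136 [] [(135, 119, [1]), (136, 136, [])])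
  (.use 367) .no (.use 672) (.use 673) .no) .no (.hor [.f 945 3 5] []) .no .no) .no) (.red [.t 960
  2 3, .t 1080 2 3, .f 961 1 5] 121 136 [2, 3] [(121, 136, [2, 3]), (136, 136, [])])) (.red [.f
  833 3 1, .f 832 1 5] 121 136 [2, 3] [(121, 136, [2, 3])]) (.br 834 .no (.br 835 .no (.hor [.f
  706 1 5] []) (.br 954 .no (.br 946 (.use 681) (.use 367) .no (.br 1073 (.use 605) .no .no (.use
  378) (.br 944 (.use 671) (.use 679) .no (.use 372) .no .no) (.use 481)) (.use 631) .no) .no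
  (.hor [.f 945 3 5] []) .no .no) (.con 136 [2, 2]) .no .no) (.use 411) (.use 658) (.use 682) .no)
  (.use 647) .no) (.use 218) .no (.br 833 .no (.br 834 .no (.hor [.f 705 1 5] []) (.use 402) (.use
  658) (.br 954 .no (.br 946 (.red [.t 954 2 3, .t 1074 2 3, .f 945 3 5, .t 1089 4 2, .f 826 3 1]
  136 136 [] [(135, 119, [1]), (136, 136, [])]) (.use 367) .no (.br 825 .no (.br 1073 (.use 605)
  .no .no (.use 378) (.use 685) (.use 479)) .no (.red [.f 817 3 1, .f 825 1 5] 119 136 [2, 4]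
  [(119, 136, [2, 4])]) .no (.br 1073 (.use 605) .no .no (.use 378) (.use 685) (.use 483))) (.use
  673) .no) .no (.hor [.f 945 3 5] []) .no .no) .no) (.red [.f 833 3 1, .f 832 1 5] 121 136 [2, 3]
  [(121, 136, [2, 3])]) (.br 834 .no (.br 835 .no (.hor [.f 706 1 5] []) (.br 1209 (.use 683) .no
  .no (.use 686) .no (.br 946 (.red [.f 1208 5 3, .f 1081 3 1, .f 1081 1 5, .t 945 3 1, .f 1074 3
  5, .t 962 1 4] 136 136 [] [(135, 119, [1]), (136, 136, []), (152, 136, [1])]) (.use 367) (.hor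
  [.f 945 3 5] []) (.br 826 (.br 1073 (.use 605) .no .no (.use 378) (.use 684) (.use 481)) (.con
  136 [4, 2, 3, 2]) .no (.con 136 [4, 2, 3, 2]) (.con 136 [4, 2, 3, 2]) .no) (.use 687) .no))
  (.con 136 [2, 2]) .no .no) (.use 411) (.use 658) (.use 682) .no) (.use 653) .no)

def c28t689 : Tr4 :=
  .br 1073 (.use 400) .no .no (.use 378) (.br 1201 (.red [.f 1201 1 3] 167 136 [4, 1, 1] [(167,
  136, [4, 1, 1])]) .no .no (.br 1202 (.br 1200 (.con 136 [4, 4, 1, 1]) .no .no (.hor [.f 1192 3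
  5] []) .no .no) .no .no (.hor [.f 1193 3 5] []) (.red [.t 1082 1 4, .t 962 1 4, .f 1081 3 5] 136
  136 [] [(136, 136, []), (151, 136, [4, 1])]) .no) (.use 492) (.use 669)) .no

def c28t690 : Tr4 :=
  .br 1338 (.use 227) .no (.br 1336 (.use 343) .no (.use 344) (.red [.t 1065 3 1, .f 1072 1 5, .t
  1336 4 2] 167 136 [4, 1, 1] [(150, 134, [1]), (167, 136, [4, 1, 1])]) .no .no) (.red [.t 1065 3
  1, .t 1201 2 4, .t 1337 2 4] 167 136 [4, 1, 1] [(167, 136, [4, 1, 1])]) (.use 230) .no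

def c28t691 : Tr4 :=
  .br 578 .no (.hor [.f 449 1 5] []) (.con 136 [2, 2, 3, 2, 2]) (.red [.t 705 3 1, .t 569 1 3, .f
  697 3 1, .f 705 1 3] 88 136 [2, 2, 2] [(88, 136, [2, 2, 2]), (104, 136, [2, 2])]) .no .no

def c28t692 : Tr4 :=
  .br 707 .no (.con 136 [2, 3, 2, 2, 4]) (.con 136 [2, 3, 2, 2]) (.con 136 [2, 3, 2, 2, 4, 1]) .no
  .no

def c28t693 : Tr4 :=
  .br 696 (.br 577 .no (.br 707 .no (.use 691) (.con 136 [2, 2, 3, 2]) (.use 462) .no .no) (.red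
  [.f 577 3 1, .f 569 1 3] 89 136 [2, 2, 3, 2] [(88, 136, [2, 2, 2]), (89, 136, [2, 2, 3, 2])])
  .no (.red [.t 705 3 1, .f 577 5 1, .f 569 1 3, .f 697 3 1, .f 705 1 3] 104 136 [2, 2] [(88, 136,
  [2, 2, 2]), (104, 136, [2, 2])]) (.use 692)) (.hor [.f 568 1 5] []) (.use 470) (.use 624) .no
  .no

def c28t694 : Tr4 :=
  .br 1195 (.con 136 [4, 4, 1, 4, 2, 3, 1, 4, 2, 3, 1, 4, 2]) (.hor [.f 1066 1 5] []) (.con 136
  [4, 4, 1, 4, 2, 3, 1, 4, 2, 3, 1, 4, 2]) (.con 136 [4, 4, 1, 4, 2, 3, 1, 4, 2, 3, 1, 4, 2]) .no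
  .no

def c28t695 : Tr4 :=
  .br 944 .no (.br 705 .no (.use 509) (.br 697 .no (.br 698 .no (.hor [.f 569 1 5] []) .no (.br
  818 .no .no .no (.use 693) (.use 551) (.red [.t 953 4 2, .f 809 1 3] 119 136 [2, 4] [(118, 136,
  [2, 4, 4]), (119, 136, [2, 4])])) (.use 520) .no) .no (.use 574) (.red [.t 705 3 1, .t 841 2 4,
  .t 833 4 2] 104 136 [2, 2] [(104, 136, [2, 2])]) (.use 415)) (.red [.f 697 3 1, .f 705 1 5] 104
  136 [2, 2] [(104, 136, [2, 2])]) .no (.use 405)) .no (.br 816 .no (.br 817 .no (.hor [.f 688 1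
  5] []) .no .no (.red [.t 953 4 2, .f 809 1 3, .f 936 3 5] 119 136 [2, 4] [(118, 136, [2, 4, 4]),
  (119, 136, [2, 4])]) .no) (.br 1064 (.br 1195 (.con 136 [4, 4, 1, 4]) (.hor [.f 1066 1 5] [])
  (.con 136 [4, 4, 1, 4]) (.con 136 [4, 4, 1, 4]) .no .no) .no .no (.br 1057 (.br 818 .no (.br 810
  .no (.red [.f 682 1 3] 102 136 [2, 4, 4, 2] [(102, 136, [2, 4, 4, 2])]) .no (.red [.f 802 3 1,
  .f 809 1 5, .t 1073 4 2] 134 136 [4, 4] [(117, 118, [4]), (134, 136, [4, 4])]) (.br 939 (.con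
  136 [4, 4, 2]) .no (.br 1058 (.red [.f 1058 1 3, .f 930 3 1] 133 136 [4, 4, 4] [(133, 136, [4,
  4, 4]), (149, 136, [4, 4, 4, 1])]) .no .no (.br 1195 (.con 136 [4, 4, 1, 4, 4]) (.hor [.f 1066 1
  5] []) (.con 136 [4, 4, 1, 4, 4]) (.con 136 [4, 4, 1, 4, 4]) .no .no) (.use 694) .no) (.con 136
  [4, 4, 2]) .no .no) .no) .no (.br 1193 (.br 1192 (.hor [.f 1192 1 5] []) .no .no (.br 1195 (.con
  136 [4, 4, 1, 4, 1]) (.hor [.f 1066 1 5] []) (.con 136 [4, 4, 1, 4, 1]) (.br 1058 (.red [.f 1058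
  1 3, .f 930 3 1] 133 136 [4, 4, 4] [(133, 136, [4, 4, 4]), (149, 136, [4, 4, 1, 4])]) .no .no
  (.con 136 [4, 4, 1, 4, 4]) (.con 136 [4, 4, 1, 4, 2]) .no) .no .no) .no .no) .no .no .no .no
  (.red [.t 1072 1 4, .t 952 1 4, .f 945 1 5, .t 809 1 3, .f 818 1 3] 119 136 [2, 4] [(118, 136,
  [2, 4, 4]), (119, 136, [2, 4]), (135, 119, [1]), (150, 134, [1])])) (.con 136 [2, 4, 2]) (.red
  [.t 953 4 2, .f 809 1 3, .f 936 3 5] 119 136 [2, 4] [(118, 136, [2, 4, 4]), (119, 136, [2,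
  4])])) (.red [.t 1065 3 1, .t 929 1 3, .f 938 1 3] 134 136 [4, 4] [(133, 136, [4, 4, 4]), (134,
  136, [4, 4]), (150, 134, [1])]) .no (.br 939 (.con 136 [4, 4, 2]) (.con 136 [4, 4, 2]) (.br 1058
  (.red [.f 1058 1 3, .f 930 3 1] 133 136 [4, 4, 4] [(133, 136, [4, 4, 4]), (149, 136, [4, 4, 4,
  1])]) .no .no (.hor [.f 1049 3 5] []) (.use 694) .no) (.con 136 [4, 4, 2]) .no .no) (.red [.t
  1065 3 1, .f 1057 5 3, .f 930 3 1, .f 938 1 3] 134 136 [4, 4] [(133, 136, [4, 4, 4]), (134, 136,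
  [4, 4]), (150, 134, [1])]) .no) .no .no) (.red [.f 808 3 1, .f 808 1 5] 118 136 [2, 4, 4] [(118,
  136, [2, 4, 4])]) (.red [.t 936 3 2] 118 136 [2, 4, 4] [(118, 136, [2, 4, 4])]) .no) .no .no

def c28t696 : Tr4 :=
  .br 1072 (.br 1209 (.br 1073 (.use 605) .no .no (.br 1066 (.br 1201 (.red [.f 1201 1 3] 167 136
  [4, 1, 1] [(167, 136, [4, 1, 1])]) .no .no (.use 680) (.br 938 .no (.use 675) .no (.br 971 .no
  .no (.br 970 (.br 1097 (.use 690) .no (.use 648) .no .no .no) (.br 1097 (.use 690) .no (.br 1098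
  .no .no (.hor [.f 1097 3 5] []) .no .no .no) .no (.red [.t 961 3 1, .t 825 3 1, .f 954 3 5, .t
  842 1 4] 121 136 [2, 3] [(120, 104, [1]), (121, 136, [2, 3]), (137, 121, [1])]) .no) (.use 83)
  .no .no .no) .no .no (.br 840 .no (.br 841 .no (.use 505) (.use 523) .no (.br 937 .no (.use 695)
  .no (.hor [.f 929 3 5] []) .no (.br 944 .no (.br 705 .no (.use 509) (.br 697 .no (.br 698 .no
  (.hor [.f 569 1 5] []) .no (.br 818 .no .no .no (.use 693) (.use 551) (.red [.t 953 4 2, .f 690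
  3 1] 119 136 [2, 4] [(103, 136, [2, 2, 4]), (119, 136, [2, 4])])) (.use 520) .no) .no (.use 574)
  (.red [.t 705 3 1, .t 841 2 4, .t 833 4 2] 104 136 [2, 2] [(104, 136, [2, 2])]) (.use 415))
  (.red [.f 697 3 1, .f 705 1 5] 104 136 [2, 2] [(104, 136, [2, 2])]) .no (.use 405)) .no .no .no
  .no)) .no) (.red [.f 840 3 1] 122 136 [2, 3, 3] [(122, 136, [2, 3, 3])]) .no (.red [.t 960 2 3,
  .t 1080 2 3, .f 961 1 5] 121 136 [2, 3] [(121, 136, [2, 3]), (136, 136, [])]) .no)) (.use 676)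
  (.red [.t 1073 4 2] 134 136 [4, 4] [(134, 136, [4, 4])])) .no) (.red [.f 938 1 3] 134 136 [4, 4]
  [(134, 136, [4, 4])]) .no (.use 677) (.use 512) .no) .no .no) .no .no (.dom 151 136 [4, 1]) .no
  .no) (.con 136 [4, 4]) .no (.use 498) (.br 944 .no (.use 626) .no (.br 1066 (.use 678) (.red [.f
  938 1 3] 134 136 [4, 4] [(134, 136, [4, 4])]) .no (.br 938 .no (.use 535) .no (.red [.f 930 3 1,
  .f 938 1 3] 134 136 [4, 4] [(133, 136, [4, 4, 4]), (134, 136, [4, 4])]) (.con 136 [4, 4, 2])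
  (.br 1065 (.br 1200 (.use 596) .no .no (.red [.t 1192 3 2] 150 136 [4, 4, 1] [(150, 136, [4, 4,
  1])]) (.red [.f 1072 5 1, .f 1065 1 3] 150 136 [4, 4, 1] [(150, 136, [4, 4, 1])]) .no) .no .no
  (.hor [.f 1057 3 5] []) .no (.red [.f 1064 5 3, .t 1073 4 2] 134 136 [4, 4] [(134, 136, [4,
  4])]))) (.use 543) (.use 625)) .no .no) .no

def c28t697 : Tr4 :=
  .br 826 (.red [.t 954 2 3, .t 1074 2 3, .f 945 3 5, .t 1089 4 2, .f 826 3 1] 136 136 [] [(135,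
  119, [1]), (136, 136, [])]) (.con 136 [4, 2, 3, 1]) .no (.con 136 [4, 2, 3, 1]) (.con 136 [4, 2,
  3, 1]) (.con 136 [4, 2, 3, 1])

def c28t698 : Tr4 :=
  .br 1073 (.use 400) .no .no (.use 378) (.br 1201 (.br 1202 (.hor [.f 1201 1 5] []) .no .no (.use
  668) (.red [.t 1082 1 4, .t 962 1 4, .f 1081 3 5] 136 136 [] [(136, 136, []), (151, 136, [4,
  1])]) .no) .no .no (.use 364) (.use 492) (.use 669)) .no

def c28t699 : Tr4 :=
  .br 833 .no (.br 834 .no (.hor [.f 705 1 5] []) (.use 402) (.use 658) (.br 1209 (.use 683) .no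
  .no (.br 1073 .no .no .no (.use 385) (.red [.t 1209 4 2, .f 1074 3 5] 151 136 [4, 1] [(151, 136,
  [4, 1])]) (.br 946 (.use 697) (.use 367) (.hor [.f 945 3 5] []) (.use 489) (.use 490) .no)) .no
  (.br 946 (.use 697) (.use 367) (.hor [.f 945 3 5] []) (.br 826 (.br 825 .no (.br 1073 (.use 605)
  .no .no (.use 378) (.br 1201 (.br 1337 (.use 359) .no (.red [.f 1208 5 3, .f 1209 3 1, .f 1201 1
  3] 168 136 [1, 1] [(167, 136, [4, 1, 1]), (168, 136, [1, 1])]) .no (.br 1202 (.hor [.f 1201 1 5]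
  []) .no .no (.br 944 (.use 664) (.use 363) .no (.use 372) .no .no) (.red [.t 1082 1 4, .t 962 1
  4, .f 1081 3 5] 136 136 [] [(136, 136, []), (151, 136, [4, 1])]) .no) (.red [.f 1208 5 3, .f
  1208 3 5, .f 1208 5 1, .f 1201 1 3] 167 136 [4, 1, 1] [(167, 136, [4, 1, 1])])) .no .no (.use
  364) (.use 492) (.red [.f 1200 5 3, .t 1209 4 2] 151 136 [4, 1] [(151, 136, [4, 1])])) (.use
  479)) .no (.red [.f 817 3 1, .f 825 1 5] 119 136 [2, 4] [(119, 136, [2, 4])]) .no (.br 944 (.use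
  698) (.red [.t 944 2 3, .f 825 1 5] 119 136 [2, 4] [(119, 136, [2, 4])]) .no (.use 372) .no
  .no)) (.con 136 [4, 2, 3, 3]) .no (.con 136 [4, 2, 3, 3]) (.con 136 [4, 2, 3, 3]) (.con 136 [4,
  2, 3, 3])) (.br 826 (.use 673) (.con 136 [4, 2, 3, 3]) .no (.con 136 [4, 2, 3, 3]) (.con 136 [4,
  2, 3, 3]) (.con 136 [4, 2, 3, 3])) .no)) .no) (.red [.f 833 3 1, .f 832 1 5] 121 136 [2, 3]
  [(121, 136, [2, 3])]) (.br 834 .no (.br 835 .no (.hor [.f 706 1 5] []) (.br 1209 (.use 683) .no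
  .no (.use 686) .no (.br 946 (.red [.f 1208 5 3, .f 1081 3 1, .f 1081 1 5, .t 945 3 1, .f 1074 3
  5, .t 962 1 4] 136 136 [] [(135, 119, [1]), (136, 136, []), (152, 136, [1])]) (.use 367) (.hor
  [.f 945 3 5] []) (.br 826 (.br 944 (.use 698) (.use 679) .no (.use 372) .no .no) (.con 136 [4,
  2, 3, 2]) .no (.con 136 [4, 2, 3, 2]) (.con 136 [4, 2, 3, 2]) .no) (.use 687) .no)) (.con 136
  [2, 2]) .no .no) (.use 411) (.use 658) (.use 682) .no) (.use 653) .no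

def c28l24 : List Tr4 :=
  [c28t688, c28t689, c28t690, c28t691, c28t692, c28t693, c28t694, c28t695, c28t696, c28t697,
  c28t698, c28t699]

theorem c28k24 : chkLF ⟨4, 1, 0, true, -8⟩ false 8 c28N 688 c28l24 = true := by decide +kernel

def c28t700 : Tr4 :=
  .br 1217 (.br 1216 (.hor [.f 1216 1 5] []) .no (.con 136 [3, 1, 1]) (.br 833 .no (.br 834 .no
  (.hor [.f 705 1 5] []) (.use 402) (.use 658) (.br 954 .no (.br 946 (.red [.t 954 2 3, .t 1074 2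
  3, .f 945 3 5, .t 1089 4 2, .f 826 3 1] 136 136 [] [(135, 119, [1]), (136, 136, [])]) (.use 367)
  .no (.br 1209 (.br 825 .no (.br 1073 (.use 605) .no .no (.use 378) (.br 944 (.use 666) (.use
  403) .no (.use 372) .no .no) (.use 479)) .no (.red [.f 817 3 1, .f 825 1 5] 119 136 [2, 4]
  [(119, 136, [2, 4])]) .no (.br 944 (.use 689) (.red [.t 944 2 3, .f 825 1 5] 119 136 [2, 4]
  [(119, 136, [2, 4])]) .no (.use 372) .no .no)) .no .no (.use 587) .no .no) (.use 673) .no) .no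
  (.hor [.f 945 3 5] []) .no .no) .no) (.red [.f 833 3 1, .f 832 1 5] 121 136 [2, 3] [(121, 136,
  [2, 3])]) (.br 834 .no (.br 835 .no (.hor [.f 706 1 5] []) (.br 946 (.br 826 (.use 696) (.con
  136 [4, 2, 3, 2]) .no (.con 136 [4, 2, 3, 2]) (.con 136 [4, 2, 3, 2]) .no) (.use 367) (.hor [.f
  945 3 5] []) (.br 826 (.br 1209 (.br 944 (.use 689) (.use 679) .no (.use 372) .no .no) .no .no
  (.use 587) .no .no) (.con 136 [4, 2, 3, 2]) .no (.con 136 [4, 2, 3, 2]) (.con 136 [4, 2, 3, 2])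
  .no) (.use 687) .no) (.con 136 [2, 2]) .no .no) (.use 411) (.use 658) (.use 682) .no) (.use 653)
  .no) .no .no) .no (.hor [.f 1217 3 5] []) (.use 249) .no (.use 699)

def c28t701 : Tr4 :=
  .br 1088 (.br 1211 (.br 968 (.br 1209 (.use 593) .no (.use 431) (.use 475) .no (.use 478)) (.red
  [.f 832 1 3] 121 136 [2, 3] [(121, 136, [2, 3])]) (.br 1209 (.use 593) .no (.use 488) (.use 491)
  .no (.use 496)) .no .no .no) .no (.br 1217 (.use 41) .no (.br 968 (.br 1098 (.br 970 .no (.use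
  633) (.use 20) .no (.red [.t 1090 2 3, .t 1210 2 3, .f 1081 3 5, .t 1225 4 2, .f 962 3 1] 153
  136 [3, 1] [(152, 136, [1]), (153, 136, [3, 1])]) .no) (.con 136 [3, 3]) (.use 17) .no .no (.br
  970 .no (.br 1218 (.br 833 .no (.use 637) (.red [.f 833 3 1, .f 832 1 5] 121 136 [2, 3] [(121,
  136, [2, 3])]) (.use 638) (.red [.t 969 4 2, .f 832 1 5] 121 136 [2, 3] [(121, 136, [2, 3])])
  .no) .no (.hor [.f 1217 3 5] []) .no .no .no) (.use 20) .no (.red [.t 1090 2 3, .t 1210 2 3, .f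
  1081 3 5, .f 1089 5 3, .f 962 3 1, .f 1089 3 1] 153 136 [3, 1] [(152, 136, [1]), (153, 136, [3,
  1])]) .no)) (.red [.f 832 1 3] 121 136 [2, 3] [(121, 136, [2, 3])]) (.br 1097 .no .no (.br 1096
  (.red [.f 1088 1 3] 153 136 [3, 1] [(153, 136, [3, 1])]) .no (.hor [.f 1096 3 5] []) .no .no
  .no) .no (.br 970 .no (.br 833 .no (.br 1218 (.use 639) .no (.hor [.f 1217 3 5] []) .no .no .no)
  (.red [.f 833 3 1, .f 832 1 5] 121 136 [2, 3] [(121, 136, [2, 3])]) (.use 638) (.red [.t 969 4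
  2, .f 832 1 5] 121 136 [2, 3] [(121, 136, [2, 3])]) .no) (.use 83) .no (.red [.t 1090 2 3, .t
  1210 2 3, .f 1081 3 5, .f 1089 5 3, .f 962 3 1, .f 1089 3 1] 153 136 [3, 1] [(152, 136, [1]),
  (153, 136, [3, 1])]) .no) (.red [.t 1216 2 3] 153 136 [3, 1] [(153, 136, [3, 1])])) .no .no .no)
  (.con 136 [1, 1]) (.use 640) .no) (.red [.f 1075 3 1, .f 1082 1 5] 151 136 [4, 1] [(151, 136,
  [4, 1])]) .no .no) .no (.br 968 .no (.red [.f 832 1 3, .f 960 3 1, .f 952 1 3, .f 1080 3 5] 121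
  136 [2, 3] [(121, 136, [2, 3]), (136, 136, []), (137, 136, [3])]) (.br 1211 (.br 946 (.br 826
  (.use 657) (.con 136 [4, 2, 3, 3]) (.con 136 [4, 2, 3, 3]) (.con 136 [4, 2, 3, 3]) (.con 136 [4,
  2, 3, 3]) (.con 136 [4, 2, 3, 3])) (.use 367) (.hor [.f 945 3 5] []) (.use 588) (.use 590) .no)
  .no (.br 1218 (.use 688) .no (.use 700) .no .no (.use 640)) (.red [.f 1075 3 1, .f 1082 1 5] 151
  136 [4, 1] [(151, 136, [4, 1])]) .no .no) .no .no .no) .no .no .no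

def c28t702 : Tr4 :=
  .br 1211 (.con 136 [1, 4, 2, 3]) (.red [.f 1075 1 3, .f 1074 3 5, .t 962 1 4] 136 136 [] [(136,
  136, []), (151, 135, [1])]) (.con 136 [1, 4, 2, 3]) .no .no (.con 136 [1, 4, 2, 3])

def c28t703 : Tr4 :=
  .br 1098 (.hor [.f 1097 1 5] []) (.con 136 [3, 3, 1]) (.con 136 [3, 3, 1]) .no .no .no

def c28t704 : Tr4 :=
  .br 689 (.hor [.f 688 1 5] []) (.con 136 [2, 4, 2, 4]) (.con 136 [2, 4, 2, 4]) (.con 136 [2, 4,
  2, 4]) (.con 136 [2, 4, 2, 4]) .no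

def c28t705 : Tr4 :=
  .br 946 .no (.red [.f 818 1 3] 119 136 [2, 4] [(119, 136, [2, 4])]) .no (.br 825 .no (.br 1075
  (.use 702) (.br 824 .no (.hor [.f 696 1 5] []) .no (.br 818 .no (.br 696 .no (.br 819 .no (.con
  136 [2, 4, 2]) (.br 689 (.hor [.f 689 1 5] []) (.con 136 [2, 2, 4, 4]) .no (.con 136 [2, 2, 4,
  4]) .no (.con 136 [2, 2, 4, 4])) (.con 136 [2, 4, 2]) .no .no) .no (.red [.f 688 3 1, .f 696 1
  5] 103 136 [2, 2, 4] [(103, 136, [2, 2, 4])]) .no .no) .no (.red [.f 810 3 1, .f 818 1 3] 119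
  136 [2, 4] [(118, 136, [2, 4, 4]), (119, 136, [2, 4])]) (.con 136 [2, 4, 2]) (.red [.t 953 4 2]
  119 136 [2, 4] [(119, 136, [2, 4])])) .no .no) (.hor [.f 1074 3 5] []) (.br 824 .no (.hor [.f
  696 1 5] []) .no (.br 947 .no (.con 136 [2, 4, 2]) .no (.hor [.f 938 3 5] []) .no .no) .no .no)
  .no .no) .no (.red [.f 817 3 1, .f 825 1 5] 119 136 [2, 4] [(119, 136, [2, 4])]) .no (.br 944
  (.red [.f 944 1 3, .f 944 3 5, .f 824 5 1, .f 825 1 3, .f 953 3 1] 136 136 [] [(120, 136, [2]),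
  (135, 119, [1]), (136, 136, [])]) (.red [.t 944 2 3, .f 825 1 5] 119 136 [2, 4] [(119, 136, [2,
  4])]) .no (.br 1075 (.use 702) (.br 816 .no (.br 818 .no (.br 819 .no (.hor [.f 690 1 5] [])
  (.br 689 (.hor [.f 688 1 5] []) (.con 136 [2, 2, 4, 4]) (.con 136 [2, 2, 4, 4]) (.con 136 [2, 2,
  4, 4]) .no .no) (.con 136 [2, 4, 2, 4]) .no .no) .no (.red [.f 810 3 1, .f 818 1 3] 119 136 [2,
  4] [(118, 136, [2, 4, 4]), (119, 136, [2, 4])]) (.use 704) (.red [.t 953 4 2] 119 136 [2, 4]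
  [(119, 136, [2, 4])])) .no (.red [.f 808 3 1, .t 944 2 3, .f 825 1 5] 119 136 [2, 4] [(118, 136,
  [2, 4, 4]), (119, 136, [2, 4])]) (.red [.f 816 5 3, .f 817 3 1, .f 825 1 3] 119 136 [2, 4]
  [(119, 136, [2, 4]), (120, 136, [2])]) .no) (.hor [.f 1074 3 5] []) (.br 947 .no (.con 136 [2,
  4, 4]) .no (.hor [.f 938 3 5] []) .no .no) .no .no) .no .no)) (.br 825 .no (.br 827 .no (.br 824
  .no (.hor [.f 696 1 5] []) .no (.con 136 [2, 2, 4]) .no .no) (.use 601) (.red [.t 826 1 4, .f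
  945 3 5] 119 136 [2, 4] [(119, 136, [2, 4])]) .no .no) .no (.red [.f 817 3 1, .f 825 1 5] 119
  136 [2, 4] [(119, 136, [2, 4])]) .no (.br 944 (.red [.f 944 1 3, .f 944 3 5, .f 824 5 1, .f 825
  1 3, .f 953 3 1] 136 136 [] [(120, 136, [2]), (135, 119, [1]), (136, 136, [])]) (.red [.t 944 2
  3, .f 825 1 5] 119 136 [2, 4] [(119, 136, [2, 4])]) .no (.br 816 .no (.br 827 .no (.br 819 .no
  (.red [.f 691 1 3] 103 136 [2, 2, 4] [(103, 136, [2, 2, 4])]) .no (.use 375) .no (.use 704))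
  (.red [.f 827 3 1, .f 826 1 5, .f 946 5 3, .f 945 3 5, .t 1089 4 2, .t 962 4 2] 136 136 []
  [(136, 136, [])]) (.red [.t 826 1 4, .f 945 3 5] 119 136 [2, 4] [(119, 136, [2, 4])]) .no .no)
  .no (.red [.f 808 3 1, .t 944 2 3, .f 825 1 5] 119 136 [2, 4] [(118, 136, [2, 4, 4]), (119, 136,
  [2, 4])]) (.red [.f 816 5 3, .f 817 3 1, .f 825 1 3] 119 136 [2, 4] [(119, 136, [2, 4]), (120,
  136, [2])]) .no) .no .no)) .no

def c28t706 : Tr4 :=
  .br 688 .no (.red [.f 560 1 3] 87 136 [4, 2, 2, 2] [(87, 136, [4, 2, 2, 2])]) .no (.con 136 [4,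
  2, 2, 4, 4]) (.br 690 .no (.red [.f 562 1 3] 87 136 [4, 2, 2, 2] [(87, 136, [4, 2, 2, 2])]) .no
  (.con 136 [4, 2, 2, 4, 2]) (.red [.f 690 5 1, .f 691 1 3] 103 136 [4, 2, 2] [(103, 136, [4, 2,
  2])]) .no) .no

def c28t707 : Tr4 :=
  .br 690 .no (.hor [.f 561 1 5] []) .no (.con 136 [2, 4, 2, 4, 2]) (.red [.f 690 5 1, .f 691 1 3]
  103 136 [2, 4, 2] [(103, 136, [2, 4, 2])]) .no

def c28t708 : Tr4 :=
  .br 1353 (.br 1354 (.hor [.f 1353 1 5] []) .no (.con 136 [1, 3, 3, 1, 1]) .no (.con 136 [1, 3,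
  3, 1, 1]) .no) .no (.hor [.f 1352 3 5] []) .no (.br 1355 (.con 136 [1, 3, 3, 1, 1]) .no (.red
  [.f 1227 3 1, .f 1219 1 3] 170 136 [1, 3, 3, 1] [(169, 136, [1, 3, 1]), (170, 136, [1, 3, 3,
  1])]) .no .no .no) .no

def c28t709 : Tr4 :=
  .br 1353 (.br 1355 (.con 136 [1, 3, 3, 1, 1]) .no (.red [.f 1227 3 1, .f 1219 1 3, .f 1346 3 5]
  170 136 [1, 3, 3, 1] [(169, 136, [1, 3, 1]), (170, 136, [1, 3, 3, 1])]) .no .no .no) .no (.hor
  [.f 1352 3 5] []) .no .no .no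

def c28t710 : Tr4 :=
  .br 1224 (.br 1227 (.red [.f 1219 1 3] 169 136 [3, 1, 1] [(169, 136, [3, 1, 1])]) .no (.br 1225
  (.red [.f 1217 1 3] 169 136 [3, 1, 1] [(169, 136, [3, 1, 1])]) .no (.con 136 [3, 3, 1, 1]) .no
  .no .no) .no .no .no) .no (.red [.f 1096 3 1, .f 1088 1 3, .f 960 3 1, .f 968 1 5] 153 136 [3,
  1] [(137, 136, [3]), (153, 136, [3, 1]), (154, 136, [3, 3, 1])]) .no (.br 1227 (.red [.f 1219 1
  3] 169 136 [3, 1, 1] [(169, 136, [3, 1, 1])]) .no (.br 1337 (.br 1338 (.hor [.f 1337 1 5] [])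
  .no (.red [.f 1210 3 1, .f 1218 1 5, .t 1098 1 4, .f 1083 1 3] 153 136 [3, 1] [(152, 136, [1]),
  (153, 136, [3, 1]), (168, 169, [4])]) (.br 1344 (.br 1352 (.red [.f 1344 1 3, .t 1344 3 2] 169
  136 [3, 1, 1] [(169, 136, [3, 1, 1]), (185, 136, [3, 1, 1, 1])]) .no (.br 1346 (.use 708) .no
  (.use 709) .no .no .no) .no (.red [.f 1224 5 1, .f 1217 1 3] 169 136 [3, 1, 1] [(169, 136, [3,
  1, 1])]) .no) .no (.red [.t 1344 3 2] 169 136 [3, 1, 1] [(169, 136, [3, 1, 1])]) .no .no .no)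
  (.red [.t 1218 4 1, .t 1098 1 4, .f 1083 1 3] 153 136 [3, 1] [(152, 136, [1]), (153, 136, [3,
  1]), (168, 169, [4])]) .no) .no .no (.hor [.f 1201 3 1, .f 1208 1 5] [(167, 169, [4, 4])]) (.br
  1344 (.br 1352 (.red [.f 1344 1 3, .t 1344 3 2] 169 136 [3, 1, 1] [(169, 136, [3, 1, 1]), (185,
  136, [3, 1, 1, 1])]) .no (.br 1346 (.use 708) .no (.use 709) .no .no .no) .no (.red [.f 1224 5
  1, .f 1217 1 3] 169 136 [3, 1, 1] [(169, 136, [3, 1, 1])]) .no) .no (.red [.t 1344 3 2] 169 136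
  [3, 1, 1] [(169, 136, [3, 1, 1])]) .no .no .no) .no) .no .no .no) .no

def c28t711 : Tr4 :=
  .br 817 .no (.hor [.f 689 1 5] []) .no (.con 136 [2, 4, 2, 4]) .no .no

def c28t712 : Tr4 :=
  .br 819 .no (.hor [.f 690 1 5] []) (.dom 119 136 [2, 4]) (.use 711) .no .no

def c28t713 : Tr4 :=
  .br 817 .no (.hor [.f 688 1 5] []) .no (.con 136 [2, 4, 4, 2]) .no .no

def c28t714 : Tr4 :=
  .br 810 .no (.red [.f 682 1 3, .f 681 3 5] 102 136 [2, 4, 4, 2] [(102, 136, [2, 4, 4, 2])]) .no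
  (.br 809 .no .no .no (.hor [.f 801 3 5] []) .no (.red [.f 808 5 3, .f 808 3 1] 118 136 [2, 4, 4]
  [(118, 136, [2, 4, 4])])) .no (.red [.t 689 4 1] 102 136 [2, 4, 4, 2] [(102, 136, [2, 4, 4,
  2])])

def c28t715 : Tr4 :=
  .br 681 .no (.red [.f 553 1 3] 86 136 [2, 4, 2, 2, 4] [(86, 136, [2, 4, 2, 2, 4])]) .no (.br 682
  .no (.con 136 [2, 4, 4, 2, 4, 2]) .no (.hor [.f 673 3 5] []) (.con 136 [2, 4, 4, 2, 2]) .no)
  (.red [.f 681 5 1, .f 682 1 3] 102 136 [2, 4, 4, 2] [(102, 136, [2, 4, 4, 2])]) .no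

def c28t716 : Tr4 :=
  .br 688 .no (.br 689 .no (.hor [.f 560 1 5] []) .no (.use 714) .no .no) .no (.br 689 .no (.br
  810 .no (.red [.f 682 1 3] 102 136 [2, 2, 4, 4] [(102, 136, [2, 2, 4, 4])]) .no (.br 809 .no
  (.con 136 [2, 2, 4, 4, 4]) .no (.hor [.f 801 3 5] []) .no (.red [.f 808 5 3, .f 808 3 1] 118 136
  [2, 4, 4] [(118, 136, [2, 4, 4])])) .no (.use 715)) .no (.use 714) .no .no) (.red [.f 688 5 1,
  .f 689 1 5, .t 953 4 2, .f 818 3 5] 119 136 [2, 4] [(119, 136, [2, 4])]) .no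

def c28t717 : Tr4 :=
  .br 689 .no (.br 688 .no (.hor [.f 560 1 5] []) .no (.br 810 .no (.hor [.f 681 1 5] []) .no
  (.con 136 [2, 2, 4, 4, 4]) (.con 136 [2, 2, 4, 4, 4]) .no) .no .no) .no .no .no (.red [.f 688 5
  1, .f 689 1 5, .t 953 4 2, .f 818 3 5] 119 136 [2, 4] [(119, 136, [2, 4])])

def c28t718 : Tr4 :=
  .br 689 .no (.br 688 .no (.hor [.f 560 1 5] []) .no (.use 715) .no .no) .no (.red [.t 689 4 1]
  102 136 [2, 2, 4, 4] [(102, 136, [2, 2, 4, 4])]) .no (.red [.f 688 5 1, .f 689 1 5, .t 953 4 2,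
  .f 818 3 5] 119 136 [2, 4] [(119, 136, [2, 4])])

def c28t719 : Tr4 :=
  .br 944 .no (.use 712) .no (.br 816 .no (.use 713) .no (.red [.f 808 3 1] 118 136 [2, 4, 4]
  [(118, 136, [2, 4, 4])]) (.br 696 .no (.br 937 .no (.red [.t 936 3 2] 118 136 [2, 4, 4] [(118,
  136, [2, 4, 4])]) .no (.br 819 .no (.hor [.f 690 1 5] []) (.br 939 (.red [.f 939 1 3, .f 938 3
  5, .t 826 1 4] 119 136 [2, 4] [(119, 136, [2, 4]), (134, 118, [1])]) (.use 716) .no (.br 809 .no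
  (.use 717) .no (.red [.f 801 3 1] 117 136 [2, 4, 4, 4] [(117, 136, [2, 4, 4, 4])]) (.use 718)
  (.red [.f 808 5 3, .f 808 3 1] 118 136 [2, 4, 4] [(118, 136, [2, 4, 4])])) .no .no) (.con 136
  [2, 4, 2, 4]) .no .no) .no .no) (.red [.f 696 3 1, .f 696 1 5, .f 816 5 3, .f 817 3 1, .f 825 1
  3, .t 832 2 4] 119 136 [2, 4] [(119, 136, [2, 4]), (120, 136, [2])]) (.red [.t 696 4 1, .f 817 3
  1, .f 825 1 5] 119 136 [2, 4] [(103, 136, [2, 2, 4]), (119, 136, [2, 4])]) .no .no) .no) .no .no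

def c28t720 : Tr4 :=
  .br 1338 (.br 818 .no (.use 719) .no (.red [.f 810 3 1, .f 818 1 3] 119 136 [2, 4] [(118, 136,
  [2, 4, 4]), (119, 136, [2, 4])]) (.br 939 (.red [.f 939 1 3, .f 938 3 5, .f 818 5 1, .f 818 1 3]
  119 136 [2, 4] [(119, 136, [2, 4]), (134, 118, [1])]) (.red [.t 938 3 2, .f 818 1 3] 119 136 [2,
  4] [(118, 136, [2, 4, 4]), (119, 136, [2, 4])]) .no (.br 1067 (.br 1339 (.hor [.f 1338 1 5] [])
  .no .no (.con 136 [4, 1, 1, 4, 2, 2, 3, 2]) .no .no) .no .no (.hor [.f 931 3 1, .f 939 1 3, .f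
  938 3 5] [(133, 119, [1, 4, 4]), (134, 119, [1, 4])]) .no (.red [.t 946 4 1, .f 818 5 1, .f 818
  1 3] 119 136 [2, 4] [(119, 136, [2, 4]), (134, 118, [1])])) .no .no) (.red [.t 953 4 2] 119 136
  [2, 4] [(119, 136, [2, 4])])) .no (.hor [.f 1210 3 1, .f 1202 1 3, .f 1201 3 5] [(167, 135, [1,
  1]), (168, 136, [1, 1])]) .no (.hor [.t 1218 4 1, .f 1202 1 3, .f 1201 3 5] [(167, 135, [1, 1]),
  (168, 136, [1, 1])]) (.hor [.t 1201 3 1, .f 1208 1 5] [(167, 135, [1, 1])])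

def c28t721 : Tr4 :=
  .br 681 .no (.hor [.f 553 1 5] []) .no (.con 136 [2, 4, 2, 4, 2, 4]) .no .no

def c28t722 : Tr4 :=
  .br 682 .no (.br 808 .no (.use 721) .no (.con 136 [2, 4, 2, 4, 4]) .no .no) .no (.red [.f 674 3
  1, .f 682 1 5] 101 136 [2, 4, 2, 4, 4] [(101, 136, [2, 4, 2, 4, 4])]) .no (.red [.f 681 5 3, .f
  681 3 1, .f 689 1 3] 103 136 [2, 4, 2] [(102, 136, [2, 4, 2, 4]), (103, 136, [2, 4, 2])])

def c28l25 : List Tr4 :=
  [c28t700, c28t701, c28t702, c28t703, c28t704, c28t705, c28t706, c28t707, c28t708, c28t709,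
  c28t710, c28t711, c28t712, c28t713, c28t714, c28t715, c28t716, c28t717, c28t718, c28t719,
  c28t720, c28t721, c28t722]

theorem c28k25 : chkLF ⟨4, 1, 0, true, -8⟩ false 8 c28N 700 c28l25 = true := by decide +kernel

def c28t723 : Tr4 :=
  .br 817 .no (.red [.f 689 1 3] 103 136 [2, 2, 4] [(103, 136, [2, 2, 4])]) .no (.br 811 .no (.br
  810 .no (.hor [.f 682 1 5] []) .no (.br 696 .no (.use 706) .no (.br 689 .no (.use 707) .no (.red
  [.f 681 3 1, .f 689 1 3] 103 136 [2, 2, 4] [(102, 136, [2, 2, 4, 4]), (103, 136, [2, 2, 4])])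
  (.use 722) .no) .no .no) .no .no) .no (.red [.f 803 3 1, .t 938 3 2, .f 818 1 3] 119 136 [2, 4]
  [(117, 136, [2, 4, 4, 4]), (118, 136, [2, 4, 4]), (119, 136, [2, 4])]) .no (.red [.f 810 5 3, .f
  809 3 5, .t 953 4 2] 119 136 [2, 4] [(119, 136, [2, 4])])) .no .no

def c28t724 : Tr4 :=
  .br 937 .no .no .no (.hor [.f 928 3 5] []) .no .no

def c28t725 : Tr4 :=
  .br 810 .no (.hor [.f 682 1 5] []) .no (.br 936 .no (.con 136 [4, 2, 2, 4, 4]) .no (.use 724)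
  (.br 696 .no (.use 706) .no (.red [.t 816 1 4, .t 696 4 1] 103 136 [4, 2, 2] [(103, 136, [4, 2,
  2]), (118, 102, [1])]) .no .no) .no) .no .no

def c28t726 : Tr4 :=
  .br 1064 (.hor [.f 1064 1 3, .f 1064 3 5] [(150, 118, [1, 1])]) (.br 699 (.br 698 .no (.use 723)
  .no (.red [.t 698 4 1] 103 136 [2, 2, 4] [(103, 136, [2, 2, 4])]) .no .no) (.con 136 [2, 4, 2,
  3, 1, 4]) (.con 136 [2, 4, 2, 3, 1, 4]) (.con 136 [2, 4, 2, 3, 1, 4]) .no (.con 136 [2, 4, 2, 3,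
  1, 4])) .no (.br 817 .no (.red [.f 689 1 3] 103 136 [2, 4, 2] [(103, 136, [2, 4, 2])]) .no (.br
  811 .no (.br 699 (.br 698 .no (.use 725) .no (.red [.t 698 4 1] 103 136 [2, 2, 4] [(103, 136,
  [2, 2, 4])]) .no .no) (.con 136 [2, 4, 2, 3, 1, 4]) (.con 136 [2, 4, 2, 3, 1, 4]) (.con 136 [2,
  4, 2, 3, 1, 4]) .no (.con 136 [2, 4, 2, 3, 1, 4])) .no (.red [.f 803 3 1, .t 938 3 2, .f 818 1
  3] 119 136 [2, 4] [(117, 136, [2, 4, 4, 4]), (118, 136, [2, 4, 4]), (119, 136, [2, 4])]) .no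
  (.red [.f 810 5 3, .f 809 3 5, .t 953 4 2] 119 136 [2, 4] [(119, 136, [2, 4])])) .no .no) .no
  .no

def c28t727 : Tr4 :=
  .br 817 .no (.hor [.f 688 1 5] []) .no (.con 136 [2, 4, 2, 4]) .no .no

def c28t728 : Tr4 :=
  .br 816 .no (.use 727) .no (.red [.f 808 3 1] 118 136 [2, 4, 4] [(118, 136, [2, 4, 4])]) (.br
  696 .no (.br 688 .no (.red [.f 560 1 3, .t 696 4 1] 103 136 [2, 4, 2] [(87, 136, [2, 4, 2, 2]),
  (103, 136, [2, 4, 2])]) .no (.br 699 (.br 698 .no (.br 811 .no (.br 690 .no (.red [.f 562 1 3]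
  87 136 [2, 2, 2, 4] [(87, 136, [2, 2, 2, 4])]) .no (.con 136 [2, 2, 4, 4, 2]) (.red [.f 690 5 1,
  .f 691 1 3] 103 136 [2, 2, 4] [(103, 136, [2, 2, 4])]) (.con 136 [2, 2, 4, 4, 2])) .no (.red [.f
  803 3 1, .t 938 3 2, .f 818 1 3] 119 136 [2, 4] [(117, 136, [2, 4, 4, 4]), (118, 136, [2, 4,
  4]), (119, 136, [2, 4])]) .no (.red [.f 810 5 3, .f 810 3 1] 118 136 [2, 4, 4] [(118, 136, [2,
  4, 4])])) .no (.red [.t 698 4 1] 103 136 [2, 2, 4] [(103, 136, [2, 2, 4])]) .no .no) (.con 136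
  [2, 4, 2, 3, 1, 4]) (.con 136 [2, 4, 2, 3, 1, 4]) (.con 136 [2, 4, 2, 3, 1, 4]) .no (.con 136
  [2, 4, 2, 3, 1, 4])) (.red [.f 688 5 1, .f 689 1 3] 103 136 [2, 4, 2] [(103, 136, [2, 4, 2])])
  .no) (.red [.f 696 3 1, .f 696 1 5, .f 816 5 3, .f 817 3 1, .f 825 1 3, .t 832 2 4] 119 136 [2,
  4] [(119, 136, [2, 4]), (120, 136, [2])]) (.red [.t 696 4 1] 103 136 [2, 4, 2] [(103, 136, [2,
  4, 2])]) .no .no) .no

def c28t729 : Tr4 :=
  .br 810 .no (.hor [.f 682 1 5] []) .no (.use 722) .no .no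

def c28t730 : Tr4 :=
  .br 811 .no (.br 689 .no (.use 707) .no (.red [.f 681 3 1, .f 689 1 3] 103 136 [2, 2, 4] [(102,
  136, [2, 2, 4, 4]), (103, 136, [2, 2, 4])]) (.use 729) .no) .no (.red [.f 803 3 1, .t 938 3 2,
  .f 818 1 3] 119 136 [2, 4] [(117, 136, [2, 4, 4, 4]), (118, 136, [2, 4, 4]), (119, 136, [2,
  4])]) .no (.red [.f 810 5 3, .f 809 3 5, .t 953 4 2] 119 136 [2, 4] [(119, 136, [2, 4])])

def c28t731 : Tr4 :=
  .br 936 (.br 699 (.br 698 .no (.use 730) .no (.red [.t 698 4 1] 103 136 [2, 2, 4] [(103, 136,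
  [2, 2, 4])]) .no .no) (.con 136 [2, 4, 2, 3, 1, 4]) (.con 136 [2, 4, 2, 3, 1, 4]) (.con 136 [2,
  4, 2, 3, 1, 4]) .no (.con 136 [2, 4, 2, 3, 1, 4])) (.red [.f 808 1 3, .f 808 3 5, .t 696 4 1]
  103 136 [2, 4, 2] [(103, 136, [2, 4, 2]), (118, 102, [1])]) .no (.use 724) (.red [.t 816 1 4, .t
  696 4 1] 103 136 [2, 4, 2] [(103, 136, [2, 4, 2]), (118, 102, [1])]) .no

def c28t732 : Tr4 :=
  .br 696 .no (.hor [.f 568 1 3, .f 696 3 1, .f 696 1 5] [(88, 119, [3, 2, 2]), (104, 119, [3,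
  2])]) .no (.br 817 .no (.red [.f 689 1 3, .f 688 3 5] 103 136 [2, 4, 2] [(103, 136, [2, 4, 2])])
  .no (.use 731) .no .no) .no .no

def c28t733 : Tr4 :=
  .br 939 (.red [.f 939 1 3, .f 938 3 5, .f 818 5 1, .f 818 1 3] 119 136 [2, 4] [(119, 136, [2,
  4]), (134, 118, [1])]) (.red [.t 938 3 2, .f 818 1 3] 119 136 [2, 4] [(118, 136, [2, 4, 4]),
  (119, 136, [2, 4])]) .no (.br 944 .no (.br 1066 .no .no .no (.br 705 .no (.br 704 .no (.hor [.f
  576 1 5] []) (.use 726) (.red [.f 696 3 1, .f 696 1 5, .t 944 2 3, .f 825 1 3, .t 832 2 4] 119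
  136 [2, 4] [(119, 136, [2, 4]), (120, 136, [2])]) .no .no) (.br 704 .no (.use 732) (.use 726)
  (.red [.f 696 3 1, .f 696 1 5, .t 944 2 3, .f 825 1 3, .t 832 2 4] 119 136 [2, 4] [(119, 136,
  [2, 4]), (120, 136, [2])]) .no .no) .no .no (.red [.t 824 3 2, .t 944 2 3, .f 825 1 5, .t 705 4
  1] 119 136 [2, 4] [(119, 136, [2, 4])])) (.red [.t 946 4 1, .f 818 5 1, .f 818 1 3] 119 136 [2,
  4] [(119, 136, [2, 4]), (134, 118, [1])]) .no) .no (.use 728) .no .no) .no .no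

def c28t734 : Tr4 :=
  .br 835 .no (.hor [.f 706 1 5] []) (.br 818 .no (.use 719) .no (.red [.f 810 3 1, .f 818 1 3]
  119 136 [2, 4] [(118, 136, [2, 4, 4]), (119, 136, [2, 4])]) (.br 1202 (.use 720) .no .no (.use
  733) (.red [.t 1082 4 1, .t 962 1 4, .f 947 1 3] 136 136 [] [(135, 136, [4]), (136, 136, []),
  (151, 135, [1])]) .no) (.red [.t 953 4 2] 119 136 [2, 4] [(119, 136, [2, 4])])) (.red [.f 827 3
  1, .f 826 1 5, .t 1074 3 2, .f 954 1 3, .t 962 4 2] 136 136 [] [(135, 136, [4]), (136, 136,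
  [])]) .no .no

def c28t735 : Tr4 :=
  .br 690 .no (.hor [.f 561 1 5] []) .no (.con 136 [2, 2, 4, 4, 2]) (.red [.f 690 5 1, .f 691 1 3]
  103 136 [2, 2, 4] [(103, 136, [2, 2, 4])]) .no

def c28t736 : Tr4 :=
  .br 570 .no (.br 696 .no (.br 569 .no (.hor [.f 441 1 5] []) .no (.red [.t 568 1 4, .f 561 1 5]
  87 136 [2, 2, 2, 4] [(87, 136, [2, 2, 2, 4])]) .no .no) .no .no .no .no) (.hor [.f 570 3 1, .f
  577 1 5] [(88, 136, [2, 2, 2])]) .no (.red [.t 698 3 1, .f 570 5 1, .f 562 1 3] 87 136 [2, 2, 4,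
  2] [(87, 136, [2, 2, 4, 2]), (104, 103, [3])]) (.red [.t 705 2 4, .f 562 1 3] 87 136 [2, 2, 4,
  2] [(87, 136, [2, 2, 4, 2]), (88, 136, [2, 2, 2])])

def c28t737 : Tr4 :=
  .br 690 .no (.use 736) .no (.con 136 [2, 2, 4, 4, 2]) (.red [.f 690 5 1, .f 691 1 3] 103 136 [2,
  2, 4] [(103, 136, [2, 2, 4])]) .no

def c28t738 : Tr4 :=
  .br 811 .no (.br 810 .no (.hor [.f 682 1 5] []) .no (.con 136 [2, 4, 2, 4, 4]) .no .no) .no
  (.red [.f 803 3 1, .t 938 3 2, .f 818 1 3] 119 136 [2, 4] [(117, 136, [2, 4, 4, 4]), (118, 136,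
  [2, 4, 4]), (119, 136, [2, 4])]) .no (.red [.f 808 1 3, .f 808 3 5, .f 810 5 3, .f 808 5 3, .f
  809 3 5, .t 953 4 2] 119 136 [2, 4] [(118, 102, [1]), (119, 136, [2, 4])])

def c28t739 : Tr4 :=
  .br 688 .no (.red [.f 560 1 3] 87 136 [2, 4, 2, 2] [(87, 136, [2, 4, 2, 2])]) .no (.con 136 [2,
  4, 2, 4, 2]) .no .no

def c28t740 : Tr4 :=
  .br 696 .no (.hor [.f 568 1 3, .f 696 3 1, .f 696 1 5] [(88, 87, [3]), (104, 103, [3])]) .no
  (.br 817 .no (.red [.f 689 1 3, .f 688 3 5] 103 136 [2, 2, 4] [(103, 136, [2, 2, 4])]) .no (.use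
  730) .no .no) .no .no

def c28t741 : Tr4 :=
  .br 817 .no (.red [.f 689 1 3] 103 136 [2, 2, 4] [(103, 136, [2, 2, 4])]) .no (.br 811 .no (.use
  725) .no (.red [.f 803 3 1, .t 938 3 2, .f 818 1 3] 119 136 [2, 4] [(117, 136, [2, 4, 4, 4]),
  (118, 136, [2, 4, 4]), (119, 136, [2, 4])]) .no (.red [.f 810 5 3, .f 809 3 5, .t 953 4 2] 119
  136 [2, 4] [(119, 136, [2, 4])])) .no .no

def c28t742 : Tr4 :=
  .br 936 .no (.use 738) .no (.use 724) (.red [.t 816 1 4, .t 696 4 1] 103 136 [2, 4, 2] [(103,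
  136, [2, 4, 2]), (118, 102, [1])]) .no

def c28t743 : Tr4 :=
  .br 817 .no (.red [.f 689 1 3, .f 688 3 5] 103 136 [2, 4, 2] [(103, 136, [2, 4, 2])]) .no (.use
  742) .no .no

def c28t744 : Tr4 :=
  .br 1064 (.hor [.f 1064 1 3, .f 1064 3 5] [(150, 118, [1, 1])]) (.br 699 (.br 698 .no (.br 704
  .no (.use 740) (.use 723) (.red [.f 696 3 1, .f 696 1 5, .t 944 2 3, .f 825 1 3, .t 832 2 4] 119
  136 [2, 4] [(119, 136, [2, 4]), (120, 136, [2])]) .no .no) .no (.red [.t 698 4 1] 103 136 [2, 2,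
  4] [(103, 136, [2, 2, 4])]) .no .no) (.con 136 [2, 4, 2, 3, 1, 4]) (.con 136 [2, 4, 2, 3, 1, 4])
  (.con 136 [2, 4, 2, 3, 1, 4]) .no (.con 136 [2, 4, 2, 3, 1, 4])) .no (.br 696 .no (.br 704 .no
  (.hor [.f 568 1 3, .f 696 3 1, .f 696 1 5] [(88, 119, [3, 2, 2]), (104, 119, [3, 2])]) (.br 699
  (.br 698 .no (.use 741) .no (.red [.t 698 4 1] 103 136 [2, 2, 4] [(103, 136, [2, 2, 4])]) .no
  .no) (.con 136 [2, 4, 2, 3, 1, 4]) (.con 136 [2, 4, 2, 3, 1, 4]) (.con 136 [2, 4, 2, 3, 1, 4])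
  .no (.con 136 [2, 4, 2, 3, 1, 4])) .no .no .no) (.red [.f 696 3 1, .f 696 1 5, .t 944 2 3, .f
  825 1 3, .t 832 2 4] 119 136 [2, 4] [(119, 136, [2, 4]), (120, 136, [2])]) (.use 743) .no .no)
  .no .no

def c28t745 : Tr4 :=
  .br 705 .no (.br 704 .no (.hor [.f 576 1 5] []) (.br 1064 (.hor [.f 1064 1 3, .f 1064 3 5]
  [(150, 118, [1, 1])]) (.br 699 (.br 698 .no (.use 723) (.br 817 .no (.red [.f 689 1 3] 103 136
  [2, 2, 4] [(103, 136, [2, 2, 4])]) .no (.br 811 .no (.br 689 .no (.use 735) .no (.red [.f 681 3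
  1, .f 689 1 3] 103 136 [2, 2, 4] [(102, 136, [2, 2, 4, 4]), (103, 136, [2, 2, 4])]) (.use 729)
  (.use 737)) .no (.red [.f 803 3 1, .t 938 3 2, .f 818 1 3] 119 136 [2, 4] [(117, 136, [2, 4, 4,
  4]), (118, 136, [2, 4, 4]), (119, 136, [2, 4])]) .no (.red [.f 810 5 3, .f 809 3 5, .t 953 4 2]
  119 136 [2, 4] [(119, 136, [2, 4])])) .no .no) (.red [.t 698 4 1] 103 136 [2, 2, 4] [(103, 136,
  [2, 2, 4])]) .no .no) (.con 136 [2, 4, 2, 3, 1, 4]) (.con 136 [2, 4, 2, 3, 1, 4]) (.con 136 [2,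
  4, 2, 3, 1, 4]) .no (.con 136 [2, 4, 2, 3, 1, 4])) .no (.br 699 (.br 817 .no (.red [.f 689 1 3]
  103 136 [2, 2, 4] [(103, 136, [2, 2, 4])]) .no (.br 936 .no (.use 738) .no (.use 724) (.br 696
  .no (.br 811 .no (.br 698 .no (.use 725) (.br 689 .no (.use 735) .no (.red [.f 681 3 1, .f 689 1
  3] 103 136 [2, 2, 4] [(102, 136, [2, 2, 4, 4]), (103, 136, [2, 2, 4])]) (.use 739) (.use 737))
  (.red [.t 698 4 1] 103 136 [2, 2, 4] [(103, 136, [2, 2, 4])]) .no .no) .no (.red [.f 803 3 1, .t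
  938 3 2, .f 818 1 3] 119 136 [2, 4] [(117, 136, [2, 4, 4, 4]), (118, 136, [2, 4, 4]), (119, 136,
  [2, 4])]) .no (.red [.f 810 5 3, .f 809 3 5, .t 953 4 2] 119 136 [2, 4] [(119, 136, [2, 4])]))
  .no (.red [.t 816 1 4, .t 696 4 1] 103 136 [2, 2, 4] [(103, 136, [2, 2, 4]), (118, 102, [1])])
  .no .no) .no) .no .no) (.con 136 [2, 4, 2, 3, 1, 4]) (.con 136 [2, 4, 2, 3, 1, 4]) (.con 136 [2,
  4, 2, 3, 1, 4]) .no (.con 136 [2, 4, 2, 3, 1, 4])) .no .no) (.red [.f 696 3 1, .f 696 1 5, .t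
  944 2 3, .f 825 1 3, .t 832 2 4] 119 136 [2, 4] [(119, 136, [2, 4]), (120, 136, [2])]) .no .no)
  .no .no (.use 744) (.red [.t 824 3 2, .t 944 2 3, .f 825 1 5] 119 136 [2, 4] [(104, 119, [3,
  2]), (119, 136, [2, 4])])

def c28t746 : Tr4 :=
  .br 688 .no (.red [.f 560 1 3, .t 696 4 1] 103 136 [2, 4, 2] [(87, 136, [2, 4, 2, 2]), (103,
  136, [2, 4, 2])]) .no (.br 811 .no (.br 809 .no (.con 136 [2, 4, 2, 4, 2]) .no (.red [.f 801 3
  1] 117 136 [2, 4, 4, 4] [(117, 136, [2, 4, 4, 4])]) (.con 136 [2, 4, 2, 4, 4]) (.red [.f 808 5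
  3, .f 808 3 1] 118 136 [2, 4, 4] [(118, 136, [2, 4, 4])])) .no (.red [.f 803 3 1, .t 938 3 2, .f
  818 1 3] 119 136 [2, 4] [(117, 136, [2, 4, 4, 4]), (118, 136, [2, 4, 4]), (119, 136, [2, 4])])
  .no (.red [.f 810 5 3, .f 810 3 1] 118 136 [2, 4, 4] [(118, 136, [2, 4, 4])])) (.red [.f 688 5
  1, .f 689 1 3] 103 136 [2, 4, 2] [(103, 136, [2, 4, 2])]) .no

def c28t747 : Tr4 :=
  .br 816 .no (.use 727) .no (.red [.f 808 3 1] 118 136 [2, 4, 4] [(118, 136, [2, 4, 4])]) (.br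
  696 .no (.br 937 .no (.red [.t 936 3 2] 118 136 [2, 4, 4] [(118, 136, [2, 4, 4])]) .no (.use
  746) .no .no) (.red [.f 696 3 1, .f 696 1 5, .f 816 5 3, .f 817 3 1, .f 825 1 3, .t 832 2 4] 119
  136 [2, 4] [(119, 136, [2, 4]), (120, 136, [2])]) (.red [.t 696 4 1] 103 136 [2, 4, 2] [(103,
  136, [2, 4, 2])]) .no .no) .no

def c28t748 : Tr4 :=
  .br 1066 .no .no .no (.br 944 .no (.use 745) .no (.use 747) .no .no) (.red [.t 946 4 1, .f 818 5
  1, .f 818 1 3] 119 136 [2, 4] [(119, 136, [2, 4]), (134, 118, [1])]) .no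

def c28t749 : Tr4 :=
  .br 1064 (.hor [.f 1064 1 3, .f 1064 3 5] [(150, 118, [1, 1])]) (.use 723) .no (.use 741) .no
  .no

def c28t750 : Tr4 :=
  .br 976 .no (.br 843 .no (.con 136 [3, 2, 3, 2, 4, 1, 3, 2, 4, 1, 4, 1]) (.con 136 [3, 2, 3, 2,
  4, 1, 3, 2, 4, 1, 4, 1]) .no .no .no) (.hor [.f 976 3 5] []) .no .no .no

def c28t751 : Tr4 :=
  .br 1064 (.hor [.f 1064 1 3, .f 1064 3 5] [(150, 118, [1, 1])]) (.use 740) .no (.br 696 .no
  (.hor [.f 568 1 3, .f 696 3 1, .f 696 1 5] [(88, 87, [3]), (104, 103, [3])]) .no (.use 743) .no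
  .no) .no .no

def c28t752 : Tr4 :=
  .br 690 .no (.hor [.f 561 1 5] []) .no (.con 136 [2, 4, 2, 4, 2]) (.red [.f 690 5 1, .f 691 1 3]
  103 136 [2, 4, 2] [(103, 136, [2, 4, 2])]) .no

def c28t753 : Tr4 :=
  .br 810 .no (.hor [.f 682 1 5] []) .no (.con 136 [4, 4, 2, 2, 4]) .no .no

def c28t754 : Tr4 :=
  .br 811 .no (.br 689 .no (.use 752) .no (.red [.f 681 3 1, .f 689 1 3] 103 136 [2, 2, 4] [(102,
  136, [2, 2, 4, 4]), (103, 136, [2, 2, 4])]) (.use 739) (.red [.t 816 1 4, .f 688 5 1, .f 689 1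
  3] 103 136 [2, 2, 4] [(103, 136, [2, 2, 4]), (118, 102, [1])])) .no (.red [.f 803 3 1, .t 938 3
  2, .f 818 1 3] 119 136 [2, 4] [(117, 136, [2, 4, 4, 4]), (118, 136, [2, 4, 4]), (119, 136, [2,
  4])]) .no (.red [.f 810 5 3, .f 809 3 5, .t 953 4 2] 119 136 [2, 4] [(119, 136, [2, 4])])

def c28t755 : Tr4 :=
  .br 817 .no (.red [.f 689 1 3] 103 136 [2, 2, 4] [(103, 136, [2, 2, 4])]) .no (.br 936 .no (.use
  738) .no (.use 724) (.use 754) .no) .no .no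

def c28t756 : Tr4 :=
  .br 699 (.br 698 .no (.use 751) (.br 1064 (.hor [.f 1064 1 3, .f 1064 3 5] [(150, 118, [1, 1])])
  (.br 817 .no (.red [.f 689 1 3] 103 136 [2, 2, 4] [(103, 136, [2, 2, 4])]) .no (.br 811 .no (.br
  937 .no .no .no (.br 689 .no (.use 752) .no (.red [.f 681 3 1, .f 689 1 3] 103 136 [2, 2, 4]
  [(102, 136, [2, 2, 4, 4]), (103, 136, [2, 2, 4])]) (.use 729) (.br 808 .no (.red [.t 808 2 3, .f
  689 1 3] 103 136 [2, 2, 4] [(102, 136, [2, 2, 4, 4]), (103, 136, [2, 2, 4])]) .no (.use 753) .no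
  .no)) .no .no) .no (.red [.f 803 3 1, .t 938 3 2, .f 818 1 3] 119 136 [2, 4] [(117, 136, [2, 4,
  4, 4]), (118, 136, [2, 4, 4]), (119, 136, [2, 4])]) .no (.red [.f 810 5 3, .f 809 3 5, .t 953 4
  2] 119 136 [2, 4] [(119, 136, [2, 4])])) .no .no) .no (.br 696 .no (.use 755) .no (.use 743) .no
  .no) .no .no) (.red [.t 698 4 1] 103 136 [2, 2, 4] [(103, 136, [2, 2, 4])]) .no .no) (.con 136
  [2, 4, 2, 3, 1, 4]) (.con 136 [2, 4, 2, 3, 1, 4]) (.con 136 [2, 4, 2, 3, 1, 4]) .no (.con 136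
  [2, 4, 2, 3, 1, 4])

def c28t757 : Tr4 :=
  .br 699 (.hor [.f 699 1 3, .f 698 3 5] [(104, 103, [3])]) (.con 136 [2, 4, 2, 3, 1, 4, 2, 3, 1,
  4]) .no (.con 136 [2, 4, 2, 3, 1, 4, 2, 3, 1, 4]) .no .no

def c28t758 : Tr4 :=
  .br 705 .no (.br 706 .no (.hor [.f 577 1 5] []) (.hor [.f 706 3 1, .f 706 1 5] [(105, 136, [2,
  2, 3])]) (.use 757) .no .no) .no .no (.hor [.t 841 2 4, .f 706 1 5] [(105, 136, [2, 2, 3])])
  (.red [.t 824 3 2, .t 944 2 3, .f 825 1 5] 119 136 [2, 4] [(104, 119, [3, 2]), (119, 136, [2,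
  4])])

def c28t759 : Tr4 :=
  .br 939 (.red [.f 939 1 3, .f 938 3 5, .f 818 5 1, .f 818 1 3] 119 136 [2, 4] [(119, 136, [2,
  4]), (134, 118, [1])]) (.red [.t 938 3 2, .f 818 1 3] 119 136 [2, 4] [(118, 136, [2, 4, 4]),
  (119, 136, [2, 4])]) .no (.br 944 .no (.br 1066 .no .no .no (.br 699 (.br 698 .no (.br 704 .no
  (.use 751) (.use 749) (.red [.f 696 3 1, .f 696 1 5, .t 944 2 3, .f 825 1 3, .t 832 2 4] 119 136
  [2, 4] [(119, 136, [2, 4]), (120, 136, [2])]) (.red [.t 824 3 2, .t 944 2 3, .f 825 1 5] 119 136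
  [2, 4] [(104, 103, [3]), (119, 136, [2, 4])]) .no) (.use 757) (.red [.f 699 1 3, .f 699 3 1, .t
  698 4 1] 103 136 [2, 2, 4] [(103, 136, [2, 2, 4])]) .no .no) (.con 136 [2, 4, 2, 3, 1, 4]) .no
  (.con 136 [2, 4, 2, 3, 1, 4]) .no (.con 136 [2, 4, 2, 3, 1, 4])) (.red [.t 946 4 1, .f 818 5 1,
  .f 818 1 3] 119 136 [2, 4] [(119, 136, [2, 4]), (134, 118, [1])]) .no) .no (.use 747) .no .no)
  .no .no

def c28l26 : List Tr4 :=
  [c28t723, c28t724, c28t725, c28t726, c28t727, c28t728, c28t729, c28t730, c28t731, c28t732,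
  c28t733, c28t734, c28t735, c28t736, c28t737, c28t738, c28t739, c28t740, c28t741, c28t742,
  c28t743, c28t744, c28t745, c28t746, c28t747, c28t748, c28t749, c28t750, c28t751, c28t752,
  c28t753, c28t754, c28t755, c28t756, c28t757, c28t758, c28t759]

theorem c28k26 : chkLF ⟨4, 1, 0, true, -8⟩ false 8 c28N 723 c28l26 = true := by decide +kernel

def c28t760 : Tr4 :=
  .br 713 .no (.hor [.f 577 1 3, .t 698 3 1, .f 706 1 3, .f 705 3 5] [(89, 136, [2, 2, 2, 3]),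
  (104, 136, [2, 2]), (105, 136, [2, 2, 3])]) (.hor [.f 713 3 1, .f 713 1 5] [(106, 136, [2, 2, 3,
  3])]) .no .no .no

def c28t761 : Tr4 :=
  .br 699 (.br 698 .no (.use 749) .no (.red [.t 698 4 1] 103 136 [2, 2, 4] [(103, 136, [2, 2,
  4])]) .no .no) (.con 136 [2, 4, 2, 3, 1, 4]) .no (.con 136 [2, 4, 2, 3, 1, 4]) .no (.con 136 [2,
  4, 2, 3, 1, 4])

def c28t762 : Tr4 :=
  .br 704 .no (.use 756) (.hor [.f 704 3 5] []) (.red [.f 696 3 1, .f 696 1 5, .t 944 2 3, .f 825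
  1 3, .t 832 2 4] 119 136 [2, 4] [(119, 136, [2, 4]), (120, 136, [2])]) .no .no

def c28t763 : Tr4 :=
  .br 1064 (.hor [.f 1064 1 3, .f 1064 3 5] [(150, 118, [1, 1])]) (.br 699 (.br 698 .no (.use 723)
  .no (.red [.t 698 4 1] 103 136 [2, 2, 4] [(103, 136, [2, 2, 4])]) .no .no) (.con 136 [2, 4, 2,
  3, 1, 4]) (.con 136 [2, 4, 2, 3, 1, 4]) (.con 136 [2, 4, 2, 3, 1, 4]) .no (.con 136 [2, 4, 2, 3,
  1, 4])) .no (.br 699 (.br 698 .no (.use 741) .no (.red [.t 698 4 1] 103 136 [2, 2, 4] [(103,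
  136, [2, 2, 4])]) .no .no) (.con 136 [2, 4, 2, 3, 1, 4]) (.con 136 [2, 4, 2, 3, 1, 4]) (.con 136
  [2, 4, 2, 3, 1, 4]) .no (.con 136 [2, 4, 2, 3, 1, 4])) .no .no

def c28t764 : Tr4 :=
  .br 976 .no (.con 136 [3, 2, 3, 2, 4, 1, 3, 2, 4, 1, 3]) (.hor [.f 976 3 5] []) .no .no .no

def c28t765 : Tr4 :=
  .br 696 .no (.br 706 .no (.hor [.f 568 1 3, .f 696 3 1, .f 696 1 5] [(88, 119, [3, 2, 2]), (104,
  119, [3, 2])]) (.hor [.f 568 1 3, .f 696 3 1, .f 696 1 5] [(88, 119, [3, 2, 2]), (104, 119, [3,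
  2])]) (.br 699 (.use 755) (.con 136 [2, 4, 2, 3, 1, 4]) (.con 136 [2, 4, 2, 3, 1, 4]) (.con 136
  [2, 4, 2, 2]) .no .no) (.hor [.f 568 1 3, .f 696 3 1, .f 696 1 5] [(88, 119, [3, 2, 2]), (104,
  119, [3, 2])]) .no) .no (.use 743) .no .no

def c28t766 : Tr4 :=
  .br 842 .no (.br 841 .no (.hor [.f 713 1 5] []) (.br 939 (.red [.f 939 1 3, .f 938 3 5, .f 818 5
  1, .f 818 1 3] 119 136 [2, 4] [(119, 136, [2, 4]), (134, 118, [1])]) (.red [.t 938 3 2, .f 818 1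
  3] 119 136 [2, 4] [(118, 136, [2, 4, 4]), (119, 136, [2, 4])]) .no (.br 944 .no (.br 1066 .no
  .no .no (.br 705 .no (.br 704 .no (.hor [.f 576 1 5] []) (.br 706 .no (.hor [.f 577 1 5] []) .no
  (.br 699 (.use 760) (.con 136 [2, 4, 2, 3, 1, 4]) (.con 136 [2, 4, 2, 3, 1, 4]) (.con 136 [2, 4,
  2, 3, 1, 4]) .no .no) (.use 761) .no) (.red [.f 696 3 1, .f 696 1 5, .t 944 2 3, .f 825 1 3, .t
  832 2 4] 119 136 [2, 4] [(119, 136, [2, 4]), (120, 136, [2])]) .no .no) (.use 762) .no (.use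
  744) (.red [.t 824 3 2, .t 944 2 3, .f 825 1 5] 119 136 [2, 4] [(104, 119, [3, 2]), (119, 136,
  [2, 4])])) (.red [.t 946 4 1, .f 818 5 1, .f 818 1 3] 119 136 [2, 4] [(119, 136, [2, 4]), (134,
  118, [1])]) .no) .no (.use 747) .no .no) .no .no) .no .no (.red [.t 960 3 2, .t 1080 2 3, .f 824
  3 1, .f 832 1 3] 136 136 [] [(120, 136, [2]), (136, 136, [])])) (.hor [.f 842 3 1, .f 842 1 5]
  [(122, 136, [2, 3, 3])]) .no .no (.br 977 (.hor [.f 969 1 3, .f 969 3 5] [(138, 136, [3, 3])])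
  (.hor [.t 977 2 4, .f 842 1 5] [(122, 136, [2, 3, 3])]) (.br 939 (.red [.f 939 1 3, .f 938 3 5,
  .f 818 5 1, .f 818 1 3] 119 136 [2, 4] [(119, 136, [2, 4]), (134, 118, [1])]) (.red [.t 938 3 2,
  .f 818 1 3] 119 136 [2, 4] [(118, 136, [2, 4, 4]), (119, 136, [2, 4])]) .no (.br 944 .no (.br
  1066 .no .no .no (.br 705 .no (.br 704 .no (.hor [.f 576 1 5] []) (.use 764) (.red [.f 696 3 1,
  .f 696 1 5, .t 944 2 3, .f 825 1 3, .t 832 2 4] 119 136 [2, 4] [(119, 136, [2, 4]), (120, 136,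
  [2])]) .no .no) (.br 704 .no (.br 1064 (.hor [.f 1064 1 3, .f 1064 3 5] [(150, 118, [1, 1])])
  (.br 699 (.br 698 .no (.use 740) (.br 712 (.hor [.t 698 3 1, .t 705 3 1, .f 712 1 5] [(104, 103,
  [3]), (105, 103, [3, 3])]) (.hor [.f 576 1 3, .f 704 3 5] [(89, 136, [2, 2, 2, 3])]) (.br 976
  .no (.con 136 [2, 3, 3, 2, 4, 4, 4]) (.hor [.f 976 3 5] []) .no .no .no) .no .no .no) (.red [.t
  698 4 1] 103 136 [2, 2, 4] [(103, 136, [2, 2, 4])]) .no .no) (.con 136 [2, 4, 2, 3, 1, 4]) (.con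
  136 [2, 4, 2, 3, 1, 4]) (.con 136 [2, 4, 2, 3, 1, 4]) .no (.con 136 [2, 4, 2, 3, 1, 4])) .no
  (.use 765) .no .no) (.use 764) (.red [.f 696 3 1, .f 696 1 5, .t 944 2 3, .f 825 1 3, .t 832 2
  4] 119 136 [2, 4] [(119, 136, [2, 4]), (120, 136, [2])]) .no .no) .no (.use 744) (.red [.t 824 3
  2, .t 944 2 3, .f 825 1 5] 119 136 [2, 4] [(104, 119, [3, 2]), (119, 136, [2, 4])])) (.red [.t
  946 4 1, .f 818 5 1, .f 818 1 3] 119 136 [2, 4] [(119, 136, [2, 4]), (134, 118, [1])]) .no) .no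
  (.use 747) .no .no) .no .no) .no .no (.red [.t 1096 3 2, .t 1216 2 3, .f 960 3 1, .f 968 1 3]
  153 136 [3, 1] [(137, 136, [3]), (153, 136, [3, 1])]))

def c28t767 : Tr4 :=
  .br 1209 (.hor [.f 1208 1 5] []) .no (.hor [.f 1209 3 5] []) (.br 970 .no (.br 971 .no (.hor [.f
  842 1 5] []) (.br 1217 (.use 710) .no (.br 834 .no (.use 734) .no .no (.br 818 .no (.use 719)
  .no (.red [.f 810 3 1, .f 818 1 3] 119 136 [2, 4] [(118, 136, [2, 4, 4]), (119, 136, [2, 4])])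
  (.br 1202 (.use 720) .no .no (.br 939 (.red [.f 939 1 3, .f 938 3 5, .f 818 5 1, .f 818 1 3] 119
  136 [2, 4] [(119, 136, [2, 4]), (134, 118, [1])]) (.red [.t 938 3 2, .f 818 1 3] 119 136 [2, 4]
  [(118, 136, [2, 4, 4]), (119, 136, [2, 4])]) .no (.br 841 .no (.use 748) (.br 977 (.hor [.f 969
  1 3, .f 841 3 1, .f 841 1 5] [(122, 120, [3, 3]), (138, 136, [3, 3])]) .no (.br 944 .no (.br
  1066 .no .no .no (.br 705 .no (.br 704 .no (.hor [.f 576 1 5] []) (.use 750) (.red [.f 696 3 1,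
  .f 696 1 5, .t 944 2 3, .f 825 1 3, .t 832 2 4] 119 136 [2, 4] [(119, 136, [2, 4]), (120, 136,
  [2])]) .no .no) (.br 704 .no (.use 756) (.use 750) (.red [.f 696 3 1, .f 696 1 5, .t 944 2 3, .f
  825 1 3, .t 832 2 4] 119 136 [2, 4] [(119, 136, [2, 4]), (120, 136, [2])]) .no .no) .no (.use
  744) (.red [.t 824 3 2, .t 944 2 3, .f 825 1 5] 119 136 [2, 4] [(104, 119, [3, 2]), (119, 136,
  [2, 4])])) (.red [.t 946 4 1, .f 818 5 1, .f 818 1 3] 119 136 [2, 4] [(119, 136, [2, 4]), (134,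
  118, [1])]) .no) .no (.use 747) .no .no) .no (.hor [.t 841 3 1, .f 970 3 5] [(122, 120, [3,
  3])]) (.red [.t 1096 3 2, .t 1216 2 3, .f 960 3 1, .f 968 1 3] 153 136 [3, 1] [(137, 136, [3]),
  (153, 136, [3, 1])])) .no .no (.red [.t 960 3 2, .t 1080 2 3, .f 824 3 1, .f 832 1 3] 136 136 []
  [(120, 136, [2]), (136, 136, [])])) .no .no) (.red [.t 1082 4 1, .t 962 1 4, .f 947 1 3] 136 136
  [] [(135, 136, [4]), (136, 136, []), (151, 135, [1])]) .no) (.red [.t 953 4 2] 119 136 [2, 4]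
  [(119, 136, [2, 4])])) .no) .no .no .no) .no .no .no) (.br 818 .no (.use 719) .no (.red [.f 810
  3 1, .f 818 1 3] 119 136 [2, 4] [(118, 136, [2, 4, 4]), (119, 136, [2, 4])]) (.br 1217 (.use
  710) .no (.br 971 .no (.br 835 .no (.br 1202 (.use 720) .no .no (.use 759) (.red [.t 1082 4 1,
  .t 962 1 4, .f 947 1 3] 136 136 [] [(135, 136, [4]), (136, 136, []), (151, 135, [1])]) .no) .no
  (.red [.f 827 3 1, .f 826 1 5, .f 818 5 3, .t 1074 3 2, .f 819 3 1, .f 827 1 3] 119 136 [2, 4]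
  [(119, 136, [2, 4]), (135, 136, [4])]) .no (.br 1202 (.use 720) .no .no (.use 766) (.red [.t
  1082 4 1, .t 962 1 4, .f 947 1 3] 136 136 [] [(135, 136, [4]), (136, 136, []), (151, 135, [1])])
  .no)) (.hor [.f 970 3 5] []) .no .no .no) .no .no .no) (.red [.t 953 4 2] 119 136 [2, 4] [(119,
  136, [2, 4])])) .no (.red [.t 1090 2 3, .t 1210 3 2, .f 955 3 1, .f 963 1 3] 136 136 [] [(136,
  136, []), (152, 136, [1])]) .no) .no .no

def c28t768 : Tr4 :=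
  .br 834 .no (.use 733) (.hor [.f 834 3 5] []) .no .no .no

def c28t769 : Tr4 :=
  .br 817 .no (.red [.f 689 1 3] 103 136 [2, 2, 4] [(103, 136, [2, 2, 4])]) .no (.br 936 .no (.use
  738) .no (.use 724) (.br 696 .no (.use 754) .no (.use 742) .no .no) .no) .no .no

def c28t770 : Tr4 :=
  .br 705 .no (.br 704 .no (.hor [.f 576 1 5] []) (.br 706 .no (.hor [.f 577 1 5] []) (.use 763)
  (.br 699 (.br 1064 (.hor [.f 1064 1 3, .f 1064 3 5] [(150, 118, [1, 1])]) (.br 817 .no (.red [.f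
  689 1 3] 103 136 [2, 2, 4] [(103, 136, [2, 2, 4])]) .no (.br 811 .no (.br 689 .no (.use 752) .no
  (.red [.f 681 3 1, .f 689 1 3] 103 136 [2, 2, 4] [(102, 136, [2, 2, 4, 4]), (103, 136, [2, 2,
  4])]) (.use 729) (.br 690 .no (.use 736) .no (.con 136 [2, 2, 4, 4, 2]) (.red [.f 690 5 1, .f
  691 1 3] 103 136 [2, 2, 4] [(103, 136, [2, 2, 4])]) .no)) .no (.red [.f 803 3 1, .t 938 3 2, .f
  818 1 3] 119 136 [2, 4] [(117, 136, [2, 4, 4, 4]), (118, 136, [2, 4, 4]), (119, 136, [2, 4])])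
  .no (.red [.f 810 5 3, .f 809 3 5, .t 953 4 2] 119 136 [2, 4] [(119, 136, [2, 4])])) .no .no)
  .no (.use 769) .no .no) (.con 136 [2, 4, 2, 3, 1, 4]) (.con 136 [2, 4, 2, 3, 1, 4]) (.con 136
  [2, 4, 2, 3, 1, 4]) .no .no) (.use 761) .no) (.red [.f 696 3 1, .f 696 1 5, .t 944 2 3, .f 825 1
  3, .t 832 2 4] 119 136 [2, 4] [(119, 136, [2, 4]), (120, 136, [2])]) .no .no) (.use 762) .no
  (.use 744) (.red [.t 824 3 2, .t 944 2 3, .f 825 1 5] 119 136 [2, 4] [(104, 119, [3, 2]), (119,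
  136, [2, 4])])

def c28t771 : Tr4 :=
  .br 705 .no (.br 704 .no (.hor [.f 576 1 5] []) (.br 706 .no (.hor [.f 577 1 5] []) (.use 763)
  (.br 699 (.br 1064 (.hor [.f 1064 1 3, .f 1064 3 5] [(150, 118, [1, 1])]) (.br 817 .no (.red [.f
  689 1 3] 103 136 [2, 2, 4] [(103, 136, [2, 2, 4])]) .no (.br 811 .no (.br 689 .no (.use 752) .no
  (.red [.f 681 3 1, .f 689 1 3] 103 136 [2, 2, 4] [(102, 136, [2, 2, 4, 4]), (103, 136, [2, 2,
  4])]) (.use 729) (.br 690 .no (.use 736) .no (.con 136 [2, 2, 4, 4, 2]) (.red [.f 690 5 1, .f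
  691 1 3] 103 136 [2, 2, 4] [(103, 136, [2, 2, 4])]) .no)) .no (.red [.f 803 3 1, .t 938 3 2, .f
  818 1 3] 119 136 [2, 4] [(117, 136, [2, 4, 4, 4]), (118, 136, [2, 4, 4]), (119, 136, [2, 4])])
  .no (.red [.f 810 5 3, .f 809 3 5, .t 953 4 2] 119 136 [2, 4] [(119, 136, [2, 4])])) .no .no)
  .no (.use 769) .no .no) (.con 136 [2, 4, 2, 3, 1, 4]) (.con 136 [2, 4, 2, 3, 1, 4]) (.con 136
  [2, 4, 2, 3, 1, 4]) .no .no) (.use 761) .no) (.red [.f 696 3 1, .f 696 1 5, .t 944 2 3, .f 825 1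
  3, .t 832 2 4] 119 136 [2, 4] [(119, 136, [2, 4]), (120, 136, [2])]) .no .no) (.br 704 .no (.br
  1064 (.hor [.f 1064 1 3, .f 1064 3 5] [(150, 118, [1, 1])]) (.br 699 (.br 698 .no (.use 740)
  (.br 817 .no (.red [.f 689 1 3] 103 136 [2, 2, 4] [(103, 136, [2, 2, 4])]) .no (.br 811 .no (.br
  689 .no (.use 752) .no (.red [.f 681 3 1, .f 689 1 3] 103 136 [2, 2, 4] [(102, 136, [2, 2, 4,
  4]), (103, 136, [2, 2, 4])]) (.use 729) (.br 937 .no .no .no (.br 808 .no (.red [.t 808 2 3, .f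
  689 1 3] 103 136 [2, 2, 4] [(102, 136, [2, 2, 4, 4]), (103, 136, [2, 2, 4])]) .no (.use 753) .no
  .no) .no .no)) .no (.red [.f 803 3 1, .t 938 3 2, .f 818 1 3] 119 136 [2, 4] [(117, 136, [2, 4,
  4, 4]), (118, 136, [2, 4, 4]), (119, 136, [2, 4])]) .no (.red [.f 810 5 3, .f 809 3 5, .t 953 4
  2] 119 136 [2, 4] [(119, 136, [2, 4])])) .no .no) (.red [.t 698 4 1] 103 136 [2, 2, 4] [(103,
  136, [2, 2, 4])]) .no .no) (.con 136 [2, 4, 2, 3, 1, 4]) (.con 136 [2, 4, 2, 3, 1, 4]) (.con 136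
  [2, 4, 2, 3, 1, 4]) .no (.con 136 [2, 4, 2, 3, 1, 4])) .no (.use 765) .no .no) (.hor [.f 704 3
  5] []) (.red [.f 696 3 1, .f 696 1 5, .t 944 2 3, .f 825 1 3, .t 832 2 4] 119 136 [2, 4] [(119,
  136, [2, 4]), (120, 136, [2])]) .no .no) .no (.use 744) (.red [.t 824 3 2, .t 944 2 3, .f 825 1
  5] 119 136 [2, 4] [(104, 119, [3, 2]), (119, 136, [2, 4])])

def c28t772 : Tr4 :=
  .br 835 .no (.use 759) (.use 768) (.red [.f 827 3 1, .f 826 1 5, .f 818 5 3, .t 1074 3 2, .f 819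
  3 1, .f 827 1 3] 119 136 [2, 4] [(119, 136, [2, 4]), (135, 136, [4])]) .no (.br 939 (.red [.f
  939 1 3, .f 938 3 5, .f 818 5 1, .f 818 1 3] 119 136 [2, 4] [(119, 136, [2, 4]), (134, 118,
  [1])]) (.red [.t 938 3 2, .f 818 1 3] 119 136 [2, 4] [(118, 136, [2, 4, 4]), (119, 136, [2,
  4])]) .no (.br 944 .no (.br 1066 .no .no .no (.br 841 .no (.use 745) (.use 770) .no (.use 771)
  (.red [.t 960 3 2, .t 1080 2 3, .f 824 3 1, .f 832 1 3] 136 136 [] [(120, 136, [2]), (136, 136,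
  [])])) (.red [.t 946 4 1, .f 818 5 1, .f 818 1 3] 119 136 [2, 4] [(119, 136, [2, 4]), (134, 118,
  [1])]) .no) .no (.use 747) .no .no) .no .no)

def c28t773 : Tr4 :=
  .br 1202 (.hor [.f 1202 1 3, .f 1201 3 5] [(167, 135, [1, 1])]) .no .no (.use 772) (.red [.t
  1082 4 1, .t 962 1 4, .f 947 1 3] 136 136 [] [(135, 136, [4]), (136, 136, []), (151, 135, [1])])
  .no

def c28t774 : Tr4 :=
  .br 1201 (.br 1202 (.hor [.f 1201 1 5] []) .no .no (.use 772) (.red [.t 1082 4 1, .t 962 1 4, .f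
  947 1 3] 136 136 [] [(135, 136, [4]), (136, 136, []), (151, 135, [1])]) .no) .no .no (.hor [.f
  1065 3 1, .f 1072 1 5] [(150, 118, [1, 1])]) (.red [.f 1201 5 3, .f 1074 3 1, .f 1082 1 5, .t
  962 1 4] 136 136 [] [(136, 136, []), (151, 135, [1])]) .no

def c28t775 : Tr4 :=
  .br 1219 (.con 136 [3, 1, 1]) .no (.hor [.f 1218 3 5] []) .no .no .no

def c28t776 : Tr4 :=
  .br 1337 (.red [.f 1337 1 3] 184 136 [1, 1, 1] [(184, 136, [1, 1, 1])]) .no .no (.hor [.t 1337 4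
  2, .f 1074 3 1, .f 1082 1 5] [(151, 136, [4, 1]), (167, 168, [4])]) .no .no

def c28t777 : Tr4 :=
  .br 1346 (.br 1347 (.hor [.f 1346 1 5] []) .no (.con 136 [3, 1, 1, 1]) (.red [.f 1081 3 1, .f
  1081 1 3, .t 1338 2 3] 168 136 [1, 1] [(168, 136, [1, 1])]) .no .no) .no (.hor [.f 1345 3 5] [])
  .no (.red [.f 1081 3 1, .f 1081 1 3, .f 1218 5 1, .f 1210 1 3] 168 136 [1, 1] [(168, 136, [1,
  1])]) .no

def c28t778 : Tr4 :=
  .br 1098 (.br 1219 (.br 1218 (.hor [.f 1218 1 5] []) .no .no (.use 767) .no (.br 818 .no (.use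
  719) .no (.red [.f 810 3 1, .f 818 1 3] 119 136 [2, 4] [(118, 136, [2, 4, 4]), (119, 136, [2,
  4])]) (.br 1209 (.hor [.f 1208 1 5] []) .no .no (.br 1210 (.use 773) .no .no (.hor [.f 1201 3 5]
  []) .no .no) (.use 774) .no) (.red [.t 953 4 2] 119 136 [2, 4] [(119, 136, [2, 4])]))) .no (.red
  [.f 1091 3 1, .f 1083 1 3] 153 136 [3, 1] [(152, 136, [1]), (153, 136, [3, 1])]) .no .no (.red
  [.t 1098 1 4, .f 1083 1 3] 153 136 [3, 1] [(152, 136, [1]), (153, 136, [3, 1])])) (.hor [.f 969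
  1 5] []) (.br 818 .no (.use 719) .no (.red [.f 810 3 1, .f 818 1 3] 119 136 [2, 4] [(118, 136,
  [2, 4, 4]), (119, 136, [2, 4])]) (.br 1209 (.hor [.f 1208 1 5] []) .no (.br 1210 (.br 1218 (.red
  [.f 1210 1 3, .f 1209 3 5] 168 136 [1, 1] [(168, 136, [1, 1])]) .no (.use 775) .no (.br 1345
  (.br 1346 (.hor [.f 1345 1 5] []) .no (.br 1226 .no .no (.red [.f 1098 3 1] 154 136 [3, 3, 1]
  [(154, 136, [3, 3, 1])]) .no (.red [.f 1218 5 3, .f 1218 3 1] 169 136 [3, 1, 1] [(169, 136, [3,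
  1, 1])]) (.br 1224 (.br 1347 (.br 1339 (.red [.f 1339 1 3] 184 136 [1, 1, 1] [(184, 136, [1, 1,
  1])]) .no .no (.br 1202 (.hor [.f 1202 1 3, .f 1330 3 5] [(167, 168, [4])]) .no .no (.use 772)
  (.red [.t 1082 4 1, .t 962 1 4, .f 947 1 3] 136 136 [] [(135, 136, [4]), (136, 136, []), (151,
  135, [1])]) (.use 776)) .no .no) .no (.con 136 [3, 1, 1, 3]) (.red [.f 1081 3 1, .f 1081 1 3, .t
  1338 2 3] 168 136 [1, 1] [(168, 136, [1, 1])]) .no .no) .no (.red [.f 1096 3 1, .f 1088 1 3, .f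
  960 3 1, .f 968 1 5] 154 136 [3, 3, 1] [(137, 136, [3]), (153, 136, [3, 1]), (154, 136, [3, 3,
  1])]) .no .no .no)) .no (.red [.f 1081 3 1, .f 1081 1 3, .f 1218 5 1, .f 1210 1 3] 168 136 [1,
  1] [(168, 136, [1, 1])]) .no) .no (.use 777) (.red [.f 1081 3 1, .f 1081 1 3, .f 1209 3 1] 168
  136 [1, 1] [(168, 136, [1, 1])]) (.red [.f 1081 3 1, .f 1081 1 3, .t 1209 3 1] 168 136 [1, 1]
  [(168, 136, [1, 1])]) (.red [.f 1081 3 1, .f 1081 1 3, .t 1208 1 3] 168 136 [1, 1] [(168, 136,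
  [1, 1])])) .no) .no (.hor [.f 1209 3 5] []) (.red [.f 1074 3 1, .f 1082 1 5, .t 962 1 4, .f 947
  1 3] 136 136 [] [(135, 136, [4]), (136, 136, []), (151, 135, [1])]) .no .no) (.br 1210 (.use
  773) .no (.br 1219 (.br 1202 (.use 720) .no .no (.use 772) (.red [.t 1082 4 1, .t 962 1 4, .f
  947 1 3] 136 136 [] [(135, 136, [4]), (136, 136, []), (151, 135, [1])]) .no) .no (.red [.f 1091
  3 1, .f 1083 1 3, .f 1210 3 5] 153 136 [3, 1] [(152, 136, [1]), (153, 136, [3, 1])]) .no .no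
  .no) (.hor [.f 1201 3 5] []) .no .no) (.use 774) .no) (.red [.t 953 4 2] 119 136 [2, 4] [(119,
  136, [2, 4])])) .no .no .no

def c28t779 : Tr4 :=
  .br 1217 (.con 136 [3, 1, 1]) .no (.hor [.f 1217 3 5] []) (.con 136 [3, 1, 1]) .no .no

def c28l27 : List Tr4 :=
  [c28t760, c28t761, c28t762, c28t763, c28t764, c28t765, c28t766, c28t767, c28t768, c28t769,
  c28t770, c28t771, c28t772, c28t773, c28t774, c28t775, c28t776, c28t777, c28t778, c28t779]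

theorem c28k27 : chkLF ⟨4, 1, 0, true, -8⟩ false 8 c28N 760 c28l27 = true := by decide +kernel

end Pool.Agent.FT4D
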