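import Pool.Agent.FT4D.Tab_c28

/-!
# Four levels: decision trees (found by a computer search)
-/

namespace Pool.Agent.FT4D

def c28t780 : Tr4 :=
  .br 939 (.red [.f 939 1 3, .f 938 3 5, .f 818 5 1, .f 818 1 3] 119 136 [2, 4] [(119, 136, [2,
  4]), (134, 118, [1])]) (.red [.t 938 3 2, .f 818 1 3] 119 136 [2, 4] [(118, 136, [2, 4, 4]),
  (119, 136, [2, 4])]) .no (.use 748) .no .no

def c28t781 : Tr4 :=
  .br 1202 (.use 720) .no .no (.use 780) (.red [.t 1082 4 1, .t 962 1 4, .f 947 1 3] 136 136 []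
  [(135, 136, [4]), (136, 136, []), (151, 135, [1])]) .no

def c28t782 : Tr4 :=
  .br 835 .no (.use 759) (.use 768) (.red [.f 827 3 1, .f 826 1 5, .f 818 5 3, .t 1074 3 2, .f 819
  3 1, .f 827 1 3] 119 136 [2, 4] [(119, 136, [2, 4]), (135, 136, [4])]) .no (.use 780)

def c28t783 : Tr4 :=
  .br 1202 (.hor [.f 1202 1 3, .f 1201 3 5] [(167, 135, [1, 1])]) .no .no (.use 782) (.red [.t
  1082 4 1, .t 962 1 4, .f 947 1 3] 136 136 [] [(135, 136, [4]), (136, 136, []), (151, 135, [1])])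
  .no

def c28t784 : Tr4 :=
  .br 1202 (.hor [.f 1201 1 5] []) .no .no (.use 782) (.red [.t 1082 4 1, .t 962 1 4, .f 947 1 3]
  136 136 [] [(135, 136, [4]), (136, 136, []), (151, 135, [1])]) .no

def c28t785 : Tr4 :=
  .br 1201 (.use 784) .no .no (.hor [.f 1065 3 1, .f 1072 1 5] [(150, 118, [1, 1])]) (.red [.f
  1201 5 3, .f 1074 3 1, .f 1082 1 5, .t 962 1 4] 136 136 [] [(136, 136, []), (151, 135, [1])])
  .no

def c28t786 : Tr4 :=
  .br 1209 (.hor [.f 1208 1 5] []) .no .no (.br 1210 (.use 783) .no .no (.hor [.f 1201 3 5] [])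
  .no .no) (.use 785) .no

def c28t787 : Tr4 :=
  .br 810 .no (.hor [.f 682 1 5] []) .no (.use 706) .no .no

def c28t788 : Tr4 :=
  .br 811 .no (.use 787) .no (.red [.f 803 3 1, .t 938 3 2, .f 818 1 3] 119 136 [2, 4] [(117, 136,
  [2, 4, 4, 4]), (118, 136, [2, 4, 4]), (119, 136, [2, 4])]) .no (.red [.f 810 5 3, .f 809 3 5, .t
  953 4 2] 119 136 [2, 4] [(119, 136, [2, 4])])

def c28t789 : Tr4 :=
  .br 835 .no (.hor [.f 706 1 5] []) (.br 939 (.red [.f 939 1 3, .f 938 3 5, .f 818 5 1, .f 818 1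
  3] 119 136 [2, 4] [(119, 136, [2, 4]), (134, 118, [1])]) (.red [.t 938 3 2, .f 818 1 3] 119 136
  [2, 4] [(118, 136, [2, 4, 4]), (119, 136, [2, 4])]) .no (.br 944 .no (.br 704 .no (.use 732)
  (.br 699 (.br 698 .no (.br 817 .no (.red [.f 689 1 3] 103 136 [2, 2, 4] [(103, 136, [2, 2, 4])])
  .no (.br 696 .no (.use 788) .no (.use 731) .no .no) .no .no) .no (.red [.t 698 4 1] 103 136 [2,
  2, 4] [(103, 136, [2, 2, 4])]) .no .no) (.con 136 [2, 4, 2, 3, 1, 4]) (.con 136 [2, 4, 2, 3, 1,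
  4]) (.con 136 [2, 4, 2, 3, 1, 4]) .no (.con 136 [2, 4, 2, 3, 1, 4])) (.red [.f 696 3 1, .f 696 1
  5, .t 944 2 3, .f 825 1 3, .t 832 2 4] 119 136 [2, 4] [(119, 136, [2, 4]), (120, 136, [2])])
  (.red [.t 824 3 2, .t 944 2 3, .f 825 1 5, .t 705 4 1] 119 136 [2, 4] [(119, 136, [2, 4])]) .no)
  .no (.use 728) .no .no) .no .no) (.red [.f 827 3 1, .f 826 1 5, .f 818 5 3, .t 1074 3 2, .f 819
  3 1, .f 827 1 3] 119 136 [2, 4] [(119, 136, [2, 4]), (135, 136, [4])]) .no .no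

def c28t790 : Tr4 :=
  .br 834 .no (.use 789) .no .no (.red [.t 1088 1 4, .t 954 2 3, .t 1074 3 2, .f 954 1 3, .f 826 3
  1] 136 136 [] [(135, 136, [4]), (136, 136, []), (152, 136, [1])]) .no

def c28t791 : Tr4 :=
  .br 841 .no (.br 1208 (.br 1218 (.hor [.f 1218 1 5] []) .no (.use 779) (.br 1209 (.hor [.f 1208
  1 5] []) .no (.hor [.f 1209 3 5] []) (.br 834 .no (.use 734) .no .no (.use 781) .no) .no .no)
  .no (.use 786)) .no .no .no (.use 790) .no) (.hor [.f 841 3 1, .f 841 1 5] [(122, 119, [3, 3,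
  3])]) .no .no (.red [.t 960 3 2, .t 1080 2 3, .f 824 3 1, .f 832 1 3] 136 136 [] [(120, 136,
  [2]), (136, 136, [])])

def c28t792 : Tr4 :=
  .br 939 (.red [.f 939 1 3, .f 938 3 5, .f 818 5 1, .f 818 1 3] 119 136 [2, 4] [(119, 136, [2,
  4]), (134, 118, [1])]) (.red [.t 938 3 2, .f 818 1 3] 119 136 [2, 4] [(118, 136, [2, 4, 4]),
  (119, 136, [2, 4])]) .no (.use 747) .no .no

def c28t793 : Tr4 :=
  .br 841 .no (.br 944 .no (.use 758) .no (.use 792) .no .no) (.hor [.f 841 3 1, .f 833 1 3, .f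
  833 3 5] [(121, 119, [3, 3]), (122, 119, [3, 3, 3])]) .no .no (.red [.t 960 3 2, .t 1080 2 3, .f
  824 3 1, .f 832 1 3] 136 136 [] [(120, 136, [2]), (136, 136, [])])

def c28t794 : Tr4 :=
  .br 944 .no (.br 939 (.red [.f 939 1 3, .f 938 3 5, .f 818 5 1, .f 818 1 3] 119 136 [2, 4]
  [(119, 136, [2, 4]), (134, 118, [1])]) (.red [.t 938 3 2, .f 818 1 3] 119 136 [2, 4] [(118, 136,
  [2, 4, 4]), (119, 136, [2, 4])]) .no (.br 1066 .no .no .no (.use 771) (.red [.t 946 4 1, .f 818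
  5 1, .f 818 1 3] 119 136 [2, 4] [(119, 136, [2, 4]), (134, 118, [1])]) .no) .no .no) .no (.use
  792) .no .no

def c28t795 : Tr4 :=
  .br 1218 (.hor [.f 1218 1 5] []) .no (.use 779) (.red [.t 1090 2 3, .t 1210 3 2, .f 955 3 1, .f
  963 1 3] 136 136 [] [(136, 136, []), (152, 136, [1])]) .no (.br 834 .no (.use 789) (.br 835 .no
  (.use 793) (.hor [.f 834 3 5] []) (.red [.f 827 3 1, .f 826 1 5, .f 818 5 3, .t 1074 3 2, .f 819
  3 1, .f 827 1 3] 119 136 [2, 4] [(119, 136, [2, 4]), (135, 136, [4])]) .no .no) .no (.br 1208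
  (.br 841 .no (.use 786) (.hor [.f 841 3 1, .f 833 1 3, .f 960 3 5] [(121, 119, [3, 3]), (122,
  119, [3, 3, 3])]) .no (.br 1209 (.hor [.f 1208 1 5] []) .no .no (.br 1210 (.br 1202 (.hor [.f
  1202 1 3, .f 1201 3 5] [(167, 168, [4])]) .no .no (.use 794) (.red [.t 1090 2 3, .t 970 4 1, .t
  1082 4 1, .t 962 1 4, .f 947 1 3] 136 136 [] [(135, 136, [4]), (136, 136, []), (151, 135, [1])])
  .no) .no .no (.hor [.f 1201 3 5] []) .no .no) (.br 1201 (.br 1202 (.hor [.f 1201 1 5] []) .no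
  .no (.use 794) (.red [.t 1090 2 3, .t 970 4 1, .t 1082 4 1, .t 962 1 4, .f 947 1 3] 136 136 []
  [(135, 136, [4]), (136, 136, []), (151, 135, [1])]) .no) .no .no (.hor [.f 1065 3 1, .f 1072 1
  5] [(150, 118, [1, 1])]) (.red [.f 1201 5 3, .f 1074 3 1, .f 1082 1 5, .t 962 1 4] 136 136 []
  [(136, 136, []), (151, 135, [1])]) .no) .no) (.red [.t 960 3 2, .t 1080 2 3, .f 824 3 1, .f 832
  1 3] 136 136 [] [(120, 136, [2]), (136, 136, [])])) .no .no .no (.red [.t 1088 1 4, .t 954 2 3,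
  .t 1074 3 2, .f 954 1 3, .f 826 3 1] 136 136 [] [(135, 136, [4]), (136, 136, []), (152, 136,
  [1])]) .no) .no)

def c28t796 : Tr4 :=
  .br 1226 .no .no (.br 1227 (.red [.t 1354 4 2] 169 136 [3, 1, 1] [(169, 136, [3, 1, 1])]) .no
  (.hor [.f 1226 3 5] []) .no .no .no) .no (.red [.f 1218 5 3, .f 1218 3 1] 169 136 [3, 1, 1]
  [(169, 136, [3, 1, 1])]) (.red [.f 1097 5 1, .t 1098 1 4, .f 1083 1 3] 153 136 [3, 1] [(152,
  136, [1]), (153, 136, [3, 1])])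

def c28t797 : Tr4 :=
  .br 1346 (.hor [.f 1345 1 5] []) .no (.use 796) .no (.red [.f 1081 3 1, .f 1081 1 3, .f 1218 5
  1, .f 1210 1 3] 168 136 [1, 1] [(168, 136, [1, 1])]) .no

def c28t798 : Tr4 :=
  .br 1345 (.use 797) .no (.use 777) (.red [.f 1081 3 1, .f 1081 1 3, .f 1209 3 1] 168 136 [1, 1]
  [(168, 136, [1, 1])]) (.red [.f 1081 3 1, .f 1081 1 3, .t 1209 3 1] 168 136 [1, 1] [(168, 136,
  [1, 1])]) (.red [.f 1081 3 1, .f 1081 1 3, .t 1208 1 3] 168 136 [1, 1] [(168, 136, [1, 1])])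

def c28t799 : Tr4 :=
  .br 944 .no (.br 939 (.red [.f 939 1 3, .f 938 3 5, .f 818 5 1, .f 818 1 3] 119 136 [2, 4]
  [(119, 136, [2, 4]), (134, 118, [1])]) (.red [.t 938 3 2, .f 818 1 3] 119 136 [2, 4] [(118, 136,
  [2, 4, 4]), (119, 136, [2, 4])]) .no (.br 1066 .no .no .no (.use 770) (.red [.t 946 4 1, .f 818
  5 1, .f 818 1 3] 119 136 [2, 4] [(119, 136, [2, 4]), (134, 118, [1])]) .no) .no .no) .no (.use
  792) .no .no

def c28t800 : Tr4 :=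
  .br 841 .no (.use 781) (.br 1202 (.use 720) .no .no (.use 799) (.red [.t 1082 4 1, .t 962 1 4,
  .f 947 1 3] 136 136 [] [(135, 136, [4]), (136, 136, []), (151, 135, [1])]) .no) .no (.red [.f
  841 5 1, .f 833 1 3, .f 960 3 5, .t 1080 2 3] 136 136 [] [(121, 119, [3, 3]), (136, 136, [])])
  (.red [.t 960 3 2, .t 1080 2 3, .f 824 3 1, .f 832 1 3] 136 136 [] [(120, 136, [2]), (136, 136,
  [])])

def c28t801 : Tr4 :=
  .br 1202 (.hor [.f 1202 1 3, .f 1201 3 5] [(167, 135, [1, 1])]) .no .no (.use 799) (.red [.t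
  1082 4 1, .t 962 1 4, .f 947 1 3] 136 136 [] [(135, 136, [4]), (136, 136, []), (151, 135, [1])])
  .no

def c28t802 : Tr4 :=
  .br 1202 (.hor [.f 1201 1 5] []) .no .no (.use 799) (.red [.t 1082 4 1, .t 962 1 4, .f 947 1 3]
  136 136 [] [(135, 136, [4]), (136, 136, []), (151, 135, [1])]) .no

def c28t803 : Tr4 :=
  .br 1201 (.use 802) .no .no (.hor [.f 1065 3 1, .f 1072 1 5] [(150, 118, [1, 1])]) (.red [.f
  1201 5 3, .f 1074 3 1, .f 1082 1 5, .t 962 1 4] 136 136 [] [(136, 136, []), (151, 135, [1])])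
  .no

def c28t804 : Tr4 :=
  .br 841 .no (.use 783) (.use 801) .no (.red [.f 841 5 1, .f 833 1 3, .f 960 3 5, .t 1080 2 3]
  136 136 [] [(121, 119, [3, 3]), (136, 136, [])]) (.red [.t 960 3 2, .t 1080 2 3, .f 824 3 1, .f
  832 1 3] 136 136 [] [(120, 136, [2]), (136, 136, [])])

def c28t805 : Tr4 :=
  .br 841 .no (.use 785) (.use 803) .no (.red [.f 841 5 1, .f 833 1 3, .f 960 3 5, .t 1080 2 3]
  136 136 [] [(121, 119, [3, 3]), (136, 136, [])]) (.red [.t 960 3 2, .t 1080 2 3, .f 824 3 1, .f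
  832 1 3] 136 136 [] [(120, 136, [2]), (136, 136, [])])

def c28t806 : Tr4 :=
  .br 1097 (.use 703) (.br 1208 (.use 778) .no .no .no (.red [.t 1088 1 4, .t 968 4 1, .f 952 1 3]
  136 136 [] [(136, 136, []), (137, 136, [3]), (152, 136, [1])]) .no) (.hor [.f 1096 3 5] []) .no
  (.br 818 .no (.use 719) .no (.red [.f 810 3 1, .f 818 1 3] 119 136 [2, 4] [(118, 136, [2, 4,
  4]), (119, 136, [2, 4])]) (.br 969 .no (.hor [.f 833 1 3, .f 960 3 5] [(121, 119, [3, 3])]) (.br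
  1219 (.br 970 .no (.use 791) (.use 600) .no (.use 795) .no) .no (.red [.f 1091 3 1, .f 1083 1 3]
  153 136 [3, 1] [(152, 136, [1]), (153, 136, [3, 1])]) .no .no (.br 970 .no (.br 841 .no (.br
  1210 (.br 1209 (.hor [.f 1209 1 5] []) .no (.br 1208 (.use 798) .no .no .no .no .no) (.use 783)
  .no (.use 790)) .no .no (.red [.f 1074 3 1, .f 1082 1 5, .t 962 1 4, .f 947 1 3] 136 136 []
  [(135, 136, [4]), (136, 136, []), (151, 135, [1])]) .no (.use 785)) (.hor [.f 841 3 1, .f 841 1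
  5] [(122, 154, [2, 2])]) .no .no (.red [.t 960 3 2, .t 1080 2 3, .f 824 3 1, .f 832 1 3] 136 136
  [] [(120, 136, [2]), (136, 136, [])])) (.use 600) .no (.red [.t 1090 2 3, .f 1090 5 1, .f 1083 1
  3, .f 955 3 1, .f 963 1 3] 136 136 [] [(136, 136, []), (152, 136, [1])]) .no)) .no (.br 834 .no
  (.use 789) (.hor [.t 833 1 3, .f 960 3 5] [(121, 119, [3, 3])]) .no (.br 1208 (.br 1219 (.br
  1218 (.hor [.f 1218 1 5] []) .no (.use 779) (.br 1209 (.hor [.f 1208 1 5] []) .no (.hor [.f 1209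
  3 5] []) (.use 800) .no .no) .no (.br 841 .no (.use 786) (.br 1209 (.hor [.f 1208 1 5] []) .no
  .no (.br 1210 (.use 801) .no .no (.hor [.f 1201 3 5] []) .no .no) (.use 803) .no) .no (.red [.f
  841 5 1, .f 833 1 3, .f 960 3 5, .t 1080 2 3] 136 136 [] [(121, 119, [3, 3]), (136, 136, [])])
  (.red [.t 960 3 2, .t 1080 2 3, .f 824 3 1, .f 832 1 3] 136 136 [] [(120, 136, [2]), (136, 136,
  [])]))) .no (.red [.f 1091 3 1, .f 1083 1 3] 153 136 [3, 1] [(152, 136, [1]), (153, 136, [3,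
  1])]) .no .no (.br 1210 (.br 1209 (.hor [.f 1208 1 5] []) .no (.use 798) (.use 804) .no .no) .no
  .no (.red [.f 1074 3 1, .f 1082 1 5, .t 962 1 4, .f 947 1 3] 136 136 [] [(135, 136, [4]), (136,
  136, []), (151, 135, [1])]) .no (.use 805))) .no .no .no (.red [.t 1088 1 4, .t 954 2 3, .t 1074
  3 2, .f 954 1 3, .f 826 3 1] 136 136 [] [(135, 136, [4]), (136, 136, []), (152, 136, [1])]) .no)
  .no) .no) (.red [.t 953 4 2] 119 136 [2, 4] [(119, 136, [2, 4])])) .no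

def c28t807 : Tr4 :=
  .br 835 .no (.br 969 .no (.hor [.f 833 1 3, .f 833 3 5] [(121, 119, [3, 3])]) (.br 970 (.br 1210
  (.br 1202 (.hor [.f 1202 1 3, .f 1201 3 5] [(167, 135, [1, 1])]) .no .no (.use 759) (.red [.t
  1082 4 1, .t 962 1 4, .f 947 1 3] 136 136 [] [(135, 136, [4]), (136, 136, []), (151, 135, [1])])
  .no) .no (.red [.f 962 1 3, .f 1090 3 5, .t 1210 3 2, .f 955 3 1, .t 962 3 1] 136 136 [] [(136,
  136, []), (152, 136, [1])]) (.hor [.f 1201 3 5] []) .no .no) .no (.hor [.f 969 3 5] []) .no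
  (.use 793) .no) .no (.hor [.t 833 1 3, .f 960 3 5] [(121, 119, [3, 3])]) .no) (.hor [.f 834 3 5]
  []) (.red [.f 827 3 1, .f 826 1 5, .f 818 5 3, .t 1074 3 2, .f 819 3 1, .f 827 1 3] 119 136 [2,
  4] [(119, 136, [2, 4]), (135, 136, [4])]) .no .no

def c28t808 : Tr4 :=
  .br 969 .no (.hor [.f 833 1 3, .f 960 3 5] [(121, 119, [3, 3])]) (.br 841 .no (.use 783) (.use
  801) .no (.br 1202 (.hor [.f 1202 1 3, .f 1201 3 5] [(167, 135, [1, 1])]) .no .no (.use 794)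
  (.red [.t 1082 4 1, .t 962 1 4, .f 947 1 3] 136 136 [] [(135, 136, [4]), (136, 136, []), (151,
  135, [1])]) .no) (.red [.t 960 3 2, .t 1080 2 3, .f 824 3 1, .f 832 1 3] 136 136 [] [(120, 136,
  [2]), (136, 136, [])])) .no (.use 804) .no

def c28t809 : Tr4 :=
  .br 1201 (.br 834 .no (.use 789) (.br 835 .no (.br 1202 (.hor [.f 1201 1 5] []) .no .no (.use
  759) (.red [.t 1082 4 1, .t 962 1 4, .f 947 1 3] 136 136 [] [(135, 136, [4]), (136, 136, []),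
  (151, 135, [1])]) .no) (.hor [.f 834 3 5] []) (.red [.f 827 3 1, .f 826 1 5, .f 818 5 3, .t 1074
  3 2, .f 819 3 1, .f 827 1 3] 119 136 [2, 4] [(119, 136, [2, 4]), (135, 136, [4])]) .no .no) .no
  (.br 969 .no (.hor [.f 833 1 3, .f 960 3 5] [(121, 119, [3, 3])]) (.br 841 .no (.use 784) (.use
  802) .no (.br 1202 (.hor [.f 1201 1 5] []) .no .no (.use 794) (.red [.t 1082 4 1, .t 962 1 4, .f
  947 1 3] 136 136 [] [(135, 136, [4]), (136, 136, []), (151, 135, [1])]) .no) (.red [.t 960 3 2,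
  .t 1080 2 3, .f 824 3 1, .f 832 1 3] 136 136 [] [(120, 136, [2]), (136, 136, [])])) .no (.use
  805) .no) .no) .no .no (.hor [.f 1065 3 1, .f 1072 1 5] [(150, 118, [1, 1])]) (.red [.f 1201 5
  3, .f 1074 3 1, .f 1082 1 5, .t 962 1 4] 136 136 [] [(136, 136, []), (151, 135, [1])]) .no

def c28t810 : Tr4 :=
  .br 1218 (.red [.f 1210 1 3, .f 1209 3 5] 168 136 [1, 1] [(168, 136, [1, 1])]) .no (.use 775)
  .no (.br 1345 (.br 834 .no (.use 789) (.br 835 .no (.br 1346 (.hor [.f 1345 1 5] []) .no (.br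
  1347 (.br 1201 (.br 1202 (.hor [.f 1201 1 5] []) .no .no (.use 759) (.red [.t 1082 4 1, .t 962 1
  4, .f 947 1 3] 136 136 [] [(135, 136, [4]), (136, 136, []), (151, 135, [1])]) .no) .no .no (.hor
  [.f 1065 3 1, .f 1072 1 5] [(150, 118, [1, 1])]) (.use 776) .no) .no (.hor [.f 1346 3 5] [])
  (.red [.f 1081 3 1, .f 1081 1 3, .t 1338 2 3] 168 136 [1, 1] [(168, 136, [1, 1])]) .no .no) .no
  (.red [.f 1081 3 1, .f 1081 1 3, .f 1218 5 1, .f 1210 1 3] 168 136 [1, 1] [(168, 136, [1, 1])])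
  .no) (.hor [.f 834 3 5] []) (.red [.f 827 3 1, .f 826 1 5, .f 818 5 3, .t 1074 3 2, .f 819 3 1,
  .f 827 1 3] 119 136 [2, 4] [(119, 136, [2, 4]), (135, 136, [4])]) .no .no) .no (.br 969 .no
  (.hor [.f 833 1 3, .f 960 3 5] [(121, 119, [3, 3])]) (.br 1346 (.hor [.f 1345 1 5] []) .no (.br
  1347 (.br 1201 (.br 1202 (.hor [.f 1201 1 5] []) .no .no (.br 841 .no (.use 780) (.use 799) .no
  (.use 794) (.red [.t 960 3 2, .t 1080 2 3, .f 824 3 1, .f 832 1 3] 136 136 [] [(120, 136, [2]),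
  (136, 136, [])])) (.red [.t 1082 4 1, .t 962 1 4, .f 947 1 3] 136 136 [] [(135, 136, [4]), (136,
  136, []), (151, 135, [1])]) .no) .no .no (.hor [.f 1065 3 1, .f 1072 1 5] [(150, 118, [1, 1])])
  (.use 776) .no) .no (.hor [.f 1346 3 5] []) (.red [.f 1081 3 1, .f 1081 1 3, .t 1338 2 3] 168
  136 [1, 1] [(168, 136, [1, 1])]) .no .no) .no (.red [.f 1081 3 1, .f 1081 1 3, .f 1218 5 1, .f
  1210 1 3] 168 136 [1, 1] [(168, 136, [1, 1])]) .no) .no (.br 1346 (.hor [.f 1345 1 5] []) .no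
  (.br 1347 (.br 1201 (.br 1202 (.hor [.f 1201 1 5] []) .no .no (.br 841 .no (.use 780) (.use 799)
  .no (.use 794) (.red [.t 960 3 2, .t 1080 2 3, .f 824 3 1, .f 832 1 3] 136 136 [] [(120, 136,
  [2]), (136, 136, [])])) (.red [.t 1082 4 1, .t 962 1 4, .f 947 1 3] 136 136 [] [(135, 136, [4]),
  (136, 136, []), (151, 135, [1])]) .no) .no .no (.hor [.f 1065 3 1, .f 1072 1 5] [(150, 118, [1,
  1])]) (.use 776) .no) .no (.hor [.f 1346 3 5] []) (.red [.f 1081 3 1, .f 1081 1 3, .t 1338 2 3]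
  168 136 [1, 1] [(168, 136, [1, 1])]) .no .no) .no (.red [.f 1081 3 1, .f 1081 1 3, .f 1218 5 1,
  .f 1210 1 3] 168 136 [1, 1] [(168, 136, [1, 1])]) .no) .no) .no) .no (.use 777) (.red [.f 1081 3
  1, .f 1081 1 3, .f 1209 3 1] 168 136 [1, 1] [(168, 136, [1, 1])]) (.red [.f 1081 3 1, .f 1081 1
  3, .t 1209 3 1] 168 136 [1, 1] [(168, 136, [1, 1])]) (.red [.f 1081 3 1, .f 1081 1 3, .t 1208 1
  3] 168 136 [1, 1] [(168, 136, [1, 1])])) .no

def c28l28 : List Tr4 :=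
  [c28t780, c28t781, c28t782, c28t783, c28t784, c28t785, c28t786, c28t787, c28t788, c28t789,
  c28t790, c28t791, c28t792, c28t793, c28t794, c28t795, c28t796, c28t797, c28t798, c28t799,
  c28t800, c28t801, c28t802, c28t803, c28t804, c28t805, c28t806, c28t807, c28t808, c28t809,
  c28t810]

theorem c28k28 : chkLF ⟨4, 1, 0, true, -8⟩ false 8 c28N 780 c28l28 = true := by decide +kernel

def c28t811 : Tr4 :=
  .br 947 .no (.br 818 .no (.br 816 (.br 817 .no (.hor [.f 689 1 5] []) .no (.con 136 [2, 4, 2,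
  4]) .no .no) (.con 136 [2, 4, 4]) .no (.con 136 [2, 4, 4]) (.con 136 [2, 4, 4]) .no) .no (.red
  [.f 810 3 1, .f 818 1 5] 118 136 [2, 4, 4] [(118, 136, [2, 4, 4])]) .no (.red [.t 953 4 2] 119
  136 [2, 4] [(119, 136, [2, 4])])) .no (.hor [.f 938 3 5] []) .no .no

def c28t812 : Tr4 :=
  .br 1337 (.red [.f 1200 1 3, .f 1337 1 3, .f 1209 3 1] 168 136 [1, 1] [(167, 168, [4]), (168,
  136, [1, 1]), (184, 136, [1, 1, 1])]) .no .no (.hor [.f 1200 1 3, .f 1328 3 5] [(167, 168,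
  [4])]) .no .no

def c28t813 : Tr4 :=
  .br 1209 (.hor [.f 1208 1 5] []) .no (.br 1210 (.br 1218 (.red [.f 1210 1 3, .f 1209 3 5] 168
  136 [1, 1] [(168, 136, [1, 1])]) .no (.use 775) .no (.br 1345 (.br 1200 (.use 812) .no .no (.hor
  [.f 1064 3 1, .f 1072 1 5] [(150, 136, [4, 4, 1])]) .no .no) .no (.use 777) (.red [.f 1081 3 1,
  .f 1081 1 3, .f 1209 3 1] 168 136 [1, 1] [(168, 136, [1, 1])]) (.red [.f 1081 3 1, .f 1081 1 3,
  .t 1209 3 1] 168 136 [1, 1] [(168, 136, [1, 1])]) (.red [.f 1081 3 1, .f 1081 1 3, .t 1208 1 3]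
  168 136 [1, 1] [(168, 136, [1, 1])])) .no) .no (.hor [.f 1209 3 5] []) (.red [.f 1074 3 1, .f
  1082 1 5, .t 962 1 4, .f 947 1 3] 136 136 [] [(135, 136, [4]), (136, 136, []), (151, 135, [1])])
  .no .no) .no (.red [.t 1073 1 3, .f 1082 1 5, .t 962 1 4, .f 947 1 3] 136 136 [] [(135, 136,
  [4]), (136, 136, []), (151, 135, [1])]) .no

def c28t814 : Tr4 :=
  .br 1073 (.use 813) .no .no (.hor [.f 1064 3 5] []) .no .no

def c28t815 : Tr4 :=
  .br 937 .no (.red [.t 936 3 2] 118 136 [2, 4, 4] [(118, 136, [2, 4, 4])]) .no (.br 939 (.hor [.f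
  939 1 3, .f 938 3 5] [(134, 118, [1])]) (.hor [.f 936 3 1, .f 929 3 1, .f 936 1 5] [(133, 118,
  [4, 1]), (134, 118, [1])]) .no (.hor [.f 936 3 1, .f 929 3 1, .f 936 1 5] [(133, 117, [1]),
  (134, 118, [1])]) .no .no) .no .no

def c28t816 : Tr4 :=
  .br 944 .no (.use 712) .no (.br 816 .no (.use 713) .no (.red [.f 808 3 1] 118 136 [2, 4, 4]
  [(118, 136, [2, 4, 4])]) (.br 1065 (.hor [.f 1065 1 3, .f 1064 3 5] [(150, 136, [4, 4, 1])])
  (.hor [.f 936 3 1, .f 936 1 5] [(134, 118, [1])]) .no (.use 815) (.br 696 .no (.br 937 .no (.red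
  [.t 936 3 2] 118 136 [2, 4, 4] [(118, 136, [2, 4, 4])]) .no (.br 819 .no (.hor [.f 690 1 5] [])
  (.br 939 (.red [.f 939 1 3, .f 938 3 5, .t 826 1 4] 119 136 [2, 4] [(119, 136, [2, 4]), (134,
  118, [1])]) (.use 716) .no (.br 809 .no (.use 717) .no (.red [.f 801 3 1] 117 136 [2, 4, 4, 4]
  [(117, 136, [2, 4, 4, 4])]) (.use 718) (.red [.f 808 5 3, .f 808 3 1] 118 136 [2, 4, 4] [(118,
  136, [2, 4, 4])])) .no .no) (.con 136 [2, 4, 2, 4]) .no .no) .no .no) (.red [.f 696 3 1, .f 696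
  1 5, .f 816 5 3, .f 817 3 1, .f 825 1 3, .t 832 2 4] 119 136 [2, 4] [(119, 136, [2, 4]), (120,
  136, [2])]) (.red [.t 696 4 1, .f 817 3 1, .f 825 1 5] 119 136 [2, 4] [(103, 136, [2, 2, 4]),
  (119, 136, [2, 4])]) .no .no) .no) .no) .no .no

def c28t817 : Tr4 :=
  .br 939 (.red [.f 939 1 3, .f 938 3 5, .f 818 5 1, .f 818 1 3] 119 136 [2, 4] [(119, 136, [2,
  4]), (134, 118, [1])]) (.red [.t 938 3 2, .f 818 1 3] 119 136 [2, 4] [(118, 136, [2, 4, 4]),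
  (119, 136, [2, 4])]) .no (.br 1067 (.br 1339 (.hor [.f 1338 1 5] []) .no .no (.br 1202 (.con 136
  [4, 1, 1, 4, 2, 2, 3, 2]) .no .no (.con 136 [4, 1, 1, 4, 2, 2, 3, 2]) (.red [.t 1082 4 1, .t 962
  1 4, .f 947 1 3] 136 136 [] [(135, 136, [4]), (136, 136, []), (151, 135, [1])]) .no) .no .no)
  .no .no (.red [.f 931 3 1, .f 939 1 3, .f 938 3 5, .f 818 5 1, .f 818 1 3] 119 136 [2, 4] [(119,
  136, [2, 4]), (133, 119, [1, 4, 4]), (134, 118, [1])]) .no (.red [.t 946 4 1, .f 818 5 1, .f 818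
  1 3] 119 136 [2, 4] [(119, 136, [2, 4]), (134, 118, [1])])) .no .no

def c28t818 : Tr4 :=
  .br 817 .no (.red [.f 689 1 3] 103 136 [2, 4, 2] [(103, 136, [2, 4, 2])]) .no (.use 738) .no .no

def c28t819 : Tr4 :=
  .br 810 .no (.hor [.f 682 1 5] []) .no (.br 808 .no (.br 682 .no (.use 721) .no (.red [.f 674 3
  1, .f 682 1 5] 101 136 [2, 4, 2, 4, 4] [(101, 136, [2, 4, 2, 4, 4])]) .no (.hor [.f 681 5 3, .f
  681 3 1, .f 680 1 5, .t 682 3 1, .f 689 1 5] [])) .no (.con 136 [2, 4, 2, 4, 4]) .no .no) .no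
  .no

def c28t820 : Tr4 :=
  .br 689 .no (.use 707) .no (.red [.f 681 3 1, .f 689 1 3] 103 136 [2, 2, 4] [(102, 136, [2, 2,
  4, 4]), (103, 136, [2, 2, 4])]) (.use 819) .no

def c28t821 : Tr4 :=
  .br 696 .no (.use 787) .no (.use 820) .no .no

def c28t822 : Tr4 :=
  .br 817 .no (.red [.f 689 1 3] 103 136 [2, 2, 4] [(103, 136, [2, 2, 4])]) .no (.br 811 .no (.use
  821) .no (.red [.f 803 3 1, .t 938 3 2, .f 818 1 3] 119 136 [2, 4] [(117, 136, [2, 4, 4, 4]),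
  (118, 136, [2, 4, 4]), (119, 136, [2, 4])]) .no (.red [.f 810 5 3, .f 809 3 5, .t 953 4 2] 119
  136 [2, 4] [(119, 136, [2, 4])])) .no .no

def c28t823 : Tr4 :=
  .br 698 .no (.br 936 .no (.use 818) .no (.use 822) .no .no) .no (.red [.t 698 4 1] 103 136 [2,
  2, 4] [(103, 136, [2, 2, 4])]) .no .no

def c28t824 : Tr4 :=
  .br 817 .no (.red [.f 689 1 3, .f 688 3 5] 103 136 [2, 2, 4] [(103, 136, [2, 2, 4])]) .no (.br
  811 .no (.use 820) .no (.red [.f 803 3 1, .t 938 3 2, .f 818 1 3] 119 136 [2, 4] [(117, 136, [2,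
  4, 4, 4]), (118, 136, [2, 4, 4]), (119, 136, [2, 4])]) .no (.red [.f 810 5 3, .f 809 3 5, .t 953
  4 2] 119 136 [2, 4] [(119, 136, [2, 4])])) .no .no

def c28t825 : Tr4 :=
  .br 698 .no (.use 822) (.br 705 .no (.br 817 .no (.red [.f 689 1 3] 103 136 [2, 2, 4] [(103,
  136, [2, 2, 4])]) .no (.br 811 .no (.br 689 .no (.use 735) .no (.red [.f 681 3 1, .f 689 1 3]
  103 136 [2, 2, 4] [(102, 136, [2, 2, 4, 4]), (103, 136, [2, 2, 4])]) (.use 819) (.use 737)) .no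
  (.red [.f 803 3 1, .t 938 3 2, .f 818 1 3] 119 136 [2, 4] [(117, 136, [2, 4, 4, 4]), (118, 136,
  [2, 4, 4]), (119, 136, [2, 4])]) .no (.red [.f 810 5 3, .f 809 3 5, .t 953 4 2] 119 136 [2, 4]
  [(119, 136, [2, 4])])) .no .no) .no .no .no .no) (.red [.t 698 4 1] 103 136 [2, 2, 4] [(103,
  136, [2, 2, 4])]) .no .no

def c28t826 : Tr4 :=
  .br 817 .no (.red [.f 689 1 3] 103 136 [2, 2, 4] [(103, 136, [2, 2, 4])]) .no (.br 811 .no (.br
  698 .no (.br 696 .no (.use 787) .no (.use 820) .no .no) (.br 689 .no (.use 752) .no (.red [.f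
  681 3 1, .f 689 1 3] 103 136 [2, 2, 4] [(102, 136, [2, 2, 4, 4]), (103, 136, [2, 2, 4])]) (.use
  819) (.br 808 .no (.red [.t 808 2 3, .f 689 1 3] 103 136 [2, 2, 4] [(102, 136, [2, 2, 4, 4]),
  (103, 136, [2, 2, 4])]) .no (.br 810 .no (.hor [.f 682 1 5] []) .no (.con 136 [2, 2, 4, 4, 4])
  .no .no) .no .no)) (.red [.t 698 4 1] 103 136 [2, 2, 4] [(103, 136, [2, 2, 4])]) .no .no) .no
  (.red [.f 803 3 1, .t 938 3 2, .f 818 1 3] 119 136 [2, 4] [(117, 136, [2, 4, 4, 4]), (118, 136,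
  [2, 4, 4]), (119, 136, [2, 4])]) .no (.red [.f 810 5 3, .f 809 3 5, .t 953 4 2] 119 136 [2, 4]
  [(119, 136, [2, 4])])) .no .no

def c28t827 : Tr4 :=
  .br 1202 .no .no .no (.hor [.t 1201 2 4, .f 1064 3 5] [(150, 136, [4, 4, 1])]) (.red [.t 1082 4
  1, .t 962 1 4, .f 947 1 3] 136 136 [] [(135, 136, [4]), (136, 136, []), (151, 135, [1])]) .no

def c28t828 : Tr4 :=
  .br 1338 (.use 817) .no (.hor [.f 1210 3 1, .f 1209 1 5] [(168, 136, [1, 1])]) (.br 816 .no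
  (.use 727) .no (.red [.f 808 3 1] 118 136 [2, 4, 4] [(118, 136, [2, 4, 4])]) (.br 1065 (.hor [.f
  1065 1 3, .f 1064 3 5] [(150, 136, [4, 4, 1])]) (.hor [.f 936 3 1, .f 936 1 5] [(134, 118,
  [1])]) .no (.use 815) (.use 827) .no) .no) (.hor [.t 1218 4 1, .f 1209 1 5] [(168, 136, [1,
  1])]) .no

def c28t829 : Tr4 :=
  .br 818 .no (.use 816) .no (.red [.f 810 3 1, .f 818 1 3] 119 136 [2, 4] [(118, 136, [2, 4, 4]),
  (119, 136, [2, 4])]) (.br 944 .no (.br 1338 (.use 817) .no (.hor [.f 1210 3 1, .f 1209 1 5]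
  [(168, 136, [1, 1])]) (.br 1202 .no .no .no (.br 1066 .no .no .no (.br 1065 (.hor [.f 1065 1 3,
  .f 1064 3 5] [(150, 136, [4, 4, 1])]) (.br 939 (.red [.f 939 1 3, .f 938 3 5, .f 818 5 1, .f 818
  1 3] 119 136 [2, 4] [(119, 136, [2, 4]), (134, 133, [3])]) (.red [.t 938 3 2, .f 818 1 3] 119
  136 [2, 4] [(118, 136, [2, 4, 4]), (119, 136, [2, 4])]) .no (.br 827 .no (.br 834 .no (.br 835
  .no (.hor [.f 706 1 5] []) (.br 704 .no (.br 936 .no (.use 818) .no (.br 696 .no (.hor [.f 568 1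
  3, .f 696 3 1, .f 696 1 5] [(88, 103, [3, 2]), (104, 103, [3])]) .no (.br 698 .no (.use 824) .no
  (.red [.t 698 4 1] 103 136 [2, 2, 4] [(103, 136, [2, 2, 4])]) .no .no) .no .no) .no .no) (.use
  823) (.red [.f 696 3 1, .f 696 1 5, .t 944 2 3, .f 825 1 3, .t 832 2 4] 119 136 [2, 4] [(119,
  136, [2, 4]), (120, 136, [2])]) (.red [.t 824 3 2, .t 944 2 3, .f 825 1 5, .t 705 4 1] 119 136
  [2, 4] [(119, 136, [2, 4])]) .no) .no .no .no) .no .no (.br 936 .no (.use 818) .no (.br 841 .no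
  (.br 704 .no (.br 705 .no (.hor [.f 576 1 5] []) .no .no (.br 696 .no (.hor [.f 568 1 3, .f 696
  3 1, .f 696 1 5] [(88, 103, [3, 2]), (104, 103, [3])]) .no (.br 698 .no (.use 824) .no (.red [.t
  698 4 1] 103 136 [2, 2, 4] [(103, 136, [2, 2, 4])]) .no .no) .no .no) .no) (.use 825) (.red [.f
  696 3 1, .f 696 1 5, .t 944 2 3, .f 825 1 3, .t 832 2 4] 119 136 [2, 4] [(119, 136, [2, 4]),
  (120, 136, [2])]) (.red [.t 824 3 2, .t 944 2 3, .f 825 1 5] 119 136 [2, 4] [(104, 103, [3]),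
  (119, 136, [2, 4])]) .no) (.br 977 (.hor [.f 969 1 3, .f 841 3 1, .f 841 1 5] [(122, 120, [3,
  3]), (138, 136, [3, 3])]) .no (.br 704 .no (.use 826) (.use 750) (.red [.f 696 3 1, .f 696 1 5,
  .t 944 2 3, .f 825 1 3, .t 832 2 4] 119 136 [2, 4] [(119, 136, [2, 4]), (120, 136, [2])]) (.red
  [.t 824 3 2, .t 944 2 3, .f 825 1 5] 119 136 [2, 4] [(104, 103, [3]), (119, 136, [2, 4])]) .no)
  .no (.hor [.t 841 3 1, .f 970 3 5] [(122, 120, [3, 3])]) (.red [.t 1096 3 2, .t 1216 2 3, .f 960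
  3 1, .f 968 1 3] 153 136 [3, 1] [(137, 136, [3]), (153, 136, [3, 1])])) .no .no (.red [.t 960 3
  2, .t 1080 2 3, .f 824 3 1, .f 832 1 3] 136 136 [] [(120, 136, [2]), (136, 136, [])])) .no .no)
  .no) (.red [.f 827 3 1, .f 826 1 5, .f 818 5 3, .t 1074 3 2, .f 819 3 1, .f 827 1 3] 119 136 [2,
  4] [(119, 136, [2, 4]), (135, 136, [4])]) .no .no .no) .no .no) .no (.hor [.f 1057 3 5] []) .no
  .no) (.red [.t 946 4 1, .f 818 5 1, .f 818 1 3] 119 136 [2, 4] [(119, 136, [2, 4]), (134, 118,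
  [1])]) (.hor [.t 1201 2 4, .f 1064 3 5] [(150, 136, [4, 4, 1])])) (.red [.t 1082 4 1, .t 962 1
  4, .f 947 1 3] 136 136 [] [(135, 136, [4]), (136, 136, []), (151, 135, [1])]) .no) (.hor [.t
  1218 4 1, .f 1209 1 5] [(168, 136, [1, 1])]) .no) .no (.use 828) .no .no) (.red [.t 953 4 2] 119
  136 [2, 4] [(119, 136, [2, 4])])

def c28t830 : Tr4 :=
  .br 939 (.red [.f 939 1 3, .f 938 3 5, .f 818 5 1, .f 818 1 3] 119 136 [2, 4] [(119, 136, [2,
  4]), (134, 133, [3])]) (.red [.t 938 3 2, .f 818 1 3] 119 136 [2, 4] [(118, 136, [2, 4, 4]),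
  (119, 136, [2, 4])]) .no (.br 936 .no (.use 818) .no (.br 699 (.br 704 .no (.use 826) (.br 698
  .no (.use 822) (.use 757) (.red [.f 699 1 3, .f 699 3 1, .t 698 4 1] 103 136 [2, 2, 4] [(103,
  136, [2, 2, 4])]) .no .no) (.red [.f 696 3 1, .f 696 1 5, .t 944 2 3, .f 825 1 3, .t 832 2 4]
  119 136 [2, 4] [(119, 136, [2, 4]), (120, 136, [2])]) (.red [.t 824 3 2, .t 944 2 3, .f 825 1 5]
  119 136 [2, 4] [(104, 103, [3]), (119, 136, [2, 4])]) .no) (.con 136 [2, 4, 2, 3, 1, 4]) .no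
  (.con 136 [2, 4, 2, 3, 1, 4]) .no (.con 136 [2, 4, 2, 3, 1, 4])) .no .no) .no .no

def c28t831 : Tr4 :=
  .br 1202 .no .no .no (.br 1066 .no .no .no (.br 1065 (.hor [.f 1065 1 3, .f 1064 3 5] [(150,
  136, [4, 4, 1])]) (.use 830) .no (.hor [.f 1057 3 5] []) .no .no) (.red [.t 946 4 1, .f 818 5 1,
  .f 818 1 3] 119 136 [2, 4] [(119, 136, [2, 4]), (134, 118, [1])]) (.use 827)) (.red [.t 1082 4
  1, .t 962 1 4, .f 947 1 3] 136 136 [] [(135, 136, [4]), (136, 136, []), (151, 135, [1])]) .no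

def c28t832 : Tr4 :=
  .br 699 (.br 704 .no (.use 826) (.br 698 .no (.use 822) (.br 705 .no (.use 760) (.hor [.f 704 3
  5] []) .no .no .no) (.red [.t 698 4 1] 103 136 [2, 2, 4] [(103, 136, [2, 2, 4])]) .no .no) (.red
  [.f 696 3 1, .f 696 1 5, .t 944 2 3, .f 825 1 3, .t 832 2 4] 119 136 [2, 4] [(119, 136, [2, 4]),
  (120, 136, [2])]) (.red [.t 824 3 2, .t 944 2 3, .f 825 1 5] 119 136 [2, 4] [(104, 103, [3]),
  (119, 136, [2, 4])]) .no) (.con 136 [2, 4, 2, 3, 1, 4]) (.con 136 [2, 4, 2, 3, 1, 4]) (.con 136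
  [2, 4, 2, 3, 1, 4]) .no (.con 136 [2, 4, 2, 3, 1, 4])

def c28t833 : Tr4 :=
  .br 699 (.use 826) (.con 136 [2, 4, 2, 3, 1, 4]) (.con 136 [2, 4, 2, 3, 1, 4]) (.con 136 [2, 4,
  2, 3, 1, 4]) .no (.con 136 [2, 4, 2, 3, 1, 4])

def c28t834 : Tr4 :=
  .br 1209 (.br 1210 (.hor [.f 1209 1 5] []) .no (.br 1217 (.hor [.f 1209 1 3, .f 1209 3 5] [(168,
  136, [1, 1])]) .no (.br 1219 (.br 970 (.hor [.f 969 1 5] []) (.br 971 .no (.hor [.f 842 1 5] [])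
  (.use 829) .no .no .no) (.br 1098 (.br 818 .no (.use 816) .no (.red [.f 810 3 1, .f 818 1 3] 119
  136 [2, 4] [(118, 136, [2, 4, 4]), (119, 136, [2, 4])]) (.br 944 .no (.br 1338 (.use 817) .no
  (.red [.f 1210 3 1, .f 1218 1 5, .t 1098 1 4, .f 1083 1 3] 153 136 [3, 1] [(152, 136, [1]),
  (153, 136, [3, 1]), (168, 152, [1])]) (.br 971 .no (.br 835 .no (.use 831) .no (.red [.f 827 3
  1, .f 826 1 5, .f 818 5 3, .t 1074 3 2, .f 819 3 1, .f 827 1 3] 119 136 [2, 4] [(119, 136, [2,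
  4]), (135, 136, [4])]) .no (.br 1202 .no .no .no (.br 1066 .no .no .no (.br 1065 (.hor [.f 1065
  1 3, .f 1064 3 5] [(150, 136, [4, 4, 1])]) (.br 939 (.red [.f 939 1 3, .f 938 3 5, .f 818 5 1,
  .f 818 1 3] 119 136 [2, 4] [(119, 136, [2, 4]), (134, 133, [3])]) (.red [.t 938 3 2, .f 818 1 3]
  119 136 [2, 4] [(118, 136, [2, 4, 4]), (119, 136, [2, 4])]) .no (.br 936 .no (.use 818) .no (.br
  842 .no (.br 841 .no (.hor [.f 713 1 5] []) (.use 832) .no .no (.red [.t 960 3 2, .t 1080 2 3,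
  .f 824 3 1, .f 832 1 3] 136 136 [] [(120, 136, [2]), (136, 136, [])])) (.hor [.f 842 3 1, .f 842
  1 5] [(122, 136, [2, 3, 3])]) .no .no (.br 977 (.hor [.f 969 1 3, .f 969 3 5] [(138, 136, [3,
  3])]) (.hor [.t 977 2 4, .f 842 1 5] [(122, 136, [2, 3, 3])]) (.br 704 .no (.use 833) (.use 764)
  (.red [.f 696 3 1, .f 696 1 5, .t 944 2 3, .f 825 1 3, .t 832 2 4] 119 136 [2, 4] [(119, 136,
  [2, 4]), (120, 136, [2])]) (.red [.t 824 3 2, .t 944 2 3, .f 825 1 5] 119 136 [2, 4] [(104, 119,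
  [3, 2]), (119, 136, [2, 4])]) .no) .no .no (.red [.t 1096 3 2, .t 1216 2 3, .f 960 3 1, .f 968 1
  3] 153 136 [3, 1] [(137, 136, [3]), (153, 136, [3, 1])]))) .no .no) .no .no) .no (.hor [.f 1057
  3 5] []) .no .no) (.red [.t 946 4 1, .f 818 5 1, .f 818 1 3] 119 136 [2, 4] [(119, 136, [2, 4]),
  (134, 118, [1])]) (.use 827)) (.red [.t 1082 4 1, .t 962 1 4, .f 947 1 3] 136 136 [] [(135, 136,
  [4]), (136, 136, []), (151, 135, [1])]) .no)) (.hor [.f 970 3 5] []) .no .no .no) (.red [.t 1218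
  4 1, .t 1098 1 4, .f 1083 1 3] 153 136 [3, 1] [(152, 136, [1]), (153, 136, [3, 1]), (168, 152,
  [1])]) .no) .no (.use 828) .no .no) (.red [.t 953 4 2] 119 136 [2, 4] [(119, 136, [2, 4])])) .no
  (.hor [.f 970 3 1, .f 969 1 5] [(138, 154, [2])]) .no .no .no) .no (.red [.t 1090 2 3, .t 1210 3
  2, .f 955 3 1, .f 963 1 3] 136 136 [] [(136, 136, []), (152, 136, [1])]) .no) .no (.red [.f 1091
  3 1, .f 1083 1 3, .f 1210 3 5] 153 136 [3, 1] [(152, 136, [1]), (153, 136, [3, 1])]) .no .no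
  .no) .no .no .no) (.red [.f 1074 3 1, .f 1082 1 5, .t 962 1 4, .f 947 1 3] 136 136 [] [(135,
  136, [4]), (136, 136, []), (151, 167, [2])]) .no .no) .no (.br 1210 (.br 1218 (.red [.f 1210 1
  3, .f 1209 3 5] 168 136 [1, 1] [(168, 136, [1, 1])]) .no (.use 775) .no (.br 1098 (.red [.t 1098
  1 4, .f 1083 1 3] 153 136 [3, 1] [(152, 136, [1]), (153, 136, [3, 1])]) (.hor [.f 969 1 5] [])
  (.br 1226 (.br 1347 (.br 1346 (.hor [.f 1346 1 5] []) .no .no .no .no (.red [.f 1081 3 1, .f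
  1081 1 3, .t 1209 3 1] 168 136 [1, 1] [(168, 136, [1, 1])])) .no (.br 1224 (.con 136 [3, 1, 1,
  3]) .no (.red [.f 1096 3 1, .f 1088 1 3, .f 960 3 1, .f 968 1 5] 154 136 [3, 3, 1] [(137, 136,
  [3]), (153, 136, [3, 1]), (154, 136, [3, 3, 1])]) .no (.con 136 [3, 1, 1, 3]) .no) (.red [.f
  1081 3 1, .f 1081 1 3, .t 1338 2 3] 168 136 [1, 1] [(168, 136, [1, 1])]) .no (.red [.f 1081 3 1,
  .f 1081 1 3, .f 1218 5 1, .f 1210 1 3] 168 136 [1, 1] [(168, 136, [1, 1])])) .no (.red [.f 1098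
  3 1] 154 136 [3, 3, 1] [(154, 136, [3, 3, 1])]) .no (.red [.f 1218 5 3, .f 1091 3 1, .f 1083 1
  3] 153 136 [3, 1] [(152, 136, [1]), (153, 136, [3, 1])]) (.br 1224 (.br 1347 (.br 1346 (.hor [.f
  1346 1 5] []) .no (.br 1227 (.red [.t 1354 4 2] 169 136 [3, 1, 1] [(169, 136, [3, 1, 1])]) .no
  (.con 136 [3, 3, 1, 1]) .no .no .no) .no .no (.red [.f 1081 3 1, .f 1081 1 3, .t 1209 3 1] 168
  136 [1, 1] [(168, 136, [1, 1])])) .no (.con 136 [3, 1, 1, 3]) (.red [.f 1081 3 1, .f 1081 1 3,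
  .t 1338 2 3] 168 136 [1, 1] [(168, 136, [1, 1])]) .no (.red [.f 1081 3 1, .f 1081 1 3, .f 1218 5
  1, .f 1210 1 3] 168 136 [1, 1] [(168, 136, [1, 1])])) .no (.red [.f 1096 3 1, .f 1088 1 3, .f
  960 3 1, .f 968 1 5] 154 136 [3, 3, 1] [(137, 136, [3]), (153, 136, [3, 1]), (154, 136, [3, 3,
  1])]) .no .no .no)) .no .no .no) .no) .no (.hor [.f 1209 3 5] []) (.red [.f 1074 3 1, .f 1082 1
  5, .t 962 1 4, .f 947 1 3] 136 136 [] [(135, 136, [4]), (136, 136, []), (151, 167, [2])]) .no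
  .no) .no (.red [.t 1073 1 3, .f 1082 1 5, .t 962 1 4, .f 947 1 3] 136 136 [] [(135, 136, [4]),
  (136, 136, []), (151, 135, [1])]) .no

def c28l29 : List Tr4 :=
  [c28t811, c28t812, c28t813, c28t814, c28t815, c28t816, c28t817, c28t818, c28t819, c28t820,
  c28t821, c28t822, c28t823, c28t824, c28t825, c28t826, c28t827, c28t828, c28t829, c28t830,
  c28t831, c28t832, c28t833, c28t834]

theorem c28k29 : chkLF ⟨4, 1, 0, true, -8⟩ false 8 c28N 811 c28l29 = true := by decide +kernel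

def c28t835 : Tr4 :=
  .br 1218 (.red [.f 1210 1 3, .f 1209 3 5] 168 136 [1, 1] [(168, 136, [1, 1])]) .no (.use 775)
  .no (.br 1208 (.use 798) .no .no (.br 1346 (.br 1347 (.hor [.f 1346 1 5] []) .no (.br 1345 (.use
  797) .no (.con 136 [3, 1, 1, 1]) (.red [.f 1081 3 1, .f 1081 1 3, .f 1209 3 1] 168 136 [1, 1]
  [(168, 136, [1, 1])]) .no (.con 136 [3, 1, 1, 1])) (.red [.f 1081 3 1, .f 1081 1 3, .t 1338 2 3]
  168 136 [1, 1] [(168, 136, [1, 1])]) .no .no) .no (.use 796) .no (.red [.f 1081 3 1, .f 1081 1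
  3, .f 1218 5 1, .f 1210 1 3] 168 136 [1, 1] [(168, 136, [1, 1])]) (.red [.f 1081 3 1, .f 1081 1
  3, .t 1209 3 1] 168 136 [1, 1] [(168, 136, [1, 1])])) .no .no) .no

def c28t836 : Tr4 :=
  .br 816 .no (.use 727) .no (.red [.f 808 3 1] 118 136 [2, 4, 4] [(118, 136, [2, 4, 4])]) (.use
  815) .no

def c28t837 : Tr4 :=
  .br 1065 (.hor [.f 1065 1 3, .f 1064 3 5] [(150, 136, [4, 4, 1])]) (.hor [.f 936 3 1, .f 936 1
  5] [(134, 118, [1])]) .no (.use 836) (.hor [.t 1201 2 4, .f 1064 3 5] [(150, 136, [4, 4, 1])])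
  .no

def c28t838 : Tr4 :=
  .br 704 .no (.hor [.f 576 1 5] []) (.br 699 (.use 823) (.con 136 [2, 4, 2, 3, 1, 4]) (.con 136
  [2, 4, 2, 3, 1, 4]) (.con 136 [2, 4, 2, 3, 1, 4]) .no (.con 136 [2, 4, 2, 3, 1, 4])) (.red [.f
  696 3 1, .f 696 1 5, .t 944 2 3, .f 825 1 3, .t 832 2 4] 119 136 [2, 4] [(119, 136, [2, 4]),
  (120, 136, [2])]) .no .no

def c28t839 : Tr4 :=
  .br 939 (.red [.f 939 1 3, .f 938 3 5, .f 818 5 1, .f 818 1 3] 119 136 [2, 4] [(119, 136, [2,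
  4]), (134, 133, [3])]) (.red [.t 938 3 2, .f 818 1 3] 119 136 [2, 4] [(118, 136, [2, 4, 4]),
  (119, 136, [2, 4])]) .no (.br 841 .no (.br 705 .no (.use 838) .no .no .no (.red [.t 824 3 2, .t
  944 2 3, .f 825 1 5, .t 705 4 1] 119 136 [2, 4] [(119, 136, [2, 4])])) (.hor [.f 841 3 1, .f 833
  1 3, .f 960 3 5] [(121, 119, [3, 3]), (122, 119, [3, 3, 3])]) .no (.br 705 .no (.use 838) (.hor
  [.t 705 3 1, .f 834 3 5] [(105, 103, [3, 3])]) .no .no (.red [.t 824 3 2, .t 944 2 3, .f 825 1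
  5, .t 705 4 1] 119 136 [2, 4] [(119, 136, [2, 4])])) (.red [.t 960 3 2, .t 1080 2 3, .f 824 3 1,
  .f 832 1 3] 136 136 [] [(120, 136, [2]), (136, 136, [])])) .no .no

def c28t840 : Tr4 :=
  .br 1066 .no .no .no (.br 1065 (.hor [.f 1065 1 3, .f 1064 3 5] [(150, 136, [4, 4, 1])]) (.use
  839) .no (.hor [.f 1057 3 5] []) .no .no) (.red [.t 946 4 1, .f 818 5 1, .f 818 1 3] 119 136 [2,
  4] [(119, 136, [2, 4]), (134, 118, [1])]) (.hor [.t 1201 2 4, .f 1064 3 5] [(150, 136, [4, 4,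
  1])])

def c28t841 : Tr4 :=
  .br 939 (.red [.f 939 1 3, .f 938 3 5, .f 818 5 1, .f 818 1 3] 119 136 [2, 4] [(119, 136, [2,
  4]), (134, 133, [3])]) (.red [.t 938 3 2, .f 818 1 3] 119 136 [2, 4] [(118, 136, [2, 4, 4]),
  (119, 136, [2, 4])]) .no (.br 936 .no (.use 818) .no (.br 704 .no (.use 833) (.br 699 (.use 825)
  (.con 136 [2, 4, 2, 3, 1, 4]) (.con 136 [2, 4, 2, 3, 1, 4]) (.con 136 [2, 4, 2, 3, 1, 4]) .no
  (.con 136 [2, 4, 2, 3, 1, 4])) (.red [.f 696 3 1, .f 696 1 5, .t 944 2 3, .f 825 1 3, .t 832 2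
  4] 119 136 [2, 4] [(119, 136, [2, 4]), (120, 136, [2])]) (.red [.t 824 3 2, .t 944 2 3, .f 825 1
  5] 119 136 [2, 4] [(104, 119, [3, 2]), (119, 136, [2, 4])]) .no) .no .no) .no .no

def c28t842 : Tr4 :=
  .br 1202 .no .no .no (.br 1066 .no .no .no (.br 1065 (.hor [.f 1065 1 3, .f 1064 3 5] [(150,
  136, [4, 4, 1])]) (.use 841) .no (.hor [.f 1057 3 5] []) .no .no) (.red [.t 946 4 1, .f 818 5 1,
  .f 818 1 3] 119 136 [2, 4] [(119, 136, [2, 4]), (134, 118, [1])]) (.use 827)) (.red [.t 1082 4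
  1, .t 962 1 4, .f 947 1 3] 136 136 [] [(135, 136, [4]), (136, 136, []), (151, 135, [1])]) .no

def c28t843 : Tr4 :=
  .br 939 (.red [.f 939 1 3, .f 938 3 5, .f 818 5 1, .f 818 1 3] 119 136 [2, 4] [(119, 136, [2,
  4]), (134, 118, [1])]) (.red [.t 938 3 2, .f 818 1 3] 119 136 [2, 4] [(118, 136, [2, 4, 4]),
  (119, 136, [2, 4])]) .no (.br 705 .no (.br 704 .no (.hor [.f 576 1 5] []) (.br 699 (.br 698 .no
  (.br 817 .no (.red [.f 689 1 3] 103 136 [2, 2, 4] [(103, 136, [2, 2, 4])]) .no (.br 936 .no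
  (.use 738) .no (.br 811 .no (.use 821) .no (.red [.f 803 3 1, .t 938 3 2, .f 818 1 3] 119 136
  [2, 4] [(117, 136, [2, 4, 4, 4]), (118, 136, [2, 4, 4]), (119, 136, [2, 4])]) .no (.red [.f 810
  5 3, .f 809 3 5, .t 953 4 2] 119 136 [2, 4] [(119, 136, [2, 4])])) (.br 696 .no (.use 788) .no
  (.red [.t 816 1 4, .t 696 4 1] 103 136 [2, 2, 4] [(103, 136, [2, 2, 4]), (118, 102, [1])]) .no
  .no) .no) .no .no) .no (.red [.t 698 4 1] 103 136 [2, 2, 4] [(103, 136, [2, 2, 4])]) .no .no)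
  (.con 136 [2, 4, 2, 3, 1, 4]) (.con 136 [2, 4, 2, 3, 1, 4]) (.con 136 [2, 4, 2, 3, 1, 4]) .no
  (.con 136 [2, 4, 2, 3, 1, 4])) (.red [.f 696 3 1, .f 696 1 5, .t 944 2 3, .f 825 1 3, .t 832 2
  4] 119 136 [2, 4] [(119, 136, [2, 4]), (120, 136, [2])]) .no .no) .no .no .no (.red [.t 824 3 2,
  .t 944 2 3, .f 825 1 5, .t 705 4 1] 119 136 [2, 4] [(119, 136, [2, 4])])) .no .no

def c28t844 : Tr4 :=
  .br 939 (.red [.f 939 1 3, .f 938 3 5, .f 818 5 1, .f 818 1 3] 119 136 [2, 4] [(119, 136, [2,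
  4]), (134, 118, [1])]) (.red [.t 938 3 2, .f 818 1 3] 119 136 [2, 4] [(118, 136, [2, 4, 4]),
  (119, 136, [2, 4])]) .no (.use 728) .no .no

def c28t845 : Tr4 :=
  .br 1210 (.br 1209 (.hor [.f 1209 1 5] []) .no (.use 835) .no .no (.br 835 .no (.br 834 .no
  (.hor [.f 706 1 5] []) (.br 970 .no .no (.hor [.f 969 3 5] []) .no (.br 841 .no (.br 944 .no
  (.use 758) .no (.br 1202 (.hor [.f 1202 1 3, .f 1074 3 1, .f 1073 1 5] [(151, 119, [1, 1]),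
  (167, 119, [1, 1, 1])]) .no .no (.use 837) (.red [.t 1090 2 3, .t 970 4 1, .t 1082 4 1, .t 962 1
  4, .f 947 1 3] 136 136 [] [(135, 136, [4]), (136, 136, []), (151, 135, [1])]) .no) .no .no)
  (.hor [.f 841 3 1, .f 833 1 3, .f 833 3 5] [(121, 119, [3, 3]), (122, 119, [3, 3, 3])]) .no .no
  (.red [.t 960 3 2, .t 1080 2 3, .f 824 3 1, .f 832 1 3] 136 136 [] [(120, 136, [2]), (136, 136,
  [])])) .no) .no .no .no) (.br 834 .no (.br 1202 (.hor [.f 1202 1 3, .f 1074 3 1, .f 1073 1 5]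
  [(151, 119, [1, 1]), (167, 119, [1, 1, 1])]) .no .no (.br 944 .no (.use 840) .no (.use 837) .no
  .no) (.red [.t 1082 4 1, .t 962 1 4, .f 947 1 3] 136 136 [] [(135, 136, [4]), (136, 136, []),
  (151, 135, [1])]) .no) (.hor [.f 834 3 5] []) .no .no .no) (.red [.f 827 3 1, .f 826 1 5, .f 818
  5 3, .t 1074 3 2, .f 819 3 1, .f 827 1 3] 119 136 [2, 4] [(119, 136, [2, 4]), (135, 136, [4])])
  .no (.red [.t 1088 1 4, .t 954 2 3, .t 1074 3 2, .f 954 1 3, .f 826 3 1] 136 136 [] [(135, 136,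
  [4]), (136, 136, []), (152, 136, [1])]))) .no (.br 970 .no (.br 1219 (.br 841 .no (.br 1209 (.br
  1208 (.use 813) .no .no (.br 944 .no (.br 1338 (.use 817) .no (.hor [.f 1210 3 1, .f 1209 1 5]
  [(168, 136, [1, 1])]) (.br 835 .no (.use 831) (.br 1202 .no .no .no (.br 706 (.use 840) (.con
  136 [2, 2, 3, 1, 4, 4]) (.con 136 [2, 2, 3, 1, 4, 4]) (.con 136 [2, 2, 3, 1, 4, 4]) (.con 136
  [2, 2, 3, 1, 4, 4]) (.con 136 [2, 2, 3, 1, 4, 4])) (.red [.t 1082 4 1, .t 962 1 4, .f 947 1 3]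
  136 136 [] [(135, 136, [4]), (136, 136, []), (151, 135, [1])]) .no) (.red [.f 827 3 1, .f 826 1
  5, .f 818 5 3, .t 1074 3 2, .f 819 3 1, .f 827 1 3] 119 136 [2, 4] [(119, 136, [2, 4]), (135,
  136, [4])]) .no (.use 842)) (.hor [.t 1218 4 1, .f 1209 1 5] [(168, 136, [1, 1])]) .no) .no
  (.use 828) .no .no) .no .no) .no (.hor [.f 1209 3 5] []) .no .no (.br 834 .no (.br 835 .no (.hor
  [.f 706 1 5] []) (.br 944 .no (.use 843) .no (.use 844) .no .no) (.red [.f 827 3 1, .f 826 1 5,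
  .f 818 5 3, .t 1074 3 2, .f 819 3 1, .f 827 1 3] 119 136 [2, 4] [(119, 136, [2, 4]), (135, 136,
  [4])]) .no .no) .no .no (.red [.t 1088 1 4, .t 954 2 3, .t 1074 3 2, .f 954 1 3, .f 826 3 1] 136
  136 [] [(135, 136, [4]), (136, 136, []), (152, 136, [1])]) .no)) (.hor [.f 841 3 1, .f 841 1 5]
  [(122, 119, [3, 3, 3])]) .no .no (.red [.t 960 3 2, .t 1080 2 3, .f 824 3 1, .f 832 1 3] 136 136
  [] [(120, 136, [2]), (136, 136, [])])) .no (.red [.f 1091 3 1, .f 1083 1 3, .f 1210 3 5] 153 136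
  [3, 1] [(152, 136, [1]), (153, 136, [3, 1])]) .no .no .no) (.use 600) .no (.red [.t 1090 2 3, .t
  1210 3 2, .f 955 3 1, .f 963 1 3] 136 136 [] [(136, 136, []), (152, 136, [1])]) .no) (.red [.f
  1074 3 1, .f 1082 1 5, .t 962 1 4, .f 947 1 3] 136 136 [] [(135, 136, [4]), (136, 136, []),
  (151, 135, [1])]) .no (.red [.t 1073 1 3, .f 1082 1 5, .t 962 1 4, .f 947 1 3] 136 136 [] [(135,
  136, [4]), (136, 136, []), (151, 135, [1])])

def c28t846 : Tr4 :=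
  .br 841 .no (.use 843) (.br 842 .no (.hor [.f 706 1 3, .f 834 3 5] [(105, 103, [3, 3])]) (.hor
  [.f 841 3 5] []) .no .no .no) .no (.red [.f 841 5 1, .f 833 1 3, .f 960 3 5, .t 1080 2 3] 136
  136 [] [(121, 119, [3, 3]), (136, 136, [])]) (.red [.t 960 3 2, .t 1080 2 3, .f 824 3 1, .f 832
  1 3] 136 136 [] [(120, 136, [2]), (136, 136, [])])

def c28t847 : Tr4 :=
  .br 835 .no (.hor [.f 706 1 5] []) (.br 944 .no (.use 846) .no (.use 844) .no .no) (.red [.f 827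
  3 1, .f 826 1 5, .f 818 5 3, .t 1074 3 2, .f 819 3 1, .f 827 1 3] 119 136 [2, 4] [(119, 136, [2,
  4]), (135, 136, [4])]) .no .no

def c28t848 : Tr4 :=
  .br 834 .no (.use 847) (.hor [.t 833 1 3, .f 960 3 5] [(121, 119, [3, 3])]) .no (.red [.t 1088 1
  4, .t 954 2 3, .t 1074 3 2, .f 954 1 3, .f 826 3 1] 136 136 [] [(135, 136, [4]), (136, 136, []),
  (152, 136, [1])]) .no

def c28t849 : Tr4 :=
  .br 939 (.red [.f 939 1 3, .f 938 3 5, .f 818 5 1, .f 818 1 3] 119 136 [2, 4] [(119, 136, [2,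
  4]), (134, 133, [3])]) (.red [.t 938 3 2, .f 818 1 3] 119 136 [2, 4] [(118, 136, [2, 4, 4]),
  (119, 136, [2, 4])]) .no (.br 936 .no (.use 818) .no (.br 971 .no (.use 832) (.br 704 .no (.use
  833) (.br 699 (.br 698 .no (.use 822) (.br 705 .no (.br 713 .no (.hor [.f 577 1 3, .t 698 3 1,
  .f 706 1 3, .f 705 3 5] [(89, 103, [3, 2, 3]), (104, 103, [3]), (105, 103, [3, 3])]) (.br 843
  .no (.hor [.f 714 1 5] []) (.hor [.f 713 3 1, .f 713 1 5] [(106, 136, [2, 2, 3, 3])]) .no .no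
  .no) .no .no .no) (.hor [.f 704 3 5] []) .no .no .no) (.red [.t 698 4 1] 103 136 [2, 2, 4]
  [(103, 136, [2, 2, 4])]) .no .no) (.con 136 [2, 4, 2, 3, 1, 4]) (.con 136 [2, 4, 2, 3, 1, 4])
  (.con 136 [2, 4, 2, 3, 1, 4]) .no (.con 136 [2, 4, 2, 3, 1, 4])) (.red [.f 696 3 1, .f 696 1 5,
  .t 944 2 3, .f 825 1 3, .t 832 2 4] 119 136 [2, 4] [(119, 136, [2, 4]), (120, 136, [2])]) (.red
  [.t 824 3 2, .t 944 2 3, .f 825 1 5] 119 136 [2, 4] [(104, 119, [3, 2]), (119, 136, [2, 4])])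
  .no) .no .no .no) .no .no) .no .no

def c28t850 : Tr4 :=
  .br 1097 (.use 703) (.br 1208 (.use 814) .no .no (.br 1073 (.use 834) .no .no (.hor [.f 1064 3
  5] []) .no .no) (.red [.t 1088 1 4, .t 968 4 1, .f 952 1 3] 136 136 [] [(136, 136, []), (137,
  136, [3]), (152, 136, [1])]) .no) (.hor [.f 1096 3 5] []) .no (.br 969 .no (.hor [.f 833 1 3, .f
  960 3 5] [(121, 119, [3, 3])]) (.br 1073 (.br 818 .no (.use 816) .no (.red [.f 810 3 1, .f 818 1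
  3] 119 136 [2, 4] [(118, 136, [2, 4, 4]), (119, 136, [2, 4])]) (.use 845) (.red [.t 953 4 2] 119
  136 [2, 4] [(119, 136, [2, 4])])) .no .no (.hor [.f 1064 3 5] []) .no .no) .no (.br 1073 (.br
  818 .no (.use 816) .no (.red [.f 810 3 1, .f 818 1 3] 119 136 [2, 4] [(118, 136, [2, 4, 4]),
  (119, 136, [2, 4])]) (.br 1210 (.br 1209 (.hor [.f 1209 1 5] []) .no (.use 835) .no .no (.use
  848)) .no (.br 1209 (.br 834 .no (.use 847) (.hor [.t 833 1 3, .f 960 3 5] [(121, 119, [3, 3])])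
  .no (.br 1219 (.br 1208 (.use 813) .no .no (.br 944 .no (.br 1338 (.use 817) .no (.hor [.f 1210
  3 1, .f 1209 1 5] [(168, 136, [1, 1])]) (.br 841 .no (.use 842) (.br 842 .no (.br 1202 .no .no
  .no (.br 1066 .no .no .no (.br 1065 (.hor [.f 1065 1 3, .f 1064 3 5] [(150, 136, [4, 4, 1])])
  (.use 849) .no (.hor [.f 1057 3 5] []) .no .no) (.red [.t 946 4 1, .f 818 5 1, .f 818 1 3] 119
  136 [2, 4] [(119, 136, [2, 4]), (134, 118, [1])]) (.use 827)) (.red [.t 1082 4 1, .t 962 1 4, .f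
  947 1 3] 136 136 [] [(135, 136, [4]), (136, 136, []), (151, 135, [1])]) .no) (.hor [.f 841 3 5]
  []) .no (.red [.f 834 5 3, .t 833 1 3, .f 960 3 5, .t 1080 2 3] 136 136 [] [(121, 119, [3, 3]),
  (136, 136, [])]) .no) .no (.red [.f 841 5 1, .f 833 1 3, .f 960 3 5, .t 1080 2 3] 136 136 []
  [(121, 119, [3, 3]), (136, 136, [])]) (.red [.t 960 3 2, .t 1080 2 3, .f 824 3 1, .f 832 1 3]
  136 136 [] [(120, 136, [2]), (136, 136, [])])) (.hor [.t 1218 4 1, .f 1209 1 5] [(168, 136, [1,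
  1])]) .no) .no (.use 828) .no .no) .no .no) .no (.red [.f 1091 3 1, .f 1083 1 3, .f 1210 3 5]
  153 136 [3, 1] [(152, 136, [1]), (153, 136, [3, 1])]) .no .no .no) .no) .no (.hor [.f 1209 3 5]
  []) .no .no (.use 848)) (.red [.f 1074 3 1, .f 1082 1 5, .t 962 1 4, .f 947 1 3] 136 136 []
  [(135, 136, [4]), (136, 136, []), (151, 135, [1])]) .no (.red [.t 1073 1 3, .f 1082 1 5, .t 962
  1 4, .f 947 1 3] 136 136 [] [(135, 136, [4]), (136, 136, []), (151, 135, [1])])) (.red [.t 953 4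
  2] 119 136 [2, 4] [(119, 136, [2, 4])])) .no .no (.hor [.f 1064 3 5] []) .no .no) .no) .no

def c28t851 : Tr4 :=
  .br 1210 (.hor [.f 1209 1 5] []) .no .no (.red [.f 1074 3 1, .f 1082 1 5, .t 962 1 4, .f 947 1
  3] 136 136 [] [(135, 136, [4]), (136, 136, []), (151, 135, [1])]) .no .no

def c28t852 : Tr4 :=
  .br 976 .no (.br 841 .no (.br 842 .no (.con 136 [2, 3, 3, 2, 4, 4, 1, 1]) (.con 136 [2, 3, 3, 2,
  4, 4, 1, 1]) .no .no .no) (.br 842 .no (.con 136 [2, 3, 3, 2, 4, 4, 1, 1]) (.con 136 [2, 3, 3,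
  2, 4, 4, 1, 1]) .no .no .no) .no (.con 136 [2, 3, 3, 2, 4, 4, 1, 1]) (.red [.t 960 3 2, .t 1080
  2 3, .f 824 3 1, .f 832 1 3] 136 136 [] [(120, 136, [2]), (136, 136, [])])) (.red [.f 976 3 1,
  .t 976 1 4] 138 136 [3, 3] [(138, 136, [3, 3]), (139, 136, [3, 3, 3])]) .no .no .no

def c28t853 : Tr4 :=
  .br 1346 (.br 1345 (.hor [.f 1345 1 5] []) .no (.con 136 [3, 1, 1, 1]) (.red [.f 1081 3 1, .f
  1081 1 3, .f 1209 3 1] 168 136 [1, 1] [(168, 136, [1, 1])]) .no (.con 136 [3, 1, 1, 1])) .no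
  (.hor [.f 1346 3 5] []) .no .no (.red [.f 1081 3 1, .f 1081 1 3, .t 1209 3 1] 168 136 [1, 1]
  [(168, 136, [1, 1])])

def c28t854 : Tr4 :=
  .br 1347 (.br 1339 (.red [.f 1339 1 3, .t 1338 2 3] 168 136 [1, 1] [(168, 136, [1, 1]), (184,
  136, [1, 1, 1])]) .no .no (.br 939 (.red [.f 939 1 3, .f 938 3 5, .f 818 5 1, .f 818 1 3] 119
  136 [2, 4] [(119, 136, [2, 4]), (134, 118, [1])]) (.red [.t 938 3 2, .f 818 1 3] 119 136 [2, 4]
  [(118, 136, [2, 4, 4]), (119, 136, [2, 4])]) .no (.br 1065 (.hor [.f 1065 1 3, .f 1064 3 5]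
  [(150, 136, [4, 4, 1])]) (.br 1066 (.br 1067 (.con 136 [4, 1, 1, 4, 2, 2, 2, 3]) .no .no (.red
  [.f 931 3 1, .f 939 1 3, .f 938 3 5, .f 818 5 1, .f 818 1 3] 119 136 [2, 4] [(119, 136, [2, 4]),
  (133, 149, [2]), (134, 118, [1])]) .no .no) .no .no (.br 1067 (.con 136 [4, 1, 1, 4, 2, 2, 2,
  3]) .no .no (.hor [.f 1058 3 5] []) .no .no) (.red [.t 946 4 1, .f 818 5 1, .f 818 1 3] 119 136
  [2, 4] [(119, 136, [2, 4]), (134, 118, [1])]) .no) .no (.br 1066 (.br 1067 (.hor [.f 1066 1 5]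
  []) .no .no (.hor [.f 931 3 1, .f 939 1 3, .f 938 3 5] [(133, 149, [2]), (134, 119, [4, 1])])
  .no .no) .no .no (.hor [.f 1057 3 5] []) (.red [.t 946 4 1, .f 818 5 1, .f 818 1 3] 119 136 [2,
  4] [(119, 136, [2, 4]), (134, 118, [1])]) .no) (.br 1067 (.con 136 [4, 1, 1, 4, 2, 2, 2, 3]) .no
  .no (.hor [.f 931 3 1, .f 939 1 3, .f 938 3 5] [(133, 119, [4, 1, 4]), (134, 119, [4, 1])]) .no
  .no) .no) .no .no) .no .no) .no (.use 853) (.red [.f 1081 3 1, .f 1081 1 3, .t 1338 2 3] 168 136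
  [1, 1] [(168, 136, [1, 1])]) .no (.red [.f 1081 3 1, .f 1081 1 3, .f 1218 5 1, .f 1210 1 3] 168
  136 [1, 1] [(168, 136, [1, 1])])

def c28t855 : Tr4 :=
  .br 834 .no (.use 839) (.hor [.f 834 3 5] []) .no .no .no

def c28l30 : List Tr4 :=
  [c28t835, c28t836, c28t837, c28t838, c28t839, c28t840, c28t841, c28t842, c28t843, c28t844,
  c28t845, c28t846, c28t847, c28t848, c28t849, c28t850, c28t851, c28t852, c28t853, c28t854,
  c28t855]

theorem c28k30 : chkLF ⟨4, 1, 0, true, -8⟩ false 8 c28N 835 c28l30 = true := by decide +kernel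

def c28t856 : Tr4 :=
  .br 1066 .no .no .no (.br 1065 (.hor [.f 1065 1 3, .f 1064 3 5] [(150, 136, [4, 4, 1])]) (.br
  1347 (.br 835 .no (.use 830) (.use 855) (.red [.f 827 3 1, .f 826 1 5, .f 818 5 3, .t 1074 3 2,
  .f 819 3 1, .f 827 1 3] 119 136 [2, 4] [(119, 136, [2, 4]), (135, 136, [4])]) .no (.br 971 .no
  (.br 1346 (.hor [.f 1346 1 5] []) .no (.br 1227 (.red [.t 1354 4 2] 169 136 [3, 1, 1] [(169,
  136, [3, 1, 1])]) .no (.br 939 (.red [.f 939 1 3, .f 938 3 5, .f 818 5 1, .f 818 1 3] 119 136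
  [2, 4] [(119, 136, [2, 4]), (134, 133, [3])]) (.red [.t 938 3 2, .f 818 1 3] 119 136 [2, 4]
  [(118, 136, [2, 4, 4]), (119, 136, [2, 4])]) .no (.br 936 .no (.use 818) .no (.br 704 .no (.use
  833) (.br 1105 (.br 1104 (.hor [.f 1104 1 5] []) (.red [.t 976 1 4, .f 969 1 5] 138 136 [3, 3]
  [(138, 136, [3, 3])]) (.use 852) .no .no .no) .no (.br 1104 (.con 136 [3, 3, 1, 3]) (.red [.t
  976 1 4, .f 969 1 5] 138 136 [3, 3] [(138, 136, [3, 3])]) (.use 852) .no .no .no) .no (.red [.f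
  962 1 3, .f 962 3 1, .t 969 3 1] 138 136 [3, 3] [(138, 136, [3, 3])]) (.red [.f 1096 5 3, .f 969
  3 1] 138 136 [3, 3] [(138, 136, [3, 3])])) (.red [.f 696 3 1, .f 696 1 5, .t 944 2 3, .f 825 1
  3, .t 832 2 4] 119 136 [2, 4] [(119, 136, [2, 4]), (120, 136, [2])]) (.red [.t 824 3 2, .t 944 2
  3, .f 825 1 5] 119 136 [2, 4] [(104, 119, [3, 2]), (119, 136, [2, 4])]) .no) .no .no) .no .no)
  .no .no (.red [.f 1218 5 3, .f 1218 3 1] 169 136 [3, 1, 1] [(169, 136, [3, 1, 1])])) .no .no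
  (.red [.f 1081 3 1, .f 1081 1 3, .t 1209 3 1] 168 136 [1, 1] [(168, 136, [1, 1])])) (.br 841 .no
  (.use 841) (.hor [.f 841 3 1, .f 833 1 3, .f 960 3 5] [(121, 119, [3, 3]), (122, 138, [2])]) .no
  (.br 1346 (.hor [.f 1346 1 5] []) .no (.br 1227 (.red [.t 1354 4 2] 169 136 [3, 1, 1] [(169,
  136, [3, 1, 1])]) .no (.br 1106 (.br 1105 (.hor [.f 1105 1 5] []) .no (.con 136 [3, 3, 1, 3])
  .no .no (.con 136 [3, 3, 1, 3])) (.red [.f 962 1 3, .f 962 3 1, .f 970 1 3, .f 970 3 5] 138 136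
  [3, 3] [(138, 136, [3, 3])]) (.br 978 .no (.hor [.t 977 4 2, .f 833 1 3, .f 960 3 5] [(121, 119,
  [3, 3]), (122, 138, [2])]) (.red [.f 978 3 1, .f 970 1 3] 138 136 [3, 3] [(138, 136, [3, 3]),
  (139, 136, [3, 3, 3])]) .no .no .no) .no (.red [.t 970 1 3] 138 136 [3, 3] [(138, 136, [3, 3])])
  (.red [.f 962 1 3, .f 962 3 1, .t 969 3 1] 138 136 [3, 3] [(138, 136, [3, 3])])) .no .no (.red
  [.f 1218 5 3, .f 1218 3 1] 169 136 [3, 1, 1] [(169, 136, [3, 1, 1])])) .no .no (.red [.f 1081 3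
  1, .f 1081 1 3, .t 1209 3 1] 168 136 [1, 1] [(168, 136, [1, 1])])) (.red [.t 960 3 2, .t 1080 2
  3, .f 824 3 1, .f 832 1 3] 136 136 [] [(120, 136, [2]), (136, 136, [])])) .no .no .no)) .no
  (.use 853) (.red [.f 1081 3 1, .f 1081 1 3, .t 1338 2 3] 168 136 [1, 1] [(168, 136, [1, 1])])
  .no (.red [.f 1081 3 1, .f 1081 1 3, .f 1218 5 1, .f 1210 1 3] 168 136 [1, 1] [(168, 136, [1,
  1])])) .no (.hor [.f 1057 3 5] []) .no .no) (.red [.t 946 4 1, .f 818 5 1, .f 818 1 3] 119 136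
  [2, 4] [(119, 136, [2, 4]), (134, 118, [1])]) (.hor [.t 1201 2 4, .f 1064 3 5] [(150, 136, [4,
  4, 1])])

def c28t857 : Tr4 :=
  .br 1065 (.hor [.f 1065 1 3, .f 1064 3 5] [(150, 136, [4, 4, 1])]) (.hor [.f 936 3 1, .f 936 1
  5] [(134, 118, [1])]) .no (.use 836) (.br 816 .no (.use 727) .no (.red [.f 808 3 1] 118 136 [2,
  4, 4] [(118, 136, [2, 4, 4])]) (.br 696 .no (.br 939 (.red [.f 939 1 3, .f 938 3 5, .f 818 5 1,
  .f 818 1 3] 119 136 [2, 4] [(119, 136, [2, 4]), (134, 118, [1])]) (.red [.t 938 3 2, .f 818 1 3]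
  119 136 [2, 4] [(118, 136, [2, 4, 4]), (119, 136, [2, 4])]) .no (.br 937 .no (.red [.t 936 3 2]
  118 136 [2, 4, 4] [(118, 136, [2, 4, 4])]) .no (.use 746) .no .no) .no .no) (.red [.f 696 3 1,
  .f 696 1 5, .f 816 5 3, .f 817 3 1, .f 825 1 3, .t 832 2 4] 119 136 [2, 4] [(119, 136, [2, 4]),
  (120, 136, [2])]) (.red [.t 696 4 1] 103 136 [2, 4, 2] [(103, 136, [2, 4, 2])]) .no .no) .no)
  .no

def c28t858 : Tr4 :=
  .br 969 .no (.hor [.f 833 1 3, .f 960 3 5] [(121, 136, [2, 3])]) (.hor [.f 969 3 5] []) .no .no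
  .no

def c28t859 : Tr4 :=
  .br 818 .no (.use 816) .no (.red [.f 810 3 1, .f 818 1 3] 119 136 [2, 4] [(118, 136, [2, 4, 4]),
  (119, 136, [2, 4])]) (.br 1098 (.red [.t 1098 1 4, .f 1083 1 3] 153 136 [3, 1] [(152, 136, [1]),
  (153, 136, [3, 1])]) (.br 969 .no (.hor [.f 833 1 3, .f 960 3 5] [(121, 119, [3, 3])]) (.br 944
  .no (.br 1202 (.use 854) .no .no (.use 856) (.red [.t 1082 4 1, .t 962 1 4, .f 947 1 3] 136 136
  [] [(135, 136, [4]), (136, 136, []), (151, 135, [1])]) .no) .no (.use 857) .no .no) .no .no .no)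
  (.br 944 .no (.br 1202 (.use 854) .no .no (.br 1066 .no .no .no (.br 1065 (.hor [.f 1065 1 3, .f
  1064 3 5] [(150, 136, [4, 4, 1])]) (.br 835 .no (.use 830) (.br 969 .no (.hor [.f 833 1 3, .f
  960 3 5] [(121, 119, [3, 3])]) (.use 855) .no (.br 834 .no (.use 846) (.hor [.t 833 1 3, .f 960
  3 5] [(121, 119, [3, 3])]) .no .no .no) .no) (.red [.f 827 3 1, .f 826 1 5, .f 818 5 3, .t 1074
  3 2, .f 819 3 1, .f 827 1 3] 119 136 [2, 4] [(119, 136, [2, 4]), (135, 136, [4])]) .no (.br 971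
  .no (.br 970 .no (.hor [.f 842 1 5] []) (.use 858) .no .no (.br 841 .no (.use 841) (.br 842 .no
  (.use 849) (.hor [.f 841 3 5] []) .no .no .no) .no (.red [.f 841 5 1, .f 833 1 3, .f 960 3 5, .t
  1080 2 3] 136 136 [] [(121, 119, [3, 3]), (136, 136, [])]) (.red [.t 960 3 2, .t 1080 2 3, .f
  824 3 1, .f 832 1 3] 136 136 [] [(120, 136, [2]), (136, 136, [])]))) (.br 970 .no (.br 969 .no
  (.hor [.f 841 1 5] []) (.br 841 .no (.use 841) (.hor [.f 841 3 1, .f 841 1 5] [(122, 138, [2])])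
  .no .no (.red [.t 960 3 2, .t 1080 2 3, .f 824 3 1, .f 832 1 3] 136 136 [] [(120, 136, [2]),
  (136, 136, [])])) .no .no .no) (.use 858) .no .no (.br 841 .no (.use 841) (.br 842 .no (.use
  849) (.hor [.f 841 3 5] []) .no (.red [.f 834 5 3, .t 833 1 3, .f 960 3 5, .t 1080 2 3] 136 136
  [] [(121, 119, [3, 3]), (136, 136, [])]) .no) .no (.red [.f 841 5 1, .f 833 1 3, .f 960 3 5, .t
  1080 2 3] 136 136 [] [(121, 119, [3, 3]), (136, 136, [])]) (.red [.t 960 3 2, .t 1080 2 3, .f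
  824 3 1, .f 832 1 3] 136 136 [] [(120, 136, [2]), (136, 136, [])]))) .no .no (.red [.t 1090 2 3,
  .f 1090 5 1, .f 1083 1 3, .f 955 3 1, .f 963 1 3] 136 136 [] [(136, 136, []), (152, 136,
  [1])]))) .no (.hor [.f 1057 3 5] []) .no .no) (.red [.t 946 4 1, .f 818 5 1, .f 818 1 3] 119 136
  [2, 4] [(119, 136, [2, 4]), (134, 118, [1])]) (.hor [.t 1201 2 4, .f 1064 3 5] [(150, 136, [4,
  4, 1])])) (.red [.t 1082 4 1, .t 962 1 4, .f 947 1 3] 136 136 [] [(135, 136, [4]), (136, 136,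
  []), (151, 135, [1])]) .no) .no (.use 857) .no .no) .no .no .no) (.red [.t 953 4 2] 119 136 [2,
  4] [(119, 136, [2, 4])])

def c28t860 : Tr4 :=
  .br 1210 (.hor [.f 1209 1 5] []) .no .no (.red [.f 1074 3 1, .f 1082 1 5, .t 962 1 4, .f 947 1
  3] 136 136 [] [(135, 136, [4]), (136, 136, []), (151, 135, [1])]) .no .no

def c28t861 : Tr4 :=
  .br 1072 (.br 1075 (.use 702) (.br 1211 (.con 136 [1, 4, 2, 2]) (.br 1073 (.hor [.f 1072 1 5]
  []) .no .no (.br 1096 (.red [.f 1088 1 3, .f 960 3 1] 153 136 [3, 1] [(137, 136, [3]), (153,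
  136, [3, 1])]) .no (.use 806) .no (.br 1208 (.br 818 .no (.use 719) .no (.red [.f 810 3 1, .f
  818 1 3] 119 136 [2, 4] [(118, 136, [2, 4, 4]), (119, 136, [2, 4])]) (.br 1217 (.br 1209 (.hor
  [.f 1208 1 5] []) .no .no (.br 834 .no (.use 789) (.use 807) .no (.br 1219 (.br 1218 (.hor [.f
  1217 1 5] []) .no (.con 136 [3, 1, 1]) (.br 969 .no (.hor [.f 833 1 3, .f 960 3 5] [(121, 119,
  [3, 3])]) (.br 970 (.red [.f 962 1 3, .f 1090 3 5, .t 1210 3 2, .f 955 3 1, .t 962 3 1] 136 136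
  [] [(136, 136, []), (152, 136, [1])]) (.use 791) (.hor [.f 969 3 5] []) .no (.use 795) .no) .no
  (.use 800) .no) .no .no) .no (.red [.f 1091 3 1, .f 1083 1 3] 153 136 [3, 1] [(152, 136, [1]),
  (153, 136, [3, 1])]) .no .no (.br 1210 (.use 808) .no .no (.hor [.f 1201 3 5] []) .no .no)) .no)
  (.use 809) .no) .no (.red [.t 1216 2 3, .f 960 3 1] 153 136 [3, 1] [(137, 136, [3]), (153, 136,
  [3, 1])]) (.br 1210 (.use 810) .no (.hor [.f 1209 3 5] []) (.red [.f 1074 3 1, .f 1082 1 5, .t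
  962 1 4, .f 947 1 3] 136 136 [] [(135, 136, [4]), (136, 136, []), (151, 135, [1])]) .no .no)
  (.br 1209 (.hor [.f 1208 1 5] []) .no .no (.br 834 .no (.use 789) (.use 807) .no (.br 1210 (.use
  808) .no .no (.hor [.f 1201 3 5] []) .no .no) .no) (.use 809) .no) .no) (.red [.t 953 4 2] 119
  136 [2, 4] [(119, 136, [2, 4])])) .no .no .no (.red [.t 1088 1 4, .f 1088 5 3, .f 960 3 1, .f
  952 1 3] 136 136 [] [(136, 136, []), (137, 136, [3]), (152, 136, [1])]) .no) .no) .no .no) (.con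
  136 [1, 4, 2, 2]) (.con 136 [1, 4, 2, 2]) .no (.con 136 [1, 4, 2, 2])) (.hor [.f 1074 3 5] [])
  (.use 811) .no .no) (.red [.f 944 1 3, .f 944 3 5, .t 832 4 1, .f 953 3 1] 136 136 [] [(120,
  136, [2]), (135, 119, [1]), (136, 136, [])]) .no (.br 1083 (.br 1075 (.use 702) (.br 1096 (.red
  [.f 1088 1 3, .f 960 3 1] 153 136 [3, 1] [(137, 136, [3]), (153, 136, [3, 1])]) .no (.use 850)
  .no (.br 1208 (.use 814) .no .no (.br 1217 (.br 1218 (.hor [.f 1217 1 5] []) .no (.br 1219 (.con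
  136 [3, 1, 1]) .no (.hor [.f 1218 3 5] []) .no .no .no) (.br 1209 (.hor [.f 1209 1 3, .f 1209 3
  5] [(168, 136, [1, 1])]) .no .no (.hor [.f 1200 3 5] []) .no .no) (.br 1073 (.br 1209 (.use 851)
  .no .no .no (.red [.t 1073 1 3, .f 1082 1 5, .t 962 1 4, .f 947 1 3] 136 136 [] [(135, 136,
  [4]), (136, 136, []), (151, 135, [1])]) .no) .no .no (.hor [.f 1064 3 5] []) .no .no) .no) .no
  (.red [.t 1216 2 3, .f 960 3 1] 153 136 [3, 1] [(137, 136, [3]), (153, 136, [3, 1])]) (.br 1210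
  (.br 1218 (.red [.f 1210 1 3, .f 1209 3 5] 168 136 [1, 1] [(168, 136, [1, 1])]) .no (.use 775)
  .no (.br 1073 (.use 859) .no .no (.hor [.f 1064 3 5] []) .no .no) .no) .no (.hor [.f 1209 3 5]
  []) (.red [.f 1074 3 1, .f 1082 1 5, .t 962 1 4, .f 947 1 3] 136 136 [] [(135, 136, [4]), (136,
  136, []), (151, 167, [2])]) .no .no) (.br 1073 (.br 1209 (.use 860) .no .no .no (.red [.t 1073 1
  3, .f 1082 1 5, .t 962 1 4, .f 947 1 3] 136 136 [] [(135, 136, [4]), (136, 136, []), (151, 135,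
  [1])]) .no) .no .no (.hor [.f 1064 3 5] []) .no .no) .no) (.red [.t 1088 1 4, .f 1088 5 3, .f
  960 3 1, .f 952 1 3] 136 136 [] [(136, 136, []), (137, 136, [3]), (152, 136, [1])]) .no) .no)
  .no (.use 811) .no .no) .no .no (.hor [.f 1074 3 5] []) .no .no) (.red [.t 952 1 4, .t 832 4 1,
  .f 953 3 1] 136 136 [] [(120, 136, [2]), (135, 119, [1]), (136, 136, [])]) .no

def c28t862 : Tr4 :=
  .br 819 .no (.red [.f 691 1 3] 103 136 [2, 4, 2] [(103, 136, [2, 4, 2])]) .no (.hor [.f 810 3 5]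
  []) .no .no

def c28t863 : Tr4 :=
  .br 824 .no (.hor [.f 696 1 5] []) .no (.br 827 .no (.con 136 [2, 2, 4]) .no (.red [.t 954 2 3,
  .t 1074 3 2, .f 819 3 1, .f 827 1 3] 119 136 [2, 4] [(119, 136, [2, 4]), (135, 136, [4])]) .no
  .no) .no .no

def c28t864 : Tr4 :=
  .br 689 (.hor [.f 689 1 5] []) (.con 136 [2, 4, 2, 4]) (.con 136 [2, 4, 2, 4]) (.con 136 [2, 4,
  2, 4]) .no (.con 136 [2, 4, 2, 4])

def c28t865 : Tr4 :=
  .br 827 .no (.br 819 .no (.hor [.f 690 1 5] []) .no (.use 864) .no .no) .no (.red [.t 954 2 3,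
  .t 1074 3 2, .f 819 3 1, .f 827 1 3] 119 136 [2, 4] [(119, 136, [2, 4]), (135, 136, [4])]) .no
  .no

def c28t866 : Tr4 :=
  .br 696 .no (.con 136 [2, 2, 2, 4]) (.con 136 [2, 2, 2, 4]) (.hor [.f 688 3 5] []) .no .no

def c28t867 : Tr4 :=
  .br 816 .no (.con 136 [2, 4, 2, 4]) .no (.hor [.f 808 3 5] []) .no .no

def c28t868 : Tr4 :=
  .br 817 .no (.red [.f 696 5 1, .f 689 1 3] 103 136 [2, 4, 2] [(103, 136, [2, 4, 2])]) .no (.use
  867) .no (.red [.f 696 5 1, .f 696 1 5, .f 816 5 3, .f 817 3 1] 119 136 [2, 4] [(119, 136, [2,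
  4])])

def c28t869 : Tr4 :=
  .br 697 .no (.hor [.f 569 1 5] []) .no (.use 866) .no (.use 868)

def c28t870 : Tr4 :=
  .br 689 (.hor [.f 688 1 5] []) (.con 136 [2, 4, 2, 4]) .no (.con 136 [2, 4, 2, 4]) (.con 136 [2,
  4, 2, 4]) .no

def c28t871 : Tr4 :=
  .br 706 .no (.br 843 .no (.br 707 .no (.hor [.f 578 1 5] []) .no .no .no .no) (.use 72) .no .no
  .no) (.br 843 .no (.red [.t 714 4 1, .f 705 1 5] 105 136 [2, 2, 3] [(105, 136, [2, 2, 3])])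
  (.use 72) .no .no .no) (.red [.t 698 3 1, .f 705 1 5, .t 969 4 2] 121 136 [2, 3] [(104, 88,
  [1]), (121, 136, [2, 3])]) (.red [.f 706 5 1, .f 705 1 5, .t 969 4 2] 121 136 [2, 3] [(121, 136,
  [2, 3])]) .no

def c28t872 : Tr4 :=
  .br 834 .no (.hor [.f 705 1 5] []) .no .no (.br 825 .no (.use 863) .no (.red [.f 817 3 1, .f 825
  1 5] 119 136 [2, 4] [(119, 136, [2, 4])]) .no (.br 841 .no (.red [.f 705 1 3] 105 136 [2, 2, 3]
  [(105, 136, [2, 2, 3])]) (.br 971 .no (.hor [.f 842 1 5] []) (.br 818 .no (.use 865) .no (.red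
  [.f 810 3 1, .f 818 1 3] 119 136 [2, 4] [(118, 136, [2, 4, 4]), (119, 136, [2, 4])]) (.br 699
  (.use 871) (.con 136 [2, 4, 2, 3, 3]) (.con 136 [2, 4, 2, 3, 3]) (.con 136 [2, 4, 2, 3, 3]) .no
  (.con 136 [2, 4, 2, 3, 3])) (.red [.t 953 4 2] 119 136 [2, 4] [(119, 136, [2, 4])])) .no .no
  .no) .no .no (.red [.t 960 2 3, .t 1080 2 3, .f 961 1 5] 121 136 [2, 3] [(121, 136, [2, 3]),
  (136, 136, [])]))) .no

def c28t873 : Tr4 :=
  .br 1200 (.hor [.f 1200 1 3, .f 1200 3 5] [(167, 136, [1, 1, 4])]) .no .no .no .no .no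

def c28t874 : Tr4 :=
  .br 944 .no .no .no (.red [.f 808 3 1] 118 136 [4, 2, 4] [(118, 136, [4, 2, 4])]) .no .no

def c28t875 : Tr4 :=
  .br 819 .no (.con 136 [2, 4, 2, 2]) (.br 816 (.dom 119 136 [2, 4]) (.con 136 [2, 2, 4, 4]) .no
  (.use 874) (.red [.t 696 1 4, .f 689 1 5, .t 953 4 2, .t 1089 4 2] 136 136 [] [(103, 87, [1]),
  (119, 136, [2, 4]), (136, 136, [])]) .no) (.con 136 [2, 4, 2, 2]) .no .no

def c28t876 : Tr4 :=
  .br 704 .no (.hor [.f 576 1 5] []) (.red [.f 944 1 3, .f 944 3 5, .t 832 1 4, .t 712 4 1, .f 696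
  1 3] 104 136 [2, 2] [(104, 136, [2, 2]), (105, 136, [2, 2, 3]), (120, 104, [1]), (135, 119,
  [1])]) .no .no .no

def c28t877 : Tr4 :=
  .br 819 .no (.con 136 [2, 4, 2, 2]) (.con 136 [2, 2, 4, 4]) (.con 136 [2, 4, 2, 4]) .no .no

def c28t878 : Tr4 :=
  .br 944 .no .no .no (.red [.f 808 3 1] 118 136 [2, 4, 4] [(118, 136, [2, 4, 4])]) .no .no

def c28t879 : Tr4 :=
  .br 819 .no (.con 136 [2, 4, 2]) (.br 689 (.hor [.f 689 1 5] []) (.con 136 [2, 2, 4, 4]) .no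
  (.con 136 [2, 2, 4, 4]) .no (.con 136 [2, 2, 4, 4])) (.con 136 [2, 4, 2]) .no .no

def c28t880 : Tr4 :=
  .br 697 .no (.use 448) (.red [.f 697 3 1, .f 705 1 5] 104 136 [2, 2] [(104, 136, [2, 2])]) (.use
  539) (.red [.t 833 4 2] 104 136 [2, 2] [(104, 136, [2, 2])]) (.use 879)

def c28t881 : Tr4 :=
  .br 824 .no (.br 697 .no (.use 445) (.red [.f 697 3 1, .f 696 1 5] 104 136 [2, 2] [(104, 136,
  [2, 2])]) (.br 698 .no (.con 136 [2, 4, 2, 2]) .no (.use 444) (.con 136 [2, 4, 2, 2]) .no) (.red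
  [.t 833 4 2, .f 696 1 5] 104 136 [2, 2] [(104, 136, [2, 2])]) .no) .no (.con 136 [2, 4, 2]) .no
  .no

def c28t882 : Tr4 :=
  .br 715 .no (.con 136 [2, 3, 2, 2, 3]) (.hor [.f 714 3 5] []) .no .no .no

def c28t883 : Tr4 :=
  .br 689 (.hor [.f 688 1 5] []) (.con 136 [2, 4, 2, 4]) .no (.con 136 [2, 4, 2, 4]) .no .no

def c28t884 : Tr4 :=
  .br 698 .no (.hor [.f 569 1 5] []) .no .no .no .no

def c28l31 : List Tr4 :=
  [c28t856, c28t857, c28t858, c28t859, c28t860, c28t861, c28t862, c28t863, c28t864, c28t865,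
  c28t866, c28t867, c28t868, c28t869, c28t870, c28t871, c28t872, c28t873, c28t874, c28t875,
  c28t876, c28t877, c28t878, c28t879, c28t880, c28t881, c28t882, c28t883, c28t884]

theorem c28k31 : chkLF ⟨4, 1, 0, true, -8⟩ false 8 c28N 856 c28l31 = true := by decide +kernel

def c28t885 : Tr4 :=
  .br 1107 .no .no (.hor [.f 1106 3 5] []) .no .no .no

def c28t886 : Tr4 :=
  .br 976 (.red [.f 968 1 3] 138 136 [3, 3] [(138, 136, [3, 3])]) (.br 704 .no (.br 712 (.red [.t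
  841 3 1, .t 705 3 1, .f 712 1 5, .t 960 2 3, .f 841 1 3, .f 969 3 1] 138 136 [3, 3] [(105, 89,
  [1]), (121, 136, [2, 3]), (138, 136, [3, 3])]) (.con 136 [2, 3, 3, 2, 4, 2]) (.con 136 [2, 3, 3,
  2, 4, 2]) .no .no .no) (.con 136 [2, 3, 3, 2, 4, 4]) .no .no .no) (.br 704 .no (.br 712 (.red
  [.t 841 3 1, .t 705 3 1, .f 712 1 5, .t 960 2 3, .f 841 1 3, .f 969 3 1] 138 136 [3, 3] [(105,
  89, [1]), (121, 136, [2, 3]), (138, 136, [3, 3])]) (.red [.f 576 1 3] 89 136 [2, 2, 3, 2] [(89,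
  136, [2, 2, 3, 2])]) (.br 848 .no .no (.con 136 [2, 3, 3, 2, 4, 2]) (.hor [.f 840 3 5] []) .no
  .no) .no .no .no) (.use 406) .no .no .no) .no .no .no

def c28t887 : Tr4 :=
  .br 705 .no (.use 876) .no .no .no (.use 440)

def c28t888 : Tr4 :=
  .br 809 .no (.con 136 [2, 4, 2, 4, 4]) (.hor [.f 808 3 5] []) (.con 136 [2, 4, 2, 4, 1]) .no .no

def c28t889 : Tr4 :=
  .br 819 .no (.con 136 [2, 4, 2, 2]) (.br 937 (.br 809 .no (.con 136 [2, 2, 4, 4, 1]) (.hor [.f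
  808 3 5] []) (.con 136 [2, 2, 4, 4, 1]) (.con 136 [2, 2, 4, 4, 1]) .no) (.con 136 [2, 2, 4, 4,
  1]) .no (.hor [.f 928 3 5] []) .no .no) (.con 136 [2, 4, 2, 2]) .no .no

def c28t890 : Tr4 :=
  .br 704 .no (.hor [.f 576 1 5] []) (.use 406) .no .no .no

def c28t891 : Tr4 :=
  .br 819 .no (.con 136 [2, 4, 2, 2]) (.dom 119 136 [2, 4]) (.con 136 [2, 4, 2, 2]) .no .no

def c28t892 : Tr4 :=
  .br 944 .no (.use 891) .no (.br 816 .no (.use 877) .no (.red [.f 808 3 1] 118 136 [2, 4, 4]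
  [(118, 136, [2, 4, 4])]) (.red [.t 696 1 4, .f 689 1 5, .t 953 4 2, .t 1089 4 2] 136 136 []
  [(103, 87, [1]), (119, 136, [2, 4]), (136, 136, [])]) .no) .no .no

def c28t893 : Tr4 :=
  .br 816 (.use 891) (.use 877) .no (.use 878) (.red [.t 696 1 4, .f 689 1 5, .t 953 4 2, .t 1089
  4 2] 136 136 [] [(103, 87, [1]), (119, 136, [2, 4]), (136, 136, [])]) .no

def c28t894 : Tr4 :=
  .br 841 .no .no (.br 971 .no .no (.br 977 .no .no (.br 976 (.red [.f 968 1 3] 138 136 [3, 3]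
  [(138, 136, [3, 3])]) (.br 707 .no (.br 699 (.use 424) (.red [.f 571 1 3] 88 136 [2, 2, 2] [(88,
  136, [2, 2, 2])]) .no (.br 698 .no (.hor [.f 569 1 5] []) .no .no .no .no) .no (.br 704 .no (.br
  577 .no (.br 712 (.use 519) (.con 136 [2, 3, 3, 2, 4, 2]) (.con 136 [2, 3, 3, 2, 4, 2]) .no .no
  .no) (.red [.f 577 3 1, .f 569 1 3] 89 136 [2, 2, 2, 3] [(88, 136, [2, 2, 2]), (89, 136, [2, 2,
  2, 3])]) .no (.br 714 .no (.red [.t 713 4 2, .f 569 1 3] 89 136 [2, 2, 2, 3] [(88, 136, [2, 2,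
  2]), (89, 136, [2, 2, 2, 3])]) (.br 712 (.use 882) (.con 136 [2, 3, 3, 2, 4, 2]) (.con 136 [2,
  3, 3, 2, 2]) .no .no .no) .no (.red [.t 834 2 3, .t 954 2 3, .f 825 3 5, .t 969 4 2, .f 706 3 1]
  121 136 [2, 3] [(120, 104, [1]), (121, 136, [2, 3])]) .no) .no) (.con 136 [2, 3, 3, 2, 4, 4])
  .no .no .no)) (.red [.f 707 3 1, .f 706 1 5, .t 954 2 3, .f 825 3 5, .t 969 4 2, .t 842 4 2] 121
  136 [2, 3] [(120, 104, [1]), (121, 136, [2, 3])]) (.use 884) .no .no) (.hor [.f 976 3 5] []) .no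
  .no .no) .no (.use 886) (.red [.t 1096 2 3] 138 136 [3, 3] [(138, 136, [3, 3])])) .no .no .no)
  .no .no (.red [.t 960 2 3, .t 1080 2 3, .f 961 1 5] 121 136 [2, 3] [(121, 136, [2, 3]), (136,
  136, [])])

def c28t895 : Tr4 :=
  .br 977 .no (.red [.t 1090 2 3, .f 961 3 5, .t 849 1 4] 122 136 [2, 3, 3] [(122, 136, [2, 3,
  3]), (137, 121, [1])]) (.use 21) .no (.red [.t 1090 2 3, .f 961 3 5, .f 969 5 3, .f 969 3 1] 138
  136 [3, 3] [(137, 121, [1]), (138, 136, [3, 3])]) (.red [.t 1090 2 3, .f 961 3 5, .t 1096 2 3]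
  138 136 [3, 3] [(137, 121, [1]), (138, 136, [3, 3])])

def c28t896 : Tr4 :=
  .br 842 .no (.hor [.f 713 1 5] []) (.use 895) .no (.red [.t 954 2 3, .f 825 3 5, .f 842 5 1, .t
  969 4 2] 121 136 [2, 3] [(120, 104, [1]), (121, 136, [2, 3])]) .no

def c28t897 : Tr4 :=
  .br 842 .no (.hor [.f 713 1 5] []) (.use 895) .no (.red [.t 1090 2 3, .t 970 4 1, .f 842 5 1, .t
  969 4 2] 121 136 [2, 3] [(121, 136, [2, 3])]) .no

def c28t898 : Tr4 :=
  .br 977 .no (.red [.t 1090 2 3, .f 961 3 5, .f 841 5 1, .f 841 1 3] 122 136 [2, 3, 3] [(122,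
  136, [2, 3, 3]), (137, 121, [1])]) (.use 21) .no (.red [.t 1090 2 3, .f 961 3 5, .f 969 5 3, .f
  969 3 1] 138 136 [3, 3] [(137, 121, [1]), (138, 136, [3, 3])]) (.red [.t 1090 2 3, .f 961 3 5,
  .t 1096 2 3] 138 136 [3, 3] [(137, 121, [1]), (138, 136, [3, 3])])

def c28t899 : Tr4 :=
  .br 835 .no (.hor [.f 706 1 5] []) (.use 881) (.con 136 [2, 2]) .no .no

def c28t900 : Tr4 :=
  .br 834 .no (.use 899) .no .no (.red [.t 954 2 3, .f 825 3 5, .t 969 4 2] 121 136 [2, 3] [(120,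
  104, [1]), (121, 136, [2, 3])]) .no

def c28t901 : Tr4 :=
  .br 970 .no (.red [.t 969 4 2, .f 832 1 5] 121 136 [2, 3] [(121, 136, [2, 3])]) (.use 20) .no
  (.br 841 .no (.use 897) (.use 22) .no (.use 898) (.red [.t 960 2 3, .t 1080 2 3, .f 961 1 5] 121
  136 [2, 3] [(121, 136, [2, 3]), (136, 136, [])])) .no

def c28t902 : Tr4 :=
  .br 834 .no (.hor [.f 706 1 5] []) (.use 432) .no .no (.use 901)

def c28t903 : Tr4 :=
  .br 835 .no (.use 902) (.br 834 .no (.br 833 .no (.hor [.f 705 1 5] []) (.red [.f 833 3 1, .f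
  832 1 5] 121 136 [2, 3] [(121, 136, [2, 3])]) (.br 824 .no (.br 697 .no (.br 705 .no (.red [.f
  569 1 3, .f 697 3 1] 104 136 [2, 2] [(88, 136, [2, 2, 2]), (104, 136, [2, 2])]) (.br 970 .no
  (.use 894) (.use 20) .no (.br 841 .no .no (.use 22) .no (.use 898) (.red [.t 960 2 3, .t 1080 2
  3, .f 961 1 5] 121 136 [2, 3] [(121, 136, [2, 3]), (136, 136, [])])) .no) .no .no (.use 630))
  (.red [.f 697 3 1, .f 696 1 5] 104 136 [2, 2] [(104, 136, [2, 2])]) (.br 1072 (.use 875) (.br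
  816 .no (.use 877) .no (.br 936 (.red [.f 936 1 3, .f 808 3 1] 118 136 [2, 4, 4] [(118, 136, [2,
  4, 4]), (134, 136, [4, 4])]) .no .no (.use 889) (.br 970 .no (.br 841 .no (.use 887) (.br 705
  .no (.use 890) (.br 971 .no .no (.br 977 .no .no (.br 819 .no (.con 136 [2, 4, 2, 2]) (.br 810
  .no (.red [.f 682 1 3] 102 136 [2, 2, 4, 4] [(102, 136, [2, 2, 4, 4])]) .no (.br 809 .no (.con
  136 [2, 2, 4, 4, 4]) (.hor [.f 808 3 5] []) (.con 136 [2, 2, 4, 4, 1]) .no .no) (.use 888) (.con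
  136 [2, 2, 4, 4, 1])) (.con 136 [2, 4, 2, 2]) .no .no) .no (.use 886) (.red [.t 1096 2 3] 138
  136 [3, 3] [(138, 136, [3, 3])])) .no .no .no) .no .no (.red [.t 824 2 3, .f 705 1 5] 104 136
  [2, 2] [(104, 136, [2, 2])])) .no .no (.red [.t 960 2 3, .t 1080 2 3, .f 961 1 5] 121 136 [2, 3]
  [(121, 136, [2, 3]), (136, 136, [])])) (.use 20) .no (.br 841 .no (.use 887) (.use 22) .no (.use
  898) (.red [.t 960 2 3, .t 1080 2 3, .f 961 1 5] 121 136 [2, 3] [(121, 136, [2, 3]), (136, 136,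
  [])])) .no) .no) (.red [.t 696 1 4, .f 689 1 5, .t 953 4 2, .t 1089 4 2] 136 136 [] [(103, 87,
  [1]), (119, 136, [2, 4]), (136, 136, [])]) .no) .no (.use 892) (.use 893) .no) (.red [.t 833 4
  2, .f 696 1 5] 104 136 [2, 2] [(104, 136, [2, 2])]) .no) .no (.use 880) .no .no) .no .no) (.hor
  [.f 834 3 5] []) .no .no (.use 901)) (.red [.f 827 3 1, .f 826 1 5, .t 1074 3 2, .f 954 1 3, .t
  962 4 2] 136 136 [] [(135, 136, [4]), (136, 136, [])]) .no (.br 825 .no (.use 863) (.br 970 .no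
  (.red [.t 954 2 3, .f 825 3 5, .t 969 4 2] 121 136 [2, 3] [(120, 104, [1]), (121, 136, [2, 3])])
  (.use 20) .no (.br 841 .no (.use 896) (.use 22) .no (.use 898) (.red [.t 954 2 3, .f 825 3 5, .t
  960 2 3] 121 136 [2, 3] [(120, 104, [1]), (121, 136, [2, 3])])) .no) (.red [.f 817 3 1, .f 825 1
  5] 119 136 [2, 4] [(119, 136, [2, 4])]) .no (.use 865))

def c28t904 : Tr4 :=
  .br 706 (.hor [.f 706 1 5] []) (.con 136 [2, 2, 3]) (.con 136 [2, 2, 3]) (.con 136 [2, 2, 3])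
  .no (.con 136 [2, 2, 3])

def c28t905 : Tr4 :=
  .br 835 .no (.use 904) (.red [.t 961 3 1, .t 825 3 1, .f 954 3 5, .t 842 1 4] 121 136 [2, 3]
  [(120, 104, [1]), (121, 136, [2, 3]), (137, 121, [1])]) (.con 136 [2, 2]) .no (.red [.t 954 2 3,
  .f 825 3 5, .t 969 4 2] 121 136 [2, 3] [(120, 104, [1]), (121, 136, [2, 3])])

def c28t906 : Tr4 :=
  .br 833 .no (.use 872) (.red [.f 833 3 1, .f 832 1 5] 121 136 [2, 3] [(121, 136, [2, 3])]) (.use
  905) (.red [.t 969 4 2, .f 832 1 5] 121 136 [2, 3] [(121, 136, [2, 3])]) .no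

def c28t907 : Tr4 :=
  .br 834 .no (.hor [.f 705 1 5] []) (.use 402) .no (.use 863) .no

def c28t908 : Tr4 :=
  .br 843 .no (.red [.f 707 1 3] 105 136 [2, 2, 3] [(105, 136, [2, 2, 3])]) (.br 841 .no (.br 842
  .no (.hor [.f 713 1 5] []) (.hor [.f 842 3 5] []) .no .no .no) (.use 72) .no (.red [.f 833 5 3,
  .f 833 3 1] 121 136 [2, 3] [(121, 136, [2, 3])]) (.red [.t 960 2 3, .t 1080 2 3, .f 961 1 5] 121
  136 [2, 3] [(121, 136, [2, 3]), (136, 136, [])])) .no .no (.red [.t 1090 2 3, .t 970 4 1, .f 842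
  5 1, .t 969 4 2] 121 136 [2, 3] [(121, 136, [2, 3])])

def c28t909 : Tr4 :=
  .br 835 .no (.use 908) (.red [.t 961 3 1, .f 833 5 1, .t 834 1 3] 121 136 [2, 3] [(121, 136, [2,
  3]), (137, 121, [1])]) (.red [.f 827 3 1, .f 826 1 5, .t 1074 3 2, .f 954 1 3, .t 962 4 2] 136
  136 [] [(135, 136, [4]), (136, 136, [])]) .no .no

def c28t910 : Tr4 :=
  .br 833 .no (.use 907) (.red [.f 833 3 1, .f 832 1 5] 121 136 [2, 3] [(121, 136, [2, 3])]) .no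
  (.use 909) .no

def c28t911 : Tr4 :=
  .br 842 .no (.use 88) (.hor [.f 841 3 5] []) .no .no .no

def c28t912 : Tr4 :=
  .br 819 .no (.hor [.f 690 1 5] []) (.use 883) (.con 136 [2, 4, 2, 4]) .no .no

def c28t913 : Tr4 :=
  .br 819 .no (.hor [.f 690 1 5] []) (.br 698 .no (.hor [.f 569 1 5] []) .no .no (.br 704 .no (.br
  577 .no (.br 707 .no (.br 578 .no (.hor [.f 449 1 5] []) (.con 136 [2, 2, 2, 2, 3]) (.red [.t
  578 4 1, .f 569 1 5] 88 136 [2, 2, 2] [(88, 136, [2, 2, 2])]) .no .no) (.con 136 [2, 2, 2, 3])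
  .no .no .no) (.red [.f 577 3 1, .f 569 1 3] 89 136 [2, 2, 2, 3] [(88, 136, [2, 2, 2]), (89, 136,
  [2, 2, 2, 3])]) .no (.red [.t 705 3 1, .f 577 5 1, .f 569 1 3, .f 697 3 1, .f 705 1 3] 88 136
  [2, 2, 2] [(88, 136, [2, 2, 2]), (104, 136, [2, 2])]) .no) (.hor [.f 704 3 5] []) .no .no .no)
  .no) (.con 136 [2, 4, 2, 4]) .no .no

def c28t914 : Tr4 :=
  .br 816 .no (.use 912) .no (.red [.f 944 1 3, .f 944 3 1, .t 1072 2 4, .f 808 3 1] 118 136 [2,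
  4, 4] [(118, 136, [2, 4, 4]), (134, 136, [4, 4])]) (.use 913) .no

def c28t915 : Tr4 :=
  .br 1072 (.use 875) (.br 1065 (.con 136 [4, 4, 1, 3, 2, 2]) (.con 136 [4, 4, 1, 3, 2, 2]) (.br
  1064 (.use 873) (.hor [.f 944 1 3, .f 944 3 1, .f 936 1 3, .f 1064 3 5] [(134, 136, [4, 4])])
  .no (.br 936 .no (.br 816 .no (.use 877) .no .no (.red [.t 696 1 4, .f 689 1 5, .t 953 4 2, .t
  1089 4 2] 136 136 [] [(103, 87, [1]), (119, 136, [2, 4]), (136, 136, [])]) .no) .no (.hor [.f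
  928 3 1, .f 936 1 3, .f 1064 3 5] [(133, 136, [4, 4, 4]), (134, 136, [4, 4])]) (.br 816 .no
  (.use 877) .no (.red [.f 944 1 3, .f 944 3 1, .t 1072 2 4, .f 808 3 1] 118 136 [2, 4, 4] [(118,
  136, [2, 4, 4]), (134, 136, [4, 4])]) (.red [.t 696 1 4, .f 689 1 5, .t 953 4 2, .t 1089 4 2]
  136 136 [] [(103, 87, [1]), (119, 136, [2, 4]), (136, 136, [])]) .no) .no) .no .no) (.con 136
  [4, 4, 1, 3, 2, 2]) (.con 136 [4, 4, 1, 3, 2, 2]) (.con 136 [4, 4, 1, 3, 2, 2])) .no (.use 814)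
  (.use 893) .no

def c28t916 : Tr4 :=
  .br 697 .no (.br 705 .no (.red [.f 569 1 3, .f 697 3 1] 104 136 [2, 2] [(88, 136, [2, 2, 2]),
  (104, 136, [2, 2])]) (.br 944 (.br 1065 (.con 136 [4, 4, 1, 3, 2, 2]) (.con 136 [4, 4, 1, 3, 2,
  2]) (.br 1064 (.use 873) (.hor [.f 944 1 3, .f 944 3 1, .f 936 1 3, .f 1064 3 5] [(134, 136, [4,
  4])]) .no (.br 936 .no (.br 841 .no .no (.use 911) .no (.br 1200 (.hor [.f 1200 1 3, .f 1200 3
  5] [(167, 119, [1, 1, 1])]) .no .no (.br 937 .no (.hor [.f 808 1 5] []) .no (.br 819 .no (.hor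
  [.f 690 1 5] []) (.br 816 .no (.use 883) .no .no (.br 939 (.con 136 [2, 4, 4, 4]) (.br 698 .no
  (.hor [.f 569 1 5] []) .no .no (.br 704 .no (.br 577 .no (.br 810 .no (.red [.f 682 1 3] 102 136
  [2, 2, 4, 4] [(102, 136, [2, 2, 4, 4])]) .no (.br 809 .no (.con 136 [2, 2, 4, 4, 4]) .no (.hor
  [.f 801 3 5] []) .no .no) .no (.br 578 .no (.hor [.f 449 1 5] []) (.con 136 [2, 2, 2, 2, 3])
  (.red [.t 705 3 1, .t 569 1 3, .f 697 3 1, .f 705 1 3] 88 136 [2, 2, 2] [(88, 136, [2, 2, 2]),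
  (104, 136, [2, 2])]) (.con 136 [2, 2, 2, 3]) .no)) (.red [.f 577 3 1, .f 569 1 3] 89 136 [2, 2,
  2, 3] [(88, 136, [2, 2, 2]), (89, 136, [2, 2, 2, 3])]) .no (.red [.t 705 3 1, .f 577 5 1, .f 569
  1 3, .f 697 3 1, .f 705 1 3] 88 136 [2, 2, 2] [(88, 136, [2, 2, 2]), (104, 136, [2, 2])]) .no)
  (.hor [.f 704 3 5] []) .no .no .no) .no) .no (.con 136 [2, 4, 4, 4]) .no .no) .no) (.con 136 [2,
  4, 4, 2]) .no .no) .no .no) .no .no) (.red [.t 960 2 3, .t 1080 2 3, .f 961 1 5] 121 136 [2, 3]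
  [(121, 136, [2, 3]), (136, 136, [])])) .no (.hor [.f 928 3 1, .f 936 1 3, .f 1064 3 5] [(133,
  136, [4, 4, 4]), (134, 136, [4, 4])]) (.br 841 .no .no (.use 911) .no (.use 914) (.red [.t 960 2
  3, .t 1080 2 3, .f 961 1 5] 121 136 [2, 3] [(121, 136, [2, 3]), (136, 136, [])])) .no) .no .no)
  (.con 136 [4, 4, 1, 3, 2, 2]) (.con 136 [4, 4, 1, 3, 2, 2]) (.con 136 [4, 4, 1, 3, 2, 2])) (.use
  617) .no (.br 841 .no .no (.use 911) .no (.br 816 .no (.use 912) .no (.red [.f 808 3 1] 118 136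
  [2, 4, 4] [(118, 136, [2, 4, 4])]) (.use 913) .no) (.red [.t 960 2 3, .t 1080 2 3, .f 961 1 5]
  121 136 [2, 3] [(121, 136, [2, 3]), (136, 136, [])])) .no .no) .no .no (.use 630)) (.red [.f 697
  3 1, .f 696 1 5] 104 136 [2, 2] [(104, 136, [2, 2])]) (.use 915) (.red [.t 833 4 2, .f 696 1 5]
  104 136 [2, 2] [(104, 136, [2, 2])]) .no

def c28t917 : Tr4 :=
  .br 824 .no .no .no (.use 879) .no .no

def c28t918 : Tr4 :=
  .br 819 .no (.con 136 [2, 4, 2]) (.red [.t 954 2 3, .t 1074 3 2, .f 819 3 1, .f 827 1 3] 119 136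
  [2, 4] [(119, 136, [2, 4]), (135, 136, [4])]) (.con 136 [2, 4, 2]) .no .no

def c28t919 : Tr4 :=
  .br 824 .no (.red [.t 824 2 3, .f 705 1 3] 105 136 [2, 2, 3] [(104, 136, [2, 2]), (105, 136, [2,
  2, 3])]) .no (.use 918) .no .no

def c28t920 : Tr4 :=
  .br 834 .no (.hor [.f 705 1 5] []) (.use 402) .no (.use 865) .no

def c28l32 : List Tr4 :=
  [c28t885, c28t886, c28t887, c28t888, c28t889, c28t890, c28t891, c28t892, c28t893, c28t894,
  c28t895, c28t896, c28t897, c28t898, c28t899, c28t900, c28t901, c28t902, c28t903, c28t904,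
  c28t905, c28t906, c28t907, c28t908, c28t909, c28t910, c28t911, c28t912, c28t913, c28t914,
  c28t915, c28t916, c28t917, c28t918, c28t919, c28t920]

theorem c28k32 : chkLF ⟨4, 1, 0, true, -8⟩ false 8 c28N 885 c28l32 = true := by decide +kernel

def c28t921 : Tr4 :=
  .br 824 .no (.br 705 .no (.br 706 .no (.hor [.f 577 1 5] []) (.red [.t 954 2 3, .f 825 3 5, .t
  713 1 4] 105 136 [2, 2, 3] [(105, 136, [2, 2, 3]), (120, 104, [1])]) (.use 412) (.br 697 .no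
  (.red [.f 569 1 3] 88 136 [2, 2, 2] [(88, 136, [2, 2, 2])]) .no (.br 698 .no (.con 136 [2, 4, 2,
  2]) .no (.hor [.f 689 3 5] []) (.con 136 [2, 4, 2, 2]) .no) (.red [.t 954 2 3, .t 834 4 1, .f
  706 5 1, .t 833 4 2] 104 136 [2, 2] [(104, 136, [2, 2])]) .no) .no) .no (.red [.f 697 3 1, .f
  696 1 5] 104 136 [2, 2] [(104, 136, [2, 2])]) (.red [.t 954 2 3, .f 825 3 5, .f 705 5 1, .f 705
  1 3] 105 136 [2, 2, 3] [(105, 136, [2, 2, 3]), (120, 104, [1])]) (.red [.t 824 2 3, .f 705 1 3]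
  105 136 [2, 2, 3] [(104, 136, [2, 2]), (105, 136, [2, 2, 3])])) .no (.con 136 [2, 4, 2]) .no .no

def c28t922 : Tr4 :=
  .br 834 .no (.use 899) (.use 411) .no (.br 841 .no (.use 921) (.use 90) .no (.red [.t 954 2 3,
  .f 825 3 5, .f 833 5 3, .f 833 3 1] 121 136 [2, 3] [(120, 104, [1]), (121, 136, [2, 3])]) (.red
  [.t 954 2 3, .f 825 3 5, .t 960 2 3] 121 136 [2, 3] [(120, 104, [1]), (121, 136, [2, 3])])) .no

def c28t923 : Tr4 :=
  .br 699 (.red [.t 698 4 1] 103 136 [2, 2, 4] [(103, 136, [2, 2, 4])]) (.con 136 [2, 4, 2, 3, 1,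
  4]) (.con 136 [2, 4, 2, 3, 1, 4]) (.con 136 [2, 4, 2, 3, 1, 4]) .no .no

def c28t924 : Tr4 :=
  .br 698 .no (.hor [.f 569 1 5] []) .no (.use 923) (.con 136 [2, 4, 2, 3, 1, 4]) .no

def c28t925 : Tr4 :=
  .br 697 .no (.use 924) .no (.con 136 [2, 4, 2, 4]) (.use 870) (.use 868)

def c28t926 : Tr4 :=
  .br 816 .no (.use 925) .no (.red [.f 944 1 3, .f 944 3 1, .t 1072 2 4, .f 808 3 1] 118 136 [2,
  4, 4] [(118, 136, [2, 4, 4]), (134, 136, [4, 4])]) (.red [.f 944 1 3, .f 816 5 3, .f 817 3 1]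
  119 136 [2, 4] [(119, 136, [2, 4]), (135, 119, [1])]) .no

def c28t927 : Tr4 :=
  .br 939 (.red [.f 939 1 3, .f 938 3 5, .f 818 5 1, .f 818 1 3] 119 136 [2, 4] [(119, 136, [2,
  4]), (134, 118, [1])]) (.red [.t 938 3 2, .f 818 1 3] 119 136 [2, 4] [(118, 136, [2, 4, 4]),
  (119, 136, [2, 4])]) .no (.br 936 .no (.br 937 .no (.hor [.f 808 1 5] []) .no (.con 136 [2, 4,
  4, 4]) .no .no) .no (.hor [.f 928 3 1, .f 936 1 3, .f 1064 3 5] [(133, 136, [4, 4, 4]), (134,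
  136, [4, 4])]) (.use 926) .no) .no .no

def c28t928 : Tr4 :=
  .br 699 (.red [.t 698 3 1, .f 705 1 5, .f 833 5 3, .f 833 3 1] 121 136 [2, 3] [(104, 88, [1]),
  (121, 136, [2, 3])]) (.con 136 [2, 4, 2, 3, 2]) (.con 136 [2, 4, 2, 3, 3]) (.con 136 [2, 4, 2,
  3, 2]) .no .no

def c28t929 : Tr4 :=
  .br 1065 (.con 136 [4, 4, 1, 3, 2, 2]) (.con 136 [4, 4, 1, 3, 2, 2]) (.br 1064 (.use 873) (.hor
  [.f 944 1 3, .f 944 3 1, .f 936 1 3, .f 1064 3 5] [(134, 136, [4, 4])]) .no (.br 706 .no (.use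
  927) (.red [.t 705 1 3] 105 136 [2, 2, 3] [(105, 136, [2, 2, 3])]) (.use 928) (.red [.f 706 5 1,
  .f 705 1 5, .f 833 5 3, .f 833 3 1] 121 136 [2, 3] [(121, 136, [2, 3])]) .no) .no .no) (.con 136
  [4, 4, 1, 3, 2, 2]) (.con 136 [4, 4, 1, 3, 2, 2]) (.con 136 [4, 4, 1, 3, 2, 2])

def c28t930 : Tr4 :=
  .br 697 .no (.use 924) .no (.con 136 [2, 4, 2, 4]) (.use 870) (.br 689 (.hor [.f 688 1 5] [])
  (.con 136 [2, 4, 2, 4]) .no (.con 136 [2, 4, 2, 4]) (.con 136 [2, 4, 2, 4]) .no)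

def c28t931 : Tr4 :=
  .br 706 .no (.br 816 .no (.use 930) .no (.red [.f 808 3 1, .t 944 2 3, .f 825 1 5] 119 136 [2,
  4] [(118, 136, [2, 4, 4]), (119, 136, [2, 4])]) (.red [.f 816 5 3, .f 817 3 1] 119 136 [2, 4]
  [(119, 136, [2, 4])]) .no) (.red [.t 705 1 3] 105 136 [2, 2, 3] [(105, 136, [2, 2, 3])]) (.use
  928) (.red [.f 706 5 1, .f 705 1 5, .f 833 5 3, .f 833 3 1] 121 136 [2, 3] [(121, 136, [2, 3])])
  .no

def c28t932 : Tr4 :=
  .br 809 .no (.con 136 [2, 4, 2, 4, 1, 3, 2, 4, 4]) (.hor [.f 808 3 5] []) (.con 136 [2, 4, 2, 4,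
  1, 3, 2, 4, 1]) .no .no

def c28t933 : Tr4 :=
  .br 697 .no (.red [.f 569 1 3, .f 697 3 1] 104 136 [2, 2] [(88, 136, [2, 2, 2]), (104, 136, [2,
  2])]) .no (.br 1072 (.use 875) (.br 816 .no (.use 877) .no (.br 841 .no (.use 876) (.use 890)
  .no (.br 936 (.red [.f 936 1 3, .f 808 3 1] 118 136 [2, 4, 4] [(118, 136, [2, 4, 4]), (134, 136,
  [4, 4])]) .no .no (.use 889) (.br 819 .no (.con 136 [2, 4, 2, 2]) (.br 810 .no (.red [.f 682 1
  3] 102 136 [2, 2, 4, 4] [(102, 136, [2, 2, 4, 4])]) .no (.use 932) (.use 888) (.con 136 [2, 2,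
  4, 4, 1])) (.con 136 [2, 4, 2, 2]) .no .no) .no) (.red [.t 960 2 3, .t 1080 2 3, .f 961 1 5] 121
  136 [2, 3] [(121, 136, [2, 3]), (136, 136, [])])) (.red [.t 696 1 4, .f 689 1 5, .t 953 4 2, .t
  1089 4 2] 136 136 [] [(103, 87, [1]), (119, 136, [2, 4]), (136, 136, [])]) .no) .no (.use 892)
  (.use 893) .no) (.red [.t 833 4 2, .f 696 1 5] 104 136 [2, 2] [(104, 136, [2, 2])]) .no

def c28t934 : Tr4 :=
  .br 707 .no (.use 691) (.con 136 [2, 2, 3, 2]) (.use 884) .no .no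

def c28t935 : Tr4 :=
  .br 816 .no (.use 877) .no (.br 936 (.red [.f 936 1 3, .f 808 3 1] 118 136 [2, 4, 4] [(118, 136,
  [2, 4, 4]), (134, 136, [4, 4])]) .no .no (.use 889) (.br 819 .no (.con 136 [2, 4, 2, 2]) (.br
  810 .no (.red [.f 682 1 3] 102 136 [2, 2, 4, 4] [(102, 136, [2, 2, 4, 4])]) .no (.use 932) (.use
  888) (.con 136 [2, 2, 4, 4, 1])) (.con 136 [2, 4, 2, 2]) .no .no) .no) (.red [.t 696 1 4, .f 689
  1 5, .t 953 4 2, .t 1089 4 2] 136 136 [] [(103, 87, [1]), (119, 136, [2, 4]), (136, 136, [])])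
  .no

def c28t936 : Tr4 :=
  .br 1072 (.use 875) (.use 935) .no (.use 892) (.use 893) .no

def c28t937 : Tr4 :=
  .br 834 .no (.hor [.f 705 1 5] []) (.use 402) .no (.red [.t 1088 1 4, .t 954 2 3, .t 1074 3 2,
  .f 954 1 3, .f 826 3 1] 136 136 [] [(135, 136, [4]), (136, 136, []), (152, 136, [1])]) .no

def c28t938 : Tr4 :=
  .br 1209 (.use 860) .no .no (.br 1208 (.br 818 .no (.br 825 .no (.use 910) (.br 835 .no (.use
  904) (.br 834 .no (.br 824 .no (.use 916) .no (.use 880) .no .no) (.use 411) .no .no .no) (.con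
  136 [2, 2]) .no (.br 841 .no (.br 705 .no (.br 706 .no (.hor [.f 577 1 5] []) (.red [.t 954 2 3,
  .f 825 3 5, .t 713 1 4] 105 136 [2, 2, 3] [(105, 136, [2, 2, 3]), (120, 104, [1])]) (.use 412)
  (.br 697 .no (.red [.f 569 1 3] 88 136 [2, 2, 2] [(88, 136, [2, 2, 2])]) .no (.br 696 (.use 915)
  (.con 136 [2, 2, 4, 2]) (.con 136 [2, 2, 2]) (.hor [.f 688 3 5] []) .no .no) (.red [.t 954 2 3,
  .t 834 4 1, .f 706 5 1, .t 833 4 2] 104 136 [2, 2] [(104, 136, [2, 2])]) (.use 917)) .no) .no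
  (.red [.f 697 3 1, .f 705 1 3] 105 136 [2, 2, 3] [(104, 136, [2, 2]), (105, 136, [2, 2, 3])])
  (.red [.t 954 2 3, .f 825 3 5, .f 705 5 1, .f 705 1 3] 105 136 [2, 2, 3] [(105, 136, [2, 2, 3]),
  (120, 104, [1])]) (.use 919)) (.use 90) .no (.red [.t 954 2 3, .f 825 3 5, .f 833 5 3, .f 833 3
  1] 121 136 [2, 3] [(120, 104, [1]), (121, 136, [2, 3])]) (.red [.t 954 2 3, .f 825 3 5, .t 960 2
  3] 121 136 [2, 3] [(120, 104, [1]), (121, 136, [2, 3])]))) (.red [.f 817 3 1, .f 825 1 5] 119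
  136 [2, 4] [(119, 136, [2, 4])]) .no (.br 833 .no (.use 920) (.red [.f 833 3 1, .f 832 1 5] 121
  136 [2, 3] [(121, 136, [2, 3])]) .no (.use 909) .no)) .no (.red [.f 810 3 1, .f 818 1 3] 119 136
  [2, 4] [(118, 136, [2, 4, 4]), (119, 136, [2, 4])]) (.br 825 .no (.use 910) (.use 922) (.red [.f
  817 3 1, .f 825 1 5] 119 136 [2, 4] [(119, 136, [2, 4])]) .no (.br 833 .no (.br 834 .no (.hor
  [.f 705 1 5] []) (.use 402) .no (.br 841 .no (.red [.f 705 1 3] 105 136 [2, 2, 3] [(105, 136,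
  [2, 2, 3])]) (.use 90) .no (.br 944 (.use 929) (.red [.t 944 2 3, .f 825 1 5] 119 136 [2, 4]
  [(119, 136, [2, 4])]) .no (.use 931) .no .no) (.red [.t 960 2 3, .t 1080 2 3, .f 961 1 5] 121
  136 [2, 3] [(121, 136, [2, 3]), (136, 136, [])])) .no) (.red [.f 833 3 1, .f 832 1 5] 121 136
  [2, 3] [(121, 136, [2, 3])]) .no (.use 909) .no)) (.red [.t 953 4 2] 119 136 [2, 4] [(119, 136,
  [2, 4])])) .no .no (.hor [.f 1200 3 5] []) .no .no) .no (.br 825 .no (.use 910) (.br 835 .no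
  (.use 904) (.br 818 .no (.br 834 .no (.br 824 .no (.br 705 .no (.use 933) (.br 841 .no .no (.use
  911) .no (.br 697 .no (.br 704 .no (.br 577 .no (.br 840 .no (.use 934) (.use 91) .no .no .no)
  (.red [.f 577 3 1, .f 569 1 3] 89 136 [2, 2, 3, 2] [(88, 136, [2, 2, 2]), (89, 136, [2, 2, 3,
  2])]) .no (.red [.t 705 3 1, .f 577 5 1, .f 569 1 3, .f 697 3 1, .f 705 1 3] 104 136 [2, 2]
  [(88, 136, [2, 2, 2]), (104, 136, [2, 2])]) .no) (.hor [.f 704 3 5] []) .no .no .no) .no (.use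
  936) (.red [.t 833 4 2, .f 696 1 5] 104 136 [2, 2] [(104, 136, [2, 2])]) .no) (.red [.t 960 2 3,
  .t 1080 2 3, .f 961 1 5] 121 136 [2, 3] [(121, 136, [2, 3]), (136, 136, [])])) (.red [.f 697 3
  1, .f 696 1 5] 104 136 [2, 2] [(104, 136, [2, 2])]) .no (.red [.t 824 2 3, .f 705 1 5] 104 136
  [2, 2] [(104, 136, [2, 2])])) .no (.use 880) .no .no) (.use 411) .no .no .no) .no (.red [.f 810
  3 1, .f 818 1 3] 119 136 [2, 4] [(118, 136, [2, 4, 4]), (119, 136, [2, 4])]) (.use 922) (.red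
  [.t 953 4 2] 119 136 [2, 4] [(119, 136, [2, 4])])) (.con 136 [2, 2]) .no (.red [.t 1088 1 4, .t
  954 2 3, .t 1074 3 2, .f 954 1 3, .f 826 3 1] 136 136 [] [(135, 136, [4]), (136, 136, []), (152,
  136, [1])])) (.red [.f 817 3 1, .f 825 1 5] 119 136 [2, 4] [(119, 136, [2, 4])]) .no (.br 833
  .no (.use 937) (.red [.f 833 3 1, .f 832 1 5] 121 136 [2, 3] [(121, 136, [2, 3])]) .no (.use
  909) .no))

def c28t939 : Tr4 :=
  .br 1073 (.red [.t 1073 1 3, .f 1082 1 5, .t 962 1 4, .f 947 1 3] 136 136 [] [(135, 136, [4]),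
  (136, 136, []), (151, 135, [1])]) .no .no (.br 1072 (.br 824 .no (.br 705 .no (.use 933) (.br
  841 .no .no (.use 911) .no (.br 697 .no (.br 816 (.use 617) (.use 912) .no (.use 874) (.use 913)
  .no) .no (.use 875) (.red [.t 833 4 2, .f 696 1 5] 104 136 [2, 2] [(104, 136, [2, 2])]) .no)
  (.red [.t 960 2 3, .t 1080 2 3, .f 961 1 5] 121 136 [2, 3] [(121, 136, [2, 3]), (136, 136,
  [])])) (.red [.f 697 3 1, .f 696 1 5] 104 136 [2, 2] [(104, 136, [2, 2])]) .no (.red [.t 824 2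
  3, .f 705 1 5] 104 136 [2, 2] [(104, 136, [2, 2])])) .no (.use 880) .no .no) (.br 824 .no (.br
  697 .no (.br 705 .no (.use 933) (.br 841 .no .no (.use 911) .no (.br 816 .no (.use 912) .no (.br
  936 (.red [.f 936 1 3, .f 808 3 1] 118 136 [2, 4, 4] [(118, 136, [2, 4, 4]), (134, 136, [4,
  4])]) .no .no (.br 937 .no (.br 827 .no (.use 424) .no (.br 689 (.hor [.f 689 1 5] []) (.con 136
  [2, 2, 4, 4, 1]) .no (.con 136 [2, 2, 4, 4, 1]) .no (.con 136 [2, 2, 4, 4, 1])) .no .no) .no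
  (.hor [.f 928 3 5] []) .no .no) (.use 914) .no) (.use 913) .no) (.red [.t 960 2 3, .t 1080 2 3,
  .f 961 1 5] 121 136 [2, 3] [(121, 136, [2, 3]), (136, 136, [])])) .no .no (.use 630)) (.red [.f
  697 3 1, .f 696 1 5] 104 136 [2, 2] [(104, 136, [2, 2])]) (.use 935) (.red [.f 944 1 3, .t 833 4
  2] 104 136 [2, 2] [(104, 136, [2, 2]), (135, 119, [1])]) .no) .no (.use 880) .no .no) .no (.hor
  [.f 1064 3 5] []) .no .no) .no (.br 841 .no (.use 616) (.use 911) .no (.br 824 .no (.br 705 .no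
  (.use 933) (.br 697 .no (.br 816 (.use 617) (.use 912) .no (.use 878) (.use 913) .no) .no (.use
  893) (.red [.t 833 4 2, .f 696 1 5] 104 136 [2, 2] [(104, 136, [2, 2])]) .no) (.red [.f 697 3 1,
  .f 696 1 5] 104 136 [2, 2] [(104, 136, [2, 2])]) .no (.red [.t 824 2 3, .f 705 1 5] 104 136 [2,
  2] [(104, 136, [2, 2])])) .no (.use 880) .no .no) (.red [.t 960 2 3, .t 1080 2 3, .f 961 1 5]
  121 136 [2, 3] [(121, 136, [2, 3]), (136, 136, [])]))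

def c28t940 : Tr4 :=
  .br 696 .no (.br 688 .no (.red [.f 560 1 3] 87 136 [2, 2, 2, 4] [(87, 136, [2, 2, 2, 4])]) .no
  (.red [.f 680 3 1, .f 688 1 5, .f 816 5 3, .f 817 3 1] 119 136 [2, 4] [(102, 103, [4]), (119,
  136, [2, 4])]) .no .no) (.br 707 .no (.hor [.f 578 1 5] []) (.con 136 [2, 2, 2, 3]) .no .no .no)
  (.red [.t 688 3 1] 103 136 [2, 2, 4] [(103, 136, [2, 2, 4])]) .no .no

def c28t941 : Tr4 :=
  .br 689 (.use 940) (.con 136 [2, 2, 4, 4, 1]) .no (.con 136 [2, 2, 4, 4, 1]) (.con 136 [2, 2, 4,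
  4, 1]) (.con 136 [2, 2, 4, 4, 1])

def c28t942 : Tr4 :=
  .br 1064 (.br 816 .no (.use 925) .no (.br 936 .no .no .no (.br 699 (.br 698 .no (.use 869) .no
  (.use 923) .no (.br 937 .no (.use 941) .no (.hor [.f 928 3 5] []) .no .no)) (.con 136 [2, 4, 2,
  3, 3]) (.con 136 [2, 4, 2, 3, 3]) (.con 136 [2, 4, 2, 3, 3]) .no (.con 136 [2, 4, 2, 3, 3]))
  (.use 926) .no) (.red [.f 944 1 3, .f 816 5 3, .f 817 3 1] 119 136 [2, 4] [(119, 136, [2, 4]),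
  (135, 119, [1])]) .no) (.hor [.f 944 1 3, .f 944 3 1, .f 936 1 3, .f 1064 3 5] [(134, 136, [4,
  4])]) .no (.use 927) .no .no

def c28t943 : Tr4 :=
  .br 944 (.br 1073 (.red [.t 1073 1 3, .f 1082 1 5, .t 962 1 4, .f 947 1 3] 136 136 [] [(135,
  136, [4]), (136, 136, []), (151, 135, [1])]) .no .no (.br 706 .no (.use 942) (.red [.t 705 1 3]
  105 136 [2, 2, 3] [(105, 136, [2, 2, 3])]) (.use 928) (.red [.f 706 5 1, .f 705 1 5, .f 833 5 3,
  .f 833 3 1] 121 136 [2, 3] [(121, 136, [2, 3])]) .no) .no .no) (.red [.t 944 2 3, .f 825 1 5]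
  119 136 [2, 4] [(119, 136, [2, 4])]) .no (.use 931) .no .no

def c28t944 : Tr4 :=
  .br 818 .no (.use 865) .no (.red [.f 810 3 1, .f 818 1 3] 119 136 [2, 4] [(118, 136, [2, 4, 4]),
  (119, 136, [2, 4])]) (.use 943) (.red [.t 953 4 2] 119 136 [2, 4] [(119, 136, [2, 4])])

def c28l33 : List Tr4 :=
  [c28t921, c28t922, c28t923, c28t924, c28t925, c28t926, c28t927, c28t928, c28t929, c28t930,
  c28t931, c28t932, c28t933, c28t934, c28t935, c28t936, c28t937, c28t938, c28t939, c28t940,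
  c28t941, c28t942, c28t943, c28t944]

theorem c28k33 : chkLF ⟨4, 1, 0, true, -8⟩ false 8 c28N 921 c28l33 = true := by decide +kernel

def c28t945 : Tr4 :=
  .br 1219 (.br 1218 (.hor [.f 1218 1 5] []) .no (.use 779) (.br 970 .no (.use 906) (.use 20) .no
  (.red [.t 1090 2 3, .t 1210 3 2, .f 955 3 1, .f 963 1 3] 136 136 [] [(136, 136, []), (152, 136,
  [1])]) .no) .no (.br 970 .no (.use 906) (.use 20) .no (.br 1210 (.use 938) .no .no (.red [.f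
  1074 3 1, .f 1082 1 5, .t 962 1 4, .f 947 1 3] 136 136 [] [(135, 136, [4]), (136, 136, []),
  (151, 135, [1])]) .no (.br 825 .no (.use 910) (.br 818 .no (.br 835 .no (.use 904) (.br 834 .no
  (.use 939) (.use 411) .no .no .no) (.con 136 [2, 2]) .no (.br 841 .no (.br 705 .no (.br 706 .no
  (.hor [.f 577 1 5] []) (.red [.t 954 2 3, .f 825 3 5, .t 713 1 4] 105 136 [2, 2, 3] [(105, 136,
  [2, 2, 3]), (120, 104, [1])]) (.use 412) (.br 697 .no (.red [.f 569 1 3] 88 136 [2, 2, 2] [(88,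
  136, [2, 2, 2])]) .no (.br 824 .no (.use 936) .no (.use 918) .no .no) (.red [.t 954 2 3, .t 834
  4 1, .f 706 5 1, .t 833 4 2] 104 136 [2, 2] [(104, 136, [2, 2])]) (.use 917)) .no) .no (.red [.f
  697 3 1, .f 705 1 3] 105 136 [2, 2, 3] [(104, 136, [2, 2]), (105, 136, [2, 2, 3])]) (.red [.t
  954 2 3, .f 825 3 5, .f 705 5 1, .f 705 1 3] 105 136 [2, 2, 3] [(105, 136, [2, 2, 3]), (120,
  104, [1])]) (.use 919)) (.use 90) .no (.red [.t 954 2 3, .f 825 3 5, .f 833 5 3, .f 833 3 1] 121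
  136 [2, 3] [(120, 104, [1]), (121, 136, [2, 3])]) (.red [.t 954 2 3, .f 825 3 5, .t 960 2 3] 121
  136 [2, 3] [(120, 104, [1]), (121, 136, [2, 3])]))) .no (.red [.f 810 3 1, .f 818 1 3] 119 136
  [2, 4] [(118, 136, [2, 4, 4]), (119, 136, [2, 4])]) (.use 922) (.red [.t 953 4 2] 119 136 [2, 4]
  [(119, 136, [2, 4])])) (.red [.f 817 3 1, .f 825 1 5] 119 136 [2, 4] [(119, 136, [2, 4])]) .no
  (.br 833 .no (.br 834 .no (.hor [.f 705 1 5] []) (.use 402) .no (.br 841 .no (.red [.f 705 1 3]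
  105 136 [2, 2, 3] [(105, 136, [2, 2, 3])]) (.use 90) .no (.use 944) (.red [.t 960 2 3, .t 1080 2
  3, .f 961 1 5] 121 136 [2, 3] [(121, 136, [2, 3]), (136, 136, [])])) .no) (.red [.f 833 3 1, .f
  832 1 5] 121 136 [2, 3] [(121, 136, [2, 3])]) .no (.use 909) .no))) .no)) .no (.red [.f 1091 3
  1, .f 1083 1 3] 153 136 [3, 1] [(152, 136, [1]), (153, 136, [3, 1])]) .no .no (.br 970 .no (.use
  906) (.use 20) .no (.red [.t 1090 2 3, .f 1090 5 1, .f 1083 1 3, .f 955 3 1, .f 963 1 3] 136 136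
  [] [(136, 136, []), (152, 136, [1])]) .no)

def c28t946 : Tr4 :=
  .br 843 .no (.red [.t 714 4 1, .f 705 1 5] 105 136 [2, 2, 3] [(105, 136, [2, 2, 3])]) (.con 136
  [2, 2, 3, 3]) .no .no .no

def c28t947 : Tr4 :=
  .br 944 (.br 699 (.br 698 .no (.use 869) (.red [.t 698 3 1, .f 705 1 5, .t 969 4 2] 121 136 [2,
  3] [(104, 88, [1]), (121, 136, [2, 3])]) (.use 923) .no (.br 840 .no (.br 707 .no (.br 706 .no
  (.hor [.f 578 1 5] []) (.use 946) .no .no .no) (.con 136 [2, 2, 3, 3]) .no .no (.red [.f 706 5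
  1, .f 705 1 5, .t 969 4 2] 121 136 [2, 3] [(121, 136, [2, 3])])) (.hor [.f 840 3 5] []) .no .no
  .no)) (.con 136 [2, 4, 2, 3, 3]) (.con 136 [2, 4, 2, 3, 3]) (.con 136 [2, 4, 2, 3, 3]) .no (.con
  136 [2, 4, 2, 3, 3])) (.red [.t 944 2 3, .f 825 1 5] 119 136 [2, 4] [(119, 136, [2, 4])]) .no
  (.br 816 .no (.br 706 .no (.use 930) (.br 840 .no (.use 946) (.hor [.f 840 3 5] []) .no .no .no)
  (.br 699 (.red [.t 698 3 1, .f 705 1 5, .t 969 4 2] 121 136 [2, 3] [(104, 88, [1]), (121, 136,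
  [2, 3])]) (.con 136 [2, 4, 2, 3, 2]) (.con 136 [2, 4, 2, 3, 3]) (.con 136 [2, 4, 2, 2]) .no .no)
  (.red [.f 706 5 1, .f 705 1 5, .t 969 4 2] 121 136 [2, 3] [(121, 136, [2, 3])]) .no) .no (.red
  [.f 808 3 1, .t 944 2 3, .f 825 1 5] 119 136 [2, 4] [(118, 136, [2, 4, 4]), (119, 136, [2, 4])])
  (.red [.f 816 5 3, .f 817 3 1] 119 136 [2, 4] [(119, 136, [2, 4])]) .no) .no .no

def c28t948 : Tr4 :=
  .br 841 .no (.red [.f 705 1 3, .f 833 3 1] 121 136 [2, 3] [(105, 136, [2, 2, 3]), (121, 136, [2,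
  3])]) (.br 818 .no (.use 920) .no (.red [.f 810 3 1, .f 818 1 3] 119 136 [2, 4] [(118, 136, [2,
  4, 4]), (119, 136, [2, 4])]) (.br 834 .no (.hor [.f 705 1 5] []) .no .no (.br 971 .no (.hor [.f
  842 1 5] []) (.use 947) .no .no .no) .no) (.red [.t 953 4 2] 119 136 [2, 4] [(119, 136, [2,
  4])])) .no .no (.red [.t 960 2 3, .t 1080 2 3, .f 961 1 5] 121 136 [2, 3] [(121, 136, [2, 3]),
  (136, 136, [])])

def c28t949 : Tr4 :=
  .br 818 .no (.br 706 (.br 824 .no (.br 697 .no (.br 705 .no (.red [.f 569 1 3, .f 697 3 1] 104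
  136 [2, 2] [(88, 136, [2, 2, 2]), (104, 136, [2, 2])]) (.br 841 .no .no (.br 698 .no (.hor [.f
  569 1 5] []) .no .no (.br 707 .no (.br 840 .no (.br 577 .no (.use 519) (.red [.f 577 3 1, .f 569
  1 3] 89 136 [2, 2, 3, 2] [(88, 136, [2, 2, 2]), (89, 136, [2, 2, 3, 2])]) .no (.br 714 .no (.red
  [.t 713 4 2, .f 569 1 3] 89 136 [2, 2, 3, 2] [(88, 136, [2, 2, 2]), (89, 136, [2, 2, 3, 2])])
  (.use 882) .no (.red [.t 834 2 3, .t 954 2 3, .f 825 3 5, .t 969 4 2, .f 706 3 1] 121 136 [2, 3]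
  [(120, 104, [1]), (121, 136, [2, 3])]) .no) (.con 136 [2, 2, 3, 2, 4])) (.hor [.f 840 3 5] [])
  .no .no .no) (.red [.f 707 3 1, .f 706 1 5, .t 954 2 3, .f 825 3 5, .t 969 4 2, .t 842 4 2] 121
  136 [2, 3] [(120, 104, [1]), (121, 136, [2, 3])]) .no .no .no) .no) .no .no (.red [.t 960 2 3,
  .t 1080 2 3, .f 961 1 5] 121 136 [2, 3] [(121, 136, [2, 3]), (136, 136, [])])) .no .no (.use
  630)) (.red [.f 697 3 1, .f 696 1 5] 104 136 [2, 2] [(104, 136, [2, 2])]) (.use 936) (.red [.t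
  833 4 2, .f 696 1 5] 104 136 [2, 2] [(104, 136, [2, 2])]) .no) .no (.use 880) .no .no) (.con 136
  [2, 2, 3, 1]) (.con 136 [2, 2, 3, 1]) (.con 136 [2, 2, 3, 1]) (.con 136 [2, 2, 3, 1]) (.con 136
  [2, 2, 3, 1])) .no (.red [.f 810 3 1, .f 818 1 3] 119 136 [2, 4] [(118, 136, [2, 4, 4]), (119,
  136, [2, 4])]) (.use 900) (.red [.t 953 4 2] 119 136 [2, 4] [(119, 136, [2, 4])])

def c28t950 : Tr4 :=
  .br 833 .no (.br 825 .no (.use 907) .no (.red [.f 817 3 1, .f 825 1 5] 119 136 [2, 4] [(119,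
  136, [2, 4])]) .no (.use 948)) (.red [.f 833 3 1, .f 832 1 5] 121 136 [2, 3] [(121, 136, [2,
  3])]) (.br 835 .no (.use 904) (.use 949) (.con 136 [2, 2]) .no (.use 482)) (.red [.t 969 4 2, .f
  832 1 5] 121 136 [2, 3] [(121, 136, [2, 3])]) .no

def c28t951 : Tr4 :=
  .br 970 (.red [.f 962 1 3, .f 1090 3 5, .t 1210 3 2, .f 955 3 1, .t 962 3 1] 136 136 [] [(136,
  136, []), (152, 136, [1])]) (.use 950) (.use 83) .no (.red [.t 1090 2 3, .t 1210 3 2, .f 955 3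
  1, .f 963 1 3] 136 136 [] [(136, 136, []), (152, 136, [1])]) .no

def c28t952 : Tr4 :=
  .br 1208 (.use 929) .no .no (.hor [.f 1200 3 5] []) .no .no

def c28t953 : Tr4 :=
  .br 944 (.br 1209 (.use 860) .no .no (.use 952) .no (.use 937)) (.red [.t 944 2 3, .f 825 1 5]
  119 136 [2, 4] [(119, 136, [2, 4])]) .no (.use 931) .no .no

def c28t954 : Tr4 :=
  .br 577 .no (.use 934) (.red [.f 577 3 1, .f 569 1 3] 89 136 [2, 2, 3, 2] [(88, 136, [2, 2, 2]),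
  (89, 136, [2, 2, 3, 2])]) .no (.red [.t 705 3 1, .f 577 5 1, .f 569 1 3, .f 697 3 1, .f 705 1 3]
  104 136 [2, 2] [(88, 136, [2, 2, 2]), (104, 136, [2, 2])]) (.use 692)

def c28t955 : Tr4 :=
  .br 834 .no (.br 818 .no (.br 824 .no (.br 697 .no (.br 705 .no (.red [.f 569 1 3, .f 697 3 1]
  104 136 [2, 2] [(88, 136, [2, 2, 2]), (104, 136, [2, 2])]) (.br 841 .no .no (.br 842 .no (.use
  502) (.hor [.f 841 3 5] []) .no .no .no) .no (.br 840 .no (.use 954) (.red [.f 840 3 1] 122 136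
  [2, 3, 3] [(122, 136, [2, 3, 3])]) .no .no .no) (.red [.t 960 2 3, .t 1080 2 3, .f 961 1 5] 121
  136 [2, 3] [(121, 136, [2, 3]), (136, 136, [])])) .no .no (.use 630)) (.red [.f 697 3 1, .f 696
  1 5] 104 136 [2, 2] [(104, 136, [2, 2])]) (.use 936) (.red [.t 833 4 2, .f 696 1 5] 104 136 [2,
  2] [(104, 136, [2, 2])]) .no) .no (.use 880) .no .no) .no (.red [.f 810 3 1, .f 818 1 3] 119 136
  [2, 4] [(118, 136, [2, 4, 4]), (119, 136, [2, 4])]) (.use 881) (.red [.t 953 4 2] 119 136 [2, 4]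
  [(119, 136, [2, 4])])) (.use 411) .no .no .no

def c28t956 : Tr4 :=
  .br 835 .no (.use 904) (.use 955) (.con 136 [2, 2]) .no (.use 482)

def c28t957 : Tr4 :=
  .br 840 .no (.hor [.f 712 1 5] []) (.red [.f 840 3 1] 122 136 [2, 3, 3] [(122, 136, [2, 3, 3])])
  .no .no .no

def c28t958 : Tr4 :=
  .br 841 .no (.use 957) (.use 506) .no (.red [.f 833 5 3, .f 833 3 1] 121 136 [2, 3] [(121, 136,
  [2, 3])]) (.red [.t 960 2 3, .t 1080 2 3, .f 961 1 5] 121 136 [2, 3] [(121, 136, [2, 3]), (136,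
  136, [])])

def c28t959 : Tr4 :=
  .br 833 .no (.use 907) (.red [.f 833 3 1, .f 832 1 5] 121 136 [2, 3] [(121, 136, [2, 3])]) .no
  (.use 958) .no

def c28t960 : Tr4 :=
  .br 834 .no (.br 824 .no (.br 697 .no (.br 705 .no (.red [.f 569 1 3, .f 697 3 1] 104 136 [2, 2]
  [(88, 136, [2, 2, 2]), (104, 136, [2, 2])]) (.br 841 .no .no (.br 842 .no (.use 502) (.hor [.f
  841 3 5] []) .no .no .no) .no (.br 840 .no (.use 954) (.red [.f 840 3 1] 122 136 [2, 3, 3]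
  [(122, 136, [2, 3, 3])]) .no .no .no) (.red [.t 960 2 3, .t 1080 2 3, .f 961 1 5] 121 136 [2, 3]
  [(121, 136, [2, 3]), (136, 136, [])])) .no .no (.use 630)) (.red [.f 697 3 1, .f 696 1 5] 104
  136 [2, 2] [(104, 136, [2, 2])]) (.use 936) (.red [.t 833 4 2, .f 696 1 5] 104 136 [2, 2] [(104,
  136, [2, 2])]) .no) .no (.use 880) .no .no) (.use 411) .no .no .no

def c28t961 : Tr4 :=
  .br 825 .no (.use 959) (.br 835 .no (.use 904) (.use 960) (.con 136 [2, 2]) .no (.use 482))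
  (.red [.f 817 3 1, .f 825 1 5] 119 136 [2, 4] [(119, 136, [2, 4])]) .no (.br 833 .no (.use 920)
  (.red [.f 833 3 1, .f 832 1 5] 121 136 [2, 3] [(121, 136, [2, 3])]) .no (.use 958) .no)

def c28t962 : Tr4 :=
  .br 834 .no (.use 899) (.use 411) .no (.use 482) .no

def c28t963 : Tr4 :=
  .br 834 .no (.hor [.f 705 1 5] []) (.use 402) .no (.br 841 .no (.use 651) (.use 203) .no (.use
  944) (.red [.t 960 2 3, .t 1080 2 3, .f 961 1 5] 121 136 [2, 3] [(121, 136, [2, 3]), (136, 136,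
  [])])) .no

def c28t964 : Tr4 :=
  .br 970 (.br 833 .no (.br 825 .no (.use 907) .no (.red [.f 817 3 1, .f 825 1 5] 119 136 [2, 4]
  [(119, 136, [2, 4])]) .no (.use 963)) (.red [.f 833 3 1, .f 832 1 5] 121 136 [2, 3] [(121, 136,
  [2, 3])]) (.use 956) (.use 652) .no) (.use 950) (.use 83) .no (.br 818 .no (.use 961) .no (.red
  [.f 810 3 1, .f 818 1 3] 119 136 [2, 4] [(118, 136, [2, 4, 4]), (119, 136, [2, 4])]) (.br 825
  .no (.use 959) (.use 962) (.red [.f 817 3 1, .f 825 1 5] 119 136 [2, 4] [(119, 136, [2, 4])])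
  .no (.br 833 .no (.br 834 .no (.hor [.f 705 1 5] []) (.use 402) .no (.br 841 .no (.use 957)
  (.use 201) .no (.use 943) (.red [.t 960 2 3, .t 1080 2 3, .f 961 1 5] 121 136 [2, 3] [(121, 136,
  [2, 3]), (136, 136, [])])) .no) (.red [.f 833 3 1, .f 832 1 5] 121 136 [2, 3] [(121, 136, [2,
  3])]) .no (.use 958) .no)) (.red [.t 953 4 2] 119 136 [2, 4] [(119, 136, [2, 4])])) .no

def c28t965 : Tr4 :=
  .br 977 .no (.red [.f 962 1 3, .f 961 3 5, .f 841 5 1, .f 841 1 3] 122 136 [2, 3, 3] [(122, 136,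
  [2, 3, 3]), (137, 121, [1])]) (.br 978 .no (.con 136 [2, 3, 3, 3]) (.hor [.f 977 3 5] []) .no
  .no .no) .no (.red [.f 977 5 1, .f 970 1 3] 138 136 [3, 3] [(138, 136, [3, 3])]) .no

def c28t966 : Tr4 :=
  .br 1208 (.br 1345 (.br 1202 (.hor [.f 1202 1 3, .f 1074 3 1, .f 1073 1 5] [(151, 119, [1, 1]),
  (167, 168, [4])]) .no .no (.br 816 .no (.use 925) .no (.br 1346 (.hor [.f 1345 1 5] []) .no (.br
  1347 (.br 1200 (.use 812) .no .no (.br 939 (.red [.f 939 1 3, .f 938 3 5, .f 818 5 1, .f 818 1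
  3] 119 136 [2, 4] [(119, 136, [2, 4]), (134, 118, [1])]) (.red [.t 938 3 2, .f 818 1 3] 119 136
  [2, 4] [(118, 136, [2, 4, 4]), (119, 136, [2, 4])]) .no (.br 1064 .no (.red [.f 936 1 3, .f 808
  3 1] 118 136 [2, 4, 4] [(118, 136, [2, 4, 4]), (134, 136, [4, 4])]) .no (.br 1065 (.hor [.f 1065
  1 3, .f 1192 3 5] [(150, 136, [4, 4, 1])]) (.br 936 .no .no .no (.red [.f 928 3 1, .f 936 1 5]
  133 136 [4, 4, 4] [(133, 136, [4, 4, 4])]) .no .no) .no (.br 1066 .no .no .no (.hor [.f 1057 3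
  5] []) (.red [.t 946 4 1, .f 818 5 1, .f 818 1 3] 119 136 [2, 4] [(119, 136, [2, 4]), (134, 118,
  [1])]) .no) (.br 1339 (.red [.f 1339 1 3] 184 136 [1, 1, 1] [(184, 136, [1, 1, 1])]) .no .no
  (.br 1067 (.con 136 [4, 1, 1, 4, 2, 2, 2]) .no .no (.red [.f 931 3 1, .f 939 1 3, .f 938 3 5, .f
  818 5 1, .f 818 1 3] 119 136 [2, 4] [(119, 136, [2, 4]), (133, 118, [1, 4]), (134, 118, [1])])
  .no .no) .no .no) .no) (.br 936 .no .no .no (.br 699 (.br 698 .no (.use 869) .no (.use 923) .no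
  (.br 937 .no (.use 941) .no (.hor [.f 928 3 5] []) .no .no)) (.con 136 [2, 4, 2, 3, 3]) (.con
  136 [2, 4, 2, 3, 3]) (.con 136 [2, 4, 2, 3, 3]) .no (.con 136 [2, 4, 2, 3, 3])) (.red [.f 944 1
  3, .f 936 5 1, .f 944 3 1, .f 936 1 3, .f 808 3 1] 118 136 [2, 4, 4] [(118, 136, [2, 4, 4]),
  (134, 136, [4, 4])]) .no) .no) .no .no) .no .no) .no (.hor [.f 1346 3 5] []) (.red [.f 1081 3 1,
  .f 1081 1 3, .t 1338 2 3] 168 136 [1, 1] [(168, 136, [1, 1])]) .no .no) .no (.red [.f 1081 3 1,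
  .f 1081 1 3, .f 1218 5 1, .f 1210 1 3] 168 136 [1, 1] [(168, 136, [1, 1])]) .no) (.red [.f 944 1
  3, .f 816 5 3, .f 817 3 1] 119 136 [2, 4] [(119, 136, [2, 4]), (135, 119, [1])]) .no) (.red [.t
  1082 4 1, .t 962 1 4, .f 947 1 3] 136 136 [] [(135, 136, [4]), (136, 136, []), (151, 135, [1])])
  .no) .no (.use 777) (.red [.f 1081 3 1, .f 1081 1 3, .f 1209 3 1] 168 136 [1, 1] [(168, 136, [1,
  1])]) (.red [.f 944 1 3, .t 1209 3 1] 168 136 [1, 1] [(135, 119, [1]), (168, 136, [1, 1])])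
  (.red [.f 944 1 3, .t 1208 1 3] 168 136 [1, 1] [(135, 119, [1]), (168, 136, [1, 1])])) .no .no
  (.br 1347 (.br 1346 (.hor [.f 1346 1 5] []) .no (.br 1227 (.red [.t 1354 4 2] 169 136 [3, 1, 1]
  [(169, 136, [3, 1, 1])]) .no (.br 1106 (.br 1105 (.hor [.f 1105 1 5] []) (.con 136 [3, 3, 3])
  (.con 136 [3, 3, 1, 3]) .no .no (.con 136 [3, 3, 1, 3])) (.red [.f 962 1 3, .f 962 3 1, .f 970 1
  3, .f 970 3 5] 138 136 [3, 3] [(138, 136, [3, 3])]) (.use 885) .no (.red [.t 970 1 3] 138 136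
  [3, 3] [(138, 136, [3, 3])]) (.use 965)) .no .no (.red [.f 1218 5 3, .f 1218 3 1] 169 136 [3, 1,
  1] [(169, 136, [3, 1, 1])])) .no .no (.red [.f 944 1 3, .t 1209 3 1] 168 136 [1, 1] [(135, 119,
  [1]), (168, 136, [1, 1])])) .no (.use 853) (.red [.f 1081 3 1, .f 1081 1 3, .t 1338 2 3] 168 136
  [1, 1] [(168, 136, [1, 1])]) .no (.red [.f 1081 3 1, .f 1081 1 3, .f 1218 5 1, .f 1210 1 3] 168
  136 [1, 1] [(168, 136, [1, 1])])) .no .no

def c28l34 : List Tr4 :=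
  [c28t945, c28t946, c28t947, c28t948, c28t949, c28t950, c28t951, c28t952, c28t953, c28t954,
  c28t955, c28t956, c28t957, c28t958, c28t959, c28t960, c28t961, c28t962, c28t963, c28t964,
  c28t965, c28t966]

theorem c28k34 : chkLF ⟨4, 1, 0, true, -8⟩ false 8 c28N 945 c28l34 = true := by decide +kernel

end Pool.Agent.FT4D
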