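import Pool.Agent.FT4D.Tab_c28

/-!
# Four levels: decision trees (found by a computer search)
-/

namespace Pool.Agent.FT4D

def c28t967 : Tr4 :=
  .br 1219 (.br 1218 (.hor [.f 1218 1 5] []) .no (.use 779) (.use 951) .no (.br 1210 (.br 970 (.br
  833 .no (.br 825 .no (.use 907) .no (.red [.f 817 3 1, .f 825 1 5] 119 136 [2, 4] [(119, 136,
  [2, 4])]) .no (.br 834 .no (.hor [.f 705 1 5] []) (.use 402) .no (.br 841 .no (.use 651) (.use
  203) .no (.br 818 .no (.use 865) .no (.red [.f 810 3 1, .f 818 1 3] 119 136 [2, 4] [(118, 136,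
  [2, 4, 4]), (119, 136, [2, 4])]) (.use 953) (.red [.t 953 4 2] 119 136 [2, 4] [(119, 136, [2,
  4])])) (.red [.t 960 2 3, .t 1080 2 3, .f 961 1 5] 121 136 [2, 3] [(121, 136, [2, 3]), (136,
  136, [])])) .no)) (.red [.f 833 3 1, .f 832 1 5] 121 136 [2, 3] [(121, 136, [2, 3])]) (.use 956)
  (.use 652) .no) (.use 950) (.use 83) .no (.br 818 .no (.use 961) .no (.red [.f 810 3 1, .f 818 1
  3] 119 136 [2, 4] [(118, 136, [2, 4, 4]), (119, 136, [2, 4])]) (.br 825 .no (.use 959) (.use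
  962) (.red [.f 817 3 1, .f 825 1 5] 119 136 [2, 4] [(119, 136, [2, 4])]) .no (.br 833 .no (.br
  834 .no (.hor [.f 705 1 5] []) (.use 402) .no (.br 841 .no (.use 957) (.use 201) .no (.use 953)
  (.red [.t 960 2 3, .t 1080 2 3, .f 961 1 5] 121 136 [2, 3] [(121, 136, [2, 3]), (136, 136,
  [])])) .no) (.red [.f 833 3 1, .f 832 1 5] 121 136 [2, 3] [(121, 136, [2, 3])]) .no (.use 958)
  .no)) (.red [.t 953 4 2] 119 136 [2, 4] [(119, 136, [2, 4])])) .no) .no .no (.red [.f 1074 3 1,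
  .f 1082 1 5, .t 962 1 4, .f 947 1 3] 136 136 [] [(135, 136, [4]), (136, 136, []), (151, 135,
  [1])]) .no (.use 964))) .no (.red [.f 1091 3 1, .f 1083 1 3] 153 136 [3, 1] [(152, 136, [1]),
  (153, 136, [3, 1])]) .no .no (.br 970 (.br 833 .no (.br 825 .no (.use 907) .no (.red [.f 817 3
  1, .f 825 1 5] 119 136 [2, 4] [(119, 136, [2, 4])]) .no (.br 1210 (.br 834 .no (.hor [.f 705 1
  5] []) (.use 402) .no (.br 841 .no (.use 651) (.use 203) .no (.br 818 .no (.use 865) .no (.red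
  [.f 810 3 1, .f 818 1 3] 119 136 [2, 4] [(118, 136, [2, 4, 4]), (119, 136, [2, 4])]) (.br 944
  (.br 1209 (.use 851) .no (.br 706 .no (.br 1096 (.red [.f 1088 1 3] 153 136 [3, 1] [(153, 136,
  [3, 1])]) .no (.use 65) .no (.br 971 .no (.con 136 [2, 3, 3]) (.br 1073 (.use 966) .no .no (.use
  942) .no .no) .no .no .no) .no) (.red [.t 705 1 3] 105 136 [2, 2, 3] [(105, 136, [2, 2, 3])])
  (.use 928) (.red [.f 706 5 1, .f 705 1 5, .f 833 5 3, .f 833 3 1] 121 136 [2, 3] [(121, 136, [2,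
  3])]) .no) (.use 952) .no (.use 937)) (.red [.t 944 2 3, .f 825 1 5] 119 136 [2, 4] [(119, 136,
  [2, 4])]) .no (.use 931) .no .no) (.red [.t 953 4 2] 119 136 [2, 4] [(119, 136, [2, 4])])) (.red
  [.t 960 2 3, .t 1080 2 3, .f 961 1 5] 121 136 [2, 3] [(121, 136, [2, 3]), (136, 136, [])])) .no)
  .no .no (.red [.f 1074 3 1, .f 1082 1 5, .t 962 1 4, .f 947 1 3] 136 136 [] [(135, 136, [4]),
  (136, 136, []), (151, 135, [1])]) .no (.use 963))) (.red [.f 833 3 1, .f 832 1 5] 121 136 [2, 3]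
  [(121, 136, [2, 3])]) (.use 956) (.use 652) .no) (.use 950) (.use 83) .no (.red [.t 1090 2 3, .f
  1090 5 1, .f 1083 1 3, .f 955 3 1, .f 963 1 3] 136 136 [] [(136, 136, []), (152, 136, [1])])
  .no)

def c28t968 : Tr4 :=
  .br 1219 (.br 1227 (.red [.f 1219 1 3, .f 1218 3 5] 169 136 [3, 1, 1] [(169, 136, [3, 1, 1])])
  .no (.br 1106 (.br 1105 (.red [.f 1097 1 3] 154 136 [3, 3, 1] [(154, 136, [3, 3, 1])]) (.con 136
  [3, 3, 3]) (.con 136 [3, 3, 1, 3]) .no .no (.con 136 [3, 3, 1, 3])) (.red [.f 962 1 3, .f 962 3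
  1, .f 970 1 3, .f 970 3 5] 138 136 [3, 3] [(138, 136, [3, 3])]) (.use 885) .no (.red [.t 970 1
  3] 138 136 [3, 3] [(138, 136, [3, 3])]) (.use 965)) .no .no .no) .no (.hor [.f 1218 3 5] []) .no
  .no .no

def c28t969 : Tr4 :=
  .br 1105 (.red [.f 1097 1 3] 154 136 [3, 3, 1] [(154, 136, [3, 3, 1])]) (.con 136 [3, 3, 1, 3])
  (.con 136 [3, 3, 1, 3]) .no .no (.con 136 [3, 3, 3, 1])

def c28t970 : Tr4 :=
  .br 1107 (.red [.f 962 1 3, .f 1090 3 5, .f 1098 5 1, .f 1099 1 3] 154 136 [3, 3, 1] [(137, 136,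
  [3]), (154, 136, [3, 3, 1])]) .no (.use 969) .no .no .no

def c28t971 : Tr4 :=
  .br 1218 (.br 1219 (.hor [.f 1218 1 5] []) .no (.br 1217 (.hor [.f 1217 1 5] []) .no .no .no .no
  (.br 1106 (.br 1226 (.hor [.f 1218 1 3, .f 1218 3 5] [(169, 154, [4, 1])]) .no .no .no .no .no)
  (.red [.f 962 1 3, .f 962 3 1, .f 970 1 3, .f 970 3 5] 138 136 [3, 3] [(138, 136, [3, 3])])
  (.use 199) .no (.red [.t 970 1 3] 138 136 [3, 3] [(138, 136, [3, 3])]) (.use 965))) .no .no .no)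
  .no (.use 968) .no (.br 1216 (.br 1217 (.hor [.f 1216 1 5] []) .no .no .no .no .no) .no (.use
  195) .no (.br 1106 (.br 1226 (.br 1105 (.red [.f 1097 1 3] 154 136 [3, 3, 1] [(154, 136, [3, 3,
  1])]) (.con 136 [3, 3, 3]) (.br 1227 (.hor [.f 1226 1 5] []) .no (.con 136 [3, 3, 1, 3]) .no .no
  .no) .no .no (.br 1227 (.hor [.f 1226 1 5] []) .no (.con 136 [3, 3, 1, 3]) .no .no .no)) .no .no
  .no (.use 970) .no) (.red [.f 962 1 3, .f 962 3 1, .f 970 1 3, .f 970 3 5] 138 136 [3, 3] [(138,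
  136, [3, 3])]) (.br 1105 (.red [.f 1097 1 3] 154 136 [3, 3, 1] [(154, 136, [3, 3, 1])]) (.con
  136 [3, 3, 3]) (.hor [.f 1105 3 5] []) .no .no (.br 978 .no (.br 977 .no (.hor [.f 849 1 5] [])
  (.con 136 [2, 3, 3, 3]) .no .no .no) (.red [.f 978 3 1] 139 136 [3, 3, 3] [(139, 136, [3, 3,
  3])]) .no .no (.red [.t 1096 4 1, .f 1096 5 3, .t 1097 3 2] 138 136 [3, 3] [(138, 136, [3, 3]),
  (153, 154, [4])]))) .no (.red [.t 970 1 3] 138 136 [3, 3] [(138, 136, [3, 3])]) (.use 965)) .no)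
  (.br 1219 (.br 1106 (.br 1226 (.br 1227 (.hor [.f 1226 1 5] []) .no (.br 1105 (.red [.f 1097 1
  3] 154 136 [3, 3, 1] [(154, 136, [3, 3, 1])]) (.con 136 [3, 3, 3]) (.con 136 [3, 3, 1, 3]) .no
  .no (.con 136 [3, 3, 1, 3])) .no .no .no) .no .no .no (.use 970) .no) (.red [.f 962 1 3, .f 962
  3 1, .f 970 1 3, .f 970 3 5] 138 136 [3, 3] [(138, 136, [3, 3])]) (.br 1227 (.br 1226 (.hor [.f
  1226 1 5] []) .no (.br 1107 (.red [.f 962 1 3, .f 1090 3 5, .t 1234 4 2] 154 136 [3, 3, 1]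
  [(137, 121, [1]), (154, 136, [3, 3, 1])]) .no (.hor [.f 1106 3 5] []) .no .no .no) .no .no .no)
  .no (.use 885) .no .no (.br 1107 (.red [.f 962 1 3, .f 1090 3 5, .f 1098 5 1, .f 1099 1 3] 154
  136 [3, 3, 1] [(137, 121, [1]), (154, 136, [3, 3, 1])]) .no (.hor [.f 1106 3 5] []) .no .no
  .no)) .no (.red [.t 970 1 3] 138 136 [3, 3] [(138, 136, [3, 3])]) (.use 965)) .no (.br 1106 (.br
  1107 (.red [.f 962 1 3, .f 1091 3 1, .f 1099 1 3] 154 136 [3, 3, 1] [(137, 121, [1]), (153, 136,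
  [3, 1]), (154, 136, [3, 3, 1])]) .no (.use 969) .no .no .no) (.red [.f 962 1 3, .f 962 3 1, .f
  970 1 3, .f 970 3 5] 138 136 [3, 3] [(138, 136, [3, 3])]) (.use 199) .no (.red [.t 970 1 3] 138
  136 [3, 3] [(138, 136, [3, 3])]) (.use 965)) .no .no .no)

def c28t972 : Tr4 :=
  .br 944 (.br 706 .no (.br 816 .no (.use 925) .no (.br 697 .no (.use 924) .no (.br 698 .no (.br
  699 (.use 866) (.con 136 [2, 4, 2, 3, 3]) (.con 136 [2, 4, 2, 3, 3]) (.con 136 [2, 4, 2, 2]) .no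
  .no) .no (.use 923) (.con 136 [2, 4, 2, 3, 3]) .no) (.br 699 (.br 817 .no (.use 940) .no (.use
  867) .no .no) (.con 136 [2, 4, 2, 3, 3]) (.con 136 [2, 4, 2, 3, 3]) (.con 136 [2, 4, 2, 3, 3])
  .no .no) (.use 868)) (.red [.f 944 1 3, .f 816 5 3, .f 817 3 1] 119 136 [2, 4] [(119, 136, [2,
  4]), (135, 119, [1])]) .no) (.red [.t 705 1 3] 105 136 [2, 2, 3] [(105, 136, [2, 2, 3])]) (.use
  928) (.red [.f 706 5 1, .f 705 1 5, .f 833 5 3, .f 833 3 1] 121 136 [2, 3] [(121, 136, [2, 3])])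
  .no) (.red [.t 944 2 3, .f 825 1 5] 119 136 [2, 4] [(119, 136, [2, 4])]) .no (.use 931) .no .no

def c28t973 : Tr4 :=
  .br 834 .no (.hor [.f 705 1 5] []) (.use 402) .no (.br 818 .no (.use 865) .no (.red [.f 810 3 1,
  .f 818 1 3] 119 136 [2, 4] [(118, 136, [2, 4, 4]), (119, 136, [2, 4])]) (.br 970 (.br 841 .no
  (.use 651) (.use 203) .no (.br 944 (.br 706 .no (.br 1097 (.br 971 .no (.con 136 [2, 3, 3]) (.br
  1073 (.br 1209 (.hor [.f 1209 1 5] []) .no (.br 1218 (.hor [.f 1210 1 3, .f 1209 3 5] [(168,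
  136, [1, 1])]) .no (.use 968) .no (.br 1216 (.br 1208 (.red [.f 1208 1 3, .f 1208 3 5] 168 136
  [1, 1] [(168, 136, [1, 1])]) .no .no (.br 1336 (.br 1337 (.hor [.f 1336 1 5] []) .no (.red [.f
  1081 3 1, .f 1081 1 3, .f 1209 3 1] 168 136 [1, 1] [(168, 136, [1, 1])]) (.br 1339 (.br 1347
  (.red [.f 1339 1 3] 184 136 [1, 1, 1] [(184, 136, [1, 1, 1])]) .no (.br 1346 (.br 1345 (.hor [.f
  1345 1 5] []) .no (.con 136 [3, 1, 1, 1]) .no .no .no) .no (.hor [.f 1346 3 5] []) .no .no (.red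
  [.f 944 1 3, .t 1209 3 1] 168 136 [1, 1] [(135, 119, [1]), (168, 136, [1, 1])])) .no .no (.red
  [.f 1081 3 1, .f 1081 1 3, .f 1218 5 1, .f 1210 1 3] 168 136 [1, 1] [(168, 136, [1, 1])])) .no
  (.red [.f 1081 3 1, .f 1081 1 3, .t 1338 2 3] 168 136 [1, 1] [(168, 136, [1, 1])]) (.con 136 [4,
  1, 1, 1]) .no .no) .no .no) .no .no (.red [.f 1200 3 1, .f 1208 1 3, .f 1208 3 5] 168 136 [1, 1]
  [(167, 136, [4, 1, 1]), (168, 136, [1, 1])]) (.red [.t 1216 1 4, .f 1209 1 5] 168 136 [1, 1]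
  [(168, 136, [1, 1])]) .no) .no .no) .no (.use 195) (.hor [.f 1208 3 5] []) .no .no) .no) .no .no
  (.use 971)) .no .no (.use 942) .no .no) .no .no .no) .no (.br 971 .no (.con 136 [2, 3, 3]) (.use
  197) .no .no .no) .no .no .no) (.red [.t 705 1 3] 105 136 [2, 2, 3] [(105, 136, [2, 2, 3])])
  (.use 928) (.red [.f 706 5 1, .f 705 1 5, .f 833 5 3, .f 833 3 1] 121 136 [2, 3] [(121, 136, [2,
  3])]) .no) (.red [.t 944 2 3, .f 825 1 5] 119 136 [2, 4] [(119, 136, [2, 4])]) .no (.use 931)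
  .no .no) (.red [.t 960 2 3, .t 1080 2 3, .f 961 1 5] 121 136 [2, 3] [(121, 136, [2, 3]), (136,
  136, [])])) (.use 948) (.use 83) .no (.br 841 .no (.use 505) (.use 201) .no (.use 972) (.red [.t
  960 2 3, .t 1080 2 3, .f 961 1 5] 121 136 [2, 3] [(121, 136, [2, 3]), (136, 136, [])])) .no)
  (.red [.t 953 4 2] 119 136 [2, 4] [(119, 136, [2, 4])])) .no

def c28t974 : Tr4 :=
  .br 1088 (.br 968 (.br 1098 (.br 1219 (.br 1097 (.hor [.f 1097 1 5] []) .no (.br 818 .no (.use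
  903) .no (.red [.f 810 3 1, .f 818 1 3] 119 136 [2, 4] [(118, 136, [2, 4, 4]), (119, 136, [2,
  4])]) (.br 970 .no (.br 833 .no (.use 872) (.red [.f 833 3 1, .f 832 1 5] 121 136 [2, 3] [(121,
  136, [2, 3])]) (.use 900) (.red [.t 969 4 2, .f 832 1 5] 121 136 [2, 3] [(121, 136, [2, 3])])
  .no) (.use 20) .no (.br 841 .no (.br 833 .no (.red [.f 705 1 3, .f 833 3 1] 121 136 [2, 3]
  [(105, 136, [2, 2, 3]), (121, 136, [2, 3])]) .no (.br 834 .no (.use 899) (.use 411) .no (.use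
  896) .no) (.use 897) .no) (.use 22) (.red [.f 833 3 1, .f 832 1 5] 121 136 [2, 3] [(121, 136,
  [2, 3])]) (.use 898) (.red [.t 960 2 3, .t 1080 2 3, .f 961 1 5] 121 136 [2, 3] [(121, 136, [2,
  3]), (136, 136, [])])) .no) (.red [.t 953 4 2] 119 136 [2, 4] [(119, 136, [2, 4])])) .no .no
  .no) .no (.red [.f 1091 3 1, .f 1083 1 3] 153 136 [3, 1] [(152, 136, [1]), (153, 136, [3, 1])])
  .no .no (.red [.t 1098 1 4, .f 1083 1 3] 153 136 [3, 1] [(152, 136, [1]), (153, 136, [3, 1])]))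
  (.con 136 [3, 3]) (.use 17) .no .no (.use 945)) (.red [.f 832 1 3] 121 136 [2, 3] [(121, 136,
  [2, 3])]) (.use 967) .no .no .no) .no (.br 968 .no (.red [.f 832 1 3, .f 960 3 1, .f 952 1 3, .f
  1080 3 5] 121 136 [2, 3] [(121, 136, [2, 3]), (136, 136, []), (137, 136, [3])]) (.br 1210 (.br
  833 .no (.br 825 .no (.use 907) .no (.red [.f 817 3 1, .f 825 1 5] 119 136 [2, 4] [(119, 136,
  [2, 4])]) .no (.use 973)) (.red [.f 833 3 1, .f 832 1 5] 121 136 [2, 3] [(121, 136, [2, 3])])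
  (.br 835 .no (.use 654) (.br 970 (.use 955) (.use 949) (.use 83) .no (.br 818 .no (.use 960) .no
  (.red [.f 810 3 1, .f 818 1 3] 119 136 [2, 4] [(118, 136, [2, 4, 4]), (119, 136, [2, 4])]) (.use
  962) (.red [.t 953 4 2] 119 136 [2, 4] [(119, 136, [2, 4])])) .no) (.con 136 [2, 2]) .no (.use
  482)) (.use 653) .no) .no (.use 951) (.red [.f 1074 3 1, .f 1082 1 5, .t 962 1 4, .f 947 1 3]
  136 136 [] [(135, 136, [4]), (136, 136, []), (151, 135, [1])]) .no (.use 964)) .no .no .no) .no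
  .no .no

def c28t975 : Tr4 :=
  .br 818 .no (.br 944 (.con 136 [2, 4, 4]) (.br 825 .no (.use 403) .no (.red [.f 817 3 1, .f 816
  1 5] 119 136 [2, 4] [(119, 136, [2, 4])]) .no (.red [.t 944 2 3, .f 825 1 5] 119 136 [2, 4]
  [(119, 136, [2, 4])])) .no (.con 136 [2, 4, 4]) .no .no) .no (.red [.f 810 3 1, .f 818 1 5] 118
  136 [2, 4, 4] [(118, 136, [2, 4, 4])]) .no (.red [.t 953 4 2] 119 136 [2, 4] [(119, 136, [2,
  4])])

def c28t976 : Tr4 :=
  .br 947 .no (.use 975) .no (.hor [.f 938 3 5] []) .no .no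

def c28t977 : Tr4 :=
  .br 824 .no (.hor [.f 696 1 5] []) .no (.br 819 .no (.con 136 [2, 4, 2]) (.red [.t 954 2 3, .t
  834 4 1, .t 826 1 4] 119 136 [2, 4] [(119, 136, [2, 4])]) (.con 136 [2, 4, 2]) .no (.con 136 [2,
  4, 2])) .no .no

def c28t978 : Tr4 :=
  .br 697 .no (.br 705 .no (.red [.f 569 1 3, .f 697 3 1] 104 136 [2, 2] [(88, 136, [2, 2, 2]),
  (104, 136, [2, 2])]) (.use 409) .no .no (.use 405)) (.red [.f 697 3 1, .f 705 1 5] 104 136 [2,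
  2] [(104, 136, [2, 2])]) (.con 136 [2, 4, 2, 4]) (.red [.t 833 4 2] 104 136 [2, 2] [(104, 136,
  [2, 2])]) (.use 415)

def c28t979 : Tr4 :=
  .br 947 .no (.br 818 .no (.br 944 (.con 136 [2, 4, 4]) (.br 706 (.use 978) (.con 136 [2, 2, 3,
  1]) (.con 136 [2, 2, 3, 1]) (.con 136 [2, 2, 3, 1]) (.con 136 [2, 2, 3, 1]) (.con 136 [2, 2, 3,
  1])) .no (.con 136 [2, 4, 4]) .no .no) .no (.red [.f 810 3 1, .f 818 1 5] 118 136 [2, 4, 4]
  [(118, 136, [2, 4, 4])]) .no (.red [.t 953 4 2] 119 136 [2, 4] [(119, 136, [2, 4])])) .no (.hor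
  [.f 938 3 5] []) .no .no

def c28l35 : List Tr4 :=
  [c28t967, c28t968, c28t969, c28t970, c28t971, c28t972, c28t973, c28t974, c28t975, c28t976,
  c28t977, c28t978, c28t979]

theorem c28k35 : chkLF ⟨4, 1, 0, true, -8⟩ false 8 c28N 967 c28l35 = true := by decide +kernel

def c28t980 : Tr4 :=
  .br 819 .no (.br 824 .no (.br 699 (.red [.f 691 1 3] 103 136 [2, 2, 4] [(103, 136, [2, 2, 4])])
  (.con 136 [2, 4, 2, 3]) (.con 136 [2, 4, 2, 3]) .no .no (.con 136 [2, 4, 2, 3])) .no (.con 136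
  [2, 4, 2]) .no .no) (.red [.t 826 1 4, .f 945 3 5] 119 136 [2, 4] [(119, 136, [2, 4])]) (.hor
  [.f 810 3 5] []) .no .no

def c28t981 : Tr4 :=
  .br 697 .no (.use 424) (.red [.f 697 3 1, .f 705 1 5] 104 136 [2, 2] [(104, 136, [2, 2])]) (.br
  824 .no (.con 136 [2, 2, 4, 2]) .no (.con 136 [2, 2, 4]) .no .no) (.red [.t 833 4 2] 104 136 [2,
  2] [(104, 136, [2, 2])]) (.con 136 [2, 2, 4])

def c28t982 : Tr4 :=
  .br 818 .no (.use 864) .no (.hor [.f 810 3 5] []) .no (.red [.t 953 4 2] 119 136 [2, 4] [(119,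
  136, [2, 4])])

def c28t983 : Tr4 :=
  .br 819 .no (.red [.f 691 1 3] 103 136 [2, 2, 4] [(103, 136, [2, 2, 4])]) .no (.use 982) .no
  (.use 972)

def c28t984 : Tr4 :=
  .br 1098 (.br 1097 (.hor [.f 1097 1 5] []) .no (.br 841 .no (.br 833 .no (.red [.f 705 1 3, .f
  833 3 1] 121 136 [2, 3] [(105, 136, [2, 2, 3]), (121, 136, [2, 3])]) .no (.br 835 .no (.use 902)
  (.br 834 .no (.br 842 .no (.hor [.f 713 1 5] []) (.use 895) .no .no .no) (.use 411) .no .no .no)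
  (.con 136 [2, 2]) .no (.use 896)) (.use 897) .no) (.use 22) (.red [.f 833 3 1, .f 832 1 5] 121
  136 [2, 3] [(121, 136, [2, 3])]) (.use 898) (.red [.t 960 2 3, .t 1080 2 3, .f 961 1 5] 121 136
  [2, 3] [(121, 136, [2, 3]), (136, 136, [])])) .no .no .no) .no (.use 17) .no .no (.br 827 .no
  (.br 825 .no (.br 824 .no (.hor [.f 696 1 5] []) .no (.con 136 [2, 2, 4]) .no .no) (.br 835 .no
  (.use 904) (.br 818 .no (.br 834 .no (.use 981) (.use 411) .no .no .no) .no (.use 980) (.use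
  922) (.red [.t 953 4 2] 119 136 [2, 4] [(119, 136, [2, 4])])) .no .no (.br 841 .no (.br 819 .no
  (.red [.f 691 1 3] 103 136 [2, 2, 4] [(103, 136, [2, 2, 4])]) .no (.br 705 .no (.use 426) .no
  (.red [.f 697 3 1, .f 705 1 3] 105 136 [2, 2, 3] [(104, 136, [2, 2]), (105, 136, [2, 2, 3])])
  (.red [.t 954 2 3, .f 825 3 5, .f 705 5 1, .f 705 1 3] 105 136 [2, 2, 3] [(105, 136, [2, 2, 3]),
  (120, 104, [1])]) (.br 824 .no (.red [.t 824 2 3, .f 705 1 3] 105 136 [2, 2, 3] [(104, 136, [2,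
  2]), (105, 136, [2, 2, 3])]) .no (.con 136 [2, 2, 4]) .no .no)) .no (.use 921)) (.use 90) .no
  (.red [.t 954 2 3, .f 825 3 5, .f 833 5 3, .f 833 3 1] 121 136 [2, 3] [(120, 104, [1]), (121,
  136, [2, 3])]) (.red [.t 954 2 3, .f 825 3 5, .t 960 2 3] 121 136 [2, 3] [(120, 104, [1]), (121,
  136, [2, 3])]))) (.red [.f 817 3 1, .f 825 1 5] 119 136 [2, 4] [(119, 136, [2, 4])]) .no (.br
  833 .no (.br 834 .no (.hor [.f 705 1 5] []) (.use 402) .no (.br 841 .no (.red [.f 705 1 3] 105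
  136 [2, 2, 3] [(105, 136, [2, 2, 3])]) (.use 90) .no (.use 983) (.red [.t 960 2 3, .t 1080 2 3,
  .f 961 1 5] 121 136 [2, 3] [(121, 136, [2, 3]), (136, 136, [])])) .no) (.red [.f 833 3 1, .f 832
  1 5] 121 136 [2, 3] [(121, 136, [2, 3])]) .no (.br 835 .no (.use 908) (.red [.t 961 3 1, .f 833
  5 1, .t 834 1 3] 121 136 [2, 3] [(121, 136, [2, 3]), (137, 121, [1])]) .no .no .no) .no)) (.red
  [.f 827 3 1, .f 826 1 5, .f 946 5 3, .f 945 3 5, .t 1089 4 2, .t 962 4 2] 136 136 [] [(136, 136,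
  [])]) (.red [.t 826 1 4, .f 945 3 5] 119 136 [2, 4] [(119, 136, [2, 4])]) .no .no)

def c28t985 : Tr4 :=
  .br 970 (.con 136 [3, 3]) (.br 833 .no (.br 954 .no (.br 946 .no (.red [.f 818 1 3] 119 136 [2,
  4] [(119, 136, [2, 4])]) .no (.use 976) (.br 841 .no (.red [.f 705 1 3, .f 833 3 1] 121 136 [2,
  3] [(105, 136, [2, 2, 3]), (121, 136, [2, 3])]) (.br 834 .no (.hor [.f 705 1 5] []) .no .no (.br
  971 .no (.hor [.f 842 1 5] []) (.br 827 .no (.use 871) .no (.red [.t 954 2 3, .t 834 4 1, .t 826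
  1 4] 119 136 [2, 4] [(119, 136, [2, 4])]) .no .no) .no .no .no) .no) .no .no (.red [.t 960 2 3,
  .t 1080 2 3, .f 961 1 5] 121 136 [2, 3] [(121, 136, [2, 3]), (136, 136, [])])) .no) .no (.hor
  [.f 945 3 5] []) .no .no) (.red [.f 833 3 1, .f 832 1 5] 121 136 [2, 3] [(121, 136, [2, 3])])
  (.br 954 .no (.br 835 .no (.use 904) (.br 1088 (.br 1098 (.br 1097 (.hor [.f 1097 1 5] []) .no
  (.br 946 .no (.red [.f 818 1 3] 119 136 [2, 4] [(119, 136, [2, 4])]) .no (.use 979) (.br 834 .no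
  (.br 818 .no (.br 819 .no (.hor [.f 690 1 5] []) (.red [.t 826 1 4, .f 945 3 5] 119 136 [2, 4]
  [(119, 136, [2, 4])]) (.br 824 .no (.br 697 .no (.br 705 .no (.red [.f 569 1 3, .f 697 3 1] 88
  136 [2, 4, 2, 2, 3] [(88, 136, [2, 2, 2]), (104, 136, [2, 2])]) (.use 894) .no .no (.use 630))
  (.red [.f 697 3 1, .f 696 1 5] 104 136 [2, 2] [(104, 136, [2, 2])]) (.con 136 [2, 4, 2, 2])
  (.red [.t 833 4 2, .f 696 1 5] 104 136 [2, 2] [(104, 136, [2, 2])]) .no) .no (.con 136 [2, 4,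
  2]) .no .no) .no .no) .no (.use 980) (.use 881) (.red [.t 953 4 2] 119 136 [2, 4] [(119, 136,
  [2, 4])])) .no .no .no .no) .no) .no .no .no) .no (.use 17) .no .no (.use 905)) .no .no .no .no
  .no) (.con 136 [2, 2]) .no (.red [.t 954 2 3, .f 825 3 5, .t 969 4 2] 121 136 [2, 3] [(120, 104,
  [1]), (121, 136, [2, 3])])) .no (.hor [.f 945 3 5] []) .no .no) (.red [.t 969 4 2, .f 832 1 5]
  121 136 [2, 3] [(121, 136, [2, 3])]) .no) (.use 20) .no (.br 954 .no (.br 946 .no (.red [.f 818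
  1 3] 119 136 [2, 4] [(119, 136, [2, 4])]) .no (.br 947 .no (.br 818 .no (.br 944 (.con 136 [2,
  4, 4]) (.br 825 .no (.use 403) (.br 835 .no (.use 904) (.br 834 .no (.use 978) (.use 411) .no
  .no .no) (.con 136 [2, 2]) .no (.br 841 .no (.br 705 .no (.br 697 .no (.red [.f 569 1 3, .f 697
  3 1] 104 136 [2, 2] [(88, 136, [2, 2, 2]), (104, 136, [2, 2])]) .no (.con 136 [2, 4, 2, 4]) (.br
  706 .no (.hor [.f 577 1 5] []) (.red [.t 954 2 3, .f 825 3 5, .t 713 1 4] 105 136 [2, 2, 3]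
  [(105, 136, [2, 2, 3]), (120, 104, [1])]) .no (.red [.t 954 2 3, .t 834 4 1, .f 706 5 1, .t 833
  4 2] 104 136 [2, 2] [(104, 136, [2, 2])]) .no) (.use 415)) .no (.red [.f 697 3 1, .f 705 1 3]
  105 136 [2, 2, 3] [(104, 136, [2, 2]), (105, 136, [2, 2, 3])]) (.red [.t 954 2 3, .f 825 3 5, .f
  705 5 1, .f 705 1 3] 105 136 [2, 2, 3] [(105, 136, [2, 2, 3]), (120, 104, [1])]) (.use 405))
  (.use 427) .no (.red [.t 954 2 3, .f 825 3 5, .f 833 5 3, .f 833 3 1] 121 136 [2, 3] [(120, 104,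
  [1]), (121, 136, [2, 3])]) (.red [.t 954 2 3, .f 825 3 5, .t 960 2 3] 121 136 [2, 3] [(120, 104,
  [1]), (121, 136, [2, 3])]))) (.red [.f 817 3 1, .f 816 1 5] 119 136 [2, 4] [(119, 136, [2, 4])])
  .no (.red [.t 944 2 3, .f 825 1 5] 119 136 [2, 4] [(119, 136, [2, 4])])) .no (.con 136 [2, 4,
  4]) .no .no) .no (.red [.f 810 3 1, .f 818 1 5] 118 136 [2, 4, 4] [(118, 136, [2, 4, 4])]) .no
  (.red [.t 953 4 2] 119 136 [2, 4] [(119, 136, [2, 4])])) .no (.hor [.f 938 3 5] []) .no .no)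
  (.br 1088 (.use 984) .no .no .no .no .no) .no) .no (.hor [.f 945 3 5] []) .no .no) .no

def c28t986 : Tr4 :=
  .br 827 .no (.use 981) .no (.red [.t 826 1 4, .f 945 3 5] 119 136 [2, 4] [(119, 136, [2, 4])])
  .no .no

def c28t987 : Tr4 :=
  .br 819 .no (.br 699 (.use 983) (.con 136 [2, 4, 2, 3, 3]) (.con 136 [2, 4, 2, 3, 3]) .no .no
  (.con 136 [2, 4, 2, 3, 3])) (.red [.t 954 2 3, .t 834 4 1, .t 826 1 4] 119 136 [2, 4] [(119,
  136, [2, 4])]) (.use 982) .no (.use 972)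

def c28t988 : Tr4 :=
  .br 835 .no (.use 904) (.br 834 .no (.br 818 .no (.use 986) .no (.use 980) (.use 881) (.red [.t
  953 4 2] 119 136 [2, 4] [(119, 136, [2, 4])])) (.use 411) .no .no .no) (.con 136 [2, 2]) .no
  (.use 482)

def c28t989 : Tr4 :=
  .br 970 (.br 833 .no (.br 834 .no (.hor [.f 705 1 5] []) (.use 402) .no (.br 825 .no (.use 977)
  .no (.red [.f 817 3 1, .f 825 1 5] 119 136 [2, 4] [(119, 136, [2, 4])]) .no (.br 841 .no (.use
  651) (.use 203) .no (.use 987) (.red [.t 960 2 3, .t 1080 2 3, .f 961 1 5] 121 136 [2, 3] [(121,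
  136, [2, 3]), (136, 136, [])]))) .no) (.red [.f 833 3 1, .f 832 1 5] 121 136 [2, 3] [(121, 136,
  [2, 3])]) (.use 988) (.use 652) .no) (.br 833 .no (.br 841 .no (.red [.f 705 1 3, .f 833 3 1]
  121 136 [2, 3] [(105, 136, [2, 2, 3]), (121, 136, [2, 3])]) (.br 834 .no (.hor [.f 705 1 5] [])
  .no .no (.br 825 .no (.use 977) .no (.red [.f 817 3 1, .f 825 1 5] 119 136 [2, 4] [(119, 136,
  [2, 4])]) .no (.br 971 .no (.hor [.f 842 1 5] []) (.br 827 .no (.br 819 .no (.red [.f 691 1 3]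
  103 136 [2, 2, 4] [(103, 136, [2, 2, 4])]) .no (.use 982) .no (.use 947)) .no (.red [.t 954 2 3,
  .t 834 4 1, .t 826 1 4] 119 136 [2, 4] [(119, 136, [2, 4])]) .no .no) .no .no .no)) .no) .no .no
  (.red [.t 960 2 3, .t 1080 2 3, .f 961 1 5] 121 136 [2, 3] [(121, 136, [2, 3]), (136, 136,
  [])])) (.red [.f 833 3 1, .f 832 1 5] 121 136 [2, 3] [(121, 136, [2, 3])]) (.br 835 .no (.use
  904) (.br 818 .no (.br 706 (.use 986) (.con 136 [2, 2, 3, 1]) (.con 136 [2, 2, 3, 1]) (.con 136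
  [2, 2, 3, 1]) (.con 136 [2, 2, 3, 1]) (.con 136 [2, 2, 3, 1])) .no (.use 980) (.use 900) (.red
  [.t 953 4 2] 119 136 [2, 4] [(119, 136, [2, 4])])) (.con 136 [2, 2]) .no (.use 482)) (.red [.t
  969 4 2, .f 832 1 5] 121 136 [2, 3] [(121, 136, [2, 3])]) .no) (.use 83) .no (.br 833 .no (.br
  834 .no (.hor [.f 705 1 5] []) (.use 402) .no (.br 825 .no (.use 977) .no (.red [.f 817 3 1, .f
  825 1 5] 119 136 [2, 4] [(119, 136, [2, 4])]) .no (.br 841 .no (.use 957) (.use 201) .no (.use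
  987) (.red [.t 960 2 3, .t 1080 2 3, .f 961 1 5] 121 136 [2, 3] [(121, 136, [2, 3]), (136, 136,
  [])]))) .no) (.red [.f 833 3 1, .f 832 1 5] 121 136 [2, 3] [(121, 136, [2, 3])]) (.use 988)
  (.use 958) .no) .no

def c28t990 : Tr4 :=
  .br 961 .no (.br 960 (.red [.f 952 1 3] 136 136 [] [(136, 136, [])]) (.hor [.f 832 1 5] []) (.br
  1088 (.br 832 .no (.br 954 .no (.use 705) .no (.hor [.f 945 3 5] []) .no .no) (.hor [.f 832 3 1,
  .f 832 1 5] [(121, 136, [2, 3])]) (.br 954 .no (.br 825 .no (.br 946 .no (.red [.f 818 1 3] 119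
  136 [2, 4] [(119, 136, [2, 4])]) .no (.use 861) (.br 1072 (.br 827 .no (.br 819 .no (.red [.f
  691 1 3] 103 136 [2, 2, 4] [(103, 136, [2, 2, 4])]) .no (.br 818 .no (.br 816 (.use 711) (.con
  136 [2, 2, 4, 4]) .no (.br 944 .no .no .no (.red [.f 808 3 1] 118 136 [2, 4, 4] [(118, 136, [2,
  4, 4])]) .no .no) (.con 136 [2, 2, 4, 4]) .no) .no (.hor [.f 810 3 5] []) .no (.red [.t 953 4 2]
  119 136 [2, 4] [(119, 136, [2, 4])])) .no (.red [.f 818 5 1, .f 818 1 3] 119 136 [2, 4] [(119,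
  136, [2, 4])])) (.red [.f 827 3 1, .f 826 1 5, .f 946 5 3, .f 945 3 5, .t 1089 4 2, .t 962 4 2]
  136 136 [] [(136, 136, [])]) (.red [.t 826 1 4, .f 945 3 5] 119 136 [2, 4] [(119, 136, [2, 4])])
  .no .no) (.red [.f 944 1 3, .f 944 3 5, .t 832 4 1, .f 953 3 1] 136 136 [] [(120, 136, [2]),
  (135, 119, [1]), (136, 136, [])]) .no (.br 827 .no (.br 944 .no (.br 818 .no (.br 819 .no (.hor
  [.f 690 1 5] []) .no (.use 711) .no .no) .no (.use 862) (.red [.f 818 5 1, .f 818 1 3] 119 136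
  [2, 4] [(119, 136, [2, 4])]) (.red [.t 953 4 2, .f 816 1 5] 119 136 [2, 4] [(119, 136, [2,
  4])])) .no (.br 818 .no (.br 816 .no (.use 713) .no (.red [.f 808 3 1] 118 136 [2, 4, 4] [(118,
  136, [2, 4, 4])]) (.br 819 .no (.hor [.f 690 1 5] []) .no (.con 136 [2, 2, 4, 4]) .no .no) .no)
  .no (.use 862) (.red [.f 818 5 1, .f 818 1 3] 119 136 [2, 4] [(119, 136, [2, 4])]) (.red [.t 953
  4 2] 119 136 [2, 4] [(119, 136, [2, 4])])) .no .no) (.red [.f 827 3 1, .f 826 1 5, .f 946 5 3,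
  .f 945 3 5, .t 1089 4 2, .t 962 4 2] 136 136 [] [(136, 136, [])]) (.red [.t 826 1 4, .f 945 3 5]
  119 136 [2, 4] [(119, 136, [2, 4])]) .no .no) (.use 398) .no) .no) .no (.red [.f 817 3 1, .f 825
  1 5] 119 136 [2, 4] [(119, 136, [2, 4])]) .no .no) .no (.hor [.f 945 3 5] []) .no .no) .no .no)
  .no (.red [.f 960 3 1, .f 952 1 3, .f 1080 3 5] 136 136 [] [(136, 136, []), (137, 136, [3])])
  .no .no .no) .no .no .no) (.br 960 (.red [.f 952 1 3] 136 136 [] [(136, 136, [])]) (.br 1083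
  (.br 1075 (.use 702) (.br 954 .no (.br 946 .no (.red [.f 818 1 3] 119 136 [2, 4] [(119, 136, [2,
  4])]) .no (.use 974) .no .no) .no (.hor [.f 945 3 5] []) .no .no) .no (.br 968 (.use 985) (.red
  [.f 832 1 3] 121 136 [2, 3] [(121, 136, [2, 3])]) (.br 954 .no (.br 946 .no (.red [.f 818 1 3]
  119 136 [2, 4] [(119, 136, [2, 4])]) .no (.br 947 .no (.br 833 .no (.use 975) (.red [.f 833 3 1,
  .f 832 1 5] 121 136 [2, 3] [(121, 136, [2, 3])]) (.br 835 .no (.use 904) (.br 818 .no (.br 834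
  .no (.br 944 (.con 136 [2, 4, 4]) (.use 978) .no (.con 136 [2, 4, 4]) .no .no) (.use 411) .no
  .no .no) .no (.red [.f 810 3 1, .f 818 1 5] 118 136 [2, 4, 4] [(118, 136, [2, 4, 4])]) .no (.red
  [.t 953 4 2] 119 136 [2, 4] [(119, 136, [2, 4])])) (.con 136 [2, 2]) .no (.use 482)) (.br 970
  (.use 652) (.red [.t 969 4 2, .f 832 1 5] 121 136 [2, 3] [(121, 136, [2, 3])]) (.use 83) .no
  (.use 958) .no) .no) .no (.hor [.f 938 3 5] []) .no .no) (.use 989) .no) .no (.hor [.f 945 3 5]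
  []) .no .no) .no .no .no) .no .no) .no .no (.hor [.f 1074 3 5] []) .no .no) (.hor [.f 960 3 5]
  []) .no .no .no) .no .no (.red [.t 1080 2 3, .f 961 1 5] 136 136 [] [(136, 136, [])])

def c28l36 : List Tr4 :=
  [c28t980, c28t981, c28t982, c28t983, c28t984, c28t985, c28t986, c28t987, c28t988, c28t989,
  c28t990]

theorem c28k36 : chkLF ⟨4, 1, 0, true, -8⟩ false 8 c28N 980 c28l36 = true := by decide +kernel

def c28t991 : Tr4 :=
  .br 953 .no (.br 961 .no (.red [.f 825 1 3, .f 953 3 1] 136 136 [] [(120, 136, [2]), (136, 136,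
  [])]) (.br 954 (.red [.f 954 1 3, .f 954 3 5] 136 136 [] [(136, 136, [])]) (.hor [.f 825 1 5]
  []) .no (.br 1082 (.br 960 (.red [.f 952 1 3] 136 136 [] [(136, 136, [])]) (.br 1083 (.hor [.f
  1082 1 5] []) .no (.red [.f 955 3 1, .f 962 1 5] 136 136 [] [(136, 136, [])]) (.use 366) .no
  .no) (.hor [.f 960 3 5] []) .no .no .no) .no .no (.red [.f 946 3 1, .f 954 1 3] 136 136 []
  [(135, 136, [4]), (136, 136, [])]) (.red [.t 962 1 4, .f 1081 3 5] 136 136 [] [(136, 136, [])])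
  .no) .no .no) .no .no (.red [.t 1080 2 3, .f 961 1 5] 136 136 [] [(136, 136, [])])) (.red [.f
  953 3 1, .f 952 1 5] 136 136 [] [(136, 136, [])]) (.br 1082 (.br 1091 (.use 591) .no (.br 961
  .no (.br 960 (.red [.f 952 1 3] 136 136 [] [(136, 136, [])]) (.hor [.f 832 1 5] []) (.br 1088
  (.br 832 .no (.use 608) (.hor [.f 832 3 1, .f 832 1 5] [(121, 136, [2, 3])]) (.br 1075 (.use
  592) (.use 599) (.use 611) (.use 598) .no (.use 606)) .no .no) .no (.red [.f 960 3 1, .f 952 1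
  3, .f 1080 3 5] 136 136 [] [(136, 136, []), (137, 136, [3])]) .no .no .no) .no .no .no) (.br 960
  (.red [.f 952 1 3] 136 136 [] [(136, 136, [])]) (.br 1075 (.use 592) (.use 599) (.use 701) (.use
  598) .no (.use 606)) (.hor [.f 960 3 5] []) .no .no .no) .no .no (.red [.t 1080 2 3, .f 961 1 5]
  136 136 [] [(136, 136, [])])) (.red [.f 955 3 1, .f 962 1 5] 136 136 [] [(136, 136, [])]) .no
  .no) (.red [.f 954 1 3, .f 954 3 5] 136 136 [] [(136, 136, [])]) .no (.br 1091 (.br 1083 (.red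
  [.f 1083 1 3, .f 955 3 1, .f 962 1 5] 136 136 [] [(136, 136, []), (152, 136, [1])]) .no .no
  (.hor [.f 1074 3 5] []) .no .no) .no (.use 990) (.red [.f 955 3 1, .f 962 1 5] 136 136 [] [(136,
  136, [])]) .no .no) (.red [.t 962 1 4, .f 1081 3 5] 136 136 [] [(136, 136, [])]) .no) (.red [.t
  1089 4 2, .f 952 1 5] 136 136 [] [(136, 136, [])]) .no

def c28l37 : List Tr4 :=
  [c28t991]

theorem c28k37 : chkLF ⟨4, 1, 0, true, -8⟩ false 8 c28N 991 c28l37 = true := by decide +kernel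

end Pool.Agent.FT4D
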