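import Pool.Agent.FT4D.ChainF4
import Pool.Agent.FT4D.Tr_c28_0
import Pool.Agent.FT4D.Tr_c28_1
import Pool.Agent.FT4D.Tr_c28_2
import Pool.Agent.FT4D.Tr_c28_3
import Pool.Agent.FT4D.Tr_c28_4
import Pool.Agent.FT4D.Tr_c28_5

/-!
# Four levels: the chunks of the trees `c28` together
-/

namespace Pool.Agent.FT4D

theorem c28H : Holds ⟨4, 1, 0, true, -8⟩ false 8 [] := by
  have h0 := chStart ⟨4, 1, 0, true, -8⟩ false 8 c28N
  have h1 := chStepF c28l0 43 h0 c28k0 (by decide +kernel) (by decide +kernel)
  have h2 := chStepF c28l1 70 h1 c28k1 (by decide +kernel) (by decide +kernel)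
  have h3 := chStepF c28l2 103 h2 c28k2 (by decide +kernel) (by decide +kernel)
  have h4 := chStepF c28l3 137 h3 c28k3 (by decide +kernel) (by decide +kernel)
  have h5 := chStepF c28l4 161 h4 c28k4 (by decide +kernel) (by decide +kernel)
  have h6 := chStepF c28l5 189 h5 c28k5 (by decide +kernel) (by decide +kernel)
  have h7 := chStepF c28l6 237 h6 c28k6 (by decide +kernel) (by decide +kernel)
  have h8 := chStepF c28l7 268 h7 c28k7 (by decide +kernel) (by decide +kernel)
  have h9 := chStepF c28l8 292 h8 c28k8 (by decide +kernel) (by decide +kernel)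
  have h10 := chStepF c28l9 316 h9 c28k9 (by decide +kernel) (by decide +kernel)
  have h11 := chStepF c28l10 329 h10 c28k10 (by decide +kernel) (by decide +kernel)
  have h12 := chStepF c28l11 337 h11 c28k11 (by decide +kernel) (by decide +kernel)
  have h13 := chStepF c28l12 357 h12 c28k12 (by decide +kernel) (by decide +kernel)
  have h14 := chStepF c28l13 381 h13 c28k13 (by decide +kernel) (by decide +kernel)
  have h15 := chStepF c28l14 426 h14 c28k14 (by decide +kernel) (by decide +kernel)
  have h16 := chStepF c28l15 470 h15 c28k15 (by decide +kernel) (by decide +kernel)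
  have h17 := chStepF c28l16 516 h16 c28k16 (by decide +kernel) (by decide +kernel)
  have h18 := chStepF c28l17 554 h17 c28k17 (by decide +kernel) (by decide +kernel)
  have h19 := chStepF c28l18 574 h18 c28k18 (by decide +kernel) (by decide +kernel)
  have h20 := chStepF c28l19 604 h19 c28k19 (by decide +kernel) (by decide +kernel)
  have h21 := chStepF c28l20 623 h20 c28k20 (by decide +kernel) (by decide +kernel)
  have h22 := chStepF c28l21 640 h21 c28k21 (by decide +kernel) (by decide +kernel)
  have h23 := chStepF c28l22 661 h22 c28k22 (by decide +kernel) (by decide +kernel)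
  have h24 := chStepF c28l23 688 h23 c28k23 (by decide +kernel) (by decide +kernel)
  have h25 := chStepF c28l24 700 h24 c28k24 (by decide +kernel) (by decide +kernel)
  have h26 := chStepF c28l25 723 h25 c28k25 (by decide +kernel) (by decide +kernel)
  have h27 := chStepF c28l26 760 h26 c28k26 (by decide +kernel) (by decide +kernel)
  have h28 := chStepF c28l27 780 h27 c28k27 (by decide +kernel) (by decide +kernel)
  have h29 := chStepF c28l28 811 h28 c28k28 (by decide +kernel) (by decide +kernel)
  have h30 := chStepF c28l29 835 h29 c28k29 (by decide +kernel) (by decide +kernel)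
  have h31 := chStepF c28l30 856 h30 c28k30 (by decide +kernel) (by decide +kernel)
  have h32 := chStepF c28l31 885 h31 c28k31 (by decide +kernel) (by decide +kernel)
  have h33 := chStepF c28l32 921 h32 c28k32 (by decide +kernel) (by decide +kernel)
  have h34 := chStepF c28l33 945 h33 c28k33 (by decide +kernel) (by decide +kernel)
  have h35 := chStepF c28l34 967 h34 c28k34 (by decide +kernel) (by decide +kernel)
  have h36 := chStepF c28l35 980 h35 c28k35 (by decide +kernel) (by decide +kernel)
  have h37 := chStepF c28l36 991 h36 c28k36 (by decide +kernel) (by decide +kernel)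
  have h38 := chStepF c28l37 992 h37 c28k37 (by decide +kernel) (by decide +kernel)
  exact chEnd h38 991 (by decide +kernel) (by decide +kernel)

end Pool.Agent.FT4D
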