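import Pool.Agent.FT4D.Tab_f10

/-!
# Four levels: decision trees (found by a computer search)
-/

namespace Pool.Agent.FT4D

def f10t0 : Tr4 :=
  .br 1090 (.hor [.f 1090 1 5] []) .no (.con 136 [1, 3]) (.red [.f 954 3 1, .f 954 1 5] 136 136 []
  [(136, 136, [])]) .no (.con 136 [3])

def f10t1 : Tr4 :=
  .br 1088 (.con 153 [2]) (.con 136 [3]) (.hor [.f 1088 3 5] []) (.con 153 [2]) .no .no

def f10t2 : Tr4 :=
  .br 961 .no (.hor [.f 832 1 5] []) (.con 121 [4]) .no .no .no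

def f10t3 : Tr4 :=
  .br 961 .no (.con 120 [3]) (.hor [.f 960 3 5] []) .no .no .no

def f10t4 : Tr4 :=
  .br 1089 (.br 1091 (.con 136 [3]) (.con 137 [1]) (.con 136 [3]) (.con 136 [3]) .no .no) (.red
  [.f 953 1 3, .f 953 3 5] 136 136 [] [(136, 136, [])]) (.hor [.f 1089 3 5] []) .no .no (.con 136
  [1, 3])

def f10t5 : Tr4 :=
  .br 961 (.red [.f 953 1 3, .f 953 3 5] 136 136 [] [(136, 136, [])]) (.con 136 [3]) (.con 136
  [3]) .no .no (.con 136 [3])

def f10t6 : Tr4 :=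
  .br 1089 (.con 137 [1]) (.con 137 [1]) (.hor [.f 1089 3 5] []) .no .no (.con 137 [1])

def f10t7 : Tr4 :=
  .br 1090 (.br 1089 (.hor [.f 1089 1 5] []) (.red [.t 961 1 4] 136 136 [] [(136, 136, [])]) (.use
  1) .no .no (.br 960 .no (.br 961 .no (.hor [.f 832 1 5] []) (.con 121 [4]) .no .no .no) (.br 961
  .no (.con 120 [3]) (.hor [.f 960 3 5] []) .no .no .no) .no (.red [.f 960 5 1, .t 961 1 4] 136
  136 [] [(136, 136, [])]) .no)) .no (.use 6) .no .no (.red [.f 1081 5 3, .f 954 3 1] 136 136 []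
  [(136, 136, [])])

def f10t8 : Tr4 :=
  .br 1090 (.red [.f 1082 1 3, .f 954 3 1] 136 136 [] [(136, 136, []), (152, 136, [1])]) .no (.con
  137 [1]) .no .no .no

def f10t9 : Tr4 :=
  .br 1089 (.con 137 [1]) (.con 137 [1]) (.hor [.f 1089 3 5] []) .no .no (.con 137 [1])

def f10t10 : Tr4 :=
  .br 1073 .no .no .no (.hor [.f 1064 3 5] []) (.red [.f 936 3 1, .t 944 1 3] 135 119 [1] [(134,
  119, [1, 4]), (135, 119, [1])]) .no

def f10t11 : Tr4 :=
  .br 1072 (.red [.t 1200 2 3, .f 1081 1 5, .f 1081 5 3, .f 954 3 1] 136 136 [] [(136, 136, []),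
  (151, 167, [2])]) .no .no (.use 10) (.red [.f 1072 5 3, .f 945 3 1, .t 953 1 3] 136 136 []
  [(135, 119, [1]), (136, 136, [])]) .no

def f10t12 : Tr4 :=
  .br 1083 (.con 136 [4, 1]) .no (.con 136 [4, 1]) (.hor [.f 1074 3 5] []) .no .no

def f10t13 : Tr4 :=
  .br 1211 (.br 1219 (.red [.f 1211 1 3] 168 167 [3] [(168, 167, [3])]) .no (.br 1217 (.red [.f
  1209 1 3] 168 167 [3] [(168, 167, [3])]) .no (.con 153 [1]) .no (.con 153 [1]) .no) .no .no
  (.red [.f 1090 5 1, .f 1082 1 3] 152 136 [1] [(152, 136, [1])])) .no (.red [.t 1210 2 3, .f 954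
  3 1] 136 136 [] [(136, 136, []), (152, 136, [1])]) (.red [.f 1075 3 1, .f 1082 1 5, .f 1082 5 3,
  .f 954 3 1] 136 136 [] [(136, 136, []), (151, 135, [1])]) .no .no

def f10t14 : Tr4 :=
  .br 826 .no (.hor [.f 697 1 5] []) (.con 103 [3]) (.con 103 [3]) .no .no

def f10t15 : Tr4 :=
  .br 834 .no (.con 104 [3]) (.con 105 [1]) (.hor [.f 825 3 5] []) .no .no

def f10t16 : Tr4 :=
  .br 946 (.hor [.f 946 1 5] []) (.con 119 [4, 1]) .no (.con 118 [1]) .no .no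

def f10t17 : Tr4 :=
  .br 1098 (.hor [.f 1097 1 5] []) (.con 138 [4]) (.con 154 [2]) .no .no .no

def f10t18 : Tr4 :=
  .br 970 .no (.br 969 .no (.hor [.f 841 1 5] []) (.con 121 [3]) .no .no .no) (.br 969 .no (.con
  122 [4]) (.hor [.f 969 3 5] []) .no .no .no) .no .no (.hor [.f 969 5 1, .f 960 3 1, .f 960 1 5,
  .f 963 3 1, .f 968 1 5] [])

def f10t19 : Tr4 :=
  .br 1216 (.con 153 [1]) .no (.br 1097 (.use 17) (.hor [.f 1091 3 1, .f 1090 1 5, .f 961 1 3, .f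
  1088 3 1, .f 961 3 1] []) (.br 1098 (.con 138 [1]) (.con 138 [4]) (.hor [.f 1097 3 5] []) .no
  .no .no) .no (.use 18) .no) (.con 153 [1]) (.con 153 [1]) .no

def f10t20 : Tr4 :=
  .br 1072 (.br 1211 (.br 1219 (.br 1209 (.red [.f 1211 1 3] 168 136 [1, 1] [(168, 136, [1, 1])])
  .no (.br 1210 (.hor [.f 1210 1 5] []) .no .no (.br 1075 (.red [.t 1202 3 2, .f 1082 1 3] 152 136
  [1] [(151, 167, [2]), (152, 136, [1])]) (.use 16) .no (.br 1073 (.hor [.f 1072 1 5] []) .no .no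
  (.con 167 [2, 4]) (.con 167 [2, 4]) .no) .no (.red [.f 1074 5 3, .f 1074 3 1] 151 167 [2] [(151,
  167, [2])])) .no .no) (.red [.f 1211 1 3] 168 136 [1, 1] [(168, 136, [1, 1])]) (.red [.f 1211 1
  3] 168 136 [1, 1] [(168, 136, [1, 1])]) (.red [.f 1211 1 3] 168 136 [1, 1] [(168, 136, [1,
  1])])) .no (.use 19) .no .no .no) .no (.red [.t 1218 2 4, .f 954 3 1, .f 961 1 5] 136 136 []
  [(136, 136, []), (152, 136, [1])]) (.br 1073 (.hor [.f 1072 1 5] []) .no .no (.con 119 [1, 1,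
  4]) (.con 119 [1, 1, 4]) .no) .no (.red [.f 1082 5 1, .f 1082 1 3] 152 136 [1] [(152, 136,
  [1])])) .no .no (.br 825 .no (.use 14) (.br 834 .no (.con 104 [1]) (.con 104 [1]) (.hor [.f 825
  3 5] []) (.con 104 [1]) .no) (.red [.f 817 3 1, .f 824 1 5, .f 952 5 1, .f 953 1 3] 136 136 []
  [(119, 120, [4]), (136, 136, [])]) (.br 1219 (.br 1074 (.red [.f 936 3 1, .t 944 1 3, .f 953 1
  3] 136 136 [] [(134, 119, [1, 4]), (135, 119, [1]), (136, 136, [])]) (.br 1211 (.br 1216 (.br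
  1217 (.red [.f 1211 1 3] 168 169 [4] [(168, 169, [4])]) .no (.con 153 [1]) (.br 947 (.use 16)
  (.con 118 [3, 3]) .no (.br 1210 (.hor [.f 1210 1 5] []) .no .no (.br 1075 (.red [.t 1202 3 2, .f
  1082 1 3] 152 136 [1] [(151, 150, [3]), (152, 136, [1])]) .no .no (.red [.f 939 3 1, .f 946 1 5,
  .f 1074 5 3, .f 1074 3 1] 151 167 [2] [(134, 135, [4]), (151, 167, [2])]) .no .no) .no .no) .no
  .no) .no .no) .no (.red [.f 1211 1 3] 168 169 [4] [(168, 169, [4])]) (.red [.f 1211 1 3] 168 169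
  [4] [(168, 169, [4])]) (.red [.f 1211 1 3] 168 169 [4] [(168, 169, [4])]) .no) .no .no (.br 1073
  (.br 1208 (.br 1200 (.red [.f 1200 1 3, .t 1200 3 2] 151 150 [3] [(151, 150, [3]), (167, 166,
  [3])]) .no .no (.red [.f 1064 3 1, .f 1072 1 5, .f 1072 5 3, .f 945 3 1] 135 119 [1] [(135, 119,
  [1]), (150, 151, [4])]) .no .no) .no (.br 1217 (.con 169 [4]) .no (.con 153 [1]) (.hor [.f 1208
  3 5] []) .no .no) (.red [.t 1200 3 2] 151 150 [3] [(151, 150, [3])]) (.red [.f 1080 5 1, .f 1073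
  1 3] 151 150 [3] [(151, 150, [3])]) .no) .no .no (.hor [.f 1064 3 5] []) .no .no) .no (.red [.f
  1082 5 1, .f 1082 1 3] 152 136 [1] [(152, 136, [1])])) .no (.red [.f 936 3 1, .t 944 1 3, .f 953
  1 3] 136 136 [] [(134, 119, [1, 4]), (135, 119, [1]), (136, 136, [])]) (.red [.f 936 3 1, .t 944
  1 3, .f 953 1 3] 136 136 [] [(134, 119, [1, 4]), (135, 119, [1]), (136, 136, [])]) (.red [.f 936
  3 1, .t 944 1 3, .f 953 1 3] 136 136 [] [(134, 119, [1, 4]), (135, 119, [1]), (136, 136, [])]))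
  .no (.use 19) (.red [.t 1218 2 4, .f 954 3 1, .f 961 1 5] 136 136 [] [(136, 136, []), (152, 136,
  [1])]) .no .no) .no) (.red [.f 1072 5 3, .f 945 3 1, .f 953 1 3] 136 136 [] [(135, 119, [1]),
  (136, 136, [])]) .no

def f10t21 : Tr4 :=
  .br 1081 (.br 1082 (.hor [.f 1081 1 5] []) .no (.red [.f 954 3 1, .f 961 1 5] 136 136 [] [(136,
  136, [])]) (.use 12) (.br 1080 (.hor [.f 1080 1 5] []) .no (.br 1091 (.br 1090 (.hor [.f 1090 1
  5] []) .no (.con 137 [1]) .no .no .no) .no (.br 1090 (.con 153 [2]) .no (.hor [.f 1090 3 5] [])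
  .no .no .no) .no .no (.red [.f 1082 5 3, .f 954 3 1] 136 136 [] [(136, 136, [])])) (.con 119 [1,
  1]) .no .no) .no) .no .no (.red [.f 945 3 1, .f 953 1 3] 136 136 [] [(135, 119, [1]), (136, 136,
  [])]) (.red [.t 961 1 4] 136 136 [] [(136, 136, [])]) (.br 1082 (.br 1083 (.hor [.f 1082 1 5]
  []) .no (.con 136 [1]) (.br 1090 (.red [.f 1082 1 3, .f 954 3 1] 136 136 [] [(136, 136, []),
  (152, 136, [1])]) .no (.br 1091 (.con 137 [1]) .no (.hor [.f 1090 3 5] []) .no .no .no) .no (.br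
  1088 (.br 1072 (.br 1209 (.use 13) .no (.red [.t 1216 2 4, .f 1081 1 5] 152 136 [1] [(152, 136,
  [1])]) (.red [.t 1200 2 3, .f 1081 1 5, .t 961 1 4] 136 136 [] [(136, 136, []), (151, 135,
  [1])]) .no (.red [.f 1080 5 1, .f 1081 1 5, .t 961 1 4] 136 136 [] [(136, 136, [])])) (.red [.t
  944 1 3, .f 953 1 3, .f 953 3 5] 136 136 [] [(135, 119, [1]), (136, 136, [])]) .no (.br 1209
  (.use 13) .no (.red [.t 1216 2 4, .f 1081 1 5] 152 136 [1] [(152, 136, [1])]) (.br 944 .no (.red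
  [.f 816 1 3, .f 944 3 5, .f 952 5 1, .f 953 1 3] 136 136 [] [(119, 120, [4]), (136, 136, [])])
  .no (.use 10) .no .no) .no (.red [.f 1080 5 1, .f 1081 1 5, .t 961 1 4] 136 136 [] [(136, 136,
  [])])) (.red [.f 1072 5 3, .f 945 3 1, .f 953 1 3] 136 136 [] [(135, 119, [1]), (136, 136, [])])
  .no) .no (.con 137 [1]) .no .no .no) .no) .no .no) .no (.red [.f 954 3 1, .f 961 1 5] 136 136 []
  [(136, 136, [])]) (.br 1083 (.con 119 [1, 1]) .no (.con 136 [1]) (.hor [.f 1074 3 5] []) .no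
  .no) (.br 1091 (.br 1090 (.hor [.f 1090 1 5] []) .no (.con 137 [1]) .no .no .no) .no (.br 1090
  (.br 1088 (.con 153 [2]) .no (.br 944 (.red [.t 944 1 3, .f 953 1 3, .f 953 3 5] 136 136 []
  [(135, 119, [1]), (136, 136, [])]) (.red [.f 816 1 3, .f 944 3 5, .f 952 5 1, .f 953 1 3] 136
  136 [] [(119, 120, [4]), (136, 136, [])]) .no (.use 20) .no .no) .no .no .no) .no (.hor [.f 1090
  3 5] []) .no .no .no) .no .no (.red [.f 1082 5 3, .f 954 3 1] 136 136 [] [(136, 136, [])])) .no)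

def f10t22 : Tr4 :=
  .br 963 (.br 1083 (.br 1082 (.hor [.f 1082 1 5] []) .no (.red [.f 954 3 1, .f 962 1 5] 136 136
  [] [(136, 136, [])]) (.br 1081 (.con 119 [1, 1]) .no (.con 119 [1, 1]) (.hor [.f 1073 3 5] [])
  .no (.con 119 [1, 1])) .no (.use 7)) .no .no (.br 1082 (.br 1081 (.hor [.f 1081 1 5] []) .no
  (.use 8) (.red [.f 945 3 1] 135 119 [1] [(135, 119, [1])]) .no (.br 1090 (.red [.f 1082 1 3, .f
  954 3 1] 136 136 [] [(136, 136, []), (152, 136, [1])]) .no (.use 9) .no .no (.br 1088 (.br 944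
  (.red [.t 944 1 3, .t 953 1 3] 136 136 [] [(135, 119, [1]), (136, 136, [])]) (.red [.f 816 1 3,
  .f 944 3 5, .f 952 5 1, .t 953 1 3] 136 136 [] [(119, 120, [4]), (136, 136, [])]) .no (.br 1217
  (.br 1209 (.br 1218 (.hor [.f 1217 1 5] []) .no (.red [.f 1209 1 3] 168 169 [4] [(168, 169,
  [4])]) .no (.red [.f 1209 1 3] 168 169 [4] [(168, 169, [4])]) .no) .no .no (.use 11) .no (.red
  [.f 1080 5 1, .f 1080 1 3] 152 136 [1] [(152, 136, [1])])) .no (.br 1209 (.br 1211 (.br 1218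
  (.con 153 [1]) .no (.hor [.f 1217 3 5] []) .no (.con 153 [1]) .no) .no (.br 1218 (.con 153 [1])
  .no (.hor [.f 1217 3 5] []) .no .no .no) (.red [.f 1075 3 1, .f 1082 1 5, .t 962 4 1] 136 136 []
  [(136, 136, []), (151, 135, [1])]) .no .no) .no .no (.use 11) .no (.red [.f 1080 5 1, .f 1080 1
  3] 152 136 [1] [(152, 136, [1])])) (.red [.t 1209 3 2, .f 954 3 1, .f 962 1 5] 136 136 [] [(136,
  136, []), (152, 136, [1])]) (.red [.f 1089 5 1, .f 1082 1 3, .f 954 3 1] 136 136 [] [(136, 136,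
  []), (152, 136, [1])]) .no) .no .no) (.con 136 [3]) (.con 137 [1]) .no .no .no))) .no (.red [.f
  954 3 1, .f 962 1 5] 136 136 [] [(136, 136, [])]) (.hor [.f 1074 3 5] []) .no (.use 7)) .no
  (.red [.t 962 4 1] 136 136 [] [(136, 136, [])])) (.br 1089 (.con 136 [3]) (.br 960 (.con 120
  [3]) (.br 1081 (.br 1082 (.hor [.f 1081 1 5] []) .no (.red [.f 954 3 1, .f 961 1 5] 136 136 []
  [(136, 136, [])]) (.use 12) (.br 1080 (.hor [.f 1080 1 5] []) .no (.br 1090 (.br 1091 (.hor [.f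
  1090 1 5] []) .no (.con 153 [2]) .no .no .no) .no (.br 1091 (.con 137 [1]) .no (.hor [.f 1090 3
  5] []) .no .no .no) .no (.red [.f 1082 5 3, .f 954 3 1] 136 136 [] [(136, 136, [])]) .no) (.con
  119 [1, 1]) .no .no) .no) .no .no (.red [.f 945 3 1, .f 953 1 3] 136 136 [] [(135, 119, [1]),
  (136, 136, [])]) (.red [.t 961 1 4] 136 136 [] [(136, 136, [])]) (.br 825 .no (.use 14) (.use
  15) (.red [.f 817 3 1, .f 824 1 5, .f 952 5 1, .f 953 1 3] 136 136 [] [(119, 120, [4]), (136,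
  136, [])]) (.br 834 .no (.br 833 .no (.hor [.f 705 1 5] []) (.con 104 [3]) .no .no .no) (.br 833
  .no (.con 105 [4]) (.hor [.f 833 3 5] []) .no .no .no) .no .no (.hor [.f 827 1 3, .f 954 3 5, .f
  825 5 3, .f 824 1 3, .f 824 3 5] [])) .no)) (.con 120 [3]) .no .no .no) (.con 136 [3]) (.con 136
  [3]) (.con 136 [3]) (.con 136 [3])) (.br 1089 (.con 136 [3]) (.br 960 (.con 121 [1]) (.con 121
  [4]) (.use 21) .no .no .no) (.con 136 [3]) (.con 136 [3]) (.con 136 [3]) (.con 136 [3])) .no .no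
  .no

def f10t23 : Tr4 :=
  .br 955 (.con 151 [2, 2]) (.con 136 [4, 2]) (.con 136 [2]) (.hor [.f 946 3 5] []) .no .no

def f10t24 : Tr4 :=
  .br 962 .no (.hor [.f 834 1 5] []) (.con 137 [2]) .no .no .no

def f10t25 : Tr4 :=
  .br 962 .no (.con 121 [4]) (.hor [.f 962 3 5] []) .no .no .no

def f10t26 : Tr4 :=
  .br 963 .no (.use 24) (.use 25) .no .no (.red [.f 954 5 3, .f 954 3 1] 136 136 [] [(136, 136,
  [])])

def f10t27 : Tr4 :=
  .br 955 (.hor [.f 954 1 5] []) (.con 136 [4]) (.con 136 [2]) (.con 136 [4]) .no .no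

def f10l0 : List Tr4 :=
  [f10t0, f10t1, f10t2, f10t3, f10t4, f10t5, f10t6, f10t7, f10t8, f10t9, f10t10, f10t11, f10t12,
  f10t13, f10t14, f10t15, f10t16, f10t17, f10t18, f10t19, f10t20, f10t21, f10t22, f10t23, f10t24,
  f10t25, f10t26, f10t27]

theorem f10k0 : chkLF ⟨4, 0, 0, false, -4⟩ true 0 f10N 0 f10l0 = true := by decide +kernel

def f10t28 : Tr4 :=
  .br 963 .no (.con 120 [3]) (.con 121 [1]) (.hor [.f 954 3 5] []) .no .no

def f10t29 : Tr4 :=
  .br 955 .no (.con 136 [4, 2]) (.con 136 [2]) (.hor [.f 946 3 5] []) .no .no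

def f10t30 : Tr4 :=
  .br 962 .no (.hor [.f 834 1 5] []) (.con 120 [3]) .no .no .no

def f10t31 : Tr4 :=
  .br 962 .no (.con 121 [4]) (.hor [.f 962 3 5] []) .no .no .no

def f10t32 : Tr4 :=
  .br 1210 (.hor [.f 1210 1 5] []) .no .no (.con 167 [2, 3]) .no .no

def f10t33 : Tr4 :=
  .br 1216 (.con 153 [1]) .no (.hor [.f 1091 3 1, .f 1090 1 5, .f 962 5 1, .f 961 1 5, .f 1088 3
  1] []) .no (.con 153 [1]) .no

def f10t34 : Tr4 :=
  .br 1219 (.br 1209 (.red [.f 954 5 1, .f 1211 1 3] 168 167 [3] [(168, 167, [3])]) .no (.use 32)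
  (.red [.f 954 5 1, .f 1211 1 3] 168 136 [1, 1] [(168, 136, [1, 1])]) (.red [.f 954 5 1, .f 1211
  1 3] 168 167 [3] [(168, 167, [3])]) .no) .no (.use 33) .no .no .no

def f10t35 : Tr4 :=
  .br 1216 (.con 153 [1]) .no (.hor [.f 1216 3 5] []) .no .no .no

def f10t36 : Tr4 :=
  .br 1098 (.br 1097 (.hor [.f 1097 1 5] []) .no (.con 138 [1]) .no .no .no) .no (.br 1097 (.con
  154 [2]) .no (.hor [.f 1097 3 5] []) .no .no .no) .no .no (.hor [.f 969 5 1, .f 961 1 3, .f 1088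
  3 5, .t 1098 2 4, .f 961 3 5] [])

def f10t37 : Tr4 :=
  .br 970 (.br 1097 (.con 138 [4]) (.hor [.f 969 1 5] []) (.con 138 [4]) .no .no .no) (.br 969
  (.con 121 [3]) (.hor [.f 841 1 5] []) (.con 121 [3]) .no .no (.con 121 [3])) (.hor [.f 970 3 5]
  []) .no .no (.use 36)

def f10t38 : Tr4 :=
  .br 1209 (.br 1210 (.hor [.f 1209 1 5] []) .no .no .no .no .no) .no (.red [.t 1202 2 3, .f 1073
  3 5, .t 1217 4 2] 152 136 [1] [(151, 135, [1]), (152, 136, [1])]) (.con 151 [1]) (.red [.t 1202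
  2 3, .f 1073 3 5, .f 1081 5 1, .f 1082 1 3] 152 136 [1] [(151, 135, [1]), (152, 136, [1])]) .no

def f10t39 : Tr4 :=
  .br 1075 .no .no .no (.br 1074 (.use 38) .no .no (.hor [.f 1066 3 5] []) .no .no) .no (.red [.f
  954 5 1, .f 946 5 1, .f 946 1 3] 135 136 [4] [(135, 136, [4])])

def f10t40 : Tr4 :=
  .br 970 (.br 1097 (.con 138 [4]) (.hor [.f 969 1 5] []) (.con 138 [4]) .no .no .no) (.hor [.f
  842 1 5] []) (.br 969 (.con 122 [1]) (.con 122 [4]) (.hor [.f 969 3 5] []) .no .no (.con 122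
  [4])) .no .no (.use 36)

def f10t41 : Tr4 :=
  .br 1217 (.red [.f 1209 1 3] 168 167 [3] [(168, 167, [3])]) .no (.use 35) .no .no (.br 1219
  (.red [.f 1211 1 3] 168 167 [3] [(168, 167, [3])]) .no (.con 153 [1]) .no .no .no)

def f10t42 : Tr4 :=
  .br 1098 (.con 138 [1]) (.con 138 [4]) (.hor [.f 1097 3 5] []) .no .no .no

def f10t43 : Tr4 :=
  .br 968 .no (.hor [.f 840 1 5] []) (.con 122 [4]) .no .no .no

def f10t44 : Tr4 :=
  .br 968 .no (.con 121 [3]) (.hor [.f 968 3 5] []) .no .no .no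

def f10t45 : Tr4 :=
  .br 953 .no (.br 954 .no (.hor [.f 825 1 5] []) (.use 28) (.use 29) (.br 945 .no (.red [.f 817 1
  3] 119 120 [4] [(119, 120, [4])]) .no (.br 963 .no (.use 30) (.use 31) .no .no (.br 946 (.red
  [.f 954 5 1, .f 946 1 3] 135 136 [4] [(135, 136, [4])]) (.br 1072 (.red [.f 1072 1 3, .f 1072 3
  5, .t 960 4 1] 136 136 [] [(136, 136, []), (151, 135, [1])]) (.br 947 (.con 120 [4, 4]) (.hor
  [.f 818 1 5] []) .no (.con 134 [2]) .no .no) .no (.br 944 .no (.con 120 [4, 4]) .no (.hor [.f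
  936 3 5] []) .no .no) .no .no) .no (.hor [.f 937 3 5] []) (.br 1211 (.use 34) .no (.red [.t 1218
  2 4] 152 136 [1] [(152, 136, [1])]) (.use 39) .no (.red [.f 1082 5 1, .f 1082 1 3] 152 136 [1]
  [(152, 136, [1])])) .no)) (.red [.f 954 5 1, .t 1081 4 2] 135 136 [4] [(135, 136, [4])]) (.br
  963 .no (.use 30) (.use 31) .no .no (.br 1211 (.use 34) .no (.red [.t 1218 2 4] 152 136 [1]
  [(152, 136, [1])]) (.br 1074 (.use 38) (.red [.f 954 5 1, .f 946 1 3] 135 136 [4] [(135, 136,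
  [4])]) .no (.br 946 .no (.br 1072 (.red [.f 1072 1 3, .f 1072 3 5, .t 960 4 1] 136 136 [] [(136,
  136, []), (151, 135, [1])]) .no .no (.br 947 (.con 150 [2]) (.hor [.f 818 1 5] []) .no (.con 120
  [4, 4]) .no .no) .no .no) .no (.red [.f 938 3 1] 134 136 [4, 4] [(134, 136, [4, 4])]) (.use 39)
  .no) (.red [.f 954 5 3, .f 1074 5 3, .f 1073 3 5, .t 961 1 4] 136 136 [] [(136, 136, [])]) .no)
  .no (.red [.f 1082 5 1, .f 1082 1 3] 152 136 [1] [(152, 136, [1])])))) .no) .no (.red [.f 945 3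
  1, .f 953 1 3] 136 136 [] [(135, 136, [4]), (136, 136, [])]) (.br 1211 (.br 1209 (.use 41) .no
  (.use 32) (.red [.f 1073 3 1, .f 1080 1 5, .t 960 4 1] 136 136 [] [(136, 136, []), (151, 135,
  [1])]) (.br 1219 (.red [.f 1211 1 3] 168 167 [3] [(168, 167, [3])]) .no (.br 1216 (.con 153 [1])
  .no (.br 1097 (.use 17) (.hor [.f 1091 3 1, .f 1090 1 5, .f 961 1 3, .f 1088 3 1, .f 961 3 1]
  []) (.use 42) .no (.red [.f 1091 3 1, .f 1090 1 5, .f 1082 5 3, .t 1089 2 4, .f 1089 5 3, .t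
  1098 4 1] 136 136 [] [(136, 136, [])]) .no) .no (.con 153 [1]) .no) .no .no .no) .no) .no (.red
  [.t 1218 2 4, .t 1089 2 4, .f 952 3 5] 136 136 [] [(136, 136, []), (152, 136, [1])]) (.br 963
  .no (.br 962 .no (.hor [.f 834 1 5] []) (.con 120 [3]) .no .no .no) (.br 962 .no (.con 121 [4])
  (.hor [.f 962 3 5] []) .no .no .no) (.con 136 [2]) .no (.br 971 .no (.use 40) (.use 37) .no .no
  (.br 1219 (.br 1210 (.br 1209 (.hor [.f 1209 1 5] []) .no (.br 969 (.con 137 [3]) (.use 43)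
  (.use 44) .no .no (.red [.t 1088 3 2, .t 1208 2 3, .f 952 3 1, .f 960 1 3] 136 136 [] [(136,
  136, []), (152, 136, [1])])) (.con 151 [1]) .no .no) .no .no (.hor [.f 1202 3 5] []) .no (.br
  1097 (.br 1098 (.hor [.f 1097 1 5] []) .no (.con 154 [2]) .no .no .no) (.con 137 [3]) (.br 1098
  (.con 138 [1]) .no (.hor [.f 1097 3 5] []) .no .no .no) .no (.br 1217 (.br 1216 (.hor [.f 1216 1
  5] []) .no (.con 169 [2]) .no .no .no) .no (.use 35) .no .no (.br 969 .no (.use 43) (.use 44)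
  .no .no (.red [.t 1088 3 2, .f 1088 5 1, .f 1080 1 3, .f 952 3 1, .f 960 1 3] 136 136 [] [(136,
  136, []), (152, 136, [1])]))) .no)) .no (.use 33) .no .no .no))) .no (.red [.f 1082 5 1, .f 1082
  1 3, .t 1089 2 4] 136 136 [] [(136, 136, []), (152, 136, [1])])) .no

def f10t46 : Tr4 :=
  .br 963 .no (.use 30) (.use 31) .no .no (.red [.f 954 5 3, .t 961 1 4] 136 136 [] [(136, 136,
  [])])

def f10t47 : Tr4 :=
  .br 955 (.con 119 [3]) (.hor [.f 826 1 5] []) (.con 119 [3]) (.con 119 [3]) .no .no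

def f10t48 : Tr4 :=
  .br 953 .no (.br 954 .no (.hor [.f 825 1 5] []) (.use 28) (.br 955 (.br 963 .no (.br 962 .no
  (.hor [.f 834 1 5] []) (.con 120 [3]) .no .no .no) (.br 962 .no (.con 121 [4]) (.hor [.f 962 3
  5] []) .no .no .no) .no .no (.br 971 .no (.use 40) (.use 37) .no .no (.br 969 (.con 137 [3])
  (.use 43) (.use 44) .no .no (.red [.t 1088 3 2, .f 962 5 3, .f 963 3 1, .f 955 1 3] 136 136 []
  [(136, 136, [])])))) (.con 120 [4]) (.con 136 [2]) (.hor [.f 946 3 5] []) .no .no) (.use 46)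
  .no) .no (.br 954 .no (.use 47) (.use 28) (.hor [.f 945 3 5] []) (.use 46) .no) (.red [.f 953 5
  1, .f 953 1 3] 136 136 [] [(136, 136, [])]) .no

def f10t49 : Tr4 :=
  .br 963 (.con 137 [4]) (.use 24) (.use 25) .no .no (.red [.f 954 5 3, .f 954 3 1] 136 136 []
  [(136, 136, [])])

def f10t50 : Tr4 :=
  .br 955 (.red [.f 955 1 3] 136 136 [] [(136, 136, [])]) (.con 136 [4, 2]) .no (.hor [.f 946 3 5]
  []) .no .no

def f10t51 : Tr4 :=
  .br 1210 (.hor [.f 1209 1 5] []) .no .no (.red [.f 1209 1 3] 168 167 [3] [(168, 167, [3])])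
  (.red [.f 1209 1 3] 168 167 [3] [(168, 167, [3])]) .no

def f10t52 : Tr4 :=
  .br 962 .no (.hor [.f 833 1 5] []) (.con 120 [3]) .no .no .no

def f10t53 : Tr4 :=
  .br 962 .no (.con 121 [4]) (.hor [.f 961 3 5] []) .no .no .no

def f10t54 : Tr4 :=
  .br 1216 (.con 153 [1]) .no (.hor [.f 1216 3 5] []) .no .no .no

def f10t55 : Tr4 :=
  .br 1105 (.hor [.f 1105 1 5] []) (.con 139 [4]) (.con 155 [2]) .no .no .no

def f10t56 : Tr4 :=
  .br 1105 (.con 154 [3]) (.con 139 [4]) (.hor [.f 1105 3 5] []) .no .no .no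

def f10t57 : Tr4 :=
  .br 1106 (.use 55) (.br 977 (.hor [.f 977 1 5] []) (.con 138 [3]) (.con 138 [3]) .no .no (.con
  138 [3])) (.use 56) .no .no (.hor [.f 1097 5 3, .f 1096 3 5, .f 1098 3 5] [])

def f10t58 : Tr4 :=
  .br 1226 (.hor [.f 1225 1 5] []) (.con 153 [3]) (.con 154 [1]) .no .no .no

def f10t59 : Tr4 :=
  .br 1096 .no (.br 969 (.hor [.f 968 1 5] []) (.br 970 (.con 122 [4]) (.hor [.f 841 1 5] [])
  (.con 122 [4]) .no (.con 122 [4]) .no) (.br 970 (.con 138 [2]) (.con 138 [2]) (.hor [.f 969 3 5]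
  []) .no (.con 138 [2]) .no) .no (.br 1099 .no (.br 1097 (.br 1098 (.hor [.f 1097 1 5] []) .no
  (.con 154 [2]) .no .no .no) .no (.br 1098 (.con 138 [1]) .no (.hor [.f 1097 3 5] []) .no .no
  .no) .no (.hor [.f 969 5 1, .f 968 1 5, .f 970 1 5] []) .no) (.con 138 [4]) .no .no (.con 138
  [4])) .no) (.br 1097 (.br 1098 (.hor [.f 1097 1 5] []) (.con 154 [4]) (.con 154 [2]) .no (.con
  154 [2]) .no) (.br 1098 (.con 137 [3]) (.hor [.f 969 1 5] []) (.con 137 [3]) .no (.con 137 [3])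
  .no) (.hor [.f 1096 3 5] []) .no (.br 1099 .no (.con 137 [3]) (.br 968 .no (.br 969 .no (.hor
  [.f 840 1 5] []) (.br 970 .no (.con 121 [3]) (.hor [.f 969 3 5] []) .no (.con 121 [3]) .no) .no
  (.use 57) .no) (.br 969 .no (.br 970 .no (.hor [.f 841 1 5] []) (.con 122 [4]) .no (.con 122
  [4]) .no) (.hor [.f 968 3 5] []) .no (.use 57) .no) .no (.br 1106 (.use 55) (.br 977 (.hor [.f
  977 1 5] []) (.con 138 [3]) (.con 138 [3]) .no .no (.con 138 [3])) (.use 56) .no .no (.hor [.f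
  1097 5 3, .f 1096 3 5, .f 1098 3 5] [])) .no) .no .no .no) .no) .no (.br 1098 (.con 153 [3])
  (.br 971 (.hor [.f 970 1 5] []) (.con 138 [4]) (.con 138 [4]) .no .no .no) (.br 1099 .no (.con
  137 [3]) (.hor [.f 1098 3 5] []) .no .no .no) .no (.br 1225 (.use 58) .no (.br 1226 (.con 170
  [2]) .no (.hor [.f 1225 3 5] []) .no .no .no) .no (.hor [.f 1088 5 3, .f 1088 3 1, .t 1089 3 1,
  .f 1096 1 5, .f 1218 3 5] []) .no) .no) .no

def f10l1 : List Tr4 :=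
  [f10t28, f10t29, f10t30, f10t31, f10t32, f10t33, f10t34, f10t35, f10t36, f10t37, f10t38, f10t39,
  f10t40, f10t41, f10t42, f10t43, f10t44, f10t45, f10t46, f10t47, f10t48, f10t49, f10t50, f10t51,
  f10t52, f10t53, f10t54, f10t55, f10t56, f10t57, f10t58, f10t59]

theorem f10k1 : chkLF ⟨4, 0, 0, false, -4⟩ true 0 f10N 28 f10l1 = true := by decide +kernel

def f10t60 : Tr4 :=
  .br 1083 (.br 1210 (.con 136 [4, 1, 1]) .no .no (.hor [.f 1201 3 5] []) .no .no) .no .no (.br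
  1216 (.hor [.f 1216 1 5] []) .no (.br 1210 (.br 1211 (.hor [.f 1210 1 5] []) .no (.con 169 [2])
  (.con 151 [1]) .no .no) .no .no (.hor [.f 1201 3 5] []) (.br 1219 (.con 169 [2]) .no (.use 59)
  .no .no .no) .no) .no .no .no) .no .no

def f10t61 : Tr4 :=
  .br 961 .no (.br 962 .no (.hor [.f 833 1 5] []) (.con 120 [3]) .no .no .no) (.br 962 .no (.con
  121 [4]) (.hor [.f 961 3 5] []) .no .no .no) .no (.red [.f 953 5 3, .f 954 3 1] 136 136 []
  [(136, 136, [])]) .no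

def f10t62 : Tr4 :=
  .br 1090 (.br 1081 (.hor [.f 1080 1 5] []) (.red [.t 952 3 1] 136 136 [] [(136, 136, [])]) .no
  (.br 1082 (.red [.f 1082 1 3] 152 136 [1] [(152, 136, [1])]) (.use 27) .no (.hor [.f 1073 3 5]
  []) (.br 953 .no (.br 954 .no (.hor [.f 825 1 5] []) (.con 120 [1]) (.use 29) (.red [.f 954 5 1,
  .f 955 1 3] 136 136 [] [(136, 136, [])]) .no) (.hor [.f 952 3 5] []) (.red [.f 945 3 1, .t 952 3
  1] 136 136 [] [(135, 136, [4]), (136, 136, [])]) (.br 961 .no (.br 962 .no (.hor [.f 833 1 5]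
  []) (.con 120 [3]) .no .no .no) (.br 962 .no (.con 121 [4]) (.hor [.f 961 3 5] []) .no .no .no)
  .no (.red [.f 953 5 3, .t 962 4 1] 136 136 [] [(136, 136, [])]) .no) .no) .no) (.br 953 .no (.br
  954 .no (.hor [.f 825 1 5] []) (.con 120 [1]) (.use 50) (.br 1209 (.br 1217 (.use 51) .no (.use
  54) .no .no (.red [.f 1088 5 1, .f 1080 1 3, .f 952 3 1] 136 136 [] [(136, 136, []), (152, 136,
  [1])])) .no (.red [.t 1208 2 3, .f 952 3 1] 136 136 [] [(136, 136, []), (152, 136, [1])]) (.br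
  961 .no (.use 52) (.use 53) .no (.br 1217 (.use 60) .no (.use 54) .no .no (.red [.f 1088 5 1, .f
  1080 1 3, .f 952 3 1] 136 136 [] [(136, 136, []), (152, 136, [1])])) .no) (.red [.f 1081 5 1, .f
  1082 1 3, .t 1090 4 2] 136 136 [] [(136, 136, []), (152, 136, [1])]) .no) .no) (.hor [.f 952 3
  5] []) (.br 954 .no (.use 47) (.con 120 [1]) (.hor [.f 945 3 5] []) (.br 1217 (.br 961 .no (.use
  52) (.use 53) .no (.br 1209 (.use 51) .no .no (.use 60) (.red [.f 1081 5 1, .f 1082 1 3, .t 1090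
  4 2] 136 136 [] [(136, 136, []), (152, 136, [1])]) .no) .no) .no (.use 54) (.red [.t 1208 2 3,
  .f 952 3 1] 136 136 [] [(136, 136, []), (152, 136, [1])]) .no (.red [.f 1088 5 1, .f 1080 1 3,
  .f 952 3 1] 136 136 [] [(136, 136, []), (152, 136, [1])])) .no) (.red [.f 953 5 1, .t 952 3 1]
  136 136 [] [(136, 136, [])]) .no) .no) (.con 136 [3]) (.con 137 [1]) (.br 1081 (.hor [.f 1080 1
  5] []) (.red [.t 952 3 1, .f 1081 3 5] 136 136 [] [(136, 136, [])]) .no (.br 1083 (.br 953 .no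
  (.br 954 .no (.hor [.f 825 1 5] []) (.con 120 [1]) (.use 23) (.red [.t 1090 4 2] 136 136 []
  [(136, 136, [])]) .no) (.hor [.f 952 3 5] []) (.red [.f 945 3 1, .t 952 3 1] 136 136 [] [(135,
  136, [4]), (136, 136, [])]) (.use 61) .no) (.con 151 [2, 3]) .no (.con 151 [2]) .no .no) .no
  .no) .no .no

def f10t63 : Tr4 :=
  .br 1088 (.br 1082 (.red [.f 1080 1 3, .f 952 3 1] 136 136 [] [(136, 136, []), (152, 136, [1])])
  (.red [.f 1080 1 3, .f 952 3 1] 136 136 [] [(136, 136, []), (152, 136, [1])]) (.br 1089 (.hor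
  [.f 1088 1 5] []) (.br 1081 (.hor [.f 1080 1 5] []) (.red [.f 953 1 3, .f 952 3 5] 136 136 []
  [(136, 136, [])]) .no (.br 953 .no (.br 954 .no (.hor [.f 825 1 5] []) (.red [.f 954 3 1, .f 961
  1 5] 136 136 [] [(136, 136, [])]) (.use 23) (.br 1091 (.use 26) (.con 137 [4]) (.con 153 [2])
  (.red [.f 1080 1 3, .f 952 3 1] 136 136 [] [(136, 136, []), (152, 136, [1])]) .no .no) .no) .no
  (.red [.f 945 3 1, .f 953 1 3] 136 136 [] [(135, 151, [2]), (136, 136, [])]) (.red [.t 1089 2 4,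
  .f 952 3 5] 136 136 [] [(136, 136, [])]) .no) .no .no) (.con 153 [2]) (.red [.f 1080 1 3, .f 952
  3 1] 136 136 [] [(136, 136, []), (152, 136, [1])]) .no .no) (.red [.f 1080 1 3, .f 952 3 1] 136
  136 [] [(136, 136, []), (152, 136, [1])]) (.red [.f 1080 1 3, .f 952 3 1] 136 136 [] [(136, 136,
  []), (152, 136, [1])]) (.red [.f 1080 1 3, .f 952 3 1] 136 136 [] [(136, 136, []), (152, 136,
  [1])])) .no (.br 1090 (.br 1089 (.con 136 [1, 3]) (.br 1091 (.con 137 [1]) (.con 137 [4]) (.br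
  1081 (.hor [.f 1080 1 5] []) (.red [.f 953 1 3, .f 952 3 5] 136 136 [] [(136, 136, [])]) .no
  (.br 1082 (.red [.f 1082 1 3] 152 136 [1] [(152, 136, [1])]) (.use 27) .no (.hor [.f 1073 3 5]
  []) (.use 45) .no) (.use 48) .no) (.con 136 [1]) .no .no) (.use 1) (.con 136 [1]) .no .no) (.con
  136 [1, 3]) (.con 136 [1, 3]) (.br 1089 (.con 152 [3]) (.br 1081 (.hor [.f 1080 1 5] []) (.red
  [.f 953 1 3, .f 952 3 5] 136 136 [] [(136, 136, [])]) .no (.br 953 .no (.br 954 .no (.hor [.f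
  825 1 5] []) (.red [.f 954 3 1, .f 961 1 5] 136 136 [] [(136, 136, [])]) (.use 23) (.use 49)
  .no) .no (.red [.f 945 3 1, .f 953 1 3] 136 136 [] [(135, 151, [2]), (136, 136, [])]) (.red [.t
  1089 2 4, .f 952 3 5] 136 136 [] [(136, 136, [])]) .no) .no .no) (.hor [.f 1088 3 5] []) (.con
  136 [1, 3]) .no .no) (.con 136 [1, 3]) (.con 136 [1, 3])) .no (.br 1091 (.con 136 [3]) (.use 62)
  (.con 136 [3]) (.con 136 [3]) .no (.con 136 [3])) .no

def f10t64 : Tr4 :=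
  .br 953 .no (.hor [.f 825 1 5] []) .no (.use 47) .no .no

def f10t65 : Tr4 :=
  .br 955 (.typ 2) (.br 953 .no (.con 120 [4]) .no (.hor [.f 945 3 5] []) .no .no) (.con 136 [2])
  (.hor [.f 946 3 5] []) .no .no

def f10t66 : Tr4 :=
  .br 970 (.con 121 [1]) (.con 121 [1]) (.con 121 [1]) (.hor [.f 962 3 5] []) .no (.con 121 [1])

def f10t67 : Tr4 :=
  .br 963 (.br 1090 (.con 137 [4]) (.hor [.f 961 1 5] []) (.con 137 [4]) .no .no .no) (.br 962
  (.con 120 [3]) (.hor [.f 834 1 5] []) (.con 120 [3]) .no .no .no) (.use 66) .no .no (.red [.f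
  954 5 3, .t 961 1 4] 136 136 [] [(136, 136, [])])

def f10t68 : Tr4 :=
  .br 962 (.con 120 [3]) (.hor [.f 833 1 5] []) (.con 120 [3]) (.con 120 [3]) (.con 120 [3]) .no

def f10t69 : Tr4 :=
  .br 962 (.con 121 [1]) (.con 121 [1]) (.hor [.f 961 3 5] []) (.con 121 [1]) (.con 121 [1]) .no

def f10t70 : Tr4 :=
  .br 1090 (.con 153 [2]) .no (.hor [.f 1089 3 5] []) (.con 153 [2]) .no .no

def f10t71 : Tr4 :=
  .br 1089 (.hor [.f 1088 1 5] []) .no (.use 70) .no (.red [.f 961 5 1, .f 953 1 3] 136 136 []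
  [(136, 136, [])]) .no

def f10t72 : Tr4 :=
  .br 1089 (.hor [.f 1088 1 5] []) .no (.use 70) (.br 1082 (.con 136 [1]) .no (.red [.f 953 5 3,
  .f 954 3 1] 136 136 [] [(136, 136, [])]) (.con 136 [1]) (.con 136 [1]) .no) (.br 1081 (.br 1082
  (.hor [.f 1081 1 5] []) .no .no (.con 136 [1, 4]) (.con 136 [4, 1]) .no) .no .no (.hor [.f 1072
  3 5] []) (.red [.f 1081 5 3, .f 953 5 3, .f 954 3 1] 136 136 [] [(136, 136, [])]) .no) .no

def f10t73 : Tr4 :=
  .br 953 (.con 119 [3]) (.hor [.f 825 1 5] []) .no (.con 119 [3]) .no .no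

def f10t74 : Tr4 :=
  .br 961 (.br 1081 (.br 1082 (.hor [.f 1081 1 5] []) (.con 136 [1, 4]) (.br 1091 (.br 954 .no
  (.use 64) (.red [.f 954 3 1, .f 961 1 5] 136 136 [] [(136, 136, [])]) (.use 65) (.use 26) (.red
  [.t 1089 2 4, .f 952 3 5] 136 136 [] [(136, 136, [])])) (.con 137 [4]) (.con 153 [2]) (.con 136
  [4, 1]) .no .no) (.con 136 [1, 4]) (.con 136 [4, 1]) .no) (.red [.f 953 1 3, .f 952 3 5] 136 136
  [] [(136, 136, [])]) .no (.hor [.f 1072 3 5] []) (.br 953 .no (.br 954 .no (.hor [.f 825 1 5]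
  []) (.red [.t 961 1 4] 136 136 [] [(136, 136, [])]) (.br 955 (.br 1090 (.br 1091 (.hor [.f 1090
  1 5] []) (.con 137 [4]) (.con 153 [2]) .no .no .no) (.hor [.f 961 1 5] []) (.br 1091 (.con 137
  [1]) (.con 137 [4]) (.hor [.f 1090 3 5] []) .no .no .no) .no (.br 963 .no (.br 962 .no (.hor [.f
  834 1 5] []) (.con 120 [3]) .no .no .no) (.use 66) .no .no (.red [.f 962 5 1, .f 955 1 3] 136
  136 [] [(136, 136, [])])) .no) (.con 120 [4]) (.con 136 [2]) (.hor [.f 946 3 5] []) .no .no)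
  (.use 67) .no) .no (.br 954 .no (.use 47) (.red [.t 961 1 4] 136 136 [] [(136, 136, [])]) (.hor
  [.f 945 3 5] []) (.use 67) .no) (.red [.f 953 5 1, .f 953 1 3] 136 136 [] [(136, 136, [])]) .no)
  .no) (.use 68) (.use 69) (.hor [.f 952 3 5] []) (.br 963 (.br 955 (.red [.f 955 1 3] 136 136 []
  [(136, 136, [])]) (.br 954 (.br 1081 (.con 136 [4]) (.hor [.f 953 1 5] []) (.con 136 [4]) (.con
  136 [4]) .no .no) (.hor [.f 826 1 5] []) .no (.br 953 (.use 71) (.con 120 [4]) .no (.hor [.f 945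
  3 5] []) .no .no) .no (.use 72)) .no (.br 954 (.br 1081 (.con 136 [4]) (.use 71) (.con 136 [4])
  (.con 136 [4]) .no .no) (.use 73) .no (.hor [.f 946 3 5] []) .no (.use 72)) .no (.br 1089 (.hor
  [.f 1088 1 5] []) .no (.use 70) (.br 1082 (.con 136 [1]) .no (.red [.t 1090 4 2] 136 136 []
  [(136, 136, [])]) (.con 136 [1]) (.con 136 [1]) .no) (.br 1081 (.br 1082 (.hor [.f 1081 1 5] [])
  .no .no (.con 136 [4, 1]) (.con 136 [4, 1]) .no) (.use 71) .no (.hor [.f 1072 3 5] []) (.red [.f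
  961 5 1, .f 961 1 5, .f 1081 5 3, .t 1090 4 2] 136 136 [] [(136, 136, [])]) .no) .no)) (.con 120
  [3]) (.con 121 [1]) (.con 136 [2]) .no .no) .no

def f10t75 : Tr4 :=
  .br 963 (.br 1089 (.con 137 [1]) .no (.hor [.f 1088 3 5] []) (.con 137 [1]) (.con 137 [1]) .no)
  (.con 136 [3]) (.con 136 [3]) (.con 136 [2]) .no .no

def f10t76 : Tr4 :=
  .br 955 (.red [.f 955 1 3] 136 136 [] [(136, 136, [])]) (.hor [.f 826 1 5] []) .no (.use 73) .no
  .no

def f10t77 : Tr4 :=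
  .br 1209 (.br 1210 (.hor [.f 1209 1 5] []) .no .no (.red [.t 1201 2 3, .f 1072 3 5] 151 150 [3]
  [(151, 150, [3])]) (.br 1208 (.hor [.f 1208 1 5] []) .no (.con 136 [1, 1]) (.red [.f 1072 3 1,
  .f 1072 1 5] 151 167 [2] [(151, 167, [2])]) .no .no) .no) .no (.red [.t 1217 4 2, .f 1073 1 3]
  152 136 [1] [(151, 136, [1, 4]), (152, 136, [1])]) .no (.red [.f 1081 5 1, .f 1073 1 3] 151 136
  [1, 4] [(151, 136, [1, 4])]) (.red [.t 1072 3 1] 151 136 [1, 4] [(151, 136, [1, 4])])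

def f10l2 : List Tr4 :=
  [f10t60, f10t61, f10t62, f10t63, f10t64, f10t65, f10t66, f10t67, f10t68, f10t69, f10t70, f10t71,
  f10t72, f10t73, f10t74, f10t75, f10t76, f10t77]

theorem f10k2 : chkLF ⟨4, 0, 0, false, -4⟩ true 0 f10N 60 f10l2 = true := by decide +kernel

def f10t78 : Tr4 :=
  .br 1088 (.use 74) .no (.br 961 (.br 1091 (.con 137 [1]) (.con 137 [1]) (.br 1090 (.br 1081 (.br
  1082 (.hor [.f 1081 1 5] []) (.con 136 [1, 4]) .no (.con 136 [1, 4]) (.con 136 [4, 1]) .no)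
  (.red [.f 953 1 3, .f 952 3 5] 136 136 [] [(136, 136, [])]) .no (.hor [.f 1072 3 5] []) (.use
  48) .no) (.con 136 [3]) (.con 137 [1]) (.br 1081 (.br 954 .no (.use 64) (.use 28) (.use 65)
  (.use 49) (.red [.t 1089 2 4, .f 952 3 5] 136 136 [] [(136, 136, [])])) (.red [.f 953 1 3, .f
  952 3 5] 136 136 [] [(136, 136, [])]) .no (.hor [.f 1072 3 5] []) .no .no) .no .no) (.con 137
  [1]) .no (.con 137 [1])) (.use 68) (.use 69) (.hor [.f 952 3 5] []) (.use 75) .no) .no (.br 961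
  .no (.use 68) (.use 69) (.hor [.f 952 3 5] []) (.br 963 (.br 1081 (.br 1082 (.hor [.f 1081 1 5]
  []) (.con 136 [1, 4]) (.br 954 .no (.use 76) .no (.br 953 .no (.use 50) .no (.hor [.f 945 3 5]
  []) .no .no) (.red [.t 1090 4 2] 136 136 [] [(136, 136, [])]) (.use 61)) (.con 136 [1, 4]) (.con
  136 [4, 1]) .no) (.red [.t 952 3 1] 136 136 [] [(136, 136, [])]) .no (.hor [.f 1072 3 5] [])
  (.br 1090 (.br 1083 (.con 136 [4, 1]) (.red [.f 955 1 3] 136 136 [] [(136, 136, [])]) .no (.br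
  954 .no (.use 76) .no (.br 953 .no (.use 50) .no (.hor [.f 945 3 5] []) .no .no) (.br 953 .no
  (.br 1074 (.br 1073 (.hor [.f 1073 1 5] []) (.con 136 [4, 4]) .no (.con 136 [4, 4, 1]) .no .no)
  (.red [.t 1074 2 3, .f 955 1 3] 136 136 [] [(135, 136, [4]), (136, 136, [])]) .no (.br 1073
  (.use 77) (.con 136 [4, 4]) .no (.hor [.f 1065 3 5] []) .no .no) .no (.hor [.f 1073 5 3, .f 1072
  3 5, .f 1074 3 5] [])) .no (.br 1073 (.use 77) .no .no (.br 1074 (.con 119 [1, 4, 1]) (.red [.t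
  945 3 1, .t 952 3 1] 136 136 [] [(135, 119, [1]), (136, 136, [])]) .no (.hor [.f 1065 3 5] [])
  .no .no) (.hor [.f 1073 5 3, .f 1072 3 5, .f 1074 3 5] []) .no) .no .no) (.red [.f 953 5 1, .t
  952 3 1] 136 136 [] [(136, 136, [])])) .no .no) .no (.con 137 [1]) .no .no .no) .no) (.con 120
  [3]) (.con 121 [1]) (.con 136 [2]) .no .no) .no) .no

def f10t79 : Tr4 :=
  .br 961 (.con 137 [1]) (.con 136 [3]) (.con 136 [3]) .no .no (.con 136 [3])

def f10t80 : Tr4 :=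
  .br 947 (.con 135 [2, 4]) (.hor [.f 818 1 5] []) .no (.con 134 [2]) .no .no

def f10t81 : Tr4 :=
  .br 946 .no (.use 80) .no (.hor [.f 937 3 5] []) (.red [.t 1082 4 2, .f 1082 5 1, .f 1082 1 3]
  152 136 [1] [(135, 119, [1]), (152, 136, [1])]) .no

def f10t82 : Tr4 :=
  .br 833 .no (.hor [.f 705 1 5] []) (.con 104 [3]) .no .no .no

def f10t83 : Tr4 :=
  .br 833 .no (.con 105 [4]) (.hor [.f 833 3 5] []) .no .no .no

def f10t84 : Tr4 :=
  .br 1217 (.br 1225 (.use 58) .no (.br 1226 (.con 170 [2]) .no (.hor [.f 1225 3 5] []) .no .no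
  .no) .no (.hor [.f 1088 3 1, .f 1097 5 1, .f 1090 1 3, .f 1090 3 5, .f 1096 1 5] []) .no) .no
  (.con 153 [1]) .no .no .no

def f10t85 : Tr4 :=
  .br 1216 (.con 153 [1]) .no (.br 1097 (.use 17) (.hor [.f 1091 3 1, .f 1090 1 5, .f 961 1 3, .f
  1088 3 1, .f 961 3 1] []) (.use 42) .no (.use 84) .no) (.con 153 [1]) (.con 153 [1]) .no

def f10t86 : Tr4 :=
  .br 816 .no (.red [.f 688 1 3] 103 104 [4] [(103, 104, [4])]) .no (.br 817 .no (.br 818 .no
  (.hor [.f 689 1 5] []) .no (.con 104 [4, 4]) (.con 104 [4, 4]) .no) .no (.hor [.f 808 3 5] [])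
  (.red [.f 817 5 1, .f 817 1 3] 119 120 [4] [(119, 120, [4])]) .no) (.red [.t 953 2 3, .t 833 4
  1, .t 952 4 2] 119 120 [4] [(119, 120, [4])]) .no

def f10t87 : Tr4 :=
  .br 945 (.red [.t 944 3 1, .f 1073 3 5, .t 961 1 4] 136 136 [] [(135, 119, [1]), (136, 136,
  [])]) (.red [.f 817 1 3] 119 120 [4] [(119, 120, [4])]) .no (.br 1073 (.br 1210 (.br 1209 (.hor
  [.f 1209 1 5] []) .no (.br 1216 (.br 1219 (.br 1208 (.br 1211 (.hor [.f 1210 1 5] []) .no .no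
  (.con 168 [4]) .no .no) .no .no (.red [.t 1200 3 2, .f 1073 3 5] 151 135 [1] [(151, 135, [1])])
  .no .no) .no (.con 153 [1]) (.con 168 [2]) .no .no) .no (.br 1219 (.con 169 [2]) .no (.br 1208
  (.br 1211 (.hor [.f 1210 1 5] []) .no .no (.con 168 [4]) .no .no) .no .no (.red [.t 1200 3 2, .f
  1073 3 5] 151 135 [1] [(151, 135, [1])]) .no .no) (.con 168 [2]) .no .no) (.hor [.f 1208 3 5]
  []) .no .no) .no .no (.red [.f 1080 5 1, .f 1073 1 3] 151 135 [1] [(151, 135, [1])])) .no .no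
  (.red [.f 1074 3 1, .f 1073 1 5] 151 135 [1] [(151, 135, [1])]) (.use 81) (.red [.t 1073 1 3, .f
  1082 1 3] 152 136 [1] [(151, 135, [1]), (152, 136, [1])])) .no .no (.br 946 .no (.use 80) .no
  (.hor [.f 937 3 5] []) (.br 1210 (.br 1211 (.hor [.f 1210 1 5] []) .no (.red [.t 1082 4 2, .t
  1218 2 4, .f 954 3 1] 136 136 [] [(135, 119, [1]), (136, 136, []), (152, 136, [1])]) (.br 1209
  (.hor [.f 1209 1 5] []) .no (.br 1216 (.br 1072 (.con 135 [1, 4]) .no .no (.hor [.f 1064 3 5]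
  []) .no .no) .no (.br 1072 (.con 135 [1, 4]) .no .no (.hor [.f 1064 3 5] []) .no .no) (.con 135
  [1, 1]) .no .no) (.con 135 [1, 1]) .no (.con 135 [1, 1])) .no .no) .no .no (.red [.f 1074 3 1,
  .f 1082 1 3] 152 136 [1] [(151, 135, [1]), (152, 136, [1])]) (.use 81) (.br 1219 (.br 1211 (.red
  [.f 1211 1 3] 168 136 [1, 1] [(168, 136, [1, 1])]) .no .no (.br 1072 (.con 135 [1, 4]) .no .no
  (.hor [.f 1064 3 5] []) .no .no) .no .no) .no (.use 85) (.red [.t 1082 4 2, .t 1218 2 4, .f 954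
  3 1] 136 136 [] [(135, 119, [1]), (136, 136, []), (152, 136, [1])]) .no .no)) .no) .no (.red [.f
  1072 5 3, .f 1073 3 5, .t 961 1 4] 136 136 [] [(136, 136, [])])) (.br 834 .no (.use 82) (.use
  83) (.con 120 [2]) .no (.br 826 .no (.br 827 .no (.hor [.f 698 1 5] []) .no (.con 104 [4]) .no
  .no) .no (.red [.t 825 1 4, .f 944 3 5] 119 120 [4] [(119, 120, [4])]) (.use 86) .no)) .no

def f10t88 : Tr4 :=
  .br 1098 (.br 1097 (.hor [.f 1097 1 5] []) (.con 137 [3]) (.con 138 [1]) .no .no .no) (.br 969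
  (.hor [.f 969 1 5] []) (.con 122 [4]) (.con 138 [2]) .no .no .no) (.br 1097 (.con 154 [2]) (.con
  137 [3]) (.hor [.f 1097 3 5] []) .no .no .no) .no .no (.use 18)

def f10t89 : Tr4 :=
  .br 960 .no (.con 121 [4]) (.use 88) .no .no .no

def f10t90 : Tr4 :=
  .br 960 (.con 120 [3]) (.hor [.f 832 1 5] []) (.con 120 [3]) .no .no .no

def f10t91 : Tr4 :=
  .br 960 (.con 121 [1]) (.con 121 [1]) (.hor [.f 960 3 5] []) .no .no .no

def f10t92 : Tr4 :=
  .br 1209 (.use 41) .no (.use 32) (.red [.f 1211 1 3] 168 136 [1, 1] [(168, 136, [1, 1])]) (.red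
  [.f 1211 1 3] 168 167 [3] [(168, 167, [3])]) .no

def f10t93 : Tr4 :=
  .br 1083 (.br 1082 (.hor [.f 1082 1 5] []) .no (.red [.f 954 3 1] 136 136 [] [(136, 136, [])])
  (.br 1081 (.con 136 [4, 1]) .no (.con 136 [4, 1]) (.hor [.f 1073 3 5] []) .no (.con 136 [4, 1]))
  .no (.br 1080 (.br 961 (.red [.t 961 1 4] 136 136 [] [(136, 136, [])]) (.use 90) (.use 91) .no
  .no (.br 1088 (.red [.f 1080 1 3] 152 136 [1] [(152, 136, [1])]) .no (.br 1089 (.con 136 [1, 3])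
  .no (.hor [.f 1088 3 5] []) .no (.con 136 [1, 3]) .no) .no (.red [.f 960 5 1, .t 961 1 4] 136
  136 [] [(136, 136, [])]) .no)) .no (.br 961 (.red [.t 961 1 4, .f 1080 3 5] 136 136 [] [(136,
  136, [])]) (.use 90) (.use 91) .no .no (.br 1091 (.con 136 [3]) (.br 1090 (.br 1089 (.hor [.f
  1089 1 5] []) .no (.con 153 [2]) .no .no .no) .no (.use 6) .no .no (.red [.f 1081 5 3, .f 954 3
  1, .f 962 1 5, .f 1080 3 5] 136 136 [] [(136, 136, [])])) (.con 136 [3]) .no .no (.con 136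
  [3]))) (.con 136 [4, 1]) .no .no)) .no (.br 961 (.br 1090 (.br 1082 (.red [.f 1082 1 3, .f 954 3
  1] 136 136 [] [(136, 136, []), (152, 136, [1])]) .no .no (.br 1081 (.con 136 [4, 1]) .no .no
  (.hor [.f 1073 3 5] []) .no (.con 136 [1])) .no (.red [.t 961 1 4] 136 136 [] [(136, 136, [])]))
  .no (.con 137 [1]) (.red [.f 954 3 1, .f 961 1 5] 136 136 [] [(136, 136, [])]) .no .no) (.con
  136 [3]) (.con 136 [3]) .no .no (.con 136 [3])) (.red [.f 947 3 1] 135 136 [4] [(135, 136,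
  [4])]) .no (.br 1091 (.br 1090 (.hor [.f 1090 1 5] []) .no (.use 79) .no .no (.con 136 [3]))
  (.red [.t 962 4 1] 136 136 [] [(136, 136, [])]) (.br 961 (.br 1090 (.br 1088 (.con 153 [2])
  (.con 136 [3]) (.br 963 .no (.br 960 .no (.br 824 .no (.br 826 .no (.br 827 .no (.hor [.f 698 1
  5] []) .no (.con 104 [4]) .no .no) (.con 120 [2]) (.br 946 (.red [.t 946 1 3] 135 136 [4] [(135,
  136, [4])]) .no .no (.br 945 (.con 136 [4, 4]) (.red [.f 817 1 3, .f 817 3 5] 119 118 [3] [(119,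
  118, [3])]) .no (.hor [.f 937 3 5] []) .no .no) .no (.red [.t 825 1 4, .f 944 3 5] 119 120 [4]
  [(119, 120, [4])])) (.br 945 (.br 1074 (.con 136 [4, 4]) (.hor [.f 945 1 5] []) .no (.con 136
  [4, 4]) (.con 136 [4, 4]) .no) (.red [.f 817 1 3] 119 120 [4] [(119, 120, [4])]) .no (.br 946
  (.red [.t 946 1 3] 135 134 [3] [(135, 134, [3])]) (.con 120 [4, 4]) .no (.hor [.f 937 3 5] [])
  .no .no) (.br 834 .no (.use 82) (.use 83) .no .no (.use 86)) .no) .no) .no (.red [.f 816 3 1, .f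
  824 1 5] 119 120 [4] [(119, 120, [4])]) .no .no) (.con 120 [3]) .no .no .no) (.use 89) .no .no
  .no) (.con 153 [2]) .no .no) .no (.hor [.f 1090 3 5] []) .no .no .no) (.con 136 [3]) (.con 136
  [3]) .no .no (.con 136 [3])) .no .no (.red [.f 1082 5 3, .f 954 3 1] 136 136 [] [(136, 136,
  [])]))

def f10l3 : List Tr4 :=
  [f10t78, f10t79, f10t80, f10t81, f10t82, f10t83, f10t84, f10t85, f10t86, f10t87, f10t88, f10t89,
  f10t90, f10t91, f10t92, f10t93]

theorem f10k3 : chkLF ⟨4, 0, 0, false, -4⟩ true 0 f10N 78 f10l3 = true := by decide +kernel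

def f10t94 : Tr4 :=
  .br 954 (.con 136 [2]) (.con 136 [2]) (.br 953 (.br 1090 (.br 1089 (.hor [.f 1089 1 5] []) (.red
  [.f 953 1 3, .f 953 3 5] 136 136 [] [(136, 136, [])]) (.use 1) .no .no (.br 963 (.br 960 .no
  (.use 2) (.use 3) .no (.red [.f 960 5 1, .f 953 1 3] 136 136 [] [(136, 136, [])]) .no) (.con 136
  [3]) (.con 136 [3]) (.con 136 [2]) .no .no)) .no (.use 4) (.red [.f 954 3 1, .f 953 1 5] 136 136
  [] [(136, 136, [])]) (.use 5) (.red [.t 953 1 3] 136 136 [] [(136, 136, [])])) (.br 955 (.br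
  1091 (.br 1090 (.hor [.f 1090 1 5] []) .no (.use 79) (.red [.f 954 3 1, .f 954 1 5] 136 136 []
  [(136, 136, [])]) .no (.con 136 [3])) (.red [.f 955 1 3, .f 954 3 5] 136 136 [] [(136, 136,
  [])]) (.br 1090 (.br 961 (.br 1082 (.red [.f 1082 1 3, .f 954 3 1] 136 136 [] [(136, 136, []),
  (152, 153, [4])]) .no .no (.br 1088 (.con 153 [2]) (.con 136 [3]) (.br 963 .no (.br 960 .no (.br
  824 .no (.br 1081 (.br 1080 (.hor [.f 1080 1 5] []) .no .no (.con 135 [1]) .no .no) .no .no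
  (.hor [.f 1073 3 5] []) .no (.use 87)) .no (.red [.f 816 3 1, .f 824 1 5] 119 120 [4] [(119,
  120, [4])]) .no .no) (.con 120 [3]) .no .no .no) (.use 89) .no .no .no) (.con 153 [2]) .no .no)
  .no (.red [.t 961 1 4, .f 954 1 5] 136 136 [] [(136, 136, [])])) (.con 136 [3]) (.con 136 [3])
  .no .no (.con 136 [3])) .no (.hor [.f 1090 3 5] []) (.red [.f 954 3 1, .f 954 1 5] 136 136 []
  [(136, 136, [])]) .no (.con 136 [3])) .no .no (.red [.t 954 3 1] 136 136 [] [(136, 136, [])]))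
  (.con 120 [4]) (.con 136 [2]) (.use 93) .no .no) (.con 136 [2]) (.hor [.f 944 3 5] []) .no .no)
  (.con 136 [2]) (.con 136 [2]) (.con 136 [2])

def f10t95 : Tr4 :=
  .br 1090 (.br 1089 (.hor [.f 1089 1 5] []) (.red [.t 961 1 4] 136 136 [] [(136, 136, [])]) (.use
  1) .no .no (.br 961 .no (.br 960 .no (.hor [.f 832 1 5] []) (.con 120 [3]) .no .no .no) (.br 960
  .no (.con 121 [4]) (.hor [.f 960 3 5] []) .no .no .no) .no .no (.red [.f 952 5 3, .f 952 3 5, .f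
  960 5 1, .t 961 1 4] 136 136 [] [(136, 136, [])]))) .no (.use 6) .no .no (.red [.f 1081 5 3, .f
  954 3 1] 136 136 [] [(136, 136, [])])

def f10t96 : Tr4 :=
  .br 1083 (.hor [.f 1082 1 5] []) (.con 151 [3]) (.con 136 [1]) (.con 151 [2]) .no .no

def f10t97 : Tr4 :=
  .br 947 (.hor [.f 946 1 5] []) (.red [.f 819 1 3] 119 134 [3, 2] [(119, 134, [3, 2])]) .no (.br
  945 .no (.hor [.f 816 1 5] []) .no (.con 134 [2]) .no .no) .no .no

def f10t98 : Tr4 :=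
  .br 947 (.con 150 [2]) (.red [.f 819 1 3] 119 120 [4] [(119, 120, [4])]) .no (.br 946 .no (.con
  120 [4, 4]) .no (.hor [.f 938 3 5] []) .no (.con 120 [4, 4])) .no (.br 945 .no (.hor [.f 816 1
  5] []) .no (.con 120 [4, 4]) .no .no)

def f10t99 : Tr4 :=
  .br 1209 (.use 41) .no (.use 32) (.red [.f 1073 3 1, .f 1080 1 5, .f 952 5 1, .f 953 1 3] 136
  136 [] [(136, 136, []), (151, 135, [1])]) (.br 1219 (.use 92) .no (.use 85) .no .no .no) .no

def f10t100 : Tr4 :=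
  .br 955 .no (.br 944 .no (.br 1219 (.br 1211 (.use 92) .no .no (.br 1074 (.use 38) (.use 97) .no
  (.use 98) (.red [.f 1074 5 3, .f 1073 3 5, .t 961 1 4] 136 136 [] [(136, 136, [])]) .no) .no
  (.red [.f 1082 5 1, .f 1082 1 3] 152 136 [1] [(152, 136, [1])])) .no (.br 1216 (.con 153 [1])
  .no (.br 1097 (.use 17) (.hor [.f 1091 3 1, .f 1090 1 5, .f 961 1 3, .f 1088 3 1, .f 961 3 1]
  []) (.use 42) .no (.br 1074 (.br 1211 (.br 1209 (.use 41) .no (.use 32) (.red [.f 1073 3 1, .f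
  1080 1 5, .f 952 5 1, .f 953 1 3] 136 136 [] [(136, 136, []), (151, 135, [1])]) (.use 84) .no)
  .no .no (.use 38) .no (.red [.f 1082 5 1, .f 1082 1 3] 152 136 [1] [(152, 136, [1])])) (.use 97)
  .no (.use 98) (.red [.f 1074 5 3, .f 1073 3 5, .t 961 1 4] 136 136 [] [(136, 136, [])]) .no)
  .no) .no (.con 153 [1]) .no) (.red [.t 1218 2 4, .f 954 3 1, .f 961 1 5] 136 136 [] [(136, 136,
  []), (152, 136, [1])]) .no .no) .no (.br 945 .no (.br 824 .no (.br 825 .no (.hor [.f 696 1 5]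
  []) (.use 15) .no (.br 1074 (.red [.f 936 3 1, .t 1072 2 3, .f 953 1 3] 136 136 [] [(134, 136,
  [4, 4]), (135, 136, [4]), (136, 136, [])]) (.br 816 .no (.red [.f 688 1 3] 103 104 [4] [(103,
  104, [4])]) .no (.red [.f 808 3 1, .f 816 1 5, .f 944 5 3, .f 945 3 1] 135 136 [4] [(118, 119,
  [4]), (135, 136, [4])]) .no .no) .no (.red [.f 936 3 1, .t 1072 2 3, .f 953 1 3] 136 136 []
  [(134, 150, [2]), (135, 136, [4]), (136, 136, [])]) (.red [.f 936 3 1, .t 1072 2 3, .f 953 1 3]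
  136 136 [] [(134, 150, [2]), (135, 136, [4]), (136, 136, [])]) .no) .no) .no (.red [.t 816 3 1]
  119 103 [1] [(119, 103, [1])]) (.red [.f 824 5 1, .f 817 1 3] 119 120 [4] [(119, 120, [4])])
  .no) .no (.hor [.f 936 3 5] []) (.red [.f 936 3 1, .t 1072 2 3, .f 953 1 3] 136 136 [] [(134,
  136, [4, 4]), (135, 136, [4]), (136, 136, [])]) .no) (.red [.f 944 5 3, .f 945 3 1, .f 953 1 3]
  136 136 [] [(135, 136, [4]), (136, 136, [])]) .no) .no (.br 1074 (.br 1211 (.use 99) .no (.red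
  [.t 1218 2 4, .f 954 3 1, .f 961 1 5] 136 136 [] [(136, 136, []), (152, 136, [1])]) (.use 38)
  .no (.red [.f 1082 5 1, .f 1082 1 3] 152 136 [1] [(152, 136, [1])])) (.red [.t 946 1 3, .f 1073
  3 5] 135 119 [1] [(135, 119, [1])]) .no (.br 1211 (.use 99) .no (.red [.t 1218 2 4, .f 954 3 1,
  .f 961 1 5] 136 136 [] [(136, 136, []), (152, 136, [1])]) (.br 1075 .no .no .no (.hor [.f 1066 3
  5] []) .no .no) .no (.red [.f 1082 5 1, .f 1082 1 3] 152 136 [1] [(152, 136, [1])])) (.red [.f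
  1074 5 3, .f 947 3 1] 135 119 [1] [(135, 119, [1])]) .no) .no .no

def f10t101 : Tr4 :=
  .br 1081 (.br 1082 (.hor [.f 1081 1 5] []) .no (.red [.f 954 3 1, .f 961 1 5] 136 136 [] [(136,
  136, [])]) (.con 136 [1, 4]) (.con 136 [4, 1]) .no) .no .no (.hor [.f 1072 3 5] []) (.red [.t
  961 1 4] 136 136 [] [(136, 136, [])]) .no

def f10t102 : Tr4 :=
  .br 963 (.br 1083 (.br 1082 (.hor [.f 1082 1 5] []) .no (.red [.f 954 3 1, .f 962 1 5] 136 136
  [] [(136, 136, [])]) (.br 1081 (.con 136 [4, 1]) .no (.con 136 [4, 1]) (.hor [.f 1073 3 5] [])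
  .no (.con 136 [4, 1])) .no (.use 95)) (.red [.f 955 1 3, .f 954 3 5] 136 136 [] [(136, 136,
  [])]) .no (.br 1082 (.br 1081 (.hor [.f 1081 1 5] []) .no (.use 8) (.br 1080 (.con 151 [2]) .no
  (.con 151 [2]) (.hor [.f 1072 3 5] []) .no .no) .no (.br 1090 (.red [.f 1082 1 3, .f 954 3 1]
  136 136 [] [(136, 136, []), (152, 136, [1])]) .no (.use 9) .no .no (.red [.f 952 5 1, .t 953 1
  3] 136 136 [] [(136, 136, [])]))) .no (.red [.f 954 3 1, .f 962 1 5] 136 136 [] [(136, 136,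
  [])]) (.hor [.f 1074 3 5] []) .no (.use 95)) .no (.red [.t 962 4 1] 136 136 [] [(136, 136,
  [])])) (.br 961 (.br 1080 (.br 1081 (.hor [.f 1080 1 5] []) .no .no (.br 1082 (.use 96) .no
  (.red [.f 954 3 1, .f 961 1 5] 136 136 [] [(136, 136, [])]) (.hor [.f 1073 3 5] []) (.br 1088
  (.red [.f 1080 1 3, .t 1088 4 2] 136 136 [] [(136, 136, []), (152, 136, [1])]) (.con 120 [3])
  (.br 1090 (.br 1091 (.con 137 [1]) .no (.br 960 .no (.br 1072 (.red [.f 1072 1 3, .f 1072 3 5,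
  .f 952 5 1, .f 953 1 3] 136 136 [] [(136, 136, []), (151, 135, [1])]) (.red [.t 1072 2 3, .f 953
  1 3] 136 136 [] [(135, 136, [4]), (136, 136, [])]) .no (.use 100) .no .no) (.con 120 [3]) .no
  .no .no) .no .no .no) .no (.con 137 [1]) .no (.con 137 [1]) .no) .no .no .no) .no) (.red [.t 961
  1 4] 136 136 [] [(136, 136, [])]) .no) .no (.red [.t 1088 4 2, .f 953 3 5] 136 136 [] [(136,
  136, [])]) (.use 101) (.red [.f 952 5 1, .f 953 1 3] 136 136 [] [(136, 136, [])]) .no) (.con 120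
  [3]) (.con 136 [3]) .no .no (.con 120 [3])) (.br 961 (.br 1080 (.br 1081 (.hor [.f 1080 1 5] [])
  .no .no (.br 1082 (.use 96) .no (.red [.f 954 3 1, .f 961 1 5] 136 136 [] [(136, 136, [])])
  (.hor [.f 1073 3 5] []) (.br 1088 (.red [.f 1080 1 3, .t 1088 4 2] 136 136 [] [(136, 136, []),
  (152, 136, [1])]) (.con 121 [1]) (.br 1091 (.con 137 [1]) .no (.br 1090 (.br 960 .no (.con 121
  [4]) (.use 88) .no .no .no) .no (.con 137 [1]) .no .no .no) .no .no (.con 137 [1])) .no .no .no)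
  .no) (.red [.t 961 1 4] 136 136 [] [(136, 136, [])]) .no) .no (.red [.t 1088 4 2, .f 953 3 5]
  136 136 [] [(136, 136, [])]) (.use 101) (.red [.f 952 5 1, .f 953 1 3] 136 136 [] [(136, 136,
  [])]) .no) (.con 136 [3]) (.con 121 [1]) .no .no (.con 121 [1])) (.con 136 [2]) .no .no

def f10t103 : Tr4 :=
  .br 952 (.br 954 (.con 136 [2]) (.con 136 [2]) (.br 953 (.hor [.f 952 1 5] []) (.br 1083 (.con
  136 [4]) (.br 1091 (.use 0) (.red [.f 955 1 3, .f 954 3 5] 136 136 [] [(136, 136, [])]) (.br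
  1090 (.br 961 (.br 1082 (.red [.f 1082 1 3, .f 954 3 1] 136 136 [] [(136, 136, []), (152, 136,
  [1])]) .no .no (.br 1081 (.con 136 [4, 1]) .no .no (.hor [.f 1073 3 5] []) .no .no) .no (.red
  [.t 961 1 4, .f 954 1 5] 136 136 [] [(136, 136, [])])) (.con 136 [3]) (.con 136 [3]) .no .no
  (.con 136 [3])) .no (.hor [.f 1090 3 5] []) (.red [.f 954 3 1, .f 954 1 5] 136 136 [] [(136,
  136, [])]) .no (.con 136 [3])) .no .no (.red [.t 954 3 1] 136 136 [] [(136, 136, [])])) (.con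
  136 [4]) (.con 136 [4]) .no (.con 136 [4])) (.con 136 [2]) (.br 1083 (.con 136 [4]) (.br 1091
  (.use 0) (.red [.f 955 1 3, .f 954 3 5] 136 136 [] [(136, 136, [])]) (.br 1090 (.br 1089 (.con
  136 [3]) (.br 1081 (.br 1082 (.red [.f 1082 1 3, .f 954 3 1] 136 136 [] [(136, 136, []), (152,
  136, [1])]) .no .no (.con 119 [1, 1]) .no .no) .no .no (.red [.f 945 3 1, .f 952 1 5] 135 119
  [1] [(135, 119, [1])]) (.red [.t 961 1 4, .f 954 1 5] 136 136 [] [(136, 136, [])]) .no) (.con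
  136 [3]) (.con 136 [3]) .no (.con 136 [3])) .no (.hor [.f 1090 3 5] []) (.red [.f 954 3 1, .f
  954 1 5] 136 136 [] [(136, 136, [])]) .no (.con 136 [3])) .no .no (.red [.t 954 3 1] 136 136 []
  [(136, 136, [])])) (.con 136 [4]) (.con 136 [4]) .no (.con 136 [4])) .no .no) (.con 136 [2])
  (.con 136 [2]) (.con 136 [2])) (.br 954 (.con 136 [2]) (.con 136 [2]) (.br 953 (.br 1090 (.br
  1089 (.hor [.f 1089 1 5] []) (.red [.f 953 1 3, .f 953 3 5] 136 136 [] [(136, 136, [])]) (.use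
  1) .no .no (.br 1091 (.con 136 [3]) (.br 960 .no (.use 2) (.use 3) .no (.red [.f 960 5 1, .f 953
  1 3] 136 136 [] [(136, 136, [])]) .no) (.con 136 [3]) (.con 136 [3]) .no .no)) .no (.use 4)
  (.red [.f 954 3 1, .f 953 1 5] 136 136 [] [(136, 136, [])]) (.use 5) (.red [.t 953 1 3] 136 136
  [] [(136, 136, [])])) (.hor [.f 824 1 5] []) (.con 136 [2]) (.br 955 (.con 119 [3]) (.use 22)
  (.con 119 [3]) (.con 119 [3]) .no .no) .no .no) (.con 136 [2]) (.con 136 [2]) (.con 136 [2]))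
  (.br 1080 (.use 63) .no (.red [.f 952 3 1] 136 136 [] [(136, 136, [])]) (.use 78) (.br 961 (.red
  [.t 960 4 1] 136 136 [] [(136, 136, [])]) (.use 68) (.use 69) (.hor [.f 952 3 5] []) (.br 1088
  (.br 1089 (.hor [.f 1088 1 5] []) .no (.br 1090 (.con 153 [2]) .no (.hor [.f 1089 3 5] []) (.con
  153 [2]) (.con 136 [3]) .no) .no (.red [.f 961 5 1, .t 960 4 1] 136 136 [] [(136, 136, [])])
  .no) .no (.use 75) .no (.red [.f 1080 5 3, .f 952 3 1] 136 136 [] [(136, 136, [])]) .no) .no)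
  .no) (.use 94) (.br 954 (.con 136 [2]) (.con 136 [2]) (.use 102) (.con 136 [2]) (.con 136 [2])
  .no) .no

def f10l4 : List Tr4 :=
  [f10t94, f10t95, f10t96, f10t97, f10t98, f10t99, f10t100, f10t101, f10t102, f10t103]

theorem f10k4 : chkLF ⟨4, 0, 0, false, -4⟩ true 0 f10N 94 f10l4 = true := by decide +kernel

end Pool.Agent.FT4D
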