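import Pool.Agent.FT4D.ChainF4
import Pool.Agent.FT4D.Tr_f10_0

/-!
# Four levels: the chunks of the trees `f10` together
-/

namespace Pool.Agent.FT4D

theorem f10H : Holds ⟨4, 0, 0, false, -4⟩ true 0 [] := by
  have h0 := chStart ⟨4, 0, 0, false, -4⟩ true 0 f10N
  have h1 := chStepF f10l0 28 h0 f10k0 (by decide +kernel) (by decide +kernel)
  have h2 := chStepF f10l1 60 h1 f10k1 (by decide +kernel) (by decide +kernel)
  have h3 := chStepF f10l2 78 h2 f10k2 (by decide +kernel) (by decide +kernel)
  have h4 := chStepF f10l3 94 h3 f10k3 (by decide +kernel) (by decide +kernel)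
  have h5 := chStepF f10l4 104 h4 f10k4 (by decide +kernel) (by decide +kernel)
  exact chEnd h5 103 (by decide +kernel) (by decide +kernel)

end Pool.Agent.FT4D
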