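import Pool.Agent.FT4D.Tab_f11

/-!
# Four levels: decision trees (found by a computer search)
-/

namespace Pool.Agent.FT4D

def f11t0 : Tr4 :=
  .br 1088 (.con 137 [1]) .no (.hor [.f 1088 3 5] []) .no .no .no

def f11t1 : Tr4 :=
  .br 1083 (.hor [.f 1082 1 5] []) (.con 136 [1, 4]) (.con 153 [2]) (.con 136 [1, 4]) .no .no

def f11t2 : Tr4 :=
  .br 954 .no (.hor [.f 826 1 5] []) .no (.con 119 [3]) .no .no

def f11t3 : Tr4 :=
  .br 970 (.hor [.f 969 1 5] []) (.con 138 [4]) (.con 138 [4]) .no (.con 138 [4]) .no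

def f11t4 : Tr4 :=
  .br 1216 (.con 169 [2]) .no (.br 1097 (.br 1098 (.hor [.f 1097 1 5] []) (.con 137 [3]) (.con 138
  [1]) .no .no .no) (.use 3) (.br 1098 (.con 154 [2]) (.con 137 [3]) (.hor [.f 1097 3 5] []) .no
  .no .no) .no (.red [.f 1088 3 1, .f 1088 1 5, .t 952 1 3, .f 961 1 5, .f 1089 5 3, .t 1096 1 4]
  136 136 [] [(136, 136, [])]) .no) (.con 168 [2]) .no .no

def f11t5 : Tr4 :=
  .br 1072 (.red [.t 1072 1 3, .f 1081 1 3] 152 136 [1] [(151, 135, [1]), (152, 136, [1])]) (.red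
  [.f 944 1 3, .f 1072 3 5, .f 1080 5 1, .f 1081 1 3] 152 136 [1] [(135, 119, [1]), (152, 136,
  [1])]) .no (.br 945 .no (.br 944 .no (.hor [.f 816 1 5] []) .no (.con 134 [2]) .no .no) .no
  (.hor [.f 937 3 5] []) .no (.red [.t 1080 2 4, .f 1080 5 1, .f 1081 1 3] 152 136 [1] [(135, 119,
  [1]), (152, 136, [1])])) .no .no

def f11t6 : Tr4 :=
  .br 944 (.con 120 [4, 4]) (.hor [.f 816 1 5] []) .no (.con 120 [4, 4]) .no .no

def f11t7 : Tr4 :=
  .br 834 .no (.hor [.f 705 1 5] []) (.con 104 [3]) .no .no .no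

def f11t8 : Tr4 :=
  .br 834 .no (.con 105 [4]) (.hor [.f 833 3 5] []) .no .no .no

def f11t9 : Tr4 :=
  .br 970 (.con 122 [1]) (.con 122 [4]) (.hor [.f 969 3 5] []) .no (.con 122 [4]) .no

def f11t10 : Tr4 :=
  .br 842 .no (.br 841 .no (.hor [.f 713 1 5] []) (.con 105 [3]) .no .no .no) (.br 841 .no (.con
  106 [4]) (.hor [.f 841 3 5] []) .no .no .no) .no .no (.hor [.f 841 5 1, .f 840 1 5, .f 842 1 5]
  [])

def f11t11 : Tr4 :=
  .br 970 (.con 121 [3]) (.hor [.f 841 1 5] []) (.con 121 [3]) .no (.con 121 [3]) .no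

def f11t12 : Tr4 :=
  .br 978 (.br 1105 (.con 139 [4]) (.hor [.f 977 1 5] []) (.con 139 [4]) .no .no (.con 139 [4]))
  (.br 977 (.con 122 [3]) (.hor [.f 849 1 5] []) (.con 122 [3]) .no .no .no) (.br 977 (.con 123
  [1]) (.con 123 [4]) (.hor [.f 977 3 5] []) .no .no .no) .no .no (.hor [.f 969 5 3, .f 968 3 5,
  .f 970 3 5] [])

def f11t13 : Tr4 :=
  .br 1098 (.hor [.f 1097 1 5] []) (.con 137 [3]) (.con 138 [1]) .no .no .no

def f11t14 : Tr4 :=
  .br 1098 (.con 154 [2]) (.con 137 [3]) (.hor [.f 1097 3 5] []) .no .no .no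

def f11t15 : Tr4 :=
  .br 1075 .no .no .no (.hor [.f 1066 3 5] []) .no .no

def f11t16 : Tr4 :=
  .br 1074 (.br 1209 (.br 1210 (.hor [.f 1209 1 5] []) .no (.br 1211 (.br 1219 (.br 1216 (.br 1208
  (.hor [.f 1208 1 5] []) .no .no (.con 168 [4]) .no .no) .no (.con 153 [1]) (.con 168 [2]) .no
  .no) .no (.use 4) .no .no .no) .no (.hor [.f 1210 3 5] []) (.red [.t 1202 2 3, .f 1073 3 5] 151
  135 [1] [(151, 135, [1])]) .no .no) .no (.red [.f 1082 5 1, .f 1074 1 3] 151 135 [1] [(151, 135,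
  [1])]) .no) .no .no (.red [.f 1073 3 1, .f 1073 1 5] 151 135 [1] [(151, 135, [1])]) (.red [.t
  1073 3 1, .f 1081 1 3] 152 136 [1] [(151, 135, [1]), (152, 136, [1])]) (.use 5)) .no .no (.br
  1209 (.br 945 .no (.use 6) .no (.hor [.f 937 3 5] []) .no (.br 1208 (.hor [.f 1208 1 5] []) .no
  (.red [.t 1080 2 4, .t 1216 4 2, .f 953 3 1] 136 136 [] [(135, 119, [1]), (136, 136, []), (152,
  136, [1])]) (.br 1210 (.hor [.f 1209 1 5] []) .no (.br 1219 (.br 1211 (.con 168 [4]) .no .no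
  (.use 15) .no .no) .no (.use 4) (.con 135 [1, 1]) .no .no) (.con 135 [1, 1]) (.con 135 [1, 1])
  .no) .no .no)) .no .no (.red [.f 1073 3 1, .f 1081 1 3] 152 136 [1] [(151, 135, [1]), (152, 136,
  [1])]) (.br 833 .no (.use 7) (.use 8) (.con 120 [2]) (.br 968 .no (.br 969 (.use 3) (.hor [.f
  840 1 5] []) (.use 9) .no (.br 971 .no (.use 10) (.con 122 [4]) .no .no .no) .no) (.br 969 (.use
  3) (.use 11) (.hor [.f 968 3 5] []) .no (.br 1097 (.br 1098 (.hor [.f 1097 1 5] []) .no (.con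
  138 [1]) .no .no .no) .no (.br 1098 (.con 154 [2]) .no (.hor [.f 1097 3 5] []) .no .no .no) .no
  (.br 971 .no (.con 121 [3]) (.use 12) .no .no .no) .no) .no) .no (.br 1097 (.use 13) .no (.use
  14) .no (.br 945 .no (.use 6) .no (.hor [.f 937 3 5] []) .no (.br 1216 (.br 1208 (.red [.f 1208
  1 3] 168 136 [1, 1] [(168, 136, [1, 1])]) .no .no (.br 1211 (.con 135 [1, 1]) .no (.con 135 [1,
  1]) (.use 15) .no .no) .no .no) .no (.red [.f 1088 3 1, .f 1088 1 5, .t 952 1 3, .f 961 1 5, .f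
  1089 5 3, .t 1096 1 4] 136 136 [] [(136, 136, [])]) (.red [.t 1080 2 4, .t 1216 4 2, .f 953 3 1]
  136 136 [] [(135, 119, [1]), (136, 136, []), (152, 136, [1])]) .no .no)) .no) .no) .no) (.use
  5)) (.red [.f 1074 5 3, .f 1073 3 5, .t 961 4 1] 136 136 [] [(136, 136, [])]) .no

def f11t17 : Tr4 :=
  .br 833 .no (.use 7) (.use 8) (.con 120 [2]) (.hor [.t 953 3 2, .f 832 1 5, .f 945 5 3, .f 946 3
  5, .t 834 4 1] []) .no

def f11t18 : Tr4 :=
  .br 969 .no (.br 970 .no (.hor [.f 841 1 5] []) (.con 121 [3]) .no .no .no) (.br 970 .no (.con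
  122 [4]) (.hor [.f 969 3 5] []) .no .no .no) .no (.hor [.f 960 3 1, .f 969 5 1, .f 962 1 3, .f
  962 3 5, .f 968 1 5] []) .no

def f11t19 : Tr4 :=
  .br 835 .no (.con 104 [1]) (.con 104 [1]) (.br 971 .no (.br 833 .no (.br 834 .no (.hor [.f 705 1
  5] []) (.con 104 [3]) .no .no .no) (.br 834 .no (.con 105 [4]) (.hor [.f 833 3 5] []) .no .no
  .no) .no (.use 10) .no) (.con 122 [4]) .no .no .no) .no (.con 104 [1])

def f11t20 : Tr4 :=
  .br 832 .no (.con 120 [2]) .no (.hor [.f 824 3 5] []) .no .no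

def f11t21 : Tr4 :=
  .br 825 .no (.br 824 .no (.hor [.f 696 1 5] []) (.use 19) .no .no .no) (.use 20) (.red [.f 817 3
  1, .f 816 1 5] 119 103 [1] [(119, 103, [1])]) .no (.red [.t 944 2 3, .f 825 1 5] 119 120 [4]
  [(119, 120, [4])])

def f11t22 : Tr4 :=
  .br 834 .no (.con 105 [4]) (.hor [.f 833 3 5] []) .no (.con 105 [4]) .no

def f11t23 : Tr4 :=
  .br 843 (.use 10) (.con 122 [4]) (.con 122 [4]) .no .no (.con 122 [4])

def f11t24 : Tr4 :=
  .br 946 (.br 947 (.hor [.f 946 1 5] []) .no .no (.br 1075 (.br 1339 (.br 1347 (.br 1337 (.red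
  [.f 1339 1 3] 184 183 [3] [(184, 183, [3])]) .no (.red [.t 1344 2 4, .f 1209 1 5] 168 167 [3]
  [(168, 167, [3])]) (.red [.f 1339 1 3] 184 167 [3, 1] [(184, 167, [3, 1])]) .no (.red [.f 1339 1
  3] 184 183 [3] [(184, 183, [3])])) .no (.br 1345 (.br 1337 (.red [.f 1337 1 3] 184 183 [3]
  [(184, 183, [3])]) .no .no (.br 1346 (.con 169 [1]) .no (.hor [.f 1346 3 5] []) .no .no .no) .no
  (.red [.f 1208 5 1, .f 1208 1 3] 168 167 [3] [(168, 167, [3])])) .no (.con 169 [1]) (.red [.t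
  1344 2 4, .f 1209 1 5] 168 167 [3] [(168, 167, [3])]) (.con 169 [1]) .no) .no .no (.red [.f 1218
  5 1, .f 1210 1 3] 168 167 [3] [(168, 167, [3])])) .no (.red [.t 1338 2 3, .t 1217 2 4] 152 136
  [1] [(152, 136, [1]), (168, 167, [3])]) (.red [.f 1075 1 3, .f 1203 3 1, .f 1210 1 5, .f 1210 5
  3, .t 1217 2 4] 152 136 [1] [(151, 152, [4]), (152, 136, [1]), (167, 168, [4])]) .no .no) .no
  .no (.red [.f 939 3 1, .f 946 1 5] 134 135 [4] [(134, 135, [4])]) .no .no) .no .no) (.red [.f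
  818 1 3, .f 818 3 5] 119 118 [3] [(119, 118, [3])]) .no (.br 947 (.con 134 [2]) .no .no (.hor
  [.f 938 3 5] []) .no .no) (.red [.t 826 1 4, .f 945 3 5] 119 120 [4] [(119, 120, [4])]) .no

def f11t25 : Tr4 :=
  .br 946 (.red [.f 808 3 1, .t 944 2 3, .f 825 1 5] 119 120 [4] [(118, 120, [4, 4]), (119, 120,
  [4])]) (.red [.f 818 1 3] 119 120 [4] [(119, 120, [4])]) .no (.red [.f 808 3 1, .t 944 2 3, .f
  825 1 5] 119 120 [4] [(118, 134, [2]), (119, 120, [4])]) (.red [.f 808 3 1, .t 944 2 3, .f 825 1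
  5] 119 120 [4] [(118, 134, [2]), (119, 120, [4])]) .no

def f11t26 : Tr4 :=
  .br 832 .no (.br 833 .no (.hor [.f 704 1 5] []) (.use 22) .no (.br 835 .no (.use 23) (.con 105
  [4]) .no .no .no) .no) .no .no (.br 817 .no (.br 816 .no (.hor [.f 688 1 5] []) .no (.use 25)
  .no .no) .no (.br 816 .no (.br 818 (.red [.f 818 1 3] 119 120 [4] [(119, 120, [4])]) (.con 104
  [4, 4]) .no (.hor [.f 809 3 5] []) (.con 104 [4, 4]) .no) .no (.use 25) .no .no) (.red [.f 824 5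
  3, .t 953 4 2] 119 120 [4] [(119, 120, [4])]) (.red [.f 816 5 3, .f 817 3 1] 119 120 [4] [(119,
  120, [4])])) .no

def f11t27 : Tr4 :=
  .br 969 .no (.use 11) (.hor [.f 968 3 5] []) .no (.br 971 .no (.con 121 [3]) (.use 12) .no .no
  .no) .no

def f11t28 : Tr4 :=
  .br 1218 (.hor [.f 1218 1 5] []) .no (.con 153 [1]) .no .no .no

def f11t29 : Tr4 :=
  .br 1218 (.con 169 [2]) .no (.hor [.f 1218 3 5] []) .no .no .no

def f11t30 : Tr4 :=
  .br 1216 (.use 29) .no (.hor [.f 1088 3 1, .f 969 5 1, .f 1088 1 5, .f 1091 3 1, .f 969 1 5] [])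
  (.br 1218 (.con 169 [2]) .no (.hor [.f 1218 3 5] []) .no .no .no) .no .no

def f11l0 : List Tr4 :=
  [f11t0, f11t1, f11t2, f11t3, f11t4, f11t5, f11t6, f11t7, f11t8, f11t9, f11t10, f11t11, f11t12,
  f11t13, f11t14, f11t15, f11t16, f11t17, f11t18, f11t19, f11t20, f11t21, f11t22, f11t23, f11t24,
  f11t25, f11t26, f11t27, f11t28, f11t29, f11t30]

theorem f11k0 : chkLF ⟨4, 1, 0, false, -4⟩ true 0 f11N 0 f11l0 = true := by decide +kernel

def f11t31 : Tr4 :=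
  .br 1210 (.br 968 .no (.br 969 .no (.hor [.f 840 1 5] []) (.use 9) .no (.br 944 (.red [.f 944 1
  3, .f 944 3 5, .f 952 5 3, .t 961 4 1] 136 136 [] [(135, 119, [1]), (136, 136, [])]) (.use 21)
  .no (.br 1209 (.hor [.f 1209 1 5] []) .no .no (.br 1218 (.red [.f 1210 1 3, .t 1217 2 4, .f 1082
  1 5] 152 136 [1] [(152, 136, [1]), (168, 167, [3])]) .no (.br 1219 (.con 153 [1]) .no (.hor [.f
  1218 3 5] []) .no .no .no) .no (.br 1216 (.br 1208 (.con 167 [3]) .no .no (.hor [.f 1200 3 5]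
  []) .no .no) .no (.con 153 [1]) (.con 167 [2, 3]) .no .no) .no) .no (.br 1218 (.red [.f 1210 1
  3, .t 1217 2 4, .f 1082 1 5] 152 136 [1] [(152, 136, [1]), (168, 167, [3])]) .no (.br 1219 (.con
  153 [1]) .no (.hor [.f 1218 3 5] []) .no .no .no) .no (.br 1216 (.br 825 .no (.br 824 .no (.hor
  [.f 696 1 5] []) (.use 19) (.br 827 .no (.con 104 [4]) (.con 120 [2]) (.use 24) .no .no) .no
  .no) (.use 20) (.red [.f 817 3 1, .f 825 1 5] 119 120 [4] [(119, 120, [4])]) .no (.br 827 .no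
  (.use 26) (.con 120 [2]) (.use 24) .no .no)) .no (.con 153 [1]) .no .no .no) .no)) .no .no) .no)
  (.use 27) .no (.hor [.f 960 5 3, .f 960 3 1, .t 961 3 1, .f 968 1 5, .f 1090 3 5] []) .no) .no
  (.red [.t 1217 2 4, .f 1082 1 5] 152 136 [1] [(152, 136, [1])]) (.br 968 .no (.br 969 .no (.hor
  [.f 840 1 5] []) (.use 9) .no (.br 944 (.red [.f 944 1 3, .f 944 3 5, .f 952 5 3, .t 961 4 1]
  136 136 [] [(135, 119, [1]), (136, 136, [])]) (.use 21) .no (.br 1073 (.red [.t 1201 2 3, .f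
  1082 1 5, .t 962 1 4] 136 136 [] [(136, 136, []), (151, 152, [4])]) .no .no (.br 1074 .no (.br
  947 (.hor [.f 946 1 5] []) (.con 120 [4, 4]) .no (.br 1075 (.br 1219 (.use 28) .no (.br 1216
  (.use 29) .no (.hor [.f 1088 3 1, .f 969 5 1, .f 1088 1 5, .f 1091 3 1, .f 969 1 5] []) (.red
  [.t 945 3 1, .f 952 1 5, .t 1216 4 2] 152 136 [1] [(135, 119, [1]), (152, 136, [1])]) .no .no)
  .no .no (.red [.f 1075 1 3, .f 1202 3 5, .f 1210 5 3, .t 1217 2 4] 152 136 [1] [(151, 152, [4]),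
  (152, 136, [1])])) .no .no (.red [.f 939 3 1, .f 946 1 5] 134 135 [4] [(134, 135, [4])]) .no
  .no) .no .no) .no (.hor [.f 1065 3 5] []) (.br 1219 (.use 28) .no (.use 30) .no .no (.red [.t
  1210 4 2, .f 1210 5 3, .t 1217 2 4] 152 136 [1] [(151, 152, [4]), (152, 136, [1])])) .no) (.br
  1219 (.use 28) .no (.use 30) .no .no (.br 1075 (.red [.f 1075 1 3, .f 1202 3 5, .f 1210 5 3, .t
  1217 2 4] 152 136 [1] [(151, 152, [4]), (152, 136, [1])]) (.con 134 [3, 2]) .no (.br 1072 (.con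
  150 [3, 3]) .no .no (.br 946 .no (.red [.f 818 1 3] 119 120 [4] [(119, 120, [4])]) .no (.br 947
  .no (.con 134 [2]) .no (.hor [.f 938 3 5] []) .no .no) (.br 825 .no (.br 824 .no (.hor [.f 696 1
  5] []) (.use 19) (.br 827 .no (.con 104 [4]) (.con 120 [2]) (.red [.t 826 1 4, .f 945 3 5] 119
  120 [4] [(119, 120, [4])]) .no .no) .no .no) (.use 20) (.red [.f 936 3 1, .f 817 3 1, .f 825 1
  5, .f 936 1 3] 119 120 [4] [(119, 120, [4])]) .no (.br 827 .no (.use 26) (.con 120 [2]) (.red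
  [.t 826 1 4, .f 945 3 5] 119 103 [1] [(119, 103, [1])]) .no .no)) .no) .no .no) .no .no)) (.red
  [.t 952 1 4, .f 952 5 3, .t 961 4 1] 136 136 [] [(135, 119, [1]), (136, 136, [])])) .no .no)
  .no) (.use 27) .no (.hor [.f 960 5 3, .f 960 3 1, .t 961 3 1, .f 968 1 5, .f 1090 3 5] []) .no)
  .no (.red [.f 1081 5 1, .f 1081 1 3] 152 136 [1] [(152, 136, [1])])

def f11t32 : Tr4 :=
  .br 1088 (.hor [.f 1088 1 5] []) .no (.br 1091 (.con 153 [2]) (.con 136 [2]) (.br 1097 (.use 13)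
  (.use 3) (.use 14) .no (.br 963 .no (.con 121 [4]) (.con 136 [2]) (.br 1081 (.red [.f 1081 1 3]
  152 136 [1] [(152, 136, [1])]) (.hor [.f 952 1 5] []) .no (.br 1082 (.use 1) (.con 135 [3]) .no
  (.hor [.f 1073 3 5] []) (.red [.t 962 1 4] 136 136 [] [(136, 136, [])]) .no) (.br 953 .no (.br
  954 .no (.hor [.f 825 1 5] []) .no (.con 119 [3]) .no .no) .no (.br 954 .no (.br 1083 (.use 31)
  .no .no (.br 968 .no (.br 969 .no (.hor [.f 840 1 5] []) (.use 9) .no (.br 944 (.red [.f 944 1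
  3, .f 944 3 5, .f 952 5 3, .t 961 4 1] 136 136 [] [(135, 119, [1]), (136, 136, [])]) (.use 21)
  .no (.br 1073 (.br 1074 (.hor [.f 1073 1 5] []) (.red [.t 945 3 1, .f 1074 3 5, .t 962 1 4] 136
  136 [] [(135, 119, [1]), (136, 136, [])]) .no (.br 1072 (.hor [.f 1072 1 5] []) .no .no (.con
  134 [1]) .no .no) .no .no) .no .no (.br 1074 (.br 1210 (.br 1209 (.hor [.f 1209 1 5] []) .no .no
  (.red [.t 1201 3 2, .f 1074 3 5] 151 135 [1] [(151, 135, [1])]) .no (.br 1211 (.hor [.f 1210 1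
  5] []) .no (.con 136 [1, 1]) (.red [.f 1075 3 1, .f 1074 1 5] 151 135 [1] [(151, 135, [1])]) .no
  .no)) .no (.red [.t 1217 2 4] 152 136 [1] [(152, 136, [1])]) .no (.red [.t 1074 1 3] 151 135 [1]
  [(151, 135, [1])]) (.red [.f 1081 5 1, .f 1081 1 3] 152 136 [1] [(152, 136, [1])])) (.red [.t
  945 3 1, .f 1074 3 5, .t 962 1 4] 136 136 [] [(135, 119, [1]), (136, 136, [])]) .no (.hor [.f
  1065 3 5] []) .no .no) (.red [.f 1073 5 3, .f 1074 3 5, .t 962 1 4] 136 136 [] [(136, 136, [])])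
  (.red [.t 952 1 4, .f 952 5 3, .t 961 4 1] 136 136 [] [(135, 119, [1]), (136, 136, [])])) .no
  .no) .no) (.use 27) .no (.hor [.f 960 5 3, .f 960 3 1, .t 961 3 1, .f 968 1 5, .f 1090 3 5] [])
  .no) .no .no) .no (.hor [.f 945 3 5] []) .no .no) (.red [.f 953 5 1, .f 954 1 3] 136 136 []
  [(136, 136, [])]) .no) .no) .no .no) .no) (.con 153 [2]) .no .no) .no .no .no

def f11t33 : Tr4 :=
  .br 960 (.red [.f 952 1 3] 136 136 [] [(136, 136, [])]) (.br 962 (.br 961 (.con 136 [3]) (.hor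
  [.f 832 1 5] []) (.con 137 [2]) (.br 963 (.con 120 [3]) (.br 1081 (.br 1082 (.hor [.f 1081 1 5]
  []) (.red [.f 954 1 3, .f 953 3 5] 136 136 [] [(136, 136, [])]) .no (.br 1089 (.red [.f 1081 1
  3] 152 151 [3] [(152, 151, [3])]) .no (.use 0) .no .no (.red [.t 952 1 3, .f 961 1 5] 136 136 []
  [(136, 136, [])])) (.br 1089 (.red [.f 1081 1 3] 152 136 [1] [(152, 136, [1])]) .no (.use 0) .no
  .no (.red [.t 952 1 3, .f 961 1 5] 136 136 [] [(136, 136, [])])) .no) .no (.red [.f 953 3 1, .f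
  952 1 5] 136 136 [] [(136, 136, [])]) (.br 1089 (.br 1088 (.hor [.f 1088 1 5] []) .no (.br 1082
  (.use 1) (.red [.f 954 1 3, .f 953 3 5] 136 136 [] [(136, 136, [])]) .no (.hor [.f 1073 3 5] [])
  (.br 955 .no (.use 2) .no (.br 954 .no (.br 1091 (.con 153 [2]) .no (.br 946 (.red [.t 946 1 3,
  .f 1073 3 5, .t 961 4 1] 136 136 [] [(135, 119, [1]), (136, 136, [])]) (.red [.f 818 1 3] 119
  120 [4] [(119, 120, [4])]) .no (.br 827 .no (.use 16) .no (.red [.f 819 3 1, .f 826 1 5] 119 120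
  [4] [(119, 120, [4])]) .no .no) .no (.use 17)) .no .no .no) .no (.hor [.f 946 3 5] []) .no .no)
  .no (.red [.f 954 5 1, .f 954 1 3] 136 136 [] [(136, 136, [])])) .no) .no .no .no) .no (.use 0)
  .no .no (.red [.t 952 1 3, .f 961 1 5] 136 136 [] [(136, 136, [])])) (.red [.t 961 4 1, .f 952 1
  5] 136 136 [] [(136, 136, [])]) .no) (.con 120 [3]) (.con 120 [3]) .no .no) .no .no) (.con 136
  [3]) (.con 136 [3]) (.con 136 [3]) (.con 136 [3]) (.con 136 [3])) (.br 962 (.br 961 (.con 136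
  [3]) (.con 121 [4]) (.hor [.f 960 3 5] []) (.br 1089 (.br 1088 (.hor [.f 1088 1 5] []) .no (.br
  1081 (.red [.f 1081 1 3] 152 153 [4] [(152, 153, [4])]) .no .no (.br 1082 (.use 1) (.red [.f 954
  1 3, .f 953 3 5] 136 136 [] [(136, 136, [])]) .no (.hor [.f 1073 3 5] []) (.br 955 .no (.use 2)
  (.con 120 [1]) (.br 1091 (.con 153 [2]) (.con 121 [1]) (.br 1097 (.use 13) (.use 3) (.use 14)
  .no (.br 963 .no (.con 121 [4]) (.use 18) .no .no .no) .no) .no .no .no) .no (.red [.f 954 5 1,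
  .f 954 1 3] 136 136 [] [(136, 136, [])])) .no) (.red [.t 961 4 1, .f 952 1 5] 136 136 [] [(136,
  136, [])]) .no) .no .no .no) .no (.br 1088 (.con 137 [1]) .no (.hor [.f 1088 3 5] []) .no .no
  .no) (.red [.f 953 3 1, .f 952 1 5] 136 136 [] [(136, 136, [])]) .no (.red [.t 952 1 3, .f 961 1
  5] 136 136 [] [(136, 136, [])])) .no .no) (.con 136 [3]) (.con 136 [3]) (.con 136 [3]) (.con 136
  [3]) (.con 136 [3])) .no (.br 962 (.br 1089 (.use 32) .no (.br 1088 (.con 137 [1]) .no (.hor [.f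
  1088 3 5] []) .no .no .no) (.red [.t 1080 2 3, .f 961 1 5] 136 136 [] [(136, 136, [])]) .no
  (.red [.f 960 5 1, .f 952 1 3] 136 136 [] [(136, 136, [])])) (.con 136 [3]) (.con 136 [3]) (.con
  136 [2]) (.con 136 [2]) .no) .no

def f11t34 : Tr4 :=
  .br 1090 (.hor [.f 1089 1 5] []) (.red [.f 1081 1 3] 152 153 [4] [(152, 153, [4])]) (.red [.f
  1081 1 3] 152 153 [4] [(152, 153, [4])]) (.red [.f 1081 1 3] 152 136 [1] [(152, 136, [1])])
  (.red [.f 1081 1 3] 152 136 [1] [(152, 136, [1])]) .no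

def f11t35 : Tr4 :=
  .br 1090 (.con 137 [1]) (.con 137 [1]) (.hor [.f 1089 3 5] []) (.con 137 [1]) (.con 137 [1]) .no

def f11t36 : Tr4 :=
  .br 955 (.con 120 [4]) (.hor [.f 826 1 5] []) (.con 120 [4]) (.con 120 [4]) .no .no

def f11t37 : Tr4 :=
  .br 1091 (.con 153 [2]) (.con 136 [3]) (.hor [.f 1090 3 5] []) (.con 153 [2]) .no .no

def f11t38 : Tr4 :=
  .br 971 (.con 121 [1]) (.con 121 [1]) (.con 121 [1]) (.hor [.f 962 3 5] []) .no .no

def f11t39 : Tr4 :=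
  .br 955 (.hor [.f 954 1 5] []) (.br 1090 (.hor [.f 1089 1 5] []) (.red [.f 954 1 3, .f 953 3 5]
  136 136 [] [(136, 136, [])]) (.use 37) .no (.br 962 .no (.br 963 .no (.hor [.f 834 1 5] [])
  (.con 120 [3]) .no .no .no) (.br 963 .no (.con 121 [4]) (.hor [.f 962 3 5] []) .no .no .no) .no
  (.red [.f 962 5 1, .f 954 1 3] 136 136 [] [(136, 136, [])]) .no) .no) (.con 120 [1]) (.br 1090
  (.hor [.f 1089 1 5] []) (.red [.f 954 1 3, .f 953 3 5] 136 136 [] [(136, 136, [])]) (.use 37)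
  .no (.br 962 .no (.br 963 .no (.hor [.f 834 1 5] []) (.con 120 [3]) .no .no .no) (.use 38) .no
  (.red [.f 962 5 1, .f 954 1 3] 136 136 [] [(136, 136, [])]) .no) .no) .no .no

def f11t40 : Tr4 :=
  .br 1080 (.con 136 [4, 1]) .no .no (.hor [.f 1072 3 5] []) .no .no

def f11t41 : Tr4 :=
  .br 1091 (.con 136 [1]) (.con 136 [3]) (.con 136 [1]) (.hor [.f 1082 3 5] []) .no .no

def f11t42 : Tr4 :=
  .br 1080 (.con 136 [4, 1]) .no .no (.hor [.f 1072 3 5] []) .no .no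

def f11t43 : Tr4 :=
  .br 1089 (.br 1090 (.hor [.f 1089 1 5] []) (.red [.t 961 4 1] 136 136 [] [(136, 136, [])]) (.use
  37) .no (.br 962 .no (.br 963 .no (.hor [.f 834 1 5] []) (.con 120 [3]) (.con 120 [3]) .no .no)
  (.use 38) (.hor [.f 953 3 5] []) (.red [.f 962 5 1, .t 961 4 1] 136 136 [] [(136, 136, [])])
  .no) .no) .no (.use 35) .no (.red [.f 1081 5 3, .f 953 3 1] 136 136 [] [(136, 136, [])]) .no

def f11l1 : List Tr4 :=
  [f11t31, f11t32, f11t33, f11t34, f11t35, f11t36, f11t37, f11t38, f11t39, f11t40, f11t41, f11t42,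
  f11t43]

theorem f11k1 : chkLF ⟨4, 1, 0, false, -4⟩ true 0 f11N 31 f11l1 = true := by decide +kernel

def f11t44 : Tr4 :=
  .br 1081 (.br 1089 (.use 34) .no (.use 35) .no (.br 1082 (.hor [.f 1081 1 5] []) (.red [.t 953 3
  1, .f 960 1 5] 136 136 [] [(136, 136, [])]) .no (.br 954 .no (.use 36) (.hor [.f 953 3 5] [])
  (.red [.f 946 3 1, .t 953 3 1] 136 136 [] [(135, 136, [4]), (136, 136, [])]) (.br 1080 (.hor [.f
  1080 1 5] []) .no .no (.br 1083 (.con 151 [2]) .no (.con 151 [2]) (.hor [.f 1074 3 5] []) .no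
  .no) .no .no) .no) (.br 954 .no (.use 36) (.hor [.f 953 3 5] []) (.br 955 .no (.br 1091 (.br 947
  (.red [.t 946 3 1, .t 953 3 1] 136 136 [] [(135, 119, [1]), (136, 136, [])]) (.red [.f 819 1 3,
  .f 946 3 5, .f 954 5 1, .t 953 3 1] 136 136 [] [(119, 120, [4]), (136, 136, [])]) .no (.br 1080
  (.hor [.f 1080 1 5] []) .no .no (.br 1210 (.br 1218 (.br 1208 (.red [.f 1210 1 3, .t 1209 2 3]
  152 136 [1] [(152, 136, [1]), (168, 167, [3])]) .no (.br 1217 (.hor [.f 1217 1 5] []) .no (.con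
  169 [2]) .no .no .no) (.red [.f 1210 1 3, .t 1209 2 3] 152 136 [1] [(152, 136, [1]), (168, 136,
  [1, 1])]) .no .no) .no (.br 1217 (.con 153 [1]) .no (.hor [.f 1217 3 5] []) .no .no (.con 153
  [1])) .no .no (.red [.f 1089 5 1, .f 1081 1 3] 152 136 [1] [(152, 136, [1])])) .no (.red [.t
  1218 4 2, .f 1081 1 5] 152 136 [1] [(152, 136, [1])]) (.br 1075 (.red [.t 1202 3 2, .f 1081 1 5,
  .f 1081 5 3, .f 953 3 1] 136 136 [] [(136, 136, []), (151, 135, [1])]) .no .no (.br 1074 .no .no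
  .no (.hor [.f 1066 3 5] []) .no (.red [.f 939 3 1, .t 946 3 1, .t 953 3 1] 136 136 [] [(134,
  150, [2]), (135, 119, [1]), (136, 136, [])])) .no (.red [.f 1074 5 3, .f 946 3 1, .t 953 3 1]
  136 136 [] [(135, 119, [1]), (136, 136, [])])) (.red [.f 1082 5 1, .f 1083 1 3] 152 136 [1]
  [(152, 136, [1])]) .no) .no .no) .no .no) (.con 136 [3]) (.con 137 [1]) .no .no .no) (.con 120
  [1]) (.hor [.f 946 3 5] []) .no .no) (.red [.f 954 5 1, .t 953 3 1] 136 136 [] [(136, 136, [])])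
  .no) .no) .no) .no (.red [.f 953 3 1, .f 960 1 5] 136 136 [] [(136, 136, [])]) (.br 1089 (.br
  954 (.use 39) (.use 36) (.hor [.f 953 3 5] []) (.br 1082 (.use 40) .no (.use 41) (.red [.f 946 3
  1] 135 136 [4] [(135, 136, [4])]) (.use 42) .no) (.br 1082 (.use 40) .no (.use 41) (.hor [.f
  1073 3 5] []) (.use 42) .no) .no) .no (.use 35) .no (.br 1082 (.use 40) (.red [.t 953 3 1, .f
  960 1 5] 136 136 [] [(136, 136, [])]) .no (.hor [.f 1073 3 5] []) (.use 42) .no) .no) (.use 43)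
  (.red [.t 960 1 4] 136 136 [] [(136, 136, [])])

def f11t45 : Tr4 :=
  .br 1080 (.con 136 [4, 1]) .no (.con 136 [4, 1]) (.hor [.f 1072 3 5] []) .no .no

def f11t46 : Tr4 :=
  .br 1089 (.br 1088 (.hor [.f 1088 1 5] []) .no (.con 153 [2]) .no .no .no) .no (.br 1088 (.con
  137 [1]) .no (.hor [.f 1088 3 5] []) .no .no .no) .no .no (.red [.f 1080 5 3, .f 953 3 1] 136
  136 [] [(136, 136, [])])

def f11t47 : Tr4 :=
  .br 1080 (.hor [.f 1080 1 5] []) .no (.con 136 [1]) (.con 151 [2]) .no .no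

def f11t48 : Tr4 :=
  .br 833 .no (.con 104 [3]) (.hor [.f 833 3 5] []) (.con 120 [2]) .no .no

def f11t49 : Tr4 :=
  .br 833 .no (.hor [.f 705 1 5] []) (.con 105 [4]) (.con 105 [4]) .no .no

def f11t50 : Tr4 :=
  .br 1209 (.hor [.f 1208 1 5] []) .no .no (.red [.f 1208 1 3, .t 1216 4 2] 152 136 [1] [(152,
  136, [1]), (168, 167, [3])]) (.red [.f 1208 1 3, .t 1216 4 2] 152 136 [1] [(152, 136, [1]),
  (168, 167, [3])]) .no

def f11t51 : Tr4 :=
  .br 944 (.hor [.f 944 1 5] []) (.red [.f 816 1 3] 119 134 [3, 2] [(119, 134, [3, 2])]) .no (.br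
  946 .no (.hor [.f 818 1 5] []) .no (.con 134 [2]) .no .no) .no .no

def f11t52 : Tr4 :=
  .br 1072 (.con 150 [2]) (.con 150 [2]) .no (.hor [.f 1064 3 5] []) .no .no

def f11t53 : Tr4 :=
  .br 1209 (.hor [.f 1208 1 5] []) .no .no (.con 167 [2, 3]) .no .no

def f11t54 : Tr4 :=
  .br 1073 (.red [.f 939 3 1, .t 1074 3 2, .f 954 1 3] 136 136 [] [(134, 136, [4, 4]), (135, 136,
  [4]), (136, 136, [])]) (.br 834 .no (.use 49) (.use 48) (.hor [.f 824 1 3, .f 952 3 5, .t 834 4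
  1] []) .no (.br 946 .no (.br 827 .no (.br 826 .no (.hor [.f 698 1 5] []) .no .no .no (.br 819
  .no (.red [.f 691 1 3] 103 104 [4] [(103, 104, [4])]) .no (.red [.f 811 3 1, .f 818 1 5, .f 946
  5 3, .f 946 3 1] 135 136 [4] [(118, 119, [4]), (135, 136, [4])]) .no .no)) .no (.red [.t 818 1
  3, .f 946 3 1, .f 945 1 5] 119 103 [1] [(119, 103, [1]), (135, 136, [4])]) .no (.hor [.f 826 5
  1, .f 827 1 3, .t 953 3 2, .f 826 3 5, .f 832 1 5] [])) .no (.hor [.f 938 3 5] []) .no .no)) .no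
  (.red [.f 939 3 1, .t 1074 3 2, .f 954 1 3] 136 136 [] [(134, 150, [2]), (135, 136, [4]), (136,
  136, [])]) .no (.red [.f 939 3 1, .t 1074 3 2, .f 954 1 3] 136 136 [] [(134, 150, [2]), (135,
  136, [4]), (136, 136, [])])

def f11t55 : Tr4 :=
  .br 1083 (.br 1081 (.use 47) .no (.red [.f 953 3 1, .f 961 1 5] 136 136 [] [(136, 136, [])])
  (.hor [.f 1073 3 5] []) .no (.br 1091 (.red [.f 1083 1 3] 152 136 [1] [(152, 136, [1])]) .no
  (.br 1089 (.br 1088 (.con 137 [1]) .no (.br 1208 (.br 1075 (.red [.f 1075 1 3, .f 1074 3 5, .f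
  954 5 1, .f 954 1 3] 136 136 [] [(136, 136, []), (151, 135, [1])]) (.red [.t 1074 3 2, .f 954 1
  3] 136 136 [] [(135, 136, [4]), (136, 136, [])]) .no (.br 947 .no (.br 834 .no (.use 49) (.use
  48) (.hor [.f 824 1 3, .f 952 3 5, .t 834 4 1] []) .no (.br 1216 (.use 50) .no (.br 1219 (.con
  153 [1]) .no (.br 827 .no (.br 1218 (.br 1210 (.red [.f 1210 1 3] 168 167 [3] [(168, 167, [3])])
  .no .no (.red [.f 1074 3 1, .f 1082 1 5, .f 954 5 1, .f 954 1 3] 136 136 [] [(136, 136, []),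
  (151, 135, [1])]) .no (.br 1073 (.red [.t 1073 1 3, .f 1082 1 5, .f 954 5 1, .f 954 1 3] 136 136
  [] [(136, 136, []), (151, 135, [1])]) (.use 51) .no (.use 52) .no (.red [.f 1072 5 3, .f 1073 3
  5, .t 961 4 1] 136 136 [] [(136, 136, [])]))) .no (.con 153 [1]) (.use 53) .no .no) .no .no .no
  (.hor [.f 826 5 1, .f 827 1 3, .t 953 3 2, .f 826 3 5, .f 832 1 5] [])) .no .no (.con 153 [1]))
  .no .no .no)) .no (.use 54) .no (.red [.f 946 5 3, .f 946 3 1] 135 136 [4] [(135, 136, [4])]))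
  .no .no) .no (.red [.t 1216 4 2] 152 136 [1] [(152, 136, [1])]) (.br 1075 (.red [.f 1075 1 3, .f
  1074 3 5, .f 954 5 1, .f 954 1 3] 136 136 [] [(136, 136, []), (151, 135, [1])]) (.red [.t 1074 3
  2, .f 954 1 3] 136 136 [] [(135, 136, [4]), (136, 136, [])]) .no (.br 947 .no (.br 1073 (.red
  [.t 1200 3 2, .f 1073 3 5, .t 961 4 1] 136 136 [] [(136, 136, []), (151, 135, [1])]) (.use 51)
  .no (.br 834 .no (.use 49) (.use 48) (.hor [.f 824 1 3, .f 952 3 5, .t 834 4 1] []) .no (.br 827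
  .no (.use 52) .no .no .no (.hor [.f 826 5 1, .f 827 1 3, .t 953 3 2, .f 826 3 5, .f 832 1 5]
  []))) .no (.red [.f 1072 5 3, .f 1073 3 5, .t 961 4 1] 136 136 [] [(136, 136, [])])) .no (.use
  54) .no (.red [.f 946 5 3, .f 946 3 1] 135 136 [4] [(135, 136, [4])])) .no .no) (.red [.f 1080 5
  1, .f 1081 1 3] 152 136 [1] [(152, 136, [1])]) .no) .no .no .no) .no (.con 137 [1]) .no .no
  (.con 137 [1])) .no .no .no)) .no (.red [.t 1090 2 4, .f 953 3 5] 136 136 [] [(136, 136, [])])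
  (.hor [.f 1074 3 5] []) .no .no

def f11t56 : Tr4 :=
  .br 1088 (.br 1089 (.hor [.f 1088 1 5] []) .no (.con 137 [1]) .no .no .no) .no (.br 1089 (.con
  153 [2]) .no (.hor [.f 1088 3 5] []) .no .no .no) .no (.red [.f 1080 5 3, .f 953 3 1] 136 136 []
  [(136, 136, [])]) .no

def f11t57 : Tr4 :=
  .br 1097 (.use 13) (.use 3) (.use 14) .no (.use 18) .no

def f11t58 : Tr4 :=
  .br 1089 (.br 1088 (.con 137 [1]) .no (.use 57) (.con 136 [1]) .no .no) .no (.con 137 [1]) (.red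
  [.f 953 3 1, .f 961 1 5] 136 136 [] [(136, 136, [])]) .no (.con 137 [1])

def f11t59 : Tr4 :=
  .br 954 (.red [.f 954 1 3, .f 953 3 5] 136 136 [] [(136, 136, [])]) (.use 36) .no (.br 955 (.con
  136 [4]) (.br 1082 (.br 1081 (.hor [.f 1081 1 5] []) .no (.red [.f 953 3 1, .f 961 1 5] 136 136
  [] [(136, 136, [])]) (.use 45) .no (.br 1083 (.hor [.f 1082 1 5] []) .no (.use 56) (.con 119 [1,
  1]) .no .no)) .no .no (.red [.f 946 3 1, .f 954 1 3] 136 136 [] [(135, 119, [1]), (136, 136,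
  [])]) (.br 963 (.con 121 [1]) (.con 121 [4]) (.br 1091 (.br 1089 (.br 1088 (.hor [.f 1088 1 5]
  []) .no (.con 153 [2]) (.con 136 [1]) .no .no) .no (.br 1088 (.con 137 [1]) .no (.hor [.f 1088 3
  5] []) (.con 136 [1]) .no .no) (.red [.f 953 3 1, .f 961 1 5] 136 136 [] [(136, 136, [])]) .no
  (.br 1081 (.br 1080 (.hor [.f 1080 1 5] []) .no .no (.br 1208 (.br 1210 (.br 1216 (.red [.f 1208
  1 3, .t 1208 3 2] 152 136 [1] [(152, 136, [1]), (168, 167, [3])]) .no (.br 1218 (.red [.f 1210 1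
  3, .t 1218 4 2] 152 136 [1] [(152, 136, [1]), (168, 167, [3])]) .no (.con 153 [1]) .no .no (.con
  153 [1])) .no (.red [.f 1088 5 1, .f 1081 1 3] 152 136 [1] [(152, 136, [1])]) .no) .no (.red [.t
  1218 4 2, .f 1081 1 5] 152 136 [1] [(152, 136, [1])]) (.br 1216 (.red [.f 1208 1 3, .t 1208 3 2]
  152 136 [1] [(152, 136, [1]), (168, 136, [1, 1])]) .no (.br 1217 (.con 153 [1]) .no (.hor [.f
  1216 3 5] []) .no (.con 153 [1]) .no) .no (.red [.f 1088 5 1, .f 1081 1 3] 152 136 [1] [(152,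
  136, [1])]) .no) (.red [.f 1082 5 1, .f 1083 1 3] 152 136 [1] [(152, 136, [1])]) .no) .no (.red
  [.t 1208 3 2] 152 136 [1] [(152, 136, [1])]) (.red [.f 1072 3 1, .f 1080 1 5, .f 1080 5 3, .f
  953 3 1] 136 136 [] [(136, 136, []), (151, 135, [1])]) .no .no) .no .no) .no .no (.br 1080 (.con
  119 [1, 1]) .no .no (.hor [.f 1072 3 5] []) .no .no) .no (.red [.f 1080 5 3, .f 953 3 1] 136 136
  [] [(136, 136, [])]))) .no (.use 58) .no .no .no) .no .no .no) (.red [.t 961 4 1] 136 136 []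
  [(136, 136, [])])) (.con 120 [1]) (.hor [.f 946 3 5] []) .no .no) (.br 1082 (.br 1081 (.hor [.f
  1081 1 5] []) .no (.red [.f 953 3 1, .f 961 1 5] 136 136 [] [(136, 136, [])]) (.use 45) .no (.br
  1083 (.hor [.f 1082 1 5] []) .no (.use 56) (.con 136 [4, 1]) .no .no)) .no .no (.br 1083 (.br
  1081 (.use 47) .no (.red [.f 953 3 1, .f 961 1 5] 136 136 [] [(136, 136, [])]) (.hor [.f 1073 3
  5] []) .no (.br 1091 (.red [.f 1083 1 3] 152 136 [1] [(152, 136, [1])]) (.con 121 [1]) (.br 963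
  .no (.con 121 [4]) (.use 58) .no .no .no) .no .no .no)) .no (.red [.t 1090 2 4, .f 953 3 5] 136
  136 [] [(136, 136, [])]) (.hor [.f 1074 3 5] []) .no .no) (.red [.f 954 5 1, .f 954 1 3] 136 136
  [] [(136, 136, [])]) (.red [.t 961 4 1] 136 136 [] [(136, 136, [])])) .no

def f11t60 : Tr4 :=
  .br 960 (.use 44) (.br 962 (.br 963 (.con 120 [3]) (.br 954 (.red [.f 954 1 3, .f 953 3 5] 136
  136 [] [(136, 136, [])]) (.use 36) .no (.br 955 (.con 136 [4]) (.br 1082 (.br 1081 (.hor [.f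
  1081 1 5] []) .no (.red [.f 953 3 1, .f 961 1 5] 136 136 [] [(136, 136, [])]) (.use 45) .no (.br
  1083 (.hor [.f 1082 1 5] []) .no (.use 46) (.con 119 [1, 1]) .no .no)) .no .no (.red [.f 946 3
  1, .f 954 1 3] 136 136 [] [(135, 119, [1]), (136, 136, [])]) (.br 826 .no (.br 825 .no (.hor [.f
  697 1 5] []) (.con 103 [3]) (.con 103 [3]) .no .no) (.br 833 .no (.con 104 [3]) (.con 104 [1])
  (.hor [.f 825 3 5] []) .no .no) (.red [.f 818 3 1, .f 826 1 5, .f 954 5 1, .f 954 1 3] 136 136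
  [] [(119, 120, [4]), (136, 136, [])]) .no (.br 833 .no (.br 834 .no (.hor [.f 705 1 5] []) (.con
  104 [3]) .no .no .no) (.br 834 .no (.con 105 [4]) (.hor [.f 833 3 5] []) .no .no .no) .no (.hor
  [.f 825 5 3, .f 824 1 3, .f 824 3 5, .f 827 1 3, .f 826 3 5] []) .no)) (.red [.t 961 4 1] 136
  136 [] [(136, 136, [])])) .no (.hor [.f 946 3 5] []) .no .no) (.br 1082 (.br 1081 (.hor [.f 1081
  1 5] []) .no (.red [.f 953 3 1, .f 961 1 5] 136 136 [] [(136, 136, [])]) (.use 45) .no (.br 1083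
  (.hor [.f 1082 1 5] []) .no (.use 46) (.con 136 [4, 1]) .no .no)) .no .no (.use 55) (.red [.f
  954 5 1, .f 954 1 3] 136 136 [] [(136, 136, [])]) (.red [.t 961 4 1] 136 136 [] [(136, 136,
  [])])) .no) (.con 120 [3]) (.con 120 [3]) .no .no) (.con 120 [3]) (.con 136 [3]) (.con 136 [3])
  (.con 120 [3]) .no) (.br 962 (.use 59) (.con 136 [3]) (.con 121 [1]) (.con 136 [3]) (.con 121
  [1]) .no) .no .no .no

def f11t61 : Tr4 :=
  .br 969 (.con 121 [1]) (.con 121 [1]) (.con 121 [1]) (.hor [.f 961 3 5] []) .no (.con 121 [1])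

def f11t62 : Tr4 :=
  .br 1083 (.hor [.f 1082 1 5] []) .no (.red [.f 955 3 1, .f 962 1 5] 136 136 [] [(136, 136, [])])
  (.con 136 [4, 1]) .no .no

def f11t63 : Tr4 :=
  .br 961 .no (.hor [.f 832 1 5] []) (.con 137 [2]) .no .no .no

def f11l2 : List Tr4 :=
  [f11t44, f11t45, f11t46, f11t47, f11t48, f11t49, f11t50, f11t51, f11t52, f11t53, f11t54, f11t55,
  f11t56, f11t57, f11t58, f11t59, f11t60, f11t61, f11t62, f11t63]

theorem f11k2 : chkLF ⟨4, 1, 0, false, -4⟩ true 0 f11N 44 f11l2 = true := by decide +kernel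

def f11t64 : Tr4 :=
  .br 969 .no (.con 121 [1]) (.con 121 [1]) (.hor [.f 960 3 5] []) (.con 121 [1]) .no

def f11t65 : Tr4 :=
  .br 969 .no (.hor [.f 840 1 5] []) (.use 9) .no (.hor [.f 1088 3 1, .f 969 5 1, .f 1088 1 5, .f
  1091 3 1, .f 969 1 5] []) .no

def f11t66 : Tr4 :=
  .br 944 (.br 946 .no (.hor [.f 817 1 5] []) .no (.con 136 [4, 2, 4]) (.con 136 [4, 4]) .no)
  (.hor [.f 816 1 5] []) .no (.br 946 .no (.hor [.f 817 1 5] []) .no (.con 136 [4, 2, 4]) (.con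
  136 [4, 2, 4]) .no) .no .no

def f11t67 : Tr4 :=
  .br 1072 .no .no .no (.hor [.f 1064 3 5] []) .no .no

def f11t68 : Tr4 :=
  .br 1082 (.br 1081 (.hor [.f 1081 1 5] []) .no (.red [.t 1089 4 2, .f 954 3 5] 136 136 [] [(136,
  136, [])]) (.use 45) .no (.use 62)) .no .no (.br 1083 (.br 1081 (.use 47) .no (.red [.t 1089 4
  2, .f 954 3 5] 136 136 [] [(136, 136, [])]) (.hor [.f 1073 3 5] []) .no (.br 1091 (.red [.f 1083
  1 3] 152 136 [1] [(152, 136, [1])]) .no (.br 1089 (.br 1088 (.con 137 [1]) (.con 137 [4]) (.br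
  1097 (.use 13) (.use 3) (.use 14) .no (.br 1208 (.br 1216 (.use 50) .no (.br 1219 (.con 153 [1])
  .no (.br 960 .no (.use 63) (.use 64) .no (.br 968 .no (.use 65) (.use 27) .no (.hor [.f 960 5 3,
  .f 960 3 1, .t 961 3 1, .f 968 1 5, .f 1090 3 5] []) .no) .no) .no .no (.con 153 [1])) .no .no
  .no) .no (.red [.t 1216 4 2] 152 136 [1] [(152, 136, [1])]) (.br 1073 (.red [.t 1200 3 2, .f
  1073 3 5, .f 953 5 1, .f 954 1 3] 136 136 [] [(136, 136, []), (151, 135, [1])]) (.red [.t 1073 2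
  3, .f 954 1 3] 136 136 [] [(135, 136, [4]), (136, 136, [])]) .no (.br 945 .no (.use 66) .no (.br
  944 (.red [.f 937 3 1] 134 150 [2] [(134, 150, [2])]) (.red [.f 816 1 3] 119 120 [4] [(119, 120,
  [4])]) .no (.hor [.f 936 3 5] []) .no .no) (.red [.f 945 5 3, .f 946 3 1, .f 954 1 3] 136 136 []
  [(135, 136, [4]), (136, 136, [])]) (.use 67)) .no (.br 945 .no (.use 66) .no (.br 944 .no (.red
  [.f 816 1 3] 119 120 [4] [(119, 120, [4])]) .no (.hor [.f 936 3 5] []) .no .no) (.red [.f 945 5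
  3, .f 946 3 1, .f 954 1 3] 136 136 [] [(135, 136, [4]), (136, 136, [])]) (.red [.f 944 5 1, .t
  1073 2 3, .f 954 1 3] 136 136 [] [(135, 136, [4]), (136, 136, [])]))) (.red [.f 1080 5 1, .f
  1081 1 3] 152 136 [1] [(152, 136, [1])]) .no) .no) .no .no .no) (.con 136 [1, 3]) (.con 137 [1])
  .no .no (.con 137 [1])) .no .no .no)) .no (.red [.f 955 3 1, .f 962 1 5] 136 136 [] [(136, 136,
  [])]) (.hor [.f 1074 3 5] []) .no .no) (.red [.t 962 1 4] 136 136 [] [(136, 136, [])]) (.red [.f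
  953 5 1, .f 954 1 3] 136 136 [] [(136, 136, [])])

def f11t69 : Tr4 :=
  .br 961 (.con 120 [3]) (.hor [.f 833 1 5] []) (.con 120 [3]) .no .no (.con 120 [3])

def f11t70 : Tr4 :=
  .br 1082 (.use 40) .no (.use 41) (.hor [.f 1073 3 5] []) (.use 42) .no

def f11t71 : Tr4 :=
  .br 1090 (.hor [.f 1089 1 5] []) .no (.use 37) .no (.red [.f 953 5 1, .t 954 1 3] 136 136 []
  [(136, 136, [])]) .no

def f11t72 : Tr4 :=
  .br 1091 (.br 1083 (.red [.f 1083 1 3] 152 136 [1] [(152, 136, [1])]) .no .no (.br 1082 (.hor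
  [.f 1081 1 5] []) .no .no (.hor [.f 1074 3 5] []) .no .no) .no (.red [.f 961 5 1, .t 962 1 4]
  136 136 [] [(136, 136, [])])) .no (.con 136 [1, 3]) (.red [.f 953 5 3, .f 955 3 1] 136 136 []
  [(136, 136, [])]) .no .no

def f11t73 : Tr4 :=
  .br 953 (.br 1082 (.con 136 [4]) (.hor [.f 953 1 5] []) (.con 136 [4]) (.con 136 [4]) (.con 136
  [4]) .no) (.hor [.f 824 1 5] []) (.use 60) (.br 954 (.br 955 (.con 136 [2]) (.con 136 [2]) (.br
  1091 (.br 1090 (.hor [.f 1090 1 5] []) (.red [.f 954 1 3, .f 954 3 5] 136 136 [] [(136, 136,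
  [])]) (.br 1089 (.con 153 [2]) (.con 136 [3]) (.hor [.f 1089 3 5] []) (.con 153 [2]) .no (.con
  136 [3])) .no .no (.br 960 (.br 962 .no (.br 961 .no (.hor [.f 833 1 5] []) (.con 120 [3]) .no
  .no .no) (.use 61) .no .no (.red [.f 961 5 1, .f 954 1 3] 136 136 [] [(136, 136, [])])) (.con
  136 [3]) (.con 136 [3]) .no (.con 136 [3]) .no)) .no (.br 1090 (.br 1089 (.con 136 [1, 3]) (.con
  136 [3]) (.con 137 [1]) (.con 152 [3]) .no (.con 136 [3])) (.red [.f 954 1 3, .f 954 3 5] 136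
  136 [] [(136, 136, [])]) (.hor [.f 1090 3 5] []) .no .no (.con 136 [1, 3])) (.red [.f 955 3 1,
  .f 954 1 5] 136 136 [] [(136, 136, [])]) .no (.red [.t 954 1 3] 136 136 [] [(136, 136, [])]))
  (.con 135 [2]) .no .no) (.con 136 [4, 2]) (.con 136 [2]) (.hor [.f 945 3 5] []) (.con 136 [2])
  .no) (.br 955 (.con 136 [2]) (.con 136 [2]) (.br 962 (.use 68) (.use 69) (.use 61) .no .no (.br
  1088 (.con 136 [3]) (.br 1089 (.br 1081 (.use 34) .no .no (.use 70) (.use 71) (.red [.f 953 5 3,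
  .t 960 1 4] 136 136 [] [(136, 136, [])])) .no (.use 35) (.red [.f 953 5 3, .f 953 3 1, .f 954 3
  5, .f 960 1 5] 136 136 [] [(136, 136, [])]) (.br 1081 (.use 72) .no .no (.use 70) (.red [.f 1081
  5 3, .f 953 5 3, .f 953 3 1] 136 136 [] [(136, 136, [])]) (.red [.f 953 5 3, .t 960 1 4] 136 136
  [] [(136, 136, [])])) .no) (.con 136 [3]) (.con 136 [3]) (.con 136 [3]) .no)) (.con 136 [2]) .no
  .no) .no

def f11t74 : Tr4 :=
  .br 1080 (.hor [.f 1080 1 5] []) .no (.con 136 [1]) (.red [.f 944 3 1] 135 136 [4] [(135, 136,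
  [4])]) .no .no

def f11t75 : Tr4 :=
  .br 1080 (.con 136 [4, 1]) .no (.con 136 [4, 1]) (.red [.f 944 3 1] 135 136 [4] [(135, 136,
  [4])]) .no .no

def f11t76 : Tr4 :=
  .br 1080 (.con 136 [4, 1]) .no (.con 136 [1]) (.red [.f 944 3 1] 135 136 [4] [(135, 136, [4])])
  .no .no

def f11t77 : Tr4 :=
  .br 1216 (.use 50) .no (.br 1218 (.red [.f 1210 1 3] 168 167 [3] [(168, 167, [3])]) .no (.con
  153 [1]) .no (.con 153 [1]) .no) .no .no .no

def f11t78 : Tr4 :=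
  .br 960 .no (.br 963 .no (.br 1082 (.br 1083 (.hor [.f 1082 1 5] []) (.con 136 [4]) .no (.con
  136 [4, 1]) .no .no) (.red [.f 954 1 3, .f 953 3 5] 136 136 [] [(136, 136, [])]) .no (.br 1083
  (.br 954 .no (.br 955 .no (.hor [.f 826 1 5] []) .no (.br 946 .no (.red [.f 818 1 3] 119 120 [4]
  [(119, 120, [4])]) .no (.br 945 (.red [.t 944 3 1, .f 1073 3 5] 135 134 [3] [(135, 134, [3])])
  (.con 120 [4, 4]) .no (.hor [.f 937 3 5] []) .no .no) .no (.use 17)) .no .no) .no (.red [.f 946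
  3 1, .f 954 1 3] 136 136 [] [(135, 119, [1]), (136, 136, [])]) (.br 1073 (.br 1208 (.br 1210
  (.use 77) .no (.use 53) (.red [.f 1074 3 1, .f 1082 1 5, .f 954 5 1, .f 954 1 3] 136 136 []
  [(136, 136, []), (151, 135, [1])]) .no (.red [.t 1073 1 3, .f 1082 1 5, .f 954 5 1, .f 954 1 3]
  136 136 [] [(136, 136, []), (151, 135, [1])])) .no (.red [.t 1216 4 2] 152 136 [1] [(152, 136,
  [1])]) (.red [.t 1200 3 2, .f 1073 3 5, .t 961 4 1] 136 136 [] [(136, 136, []), (151, 135,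
  [1])]) (.red [.f 1080 5 1, .f 1081 1 3] 152 136 [1] [(152, 136, [1])]) .no) (.red [.t 944 3 1,
  .f 1073 3 5] 135 119 [1] [(135, 119, [1])]) .no (.br 1075 (.red [.f 1075 1 3, .f 1074 3 5, .f
  954 5 1, .f 954 1 3] 136 136 [] [(136, 136, []), (151, 135, [1])]) (.red [.t 1074 3 2, .f 954 1
  3] 136 136 [] [(135, 119, [1]), (136, 136, [])]) .no (.br 1072 (.con 150 [2]) .no .no (.hor [.f
  1064 3 5] []) .no .no) .no .no) .no (.red [.f 1072 5 3, .f 944 3 1] 135 119 [1] [(135, 119,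
  [1])])) .no) (.con 136 [4]) .no (.hor [.f 1074 3 5] []) .no .no) (.br 955 .no (.br 954 .no (.hor
  [.f 826 1 5] []) .no (.con 119 [3]) .no .no) .no (.br 954 .no (.br 945 (.red [.t 944 3 1] 135
  136 [4] [(135, 136, [4])]) (.br 946 (.con 120 [4, 4]) (.hor [.f 817 1 5] []) .no (.con 120 [4,
  4]) .no .no) .no (.br 946 (.con 136 [4, 4]) (.red [.f 818 1 3] 119 118 [3] [(119, 118, [3])])
  .no (.hor [.f 937 3 5] []) .no .no) (.use 17) .no) .no (.hor [.f 946 3 5] []) .no .no) .no (.red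
  [.f 954 5 1, .f 954 1 3] 136 136 [] [(136, 136, [])])) .no) (.con 120 [3]) (.con 120 [3]) .no
  .no) (.br 963 .no (.con 121 [4]) (.use 57) (.con 120 [1]) .no .no) .no .no .no

def f11t79 : Tr4 :=
  .br 962 (.br 1081 (.br 1082 (.hor [.f 1081 1 5] []) (.red [.f 954 1 3, .f 953 3 5] 136 136 []
  [(136, 136, [])]) .no (.br 1080 (.hor [.f 1080 1 5] []) .no (.br 1089 (.red [.f 1081 1 3, .f
  1080 3 5] 152 136 [1] [(152, 136, [1])]) .no (.con 137 [1]) .no .no .no) (.red [.f 944 3 1] 135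
  136 [4] [(135, 136, [4])]) .no .no) (.use 74) .no) .no (.red [.f 953 3 1, .f 961 1 5] 136 136 []
  [(136, 136, [])]) (.br 1082 (.use 75) (.red [.f 954 1 3, .f 953 3 5] 136 136 [] [(136, 136,
  [])]) .no (.hor [.f 1073 3 5] []) (.use 76) .no) (.red [.t 961 4 1] 136 136 [] [(136, 136, [])])
  (.br 1088 (.br 1089 (.hor [.f 1088 1 5] []) .no (.con 137 [1]) .no .no .no) (.red [.t 960 1 4]
  136 136 [] [(136, 136, [])]) (.br 1089 (.br 1091 (.con 153 [2]) (.con 136 [3]) (.use 78) (.con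
  153 [2]) .no .no) .no (.hor [.f 1088 3 5] []) .no .no .no) .no (.red [.f 1080 5 3, .f 953 3 1]
  136 136 [] [(136, 136, [])]) .no)) (.br 963 (.con 120 [3]) (.hor [.f 834 1 5] []) (.con 120 [3])
  (.con 120 [3]) .no .no) (.use 38) (.hor [.f 953 3 5] []) (.br 1088 (.con 136 [3]) (.br 1081 (.br
  1089 (.use 34) .no (.use 35) .no (.br 1082 (.hor [.f 1081 1 5] []) (.red [.t 953 3 1, .f 960 1
  5] 136 136 [] [(136, 136, [])]) .no (.br 1080 (.hor [.f 1080 1 5] []) .no .no (.red [.f 944 3 1,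
  .f 952 1 3, .f 952 3 5] 136 136 [] [(135, 136, [4]), (136, 136, [])]) .no .no) (.use 74) .no)
  .no) .no (.red [.f 953 3 1, .f 960 1 5] 136 136 [] [(136, 136, [])]) (.br 1082 (.use 75) (.br
  1089 (.use 39) .no (.use 35) .no (.red [.t 953 3 1, .f 960 1 5] 136 136 [] [(136, 136, [])])
  .no) (.use 41) (.hor [.f 1073 3 5] []) (.use 76) .no) (.use 43) (.red [.t 960 1 4] 136 136 []
  [(136, 136, [])])) (.con 136 [3]) (.con 136 [3]) (.con 136 [3]) .no) .no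

def f11t80 : Tr4 :=
  .br 1216 (.use 50) .no (.br 1219 (.con 153 [1]) .no (.use 65) .no .no (.con 153 [1])) .no .no
  .no

def f11t81 : Tr4 :=
  .br 1210 (.use 77) .no (.use 53) (.red [.f 1074 3 1, .f 1082 1 5, .t 962 1 4] 136 136 [] [(136,
  136, []), (151, 135, [1])]) .no (.use 80)

def f11t82 : Tr4 :=
  .br 1082 (.con 136 [4, 1]) .no (.con 136 [4, 1]) (.hor [.f 1073 3 5] []) (.con 136 [4, 1]) .no

def f11l3 : List Tr4 :=
  [f11t64, f11t65, f11t66, f11t67, f11t68, f11t69, f11t70, f11t71, f11t72, f11t73, f11t74, f11t75,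
  f11t76, f11t77, f11t78, f11t79, f11t80, f11t81, f11t82]

theorem f11k3 : chkLF ⟨4, 1, 0, false, -4⟩ true 0 f11N 64 f11l3 = true := by decide +kernel

def f11t83 : Tr4 :=
  .br 962 (.br 1082 (.br 1081 (.hor [.f 1081 1 5] []) .no (.red [.t 1089 4 2, .f 954 3 5] 136 136
  [] [(136, 136, [])]) (.use 75) .no (.use 62)) .no .no (.br 1083 (.br 1081 (.br 1080 (.hor [.f
  1080 1 5] []) .no (.con 136 [1]) (.con 151 [2]) .no .no) .no (.red [.t 1089 4 2, .f 954 3 5] 136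
  136 [] [(136, 136, [])]) (.hor [.f 1073 3 5] []) .no (.br 1091 (.red [.f 1083 1 3] 152 136 [1]
  [(152, 136, [1])]) .no (.br 1089 (.br 1088 (.con 137 [1]) (.con 137 [4]) (.br 1097 (.use 13)
  (.use 3) (.use 14) .no (.br 960 .no (.use 63) (.use 64) .no (.br 1073 (.br 1208 (.br 1210 (.use
  77) .no (.use 53) (.red [.f 1074 3 1, .f 1082 1 5, .t 962 1 4] 136 136 [] [(136, 136, []), (151,
  135, [1])]) .no (.red [.t 1073 1 3, .f 1082 1 5, .t 962 1 4] 136 136 [] [(136, 136, []), (151,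
  135, [1])])) .no (.red [.t 1216 4 2] 152 136 [1] [(152, 136, [1])]) (.red [.t 1200 3 2, .f 1073
  3 5, .f 953 5 1, .f 954 1 3] 136 136 [] [(136, 136, []), (151, 135, [1])]) (.red [.f 1080 5 1,
  .f 1081 1 3] 152 136 [1] [(152, 136, [1])]) .no) (.red [.t 1073 2 3, .f 944 3 5] 135 119 [1]
  [(135, 119, [1])]) .no (.br 968 .no (.br 1208 (.use 81) .no (.red [.t 1216 4 2] 152 136 [1]
  [(152, 136, [1])]) (.br 1072 .no .no .no (.hor [.f 1064 3 5] []) .no .no) (.red [.f 1080 5 1, .f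
  1081 1 3] 152 136 [1] [(152, 136, [1])]) .no) (.use 27) .no (.hor [.f 960 5 3, .f 960 3 1, .t
  961 3 1, .f 968 1 5, .f 1090 3 5] []) .no) .no (.red [.f 1072 5 3, .f 944 3 1] 135 119 [1]
  [(135, 119, [1])])) .no) .no) .no .no .no) (.con 136 [1, 3]) (.con 137 [1]) .no .no (.con 137
  [1])) .no .no .no)) .no (.red [.f 955 3 1, .f 962 1 5] 136 136 [] [(136, 136, [])]) (.hor [.f
  1074 3 5] []) .no .no) (.red [.t 962 1 4] 136 136 [] [(136, 136, [])]) (.red [.f 953 5 1, .f 954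
  1 3] 136 136 [] [(136, 136, [])])) (.use 69) (.use 61) .no .no (.br 1088 (.con 136 [3]) (.br
  1080 (.br 1089 (.br 1081 (.use 34) .no .no (.use 82) (.use 71) .no) .no (.use 35) (.red [.f 953
  5 3, .f 953 3 1, .f 954 3 5, .f 960 1 5] 136 136 [] [(136, 136, [])]) (.br 1081 (.use 72) .no
  .no (.use 82) (.red [.f 1081 5 3, .f 953 5 3, .f 953 3 1] 136 136 [] [(136, 136, [])]) .no) .no)
  .no .no (.red [.f 953 5 3, .f 944 3 1] 135 119 [1] [(135, 119, [1])]) (.red [.f 953 5 3, .t 960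
  1 4] 136 136 [] [(136, 136, [])]) .no) (.con 136 [3]) (.con 136 [3]) (.con 136 [3]) .no)

def f11t84 : Tr4 :=
  .br 961 .no (.hor [.f 832 1 5] []) (.con 120 [3]) .no .no .no

def f11t85 : Tr4 :=
  .br 961 .no (.con 121 [4]) (.hor [.f 960 3 5] []) .no .no .no

def f11t86 : Tr4 :=
  .br 1089 (.red [.f 1083 1 3] 152 136 [1] [(152, 136, [1])]) (.red [.f 1083 1 3] 152 136 [1]
  [(152, 136, [1])]) (.red [.f 1083 1 3] 152 136 [1] [(152, 136, [1])]) (.br 1088 (.br 960 .no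
  (.use 84) (.use 85) .no (.red [.f 952 5 3, .f 953 3 1] 136 136 [] [(136, 136, [])]) .no) (.con
  137 [4]) (.con 153 [2]) (.red [.f 1083 1 3] 152 136 [1] [(152, 136, [1])]) .no .no) .no (.red
  [.f 1083 1 3] 152 136 [1] [(152, 136, [1])])

def f11t87 : Tr4 :=
  .br 961 .no (.hor [.f 832 1 5] []) (.con 120 [3]) .no .no .no

def f11t88 : Tr4 :=
  .br 1210 (.br 1209 (.hor [.f 1209 1 5] []) .no .no .no .no .no) .no (.red [.t 1200 3 2, .f 1073
  3 5, .t 1217 2 4] 152 136 [1] [(151, 135, [1]), (152, 136, [1])]) (.con 151 [1]) .no (.red [.t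
  1073 1 3, .f 1082 1 5, .t 962 1 4] 136 136 [] [(136, 136, []), (151, 135, [1])])

def f11t89 : Tr4 :=
  .br 1073 (.use 88) .no .no (.use 67) .no (.red [.f 1072 5 3, .f 944 5 3, .f 944 3 1] 135 136 [4]
  [(135, 136, [4])])

def f11t90 : Tr4 :=
  .br 827 .no (.br 1208 (.br 1210 (.use 77) .no (.use 53) (.red [.f 1074 3 1, .f 1082 1 5, .t 962
  1 4] 136 136 [] [(136, 136, []), (151, 135, [1])]) .no (.br 968 .no (.use 80) (.use 27) .no
  (.hor [.f 960 5 3, .f 960 3 1, .t 961 3 1, .f 968 1 5, .f 1090 3 5] []) .no)) .no (.red [.t 1216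
  4 2] 152 136 [1] [(152, 136, [1])]) (.br 968 .no (.br 969 .no (.hor [.f 840 1 5] []) (.use 9)
  .no (.br 835 .no (.br 833 .no (.br 832 .no (.hor [.f 704 1 5] []) .no (.con 104 [3]) .no .no)
  (.br 832 .no (.use 22) .no (.con 104 [1]) .no .no) (.use 20) (.use 23) (.br 834 .no (.hor [.f
  706 1 5] []) (.con 104 [3]) .no .no .no)) (.con 122 [4]) .no .no (.br 833 .no (.br 832 .no (.hor
  [.f 704 1 5] []) .no (.con 104 [3]) .no .no) (.con 105 [1]) (.use 20) .no (.br 1075 (.red [.f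
  1075 1 3, .f 1074 3 5, .f 946 5 1, .t 962 1 4, .f 947 1 3] 136 136 [] [(135, 136, [4]), (136,
  136, []), (151, 135, [1])]) .no .no (.br 1073 (.use 88) (.red [.f 952 5 3, .f 952 3 5, .f 952 5
  1, .f 945 1 3] 135 136 [4] [(135, 136, [4])]) .no (.br 945 .no (.br 944 (.con 150 [2]) (.hor [.f
  816 1 5] []) .no (.con 120 [4, 4]) .no .no) .no (.red [.f 937 3 1] 134 150 [2] [(134, 150,
  [2])]) .no (.use 67)) .no (.br 944 .no (.br 824 .no (.br 825 .no (.hor [.f 696 1 5] []) .no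
  (.red [.t 816 1 3, .f 825 1 5] 119 103 [1] [(119, 103, [1])]) .no .no) .no .no (.red [.f 832 5
  1, .f 824 5 1, .f 816 1 3] 119 120 [4] [(119, 120, [4])]) .no) .no (.br 945 .no (.con 120 [4,
  4]) .no (.hor [.f 936 3 5] []) .no .no) (.use 89) .no)) .no .no))) .no) (.use 27) .no (.hor [.f
  960 5 3, .f 960 3 1, .t 961 3 1, .f 968 1 5, .f 1090 3 5] []) .no) (.red [.f 1080 5 1, .f 1081 1
  3] 152 136 [1] [(152, 136, [1])]) .no) (.red [.f 827 3 1, .f 826 1 5, .f 946 5 3, .f 946 3 1, .f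
  954 1 3, .t 962 4 2] 136 136 [] [(135, 136, [4]), (136, 136, [])]) (.red [.t 826 1 4] 119 120
  [4] [(119, 120, [4])]) .no .no

def f11t91 : Tr4 :=
  .br 960 (.con 137 [4]) (.use 87) (.br 961 .no (.con 121 [4]) (.hor [.f 960 3 5] []) .no .no .no)
  .no (.red [.f 952 5 3, .t 961 4 1] 136 136 [] [(136, 136, [])]) .no

def f11t92 : Tr4 :=
  .br 1083 (.br 1082 (.hor [.f 1082 1 5] []) (.red [.f 954 1 3, .f 954 3 5] 136 136 [] [(136, 136,
  [])]) .no (.br 954 .no (.br 1091 (.use 86) .no (.br 1088 (.con 137 [1]) (.con 137 [1]) (.br 1089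
  (.br 1081 (.red [.f 1081 1 3] 152 136 [1] [(152, 136, [1])]) .no .no (.hor [.f 1073 3 5] []) .no
  (.br 1097 (.use 13) (.use 3) (.use 14) .no (.br 960 .no (.use 87) (.use 64) .no (.br 946 .no
  (.red [.f 818 1 3] 119 120 [4] [(119, 120, [4])]) .no (.br 945 (.red [.f 952 5 3, .f 952 3 5, .f
  952 5 1, .f 945 1 3] 135 136 [4] [(135, 136, [4])]) (.br 944 (.con 120 [4, 4]) (.hor [.f 816 1
  5] []) .no (.con 120 [4, 4]) .no .no) .no (.hor [.f 937 3 5] []) .no (.br 968 .no (.br 1208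
  (.use 81) .no (.red [.t 1216 4 2] 152 136 [1] [(152, 136, [1])]) (.use 89) (.red [.f 1080 5 1,
  .f 1081 1 3] 152 136 [1] [(152, 136, [1])]) .no) (.use 27) .no (.hor [.f 960 5 3, .f 960 3 1, .t
  961 3 1, .f 968 1 5, .f 1090 3 5] []) .no)) (.use 90) (.red [.f 952 5 1, .t 1081 2 4] 135 136
  [4] [(135, 136, [4])])) .no) .no)) (.con 136 [3]) (.con 137 [1]) (.br 960 .no (.use 84) (.use
  85) .no (.red [.f 952 5 3, .f 953 3 1] 136 136 [] [(136, 136, [])]) .no) .no .no) (.con 137 [1])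
  (.con 137 [1]) .no) .no .no .no) .no (.red [.f 946 3 1, .f 954 1 3] 136 136 [] [(135, 119, [1]),
  (136, 136, [])]) .no .no) .no (.br 1091 (.use 86) .no (.br 1089 (.use 91) (.con 136 [1, 3])
  (.con 137 [1]) .no .no (.con 137 [1])) .no .no .no)) .no (.red [.f 955 3 1, .f 962 1 5] 136 136
  [] [(136, 136, [])]) (.br 1082 (.br 1081 (.hor [.f 1081 1 5] []) .no (.br 960 (.con 137 [4])
  (.use 84) (.use 85) .no (.red [.f 952 5 3, .f 953 3 1] 136 136 [] [(136, 136, [])]) .no) (.con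
  136 [4, 1]) .no (.con 136 [4, 1])) (.red [.f 954 1 3, .f 954 3 5] 136 136 [] [(136, 136, [])])
  .no (.hor [.f 1074 3 5] []) .no (.br 1080 (.con 136 [4, 1]) .no (.con 136 [1]) (.br 1089 (.use
  91) (.hor [.f 961 1 5] []) (.br 1088 (.con 137 [1]) (.con 137 [4]) (.hor [.f 1088 3 5] []) .no
  .no .no) .no .no (.br 960 .no (.br 961 .no (.hor [.f 832 1 5] []) (.con 120 [3]) .no .no .no)
  (.br 961 .no (.con 121 [4]) (.hor [.f 960 3 5] []) .no .no .no) .no (.red [.f 952 5 3, .t 961 4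
  1] 136 136 [] [(136, 136, [])]) .no)) .no .no)) .no (.red [.t 962 1 4] 136 136 [] [(136, 136,
  [])])

def f11t93 : Tr4 :=
  .br 1219 (.con 153 [1]) .no (.hor [.f 1218 3 5] []) .no .no .no

def f11t94 : Tr4 :=
  .br 1209 (.br 1208 (.hor [.f 1208 1 5] []) .no (.con 169 [2]) (.con 151 [1]) .no .no) .no .no
  (.hor [.f 1201 3 5] []) .no (.br 1216 (.con 169 [2]) .no (.br 1099 .no (.br 970 (.hor [.f 970 1
  5] []) (.br 969 (.con 122 [4]) (.hor [.f 841 1 5] []) (.con 122 [4]) .no .no (.con 122 [4]))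
  (.br 969 (.con 138 [2]) (.con 138 [2]) (.hor [.f 969 3 5] []) .no .no (.con 138 [2])) .no .no
  (.br 1096 .no (.br 1097 (.br 1098 (.hor [.f 1097 1 5] []) .no (.con 138 [1]) .no .no .no) .no
  (.br 1098 (.con 154 [2]) .no (.hor [.f 1097 3 5] []) .no .no .no) .no (.hor [.f 969 5 1, .f 968
  1 5, .f 970 1 5] []) .no) (.con 138 [4]) .no (.con 138 [4]) .no)) (.br 1098 (.br 1097 (.hor [.f
  1097 1 5] []) (.con 154 [4]) (.con 154 [2]) .no .no (.con 154 [2])) (.br 1097 (.con 137 [3])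
  (.hor [.f 969 1 5] []) (.con 137 [3]) .no .no (.con 137 [3])) (.hor [.f 1098 3 5] []) .no .no
  (.br 1226 (.br 1225 (.hor [.f 1225 1 5] []) .no (.con 154 [1]) .no .no .no) .no (.br 1225 (.con
  170 [2]) .no (.hor [.f 1225 3 5] []) .no .no .no) .no .no (.hor [.f 1097 5 1, .f 1089 1 3, .f
  1216 3 5, .t 1226 2 4, .f 1089 3 5] []))) .no .no (.br 1097 (.con 153 [3]) (.br 968 (.hor [.f
  968 1 5] []) (.con 138 [4]) (.con 138 [4]) .no .no .no) (.br 1096 .no (.con 137 [3]) (.hor [.f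
  1096 3 5] []) .no .no .no) .no .no (.red [.t 1216 3 2, .f 1090 5 3, .f 1091 3 1, .f 1083 1 3]
  152 136 [1] [(152, 136, [1])]))) .no .no .no)

def f11l4 : List Tr4 :=
  [f11t83, f11t84, f11t85, f11t86, f11t87, f11t88, f11t89, f11t90, f11t91, f11t92, f11t93, f11t94]

theorem f11k4 : chkLF ⟨4, 1, 0, false, -4⟩ true 0 f11N 83 f11l4 = true := by decide +kernel

def f11t95 : Tr4 :=
  .br 1081 (.use 34) .no .no (.br 1090 (.hor [.f 1089 1 5] []) .no (.use 37) (.use 41) (.br 1082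
  (.br 1083 (.hor [.f 1082 1 5] []) .no .no (.con 136 [4, 1]) .no .no) (.red [.t 954 1 3] 136 136
  [] [(136, 136, [])]) .no (.hor [.f 1073 3 5] []) (.red [.f 1082 5 3, .f 955 3 1] 136 136 []
  [(136, 136, [])]) .no) .no) (.br 1090 (.hor [.f 1089 1 5] []) .no (.use 37) .no (.br 1083 (.br
  1210 (.br 1218 (.br 1209 (.hor [.f 1209 1 5] []) .no .no (.red [.f 1210 1 3, .t 1217 2 4, .f
  1082 1 5] 152 136 [1] [(152, 136, [1]), (168, 167, [3])]) .no (.red [.f 1210 1 3, .t 1217 2 4,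
  .f 1082 1 5] 152 136 [1] [(152, 136, [1]), (168, 167, [3])])) .no (.use 93) .no (.red [.f 1090 5
  1, .f 1083 1 3] 152 136 [1] [(152, 136, [1])]) .no) .no (.red [.t 1217 2 4, .f 1082 1 5] 152 136
  [1] [(152, 136, [1])]) (.br 1218 (.br 1080 (.br 1209 (.con 136 [4, 1, 1]) .no .no (.hor [.f 1201
  3 5] []) .no .no) .no .no (.br 1219 (.hor [.f 1218 1 5] []) .no (.use 94) .no .no .no) .no .no)
  .no (.use 93) .no (.red [.f 1090 5 1, .f 1083 1 3] 152 136 [1] [(152, 136, [1])]) .no) .no (.red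
  [.f 1081 5 1, .f 1081 1 3] 152 136 [1] [(152, 136, [1])])) .no .no (.br 1080 (.con 136 [4, 1])
  .no .no (.br 1073 (.br 1074 (.hor [.f 1073 1 5] []) (.con 136 [4, 4]) .no (.con 136 [4, 4, 1])
  .no .no) (.red [.t 1072 3 2, .f 952 1 3] 136 136 [] [(135, 136, [4]), (136, 136, [])]) .no (.br
  1074 (.br 1210 (.br 1209 (.hor [.f 1209 1 5] []) .no .no (.red [.t 1201 3 2, .f 1074 3 5] 151
  150 [3] [(151, 150, [3])]) .no (.br 1211 (.hor [.f 1210 1 5] []) .no (.con 136 [1, 1]) (.red [.f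
  1075 3 1, .f 1074 1 5] 151 150 [3] [(151, 150, [3])]) .no .no)) .no (.red [.t 1217 2 4] 152 136
  [1] [(152, 136, [1])]) .no (.red [.t 1074 1 3] 151 150 [3] [(151, 150, [3])]) (.red [.f 1081 5
  1, .f 1081 1 3] 152 136 [1] [(152, 136, [1])])) (.con 136 [4, 4]) .no (.hor [.f 1065 3 5] [])
  .no .no) (.red [.f 1073 5 3, .f 1072 3 5, .f 952 5 1, .f 952 1 3] 136 136 [] [(136, 136, [])])
  .no) .no .no) .no .no) .no) (.red [.f 952 5 1, .f 952 1 3] 136 136 [] [(136, 136, [])])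

def f11t96 : Tr4 :=
  .br 952 (.use 33) (.use 73) (.br 953 (.con 136 [2]) (.con 136 [2]) (.hor [.f 952 3 5] []) (.con
  136 [2]) (.con 136 [2]) .no) (.br 953 (.br 1082 (.con 136 [4]) (.hor [.f 953 1 5] []) (.con 136
  [4]) (.con 136 [4]) (.con 136 [4]) .no) (.br 954 (.con 119 [3]) (.hor [.f 825 1 5] []) (.con 119
  [3]) (.con 119 [3]) (.con 119 [3]) .no) (.use 79) (.hor [.f 944 3 5] []) (.br 955 (.con 136 [2])
  (.con 119 [3]) (.use 83) (.con 136 [2]) .no .no) .no) (.br 955 (.con 136 [2]) (.con 136 [2])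
  (.br 962 (.use 92) (.br 961 (.con 120 [3]) (.hor [.f 833 1 5] []) (.con 120 [3]) .no .no (.con
  120 [3])) (.use 61) (.con 136 [2]) .no (.br 1088 (.con 136 [3]) (.br 1089 (.use 95) .no (.use
  35) (.red [.t 1088 2 4] 136 136 [] [(136, 136, [])]) (.br 1091 (.br 1083 (.red [.f 1083 1 3] 152
  136 [1] [(152, 136, [1])]) .no .no (.br 1082 (.br 1081 (.hor [.f 1081 1 5] []) .no .no (.con 136
  [4, 1]) .no (.con 136 [4, 1])) (.red [.f 961 5 1, .f 954 1 3] 136 136 [] [(136, 136, [])]) .no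
  (.hor [.f 1074 3 5] []) .no (.red [.f 1081 5 3, .t 1088 2 4] 136 136 [] [(136, 136, [])])) .no
  (.red [.f 961 5 1, .t 962 1 4] 136 136 [] [(136, 136, [])])) .no (.con 137 [1]) (.red [.f 961 5
  1, .f 955 3 1] 136 136 [] [(136, 136, [])]) .no .no) .no) (.con 136 [3]) (.con 136 [3]) (.con
  136 [3]) .no)) (.con 136 [2]) .no (.con 136 [2])) .no

def f11l5 : List Tr4 :=
  [f11t95, f11t96]

theorem f11k5 : chkLF ⟨4, 1, 0, false, -4⟩ true 0 f11N 95 f11l5 = true := by decide +kernel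

end Pool.Agent.FT4D
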