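import Pool.Agent.FT4D.ChainF4
import Pool.Agent.FT4D.Tr_f11_0

/-!
# Four levels: the chunks of the trees `f11` together
-/

namespace Pool.Agent.FT4D

theorem f11H : Holds ⟨4, 1, 0, false, -4⟩ true 0 [] := by
  have h0 := chStart ⟨4, 1, 0, false, -4⟩ true 0 f11N
  have h1 := chStepF f11l0 31 h0 f11k0 (by decide +kernel) (by decide +kernel)
  have h2 := chStepF f11l1 44 h1 f11k1 (by decide +kernel) (by decide +kernel)
  have h3 := chStepF f11l2 64 h2 f11k2 (by decide +kernel) (by decide +kernel)
  have h4 := chStepF f11l3 83 h3 f11k3 (by decide +kernel) (by decide +kernel)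
  have h5 := chStepF f11l4 95 h4 f11k4 (by decide +kernel) (by decide +kernel)
  have h6 := chStepF f11l5 97 h5 f11k5 (by decide +kernel) (by decide +kernel)
  exact chEnd h6 96 (by decide +kernel) (by decide +kernel)

end Pool.Agent.FT4D
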