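import Pool.Agent.FT4D.Tab_f21

/-!
# Four levels: decision trees (found by a computer search)
-/

namespace Pool.Agent.FT4D

def f21t0 : Tr4 :=
  .br 1216 (.con 168 [3]) .no (.hor [.f 1216 3 5] []) (.con 152 [3, 1]) .no .no

def f21t1 : Tr4 :=
  .br 827 .no (.hor [.f 698 1 5] []) .no (.con 104 [4]) .no .no

def f21t2 : Tr4 :=
  .br 1201 (.br 1211 (.hor [.f 1210 1 5] []) .no .no (.br 1202 (.red [.f 1202 1 3, .f 1074 3 1]
  151 135 [1] [(151, 135, [1]), (167, 168, [4])]) .no .no (.con 135 [1, 4, 1]) .no .no) .no .no)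
  .no .no (.br 1072 (.red [.f 1065 3 1, .f 1073 1 3] 151 135 [1] [(150, 134, [1]), (151, 135,
  [1])]) .no .no (.hor [.f 1064 3 5] []) .no .no) (.red [.t 1081 1 4] 151 135 [1] [(151, 135,
  [1])]) (.br 1211 (.hor [.f 1210 1 5] []) .no .no (.con 135 [1, 1]) .no .no)

def f21t3 : Tr4 :=
  .br 1339 (.con 168 [4]) (.hor [.f 1210 1 5] []) (.con 168 [4]) (.con 168 [4]) .no .no

def f21t4 : Tr4 :=
  .br 1217 (.hor [.f 1217 1 5] []) .no (.use 0) .no .no (.br 1073 (.red [.f 1073 1 3, .f 1073 3 5]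
  151 135 [1] [(151, 135, [1])]) (.red [.t 1080 3 1, .t 944 3 1, .f 1073 3 5, .t 961 1 4] 136 136
  [] [(135, 119, [1]), (136, 136, []), (152, 136, [1])]) .no (.use 2) .no (.br 1208 (.use 3) .no
  .no (.red [.t 1208 4 2, .f 1073 3 5] 151 135 [1] [(151, 135, [1])]) .no .no))

def f21t5 : Tr4 :=
  .br 938 (.con 135 [4, 2]) (.con 135 [4, 2]) (.hor [.f 938 3 5] []) (.con 135 [4, 2]) .no (.con
  135 [4, 2])

def f21t6 : Tr4 :=
  .br 947 .no (.dom 119 103 [1]) .no (.use 5) .no (.red [.t 1082 4 2, .f 945 1 5, .t 825 1 4] 119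
  120 [4] [(119, 120, [4]), (135, 119, [1])])

def f21t7 : Tr4 :=
  .br 817 .no (.br 818 .no (.hor [.f 689 1 5] []) .no (.con 120 [4, 2, 4]) (.con 120 [4, 2, 4])
  .no) .no (.hor [.f 808 3 5] []) (.red [.t 1082 4 2, .f 945 1 5, .f 817 5 1, .f 817 1 3] 119 120
  [4] [(119, 120, [4]), (135, 119, [1])]) .no

def f21t8 : Tr4 :=
  .br 816 .no (.red [.f 688 1 3] 103 104 [4] [(103, 104, [4])]) .no (.br 947 .no (.br 946 .no
  (.hor [.f 818 1 5] []) .no (.br 1211 (.hor [.f 1210 1 5] []) .no .no (.br 1202 (.red [.f 1202 1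
  3, .f 1074 3 1] 151 135 [1] [(151, 135, [1]), (167, 168, [4])]) .no .no (.br 1065 (.con 118 [1,
  1, 1]) (.red [.f 937 1 3, .f 937 3 5] 134 118 [1] [(134, 118, [1])]) .no (.br 1193 (.con 118 [1,
  1, 1]) .no (.hor [.f 1193 3 5] []) (.con 118 [1, 1, 1]) .no (.con 118 [1, 1, 1])) (.red [.t 945
  1 4] 134 118 [1] [(134, 118, [1])]) (.con 118 [1, 1])) .no (.red [.t 1081 1 4, .f 1200 3 5] 151
  135 [1] [(151, 135, [1])])) .no .no) .no .no) .no (.use 5) .no (.use 7)) (.red [.t 952 4 2] 119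
  120 [4] [(119, 120, [4])]) .no

def f21t9 : Tr4 :=
  .br 1211 (.hor [.f 1210 1 5] []) .no .no (.con 152 [4, 1]) .no .no

def f21t10 : Tr4 :=
  .br 1208 (.use 3) .no (.use 9) (.red [.t 1208 4 2, .f 1073 3 5] 151 135 [1] [(151, 135, [1])])
  .no .no

def f21t11 : Tr4 :=
  .br 946 .no (.hor [.f 818 1 5] []) .no (.hor [.f 937 3 5] []) .no .no

def f21t12 : Tr4 :=
  .br 816 .no (.red [.f 688 1 3] 103 120 [4, 2] [(103, 120, [4, 2])]) .no (.br 945 (.red [.f 826 3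
  1, .f 825 1 5, .t 1073 2 3, .f 944 3 5, .t 1088 4 2, .t 961 4 2] 136 136 [] [(135, 119, [1]),
  (136, 136, [])]) (.red [.f 817 1 3] 119 118 [3] [(119, 118, [3])]) .no (.use 11) (.br 817 .no
  (.br 818 .no (.hor [.f 689 1 5] []) .no (.con 118 [2]) .no .no) .no (.hor [.f 808 3 5] []) (.red
  [.f 817 5 1, .f 817 1 3] 119 118 [3] [(119, 118, [3])]) .no) .no) (.red [.t 952 4 2] 119 120 [4]
  [(119, 120, [4])]) .no

def f21t13 : Tr4 :=
  .br 1217 (.hor [.f 1216 1 5] []) .no (.con 152 [3, 1]) .no .no .no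

def f21t14 : Tr4 :=
  .br 1211 (.br 1337 (.con 152 [4, 1, 1]) .no .no (.hor [.f 1329 3 5] []) .no (.con 152 [4, 1,
  3])) .no .no (.con 152 [4, 1]) .no .no

def f21t15 : Tr4 :=
  .br 1202 (.hor [.f 1201 1 5] []) .no .no (.con 152 [1, 4, 4]) (.con 152 [1, 4, 2]) .no

def f21t16 : Tr4 :=
  .br 1208 (.con 152 [1, 4]) .no .no (.br 1201 (.use 15) .no .no .no (.red [.t 1081 1 4, .f 1200 3
  5] 151 135 [1] [(151, 135, [1])]) .no) .no .no

def f21t17 : Tr4 :=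
  .br 1347 (.hor [.f 1346 1 5] []) .no (.red [.f 1338 1 3, .f 1210 3 1] 168 152 [1] [(168, 152,
  [1]), (184, 185, [4])]) (.red [.f 1338 1 3, .f 1210 3 1] 168 152 [1] [(168, 152, [1]), (184,
  185, [4])]) .no .no

def f21t18 : Tr4 :=
  .br 1201 (.br 1200 (.hor [.f 1200 1 5] []) .no (.br 1211 (.br 1203 (.con 167 [4]) (.dom 151 135
  [1]) .no (.br 1075 .no .no .no (.red [.f 1067 3 1] 150 135 [4, 1] [(150, 135, [4, 1])]) .no .no)
  .no (.red [.t 1338 4 2, .f 1201 1 5, .t 1081 1 4] 151 135 [1] [(151, 135, [1]), (167, 151,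
  [1])])) .no .no (.con 135 [1, 1, 4]) .no .no) (.con 135 [1, 1, 4]) .no .no) .no .no .no (.red
  [.t 1081 1 4] 151 135 [1] [(151, 135, [1])]) (.use 14)

def f21t19 : Tr4 :=
  .br 1066 (.hor [.f 1065 1 5] []) .no .no (.con 118 [1, 4, 1]) .no .no

def f21t20 : Tr4 :=
  .br 1202 (.hor [.f 1201 1 5] []) .no .no (.con 135 [1, 1, 4]) (.con 135 [1, 4, 1]) .no

def f21t21 : Tr4 :=
  .br 1208 (.br 1337 (.hor [.f 1337 1 5] []) .no .no (.red [.t 1336 2 4] 167 183 [2] [(167, 183,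
  [2])]) .no .no) .no .no .no .no .no

def f21t22 : Tr4 :=
  .br 1072 (.br 1064 (.hor [.f 1064 1 5] []) (.br 1066 (.hor [.f 1065 1 5] []) .no .no (.con 118
  [1, 1, 4]) (.con 118 [1, 4]) .no) .no (.br 1066 (.hor [.f 1065 1 5] []) .no .no (.con 118 [1, 1,
  4]) (.con 118 [1, 4, 1]) .no) .no .no) .no .no (.br 1346 (.br 1338 (.use 17) .no .no (.use 18)
  (.use 16) (.red [.t 1217 1 4] 168 152 [1] [(168, 152, [1])])) .no (.br 1338 (.br 1201 (.br 1200
  (.hor [.f 1200 1 5] []) .no (.br 1075 (.dom 151 135 [1]) .no .no (.use 19) .no .no) (.use 20)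
  .no .no) .no .no .no (.red [.t 1081 1 4] 151 135 [1] [(151, 135, [1])]) (.use 21)) .no .no (.use
  18) (.use 16) (.red [.t 1217 1 4] 168 152 [1] [(168, 152, [1])])) (.red [.f 1210 3 1, .f 1217 1
  5] 168 152 [1] [(168, 152, [1])]) (.br 1211 (.red [.t 1210 3 1, .f 1217 1 5] 168 152 [1] [(168,
  152, [1])]) .no .no (.br 1339 (.br 1338 (.hor [.f 1338 1 5] []) .no .no (.br 1201 (.con 135 [1,
  1, 1]) .no .no .no (.red [.t 1081 1 4] 151 135 [1] [(151, 135, [1])]) (.con 135 [1, 1])) .no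
  (.red [.t 1217 1 4] 168 152 [1] [(168, 152, [1])])) .no .no (.red [.f 1203 3 1, .t 1210 3 1] 168
  152 [1] [(167, 135, [1, 1]), (168, 152, [1])]) .no (.use 16)) .no .no) .no) .no .no

def f21t23 : Tr4 :=
  .br 1208 (.con 152 [1, 4]) .no .no (.br 1201 (.use 15) .no .no (.br 1202 (.br 1211 .no .no .no
  (.red [.t 1202 1 3] 167 166 [3] [(167, 166, [3])]) .no .no) .no .no (.hor [.f 1193 3 5] [])
  (.con 152 [1, 4, 2]) .no) (.red [.t 1081 1 4, .f 1200 3 5] 151 135 [1] [(151, 135, [1])]) .no)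
  .no .no

def f21t24 : Tr4 :=
  .br 1200 (.con 135 [1, 1]) .no (.br 1066 (.con 135 [1, 1, 4, 2]) .no .no (.hor [.f 1057 3 5] [])
  (.con 135 [1, 4, 2]) .no) (.con 135 [1, 1]) .no .no

def f21t25 : Tr4 :=
  .br 1211 (.red [.t 1210 3 1, .f 1217 1 5] 168 152 [1] [(168, 152, [1])]) .no .no (.br 1339 (.br
  1338 (.hor [.f 1338 1 5] []) .no .no (.br 1201 (.con 135 [1, 1, 1]) .no .no (.br 1072 (.con 135
  [1, 4]) .no .no (.use 24) .no .no) (.red [.t 1081 1 4] 151 135 [1] [(151, 135, [1])]) (.con 135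
  [1, 1])) .no (.red [.t 1217 1 4] 168 152 [1] [(168, 152, [1])])) .no .no (.red [.f 1203 3 1, .t
  1210 3 1] 168 152 [1] [(167, 135, [1, 1]), (168, 152, [1])]) .no (.use 23)) .no .no

def f21t26 : Tr4 :=
  .br 1202 (.hor [.f 1201 1 5] []) .no .no (.con 135 [1, 1, 4]) (.con 135 [1, 4]) .no

def f21t27 : Tr4 :=
  .br 1072 (.use 26) .no .no (.br 1200 (.hor [.f 1200 1 5] []) .no (.br 1075 (.dom 151 135 [1])
  .no .no (.br 1066 (.br 1202 (.hor [.f 1201 1 5] []) .no .no .no (.red [.t 1066 1 3] 150 149 [3]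
  [(150, 149, [3])]) .no) .no .no (.hor [.f 1057 3 5] []) .no .no) .no .no) (.use 20) .no .no) .no
  .no

def f21t28 : Tr4 :=
  .br 818 .no (.br 817 .no (.hor [.f 689 1 5] []) .no .no .no .no) .no (.con 118 [2]) .no (.red
  [.t 937 2 3, .f 808 3 5, .t 952 4 2] 119 118 [3] [(118, 102, [1]), (119, 118, [3])])

def f21t29 : Tr4 :=
  .br 1066 (.red [.f 929 3 1, .f 937 1 3] 134 135 [4] [(133, 149, [2]), (134, 135, [4])]) .no .no
  (.hor [.f 1057 3 5] []) (.red [.f 929 3 1, .f 937 1 3] 134 135 [4] [(133, 149, [2]), (134, 135,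
  [4])]) .no

def f21t30 : Tr4 :=
  .br 1072 (.br 1064 (.red [.f 1064 1 3] 150 118 [1, 1] [(150, 118, [1, 1])]) (.br 937 .no (.use
  28) .no (.red [.f 929 3 1, .f 936 1 5] 133 117 [1] [(133, 117, [1])]) .no .no) .no (.hor [.f
  1056 3 5] []) .no .no) .no .no (.br 937 .no (.use 28) .no (.use 29) .no (.red [.t 1072 4 2, .f
  937 3 5] 134 118 [1] [(134, 118, [1])])) .no .no

def f21t31 : Tr4 :=
  .br 1200 (.hor [.f 1200 1 5] []) (.use 26) (.br 1075 (.con 135 [4, 1, 3]) .no .no (.con 135 [4,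
  1]) .no .no) (.use 20) .no .no

def f21t32 : Tr4 :=
  .br 1072 (.red [.t 1200 2 4] 150 135 [4, 1] [(150, 135, [4, 1])]) .no .no .no .no .no

def f21t33 : Tr4 :=
  .br 1338 (.br 1201 (.use 31) .no .no (.use 32) (.red [.t 1081 1 4] 151 135 [1] [(151, 135,
  [1])]) (.use 21)) .no (.red [.f 1210 3 1, .f 1217 1 5] 168 152 [1] [(168, 152, [1])]) (.br 1201
  (.use 31) .no .no (.use 32) (.red [.t 1081 1 4] 151 135 [1] [(151, 135, [1])]) (.use 14)) (.use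
  23) (.red [.t 1217 1 4] 168 152 [1] [(168, 152, [1])])

def f21t34 : Tr4 :=
  .br 1072 (.br 1201 (.use 26) .no .no (.red [.f 1065 3 1, .f 1072 1 5] 150 134 [1] [(150, 134,
  [1])]) (.red [.t 1081 1 4] 151 135 [1] [(151, 135, [1])]) .no) .no .no (.hor [.f 1064 3 5] [])
  .no .no

def f21t35 : Tr4 :=
  .br 1200 (.red [.f 1200 1 3, .t 1208 4 2] 151 135 [1] [(151, 135, [1]), (167, 135, [1, 1])]) .no
  .no (.br 1201 (.use 20) .no .no (.hor [.f 1192 3 5] []) (.red [.t 1081 1 4] 151 135 [1] [(151,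
  135, [1])]) .no) (.red [.f 1072 5 1, .f 1073 1 3] 151 135 [1] [(151, 135, [1])]) .no

def f21t36 : Tr4 :=
  .br 1208 (.use 35) .no .no (.red [.t 1208 4 2, .f 1073 3 5] 151 135 [1] [(151, 135, [1])]) .no
  .no

def f21t37 : Tr4 :=
  .br 1208 (.use 35) .no .no (.red [.t 1208 4 2, .f 1073 3 5] 151 135 [1] [(151, 135, [1])]) .no
  .no

def f21t38 : Tr4 :=
  .br 1216 (.use 13) .no (.br 1073 (.red [.f 1073 1 3, .f 1073 3 5] 151 135 [1] [(151, 135, [1])])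
  .no .no (.use 34) .no (.use 36)) (.con 152 [1]) (.br 1073 (.red [.f 1073 1 3, .f 1073 3 5] 151
  135 [1] [(151, 135, [1])]) .no .no (.use 34) .no (.use 37)) .no

def f21t39 : Tr4 :=
  .br 816 .no (.red [.f 688 1 3] 103 104 [4] [(103, 104, [4])]) .no (.br 945 (.br 946 .no (.hor
  [.f 818 1 5] []) .no (.br 1216 (.use 13) .no (.br 1217 (.br 1065 (.use 22) (.red [.f 937 1 3, .f
  937 3 5] 134 118 [1] [(134, 118, [1])]) .no (.use 30) (.red [.t 945 1 4] 134 118 [1] [(134, 118,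
  [1])]) (.use 33)) .no (.hor [.f 1216 3 5] []) .no .no .no) (.con 152 [1]) (.red [.t 1080 3 1, .t
  944 3 1, .f 1073 3 5, .t 961 1 4] 136 136 [] [(135, 119, [1]), (136, 136, []), (152, 136, [1])])
  .no) .no .no) (.red [.f 817 1 3] 119 118 [3] [(119, 118, [3])]) .no (.use 11) (.use 38) .no)
  (.red [.t 952 4 2] 119 120 [4] [(119, 120, [4])]) .no

def f21t40 : Tr4 :=
  .br 1073 (.red [.f 1073 1 3, .f 1073 3 5] 151 135 [1] [(151, 135, [1])]) .no .no (.use 34) .no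
  (.br 1216 (.use 13) .no (.use 36) (.con 152 [1]) (.use 37) .no)

def f21t41 : Tr4 :=
  .br 946 .no (.con 135 [2, 4]) .no (.hor [.f 937 3 5] []) .no .no

def f21t42 : Tr4 :=
  .br 1200 (.red [.f 1200 1 3, .t 1208 4 2] 151 135 [1] [(151, 135, [1]), (167, 168, [4])]) .no
  .no (.br 1201 (.br 1202 (.hor [.f 1201 1 5] []) .no .no (.con 168 [4, 4]) (.con 168 [4, 4]) .no)
  .no .no (.hor [.f 1192 3 5] []) (.red [.t 1081 1 4] 151 135 [1] [(151, 135, [1])]) .no) (.red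
  [.f 1072 5 1, .f 1073 1 3] 151 135 [1] [(151, 135, [1])]) .no

def f21t43 : Tr4 :=
  .br 1208 (.use 42) .no .no (.red [.t 1208 4 2, .f 1073 3 5] 151 135 [1] [(151, 135, [1])]) .no
  .no

def f21l0 : List Tr4 :=
  [f21t0, f21t1, f21t2, f21t3, f21t4, f21t5, f21t6, f21t7, f21t8, f21t9, f21t10, f21t11, f21t12,
  f21t13, f21t14, f21t15, f21t16, f21t17, f21t18, f21t19, f21t20, f21t21, f21t22, f21t23, f21t24,
  f21t25, f21t26, f21t27, f21t28, f21t29, f21t30, f21t31, f21t32, f21t33, f21t34, f21t35, f21t36,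
  f21t37, f21t38, f21t39, f21t40, f21t41, f21t42, f21t43]

theorem f21k0 : chkLF ⟨4, 0, 0, false, -4⟩ false 1 f21N 0 f21l0 = true := by decide +kernel

def f21t44 : Tr4 :=
  .br 817 .no (.br 819 .no (.con 120 [4, 2, 4]) .no (.br 818 .no (.hor [.f 689 1 5] []) .no (.con
  120 [4, 2, 4]) .no .no) .no (.con 120 [4, 2, 4])) .no (.hor [.f 808 3 5] []) (.red [.f 817 5 1,
  .f 817 1 3] 119 120 [4] [(119, 120, [4])]) .no

def f21t45 : Tr4 :=
  .br 817 .no (.hor [.f 689 1 5] []) .no (.hor [.f 808 3 5] []) .no .no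

def f21t46 : Tr4 :=
  .br 819 .no (.con 120 [4, 2, 4]) .no (.hor [.f 810 3 5] []) .no .no

def f21t47 : Tr4 :=
  .br 1203 (.br 1072 (.con 134 [1]) .no .no (.hor [.f 1064 3 5] []) .no .no) .no .no (.red [.f
  1067 3 1, .t 1074 3 1] 151 135 [1] [(150, 134, [1]), (151, 135, [1])]) .no (.red [.f 1202 5 3,
  .f 1074 3 1] 151 135 [1] [(151, 135, [1])])

def f21t48 : Tr4 :=
  .br 1217 (.hor [.f 1217 1 5] []) .no (.use 0) .no .no (.br 1073 (.red [.f 1073 1 3, .f 1073 3 5]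
  151 135 [1] [(151, 135, [1])]) (.red [.t 1080 3 1, .t 944 3 1, .f 1073 3 5, .t 961 1 4] 136 136
  [] [(135, 119, [1]), (136, 136, []), (152, 136, [1])]) .no (.use 47) .no (.use 43))

def f21t49 : Tr4 :=
  .br 816 .no (.red [.f 688 1 3] 103 104 [4] [(103, 104, [4])]) .no (.br 947 .no (.br 946 .no
  (.hor [.f 818 1 5] []) .no (.br 1065 (.use 19) (.red [.f 937 1 3, .f 937 3 5] 134 118 [1] [(134,
  118, [1])]) .no (.use 30) (.red [.t 945 1 4] 134 118 [1] [(134, 118, [1])]) (.con 118 [1, 1]))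
  .no .no) .no (.use 5) .no (.use 7)) (.red [.t 952 4 2] 119 120 [4] [(119, 120, [4])]) .no

def f21t50 : Tr4 :=
  .br 1208 (.use 42) .no (.br 1201 (.br 1202 (.hor [.f 1201 1 5] []) .no .no (.br 1200 (.hor [.f
  1200 1 5] []) .no .no (.con 134 [1, 1]) .no .no) (.red [.f 1202 5 3, .f 1074 3 1] 151 135 [1]
  [(151, 135, [1])]) .no) .no .no (.br 1203 (.br 1202 (.hor [.f 1202 1 5] []) .no .no (.hor [.f
  1193 3 5] []) .no .no) .no .no (.red [.f 1067 3 1, .t 1074 3 1] 151 135 [1] [(150, 134, [1]),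
  (151, 135, [1])]) .no (.red [.f 1202 5 3, .f 1074 3 1] 151 135 [1] [(151, 135, [1])])) (.red [.f
  1080 3 1, .f 1080 1 3, .t 1081 1 4] 151 135 [1] [(151, 135, [1])]) (.red [.f 1080 3 1, .f 1072 5
  1, .f 1073 1 3, .f 1080 1 3] 151 135 [1] [(151, 135, [1])])) (.red [.t 1208 4 2, .f 1073 3 5]
  151 135 [1] [(151, 135, [1])]) .no .no

def f21t51 : Tr4 :=
  .br 1210 (.br 1073 (.red [.f 1073 1 3, .f 1073 3 5] 151 135 [1] [(151, 135, [1])]) (.br 1208
  (.use 3) .no (.use 9) (.br 834 .no (.br 1075 (.dom 151 135 [1]) (.con 135 [4]) .no (.br 826 .no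
  (.use 1) .no (.use 6) (.use 8) .no) .no .no) (.br 1075 (.dom 151 135 [1]) (.con 135 [4]) .no
  (.br 826 .no (.use 1) .no (.use 6) (.use 8) .no) .no .no) (.red [.f 826 3 1, .f 825 1 5, .t 1073
  2 3, .f 944 3 5, .t 1088 4 2, .t 961 4 2] 136 136 [] [(135, 119, [1]), (136, 136, [])]) .no
  (.red [.t 953 2 3, .t 1073 2 3, .f 944 3 5, .t 1088 4 2, .f 825 3 1] 136 136 [] [(135, 119,
  [1]), (136, 136, [])])) .no .no) .no (.use 2) .no (.use 10)) .no (.br 947 (.red [.f 947 1 3, .f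
  1074 3 5, .t 1218 4 2, .f 1081 1 5, .t 961 1 4] 136 136 [] [(135, 119, [1]), (136, 136, []),
  (152, 136, [1])]) (.br 826 .no (.use 1) (.use 12) (.dom 119 103 [1]) (.use 39) .no) .no (.br 945
  (.use 5) (.red [.f 817 1 3] 119 120 [4] [(119, 120, [4])]) .no (.use 40) (.use 38) .no) .no
  (.red [.t 1082 4 2, .t 1218 4 2, .f 1081 1 5, .t 961 1 4] 136 136 [] [(135, 119, [1]), (136,
  136, []), (152, 136, [1])])) (.red [.f 1074 3 1, .f 1081 1 5] 151 135 [1] [(151, 135, [1])])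
  (.br 1075 (.red [.t 1074 3 1, .f 1081 1 5] 151 135 [1] [(151, 135, [1])]) (.br 945 (.con 135
  [4]) (.red [.f 817 1 3] 119 120 [4] [(119, 120, [4])]) .no (.use 41) (.br 826 .no (.use 1) (.br
  816 .no (.red [.f 688 1 3] 103 120 [2, 4] [(103, 120, [2, 4])]) .no (.br 827 .no (.use 44) .no
  (.con 120 [2, 4]) .no .no) (.red [.t 952 4 2] 119 120 [4] [(119, 120, [4])]) .no) (.red [.t 825
  1 4, .f 944 3 5] 119 120 [4] [(119, 120, [4])]) (.br 816 .no (.red [.f 688 1 3] 103 104 [4]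
  [(103, 104, [4])]) .no (.br 818 .no (.use 45) .no (.use 46) (.red [.t 962 4 2, .t 826 1 3, .f
  818 5 3, .t 825 1 4] 119 120 [4] [(119, 120, [4])]) (.red [.f 817 5 1, .f 817 1 3] 119 120 [4]
  [(119, 120, [4])])) (.red [.t 952 4 2] 119 120 [4] [(119, 120, [4])]) .no) .no) .no) .no (.br
  1073 (.red [.f 1073 1 3, .f 1073 3 5] 151 135 [1] [(151, 135, [1])]) (.br 826 .no (.use 1) (.red
  [.f 826 3 1, .f 825 1 5, .t 1073 2 3, .f 944 3 5, .t 1088 4 2, .t 961 4 2] 136 136 [] [(135,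
  119, [1]), (136, 136, [])]) (.use 6) (.use 49) .no) .no (.use 47) .no (.use 50)) .no .no) .no

def f21t52 : Tr4 :=
  .br 833 .no (.hor [.f 705 1 5] []) (.con 120 [2, 3]) .no .no .no

def f21t53 : Tr4 :=
  .br 827 .no (.hor [.f 698 1 5] []) .no (.con 120 [2, 4]) .no .no

def f21t54 : Tr4 :=
  .br 1104 (.con 138 [1]) (.con 138 [1]) (.con 138 [1]) (.hor [.f 1096 3 5] []) .no .no

def f21t55 : Tr4 :=
  .br 971 (.br 970 .no .no (.br 969 .no (.br 826 .no (.use 53) .no (.use 6) (.red [.t 962 4 2, .t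
  1098 4 2, .f 961 1 5, .t 841 1 4] 121 105 [1] [(120, 104, [1]), (121, 105, [1]), (137, 121,
  [1])]) .no) (.hor [.f 969 3 5] []) .no .no .no) .no .no (.red [.t 1089 2 3, .f 970 1 5, .t 834 3
  1] 121 120 [3] [(121, 120, [3]), (137, 121, [1])])) (.red [.f 835 1 3, .f 834 3 5] 121 120 [3]
  [(121, 120, [3])]) (.br 1099 (.red [.f 1091 1 3, .f 1090 3 5] 153 137 [1] [(153, 137, [1])]) .no
  (.use 54) .no .no .no) .no .no (.red [.t 834 3 1] 121 120 [3] [(121, 120, [3])])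

def f21t56 : Tr4 :=
  .br 969 .no (.red [.t 960 3 1, .t 824 3 1, .f 953 3 5, .t 841 1 4] 121 105 [1] [(120, 104, [1]),
  (121, 105, [1]), (137, 121, [1])]) (.br 978 (.con 137 [3, 2]) (.con 137 [3, 2]) (.con 137 [3,
  2]) (.hor [.f 969 3 5] []) (.con 137 [3, 2]) .no) .no (.red [.t 1089 2 3, .f 970 1 5, .t 834 3
  1] 121 120 [3] [(121, 120, [3]), (137, 121, [1])]) .no

def f21t57 : Tr4 :=
  .br 1224 (.red [.f 1216 1 3] 169 168 [3] [(169, 168, [3])]) .no (.br 1225 (.con 168 [3, 3]) .no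
  (.hor [.f 1224 3 5] []) .no (.con 168 [3, 3]) .no) .no (.red [.f 1096 5 1, .t 1097 1 4] 153 137
  [1] [(153, 137, [1])]) .no

def f21t58 : Tr4 :=
  .br 947 (.con 135 [4]) (.dom 119 103 [1]) .no (.use 5) .no (.red [.t 1082 4 2, .f 945 1 5, .t
  825 1 4] 119 120 [4] [(119, 120, [4]), (135, 119, [1])])

def f21t59 : Tr4 :=
  .br 1075 (.red [.t 1074 3 1, .f 1081 1 5] 151 135 [1] [(151, 135, [1])]) (.use 41) .no (.br 1073
  (.red [.f 1073 1 3, .f 1073 3 5] 151 135 [1] [(151, 135, [1])]) .no .no (.use 47) .no (.use 50))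
  .no .no

def f21t60 : Tr4 :=
  .br 945 (.use 58) (.red [.f 817 1 3, .f 817 3 5] 119 118 [3] [(119, 118, [3])]) .no (.use 59)
  (.red [.t 825 1 4, .f 944 3 5] 119 120 [4] [(119, 120, [4])]) .no

def f21t61 : Tr4 :=
  .br 1227 (.use 57) .no (.red [.f 1099 3 1, .f 1091 1 3, .f 1090 3 5] 154 138 [1] [(153, 137,
  [1]), (154, 138, [1])]) .no .no (.red [.t 1090 3 1, .t 954 3 1, .f 961 1 5] 153 137 [1] [(136,
  136, []), (153, 137, [1])])

def f21t62 : Tr4 :=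
  .br 817 .no (.br 819 .no (.con 120 [4, 4, 2]) .no (.hor [.f 810 3 5] []) .no .no) .no (.hor [.f
  809 3 5] []) .no (.red [.t 952 4 2] 119 120 [4] [(119, 120, [4])])

def f21t63 : Tr4 :=
  .br 1073 (.red [.f 1073 1 3, .f 1073 3 5] 151 135 [1] [(151, 135, [1])]) .no .no (.use 47) .no
  (.use 50)

def f21t64 : Tr4 :=
  .br 945 (.br 834 .no (.use 52) (.br 1075 (.red [.t 1074 3 1, .f 1081 1 5] 151 135 [1] [(151,
  135, [1])]) (.con 135 [4]) .no (.br 1218 (.use 48) .no (.red [.f 1090 3 1, .f 1090 1 5] 153 137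
  [1] [(153, 137, [1])]) .no .no (.br 960 .no .no (.br 1097 (.red [.t 1097 1 4, .f 1090 1 5] 153
  137 [1] [(153, 137, [1])]) (.red [.f 961 1 3, .f 1089 3 5, .f 1089 5 1, .f 1090 1 5, .t 954 3 1,
  .t 961 3 1] 136 136 [] [(136, 136, [])]) (.use 55) .no .no (.br 971 (.use 56) (.red [.f 835 1 3,
  .f 834 3 5] 121 120 [3] [(121, 120, [3])]) (.br 1099 (.red [.f 1091 1 3, .f 1090 3 5] 153 137
  [1] [(153, 137, [1])]) .no (.br 970 .no .no (.hor [.f 970 3 5] []) .no .no (.br 1216 (.use 61)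
  .no (.red [.t 960 3 1, .t 1096 2 4, .t 1089 2 3, .f 1089 5 1, .t 1216 3 2, .f 961 3 1] 153 137
  [1] [(153, 137, [1])]) (.red [.f 1080 3 1, .f 1080 1 5, .t 944 3 1, .f 1073 3 5, .t 961 1 4] 136
  136 [] [(135, 119, [1]), (136, 136, []), (152, 136, [1])]) .no .no)) .no .no .no) .no .no (.red
  [.t 834 3 1] 121 120 [3] [(121, 120, [3])]))) .no .no .no)) .no .no) .no .no (.red [.t 953 2 3,
  .t 1073 2 3, .f 944 3 5, .t 1088 4 2, .f 825 3 1] 136 136 [] [(135, 119, [1]), (136, 136, [])]))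
  (.red [.f 817 1 3] 119 120 [4] [(119, 120, [4])]) .no (.use 59) (.br 834 .no (.use 52) (.br 1075
  (.red [.t 1074 3 1, .f 1081 1 5] 151 135 [1] [(151, 135, [1])]) (.br 833 .no (.br 696 .no (.br
  818 .no (.br 698 .no (.br 699 .no (.hor [.f 570 1 5] []) (.con 105 [4, 2]) (.red [.t 962 4 2, .t
  826 1 3, .t 690 1 3, .t 825 1 4] 103 87 [1] [(103, 87, [1]), (119, 120, [4])]) .no .no) (.red
  [.t 962 4 2, .f 825 1 5, .t 705 1 4] 104 105 [4] [(104, 105, [4]), (120, 104, [1])]) .no (.red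
  [.f 698 5 1, .f 690 1 3, .t 825 1 4] 103 105 [4, 4] [(103, 105, [4, 4]), (119, 120, [4])]) (.red
  [.t 962 4 2, .f 825 1 5, .f 697 5 1, .f 697 1 3] 104 105 [4] [(104, 105, [4]), (120, 104,
  [1])])) .no (.use 62) (.red [.t 962 4 2, .t 826 1 3, .f 818 5 3, .t 825 1 4] 119 120 [4] [(119,
  120, [4])]) (.red [.f 817 5 1, .f 817 1 3] 119 120 [4] [(119, 120, [4])])) (.red [.f 696 3 1, .f
  704 1 5] 104 105 [4] [(104, 105, [4])]) (.br 818 .no (.br 698 .no (.br 699 .no (.hor [.f 570 1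
  5] []) (.con 105 [4, 2]) (.red [.t 962 4 2, .t 826 1 3, .t 690 1 3, .t 825 1 4] 103 105 [4, 4]
  [(103, 105, [4, 4]), (119, 120, [4])]) .no .no) (.red [.t 962 4 2, .f 825 1 5, .t 705 1 4] 104
  105 [4] [(104, 105, [4]), (120, 104, [1])]) .no (.red [.f 698 5 1, .f 690 1 3, .t 825 1 4] 103
  105 [4, 4] [(103, 105, [4, 4]), (119, 120, [4])]) (.red [.t 962 4 2, .f 825 1 5, .f 697 5 1, .f
  697 1 3] 104 105 [4] [(104, 105, [4]), (120, 104, [1])])) .no (.use 62) (.red [.t 962 4 2, .t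
  826 1 3, .f 818 5 3, .t 825 1 4] 119 120 [4] [(119, 120, [4])]) (.red [.f 817 5 1, .f 817 1 3]
  119 120 [4] [(119, 120, [4])])) (.red [.t 832 4 2] 104 105 [4] [(104, 105, [4])]) .no) (.hor [.f
  833 3 5] []) .no .no .no) .no (.use 63) .no .no) .no .no (.red [.t 953 2 3, .f 945 5 3, .f 944 3
  5, .t 1088 4 2, .f 825 3 1] 136 136 [] [(136, 136, [])])) .no

def f21t65 : Tr4 :=
  .br 1210 (.br 1218 (.use 4) .no (.red [.f 1090 3 1, .f 1090 1 5] 153 137 [1] [(153, 137, [1])])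
  .no .no (.br 1073 (.red [.f 1073 1 3, .f 1073 3 5] 151 135 [1] [(151, 135, [1])]) (.br 1208
  (.use 3) .no (.use 9) (.br 1097 (.red [.t 1097 1 4, .f 1090 1 5] 153 137 [1] [(153, 137, [1])])
  (.red [.f 961 1 3, .f 1089 3 5, .f 1089 5 1, .f 1090 1 5, .t 954 3 1, .t 961 3 1] 136 136 []
  [(136, 136, [])]) (.br 834 .no (.use 52) (.br 968 (.con 120 [3, 1, 4]) (.con 120 [3, 1, 4])
  (.con 120 [3, 1, 4]) (.br 1075 (.dom 151 135 [1]) (.con 135 [4]) .no (.use 55) .no .no) (.con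
  120 [3, 1, 4]) .no) (.con 120 [2]) .no (.red [.t 953 2 3, .t 1073 2 3, .f 944 3 5, .t 1088 4 2,
  .f 825 3 1] 136 136 [] [(135, 119, [1]), (136, 136, [])])) .no .no (.br 834 .no (.use 52) (.br
  960 .no .no (.br 971 (.use 56) (.red [.f 835 1 3, .f 834 3 5] 121 120 [3] [(121, 120, [3])])
  (.br 1099 (.red [.f 1091 1 3, .f 1090 3 5] 153 137 [1] [(153, 137, [1])]) .no (.br 970 .no .no
  (.hor [.f 970 3 5] []) .no .no (.br 1227 (.br 1216 (.use 57) .no (.red [.t 960 3 1, .t 1096 2 4,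
  .t 1089 2 3, .f 1089 5 1, .t 1216 3 2, .f 961 3 1] 153 137 [1] [(153, 137, [1])]) .no .no .no)
  .no (.red [.f 1099 3 1, .f 1091 1 3, .f 1090 3 5] 154 138 [1] [(153, 137, [1]), (154, 138,
  [1])]) .no .no (.red [.t 1090 3 1, .t 954 3 1, .f 961 1 5] 153 137 [1] [(136, 136, []), (153,
  137, [1])]))) .no .no .no) .no .no (.red [.t 834 3 1] 121 120 [3] [(121, 120, [3])])) .no .no
  .no) (.con 120 [2]) .no (.red [.t 953 2 3, .t 1073 2 3, .f 944 3 5, .t 1088 4 2, .f 825 3 1] 136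
  136 [] [(135, 119, [1]), (136, 136, [])]))) .no .no) .no (.use 2) .no (.use 10))) .no (.br 945
  (.br 834 .no (.use 52) (.br 947 (.con 135 [4]) (.br 970 .no .no (.br 969 (.red [.f 961 1 3, .f
  1089 3 5, .t 1209 2 3, .f 1090 1 5, .t 954 3 1, .t 961 3 1] 136 136 [] [(136, 136, []), (152,
  136, [1])]) (.br 971 (.br 826 .no (.use 53) .no (.dom 119 103 [1]) (.red [.t 962 4 2, .t 1098 4
  2, .f 961 1 5, .t 841 1 4] 121 105 [1] [(120, 104, [1]), (121, 105, [1]), (137, 136, [3])]) .no)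
  (.con 122 [1, 4, 4]) (.hor [.f 970 3 5] []) .no .no .no) (.hor [.f 969 3 5] []) .no .no (.con
  120 [3, 1, 4])) .no (.red [.t 834 3 1] 121 120 [3] [(121, 120, [3])]) (.red [.t 1089 2 3, .t
  1209 2 3, .f 1090 1 5, .t 954 3 1, .f 962 1 3] 136 136 [] [(136, 136, []), (152, 136, [1])]))
  .no (.use 5) .no (.red [.t 1082 4 2, .t 1218 4 2, .f 1081 1 5, .t 961 1 4] 136 136 [] [(135,
  119, [1]), (136, 136, []), (152, 136, [1])])) (.con 120 [2]) .no (.red [.t 953 2 3, .t 1073 2 3,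
  .f 944 3 5, .t 1088 4 2, .f 825 3 1] 136 136 [] [(135, 119, [1]), (136, 136, [])])) (.red [.f
  817 1 3] 119 120 [4] [(119, 120, [4])]) .no (.use 40) (.use 38) .no) (.red [.f 1074 3 1, .f 1081
  1 5] 151 135 [1] [(151, 135, [1])]) (.br 826 .no (.use 53) (.con 120 [2]) (.use 60) (.use 64)
  .no) .no

def f21t66 : Tr4 :=
  .br 970 .no (.hor [.f 841 1 5] []) (.con 122 [1, 4, 4]) .no .no .no

def f21t67 : Tr4 :=
  .br 1227 (.br 1226 (.hor [.f 1226 1 5] []) .no (.br 1225 (.con 169 [3]) .no (.hor [.f 1225 3 5]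
  []) .no .no .no) .no .no (.red [.f 1217 5 3, .f 1090 3 1, .f 1090 1 5, .f 1216 3 5] 153 137 [1]
  [(153, 137, [1])])) .no (.red [.f 1099 3 1, .f 1091 1 3, .f 1090 3 5] 154 138 [1] [(153, 137,
  [1]), (154, 138, [1])]) .no .no (.red [.t 1090 3 1, .t 954 3 1, .f 961 1 5] 153 137 [1] [(136,
  136, []), (153, 137, [1])])

def f21t68 : Tr4 :=
  .br 1218 (.use 4) .no (.red [.f 1090 3 1, .f 1090 1 5] 153 137 [1] [(153, 137, [1])]) .no .no
  (.br 1097 (.red [.t 1097 1 4, .f 1090 1 5] 153 137 [1] [(153, 137, [1])]) (.red [.f 961 1 3, .f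
  1089 3 5, .f 1089 5 1, .f 1090 1 5, .t 954 3 1, .t 961 3 1] 136 136 [] [(136, 136, [])]) (.use
  54) .no .no (.br 1216 (.use 61) .no (.use 67) (.use 9) .no .no))

def f21t69 : Tr4 :=
  .br 699 (.hor [.f 698 1 5] []) (.con 104 [4]) (.con 104 [4]) (.con 104 [4]) .no .no

def f21l1 : List Tr4 :=
  [f21t44, f21t45, f21t46, f21t47, f21t48, f21t49, f21t50, f21t51, f21t52, f21t53, f21t54, f21t55,
  f21t56, f21t57, f21t58, f21t59, f21t60, f21t61, f21t62, f21t63, f21t64, f21t65, f21t66, f21t67,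
  f21t68, f21t69]

theorem f21k1 : chkLF ⟨4, 0, 0, false, -4⟩ false 1 f21N 44 f21l1 = true := by decide +kernel

def f21t70 : Tr4 :=
  .br 696 .no (.br 697 .no (.hor [.f 568 1 5] []) .no (.red [.t 697 4 1, .f 688 1 5] 103 87 [1]
  [(103, 87, [1])]) .no .no) .no .no (.hor [.f 696 5 3, .f 696 3 1, .f 698 1 3, .f 697 3 5, .f 826
  3 5] []) .no

def f21t71 : Tr4 :=
  .br 699 .no (.br 707 .no (.br 705 .no (.br 704 .no (.hor [.f 576 1 5] []) (.con 88 [3]) (.con 88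
  [3]) .no .no) (.red [.f 698 1 3, .f 705 3 1] 105 104 [3] [(104, 103, [3]), (105, 104, [3])])
  (.br 696 .no (.br 704 .no (.red [.f 568 1 3] 88 104 [2] [(88, 104, [2])]) (.con 104 [2, 3]) .no
  .no .no) (.hor [.f 696 3 5] []) .no .no .no) .no (.use 70)) (.br 705 .no (.br 704 .no (.hor [.f
  576 1 5] []) (.br 697 .no (.br 696 .no (.hor [.f 568 1 5] []) .no .no .no .no) .no (.red [.t 697
  4 1, .f 688 1 5] 103 87 [1] [(103, 87, [1])]) .no (.br 691 .no (.red [.f 563 1 3] 87 88 [4]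
  [(87, 88, [4])]) .no (.br 690 .no (.br 689 .no (.hor [.f 561 1 5] []) .no (.con 102 [2]) .no
  .no) .no (.hor [.f 682 3 5] []) .no (.red [.f 689 5 1, .f 690 1 3] 103 102 [3] [(103, 102,
  [3])])) .no (.red [.t 937 2 3, .f 818 1 5, .f 690 5 1, .f 690 1 3] 103 102 [3] [(103, 102, [3]),
  (118, 119, [4])]))) (.con 88 [3, 1]) .no .no) (.red [.f 698 1 3, .f 705 3 1] 105 89 [1] [(104,
  103, [3]), (105, 89, [1])]) (.br 696 .no (.br 704 .no (.red [.f 568 1 3] 88 89 [4] [(88, 89,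
  [4])]) (.br 576 .no (.br 577 .no (.hor [.f 448 1 5] []) (.br 578 .no (.con 104 [2, 2, 3]) (.hor
  [.f 577 3 5] []) (.con 104 [2, 2]) (.con 104 [2, 2, 3]) .no) (.red [.f 569 3 1, .f 568 1 5] 88
  104 [2] [(88, 104, [2])]) (.br 713 .no (.red [.f 698 1 3, .f 697 3 5, .f 577 5 1, .f 577 1 3] 89
  104 [2, 3] [(89, 104, [2, 3]), (104, 88, [1])]) (.br 691 .no (.red [.f 563 1 3] 87 104 [2, 4]
  [(87, 104, [2, 4])]) .no (.br 714 .no (.con 104 [2, 3, 3]) (.hor [.f 713 3 5] []) .no .no .no)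
  .no (.red [.t 937 2 3, .f 818 1 5, .f 690 5 1, .f 690 1 3] 103 102 [3] [(103, 102, [3]), (118,
  119, [4])])) .no (.red [.f 698 1 3, .f 698 3 1, .t 833 3 2] 105 104 [3] [(105, 104, [3])]) .no)
  .no) (.red [.f 576 3 1] 89 104 [2, 3] [(89, 104, [2, 3])]) .no (.red [.t 696 2 3] 88 104 [2]
  [(88, 104, [2])]) .no) .no .no .no) (.hor [.f 696 3 5] []) .no .no .no) .no (.use 70)) .no .no
  .no) (.br 705 .no (.br 704 .no (.hor [.f 576 1 5] []) (.con 104 [2, 3]) (.br 697 .no (.red [.f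
  698 1 3, .f 569 1 3, .f 696 3 1, .f 569 3 1, .f 688 1 3] 103 102 [3] [(103, 102, [3])]) .no
  (.red [.t 697 4 1, .f 688 1 5] 103 87 [1] [(103, 87, [1])]) .no .no) .no .no) (.red [.f 699 3 1,
  .f 698 1 5, .f 705 3 1] 105 104 [3] [(104, 103, [3]), (105, 104, [3])]) (.br 696 .no (.con 104
  [2]) (.hor [.f 696 3 5] []) .no .no .no) .no (.use 70)) (.red [.t 937 2 3, .f 818 1 5, .t 698 1
  4] 103 87 [1] [(103, 87, [1]), (118, 119, [4])]) .no .no

def f21t72 : Tr4 :=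
  .br 816 .no (.use 71) .no (.red [.t 937 2 3, .f 808 3 5, .t 952 4 2] 119 118 [3] [(118, 102,
  [1]), (119, 118, [3])]) .no .no

def f21t73 : Tr4 :=
  .br 1066 (.br 1211 (.br 1344 (.br 1336 (.con 135 [1, 1, 3]) (.br 1203 (.con 135 [1, 4]) (.br
  1337 (.hor [.f 1337 1 5] []) .no .no (.br 808 .no (.red [.t 937 2 3, .f 680 1 3, .f 808 3 5, .t
  952 4 2] 119 120 [4] [(102, 117, [3, 2]), (118, 117, [3]), (119, 120, [4])]) .no (.br 928 (.red
  [.f 928 1 3, .f 800 3 1, .f 808 1 5] 117 118 [4] [(117, 118, [4]), (133, 149, [2])]) .no .no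
  (.br 1058 (.red [.f 1058 1 3, .f 1057 3 5, .f 929 5 1, .t 945 1 4, .f 930 1 3] 134 118 [1]
  [(133, 149, [2]), (134, 118, [1]), (149, 133, [1])]) .no .no (.br 1056 (.br 1059 (.br 1186 (.br
  1185 (.hor [.f 1185 1 5] []) .no .no (.con 164 [2, 2]) .no .no) .no .no (.red [.f 1050 3 1, .f
  1058 1 3, .f 1057 3 5, .t 945 1 4] 134 118 [1] [(134, 118, [1]), (148, 132, [1]), (149, 133,
  [1])]) .no (.red [.t 937 2 3, .t 817 4 1, .t 1065 4 1, .t 945 1 4] 134 118 [1] [(134, 118, [1]),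
  (149, 133, [1])])) (.con 149 [2, 4]) .no (.hor [.f 1050 3 5] []) .no .no) .no .no (.red [.f 920
  3 1, .f 928 1 3] 133 149 [2] [(132, 148, [2]), (133, 149, [2])]) .no .no) (.br 1056 (.br 1195
  (.br 1186 (.br 1187 (.hor [.f 1186 1 5] []) .no .no (.br 1185 (.hor [.f 1185 1 5] []) .no .no
  (.con 164 [2]) .no .no) .no .no) .no .no (.br 1187 (.br 1328 (.br 1320 (.con 165 [3, 2]) (.br
  1322 (.br 1321 (.hor [.f 1321 1 5] []) .no .no (.con 181 [2, 4]) .no .no) .no .no (.br 1185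
  (.con 165 [4]) .no .no (.hor [.f 1177 3 5] []) .no .no) .no (.red [.t 1201 4 1, .t 1081 1 4, .f
  1066 1 3] 151 135 [1] [(150, 149, [3]), (151, 135, [1]), (166, 150, [1])])) .no (.con 165 [3,
  2]) (.con 165 [3, 2]) .no) .no .no (.con 165 [3, 2]) .no .no) .no .no (.hor [.f 1178 3 5] [])
  .no .no) (.red [.f 1058 5 1, .f 1058 1 3, .f 1057 3 5, .t 945 1 4] 134 118 [1] [(134, 118, [1]),
  (149, 133, [1])]) (.red [.t 937 2 3, .t 817 4 1, .t 1065 4 1, .t 945 1 4] 134 118 [1] [(134,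
  118, [1]), (149, 133, [1])])) .no .no (.red [.t 1194 2 4, .f 1057 3 5, .t 945 1 4] 134 118 [1]
  [(134, 118, [1]), (149, 133, [1])]) .no .no) .no .no (.red [.f 920 3 1, .f 928 1 3] 133 149 [2]
  [(132, 148, [2]), (133, 149, [2])]) .no .no) .no) .no .no) .no .no) .no .no) .no (.con 166 [2])
  .no .no) .no (.con 135 [1, 1, 3]) (.con 135 [1, 1, 3]) .no) .no (.con 169 [1]) (.con 135 [1, 1,
  3]) .no .no) .no .no (.con 135 [1, 4]) .no .no) .no .no (.hor [.f 1057 3 5] []) .no .no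

def f21t74 : Tr4 :=
  .br 816 .no (.br 1072 (.br 1064 (.red [.f 1064 1 3] 150 118 [1, 1] [(150, 118, [1, 1])]) (.br
  937 .no (.br 817 .no (.hor [.f 688 1 5] []) .no .no (.br 1067 (.con 118 [1, 4]) (.br 929 .no
  (.red [.f 801 1 3] 117 118 [4] [(117, 118, [4])]) .no (.br 808 .no (.red [.t 937 2 3, .f 680 1
  3, .f 808 3 5, .t 952 4 2] 119 118 [3] [(102, 103, [4]), (118, 117, [3]), (119, 118, [3])]) .no
  (.br 928 (.red [.f 928 1 3, .f 800 3 1, .f 808 1 5] 117 118 [4] [(117, 118, [4]), (133, 118, [4,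
  1])]) .no .no (.hor [.f 920 3 5] []) .no .no) .no .no) (.br 1202 (.use 73) .no .no (.hor [.f
  1193 3 5] []) (.con 135 [1, 4]) .no) (.red [.t 937 2 3, .t 817 4 1, .t 1064 2 4] 133 118 [4, 1]
  [(133, 118, [4, 1])])) (.con 118 [1, 4]) (.con 118 [1, 4]) .no (.con 118 [1, 4])) .no) .no (.red
  [.f 929 3 1, .f 936 1 5] 133 117 [1] [(133, 117, [1])]) .no .no) .no (.hor [.f 1056 3 5] []) .no
  .no) .no .no (.br 937 .no (.br 817 .no (.hor [.f 688 1 5] []) .no .no (.br 936 .no (.hor [.f 808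
  1 5] []) .no (.br 808 .no (.red [.t 937 2 3, .f 680 1 3, .f 808 3 5, .t 952 4 2] 119 118 [3]
  [(102, 103, [4]), (118, 117, [3]), (119, 118, [3])]) .no (.red [.f 800 3 1, .f 808 1 5] 117 118
  [4] [(117, 118, [4])]) .no .no) .no .no) .no) .no (.use 29) .no (.red [.t 1072 4 2, .f 937 3 5]
  134 118 [1] [(134, 118, [1])])) .no .no) .no (.use 30) (.red [.t 952 4 2] 119 118 [3] [(119,
  118, [3])]) .no

def f21t75 : Tr4 :=
  .br 1201 (.use 27) .no .no (.br 1072 (.br 1064 (.red [.f 1064 1 3] 150 118 [1, 1] [(150, 118,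
  [1, 1])]) (.br 1066 (.con 135 [1, 1, 4, 2]) .no .no (.hor [.f 1057 3 5] []) (.con 118 [1, 4])
  .no) .no (.hor [.f 1056 3 5] []) .no .no) .no .no (.br 1211 (.br 1066 (.br 1067 (.hor [.f 1066 1
  5] []) (.con 149 [2, 3]) (.br 1202 .no .no .no .no (.red [.t 1066 1 3, .f 1193 3 5] 150 149 [3]
  [(150, 149, [3])]) .no) (.con 149 [2]) .no .no) .no .no (.hor [.f 1057 3 5] []) (.br 1203 (.con
  135 [1, 4, 2]) (.br 1200 (.br 1208 (.red [.f 1200 1 3] 167 166 [3] [(167, 166, [3])]) .no .no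
  .no .no .no) .no (.dom 151 135 [1]) (.hor [.f 1192 3 5] []) .no .no) .no (.con 135 [1, 4, 2])
  .no (.con 135 [1, 4, 2])) .no) .no .no (.use 24) .no .no) .no .no) (.red [.t 1081 1 4] 151 135
  [1] [(151, 135, [1])]) (.use 14)

def f21t76 : Tr4 :=
  .br 826 .no (.br 946 .no (.hor [.f 818 1 5] []) .no (.br 1065 (.use 22) (.red [.f 937 1 3, .f
  937 3 5] 134 118 [1] [(134, 118, [1])]) .no (.br 970 .no (.br 834 .no (.br 835 .no (.hor [.f 706
  1 5] []) (.br 833 .no (.hor [.f 705 1 5] []) (.con 121 [2]) .no .no .no) (.br 833 .no (.hor [.f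
  705 1 5] []) (.br 818 .no (.red [.f 690 1 3] 103 104 [4] [(103, 104, [4])]) .no (.br 817 .no
  (.br 690 .no (.br 816 .no (.hor [.f 688 1 5] []) .no (.con 118 [2]) .no .no) .no (.red [.f 682 3
  1, .f 689 1 5] 102 118 [2] [(102, 118, [2])]) (.red [.f 810 3 1, .f 818 1 5, .f 690 5 1, .f 690
  1 3] 103 104 [4] [(103, 104, [4]), (118, 102, [1])]) .no) .no (.hor [.f 809 3 5] []) .no (.red
  [.t 952 4 2] 119 118 [3] [(119, 118, [3])])) .no (.br 1072 (.br 1064 (.red [.f 1064 1 3] 150 118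
  [1, 1] [(150, 118, [1, 1])]) (.br 937 .no (.use 72) .no (.red [.f 929 3 1, .f 936 1 5] 133 117
  [1] [(133, 117, [1])]) .no .no) .no (.hor [.f 1056 3 5] []) .no .no) .no .no (.br 937 .no (.use
  72) .no (.use 29) .no (.red [.t 1072 4 2, .f 937 3 5] 134 118 [1] [(134, 118, [1])])) .no .no))
  .no .no .no) .no .no) .no .no (.br 827 .no (.hor [.f 698 1 5] []) .no .no .no .no) (.red [.t 953
  2 3, .t 1073 2 3, .f 944 3 5, .t 1088 4 2, .f 825 3 1] 136 136 [] [(135, 119, [1]), (136, 136,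
  [])])) (.hor [.f 969 3 5] []) .no .no .no) (.red [.t 945 1 4] 134 118 [1] [(134, 118, [1])])
  (.use 33)) .no .no) (.red [.f 826 3 1, .f 825 1 5, .t 1073 2 3, .f 944 3 5, .t 1088 4 2, .t 961
  4 2] 136 136 [] [(135, 119, [1]), (136, 136, [])]) (.dom 119 103 [1]) (.br 1097 (.br 946 .no
  (.hor [.f 818 1 5] []) .no (.br 1065 (.use 22) (.red [.f 937 1 3, .f 937 3 5] 134 118 [1] [(134,
  118, [1])]) .no (.br 1338 (.br 1346 (.use 17) .no (.br 1201 (.use 27) .no .no (.br 1226 .no .no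
  (.br 1227 (.use 74) .no (.hor [.f 1226 3 5] []) .no .no .no) .no (.red [.t 1090 3 1, .t 954 3 1,
  .f 961 1 5] 153 137 [1] [(136, 136, []), (153, 137, [1])]) .no) (.red [.t 1081 1 4] 151 135 [1]
  [(151, 135, [1])]) (.use 21)) .no (.use 25) .no) .no (.red [.f 1210 3 1, .f 1217 1 5] 168 152
  [1] [(168, 152, [1])]) (.use 75) (.use 23) (.red [.t 1217 1 4] 168 152 [1] [(168, 152, [1])]))
  (.red [.t 945 1 4] 134 118 [1] [(134, 118, [1])]) (.use 33)) .no .no) .no (.use 54) .no .no (.br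
  1227 (.br 946 .no (.hor [.f 818 1 5] []) .no (.br 1065 (.use 22) (.red [.f 937 1 3, .f 937 3 5]
  134 118 [1] [(134, 118, [1])]) .no (.br 1338 (.br 1346 (.use 17) .no (.br 1201 (.use 27) .no .no
  (.use 74) (.red [.t 1081 1 4] 151 135 [1] [(151, 135, [1])]) (.use 21)) .no (.use 25) .no) .no
  (.red [.f 1210 3 1, .f 1217 1 5] 168 152 [1] [(168, 152, [1])]) (.use 75) (.use 23) (.red [.t
  1217 1 4] 168 152 [1] [(168, 152, [1])])) (.red [.t 945 1 4] 134 118 [1] [(134, 118, [1])])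
  (.use 33)) .no .no) .no (.red [.f 1099 3 1, .f 1091 1 3, .f 1090 3 5] 154 138 [1] [(153, 137,
  [1]), (154, 138, [1])]) .no .no (.red [.t 1090 3 1, .t 954 3 1, .f 961 1 5] 153 137 [1] [(136,
  136, []), (153, 137, [1])]))) .no

def f21t77 : Tr4 :=
  .br 1210 (.use 68) .no (.br 945 (.br 1216 (.use 13) .no (.br 947 (.con 135 [4]) (.br 969 (.red
  [.f 961 1 3, .f 1089 3 5, .t 1209 2 3, .f 1090 1 5, .t 954 3 1, .t 961 3 1] 136 136 [] [(136,
  136, []), (152, 136, [1])]) (.use 66) (.br 1217 (.use 76) .no (.hor [.f 1216 3 5] []) .no .no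
  .no) .no (.red [.t 1089 2 3, .t 1209 2 3, .f 1090 1 5, .t 954 3 1, .f 962 1 3] 136 136 [] [(136,
  136, []), (152, 136, [1])]) .no) .no (.use 5) .no (.red [.t 1082 4 2, .t 1218 4 2, .f 1081 1 5,
  .t 961 1 4] 136 136 [] [(135, 119, [1]), (136, 136, []), (152, 136, [1])])) (.con 152 [1]) (.red
  [.t 1080 3 1, .t 944 3 1, .f 1073 3 5, .t 961 1 4] 136 136 [] [(135, 119, [1]), (136, 136, []),
  (152, 136, [1])]) .no) (.red [.f 817 1 3] 119 120 [4] [(119, 120, [4])]) .no (.use 40) (.use 38)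
  .no) (.red [.f 1074 3 1, .f 1081 1 5] 151 135 [1] [(151, 135, [1])]) (.br 945 (.br 1075 (.red
  [.t 1074 3 1, .f 1081 1 5] 151 135 [1] [(151, 135, [1])]) (.con 135 [4]) .no (.br 1218 (.use 48)
  .no (.red [.f 1090 3 1, .f 1090 1 5] 153 137 [1] [(153, 137, [1])]) .no .no (.br 969 (.red [.f
  961 1 3, .f 1089 3 5, .f 1089 5 1, .f 1090 1 5, .t 954 3 1, .t 961 3 1] 136 136 [] [(136, 136,
  [])]) (.use 66) (.br 1097 (.red [.t 1097 1 4, .f 1090 1 5] 153 137 [1] [(153, 137, [1])]) .no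
  (.use 54) .no .no (.br 1216 (.use 61) .no (.use 67) (.red [.f 1080 3 1, .f 1080 1 5, .t 944 3 1,
  .f 1073 3 5, .t 961 1 4] 136 136 [] [(135, 119, [1]), (136, 136, []), (152, 136, [1])]) .no
  .no)) .no (.hor [.t 1089 2 3, .f 960 3 5, .f 1089 5 1, .f 1090 1 5, .t 970 1 4] []) .no)) .no
  .no) (.red [.f 817 1 3] 119 120 [4] [(119, 120, [4])]) .no (.use 59) (.br 1075 (.red [.t 1074 3
  1, .f 1081 1 5] 151 135 [1] [(151, 135, [1])]) (.br 1218 (.br 1217 (.hor [.f 1217 1 5] []) .no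
  (.use 0) .no .no (.br 1073 (.red [.f 1073 1 3, .f 1073 3 5] 151 135 [1] [(151, 135, [1])]) .no
  .no (.br 1072 (.con 135 [4, 1]) .no .no (.hor [.f 1064 3 5] []) .no .no) .no (.use 43))) .no
  (.red [.f 1090 3 1, .f 1090 1 5] 153 137 [1] [(153, 137, [1])]) .no .no (.br 969 (.red [.f 961 1
  3, .f 1089 3 5, .f 1089 5 1, .f 1090 1 5, .t 954 3 1, .t 961 3 1] 136 136 [] [(136, 136, [])])
  (.use 66) (.br 1097 (.red [.t 1097 1 4, .f 1090 1 5] 153 137 [1] [(153, 137, [1])]) .no (.use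
  54) .no .no (.br 1227 (.br 1226 (.hor [.f 1226 1 5] []) .no (.br 1225 (.con 138 [1, 1]) .no
  (.hor [.f 1225 3 5] []) .no .no (.con 138 [1, 1])) .no .no (.red [.f 1217 5 3, .f 1090 3 1] 153
  137 [1] [(153, 137, [1])])) .no (.red [.f 1099 3 1, .f 1091 1 3, .f 1090 3 5] 154 138 [1] [(153,
  137, [1]), (154, 138, [1])]) .no .no (.red [.t 1090 3 1, .t 954 3 1, .f 961 1 5] 153 137 [1]
  [(136, 136, []), (153, 137, [1])]))) .no (.hor [.t 1089 2 3, .f 960 3 5, .f 1089 5 1, .f 1090 1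
  5, .t 970 1 4] []) .no)) .no (.use 63) .no .no) .no) .no

def f21l2 : List Tr4 :=
  [f21t70, f21t71, f21t72, f21t73, f21t74, f21t75, f21t76, f21t77]

theorem f21k2 : chkLF ⟨4, 0, 0, false, -4⟩ false 1 f21N 70 f21l2 = true := by decide +kernel

def f21t78 : Tr4 :=
  .br 953 .no (.br 963 .no (.br 824 .no (.use 51) (.use 65) (.red [.f 816 3 1, .f 824 1 5] 119 120
  [4] [(119, 120, [4])]) .no .no) (.br 960 .no (.con 121 [4, 4]) (.br 1099 (.red [.f 1091 1 3, .f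
  1090 3 5] 153 137 [1] [(153, 137, [1])]) .no (.br 824 .no (.br 1210 (.use 68) .no (.br 945 (.br
  947 (.con 135 [4]) (.br 826 .no (.use 69) (.use 12) (.dom 119 103 [1]) (.use 39) .no) .no (.use
  5) .no (.red [.t 1082 4 2, .t 1218 4 2, .f 1081 1 5, .t 961 1 4] 136 136 [] [(135, 119, [1]),
  (136, 136, []), (152, 136, [1])])) (.red [.f 817 1 3] 119 120 [4] [(119, 120, [4])]) .no (.use
  40) (.use 38) .no) (.red [.f 1074 3 1, .f 1081 1 5] 151 135 [1] [(151, 135, [1])]) (.br 945 (.br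
  826 .no (.use 69) (.red [.f 826 3 1, .f 825 1 5, .t 1073 2 3, .f 944 3 5, .t 1088 4 2, .t 961 4
  2] 136 136 [] [(135, 119, [1]), (136, 136, [])]) (.use 58) (.br 1075 (.red [.t 1074 3 1, .f 1081
  1 5] 151 135 [1] [(151, 135, [1])]) (.con 135 [4]) .no (.use 49) .no .no) .no) (.red [.f 817 1
  3] 119 120 [4] [(119, 120, [4])]) .no (.use 59) (.br 1075 (.red [.t 1074 3 1, .f 1081 1 5] 151
  135 [1] [(151, 135, [1])]) (.br 826 .no (.use 69) (.br 816 .no (.red [.f 688 1 3] 103 120 [4, 2]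
  [(103, 120, [4, 2])]) .no (.br 827 .no (.use 44) (.hor [.f 826 3 5] []) (.con 120 [2, 4]) .no
  .no) (.red [.t 952 4 2] 119 120 [4] [(119, 120, [4])]) .no) (.use 60) (.br 816 .no (.red [.f 688
  1 3] 103 104 [4] [(103, 104, [4])]) .no (.br 818 .no (.use 45) .no (.use 46) (.red [.f 818 5 3,
  .t 825 1 4] 119 120 [4] [(119, 120, [4])]) (.red [.f 817 5 1, .f 817 1 3] 119 120 [4] [(119,
  120, [4])])) (.red [.t 952 4 2] 119 120 [4] [(119, 120, [4])]) .no) .no) .no (.use 63) .no .no)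
  .no) .no) (.use 77) (.red [.f 816 3 1, .f 824 1 5] 119 120 [4] [(119, 120, [4])]) .no .no) .no
  .no .no) .no .no .no) .no .no .no) .no (.hor [.f 944 3 5] []) .no .no

def f21t79 : Tr4 :=
  .br 1082 (.br 1081 (.hor [.f 1081 1 5] []) (.con 135 [3]) .no (.con 151 [2, 3]) .no .no) .no
  (.con 152 [2]) (.br 1081 (.br 1091 (.br 1090 (.hor [.f 1090 1 5] []) .no (.br 952 .no (.br 953
  .no (.hor [.f 824 1 5] []) .no (.con 119 [3, 1]) .no .no) (.con 120 [1]) (.use 78) (.red [.t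
  1088 4 2, .f 953 3 5] 136 136 [] [(136, 136, [])]) .no) .no .no .no) (.con 137 [4]) (.br 1090
  (.con 153 [2, 4]) .no (.hor [.f 1090 3 5] []) .no .no .no) .no .no (.red [.t 954 3 1, .f 961 1
  5] 136 136 [] [(136, 136, [])])) (.con 135 [3]) .no (.hor [.f 1073 3 5] []) .no .no) .no (.red
  [.t 961 1 4, .f 954 1 5] 136 136 [] [(136, 136, [])])

def f21l3 : List Tr4 :=
  [f21t78, f21t79]

theorem f21k3 : chkLF ⟨4, 0, 0, false, -4⟩ false 1 f21N 78 f21l3 = true := by decide +kernel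

end Pool.Agent.FT4D
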