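import Pool.Agent.FT4D.Tab_f22

/-!
# Four levels: decision trees (found by a computer search)
-/

namespace Pool.Agent.FT4D

def f22t0 : Tr4 :=
  .br 833 .no (.hor [.f 704 1 5] []) (.con 120 [2, 3]) .no .no .no

def f22t1 : Tr4 :=
  .br 1096 (.con 137 [3]) (.hor [.f 968 1 5] []) (.con 137 [3]) .no .no .no

def f22t2 : Tr4 :=
  .br 1211 (.hor [.f 1210 1 5] []) .no .no (.con 168 [4]) .no .no

def f22t3 : Tr4 :=
  .br 1066 (.con 135 [4, 1]) (.con 135 [4, 1]) (.hor [.f 1066 3 5] []) (.con 135 [4, 1]) .no (.con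
  135 [4, 1])

def f22t4 : Tr4 :=
  .br 817 .no (.con 120 [4, 2, 4]) .no (.hor [.f 809 3 5] []) .no .no

def f22t5 : Tr4 :=
  .br 938 (.con 135 [4, 4]) .no .no (.hor [.f 929 3 5] []) .no .no

def f22t6 : Tr4 :=
  .br 1064 (.br 1195 (.con 149 [3]) (.hor [.f 1066 1 5] []) .no (.con 149 [3]) .no .no) .no .no
  (.hor [.f 1056 3 5] []) .no .no

def f22t7 : Tr4 :=
  .br 1201 (.hor [.f 1200 1 5] []) .no .no (.use 6) .no .no

def f22t8 : Tr4 :=
  .br 1065 (.hor [.f 1065 1 5] []) .no .no (.br 1203 (.use 7) .no .no (.red [.t 1194 2 3, .t 1073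
  2 4] 134 135 [4] [(134, 135, [4]), (150, 149, [3])]) .no .no) .no (.red [.t 944 4 1] 134 135 [4]
  [(134, 135, [4])])

def f22t9 : Tr4 :=
  .br 1065 (.br 1064 (.hor [.f 1064 1 5] []) .no .no (.con 135 [4, 1, 4]) .no .no) .no .no (.hor
  [.f 1057 3 5] []) .no (.red [.t 944 4 1] 134 135 [4] [(134, 135, [4])])

def f22t10 : Tr4 :=
  .br 937 (.red [.f 937 1 3, .f 936 3 5] 134 135 [4] [(134, 135, [4])]) (.con 135 [2, 4, 4]) .no
  (.use 5) (.br 1066 (.use 8) .no .no (.use 9) (.hor [.f 1066 5 3, .f 939 3 1, .t 1073 2 4, .f 936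
  3 5, .f 938 1 5] []) (.red [.f 937 5 1, .f 937 1 3] 134 135 [4] [(134, 135, [4])])) .no

def f22t11 : Tr4 :=
  .br 834 .no (.br 833 .no (.hor [.f 704 1 5] []) (.con 104 [3]) .no .no .no) (.red [.f 834 3 1,
  .f 834 1 5] 121 120 [3] [(121, 120, [3])]) (.use 0) .no (.br 947 (.con 135 [4]) (.br 827 .no
  (.br 826 .no (.hor [.f 698 1 5] []) .no (.red [.f 818 3 1, .f 818 1 5] 119 103 [1] [(119, 103,
  [1])]) .no .no) .no .no .no (.red [.t 946 3 2, .f 825 1 5] 119 120 [4] [(119, 120, [4])])) .no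
  (.br 826 .no (.br 827 .no (.hor [.f 698 1 5] []) .no (.br 818 .no (.red [.f 690 1 3] 103 104 [4]
  [(103, 104, [4])]) .no (.br 824 .no (.con 104 [4]) .no (.use 4) .no .no) .no (.red [.t 953 2 4]
  119 120 [4] [(119, 120, [4])])) .no .no) .no (.red [.f 818 3 1, .f 825 1 5] 119 120 [4] [(119,
  120, [4])]) (.br 819 .no (.br 818 .no (.hor [.f 690 1 5] []) .no (.br 944 .no (.con 120 [4, 4])
  .no (.br 824 .no (.br 816 .no (.red [.f 688 1 3] 103 104 [4] [(103, 104, [4])]) .no (.con 104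
  [4, 4]) (.con 104 [4, 4]) .no) .no (.br 817 .no (.con 103 [4]) .no (.hor [.f 809 3 5] []) .no
  .no) .no .no) .no .no) .no (.red [.t 953 2 4] 119 120 [4] [(119, 120, [4])])) .no (.red [.f 811
  3 1, .t 946 3 2] 119 120 [4] [(118, 120, [4, 4]), (119, 120, [4])]) .no (.red [.f 818 5 3, .f
  818 3 1] 119 120 [4] [(119, 120, [4])])) .no) .no .no)

def f22t12 : Tr4 :=
  .br 707 .no (.hor [.f 578 1 5] []) (.con 89 [4]) (.con 89 [4]) .no .no

def f22t13 : Tr4 :=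
  .br 707 .no (.hor [.f 578 1 5] []) (.con 89 [4, 4]) (.con 89 [4, 4]) .no .no

def f22t14 : Tr4 :=
  .br 938 (.con 120 [4, 4, 4, 1]) (.red [.t 954 4 1, .f 945 1 5, .t 809 3 1, .f 817 1 3] 119 120
  [4] [(118, 120, [4, 4]), (119, 120, [4]), (135, 119, [1])]) .no (.hor [.f 929 3 5] []) (.con 120
  [4, 4, 1]) .no

def f22t15 : Tr4 :=
  .br 1066 (.use 8) .no .no (.use 9) (.red [.f 1066 5 3, .t 1073 2 4] 134 135 [4] [(134, 135,
  [4])]) (.red [.f 937 5 1, .f 937 1 3] 134 135 [4] [(134, 135, [4])])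

def f22t16 : Tr4 :=
  .br 944 .no (.con 120 [4, 4]) .no (.br 937 (.red [.f 937 1 3, .f 936 3 5] 134 135 [4] [(134,
  135, [4])]) .no .no (.use 14) (.use 15) .no) .no .no

def f22t17 : Tr4 :=
  .br 827 .no (.red [.t 826 3 2, .f 705 1 5] 104 120 [2] [(104, 120, [2])]) .no (.br 699 .no (.br
  698 .no (.hor [.f 570 1 5] []) .no (.br 817 .no (.con 120 [2, 4, 2]) .no (.use 16) (.red [.t 953
  2 4] 119 120 [4] [(119, 120, [4])]) (.con 120 [4, 2])) .no (.red [.t 833 2 4] 104 120 [2] [(104,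
  120, [2])])) .no (.red [.f 691 3 1, .t 826 3 2] 104 120 [2] [(103, 120, [2, 4]), (104, 120,
  [2])]) .no (.red [.f 698 5 3, .f 698 3 1] 104 120 [2] [(104, 120, [2])])) .no .no

def f22t18 : Tr4 :=
  .br 824 .no .no .no .no .no .no

def f22t19 : Tr4 :=
  .br 816 .no (.hor [.f 688 1 5] []) (.br 818 .no (.hor [.f 689 1 5] []) .no (.con 88 [4, 1, 4])
  (.con 88 [4, 1, 4]) .no) (.br 818 .no (.hor [.f 689 1 5] []) .no (.con 88 [4, 1, 4]) (.con 88
  [4, 1, 4]) .no) .no .no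

def f22t20 : Tr4 :=
  .br 827 .no .no .no (.con 120 [4, 2]) .no .no

def f22t21 : Tr4 :=
  .br 1066 (.red [.f 929 3 1, .f 937 1 3] 134 135 [4] [(133, 149, [2]), (134, 135, [4])]) (.red
  [.f 929 3 1, .f 937 1 3] 134 135 [4] [(133, 149, [2]), (134, 135, [4])]) .no (.hor [.f 1057 3 5]
  []) (.red [.f 929 3 1, .f 937 1 3] 134 135 [4] [(133, 149, [2]), (134, 135, [4])]) .no

def f22t22 : Tr4 :=
  .br 827 .no .no .no (.use 14) .no .no

def f22t23 : Tr4 :=
  .br 818 .no (.use 20) .no .no (.red [.t 938 2 3] 118 120 [4, 4] [(118, 120, [4, 4])]) .no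

def f22t24 : Tr4 :=
  .br 817 .no (.use 19) .no (.use 22) (.red [.t 953 2 4] 119 120 [4] [(119, 120, [4])]) (.br 938
  .no (.br 939 (.con 117 [3, 1]) (.hor [.f 810 1 5] []) (.use 23) (.con 117 [1]) .no .no) .no
  (.hor [.f 929 3 5] []) (.br 827 .no .no .no (.con 120 [4, 2]) .no .no) .no)

def f22t25 : Tr4 :=
  .br 1066 (.hor [.f 1065 1 5] []) (.con 135 [4, 1, 4]) .no (.con 135 [4, 1, 4]) (.con 135 [4, 4,
  1]) .no

def f22t26 : Tr4 :=
  .br 938 (.con 135 [2, 4, 4]) (.hor [.f 809 1 5] []) .no (.con 135 [2, 4, 4]) (.con 135 [2, 4,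
  4]) .no

def f22t27 : Tr4 :=
  .br 579 (.hor [.f 578 1 5] []) (.con 89 [4, 1]) (.con 89 [4, 1]) (.con 89 [4, 1]) .no .no

def f22t28 : Tr4 :=
  .br 698 .no (.br 699 (.con 87 [3, 1]) (.hor [.f 570 1 5] []) (.red [.f 570 1 3] 88 87 [3] [(88,
  87, [3])]) (.con 87 [1]) .no .no) .no (.hor [.f 689 3 5] []) (.use 27) .no

def f22t29 : Tr4 :=
  .br 697 .no (.br 698 .no (.hor [.f 569 1 5] []) .no (.use 13) (.br 944 .no (.use 18) .no (.br
  937 (.red [.f 937 1 3, .f 936 3 5] 134 135 [4] [(134, 135, [4])]) (.br 817 .no (.use 19) .no .no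
  (.red [.t 953 2 4] 119 120 [4] [(119, 120, [4])]) (.br 818 .no (.use 20) .no (.red [.t 936 3 2,
  .f 809 3 5, .t 953 2 4] 119 120 [4] [(118, 117, [3]), (119, 120, [4])]) (.br 938 (.con 120 [4,
  4, 4]) (.hor [.f 809 1 5] []) .no (.con 120 [4, 4, 4]) (.con 120 [4, 4, 4]) .no) .no)) .no (.br
  1064 (.br 1065 (.hor [.f 1064 1 5] []) .no .no (.use 21) (.use 24) .no) .no .no (.br 1065 (.use
  25) .no .no (.hor [.f 1056 3 5] []) (.use 24) .no) (.red [.t 944 4 1] 134 135 [4] [(134, 135,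
  [4])]) .no) (.use 15) .no) .no .no) .no) .no (.use 28) (.red [.t 833 2 4, .f 696 3 5] 104 105
  [4] [(104, 105, [4])]) .no

def f22t30 : Tr4 :=
  .br 817 .no .no .no (.br 816 (.br 818 .no (.red [.t 954 4 1, .t 834 4 1, .f 825 1 5, .t 689 3 1,
  .f 697 1 3] 104 105 [4] [(103, 87, [1]), (104, 105, [4]), (120, 104, [1]), (135, 119, [1])]) .no
  (.hor [.f 809 3 5] []) (.con 120 [4, 4]) .no) (.red [.f 688 1 3, .f 688 3 5] 103 87 [1] [(103,
  87, [1])]) .no (.hor [.f 808 3 5] []) .no .no) (.red [.t 953 2 4] 119 120 [4] [(119, 120, [4])])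
  (.red [.t 696 1 4] 103 87 [1] [(103, 87, [1])])

def f22t31 : Tr4 :=
  .br 697 .no (.hor [.f 569 1 5] []) .no (.use 30) .no .no

def f22t32 : Tr4 :=
  .br 697 .no (.hor [.f 569 1 5] []) .no (.hor [.f 688 3 5] []) .no .no

def f22t33 : Tr4 :=
  .br 824 .no .no .no .no .no .no

def f22t34 : Tr4 :=
  .br 824 .no .no .no .no .no .no

def f22t35 : Tr4 :=
  .br 818 .no (.hor [.f 689 1 5] []) .no .no (.red [.t 938 2 3] 118 135 [2, 4] [(118, 135, [2,
  4])]) .no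

def f22t36 : Tr4 :=
  .br 938 .no (.br 947 .no (.dom 119 103 [1]) .no (.use 35) .no .no) .no (.hor [.f 929 3 5] [])
  (.br 818 .no (.hor [.f 689 1 5] []) .no (.br 819 (.dom 119 103 [1]) (.con 103 [4]) (.con 120 [2,
  4, 4]) (.con 103 [4, 1, 1]) .no .no) (.con 103 [4, 1, 1]) .no) .no

def f22t37 : Tr4 :=
  .br 818 .no (.hor [.f 689 1 5] []) .no (.con 120 [4, 2, 4]) (.con 120 [4, 2, 4]) .no

def f22t38 : Tr4 :=
  .br 816 .no (.hor [.f 688 1 5] []) (.use 36) (.use 37) .no .no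

def f22t39 : Tr4 :=
  .br 818 .no (.br 816 .no (.con 102 [1, 1]) (.con 102 [1, 1]) (.hor [.f 808 3 5] []) .no .no) .no
  (.hor [.f 809 3 5] []) (.con 135 [2, 4, 1]) .no

def f22t40 : Tr4 :=
  .br 938 .no (.br 939 (.con 117 [3, 1]) (.hor [.f 810 1 5] []) (.red [.t 954 4 1, .f 945 1 5, .t
  809 3 1, .f 817 1 3] 119 120 [4] [(118, 117, [3]), (119, 120, [4]), (135, 119, [1])]) (.con 117
  [1]) .no .no) .no (.hor [.f 929 3 5] []) (.use 39) .no

def f22t41 : Tr4 :=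
  .br 817 .no (.use 38) .no (.use 40) (.red [.t 953 2 4] 119 120 [4] [(119, 120, [4])]) (.use 34)

def f22t42 : Tr4 :=
  .br 944 .no (.use 33) .no (.br 937 (.red [.f 937 1 3, .f 936 3 5] 134 135 [4] [(134, 135, [4])])
  (.br 818 .no (.br 817 .no (.hor [.f 689 1 5] []) .no .no .no (.use 34)) .no (.br 824 .no .no .no
  (.red [.t 954 4 1, .f 945 1 5, .t 809 1 3, .f 936 3 5, .t 824 4 1] 119 120 [4] [(118, 117, [3]),
  (119, 120, [4]), (135, 119, [1])]) .no .no) (.use 26) (.red [.t 953 2 4] 119 120 [4] [(119, 120,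
  [4])])) .no (.br 1064 (.br 1065 (.hor [.f 1064 1 5] []) .no .no (.use 21) (.use 41) .no) .no .no
  (.br 1065 (.use 25) .no .no (.hor [.f 1056 3 5] []) (.use 41) .no) (.red [.t 944 4 1] 134 135
  [4] [(134, 135, [4])]) .no) (.use 15) .no) .no .no

def f22t43 : Tr4 :=
  .br 810 .no (.con 120 [4, 2, 4, 1]) (.hor [.f 809 3 5] []) (.con 120 [4, 2, 4, 1]) (.con 120 [4,
  2, 4, 1]) .no

def f22t44 : Tr4 :=
  .br 817 .no (.con 120 [4, 2, 4]) .no (.br 936 (.br 937 (.hor [.f 936 1 5] []) .no .no (.br 938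
  (.con 135 [4, 4]) (.con 120 [4, 2, 4, 1]) .no (.hor [.f 929 3 5] []) (.con 135 [4, 4]) .no)
  (.use 43) .no) (.red [.f 808 1 3, .f 808 3 5] 118 120 [4, 4] [(118, 120, [4, 4])]) .no (.br 937
  (.red [.f 937 1 3] 134 135 [4] [(134, 135, [4])]) .no .no (.hor [.f 928 3 5] []) (.use 43) .no)
  (.red [.t 816 1 4] 118 120 [4, 4] [(118, 120, [4, 4])]) .no) (.red [.t 953 2 4] 119 120 [4]
  [(119, 120, [4])]) .no

def f22t45 : Tr4 :=
  .br 817 .no (.con 120 [4, 2, 4]) .no (.hor [.f 808 3 5] []) (.red [.t 953 2 4] 119 120 [4]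
  [(119, 120, [4])]) .no

def f22t46 : Tr4 :=
  .br 697 .no (.con 105 [4, 2, 4]) .no (.hor [.f 689 3 5] []) .no .no

def f22t47 : Tr4 :=
  .br 697 .no (.con 105 [4, 2, 4]) .no (.hor [.f 688 3 5] []) .no .no

def f22t48 : Tr4 :=
  .br 827 .no .no .no (.use 16) .no .no

def f22l0 : List Tr4 :=
  [f22t0, f22t1, f22t2, f22t3, f22t4, f22t5, f22t6, f22t7, f22t8, f22t9, f22t10, f22t11, f22t12,
  f22t13, f22t14, f22t15, f22t16, f22t17, f22t18, f22t19, f22t20, f22t21, f22t22, f22t23, f22t24,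
  f22t25, f22t26, f22t27, f22t28, f22t29, f22t30, f22t31, f22t32, f22t33, f22t34, f22t35, f22t36,
  f22t37, f22t38, f22t39, f22t40, f22t41, f22t42, f22t43, f22t44, f22t45, f22t46, f22t47, f22t48]

theorem f22k0 : chkLF ⟨4, 0, 0, false, -4⟩ false 2 f22N 0 f22l0 = true := by decide +kernel

def f22t49 : Tr4 :=
  .br 698 .no (.br 696 (.use 31) (.red [.f 568 1 3] 88 105 [4, 2] [(88, 105, [4, 2])]) .no (.use
  32) (.use 42) .no) .no (.br 696 (.use 46) (.red [.f 568 1 3] 88 105 [4, 2] [(88, 105, [4, 2])])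
  .no (.use 47) (.use 42) .no) (.br 696 (.con 105 [4, 4]) (.red [.f 568 1 3] 88 105 [4, 2] [(88,
  105, [4, 2])]) .no (.br 824 .no .no .no (.br 817 .no (.con 105 [4, 4, 2]) .no (.use 48) (.red
  [.t 953 2 4, .f 816 3 5] 119 120 [4] [(119, 120, [4])]) .no) .no .no) (.use 42) .no) (.red [.t
  833 2 4] 104 105 [4] [(104, 105, [4])])

def f22t50 : Tr4 :=
  .br 824 .no .no .no .no .no .no

def f22t51 : Tr4 :=
  .br 817 .no (.use 38) .no (.use 40) (.red [.t 953 2 4] 119 120 [4] [(119, 120, [4])]) (.use 50)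

def f22t52 : Tr4 :=
  .br 1064 (.br 1065 (.hor [.f 1064 1 5] []) .no .no (.use 21) (.use 51) .no) .no .no (.br 1065
  (.use 25) .no .no (.hor [.f 1056 3 5] []) (.use 51) .no) (.red [.t 944 4 1] 134 135 [4] [(134,
  135, [4])]) .no

def f22t53 : Tr4 :=
  .br 817 .no (.hor [.f 688 1 5] []) .no .no (.red [.t 953 2 4] 119 120 [4] [(119, 120, [4])]) .no

def f22t54 : Tr4 :=
  .br 818 .no .no .no (.red [.t 954 4 1, .f 945 1 5, .t 809 1 3, .f 936 3 5, .t 824 4 1] 119 120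
  [4] [(118, 117, [3]), (119, 120, [4]), (135, 119, [1])]) (.use 26) (.red [.t 953 2 4, .f 816 3
  5] 119 120 [4] [(119, 120, [4])])

def f22t55 : Tr4 :=
  .br 690 (.hor [.f 689 1 5] []) (.con 120 [2, 4, 4]) .no (.con 120 [2, 4, 4]) (.con 120 [2, 4,
  4]) .no

def f22t56 : Tr4 :=
  .br 698 .no (.br 944 .no (.use 18) .no (.br 937 (.red [.f 937 1 3, .f 936 3 5] 134 135 [4]
  [(134, 135, [4])]) (.br 697 .no (.hor [.f 569 1 5] []) .no (.br 818 .no (.red [.t 954 4 1, .t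
  834 4 1, .f 825 1 5, .t 689 3 1, .f 697 1 3] 104 105 [4] [(103, 87, [1]), (104, 105, [4]), (120,
  104, [1]), (135, 119, [1])]) .no (.br 816 .no (.br 947 .no (.con 118 [2, 3]) .no (.con 120 [4,
  4, 4]) .no .no) (.red [.t 954 4 1, .f 945 1 5, .t 809 1 3, .f 936 3 5, .t 824 4 1] 119 120 [4]
  [(118, 117, [3]), (119, 120, [4]), (135, 119, [1])]) (.br 819 (.con 118 [2]) (.con 118 [2])
  (.con 118 [2]) (.con 120 [4, 4, 2]) .no .no) (.red [.t 936 3 2, .f 809 3 5, .t 953 2 4] 119 120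
  [4] [(118, 117, [3]), (119, 120, [4])]) .no) (.use 26) (.red [.t 953 2 4] 119 120 [4] [(119,
  120, [4])])) .no .no) .no (.use 52) (.use 15) .no) .no .no) .no (.br 944 .no (.use 18) .no (.br
  937 (.red [.f 937 1 3, .f 936 3 5] 134 135 [4] [(134, 135, [4])]) (.br 816 .no (.use 53) (.use
  54) (.use 45) (.use 50) .no) .no (.use 52) (.use 15) .no) .no .no) (.br 817 .no (.br 816 (.use
  18) (.hor [.f 688 1 5] []) (.use 55) (.use 37) .no .no) .no (.use 48) (.red [.t 953 2 4] 119 120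
  [4] [(119, 120, [4])]) (.use 50)) (.red [.t 833 2 4, .f 696 3 5] 104 105 [4] [(104, 105, [4])])

def f22t57 : Tr4 :=
  .br 704 .no (.use 49) (.red [.f 704 3 1, .f 704 1 5, .t 952 3 2, .f 825 3 5, .t 969 2 4, .t 840
  2 4] 121 105 [1] [(120, 104, [1]), (121, 105, [1])]) (.use 56) .no .no

def f22t58 : Tr4 :=
  .br 706 .no (.br 704 .no (.use 12) (.red [.f 704 3 1, .f 704 1 5, .t 952 3 2, .f 825 3 5, .t 969
  2 4, .t 840 2 4] 121 105 [1] [(120, 104, [1]), (121, 105, [1])]) (.use 29) .no .no) (.use 57)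
  (.red [.f 698 3 1, .f 705 1 5] 104 105 [4] [(104, 105, [4])]) (.use 17) .no

def f22t59 : Tr4 :=
  .br 843 .no (.con 105 [3]) (.hor [.f 842 3 5] []) .no .no .no

def f22t60 : Tr4 :=
  .br 842 .no (.hor [.f 713 1 5] []) (.br 706 .no (.br 704 .no (.use 12) (.use 59) (.use 29) .no
  .no) (.br 704 .no (.use 49) (.use 59) (.use 56) .no .no) (.red [.f 698 3 1, .f 705 1 5] 104 105
  [4] [(104, 105, [4])]) (.use 17) .no) .no (.red [.t 962 3 2] 121 105 [1] [(121, 105, [1])]) .no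

def f22t61 : Tr4 :=
  .br 824 .no (.br 699 (.br 689 .no (.con 105 [4, 4, 2]) (.hor [.f 689 3 5] []) (.con 105 [4, 4,
  2]) .no (.con 105 [4, 4, 2])) (.con 105 [4, 4]) (.con 105 [2, 4]) (.con 105 [4, 4]) .no .no) .no
  .no .no .no

def f22t62 : Tr4 :=
  .br 704 .no (.use 12) (.use 61) (.use 29) .no .no

def f22t63 : Tr4 :=
  .br 824 .no (.red [.f 688 1 3] 103 120 [4, 2] [(103, 120, [4, 2])]) .no .no .no .no

def f22t64 : Tr4 :=
  .br 817 .no (.use 36) .no (.use 40) (.red [.t 953 2 4, .f 816 3 5] 119 120 [4] [(119, 120,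
  [4])]) .no

def f22t65 : Tr4 :=
  .br 1064 (.br 1065 (.hor [.f 1064 1 5] []) .no .no (.use 21) (.use 64) .no) .no .no (.br 1065
  (.use 25) .no .no (.hor [.f 1056 3 5] []) (.use 64) .no) (.red [.t 944 4 1] 134 135 [4] [(134,
  135, [4])]) .no

def f22t66 : Tr4 :=
  .br 827 .no .no .no (.con 135 [2, 2]) .no .no

def f22t67 : Tr4 :=
  .br 698 .no (.br 696 (.use 31) (.red [.f 570 1 3] 88 105 [4, 2] [(88, 105, [4, 2])]) (.use 29)
  (.use 32) (.use 42) .no) .no (.br 944 .no (.use 44) .no (.br 937 (.red [.f 937 1 3, .f 936 3 5]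
  134 135 [4] [(134, 135, [4])]) (.br 816 .no (.use 53) (.use 54) (.use 45) (.use 62) .no) .no
  (.br 816 .no (.use 63) (.use 65) (.use 45) (.use 62) .no) (.use 15) .no) .no .no) (.br 817 .no
  (.br 816 (.br 704 .no (.use 12) (.br 696 (.con 105 [4, 4]) (.br 569 (.hor [.f 568 1 5] []) (.con
  105 [4, 4, 2, 3]) (.con 105 [4, 4, 2, 3]) (.con 105 [4, 4, 2, 3]) (.con 105 [4, 4, 2, 3]) .no)
  .no (.con 105 [4, 4, 2]) (.use 33) .no) (.use 18) .no .no) (.use 63) (.use 55) (.use 37) .no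
  .no) .no (.use 48) (.red [.t 953 2 4] 119 120 [4] [(119, 120, [4])]) (.use 66)) (.red [.t 833 2
  4] 104 105 [4] [(104, 105, [4])])

def f22t68 : Tr4 :=
  .br 696 (.br 698 .no (.use 31) .no (.con 105 [4, 2, 4]) (.con 105 [4, 4]) .no) (.hor [.f 568 1
  5] []) .no (.br 698 .no (.use 32) .no (.con 105 [4, 2, 4]) (.con 105 [4, 2, 4]) .no) .no .no

def f22t69 : Tr4 :=
  .br 569 .no (.br 707 .no (.con 105 [2]) (.hor [.f 706 3 5] []) (.con 87 [3]) .no .no) (.red [.t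
  705 1 3, .t 569 3 1, .f 698 3 1, .f 706 1 3] 88 72 [1] [(88, 72, [1]), (104, 105, [4])]) (.red
  [.f 561 3 1, .f 569 1 5, .t 833 2 4] 104 105 [4] [(87, 71, [1]), (104, 105, [4])]) .no .no

def f22t70 : Tr4 :=
  .br 704 .no (.use 49) (.br 697 .no (.use 68) .no (.br 696 (.br 698 .no (.use 30) .no (.hor [.f
  689 3 5] []) (.con 105 [4, 4]) .no) (.br 698 .no (.use 69) .no (.hor [.f 689 3 5] []) (.br 817
  .no .no .no (.use 48) (.red [.t 953 2 4] 119 120 [4] [(119, 120, [4])]) (.use 66)) .no) .no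
  (.hor [.f 688 3 5] []) .no .no) (.red [.f 704 3 1, .f 704 1 3, .t 833 2 4] 104 105 [4] [(104,
  105, [4])]) (.use 42)) (.use 56) .no .no

def f22t71 : Tr4 :=
  .br 841 .no (.use 60) (.red [.f 841 3 1] 122 105 [1, 3] [(122, 105, [1, 3])]) .no (.br 706 .no
  (.use 67) (.use 70) (.red [.f 698 3 1, .f 705 1 5] 104 105 [4] [(104, 105, [4])]) (.use 17) .no)
  .no

def f22t72 : Tr4 :=
  .br 842 .no .no (.hor [.f 841 3 5] []) .no (.red [.t 962 3 2] 121 120 [3] [(121, 120, [3])]) .no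

def f22t73 : Tr4 :=
  .br 706 .no (.use 67) (.br 841 .no (.use 60) (.use 72) .no (.use 70) .no) (.red [.f 698 3 1, .f
  705 1 5] 104 105 [4] [(104, 105, [4])]) (.use 17) .no

def f22t74 : Tr4 :=
  .br 827 .no .no .no (.con 135 [2, 2]) .no .no

def f22t75 : Tr4 :=
  .br 827 .no .no .no (.red [.t 818 2 3] 103 135 [2, 2] [(103, 135, [2, 2])]) .no .no

def f22t76 : Tr4 :=
  .br 817 .no (.con 120 [2, 4, 2]) .no (.br 816 (.use 74) .no (.br 818 .no (.use 75) .no (.hor [.f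
  809 3 5] []) (.con 120 [2, 4, 1]) .no) (.hor [.f 808 3 5] []) .no .no) (.red [.t 953 2 4] 119
  120 [4] [(119, 120, [4])]) (.use 66)

def f22t77 : Tr4 :=
  .br 939 (.hor [.f 938 1 5] []) (.con 135 [4, 4]) (.con 135 [4, 4]) (.con 135 [4, 4]) .no .no

def f22t78 : Tr4 :=
  .br 1201 (.con 167 [4]) .no .no (.hor [.f 1192 3 5] []) .no .no

def f22t79 : Tr4 :=
  .br 944 .no .no .no (.red [.t 944 4 1] 134 135 [4] [(134, 135, [4])]) .no .no

def f22t80 : Tr4 :=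
  .br 1065 (.con 135 [4, 1, 4]) (.hor [.f 937 1 5] []) .no (.use 77) .no (.use 79)

def f22t81 : Tr4 :=
  .br 1065 (.con 135 [4, 1, 4]) (.red [.f 937 1 3] 134 135 [4] [(134, 135, [4])]) .no (.hor [.f
  1057 3 5] []) .no (.use 79)

def f22t82 : Tr4 :=
  .br 1203 (.use 78) .no .no (.br 1066 (.red [.t 1194 2 3] 150 135 [4, 1] [(150, 135, [4, 1])])
  (.use 80) .no (.use 81) (.red [.f 1066 5 3, .f 1067 3 1] 150 135 [4, 1] [(150, 135, [4, 1])])
  (.br 818 .no (.hor [.f 689 1 5] []) .no (.br 819 (.dom 119 103 [1]) (.con 103 [4]) (.con 120 [2,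
  4, 4]) (.hor [.f 810 3 5] []) .no .no) (.br 947 .no .no .no (.br 938 .no (.use 35) .no (.br 937
  .no (.con 135 [4, 4, 2]) .no (.hor [.f 929 3 5] []) .no (.con 135 [4, 2])) .no (.red [.f 937 5
  1, .f 937 1 3] 134 135 [4] [(134, 135, [4])])) .no .no) .no)) .no .no

def f22t83 : Tr4 :=
  .br 1203 (.use 78) .no .no (.red [.t 1194 2 3, .t 1073 2 4] 134 135 [4] [(134, 135, [4]), (150,
  135, [4, 1])]) .no .no

def f22t84 : Tr4 :=
  .br 937 (.red [.f 937 1 3] 134 135 [4] [(134, 135, [4])]) .no .no (.br 938 (.use 80) (.red [.t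
  954 4 1, .f 945 1 5, .t 809 3 1, .f 817 1 3] 119 120 [4] [(118, 102, [1]), (119, 120, [4]),
  (135, 119, [1])]) .no (.hor [.f 929 3 5] []) (.br 936 (.con 135 [4, 4]) (.br 944 .no .no .no .no
  .no .no) (.use 39) (.hor [.f 928 3 5] []) .no .no) .no) (.br 1066 (.use 83) .no .no (.use 81)
  (.red [.f 1066 5 3, .t 1073 2 4] 134 135 [4] [(134, 135, [4])]) (.red [.f 937 5 1, .f 937 1 3]
  134 135 [4] [(134, 135, [4])])) (.br 947 .no (.con 135 [4, 2, 3]) .no (.con 135 [4, 2]) .no .no)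

def f22t85 : Tr4 :=
  .br 817 .no (.br 816 (.use 33) (.use 63) (.use 82) (.use 37) .no .no) .no (.br 816 (.use 33)
  (.use 63) (.use 84) (.hor [.f 808 3 5] []) .no .no) (.red [.t 953 2 4] 119 120 [4] [(119, 120,
  [4])]) (.use 34)

def f22t86 : Tr4 :=
  .br 696 (.br 698 .no (.use 31) .no (.use 46) (.con 105 [4, 4]) (.red [.t 833 2 4] 104 105 [4]
  [(104, 105, [4])])) (.red [.f 568 1 3] 88 105 [4, 2] [(88, 105, [4, 2])]) .no (.br 698 .no (.use
  32) .no (.use 47) (.use 76) (.red [.t 833 2 4] 104 105 [4] [(104, 105, [4])])) (.use 85) .no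

def f22l1 : List Tr4 :=
  [f22t49, f22t50, f22t51, f22t52, f22t53, f22t54, f22t55, f22t56, f22t57, f22t58, f22t59, f22t60,
  f22t61, f22t62, f22t63, f22t64, f22t65, f22t66, f22t67, f22t68, f22t69, f22t70, f22t71, f22t72,
  f22t73, f22t74, f22t75, f22t76, f22t77, f22t78, f22t79, f22t80, f22t81, f22t82, f22t83, f22t84,
  f22t85, f22t86]

theorem f22k1 : chkLF ⟨4, 0, 0, false, -4⟩ false 2 f22N 49 f22l1 = true := by decide +kernel

def f22t87 : Tr4 :=
  .br 698 .no (.use 32) .no (.use 47) (.use 76) (.red [.t 833 2 4] 104 105 [4] [(104, 105, [4])])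

def f22t88 : Tr4 :=
  .br 817 .no (.br 816 (.use 18) (.use 63) (.use 82) (.use 37) .no .no) .no (.br 816 (.use 18)
  (.use 63) (.use 84) (.hor [.f 808 3 5] []) .no .no) (.red [.t 953 2 4] 119 120 [4] [(119, 120,
  [4])]) (.use 50)

def f22t89 : Tr4 :=
  .br 704 .no (.br 706 .no (.use 12) (.use 86) (.red [.f 698 3 1, .f 705 1 5] 104 105 [4] [(104,
  105, [4])]) (.br 827 .no (.red [.t 826 3 2, .f 705 1 5] 104 105 [4] [(104, 105, [4])]) .no (.br
  696 (.con 105 [4, 4]) (.red [.f 568 1 3] 88 89 [4] [(88, 89, [4])]) .no (.use 87) (.use 85) .no)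
  .no .no) .no) (.red [.f 704 3 1, .f 704 1 5, .t 952 3 2, .f 825 3 5, .t 969 2 4, .t 840 2 4] 121
  105 [1] [(120, 104, [1]), (121, 105, [1])]) (.use 88) .no .no

def f22t90 : Tr4 :=
  .br 842 .no (.hor [.f 713 1 5] []) (.br 704 .no (.br 706 .no (.use 12) (.use 86) (.red [.f 698 3
  1, .f 705 1 5] 104 105 [4] [(104, 105, [4])]) (.br 827 .no (.red [.t 826 3 2, .f 705 1 5] 104
  105 [4] [(104, 105, [4])]) .no (.br 696 (.con 105 [4, 4]) (.red [.f 568 1 3] 88 89 [4] [(88, 89,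
  [4])]) .no (.use 87) (.use 85) .no) .no .no) .no) (.use 59) (.use 88) .no .no) .no (.red [.t 962
  3 2] 121 105 [1] [(121, 105, [1])]) .no

def f22t91 : Tr4 :=
  .br 827 .no (.br 696 (.use 31) (.red [.f 570 1 3] 88 87 [3] [(88, 87, [3])]) (.use 88) (.use 32)
  (.use 85) .no) .no (.br 699 .no (.hor [.f 570 1 5] []) (.red [.f 570 1 3] 88 89 [4] [(88, 89,
  [4])]) (.red [.f 691 3 1] 103 105 [4, 4] [(103, 105, [4, 4])]) .no .no) .no .no

def f22t92 : Tr4 :=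
  .br 696 (.use 31) (.br 704 .no (.use 86) (.br 697 .no (.use 68) .no (.use 69) .no .no) .no .no
  .no) (.use 88) (.use 32) (.use 85) .no

def f22t93 : Tr4 :=
  .br 827 .no (.red [.t 826 3 2, .f 705 1 5] 104 120 [2] [(104, 120, [2])]) .no (.br 699 .no (.hor
  [.f 570 1 5] []) .no (.red [.f 691 3 1, .t 826 3 2] 104 120 [2] [(103, 120, [2, 4]), (104, 120,
  [2])]) .no .no) .no .no

def f22t94 : Tr4 :=
  .br 817 .no (.use 82) .no (.use 84) (.red [.t 953 2 4, .f 816 3 5] 119 120 [4] [(119, 120,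
  [4])]) .no

def f22t95 : Tr4 :=
  .br 816 (.con 120 [4, 2]) (.con 120 [4, 2]) (.use 94) (.con 120 [4, 2]) (.con 120 [4, 2]) .no

def f22t96 : Tr4 :=
  .br 704 .no (.use 86) (.br 697 .no (.use 68) .no (.hor [.f 689 3 5] []) .no (.use 34)) (.use 50)
  .no .no

def f22t97 : Tr4 :=
  .br 706 .no (.br 816 (.use 44) (.use 63) (.use 94) (.use 45) (.br 704 .no (.use 12) (.use 61)
  (.use 50) .no .no) .no) (.br 816 (.use 44) (.use 63) (.use 94) (.use 45) (.use 96) .no) .no (.br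
  827 .no (.red [.t 826 3 2, .f 705 1 5] 104 105 [4] [(104, 105, [4])]) .no (.use 95) .no .no) .no

def f22t98 : Tr4 :=
  .br 1066 (.use 83) .no .no (.use 9) (.red [.f 1066 5 3, .t 1073 2 4] 134 135 [4] [(134, 135,
  [4])]) (.red [.f 937 5 1, .f 937 1 3] 134 135 [4] [(134, 135, [4])])

def f22t99 : Tr4 :=
  .br 818 .no (.use 75) .no (.br 816 (.use 74) (.use 63) (.use 94) (.br 944 .no .no .no (.br 819
  (.br 937 (.red [.f 937 1 3, .f 936 3 5] 134 118 [1] [(134, 118, [1])]) (.con 118 [2]) .no (.br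
  809 .no (.con 118 [2]) (.use 22) (.con 118 [2]) .no .no) (.use 98) .no) (.con 120 [2, 4, 4])
  (.con 120 [4, 2]) (.hor [.f 810 3 5] []) .no .no) .no .no) (.use 66) .no) (.br 816 (.con 120 [4,
  4]) (.use 63) (.con 120 [2, 4, 1]) (.br 809 (.con 120 [4, 4, 2]) (.con 120 [4, 4, 2]) (.hor [.f
  808 3 5] []) (.con 120 [4, 4, 2]) (.con 120 [4, 4, 2]) .no) (.use 66) .no) (.red [.t 953 2 4]
  119 120 [4] [(119, 120, [4])])

def f22t100 : Tr4 :=
  .br 841 .no (.use 90) (.red [.f 841 3 1] 122 105 [1, 3] [(122, 105, [1, 3])]) .no (.br 698 .no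
  (.br 706 .no (.use 91) (.use 92) .no (.use 93) .no) (.red [.f 698 3 1, .f 705 1 5] 104 105 [4]
  [(104, 105, [4])]) (.use 97) (.use 99) (.red [.t 833 2 4] 104 105 [4] [(104, 105, [4])])) .no

def f22t101 : Tr4 :=
  .br 706 .no (.use 91) (.br 841 .no (.use 90) (.use 72) .no (.use 92) .no) .no (.use 93) .no

def f22t102 : Tr4 :=
  .br 827 .no (.hor [.f 698 1 5] []) .no (.br 818 .no (.red [.f 690 1 3] 103 104 [4] [(103, 104,
  [4])]) .no (.br 816 (.con 120 [4, 2]) (.con 120 [4, 2]) (.use 4) (.con 120 [4, 2]) (.con 120 [4,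
  2]) .no) .no (.red [.t 953 2 4] 119 120 [4] [(119, 120, [4])])) .no .no

def f22t103 : Tr4 :=
  .br 937 (.red [.f 937 1 3, .f 936 3 5] 134 135 [4] [(134, 135, [4])]) (.con 135 [2, 4, 2]) .no
  (.use 5) (.use 98) .no

def f22t104 : Tr4 :=
  .br 819 .no (.br 936 (.con 135 [4, 2]) (.con 135 [4, 2]) (.br 818 .no (.hor [.f 690 1 5] []) .no
  (.br 1200 (.use 10) .no .no (.use 103) (.red [.t 1080 4 1] 151 135 [1] [(151, 135, [1])]) .no)
  .no (.red [.t 953 2 4] 119 120 [4] [(119, 120, [4])])) (.con 135 [4, 2]) (.con 135 [4, 2]) .no)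
  .no (.red [.f 811 3 1, .t 946 3 2] 119 120 [4] [(118, 120, [4, 4]), (119, 120, [4])]) .no (.red
  [.f 818 5 3, .f 818 3 1] 119 120 [4] [(119, 120, [4])])

def f22t105 : Tr4 :=
  .br 1075 (.dom 151 135 [1]) (.con 135 [4]) .no (.use 3) .no (.br 1211 (.br 1217 (.hor [.f 1217 1
  5] []) .no (.br 833 .no (.br 834 .no (.hor [.f 705 1 5] []) (.con 105 [1]) (.br 1200 (.br 1097
  .no (.use 1) (.br 1098 (.br 1096 (.con 153 [3]) (.br 969 .no (.use 58) (.use 71) .no .no .no)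
  (.hor [.f 1096 3 5] []) .no .no .no) .no (.hor [.f 1097 3 5] []) .no .no .no) .no (.br 969 .no
  (.use 58) (.use 71) .no .no (.red [.t 961 1 3, .t 825 1 3, .f 952 3 5, .f 960 5 3, .f 832 3 1]
  121 105 [1] [(120, 104, [1]), (121, 105, [1]), (137, 121, [1])])) (.br 969 .no (.use 58) (.use
  71) .no .no (.use 73))) .no .no (.br 1097 .no (.use 1) (.br 1098 (.br 1096 (.con 153 [3]) (.br
  969 .no (.use 89) (.use 100) .no .no .no) (.hor [.f 1096 3 5] []) .no .no .no) .no (.hor [.f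
  1097 3 5] []) .no .no .no) .no (.br 969 .no (.use 89) (.use 100) .no .no (.red [.t 961 1 3, .t
  825 1 3, .f 952 3 5, .f 960 5 3, .f 832 3 1] 121 105 [1] [(120, 104, [1]), (121, 105, [1]),
  (137, 121, [1])])) (.br 698 .no (.br 969 .no (.use 89) (.use 100) .no .no (.use 101)) (.red [.f
  698 3 1, .f 705 1 5] 104 105 [4] [(104, 105, [4])]) (.use 97) (.use 99) (.red [.t 833 2 4] 104
  105 [4] [(104, 105, [4])]))) (.red [.t 1080 4 1] 151 135 [1] [(151, 135, [1])]) .no) .no .no)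
  (.hor [.f 832 3 5] []) .no (.br 826 .no (.use 102) .no (.red [.f 818 3 1, .f 825 1 5] 119 120
  [4] [(119, 120, [4])]) (.br 947 .no (.red [.t 946 3 2, .f 825 1 5] 119 120 [4] [(119, 120,
  [4])]) .no (.use 104) .no .no) .no) .no) .no .no .no) .no .no (.hor [.f 1202 3 5] []) .no .no)

def f22t106 : Tr4 :=
  .br 1217 (.con 169 [4, 2, 2]) .no (.hor [.f 1217 3 5] []) .no .no .no

def f22t107 : Tr4 :=
  .br 944 .no (.br 827 .no (.hor [.f 698 1 5] []) .no (.con 135 [2, 2]) .no .no) .no (.hor [.f 936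
  3 5] []) .no .no

def f22t108 : Tr4 :=
  .br 690 (.hor [.f 689 1 5] []) (.con 120 [4, 2, 4]) .no (.con 120 [4, 2, 4]) (.con 120 [4, 2,
  4]) .no

def f22t109 : Tr4 :=
  .br 833 .no (.br 944 .no (.br 817 .no (.br 827 .no (.br 698 .no (.use 108) (.red [.f 698 3 1, .f
  698 1 5] 104 88 [1] [(104, 88, [1])]) (.con 120 [4, 2, 2]) .no (.red [.t 833 2 4, .f 698 1 5]
  104 105 [4] [(104, 105, [4])])) .no (.con 120 [4, 2]) .no .no) .no (.red [.f 809 3 1, .f 816 1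
  5] 118 134 [2] [(118, 134, [2])]) (.red [.t 953 2 4] 119 120 [4] [(119, 120, [4])]) .no) .no
  (.hor [.f 936 3 5] []) .no .no) (.hor [.f 832 3 5] []) .no .no .no

def f22t110 : Tr4 :=
  .br 690 (.hor [.f 689 1 5] []) (.con 135 [2, 2, 4]) .no (.con 135 [2, 2, 4]) (.con 135 [2, 2,
  4]) .no

def f22t111 : Tr4 :=
  .br 827 .no (.con 135 [2, 2, 3]) .no (.con 135 [2, 2]) .no .no

def f22t112 : Tr4 :=
  .br 842 .no (.hor [.f 713 1 5] []) (.br 944 .no (.br 817 .no (.br 698 .no (.use 108) (.red [.t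
  952 3 2, .f 698 3 1] 104 120 [2] [(104, 120, [2]), (120, 104, [1])]) (.con 120 [4, 2, 4]) (.use
  110) (.br 705 .no (.br 704 .no (.hor [.f 576 1 5] []) (.con 120 [2, 3, 3]) (.use 111) .no .no)
  .no .no (.red [.t 952 3 2, .f 697 5 3, .f 698 3 1] 104 120 [2] [(104, 120, [2]), (120, 104,
  [1])]) (.red [.f 704 5 1, .t 833 2 4] 104 120 [2] [(104, 120, [2])]))) .no (.red [.f 809 3 1, .f
  816 1 5] 118 134 [2] [(118, 134, [2])]) (.red [.t 953 2 4] 119 120 [4] [(119, 120, [4])]) .no)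
  .no (.hor [.f 936 3 5] []) .no .no) .no (.red [.t 962 3 2] 121 120 [3] [(121, 120, [3])]) .no

def f22t113 : Tr4 :=
  .br 704 .no (.hor [.f 576 1 5] []) (.br 706 .no (.hor [.f 577 1 5] []) (.con 120 [2, 2, 3]) .no
  (.con 120 [2, 2, 3]) .no) (.use 111) .no .no

def f22t114 : Tr4 :=
  .br 705 .no (.use 113) (.red [.f 832 5 3, .f 705 3 1, .t 833 2 4] 105 120 [2, 3] [(104, 120,
  [2]), (105, 120, [2, 3])]) .no (.red [.t 952 3 2, .f 697 5 3, .f 698 3 1] 104 120 [2] [(104,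
  120, [2]), (120, 104, [1])]) (.red [.f 704 5 1, .t 833 2 4] 104 120 [2] [(104, 120, [2])])

def f22t115 : Tr4 :=
  .br 944 .no (.br 817 .no (.br 698 .no (.use 108) (.red [.t 952 3 2, .f 698 3 1] 104 120 [2]
  [(104, 120, [2]), (120, 104, [1])]) (.con 120 [4, 2, 4]) (.use 110) (.use 114)) .no (.red [.f
  809 3 1, .f 816 1 5] 118 134 [2] [(118, 134, [2])]) (.red [.t 953 2 4] 119 120 [4] [(119, 120,
  [4])]) .no) .no (.hor [.f 936 3 5] []) .no .no

def f22t116 : Tr4 :=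
  .br 841 .no (.use 112) (.red [.f 841 3 1] 122 120 [3, 3] [(122, 120, [3, 3])]) .no (.red [.t 952
  3 2, .f 825 3 5, .f 833 5 3, .f 834 3 1] 121 120 [3] [(120, 104, [1]), (121, 120, [3])]) (.use
  115)

def f22t117 : Tr4 :=
  .br 706 .no (.br 944 .no (.br 817 .no (.br 698 .no (.use 108) .no (.con 120 [4, 2, 4]) (.use
  110) (.br 705 .no (.use 113) (.red [.t 952 3 2, .f 825 3 5, .t 713 4 1] 105 120 [2, 3] [(105,
  120, [2, 3]), (120, 104, [1])]) .no .no (.red [.f 704 5 1, .t 833 2 4] 104 120 [2] [(104, 120,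
  [2])]))) .no (.red [.f 809 3 1, .f 816 1 5] 118 134 [2] [(118, 134, [2])]) (.red [.t 953 2 4]
  119 120 [4] [(119, 120, [4])]) .no) .no (.hor [.f 936 3 5] []) .no .no) .no (.red [.f 698 3 1,
  .f 706 1 3] 105 120 [2, 3] [(104, 120, [2]), (105, 120, [2, 3])]) (.br 827 .no (.red [.t 826 3
  2, .f 706 1 3] 105 120 [2, 3] [(104, 120, [2]), (105, 120, [2, 3])]) .no (.br 944 .no (.con 120
  [4, 2]) .no (.hor [.f 936 3 5] []) .no .no) .no .no) (.red [.t 952 3 2, .f 825 3 5, .f 705 5 1,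
  .f 706 1 3] 105 120 [2, 3] [(105, 120, [2, 3]), (120, 104, [1])])

def f22l2 : List Tr4 :=
  [f22t87, f22t88, f22t89, f22t90, f22t91, f22t92, f22t93, f22t94, f22t95, f22t96, f22t97, f22t98,
  f22t99, f22t100, f22t101, f22t102, f22t103, f22t104, f22t105, f22t106, f22t107, f22t108,
  f22t109, f22t110, f22t111, f22t112, f22t113, f22t114, f22t115, f22t116, f22t117]

theorem f22k2 : chkLF ⟨4, 0, 0, false, -4⟩ false 2 f22N 87 f22l2 = true := by decide +kernel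

def f22t118 : Tr4 :=
  .br 841 .no (.use 112) (.br 842 .no (.use 117) (.hor [.f 841 3 5] []) .no (.red [.t 962 3 2] 121
  120 [3] [(121, 120, [3])]) .no) .no (.red [.t 952 3 2, .f 825 3 5, .f 833 5 3, .f 834 3 1] 121
  120 [3] [(120, 104, [1]), (121, 120, [3])]) (.use 115)

def f22t119 : Tr4 :=
  .br 936 (.con 134 [2]) (.con 134 [2]) (.hor [.f 936 3 5] []) (.con 134 [2]) .no .no

def f22t120 : Tr4 :=
  .br 936 (.con 135 [4, 2]) (.con 135 [4, 2]) (.hor [.f 936 3 5] []) (.con 135 [4, 2]) .no .no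

def f22t121 : Tr4 :=
  .br 947 (.use 120) (.red [.t 946 3 2, .f 825 1 5] 119 120 [4] [(119, 120, [4])]) .no (.use 119)
  .no .no

def f22t122 : Tr4 :=
  .br 824 .no (.br 827 .no (.hor [.f 698 1 5] []) .no (.con 104 [4]) .no .no) (.br 827 .no (.hor
  [.f 698 1 5] []) .no (.con 120 [2, 4]) .no .no) (.red [.t 824 4 1] 119 120 [4] [(119, 120,
  [4])]) .no .no

def f22t123 : Tr4 :=
  .br 824 .no (.br 816 .no (.red [.f 688 1 3] 103 120 [2, 4] [(103, 120, [2, 4])]) .no (.br 817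
  .no (.use 37) .no (.hor [.f 808 3 5] []) (.red [.t 953 2 4] 119 120 [4] [(119, 120, [4])]) .no)
  (.red [.f 816 5 1, .f 817 1 3] 119 120 [4] [(119, 120, [4])]) .no) (.con 120 [2]) (.red [.t 824
  4 1] 119 120 [4] [(119, 120, [4])]) .no .no

def f22t124 : Tr4 :=
  .br 817 .no (.hor [.f 689 1 5] []) .no (.hor [.f 808 3 5] []) .no .no

def f22t125 : Tr4 :=
  .br 818 .no (.use 124) .no (.br 819 .no (.con 120 [4, 2, 4]) .no (.hor [.f 810 3 5] []) .no .no)
  (.red [.f 818 5 3, .f 818 3 1] 119 120 [4] [(119, 120, [4])]) (.red [.t 953 2 4] 119 120 [4]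
  [(119, 120, [4])])

def f22t126 : Tr4 :=
  .br 816 .no (.red [.f 688 1 3] 103 104 [4] [(103, 104, [4])]) .no (.use 125) (.red [.f 816 5 1,
  .f 817 1 3] 119 120 [4] [(119, 120, [4])]) .no

def f22t127 : Tr4 :=
  .br 705 (.hor [.f 705 1 5] []) (.con 120 [2, 3]) (.con 120 [2, 3]) (.con 120 [2, 3]) .no (.con
  120 [2, 3])

def f22t128 : Tr4 :=
  .br 819 .no (.hor [.f 690 1 5] []) .no (.con 102 [3]) .no .no

def f22t129 : Tr4 :=
  .br 817 .no (.hor [.f 688 1 5] []) .no (.br 689 .no (.use 128) (.red [.f 824 3 1, .f 824 1 5, .t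
  688 1 3, .t 697 1 3] 104 120 [2] [(103, 87, [1]), (104, 120, [2]), (120, 104, [1])]) (.red [.f
  681 3 1, .f 688 1 5, .f 816 5 1, .f 817 1 3] 119 120 [4] [(102, 86, [1]), (119, 120, [4])]) .no
  .no) .no .no

def f22t130 : Tr4 :=
  .br 817 .no (.hor [.f 688 1 5] []) .no (.br 689 .no (.use 128) .no (.red [.f 681 3 1, .f 688 1
  5, .f 816 5 1, .f 817 1 3] 119 120 [4] [(102, 86, [1]), (119, 120, [4])]) .no .no) .no .no

def f22t131 : Tr4 :=
  .br 698 .no (.hor [.f 570 1 5] []) (.use 129) .no .no (.use 130)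

def f22t132 : Tr4 :=
  .br 699 .no (.use 131) (.br 706 .no (.con 120 [2, 2]) (.con 120 [2, 2]) (.use 129) .no .no)
  (.red [.t 690 1 3] 103 87 [1] [(103, 87, [1])]) .no (.red [.f 698 5 1, .f 690 1 3] 103 120 [2,
  4] [(103, 120, [2, 4])])

def f22t133 : Tr4 :=
  .br 817 .no (.hor [.f 688 1 5] []) .no (.hor [.f 809 3 5] []) .no .no

def f22t134 : Tr4 :=
  .br 818 .no (.use 132) .no (.use 133) (.red [.f 818 5 3, .f 818 3 1] 119 120 [4] [(119, 120,
  [4])]) (.red [.f 824 3 1, .f 824 1 3, .t 953 2 4] 119 120 [4] [(119, 120, [4])])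

def f22t135 : Tr4 :=
  .br 818 .no (.br 817 .no (.hor [.f 688 1 5] []) .no (.br 689 .no (.use 128) .no (.red [.f 681 3
  1, .f 688 1 5, .f 816 5 1, .f 817 1 3] 119 120 [4] [(102, 86, [1]), (119, 120, [4])]) .no .no)
  .no .no) .no (.use 133) (.red [.f 818 5 3, .f 818 3 1] 119 120 [4] [(119, 120, [4])]) (.red [.f
  824 3 1, .f 824 1 3, .t 953 2 4] 119 120 [4] [(119, 120, [4])])

def f22t136 : Tr4 :=
  .br 842 .no (.hor [.f 713 1 5] []) (.br 696 .no (.br 704 .no (.br 705 .no (.hor [.f 576 1 5] [])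
  .no (.red [.f 568 1 3, .f 696 3 1, .f 688 1 3] 88 120 [2, 2] [(88, 120, [2, 2]), (103, 120, [2,
  4]), (104, 120, [2])]) (.red [.f 568 1 3, .f 696 3 1, .f 688 1 3] 88 120 [2, 2] [(88, 120, [2,
  2]), (103, 120, [2, 4]), (104, 120, [2])]) .no) (.con 120 [2, 3, 3]) .no (.use 134) .no) (.red
  [.f 696 3 1] 104 120 [2] [(104, 120, [2])]) .no (.use 135) .no) .no (.red [.t 962 3 2] 121 120
  [3] [(121, 120, [3])]) .no

def f22t137 : Tr4 :=
  .br 706 .no (.hor [.f 577 1 5] []) (.con 120 [2, 2, 3]) .no (.con 120 [2, 2, 3]) .no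

def f22t138 : Tr4 :=
  .br 818 .no (.br 698 .no (.br 704 .no (.red [.f 568 1 3, .f 696 3 1, .f 688 1 3] 88 120 [2, 2]
  [(88, 120, [2, 2]), (103, 120, [2, 4]), (104, 120, [2])]) (.br 705 .no (.use 137) (.hor [.f 704
  3 5] []) (.con 120 [2, 2]) (.br 842 .no (.red [.f 705 5 1, .f 706 1 3] 105 120 [2, 3] [(105,
  120, [2, 3])]) (.br 699 .no (.use 131) (.con 120 [2, 2]) (.red [.t 690 1 3] 103 87 [1] [(103,
  87, [1])]) .no .no) .no (.red [.t 962 3 2] 121 120 [3] [(121, 120, [3])]) .no) .no) .no (.use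
  132) .no) (.use 129) .no (.red [.f 698 5 1, .f 690 1 3] 103 120 [2, 4] [(103, 120, [2, 4])])
  (.use 130)) .no (.use 133) (.red [.f 818 5 3, .f 818 3 1] 119 120 [4] [(119, 120, [4])]) (.red
  [.f 824 3 1, .f 824 1 3, .t 953 2 4] 119 120 [4] [(119, 120, [4])])

def f22t139 : Tr4 :=
  .br 696 .no (.br 841 .no (.use 136) (.br 818 .no (.br 842 .no (.br 705 .no (.br 704 .no (.hor
  [.f 576 1 5] []) (.br 698 .no (.use 137) (.use 129) .no (.red [.f 698 5 1, .f 690 1 3] 103 120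
  [2, 4] [(103, 120, [2, 4])]) (.use 130)) .no .no .no) (.red [.t 713 4 1] 105 120 [2, 3] [(105,
  120, [2, 3])]) (.br 698 .no (.con 120 [2, 2]) (.use 129) .no (.con 120 [2, 2]) .no) (.red [.f
  705 5 1, .f 706 1 3] 105 120 [2, 3] [(105, 120, [2, 3])]) (.use 132)) (.hor [.f 841 3 5] []) .no
  (.red [.t 962 3 2] 121 120 [3] [(121, 120, [3])]) .no) .no (.use 133) (.red [.f 818 5 3, .f 818
  3 1] 119 120 [4] [(119, 120, [4])]) (.red [.f 824 3 1, .f 824 1 3, .t 953 2 4] 119 120 [4]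
  [(119, 120, [4])])) .no (.red [.f 833 5 3, .f 834 3 1] 121 120 [3] [(121, 120, [3])]) (.use
  138)) (.red [.f 696 3 1] 104 120 [2] [(104, 120, [2])]) .no (.use 135) .no

def f22t140 : Tr4 :=
  .br 818 .no (.use 124) .no (.con 120 [4, 2, 4]) .no (.con 120 [4, 2, 4])

def f22t141 : Tr4 :=
  .br 824 .no (.br 816 .no (.red [.f 688 1 3] 103 104 [4] [(103, 104, [4])]) .no (.br 819 .no
  (.use 140) .no (.red [.f 811 3 1, .t 946 3 2] 119 120 [4] [(118, 134, [2]), (119, 120, [4])])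
  .no (.red [.f 818 5 3, .f 818 3 1] 119 120 [4] [(119, 120, [4])])) (.red [.f 816 5 1, .f 817 1
  3] 119 120 [4] [(119, 120, [4])]) .no) (.br 819 .no (.br 816 .no (.br 818 .no (.hor [.f 690 1 5]
  []) .no (.use 133) .no (.red [.f 824 3 1, .f 824 1 3, .t 953 2 4] 119 120 [4] [(119, 120,
  [4])])) .no (.use 140) (.red [.f 824 3 1, .f 816 5 1, .f 817 1 3, .f 824 1 3] 119 120 [4] [(119,
  120, [4])]) .no) .no (.red [.f 811 3 1, .t 946 3 2] 119 120 [4] [(118, 134, [2]), (119, 120,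
  [4])]) .no (.red [.f 818 5 3, .f 818 3 1] 119 120 [4] [(119, 120, [4])])) (.red [.t 824 4 1] 119
  103 [1] [(119, 103, [1])]) .no .no

def f22t142 : Tr4 :=
  .br 945 (.use 102) (.red [.f 817 1 3] 119 120 [4] [(119, 120, [4])]) .no (.use 107) .no (.use
  122)

def f22t143 : Tr4 :=
  .br 698 .no (.use 101) (.red [.f 698 3 1, .f 705 1 5] 104 105 [4] [(104, 105, [4])]) (.use 97)
  (.use 99) (.red [.t 833 2 4] 104 105 [4] [(104, 105, [4])])

def f22t144 : Tr4 :=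
  .br 832 .no (.use 0) (.use 109) (.con 120 [2]) (.br 969 (.con 137 [3]) (.red [.t 952 3 2, .f 825
  3 5, .t 969 2 4] 121 120 [3] [(120, 104, [1]), (121, 120, [3])]) (.use 116) .no .no (.use 118))
  .no

def f22t145 : Tr4 :=
  .br 1075 (.dom 151 135 [1]) .no .no (.use 3) .no .no

def f22t146 : Tr4 :=
  .br 947 (.con 135 [4]) (.red [.t 946 3 2, .f 825 1 5] 119 120 [4] [(119, 120, [4])]) .no (.br
  1210 (.use 2) .no (.red [.f 1082 3 1, .f 1081 1 5, .t 945 1 3, .f 1072 3 5, .t 960 4 1] 136 136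
  [] [(135, 119, [1]), (136, 136, []), (152, 136, [1])]) (.br 1211 (.br 1074 .no .no .no (.use
  145) (.use 104) .no) .no .no (.hor [.f 1202 3 5] []) .no .no) (.red [.t 1090 4 1, .f 1081 1 5,
  .t 945 1 3, .f 1072 3 5, .t 960 4 1] 136 136 [] [(135, 119, [1]), (136, 136, []), (152, 136,
  [1])]) .no) .no .no

def f22t147 : Tr4 :=
  .br 968 .no (.con 137 [2, 3]) (.hor [.f 968 3 5] []) .no .no .no

def f22t148 : Tr4 :=
  .br 816 .no (.use 139) .no (.use 125) (.red [.f 824 3 1, .f 816 5 1, .f 817 1 3, .f 824 1 3] 119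
  120 [4] [(119, 120, [4])]) .no

def f22t149 : Tr4 :=
  .br 947 (.br 824 .no (.use 126) (.br 834 .no (.use 127) (.red [.f 834 3 1, .f 834 1 5] 121 120
  [3] [(121, 120, [3])]) .no .no (.br 969 (.con 137 [3]) (.red [.t 969 2 4, .f 834 1 5] 121 120
  [3] [(121, 120, [3])]) (.use 147) .no .no (.use 148))) (.red [.t 824 4 1] 119 103 [1] [(119,
  103, [1])]) .no .no) (.red [.t 946 3 2, .f 825 1 5] 119 118 [3] [(119, 118, [3])]) .no (.use
  141) .no .no

def f22t150 : Tr4 :=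
  .br 1217 (.hor [.f 1217 1 5] []) .no (.con 152 [3, 1]) .no .no .no

def f22t151 : Tr4 :=
  .br 1202 (.con 152 [4, 1]) (.con 152 [4, 1]) (.hor [.f 1202 3 5] []) (.con 152 [4, 1]) .no (.con
  152 [4, 1])

def f22t152 : Tr4 :=
  .br 1218 (.use 150) .no (.br 1211 (.br 947 (.con 135 [4]) (.red [.t 946 3 2, .f 825 1 5] 119 120
  [4] [(119, 120, [4])]) .no (.br 819 .no (.br 944 .no (.con 120 [4, 4]) .no (.br 1210 (.hor [.f
  1210 1 5] []) .no .no (.br 1074 .no .no .no (.use 145) (.br 818 .no (.hor [.f 690 1 5] []) .no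
  (.br 1200 (.use 10) .no .no (.use 103) (.red [.t 1080 4 1] 151 135 [1] [(151, 135, [1])]) .no)
  .no (.red [.t 953 2 4] 119 120 [4] [(119, 120, [4])])) .no) .no .no) .no .no) .no (.red [.f 811
  3 1, .t 946 3 2] 119 120 [4] [(118, 120, [4, 4]), (119, 120, [4])]) .no (.red [.f 818 5 3, .f
  818 3 1] 119 120 [4] [(119, 120, [4])])) .no .no) .no .no (.use 151) .no (.red [.t 1090 4 1, .f
  1081 1 5, .t 945 1 3, .f 1072 3 5, .t 960 4 1] 136 136 [] [(135, 119, [1]), (136, 136, []),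
  (152, 136, [1])])) (.con 152 [1]) .no (.red [.t 1081 1 3, .t 945 1 3, .f 1072 3 5, .t 960 4 1]
  136 136 [] [(135, 119, [1]), (136, 136, []), (152, 136, [1])])

def f22l3 : List Tr4 :=
  [f22t118, f22t119, f22t120, f22t121, f22t122, f22t123, f22t124, f22t125, f22t126, f22t127,
  f22t128, f22t129, f22t130, f22t131, f22t132, f22t133, f22t134, f22t135, f22t136, f22t137,
  f22t138, f22t139, f22t140, f22t141, f22t142, f22t143, f22t144, f22t145, f22t146, f22t147,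
  f22t148, f22t149, f22t150, f22t151, f22t152]

theorem f22k3 : chkLF ⟨4, 0, 0, false, -4⟩ false 2 f22N 118 f22l3 = true := by decide +kernel

def f22t153 : Tr4 :=
  .br 1208 (.br 826 .no (.use 142) (.br 945 (.br 832 .no (.use 0) (.br 1210 (.use 2) .no (.red [.f
  1082 3 1, .f 1081 1 5, .t 945 1 3, .f 1072 3 5, .t 960 4 1] 136 136 [] [(135, 119, [1]), (136,
  136, []), (152, 136, [1])]) (.br 1211 (.br 1075 (.dom 151 135 [1]) (.con 135 [4]) .no (.use 3)
  .no (.br 833 .no (.br 1200 (.br 969 (.con 137 [3]) (.use 58) (.use 71) .no .no (.use 73)) .no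
  .no (.br 969 (.con 137 [3]) (.use 89) (.use 100) .no .no (.use 143)) (.red [.t 1080 4 1] 151 135
  [1] [(151, 135, [1])]) .no) (.hor [.f 832 3 5] []) .no .no .no)) .no .no (.hor [.f 1202 3 5] [])
  .no .no) (.red [.t 1090 4 1, .f 1081 1 5, .t 945 1 3, .f 1072 3 5, .t 960 4 1] 136 136 [] [(135,
  119, [1]), (136, 136, []), (152, 136, [1])]) .no) (.con 120 [2]) (.red [.t 952 3 2, .t 1072 3 2,
  .f 945 3 5, .t 1089 2 4, .f 825 3 1] 136 136 [] [(135, 119, [1]), (136, 136, [])]) .no) (.red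
  [.f 817 1 3] 119 120 [4] [(119, 120, [4])]) .no (.use 144) .no (.use 123)) (.red [.f 818 3 1, .f
  825 1 5] 119 120 [4] [(119, 120, [4])]) (.br 945 (.use 146) (.red [.f 817 1 3] 119 120 [4]
  [(119, 120, [4])]) .no (.use 121) .no (.use 149)) .no) .no (.br 826 .no (.use 142) (.br 945 (.br
  832 .no (.use 0) (.br 833 .no (.br 1218 (.use 150) .no (.br 1211 (.br 969 (.con 137 [3]) (.br
  1210 (.hor [.f 1210 1 5] []) .no .no (.br 1075 (.dom 151 135 [1]) (.con 135 [4]) .no (.use 3)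
  .no (.br 1200 (.use 58) .no .no (.use 89) (.red [.t 1080 4 1] 151 135 [1] [(151, 135, [1])])
  .no)) .no .no) (.use 147) .no .no (.br 1210 (.hor [.f 1210 1 5] []) .no .no (.br 1075 (.dom 151
  135 [1]) (.con 135 [4]) .no (.use 3) .no (.br 1200 (.use 73) .no .no (.use 143) (.red [.t 1080 4
  1] 151 135 [1] [(151, 135, [1])]) .no)) .no .no)) .no .no (.use 151) .no (.red [.t 1090 4 1, .f
  1081 1 5, .t 945 1 3, .f 1072 3 5, .t 960 4 1] 136 136 [] [(135, 119, [1]), (136, 136, []),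
  (152, 136, [1])])) (.con 152 [1]) .no (.red [.t 1081 1 3, .t 945 1 3, .f 1072 3 5, .t 960 4 1]
  136 136 [] [(135, 119, [1]), (136, 136, []), (152, 136, [1])])) (.hor [.f 832 3 5] []) .no .no
  .no) (.con 120 [2]) (.red [.t 952 3 2, .t 1072 3 2, .f 945 3 5, .t 1089 2 4, .f 825 3 1] 136 136
  [] [(135, 119, [1]), (136, 136, [])]) .no) (.red [.f 817 1 3] 119 120 [4] [(119, 120, [4])]) .no
  (.use 144) .no (.use 123)) (.red [.f 818 3 1, .f 825 1 5] 119 120 [4] [(119, 120, [4])]) (.br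
  945 (.use 152) (.red [.f 817 1 3] 119 120 [4] [(119, 120, [4])]) .no (.use 121) .no (.use 149))
  .no) (.red [.f 1072 3 1, .f 1080 1 5] 151 135 [1] [(151, 135, [1])]) .no .no

def f22t154 : Tr4 :=
  .br 843 .no (.con 105 [3]) (.red [.f 843 3 1, .f 835 1 3, .f 962 3 5] 122 105 [3, 1] [(121, 105,
  [1]), (122, 105, [3, 1])]) .no .no (.red [.t 962 3 2] 121 105 [1] [(121, 105, [1])])

def f22t155 : Tr4 :=
  .br 706 .no (.use 67) (.br 841 (.use 57) (.use 154) (.use 72) .no (.use 70) .no) (.red [.f 698 3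
  1, .f 705 1 5] 104 105 [4] [(104, 105, [4])]) (.use 17) .no

def f22t156 : Tr4 :=
  .br 698 .no (.br 706 .no (.use 91) (.br 841 (.use 89) (.use 154) (.use 72) .no (.use 92) .no)
  .no (.use 93) .no) (.red [.f 698 3 1, .f 705 1 5] 104 105 [4] [(104, 105, [4])]) (.use 97) (.use
  99) (.red [.t 833 2 4] 104 105 [4] [(104, 105, [4])])

def f22t157 : Tr4 :=
  .br 1075 (.dom 151 135 [1]) (.con 135 [4]) .no (.use 3) .no (.br 833 .no (.br 1200 (.use 155)
  .no .no (.use 156) (.red [.t 1080 4 1] 151 135 [1] [(151, 135, [1])]) .no) (.hor [.f 832 3 5]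
  []) .no .no .no)

def f22t158 : Tr4 :=
  .br 1211 (.use 157) .no .no (.hor [.f 1202 3 5] []) .no .no

def f22t159 : Tr4 :=
  .br 1202 (.red [.f 1200 1 3, .f 1072 3 1, .f 1080 1 5] 151 135 [1] [(151, 135, [1]), (167, 135,
  [1, 1])]) (.red [.f 1200 1 3, .f 1072 3 1, .f 1080 1 5] 151 135 [1] [(151, 135, [1]), (167, 135,
  [1, 1])]) (.use 157) (.red [.f 1200 1 3, .f 1072 3 1, .f 1080 1 5] 151 135 [1] [(151, 135, [1]),
  (167, 135, [1, 1])]) (.red [.f 1200 1 3, .f 1072 3 1, .f 1080 1 5] 151 135 [1] [(151, 135, [1]),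
  (167, 135, [1, 1])]) (.red [.f 1200 1 3, .f 1072 3 1, .f 1080 1 5] 151 135 [1] [(151, 135, [1]),
  (167, 135, [1, 1])])

def f22t160 : Tr4 :=
  .br 1210 (.use 2) .no .no (.use 94) .no .no

def f22t161 : Tr4 :=
  .br 824 .no (.con 120 [2, 4]) .no (.use 160) .no .no

def f22t162 : Tr4 :=
  .br 697 .no (.br 698 .no (.hor [.f 569 1 5] []) .no (.use 13) (.use 27) .no) .no (.use 28) (.red
  [.t 833 2 4, .f 696 3 5] 104 105 [4] [(104, 105, [4])]) .no

def f22t163 : Tr4 :=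
  .br 704 .no (.use 12) (.br 698 .no (.red [.f 570 1 3] 88 105 [4, 2] [(88, 105, [4, 2])]) .no
  (.br 944 .no (.use 44) .no (.br 816 .no (.use 63) (.use 160) (.use 45) (.use 61) .no) .no .no)
  (.use 161) (.red [.f 704 3 1, .f 704 1 3, .t 833 2 4] 104 105 [4] [(104, 105, [4])])) (.use 162)
  .no .no

def f22t164 : Tr4 :=
  .br 827 .no (.red [.t 826 3 2, .f 705 1 5] 104 120 [2] [(104, 120, [2])]) .no (.br 1210 (.use 2)
  .no .no (.use 95) .no .no) .no .no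

def f22t165 : Tr4 :=
  .br 1200 (.use 155) .no .no (.use 156) (.red [.t 1080 4 1] 151 135 [1] [(151, 135, [1])]) .no

def f22t166 : Tr4 :=
  .br 1208 (.br 1211 (.br 843 .no (.br 1200 (.use 159) .no .no (.br 1075 (.br 1210 (.use 2) .no
  .no (.dom 151 135 [1]) .no .no) (.con 135 [4]) .no (.use 3) .no (.br 841 .no (.br 706 .no (.use
  163) (.con 105 [3]) (.red [.f 698 3 1, .f 705 1 5] 104 105 [4] [(104, 105, [4])]) (.use 164)
  .no) (.red [.f 841 3 1] 122 138 [2] [(122, 138, [2])]) .no (.br 706 .no (.use 163) (.br 698 .no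
  (.br 1210 (.use 2) .no .no (.use 92) .no .no) .no (.br 944 .no (.use 44) .no (.br 816 .no (.use
  63) (.use 160) (.use 45) (.br 1210 (.use 2) .no .no (.use 96) .no .no) .no) .no .no) (.use 161)
  (.red [.t 833 2 4] 104 105 [4] [(104, 105, [4])])) (.red [.f 698 3 1, .f 705 1 5] 104 105 [4]
  [(104, 105, [4])]) (.use 164) .no) .no)) (.red [.t 1080 4 1] 151 135 [1] [(151, 135, [1])]) .no)
  (.red [.t 961 1 3, .f 843 3 1, .f 835 1 3] 122 138 [2] [(121, 105, [1]), (122, 138, [2]), (137,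
  121, [1])]) .no .no (.red [.t 962 3 2] 121 105 [1] [(121, 105, [1])])) .no .no (.br 1200 (.red
  [.f 1200 1 3, .f 1072 3 1, .f 1080 1 5] 151 135 [1] [(151, 135, [1]), (167, 168, [4])]) .no .no
  (.br 1075 .no (.con 135 [4]) .no (.use 3) .no (.br 1202 (.con 135 [1, 1]) .no (.use 158) (.con
  135 [1, 1]) .no (.con 135 [1, 1]))) (.red [.t 1080 4 1] 151 135 [1] [(151, 135, [1])]) .no) .no
  (.red [.t 1090 4 1, .f 1081 1 5, .t 945 1 3, .f 1072 3 5, .t 960 4 1] 136 136 [] [(135, 119,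
  [1]), (136, 136, []), (152, 136, [1])])) .no (.br 1211 (.br 1075 (.br 1210 (.hor [.f 1210 1 5]
  []) .no .no (.dom 151 135 [1]) .no .no) (.con 135 [4]) .no (.use 3) .no (.br 1210 (.hor [.f 1210
  1 5] []) .no .no (.use 165) .no .no)) .no .no (.use 151) .no (.red [.t 1090 4 1, .f 1081 1 5, .t
  945 1 3, .f 1072 3 5, .t 960 4 1] 136 136 [] [(135, 119, [1]), (136, 136, []), (152, 136,
  [1])])) (.red [.f 1072 3 1, .f 1080 1 5] 151 135 [1] [(151, 135, [1])]) .no .no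

def f22t167 : Tr4 :=
  .br 968 (.con 138 [4, 4]) (.con 120 [3, 3]) (.hor [.f 968 3 5] []) .no .no .no

def f22t168 : Tr4 :=
  .br 832 .no (.use 0) (.use 109) (.con 120 [2]) (.br 947 (.use 120) (.br 969 (.br 968 (.hor [.f
  968 1 5] []) (.con 120 [3, 3]) (.br 842 .no (.use 117) (.br 944 .no (.br 817 .no (.br 698 .no
  (.use 108) (.red [.t 952 3 2, .f 698 3 1] 104 120 [2] [(104, 120, [2]), (120, 104, [1])]) (.con
  120 [4, 2, 4]) (.use 110) (.br 705 .no (.use 113) (.br 840 .no (.red [.t 952 3 2, .t 832 1 4, .t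
  712 1 4, .t 833 2 4] 105 120 [2, 3] [(104, 120, [2]), (105, 120, [2, 3])]) (.br 843 .no (.con
  120 [2, 3, 3]) (.red [.f 843 3 1, .f 835 1 3, .f 962 3 5] 122 120 [3, 3] [(121, 120, [3]), (122,
  120, [3, 3])]) .no .no .no) .no (.use 114) .no) .no (.red [.t 952 3 2, .f 697 5 3, .f 698 3 1]
  104 120 [2] [(104, 120, [2]), (120, 104, [1])]) (.red [.f 704 5 1, .t 833 2 4] 104 120 [2]
  [(104, 120, [2])]))) .no (.red [.f 809 3 1, .f 816 1 5] 118 134 [2] [(118, 134, [2])]) (.red [.t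
  953 2 4, .f 818 1 5] 119 120 [4] [(119, 120, [4])]) .no) .no (.hor [.f 936 3 5] []) .no .no) .no
  (.red [.f 961 1 3, .t 962 3 2] 121 120 [3] [(121, 120, [3]), (137, 121, [1])]) (.red [.f 961 1
  3, .t 952 3 2, .f 825 3 5, .f 833 5 3, .f 834 3 1] 121 120 [3] [(120, 104, [1]), (121, 120,
  [3]), (137, 121, [1])])) .no .no .no) (.red [.t 952 3 2, .f 825 3 5, .t 969 2 4] 121 120 [3]
  [(120, 104, [1]), (121, 120, [3])]) (.use 167) .no .no (.use 118)) .no (.use 119) .no .no) .no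

def f22t169 : Tr4 :=
  .br 968 (.con 138 [4, 4]) (.con 120 [3, 3]) (.hor [.f 968 3 5] []) .no .no .no

def f22t170 : Tr4 :=
  .br 947 (.br 824 .no (.use 126) (.br 834 .no (.use 127) (.red [.f 834 3 1, .f 834 1 5] 121 120
  [3] [(121, 120, [3])]) .no .no (.br 969 (.br 843 .no (.br 842 .no (.hor [.f 714 1 5] []) (.br
  816 .no (.br 696 .no (.br 704 .no (.br 818 .no (.br 698 .no (.red [.f 568 1 3, .f 696 3 1, .f
  688 1 3] 88 120 [2, 2] [(88, 120, [2, 2]), (103, 120, [2, 4]), (104, 120, [2])]) (.use 129) .no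
  (.red [.f 568 1 3, .f 696 3 1, .f 688 1 3] 88 120 [2, 2] [(88, 120, [2, 2]), (103, 120, [2, 4]),
  (104, 120, [2])]) (.use 130)) .no (.use 133) (.red [.f 818 5 3, .f 818 3 1] 119 120 [4] [(119,
  120, [4])]) (.red [.f 824 3 1, .f 824 1 3, .t 953 2 4] 119 120 [4] [(119, 120, [4])])) (.con 120
  [2, 3, 3]) .no (.use 134) .no) (.red [.f 696 3 1] 104 120 [2] [(104, 120, [2])]) .no (.use 135)
  .no) .no (.use 125) (.red [.f 824 3 1, .f 816 5 1, .f 817 1 3, .f 824 1 3] 119 120 [4] [(119,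
  120, [4])]) .no) .no .no (.red [.f 961 1 3, .f 833 5 3, .f 834 3 1] 121 120 [3] [(121, 120,
  [3]), (137, 121, [1])])) (.red [.f 843 3 1, .f 835 1 3, .f 962 3 5] 122 120 [3, 3] [(121, 120,
  [3]), (122, 120, [3, 3])]) .no .no (.red [.f 961 1 3, .t 962 3 2] 121 120 [3] [(121, 120, [3]),
  (137, 121, [1])])) (.red [.t 969 2 4, .f 834 1 5] 121 120 [3] [(121, 120, [3])]) (.use 169) .no
  .no (.use 148))) (.red [.t 824 4 1] 119 103 [1] [(119, 103, [1])]) .no .no) (.red [.t 946 3 2,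
  .f 825 1 5] 119 118 [3] [(119, 118, [3])]) .no (.use 141) .no .no

def f22l4 : List Tr4 :=
  [f22t153, f22t154, f22t155, f22t156, f22t157, f22t158, f22t159, f22t160, f22t161, f22t162,
  f22t163, f22t164, f22t165, f22t166, f22t167, f22t168, f22t169, f22t170]

theorem f22k4 : chkLF ⟨4, 0, 0, false, -4⟩ false 2 f22N 153 f22l4 = true := by decide +kernel

def f22t171 : Tr4 :=
  .br 971 (.br 1088 (.br 1208 (.br 945 (.br 1218 (.br 1210 (.use 2) .no .no (.br 832 .no (.use 11)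
  (.use 105) (.red [.f 824 3 1, .f 824 1 5, .t 1072 3 2, .f 945 3 5, .t 1089 2 4, .t 960 2 4] 136
  136 [] [(135, 119, [1]), (136, 136, [])]) (.red [.t 952 3 2, .t 1072 3 2, .f 945 3 5, .t 1089 2
  4, .f 825 3 1] 136 136 [] [(135, 119, [1]), (136, 136, [])]) .no) (.red [.t 1090 4 1, .f 1081 1
  5, .t 945 1 3, .f 1072 3 5, .t 960 4 1] 136 136 [] [(135, 119, [1]), (136, 136, []), (152, 136,
  [1])]) .no) .no (.use 106) (.red [.f 1082 3 1, .f 1081 1 5, .t 945 1 3, .f 1072 3 5, .t 960 4 1]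
  136 136 [] [(135, 119, [1]), (136, 136, []), (152, 136, [1])]) .no (.red [.t 1081 1 3, .t 945 1
  3, .f 1072 3 5, .t 960 4 1] 136 136 [] [(135, 119, [1]), (136, 136, []), (152, 136, [1])]))
  (.red [.f 817 1 3] 119 120 [4] [(119, 120, [4])]) .no (.br 826 .no (.use 107) (.br 832 .no (.use
  0) (.use 109) (.con 120 [2]) (.br 969 (.use 1) (.red [.t 952 3 2, .f 825 3 5, .t 969 2 4] 121
  120 [3] [(120, 104, [1]), (121, 120, [3])]) (.use 116) .no .no (.use 118)) .no) (.red [.f 818 3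
  1, .f 825 1 5] 119 120 [4] [(119, 120, [4])]) (.use 121) .no) .no (.br 826 .no (.use 122) (.use
  123) (.red [.f 818 3 1, .f 825 1 5] 119 120 [4] [(119, 120, [4])]) (.br 947 (.br 824 .no (.use
  126) (.br 816 .no (.br 834 .no (.use 127) (.red [.f 834 3 1, .f 834 1 5] 121 120 [3] [(121, 120,
  [3])]) .no .no (.br 969 (.use 1) (.red [.t 969 2 4, .f 834 1 5] 121 120 [3] [(121, 120, [3])])
  (.br 841 .no (.use 136) (.red [.f 841 3 1, .t 969 2 4] 122 120 [3, 3] [(121, 120, [3]), (122,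
  120, [3, 3])]) .no (.red [.f 833 5 3, .f 834 3 1] 121 120 [3] [(121, 120, [3])]) (.br 696 .no
  (.use 138) (.red [.f 696 3 1] 104 120 [2] [(104, 120, [2])]) .no (.use 135) .no)) .no .no (.use
  139))) .no (.use 125) (.red [.f 824 3 1, .f 816 5 1, .f 817 1 3, .f 824 1 3] 119 120 [4] [(119,
  120, [4])]) .no) (.red [.t 824 4 1] 119 103 [1] [(119, 103, [1])]) .no .no) (.red [.t 946 3 2,
  .f 825 1 5] 119 118 [3] [(119, 118, [3])]) .no (.use 141) .no .no) .no)) .no .no (.red [.f 1072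
  3 1, .f 1080 1 5] 151 135 [1] [(151, 135, [1])]) .no .no) .no (.use 153) .no .no .no) (.red [.f
  835 1 3] 121 120 [3] [(121, 120, [3])]) (.br 826 .no (.use 142) (.br 945 (.br 832 .no (.use 0)
  (.br 1218 (.br 1208 (.br 1210 (.use 2) .no .no (.use 158) (.red [.t 1090 4 1, .f 1081 1 5, .t
  945 1 3, .f 1072 3 5, .t 960 4 1] 136 136 [] [(135, 119, [1]), (136, 136, []), (152, 136, [1])])
  .no) .no (.use 150) (.red [.f 1072 3 1, .f 1080 1 5] 151 135 [1] [(151, 135, [1])]) .no .no) .no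
  (.br 1088 (.use 106) .no (.br 1099 (.red [.f 1091 1 3] 153 137 [1] [(153, 137, [1])]) .no (.br
  1098 .no .no (.hor [.f 1098 3 5] []) .no .no (.br 969 .no (.red [.t 961 1 3, .t 825 1 3, .f 952
  3 5, .t 840 4 1] 121 105 [1] [(120, 104, [1]), (121, 105, [1]), (137, 121, [1])]) (.br 833 .no
  (.use 166) (.hor [.f 832 3 5] []) .no .no .no) .no .no (.red [.t 961 1 3, .t 825 1 3, .f 952 3
  5, .f 960 5 3, .f 832 3 1] 121 120 [3] [(120, 104, [1]), (121, 120, [3]), (137, 121, [1])])))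
  .no .no (.red [.t 1218 3 2] 153 137 [1] [(153, 137, [1])])) .no .no .no) (.red [.f 1082 3 1, .f
  1081 1 5, .t 945 1 3, .f 1072 3 5, .t 960 4 1] 136 136 [] [(135, 119, [1]), (136, 136, []),
  (152, 136, [1])]) .no (.red [.t 1081 1 3, .t 945 1 3, .f 1072 3 5, .t 960 4 1] 136 136 [] [(135,
  119, [1]), (136, 136, []), (152, 136, [1])])) (.con 120 [2]) (.red [.t 952 3 2, .t 1072 3 2, .f
  945 3 5, .t 1089 2 4, .f 825 3 1] 136 136 [] [(135, 119, [1]), (136, 136, [])]) .no) (.red [.f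
  817 1 3] 119 120 [4] [(119, 120, [4])]) .no (.use 168) .no (.use 123)) (.red [.f 818 3 1, .f 825
  1 5] 119 120 [4] [(119, 120, [4])]) (.br 945 (.br 1208 (.use 146) .no (.use 152) (.red [.f 1072
  3 1, .f 1080 1 5] 151 135 [1] [(151, 135, [1])]) .no .no) (.red [.f 817 1 3] 119 120 [4] [(119,
  120, [4])]) .no (.use 121) .no (.use 170)) .no) .no .no .no

def f22t172 : Tr4 :=
  .br 1210 (.hor [.f 1210 1 5] []) .no .no (.dom 151 135 [1]) .no .no

def f22t173 : Tr4 :=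
  .br 704 .no (.use 12) (.red [.f 570 1 3] 88 105 [4, 2] [(88, 105, [4, 2])]) (.use 18) .no .no

def f22t174 : Tr4 :=
  .br 704 .no (.br 696 (.br 936 (.br 818 .no (.br 697 .no (.hor [.f 569 1 5] []) .no (.con 120 [4,
  4, 2, 3]) .no .no) .no (.con 120 [4, 4, 2]) .no (.red [.t 953 2 4, .f 818 1 5] 119 120 [4]
  [(119, 120, [4])])) (.hor [.f 808 1 5] []) .no (.br 938 .no (.hor [.f 809 1 5] []) .no (.con 120
  [4, 4, 4]) (.con 120 [4, 4, 4]) .no) .no .no) (.red [.f 568 1 3] 88 105 [2, 4] [(88, 105, [2,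
  4])]) .no (.use 32) (.use 33) .no) (.con 105 [2]) (.use 18) .no .no

def f22t175 : Tr4 :=
  .br 978 .no (.red [.f 961 1 3, .f 961 3 5, .f 841 5 1, .f 842 1 3] 122 120 [3, 3] [(122, 120,
  [3, 3]), (137, 121, [1])]) (.br 977 .no (.con 120 [3, 3, 3]) (.hor [.f 977 3 5] []) .no .no .no)
  .no .no (.red [.f 977 5 1, .f 969 1 3] 138 137 [3] [(138, 137, [3])])

def f22t176 : Tr4 :=
  .br 977 (.red [.f 969 1 3, .f 968 3 5] 138 137 [3] [(138, 137, [3])]) (.con 120 [3, 3, 3]) (.hor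
  [.f 977 3 5] []) .no .no .no

def f22t177 : Tr4 :=
  .br 978 .no (.red [.f 961 1 3, .f 961 3 5, .f 841 5 1, .f 842 1 3] 122 120 [3, 3] [(122, 120,
  [3, 3]), (137, 121, [1])]) (.use 176) .no .no (.red [.t 1097 2 3, .f 968 3 5] 138 137 [3] [(138,
  137, [3])])

def f22t178 : Tr4 :=
  .br 841 .no (.con 105 [3]) (.hor [.f 841 3 5] []) .no .no .no

def f22t179 : Tr4 :=
  .br 1106 (.red [.f 1098 1 3, .f 1097 3 5] 154 138 [1] [(154, 138, [1])]) (.red [.f 1104 3 1] 155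
  138 [1, 3] [(155, 138, [1, 3])]) (.red [.f 1104 3 1] 155 139 [1] [(155, 139, [1])]) .no (.red
  [.f 1104 3 1] 155 139 [1] [(155, 139, [1])]) .no

def f22t180 : Tr4 :=
  .br 969 (.br 843 .no (.br 842 .no (.hor [.f 714 1 5] []) (.use 178) .no .no (.br 1098 (.br 1104
  (.br 1105 (.hor [.f 1104 1 5] []) (.red [.f 969 1 3, .f 968 3 5] 138 137 [3] [(138, 137, [3])])
  (.br 1106 (.red [.f 1098 1 3] 154 153 [3] [(154, 153, [3])]) (.con 137 [3, 3]) (.hor [.f 1105 3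
  5] []) .no (.br 977 .no (.br 978 .no (.hor [.f 849 1 5] []) (.con 155 [2, 2]) .no .no .no) (.red
  [.f 977 3 1, .f 969 1 3] 139 155 [2] [(138, 137, [3]), (139, 155, [2])]) .no (.red [.f 1091 3 1,
  .f 1098 1 5, .f 1098 5 3, .t 1097 2 3] 138 137 [3] [(138, 137, [3]), (153, 154, [4])]) .no) .no)
  .no (.use 175) .no) .no (.br 1105 (.br 1106 (.hor [.f 1105 1 5] []) (.con 137 [3, 3]) (.con 153
  [3, 3]) .no (.con 153 [3, 3]) .no) (.red [.f 969 1 3, .f 968 3 5] 138 137 [3] [(138, 137, [3])])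
  (.hor [.f 1104 3 5] []) .no (.use 175) .no) .no (.red [.t 968 3 1] 138 137 [3] [(138, 137,
  [3])]) .no) .no (.use 177) .no .no .no)) (.red [.f 843 3 1, .f 835 1 3, .f 962 3 5] 122 105 [1,
  3] [(121, 105, [1]), (122, 105, [1, 3])]) .no .no (.red [.f 961 1 3, .t 962 3 2] 121 105 [1]
  [(121, 105, [1]), (137, 121, [1])])) (.br 1097 (.br 1098 (.hor [.f 1097 1 5] []) .no (.con 154
  [2, 2, 4]) .no .no .no) .no (.br 1098 (.br 1225 (.br 1224 (.hor [.f 1224 1 5] []) .no (.con 138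
  [1, 1]) .no .no .no) .no (.red [.f 1097 3 1, .f 1097 1 5] 154 138 [1] [(154, 138, [1])]) .no .no
  (.br 1104 (.red [.f 1216 5 3, .f 1216 3 5, .t 1104 1 4] 154 138 [1] [(154, 138, [1])]) .no (.br
  1233 (.br 1232 (.hor [.f 1232 1 5] []) .no (.use 179) .no .no .no) .no (.br 1232 (.br 1234 (.con
  138 [1, 3, 1]) (.red [.f 1098 1 3, .f 1097 3 5] 154 138 [1] [(154, 138, [1])]) (.hor [.f 1233 3
  5] []) .no (.con 138 [1, 3, 1]) .no) .no (.use 179) .no .no .no) .no (.red [.f 1216 5 3, .t 1097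
  3 1] 154 138 [1] [(154, 138, [1])]) (.red [.f 1224 5 3, .f 1097 3 1, .f 1097 1 5, .t 961 1 3, .f
  1088 3 5] 154 138 [1] [(137, 121, [1]), (154, 138, [1])])) .no .no .no)) .no (.hor [.f 1097 3 5]
  []) .no .no .no) .no (.red [.t 961 1 3, .t 825 1 3, .f 952 3 5, .t 840 4 1] 121 105 [1] [(120,
  104, [1]), (121, 105, [1]), (137, 121, [1])]) .no) (.use 167) .no .no .no

def f22t181 : Tr4 :=
  .br 1202 (.br 1201 (.hor [.f 1201 1 5] []) .no .no .no .no .no) .no .no (.con 150 [1]) .no (.red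
  [.t 1065 1 3, .f 1192 3 5, .t 1080 4 1] 151 135 [1] [(150, 134, [1]), (151, 135, [1])])

def f22t182 : Tr4 :=
  .br 817 .no (.use 108) .no (.red [.t 816 1 4] 118 120 [4, 4] [(118, 120, [4, 4])]) (.red [.t 953
  2 4, .f 818 1 5] 119 120 [4] [(119, 120, [4])]) .no

def f22t183 : Tr4 :=
  .br 697 .no (.con 105 [4, 2, 4]) .no (.hor [.f 689 3 5] []) .no .no

def f22t184 : Tr4 :=
  .br 704 .no (.use 46) (.use 183) .no .no .no

def f22t185 : Tr4 :=
  .br 824 .no (.br 698 .no (.br 816 .no (.use 53) .no (.br 817 .no (.use 37) .no .no (.red [.t 953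
  2 4, .f 818 1 5] 119 118 [3] [(119, 118, [3])]) .no) (.br 697 .no (.hor [.f 569 1 5] []) .no
  (.red [.t 696 1 4] 103 87 [1] [(103, 87, [1])]) .no .no) .no) (.red [.f 698 3 1, .f 705 1 5] 104
  105 [4] [(104, 105, [4])]) (.use 184) (.con 105 [4, 4]) (.red [.t 833 2 4] 104 105 [4] [(104,
  105, [4])])) .no (.dom 119 103 [1]) .no .no

def f22t186 : Tr4 :=
  .br 938 .no (.red [.f 929 3 1, .f 937 1 3] 134 135 [4] [(133, 117, [1]), (134, 135, [4])]) .no
  (.hor [.f 929 3 5] []) (.red [.f 929 3 1, .f 937 1 3] 134 118 [1] [(133, 117, [1]), (134, 118,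
  [1])]) .no

def f22t187 : Tr4 :=
  .br 698 .no (.br 706 .no (.use 173) (.br 704 .no (.br 696 (.use 31) (.red [.f 568 1 3] 88 105
  [2, 4] [(88, 105, [2, 4])]) .no (.use 32) (.use 33) .no) (.con 105 [2]) (.use 18) .no .no) .no
  (.use 93) .no) (.red [.f 698 3 1, .f 705 1 5] 104 105 [4] [(104, 105, [4])]) (.use 44) (.use 74)
  (.red [.t 833 2 4] 104 105 [4] [(104, 105, [4])])

def f22t188 : Tr4 :=
  .br 698 .no (.use 31) (.red [.f 698 3 1, .f 705 1 5] 104 105 [4] [(104, 105, [4])]) (.use 184)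
  (.con 105 [4, 4]) (.red [.t 833 2 4] 104 105 [4] [(104, 105, [4])])

def f22t189 : Tr4 :=
  .br 824 .no (.use 188) .no (.dom 119 103 [1]) .no .no

def f22t190 : Tr4 :=
  .br 698 .no (.br 819 .no (.hor [.f 690 1 5] []) (.br 699 .no (.hor [.f 570 1 5] []) (.br 697 .no
  (.hor [.f 569 1 5] []) .no (.con 120 [4, 4, 2, 3]) .no (.con 120 [2, 2])) (.red [.f 691 3 1, .f
  690 1 5] 103 120 [2, 4] [(103, 120, [2, 4])]) .no .no) (.red [.f 811 3 1] 118 120 [4, 4] [(118,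
  120, [4, 4])]) .no .no) (.red [.f 698 3 1, .f 705 1 5] 104 120 [2] [(104, 120, [2])]) .no (.use
  75) (.red [.t 833 2 4] 104 120 [2] [(104, 120, [2])])

def f22t191 : Tr4 :=
  .br 818 .no (.use 190) .no (.con 120 [4, 4, 4]) (.use 26) (.red [.t 953 2 4] 119 120 [4] [(119,
  120, [4])])

def f22t192 : Tr4 :=
  .br 818 .no (.use 190) .no (.con 120 [4, 4, 4]) (.use 26) (.red [.t 953 2 4, .f 816 3 5] 119 120
  [4] [(119, 120, [4])])

def f22l5 : List Tr4 :=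
  [f22t171, f22t172, f22t173, f22t174, f22t175, f22t176, f22t177, f22t178, f22t179, f22t180,
  f22t181, f22t182, f22t183, f22t184, f22t185, f22t186, f22t187, f22t188, f22t189, f22t190,
  f22t191, f22t192]

theorem f22k5 : chkLF ⟨4, 0, 0, false, -4⟩ false 2 f22N 171 f22l5 = true := by decide +kernel

def f22t193 : Tr4 :=
  .br 947 (.con 135 [4]) (.br 1217 (.hor [.f 1217 1 5] []) .no (.br 1216 (.br 1219 (.hor [.f 1218
  1 5] []) .no (.con 153 [1]) (.con 168 [3]) .no .no) .no (.hor [.f 1216 3 5] []) .no .no .no) .no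
  .no (.br 1219 (.hor [.f 1218 1 5] []) .no (.br 1074 (.br 1075 (.hor [.f 1074 1 5] []) .no .no
  (.con 135 [4, 1]) .no .no) .no .no (.br 968 .no .no (.use 180) .no (.br 843 .no (.br 1075 (.br
  1211 (.use 172) .no .no .no .no (.br 944 .no (.br 698 .no (.br 706 .no (.use 173) (.br 937 (.red
  [.f 937 1 3] 134 135 [4] [(134, 135, [4])]) (.use 174) .no (.br 936 (.br 1065 (.use 181) .no .no
  (.red [.f 929 3 1, .f 936 1 5] 133 149 [2] [(133, 149, [2])]) .no .no) (.red [.f 808 1 3] 118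
  120 [4, 4] [(118, 120, [4, 4])]) .no (.hor [.f 928 3 5] []) .no .no) (.red [.t 1073 2 4] 134 135
  [4] [(134, 135, [4])]) (.use 182)) .no (.use 93) .no) (.red [.f 698 3 1, .f 705 1 5] 104 105 [4]
  [(104, 105, [4])]) (.use 44) (.use 74) (.red [.t 833 2 4] 104 105 [4] [(104, 105, [4])])) .no
  (.br 1065 (.use 181) (.red [.f 937 1 3, .f 936 3 5] 134 118 [1] [(134, 118, [1])]) .no (.br 937
  .no (.use 185) .no (.use 186) (.red [.t 1073 2 4, .f 936 3 5] 134 118 [1] [(134, 118, [1])])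
  .no) .no (.red [.t 944 4 1] 134 118 [1] [(134, 118, [1])])) .no .no)) .no .no (.use 3) .no .no)
  (.red [.f 843 3 1, .f 835 1 3, .f 962 3 5] 122 138 [2] [(121, 105, [1]), (122, 138, [2])]) .no
  .no (.red [.t 1088 3 2, .t 962 3 2] 121 105 [1] [(121, 105, [1]), (137, 121, [1])])) .no) (.use
  189) .no) (.con 168 [2, 2]) .no .no)) .no (.br 1219 (.hor [.f 1218 1 5] []) .no (.br 1211 (.br
  1075 (.use 172) .no .no (.use 3) .no (.br 1210 (.hor [.f 1210 1 5] []) .no .no (.use 156) .no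
  .no)) .no .no (.br 1210 (.con 168 [4]) .no .no (.hor [.f 1202 3 5] []) .no .no) .no (.br 944 .no
  (.con 120 [4, 4]) .no (.br 1075 (.br 1074 (.hor [.f 1074 1 5] []) .no .no (.br 1065 (.use 181)
  (.red [.f 937 1 3, .f 936 3 5] 134 133 [3] [(134, 133, [3])]) .no (.br 937 .no (.use 191) .no
  (.use 186) (.red [.t 1073 2 4, .f 936 3 5] 134 135 [4] [(134, 135, [4])]) .no) .no (.red [.t 944
  4 1] 134 135 [4] [(134, 135, [4])])) .no .no) .no .no (.use 3) .no (.br 824 .no (.use 188) .no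
  (.br 937 (.red [.f 937 1 3, .f 936 3 5] 134 135 [4] [(134, 135, [4])]) (.use 192) .no (.use 65)
  (.br 1066 (.br 1203 (.br 1202 (.hor [.f 1202 1 5] []) .no .no .no .no (.con 168 [4, 4])) .no .no
  (.red [.t 1194 2 3, .t 1073 2 4] 134 135 [4] [(134, 135, [4]), (150, 135, [4, 1])]) .no (.red
  [.f 1074 5 1, .f 1066 1 3] 150 135 [4, 1] [(150, 135, [4, 1])])) .no .no (.use 9) (.hor [.f 1066
  5 3, .f 939 3 1, .t 1073 2 4, .f 936 3 5, .f 938 1 5] []) (.red [.f 937 5 1, .f 937 1 3] 134 135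
  [4] [(134, 135, [4])])) .no) .no .no)) .no .no)) (.con 168 [2, 2]) .no .no) .no .no

def f22t194 : Tr4 :=
  .br 1210 (.hor [.f 1210 1 5] []) .no .no (.dom 151 135 [1]) .no .no

def f22t195 : Tr4 :=
  .br 1211 (.br 1075 (.use 194) (.con 135 [4]) .no (.use 3) .no (.br 833 .no (.br 1210 (.hor [.f
  1210 1 5] []) .no .no (.use 165) .no .no) (.hor [.f 832 3 5] []) .no .no .no)) .no .no (.use
  151) .no (.red [.f 1210 5 3, .f 1082 3 1, .f 1081 1 5, .t 945 1 3, .f 1072 3 5, .t 960 4 1] 136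
  136 [] [(135, 119, [1]), (136, 136, []), (152, 136, [1])])

def f22t196 : Tr4 :=
  .br 978 (.con 137 [3, 3]) (.red [.f 961 1 3, .f 961 3 5, .f 841 5 1, .f 842 1 3] 122 120 [3, 3]
  [(122, 120, [3, 3]), (137, 121, [1])]) (.use 176) .no .no (.br 1106 (.hor [.f 1105 1 5] []) .no
  (.br 1104 (.hor [.f 1104 1 5] []) .no (.con 153 [3, 3]) .no .no .no) .no (.br 1227 (.br 1104
  (.hor [.f 1104 1 5] []) .no (.con 153 [3, 3]) .no .no .no) .no (.red [.t 1226 2 3, .t 1097 2 3]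
  138 137 [3] [(138, 137, [3]), (154, 153, [3])]) .no .no .no) .no)

def f22t197 : Tr4 :=
  .br 1336 (.red [.f 1336 1 3, .f 1336 3 5] 184 168 [1] [(184, 168, [1])]) .no .no .no .no .no

def f22t198 : Tr4 :=
  .br 1344 (.use 197) .no (.con 168 [3, 1]) (.hor [.f 1336 3 5] []) .no .no

def f22t199 : Tr4 :=
  .br 1224 (.red [.t 1224 1 4, .f 1217 1 5] 169 153 [1] [(169, 153, [1])]) .no (.con 153 [3, 1])
  .no .no .no

def f22t200 : Tr4 :=
  .br 1105 (.use 196) (.red [.f 969 1 3, .f 968 3 5] 138 137 [3] [(138, 137, [3])]) (.br 1106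
  (.red [.f 1098 1 3] 154 153 [3] [(154, 153, [3])]) (.con 137 [3, 3]) (.hor [.f 1105 3 5] []) .no
  (.br 978 .no (.red [.f 961 1 3, .f 961 3 5, .f 841 5 1, .f 842 1 3] 122 120 [3, 3] [(122, 120,
  [3, 3]), (137, 121, [1])]) (.use 176) .no .no (.br 1227 (.br 1339 (.br 1104 (.br 1345 (.br 1344
  (.hor [.f 1344 1 5] []) .no (.con 153 [1, 3]) (.con 184 [2, 4]) .no .no) .no (.red [.f 1210 1 3,
  .f 1217 3 1] 169 153 [1] [(168, 167, [3]), (169, 153, [1])]) (.use 198) .no (.br 1224 (.red [.t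
  1224 1 4, .f 1217 1 5] 169 153 [1] [(169, 153, [1])]) .no .no .no .no .no)) .no (.hor [.f 1104 3
  5] []) .no .no .no) .no (.br 1345 (.br 1344 (.hor [.f 1344 1 5] []) .no (.con 153 [1, 3]) (.br
  1337 (.hor [.f 1211 3 1, .f 1218 1 5, .f 1337 1 3, .f 1208 3 1, .f 1337 3 1] []) .no .no (.con
  150 [1, 3]) .no .no) .no .no) .no (.red [.f 1211 3 1, .f 1210 1 5, .f 1217 3 1] 169 153 [1]
  [(168, 167, [3]), (169, 153, [1])]) (.use 198) .no (.use 199)) (.red [.f 1066 3 1, .f 1074 1 5,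
  .t 1338 2 4] 167 168 [4] [(150, 134, [1]), (167, 168, [4])]) .no .no) .no (.red [.t 1226 2 3, .t
  1097 2 3] 138 137 [3] [(138, 137, [3]), (154, 153, [3])]) .no .no .no)) .no) .no (.use 175)
  (.red [.t 968 3 1] 138 137 [3] [(138, 137, [3])])

def f22t201 : Tr4 :=
  .br 842 .no (.hor [.f 714 1 5] []) (.use 178) .no .no (.use 200)

def f22t202 : Tr4 :=
  .br 947 .no (.use 185) .no (.use 191) .no .no

def f22t203 : Tr4 :=
  .br 947 .no (.dom 119 103 [1]) .no (.use 192) .no .no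

def f22t204 : Tr4 :=
  .br 842 .no (.hor [.f 714 1 5] []) (.use 178) .no .no (.use 177)

def f22t205 : Tr4 :=
  .br 944 .no (.br 698 .no (.br 706 .no (.use 173) (.br 841 .no (.con 105 [3]) (.use 72) .no (.br
  1098 (.br 947 .no (.br 937 (.red [.f 937 1 3] 134 135 [4] [(134, 135, [4])]) (.use 174) .no (.br
  936 (.br 1065 (.br 1200 (.use 200) .no .no (.con 150 [1]) (.red [.t 1080 4 1] 151 135 [1] [(151,
  135, [1])]) .no) .no .no (.red [.f 929 3 1, .f 936 1 5] 133 149 [2] [(133, 149, [2])]) .no .no)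
  (.red [.f 808 1 3] 118 120 [4, 4] [(118, 120, [4, 4])]) .no (.hor [.f 928 3 5] []) .no .no)
  (.red [.t 1073 2 4] 134 135 [4] [(134, 135, [4])]) (.use 182)) .no (.con 120 [4, 4]) .no .no)
  .no (.use 177) .no .no .no) .no) .no (.use 93) .no) (.red [.f 698 3 1, .f 705 1 5] 104 105 [4]
  [(104, 105, [4])]) (.use 44) (.use 74) (.red [.t 833 2 4] 104 105 [4] [(104, 105, [4])])) .no
  (.br 937 (.red [.f 937 1 3, .f 936 3 5] 134 133 [3] [(134, 133, [3])]) (.br 1200 (.br 1098 (.br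
  1065 (.use 201) .no .no (.use 202) .no (.red [.t 944 4 1] 134 135 [4] [(134, 135, [4])])) .no
  (.br 841 .no (.br 706 .no (.br 704 .no (.use 12) (.br 698 .no (.red [.f 570 1 3] 88 105 [2, 4]
  [(88, 105, [2, 4])]) .no (.br 824 .no (.use 183) .no (.use 203) .no .no) (.br 824 .no (.con 105
  [4, 4]) .no (.use 203) .no .no) (.red [.f 704 3 1, .f 704 1 3, .t 833 2 4] 104 105 [4] [(104,
  105, [4])])) (.use 162) .no .no) (.con 105 [3]) (.red [.f 698 3 1, .f 705 1 5] 104 105 [4]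
  [(104, 105, [4])]) (.br 698 .no (.use 93) .no (.br 824 .no (.use 184) .no (.use 203) .no .no)
  (.red [.f 698 5 3, .f 698 3 1] 104 105 [4] [(104, 105, [4])]) (.red [.f 705 1 3, .f 705 3 1, .t
  833 2 4] 104 105 [4] [(104, 105, [4])])) .no) (.br 978 .no (.red [.f 961 1 3, .f 961 3 5, .t 849
  4 1] 122 106 [1] [(122, 106, [1]), (137, 121, [1])]) (.use 176) .no .no (.red [.t 1097 2 3, .f
  968 3 5] 138 137 [3] [(138, 137, [3])])) .no (.use 177) .no) .no .no .no) .no .no (.br 1065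
  (.con 150 [1]) .no .no (.use 202) .no (.red [.t 944 4 1] 134 135 [4] [(134, 135, [4])])) (.red
  [.t 1080 4 1] 151 135 [1] [(151, 135, [1])]) .no) .no (.br 1065 (.br 1200 (.br 1098 (.use 201)
  .no (.use 204) .no .no .no) .no .no (.con 150 [1]) (.red [.t 1080 4 1] 151 135 [1] [(151, 135,
  [1])]) .no) .no .no (.use 186) .no (.red [.t 944 4 1] 134 135 [4] [(134, 135, [4])])) (.red [.t
  1073 2 4, .f 936 3 5] 134 135 [4] [(134, 135, [4])]) .no) .no .no

def f22t206 : Tr4 :=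
  .br 1200 (.br 1201 (.hor [.f 1200 1 5] []) .no .no .no .no .no) .no .no (.con 150 [1]) (.red [.t
  1080 4 1] 151 135 [1] [(151, 135, [1])]) .no

def f22t207 : Tr4 :=
  .br 936 (.br 1065 (.use 206) .no .no (.red [.f 929 3 1, .f 936 1 5] 133 149 [2] [(133, 149,
  [2])]) .no .no) (.red [.f 808 1 3] 118 135 [2, 4] [(118, 135, [2, 4])]) .no (.hor [.f 928 3 5]
  []) .no .no

def f22t208 : Tr4 :=
  .br 937 .no (.use 202) .no (.use 186) (.red [.t 1073 2 4, .f 936 3 5] 134 135 [4] [(134, 135,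
  [4])]) .no

def f22t209 : Tr4 :=
  .br 1065 (.use 206) (.red [.f 937 1 3, .f 936 3 5] 134 133 [3] [(134, 133, [3])]) .no (.use 208)
  .no (.red [.t 944 4 1] 134 135 [4] [(134, 135, [4])])

def f22t210 : Tr4 :=
  .br 947 .no (.use 174) .no (.con 120 [4, 4]) .no .no

def f22t211 : Tr4 :=
  .br 947 .no (.use 182) .no (.con 120 [4, 4]) .no .no

def f22t212 : Tr4 :=
  .br 1337 (.br 1339 (.con 184 [4]) .no (.hor [.f 1211 3 1, .f 1218 1 5, .f 1337 1 3, .f 1208 3 1,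
  .f 1337 3 1] []) (.con 184 [2, 4]) .no .no) .no .no (.red [.f 1208 3 1, .f 1208 1 3, .t 1337 4
  2, .f 1200 1 5] 167 168 [4] [(167, 168, [4])]) .no .no

def f22t213 : Tr4 :=
  .br 1106 (.red [.f 1098 1 3] 154 153 [3] [(154, 153, [3])]) (.con 137 [3, 3]) (.hor [.f 1105 3
  5] []) .no (.br 978 .no (.red [.f 961 1 3, .f 961 3 5, .f 841 5 1, .f 842 1 3] 122 120 [3, 3]
  [(122, 120, [3, 3]), (137, 121, [1])]) (.use 176) .no .no (.br 1227 (.br 1345 (.br 1344 (.hor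
  [.f 1344 1 5] []) .no (.con 153 [1, 3]) (.use 212) .no .no) .no (.red [.f 1210 1 3, .f 1217 3 1]
  169 153 [1] [(168, 167, [3]), (169, 153, [1])]) (.use 198) .no (.use 199)) .no (.red [.t 1226 2
  3, .t 1097 2 3] 138 137 [3] [(138, 137, [3]), (154, 153, [3])]) .no .no .no)) .no

def f22t214 : Tr4 :=
  .br 1105 (.use 196) (.red [.f 969 1 3, .f 968 3 5] 138 137 [3] [(138, 137, [3])]) (.br 1200
  (.use 213) .no .no (.red [.t 1065 1 3, .f 1192 3 5, .t 1080 4 1] 151 135 [1] [(150, 149, [3]),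
  (151, 135, [1])]) .no .no) .no (.use 175) (.red [.t 968 3 1] 138 137 [3] [(138, 137, [3])])

def f22t215 : Tr4 :=
  .br 842 .no (.hor [.f 713 1 5] []) (.con 120 [3, 3, 2]) .no .no .no

def f22t216 : Tr4 :=
  .br 842 .no (.hor [.f 714 1 5] []) (.use 178) .no .no .no

def f22t217 : Tr4 :=
  .br 1336 (.hor [.f 1336 1 5] []) .no .no .no .no .no

def f22t218 : Tr4 :=
  .br 1331 (.red [.f 1331 1 3] 183 184 [4] [(183, 184, [4])]) .no .no (.br 1330 (.br 1329 (.hor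
  [.f 1329 1 5] []) .no .no (.con 166 [1]) .no .no) .no .no (.hor [.f 1322 3 5] []) .no (.red [.f
  1201 5 1, .f 1200 1 5, .t 1080 4 1] 151 135 [1] [(151, 135, [1])])) .no (.red [.t 1065 1 3, .f
  1074 1 5, .f 1202 5 1, .f 1202 1 3] 167 166 [3] [(150, 134, [1]), (167, 166, [3])])

def f22t219 : Tr4 :=
  .br 1056 (.br 1192 (.use 218) .no .no .no .no .no) (.red [.f 928 1 3, .f 928 3 5] 133 135 [4, 4]
  [(133, 135, [4, 4])]) .no (.hor [.f 1048 3 5] []) .no .no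

def f22t220 : Tr4 :=
  .br 1331 (.red [.f 1331 1 3] 183 166 [3, 1] [(183, 166, [3, 1])]) .no .no (.br 1330 (.br 1329
  (.hor [.f 1329 1 5] []) .no .no (.con 166 [1]) .no .no) .no .no (.hor [.f 1322 3 5] []) .no
  (.red [.f 1201 5 1, .f 1200 1 5, .t 1080 4 1] 151 135 [1] [(151, 135, [1])])) .no (.red [.t 1065
  1 3, .f 1074 1 5, .f 1202 5 1, .f 1202 1 3] 167 166 [3] [(150, 134, [1]), (167, 166, [3])])

def f22t221 : Tr4 :=
  .br 1336 (.hor [.f 1336 1 5] []) .no .no .no .no .no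

def f22t222 : Tr4 :=
  .br 1337 (.use 221) .no .no (.red [.t 1337 4 2, .f 1200 1 5] 167 168 [4] [(167, 168, [4])]) .no
  (.hor [.f 1336 5 3, .f 1208 3 1, .f 1210 1 3, .f 1210 3 5, .f 1337 3 5] [])

def f22l6 : List Tr4 :=
  [f22t193, f22t194, f22t195, f22t196, f22t197, f22t198, f22t199, f22t200, f22t201, f22t202,
  f22t203, f22t204, f22t205, f22t206, f22t207, f22t208, f22t209, f22t210, f22t211, f22t212,
  f22t213, f22t214, f22t215, f22t216, f22t217, f22t218, f22t219, f22t220, f22t221, f22t222]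

theorem f22k6 : chkLF ⟨4, 0, 0, false, -4⟩ false 2 f22N 193 f22l6 = true := by decide +kernel

end Pool.Agent.FT4D
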