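import Pool.Agent.FT4D.Tab_f22

/-!
# Four levels: decision trees (found by a computer search)
-/

namespace Pool.Agent.FT4D

def f22t223 : Tr4 :=
  .br 1345 (.br 1344 (.hor [.f 1344 1 5] []) .no (.con 153 [1, 1]) (.use 212) .no .no) .no (.red
  [.f 1211 3 1, .f 1210 1 5, .f 1217 3 1] 169 153 [1] [(168, 167, [3]), (169, 153, [1])]) (.br
  1344 (.con 168 [1]) .no (.con 168 [1]) (.hor [.f 1336 3 5] []) .no .no) .no (.use 222)

def f22t224 : Tr4 :=
  .br 1064 .no .no .no (.red [.f 1056 3 1, .f 1064 1 5] 149 150 [4] [(149, 150, [4])]) .no .no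

def f22t225 : Tr4 :=
  .br 944 .no (.br 698 .no (.br 706 .no (.use 173) (.br 937 (.red [.f 937 1 3] 134 135 [4] [(134,
  135, [4])]) (.use 210) .no (.br 936 (.br 1065 (.br 1200 (.br 1057 (.red [.f 1057 1 3] 149 150
  [4] [(149, 150, [4])]) .no .no (.br 1339 (.br 1345 (.br 1344 (.hor [.f 1344 1 5] []) .no (.br
  1337 (.use 217) .no .no (.red [.t 1337 4 2, .f 1200 1 5] 167 166 [3] [(167, 166, [3])]) .no
  (.use 219)) (.con 184 [2, 4]) .no .no) .no (.red [.f 1210 1 3, .f 1217 3 1] 169 153 [1] [(168,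
  167, [3]), (169, 153, [1])]) (.br 1056 (.br 1192 (.use 220) .no .no .no .no .no) (.red [.f 928 1
  3, .f 928 3 5] 133 135 [4, 4] [(133, 135, [4, 4])]) .no (.hor [.f 1048 3 5] []) .no .no) .no
  (.br 1337 (.use 221) .no .no (.red [.t 1337 4 2, .f 1200 1 5] 167 166 [3] [(167, 166, [3])]) .no
  (.use 219))) .no (.use 223) (.red [.t 1065 1 3, .f 1074 1 5, .t 1338 2 4] 167 166 [3] [(150,
  134, [1]), (167, 166, [3])]) .no .no) (.red [.t 1065 1 3, .f 1057 5 3, .f 929 3 1, .f 937 1 3]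
  134 135 [4] [(133, 135, [4, 4]), (134, 135, [4]), (150, 134, [1])]) (.red [.t 936 1 4] 133 135
  [4, 4] [(133, 135, [4, 4])])) .no .no (.red [.t 1065 1 3, .f 1192 3 5, .t 1080 4 1] 151 135 [1]
  [(150, 134, [1]), (151, 135, [1])]) .no .no) .no .no (.red [.f 929 3 1, .f 936 1 5] 133 149 [2]
  [(133, 149, [2])]) .no .no) (.red [.f 808 1 3] 118 120 [4, 4] [(118, 120, [4, 4])]) .no (.hor
  [.f 928 3 5] []) .no .no) (.red [.t 1073 2 4] 134 135 [4] [(134, 135, [4])]) (.use 211)) .no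
  (.use 93) .no) (.red [.f 698 3 1, .f 705 1 5] 104 105 [4] [(104, 105, [4])]) (.use 44) (.use 74)
  (.red [.t 833 2 4] 104 105 [4] [(104, 105, [4])])) .no (.br 1065 (.br 1200 (.br 1339 (.br 1347
  (.br 1345 (.br 1344 (.hor [.f 1344 1 5] []) .no (.con 184 [3]) (.con 184 [3]) .no .no) .no (.red
  [.f 1210 1 3, .f 1217 3 1] 169 153 [1] [(168, 167, [3]), (169, 153, [1])]) (.br 1344 (.use 197)
  .no (.con 153 [1, 1]) (.hor [.f 1336 3 5] []) .no .no) .no (.br 1224 (.red [.t 1224 1 4, .f 1217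
  1 5] 169 153 [1] [(169, 153, [1])]) .no (.br 1352 (.br 1227 (.con 153 [3, 1]) .no (.br 1353
  (.hor [.f 1352 1 5] []) .no (.br 1355 (.red [.f 1347 1 3] 185 184 [3] [(185, 184, [3])]) .no
  (.con 184 [3, 3]) .no .no (.con 184 [3, 3])) .no (.red [.f 1210 1 3, .f 1210 3 1, .t 1217 3 1]
  169 153 [1] [(169, 153, [1])]) .no) .no .no .no) .no (.red [.f 1224 3 1] 170 153 [3, 1] [(170,
  153, [3, 1])]) .no (.red [.f 1344 5 3, .f 1217 3 1, .f 1217 1 5, .t 1081 1 3, .f 1208 3 5] 169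
  153 [1] [(152, 136, [1]), (169, 153, [1])]) .no) .no .no .no)) .no (.br 1345 (.br 1344 (.hor [.f
  1344 1 5] []) .no (.br 1337 (.use 217) .no .no (.red [.t 1337 4 2, .f 1200 1 5] 167 166 [3]
  [(167, 166, [3])]) .no (.br 1192 (.use 218) (.hor [.f 1064 1 5] []) .no (.use 224) .no .no))
  (.con 184 [2, 4]) .no .no) .no (.red [.f 1210 1 3, .f 1217 3 1] 169 153 [1] [(168, 167, [3]),
  (169, 153, [1])]) (.br 1192 (.use 220) (.hor [.f 1064 1 5] []) .no (.use 224) .no .no) .no (.use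
  222)) .no .no .no) .no (.use 223) (.red [.t 1065 1 3, .f 1074 1 5, .t 1338 2 4] 167 166 [3]
  [(150, 134, [1]), (167, 166, [3])]) .no .no) .no .no (.red [.t 1065 1 3, .f 1192 3 5, .t 1080 4
  1] 151 135 [1] [(150, 134, [1]), (151, 135, [1])]) .no .no) (.red [.f 937 1 3, .f 936 3 5] 134
  133 [3] [(134, 133, [3])]) .no (.use 208) .no (.red [.t 944 4 1] 134 135 [4] [(134, 135, [4])]))
  .no .no

def f22t226 : Tr4 :=
  .br 842 .no (.con 106 [4, 1]) (.hor [.f 842 3 5] []) .no .no .no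

def f22t227 : Tr4 :=
  .br 1202 (.red [.f 1202 1 3] 167 168 [4] [(167, 168, [4])]) .no .no (.br 968 .no .no (.br 969
  (.br 843 .no (.use 205) (.red [.f 843 3 1, .f 835 1 3, .f 962 3 5] 122 105 [1, 3] [(121, 105,
  [1]), (122, 105, [1, 3])]) .no .no (.red [.f 961 1 3, .t 962 3 2] 121 105 [1] [(121, 105, [1]),
  (137, 121, [1])])) (.br 944 .no (.br 698 .no (.br 706 .no (.use 173) (.br 842 .no .no (.br 947
  .no (.br 937 (.red [.f 937 1 3] 134 135 [4] [(134, 135, [4])]) (.br 843 .no (.use 174) (.hor [.f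
  842 3 5] []) .no .no .no) .no (.use 207) (.red [.t 1073 2 4] 134 135 [4] [(134, 135, [4])])
  (.use 182)) .no (.con 120 [4, 4]) .no .no) .no (.red [.t 962 3 2, .f 841 1 5] 121 105 [1] [(121,
  105, [1])]) .no) .no (.use 93) .no) (.red [.f 698 3 1, .f 705 1 5] 104 105 [4] [(104, 105,
  [4])]) (.use 44) (.use 74) (.red [.t 833 2 4] 104 105 [4] [(104, 105, [4])])) .no (.use 209) .no
  .no) (.use 167) .no .no .no) .no (.br 944 .no (.br 698 .no (.br 706 .no (.use 173) (.br 841 .no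
  (.use 154) (.use 72) .no (.br 843 .no (.br 937 (.red [.f 937 1 3] 134 135 [4] [(134, 135, [4])])
  (.use 210) .no (.use 207) (.red [.t 1073 2 4] 134 135 [4] [(134, 135, [4])]) (.use 211)) (.red
  [.f 843 3 1, .f 835 1 3, .f 962 3 5] 122 106 [1] [(121, 105, [1]), (122, 106, [1])]) .no .no
  .no) .no) .no (.use 93) .no) (.red [.f 698 3 1, .f 705 1 5] 104 105 [4] [(104, 105, [4])]) (.use
  44) (.use 74) (.red [.t 833 2 4] 104 105 [4] [(104, 105, [4])])) .no (.use 209) .no .no) .no)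
  .no (.br 968 .no .no (.br 969 (.br 843 .no (.br 1098 (.br 944 .no (.br 698 .no (.br 706 .no
  (.use 173) (.br 937 (.red [.f 937 1 3] 134 135 [4] [(134, 135, [4])]) (.use 210) .no (.br 841
  .no (.con 105 [3]) (.use 72) .no (.br 936 (.br 1065 (.use 214) .no .no (.red [.f 929 3 1, .f 936
  1 5] 133 149 [2] [(133, 149, [2])]) .no .no) (.red [.f 808 1 3] 118 120 [4, 4] [(118, 120, [4,
  4])]) .no (.hor [.f 928 3 5] []) .no .no) .no) (.red [.t 1073 2 4] 134 135 [4] [(134, 135,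
  [4])]) (.use 211)) .no (.use 93) .no) (.red [.f 698 3 1, .f 705 1 5] 104 105 [4] [(104, 105,
  [4])]) (.use 44) (.use 74) (.red [.t 833 2 4] 104 105 [4] [(104, 105, [4])])) .no (.br 1065 (.br
  841 .no (.use 215) (.use 216) .no (.use 214) .no) (.red [.f 937 1 3, .f 936 3 5] 134 133 [3]
  [(134, 133, [3])]) .no (.use 208) .no (.red [.t 944 4 1] 134 135 [4] [(134, 135, [4])])) .no
  .no) .no (.use 204) .no .no .no) (.red [.f 843 3 1, .f 835 1 3, .f 962 3 5] 122 105 [1, 3]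
  [(121, 105, [1]), (122, 105, [1, 3])]) .no .no (.red [.f 961 1 3, .t 962 3 2] 121 105 [1] [(121,
  105, [1]), (137, 121, [1])])) (.br 1097 .no .no (.br 1098 (.br 843 .no (.use 225) (.use 226) .no
  .no (.red [.t 962 3 2, .f 841 1 5] 121 105 [1] [(121, 105, [1])])) .no (.hor [.f 1097 3 5] [])
  .no .no .no) .no (.red [.t 961 1 3, .t 825 1 3, .f 952 3 5, .t 840 4 1] 121 105 [1] [(120, 104,
  [1]), (121, 105, [1]), (137, 121, [1])]) .no) (.use 167) .no .no .no) .no (.br 1097 .no .no (.br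
  1098 (.br 843 .no (.use 225) (.red [.f 843 3 1, .f 835 1 3, .f 962 3 5] 122 138 [2] [(121, 105,
  [1]), (122, 138, [2])]) .no .no (.red [.t 1088 3 2, .t 962 3 2] 121 105 [1] [(121, 105, [1]),
  (137, 121, [1])])) .no (.hor [.f 1097 3 5] []) .no .no .no) .no (.red [.t 961 1 3, .t 825 1 3,
  .f 952 3 5, .f 960 5 3, .f 832 3 1] 121 105 [1] [(120, 104, [1]), (121, 105, [1]), (137, 121,
  [1])]) .no) .no)

def f22t228 : Tr4 :=
  .br 947 .no (.dom 119 103 [1]) .no (.use 192) .no .no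

def f22t229 : Tr4 :=
  .br 824 .no (.use 188) .no (.use 228) .no .no

def f22t230 : Tr4 :=
  .br 1202 (.red [.f 1202 1 3] 167 166 [3] [(167, 166, [3])]) .no .no (.hor [.f 1193 3 5] []) (.br
  1065 .no (.red [.f 937 1 3, .f 936 3 5] 134 135 [4] [(134, 135, [4])]) .no (.br 1066 (.red [.f
  1074 5 1, .f 1066 1 3] 150 166 [2] [(150, 166, [2])]) (.use 77) .no (.hor [.f 1057 3 5] []) (.br
  937 .no (.use 229) .no (.red [.f 929 3 1, .f 937 1 3] 134 135 [4] [(133, 135, [4, 4]), (134,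
  135, [4])]) (.red [.f 1066 5 3, .t 1073 2 4] 134 135 [4] [(134, 135, [4])]) .no) .no) (.red [.t
  954 4 1, .t 1074 2 3, .f 1074 5 1, .t 1201 4 2] 150 166 [2] [(150, 166, [2])]) (.red [.t 944 4
  1] 134 135 [4] [(134, 135, [4])])) .no

def f22t231 : Tr4 :=
  .br 816 .no (.use 63) (.use 65) (.br 817 .no (.use 37) .no (.hor [.f 808 3 5] []) (.red [.t 953
  2 4] 119 120 [4] [(119, 120, [4])]) .no) (.br 938 (.con 135 [4, 4]) (.br 819 .no (.br 698 .no
  (.br 824 .no (.use 31) .no .no .no .no) (.red [.f 698 3 1, .f 705 1 5] 104 105 [4] [(104, 105,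
  [4])]) (.con 120 [4, 2, 4]) (.use 23) (.red [.t 833 2 4] 104 105 [4] [(104, 105, [4])])) (.con
  120 [4, 2]) (.red [.f 811 3 1, .f 810 1 5] 118 102 [1] [(118, 102, [1])]) .no (.red [.t 938 2 3]
  118 117 [3] [(118, 117, [3])])) .no (.hor [.f 929 3 5] []) .no .no) .no

def f22t232 : Tr4 :=
  .br 947 .no (.use 189) .no (.br 937 (.red [.f 937 1 3, .f 936 3 5] 134 135 [4] [(134, 135,
  [4])]) (.use 229) .no (.use 231) (.br 1066 (.br 1202 (.red [.f 1202 1 3] 167 168 [4] [(167, 168,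
  [4])]) .no .no .no (.red [.f 1074 5 1, .f 1066 1 3] 150 135 [4, 1] [(150, 135, [4, 1])]) (.br
  1203 (.con 168 [4, 4]) .no .no (.red [.t 1194 2 3, .t 1073 2 4] 134 135 [4] [(134, 135, [4]),
  (150, 135, [4, 1])]) .no .no)) .no .no (.use 9) (.hor [.f 1066 5 3, .f 939 3 1, .t 1073 2 4, .f
  936 3 5, .f 938 1 5] []) (.red [.f 937 5 1, .f 937 1 3] 134 135 [4] [(134, 135, [4])])) .no) .no
  .no

def f22t233 : Tr4 :=
  .br 944 .no (.use 187) .no (.br 1200 (.br 1201 (.hor [.f 1200 1 5] []) .no .no (.use 230) (.br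
  947 .no (.use 189) .no (.br 937 (.red [.f 937 1 3, .f 936 3 5] 134 135 [4] [(134, 135, [4])])
  (.use 229) .no (.use 231) (.br 1066 (.br 1065 (.hor [.f 1065 1 5] []) .no .no (.br 1203 (.br
  1064 (.br 1195 (.con 149 [3]) (.hor [.f 1066 1 5] []) .no (.con 149 [3]) .no .no) .no .no (.hor
  [.f 1056 3 5] []) .no .no) .no .no (.red [.t 1194 2 3, .t 1073 2 4] 134 135 [4] [(134, 135,
  [4]), (150, 149, [3])]) .no .no) .no (.red [.t 944 4 1] 134 135 [4] [(134, 135, [4])])) .no .no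
  (.use 9) (.hor [.f 1066 5 3, .f 939 3 1, .t 1073 2 4, .f 936 3 5, .f 938 1 5] []) (.red [.f 937
  5 1, .f 937 1 3] 134 135 [4] [(134, 135, [4])])) .no) .no .no) .no) .no .no (.use 232) (.red [.t
  1080 4 1] 151 135 [1] [(151, 135, [1])]) .no) .no .no

def f22t234 : Tr4 :=
  .br 944 .no (.use 187) .no (.br 824 .no (.use 188) .no (.br 937 (.red [.f 937 1 3, .f 936 3 5]
  134 135 [4] [(134, 135, [4])]) (.use 228) .no (.use 65) (.br 1066 (.br 1065 (.hor [.f 1065 1 5]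
  []) .no .no (.br 1200 (.br 1203 (.use 7) .no .no (.red [.t 1194 2 3, .t 1073 2 4] 134 135 [4]
  [(134, 135, [4]), (150, 149, [3])]) .no .no) .no .no (.br 1203 (.br 1201 (.con 167 [4]) .no .no
  (.use 6) .no .no) .no .no (.red [.t 1194 2 3, .t 1073 2 4] 134 135 [4] [(134, 135, [4]), (150,
  149, [3])]) .no .no) (.red [.t 1080 4 1] 151 135 [1] [(151, 135, [1])]) .no) .no (.use 79)) .no
  .no (.use 9) (.red [.f 1066 5 3, .t 1073 2 4] 134 135 [4] [(134, 135, [4])]) (.red [.f 937 5 1,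
  .f 937 1 3] 134 135 [4] [(134, 135, [4])])) .no) .no .no) .no .no

def f22l7 : List Tr4 :=
  [f22t223, f22t224, f22t225, f22t226, f22t227, f22t228, f22t229, f22t230, f22t231, f22t232,
  f22t233, f22t234]

theorem f22k7 : chkLF ⟨4, 0, 0, false, -4⟩ false 2 f22N 223 f22l7 = true := by decide +kernel

def f22t235 : Tr4 :=
  .br 1219 (.hor [.f 1218 1 5] []) .no (.con 153 [1]) (.br 833 .no (.br 1075 (.br 1074 (.hor [.f
  1074 1 5] []) .no .no (.br 1210 (.use 227) .no .no (.dom 151 135 [1]) .no .no) .no .no) (.con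
  135 [4]) .no (.use 3) .no (.br 1210 (.br 968 .no .no (.br 969 (.br 843 .no (.br 841 .no (.use
  215) (.use 216) .no (.br 1098 (.br 1105 (.use 196) (.red [.f 969 1 3, .f 968 3 5] 138 137 [3]
  [(138, 137, [3])]) (.br 944 .no (.use 187) .no (.br 1200 (.br 1201 (.hor [.f 1200 1 5] []) .no
  .no (.use 230) (.use 213) .no) .no .no (.use 232) (.red [.t 1080 4 1] 151 135 [1] [(151, 135,
  [1])]) .no) .no .no) .no (.use 175) (.red [.t 968 3 1] 138 137 [3] [(138, 137, [3])])) .no (.use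
  177) .no .no .no) .no) (.red [.f 843 3 1, .f 835 1 3, .f 962 3 5] 122 105 [1, 3] [(121, 105,
  [1]), (122, 105, [1, 3])]) .no .no (.red [.f 961 1 3, .t 962 3 2] 121 105 [1] [(121, 105, [1]),
  (137, 121, [1])])) (.br 843 .no (.use 233) (.use 226) .no .no (.red [.t 962 3 2, .f 841 1 5] 121
  105 [1] [(121, 105, [1])])) (.use 167) .no .no .no) .no (.br 843 .no (.use 233) (.red [.f 843 3
  1, .f 835 1 3, .f 962 3 5] 122 138 [2] [(121, 105, [1]), (122, 138, [2])]) .no .no (.red [.t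
  1088 3 2, .t 962 3 2] 121 105 [1] [(121, 105, [1]), (137, 121, [1])])) .no) .no .no (.br 968 .no
  .no (.br 969 (.br 843 .no (.use 234) (.red [.f 843 3 1, .f 835 1 3, .f 962 3 5] 122 105 [1, 3]
  [(121, 105, [1]), (122, 105, [1, 3])]) .no .no (.red [.f 961 1 3, .t 962 3 2] 121 105 [1] [(121,
  105, [1]), (137, 121, [1])])) (.br 843 .no (.use 234) (.use 226) .no .no (.red [.t 962 3 2, .f
  841 1 5] 121 105 [1] [(121, 105, [1])])) (.use 167) .no .no .no) .no (.br 843 .no (.use 234)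
  (.red [.f 843 3 1, .f 835 1 3, .f 962 3 5] 122 138 [2] [(121, 105, [1]), (122, 138, [2])]) .no
  .no (.red [.t 1088 3 2, .t 962 3 2] 121 105 [1] [(121, 105, [1]), (137, 121, [1])])) .no) .no
  .no)) (.hor [.f 832 3 5] []) .no .no .no) .no .no

def f22t236 : Tr4 :=
  .br 945 (.br 832 .no (.use 0) (.br 1208 (.br 1200 (.br 1211 (.use 159) .no (.red [.f 1200 1 3,
  .f 1072 3 1, .f 1080 1 5] 151 135 [1] [(151, 135, [1]), (167, 168, [4])]) (.red [.f 1200 1 3, .f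
  1072 3 1, .f 1080 1 5] 151 135 [1] [(151, 135, [1]), (167, 168, [4])]) .no (.red [.f 1200 1 3,
  .f 1072 3 1, .f 1080 1 5] 151 135 [1] [(151, 135, [1]), (167, 168, [4])])) .no .no (.br 833 .no
  (.br 1218 (.use 193) .no (.br 1219 (.br 1216 (.br 1217 (.hor [.f 1216 1 5] []) .no (.hor [.f
  1217 3 5] []) .no .no .no) .no (.con 169 [2, 2, 2]) .no (.con 169 [2, 2, 2]) .no) .no (.hor [.f
  1218 3 5] []) (.con 168 [2, 2]) .no .no) (.red [.f 1082 3 1, .f 1081 1 5, .t 945 1 3, .f 1072 3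
  5, .t 960 4 1] 136 136 [] [(135, 119, [1]), (136, 136, []), (152, 136, [1])]) (.br 1211 (.br
  1075 (.use 194) (.con 135 [4]) .no (.use 3) .no (.br 1210 (.hor [.f 1210 1 5] []) .no .no (.use
  156) .no .no)) .no .no (.br 1202 (.con 135 [1, 1]) (.con 135 [1, 4]) (.hor [.f 1202 3 5] [])
  (.con 135 [1, 1]) .no (.con 135 [1, 1])) .no (.red [.f 1210 5 3, .f 1082 3 1, .f 1081 1 5, .t
  945 1 3, .f 1072 3 5, .t 960 4 1] 136 136 [] [(135, 119, [1]), (136, 136, []), (152, 136,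
  [1])])) (.red [.t 1081 1 3, .t 945 1 3, .f 1072 3 5, .t 960 4 1] 136 136 [] [(135, 119, [1]),
  (136, 136, []), (152, 136, [1])])) (.hor [.f 832 3 5] []) .no .no .no) (.red [.t 1080 4 1] 151
  135 [1] [(151, 135, [1])]) .no) .no (.br 1217 (.br 1218 (.hor [.f 1217 1 5] []) .no (.br 1219
  (.con 169 [4]) .no (.hor [.f 1218 3 5] []) (.con 169 [2, 2, 2]) .no .no) (.red [.f 1082 3 1, .f
  1081 1 5, .t 945 1 3, .f 1072 3 5, .t 960 4 1] 136 136 [] [(135, 119, [1]), (136, 136, []),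
  (152, 136, [1])]) (.use 195) .no) .no (.br 1218 (.use 235) .no (.hor [.f 1217 3 5] []) (.red [.f
  1082 3 1, .f 1081 1 5, .t 945 1 3, .f 1072 3 5, .t 960 4 1] 136 136 [] [(135, 119, [1]), (136,
  136, []), (152, 136, [1])]) (.use 195) .no) .no (.red [.t 1081 1 3, .t 945 1 3, .f 1072 3 5, .t
  960 4 1] 136 136 [] [(135, 119, [1]), (136, 136, []), (152, 136, [1])]) .no) (.red [.f 1072 3 1,
  .f 1080 1 5] 151 135 [1] [(151, 135, [1])]) .no .no) (.con 120 [2]) (.red [.t 952 3 2, .t 1072 3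
  2, .f 945 3 5, .t 1089 2 4, .f 825 3 1] 136 136 [] [(135, 119, [1]), (136, 136, [])]) .no) (.red
  [.f 817 1 3] 119 120 [4] [(119, 120, [4])]) .no (.use 168) .no (.use 123)

def f22t237 : Tr4 :=
  .br 953 (.con 135 [3]) (.br 1080 (.br 1081 (.hor [.f 1080 1 5] []) .no .no (.con 151 [2, 3]) .no
  .no) .no (.con 152 [2]) (.br 1081 (.br 954 .no (.hor [.f 825 1 5] []) .no (.br 1091 (.use 171)
  .no (.br 971 .no (.red [.f 835 1 3] 121 120 [3] [(121, 120, [3])]) (.br 1088 (.con 153 [2, 2])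
  .no (.br 826 .no (.use 142) (.use 236) (.red [.f 818 3 1, .f 825 1 5] 119 120 [4] [(119, 120,
  [4])]) (.br 945 (.br 832 .no (.use 11) (.br 834 .no (.br 833 .no (.hor [.f 705 1 5] []) (.hor
  [.f 832 3 5] []) .no .no .no) (.red [.f 834 3 1, .f 834 1 5] 121 105 [1] [(121, 105, [1])]) .no
  .no (.br 969 (.br 843 .no (.br 842 .no (.hor [.f 714 1 5] []) (.br 841 .no (.con 105 [3]) (.hor
  [.f 841 3 5] []) .no .no .no) .no .no (.red [.f 833 5 3, .f 832 3 5, .f 834 3 1, .f 834 1 5] 121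
  105 [1] [(121, 105, [1])])) (.red [.f 843 3 1, .f 835 1 3, .f 962 3 5] 122 105 [1, 3] [(121,
  105, [1]), (122, 105, [1, 3])]) .no .no (.red [.f 961 1 3, .t 962 3 2] 121 105 [1] [(121, 105,
  [1]), (137, 121, [1])])) (.red [.t 969 2 4, .f 832 3 5] 121 105 [1] [(121, 105, [1])]) (.use
  169) .no .no (.br 843 .no (.br 842 .no (.hor [.f 714 1 5] []) (.br 841 .no (.con 105 [3]) (.hor
  [.f 841 3 5] []) .no .no .no) .no .no (.red [.f 833 5 3, .f 832 3 5, .f 834 3 1, .f 834 1 5] 121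
  105 [1] [(121, 105, [1])])) (.red [.f 843 3 1, .f 835 1 3, .f 962 3 5] 122 138 [2] [(121, 105,
  [1]), (122, 138, [2])]) .no .no (.red [.t 1088 3 2, .t 962 3 2] 121 105 [1] [(121, 105, [1]),
  (137, 121, [1])])))) (.red [.f 824 3 1, .f 824 1 5, .t 1072 3 2, .f 945 3 5, .t 1089 2 4, .t 960
  2 4] 136 136 [] [(135, 119, [1]), (136, 136, [])]) (.red [.t 952 3 2, .t 1072 3 2, .f 945 3 5,
  .t 1089 2 4, .f 825 3 1] 136 136 [] [(135, 119, [1]), (136, 136, [])]) .no) (.red [.f 817 1 3]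
  119 120 [4] [(119, 120, [4])]) .no (.use 121) .no (.use 170)) .no) .no .no .no) .no .no .no) .no
  .no .no) .no .no) .no .no (.hor [.f 1072 3 5] []) .no .no) (.red [.t 960 4 1] 136 136 [] [(136,
  136, [])]) .no) .no (.br 946 (.con 119 [1, 3]) (.con 119 [1, 3]) (.hor [.f 945 3 5] []) (.con
  119 [1, 3]) (.con 119 [1, 3]) .no) (.red [.t 1089 2 4, .f 952 3 5] 136 136 [] [(136, 136, [])])
  .no

def f22t238 : Tr4 :=
  .br 962 .no (.br 963 (.con 137 [4]) (.hor [.f 834 1 5] []) (.con 121 [4, 1]) .no .no .no) (.br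
  963 (.con 137 [4]) (.use 237) (.hor [.f 962 3 5] []) .no .no .no) (.con 120 [1]) (.red [.t 1082
  3 2, .f 961 1 5] 136 136 [] [(136, 136, [])]) .no

def f22l8 : List Tr4 :=
  [f22t235, f22t236, f22t237, f22t238]

theorem f22k8 : chkLF ⟨4, 0, 0, false, -4⟩ false 2 f22N 235 f22l8 = true := by decide +kernel

end Pool.Agent.FT4D
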