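import Pool.Agent.FT4D.ChainF4
import Pool.Agent.FT4D.Tr_f22_0
import Pool.Agent.FT4D.Tr_f22_1

/-!
# Four levels: the chunks of the trees `f22` together
-/

namespace Pool.Agent.FT4D

theorem f22H : Holds ⟨4, 0, 0, false, -4⟩ false 2 [] := by
  have h0 := chStart ⟨4, 0, 0, false, -4⟩ false 2 f22N
  have h1 := chStepF f22l0 49 h0 f22k0 (by decide +kernel) (by decide +kernel)
  have h2 := chStepF f22l1 87 h1 f22k1 (by decide +kernel) (by decide +kernel)
  have h3 := chStepF f22l2 118 h2 f22k2 (by decide +kernel) (by decide +kernel)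
  have h4 := chStepF f22l3 153 h3 f22k3 (by decide +kernel) (by decide +kernel)
  have h5 := chStepF f22l4 171 h4 f22k4 (by decide +kernel) (by decide +kernel)
  have h6 := chStepF f22l5 193 h5 f22k5 (by decide +kernel) (by decide +kernel)
  have h7 := chStepF f22l6 223 h6 f22k6 (by decide +kernel) (by decide +kernel)
  have h8 := chStepF f22l7 235 h7 f22k7 (by decide +kernel) (by decide +kernel)
  have h9 := chStepF f22l8 239 h8 f22k8 (by decide +kernel) (by decide +kernel)
  exact chEnd h9 238 (by decide +kernel) (by decide +kernel)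

end Pool.Agent.FT4D
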