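import Pool.Agent.FT4D.Tab_f27

/-!
# Four levels: decision trees (found by a computer search)
-/

namespace Pool.Agent.FT4D

def f27t0 : Tr4 :=
  .br 937 (.con 135 [4, 2]) (.con 135 [4, 2]) (.hor [.f 936 3 5] []) (.con 135 [4, 2]) (.con 135
  [4, 2]) .no

def f27t1 : Tr4 :=
  .br 1202 (.con 135 [1, 4, 1]) .no .no (.hor [.f 1193 3 5] []) .no .no

def f27t2 : Tr4 :=
  .br 1203 (.red [.f 1203 1 3] 167 168 [4] [(167, 168, [4])]) (.con 168 [4, 4]) .no (.con 168 [4,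
  4]) .no (.con 168 [4, 4])

def f27t3 : Tr4 :=
  .br 1202 (.con 167 [4]) .no .no (.hor [.f 1193 3 5] []) .no .no

def f27t4 : Tr4 :=
  .br 1218 (.hor [.f 1218 1 5] []) .no (.br 1217 (.con 168 [3]) .no (.hor [.f 1217 3 5] []) (.con
  137 [1, 1]) .no .no) .no .no (.br 1209 (.br 1208 (.hor [.f 1208 1 5] []) .no .no (.br 1201 (.red
  [.f 1201 1 3, .f 1200 3 5] 167 168 [4] [(167, 168, [4])]) .no .no (.br 1211 (.con 168 [4]) .no
  .no (.use 1) .no .no) (.red [.t 1081 4 1] 151 135 [1] [(151, 135, [1])]) .no) .no .no) .no .no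
  (.red [.f 1073 3 1, .f 1081 1 5] 151 135 [1] [(151, 135, [1])]) .no (.br 1072 (.red [.t 1072 1
  3, .f 1081 1 5] 151 135 [1] [(151, 135, [1])]) (.con 135 [4]) .no (.br 1200 (.br 1201 (.hor [.f
  1200 1 5] []) .no .no (.br 1211 (.use 2) .no .no (.use 3) .no .no) (.red [.t 1081 4 1] 151 135
  [1] [(151, 135, [1])]) .no) .no .no (.red [.f 1064 3 1, .t 1072 1 3, .f 1081 1 5] 151 135 [1]
  [(150, 135, [4, 1]), (151, 135, [1])]) (.red [.f 1200 5 3, .f 1073 3 1] 151 135 [1] [(151, 135,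
  [1])]) .no) .no .no))

def f27t5 : Tr4 :=
  .br 1338 (.hor [.f 1337 1 5] []) .no .no (.red [.f 1337 1 3] 184 183 [3] [(184, 183, [3])])
  (.red [.f 1337 1 3] 184 183 [3] [(184, 183, [3])]) .no

def f27t6 : Tr4 :=
  .br 1072 (.br 1201 (.br 1067 (.hor [.f 1066 1 5] []) (.br 1338 (.hor [.f 1337 1 5] []) .no .no
  (.con 135 [4, 1, 1, 3]) (.con 135 [1, 1, 3]) .no) .no (.br 1338 (.hor [.f 1337 1 5] []) .no .no
  (.con 135 [4, 1, 1, 3]) (.con 135 [1, 1, 3]) .no) .no .no) .no .no (.con 135 [4, 1, 1]) (.red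
  [.t 1081 4 1, .f 1072 1 5] 151 135 [1] [(151, 135, [1])]) .no) .no .no (.con 135 [4, 1]) .no .no

def f27t7 : Tr4 :=
  .br 817 .no (.br 818 .no (.hor [.f 689 1 5] []) .no .no .no .no) .no (.con 118 [2]) (.red [.t
  937 3 2, .f 810 3 5, .t 954 2 4] 119 118 [3] [(118, 102, [1]), (119, 118, [3])]) .no

def f27t8 : Tr4 :=
  .br 1067 (.red [.f 1067 1 3] 150 118 [1, 1] [(150, 118, [1, 1])]) (.br 938 .no (.use 7) .no
  (.red [.f 930 3 1, .f 938 1 5] 133 117 [1] [(133, 117, [1])]) .no .no) .no (.hor [.f 1058 3 5]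
  []) .no .no

def f27t9 : Tr4 :=
  .br 1201 (.hor [.f 1201 1 5] []) .no .no (.con 135 [1, 1, 4]) .no (.con 135 [1, 4])

def f27t10 : Tr4 :=
  .br 1202 (.use 9) .no .no (.red [.t 1202 4 2] 150 135 [4, 1] [(150, 135, [4, 1])]) .no (.red [.t
  1081 4 1] 151 135 [1] [(151, 135, [1])])

def f27t11 : Tr4 :=
  .br 1338 (.hor [.f 1337 1 5] []) .no .no (.red [.t 1338 4 2, .f 1201 1 5] 167 183 [2] [(167,
  183, [2])]) .no .no

def f27t12 : Tr4 :=
  .br 1203 (.br 1211 (.red [.f 1203 1 3] 167 135 [1, 1] [(167, 135, [1, 1])]) .no .no .no .no .no)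
  .no (.dom 151 135 [1]) (.con 150 [1]) .no (.red [.t 1066 1 3, .f 1193 3 5, .t 1081 4 1] 151 135
  [1] [(150, 134, [1]), (151, 135, [1])])

def f27t13 : Tr4 :=
  .br 1201 (.br 1211 (.br 1202 (.hor [.f 1201 1 5] []) .no .no .no (.use 11) .no) .no .no (.dom
  151 135 [1]) .no .no) .no .no (.use 12) (.red [.t 1081 4 1, .f 1072 1 5] 151 135 [1] [(151, 135,
  [1])]) .no

def f27t14 : Tr4 :=
  .br 1201 (.hor [.f 1200 1 5] []) .no .no (.con 135 [1, 4, 1]) (.red [.t 1081 4 1] 151 135 [1]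
  [(151, 135, [1])]) .no

def f27t15 : Tr4 :=
  .br 1200 (.use 14) .no .no (.red [.f 1064 3 1] 150 118 [1, 1] [(150, 118, [1, 1])]) (.br 1065
  (.red [.t 1064 3 1] 150 118 [1, 1] [(150, 118, [1, 1])]) .no .no (.con 118 [1, 4, 1]) .no .no)
  .no

def f27t16 : Tr4 :=
  .br 1065 (.red [.f 930 3 1, .f 938 1 3] 134 135 [4] [(133, 149, [2]), (134, 135, [4])]) .no .no
  (.hor [.f 1057 3 5] []) .no (.red [.f 930 3 1, .f 938 1 3] 134 135 [4] [(133, 149, [2]), (134,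
  135, [4])])

def f27t17 : Tr4 :=
  .br 1066 (.br 1072 (.use 13) .no .no (.use 15) .no .no) .no .no (.use 16) .no (.red [.t 945 4 1]
  134 118 [1] [(134, 118, [1])])

def f27t18 : Tr4 :=
  .br 1067 (.hor [.f 1066 1 5] []) (.br 1065 (.hor [.f 1065 1 5] []) .no .no (.con 118 [1, 1, 4])
  .no (.con 118 [1, 4])) .no (.br 1065 (.hor [.f 1065 1 5] []) .no .no (.con 118 [1, 1, 4]) .no
  (.con 118 [1, 4, 1])) .no .no

def f27t19 : Tr4 :=
  .br 1067 (.hor [.f 1066 1 5] []) .no .no (.br 1065 (.hor [.f 1065 1 5] []) .no .no (.con 118 [1,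
  1, 4]) .no (.con 118 [1, 4, 1])) .no .no

def f27t20 : Tr4 :=
  .br 1201 .no .no .no (.use 12) (.red [.t 1081 4 1, .f 1072 1 5] 151 135 [1] [(151, 135, [1])])
  .no

def f27t21 : Tr4 :=
  .br 1066 (.br 1072 (.use 20) .no .no (.use 15) .no .no) .no .no (.use 16) .no (.red [.t 945 4 1]
  134 118 [1] [(134, 118, [1])])

def f27t22 : Tr4 :=
  .br 1065 (.hor [.f 1065 1 5] []) .no .no (.con 135 [1, 4, 4]) .no (.con 135 [1, 4, 2])

def f27t23 : Tr4 :=
  .br 938 (.red [.f 938 1 3, .f 937 3 5] 134 118 [1] [(134, 118, [1])]) (.use 7) .no (.br 1066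
  (.use 22) .no .no (.use 16) .no (.red [.t 945 4 1] 134 118 [1] [(134, 118, [1])])) (.red [.t
  1074 2 4, .f 937 3 5] 134 118 [1] [(134, 118, [1])]) .no

def f27t24 : Tr4 :=
  .br 1208 (.br 1337 (.br 1075 (.br 1066 (.use 6) (.red [.f 938 1 3, .f 937 3 5] 134 118 [1]
  [(134, 118, [1])]) .no (.use 8) (.use 10) (.red [.t 945 4 1] 134 118 [1] [(134, 118, [1])])) .no
  .no (.br 938 (.red [.f 938 1 3, .f 937 3 5] 134 118 [1] [(134, 118, [1])]) (.use 7) .no (.use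
  17) (.red [.t 1074 2 4, .f 937 3 5] 134 118 [1] [(134, 118, [1])]) .no) .no .no) .no (.red [.f
  1209 3 1, .f 1208 1 5] 168 152 [1] [(168, 152, [1])]) (.br 1075 (.br 1066 (.br 938 .no (.use 7)
  .no (.use 18) (.use 19) .no) (.red [.f 938 1 3, .f 937 3 5] 134 118 [1] [(134, 118, [1])]) .no
  (.use 8) (.use 10) (.red [.t 945 4 1] 134 118 [1] [(134, 118, [1])])) .no .no (.br 938 (.red [.f
  938 1 3, .f 937 3 5] 134 118 [1] [(134, 118, [1])]) (.use 7) .no (.use 21) (.red [.t 1074 2 4,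
  .f 937 3 5] 134 118 [1] [(134, 118, [1])]) .no) .no .no) (.red [.t 1217 4 1, .f 1208 1 5] 168
  152 [1] [(168, 152, [1])]) .no) .no .no (.br 1075 (.con 135 [1, 4]) .no .no (.use 23) .no .no)
  .no .no

def f27t25 : Tr4 :=
  .br 819 .no (.red [.f 691 1 3] 103 104 [4] [(103, 104, [4])]) .no (.br 1218 (.br 1217 (.hor [.f
  1217 1 5] []) .no (.con 169 [2]) (.use 24) .no .no) .no (.hor [.f 1218 3 5] []) .no .no (.br
  1209 (.br 1208 (.hor [.f 1208 1 5] []) .no .no (.br 1075 (.con 135 [1, 4]) .no .no (.use 23) .no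
  .no) .no .no) .no .no (.red [.f 1073 3 1, .f 1081 1 5] 151 135 [1] [(151, 135, [1])]) .no (.br
  1072 (.red [.t 1072 1 3, .f 1081 1 5] 151 135 [1] [(151, 135, [1])]) .no .no (.br 1200 (.br 1075
  (.con 118 [1, 1]) .no .no (.br 938 (.red [.f 938 1 3, .f 937 3 5] 134 118 [1] [(134, 118, [1])])
  (.use 7) .no (.br 1066 (.br 1201 (.hor [.f 1200 1 5] []) .no .no (.con 118 [1, 1, 4]) (.red [.t
  1081 4 1] 151 135 [1] [(151, 135, [1])]) .no) .no .no (.use 16) .no (.red [.t 945 4 1] 134 118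
  [1] [(134, 118, [1])])) (.red [.t 1074 2 4, .f 937 3 5] 134 118 [1] [(134, 118, [1])]) .no) .no
  .no) .no .no (.red [.f 1064 3 1, .t 1072 1 3, .f 1081 1 5] 151 135 [1] [(150, 118, [1, 1]),
  (151, 135, [1])]) (.red [.f 1200 5 3, .f 1073 3 1] 151 135 [1] [(151, 135, [1])]) .no) .no
  .no))) .no (.red [.t 960 2 4, .t 824 3 1, .t 954 2 4] 119 118 [3] [(119, 118, [3])])

def f27t26 : Tr4 :=
  .br 945 .no (.hor [.f 816 1 5] []) .no (.br 825 .no (.br 819 .no (.red [.f 691 1 3] 103 104 [4]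
  [(103, 104, [4])]) .no (.br 824 .no (.hor [.f 696 1 5] []) .no .no .no .no) .no (.red [.t 954 2
  4] 119 118 [3] [(119, 118, [3])])) .no (.dom 119 103 [1]) .no (.use 25)) .no .no

def f27t27 : Tr4 :=
  .br 1211 (.con 135 [1, 1]) .no .no (.use 1) .no .no

def f27t28 : Tr4 :=
  .br 1208 (.hor [.f 1208 1 5] []) .no .no (.br 1201 (.red [.f 1201 1 3, .f 1200 3 5] 167 168 [4]
  [(167, 168, [4])]) .no .no (.use 27) (.red [.t 1081 4 1] 151 135 [1] [(151, 135, [1])]) .no) .no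
  .no

def f27t29 : Tr4 :=
  .br 1200 (.br 1201 (.hor [.f 1200 1 5] []) .no .no (.br 1211 (.use 2) .no .no (.use 3) .no .no)
  (.red [.t 1081 4 1] 151 135 [1] [(151, 135, [1])]) .no) .no .no (.red [.f 1064 3 1, .t 1072 1 3,
  .f 1081 1 5] 151 135 [1] [(150, 135, [1, 4]), (151, 135, [1])]) (.red [.f 1200 5 3, .f 1073 3 1]
  151 135 [1] [(151, 135, [1])]) .no

def f27t30 : Tr4 :=
  .br 1209 (.use 28) .no (.red [.t 1080 2 4, .t 1216 2 4, .f 1081 1 5, .t 961 4 1] 136 136 []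
  [(135, 136, [4]), (136, 136, []), (152, 136, [1])]) (.red [.t 1080 2 4, .t 944 3 1, .f 1073 3 1]
  151 135 [1] [(151, 135, [1])]) .no (.br 1072 (.red [.t 1080 2 4, .t 944 3 1, .t 1072 1 3] 151
  135 [1] [(151, 135, [1])]) .no .no (.use 29) .no .no)

def f27t31 : Tr4 :=
  .br 834 .no (.con 105 [4, 1, 1]) (.hor [.f 833 3 5] []) .no .no .no

def f27t32 : Tr4 :=
  .br 944 (.con 135 [2, 4]) (.hor [.f 816 1 5] []) .no (.con 134 [2]) .no .no

def f27t33 : Tr4 :=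
  .br 1208 (.hor [.f 1208 1 5] []) .no .no (.br 1201 (.red [.f 1201 1 3, .f 1200 3 5] 167 168 [4]
  [(167, 168, [4])]) .no .no (.br 1202 (.con 135 [1, 4, 1]) .no .no (.red [.f 1066 3 1, .f 1074 1
  3] 151 135 [1] [(150, 135, [1, 4]), (151, 135, [1])]) (.con 135 [1, 1]) .no) (.red [.t 1081 4 1]
  151 135 [1] [(151, 135, [1])]) .no) .no .no

def f27t34 : Tr4 :=
  .br 1067 (.con 134 [1]) (.con 134 [1]) (.hor [.f 1066 3 5] []) (.con 134 [1]) .no .no

def f27t35 : Tr4 :=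
  .br 1208 (.hor [.f 1208 1 5] []) .no .no (.con 135 [1, 1]) .no .no

def f27t36 : Tr4 :=
  .br 1200 (.br 1203 (.red [.f 1203 1 3] 167 168 [4] [(167, 168, [4])]) .no .no (.br 1201 (.hor
  [.f 1200 1 5] []) .no .no (.con 134 [1, 1]) (.con 134 [1, 1]) .no) .no (.red [.f 1074 5 1, .f
  1074 1 3] 151 135 [1] [(151, 135, [1])])) .no .no (.red [.f 1064 3 1, .t 1072 1 3, .f 1081 1 5]
  151 135 [1] [(150, 134, [1]), (151, 135, [1])]) (.red [.f 1200 5 3, .f 1073 3 1] 151 135 [1]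
  [(151, 135, [1])]) .no

def f27t37 : Tr4 :=
  .br 1074 (.red [.f 1074 1 3, .f 1073 3 5] 151 135 [1] [(151, 135, [1])]) .no .no (.br 945 .no
  (.use 32) .no (.hor [.f 937 3 5] []) .no (.br 1209 (.use 33) .no (.red [.t 1080 2 4, .t 1216 2
  4, .f 1081 1 5, .t 961 4 1] 136 136 [] [(135, 119, [1]), (136, 136, []), (152, 136, [1])]) (.red
  [.t 1080 2 4, .t 944 3 1, .f 1073 3 1] 151 135 [1] [(151, 135, [1])]) .no (.br 1072 (.red [.t
  1080 2 4, .t 944 3 1, .t 1072 1 3] 151 135 [1] [(151, 135, [1])]) .no .no (.use 34) .no .no)))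
  (.br 1211 (.br 1209 (.use 35) .no (.br 945 .no (.use 32) .no (.hor [.f 937 3 5] []) .no (.red
  [.t 1080 2 4, .t 1216 2 4, .f 1081 1 5, .t 961 4 1] 136 136 [] [(135, 119, [1]), (136, 136, []),
  (152, 136, [1])])) (.red [.f 1073 3 1, .f 1081 1 5] 151 135 [1] [(151, 135, [1])]) .no (.br 1072
  (.red [.t 1072 1 3, .f 1081 1 5] 151 135 [1] [(151, 135, [1])]) (.br 937 (.con 135 [4, 2]) (.con
  135 [4, 2]) (.hor [.f 937 3 5] []) (.con 135 [4, 2]) .no (.con 135 [4, 2])) .no (.use 36) .no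
  .no)) .no (.red [.f 1083 3 1, .f 1082 1 5, .f 1074 5 3, .f 1073 3 5, .t 961 4 1] 136 136 []
  [(136, 136, []), (152, 136, [1])]) (.red [.t 1210 2 4, .f 1073 3 5] 151 135 [1] [(151, 135,
  [1])]) .no .no) .no

def f27t38 : Tr4 :=
  .br 824 .no (.hor [.f 696 1 5] []) .no (.con 104 [4]) .no .no

def f27t39 : Tr4 :=
  .br 1209 (.use 33) .no (.br 1072 (.br 1075 (.br 1202 (.use 9) .no .no (.red [.f 1066 3 1, .f
  1074 1 5] 150 134 [1] [(150, 134, [1])]) .no (.red [.t 1081 4 1, .f 1072 1 5] 151 135 [1] [(151,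
  135, [1])])) .no .no (.hor [.f 1066 3 5] []) .no .no) (.red [.f 944 1 3, .f 1072 3 5, .t 1216 2
  4, .f 1081 1 5, .t 961 4 1] 136 136 [] [(135, 134, [3]), (136, 136, []), (152, 136, [1])]) .no
  (.use 34) .no .no) (.red [.f 1073 3 1, .f 1081 1 5] 151 135 [1] [(151, 135, [1])]) .no (.br 1072
  (.red [.t 1072 1 3, .f 1081 1 5] 151 135 [1] [(151, 135, [1])]) (.br 1075 (.con 135 [4, 1]) .no
  .no (.hor [.f 1066 3 5] []) .no .no) .no (.use 34) .no .no)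

def f27t40 : Tr4 :=
  .br 818 .no (.br 817 .no (.hor [.f 689 1 5] []) .no (.con 120 [4, 2, 4]) .no (.con 120 [4, 2,
  4])) .no (.hor [.f 810 3 5] []) .no (.red [.f 817 5 1, .f 818 1 3] 119 120 [4] [(119, 120,
  [4])])

def f27t41 : Tr4 :=
  .br 819 .no (.red [.f 691 1 3] 103 104 [4] [(103, 104, [4])]) .no (.use 40) .no (.red [.t 960 2
  4, .t 824 3 1, .t 954 2 4] 119 120 [4] [(119, 120, [4])])

def f27l0 : List Tr4 :=
  [f27t0, f27t1, f27t2, f27t3, f27t4, f27t5, f27t6, f27t7, f27t8, f27t9, f27t10, f27t11, f27t12,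
  f27t13, f27t14, f27t15, f27t16, f27t17, f27t18, f27t19, f27t20, f27t21, f27t22, f27t23, f27t24,
  f27t25, f27t26, f27t27, f27t28, f27t29, f27t30, f27t31, f27t32, f27t33, f27t34, f27t35, f27t36,
  f27t37, f27t38, f27t39, f27t40, f27t41]

theorem f27k0 : chkLF ⟨4, 1, 0, false, -4⟩ false 7 f27N 0 f27l0 = true := by decide +kernel

def f27t42 : Tr4 :=
  .br 834 .no (.hor [.f 705 1 5] []) (.con 120 [2, 3]) .no .no .no

def f27t43 : Tr4 :=
  .br 825 .no (.hor [.f 696 1 5] []) .no (.dom 119 103 [1]) .no .no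

def f27t44 : Tr4 :=
  .br 1201 .no .no .no (.con 135 [4, 1, 1]) (.red [.t 1081 4 1, .f 1072 1 5] 151 135 [1] [(151,
  135, [1])]) .no

def f27t45 : Tr4 :=
  .br 818 .no .no .no (.hor [.f 809 3 5] []) (.red [.t 954 2 4, .f 690 3 1] 103 120 [4, 2] [(103,
  120, [4, 2]), (119, 120, [4])]) .no

def f27t46 : Tr4 :=
  .br 1226 (.con 169 [3]) .no (.br 1106 .no (.hor [.f 977 1 5] []) (.br 1107 (.red [.t 1234 4 2]
  154 138 [1] [(154, 138, [1])]) (.con 138 [3]) (.hor [.f 1106 3 5] []) .no .no .no) .no (.red [.f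
  1098 5 3, .f 1098 3 1] 154 138 [1] [(154, 138, [1])]) .no) .no .no (.red [.t 1345 3 2, .f 1224 1
  5, .t 1088 1 3] 153 137 [1] [(153, 137, [1]), (169, 153, [1])])

def f27t47 : Tr4 :=
  .br 1345 (.use 5) .no (.use 46) .no .no (.red [.t 1208 1 3, .f 1217 1 5] 168 152 [1] [(168, 152,
  [1])])

def f27t48 : Tr4 :=
  .br 1338 (.con 135 [1, 1, 1]) .no .no (.hor [.f 1329 3 5] []) (.con 135 [1, 1, 3]) .no

def f27t49 : Tr4 :=
  .br 1200 (.use 14) .no .no (.red [.f 1064 3 1] 150 135 [4, 1] [(150, 135, [4, 1])]) (.br 1065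
  (.red [.t 1064 3 1] 150 135 [4, 1] [(150, 135, [4, 1])]) .no .no (.con 135 [4, 4, 1]) .no .no)
  .no

def f27t50 : Tr4 :=
  .br 1072 (.use 20) .no .no (.use 49) .no .no

def f27t51 : Tr4 :=
  .br 1202 (.con 135 [1, 4, 1]) .no .no (.hor [.f 1193 3 5] []) (.con 135 [1, 4, 1]) .no

def f27t52 : Tr4 :=
  .br 1200 (.use 51) (.br 1211 (.br 1202 (.con 135 [1, 1, 1]) .no .no (.hor [.f 1193 3 5] []) (.br
  1338 (.con 135 [1, 1, 1]) .no .no (.red [.t 1338 4 2] 167 135 [1, 1] [(167, 135, [1, 1])]) .no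
  .no) .no) .no .no (.dom 151 135 [1]) .no .no) .no (.hor [.f 1192 3 5] []) .no .no

def f27t53 : Tr4 :=
  .br 1072 .no .no .no (.br 1065 (.red [.t 1064 3 1] 150 149 [3] [(150, 149, [3])]) .no .no (.hor
  [.f 1057 3 5] []) .no .no) .no .no

def f27t54 : Tr4 :=
  .br 1066 (.use 50) .no .no (.br 1201 .no .no .no (.use 52) (.red [.t 937 3 2, .t 1081 4 1] 151
  135 [1] [(118, 119, [4]), (151, 135, [1])]) (.use 53)) .no (.red [.t 945 4 1] 134 118 [1] [(134,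
  118, [1])])

def f27t55 : Tr4 :=
  .br 1075 (.br 1200 (.con 135 [1, 4]) (.br 1066 (.use 44) (.red [.f 938 1 3, .f 937 3 5] 134 118
  [1] [(134, 118, [1])]) .no (.br 1067 (.red [.f 1067 1 3] 150 118 [1, 1] [(150, 118, [1, 1])])
  (.br 938 .no (.br 698 .no (.hor [.f 570 1 5] []) .no (.br 817 .no (.red [.t 960 2 4, .f 825 1 5,
  .t 689 1 3, .f 698 1 3] 104 120 [2] [(103, 87, [1]), (104, 120, [2]), (120, 104, [1])]) .no
  (.use 45) (.br 1201 .no .no .no (.use 48) (.red [.t 937 3 2, .t 1081 4 1] 151 135 [1] [(118,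
  117, [3]), (151, 135, [1])]) .no) .no) .no (.red [.t 960 2 4, .f 825 1 5, .f 697 5 1, .f 698 1
  3] 104 120 [2] [(104, 120, [2]), (120, 104, [1])])) .no (.red [.f 930 3 1, .f 938 1 5] 133 117
  [1] [(133, 117, [1])]) .no .no) .no (.hor [.f 1058 3 5] []) .no .no) (.use 10) (.red [.t 945 4
  1] 134 118 [1] [(134, 118, [1])])) .no (.con 135 [1, 4]) (.con 135 [1, 4]) .no) .no .no (.br 938
  (.red [.f 938 1 3, .f 937 3 5] 134 118 [1] [(134, 118, [1])]) (.br 698 .no (.hor [.f 570 1 5]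
  []) .no (.br 817 .no (.red [.t 960 2 4, .f 825 1 5, .t 689 1 3, .f 698 1 3] 104 120 [2] [(103,
  87, [1]), (104, 120, [2]), (120, 104, [1])]) .no (.use 45) (.use 54) .no) .no (.red [.t 960 2 4,
  .f 825 1 5, .f 697 5 1, .f 698 1 3] 104 120 [2] [(104, 120, [2]), (120, 104, [1])])) .no (.use
  21) (.red [.t 1074 2 4, .f 937 3 5] 134 118 [1] [(134, 118, [1])]) .no) .no .no

def f27t56 : Tr4 :=
  .br 1201 (.br 1337 (.br 1336 (.hor [.f 1336 1 5] []) .no (.br 1345 (.red [.f 1337 1 3, .f 1336 3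
  5] 184 185 [4] [(184, 185, [4])]) .no (.use 46) .no .no .no) (.red [.f 1200 3 1, .f 1200 1 5]
  167 135 [1, 1] [(167, 135, [1, 1])]) .no .no) .no (.red [.f 1209 3 1, .f 1201 1 3] 168 152 [1]
  [(167, 135, [1, 1]), (168, 152, [1])]) .no (.red [.t 1217 4 1, .f 1201 1 3] 168 152 [1] [(167,
  135, [1, 1]), (168, 152, [1])]) (.red [.t 1200 3 1] 167 135 [1, 1] [(167, 135, [1, 1])])) .no
  .no (.use 27) (.red [.t 962 1 3, .t 1081 4 1, .t 1098 4 2] 151 135 [1] [(151, 135, [1])]) .no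

def f27t57 : Tr4 :=
  .br 1226 (.con 169 [3]) .no (.br 1106 .no (.br 1105 (.con 169 [3, 2]) .no (.br 1107 (.con 139
  [4, 1]) (.hor [.f 978 1 5] []) (.con 139 [1]) .no .no .no) .no .no .no) (.br 1105 (.con 169 [3,
  2]) .no (.hor [.f 1105 3 5] []) .no .no .no) .no (.red [.f 1098 5 3, .f 1098 3 1] 154 138 [1]
  [(154, 138, [1])]) (.red [.t 962 1 3, .f 1089 3 5, .f 1097 5 3, .f 1098 3 1] 154 138 [1] [(137,
  136, [3]), (154, 138, [1])])) .no .no (.red [.t 1345 3 2, .f 1224 1 5, .t 1088 1 3] 153 137 [1]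
  [(153, 137, [1]), (169, 153, [1])])

def f27t58 : Tr4 :=
  .br 1345 (.use 5) .no (.use 57) .no .no (.red [.t 1208 1 3, .f 1217 1 5] 168 152 [1] [(168, 152,
  [1])])

def f27t59 : Tr4 :=
  .br 1201 (.br 1337 (.br 1336 (.hor [.f 1336 1 5] []) .no (.br 1345 (.red [.f 1337 1 3, .f 1336 3
  5] 184 185 [4] [(184, 185, [4])]) .no (.use 57) .no .no .no) (.red [.f 1200 3 1, .f 1200 1 5]
  167 135 [1, 1] [(167, 135, [1, 1])]) .no .no) .no (.red [.f 1209 3 1, .f 1201 1 3] 168 152 [1]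
  [(167, 135, [1, 1]), (168, 152, [1])]) .no (.red [.t 1217 4 1, .f 1201 1 3] 168 152 [1] [(167,
  135, [1, 1]), (168, 152, [1])]) (.red [.t 1200 3 1] 167 135 [1, 1] [(167, 135, [1, 1])])) .no
  .no (.use 27) (.red [.t 962 1 3, .t 1081 4 1, .t 1098 4 2] 151 135 [1] [(151, 135, [1])]) .no

def f27t60 : Tr4 :=
  .br 698 .no (.br 697 .no (.hor [.f 569 1 5] []) .no (.con 105 [4, 2, 4]) .no (.con 105 [4, 2,
  4])) .no (.hor [.f 690 3 5] []) .no (.red [.t 960 2 4, .f 825 1 5, .f 697 5 1, .f 698 1 3] 104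
  105 [4] [(104, 105, [4]), (120, 104, [1])])

def f27t61 : Tr4 :=
  .br 705 .no (.use 60) (.red [.f 705 3 1, .f 712 1 5, .t 976 4 2] 122 138 [2] [(105, 89, [1]),
  (122, 138, [2])]) (.red [.t 960 2 4, .f 825 1 5, .t 705 4 1] 104 105 [4] [(104, 105, [4]), (120,
  104, [1])]) .no (.red [.t 840 2 4, .t 976 4 2, .f 832 1 3, .f 704 3 1] 122 138 [2] [(121, 105,
  [1]), (122, 138, [2])])

def f27t62 : Tr4 :=
  .br 699 .no (.br 707 .no (.br 705 .no (.red [.f 571 1 3] 88 89 [4] [(88, 89, [4])]) (.red [.f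
  571 1 3] 88 105 [2, 4] [(88, 105, [2, 4])]) (.red [.t 960 2 4, .f 825 1 5, .t 705 4 1] 104 105
  [4] [(104, 105, [4]), (120, 104, [1])]) .no (.red [.f 571 1 3] 88 89 [4] [(88, 89, [4])])) (.br
  705 .no (.br 698 .no (.hor [.f 570 1 5] []) .no (.br 697 .no (.red [.f 569 1 3] 88 87 [3] [(88,
  87, [3])]) .no (.hor [.f 689 3 5] []) .no (.br 817 .no (.red [.t 960 2 4, .f 825 1 5, .t 689 1
  3, .f 698 1 3] 104 105 [4] [(103, 87, [1]), (104, 105, [4]), (120, 104, [1])]) .no (.use 45)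
  (.red [.f 696 5 1, .t 697 1 4] 103 87 [1] [(103, 87, [1])]) .no)) .no (.red [.t 960 2 4, .f 825
  1 5, .f 697 5 1, .f 698 1 3] 104 105 [4] [(104, 105, [4]), (120, 104, [1])])) (.con 105 [2])
  (.red [.t 960 2 4, .f 825 1 5, .t 705 4 1] 104 105 [4] [(104, 105, [4]), (120, 104, [1])]) .no
  (.br 977 (.br 1208 (.br 1337 (.use 47) .no (.red [.f 1209 3 1, .f 1208 1 5] 168 152 [1] [(168,
  152, [1])]) (.use 55) (.red [.t 1217 4 1, .f 1208 1 5] 168 152 [1] [(168, 152, [1])]) .no) .no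
  .no (.use 56) .no .no) (.red [.t 840 2 4, .t 976 4 2, .f 832 1 3, .f 704 3 1] 122 138 [2] [(121,
  105, [1]), (122, 138, [2])]) (.br 1208 (.br 1337 (.use 58) .no (.red [.f 1209 3 1, .f 1208 1 5]
  168 152 [1] [(168, 152, [1])]) (.use 55) (.red [.t 1217 4 1, .f 1208 1 5] 168 152 [1] [(168,
  152, [1])]) .no) .no .no (.use 59) .no .no) .no (.red [.f 969 5 3, .f 968 3 5, .t 832 1 3] 121
  105 [1] [(121, 105, [1])]) .no)) .no .no .no) (.red [.f 699 3 1, .f 706 1 5] 104 105 [4] [(104,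
  105, [4])]) (.br 1208 (.br 1337 (.br 977 (.use 47) (.use 61) (.use 58) .no (.red [.f 969 5 3, .f
  968 3 5, .t 832 1 3] 121 105 [1] [(121, 105, [1])]) .no) .no (.red [.f 1209 3 1, .f 1208 1 5]
  168 152 [1] [(168, 152, [1])]) (.br 1075 (.br 1201 .no .no .no (.use 48) (.red [.t 962 1 3, .t
  1081 4 1, .t 1098 4 2] 151 135 [1] [(151, 135, [1])]) (.con 135 [1, 4])) .no .no (.br 1066 (.use
  50) (.red [.f 938 1 3, .f 937 3 5] 134 118 [1] [(134, 118, [1])]) .no (.br 1201 .no .no .no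
  (.use 52) (.red [.t 962 1 3, .t 1081 4 1, .t 1098 4 2] 151 135 [1] [(151, 135, [1])]) (.use 53))
  .no (.red [.t 945 4 1] 134 118 [1] [(134, 118, [1])])) .no .no) (.red [.t 1217 4 1, .f 1208 1 5]
  168 152 [1] [(168, 152, [1])]) .no) .no .no (.br 977 (.use 56) (.use 61) (.use 59) .no (.red [.f
  969 5 3, .f 968 3 5, .t 832 1 3] 121 105 [1] [(121, 105, [1])]) .no) .no .no) .no (.red [.t 834
  2 4] 104 105 [4] [(104, 105, [4])])

def f27t63 : Tr4 :=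
  .br 1072 (.red [.t 1072 1 3, .f 1081 1 5] 151 135 [1] [(151, 135, [1])]) .no .no (.use 29) .no
  .no

def f27t64 : Tr4 :=
  .br 817 .no (.red [.t 960 2 4, .f 825 1 5, .t 689 1 3, .f 698 1 3] 104 120 [2] [(103, 120, [2,
  4]), (104, 120, [2]), (120, 104, [1])]) .no (.br 818 .no .no .no (.hor [.f 809 3 5] []) (.red
  [.t 954 2 4, .f 690 3 1] 103 120 [2, 4] [(103, 120, [2, 4]), (119, 120, [4])]) .no) (.red [.f
  817 5 1, .f 818 1 3, .f 690 3 1] 103 120 [2, 4] [(103, 120, [2, 4]), (119, 120, [4])]) (.red [.f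
  816 5 3, .t 825 4 1] 119 120 [4] [(119, 120, [4])])

def f27t65 : Tr4 :=
  .br 698 .no (.con 105 [4, 4, 2]) .no (.use 64) .no (.con 105 [4, 2, 4])

def f27t66 : Tr4 :=
  .br 818 .no (.con 120 [2, 4, 4]) .no (.hor [.f 809 3 5] []) (.red [.t 960 2 4, .t 824 3 1, .t
  954 2 4] 119 120 [4] [(119, 120, [4])]) .no

def f27t67 : Tr4 :=
  .br 1072 (.red [.t 1072 1 3, .f 1081 1 5] 151 135 [1] [(151, 135, [1])]) (.br 1203 (.red [.f
  1203 1 3] 167 168 [4] [(167, 168, [4])]) .no .no (.br 1202 (.br 1201 (.hor [.f 1201 1 5] []) .no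
  .no (.con 168 [4, 4]) .no (.con 168 [4, 4])) .no .no (.hor [.f 1194 3 5] []) .no (.red [.f 944 1
  3, .f 944 3 1, .t 1081 4 1] 151 135 [1] [(151, 135, [1])])) .no (.red [.f 1074 5 1, .f 1074 1 3]
  151 135 [1] [(151, 135, [1])])) .no (.use 36) .no .no

def f27t68 : Tr4 :=
  .br 825 .no (.br 827 .no (.use 38) (.br 824 .no (.hor [.f 696 1 5] []) .no (.con 120 [2, 4]) .no
  .no) (.red [.f 819 3 1, .f 826 1 5] 119 120 [4] [(119, 120, [4])]) .no .no) (.red [.f 825 3 1,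
  .f 825 1 5, .f 945 5 3, .f 946 3 5, .t 1090 2 4, .t 961 2 4] 136 136 [] [(136, 136, [])]) (.red
  [.t 825 4 1] 119 120 [4] [(119, 120, [4])]) .no (.br 827 .no (.use 41) (.br 833 .no (.use 42)
  (.br 834 .no (.br 699 .no (.br 698 .no (.hor [.f 570 1 5] []) .no (.use 64) .no (.red [.t 960 2
  4, .f 825 1 5, .f 697 5 1, .f 698 1 3] 104 105 [4] [(104, 105, [4]), (120, 104, [1])])) (.red
  [.f 699 3 1, .f 706 1 5] 104 105 [4] [(104, 105, [4])]) (.br 705 .no (.use 60) (.br 817 .no (.br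
  696 .no (.use 65) (.con 105 [4, 2]) (.red [.t 688 3 1] 103 105 [4, 4] [(103, 105, [4, 4])])
  (.red [.f 696 5 1, .f 689 1 3] 103 105 [4, 4] [(103, 105, [4, 4])]) .no) .no (.use 66) (.red [.f
  817 5 1, .f 818 1 3] 119 120 [4] [(119, 120, [4])]) (.red [.f 816 5 3, .t 825 4 1] 119 120 [4]
  [(119, 120, [4])])) (.red [.t 960 2 4, .f 825 1 5, .t 705 4 1] 104 105 [4] [(104, 105, [4]),
  (120, 104, [1])]) .no (.br 817 .no (.br 696 .no (.use 65) .no (.red [.t 688 3 1] 103 105 [4, 4]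
  [(103, 105, [4, 4])]) (.red [.f 696 5 3, .f 696 3 5, .f 696 5 1, .f 689 1 3] 103 105 [4, 4]
  [(103, 105, [4, 4])]) .no) .no (.use 66) (.red [.f 817 5 1, .f 818 1 3] 119 120 [4] [(119, 120,
  [4])]) (.red [.f 816 5 3, .t 825 4 1] 119 120 [4] [(119, 120, [4])]))) .no (.red [.t 834 2 4]
  104 105 [4] [(104, 105, [4])])) (.hor [.f 833 3 5] []) .no .no .no) .no (.br 1074 (.red [.f 1074
  1 3, .f 1073 3 5] 151 135 [1] [(151, 135, [1])]) .no .no (.use 39) (.br 1211 (.br 1209 (.use 35)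
  .no (.br 944 (.red [.f 944 1 3, .f 1072 3 5, .t 1216 2 4, .f 1081 1 5, .t 961 4 1] 136 136 []
  [(135, 119, [1]), (136, 136, []), (152, 136, [1])]) (.red [.t 953 3 2, .f 945 5 3, .t 944 2 3,
  .f 825 1 3] 119 118 [3] [(119, 118, [3])]) .no (.br 816 .no (.br 819 .no (.br 817 .no (.hor [.f
  688 1 5] []) .no (.br 818 .no (.con 134 [2, 2]) .no (.hor [.f 809 3 5] []) .no .no) (.red [.f
  817 5 1, .f 818 1 3] 119 120 [4] [(119, 120, [4])]) .no) .no (.use 40) .no (.red [.t 960 2 4, .t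
  824 3 1, .t 954 2 4] 119 120 [4] [(119, 120, [4])])) .no (.red [.f 808 3 1] 118 134 [2] [(118,
  134, [2])]) (.red [.f 816 5 3, .t 825 4 1] 119 120 [4] [(119, 120, [4])]) .no) .no .no) (.red
  [.f 1073 3 1, .f 1081 1 5] 151 135 [1] [(151, 135, [1])]) .no (.use 67)) .no (.red [.f 1083 3 1,
  .f 1082 1 5, .f 1074 5 3, .f 1073 3 5, .t 961 4 1] 136 136 [] [(136, 136, []), (152, 136, [1])])
  (.red [.t 1210 2 4, .f 1073 3 5] 151 135 [1] [(151, 135, [1])]) .no .no) .no) .no) (.red [.f 819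
  3 1, .f 826 1 5] 119 103 [1] [(119, 103, [1])]) .no .no)

def f27l1 : List Tr4 :=
  [f27t42, f27t43, f27t44, f27t45, f27t46, f27t47, f27t48, f27t49, f27t50, f27t51, f27t52, f27t53,
  f27t54, f27t55, f27t56, f27t57, f27t58, f27t59, f27t60, f27t61, f27t62, f27t63, f27t64, f27t65,
  f27t66, f27t67, f27t68]

theorem f27k1 : chkLF ⟨4, 1, 0, false, -4⟩ false 7 f27N 42 f27l1 = true := by decide +kernel

def f27t69 : Tr4 :=
  .br 963 .no (.br 827 .no (.br 946 (.br 833 .no (.br 1219 (.use 4) .no (.br 944 (.con 135 [4])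
  (.use 26) .no (.use 0) (.use 30) .no) (.red [.f 1083 3 1, .f 1082 1 5, .t 946 1 3, .f 1073 3 5,
  .t 961 4 1] 136 136 [] [(135, 119, [1]), (136, 136, []), (152, 136, [1])]) .no (.red [.t 1082 1
  3, .t 946 1 3, .f 1073 3 5, .t 961 4 1] 136 136 [] [(135, 119, [1]), (136, 136, []), (152, 136,
  [1])])) (.use 31) (.red [.f 825 3 1, .f 825 1 5, .t 1073 3 2, .f 946 3 5, .t 1090 2 4, .t 961 2
  4] 136 136 [] [(135, 119, [1]), (136, 136, [])]) (.red [.t 953 3 2, .t 1073 3 2, .f 946 3 5, .t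
  834 4 1, .f 955 3 1] 136 136 [] [(135, 119, [1]), (136, 136, [])]) .no) (.red [.f 818 1 3] 119
  120 [4] [(119, 120, [4])]) .no (.use 37) .no (.br 833 .no (.br 825 .no (.use 38) .no (.red [.t
  825 4 1] 119 120 [4] [(119, 120, [4])]) .no (.use 41)) (.use 31) (.red [.f 825 3 1, .f 825 1 5,
  .f 945 5 3, .f 946 3 5, .t 1090 2 4, .t 961 2 4] 136 136 [] [(136, 136, [])]) (.hor [.t 953 3 2,
  .f 832 1 5, .f 945 5 3, .f 946 3 5, .t 834 4 1] []) .no)) .no (.red [.f 819 3 1, .f 826 1 5] 119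
  120 [4] [(119, 120, [4])]) .no .no) (.br 946 (.br 1219 (.use 4) .no (.br 944 (.con 135 [4]) (.br
  1209 (.use 28) .no (.br 1218 (.br 833 .no (.br 827 .no (.use 26) (.use 42) (.red [.f 819 3 1, .f
  826 1 5] 119 103 [1] [(119, 103, [1])]) .no .no) (.br 945 .no (.hor [.f 816 1 5] []) .no (.br
  968 (.br 969 .no .no (.br 970 (.con 137 [3]) (.br 824 .no (.use 43) .no .no (.red [.t 960 2 4,
  .t 1096 2 4, .f 961 1 5, .t 841 4 1] 121 105 [1] [(120, 119, [3]), (121, 105, [1]), (137, 121,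
  [1])]) .no) (.hor [.f 969 3 5] []) .no .no .no) .no (.red [.t 1089 3 2, .f 968 1 5, .t 832 1 3]
  121 120 [3] [(121, 120, [3]), (137, 121, [1])]) .no) (.red [.f 832 1 3, .f 832 3 5] 121 120 [3]
  [(121, 120, [3])]) (.br 969 .no .no (.hor [.f 968 3 5] []) .no (.br 1096 (.red [.f 1088 1 3, .f
  1088 3 5] 153 137 [1] [(153, 137, [1])]) .no (.br 824 .no (.use 43) .no .no (.br 827 .no (.use
  25) (.br 834 .no (.br 840 .no (.br 1098 (.red [.t 1089 3 2, .t 1209 3 2, .f 1082 3 5, .t 1226 2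
  4, .f 962 3 1] 153 137 [1] [(152, 136, [1]), (153, 137, [1])]) .no (.br 1099 .no .no (.hor [.f
  1098 3 5] []) .no .no .no) .no (.br 1224 (.use 62) .no (.red [.f 1096 3 1] 154 138 [1] [(154,
  138, [1])]) .no (.red [.t 1088 1 3, .t 952 1 3, .f 961 1 5] 153 137 [1] [(136, 136, []), (153,
  137, [1])]) .no) .no) (.red [.f 840 3 1] 122 138 [2] [(122, 138, [2])]) .no .no .no) (.hor [.f
  833 3 5] []) .no .no .no) (.red [.f 819 3 1, .f 826 1 5] 119 103 [1] [(119, 103, [1])]) .no .no)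
  .no) .no .no .no) .no) .no (.red [.t 832 1 3] 121 120 [3] [(121, 120, [3])]) .no) .no .no) (.red
  [.f 825 3 1, .f 825 1 5, .t 1073 3 2, .f 946 3 5, .t 1090 2 4, .t 961 2 4] 136 136 [] [(135,
  119, [1]), (136, 136, [])]) (.red [.t 953 3 2, .t 1073 3 2, .f 946 3 5, .t 1090 2 4, .f 826 3 1]
  136 136 [] [(135, 119, [1]), (136, 136, [])]) .no) .no (.hor [.f 1218 3 5] []) .no .no .no)
  (.red [.f 1073 3 1, .f 1081 1 5] 151 135 [1] [(151, 135, [1])]) .no (.use 63)) .no (.use 0)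
  (.use 30) .no) (.red [.f 1083 3 1, .f 1082 1 5, .t 946 1 3, .f 1073 3 5, .t 961 4 1] 136 136 []
  [(135, 119, [1]), (136, 136, []), (152, 136, [1])]) .no (.red [.t 1082 1 3, .t 946 1 3, .f 1073
  3 5, .t 961 4 1] 136 136 [] [(135, 119, [1]), (136, 136, []), (152, 136, [1])])) (.red [.f 818 1
  3] 119 120 [4] [(119, 120, [4])]) .no (.use 37) .no (.use 68)) .no .no .no

def f27t70 : Tr4 :=
  .br 825 .no (.hor [.f 696 1 5] []) .no (.dom 119 103 [1]) .no .no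

def f27t71 : Tr4 :=
  .br 818 .no .no .no .no (.red [.t 954 2 4, .f 690 3 1] 103 105 [4, 4] [(103, 105, [4, 4]), (119,
  120, [4])]) (.br 697 .no (.br 705 .no (.red [.f 569 1 3] 88 87 [3] [(88, 87, [3])]) (.br 707 .no
  (.red [.f 571 1 3] 88 87 [3] [(88, 87, [3])]) (.br 704 .no (.con 105 [2]) (.hor [.f 704 3 5] [])
  (.con 87 [3]) .no .no) .no .no .no) .no .no (.br 570 .no (.br 696 .no (.hor [.f 568 1 5] []) .no
  (.con 87 [3]) .no .no) (.red [.f 824 5 3, .f 824 3 5, .f 704 5 1, .f 705 1 5, .t 569 1 3] 88 72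
  [1] [(88, 72, [1])]) (.red [.f 562 3 1, .f 570 1 5, .t 834 2 4] 104 105 [4] [(87, 71, [1]),
  (104, 105, [4])]) .no .no)) (.red [.f 824 5 3, .f 697 3 1, .t 697 1 4] 104 105 [4] [(103, 87,
  [1]), (104, 105, [4])]) (.hor [.f 689 3 5] []) .no (.red [.f 696 5 1, .t 697 1 4] 103 87 [1]
  [(103, 87, [1])]))

def f27t72 : Tr4 :=
  .br 1067 (.red [.f 1067 1 3] 150 135 [4, 1] [(150, 135, [4, 1])]) (.br 938 .no (.use 71) .no
  (.red [.f 930 3 1, .f 938 1 5] 133 117 [1] [(133, 117, [1])]) .no .no) .no (.hor [.f 1058 3 5]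
  []) .no .no

def f27t73 : Tr4 :=
  .br 938 .no (.br 698 .no (.hor [.f 570 1 5] []) .no (.use 71) .no (.red [.f 824 5 3, .t 833 4 2]
  104 105 [4] [(104, 105, [4])])) .no (.use 16) (.red [.t 1074 2 4, .f 937 3 5] 134 135 [4] [(134,
  135, [4])]) .no

def f27t74 : Tr4 :=
  .br 833 .no (.hor [.f 705 1 5] []) (.br 832 .no (.con 105 [4]) (.hor [.f 832 3 5] []) (.con 105
  [4, 1, 4]) .no .no) (.red [.f 825 3 1, .f 825 1 5, .t 1073 3 2, .f 946 3 5, .t 1090 2 4, .t 961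
  2 4] 136 136 [] [(135, 119, [1]), (136, 136, [])]) .no (.br 824 .no (.use 70) .no .no (.br 699
  .no (.br 1208 (.br 1337 (.br 698 .no (.hor [.f 570 1 5] []) .no (.br 1075 (.br 1066 (.use 6)
  (.red [.f 938 1 3, .f 937 3 5] 134 118 [1] [(134, 118, [1])]) .no (.use 72) (.use 10) (.red [.f
  824 5 3, .t 945 4 1] 134 118 [1] [(134, 118, [1])])) .no .no (.br 938 (.red [.f 938 1 3, .f 937
  3 5] 134 118 [1] [(134, 118, [1])]) (.use 71) .no (.use 17) (.red [.t 1074 2 4, .f 937 3 5] 134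
  118 [1] [(134, 118, [1])]) .no) .no .no) .no (.red [.f 824 5 3, .t 833 4 2] 104 105 [4] [(104,
  105, [4])])) .no (.red [.f 1209 3 1, .f 1208 1 5] 168 152 [1] [(168, 152, [1])]) (.br 1075 (.br
  1200 (.con 135 [1, 4]) (.br 1066 (.use 44) (.red [.f 938 1 3, .f 937 3 5] 134 118 [1] [(134,
  118, [1])]) .no (.br 698 .no (.hor [.f 570 1 5] []) .no (.use 72) .no (.red [.f 824 5 3, .t 833
  4 2] 104 105 [4] [(104, 105, [4])])) (.use 10) (.red [.f 824 5 3, .t 945 4 1] 134 118 [1] [(134,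
  118, [1])])) .no (.con 135 [1, 4]) (.con 135 [1, 4]) .no) .no .no (.br 1066 (.use 50) (.red [.f
  938 1 3, .f 937 3 5] 134 118 [1] [(134, 118, [1])]) .no (.use 73) .no (.red [.f 824 5 3, .t 945
  4 1] 134 118 [1] [(134, 118, [1])])) .no .no) (.red [.t 1217 4 1, .f 1208 1 5] 168 152 [1]
  [(168, 152, [1])]) .no) .no .no (.br 1075 (.con 135 [1, 4]) .no .no (.br 1066 (.use 22) (.red
  [.f 938 1 3, .f 937 3 5] 134 118 [1] [(134, 118, [1])]) .no (.use 73) .no (.red [.f 824 5 3, .t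
  945 4 1] 134 118 [1] [(134, 118, [1])])) .no .no) .no .no) (.red [.f 699 3 1, .f 706 1 5] 104
  105 [4] [(104, 105, [4])]) (.br 698 .no (.br 697 .no (.hor [.f 569 1 5] []) (.red [.f 824 5 3,
  .f 697 3 1] 104 105 [4] [(104, 105, [4])]) (.con 105 [4, 2, 4]) .no (.con 105 [4, 2, 4])) .no
  (.hor [.f 690 3 5] []) .no (.red [.f 824 5 3, .t 833 4 2] 104 105 [4] [(104, 105, [4])])) .no
  (.red [.f 824 5 3, .t 834 2 4] 104 105 [4] [(104, 105, [4])])) .no)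

def f27t75 : Tr4 :=
  .br 819 .no (.hor [.f 690 1 5] []) .no (.con 104 [4, 4]) .no .no

def f27t76 : Tr4 :=
  .br 696 .no (.br 706 .no (.br 707 .no (.hor [.f 578 1 5] []) (.br 818 .no (.br 689 .no (.br 698
  .no (.br 699 .no (.hor [.f 570 1 5] []) .no (.con 88 [4]) .no .no) .no .no (.use 75) .no) .no
  (.red [.f 681 3 1, .f 689 1 5] 102 118 [2] [(102, 118, [2])]) .no (.red [.f 809 3 1, .f 816 1 5,
  .f 688 5 1, .f 689 1 3] 103 104 [4] [(103, 104, [4]), (118, 102, [1])])) .no .no (.red [.t 954 2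
  4] 119 118 [3] [(119, 118, [3])]) .no) (.con 88 [1, 4]) .no .no) (.red [.f 706 3 1, .f 705 1 5]
  105 104 [3] [(105, 104, [3])]) (.br 688 .no (.red [.f 560 1 3] 87 104 [4, 2] [(87, 104, [4,
  2])]) .no (.br 818 .no (.br 689 .no (.con 104 [4, 2, 4]) .no (.hor [.f 680 3 5] []) .no .no) .no
  .no (.red [.t 954 2 4] 119 118 [3] [(119, 118, [3])]) .no) (.red [.f 809 3 1, .f 816 1 5, .f 688
  5 1, .f 689 1 3] 103 104 [4] [(103, 104, [4]), (118, 102, [1])]) .no) (.br 818 .no (.br 689 .no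
  (.br 699 .no (.br 570 (.hor [.f 570 1 5] []) (.con 104 [4, 2, 3, 1, 4]) (.con 104 [4, 2, 3, 1,
  4]) (.con 104 [4, 2, 2]) .no (.con 104 [4, 2, 3, 1, 4])) .no (.con 104 [4, 2]) .no (.use 75))
  .no (.red [.f 681 3 1, .f 689 1 5] 102 118 [2] [(102, 118, [2])]) .no (.red [.f 809 3 1, .f 816
  1 5, .f 688 5 1, .f 689 1 3] 103 104 [4] [(103, 104, [4]), (118, 102, [1])])) .no .no (.red [.t
  954 2 4] 119 118 [3] [(119, 118, [3])]) .no) .no) (.br 819 .no (.br 689 .no (.br 706 .no (.br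
  707 .no (.hor [.f 578 1 5] []) (.con 104 [2, 3]) (.br 698 .no (.hor [.f 697 1 3, .f 570 1 3, .f
  696 3 5, .f 699 3 1, .f 570 3 1] []) .no (.con 118 [2, 3]) .no .no) .no .no) (.red [.f 706 3 1,
  .f 705 1 5] 105 104 [3] [(105, 104, [3])]) (.br 699 .no (.con 104 [2]) (.hor [.f 698 3 5] [])
  .no .no .no) (.br 699 .no (.br 698 .no (.hor [.f 570 1 5] []) .no (.con 118 [2, 3]) .no .no) .no
  .no .no (.br 690 (.use 75) (.con 118 [2, 3]) .no (.con 118 [2, 2]) .no .no)) .no) .no (.red [.f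
  681 3 1, .f 689 1 3] 103 104 [4] [(102, 118, [2]), (103, 104, [4])]) (.con 118 [2, 3]) (.red [.f
  809 3 1, .f 816 1 5, .f 688 5 1, .f 689 1 3] 103 104 [4] [(103, 104, [4]), (118, 102, [1])]))
  .no (.con 118 [2]) .no (.red [.t 954 2 4] 119 118 [3] [(119, 118, [3])])) (.red [.f 809 3 1, .f
  816 1 5, .t 696 4 1] 103 104 [4] [(103, 104, [4]), (118, 102, [1])]) .no .no

def f27t77 : Tr4 :=
  .br 1067 (.red [.f 1067 1 3] 150 118 [1, 1] [(150, 118, [1, 1])]) (.br 938 .no (.use 76) .no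
  (.red [.f 930 3 1, .f 938 1 5] 133 117 [1] [(133, 117, [1])]) .no .no) .no (.hor [.f 1058 3 5]
  []) .no .no

def f27t78 : Tr4 :=
  .br 1072 (.br 1202 (.use 9) .no .no (.br 930 .no (.red [.f 802 1 3] 117 118 [4] [(117, 118,
  [4])]) .no (.br 819 .no (.br 811 .no (.red [.t 937 3 2, .f 683 1 3, .f 810 3 5, .t 954 2 4] 119
  118 [3] [(102, 103, [4]), (118, 117, [3]), (119, 118, [3])]) .no (.br 931 (.red [.f 931 1 3] 133
  118 [4, 1] [(133, 118, [4, 1])]) .no .no (.hor [.f 922 3 5] []) .no .no) .no .no) .no (.red [.t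
  937 3 2, .f 810 3 5, .t 954 2 4] 119 118 [3] [(118, 102, [1]), (119, 118, [3])]) .no .no) (.red
  [.t 1066 4 2] 133 118 [4, 1] [(133, 118, [4, 1])]) (.red [.t 937 3 2, .f 929 5 3, .f 930 3 1, .f
  938 1 3, .f 810 3 1] 134 118 [1] [(133, 118, [4, 1]), (134, 118, [1])])) .no (.red [.t 937 3 2,
  .t 1081 4 1] 151 135 [1] [(118, 117, [3]), (151, 135, [1])])) .no .no (.con 118 [1, 4]) .no .no

def f27t79 : Tr4 :=
  .br 1067 (.red [.f 1067 1 3] 150 118 [1, 1] [(150, 118, [1, 1])]) (.br 938 .no (.use 78) .no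
  (.red [.f 930 3 1, .f 938 1 5] 133 117 [1] [(133, 117, [1])]) .no .no) .no (.hor [.f 1058 3 5]
  []) .no .no

def f27t80 : Tr4 :=
  .br 1072 (.use 13) .no .no (.use 49) .no .no

def f27t81 : Tr4 :=
  .br 1072 (.br 1211 (.br 1203 (.red [.f 1203 1 3] 167 166 [3] [(167, 166, [3])]) .no .no (.br
  1202 (.hor [.f 1201 1 5] []) .no .no (.hor [.f 1194 3 5] []) .no .no) .no (.use 11)) .no .no
  (.dom 151 135 [1]) .no .no) .no .no (.br 1200 (.hor [.f 1200 1 5] []) .no .no (.red [.f 1064 3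
  1] 150 135 [4, 1] [(150, 135, [4, 1])]) .no .no) .no .no

def f27t82 : Tr4 :=
  .br 1200 (.use 51) (.br 1211 (.br 1338 (.hor [.f 1337 1 5] []) .no .no (.br 1202 .no .no .no
  (.hor [.f 1193 3 5] []) (.red [.t 1338 4 2] 167 183 [2] [(167, 183, [2])]) .no) .no .no) .no .no
  (.dom 151 135 [1]) .no .no) .no (.hor [.f 1192 3 5] []) .no .no

def f27t83 : Tr4 :=
  .br 1072 (.use 44) .no .no (.con 135 [4, 1]) .no .no

def f27t84 : Tr4 :=
  .br 1075 (.br 1066 (.use 83) (.red [.f 938 1 3, .f 937 3 5] 134 118 [1] [(134, 118, [1])]) .no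
  (.use 79) (.use 10) (.red [.t 945 4 1] 134 118 [1] [(134, 118, [1])])) .no .no (.br 938 (.red
  [.f 938 1 3, .f 937 3 5] 134 118 [1] [(134, 118, [1])]) (.use 54) .no (.use 21) (.red [.t 1074 2
  4, .f 937 3 5] 134 118 [1] [(134, 118, [1])]) .no) .no .no

def f27t85 : Tr4 :=
  .br 819 .no (.br 939 .no (.hor [.f 810 1 5] []) .no (.br 811 .no (.red [.t 937 3 2, .f 683 1 3,
  .f 810 3 5, .t 954 2 4] 119 120 [4] [(102, 117, [3, 2]), (118, 117, [3]), (119, 120, [4])]) .no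
  (.red [.f 803 3 1, .f 810 1 5] 117 118 [4] [(117, 118, [4])]) .no .no) .no .no) .no (.red [.t
  937 3 2, .f 810 3 5, .t 954 2 4] 119 120 [4] [(118, 117, [3]), (119, 120, [4])]) .no .no

def f27l2 : List Tr4 :=
  [f27t69, f27t70, f27t71, f27t72, f27t73, f27t74, f27t75, f27t76, f27t77, f27t78, f27t79, f27t80,
  f27t81, f27t82, f27t83, f27t84, f27t85]

theorem f27k2 : chkLF ⟨4, 1, 0, false, -4⟩ false 7 f27N 69 f27l2 = true := by decide +kernel

def f27t86 : Tr4 :=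
  .br 1208 (.br 1337 (.br 817 .no (.red [.f 689 1 3] 103 104 [4] [(103, 104, [4])]) .no (.br 1075
  (.br 1066 (.use 6) (.red [.f 938 1 3, .f 937 3 5] 134 118 [1] [(134, 118, [1])]) .no (.use 77)
  (.use 10) (.red [.f 809 3 1, .f 809 1 3, .t 945 4 1] 134 118 [1] [(134, 118, [1])])) .no .no
  (.br 938 (.red [.f 938 1 3, .f 937 3 5] 134 118 [1] [(134, 118, [1])]) (.use 76) .no (.use 17)
  (.red [.t 1074 2 4, .f 937 3 5] 134 118 [1] [(134, 118, [1])]) .no) .no .no) (.br 1075 (.br 1066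
  (.use 6) (.red [.f 938 1 3, .f 937 3 5] 134 118 [1] [(134, 118, [1])]) .no (.use 79) (.use 10)
  (.red [.t 945 4 1] 134 118 [1] [(134, 118, [1])])) .no .no (.br 938 (.red [.f 938 1 3, .f 937 3
  5] 134 118 [1] [(134, 118, [1])]) (.br 1066 (.use 80) .no .no (.br 1201 (.use 81) .no .no (.use
  82) (.red [.t 937 3 2, .t 1081 4 1] 151 135 [1] [(118, 119, [4]), (151, 135, [1])]) (.use 53))
  .no (.red [.t 945 4 1] 134 118 [1] [(134, 118, [1])])) .no (.use 17) (.red [.t 1074 2 4, .f 937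
  3 5] 134 118 [1] [(134, 118, [1])]) .no) .no .no) .no) .no (.red [.f 1209 3 1, .f 1208 1 5] 168
  152 [1] [(168, 152, [1])]) (.br 817 .no (.red [.f 689 1 3] 103 104 [4] [(103, 104, [4])]) .no
  (.br 938 (.red [.f 938 1 3, .f 937 3 5] 134 118 [1] [(134, 118, [1])]) (.use 76) .no (.br 1075
  (.br 1066 (.use 18) .no .no (.use 77) (.use 10) (.red [.f 809 3 1, .f 809 1 3, .t 945 4 1] 134
  118 [1] [(134, 118, [1])])) .no .no (.use 21) .no .no) (.br 1075 (.br 1066 (.use 19) .no .no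
  (.use 77) (.use 10) (.red [.f 809 3 1, .f 809 1 3, .t 945 4 1] 134 118 [1] [(134, 118, [1])]))
  .no .no (.red [.t 1074 2 4, .f 937 3 5] 134 118 [1] [(134, 118, [1])]) .no .no) .no) (.use 84)
  .no) (.red [.t 1217 4 1, .f 1208 1 5] 168 152 [1] [(168, 152, [1])]) .no) .no .no (.br 1075
  (.con 135 [1, 4]) .no .no (.br 1066 (.use 22) (.red [.f 938 1 3, .f 937 3 5] 134 118 [1] [(134,
  118, [1])]) .no (.br 938 .no (.br 817 .no (.red [.f 689 1 3] 103 104 [4] [(103, 104, [4])]) .no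
  (.use 76) (.use 85) .no) .no (.use 16) (.red [.t 1074 2 4, .f 937 3 5] 134 118 [1] [(134, 118,
  [1])]) .no) .no (.red [.t 945 4 1] 134 118 [1] [(134, 118, [1])])) .no .no) .no .no

def f27t87 : Tr4 :=
  .br 817 .no (.hor [.f 689 1 5] []) .no (.br 819 .no (.hor [.f 690 1 5] []) .no (.con 118 [2])
  .no .no) .no .no

def f27t88 : Tr4 :=
  .br 1067 (.red [.f 1067 1 3] 150 118 [1, 1] [(150, 118, [1, 1])]) (.br 938 .no (.br 818 .no
  (.use 87) .no .no (.red [.f 824 5 3, .t 954 2 4] 119 118 [3] [(119, 118, [3])]) (.use 78)) .no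
  (.red [.f 930 3 1, .f 938 1 5] 133 117 [1] [(133, 117, [1])]) .no .no) .no (.hor [.f 1058 3 5]
  []) .no .no

def f27t89 : Tr4 :=
  .br 834 .no (.use 74) (.br 833 .no (.br 832 .no (.hor [.f 704 1 5] []) (.con 121 [2]) (.br 825
  .no (.use 86) .no (.dom 119 103 [1]) .no .no) .no .no) (.hor [.f 833 3 5] []) (.red [.f 825 3 1,
  .f 825 1 5, .t 1073 3 2, .f 946 3 5, .t 1090 2 4, .t 961 2 4] 136 136 [] [(135, 119, [1]), (136,
  136, [])]) .no (.br 824 .no (.use 70) .no .no (.br 1208 (.br 1337 (.br 1075 (.br 1066 (.use 6)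
  (.red [.f 938 1 3, .f 937 3 5] 134 118 [1] [(134, 118, [1])]) .no (.use 88) (.use 10) (.red [.f
  824 5 3, .t 945 4 1] 134 118 [1] [(134, 118, [1])])) .no .no (.br 1066 (.use 80) (.red [.f 938 1
  3, .f 937 3 5] 134 118 [1] [(134, 118, [1])]) .no (.br 1201 (.use 81) .no .no (.use 82) (.red
  [.t 1081 4 1] 151 135 [1] [(151, 135, [1])]) (.use 53)) .no (.red [.f 824 5 3, .t 945 4 1] 134
  118 [1] [(134, 118, [1])])) .no .no) .no (.red [.f 1209 3 1, .f 1208 1 5] 168 152 [1] [(168,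
  152, [1])]) (.br 818 .no (.use 87) .no (.br 1075 (.br 1066 (.use 83) (.red [.f 938 1 3, .f 937 3
  5] 134 118 [1] [(134, 118, [1])]) .no (.use 88) (.use 10) (.red [.f 824 5 3, .t 945 4 1] 134 118
  [1] [(134, 118, [1])])) .no .no (.br 938 (.red [.f 938 1 3, .f 937 3 5] 134 118 [1] [(134, 118,
  [1])]) .no .no (.use 21) (.red [.t 1074 2 4, .f 937 3 5] 134 118 [1] [(134, 118, [1])]) .no) .no
  .no) (.red [.f 824 5 3, .t 954 2 4] 119 118 [3] [(119, 118, [3])]) (.use 84)) (.red [.t 1217 4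
  1, .f 1208 1 5] 168 152 [1] [(168, 152, [1])]) .no) .no .no (.br 1075 (.con 135 [1, 4]) .no .no
  (.br 1066 (.use 22) (.red [.f 938 1 3, .f 937 3 5] 134 118 [1] [(134, 118, [1])]) .no (.br 938
  .no (.br 818 .no (.use 87) .no .no (.red [.f 824 5 3, .t 954 2 4] 119 118 [3] [(119, 118, [3])])
  (.use 85)) .no (.use 16) (.red [.t 1074 2 4, .f 937 3 5] 134 118 [1] [(134, 118, [1])]) .no) .no
  (.red [.f 824 5 3, .t 945 4 1] 134 118 [1] [(134, 118, [1])])) .no .no) .no .no) .no)) .no .no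
  (.red [.t 953 3 2, .t 1073 3 2, .f 946 3 5, .t 1090 2 4, .f 826 3 1] 136 136 [] [(135, 119,
  [1]), (136, 136, [])])

def f27t90 : Tr4 :=
  .br 946 (.br 1219 (.use 4) .no (.br 944 (.con 135 [4]) (.br 1209 (.use 28) .no (.br 1218 (.br
  945 .no (.hor [.f 816 1 5] []) .no (.br 827 .no (.br 825 .no (.br 824 .no (.hor [.f 696 1 5] [])
  (.con 104 [4]) .no .no .no) (.red [.f 825 3 1, .f 825 1 5, .t 1073 3 2, .f 946 3 5, .t 1090 2 4,
  .t 961 2 4] 136 136 [] [(135, 119, [1]), (136, 136, [])]) (.dom 119 103 [1]) .no (.br 819 .no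
  (.red [.f 691 1 3] 103 104 [4] [(103, 104, [4])]) .no (.use 24) .no (.red [.t 954 2 4] 119 118
  [3] [(119, 118, [3])]))) (.use 89) (.red [.f 819 3 1, .f 826 1 5] 119 103 [1] [(119, 103, [1])])
  .no .no) .no .no) .no (.hor [.f 1218 3 5] []) .no .no .no) (.red [.f 1073 3 1, .f 1081 1 5] 151
  135 [1] [(151, 135, [1])]) .no (.use 63)) .no (.use 0) (.use 30) .no) (.red [.f 1083 3 1, .f
  1082 1 5, .t 946 1 3, .f 1073 3 5, .t 961 4 1] 136 136 [] [(135, 119, [1]), (136, 136, []),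
  (152, 136, [1])]) .no (.red [.t 1082 1 3, .t 946 1 3, .f 1073 3 5, .t 961 4 1] 136 136 [] [(135,
  119, [1]), (136, 136, []), (152, 136, [1])])) (.red [.f 818 1 3] 119 120 [4] [(119, 120, [4])])
  .no (.use 37) .no (.br 1074 (.red [.f 1074 1 3, .f 1073 3 5] 151 135 [1] [(151, 135, [1])]) .no
  .no (.use 39) (.br 1211 (.br 1209 (.use 35) .no (.br 1208 (.br 1072 (.br 1203 (.red [.f 1203 1
  3] 167 135 [1, 1] [(167, 135, [1, 1])]) .no .no (.br 1202 (.br 1201 (.hor [.f 1201 1 5] []) .no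
  .no (.con 150 [1]) .no .no) .no .no (.hor [.f 1194 3 5] []) .no (.red [.t 1081 4 1, .f 1072 1 5]
  151 135 [1] [(151, 135, [1])])) .no (.red [.f 1074 5 1, .f 1074 1 3] 151 135 [1] [(151, 135,
  [1])])) (.red [.f 944 1 3, .f 1072 3 5, .t 1216 2 4, .f 1081 1 5, .t 961 4 1] 136 136 [] [(135,
  119, [1]), (136, 136, []), (152, 136, [1])]) .no (.br 1203 (.red [.f 1203 1 3] 167 135 [1, 1]
  [(167, 135, [1, 1])]) .no .no (.br 1202 (.br 1200 (.con 134 [1, 1]) .no .no (.red [.f 1064 3 1]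
  150 134 [1] [(150, 134, [1])]) (.con 134 [1, 1]) .no) .no .no (.hor [.f 1194 3 5] []) .no (.red
  [.t 1081 4 1] 151 135 [1] [(151, 135, [1])])) .no (.red [.f 1074 5 1, .f 1074 1 3] 151 135 [1]
  [(151, 135, [1])])) .no .no) .no .no (.con 135 [1, 1]) .no .no) (.red [.f 1073 3 1, .f 1081 1 5]
  151 135 [1] [(151, 135, [1])]) .no (.use 67)) .no (.red [.f 1083 3 1, .f 1082 1 5, .f 1074 5 3,
  .f 1073 3 5, .t 961 4 1] 136 136 [] [(136, 136, []), (152, 136, [1])]) (.red [.t 1210 2 4, .f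
  1073 3 5] 151 135 [1] [(151, 135, [1])]) .no .no) .no)

def f27t91 : Tr4 :=
  .br 1081 (.br 1082 (.hor [.f 1081 1 5] []) (.con 135 [3]) .no (.con 151 [2, 3]) .no .no) .no
  (.con 152 [2]) (.br 1082 (.br 955 .no (.br 954 .no (.hor [.f 826 1 5] []) .no (.con 119 [3, 1])
  .no .no) (.con 120 [1]) (.br 954 .no (.br 1088 (.br 1089 (.hor [.f 1088 1 5] []) .no (.br 960
  .no (.use 69) (.use 90) .no .no .no) .no .no .no) (.con 137 [4]) (.br 1089 (.con 153 [2, 4]) .no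
  (.hor [.f 1088 3 5] []) .no .no .no) .no (.red [.t 952 1 3, .f 961 1 5] 136 136 [] [(136, 136,
  [])]) .no) .no (.hor [.f 946 3 5] []) .no .no) .no (.red [.t 1090 2 4, .f 953 3 5] 136 136 []
  [(136, 136, [])])) (.con 135 [3]) .no (.hor [.f 1073 3 5] []) .no .no) (.red [.t 961 4 1, .f 952
  1 5] 136 136 [] [(136, 136, [])]) .no

def f27l3 : List Tr4 :=
  [f27t86, f27t87, f27t88, f27t89, f27t90, f27t91]

theorem f27k3 : chkLF ⟨4, 1, 0, false, -4⟩ false 7 f27N 86 f27l3 = true := by decide +kernel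

end Pool.Agent.FT4D
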