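import Pool.Agent.FT4D.ChainF4
import Pool.Agent.FT4D.Tr_f27_0

/-!
# Four levels: the chunks of the trees `f27` together
-/

namespace Pool.Agent.FT4D

theorem f27H : Holds ⟨4, 1, 0, false, -4⟩ false 7 [] := by
  have h0 := chStart ⟨4, 1, 0, false, -4⟩ false 7 f27N
  have h1 := chStepF f27l0 42 h0 f27k0 (by decide +kernel) (by decide +kernel)
  have h2 := chStepF f27l1 69 h1 f27k1 (by decide +kernel) (by decide +kernel)
  have h3 := chStepF f27l2 86 h2 f27k2 (by decide +kernel) (by decide +kernel)
  have h4 := chStepF f27l3 92 h3 f27k3 (by decide +kernel) (by decide +kernel)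
  exact chEnd h4 91 (by decide +kernel) (by decide +kernel)

end Pool.Agent.FT4D
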