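import Pool.Agent.FT4D.Tab_f28

/-!
# Four levels: decision trees (found by a computer search)
-/

namespace Pool.Agent.FT4D

def f28t0 : Tr4 :=
  .br 834 .no (.hor [.f 706 1 5] []) (.con 120 [2, 3]) .no .no .no

def f28t1 : Tr4 :=
  .br 824 .no (.br 825 .no (.hor [.f 696 1 5] []) (.use 0) (.red [.f 817 3 1, .f 816 1 5] 119 103
  [1] [(119, 103, [1])]) .no .no) .no .no (.red [.t 944 2 3, .f 825 1 5] 119 120 [4] [(119, 120,
  [4])]) .no

def f28t2 : Tr4 :=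
  .br 1099 (.con 137 [3]) (.hor [.f 970 1 5] []) (.con 137 [3]) .no .no .no

def f28t3 : Tr4 :=
  .br 1208 (.hor [.f 1208 1 5] []) .no .no (.con 168 [4]) .no .no

def f28t4 : Tr4 :=
  .br 1065 (.con 135 [4, 1]) (.con 135 [4, 1]) (.hor [.f 1064 3 5] []) (.con 135 [4, 1]) (.con 135
  [4, 1]) .no

def f28t5 : Tr4 :=
  .br 824 .no (.hor [.f 696 1 5] []) .no (.br 817 .no (.red [.f 689 1 3] 103 104 [4] [(103, 104,
  [4])]) .no (.br 827 .no (.con 104 [4]) .no (.br 818 .no (.con 104 [4, 4]) .no (.hor [.f 809 3 5]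
  []) .no .no) .no .no) (.red [.t 953 4 2] 119 120 [4] [(119, 120, [4])]) .no) .no .no

def f28t6 : Tr4 :=
  .br 818 .no (.con 103 [4]) .no (.hor [.f 809 3 5] []) .no .no

def f28t7 : Tr4 :=
  .br 817 .no (.hor [.f 688 1 5] []) .no (.br 827 .no (.br 819 (.con 104 [4, 4]) (.red [.f 691 1
  3] 103 104 [4] [(103, 104, [4])]) .no (.con 104 [4, 4]) .no (.con 104 [4, 4])) .no (.use 6) .no
  .no) (.red [.t 953 4 2] 119 120 [4] [(119, 120, [4])]) .no

def f28t8 : Tr4 :=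
  .br 947 .no (.con 120 [4, 4]) .no (.br 938 (.red [.f 938 1 3, .f 810 3 1] 118 120 [4, 4] [(118,
  120, [4, 4]), (134, 135, [4])]) .no .no (.br 937 (.con 120 [4, 4, 4, 1]) (.red [.t 952 1 4, .f
  945 1 5, .t 809 1 3, .f 818 1 3] 119 120 [4] [(118, 120, [4, 4]), (119, 120, [4]), (135, 119,
  [1])]) .no (.hor [.f 929 3 5] []) .no (.con 120 [4, 4, 1])) .no (.red [.t 952 1 4, .f 945 1 5,
  .f 937 5 3, .f 810 3 1, .f 818 1 3] 119 120 [4] [(118, 120, [4, 4]), (119, 120, [4]), (135, 119,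
  [1])])) .no .no

def f28t9 : Tr4 :=
  .br 937 (.con 103 [4, 1, 4]) (.hor [.f 809 1 5] []) .no (.con 103 [4, 1, 4]) .no (.con 103 [4,
  1, 4])

def f28t10 : Tr4 :=
  .br 818 .no (.br 819 .no (.red [.f 569 1 3] 88 120 [4, 2, 2, 3] [(88, 120, [4, 2, 2, 3])]) (.br
  817 .no (.hor [.f 689 1 5] []) .no (.red [.t 952 1 4, .f 945 1 5, .t 809 3 1, .f 938 3 5, .t 826
  1 4] 119 103 [1] [(118, 117, [3]), (119, 103, [1]), (135, 119, [1])]) .no (.use 9)) (.red [.f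
  569 1 3] 88 120 [4, 2, 2, 3] [(88, 120, [4, 2, 2, 3])]) .no .no) .no .no (.br 707 .no (.red [.f
  569 1 3] 88 89 [4] [(88, 89, [4])]) (.red [.f 569 1 3] 88 105 [4, 2] [(88, 105, [4, 2])]) (.con
  120 [4, 2, 3]) .no .no) (.red [.t 953 4 2] 119 120 [4] [(119, 120, [4])])

def f28t11 : Tr4 :=
  .br 1065 (.red [.f 930 3 1, .f 938 1 3] 134 135 [4] [(133, 149, [2]), (134, 135, [4])]) (.red
  [.f 930 3 1, .f 938 1 3] 134 135 [4] [(133, 117, [1]), (134, 135, [4])]) .no (.hor [.f 1057 3 5]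
  []) .no (.red [.f 930 3 1, .f 938 1 3] 134 135 [4] [(133, 149, [2]), (134, 135, [4])])

def f28t12 : Tr4 :=
  .br 816 (.dom 119 103 [1]) (.con 103 [4]) .no (.hor [.f 808 3 5] []) .no .no

def f28t13 : Tr4 :=
  .br 1192 (.con 149 [3]) (.hor [.f 1064 1 5] []) .no (.con 149 [3]) .no .no

def f28t14 : Tr4 :=
  .br 1065 (.br 1200 (.use 13) .no .no (.con 149 [3]) .no .no) .no .no (.hor [.f 1057 3 5] []) .no
  (.red [.f 1064 5 3, .t 1073 4 2] 134 135 [4] [(134, 135, [4])])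

def f28t15 : Tr4 :=
  .br 944 .no .no .no (.red [.t 936 3 2] 118 135 [2, 4] [(118, 135, [2, 4])]) .no .no

def f28t16 : Tr4 :=
  .br 817 .no (.hor [.f 689 1 5] []) .no (.use 12) .no (.br 937 .no (.use 15) .no (.hor [.f 929 3
  5] []) .no (.con 103 [4, 1, 1]))

def f28t17 : Tr4 :=
  .br 937 .no (.use 15) .no (.hor [.f 929 3 5] []) .no (.con 120 [4, 4, 1])

def f28t18 : Tr4 :=
  .br 938 .no (.use 10) .no (.br 707 .no (.red [.f 569 1 3] 88 89 [4] [(88, 89, [4])]) (.red [.f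
  569 1 3] 88 105 [4, 2] [(88, 105, [4, 2])]) (.br 818 .no (.br 819 .no (.con 120 [4, 2, 3]) (.use
  16) (.con 120 [4, 2, 3]) .no .no) .no (.br 817 .no (.br 816 (.con 102 [3, 3]) (.hor [.f 688 1 5]
  []) .no (.con 102 [3, 3]) .no .no) .no (.hor [.f 809 3 5] []) .no (.use 17)) (.con 120 [4, 2,
  3]) (.red [.t 953 4 2] 119 120 [4] [(119, 120, [4])])) .no .no) .no (.red [.f 937 5 1, .f 938 1
  3] 134 135 [4] [(134, 135, [4])])

def f28t19 : Tr4 :=
  .br 1065 (.hor [.f 1065 1 5] []) (.con 135 [4, 1, 4]) .no (.con 135 [4, 1, 4]) .no (.con 135 [4,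
  4, 1])

def f28t20 : Tr4 :=
  .br 827 .no (.red [.f 691 1 3] 103 120 [4, 2] [(103, 120, [4, 2])]) .no .no .no .no

def f28t21 : Tr4 :=
  .br 818 .no (.con 118 [2]) .no (.hor [.f 809 3 5] []) .no .no

def f28t22 : Tr4 :=
  .br 819 .no (.use 20) (.use 6) (.con 120 [4, 2, 4]) .no (.con 120 [4, 2, 4])

def f28t23 : Tr4 :=
  .br 937 (.con 135 [2, 4, 4]) (.use 15) .no (.con 135 [2, 4, 4]) .no (.con 135 [2, 4, 4])

def f28t24 : Tr4 :=
  .br 704 .no (.hor [.f 576 1 5] []) (.con 89 [4, 1]) .no .no .no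

def f28t25 : Tr4 :=
  .br 689 (.hor [.f 689 1 5] []) (.con 120 [4, 2, 4]) .no (.con 120 [4, 2, 4]) .no (.con 120 [4,
  2, 4])

def f28t26 : Tr4 :=
  .br 938 (.red [.f 938 1 3, .f 810 3 1] 118 120 [4, 4] [(118, 120, [4, 4]), (134, 135, [4])]) .no
  .no (.br 939 (.br 937 (.con 135 [4, 4]) (.red [.t 952 1 4, .f 945 1 5, .t 809 1 3, .f 818 1 3]
  119 120 [4] [(118, 102, [1]), (119, 120, [4]), (135, 119, [1])]) .no (.hor [.f 929 3 5] []) .no
  (.con 135 [4, 4])) (.red [.f 811 1 3, .f 810 3 5] 118 120 [4, 4] [(118, 120, [4, 4])]) .no (.hor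
  [.f 930 3 5] []) .no .no) (.red [.t 818 4 1] 118 120 [4, 4] [(118, 120, [4, 4])]) (.red [.t 952
  1 4, .f 945 1 5, .f 937 5 3, .f 810 3 1, .f 818 1 3] 119 120 [4] [(118, 120, [4, 4]), (119, 120,
  [4]), (135, 119, [1])])

def f28t27 : Tr4 :=
  .br 944 .no .no .no (.red [.f 808 3 1] 118 135 [2, 4] [(118, 135, [2, 4])]) .no .no

def f28t28 : Tr4 :=
  .br 817 .no (.br 816 (.br 819 .no (.use 20) (.dom 119 103 [1]) (.br 698 .no (.hor [.f 569 1 5]
  []) .no (.con 118 [2, 3]) (.con 118 [2, 3, 3]) .no) .no (.br 698 .no (.hor [.f 569 1 5] []) .no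
  (.red [.t 952 1 4, .t 832 1 4, .f 825 1 5, .t 689 1 3, .f 698 1 3] 104 105 [4] [(103, 102, [3]),
  (104, 105, [4]), (120, 104, [1]), (135, 119, [1])]) (.con 102 [3, 3]) .no)) (.hor [.f 688 1 5]
  []) .no (.use 27) .no .no) .no (.br 816 (.br 819 .no (.use 20) (.dom 119 103 [1]) (.con 118 [2])
  .no (.red [.t 938 2 3, .f 809 3 5, .t 953 4 2] 119 118 [3] [(118, 102, [1]), (119, 118, [3])]))
  (.con 120 [4, 4, 2]) .no (.con 120 [4, 4, 4]) .no .no) (.red [.t 953 4 2] 119 120 [4] [(119,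
  120, [4])]) (.use 23)

def f28t29 : Tr4 :=
  .br 827 .no (.red [.t 698 4 1] 103 105 [4, 4] [(103, 105, [4, 4])]) .no .no .no .no

def f28t30 : Tr4 :=
  .br 817 .no .no .no (.br 819 .no (.use 20) (.dom 119 103 [1]) (.use 21) .no (.br 698 .no (.con
  118 [2, 3, 2]) .no (.hor [.f 689 3 5] []) (.con 118 [2, 3, 2]) .no)) (.red [.t 953 4 2, .f 816 1
  5] 119 118 [3] [(119, 118, [3])]) .no

def f28t31 : Tr4 :=
  .br 947 .no (.br 818 .no (.con 120 [4, 2, 2]) .no (.use 26) .no (.red [.t 953 4 2, .f 816 1 5]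
  119 120 [4] [(119, 120, [4])])) .no (.use 30) .no .no

def f28t32 : Tr4 :=
  .br 698 .no (.con 120 [4, 2, 2]) .no (.use 29) (.con 120 [4, 2, 2]) .no

def f28t33 : Tr4 :=
  .br 937 .no (.use 15) .no (.br 818 .no (.red [.t 696 1 4, .f 689 1 5, .t 953 4 2, .t 1089 4 2]
  136 136 [] [(103, 87, [1]), (119, 120, [4]), (136, 136, [])]) .no (.br 930 (.con 135 [4, 4, 2])
  (.con 135 [4, 4, 2]) (.use 17) (.con 135 [4, 4, 2]) (.con 135 [4, 4, 2]) .no) (.use 32) .no)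
  (.red [.f 937 5 1, .f 938 1 3] 134 135 [4] [(134, 135, [4])]) .no

def f28t34 : Tr4 :=
  .br 819 (.con 120 [4, 2]) (.con 120 [4, 2]) (.br 697 .no (.br 689 (.hor [.f 689 1 5] []) (.con
  120 [2, 4, 4]) .no (.con 120 [2, 4, 4]) .no (.con 120 [2, 4, 4])) (.red [.f 697 3 1, .f 705 1 5]
  104 120 [2] [(104, 120, [2])]) (.con 120 [2, 4, 4]) (.red [.t 833 4 2] 104 120 [2] [(104, 120,
  [2])]) (.br 689 (.hor [.f 689 1 5] []) (.con 120 [2, 4, 4]) .no (.con 120 [2, 4, 4]) .no (.con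
  120 [2, 4, 4]))) (.con 120 [4, 2]) .no .no

def f28t35 : Tr4 :=
  .br 818 .no (.use 34) .no (.use 8) (.con 120 [4, 2]) (.red [.t 953 4 2] 119 120 [4] [(119, 120,
  [4])])

def f28t36 : Tr4 :=
  .br 937 (.con 120 [4, 4, 4, 1]) (.red [.t 952 1 4, .f 945 1 5, .t 809 1 3, .f 818 1 3] 119 120
  [4] [(118, 120, [4, 4]), (119, 120, [4]), (135, 119, [1])]) .no (.hor [.f 929 3 5] []) .no (.con
  120 [4, 4, 1])

def f28t37 : Tr4 :=
  .br 947 .no (.con 120 [4, 4]) .no (.br 818 .no (.br 819 .no (.con 120 [4, 2, 2]) (.con 103 [4])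
  (.con 103 [4]) .no .no) .no (.br 938 (.red [.f 938 1 3, .f 810 3 1] 118 120 [4, 4] [(118, 120,
  [4, 4]), (134, 135, [4])]) .no .no (.use 36) .no (.red [.t 952 1 4, .f 945 1 5, .f 937 5 3, .f
  810 3 1, .f 818 1 3] 119 120 [4] [(118, 120, [4, 4]), (119, 120, [4]), (135, 119, [1])])) (.con
  120 [4, 2, 4]) (.red [.t 953 4 2] 119 120 [4] [(119, 120, [4])])) .no .no

def f28t38 : Tr4 :=
  .br 816 (.use 31) (.use 37) .no (.use 27) (.br 818 .no (.red [.t 696 1 4, .f 689 1 5, .t 953 4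
  2, .t 1089 4 2] 136 136 [] [(103, 87, [1]), (119, 120, [4]), (136, 136, [])]) .no (.br 947 .no
  (.con 120 [4, 4]) .no (.br 936 (.con 120 [4, 4, 1]) (.con 120 [4, 4, 1]) (.br 1067 (.br 1066
  (.hor [.f 1066 1 5] []) (.red [.f 938 1 3, .f 938 3 5] 134 135 [4] [(134, 135, [4])]) .no (.br
  938 .no .no .no (.use 11) .no (.use 14)) .no (.use 33)) .no .no (.br 1066 (.use 19) (.red [.f
  938 1 3, .f 938 3 5] 134 135 [4] [(134, 135, [4])]) .no (.hor [.f 1058 3 5] []) .no (.use 33))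
  .no (.red [.t 952 1 4, .t 946 1 4, .t 1072 3 2] 134 135 [4] [(134, 135, [4])])) (.con 120 [4, 4,
  1]) (.con 120 [4, 4, 1]) .no) .no .no) (.use 32) .no) .no

def f28t39 : Tr4 :=
  .br 819 .no (.use 20) (.dom 119 103 [1]) (.hor [.f 810 3 5] []) .no .no

def f28t40 : Tr4 :=
  .br 938 .no (.use 28) .no (.br 698 .no (.hor [.f 569 1 5] []) .no (.br 818 .no .no .no (.br 816
  (.use 39) (.use 36) .no (.use 27) (.use 17) .no) (.use 29) (.red [.t 953 4 2] 119 120 [4] [(119,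
  120, [4])])) (.br 818 .no (.br 819 .no (.con 120 [4, 2, 3]) (.use 16) (.con 120 [4, 2, 3]) .no
  .no) .no (.br 816 (.br 817 .no (.con 102 [3, 3]) .no (.br 819 .no (.use 20) (.dom 119 103 [1])
  (.use 21) .no .no) .no .no) (.use 36) .no (.use 27) (.use 17) .no) (.con 120 [4, 2, 3]) (.red
  [.t 953 4 2] 119 120 [4] [(119, 120, [4])])) .no) .no (.red [.f 937 5 1, .f 938 1 3] 134 135 [4]
  [(134, 135, [4])])

def f28t41 : Tr4 :=
  .br 1066 (.use 19) (.red [.f 938 1 3, .f 938 3 5] 134 135 [4] [(134, 135, [4])]) .no (.hor [.f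
  1058 3 5] []) .no (.use 40)

def f28l0 : List Tr4 :=
  [f28t0, f28t1, f28t2, f28t3, f28t4, f28t5, f28t6, f28t7, f28t8, f28t9, f28t10, f28t11, f28t12,
  f28t13, f28t14, f28t15, f28t16, f28t17, f28t18, f28t19, f28t20, f28t21, f28t22, f28t23, f28t24,
  f28t25, f28t26, f28t27, f28t28, f28t29, f28t30, f28t31, f28t32, f28t33, f28t34, f28t35, f28t36,
  f28t37, f28t38, f28t39, f28t40, f28t41]

theorem f28k0 : chkLF ⟨4, 1, 0, false, -4⟩ false 8 f28N 0 f28l0 = true := by decide +kernel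

def f28t42 : Tr4 :=
  .br 824 .no (.br 705 .no (.br 697 .no (.br 947 .no (.br 707 .no (.red [.f 569 1 3] 88 89 [4]
  [(88, 89, [4])]) (.red [.f 569 1 3] 88 105 [4, 2] [(88, 105, [4, 2])]) (.con 120 [4, 2, 3]) .no
  .no) .no (.br 1067 (.br 1066 (.hor [.f 1066 1 5] []) (.red [.f 938 1 3, .f 938 3 5] 134 135 [4]
  [(134, 135, [4])]) .no (.br 938 .no (.use 10) .no (.use 11) .no (.use 14)) .no (.use 18)) .no
  .no (.br 1066 (.use 19) (.red [.f 938 1 3, .f 938 3 5] 134 135 [4] [(134, 135, [4])]) .no (.hor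
  [.f 1058 3 5] []) .no (.use 18)) .no (.red [.t 952 1 4, .t 946 1 4, .t 1072 3 2] 134 135 [4]
  [(134, 135, [4])])) .no .no) .no (.use 38) (.red [.t 833 4 2, .f 696 1 5] 104 105 [4] [(104,
  105, [4])]) .no) (.br 697 .no (.br 947 .no (.br 816 (.br 818 .no (.use 25) .no (.use 26) .no
  (.red [.t 953 4 2, .f 816 1 5] 119 120 [4] [(119, 120, [4])])) (.con 120 [4, 4]) .no (.con 120
  [4, 4]) (.con 120 [4, 4]) .no) .no (.br 1067 (.br 1066 (.hor [.f 1066 1 5] []) (.red [.f 938 1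
  3, .f 938 3 5] 134 135 [4] [(134, 135, [4])]) .no (.br 938 .no (.use 28) .no (.use 11) .no (.use
  14)) .no (.use 40)) .no .no (.use 41) .no (.red [.t 952 1 4, .t 946 1 4, .t 1072 3 2] 134 135
  [4] [(134, 135, [4])])) .no .no) .no (.use 38) (.red [.t 833 4 2, .f 696 1 5] 104 105 [4] [(104,
  105, [4])]) .no) (.red [.f 697 3 1, .f 696 1 5] 104 88 [1] [(104, 88, [1])]) .no (.red [.t 824 2
  3, .f 705 1 5] 104 105 [4] [(104, 105, [4])])) .no (.use 35) .no .no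

def f28t43 : Tr4 :=
  .br 824 .no (.hor [.f 696 1 5] []) .no (.br 817 .no (.red [.f 689 1 3] 103 104 [4] [(103, 104,
  [4])]) .no (.br 818 .no (.con 120 [4, 4, 2]) .no (.use 8) (.con 120 [4, 2]) .no) (.red [.t 953 4
  2] 119 120 [4] [(119, 120, [4])]) .no) .no .no

def f28t44 : Tr4 :=
  .br 816 (.red [.t 944 2 3, .f 825 1 5] 119 120 [4] [(119, 120, [4])]) (.br 817 .no (.hor [.f 688
  1 5] []) .no (.br 818 .no (.con 120 [4, 4, 2]) .no (.hor [.f 809 3 5] []) (.con 120 [4, 2, 4])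
  .no) (.red [.t 953 4 2] 119 120 [4] [(119, 120, [4])]) .no) .no (.use 27) (.red [.t 952 1 4, .f
  816 5 3, .f 945 1 5, .t 825 4 1] 119 120 [4] [(119, 120, [4]), (135, 119, [1])]) .no

def f28t45 : Tr4 :=
  .br 1208 (.br 834 .no (.br 833 .no (.hor [.f 705 1 5] []) (.con 105 [1]) (.use 42) .no .no)
  (.hor [.f 834 3 5] []) .no .no (.br 825 .no (.use 43) .no (.red [.f 817 3 1, .f 825 1 5] 119 120
  [4] [(119, 120, [4])]) .no (.use 44))) .no .no (.hor [.f 1200 3 5] []) .no .no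

def f28t46 : Tr4 :=
  .br 1209 (.use 3) .no (.red [.f 1081 3 1, .f 1081 1 5, .t 945 3 1, .f 1074 3 5, .t 962 1 4] 136
  136 [] [(135, 119, [1]), (136, 136, []), (152, 136, [1])]) (.br 835 .no (.br 833 .no (.br 834
  .no (.hor [.f 705 1 5] []) (.con 104 [3]) .no .no .no) (.red [.f 833 3 1, .f 832 1 5] 121 120
  [3] [(121, 120, [3])]) (.use 0) (.br 944 (.con 135 [4]) (.use 1) .no (.br 825 .no (.use 5) .no
  (.red [.f 817 3 1, .f 825 1 5] 119 120 [4] [(119, 120, [4])]) .no (.br 1072 (.dom 151 135 [1])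
  .no .no (.use 4) (.br 816 .no (.use 7) .no (.red [.f 808 3 1, .t 944 2 3, .f 825 1 5] 119 120
  [4] [(118, 120, [4, 4]), (119, 120, [4])]) (.red [.t 952 1 4, .f 816 5 3, .f 945 1 5, .t 825 4
  1] 119 120 [4] [(119, 120, [4]), (135, 119, [1])]) .no) .no)) .no .no) .no) (.br 1072 (.dom 151
  135 [1]) (.con 135 [4]) .no (.use 4) (.use 45) .no) (.red [.f 827 3 1, .f 826 1 5, .t 1074 2 3,
  .f 945 3 5, .t 1089 4 2, .t 962 4 2] 136 136 [] [(135, 119, [1]), (136, 136, [])]) .no (.red [.t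
  954 2 3, .t 1074 2 3, .f 945 3 5, .t 1089 4 2, .f 826 3 1] 136 136 [] [(135, 119, [1]), (136,
  136, [])])) .no (.red [.t 1088 1 4, .f 1081 1 5, .t 945 3 1, .f 1074 3 5, .t 962 1 4] 136 136 []
  [(135, 119, [1]), (136, 136, []), (152, 136, [1])])

def f28t47 : Tr4 :=
  .br 1072 (.hor [.f 1072 1 5] []) (.con 135 [4, 1]) .no (.con 134 [1]) .no .no

def f28t48 : Tr4 :=
  .br 947 .no (.con 135 [2, 4]) .no (.hor [.f 938 3 5] []) .no .no

def f28t49 : Tr4 :=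
  .br 824 .no (.hor [.f 696 1 5] []) .no (.use 48) .no .no

def f28t50 : Tr4 :=
  .br 939 (.red [.f 810 3 1, .f 818 1 3] 119 120 [4] [(118, 134, [2]), (119, 120, [4])]) (.red [.f
  810 3 1, .f 818 1 3] 119 120 [4] [(118, 134, [2]), (119, 120, [4])]) (.hor [.f 938 3 5] [])
  (.red [.f 810 3 1, .f 818 1 3] 119 120 [4] [(118, 134, [2]), (119, 120, [4])]) .no .no

def f28t51 : Tr4 :=
  .br 697 .no (.hor [.f 569 1 5] []) (.red [.f 697 3 1, .f 696 1 5] 104 88 [1] [(104, 88, [1])])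
  (.con 120 [4, 2, 2]) .no .no

def f28t52 : Tr4 :=
  .br 818 .no (.br 824 .no (.br 947 .no (.br 697 .no (.use 25) (.red [.f 697 3 1, .f 696 1 5] 104
  88 [1] [(104, 88, [1])]) (.con 120 [4, 2, 2]) (.red [.t 833 4 2, .f 696 1 5] 104 105 [4] [(104,
  105, [4])]) .no) .no (.hor [.f 938 3 5] []) .no .no) .no (.use 34) .no .no) .no (.use 50) (.br
  824 .no (.br 698 .no (.use 51) .no (.use 29) (.con 120 [4, 2, 3]) (.red [.t 833 4 2, .f 696 1 5]
  104 105 [4] [(104, 105, [4])])) .no (.con 120 [4, 2]) .no .no) (.red [.t 953 4 2] 119 120 [4]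
  [(119, 120, [4])])

def f28t53 : Tr4 :=
  .br 834 .no (.use 52) (.hor [.f 834 3 5] []) .no .no .no

def f28t54 : Tr4 :=
  .br 947 .no (.red [.f 811 1 3] 118 134 [2] [(118, 134, [2])]) .no .no .no .no

def f28t55 : Tr4 :=
  .br 939 (.con 134 [4]) (.use 54) (.hor [.f 938 3 5] []) (.con 134 [2, 4]) .no .no

def f28t56 : Tr4 :=
  .br 1064 (.con 134 [1, 4]) .no .no (.red [.f 928 3 1, .f 936 1 5] 133 134 [4] [(133, 134, [4])])
  .no .no

def f28t57 : Tr4 :=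
  .br 971 (.br 841 .no (.hor [.f 713 1 5] []) (.br 843 .no (.hor [.f 714 1 5] []) (.con 138 [2,
  2]) .no .no .no) .no .no (.red [.t 954 2 3, .f 825 3 5, .t 960 2 3] 121 120 [3] [(120, 104,
  [1]), (121, 120, [3])])) (.con 120 [3, 3]) (.hor [.f 970 3 5] []) .no .no .no

def f28t58 : Tr4 :=
  .br 827 .no (.con 120 [2, 2]) .no (.br 699 .no (.con 103 [3, 2]) (.hor [.f 698 3 5] []) (.con
  103 [3, 2]) .no .no) .no .no

def f28t59 : Tr4 :=
  .br 819 (.con 120 [4, 2, 2]) (.con 120 [4, 2, 2]) (.br 817 .no .no .no (.use 12) .no (.red [.t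
  696 1 4, .f 689 1 5, .t 953 4 2, .t 1089 4 2] 136 136 [] [(103, 87, [1]), (119, 103, [1]), (136,
  136, [])])) (.con 120 [4, 2, 2]) .no .no

def f28t60 : Tr4 :=
  .br 705 .no (.br 706 .no (.hor [.f 577 1 5] []) (.red [.f 834 5 3, .f 706 3 1] 105 120 [2, 3]
  [(105, 120, [2, 3])]) (.use 58) (.br 697 .no (.red [.f 569 1 3] 88 120 [2, 2] [(88, 120, [2,
  2])]) .no (.use 59) (.red [.t 954 2 3, .t 834 4 1, .f 706 5 1, .t 833 4 2] 104 120 [2] [(104,
  120, [2])]) .no) .no) .no (.red [.f 697 3 1, .f 696 1 5] 104 120 [2] [(104, 120, [2])]) (.red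
  [.f 834 5 3, .t 841 2 4] 105 120 [2, 3] [(105, 120, [2, 3])]) (.red [.t 824 2 3, .f 705 1 3] 105
  120 [2, 3] [(104, 120, [2]), (105, 120, [2, 3])])

def f28t61 : Tr4 :=
  .br 706 .no (.br 705 .no (.hor [.f 577 1 5] []) (.br 707 .no (.hor [.f 578 1 5] []) (.con 120
  [2, 2, 3]) .no .no .no) .no .no (.red [.t 824 2 3] 104 120 [2] [(104, 120, [2])])) (.red [.f 834
  5 3, .f 706 3 1] 105 120 [2, 3] [(105, 120, [2, 3])]) .no (.red [.t 954 2 3, .t 834 4 1, .f 706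
  5 1, .t 833 4 2] 104 120 [2] [(104, 120, [2])]) (.hor [.f 697 5 3, .f 697 3 1, .f 696 1 5, .t
  698 3 1, .f 705 1 5] [])

def f28t62 : Tr4 :=
  .br 944 .no .no .no .no .no .no

def f28t63 : Tr4 :=
  .br 1201 (.hor [.f 1201 1 5] []) .no (.br 1208 (.br 1203 (.hor [.f 1202 1 5] []) .no .no (.br
  1065 (.br 1200 (.con 167 [4]) .no .no (.red [.t 1192 3 2, .f 1065 3 5] 150 134 [1] [(150, 134,
  [1])]) .no .no) (.br 944 .no (.br 936 (.hor [.f 936 1 5] []) (.use 55) .no (.use 56) .no .no)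
  .no (.red [.t 936 3 1, .f 1065 3 5, .t 1209 4 2] 151 135 [1] [(134, 118, [1]), (151, 135, [1])])
  .no .no) .no (.br 1064 (.con 134 [1, 4]) (.br 937 .no (.br 817 .no (.hor [.f 689 1 5] []) .no
  .no .no (.use 62)) .no (.br 1200 (.con 167 [4]) .no .no (.red [.f 929 3 1, .f 936 1 5, .f 1064 5
  3, .f 1064 3 1] 150 134 [1] [(133, 117, [1]), (150, 134, [1])]) .no .no) .no .no) .no (.hor [.f
  1056 3 5] []) .no .no) .no (.red [.f 1064 5 3, .f 1065 3 5, .t 1209 4 2] 151 135 [1] [(151, 135,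
  [1])])) .no .no) .no .no (.hor [.f 1200 3 5] []) .no .no) (.br 1203 (.hor [.f 1202 1 5] []) .no
  .no (.con 134 [1, 1]) .no .no) .no (.br 1203 (.hor [.f 1202 1 5] []) .no .no (.con 134 [1, 1])
  .no .no)

def f28t64 : Tr4 :=
  .br 944 .no (.br 936 (.hor [.f 936 1 5] []) (.use 55) .no (.br 1203 (.red [.f 1203 1 3] 167 135
  [1, 1] [(167, 135, [1, 1])]) .no .no (.use 56) .no .no) .no .no) .no (.red [.t 936 3 1, .f 1065
  3 5, .f 1073 5 1, .f 1074 1 3] 151 135 [1] [(134, 118, [1]), (151, 135, [1])]) .no .no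

def f28t65 : Tr4 :=
  .br 1203 (.red [.f 1203 1 3] 167 135 [1, 1] [(167, 135, [1, 1])]) .no .no (.br 939 (.br 827 .no
  (.br 696 (.br 697 .no (.br 698 .no (.hor [.f 569 1 5] []) (.con 120 [2, 2]) .no .no .no) (.red
  [.f 697 3 1, .f 696 1 5] 104 120 [2] [(104, 120, [2])]) (.con 120 [2, 4, 2]) (.use 61) .no)
  (.con 120 [2, 4]) (.con 120 [2, 4]) (.con 120 [2, 4]) (.con 120 [2, 4]) .no) .no (.br 824 .no
  (.br 1193 (.br 1064 (.con 134 [4, 1]) (.br 817 .no (.hor [.f 689 1 5] []) .no (.use 12) .no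
  (.use 62)) .no (.hor [.f 1056 3 5] []) .no .no) .no .no (.red [.f 1057 3 1, .t 1065 1 3] 150 134
  [1] [(149, 134, [1, 4]), (150, 134, [1])]) (.red [.f 1193 5 3, .f 1066 3 1, .f 1074 1 3] 151 135
  [1] [(150, 134, [1]), (151, 135, [1])]) (.con 134 [1, 1])) .no (.use 48) .no .no) .no .no) (.use
  54) (.hor [.f 938 3 5] []) (.br 1064 (.con 134 [1, 4]) (.con 133 [3, 2]) .no (.hor [.f 1056 3 5]
  []) .no .no) .no .no) .no .no

def f28t66 : Tr4 :=
  .br 842 .no (.use 57) (.red [.t 954 2 3, .f 842 3 1] 122 120 [3, 3] [(120, 104, [1]), (122, 120,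
  [3, 3])]) .no (.br 1202 (.use 63) .no .no (.red [.f 1066 3 1, .f 1074 1 3] 151 135 [1] [(150,
  134, [1]), (151, 135, [1])]) (.red [.t 1082 1 4, .t 962 1 4, .f 1081 3 5] 136 136 [] [(136, 136,
  []), (151, 135, [1])]) (.br 1065 (.red [.t 1065 1 3, .f 1074 1 3, .f 1074 3 5] 151 135 [1]
  [(150, 134, [1]), (151, 135, [1])]) (.use 64) .no (.use 65) .no (.red [.f 1064 5 3, .f 1065 3 5,
  .f 1073 5 1, .f 1074 1 3] 151 135 [1] [(151, 135, [1])]))) (.red [.t 954 2 3, .f 825 3 5, .f 833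
  5 3, .f 833 3 1] 121 120 [3] [(120, 104, [1]), (121, 120, [3])])

def f28t67 : Tr4 :=
  .br 699 (.con 120 [2, 2]) (.con 120 [2, 2]) (.hor [.f 698 3 5] []) (.con 120 [2, 2]) .no .no

def f28t68 : Tr4 :=
  .br 704 .no (.hor [.f 576 1 5] []) (.red [.t 952 1 4, .t 832 1 4, .t 712 4 1, .f 833 3 1] 105
  120 [2, 3] [(105, 120, [2, 3]), (120, 104, [1]), (121, 120, [3]), (135, 136, [4])]) .no .no .no

def f28t69 : Tr4 :=
  .br 824 .no (.red [.t 824 2 3, .f 705 1 3] 105 120 [2, 3] [(104, 120, [2]), (105, 120, [2, 3])])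
  .no (.use 48) .no .no

def f28t70 : Tr4 :=
  .br 705 .no (.br 706 .no (.hor [.f 577 1 5] []) (.red [.t 954 2 3, .f 825 3 5, .t 713 1 4] 105
  120 [2, 3] [(105, 120, [2, 3]), (120, 104, [1])]) (.use 67) (.br 697 .no (.red [.f 569 1 3] 88
  120 [2, 2] [(88, 120, [2, 2])]) .no (.br 696 (.use 59) (.con 120 [2, 4, 2]) (.con 120 [2, 2])
  (.hor [.f 688 3 5] []) .no .no) (.red [.t 954 2 3, .t 834 4 1, .f 706 5 1, .t 833 4 2] 104 120
  [2] [(104, 120, [2])]) (.use 68)) .no) .no (.red [.f 697 3 1, .f 705 1 3] 105 120 [2, 3] [(104,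
  120, [2]), (105, 120, [2, 3])]) (.red [.t 954 2 3, .f 825 3 5, .f 705 5 1, .f 705 1 3] 105 120
  [2, 3] [(105, 120, [2, 3]), (120, 104, [1])]) (.use 69)

def f28t71 : Tr4 :=
  .br 843 .no (.hor [.f 714 1 5] []) (.con 120 [3, 2, 3]) .no .no .no

def f28t72 : Tr4 :=
  .br 1202 (.use 63) .no .no (.red [.f 1066 3 1, .f 1074 1 3] 151 135 [1] [(150, 134, [1]), (151,
  135, [1])]) (.red [.t 1082 1 4, .t 962 1 4, .f 1081 3 5] 136 136 [] [(136, 136, []), (151, 135,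
  [1])]) (.br 1065 (.red [.t 1065 1 3, .f 1074 1 3, .f 1074 3 5] 151 135 [1] [(150, 134, [1]),
  (151, 135, [1])]) (.use 64) .no (.br 841 .no (.use 70) (.br 842 .no (.use 71) (.hor [.f 841 3 5]
  []) .no (.use 65) .no) .no (.red [.t 954 2 3, .f 825 3 5, .f 833 5 3, .f 833 3 1] 121 120 [3]
  [(120, 104, [1]), (121, 120, [3])]) (.red [.t 954 2 3, .f 825 3 5, .t 960 2 3] 121 120 [3]
  [(120, 104, [1]), (121, 120, [3])])) .no (.red [.f 1064 5 3, .f 1065 3 5, .f 1073 5 1, .f 1074 1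
  3] 151 135 [1] [(151, 135, [1])]))

def f28t73 : Tr4 :=
  .br 698 .no (.con 120 [4, 2, 2]) .no (.hor [.f 689 3 5] []) (.con 120 [4, 2, 2]) .no

def f28t74 : Tr4 :=
  .br 697 .no (.red [.f 569 1 3] 88 120 [2, 2] [(88, 120, [2, 2])]) .no (.use 73) (.red [.t 954 2
  3, .t 834 4 1, .f 706 5 1, .t 833 4 2] 104 120 [2] [(104, 120, [2])]) .no

def f28t75 : Tr4 :=
  .br 706 .no (.hor [.f 577 1 5] []) (.red [.f 834 5 3, .f 706 3 1] 105 120 [2, 3] [(105, 120, [2,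
  3])]) (.use 58) (.use 74) .no

def f28l1 : List Tr4 :=
  [f28t42, f28t43, f28t44, f28t45, f28t46, f28t47, f28t48, f28t49, f28t50, f28t51, f28t52, f28t53,
  f28t54, f28t55, f28t56, f28t57, f28t58, f28t59, f28t60, f28t61, f28t62, f28t63, f28t64, f28t65,
  f28t66, f28t67, f28t68, f28t69, f28t70, f28t71, f28t72, f28t73, f28t74, f28t75]

theorem f28k1 : chkLF ⟨4, 1, 0, false, -4⟩ false 8 f28N 42 f28l1 = true := by decide +kernel

def f28t76 : Tr4 :=
  .br 699 (.br 698 .no (.use 51) (.con 120 [2, 2]) (.red [.t 698 4 1] 103 120 [2, 4] [(103, 120,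
  [2, 4])]) .no (.use 61)) (.con 120 [4, 2, 3]) (.con 120 [4, 2, 3]) (.con 120 [4, 2, 3]) .no
  (.con 120 [4, 2, 3])

def f28t77 : Tr4 :=
  .br 698 .no (.use 51) .no (.br 827 .no (.red [.t 698 4 1] 103 120 [2, 4] [(103, 120, [2, 4])])
  .no .no .no .no) (.con 120 [4, 2, 3]) (.red [.f 697 5 3, .f 697 3 1] 104 120 [2] [(104, 120,
  [2])])

def f28t78 : Tr4 :=
  .br 842 .no (.use 57) (.red [.t 954 2 3, .f 842 3 1] 122 120 [3, 3] [(120, 104, [1]), (122, 120,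
  [3, 3])]) .no (.br 824 .no (.br 705 .no (.use 75) (.use 76) (.red [.f 697 3 1, .f 696 1 5] 104
  120 [2] [(104, 120, [2])]) (.use 77) (.red [.t 824 2 3] 104 120 [2] [(104, 120, [2])])) .no
  (.con 120 [4, 2]) .no .no) (.red [.t 954 2 3, .f 825 3 5, .f 833 5 3, .f 833 3 1] 121 120 [3]
  [(120, 104, [1]), (121, 120, [3])])

def f28t79 : Tr4 :=
  .br 824 .no (.br 705 .no (.br 706 .no (.hor [.f 577 1 5] []) (.br 842 .no .no (.br 841 .no (.red
  [.t 954 2 3, .f 825 3 5, .t 713 1 4] 105 120 [2, 3] [(105, 120, [2, 3]), (120, 104, [1])]) (.hor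
  [.f 841 3 5] []) .no .no (.red [.t 954 2 3, .f 825 3 5, .t 960 2 3] 121 120 [3] [(120, 104,
  [1]), (121, 120, [3])])) .no (.use 75) (.red [.t 954 2 3, .f 825 3 5, .f 833 5 3, .f 833 3 1]
  121 120 [3] [(120, 104, [1]), (121, 120, [3])])) (.use 58) (.use 74) .no) (.br 841 .no .no (.br
  842 .no (.use 71) (.hor [.f 841 3 5] []) .no (.use 76) .no) .no (.red [.t 954 2 3, .f 825 3 5,
  .f 833 5 3, .f 833 3 1] 121 120 [3] [(120, 104, [1]), (121, 120, [3])]) (.red [.t 954 2 3, .f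
  825 3 5, .t 960 2 3] 121 120 [3] [(120, 104, [1]), (121, 120, [3])])) (.red [.f 697 3 1, .f 696
  1 5] 104 120 [2] [(104, 120, [2])]) (.use 77) (.red [.t 824 2 3] 104 120 [2] [(104, 120, [2])]))
  .no (.con 120 [4, 2]) .no .no

def f28t80 : Tr4 :=
  .br 939 (.con 134 [2]) (.con 134 [2]) (.hor [.f 938 3 5] []) (.con 134 [2]) .no .no

def f28t81 : Tr4 :=
  .br 1073 (.use 47) .no .no (.hor [.f 1065 3 5] []) .no (.br 944 .no (.red [.t 944 2 3, .f 825 1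
  5] 119 120 [4] [(119, 120, [4])]) .no (.use 80) .no .no)

def f28t82 : Tr4 :=
  .br 696 (.hor [.f 696 1 5] []) (.con 104 [4]) (.con 104 [4]) (.con 104 [4]) .no .no

def f28t83 : Tr4 :=
  .br 817 .no (.hor [.f 689 1 5] []) .no (.con 118 [2]) .no .no

def f28t84 : Tr4 :=
  .br 818 .no (.br 696 (.br 816 (.use 83) (.con 120 [2, 4, 4]) .no (.br 944 .no .no .no (.red [.f
  808 3 1] 118 134 [2] [(118, 134, [2])]) .no .no) (.con 120 [2, 4, 4]) .no) (.con 120 [2, 4])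
  (.con 120 [2, 4]) (.con 120 [2, 4]) (.con 120 [2, 4]) .no) .no (.hor [.f 810 3 5] []) .no (.red
  [.t 953 4 2] 119 120 [4] [(119, 120, [4])])

def f28t85 : Tr4 :=
  .br 816 .no (.br 818 .no (.con 134 [2, 2]) .no (.hor [.f 810 3 5] []) .no (.con 134 [2, 2])) .no
  (.red [.f 808 3 1, .t 944 2 3, .f 825 1 5] 119 120 [4] [(118, 134, [2]), (119, 120, [4])]) (.red
  [.f 816 5 3, .f 817 3 1] 119 120 [4] [(119, 120, [4])]) .no

def f28t86 : Tr4 :=
  .br 827 .no (.br 825 .no (.use 82) (.br 819 .no (.red [.f 691 1 3] 103 120 [2, 4] [(103, 120,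
  [2, 4])]) .no (.br 1073 (.use 47) .no .no (.hor [.f 1065 3 5] []) .no (.use 84)) .no (.red [.f
  818 5 1, .f 818 1 3] 119 120 [4] [(119, 120, [4])])) (.red [.f 817 3 1, .f 825 1 5] 119 120 [4]
  [(119, 120, [4])]) .no (.br 819 .no (.red [.f 691 1 3] 103 104 [4] [(103, 104, [4])]) .no (.br
  944 (.br 1065 (.con 135 [4, 1]) (.con 135 [4, 1]) (.hor [.f 1065 3 5] []) (.con 135 [4, 1]) .no
  (.con 135 [4, 1])) (.red [.t 944 2 3, .f 825 1 5] 119 118 [3] [(119, 118, [3])]) .no (.use 85)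
  .no .no) .no (.red [.f 818 5 1, .f 818 1 3] 119 120 [4] [(119, 120, [4])]))) (.red [.f 827 3 1,
  .f 826 1 5, .f 946 5 3, .f 945 3 5, .t 1089 4 2, .t 962 4 2] 136 136 [] [(136, 136, [])]) (.red
  [.t 826 1 4, .f 945 3 5] 119 120 [4] [(119, 120, [4])]) .no .no

def f28t87 : Tr4 :=
  .br 1203 (.red [.f 1203 1 3] 167 168 [4] [(167, 168, [4])]) .no .no (.br 1202 (.br 1201 (.hor
  [.f 1201 1 5] []) .no .no (.con 168 [4, 4]) .no (.con 168 [4, 4])) .no .no (.hor [.f 1194 3 5]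
  []) .no (.red [.f 1073 5 1, .f 1074 1 3] 151 135 [1] [(151, 135, [1])])) .no (.red [.t 1082 1 4,
  .t 962 1 4, .f 1081 3 5] 136 136 [] [(136, 136, []), (151, 135, [1])])

def f28t88 : Tr4 :=
  .br 1209 (.use 3) .no (.red [.f 1081 3 1, .f 1081 1 5, .f 1073 5 3, .f 1074 3 5, .t 962 1 4] 136
  136 [] [(136, 136, []), (152, 136, [1])]) (.red [.t 1209 4 2, .f 1074 3 5] 151 135 [1] [(151,
  135, [1])]) .no (.use 87)

def f28t89 : Tr4 :=
  .br 840 .no (.con 120 [3, 3, 2]) (.hor [.f 840 3 5] []) .no .no .no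

def f28t90 : Tr4 :=
  .br 840 .no (.hor [.f 712 1 5] []) (.red [.f 840 3 1] 122 106 [1] [(122, 106, [1])]) .no .no .no

def f28t91 : Tr4 :=
  .br 842 (.red [.t 954 2 3, .f 825 3 5, .t 969 4 2] 121 120 [3] [(120, 104, [1]), (121, 120,
  [3])]) (.use 89) (.hor [.f 841 3 5] []) .no (.br 840 .no (.con 120 [2, 3, 3]) (.hor [.f 840 3 5]
  []) .no .no .no) .no

def f28t92 : Tr4 :=
  .br 841 .no (.br 705 .no (.br 706 .no (.hor [.f 577 1 5] []) (.red [.t 954 2 3, .f 825 3 5, .t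
  713 1 4] 105 120 [2, 3] [(105, 120, [2, 3]), (120, 104, [1])]) (.use 67) (.br 697 .no (.red [.f
  569 1 3] 88 120 [2, 2] [(88, 120, [2, 2])]) .no (.br 696 (.use 73) (.br 842 (.red [.t 954 2 3,
  .f 825 3 5, .t 969 4 2] 121 120 [3] [(120, 104, [1]), (121, 120, [3])]) (.hor [.f 713 1 5] [])
  (.use 90) .no (.br 698 .no (.con 120 [2, 2, 4]) .no (.hor [.f 689 3 5] []) (.con 120 [2, 2, 4])
  .no) .no) (.con 120 [2, 2]) (.hor [.f 688 3 5] []) .no .no) (.red [.t 954 2 3, .t 834 4 1, .f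
  706 5 1, .t 833 4 2] 104 120 [2] [(104, 120, [2])]) (.use 68)) .no) .no (.red [.f 697 3 1, .f
  705 1 3] 105 120 [2, 3] [(104, 120, [2]), (105, 120, [2, 3])]) (.red [.t 954 2 3, .f 825 3 5, .f
  705 5 1, .f 705 1 3] 105 120 [2, 3] [(105, 120, [2, 3]), (120, 104, [1])]) (.use 69)) (.use 91)
  .no (.red [.t 954 2 3, .f 825 3 5, .f 833 5 3, .f 833 3 1] 121 120 [3] [(120, 104, [1]), (121,
  120, [3])]) (.red [.t 954 2 3, .f 825 3 5, .t 960 2 3] 121 120 [3] [(120, 104, [1]), (121, 120,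
  [3])])

def f28t93 : Tr4 :=
  .br 1074 (.red [.f 1074 1 3, .f 1074 3 5] 151 135 [1] [(151, 135, [1])]) (.use 46) .no (.br 946
  .no (.red [.f 818 1 3] 119 120 [4] [(119, 120, [4])]) .no (.br 825 .no (.use 49) (.br 835 .no
  (.use 0) (.use 53) (.con 120 [2]) .no (.br 1073 (.use 47) .no .no (.hor [.f 1065 3 5] []) .no
  (.br 818 .no (.br 1202 (.use 63) .no .no (.red [.f 1066 3 1, .f 1074 1 3] 151 135 [1] [(150,
  134, [1]), (151, 135, [1])]) (.red [.t 1082 1 4, .t 962 1 4, .f 1081 3 5] 136 136 [] [(136, 136,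
  []), (151, 135, [1])]) (.br 1065 (.red [.t 1065 1 3, .f 1074 1 3, .f 1074 3 5] 151 135 [1]
  [(150, 134, [1]), (151, 135, [1])]) (.use 64) .no (.br 841 .no (.use 70) (.br 842 (.red [.t 954
  2 3, .f 825 3 5, .t 969 4 2] 121 120 [3] [(120, 104, [1]), (121, 120, [3])]) (.use 89) (.hor [.f
  841 3 5] []) .no (.use 65) .no) .no (.red [.t 954 2 3, .f 825 3 5, .f 833 5 3, .f 833 3 1] 121
  120 [3] [(120, 104, [1]), (121, 120, [3])]) (.red [.t 954 2 3, .f 825 3 5, .t 960 2 3] 121 120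
  [3] [(120, 104, [1]), (121, 120, [3])])) .no (.red [.f 1064 5 3, .f 1065 3 5, .f 1073 5 1, .f
  1074 1 3] 151 135 [1] [(151, 135, [1])]))) .no (.use 50) (.use 92) (.red [.t 953 4 2] 119 120
  [4] [(119, 120, [4])])))) (.red [.f 817 3 1, .f 825 1 5] 119 120 [4] [(119, 120, [4])]) .no
  (.use 81)) (.use 86) .no) .no (.use 88)

def f28t94 : Tr4 :=
  .br 1218 (.hor [.f 1217 1 5] []) .no (.con 152 [3, 1]) .no .no .no

def f28t95 : Tr4 :=
  .br 834 .no (.hor [.f 705 1 5] []) (.hor [.f 834 3 5] []) .no .no .no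

def f28t96 : Tr4 :=
  .br 1209 (.br 1208 (.hor [.f 1208 1 5] []) .no .no .no .no .no) .no (.con 152 [1]) (.dom 151 135
  [1]) .no (.red [.t 1088 1 4, .f 1081 1 5, .t 945 3 1, .f 1074 3 5, .t 962 1 4] 136 136 [] [(135,
  119, [1]), (136, 136, []), (152, 136, [1])])

def f28t97 : Tr4 :=
  .br 827 .no (.use 82) (.red [.f 827 3 1, .f 826 1 5, .f 946 5 3, .f 945 3 5, .t 1089 4 2, .t 962
  4 2] 136 136 [] [(136, 136, [])]) (.red [.t 826 1 4, .f 945 3 5] 119 120 [4] [(119, 120, [4])])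
  .no .no

def f28t98 : Tr4 :=
  .br 946 (.br 1072 (.use 96) (.con 135 [4]) .no (.use 4) (.use 43) .no) (.red [.f 818 1 3] 119
  120 [4] [(119, 120, [4])]) .no (.use 49) (.use 97) .no

def f28t99 : Tr4 :=
  .br 1208 (.hor [.f 1208 1 5] []) .no .no (.con 152 [4, 1]) .no .no

def f28t100 : Tr4 :=
  .br 1072 (.use 96) (.con 135 [4]) .no (.use 4) (.br 1217 (.use 94) .no (.br 1209 (.use 99) .no
  .no (.use 45) .no (.red [.t 1088 1 4, .f 1081 1 5, .t 945 3 1, .f 1074 3 5, .t 962 1 4] 136 136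
  [] [(135, 119, [1]), (136, 136, []), (152, 136, [1])])) (.con 152 [1]) (.red [.t 1081 3 1, .t
  945 3 1, .f 1074 3 5, .t 962 1 4] 136 136 [] [(135, 119, [1]), (136, 136, []), (152, 136, [1])])
  .no) .no

def f28t101 : Tr4 :=
  .br 689 (.hor [.f 689 1 5] []) (.con 120 [4, 2, 4]) .no (.con 120 [4, 2, 4]) .no (.con 120 [4,
  2, 4])

def f28t102 : Tr4 :=
  .br 697 .no (.use 101) .no (.con 120 [4, 2, 2]) (.red [.f 944 1 3, .t 833 4 2] 104 120 [2]
  [(104, 120, [2]), (135, 136, [4])]) .no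

def f28t103 : Tr4 :=
  .br 979 (.con 137 [3, 2]) (.con 137 [3, 2]) (.con 137 [3, 2]) (.hor [.f 970 3 5] []) .no .no

def f28t104 : Tr4 :=
  .br 1098 (.red [.t 1090 2 3, .t 1210 2 3, .f 1081 3 5, .t 1225 4 2, .f 962 3 1] 153 137 [1]
  [(152, 136, [1]), (153, 137, [1])]) .no (.br 1097 .no .no (.hor [.f 1097 3 5] []) .no .no .no)
  .no .no (.red [.t 961 3 1, .t 825 3 1, .f 832 1 5, .t 1080 2 3, .f 961 1 3, .f 1089 3 1] 153 137
  [1] [(120, 104, [1]), (136, 136, []), (153, 137, [1])])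

def f28t105 : Tr4 :=
  .br 1074 (.red [.f 1074 1 3, .f 1074 3 5] 151 135 [1] [(151, 135, [1])]) .no .no (.use 86) .no
  (.red [.t 1081 3 1, .f 1073 5 3, .f 1074 3 5, .t 962 1 4] 136 136 [] [(136, 136, []), (152, 136,
  [1])])

def f28t106 : Tr4 :=
  .br 835 .no (.use 0) (.br 946 (.use 100) (.red [.f 818 1 3] 119 120 [4] [(119, 120, [4])]) .no
  (.use 53) (.br 1074 (.red [.f 1074 1 3, .f 1074 3 5] 151 135 [1] [(151, 135, [1])]) .no .no
  (.use 86) .no (.br 1209 (.use 99) .no (.con 152 [1]) (.red [.t 1209 4 2, .f 1074 3 5] 151 135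
  [1] [(151, 135, [1])]) .no (.br 1217 (.use 94) .no (.br 1097 .no .no (.br 1098 (.br 834 .no (.br
  971 .no .no (.br 819 .no (.use 20) (.red [.t 826 1 4, .f 945 3 5] 119 120 [4] [(119, 120, [4])])
  (.br 970 .no (.br 818 .no (.br 824 .no (.br 705 .no (.br 707 .no (.br 704 .no (.hor [.f 576 1 5]
  []) (.con 89 [4]) .no .no .no) (.red [.f 707 3 1, .f 706 1 5, .t 954 2 3, .f 825 3 5, .t 969 4
  2, .t 842 4 2] 121 105 [1] [(120, 104, [1]), (121, 105, [1])]) (.use 24) .no .no) (.br 816 (.use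
  83) (.con 120 [4, 2, 4]) .no (.br 944 (.use 102) .no .no (.red [.f 808 3 1] 118 134 [2] [(118,
  134, [2])]) .no .no) (.con 120 [4, 2, 4]) .no) (.red [.f 697 3 1, .f 696 1 5] 104 88 [1] [(104,
  88, [1])]) .no (.red [.t 824 2 3, .f 705 1 5] 104 105 [4] [(104, 105, [4])])) .no (.con 120 [4,
  2]) .no .no) .no (.hor [.f 810 3 5] []) .no (.red [.t 953 4 2] 119 120 [4] [(119, 120, [4])]))
  (.hor [.f 970 3 5] []) .no .no .no) .no (.red [.f 818 5 1, .f 818 1 3] 119 120 [4] [(119, 120,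
  [4])])) .no .no (.red [.t 1090 2 3, .t 1210 2 3, .f 1081 3 5, .t 1225 4 2, .f 962 3 1] 153 137
  [1] [(152, 136, [1]), (153, 137, [1])])) (.hor [.f 834 3 5] []) .no .no .no) (.con 137 [3])
  (.hor [.f 1097 3 5] []) .no .no .no) .no (.red [.t 961 3 1, .t 825 3 1, .f 832 1 5, .t 1080 2 3,
  .f 961 1 3, .f 1089 3 1] 153 137 [1] [(120, 104, [1]), (136, 136, []), (153, 137, [1])]) .no)
  .no (.red [.t 1081 3 1, .f 1073 5 3, .f 1074 3 5, .t 962 1 4] 136 136 [] [(136, 136, []), (152,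
  136, [1])]) .no))) .no) (.con 120 [2]) .no (.br 946 (.red [.t 954 2 3, .t 1074 2 3, .f 945 3 5,
  .t 1089 4 2, .f 826 3 1] 136 136 [] [(135, 119, [1]), (136, 136, [])]) (.red [.f 818 1 3] 119
  120 [4] [(119, 120, [4])]) .no (.br 970 (.con 137 [3]) (.red [.t 954 2 3, .f 825 3 5, .t 969 4
  2] 121 120 [3] [(120, 104, [1]), (121, 120, [3])]) (.use 103) .no (.br 818 .no (.br 1217 (.use
  94) .no (.use 104) (.con 152 [1]) (.br 1074 (.red [.f 1074 1 3, .f 1074 3 5] 151 135 [1] [(151,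
  135, [1])]) .no .no (.br 1073 (.use 47) .no .no (.hor [.f 1065 3 5] []) .no (.br 841 .no (.use
  70) (.br 842 .no (.use 71) (.hor [.f 841 3 5] []) .no (.red [.t 954 2 3, .f 825 3 5, .f 842 5 1,
  .t 969 4 2] 121 120 [3] [(120, 104, [1]), (121, 120, [3])]) .no) .no (.red [.t 954 2 3, .f 825 3
  5, .f 833 5 3, .f 833 3 1] 121 120 [3] [(120, 104, [1]), (121, 120, [3])]) (.red [.t 954 2 3, .f
  825 3 5, .t 960 2 3] 121 120 [3] [(120, 104, [1]), (121, 120, [3])]))) .no (.red [.t 1081 3 1,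
  .f 1073 5 3, .f 1074 3 5, .t 962 1 4] 136 136 [] [(136, 136, []), (152, 136, [1])])) .no) .no
  (.use 50) (.use 79) (.red [.t 953 4 2] 119 120 [4] [(119, 120, [4])])) .no) (.br 970 (.con 137
  [3]) (.red [.t 954 2 3, .f 825 3 5, .t 969 4 2] 121 120 [3] [(120, 104, [1]), (121, 120, [3])])
  (.use 103) .no (.br 1217 (.use 94) .no (.use 104) (.con 152 [1]) (.use 105) .no) .no) .no)

def f28l2 : List Tr4 :=
  [f28t76, f28t77, f28t78, f28t79, f28t80, f28t81, f28t82, f28t83, f28t84, f28t85, f28t86, f28t87,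
  f28t88, f28t89, f28t90, f28t91, f28t92, f28t93, f28t94, f28t95, f28t96, f28t97, f28t98, f28t99,
  f28t100, f28t101, f28t102, f28t103, f28t104, f28t105, f28t106]

theorem f28k2 : chkLF ⟨4, 1, 0, false, -4⟩ false 8 f28N 76 f28l2 = true := by decide +kernel

def f28t107 : Tr4 :=
  .br 939 (.con 135 [4, 2]) (.con 135 [4, 2]) (.hor [.f 938 3 5] []) (.con 135 [4, 2]) .no .no

def f28t108 : Tr4 :=
  .br 944 (.use 107) (.red [.t 944 2 3, .f 825 1 5] 119 120 [4] [(119, 120, [4])]) .no (.use 80)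
  .no .no

def f28t109 : Tr4 :=
  .br 819 .no (.red [.f 691 1 3] 103 104 [4] [(103, 104, [4])]) .no (.br 944 (.br 818 .no (.br 816
  .no (.con 104 [4, 4]) .no (.br 817 .no (.hor [.f 689 1 5] []) .no (.con 104 [4, 4]) .no .no)
  (.con 104 [4, 4]) .no) .no (.hor [.f 810 3 5] []) .no (.red [.f 944 1 3, .t 953 4 2] 119 120 [4]
  [(119, 120, [4]), (135, 119, [1])])) (.red [.t 944 2 3, .f 825 1 5] 119 118 [3] [(119, 118,
  [3])]) .no (.use 85) .no .no) .no (.red [.f 818 5 1, .f 818 1 3] 119 120 [4] [(119, 120, [4])])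

def f28t110 : Tr4 :=
  .br 827 .no (.use 109) (.red [.f 827 3 1, .f 826 1 5, .f 946 5 3, .f 945 3 5, .t 1089 4 2, .t
  962 4 2] 136 136 [] [(136, 136, [])]) (.red [.t 826 1 4, .f 945 3 5] 119 103 [1] [(119, 103,
  [1])]) .no .no

def f28t111 : Tr4 :=
  .br 946 (.br 1072 (.use 96) (.con 135 [4]) .no (.use 4) (.use 44) .no) (.red [.f 818 1 3] 119
  120 [4] [(119, 120, [4])]) .no (.use 108) (.use 110) .no

def f28t112 : Tr4 :=
  .br 1097 .no .no (.br 1096 (.red [.f 1088 1 3] 153 137 [1] [(153, 137, [1])]) .no (.hor [.f 1096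
  3 5] []) .no .no .no) .no (.red [.t 961 3 1, .t 825 3 1, .f 832 1 5, .t 1080 2 3, .f 961 1 3, .f
  1089 3 1] 153 137 [1] [(120, 104, [1]), (136, 136, []), (153, 137, [1])]) (.red [.t 1216 2 3]
  153 137 [1] [(153, 137, [1])])

def f28t113 : Tr4 :=
  .br 1217 (.use 94) .no (.use 112) (.con 152 [1]) (.use 105) .no

def f28t114 : Tr4 :=
  .br 1073 (.use 47) .no .no (.hor [.f 1065 3 5] []) .no (.br 818 .no (.br 841 .no (.use 70) (.use
  91) .no (.red [.t 954 2 3, .f 825 3 5, .f 833 5 3, .f 833 3 1] 121 120 [3] [(120, 104, [1]),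
  (121, 120, [3])]) (.red [.t 954 2 3, .f 825 3 5, .t 960 2 3] 121 120 [3] [(120, 104, [1]), (121,
  120, [3])])) .no (.use 50) (.use 92) (.red [.t 953 4 2] 119 120 [4] [(119, 120, [4])]))

def f28t115 : Tr4 :=
  .br 968 (.br 1211 (.br 1074 (.red [.f 1074 1 3, .f 1074 3 5] 151 135 [1] [(151, 135, [1])])
  (.use 46) .no (.br 946 .no (.red [.f 818 1 3] 119 120 [4] [(119, 120, [4])]) .no (.br 825 .no
  (.use 49) (.br 835 .no (.use 0) (.use 53) (.con 120 [2]) .no (.br 1073 (.use 47) .no .no (.hor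
  [.f 1065 3 5] []) .no (.br 970 (.con 137 [3]) (.red [.t 954 2 3, .f 825 3 5, .t 969 4 2] 121 120
  [3] [(120, 104, [1]), (121, 120, [3])]) (.br 818 .no (.use 66) .no (.use 50) (.use 78) (.red [.t
  953 4 2] 119 120 [4] [(119, 120, [4])])) .no (.br 818 .no (.use 72) .no (.use 50) (.use 79)
  (.red [.t 953 4 2] 119 120 [4] [(119, 120, [4])])) .no))) (.red [.f 817 3 1, .f 825 1 5] 119 120
  [4] [(119, 120, [4])]) .no (.use 81)) (.use 86) .no) .no (.use 88)) .no (.br 825 .no (.use 98)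
  (.use 106) (.red [.f 817 3 1, .f 825 1 5] 119 120 [4] [(119, 120, [4])]) .no (.use 111)) (.red
  [.f 1075 3 1, .f 1082 1 5] 151 135 [1] [(151, 135, [1])]) .no .no) (.red [.f 832 1 3] 121 120
  [3] [(121, 120, [3])]) (.br 1211 (.use 93) .no (.br 825 .no (.use 98) (.br 835 .no (.use 0) (.br
  946 (.use 100) (.red [.f 818 1 3] 119 120 [4] [(119, 120, [4])]) .no (.use 53) (.use 113) .no)
  (.con 120 [2]) .no (.br 946 (.red [.t 954 2 3, .t 1074 2 3, .f 945 3 5, .t 1089 4 2, .f 826 3 1]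
  136 136 [] [(135, 119, [1]), (136, 136, [])]) (.red [.f 818 1 3] 119 120 [4] [(119, 120, [4])])
  .no (.br 1217 (.use 94) .no (.use 112) (.con 152 [1]) (.br 1074 (.red [.f 1074 1 3, .f 1074 3 5]
  151 135 [1] [(151, 135, [1])]) .no .no (.use 114) .no (.red [.t 1081 3 1, .f 1073 5 3, .f 1074 3
  5, .t 962 1 4] 136 136 [] [(136, 136, []), (152, 136, [1])])) .no) (.use 113) .no)) (.red [.f
  817 3 1, .f 825 1 5] 119 120 [4] [(119, 120, [4])]) .no (.use 111)) (.red [.f 1075 3 1, .f 1082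
  1 5] 151 135 [1] [(151, 135, [1])]) .no .no) .no .no .no

def f28t116 : Tr4 :=
  .br 842 (.red [.t 969 4 2, .f 832 1 5] 121 105 [1] [(121, 105, [1])]) (.br 841 .no (.hor [.f 713
  1 5] []) (.use 89) .no .no (.red [.t 960 2 3, .t 1080 2 3, .f 961 1 5] 121 105 [1] [(121, 105,
  [1]), (136, 136, [])])) (.br 841 .no (.use 90) (.hor [.f 841 3 5] []) .no .no (.red [.t 960 2 3,
  .t 1080 2 3, .f 961 1 5] 121 105 [1] [(121, 105, [1]), (136, 136, [])])) .no .no (.red [.f 833 5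
  3, .f 833 3 1] 121 105 [1] [(121, 105, [1])])

def f28t117 : Tr4 :=
  .br 946 (.br 835 .no (.use 5) (.br 833 .no (.use 95) (.red [.f 833 3 1, .f 832 1 5] 121 105 [1]
  [(121, 105, [1])]) .no (.use 116) .no) (.red [.f 827 3 1, .f 826 1 5, .t 1074 2 3, .f 945 3 5,
  .t 1089 4 2, .t 962 4 2] 136 136 [] [(135, 119, [1]), (136, 136, [])]) .no (.red [.t 954 2 3, .t
  1074 2 3, .f 945 3 5, .t 1089 4 2, .f 826 3 1] 136 136 [] [(135, 119, [1]), (136, 136, [])]))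
  (.red [.f 818 1 3] 119 120 [4] [(119, 120, [4])]) .no (.use 49) (.use 97) .no

def f28t118 : Tr4 :=
  .br 698 .no (.hor [.f 569 1 5] []) .no (.red [.f 569 1 3] 88 87 [3] [(88, 87, [3])]) (.red [.f
  569 1 3] 88 87 [3] [(88, 87, [3])]) .no

def f28t119 : Tr4 :=
  .br 1201 (.hor [.f 1201 1 5] []) .no .no (.con 150 [1]) .no .no

def f28t120 : Tr4 :=
  .br 947 .no (.red [.f 811 1 3, .f 810 3 5] 118 120 [4, 4] [(118, 120, [4, 4])]) .no .no .no .no

def f28t121 : Tr4 :=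
  .br 936 (.br 939 (.red [.f 930 3 1, .f 938 1 3] 134 135 [4] [(133, 149, [2]), (134, 135, [4])])
  (.use 120) (.br 816 (.use 30) (.con 120 [4, 4, 1]) .no (.con 120 [4, 4, 1]) (.con 120 [4, 4, 1])
  .no) (.hor [.f 930 3 5] []) .no .no) (.red [.f 930 3 1, .f 938 1 3] 134 135 [4] [(133, 135, [4,
  4]), (134, 135, [4])]) (.red [.f 930 3 1, .f 938 1 3] 134 135 [4] [(133, 135, [4, 4]), (134,
  135, [4])]) (.red [.f 930 3 1, .f 938 1 3] 134 135 [4] [(133, 135, [4, 4]), (134, 135, [4])])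
  (.red [.f 930 3 1, .f 938 1 3] 134 135 [4] [(133, 135, [4, 4]), (134, 135, [4])]) .no

def f28t122 : Tr4 :=
  .br 939 .no (.use 120) (.red [.t 946 1 4, .f 1065 3 5] 134 135 [4] [(134, 135, [4])]) (.hor [.f
  930 3 5] []) .no .no

def f28t123 : Tr4 :=
  .br 947 .no (.red [.t 818 4 1] 118 120 [4, 4] [(118, 120, [4, 4])]) .no .no .no .no

def f28t124 : Tr4 :=
  .br 944 .no .no .no (.red [.f 808 3 1] 118 135 [2, 4] [(118, 135, [2, 4])]) .no .no

def f28t125 : Tr4 :=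
  .br 818 .no (.use 59) .no (.br 938 (.red [.f 938 1 3] 134 135 [4] [(134, 135, [4])]) .no .no
  (.br 1202 (.use 119) .no .no (.hor [.f 1194 3 5] []) .no (.br 1066 (.red [.t 1065 3 1, .f 1194 3
  5, .t 1082 1 4] 151 135 [1] [(150, 134, [1]), (151, 135, [1])]) .no .no (.use 121) (.use 122)
  .no)) (.use 123) (.red [.t 1073 4 2] 134 135 [4] [(134, 135, [4])])) (.br 1202 (.use 119) .no
  .no (.hor [.f 1194 3 5] []) .no (.br 1066 (.red [.t 1065 3 1, .f 1194 3 5, .t 1082 1 4] 151 135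
  [1] [(150, 134, [1]), (151, 135, [1])]) (.red [.f 938 1 3] 134 135 [4] [(134, 135, [4])]) .no
  (.br 816 (.br 939 (.con 135 [4, 2, 3]) (.con 135 [4, 2, 3]) (.use 30) (.con 135 [4, 2, 3]) .no
  (.con 135 [4, 2, 3])) (.con 120 [4, 2, 4]) .no (.use 124) (.use 32) .no) (.br 947 .no .no .no
  (.red [.t 946 1 4, .f 1065 3 5] 134 135 [4] [(134, 135, [4])]) .no .no) .no)) (.red [.t 953 4 2]
  119 120 [4] [(119, 120, [4])])

def f28t126 : Tr4 :=
  .br 689 (.hor [.f 688 1 5] []) (.con 103 [4]) .no (.con 103 [4]) .no .no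

def f28t127 : Tr4 :=
  .br 698 .no (.hor [.f 569 1 5] []) .no (.br 818 .no .no .no .no (.use 29) (.red [.t 953 4 2] 119
  120 [4] [(119, 120, [4])])) (.br 818 .no (.br 819 (.con 120 [4, 2, 3]) (.con 120 [4, 2, 3]) (.br
  816 (.dom 119 103 [1]) (.use 126) .no (.use 124) (.br 939 (.br 937 .no (.hor [.f 809 1 5] [])
  .no (.con 103 [4, 1, 4]) .no (.con 150 [2, 4])) (.hor [.f 810 1 5] []) (.use 9) (.br 937 .no
  (.hor [.f 809 1 5] []) .no (.con 103 [4, 1, 4]) .no (.con 103 [4, 1, 4])) .no .no) .no) (.con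
  120 [4, 2, 3]) .no .no) .no .no (.con 120 [4, 2, 3]) (.red [.t 953 4 2] 119 120 [4] [(119, 120,
  [4])])) .no

def f28t128 : Tr4 :=
  .br 937 .no (.br 939 (.red [.f 930 3 1, .f 938 1 3] 134 135 [4] [(133, 117, [1]), (134, 135,
  [4])]) (.red [.f 930 3 1, .f 938 1 3] 134 135 [4] [(133, 117, [1]), (134, 135, [4])]) (.red [.f
  930 3 1, .f 938 1 3] 134 135 [4] [(133, 117, [1]), (134, 135, [4])]) (.hor [.f 930 3 5] []) .no
  .no) .no (.hor [.f 929 3 5] []) .no (.red [.f 930 3 1, .f 938 1 3] 134 135 [4] [(133, 135, [4,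
  4]), (134, 135, [4])])

def f28t129 : Tr4 :=
  .br 947 .no (.red [.f 811 1 3] 118 135 [2, 4] [(118, 135, [2, 4])]) .no .no .no .no

def f28t130 : Tr4 :=
  .br 939 .no (.use 129) (.red [.t 946 1 4, .f 1065 3 5] 134 135 [4] [(134, 135, [4])]) (.hor [.f
  930 3 5] []) .no .no

def f28t131 : Tr4 :=
  .br 1202 (.use 119) .no .no (.hor [.f 1194 3 5] []) .no (.br 1066 (.red [.t 1065 3 1, .f 1194 3
  5, .t 1082 1 4] 151 135 [1] [(150, 134, [1]), (151, 135, [1])]) .no .no (.use 128) (.use 130)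
  .no)

def f28t132 : Tr4 :=
  .br 698 .no (.hor [.f 569 1 5] []) .no (.use 29) (.con 120 [4, 2, 3]) .no

def f28t133 : Tr4 :=
  .br 818 .no (.br 819 (.use 25) (.use 20) (.br 816 (.con 135 [4, 2, 3]) (.use 126) .no (.use 124)
  (.br 944 .no .no .no (.con 135 [4, 2]) .no .no) .no) (.use 101) .no .no) .no (.use 123) (.use
  132) (.red [.t 953 4 2] 119 120 [4] [(119, 120, [4])])

def f28t134 : Tr4 :=
  .br 1209 (.con 168 [4]) .no .no (.hor [.f 1200 3 5] []) .no .no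

def f28t135 : Tr4 :=
  .br 937 (.con 135 [4, 4]) (.use 15) .no (.hor [.f 929 3 5] []) .no .no

def f28t136 : Tr4 :=
  .br 944 .no .no .no (.use 135) .no .no

def f28t137 : Tr4 :=
  .br 938 (.red [.f 938 1 3, .f 810 3 1] 118 120 [4, 4] [(118, 120, [4, 4]), (134, 135, [4])]) .no
  .no (.use 136) (.use 123) (.red [.t 952 1 4, .f 945 1 5, .f 937 5 3, .f 810 3 1, .f 818 1 3] 119
  120 [4] [(118, 120, [4, 4]), (119, 120, [4]), (135, 119, [1])])

def f28t138 : Tr4 :=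
  .br 816 (.use 31) (.use 37) .no (.use 27) (.br 818 .no (.use 59) .no (.use 137) (.use 32) .no)
  .no

def f28t139 : Tr4 :=
  .br 697 .no (.use 118) .no (.use 138) (.red [.t 833 4 2, .f 696 1 5] 104 105 [4] [(104, 105,
  [4])]) .no

def f28t140 : Tr4 :=
  .br 939 (.br 937 (.con 135 [4, 4]) (.use 15) .no (.con 103 [4, 1, 4]) .no (.con 135 [4, 4]))
  (.use 129) (.use 9) (.br 937 (.con 103 [4, 1, 4]) (.use 15) .no (.con 103 [4, 1, 4]) .no (.con
  103 [4, 1, 4])) .no .no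

def f28t141 : Tr4 :=
  .br 944 .no .no .no (.con 135 [4, 2]) .no .no

def f28t142 : Tr4 :=
  .br 947 .no .no .no (.red [.t 946 1 4, .t 826 1 4, .f 945 3 5] 119 120 [4] [(119, 120, [4]),
  (134, 135, [4])]) .no .no

def f28t143 : Tr4 :=
  .br 1065 (.br 1200 (.br 1201 (.hor [.f 1200 1 5] []) .no .no .no (.con 135 [4, 1, 1]) .no) .no
  .no (.red [.t 1192 3 2] 150 135 [4, 1] [(150, 135, [4, 1])]) (.red [.f 1072 5 1, .f 1065 1 3]
  150 135 [4, 1] [(150, 135, [4, 1])]) .no) .no .no (.br 1066 (.con 135 [4, 1, 4]) .no .no (.hor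
  [.f 1057 3 5] []) (.use 142) .no) (.red [.f 937 5 1, .f 938 1 3] 134 135 [4] [(134, 135, [4])])
  (.red [.f 1064 5 3, .t 1073 4 2] 134 135 [4] [(134, 135, [4])])

def f28l3 : List Tr4 :=
  [f28t107, f28t108, f28t109, f28t110, f28t111, f28t112, f28t113, f28t114, f28t115, f28t116,
  f28t117, f28t118, f28t119, f28t120, f28t121, f28t122, f28t123, f28t124, f28t125, f28t126,
  f28t127, f28t128, f28t129, f28t130, f28t131, f28t132, f28t133, f28t134, f28t135, f28t136,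
  f28t137, f28t138, f28t139, f28t140, f28t141, f28t142, f28t143]

theorem f28k3 : chkLF ⟨4, 1, 0, false, -4⟩ false 8 f28N 107 f28l3 = true := by decide +kernel

def f28t144 : Tr4 :=
  .br 824 .no (.br 705 .no (.use 139) (.br 697 .no (.br 818 .no (.br 819 (.use 25) (.use 20) (.br
  816 (.dom 119 103 [1]) (.use 126) .no (.use 27) (.br 938 (.red [.f 938 1 3] 134 135 [4] [(134,
  135, [4])]) (.use 140) .no (.use 136) (.use 141) (.use 143)) .no) (.use 101) .no .no) .no (.br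
  819 (.use 26) (.use 20) (.br 938 (.red [.f 938 1 3] 134 135 [4] [(134, 135, [4])]) .no .no (.br
  816 (.dom 119 103 [1]) (.br 939 (.br 937 (.con 135 [4, 4]) (.red [.t 952 1 4, .f 945 1 5, .t 809
  1 3, .f 818 1 3] 119 103 [1] [(118, 102, [1]), (119, 103, [1]), (135, 119, [1])]) .no (.hor [.f
  929 3 5] []) .no (.con 135 [4, 4])) (.use 120) (.use 36) (.hor [.f 930 3 5] []) .no .no) .no
  (.use 27) (.use 136) .no) (.use 123) (.use 143)) (.hor [.f 810 3 5] []) .no .no) (.use 132)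
  (.red [.t 953 4 2] 119 120 [4] [(119, 120, [4])])) .no (.use 138) (.red [.t 833 4 2, .f 696 1 5]
  104 105 [4] [(104, 105, [4])]) .no) (.red [.f 697 3 1, .f 696 1 5] 104 88 [1] [(104, 88, [1])])
  .no (.red [.t 824 2 3, .f 705 1 5] 104 105 [4] [(104, 105, [4])])) .no (.use 35) .no .no

def f28t145 : Tr4 :=
  .br 1201 (.con 135 [1, 1]) .no (.hor [.f 1200 3 5] []) (.con 135 [1, 1]) (.con 135 [1, 1]) .no

def f28t146 : Tr4 :=
  .br 1209 (.hor [.f 1208 1 5] []) .no .no (.use 42) .no .no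

def f28t147 : Tr4 :=
  .br 1072 (.br 1209 (.br 1208 (.hor [.f 1208 1 5] []) .no (.con 168 [4]) .no .no .no) .no (.red
  [.f 1081 3 1, .f 1081 1 5, .t 945 3 1, .f 1074 3 5, .t 962 1 4] 136 136 [] [(135, 119, [1]),
  (136, 136, []), (152, 136, [1])]) (.dom 151 135 [1]) .no (.br 1203 (.red [.f 1203 1 3] 167 168
  [4] [(167, 168, [4])]) .no .no (.br 1073 (.hor [.f 1072 1 5] []) .no .no (.br 824 .no (.br 705
  .no (.br 697 .no (.use 118) .no (.use 125) (.red [.t 833 4 2, .f 696 1 5] 104 105 [4] [(104,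
  105, [4])]) .no) (.br 697 .no (.br 938 (.red [.f 938 1 3] 134 135 [4] [(134, 135, [4])]) (.use
  127) .no (.use 131) (.use 133) (.red [.t 1073 4 2] 134 135 [4] [(134, 135, [4])])) .no (.use
  125) (.red [.t 833 4 2, .f 696 1 5] 104 105 [4] [(104, 105, [4])]) .no) (.red [.f 697 3 1, .f
  696 1 5] 104 88 [1] [(104, 88, [1])]) .no (.red [.t 824 2 3, .f 705 1 5] 104 105 [4] [(104, 105,
  [4])])) .no (.br 818 .no (.use 34) .no (.br 938 (.red [.f 938 1 3, .f 810 3 1] 118 120 [4, 4]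
  [(118, 120, [4, 4]), (134, 135, [4])]) .no .no (.use 131) (.use 123) (.red [.t 1073 4 2, .f 810
  3 1] 118 120 [4, 4] [(118, 120, [4, 4]), (134, 135, [4])])) (.con 120 [4, 2]) (.red [.t 953 4 2]
  119 120 [4] [(119, 120, [4])])) .no .no) .no .no) .no (.red [.t 1082 1 4, .t 962 1 4, .f 1081 3
  5] 136 136 [] [(136, 136, []), (151, 135, [1])]))) (.con 135 [4]) .no (.use 4) (.br 1203 (.br
  1209 (.red [.f 1203 1 3] 167 168 [4] [(167, 168, [4])]) .no (.red [.f 1203 1 3] 167 135 [1, 1]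
  [(167, 135, [1, 1])]) (.br 1208 (.use 42) .no (.con 168 [2, 2]) (.red [.f 1203 1 3] 167 168 [4]
  [(167, 168, [4])]) .no .no) .no (.red [.f 1203 1 3] 167 168 [4] [(167, 168, [4])])) .no .no (.br
  1217 (.br 1218 (.hor [.f 1217 1 5] []) .no (.br 1219 (.br 1208 (.br 1216 (.hor [.f 1216 1 5] [])
  .no (.con 153 [1]) .no .no .no) .no (.con 168 [3]) (.use 134) (.br 1216 (.hor [.f 1216 1 5] [])
  .no (.con 153 [1]) .no .no .no) .no) .no (.hor [.f 1218 3 5] []) .no .no .no) .no (.br 1208 (.br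
  1209 (.hor [.f 1208 1 5] []) .no .no (.use 42) .no .no) .no (.con 168 [2, 2]) (.use 134) (.use
  144) .no) .no) .no (.br 1208 (.br 1216 (.br 1218 (.con 169 [2, 2, 4]) .no (.hor [.f 1217 3 5]
  []) .no (.con 169 [2, 2, 4]) .no) .no (.hor [.f 1216 3 5] []) .no .no .no) .no (.con 168 [2, 2])
  (.use 145) (.use 144) .no) (.red [.f 1081 3 1, .f 1081 1 5, .t 945 3 1, .f 1074 3 5, .t 962 1 4]
  136 136 [] [(135, 119, [1]), (136, 136, []), (152, 136, [1])]) (.red [.t 1081 3 1, .t 945 3 1,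
  .f 1074 3 5, .t 962 1 4] 136 136 [] [(135, 119, [1]), (136, 136, []), (152, 136, [1])]) (.br
  1208 (.use 146) .no .no (.use 145) (.use 144) .no)) .no (.red [.t 1082 1 4, .t 962 1 4, .f 1081
  3 5] 136 136 [] [(136, 136, []), (151, 135, [1])])) .no

def f28t148 : Tr4 :=
  .br 1209 (.br 1208 (.hor [.f 1208 1 5] []) .no (.con 168 [4]) (.con 168 [4]) .no .no) .no (.red
  [.f 1081 3 1, .f 1081 1 5, .f 1073 5 3, .f 1074 3 5, .t 962 1 4] 136 136 [] [(136, 136, []),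
  (152, 136, [1])]) (.red [.t 1209 4 2, .f 1074 3 5] 151 135 [1] [(151, 135, [1])]) .no (.use 87)

def f28t149 : Tr4 :=
  .br 1074 (.red [.f 1074 1 3, .f 1074 3 5] 151 135 [1] [(151, 135, [1])]) .no .no (.use 86) .no
  (.use 148)

def f28t150 : Tr4 :=
  .br 946 (.br 1072 (.br 835 .no (.br 816 (.use 1) (.use 7) .no (.use 124) (.red [.f 816 5 3, .f
  817 3 1] 119 120 [4] [(119, 120, [4])]) .no) (.br 833 .no (.use 95) (.red [.f 833 3 1, .f 832 1
  5] 121 105 [1] [(121, 105, [1])]) .no (.use 116) .no) (.red [.f 827 3 1, .f 826 1 5, .t 1074 2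
  3, .f 945 3 5, .t 1089 4 2, .t 962 4 2] 136 136 [] [(135, 119, [1]), (136, 136, [])]) .no (.red
  [.t 954 2 3, .t 1074 2 3, .f 945 3 5, .t 1089 4 2, .f 826 3 1] 136 136 [] [(135, 119, [1]),
  (136, 136, [])])) (.con 135 [4]) .no (.use 4) (.use 44) .no) (.red [.f 818 1 3] 119 120 [4]
  [(119, 120, [4])]) .no (.use 108) (.use 110) .no

def f28t151 : Tr4 :=
  .br 1216 (.con 169 [2, 2, 4]) .no (.hor [.f 1216 3 5] []) (.con 169 [2, 2, 4]) .no .no

def f28t152 : Tr4 :=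
  .br 1208 (.br 1209 (.hor [.f 1208 1 5] []) .no .no (.dom 151 135 [1]) .no .no) .no .no .no (.red
  [.f 1208 5 3, .f 1081 3 1, .f 1081 1 5, .t 945 3 1, .f 1074 3 5, .t 962 1 4] 136 136 [] [(135,
  119, [1]), (136, 136, []), (152, 136, [1])]) .no

def f28t153 : Tr4 :=
  .br 699 (.con 105 [4, 2, 4]) (.hor [.f 570 1 5] []) (.use 24) (.con 103 [2]) .no .no

def f28t154 : Tr4 :=
  .br 1059 (.br 1057 (.con 150 [4, 4]) (.red [.t 1065 3 1, .t 929 1 3, .f 938 1 3] 134 135 [4]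
  [(133, 117, [1]), (134, 135, [4]), (150, 134, [1])]) .no (.hor [.f 1049 3 5] []) .no (.con 150
  [4, 4])) (.red [.f 931 1 3, .f 930 3 5] 133 135 [4, 4] [(133, 135, [4, 4])]) .no (.hor [.f 1050
  3 5] []) .no .no

def f28t155 : Tr4 :=
  .br 937 .no (.con 103 [4, 1]) .no (.br 809 .no (.con 103 [4, 1]) (.use 22) (.con 103 [4, 1]) .no
  (.con 103 [4, 1])) .no .no

def f28t156 : Tr4 :=
  .br 936 (.con 120 [4, 4, 1]) (.con 120 [4, 4, 1]) (.br 937 .no (.red [.t 936 3 2, .f 809 3 5]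
  118 117 [3] [(118, 117, [3])]) .no (.hor [.f 929 3 5] []) .no .no) (.con 120 [4, 4, 1]) (.con
  120 [4, 4, 1]) .no

def f28t157 : Tr4 :=
  .br 938 (.red [.f 938 1 3] 134 135 [4] [(134, 135, [4])]) .no .no (.br 1066 (.br 939 (.br 1058
  (.red [.f 1058 1 3, .f 930 3 1] 133 135 [4, 4] [(133, 135, [4, 4]), (149, 150, [4])]) .no .no
  (.br 936 (.br 698 .no (.use 153) .no (.hor [.f 689 3 5] []) (.br 690 .no (.br 937 .no (.br 819
  (.con 120 [4, 2, 2]) (.con 120 [4, 2, 2]) (.br 816 (.con 102 [1, 3]) (.con 103 [4, 1]) .no (.con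
  102 [1]) (.use 154) .no) (.con 120 [4, 2, 2]) .no .no) .no (.hor [.f 929 3 5] []) .no .no) .no
  (.br 819 (.con 120 [4, 2, 2]) (.con 120 [4, 2, 2]) (.br 816 (.con 135 [4, 2, 3]) (.br 937 .no
  (.con 103 [4, 1]) .no (.hor [.f 929 3 5] []) .no .no) .no (.use 124) (.use 154) .no) (.con 120
  [4, 2, 2]) .no .no) (.red [.f 690 5 3, .f 689 3 5, .t 833 4 2] 104 103 [3] [(104, 103, [3])])
  .no) .no) (.con 135 [4, 4]) (.con 135 [4, 2]) (.con 135 [4, 4]) (.con 135 [4, 4]) .no) (.red [.t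
  938 4 1] 133 135 [4, 4] [(133, 135, [4, 4])]) (.red [.t 1065 3 1, .f 1057 5 3, .f 930 3 1, .f
  938 1 3] 134 135 [4] [(133, 135, [4, 4]), (134, 135, [4]), (150, 134, [1])])) (.use 120) (.br
  816 (.use 30) (.br 936 (.con 120 [4, 4, 1]) (.con 120 [4, 4, 1]) (.br 819 .no (.use 20) (.br 698
  .no (.use 153) .no (.hor [.f 689 3 5] []) (.use 155) .no) (.con 120 [4, 2, 4]) .no .no) (.con
  120 [4, 4, 1]) (.con 120 [4, 4, 1]) .no) .no (.use 124) (.use 156) .no) (.hor [.f 930 3 5] [])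
  .no .no) .no .no (.use 121) (.use 122) .no) (.use 123) (.red [.t 1073 4 2] 134 135 [4] [(134,
  135, [4])])

def f28t158 : Tr4 :=
  .br 816 (.br 939 (.con 135 [4, 2, 3]) (.con 135 [4, 2, 3]) (.use 30) (.con 135 [4, 2, 3]) .no
  (.con 135 [4, 2, 3])) (.con 120 [4, 2, 4]) .no (.use 124) (.use 32) .no

def f28t159 : Tr4 :=
  .br 1058 (.red [.f 1058 1 3, .f 930 3 1] 133 135 [4, 4] [(133, 135, [4, 4]), (149, 150, [4])])
  .no .no (.br 936 (.br 937 .no (.br 1059 (.br 1057 (.con 150 [4, 4]) (.red [.t 1065 3 1, .t 929 1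
  3, .f 938 1 3] 134 135 [4] [(133, 117, [1]), (134, 135, [4]), (150, 134, [1])]) .no (.hor [.f
  1049 3 5] []) .no (.con 150 [4, 4])) (.red [.f 931 1 3, .f 930 3 5] 133 117 [1] [(133, 117,
  [1])]) .no (.hor [.f 1050 3 5] []) .no .no) .no (.hor [.f 929 3 5] []) .no .no) (.con 135 [4,
  4]) (.con 135 [4, 2]) (.con 135 [4, 4]) (.con 135 [4, 4]) .no) (.red [.t 938 4 1] 133 135 [4, 4]
  [(133, 135, [4, 4])]) (.red [.t 1065 3 1, .f 1057 5 3, .f 930 3 1, .f 938 1 3] 134 135 [4]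
  [(133, 135, [4, 4]), (134, 135, [4]), (150, 134, [1])])

def f28l4 : List Tr4 :=
  [f28t144, f28t145, f28t146, f28t147, f28t148, f28t149, f28t150, f28t151, f28t152, f28t153,
  f28t154, f28t155, f28t156, f28t157, f28t158, f28t159]

theorem f28k4 : chkLF ⟨4, 1, 0, false, -4⟩ false 8 f28N 144 f28l4 = true := by decide +kernel

def f28t160 : Tr4 :=
  .br 697 .no (.br 938 (.red [.f 938 1 3] 134 135 [4] [(134, 135, [4])]) (.use 127) .no (.br 1066
  (.br 939 (.use 159) (.use 129) (.br 818 .no (.br 819 .no (.use 20) (.br 816 (.dom 119 103 [1])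
  (.use 126) .no (.use 124) (.br 936 (.con 103 [4, 1, 1]) (.con 103 [4, 1, 1]) (.br 937 .no (.red
  [.t 936 3 2] 118 117 [3] [(118, 117, [3])]) .no (.hor [.f 929 3 5] []) .no .no) (.con 103 [4, 1,
  1]) (.con 103 [4, 1, 1]) .no) .no) (.use 101) .no .no) .no (.br 816 (.use 39) (.br 936 (.con 120
  [4, 4, 1]) (.con 120 [4, 4, 1]) (.br 819 .no (.use 20) (.br 689 (.hor [.f 688 1 5] []) (.br 937
  .no (.con 103 [4, 1]) .no (.hor [.f 929 3 5] []) .no .no) .no (.br 809 (.con 103 [4, 1]) .no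
  (.use 6) (.con 103 [4, 1]) .no (.con 103 [4, 1])) (.br 937 .no (.con 103 [4, 1]) .no (.hor [.f
  929 3 5] []) .no .no) .no) (.hor [.f 810 3 5] []) .no .no) (.con 120 [4, 4, 1]) (.con 120 [4, 4,
  1]) .no) .no (.use 124) (.use 156) .no) (.use 132) (.red [.t 953 4 2] 119 120 [4] [(119, 120,
  [4])])) (.hor [.f 930 3 5] []) .no .no) .no .no (.use 128) (.use 130) .no) (.use 133) (.red [.t
  1073 4 2] 134 135 [4] [(134, 135, [4])])) .no (.br 818 .no (.use 59) .no (.br 938 (.red [.f 938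
  1 3] 134 135 [4] [(134, 135, [4])]) .no .no (.br 1066 (.br 939 (.use 159) (.use 120) (.br 816
  (.use 30) (.br 936 (.con 120 [4, 4, 1]) (.con 120 [4, 4, 1]) (.br 819 .no (.use 20) (.br 698 .no
  (.br 699 .no (.hor [.f 570 1 5] []) (.br 937 .no (.con 103 [4, 1]) .no (.br 809 .no (.con 103
  [4, 1]) (.use 22) (.con 103 [4, 1]) .no (.con 103 [4, 1])) .no .no) (.con 103 [2]) .no .no) .no
  (.hor [.f 689 3 5] []) (.use 155) .no) (.con 120 [4, 2, 4]) .no .no) (.con 120 [4, 4, 1]) (.con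
  120 [4, 4, 1]) .no) .no (.use 124) (.use 156) .no) (.hor [.f 930 3 5] []) .no .no) .no .no (.use
  121) (.use 122) .no) (.use 123) (.red [.t 1073 4 2] 134 135 [4] [(134, 135, [4])])) (.use 158)
  (.red [.t 953 4 2] 119 120 [4] [(119, 120, [4])])) (.red [.t 833 4 2, .f 696 1 5] 104 105 [4]
  [(104, 105, [4])]) .no

def f28t161 : Tr4 :=
  .br 1216 (.hor [.f 1216 1 5] []) .no (.con 153 [1]) (.br 1209 (.br 1073 (.hor [.f 1072 1 5] [])
  .no .no (.br 1201 (.red [.f 1201 1 3] 167 168 [4] [(167, 168, [4])]) .no .no (.br 1202 (.br 1203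
  (.hor [.f 1202 1 5] []) .no .no (.con 150 [1]) .no .no) .no .no (.hor [.f 1193 3 5] []) (.red
  [.t 1082 1 4, .t 962 1 4, .f 1081 3 5] 136 136 [] [(136, 136, []), (151, 135, [1])]) .no) (.br
  824 .no (.br 705 .no (.br 697 .no (.use 118) .no (.br 818 .no (.use 59) .no (.use 157) (.use
  158) (.red [.t 953 4 2] 119 120 [4] [(119, 120, [4])])) (.red [.t 833 4 2, .f 696 1 5] 104 105
  [4] [(104, 105, [4])]) .no) (.use 160) (.red [.f 697 3 1, .f 696 1 5] 104 88 [1] [(104, 88,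
  [1])]) .no (.red [.t 824 2 3, .f 705 1 5] 104 105 [4] [(104, 105, [4])])) .no (.br 818 .no (.use
  34) .no (.br 938 (.red [.f 938 1 3, .f 810 3 1] 118 120 [4, 4] [(118, 120, [4, 4]), (134, 135,
  [4])]) .no .no (.br 1066 (.br 939 (.use 159) (.use 120) (.br 819 .no (.con 120 [4, 2]) (.br 937
  .no (.br 936 (.con 102 [1, 1]) (.con 102 [1, 1]) (.br 1067 (.hor [.f 1066 1 5] []) .no .no (.br
  1058 (.red [.f 1058 1 3, .f 930 3 1] 133 117 [1] [(133, 117, [1]), (149, 150, [4])]) .no .no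
  (.br 1057 (.con 117 [1, 4, 1]) (.red [.t 1065 3 1, .t 929 1 3, .f 938 1 3] 134 135 [4] [(133,
  117, [1]), (134, 135, [4]), (150, 134, [1])]) .no (.hor [.f 1049 3 5] []) .no (.con 117 [1, 1]))
  .no (.red [.t 1065 3 1, .f 1057 5 3, .f 930 3 1, .f 938 1 3] 134 135 [4] [(133, 117, [1]), (134,
  135, [4]), (150, 134, [1])])) .no .no) (.con 117 [1]) .no .no) .no (.hor [.f 929 3 5] []) .no
  (.con 120 [4, 4, 1])) (.con 120 [4, 2]) .no .no) (.hor [.f 930 3 5] []) .no .no) .no .no (.use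
  128) (.use 122) .no) (.use 123) (.red [.t 1073 4 2, .f 810 3 1] 118 120 [4, 4] [(118, 120, [4,
  4]), (134, 135, [4])])) (.con 120 [4, 2]) (.red [.t 953 4 2] 119 120 [4] [(119, 120, [4])])) .no
  .no) .no) .no .no) .no .no (.dom 151 135 [1]) .no .no) .no .no

def f28t162 : Tr4 :=
  .br 1208 (.use 146) .no .no (.br 1209 (.con 135 [1, 1]) .no .no (.hor [.f 1200 3 5] []) .no .no)
  (.red [.f 1208 5 3, .f 1081 3 1, .f 1081 1 5, .t 945 3 1, .f 1074 3 5, .t 962 1 4] 136 136 []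
  [(135, 119, [1]), (136, 136, []), (152, 136, [1])]) .no

def f28t163 : Tr4 :=
  .br 1067 (.use 13) .no .no (.use 41) .no .no

def f28t164 : Tr4 :=
  .br 938 (.red [.f 938 1 3] 134 135 [4] [(134, 135, [4])]) .no .no (.br 939 (.br 937 (.con 135
  [4, 4]) (.red [.t 952 1 4, .f 945 1 5, .t 809 1 3, .f 818 1 3] 119 120 [4] [(118, 135, [4, 2]),
  (119, 120, [4]), (135, 119, [1])]) .no (.hor [.f 929 3 5] []) .no (.con 135 [4, 4])) (.use 120)
  (.br 816 (.use 39) (.use 36) .no (.use 27) (.use 136) .no) (.hor [.f 930 3 5] []) .no .no) (.use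
  123) (.br 816 (.br 939 (.red [.t 952 1 4, .f 945 1 5, .f 937 5 3, .f 810 3 1, .f 818 1 3] 119
  120 [4] [(118, 135, [4, 2]), (119, 120, [4]), (135, 119, [1])]) (.use 120) (.use 39) (.red [.t
  952 1 4, .f 945 1 5, .f 937 5 3, .f 810 3 1, .f 818 1 3] 119 120 [4] [(118, 135, [4, 2]), (119,
  120, [4]), (135, 119, [1])]) .no .no) (.red [.t 952 1 4, .f 945 1 5, .f 937 5 3, .f 810 3 1, .f
  818 1 3] 119 120 [4] [(118, 120, [4, 4]), (119, 120, [4]), (135, 119, [1])]) .no (.use 27) (.use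
  137) .no)

def f28t165 : Tr4 :=
  .br 1066 (.br 939 (.con 135 [4, 1, 4]) (.use 129) (.br 936 (.con 103 [4, 1, 1]) (.con 103 [4, 1,
  4]) (.br 1064 (.con 135 [4, 4, 1]) .no .no (.hor [.f 1056 3 5] []) .no .no) (.con 103 [4, 1, 1])
  .no .no) (.br 936 (.use 62) (.con 103 [4, 1, 4]) (.con 135 [4, 2]) (.br 1064 (.con 135 [4, 4,
  1]) .no .no (.red [.f 928 3 1] 133 135 [4, 4] [(133, 135, [4, 4])]) .no .no) .no .no) .no .no)
  .no .no (.hor [.f 1057 3 5] []) (.use 142) .no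

def f28t166 : Tr4 :=
  .br 816 (.dom 119 103 [1]) (.use 126) .no (.use 27) (.br 1202 (.br 1201 (.hor [.f 1201 1 5] [])
  .no .no (.br 938 (.red [.f 938 1 3] 134 135 [4] [(134, 135, [4])]) (.use 140) .no (.use 136)
  (.use 141) (.br 1065 .no .no .no (.use 165) (.red [.f 937 5 1, .f 938 1 3] 134 135 [4] [(134,
  135, [4])]) (.red [.f 1064 5 3, .t 1073 4 2] 134 135 [4] [(134, 135, [4])]))) .no (.br 944 .no
  .no .no (.br 938 (.red [.f 938 1 3] 134 135 [4] [(134, 135, [4])]) (.use 140) .no (.use 135)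
  (.con 135 [4, 2]) (.br 1065 (.red [.f 1072 5 1, .f 1065 1 3] 150 135 [4, 1] [(150, 135, [4,
  1])]) .no .no (.use 165) (.red [.f 937 5 1, .f 938 1 3] 134 135 [4] [(134, 135, [4])]) (.red [.f
  1064 5 3, .t 1073 4 2] 134 135 [4] [(134, 135, [4])]))) .no .no)) .no .no (.br 1201 (.red [.f
  1201 1 3] 167 168 [4] [(167, 168, [4])]) .no .no (.hor [.f 1193 3 5] []) .no (.br 1066 .no (.red
  [.f 938 1 3] 134 135 [4] [(134, 135, [4])]) .no (.br 938 .no (.use 140) .no (.use 136) (.use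
  141) (.br 1065 (.red [.f 1072 5 1, .f 1065 1 3] 150 135 [4, 1] [(150, 135, [4, 1])]) .no .no
  (.hor [.f 1057 3 5] []) .no (.red [.f 1064 5 3, .t 1073 4 2] 134 135 [4] [(134, 135, [4])])))
  (.use 142) (.red [.f 1072 5 1, .t 1201 2 4] 150 135 [4, 1] [(150, 135, [4, 1])]))) (.red [.t
  1082 1 4, .t 962 1 4, .f 1081 3 5] 136 136 [] [(136, 136, []), (151, 135, [1])]) (.br 944 .no
  .no .no (.br 938 (.red [.f 938 1 3] 134 135 [4] [(134, 135, [4])]) (.use 140) .no (.use 135)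
  (.con 135 [4, 2]) (.br 1065 (.br 1066 (.hor [.f 1065 1 5] []) .no .no (.br 939 (.con 135 [4, 2])
  (.con 135 [4, 2]) (.br 1200 (.use 163) .no .no (.red [.t 1192 3 2] 150 149 [3] [(150, 149,
  [3])]) .no .no) (.con 135 [4, 2]) .no .no) (.use 142) .no) .no .no (.use 165) (.red [.f 937 5 1,
  .f 938 1 3] 134 135 [4] [(134, 135, [4])]) (.red [.f 1064 5 3, .t 1073 4 2] 134 135 [4] [(134,
  135, [4])]))) .no .no)) .no

def f28t167 : Tr4 :=
  .br 1209 (.br 824 .no (.br 705 .no (.use 139) (.br 697 .no (.br 818 .no (.br 819 (.use 25) (.use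
  20) (.use 166) (.use 101) .no .no) .no (.use 164) (.use 132) (.red [.t 953 4 2] 119 120 [4]
  [(119, 120, [4])])) .no (.use 138) (.red [.t 833 4 2, .f 696 1 5] 104 105 [4] [(104, 105, [4])])
  .no) (.red [.f 697 3 1, .f 696 1 5] 104 88 [1] [(104, 88, [1])]) .no (.red [.t 824 2 3, .f 705 1
  5] 104 105 [4] [(104, 105, [4])])) .no (.use 35) .no .no) .no .no (.br 824 .no (.br 705 .no
  (.use 139) (.br 697 .no (.br 818 .no (.br 819 (.use 25) (.use 20) (.br 816 (.dom 119 103 [1])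
  (.use 126) .no (.use 27) (.br 944 .no .no .no (.br 938 (.red [.f 938 1 3] 134 135 [4] [(134,
  135, [4])]) (.use 140) .no (.use 135) (.con 135 [4, 2]) (.br 1065 (.br 1066 (.hor [.f 1065 1 5]
  []) .no .no (.br 1200 (.br 1202 (.br 939 (.con 135 [4, 2]) (.con 135 [4, 2]) (.use 163) (.con
  135 [4, 2]) .no .no) .no .no (.br 939 (.con 135 [4, 2]) (.con 135 [4, 2]) (.use 163) (.con 135
  [4, 2]) .no .no) (.red [.t 1082 1 4, .t 962 1 4, .f 1081 3 5] 136 136 [] [(136, 136, []), (151,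
  135, [1])]) .no) .no .no (.red [.t 1192 3 2] 150 149 [3] [(150, 149, [3])]) .no .no) (.use 142)
  .no) .no .no (.use 165) (.red [.f 937 5 1, .f 938 1 3] 134 135 [4] [(134, 135, [4])]) (.red [.f
  1064 5 3, .t 1073 4 2] 134 135 [4] [(134, 135, [4])]))) .no .no) .no) (.use 101) .no .no) .no
  (.use 164) (.use 132) (.red [.t 953 4 2] 119 120 [4] [(119, 120, [4])])) .no (.use 138) (.red
  [.t 833 4 2, .f 696 1 5] 104 105 [4] [(104, 105, [4])]) .no) (.red [.f 697 3 1, .f 696 1 5] 104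
  88 [1] [(104, 88, [1])]) .no (.red [.t 824 2 3, .f 705 1 5] 104 105 [4] [(104, 105, [4])])) .no
  (.use 35) .no .no) .no .no

def f28t168 : Tr4 :=
  .br 816 .no (.con 134 [2, 2]) (.con 134 [2, 2]) (.red [.f 808 3 1] 118 134 [2] [(118, 134,
  [2])]) (.con 134 [2, 2]) .no

def f28t169 : Tr4 :=
  .br 818 .no (.br 944 .no (.use 83) .no (.use 168) .no .no) .no (.hor [.f 810 3 5] []) .no (.red
  [.t 953 4 2] 119 120 [4] [(119, 120, [4])])

def f28t170 : Tr4 :=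
  .br 818 .no (.br 816 (.use 83) (.con 120 [4, 2, 4]) (.con 120 [4, 2]) (.br 944 .no .no .no (.use
  168) .no .no) (.con 120 [4, 2, 4]) .no) .no (.hor [.f 810 3 5] []) .no (.red [.t 953 4 2] 119
  120 [4] [(119, 120, [4])])

def f28l5 : List Tr4 :=
  [f28t160, f28t161, f28t162, f28t163, f28t164, f28t165, f28t166, f28t167, f28t168, f28t169,
  f28t170]

theorem f28k5 : chkLF ⟨4, 1, 0, false, -4⟩ false 8 f28N 160 f28l5 = true := by decide +kernel

def f28t171 : Tr4 :=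
  .br 946 (.br 834 .no (.br 1072 (.br 1218 (.br 1217 (.hor [.f 1217 1 5] []) .no (.use 151) (.red
  [.f 1081 3 1, .f 1081 1 5, .t 945 3 1, .f 1074 3 5, .t 962 1 4] 136 136 [] [(135, 119, [1]),
  (136, 136, []), (152, 136, [1])]) .no (.use 152)) .no (.br 1217 (.use 161) .no (.hor [.f 1217 3
  5] []) (.red [.f 1081 3 1, .f 1081 1 5, .t 945 3 1, .f 1074 3 5, .t 962 1 4] 136 136 [] [(135,
  119, [1]), (136, 136, []), (152, 136, [1])]) .no (.use 152)) .no .no (.red [.t 1081 3 1, .t 945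
  3 1, .f 1074 3 5, .t 962 1 4] 136 136 [] [(135, 119, [1]), (136, 136, []), (152, 136, [1])]))
  (.con 135 [4]) .no (.use 4) (.br 1218 (.br 1217 (.hor [.f 1217 1 5] []) .no (.use 151) (.red [.f
  1081 3 1, .f 1081 1 5, .t 945 3 1, .f 1074 3 5, .t 962 1 4] 136 136 [] [(135, 119, [1]), (136,
  136, []), (152, 136, [1])]) .no (.use 162)) .no (.br 1217 (.br 1216 (.hor [.f 1216 1 5] []) .no
  (.con 153 [1]) (.use 167) .no .no) .no (.hor [.f 1217 3 5] []) (.red [.f 1081 3 1, .f 1081 1 5,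
  .t 945 3 1, .f 1074 3 5, .t 962 1 4] 136 136 [] [(135, 119, [1]), (136, 136, []), (152, 136,
  [1])]) .no (.use 162)) .no .no (.red [.t 1081 3 1, .t 945 3 1, .f 1074 3 5, .t 962 1 4] 136 136
  [] [(135, 119, [1]), (136, 136, []), (152, 136, [1])])) .no) (.hor [.f 834 3 5] []) .no .no .no)
  (.red [.f 818 1 3] 119 120 [4] [(119, 120, [4])]) .no (.use 53) (.br 834 .no (.br 1074 (.red [.f
  1074 1 3, .f 1074 3 5] 151 135 [1] [(151, 135, [1])]) .no .no (.use 86) .no (.br 819 .no (.use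
  20) (.red [.t 826 1 4, .f 945 3 5] 119 120 [4] [(119, 120, [4])]) (.br 1072 (.use 170) (.br 824
  .no (.br 705 .no (.br 697 .no (.use 118) .no (.br 818 .no (.con 120 [4, 2, 2]) .no (.hor [.f 810
  3 5] []) .no (.red [.f 944 1 3, .t 953 4 2] 119 120 [4] [(119, 120, [4]), (135, 119, [1])]))
  (.red [.f 944 1 3, .t 833 4 2] 104 105 [4] [(104, 105, [4]), (135, 119, [1])]) .no) (.br 818 .no
  (.use 102) .no (.hor [.f 810 3 5] []) .no (.red [.f 944 1 3, .t 953 4 2] 119 120 [4] [(119, 120,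
  [4]), (135, 119, [1])])) (.red [.f 697 3 1, .f 696 1 5] 104 88 [1] [(104, 88, [1])]) .no (.red
  [.t 824 2 3, .f 705 1 5] 104 105 [4] [(104, 105, [4])])) .no (.con 120 [4, 2]) .no .no) .no
  (.use 169) .no .no) .no (.red [.f 818 5 1, .f 818 1 3] 119 120 [4] [(119, 120, [4])]))) (.hor
  [.f 834 3 5] []) .no .no .no) .no

def f28t172 : Tr4 :=
  .br 1211 (.br 825 .no (.use 117) (.br 835 .no (.use 0) (.br 834 .no (.br 946 (.use 147) (.red
  [.f 818 1 3] 119 120 [4] [(119, 120, [4])]) .no (.use 52) (.use 149) .no) (.hor [.f 834 3 5] [])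
  .no .no .no) (.con 120 [2]) .no (.br 946 (.red [.t 954 2 3, .t 1074 2 3, .f 945 3 5, .t 1089 4
  2, .f 826 3 1] 136 136 [] [(135, 119, [1]), (136, 136, [])]) (.red [.f 818 1 3] 119 120 [4]
  [(119, 120, [4])]) .no (.br 1074 (.red [.f 1074 1 3, .f 1074 3 5] 151 135 [1] [(151, 135, [1])])
  .no .no (.use 114) .no (.use 148)) (.use 149) .no)) (.red [.f 817 3 1, .f 825 1 5] 119 120 [4]
  [(119, 120, [4])]) .no (.use 150)) .no (.br 825 .no (.use 117) (.br 835 .no (.use 0) (.use 171)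
  (.con 120 [2]) .no (.br 946 (.red [.t 954 2 3, .t 1074 2 3, .f 945 3 5, .t 1089 4 2, .f 826 3 1]
  136 136 [] [(135, 119, [1]), (136, 136, [])]) (.red [.f 818 1 3] 119 120 [4] [(119, 120, [4])])
  .no (.br 841 .no (.br 842 (.red [.t 954 2 3, .f 825 3 5, .t 969 4 2] 121 120 [3] [(120, 104,
  [1]), (121, 120, [3])]) (.hor [.f 713 1 5] []) (.use 90) .no (.br 818 .no (.br 824 .no (.use 60)
  .no (.use 48) .no .no) .no (.use 50) (.br 944 (.use 107) (.br 939 (.con 134 [2, 3]) (.con 134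
  [2, 3]) (.hor [.f 938 3 5] []) (.con 134 [2, 3]) .no .no) .no (.use 80) .no .no) (.red [.t 953 4
  2] 119 120 [4] [(119, 120, [4])])) .no) (.use 91) .no (.red [.t 954 2 3, .f 825 3 5, .f 833 5 3,
  .f 833 3 1] 121 120 [3] [(120, 104, [1]), (121, 120, [3])]) (.red [.t 954 2 3, .f 825 3 5, .t
  960 2 3] 121 120 [3] [(120, 104, [1]), (121, 120, [3])])) (.br 827 .no (.br 819 .no (.red [.f
  691 1 3] 103 120 [2, 4] [(103, 120, [2, 4])]) .no (.br 1072 (.use 170) (.br 841 .no (.br 842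
  (.red [.t 954 2 3, .f 825 3 5, .t 969 4 2] 121 120 [3] [(120, 104, [1]), (121, 120, [3])]) (.hor
  [.f 713 1 5] []) (.use 90) .no (.br 696 (.br 818 .no (.use 60) .no (.hor [.f 810 3 5] []) .no
  (.red [.f 944 1 3, .t 953 4 2] 119 120 [4] [(119, 120, [4]), (135, 119, [1])])) (.con 120 [2,
  4]) (.con 120 [2, 4]) (.con 120 [2, 4]) (.con 120 [2, 4]) .no) .no) (.use 91) .no (.red [.t 954
  2 3, .f 825 3 5, .f 833 5 3, .f 833 3 1] 121 120 [3] [(120, 104, [1]), (121, 120, [3])]) (.red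
  [.t 954 2 3, .f 825 3 5, .t 960 2 3] 121 120 [3] [(120, 104, [1]), (121, 120, [3])])) .no (.use
  169) (.use 84) .no) .no (.red [.f 818 5 1, .f 818 1 3] 119 120 [4] [(119, 120, [4])])) .no (.red
  [.t 954 2 3, .t 834 4 1, .t 826 1 4] 119 120 [4] [(119, 120, [4])]) .no .no) .no)) (.red [.f 817
  3 1, .f 825 1 5] 119 120 [4] [(119, 120, [4])]) .no (.use 150)) (.red [.f 1075 3 1, .f 1082 1 5]
  151 135 [1] [(151, 135, [1])]) .no .no

def f28t173 : Tr4 :=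
  .br 954 (.con 135 [3]) (.br 960 (.con 137 [4]) (.br 961 .no (.hor [.f 832 1 5] []) (.br 1083
  (.br 1082 (.hor [.f 1082 1 5] []) .no .no (.con 151 [2, 2]) .no .no) .no (.con 152 [2]) (.br
  1082 (.br 1088 (.br 1091 (.br 1211 (.br 968 (.br 1074 (.red [.f 1074 1 3, .f 1074 3 5] 151 135
  [1] [(151, 135, [1])]) (.use 46) .no (.br 946 .no (.red [.f 818 1 3] 119 120 [4] [(119, 120,
  [4])]) .no (.br 825 .no (.use 49) (.br 1073 (.use 47) .no .no (.hor [.f 1065 3 5] []) .no (.br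
  835 .no (.use 0) (.use 53) (.con 120 [2]) .no (.br 818 .no (.br 970 (.use 2) (.red [.t 954 2 3,
  .f 825 3 5, .t 969 4 2] 121 120 [3] [(120, 104, [1]), (121, 120, [3])]) (.use 66) .no (.use 72)
  .no) .no (.use 50) (.br 970 (.use 2) (.red [.t 954 2 3, .f 825 3 5, .t 969 4 2] 121 120 [3]
  [(120, 104, [1]), (121, 120, [3])]) (.use 78) .no (.use 79) .no) (.red [.t 953 4 2] 119 120 [4]
  [(119, 120, [4])])))) (.red [.f 817 3 1, .f 825 1 5] 119 120 [4] [(119, 120, [4])]) .no (.use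
  81)) (.use 86) .no) .no (.use 88)) (.red [.f 832 1 3] 121 120 [3] [(121, 120, [3])]) (.use 93)
  .no .no .no) .no .no (.red [.f 1075 3 1, .f 1082 1 5] 151 135 [1] [(151, 135, [1])]) .no .no)
  .no (.use 115) .no .no .no) .no (.br 968 .no (.red [.f 832 1 3] 121 120 [3] [(121, 120, [3])])
  (.br 1091 (.con 153 [2, 2]) .no (.use 172) .no .no .no) .no .no .no) .no .no .no) .no .no (.hor
  [.f 1074 3 5] []) .no .no) .no (.red [.t 962 1 4, .f 1081 3 5] 136 136 [] [(136, 136, [])])) .no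
  .no .no) (.br 961 .no (.con 121 [4, 4]) (.hor [.f 960 3 5] []) .no .no .no) .no (.red [.t 1080 2
  3, .f 961 1 5] 136 136 [] [(136, 136, [])]) .no) .no (.hor [.f 945 3 5] []) .no .no

def f28t174 : Tr4 :=
  .br 953 .no (.br 954 (.con 135 [3]) (.hor [.f 825 1 5] []) .no (.con 119 [3, 1]) .no .no) (.con
  120 [1]) (.use 173) (.red [.t 1089 4 2, .f 952 1 5] 136 136 [] [(136, 136, [])]) .no

def f28l6 : List Tr4 :=
  [f28t171, f28t172, f28t173, f28t174]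

theorem f28k6 : chkLF ⟨4, 1, 0, false, -4⟩ false 8 f28N 171 f28l6 = true := by decide +kernel

end Pool.Agent.FT4D
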