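import Pool.Agent.FT4D.ChainF4
import Pool.Agent.FT4D.Tr_f28_0

/-!
# Four levels: the chunks of the trees `f28` together
-/

namespace Pool.Agent.FT4D

theorem f28H : Holds ⟨4, 1, 0, false, -4⟩ false 8 [] := by
  have h0 := chStart ⟨4, 1, 0, false, -4⟩ false 8 f28N
  have h1 := chStepF f28l0 42 h0 f28k0 (by decide +kernel) (by decide +kernel)
  have h2 := chStepF f28l1 76 h1 f28k1 (by decide +kernel) (by decide +kernel)
  have h3 := chStepF f28l2 107 h2 f28k2 (by decide +kernel) (by decide +kernel)
  have h4 := chStepF f28l3 144 h3 f28k3 (by decide +kernel) (by decide +kernel)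
  have h5 := chStepF f28l4 160 h4 f28k4 (by decide +kernel) (by decide +kernel)
  have h6 := chStepF f28l5 171 h5 f28k5 (by decide +kernel) (by decide +kernel)
  have h7 := chStepF f28l6 175 h6 f28k6 (by decide +kernel) (by decide +kernel)
  exact chEnd h7 174 (by decide +kernel) (by decide +kernel)

end Pool.Agent.FT4D
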