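import Pool.Agent.FT4D.Bridge4
import Pool.Agent.FT4D.Fin_c10
import Pool.Agent.FT4D.Fin_c11
import Pool.Agent.FT4D.Fin_c21
import Pool.Agent.FT4D.Fin_c22
import Pool.Agent.FT4D.Fin_c27
import Pool.Agent.FT4D.Fin_c28
import Pool.Agent.FT4D.Fin_f10
import Pool.Agent.FT4D.Fin_f11
import Pool.Agent.FT4D.Fin_f21
import Pool.Agent.FT4D.Fin_f22
import Pool.Agent.FT4D.Fin_f27
import Pool.Agent.FT4D.Fin_f28

/-!
# Four levels: every tiling is joined to the vertical one
-/

namespace Pool.Agent.FT4D

open Pool.Agent.Dimer3D Pool.Agent.FT3D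

theorem all_vert : AllVert := by
  apply allVert_of
  intro o ho
  rcases ho with rfl | rfl
  · refine ⟨LL1_of c10H, LL2_of fun t ht => ?_, LL1_of f10H, LL2_of fun t ht => ?_⟩
    · have ht' : t ∈ ([1, 2] : List ℕ) := ht
      simp only [List.mem_cons, List.not_mem_nil, or_false] at ht'
      rcases ht' with rfl | rfl
      · exact c21H
      · exact c22H
    · have ht' : t ∈ ([1, 2] : List ℕ) := ht
      simp only [List.mem_cons, List.not_mem_nil, or_false] at ht'
      rcases ht' with rfl | rfl
      · exact f21H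
      · exact f22H
  · refine ⟨LL1_of c11H, LL2_of fun t ht => ?_, LL1_of f11H, LL2_of fun t ht => ?_⟩
    · have ht' : t ∈ ([7, 8] : List ℕ) := ht
      simp only [List.mem_cons, List.not_mem_nil, or_false] at ht'
      rcases ht' with rfl | rfl
      · exact c27H
      · exact c28H
    · have ht' : t ∈ ([7, 8] : List ℕ) := ht
      simp only [List.mem_cons, List.not_mem_nil, or_false] at ht'
      rcases ht' with rfl | rfl
      · exact f27H
      · exact f28H

end Pool.Agent.FT4D
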