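import Pool.Agent.FT4D.Glob4
import Pool.Agent.FT3D.Main

/-!
# Four levels: flips and trits connect all dimer configurations (assembly)
-/

namespace Pool.Agent.FT4D

open Pool.Agent.Dimer3D Pool.Agent.FT3D

/-- the statement for four levels -/
def AllVert : Prop := ∀ (m n : ℤ) (T : Cell → ℕ), Til 4 m n T → Conn T (vert m n)

theorem ftConn_four (H : AllVert) (m n : ℕ) : FTConn (Box m n 4) :=
  ftConn_of fun T T' hT hT' => conn_trans (H m n T hT) (conn_symm hT' (H m n T' hT'))

theorem ftConn_side_four (H : AllVert) {j m n : ℕ} (h4 : j = 4 ∨ m = 4 ∨ n = 4) :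
    FTConn (Box j m n) := by
  rcases h4 with rfl | rfl | rfl
  · exact ftConn_rot (ftConn_four H _ _)
  · exact ftConn_swap (ftConn_rot (ftConn_four H _ _))
  · exact ftConn_four H _ _

theorem ftConn_side (H : AllVert) {j m n : ℕ} (hs : (j = 3 ∨ m = 3 ∨ n = 3) ∨ (j = 4 ∨ m = 4 ∨ n = 4))
    (h : Even j ∨ Even m ∨ Even n) : FTConn (Box j m n) := by
  rcases hs with h3 | h4
  · exact ftConn_side_three h3 h
  · exact ftConn_side_four H h4

end Pool.Agent.FT4D
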