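import Pool.Agent.FT4D.Loc4
import Pool.Agent.FT4D.Main4

/-!
# Four levels: from the two local lemmas to the final statement
-/

namespace Pool.Agent.FT4D

open Pool.Agent.Dimer3D Pool.Agent.FT3D

/-- the parameters -/
def par4 (o : ℕ) (fl : Bool) : Par := if fl then ⟨4, o, 0, false, -4⟩ else ⟨4, o, 0, true, -8⟩

private theorem par4_J (o : ℕ) (fl : Bool) : (par4 o fl).J = 4 := by cases fl <;> rfl

private theorem par4_ori (o : ℕ) (fl : Bool) : (par4 o fl).ori = o := by cases fl <;> rfl

private theorem par4_al (o : ℕ) (fl : Bool) : (par4 o fl).al = 0 := by cases fl <;> rfl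

private theorem par4_flI (o : ℕ) (fl : Bool) (i j : ℤ) :
    flI (par4 o fl) i j = if fl then -4 else -8 := by
  unfold flI rI
  cases fl <;> simp [par4]

private theorem par4_rk (o : ℕ) (fl : Bool) (m i j : ℤ) : rk (par4 o fl) m i j = rnk m (i, j) := by
  unfold rk rnk
  rw [par4_al]
  push_cast
  ring

private theorem par4_deep {o : ℕ} {fl : Bool} (h : (par4 o fl).deep = false) : fl = true := by
  cases fl
  · exact Bool.noConfusion (show true = false from h)
  · rfl

private theorem red_of_concl4 {o : ℕ} {fl : Bool} {m n : ℤ} {T : Cell → ℕ} {s gi gj : ℤ}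
    (h : Concl4 (par4 o fl) m n T s gi gj) : Red fl m n T s gi gj := by
  obtain ⟨T', hT', hc, hlow, hcase⟩ := h
  simp only [par4_J, par4_flI] at hT' hlow hcase
  refine ⟨T', hT', hc, fun i j hij => hlow i j hij, ?_⟩
  rcases hcase with ⟨a, b, hab, h0, h1, hall⟩ | ⟨hall, hhor⟩
  · refine Or.inl ⟨a, b, hab, h0, h1, fun i j hij _ => ?_⟩
    exact hall i j hij
  · exact Or.inr ⟨fun i j hij => hall i j hij, hhor⟩

private theorem locAt_of {o : ℕ} {fl : Bool} (h1 : LL1 (par4 o fl))
    (h2 : LL2 (par4 o fl)) : LocAt (fun t T i j => HasTyp T t i j) o fl (typs o).toFinset := by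
  refine ⟨?_, ?_⟩
  · intro m n T s gi gj hS
    have hs : Sit (par4 o fl) m n T s gi gj := by
      refine ⟨by rw [par4_J]; exact hS.til, hS.s1, hS.hi, hS.hj, by rw [par4_ori]; exact hS.ori, ?_, ?_, ?_⟩
      · intro i j hij
        rw [par4_J]
        exact hS.up i j hij
      · intro i j hij hlt
        rw [par4_rk, par4_rk] at hlt
        rw [par4_J]
        exact hS.bef i j hij hlt
      · intro hd i j hij
        have hf := par4_deep hd
        rw [par4_J, par4_flI, hf]
        exact hS.flo hf i j hij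
    rcases h1 m n T s gi gj hs with h | ⟨t, ht, hty⟩
    · exact Or.inl (red_of_concl4 h)
    · refine Or.inr ⟨t, ?_, hty⟩
      rw [par4_ori] at ht
      exact List.mem_toFinset.2 ht
  · intro t ht m n T s gi gj hS
    have ht' : t ∈ typs (par4 o fl).ori := by
      rw [par4_ori]
      exact List.mem_toFinset.1 ht
    refine red_of_concl4 (h2 t ht' m n T s gi gj ?_)
    refine ⟨by rw [par4_J]; exact hS.til, hS.s1, hS.hi, hS.hj, by rw [par4_ori]; exact hS.ori, ?_, ?_,
      hS.typ, ?_⟩
    · intro i j hij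
      rw [par4_J]
      exact hS.up i j hij
    · intro hd i j hij
      have hf := par4_deep hd
      rw [par4_J, par4_flI, hf]
      exact hS.flo hf i j hij
    · intro a ha _ _ _ h0
      rw [par4_J] at h0
      exact hS.low a (Or.symm ha) h0

/-- every tiling with four levels is joined to the vertical one, from the two local lemmas -/
theorem allVert_of (h : ∀ o : ℕ, (o = 0 ∨ o = 1) → LL1 ⟨4, o, 0, true, -8⟩ ∧ LL2 ⟨4, o, 0, true, -8⟩ ∧
    LL1 ⟨4, o, 0, false, -4⟩ ∧ LL2 ⟨4, o, 0, false, -4⟩) : AllVert := by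
  intro m n T hT
  obtain ⟨a1, a2, a3, a4⟩ := h 0 (Or.inl rfl)
  obtain ⟨b1, b2, b3, b4⟩ := h 1 (Or.inr rfl)
  exact glob4 (fun t T i j => HasTyp T t i j) (locAt_of (fl := false) a1 a2)
    (locAt_of (fl := false) b1 b2) (locAt_of (fl := true) a3 a4)
    (locAt_of (fl := true) b3 b4) hT

end Pool.Agent.FT4D
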