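import Pool.Agent.FT4D.Sound4C

/-!
# Four levels: chaining the chunks of decision trees
-/

namespace Pool.Agent.FT4D

open Pool.Agent.FT3D

variable {P : Par} {st : Bool} {t : ℕ} {N : ℕ → List (ℕ × ℕ)}

/-- the parameters are admissible -/
def okP (P : Par) : Bool :=
  Nat.blt P.J 8 && Nat.beq (P.J % 2) 0 && Nat.beq P.al 0 && (Nat.beq P.ori 0 || Nat.beq P.ori 1)

theorem chStart (P : Par) (st : Bool) (t : ℕ) (N : ℕ → List (ℕ × ℕ)) : ∀ j < 0, Holds P st t (N j) :=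
  fun j hj => absurd hj (Nat.not_lt_zero j)

theorem chStep (l : List Tr4) {k : ℕ} (k' : ℕ) (hN : ∀ j < k, Holds P st t (N j))
    (hc : chkL P st t N k l = true) (hk : Nat.beq k' (k + l.length) = true) (hP : okP P = true) :
    ∀ j < k', Holds P st t (N j) := by
  simp only [okP, Bool.and_eq_true, Bool.or_eq_true, Nat.beq_eq, Nat.blt_eq] at hP hk
  obtain ⟨⟨⟨h1, h2⟩, h3⟩, h4⟩ := hP
  rw [hk]
  exact chkL_sound h1 h2 h3 h4 l k hN hc

theorem chEnd {k : ℕ} (hN : ∀ j < k, Holds P st t (N j)) (j : ℕ) (hj : Nat.blt j k = true)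
    (he : N j = []) : Holds P st t [] := by
  rw [Nat.blt_eq] at hj
  exact he ▸ hN j hj

end Pool.Agent.FT4D
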