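import Pool.Agent.FT4D.SoundF4
import Pool.Agent.FT4D.Chain4

/-!
# Four levels: chaining the chunks of decision trees, fast checker
-/

namespace Pool.Agent.FT4D

open Pool.Agent.FT3D

variable {P : Par} {st : Bool} {t : ℕ} {N : ℕ → List (ℕ × ℕ)}

theorem chStepF (l : List Tr4) {k : ℕ} (k' : ℕ) (hN : ∀ j < k, Holds P st t (N j))
    (hc : chkLF P st t N k l = true) (hk : Nat.beq k' (k + l.length) = true) (hP : okP P = true) :
    ∀ j < k', Holds P st t (N j) :=
  chStep l k' hN (chkLF_imp l k hc) hk hP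

end Pool.Agent.FT4D
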