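import Pool.Agent.FT4D.Loc4

/-!
# Four levels: the checker of decision trees with learnt configurations

Codes of cells, columns and vertices as in `Pool.Agent.FT3D.Check`.  The known columns are replaced by the
rectangle that they span.
-/

namespace Pool.Agent.FT4D

open Pool.Agent.FT3D

/-- a rectangle of columns: smallest and largest codes of `x` and `y` -/
structure Hu where
  xl : ℕ
  xh : ℕ
  yl : ℕ
  yh : ℕ

/-- the four columns around `g` -/
def hu0 : Hu := ⟨7, 8, 7, 8⟩

/-- the rectangle spanned by `H` and the column `v` -/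
def Hu.ad (H : Hu) (v : ℕ) : Hu :=
  ⟨bif Nat.ble H.xl (v / 16) then H.xl else v / 16, bif Nat.ble (v / 16) H.xh then H.xh else v / 16,
    bif Nat.ble H.yl (v % 16) then H.yl else v % 16, bif Nat.ble (v % 16) H.yh then H.yh else v % 16⟩

def inH (H : Hu) (v : ℕ) : Bool :=
  Nat.ble H.xl (v / 16) && Nat.ble (v / 16) H.xh && Nat.ble H.yl (v % 16) && Nat.ble (v % 16) H.yh

/-- is the vertex `v` a corner of a column of the rectangle? -/
def cor4 (H : Hu) (v : ℕ) : Bool :=
  wv v && (inH H v || inH H (v - 1) || inH H (v - 16) || inH H (v - 17))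

/-- bounds for the step east (`k = 1`) or north (`k = 3`) from the vertex `v` -/
def stp4 (P : Par) (K : List (ℕ × ℕ)) (H : Hu) (v k : ℕ) : Option (ℤ × ℤ) :=
  bif Nat.beq k 1 then
    bif inH H v || inH H (v - 1) then
      let r := rng K (v - 1) v 3 P.J
      let s := sgc P v
      let a := s * (4 * r.1 - ep P.J)
      let b := s * (4 * r.2 - ep P.J)
      some (min a b, max a b)
    else none
  else
    bif inH H v || inH H (v - 16) then
      let r := rng K (v - 16) v 1 P.J
      let s := sgc P (v - 16)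
      let a := s * (4 * r.1 - ep P.J)
      let b := s * (4 * r.2 - ep P.J)
      some (min a b, max a b)
    else none

/-- bounds for a step in direction `k`, `1 ≤ k ≤ 4`, with the new vertex -/
def stpD4 (P : Par) (K : List (ℕ × ℕ)) (H : Hu) (v k : ℕ) : Option (ℕ × ℤ × ℤ) :=
  bif wv v then
    bif Nat.beq k 1 then (stp4 P K H v 1).map fun r => (v + 16, r)
    else bif Nat.beq k 2 then (stp4 P K H (v - 16) 1).map fun r => (v - 16, -r.2, -r.1)
    else bif Nat.beq k 3 then (stp4 P K H v 3).map fun r => (v + 1, r)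
    else bif Nat.beq k 4 then (stp4 P K H (v - 1) 3).map fun r => (v - 1, -r.2, -r.1)
    else none
  else none

/-- bounds along a path -/
def pth4 (P : Par) (K : List (ℕ × ℕ)) (H : Hu) (v : ℕ) : List ℕ → Option (ℕ × ℤ × ℤ)
  | [] => some (v, 0, 0)
  | k :: p =>
    match stpD4 P K H v k with
    | none => none
    | some (w, lo, hi) =>
      match pth4 P K H w p with
      | none => none
      | some (w', lo', hi') => some (w', lo + lo', hi + hi')

/-- the largest possible height at `v`; in the first stage (`st`) `g` is the highest ranked maximum -/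
def ubc4 (P : Par) (st : Bool) (v : ℕ) : ℤ :=
  bif Nat.beq v 136 then 0 else bif st && bfr P v then -4 else 0

def loS4 (P : Par) (H : Hu) (u : ℕ) : Option ℤ :=
  bif Nat.beq u 136 then some 0 else bif !P.deep && cor4 H u then some (flo P u) else none

def hiS4 (P : Par) (st : Bool) (H : Hu) (u : ℕ) : Option ℤ :=
  bif Nat.beq u 136 then some 0 else bif cor4 H u then some (ubc4 P st u) else none

def chkCon4 (P : Par) (st : Bool) (K : List (ℕ × ℕ)) (H : Hu) (u : ℕ) (p : List ℕ) : Bool :=
  match loS4 P H u, pth4 P K H u p with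
  | some a, some (w, lo, _) => decide (ubc4 P st w < a + lo)
  | _, _ => false

/-- is the rank of `w` larger than the rank of `v`? -/
def rkB (v w : ℕ) : Bool :=
  Nat.blt (v % 16) (w % 16) || (Nat.beq (w % 16) (v % 16) && Nat.blt (w / 16) (v / 16))

/-- the bounds for one changed vertex; it may be raised up to `b` -/
def chkCe4 (P : Par) (st : Bool) (K : List (ℕ × ℕ)) (H : Hu) (L : List (ℕ × ℤ)) (b : ℕ → ℤ)
    (c : ℕ × ℕ × List ℕ) : Bool :=
  let D := dl L c.1
  match pth4 P K H c.2.1 c.2.2 with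
  | none => false
  | some (w, lo, hi) =>
    Nat.beq w c.1 &&
    (bif decide (0 < D) then
      match hiS4 P st H c.2.1 with
      | none => false
      | some a => decide (a + hi + 4 * D ≤ b c.1)
    else
      match loS4 P H c.2.1 with
      | none => false
      | some a => decide (flo P c.1 ≤ a + lo + 4 * D))

/-- moves that lower the maximal vertex `v` -/
def chkRed4 (P : Par) (st : Bool) (K : List (ℕ × ℕ)) (H : Hu) (ms : List Mv) (v u : ℕ) (p : List ℕ)
    (ce : List (ℕ × ℕ × List ℕ)) : Bool :=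
  match mvs P K ms with
  | none => false
  | some (L, _) =>
    match loS4 P H u, pth4 P K H u p with
    | some a, some (w, lo, _) =>
      Nat.beq w v && decide (0 ≤ a + lo) && decide (dl L v < 0) &&
        ce.all (chkCe4 P st K H L fun x => bif rkB v x then -1 else 0) &&
        L.all fun x => decide (dl L x.1 = 0) || hasV ce x.1
    | _, _ => false

/-- moves that reduce the number of horizontal dimers and create no maximum -/
def chkHor4 (P : Par) (st : Bool) (K : List (ℕ × ℕ)) (H : Hu) (ms : List Mv)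
    (ce : List (ℕ × ℕ × List ℕ)) : Bool :=
  match mvs P K ms with
  | none => false
  | some (L, h) =>
    decide (h < 0) && ce.all (chkCe4 P st K H L fun _ => -1) &&
      L.all fun x => decide (dl L x.1 = 0) || hasV ce x.1

/-- the column at the place `q` around the vertex `v` -/
def plCol (v q : ℕ) : ℕ := bif Nat.beq q 0 then v - 1 else bif Nat.beq q 1 then v - 16 else v - 17

/-- the direction of the dimer at the place `q` -/
def plDir (q : ℕ) : ℕ := bif Nat.beq q 0 || Nat.beq q 2 then 3 else 1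

/-- are the dimers of type `t` around `v` known in the levels below `z`? -/
def typK (K : List (ℕ × ℕ)) (t v : ℕ) : ℕ → Bool
  | 0 => true
  | z + 1 => Nat.beq (get K (8 * plCol v (plc t z) + z)) (plDir (plc t z)) && typK K t v z

/-- `g` has one of the types -/
def chkTyp (P : Par) (st : Bool) (K : List (ℕ × ℕ)) (t : ℕ) : Bool :=
  st && (typs P.ori).contains t && typK K t 136 4

/-- the south west or south east vertex is a maximum of the same type -/
def chkDom (P : Par) (st : Bool) (t : ℕ) (K : List (ℕ × ℕ)) (H : Hu) (v u : ℕ) (p : List ℕ) : Bool :=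
  !st && (Nat.beq v 119 || Nat.beq v 151) && typK K t v 4 && inH H v && inH H (v - 1) &&
    inH H (v - 16) && inH H (v - 17) &&
    match loS4 P H u, pth4 P K H u p with
    | some a, some (w, lo, _) => Nat.beq w v && decide (0 ≤ a + lo)
    | _, _ => false

inductive Tr4 where
  | no
  | con (u : ℕ) (p : List ℕ)
  | red (ms : List Mv) (v u : ℕ) (p : List ℕ) (ce : List (ℕ × ℕ × List ℕ))
  | hor (ms : List Mv) (ce : List (ℕ × ℕ × List ℕ))
  | typ (t : ℕ)
  | dom (v u : ℕ) (p : List ℕ)
  | use (j : ℕ)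
  | br (c : ℕ) (t1 t2 t3 t4 t5 t6 : Tr4)

def okB4 (P : Par) (K : List (ℕ × ℕ)) (H : Hu) (c : ℕ) : Bool :=
  inH H (c / 8) && Nat.beq (get K c) 0 && Nat.ble 2 (c / 128) && Nat.ble (c / 128) 13 &&
    Nat.ble 2 (c / 8 % 16) && Nat.ble (c / 8 % 16) 13 && Nat.blt (c % 8) P.J

/-- are all cells of `N` known, with the same directions? -/
def inc (K N : List (ℕ × ℕ)) : Bool := N.all fun e => Nat.ble 1 e.2 && Nat.beq (get K e.1) e.2

/-- the checker: `N` lists the learnt configurations, those with index below `k` may be used -/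
def chk4 (P : Par) (st : Bool) (t : ℕ) (N : ℕ → List (ℕ × ℕ)) (k : ℕ) : List (ℕ × ℕ) → Hu → Tr4 → Bool
  | _, _, .no => false
  | K, H, .con u p => chkCon4 P st K H u p
  | K, H, .red ms v u p ce => chkRed4 P st K H ms v u p ce
  | K, H, .hor ms ce => chkHor4 P st K H ms ce
  | K, _, .typ t' => chkTyp P st K t'
  | K, H, .dom v u p => chkDom P st t K H v u p
  | K, _, .use j => Nat.blt j k && inc K (N j)
  | K, H, .br c t1 t2 t3 t4 t5 t6 =>
    okB4 P K H c &&
    (imp P K c 1 || chk4 P st t N k ((c, 1) :: (nbc c 1, 2) :: K) (H.ad (nbc c 1 / 8)) t1) &&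
    (imp P K c 2 || chk4 P st t N k ((c, 2) :: (nbc c 2, 1) :: K) (H.ad (nbc c 2 / 8)) t2) &&
    (imp P K c 3 || chk4 P st t N k ((c, 3) :: (nbc c 3, 4) :: K) (H.ad (nbc c 3 / 8)) t3) &&
    (imp P K c 4 || chk4 P st t N k ((c, 4) :: (nbc c 4, 3) :: K) (H.ad (nbc c 4 / 8)) t4) &&
    (imp P K c 5 || chk4 P st t N k ((c, 5) :: (nbc c 5, 6) :: K) H t5) &&
    (imp P K c 6 || chk4 P st t N k ((c, 6) :: (nbc c 6, 5) :: K) H t6)

/-- the start state of a list of dimers: known cells and rectangle -/
def ini : List (ℕ × ℕ) → List (ℕ × ℕ) × Hu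
  | [] => ([], hu0)
  | (c, d) :: N => ((c, d) :: (nbc c d, opc d) :: (ini N).1, ((ini N).2.ad (c / 8)).ad (nbc c d / 8))

/-- the dimers of the list are given by their lower ends, and the codes do not carry -/
def okN (N : List (ℕ × ℕ)) : Bool :=
  N.all fun e => (Nat.beq e.2 1 || Nat.beq e.2 3 || Nat.beq e.2 5) && Nat.ble (e.1 / 8 % 16) 14 &&
    Nat.ble (e.1 % 8) 6

/-- the dimers of type `t` around `g` -/
def base (t : ℕ) : List (ℕ × ℕ) :=
  [(8 * plCol 136 (plc t 0) + 0, plDir (plc t 0)), (8 * plCol 136 (plc t 1) + 1, plDir (plc t 1)),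
    (8 * plCol 136 (plc t 2) + 2, plDir (plc t 2)), (8 * plCol 136 (plc t 3) + 3, plDir (plc t 3))]

/-- the dimers known at the start of the tree of the configuration `N` -/
def bas (st : Bool) (t : ℕ) (N : List (ℕ × ℕ)) : List (ℕ × ℕ) := bif st then N else N ++ base t

/-- check of the trees of the configurations `k, k + 1, …` -/
def chkL (P : Par) (st : Bool) (t : ℕ) (N : ℕ → List (ℕ × ℕ)) : ℕ → List Tr4 → Bool
  | _, [] => true
  | k, T :: l =>
    okN (bas st t (N k)) && chk4 P st t N k (ini (bas st t (N k))).1 (ini (bas st t (N k))).2 T &&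
      chkL P st t N (k + 1) l

/-- the situation of the two local lemmas: first stage `Sit`, second stage `Sit2` with the type `t` -/
structure Sit4 (P : Par) (st : Bool) (t : ℕ) (m n : ℤ) (T : Cell → ℕ) (s gi gj : ℤ) : Prop where
  til : Til P.J m n T
  s1 : s = 1 ∨ s = -1
  hi : 0 < gi ∧ gi < m
  hj : 0 < gj ∧ gj < n
  ori : s * sg (gi - 1) gj = if P.ori = 0 then 1 else -1
  up : ∀ i j, Cl m n i j → s * (ht P.J T i j - ht P.J T gi gj) ≤ 0
  bef : st = true → ∀ i j, Cl m n i j → rk P m gi gj < rk P m i j →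
    s * (ht P.J T i j - ht P.J T gi gj) < 0
  flo : P.deep = false → ∀ i j, Cl m n i j →
    flI P (i - gi) (j - gj) ≤ s * (ht P.J T i j - ht P.J T gi gj)
  typ : st = false → HasTyp T t gi gj
  low : st = false → ∀ a : ℤ, a = 1 ∨ a = -1 → 0 < gi + a → gi + a < m → 0 < gj - 1 →
    s * (ht P.J T (gi + a) (gj - 1) - ht P.J T gi gj) = 0 → ¬ HasTyp T t (gi + a) (gj - 1)

/-- the goal: in the first stage `g` may also have one of the types -/
def Goal4 (P : Par) (st : Bool) (m n : ℤ) (T : Cell → ℕ) (s gi gj : ℤ) : Prop :=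
  Concl4 P m n T s gi gj ∨ (st = true ∧ ∃ t ∈ typs P.ori, HasTyp T t gi gj)

/-- the configuration `N` leads to the goal -/
def Holds (P : Par) (st : Bool) (t : ℕ) (N : List (ℕ × ℕ)) : Prop :=
  ∀ (m n : ℤ) (T : Cell → ℕ) (s gi gj : ℤ), Sit4 P st t m n T s gi gj →
    (∀ e ∈ N, T (cellOf gi gj e.1) = e.2) → Goal4 P st m n T s gi gj

/-- the columns of the rectangle are inside -/
def Hin (m n gi gj : ℤ) (H : Hu) : Prop :=
  0 ≤ gi + H.xl - 8 ∧ gi + H.xh - 8 < m ∧ 0 ≤ gj + H.yl - 8 ∧ gj + H.yh - 8 < n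

/-- the assumptions of the soundness lemmas -/
structure Ctx4 (P : Par) (st : Bool) (t : ℕ) (m n : ℤ) (T : Cell → ℕ) (s gi gj : ℤ) (K : List (ℕ × ℕ))
    (H : Hu) : Prop where
  hJ : P.J < 8
  hJ2 : P.J % 2 = 0
  hal : P.al = 0
  hO : P.ori = 0 ∨ P.ori = 1
  S : Sit4 P st t m n T s gi gj
  A : Agree gi gj T K
  H : Hin m n gi gj H

end Pool.Agent.FT4D
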