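import Pool.Agent.FT4D.Check4

namespace Pool.Agent.FT4D

open Pool.Agent.FT3D

def getN (K c : ℕ) : ℕ := Nat.land (Nat.shiftRight K (Nat.mul 3 c)) 7
def setN (K c d : ℕ) : ℕ := Nat.xor K (Nat.shiftLeft (Nat.xor (getN K c) d) (Nat.mul 3 c))

/-- bounds for the net number of dimers between the columns `p` and `q`, `q` being the neighbour of
`p` in direction `k` (`k = 1, 3`), from the levels below `z` -/
def rngF (K : ℕ) (p q k : ℕ) : ℕ → ℤ × ℤ
  | 0 => (0, 0)
  | z + 1 =>
    let r := rngF K p q k z
    let a := getN K (8 * p + z)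
    let b := getN K (8 * q + z)
    let e : ℤ := bif Nat.beq (z % 2) 0 then 1 else -1
    bif Nat.beq a 0 then
      bif Nat.beq b 0 then
        bif Nat.beq (z % 2) 0 then (r.1, r.2 + 1) else (r.1 - 1, r.2)
      else bif Nat.beq b (opc k) then (r.1 + e, r.2 + e) else r
    else bif Nat.beq a k then (r.1 + e, r.2 + e) else r

/-- bounds for the step east (`k = 1`) or north (`k = 3`) from the vertex `v` -/
def stpF (P : Par) (K : ℕ) (H : Hu) (v k : ℕ) : Option (ℤ × ℤ) :=
  bif Nat.beq k 1 then
    bif inH H v || inH H (v - 1) then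
      let r := rngF K (v - 1) v 3 P.J
      let s := sgc P v
      let a := s * (4 * r.1 - ep P.J)
      let b := s * (4 * r.2 - ep P.J)
      some (min a b, max a b)
    else none
  else
    bif inH H v || inH H (v - 16) then
      let r := rngF K (v - 16) v 1 P.J
      let s := sgc P (v - 16)
      let a := s * (4 * r.1 - ep P.J)
      let b := s * (4 * r.2 - ep P.J)
      some (min a b, max a b)
    else none

/-- bounds for a step in direction `k`, `1 ≤ k ≤ 4`, with the new vertex -/
def stpDF (P : Par) (K : ℕ) (H : Hu) (v k : ℕ) : Option (ℕ × ℤ × ℤ) :=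
  bif wv v then
    bif Nat.beq k 1 then (stpF P K H v 1).map fun r => (v + 16, r)
    else bif Nat.beq k 2 then (stpF P K H (v - 16) 1).map fun r => (v - 16, -r.2, -r.1)
    else bif Nat.beq k 3 then (stpF P K H v 3).map fun r => (v + 1, r)
    else bif Nat.beq k 4 then (stpF P K H (v - 1) 3).map fun r => (v - 1, -r.2, -r.1)
    else none
  else none

/-- bounds along a path -/
def pthF (P : Par) (K : ℕ) (H : Hu) (v : ℕ) : List ℕ → Option (ℕ × ℤ × ℤ)
  | [] => some (v, 0, 0)
  | k :: p =>
    match stpDF P K H v k with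
    | none => none
    | some (w, lo, hi) =>
      match pthF P K H w p with
      | none => none
      | some (w', lo', hi') => some (w', lo + lo', hi + hi')

def chkConF (P : Par) (st : Bool) (K : ℕ) (H : Hu) (u : ℕ) (p : List ℕ) : Bool :=
  match loS4 P H u, pthF P K H u p with
  | some a, some (w, lo, _) => decide (ubc4 P st w < a + lo)
  | _, _ => false

def mvF (P : Par) (K : ℕ) : Mv → Option (ℕ × ℕ × ℤ × ℤ)
  | .f c d e =>
    bif wv (c / 8) && (Nat.beq d 1 || Nat.beq d 3 || Nat.beq d 5) && (Nat.beq e 1 || Nat.beq e 3 || Nat.beq e 5) &&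
        !(Nat.beq d e) && Nat.beq (getN K c) d && Nat.beq (getN K (nbc c e)) d then
      let K' := setN (setN (setN (setN K (nbc (nbc c d) e) (opc e)) (nbc c e) (opc e)) (nbc c d) e) c e
      let v := c / 8 + 17
      let z : ℤ := bif Nat.beq (c % 2) 0 then 1 else -1
      bif Nat.beq e 5 then some (K', v, 0, -4) else
      bif Nat.beq d 5 then some (K', v, 0, 4) else
      some (K', v, (bif Nat.beq d 1 then 1 else -1) * sgc P (v - 16) * z, 0)
    else none
  | .t o a b =>
    bif wv (o / 8) && Nat.ble 1 a && Nat.ble a 4 && Nat.ble 1 b && Nat.ble b 4 && !(Nat.beq ((a + 1) / 2) ((b + 1) / 2))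
        && Nat.beq (getN K o) a && Nat.beq (getN K (o + 1)) b &&
        Nat.beq (getN K (nbc (nbc o a) b)) 5 then
      let K' := setN (setN (setN (setN (setN (setN K (nbc (nbc o a) b + 1) (opc a)) (nbc o b + 1) a)
        (nbc (nbc o a) b) (opc b)) (nbc o a) b) (o + 1) 6) o 5
      let v := o / 8 + (bif Nat.beq a 1 || Nat.beq b 1 then 16 else 0) +
        (bif Nat.beq a 3 || Nat.beq b 3 then 1 else 0)
      let z : ℤ := bif Nat.beq (o % 2) 0 then 1 else -1
      some (K', v, (bif Nat.ble a 2 then 1 else -1) * sgc P (v - 16) * z, 0)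
    else none

/-- a sequence of moves: list of the changes and total change of the number of cells in horizontal
dimers -/
def mvsF (P : Par) : ℕ → List Mv → Option (List (ℕ × ℤ) × ℤ)
  | _, [] => some ([], 0)
  | K, m :: ms =>
    match mvF P K m with
    | none => none
    | some (K', v, d, h) =>
      match mvsF P K' ms with
      | none => none
      | some (L, h') => some ((v, d) :: L, h + h')

/-- the bounds for one changed vertex; it may be raised up to `b` -/
def chkCeF (P : Par) (st : Bool) (K : ℕ) (H : Hu) (L : List (ℕ × ℤ)) (b : ℕ → ℤ)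
    (c : ℕ × ℕ × List ℕ) : Bool :=
  let D := dl L c.1
  match pthF P K H c.2.1 c.2.2 with
  | none => false
  | some (w, lo, hi) =>
    Nat.beq w c.1 &&
    (bif decide (0 < D) then
      match hiS4 P st H c.2.1 with
      | none => false
      | some a => decide (a + hi + 4 * D ≤ b c.1)
    else
      match loS4 P H c.2.1 with
      | none => false
      | some a => decide (flo P c.1 ≤ a + lo + 4 * D))

/-- moves that lower the maximal vertex `v` -/
def chkRedF (P : Par) (st : Bool) (K : ℕ) (H : Hu) (ms : List Mv) (v u : ℕ) (p : List ℕ)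
    (ce : List (ℕ × ℕ × List ℕ)) : Bool :=
  match mvsF P K ms with
  | none => false
  | some (L, _) =>
    match loS4 P H u, pthF P K H u p with
    | some a, some (w, lo, _) =>
      Nat.beq w v && decide (0 ≤ a + lo) && decide (dl L v < 0) &&
        ce.all (chkCeF P st K H L fun x => bif rkB v x then -1 else 0) &&
        L.all fun x => decide (dl L x.1 = 0) || hasV ce x.1
    | _, _ => false

/-- moves that reduce the number of horizontal dimers and create no maximum -/
def chkHorF (P : Par) (st : Bool) (K : ℕ) (H : Hu) (ms : List Mv)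
    (ce : List (ℕ × ℕ × List ℕ)) : Bool :=
  match mvsF P K ms with
  | none => false
  | some (L, h) =>
    decide (h < 0) && ce.all (chkCeF P st K H L fun _ => -1) &&
      L.all fun x => decide (dl L x.1 = 0) || hasV ce x.1

def typKF (K : ℕ) (t v : ℕ) : ℕ → Bool
  | 0 => true
  | z + 1 => Nat.beq (getN K (8 * plCol v (plc t z) + z)) (plDir (plc t z)) && typKF K t v z

/-- `g` has one of the types -/
def chkTypF (P : Par) (st : Bool) (K : ℕ) (t : ℕ) : Bool :=
  st && (typs P.ori).contains t && typKF K t 136 4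

/-- the south west or south east vertex is a maximum of the same type -/
def chkDomF (P : Par) (st : Bool) (t : ℕ) (K : ℕ) (H : Hu) (v u : ℕ) (p : List ℕ) : Bool :=
  !st && (Nat.beq v 119 || Nat.beq v 151) && typKF K t v 4 && inH H v && inH H (v - 1) &&
    inH H (v - 16) && inH H (v - 17) &&
    match loS4 P H u, pthF P K H u p with
    | some a, some (w, lo, _) => Nat.beq w v && decide (0 ≤ a + lo)
    | _, _ => false

def okBF (P : Par) (K : ℕ) (H : Hu) (c : ℕ) : Bool :=
  inH H (c / 8) && Nat.beq (getN K c) 0 && Nat.ble 2 (c / 128) && Nat.ble (c / 128) 13 &&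
    Nat.ble 2 (c / 8 % 16) && Nat.ble (c / 8 % 16) 13 && Nat.blt (c % 8) P.J

/-- are all cells of `N` known, with the same directions? -/
def incF (K : ℕ) (N : List (ℕ × ℕ)) : Bool := N.all fun e => Nat.ble 1 e.2 && Nat.beq (getN K e.1) e.2

/-- is the direction `d` impossible for the cell `c`? -/
def impF (P : Par) (K : ℕ) (c d : ℕ) : Bool :=
  (Nat.beq d 5 && Nat.ble P.J (c % 8 + 1)) || (Nat.beq d 6 && Nat.beq (c % 8) 0) ||
    (!(Nat.beq (getN K (nbc c d)) 0) && !(Nat.beq (getN K (nbc c d)) (opc d)))

/-- the checker: `N` lists the learnt configurations, those with index below `k` may be used -/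
def chkF (P : Par) (st : Bool) (t : ℕ) (N : ℕ → List (ℕ × ℕ)) (k : ℕ) : ℕ → Hu → Tr4 → Bool
  | _, _, .no => false
  | K, H, .con u p => chkConF P st K H u p
  | K, H, .red ms v u p ce => chkRedF P st K H ms v u p ce
  | K, H, .hor ms ce => chkHorF P st K H ms ce
  | K, _, .typ t' => chkTypF P st K t'
  | K, H, .dom v u p => chkDomF P st t K H v u p
  | K, _, .use j => Nat.blt j k && incF K (N j)
  | K, H, .br c t1 t2 t3 t4 t5 t6 =>
    okBF P K H c &&
    (impF P K c 1 || chkF P st t N k (setN (setN K (nbc c 1) 2) c 1) (H.ad (nbc c 1 / 8)) t1) &&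
    (impF P K c 2 || chkF P st t N k (setN (setN K (nbc c 2) 1) c 2) (H.ad (nbc c 2 / 8)) t2) &&
    (impF P K c 3 || chkF P st t N k (setN (setN K (nbc c 3) 4) c 3) (H.ad (nbc c 3 / 8)) t3) &&
    (impF P K c 4 || chkF P st t N k (setN (setN K (nbc c 4) 3) c 4) (H.ad (nbc c 4 / 8)) t4) &&
    (impF P K c 5 || chkF P st t N k (setN (setN K (nbc c 5) 6) c 5) H t5) &&
    (impF P K c 6 || chkF P st t N k (setN (setN K (nbc c 6) 5) c 6) H t6)

/-- the start state of a list of dimers: known cells and rectangle -/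
def iniF : List (ℕ × ℕ) → ℕ
  | [] => 0
  | (c, d) :: N => setN (setN (iniF N) (nbc c d) (opc d)) c d

def chkLF (P : Par) (st : Bool) (t : ℕ) (N : ℕ → List (ℕ × ℕ)) : ℕ → List Tr4 → Bool
  | _, [] => true
  | k, T :: l =>
    okN (bas st t (N k)) && chkF P st t N k (iniF (bas st t (N k))) (ini (bas st t (N k))).2 T &&
      chkLF P st t N (k + 1) l

end Pool.Agent.FT4D
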