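import Pool.Agent.FT3D.Moves

/-!
# A descent on the set of maximal vertices

The maximal vertices of a height function are coded by a number in base two; a reduction removes one of
them and may create maximal vertices of smaller rank only.
-/

namespace Pool.Agent.FT4D

open Pool.Agent.FT3D

variable {m n : ℤ}

/-- the vertices with height `h`, as a finite set -/
noncomputable def mx (m n h : ℤ) (f : ℤ → ℤ → ℤ) : Finset (ℤ × ℤ) := by
  classical
  exact (Finset.Icc 0 m ×ˢ Finset.Icc 0 n).filter fun p => f p.1 p.2 = h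

theorem mem_mx {h : ℤ} {f : ℤ → ℤ → ℤ} {p : ℤ × ℤ} :
    p ∈ mx m n h f ↔ Cl m n p.1 p.2 ∧ f p.1 p.2 = h := by
  unfold mx Cl
  simp only [Finset.mem_filter, Finset.mem_product, Finset.mem_Icc, and_assoc]

/-- the rank of a vertex: rows from below, then from right to left -/
def rnk (m : ℤ) (p : ℤ × ℤ) : ℤ := p.2 * (m + 1) - p.1

theorem rnk_inj {i j i' j' : ℤ} (h1 : Cl m n i j) (h2 : Cl m n i' j')
    (h : rnk m (i, j) = rnk m (i', j')) : (i, j) = (i', j') := by
  unfold rnk at h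
  simp only at h
  obtain ⟨a1, a2, a3, a4⟩ := h1
  obtain ⟨b1, b2, b3, b4⟩ := h2
  have hj : j = j' := by
    rcases lt_trichotomy j j' with h1 | h1 | h1
    · exfalso
      have h2 : (j' - j) * (m + 1) ≥ 1 * (m + 1) := mul_le_mul_of_nonneg_right (by linarith) (by linarith)
      nlinarith
    · exact h1
    · exfalso
      have h2 : (j - j') * (m + 1) ≥ 1 * (m + 1) := mul_le_mul_of_nonneg_right (by linarith) (by linarith)
      nlinarith
  subst hj
  have : i = i' := by linarith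
  rw [this]

theorem rnk_nonneg {i j : ℤ} (h : Cl m n i j) : 0 ≤ rnk m (i, j) + m := by
  obtain ⟨a1, a2, a3, a4⟩ := h
  unfold rnk
  have h4 : 0 ≤ j * (m + 1) := mul_nonneg a3 (by linarith)
  simp only
  linarith

/-- the code of the set of maximal vertices -/
noncomputable def wt (m n h : ℤ) (f : ℤ → ℤ → ℤ) : ℕ := ∑ p ∈ mx m n h f, 2 ^ (rnk m p + m).toNat

theorem wt_mono {h : ℤ} {f f' : ℤ → ℤ → ℤ} (hs : mx m n h f' ⊆ mx m n h f) :
    wt m n h f' ≤ wt m n h f :=
  Finset.sum_le_sum_of_subset hs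

theorem wt_lt {h : ℤ} {f f' : ℤ → ℤ → ℤ} {p0 : ℤ × ℤ} (h0 : p0 ∈ mx m n h f)
    (h1 : p0 ∉ mx m n h f') (h2 : ∀ p ∈ mx m n h f', rnk m p0 < rnk m p → p ∈ mx m n h f) :
    wt m n h f' < wt m n h f := by
  classical
  obtain ⟨c0, -⟩ := mem_mx.1 h0
  set A := (mx m n h f').filter fun p => rnk m p0 < rnk m p with hA
  set B := (mx m n h f').filter fun p => ¬ rnk m p0 < rnk m p with hB
  have hsplit : wt m n h f' = ∑ p ∈ A, 2 ^ (rnk m p + m).toNat + ∑ p ∈ B, 2 ^ (rnk m p + m).toNat :=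
    (Finset.sum_filter_add_sum_filter_not _ _ _).symm
  have hBlt : ∑ p ∈ B, 2 ^ (rnk m p + m).toNat < 2 ^ (rnk m p0 + m).toNat := by
    have hinj : Set.InjOn (fun p : ℤ × ℤ => (rnk m p + m).toNat) (B : Set (ℤ × ℤ)) := by
      rintro ⟨i, j⟩ hp ⟨i', j'⟩ hq hpq
      have cp := (mem_mx.1 (Finset.mem_filter.1 hp).1).1
      have cq := (mem_mx.1 (Finset.mem_filter.1 hq).1).1
      have e1 : 0 ≤ rnk m (i, j) + m := rnk_nonneg cp
      have e2 : 0 ≤ rnk m (i', j') + m := rnk_nonneg cq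
      have e3 : (rnk m (i, j) + m).toNat = (rnk m (i', j') + m).toNat := hpq
      exact rnk_inj cp cq (by omega)
    have himg : ∑ p ∈ B, 2 ^ (rnk m p + m).toNat =
        ∑ k ∈ B.image (fun p : ℤ × ℤ => (rnk m p + m).toNat), 2 ^ k := by
      rw [Finset.sum_image hinj]
    rw [himg]
    refine Nat.geomSum_lt le_rfl ?_
    intro k hk
    obtain ⟨⟨i, j⟩, hp, rfl⟩ := Finset.mem_image.1 hk
    obtain ⟨hp1, hp2⟩ := Finset.mem_filter.1 hp
    have cp := (mem_mx.1 hp1).1
    have e1 : 0 ≤ rnk m (i, j) + m := rnk_nonneg cp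
    have hp3 : ¬ rnk m p0 < rnk m (i, j) := hp2
    have hne : rnk m (i, j) ≠ rnk m p0 := by
      intro he
      have := rnk_inj (i := i) (j := j) (i' := p0.1) (j' := p0.2) cp c0 he
      rw [this] at hp1
      exact h1 hp1
    show (rnk m (i, j) + m).toNat < (rnk m p0 + m).toNat
    omega
  have hins : insert p0 A ⊆ mx m n h f := by
    intro p hp
    rcases Finset.mem_insert.1 hp with rfl | hp
    · exact h0
    · obtain ⟨hp1, hp2⟩ := Finset.mem_filter.1 hp
      exact h2 p hp1 hp2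
  have hp0 : p0 ∉ A := fun hp => lt_irrefl _ (Finset.mem_filter.1 hp).2
  have h3 : ∑ p ∈ insert p0 A, 2 ^ (rnk m p + m).toNat ≤ wt m n h f :=
    Finset.sum_le_sum_of_subset hins
  rw [Finset.sum_insert hp0] at h3
  omega

/-- the descent: if every tiling with all heights `≤ h` and a vertex of height `h` can be changed so that
the pair (code of the maximal vertices, number of horizontal dimers) goes down, then all heights can be
made `≤ h - 1` -/
theorem desc {J : ℕ} (h : ℤ) (F : (Cell → ℕ) → ℤ → ℤ → ℤ) (Inv : (Cell → ℕ) → Prop)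
    (hstep : ∀ T, Til J m n T → Inv T → (∀ i j, Cl m n i j → F T i j ≤ h) →
      (∃ i j, Cl m n i j ∧ F T i j = h) →
      ∃ T', Til J m n T' ∧ Conn T T' ∧ Inv T' ∧ (∀ i j, Cl m n i j → F T' i j ≤ h) ∧
        (wt m n h (F T') < wt m n h (F T) ∨
          (wt m n h (F T') ≤ wt m n h (F T) ∧ hor J m n T' < hor J m n T))) :
    ∀ T, Til J m n T → Inv T → (∀ i j, Cl m n i j → F T i j ≤ h) →
      ∃ T', Til J m n T' ∧ Conn T T' ∧ Inv T' ∧ ∀ i j, Cl m n i j → F T' i j ≤ h - 1 := by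
  have key : ∀ (a b : ℕ) (T : Cell → ℕ), Til J m n T → Inv T →
      (∀ i j, Cl m n i j → F T i j ≤ h) → wt m n h (F T) < a → hor J m n T < b →
      ∃ T', Til J m n T' ∧ Conn T T' ∧ Inv T' ∧ ∀ i j, Cl m n i j → F T' i j ≤ h - 1 := by
    intro a
    induction a with
    | zero => intro b T _ _ _ ha _; exact absurd ha (Nat.not_lt_zero _)
    | succ a iha =>
      intro b
      induction b with
      | zero => intro T _ _ _ _ hb; exact absurd hb (Nat.not_lt_zero _)
      | succ b ihb =>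
        intro T hT hI hh ha hb
        by_cases hex : ∃ i j, Cl m n i j ∧ F T i j = h
        · obtain ⟨T', hT', hc, hI', hh', hcase⟩ := hstep T hT hI hh hex
          rcases hcase with h1 | ⟨h1, h2⟩
          · obtain ⟨T'', x1, x2, x3, x4⟩ :=
              iha (hor J m n T' + 1) T' hT' hI' hh' (by omega) (Nat.lt_succ_self _)
            exact ⟨T'', x1, conn_trans hc x2, x3, x4⟩
          · obtain ⟨T'', x1, x2, x3, x4⟩ := ihb T' hT' hI' hh' (by omega) (by omega)
            exact ⟨T'', x1, conn_trans hc x2, x3, x4⟩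
        · refine ⟨T, hT, Relation.ReflTransGen.refl, hI, fun i j hij => ?_⟩
          have h1 := hh i j hij
          have h2 : F T i j ≠ h := fun h2 => hex ⟨i, j, hij, h2⟩
          omega
  intro T hT hI hh
  exact key _ _ T hT hI hh (Nat.lt_succ_self _) (Nat.lt_succ_self _)

/-- a bound for a function on the vertices -/
theorem exists_bound (m n : ℤ) (f : ℤ → ℤ → ℤ) : ∃ h : ℕ, ∀ i j, Cl m n i j → f i j ≤ h := by
  refine ⟨(∑ p ∈ Finset.Icc 0 m ×ˢ Finset.Icc 0 n, |f p.1 p.2|).toNat, fun i j hc => ?_⟩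
  have h1 : |f i j| ≤ ∑ p ∈ Finset.Icc 0 m ×ˢ Finset.Icc 0 n, |f p.1 p.2| :=
    Finset.single_le_sum (f := fun p : ℤ × ℤ => |f p.1 p.2|) (fun p _ => abs_nonneg _)
      (Finset.mem_product.2 ⟨Finset.mem_Icc.2 ⟨hc.1, hc.2.1⟩,
        Finset.mem_Icc.2 ⟨hc.2.2.1, hc.2.2.2⟩⟩ : (i, j) ∈ Finset.Icc 0 m ×ˢ Finset.Icc 0 n)
  exact (le_abs_self _).trans (h1.trans (Int.self_le_toNat _))

/-- a nonempty finite set of vertices has one of largest rank -/
theorem exists_top {S : Finset (ℤ × ℤ)} (hS : S.Nonempty) (r : ℤ × ℤ → ℤ) :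
    ∃ p ∈ S, ∀ q ∈ S, r q ≤ r p :=
  Finset.exists_max_image S r hS

end Pool.Agent.FT4D
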