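import Pool.Agent.FT3D.Effect
import Pool.Agent.FT3D.Effect2
import Pool.Agent.FT3D.Height2

/-!
# Four levels: the tilings with zero projected height are connected
-/

namespace Pool.Agent.FT4D

open Pool.Agent.FT3D

variable {m n : ℤ} {T : Cell → ℕ}

/-- the tiling by vertical dimers in the levels 0, 1 and 2, 3 -/
noncomputable def vert (m n : ℤ) : Cell → ℕ := by
  classical
  exact fun c => if Bx 4 m n c then (if Even c.2.2 then 5 else 6) else 0

private theorem nb1 (x y z : ℤ) : nb (x, y, z) 1 = (x + 1, y, z) := by simp [nb, dX, dY, dZ]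

private theorem nb2 (x y z : ℤ) : nb (x, y, z) 2 = (x - 1, y, z) := by
  simp [nb, dX, dY, dZ, sub_eq_add_neg]

private theorem nb3 (x y z : ℤ) : nb (x, y, z) 3 = (x, y + 1, z) := by simp [nb, dX, dY, dZ]

private theorem nb4 (x y z : ℤ) : nb (x, y, z) 4 = (x, y - 1, z) := by
  simp [nb, dX, dY, dZ, sub_eq_add_neg]

private theorem nb5 (x y z : ℤ) : nb (x, y, z) 5 = (x, y, z + 1) := by simp [nb, dX, dY, dZ]

private theorem nb6 (x y z : ℤ) : nb (x, y, z) 6 = (x, y, z - 1) := by
  simp [nb, dX, dY, dZ, sub_eq_add_neg]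

private theorem sg_ne (x y : ℤ) : sg x y ≠ 0 := by
  rcases sg_one x y with h | h <;> rw [h] <;> decide

private theorem ep4 : ep 4 = 0 := rfl

/-- flows of a tiling with zero height, direction `1` -/
private theorem flat_F1 (hT : Til 4 m n T) (hH : ∀ i j, Cl m n i j → ht 4 T i j = 0) {x y : ℤ}
    (hx : 0 ≤ x) (hx' : x < m) (hy : 0 ≤ y) (hy' : y < n) : Fl 4 T 1 x y = 0 := by
  have h := ht_N hT (i := x + 1) (j := y) (by omega) (by omega) hy hy'
  rw [hH (x + 1) (y + 1) ⟨by omega, by omega, by omega, by omega⟩,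
    hH (x + 1) y ⟨by omega, by omega, by omega, by omega⟩, show x + 1 - 1 = x by ring, ep4] at h
  have h1 : sg x y * (4 * Fl 4 T 1 x y - 0) = 0 := by linarith
  rcases mul_eq_zero.mp h1 with h2 | h2
  · exact absurd h2 (sg_ne x y)
  · linarith

/-- flows of a tiling with zero height, direction `3` -/
private theorem flat_F3 (hH : ∀ i j, Cl m n i j → ht 4 T i j = 0) {x y : ℤ}
    (hx : 0 ≤ x) (hx' : x < m) (hy : 0 ≤ y) (hy' : y < n) : Fl 4 T 3 x y = 0 := by
  have h := ht_E 4 T (i := x) (y + 1) hx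
  rw [hH (x + 1) (y + 1) ⟨by omega, by omega, by omega, by omega⟩,
    hH x (y + 1) ⟨by omega, by omega, by omega, by omega⟩, show y + 1 - 1 = y by ring, ep4] at h
  have h1 : sg x (y + 1) * (4 * Fl 4 T 3 x y - 0) = 0 := by linarith
  rcases mul_eq_zero.mp h1 with h2 | h2
  · exact absurd h2 (sg_ne x (y + 1))
  · linarith

/-- the flow as a sum over four levels -/
private theorem fl_sum (T : Cell → ℕ) (k : ℕ) (x y : ℤ) : Fl 4 T k x y =
    (if T (x, y, 0) = k then 1 else 0) - (if T (x, y, 1) = k then 1 else 0) +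
      (if T (x, y, 2) = k then 1 else 0) - (if T (x, y, 3) = k then 1 else 0) := by
  unfold Fl
  rw [Finset.sum_range_succ, Finset.sum_range_succ, Finset.sum_range_succ, Finset.sum_range_succ,
    Finset.sum_range_zero]
  norm_num
  split_ifs <;> norm_num

/-- no stacked pairs and flow zero: the dimers in this direction are in the levels 0 and 3 -/
private theorem flat_ends (hT : Til 4 m n T) {k : ℕ} (hk : k ≠ 0) {x y : ℤ} (h0 : Fl 4 T k x y = 0)
    (hs : ∀ c, ¬ (T c = k ∧ T (nb c 5) = k)) {z : ℤ} (h : T (x, y, z) = k) :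
    (z = 0 ∨ z = 3) ∧ T (x, y, 0) = k ∧ T (x, y, 3) = k := by
  have hb := bx_of_ne hT (c := (x, y, z)) (by rw [h]; exact hk)
  have hz0 : 0 ≤ z := hb.2.2.2.2.1
  have hz3 : z < 4 := hb.2.2.2.2.2
  rw [fl_sum] at h0
  have s0 := hs (x, y, 0)
  have s1 := hs (x, y, 1)
  have s2 := hs (x, y, 2)
  rw [nb5] at s0 s1 s2
  norm_num at s0 s1 s2
  have hz : z = 0 ∨ z = 1 ∨ z = 2 ∨ z = 3 := by omega
  by_cases a0 : T (x, y, 0) = k
  · have a1 : T (x, y, 1) ≠ k := fun h1 => s0 a0 h1
    by_cases a2 : T (x, y, 2) = k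
    · have a3 : T (x, y, 3) ≠ k := fun h1 => s2 a2 h1
      rw [if_pos a0, if_neg a1, if_pos a2, if_neg a3] at h0
      norm_num at h0
    · by_cases a3 : T (x, y, 3) = k
      · refine ⟨?_, a0, a3⟩
        rcases hz with rfl | rfl | rfl | rfl
        · exact Or.inl rfl
        · exact absurd h a1
        · exact absurd h a2
        · exact Or.inr rfl
      · rw [if_pos a0, if_neg a1, if_neg a2, if_neg a3] at h0
        norm_num at h0
  · exfalso
    by_cases a1 : T (x, y, 1) = k
    · have a2 : T (x, y, 2) ≠ k := fun h1 => s1 a1 h1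
      rw [if_neg a0, if_pos a1, if_neg a2] at h0
      split_ifs at h0 <;> omega
    · by_cases a2 : T (x, y, 2) = k
      · have a3 : T (x, y, 3) ≠ k := fun h1 => s2 a2 h1
        rw [if_neg a0, if_neg a1, if_pos a2, if_neg a3] at h0
        norm_num at h0
      · by_cases a3 : T (x, y, 3) = k
        · rw [if_neg a0, if_neg a1, if_neg a2, if_pos a3] at h0
          norm_num at h0
        · rcases hz with rfl | rfl | rfl | rfl
          · exact a0 h
          · exact a1 h
          · exact a2 h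
          · exact a3 h

/-- no horizontal dimers: the tiling is `vert` -/
private theorem flat_end (hT : Til 4 m n T) (hv : ∀ c, Bx 4 m n c → T c = 5 ∨ T c = 6) :
    T = vert m n := by
  funext c
  unfold vert
  by_cases hb : Bx 4 m n c
  · rw [if_pos hb]
    obtain ⟨x, y, z⟩ := c
    have hx0 : 0 ≤ x := hb.1
    have hxm : x < m := hb.2.1
    have hy0 : 0 ≤ y := hb.2.2.1
    have hyn : y < n := hb.2.2.2.1
    have hz0 : 0 ≤ z := hb.2.2.2.2.1
    have hz4 : z < 4 := hb.2.2.2.2.2
    have hB : ∀ w : ℤ, 0 ≤ w → w < 4 → Bx 4 m n (x, y, w) := fun w h1 h2 => ⟨hx0, hxm, hy0, hyn, h1, h2⟩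
    have t0 : T (x, y, 0) = 5 := by
      rcases hv _ (hB 0 (by norm_num) (by norm_num)) with h | h
      · exact h
      · exfalso
        have h1 := hT.mem _ (hB 0 (by norm_num) (by norm_num))
        rw [h, nb6] at h1
        have h2 := h1.2.2.2.2.1
        norm_num at h2
    have t1 : T (x, y, 1) = 6 := by
      have h1 := hT.inv _ (hB 0 (by norm_num) (by norm_num))
      rw [t0, nb5] at h1
      norm_num at h1
      exact h1
    have t2 : T (x, y, 2) = 5 := by
      rcases hv _ (hB 2 (by norm_num) (by norm_num)) with h | h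
      · exact h
      · exfalso
        have h1 := hT.inv _ (hB 2 (by norm_num) (by norm_num))
        rw [h, nb6] at h1
        norm_num at h1
        rw [t1] at h1
        exact absurd h1 (by decide)
    have t3 : T (x, y, 3) = 6 := by
      have h1 := hT.inv _ (hB 2 (by norm_num) (by norm_num))
      rw [t2, nb5] at h1
      norm_num at h1
      exact h1
    have hz : z = 0 ∨ z = 1 ∨ z = 2 ∨ z = 3 := by omega
    rcases hz with rfl | rfl | rfl | rfl
    · rw [t0, if_pos (show Even (0 : ℤ) by decide)]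
    · rw [t1, if_neg (show ¬ Even (1 : ℤ) by decide)]
    · rw [t2, if_pos (show Even (2 : ℤ) by decide)]
    · rw [t3, if_neg (show ¬ Even (3 : ℤ) by decide)]
  · rw [if_neg hb]
    exact hT.out c hb

private theorem perp5 {k : ℕ} (hk : k = 1 ∨ k = 3) : perp 5 k ∧ perp k 5 := by
  rcases hk with rfl | rfl <;> (unfold perp; decide)

/-- a flip does not change the cells away from its four cells -/
private theorem flip_off (T : Cell → ℕ) (c : Cell) (d e : ℕ) (x : Cell) (h1 : x ≠ c) (h2 : x ≠ nb c d)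
    (h3 : x ≠ nb c e) (h4 : x ≠ nb (nb c d) e) : FT3D.flip T c d e x = T x := by
  unfold FT3D.flip
  rw [if_neg h1, if_neg h2, if_neg h3, if_neg h4]

/-- the compound step for dimers in the levels 0 and 3 -/
private theorem flat_ends_step (hT : Til 4 m n T) {k : ℕ} (hk : k = 1 ∨ k = 3) {x y : ℤ}
    (a0 : T (x, y, 0) = k) (a3 : T (x, y, 3) = k) (a1 : T (x, y, 1) = 5)
    (a1' : T (nb (x, y, 1) k) = 5) :
    ∃ T', Conn T T' ∧ Til 4 m n T' ∧ (∀ i j, ht 4 T' i j = ht 4 T i j) ∧
      (hor 4 m n T' : ℤ) = hor 4 m n T - 4 := by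
  have hd : k = 1 ∨ k = 3 ∨ k = 5 := by omega
  have hk5 : k ≠ 5 := by omega
  have c1 : CanFlip T (x, y, 1) 5 k := ⟨(perp5 hk).1, a1, a1'⟩
  set T1 := FT3D.flip T (x, y, 1) 5 k with hT1
  have t1 := til_flip hT c1
  have e0 : T1 (x, y, 0) = k := by
    rw [hT1, flip_off]
    · exact a0
    · simp
    · rw [nb5]; simp
    · rcases hk with rfl | rfl
      · rw [nb1]; simp
      · rw [nb3]; simp
    · rw [nb5]
      rcases hk with rfl | rfl
      · rw [nb1]; simp
      · rw [nb3]; simp
  have e1 : T1 (x, y, 1) = k := by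
    rw [hT1]; unfold FT3D.flip; rw [if_pos rfl]
  have e2 : T1 (x, y, 2) = k := by
    rw [hT1]; unfold FT3D.flip; rw [nb5, if_neg (by simp), if_pos (by norm_num)]
  have e3 : T1 (x, y, 3) = k := by
    rw [hT1, flip_off]
    · exact a3
    · simp
    · rw [nb5]; simp
    · rcases hk with rfl | rfl
      · rw [nb1]; simp
      · rw [nb3]; simp
    · rw [nb5]
      rcases hk with rfl | rfl
      · rw [nb1]; simp
      · rw [nb3]; simp
  have c2 : CanFlip T1 (x, y, 0) k 5 := ⟨(perp5 hk).2, e0, by rw [nb5]; norm_num; exact e1⟩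
  set T2 := FT3D.flip T1 (x, y, 0) k 5 with hT2
  have t2 := til_flip t1 c2
  have f2 : T2 (x, y, 2) = k := by
    rw [hT2, flip_off]
    · exact e2
    · simp
    · rcases hk with rfl | rfl
      · rw [nb1]; simp
      · rw [nb3]; simp
    · rw [nb5]; simp
    · rcases hk with rfl | rfl
      · rw [nb1, nb5]; simp
      · rw [nb3, nb5]; simp
  have f3 : T2 (x, y, 3) = k := by
    rw [hT2, flip_off]
    · exact e3
    · simp
    · rcases hk with rfl | rfl
      · rw [nb1]; simp
      · rw [nb3]; simp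
    · rw [nb5]; simp
    · rcases hk with rfl | rfl
      · rw [nb1, nb5]; simp
      · rw [nb3, nb5]; simp
  have c3 : CanFlip T2 (x, y, 2) k 5 := ⟨(perp5 hk).2, f2, by rw [nb5]; norm_num; exact f3⟩
  have t3 := til_flip t2 c3
  refine ⟨FT3D.flip T2 (x, y, 2) k 5, ?_, t3, ?_, ?_⟩
  · refine Relation.ReflTransGen.head (Move.flip _ _ _ c1) ?_
    refine Relation.ReflTransGen.head (Move.flip _ _ _ c2) ?_
    exact Relation.ReflTransGen.head (Move.flip _ _ _ c3) Relation.ReflTransGen.refl
  · intro i j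
    rw [ht_flip_v t2 c3 hd (Or.inr (Or.inr rfl)) (Or.inr rfl),
      ht_flip_v t1 c2 hd (Or.inr (Or.inr rfl)) (Or.inr rfl),
      ht_flip_v hT c1 (Or.inr (Or.inr rfl)) hd (Or.inl rfl)]
  · have h1 := hor_flip hT c1 (Or.inr (Or.inr rfl)) hd
    have h2 := hor_flip t1 c2 hd (Or.inr (Or.inr rfl))
    have h3 := hor_flip t2 c3 hd (Or.inr (Or.inr rfl))
    rw [if_neg hk5, if_pos rfl] at h1
    rw [if_pos rfl] at h2 h3
    rw [h3, h2, h1]
    ring

/-- four levels: a tiling with zero projected height is joined to the vertical tiling -/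
theorem flat4 : ∀ (N : ℕ) (T : Cell → ℕ), hor 4 m n T = N → Til 4 m n T →
    (∀ i j, Cl m n i j → ht 4 T i j = 0) → Conn T (vert m n) := by
  intro N
  induction N using Nat.strong_induction_on with
  | _ N ih =>
    intro T hN hT hH
    have key : ∀ k : ℕ, (k = 1 ∨ k = 3) → ∀ c, T c = k → T (nb c 5) = k → Conn T (vert m n) := by
      intro k hk c h1 h2
      have hc : CanFlip T c k 5 := ⟨(perp5 hk).2, h1, h2⟩
      have hd : k = 1 ∨ k = 3 ∨ k = 5 := by omega
      have h3 := hor_flip hT hc hd (by decide)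
      rw [if_pos rfl] at h3
      refine Relation.ReflTransGen.head (Move.flip c k 5 hc)
        (ih (hor 4 m n (FT3D.flip T c k 5)) (by omega) _ rfl (til_flip hT hc) fun i j hij => ?_)
      rw [ht_flip_v hT hc hd (by decide) (Or.inr rfl)]
      exact hH i j hij
    by_cases h1 : ∃ c, T c = 1 ∧ T (nb c 5) = 1
    · obtain ⟨c, h, h'⟩ := h1
      exact key 1 (Or.inl rfl) c h h'
    by_cases h3 : ∃ c, T c = 3 ∧ T (nb c 5) = 3
    · obtain ⟨c, h, h'⟩ := h3
      exact key 3 (Or.inr rfl) c h h'
    have hs1 : ∀ c, ¬ (T c = 1 ∧ T (nb c 5) = 1) := fun c h => h1 ⟨c, h⟩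
    have hs3 : ∀ c, ¬ (T c = 3 ∧ T (nb c 5) = 3) := fun c h => h3 ⟨c, h⟩
    -- dimers in the directions 1 and 3
    have en : ∀ k : ℕ, (k = 1 ∨ k = 3) → ∀ x y z : ℤ, T (x, y, z) = k →
        (z = 0 ∨ z = 3) ∧ T (x, y, 0) = k ∧ T (x, y, 3) = k := by
      intro k hk x y z h
      have hb := bx_of_ne hT (c := (x, y, z)) (by rw [h]; omega)
      rcases hk with rfl | rfl
      · exact flat_ends hT (by decide) (flat_F1 hT hH hb.1 hb.2.1 hb.2.2.1 hb.2.2.2.1) hs1 h
      · exact flat_ends hT (by decide) (flat_F3 hH hb.1 hb.2.1 hb.2.2.1 hb.2.2.2.1) hs3 h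
    -- the middle levels carry vertical dimers only
    have mid : ∀ x y z : ℤ, (z = 1 ∨ z = 2) → Bx 4 m n (x, y, z) → T (x, y, z) = 5 ∨ T (x, y, z) = 6 := by
      intro x y z hz hb
      have hr := hT.rng _ hb
      have n1 : T (x, y, z) ≠ 1 := by
        intro h
        have := (en 1 (Or.inl rfl) x y z h).1
        omega
      have n3 : T (x, y, z) ≠ 3 := by
        intro h
        have := (en 3 (Or.inr rfl) x y z h).1
        omega
      have n2 : T (x, y, z) ≠ 2 := by
        intro h
        have h2 := hT.inv _ hb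
        rw [h, nb2] at h2
        have := (en 1 (Or.inl rfl) _ _ z h2).1
        omega
      have n4 : T (x, y, z) ≠ 4 := by
        intro h
        have h2 := hT.inv _ hb
        rw [h, nb4] at h2
        have := (en 3 (Or.inr rfl) _ _ z h2).1
        omega
      omega
    -- a column whose bottom cell is not vertical has a vertical dimer in the middle
    have md : ∀ x y : ℤ, Bx 4 m n (x, y, 0) → T (x, y, 0) ≠ 5 → T (x, y, 1) = 5 := by
      intro x y hb h
      have hb1 : Bx 4 m n (x, y, 1) := ⟨hb.1, hb.2.1, hb.2.2.1, hb.2.2.2.1, by norm_num, by norm_num⟩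
      rcases mid x y 1 (Or.inl rfl) hb1 with h2 | h2
      · exact h2
      · exfalso
        have h4 := hT.inv _ hb1
        rw [h2, nb6] at h4
        norm_num at h4
        exact h h4
    by_cases hk : ∃ x y z : ℤ, ∃ k : ℕ, (k = 1 ∨ k = 3) ∧ T (x, y, z) = k
    · obtain ⟨x, y, z, k, hk, h⟩ := hk
      obtain ⟨-, a0, a3⟩ := en k hk x y z h
      have hb0 := bx_of_ne hT (c := (x, y, 0)) (by rw [a0]; omega)
      have a1 := md x y hb0 (by rw [a0]; omega)
      have a1' : T (nb (x, y, 1) k) = 5 := by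
        have hm := hT.mem _ hb0
        have hi := hT.inv _ hb0
        rcases hk with rfl | rfl
        · rw [a0, nb1] at hm hi
          rw [nb1]
          refine md _ _ hm ?_
          rw [hi]
          decide
        · rw [a0, nb3] at hm hi
          rw [nb3]
          refine md _ _ hm ?_
          rw [hi]
          decide
      obtain ⟨T', hC, hT', hh, hh'⟩ := flat_ends_step hT hk a0 a3 a1 a1'
      exact conn_trans hC (ih (hor 4 m n T') (by omega) T' rfl hT' fun i j hij => by
        rw [hh]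
        exact hH i j hij)
    · have hv : ∀ c, Bx 4 m n c → T c = 5 ∨ T c = 6 := by
        rintro ⟨x, y, z⟩ hb
        have hr := hT.rng _ hb
        have n1 : T (x, y, z) ≠ 1 := fun h => hk ⟨x, y, z, 1, Or.inl rfl, h⟩
        have n3 : T (x, y, z) ≠ 3 := fun h => hk ⟨x, y, z, 3, Or.inr rfl, h⟩
        have n2 : T (x, y, z) ≠ 2 := by
          intro h
          have h2 := hT.inv _ hb
          rw [h, nb2] at h2
          exact hk ⟨_, _, z, 1, Or.inl rfl, h2⟩
        have n4 : T (x, y, z) ≠ 4 := by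
          intro h
          have h2 := hT.inv _ hb
          rw [h, nb4] at h2
          exact hk ⟨_, _, z, 3, Or.inr rfl, h2⟩
        omega
      rw [← flat_end hT hv]
      exact Relation.ReflTransGen.refl

/-- the height is zero on the boundary, `J` even -/
theorem ht_bd_even {J : ℕ} (hJ : J % 2 = 0) (hT : Til J m n T) {i j : ℤ} (hC : Cl m n i j)
    (hb : i = 0 ∨ i = m ∨ j = 0 ∨ j = n) : ht J T i j = 0 := by
  obtain ⟨hi, hi', hj, hj'⟩ := hC
  have hep := Height2_aux.ep_even hJ
  have hz : ∀ j : ℤ, ht J T 0 j = 0 := by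
    intro j
    unfold ht
    rw [hep, Finset.Ico_self, Finset.sum_empty, add_zero]
    exact Finset.sum_eq_zero fun y _ => zero_mul _
  have hrow : ∀ j : ℤ, (∀ x : ℤ, Fl J T 3 x (j - 1) = 0) → ∀ i : ℤ, ht J T i j = 0 := by
    intro j hF i
    unfold ht
    rw [hep, Finset.sum_eq_zero fun y _ => zero_mul _, zero_add]
    refine Finset.sum_eq_zero fun x _ => ?_
    rw [hF x]
    ring
  have h0 : ∀ i : ℤ, ht J T i 0 = 0 := hrow 0 fun x => Fl_out hT 3 (Or.inr rfl) (by omega)
  rcases hb with hb | hb | hb | hb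
  · rw [hb]
    exact hz j
  · rw [hb]
    rw [hb] at hi hi'
    have h1 : ∀ j : ℤ, 0 ≤ j → j ≤ n → ht J T m j = 0 := by
      intro j hj
      refine Int.leInduction (motive := fun j _ => j ≤ n → ht J T m j = 0) ?_ ?_ j hj
      · intro _
        exact h0 m
      · intro j hj ih hjn
        have h2 : Fl J T 1 (m - 1) j = 0 := by
          refine Fl_out' hT 1 (Or.inl rfl) ?_
          have h3 : dX 1 = 1 := rfl
          rw [h3]
          omega
        rw [ht_N hT hi le_rfl hj (by omega), ih (by omega), h2, hep]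
        ring
    exact h1 j hj hj'
  · rw [hb]
    exact h0 i
  · rw [hb]
    refine hrow n (fun x => ?_) i
    refine Fl_out' hT 3 (Or.inr rfl) ?_
    have h3 : dY 3 = 1 := rfl
    rw [h3]
    omega

end Pool.Agent.FT4D
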