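import Pool.Agent.FT4D.Desc
import Pool.Agent.FT4D.Flat4

/-!
# Four levels: the global argument
-/

namespace Pool.Agent.FT4D

open Pool.Agent.FT3D

variable {m n : ℤ} {T : Cell → ℕ}

/-- the relative height with sign -/
noncomputable def rh (T : Cell → ℕ) (s gi gj : ℤ) (T' : Cell → ℕ) (i j : ℤ) : ℤ :=
  s * (ht 4 T' i j - ht 4 T gi gj)

/-- the situation at a maximal vertex `g` of `s * ht` -/
structure SitA (ori : ℕ) (fl : Bool) (m n : ℤ) (T : Cell → ℕ) (s gi gj : ℤ) : Prop where
  til : Til 4 m n T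
  s1 : s = 1 ∨ s = -1
  hi : 0 < gi ∧ gi < m
  hj : 0 < gj ∧ gj < n
  ori : s * sg (gi - 1) gj = if ori = 0 then 1 else -1
  up : ∀ i j, Cl m n i j → rh T s gi gj T i j ≤ 0
  flo : fl = true → ∀ i j, Cl m n i j → -4 ≤ rh T s gi gj T i j

/-- stage 1: `g` is the maximal vertex of largest rank -/
structure GSit1 (ori : ℕ) (fl : Bool) (m n : ℤ) (T : Cell → ℕ) (s gi gj : ℤ) : Prop extends
    SitA ori fl m n T s gi gj where
  bef : ∀ i j, Cl m n i j → rnk m (gi, gj) < rnk m (i, j) → rh T s gi gj T i j < 0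

/-- stage 2: `g` is a maximal vertex of the type `Ty`, the vertices `g + (-1,-1)` and `g + (1,-1)` are not -/
structure GSit2 (Ty : (Cell → ℕ) → ℤ → ℤ → Prop) (ori : ℕ) (fl : Bool) (m n : ℤ) (T : Cell → ℕ)
    (s gi gj : ℤ) : Prop extends SitA ori fl m n T s gi gj where
  typ : Ty T gi gj
  low : ∀ d : ℤ, (d = -1 ∨ d = 1) → rh T s gi gj T (gi + d) (gj - 1) = 0 → ¬ Ty T (gi + d) (gj - 1)

/-- a reduction -/
def Red (fl : Bool) (m n : ℤ) (T : Cell → ℕ) (s gi gj : ℤ) : Prop :=
  ∃ T', Til 4 m n T' ∧ Conn T T' ∧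
    (∀ i j, Cl m n i j → min (rh T s gi gj T i j) (if fl then -4 else -8) ≤ rh T s gi gj T' i j) ∧
    ((∃ i0 j0, Cl m n i0 j0 ∧ rh T s gi gj T i0 j0 = 0 ∧ rh T s gi gj T' i0 j0 < 0 ∧
        ∀ i j, Cl m n i j → (i, j) ≠ (i0, j0) → rh T s gi gj T' i j ≤
          max (rh T s gi gj T i j) (if rnk m (i0, j0) < rnk m (i, j) then -1 else 0)) ∨
      ((∀ i j, Cl m n i j → rh T s gi gj T' i j ≤ max (rh T s gi gj T i j) (-1)) ∧
        hor 4 m n T' < hor 4 m n T))

/-- the two local lemmas -/
def LocAt (Ty : ℕ → (Cell → ℕ) → ℤ → ℤ → Prop) (ori : ℕ) (fl : Bool) (A : Finset ℕ) : Prop :=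
  (∀ (m n : ℤ) (T : Cell → ℕ) (s gi gj : ℤ), GSit1 ori fl m n T s gi gj →
    Red fl m n T s gi gj ∨ ∃ t ∈ A, Ty t T gi gj) ∧
  ∀ t ∈ A, ∀ (m n : ℤ) (T : Cell → ℕ) (s gi gj : ℤ), GSit2 (Ty t) ori fl m n T s gi gj →
    Red fl m n T s gi gj

/-- the outcome of a reduction in terms of `s * ht` -/
private theorem red_out {fl : Bool} {s gi gj h : ℤ} (hg : s * ht 4 T gi gj = h)
    (hh : ∀ i j, Cl m n i j → s * ht 4 T i j ≤ h) (hR : Red fl m n T s gi gj) :
    ∃ T', Til 4 m n T' ∧ Conn T T' ∧
      (∀ i j, Cl m n i j → min (s * ht 4 T i j) (h + if fl then -4 else -8) ≤ s * ht 4 T' i j) ∧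
      (∀ i j, Cl m n i j → s * ht 4 T' i j ≤ h) ∧
      (wt m n h (fun i j => s * ht 4 T' i j) < wt m n h (fun i j => s * ht 4 T i j) ∨
        (wt m n h (fun i j => s * ht 4 T' i j) ≤ wt m n h (fun i j => s * ht 4 T i j) ∧
          hor 4 m n T' < hor 4 m n T)) := by
  obtain ⟨T', hT', hc, hlow, hcase⟩ := hR
  have e : ∀ (X : Cell → ℕ) (i j : ℤ), rh T s gi gj X i j = s * ht 4 X i j - h := by
    intro X i j
    unfold rh
    rw [mul_sub, hg]
  simp only [e] at hlow hcase
  refine ⟨T', hT', hc, ?_, ?_, ?_⟩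
  · intro i j hij
    have h1 := hlow i j hij
    have h2 : min (s * ht 4 T i j) (h + if fl then -4 else -8) =
        min (s * ht 4 T i j - h) (if fl then -4 else -8) + h := by
      rw [← min_add_add_right]
      congr 1 <;> ring
    rw [h2]
    linarith
  · intro i j hij
    have h2 := hh i j hij
    rcases hcase with ⟨i0, j0, c0, a0, b0, hall⟩ | ⟨hall, -⟩
    · by_cases he : (i, j) = (i0, j0)
      · rw [Prod.mk.injEq] at he
        rw [he.1, he.2]
        linarith
      · have h3 := hall i j hij he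
        have h4 : max (s * ht 4 T i j - h) (if rnk m (i0, j0) < rnk m (i, j) then -1 else 0) ≤ 0 := by
          refine max_le (by linarith) ?_
          split_ifs <;> norm_num
        linarith
    · have h3 := hall i j hij
      have h4 : max (s * ht 4 T i j - h) (-1) ≤ 0 := max_le (by linarith) (by norm_num)
      linarith
  · rcases hcase with ⟨i0, j0, c0, a0, b0, hall⟩ | ⟨hall, hhor⟩
    · refine Or.inl (wt_lt (p0 := (i0, j0)) ?_ ?_ ?_)
      · exact mem_mx.2 ⟨c0, by show s * ht 4 T i0 j0 = h; linarith⟩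
      · intro hp
        have h1 : s * ht 4 T' i0 j0 = h := (mem_mx.1 hp).2
        linarith
      · rintro ⟨i, j⟩ hp hlt
        obtain ⟨c1, h1⟩ := mem_mx.1 hp
        have h1' : s * ht 4 T' i j = h := h1
        refine mem_mx.2 ⟨c1, ?_⟩
        show s * ht 4 T i j = h
        have hne : (i, j) ≠ (i0, j0) := by
          intro he
          rw [he] at hlt
          exact lt_irrefl _ hlt
        have h3 := hall i j c1 hne
        rw [if_pos hlt] at h3
        have h4 := hh i j c1
        rcases le_max_iff.1 h3 with h5 | h5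
        · linarith
        · linarith
    · refine Or.inr ⟨wt_mono ?_, hhor⟩
      rintro ⟨i, j⟩ hp
      obtain ⟨c1, h1⟩ := mem_mx.1 hp
      have h1' : s * ht 4 T' i j = h := h1
      refine mem_mx.2 ⟨c1, ?_⟩
      show s * ht 4 T i j = h
      have h3 := hall i j c1
      have h4 := hh i j c1
      rcases le_max_iff.1 h3 with h5 | h5
      · linarith
      · linarith

/-- one step of the descent -/
private theorem step (Ty : ℕ → (Cell → ℕ) → ℤ → ℤ → Prop) {fl : Bool} {A B : Finset ℕ}
    (hA : LocAt Ty 0 fl A) (hB : LocAt Ty 1 fl B) {s h : ℤ} (hs : s = 1 ∨ s = -1) (h1 : 1 ≤ h)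
    (hT : Til 4 m n T) (hh : ∀ i j, Cl m n i j → s * ht 4 T i j ≤ h)
    (hfl : fl = true → ∀ i j, Cl m n i j → h - 4 ≤ s * ht 4 T i j)
    (hex : ∃ i j, Cl m n i j ∧ s * ht 4 T i j = h) :
    ∃ T', Til 4 m n T' ∧ Conn T T' ∧
      (∀ i j, Cl m n i j → min (s * ht 4 T i j) (h + if fl then -4 else -8) ≤ s * ht 4 T' i j) ∧
      (∀ i j, Cl m n i j → s * ht 4 T' i j ≤ h) ∧
      (wt m n h (fun i j => s * ht 4 T' i j) < wt m n h (fun i j => s * ht 4 T i j) ∨
        (wt m n h (fun i j => s * ht 4 T' i j) ≤ wt m n h (fun i j => s * ht 4 T i j) ∧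
          hor 4 m n T' < hor 4 m n T)) := by
  classical
  set S := mx m n h (fun i j => s * ht 4 T i j) with hS
  have hSne : S.Nonempty := by
    obtain ⟨i, j, hc, hij⟩ := hex
    exact ⟨(i, j), mem_mx.2 ⟨hc, hij⟩⟩
  obtain ⟨⟨gi, gj⟩, hg, htop⟩ := Finset.exists_max_image S (rnk m) hSne
  -- facts about every maximal vertex
  have hint : ∀ p ∈ S, (0 < p.1 ∧ p.1 < m) ∧ (0 < p.2 ∧ p.2 < n) := by
    rintro ⟨i, j⟩ hp
    obtain ⟨hc, h2⟩ := mem_mx.1 hp
    have h2' : s * ht 4 T i j = h := h2
    by_contra hcon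
    have h3 : ht 4 T i j = 0 := by
      refine ht_bd_even (by norm_num) hT hc ?_
      obtain ⟨a, b, c, d⟩ := hc
      simp only at a b c d hcon
      omega
    rw [h3, mul_zero] at h2'
    omega
  have hsit : ∀ p ∈ S, ∀ o : ℕ, (s * sg (p.1 - 1) p.2 = if o = 0 then 1 else -1) →
      SitA o fl m n T s p.1 p.2 := by
    rintro ⟨i, j⟩ hp o ho
    have h2 : s * ht 4 T i j = h := (mem_mx.1 hp).2
    refine ⟨hT, hs, (hint _ hp).1, (hint _ hp).2, ho, ?_, ?_⟩
    · intro i' j' hc
      unfold rh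
      show s * (ht 4 T i' j' - ht 4 T i j) ≤ 0
      rw [mul_sub, h2]
      have := hh i' j' hc
      linarith
    · intro hf i' j' hc
      unfold rh
      show -4 ≤ s * (ht 4 T i' j' - ht 4 T i j)
      rw [mul_sub, h2]
      have := hfl hf i' j' hc
      linarith
  have hgh : s * ht 4 T gi gj = h := (mem_mx.1 hg).2
  -- the argument for one orientation
  have main : ∀ (o : ℕ) (C : Finset ℕ), LocAt Ty o fl C →
      (s * sg (gi - 1) gj = if o = 0 then 1 else -1) → ∃ ki kj, s * ht 4 T ki kj = h ∧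
        Red fl m n T s ki kj := by
    intro o C hC ho
    have hsg := hsit _ hg o ho
    have hs1 : GSit1 o fl m n T s gi gj := by
      refine ⟨hsg, ?_⟩
      intro i j hc hlt
      unfold rh
      rw [mul_sub, hgh]
      have h2 := hh i j hc
      by_contra hcon
      have h3 : (i, j) ∈ S := mem_mx.2 ⟨hc, by show s * ht 4 T i j = h; linarith⟩
      have h4 := htop _ h3
      omega
    rcases hC.1 m n T s gi gj hs1 with hR | ⟨t, ht1, ht2⟩
    · exact ⟨gi, gj, hgh, hR⟩
    · -- the lowest maximal vertex of the type `t` and the same orientation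
      set R := S.filter fun p => Ty t T p.1 p.2 ∧ (s * sg (p.1 - 1) p.2 = if o = 0 then 1 else -1)
        with hR
      have hRne : R.Nonempty := ⟨(gi, gj), Finset.mem_filter.2 ⟨hg, ht2, ho⟩⟩
      obtain ⟨⟨ki, kj⟩, hk, hbot⟩ := Finset.exists_min_image R (fun p => p.2) hRne
      obtain ⟨hkS, hkt, hko⟩ := Finset.mem_filter.1 hk
      have hkh : s * ht 4 T ki kj = h := (mem_mx.1 hkS).2
      have hki := hint _ hkS
      simp only at hki
      refine ⟨ki, kj, hkh, hC.2 t ht1 m n T s ki kj ⟨hsit _ hkS o hko, hkt, ?_⟩⟩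
      intro d hd h0 hty
      have hcl : Cl m n (ki + d) (kj - 1) := by
        obtain ⟨⟨a, b⟩, c, e⟩ := hki
        refine ⟨by omega, by omega, by omega, by omega⟩
      have h5 : s * ht 4 T (ki + d) (kj - 1) = h := by
        unfold rh at h0
        rw [mul_sub, hkh] at h0
        linarith
      have h6 : sg (ki + d - 1) (kj - 1) = sg (ki - 1) kj := by
        unfold sg
        have h7 : Even (ki + d - 1 + (kj - 1)) ↔ Even (ki - 1 + kj) := by
          rw [Int.even_iff, Int.even_iff]
          omega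
        rw [if_congr h7 rfl rfl]
      have h8 : (ki + d, kj - 1) ∈ R := by
        refine Finset.mem_filter.2 ⟨mem_mx.2 ⟨hcl, h5⟩, hty, ?_⟩
        show s * sg (ki + d - 1) (kj - 1) = _
        rw [h6]
        exact hko
      have h9 := hbot _ h8
      simp only at h9
      omega
  have hor1 : s * sg (gi - 1) gj = 1 ∨ s * sg (gi - 1) gj = -1 := by
    rcases hs with rfl | rfl <;> rcases sg_one (gi - 1) gj with h2 | h2 <;> rw [h2] <;> norm_num
  rcases hor1 with h2 | h2
  · obtain ⟨ki, kj, h3, h4⟩ := main 0 A hA (by rw [h2]; simp)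
    exact red_out h3 hh h4
  · obtain ⟨ki, kj, h3, h4⟩ := main 1 B hB (by rw [h2]; simp)
    exact red_out h3 hh h4

/-- four levels: every tiling is joined to the vertical tiling, from the local lemmas -/
theorem glob4 (Ty : ℕ → (Cell → ℕ) → ℤ → ℤ → Prop) {A B A' B' : Finset ℕ}
    (hA : LocAt Ty 0 false A) (hB : LocAt Ty 1 false B) (hA' : LocAt Ty 0 true A')
    (hB' : LocAt Ty 1 true B') (hT : Til 4 m n T) : Conn T (vert m n) := by
  -- step A: all heights `≤ 0`
  have stepA : ∀ (h : ℕ) (T : Cell → ℕ), Til 4 m n T → (∀ i j, Cl m n i j → 1 * ht 4 T i j ≤ (h : ℤ)) →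
      ∃ T', Til 4 m n T' ∧ Conn T T' ∧ ∀ i j, Cl m n i j → ht 4 T' i j ≤ 0 := by
    intro h
    induction h with
    | zero =>
      intro T hT hh
      exact ⟨T, hT, Relation.ReflTransGen.refl, fun i j hc => by
        have := hh i j hc
        push_cast at this
        linarith⟩
    | succ h ih =>
      intro T hT hh
      obtain ⟨T1, a1, a2, -, a4⟩ := desc (J := 4) (m := m) (n := n) ((h : ℤ) + 1)
        (fun T i j => 1 * ht 4 T i j) (fun _ => True) (by
          intro T hT _ hh hex
          obtain ⟨T', b1, b2, -, b4, b5⟩ := step Ty hA hB (Or.inl rfl) (by omega) hT hh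
            (fun hf => by simp at hf) hex
          exact ⟨T', b1, b2, trivial, b4, b5⟩) T hT trivial (by
          intro i j hc
          have := hh i j hc
          push_cast at this
          exact this)
      obtain ⟨T2, c1, c2, c3⟩ := ih T1 a1 (by
        intro i j hc
        have := a4 i j hc
        linarith)
      exact ⟨T2, c1, conn_trans a2 c2, c3⟩
  -- step B: all heights `≥ 0`, keeping `≤ 0`
  have stepB : ∀ (h : ℕ) (T : Cell → ℕ), Til 4 m n T → (∀ i j, Cl m n i j → ht 4 T i j ≤ 0) →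
      (∀ i j, Cl m n i j → (-1) * ht 4 T i j ≤ (h : ℤ)) →
      ∃ T', Til 4 m n T' ∧ Conn T T' ∧ ∀ i j, Cl m n i j → ht 4 T' i j = 0 := by
    intro h
    induction h with
    | zero =>
      intro T hT hI hh
      refine ⟨T, hT, Relation.ReflTransGen.refl, fun i j hc => ?_⟩
      have h1 := hI i j hc
      have h2 := hh i j hc
      push_cast at h2
      linarith
    | succ h ih =>
      intro T hT hI hh
      obtain ⟨T1, a1, a2, a3, a4⟩ := desc (J := 4) (m := m) (n := n) ((h : ℤ) + 1)
        (fun T i j => (-1) * ht 4 T i j) (fun T => ∀ i j, Cl m n i j → ht 4 T i j ≤ 0) (by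
          intro T hT hI hh hex
          -- the height is a multiple of four
          have h4 : ∃ k : ℤ, (h : ℤ) + 1 = 4 * k := by
            obtain ⟨i, j, hc, hij⟩ := hex
            obtain ⟨k, hk⟩ := ht_res_even (J := 4) (by norm_num) T i j
            exact ⟨-k, by rw [hk] at hij; linarith⟩
          obtain ⟨k, hk⟩ := h4
          by_cases h8 : (h : ℤ) + 1 = 4
          · obtain ⟨T', b1, b2, b3, b4, b5⟩ := step Ty hA' hB' (Or.inr rfl) (by omega) hT hh
              (fun _ i j hc => by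
                have := hI i j hc
                linarith) hex
            refine ⟨T', b1, b2, ?_, b4, b5⟩
            intro i j hc
            have h1 := b3 i j hc
            have h2 := hI i j hc
            rw [if_pos rfl] at h1
            rcases min_le_iff.1 h1 with h3 | h3 <;> linarith
          · obtain ⟨T', b1, b2, b3, b4, b5⟩ := step Ty hA hB (Or.inr rfl) (by omega) hT hh
              (fun hf => by simp at hf) hex
            refine ⟨T', b1, b2, ?_, b4, b5⟩
            intro i j hc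
            have h1 := b3 i j hc
            have h2 := hI i j hc
            rw [if_neg (by simp)] at h1
            have h9 : 8 ≤ (h : ℤ) + 1 := by omega
            rcases min_le_iff.1 h1 with h3 | h3 <;> linarith) T hT hI (by
          intro i j hc
          have := hh i j hc
          push_cast at this
          exact this)
      obtain ⟨T2, c1, c2, c3⟩ := ih T1 a1 a3 (by
        intro i j hc
        have := a4 i j hc
        linarith)
      exact ⟨T2, c1, conn_trans a2 c2, c3⟩
  obtain ⟨h, hh⟩ := exists_bound m n (fun i j => 1 * ht 4 T i j)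
  obtain ⟨T1, a1, a2, a3⟩ := stepA h T hT hh
  obtain ⟨h', hh'⟩ := exists_bound m n (fun i j => (-1) * ht 4 T1 i j)
  obtain ⟨T2, b1, b2, b3⟩ := stepB h' T1 a1 a3 hh'
  exact conn_trans a2 (conn_trans b2 (flat4 _ T2 rfl b1 b3))

end Pool.Agent.FT4D
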