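import Pool.Agent.FT3D.SoundF

/-!
# Four levels: the two local lemmas, statements
-/

namespace Pool.Agent.FT4D

open Pool.Agent.FT3D

/-- the order of the vertices: higher rows first, then from the left -/
def rk4 (m i j : ℤ) : ℤ := j * (m + 1) - i

/-- place of the dimer of level `z` around a vertex of type `t`: `0` right, `1` top, `2` left, `3` bottom -/
def plc (t z : ℕ) : ℕ :=
  if t = 1 then (if z = 0 then 0 else if z = 1 then 1 else if z = 2 then 2 else 3)
  else if t = 2 then (if z = 0 then 2 else if z = 1 then 1 else if z = 2 then 0 else 3)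
  else if t = 7 then (if z = 0 then 3 else if z = 1 then 2 else if z = 2 then 1 else 0)
  else (if z = 0 then 3 else if z = 1 then 0 else if z = 2 then 1 else 2)

/-- the vertex `(i,j)` has the type `t` -/
def HasTyp (T : Cell → ℕ) (t : ℕ) (i j : ℤ) : Prop :=
  ∀ z : ℕ, z < 4 → (plc t z = 0 → T (i, j - 1, (z : ℤ)) = 3) ∧ (plc t z = 1 → T (i - 1, j, (z : ℤ)) = 1) ∧
    (plc t z = 2 → T (i - 1, j - 1, (z : ℤ)) = 3) ∧ (plc t z = 3 → T (i - 1, j - 1, (z : ℤ)) = 1)

/-- the types that occur for an orientation -/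
def typs (ori : ℕ) : List ℕ := if ori = 0 then [1, 2] else [7, 8]

/-- the situation at a maximum of `s * ht` of type `t` such that the vertices south west and south east are not
maxima of the same type -/
structure Sit2 (P : Par) (t : ℕ) (m n : ℤ) (T : Cell → ℕ) (s gi gj : ℤ) : Prop where
  til : Til P.J m n T
  s1 : s = 1 ∨ s = -1
  hi : 0 < gi ∧ gi < m
  hj : 0 < gj ∧ gj < n
  ori : s * sg (gi - 1) gj = if P.ori = 0 then 1 else -1
  up : ∀ i j, Cl m n i j → s * (ht P.J T i j - ht P.J T gi gj) ≤ 0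
  flo : P.deep = false → ∀ i j, Cl m n i j →
    flI P (i - gi) (j - gj) ≤ s * (ht P.J T i j - ht P.J T gi gj)
  typ : HasTyp T t gi gj
  low : ∀ a : ℤ, a = 1 ∨ a = -1 → 0 < gi + a → gi + a < m → 0 < gj - 1 →
    s * (ht P.J T (gi + a) (gj - 1) - ht P.J T gi gj) = 0 → ¬ HasTyp T t (gi + a) (gj - 1)

/-- the conclusion of the local lemmas: flips and trits near `g` lower a maximal vertex `(a,b)` and create no
maximal vertex of larger rank, or create no maximal vertex and reduce the number of horizontal dimers -/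
def Concl4 (P : Par) (m n : ℤ) (T : Cell → ℕ) (s gi gj : ℤ) : Prop :=
  ∃ T', Til P.J m n T' ∧ Conn T T' ∧
    (∀ i j, Cl m n i j → min (s * (ht P.J T i j - ht P.J T gi gj)) (flI P (i - gi) (j - gj)) ≤
      s * (ht P.J T' i j - ht P.J T gi gj)) ∧
    ((∃ a b, Cl m n a b ∧ s * (ht P.J T a b - ht P.J T gi gj) = 0 ∧
      s * (ht P.J T' a b - ht P.J T gi gj) < 0 ∧
      ∀ i j, Cl m n i j → s * (ht P.J T' i j - ht P.J T gi gj) ≤
        max (s * (ht P.J T i j - ht P.J T gi gj)) (if rk4 m a b < rk4 m i j then -1 else 0)) ∨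
     ((∀ i j, Cl m n i j → s * (ht P.J T' i j - ht P.J T gi gj) ≤
        max (s * (ht P.J T i j - ht P.J T gi gj)) (-1)) ∧ hor P.J m n T' < hor P.J m n T))

/-- first local lemma: at the highest ranked maximum (situation `Sit`) -/
def LL1 (P : Par) : Prop :=
  ∀ (m n : ℤ) (T : Cell → ℕ) (s gi gj : ℤ), Sit P m n T s gi gj →
    Concl4 P m n T s gi gj ∨ ∃ t ∈ typs P.ori, HasTyp T t gi gj

/-- second local lemma -/
def LL2 (P : Par) : Prop :=
  ∀ t ∈ typs P.ori, ∀ (m n : ℤ) (T : Cell → ℕ) (s gi gj : ℤ), Sit2 P t m n T s gi gj →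
    Concl4 P m n T s gi gj

end Pool.Agent.FT4D
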