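import Pool.Agent.FT4D.Check4

/-!
# Soundness of the checker with a hull: steps, paths, bounds
-/

namespace Pool.Agent.FT4D

open Pool.Agent.FT3D

variable {gi gj : ℤ} {P : Par} {st : Bool} {t : ℕ} {m n : ℤ} {T : Cell → ℕ} {K : List (ℕ × ℕ)} {H : Hu} {s : ℤ}

theorem inH_sound (hH : Hin m n gi gj H) {v : ℕ} (h : inH H v = true) : ColIn m n gi gj v := by
  simp only [inH, Bool.and_eq_true, Nat.ble_eq] at h
  obtain ⟨h1, h2, h3, h4⟩ := hH
  unfold ColIn px py
  omega

theorem stpE4 (hJ : P.J < 8) (hT : Til P.J m n T) (hA : Agree gi gj T K) (hH : Hin m n gi gj H) (hO : P.ori = 0 ∨ P.ori = 1) {s : ℤ} (hs : s = 1 ∨ s = -1)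
    (ho : s * sg (gi - 1) gj = if P.ori = 0 then 1 else -1) {v : ℕ} (hv1 : 1 ≤ v % 16) {r : ℤ × ℤ}
    (h : stp4 P K H v 1 = some r) :
    Vin m n gi gj v ∧ Vin m n gi gj (v + 16) ∧
      r.1 ≤ s * (hv P T gi gj (v + 16) - hv P T gi gj v) ∧
      s * (hv P T gi gj (v + 16) - hv P T gi gj v) ≤ r.2 := by
  have p1 : px gi (v + 16) = px gi v + 1 := by unfold px; omega
  have p2 : py gj (v + 16) = py gj v := by unfold py; omega
  have p3 : px gi (v - 1) = px gi v := by unfold px; omega
  have p4 : py gj (v - 1) = py gj v - 1 := by unfold py; omega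
  have hc : inH H v = true ∨ inH H (v - 1) = true := by
    by_contra hn
    push Not at hn
    simp only [stp4, Bool.cond_eq_ite, Nat.beq_eq, if_true] at h
    rw [if_neg (by simp [hn.1, hn.2])] at h
    exact absurd h (by simp)
  have hcl : 0 ≤ px gi v ∧ px gi v < m ∧ 0 ≤ py gj v ∧ py gj v ≤ n := by
    rcases hc with hc | hc
    · have := inH_sound hH hc
      unfold ColIn at this
      omega
    · have := inH_sound hH hc
      unfold ColIn at this
      rw [p3, p4] at this
      omega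
  refine ⟨⟨hcl.1, hcl.2.1.le, hcl.2.2.1, hcl.2.2.2⟩, ?_, ?_⟩
  · unfold Vin Cl
    rw [p1, p2]
    omega
  have hr : r = (min (sgc P v * (4 * (rng K (v - 1) v 3 P.J).1 - ep P.J))
      (sgc P v * (4 * (rng K (v - 1) v 3 P.J).2 - ep P.J)),
      max (sgc P v * (4 * (rng K (v - 1) v 3 P.J).1 - ep P.J))
      (sgc P v * (4 * (rng K (v - 1) v 3 P.J).2 - ep P.J))) := by
    simp only [stp4, Bool.cond_eq_ite, Nat.beq_eq, if_true] at h
    rw [if_pos (by simpa using hc)] at h
    exact (Option.some.inj h).symm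
  have hpq : ∀ z < 8, cellOf gi gj (8 * v + z) = nb (cellOf gi gj (8 * (v - 1) + z)) 3 := by
    intro z hz
    rw [cellOf_col v z hz, cellOf_col (v - 1) z hz, p3, p4]
    simp [nb, dX, dY, dZ]
  have hF := rng_sound hT hA (k := 3) (Or.inr rfl) hpq P.J (by omega)
  rw [p3, p4] at hF
  have hm := minmax (sgc_one P v) hF.1 hF.2 (ep P.J)
  have hE := ht_E P.J T (py gj v) hcl.1
  have hval : s * (hv P T gi gj (v + 16) - hv P T gi gj v) =
      sgc P v * (4 * Fl P.J T 3 (px gi v) (py gj v - 1) - ep P.J) := by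
    unfold hv
    rw [p1, p2, hE, sgc_eq hO hs ho]
    ring
  rw [hval, hr]
  exact hm

theorem stpN4 (hJ : P.J < 8) (hT : Til P.J m n T) (hA : Agree gi gj T K) (hH : Hin m n gi gj H) (hO : P.ori = 0 ∨ P.ori = 1) {s : ℤ} (hs : s = 1 ∨ s = -1)
    (ho : s * sg (gi - 1) gj = if P.ori = 0 then 1 else -1) {v : ℕ} (hv1 : 16 ≤ v)
    (hv2 : v % 16 ≤ 14) {r : ℤ × ℤ} (h : stp4 P K H v 3 = some r) :
    Vin m n gi gj v ∧ Vin m n gi gj (v + 1) ∧
      r.1 ≤ s * (hv P T gi gj (v + 1) - hv P T gi gj v) ∧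
      s * (hv P T gi gj (v + 1) - hv P T gi gj v) ≤ r.2 := by
  have p1 : px gi (v + 1) = px gi v := by unfold px; omega
  have p2 : py gj (v + 1) = py gj v + 1 := by unfold py; omega
  have p3 : px gi (v - 16) = px gi v - 1 := by unfold px; omega
  have p4 : py gj (v - 16) = py gj v := by unfold py; omega
  have hc : inH H v = true ∨ inH H (v - 16) = true := by
    by_contra hn
    push Not at hn
    simp only [stp4, Bool.cond_eq_ite, Nat.beq_eq] at h
    rw [if_neg (by decide), if_neg (by simp [hn.1, hn.2])] at h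
    exact absurd h (by simp)
  have hcl : 0 ≤ px gi v ∧ px gi v ≤ m ∧ 0 ≤ py gj v ∧ py gj v < n := by
    rcases hc with hc | hc
    · have := inH_sound hH hc
      unfold ColIn at this
      omega
    · have := inH_sound hH hc
      unfold ColIn at this
      rw [p3, p4] at this
      omega
  refine ⟨⟨hcl.1, hcl.2.1, hcl.2.2.1, hcl.2.2.2.le⟩, ?_, ?_⟩
  · unfold Vin Cl
    rw [p1, p2]
    omega
  have hr : r = (min (sgc P (v - 16) * (4 * (rng K (v - 16) v 1 P.J).1 - ep P.J))
      (sgc P (v - 16) * (4 * (rng K (v - 16) v 1 P.J).2 - ep P.J)),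
      max (sgc P (v - 16) * (4 * (rng K (v - 16) v 1 P.J).1 - ep P.J))
      (sgc P (v - 16) * (4 * (rng K (v - 16) v 1 P.J).2 - ep P.J))) := by
    simp only [stp4, Bool.cond_eq_ite, Nat.beq_eq] at h
    rw [if_neg (by decide), if_pos (by simpa using hc)] at h
    exact (Option.some.inj h).symm
  have hpq : ∀ z < 8, cellOf gi gj (8 * v + z) = nb (cellOf gi gj (8 * (v - 16) + z)) 1 := by
    intro z hz
    rw [cellOf_col v z hz, cellOf_col (v - 16) z hz, p3, p4]
    simp [nb, dX, dY, dZ]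
  have hF := rng_sound hT hA (k := 1) (Or.inl rfl) hpq P.J (by omega)
  rw [p3, p4] at hF
  have hm := minmax (sgc_one P (v - 16)) hF.1 hF.2 (ep P.J)
  have hN := ht_N hT hcl.1 hcl.2.1 hcl.2.2.1 hcl.2.2.2
  have hval : s * (hv P T gi gj (v + 1) - hv P T gi gj v) =
      sgc P (v - 16) * (4 * Fl P.J T 1 (px gi v - 1) (py gj v) - ep P.J) := by
    unfold hv
    rw [p1, p2, hN, sgc_eq hO hs ho, p3, p4]
    ring
  rw [hval, hr]
  exact hm

theorem stpD4_sound (C : Ctx4 P st t m n T s gi gj K H) {v k : ℕ} {w : ℕ} {lo hi : ℤ}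
    (h : stpD4 P K H v k = some (w, lo, hi)) :
    Vin m n gi gj v ∧ Vin m n gi gj w ∧ lo ≤ s * (hv P T gi gj w - hv P T gi gj v) ∧
      s * (hv P T gi gj w - hv P T gi gj v) ≤ hi := by
  have hw : wv v = true := by
    by_contra hn
    simp only [stpD4, Bool.cond_eq_ite] at h
    rw [if_neg hn] at h
    exact absurd h (by simp)
  simp only [stpD4, Bool.cond_eq_ite] at h
  rw [if_pos hw] at h
  rw [wv_iff] at hw
  simp only [Nat.beq_eq] at h
  by_cases h1 : k = 1
  · rw [if_pos h1] at h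
    simp only [Option.map_eq_some_iff, Prod.mk.injEq] at h
    obtain ⟨r, hr, rfl, rfl⟩ := h
    exact stpE4 C.hJ C.S.til C.A C.H C.hO C.S.s1 C.S.ori (by omega) hr
  rw [if_neg h1] at h
  by_cases h2 : k = 2
  · rw [if_pos h2] at h
    simp only [Option.map_eq_some_iff, Prod.mk.injEq] at h
    obtain ⟨r, hr, rfl, rfl, rfl⟩ := h
    have := stpE4 C.hJ C.S.til C.A C.H C.hO C.S.s1 C.S.ori (v := v - 16) (by omega) hr
    rw [show v - 16 + 16 = v by omega] at this
    exact ⟨this.2.1, this.1, by linarith [this.2.2.2], by linarith [this.2.2.1]⟩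
  rw [if_neg h2] at h
  by_cases h3 : k = 3
  · rw [if_pos h3] at h
    simp only [Option.map_eq_some_iff, Prod.mk.injEq] at h
    obtain ⟨r, hr, rfl, rfl⟩ := h
    exact stpN4 C.hJ C.S.til C.A C.H C.hO C.S.s1 C.S.ori (by omega) (by omega) hr
  rw [if_neg h3] at h
  by_cases h4 : k = 4
  · rw [if_pos h4] at h
    simp only [Option.map_eq_some_iff, Prod.mk.injEq] at h
    obtain ⟨r, hr, rfl, rfl, rfl⟩ := h
    have := stpN4 C.hJ C.S.til C.A C.H C.hO C.S.s1 C.S.ori (v := v - 1) (by omega) (by omega) hr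
    rw [show v - 1 + 1 = v by omega] at this
    exact ⟨this.2.1, this.1, by linarith [this.2.2.2], by linarith [this.2.2.1]⟩
  rw [if_neg h4] at h
  exact absurd h (by simp)

theorem pth4_sound (C : Ctx4 P st t m n T s gi gj K H) : ∀ {p : List ℕ} {v w : ℕ} {lo hi : ℤ},
    pth4 P K H v p = some (w, lo, hi) → (Vin m n gi gj v → Vin m n gi gj w) ∧
      lo ≤ s * (hv P T gi gj w - hv P T gi gj v) ∧ s * (hv P T gi gj w - hv P T gi gj v) ≤ hi := by
  intro p
  induction p with
  | nil =>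
    intro v w lo hi h
    simp only [pth4, Option.some.injEq, Prod.mk.injEq] at h
    obtain ⟨rfl, rfl, rfl⟩ := h
    exact ⟨id, by simp, by simp⟩
  | cons k p ih =>
    intro v w lo hi h
    simp only [pth4] at h
    split at h
    · exact absurd h (by simp)
    · rename_i w1 lo1 hi1 h1
      split at h
      · exact absurd h (by simp)
      · rename_i w2 lo2 hi2 h2
        simp only [Option.some.injEq, Prod.mk.injEq] at h
        obtain ⟨rfl, rfl, rfl⟩ := h
        obtain ⟨a1, a2, a3, a4⟩ := stpD4_sound C h1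
        obtain ⟨b1, b2, b3⟩ := ih h2
        exact ⟨fun _ => b1 a2, by linarith, by linarith⟩

theorem vin136_4 (C : Ctx4 P st t m n T s gi gj K H) : Vin m n gi gj 136 := by
  unfold Vin Cl
  rw [px136, py136]
  have := C.S.hi
  have := C.S.hj
  omega

theorem bfr4_iff (hi : 0 < gi ∧ gi < m) {v : ℕ} (hV : Vin m n gi gj v) :
    bfr P v = true ↔ rk P m gi gj < rk P m (px gi v) (py gj v) := by
  have h1 := hi
  obtain ⟨v1, v2, v3, v4⟩ := hV
  simp only [bfr, Bool.or_eq_true, Bool.and_eq_true, Nat.blt_eq, Nat.beq_eq]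
  unfold rk
  have hx : px gi v = gi + ((v / 16 : ℕ) : ℤ) - 8 := rfl
  have hy : py gj v = gj + ((v % 16 : ℕ) : ℤ) - 8 := rfl
  rw [hx] at v1 v2 ⊢
  rw [hy]
  generalize v / 16 = a at *
  generalize v % 16 = b at *
  have key : ((gj + (b : ℤ) - 8 + P.al * (gi + a - 8)) * (m + 1) - (gi + a - 8)) -
      ((gj + P.al * gi) * (m + 1) - gi) = ((b + P.al * a : ℤ) - (8 + P.al * 8)) * (m + 1) - (a - 8) := by
    ring
  constructor
  · intro h
    rcases h with h | ⟨h, h'⟩
    · have h2 : (8 + P.al * 8 : ℤ) + 1 ≤ b + P.al * a := by exact_mod_cast h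
      have h3 : (m + 1) * 1 ≤ (m + 1) * ((b + P.al * a : ℤ) - (8 + P.al * 8)) :=
        mul_le_mul_of_nonneg_left (by linarith) (by linarith)
      nlinarith
    · have h2 : (b + P.al * a : ℤ) = 8 + P.al * 8 := by exact_mod_cast h
      have h3 : (a : ℤ) < 8 := by exact_mod_cast h'
      rw [h2] at key
      linarith
  · intro h
    by_contra hn
    push Not at hn
    obtain ⟨n1, n2⟩ := hn
    have n1' : (b + P.al * a : ℤ) ≤ 8 + P.al * 8 := by exact_mod_cast n1
    rcases lt_or_eq_of_le n1' with h2 | h2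
    · have h3 : (m + 1) * ((b + P.al * a : ℤ) - (8 + P.al * 8)) ≤ (m + 1) * (-1) :=
        mul_le_mul_of_nonneg_left (by linarith) (by linarith)
      nlinarith
    · have h3 := n2 (by exact_mod_cast h2)
      have h4 : (8 : ℤ) ≤ a := by exact_mod_cast h3
      rw [h2] at key
      linarith

theorem rel4_res (C : Ctx4 P st t m n T s gi gj K H) {v : ℕ} (hV : Vin m n gi gj v) :
    ∃ k : ℤ, rel P T s gi gj v = rsd P v + 4 * k := by
  have h1 := C.S.hi
  have h2 := C.S.hj
  unfold rel hv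
  rcases Nat.mod_two_eq_zero_or_one P.J with hJ | hJ
  · obtain ⟨k1, e1⟩ := ht_res_even hJ T (px gi v) (py gj v)
    obtain ⟨k2, e2⟩ := ht_res_even hJ T gi gj
    refine ⟨s * (k1 - k2), ?_⟩
    rw [e1, e2, (rsd_rng P v).2.2 hJ]
    ring
  · obtain ⟨k1, e1⟩ := ht_res_odd hJ T (i := px gi v) (j := py gj v) hV.1 hV.2.2.1
    obtain ⟨k2, e2⟩ := ht_res_odd hJ T (i := gi) (j := gj) (by omega) (by omega)
    obtain ⟨k3, e3⟩ := H0_rI hJ C.hO C.S.s1 C.S.ori (px gi v) (py gj v)
    refine ⟨s * (k1 - k2) + k3, ?_⟩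
    rw [e1, e2, rsd_eq P gi gj]
    linear_combination e3

theorem rel_le4 (C : Ctx4 P st t m n T s gi gj K H) {v : ℕ} (hV : Vin m n gi gj v) :
    rel P T s gi gj v ≤ ubc4 P st v := by
  unfold ubc4
  simp only [Bool.cond_eq_ite, Nat.beq_eq]
  by_cases h1 : v = 136
  · rw [if_pos h1, h1, rel136]
  rw [if_neg h1]
  have hup : rel P T s gi gj v ≤ 0 := C.S.up _ _ hV
  obtain ⟨k, hk⟩ := rel4_res C hV
  have r0 := (rsd_rng P v).2.2 C.hJ2
  rw [r0] at hk
  by_cases h3 : (st && bfr P v) = true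
  · rw [if_pos h3]
    simp only [Bool.and_eq_true] at h3
    have h4 : rel P T s gi gj v < 0 := C.S.bef h3.1 _ _ hV ((bfr4_iff C.S.hi hV).1 h3.2)
    omega
  · rw [if_neg h3]
    exact hup

theorem cor4_sound (C : Ctx4 P st t m n T s gi gj K H) {v : ℕ} (h : cor4 H v = true) : Vin m n gi gj v := by
  simp only [cor4, Bool.and_eq_true, Bool.or_eq_true] at h
  obtain ⟨hw, h⟩ := h
  rw [wv_iff] at hw
  have hc : ∀ w, inH H w = true → ColIn m n gi gj w := fun w hw => inH_sound C.H hw
  unfold Vin Cl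
  rcases h with ((h | h) | h) | h
  · have := hc _ h
    unfold ColIn at this
    omega
  · have := hc _ h
    unfold ColIn at this
    have p1 : px gi (v - 1) = px gi v := by unfold px; omega
    have p2 : py gj (v - 1) = py gj v - 1 := by unfold py; omega
    rw [p1, p2] at this
    omega
  · have := hc _ h
    unfold ColIn at this
    have p1 : px gi (v - 16) = px gi v - 1 := by unfold px; omega
    have p2 : py gj (v - 16) = py gj v := by unfold py; omega
    rw [p1, p2] at this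
    omega
  · have := hc _ h
    unfold ColIn at this
    have p1 : px gi (v - 17) = px gi v - 1 := by unfold px; omega
    have p2 : py gj (v - 17) = py gj v - 1 := by unfold py; omega
    rw [p1, p2] at this
    omega

theorem loS4_sound (C : Ctx4 P st t m n T s gi gj K H) {u : ℕ} {a : ℤ} (h : loS4 P H u = some a) :
    Vin m n gi gj u ∧ a ≤ rel P T s gi gj u := by
  unfold loS4 at h
  simp only [Bool.cond_eq_ite, Nat.beq_eq] at h
  by_cases h1 : u = 136
  · rw [if_pos h1] at h
    have := Option.some.inj h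
    subst this
    rw [h1, rel136]
    exact ⟨vin136_4 C, le_rfl⟩
  rw [if_neg h1] at h
  by_cases h2 : (!P.deep && cor4 H u) = true
  · rw [if_pos h2] at h
    have := Option.some.inj h
    subst this
    simp only [Bool.and_eq_true, Bool.not_eq_true'] at h2
    have hV := cor4_sound C h2.2
    refine ⟨hV, ?_⟩
    rw [flo_eq P gi gj]
    exact C.S.flo h2.1 _ _ hV
  · rw [if_neg h2] at h
    exact absurd h (by simp)

theorem hiS4_sound (C : Ctx4 P st t m n T s gi gj K H) {u : ℕ} {a : ℤ} (h : hiS4 P st H u = some a) :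
    Vin m n gi gj u ∧ rel P T s gi gj u ≤ a := by
  unfold hiS4 at h
  simp only [Bool.cond_eq_ite, Nat.beq_eq] at h
  by_cases h1 : u = 136
  · rw [if_pos h1] at h
    have := Option.some.inj h
    subst this
    rw [h1, rel136]
    exact ⟨vin136_4 C, le_rfl⟩
  rw [if_neg h1] at h
  by_cases h2 : cor4 H u = true
  · rw [if_pos h2] at h
    have := Option.some.inj h
    subst this
    exact ⟨cor4_sound C h2, rel_le4 C (cor4_sound C h2)⟩
  · rw [if_neg h2] at h
    exact absurd h (by simp)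

theorem chkCon4_sound (C : Ctx4 P st t m n T s gi gj K H) {u : ℕ} {p : List ℕ}
    (h : chkCon4 P st K H u p = true) : False := by
  unfold chkCon4 at h
  split at h
  · rename_i a w lo hi h1 h2
    rw [decide_eq_true_eq] at h
    obtain ⟨hV, ha⟩ := loS4_sound C h1
    obtain ⟨b1, b2, b3⟩ := pth4_sound C h2
    have := rel_le4 C (b1 hV)
    unfold rel at this ha
    linarith
  · exact absurd h (by simp)

end Pool.Agent.FT4D
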