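import Pool.Agent.FT4D.Sound4A

/-!
# Soundness of the checker: reductions and types
-/

namespace Pool.Agent.FT4D

open Pool.Agent.FT3D

variable {gi gj : ℤ} {P : Par} {st : Bool} {t : ℕ} {m n : ℤ} {T : Cell → ℕ} {K : List (ℕ × ℕ)} {H : Hu} {s : ℤ}

theorem rkB_iff {v w : ℕ} (hV : Vin m n gi gj v) (hW : Vin m n gi gj w) :
    rkB v w = true ↔ rk4 m (px gi v) (py gj v) < rk4 m (px gi w) (py gj w) := by
  obtain ⟨v1, v2, v3, v4⟩ := hV
  obtain ⟨w1, w2, w3, w4⟩ := hW
  simp only [rkB, Bool.or_eq_true, Bool.and_eq_true, Nat.blt_eq, Nat.beq_eq]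
  unfold rk4
  unfold px at *
  unfold py at *
  generalize v / 16 = a at *
  generalize v % 16 = b at *
  generalize w / 16 = c at *
  generalize w % 16 = d at *
  constructor
  · rintro (h | ⟨h, h'⟩)
    · have h2 : (b : ℤ) + 1 ≤ d := by exact_mod_cast h
      have h3 : 1 * (m + 1) ≤ ((d : ℤ) - b) * (m + 1) :=
        mul_le_mul_of_nonneg_right (by linarith) (by linarith)
      nlinarith
    · have h3 : (c : ℤ) < a := by exact_mod_cast h'
      rw [h]
      linarith
  · intro h
    by_contra hn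
    push Not at hn
    obtain ⟨n1, n2⟩ := hn
    rcases lt_or_eq_of_le n1 with h2 | h2
    · have h2' : (d : ℤ) + 1 ≤ b := by exact_mod_cast h2
      have h3 : 1 * (m + 1) ≤ ((b : ℤ) - d) * (m + 1) :=
        mul_le_mul_of_nonneg_right (by linarith) (by linarith)
      nlinarith
    · have h3 := n2 h2
      have h4 : (a : ℤ) ≤ c := by exact_mod_cast h3
      rw [h2] at h
      linarith

/-- the height at `v` is `0` -/
theorem zero_sound (C : Ctx4 P st t m n T s gi gj K H) {v u : ℕ} {p : List ℕ} {a : ℤ} {w : ℕ} {lo hi : ℤ}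
    (h1 : loS4 P H u = some a) (h2 : pth4 P K H u p = some (w, lo, hi)) (hw : w = v) (h3 : 0 ≤ a + lo) :
    Vin m n gi gj v ∧ rel P T s gi gj v = 0 := by
  subst hw
  obtain ⟨hV, ha⟩ := loS4_sound C h1
  obtain ⟨b1, b2, b3⟩ := pth4_sound C h2
  refine ⟨b1 hV, le_antisymm (C.S.up _ _ (b1 hV)) ?_⟩
  unfold rel at ha ⊢
  linarith

theorem chkCe4_sound (C : Ctx4 P st t m n T s gi gj K H) {L : List (ℕ × ℤ)} {b : ℕ → ℤ}
    {c : ℕ × ℕ × List ℕ} (h : chkCe4 P st K H L b c = true) :
    (0 < dl L c.1 → Vin m n gi gj c.1 ∧ rel P T s gi gj c.1 + 4 * dl L c.1 ≤ b c.1) ∧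
    (dl L c.1 ≤ 0 → Vin m n gi gj c.1 ∧ flo P c.1 ≤ rel P T s gi gj c.1 + 4 * dl L c.1) := by
  unfold chkCe4 at h
  simp only at h
  split at h
  · exact absurd h (by simp)
  · rename_i w lo hi hp
    simp only [Bool.and_eq_true, Nat.beq_eq, Bool.cond_eq_ite] at h
    obtain ⟨hw, h⟩ := h
    subst hw
    obtain ⟨p1, p2, p3⟩ := pth4_sound C hp
    by_cases hD : 0 < dl L c.1
    · simp only [hD, decide_true, if_true] at h
      refine ⟨fun _ => ?_, fun h0 => absurd h0 (by omega)⟩
      split at h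
      · exact absurd h (by simp)
      · rename_i a ha
        rw [decide_eq_true_eq] at h
        obtain ⟨q1, q2⟩ := hiS4_sound C ha
        refine ⟨p1 q1, ?_⟩
        unfold rel at *
        linarith
    · simp only [hD, decide_false] at h
      rw [if_neg (by decide)] at h
      refine ⟨fun h0 => absurd h0 hD, fun _ => ?_⟩
      split at h
      · exact absurd h (by simp)
      · rename_i a ha
        rw [decide_eq_true_eq] at h
        obtain ⟨q1, q2⟩ := loS4_sound C ha
        refine ⟨p1 q1, ?_⟩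
        unfold rel at *
        linarith

/-- the effect of the moves on the heights -/
theorem moves_key (C : Ctx4 P st t m n T s gi gj K H) {ms : List Mv} {L : List (ℕ × ℤ)} {h0 : ℤ}
    (hm : mvs P K ms = some (L, h0)) {b : ℕ → ℤ} {ce : List (ℕ × ℕ × List ℕ)}
    (g2 : ∀ x ∈ ce, chkCe4 P st K H L b x = true)
    (g3 : ∀ x ∈ L, dl L x.1 = 0 ∨ hasV ce x.1 = true) :
    ∃ T', Til P.J m n T' ∧ Conn T T' ∧
      (∀ v, s * hv P T' gi gj v = s * hv P T gi gj v + 4 * dl L v) ∧
      (hor P.J m n T' : ℤ) = hor P.J m n T + h0 ∧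
      (∀ i j, Cl m n i j → min (s * (ht P.J T i j - ht P.J T gi gj)) (flI P (i - gi) (j - gj)) ≤
        s * (ht P.J T' i j - ht P.J T gi gj)) ∧
      ∀ i j, Cl m n i j →
        s * (ht P.J T' i j - ht P.J T gi gj) ≤ s * (ht P.J T i j - ht P.J T gi gj) ∨
        ∃ v : ℕ, i = px gi v ∧ j = py gj v ∧ s * (ht P.J T' i j - ht P.J T gi gj) ≤ b v := by
  obtain ⟨T', t1, t2, t3, t4, t5⟩ := mvs_sound C.hJ C.hO C.S.s1 C.S.ori C.S.til C.A hm
  have key : ∀ i j, Cl m n i j →
      (ht P.J T' i j = ht P.J T i j) ∨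
      (∃ v : ℕ, i = px gi v ∧ j = py gj v ∧ ∃ x D : ℤ, s * (ht P.J T' i j - ht P.J T gi gj) = x + 4 * D ∧
        x = s * (ht P.J T i j - ht P.J T gi gj) ∧
        ((0 < D ∧ x + 4 * D ≤ b v) ∨
         (D ≤ 0 ∧ flI P (i - gi) (j - gj) ≤ x + 4 * D))) := by
    intro i j hC
    by_cases hx : ∀ x ∈ L, ¬ (i = px gi x.1 ∧ j = py gj x.1)
    · exact Or.inl (t4 i j hx)
    · push Not at hx
      obtain ⟨x, hxL, hxi, hxj⟩ := hx
      subst hxi hxj
      have ht3 := t3 x.1
      unfold hv at ht3
      rcases g3 x hxL with h1 | h1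
      · left
        rw [h1] at ht3
        rcases C.S.s1 with h2 | h2 <;> rw [h2] at ht3 <;> linarith
      · right
        obtain ⟨c, hc, hcx⟩ := hasV_sound h1
        have hce := chkCe4_sound C (g2 c hc)
        rw [hcx] at hce
        refine ⟨x.1, rfl, rfl, rel P T s gi gj x.1, dl L x.1, ?_, rfl, ?_⟩
        · unfold rel hv
          linarith
        · by_cases hD : 0 < dl L x.1
          · exact Or.inl ⟨hD, (hce.1 hD).2⟩
          · right
            refine ⟨by omega, ?_⟩
            have := (hce.2 (by omega)).2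
            rw [flo_eq P gi gj] at this
            exact this
  refine ⟨T', t1, t2, t3, t5, ?_, ?_⟩
  · intro i j hC
    rcases key i j hC with h1 | ⟨v, -, -, x, D, e1, e2, h1 | h1⟩
    · rw [h1]
      exact min_le_left _ _
    · rw [e1, ← e2]
      exact min_le_of_left_le (by omega)
    · rw [e1]
      exact min_le_of_right_le h1.2
  · intro i j hC
    rcases key i j hC with h1 | ⟨v, hi, hj, x, D, e1, e2, h1 | h1⟩
    · rw [h1]
      exact Or.inl le_rfl
    · exact Or.inr ⟨v, hi, hj, by rw [e1]; exact h1.2⟩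
    · left
      rw [e1, ← e2]
      omega

theorem chkRed4_sound (C : Ctx4 P st t m n T s gi gj K H) {ms : List Mv} {v u : ℕ} {p : List ℕ}
    {ce : List (ℕ × ℕ × List ℕ)} (h : chkRed4 P st K H ms v u p ce = true) :
    Concl4 P m n T s gi gj := by
  unfold chkRed4 at h
  split at h
  · exact absurd h (by simp)
  · rename_i L h0 hm
    split at h
    · rename_i a w lo hi ha hp
      simp only [Bool.or_eq_true, Bool.and_eq_true, decide_eq_true_eq, List.all_eq_true, Nat.beq_eq] at h
      obtain ⟨⟨⟨⟨g0, g1⟩, gD⟩, g2⟩, g3⟩ := h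
      obtain ⟨hW, hw0⟩ := zero_sound C ha hp g0 g1
      obtain ⟨T', t1, t2, t3, t5, t6, t7⟩ := moves_key C hm g2 g3
      refine ⟨T', t1, t2, t6, Or.inl ⟨px gi v, py gj v, hW, hw0, ?_, fun i j hC => ?_⟩⟩
      · have := t3 v
        unfold rel hv at hw0
        unfold hv at this
        nlinarith
      · rcases t7 i j hC with h1 | ⟨x, hi, hj, h1⟩
        · exact le_max_of_le_left h1
        · refine le_max_of_le_right (h1.trans (le_of_eq ?_))
          subst hi hj
          rw [Bool.cond_eq_ite]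
          by_cases h5 : rkB v x = true
          · rw [if_pos h5, if_pos ((rkB_iff hW hC).1 h5)]
          · rw [if_neg h5, if_neg (fun hh => h5 ((rkB_iff hW hC).2 hh))]
    · exact absurd h (by simp)

theorem chkHor4_sound (C : Ctx4 P st t m n T s gi gj K H) {ms : List Mv}
    {ce : List (ℕ × ℕ × List ℕ)} (h : chkHor4 P st K H ms ce = true) :
    Concl4 P m n T s gi gj := by
  unfold chkHor4 at h
  split at h
  · exact absurd h (by simp)
  · rename_i L h0 hm
    simp only [Bool.or_eq_true, Bool.and_eq_true, decide_eq_true_eq, List.all_eq_true] at h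
    obtain ⟨⟨g1, g2⟩, g3⟩ := h
    obtain ⟨T', t1, t2, t3, t5, t6, t7⟩ := moves_key C hm g2 g3
    refine ⟨T', t1, t2, t6, Or.inr ⟨fun i j hC => ?_, by omega⟩⟩
    rcases t7 i j hC with h1 | ⟨x, hi, hj, h1⟩
    · exact le_max_of_le_left h1
    · exact le_max_of_le_right h1

theorem plc_cases (t z : ℕ) : plc t z = 0 ∨ plc t z = 1 ∨ plc t z = 2 ∨ plc t z = 3 := by
  unfold plc
  split_ifs <;> simp

theorem typK_get {t v : ℕ} : ∀ {z : ℕ}, typK K t v z = true → ∀ y < z,
    get K (8 * plCol v (plc t y) + y) = plDir (plc t y) := by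
  intro z
  induction z with
  | zero =>
    intro _ y hy
    exact absurd hy (Nat.not_lt_zero _)
  | succ z ih =>
    intro h y hy
    simp only [typK, Bool.and_eq_true, Nat.beq_eq] at h
    rcases Nat.lt_succ_iff_lt_or_eq.1 hy with h1 | h1
    · exact ih h.2 y h1
    · rw [h1]
      exact h.1

theorem typK_sound (hA : Agree gi gj T K) {t v : ℕ} (h17 : 17 ≤ v) (h1 : 1 ≤ v % 16)
    (h : typK K t v 4 = true) : HasTyp T t (px gi v) (py gj v) := by
  have p1 : px gi (v - 1) = px gi v := by unfold px; omega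
  have p2 : py gj (v - 1) = py gj v - 1 := by unfold py; omega
  have p3 : px gi (v - 16) = px gi v - 1 := by unfold px; omega
  have p4 : py gj (v - 16) = py gj v := by unfold py; omega
  have p5 : px gi (v - 17) = px gi v - 1 := by unfold px; omega
  have p6 : py gj (v - 17) = py gj v - 1 := by unfold py; omega
  intro z hz
  have h2 := typK_get h z hz
  have h3 : T (cellOf gi gj (8 * plCol v (plc t z) + z)) = plDir (plc t z) := by
    have := hA (8 * plCol v (plc t z) + z) (by
      rw [h2]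
      rcases plc_cases t z with hp | hp | hp | hp <;> rw [hp] <;> decide)
    rw [this, h2]
  rcases plc_cases t z with hp | hp | hp | hp
  · rw [hp] at h3 ⊢
    have h4 : T (cellOf gi gj (8 * (v - 1) + z)) = 3 := h3
    rw [cellOf_col _ z (by omega), p1, p2] at h4
    exact ⟨fun _ => h4, fun h => absurd h (by decide), fun h => absurd h (by decide), fun h => absurd h (by decide)⟩
  · rw [hp] at h3 ⊢
    have h4 : T (cellOf gi gj (8 * (v - 16) + z)) = 1 := h3
    rw [cellOf_col _ z (by omega), p3, p4] at h4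
    exact ⟨fun h => absurd h (by decide), fun _ => h4, fun h => absurd h (by decide), fun h => absurd h (by decide)⟩
  · rw [hp] at h3 ⊢
    have h4 : T (cellOf gi gj (8 * (v - 17) + z)) = 3 := h3
    rw [cellOf_col _ z (by omega), p5, p6] at h4
    exact ⟨fun h => absurd h (by decide), fun h => absurd h (by decide), fun _ => h4, fun h => absurd h (by decide)⟩
  · rw [hp] at h3 ⊢
    have h4 : T (cellOf gi gj (8 * (v - 17) + z)) = 1 := h3
    rw [cellOf_col _ z (by omega), p5, p6] at h4
    exact ⟨fun h => absurd h (by decide), fun h => absurd h (by decide), fun h => absurd h (by decide), fun _ => h4⟩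

theorem chkTyp_sound (C : Ctx4 P st t m n T s gi gj K H) {t' : ℕ} (h : chkTyp P st K t' = true) :
    st = true ∧ ∃ t ∈ typs P.ori, HasTyp T t gi gj := by
  simp only [chkTyp, Bool.and_eq_true, List.contains_iff_mem] at h
  obtain ⟨⟨h1, h2⟩, h3⟩ := h
  have h4 := typK_sound C.A (by norm_num) (by norm_num) h3
  rw [px136, py136] at h4
  exact ⟨h1, t', h2, h4⟩

theorem chkDom_sound (C : Ctx4 P st t m n T s gi gj K H) {v u : ℕ} {p : List ℕ}
    (h : chkDom P st t K H v u p = true) : False := by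
  unfold chkDom at h
  simp only [Bool.and_eq_true, Bool.or_eq_true, Nat.beq_eq, Bool.not_eq_true'] at h
  obtain ⟨⟨⟨⟨⟨⟨⟨hst, hvv⟩, hty⟩, i1⟩, i2⟩, i3⟩, i4⟩, h5⟩ := h
  split at h5
  · rename_i a w lo hi ha hp
    simp only [Bool.and_eq_true, Nat.beq_eq, decide_eq_true_eq] at h5
    obtain ⟨hV, h0⟩ := zero_sound C ha hp h5.1 h5.2
    have hw : 17 ≤ v ∧ 1 ≤ v % 16 := by rcases hvv with rfl | rfl <;> norm_num
    have h6 := typK_sound C.A hw.1 hw.2 hty
    have c1 := inH_sound C.H i1
    have c4 := inH_sound C.H i4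
    unfold ColIn at c1 c4
    unfold rel hv at h0
    rcases hvv with rfl | rfl
    · have e1 : px gi 119 = gi + -1 := by unfold px; norm_num; ring
      have e2 : py gj 119 = gj - 1 := by unfold py; norm_num; ring
      have e3 : px gi (119 - 17) = gi - 2 := by unfold px; norm_num; ring
      have e4 : py gj (119 - 17) = gj - 2 := by unfold py; norm_num; ring
      rw [e1, e2] at h6 h0 c1
      rw [e3, e4] at c4
      exact C.S.low hst (-1) (Or.inr rfl) (by omega) (by omega) (by omega) h0 h6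
    · have e1 : px gi 151 = gi + 1 := by unfold px; norm_num; ring
      have e2 : py gj 151 = gj - 1 := by unfold py; norm_num; ring
      have e3 : px gi (151 - 17) = gi := by unfold px; norm_num
      have e4 : py gj (151 - 17) = gj - 2 := by unfold py; norm_num; ring
      rw [e1, e2] at h6 h0 c1
      rw [e3, e4] at c4
      exact C.S.low hst 1 (Or.inl rfl) (by omega) (by omega) (by omega) h0 h6
  · exact absurd h5 (by simp)

end Pool.Agent.FT4D
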