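import Pool.Agent.FT4D.Sound4B

/-!
# Soundness of the checker: use, branching, start state, lists
-/

namespace Pool.Agent.FT4D

open Pool.Agent.FT3D

variable {gi gj : ℤ} {P : Par} {st : Bool} {t : ℕ} {m n : ℤ} {T : Cell → ℕ} {K : List (ℕ × ℕ)} {H : Hu} {s : ℤ}
  {N : ℕ → List (ℕ × ℕ)}

theorem ad_in (hH : Hin m n gi gj H) {v : ℕ} (hv : ColIn m n gi gj v) : Hin m n gi gj (H.ad v) := by
  obtain ⟨h1, h2, h3, h4⟩ := hH
  obtain ⟨c1, c2, c3, c4⟩ := hv
  unfold px at c1 c2
  unfold py at c3 c4
  unfold Hin Hu.ad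
  simp only [Bool.cond_eq_ite]
  refine ⟨?_, ?_, ?_, ?_⟩ <;> split_ifs <;> omega

theorem colIn_of {c : ℕ} (h : Bx P.J m n (cellOf gi gj c)) :
    ColIn m n gi gj (c / 8) := by
  rw [cellOf_code] at h
  exact ⟨h.1, h.2.1, h.2.2.1, h.2.2.2.1⟩

theorem chk4_sound (hJ : P.J < 8) (hJ2 : P.J % 2 = 0) (hal : P.al = 0) (hO : P.ori = 0 ∨ P.ori = 1)
    (hS : Sit4 P st t m n T s gi gj) {k : ℕ} (hN : ∀ j < k, Holds P st t (N j)) :
    ∀ (tr : Tr4) (K : List (ℕ × ℕ)) (H : Hu), Agree gi gj T K → Hin m n gi gj H →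
      chk4 P st t N k K H tr = true → Goal4 P st m n T s gi gj := by
  intro tr
  induction tr with
  | no =>
    intro K H _ _ h
    exact absurd h (by simp [chk4])
  | con u p =>
    intro K H hA hU h
    exact (chkCon4_sound ⟨hJ, hJ2, hal, hO, hS, hA, hU⟩ h).elim
  | red ms v u p ce =>
    intro K H hA hU h
    exact Or.inl (chkRed4_sound ⟨hJ, hJ2, hal, hO, hS, hA, hU⟩ h)
  | hor ms ce =>
    intro K H hA hU h
    exact Or.inl (chkHor4_sound ⟨hJ, hJ2, hal, hO, hS, hA, hU⟩ h)
  | typ t' =>
    intro K H hA hU h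
    exact Or.inr (chkTyp_sound ⟨hJ, hJ2, hal, hO, hS, hA, hU⟩ h)
  | dom v u p =>
    intro K H hA hU h
    exact (chkDom_sound ⟨hJ, hJ2, hal, hO, hS, hA, hU⟩ h).elim
  | use j =>
    intro K H hA hU h
    simp only [chk4, inc, Bool.and_eq_true, Nat.blt_eq, List.all_eq_true, Nat.ble_eq, Nat.beq_eq] at h
    refine hN j h.1 m n T s gi gj hS fun x hx => ?_
    obtain ⟨h1, h2⟩ := h.2 x hx
    have h3 := hA x.1 (by rw [h2]; omega)
    rw [h3, h2]
  | br c t1 t2 t3 t4 t5 t6 i1 i2 i3 i4 i5 i6 =>
    intro K H hA hU h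
    simp only [chk4, Bool.and_eq_true, Bool.or_eq_true] at h
    obtain ⟨⟨⟨⟨⟨⟨hok, h1⟩, h2⟩, h3⟩, h4⟩, h5⟩, h6⟩ := h
    simp only [okB4, Bool.and_eq_true, Nat.beq_eq, Nat.ble_eq, Nat.blt_eq] at hok
    obtain ⟨⟨⟨⟨⟨⟨k1, k2⟩, k3⟩, k4⟩, k5⟩, k6⟩, k7⟩ := hok
    have hcol := inH_sound hU k1
    have hb : Bx P.J m n (cellOf gi gj c) := by
      rw [cellOf_code]
      exact ⟨hcol.1, hcol.2.1, hcol.2.2.1, hcol.2.2.2, by positivity, by dsimp only; exact_mod_cast k7⟩
    obtain ⟨r1, r6⟩ := hS.til.rng _ hb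
    have hmem := hS.til.mem _ hb
    have hinv := hS.til.inv _ hb
    have hz := hb.2.2.2.2
    rw [cellOf_code] at hz
    dsimp only at hz
    -- the branch of the right direction
    have main : ∀ d, 1 ≤ d → d ≤ 6 → T (cellOf gi gj c) = d →
        imp P K c d = false ∧ Agree gi gj T ((c, d) :: (nbc c d, opp d) :: K) ∧
          ColIn m n gi gj (nbc c d / 8) := by
      intro d d1 d6 hd
      rw [hd] at hmem hinv
      have hm5 : d = 5 → c % 8 + 1 < P.J := by
        rintro rfl
        have := hmem.2.2.2.2.2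
        simp only [nb, dZ, cellOf] at this
        norm_num at this
        omega
      have hm6 : d = 6 → 1 ≤ c % 8 := by
        rintro rfl
        have := hmem.2.2.2.2.1
        simp only [nb, dZ, cellOf] at this
        norm_num at this
        omega
      have hn : cellOf gi gj (nbc c d) = nb (cellOf gi gj c) d := by
        apply cellOf_nbc c d ⟨d1, d6⟩ <;> omega
      rw [← hn] at hinv hmem
      refine ⟨?_, ?_, colIn_of hmem⟩
      · by_contra himp
        rw [Bool.not_eq_false] at himp
        simp only [imp, Bool.or_eq_true, Bool.and_eq_true, Nat.beq_eq, Nat.ble_eq,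
          Bool.not_eq_true'] at himp
        rcases himp with (⟨q1, q2⟩ | ⟨q1, q2⟩) | ⟨q1, q2⟩
        · have := hm5 q1
          omega
        · have := hm6 q1
          omega
        · have e1 : get K (nbc c d) ≠ 0 := by
            intro h0
            rw [h0] at q1
            exact absurd q1 (by decide)
          have e2 := hA _ e1
          rw [hinv, ← opc_eq ⟨d1, d6⟩] at e2
          rw [← e2] at q2
          have : Nat.beq (opc d) (opc d) = true := by rw [Nat.beq_eq]
          rw [this] at q2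
          exact absurd q2 (by decide)
      · intro c' hc'
        simp only [get_cons] at hc' ⊢
        by_cases e1 : c = c'
        · rw [if_pos e1, ← e1, hd]
        rw [if_neg e1] at hc' ⊢
        by_cases e2 : nbc c d = c'
        · rw [if_pos e2, ← e2, hinv]
        rw [if_neg e2] at hc' ⊢
        exact hA c' hc'
    have hd : T (cellOf gi gj c) = 1 ∨ T (cellOf gi gj c) = 2 ∨ T (cellOf gi gj c) = 3 ∨
        T (cellOf gi gj c) = 4 ∨ T (cellOf gi gj c) = 5 ∨ T (cellOf gi gj c) = 6 := by omega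
    rcases hd with hd | hd | hd | hd | hd | hd
    · obtain ⟨m1, m2, m3⟩ := main 1 (by norm_num) (by norm_num) hd
      rcases h1 with h1 | h1
      · rw [m1] at h1; exact absurd h1 (by decide)
      · exact i1 _ _ m2 (ad_in hU m3) h1
    · obtain ⟨m1, m2, m3⟩ := main 2 (by norm_num) (by norm_num) hd
      rcases h2 with h1 | h1
      · rw [m1] at h1; exact absurd h1 (by decide)
      · exact i2 _ _ m2 (ad_in hU m3) h1
    · obtain ⟨m1, m2, m3⟩ := main 3 (by norm_num) (by norm_num) hd
      rcases h3 with h1 | h1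
      · rw [m1] at h1; exact absurd h1 (by decide)
      · exact i3 _ _ m2 (ad_in hU m3) h1
    · obtain ⟨m1, m2, m3⟩ := main 4 (by norm_num) (by norm_num) hd
      rcases h4 with h1 | h1
      · rw [m1] at h1; exact absurd h1 (by decide)
      · exact i4 _ _ m2 (ad_in hU m3) h1
    · obtain ⟨m1, m2, m3⟩ := main 5 (by norm_num) (by norm_num) hd
      rcases h5 with h1 | h1
      · rw [m1] at h1; exact absurd h1 (by decide)
      · exact i5 _ _ m2 hU h1
    · obtain ⟨m1, m2, m3⟩ := main 6 (by norm_num) (by norm_num) hd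
      rcases h6 with h1 | h1
      · rw [m1] at h1; exact absurd h1 (by decide)
      · exact i6 _ _ m2 hU h1

theorem ini_sound (hS : Sit4 P st t m n T s gi gj) : ∀ (l : List (ℕ × ℕ)), okN l = true →
    (∀ x ∈ l, T (cellOf gi gj x.1) = x.2) →
      Agree gi gj T (ini l).1 ∧ Hin m n gi gj (ini l).2 := by
  intro l
  induction l with
  | nil =>
    intro _ _
    refine ⟨agree_nil, ?_⟩
    have := hS.hi
    have := hS.hj
    unfold Hin
    simp only [ini, hu0]
    norm_num
    omega
  | cons x l ih =>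
    obtain ⟨c, d⟩ := x
    intro hok hx
    simp only [okN, List.all_cons, Bool.and_eq_true] at hok
    obtain ⟨hok1, hok2⟩ := hok
    obtain ⟨hA, hU⟩ := ih hok2 fun y hy => hx y (List.mem_cons_of_mem _ hy)
    have hd : T (cellOf gi gj c) = d := hx (c, d) (List.mem_cons_self ..)
    simp only [Bool.or_eq_true, Nat.beq_eq, Nat.ble_eq] at hok1
    have hd1 : 1 ≤ d ∧ d ≤ 6 := by omega
    have hb : Bx P.J m n (cellOf gi gj c) := bx_of_ne hS.til (by rw [hd]; omega)
    have hmem := hS.til.mem _ hb
    have hinv := hS.til.inv _ hb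
    have hn : cellOf gi gj (nbc c d) = nb (cellOf gi gj c) d := by
      apply cellOf_nbc c d hd1 <;> omega
    rw [hd, ← hn] at hmem hinv
    refine ⟨?_, ad_in (ad_in hU (colIn_of hb)) (colIn_of hmem)⟩
    intro c' hc'
    simp only [ini, get_cons] at hc' ⊢
    by_cases e1 : c = c'
    · rw [if_pos e1, ← e1, hd]
    rw [if_neg e1] at hc' ⊢
    by_cases e2 : nbc c d = c'
    · rw [if_pos e2, ← e2, hinv, opc_eq hd1]
    rw [if_neg e2] at hc' ⊢
    exact hA c' hc'

theorem base_one {z : ℕ} (hz : z < 4) (h : HasTyp T t gi gj) :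
    T (cellOf gi gj (8 * plCol 136 (plc t z) + z)) = plDir (plc t z) := by
  obtain ⟨a0, a1, a2, a3⟩ := h z hz
  rcases plc_cases t z with hp | hp | hp | hp
  · rw [hp]
    show T (cellOf gi gj (8 * 135 + z)) = 3
    rw [cellOf_col 135 z (by omega)]
    have e1 : px gi 135 = gi := by unfold px; norm_num
    have e2 : py gj 135 = gj - 1 := by unfold py; norm_num; ring
    rw [e1, e2]
    exact a0 hp
  · rw [hp]
    show T (cellOf gi gj (8 * 120 + z)) = 1
    rw [cellOf_col 120 z (by omega)]
    have e1 : px gi 120 = gi - 1 := by unfold px; norm_num; ring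
    have e2 : py gj 120 = gj := by unfold py; norm_num
    rw [e1, e2]
    exact a1 hp
  · rw [hp]
    show T (cellOf gi gj (8 * 119 + z)) = 3
    rw [cellOf_col 119 z (by omega)]
    have e1 : px gi 119 = gi - 1 := by unfold px; norm_num; ring
    have e2 : py gj 119 = gj - 1 := by unfold py; norm_num; ring
    rw [e1, e2]
    exact a2 hp
  · rw [hp]
    show T (cellOf gi gj (8 * 119 + z)) = 1
    rw [cellOf_col 119 z (by omega)]
    have e1 : px gi 119 = gi - 1 := by unfold px; norm_num; ring
    have e2 : py gj 119 = gj - 1 := by unfold py; norm_num; ring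
    rw [e1, e2]
    exact a3 hp

theorem bas_sound (hS : Sit4 P st t m n T s gi gj) {N : List (ℕ × ℕ)}
    (hN : ∀ x ∈ N, T (cellOf gi gj x.1) = x.2) : ∀ x ∈ bas st t N, T (cellOf gi gj x.1) = x.2 := by
  intro x hx
  cases st with
  | true => exact hN x hx
  | false =>
    rcases List.mem_append.1 (show x ∈ N ++ base t from hx) with h | h
    · exact hN x h
    · have hty := hS.typ rfl
      simp only [base, List.mem_cons, List.not_mem_nil, or_false] at h
      rcases h with rfl | rfl | rfl | rfl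
      · exact base_one (z := 0) (by norm_num) hty
      · exact base_one (z := 1) (by norm_num) hty
      · exact base_one (z := 2) (by norm_num) hty
      · exact base_one (z := 3) (by norm_num) hty

/-- the lists of trees, chained by the index -/
theorem chkL_sound (hJ : P.J < 8) (hJ2 : P.J % 2 = 0) (hal : P.al = 0) (hO : P.ori = 0 ∨ P.ori = 1) :
    ∀ (l : List Tr4) (k : ℕ), (∀ j < k, Holds P st t (N j)) → chkL P st t N k l = true →
      ∀ j < k + l.length, Holds P st t (N j) := by
  intro l
  induction l with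
  | nil =>
    intro k hN _ j hj
    exact hN j (by simpa using hj)
  | cons tr l ih =>
    intro k hN h j hj
    simp only [chkL, Bool.and_eq_true] at h
    obtain ⟨⟨h1, h2⟩, h3⟩ := h
    have hk : Holds P st t (N k) := by
      intro m n T s gi gj hS hx
      obtain ⟨hA, hU⟩ := ini_sound hS _ h1 (bas_sound hS hx)
      exact chk4_sound hJ hJ2 hal hO hS hN tr _ _ hA hU h2
    refine ih (k + 1) ?_ h3 j (by simp only [List.length_cons] at hj; omega)
    intro i hi
    rcases Nat.lt_succ_iff_lt_or_eq.1 hi with h4 | h4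
    · exact hN i h4
    · rw [h4]
      exact hk

/-- the first local lemma from the empty configuration -/
theorem LL1_of (hN : Holds P true t []) : LL1 P := by
  intro m n T s gi gj hS
  have hS' : Sit4 P true t m n T s gi gj :=
    ⟨hS.til, hS.s1, hS.hi, hS.hj, hS.ori, hS.up, fun _ => hS.bef, hS.flo, fun h => Bool.noConfusion h,
      fun h => Bool.noConfusion h⟩
  rcases hN m n T s gi gj hS' (by intro x hx; exact absurd hx (by simp)) with h | ⟨-, h⟩
  · exact Or.inl h
  · exact Or.inr h

/-- the second local lemma from the empty configuration for every type -/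
theorem LL2_of (hN : ∀ t ∈ typs P.ori, Holds P false t []) : LL2 P := by
  intro t ht m n T s gi gj hS
  have hS' : Sit4 P false t m n T s gi gj :=
    ⟨hS.til, hS.s1, hS.hi, hS.hj, hS.ori, hS.up, fun h => Bool.noConfusion h, hS.flo, fun _ => hS.typ,
      fun _ => hS.low⟩
  rcases hN t ht m n T s gi gj hS' (by intro x hx; exact absurd hx (by simp)) with h | ⟨h, -⟩
  · exact h
  · exact Bool.noConfusion h

end Pool.Agent.FT4D
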