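import Pool.Agent.FT4D.CheckF
import Pool.Agent.FT4D.Sound4C

/-!
# The fast checker: packed known cells
-/

namespace Pool.Agent.FT4D

open Pool.Agent.FT3D

theorem getN_testBit (K c i : ℕ) : (getN K c).testBit i = (K.testBit (3 * c + i) && decide (i < 3)) := by
  have h7 : (7 : ℕ).testBit i = decide (i < 3) := by
    rw [show (7 : ℕ) = 2 ^ 3 - 1 by norm_num, Nat.testBit_two_pow_sub_one]
  have e : getN K c = (K >>> (3 * c)) &&& 7 := rfl
  rw [e, Nat.testBit_and, Nat.testBit_shiftRight, h7]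

theorem getN_setN (K c c' : ℕ) {d : ℕ} (hd : d < 8) :
    getN (setN K c d) c' = if c = c' then d else getN K c' := by
  have hdb : ∀ i, 3 ≤ i → d.testBit i = false := fun i hi =>
    Nat.testBit_lt_two_pow (lt_of_lt_of_le hd (by
      calc (8 : ℕ) = 2 ^ 3 := by norm_num
        _ ≤ 2 ^ i := Nat.pow_le_pow_right (by norm_num) hi))
  have e : setN K c d = K ^^^ ((getN K c ^^^ d) <<< (3 * c)) := rfl
  have key : ∀ j, (setN K c d).testBit j =
      (K.testBit j ^^ (decide (3 * c ≤ j) && ((K.testBit (3 * c + (j - 3 * c)) && decide (j - 3 * c < 3)) ^^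
        d.testBit (j - 3 * c)))) := by
    intro j
    rw [e, Nat.testBit_xor, Nat.testBit_shiftLeft, Nat.testBit_xor, getN_testBit]
  apply Nat.eq_of_testBit_eq
  intro i
  rw [getN_testBit, key]
  by_cases hc : c = c'
  · subst hc
    rw [if_pos rfl]
    by_cases hi : i < 3
    · have h1 : 3 * c + i - 3 * c = i := by omega
      have h2 : 3 * c ≤ 3 * c + i := by omega
      rw [h1]
      simp only [h2, hi, decide_true, Bool.and_true, Bool.true_and]
      cases K.testBit (3 * c + i) <;> cases d.testBit i <;> rfl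
    · rw [hdb i (by omega)]
      simp only [hi, decide_false, Bool.and_false]
  · rw [if_neg hc, getN_testBit]
    by_cases hi : i < 3
    · rcases Nat.lt_or_gt_of_ne hc with h | h
      · have h1 : ¬ (3 * c' + i - 3 * c < 3) := by omega
        rw [hdb (3 * c' + i - 3 * c) (by omega)]
        simp only [h1, decide_false, Bool.and_false, Bool.xor_false]
      · have h1 : ¬ (3 * c ≤ 3 * c' + i) := by omega
        simp only [h1, decide_false, Bool.false_and, Bool.xor_false]
    · simp only [hi, decide_false, Bool.and_false]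

/-- the number `KN` represents the list `K` -/
def Rep (KN : ℕ) (K : List (ℕ × ℕ)) : Prop := ∀ c, getN KN c = get K c

theorem rep_nil : Rep 0 [] := by
  intro c
  apply Nat.eq_of_testBit_eq
  intro i
  rw [getN_testBit, show FT3D.get [] c = 0 from rfl]
  simp

theorem rep_cons {KN : ℕ} {K : List (ℕ × ℕ)} (h : Rep KN K) (c : ℕ) {d : ℕ} (hd : d < 8) :
    Rep (setN KN c d) ((c, d) :: K) := by
  intro c'
  rw [getN_setN _ _ _ hd, get_cons, h c']

variable {P : Par} {st : Bool} {t : ℕ} {KN : ℕ} {K : List (ℕ × ℕ)} {H : Hu}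

theorem rngF_eq (h : Rep KN K) (p q k : ℕ) : ∀ z, rngF KN p q k z = rng K p q k z
  | 0 => rfl
  | z + 1 => by
    unfold Rep at h
    simp only [rngF, rng, h, rngF_eq h p q k z]

theorem stpF_eq (h : Rep KN K) (v k : ℕ) : stpF P KN H v k = stp4 P K H v k := by
  simp only [stpF, stp4, rngF_eq h]

theorem stpDF_eq (h : Rep KN K) (v k : ℕ) : stpDF P KN H v k = stpD4 P K H v k := by
  simp only [stpDF, stpD4, stpF_eq h]

theorem pthF_eq (h : Rep KN K) : ∀ (p : List ℕ) (v : ℕ), pthF P KN H v p = pth4 P K H v p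
  | [], v => rfl
  | k :: p, v => by
    simp only [pthF, pth4, stpDF_eq h, pthF_eq h p]
    rfl

theorem chkConF_eq (h : Rep KN K) (u : ℕ) (p : List ℕ) :
    chkConF P st KN H u p = chkCon4 P st K H u p := by
  simp only [chkConF, chkCon4, pthF_eq h]
  rfl

theorem opc_lt (d : ℕ) : opc d < 8 := by
  unfold opc
  simp only [Bool.cond_eq_ite]
  split_ifs <;> norm_num

theorem mvF_rel (h : Rep KN K) (mo : Mv) :
    (mvF P KN mo = none ∧ mv P K mo = none) ∨
    ∃ KN' K' v d h', mvF P KN mo = some (KN', v, d, h') ∧ mv P K mo = some (K', v, d, h') ∧ Rep KN' K' := by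
  have h0 : ∀ c, getN KN c = get K c := h
  cases mo with
  | f c d e =>
    simp only [mvF, mv, h0, Bool.cond_eq_ite]
    by_cases hc : (wv (c / 8) && (Nat.beq d 1 || Nat.beq d 3 || Nat.beq d 5) &&
      (Nat.beq e 1 || Nat.beq e 3 || Nat.beq e 5) && !(Nat.beq d e) && Nat.beq (get K c) d &&
      Nat.beq (get K (nbc c e)) d) = true
    · rw [if_pos hc, if_pos hc]
      simp only [Bool.and_eq_true, Bool.or_eq_true, Nat.beq_eq, Bool.not_eq_true'] at hc
      obtain ⟨⟨⟨⟨⟨hw, hd⟩, he⟩, hde⟩, hk1⟩, hk2⟩ := hc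
      have he' : e < 8 := by omega
      have hR : Rep (setN (setN (setN (setN KN (nbc (nbc c d) e) (opc e)) (nbc c e) (opc e)) (nbc c d) e) c e)
          ((c, e) :: (nbc c d, e) :: (nbc c e, opc e) :: (nbc (nbc c d) e, opc e) :: K) :=
        rep_cons (rep_cons (rep_cons (rep_cons h _ (opc_lt e)) _ (opc_lt e)) _ he') _ he'
      right
      split_ifs <;> exact ⟨_, _, _, _, _, rfl, rfl, hR⟩
    · rw [if_neg hc, if_neg hc]
      exact Or.inl ⟨rfl, rfl⟩
  | t o a b =>
    simp only [mvF, mv, h0, Bool.cond_eq_ite]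
    by_cases hc : (wv (o / 8) && Nat.ble 1 a && Nat.ble a 4 && Nat.ble 1 b && Nat.ble b 4 &&
      !(Nat.beq ((a + 1) / 2) ((b + 1) / 2)) && Nat.beq (get K o) a && Nat.beq (get K (o + 1)) b &&
      Nat.beq (get K (nbc (nbc o a) b)) 5) = true
    · rw [if_pos hc, if_pos hc]
      simp only [Bool.and_eq_true, Nat.beq_eq, Nat.ble_eq, Bool.not_eq_true'] at hc
      obtain ⟨⟨⟨⟨⟨⟨⟨⟨hw, ha1⟩, ha4⟩, hb1⟩, hb4⟩, hab⟩, hk1⟩, hk2⟩, hk3⟩ := hc
      right
      refine ⟨_, _, _, _, _, rfl, rfl, ?_⟩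
      exact rep_cons (rep_cons (rep_cons (rep_cons (rep_cons (rep_cons h _ (opc_lt a)) _ (by omega)) _ (opc_lt b))
        _ (by omega)) _ (by norm_num)) _ (by norm_num)
    · rw [if_neg hc, if_neg hc]
      exact Or.inl ⟨rfl, rfl⟩

theorem mvsF_eq : ∀ (ms : List Mv) {KN : ℕ} {K : List (ℕ × ℕ)}, Rep KN K → mvsF P KN ms = mvs P K ms
  | [], _, _, _ => rfl
  | mo :: ms, KN, K, h => by
    simp only [mvsF, mvs]
    rcases mvF_rel (P := P) h mo with ⟨e1, e2⟩ | ⟨KN', K', v, d, h', e1, e2, hR⟩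
    · rw [e1, e2]
    · rw [e1, e2]
      simp only [mvsF_eq ms hR]
      rfl

theorem chkCeF_eq (h : Rep KN K) (L : List (ℕ × ℤ)) (b : ℕ → ℤ) (c : ℕ × ℕ × List ℕ) :
    chkCeF P st KN H L b c = chkCe4 P st K H L b c := by
  simp only [chkCeF, chkCe4, pthF_eq h]
  rfl

theorem chkRedF_eq (h : Rep KN K) (ms : List Mv) (v u : ℕ) (p : List ℕ) (ce : List (ℕ × ℕ × List ℕ)) :
    chkRedF P st KN H ms v u p ce = chkRed4 P st K H ms v u p ce := by
  have hf : ∀ (L : List (ℕ × ℤ)) (b : ℕ → ℤ), chkCeF P st KN H L b = chkCe4 P st K H L b :=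
    fun L b => funext fun c => chkCeF_eq h L b c
  simp only [chkRedF, chkRed4, pthF_eq h, mvsF_eq ms h, hf]
  rfl

theorem chkHorF_eq (h : Rep KN K) (ms : List Mv) (ce : List (ℕ × ℕ × List ℕ)) :
    chkHorF P st KN H ms ce = chkHor4 P st K H ms ce := by
  have hf : ∀ (L : List (ℕ × ℤ)) (b : ℕ → ℤ), chkCeF P st KN H L b = chkCe4 P st K H L b :=
    fun L b => funext fun c => chkCeF_eq h L b c
  simp only [chkHorF, chkHor4, mvsF_eq ms h, hf]
  rfl

theorem typKF_eq (h : Rep KN K) (t v : ℕ) : ∀ z, typKF KN t v z = typK K t v z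
  | 0 => rfl
  | z + 1 => by
    have h0 : ∀ c, getN KN c = get K c := h
    simp only [typKF, typK, h0, typKF_eq h t v z]

theorem chkTypF_eq (h : Rep KN K) (t' : ℕ) : chkTypF P st KN t' = chkTyp P st K t' := by
  simp only [chkTypF, chkTyp, typKF_eq h]

theorem chkDomF_eq (h : Rep KN K) (v u : ℕ) (p : List ℕ) :
    chkDomF P st t KN H v u p = chkDom P st t K H v u p := by
  simp only [chkDomF, chkDom, typKF_eq h, pthF_eq h]
  rfl

theorem okBF_eq (h : Rep KN K) (c : ℕ) : okBF P KN H c = okB4 P K H c := by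
  have h0 : ∀ c, getN KN c = get K c := h
  simp only [okBF, okB4, h0]

theorem incF_eq (h : Rep KN K) (N : List (ℕ × ℕ)) : incF KN N = inc K N := by
  have h0 : ∀ c, getN KN c = get K c := h
  simp only [incF, inc, h0]

theorem impF_eq (h : Rep KN K) (c d : ℕ) : impF P KN c d = imp P K c d := by
  have h0 : ∀ c, getN KN c = get K c := h
  simp only [impF, imp, h0]

theorem chkF_eq (N : ℕ → List (ℕ × ℕ)) (k : ℕ) (T : Tr4) : ∀ {KN : ℕ} {K : List (ℕ × ℕ)} (H : Hu), Rep KN K →
    chkF P st t N k KN H T = chk4 P st t N k K H T := by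
  induction T with
  | no => intro KN K H h; rfl
  | con u p => intro KN K H h; exact chkConF_eq h u p
  | red ms v u p ce => intro KN K H h; exact chkRedF_eq h ms v u p ce
  | hor ms ce => intro KN K H h; exact chkHorF_eq h ms ce
  | typ t' => intro KN K H h; exact chkTypF_eq h t'
  | dom v u p => intro KN K H h; exact chkDomF_eq h v u p
  | use j =>
    intro KN K H h
    simp only [chkF, chk4, incF_eq h]
  | br c t1 t2 t3 t4 t5 t6 i1 i2 i3 i4 i5 i6 =>
    intro KN K H h
    have r : ∀ (a b d e : ℕ), d < 8 → e < 8 → Rep (setN (setN KN b e) a d) ((a, d) :: (b, e) :: K) :=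
      fun a b d e hd he => rep_cons (rep_cons h b he) a hd
    simp only [chkF, chk4, okBF_eq h, impF_eq h]
    rw [i1 _ (r c (nbc c 1) 1 2 (by norm_num) (by norm_num)),
      i2 _ (r c (nbc c 2) 2 1 (by norm_num) (by norm_num)),
      i3 _ (r c (nbc c 3) 3 4 (by norm_num) (by norm_num)),
      i4 _ (r c (nbc c 4) 4 3 (by norm_num) (by norm_num)),
      i5 _ (r c (nbc c 5) 5 6 (by norm_num) (by norm_num)),
      i6 _ (r c (nbc c 6) 6 5 (by norm_num) (by norm_num))]

theorem iniF_rep : ∀ (N : List (ℕ × ℕ)), okN N = true → Rep (iniF N) (ini N).1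
  | [], _ => rep_nil
  | (c, d) :: N, h => by
    unfold okN at h
    rw [List.all_cons, Bool.and_eq_true] at h
    obtain ⟨h1, h2⟩ := h
    simp only [Bool.and_eq_true, Bool.or_eq_true, Nat.beq_eq, Nat.ble_eq] at h1
    exact rep_cons (rep_cons (iniF_rep N h2) _ (opc_lt d)) _ (by omega)

/-- the fast checker is sound -/
theorem chkLF_imp {N : ℕ → List (ℕ × ℕ)} : ∀ (l : List Tr4) (k : ℕ), chkLF P st t N k l = true →
    chkL P st t N k l = true
  | [], _, _ => rfl
  | T :: l, k, h => by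
    simp only [chkLF, Bool.and_eq_true] at h
    obtain ⟨⟨h1, h2⟩, h3⟩ := h
    simp only [chkL, Bool.and_eq_true]
    rw [chkF_eq N k T _ (iniF_rep _ h1)] at h2
    exact ⟨⟨h1, h2⟩, chkLF_imp l (k + 1) h3⟩

end Pool.Agent.FT4D
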