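import Pool.Agent.FT4D.CheckF

/-!
# Four levels: learnt configurations (found by a computer search)
-/

namespace Pool.Agent.FT4D

def f10n0 : List (List (ℕ × ℕ)) :=
  [[(952, 1), (954, 3), (955, 1), (1091, 1)], [(1089, 3), (1090, 1)], [(832, 1), (953, 1), (954,
  3), (963, 1), (1088, 5)], [(953, 1), (954, 3), (960, 3), (963, 1), (1088, 5)], [(953, 1), (954,
  3), (1090, 3)], [(953, 1), (954, 3), (1090, 5)], [(963, 1), (1081, 5), (1090, 3)], [(824, 1),
  (945, 3), (954, 3), (963, 1), (1081, 5)], [(954, 3), (963, 1), (1081, 3), (1082, 1)], [(963, 1),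
  (1080, 5), (1090, 3)], [(936, 3), (945, 3), (954, 3), (1064, 3), (1080, 5), (1201, 3)], [(824,
  1), (936, 3), (945, 3), (954, 3), (1080, 5), (1082, 1), (1089, 5), (1201, 3)], [(827, 1), (1074,
  3), (1081, 1)], [(954, 3), (961, 1), (1075, 3), (1080, 5), (1082, 1), (1088, 1), (1090, 5),
  (1209, 1)], [(697, 1), (824, 1), (827, 1), (954, 3)], [(825, 3), (835, 1), (954, 3)], [(936, 3),
  (945, 3), (947, 1), (954, 3)], [(1090, 1), (1091, 3), (1097, 1), (1216, 3)], [(954, 3), (960,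
  3), (961, 1), (963, 3), (1088, 3), (1091, 3), (1097, 5)], [(954, 3), (960, 3), (961, 1), (963,
  3), (1088, 3), (1090, 1), (1091, 3), (1219, 3)], [(824, 1), (827, 1), (936, 3), (945, 3), (954,
  3), (960, 3), (961, 1), (963, 3), (1080, 5), (1082, 5), (1088, 3), (1090, 1), (1091, 3)], [(824,
  1), (827, 1), (945, 3), (954, 3), (960, 3), (961, 1), (963, 3)], [(824, 1), (827, 1), (945, 3),
  (954, 3)], [(825, 1), (946, 3), (1073, 3), (1080, 1), (1082, 3)], [(835, 1), (954, 5), (961, 1),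
  (1082, 3)], [(954, 5), (961, 1), (963, 3), (1082, 3)], [(954, 5), (961, 1), (1082, 3), (1091,
  1)], [(954, 1), (1073, 3)], [(952, 3), (954, 3), (1091, 3)], [(825, 1), (946, 3), (1082, 5)],
  [(835, 1), (952, 3), (954, 5), (961, 1), (1090, 1)], [(952, 3), (954, 5), (961, 1), (963, 3),
  (1090, 1)]]

def f10n1 : List (List (ℕ × ℕ)) :=
  [[(1080, 1), (1082, 5), (1090, 1), (1209, 3), (1211, 1)], [(961, 1), (962, 5), (1080, 1), (1088,
  3), (1090, 1), (1091, 3), (1219, 3)], [(954, 5), (961, 1), (962, 5), (1073, 3), (1080, 1),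
  (1082, 5), (1088, 3), (1090, 1), (1091, 3), (1211, 1)], [(1080, 1), (1088, 3), (1090, 1), (1217,
  3)], [(961, 1), (962, 5), (969, 5), (1088, 3), (1090, 1), (1091, 3)], [(961, 1), (962, 5), (971,
  3), (1088, 3), (1090, 1), (1091, 3)], [(1073, 3), (1074, 1), (1080, 1), (1082, 5), (1090, 1),
  (1203, 3)], [(946, 5), (954, 5), (1073, 3), (1080, 1), (1082, 5), (1090, 1), (1203, 3)], [(843,
  1), (961, 1), (962, 5), (1088, 3), (1090, 1), (1091, 3)], [(961, 1), (1080, 1), (1088, 3),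
  (1090, 1), (1091, 3), (1209, 1), (1211, 1)], [(1088, 3), (1090, 1), (1091, 3), (1097, 3), (1219,
  3)], [(841, 1), (952, 3), (970, 5), (1088, 3)], [(952, 3), (969, 3), (970, 5), (1088, 3)],
  [(952, 3), (961, 1), (1073, 3), (1080, 1), (1082, 5), (1088, 3), (1090, 1), (1091, 3)], [(952,
  3), (954, 5), (961, 1), (1081, 5), (1090, 1), (1091, 3)], [(826, 1), (945, 3)], [(952, 3), (961,
  1), (1081, 5), (1088, 3), (1090, 1), (1091, 3)], [(954, 5), (961, 1), (1082, 3), (1088, 3)],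
  [(825, 1), (946, 3), (963, 1)], [(963, 1), (1080, 1), (1081, 5), (1090, 1), (1209, 1), (1217,
  1)], [(833, 1), (952, 3), (954, 5), (963, 1), (1090, 1)], [(952, 3), (954, 5), (961, 3), (963,
  1), (1090, 1)], [(1080, 1), (1088, 5), (1090, 1), (1217, 3)], [(1096, 3), (1097, 5), (1106, 1)],
  [(1096, 3), (1097, 5), (1106, 3)], [(969, 5), (1096, 3), (1097, 5), (1099, 3)], [(1090, 1),
  (1219, 3), (1225, 1)], [(952, 3), (961, 5), (963, 1), (1088, 5), (1090, 1), (1216, 3), (1217,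
  1), (1219, 3)], [(952, 3), (954, 5), (961, 5), (963, 1), (1080, 1), (1081, 5), (1088, 5), (1090,
  1), (1201, 3), (1217, 1)], [(952, 3), (953, 5), (963, 1), (1082, 3), (1088, 5)], [(952, 3),
  (963, 1), (1080, 1), (1088, 5)], [(952, 3), (1080, 1)]]

def f10n2 : List (List (ℕ × ℕ)) :=
  [[(826, 1), (952, 3), (961, 1), (1081, 1)], [(946, 3), (952, 3), (961, 1), (1081, 1), (1082,
  3)], [(952, 3), (963, 3)], [(952, 3), (954, 5), (961, 1), (1081, 5), (1088, 1)], [(833, 1),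
  (952, 3)], [(952, 3), (961, 3)], [(961, 5), (963, 1), (1088, 1), (1089, 3)], [(953, 1), (961,
  5), (963, 1), (1088, 1)], [(953, 5), (961, 5), (963, 1), (1072, 3), (1088, 1)], [(826, 1), (947,
  3), (952, 3), (961, 5)], [(952, 3), (1072, 3), (1088, 1)], [(961, 5), (1088, 3)], [(826, 1),
  (952, 3), (961, 5), (963, 1)], [(1072, 3), (1073, 1), (1081, 5), (1090, 1)], [(952, 3), (1072,
  3)], [(825, 1), (954, 3), (1090, 3), (1091, 1)], [(818, 1), (937, 3), (944, 3), (955, 1)],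
  [(937, 3), (944, 3), (954, 3), (955, 1), (1074, 3), (1080, 5), (1090, 1), (1210, 5)], [(706, 1),
  (825, 1), (832, 1), (835, 1), (961, 1)], [(825, 1), (832, 1), (834, 3), (835, 1), (961, 1)],
  [(961, 1), (1088, 3), (1090, 1), (1091, 3), (1097, 5), (1209, 5), (1216, 3), (1219, 3)], [(961,
  1), (1088, 3), (1090, 1), (1091, 3), (1209, 5), (1219, 3)], [(696, 1), (825, 1), (826, 5), (833,
  5), (944, 3), (945, 5), (954, 3)], [(696, 1), (825, 1), (832, 1), (835, 1), (944, 3), (954, 3),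
  (955, 1), (961, 1), (1074, 3), (1080, 5), (1088, 3), (1090, 1), (1091, 3)], [(954, 3), (960, 3),
  (961, 1), (963, 3), (1088, 3), (1090, 1), (1091, 3)], [(944, 3), (954, 3), (961, 1), (963, 3),
  (1088, 3), (1090, 1), (1091, 3)], [(833, 1), (944, 3), (954, 3)], [(944, 3), (954, 3), (961,
  3)], [(961, 1), (1073, 3), (1080, 1), (1082, 5), (1088, 3), (1090, 1), (1091, 3), (1211, 1),
  (1219, 1)], [(825, 1), (944, 3), (947, 3), (954, 3)], [(944, 3)], [(952, 5), (954, 3), (963, 1),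
  (1081, 5)]]

def f10n3 : List (List (ℕ × ℕ)) :=
  [[(1073, 3), (1080, 1), (1082, 1)], [(816, 1), (827, 1), (946, 1), (952, 5), (1073, 3)], [(816,
  1), (827, 1), (952, 5), (954, 3), (1064, 3), (1066, 3), (1073, 3), (1082, 5)], [(952, 5), (961,
  1), (1073, 3), (1080, 1), (1082, 5), (1088, 3), (1090, 1), (1091, 3), (1211, 1)], [(832, 1),
  (835, 1), (952, 5), (954, 3), (961, 1), (1064, 3), (1073, 3), (1080, 1), (1082, 5), (1088, 3),
  (1090, 1), (1091, 3)], [(952, 5), (954, 3), (961, 1), (1072, 3)], [(952, 5), (954, 3)], []]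

def f10T : List (List (List (ℕ × ℕ))) :=
  [f10n0, f10n1, f10n2, f10n3]

/-- the configurations -/
def f10N (k : ℕ) : List (ℕ × ℕ) := (f10T.getD (k / 32) []).getD (k % 32) []

end Pool.Agent.FT4D
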