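import Pool.Agent.FT4D.CheckF

/-!
# Four levels: learnt configurations (found by a computer search)
-/

namespace Pool.Agent.FT4D

def f11n0 : List (List (ℕ × ℕ)) :=
  [[(832, 1), (952, 1), (962, 1), (1089, 3)], [(1073, 3), (1082, 1), (1088, 3), (1089, 1)], [(827,
  1), (952, 1), (953, 3), (962, 1), (1082, 5)], [(962, 1), (969, 1), (1088, 3)], [(952, 1), (953,
  3), (962, 1), (1088, 3), (1089, 1), (1091, 3), (1210, 3), (1219, 3)], [(938, 3), (947, 3), (952,
  1), (953, 3), (1073, 3), (1082, 5), (1089, 1), (1208, 5)], [(699, 1), (817, 1), (826, 1), (938,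
  3), (952, 1), (953, 3)], [(705, 1), (826, 1), (832, 1), (835, 1), (962, 1)], [(826, 1), (832,
  1), (833, 3), (835, 1), (962, 1)], [(840, 1), (962, 1), (969, 3)], [(833, 5), (840, 1), (843,
  1), (969, 5)], [(841, 1), (962, 1), (968, 3)], [(968, 3), (969, 5), (971, 3), (1097, 5)], [(962,
  1), (1088, 3), (1091, 3), (1097, 1)], [(962, 1), (1088, 3), (1091, 3), (1097, 3)], [(947, 3),
  (1066, 3), (1082, 5), (1203, 3)], [(699, 1), (826, 1), (832, 1), (835, 1), (938, 3), (947, 3),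
  (952, 1), (953, 3), (962, 1), (1073, 3), (1082, 5), (1088, 3), (1089, 1), (1091, 3)], [(826, 1),
  (832, 1), (835, 1), (945, 5), (947, 3), (953, 3), (962, 1)], [(953, 3), (960, 3), (962, 1),
  (963, 3), (1088, 3), (1097, 5)], [(697, 1), (824, 3), (826, 1), (840, 1), (955, 3), (960, 5),
  (962, 1), (969, 5), (1091, 3)], [(825, 3), (826, 1), (840, 1), (960, 5)], [(816, 1), (826, 1),
  (840, 1), (945, 3), (952, 1), (955, 3), (960, 5), (962, 1), (969, 5), (1091, 3)], [(704, 1),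
  (826, 1), (833, 3), (962, 1)], [(707, 1), (833, 5), (840, 1), (969, 5)], [(819, 3), (826, 1),
  (936, 3), (945, 3), (955, 3), (1081, 5), (1083, 1), (1089, 1), (1091, 3), (1208, 5), (1210, 1),
  (1216, 1), (1218, 5)], [(808, 3), (824, 5), (826, 1), (936, 3), (945, 3), (955, 3)], [(699, 1),
  (824, 5), (826, 1), (840, 1), (936, 3), (945, 3), (952, 1), (955, 3), (960, 5), (962, 1), (969,
  5)], [(955, 3), (960, 5), (962, 1), (968, 3), (1091, 3), (1097, 5)], [(962, 1), (1089, 1),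
  (1202, 3), (1219, 1)], [(962, 1), (1089, 1), (1202, 3), (1216, 1), (1219, 3)], [(962, 1), (969,
  5), (1088, 3), (1089, 1), (1091, 3), (1097, 5), (1202, 3), (1219, 3)], [(826, 1), (945, 3),
  (952, 1), (955, 3), (960, 5), (962, 1), (1081, 5), (1083, 1), (1088, 3), (1089, 1), (1091, 3),
  (1097, 5)]]

def f11n1 : List (List (ℕ × ℕ)) :=
  [[(952, 1), (960, 5), (962, 1), (1089, 1)], [(952, 1)], [(960, 1), (1081, 1), (1089, 1)], [(960,
  1), (1089, 3)], [(824, 1), (826, 1), (953, 3)], [(1089, 1), (1090, 3)], [(953, 3), (962, 3)],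
  [(953, 3), (954, 1), (960, 1), (1089, 1)], [(824, 1), (960, 1), (1073, 3), (1082, 1)], [(960,
  1), (1073, 3), (1082, 3)], [(824, 1), (960, 1), (1073, 3), (1082, 5)], [(953, 3), (960, 1),
  (1081, 5)], [(824, 1), (953, 3), (960, 1)], [(824, 1), (1073, 3), (1082, 1)], [(832, 1), (953,
  3), (962, 1), (1080, 5), (1083, 3)], [(824, 1), (1074, 3), (1081, 1), (1083, 1)], [(832, 1),
  (834, 3), (835, 1), (953, 3)], [(706, 1), (832, 1), (835, 1), (953, 3)], [(1080, 5), (1083, 1),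
  (1089, 1), (1208, 1), (1216, 1)], [(819, 1), (824, 1), (945, 1), (954, 5), (1074, 3)], [(699,
  1), (819, 1), (824, 1), (953, 3), (1065, 3), (1067, 3), (1074, 3), (1080, 5)], [(1080, 5),
  (1083, 1), (1089, 1), (1208, 1), (1210, 3)], [(824, 1), (832, 1), (835, 1), (939, 3), (953, 3),
  (954, 5), (962, 1), (1067, 3), (1074, 3), (1080, 5)], [(824, 1), (832, 1), (835, 1), (953, 3),
  (954, 5), (962, 1), (1074, 3)], [(953, 3), (960, 3), (962, 1), (1080, 5), (1083, 3)], [(953, 3),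
  (960, 3), (962, 1), (963, 3), (1088, 3), (1089, 1), (1091, 3)], [(953, 3), (960, 3), (962, 1),
  (963, 3), (1091, 3)], [(824, 1), (953, 3), (960, 3), (962, 1)], [(824, 1), (953, 3)], [(955, 3),
  (962, 3)], [(955, 3), (962, 1), (1080, 5), (1082, 1)], [(832, 1), (953, 5), (962, 1), (1089,
  1)]]

def f11n2 : List (List (ℕ × ℕ)) :=
  [[(955, 3), (960, 3), (1097, 5)], [(840, 1), (960, 5), (962, 1), (1088, 3), (1089, 1), (1091,
  3), (1097, 5), (1216, 3), (1219, 3)], [(817, 1), (824, 1), (953, 5), (1074, 3), (1080, 5)],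
  [(944, 5), (1065, 3), (1080, 5), (1200, 3)], [(824, 1), (953, 5), (955, 3), (962, 1)], [(834,
  1), (953, 5), (955, 3)], [(824, 1), (953, 5), (960, 1), (1073, 3)], [(953, 5), (955, 3), (961,
  5), (1081, 5), (1089, 1)], [(953, 5), (955, 3), (961, 5), (1081, 1), (1089, 5)], [(824, 1)],
  [(944, 3), (1081, 1), (1082, 5)], [(944, 3), (1073, 3), (1082, 1)], [(944, 3), (1073, 3), (1082,
  5)], [(962, 1), (1080, 5), (1083, 1), (1088, 3), (1089, 1), (1091, 3), (1208, 1), (1210, 1)],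
  [(944, 3), (953, 3), (962, 1), (1080, 5), (1088, 3), (1089, 1), (1091, 3)], [(944, 3), (953,
  3)], [(840, 1), (960, 5), (962, 1), (1080, 5), (1083, 1), (1088, 3), (1089, 1), (1091, 3),
  (1097, 5), (1208, 1), (1209, 5)], [(840, 1), (955, 3), (960, 5), (962, 1), (1074, 3), (1080, 5),
  (1083, 1), (1088, 3), (1089, 1), (1091, 3), (1097, 5), (1208, 1)], [(953, 5), (1073, 3), (1080,
  1)], [(944, 3), (953, 5), (955, 3)], [(832, 1), (952, 5), (955, 3), (962, 1), (1081, 3)], [(952,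
  5), (955, 3), (960, 3), (962, 1), (1081, 3)], [(952, 5), (955, 3), (962, 1), (1083, 1), (1091,
  1)], [(832, 1), (952, 5), (955, 3), (962, 1), (1089, 1)], [(955, 3), (962, 1), (1073, 1), (1074,
  3), (1080, 5), (1083, 1), (1089, 1), (1200, 3)], [(944, 5), (952, 5), (955, 3), (962, 1), (1074,
  3), (1080, 5), (1083, 1), (1089, 1), (1200, 3)], [(826, 1), (946, 5), (952, 5), (955, 3), (960,
  5), (962, 1), (1074, 3), (1080, 5), (1083, 1), (1088, 3), (1089, 1), (1091, 3), (1097, 5)],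
  [(952, 5), (955, 3), (962, 1), (1081, 5), (1089, 1)], [(952, 5), (955, 3), (962, 1)], [(1083,
  1), (1089, 1), (1090, 5), (1218, 3)], [(960, 1), (961, 5), (1072, 3), (1081, 5), (1083, 1),
  (1089, 1), (1090, 5), (1202, 3), (1218, 1), (1219, 3)], [(952, 5), (955, 3), (960, 1), (961, 5),
  (1089, 1)]]

def f11n3 : List (List (ℕ × ℕ)) :=
  [[]]

def f11T : List (List (List (ℕ × ℕ))) :=
  [f11n0, f11n1, f11n2, f11n3]

/-- the configurations -/
def f11N (k : ℕ) : List (ℕ × ℕ) := (f11T.getD (k / 32) []).getD (k % 32) []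

end Pool.Agent.FT4D
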