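import Pool.Agent.FT4D.CheckF

/-!
# Four levels: learnt configurations (found by a computer search)
-/

namespace Pool.Agent.FT4D

def f21n0 : List (List (ℕ × ℕ)) :=
  [[(1091, 1), (1217, 3), (1218, 1)], [(696, 1), (698, 1), (825, 1), (835, 1)], [(944, 3), (1065,
  3), (1074, 3), (1081, 1), (1091, 1), (1210, 1)], [(1081, 1), (1208, 1), (1210, 1)], [(944, 3),
  (1074, 3), (1081, 1), (1091, 1), (1210, 1), (1218, 1)], [(939, 3), (944, 3), (945, 1), (1074,
  3)], [(818, 3), (825, 1), (944, 3), (945, 1), (1067, 3), (1074, 3)], [(808, 3), (825, 1), (826,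
  5), (944, 3), (945, 1), (946, 5), (1074, 3)], [(696, 1), (825, 1), (826, 5), (944, 3), (945, 1),
  (1067, 3), (1074, 3), (1081, 1), (1091, 1), (1200, 3), (1210, 1)], [(1081, 1), (1091, 1), (1208,
  3), (1210, 1)], [(1072, 5), (1074, 3), (1081, 1), (1091, 1), (1210, 1)], [(819, 1), (937, 3),
  (944, 3), (1074, 3)], [(696, 1), (819, 1), (825, 1), (826, 3), (944, 3), (1074, 3)], [(1081, 1),
  (1091, 1), (1210, 3), (1216, 1)], [(1081, 1), (1091, 1), (1200, 5), (1210, 3), (1217, 1), (1330,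
  3)], [(1074, 3), (1081, 1), (1091, 1), (1200, 3), (1201, 1), (1210, 3), (1338, 5)], [(945, 1),
  (1065, 1), (1074, 3), (1081, 1), (1091, 1), (1210, 3), (1216, 3), (1338, 5)], [(1081, 1), (1091,
  1), (1210, 3), (1217, 1), (1338, 1), (1346, 1)], [(819, 1), (945, 1), (1064, 3), (1065, 1),
  (1074, 3), (1081, 1), (1091, 1), (1210, 3), (1217, 1), (1330, 3)], [(819, 1), (938, 3), (945,
  1), (1065, 1), (1067, 3), (1074, 3)], [(1074, 3), (1081, 1), (1192, 3), (1201, 1), (1210, 3)],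
  [(1081, 1), (1200, 5), (1210, 3), (1216, 3), (1217, 1), (1338, 1)], [(819, 1), (938, 3), (944,
  3), (945, 1), (1065, 1), (1074, 3), (1081, 1), (1091, 1), (1210, 3), (1216, 3), (1217, 1)],
  [(945, 1), (1074, 3), (1081, 1), (1091, 1), (1210, 3), (1216, 3), (1338, 5)], [(938, 3), (1057,
  3), (1064, 3), (1074, 3), (1081, 1), (1193, 3), (1203, 3), (1210, 3), (1330, 3)], [(938, 3),
  (944, 3), (945, 1), (1057, 3), (1074, 3), (1081, 1), (1091, 1), (1210, 3), (1216, 3), (1217, 1),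
  (1346, 5)], [(1072, 1), (1074, 3), (1081, 1), (1201, 1), (1210, 3)], [(819, 1), (938, 3), (944,
  3), (945, 1), (1057, 3), (1074, 3), (1081, 1), (1201, 1), (1210, 3)], [(808, 3), (809, 1), (819,
  1), (825, 1), (826, 5), (938, 3), (944, 3), (945, 1)], [(929, 3), (938, 3), (945, 1), (1057, 3),
  (1064, 3), (1074, 3)], [(808, 3), (819, 1), (825, 1), (826, 5), (938, 3), (944, 3), (945, 1),
  (1057, 3), (1074, 3)], [(819, 1), (944, 3), (945, 1), (1064, 5), (1074, 3), (1081, 1), (1201,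
  1), (1210, 3)]]

def f21n1 : List (List (ℕ × ℕ)) :=
  [[(944, 3), (945, 1), (1064, 5), (1074, 3), (1081, 1), (1193, 3)], [(819, 1), (944, 3), (945,
  1), (1064, 5), (1074, 3), (1081, 1), (1091, 1), (1210, 3), (1216, 3), (1217, 1)], [(944, 3),
  (1065, 3), (1074, 3), (1081, 1), (1210, 3)], [(1072, 5), (1074, 3), (1081, 1), (1208, 1), (1210,
  3)], [(1072, 5), (1074, 3), (1081, 1), (1210, 3), (1216, 3)], [(1072, 5), (1074, 3), (1081, 1),
  (1210, 3), (1216, 5)], [(944, 3), (945, 5), (1074, 3), (1081, 1), (1091, 1), (1210, 3)], [(696,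
  1), (819, 1), (825, 1), (826, 5), (944, 3), (1074, 3), (1081, 1), (1091, 1), (1210, 3)], [(937,
  3), (944, 3), (1074, 3), (1081, 1), (1091, 1), (1210, 3)], [(937, 3), (944, 3), (947, 1), (1074,
  3)], [(1072, 5), (1074, 3), (1081, 1), (1208, 1), (1210, 5)], [(1072, 5), (1074, 3), (1081, 1),
  (1210, 5), (1216, 5)], [(699, 1), (808, 3), (825, 1), (826, 3), (944, 3), (945, 5), (947, 1)],
  [(690, 1), (808, 3), (825, 1), (945, 5)], [(808, 3), (810, 3), (825, 1), (826, 5), (944, 3),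
  (947, 1)], [(944, 3), (1065, 3), (1067, 3), (1074, 3), (1081, 1), (1210, 5)], [(944, 3), (1067,
  3), (1074, 3), (1081, 1), (1091, 1), (1210, 5), (1218, 1)], [(696, 1), (825, 1), (826, 5), (944,
  3), (945, 1), (1067, 3), (1074, 3)], [(1067, 3), (1072, 5), (1074, 3), (1081, 1), (1210, 5)],
  [(696, 1), (825, 1), (835, 1), (944, 3), (1074, 3), (1081, 1), (1091, 1)], [(706, 1), (824, 3),
  (825, 1), (835, 1)], [(698, 1), (824, 3), (825, 1), (835, 1)], [(1090, 3), (1097, 3), (1099,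
  3)], [(824, 3), (825, 1), (834, 3), (835, 1), (944, 3), (945, 1), (960, 3), (1067, 3), (1074,
  3), (1090, 3), (1091, 1), (1097, 3)], [(824, 3), (825, 1), (834, 3), (835, 1), (960, 3), (971,
  1), (1090, 3), (1096, 5)], [(1090, 3), (1091, 1), (1096, 5), (1216, 1), (1217, 5), (1227, 1)],
  [(818, 3), (825, 1), (944, 3), (945, 1), (1074, 3)], [(937, 3), (944, 3), (1074, 3), (1081, 1),
  (1210, 5)], [(818, 3), (825, 1), (944, 3), (1074, 3), (1081, 1), (1210, 5)], [(1090, 3), (1091,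
  1), (1096, 5), (1099, 3), (1216, 1), (1217, 5)], [(810, 3), (825, 1), (826, 5), (944, 3), (945,
  5), (947, 1)], [(944, 3), (945, 5), (1067, 3), (1074, 3), (1081, 1), (1210, 5)]]

def f21n2 : List (List (ℕ × ℕ)) :=
  [[(824, 3), (825, 1), (826, 5), (835, 1), (944, 3), (1074, 3), (1081, 1), (1090, 3), (1091, 1),
  (1210, 5)], [(824, 3), (825, 1), (835, 1), (944, 3), (1074, 3), (1081, 1), (1090, 3), (1091,
  1)], [(841, 1), (963, 3), (1090, 3)], [(1090, 3), (1091, 1), (1096, 5), (1099, 3), (1216, 3),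
  (1217, 5)], [(944, 3), (1074, 3), (1081, 1), (1090, 3), (1091, 1), (1099, 3), (1210, 1)], [(696,
  1), (698, 1), (825, 1)], [(688, 1), (698, 1), (704, 5), (706, 1), (817, 5), (824, 3), (825, 1),
  (827, 3)], [(688, 1), (698, 1), (706, 1), (809, 1), (817, 5), (819, 1), (824, 3), (825, 1),
  (827, 3), (833, 3), (842, 1), (938, 3), (944, 3)], [(698, 1), (706, 1), (809, 1), (817, 5),
  (819, 1), (824, 3), (825, 1), (827, 3), (833, 3), (842, 1), (938, 3), (944, 3)], [(688, 1),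
  (809, 1), (817, 5), (825, 1), (929, 5), (936, 1), (938, 3), (939, 1), (944, 3), (945, 1), (1057,
  3), (1072, 1), (1074, 3), (1081, 1), (1091, 1), (1193, 3), (1202, 1), (1210, 3), (1216, 3),
  (1217, 1), (1227, 1), (1338, 1), (1346, 3)], [(819, 1), (824, 3), (825, 1), (826, 5), (938, 3),
  (944, 3), (945, 1), (1057, 3), (1074, 3), (1081, 1), (1091, 1), (1193, 3), (1210, 3), (1216, 3),
  (1217, 1), (1227, 1), (1338, 1), (1346, 3)], [(819, 1), (938, 3), (944, 3), (945, 1), (1057, 3),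
  (1074, 3), (1081, 1), (1091, 1), (1210, 3), (1216, 3), (1217, 1), (1330, 3)], [(819, 1), (824,
  3), (825, 1), (944, 3), (945, 1), (963, 3), (969, 3), (1074, 3), (1081, 1), (1090, 3), (1091,
  1), (1099, 3), (1210, 3), (1216, 3), (1217, 1)], [(824, 3), (825, 1), (944, 3), (960, 3), (963,
  3), (1074, 3), (1081, 1), (1090, 3), (1091, 1), (1099, 3)], [(944, 3), (1074, 3), (1081, 1),
  (1090, 3), (1091, 1)], []]

def f21T : List (List (List (ℕ × ℕ))) :=
  [f21n0, f21n1, f21n2]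

/-- the configurations -/
def f21N (k : ℕ) : List (ℕ × ℕ) := (f21T.getD (k / 32) []).getD (k % 32) []

end Pool.Agent.FT4D
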