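import Pool.Agent.FT4D.CheckF

/-!
# Four levels: learnt configurations (found by a computer search)
-/

namespace Pool.Agent.FT4D

def f22n0 : List (List (ℕ × ℕ)) :=
  [[(704, 1), (825, 1), (826, 3), (835, 1)], [(962, 3), (969, 1), (971, 1), (1088, 1)], [(1081,
  1), (1091, 1), (1208, 1), (1210, 1)], [(945, 1), (946, 3), (1067, 3), (1072, 3)], [(810, 3),
  (816, 3), (819, 3), (825, 1), (945, 1), (946, 3)], [(810, 3), (929, 3), (936, 3), (939, 3),
  (945, 1), (946, 3), (1074, 5)], [(936, 3), (1057, 3), (1066, 1), (1072, 3), (1193, 3), (1203,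
  1)], [(936, 3), (945, 1), (1057, 3), (1066, 1), (1072, 3), (1081, 1), (1200, 1), (1202, 3),
  (1203, 1)], [(936, 3), (937, 5), (945, 1), (946, 3), (1066, 1), (1072, 3), (1074, 5), (1081, 1),
  (1200, 1), (1202, 3), (1211, 1)], [(936, 3), (937, 5), (945, 1), (946, 3), (1058, 3), (1072, 3),
  (1074, 5)], [(810, 3), (936, 3), (939, 3), (945, 1), (946, 3), (1072, 3), (1074, 5), (1081, 1),
  (1200, 1), (1202, 3), (1211, 1)], [(704, 1), (825, 1), (835, 1), (945, 1), (946, 3), (962, 3),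
  (1072, 3)], [(576, 1), (578, 1), (705, 1), (835, 1)], [(569, 1), (578, 1), (690, 3), (696, 3),
  (705, 1), (826, 3), (835, 1)], [(809, 3), (819, 3), (825, 1), (929, 3), (936, 3), (945, 1),
  (946, 3), (1074, 5)], [(936, 3), (937, 5), (945, 1), (946, 3), (1072, 3), (1074, 5), (1081, 1),
  (1200, 1), (1202, 3), (1211, 1)], [(809, 3), (819, 3), (825, 1), (945, 1), (946, 3), (1072, 3),
  (1074, 5), (1081, 1), (1200, 1), (1202, 3), (1211, 1)], [(705, 1), (706, 5), (825, 1), (826, 3),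
  (835, 1), (945, 1), (946, 3), (1072, 3), (1074, 5), (1081, 1), (1200, 1), (1202, 3), (1211, 1)],
  [(696, 3), (816, 1), (825, 1), (832, 3)], [(569, 1), (689, 1), (696, 3), (698, 5), (826, 3),
  (936, 3), (946, 3)], [(690, 1), (698, 5), (816, 5), (825, 1), (826, 3), (835, 1), (946, 3)],
  [(929, 3), (945, 1), (946, 3), (1057, 3), (1064, 1), (1072, 3), (1074, 5)], [(698, 5), (809, 3),
  (825, 1), (826, 3), (835, 1), (929, 3), (936, 3), (945, 1), (946, 3), (1074, 5)], [(698, 5),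
  (810, 1), (816, 5), (825, 1), (826, 3), (835, 1), (939, 3), (945, 1), (946, 3)], [(569, 1),
  (696, 3), (698, 5), (825, 1), (826, 3), (835, 1), (929, 3), (936, 3), (945, 1), (946, 3), (1065,
  5), (1074, 5)], [(936, 3), (945, 1), (1056, 3), (1065, 1), (1074, 5)], [(809, 1), (818, 5),
  (936, 3), (945, 1), (946, 3)], [(578, 1), (696, 3), (698, 5), (705, 1)], [(578, 1), (689, 3),
  (696, 3), (705, 1), (826, 3)], [(578, 1), (696, 3), (705, 1), (825, 1), (826, 3), (832, 3),
  (835, 1), (945, 1), (946, 3), (1072, 3), (1074, 5), (1081, 1), (1200, 1), (1202, 3), (1211, 1)],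
  [(570, 1), (689, 3), (696, 1), (705, 1), (825, 1), (826, 3), (832, 3), (835, 1), (945, 1), (946,
  3), (1074, 5)], [(570, 1), (696, 1), (705, 1), (825, 1), (826, 3), (832, 3), (835, 1), (945, 1),
  (946, 3), (1074, 5)]]

def f22n1 : List (List (ℕ × ℕ)) :=
  [[(570, 1), (688, 3), (705, 1), (825, 1)], [(696, 5), (816, 1), (825, 1), (832, 3)], [(696, 5),
  (816, 5), (825, 1), (832, 3)], [(689, 1), (810, 1), (826, 3), (939, 3), (945, 1), (946, 3)],
  [(689, 1), (816, 3), (825, 1), (826, 3), (929, 3), (936, 3), (945, 1), (946, 3), (1065, 5),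
  (1074, 5)], [(689, 1), (808, 3), (825, 1), (826, 3), (946, 3)], [(689, 1), (825, 1), (826, 3),
  (929, 3), (936, 3), (945, 1), (946, 3), (1065, 5), (1074, 5)], [(809, 3), (826, 3), (929, 3),
  (936, 3), (938, 5), (945, 1), (946, 3)], [(809, 3), (825, 1), (826, 3), (929, 3), (936, 3),
  (945, 1), (946, 3), (1065, 5), (1074, 5)], [(696, 5), (825, 1), (826, 3), (832, 3), (929, 3),
  (936, 3), (945, 1), (946, 3), (1065, 5), (1074, 5)], [(696, 5), (825, 1), (826, 3), (832, 3),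
  (945, 1), (946, 3), (1072, 3), (1074, 5), (1081, 1), (1200, 1), (1202, 3), (1211, 1)], [(690,
  3), (809, 3), (816, 1), (825, 1), (826, 3), (937, 5)], [(690, 3), (816, 1), (825, 1), (826, 3),
  (945, 1), (946, 3), (1072, 3)], [(690, 3), (808, 3), (825, 1), (826, 3), (945, 1), (946, 3)],
  [(576, 1), (690, 3), (696, 1), (705, 1), (825, 1), (826, 3)], [(576, 1), (688, 3), (690, 3),
  (705, 1), (825, 1), (826, 3)], [(698, 5), (809, 3), (825, 1), (826, 3), (835, 1), (945, 1),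
  (946, 3), (1072, 3), (1074, 5), (1081, 1), (1200, 1), (1202, 3), (1211, 1)], [(576, 1), (705,
  1), (706, 3), (825, 1), (826, 3), (832, 3), (835, 1), (945, 1), (946, 3), (1072, 3), (1074, 5),
  (1081, 1), (1200, 1), (1202, 3), (1211, 1)], [(696, 3), (816, 5), (825, 1), (832, 3)], [(696,
  3), (825, 1), (826, 3), (832, 3), (929, 3), (936, 3), (945, 1), (946, 3), (1065, 5), (1074, 5)],
  [(696, 3), (825, 1), (826, 3), (832, 3), (929, 3), (936, 3), (945, 1), (946, 3), (1072, 3),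
  (1074, 5)], [(688, 1), (809, 1), (825, 1), (945, 1), (946, 3)], [(690, 3), (809, 1), (816, 3),
  (825, 1), (826, 3), (936, 3), (945, 1), (946, 3), (1074, 5)], [(689, 1), (698, 5), (816, 3),
  (825, 1), (826, 3), (835, 1)], [(696, 3), (705, 1), (706, 3), (825, 1), (826, 3), (832, 3),
  (835, 1), (945, 1), (946, 3), (1072, 3), (1074, 5), (1081, 1), (1200, 1), (1202, 3), (1211, 1)],
  [(705, 1), (706, 3), (825, 1), (826, 3), (832, 3), (835, 1), (841, 1), (945, 1), (946, 3), (962,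
  3), (1072, 3), (1074, 5), (1081, 1), (1200, 1), (1202, 3), (1211, 1)], [(705, 1), (825, 1),
  (826, 3), (832, 3), (835, 1), (841, 1), (945, 1), (946, 3), (962, 3), (1072, 3), (1074, 5),
  (1081, 1), (1200, 1), (1202, 3), (1211, 1)], [(704, 3), (713, 1), (835, 1), (842, 3), (971, 1)],
  [(705, 1), (713, 1), (825, 1), (826, 3), (832, 3), (835, 1), (945, 1), (946, 3), (962, 3), (971,
  1), (1072, 3), (1074, 5), (1081, 1), (1200, 1), (1202, 3), (1211, 1)], [(578, 1), (690, 3),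
  (704, 3), (705, 1), (816, 5), (825, 1), (826, 3), (832, 3), (835, 1), (945, 1), (946, 3)],
  [(578, 1), (690, 3), (705, 1), (816, 5), (825, 1), (826, 3), (832, 3), (835, 1), (945, 1), (946,
  3), (1072, 3), (1074, 5), (1081, 1), (1200, 1), (1202, 3), (1211, 1)], [(688, 1), (825, 1),
  (826, 3), (832, 3)]]

def f22n2 : List (List (ℕ × ℕ)) :=
  [[(816, 3), (825, 1), (826, 3), (929, 3), (936, 3), (945, 1), (946, 3), (1065, 5), (1074, 5)],
  [(816, 3), (825, 1), (826, 3), (929, 3), (936, 3), (945, 1), (946, 3), (1072, 3), (1074, 5)],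
  [(698, 5), (816, 5), (826, 3), (835, 1), (945, 1), (946, 3)], [(578, 1), (705, 1), (825, 1),
  (826, 3), (832, 3), (835, 1), (945, 1), (946, 3), (1072, 3), (1074, 5), (1081, 1), (1200, 1),
  (1202, 3), (1211, 1)], [(569, 1), (704, 3), (705, 1), (706, 3), (825, 1), (826, 3), (832, 3),
  (835, 1), (945, 1), (946, 3), (1074, 5)], [(568, 1), (570, 1), (689, 3), (704, 3), (705, 1),
  (706, 3), (826, 3), (835, 1), (841, 5)], [(705, 1), (706, 3), (825, 1), (826, 3), (832, 3),
  (835, 1), (841, 5), (945, 1), (946, 3), (1072, 3), (1074, 5), (1081, 1), (1200, 1), (1202, 3),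
  (1211, 1)], [(705, 1), (825, 1), (826, 3), (832, 3), (835, 1), (945, 1), (946, 3), (962, 3),
  (969, 3), (971, 1), (1072, 3), (1074, 5), (1081, 1), (1200, 1), (1202, 3), (1211, 1)], [(706,
  3), (826, 3), (835, 1), (841, 3), (962, 3)], [(705, 1), (825, 1), (826, 3), (832, 3), (835, 1),
  (945, 1), (946, 3), (962, 3), (968, 5), (971, 1), (1072, 3), (1074, 5), (1081, 1), (1200, 1),
  (1202, 3), (1211, 1)], [(698, 5), (816, 1), (826, 3), (835, 1), (945, 1), (946, 3)], [(690, 1),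
  (698, 5), (826, 3), (835, 1), (945, 1), (946, 3)], [(688, 3), (698, 5), (825, 1), (826, 3),
  (835, 1), (945, 1), (946, 3)], [(938, 1), (945, 1), (946, 3), (1057, 3), (1072, 3)], [(945, 1),
  (1081, 1), (1192, 3), (1202, 3), (1203, 1)], [(816, 3), (945, 1), (946, 3), (1064, 5), (1072,
  3)], [(816, 3), (938, 1), (945, 1), (946, 3), (1072, 3), (1192, 3)], [(816, 3), (945, 1), (946,
  3), (1058, 3), (1072, 3), (1192, 3)], [(689, 1), (816, 3), (825, 1), (826, 3), (945, 1), (946,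
  3), (1072, 3), (1074, 5), (1081, 1), (1192, 3), (1202, 3), (1211, 1)], [(937, 5), (945, 1),
  (1066, 1), (1072, 3), (1074, 5), (1081, 1), (1192, 3), (1202, 3), (1211, 1)], [(809, 3), (816,
  3), (825, 1), (826, 3), (945, 1), (946, 3), (1072, 3), (1074, 5), (1081, 1), (1192, 3), (1202,
  3), (1211, 1)], [(696, 5), (825, 1), (826, 3), (832, 3), (945, 1), (946, 3), (1072, 3), (1074,
  5), (1081, 1), (1192, 3), (1202, 3), (1211, 1)], [(576, 1), (705, 1), (706, 3), (825, 1), (826,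
  3), (832, 3), (835, 1), (945, 1), (946, 3), (1072, 3), (1074, 5), (1081, 1), (1192, 3), (1202,
  3), (1211, 1)], [(576, 1), (688, 3), (705, 1), (706, 5), (825, 1), (826, 3), (835, 1), (945, 1),
  (946, 3)], [(696, 3), (825, 1), (826, 3), (832, 3), (945, 1), (946, 3), (1072, 3), (1074, 5),
  (1081, 1), (1192, 3), (1202, 3), (1211, 1)], [(705, 1), (825, 1), (826, 3), (832, 3), (835, 1),
  (841, 1), (945, 1), (946, 3), (962, 3), (1072, 3), (1074, 5), (1081, 1), (1192, 3), (1202, 3),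
  (1211, 1)], [(705, 1), (713, 1), (825, 1), (826, 3), (832, 3), (835, 1), (945, 1), (946, 3),
  (962, 3), (971, 1), (1072, 3), (1074, 5), (1081, 1), (1192, 3), (1202, 3), (1211, 1)], [(570,
  1), (578, 1), (705, 1), (825, 1), (826, 3), (832, 3), (835, 1), (945, 1), (946, 3), (1072, 3),
  (1074, 5), (1081, 1), (1192, 3), (1202, 3), (1211, 1)], [(570, 1), (705, 1), (706, 3), (825, 1),
  (826, 3), (832, 3), (835, 1), (841, 5), (945, 1), (946, 3), (1072, 3), (1074, 5), (1081, 1),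
  (1192, 3), (1202, 3), (1211, 1)], [(570, 1), (705, 1), (706, 5), (825, 1), (826, 3), (835, 1)],
  [(816, 3), (825, 1), (826, 3), (945, 1), (946, 3), (1072, 3), (1074, 5), (1081, 1), (1192, 3),
  (1202, 3), (1211, 1)], [(819, 3), (825, 1), (826, 3), (945, 1), (946, 3), (1072, 3), (1074, 5),
  (1081, 1), (1192, 3), (1202, 3), (1211, 1)]]

def f22n3 : List (List (ℕ × ℕ)) :=
  [[(690, 3), (705, 1), (706, 3), (816, 5), (825, 1), (826, 3), (832, 3), (835, 1), (945, 1),
  (946, 3), (1072, 3), (1074, 5), (1081, 1), (1192, 3), (1202, 3), (1211, 1)], [(690, 3), (705,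
  1), (825, 1), (826, 3), (832, 3), (835, 1), (945, 1), (946, 3), (1072, 3), (1074, 5), (1081, 1),
  (1192, 3), (1202, 3), (1211, 1)], [(936, 3), (937, 5), (945, 1), (946, 3), (1072, 3), (1074, 5),
  (1081, 1), (1192, 3), (1202, 3), (1211, 1)], [(698, 5), (825, 1), (826, 3), (832, 3), (835, 1),
  (945, 1), (946, 3), (1072, 3), (1074, 5), (1081, 1), (1192, 3), (1202, 3), (1211, 1)], [(705,
  1), (825, 1), (826, 3), (832, 3), (835, 1), (945, 1), (946, 3), (962, 3), (969, 3), (971, 1),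
  (1072, 3), (1074, 5), (1081, 1), (1192, 3), (1202, 3), (1211, 1)], [(570, 1), (705, 1), (825,
  1), (826, 3), (832, 3), (835, 1), (945, 1), (946, 3), (962, 3), (968, 5), (971, 1), (1072, 3),
  (1074, 5), (1081, 1), (1192, 3), (1202, 3), (1211, 1)], [(698, 1), (825, 1), (835, 1), (945, 1),
  (946, 3)], [(691, 1), (810, 3), (936, 3), (939, 3), (945, 1), (946, 3), (1072, 3), (1074, 5),
  (1081, 1), (1192, 3), (1202, 3), (1211, 1)], [(825, 1), (826, 5), (939, 3), (945, 1), (946, 3),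
  (1072, 3), (1074, 5), (1081, 1), (1202, 3), (1208, 1), (1211, 1)], [(825, 1), (832, 3), (835,
  1), (945, 1), (946, 3), (962, 3), (971, 1), (1072, 3), (1081, 1), (1088, 1), (1091, 1), (1202,
  3), (1208, 1), (1218, 1)], [(1081, 1), (1088, 1), (1218, 3)], [(698, 1), (835, 1), (937, 3),
  (946, 3), (1072, 3)], [(570, 1), (689, 1), (816, 1), (825, 1), (826, 3)], [(825, 1), (826, 3),
  (832, 3), (835, 1), (937, 3), (946, 3), (1072, 3)], [(689, 1), (698, 5), (816, 1), (826, 3),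
  (937, 3), (946, 3)], [(696, 3), (816, 1), (826, 3), (835, 1), (937, 3), (946, 3)], [(713, 1),
  (825, 1), (826, 3), (832, 5), (835, 1), (937, 3), (946, 3), (962, 3), (1072, 3)], [(577, 1),
  (697, 5), (816, 1), (826, 3), (832, 5), (835, 1), (937, 3), (946, 3)], [(697, 5), (816, 1),
  (825, 1), (826, 3), (832, 5), (835, 1), (840, 5), (937, 3), (946, 3)], [(825, 1), (826, 3),
  (832, 5), (835, 1), (840, 5), (937, 3), (946, 3), (1072, 3)], [(825, 1), (826, 3), (832, 5),
  (835, 1), (937, 3), (946, 3), (962, 3), (969, 3), (971, 1), (1072, 3)], [(714, 1), (825, 1),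
  (826, 3), (832, 5), (835, 1), (937, 3), (946, 3), (1072, 3)], [(825, 1), (826, 3), (832, 5),
  (835, 1), (937, 3), (946, 3), (962, 3), (968, 5), (1072, 3)], [(937, 3), (939, 3), (946, 3)],
  [(937, 3), (946, 3), (947, 1), (1072, 3)], [(825, 1), (826, 5), (937, 3), (946, 3), (1072, 3)],
  [(698, 1), (825, 1), (835, 1), (944, 5), (946, 3)], [(825, 1), (826, 3), (835, 1), (944, 5),
  (946, 3)], [(690, 1), (808, 3), (825, 1), (944, 5)], [(808, 3), (825, 1), (826, 5), (944, 5),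
  (946, 3), (947, 1)], [(696, 1), (825, 1), (826, 5), (944, 5), (946, 3), (947, 1)], [(706, 1),
  (824, 3), (825, 1), (835, 1)]]

def f22n4 : List (List (ℕ × ℕ)) :=
  [[(561, 1), (688, 1), (690, 1), (826, 5), (947, 1)], [(688, 1), (690, 1), (698, 3), (824, 3),
  (825, 1), (826, 5), (833, 5), (944, 5), (947, 1)], [(688, 1), (690, 1), (697, 5), (825, 1),
  (826, 5), (944, 5), (947, 1)], [(571, 1), (688, 1), (690, 1), (824, 3), (825, 1), (826, 5),
  (833, 5), (944, 5), (947, 1)], [(688, 1), (690, 1), (704, 5), (824, 3), (825, 1), (826, 5),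
  (833, 5), (944, 5), (946, 3), (947, 1)], [(688, 1), (810, 3), (825, 1), (944, 5)], [(688, 1),
  (704, 5), (824, 3), (825, 1), (826, 5), (833, 5), (944, 5), (946, 3), (947, 1)], [(688, 1),
  (696, 5), (824, 3), (825, 1), (826, 5), (944, 5), (946, 3), (947, 1)], [(688, 1), (713, 1),
  (824, 3), (825, 1), (826, 5), (833, 5), (835, 1), (944, 5), (946, 3), (947, 1), (962, 3)],
  [(570, 1), (577, 1), (704, 3), (824, 3), (825, 1), (833, 5), (835, 1)], [(568, 1), (688, 1),
  (824, 3), (825, 1), (826, 5), (833, 5), (835, 1), (840, 5), (944, 5), (946, 3), (947, 1), (962,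
  3)], [(688, 1), (824, 3), (825, 1), (826, 5), (833, 5), (835, 1), (944, 5), (946, 3), (947, 1),
  (962, 3), (968, 5)], [(691, 1), (808, 3), (825, 1), (826, 5), (944, 5), (946, 3)], [(825, 1),
  (826, 5), (939, 3), (944, 5), (946, 3)], [(698, 1), (825, 1), (835, 1), (946, 3), (1072, 3)],
  [(705, 1), (825, 1), (826, 3), (832, 3), (835, 1), (945, 1), (946, 3), (962, 3), (968, 5), (971,
  1), (1072, 3), (1074, 5), (1081, 1), (1192, 3), (1202, 3), (1211, 1)], [(825, 1), (826, 3),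
  (835, 1), (937, 3), (946, 3), (962, 3), (971, 1), (1072, 3), (1088, 3)], [(939, 3), (945, 1),
  (946, 3), (1066, 3), (1072, 3), (1081, 1), (1202, 3)], [(825, 1), (826, 5), (945, 1), (946, 3),
  (1072, 3), (1081, 1), (1091, 1), (1208, 1)], [(962, 3), (969, 3), (971, 1), (1088, 3)], [(824,
  3), (825, 1), (826, 5), (833, 5), (835, 1), (944, 5), (946, 3), (947, 1), (962, 3), (968, 5)],
  [(825, 1), (826, 5), (835, 1), (944, 5), (946, 3), (962, 3), (971, 1), (1088, 3)], [(1081, 1),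
  (1091, 1), (1208, 3), (1218, 1)], [(1081, 1), (1203, 3), (1208, 3)], [(825, 1), (826, 5), (945,
  1), (946, 3), (1072, 3), (1081, 1), (1091, 1), (1208, 3)], [(825, 1), (835, 1), (946, 3), (962,
  3), (971, 1), (1072, 3), (1081, 1), (1088, 3), (1091, 1)], [(706, 3), (713, 1), (832, 3), (835,
  1), (962, 3), (971, 3)], [(705, 1), (825, 1), (826, 3), (832, 3), (835, 1), (945, 1), (946, 3),
  (962, 3), (971, 3), (1072, 3), (1074, 5), (1081, 1), (1200, 1), (1202, 3), (1211, 1)], [(705,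
  1), (825, 1), (826, 3), (832, 3), (835, 1), (945, 1), (946, 3), (962, 3), (971, 3), (1072, 3),
  (1074, 5), (1081, 1), (1192, 3), (1202, 3), (1211, 1)], [(825, 1), (826, 3), (832, 3), (835, 1),
  (945, 1), (946, 3), (962, 3), (971, 3), (1072, 3), (1081, 1), (1202, 3), (1208, 1), (1211, 1)],
  [(825, 1), (826, 3), (832, 3), (835, 1), (945, 1), (946, 3), (962, 3), (971, 3), (1072, 3),
  (1081, 1), (1091, 1), (1202, 3), (1208, 1)], [(825, 1), (826, 3), (832, 3), (835, 1), (945, 1),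
  (946, 3), (962, 3), (971, 3), (1072, 3), (1081, 1), (1200, 1), (1208, 1), (1211, 1)]]

def f22n5 : List (List (ℕ × ℕ)) :=
  [[(816, 3), (825, 1), (826, 3), (945, 1), (946, 3), (1072, 3), (1074, 5), (1081, 1), (1091, 1),
  (1192, 3), (1208, 1), (1211, 1), (1218, 3)], [(698, 5), (825, 1), (826, 3), (832, 3), (835, 1),
  (945, 1), (946, 3), (1072, 3), (1074, 5), (1081, 1), (1091, 1), (1192, 3), (1208, 1), (1211, 1),
  (1218, 3)], [(578, 1), (696, 3), (705, 1), (825, 1), (826, 3), (835, 1)], [(578, 1), (705, 1),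
  (825, 1), (826, 3), (832, 3), (835, 1), (945, 1), (946, 3), (1072, 3), (1074, 5), (1081, 1),
  (1091, 1), (1192, 3), (1208, 1), (1211, 1), (1218, 3)], [(705, 1), (706, 5), (825, 1), (826, 3),
  (835, 1), (945, 1), (946, 3), (1072, 3), (1074, 5), (1081, 1), (1091, 1), (1192, 3), (1208, 1),
  (1211, 1), (1218, 3)], [(705, 1), (825, 1), (826, 3), (832, 3), (835, 1), (945, 1), (946, 3),
  (962, 3), (971, 3), (1072, 3), (1074, 5), (1081, 1), (1202, 3), (1208, 3), (1211, 1)], [(705,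
  1), (825, 1), (826, 3), (832, 3), (835, 1), (945, 1), (946, 3), (962, 3), (969, 3), (971, 3),
  (1072, 3), (1081, 1), (1091, 1), (1097, 5), (1218, 3)], [(826, 3), (835, 1), (969, 3), (971,
  3)], [(825, 1), (826, 3), (835, 1), (937, 3), (946, 3), (962, 3), (971, 3), (1072, 3)], [(833,
  5), (835, 1), (969, 3), (971, 3)], [(825, 1), (826, 5), (835, 1), (944, 5), (946, 3), (962, 3),
  (971, 3)], [(825, 1), (835, 1), (946, 3), (962, 3), (1072, 3), (1081, 1), (1091, 1)], [(1072,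
  3), (1075, 1), (1081, 1), (1211, 1), (1218, 1)], [(570, 1), (578, 1), (705, 1), (816, 1), (825,
  1), (832, 3), (835, 1)], [(570, 1), (705, 1), (706, 3), (715, 1), (809, 1), (816, 1), (819, 1),
  (825, 1), (826, 3), (832, 3), (945, 1), (946, 3), (1066, 3), (1072, 3)], [(715, 1), (835, 1),
  (841, 5), (962, 3), (968, 3), (969, 1), (971, 3), (1088, 3), (1105, 5)], [(715, 1), (835, 1),
  (962, 3), (968, 3), (969, 1), (978, 3)], [(715, 1), (835, 1), (841, 5), (962, 3), (968, 3),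
  (969, 1), (971, 3), (1098, 3)], [(705, 1), (715, 1), (832, 3), (835, 1), (842, 3), (962, 3),
  (969, 1)], [(1091, 3), (1097, 3), (1098, 1), (1104, 3), (1232, 3)], [(705, 1), (825, 1), (826,
  3), (832, 3), (835, 1), (962, 3), (968, 3), (971, 3), (1088, 3), (1091, 3), (1216, 5), (1219,
  3)], [(945, 1), (1065, 1), (1066, 3), (1072, 3), (1075, 1), (1081, 1), (1192, 3), (1210, 5)],
  [(570, 1), (816, 1), (819, 1), (825, 1), (826, 3), (936, 5), (945, 1), (946, 3)], [(690, 3),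
  (696, 1), (704, 3), (705, 1), (825, 1), (826, 3)], [(690, 3), (696, 1), (705, 1), (825, 1),
  (826, 3), (832, 3)], [(705, 1), (809, 1), (819, 1), (825, 1), (826, 3), (832, 3), (835, 1),
  (936, 3), (945, 1), (946, 3)], [(929, 3), (936, 3), (945, 1), (946, 3), (1057, 3), (1066, 3)],
  [(705, 1), (715, 1), (816, 1), (825, 1), (826, 3), (832, 3), (835, 1), (945, 1), (946, 3),
  (1072, 3), (1074, 5)], [(696, 1), (705, 1), (825, 1), (826, 3), (832, 3), (835, 1), (945, 1),
  (946, 3), (1074, 5)], [(705, 1), (819, 1), (825, 1), (826, 3), (832, 3), (835, 1), (945, 1),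
  (946, 3), (1074, 5)], [(690, 1), (705, 1), (809, 1), (825, 1), (826, 3), (835, 1), (939, 3),
  (945, 1), (946, 3)], [(705, 1), (809, 1), (825, 1), (826, 3), (835, 1), (936, 3), (939, 3),
  (945, 1), (946, 3), (1057, 3), (1066, 3), (1075, 1)]]

def f22n6 : List (List (ℕ × ℕ)) :=
  [[(705, 1), (809, 1), (816, 3), (825, 1), (826, 3), (835, 1), (936, 3), (939, 3), (945, 1),
  (946, 3)], [(705, 1), (825, 1), (826, 3), (832, 3), (835, 1), (945, 1), (946, 3), (962, 3),
  (971, 3), (1072, 3), (1081, 1), (1088, 3), (1091, 3), (1192, 3), (1208, 1), (1218, 1)], [(1072,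
  3), (1075, 1), (1081, 1), (1211, 1), (1218, 5)], [(825, 1), (826, 3), (832, 3), (835, 1), (945,
  1), (946, 3), (962, 3), (971, 3), (1072, 3), (1081, 1), (1208, 3), (1218, 5)], [(715, 1), (835,
  1), (841, 5), (962, 3), (968, 3), (969, 1), (971, 3), (1088, 3), (1091, 3), (1098, 1), (1105,
  1), (1211, 3), (1217, 3)], [(1200, 1), (1208, 3), (1218, 1), (1337, 3), (1344, 1)], [(1200, 1),
  (1208, 3), (1211, 3), (1218, 1), (1227, 1), (1337, 3)], [(1088, 3), (1098, 1), (1208, 3), (1217,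
  3), (1218, 1), (1227, 1), (1344, 5)], [(715, 1), (835, 1), (841, 5), (962, 3), (968, 3), (969,
  1), (971, 3), (1065, 1), (1066, 3), (1072, 3), (1075, 1), (1081, 1), (1088, 3), (1091, 3),
  (1098, 1), (1194, 3), (1200, 1), (1208, 3), (1210, 1), (1211, 3), (1217, 3), (1218, 1)], [(705,
  1), (715, 1), (826, 3), (832, 3), (835, 1), (962, 3), (968, 3), (969, 1), (971, 3), (1065, 1),
  (1066, 3), (1072, 3), (1075, 1), (1081, 1), (1088, 3), (1091, 3), (1098, 1), (1194, 3), (1200,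
  1), (1208, 3), (1210, 1), (1211, 3), (1217, 3), (1218, 1)], [(705, 1), (809, 1), (825, 1), (826,
  3), (832, 3), (835, 1), (936, 3), (945, 1), (946, 3), (1057, 3), (1066, 3), (1075, 1)], [(705,
  1), (809, 1), (816, 3), (825, 1), (826, 3), (835, 1), (936, 3), (945, 1), (946, 3), (1075, 1)],
  [(705, 1), (715, 1), (826, 3), (832, 3), (835, 1), (962, 3), (968, 3), (969, 1), (971, 3),
  (1098, 3)], [(705, 1), (715, 1), (825, 1), (826, 3), (832, 3), (835, 1), (945, 1), (946, 3),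
  (962, 3), (968, 3), (969, 1), (971, 3), (1066, 3), (1072, 3), (1075, 1), (1081, 1), (1088, 3),
  (1091, 3), (1194, 3), (1208, 3), (1210, 1), (1211, 3), (1217, 3), (1218, 1)], [(945, 1), (1065,
  1), (1072, 3), (1075, 1), (1081, 1), (1194, 3), (1208, 3)], [(816, 1), (929, 3), (945, 1), (946,
  3), (1066, 3), (1072, 3), (1075, 1), (1081, 1), (1194, 3), (1208, 3)], [(705, 1), (825, 1),
  (826, 3), (832, 3), (835, 1), (936, 3), (945, 1), (946, 3), (1057, 3), (1066, 3), (1075, 1)],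
  [(705, 1), (825, 1), (826, 3), (832, 3), (835, 1), (936, 3), (945, 1), (946, 3), (1066, 3),
  (1072, 3), (1075, 1), (1081, 1), (1194, 3), (1208, 3)], [(570, 1), (705, 1), (706, 3), (715, 1),
  (809, 1), (816, 1), (825, 1), (826, 3), (832, 3), (945, 1), (946, 3), (1066, 3), (1072, 3),
  (1075, 1)], [(570, 1), (816, 1), (825, 1), (826, 3), (936, 5), (945, 1), (946, 3), (1072, 3),
  (1075, 1)], [(1081, 1), (1200, 1), (1201, 5), (1208, 3), (1210, 1), (1211, 3), (1218, 1), (1336,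
  3), (1345, 1)], [(715, 1), (835, 1), (841, 5), (962, 3), (968, 3), (969, 1), (971, 3), (1081,
  1), (1088, 3), (1091, 3), (1098, 1), (1105, 3), (1200, 1), (1201, 5), (1208, 3), (1210, 1),
  (1211, 3), (1217, 3), (1218, 1)], [(715, 1), (835, 1), (841, 5), (962, 3), (968, 3), (969, 1),
  (971, 3), (1065, 1), (1066, 3), (1072, 3), (1081, 1), (1088, 3), (1091, 3), (1098, 1), (1201,
  5), (1208, 3), (1210, 1), (1211, 3), (1217, 3), (1218, 1)], [(713, 1), (715, 1), (826, 3), (835,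
  1), (962, 3)], [(705, 1), (715, 1), (826, 3), (832, 3), (835, 1), (841, 3), (962, 3), (969, 1)],
  [(1200, 1), (1208, 3), (1337, 1), (1344, 3)], [(1065, 1), (1066, 3), (1072, 3), (1075, 1),
  (1081, 1), (1192, 1), (1200, 1), (1201, 5), (1208, 3), (1210, 1), (1336, 5), (1339, 1)], [(929,
  3), (936, 1), (945, 1), (1049, 3), (1065, 1), (1066, 3), (1072, 3), (1075, 1), (1081, 1), (1200,
  1), (1201, 5), (1208, 3), (1210, 1), (1336, 5), (1339, 1)], [(1065, 1), (1066, 3), (1072, 3),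
  (1075, 1), (1081, 1), (1192, 1), (1200, 1), (1201, 5), (1208, 3), (1210, 1), (1337, 3), (1339,
  1)], [(1200, 1), (1208, 3), (1337, 1), (1344, 5)], [(1081, 1), (1200, 1), (1201, 5), (1208, 3),
  (1210, 1), (1211, 3), (1218, 1), (1344, 5)], [(1081, 1), (1200, 1), (1201, 5), (1208, 3), (1210,
  1), (1211, 3), (1217, 3), (1218, 1), (1339, 3)]]

def f22n7 : List (List (ℕ × ℕ)) :=
  [[(936, 3), (1065, 1), (1066, 3), (1072, 3), (1184, 3)], [(705, 1), (715, 1), (825, 1), (826,
  3), (832, 3), (835, 1), (945, 1), (946, 3), (1066, 3), (1072, 3), (1075, 1), (1081, 1), (1088,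
  3), (1091, 3), (1098, 1), (1201, 5), (1208, 3), (1210, 1), (1211, 3), (1217, 3), (1218, 1)],
  [(826, 3), (832, 3), (841, 1), (843, 3), (962, 3)], [(705, 1), (825, 1), (826, 3), (832, 3),
  (835, 1), (945, 1), (946, 3), (962, 3), (971, 3), (1066, 3), (1072, 3), (1075, 1), (1081, 1),
  (1088, 3), (1091, 3), (1208, 3), (1210, 1), (1211, 3), (1217, 3), (1218, 1)], [(705, 1), (809,
  1), (816, 3), (825, 1), (826, 3), (835, 1), (936, 3), (945, 1), (946, 3), (1074, 5)], [(705, 1),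
  (809, 1), (825, 1), (826, 3), (832, 3), (835, 1), (936, 3), (945, 1), (946, 3), (1074, 5)],
  [(705, 1), (825, 1), (826, 3), (832, 3), (835, 1), (936, 3), (945, 1), (946, 3), (1072, 3),
  (1074, 5), (1081, 1), (1193, 3), (1200, 1), (1208, 3), (1210, 1)], [(705, 1), (825, 1), (826,
  3), (832, 3), (835, 1), (929, 3), (936, 3), (939, 3), (945, 1), (946, 3), (1072, 3), (1074, 5)],
  [(705, 1), (825, 1), (826, 3), (832, 3), (835, 1), (936, 3), (945, 1), (946, 3), (1072, 3),
  (1074, 5), (1081, 1), (1192, 3), (1208, 3), (1210, 1), (1211, 3)], [(705, 1), (715, 1), (825,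
  1), (826, 3), (832, 3), (835, 1), (945, 1), (946, 3), (1072, 3), (1074, 5), (1081, 1), (1208,
  3), (1210, 1), (1211, 3)], [(705, 1), (715, 1), (825, 1), (826, 3), (832, 3), (835, 1), (945,
  1), (946, 3), (1072, 3), (1074, 5), (1081, 1), (1202, 3), (1208, 3), (1211, 3)], [(825, 1),
  (826, 3), (832, 3), (835, 1), (945, 1), (946, 3), (962, 3), (971, 3), (1072, 3), (1081, 1),
  (1088, 3), (1091, 3), (1208, 3), (1217, 3), (1218, 1)], [(825, 1), (826, 3), (835, 1), (946, 3),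
  (962, 3), (971, 3), (1072, 3), (1081, 1), (1088, 3), (1091, 3)], [(835, 1), (962, 3)], []]

def f22T : List (List (List (ℕ × ℕ))) :=
  [f22n0, f22n1, f22n2, f22n3, f22n4, f22n5, f22n6, f22n7]

/-- the configurations -/
def f22N (k : ℕ) : List (ℕ × ℕ) := (f22T.getD (k / 32) []).getD (k % 32) []

end Pool.Agent.FT4D
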