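import Pool.Agent.FT4D.CheckF

/-!
# Four levels: learnt configurations (found by a computer search)
-/

namespace Pool.Agent.FT4D

def f27n0 : List (List (ℕ × ℕ)) :=
  [[(936, 3), (946, 1), (947, 3), (1073, 3)], [(946, 1), (1073, 3), (1082, 1), (1193, 3), (1200,
  3), (1203, 3)], [(1073, 3), (1082, 1), (1193, 3), (1200, 1), (1208, 5), (1211, 1)], [(946, 1),
  (1082, 1), (1193, 3), (1200, 1), (1203, 3)], [(946, 1), (947, 3), (1073, 3), (1082, 1), (1088,
  1), (1089, 3), (1219, 1)], [(1082, 1), (1208, 1), (1218, 1), (1337, 1), (1345, 1)], [(816, 1),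
  (946, 1), (947, 3), (1066, 1), (1073, 3), (1075, 1), (1082, 1), (1208, 1), (1209, 3), (1218, 1),
  (1337, 1)], [(810, 1), (811, 3), (816, 1), (824, 5), (826, 1), (937, 3), (946, 1), (947, 3)],
  [(811, 3), (816, 1), (824, 5), (826, 1), (937, 3), (946, 1), (947, 3), (1058, 3), (1073, 3),
  (1075, 1)], [(1073, 3), (1075, 1), (1082, 1), (1202, 1), (1209, 3)], [(946, 1), (1066, 5),
  (1073, 3), (1075, 1), (1082, 1), (1209, 3)], [(1082, 1), (1201, 1), (1202, 5), (1211, 1), (1218,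
  1), (1337, 1)], [(1066, 1), (1067, 3), (1072, 1), (1073, 3), (1082, 1), (1193, 3), (1219, 3)],
  [(946, 1), (1066, 1), (1067, 3), (1072, 1), (1073, 3), (1082, 1), (1209, 3), (1218, 1), (1219,
  3), (1337, 1)], [(946, 1), (1066, 1), (1073, 3), (1082, 1), (1200, 1), (1209, 3)], [(816, 1),
  (930, 3), (937, 3), (946, 1), (1064, 3), (1066, 1), (1073, 3), (1082, 1), (1208, 1), (1209, 3)],
  [(930, 3), (937, 3), (946, 1), (1058, 3), (1067, 3), (1073, 3)], [(816, 1), (930, 3), (937, 3),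
  (946, 1), (947, 3), (1067, 3), (1073, 3), (1082, 1), (1208, 1), (1209, 3), (1218, 1), (1219, 3),
  (1337, 1)], [(816, 1), (930, 3), (937, 3), (1066, 1), (1073, 3), (1075, 1)], [(816, 1), (937,
  3), (938, 5), (1066, 1), (1073, 3), (1075, 1)], [(1066, 1), (1067, 3), (1072, 1), (1073, 3),
  (1082, 1), (1209, 3), (1219, 3), (1329, 3)], [(816, 1), (930, 3), (937, 3), (946, 1), (947, 3),
  (1067, 3), (1073, 3), (1082, 1), (1208, 1), (1209, 3), (1219, 3), (1329, 3)], [(937, 3), (946,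
  1), (1066, 1), (1067, 3), (1073, 3), (1200, 3)], [(811, 3), (816, 1), (824, 5), (826, 1), (937,
  3), (946, 1), (947, 3), (1067, 3), (1073, 3), (1200, 3)], [(811, 3), (816, 1), (824, 5), (826,
  1), (937, 3), (946, 1), (947, 3), (1073, 3), (1082, 1), (1088, 1), (1209, 3), (1218, 1), (1219,
  3)], [(699, 1), (816, 1), (824, 5), (826, 1), (832, 1), (937, 3), (946, 1), (947, 3), (1073, 3),
  (1082, 1), (1088, 1), (1089, 3), (1219, 3)], [(699, 1), (705, 1), (816, 1), (826, 1), (832, 1),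
  (946, 1), (947, 3), (1073, 3), (1082, 1), (1088, 1), (1089, 3), (1219, 3)], [(946, 1), (1073,
  3), (1082, 1), (1193, 3), (1200, 3), (1219, 3)], [(946, 1), (1073, 3), (1082, 1), (1088, 1),
  (1209, 1), (1219, 3)], [(946, 1), (1064, 3), (1073, 3), (1082, 1), (1208, 5), (1219, 3)], [(944,
  5), (946, 1), (1073, 3), (1082, 1), (1088, 1), (1219, 3)], [(826, 1), (833, 3), (835, 1)]]

def f27n1 : List (List (ℕ × ℕ)) :=
  [[(817, 1), (938, 3), (947, 3)], [(1066, 3), (1073, 3), (1082, 1), (1088, 1), (1209, 1)],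
  [(1064, 3), (1066, 3), (1073, 3)], [(1073, 3), (1074, 5), (1088, 1), (1209, 1), (1211, 1)],
  [(1064, 3), (1073, 3), (1074, 5), (1082, 1), (1208, 5), (1211, 1)], [(938, 3), (947, 3), (1073,
  3), (1082, 1), (1088, 1)], [(697, 1), (699, 1), (826, 1), (832, 1)], [(947, 3), (1066, 3),
  (1073, 3), (1082, 1), (1088, 1)], [(811, 3), (824, 5), (826, 1), (945, 5), (947, 3)], [(699, 1),
  (824, 5), (826, 1), (832, 1), (945, 5), (947, 3)], [(705, 1), (826, 1), (827, 3), (832, 1)],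
  [(696, 1), (816, 1), (826, 1), (833, 3), (947, 3)], [(946, 1), (1066, 1), (1072, 1), (1073, 3),
  (1075, 1), (1082, 1), (1209, 3), (1329, 3)], [(690, 3), (809, 3), (824, 5), (826, 1), (946, 1),
  (947, 3)], [(977, 1), (1088, 1), (1089, 3), (1096, 3), (1098, 5), (1218, 1), (1219, 3), (1224,
  1), (1345, 3)], [(977, 1), (1082, 1), (1088, 1), (1089, 3), (1096, 3), (1098, 5), (1208, 1),
  (1209, 3), (1218, 1), (1219, 3), (1224, 1), (1337, 1)], [(1073, 3), (1075, 1), (1082, 1), (1193,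
  3), (1208, 1), (1218, 1), (1329, 3)], [(937, 3), (946, 1), (947, 3), (1064, 3), (1066, 1),
  (1073, 3), (1082, 1), (1208, 1), (1209, 3)], [(816, 1), (937, 3), (946, 1), (947, 3), (1066, 1),
  (1067, 3), (1073, 3), (1082, 1), (1208, 1), (1209, 3), (1219, 3), (1329, 3)], [(946, 1), (1073,
  3), (1082, 1), (1193, 3), (1200, 1)], [(946, 1), (1067, 3), (1073, 3), (1082, 1), (1193, 3),
  (1208, 1), (1209, 3), (1218, 1), (1219, 3), (1329, 3)], [(816, 1), (937, 3), (946, 1), (1058,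
  3), (1073, 3), (1200, 5)], [(810, 1), (816, 1), (817, 5), (937, 3), (946, 1), (947, 3), (1067,
  3), (1073, 3), (1082, 1), (1208, 1), (1209, 3), (1218, 1), (1219, 3), (1329, 3)], [(571, 1),
  (706, 1), (816, 1), (824, 5), (826, 1), (827, 3), (832, 1), (937, 3), (946, 1), (947, 3), (1073,
  3), (1082, 1), (1208, 1), (1209, 3), (1218, 1), (1219, 3), (1329, 3)], [(946, 1), (963, 3),
  (977, 1), (1073, 3), (1082, 1), (1088, 1), (1089, 3), (1096, 3), (1098, 5), (1200, 3), (1209,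
  3), (1218, 1), (1219, 3), (1224, 1)], [(963, 3), (977, 3), (1088, 1), (1089, 3), (1096, 3),
  (1098, 5), (1218, 1), (1219, 3), (1224, 1), (1345, 3)], [(963, 3), (977, 3), (1082, 1), (1088,
  1), (1089, 3), (1096, 3), (1098, 5), (1208, 1), (1209, 3), (1218, 1), (1219, 3), (1224, 1),
  (1337, 1)], [(946, 1), (963, 3), (977, 3), (1073, 3), (1082, 1), (1088, 1), (1089, 3), (1096,
  3), (1098, 5), (1200, 3), (1209, 3), (1218, 1), (1219, 3), (1224, 1)], [(577, 1), (691, 3),
  (706, 1), (824, 5), (826, 1), (827, 3), (832, 1)], [(691, 3), (706, 1), (712, 1), (824, 5),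
  (826, 1), (827, 3), (832, 1), (833, 3), (849, 1), (963, 3), (968, 3), (969, 5)], [(706, 1),
  (712, 1), (816, 1), (824, 5), (826, 1), (827, 3), (832, 1), (833, 3), (937, 3), (946, 1), (947,
  3), (963, 3), (968, 3), (969, 5), (1073, 3), (1082, 1), (1088, 1), (1089, 3), (1096, 3), (1098,
  5), (1209, 3), (1218, 1), (1219, 3), (1224, 1)], [(816, 1), (946, 1), (1073, 3), (1082, 1),
  (1208, 5), (1219, 3)]]

def f27n2 : List (List (ℕ × ℕ)) :=
  [[(690, 3), (706, 1), (824, 5), (826, 1), (827, 3), (832, 1), (945, 5), (947, 3)], [(568, 1),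
  (691, 3), (706, 1), (824, 5), (826, 1), (827, 3), (832, 1), (833, 3), (945, 5), (947, 3)],
  [(691, 3), (809, 3), (824, 5), (826, 1), (827, 3), (832, 1), (945, 5), (947, 3)], [(1073, 3),
  (1074, 5), (1082, 1), (1208, 5), (1211, 1)], [(826, 1), (832, 1), (945, 5), (947, 3), (1073, 3),
  (1082, 1), (1088, 1)], [(826, 1), (832, 1), (947, 3), (1073, 3), (1082, 1), (1088, 1), (1089,
  3)], [(696, 1), (816, 1), (826, 1), (832, 5), (947, 3)], [(571, 1), (690, 3), (706, 1), (810,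
  1), (824, 5), (826, 1), (827, 3), (832, 5), (946, 1), (947, 3)], [(571, 1), (690, 3), (706, 1),
  (824, 5), (826, 1), (827, 3), (832, 5), (937, 3), (946, 1), (947, 3), (1058, 3), (1073, 3),
  (1075, 1)], [(571, 1), (706, 1), (824, 5), (826, 1), (827, 3), (832, 5), (937, 3), (946, 1),
  (947, 3), (1058, 3), (1067, 3), (1073, 3)], [(706, 1), (816, 1), (826, 1), (827, 3), (937, 3),
  (946, 1), (947, 3), (960, 3), (1073, 3), (1082, 1), (1088, 1), (1209, 3), (1218, 1), (1219, 3)],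
  [(561, 1), (690, 1), (697, 1), (698, 5), (824, 3), (827, 3), (947, 3)], [(697, 1), (705, 1),
  (809, 3), (810, 1), (816, 1), (824, 3), (826, 1), (827, 3), (834, 3), (937, 3), (946, 1), (947,
  3)], [(697, 1), (705, 1), (809, 3), (816, 1), (824, 3), (826, 1), (827, 3), (834, 3), (937, 3),
  (946, 1), (947, 3), (1058, 3), (1073, 3), (1075, 1)], [(810, 1), (816, 1), (817, 5), (826, 1),
  (827, 3), (937, 3), (939, 1), (946, 1), (947, 3), (1058, 3), (1073, 3), (1075, 1), (1082, 1),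
  (1209, 3)], [(816, 1), (817, 5), (826, 1), (827, 3), (937, 3), (946, 1), (947, 3), (1058, 3),
  (1073, 3), (1075, 1), (1082, 1), (1209, 3)], [(816, 1), (937, 3), (946, 1), (947, 3), (1066, 1),
  (1067, 3), (1073, 3), (1082, 1), (1208, 1), (1209, 3), (1218, 1), (1219, 3), (1337, 1)], [(816,
  1), (946, 1), (1067, 3), (1073, 3), (1082, 1), (1201, 1), (1208, 1), (1209, 3), (1218, 1),
  (1219, 3), (1337, 1)], [(946, 1), (1073, 3), (1082, 1), (1193, 3), (1208, 1), (1209, 3), (1218,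
  1), (1219, 3), (1337, 1)], [(816, 1), (946, 1), (1066, 1), (1073, 3), (1075, 1), (1082, 1),
  (1209, 3), (1329, 3)], [(816, 1), (817, 5), (826, 1), (827, 3), (937, 3), (946, 1), (947, 3),
  (1073, 3), (1082, 1), (1208, 1), (1209, 3), (1218, 1), (1219, 3), (1329, 3)], [(810, 1), (817,
  5), (826, 1), (827, 3), (937, 3), (947, 3), (1067, 3)], [(697, 1), (705, 1), (816, 1), (824, 3),
  (826, 1), (827, 3), (834, 3), (937, 3), (946, 1), (947, 3), (1073, 3), (1082, 1), (1088, 1),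
  (1209, 3), (1218, 1), (1219, 3)], [(690, 1), (816, 1), (824, 5), (826, 1), (827, 3), (937, 3),
  (947, 3)], [(816, 1), (824, 5), (826, 1), (827, 3), (832, 5), (937, 3), (946, 1), (947, 3),
  (1058, 3), (1073, 3), (1075, 1), (1082, 1), (1209, 3)], [(816, 1), (826, 1), (827, 3), (937, 3),
  (946, 1), (947, 3), (960, 3), (1073, 3), (1082, 1), (1088, 1), (1209, 3), (1218, 1), (1219, 3)],
  [(826, 1), (947, 3), (960, 3), (1073, 3), (1082, 1), (1088, 1), (1089, 3)], []]

def f27T : List (List (List (ℕ × ℕ))) :=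
  [f27n0, f27n1, f27n2]

/-- the configurations -/
def f27N (k : ℕ) : List (ℕ × ℕ) := (f27T.getD (k / 32) []).getD (k % 32) []

end Pool.Agent.FT4D
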