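import Pool.Agent.FT4D.CheckF

/-!
# Four levels: learnt configurations (found by a computer search)
-/

namespace Pool.Agent.FT4D

def f28n0 : List (List (ℕ × ℕ)) :=
  [[(707, 1), (825, 3), (826, 1), (832, 1)], [(707, 1), (816, 1), (826, 1), (832, 1), (945, 3)],
  [(961, 3), (968, 1), (970, 1), (1091, 1)], [(1082, 1), (1088, 1), (1209, 1), (1211, 1)], [(945,
  3), (946, 1), (1064, 3), (1075, 3)], [(697, 1), (707, 1), (826, 1), (832, 1), (945, 3), (946,
  1)], [(688, 1), (809, 3), (819, 3), (826, 1), (946, 1)], [(688, 1), (707, 1), (824, 5), (826,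
  1), (945, 3), (946, 1)], [(810, 3), (816, 3), (826, 1), (945, 3), (946, 1), (1072, 5), (1075,
  3)], [(690, 1), (810, 1), (816, 5), (819, 3), (939, 3), (945, 3)], [(569, 1), (577, 1), (696,
  1), (706, 1), (810, 1), (825, 3), (826, 1), (832, 1), (835, 3), (939, 3), (945, 3), (946, 1),
  (1072, 5)], [(930, 3), (939, 3), (945, 3), (946, 1), (1058, 3), (1067, 1), (1072, 5)], [(690,
  1), (696, 1), (809, 3), (819, 3), (826, 1), (945, 3)], [(1058, 3), (1065, 1), (1067, 1), (1200,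
  1)], [(937, 5), (946, 1), (1058, 3), (1067, 1), (1072, 5), (1075, 3), (1201, 3), (1208, 1)],
  [(809, 1), (816, 5), (945, 3), (946, 1), (1072, 5)], [(690, 1), (696, 1), (819, 3), (825, 3),
  (826, 1), (930, 3), (939, 3), (945, 3), (946, 1), (1065, 5), (1072, 5)], [(810, 3), (816, 5),
  (826, 1), (930, 3), (939, 3), (945, 3), (946, 1), (1065, 5), (1072, 5)], [(569, 1), (577, 1),
  (696, 1), (706, 1), (825, 3), (826, 1), (832, 1), (835, 3), (939, 3), (945, 3), (946, 1), (1065,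
  5), (1072, 5), (1075, 3)], [(939, 3), (946, 1), (1059, 3), (1066, 1), (1072, 5)], [(691, 1),
  (825, 3), (826, 1), (835, 3)], [(809, 3), (811, 3), (816, 1), (826, 1), (946, 1)], [(688, 1),
  (689, 3), (809, 3), (825, 3), (826, 1), (835, 3), (939, 3), (946, 1)], [(810, 1), (816, 5),
  (939, 3), (945, 3), (946, 1), (1072, 5)], [(577, 1), (696, 1), (699, 3), (706, 1), (832, 1)],
  [(569, 1), (690, 1), (819, 1), (825, 3), (826, 1)], [(810, 3), (819, 1), (826, 1), (945, 3),
  (946, 1), (1072, 5)], [(808, 3), (945, 3), (946, 1), (1072, 5)], [(569, 1), (696, 1), (706, 1),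
  (810, 1), (825, 3), (826, 1), (832, 1), (835, 3), (939, 3), (945, 3), (946, 1), (1072, 5)],
  [(690, 3), (706, 1), (818, 5), (825, 3), (826, 1), (835, 3)], [(689, 3), (696, 1), (706, 1),
  (816, 1), (825, 3), (826, 1), (835, 3), (939, 3), (945, 3), (946, 1)], [(689, 3), (696, 1),
  (706, 1), (816, 1), (825, 3), (826, 1), (835, 3), (945, 3), (946, 1), (1072, 5), (1075, 3)]]

def f28n1 : List (List (ℕ × ℕ)) :=
  [[(689, 3), (696, 1), (706, 1), (816, 5), (818, 5), (825, 3), (826, 1), (835, 3), (945, 3)],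
  [(689, 3), (696, 1), (706, 1), (816, 5), (825, 3), (826, 1), (835, 3), (936, 3), (939, 3), (945,
  3), (946, 1), (1065, 5), (1072, 5), (1075, 3)], [(690, 1), (706, 1), (816, 3), (825, 3), (826,
  1), (832, 1), (945, 3)], [(706, 1), (816, 3), (825, 3), (826, 1), (832, 1), (945, 3), (946, 1),
  (1072, 5), (1075, 3)], [(688, 1), (810, 3), (826, 1), (930, 3), (939, 3), (945, 3), (946, 1),
  (1072, 5)], [(688, 1), (689, 3), (825, 3), (826, 1), (945, 3), (946, 1), (1072, 5), (1075, 3)],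
  [(689, 3), (696, 1), (706, 1), (825, 3), (826, 1), (835, 3), (945, 3), (946, 1), (1072, 5),
  (1075, 3), (1201, 3), (1208, 1)], [(810, 3), (816, 1), (825, 3), (826, 1), (835, 3), (939, 3),
  (945, 3)], [(569, 1), (696, 1), (706, 1), (825, 3), (826, 1), (832, 1), (835, 3), (939, 3),
  (945, 3), (946, 1), (1065, 5), (1072, 5), (1075, 3)], [(569, 1), (696, 1), (706, 1), (825, 3),
  (826, 1), (832, 1), (835, 3), (939, 3), (945, 3), (946, 1), (1059, 3), (1072, 5), (1075, 3)],
  [(706, 1), (825, 3), (826, 1), (832, 1), (835, 3), (945, 3), (946, 1), (1072, 5), (1075, 3),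
  (1201, 3), (1208, 1)], [(697, 1), (826, 1), (832, 1), (945, 3), (946, 1), (1072, 5), (1075, 3)],
  [(824, 5), (826, 1), (945, 3), (946, 1), (1072, 5)], [(826, 1), (832, 1), (835, 3), (945, 3),
  (946, 1), (961, 3), (1072, 5), (1075, 3), (1088, 1), (1201, 3)], [(826, 1), (832, 1), (945, 3),
  (946, 1), (961, 3), (1075, 3), (1082, 1), (1088, 1), (1211, 1)], [(1066, 3), (1073, 1), (1075,
  3)], [(816, 3), (938, 3), (945, 3), (1075, 3)], [(697, 1), (832, 1), (938, 3), (945, 3), (1075,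
  3)], [(810, 3), (826, 1), (938, 3), (945, 3)], [(570, 1), (696, 1), (818, 5), (825, 3), (826,
  1), (938, 3), (945, 3)], [(706, 1), (825, 3), (826, 1), (832, 1), (835, 3), (938, 3), (945, 3),
  (1075, 3)], [(825, 3), (826, 1), (832, 1), (835, 3), (938, 3), (945, 3), (1075, 3)], [(811, 1),
  (938, 3), (945, 3), (1075, 3)], [(808, 1), (937, 1), (938, 3), (945, 3), (1066, 3), (1075, 3)],
  [(928, 3), (937, 1), (1066, 3), (1072, 5), (1075, 3), (1195, 3)], [(714, 1), (825, 3), (826, 1),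
  (832, 1), (834, 5), (961, 3), (968, 1), (970, 3)], [(577, 1), (696, 1), (698, 3), (825, 3),
  (826, 1), (834, 5)], [(689, 3), (690, 1), (696, 1), (825, 3), (826, 1), (945, 3)], [(690, 1),
  (696, 1), (713, 1), (825, 3), (826, 1), (832, 1), (834, 5), (842, 5), (945, 3), (961, 3)],
  [(696, 1), (697, 5), (699, 1), (825, 3), (826, 1), (832, 1), (834, 5), (842, 5)], [(816, 5),
  (936, 1), (945, 3), (1072, 5)], [(690, 1), (825, 3), (938, 3), (945, 3), (1066, 3), (1072, 5),
  (1075, 3), (1082, 1), (1088, 1), (1202, 1), (1211, 1)]]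

def f28n2 : List (List (ℕ × ℕ)) :=
  [[(937, 1), (938, 3), (945, 3), (1066, 3), (1072, 5), (1075, 3), (1082, 1), (1201, 5), (1211,
  1)], [(690, 1), (825, 3), (826, 1), (832, 1), (834, 5), (842, 5), (938, 3), (945, 3), (1057, 3),
  (1066, 3), (1072, 5), (1075, 3), (1082, 1), (1201, 5), (1211, 1)], [(690, 1), (825, 3), (826,
  1), (832, 1), (834, 5), (938, 3), (945, 3), (961, 3), (968, 1), (970, 3), (1066, 3), (1072, 5),
  (1075, 3), (1082, 1), (1088, 1), (1211, 1)], [(577, 1), (698, 3), (825, 3), (826, 1), (832, 1)],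
  [(577, 1), (696, 5), (713, 1), (825, 3), (832, 1), (834, 5), (945, 3), (961, 3), (1072, 5)],
  [(704, 5), (713, 1), (825, 3), (832, 1), (834, 5), (938, 3), (945, 3), (1075, 3)], [(690, 1),
  (713, 1), (825, 3), (826, 1), (832, 1), (834, 5), (938, 3), (945, 3), (961, 3), (1072, 5),
  (1075, 3)], [(714, 1), (832, 1), (834, 5), (841, 3), (961, 3), (970, 5)], [(690, 1), (825, 3),
  (826, 1), (832, 1), (834, 5), (938, 3), (945, 3), (961, 3), (970, 5), (1066, 3), (1072, 5),
  (1075, 3), (1082, 1), (1088, 1), (1211, 1)], [(689, 3), (696, 1), (706, 5), (818, 5), (825, 3),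
  (826, 1)], [(577, 1), (696, 1), (706, 5), (818, 5), (825, 3), (826, 1), (832, 1), (834, 5)],
  [(577, 1), (696, 1), (818, 5), (825, 3), (826, 1), (832, 1), (834, 5), (842, 5)], [(696, 1),
  (705, 3), (818, 5), (825, 3), (826, 1), (832, 1), (834, 5), (842, 5), (938, 3), (945, 3), (961,
  3), (968, 1)], [(696, 1), (705, 5), (818, 5), (825, 3), (826, 1), (832, 1), (834, 5), (938, 3),
  (945, 3), (961, 3), (968, 1)], [(818, 5), (825, 3), (826, 1), (832, 1), (834, 5), (938, 3),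
  (945, 3), (961, 3), (968, 1), (970, 3)], [(818, 5), (825, 3), (826, 1), (832, 1), (834, 5),
  (938, 3), (945, 3), (961, 3), (968, 1), (970, 5)], [(936, 3), (938, 3), (945, 3)], [(824, 5),
  (826, 1), (938, 3), (945, 3), (1066, 3), (1075, 3)], [(697, 1), (699, 1), (826, 1)], [(690, 1),
  (811, 3), (816, 1), (825, 3), (945, 3)], [(699, 1), (811, 3), (825, 3), (826, 1), (832, 1),
  (945, 3), (946, 5), (1072, 5)], [(811, 3), (824, 5), (826, 1), (936, 3), (945, 3), (946, 5)],
  [(826, 1), (832, 1), (945, 3), (946, 5), (1066, 3), (1075, 3)], [(1073, 5), (1075, 3), (1082,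
  1), (1208, 5), (1211, 1)], [(1073, 5), (1075, 3), (1082, 1), (1088, 1), (1211, 1)], [(714, 1),
  (832, 1), (841, 3), (961, 3), (968, 3)], [(713, 1), (832, 1), (842, 3), (968, 3)], [(825, 3),
  (826, 1), (832, 1), (834, 5), (841, 3), (961, 3), (968, 3)], [(818, 5), (825, 3), (826, 1),
  (832, 1), (834, 5), (938, 3), (945, 3), (961, 3), (968, 3), (1072, 5), (1075, 3)], [(826, 1),
  (832, 1), (945, 3), (961, 3), (968, 3), (1075, 3), (1082, 1), (1088, 1), (1211, 1)], [(1082, 1),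
  (1088, 1), (1211, 3), (1217, 1)], [(705, 1), (826, 1), (832, 1), (835, 3)]]

def f28n3 : List (List (ℕ × ℕ)) :=
  [[(945, 3), (946, 1), (1072, 1), (1075, 3), (1082, 1), (1088, 1), (1211, 3)], [(697, 1), (826,
  1), (945, 3), (946, 5)], [(697, 1), (826, 1), (832, 1), (945, 3), (1075, 3), (1082, 1), (1088,
  1), (1211, 3)], [(1082, 1), (1088, 1), (1209, 1), (1211, 3)], [(826, 1), (832, 1), (835, 3),
  (945, 3), (946, 1), (961, 3), (1075, 3), (1082, 1), (1088, 1), (1211, 3)], [(569, 1), (690, 1),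
  (811, 3), (825, 3), (826, 1)], [(690, 1), (696, 1), (705, 3), (706, 1), (811, 3), (825, 3),
  (826, 1), (832, 1), (944, 1)], [(961, 3), (968, 1), (970, 3), (1091, 3)], [(825, 3), (826, 1),
  (832, 1), (961, 3), (968, 1), (970, 5), (1082, 1), (1088, 1), (1091, 3), (1211, 3), (1217, 3)],
  [(826, 1), (832, 1), (945, 3), (946, 5), (1075, 3), (1082, 1), (1217, 5)], [(825, 3), (826, 1),
  (832, 1), (945, 3), (961, 3), (968, 1), (1075, 3), (1082, 1), (1088, 1), (1091, 3), (1211, 3)],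
  [(938, 3), (944, 1), (945, 3), (1075, 3)], [(824, 5), (826, 1), (938, 3), (945, 3), (1075, 3)],
  [(699, 1), (824, 5), (826, 1), (945, 3), (946, 5)], [(824, 5), (826, 1), (945, 3), (946, 5)],
  [(824, 5), (826, 1), (945, 3), (1075, 3), (1082, 1), (1088, 1), (1211, 3)], [(825, 3), (826, 1),
  (832, 1), (961, 3), (968, 3), (1088, 1), (1091, 3), (1217, 3)], [(825, 3), (826, 1), (832, 1),
  (945, 3), (946, 5), (961, 3), (968, 3), (1075, 3), (1082, 1), (1088, 1), (1091, 3), (1211, 3)],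
  [(825, 3), (826, 1), (832, 1), (834, 5), (938, 3), (945, 3), (961, 3), (968, 3), (1066, 3),
  (1075, 3)], [(826, 1), (832, 1), (945, 3), (961, 3), (1075, 3), (1082, 1), (1088, 1), (1091,
  3)], [(832, 1), (833, 5), (835, 3), (961, 3), (968, 3)], [(697, 1), (826, 1), (832, 1), (945,
  3), (961, 3), (968, 3), (1075, 3)], [(569, 1), (577, 1), (696, 1), (706, 1), (826, 1)], [(1065,
  3), (1072, 1), (1195, 3), (1202, 1), (1208, 5)], [(810, 3), (811, 1), (826, 1), (945, 3), (946,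
  1), (1075, 3)], [(689, 3), (696, 1), (706, 1), (810, 3), (825, 3), (826, 1), (835, 3), (930, 3),
  (945, 3), (946, 1), (1058, 3), (1065, 3), (1072, 1), (1075, 3)], [(810, 3), (826, 1), (930, 3),
  (945, 3), (946, 1), (1065, 3), (1066, 5), (1075, 3)], [(810, 3), (826, 1), (938, 5), (945, 3),
  (946, 1), (1075, 3)], [(808, 3), (945, 3), (946, 1), (1072, 1)], [(689, 3), (696, 1), (706, 1),
  (825, 3), (826, 1), (835, 3), (945, 3), (946, 1), (1065, 3), (1072, 1), (1075, 3), (1082, 1),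
  (1195, 3), (1208, 5)], [(569, 1), (688, 1), (690, 1), (819, 3)], [(569, 1), (696, 1), (706, 1),
  (810, 1), (825, 3), (826, 1), (835, 3), (945, 3), (946, 1), (1065, 3), (1072, 1)]]

def f28n4 : List (List (ℕ × ℕ)) :=
  [[(930, 3), (945, 3), (946, 1), (1058, 3), (1065, 3), (1072, 1), (1075, 3)], [(811, 1), (945,
  3), (946, 1), (1075, 3)], [(930, 3), (945, 3), (946, 1), (1065, 3), (1066, 5), (1075, 3)],
  [(930, 3), (945, 3), (946, 1), (1065, 3), (1072, 1), (1075, 3), (1082, 1), (1195, 3), (1208,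
  5)], [(569, 1), (696, 1), (706, 1), (818, 5), (825, 3), (826, 1), (835, 3)], [(569, 1), (696,
  1), (706, 1), (825, 3), (826, 1), (835, 3), (938, 5), (945, 3), (946, 1), (1065, 3), (1072, 1),
  (1075, 3)], [(1082, 1), (1200, 3), (1211, 1), (1217, 1)], [(816, 5), (930, 3), (936, 3), (945,
  3), (946, 1), (1072, 5), (1075, 3)], [(816, 5), (930, 3), (945, 3), (946, 1), (1072, 5), (1075,
  3)], [(810, 3), (816, 5), (826, 1), (945, 3), (946, 1), (1072, 5), (1075, 3)], [(689, 3), (696,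
  1), (706, 1), (825, 3), (826, 1), (835, 3), (945, 3), (946, 1), (1072, 5), (1075, 3)], [(577,
  1), (696, 1), (706, 1), (825, 3), (826, 1), (835, 3), (945, 3), (946, 1), (1072, 5), (1075, 3)],
  [(690, 1), (810, 1), (816, 5), (819, 3), (945, 3), (946, 1), (1072, 5), (1075, 3)], [(816, 5),
  (938, 5), (945, 3), (946, 1), (1072, 5), (1075, 3)], [(819, 3), (826, 1), (945, 3), (946, 1),
  (1066, 5), (1075, 3)], [(819, 3), (826, 1), (937, 5), (945, 3), (946, 1), (1072, 5), (1075, 3),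
  (1195, 3), (1208, 5)], [(706, 1), (825, 3), (826, 1), (832, 1), (835, 3), (945, 3), (946, 1),
  (1072, 5), (1075, 3), (1195, 3), (1208, 5)], [(1072, 5), (1075, 3), (1082, 1), (1195, 3), (1200,
  3)], [(706, 1), (825, 3), (826, 1), (832, 1), (835, 3), (945, 3), (946, 1), (1072, 5), (1075,
  3), (1082, 1), (1208, 1), (1216, 5)], [(706, 1), (825, 3), (826, 1), (832, 1), (835, 3), (945,
  3), (946, 1), (1075, 3), (1082, 1), (1088, 3), (1091, 3), (1211, 1)], [(1073, 5), (1075, 3),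
  (1082, 1), (1211, 1)], [(826, 1), (832, 1), (945, 3), (946, 5), (1075, 3), (1082, 1), (1211,
  1)], [(824, 5), (826, 1), (832, 1), (945, 3), (961, 3), (968, 3), (1075, 3)], [(1088, 3), (1217,
  3), (1218, 1)], [(945, 3), (946, 1), (1072, 1), (1075, 3), (1082, 1), (1216, 5)], [(570, 1),
  (577, 1), (689, 3), (696, 1), (706, 1), (825, 3), (832, 1), (835, 3)], [(810, 3), (816, 5),
  (819, 3), (930, 3), (936, 1), (939, 1), (945, 3), (946, 1), (1050, 3), (1065, 3), (1066, 1),
  (1075, 3), (1201, 5)], [(688, 1), (689, 3), (696, 1), (698, 5), (810, 3), (819, 3), (825, 3),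
  (826, 1), (835, 3), (930, 3), (936, 3), (939, 3), (945, 3), (946, 1), (1065, 3)], [(810, 3),
  (816, 5), (826, 1), (930, 3), (939, 3), (945, 3), (1065, 3)], [(577, 1), (689, 3), (696, 1),
  (706, 1), (810, 3), (825, 3), (826, 1), (832, 1), (835, 3), (945, 3), (946, 1), (1065, 3),
  (1072, 1), (1075, 3), (1201, 5)], [(689, 3), (696, 1), (706, 1), (818, 5), (825, 3), (826, 1),
  (835, 3), (945, 3), (946, 1), (1065, 3), (1072, 1), (1075, 3)], [(930, 3), (939, 1), (945, 3),
  (946, 1), (1065, 3), (1066, 1), (1072, 1), (1075, 3), (1201, 5)]]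

def f28n5 : List (List (ℕ × ℕ)) :=
  [[(696, 1), (705, 3), (706, 1), (825, 3), (826, 1), (835, 3), (945, 3), (946, 1), (1065, 3),
  (1072, 1), (1075, 3), (1201, 5)], [(706, 1), (825, 3), (826, 1), (832, 1), (835, 3), (945, 3),
  (946, 1), (1072, 1), (1075, 3), (1082, 1), (1088, 3), (1211, 3), (1217, 1), (1218, 3)], [(706,
  1), (825, 3), (826, 1), (832, 1), (835, 3), (945, 3), (946, 1), (1072, 5), (1075, 3), (1082, 1),
  (1211, 3), (1216, 5)], [(569, 1), (696, 1), (706, 1), (825, 3), (826, 1), (832, 1), (835, 3),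
  (939, 3), (945, 3), (946, 1), (1058, 3), (1065, 1), (1072, 5), (1075, 3), (1200, 1)], [(696, 1),
  (810, 3), (825, 3), (826, 1), (835, 3), (945, 3), (946, 1), (1072, 5), (1075, 3)], [(690, 1),
  (816, 5), (819, 3), (826, 1), (937, 5), (945, 3), (946, 1), (1057, 3), (1072, 5), (1075, 3),
  (1082, 1), (1211, 3)], [(569, 1), (690, 1), (696, 1), (706, 1), (819, 3), (825, 3), (826, 1),
  (832, 1), (835, 3), (945, 3), (946, 1), (1072, 5), (1075, 3), (1082, 1), (1208, 3), (1209, 1),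
  (1211, 3)], [(706, 1), (825, 3), (826, 1), (832, 1), (835, 3), (945, 3), (946, 1), (1072, 5),
  (1075, 3), (1082, 1), (1208, 3), (1211, 3), (1217, 1)], [(690, 1), (811, 3), (826, 1), (936, 3),
  (945, 3), (946, 5)], [(811, 3), (825, 3), (826, 1), (945, 3), (946, 5), (1064, 3)], [(811, 3),
  (825, 3), (826, 1), (945, 3), (946, 5), (1072, 1)], [(825, 3), (826, 1), (832, 1), (835, 3),
  (945, 3), (1075, 3), (1082, 1), (1088, 3), (1211, 3)], [(826, 1), (832, 1), (945, 3), (961, 3),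
  (968, 3), (1075, 3), (1082, 1), (1088, 3), (1091, 3)], [(945, 3)], []]

def f28T : List (List (List (ℕ × ℕ))) :=
  [f28n0, f28n1, f28n2, f28n3, f28n4, f28n5]

/-- the configurations -/
def f28N (k : ℕ) : List (ℕ × ℕ) := (f28T.getD (k / 32) []).getD (k % 32) []

end Pool.Agent.FT4D
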